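import Pool.Agent.TSM.Closure
import Pool.Agent.TSR.Flip

set_option autoImplicit false

/-!
# States of oriented trees: values at `q0 = 4/π²` and Dirichlet seminorms (MP_d27362_co)

`Inv O`: `τ ∈ {0, 1}` and the values of `U`, `y` at `q0` are in `[0, 2]`. `xh O` is the oriented
`x` (`1 - X U` for `τ = 1`, `X U` for `τ = 0`), its value at `q0` is in `[0, 1]`.
-/

namespace Pool.Agent.TSM

open Finset Polynomial
open Pool.Agent.TSR (OBr e_signs sigma_even sigma_odd_sq)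
open Pool.Agent.TLT (sg)
open Pool.Agent.TDN (dn theta dn_nonneg dn_zero dn_one dn_neg theta_nonneg theta_sq)

noncomputable section

/-- the point `4/π²` -/
def q0 : ℝ := 4 / Real.pi ^ 2

lemma q0_pos : 0 < q0 := by unfold q0; positivity

lemma q0_le : q0 ≤ 4053 / 10000 := by
  unfold q0
  have h := Real.pi_gt_d6
  rw [div_le_iff₀ (by positivity)]
  nlinarith

lemma q0_ge : 4052 / 10000 ≤ q0 := by
  unfold q0
  have h := Real.pi_lt_d4
  have h0 := Real.pi_pos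
  rw [le_div_iff₀ (by positivity)]
  nlinarith

/-- the value of `U` at `q0` -/
def vU (O : OBr) : ℝ := (UU O).eval q0

/-- the value of `y` at `q0` -/
def vY (O : OBr) : ℝ := (YY O).eval q0

/-- the seminorm of `U` -/
def aU (O : OBr) : ℝ := dn q0 (UU O)

/-- the seminorm of `y` -/
def aY (O : OBr) : ℝ := dn q0 (YY O)

/-- the seminorm of `x` -/
def aX (O : OBr) : ℝ := dn q0 (XX O)

lemma aU_nonneg (O : OBr) : 0 ≤ aU O := dn_nonneg _ _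
lemma aY_nonneg (O : OBr) : 0 ≤ aY O := dn_nonneg _ _
lemma aX_nonneg (O : OBr) : 0 ≤ aX O := dn_nonneg _ _

/-- the oriented `x` -/
def xh (O : OBr) : ℝ[X] := if tau O = 1 then 1 - X * UU O else X * UU O

/-- the sign of the state for which the oriented `x` appears -/
def sx (O : OBr) : Bool := decide (tau O = 1)

/-- the invariant of the states -/
def Inv (O : OBr) : Prop :=
  (tau O = 0 ∨ tau O = 1) ∧ 0 ≤ vU O ∧ vU O ≤ 2 ∧ 0 ≤ vY O ∧ vY O ≤ 2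

lemma sx_smul {O : OBr} (h : tau O = 0 ∨ tau O = 1) : sg (sx O) • XX O = xh O := by
  unfold sx xh XX
  rcases h with h | h
  · rw [h, if_neg (by norm_num), decide_eq_false (by norm_num), TSR.sg_ff, C_0, zero_sub,
      neg_smul, one_smul, neg_neg]
  · rw [h, if_pos rfl, decide_eq_true rfl, TSR.sg_tt, one_smul, C_1]

lemma xh_eval_zero {O : OBr} (h : tau O = 0) (a : ℝ) :
    (xh O).eval a = a * (UU O).eval a := by
  unfold xh
  rw [h, if_neg (by norm_num), eval_mul, eval_X]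

lemma xh_eval_one {O : OBr} (h : tau O = 1) (a : ℝ) :
    (xh O).eval a = 1 - a * (UU O).eval a := by
  unfold xh
  rw [h, if_pos rfl, eval_sub, eval_one, eval_mul, eval_X]

lemma Inv.xT {O : OBr} (h : Inv O) : 0 ≤ (xh O).eval q0 ∧ (xh O).eval q0 ≤ 1 := by
  obtain ⟨h1, h2, h3, _⟩ := h
  have hq := q0_pos
  have hq1 := q0_le
  have e : (UU O).eval q0 = vU O := rfl
  have h4 : q0 * vU O ≤ 4053 / 10000 * 2 := mul_le_mul hq1 h3 h2 (by norm_num)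
  have h5 : 0 ≤ q0 * vU O := mul_nonneg hq.le h2
  rcases h1 with h1 | h1
  · rw [xh_eval_zero h1, e]
    constructor <;> linarith
  · rw [xh_eval_one h1, e]
    constructor <;> linarith

lemma sg_abs_mul (s : Bool) (x : ℝ) : |sg s * x| = |x| := by
  rw [abs_mul, TSR.sg_abs, one_mul]

lemma XX_eval_abs {O : OBr} (h : tau O = 0 ∨ tau O = 1) (a : ℝ) :
    |(XX O).eval a| = |(xh O).eval a| := by
  rw [← sx_smul h, eval_smul, smul_eq_mul, sg_abs_mul]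

lemma Inv.XXT {O : OBr} (h : Inv O) : |(XX O).eval q0| ≤ 1 := by
  rw [XX_eval_abs h.1, abs_of_nonneg h.xT.1]
  exact h.xT.2

lemma aX_sq_le (O : OBr) : aX O ^ 2 ≤ q0 ^ 2 * (vU O ^ 2 + aU O ^ 2) := by
  have e : aX O = dn q0 (X * UU O) := by
    unfold aX XX
    rw [TDN.dn_C_sub]
  rw [e]
  exact TDN.dn_X_mul_sq_le q0 q0_pos.le (UU O)

lemma aX_le (O : OBr) : aX O ≤ q0 * Real.sqrt (vU O ^ 2 + aU O ^ 2) := by
  have e : aX O = dn q0 (X * UU O) := by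
    unfold aX XX
    rw [TDN.dn_C_sub]
  rw [e]
  exact TDN.dn_X_mul_le q0 q0_pos.le (UU O)

/-- the pairs `(g, l)` with `aX ^ 2 ≤ q0 ^ 2 * (g * vU ^ 2 + l * aU ^ 2)` -/
def TX (g l : ℝ) : Prop := 1 ≤ g ∧ 1 ≤ l

lemma aX_tx {g l : ℝ} (h : TX g l) (O : OBr) :
    aX O ^ 2 ≤ q0 ^ 2 * (g * vU O ^ 2 + l * aU O ^ 2) := by
  refine (aX_sq_le O).trans (mul_le_mul_of_nonneg_left ?_ (sq_nonneg q0))
  have h1 := mul_le_mul_of_nonneg_right h.1 (sq_nonneg (vU O))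
  have h2 := mul_le_mul_of_nonneg_right h.2 (sq_nonneg (aU O))
  linarith

lemma aX_xh {O : OBr} (h : tau O = 0 ∨ tau O = 1) : dn q0 (xh O) = aX O := by
  have h1 : dn q0 (sg (sx O) • XX O) ^ 2 = dn q0 (XX O) ^ 2 := TSR.dn_sg q0_pos.le _ _
  rw [sx_smul h] at h1
  have h2 := abs_eq_abs.mpr (sq_eq_sq_iff_eq_or_eq_neg.mp h1)
  rwa [abs_of_nonneg (dn_nonneg _ _), abs_of_nonneg (dn_nonneg _ _)] at h2

/-- the width of the band around the value at `q0` -/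
def th (a : ℝ) : ℝ := theta q0 a

lemma th_nonneg (a : ℝ) : 0 ≤ th a := theta_nonneg _ _

lemma th_sq {a : ℝ} (ha : a ≤ q0) : th a ^ 2 = (q0 - a) / q0 := theta_sq q0 a q0_pos ha

lemma U_near (O : OBr) {a : ℝ} (h0 : 0 ≤ a) (h1 : a ≤ q0) :
    |(UU O).eval a - vU O| ≤ th a * aU O := TDN.abs_sub_le q0 q0_pos (UU O) a h0 h1

lemma Y_near (O : OBr) {a : ℝ} (h0 : 0 ≤ a) (h1 : a ≤ q0) :
    |(YY O).eval a - vY O| ≤ th a * aY O := TDN.abs_sub_le q0 q0_pos (YY O) a h0 h1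

/-! ### Items -/

/-- what the general sign lemmas need of a child: the two trivial ones and those with `Inv` -/
def Itm (O : OBr) : Prop := 0 ≤ vY O ∧ vY O ≤ 2 ∧ |(XX O).eval q0| ≤ 1

lemma Inv.itm {O : OBr} (h : Inv O) : Itm O := ⟨h.2.2.2.1, h.2.2.2.2, h.XXT⟩

@[simp] lemma XX_two : XX two = 1 := by
  rw [XX_cons, XX_nil, YY_nil, TSR.sg_tt]
  simp

@[simp] lemma YY_two : YY two = 0 := by
  rw [YY_cons, XX_nil, YY_nil]
  simp

@[simp] lemma UU_two : UU two = 0 := by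
  rw [UU_cons, YY_nil, UU_nil]
  simp

@[simp] lemma tau_two : tau two = 1 := by
  rw [tau_cons, tau_nil, TSR.sg_tt, add_zero]

lemma itm_nil : Itm .nil := by
  refine ⟨?_, ?_, ?_⟩
  · unfold vY; rw [YY_nil, eval_zero]
  · unfold vY; rw [YY_nil, eval_zero]; norm_num
  · rw [XX_nil, eval_zero]; norm_num

lemma itm_two : Itm two := by
  refine ⟨?_, ?_, ?_⟩
  · unfold vY; rw [YY_two, eval_zero]
  · unfold vY; rw [YY_two, eval_zero]; norm_num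
  · rw [XX_two, eval_one]; norm_num

lemma aY_nil : aY .nil = 0 := by unfold aY; rw [YY_nil, dn_zero]
lemma aX_nil : aX .nil = 0 := by unfold aX; rw [XX_nil, dn_zero]
lemma aY_two : aY two = 0 := by unfold aY; rw [YY_two, dn_zero]
lemma aX_two : aX two = 0 := by unfold aX; rw [XX_two, dn_one]

lemma vU_fam {K : ℕ} (σ e : Fin K → Bool) (O : Fin K → OBr) :
    vU (fam σ e O) = ∑ i, sg (σ i) * vY (O i) := by
  unfold vU vY
  rw [fam_UU, eval_finsetSum]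
  exact sum_congr rfl fun i _ => by rw [eval_smul, smul_eq_mul]

lemma vY_fam {K : ℕ} (σ e : Fin K → Bool) (O : Fin K → OBr) :
    vY (fam σ e O) = ∑ i, sg (e i) * (XX (O i)).eval q0 := by
  unfold vY
  rw [fam_YY, eval_finsetSum]
  exact sum_congr rfl fun i _ => by rw [eval_smul, smul_eq_mul]

lemma aU_fam_le {K : ℕ} (σ e : Fin K → Bool) (O : Fin K → OBr) :
    aU (fam σ e O) ≤ ∑ i, aY (O i) := by
  unfold aU
  rw [fam_UU]
  refine (TDN.dn_sum_le q0 q0_pos.le _ _).trans (sum_le_sum fun i _ => le_of_eq ?_)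
  have h1 : dn q0 (sg (σ i) • YY (O i)) ^ 2 = dn q0 (YY (O i)) ^ 2 := TSR.dn_sg q0_pos.le _ _
  have h2 := abs_eq_abs.mpr (sq_eq_sq_iff_eq_or_eq_neg.mp h1)
  rwa [abs_of_nonneg (dn_nonneg _ _), abs_of_nonneg (dn_nonneg _ _)] at h2

lemma aY_fam_le {K : ℕ} (σ e : Fin K → Bool) (O : Fin K → OBr) :
    aY (fam σ e O) ≤ ∑ i, aX (O i) := by
  unfold aY
  rw [fam_YY]
  refine (TDN.dn_sum_le q0 q0_pos.le _ _).trans (sum_le_sum fun i _ => le_of_eq ?_)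
  have h1 : dn q0 (sg (e i) • XX (O i)) ^ 2 = dn q0 (XX (O i)) ^ 2 := TSR.dn_sg q0_pos.le _ _
  have h2 := abs_eq_abs.mpr (sq_eq_sq_iff_eq_or_eq_neg.mp h1)
  rwa [abs_of_nonneg (dn_nonneg _ _), abs_of_nonneg (dn_nonneg _ _)] at h2

/-- **the signs of the states**, any number of children -/
theorem e_fam {K : ℕ} (O : Fin K → OBr) (h : ∀ i, Itm (O i)) :
    ∃ e : Fin K → Bool, ∀ σ : Fin K → Bool, 0 ≤ vY (fam σ e O) ∧ vY (fam σ e O) ≤ 2 ∧
      aY (fam σ e O) ^ 2 ≤ 4 / 3 * ∑ i, aX (O i) ^ 2 ∧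
      (K ≤ 2 → aY (fam σ e O) ^ 2 ≤ ∑ i, aX (O i) ^ 2) := by
  obtain ⟨e, h1, h2, h3, h4⟩ := e_signs (T := q0) q0_pos.le (fun i => XX (O i)) 1 zero_le_one
    (fun i => (h i).2.2)
  refine ⟨e, fun σ => ?_⟩
  unfold vY aY
  rw [fam_YY]
  exact ⟨h1, by linarith, h3, fun hK => h4 (by simpa using hK)⟩

/-- **the signs of the edges**, even number of children -/
theorem sigma_fam_even {K : ℕ} (hK : Even K) (O : Fin K → OBr) (h : ∀ i, Itm (O i)) :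
    ∃ σ : Fin K → Bool, ∑ i, sg (σ i) = 0 ∧ ∀ e : Fin K → Bool, tau (fam σ e O) = 0 ∧
      0 ≤ vU (fam σ e O) ∧ vU (fam σ e O) ≤ 2 ∧
      aU (fam σ e O) ^ 2 ≤ 2 * ∑ i, aY (O i) ^ 2 := by
  obtain ⟨σ, h1, h2, h3, h4⟩ := sigma_even (T := q0) q0_pos.le
    (by rwa [Fintype.card_fin]) (fun i => YY (O i)) 0 2 (by norm_num) (fun i => (h i).1)
    (fun i => (h i).2.1)
  refine ⟨σ, h1, fun e => ?_⟩
  unfold vU aU
  rw [fam_UU, fam_tau]
  exact ⟨h1, h2, by linarith, h4⟩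

/-- **the signs of the edges**, odd number of children -/
theorem sigma_fam_odd {K : ℕ} (hK : Odd K) (O : Fin K → OBr) (h : ∀ i, Itm (O i)) :
    ∃ σ : Fin K → Bool, ∑ i, sg (σ i) = 1 ∧ ∀ e : Fin K → Bool, tau (fam σ e O) = 1 ∧
      0 ≤ vU (fam σ e O) ∧ vU (fam σ e O) ≤ 2 ∧
      aU (fam σ e O) ^ 2 ≤ 3 * ∑ i, aY (O i) ^ 2 ∧
      ((∃ i, O i = .nil ∨ O i = two) → aU (fam σ e O) ^ 2 ≤ 2 * ∑ i, aY (O i) ^ 2) := by
  obtain ⟨σ, h1, h2, h3, h4, h5⟩ := sigma_odd_sq (T := q0) q0_pos.le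
    (by rwa [Fintype.card_fin]) (fun i => YY (O i)) 2 (fun i => (h i).1)
    (fun i => (h i).2.1)
  refine ⟨σ, h1, fun e => ?_⟩
  unfold vU aU
  rw [fam_UU, fam_tau]
  refine ⟨h1, h2, h3, h4, fun ⟨i, hi⟩ => h5 ⟨i, ?_⟩⟩
  rcases hi with hi | hi
  · rw [hi, YY_nil]
  · rw [hi, YY_two]

/-- **an even number of children**: signs with the invariant and the bounds of the seminorms -/
theorem inv_even {K : ℕ} (hK : Even K) (O : Fin K → OBr) (h : ∀ i, Itm (O i)) :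
    ∃ σ e : Fin K → Bool, ∑ i, sg (σ i) = 0 ∧ Inv (fam σ e O) ∧ tau (fam σ e O) = 0 ∧
      aU (fam σ e O) ^ 2 ≤ 2 * ∑ i, aY (O i) ^ 2 ∧
      aY (fam σ e O) ^ 2 ≤ 4 / 3 * ∑ i, aX (O i) ^ 2 := by
  obtain ⟨e, he⟩ := e_fam O h
  obtain ⟨σ, hσ, hσ'⟩ := sigma_fam_even hK O h
  obtain ⟨h1, h2, h3, _⟩ := he σ
  obtain ⟨h4, h5, h6, h7⟩ := hσ' e
  exact ⟨σ, e, hσ, ⟨Or.inl h4, h5, h6, h1, h2⟩, h4, h7, h3⟩

/-- **an odd number of children**: signs with the invariant and the bounds of the seminorms -/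
theorem inv_odd {K : ℕ} (hK : Odd K) (O : Fin K → OBr) (h : ∀ i, Itm (O i)) :
    ∃ σ e : Fin K → Bool, ∑ i, sg (σ i) = 1 ∧ Inv (fam σ e O) ∧ tau (fam σ e O) = 1 ∧
      aU (fam σ e O) ^ 2 ≤ 3 * ∑ i, aY (O i) ^ 2 ∧
      ((∃ i, O i = .nil ∨ O i = two) → aU (fam σ e O) ^ 2 ≤ 2 * ∑ i, aY (O i) ^ 2) ∧
      aY (fam σ e O) ^ 2 ≤ 4 / 3 * ∑ i, aX (O i) ^ 2 := by
  obtain ⟨e, he⟩ := e_fam O h
  obtain ⟨σ, hσ, hσ'⟩ := sigma_fam_odd hK O h
  obtain ⟨h1, h2, h3, _⟩ := he σ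
  obtain ⟨h4, h5, h6, h7, h8⟩ := hσ' e
  exact ⟨σ, e, hσ, ⟨Or.inr h4, h5, h6, h1, h2⟩, h4, h7, h8, h3⟩

end

end Pool.Agent.TSM
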