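import Pool.Agent.TSM.KindH

set_option autoImplicit false

/-!
# Distances in a rooted tree (MP_d27362_co)
-/

namespace Pool.Agent.TSM

open Finset
open Pool.Agent.TFin (RT ch IsVal)

noncomputable section

variable {Vt : Type} [Fintype Vt] [DecidableEq Vt] {T : SimpleGraph Vt} {par : Vt → Vt}
  {dep : Vt → ℕ} {r : Vt}

/-- `u` is `x` or a descendant of `x` -/
inductive Dc (par : Vt → Vt) (r : Vt) : Vt → Vt → Prop
  | refl (x : Vt) : Dc par r x x
  | step {x y u : Vt} (h : y ∈ ch par r x) (h2 : Dc par r y u) : Dc par r x u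

lemma dep_adj (hR : RT par dep r)
    (hadj : ∀ u v, T.Adj u v ↔ (u ≠ r ∧ par u = v) ∨ (v ≠ r ∧ par v = u)) {a b : Vt}
    (h : T.Adj a b) : dep b ≤ dep a + 1 := by
  rw [hadj] at h
  rcases h with ⟨h1, h2⟩ | ⟨h1, h2⟩
  · have := hR.step a h1
    rw [h2] at this
    omega
  · have := hR.step b h1
    rw [h2] at this
    omega

lemma dep_walk (hR : RT par dep r)
    (hadj : ∀ u v, T.Adj u v ↔ (u ≠ r ∧ par u = v) ∨ (v ≠ r ∧ par v = u)) {a b : Vt}
    (p : T.Walk a b) : dep b ≤ dep a + p.length := by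
  induction p with
  | nil => simp
  | cons h p ih =>
    have := dep_adj hR hadj h
    rw [SimpleGraph.Walk.length_cons]
    omega

lemma dep_le_dist (hT : T.IsTree) (hR : RT par dep r)
    (hadj : ∀ u v, T.Adj u v ↔ (u ≠ r ∧ par u = v) ∨ (v ≠ r ∧ par v = u)) (a b : Vt) :
    dep b ≤ dep a + T.dist a b := by
  obtain ⟨p, hp⟩ := (hT.1 a b).exists_walk_length_eq_dist
  rw [← hp]
  exact dep_walk hR hadj p

lemma dist_adj_le (hT : T.IsTree) {a b : Vt} (h : T.Adj a b) (u : Vt) :
    T.dist a u ≤ T.dist b u + 1 := by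
  have h1 := hT.1.dist_triangle (u := a) (v := b) (w := u)
  have h2 : T.dist a b = 1 := SimpleGraph.dist_eq_one_iff_adj.2 h
  omega

lemma dist_Dc (hT : T.IsTree) (hR : RT par dep r)
    (hadj : ∀ u v, T.Adj u v ↔ (u ≠ r ∧ par u = v) ∨ (v ≠ r ∧ par v = u)) {c u : Vt}
    (hu : Dc par r c u) : T.dist c u + dep c ≤ dep u := by
  induction hu with
  | refl x => simp
  | @step x y u h _ ih =>
    have h1 := dist_adj_le hT ((T.mem_neighborSet _ _).1 (ch_nb hadj h)) u
    rw [TSR.mem_ch] at h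
    have e1 := hR.step _ h.1
    rw [h.2] at e1
    omega

lemma dist_lt_of_Dc (hT : T.IsTree) (hR : RT par dep r)
    (hadj : ∀ u v, T.Adj u v ↔ (u ≠ r ∧ par u = v) ∨ (v ≠ r ∧ par v = u)) {v c u : Vt}
    (hc : c ∈ ch par r v) (hu : Dc par r c u) : T.dist c u < T.dist v u := by
  have h1 := dist_Dc hT hR hadj hu
  have h2 := dep_le_dist hT hR hadj v u
  rw [TSR.mem_ch] at hc
  have e1 := hR.step _ hc.1
  rw [hc.2] at e1
  omega

lemma dist_root_le (hT : T.IsTree) (hR : RT par dep r)
    (hadj : ∀ u v, T.Adj u v ↔ (u ≠ r ∧ par u = v) ∨ (v ≠ r ∧ par v = u)) (n : ℕ) :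
    ∀ v, dep v = n → T.dist v r ≤ n := by
  induction n with
  | zero =>
    intro v hv
    have : v = r := by
      by_contra h
      have := hR.step v h
      omega
    rw [this, SimpleGraph.dist_self]
  | succ n ih =>
    intro v hv
    by_cases h : v = r
    · rw [h, SimpleGraph.dist_self]
      exact Nat.zero_le _
    · have h1 := hR.step v h
      have h2 := ih (par v) (by omega)
      have h3 := dist_adj_le hT ((T.mem_neighborSet _ _).1 (par_nb hadj h)) r
      omega

lemma dist_root_lt (hT : T.IsTree) (hR : RT par dep r)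
    (hadj : ∀ u v, T.Adj u v ↔ (u ≠ r ∧ par u = v) ∨ (v ≠ r ∧ par v = u)) {v : Vt}
    (hv : v ≠ r) : T.dist (par v) r < T.dist v r := by
  have h1 := dist_root_le hT hR hadj _ (par v) rfl
  have h2 := dep_le_dist hT hR hadj r v
  rw [hR.root, SimpleGraph.dist_comm] at h2
  have h3 := hR.step v hv
  omega

lemma dist_other (hT : T.IsTree) {v w u : Vt} (hv : T.Adj r v) (hw : T.Adj r w) (hwv : w ≠ v)
    (h : T.dist w u < T.dist r u) : T.dist r u < T.dist v u := by
  rcases hT.dist_eq_dist_add_one_of_adj u hv with h1 | h1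
  · exfalso
    have h2 : T.dist u r = T.dist u w + 1 := by
      rcases hT.dist_eq_dist_add_one_of_adj u hw with h2 | h2
      · exact h2
      · rw [T.dist_comm (u := w), T.dist_comm (u := r)] at h
        omega
    obtain ⟨p, hp⟩ := (hT.1 v u).exists_walk_length_eq_dist
    obtain ⟨q, hq⟩ := (hT.1 w u).exists_walk_length_eq_dist
    have h3 : (SimpleGraph.Walk.cons hv p).IsPath := by
      refine SimpleGraph.Walk.isPath_of_length_eq_dist _ ?_
      rw [SimpleGraph.Walk.length_cons, hp, T.dist_comm (u := v), T.dist_comm (u := r), h1]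
    have h4 : (SimpleGraph.Walk.cons hw q).IsPath := by
      refine SimpleGraph.Walk.isPath_of_length_eq_dist _ ?_
      rw [SimpleGraph.Walk.length_cons, hq, T.dist_comm (u := w), T.dist_comm (u := r), h2]
    have h5 : (⟨_, h3⟩ : T.Path r u) = ⟨_, h4⟩ := (hT.isAcyclic.subsingleton_path r u).elim _ _
    have h6 := congrArg (fun x : T.Path r u => x.1.snd) h5
    simp only [SimpleGraph.Walk.snd_cons] at h6
    exact hwv h6.symm
  · rw [T.dist_comm (u := r), T.dist_comm (u := v)]
    omega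

end

end Pool.Agent.TSM
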