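import Pool.Agent.TSM.KindU1
import Pool.Agent.TSM.KindU2

set_option autoImplicit false

/-!
# Assembly with the number of branches which contain a vertex of even degree (MP_d27362_co)

A branch all of whose vertices have an even number of children is reduced to a leaf. So a branch
counts only if it contains a vertex of even degree other than its root.
-/

namespace Pool.Agent.TSM

open Finset Polynomial
open Pool.Agent.TSP
open Pool.Agent.TSO
open Pool.Agent.TSR (OBr Ker Br Red Cn2 leafB twoB sg_true sg_false vS_rev GoodBr rm red)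
open Pool.Agent.TLT (sg)
open Pool.Agent.TFin (RT ch IsVal)

noncomputable section

section Graph

variable {Vt : Type} [Fintype Vt] [DecidableEq Vt]

open Classical in
/-- the children with a vertex strictly below them which has an odd number of children -/
def nuc (par : Vt → Vt) (r v : Vt) : Finset Vt :=
  (ch par r v).filter fun c => ∃ x ∈ ch par r c, ∃ u, Dc par r x u ∧ Odd (ch par r u).card

lemma brV_kids {par : Vt → Vt} {r : Vt} (n : ℕ) (v : Vt) :
    (TSR.brV par r (n + 1) v).kids = (ch par r v).toList.map fun c => TSR.brV par r n c := by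
  show (Br.mk _).kids = _
  rw [Br.kids_mk]

lemma AE_brV {par : Vt → Vt} {r : Vt} (n : ℕ) (x : Vt)
    (h : ∀ u, Dc par r x u → Even (ch par r u).card) : AE (TSR.brV par r n x) := by
  induction n generalizing x with
  | zero =>
    refine AE.mk _ (fun c hc => by simp [TSR.brV] at hc) ?_
    have e1 : (TSR.brV par r 0 x).kids.length = 0 := by simp [TSR.brV]
    rw [e1]
    exact ⟨0, rfl⟩
  | succ n ih =>
    refine AE.mk _ (fun c hc => ?_) ?_
    · rw [brV_kids, List.mem_map] at hc
      obtain ⟨y, hy, rfl⟩ := hc
      exact ih y fun u hu => h u (Dc.step (Finset.mem_toList.1 hy) hu)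
    · rw [brV_kids, List.length_map, Finset.length_toList]
      exact h x (Dc.refl x)

lemma NU_brV {p : ℕ → ℕ → Prop} (hm : ParP p) (h0 : p 0 0) {par : Vt → Vt} {r : Vt}
    (h : ∀ v, p (ch par r v).card (nuc par r v).card) (n : ℕ) (v : Vt) :
    NU p (TSR.brV par r n v) := by
  classical
  induction n generalizing v with
  | zero =>
    refine NU.mk _ (fun c hc => by simp [TSR.brV] at hc) ?_
    have e1 : (TSR.brV par r 0 v).kids.length = 0 := by simp [TSR.brV]
    have e2 : nuB (TSR.brV par r 0 v) = 0 := by simp [TSR.brV, nuB]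
    rw [e1, e2]
    exact h0
  | succ n ih =>
    have e1 := brV_kids (par := par) (r := r) n v
    refine NU.mk _ (fun c hc => ?_) ?_
    · rw [e1, List.mem_map] at hc
      obtain ⟨x, _, rfl⟩ := hc
      exact ih x
    · have e2 : (TSR.brV par r (n + 1) v).kids.length = (ch par r v).card := by
        rw [e1, List.length_map, Finset.length_toList]
      rw [e2]
      refine hm.snd ?_ (h v)
      unfold nuB
      rw [e1, List.filter_map, List.length_map]
      have h2 : ((ch par r v).toList.filter
          ((fun c => decide (∃ x ∈ c.kids, ¬ AE x)) ∘ fun c => TSR.brV par r n c)).length ≤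
          ((ch par r v).toList.filter fun c =>
            decide (∃ x ∈ ch par r c, ∃ u, Dc par r x u ∧ Odd (ch par r u).card)).length := by
        refine (List.monotone_filter_right _ fun c hc => ?_).length_le
        rw [Function.comp_apply, decide_eq_true_eq] at hc
        rw [decide_eq_true_eq]
        obtain ⟨y, hy, hy2⟩ := hc
        cases n with
        | zero => simp [TSR.brV] at hy
        | succ n =>
          rw [brV_kids n c, List.mem_map] at hy
          obtain ⟨x, hx, rfl⟩ := hy
          refine ⟨x, Finset.mem_toList.1 hx, ?_⟩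
          by_contra hx2
          push Not at hx2
          exact hy2 (AE_brV n x fun u hu => Nat.not_odd_iff_even.1 (hx2 u hu))
      refine h2.trans ?_
      rw [← List.toFinset_card_of_nodup ((Finset.nodup_toList _).filter _)]
      refine card_le_card fun x hx => ?_
      rw [List.mem_toFinset, List.mem_filter, Finset.mem_toList, decide_eq_true_eq] at hx
      unfold nuc
      exact mem_filter.mpr hx

end Graph

/-- the neighbours `w` of `v` for which a vertex of even degree other than `w` is closer to `w`
than to `v` -/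
def uS {V : Type} (T : SimpleGraph V) (v : V) : Set V :=
  {w ∈ T.neighborSet v | ∃ u, u ≠ w ∧ Even (T.neighborSet u).ncard ∧ T.dist w u < T.dist v u}

section Root

variable {Vt : Type} [Fintype Vt] [DecidableEq Vt] {T : SimpleGraph Vt} {par : Vt → Vt}
  {dep : Vt → ℕ} {r : Vt}

lemma Dc_dep (hR : RT par dep r) {x u : Vt} (h : Dc par r x u) : dep x ≤ dep u := by
  induction h with
  | refl x => exact le_rfl
  | step h _ ih =>
    rw [TSR.mem_ch] at h
    have e1 := hR.step _ h.1
    rw [h.2] at e1
    omega

lemma nuc_sub (hT : T.IsTree) (hR : RT par dep r)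
    (hadj : ∀ u v, T.Adj u v ↔ (u ≠ r ∧ par u = v) ∨ (v ≠ r ∧ par v = u)) (v : Vt) :
    (nuc par r v : Set Vt) ⊆ uS T v := by
  classical
  intro c hc
  rw [mem_coe] at hc
  unfold nuc at hc
  rw [mem_filter] at hc
  obtain ⟨h1, x, hx, u, hu, hodd⟩ := hc
  have e1 := Dc_dep hR hu
  have hx1 := TSR.mem_ch.mp hx
  have e2 := hR.step x hx1.1
  rw [hx1.2] at e2
  have hur : u ≠ r := by
    rintro rfl
    rw [hR.root] at e1
    omega
  refine ⟨ch_nb hadj h1, u, ?_, ?_, dist_lt_of_Dc hT hR hadj h1 (Dc.step hx hu)⟩
  · rintro rfl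
    omega
  · have e3 := card_ch hR hadj hur
    obtain ⟨k, hk⟩ := hodd
    exact ⟨k + 1, by omega⟩

/-- the parent is seen if the root has even degree, or from the other branches of the root -/
lemma par_mem_uS (hT : T.IsTree) (hR : RT par dep r)
    (hadj : ∀ u v, T.Adj u v ↔ (u ≠ r ∧ par u = v) ∨ (v ≠ r ∧ par v = u))
    (hr : Even (T.neighborSet r).ncard) (hr2 : 2 ≤ (uS T r).ncard) {v : Vt} (hv : v ≠ r) :
    par v ∈ uS T v := by
  refine ⟨par_nb hadj hv, ?_⟩
  by_cases hw : par v = r
  · have h3 : ∃ w ∈ uS T r, w ≠ v := by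
      by_contra hno
      push Not at hno
      have h4 : uS T r ⊆ {v} := fun w hw2 => hno w hw2
      have h5 := Set.ncard_le_ncard h4 (Set.toFinite _)
      rw [Set.ncard_singleton] at h5
      omega
    obtain ⟨w, ⟨h4, u, h5, h6, h7⟩, h8⟩ := h3
    have h9 : T.Adj r v := by
      have := (T.mem_neighborSet _ _).1 (par_nb hadj hv)
      rw [hw] at this
      exact this.symm
    rw [hw]
    refine ⟨u, ?_, h6, dist_other hT h9 ((T.mem_neighborSet _ _).1 h4) h8 h7⟩
    rintro rfl
    rw [SimpleGraph.dist_self] at h7
    omega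
  · exact ⟨r, Ne.symm hw, hr, dist_root_lt hT hR hadj hv⟩

/-- the allowed vertices of the rooted tree -/
lemma p_of_rootU (hT : T.IsTree) (hR : RT par dep r)
    (hadj : ∀ u v, T.Adj u v ↔ (u ≠ r ∧ par u = v) ∨ (v ≠ r ∧ par v = u))
    (hr : Even (T.neighborSet r).ncard ∨ ∀ u, ¬ Even (T.neighborSet u).ncard)
    (hcl : 2 ≤ (uS T r).ncard ∨ ∀ v, Even (T.neighborSet v).ncard → (uS T v).ncard ≤ 1)
    (hp : ∀ v, v ≠ r → Even (T.neighborSet v).ncard → (uS T v).ncard ≤ 2) (v : Vt) :
    (nuc par r v).card ≤ 1 ∨ Even (ch par r v).card := by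
  classical
  have hsub := nuc_sub hT hR hadj v
  have hle : (nuc par r v).card ≤ (uS T v).ncard := by
    rw [← Set.ncard_coe_finset]
    exact Set.ncard_le_ncard hsub (Set.toFinite _)
  by_cases hv : v = r
  · rcases hr with h1 | h1
    · right
      rw [hv, card_ch_rootH hadj]
      exact h1
    · left
      have h2 : uS T v = ∅ := by
        rw [Set.eq_empty_iff_forall_notMem]
        rintro w ⟨_, u, _, h3, _⟩
        exact h1 u h3
      rw [h2, Set.ncard_empty] at hle
      omega
  · by_cases he : Even (T.neighborSet v).ncard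
    · left
      rcases hcl with h1 | h1
      · have hre : Even (T.neighborSet r).ncard := by
          rcases hr with h2 | h2
          · exact h2
          · have h3 : uS T r = ∅ := by
              rw [Set.eq_empty_iff_forall_notMem]
              rintro w ⟨_, u, _, h3, _⟩
              exact h2 u h3
            rw [h3, Set.ncard_empty] at h1
            omega
        have h6 : insert (par v) (nuc par r v : Set Vt) ⊆ uS T v := by
          intro c hc
          rw [Set.mem_insert_iff] at hc
          rcases hc with rfl | hc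
          · exact par_mem_uS hT hR hadj hre h1 hv
          · exact hsub hc
        have h7 := Set.ncard_le_ncard h6 (Set.toFinite _)
        have h8 : par v ∉ (nuc par r v : Set Vt) := by
          intro h
          rw [mem_coe] at h
          unfold nuc at h
          exact par_not_ch hR hv (mem_filter.mp h).1
        rw [Set.ncard_insert_of_notMem h8 (Set.toFinite _), Set.ncard_coe_finset] at h7
        have h9 := hp v hv he
        omega
      · exact hle.trans (h1 v he)
    · right
      rw [card_ch hR hadj hv]
      rw [Nat.not_even_iff_odd] at he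
      obtain ⟨k, hk⟩ := he
      exact ⟨k, by omega⟩

end Root

variable {Y : Sys} {Adm : ℕ → ℝ → ℝ → ℝ → ℝ → Prop} {V P : ℝ → ℝ → Sn → ℝ}

/-- **Assembly** with a given root -/
theorem asm_pU (C : Cert Y Adm V P)
    (hE : ∀ (lf tw : Bool) (m : ℕ), 2 ≤ m → Even (lf.toNat + tw.toNat + m) →
      4 ≤ lf.toNat + tw.toNat + m → PoT Y Adm V P lf tw m) (n : ℕ)
    (T : SimpleGraph (Fin n)) (hT : T.IsTree) (r : Fin n)
    (hr : Even (T.neighborSet r).ncard ∨ ∀ u, ¬ Even (T.neighborSet u).ncard)
    (hcl : 2 ≤ (uS T r).ncard ∨ ∀ v, Even (T.neighborSet v).ncard → (uS T v).ncard ≤ 1)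
    (hp : ∀ v, v ≠ r → Even (T.neighborSet v).ncard → (uS T v).ncard ≤ 2) : AntiT n T := by
  set p : ℕ → ℕ → Prop := fun a b => b ≤ 1 ∨ Even a with hpd
  have hm : ParP p := by
    intro a b a' b' h1 h2 h3 h4
    rcases h4 with h4 | h4
    · exact Or.inl (h3.trans h4)
    · exact Or.inr (by rw [Nat.even_iff] at h4 ⊢; omega)
  have big : ∀ (lf tw : Bool) (L : List OBr),
      p (lf.toNat + tw.toNat + L.length) L.length → 2 ≤ L.length →
      3 ≤ (items lf tw L).length → (∀ O ∈ L, PO Y Adm V P O) →
      ∃ σ e : Fin (items lf tw L).length → Bool,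
        PO Y Adm V P (fam σ e (items lf tw L).get) := by
    intro lf tw L h1 h2 h3 hPO
    rw [items_length] at h3
    have h4 : Even (lf.toNat + tw.toNat + L.length) := by
      rcases h1 with h1 | h1
      · omega
      · exact h1
    have h5 : 4 ≤ lf.toNat + tw.toNat + L.length := by
      rw [Nat.even_iff] at h4
      omega
    obtain ⟨N, hI, hN⟩ := itD_exists lf tw L (PO Y Adm V P) hPO
    obtain ⟨tc, hTc⟩ := famT_exists hN hI.hM
    exact hE lf tw L.length h2 h4 h5 _ _ N tc hI hTc
  have hgood : ∀ b, NU p b → GoodBr b := fun b hb => good_of_red_one b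
    (asm_q _ C big _ (TSR.Red_red Cn2 b) (OKq_of_NU hm hb))
  obtain ⟨D, hD, h1⟩ := anti_of_good T hT r (NU p) hgood (fun inst par dep hR hadj k => by
    have e : inst = instDecidableEqFin n := Subsingleton.elim _ _
    subst e
    exact NU_brV hm (Or.inl (by norm_num))
      (fun v => p_of_rootU hT hR hadj hr hcl hp v) k r)
  refine ⟨D, hD.1, hD.2, fun m G hG1 hG2 => ?_⟩
  have := h1 m G ⟨hG1, hG2⟩
  rwa [Fintype.card_fin] at this

/-- **The main assembly**: every vertex `v` of even degree, except at most one, has at most two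
neighbours `w` for which a vertex of even degree other than `w` is closer to `w` than to `v` -/
theorem asm_even_u (C : Cert Y Adm V P)
    (hE : ∀ (lf tw : Bool) (m : ℕ), 2 ≤ m → Even (lf.toNat + tw.toNat + m) →
      4 ≤ lf.toNat + tw.toNat + m → PoT Y Adm V P lf tw m) (n : ℕ)
    (T : SimpleGraph (Fin n)) (hT : T.IsTree) (r : Fin n)
    (h : ∀ v, v ≠ r → Even (T.neighborSet v).ncard → (uS T v).ncard ≤ 2) : AntiT n T := by
  by_cases h1 : Even (T.neighborSet r).ncard ∧ 3 ≤ (uS T r).ncard
  · exact asm_pU C hE n T hT r (Or.inl h1.1) (Or.inl (by omega)) h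
  · have hall : ∀ v, Even (T.neighborSet v).ncard → (uS T v).ncard ≤ 2 := by
      intro v hv
      by_cases hvr : v = r
      · subst hvr
        by_contra hc
        exact h1 ⟨hv, by omega⟩
      · exact h v hvr hv
    by_cases h2 : ∃ s, Even (T.neighborSet s).ncard ∧ 2 ≤ (uS T s).ncard
    · obtain ⟨s, hs1, hs2⟩ := h2
      exact asm_pU C hE n T hT s (Or.inl hs1) (Or.inl hs2) fun v _ hv => hall v hv
    · have h3 : ∀ v, Even (T.neighborSet v).ncard → (uS T v).ncard ≤ 1 := by
        intro v hv
        by_contra hc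
        exact h2 ⟨v, hv, by omega⟩
      by_cases h4 : ∃ s, Even (T.neighborSet s).ncard
      · obtain ⟨s, hs1⟩ := h4
        exact asm_pU C hE n T hT s (Or.inl hs1) (Or.inr h3) fun v _ hv => hall v hv
      · exact asm_pU C hE n T hT r (Or.inr fun u hu => h4 ⟨u, hu⟩) (Or.inr h3)
          fun v _ hv => hall v hv

end

end Pool.Agent.TSM
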