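import Pool.Agent.TSM.KindF

set_option autoImplicit false

/-!
# Assembly with the number of branches of height at least two (MP_d27362_co)

The reduction works from the leaves to the root: a branch of height at most one becomes a leaf or a
path with two vertices, and these are removed in pairs. So only the branches of height at least two
count. One vertex, the root, may have any even number of neighbours.
-/

namespace Pool.Agent.TSM

open Finset Polynomial
open Pool.Agent.TSP
open Pool.Agent.TSO
open Pool.Agent.TSR (OBr Ker Br Red Cn2 leafB twoB sg_true sg_false vS_rev GoodBr rm red)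
open Pool.Agent.TLT (sg)
open Pool.Agent.TFin (RT ch IsVal)

noncomputable section

/-- the height of the branch is at least two -/
def Hi (c : Br) : Prop := ∃ x ∈ c.kids, x ≠ leafB

open Classical in
/-- the number of branches of height at least two -/
def nhB (b : Br) : ℕ := (b.kids.filter fun c => decide (Hi c)).length

/-- all vertices of the rooted tree are allowed -/
inductive NQ (p : ℕ → ℕ → Prop) : Br → Prop
  | mk (b : Br) (h : ∀ c ∈ b.kids, NQ p c) (hp : p b.kids.length (nhB b)) : NQ p b

lemma nhB_cons_neg {c : Br} (h : ¬ Hi c) (t : Br) : nhB (.cons c t) = nhB t := by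
  unfold nhB
  rw [Br.kids_cons, List.filter_cons_of_neg (by simpa using h)]

lemma nhB_cons_pos {c : Br} (h : Hi c) (t : Br) : nhB (.cons c t) = nhB t + 1 := by
  unfold nhB
  rw [Br.kids_cons, List.filter_cons_of_pos (by simpa using h), List.length_cons]

lemma nhB_rm (q t : Br) : nhB (rm q t) ≤ nhB t := by
  induction t with
  | nil => exact le_rfl
  | cons d t _ ih =>
    unfold rm
    split_ifs
    · by_cases h : Hi d
      · rw [nhB_cons_pos h]
        omega
      · rw [nhB_cons_neg h]
    · by_cases h : Hi d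
      · rw [nhB_cons_pos h, nhB_cons_pos h]
        omega
      · rw [nhB_cons_neg h, nhB_cons_neg h]
        exact ih

lemma Hi_red (Cn : Br → Prop) {b : Br} (h : Hi (red Cn b)) : Hi b := by
  obtain ⟨x, hx, h1⟩ := h
  obtain ⟨d, hd, rfl⟩ := kids_red Cn b x hx
  refine ⟨d, hd, ?_⟩
  rintro rfl
  exact h1 (red_leaf Cn)

lemma nhB_red (Cn : Br → Prop) (b : Br) : nhB (red Cn b) ≤ nhB b := by
  induction b with
  | nil => exact le_rfl
  | cons c t _ ih =>
    have h1 : nhB t ≤ nhB (.cons c t) := by
      by_cases h : Hi c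
      · rw [nhB_cons_pos h]
        omega
      · rw [nhB_cons_neg h]
    unfold red
    split_ifs
    · exact ((nhB_rm _ _).trans ih).trans h1
    · by_cases h : Hi (red Cn c)
      · rw [nhB_cons_pos h, nhB_cons_pos (Hi_red Cn h)]
        omega
      · rw [nhB_cons_neg h]
        exact ih.trans h1

lemma NQ.red {p : ℕ → ℕ → Prop} (hm : ParP p) (Cn : Br → Prop) {b : Br} (h : NQ p b) :
    NQ p (TSR.red Cn b) := by
  revert h
  refine Br.induct (P := fun b => NQ p b → NQ p (TSR.red Cn b)) (fun b ih hb => ?_) b
  obtain ⟨_, h1, h2⟩ := hb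
  refine NQ.mk _ (fun c hc => ?_)
    (hm _ _ _ _ (red_len Cn b) (red_par Cn b) (nhB_red Cn b) h2)
  obtain ⟨d, hd, rfl⟩ := kids_red Cn b c hc
  exact ih d hd (h1 d hd)

lemma kids_eq_nil {b : Br} (h : ∀ x, x ∉ b.kids) : b = leafB := by
  cases b with
  | nil => rfl
  | cons c t => exact absurd (by simp) (h c)

/-- a reduced branch which is neither a leaf nor the path has height at least two -/
lemma Hi_of_Red {c : Br} (hR : Red Cn2 c) (h1 : c ≠ leafB) (h2 : c ≠ twoB) : Hi c := by
  by_contra hc
  have h3 : ∀ x ∈ c.kids, x = leafB := by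
    intro x hx
    by_contra h
    exact hc ⟨x, hx, h⟩
  cases c with
  | nil => exact h1 rfl
  | cons d t =>
    have h4 : d = leafB := h3 d (by simp)
    obtain ⟨_, _, h5⟩ := hR
    have h6 : t = leafB := by
      refine kids_eq_nil fun x hx => ?_
      have h7 : x = leafB := h3 x (by rw [Br.kids_cons]; exact List.mem_cons_of_mem _ hx)
      have h8 := h5 (Or.inl h4)
      rw [h4, ← h7] at h8
      exact h8 hx
    rw [h4, h6] at h2
    exact h2 rfl

open Classical in
lemma nhB_ge (b : Br) (hR : Red Cn2 b) :
    ((b.kids.filter fun c => !decide (c = leafB)).filter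
      fun c => !decide (c = twoB)).length ≤ nhB b := by
  unfold nhB
  rw [List.filter_filter, ← List.countP_eq_length_filter, ← List.countP_eq_length_filter]
  refine List.countP_mono_left fun c hc h => ?_
  rw [Bool.and_eq_true, Bool.not_eq_true', Bool.not_eq_true', decide_eq_false_iff_not,
    decide_eq_false_iff_not] at h
  rw [decide_eq_true_eq]
  exact Hi_of_Red (Red_kids _ b hR c hc) h.2 h.1

open Classical in
/-- the kinds of a reduced rooted tree -/
lemma OKq_of_NQ {p : ℕ → ℕ → Prop} (hm : ParP p) {b : Br} (hR : Red Cn2 b) (h : NQ p b) :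
    OKq (fun lf tw n => p (lf.toNat + tw.toNat + n) n) b := by
  revert hR h
  refine Br.induct (P := fun b => Red Cn2 b → NQ p b →
    OKq (fun lf tw n => p (lf.toNat + tw.toNat + n) n) b)
    (fun b ih hR hb => ?_) b
  obtain ⟨_, hk1, hp⟩ := hb
  refine OKq.mk b (fun c hc => ih c hc (Red_kids _ b hR c hc) (hk1 c hc)) ?_
  show p ((decide (leafB ∈ b.kids)).toNat + (decide (twoB ∈ b.kids)).toNat +
    ((b.kids.filter fun c => !decide (c = leafB)).filter fun c => !decide (c = twoB)).length)
    ((b.kids.filter fun c => !decide (c = leafB)).filter fun c => !decide (c = twoB)).length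
  rw [Red_count b hR]
  exact hm.snd (nhB_ge b hR) hp

section Graph

variable {Vt : Type} [Fintype Vt] [DecidableEq Vt]

open Classical in
/-- the children with a child which has a child -/
def nhc (par : Vt → Vt) (r v : Vt) : Finset Vt :=
  (ch par r v).filter fun c => ∃ x ∈ ch par r c, (ch par r x).Nonempty

lemma brV_leaf {par : Vt → Vt} {r x : Vt} (h : ¬ (ch par r x).Nonempty) (n : ℕ) :
    TSR.brV par r n x = leafB := by
  rw [not_nonempty_iff_eq_empty] at h
  cases n with
  | zero => rfl
  | succ n =>
    show Br.mk _ = _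
    rw [h, Finset.toList_empty]
    rfl

lemma NQ_brV {p : ℕ → ℕ → Prop} (hm : ParP p) (h0 : p 0 0) {par : Vt → Vt} {r : Vt}
    (h : ∀ v, p (ch par r v).card (nhc par r v).card) (n : ℕ) (v : Vt) :
    NQ p (TSR.brV par r n v) := by
  classical
  have e0 : ∀ (n : ℕ) (v : Vt), (TSR.brV par r (n + 1) v).kids = (ch par r v).toList.map fun c =>
      TSR.brV par r n c := by
    intro n v
    show (Br.mk _).kids = _
    rw [Br.kids_mk]
  induction n generalizing v with
  | zero =>
    refine NQ.mk _ (fun c hc => by simp [TSR.brV] at hc) ?_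
    have e1 : (TSR.brV par r 0 v).kids.length = 0 := by simp [TSR.brV]
    have e2 : nhB (TSR.brV par r 0 v) = 0 := by simp [TSR.brV, nhB]
    rw [e1, e2]
    exact h0
  | succ n ih =>
    have e1 := e0 n v
    refine NQ.mk _ (fun c hc => ?_) ?_
    · rw [e1, List.mem_map] at hc
      obtain ⟨x, _, rfl⟩ := hc
      exact ih x
    · have e2 : (TSR.brV par r (n + 1) v).kids.length = (ch par r v).card := by
        rw [e1, List.length_map, Finset.length_toList]
      rw [e2]
      refine hm.snd ?_ (h v)
      unfold nhB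
      rw [e1, List.filter_map, List.length_map]
      have h2 : ((ch par r v).toList.filter
          ((fun c => decide (Hi c)) ∘ fun c => TSR.brV par r n c)).length ≤
          ((ch par r v).toList.filter fun c =>
            decide (∃ x ∈ ch par r c, (ch par r x).Nonempty)).length := by
        refine (List.monotone_filter_right _ fun c hc => ?_).length_le
        rw [Function.comp_apply, decide_eq_true_eq] at hc
        rw [decide_eq_true_eq]
        obtain ⟨y, hy, hy2⟩ := hc
        cases n with
        | zero => simp [TSR.brV] at hy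
        | succ n =>
          rw [e0 n c, List.mem_map] at hy
          obtain ⟨x, hx, rfl⟩ := hy
          refine ⟨x, Finset.mem_toList.1 hx, ?_⟩
          by_contra hx2
          exact hy2 (brV_leaf hx2 n)
      refine h2.trans ?_
      rw [← List.toFinset_card_of_nodup ((Finset.nodup_toList _).filter _)]
      refine card_le_card fun x hx => ?_
      rw [List.mem_toFinset, List.mem_filter, Finset.mem_toList, decide_eq_true_eq] at hx
      unfold nhc
      exact mem_filter.mpr hx

end Graph

/-- the number of neighbours `w` of `v` which have another neighbour which is not a leaf -/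
def hN {V : Type} (T : SimpleGraph V) (v : V) : ℕ :=
  {w ∈ T.neighborSet v | ∃ x ∈ T.neighborSet w, x ≠ v ∧ 2 ≤ (T.neighborSet x).ncard}.ncard

section Root

variable {Vt : Type} [Fintype Vt] [DecidableEq Vt] {T : SimpleGraph Vt} {par : Vt → Vt}
  {dep : Vt → ℕ} {r : Vt}

lemma card_ch_rootH
    (hadj : ∀ u v, T.Adj u v ↔ (u ≠ r ∧ par u = v) ∨ (v ≠ r ∧ par v = u)) :
    (ch par r r).card = (T.neighborSet r).ncard := by
  have h4 : (ch par r r : Set Vt) = T.neighborSet r := by
    ext c
    constructor
    · intro hc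
      exact ch_nb hadj (Finset.mem_coe.1 hc)
    · intro hc
      rw [SimpleGraph.mem_neighborSet, hadj] at hc
      rcases hc with ⟨h1, _⟩ | ⟨h1, h2⟩
      · exact absurd rfl h1
      · exact Finset.mem_coe.2 (TSR.mem_ch.mpr ⟨h1, h2⟩)
  rw [← h4, Set.ncard_coe_finset]

/-- a vertex different from the root with one neighbour has no child -/
lemma ch_empty (hR : RT par dep r)
    (hadj : ∀ u v, T.Adj u v ↔ (u ≠ r ∧ par u = v) ∨ (v ≠ r ∧ par v = u)) {v : Vt} (hv : v ≠ r)
    (h : (T.neighborSet v).ncard ≤ 1) (c : Vt) : c ∉ ch par r v := by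
  intro hc
  have := two_le hR hadj hv hc
  omega

lemma nhc_sub (hR : RT par dep r)
    (hadj : ∀ u v, T.Adj u v ↔ (u ≠ r ∧ par u = v) ∨ (v ≠ r ∧ par v = u)) (v : Vt) :
    (nhc par r v : Set Vt) ⊆
      {w ∈ T.neighborSet v | ∃ x ∈ T.neighborSet w, x ≠ v ∧ 2 ≤ (T.neighborSet x).ncard} := by
  classical
  intro c hc
  rw [mem_coe] at hc
  unfold nhc at hc
  rw [mem_filter] at hc
  obtain ⟨h1, x, hx, y, hy⟩ := hc
  refine ⟨ch_nb hadj h1, x, ch_nb hadj hx, ?_, ?_⟩
  · rintro rfl
    rw [TSR.mem_ch] at h1 hx
    have e1 := hR.step c h1.1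
    have e2 := hR.step x hx.1
    rw [h1.2] at e1
    rw [hx.2] at e2
    omega
  · exact two_le hR hadj (TSR.mem_ch.mp hx).1 hy

/-- the allowed vertices of the rooted tree -/
lemma p_of_rootH {p : ℕ → ℕ → Prop} (hm : ParP p) (hp1 : ∀ a b, b ≤ 1 → p a b)
    (hR : RT par dep r)
    (hadj : ∀ u v, T.Adj u v ↔ (u ≠ r ∧ par u = v) ∨ (v ≠ r ∧ par v = u))
    (hr : p (T.neighborSet r).ncard (hN T r))
    (hcl : ∀ v, v ≠ r → (∀ c ∈ ch par r v, ch par r c = ∅) ∨
      ∃ x ∈ T.neighborSet (par v), x ≠ v ∧ 2 ≤ (T.neighborSet x).ncard)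
    (hp : ∀ v, v ≠ r → p ((T.neighborSet v).ncard - 1) (hN T v - 1)) (v : Vt) :
    p (ch par r v).card (nhc par r v).card := by
  classical
  have hsub := nhc_sub hR hadj v
  by_cases hv : v = r
  · rw [hv] at hsub ⊢
    rw [card_ch_rootH hadj]
    refine hm.snd ?_ hr
    unfold hN
    rw [← Set.ncard_coe_finset]
    exact Set.ncard_le_ncard hsub (Set.toFinite _)
  · rcases hcl v hv with h1 | h1
    · refine hp1 _ _ ?_
      have h2 : nhc par r v = ∅ := by
        rw [Finset.eq_empty_iff_forall_notMem]
        intro c hc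
        unfold nhc at hc
        rw [mem_filter] at hc
        obtain ⟨h3, x, hx, _⟩ := hc
        rw [h1 c h3] at hx
        exact absurd hx (Finset.notMem_empty x)
      rw [h2, Finset.card_empty]
      exact Nat.zero_le _
    · have h6 : insert (par v) (nhc par r v : Set Vt) ⊆
          {w ∈ T.neighborSet v | ∃ x ∈ T.neighborSet w, x ≠ v ∧
            2 ≤ (T.neighborSet x).ncard} := by
        intro c hc
        rw [Set.mem_insert_iff] at hc
        rcases hc with rfl | hc
        · exact ⟨par_nb hadj hv, h1⟩
        · exact hsub hc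
      have h7 := Set.ncard_le_ncard h6 (Set.toFinite _)
      have h8 : par v ∉ (nhc par r v : Set Vt) := by
        intro h
        rw [mem_coe] at h
        unfold nhc at h
        exact par_not_ch hR hv (mem_filter.mp h).1
      rw [Set.ncard_insert_of_notMem h8 (Set.toFinite _), Set.ncard_coe_finset] at h7
      rw [card_ch hR hadj hv]
      refine hm.snd ?_ (hp v hv)
      unfold hN
      omega

/-- the parent and the grandparent -/
lemma hcl_of (hR : RT par dep r)
    (hadj : ∀ u v, T.Adj u v ↔ (u ≠ r ∧ par u = v) ∨ (v ≠ r ∧ par v = u)) {v : Vt} (hv : v ≠ r)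
    (hw : par v ≠ r) (h : par (par v) = r → 2 ≤ (T.neighborSet r).ncard) :
    ∃ x ∈ T.neighborSet (par v), x ≠ v ∧ 2 ≤ (T.neighborSet x).ncard := by
  refine ⟨par (par v), par_nb hadj hw, ?_, ?_⟩
  · intro h1
    have e1 := hR.step v hv
    have e2 := hR.step _ hw
    rw [h1] at e2
    omega
  · by_cases h1 : par (par v) = r
    · rw [h1]
      exact h h1
    · exact two_le hR hadj h1 (TSR.mem_ch.mpr ⟨hw, rfl⟩)

end Root

/-- a root for which the branches of all other vertices are seen from below -/
lemma exists_rootH {Vt : Type} [Fintype Vt] [DecidableEq Vt] (T : SimpleGraph Vt)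
    (hT : T.IsTree) : ∃ r : Vt, hN T r ≤ 1 ∧ ((∀ v, v ≠ r → (T.neighborSet v).ncard ≤ 1) ∨
      ∃ x ∈ T.neighborSet r, 2 ≤ (T.neighborSet x).ncard ∧
        ∀ y ∈ T.neighborSet x, y ≠ r → (T.neighborSet y).ncard ≤ 1) := by
  classical
  obtain ⟨u⟩ : Nonempty Vt := hT.1.nonempty
  obtain ⟨par, dep, hR, hadj, -, -⟩ := TFin.p_CONV Vt T hT u
  obtain ⟨v, -, hv⟩ := exists_max_image (univ : Finset Vt) dep ⟨u, mem_univ u⟩
  -- a vertex which is as deep as `v` has one neighbour
  have hdeep : ∀ y, y ≠ u → dep y = dep v → (T.neighborSet y).ncard ≤ 1 := by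
    intro y hy h1
    have h2 : T.neighborSet y ⊆ {par y} := by
      intro x hx
      rw [SimpleGraph.mem_neighborSet, hadj] at hx
      rw [Set.mem_singleton_iff]
      rcases hx with ⟨_, h6⟩ | ⟨h6, h7⟩
      · exact h6.symm
      · exfalso
        have e3 := hR.step x h6
        have e4 := hv x (mem_univ x)
        rw [h7] at e3
        omega
    have h3 := Set.ncard_le_ncard h2 (Set.toFinite _)
    rwa [Set.ncard_singleton] at h3
  by_cases hd : dep v ≤ 1
  · have hall : ∀ w, w ≠ u → (T.neighborSet w).ncard ≤ 1 := by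
      intro w hw
      refine hdeep w hw ?_
      have e1 := hR.step w hw
      have e2 := hv w (mem_univ w)
      omega
    refine ⟨u, ?_, Or.inl hall⟩
    have h1 : hN T u = 0 := by
      unfold hN
      rw [Set.ncard_eq_zero (Set.toFinite _), Set.eq_empty_iff_forall_notMem]
      rintro w ⟨_, x, _, h2, h3⟩
      have := hall x h2
      omega
    omega
  · have hvu : v ≠ u := by
      rintro rfl
      rw [hR.root] at hd
      omega
    have e1 := hR.step v hvu
    have hpu : par v ≠ u := by
      intro h
      rw [h, hR.root] at e1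
      omega
    have e2 := hR.step _ hpu
    refine ⟨par (par v), ?_, Or.inr ⟨par v, ?_, ?_, ?_⟩⟩
    · have hsub : {w ∈ T.neighborSet (par (par v)) | ∃ x ∈ T.neighborSet w, x ≠ par (par v) ∧
          2 ≤ (T.neighborSet x).ncard} ⊆ {par (par (par v))} := by
        rintro w ⟨h1, x, h2, h3, h4⟩
        rw [Set.mem_singleton_iff]
        rw [SimpleGraph.mem_neighborSet, hadj] at h1
        rcases h1 with ⟨_, h5⟩ | ⟨h5, h6⟩
        · exact h5.symm
        · exfalso
          have e3 := hR.step w h5
          rw [h6] at e3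
          rw [SimpleGraph.mem_neighborSet, hadj] at h2
          rcases h2 with ⟨_, h7⟩ | ⟨h7, h8⟩
          · exact h3 (h7.symm.trans h6)
          · have e4 := hR.step x h7
            rw [h8] at e4
            have := hdeep x h7 (by omega)
            omega
      have h3 := Set.ncard_le_ncard hsub (Set.toFinite _)
      rwa [Set.ncard_singleton] at h3
    · exact ch_nb hadj (TSR.mem_ch.mpr ⟨hpu, rfl⟩)
    · exact two_le hR hadj hpu (TSR.mem_ch.mpr ⟨hvu, rfl⟩)
    · intro y hy hne
      rw [SimpleGraph.mem_neighborSet, hadj] at hy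
      rcases hy with ⟨_, h5⟩ | ⟨h5, h6⟩
      · exact absurd h5.symm hne
      · have e3 := hR.step y h5
        rw [h6] at e3
        exact hdeep y h5 (by omega)

variable {Y : Sys} {Adm : ℕ → ℝ → ℝ → ℝ → ℝ → Prop} {V P : ℝ → ℝ → Sn → ℝ}

/-- **Assembly**: `p a b` says that a vertex with `a` children, at most `b` of which have a child
with a child, is allowed -/
theorem asm_pH (p : ℕ → ℕ → Prop) (hm : ParP p) (hp1 : ∀ a b, b ≤ 1 → p a b)
    (C : Cert Y Adm V P)
    (big : ∀ (lf tw : Bool) (L : List OBr),
      p (lf.toNat + tw.toNat + L.length) L.length → 2 ≤ L.length →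
      3 ≤ (items lf tw L).length → (∀ O ∈ L, PO Y Adm V P O) →
      ∃ σ e : Fin (items lf tw L).length → Bool, PO Y Adm V P (fam σ e (items lf tw L).get))
    (n : ℕ) (T : SimpleGraph (Fin n)) (hT : T.IsTree) (r : Fin n)
    (hr : p (T.neighborSet r).ncard (hN T r))
    (hcl : ∀ (par : Fin n → Fin n) (dep : Fin n → ℕ), RT par dep r →
      (∀ u v, T.Adj u v ↔ (u ≠ r ∧ par u = v) ∨ (v ≠ r ∧ par v = u)) → ∀ v, v ≠ r →
      (∀ c ∈ ch par r v, ch par r c = ∅) ∨
      ∃ x ∈ T.neighborSet (par v), x ≠ v ∧ 2 ≤ (T.neighborSet x).ncard)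
    (hp : ∀ v, v ≠ r → p ((T.neighborSet v).ncard - 1) (hN T v - 1)) : AntiT n T := by
  have hgood : ∀ b, NQ p b → GoodBr b := fun b hb => good_of_red_one b
    (asm_q _ C big _ (TSR.Red_red Cn2 b) (OKq_of_NQ hm (TSR.Red_red Cn2 b) (hb.red hm Cn2)))
  obtain ⟨D, hD, h1⟩ := anti_of_good T hT r (NQ p) hgood (fun inst par dep hR hadj k => by
    have e : inst = instDecidableEqFin n := Subsingleton.elim _ _
    subst e
    exact NQ_brV hm (hp1 0 0 (by norm_num))
      (fun v => p_of_rootH hm hp1 hR hadj hr (hcl par dep hR hadj) hp v) k r)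
  refine ⟨D, hD.1, hD.2, fun m G hG1 hG2 => ?_⟩
  have := h1 m G ⟨hG1, hG2⟩
  rwa [Fintype.card_fin] at this

/-- **Every vertex except at most one has odd degree, or at most three neighbours, or at most two
neighbours with another neighbour which is not a leaf**, from the kinds with an even number of
children -/
theorem asm_even_h (C : Cert Y Adm V P)
    (hE : ∀ (lf tw : Bool) (m : ℕ), 2 ≤ m → Even (lf.toNat + tw.toNat + m) →
      4 ≤ lf.toNat + tw.toNat + m → PoT Y Adm V P lf tw m) (n : ℕ)
    (T : SimpleGraph (Fin n)) (hT : T.IsTree) (r : Fin n)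
    (h : ∀ v, v ≠ r → Odd (T.neighborSet v).ncard ∨ (T.neighborSet v).ncard ≤ 3 ∨
      hN T v ≤ 2) : AntiT n T := by
  classical
  set p : ℕ → ℕ → Prop := fun a b => a ≤ 2 ∨ b ≤ 1 ∨ Even a with hpd
  have hm : ParP p := by
    intro a b a' b' h1 h2 h3 h4
    rcases h4 with h4 | h4 | h4
    · exact Or.inl (h1.trans h4)
    · exact Or.inr (Or.inl (h3.trans h4))
    · exact Or.inr (Or.inr (by rw [Nat.even_iff] at h4 ⊢; omega))
  have hp1 : ∀ a b, b ≤ 1 → p a b := fun a b h => Or.inr (Or.inl h)
  have big : ∀ (lf tw : Bool) (L : List OBr),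
      p (lf.toNat + tw.toNat + L.length) L.length → 2 ≤ L.length →
      3 ≤ (items lf tw L).length → (∀ O ∈ L, PO Y Adm V P O) →
      ∃ σ e : Fin (items lf tw L).length → Bool,
        PO Y Adm V P (fam σ e (items lf tw L).get) := by
    intro lf tw L h1 h2 h3 hPO
    rw [items_length] at h3
    have h4 : Even (lf.toNat + tw.toNat + L.length) := by
      rcases h1 with h1 | h1 | h1
      · omega
      · omega
      · exact h1
    have h5 : 4 ≤ lf.toNat + tw.toNat + L.length := by
      rw [Nat.even_iff] at h4
      omega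
    obtain ⟨N, hI, hN⟩ := itD_exists lf tw L (PO Y Adm V P) hPO
    obtain ⟨tc, hTc⟩ := famT_exists hN hI.hM
    exact hE lf tw L.length h2 h4 h5 _ _ N tc hI hTc
  have hp : ∀ v, Odd (T.neighborSet v).ncard ∨ (T.neighborSet v).ncard ≤ 3 ∨ hN T v ≤ 2 →
      p ((T.neighborSet v).ncard - 1) (hN T v - 1) := by
    intro v hv
    rcases hv with h1 | h1 | h1
    · right
      right
      obtain ⟨k, hk⟩ := h1
      rw [hk]
      exact ⟨k, by omega⟩
    · left
      omega
    · right
      left
      omega
  by_cases hc : Odd (T.neighborSet r).ncard ∨ (T.neighborSet r).ncard ≤ 3 ∨ hN T r ≤ 2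
  · -- all vertices are allowed
    obtain ⟨s, hs1, hs2⟩ := exists_rootH T hT
    refine asm_pH p hm hp1 C big n T hT s (hp1 _ _ hs1) (fun par dep hR hadj v hv => ?_)
      (fun v _ => ?_)
    · rcases hs2 with h1 | ⟨x, hx, hx2, hx3⟩
      · refine Or.inl fun c hc2 => ?_
        exact absurd hc2 (ch_empty hR hadj hv (h1 v hv) c)
      · by_cases hw : par v = s
        · by_cases hvx : v = x
          · left
            intro c hc2
            rw [Finset.eq_empty_iff_forall_notMem]
            have h2 := ch_nb hadj hc2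
            rw [hvx] at h2
            have h3 := (TSR.mem_ch.mp hc2).1
            exact ch_empty hR hadj h3 (hx3 c h2 h3)
          · right
            rw [hw]
            exact ⟨x, hx, Ne.symm hvx, hx2⟩
        · by_cases hg : par (par v) = s → 2 ≤ (T.neighborSet s).ncard
          · exact Or.inr (hcl_of hR hadj hv hw hg)
          · left
            push Not at hg
            obtain ⟨hg1, hg2⟩ := hg
            have h2 : T.neighborSet s = {x} := by
              have h3 : (T.neighborSet s).ncard = 1 := by
                have : 0 < (T.neighborSet s).ncard :=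
                  (Set.ncard_pos (Set.toFinite _)).2 ⟨x, hx⟩
                omega
              obtain ⟨y, hy⟩ := Set.ncard_eq_one.1 h3
              rw [hy] at hx ⊢
              rw [Set.mem_singleton_iff] at hx
              rw [hx]
            have h4 : par v ∈ T.neighborSet s := by
              have := par_nb hadj hw
              rw [hg1] at this
              exact (T.mem_neighborSet _ _).2 ((T.mem_neighborSet _ _).1 this).symm
            rw [h2, Set.mem_singleton_iff] at h4
            have h5 : v ∈ T.neighborSet x := by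
              have := par_nb hadj hv
              rw [h4] at this
              exact (T.mem_neighborSet _ _).2 ((T.mem_neighborSet _ _).1 this).symm
            intro c hc2
            exact absurd hc2 (ch_empty hR hadj hv (hx3 v h5 hv) c)
    · by_cases hvr : v = r
      · rw [hvr]
        exact hp r hc
      · exact hp v (h v hvr)
  · -- the exceptional vertex is the root
    push Not at hc
    obtain ⟨hc1, hc2, hc3⟩ := hc
    refine asm_pH p hm hp1 C big n T hT r (Or.inr (Or.inr (Nat.not_odd_iff_even.1 hc1)))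
      (fun par dep hR hadj v hv => Or.inr ?_) (fun v hv => hp v (h v hv))
    by_cases hw : par v = r
    · rw [hw]
      have h3 : ∃ w ∈ {w ∈ T.neighborSet r | ∃ x ∈ T.neighborSet w, x ≠ r ∧
          2 ≤ (T.neighborSet x).ncard}, w ≠ v := by
        by_contra hno
        push Not at hno
        have h4 : {w ∈ T.neighborSet r | ∃ x ∈ T.neighborSet w, x ≠ r ∧
            2 ≤ (T.neighborSet x).ncard} ⊆ {v} := fun w hw2 => hno w hw2
        have h5 := Set.ncard_le_ncard h4 (Set.toFinite _)
        rw [Set.ncard_singleton] at h5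
        unfold hN at hc3
        omega
      obtain ⟨w, ⟨h4, x, h5, h6, _⟩, h8⟩ := h3
      refine ⟨w, h4, h8, ?_⟩
      have h9 : ({r, x} : Set (Fin n)) ⊆ T.neighborSet w := by
        intro y hy
        rw [Set.mem_insert_iff, Set.mem_singleton_iff] at hy
        rcases hy with rfl | rfl
        · exact (T.mem_neighborSet _ _).2 ((T.mem_neighborSet _ _).1 h4).symm
        · exact h5
      have h10 := Set.ncard_le_ncard h9 (Set.toFinite _)
      rwa [Set.ncard_pair (Ne.symm h6)] at h10
    · exact hcl_of hR hadj hv hw fun _ => by omega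

end

end Pool.Agent.TSM
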