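import Pool.Agent.TSM.KindF

set_option autoImplicit false

/-!
# One exceptional vertex as the root (MP_d27362_co)

The tree is rooted at the exceptional vertex, which then has as many branches as neighbours, an
even number.
-/

namespace Pool.Agent.TSM

open Finset Polynomial
open Pool.Agent.TSP
open Pool.Agent.TSO
open Pool.Agent.TSR (OBr Ker Br Red Cn2 leafB twoB sg_true sg_false vS_rev GoodBr rm red)
open Pool.Agent.TLT (sg)
open Pool.Agent.TFin (RT ch IsVal)

noncomputable section

section Root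

variable {Vt : Type} [Fintype Vt] [DecidableEq Vt] {T : SimpleGraph Vt} {par : Vt → Vt}
  {dep : Vt → ℕ} {r : Vt}

/-- the number of children of the root -/
lemma card_ch_root (hadj : ∀ u v, T.Adj u v ↔ (u ≠ r ∧ par u = v) ∨ (v ≠ r ∧ par v = u)) :
    (ch par r r).card = (T.neighborSet r).ncard := by
  have h4 : (ch par r r : Set Vt) = T.neighborSet r := by
    ext c
    constructor
    · intro hc
      exact ch_nb hadj (Finset.mem_coe.1 hc)
    · intro hc
      rw [SimpleGraph.mem_neighborSet, hadj] at hc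
      rcases hc with ⟨h, _⟩ | ⟨h1, h2⟩
      · exact absurd rfl h
      · exact Finset.mem_coe.2 (TSR.mem_ch.mpr ⟨h1, h2⟩)
  rw [← h4, Set.ncard_coe_finset]

/-- the allowed vertices of a tree with a root of another kind -/
lemma p_of_rootR {p : ℕ → ℕ → Prop} (hm : ParP p) (hR : RT par dep r)
    (hadj : ∀ u v, T.Adj u v ↔ (u ≠ r ∧ par u = v) ∨ (v ≠ r ∧ par v = u))
    (hr2 : 2 ≤ (T.neighborSet r).ncard) (hpr : p (T.neighborSet r).ncard (nlN T r))
    (hp : ∀ v, v ≠ r → p ((T.neighborSet v).ncard - 1) (nlN T v - 1)) (v : Vt) :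
    p (ch par r v).card (nlc par r v).card := by
  classical
  have hsub : (nlc par r v : Set Vt) ⊆
      {w ∈ T.neighborSet v | 2 ≤ (T.neighborSet w).ncard} := by
    intro c hc
    rw [mem_coe] at hc
    unfold nlc at hc
    rw [mem_filter] at hc
    obtain ⟨x, hx⟩ := hc.2
    exact ⟨ch_nb hadj hc.1, two_le hR hadj (TSR.mem_ch.mp hc.1).1 hx⟩
  have hle : (nlc par r v).card ≤ nlN T v := by
    rw [← Set.ncard_coe_finset]
    exact Set.ncard_le_ncard hsub (Set.toFinite _)
  by_cases hv : v = r
  · rw [hv] at hle ⊢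
    rw [card_ch_root hadj]
    exact hm.snd hle hpr
  · -- the parent is not a leaf
    have hpar : 2 ≤ (T.neighborSet (par v)).ncard := by
      by_cases h : par v = r
      · rw [h]
        exact hr2
      · exact two_le hR hadj h (TSR.mem_ch.mpr ⟨hv, rfl⟩)
    have h6 : insert (par v) (nlc par r v : Set Vt) ⊆
        {w ∈ T.neighborSet v | 2 ≤ (T.neighborSet w).ncard} := by
      intro c hc
      rw [Set.mem_insert_iff] at hc
      rcases hc with rfl | hc
      · exact ⟨par_nb hadj hv, hpar⟩
      · exact hsub hc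
    have h7 := Set.ncard_le_ncard h6 (Set.toFinite _)
    have h8 : par v ∉ (nlc par r v : Set Vt) := by
      intro h
      rw [mem_coe] at h
      unfold nlc at h
      exact par_not_ch hR hv (mem_filter.mp h).1
    rw [Set.ncard_insert_of_notMem h8 (Set.toFinite _), Set.ncard_coe_finset] at h7
    rw [card_ch hR hadj hv]
    refine hm.snd ?_ (hp v hv)
    unfold nlN
    omega

end Root

variable {Y : Sys} {Adm : ℕ → ℝ → ℝ → ℝ → ℝ → Prop} {V P : ℝ → ℝ → Sn → ℝ}

/-- **Assembly with a given root**: `p a b` says that a vertex which has exactly `a` branches, at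
most `b` of which are not leaves, is allowed -/
theorem asm_pR (p : ℕ → ℕ → Prop) (hm : ParP p) (h0 : p 0 0)
    (C : Cert Y Adm V P)
    (big : ∀ (lf tw : Bool) (L : List OBr),
      p (lf.toNat + tw.toNat + L.length) (tw.toNat + L.length) → 2 ≤ L.length →
      3 ≤ (items lf tw L).length → (∀ O ∈ L, PO Y Adm V P O) →
      ∃ σ e : Fin (items lf tw L).length → Bool, PO Y Adm V P (fam σ e (items lf tw L).get)) :
    ∀ n : ℕ, ∀ T : SimpleGraph (Fin n), T.IsTree → ∀ r : Fin n,
      2 ≤ (T.neighborSet r).ncard → p (T.neighborSet r).ncard (nlN T r) →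
      (∀ v, v ≠ r → p ((T.neighborSet v).ncard - 1) (nlN T v - 1)) → AntiT n T := by
  intro n T hT r hr2 hpr hp
  have hgood : ∀ b, NP p b → GoodBr b := fun b hb => good_of_red_one b
    (asm_q _ C big _ (TSR.Red_red Cn2 b) (OKq_of_NPE hm (TSR.Red_red Cn2 b) (hb.redE hm Cn2)))
  obtain ⟨D, hD, h1⟩ := anti_of_good T hT r (NP p) hgood (fun inst par dep hR hadj k =>
    NP_brVE hm h0 (fun v => p_of_rootR hm hR hadj hr2 hpr hp v) k r)
  refine ⟨D, hD.1, hD.2, fun m G hG1 hG2 => ?_⟩
  have := h1 m G ⟨hG1, hG2⟩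
  rwa [Fintype.card_fin] at this

/-- **All vertices except at most one have odd degree, or degree at most three, or at most two
neighbours which are not leaves**, from the kinds with an even number of children -/
theorem asm_even_one (C : Cert Y Adm V P)
    (hE : ∀ (lf tw : Bool) (m : ℕ), 2 ≤ m → Even (lf.toNat + tw.toNat + m) →
      4 ≤ lf.toNat + tw.toNat + m → PoT Y Adm V P lf tw m) (n : ℕ)
    (T : SimpleGraph (Fin n)) (hT : T.IsTree) (r : Fin n)
    (h : ∀ v, v ≠ r →
      (Odd (T.neighborSet v).ncard ∨ (T.neighborSet v).ncard ≤ 3 ∨ nlN T v ≤ 2)) :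
    AntiT n T := by
  by_cases hr : Odd (T.neighborSet r).ncard ∨ (T.neighborSet r).ncard ≤ 3 ∨ nlN T r ≤ 2
  · refine asm_even C hE n T hT fun v => ?_
    by_cases hv : v = r
    · rw [hv]
      exact hr
    · exact h v hv
  rw [not_or, not_or, Nat.not_odd_iff_even] at hr
  obtain ⟨hr1, hr2, _⟩ := hr
  refine asm_pR (fun a b => a ≤ 2 ∨ b ≤ 1 ∨ Even a) (fun a b a' b' h1 h2 h3 h4 => ?_)
    (Or.inl (Nat.zero_le _)) C (fun lf tw L h1 h2 h3 hPO => ?_) n T hT r (by omega)
    (Or.inr (Or.inr hr1)) fun v hv => ?_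
  · rcases h4 with h4 | h4 | h4
    · exact Or.inl (h1.trans h4)
    · exact Or.inr (Or.inl (h3.trans h4))
    · exact Or.inr (Or.inr (by rw [Nat.even_iff] at h4 ⊢; omega))
  · rw [items_length] at h3
    have h4 : Even (lf.toNat + tw.toNat + L.length) := by
      rcases h1 with h1 | h1 | h1
      · omega
      · omega
      · exact h1
    have h5 : 4 ≤ lf.toNat + tw.toNat + L.length := by
      rw [Nat.even_iff] at h4
      omega
    obtain ⟨N, hI, hN⟩ := itD_exists lf tw L (PO Y Adm V P) hPO
    obtain ⟨tc, hTc⟩ := famT_exists hN hI.hM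
    exact hE lf tw L.length h2 h4 h5 _ _ N tc hI hTc
  · rcases h v hv with h1 | h1 | h1
    · right
      right
      obtain ⟨k, hk⟩ := h1
      rw [hk]
      exact ⟨k, by omega⟩
    · left
      omega
    · right
      left
      omega

end

end Pool.Agent.TSM
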