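import Pool.Agent.TSM.Pol3

set_option autoImplicit false

/-!
# Three children: all signs explicit (MP_d27362_co)
-/

namespace Pool.Agent.TSM

open Finset Polynomial
open Pool.Agent.TSP
open Pool.Agent.TSO
open Pool.Agent.TSR (OBr Ker)
open Pool.Agent.TLT (sg)
open Pool.Agent.TDN (dn dn_nonneg)

noncomputable section

variable {Y : Sys} {Adm : ℕ → ℝ → ℝ → ℝ → ℝ → Prop} {V P : ℝ → ℝ → Sn → ℝ} {χ : ℝ → ℝ}
  {K : ℕ} {O : Fin K → OBr} {N : Finset (Fin K)} {L A B : Fin K}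

/-- Cauchy with three weights -/
lemma cauchy_three {x y z a b c : ℝ} (hx : 0 < x) (hy : 0 < y) (hz : 0 < z)
    (h : y * z + x * z + x * y ≤ x * y * z) :
    (a + b + c) ^ 2 ≤ x * a ^ 2 + y * b ^ 2 + z * c ^ 2 := by
  have h1 : 0 ≤ (x * a ^ 2 + y * b ^ 2 + z * c ^ 2) := by positivity
  have h2 : x * y * z * (a + b + c) ^ 2 ≤
      (y * z + x * z + x * y) * (x * a ^ 2 + y * b ^ 2 + z * c ^ 2) := by
    have e : (y * z + x * z + x * y) * (x * a ^ 2 + y * b ^ 2 + z * c ^ 2) -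
        x * y * z * (a + b + c) ^ 2 =
        z * (x * a - y * b) ^ 2 + y * (x * a - z * c) ^ 2 + x * (y * b - z * c) ^ 2 := by ring
    have h3 : 0 ≤ z * (x * a - y * b) ^ 2 + y * (x * a - z * c) ^ 2 +
        x * (y * b - z * c) ^ 2 := by positivity
    linarith
  have h3 := mul_le_mul_of_nonneg_right h h1
  have h4 : x * y * z * (a + b + c) ^ 2 ≤
      x * y * z * (x * a ^ 2 + y * b ^ 2 + z * c ^ 2) := h2.trans h3
  exact le_of_mul_le_mul_left h4 (by positivity)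

/-- three polynomials, weights -/
lemma dn_three {x y z : ℝ} (hx : 0 < x) (hy : 0 < y) (hz : 0 < z)
    (h : y * z + x * z + x * y ≤ x * y * z) (p q r : ℝ[X]) :
    dn q0 (p + q + r) ^ 2 ≤ x * dn q0 p ^ 2 + y * dn q0 q ^ 2 + z * dn q0 r ^ 2 := by
  have h1 := TDN.dn_add_le q0 q0_pos.le (p + q) r
  have h2 := TDN.dn_add_le q0 q0_pos.le p q
  have h3 : dn q0 (p + q + r) ≤ dn q0 p + dn q0 q + dn q0 r := by linarith
  exact (pow_le_pow_left₀ (dn_nonneg _ _) h3 2).trans (cauchy_three hx hy hz h)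

/-- the sign does not change the seminorm -/
lemma dn_sg (b : Bool) (p : ℝ[X]) : dn q0 (sg b • p) = dn q0 p := by
  cases b
  · rw [TSR.sg_ff, neg_one_smul, TDN.dn_neg]
  · rw [TSR.sg_tt, one_smul]

/-- the seminorm of two polynomials with signs -/
lemma dn_two_sg (a b : Bool) (p q : ℝ[X]) :
    dn q0 (sg a • p + sg b • q) ^ 2 ≤ 2 * dn q0 p ^ 2 + 2 * dn q0 q ^ 2 := by
  have h1 := TDN.dn_add_le q0 q0_pos.le (sg a • p) (sg b • q)
  rw [dn_sg, dn_sg] at h1
  have h2 := pow_le_pow_left₀ (dn_nonneg _ _) h1 2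
  nlinarith [sq_nonneg (dn q0 p - dn q0 q)]

/-- one of two relative signs -/
lemma dn_flip (p q : ℝ[X]) :
    dn q0 (p + q) ^ 2 ≤ dn q0 p ^ 2 + dn q0 q ^ 2 ∨
      dn q0 (p - q) ^ 2 ≤ dn q0 p ^ 2 + dn q0 q ^ 2 := by
  have h := TDN.dn_parallelogram q0 q0_pos.le p q
  by_contra hc
  push Not at hc
  linarith [hc.1, hc.2]

/-- three children `L`, `A`, `B`: which they are, and their signs; `s` is the orientation of the
rest -/
structure T3 {K : ℕ} (O : Fin K → OBr) (L A B : Fin K) (σ e : Fin K → Bool) (b : Bool) (n : ℕ) :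
    Prop where
  hu : ∀ f : Fin K → ℝ, ∑ i, f i = f L + f A + f B
  hr : ∀ f : Fin K → ℝ, ∑ i ∈ univ.erase L, f i = f A + f B
  hσL : σ L = true
  hσA : σ A = b
  hσB : σ B = !b
  hn : sg (e L) * tau (O L) + sg (e A) * tau (O A) + sg (e B) * tau (O B) = n
  hU0 : 0 ≤ vY (O L) + sg b * (vY (O A) - vY (O B))
  hU2 : vY (O L) + sg b * (vY (O A) - vY (O B)) ≤ 2
  hY0 : 0 ≤ n - q0 * (sg (e L) * vU (O L) + sg (e A) * vU (O A) + sg (e B) * vU (O B))
  hY2 : n - q0 * (sg (e L) * vU (O L) + sg (e A) * vU (O A) + sg (e B) * vU (O B)) ≤ 2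

variable {σ e : Fin K → Bool} {b : Bool} {n : ℕ}

lemma sg_not' (b : Bool) : sg (!b) = - sg b := by cases b <;> simp [sg]

lemma T3.σ1 (h : T3 O L A B σ e b n) : ∑ i, sg (σ i) = 1 := by
  rw [h.hu, h.hσL, h.hσA, h.hσB, sg_not', TSR.sg_tt]
  ring

/-- the new `U` at a point -/
lemma T3.U_eq (h : T3 O L A B σ e b n) (a : ℝ) : (UU (fam σ e O)).eval a =
    (YY (O L)).eval a + sg b * ((YY (O A)).eval a - (YY (O B)).eval a) := by
  rw [FamS.U_eq, h.hu, h.hσL, h.hσA, h.hσB, sg_not', TSR.sg_tt]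
  ring

/-- the rest of the new `U` at a point -/
lemma T3.U2_eq (h : T3 O L A B σ e b n) (a : ℝ) : (gY2 σ O L).eval a =
    sg b * ((YY (O A)).eval a - (YY (O B)).eval a) := by
  unfold gY2
  rw [eval_finsetSum]
  have e1 : ∑ i ∈ univ.erase L, (sg (σ i) • YY (O i)).eval a =
      ∑ i ∈ univ.erase L, sg (σ i) * (YY (O i)).eval a :=
    sum_congr rfl fun i _ => by rw [eval_smul, smul_eq_mul]
  rw [e1, h.hr, h.hσA, h.hσB, sg_not']
  ring

/-- `G` at a point -/
lemma T3.G_eq (h : T3 O L A B σ e b n) (a : ℝ) : (gU e O).eval a =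
    sg (e L) * (UU (O L)).eval a + sg (e A) * (UU (O A)).eval a +
      sg (e B) * (UU (O B)).eval a := by
  rw [FamS.G_eq, h.hu]

lemma XX_eval (o : OBr) (a : ℝ) : (XX o).eval a = tau o - a * (UU o).eval a := by
  unfold XX
  rw [eval_sub, eval_C, eval_mul, eval_X]

/-- the new `y` at a point -/
lemma T3.Y_eq (h : T3 O L A B σ e b n) (a : ℝ) : (YY (fam σ e O)).eval a =
    n - a * (gU e O).eval a := by
  rw [fam_YY, eval_finsetSum]
  have e1 : ∑ i, (sg (e i) • XX (O i)).eval a = ∑ i, sg (e i) * (XX (O i)).eval a :=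
    sum_congr rfl fun i _ => by rw [eval_smul, smul_eq_mul]
  rw [e1, h.hu, h.G_eq, ← h.hn, XX_eval, XX_eval, XX_eval]
  ring

/-- the rest of the new `y` at a point -/
lemma T3.y2_eq (h : T3 O L A B σ e b n) (a : ℝ) :
    ∑ i ∈ univ.erase L, sg (e i) * (XX (O i)).eval a =
    (sg (e A) * tau (O A) + sg (e B) * tau (O B)) -
      a * (sg (e A) * (UU (O A)).eval a + sg (e B) * (UU (O B)).eval a) := by
  rw [h.hr, XX_eval, XX_eval]
  ring

lemma T3.xL_eq (e : Fin K → Bool) (L : Fin K) (a : ℝ) :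
    sg (e L) * (XX (O L)).eval a = sg (e L) * tau (O L) - a * (sg (e L) * (UU (O L)).eval a) := by
  rw [XX_eval]
  ring

lemma T3.YY_eq (h : T3 O L A B σ e b n) : YY (fam σ e O) = C (n : ℝ) - X * gU e O := by
  refine Polynomial.funext fun a => ?_
  rw [h.Y_eq, eval_sub, eval_C, eval_mul, eval_X]

/-- the value of the new `U` -/
lemma T3.vU_eq (h : T3 O L A B σ e b n) : vU (fam σ e O) =
    vY (O L) + sg b * (vY (O A) - vY (O B)) := h.U_eq q0

/-- the value of `G` -/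
lemma T3.vG_eq (h : T3 O L A B σ e b n) : (gU e O).eval q0 =
    sg (e L) * vU (O L) + sg (e A) * vU (O A) + sg (e B) * vU (O B) := h.G_eq q0

/-- the value of the new `y` -/
lemma T3.vY_eq (h : T3 O L A B σ e b n) : vY (fam σ e O) = n - q0 * (gU e O).eval q0 :=
  h.Y_eq q0

lemma T3.inv (h : T3 O L A B σ e b n) : Inv (fam σ e O) := by
  refine inv_fam (Or.inr (by rw [fam_tau]; exact h.σ1)) ?_ ?_ h.YY_eq ?_ ?_
  · rw [h.vU_eq]; exact h.hU0
  · rw [h.vU_eq]; exact h.hU2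
  · rw [h.vG_eq]; exact h.hY0
  · rw [h.vG_eq]; exact h.hY2

/-- `U'` as a polynomial -/
lemma T3.UU_eq (h : T3 O L A B σ e b n) : UU (fam σ e O) =
    YY (O L) + sg b • YY (O A) + sg (!b) • YY (O B) := by
  refine Polynomial.funext fun a => ?_
  rw [h.U_eq, sg_not', eval_add, eval_add, eval_smul, eval_smul, smul_eq_mul, smul_eq_mul]
  ring

/-- `G` as a polynomial -/
lemma T3.gU_eq (h : T3 O L A B σ e b n) : gU e O =
    sg (e L) • UU (O L) + sg (e A) • UU (O A) + sg (e B) • UU (O B) := by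
  refine Polynomial.funext fun a => ?_
  rw [h.G_eq, eval_add, eval_add, eval_smul, eval_smul, eval_smul, smul_eq_mul, smul_eq_mul,
    smul_eq_mul]

/-- the seminorm of the new `U`, any weights -/
lemma T3.aU_w (h : T3 O L A B σ e b n) {x y z : ℝ} (hx : 0 < x) (hy : 0 < y) (hz : 0 < z)
    (hw : y * z + x * z + x * y ≤ x * y * z) :
    aU (fam σ e O) ^ 2 ≤ x * aY (O L) ^ 2 + y * aY (O A) ^ 2 + z * aY (O B) ^ 2 := by
  unfold aU
  rw [h.UU_eq]
  have h1 := dn_three hx hy hz hw (YY (O L)) (sg b • YY (O A)) (sg (!b) • YY (O B))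
  rw [dn_sg, dn_sg] at h1
  exact h1

/-- the seminorm of `G`, any weights -/
lemma T3.aG_w (h : T3 O L A B σ e b n) {x y z : ℝ} (hx : 0 < x) (hy : 0 < y) (hz : 0 < z)
    (hw : y * z + x * z + x * y ≤ x * y * z) :
    dn q0 (gU e O) ^ 2 ≤ x * aU (O L) ^ 2 + y * aU (O A) ^ 2 + z * aU (O B) ^ 2 := by
  rw [h.gU_eq]
  have h1 := dn_three hx hy hz hw (sg (e L) • UU (O L)) (sg (e A) • UU (O A))
    (sg (e B) • UU (O B))
  rw [dn_sg, dn_sg, dn_sg] at h1
  exact h1

/-- the seminorm of the new `y` -/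
lemma T3.aY_le (h : T3 O L A B σ e b n) : aY (fam σ e O) ^ 2 ≤
    q0 ^ 2 * ((gU e O).eval q0 ^ 2 + dn q0 (gU e O) ^ 2) := by
  unfold aY
  rw [h.YY_eq, TDN.dn_C_sub]
  have := TDN.dn_X_mul_sq_le q0 q0_pos.le (gU e O)
  linarith

/-- the seminorms of the rest -/
lemma T3.aU2_le (h : T3 O L A B σ e b n) : dn q0 (gY2 σ O L) ^ 2 ≤
    2 * aY (O A) ^ 2 + 2 * aY (O B) ^ 2 := by
  have e1 : gY2 σ O L = sg b • YY (O A) + sg (!b) • YY (O B) := by
    refine Polynomial.funext fun a => ?_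
    rw [h.U2_eq, sg_not', eval_add, eval_smul, eval_smul, smul_eq_mul, smul_eq_mul]
    ring
  rw [e1]
  exact dn_two_sg _ _ _ _

/-- the three children are explicit -/
structure I3 {K : ℕ} (L A B : Fin K) : Prop where
  hLA : L ≠ A
  hLB : L ≠ B
  hAB : A ≠ B
  hK : K = 3

lemma I3.univ_eq {L A B : Fin K} (h : I3 L A B) : (univ : Finset (Fin K)) = {L, A, B} := by
  symm
  apply eq_univ_of_card
  rw [Fintype.card_fin]
  refine Eq.trans ?_ h.hK.symm
  rw [card_insert_of_notMem, card_pair h.hAB]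
  simp only [mem_insert, mem_singleton, not_or]
  exact ⟨h.hLA, h.hLB⟩

lemma I3.sum {L A B : Fin K} (h : I3 L A B) (f : Fin K → ℝ) : ∑ i, f i = f L + f A + f B := by
  rw [h.univ_eq, sum_insert, sum_pair h.hAB]
  · ring
  · simp only [mem_insert, mem_singleton, not_or]
    exact ⟨h.hLA, h.hLB⟩

lemma I3.rest {L A B : Fin K} (h : I3 L A B) (f : Fin K → ℝ) :
    ∑ i ∈ univ.erase L, f i = f A + f B := by
  have h1 := add_sum_erase univ f (mem_univ L)
  rw [h.sum] at h1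
  linarith

/-- the labels of the three children -/
structure Lb3 {K : ℕ} (O : Fin K → OBr) (L A B : Fin K) (e : Fin K → Bool) (n : ℕ) : Prop where
  hn : sg (e L) * tau (O L) + sg (e A) * tau (O A) + sg (e B) * tau (O B) = n
  hY0 : 0 ≤ n - q0 * (sg (e L) * vU (O L) + sg (e A) * vU (O A) + sg (e B) * vU (O B))
  hY2 : n - q0 * (sg (e L) * vU (O L) + sg (e A) * vU (O A) + sg (e B) * vU (O B)) ≤ 2

/-- the orientation `b` is possible -/
def Or3 {K : ℕ} (O : Fin K → OBr) (L A B : Fin K) (b : Bool) : Prop :=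
  0 ≤ vY (O L) + sg b * (vY (O A) - vY (O B)) ∧ vY (O L) + sg b * (vY (O A) - vY (O B)) ≤ 2

/-- the signs of the edges -/
def sg3 (A B : Fin K) (b : Bool) : Fin K → Bool :=
  fun i => if i = A then b else if i = B then !b else true

lemma I3.t3 (h : I3 L A B) (hb : Or3 O L A B b) (he : Lb3 O L A B e n) :
    T3 O L A B (sg3 A B b) e b n where
  hu := h.sum
  hr := h.rest
  hσL := by unfold sg3; rw [if_neg h.hLA, if_neg h.hLB]
  hσA := by unfold sg3; rw [if_pos rfl]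
  hσB := by unfold sg3; rw [if_neg h.hAB.symm, if_pos rfl]
  hn := he.hn
  hU0 := hb.1
  hU2 := hb.2
  hY0 := he.hY0
  hY2 := he.hY2

/-- the labels `e'` are `e` with the relative sign of `i` and the two others changed -/
def Fl3 {K : ℕ} (e e' : Fin K → Bool) (i j k : Fin K) : Prop :=
  (e' i = !e i ∧ e' j = e j ∧ e' k = e k) ∨ (e' i = e i ∧ e' j = !e j ∧ e' k = !e k)

/-- the seminorm of `G` is bounded with the child `i` alone -/
def AG3 {K : ℕ} (O : Fin K → OBr) (e : Fin K → Bool) (i j k : Fin K) : Prop :=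
  dn q0 (gU e O) ^ 2 ≤ aU (O i) ^ 2 + 2 * aU (O j) ^ 2 + 2 * aU (O k) ^ 2

/-- the seminorm of the new `U` is bounded with the child `i` alone -/
def AU3 {K : ℕ} (O : Fin K → OBr) (σ e : Fin K → Bool) (i j k : Fin K) : Prop :=
  aU (fam σ e O) ^ 2 ≤ aY (O i) ^ 2 + 2 * aY (O j) ^ 2 + 2 * aY (O k) ^ 2

lemma flipG {i j k : Fin K} (h : I3 i j k) {e e' : Fin K → Bool} (hf : Fl3 e e' i j k) :
    AG3 O e i j k ∨ AG3 O e' i j k := by
  have hg : ∀ ε : Fin K → Bool, gU ε O = sg (ε i) • UU (O i) +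
      (sg (ε j) • UU (O j) + sg (ε k) • UU (O k)) := by
    intro ε
    refine Polynomial.funext fun a => ?_
    rw [FamS.G_eq, h.sum, eval_add, eval_add, eval_smul, eval_smul, eval_smul, smul_eq_mul,
      smul_eq_mul, smul_eq_mul]
    ring
  set p := sg (e i) • UU (O i) with hp
  set q := sg (e j) • UU (O j) + sg (e k) • UU (O k) with hq
  have e1 : gU e O = p + q := hg e
  have e2 : dn q0 (gU e' O) = dn q0 (p - q) := by
    rw [hg e']
    rcases hf with ⟨h1, h2, h3⟩ | ⟨h1, h2, h3⟩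
    · have : sg (e' i) • UU (O i) + (sg (e' j) • UU (O j) + sg (e' k) • UU (O k)) =
          -(p - q) := by
        rw [h1, h2, h3, sg_not', hp, hq]
        module
      rw [this, TDN.dn_neg]
    · have : sg (e' i) • UU (O i) + (sg (e' j) • UU (O j) + sg (e' k) • UU (O k)) =
          p - q := by
        rw [h1, h2, h3, sg_not', sg_not', hp, hq]
        module
      rw [this]
  have hpn : dn q0 p = aU (O i) := by rw [hp, dn_sg]; rfl
  have hqn : dn q0 q ^ 2 ≤ 2 * aU (O j) ^ 2 + 2 * aU (O k) ^ 2 := by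
    rw [hq]
    exact dn_two_sg _ _ _ _
  rcases dn_flip p q with h1 | h1
  · left
    unfold AG3
    rw [e1]
    rw [hpn] at h1
    linarith
  · right
    unfold AG3
    rw [e2]
    rw [hpn] at h1
    linarith

lemma flipU (h : I3 L A B) (e : Fin K → Bool) : AU3 O (sg3 A B true) e L A B ∨
    AU3 O (sg3 A B false) e L A B := by
  have hg : ∀ b : Bool, UU (fam (sg3 A B b) e O) = YY (O L) +
      sg b • (YY (O A) - YY (O B)) := by
    intro b
    refine Polynomial.funext fun a => ?_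
    have e1 : sg3 A B b L = true := by unfold sg3; rw [if_neg h.hLA, if_neg h.hLB]
    have e2 : sg3 A B b A = b := by unfold sg3; rw [if_pos rfl]
    have e3 : sg3 A B b B = !b := by unfold sg3; rw [if_neg h.hAB.symm, if_pos rfl]
    rw [FamS.U_eq, h.sum, e1, e2, e3, sg_not', TSR.sg_tt, eval_add, eval_smul, eval_sub,
      smul_eq_mul]
    ring
  have hq : dn q0 (YY (O A) - YY (O B)) ^ 2 ≤ 2 * aY (O A) ^ 2 + 2 * aY (O B) ^ 2 := by
    have h1 := dn_two_sg true false (YY (O A)) (YY (O B))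
    rw [TSR.sg_tt, TSR.sg_ff, one_smul, neg_one_smul, ← sub_eq_add_neg] at h1
    exact h1
  have hp : dn q0 (YY (O L)) = aY (O L) := rfl
  rcases dn_flip (YY (O L)) (YY (O A) - YY (O B)) with h1 | h1
  · left
    unfold AU3 aU
    rw [hg true, TSR.sg_tt, one_smul]
    rw [hp] at h1
    linarith
  · right
    unfold AU3 aU
    rw [hg false, TSR.sg_ff, neg_one_smul, ← sub_eq_add_neg]
    rw [hp] at h1
    linarith

/-- **three children, everything explicit**: the obligation for all allowed orientations `b` and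
the labels `e`, `e'`. If both orientations are allowed, then the child `L` is alone in the bound of
the seminorm of the new `U`; if `e'` is a flip of `e`, then the child `i` is alone in the bound of
the seminorm of `G` -/
theorem po3 (hY : Y.G = GoodE χ) (hχ : ∀ D, RD D → 0 ≤ χ D) (h : I3 L A B) {tc : Fin K → ℕ}
    (hT : FamT Y Adm V P O N tc) (S : Bool → Prop) (hS : S true ∨ S false)
    (hSb : ∀ b, S b → Or3 O L A B b) {e e' : Fin K → Bool} {n n' : ℕ}
    (he : Lb3 O L A B e n) (he' : Lb3 O L A B e' n') {i j k : Fin K}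
    (hf : (e' = e ∧ n' = n) ∨ (Fl3 e e' i j k ∧ I3 i j k))
    (H : ∀ b, S b → ∀ ε ν, ((ε = e ∧ ν = n) ∨ (ε = e' ∧ ν = n')) → ∀ σ,
      T3 O L A B σ ε b ν → (S true → S false → AU3 O σ ε L A B) →
      (Fl3 e e' i j k → AG3 O ε i j k) → LO Adm V P χ O N tc σ ε L) :
    ∃ σ e : Fin K → Bool, PO Y Adm V P (fam σ e O) := by
  have hK2 : 2 ≤ K := by rw [h.hK]; omega
  -- the labels
  obtain ⟨ε, ν, hε, hLb, hAG⟩ : ∃ (ε : Fin K → Bool) (ν : ℕ),
      ((ε = e ∧ ν = n) ∨ (ε = e' ∧ ν = n')) ∧ Lb3 O L A B ε ν ∧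
        (Fl3 e e' i j k → AG3 O ε i j k) := by
    by_cases hc : Fl3 e e' i j k
    · have hI : I3 i j k := by
        rcases hf with ⟨h1, _⟩ | ⟨_, h1⟩
        · exfalso
          rw [h1] at hc
          rcases hc with ⟨h2, _⟩ | ⟨_, h2, _⟩
          · cases h3 : e i <;> rw [h3] at h2 <;> cases h2
          · cases h3 : e j <;> rw [h3] at h2 <;> cases h2
        · exact h1
      rcases flipG hI hc (O := O) with h1 | h1
      · exact ⟨e, n, Or.inl ⟨rfl, rfl⟩, he, fun _ => h1⟩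
      · exact ⟨e', n', Or.inr ⟨rfl, rfl⟩, he', fun _ => h1⟩
    · exact ⟨e, n, Or.inl ⟨rfl, rfl⟩, he, fun h1 => absurd h1 hc⟩
  -- the orientation
  obtain ⟨b, hb, hAU⟩ : ∃ b, S b ∧ (S true → S false → AU3 O (sg3 A B b) ε L A B) := by
    by_cases h1 : S true
    · by_cases h2 : S false
      · rcases flipU h ε (O := O) with h3 | h3
        · exact ⟨true, h1, fun _ _ => h3⟩
        · exact ⟨false, h2, fun _ _ => h3⟩
      · exact ⟨true, h1, fun _ h3 => absurd h3 h2⟩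
    · rcases hS with h2 | h2
      · exact absurd h2 h1
      · exact ⟨false, h2, fun h3 _ => absurd h3 h1⟩
  have t := h.t3 (hSb b hb) hLb
  obtain ⟨ty, hty, hA, h4⟩ := H b hb ε ν hε _ t hAU hAG
  exact ⟨_, ε, po_L hY hχ hK2 hT t.hσL t.σ1 t.inv hty hA h4⟩

end

end Pool.Agent.TSM
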