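import Pool.Agent.TSM.T4
import Pool.Agent.TSM.State
import Pool.Agent.TSC.Dec

set_option autoImplicit false

/-!
# The creation inequality (MP_d27362_co)
-/

namespace Pool.Agent.TSM

open Polynomial MeasureTheory
open Pool.Agent.TDN (dn dn_nonneg)
open Pool.Agent.TSC (Dec)

/-- **the creation inequality** with the deviation at `t` -/
structure Cre (t lam g be : ℝ) : Prop where
  lam0 : 0 ≤ lam
  g0 : 0 ≤ g
  be0 : 0 ≤ be
  h : ∀ p : ℝ[X], dn q0 (X * p) ^ 2 + be * (p.eval t - p.eval q0) ^ 2 ≤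
    q0 ^ 2 * (g * p.eval q0 ^ 2 + lam * dn q0 p ^ 2)

/-- the linear form of the creation inequality -/
structure CreL (kl : ℝ) : Prop where
  kl0 : 0 ≤ kl
  h : ∀ p : ℝ[X], dn q0 (X * p) ≤ q0 * kl * Real.sqrt (p.eval q0 ^ 2 + dn q0 p ^ 2)

lemma Cre.mono {t lam g be lam' g' be' : ℝ} (h : Cre t lam g be) (h1 : lam ≤ lam') (h2 : g ≤ g')
    (h3 : 0 ≤ be') (h4 : be' ≤ be) : Cre t lam' g' be' where
  lam0 := h.lam0.trans h1
  g0 := h.g0.trans h2
  be0 := h3
  h := fun p => by
    have e1 := h.h p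
    have e2 := mul_le_mul_of_nonneg_right h4 (sq_nonneg (p.eval t - p.eval q0))
    have e3 := mul_le_mul_of_nonneg_right h1 (sq_nonneg (dn q0 p))
    have e4 := mul_le_mul_of_nonneg_right h2 (sq_nonneg (p.eval q0))
    have e5 := mul_le_mul_of_nonneg_left (add_le_add e4 e3) (sq_nonneg q0)
    linarith

lemma Cre.mix {t lam g be lam' g' be' th : ℝ} (h : Cre t lam g be) (h' : Cre t lam' g' be')
    (h0 : 0 ≤ th) (h1 : th ≤ 1) : Cre t (th * lam + (1 - th) * lam') (th * g + (1 - th) * g')
      (th * be + (1 - th) * be') where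
  lam0 := add_nonneg (mul_nonneg h0 h.lam0) (mul_nonneg (by linarith) h'.lam0)
  g0 := add_nonneg (mul_nonneg h0 h.g0) (mul_nonneg (by linarith) h'.g0)
  be0 := add_nonneg (mul_nonneg h0 h.be0) (mul_nonneg (by linarith) h'.be0)
  h := fun p => by
    have e1 := mul_le_mul_of_nonneg_left (h.h p) h0
    have e2 := mul_le_mul_of_nonneg_left (h'.h p) (show 0 ≤ 1 - th by linarith)
    nlinarith

/-! ### the seminorm without weight -/

/-- the weight of the seminorm: `κ`, `al`, `be` -/
lemma wgt_dn : Wgt (dn q0) q0 1 1 0 where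
  hκ := one_pos
  hal := one_pos
  hX := fun p => by
    rw [TDN.dn_X_mul_sq_eq q0 q0_pos.le p, ← intervalIntegral.integral_const_mul]
    refine le_of_eq ?_
    have e : ∀ s : ℝ, ((1 : ℕ) : ℝ) * q0 / (((1 : ℕ) : ℝ) + ((0 : ℕ) : ℝ) * (1 - s / q0)) *
        (s ^ 2 * (derivative p).eval s ^ 2) = q0 * (s ^ 2 * (derivative p).eval s ^ 2) := by
      intro s
      push_cast
      ring
    simp only [e]
    push_cast
    ring
  hn := fun p => by
    rw [TDN.dn_sq_eq q0 q0_pos.le p, ← intervalIntegral.integral_const_mul]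
    have e : ∀ s : ℝ, ((1 : ℕ) : ℝ) * q0 / (((1 : ℕ) : ℝ) + ((0 : ℕ) : ℝ) * (1 - s / q0)) *
        (derivative p).eval s ^ 2 = q0 * (derivative p).eval s ^ 2 := by
      intro s
      push_cast
      ring
    simp only [e]

lemma cre_base (t : ℝ) : Cre t 1 1 0 where
  lam0 := zero_le_one
  g0 := zero_le_one
  be0 := le_rfl
  h := fun p => by
    have := TDN.dn_X_mul_sq_le q0 q0_pos.le p
    linarith

lemma creL_base : CreL 1 where
  kl0 := zero_le_one
  h := fun p => by
    have := TDN.dn_X_mul_le q0 q0_pos.le p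
    rw [mul_one]
    exact this

lemma q0_lo : (405284 : ℝ) / 1000000 ≤ q0 := by
  unfold q0
  have h := Real.pi_lt_d6
  have h0 := Real.pi_pos
  rw [le_div_iff₀ (by positivity)]
  nlinarith

lemma q0_hi : q0 ≤ (405285 : ℝ) / 1000000 := by
  unfold q0
  have h := Real.pi_gt_d6
  rw [div_le_iff₀ (by positivity)]
  nlinarith

theorem cre_t4 {t0 L B n : ℕ} (h : t4Ok 1 0 1 t0 L B n = true) {t : ℝ}
    (ht0 : t0 / 1000000 ≤ t) (ht : t ≤ q0) : Cre t (L / 10000) 1 (B / 10000) where
  lam0 := by positivity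
  g0 := zero_le_one
  be0 := by positivity
  h := fun p => by
    have h1 := t4_step q0_lo q0_hi wgt_dn h ht0 ht p
    have e : ((1 : ℕ) : ℝ) / ((1 : ℕ) : ℝ) = 1 := by norm_num
    rw [e] at h1
    exact h1

/-! ### the test -/

/-- the pairs `(lam, g)` -/
def creP : ℕ → Dec × Dec
  | _ => (Dec.one, Dec.one)

lemma creP_ok (k : ℕ) (t : ℝ) : Cre t (creP k).1.val (creP k).2.val 0 := by
  unfold creP
  dsimp only
  rw [Dec.val_one]
  exact cre_base t

/-- the constant of the linear form -/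
def creK : Dec := Dec.one

lemma creK_ok : CreL creK.val := by
  unfold creK
  rw [Dec.val_one]
  exact creL_base

/-- the value part of the sharp step -/
def creG : Dec := Dec.one

/-- the data of a creation inequality: with the fraction `th` the pair `k`, with the fraction
`1 - th` the sharp step with `lam = L / 10^4`, `be = B / 10^4`, from `u / 10^6` on, `n` cells;
`n = 0`: only the pair -/
structure CR where
  /-- see above -/
  th : Dec
  /-- see above -/
  k : ℕ
  /-- see above -/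
  u : ℕ
  /-- see above -/
  L : ℕ
  /-- see above -/
  B : ℕ
  /-- see above -/
  n : ℕ

/-- `x ≤ y` -/
def dle (x y : Dec) : Bool := (y.sub x).nn

lemma dle_iff {x y : Dec} (h : dle x y = true) : x.val ≤ y.val := by
  have := Dec.nn_iff h
  rw [Dec.val_sub] at this
  linarith

/-- **the test of a creation inequality** for all `t ≥ t0` -/
def creOk (c : CR) (t0 la ga be : Dec) : Bool :=
  if c.n = 0 then dle (creP c.k).1 la && (dle (creP c.k).2 ga && (be.nn && be.neg.nn))
  else c.th.nn && (dle c.th Dec.one && (dle (Dec.pos c.u 6) t0 && (t4Ok 1 0 1 c.u c.L c.B c.n &&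
    (dle ((c.th.mul (creP c.k).1).add ((Dec.one.sub c.th).mul (Dec.pos c.L 4))) la &&
    (dle ((c.th.mul (creP c.k).2).add ((Dec.one.sub c.th).mul creG)) ga &&
    (be.nn && dle be ((Dec.one.sub c.th).mul (Dec.pos c.B 4))))))))

theorem creOk_sound {c : CR} {t0 la ga be : Dec} (h : creOk c t0 la ga be = true) {t : ℝ}
    (h0 : t0.val ≤ t) (ht : t ≤ q0) : Cre t la.val ga.val be.val := by
  unfold creOk at h
  split_ifs at h with hn
  · simp only [Bool.and_eq_true] at h
    obtain ⟨h1, h2, h3, h4⟩ := h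
    have h4 := Dec.nn_iff h4
    rw [Dec.val_neg] at h4
    exact (creP_ok c.k t).mono (dle_iff h1) (dle_iff h2) (Dec.nn_iff h3) (by linarith)
  · simp only [Bool.and_eq_true] at h
    obtain ⟨h1, h2, h3, h4, h5, h6, h7, h8⟩ := h
    have h1 := Dec.nn_iff h1
    have h2 := dle_iff h2
    have h3 := dle_iff h3
    have h5 := dle_iff h5
    have h6 := dle_iff h6
    have h7 := Dec.nn_iff h7
    have h8 := dle_iff h8
    simp only [Dec.val_add, Dec.val_mul, Dec.val_sub, Dec.val_one, Dec.val_pos] at h2 h3 h5 h6 h8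
    have e6 : (10 : ℝ) ^ 6 = 1000000 := by norm_num
    have e4 : (10 : ℝ) ^ 4 = 10000 := by norm_num
    rw [e6] at h3
    rw [e4] at h5 h8
    have hg : creG.val = 1 := Dec.val_one
    rw [hg] at h6
    have h9 := (creP_ok c.k t).mix (cre_t4 h4 (h3.trans h0) ht) h1 h2
    exact h9.mono h5 h6 h7 (by rw [mul_zero, zero_add]; exact h8)

end Pool.Agent.TSM
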