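import Pool.Agent.TSM.EvenD

set_option autoImplicit false

/-!
# An even number of children, two coefficients in the bound of the state (MP_d27362_co)

`(√(∫ y² + t U²) + ∫ y)² ≤ (1 + l) ∫ (y² + t U²) + (1 + 1/l) D ∫ y²`: the mass `D` does not meet
the part of `U`.
-/

namespace Pool.Agent.TSM

open Finset Polynomial
open Pool.Agent.TSP
open Pool.Agent.TSO
open Pool.Agent.TSR (OBr Ker sg_true sg_false vS_nonneg)
open Pool.Agent.TLT (sg)

noncomputable section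

/-- the square of the sup bound for `τ = 0`, two coefficients -/
theorem sup_sq_le2 {m : ℕ} {S : Fin m → Fin m → ℝ} (hK : Ker S) (U y : ℝ[X]) (l : ℝ)
    (hl : 0 < l) : (Real.sqrt (en2 S U y) + mo S y) ^ 2 ≤
      (1 + l) * en2 S U y + (1 + 1 / l) * dee S * mo S (y * y) := by
  have h0 := en2_nonneg (S := S) hK.anti U y
  have h1 := Real.sq_sqrt h0
  have h2 := mo_sq_le hK y
  set s := Real.sqrt (en2 S U y)
  set b := mo S y
  have h3 : 2 * s * b ≤ l * s ^ 2 + (1 / l) * b ^ 2 := by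
    have e : l * s ^ 2 + (1 / l) * b ^ 2 - 2 * s * b = (1 / l) * (l * s - b) ^ 2 := by
      field_simp
      ring
    have : 0 ≤ (1 / l) * (l * s - b) ^ 2 := by positivity
    linarith
  have h4 : (1 + 1 / l) * b ^ 2 ≤ (1 + 1 / l) * (dee S * mo S (y * y)) :=
    mul_le_mul_of_nonneg_left h2 (by positivity)
  calc (s + b) ^ 2 = s ^ 2 + 2 * s * b + b ^ 2 := by ring
    _ ≤ (1 + l) * s ^ 2 + (1 + 1 / l) * b ^ 2 := by linarith
    _ ≤ (1 + l) * en2 S U y + (1 + 1 / l) * (dee S * mo S (y * y)) := by rw [h1]; linarith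
    _ = _ := by ring

/-- even number `K` of children, finite rule with the constant `de ≤ dl D`, two coefficients:
`U`, `y` the new state, `V` the sum of the values -/
def EvF2 (χ : ℝ → ℝ) (D : ℝ) (K : ℕ) (U y V V' c' : ℝ → ℝ) : Prop :=
  ∃ cq μ P l r de dl : ℝ, ∃ g : ℝ → ℝ, ExpFd K cq μ P de ∧ 0 < l ∧ r * D ≤ P ∧ de ≤ dl * D ∧
    ILe D g y ∧ ILe D g (fun _ => r) ∧
    ILe D V' (fun a => V a + g a - dl - μ * ((1 + l) * (y a ^ 2 + a * U a ^ 2) +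
      (1 + 1 / l) * D * y a ^ 2) - 2 * cq * (a ^ 2 * U a ^ 2 + a * y a ^ 2)) ∧
    ILe D V' (fun a => V a + g a - dl - μ * ((1 + l) * (y a ^ 2 + a * U a ^ 2) +
      (1 + 1 / l) * D * y a ^ 2) - 2 * cq * (a ^ 2 * U a ^ 2 + a * y a ^ 2) -
      χ D * (2 * cq * (a ^ 2 * U a ^ 2 + a * y a ^ 2) - c' a))

/-- even number of children, Rule E, two coefficients -/
def EvE2 (χ : ℝ → ℝ) (D : ℝ) (U y V V' c' : ℝ → ℝ) : Prop :=
  ∃ cq μ l : ℝ, ExpE cq μ ∧ 0 < l ∧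
    ILe D V' (fun a => V a + y a - μ * ((1 + l) * (y a ^ 2 + a * U a ^ 2) +
      (1 + 1 / l) * D * y a ^ 2) - 2 * cq * (a ^ 2 * U a ^ 2 + a * y a ^ 2)) ∧
    ILe D V' (fun a => V a + y a - μ * ((1 + l) * (y a ^ 2 + a * U a ^ 2) +
      (1 + 1 / l) * D * y a ^ 2) - 2 * cq * (a ^ 2 * U a ^ 2 + a * y a ^ 2) -
      χ D * (2 * cq * (a ^ 2 * U a ^ 2 + a * y a ^ 2) - c' a))

/-- the data of a family with `Σ σ = 0` -/
theorem fam_data {m : ℕ} {S : Fin m → Fin m → ℝ} {w t : Fin m → ℝ} (hR : Rep S w t) {K : ℕ}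
    (O : Fin K → OBr) (σ e : Fin K → Bool) (hτ : ∑ i, sg (σ i) = 0) (U y : ℝ → ℝ)
    (hU : ∀ a, ∑ i, sg (σ i) * (YY (O i)).eval a = U a)
    (hy : ∀ a, ∑ i, sg (e i) * (XX (O i)).eval a = y a) :
    ∑ i, sg (σ i) • (1 - X * YY (O i)) = C 0 - X * ∑ i, sg (σ i) • YY (O i) ∧
    en S (∑ i, sg (σ i) • (1 - X * YY (O i))) (∑ i, sg (e i) • XX (O i)) =
      (nu w t fun a => a ^ 2 * U a ^ 2 + a * y a ^ 2) ∧
    en2 S (∑ i, sg (σ i) • YY (O i)) (∑ i, sg (e i) • XX (O i)) =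
      (nu w t fun a => y a ^ 2 + a * U a ^ 2) ∧
    mo S ((∑ i, sg (e i) • XX (O i)) * ∑ i, sg (e i) • XX (O i)) =
      (nu w t fun a => y a ^ 2) := by
  have hx' : ∑ i, sg (σ i) • (1 - X * YY (O i)) = C 0 - X * ∑ i, sg (σ i) • YY (O i) := by
    have h1 : ∀ i : Fin K, sg (σ i) • (1 - X * YY (O i)) =
        C (sg (σ i)) - X * (sg (σ i) • YY (O i)) := by
      intro i
      rw [smul_sub, smul_eq_C_mul, mul_one, mul_smul_comm]
    rw [Finset.sum_congr rfl fun i _ => h1 i, Finset.sum_sub_distrib, ← Finset.mul_sum,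
      ← map_sum, hτ]
  have hUe : ∀ a, (∑ i, sg (σ i) • YY (O i)).eval a = U a := by
    intro a
    rw [eval_finsetSum, ← hU a]
    exact Finset.sum_congr rfl fun i _ => by rw [eval_smul, smul_eq_mul]
  have hye : ∀ a, (∑ i, sg (e i) • XX (O i)).eval a = y a := by
    intro a
    rw [eval_finsetSum, ← hy a]
    exact Finset.sum_congr rfl fun i _ => by rw [eval_smul, smul_eq_mul]
  refine ⟨hx', ?_, ?_, ?_⟩
  · rw [hx', hR.en_nu]
    congr 1
    funext a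
    simp only [eval_sub, eval_C, eval_mul, eval_X, hUe, hye]
    ring
  · unfold en2
    rw [hR.mo_nu]
    congr 1
    funext a
    simp only [eval_add, eval_mul, eval_X, hUe, hye]
    ring
  · rw [hR.mo_nu]
    congr 1
    funext a
    simp only [eval_mul, hye]
    ring

/-- **even number of children, finite rule**, two coefficients -/
theorem GoodE.evF2 {χ : ℝ → ℝ} (hχ : ∀ D, RD D → 0 ≤ χ D) {K : ℕ} (hK0 : 0 < K)
    (O : Fin K → OBr) (σ e : Fin K → Bool) (V c : Fin K → ℝ → ℝ → ℝ)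
    (h : ∀ i, GoodE χ (O i) (V i) (c i)) (hτ : ∑ i, sg (σ i) = 0) {V' c' : ℝ → ℝ → ℝ}
    (U y : ℝ → ℝ) (hU : ∀ a, ∑ i, sg (σ i) * (YY (O i)).eval a = U a)
    (hy : ∀ a, ∑ i, sg (e i) * (XX (O i)).eval a = y a)
    (H : ∀ D, RD D → EvF2 χ D K U y (fun a => ∑ i, V i D a) (V' D) (c' D)) :
    GoodE χ (fam σ e O) V' c' := by
  intro m S hS w t hR
  have hRD : RD (dee S) := ⟨hR.dee_nonneg, hR.dee_le⟩
  obtain ⟨cq, μ, P, l, r, de, dl, g, hF, hl, hrP, hde, hg, hgr, hp1, hp2⟩ := H _ hRD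
  have hM : ∀ i ∈ (Finset.univ : Finset (Fin K)), MMajE S (ms S (cn (σ i) (e i) (O i)))
      (sg (σ i) • (1 - X * YY (O i))) (sg (e i) • XX (O i))
      (nu w t fun a => sg (e i) * (XX (O i)).eval a) (χ (dee S)) (nu w t (V i (dee S)))
      (nu w t (c i (dee S))) := fun i _ => (h i).msg (σ i) (e i) hS hR
  obtain ⟨hx', hen, hen2, hmy2⟩ := fam_data hR O σ e hτ U y hU hy
  rw [fam_vS, fam_XX, fam_YY]
  have hsumG : ∑ i, (nu w t fun a => sg (e i) * (XX (O i)).eval a) = nu w t y := by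
    rw [← nu_finset_sum]
    congr 1
    funext a
    exact hy a
  have hG1 : nu w t g ≤ nu w t y := hg m S hS w t hR rfl
  have hGP : nu w t g ≤ P := by
    have := hgr m S hS w t hR rfl
    rw [hR.nu_const] at this
    exact this.trans hrP
  have hp1' := hp1 m S hS w t hR rfl
  have hp2' := hp2 m S hS w t hR rfl
  have eT : (nu w t fun a => (∑ i, V i (dee S) a) + g a - dl -
      μ * ((1 + l) * (y a ^ 2 + a * U a ^ 2) + (1 + 1 / l) * dee S * y a ^ 2) -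
      2 * cq * (a ^ 2 * U a ^ 2 + a * y a ^ 2)) =
      ∑ i, nu w t (V i (dee S)) + nu w t g - dl * dee S -
      μ * ((1 + l) * en2 S (∑ i, sg (σ i) • YY (O i)) (∑ i, sg (e i) • XX (O i)) +
        (1 + 1 / l) * dee S * mo S ((∑ i, sg (e i) • XX (O i)) * ∑ i, sg (e i) • XX (O i))) -
      2 * cq * en S (∑ i, sg (σ i) • (1 - X * YY (O i))) (∑ i, sg (e i) • XX (O i)) := by
    rw [nu_sub, nu_sub, nu_sub, nu_add, nu_finset_sum, hR.nu_const, nu_mul, nu_mul, nu_add,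
      nu_mul, nu_mul, ← hen, ← hen2, ← hmy2]
  rw [eT] at hp1'
  rw [nu_sub, nu_mul, eT, nu_sub, nu_mul, ← hen] at hp2'
  have hsup := mul_le_mul_of_nonneg_left (sup_sq_le2 hS (∑ i, sg (σ i) • YY (O i))
    (∑ i, sg (e i) • XX (O i)) l hl) hF.mu0
  refine (MMajE.manyF hS Finset.univ K (by simp) hK0 _ _ _ _ _ _ (hχ _ hRD) hM cq
    (de + μ * ((1 + l) * en2 S (∑ i, sg (σ i) • YY (O i)) (∑ i, sg (e i) • XX (O i)) +
        (1 + 1 / l) * dee S * mo S ((∑ i, sg (e i) • XX (O i)) * ∑ i, sg (e i) • XX (O i))))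
    (nu w t g) P hF.cq0 (by rw [hsumG]; exact hG1) hGP ?_ le_rfl le_rfl).excess ?_ ?_
  · intro z ρ hρ hnn
    rw [hx'] at hnn ⊢
    have h1 := st_sup hS 0 (∑ i, sg (σ i) • YY (O i)) (∑ i, sg (e i) • XX (O i)) z
    rw [show ∀ q : ℝ, (0 : ℝ) ^ 2 + q = q by intro q; ring] at h1
    refine (hF.hexp _ _ _ hρ h1 hnn).trans ?_
    refine mul_le_mul_of_nonneg_left ?_ (Real.exp_nonneg _)
    exact mul_le_mul_of_nonneg_right (Real.exp_le_exp.2 (add_le_add le_rfl hsup)) (hF.quad _)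
  · linarith
  · linarith

/-- **even number of children, Rule E**, two coefficients -/
theorem GoodE.evE2 {χ : ℝ → ℝ} (hχ : ∀ D, RD D → 0 ≤ χ D) {K : ℕ} (O : Fin K → OBr)
    (σ e : Fin K → Bool) (V c : Fin K → ℝ → ℝ → ℝ)
    (h : ∀ i, GoodE χ (O i) (V i) (c i)) (hτ : ∑ i, sg (σ i) = 0) {V' c' : ℝ → ℝ → ℝ}
    (U y : ℝ → ℝ) (hU : ∀ a, ∑ i, sg (σ i) * (YY (O i)).eval a = U a)
    (hy : ∀ a, ∑ i, sg (e i) * (XX (O i)).eval a = y a)
    (H : ∀ D, RD D → EvE2 χ D U y (fun a => ∑ i, V i D a) (V' D) (c' D)) :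
    GoodE χ (fam σ e O) V' c' := by
  intro m S hS w t hR
  have hRD : RD (dee S) := ⟨hR.dee_nonneg, hR.dee_le⟩
  obtain ⟨cq, μ, l, hF, hl, hp1, hp2⟩ := H _ hRD
  have hM : ∀ i ∈ (Finset.univ : Finset (Fin K)), MMajE S (ms S (cn (σ i) (e i) (O i)))
      (sg (σ i) • (1 - X * YY (O i))) (sg (e i) • XX (O i))
      (nu w t fun a => sg (e i) * (XX (O i)).eval a) (χ (dee S)) (nu w t (V i (dee S)))
      (nu w t (c i (dee S))) := fun i _ => (h i).msg (σ i) (e i) hS hR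
  obtain ⟨hx', hen, hen2, hmy2⟩ := fam_data hR O σ e hτ U y hU hy
  rw [fam_vS, fam_XX, fam_YY]
  have hsumG : ∑ i, (nu w t fun a => sg (e i) * (XX (O i)).eval a) = nu w t y := by
    rw [← nu_finset_sum]
    congr 1
    funext a
    exact hy a
  have hp1' := hp1 m S hS w t hR rfl
  have hp2' := hp2 m S hS w t hR rfl
  have eT : (nu w t fun a => (∑ i, V i (dee S) a) + y a -
      μ * ((1 + l) * (y a ^ 2 + a * U a ^ 2) + (1 + 1 / l) * dee S * y a ^ 2) -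
      2 * cq * (a ^ 2 * U a ^ 2 + a * y a ^ 2)) =
      ∑ i, nu w t (V i (dee S)) + nu w t y -
      μ * ((1 + l) * en2 S (∑ i, sg (σ i) • YY (O i)) (∑ i, sg (e i) • XX (O i)) +
        (1 + 1 / l) * dee S * mo S ((∑ i, sg (e i) • XX (O i)) * ∑ i, sg (e i) • XX (O i))) -
      2 * cq * en S (∑ i, sg (σ i) • (1 - X * YY (O i))) (∑ i, sg (e i) • XX (O i)) := by
    rw [nu_sub, nu_sub, nu_add, nu_finset_sum, nu_mul, nu_mul, nu_add, nu_mul,
      nu_mul, ← hen, ← hen2, ← hmy2]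
  rw [eT] at hp1'
  rw [nu_sub, nu_mul, eT, nu_sub, nu_mul, ← hen] at hp2'
  have hsup := mul_le_mul_of_nonneg_left (sup_sq_le2 hS (∑ i, sg (σ i) • YY (O i))
    (∑ i, sg (e i) • XX (O i)) l hl) hF.mu0
  refine (MMajE.manyE hS Finset.univ _ _ _ _ _ _ (hχ _ hRD) hM cq
    (μ * ((1 + l) * en2 S (∑ i, sg (σ i) • YY (O i)) (∑ i, sg (e i) • XX (O i)) +
        (1 + 1 / l) * dee S * mo S ((∑ i, sg (e i) • XX (O i)) * ∑ i, sg (e i) • XX (O i))))
    hF.cq0 ?_ le_rfl le_rfl).excess ?_ ?_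
  · intro z
    rw [hx']
    have h1 := st_sup hS 0 (∑ i, sg (σ i) • YY (O i)) (∑ i, sg (e i) • XX (O i)) z
    rw [show ∀ q : ℝ, (0 : ℝ) ^ 2 + q = q by intro q; ring] at h1
    have h2 := hF.hexp _ _ h1
    refine h2.trans (mul_le_mul_of_nonneg_right (Real.exp_le_exp.2 hsup) ?_)
    by_contra h
    push Not at h
    have h4 := mul_neg_of_pos_of_neg (Real.exp_pos (μ * (Real.sqrt (en2 S
      (∑ i, sg (σ i) • YY (O i)) (∑ i, sg (e i) • XX (O i))) +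
        mo S (∑ i, sg (e i) • XX (O i))) ^ 2)) h
    have := Real.exp_pos (st S (C 0 - X * ∑ i, sg (σ i) • YY (O i))
      (∑ i, sg (e i) • XX (O i)) z)
    linarith
  · rw [hsumG]
    linarith
  · rw [hsumG]
    linarith

end

end Pool.Agent.TSM
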