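import Pool.Agent.TSM.Fam5
import Pool.Agent.TSM.EvenH

set_option autoImplicit false

/-!
# The step with an even number of children, two coefficients (MP_d27362_co)
-/

namespace Pool.Agent.TSM

open Finset Polynomial
open Pool.Agent.TSP
open Pool.Agent.TSO
open Pool.Agent.TSR (OBr Ker)
open Pool.Agent.TLT (sg)
open Pool.Agent.TDN (dn dn_nonneg)

noncomputable section

variable {K : ℕ} {O : Fin K → OBr} {N : Finset (Fin K)}
  {Y : Sys} {Adm : ℕ → ℝ → ℝ → ℝ → ℝ → Prop} {V P : ℝ → ℝ → Sn → ℝ} {χ : ℝ → ℝ}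

/-- Rule E is a finite rule, two coefficients -/
lemma EvE2.toF {D : ℝ} {U y V V' c' : ℝ → ℝ} (h : EvE2 χ D U y V V' c') {K : ℕ} (hK : 0 < K)
    (hb : ∃ B, ∀ a, Reg D a → y a ≤ B) : EvF2 χ D K U y V V' c' := by
  obtain ⟨cq, μ, l, hE, hl, h1, h2⟩ := h
  obtain ⟨B, hB⟩ := hb
  refine ⟨cq, μ, B * D, l, B, 0, 0, y, (hE.toF hK _).toD, hl, le_rfl, by rw [zero_mul],
    ILe.pt fun a _ => le_rfl, ILe.pt fun a ha => hB a ha, ?_, ?_⟩ <;>
    simp only [sub_zero] <;> assumption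

/-- one coefficient is a special case -/
lemma EvF.to2 {D : ℝ} (hD : 0 ≤ D) {U y V V' c' : ℝ → ℝ} {K : ℕ} (h : EvF χ D K U y V V' c') :
    EvF2 χ D K U y V V' c' := by
  obtain ⟨cq, μ, P, l, r, g, hE, hl, hr, hg, hgr, h1, h2⟩ := h
  have key : ∀ a, Reg D a → μ * ((1 + l) * (y a ^ 2 + a * U a ^ 2) +
      (1 + 1 / l) * D * y a ^ 2) ≤
      μ * ((1 + l) + (1 + 1 / l) * D) * (y a ^ 2 + a * U a ^ 2) := by
    intro a ha
    have ha0 := ha.2.2.1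
    have h3 : 0 ≤ (1 + 1 / l) * D * (a * U a ^ 2) := by positivity
    have h4 := mul_nonneg hE.mu0 h3
    linarith
  refine ⟨cq, μ, P, l, r, 0, 0, g, hE.toD, hl, hr, by rw [zero_mul], hg, hgr,
    h1.trans (ILe.pt fun a ha => ?_), h2.trans (ILe.pt fun a ha => ?_)⟩
  · have := key a ha
    linarith
  · have := key a ha
    linarith

/-- the potential of the new state with the costs of an even number of children, gain `y'`, two
coefficients -/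
def NS.evA2 (p : NS) (MU MY Cs a : ℝ) : NS :=
  p.add 0 0 (MU * a + Cs * a ^ 2) (-1) (MY + Cs * a)

/-- the same with the gain `r` -/
def NS.evB2 (p : NS) (MU MY Cs r a : ℝ) : NS :=
  p.add (-r) 0 (MU * a + Cs * a ^ 2) 0 (MY + Cs * a)

lemma NS.evA2_ev (p : NS) (MU MY Cs a : ℝ) (s : Sn) : (p.evA2 MU MY Cs a).ev s =
    p.ev s - s.y + (MU * (a * s.u ^ 2) + MY * s.y ^ 2) +
      Cs * (a ^ 2 * s.u ^ 2 + a * s.y ^ 2) := by
  unfold NS.evA2
  rw [NS.add_ev]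
  ring

lemma NS.evB2_ev (p : NS) (MU MY Cs r a : ℝ) (s : Sn) : (p.evB2 MU MY Cs r a).ev s =
    p.ev s - r + (MU * (a * s.u ^ 2) + MY * s.y ^ 2) +
      Cs * (a ^ 2 * s.u ^ 2 + a * s.y ^ 2) := by
  unfold NS.evB2
  rw [NS.add_ev]
  ring

/-- the finite rule for an even number of children with the constant `de ≤ dl D`, two
coefficients -/
theorem evF_ofD {D : ℝ} {U y V V' c' : ℝ → ℝ} (cq μ Q l r de dl MU MY Cs : ℝ)
    (hE : ExpFd K cq μ Q de) (hr : r * D ≤ Q) (hde : de ≤ dl * D)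
    (hl : 0 < l) (hMU : μ * (1 + l) ≤ MU) (hMY : μ * ((1 + l) + (1 + 1 / l) * D) ≤ MY)
    (hC1 : 2 * cq ≤ Cs)
    {C0 : ℝ} (hC2 : 2 * cq + χ D * (2 * cq - C0) ≤ Cs) (hχ : 0 ≤ χ D)
    (hc' : ∀ a, Reg D a → C0 * (a ^ 2 * U a ^ 2 + a * y a ^ 2) ≤ c' a) {s : ℝ} (hs : 0 ≤ s)
    (H : ∀ a, Reg D a → a < q0 → 0 < D → V' a - y a + dl +
      (MU * (a * U a ^ 2) + MY * y a ^ 2) +
      Cs * (a ^ 2 * U a ^ 2 + a * y a ^ 2) + s * (1 - D / (q0 - a)) ≤ V a)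
    (H' : ∀ a, Reg D a → a < q0 → 0 < D → V' a - r + dl + (MU * (a * U a ^ 2) + MY * y a ^ 2) +
      Cs * (a ^ 2 * U a ^ 2 + a * y a ^ 2) + s * (1 - D / (q0 - a)) ≤ V a) :
    EvF2 χ D K U y V V' c' := by
  have key : ∀ a, Reg D a → a < q0 → 0 < D → V' a + s * (1 - D / (q0 - a)) ≤
      V a + min (y a) r - dl - μ * ((1 + l) * (y a ^ 2 + a * U a ^ 2) +
        (1 + 1 / l) * D * y a ^ 2) - Cs * (a ^ 2 * U a ^ 2 + a * y a ^ 2) := by
    intro a ha hq hD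
    have h1 := H a ha hq hD
    have h1' := H' a ha hq hD
    have ha0 := ha.2.2.1
    have h2 : 0 ≤ a * U a ^ 2 := by positivity
    have h2' : 0 ≤ y a ^ 2 := by positivity
    have h3 := mul_le_mul_of_nonneg_right hMU h2
    have h4 := mul_le_mul_of_nonneg_right hMY h2'
    have h5 : μ * ((1 + l) * (y a ^ 2 + a * U a ^ 2) + (1 + 1 / l) * D * y a ^ 2) ≤
        MU * (a * U a ^ 2) + MY * y a ^ 2 := by
      have e : μ * ((1 + l) * (y a ^ 2 + a * U a ^ 2) + (1 + 1 / l) * D * y a ^ 2) =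
          μ * (1 + l) * (a * U a ^ 2) + μ * ((1 + l) + (1 + 1 / l) * D) * y a ^ 2 := by ring
      rw [e]
      exact add_le_add h3 h4
    rcases le_total (y a) r with h | h
    · rw [min_eq_left h]
      linarith
    · rw [min_eq_right h]
      linarith
  refine ⟨cq, μ, Q, l, r, de, dl, fun a => min (y a) r, hE, hl, hr, hde,
    ILe.pt fun a _ => min_le_left _ _,
    ILe.pt fun a _ => min_le_right _ _, ILe.c1 s hs fun a ha hq hD => ?_,
    ILe.c1 s hs fun a ha hq hD => ?_⟩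
  · have h1 := key a ha hq hD
    have ha0 := ha.2.2.1
    have h3 : 0 ≤ a ^ 2 * U a ^ 2 + a * y a ^ 2 := by positivity
    have := mul_le_mul_of_nonneg_right hC1 h3
    unfold q0 at h1
    linarith
  · have h1 := key a ha hq hD
    have ha0 := ha.2.2.1
    have h3 : 0 ≤ a ^ 2 * U a ^ 2 + a * y a ^ 2 := by positivity
    have h4 := mul_le_mul_of_nonneg_right hC2 h3
    have h5 := mul_le_mul_of_nonneg_left (hc' a ha) hχ
    unfold q0 at h1
    linarith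

/-- the finite rule for an even number of children, two coefficients -/
theorem evF_of2 {D : ℝ} {U y V V' c' : ℝ → ℝ} (cq μ Q l r MU MY Cs : ℝ)
    (hE : ExpF K cq μ Q) (hr : r * D ≤ Q)
    (hl : 0 < l) (hMU : μ * (1 + l) ≤ MU) (hMY : μ * ((1 + l) + (1 + 1 / l) * D) ≤ MY)
    (hC1 : 2 * cq ≤ Cs)
    {C0 : ℝ} (hC2 : 2 * cq + χ D * (2 * cq - C0) ≤ Cs) (hχ : 0 ≤ χ D)
    (hc' : ∀ a, Reg D a → C0 * (a ^ 2 * U a ^ 2 + a * y a ^ 2) ≤ c' a) {s : ℝ} (hs : 0 ≤ s)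
    (H : ∀ a, Reg D a → a < q0 → 0 < D → V' a - y a + (MU * (a * U a ^ 2) + MY * y a ^ 2) +
      Cs * (a ^ 2 * U a ^ 2 + a * y a ^ 2) + s * (1 - D / (q0 - a)) ≤ V a)
    (H' : ∀ a, Reg D a → a < q0 → 0 < D → V' a - r + (MU * (a * U a ^ 2) + MY * y a ^ 2) +
      Cs * (a ^ 2 * U a ^ 2 + a * y a ^ 2) + s * (1 - D / (q0 - a)) ≤ V a) :
    EvF2 χ D K U y V V' c' := by
  refine evF_ofD cq μ Q l r 0 0 MU MY Cs hE.toD hr (by rw [zero_mul]) hl hMU hMY hC1 hC2 hχ hc'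
    hs (fun a ha hq hD => ?_) (fun a ha hq hD => ?_)
  · have := H a ha hq hD
    linarith
  · have := H' a ha hq hD
    linarith

/-- **the step with an even number of children**, two coefficients -/
theorem even_step2 (hY : Y.G = GoodE χ) (hχ : ∀ D, RD D → 0 ≤ χ D) (hK : Even K) (hK0 : 0 < K)
    (hN : ∀ i ∈ N, PO Y Adm V P (O i)) (hM : ∀ i ∉ N, O i = .nil ∨ O i = two)
    (hAd : ∀ vU vY aU aY, Adm 0 vU vY aU aY)
    (H : ∀ (σ e ρ : Fin K → Bool) (tc : Fin K → ℕ) (n : ℕ), FamT Y Adm V P O N tc →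
      n = n1 O % 2 →
      (Even N.card → ∑ i ∈ N, sg (ρ i) = 0) → (Odd N.card → ∑ i ∈ N, sg (ρ i) = 1) →
      (∀ m : ℝ, (N.card : ℝ) ≤ m → FamS O N σ e ρ m 2 n (16 - 12 * n) (4 - 3 * n)) →
      Inv (fam σ e O) → ∀ D, RD D → EvF2 χ D K (fun a => (UU (fam σ e O)).eval a)
        (fun a => (YY (fam σ e O)).eval a) (fun a => ∑ i, Vi V N tc O i D a)
        (fun a => V D a ((chd 0 (fam σ e O)).sn a))
        (fun a => P D a ((chd 0 (fam σ e O)).sn a))) :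
    ∃ σ e : Fin K → Bool, PO Y Adm V P (fam σ e O) := by
  obtain ⟨tc, hT⟩ := famT_exists hN hM
  obtain ⟨s, e, ρ, z, n, hn, h1, h2, h3⟩ := famS_exists hT.hO
  obtain ⟨σ, hσ, hσ0⟩ := ext_even hK s z (fun h => (h1 h).1) (fun h => (h2 h).1)
  have hτ : tau (fam σ e O) = 0 := by rw [fam_tau]; exact hσ0
  have hInv := (h3 σ hσ _ le_rfl).1 (Or.inl hτ)
  refine ⟨σ, e, 0, ?_, hInv, hAd _ _ _ _, ?_⟩
  · rw [hτ]
    simp
  · have h4 := H σ e ρ tc n hT hn (fun h => (h1 h).2) (fun h => (h2 h).2)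
      (fun m hm => (h3 σ hσ m hm).2) hInv
    have hG := hT.hG
    rw [hY] at hG ⊢
    refine GoodE.evF2 hχ hK0 O σ e _ _ hG hσ0 (fun a => (UU (fam σ e O)).eval a)
      (fun a => (YY (fam σ e O)).eval a) (fun a => (FamS.U_eq O σ e a).symm) (fun a => ?_) h4
    rw [fam_YY, eval_finsetSum]
    exact sum_congr rfl fun i _ => by rw [eval_smul, smul_eq_mul]

/-- **the step with an even number of children**, two coefficients, given the types of the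
children -/
theorem even_stepT (hY : Y.G = GoodE χ) (hχ : ∀ D, RD D → 0 ≤ χ D) (hK : Even K) (hK0 : 0 < K)
    {tc : Fin K → ℕ} (hT : FamT Y Adm V P O N tc)
    (hAd : ∀ vU vY aU aY, Adm 0 vU vY aU aY)
    (H : ∀ (σ e ρ : Fin K → Bool) (n : ℕ), n = n1 O % 2 →
      (Even N.card → ∑ i ∈ N, sg (ρ i) = 0) → (Odd N.card → ∑ i ∈ N, sg (ρ i) = 1) →
      (∀ m : ℝ, (N.card : ℝ) ≤ m → FamS O N σ e ρ m 2 n (16 - 12 * n) (4 - 3 * n)) →
      Inv (fam σ e O) → ∀ D, RD D → EvF2 χ D K (fun a => (UU (fam σ e O)).eval a)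
        (fun a => (YY (fam σ e O)).eval a) (fun a => ∑ i, Vi V N tc O i D a)
        (fun a => V D a ((chd 0 (fam σ e O)).sn a))
        (fun a => P D a ((chd 0 (fam σ e O)).sn a))) :
    ∃ σ e : Fin K → Bool, PO Y Adm V P (fam σ e O) := by
  obtain ⟨s, e, ρ, z, n, hn, h1, h2, h3⟩ := famS_exists hT.hO
  obtain ⟨σ, hσ, hσ0⟩ := ext_even hK s z (fun h => (h1 h).1) (fun h => (h2 h).1)
  have hτ : tau (fam σ e O) = 0 := by rw [fam_tau]; exact hσ0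
  have hInv := (h3 σ hσ _ le_rfl).1 (Or.inl hτ)
  refine ⟨σ, e, 0, ?_, hInv, hAd _ _ _ _, ?_⟩
  · rw [hτ]
    simp
  · have h4 := H σ e ρ n hn (fun h => (h1 h).2) (fun h => (h2 h).2)
      (fun m hm => (h3 σ hσ m hm).2) hInv
    have hG := hT.hG
    rw [hY] at hG ⊢
    refine GoodE.evF2 hχ hK0 O σ e _ _ hG hσ0 (fun a => (UU (fam σ e O)).eval a)
      (fun a => (YY (fam σ e O)).eval a) (fun a => (FamS.U_eq O σ e a).symm) (fun a => ?_) h4
    rw [fam_YY, eval_finsetSum]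
    exact sum_congr rfl fun i _ => by rw [eval_smul, smul_eq_mul]

/-- **the inequality of an even number of children from the lines of the children**, two
coefficients. The constants of the rule are `cq`, `μ`, `Q`, `l`, `r`; `C0` is the pending price of
the type `0`; `NV a` is the potential of the type `0` at the point `a` -/
theorem evF_lines2 {σ e ρ : Fin K → Bool} {tc : Fin K → ℕ} {m n vm fv fg D : ℝ}
    (hS : FamS O N σ e ρ m 2 n vm fv fg) (hχ : 0 ≤ χ D)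
    (NV : ℝ → NS) (hV : ∀ a, Reg D a → ∀ u y vU vY aU aY,
      V D a ⟨0, u, y, vU, vY, aU, aY⟩ = (NV a).ev ⟨0, u, y, vU, vY, aU, aY⟩)
    {C0 : ℝ} (hP : ∀ a, Reg D a → ∀ u y vU vY aU aY,
      C0 * (a ^ 2 * u ^ 2 + a * y ^ 2) ≤ P D a ⟨0, u, y, vU, vY, aU, aY⟩)
    (cq μ Q l r MU MY Cs : ℝ) (hE : ExpF K cq μ Q) (hr : r * D ≤ Q) (hl : 0 < l)
    (hMU : μ * (1 + l) ≤ MU) (hMY : μ * ((1 + l) + (1 + 1 / l) * D) ≤ MY)
    (hC1 : 2 * cq ≤ Cs)
    (hC2 : 2 * cq + χ D * (2 * cq - C0) ≤ Cs) (pay : Fin K → ℝ) (hpay : ∀ i ∈ N, 0 ≤ pay i)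
    (H : ∀ a, Reg D a → a < q0 → 0 < D → ∃ κ k, ∃ sh : Fin K → ℝ,
      Spl ((NV a).evA2 MU MY Cs a) a m 2 n vm fv κ k fg ∧
      (∀ i ∈ N, sh i + pay i * (1 - D / (q0 - a)) +
        k.ev (sg (σ i)) (sg (e i)) (sg (ρ i)) ((chd (tc i) (O i)).sn a) ≤
          V D a ((chd (tc i) (O i)).sn a)) ∧ κ ≤ ∑ i ∈ N, sh i)
    (H' : ∀ a, Reg D a → a < q0 → 0 < D → ∃ κ k, ∃ sh : Fin K → ℝ,
      Spl ((NV a).evB2 MU MY Cs r a) a m 2 n vm fv κ k fg ∧
      (∀ i ∈ N, sh i + pay i * (1 - D / (q0 - a)) +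
        k.ev (sg (σ i)) (sg (e i)) (sg (ρ i)) ((chd (tc i) (O i)).sn a) ≤
          V D a ((chd (tc i) (O i)).sn a)) ∧ κ ≤ ∑ i ∈ N, sh i) :
    EvF2 χ D K (fun a => (UU (fam σ e O)).eval a)
        (fun a => (YY (fam σ e O)).eval a) (fun a => ∑ i, Vi V N tc O i D a)
        (fun a => V D a ((chd 0 (fam σ e O)).sn a))
        (fun a => P D a ((chd 0 (fam σ e O)).sn a)) := by
  have hw : ∀ a, ∀ i ∉ N, Vi V N tc O i D a = 0 := fun a i hi => Vi_not V tc O hi D a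
  have hs : 0 ≤ ∑ i ∈ N, pay i := sum_nonneg hpay
  have eV : ∀ a, Reg D a → V D a ((chd 0 (fam σ e O)).sn a) =
      (NV a).ev ((chd 0 (fam σ e O)).sn a) := fun a ha => hV a ha _ _ _ _ _ _
  refine evF_of2 cq μ Q l r MU MY Cs hE hr hl hMU hMY hC1 (C0 := C0) hC2 hχ
    (fun a ha => hP a ha _ _ _ _ _ _) hs (fun a ha hq hD => ?_) (fun a ha hq hD => ?_)
  · obtain ⟨κ, k, sh, h1, h2, h3⟩ := H a ha hq hD
    have h4 := hS.line ha.2.2.1 hq.le h1 0 tc (fun i => Vi V N tc O i D a) (hw a) sh pay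
      (1 - D / (q0 - a)) (fun i hi => by rw [Vi_mem V tc O hi]; exact h2 i hi) h3 (by simp)
    rw [NS.evA2_ev] at h4
    rw [eV a ha]
    exact h4
  · obtain ⟨κ, k, sh, h1, h2, h3⟩ := H' a ha hq hD
    have h4 := hS.line ha.2.2.1 hq.le h1 0 tc (fun i => Vi V N tc O i D a) (hw a) sh pay
      (1 - D / (q0 - a)) (fun i hi => by rw [Vi_mem V tc O hi]; exact h2 i hi) h3 (by simp)
    rw [NS.evB2_ev] at h4
    rw [eV a ha]
    exact h4

end

end Pool.Agent.TSM
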