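import Pool.Agent.TSM.EvenDB

set_option autoImplicit false

/-!
# Constants of the even rule with a constant, K = 4 (MP_d27362_co, helper2)
-/

namespace Pool.Agent.TSM

noncomputable section


theorem ev_four_e00_a0 (u : ℝ) (h1 : -1 ≤ u) (h2 : u ≤ -1 / 2) :
    1 + u + u ^ 2 / 2 + u ^ 3 / 6 + u ^ 4 / 24 ≤
      (1 + 1 / 500 + (1 / 500) ^ 2 / 2) * (1 + u + 219 / 500 * u ^ 2) := by
  obtain ⟨s, hs⟩ : ∃ s, s = u - (-1) := ⟨_, rfl⟩
  obtain ⟨t, ht⟩ : ∃ t, t = -1 / 2 - u := ⟨_, rfl⟩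
  have hs0 : 0 ≤ s := by linarith
  have ht0 : 0 ≤ t := by linarith
  have h : 0 ≤
      15969219 / 15625000 * t ^ 4 + 113223721 / 46875000 * s * t ^ 3 +
      116852847 / 62500000 * s ^ 2 * t ^ 2 + 18159157 / 31250000 * s ^ 3 * t +
      11848157 / 187500000 * s ^ 4 := by
    positivity
  have e :
      15969219 / 15625000 * t ^ 4 + 113223721 / 46875000 * s * t ^ 3 +
      116852847 / 62500000 * s ^ 2 * t ^ 2 + 18159157 / 31250000 * s ^ 3 * t +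
      11848157 / 187500000 * s ^ 4 =
      (1 + 1 / 500 + (1 / 500) ^ 2 / 2) * (1 + u + 219 / 500 * u ^ 2) -
      (1 + u + u ^ 2 / 2 + u ^ 3 / 6 + u ^ 4 / 24) := by
    rw [hs, ht]
    ring
  rw [e] at h
  linarith

theorem ev_four_e00_a1 (u : ℝ) (h1 : -1 / 2 ≤ u) (h2 : u ≤ -3 / 8) :
    1 + u + u ^ 2 / 2 + u ^ 3 / 6 + u ^ 4 / 24 ≤
      (1 + 1 / 500 + (1 / 500) ^ 2 / 2) * (1 + u + 219 / 500 * u ^ 2) := by
  obtain ⟨s, hs⟩ : ∃ s, s = u - (-1 / 2) := ⟨_, rfl⟩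
  obtain ⟨t, ht⟩ : ∃ t, t = -3 / 8 - u := ⟨_, rfl⟩
  have hs0 : 0 ≤ s := by linarith
  have ht0 : 0 ≤ t := by linarith
  have h : 0 ≤
      94785256 / 5859375 * t ^ 4 + 256016396 / 5859375 * s * t ^ 3 +
      164485987 / 3906250 * s ^ 2 * t ^ 2 + 33547849 / 1953125 * s ^ 3 * t +
      39737509 / 15625000 * s ^ 4 := by
    positivity
  have e :
      94785256 / 5859375 * t ^ 4 + 256016396 / 5859375 * s * t ^ 3 +
      164485987 / 3906250 * s ^ 2 * t ^ 2 + 33547849 / 1953125 * s ^ 3 * t +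
      39737509 / 15625000 * s ^ 4 =
      (1 + 1 / 500 + (1 / 500) ^ 2 / 2) * (1 + u + 219 / 500 * u ^ 2) -
      (1 + u + u ^ 2 / 2 + u ^ 3 / 6 + u ^ 4 / 24) := by
    rw [hs, ht]
    ring
  rw [e] at h
  linarith

theorem ev_four_e00_a2 (u : ℝ) (h1 : -3 / 8 ≤ u) (h2 : u ≤ -1 / 4) :
    1 + u + u ^ 2 / 2 + u ^ 3 / 6 + u ^ 4 / 24 ≤
      (1 + 1 / 500 + (1 / 500) ^ 2 / 2) * (1 + u + 219 / 500 * u ^ 2) := by
  obtain ⟨s, hs⟩ : ∃ s, s = u - (-3 / 8) := ⟨_, rfl⟩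
  obtain ⟨t, ht⟩ : ∃ t, t = -1 / 4 - u := ⟨_, rfl⟩
  have hs0 : 0 ≤ s := by linarith
  have ht0 : 0 ≤ t := by linarith
  have h : 0 ≤
      39737509 / 15625000 * t ^ 4 + 1237932 / 390625 * s * t ^ 3 +
      336853 / 3906250 * s ^ 2 * t ^ 2 + 5414 / 1171875 * s ^ 3 * t + 981688 / 1953125 * s ^ 4 := by
    positivity
  have e :
      39737509 / 15625000 * t ^ 4 + 1237932 / 390625 * s * t ^ 3 +
      336853 / 3906250 * s ^ 2 * t ^ 2 + 5414 / 1171875 * s ^ 3 * t + 981688 / 1953125 * s ^ 4 =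
      (1 + 1 / 500 + (1 / 500) ^ 2 / 2) * (1 + u + 219 / 500 * u ^ 2) -
      (1 + u + u ^ 2 / 2 + u ^ 3 / 6 + u ^ 4 / 24) := by
    rw [hs, ht]
    ring
  rw [e] at h
  linarith

theorem ev_four_e00_a3 (u : ℝ) (h1 : -1 / 4 ≤ u) (h2 : u ≤ 0) :
    1 + u + u ^ 2 / 2 + u ^ 3 / 6 + u ^ 4 / 24 ≤
      (1 + 1 / 500 + (1 / 500) ^ 2 / 2) * (1 + u + 219 / 500 * u ^ 2) := by
  obtain ⟨s, hs⟩ : ∃ s, s = u - (-1 / 4) := ⟨_, rfl⟩
  obtain ⟨t, ht⟩ : ∃ t, t = 0 - u := ⟨_, rfl⟩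
  have hs0 : 0 ≤ s := by linarith
  have ht0 : 0 ≤ t := by linarith
  have h : 0 ≤
      122711 / 3906250 * t ^ 4 + 8821657 / 23437500 * s * t ^ 3 +
      26761219 / 15625000 * s ^ 2 * t ^ 2 + 6006 / 3125 * s ^ 3 * t + 8008 / 15625 * s ^ 4 := by
    positivity
  have e :
      122711 / 3906250 * t ^ 4 + 8821657 / 23437500 * s * t ^ 3 +
      26761219 / 15625000 * s ^ 2 * t ^ 2 + 6006 / 3125 * s ^ 3 * t + 8008 / 15625 * s ^ 4 =
      (1 + 1 / 500 + (1 / 500) ^ 2 / 2) * (1 + u + 219 / 500 * u ^ 2) -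
      (1 + u + u ^ 2 / 2 + u ^ 3 / 6 + u ^ 4 / 24) := by
    rw [hs, ht]
    ring
  rw [e] at h
  linarith

theorem ev_four_e00_b0 (u : ℝ) (h1 : -2 ≤ u) (h2 : u ≤ -1) :
    36788 / 100000 *
      (1 + (u + 1) + (u + 1) ^ 2 / 2 + (u + 1) ^ 3 / 6 + (u + 1) ^ 4 / 24) ≤
      (1 + 1 / 500 + (1 / 500) ^ 2 / 2) * (1 + u + 219 / 500 * u ^ 2) := by
  obtain ⟨s, hs⟩ : ∃ s, s = u - (-2) := ⟨_, rfl⟩
  obtain ⟨t, ht⟩ : ∃ t, t = -1 - u := ⟨_, rfl⟩
  have hs0 : 0 ≤ s := by linarith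
  have ht0 : 0 ≤ t := by linarith
  have h : 0 ≤
      76943813 / 125000000 * t ^ 4 + 9293378 / 5859375 * s * t ^ 3 +
      352953347 / 250000000 * s ^ 2 * t ^ 2 + 65952407 / 125000000 * s ^ 3 * t +
      17749219 / 250000000 * s ^ 4 := by
    positivity
  have e :
      76943813 / 125000000 * t ^ 4 + 9293378 / 5859375 * s * t ^ 3 +
      352953347 / 250000000 * s ^ 2 * t ^ 2 + 65952407 / 125000000 * s ^ 3 * t +
      17749219 / 250000000 * s ^ 4 =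
      (1 + 1 / 500 + (1 / 500) ^ 2 / 2) * (1 + u + 219 / 500 * u ^ 2) -
      (36788 / 100000 *
      (1 + (u + 1) + (u + 1) ^ 2 / 2 + (u + 1) ^ 3 / 6 + (u + 1) ^ 4 / 24)) := by
    rw [hs, ht]
    ring
  rw [e] at h
  linarith

theorem ev_four_e00_c0 (u : ℝ) (h1 : -3 ≤ u) (h2 : u ≤ -2) :
    13534 / 100000 *
      (1 + (u + 2) + (u + 2) ^ 2 / 2 + (u + 2) ^ 3 / 6 + (u + 2) ^ 4 / 24) ≤
      (1 + 1 / 500 + (1 / 500) ^ 2 / 2) * (1 + u + 219 / 500 * u ^ 2) := by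
  obtain ⟨s, hs⟩ : ∃ s, s = u - (-3) := ⟨_, rfl⟩
  obtain ⟨t, ht⟩ : ∃ t, t = -2 - u := ⟨_, rfl⟩
  have hs0 : 0 ≤ s := by linarith
  have ht0 : 0 ≤ t := by linarith
  have h : 0 ≤
      236891923 / 125000000 * t ^ 4 + 442812671 / 75000000 * s * t ^ 3 +
      1686684103 / 250000000 * s ^ 2 * t ^ 2 + 10504711 / 3125000 * s ^ 3 * t +
      2414709 / 3906250 * s ^ 4 := by
    positivity
  have e :
      236891923 / 125000000 * t ^ 4 + 442812671 / 75000000 * s * t ^ 3 +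
      1686684103 / 250000000 * s ^ 2 * t ^ 2 + 10504711 / 3125000 * s ^ 3 * t +
      2414709 / 3906250 * s ^ 4 =
      (1 + 1 / 500 + (1 / 500) ^ 2 / 2) * (1 + u + 219 / 500 * u ^ 2) -
      (13534 / 100000 *
      (1 + (u + 2) + (u + 2) ^ 2 / 2 + (u + 2) ^ 3 / 6 + (u + 2) ^ 4 / 24)) := by
    rw [hs, ht]
    ring
  rw [e] at h
  linarith

theorem ev_four_e00_d (u : ℝ) (h2 : u ≤ -3) :
    4979 / 100000 ≤
      (1 + 1 / 500 + (1 / 500) ^ 2 / 2) * (1 + u + 219 / 500 * u ^ 2) := by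
  obtain ⟨s, hs⟩ : ∃ s, s = -3 - u := ⟨_, rfl⟩
  have hs0 : 0 ≤ s := by linarith
  have h : 0 ≤
      474024471 / 250000000 + 203907407 / 125000000 * s + 109719219 / 250000000 * s ^ 2 := by
    positivity
  have e :
      474024471 / 250000000 + 203907407 / 125000000 * s + 109719219 / 250000000 * s ^ 2 =
      (1 + 1 / 500 + (1 / 500) ^ 2 / 2) * (1 + u + 219 / 500 * u ^ 2) -
      (4979 / 100000) := by
    rw [hs]
    ring
  rw [e] at h
  linarith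

theorem ev_four_e00_g0 (u : ℝ) (h1 : 0 ≤ u) (h2 : u ≤ 3) :
    1 * (1 + (u - 0) / 4) ^ 4 ≤
      (1 + 1 / 500 + (1 / 500) ^ 2 / 2) * ((1 + (1 / 50 * u ^ 2) + (1 / 50 * u ^ 2) ^ 2 / 2 +
      (1 / 50 * u ^ 2) ^ 3 / 6) *
      (1 + u + 219 / 500 * u ^ 2)) := by
  obtain ⟨s, hs⟩ : ∃ s, s = u - (0) := ⟨_, rfl⟩
  obtain ⟨t, ht⟩ : ∃ t, t = 3 - u := ⟨_, rfl⟩
  have hs0 : 0 ≤ s := by linarith
  have ht0 : 0 ≤ t := by linarith
  have h : 0 ≤
      1001 / 3280500000 * t ^ 8 + 11011 / 3280500000 * s * t ^ 7 +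
      213337561 / 1640250000000 * s ^ 2 * t ^ 6 + 56614571 / 102515625000 * s ^ 3 * t ^ 5 +
      79473072269 / 82012500000000 * s ^ 4 * t ^ 4 +
      70688773291 / 82012500000000 * s ^ 5 * t ^ 3 +
      3403338593981 / 8201250000000000 * s ^ 6 * t ^ 2 +
      15227380243 / 128144531250000 * s ^ 7 * t + 9254291870503 / 410062500000000000 * s ^ 8 := by
    positivity
  have e :
      1001 / 3280500000 * t ^ 8 + 11011 / 3280500000 * s * t ^ 7 +
      213337561 / 1640250000000 * s ^ 2 * t ^ 6 + 56614571 / 102515625000 * s ^ 3 * t ^ 5 +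
      79473072269 / 82012500000000 * s ^ 4 * t ^ 4 +
      70688773291 / 82012500000000 * s ^ 5 * t ^ 3 +
      3403338593981 / 8201250000000000 * s ^ 6 * t ^ 2 +
      15227380243 / 128144531250000 * s ^ 7 * t + 9254291870503 / 410062500000000000 * s ^ 8 =
      (1 + 1 / 500 + (1 / 500) ^ 2 / 2) * ((1 + (1 / 50 * u ^ 2) + (1 / 50 * u ^ 2) ^ 2 / 2 +
      (1 / 50 * u ^ 2) ^ 3 / 6) *
      (1 + u + 219 / 500 * u ^ 2)) -
      (1 * (1 + (u - 0) / 4) ^ 4) := by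
    rw [hs, ht]
    ring
  rw [e] at h
  linarith

theorem ev_four_e00_t (u : ℝ) (h1 : 3 ≤ u) :
    1 * (1 + (u - 0) / 4) ^ 4 ≤
      (1 + 1 / 500 + (1 / 500) ^ 2 / 2) * ((1 + (1 / 50 * u ^ 2) + (1 / 50 * u ^ 2) ^ 2 / 2 +
      (1 / 50 * u ^ 2) ^ 3 / 6) *
      (1 + u + 219 / 500 * u ^ 2)) := by
  obtain ⟨s, hs⟩ : ∃ s, s = u - (3) := ⟨_, rfl⟩
  have hs0 : 0 ≤ s := by linarith
  have h : 0 ≤
      9254291870503 / 62500000000000 + 1054446591101 / 7812500000000 * s +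
      4899654701663 / 31250000000000 * s ^ 2 + 1504797260721 / 15625000000000 * s ^ 3 +
      19287626277 / 781250000000 * s ^ 4 + 1436369867 / 488281250000 * s ^ 5 +
      24809068519 / 93750000000000 * s ^ 6 + 720940439 / 46875000000000 * s ^ 7 +
      36573073 / 62500000000000 * s ^ 8 := by
    positivity
  have e :
      9254291870503 / 62500000000000 + 1054446591101 / 7812500000000 * s +
      4899654701663 / 31250000000000 * s ^ 2 + 1504797260721 / 15625000000000 * s ^ 3 +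
      19287626277 / 781250000000 * s ^ 4 + 1436369867 / 488281250000 * s ^ 5 +
      24809068519 / 93750000000000 * s ^ 6 + 720940439 / 46875000000000 * s ^ 7 +
      36573073 / 62500000000000 * s ^ 8 =
      (1 + 1 / 500 + (1 / 500) ^ 2 / 2) * ((1 + (1 / 50 * u ^ 2) + (1 / 50 * u ^ 2) ^ 2 / 2 +
      (1 / 50 * u ^ 2) ^ 3 / 6) *
      (1 + u + 219 / 500 * u ^ 2)) -
      (1 * (1 + (u - 0) / 4) ^ 4) := by
    rw [hs]
    ring
  rw [e] at h
  linarith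

/-- `K = 4`: `(c, μ, P, δ) = (219 / 500, 1 / 50, 0, 1 / 500)` -/
theorem expFd_four_e00 : ExpFd 4 (219 / 500) (1 / 50) (0) (1 / 500) := by
  have hde : (1 + 1 / 500 + (1 / 500) ^ 2 / 2) ≤ Real.exp (1 / 500) :=
    Real.quadratic_le_exp_of_nonneg (by norm_num)
  have hq : ∀ u : ℝ, 0 ≤ 1 + u + 219 / 500 * u ^ 2 := fun u => by
    nlinarith [sq_nonneg (u + 2), sq_nonneg u]
  have hR : ∀ (u x y : ℝ), x ≤ y →
      y ≤ (1 + 1 / 500 + (1 / 500) ^ 2 / 2) * (1 + u + 219 / 500 * u ^ 2) →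
      x ≤ Real.exp (1 / 500) * (1 + u + 219 / 500 * u ^ 2) := fun u x y h1 h2 =>
    (h1.trans h2).trans (mul_le_mul_of_nonneg_right hde (hq u))
  refine ExpFd.of (by norm_num) (by norm_num) (by norm_num) (by norm_num) (by norm_num) ?_ ?_ ?_
  · intro u h1
    rcases le_total u (-3) with h3 | h3
    · exact hR u _ _ (ev_exp_n3 h3) (ev_four_e00_d u h3)
    rcases le_total u (-2) with h4 | h4
    · refine hR u _ _ (ev_exp_n2 h4) ?_
      exact ev_four_e00_c0 u (by linarith) (by linarith)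
    rcases le_total u (-1) with h5 | h5
    · refine hR u _ _ (ev_exp_n1 h5) ?_
      exact ev_four_e00_b0 u (by linarith) (by linarith)
    refine hR u _ _ (ev_exp_n0 h1) ?_
    rcases le_total u (-1 / 2) with hh | hh
    · exact ev_four_e00_a0 u (by linarith) (by linarith)
    rcases le_total u (-3 / 8) with hh | hh
    · exact ev_four_e00_a1 u (by linarith) (by linarith)
    rcases le_total u (-1 / 4) with hh | hh
    · exact ev_four_e00_a2 u (by linarith) (by linarith)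
    exact ev_four_e00_a3 u (by linarith) (by linarith)
  · intro u h1 h2
    have h7 : u = 0 := le_antisymm h2 h1
    rw [h7, Real.exp_zero]
    have := Real.add_one_le_exp ((1 / 500 : ℝ) + 1 / 50 * 0 ^ 2)
    linarith
  · intro u h1
    have h4 : 0 ≤ (1 + (u - 0) / 4) ^ 4 := by
      have : 0 ≤ (u - 0) / 4 := div_nonneg (by linarith) (by norm_num)
      positivity
    have hE : Real.exp (0) ≤ 1 := Real.exp_zero.le
    have hx : 0 ≤ 1 / 50 * u ^ 2 := by positivity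
    have h5 := mul_le_mul_of_nonneg_right (taylor3_le_expE _ hx) (hq u)
    have h6 : 0 ≤ Real.exp (1 / 50 * u ^ 2) * (1 + u + 219 / 500 * u ^ 2) :=
      mul_nonneg (Real.exp_nonneg _) (hq u)
    rw [Real.exp_add, mul_assoc]
    push_cast
    refine ((mul_le_mul_of_nonneg_right hE h4).trans ?_).trans
      ((mul_le_mul_of_nonneg_left h5
        (by norm_num : (0 : ℝ) ≤ (1 + 1 / 500 + (1 / 500) ^ 2 / 2))).trans
        (mul_le_mul_of_nonneg_right hde h6))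
    rcases le_total u (3) with hh | hh
    · exact ev_four_e00_g0 u (by linarith) (by linarith)
    exact ev_four_e00_t u (by linarith)

theorem ev_four_e01_a0 (u : ℝ) (h1 : -1 ≤ u) (h2 : u ≤ -1 / 2) :
    1 + u + u ^ 2 / 2 + u ^ 3 / 6 + u ^ 4 / 24 ≤
      (1 + 1 / 200 + (1 / 200) ^ 2 / 2) * (1 + u + 211 / 500 * u ^ 2) := by
  obtain ⟨s, hs⟩ : ∃ s, s = u - (-1) := ⟨_, rfl⟩
  obtain ⟨t, ht⟩ : ∃ t, t = -1 / 2 - u := ⟨_, rfl⟩
  have hs0 : 0 ≤ s := by linarith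
  have ht0 : 0 ≤ t := by linarith
  have h : 0 ≤
      1964611 / 2500000 * t ^ 4 + 12982249 / 7500000 * s * t ^ 3 +
      11742943 / 10000000 * s ^ 2 * t ^ 2 + 1495333 / 5000000 * s ^ 3 * t +
      846833 / 30000000 * s ^ 4 := by
    positivity
  have e :
      1964611 / 2500000 * t ^ 4 + 12982249 / 7500000 * s * t ^ 3 +
      11742943 / 10000000 * s ^ 2 * t ^ 2 + 1495333 / 5000000 * s ^ 3 * t +
      846833 / 30000000 * s ^ 4 =
      (1 + 1 / 200 + (1 / 200) ^ 2 / 2) * (1 + u + 211 / 500 * u ^ 2) -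
      (1 + u + u ^ 2 / 2 + u ^ 3 / 6 + u ^ 4 / 24) := by
    rw [hs, ht]
    ring
  rw [e] at h
  linarith

theorem ev_four_e01_a1 (u : ℝ) (h1 : -1 / 2 ≤ u) (h2 : u ≤ -1 / 4) :
    1 + u + u ^ 2 / 2 + u ^ 3 / 6 + u ^ 4 / 24 ≤
      (1 + 1 / 200 + (1 / 200) ^ 2 / 2) * (1 + u + 211 / 500 * u ^ 2) := by
  obtain ⟨s, hs⟩ : ∃ s, s = u - (-1 / 2) := ⟨_, rfl⟩
  obtain ⟨t, ht⟩ : ∃ t, t = -1 / 4 - u := ⟨_, rfl⟩
  have hs0 : 0 ≤ s := by linarith
  have ht0 : 0 ≤ t := by linarith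
  have h : 0 ≤
      846833 / 1875000 * t ^ 4 + 198333 / 625000 * s * t ^ 3 +
      69943 / 2500000 * s ^ 2 * t ^ 2 + 2164499 / 3750000 * s ^ 3 * t +
      933111 / 2500000 * s ^ 4 := by
    positivity
  have e :
      846833 / 1875000 * t ^ 4 + 198333 / 625000 * s * t ^ 3 +
      69943 / 2500000 * s ^ 2 * t ^ 2 + 2164499 / 3750000 * s ^ 3 * t +
      933111 / 2500000 * s ^ 4 =
      (1 + 1 / 200 + (1 / 200) ^ 2 / 2) * (1 + u + 211 / 500 * u ^ 2) -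
      (1 + u + u ^ 2 / 2 + u ^ 3 / 6 + u ^ 4 / 24) := by
    rw [hs, ht]
    ring
  rw [e] at h
  linarith

theorem ev_four_e01_a2 (u : ℝ) (h1 : -1 / 4 ≤ u) (h2 : u ≤ 0) :
    1 + u + u ^ 2 / 2 + u ^ 3 / 6 + u ^ 4 / 24 ≤
      (1 + 1 / 200 + (1 / 200) ^ 2 / 2) * (1 + u + 211 / 500 * u ^ 2) := by
  obtain ⟨s, hs⟩ : ∃ s, s = u - (-1 / 4) := ⟨_, rfl⟩
  obtain ⟨t, ht⟩ : ∃ t, t = 0 - u := ⟨_, rfl⟩
  have hs0 : 0 ≤ s := by linarith
  have ht0 : 0 ≤ t := by linarith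
  have h : 0 ≤
      933111 / 2500000 * t ^ 4 + 9032833 / 3750000 * s * t ^ 3 +
      13806611 / 2500000 * s ^ 2 * t ^ 2 + 1203 / 250 * s ^ 3 * t + 802 / 625 * s ^ 4 := by
    positivity
  have e :
      933111 / 2500000 * t ^ 4 + 9032833 / 3750000 * s * t ^ 3 +
      13806611 / 2500000 * s ^ 2 * t ^ 2 + 1203 / 250 * s ^ 3 * t + 802 / 625 * s ^ 4 =
      (1 + 1 / 200 + (1 / 200) ^ 2 / 2) * (1 + u + 211 / 500 * u ^ 2) -
      (1 + u + u ^ 2 / 2 + u ^ 3 / 6 + u ^ 4 / 24) := by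
    rw [hs, ht]
    ring
  rw [e] at h
  linarith

theorem ev_four_e01_b0 (u : ℝ) (h1 : -2 ≤ u) (h2 : u ≤ -1) :
    36788 / 100000 *
      (1 + (u + 1) + (u + 1) ^ 2 / 2 + (u + 1) ^ 3 / 6 + (u + 1) ^ 4 / 24) ≤
      (1 + 1 / 200 + (1 / 200) ^ 2 / 2) * (1 + u + 211 / 500 * u ^ 2) := by
  obtain ⟨s, hs⟩ : ∃ s, s = u - (-2) := ⟨_, rfl⟩
  obtain ⟨t, ht⟩ : ∃ t, t = -1 - u := ⟨_, rfl⟩
  have hs0 : 0 ≤ s := by linarith
  have ht0 : 0 ≤ t := by linarith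
  have h : 0 ≤
      691867 / 1250000 * t ^ 4 + 20998487 / 15000000 * s * t ^ 3 +
      48435243 / 40000000 * s ^ 2 * t ^ 2 + 8720783 / 20000000 * s ^ 3 * t +
      2249411 / 40000000 * s ^ 4 := by
    positivity
  have e :
      691867 / 1250000 * t ^ 4 + 20998487 / 15000000 * s * t ^ 3 +
      48435243 / 40000000 * s ^ 2 * t ^ 2 + 8720783 / 20000000 * s ^ 3 * t +
      2249411 / 40000000 * s ^ 4 =
      (1 + 1 / 200 + (1 / 200) ^ 2 / 2) * (1 + u + 211 / 500 * u ^ 2) -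
      (36788 / 100000 *
      (1 + (u + 1) + (u + 1) ^ 2 / 2 + (u + 1) ^ 3 / 6 + (u + 1) ^ 4 / 24)) := by
    rw [hs, ht]
    ring
  rw [e] at h
  linarith

theorem ev_four_e01_c0 (u : ℝ) (h1 : -3 ≤ u) (h2 : u ≤ -2) :
    13534 / 100000 *
      (1 + (u + 2) + (u + 2) ^ 2 / 2 + (u + 2) ^ 3 / 6 + (u + 2) ^ 4 / 24) ≤
      (1 + 1 / 200 + (1 / 200) ^ 2 / 2) * (1 + u + 211 / 500 * u ^ 2) := by
  obtain ⟨s, hs⟩ : ∃ s, s = u - (-3) := ⟨_, rfl⟩
  obtain ⟨t, ht⟩ : ∃ t, t = -2 - u := ⟨_, rfl⟩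
  have hs0 : 0 ≤ s := by linarith
  have ht0 : 0 ≤ t := by linarith
  have h : 0 ≤
      70250399 / 40000000 * t ^ 4 + 65282969 / 12000000 * s * t ^ 3 +
      246938507 / 40000000 * s ^ 2 * t ^ 2 + 3051223 / 1000000 * s ^ 3 * t +
      2780543 / 5000000 * s ^ 4 := by
    positivity
  have e :
      70250399 / 40000000 * t ^ 4 + 65282969 / 12000000 * s * t ^ 3 +
      246938507 / 40000000 * s ^ 2 * t ^ 2 + 3051223 / 1000000 * s ^ 3 * t +
      2780543 / 5000000 * s ^ 4 =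
      (1 + 1 / 200 + (1 / 200) ^ 2 / 2) * (1 + u + 211 / 500 * u ^ 2) -
      (13534 / 100000 *
      (1 + (u + 2) + (u + 2) ^ 2 / 2 + (u + 2) ^ 3 / 6 + (u + 2) ^ 4 / 24)) := by
    rw [hs, ht]
    ring
  rw [e] at h
  linarith

theorem ev_four_e01_d (u : ℝ) (h2 : u ≤ -3) :
    4979 / 100000 ≤
      (1 + 1 / 200 + (1 / 200) ^ 2 / 2) * (1 + u + 211 / 500 * u ^ 2) := by
  obtain ⟨s, hs⟩ : ∃ s, s = -3 - u := ⟨_, rfl⟩
  have hs0 : 0 ≤ s := by linarith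
  have h : 0 ≤
      70288899 / 40000000 + 30793583 / 20000000 * s + 16964611 / 40000000 * s ^ 2 := by
    positivity
  have e :
      70288899 / 40000000 + 30793583 / 20000000 * s + 16964611 / 40000000 * s ^ 2 =
      (1 + 1 / 200 + (1 / 200) ^ 2 / 2) * (1 + u + 211 / 500 * u ^ 2) -
      (4979 / 100000) := by
    rw [hs]
    ring
  rw [e] at h
  linarith

theorem ev_four_e01_g0 (u : ℝ) (h1 : 0 ≤ u) (h2 : u ≤ 3 / 2) :
    1 * (1 + (u - 0) / 4) ^ 4 ≤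
      (1 + 1 / 200 + (1 / 200) ^ 2 / 2) * ((1 + (1 / 50 * u ^ 2) + (1 / 50 * u ^ 2) ^ 2 / 2 +
      (1 / 50 * u ^ 2) ^ 3 / 6) *
      (1 + u + 211 / 500 * u ^ 2)) := by
  obtain ⟨s, hs⟩ : ∃ s, s = u - (0) := ⟨_, rfl⟩
  obtain ⟨t, ht⟩ : ∃ t, t = 3 / 2 - u := ⟨_, rfl⟩
  have hs0 : 0 ≤ s := by linarith
  have ht0 : 0 ≤ t := by linarith
  have h : 0 ≤
      802 / 4100625 * t ^ 8 + 7619 / 4100625 * s * t ^ 7 +
      55794589 / 4100625000 * s ^ 2 * t ^ 6 + 196784669 / 4100625000 * s ^ 3 * t ^ 5 +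
      18069946349 / 205031250000 * s ^ 4 * t ^ 4 +
      148852806383 / 1640250000000 * s ^ 5 * t ^ 3 +
      17330429855249 / 328050000000000 * s ^ 6 * t ^ 2 +
      5311300695943 / 328050000000000 * s ^ 7 * t +
      132853973383057 / 65610000000000000 * s ^ 8 := by
    positivity
  have e :
      802 / 4100625 * t ^ 8 + 7619 / 4100625 * s * t ^ 7 +
      55794589 / 4100625000 * s ^ 2 * t ^ 6 + 196784669 / 4100625000 * s ^ 3 * t ^ 5 +
      18069946349 / 205031250000 * s ^ 4 * t ^ 4 +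
      148852806383 / 1640250000000 * s ^ 5 * t ^ 3 +
      17330429855249 / 328050000000000 * s ^ 6 * t ^ 2 +
      5311300695943 / 328050000000000 * s ^ 7 * t +
      132853973383057 / 65610000000000000 * s ^ 8 =
      (1 + 1 / 200 + (1 / 200) ^ 2 / 2) * ((1 + (1 / 50 * u ^ 2) + (1 / 50 * u ^ 2) ^ 2 / 2 +
      (1 / 50 * u ^ 2) ^ 3 / 6) *
      (1 + u + 211 / 500 * u ^ 2)) -
      (1 * (1 + (u - 0) / 4) ^ 4) := by
    rw [hs, ht]
    ring
  rw [e] at h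
  linarith

theorem ev_four_e01_g1 (u : ℝ) (h1 : 3 / 2 ≤ u) (h2 : u ≤ 3) :
    1 * (1 + (u - 0) / 4) ^ 4 ≤
      (1 + 1 / 200 + (1 / 200) ^ 2 / 2) * ((1 + (1 / 50 * u ^ 2) + (1 / 50 * u ^ 2) ^ 2 / 2 +
      (1 / 50 * u ^ 2) ^ 3 / 6) *
      (1 + u + 211 / 500 * u ^ 2)) := by
  obtain ⟨s, hs⟩ : ∃ s, s = u - (3 / 2) := ⟨_, rfl⟩
  obtain ⟨t, ht⟩ : ∃ t, t = 3 - u := ⟨_, rfl⟩
  have hs0 : 0 ≤ s := by linarith
  have ht0 : 0 ≤ t := by linarith
  have h : 0 ≤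
      132853973383057 / 65610000000000000 * t ^ 8 +
      132925429367539 / 8201250000000000 * s * t ^ 7 +
      434261130163973 / 8201250000000000 * s ^ 2 * t ^ 6 +
      11577437072353 / 128144531250000 * s ^ 3 * t ^ 5 +
      8703171496381 / 102515625000000 * s ^ 4 * t ^ 4 +
      21315745792423 / 512578125000000 * s ^ 5 * t ^ 3 +
      4263535581023 / 512578125000000 * s ^ 6 * t ^ 2 +
      11715103007 / 64072265625000 * s ^ 7 * t + 34354366207 / 256289062500000 * s ^ 8 := by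
    positivity
  have e :
      132853973383057 / 65610000000000000 * t ^ 8 +
      132925429367539 / 8201250000000000 * s * t ^ 7 +
      434261130163973 / 8201250000000000 * s ^ 2 * t ^ 6 +
      11577437072353 / 128144531250000 * s ^ 3 * t ^ 5 +
      8703171496381 / 102515625000000 * s ^ 4 * t ^ 4 +
      21315745792423 / 512578125000000 * s ^ 5 * t ^ 3 +
      4263535581023 / 512578125000000 * s ^ 6 * t ^ 2 +
      11715103007 / 64072265625000 * s ^ 7 * t + 34354366207 / 256289062500000 * s ^ 8 =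
      (1 + 1 / 200 + (1 / 200) ^ 2 / 2) * ((1 + (1 / 50 * u ^ 2) + (1 / 50 * u ^ 2) ^ 2 / 2 +
      (1 / 50 * u ^ 2) ^ 3 / 6) *
      (1 + u + 211 / 500 * u ^ 2)) -
      (1 * (1 + (u - 0) / 4) ^ 4) := by
    rw [hs, ht]
    ring
  rw [e] at h
  linarith

theorem ev_four_e01_t (u : ℝ) (h1 : 3 ≤ u) :
    1 * (1 + (u - 0) / 4) ^ 4 ≤
      (1 + 1 / 200 + (1 / 200) ^ 2 / 2) * ((1 + (1 / 50 * u ^ 2) + (1 / 50 * u ^ 2) ^ 2 / 2 +
      (1 / 50 * u ^ 2) ^ 3 / 6) *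
      (1 + u + 211 / 500 * u ^ 2)) := by
  obtain ⟨s, hs⟩ : ∃ s, s = u - (3) := ⟨_, rfl⟩
  have hs0 : 0 ≤ s := by linarith
  have h : 0 ≤
      34354366207 / 10000000000000 + 18997876469 / 1250000000000 * s +
      614592702247 / 5000000000000 * s ^ 2 + 227593311249 / 2500000000000 * s ^ 3 +
      5974184351 / 250000000000 * s ^ 4 + 893817917 / 312500000000 * s ^ 5 +
      3852092311 / 15000000000000 * s ^ 6 + 111837791 / 7500000000000 * s ^ 7 +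
      16964611 / 30000000000000 * s ^ 8 := by
    positivity
  have e :
      34354366207 / 10000000000000 + 18997876469 / 1250000000000 * s +
      614592702247 / 5000000000000 * s ^ 2 + 227593311249 / 2500000000000 * s ^ 3 +
      5974184351 / 250000000000 * s ^ 4 + 893817917 / 312500000000 * s ^ 5 +
      3852092311 / 15000000000000 * s ^ 6 + 111837791 / 7500000000000 * s ^ 7 +
      16964611 / 30000000000000 * s ^ 8 =
      (1 + 1 / 200 + (1 / 200) ^ 2 / 2) * ((1 + (1 / 50 * u ^ 2) + (1 / 50 * u ^ 2) ^ 2 / 2 +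
      (1 / 50 * u ^ 2) ^ 3 / 6) *
      (1 + u + 211 / 500 * u ^ 2)) -
      (1 * (1 + (u - 0) / 4) ^ 4) := by
    rw [hs]
    ring
  rw [e] at h
  linarith

/-- `K = 4`: `(c, μ, P, δ) = (211 / 500, 1 / 50, 0, 1 / 200)` -/
theorem expFd_four_e01 : ExpFd 4 (211 / 500) (1 / 50) (0) (1 / 200) := by
  have hde : (1 + 1 / 200 + (1 / 200) ^ 2 / 2) ≤ Real.exp (1 / 200) :=
    Real.quadratic_le_exp_of_nonneg (by norm_num)
  have hq : ∀ u : ℝ, 0 ≤ 1 + u + 211 / 500 * u ^ 2 := fun u => by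
    nlinarith [sq_nonneg (u + 2), sq_nonneg u]
  have hR : ∀ (u x y : ℝ), x ≤ y →
      y ≤ (1 + 1 / 200 + (1 / 200) ^ 2 / 2) * (1 + u + 211 / 500 * u ^ 2) →
      x ≤ Real.exp (1 / 200) * (1 + u + 211 / 500 * u ^ 2) := fun u x y h1 h2 =>
    (h1.trans h2).trans (mul_le_mul_of_nonneg_right hde (hq u))
  refine ExpFd.of (by norm_num) (by norm_num) (by norm_num) (by norm_num) (by norm_num) ?_ ?_ ?_
  · intro u h1
    rcases le_total u (-3) with h3 | h3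
    · exact hR u _ _ (ev_exp_n3 h3) (ev_four_e01_d u h3)
    rcases le_total u (-2) with h4 | h4
    · refine hR u _ _ (ev_exp_n2 h4) ?_
      exact ev_four_e01_c0 u (by linarith) (by linarith)
    rcases le_total u (-1) with h5 | h5
    · refine hR u _ _ (ev_exp_n1 h5) ?_
      exact ev_four_e01_b0 u (by linarith) (by linarith)
    refine hR u _ _ (ev_exp_n0 h1) ?_
    rcases le_total u (-1 / 2) with hh | hh
    · exact ev_four_e01_a0 u (by linarith) (by linarith)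
    rcases le_total u (-1 / 4) with hh | hh
    · exact ev_four_e01_a1 u (by linarith) (by linarith)
    exact ev_four_e01_a2 u (by linarith) (by linarith)
  · intro u h1 h2
    have h7 : u = 0 := le_antisymm h2 h1
    rw [h7, Real.exp_zero]
    have := Real.add_one_le_exp ((1 / 200 : ℝ) + 1 / 50 * 0 ^ 2)
    linarith
  · intro u h1
    have h4 : 0 ≤ (1 + (u - 0) / 4) ^ 4 := by
      have : 0 ≤ (u - 0) / 4 := div_nonneg (by linarith) (by norm_num)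
      positivity
    have hE : Real.exp (0) ≤ 1 := Real.exp_zero.le
    have hx : 0 ≤ 1 / 50 * u ^ 2 := by positivity
    have h5 := mul_le_mul_of_nonneg_right (taylor3_le_expE _ hx) (hq u)
    have h6 : 0 ≤ Real.exp (1 / 50 * u ^ 2) * (1 + u + 211 / 500 * u ^ 2) :=
      mul_nonneg (Real.exp_nonneg _) (hq u)
    rw [Real.exp_add, mul_assoc]
    push_cast
    refine ((mul_le_mul_of_nonneg_right hE h4).trans ?_).trans
      ((mul_le_mul_of_nonneg_left h5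
        (by norm_num : (0 : ℝ) ≤ (1 + 1 / 200 + (1 / 200) ^ 2 / 2))).trans
        (mul_le_mul_of_nonneg_right hde h6))
    rcases le_total u (3 / 2) with hh | hh
    · exact ev_four_e01_g0 u (by linarith) (by linarith)
    rcases le_total u (3) with hh | hh
    · exact ev_four_e01_g1 u (by linarith) (by linarith)
    exact ev_four_e01_t u (by linarith)

theorem ev_four_e02_a0 (u : ℝ) (h1 : -1 ≤ u) (h2 : u ≤ -1 / 2) :
    1 + u + u ^ 2 / 2 + u ^ 3 / 6 + u ^ 4 / 24 ≤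
      (1 + 1 / 100 + (1 / 100) ^ 2 / 2) * (1 + u + 403 / 1000 * u ^ 2) := by
  obtain ⟨s, hs⟩ : ∃ s, s = u - (-1) := ⟨_, rfl⟩
  obtain ⟨t, ht⟩ : ∃ t, t = -1 / 2 - u := ⟨_, rfl⟩
  have hs0 : 0 ≤ s := by linarith
  have ht0 : 0 ≤ t := by linarith
  have h : 0 ≤
      641003 / 1250000 * t ^ 4 + 3570527 / 3750000 * s * t ^ 3 +
      2039039 / 5000000 * s ^ 2 * t ^ 2 + 26009 / 2500000 * s ^ 3 * t +
      4009 / 15000000 * s ^ 4 := by
    positivity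
  have e :
      641003 / 1250000 * t ^ 4 + 3570527 / 3750000 * s * t ^ 3 +
      2039039 / 5000000 * s ^ 2 * t ^ 2 + 26009 / 2500000 * s ^ 3 * t +
      4009 / 15000000 * s ^ 4 =
      (1 + 1 / 100 + (1 / 100) ^ 2 / 2) * (1 + u + 403 / 1000 * u ^ 2) -
      (1 + u + u ^ 2 / 2 + u ^ 3 / 6 + u ^ 4 / 24) := by
    rw [hs, ht]
    ring
  rw [e] at h
  linarith

theorem ev_four_e02_a1 (u : ℝ) (h1 : -1 / 2 ≤ u) (h2 : u ≤ -15 / 32) :
    1 + u + u ^ 2 / 2 + u ^ 3 / 6 + u ^ 4 / 24 ≤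
      (1 + 1 / 100 + (1 / 100) ^ 2 / 2) * (1 + u + 403 / 1000 * u ^ 2) := by
  obtain ⟨s, hs⟩ : ∃ s, s = u - (-1 / 2) := ⟨_, rfl⟩
  obtain ⟨t, ht⟩ : ∃ t, t = -15 / 32 - u := ⟨_, rfl⟩
  have hs0 : 0 ≤ s := by linarith
  have ht0 : 0 ≤ t := by linarith
  have h : 0 ≤
      4105216 / 234375 * t ^ 4 + 7459712 / 234375 * s * t ^ 3 +
      6813292 / 78125 * s ^ 2 * t ^ 2 + 2286432 / 15625 * s ^ 3 * t + 1834809 / 25000 * s ^ 4 := by
    positivity
  have e :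
      4105216 / 234375 * t ^ 4 + 7459712 / 234375 * s * t ^ 3 +
      6813292 / 78125 * s ^ 2 * t ^ 2 + 2286432 / 15625 * s ^ 3 * t + 1834809 / 25000 * s ^ 4 =
      (1 + 1 / 100 + (1 / 100) ^ 2 / 2) * (1 + u + 403 / 1000 * u ^ 2) -
      (1 + u + u ^ 2 / 2 + u ^ 3 / 6 + u ^ 4 / 24) := by
    rw [hs, ht]
    ring
  rw [e] at h
  linarith

theorem ev_four_e02_a2 (u : ℝ) (h1 : -15 / 32 ≤ u) (h2 : u ≤ -7 / 16) :
    1 + u + u ^ 2 / 2 + u ^ 3 / 6 + u ^ 4 / 24 ≤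
      (1 + 1 / 100 + (1 / 100) ^ 2 / 2) * (1 + u + 403 / 1000 * u ^ 2) := by
  obtain ⟨s, hs⟩ : ∃ s, s = u - (-15 / 32) := ⟨_, rfl⟩
  obtain ⟨t, ht⟩ : ∃ t, t = -7 / 16 - u := ⟨_, rfl⟩
  have hs0 : 0 ≤ s := by linarith
  have ht0 : 0 ≤ t := by linarith
  have h : 0 ≤
      1834809 / 25000 * t ^ 4 + 6887613 / 15625 * s * t ^ 3 +
      75831007 / 78125 * s ^ 2 * t ^ 2 + 213184732 / 234375 * s ^ 3 * t +
      23931602 / 78125 * s ^ 4 := by
    positivity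
  have e :
      1834809 / 25000 * t ^ 4 + 6887613 / 15625 * s * t ^ 3 +
      75831007 / 78125 * s ^ 2 * t ^ 2 + 213184732 / 234375 * s ^ 3 * t +
      23931602 / 78125 * s ^ 4 =
      (1 + 1 / 100 + (1 / 100) ^ 2 / 2) * (1 + u + 403 / 1000 * u ^ 2) -
      (1 + u + u ^ 2 / 2 + u ^ 3 / 6 + u ^ 4 / 24) := by
    rw [hs, ht]
    ring
  rw [e] at h
  linarith

theorem ev_four_e02_a3 (u : ℝ) (h1 : -7 / 16 ≤ u) (h2 : u ≤ -3 / 8) :
    1 + u + u ^ 2 / 2 + u ^ 3 / 6 + u ^ 4 / 24 ≤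
      (1 + 1 / 100 + (1 / 100) ^ 2 / 2) * (1 + u + 403 / 1000 * u ^ 2) := by
  obtain ⟨s, hs⟩ : ∃ s, s = u - (-7 / 16) := ⟨_, rfl⟩
  obtain ⟨t, ht⟩ : ∃ t, t = -3 / 8 - u := ⟨_, rfl⟩
  have hs0 : 0 ≤ s := by linarith
  have ht0 : 0 ≤ t := by linarith
  have h : 0 ≤
      11965801 / 625000 * t ^ 4 + 27198013 / 234375 * s * t ^ 3 +
      19782634 / 78125 * s ^ 2 * t ^ 2 + 18232968 / 78125 * s ^ 3 * t +
      6017358 / 78125 * s ^ 4 := by
    positivity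
  have e :
      11965801 / 625000 * t ^ 4 + 27198013 / 234375 * s * t ^ 3 +
      19782634 / 78125 * s ^ 2 * t ^ 2 + 18232968 / 78125 * s ^ 3 * t +
      6017358 / 78125 * s ^ 4 =
      (1 + 1 / 100 + (1 / 100) ^ 2 / 2) * (1 + u + 403 / 1000 * u ^ 2) -
      (1 + u + u ^ 2 / 2 + u ^ 3 / 6 + u ^ 4 / 24) := by
    rw [hs, ht]
    ring
  rw [e] at h
  linarith

theorem ev_four_e02_a4 (u : ℝ) (h1 : -3 / 8 ≤ u) (h2 : u ≤ -1 / 4) :
    1 + u + u ^ 2 / 2 + u ^ 3 / 6 + u ^ 4 / 24 ≤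
      (1 + 1 / 100 + (1 / 100) ^ 2 / 2) * (1 + u + 403 / 1000 * u ^ 2) := by
  obtain ⟨s, hs⟩ : ∃ s, s = u - (-3 / 8) := ⟨_, rfl⟩
  obtain ⟨t, ht⟩ : ∃ t, t = -1 / 4 - u := ⟨_, rfl⟩
  have hs0 : 0 ≤ s := by linarith
  have ht0 : 0 ≤ t := by linarith
  have h : 0 ≤
      3008679 / 625000 * t ^ 4 + 893559 / 31250 * s * t ^ 3 +
      18968611 / 312500 * s ^ 2 * t ^ 2 + 2533109 / 46875 * s ^ 3 * t +
      1334253 / 78125 * s ^ 4 := by
    positivity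
  have e :
      3008679 / 625000 * t ^ 4 + 893559 / 31250 * s * t ^ 3 +
      18968611 / 312500 * s ^ 2 * t ^ 2 + 2533109 / 46875 * s ^ 3 * t +
      1334253 / 78125 * s ^ 4 =
      (1 + 1 / 100 + (1 / 100) ^ 2 / 2) * (1 + u + 403 / 1000 * u ^ 2) -
      (1 + u + u ^ 2 / 2 + u ^ 3 / 6 + u ^ 4 / 24) := by
    rw [hs, ht]
    ring
  rw [e] at h
  linarith

theorem ev_four_e02_a5 (u : ℝ) (h1 : -1 / 4 ≤ u) (h2 : u ≤ 0) :
    1 + u + u ^ 2 / 2 + u ^ 3 / 6 + u ^ 4 / 24 ≤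
      (1 + 1 / 100 + (1 / 100) ^ 2 / 2) * (1 + u + 403 / 1000 * u ^ 2) := by
  obtain ⟨s, hs⟩ : ∃ s, s = u - (-1 / 4) := ⟨_, rfl⟩
  obtain ⟨t, ht⟩ : ∃ t, t = 0 - u := ⟨_, rfl⟩
  have hs0 : 0 ≤ s := by linarith
  have ht0 : 0 ≤ t := by linarith
  have h : 0 ≤
      1334253 / 1250000 * t ^ 4 + 11351009 / 1875000 * s * t ^ 3 +
      15025003 / 1250000 * s ^ 2 * t ^ 2 + 1206 / 125 * s ^ 3 * t + 1608 / 625 * s ^ 4 := by
    positivity
  have e :
      1334253 / 1250000 * t ^ 4 + 11351009 / 1875000 * s * t ^ 3 +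
      15025003 / 1250000 * s ^ 2 * t ^ 2 + 1206 / 125 * s ^ 3 * t + 1608 / 625 * s ^ 4 =
      (1 + 1 / 100 + (1 / 100) ^ 2 / 2) * (1 + u + 403 / 1000 * u ^ 2) -
      (1 + u + u ^ 2 / 2 + u ^ 3 / 6 + u ^ 4 / 24) := by
    rw [hs, ht]
    ring
  rw [e] at h
  linarith

theorem ev_four_e02_b0 (u : ℝ) (h1 : -2 ≤ u) (h2 : u ≤ -1) :
    36788 / 100000 *
      (1 + (u + 1) + (u + 1) ^ 2 / 2 + (u + 1) ^ 3 / 6 + (u + 1) ^ 4 / 24) ≤
      (1 + 1 / 100 + (1 / 100) ^ 2 / 2) * (1 + u + 403 / 1000 * u ^ 2) := by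
  obtain ⟨s, hs⟩ : ∃ s, s = u - (-2) := ⟨_, rfl⟩
  obtain ⟨t, ht⟩ : ∃ t, t = -1 - u := ⟨_, rfl⟩
  have hs0 : 0 ≤ s := by linarith
  have ht0 : 0 ≤ t := by linarith
  have h : 0 ≤
      1200489 / 2500000 * t ^ 4 + 17700077 / 15000000 * s * t ^ 3 +
      19478439 / 20000000 * s ^ 2 * t ^ 2 + 3286109 / 10000000 * s ^ 3 * t +
      783403 / 20000000 * s ^ 4 := by
    positivity
  have e :
      1200489 / 2500000 * t ^ 4 + 17700077 / 15000000 * s * t ^ 3 +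
      19478439 / 20000000 * s ^ 2 * t ^ 2 + 3286109 / 10000000 * s ^ 3 * t +
      783403 / 20000000 * s ^ 4 =
      (1 + 1 / 100 + (1 / 100) ^ 2 / 2) * (1 + u + 403 / 1000 * u ^ 2) -
      (36788 / 100000 *
      (1 + (u + 1) + (u + 1) ^ 2 / 2 + (u + 1) ^ 3 / 6 + (u + 1) ^ 4 / 24)) := by
    rw [hs, ht]
    ring
  rw [e] at h
  linarith

theorem ev_four_e02_c0 (u : ℝ) (h1 : -3 ≤ u) (h2 : u ≤ -2) :
    13534 / 100000 *
      (1 + (u + 2) + (u + 2) ^ 2 / 2 + (u + 2) ^ 3 / 6 + (u + 2) ^ 4 / 24) ≤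
      (1 + 1 / 100 + (1 / 100) ^ 2 / 2) * (1 + u + 403 / 1000 * u ^ 2) := by
  obtain ⟨s, hs⟩ : ∃ s, s = u - (-3) := ⟨_, rfl⟩
  obtain ⟨t, ht⟩ : ∃ t, t = -2 - u := ⟨_, rfl⟩
  have hs0 : 0 ≤ s := by linarith
  have ht0 : 0 ≤ t := by linarith
  have h : 0 ≤
      31851977 / 20000000 * t ^ 4 + 29358187 / 6000000 * s * t ^ 3 +
      109934311 / 20000000 * s ^ 2 * t ^ 2 + 2684733 / 1000000 * s ^ 3 * t +
      2414053 / 5000000 * s ^ 4 := by
    positivity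
  have e :
      31851977 / 20000000 * t ^ 4 + 29358187 / 6000000 * s * t ^ 3 +
      109934311 / 20000000 * s ^ 2 * t ^ 2 + 2684733 / 1000000 * s ^ 3 * t +
      2414053 / 5000000 * s ^ 4 =
      (1 + 1 / 100 + (1 / 100) ^ 2 / 2) * (1 + u + 403 / 1000 * u ^ 2) -
      (13534 / 100000 *
      (1 + (u + 2) + (u + 2) ^ 2 / 2 + (u + 2) ^ 3 / 6 + (u + 2) ^ 4 / 24)) := by
    rw [hs, ht]
    ring
  rw [e] at h
  linarith

theorem ev_four_e02_d (u : ℝ) (h2 : u ≤ -3) :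
    4979 / 100000 ≤
      (1 + 1 / 100 + (1 / 100) ^ 2 / 2) * (1 + u + 403 / 1000 * u ^ 2) := by
  obtain ⟨s, hs⟩ : ∃ s, s = -3 - u := ⟨_, rfl⟩
  have hs0 : 0 ≤ s := by linarith
  have h : 0 ≤
      31871227 / 20000000 + 14322509 / 10000000 * s + 8141003 / 20000000 * s ^ 2 := by
    positivity
  have e :
      31871227 / 20000000 + 14322509 / 10000000 * s + 8141003 / 20000000 * s ^ 2 =
      (1 + 1 / 100 + (1 / 100) ^ 2 / 2) * (1 + u + 403 / 1000 * u ^ 2) -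
      (4979 / 100000) := by
    rw [hs]
    ring
  rw [e] at h
  linarith

theorem ev_four_e02_g0 (u : ℝ) (h1 : 0 ≤ u) (h2 : u ≤ 2) :
    1 * (1 + (u - 0) / 4) ^ 4 ≤
      (1 + 1 / 100 + (1 / 100) ^ 2 / 2) * ((1 + (1 / 40 * u ^ 2) + (1 / 40 * u ^ 2) ^ 2 / 2 +
      (1 / 40 * u ^ 2) ^ 3 / 6) *
      (1 + u + 403 / 1000 * u ^ 2)) := by
  obtain ⟨s, hs⟩ : ∃ s, s = u - (0) := ⟨_, rfl⟩
  obtain ⟨t, ht⟩ : ∃ t, t = 2 - u := ⟨_, rfl⟩
  have hs0 : 0 ≤ s := by linarith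
  have ht0 : 0 ≤ t := by linarith
  have h : 0 ≤
      201 / 5120000 * t ^ 8 + 201 / 512000 * s * t ^ 7 + 203533 / 80000000 * s ^ 2 * t ^ 6 +
      5155359 / 640000000 * s ^ 3 * t ^ 5 + 346050431 / 25600000000 * s ^ 4 * t ^ 4 +
      165104687 / 12800000000 * s ^ 5 * t ^ 3 + 2748775057 / 384000000000 * s ^ 6 * t ^ 2 +
      862682569 / 384000000000 * s ^ 7 * t + 2572614143 / 7680000000000 * s ^ 8 := by
    positivity
  have e :
      201 / 5120000 * t ^ 8 + 201 / 512000 * s * t ^ 7 + 203533 / 80000000 * s ^ 2 * t ^ 6 +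
      5155359 / 640000000 * s ^ 3 * t ^ 5 + 346050431 / 25600000000 * s ^ 4 * t ^ 4 +
      165104687 / 12800000000 * s ^ 5 * t ^ 3 + 2748775057 / 384000000000 * s ^ 6 * t ^ 2 +
      862682569 / 384000000000 * s ^ 7 * t + 2572614143 / 7680000000000 * s ^ 8 =
      (1 + 1 / 100 + (1 / 100) ^ 2 / 2) * ((1 + (1 / 40 * u ^ 2) + (1 / 40 * u ^ 2) ^ 2 / 2 +
      (1 / 40 * u ^ 2) ^ 3 / 6) *
      (1 + u + 403 / 1000 * u ^ 2)) -
      (1 * (1 + (u - 0) / 4) ^ 4) := by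
    rw [hs, ht]
    ring
  rw [e] at h
  linarith

theorem ev_four_e02_t (u : ℝ) (h1 : 2 ≤ u) :
    1 * (1 + (u - 0) / 4) ^ 4 ≤
      (1 + 1 / 100 + (1 / 100) ^ 2 / 2) * ((1 + (1 / 40 * u ^ 2) + (1 / 40 * u ^ 2) ^ 2 / 2 +
      (1 / 40 * u ^ 2) ^ 3 / 6) *
      (1 + u + 403 / 1000 * u ^ 2)) := by
  obtain ⟨s, hs⟩ : ∃ s, s = u - (2) := ⟨_, rfl⟩
  have hs0 : 0 ≤ s := by linarith
  have h : 0 ≤
      2572614143 / 30000000000 + 831815441 / 15000000000 * s +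
      1558284371 / 30000000000 * s ^ 2 + 3132476917 / 60000000000 * s ^ 3 +
      933877711 / 48000000000 * s ^ 4 + 616675927 / 240000000000 * s ^ 5 +
      136982981 / 480000000000 * s ^ 6 + 18807131 / 960000000000 * s ^ 7 +
      8141003 / 7680000000000 * s ^ 8 := by
    positivity
  have e :
      2572614143 / 30000000000 + 831815441 / 15000000000 * s +
      1558284371 / 30000000000 * s ^ 2 + 3132476917 / 60000000000 * s ^ 3 +
      933877711 / 48000000000 * s ^ 4 + 616675927 / 240000000000 * s ^ 5 +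
      136982981 / 480000000000 * s ^ 6 + 18807131 / 960000000000 * s ^ 7 +
      8141003 / 7680000000000 * s ^ 8 =
      (1 + 1 / 100 + (1 / 100) ^ 2 / 2) * ((1 + (1 / 40 * u ^ 2) + (1 / 40 * u ^ 2) ^ 2 / 2 +
      (1 / 40 * u ^ 2) ^ 3 / 6) *
      (1 + u + 403 / 1000 * u ^ 2)) -
      (1 * (1 + (u - 0) / 4) ^ 4) := by
    rw [hs]
    ring
  rw [e] at h
  linarith

/-- `K = 4`: `(c, μ, P, δ) = (403 / 1000, 1 / 40, 0, 1 / 100)` -/
theorem expFd_four_e02 : ExpFd 4 (403 / 1000) (1 / 40) (0) (1 / 100) := by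
  have hde : (1 + 1 / 100 + (1 / 100) ^ 2 / 2) ≤ Real.exp (1 / 100) :=
    Real.quadratic_le_exp_of_nonneg (by norm_num)
  have hq : ∀ u : ℝ, 0 ≤ 1 + u + 403 / 1000 * u ^ 2 := fun u => by
    nlinarith [sq_nonneg (u + 2), sq_nonneg u]
  have hR : ∀ (u x y : ℝ), x ≤ y →
      y ≤ (1 + 1 / 100 + (1 / 100) ^ 2 / 2) * (1 + u + 403 / 1000 * u ^ 2) →
      x ≤ Real.exp (1 / 100) * (1 + u + 403 / 1000 * u ^ 2) := fun u x y h1 h2 =>
    (h1.trans h2).trans (mul_le_mul_of_nonneg_right hde (hq u))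
  refine ExpFd.of (by norm_num) (by norm_num) (by norm_num) (by norm_num) (by norm_num) ?_ ?_ ?_
  · intro u h1
    rcases le_total u (-3) with h3 | h3
    · exact hR u _ _ (ev_exp_n3 h3) (ev_four_e02_d u h3)
    rcases le_total u (-2) with h4 | h4
    · refine hR u _ _ (ev_exp_n2 h4) ?_
      exact ev_four_e02_c0 u (by linarith) (by linarith)
    rcases le_total u (-1) with h5 | h5
    · refine hR u _ _ (ev_exp_n1 h5) ?_
      exact ev_four_e02_b0 u (by linarith) (by linarith)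
    refine hR u _ _ (ev_exp_n0 h1) ?_
    rcases le_total u (-1 / 2) with hh | hh
    · exact ev_four_e02_a0 u (by linarith) (by linarith)
    rcases le_total u (-15 / 32) with hh | hh
    · exact ev_four_e02_a1 u (by linarith) (by linarith)
    rcases le_total u (-7 / 16) with hh | hh
    · exact ev_four_e02_a2 u (by linarith) (by linarith)
    rcases le_total u (-3 / 8) with hh | hh
    · exact ev_four_e02_a3 u (by linarith) (by linarith)
    rcases le_total u (-1 / 4) with hh | hh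
    · exact ev_four_e02_a4 u (by linarith) (by linarith)
    exact ev_four_e02_a5 u (by linarith) (by linarith)
  · intro u h1 h2
    have h7 : u = 0 := le_antisymm h2 h1
    rw [h7, Real.exp_zero]
    have := Real.add_one_le_exp ((1 / 100 : ℝ) + 1 / 40 * 0 ^ 2)
    linarith
  · intro u h1
    have h4 : 0 ≤ (1 + (u - 0) / 4) ^ 4 := by
      have : 0 ≤ (u - 0) / 4 := div_nonneg (by linarith) (by norm_num)
      positivity
    have hE : Real.exp (0) ≤ 1 := Real.exp_zero.le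
    have hx : 0 ≤ 1 / 40 * u ^ 2 := by positivity
    have h5 := mul_le_mul_of_nonneg_right (taylor3_le_expE _ hx) (hq u)
    have h6 : 0 ≤ Real.exp (1 / 40 * u ^ 2) * (1 + u + 403 / 1000 * u ^ 2) :=
      mul_nonneg (Real.exp_nonneg _) (hq u)
    rw [Real.exp_add, mul_assoc]
    push_cast
    refine ((mul_le_mul_of_nonneg_right hE h4).trans ?_).trans
      ((mul_le_mul_of_nonneg_left h5
        (by norm_num : (0 : ℝ) ≤ (1 + 1 / 100 + (1 / 100) ^ 2 / 2))).trans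
        (mul_le_mul_of_nonneg_right hde h6))
    rcases le_total u (2) with hh | hh
    · exact ev_four_e02_g0 u (by linarith) (by linarith)
    exact ev_four_e02_t u (by linarith)

theorem ev_four_e03_a0 (u : ℝ) (h1 : -1 ≤ u) (h2 : u ≤ -3 / 4) :
    1 + u + u ^ 2 / 2 + u ^ 3 / 6 + u ^ 4 / 24 ≤
      (1 + 1 / 50 + (1 / 50) ^ 2 / 2) * (1 + u + 77 / 200 * u ^ 2) := by
  obtain ⟨s, hs⟩ : ∃ s, s = u - (-1) := ⟨_, rfl⟩
  obtain ⟨t, ht⟩ : ∃ t, t = -3 / 4 - u := ⟨_, rfl⟩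
  have hs0 : 0 ≤ s := by linarith
  have ht0 : 0 ≤ t := by linarith
  have h : 0 ≤
      71108 / 15625 * t ^ 4 + 557234 / 46875 * s * t ^ 3 + 665121 / 62500 * s ^ 2 * t ^ 2 +
      119517 / 31250 * s ^ 3 * t + 59711 / 125000 * s ^ 4 := by
    positivity
  have e :
      71108 / 15625 * t ^ 4 + 557234 / 46875 * s * t ^ 3 + 665121 / 62500 * s ^ 2 * t ^ 2 +
      119517 / 31250 * s ^ 3 * t + 59711 / 125000 * s ^ 4 =
      (1 + 1 / 50 + (1 / 50) ^ 2 / 2) * (1 + u + 77 / 200 * u ^ 2) -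
      (1 + u + u ^ 2 / 2 + u ^ 3 / 6 + u ^ 4 / 24) := by
    rw [hs, ht]
    ring
  rw [e] at h
  linarith

theorem ev_four_e03_a1 (u : ℝ) (h1 : -3 / 4 ≤ u) (h2 : u ≤ -5 / 8) :
    1 + u + u ^ 2 / 2 + u ^ 3 / 6 + u ^ 4 / 24 ≤
      (1 + 1 / 50 + (1 / 50) ^ 2 / 2) * (1 + u + 77 / 200 * u ^ 2) := by
  obtain ⟨s, hs⟩ : ∃ s, s = u - (-3 / 4) := ⟨_, rfl⟩
  obtain ⟨t, ht⟩ : ∃ t, t = -5 / 8 - u := ⟨_, rfl⟩
  have hs0 : 0 ≤ s := by linarith
  have ht0 : 0 ≤ t := by linarith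
  have h : 0 ≤
      119422 / 15625 * t ^ 4 + 238464 / 15625 * s * t ^ 3 + 126012 / 15625 * s ^ 2 * t ^ 2 +
      5467 / 9375 * s ^ 3 * t + 477 / 5000 * s ^ 4 := by
    positivity
  have e :
      119422 / 15625 * t ^ 4 + 238464 / 15625 * s * t ^ 3 + 126012 / 15625 * s ^ 2 * t ^ 2 +
      5467 / 9375 * s ^ 3 * t + 477 / 5000 * s ^ 4 =
      (1 + 1 / 50 + (1 / 50) ^ 2 / 2) * (1 + u + 77 / 200 * u ^ 2) -
      (1 + u + u ^ 2 / 2 + u ^ 3 / 6 + u ^ 4 / 24) := by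
    rw [hs, ht]
    ring
  rw [e] at h
  linarith

theorem ev_four_e03_a2 (u : ℝ) (h1 : -5 / 8 ≤ u) (h2 : u ≤ -1 / 2) :
    1 + u + u ^ 2 / 2 + u ^ 3 / 6 + u ^ 4 / 24 ≤
      (1 + 1 / 50 + (1 / 50) ^ 2 / 2) * (1 + u + 77 / 200 * u ^ 2) := by
  obtain ⟨s, hs⟩ : ∃ s, s = u - (-5 / 8) := ⟨_, rfl⟩
  obtain ⟨t, ht⟩ : ∃ t, t = -1 / 2 - u := ⟨_, rfl⟩
  have hs0 : 0 ≤ s := by linarith
  have ht0 : 0 ≤ t := by linarith
  have h : 0 ≤
      477 / 5000 * t ^ 4 + 1688 / 9375 * s * t ^ 3 + 107117 / 15625 * s ^ 2 * t ^ 2 +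
      203944 / 15625 * s ^ 3 * t + 292496 / 46875 * s ^ 4 := by
    positivity
  have e :
      477 / 5000 * t ^ 4 + 1688 / 9375 * s * t ^ 3 + 107117 / 15625 * s ^ 2 * t ^ 2 +
      203944 / 15625 * s ^ 3 * t + 292496 / 46875 * s ^ 4 =
      (1 + 1 / 50 + (1 / 50) ^ 2 / 2) * (1 + u + 77 / 200 * u ^ 2) -
      (1 + u + u ^ 2 / 2 + u ^ 3 / 6 + u ^ 4 / 24) := by
    rw [hs, ht]
    ring
  rw [e] at h
  linarith

theorem ev_four_e03_a3 (u : ℝ) (h1 : -1 / 2 ≤ u) (h2 : u ≤ 0) :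
    1 + u + u ^ 2 / 2 + u ^ 3 / 6 + u ^ 4 / 24 ≤
      (1 + 1 / 50 + (1 / 50) ^ 2 / 2) * (1 + u + 77 / 200 * u ^ 2) := by
  obtain ⟨s, hs⟩ : ∃ s, s = u - (-1 / 2) := ⟨_, rfl⟩
  obtain ⟨t, ht⟩ : ∃ t, t = 0 - u := ⟨_, rfl⟩
  have hs0 : 0 ≤ s := by linarith
  have ht0 : 0 ≤ t := by linarith
  have h : 0 ≤
      18281 / 750000 * t ^ 4 + 106331 / 375000 * s * t ^ 3 +
      256377 / 250000 * s ^ 2 * t ^ 2 + 707 / 625 * s ^ 3 * t + 202 / 625 * s ^ 4 := by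
    positivity
  have e :
      18281 / 750000 * t ^ 4 + 106331 / 375000 * s * t ^ 3 +
      256377 / 250000 * s ^ 2 * t ^ 2 + 707 / 625 * s ^ 3 * t + 202 / 625 * s ^ 4 =
      (1 + 1 / 50 + (1 / 50) ^ 2 / 2) * (1 + u + 77 / 200 * u ^ 2) -
      (1 + u + u ^ 2 / 2 + u ^ 3 / 6 + u ^ 4 / 24) := by
    rw [hs, ht]
    ring
  rw [e] at h
  linarith

theorem ev_four_e03_b0 (u : ℝ) (h1 : -2 ≤ u) (h2 : u ≤ -1) :
    36788 / 100000 *
      (1 + (u + 1) + (u + 1) ^ 2 / 2 + (u + 1) ^ 3 / 6 + (u + 1) ^ 4 / 24) ≤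
      (1 + 1 / 50 + (1 / 50) ^ 2 / 2) * (1 + u + 77 / 200 * u ^ 2) := by
  obtain ⟨s, hs⟩ : ∃ s, s = u - (-2) := ⟨_, rfl⟩
  obtain ⟨t, ht⟩ : ∃ t, t = -1 - u := ⟨_, rfl⟩
  have hs0 : 0 ≤ s := by linarith
  have ht0 : 0 ≤ t := by linarith
  have h : 0 ≤
      412953 / 1000000 * t ^ 4 + 183427 / 187500 * s * t ^ 3 +
      757921 / 1000000 * s ^ 2 * t ^ 2 + 116411 / 500000 * s ^ 3 * t + 24897 / 1000000 * s ^ 4 := by
    positivity
  have e :
      412953 / 1000000 * t ^ 4 + 183427 / 187500 * s * t ^ 3 +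
      757921 / 1000000 * s ^ 2 * t ^ 2 + 116411 / 500000 * s ^ 3 * t + 24897 / 1000000 * s ^ 4 =
      (1 + 1 / 50 + (1 / 50) ^ 2 / 2) * (1 + u + 77 / 200 * u ^ 2) -
      (36788 / 100000 *
      (1 + (u + 1) + (u + 1) ^ 2 / 2 + (u + 1) ^ 3 / 6 + (u + 1) ^ 4 / 24)) := by
    rw [hs, ht]
    ring
  rw [e] at h
  linarith

theorem ev_four_e03_c0 (u : ℝ) (h1 : -3 ≤ u) (h2 : u ≤ -2) :
    13534 / 100000 *
      (1 + (u + 2) + (u + 2) ^ 2 / 2 + (u + 2) ^ 3 / 6 + (u + 2) ^ 4 / 24) ≤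
      (1 + 1 / 50 + (1 / 50) ^ 2 / 2) * (1 + u + 77 / 200 * u ^ 2) := by
  obtain ⟨s, hs⟩ : ∃ s, s = u - (-3) := ⟨_, rfl⟩
  obtain ⟨t, ht⟩ : ∃ t, t = -2 - u := ⟨_, rfl⟩
  have hs0 : 0 ≤ s := by linarith
  have ht0 : 0 ≤ t := by linarith
  have h : 0 ≤
      2887681 / 2000000 * t ^ 4 + 164767 / 37500 * s * t ^ 3 +
      4877259 / 1000000 * s ^ 2 * t ^ 2 + 58713 / 25000 * s ^ 3 * t + 25973 / 62500 * s ^ 4 := by
    positivity
  have e :
      2887681 / 2000000 * t ^ 4 + 164767 / 37500 * s * t ^ 3 +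
      4877259 / 1000000 * s ^ 2 * t ^ 2 + 58713 / 25000 * s ^ 3 * t + 25973 / 62500 * s ^ 4 =
      (1 + 1 / 50 + (1 / 50) ^ 2 / 2) * (1 + u + 77 / 200 * u ^ 2) -
      (13534 / 100000 *
      (1 + (u + 2) + (u + 2) ^ 2 / 2 + (u + 2) ^ 3 / 6 + (u + 2) ^ 4 / 24)) := by
    rw [hs, ht]
    ring
  rw [e] at h
  linarith

theorem ev_four_e03_d (u : ℝ) (h2 : u ≤ -3) :
    4979 / 100000 ≤
      (1 + 1 / 50 + (1 / 50) ^ 2 / 2) * (1 + u + 77 / 200 * u ^ 2) := by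
  obtain ⟨s, hs⟩ : ∃ s, s = -3 - u := ⟨_, rfl⟩
  have hs0 : 0 ≤ s := by linarith
  have h : 0 ≤
      1444803 / 1000000 + 668231 / 500000 * s + 392777 / 1000000 * s ^ 2 := by
    positivity
  have e :
      1444803 / 1000000 + 668231 / 500000 * s + 392777 / 1000000 * s ^ 2 =
      (1 + 1 / 50 + (1 / 50) ^ 2 / 2) * (1 + u + 77 / 200 * u ^ 2) -
      (4979 / 100000) := by
    rw [hs]
    ring
  rw [e] at h
  linarith

theorem ev_four_e03_g0 (u : ℝ) (h1 : 0 ≤ u) (h2 : u ≤ 2) :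
    1 * (1 + (u - 0) / 4) ^ 4 ≤
      (1 + 1 / 50 + (1 / 50) ^ 2 / 2) * ((1 + (3 / 100 * u ^ 2) + (3 / 100 * u ^ 2) ^ 2 / 2 +
      (3 / 100 * u ^ 2) ^ 3 / 6) *
      (1 + u + 77 / 200 * u ^ 2)) := by
  obtain ⟨s, hs⟩ : ∃ s, s = u - (0) := ⟨_, rfl⟩
  obtain ⟨t, ht⟩ : ∃ t, t = 2 - u := ⟨_, rfl⟩
  have hs0 : 0 ≤ s := by linarith
  have ht0 : 0 ≤ t := by linarith
  have h : 0 ≤
      101 / 1280000 * t ^ 8 + 101 / 128000 * s * t ^ 7 + 260483 / 64000000 * s ^ 2 * t ^ 6 +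
      72141 / 6400000 * s ^ 3 * t ^ 5 + 1433937 / 80000000 * s ^ 4 * t ^ 4 +
      13789139 / 800000000 * s ^ 5 * t ^ 3 + 819190261 / 80000000000 * s ^ 6 * t ^ 2 +
      145502729 / 40000000000 * s ^ 7 * t + 311904667 / 500000000000 * s ^ 8 := by
    positivity
  have e :
      101 / 1280000 * t ^ 8 + 101 / 128000 * s * t ^ 7 + 260483 / 64000000 * s ^ 2 * t ^ 6 +
      72141 / 6400000 * s ^ 3 * t ^ 5 + 1433937 / 80000000 * s ^ 4 * t ^ 4 +
      13789139 / 800000000 * s ^ 5 * t ^ 3 + 819190261 / 80000000000 * s ^ 6 * t ^ 2 +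
      145502729 / 40000000000 * s ^ 7 * t + 311904667 / 500000000000 * s ^ 8 =
      (1 + 1 / 50 + (1 / 50) ^ 2 / 2) * ((1 + (3 / 100 * u ^ 2) + (3 / 100 * u ^ 2) ^ 2 / 2 +
      (3 / 100 * u ^ 2) ^ 3 / 6) *
      (1 + u + 77 / 200 * u ^ 2)) -
      (1 * (1 + (u - 0) / 4) ^ 4) := by
    rw [hs, ht]
    ring
  rw [e] at h
  linarith

theorem ev_four_e03_t (u : ℝ) (h1 : 2 ≤ u) :
    1 * (1 + (u - 0) / 4) ^ 4 ≤
      (1 + 1 / 50 + (1 / 50) ^ 2 / 2) * ((1 + (3 / 100 * u ^ 2) + (3 / 100 * u ^ 2) ^ 2 / 2 +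
      (3 / 100 * u ^ 2) ^ 3 / 6) *
      (1 + u + 77 / 200 * u ^ 2)) := by
  obtain ⟨s, hs⟩ : ∃ s, s = u - (2) := ⟨_, rfl⟩
  have hs0 : 0 ≤ s := by linarith
  have h : 0 ≤
      311904667 / 1953125000 + 1352906447 / 7812500000 * s +
      4487124079 / 31250000000 * s ^ 2 + 686808951 / 7812500000 * s ^ 3 +
      676813277 / 25000000000 * s ^ 4 + 476581329 / 125000000000 * s ^ 5 +
      221786379 / 500000000000 * s ^ 6 + 8217711 / 250000000000 * s ^ 7 +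
      3534993 / 2000000000000 * s ^ 8 := by
    positivity
  have e :
      311904667 / 1953125000 + 1352906447 / 7812500000 * s +
      4487124079 / 31250000000 * s ^ 2 + 686808951 / 7812500000 * s ^ 3 +
      676813277 / 25000000000 * s ^ 4 + 476581329 / 125000000000 * s ^ 5 +
      221786379 / 500000000000 * s ^ 6 + 8217711 / 250000000000 * s ^ 7 +
      3534993 / 2000000000000 * s ^ 8 =
      (1 + 1 / 50 + (1 / 50) ^ 2 / 2) * ((1 + (3 / 100 * u ^ 2) + (3 / 100 * u ^ 2) ^ 2 / 2 +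
      (3 / 100 * u ^ 2) ^ 3 / 6) *
      (1 + u + 77 / 200 * u ^ 2)) -
      (1 * (1 + (u - 0) / 4) ^ 4) := by
    rw [hs]
    ring
  rw [e] at h
  linarith

/-- `K = 4`: `(c, μ, P, δ) = (77 / 200, 3 / 100, 0, 1 / 50)` -/
theorem expFd_four_e03 : ExpFd 4 (77 / 200) (3 / 100) (0) (1 / 50) := by
  have hde : (1 + 1 / 50 + (1 / 50) ^ 2 / 2) ≤ Real.exp (1 / 50) :=
    Real.quadratic_le_exp_of_nonneg (by norm_num)
  have hq : ∀ u : ℝ, 0 ≤ 1 + u + 77 / 200 * u ^ 2 := fun u => by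
    nlinarith [sq_nonneg (u + 2), sq_nonneg u]
  have hR : ∀ (u x y : ℝ), x ≤ y →
      y ≤ (1 + 1 / 50 + (1 / 50) ^ 2 / 2) * (1 + u + 77 / 200 * u ^ 2) →
      x ≤ Real.exp (1 / 50) * (1 + u + 77 / 200 * u ^ 2) := fun u x y h1 h2 =>
    (h1.trans h2).trans (mul_le_mul_of_nonneg_right hde (hq u))
  refine ExpFd.of (by norm_num) (by norm_num) (by norm_num) (by norm_num) (by norm_num) ?_ ?_ ?_
  · intro u h1
    rcases le_total u (-3) with h3 | h3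
    · exact hR u _ _ (ev_exp_n3 h3) (ev_four_e03_d u h3)
    rcases le_total u (-2) with h4 | h4
    · refine hR u _ _ (ev_exp_n2 h4) ?_
      exact ev_four_e03_c0 u (by linarith) (by linarith)
    rcases le_total u (-1) with h5 | h5
    · refine hR u _ _ (ev_exp_n1 h5) ?_
      exact ev_four_e03_b0 u (by linarith) (by linarith)
    refine hR u _ _ (ev_exp_n0 h1) ?_
    rcases le_total u (-3 / 4) with hh | hh
    · exact ev_four_e03_a0 u (by linarith) (by linarith)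
    rcases le_total u (-5 / 8) with hh | hh
    · exact ev_four_e03_a1 u (by linarith) (by linarith)
    rcases le_total u (-1 / 2) with hh | hh
    · exact ev_four_e03_a2 u (by linarith) (by linarith)
    exact ev_four_e03_a3 u (by linarith) (by linarith)
  · intro u h1 h2
    have h7 : u = 0 := le_antisymm h2 h1
    rw [h7, Real.exp_zero]
    have := Real.add_one_le_exp ((1 / 50 : ℝ) + 3 / 100 * 0 ^ 2)
    linarith
  · intro u h1
    have h4 : 0 ≤ (1 + (u - 0) / 4) ^ 4 := by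
      have : 0 ≤ (u - 0) / 4 := div_nonneg (by linarith) (by norm_num)
      positivity
    have hE : Real.exp (0) ≤ 1 := Real.exp_zero.le
    have hx : 0 ≤ 3 / 100 * u ^ 2 := by positivity
    have h5 := mul_le_mul_of_nonneg_right (taylor3_le_expE _ hx) (hq u)
    have h6 : 0 ≤ Real.exp (3 / 100 * u ^ 2) * (1 + u + 77 / 200 * u ^ 2) :=
      mul_nonneg (Real.exp_nonneg _) (hq u)
    rw [Real.exp_add, mul_assoc]
    push_cast
    refine ((mul_le_mul_of_nonneg_right hE h4).trans ?_).trans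
      ((mul_le_mul_of_nonneg_left h5
        (by norm_num : (0 : ℝ) ≤ (1 + 1 / 50 + (1 / 50) ^ 2 / 2))).trans
        (mul_le_mul_of_nonneg_right hde h6))
    rcases le_total u (2) with hh | hh
    · exact ev_four_e03_g0 u (by linarith) (by linarith)
    exact ev_four_e03_t u (by linarith)

theorem ev_four_e04_a0 (u : ℝ) (h1 : -1 ≤ u) (h2 : u ≤ -7 / 8) :
    1 + u + u ^ 2 / 2 + u ^ 3 / 6 + u ^ 4 / 24 ≤
      (1 + 1 / 20 + (1 / 20) ^ 2 / 2) * (1 + u + 9 / 25 * u ^ 2) := by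
  obtain ⟨s, hs⟩ : ∃ s, s = u - (-1) := ⟨_, rfl⟩
  obtain ⟨t, ht⟩ : ∃ t, t = -7 / 8 - u := ⟨_, rfl⟩
  have hs0 : 0 ≤ s := by linarith
  have ht0 : 0 ≤ t := by linarith
  have h : 0 ≤
      8832 / 625 * t ^ 4 + 13712 / 375 * s * t ^ 3 + 20706 / 625 * s ^ 2 * t ^ 2 +
      1636 / 125 * s ^ 3 * t + 35263 / 15000 * s ^ 4 := by
    positivity
  have e :
      8832 / 625 * t ^ 4 + 13712 / 375 * s * t ^ 3 + 20706 / 625 * s ^ 2 * t ^ 2 +
      1636 / 125 * s ^ 3 * t + 35263 / 15000 * s ^ 4 =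
      (1 + 1 / 20 + (1 / 20) ^ 2 / 2) * (1 + u + 9 / 25 * u ^ 2) -
      (1 + u + u ^ 2 / 2 + u ^ 3 / 6 + u ^ 4 / 24) := by
    rw [hs, ht]
    ring
  rw [e] at h
  linarith

theorem ev_four_e04_a1 (u : ℝ) (h1 : -7 / 8 ≤ u) (h2 : u ≤ -3 / 4) :
    1 + u + u ^ 2 / 2 + u ^ 3 / 6 + u ^ 4 / 24 ≤
      (1 + 1 / 20 + (1 / 20) ^ 2 / 2) * (1 + u + 9 / 25 * u ^ 2) := by
  obtain ⟨s, hs⟩ : ∃ s, s = u - (-7 / 8) := ⟨_, rfl⟩
  obtain ⟨t, ht⟩ : ∃ t, t = -3 / 4 - u := ⟨_, rfl⟩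
  have hs0 : 0 ≤ s := by linarith
  have ht0 : 0 ≤ t := by linarith
  have h : 0 ≤
      35263 / 15000 * t ^ 4 + 10723 / 1875 * s * t ^ 3 + 6889 / 625 * s ^ 2 * t ^ 2 +
      8828 / 625 * s ^ 3 * t + 4018 / 625 * s ^ 4 := by
    positivity
  have e :
      35263 / 15000 * t ^ 4 + 10723 / 1875 * s * t ^ 3 + 6889 / 625 * s ^ 2 * t ^ 2 +
      8828 / 625 * s ^ 3 * t + 4018 / 625 * s ^ 4 =
      (1 + 1 / 20 + (1 / 20) ^ 2 / 2) * (1 + u + 9 / 25 * u ^ 2) -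
      (1 + u + u ^ 2 / 2 + u ^ 3 / 6 + u ^ 4 / 24) := by
    rw [hs, ht]
    ring
  rw [e] at h
  linarith

theorem ev_four_e04_a2 (u : ℝ) (h1 : -3 / 4 ≤ u) (h2 : u ≤ -1 / 2) :
    1 + u + u ^ 2 / 2 + u ^ 3 / 6 + u ^ 4 / 24 ≤
      (1 + 1 / 20 + (1 / 20) ^ 2 / 2) * (1 + u + 9 / 25 * u ^ 2) := by
  obtain ⟨s, hs⟩ : ∃ s, s = u - (-3 / 4) := ⟨_, rfl⟩
  obtain ⟨t, ht⟩ : ∃ t, t = -1 / 2 - u := ⟨_, rfl⟩
  have hs0 : 0 ≤ s := by linarith
  have ht0 : 0 ≤ t := by linarith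
  have h : 0 ≤
      2009 / 5000 * t ^ 4 + 382 / 125 * s * t ^ 3 + 10703 / 1250 * s ^ 2 * t ^ 2 +
      3524 / 375 * s ^ 3 * t + 6464 / 1875 * s ^ 4 := by
    positivity
  have e :
      2009 / 5000 * t ^ 4 + 382 / 125 * s * t ^ 3 + 10703 / 1250 * s ^ 2 * t ^ 2 +
      3524 / 375 * s ^ 3 * t + 6464 / 1875 * s ^ 4 =
      (1 + 1 / 20 + (1 / 20) ^ 2 / 2) * (1 + u + 9 / 25 * u ^ 2) -
      (1 + u + u ^ 2 / 2 + u ^ 3 / 6 + u ^ 4 / 24) := by
    rw [hs, ht]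
    ring
  rw [e] at h
  linarith

theorem ev_four_e04_a3 (u : ℝ) (h1 : -1 / 2 ≤ u) (h2 : u ≤ 0) :
    1 + u + u ^ 2 / 2 + u ^ 3 / 6 + u ^ 4 / 24 ≤
      (1 + 1 / 20 + (1 / 20) ^ 2 / 2) * (1 + u + 9 / 25 * u ^ 2) := by
  obtain ⟨s, hs⟩ : ∃ s, s = u - (-1 / 2) := ⟨_, rfl⟩
  obtain ⟨t, ht⟩ : ∃ t, t = 0 - u := ⟨_, rfl⟩
  have hs0 : 0 ≤ s := by linarith
  have ht0 : 0 ≤ t := by linarith
  have h : 0 ≤
      404 / 1875 * t ^ 4 + 5291 / 3750 * s * t ^ 3 + 16019 / 5000 * s ^ 2 * t ^ 2 +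
      287 / 100 * s ^ 3 * t + 41 / 50 * s ^ 4 := by
    positivity
  have e :
      404 / 1875 * t ^ 4 + 5291 / 3750 * s * t ^ 3 + 16019 / 5000 * s ^ 2 * t ^ 2 +
      287 / 100 * s ^ 3 * t + 41 / 50 * s ^ 4 =
      (1 + 1 / 20 + (1 / 20) ^ 2 / 2) * (1 + u + 9 / 25 * u ^ 2) -
      (1 + u + u ^ 2 / 2 + u ^ 3 / 6 + u ^ 4 / 24) := by
    rw [hs, ht]
    ring
  rw [e] at h
  linarith

theorem ev_four_e04_b0 (u : ℝ) (h1 : -2 ≤ u) (h2 : u ≤ -1) :
    36788 / 100000 *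
      (1 + (u + 1) + (u + 1) ^ 2 / 2 + (u + 1) ^ 3 / 6 + (u + 1) ^ 4 / 24) ≤
      (1 + 1 / 20 + (1 / 20) ^ 2 / 2) * (1 + u + 9 / 25 * u ^ 2) := by
  obtain ⟨s, hs⟩ : ∃ s, s = u - (-2) := ⟨_, rfl⟩
  obtain ⟨t, ht⟩ : ∃ t, t = -1 - u := ⟨_, rfl⟩
  have hs0 : 0 ≤ s := by linarith
  have ht0 : 0 ≤ t := by linarith
  have h : 0 ≤
      64919 / 200000 * t ^ 4 + 213961 / 300000 * s * t ^ 3 + 11963 / 25000 * s ^ 2 * t ^ 2 +
      11581 / 100000 * s ^ 3 * t + 1057 / 100000 * s ^ 4 := by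
    positivity
  have e :
      64919 / 200000 * t ^ 4 + 213961 / 300000 * s * t ^ 3 + 11963 / 25000 * s ^ 2 * t ^ 2 +
      11581 / 100000 * s ^ 3 * t + 1057 / 100000 * s ^ 4 =
      (1 + 1 / 20 + (1 / 20) ^ 2 / 2) * (1 + u + 9 / 25 * u ^ 2) -
      (36788 / 100000 *
      (1 + (u + 1) + (u + 1) ^ 2 / 2 + (u + 1) ^ 3 / 6 + (u + 1) ^ 4 / 24)) := by
    rw [hs, ht]
    ring
  rw [e] at h
  linarith

theorem ev_four_e04_c0 (u : ℝ) (h1 : -3 ≤ u) (h2 : u ≤ -2) :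
    13534 / 100000 *
      (1 + (u + 2) + (u + 2) ^ 2 / 2 + (u + 2) ^ 3 / 6 + (u + 2) ^ 4 / 24) ≤
      (1 + 1 / 20 + (1 / 20) ^ 2 / 2) * (1 + u + 9 / 25 * u ^ 2) := by
  obtain ⟨s, hs⟩ : ∃ s, s = u - (-3) := ⟨_, rfl⟩
  obtain ⟨t, ht⟩ : ∃ t, t = -2 - u := ⟨_, rfl⟩
  have hs0 : 0 ≤ s := by linarith
  have ht0 : 0 ≤ t := by linarith
  have h : 0 ≤
      501119 / 400000 * t ^ 4 + 280997 / 75000 * s * t ^ 3 +
      406771 / 100000 * s ^ 2 * t ^ 2 + 190673 / 100000 * s ^ 3 * t + 32721 / 100000 * s ^ 4 := by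
    positivity
  have e :
      501119 / 400000 * t ^ 4 + 280997 / 75000 * s * t ^ 3 +
      406771 / 100000 * s ^ 2 * t ^ 2 + 190673 / 100000 * s ^ 3 * t + 32721 / 100000 * s ^ 4 =
      (1 + 1 / 20 + (1 / 20) ^ 2 / 2) * (1 + u + 9 / 25 * u ^ 2) -
      (13534 / 100000 *
      (1 + (u + 2) + (u + 2) ^ 2 / 2 + (u + 2) ^ 3 / 6 + (u + 2) ^ 4 / 24)) := by
    rw [hs, ht]
    ring
  rw [e] at h
  linarith

theorem ev_four_e04_d (u : ℝ) (h2 : u ≤ -3) :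
    4979 / 100000 ≤
      (1 + 1 / 20 + (1 / 20) ^ 2 / 2) * (1 + u + 9 / 25 * u ^ 2) := by
  obtain ⟨s, hs⟩ : ∃ s, s = -3 - u := ⟨_, rfl⟩
  have hs0 : 0 ≤ s := by linarith
  have h : 0 ≤
      3918 / 3125 + 24389 / 20000 * s + 7569 / 20000 * s ^ 2 := by
    positivity
  have e :
      3918 / 3125 + 24389 / 20000 * s + 7569 / 20000 * s ^ 2 =
      (1 + 1 / 20 + (1 / 20) ^ 2 / 2) * (1 + u + 9 / 25 * u ^ 2) -
      (4979 / 100000) := by
    rw [hs]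
    ring
  rw [e] at h
  linarith

theorem ev_four_e04_g0 (u : ℝ) (h1 : 0 ≤ u) (h2 : u ≤ 2) :
    1 * (1 + (u - 0) / 4) ^ 4 ≤
      (1 + 1 / 20 + (1 / 20) ^ 2 / 2) * ((1 + (3 / 100 * u ^ 2) + (3 / 100 * u ^ 2) ^ 2 / 2 +
      (3 / 100 * u ^ 2) ^ 3 / 6) *
      (1 + u + 9 / 25 * u ^ 2)) := by
  obtain ⟨s, hs⟩ : ∃ s, s = u - (0) := ⟨_, rfl⟩
  obtain ⟨t, ht⟩ : ∃ t, t = 2 - u := ⟨_, rfl⟩
  have hs0 : 0 ≤ s := by linarith
  have ht0 : 0 ≤ t := by linarith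
  have h : 0 ≤
      41 / 204800 * t ^ 8 + 41 / 20480 * s * t ^ 7 + 45849 / 5120000 * s ^ 2 * t ^ 6 +
      11229 / 512000 * s ^ 3 * t ^ 5 + 326499 / 10240000 * s ^ 4 * t ^ 4 +
      3650769 / 128000000 * s ^ 5 * t ^ 3 + 100667903 / 6400000000 * s ^ 6 * t ^ 2 +
      16300297 / 3200000000 * s ^ 7 * t + 62533317 / 80000000000 * s ^ 8 := by
    positivity
  have e :
      41 / 204800 * t ^ 8 + 41 / 20480 * s * t ^ 7 + 45849 / 5120000 * s ^ 2 * t ^ 6 +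
      11229 / 512000 * s ^ 3 * t ^ 5 + 326499 / 10240000 * s ^ 4 * t ^ 4 +
      3650769 / 128000000 * s ^ 5 * t ^ 3 + 100667903 / 6400000000 * s ^ 6 * t ^ 2 +
      16300297 / 3200000000 * s ^ 7 * t + 62533317 / 80000000000 * s ^ 8 =
      (1 + 1 / 20 + (1 / 20) ^ 2 / 2) * ((1 + (3 / 100 * u ^ 2) + (3 / 100 * u ^ 2) ^ 2 / 2 +
      (3 / 100 * u ^ 2) ^ 3 / 6) *
      (1 + u + 9 / 25 * u ^ 2)) -
      (1 * (1 + (u - 0) / 4) ^ 4) := by
    rw [hs, ht]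
    ring
  rw [e] at h
  linarith

theorem ev_four_e04_t (u : ℝ) (h1 : 2 ≤ u) :
    1 * (1 + (u - 0) / 4) ^ 4 ≤
      (1 + 1 / 20 + (1 / 20) ^ 2 / 2) * ((1 + (3 / 100 * u ^ 2) + (3 / 100 * u ^ 2) ^ 2 / 2 +
      (3 / 100 * u ^ 2) ^ 3 / 6) *
      (1 + u + 9 / 25 * u ^ 2)) := by
  obtain ⟨s, hs⟩ : ∃ s, s = u - (2) := ⟨_, rfl⟩
  have hs0 : 0 ≤ s := by linarith
  have h : 0 ≤
      62533317 / 312500000 + 92759111 / 625000000 * s + 313459377 / 2500000000 * s ^ 2 +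
      212571927 / 2500000000 * s ^ 3 + 3298111 / 125000000 * s ^ 4 +
      37337877 / 10000000000 * s ^ 5 + 17280027 / 40000000000 * s ^ 6 +
      1279161 / 40000000000 * s ^ 7 + 68121 / 40000000000 * s ^ 8 := by
    positivity
  have e :
      62533317 / 312500000 + 92759111 / 625000000 * s + 313459377 / 2500000000 * s ^ 2 +
      212571927 / 2500000000 * s ^ 3 + 3298111 / 125000000 * s ^ 4 +
      37337877 / 10000000000 * s ^ 5 + 17280027 / 40000000000 * s ^ 6 +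
      1279161 / 40000000000 * s ^ 7 + 68121 / 40000000000 * s ^ 8 =
      (1 + 1 / 20 + (1 / 20) ^ 2 / 2) * ((1 + (3 / 100 * u ^ 2) + (3 / 100 * u ^ 2) ^ 2 / 2 +
      (3 / 100 * u ^ 2) ^ 3 / 6) *
      (1 + u + 9 / 25 * u ^ 2)) -
      (1 * (1 + (u - 0) / 4) ^ 4) := by
    rw [hs]
    ring
  rw [e] at h
  linarith

/-- `K = 4`: `(c, μ, P, δ) = (9 / 25, 3 / 100, 0, 1 / 20)` -/
theorem expFd_four_e04 : ExpFd 4 (9 / 25) (3 / 100) (0) (1 / 20) := by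
  have hde : (1 + 1 / 20 + (1 / 20) ^ 2 / 2) ≤ Real.exp (1 / 20) :=
    Real.quadratic_le_exp_of_nonneg (by norm_num)
  have hq : ∀ u : ℝ, 0 ≤ 1 + u + 9 / 25 * u ^ 2 := fun u => by
    nlinarith [sq_nonneg (u + 2), sq_nonneg u]
  have hR : ∀ (u x y : ℝ), x ≤ y →
      y ≤ (1 + 1 / 20 + (1 / 20) ^ 2 / 2) * (1 + u + 9 / 25 * u ^ 2) →
      x ≤ Real.exp (1 / 20) * (1 + u + 9 / 25 * u ^ 2) := fun u x y h1 h2 =>
    (h1.trans h2).trans (mul_le_mul_of_nonneg_right hde (hq u))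
  refine ExpFd.of (by norm_num) (by norm_num) (by norm_num) (by norm_num) (by norm_num) ?_ ?_ ?_
  · intro u h1
    rcases le_total u (-3) with h3 | h3
    · exact hR u _ _ (ev_exp_n3 h3) (ev_four_e04_d u h3)
    rcases le_total u (-2) with h4 | h4
    · refine hR u _ _ (ev_exp_n2 h4) ?_
      exact ev_four_e04_c0 u (by linarith) (by linarith)
    rcases le_total u (-1) with h5 | h5
    · refine hR u _ _ (ev_exp_n1 h5) ?_
      exact ev_four_e04_b0 u (by linarith) (by linarith)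
    refine hR u _ _ (ev_exp_n0 h1) ?_
    rcases le_total u (-7 / 8) with hh | hh
    · exact ev_four_e04_a0 u (by linarith) (by linarith)
    rcases le_total u (-3 / 4) with hh | hh
    · exact ev_four_e04_a1 u (by linarith) (by linarith)
    rcases le_total u (-1 / 2) with hh | hh
    · exact ev_four_e04_a2 u (by linarith) (by linarith)
    exact ev_four_e04_a3 u (by linarith) (by linarith)
  · intro u h1 h2
    have h7 : u = 0 := le_antisymm h2 h1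
    rw [h7, Real.exp_zero]
    have := Real.add_one_le_exp ((1 / 20 : ℝ) + 3 / 100 * 0 ^ 2)
    linarith
  · intro u h1
    have h4 : 0 ≤ (1 + (u - 0) / 4) ^ 4 := by
      have : 0 ≤ (u - 0) / 4 := div_nonneg (by linarith) (by norm_num)
      positivity
    have hE : Real.exp (0) ≤ 1 := Real.exp_zero.le
    have hx : 0 ≤ 3 / 100 * u ^ 2 := by positivity
    have h5 := mul_le_mul_of_nonneg_right (taylor3_le_expE _ hx) (hq u)
    have h6 : 0 ≤ Real.exp (3 / 100 * u ^ 2) * (1 + u + 9 / 25 * u ^ 2) :=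
      mul_nonneg (Real.exp_nonneg _) (hq u)
    rw [Real.exp_add, mul_assoc]
    push_cast
    refine ((mul_le_mul_of_nonneg_right hE h4).trans ?_).trans
      ((mul_le_mul_of_nonneg_left h5
        (by norm_num : (0 : ℝ) ≤ (1 + 1 / 20 + (1 / 20) ^ 2 / 2))).trans
        (mul_le_mul_of_nonneg_right hde h6))
    rcases le_total u (2) with hh | hh
    · exact ev_four_e04_g0 u (by linarith) (by linarith)
    exact ev_four_e04_t u (by linarith)

theorem ev_four_e05_a0 (u : ℝ) (h1 : -1 ≤ u) (h2 : u ≤ 0) :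
    1 + u + u ^ 2 / 2 + u ^ 3 / 6 + u ^ 4 / 24 ≤
      (1 + 1 / 10 + (1 / 10) ^ 2 / 2) * (1 + u + 17 / 50 * u ^ 2) := by
  obtain ⟨s, hs⟩ : ∃ s, s = u - (-1) := ⟨_, rfl⟩
  obtain ⟨t, ht⟩ : ∃ t, t = 0 - u := ⟨_, rfl⟩
  have hs0 : 0 ≤ s := by linarith
  have ht0 : 0 ≤ t := by linarith
  have h : 0 ≤
      7 / 10000 * t ^ 4 + 173 / 7500 * s * t ^ 3 + 1907 / 10000 * s ^ 2 * t ^ 2 +
      63 / 200 * s ^ 3 * t + 21 / 200 * s ^ 4 := by
    positivity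
  have e :
      7 / 10000 * t ^ 4 + 173 / 7500 * s * t ^ 3 + 1907 / 10000 * s ^ 2 * t ^ 2 +
      63 / 200 * s ^ 3 * t + 21 / 200 * s ^ 4 =
      (1 + 1 / 10 + (1 / 10) ^ 2 / 2) * (1 + u + 17 / 50 * u ^ 2) -
      (1 + u + u ^ 2 / 2 + u ^ 3 / 6 + u ^ 4 / 24) := by
    rw [hs, ht]
    ring
  rw [e] at h
  linarith

theorem ev_four_e05_b0 (u : ℝ) (h1 : -2 ≤ u) (h2 : u ≤ -1) :
    36788 / 100000 *
      (1 + (u + 1) + (u + 1) ^ 2 / 2 + (u + 1) ^ 3 / 6 + (u + 1) ^ 4 / 24) ≤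
      (1 + 1 / 10 + (1 / 10) ^ 2 / 2) * (1 + u + 17 / 50 * u ^ 2) := by
  obtain ⟨s, hs⟩ : ∃ s, s = u - (-2) := ⟨_, rfl⟩
  obtain ⟨t, ht⟩ : ∃ t, t = -1 - u := ⟨_, rfl⟩
  have hs0 : 0 ≤ s := by linarith
  have ht0 : 0 ≤ t := by linarith
  have h : 0 ≤
      51969 / 200000 * t ^ 4 + 77843 / 150000 * s * t ^ 3 + 3519 / 12500 * s ^ 2 * t ^ 2 +
      1139 / 25000 * s ^ 3 * t + 391 / 50000 * s ^ 4 := by
    positivity
  have e :
      51969 / 200000 * t ^ 4 + 77843 / 150000 * s * t ^ 3 + 3519 / 12500 * s ^ 2 * t ^ 2 +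
      1139 / 25000 * s ^ 3 * t + 391 / 50000 * s ^ 4 =
      (1 + 1 / 10 + (1 / 10) ^ 2 / 2) * (1 + u + 17 / 50 * u ^ 2) -
      (36788 / 100000 *
      (1 + (u + 1) + (u + 1) ^ 2 / 2 + (u + 1) ^ 3 / 6 + (u + 1) ^ 4 / 24)) := by
    rw [hs, ht]
    ring
  rw [e] at h
  linarith

theorem ev_four_e05_c0 (u : ℝ) (h1 : -3 ≤ u) (h2 : u ≤ -2) :
    13534 / 100000 *
      (1 + (u + 2) + (u + 2) ^ 2 / 2 + (u + 2) ^ 3 / 6 + (u + 2) ^ 4 / 24) ≤
      (1 + 1 / 10 + (1 / 10) ^ 2 / 2) * (1 + u + 17 / 50 * u ^ 2) := by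
  obtain ⟨s, hs⟩ : ∃ s, s = u - (-3) := ⟨_, rfl⟩
  obtain ⟨t, ht⟩ : ∃ t, t = -2 - u := ⟨_, rfl⟩
  have hs0 : 0 ≤ s := by linarith
  have ht0 : 0 ≤ t := by linarith
  have h : 0 ≤
      448219 / 400000 * t ^ 4 + 986363 / 300000 * s * t ^ 3 +
      348221 / 100000 * s ^ 2 * t ^ 2 + 79149 / 50000 * s ^ 3 * t + 13123 / 50000 * s ^ 4 := by
    positivity
  have e :
      448219 / 400000 * t ^ 4 + 986363 / 300000 * s * t ^ 3 +
      348221 / 100000 * s ^ 2 * t ^ 2 + 79149 / 50000 * s ^ 3 * t + 13123 / 50000 * s ^ 4 =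
      (1 + 1 / 10 + (1 / 10) ^ 2 / 2) * (1 + u + 17 / 50 * u ^ 2) -
      (13534 / 100000 *
      (1 + (u + 2) + (u + 2) ^ 2 / 2 + (u + 2) ^ 3 / 6 + (u + 2) ^ 4 / 24)) := by
    rw [hs, ht]
    ring
  rw [e] at h
  linarith

theorem ev_four_e05_d (u : ℝ) (h2 : u ≤ -3) :
    4979 / 100000 ≤
      (1 + 1 / 10 + (1 / 10) ^ 2 / 2) * (1 + u + 17 / 50 * u ^ 2) := by
  obtain ⟨s, hs⟩ : ∃ s, s = -3 - u := ⟨_, rfl⟩
  have hs0 : 0 ≤ s := by linarith
  have h : 0 ≤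
      112151 / 100000 + 2873 / 2500 * s + 3757 / 10000 * s ^ 2 := by
    positivity
  have e :
      112151 / 100000 + 2873 / 2500 * s + 3757 / 10000 * s ^ 2 =
      (1 + 1 / 10 + (1 / 10) ^ 2 / 2) * (1 + u + 17 / 50 * u ^ 2) -
      (4979 / 100000) := by
    rw [hs]
    ring
  rw [e] at h
  linarith

theorem ev_four_e05_g0 (u : ℝ) (h1 : 0 ≤ u) (h2 : u ≤ 2) :
    1 * (1 + (u - 0) / 4) ^ 4 ≤
      (1 + 1 / 10 + (1 / 10) ^ 2 / 2) * ((1 + (1 / 25 * u ^ 2) + (1 / 25 * u ^ 2) ^ 2 / 2 +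
      (1 / 25 * u ^ 2) ^ 3 / 6) *
      (1 + u + 17 / 50 * u ^ 2)) := by
  obtain ⟨s, hs⟩ : ∃ s, s = u - (0) := ⟨_, rfl⟩
  obtain ⟨t, ht⟩ : ∃ t, t = 2 - u := ⟨_, rfl⟩
  have hs0 : 0 ≤ s := by linarith
  have ht0 : 0 ≤ t := by linarith
  have h : 0 ≤
      21 / 51200 * t ^ 8 + 21 / 5120 * s * t ^ 7 + 5737 / 320000 * s ^ 2 * t ^ 6 +
      28053 / 640000 * s ^ 3 * t ^ 5 + 4213523 / 64000000 * s ^ 4 * t ^ 4 +
      504833 / 8000000 * s ^ 5 * t ^ 3 + 92225683 / 2400000000 * s ^ 6 * t ^ 2 +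
      1664213 / 120000000 * s ^ 7 * t + 277080371 / 120000000000 * s ^ 8 := by
    positivity
  have e :
      21 / 51200 * t ^ 8 + 21 / 5120 * s * t ^ 7 + 5737 / 320000 * s ^ 2 * t ^ 6 +
      28053 / 640000 * s ^ 3 * t ^ 5 + 4213523 / 64000000 * s ^ 4 * t ^ 4 +
      504833 / 8000000 * s ^ 5 * t ^ 3 + 92225683 / 2400000000 * s ^ 6 * t ^ 2 +
      1664213 / 120000000 * s ^ 7 * t + 277080371 / 120000000000 * s ^ 8 =
      (1 + 1 / 10 + (1 / 10) ^ 2 / 2) * ((1 + (1 / 25 * u ^ 2) + (1 / 25 * u ^ 2) ^ 2 / 2 +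
      (1 / 25 * u ^ 2) ^ 3 / 6) *
      (1 + u + 17 / 50 * u ^ 2)) -
      (1 * (1 + (u - 0) / 4) ^ 4) := by
    rw [hs, ht]
    ring
  rw [e] at h
  linarith

theorem ev_four_e05_t (u : ℝ) (h1 : 2 ≤ u) :
    1 * (1 + (u - 0) / 4) ^ 4 ≤
      (1 + 1 / 10 + (1 / 10) ^ 2 / 2) * ((1 + (1 / 25 * u ^ 2) + (1 / 25 * u ^ 2) ^ 2 / 2 +
      (1 / 25 * u ^ 2) ^ 3 / 6) *
      (1 + u + 17 / 50 * u ^ 2)) := by
  obtain ⟨s, hs⟩ : ∃ s, s = u - (2) := ⟨_, rfl⟩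
  have hs0 : 0 ≤ s := by linarith
  have h : 0 ≤
      277080371 / 468750000 + 34526873 / 58593750 * s + 360021769 / 937500000 * s ^ 2 +
      165809419 / 937500000 * s ^ 3 + 71062769 / 1500000000 * s ^ 4 +
      3476993 / 468750000 * s ^ 5 + 868309 / 937500000 * s ^ 6 + 35581 / 468750000 * s ^ 7 +
      3757 / 937500000 * s ^ 8 := by
    positivity
  have e :
      277080371 / 468750000 + 34526873 / 58593750 * s + 360021769 / 937500000 * s ^ 2 +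
      165809419 / 937500000 * s ^ 3 + 71062769 / 1500000000 * s ^ 4 +
      3476993 / 468750000 * s ^ 5 + 868309 / 937500000 * s ^ 6 + 35581 / 468750000 * s ^ 7 +
      3757 / 937500000 * s ^ 8 =
      (1 + 1 / 10 + (1 / 10) ^ 2 / 2) * ((1 + (1 / 25 * u ^ 2) + (1 / 25 * u ^ 2) ^ 2 / 2 +
      (1 / 25 * u ^ 2) ^ 3 / 6) *
      (1 + u + 17 / 50 * u ^ 2)) -
      (1 * (1 + (u - 0) / 4) ^ 4) := by
    rw [hs]
    ring
  rw [e] at h
  linarith

/-- `K = 4`: `(c, μ, P, δ) = (17 / 50, 1 / 25, 0, 1 / 10)` -/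
theorem expFd_four_e05 : ExpFd 4 (17 / 50) (1 / 25) (0) (1 / 10) := by
  have hde : (1 + 1 / 10 + (1 / 10) ^ 2 / 2) ≤ Real.exp (1 / 10) :=
    Real.quadratic_le_exp_of_nonneg (by norm_num)
  have hq : ∀ u : ℝ, 0 ≤ 1 + u + 17 / 50 * u ^ 2 := fun u => by
    nlinarith [sq_nonneg (u + 2), sq_nonneg u]
  have hR : ∀ (u x y : ℝ), x ≤ y →
      y ≤ (1 + 1 / 10 + (1 / 10) ^ 2 / 2) * (1 + u + 17 / 50 * u ^ 2) →
      x ≤ Real.exp (1 / 10) * (1 + u + 17 / 50 * u ^ 2) := fun u x y h1 h2 =>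
    (h1.trans h2).trans (mul_le_mul_of_nonneg_right hde (hq u))
  refine ExpFd.of (by norm_num) (by norm_num) (by norm_num) (by norm_num) (by norm_num) ?_ ?_ ?_
  · intro u h1
    rcases le_total u (-3) with h3 | h3
    · exact hR u _ _ (ev_exp_n3 h3) (ev_four_e05_d u h3)
    rcases le_total u (-2) with h4 | h4
    · refine hR u _ _ (ev_exp_n2 h4) ?_
      exact ev_four_e05_c0 u (by linarith) (by linarith)
    rcases le_total u (-1) with h5 | h5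
    · refine hR u _ _ (ev_exp_n1 h5) ?_
      exact ev_four_e05_b0 u (by linarith) (by linarith)
    refine hR u _ _ (ev_exp_n0 h1) ?_
    exact ev_four_e05_a0 u (by linarith) (by linarith)
  · intro u h1 h2
    have h7 : u = 0 := le_antisymm h2 h1
    rw [h7, Real.exp_zero]
    have := Real.add_one_le_exp ((1 / 10 : ℝ) + 1 / 25 * 0 ^ 2)
    linarith
  · intro u h1
    have h4 : 0 ≤ (1 + (u - 0) / 4) ^ 4 := by
      have : 0 ≤ (u - 0) / 4 := div_nonneg (by linarith) (by norm_num)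
      positivity
    have hE : Real.exp (0) ≤ 1 := Real.exp_zero.le
    have hx : 0 ≤ 1 / 25 * u ^ 2 := by positivity
    have h5 := mul_le_mul_of_nonneg_right (taylor3_le_expE _ hx) (hq u)
    have h6 : 0 ≤ Real.exp (1 / 25 * u ^ 2) * (1 + u + 17 / 50 * u ^ 2) :=
      mul_nonneg (Real.exp_nonneg _) (hq u)
    rw [Real.exp_add, mul_assoc]
    push_cast
    refine ((mul_le_mul_of_nonneg_right hE h4).trans ?_).trans
      ((mul_le_mul_of_nonneg_left h5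
        (by norm_num : (0 : ℝ) ≤ (1 + 1 / 10 + (1 / 10) ^ 2 / 2))).trans
        (mul_le_mul_of_nonneg_right hde h6))
    rcases le_total u (2) with hh | hh
    · exact ev_four_e05_g0 u (by linarith) (by linarith)
    exact ev_four_e05_t u (by linarith)

theorem ev_four_e10_a0 (u : ℝ) (h1 : -1 ≤ u) (h2 : u ≤ -1 / 2) :
    1 + u + u ^ 2 / 2 + u ^ 3 / 6 + u ^ 4 / 24 ≤
      (1 + 1 / 500 + (1 / 500) ^ 2 / 2) * (1 + u + 463 / 1000 * u ^ 2) := by
  obtain ⟨s, hs⟩ : ∃ s, s = u - (-1) := ⟨_, rfl⟩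
  obtain ⟨t, ht⟩ : ∃ t, t = -1 / 2 - u := ⟨_, rfl⟩
  have hs0 : 0 ≤ s := by linarith
  have ht0 : 0 ≤ t := by linarith
  have h : 0 ≤
      44463463 / 31250000 * t ^ 4 + 339172667 / 93750000 * s * t ^ 3 +
      396531019 / 125000000 * s ^ 2 * t ^ 2 + 73893389 / 62500000 * s ^ 3 * t +
      61271389 / 375000000 * s ^ 4 := by
    positivity
  have e :
      44463463 / 31250000 * t ^ 4 + 339172667 / 93750000 * s * t ^ 3 +
      396531019 / 125000000 * s ^ 2 * t ^ 2 + 73893389 / 62500000 * s ^ 3 * t +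
      61271389 / 375000000 * s ^ 4 =
      (1 + 1 / 500 + (1 / 500) ^ 2 / 2) * (1 + u + 463 / 1000 * u ^ 2) -
      (1 + u + u ^ 2 / 2 + u ^ 3 / 6 + u ^ 4 / 24) := by
    rw [hs, ht]
    ring
  rw [e] at h
  linarith

theorem ev_four_e10_a1 (u : ℝ) (h1 : -1 / 2 ≤ u) (h2 : u ≤ -1 / 4) :
    1 + u + u ^ 2 / 2 + u ^ 3 / 6 + u ^ 4 / 24 ≤
      (1 + 1 / 500 + (1 / 500) ^ 2 / 2) * (1 + u + 463 / 1000 * u ^ 2) := by
  obtain ⟨s, hs⟩ : ∃ s, s = u - (-1 / 2) := ⟨_, rfl⟩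
  obtain ⟨t, ht⟩ : ∃ t, t = -1 / 4 - u := ⟨_, rfl⟩
  have hs0 : 0 ≤ s := by linarith
  have ht0 : 0 ≤ t := by linarith
  have h : 0 ≤
      61271389 / 23437500 * t ^ 4 + 48649389 / 7812500 * s * t ^ 3 +
      169335019 / 31250000 * s ^ 2 * t ^ 2 + 106862167 / 46875000 * s ^ 3 * t +
      13506713 / 31250000 * s ^ 4 := by
    positivity
  have e :
      61271389 / 23437500 * t ^ 4 + 48649389 / 7812500 * s * t ^ 3 +
      169335019 / 31250000 * s ^ 2 * t ^ 2 + 106862167 / 46875000 * s ^ 3 * t +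
      13506713 / 31250000 * s ^ 4 =
      (1 + 1 / 500 + (1 / 500) ^ 2 / 2) * (1 + u + 463 / 1000 * u ^ 2) -
      (1 + u + u ^ 2 / 2 + u ^ 3 / 6 + u ^ 4 / 24) := by
    rw [hs, ht]
    ring
  rw [e] at h
  linarith

theorem ev_four_e10_a2 (u : ℝ) (h1 : -1 / 4 ≤ u) (h2 : u ≤ 0) :
    1 + u + u ^ 2 / 2 + u ^ 3 / 6 + u ^ 4 / 24 ≤
      (1 + 1 / 500 + (1 / 500) ^ 2 / 2) * (1 + u + 463 / 1000 * u ^ 2) := by
  obtain ⟨s, hs⟩ : ∃ s, s = u - (-1 / 4) := ⟨_, rfl⟩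
  obtain ⟨t, ht⟩ : ∃ t, t = 0 - u := ⟨_, rfl⟩
  have hs0 : 0 ≤ s := by linarith
  have ht0 : 0 ≤ t := by linarith
  have h : 0 ≤
      13506713 / 31250000 * t ^ 4 + 55218389 / 46875000 * s * t ^ 3 +
      66047463 / 31250000 * s ^ 2 * t ^ 2 + 6006 / 3125 * s ^ 3 * t + 8008 / 15625 * s ^ 4 := by
    positivity
  have e :
      13506713 / 31250000 * t ^ 4 + 55218389 / 46875000 * s * t ^ 3 +
      66047463 / 31250000 * s ^ 2 * t ^ 2 + 6006 / 3125 * s ^ 3 * t + 8008 / 15625 * s ^ 4 =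
      (1 + 1 / 500 + (1 / 500) ^ 2 / 2) * (1 + u + 463 / 1000 * u ^ 2) -
      (1 + u + u ^ 2 / 2 + u ^ 3 / 6 + u ^ 4 / 24) := by
    rw [hs, ht]
    ring
  rw [e] at h
  linarith

theorem ev_four_e10_b0 (u : ℝ) (h1 : -2 ≤ u) (h2 : u ≤ -1) :
    36788 / 100000 *
      (1 + (u + 1) + (u + 1) ^ 2 / 2 + (u + 1) ^ 3 / 6 + (u + 1) ^ 4 / 24) ≤
      (1 + 1 / 500 + (1 / 500) ^ 2 / 2) * (1 + u + 463 / 1000 * u ^ 2) := by
  obtain ⟨s, hs⟩ : ∃ s, s = u - (-2) := ⟨_, rfl⟩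
  obtain ⟨t, ht⟩ : ∃ t, t = -1 - u := ⟨_, rfl⟩
  have hs0 : 0 ≤ s := by linarith
  have ht0 : 0 ≤ t := by linarith
  have h : 0 ≤
      44734419 / 62500000 * t ^ 4 + 707501417 / 375000000 * s * t ^ 3 +
      868732019 / 500000000 * s ^ 2 * t ^ 2 + 169479889 / 250000000 * s ^ 3 * t +
      48023463 / 500000000 * s ^ 4 := by
    positivity
  have e :
      44734419 / 62500000 * t ^ 4 + 707501417 / 375000000 * s * t ^ 3 +
      868732019 / 500000000 * s ^ 2 * t ^ 2 + 169479889 / 250000000 * s ^ 3 * t +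
      48023463 / 500000000 * s ^ 4 =
      (1 + 1 / 500 + (1 / 500) ^ 2 / 2) * (1 + u + 463 / 1000 * u ^ 2) -
      (36788 / 100000 *
      (1 + (u + 1) + (u + 1) ^ 2 / 2 + (u + 1) ^ 3 / 6 + (u + 1) ^ 4 / 24)) := by
    rw [hs, ht]
    ring
  rw [e] at h
  linarith

theorem ev_four_e10_c0 (u : ℝ) (h1 : -3 ≤ u) (h2 : u ≤ -2) :
    13534 / 100000 *
      (1 + (u + 2) + (u + 2) ^ 2 / 2 + (u + 2) ^ 3 / 6 + (u + 2) ^ 4 / 24) ≤
      (1 + 1 / 500 + (1 / 500) ^ 2 / 2) * (1 + u + 463 / 1000 * u ^ 2) := by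
  obtain ⟨s, hs⟩ : ∃ s, s = u - (-3) := ⟨_, rfl⟩
  obtain ⟨t, ht⟩ : ∃ t, t = -2 - u := ⟨_, rfl⟩
  have hs0 : 0 ≤ s := by linarith
  have ht0 : 0 ≤ t := by linarith
  have h : 0 ≤
      1060292917 / 500000000 * t ^ 4 + 998350567 / 150000000 * s * t ^ 3 +
      3836794131 / 500000000 * s ^ 2 * t ^ 2 + 96562713 / 25000000 * s ^ 3 * t +
      89795713 / 125000000 * s ^ 4 := by
    positivity
  have e :
      1060292917 / 500000000 * t ^ 4 + 998350567 / 150000000 * s * t ^ 3 +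
      3836794131 / 500000000 * s ^ 2 * t ^ 2 + 96562713 / 25000000 * s ^ 3 * t +
      89795713 / 125000000 * s ^ 4 =
      (1 + 1 / 500 + (1 / 500) ^ 2 / 2) * (1 + u + 463 / 1000 * u ^ 2) -
      (13534 / 100000 *
      (1 + (u + 2) + (u + 2) ^ 2 / 2 + (u + 2) ^ 3 / 6 + (u + 2) ^ 4 / 24)) := by
    rw [hs, ht]
    ring
  rw [e] at h
  linarith

theorem ev_four_e10_d (u : ℝ) (h2 : u ≤ -3) :
    4979 / 100000 ≤
      (1 + 1 / 500 + (1 / 500) ^ 2 / 2) * (1 + u + 463 / 1000 * u ^ 2) := by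
  obtain ⟨s, hs⟩ : ∃ s, s = -3 - u := ⟨_, rfl⟩
  have hs0 : 0 ≤ s := by linarith
  have h : 0 ≤
      1060774167 / 500000000 + 445389889 / 250000000 * s + 231963463 / 500000000 * s ^ 2 := by
    positivity
  have e :
      1060774167 / 500000000 + 445389889 / 250000000 * s + 231963463 / 500000000 * s ^ 2 =
      (1 + 1 / 500 + (1 / 500) ^ 2 / 2) * (1 + u + 463 / 1000 * u ^ 2) -
      (4979 / 100000) := by
    rw [hs]
    ring
  rw [e] at h
  linarith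

theorem ev_four_e10_e0 (u : ℝ) (h1 : 0 ≤ u) (h2 : u ≤ 1 / 10) :
    1 + u + u ^ 2 / 2 + u ^ 3 / 6 + u ^ 4 / 24 + u ^ 5 / 100 ≤
      (1 + 1 / 500 + (1 / 500) ^ 2 / 2) * ((1 + 1 / 50 * u ^ 2) *
      (1 + u + 463 / 1000 * u ^ 2)) := by
  obtain ⟨s, hs⟩ : ∃ s, s = u - (0) := ⟨_, rfl⟩
  obtain ⟨t, ht⟩ : ∃ t, t = 1 / 10 - u := ⟨_, rfl⟩
  have hs0 : 0 ≤ s := by linarith
  have ht0 : 0 ≤ t := by linarith
  have h : 0 ≤
      1001 / 5 * t ^ 5 + 51051 / 50 * s * t ^ 4 + 1033023483 / 500000 * s ^ 2 * t ^ 3 +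
      3089037353 / 1500000 * s ^ 3 * t ^ 2 + 2508329228463 / 2500000000 * s ^ 4 * t +
      1418928165389 / 7500000000 * s ^ 5 := by
    positivity
  have e :
      1001 / 5 * t ^ 5 + 51051 / 50 * s * t ^ 4 + 1033023483 / 500000 * s ^ 2 * t ^ 3 +
      3089037353 / 1500000 * s ^ 3 * t ^ 2 + 2508329228463 / 2500000000 * s ^ 4 * t +
      1418928165389 / 7500000000 * s ^ 5 =
      (1 + 1 / 500 + (1 / 500) ^ 2 / 2) * ((1 + 1 / 50 * u ^ 2) *
      (1 + u + 463 / 1000 * u ^ 2)) -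
      (1 + u + u ^ 2 / 2 + u ^ 3 / 6 + u ^ 4 / 24 + u ^ 5 / 100) := by
    rw [hs, ht]
    ring
  rw [e] at h
  linarith

theorem ev_four_e10_g0 (u : ℝ) (h1 : 1 / 10 ≤ u) (h2 : u ≤ 31 / 20) :
    55259 / 50000 * (1 + (u - 1 / 10) / 4) ^ 4 ≤
      (1 + 1 / 500 + (1 / 500) ^ 2 / 2) * ((1 + (1 / 50 * u ^ 2) + (1 / 50 * u ^ 2) ^ 2 / 2 +
      (1 / 50 * u ^ 2) ^ 3 / 6) *
      (1 + u + 463 / 1000 * u ^ 2)) := by
  obtain ⟨s, hs⟩ : ∃ s, s = u - (1 / 10) := ⟨_, rfl⟩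
  obtain ⟨t, ht⟩ : ∃ t, t = 31 / 20 - u := ⟨_, rfl⟩
  have hs0 : 0 ≤ s := by linarith
  have ht0 : 0 ≤ t := by linarith
  have h : 0 ≤
      23535746151964672821 / 244260943828613281250000 * t ^ 8 +
      21037721112881569951 / 61065235957153320312500 * s * t ^ 7 +
      5790755547459096836851 / 732782831485839843750000 * s ^ 2 * t ^ 6 +
      9409101138595533584127 / 244260943828613281250000 * s ^ 3 * t ^ 5 +
      31489680106296240356687 / 390817510125781250000000 * s ^ 4 * t ^ 4 +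
      259578636717703400154391 / 2931131325943359375000000 * s ^ 5 * t ^ 3 +
      209037177081922953059957 / 3908175101257812500000000 * s ^ 6 * t ^ 2 +
      65515709124026137913381 / 3908175101257812500000000 * s ^ 7 * t +
      399380556327983189818183 / 187592404860375000000000000 * s ^ 8 := by
    positivity
  have e :
      23535746151964672821 / 244260943828613281250000 * t ^ 8 +
      21037721112881569951 / 61065235957153320312500 * s * t ^ 7 +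
      5790755547459096836851 / 732782831485839843750000 * s ^ 2 * t ^ 6 +
      9409101138595533584127 / 244260943828613281250000 * s ^ 3 * t ^ 5 +
      31489680106296240356687 / 390817510125781250000000 * s ^ 4 * t ^ 4 +
      259578636717703400154391 / 2931131325943359375000000 * s ^ 5 * t ^ 3 +
      209037177081922953059957 / 3908175101257812500000000 * s ^ 6 * t ^ 2 +
      65515709124026137913381 / 3908175101257812500000000 * s ^ 7 * t +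
      399380556327983189818183 / 187592404860375000000000000 * s ^ 8 =
      (1 + 1 / 500 + (1 / 500) ^ 2 / 2) * ((1 + (1 / 50 * u ^ 2) + (1 / 50 * u ^ 2) ^ 2 / 2 +
      (1 / 50 * u ^ 2) ^ 3 / 6) *
      (1 + u + 463 / 1000 * u ^ 2)) -
      (55259 / 50000 * (1 + (u - 1 / 10) / 4) ^ 4) := by
    rw [hs, ht]
    ring
  rw [e] at h
  linarith

theorem ev_four_e10_g1 (u : ℝ) (h1 : 31 / 20 ≤ u) (h2 : u ≤ 3) :
    55259 / 50000 * (1 + (u - 1 / 10) / 4) ^ 4 ≤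
      (1 + 1 / 500 + (1 / 500) ^ 2 / 2) * ((1 + (1 / 50 * u ^ 2) + (1 / 50 * u ^ 2) ^ 2 / 2 +
      (1 / 50 * u ^ 2) ^ 3 / 6) *
      (1 + u + 463 / 1000 * u ^ 2)) := by
  obtain ⟨s, hs⟩ : ∃ s, s = u - (31 / 20) := ⟨_, rfl⟩
  obtain ⟨t, ht⟩ : ∃ t, t = 3 - u := ⟨_, rfl⟩
  have hs0 : 0 ≤ s := by linarith
  have ht0 : 0 ≤ t := by linarith
  have h : 0 ≤
      399380556327983189818183 / 187592404860375000000000000 * t ^ 8 +
      5070835723897619401951 / 293113132594335937500000 * s * t ^ 7 +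
      13422312846651067910903 / 234490506075468750000000 * s ^ 2 * t ^ 6 +
      193286784334559211713 / 1954087550628906250000 * s ^ 3 * t ^ 5 +
      7411200586691667969 / 78163502025156250000 * s ^ 4 * t ^ 4 +
      479483729765992569 / 9770437753144531250 * s ^ 5 * t ^ 3 +
      24659516898997719 / 1954087550628906250 * s ^ 6 * t ^ 2 +
      408542510323334 / 195408755062890625 * s ^ 7 * t +
      22467657439021 / 39081751012578125 * s ^ 8 := by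
    positivity
  have e :
      399380556327983189818183 / 187592404860375000000000000 * t ^ 8 +
      5070835723897619401951 / 293113132594335937500000 * s * t ^ 7 +
      13422312846651067910903 / 234490506075468750000000 * s ^ 2 * t ^ 6 +
      193286784334559211713 / 1954087550628906250000 * s ^ 3 * t ^ 5 +
      7411200586691667969 / 78163502025156250000 * s ^ 4 * t ^ 4 +
      479483729765992569 / 9770437753144531250 * s ^ 5 * t ^ 3 +
      24659516898997719 / 1954087550628906250 * s ^ 6 * t ^ 2 +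
      408542510323334 / 195408755062890625 * s ^ 7 * t +
      22467657439021 / 39081751012578125 * s ^ 8 =
      (1 + 1 / 500 + (1 / 500) ^ 2 / 2) * ((1 + (1 / 50 * u ^ 2) + (1 / 50 * u ^ 2) ^ 2 / 2 +
      (1 / 50 * u ^ 2) ^ 3 / 6) *
      (1 + u + 463 / 1000 * u ^ 2)) -
      (55259 / 50000 * (1 + (u - 1 / 10) / 4) ^ 4) := by
    rw [hs, ht]
    ring
  rw [e] at h
  linarith

theorem ev_four_e10_t (u : ℝ) (h1 : 3 ≤ u) :
    55259 / 50000 * (1 + (u - 1 / 10) / 4) ^ 4 ≤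
      (1 + 1 / 500 + (1 / 500) ^ 2 / 2) * ((1 + (1 / 50 * u ^ 2) + (1 / 50 * u ^ 2) ^ 2 / 2 +
      (1 / 50 * u ^ 2) ^ 3 / 6) *
      (1 + u + 463 / 1000 * u ^ 2)) := by
  obtain ⟨s, hs⟩ : ∃ s, s = u - (3) := ⟨_, rfl⟩
  have hs0 : 0 ≤ s := by linarith
  have h : 0 ≤
      22467657439021 / 2000000000000000 + 8451099779957 / 250000000000000 * s +
      32718503675379 / 250000000000000 * s ^ 2 + 5981358215209 / 62500000000000 * s ^ 3 +
      641100824689 / 25000000000000 * s ^ 4 + 96323955263 / 31250000000000 * s ^ 5 +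
      52135667063 / 187500000000000 * s ^ 6 + 379257757 / 23437500000000 * s ^ 7 +
      231963463 / 375000000000000 * s ^ 8 := by
    positivity
  have e :
      22467657439021 / 2000000000000000 + 8451099779957 / 250000000000000 * s +
      32718503675379 / 250000000000000 * s ^ 2 + 5981358215209 / 62500000000000 * s ^ 3 +
      641100824689 / 25000000000000 * s ^ 4 + 96323955263 / 31250000000000 * s ^ 5 +
      52135667063 / 187500000000000 * s ^ 6 + 379257757 / 23437500000000 * s ^ 7 +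
      231963463 / 375000000000000 * s ^ 8 =
      (1 + 1 / 500 + (1 / 500) ^ 2 / 2) * ((1 + (1 / 50 * u ^ 2) + (1 / 50 * u ^ 2) ^ 2 / 2 +
      (1 / 50 * u ^ 2) ^ 3 / 6) *
      (1 + u + 463 / 1000 * u ^ 2)) -
      (55259 / 50000 * (1 + (u - 1 / 10) / 4) ^ 4) := by
    rw [hs]
    ring
  rw [e] at h
  linarith

/-- `K = 4`: `(c, μ, P, δ) = (463 / 1000, 1 / 50, 1 / 10, 1 / 500)` -/
theorem expFd_four_e10 : ExpFd 4 (463 / 1000) (1 / 50) (1 / 10) (1 / 500) := by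
  have hde : (1 + 1 / 500 + (1 / 500) ^ 2 / 2) ≤ Real.exp (1 / 500) :=
    Real.quadratic_le_exp_of_nonneg (by norm_num)
  have hq : ∀ u : ℝ, 0 ≤ 1 + u + 463 / 1000 * u ^ 2 := fun u => by
    nlinarith [sq_nonneg (u + 2), sq_nonneg u]
  have hR : ∀ (u x y : ℝ), x ≤ y →
      y ≤ (1 + 1 / 500 + (1 / 500) ^ 2 / 2) * (1 + u + 463 / 1000 * u ^ 2) →
      x ≤ Real.exp (1 / 500) * (1 + u + 463 / 1000 * u ^ 2) := fun u x y h1 h2 =>
    (h1.trans h2).trans (mul_le_mul_of_nonneg_right hde (hq u))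
  refine ExpFd.of (by norm_num) (by norm_num) (by norm_num) (by norm_num) (by norm_num) ?_ ?_ ?_
  · intro u h1
    rcases le_total u (-3) with h3 | h3
    · exact hR u _ _ (ev_exp_n3 h3) (ev_four_e10_d u h3)
    rcases le_total u (-2) with h4 | h4
    · refine hR u _ _ (ev_exp_n2 h4) ?_
      exact ev_four_e10_c0 u (by linarith) (by linarith)
    rcases le_total u (-1) with h5 | h5
    · refine hR u _ _ (ev_exp_n1 h5) ?_
      exact ev_four_e10_b0 u (by linarith) (by linarith)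
    refine hR u _ _ (ev_exp_n0 h1) ?_
    rcases le_total u (-1 / 2) with hh | hh
    · exact ev_four_e10_a0 u (by linarith) (by linarith)
    rcases le_total u (-1 / 4) with hh | hh
    · exact ev_four_e10_a1 u (by linarith) (by linarith)
    exact ev_four_e10_a2 u (by linarith) (by linarith)
  · intro u h1 h2
    have h5 := mul_le_mul_of_nonneg_right (Real.add_one_le_exp (1 / 50 * u ^ 2)) (hq u)
    rw [add_comm (1 / 50 * u ^ 2) 1] at h5
    have h6 : 0 ≤ Real.exp (1 / 50 * u ^ 2) * (1 + u + 463 / 1000 * u ^ 2) :=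
      mul_nonneg (Real.exp_nonneg _) (hq u)
    rw [Real.exp_add, mul_assoc]
    refine ((ev_exp_p h1 (by linarith)).trans ?_).trans
      ((mul_le_mul_of_nonneg_left h5
        (by norm_num : (0 : ℝ) ≤ (1 + 1 / 500 + (1 / 500) ^ 2 / 2))).trans
        (mul_le_mul_of_nonneg_right hde h6))
    exact ev_four_e10_e0 u (by linarith) (by linarith)
  · intro u h1
    have h4 : 0 ≤ (1 + (u - 1 / 10) / 4) ^ 4 := by
      have : 0 ≤ (u - 1 / 10) / 4 := div_nonneg (by linarith) (by norm_num)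
      positivity
    have hE : Real.exp (1 / 10) ≤ 55259 / 50000 := ev_up_1_10
    have hx : 0 ≤ 1 / 50 * u ^ 2 := by positivity
    have h5 := mul_le_mul_of_nonneg_right (taylor3_le_expE _ hx) (hq u)
    have h6 : 0 ≤ Real.exp (1 / 50 * u ^ 2) * (1 + u + 463 / 1000 * u ^ 2) :=
      mul_nonneg (Real.exp_nonneg _) (hq u)
    rw [Real.exp_add, mul_assoc]
    push_cast
    refine ((mul_le_mul_of_nonneg_right hE h4).trans ?_).trans
      ((mul_le_mul_of_nonneg_left h5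
        (by norm_num : (0 : ℝ) ≤ (1 + 1 / 500 + (1 / 500) ^ 2 / 2))).trans
        (mul_le_mul_of_nonneg_right hde h6))
    rcases le_total u (31 / 20) with hh | hh
    · exact ev_four_e10_g0 u (by linarith) (by linarith)
    rcases le_total u (3) with hh | hh
    · exact ev_four_e10_g1 u (by linarith) (by linarith)
    exact ev_four_e10_t u (by linarith)

theorem ev_four_e11_a0 (u : ℝ) (h1 : -1 ≤ u) (h2 : u ≤ -1 / 2) :
    1 + u + u ^ 2 / 2 + u ^ 3 / 6 + u ^ 4 / 24 ≤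
      (1 + 1 / 200 + (1 / 200) ^ 2 / 2) * (1 + u + 23 / 50 * u ^ 2) := by
  obtain ⟨s, hs⟩ : ∃ s, s = u - (-1) := ⟨_, rfl⟩
  obtain ⟨t, ht⟩ : ∃ t, t = -1 / 2 - u := ⟨_, rfl⟩
  have hs0 : 0 ≤ s := by linarith
  have ht0 : 0 ≤ t := by linarith
  have h : 0 ≤
      349223 / 250000 * t ^ 4 + 1336541 / 375000 * s * t ^ 3 +
      3160199 / 1000000 * s ^ 2 * t ^ 2 + 607819 / 500000 * s ^ 3 * t +
      542969 / 3000000 * s ^ 4 := by
    positivity
  have e :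
      349223 / 250000 * t ^ 4 + 1336541 / 375000 * s * t ^ 3 +
      3160199 / 1000000 * s ^ 2 * t ^ 2 + 607819 / 500000 * s ^ 3 * t +
      542969 / 3000000 * s ^ 4 =
      (1 + 1 / 200 + (1 / 200) ^ 2 / 2) * (1 + u + 23 / 50 * u ^ 2) -
      (1 + u + u ^ 2 / 2 + u ^ 3 / 6 + u ^ 4 / 24) := by
    rw [hs, ht]
    ring
  rw [e] at h
  linarith

theorem ev_four_e11_a1 (u : ℝ) (h1 : -1 / 2 ≤ u) (h2 : u ≤ 0) :
    1 + u + u ^ 2 / 2 + u ^ 3 / 6 + u ^ 4 / 24 ≤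
      (1 + 1 / 200 + (1 / 200) ^ 2 / 2) * (1 + u + 23 / 50 * u ^ 2) := by
  obtain ⟨s, hs⟩ : ∃ s, s = u - (-1 / 2) := ⟨_, rfl⟩
  obtain ⟨t, ht⟩ : ∃ t, t = 0 - u := ⟨_, rfl⟩
  have hs0 : 0 ≤ s := by linarith
  have ht0 : 0 ≤ t := by linarith
  have h : 0 ≤
      542969 / 3000000 * t ^ 4 + 348419 / 1500000 * s * t ^ 3 +
      210123 / 1000000 * s ^ 2 * t ^ 2 + 2807 / 10000 * s ^ 3 * t + 401 / 5000 * s ^ 4 := by
    positivity
  have e :
      542969 / 3000000 * t ^ 4 + 348419 / 1500000 * s * t ^ 3 +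
      210123 / 1000000 * s ^ 2 * t ^ 2 + 2807 / 10000 * s ^ 3 * t + 401 / 5000 * s ^ 4 =
      (1 + 1 / 200 + (1 / 200) ^ 2 / 2) * (1 + u + 23 / 50 * u ^ 2) -
      (1 + u + u ^ 2 / 2 + u ^ 3 / 6 + u ^ 4 / 24) := by
    rw [hs, ht]
    ring
  rw [e] at h
  linarith

theorem ev_four_e11_b0 (u : ℝ) (h1 : -2 ≤ u) (h2 : u ≤ -1) :
    36788 / 100000 *
      (1 + (u + 1) + (u + 1) ^ 2 / 2 + (u + 1) ^ 3 / 6 + (u + 1) ^ 4 / 24) ≤
      (1 + 1 / 200 + (1 / 200) ^ 2 / 2) * (1 + u + 23 / 50 * u ^ 2) := by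
  obtain ⟨s, hs⟩ : ∃ s, s = u - (-2) := ⟨_, rfl⟩
  obtain ⟨t, ht⟩ : ∃ t, t = -1 - u := ⟨_, rfl⟩
  have hs0 : 0 ≤ s := by linarith
  have ht0 : 0 ≤ t := by linarith
  have h : 0 ≤
      1412511 / 2000000 * t ^ 4 + 11149109 / 6000000 * s * t ^ 3 +
      6829429 / 4000000 * s ^ 2 * t ^ 2 + 332591 / 500000 * s ^ 3 * t +
      377703 / 4000000 * s ^ 4 := by
    positivity
  have e :
      1412511 / 2000000 * t ^ 4 + 11149109 / 6000000 * s * t ^ 3 +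
      6829429 / 4000000 * s ^ 2 * t ^ 2 + 332591 / 500000 * s ^ 3 * t +
      377703 / 4000000 * s ^ 4 =
      (1 + 1 / 200 + (1 / 200) ^ 2 / 2) * (1 + u + 23 / 50 * u ^ 2) -
      (36788 / 100000 *
      (1 + (u + 1) + (u + 1) ^ 2 / 2 + (u + 1) ^ 3 / 6 + (u + 1) ^ 4 / 24)) := by
    rw [hs, ht]
    ring
  rw [e] at h
  linarith

theorem ev_four_e11_c0 (u : ℝ) (h1 : -3 ≤ u) (h2 : u ≤ -2) :
    13534 / 100000 *
      (1 + (u + 2) + (u + 2) ^ 2 / 2 + (u + 2) ^ 3 / 6 + (u + 2) ^ 4 / 24) ≤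
      (1 + 1 / 200 + (1 / 200) ^ 2 / 2) * (1 + u + 23 / 50 * u ^ 2) := by
  obtain ⟨s, hs⟩ : ∃ s, s = u - (-3) := ⟨_, rfl⟩
  obtain ⟨t, ht⟩ : ∃ t, t = -2 - u := ⟨_, rfl⟩
  have hs0 : 0 ≤ s := by linarith
  have ht0 : 0 ≤ t := by linarith
  have h : 0 ≤
      8399897 / 4000000 * t ^ 4 + 3951577 / 600000 * s * t ^ 3 +
      30346041 / 4000000 * s ^ 2 * t ^ 2 + 1526013 / 400000 * s ^ 3 * t +
      1417741 / 2000000 * s ^ 4 := by
    positivity
  have e :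
      8399897 / 4000000 * t ^ 4 + 3951577 / 600000 * s * t ^ 3 +
      30346041 / 4000000 * s ^ 2 * t ^ 2 + 1526013 / 400000 * s ^ 3 * t +
      1417741 / 2000000 * s ^ 4 =
      (1 + 1 / 200 + (1 / 200) ^ 2 / 2) * (1 + u + 23 / 50 * u ^ 2) -
      (13534 / 100000 *
      (1 + (u + 2) + (u + 2) ^ 2 / 2 + (u + 2) ^ 3 / 6 + (u + 2) ^ 4 / 24)) := by
    rw [hs, ht]
    ring
  rw [e] at h
  linarith

theorem ev_four_e11_d (u : ℝ) (h2 : u ≤ -3) :
    4979 / 100000 ≤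
      (1 + 1 / 200 + (1 / 200) ^ 2 / 2) * (1 + u + 23 / 50 * u ^ 2) := by
  obtain ⟨s, hs⟩ : ∃ s, s = -3 - u := ⟨_, rfl⟩
  have hs0 : 0 ≤ s := by linarith
  have h : 0 ≤
      8403747 / 4000000 + 884411 / 500000 * s + 1849223 / 4000000 * s ^ 2 := by
    positivity
  have e :
      8403747 / 4000000 + 884411 / 500000 * s + 1849223 / 4000000 * s ^ 2 =
      (1 + 1 / 200 + (1 / 200) ^ 2 / 2) * (1 + u + 23 / 50 * u ^ 2) -
      (4979 / 100000) := by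
    rw [hs]
    ring
  rw [e] at h
  linarith

theorem ev_four_e11_e0 (u : ℝ) (h1 : 0 ≤ u) (h2 : u ≤ 1 / 10) :
    1 + u + u ^ 2 / 2 + u ^ 3 / 6 + u ^ 4 / 24 + u ^ 5 / 100 ≤
      (1 + 1 / 200 + (1 / 200) ^ 2 / 2) * ((1 + 1 / 50 * u ^ 2) *
      (1 + u + 23 / 50 * u ^ 2)) := by
  obtain ⟨s, hs⟩ : ∃ s, s = u - (0) := ⟨_, rfl⟩
  obtain ⟨t, ht⟩ : ∃ t, t = 1 / 10 - u := ⟨_, rfl⟩
  have hs0 : 0 ≤ s := by linarith
  have ht0 : 0 ≤ t := by linarith
  have h : 0 ≤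
      2005 / 4 * t ^ 5 + 20451 / 8 * s * t ^ 4 + 2597703 / 500 * s ^ 2 * t ^ 3 +
      629497363 / 120000 * s ^ 3 * t ^ 2 + 52486610223 / 20000000 * s ^ 4 * t +
      31127409169 / 60000000 * s ^ 5 := by
    positivity
  have e :
      2005 / 4 * t ^ 5 + 20451 / 8 * s * t ^ 4 + 2597703 / 500 * s ^ 2 * t ^ 3 +
      629497363 / 120000 * s ^ 3 * t ^ 2 + 52486610223 / 20000000 * s ^ 4 * t +
      31127409169 / 60000000 * s ^ 5 =
      (1 + 1 / 200 + (1 / 200) ^ 2 / 2) * ((1 + 1 / 50 * u ^ 2) *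
      (1 + u + 23 / 50 * u ^ 2)) -
      (1 + u + u ^ 2 / 2 + u ^ 3 / 6 + u ^ 4 / 24 + u ^ 5 / 100) := by
    rw [hs, ht]
    ring
  rw [e] at h
  linarith

theorem ev_four_e11_g0 (u : ℝ) (h1 : 1 / 10 ≤ u) (h2 : u ≤ 31 / 20) :
    55259 / 50000 * (1 + (u - 1 / 10) / 4) ^ 4 ≤
      (1 + 1 / 200 + (1 / 200) ^ 2 / 2) * ((1 + (1 / 50 * u ^ 2) + (1 / 50 * u ^ 2) ^ 2 / 2 +
      (1 / 50 * u ^ 2) ^ 3 / 6) *
      (1 + u + 23 / 50 * u ^ 2)) := by
  obtain ⟨s, hs⟩ : ∃ s, s = u - (1 / 10) := ⟨_, rfl⟩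
  obtain ⟨t, ht⟩ : ∃ t, t = 31 / 20 - u := ⟨_, rfl⟩
  have hs0 : 0 ≤ s := by linarith
  have ht0 : 0 ≤ t := by linarith
  have h : 0 ≤
      517885706571633241 / 1954087550628906250000 * t ^ 8 +
      1850751479203043067 / 977043775314453125000 * s * t ^ 7 +
      5078718320426707031 / 366391415742919921875 * s ^ 2 * t ^ 6 +
      200035140143225471459 / 3908175101257812500000 * s ^ 3 * t ^ 5 +
      303055009785410333177 / 3126540081006250000000 * s ^ 4 * t ^ 4 +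
      4771341315286370775547 / 46898101215093750000000 * s ^ 5 * t ^ 3 +
      937268697816520638361 / 15632700405031250000000 * s ^ 6 * t ^ 2 +
      1158502584794185592377 / 62530801620125000000000 * s ^ 7 * t +
      3499791127953541669343 / 1500739238883000000000000 * s ^ 8 := by
    positivity
  have e :
      517885706571633241 / 1954087550628906250000 * t ^ 8 +
      1850751479203043067 / 977043775314453125000 * s * t ^ 7 +
      5078718320426707031 / 366391415742919921875 * s ^ 2 * t ^ 6 +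
      200035140143225471459 / 3908175101257812500000 * s ^ 3 * t ^ 5 +
      303055009785410333177 / 3126540081006250000000 * s ^ 4 * t ^ 4 +
      4771341315286370775547 / 46898101215093750000000 * s ^ 5 * t ^ 3 +
      937268697816520638361 / 15632700405031250000000 * s ^ 6 * t ^ 2 +
      1158502584794185592377 / 62530801620125000000000 * s ^ 7 * t +
      3499791127953541669343 / 1500739238883000000000000 * s ^ 8 =
      (1 + 1 / 200 + (1 / 200) ^ 2 / 2) * ((1 + (1 / 50 * u ^ 2) + (1 / 50 * u ^ 2) ^ 2 / 2 +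
      (1 / 50 * u ^ 2) ^ 3 / 6) *
      (1 + u + 23 / 50 * u ^ 2)) -
      (55259 / 50000 * (1 + (u - 1 / 10) / 4) ^ 4) := by
    rw [hs, ht]
    ring
  rw [e] at h
  linarith

theorem ev_four_e11_g1 (u : ℝ) (h1 : 31 / 20 ≤ u) (h2 : u ≤ 3) :
    55259 / 50000 * (1 + (u - 1 / 10) / 4) ^ 4 ≤
      (1 + 1 / 200 + (1 / 200) ^ 2 / 2) * ((1 + (1 / 50 * u ^ 2) + (1 / 50 * u ^ 2) ^ 2 / 2 +
      (1 / 50 * u ^ 2) ^ 3 / 6) *
      (1 + u + 23 / 50 * u ^ 2)) := by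
  obtain ⟨s, hs⟩ : ∃ s, s = u - (31 / 20) := ⟨_, rfl⟩
  obtain ⟨t, ht⟩ : ∃ t, t = 3 - u := ⟨_, rfl⟩
  have hs0 : 0 ≤ s := by linarith
  have ht0 : 0 ≤ t := by linarith
  have h : 0 ≤
      3499791127953541669343 / 1500739238883000000000000 * t ^ 8 +
      704814900304905312311 / 37518480972075000000000 * s * t ^ 7 +
      115871916037920361513 / 1875924048603750000000 * s ^ 2 * t ^ 6 +
      3321163170282842171 / 31265400810062500000 * s ^ 3 * t ^ 5 +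
      63305656966481949 / 625308016201250000 * s ^ 4 * t ^ 4 +
      2015599487371662 / 39081751012578125 * s ^ 5 * t ^ 3 +
      192169003854699 / 15632700405031250 * s ^ 6 * t ^ 2 +
      2290818283414 / 1563270040503125 * s ^ 7 * t + 130923765041 / 312654008100625 * s ^ 8 := by
    positivity
  have e :
      3499791127953541669343 / 1500739238883000000000000 * t ^ 8 +
      704814900304905312311 / 37518480972075000000000 * s * t ^ 7 +
      115871916037920361513 / 1875924048603750000000 * s ^ 2 * t ^ 6 +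
      3321163170282842171 / 31265400810062500000 * s ^ 3 * t ^ 5 +
      63305656966481949 / 625308016201250000 * s ^ 4 * t ^ 4 +
      2015599487371662 / 39081751012578125 * s ^ 5 * t ^ 3 +
      192169003854699 / 15632700405031250 * s ^ 6 * t ^ 2 +
      2290818283414 / 1563270040503125 * s ^ 7 * t + 130923765041 / 312654008100625 * s ^ 8 =
      (1 + 1 / 200 + (1 / 200) ^ 2 / 2) * ((1 + (1 / 50 * u ^ 2) + (1 / 50 * u ^ 2) ^ 2 / 2 +
      (1 / 50 * u ^ 2) ^ 3 / 6) *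
      (1 + u + 23 / 50 * u ^ 2)) -
      (55259 / 50000 * (1 + (u - 1 / 10) / 4) ^ 4) := by
    rw [hs, ht]
    ring
  rw [e] at h
  linarith

theorem ev_four_e11_t (u : ℝ) (h1 : 3 ≤ u) :
    55259 / 50000 * (1 + (u - 1 / 10) / 4) ^ 4 ≤
      (1 + 1 / 200 + (1 / 200) ^ 2 / 2) * ((1 + (1 / 50 * u ^ 2) + (1 / 50 * u ^ 2) ^ 2 / 2 +
      (1 / 50 * u ^ 2) ^ 3 / 6) *
      (1 + u + 23 / 50 * u ^ 2)) := by
  obtain ⟨s, hs⟩ : ∃ s, s = u - (3) := ⟨_, rfl⟩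
  have hs0 : 0 ≤ s := by linarith
  have h : 0 ≤
      130923765041 / 16000000000000 + 50795384797 / 2000000000000 * s +
      255772883559 / 2000000000000 * s ^ 2 + 23810829757 / 250000000000 * s ^ 3 +
      5113910069 / 200000000000 * s ^ 4 + 1537347521 / 500000000000 * s ^ 5 +
      415914373 / 1500000000000 * s ^ 6 + 24200701 / 1500000000000 * s ^ 7 +
      1849223 / 3000000000000 * s ^ 8 := by
    positivity
  have e :
      130923765041 / 16000000000000 + 50795384797 / 2000000000000 * s +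
      255772883559 / 2000000000000 * s ^ 2 + 23810829757 / 250000000000 * s ^ 3 +
      5113910069 / 200000000000 * s ^ 4 + 1537347521 / 500000000000 * s ^ 5 +
      415914373 / 1500000000000 * s ^ 6 + 24200701 / 1500000000000 * s ^ 7 +
      1849223 / 3000000000000 * s ^ 8 =
      (1 + 1 / 200 + (1 / 200) ^ 2 / 2) * ((1 + (1 / 50 * u ^ 2) + (1 / 50 * u ^ 2) ^ 2 / 2 +
      (1 / 50 * u ^ 2) ^ 3 / 6) *
      (1 + u + 23 / 50 * u ^ 2)) -
      (55259 / 50000 * (1 + (u - 1 / 10) / 4) ^ 4) := by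
    rw [hs]
    ring
  rw [e] at h
  linarith

/-- `K = 4`: `(c, μ, P, δ) = (23 / 50, 1 / 50, 1 / 10, 1 / 200)` -/
theorem expFd_four_e11 : ExpFd 4 (23 / 50) (1 / 50) (1 / 10) (1 / 200) := by
  have hde : (1 + 1 / 200 + (1 / 200) ^ 2 / 2) ≤ Real.exp (1 / 200) :=
    Real.quadratic_le_exp_of_nonneg (by norm_num)
  have hq : ∀ u : ℝ, 0 ≤ 1 + u + 23 / 50 * u ^ 2 := fun u => by
    nlinarith [sq_nonneg (u + 2), sq_nonneg u]
  have hR : ∀ (u x y : ℝ), x ≤ y →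
      y ≤ (1 + 1 / 200 + (1 / 200) ^ 2 / 2) * (1 + u + 23 / 50 * u ^ 2) →
      x ≤ Real.exp (1 / 200) * (1 + u + 23 / 50 * u ^ 2) := fun u x y h1 h2 =>
    (h1.trans h2).trans (mul_le_mul_of_nonneg_right hde (hq u))
  refine ExpFd.of (by norm_num) (by norm_num) (by norm_num) (by norm_num) (by norm_num) ?_ ?_ ?_
  · intro u h1
    rcases le_total u (-3) with h3 | h3
    · exact hR u _ _ (ev_exp_n3 h3) (ev_four_e11_d u h3)
    rcases le_total u (-2) with h4 | h4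
    · refine hR u _ _ (ev_exp_n2 h4) ?_
      exact ev_four_e11_c0 u (by linarith) (by linarith)
    rcases le_total u (-1) with h5 | h5
    · refine hR u _ _ (ev_exp_n1 h5) ?_
      exact ev_four_e11_b0 u (by linarith) (by linarith)
    refine hR u _ _ (ev_exp_n0 h1) ?_
    rcases le_total u (-1 / 2) with hh | hh
    · exact ev_four_e11_a0 u (by linarith) (by linarith)
    exact ev_four_e11_a1 u (by linarith) (by linarith)
  · intro u h1 h2
    have h5 := mul_le_mul_of_nonneg_right (Real.add_one_le_exp (1 / 50 * u ^ 2)) (hq u)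
    rw [add_comm (1 / 50 * u ^ 2) 1] at h5
    have h6 : 0 ≤ Real.exp (1 / 50 * u ^ 2) * (1 + u + 23 / 50 * u ^ 2) :=
      mul_nonneg (Real.exp_nonneg _) (hq u)
    rw [Real.exp_add, mul_assoc]
    refine ((ev_exp_p h1 (by linarith)).trans ?_).trans
      ((mul_le_mul_of_nonneg_left h5
        (by norm_num : (0 : ℝ) ≤ (1 + 1 / 200 + (1 / 200) ^ 2 / 2))).trans
        (mul_le_mul_of_nonneg_right hde h6))
    exact ev_four_e11_e0 u (by linarith) (by linarith)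
  · intro u h1
    have h4 : 0 ≤ (1 + (u - 1 / 10) / 4) ^ 4 := by
      have : 0 ≤ (u - 1 / 10) / 4 := div_nonneg (by linarith) (by norm_num)
      positivity
    have hE : Real.exp (1 / 10) ≤ 55259 / 50000 := ev_up_1_10
    have hx : 0 ≤ 1 / 50 * u ^ 2 := by positivity
    have h5 := mul_le_mul_of_nonneg_right (taylor3_le_expE _ hx) (hq u)
    have h6 : 0 ≤ Real.exp (1 / 50 * u ^ 2) * (1 + u + 23 / 50 * u ^ 2) :=
      mul_nonneg (Real.exp_nonneg _) (hq u)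
    rw [Real.exp_add, mul_assoc]
    push_cast
    refine ((mul_le_mul_of_nonneg_right hE h4).trans ?_).trans
      ((mul_le_mul_of_nonneg_left h5
        (by norm_num : (0 : ℝ) ≤ (1 + 1 / 200 + (1 / 200) ^ 2 / 2))).trans
        (mul_le_mul_of_nonneg_right hde h6))
    rcases le_total u (31 / 20) with hh | hh
    · exact ev_four_e11_g0 u (by linarith) (by linarith)
    rcases le_total u (3) with hh | hh
    · exact ev_four_e11_g1 u (by linarith) (by linarith)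
    exact ev_four_e11_t u (by linarith)

theorem ev_four_e12_a0 (u : ℝ) (h1 : -1 ≤ u) (h2 : u ≤ -1 / 2) :
    1 + u + u ^ 2 / 2 + u ^ 3 / 6 + u ^ 4 / 24 ≤
      (1 + 1 / 100 + (1 / 100) ^ 2 / 2) * (1 + u + 423 / 1000 * u ^ 2) := by
  obtain ⟨s, hs⟩ : ∃ s, s = u - (-1) := ⟨_, rfl⟩
  obtain ⟨t, ht⟩ : ∃ t, t = -1 / 2 - u := ⟨_, rfl⟩
  have hs0 : 0 ≤ s := by linarith
  have ht0 : 0 ≤ t := by linarith
  have h : 0 ≤
      1045023 / 1250000 * t ^ 4 + 7206707 / 3750000 * s * t ^ 3 +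
      7291299 / 5000000 * s ^ 2 * t ^ 2 + 1238069 / 2500000 * s ^ 3 * t +
      1216069 / 15000000 * s ^ 4 := by
    positivity
  have e :
      1045023 / 1250000 * t ^ 4 + 7206707 / 3750000 * s * t ^ 3 +
      7291299 / 5000000 * s ^ 2 * t ^ 2 + 1238069 / 2500000 * s ^ 3 * t +
      1216069 / 15000000 * s ^ 4 =
      (1 + 1 / 100 + (1 / 100) ^ 2 / 2) * (1 + u + 423 / 1000 * u ^ 2) -
      (1 + u + u ^ 2 / 2 + u ^ 3 / 6 + u ^ 4 / 24) := by
    rw [hs, ht]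
    ring
  rw [e] at h
  linarith

theorem ev_four_e12_a1 (u : ℝ) (h1 : -1 / 2 ≤ u) (h2 : u ≤ 0) :
    1 + u + u ^ 2 / 2 + u ^ 3 / 6 + u ^ 4 / 24 ≤
      (1 + 1 / 100 + (1 / 100) ^ 2 / 2) * (1 + u + 423 / 1000 * u ^ 2) := by
  obtain ⟨s, hs⟩ : ∃ s, s = u - (-1 / 2) := ⟨_, rfl⟩
  obtain ⟨t, ht⟩ : ∃ t, t = 0 - u := ⟨_, rfl⟩
  have hs0 : 0 ≤ s := by linarith
  have ht0 : 0 ≤ t := by linarith
  have h : 0 ≤
      1216069 / 15000000 * t ^ 4 + 1150069 / 7500000 * s * t ^ 3 +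
      2163023 / 5000000 * s ^ 2 * t ^ 2 + 1407 / 2500 * s ^ 3 * t + 201 / 1250 * s ^ 4 := by
    positivity
  have e :
      1216069 / 15000000 * t ^ 4 + 1150069 / 7500000 * s * t ^ 3 +
      2163023 / 5000000 * s ^ 2 * t ^ 2 + 1407 / 2500 * s ^ 3 * t + 201 / 1250 * s ^ 4 =
      (1 + 1 / 100 + (1 / 100) ^ 2 / 2) * (1 + u + 423 / 1000 * u ^ 2) -
      (1 + u + u ^ 2 / 2 + u ^ 3 / 6 + u ^ 4 / 24) := by
    rw [hs, ht]
    ring
  rw [e] at h
  linarith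

theorem ev_four_e12_b0 (u : ℝ) (h1 : -2 ≤ u) (h2 : u ≤ -1) :
    36788 / 100000 *
      (1 + (u + 1) + (u + 1) ^ 2 / 2 + (u + 1) ^ 3 / 6 + (u + 1) ^ 4 / 24) ≤
      (1 + 1 / 100 + (1 / 100) ^ 2 / 2) * (1 + u + 423 / 1000 * u ^ 2) := by
  obtain ⟨s, hs⟩ : ∃ s, s = u - (-2) := ⟨_, rfl⟩
  obtain ⟨t, ht⟩ : ∃ t, t = -1 - u := ⟨_, rfl⟩
  have hs0 : 0 ≤ s := by linarith
  have ht0 : 0 ≤ t := by linarith
  have h : 0 ≤
      1402499 / 2500000 * t ^ 4 + 21336257 / 15000000 * s * t ^ 3 +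
      24730699 / 20000000 * s ^ 2 * t ^ 2 + 4498169 / 10000000 * s ^ 3 * t +
      1187423 / 20000000 * s ^ 4 := by
    positivity
  have e :
      1402499 / 2500000 * t ^ 4 + 21336257 / 15000000 * s * t ^ 3 +
      24730699 / 20000000 * s ^ 2 * t ^ 2 + 4498169 / 10000000 * s ^ 3 * t +
      1187423 / 20000000 * s ^ 4 =
      (1 + 1 / 100 + (1 / 100) ^ 2 / 2) * (1 + u + 423 / 1000 * u ^ 2) -
      (36788 / 100000 *
      (1 + (u + 1) + (u + 1) ^ 2 / 2 + (u + 1) ^ 3 / 6 + (u + 1) ^ 4 / 24)) := by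
    rw [hs, ht]
    ring
  rw [e] at h
  linarith

theorem ev_four_e12_c0 (u : ℝ) (h1 : -3 ≤ u) (h2 : u ≤ -2) :
    13534 / 100000 *
      (1 + (u + 2) + (u + 2) ^ 2 / 2 + (u + 2) ^ 3 / 6 + (u + 2) ^ 4 / 24) ≤
      (1 + 1 / 100 + (1 / 100) ^ 2 / 2) * (1 + u + 423 / 1000 * u ^ 2) := by
  obtain ⟨s, hs⟩ : ∃ s, s = u - (-3) := ⟨_, rfl⟩
  obtain ⟨t, ht⟩ : ∃ t, t = -2 - u := ⟨_, rfl⟩
  have hs0 : 0 ≤ s := by linarith
  have ht0 : 0 ≤ t := by linarith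
  have h : 0 ≤
      35488157 / 20000000 * t ^ 4 + 32994367 / 6000000 * s * t ^ 3 +
      124883051 / 20000000 * s ^ 2 * t ^ 2 + 3088753 / 1000000 * s ^ 3 * t +
      2818073 / 5000000 * s ^ 4 := by
    positivity
  have e :
      35488157 / 20000000 * t ^ 4 + 32994367 / 6000000 * s * t ^ 3 +
      124883051 / 20000000 * s ^ 2 * t ^ 2 + 3088753 / 1000000 * s ^ 3 * t +
      2818073 / 5000000 * s ^ 4 =
      (1 + 1 / 100 + (1 / 100) ^ 2 / 2) * (1 + u + 423 / 1000 * u ^ 2) -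
      (13534 / 100000 *
      (1 + (u + 2) + (u + 2) ^ 2 / 2 + (u + 2) ^ 3 / 6 + (u + 2) ^ 4 / 24)) := by
    rw [hs, ht]
    ring
  rw [e] at h
  linarith

theorem ev_four_e12_d (u : ℝ) (h2 : u ≤ -3) :
    4979 / 100000 ≤
      (1 + 1 / 100 + (1 / 100) ^ 2 / 2) * (1 + u + 423 / 1000 * u ^ 2) := by
  obtain ⟨s, hs⟩ : ∃ s, s = -3 - u := ⟨_, rfl⟩
  have hs0 : 0 ≤ s := by linarith
  have h : 0 ≤
      35507407 / 20000000 + 15534569 / 10000000 * s + 8545023 / 20000000 * s ^ 2 := by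
    positivity
  have e :
      35507407 / 20000000 + 15534569 / 10000000 * s + 8545023 / 20000000 * s ^ 2 =
      (1 + 1 / 100 + (1 / 100) ^ 2 / 2) * (1 + u + 423 / 1000 * u ^ 2) -
      (4979 / 100000) := by
    rw [hs]
    ring
  rw [e] at h
  linarith

theorem ev_four_e12_e0 (u : ℝ) (h1 : 0 ≤ u) (h2 : u ≤ 1 / 10) :
    1 + u + u ^ 2 / 2 + u ^ 3 / 6 + u ^ 4 / 24 + u ^ 5 / 100 ≤
      (1 + 1 / 100 + (1 / 100) ^ 2 / 2) * ((1 + 1 / 40 * u ^ 2) *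
      (1 + u + 423 / 1000 * u ^ 2)) := by
  obtain ⟨s, hs⟩ : ∃ s, s = u - (0) := ⟨_, rfl⟩
  obtain ⟨t, ht⟩ : ∃ t, t = 1 / 10 - u := ⟨_, rfl⟩
  have hs0 : 0 ≤ s := by linarith
  have ht0 : 0 ≤ t := by linarith
  have h : 0 ≤
      1005 * t ^ 5 + 10251 / 2 * s * t ^ 4 + 6502814 / 625 * s ^ 2 * t ^ 3 +
      1259563879 / 120000 * s ^ 3 * t ^ 2 + 420473141023 / 80000000 * s ^ 4 * t +
      250449841069 / 240000000 * s ^ 5 := by
    positivity
  have e :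
      1005 * t ^ 5 + 10251 / 2 * s * t ^ 4 + 6502814 / 625 * s ^ 2 * t ^ 3 +
      1259563879 / 120000 * s ^ 3 * t ^ 2 + 420473141023 / 80000000 * s ^ 4 * t +
      250449841069 / 240000000 * s ^ 5 =
      (1 + 1 / 100 + (1 / 100) ^ 2 / 2) * ((1 + 1 / 40 * u ^ 2) *
      (1 + u + 423 / 1000 * u ^ 2)) -
      (1 + u + u ^ 2 / 2 + u ^ 3 / 6 + u ^ 4 / 24 + u ^ 5 / 100) := by
    rw [hs, ht]
    ring
  rw [e] at h
  linarith

theorem ev_four_e12_g0 (u : ℝ) (h1 : 1 / 10 ≤ u) (h2 : u ≤ 31 / 20) :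
    55259 / 50000 * (1 + (u - 1 / 10) / 4) ^ 4 ≤
      (1 + 1 / 100 + (1 / 100) ^ 2 / 2) * ((1 + (1 / 40 * u ^ 2) + (1 / 40 * u ^ 2) ^ 2 / 2 +
      (1 / 40 * u ^ 2) ^ 3 / 6) *
      (1 + u + 423 / 1000 * u ^ 2)) := by
  obtain ⟨s, hs⟩ : ∃ s, s = u - (1 / 10) := ⟨_, rfl⟩
  obtain ⟨t, ht⟩ : ∃ t, t = 31 / 20 - u := ⟨_, rfl⟩
  have hs0 : 0 ≤ s := by linarith
  have ht0 : 0 ≤ t := by linarith
  have h : 0 ≤
      8007458484298931023 / 15007392388830000000000 * t ^ 8 +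
      14949249426750849463 / 3751848097207500000000 * s * t ^ 7 +
      89709727262553576407 / 5002464129610000000000 * s ^ 2 * t ^ 6 +
      715231595688042548101 / 15007392388830000000000 * s ^ 3 * t ^ 5 +
      1751801844399512894881 / 24011827822128000000000 * s ^ 4 * t ^ 4 +
      1289671986781527957187 / 20009856518440000000000 * s ^ 5 * t ^ 3 +
      7686376967230111990141 / 240118278221280000000000 * s ^ 6 * t ^ 2 +
      1962783907212597281803 / 240118278221280000000000 * s ^ 7 * t +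
      1071950671488525883381 / 1280630817180160000000000 * s ^ 8 := by
    positivity
  have e :
      8007458484298931023 / 15007392388830000000000 * t ^ 8 +
      14949249426750849463 / 3751848097207500000000 * s * t ^ 7 +
      89709727262553576407 / 5002464129610000000000 * s ^ 2 * t ^ 6 +
      715231595688042548101 / 15007392388830000000000 * s ^ 3 * t ^ 5 +
      1751801844399512894881 / 24011827822128000000000 * s ^ 4 * t ^ 4 +
      1289671986781527957187 / 20009856518440000000000 * s ^ 5 * t ^ 3 +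
      7686376967230111990141 / 240118278221280000000000 * s ^ 6 * t ^ 2 +
      1962783907212597281803 / 240118278221280000000000 * s ^ 7 * t +
      1071950671488525883381 / 1280630817180160000000000 * s ^ 8 =
      (1 + 1 / 100 + (1 / 100) ^ 2 / 2) * ((1 + (1 / 40 * u ^ 2) + (1 / 40 * u ^ 2) ^ 2 / 2 +
      (1 / 40 * u ^ 2) ^ 3 / 6) *
      (1 + u + 423 / 1000 * u ^ 2)) -
      (55259 / 50000 * (1 + (u - 1 / 10) / 4) ^ 4) := by
    rw [hs, ht]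
    ring
  rw [e] at h
  linarith

theorem ev_four_e12_g1 (u : ℝ) (h1 : 31 / 20 ≤ u) (h2 : u ≤ 91 / 40) :
    55259 / 50000 * (1 + (u - 1 / 10) / 4) ^ 4 ≤
      (1 + 1 / 100 + (1 / 100) ^ 2 / 2) * ((1 + (1 / 40 * u ^ 2) + (1 / 40 * u ^ 2) ^ 2 / 2 +
      (1 / 40 * u ^ 2) ^ 3 / 6) *
      (1 + u + 423 / 1000 * u ^ 2)) := by
  obtain ⟨s, hs⟩ : ∃ s, s = u - (31 / 20) := ⟨_, rfl⟩
  obtain ⟨t, ht⟩ : ∃ t, t = 91 / 40 - u := ⟨_, rfl⟩
  have hs0 : 0 ≤ s := by linarith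
  have ht0 : 0 ≤ t := by linarith
  have h : 0 ≤
      1071950671488525883381 / 5002464129610000000000 * t ^ 8 +
      5721988228971538386823 / 3751848097207500000000 * s * t ^ 7 +
      68470336574393668248121 / 15007392388830000000000 * s ^ 2 * t ^ 6 +
      37207052315053254676027 / 5002464129610000000000 * s ^ 3 * t ^ 5 +
      172519546735551782063641 / 24011827822128000000000 * s ^ 4 * t ^ 4 +
      254320187464807290130801 / 60029569555320000000000 * s ^ 5 * t ^ 3 +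
      125644560088364870455187 / 80039426073760000000000 * s ^ 6 * t ^ 2 +
      94450507756091124837703 / 240118278221280000000000 * s ^ 7 * t +
      236305880212218022325983 / 3841892451540480000000000 * s ^ 8 := by
    positivity
  have e :
      1071950671488525883381 / 5002464129610000000000 * t ^ 8 +
      5721988228971538386823 / 3751848097207500000000 * s * t ^ 7 +
      68470336574393668248121 / 15007392388830000000000 * s ^ 2 * t ^ 6 +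
      37207052315053254676027 / 5002464129610000000000 * s ^ 3 * t ^ 5 +
      172519546735551782063641 / 24011827822128000000000 * s ^ 4 * t ^ 4 +
      254320187464807290130801 / 60029569555320000000000 * s ^ 5 * t ^ 3 +
      125644560088364870455187 / 80039426073760000000000 * s ^ 6 * t ^ 2 +
      94450507756091124837703 / 240118278221280000000000 * s ^ 7 * t +
      236305880212218022325983 / 3841892451540480000000000 * s ^ 8 =
      (1 + 1 / 100 + (1 / 100) ^ 2 / 2) * ((1 + (1 / 40 * u ^ 2) + (1 / 40 * u ^ 2) ^ 2 / 2 +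
      (1 / 40 * u ^ 2) ^ 3 / 6) *
      (1 + u + 423 / 1000 * u ^ 2)) -
      (55259 / 50000 * (1 + (u - 1 / 10) / 4) ^ 4) := by
    rw [hs, ht]
    ring
  rw [e] at h
  linarith

theorem ev_four_e12_g2 (u : ℝ) (h1 : 91 / 40 ≤ u) (h2 : u ≤ 3) :
    55259 / 50000 * (1 + (u - 1 / 10) / 4) ^ 4 ≤
      (1 + 1 / 100 + (1 / 100) ^ 2 / 2) * ((1 + (1 / 40 * u ^ 2) + (1 / 40 * u ^ 2) ^ 2 / 2 +
      (1 / 40 * u ^ 2) ^ 3 / 6) *
      (1 + u + 423 / 1000 * u ^ 2)) := by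
  obtain ⟨s, hs⟩ : ∃ s, s = u - (91 / 40) := ⟨_, rfl⟩
  obtain ⟨t, ht⟩ : ∃ t, t = 3 - u := ⟨_, rfl⟩
  have hs0 : 0 ≤ s := by linarith
  have ht0 : 0 ≤ t := by linarith
  have h : 0 ≤
      236305880212218022325983 / 3841892451540480000000000 * t ^ 8 +
      1182128103801057479069 / 2000985651844000000000 * s * t ^ 7 +
      1771919332913362549799 / 600295695553200000000 * s ^ 2 * t ^ 6 +
      1424899354005440309 / 156327004050312500 * s ^ 3 * t ^ 5 +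
      888266297462218647 / 50024641296100000 * s ^ 4 * t ^ 4 +
      33904676537271786 / 1563270040503125 * s ^ 5 * t ^ 3 +
      5028289298889252 / 312654008100625 * s ^ 6 * t ^ 2 +
      413917342975488 / 62530801620125 * s ^ 7 * t + 14518786483264 / 12506160324025 * s ^ 8 := by
    positivity
  have e :
      236305880212218022325983 / 3841892451540480000000000 * t ^ 8 +
      1182128103801057479069 / 2000985651844000000000 * s * t ^ 7 +
      1771919332913362549799 / 600295695553200000000 * s ^ 2 * t ^ 6 +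
      1424899354005440309 / 156327004050312500 * s ^ 3 * t ^ 5 +
      888266297462218647 / 50024641296100000 * s ^ 4 * t ^ 4 +
      33904676537271786 / 1563270040503125 * s ^ 5 * t ^ 3 +
      5028289298889252 / 312654008100625 * s ^ 6 * t ^ 2 +
      413917342975488 / 62530801620125 * s ^ 7 * t + 14518786483264 / 12506160324025 * s ^ 8 =
      (1 + 1 / 100 + (1 / 100) ^ 2 / 2) * ((1 + (1 / 40 * u ^ 2) + (1 / 40 * u ^ 2) ^ 2 / 2 +
      (1 / 40 * u ^ 2) ^ 3 / 6) *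
      (1 + u + 423 / 1000 * u ^ 2)) -
      (55259 / 50000 * (1 + (u - 1 / 10) / 4) ^ 4) := by
    rw [hs, ht]
    ring
  rw [e] at h
  linarith

theorem ev_four_e12_t (u : ℝ) (h1 : 3 ≤ u) :
    55259 / 50000 * (1 + (u - 1 / 10) / 4) ^ 4 ≤
      (1 + 1 / 100 + (1 / 100) ^ 2 / 2) * ((1 + (1 / 40 * u ^ 2) + (1 / 40 * u ^ 2) ^ 2 / 2 +
      (1 / 40 * u ^ 2) ^ 3 / 6) *
      (1 + u + 423 / 1000 * u ^ 2)) := by
  obtain ⟨s, hs⟩ : ∃ s, s = u - (3) := ⟨_, rfl⟩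
  have hs0 : 0 ≤ s := by linarith
  have h : 0 ≤
      226856038801 / 2560000000000 + 5618066957 / 20000000000 * s +
      209373612673 / 640000000000 * s ^ 2 + 26013833083 / 160000000000 * s ^ 3 +
      9878649127 / 256000000000 * s ^ 4 + 197828393 / 40000000000 * s ^ 5 +
      905792639 / 1920000000000 * s ^ 6 + 14080097 / 480000000000 * s ^ 7 +
      2848341 / 2560000000000 * s ^ 8 := by
    positivity
  have e :
      226856038801 / 2560000000000 + 5618066957 / 20000000000 * s +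
      209373612673 / 640000000000 * s ^ 2 + 26013833083 / 160000000000 * s ^ 3 +
      9878649127 / 256000000000 * s ^ 4 + 197828393 / 40000000000 * s ^ 5 +
      905792639 / 1920000000000 * s ^ 6 + 14080097 / 480000000000 * s ^ 7 +
      2848341 / 2560000000000 * s ^ 8 =
      (1 + 1 / 100 + (1 / 100) ^ 2 / 2) * ((1 + (1 / 40 * u ^ 2) + (1 / 40 * u ^ 2) ^ 2 / 2 +
      (1 / 40 * u ^ 2) ^ 3 / 6) *
      (1 + u + 423 / 1000 * u ^ 2)) -
      (55259 / 50000 * (1 + (u - 1 / 10) / 4) ^ 4) := by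
    rw [hs]
    ring
  rw [e] at h
  linarith

/-- `K = 4`: `(c, μ, P, δ) = (423 / 1000, 1 / 40, 1 / 10, 1 / 100)` -/
theorem expFd_four_e12 : ExpFd 4 (423 / 1000) (1 / 40) (1 / 10) (1 / 100) := by
  have hde : (1 + 1 / 100 + (1 / 100) ^ 2 / 2) ≤ Real.exp (1 / 100) :=
    Real.quadratic_le_exp_of_nonneg (by norm_num)
  have hq : ∀ u : ℝ, 0 ≤ 1 + u + 423 / 1000 * u ^ 2 := fun u => by
    nlinarith [sq_nonneg (u + 2), sq_nonneg u]
  have hR : ∀ (u x y : ℝ), x ≤ y →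
      y ≤ (1 + 1 / 100 + (1 / 100) ^ 2 / 2) * (1 + u + 423 / 1000 * u ^ 2) →
      x ≤ Real.exp (1 / 100) * (1 + u + 423 / 1000 * u ^ 2) := fun u x y h1 h2 =>
    (h1.trans h2).trans (mul_le_mul_of_nonneg_right hde (hq u))
  refine ExpFd.of (by norm_num) (by norm_num) (by norm_num) (by norm_num) (by norm_num) ?_ ?_ ?_
  · intro u h1
    rcases le_total u (-3) with h3 | h3
    · exact hR u _ _ (ev_exp_n3 h3) (ev_four_e12_d u h3)
    rcases le_total u (-2) with h4 | h4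
    · refine hR u _ _ (ev_exp_n2 h4) ?_
      exact ev_four_e12_c0 u (by linarith) (by linarith)
    rcases le_total u (-1) with h5 | h5
    · refine hR u _ _ (ev_exp_n1 h5) ?_
      exact ev_four_e12_b0 u (by linarith) (by linarith)
    refine hR u _ _ (ev_exp_n0 h1) ?_
    rcases le_total u (-1 / 2) with hh | hh
    · exact ev_four_e12_a0 u (by linarith) (by linarith)
    exact ev_four_e12_a1 u (by linarith) (by linarith)
  · intro u h1 h2
    have h5 := mul_le_mul_of_nonneg_right (Real.add_one_le_exp (1 / 40 * u ^ 2)) (hq u)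
    rw [add_comm (1 / 40 * u ^ 2) 1] at h5
    have h6 : 0 ≤ Real.exp (1 / 40 * u ^ 2) * (1 + u + 423 / 1000 * u ^ 2) :=
      mul_nonneg (Real.exp_nonneg _) (hq u)
    rw [Real.exp_add, mul_assoc]
    refine ((ev_exp_p h1 (by linarith)).trans ?_).trans
      ((mul_le_mul_of_nonneg_left h5
        (by norm_num : (0 : ℝ) ≤ (1 + 1 / 100 + (1 / 100) ^ 2 / 2))).trans
        (mul_le_mul_of_nonneg_right hde h6))
    exact ev_four_e12_e0 u (by linarith) (by linarith)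
  · intro u h1
    have h4 : 0 ≤ (1 + (u - 1 / 10) / 4) ^ 4 := by
      have : 0 ≤ (u - 1 / 10) / 4 := div_nonneg (by linarith) (by norm_num)
      positivity
    have hE : Real.exp (1 / 10) ≤ 55259 / 50000 := ev_up_1_10
    have hx : 0 ≤ 1 / 40 * u ^ 2 := by positivity
    have h5 := mul_le_mul_of_nonneg_right (taylor3_le_expE _ hx) (hq u)
    have h6 : 0 ≤ Real.exp (1 / 40 * u ^ 2) * (1 + u + 423 / 1000 * u ^ 2) :=
      mul_nonneg (Real.exp_nonneg _) (hq u)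
    rw [Real.exp_add, mul_assoc]
    push_cast
    refine ((mul_le_mul_of_nonneg_right hE h4).trans ?_).trans
      ((mul_le_mul_of_nonneg_left h5
        (by norm_num : (0 : ℝ) ≤ (1 + 1 / 100 + (1 / 100) ^ 2 / 2))).trans
        (mul_le_mul_of_nonneg_right hde h6))
    rcases le_total u (31 / 20) with hh | hh
    · exact ev_four_e12_g0 u (by linarith) (by linarith)
    rcases le_total u (91 / 40) with hh | hh
    · exact ev_four_e12_g1 u (by linarith) (by linarith)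
    rcases le_total u (3) with hh | hh
    · exact ev_four_e12_g2 u (by linarith) (by linarith)
    exact ev_four_e12_t u (by linarith)

theorem ev_four_e13_a0 (u : ℝ) (h1 : -1 ≤ u) (h2 : u ≤ -3 / 4) :
    1 + u + u ^ 2 / 2 + u ^ 3 / 6 + u ^ 4 / 24 ≤
      (1 + 1 / 50 + (1 / 50) ^ 2 / 2) * (1 + u + 97 / 250 * u ^ 2) := by
  obtain ⟨s, hs⟩ : ∃ s, s = u - (-1) := ⟨_, rfl⟩
  obtain ⟨t, ht⟩ : ∃ t, t = -3 / 4 - u := ⟨_, rfl⟩
  have hs0 : 0 ≤ s := by linarith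
  have ht0 : 0 ≤ t := by linarith
  have h : 0 ≤
      416752 / 78125 * t ^ 4 + 3428896 / 234375 * s * t ^ 3 +
      1110681 / 78125 * s ^ 2 * t ^ 2 + 459474 / 78125 * s ^ 3 * t + 574009 / 625000 * s ^ 4 := by
    positivity
  have e :
      416752 / 78125 * t ^ 4 + 3428896 / 234375 * s * t ^ 3 +
      1110681 / 78125 * s ^ 2 * t ^ 2 + 459474 / 78125 * s ^ 3 * t + 574009 / 625000 * s ^ 4 =
      (1 + 1 / 50 + (1 / 50) ^ 2 / 2) * (1 + u + 97 / 250 * u ^ 2) -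
      (1 + u + u ^ 2 / 2 + u ^ 3 / 6 + u ^ 4 / 24) := by
    rw [hs, ht]
    ring
  rw [e] at h
  linarith

theorem ev_four_e13_a1 (u : ℝ) (h1 : -3 / 4 ≤ u) (h2 : u ≤ -1 / 2) :
    1 + u + u ^ 2 / 2 + u ^ 3 / 6 + u ^ 4 / 24 ≤
      (1 + 1 / 50 + (1 / 50) ^ 2 / 2) * (1 + u + 97 / 250 * u ^ 2) := by
  obtain ⟨s, hs⟩ : ∃ s, s = u - (-3 / 4) := ⟨_, rfl⟩
  obtain ⟨t, ht⟩ : ∃ t, t = -1 / 2 - u := ⟨_, rfl⟩
  have hs0 : 0 ≤ s := by linarith
  have ht0 : 0 ≤ t := by linarith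
  have h : 0 ≤
      574009 / 625000 * t ^ 4 + 22907 / 15625 * s * t ^ 3 + 75864 / 78125 * s ^ 2 * t ^ 2 +
      49264 / 46875 * s ^ 3 * t + 137314 / 234375 * s ^ 4 := by
    positivity
  have e :
      574009 / 625000 * t ^ 4 + 22907 / 15625 * s * t ^ 3 + 75864 / 78125 * s ^ 2 * t ^ 2 +
      49264 / 46875 * s ^ 3 * t + 137314 / 234375 * s ^ 4 =
      (1 + 1 / 50 + (1 / 50) ^ 2 / 2) * (1 + u + 97 / 250 * u ^ 2) -
      (1 + u + u ^ 2 / 2 + u ^ 3 / 6 + u ^ 4 / 24) := by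
    rw [hs, ht]
    ring
  rw [e] at h
  linarith

theorem ev_four_e13_a2 (u : ℝ) (h1 : -1 / 2 ≤ u) (h2 : u ≤ 0) :
    1 + u + u ^ 2 / 2 + u ^ 3 / 6 + u ^ 4 / 24 ≤
      (1 + 1 / 50 + (1 / 50) ^ 2 / 2) * (1 + u + 97 / 250 * u ^ 2) := by
  obtain ⟨s, hs⟩ : ∃ s, s = u - (-1 / 2) := ⟨_, rfl⟩
  obtain ⟨t, ht⟩ : ∃ t, t = 0 - u := ⟨_, rfl⟩
  have hs0 : 0 ≤ s := by linarith
  have ht0 : 0 ≤ t := by linarith
  have h : 0 ≤
      68657 / 1875000 * t ^ 4 + 144391 / 468750 * s * t ^ 3 +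
      324297 / 312500 * s ^ 2 * t ^ 2 + 707 / 625 * s ^ 3 * t + 202 / 625 * s ^ 4 := by
    positivity
  have e :
      68657 / 1875000 * t ^ 4 + 144391 / 468750 * s * t ^ 3 +
      324297 / 312500 * s ^ 2 * t ^ 2 + 707 / 625 * s ^ 3 * t + 202 / 625 * s ^ 4 =
      (1 + 1 / 50 + (1 / 50) ^ 2 / 2) * (1 + u + 97 / 250 * u ^ 2) -
      (1 + u + u ^ 2 / 2 + u ^ 3 / 6 + u ^ 4 / 24) := by
    rw [hs, ht]
    ring
  rw [e] at h
  linarith

theorem ev_four_e13_b0 (u : ℝ) (h1 : -2 ≤ u) (h2 : u ≤ -1) :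
    36788 / 100000 *
      (1 + (u + 1) + (u + 1) ^ 2 / 2 + (u + 1) ^ 3 / 6 + (u + 1) ^ 4 / 24) ≤
      (1 + 1 / 50 + (1 / 50) ^ 2 / 2) * (1 + u + 97 / 250 * u ^ 2) := by
  obtain ⟨s, hs⟩ : ∃ s, s = u - (-2) := ⟨_, rfl⟩
  obtain ⟨t, ht⟩ : ∃ t, t = -1 - u := ⟨_, rfl⟩
  have hs0 : 0 ≤ s := by linarith
  have ht0 : 0 ≤ t := by linarith
  have h : 0 ≤
      2125977 / 5000000 * t ^ 4 + 3806267 / 3750000 * s * t ^ 3 +
      62321 / 78125 * s ^ 2 * t ^ 2 + 156991 / 625000 * s ^ 3 * t + 34947 / 1250000 * s ^ 4 := by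
    positivity
  have e :
      2125977 / 5000000 * t ^ 4 + 3806267 / 3750000 * s * t ^ 3 +
      62321 / 78125 * s ^ 2 * t ^ 2 + 156991 / 625000 * s ^ 3 * t + 34947 / 1250000 * s ^ 4 =
      (1 + 1 / 50 + (1 / 50) ^ 2 / 2) * (1 + u + 97 / 250 * u ^ 2) -
      (36788 / 100000 *
      (1 + (u + 1) + (u + 1) ^ 2 / 2 + (u + 1) ^ 3 / 6 + (u + 1) ^ 4 / 24)) := by
    rw [hs, ht]
    ring
  rw [e] at h
  linarith

theorem ev_four_e13_c0 (u : ℝ) (h1 : -3 ≤ u) (h2 : u ≤ -2) :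
    13534 / 100000 *
      (1 + (u + 2) + (u + 2) ^ 2 / 2 + (u + 2) ^ 3 / 6 + (u + 2) ^ 4 / 24) ≤
      (1 + 1 / 50 + (1 / 50) ^ 2 / 2) * (1 + u + 97 / 250 * u ^ 2) := by
  obtain ⟨s, hs⟩ : ∃ s, s = u - (-3) := ⟨_, rfl⟩
  obtain ⟨t, ht⟩ : ∃ t, t = -2 - u := ⟨_, rfl⟩
  have hs0 : 0 ≤ s := by linarith
  have ht0 : 0 ≤ t := by linarith
  have h : 0 ≤
      14713859 / 10000000 * t ^ 4 + 6728407 / 1500000 * s * t ^ 3 +
      12476253 / 2500000 * s ^ 2 * t ^ 2 + 602433 / 250000 * s ^ 3 * t +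
      534763 / 1250000 * s ^ 4 := by
    positivity
  have e :
      14713859 / 10000000 * t ^ 4 + 6728407 / 1500000 * s * t ^ 3 +
      12476253 / 2500000 * s ^ 2 * t ^ 2 + 602433 / 250000 * s ^ 3 * t +
      534763 / 1250000 * s ^ 4 =
      (1 + 1 / 50 + (1 / 50) ^ 2 / 2) * (1 + u + 97 / 250 * u ^ 2) -
      (13534 / 100000 *
      (1 + (u + 2) + (u + 2) ^ 2 / 2 + (u + 2) ^ 3 / 6 + (u + 2) ^ 4 / 24)) := by
    rw [hs, ht]
    ring
  rw [e] at h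
  linarith

theorem ev_four_e13_d (u : ℝ) (h2 : u ≤ -3) :
    4979 / 100000 ≤
      (1 + 1 / 50 + (1 / 50) ^ 2 / 2) * (1 + u + 97 / 250 * u ^ 2) := by
  obtain ⟨s, hs⟩ : ∃ s, s = -3 - u := ⟨_, rfl⟩
  have hs0 : 0 ≤ s := by linarith
  have h : 0 ≤
      3680871 / 2500000 + 423383 / 312500 * s + 494797 / 1250000 * s ^ 2 := by
    positivity
  have e :
      3680871 / 2500000 + 423383 / 312500 * s + 494797 / 1250000 * s ^ 2 =
      (1 + 1 / 50 + (1 / 50) ^ 2 / 2) * (1 + u + 97 / 250 * u ^ 2) -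
      (4979 / 100000) := by
    rw [hs]
    ring
  rw [e] at h
  linarith

theorem ev_four_e13_e0 (u : ℝ) (h1 : 0 ≤ u) (h2 : u ≤ 1 / 10) :
    1 + u + u ^ 2 / 2 + u ^ 3 / 6 + u ^ 4 / 24 + u ^ 5 / 100 ≤
      (1 + 1 / 50 + (1 / 50) ^ 2 / 2) * ((1 + 3 / 100 * u ^ 2) *
      (1 + u + 97 / 250 * u ^ 2)) := by
  obtain ⟨s, hs⟩ : ∃ s, s = u - (0) := ⟨_, rfl⟩
  obtain ⟨t, ht⟩ : ∃ t, t = 1 / 10 - u := ⟨_, rfl⟩
  have hs0 : 0 ≤ s := by linarith
  have ht0 : 0 ≤ t := by linarith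
  have h : 0 ≤
      2020 * t ^ 5 + 10302 * s * t ^ 4 + 52336109 / 2500 * s ^ 2 * t ^ 3 +
      317665871 / 15000 * s ^ 3 * t ^ 2 + 133247759391 / 12500000 * s ^ 4 * t +
      80044860673 / 37500000 * s ^ 5 := by
    positivity
  have e :
      2020 * t ^ 5 + 10302 * s * t ^ 4 + 52336109 / 2500 * s ^ 2 * t ^ 3 +
      317665871 / 15000 * s ^ 3 * t ^ 2 + 133247759391 / 12500000 * s ^ 4 * t +
      80044860673 / 37500000 * s ^ 5 =
      (1 + 1 / 50 + (1 / 50) ^ 2 / 2) * ((1 + 3 / 100 * u ^ 2) *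
      (1 + u + 97 / 250 * u ^ 2)) -
      (1 + u + u ^ 2 / 2 + u ^ 3 / 6 + u ^ 4 / 24 + u ^ 5 / 100) := by
    rw [hs, ht]
    ring
  rw [e] at h
  linarith

theorem ev_four_e13_g0 (u : ℝ) (h1 : 1 / 10 ≤ u) (h2 : u ≤ 2) :
    55259 / 50000 * (1 + (u - 1 / 10) / 4) ^ 4 ≤
      (1 + 1 / 50 + (1 / 50) ^ 2 / 2) * ((1 + (3 / 100 * u ^ 2) + (3 / 100 * u ^ 2) ^ 2 / 2 +
      (3 / 100 * u ^ 2) ^ 3 / 6) *
      (1 + u + 97 / 250 * u ^ 2)) := by
  obtain ⟨s, hs⟩ : ∃ s, s = u - (1 / 10) := ⟨_, rfl⟩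
  obtain ⟨t, ht⟩ : ∃ t, t = 2 - u := ⟨_, rfl⟩
  have hs0 : 0 ≤ s := by linarith
  have ht0 : 0 ≤ t := by linarith
  have h : 0 ≤
      5334070048973680673 / 42458907602500000000000 * t ^ 8 +
      2163944358163197009 / 2122945380125000000000 * s * t ^ 7 +
      866940527414431713 / 212294538012500000000 * s ^ 2 * t ^ 6 +
      46595301131716263 / 5307363450312500000 * s ^ 3 * t ^ 5 +
      17252970920005329 / 1698356304100000000 * s ^ 4 * t ^ 4 +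
      2529090904244641 / 424589076025000000 * s ^ 5 * t ^ 3 +
      237118015752439 / 169835630410000000 * s ^ 6 * t ^ 2 +
      600081159633 / 16983563041000000 * s ^ 7 * t + 384085700741 / 13586850432800000 * s ^ 8 := by
    positivity
  have e :
      5334070048973680673 / 42458907602500000000000 * t ^ 8 +
      2163944358163197009 / 2122945380125000000000 * s * t ^ 7 +
      866940527414431713 / 212294538012500000000 * s ^ 2 * t ^ 6 +
      46595301131716263 / 5307363450312500000 * s ^ 3 * t ^ 5 +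
      17252970920005329 / 1698356304100000000 * s ^ 4 * t ^ 4 +
      2529090904244641 / 424589076025000000 * s ^ 5 * t ^ 3 +
      237118015752439 / 169835630410000000 * s ^ 6 * t ^ 2 +
      600081159633 / 16983563041000000 * s ^ 7 * t + 384085700741 / 13586850432800000 * s ^ 8 =
      (1 + 1 / 50 + (1 / 50) ^ 2 / 2) * ((1 + (3 / 100 * u ^ 2) + (3 / 100 * u ^ 2) ^ 2 / 2 +
      (3 / 100 * u ^ 2) ^ 3 / 6) *
      (1 + u + 97 / 250 * u ^ 2)) -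
      (55259 / 50000 * (1 + (u - 1 / 10) / 4) ^ 4) := by
    rw [hs, ht]
    ring
  rw [e] at h
  linarith

theorem ev_four_e13_t (u : ℝ) (h1 : 2 ≤ u) :
    55259 / 50000 * (1 + (u - 1 / 10) / 4) ^ 4 ≤
      (1 + 1 / 50 + (1 / 50) ^ 2 / 2) * ((1 + (3 / 100 * u ^ 2) + (3 / 100 * u ^ 2) ^ 2 / 2 +
      (3 / 100 * u ^ 2) ^ 3 / 6) *
      (1 + u + 97 / 250 * u ^ 2)) := by
  obtain ⟨s, hs⟩ : ∃ s, s = u - (2) := ⟨_, rfl⟩
  have hs0 : 0 ≤ s := by linarith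
  have h : 0 ≤
      384085700741 / 80000000000000 + 170567149883 / 10000000000000 * s +
      912859639439 / 10000000000000 * s ^ 2 + 201893380891 / 2500000000000 * s ^ 3 +
      26851551329 / 1000000000000 * s ^ 4 + 1198546263 / 312500000000 * s ^ 5 +
      558115713 / 1250000000000 * s ^ 6 + 41364009 / 1250000000000 * s ^ 7 +
      4453173 / 2500000000000 * s ^ 8 := by
    positivity
  have e :
      384085700741 / 80000000000000 + 170567149883 / 10000000000000 * s +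
      912859639439 / 10000000000000 * s ^ 2 + 201893380891 / 2500000000000 * s ^ 3 +
      26851551329 / 1000000000000 * s ^ 4 + 1198546263 / 312500000000 * s ^ 5 +
      558115713 / 1250000000000 * s ^ 6 + 41364009 / 1250000000000 * s ^ 7 +
      4453173 / 2500000000000 * s ^ 8 =
      (1 + 1 / 50 + (1 / 50) ^ 2 / 2) * ((1 + (3 / 100 * u ^ 2) + (3 / 100 * u ^ 2) ^ 2 / 2 +
      (3 / 100 * u ^ 2) ^ 3 / 6) *
      (1 + u + 97 / 250 * u ^ 2)) -
      (55259 / 50000 * (1 + (u - 1 / 10) / 4) ^ 4) := by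
    rw [hs]
    ring
  rw [e] at h
  linarith

/-- `K = 4`: `(c, μ, P, δ) = (97 / 250, 3 / 100, 1 / 10, 1 / 50)` -/
theorem expFd_four_e13 : ExpFd 4 (97 / 250) (3 / 100) (1 / 10) (1 / 50) := by
  have hde : (1 + 1 / 50 + (1 / 50) ^ 2 / 2) ≤ Real.exp (1 / 50) :=
    Real.quadratic_le_exp_of_nonneg (by norm_num)
  have hq : ∀ u : ℝ, 0 ≤ 1 + u + 97 / 250 * u ^ 2 := fun u => by
    nlinarith [sq_nonneg (u + 2), sq_nonneg u]
  have hR : ∀ (u x y : ℝ), x ≤ y →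
      y ≤ (1 + 1 / 50 + (1 / 50) ^ 2 / 2) * (1 + u + 97 / 250 * u ^ 2) →
      x ≤ Real.exp (1 / 50) * (1 + u + 97 / 250 * u ^ 2) := fun u x y h1 h2 =>
    (h1.trans h2).trans (mul_le_mul_of_nonneg_right hde (hq u))
  refine ExpFd.of (by norm_num) (by norm_num) (by norm_num) (by norm_num) (by norm_num) ?_ ?_ ?_
  · intro u h1
    rcases le_total u (-3) with h3 | h3
    · exact hR u _ _ (ev_exp_n3 h3) (ev_four_e13_d u h3)
    rcases le_total u (-2) with h4 | h4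
    · refine hR u _ _ (ev_exp_n2 h4) ?_
      exact ev_four_e13_c0 u (by linarith) (by linarith)
    rcases le_total u (-1) with h5 | h5
    · refine hR u _ _ (ev_exp_n1 h5) ?_
      exact ev_four_e13_b0 u (by linarith) (by linarith)
    refine hR u _ _ (ev_exp_n0 h1) ?_
    rcases le_total u (-3 / 4) with hh | hh
    · exact ev_four_e13_a0 u (by linarith) (by linarith)
    rcases le_total u (-1 / 2) with hh | hh
    · exact ev_four_e13_a1 u (by linarith) (by linarith)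
    exact ev_four_e13_a2 u (by linarith) (by linarith)
  · intro u h1 h2
    have h5 := mul_le_mul_of_nonneg_right (Real.add_one_le_exp (3 / 100 * u ^ 2)) (hq u)
    rw [add_comm (3 / 100 * u ^ 2) 1] at h5
    have h6 : 0 ≤ Real.exp (3 / 100 * u ^ 2) * (1 + u + 97 / 250 * u ^ 2) :=
      mul_nonneg (Real.exp_nonneg _) (hq u)
    rw [Real.exp_add, mul_assoc]
    refine ((ev_exp_p h1 (by linarith)).trans ?_).trans
      ((mul_le_mul_of_nonneg_left h5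
        (by norm_num : (0 : ℝ) ≤ (1 + 1 / 50 + (1 / 50) ^ 2 / 2))).trans
        (mul_le_mul_of_nonneg_right hde h6))
    exact ev_four_e13_e0 u (by linarith) (by linarith)
  · intro u h1
    have h4 : 0 ≤ (1 + (u - 1 / 10) / 4) ^ 4 := by
      have : 0 ≤ (u - 1 / 10) / 4 := div_nonneg (by linarith) (by norm_num)
      positivity
    have hE : Real.exp (1 / 10) ≤ 55259 / 50000 := ev_up_1_10
    have hx : 0 ≤ 3 / 100 * u ^ 2 := by positivity
    have h5 := mul_le_mul_of_nonneg_right (taylor3_le_expE _ hx) (hq u)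
    have h6 : 0 ≤ Real.exp (3 / 100 * u ^ 2) * (1 + u + 97 / 250 * u ^ 2) :=
      mul_nonneg (Real.exp_nonneg _) (hq u)
    rw [Real.exp_add, mul_assoc]
    push_cast
    refine ((mul_le_mul_of_nonneg_right hE h4).trans ?_).trans
      ((mul_le_mul_of_nonneg_left h5
        (by norm_num : (0 : ℝ) ≤ (1 + 1 / 50 + (1 / 50) ^ 2 / 2))).trans
        (mul_le_mul_of_nonneg_right hde h6))
    rcases le_total u (2) with hh | hh
    · exact ev_four_e13_g0 u (by linarith) (by linarith)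
    exact ev_four_e13_t u (by linarith)

theorem ev_four_e14_a0 (u : ℝ) (h1 : -1 ≤ u) (h2 : u ≤ -7 / 8) :
    1 + u + u ^ 2 / 2 + u ^ 3 / 6 + u ^ 4 / 24 ≤
      (1 + 1 / 20 + (1 / 20) ^ 2 / 2) * (1 + u + 9 / 25 * u ^ 2) := by
  obtain ⟨s, hs⟩ : ∃ s, s = u - (-1) := ⟨_, rfl⟩
  obtain ⟨t, ht⟩ : ∃ t, t = -7 / 8 - u := ⟨_, rfl⟩
  have hs0 : 0 ≤ s := by linarith
  have ht0 : 0 ≤ t := by linarith
  have h : 0 ≤
      8832 / 625 * t ^ 4 + 13712 / 375 * s * t ^ 3 + 20706 / 625 * s ^ 2 * t ^ 2 +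
      1636 / 125 * s ^ 3 * t + 35263 / 15000 * s ^ 4 := by
    positivity
  have e :
      8832 / 625 * t ^ 4 + 13712 / 375 * s * t ^ 3 + 20706 / 625 * s ^ 2 * t ^ 2 +
      1636 / 125 * s ^ 3 * t + 35263 / 15000 * s ^ 4 =
      (1 + 1 / 20 + (1 / 20) ^ 2 / 2) * (1 + u + 9 / 25 * u ^ 2) -
      (1 + u + u ^ 2 / 2 + u ^ 3 / 6 + u ^ 4 / 24) := by
    rw [hs, ht]
    ring
  rw [e] at h
  linarith

theorem ev_four_e14_a1 (u : ℝ) (h1 : -7 / 8 ≤ u) (h2 : u ≤ -3 / 4) :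
    1 + u + u ^ 2 / 2 + u ^ 3 / 6 + u ^ 4 / 24 ≤
      (1 + 1 / 20 + (1 / 20) ^ 2 / 2) * (1 + u + 9 / 25 * u ^ 2) := by
  obtain ⟨s, hs⟩ : ∃ s, s = u - (-7 / 8) := ⟨_, rfl⟩
  obtain ⟨t, ht⟩ : ∃ t, t = -3 / 4 - u := ⟨_, rfl⟩
  have hs0 : 0 ≤ s := by linarith
  have ht0 : 0 ≤ t := by linarith
  have h : 0 ≤
      35263 / 15000 * t ^ 4 + 10723 / 1875 * s * t ^ 3 + 6889 / 625 * s ^ 2 * t ^ 2 +
      8828 / 625 * s ^ 3 * t + 4018 / 625 * s ^ 4 := by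
    positivity
  have e :
      35263 / 15000 * t ^ 4 + 10723 / 1875 * s * t ^ 3 + 6889 / 625 * s ^ 2 * t ^ 2 +
      8828 / 625 * s ^ 3 * t + 4018 / 625 * s ^ 4 =
      (1 + 1 / 20 + (1 / 20) ^ 2 / 2) * (1 + u + 9 / 25 * u ^ 2) -
      (1 + u + u ^ 2 / 2 + u ^ 3 / 6 + u ^ 4 / 24) := by
    rw [hs, ht]
    ring
  rw [e] at h
  linarith

theorem ev_four_e14_a2 (u : ℝ) (h1 : -3 / 4 ≤ u) (h2 : u ≤ -1 / 2) :
    1 + u + u ^ 2 / 2 + u ^ 3 / 6 + u ^ 4 / 24 ≤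
      (1 + 1 / 20 + (1 / 20) ^ 2 / 2) * (1 + u + 9 / 25 * u ^ 2) := by
  obtain ⟨s, hs⟩ : ∃ s, s = u - (-3 / 4) := ⟨_, rfl⟩
  obtain ⟨t, ht⟩ : ∃ t, t = -1 / 2 - u := ⟨_, rfl⟩
  have hs0 : 0 ≤ s := by linarith
  have ht0 : 0 ≤ t := by linarith
  have h : 0 ≤
      2009 / 5000 * t ^ 4 + 382 / 125 * s * t ^ 3 + 10703 / 1250 * s ^ 2 * t ^ 2 +
      3524 / 375 * s ^ 3 * t + 6464 / 1875 * s ^ 4 := by
    positivity
  have e :
      2009 / 5000 * t ^ 4 + 382 / 125 * s * t ^ 3 + 10703 / 1250 * s ^ 2 * t ^ 2 +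
      3524 / 375 * s ^ 3 * t + 6464 / 1875 * s ^ 4 =
      (1 + 1 / 20 + (1 / 20) ^ 2 / 2) * (1 + u + 9 / 25 * u ^ 2) -
      (1 + u + u ^ 2 / 2 + u ^ 3 / 6 + u ^ 4 / 24) := by
    rw [hs, ht]
    ring
  rw [e] at h
  linarith

theorem ev_four_e14_a3 (u : ℝ) (h1 : -1 / 2 ≤ u) (h2 : u ≤ 0) :
    1 + u + u ^ 2 / 2 + u ^ 3 / 6 + u ^ 4 / 24 ≤
      (1 + 1 / 20 + (1 / 20) ^ 2 / 2) * (1 + u + 9 / 25 * u ^ 2) := by
  obtain ⟨s, hs⟩ : ∃ s, s = u - (-1 / 2) := ⟨_, rfl⟩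
  obtain ⟨t, ht⟩ : ∃ t, t = 0 - u := ⟨_, rfl⟩
  have hs0 : 0 ≤ s := by linarith
  have ht0 : 0 ≤ t := by linarith
  have h : 0 ≤
      404 / 1875 * t ^ 4 + 5291 / 3750 * s * t ^ 3 + 16019 / 5000 * s ^ 2 * t ^ 2 +
      287 / 100 * s ^ 3 * t + 41 / 50 * s ^ 4 := by
    positivity
  have e :
      404 / 1875 * t ^ 4 + 5291 / 3750 * s * t ^ 3 + 16019 / 5000 * s ^ 2 * t ^ 2 +
      287 / 100 * s ^ 3 * t + 41 / 50 * s ^ 4 =
      (1 + 1 / 20 + (1 / 20) ^ 2 / 2) * (1 + u + 9 / 25 * u ^ 2) -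
      (1 + u + u ^ 2 / 2 + u ^ 3 / 6 + u ^ 4 / 24) := by
    rw [hs, ht]
    ring
  rw [e] at h
  linarith

theorem ev_four_e14_b0 (u : ℝ) (h1 : -2 ≤ u) (h2 : u ≤ -1) :
    36788 / 100000 *
      (1 + (u + 1) + (u + 1) ^ 2 / 2 + (u + 1) ^ 3 / 6 + (u + 1) ^ 4 / 24) ≤
      (1 + 1 / 20 + (1 / 20) ^ 2 / 2) * (1 + u + 9 / 25 * u ^ 2) := by
  obtain ⟨s, hs⟩ : ∃ s, s = u - (-2) := ⟨_, rfl⟩
  obtain ⟨t, ht⟩ : ∃ t, t = -1 - u := ⟨_, rfl⟩
  have hs0 : 0 ≤ s := by linarith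
  have ht0 : 0 ≤ t := by linarith
  have h : 0 ≤
      64919 / 200000 * t ^ 4 + 213961 / 300000 * s * t ^ 3 + 11963 / 25000 * s ^ 2 * t ^ 2 +
      11581 / 100000 * s ^ 3 * t + 1057 / 100000 * s ^ 4 := by
    positivity
  have e :
      64919 / 200000 * t ^ 4 + 213961 / 300000 * s * t ^ 3 + 11963 / 25000 * s ^ 2 * t ^ 2 +
      11581 / 100000 * s ^ 3 * t + 1057 / 100000 * s ^ 4 =
      (1 + 1 / 20 + (1 / 20) ^ 2 / 2) * (1 + u + 9 / 25 * u ^ 2) -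
      (36788 / 100000 *
      (1 + (u + 1) + (u + 1) ^ 2 / 2 + (u + 1) ^ 3 / 6 + (u + 1) ^ 4 / 24)) := by
    rw [hs, ht]
    ring
  rw [e] at h
  linarith

theorem ev_four_e14_c0 (u : ℝ) (h1 : -3 ≤ u) (h2 : u ≤ -2) :
    13534 / 100000 *
      (1 + (u + 2) + (u + 2) ^ 2 / 2 + (u + 2) ^ 3 / 6 + (u + 2) ^ 4 / 24) ≤
      (1 + 1 / 20 + (1 / 20) ^ 2 / 2) * (1 + u + 9 / 25 * u ^ 2) := by
  obtain ⟨s, hs⟩ : ∃ s, s = u - (-3) := ⟨_, rfl⟩
  obtain ⟨t, ht⟩ : ∃ t, t = -2 - u := ⟨_, rfl⟩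
  have hs0 : 0 ≤ s := by linarith
  have ht0 : 0 ≤ t := by linarith
  have h : 0 ≤
      501119 / 400000 * t ^ 4 + 280997 / 75000 * s * t ^ 3 +
      406771 / 100000 * s ^ 2 * t ^ 2 + 190673 / 100000 * s ^ 3 * t + 32721 / 100000 * s ^ 4 := by
    positivity
  have e :
      501119 / 400000 * t ^ 4 + 280997 / 75000 * s * t ^ 3 +
      406771 / 100000 * s ^ 2 * t ^ 2 + 190673 / 100000 * s ^ 3 * t + 32721 / 100000 * s ^ 4 =
      (1 + 1 / 20 + (1 / 20) ^ 2 / 2) * (1 + u + 9 / 25 * u ^ 2) -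
      (13534 / 100000 *
      (1 + (u + 2) + (u + 2) ^ 2 / 2 + (u + 2) ^ 3 / 6 + (u + 2) ^ 4 / 24)) := by
    rw [hs, ht]
    ring
  rw [e] at h
  linarith

theorem ev_four_e14_d (u : ℝ) (h2 : u ≤ -3) :
    4979 / 100000 ≤
      (1 + 1 / 20 + (1 / 20) ^ 2 / 2) * (1 + u + 9 / 25 * u ^ 2) := by
  obtain ⟨s, hs⟩ : ∃ s, s = -3 - u := ⟨_, rfl⟩
  have hs0 : 0 ≤ s := by linarith
  have h : 0 ≤
      3918 / 3125 + 24389 / 20000 * s + 7569 / 20000 * s ^ 2 := by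
    positivity
  have e :
      3918 / 3125 + 24389 / 20000 * s + 7569 / 20000 * s ^ 2 =
      (1 + 1 / 20 + (1 / 20) ^ 2 / 2) * (1 + u + 9 / 25 * u ^ 2) -
      (4979 / 100000) := by
    rw [hs]
    ring
  rw [e] at h
  linarith

theorem ev_four_e14_e0 (u : ℝ) (h1 : 0 ≤ u) (h2 : u ≤ 1 / 10) :
    1 + u + u ^ 2 / 2 + u ^ 3 / 6 + u ^ 4 / 24 + u ^ 5 / 100 ≤
      (1 + 1 / 20 + (1 / 20) ^ 2 / 2) * ((1 + 3 / 100 * u ^ 2) *
      (1 + u + 9 / 25 * u ^ 2)) := by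
  obtain ⟨s, hs⟩ : ∃ s, s = u - (0) := ⟨_, rfl⟩
  obtain ⟨t, ht⟩ : ∃ t, t = 1 / 10 - u := ⟨_, rfl⟩
  have hs0 : 0 ≤ s := by linarith
  have ht0 : 0 ≤ t := by linarith
  have h : 0 ≤
      5125 * t ^ 5 + 52275 / 2 * s * t ^ 4 + 4256799 / 80 * s ^ 2 * t ^ 3 +
      129699479 / 2400 * s ^ 3 * t ^ 2 + 5475526707 / 200000 * s ^ 4 * t +
      3320196871 / 600000 * s ^ 5 := by
    positivity
  have e :
      5125 * t ^ 5 + 52275 / 2 * s * t ^ 4 + 4256799 / 80 * s ^ 2 * t ^ 3 +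
      129699479 / 2400 * s ^ 3 * t ^ 2 + 5475526707 / 200000 * s ^ 4 * t +
      3320196871 / 600000 * s ^ 5 =
      (1 + 1 / 20 + (1 / 20) ^ 2 / 2) * ((1 + 3 / 100 * u ^ 2) *
      (1 + u + 9 / 25 * u ^ 2)) -
      (1 + u + u ^ 2 / 2 + u ^ 3 / 6 + u ^ 4 / 24 + u ^ 5 / 100) := by
    rw [hs, ht]
    ring
  rw [e] at h
  linarith

theorem ev_four_e14_g0 (u : ℝ) (h1 : 1 / 10 ≤ u) (h2 : u ≤ 31 / 20) :
    55259 / 50000 * (1 + (u - 1 / 10) / 4) ^ 4 ≤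
      (1 + 1 / 20 + (1 / 20) ^ 2 / 2) * ((1 + (3 / 100 * u ^ 2) + (3 / 100 * u ^ 2) ^ 2 / 2 +
      (3 / 100 * u ^ 2) ^ 3 / 6) *
      (1 + u + 9 / 25 * u ^ 2)) := by
  obtain ⟨s, hs⟩ : ∃ s, s = u - (1 / 10) := ⟨_, rfl⟩
  obtain ⟨t, ht⟩ : ∃ t, t = 31 / 20 - u := ⟨_, rfl⟩
  have hs0 : 0 ≤ s := by linarith
  have ht0 : 0 ≤ t := by linarith
  have h : 0 ≤
      221310400249592871 / 78163502025156250000 * t ^ 8 +
      1939038036239485879 / 78163502025156250000 * s * t ^ 7 +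
      14849374587960415559 / 156327004050312500000 * s ^ 2 * t ^ 6 +
      63289116004790678783 / 312654008100625000000 * s ^ 3 * t ^ 5 +
      16202496732811564081 / 62530801620125000000 * s ^ 4 * t ^ 4 +
      253205440162092831213 / 1250616032402500000000 * s ^ 5 * t ^ 3 +
      234864980389164856489 / 2501232064805000000000 * s ^ 6 * t ^ 2 +
      118387140163412352349 / 5002464129610000000000 * s ^ 7 * t +
      50672634781095527861 / 20009856518440000000000 * s ^ 8 := by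
    positivity
  have e :
      221310400249592871 / 78163502025156250000 * t ^ 8 +
      1939038036239485879 / 78163502025156250000 * s * t ^ 7 +
      14849374587960415559 / 156327004050312500000 * s ^ 2 * t ^ 6 +
      63289116004790678783 / 312654008100625000000 * s ^ 3 * t ^ 5 +
      16202496732811564081 / 62530801620125000000 * s ^ 4 * t ^ 4 +
      253205440162092831213 / 1250616032402500000000 * s ^ 5 * t ^ 3 +
      234864980389164856489 / 2501232064805000000000 * s ^ 6 * t ^ 2 +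
      118387140163412352349 / 5002464129610000000000 * s ^ 7 * t +
      50672634781095527861 / 20009856518440000000000 * s ^ 8 =
      (1 + 1 / 20 + (1 / 20) ^ 2 / 2) * ((1 + (3 / 100 * u ^ 2) + (3 / 100 * u ^ 2) ^ 2 / 2 +
      (3 / 100 * u ^ 2) ^ 3 / 6) *
      (1 + u + 9 / 25 * u ^ 2)) -
      (55259 / 50000 * (1 + (u - 1 / 10) / 4) ^ 4) := by
    rw [hs, ht]
    ring
  rw [e] at h
  linarith

theorem ev_four_e14_g1 (u : ℝ) (h1 : 31 / 20 ≤ u) (h2 : u ≤ 3) :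
    55259 / 50000 * (1 + (u - 1 / 10) / 4) ^ 4 ≤
      (1 + 1 / 20 + (1 / 20) ^ 2 / 2) * ((1 + (3 / 100 * u ^ 2) + (3 / 100 * u ^ 2) ^ 2 / 2 +
      (3 / 100 * u ^ 2) ^ 3 / 6) *
      (1 + u + 9 / 25 * u ^ 2)) := by
  obtain ⟨s, hs⟩ : ∃ s, s = u - (31 / 20) := ⟨_, rfl⟩
  obtain ⟨t, ht⟩ : ∃ t, t = 3 - u := ⟨_, rfl⟩
  have hs0 : 0 ≤ s := by linarith
  have ht0 : 0 ≤ t := by linarith
  have h : 0 ≤
      50672634781095527861 / 20009856518440000000000 * t ^ 8 +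
      16860679792193951819 / 1000492825922000000000 * s * t ^ 7 +
      1155718861806157801 / 25012320648050000000 * s ^ 2 * t ^ 6 +
      177376545223823377 / 2501232064805000000 * s ^ 3 * t ^ 5 +
      1958591358961419 / 25012320648050000 * s ^ 4 * t ^ 4 +
      506796552425663 / 6253080162012500 * s ^ 5 * t ^ 3 +
      45356313050019 / 625308016201250 * s ^ 6 * t ^ 2 +
      2508377554234 / 62530801620125 * s ^ 7 * t + 116979369401 / 12506160324025 * s ^ 8 := by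
    positivity
  have e :
      50672634781095527861 / 20009856518440000000000 * t ^ 8 +
      16860679792193951819 / 1000492825922000000000 * s * t ^ 7 +
      1155718861806157801 / 25012320648050000000 * s ^ 2 * t ^ 6 +
      177376545223823377 / 2501232064805000000 * s ^ 3 * t ^ 5 +
      1958591358961419 / 25012320648050000 * s ^ 4 * t ^ 4 +
      506796552425663 / 6253080162012500 * s ^ 5 * t ^ 3 +
      45356313050019 / 625308016201250 * s ^ 6 * t ^ 2 +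
      2508377554234 / 62530801620125 * s ^ 7 * t + 116979369401 / 12506160324025 * s ^ 8 =
      (1 + 1 / 20 + (1 / 20) ^ 2 / 2) * ((1 + (3 / 100 * u ^ 2) + (3 / 100 * u ^ 2) ^ 2 / 2 +
      (3 / 100 * u ^ 2) ^ 3 / 6) *
      (1 + u + 9 / 25 * u ^ 2)) -
      (55259 / 50000 * (1 + (u - 1 / 10) / 4) ^ 4) := by
    rw [hs, ht]
    ring
  rw [e] at h
  linarith

theorem ev_four_e14_t (u : ℝ) (h1 : 3 ≤ u) :
    55259 / 50000 * (1 + (u - 1 / 10) / 4) ^ 4 ≤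
      (1 + 1 / 20 + (1 / 20) ^ 2 / 2) * ((1 + (3 / 100 * u ^ 2) + (3 / 100 * u ^ 2) ^ 2 / 2 +
      (3 / 100 * u ^ 2) ^ 3 / 6) *
      (1 + u + 9 / 25 * u ^ 2)) := by
  obtain ⟨s, hs⟩ : ∃ s, s = u - (3) := ⟨_, rfl⟩
  have hs0 : 0 ≤ s := by linarith
  have h : 0 ≤
      116979369401 / 640000000000 + 37427538307 / 80000000000 * s +
      39882284679 / 80000000000 * s ^ 2 + 9119345193 / 40000000000 * s ^ 3 +
      418891639 / 8000000000 * s ^ 4 + 283708827 / 40000000000 * s ^ 5 +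
      14070771 / 20000000000 * s ^ 6 + 1824129 / 40000000000 * s ^ 7 +
      68121 / 40000000000 * s ^ 8 := by
    positivity
  have e :
      116979369401 / 640000000000 + 37427538307 / 80000000000 * s +
      39882284679 / 80000000000 * s ^ 2 + 9119345193 / 40000000000 * s ^ 3 +
      418891639 / 8000000000 * s ^ 4 + 283708827 / 40000000000 * s ^ 5 +
      14070771 / 20000000000 * s ^ 6 + 1824129 / 40000000000 * s ^ 7 +
      68121 / 40000000000 * s ^ 8 =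
      (1 + 1 / 20 + (1 / 20) ^ 2 / 2) * ((1 + (3 / 100 * u ^ 2) + (3 / 100 * u ^ 2) ^ 2 / 2 +
      (3 / 100 * u ^ 2) ^ 3 / 6) *
      (1 + u + 9 / 25 * u ^ 2)) -
      (55259 / 50000 * (1 + (u - 1 / 10) / 4) ^ 4) := by
    rw [hs]
    ring
  rw [e] at h
  linarith

/-- `K = 4`: `(c, μ, P, δ) = (9 / 25, 3 / 100, 1 / 10, 1 / 20)` -/
theorem expFd_four_e14 : ExpFd 4 (9 / 25) (3 / 100) (1 / 10) (1 / 20) := by
  have hde : (1 + 1 / 20 + (1 / 20) ^ 2 / 2) ≤ Real.exp (1 / 20) :=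
    Real.quadratic_le_exp_of_nonneg (by norm_num)
  have hq : ∀ u : ℝ, 0 ≤ 1 + u + 9 / 25 * u ^ 2 := fun u => by
    nlinarith [sq_nonneg (u + 2), sq_nonneg u]
  have hR : ∀ (u x y : ℝ), x ≤ y →
      y ≤ (1 + 1 / 20 + (1 / 20) ^ 2 / 2) * (1 + u + 9 / 25 * u ^ 2) →
      x ≤ Real.exp (1 / 20) * (1 + u + 9 / 25 * u ^ 2) := fun u x y h1 h2 =>
    (h1.trans h2).trans (mul_le_mul_of_nonneg_right hde (hq u))
  refine ExpFd.of (by norm_num) (by norm_num) (by norm_num) (by norm_num) (by norm_num) ?_ ?_ ?_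
  · intro u h1
    rcases le_total u (-3) with h3 | h3
    · exact hR u _ _ (ev_exp_n3 h3) (ev_four_e14_d u h3)
    rcases le_total u (-2) with h4 | h4
    · refine hR u _ _ (ev_exp_n2 h4) ?_
      exact ev_four_e14_c0 u (by linarith) (by linarith)
    rcases le_total u (-1) with h5 | h5
    · refine hR u _ _ (ev_exp_n1 h5) ?_
      exact ev_four_e14_b0 u (by linarith) (by linarith)
    refine hR u _ _ (ev_exp_n0 h1) ?_
    rcases le_total u (-7 / 8) with hh | hh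
    · exact ev_four_e14_a0 u (by linarith) (by linarith)
    rcases le_total u (-3 / 4) with hh | hh
    · exact ev_four_e14_a1 u (by linarith) (by linarith)
    rcases le_total u (-1 / 2) with hh | hh
    · exact ev_four_e14_a2 u (by linarith) (by linarith)
    exact ev_four_e14_a3 u (by linarith) (by linarith)
  · intro u h1 h2
    have h5 := mul_le_mul_of_nonneg_right (Real.add_one_le_exp (3 / 100 * u ^ 2)) (hq u)
    rw [add_comm (3 / 100 * u ^ 2) 1] at h5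
    have h6 : 0 ≤ Real.exp (3 / 100 * u ^ 2) * (1 + u + 9 / 25 * u ^ 2) :=
      mul_nonneg (Real.exp_nonneg _) (hq u)
    rw [Real.exp_add, mul_assoc]
    refine ((ev_exp_p h1 (by linarith)).trans ?_).trans
      ((mul_le_mul_of_nonneg_left h5
        (by norm_num : (0 : ℝ) ≤ (1 + 1 / 20 + (1 / 20) ^ 2 / 2))).trans
        (mul_le_mul_of_nonneg_right hde h6))
    exact ev_four_e14_e0 u (by linarith) (by linarith)
  · intro u h1
    have h4 : 0 ≤ (1 + (u - 1 / 10) / 4) ^ 4 := by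
      have : 0 ≤ (u - 1 / 10) / 4 := div_nonneg (by linarith) (by norm_num)
      positivity
    have hE : Real.exp (1 / 10) ≤ 55259 / 50000 := ev_up_1_10
    have hx : 0 ≤ 3 / 100 * u ^ 2 := by positivity
    have h5 := mul_le_mul_of_nonneg_right (taylor3_le_expE _ hx) (hq u)
    have h6 : 0 ≤ Real.exp (3 / 100 * u ^ 2) * (1 + u + 9 / 25 * u ^ 2) :=
      mul_nonneg (Real.exp_nonneg _) (hq u)
    rw [Real.exp_add, mul_assoc]
    push_cast
    refine ((mul_le_mul_of_nonneg_right hE h4).trans ?_).trans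
      ((mul_le_mul_of_nonneg_left h5
        (by norm_num : (0 : ℝ) ≤ (1 + 1 / 20 + (1 / 20) ^ 2 / 2))).trans
        (mul_le_mul_of_nonneg_right hde h6))
    rcases le_total u (31 / 20) with hh | hh
    · exact ev_four_e14_g0 u (by linarith) (by linarith)
    rcases le_total u (3) with hh | hh
    · exact ev_four_e14_g1 u (by linarith) (by linarith)
    exact ev_four_e14_t u (by linarith)

theorem ev_four_e15_a0 (u : ℝ) (h1 : -1 ≤ u) (h2 : u ≤ 0) :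
    1 + u + u ^ 2 / 2 + u ^ 3 / 6 + u ^ 4 / 24 ≤
      (1 + 1 / 10 + (1 / 10) ^ 2 / 2) * (1 + u + 17 / 50 * u ^ 2) := by
  obtain ⟨s, hs⟩ : ∃ s, s = u - (-1) := ⟨_, rfl⟩
  obtain ⟨t, ht⟩ : ∃ t, t = 0 - u := ⟨_, rfl⟩
  have hs0 : 0 ≤ s := by linarith
  have ht0 : 0 ≤ t := by linarith
  have h : 0 ≤
      7 / 10000 * t ^ 4 + 173 / 7500 * s * t ^ 3 + 1907 / 10000 * s ^ 2 * t ^ 2 +
      63 / 200 * s ^ 3 * t + 21 / 200 * s ^ 4 := by
    positivity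
  have e :
      7 / 10000 * t ^ 4 + 173 / 7500 * s * t ^ 3 + 1907 / 10000 * s ^ 2 * t ^ 2 +
      63 / 200 * s ^ 3 * t + 21 / 200 * s ^ 4 =
      (1 + 1 / 10 + (1 / 10) ^ 2 / 2) * (1 + u + 17 / 50 * u ^ 2) -
      (1 + u + u ^ 2 / 2 + u ^ 3 / 6 + u ^ 4 / 24) := by
    rw [hs, ht]
    ring
  rw [e] at h
  linarith

theorem ev_four_e15_b0 (u : ℝ) (h1 : -2 ≤ u) (h2 : u ≤ -1) :
    36788 / 100000 *
      (1 + (u + 1) + (u + 1) ^ 2 / 2 + (u + 1) ^ 3 / 6 + (u + 1) ^ 4 / 24) ≤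
      (1 + 1 / 10 + (1 / 10) ^ 2 / 2) * (1 + u + 17 / 50 * u ^ 2) := by
  obtain ⟨s, hs⟩ : ∃ s, s = u - (-2) := ⟨_, rfl⟩
  obtain ⟨t, ht⟩ : ∃ t, t = -1 - u := ⟨_, rfl⟩
  have hs0 : 0 ≤ s := by linarith
  have ht0 : 0 ≤ t := by linarith
  have h : 0 ≤
      51969 / 200000 * t ^ 4 + 77843 / 150000 * s * t ^ 3 + 3519 / 12500 * s ^ 2 * t ^ 2 +
      1139 / 25000 * s ^ 3 * t + 391 / 50000 * s ^ 4 := by
    positivity
  have e :
      51969 / 200000 * t ^ 4 + 77843 / 150000 * s * t ^ 3 + 3519 / 12500 * s ^ 2 * t ^ 2 +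
      1139 / 25000 * s ^ 3 * t + 391 / 50000 * s ^ 4 =
      (1 + 1 / 10 + (1 / 10) ^ 2 / 2) * (1 + u + 17 / 50 * u ^ 2) -
      (36788 / 100000 *
      (1 + (u + 1) + (u + 1) ^ 2 / 2 + (u + 1) ^ 3 / 6 + (u + 1) ^ 4 / 24)) := by
    rw [hs, ht]
    ring
  rw [e] at h
  linarith

theorem ev_four_e15_c0 (u : ℝ) (h1 : -3 ≤ u) (h2 : u ≤ -2) :
    13534 / 100000 *
      (1 + (u + 2) + (u + 2) ^ 2 / 2 + (u + 2) ^ 3 / 6 + (u + 2) ^ 4 / 24) ≤
      (1 + 1 / 10 + (1 / 10) ^ 2 / 2) * (1 + u + 17 / 50 * u ^ 2) := by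
  obtain ⟨s, hs⟩ : ∃ s, s = u - (-3) := ⟨_, rfl⟩
  obtain ⟨t, ht⟩ : ∃ t, t = -2 - u := ⟨_, rfl⟩
  have hs0 : 0 ≤ s := by linarith
  have ht0 : 0 ≤ t := by linarith
  have h : 0 ≤
      448219 / 400000 * t ^ 4 + 986363 / 300000 * s * t ^ 3 +
      348221 / 100000 * s ^ 2 * t ^ 2 + 79149 / 50000 * s ^ 3 * t + 13123 / 50000 * s ^ 4 := by
    positivity
  have e :
      448219 / 400000 * t ^ 4 + 986363 / 300000 * s * t ^ 3 +
      348221 / 100000 * s ^ 2 * t ^ 2 + 79149 / 50000 * s ^ 3 * t + 13123 / 50000 * s ^ 4 =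
      (1 + 1 / 10 + (1 / 10) ^ 2 / 2) * (1 + u + 17 / 50 * u ^ 2) -
      (13534 / 100000 *
      (1 + (u + 2) + (u + 2) ^ 2 / 2 + (u + 2) ^ 3 / 6 + (u + 2) ^ 4 / 24)) := by
    rw [hs, ht]
    ring
  rw [e] at h
  linarith

theorem ev_four_e15_d (u : ℝ) (h2 : u ≤ -3) :
    4979 / 100000 ≤
      (1 + 1 / 10 + (1 / 10) ^ 2 / 2) * (1 + u + 17 / 50 * u ^ 2) := by
  obtain ⟨s, hs⟩ : ∃ s, s = -3 - u := ⟨_, rfl⟩
  have hs0 : 0 ≤ s := by linarith
  have h : 0 ≤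
      112151 / 100000 + 2873 / 2500 * s + 3757 / 10000 * s ^ 2 := by
    positivity
  have e :
      112151 / 100000 + 2873 / 2500 * s + 3757 / 10000 * s ^ 2 =
      (1 + 1 / 10 + (1 / 10) ^ 2 / 2) * (1 + u + 17 / 50 * u ^ 2) -
      (4979 / 100000) := by
    rw [hs]
    ring
  rw [e] at h
  linarith

theorem ev_four_e15_e0 (u : ℝ) (h1 : 0 ≤ u) (h2 : u ≤ 1 / 10) :
    1 + u + u ^ 2 / 2 + u ^ 3 / 6 + u ^ 4 / 24 + u ^ 5 / 100 ≤
      (1 + 1 / 10 + (1 / 10) ^ 2 / 2) * ((1 + 1 / 25 * u ^ 2) *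
      (1 + u + 17 / 50 * u ^ 2)) := by
  obtain ⟨s, hs⟩ : ∃ s, s = u - (0) := ⟨_, rfl⟩
  obtain ⟨t, ht⟩ : ∃ t, t = 1 / 10 - u := ⟨_, rfl⟩
  have hs0 : 0 ≤ s := by linarith
  have ht0 : 0 ≤ t := by linarith
  have h : 0 ≤
      10500 * t ^ 5 + 53550 * s * t ^ 4 + 1091199 / 10 * s ^ 2 * t ^ 3 +
      8328559 / 75 * s ^ 3 * t ^ 2 + 1410873507 / 25000 * s ^ 4 * t +
      859303271 / 75000 * s ^ 5 := by
    positivity
  have e :
      10500 * t ^ 5 + 53550 * s * t ^ 4 + 1091199 / 10 * s ^ 2 * t ^ 3 +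
      8328559 / 75 * s ^ 3 * t ^ 2 + 1410873507 / 25000 * s ^ 4 * t +
      859303271 / 75000 * s ^ 5 =
      (1 + 1 / 10 + (1 / 10) ^ 2 / 2) * ((1 + 1 / 25 * u ^ 2) *
      (1 + u + 17 / 50 * u ^ 2)) -
      (1 + u + u ^ 2 / 2 + u ^ 3 / 6 + u ^ 4 / 24 + u ^ 5 / 100) := by
    rw [hs, ht]
    ring
  rw [e] at h
  linarith

theorem ev_four_e15_g0 (u : ℝ) (h1 : 1 / 10 ≤ u) (h2 : u ≤ 2) :
    55259 / 50000 * (1 + (u - 1 / 10) / 4) ^ 4 ≤
      (1 + 1 / 10 + (1 / 10) ^ 2 / 2) * ((1 + (1 / 25 * u ^ 2) + (1 / 25 * u ^ 2) ^ 2 / 2 +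
      (1 / 25 * u ^ 2) ^ 3 / 6) *
      (1 + u + 17 / 50 * u ^ 2)) := by
  obtain ⟨s, hs⟩ : ∃ s, s = u - (1 / 10) := ⟨_, rfl⟩
  obtain ⟨t, ht⟩ : ∃ t, t = 2 - u := ⟨_, rfl⟩
  have hs0 : 0 ≤ s := by linarith
  have ht0 : 0 ≤ t := by linarith
  have h : 0 ≤
      3580150011048919 / 5307363450312500000 * t ^ 8 +
      1684968139998277 / 265368172515625000 * s * t ^ 7 +
      4136149860553309 / 159220903509375000 * s ^ 2 * t ^ 6 +
      632169544961199 / 10614726900625000 * s ^ 3 * t ^ 5 +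
      1142111873861893 / 13586850432800000 * s ^ 4 * t ^ 4 +
      773716118576191 / 10190137824600000 * s ^ 5 * t ^ 3 +
      59595502236163 / 1358685043280000 * s ^ 6 * t ^ 2 +
      2068528095461 / 135868504328000 * s ^ 7 * t + 811022427131 / 326084410387200 * s ^ 8 := by
    positivity
  have e :
      3580150011048919 / 5307363450312500000 * t ^ 8 +
      1684968139998277 / 265368172515625000 * s * t ^ 7 +
      4136149860553309 / 159220903509375000 * s ^ 2 * t ^ 6 +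
      632169544961199 / 10614726900625000 * s ^ 3 * t ^ 5 +
      1142111873861893 / 13586850432800000 * s ^ 4 * t ^ 4 +
      773716118576191 / 10190137824600000 * s ^ 5 * t ^ 3 +
      59595502236163 / 1358685043280000 * s ^ 6 * t ^ 2 +
      2068528095461 / 135868504328000 * s ^ 7 * t + 811022427131 / 326084410387200 * s ^ 8 =
      (1 + 1 / 10 + (1 / 10) ^ 2 / 2) * ((1 + (1 / 25 * u ^ 2) + (1 / 25 * u ^ 2) ^ 2 / 2 +
      (1 / 25 * u ^ 2) ^ 3 / 6) *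
      (1 + u + 17 / 50 * u ^ 2)) -
      (55259 / 50000 * (1 + (u - 1 / 10) / 4) ^ 4) := by
    rw [hs, ht]
    ring
  rw [e] at h
  linarith

theorem ev_four_e15_t (u : ℝ) (h1 : 2 ≤ u) :
    55259 / 50000 * (1 + (u - 1 / 10) / 4) ^ 4 ≤
      (1 + 1 / 10 + (1 / 10) ^ 2 / 2) * ((1 + (1 / 25 * u ^ 2) + (1 / 25 * u ^ 2) ^ 2 / 2 +
      (1 / 25 * u ^ 2) ^ 3 / 6) *
      (1 + u + 17 / 50 * u ^ 2)) := by
  obtain ⟨s, hs⟩ : ∃ s, s = u - (2) := ⟨_, rfl⟩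
  have hs0 : 0 ≤ s := by linarith
  have h : 0 ≤
      811022427131 / 1920000000000 + 100244209733 / 240000000000 * s +
      78264421489 / 240000000000 * s ^ 2 + 10123775941 / 60000000000 * s ^ 3 +
      1127143679 / 24000000000 * s ^ 4 + 3476993 / 468750000 * s ^ 5 +
      868309 / 937500000 * s ^ 6 + 35581 / 468750000 * s ^ 7 + 3757 / 937500000 * s ^ 8 := by
    positivity
  have e :
      811022427131 / 1920000000000 + 100244209733 / 240000000000 * s +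
      78264421489 / 240000000000 * s ^ 2 + 10123775941 / 60000000000 * s ^ 3 +
      1127143679 / 24000000000 * s ^ 4 + 3476993 / 468750000 * s ^ 5 +
      868309 / 937500000 * s ^ 6 + 35581 / 468750000 * s ^ 7 + 3757 / 937500000 * s ^ 8 =
      (1 + 1 / 10 + (1 / 10) ^ 2 / 2) * ((1 + (1 / 25 * u ^ 2) + (1 / 25 * u ^ 2) ^ 2 / 2 +
      (1 / 25 * u ^ 2) ^ 3 / 6) *
      (1 + u + 17 / 50 * u ^ 2)) -
      (55259 / 50000 * (1 + (u - 1 / 10) / 4) ^ 4) := by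
    rw [hs]
    ring
  rw [e] at h
  linarith

/-- `K = 4`: `(c, μ, P, δ) = (17 / 50, 1 / 25, 1 / 10, 1 / 10)` -/
theorem expFd_four_e15 : ExpFd 4 (17 / 50) (1 / 25) (1 / 10) (1 / 10) := by
  have hde : (1 + 1 / 10 + (1 / 10) ^ 2 / 2) ≤ Real.exp (1 / 10) :=
    Real.quadratic_le_exp_of_nonneg (by norm_num)
  have hq : ∀ u : ℝ, 0 ≤ 1 + u + 17 / 50 * u ^ 2 := fun u => by
    nlinarith [sq_nonneg (u + 2), sq_nonneg u]
  have hR : ∀ (u x y : ℝ), x ≤ y →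
      y ≤ (1 + 1 / 10 + (1 / 10) ^ 2 / 2) * (1 + u + 17 / 50 * u ^ 2) →
      x ≤ Real.exp (1 / 10) * (1 + u + 17 / 50 * u ^ 2) := fun u x y h1 h2 =>
    (h1.trans h2).trans (mul_le_mul_of_nonneg_right hde (hq u))
  refine ExpFd.of (by norm_num) (by norm_num) (by norm_num) (by norm_num) (by norm_num) ?_ ?_ ?_
  · intro u h1
    rcases le_total u (-3) with h3 | h3
    · exact hR u _ _ (ev_exp_n3 h3) (ev_four_e15_d u h3)
    rcases le_total u (-2) with h4 | h4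
    · refine hR u _ _ (ev_exp_n2 h4) ?_
      exact ev_four_e15_c0 u (by linarith) (by linarith)
    rcases le_total u (-1) with h5 | h5
    · refine hR u _ _ (ev_exp_n1 h5) ?_
      exact ev_four_e15_b0 u (by linarith) (by linarith)
    refine hR u _ _ (ev_exp_n0 h1) ?_
    exact ev_four_e15_a0 u (by linarith) (by linarith)
  · intro u h1 h2
    have h5 := mul_le_mul_of_nonneg_right (Real.add_one_le_exp (1 / 25 * u ^ 2)) (hq u)
    rw [add_comm (1 / 25 * u ^ 2) 1] at h5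
    have h6 : 0 ≤ Real.exp (1 / 25 * u ^ 2) * (1 + u + 17 / 50 * u ^ 2) :=
      mul_nonneg (Real.exp_nonneg _) (hq u)
    rw [Real.exp_add, mul_assoc]
    refine ((ev_exp_p h1 (by linarith)).trans ?_).trans
      ((mul_le_mul_of_nonneg_left h5
        (by norm_num : (0 : ℝ) ≤ (1 + 1 / 10 + (1 / 10) ^ 2 / 2))).trans
        (mul_le_mul_of_nonneg_right hde h6))
    exact ev_four_e15_e0 u (by linarith) (by linarith)
  · intro u h1
    have h4 : 0 ≤ (1 + (u - 1 / 10) / 4) ^ 4 := by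
      have : 0 ≤ (u - 1 / 10) / 4 := div_nonneg (by linarith) (by norm_num)
      positivity
    have hE : Real.exp (1 / 10) ≤ 55259 / 50000 := ev_up_1_10
    have hx : 0 ≤ 1 / 25 * u ^ 2 := by positivity
    have h5 := mul_le_mul_of_nonneg_right (taylor3_le_expE _ hx) (hq u)
    have h6 : 0 ≤ Real.exp (1 / 25 * u ^ 2) * (1 + u + 17 / 50 * u ^ 2) :=
      mul_nonneg (Real.exp_nonneg _) (hq u)
    rw [Real.exp_add, mul_assoc]
    push_cast
    refine ((mul_le_mul_of_nonneg_right hE h4).trans ?_).trans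
      ((mul_le_mul_of_nonneg_left h5
        (by norm_num : (0 : ℝ) ≤ (1 + 1 / 10 + (1 / 10) ^ 2 / 2))).trans
        (mul_le_mul_of_nonneg_right hde h6))
    rcases le_total u (2) with hh | hh
    · exact ev_four_e15_g0 u (by linarith) (by linarith)
    exact ev_four_e15_t u (by linarith)

theorem ev_four_e20_a0 (u : ℝ) (h1 : -1 ≤ u) (h2 : u ≤ 0) :
    1 + u + u ^ 2 / 2 + u ^ 3 / 6 + u ^ 4 / 24 ≤
      (1 + 1 / 500 + (1 / 500) ^ 2 / 2) * (1 + u + 501 / 1000 * u ^ 2) := by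
  obtain ⟨s, hs⟩ : ∃ s, s = u - (-1) := ⟨_, rfl⟩
  obtain ⟨t, ht⟩ : ∃ t, t = 0 - u := ⟨_, rfl⟩
  have hs0 : 0 ≤ s := by linarith
  have ht0 : 0 ≤ t := by linarith
  have h : 0 ≤
      63501501 / 500000000 * t ^ 4 + 129506003 / 750000000 * s * t ^ 3 +
      4004501 / 500000000 * s ^ 2 * t ^ 2 + 3003 / 500000 * s ^ 3 * t + 1001 / 500000 * s ^ 4 := by
    positivity
  have e :
      63501501 / 500000000 * t ^ 4 + 129506003 / 750000000 * s * t ^ 3 +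
      4004501 / 500000000 * s ^ 2 * t ^ 2 + 3003 / 500000 * s ^ 3 * t + 1001 / 500000 * s ^ 4 =
      (1 + 1 / 500 + (1 / 500) ^ 2 / 2) * (1 + u + 501 / 1000 * u ^ 2) -
      (1 + u + u ^ 2 / 2 + u ^ 3 / 6 + u ^ 4 / 24) := by
    rw [hs, ht]
    ring
  rw [e] at h
  linarith

theorem ev_four_e20_b0 (u : ℝ) (h1 : -2 ≤ u) (h2 : u ≤ -1) :
    36788 / 100000 *
      (1 + (u + 1) + (u + 1) ^ 2 / 2 + (u + 1) ^ 3 / 6 + (u + 1) ^ 4 / 24) ≤
      (1 + 1 / 500 + (1 / 500) ^ 2 / 2) * (1 + u + 501 / 1000 * u ^ 2) := by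
  obtain ⟨s, hs⟩ : ∃ s, s = u - (-2) := ⟨_, rfl⟩
  obtain ⟨t, ht⟩ : ∃ t, t = -1 - u := ⟨_, rfl⟩
  have hs0 : 0 ≤ s := by linarith
  have ht0 : 0 ≤ t := by linarith
  have h : 0 ≤
      27126719 / 31250000 * t ^ 4 + 878843759 / 375000000 * s * t ^ 3 +
      1116226513 / 500000000 * s ^ 2 * t ^ 2 + 226594003 / 250000000 * s ^ 3 * t +
      67061501 / 500000000 * s ^ 4 := by
    positivity
  have e :
      27126719 / 31250000 * t ^ 4 + 878843759 / 375000000 * s * t ^ 3 +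
      1116226513 / 500000000 * s ^ 2 * t ^ 2 + 226594003 / 250000000 * s ^ 3 * t +
      67061501 / 500000000 * s ^ 4 =
      (1 + 1 / 500 + (1 / 500) ^ 2 / 2) * (1 + u + 501 / 1000 * u ^ 2) -
      (36788 / 100000 *
      (1 + (u + 1) + (u + 1) ^ 2 / 2 + (u + 1) ^ 3 / 6 + (u + 1) ^ 4 / 24)) := by
    rw [hs, ht]
    ring
  rw [e] at h
  linarith

theorem ev_four_e20_c0 (u : ℝ) (h1 : -3 ≤ u) (h2 : u ≤ -2) :
    13534 / 100000 *
      (1 + (u + 2) + (u + 2) ^ 2 / 2 + (u + 2) ^ 3 / 6 + (u + 2) ^ 4 / 24) ≤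
      (1 + 1 / 500 + (1 / 500) ^ 2 / 2) * (1 + u + 501 / 1000 * u ^ 2) := by
  obtain ⟨s, hs⟩ : ∃ s, s = u - (-3) := ⟨_, rfl⟩
  obtain ⟨t, ht⟩ : ∃ t, t = -2 - u := ⟨_, rfl⟩
  have hs0 : 0 ≤ s := by linarith
  have ht0 : 0 ≤ t := by linarith
  have h : 0 ≤
      1231635259 / 500000000 * t ^ 4 + 1169692909 / 150000000 * s * t ^ 3 +
      4541201537 / 500000000 * s ^ 2 * t ^ 2 + 115600751 / 25000000 * s ^ 3 * t +
      108833751 / 125000000 * s ^ 4 := by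
    positivity
  have e :
      1231635259 / 500000000 * t ^ 4 + 1169692909 / 150000000 * s * t ^ 3 +
      4541201537 / 500000000 * s ^ 2 * t ^ 2 + 115600751 / 25000000 * s ^ 3 * t +
      108833751 / 125000000 * s ^ 4 =
      (1 + 1 / 500 + (1 / 500) ^ 2 / 2) * (1 + u + 501 / 1000 * u ^ 2) -
      (13534 / 100000 *
      (1 + (u + 2) + (u + 2) ^ 2 / 2 + (u + 2) ^ 3 / 6 + (u + 2) ^ 4 / 24)) := by
    rw [hs, ht]
    ring
  rw [e] at h
  linarith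

theorem ev_four_e20_d (u : ℝ) (h2 : u ≤ -3) :
    4979 / 100000 ≤
      (1 + 1 / 500 + (1 / 500) ^ 2 / 2) * (1 + u + 501 / 1000 * u ^ 2) := by
  obtain ⟨s, hs⟩ : ∃ s, s = -3 - u := ⟨_, rfl⟩
  have hs0 : 0 ≤ s := by linarith
  have h : 0 ≤
      1232116509 / 500000000 + 502504003 / 250000000 * s + 251001501 / 500000000 * s ^ 2 := by
    positivity
  have e :
      1232116509 / 500000000 + 502504003 / 250000000 * s + 251001501 / 500000000 * s ^ 2 =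
      (1 + 1 / 500 + (1 / 500) ^ 2 / 2) * (1 + u + 501 / 1000 * u ^ 2) -
      (4979 / 100000) := by
    rw [hs]
    ring
  rw [e] at h
  linarith

theorem ev_four_e20_e0 (u : ℝ) (h1 : 0 ≤ u) (h2 : u ≤ 1 / 5) :
    1 + u + u ^ 2 / 2 + u ^ 3 / 6 + u ^ 4 / 24 + u ^ 5 / 100 ≤
      (1 + 1 / 500 + (1 / 500) ^ 2 / 2) * ((1 + 1 / 50 * u ^ 2) *
      (1 + u + 501 / 1000 * u ^ 2)) := by
  obtain ⟨s, hs⟩ : ∃ s, s = u - (0) := ⟨_, rfl⟩
  obtain ⟨t, ht⟩ : ∃ t, t = 1 / 5 - u := ⟨_, rfl⟩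
  have hs0 : 0 ≤ s := by linarith
  have ht0 : 0 ≤ t := by linarith
  have h : 0 ≤
      1001 / 160 * t ^ 5 + 13013 / 400 * s * t ^ 4 + 281291521 / 4000000 * s ^ 2 * t ^ 3 +
      896045701 / 12000000 * s ^ 3 * t ^ 2 + 555943895753 / 15000000000 * s ^ 4 * t +
      32145407751 / 5000000000 * s ^ 5 := by
    positivity
  have e :
      1001 / 160 * t ^ 5 + 13013 / 400 * s * t ^ 4 + 281291521 / 4000000 * s ^ 2 * t ^ 3 +
      896045701 / 12000000 * s ^ 3 * t ^ 2 + 555943895753 / 15000000000 * s ^ 4 * t +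
      32145407751 / 5000000000 * s ^ 5 =
      (1 + 1 / 500 + (1 / 500) ^ 2 / 2) * ((1 + 1 / 50 * u ^ 2) *
      (1 + u + 501 / 1000 * u ^ 2)) -
      (1 + u + u ^ 2 / 2 + u ^ 3 / 6 + u ^ 4 / 24 + u ^ 5 / 100) := by
    rw [hs, ht]
    ring
  rw [e] at h
  linarith

theorem ev_four_e20_g0 (u : ℝ) (h1 : 1 / 5 ≤ u) (h2 : u ≤ 8 / 5) :
    122141 / 100000 * (1 + (u - 1 / 5) / 4) ^ 4 ≤
      (1 + 1 / 500 + (1 / 500) ^ 2 / 2) * ((1 + (1 / 50 * u ^ 2) + (1 / 50 * u ^ 2) ^ 2 / 2 +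
      (1 / 50 * u ^ 2) ^ 3 / 6) *
      (1 + u + 501 / 1000 * u ^ 2)) := by
  obtain ⟨s, hs⟩ : ∃ s, s = u - (1 / 5) := ⟨_, rfl⟩
  obtain ⟨t, ht⟩ : ∃ t, t = 8 / 5 - u := ⟨_, rfl⟩
  have hs0 : 0 ≤ s := by linarith
  have ht0 : 0 ≤ t := by linarith
  have h : 0 ≤
      100141474354928417 / 720600125000000000000 * t ^ 8 +
      198050570522079641 / 540450093750000000000 * s * t ^ 7 +
      1405413152593050253 / 154414312500000000000 * s ^ 2 * t ^ 6 +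
      588957023240955129 / 12867859375000000000 * s ^ 3 * t ^ 5 +
      11971980668488879259 / 123531450000000000000 * s ^ 4 * t ^ 4 +
      16532742920619928447 / 154414312500000000000 * s ^ 5 * t ^ 3 +
      6665130224504368567 / 102942875000000000000 * s ^ 6 * t ^ 2 +
      21895707463123908733 / 1080900187500000000000 * s ^ 7 * t +
      11069280005369893057 / 4323600750000000000000 * s ^ 8 := by
    positivity
  have e :
      100141474354928417 / 720600125000000000000 * t ^ 8 +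
      198050570522079641 / 540450093750000000000 * s * t ^ 7 +
      1405413152593050253 / 154414312500000000000 * s ^ 2 * t ^ 6 +
      588957023240955129 / 12867859375000000000 * s ^ 3 * t ^ 5 +
      11971980668488879259 / 123531450000000000000 * s ^ 4 * t ^ 4 +
      16532742920619928447 / 154414312500000000000 * s ^ 5 * t ^ 3 +
      6665130224504368567 / 102942875000000000000 * s ^ 6 * t ^ 2 +
      21895707463123908733 / 1080900187500000000000 * s ^ 7 * t +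
      11069280005369893057 / 4323600750000000000000 * s ^ 8 =
      (1 + 1 / 500 + (1 / 500) ^ 2 / 2) * ((1 + (1 / 50 * u ^ 2) + (1 / 50 * u ^ 2) ^ 2 / 2 +
      (1 / 50 * u ^ 2) ^ 3 / 6) *
      (1 + u + 501 / 1000 * u ^ 2)) -
      (122141 / 100000 * (1 + (u - 1 / 5) / 4) ^ 4) := by
    rw [hs, ht]
    ring
  rw [e] at h
  linarith

theorem ev_four_e20_g1 (u : ℝ) (h1 : 8 / 5 ≤ u) (h2 : u ≤ 3) :
    122141 / 100000 * (1 + (u - 1 / 5) / 4) ^ 4 ≤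
      (1 + 1 / 500 + (1 / 500) ^ 2 / 2) * ((1 + (1 / 50 * u ^ 2) + (1 / 50 * u ^ 2) ^ 2 / 2 +
      (1 / 50 * u ^ 2) ^ 3 / 6) *
      (1 + u + 501 / 1000 * u ^ 2)) := by
  obtain ⟨s, hs⟩ : ∃ s, s = u - (8 / 5) := ⟨_, rfl⟩
  obtain ⟨t, ht⟩ : ∃ t, t = 3 - u := ⟨_, rfl⟩
  have hs0 : 0 ≤ s := by linarith
  have ht0 : 0 ≤ t := by linarith
  have h : 0 ≤
      11069280005369893057 / 4323600750000000000000 * t ^ 8 +
      1492094170557044233 / 72060012500000000000 * s * t ^ 7 +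
      838672034559064609 / 12353145000000000000 * s ^ 2 * t ^ 6 +
      47465577730373573 / 411771500000000000 * s ^ 3 * t ^ 5 +
      7015325237181593 / 65883440000000000 * s ^ 4 * t ^ 4 +
      413396413653819 / 8235430000000000 * s ^ 5 * t ^ 3 +
      30578743246229 / 3294172000000000 * s ^ 6 * t ^ 2 +
      995434304839 / 2305920400000000 * s ^ 7 * t + 723991696137 / 1844736320000000 * s ^ 8 := by
    positivity
  have e :
      11069280005369893057 / 4323600750000000000000 * t ^ 8 +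
      1492094170557044233 / 72060012500000000000 * s * t ^ 7 +
      838672034559064609 / 12353145000000000000 * s ^ 2 * t ^ 6 +
      47465577730373573 / 411771500000000000 * s ^ 3 * t ^ 5 +
      7015325237181593 / 65883440000000000 * s ^ 4 * t ^ 4 +
      413396413653819 / 8235430000000000 * s ^ 5 * t ^ 3 +
      30578743246229 / 3294172000000000 * s ^ 6 * t ^ 2 +
      995434304839 / 2305920400000000 * s ^ 7 * t + 723991696137 / 1844736320000000 * s ^ 8 =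
      (1 + 1 / 500 + (1 / 500) ^ 2 / 2) * ((1 + (1 / 50 * u ^ 2) + (1 / 50 * u ^ 2) ^ 2 / 2 +
      (1 / 50 * u ^ 2) ^ 3 / 6) *
      (1 + u + 501 / 1000 * u ^ 2)) -
      (122141 / 100000 * (1 + (u - 1 / 5) / 4) ^ 4) := by
    rw [hs, ht]
    ring
  rw [e] at h
  linarith

theorem ev_four_e20_t (u : ℝ) (h1 : 3 ≤ u) :
    122141 / 100000 * (1 + (u - 1 / 5) / 4) ^ 4 ≤
      (1 + 1 / 500 + (1 / 500) ^ 2 / 2) * ((1 + (1 / 50 * u ^ 2) + (1 / 50 * u ^ 2) ^ 2 / 2 +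
      (1 / 50 * u ^ 2) ^ 3 / 6) *
      (1 + u + 501 / 1000 * u ^ 2)) := by
  obtain ⟨s, hs⟩ : ∃ s, s = u - (3) := ⟨_, rfl⟩
  have hs0 : 0 ≤ s := by linarith
  have h : 0 ≤
      723991696137 / 125000000000000 + 892068950933 / 31250000000000 * s +
      8117712143527 / 62500000000000 * s ^ 2 + 3094389514509 / 31250000000000 * s ^ 3 +
      1363372012831 / 50000000000000 * s ^ 4 + 103006306601 / 31250000000000 * s ^ 5 +
      55962312701 / 187500000000000 * s ^ 6 + 203907407 / 11718750000000 * s ^ 7 +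
      83667167 / 125000000000000 * s ^ 8 := by
    positivity
  have e :
      723991696137 / 125000000000000 + 892068950933 / 31250000000000 * s +
      8117712143527 / 62500000000000 * s ^ 2 + 3094389514509 / 31250000000000 * s ^ 3 +
      1363372012831 / 50000000000000 * s ^ 4 + 103006306601 / 31250000000000 * s ^ 5 +
      55962312701 / 187500000000000 * s ^ 6 + 203907407 / 11718750000000 * s ^ 7 +
      83667167 / 125000000000000 * s ^ 8 =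
      (1 + 1 / 500 + (1 / 500) ^ 2 / 2) * ((1 + (1 / 50 * u ^ 2) + (1 / 50 * u ^ 2) ^ 2 / 2 +
      (1 / 50 * u ^ 2) ^ 3 / 6) *
      (1 + u + 501 / 1000 * u ^ 2)) -
      (122141 / 100000 * (1 + (u - 1 / 5) / 4) ^ 4) := by
    rw [hs]
    ring
  rw [e] at h
  linarith

/-- `K = 4`: `(c, μ, P, δ) = (501 / 1000, 1 / 50, 1 / 5, 1 / 500)` -/
theorem expFd_four_e20 : ExpFd 4 (501 / 1000) (1 / 50) (1 / 5) (1 / 500) := by
  have hde : (1 + 1 / 500 + (1 / 500) ^ 2 / 2) ≤ Real.exp (1 / 500) :=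
    Real.quadratic_le_exp_of_nonneg (by norm_num)
  have hq : ∀ u : ℝ, 0 ≤ 1 + u + 501 / 1000 * u ^ 2 := fun u => by
    nlinarith [sq_nonneg (u + 2), sq_nonneg u]
  have hR : ∀ (u x y : ℝ), x ≤ y →
      y ≤ (1 + 1 / 500 + (1 / 500) ^ 2 / 2) * (1 + u + 501 / 1000 * u ^ 2) →
      x ≤ Real.exp (1 / 500) * (1 + u + 501 / 1000 * u ^ 2) := fun u x y h1 h2 =>
    (h1.trans h2).trans (mul_le_mul_of_nonneg_right hde (hq u))
  refine ExpFd.of (by norm_num) (by norm_num) (by norm_num) (by norm_num) (by norm_num) ?_ ?_ ?_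
  · intro u h1
    rcases le_total u (-3) with h3 | h3
    · exact hR u _ _ (ev_exp_n3 h3) (ev_four_e20_d u h3)
    rcases le_total u (-2) with h4 | h4
    · refine hR u _ _ (ev_exp_n2 h4) ?_
      exact ev_four_e20_c0 u (by linarith) (by linarith)
    rcases le_total u (-1) with h5 | h5
    · refine hR u _ _ (ev_exp_n1 h5) ?_
      exact ev_four_e20_b0 u (by linarith) (by linarith)
    refine hR u _ _ (ev_exp_n0 h1) ?_
    exact ev_four_e20_a0 u (by linarith) (by linarith)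
  · intro u h1 h2
    have h5 := mul_le_mul_of_nonneg_right (Real.add_one_le_exp (1 / 50 * u ^ 2)) (hq u)
    rw [add_comm (1 / 50 * u ^ 2) 1] at h5
    have h6 : 0 ≤ Real.exp (1 / 50 * u ^ 2) * (1 + u + 501 / 1000 * u ^ 2) :=
      mul_nonneg (Real.exp_nonneg _) (hq u)
    rw [Real.exp_add, mul_assoc]
    refine ((ev_exp_p h1 (by linarith)).trans ?_).trans
      ((mul_le_mul_of_nonneg_left h5
        (by norm_num : (0 : ℝ) ≤ (1 + 1 / 500 + (1 / 500) ^ 2 / 2))).trans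
        (mul_le_mul_of_nonneg_right hde h6))
    exact ev_four_e20_e0 u (by linarith) (by linarith)
  · intro u h1
    have h4 : 0 ≤ (1 + (u - 1 / 5) / 4) ^ 4 := by
      have : 0 ≤ (u - 1 / 5) / 4 := div_nonneg (by linarith) (by norm_num)
      positivity
    have hE : Real.exp (1 / 5) ≤ 122141 / 100000 := ev_up_1_5
    have hx : 0 ≤ 1 / 50 * u ^ 2 := by positivity
    have h5 := mul_le_mul_of_nonneg_right (taylor3_le_expE _ hx) (hq u)
    have h6 : 0 ≤ Real.exp (1 / 50 * u ^ 2) * (1 + u + 501 / 1000 * u ^ 2) :=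
      mul_nonneg (Real.exp_nonneg _) (hq u)
    rw [Real.exp_add, mul_assoc]
    push_cast
    refine ((mul_le_mul_of_nonneg_right hE h4).trans ?_).trans
      ((mul_le_mul_of_nonneg_left h5
        (by norm_num : (0 : ℝ) ≤ (1 + 1 / 500 + (1 / 500) ^ 2 / 2))).trans
        (mul_le_mul_of_nonneg_right hde h6))
    rcases le_total u (8 / 5) with hh | hh
    · exact ev_four_e20_g0 u (by linarith) (by linarith)
    rcases le_total u (3) with hh | hh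
    · exact ev_four_e20_g1 u (by linarith) (by linarith)
    exact ev_four_e20_t u (by linarith)

theorem ev_four_e21_a0 (u : ℝ) (h1 : -1 ≤ u) (h2 : u ≤ 0) :
    1 + u + u ^ 2 / 2 + u ^ 3 / 6 + u ^ 4 / 24 ≤
      (1 + 1 / 200 + (1 / 200) ^ 2 / 2) * (1 + u + 249 / 500 * u ^ 2) := by
  obtain ⟨s, hs⟩ : ∃ s, s = u - (-1) := ⟨_, rfl⟩
  obtain ⟨t, ht⟩ : ∃ t, t = 0 - u := ⟨_, rfl⟩
  have hs0 : 0 ≤ s := by linarith
  have ht0 : 0 ≤ t := by linarith
  have h : 0 ≤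
      5019849 / 40000000 * t ^ 4 + 10360297 / 60000000 * s * t ^ 3 +
      621349 / 40000000 * s ^ 2 * t ^ 2 + 1203 / 80000 * s ^ 3 * t + 401 / 80000 * s ^ 4 := by
    positivity
  have e :
      5019849 / 40000000 * t ^ 4 + 10360297 / 60000000 * s * t ^ 3 +
      621349 / 40000000 * s ^ 2 * t ^ 2 + 1203 / 80000 * s ^ 3 * t + 401 / 80000 * s ^ 4 =
      (1 + 1 / 200 + (1 / 200) ^ 2 / 2) * (1 + u + 249 / 500 * u ^ 2) -
      (1 + u + u ^ 2 / 2 + u ^ 3 / 6 + u ^ 4 / 24) := by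
    rw [hs, ht]
    ring
  rw [e] at h
  linarith

theorem ev_four_e21_b0 (u : ℝ) (h1 : -2 ≤ u) (h2 : u ≤ -1) :
    36788 / 100000 *
      (1 + (u + 1) + (u + 1) ^ 2 / 2 + (u + 1) ^ 3 / 6 + (u + 1) ^ 4 / 24) ≤
      (1 + 1 / 200 + (1 / 200) ^ 2 / 2) * (1 + u + 249 / 500 * u ^ 2) := by
  obtain ⟨s, hs⟩ : ∃ s, s = u - (-2) := ⟨_, rfl⟩
  obtain ⟨t, ht⟩ : ∃ t, t = -1 - u := ⟨_, rfl⟩
  have hs0 : 0 ≤ s := by linarith
  have ht0 : 0 ≤ t := by linarith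
  have h : 0 ≤
      4295087 / 5000000 * t ^ 4 + 17373529 / 7500000 * s * t ^ 3 +
      88153337 / 40000000 * s ^ 2 * t ^ 2 + 17886497 / 20000000 * s ^ 3 * t +
      5304649 / 40000000 * s ^ 4 := by
    positivity
  have e :
      4295087 / 5000000 * t ^ 4 + 17373529 / 7500000 * s * t ^ 3 +
      88153337 / 40000000 * s ^ 2 * t ^ 2 + 17886497 / 20000000 * s ^ 3 * t +
      5304649 / 40000000 * s ^ 4 =
      (1 + 1 / 200 + (1 / 200) ^ 2 / 2) * (1 + u + 249 / 500 * u ^ 2) -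
      (36788 / 100000 *
      (1 + (u + 1) + (u + 1) ^ 2 / 2 + (u + 1) ^ 3 / 6 + (u + 1) ^ 4 / 24)) := by
    rw [hs, ht]
    ring
  rw [e] at h
  linarith

theorem ev_four_e21_c0 (u : ℝ) (h1 : -3 ≤ u) (h2 : u ≤ -2) :
    13534 / 100000 *
      (1 + (u + 2) + (u + 2) ^ 2 / 2 + (u + 2) ^ 3 / 6 + (u + 2) ^ 4 / 24) ≤
      (1 + 1 / 200 + (1 / 200) ^ 2 / 2) * (1 + u + 249 / 500 * u ^ 2) := by
  obtain ⟨s, hs⟩ : ∃ s, s = u - (-3) := ⟨_, rfl⟩
  obtain ⟨t, ht⟩ : ∃ t, t = -2 - u := ⟨_, rfl⟩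
  have hs0 : 0 ≤ s := by linarith
  have ht0 : 0 ≤ t := by linarith
  have h : 0 ≤
      97747541 / 40000000 * t ^ 4 + 92780111 / 12000000 * s * t ^ 3 +
      359982313 / 40000000 * s ^ 2 * t ^ 2 + 2289421 / 500000 * s ^ 3 * t +
      2154081 / 2500000 * s ^ 4 := by
    positivity
  have e :
      97747541 / 40000000 * t ^ 4 + 92780111 / 12000000 * s * t ^ 3 +
      359982313 / 40000000 * s ^ 2 * t ^ 2 + 2289421 / 500000 * s ^ 3 * t +
      2154081 / 2500000 * s ^ 4 =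
      (1 + 1 / 200 + (1 / 200) ^ 2 / 2) * (1 + u + 249 / 500 * u ^ 2) -
      (13534 / 100000 *
      (1 + (u + 2) + (u + 2) ^ 2 / 2 + (u + 2) ^ 3 / 6 + (u + 2) ^ 4 / 24)) := by
    rw [hs, ht]
    ring
  rw [e] at h
  linarith

theorem ev_four_e21_d (u : ℝ) (h2 : u ≤ -3) :
    4979 / 100000 ≤
      (1 + 1 / 200 + (1 / 200) ^ 2 / 2) * (1 + u + 249 / 500 * u ^ 2) := by
  obtain ⟨s, hs⟩ : ∃ s, s = -3 - u := ⟨_, rfl⟩
  have hs0 : 0 ≤ s := by linarith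
  have h : 0 ≤
      97786041 / 40000000 + 39959297 / 20000000 * s + 20019849 / 40000000 * s ^ 2 := by
    positivity
  have e :
      97786041 / 40000000 + 39959297 / 20000000 * s + 20019849 / 40000000 * s ^ 2 =
      (1 + 1 / 200 + (1 / 200) ^ 2 / 2) * (1 + u + 249 / 500 * u ^ 2) -
      (4979 / 100000) := by
    rw [hs]
    ring
  rw [e] at h
  linarith

theorem ev_four_e21_e0 (u : ℝ) (h1 : 0 ≤ u) (h2 : u ≤ 1 / 5) :
    1 + u + u ^ 2 / 2 + u ^ 3 / 6 + u ^ 4 / 24 + u ^ 5 / 100 ≤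
      (1 + 1 / 200 + (1 / 200) ^ 2 / 2) * ((1 + 1 / 50 * u ^ 2) *
      (1 + u + 249 / 500 * u ^ 2)) := by
  obtain ⟨s, hs⟩ : ∃ s, s = u - (0) := ⟨_, rfl⟩
  obtain ⟨t, ht⟩ : ∃ t, t = 1 / 5 - u := ⟨_, rfl⟩
  have hs0 : 0 ≤ s := by linarith
  have ht0 : 0 ≤ t := by linarith
  have h : 0 ≤
      2005 / 128 * t ^ 5 + 5213 / 64 * s * t ^ 4 + 54958859 / 320000 * s ^ 2 * t ^ 3 +
      172317137 / 960000 * s ^ 3 * t ^ 2 + 109306363297 / 1200000000 * s ^ 4 * t +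
      7015596099 / 400000000 * s ^ 5 := by
    positivity
  have e :
      2005 / 128 * t ^ 5 + 5213 / 64 * s * t ^ 4 + 54958859 / 320000 * s ^ 2 * t ^ 3 +
      172317137 / 960000 * s ^ 3 * t ^ 2 + 109306363297 / 1200000000 * s ^ 4 * t +
      7015596099 / 400000000 * s ^ 5 =
      (1 + 1 / 200 + (1 / 200) ^ 2 / 2) * ((1 + 1 / 50 * u ^ 2) *
      (1 + u + 249 / 500 * u ^ 2)) -
      (1 + u + u ^ 2 / 2 + u ^ 3 / 6 + u ^ 4 / 24 + u ^ 5 / 100) := by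
    rw [hs, ht]
    ring
  rw [e] at h
  linarith

theorem ev_four_e21_g0 (u : ℝ) (h1 : 1 / 5 ≤ u) (h2 : u ≤ 8 / 5) :
    122141 / 100000 * (1 + (u - 1 / 5) / 4) ^ 4 ≤
      (1 + 1 / 200 + (1 / 200) ^ 2 / 2) * ((1 + (1 / 50 * u ^ 2) + (1 / 50 * u ^ 2) ^ 2 / 2 +
      (1 / 50 * u ^ 2) ^ 3 / 6) *
      (1 + u + 249 / 500 * u ^ 2)) := by
  obtain ⟨s, hs⟩ : ∃ s, s = u - (1 / 5) := ⟨_, rfl⟩
  obtain ⟨t, ht⟩ : ∃ t, t = 8 / 5 - u := ⟨_, rfl⟩
  have hs0 : 0 ≤ s := by linarith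
  have ht0 : 0 ≤ t := by linarith
  have h : 0 ≤
      21898708261614533 / 57648010000000000000 * t ^ 8 +
      13646080401214073 / 5404500937500000000 * s * t ^ 7 +
      213432339262545047 / 12353145000000000000 * s ^ 2 * t ^ 6 +
      64848336206721521 / 1029428750000000000 * s ^ 3 * t ^ 5 +
      588382695887014883 / 4941258000000000000 * s ^ 4 * t ^ 4 +
      771615384002838439 / 6176572500000000000 * s ^ 5 * t ^ 3 +
      302847533132451879 / 4117715000000000000 * s ^ 6 * t ^ 2 +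
      980484113934503221 / 43236007500000000000 * s ^ 7 * t +
      491738051762116009 / 172944030000000000000 * s ^ 8 := by
    positivity
  have e :
      21898708261614533 / 57648010000000000000 * t ^ 8 +
      13646080401214073 / 5404500937500000000 * s * t ^ 7 +
      213432339262545047 / 12353145000000000000 * s ^ 2 * t ^ 6 +
      64848336206721521 / 1029428750000000000 * s ^ 3 * t ^ 5 +
      588382695887014883 / 4941258000000000000 * s ^ 4 * t ^ 4 +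
      771615384002838439 / 6176572500000000000 * s ^ 5 * t ^ 3 +
      302847533132451879 / 4117715000000000000 * s ^ 6 * t ^ 2 +
      980484113934503221 / 43236007500000000000 * s ^ 7 * t +
      491738051762116009 / 172944030000000000000 * s ^ 8 =
      (1 + 1 / 200 + (1 / 200) ^ 2 / 2) * ((1 + (1 / 50 * u ^ 2) + (1 / 50 * u ^ 2) ^ 2 / 2 +
      (1 / 50 * u ^ 2) ^ 3 / 6) *
      (1 + u + 249 / 500 * u ^ 2)) -
      (122141 / 100000 * (1 + (u - 1 / 5) / 4) ^ 4) := by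
    rw [hs, ht]
    ring
  rw [e] at h
  linarith

theorem ev_four_e21_g1 (u : ℝ) (h1 : 8 / 5 ≤ u) (h2 : u ≤ 3) :
    122141 / 100000 * (1 + (u - 1 / 5) / 4) ^ 4 ≤
      (1 + 1 / 200 + (1 / 200) ^ 2 / 2) * ((1 + (1 / 50 * u ^ 2) + (1 / 50 * u ^ 2) ^ 2 / 2 +
      (1 / 50 * u ^ 2) ^ 3 / 6) *
      (1 + u + 249 / 500 * u ^ 2)) := by
  obtain ⟨s, hs⟩ : ∃ s, s = u - (8 / 5) := ⟨_, rfl⟩
  obtain ⟨t, ht⟩ : ∃ t, t = 3 - u := ⟨_, rfl⟩
  have hs0 : 0 ≤ s := by linarith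
  have ht0 : 0 ≤ t := by linarith
  have h : 0 ≤
      491738051762116009 / 172944030000000000000 * t ^ 8 +
      65764539540930721 / 2882400500000000000 * s * t ^ 7 +
      36820422310250833 / 494125800000000000 * s ^ 2 * t ^ 6 +
      2084372462296301 / 16470860000000000 * s ^ 3 * t ^ 5 +
      309657610605041 / 2635337600000000 * s ^ 4 * t ^ 4 +
      1153452437733 / 20588575000000 * s ^ 5 * t ^ 3 +
      2743403746921 / 263533760000000 * s ^ 6 * t ^ 2 +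
      13967932843 / 92236816000000 * s ^ 7 * t + 39734376813 / 147578905600000 * s ^ 8 := by
    positivity
  have e :
      491738051762116009 / 172944030000000000000 * t ^ 8 +
      65764539540930721 / 2882400500000000000 * s * t ^ 7 +
      36820422310250833 / 494125800000000000 * s ^ 2 * t ^ 6 +
      2084372462296301 / 16470860000000000 * s ^ 3 * t ^ 5 +
      309657610605041 / 2635337600000000 * s ^ 4 * t ^ 4 +
      1153452437733 / 20588575000000 * s ^ 5 * t ^ 3 +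
      2743403746921 / 263533760000000 * s ^ 6 * t ^ 2 +
      13967932843 / 92236816000000 * s ^ 7 * t + 39734376813 / 147578905600000 * s ^ 8 =
      (1 + 1 / 200 + (1 / 200) ^ 2 / 2) * ((1 + (1 / 50 * u ^ 2) + (1 / 50 * u ^ 2) ^ 2 / 2 +
      (1 / 50 * u ^ 2) ^ 3 / 6) *
      (1 + u + 249 / 500 * u ^ 2)) -
      (122141 / 100000 * (1 + (u - 1 / 5) / 4) ^ 4) := by
    rw [hs, ht]
    ring
  rw [e] at h
  linarith

theorem ev_four_e21_t (u : ℝ) (h1 : 3 ≤ u) :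
    122141 / 100000 * (1 + (u - 1 / 5) / 4) ^ 4 ≤
      (1 + 1 / 200 + (1 / 200) ^ 2 / 2) * ((1 + (1 / 50 * u ^ 2) + (1 / 50 * u ^ 2) ^ 2 / 2 +
      (1 / 50 * u ^ 2) ^ 3 / 6) *
      (1 + u + 249 / 500 * u ^ 2)) := by
  obtain ⟨s, hs⟩ : ∃ s, s = u - (3) := ⟨_, rfl⟩
  have hs0 : 0 ≤ s := by linarith
  have h : 0 ≤
      39734376813 / 10000000000000 + 13193139373 / 625000000000 * s +
      635823418673 / 5000000000000 * s ^ 2 + 246509846391 / 2500000000000 * s ^ 3 +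
      54398398447 / 2000000000000 * s ^ 4 + 4111465937 / 1250000000000 * s ^ 5 +
      4466195149 / 15000000000000 * s ^ 6 + 130169219 / 7500000000000 * s ^ 7 +
      6673283 / 10000000000000 * s ^ 8 := by
    positivity
  have e :
      39734376813 / 10000000000000 + 13193139373 / 625000000000 * s +
      635823418673 / 5000000000000 * s ^ 2 + 246509846391 / 2500000000000 * s ^ 3 +
      54398398447 / 2000000000000 * s ^ 4 + 4111465937 / 1250000000000 * s ^ 5 +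
      4466195149 / 15000000000000 * s ^ 6 + 130169219 / 7500000000000 * s ^ 7 +
      6673283 / 10000000000000 * s ^ 8 =
      (1 + 1 / 200 + (1 / 200) ^ 2 / 2) * ((1 + (1 / 50 * u ^ 2) + (1 / 50 * u ^ 2) ^ 2 / 2 +
      (1 / 50 * u ^ 2) ^ 3 / 6) *
      (1 + u + 249 / 500 * u ^ 2)) -
      (122141 / 100000 * (1 + (u - 1 / 5) / 4) ^ 4) := by
    rw [hs]
    ring
  rw [e] at h
  linarith

/-- `K = 4`: `(c, μ, P, δ) = (249 / 500, 1 / 50, 1 / 5, 1 / 200)` -/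
theorem expFd_four_e21 : ExpFd 4 (249 / 500) (1 / 50) (1 / 5) (1 / 200) := by
  have hde : (1 + 1 / 200 + (1 / 200) ^ 2 / 2) ≤ Real.exp (1 / 200) :=
    Real.quadratic_le_exp_of_nonneg (by norm_num)
  have hq : ∀ u : ℝ, 0 ≤ 1 + u + 249 / 500 * u ^ 2 := fun u => by
    nlinarith [sq_nonneg (u + 2), sq_nonneg u]
  have hR : ∀ (u x y : ℝ), x ≤ y →
      y ≤ (1 + 1 / 200 + (1 / 200) ^ 2 / 2) * (1 + u + 249 / 500 * u ^ 2) →
      x ≤ Real.exp (1 / 200) * (1 + u + 249 / 500 * u ^ 2) := fun u x y h1 h2 =>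
    (h1.trans h2).trans (mul_le_mul_of_nonneg_right hde (hq u))
  refine ExpFd.of (by norm_num) (by norm_num) (by norm_num) (by norm_num) (by norm_num) ?_ ?_ ?_
  · intro u h1
    rcases le_total u (-3) with h3 | h3
    · exact hR u _ _ (ev_exp_n3 h3) (ev_four_e21_d u h3)
    rcases le_total u (-2) with h4 | h4
    · refine hR u _ _ (ev_exp_n2 h4) ?_
      exact ev_four_e21_c0 u (by linarith) (by linarith)
    rcases le_total u (-1) with h5 | h5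
    · refine hR u _ _ (ev_exp_n1 h5) ?_
      exact ev_four_e21_b0 u (by linarith) (by linarith)
    refine hR u _ _ (ev_exp_n0 h1) ?_
    exact ev_four_e21_a0 u (by linarith) (by linarith)
  · intro u h1 h2
    have h5 := mul_le_mul_of_nonneg_right (Real.add_one_le_exp (1 / 50 * u ^ 2)) (hq u)
    rw [add_comm (1 / 50 * u ^ 2) 1] at h5
    have h6 : 0 ≤ Real.exp (1 / 50 * u ^ 2) * (1 + u + 249 / 500 * u ^ 2) :=
      mul_nonneg (Real.exp_nonneg _) (hq u)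
    rw [Real.exp_add, mul_assoc]
    refine ((ev_exp_p h1 (by linarith)).trans ?_).trans
      ((mul_le_mul_of_nonneg_left h5
        (by norm_num : (0 : ℝ) ≤ (1 + 1 / 200 + (1 / 200) ^ 2 / 2))).trans
        (mul_le_mul_of_nonneg_right hde h6))
    exact ev_four_e21_e0 u (by linarith) (by linarith)
  · intro u h1
    have h4 : 0 ≤ (1 + (u - 1 / 5) / 4) ^ 4 := by
      have : 0 ≤ (u - 1 / 5) / 4 := div_nonneg (by linarith) (by norm_num)
      positivity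
    have hE : Real.exp (1 / 5) ≤ 122141 / 100000 := ev_up_1_5
    have hx : 0 ≤ 1 / 50 * u ^ 2 := by positivity
    have h5 := mul_le_mul_of_nonneg_right (taylor3_le_expE _ hx) (hq u)
    have h6 : 0 ≤ Real.exp (1 / 50 * u ^ 2) * (1 + u + 249 / 500 * u ^ 2) :=
      mul_nonneg (Real.exp_nonneg _) (hq u)
    rw [Real.exp_add, mul_assoc]
    push_cast
    refine ((mul_le_mul_of_nonneg_right hE h4).trans ?_).trans
      ((mul_le_mul_of_nonneg_left h5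
        (by norm_num : (0 : ℝ) ≤ (1 + 1 / 200 + (1 / 200) ^ 2 / 2))).trans
        (mul_le_mul_of_nonneg_right hde h6))
    rcases le_total u (8 / 5) with hh | hh
    · exact ev_four_e21_g0 u (by linarith) (by linarith)
    rcases le_total u (3) with hh | hh
    · exact ev_four_e21_g1 u (by linarith) (by linarith)
    exact ev_four_e21_t u (by linarith)

theorem ev_four_e22_a0 (u : ℝ) (h1 : -1 ≤ u) (h2 : u ≤ -1 / 2) :
    1 + u + u ^ 2 / 2 + u ^ 3 / 6 + u ^ 4 / 24 ≤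
      (1 + 1 / 100 + (1 / 100) ^ 2 / 2) * (1 + u + 23 / 50 * u ^ 2) := by
  obtain ⟨s, hs⟩ : ∃ s, s = u - (-1) := ⟨_, rfl⟩
  obtain ⟨t, ht⟩ : ∃ t, t = -1 / 2 - u := ⟨_, rfl⟩
  have hs0 : 0 ≤ s := by linarith
  have ht0 : 0 ≤ t := by linarith
  have h : 0 ≤
      89623 / 62500 * t ^ 4 + 348341 / 93750 * s * t ^ 3 + 850399 / 250000 * s ^ 2 * t ^ 2 +
      174019 / 125000 * s ^ 3 * t + 172919 / 750000 * s ^ 4 := by
    positivity
  have e :
      89623 / 62500 * t ^ 4 + 348341 / 93750 * s * t ^ 3 + 850399 / 250000 * s ^ 2 * t ^ 2 +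
      174019 / 125000 * s ^ 3 * t + 172919 / 750000 * s ^ 4 =
      (1 + 1 / 100 + (1 / 100) ^ 2 / 2) * (1 + u + 23 / 50 * u ^ 2) -
      (1 + u + u ^ 2 / 2 + u ^ 3 / 6 + u ^ 4 / 24) := by
    rw [hs, ht]
    ring
  rw [e] at h
  linarith

theorem ev_four_e22_a1 (u : ℝ) (h1 : -1 / 2 ≤ u) (h2 : u ≤ 0) :
    1 + u + u ^ 2 / 2 + u ^ 3 / 6 + u ^ 4 / 24 ≤
      (1 + 1 / 100 + (1 / 100) ^ 2 / 2) * (1 + u + 23 / 50 * u ^ 2) := by
  obtain ⟨s, hs⟩ : ∃ s, s = u - (-1 / 2) := ⟨_, rfl⟩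
  obtain ⟨t, ht⟩ : ∃ t, t = 0 - u := ⟨_, rfl⟩
  have hs0 : 0 ≤ s := by linarith
  have ht0 : 0 ≤ t := by linarith
  have h : 0 ≤
      172919 / 750000 * t ^ 4 + 169619 / 375000 * s * t ^ 3 +
      145523 / 250000 * s ^ 2 * t ^ 2 + 1407 / 2500 * s ^ 3 * t + 201 / 1250 * s ^ 4 := by
    positivity
  have e :
      172919 / 750000 * t ^ 4 + 169619 / 375000 * s * t ^ 3 +
      145523 / 250000 * s ^ 2 * t ^ 2 + 1407 / 2500 * s ^ 3 * t + 201 / 1250 * s ^ 4 =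
      (1 + 1 / 100 + (1 / 100) ^ 2 / 2) * (1 + u + 23 / 50 * u ^ 2) -
      (1 + u + u ^ 2 / 2 + u ^ 3 / 6 + u ^ 4 / 24) := by
    rw [hs, ht]
    ring
  rw [e] at h
  linarith

theorem ev_four_e22_b0 (u : ℝ) (h1 : -2 ≤ u) (h2 : u ≤ -1) :
    36788 / 100000 *
      (1 + (u + 1) + (u + 1) ^ 2 / 2 + (u + 1) ^ 3 / 6 + (u + 1) ^ 4 / 24) ≤
      (1 + 1 / 100 + (1 / 100) ^ 2 / 2) * (1 + u + 23 / 50 * u ^ 2) := by
  obtain ⟨s, hs⟩ : ∃ s, s = u - (-2) := ⟨_, rfl⟩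
  obtain ⟨t, ht⟩ : ∃ t, t = -1 - u := ⟨_, rfl⟩
  have hs0 : 0 ≤ s := by linarith
  have ht0 : 0 ≤ t := by linarith
  have h : 0 ≤
      710487 / 1000000 * t ^ 4 + 2806319 / 1500000 * s * t ^ 3 +
      1722369 / 1000000 * s ^ 2 * t ^ 2 + 10532 / 15625 * s ^ 3 * t + 96743 / 1000000 * s ^ 4 := by
    positivity
  have e :
      710487 / 1000000 * t ^ 4 + 2806319 / 1500000 * s * t ^ 3 +
      1722369 / 1000000 * s ^ 2 * t ^ 2 + 10532 / 15625 * s ^ 3 * t + 96743 / 1000000 * s ^ 4 =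
      (1 + 1 / 100 + (1 / 100) ^ 2 / 2) * (1 + u + 23 / 50 * u ^ 2) -
      (36788 / 100000 *
      (1 + (u + 1) + (u + 1) ^ 2 / 2 + (u + 1) ^ 3 / 6 + (u + 1) ^ 4 / 24)) := by
    rw [hs, ht]
    ring
  rw [e] at h
  linarith

theorem ev_four_e22_c0 (u : ℝ) (h1 : -3 ≤ u) (h2 : u ≤ -2) :
    13534 / 100000 *
      (1 + (u + 2) + (u + 2) ^ 2 / 2 + (u + 2) ^ 3 / 6 + (u + 2) ^ 4 / 24) ≤
      (1 + 1 / 100 + (1 / 100) ^ 2 / 2) * (1 + u + 23 / 50 * u ^ 2) := by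
  obtain ⟨s, hs⟩ : ∃ s, s = u - (-3) := ⟨_, rfl⟩
  obtain ⟨t, ht⟩ : ∃ t, t = -2 - u := ⟨_, rfl⟩
  have hs0 : 0 ≤ s := by linarith
  have ht0 : 0 ≤ t := by linarith
  have h : 0 ≤
      4221509 / 2000000 * t ^ 4 + 397213 / 60000 * s * t ^ 3 +
      7626911 / 1000000 * s ^ 2 * t ^ 2 + 383619 / 100000 * s ^ 3 * t +
      356551 / 500000 * s ^ 4 := by
    positivity
  have e :
      4221509 / 2000000 * t ^ 4 + 397213 / 60000 * s * t ^ 3 +
      7626911 / 1000000 * s ^ 2 * t ^ 2 + 383619 / 100000 * s ^ 3 * t +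
      356551 / 500000 * s ^ 4 =
      (1 + 1 / 100 + (1 / 100) ^ 2 / 2) * (1 + u + 23 / 50 * u ^ 2) -
      (13534 / 100000 *
      (1 + (u + 2) + (u + 2) ^ 2 / 2 + (u + 2) ^ 3 / 6 + (u + 2) ^ 4 / 24)) := by
    rw [hs, ht]
    ring
  rw [e] at h
  linarith

theorem ev_four_e22_d (u : ℝ) (h2 : u ≤ -3) :
    4979 / 100000 ≤
      (1 + 1 / 100 + (1 / 100) ^ 2 / 2) * (1 + u + 23 / 50 * u ^ 2) := by
  obtain ⟨s, hs⟩ : ∃ s, s = -3 - u := ⟨_, rfl⟩
  have hs0 : 0 ≤ s := by linarith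
  have h : 0 ≤
      2111717 / 1000000 + 222211 / 125000 * s + 464623 / 1000000 * s ^ 2 := by
    positivity
  have e :
      2111717 / 1000000 + 222211 / 125000 * s + 464623 / 1000000 * s ^ 2 =
      (1 + 1 / 100 + (1 / 100) ^ 2 / 2) * (1 + u + 23 / 50 * u ^ 2) -
      (4979 / 100000) := by
    rw [hs]
    ring
  rw [e] at h
  linarith

theorem ev_four_e22_e0 (u : ℝ) (h1 : 0 ≤ u) (h2 : u ≤ 1 / 5) :
    1 + u + u ^ 2 / 2 + u ^ 3 / 6 + u ^ 4 / 24 + u ^ 5 / 100 ≤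
      (1 + 1 / 100 + (1 / 100) ^ 2 / 2) * ((1 + 1 / 40 * u ^ 2) *
      (1 + u + 23 / 50 * u ^ 2)) := by
  obtain ⟨s, hs⟩ : ∃ s, s = u - (0) := ⟨_, rfl⟩
  obtain ⟨t, ht⟩ : ∃ t, t = 1 / 5 - u := ⟨_, rfl⟩
  have hs0 : 0 ≤ s := by linarith
  have ht0 : 0 ≤ t := by linarith
  have h : 0 ≤
      1005 / 32 * t ^ 5 + 2613 / 16 * s * t ^ 4 + 10813497 / 32000 * s ^ 2 * t ^ 3 +
      8266019 / 24000 * s ^ 3 * t ^ 2 + 4107313619 / 24000000 * s ^ 4 * t +
      261809123 / 8000000 * s ^ 5 := by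
    positivity
  have e :
      1005 / 32 * t ^ 5 + 2613 / 16 * s * t ^ 4 + 10813497 / 32000 * s ^ 2 * t ^ 3 +
      8266019 / 24000 * s ^ 3 * t ^ 2 + 4107313619 / 24000000 * s ^ 4 * t +
      261809123 / 8000000 * s ^ 5 =
      (1 + 1 / 100 + (1 / 100) ^ 2 / 2) * ((1 + 1 / 40 * u ^ 2) *
      (1 + u + 23 / 50 * u ^ 2)) -
      (1 + u + u ^ 2 / 2 + u ^ 3 / 6 + u ^ 4 / 24 + u ^ 5 / 100) := by
    rw [hs, ht]
    ring
  rw [e] at h
  linarith

theorem ev_four_e22_g0 (u : ℝ) (h1 : 1 / 5 ≤ u) (h2 : u ≤ 8 / 5) :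
    122141 / 100000 * (1 + (u - 1 / 5) / 4) ^ 4 ≤
      (1 + 1 / 100 + (1 / 100) ^ 2 / 2) * ((1 + (1 / 40 * u ^ 2) + (1 / 40 * u ^ 2) ^ 2 / 2 +
      (1 / 40 * u ^ 2) ^ 3 / 6) *
      (1 + u + 23 / 50 * u ^ 2)) := by
  obtain ⟨s, hs⟩ : ∃ s, s = u - (1 / 5) := ⟨_, rfl⟩
  obtain ⟨t, ht⟩ : ∃ t, t = 8 / 5 - u := ⟨_, rfl⟩
  have hs0 : 0 ≤ s := by linarith
  have ht0 : 0 ≤ t := by linarith
  have h : 0 ≤
      1569927067135123 / 2213683584000000000 * t ^ 8 +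
      1673392159810437 / 368947264000000000 * s * t ^ 7 +
      975994039566873 / 52706752000000000 * s ^ 2 * t ^ 6 +
      946268984959363 / 19765032000000000 * s ^ 3 * t ^ 5 +
      191561033913359 / 2635337600000000 * s ^ 4 * t ^ 4 +
      209170136278997 / 3294172000000000 * s ^ 5 * t ^ 3 +
      609165214493053 / 19765032000000000 * s ^ 6 * t ^ 2 +
      174324163226183 / 23059204000000000 * s ^ 7 * t +
      67631655969107 / 92236816000000000 * s ^ 8 := by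
    positivity
  have e :
      1569927067135123 / 2213683584000000000 * t ^ 8 +
      1673392159810437 / 368947264000000000 * s * t ^ 7 +
      975994039566873 / 52706752000000000 * s ^ 2 * t ^ 6 +
      946268984959363 / 19765032000000000 * s ^ 3 * t ^ 5 +
      191561033913359 / 2635337600000000 * s ^ 4 * t ^ 4 +
      209170136278997 / 3294172000000000 * s ^ 5 * t ^ 3 +
      609165214493053 / 19765032000000000 * s ^ 6 * t ^ 2 +
      174324163226183 / 23059204000000000 * s ^ 7 * t +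
      67631655969107 / 92236816000000000 * s ^ 8 =
      (1 + 1 / 100 + (1 / 100) ^ 2 / 2) * ((1 + (1 / 40 * u ^ 2) + (1 / 40 * u ^ 2) ^ 2 / 2 +
      (1 / 40 * u ^ 2) ^ 3 / 6) *
      (1 + u + 23 / 50 * u ^ 2)) -
      (122141 / 100000 * (1 + (u - 1 / 5) / 4) ^ 4) := by
    rw [hs, ht]
    ring
  rw [e] at h
  linarith

theorem ev_four_e22_g1 (u : ℝ) (h1 : 8 / 5 ≤ u) (h2 : u ≤ 23 / 10) :
    122141 / 100000 * (1 + (u - 1 / 5) / 4) ^ 4 ≤
      (1 + 1 / 100 + (1 / 100) ^ 2 / 2) * ((1 + (1 / 40 * u ^ 2) + (1 / 40 * u ^ 2) ^ 2 / 2 +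
      (1 / 40 * u ^ 2) ^ 3 / 6) *
      (1 + u + 23 / 50 * u ^ 2)) := by
  obtain ⟨s, hs⟩ : ∃ s, s = u - (8 / 5) := ⟨_, rfl⟩
  obtain ⟨t, ht⟩ : ∃ t, t = 23 / 10 - u := ⟨_, rfl⟩
  have hs0 : 0 ≤ s := by linarith
  have ht0 : 0 ≤ t := by linarith
  have h : 0 ≤
      67631655969107 / 360300062500000 * t ^ 8 +
      231465772588459 / 180150031250000 * s * t ^ 7 +
      1123439698753537 / 308828625000000 * s ^ 2 * t ^ 6 +
      563682522424999 / 102942875000000 * s ^ 3 * t ^ 5 +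
      775811898007919 / 164708600000000 * s ^ 4 * t ^ 4 +
      5897758469124509 / 2470629000000000 * s ^ 5 * t ^ 3 +
      10770356612660097 / 13176688000000000 * s ^ 6 * t ^ 2 +
      49799250130688589 / 184473632000000000 * s ^ 7 * t +
      142989169064246563 / 2213683584000000000 * s ^ 8 := by
    positivity
  have e :
      67631655969107 / 360300062500000 * t ^ 8 +
      231465772588459 / 180150031250000 * s * t ^ 7 +
      1123439698753537 / 308828625000000 * s ^ 2 * t ^ 6 +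
      563682522424999 / 102942875000000 * s ^ 3 * t ^ 5 +
      775811898007919 / 164708600000000 * s ^ 4 * t ^ 4 +
      5897758469124509 / 2470629000000000 * s ^ 5 * t ^ 3 +
      10770356612660097 / 13176688000000000 * s ^ 6 * t ^ 2 +
      49799250130688589 / 184473632000000000 * s ^ 7 * t +
      142989169064246563 / 2213683584000000000 * s ^ 8 =
      (1 + 1 / 100 + (1 / 100) ^ 2 / 2) * ((1 + (1 / 40 * u ^ 2) + (1 / 40 * u ^ 2) ^ 2 / 2 +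
      (1 / 40 * u ^ 2) ^ 3 / 6) *
      (1 + u + 23 / 50 * u ^ 2)) -
      (122141 / 100000 * (1 + (u - 1 / 5) / 4) ^ 4) := by
    rw [hs, ht]
    ring
  rw [e] at h
  linarith

theorem ev_four_e22_g2 (u : ℝ) (h1 : 23 / 10 ≤ u) (h2 : u ≤ 3) :
    122141 / 100000 * (1 + (u - 1 / 5) / 4) ^ 4 ≤
      (1 + 1 / 100 + (1 / 100) ^ 2 / 2) * ((1 + (1 / 40 * u ^ 2) + (1 / 40 * u ^ 2) ^ 2 / 2 +
      (1 / 40 * u ^ 2) ^ 3 / 6) *
      (1 + u + 23 / 50 * u ^ 2)) := by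
  obtain ⟨s, hs⟩ : ∃ s, s = u - (23 / 10) := ⟨_, rfl⟩
  obtain ⟨t, ht⟩ : ∃ t, t = 3 - u := ⟨_, rfl⟩
  have hs0 : 0 ≤ s := by linarith
  have ht0 : 0 ≤ t := by linarith
  have h : 0 ≤
      142989169064246563 / 2213683584000000000 * t ^ 8 +
      84511785172984097 / 110684179200000000 * s * t ^ 7 +
      3377833151488153 / 790601280000000 * s ^ 2 * t ^ 6 +
      721194070281799 / 52706752000000 * s ^ 3 * t ^ 5 +
      28081228378251 / 1054135040000 * s ^ 4 * t ^ 4 +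
      16907385383659 / 527067520000 * s ^ 5 * t ^ 3 +
      615893062781 / 26353376000 * s ^ 6 * t ^ 2 + 348808023799 / 36894726400 * s ^ 7 * t +
      12044568373 / 7378945280 * s ^ 8 := by
    positivity
  have e :
      142989169064246563 / 2213683584000000000 * t ^ 8 +
      84511785172984097 / 110684179200000000 * s * t ^ 7 +
      3377833151488153 / 790601280000000 * s ^ 2 * t ^ 6 +
      721194070281799 / 52706752000000 * s ^ 3 * t ^ 5 +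
      28081228378251 / 1054135040000 * s ^ 4 * t ^ 4 +
      16907385383659 / 527067520000 * s ^ 5 * t ^ 3 +
      615893062781 / 26353376000 * s ^ 6 * t ^ 2 + 348808023799 / 36894726400 * s ^ 7 * t +
      12044568373 / 7378945280 * s ^ 8 =
      (1 + 1 / 100 + (1 / 100) ^ 2 / 2) * ((1 + (1 / 40 * u ^ 2) + (1 / 40 * u ^ 2) ^ 2 / 2 +
      (1 / 40 * u ^ 2) ^ 3 / 6) *
      (1 + u + 23 / 50 * u ^ 2)) -
      (122141 / 100000 * (1 + (u - 1 / 5) / 4) ^ 4) := by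
    rw [hs, ht]
    ring
  rw [e] at h
  linarith

theorem ev_four_e22_t (u : ℝ) (h1 : 3 ≤ u) :
    122141 / 100000 * (1 + (u - 1 / 5) / 4) ^ 4 ≤
      (1 + 1 / 100 + (1 / 100) ^ 2 / 2) * ((1 + (1 / 40 * u ^ 2) + (1 / 40 * u ^ 2) ^ 2 / 2 +
      (1 / 40 * u ^ 2) ^ 3 / 6) *
      (1 + u + 23 / 50 * u ^ 2)) := by
  obtain ⟨s, hs⟩ : ∃ s, s = u - (3) := ⟨_, rfl⟩
  have hs0 : 0 ≤ s := by linarith
  have h : 0 ≤
      12044568373 / 128000000000 + 18996387303 / 64000000000 * s +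
      5450698649 / 16000000000 * s ^ 2 + 10931602089 / 64000000000 * s ^ 3 +
      527324027 / 12800000000 * s ^ 4 + 339397001 / 64000000000 * s ^ 5 +
      24382607 / 48000000000 * s ^ 6 + 6080501 / 192000000000 * s ^ 7 +
      464623 / 384000000000 * s ^ 8 := by
    positivity
  have e :
      12044568373 / 128000000000 + 18996387303 / 64000000000 * s +
      5450698649 / 16000000000 * s ^ 2 + 10931602089 / 64000000000 * s ^ 3 +
      527324027 / 12800000000 * s ^ 4 + 339397001 / 64000000000 * s ^ 5 +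
      24382607 / 48000000000 * s ^ 6 + 6080501 / 192000000000 * s ^ 7 +
      464623 / 384000000000 * s ^ 8 =
      (1 + 1 / 100 + (1 / 100) ^ 2 / 2) * ((1 + (1 / 40 * u ^ 2) + (1 / 40 * u ^ 2) ^ 2 / 2 +
      (1 / 40 * u ^ 2) ^ 3 / 6) *
      (1 + u + 23 / 50 * u ^ 2)) -
      (122141 / 100000 * (1 + (u - 1 / 5) / 4) ^ 4) := by
    rw [hs]
    ring
  rw [e] at h
  linarith

/-- `K = 4`: `(c, μ, P, δ) = (23 / 50, 1 / 40, 1 / 5, 1 / 100)` -/
theorem expFd_four_e22 : ExpFd 4 (23 / 50) (1 / 40) (1 / 5) (1 / 100) := by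
  have hde : (1 + 1 / 100 + (1 / 100) ^ 2 / 2) ≤ Real.exp (1 / 100) :=
    Real.quadratic_le_exp_of_nonneg (by norm_num)
  have hq : ∀ u : ℝ, 0 ≤ 1 + u + 23 / 50 * u ^ 2 := fun u => by
    nlinarith [sq_nonneg (u + 2), sq_nonneg u]
  have hR : ∀ (u x y : ℝ), x ≤ y →
      y ≤ (1 + 1 / 100 + (1 / 100) ^ 2 / 2) * (1 + u + 23 / 50 * u ^ 2) →
      x ≤ Real.exp (1 / 100) * (1 + u + 23 / 50 * u ^ 2) := fun u x y h1 h2 =>
    (h1.trans h2).trans (mul_le_mul_of_nonneg_right hde (hq u))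
  refine ExpFd.of (by norm_num) (by norm_num) (by norm_num) (by norm_num) (by norm_num) ?_ ?_ ?_
  · intro u h1
    rcases le_total u (-3) with h3 | h3
    · exact hR u _ _ (ev_exp_n3 h3) (ev_four_e22_d u h3)
    rcases le_total u (-2) with h4 | h4
    · refine hR u _ _ (ev_exp_n2 h4) ?_
      exact ev_four_e22_c0 u (by linarith) (by linarith)
    rcases le_total u (-1) with h5 | h5
    · refine hR u _ _ (ev_exp_n1 h5) ?_
      exact ev_four_e22_b0 u (by linarith) (by linarith)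
    refine hR u _ _ (ev_exp_n0 h1) ?_
    rcases le_total u (-1 / 2) with hh | hh
    · exact ev_four_e22_a0 u (by linarith) (by linarith)
    exact ev_four_e22_a1 u (by linarith) (by linarith)
  · intro u h1 h2
    have h5 := mul_le_mul_of_nonneg_right (Real.add_one_le_exp (1 / 40 * u ^ 2)) (hq u)
    rw [add_comm (1 / 40 * u ^ 2) 1] at h5
    have h6 : 0 ≤ Real.exp (1 / 40 * u ^ 2) * (1 + u + 23 / 50 * u ^ 2) :=
      mul_nonneg (Real.exp_nonneg _) (hq u)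
    rw [Real.exp_add, mul_assoc]
    refine ((ev_exp_p h1 (by linarith)).trans ?_).trans
      ((mul_le_mul_of_nonneg_left h5
        (by norm_num : (0 : ℝ) ≤ (1 + 1 / 100 + (1 / 100) ^ 2 / 2))).trans
        (mul_le_mul_of_nonneg_right hde h6))
    exact ev_four_e22_e0 u (by linarith) (by linarith)
  · intro u h1
    have h4 : 0 ≤ (1 + (u - 1 / 5) / 4) ^ 4 := by
      have : 0 ≤ (u - 1 / 5) / 4 := div_nonneg (by linarith) (by norm_num)
      positivity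
    have hE : Real.exp (1 / 5) ≤ 122141 / 100000 := ev_up_1_5
    have hx : 0 ≤ 1 / 40 * u ^ 2 := by positivity
    have h5 := mul_le_mul_of_nonneg_right (taylor3_le_expE _ hx) (hq u)
    have h6 : 0 ≤ Real.exp (1 / 40 * u ^ 2) * (1 + u + 23 / 50 * u ^ 2) :=
      mul_nonneg (Real.exp_nonneg _) (hq u)
    rw [Real.exp_add, mul_assoc]
    push_cast
    refine ((mul_le_mul_of_nonneg_right hE h4).trans ?_).trans
      ((mul_le_mul_of_nonneg_left h5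
        (by norm_num : (0 : ℝ) ≤ (1 + 1 / 100 + (1 / 100) ^ 2 / 2))).trans
        (mul_le_mul_of_nonneg_right hde h6))
    rcases le_total u (8 / 5) with hh | hh
    · exact ev_four_e22_g0 u (by linarith) (by linarith)
    rcases le_total u (23 / 10) with hh | hh
    · exact ev_four_e22_g1 u (by linarith) (by linarith)
    rcases le_total u (3) with hh | hh
    · exact ev_four_e22_g2 u (by linarith) (by linarith)
    exact ev_four_e22_t u (by linarith)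

end

end Pool.Agent.TSM
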