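import Pool.Agent.TSM.EvenDB

set_option autoImplicit false

/-!
# Constants of the even rule with a constant, K = 4, second part (MP_d27362_co, helper2)
-/

namespace Pool.Agent.TSM

noncomputable section


theorem ev_four_e23_a0 (u : ℝ) (h1 : -1 ≤ u) (h2 : u ≤ -1 / 2) :
    1 + u + u ^ 2 / 2 + u ^ 3 / 6 + u ^ 4 / 24 ≤
      (1 + 1 / 50 + (1 / 50) ^ 2 / 2) * (1 + u + 17 / 40 * u ^ 2) := by
  obtain ⟨s, hs⟩ : ∃ s, s = u - (-1) := ⟨_, rfl⟩
  obtain ⟨t, ht⟩ : ∃ t, t = -1 / 2 - u := ⟨_, rfl⟩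
  have hs0 : 0 ≤ s := by linarith
  have ht0 : 0 ≤ t := by linarith
  have h : 0 ≤
      11717 / 12500 * t ^ 4 + 86513 / 37500 * s * t ^ 3 + 101561 / 50000 * s ^ 2 * t ^ 2 +
      22271 / 25000 * s ^ 3 * t + 28141 / 150000 * s ^ 4 := by
    positivity
  have e :
      11717 / 12500 * t ^ 4 + 86513 / 37500 * s * t ^ 3 + 101561 / 50000 * s ^ 2 * t ^ 2 +
      22271 / 25000 * s ^ 3 * t + 28141 / 150000 * s ^ 4 =
      (1 + 1 / 50 + (1 / 50) ^ 2 / 2) * (1 + u + 17 / 40 * u ^ 2) -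
      (1 + u + u ^ 2 / 2 + u ^ 3 / 6 + u ^ 4 / 24) := by
    rw [hs, ht]
    ring
  rw [e] at h
  linarith

theorem ev_four_e23_a1 (u : ℝ) (h1 : -1 / 2 ≤ u) (h2 : u ≤ 0) :
    1 + u + u ^ 2 / 2 + u ^ 3 / 6 + u ^ 4 / 24 ≤
      (1 + 1 / 50 + (1 / 50) ^ 2 / 2) * (1 + u + 17 / 40 * u ^ 2) := by
  obtain ⟨s, hs⟩ : ∃ s, s = u - (-1 / 2) := ⟨_, rfl⟩
  obtain ⟨t, ht⟩ : ∃ t, t = 0 - u := ⟨_, rfl⟩
  have hs0 : 0 ≤ s := by linarith
  have ht0 : 0 ≤ t := by linarith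
  have h : 0 ≤
      28141 / 150000 * t ^ 4 + 45751 / 75000 * s * t ^ 3 + 59437 / 50000 * s ^ 2 * t ^ 2 +
      707 / 625 * s ^ 3 * t + 202 / 625 * s ^ 4 := by
    positivity
  have e :
      28141 / 150000 * t ^ 4 + 45751 / 75000 * s * t ^ 3 + 59437 / 50000 * s ^ 2 * t ^ 2 +
      707 / 625 * s ^ 3 * t + 202 / 625 * s ^ 4 =
      (1 + 1 / 50 + (1 / 50) ^ 2 / 2) * (1 + u + 17 / 40 * u ^ 2) -
      (1 + u + u ^ 2 / 2 + u ^ 3 / 6 + u ^ 4 / 24) := by
    rw [hs, ht]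
    ring
  rw [e] at h
  linarith

theorem ev_four_e23_b0 (u : ℝ) (h1 : -2 ≤ u) (h2 : u ≤ -1) :
    36788 / 100000 *
      (1 + (u + 1) + (u + 1) ^ 2 / 2 + (u + 1) ^ 3 / 6 + (u + 1) ^ 4 / 24) ≤
      (1 + 1 / 50 + (1 / 50) ^ 2 / 2) * (1 + u + 17 / 40 * u ^ 2) := by
  obtain ⟨s, hs⟩ : ∃ s, s = u - (-2) := ⟨_, rfl⟩
  obtain ⟨t, ht⟩ : ∃ t, t = -1 - u := ⟨_, rfl⟩
  have hs0 : 0 ≤ s := by linarith
  have ht0 : 0 ≤ t := by linarith
  have h : 0 ≤
      115237 / 200000 * t ^ 4 + 55049 / 37500 * s * t ^ 3 + 51537 / 40000 * s ^ 2 * t ^ 2 +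
      47767 / 100000 * s ^ 3 * t + 13141 / 200000 * s ^ 4 := by
    positivity
  have e :
      115237 / 200000 * t ^ 4 + 55049 / 37500 * s * t ^ 3 + 51537 / 40000 * s ^ 2 * t ^ 2 +
      47767 / 100000 * s ^ 3 * t + 13141 / 200000 * s ^ 4 =
      (1 + 1 / 50 + (1 / 50) ^ 2 / 2) * (1 + u + 17 / 40 * u ^ 2) -
      (36788 / 100000 *
      (1 + (u + 1) + (u + 1) ^ 2 / 2 + (u + 1) ^ 3 / 6 + (u + 1) ^ 4 / 24)) := by
    rw [hs, ht]
    ring
  rw [e] at h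
  linarith

theorem ev_four_e23_c0 (u : ℝ) (h1 : -3 ≤ u) (h2 : u ≤ -2) :
    13534 / 100000 *
      (1 + (u + 2) + (u + 2) ^ 2 / 2 + (u + 2) ^ 3 / 6 + (u + 2) ^ 4 / 24) ≤
      (1 + 1 / 50 + (1 / 50) ^ 2 / 2) * (1 + u + 17 / 40 * u ^ 2) := by
  obtain ⟨s, hs⟩ : ∃ s, s = u - (-3) := ⟨_, rfl⟩
  obtain ⟨t, ht⟩ : ∃ t, t = -2 - u := ⟨_, rfl⟩
  have hs0 : 0 ≤ s := by linarith
  have ht0 : 0 ≤ t := by linarith
  have h : 0 ≤
      144889 / 80000 * t ^ 4 + 52669 / 9375 * s * t ^ 3 + 1277431 / 200000 * s ^ 2 * t ^ 2 +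
      79117 / 25000 * s ^ 3 * t + 1447 / 2500 * s ^ 4 := by
    positivity
  have e :
      144889 / 80000 * t ^ 4 + 52669 / 9375 * s * t ^ 3 + 1277431 / 200000 * s ^ 2 * t ^ 2 +
      79117 / 25000 * s ^ 3 * t + 1447 / 2500 * s ^ 4 =
      (1 + 1 / 50 + (1 / 50) ^ 2 / 2) * (1 + u + 17 / 40 * u ^ 2) -
      (13534 / 100000 *
      (1 + (u + 2) + (u + 2) ^ 2 / 2 + (u + 2) ^ 3 / 6 + (u + 2) ^ 4 / 24)) := by
    rw [hs, ht]
    ring
  rw [e] at h
  linarith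

theorem ev_four_e23_d (u : ℝ) (h2 : u ≤ -3) :
    4979 / 100000 ≤
      (1 + 1 / 50 + (1 / 50) ^ 2 / 2) * (1 + u + 17 / 40 * u ^ 2) := by
  obtain ⟨s, hs⟩ : ∃ s, s = -3 - u := ⟨_, rfl⟩
  have hs0 : 0 ≤ s := by linarith
  have h : 0 ≤
      72483 / 40000 + 158131 / 100000 * s + 86717 / 200000 * s ^ 2 := by
    positivity
  have e :
      72483 / 40000 + 158131 / 100000 * s + 86717 / 200000 * s ^ 2 =
      (1 + 1 / 50 + (1 / 50) ^ 2 / 2) * (1 + u + 17 / 40 * u ^ 2) -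
      (4979 / 100000) := by
    rw [hs]
    ring
  rw [e] at h
  linarith

theorem ev_four_e23_e0 (u : ℝ) (h1 : 0 ≤ u) (h2 : u ≤ 1 / 5) :
    1 + u + u ^ 2 / 2 + u ^ 3 / 6 + u ^ 4 / 24 + u ^ 5 / 100 ≤
      (1 + 1 / 50 + (1 / 50) ^ 2 / 2) * ((1 + 3 / 100 * u ^ 2) *
      (1 + u + 17 / 40 * u ^ 2)) := by
  obtain ⟨s, hs⟩ : ∃ s, s = u - (0) := ⟨_, rfl⟩
  obtain ⟨t, ht⟩ : ∃ t, t = 1 / 5 - u := ⟨_, rfl⟩
  have hs0 : 0 ≤ s := by linarith
  have ht0 : 0 ≤ t := by linarith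
  have h : 0 ≤
      505 / 8 * t ^ 5 + 1313 / 4 * s * t ^ 4 + 5418191 / 8000 * s ^ 2 * t ^ 3 +
      82820413 / 120000 * s ^ 3 * t ^ 2 + 4149003553 / 12000000 * s ^ 4 * t +
      270876251 / 4000000 * s ^ 5 := by
    positivity
  have e :
      505 / 8 * t ^ 5 + 1313 / 4 * s * t ^ 4 + 5418191 / 8000 * s ^ 2 * t ^ 3 +
      82820413 / 120000 * s ^ 3 * t ^ 2 + 4149003553 / 12000000 * s ^ 4 * t +
      270876251 / 4000000 * s ^ 5 =
      (1 + 1 / 50 + (1 / 50) ^ 2 / 2) * ((1 + 3 / 100 * u ^ 2) *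
      (1 + u + 17 / 40 * u ^ 2)) -
      (1 + u + u ^ 2 / 2 + u ^ 3 / 6 + u ^ 4 / 24 + u ^ 5 / 100) := by
    rw [hs, ht]
    ring
  rw [e] at h
  linarith

theorem ev_four_e23_g0 (u : ℝ) (h1 : 1 / 5 ≤ u) (h2 : u ≤ 2) :
    122141 / 100000 * (1 + (u - 1 / 5) / 4) ^ 4 ≤
      (1 + 1 / 50 + (1 / 50) ^ 2 / 2) * ((1 + (3 / 100 * u ^ 2) + (3 / 100 * u ^ 2) ^ 2 / 2 +
      (3 / 100 * u ^ 2) ^ 3 / 6) *
      (1 + u + 17 / 40 * u ^ 2)) := by
  obtain ⟨s, hs⟩ : ∃ s, s = u - (1 / 5) := ⟨_, rfl⟩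
  obtain ⟨t, ht⟩ : ∃ t, t = 2 - u := ⟨_, rfl⟩
  have hs0 : 0 ≤ s := by linarith
  have ht0 : 0 ≤ t := by linarith
  have h : 0 ≤
      3385030371503753 / 17218688400000000000 * t ^ 8 +
      298333895742713 / 215233605000000000 * s * t ^ 7 +
      863595764750459 / 172186884000000000 * s ^ 2 * t ^ 6 +
      43714679441347 / 4304672100000000 * s ^ 3 * t ^ 5 +
      61599218416927 / 5509980288000000 * s ^ 4 * t ^ 4 +
      8391865706519 / 1377495072000000 * s ^ 5 * t ^ 3 +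
      653770364473 / 550998028800000 * s ^ 6 * t ^ 2 +
      341839043 / 55099802880000 * s ^ 7 * t + 2794708763 / 44079842304000 * s ^ 8 := by
    positivity
  have e :
      3385030371503753 / 17218688400000000000 * t ^ 8 +
      298333895742713 / 215233605000000000 * s * t ^ 7 +
      863595764750459 / 172186884000000000 * s ^ 2 * t ^ 6 +
      43714679441347 / 4304672100000000 * s ^ 3 * t ^ 5 +
      61599218416927 / 5509980288000000 * s ^ 4 * t ^ 4 +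
      8391865706519 / 1377495072000000 * s ^ 5 * t ^ 3 +
      653770364473 / 550998028800000 * s ^ 6 * t ^ 2 +
      341839043 / 55099802880000 * s ^ 7 * t + 2794708763 / 44079842304000 * s ^ 8 =
      (1 + 1 / 50 + (1 / 50) ^ 2 / 2) * ((1 + (3 / 100 * u ^ 2) + (3 / 100 * u ^ 2) ^ 2 / 2 +
      (3 / 100 * u ^ 2) ^ 3 / 6) *
      (1 + u + 17 / 40 * u ^ 2)) -
      (122141 / 100000 * (1 + (u - 1 / 5) / 4) ^ 4) := by
    rw [hs, ht]
    ring
  rw [e] at h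
  linarith

theorem ev_four_e23_t (u : ℝ) (h1 : 2 ≤ u) :
    122141 / 100000 * (1 + (u - 1 / 5) / 4) ^ 4 ≤
      (1 + 1 / 50 + (1 / 50) ^ 2 / 2) * ((1 + (3 / 100 * u ^ 2) + (3 / 100 * u ^ 2) ^ 2 / 2 +
      (3 / 100 * u ^ 2) ^ 3 / 6) *
      (1 + u + 17 / 40 * u ^ 2)) := by
  obtain ⟨s, hs⟩ : ∃ s, s = u - (2) := ⟨_, rfl⟩
  have hs0 : 0 ≤ s := by linarith
  have h : 0 ≤
      2794708763 / 400000000000 + 3067249843 / 100000000000 * s +
      19851724673 / 200000000000 * s ^ 2 + 8403243619 / 100000000000 * s ^ 3 +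
      2299150127 / 80000000000 * s ^ 4 + 102882069 / 25000000000 * s ^ 5 +
      48250359 / 100000000000 * s ^ 6 + 1790451 / 50000000000 * s ^ 7 +
      780453 / 400000000000 * s ^ 8 := by
    positivity
  have e :
      2794708763 / 400000000000 + 3067249843 / 100000000000 * s +
      19851724673 / 200000000000 * s ^ 2 + 8403243619 / 100000000000 * s ^ 3 +
      2299150127 / 80000000000 * s ^ 4 + 102882069 / 25000000000 * s ^ 5 +
      48250359 / 100000000000 * s ^ 6 + 1790451 / 50000000000 * s ^ 7 +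
      780453 / 400000000000 * s ^ 8 =
      (1 + 1 / 50 + (1 / 50) ^ 2 / 2) * ((1 + (3 / 100 * u ^ 2) + (3 / 100 * u ^ 2) ^ 2 / 2 +
      (3 / 100 * u ^ 2) ^ 3 / 6) *
      (1 + u + 17 / 40 * u ^ 2)) -
      (122141 / 100000 * (1 + (u - 1 / 5) / 4) ^ 4) := by
    rw [hs]
    ring
  rw [e] at h
  linarith

/-- `K = 4`: `(c, μ, P, δ) = (17 / 40, 3 / 100, 1 / 5, 1 / 50)` -/
theorem expFd_four_e23 : ExpFd 4 (17 / 40) (3 / 100) (1 / 5) (1 / 50) := by
  have hde : (1 + 1 / 50 + (1 / 50) ^ 2 / 2) ≤ Real.exp (1 / 50) :=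
    Real.quadratic_le_exp_of_nonneg (by norm_num)
  have hq : ∀ u : ℝ, 0 ≤ 1 + u + 17 / 40 * u ^ 2 := fun u => by
    nlinarith [sq_nonneg (u + 2), sq_nonneg u]
  have hR : ∀ (u x y : ℝ), x ≤ y →
      y ≤ (1 + 1 / 50 + (1 / 50) ^ 2 / 2) * (1 + u + 17 / 40 * u ^ 2) →
      x ≤ Real.exp (1 / 50) * (1 + u + 17 / 40 * u ^ 2) := fun u x y h1 h2 =>
    (h1.trans h2).trans (mul_le_mul_of_nonneg_right hde (hq u))
  refine ExpFd.of (by norm_num) (by norm_num) (by norm_num) (by norm_num) (by norm_num) ?_ ?_ ?_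
  · intro u h1
    rcases le_total u (-3) with h3 | h3
    · exact hR u _ _ (ev_exp_n3 h3) (ev_four_e23_d u h3)
    rcases le_total u (-2) with h4 | h4
    · refine hR u _ _ (ev_exp_n2 h4) ?_
      exact ev_four_e23_c0 u (by linarith) (by linarith)
    rcases le_total u (-1) with h5 | h5
    · refine hR u _ _ (ev_exp_n1 h5) ?_
      exact ev_four_e23_b0 u (by linarith) (by linarith)
    refine hR u _ _ (ev_exp_n0 h1) ?_
    rcases le_total u (-1 / 2) with hh | hh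
    · exact ev_four_e23_a0 u (by linarith) (by linarith)
    exact ev_four_e23_a1 u (by linarith) (by linarith)
  · intro u h1 h2
    have h5 := mul_le_mul_of_nonneg_right (Real.add_one_le_exp (3 / 100 * u ^ 2)) (hq u)
    rw [add_comm (3 / 100 * u ^ 2) 1] at h5
    have h6 : 0 ≤ Real.exp (3 / 100 * u ^ 2) * (1 + u + 17 / 40 * u ^ 2) :=
      mul_nonneg (Real.exp_nonneg _) (hq u)
    rw [Real.exp_add, mul_assoc]
    refine ((ev_exp_p h1 (by linarith)).trans ?_).trans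
      ((mul_le_mul_of_nonneg_left h5
        (by norm_num : (0 : ℝ) ≤ (1 + 1 / 50 + (1 / 50) ^ 2 / 2))).trans
        (mul_le_mul_of_nonneg_right hde h6))
    exact ev_four_e23_e0 u (by linarith) (by linarith)
  · intro u h1
    have h4 : 0 ≤ (1 + (u - 1 / 5) / 4) ^ 4 := by
      have : 0 ≤ (u - 1 / 5) / 4 := div_nonneg (by linarith) (by norm_num)
      positivity
    have hE : Real.exp (1 / 5) ≤ 122141 / 100000 := ev_up_1_5
    have hx : 0 ≤ 3 / 100 * u ^ 2 := by positivity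
    have h5 := mul_le_mul_of_nonneg_right (taylor3_le_expE _ hx) (hq u)
    have h6 : 0 ≤ Real.exp (3 / 100 * u ^ 2) * (1 + u + 17 / 40 * u ^ 2) :=
      mul_nonneg (Real.exp_nonneg _) (hq u)
    rw [Real.exp_add, mul_assoc]
    push_cast
    refine ((mul_le_mul_of_nonneg_right hE h4).trans ?_).trans
      ((mul_le_mul_of_nonneg_left h5
        (by norm_num : (0 : ℝ) ≤ (1 + 1 / 50 + (1 / 50) ^ 2 / 2))).trans
        (mul_le_mul_of_nonneg_right hde h6))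
    rcases le_total u (2) with hh | hh
    · exact ev_four_e23_g0 u (by linarith) (by linarith)
    exact ev_four_e23_t u (by linarith)

theorem ev_four_e24_a0 (u : ℝ) (h1 : -1 ≤ u) (h2 : u ≤ 0) :
    1 + u + u ^ 2 / 2 + u ^ 3 / 6 + u ^ 4 / 24 ≤
      (1 + 1 / 20 + (1 / 20) ^ 2 / 2) * (1 + u + 391 / 1000 * u ^ 2) := by
  obtain ⟨s, hs⟩ : ∃ s, s = u - (-1) := ⟨_, rfl⟩
  obtain ⟨t, ht⟩ : ∃ t, t = 0 - u := ⟨_, rfl⟩
  have hs0 : 0 ≤ s := by linarith
  have ht0 : 0 ≤ t := by linarith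
  have h : 0 ≤
      28831 / 800000 * t ^ 4 + 47993 / 1200000 * s * t ^ 3 + 51831 / 800000 * s ^ 2 * t ^ 2 +
      123 / 800 * s ^ 3 * t + 41 / 800 * s ^ 4 := by
    positivity
  have e :
      28831 / 800000 * t ^ 4 + 47993 / 1200000 * s * t ^ 3 + 51831 / 800000 * s ^ 2 * t ^ 2 +
      123 / 800 * s ^ 3 * t + 41 / 800 * s ^ 4 =
      (1 + 1 / 20 + (1 / 20) ^ 2 / 2) * (1 + u + 391 / 1000 * u ^ 2) -
      (1 + u + u ^ 2 / 2 + u ^ 3 / 6 + u ^ 4 / 24) := by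
    rw [hs, ht]
    ring
  rw [e] at h
  linarith

theorem ev_four_e24_b0 (u : ℝ) (h1 : -2 ≤ u) (h2 : u ≤ -1) :
    36788 / 100000 *
      (1 + (u + 1) + (u + 1) ^ 2 / 2 + (u + 1) ^ 3 / 6 + (u + 1) ^ 4 / 24) ≤
      (1 + 1 / 20 + (1 / 20) ^ 2 / 2) * (1 + u + 391 / 1000 * u ^ 2) := by
  obtain ⟨s, hs⟩ : ∃ s, s = u - (-2) := ⟨_, rfl⟩
  obtain ⟨t, ht⟩ : ∃ t, t = -1 - u := ⟨_, rfl⟩
  have hs0 : 0 ≤ s := by linarith
  have ht0 : 0 ≤ t := by linarith
  have h : 0 ≤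
      9099 / 20000 * t ^ 4 + 662561 / 600000 * s * t ^ 3 + 721739 / 800000 * s ^ 2 * t ^ 2 +
      124537 / 400000 * s ^ 3 * t + 34527 / 800000 * s ^ 4 := by
    positivity
  have e :
      9099 / 20000 * t ^ 4 + 662561 / 600000 * s * t ^ 3 + 721739 / 800000 * s ^ 2 * t ^ 2 +
      124537 / 400000 * s ^ 3 * t + 34527 / 800000 * s ^ 4 =
      (1 + 1 / 20 + (1 / 20) ^ 2 / 2) * (1 + u + 391 / 1000 * u ^ 2) -
      (36788 / 100000 *
      (1 + (u + 1) + (u + 1) ^ 2 / 2 + (u + 1) ^ 3 / 6 + (u + 1) ^ 4 / 24)) := by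
    rw [hs, ht]
    ring
  rw [e] at h
  linarith

theorem ev_four_e24_c0 (u : ℝ) (h1 : -3 ≤ u) (h2 : u ≤ -2) :
    13534 / 100000 *
      (1 + (u + 2) + (u + 2) ^ 2 / 2 + (u + 2) ^ 3 / 6 + (u + 2) ^ 4 / 24) ≤
      (1 + 1 / 20 + (1 / 20) ^ 2 / 2) * (1 + u + 391 / 1000 * u ^ 2) := by
  obtain ⟨s, hs⟩ : ∃ s, s = u - (-3) := ⟨_, rfl⟩
  obtain ⟨t, ht⟩ : ∃ t, t = -2 - u := ⟨_, rfl⟩
  have hs0 : 0 ≤ s := by linarith
  have ht0 : 0 ≤ t := by linarith
  have h : 0 ≤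
      1236877 / 800000 * t ^ 4 + 5669147 / 1200000 * s * t ^ 3 +
      843759 / 160000 * s ^ 2 * t ^ 2 + 511701 / 200000 * s ^ 3 * t + 91513 / 200000 * s ^ 4 := by
    positivity
  have e :
      1236877 / 800000 * t ^ 4 + 5669147 / 1200000 * s * t ^ 3 +
      843759 / 160000 * s ^ 2 * t ^ 2 + 511701 / 200000 * s ^ 3 * t + 91513 / 200000 * s ^ 4 =
      (1 + 1 / 20 + (1 / 20) ^ 2 / 2) * (1 + u + 391 / 1000 * u ^ 2) -
      (13534 / 100000 *
      (1 + (u + 2) + (u + 2) ^ 2 / 2 + (u + 2) ^ 3 / 6 + (u + 2) ^ 4 / 24)) := by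
    rw [hs, ht]
    ring
  rw [e] at h
  linarith

theorem ev_four_e24_d (u : ℝ) (h2 : u ≤ -3) :
    4979 / 100000 ≤
      (1 + 1 / 20 + (1 / 20) ^ 2 / 2) * (1 + u + 391 / 1000 * u ^ 2) := by
  obtain ⟨s, hs⟩ : ∃ s, s = -3 - u := ⟨_, rfl⟩
  have hs0 : 0 ≤ s := by linarith
  have h : 0 ≤
      1237647 / 800000 + 565993 / 400000 * s + 328831 / 800000 * s ^ 2 := by
    positivity
  have e :
      1237647 / 800000 + 565993 / 400000 * s + 328831 / 800000 * s ^ 2 =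
      (1 + 1 / 20 + (1 / 20) ^ 2 / 2) * (1 + u + 391 / 1000 * u ^ 2) -
      (4979 / 100000) := by
    rw [hs]
    ring
  rw [e] at h
  linarith

theorem ev_four_e24_e0 (u : ℝ) (h1 : 0 ≤ u) (h2 : u ≤ 1 / 5) :
    1 + u + u ^ 2 / 2 + u ^ 3 / 6 + u ^ 4 / 24 + u ^ 5 / 100 ≤
      (1 + 1 / 20 + (1 / 20) ^ 2 / 2) * ((1 + 3 / 100 * u ^ 2) *
      (1 + u + 391 / 1000 * u ^ 2)) := by
  obtain ⟨s, hs⟩ : ∃ s, s = u - (0) := ⟨_, rfl⟩
  obtain ⟨t, ht⟩ : ∃ t, t = 1 / 5 - u := ⟨_, rfl⟩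
  have hs0 : 0 ≤ s := by linarith
  have ht0 : 0 ≤ t := by linarith
  have h : 0 ≤
      5125 / 32 * t ^ 5 + 13325 / 16 * s * t ^ 4 + 11024061 / 6400 * s ^ 2 * t ^ 3 +
      33961687 / 19200 * s ^ 3 * t ^ 2 + 43222521979 / 48000000 * s ^ 4 * t +
      2903593993 / 16000000 * s ^ 5 := by
    positivity
  have e :
      5125 / 32 * t ^ 5 + 13325 / 16 * s * t ^ 4 + 11024061 / 6400 * s ^ 2 * t ^ 3 +
      33961687 / 19200 * s ^ 3 * t ^ 2 + 43222521979 / 48000000 * s ^ 4 * t +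
      2903593993 / 16000000 * s ^ 5 =
      (1 + 1 / 20 + (1 / 20) ^ 2 / 2) * ((1 + 3 / 100 * u ^ 2) *
      (1 + u + 391 / 1000 * u ^ 2)) -
      (1 + u + u ^ 2 / 2 + u ^ 3 / 6 + u ^ 4 / 24 + u ^ 5 / 100) := by
    rw [hs, ht]
    ring
  rw [e] at h
  linarith

theorem ev_four_e24_g0 (u : ℝ) (h1 : 1 / 5 ≤ u) (h2 : u ≤ 8 / 5) :
    122141 / 100000 * (1 + (u - 1 / 5) / 4) ^ 4 ≤
      (1 + 1 / 20 + (1 / 20) ^ 2 / 2) * ((1 + (3 / 100 * u ^ 2) + (3 / 100 * u ^ 2) ^ 2 / 2 +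
      (3 / 100 * u ^ 2) ^ 3 / 6) *
      (1 + u + 391 / 1000 * u ^ 2)) := by
  obtain ⟨s, hs⟩ : ∃ s, s = u - (1 / 5) := ⟨_, rfl⟩
  obtain ⟨t, ht⟩ : ∃ t, t = 8 / 5 - u := ⟨_, rfl⟩
  have hs0 : 0 ≤ s := by linarith
  have ht0 : 0 ≤ t := by linarith
  have h : 0 ≤
      36291250216226979 / 9223681600000000000 * t ^ 8 +
      18750954823762291 / 576480100000000000 * s * t ^ 7 +
      39000682378856031 / 329417200000000000 * s ^ 2 * t ^ 6 +
      9933996611587687 / 41177150000000000 * s ^ 3 * t ^ 5 +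
      19475978758338617 / 65883440000000000 * s ^ 4 * t ^ 4 +
      18115398338927061 / 82354300000000000 * s ^ 5 * t ^ 3 +
      15784231034885863 / 164708600000000000 * s ^ 6 * t ^ 2 +
      12745018742871279 / 576480100000000000 * s ^ 7 * t +
      4807042970974491 / 2305920400000000000 * s ^ 8 := by
    positivity
  have e :
      36291250216226979 / 9223681600000000000 * t ^ 8 +
      18750954823762291 / 576480100000000000 * s * t ^ 7 +
      39000682378856031 / 329417200000000000 * s ^ 2 * t ^ 6 +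
      9933996611587687 / 41177150000000000 * s ^ 3 * t ^ 5 +
      19475978758338617 / 65883440000000000 * s ^ 4 * t ^ 4 +
      18115398338927061 / 82354300000000000 * s ^ 5 * t ^ 3 +
      15784231034885863 / 164708600000000000 * s ^ 6 * t ^ 2 +
      12745018742871279 / 576480100000000000 * s ^ 7 * t +
      4807042970974491 / 2305920400000000000 * s ^ 8 =
      (1 + 1 / 20 + (1 / 20) ^ 2 / 2) * ((1 + (3 / 100 * u ^ 2) + (3 / 100 * u ^ 2) ^ 2 / 2 +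
      (3 / 100 * u ^ 2) ^ 3 / 6) *
      (1 + u + 391 / 1000 * u ^ 2)) -
      (122141 / 100000 * (1 + (u - 1 / 5) / 4) ^ 4) := by
    rw [hs, ht]
    ring
  rw [e] at h
  linarith

theorem ev_four_e24_g1 (u : ℝ) (h1 : 8 / 5 ≤ u) (h2 : u ≤ 23 / 10) :
    122141 / 100000 * (1 + (u - 1 / 5) / 4) ^ 4 ≤
      (1 + 1 / 20 + (1 / 20) ^ 2 / 2) * ((1 + (3 / 100 * u ^ 2) + (3 / 100 * u ^ 2) ^ 2 / 2 +
      (3 / 100 * u ^ 2) ^ 3 / 6) *
      (1 + u + 391 / 1000 * u ^ 2)) := by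
  obtain ⟨s, hs⟩ : ∃ s, s = u - (8 / 5) := ⟨_, rfl⟩
  obtain ⟨t, ht⟩ : ∃ t, t = 23 / 10 - u := ⟨_, rfl⟩
  have hs0 : 0 ≤ s := by linarith
  have ht0 : 0 ≤ t := by linarith
  have h : 0 ≤
      4807042970974491 / 9007501562500000 * t ^ 8 +
      16097239082975667 / 4503750781250000 * s * t ^ 7 +
      25840892055199027 / 2573571875000000 * s ^ 2 * t ^ 6 +
      39407495350143687 / 2573571875000000 * s ^ 3 * t ^ 5 +
      56718611642819897 / 4117715000000000 * s ^ 4 * t ^ 4 +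
      4882406881149127 / 643392968750000 * s ^ 5 * t ^ 3 +
      226181048976356559 / 82354300000000000 * s ^ 6 * t ^ 2 +
      436914815877402529 / 576480100000000000 * s ^ 7 * t +
      1270311446469268599 / 9223681600000000000 * s ^ 8 := by
    positivity
  have e :
      4807042970974491 / 9007501562500000 * t ^ 8 +
      16097239082975667 / 4503750781250000 * s * t ^ 7 +
      25840892055199027 / 2573571875000000 * s ^ 2 * t ^ 6 +
      39407495350143687 / 2573571875000000 * s ^ 3 * t ^ 5 +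
      56718611642819897 / 4117715000000000 * s ^ 4 * t ^ 4 +
      4882406881149127 / 643392968750000 * s ^ 5 * t ^ 3 +
      226181048976356559 / 82354300000000000 * s ^ 6 * t ^ 2 +
      436914815877402529 / 576480100000000000 * s ^ 7 * t +
      1270311446469268599 / 9223681600000000000 * s ^ 8 =
      (1 + 1 / 20 + (1 / 20) ^ 2 / 2) * ((1 + (3 / 100 * u ^ 2) + (3 / 100 * u ^ 2) ^ 2 / 2 +
      (3 / 100 * u ^ 2) ^ 3 / 6) *
      (1 + u + 391 / 1000 * u ^ 2)) -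
      (122141 / 100000 * (1 + (u - 1 / 5) / 4) ^ 4) := by
    rw [hs, ht]
    ring
  rw [e] at h
  linarith

theorem ev_four_e24_g2 (u : ℝ) (h1 : 23 / 10 ≤ u) (h2 : u ≤ 3) :
    122141 / 100000 * (1 + (u - 1 / 5) / 4) ^ 4 ≤
      (1 + 1 / 20 + (1 / 20) ^ 2 / 2) * ((1 + (3 / 100 * u ^ 2) + (3 / 100 * u ^ 2) ^ 2 / 2 +
      (3 / 100 * u ^ 2) ^ 3 / 6) *
      (1 + u + 391 / 1000 * u ^ 2)) := by
  obtain ⟨s, hs⟩ : ∃ s, s = u - (23 / 10) := ⟨_, rfl⟩
  obtain ⟨t, ht⟩ : ∃ t, t = 3 - u := ⟨_, rfl⟩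
  have hs0 : 0 ≤ s := by linarith
  have ht0 : 0 ≤ t := by linarith
  have h : 0 ≤
      1270311446469268599 / 9223681600000000000 * t ^ 8 +
      83339663059186607 / 57648010000000000 * s * t ^ 7 +
      6226628636908201 / 823543000000000 * s ^ 2 * t ^ 6 +
      3854985004554869 / 164708600000000 * s ^ 3 * t ^ 5 +
      589164190906159 / 13176688000000 * s ^ 4 * t ^ 4 +
      21883902448481 / 411771500000 * s ^ 5 * t ^ 3 +
      6308738275457 / 164708600000 * s ^ 6 * t ^ 2 +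
      1768704996379 / 115296020000 * s ^ 7 * t + 241965087219 / 92236816000 * s ^ 8 := by
    positivity
  have e :
      1270311446469268599 / 9223681600000000000 * t ^ 8 +
      83339663059186607 / 57648010000000000 * s * t ^ 7 +
      6226628636908201 / 823543000000000 * s ^ 2 * t ^ 6 +
      3854985004554869 / 164708600000000 * s ^ 3 * t ^ 5 +
      589164190906159 / 13176688000000 * s ^ 4 * t ^ 4 +
      21883902448481 / 411771500000 * s ^ 5 * t ^ 3 +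
      6308738275457 / 164708600000 * s ^ 6 * t ^ 2 +
      1768704996379 / 115296020000 * s ^ 7 * t + 241965087219 / 92236816000 * s ^ 8 =
      (1 + 1 / 20 + (1 / 20) ^ 2 / 2) * ((1 + (3 / 100 * u ^ 2) + (3 / 100 * u ^ 2) ^ 2 / 2 +
      (3 / 100 * u ^ 2) ^ 3 / 6) *
      (1 + u + 391 / 1000 * u ^ 2)) -
      (122141 / 100000 * (1 + (u - 1 / 5) / 4) ^ 4) := by
    rw [hs, ht]
    ring
  rw [e] at h
  linarith

theorem ev_four_e24_t (u : ℝ) (h1 : 3 ≤ u) :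
    122141 / 100000 * (1 + (u - 1 / 5) / 4) ^ 4 ≤
      (1 + 1 / 20 + (1 / 20) ^ 2 / 2) * ((1 + (3 / 100 * u ^ 2) + (3 / 100 * u ^ 2) ^ 2 / 2 +
      (3 / 100 * u ^ 2) ^ 3 / 6) *
      (1 + u + 391 / 1000 * u ^ 2)) := by
  obtain ⟨s, hs⟩ : ∃ s, s = u - (3) := ⟨_, rfl⟩
  have hs0 : 0 ≤ s := by linarith
  have h : 0 ≤
      241965087219 / 1600000000000 + 92992267973 / 200000000000 * s +
      102848953231 / 200000000000 * s ^ 2 + 11950382851 / 50000000000 * s ^ 3 +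
      8911417993 / 160000000000 * s ^ 4 + 1515684681 / 200000000000 * s ^ 5 +
      75515913 / 100000000000 * s ^ 6 + 4912281 / 100000000000 * s ^ 7 +
      2959479 / 1600000000000 * s ^ 8 := by
    positivity
  have e :
      241965087219 / 1600000000000 + 92992267973 / 200000000000 * s +
      102848953231 / 200000000000 * s ^ 2 + 11950382851 / 50000000000 * s ^ 3 +
      8911417993 / 160000000000 * s ^ 4 + 1515684681 / 200000000000 * s ^ 5 +
      75515913 / 100000000000 * s ^ 6 + 4912281 / 100000000000 * s ^ 7 +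
      2959479 / 1600000000000 * s ^ 8 =
      (1 + 1 / 20 + (1 / 20) ^ 2 / 2) * ((1 + (3 / 100 * u ^ 2) + (3 / 100 * u ^ 2) ^ 2 / 2 +
      (3 / 100 * u ^ 2) ^ 3 / 6) *
      (1 + u + 391 / 1000 * u ^ 2)) -
      (122141 / 100000 * (1 + (u - 1 / 5) / 4) ^ 4) := by
    rw [hs]
    ring
  rw [e] at h
  linarith

/-- `K = 4`: `(c, μ, P, δ) = (391 / 1000, 3 / 100, 1 / 5, 1 / 20)` -/
theorem expFd_four_e24 : ExpFd 4 (391 / 1000) (3 / 100) (1 / 5) (1 / 20) := by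
  have hde : (1 + 1 / 20 + (1 / 20) ^ 2 / 2) ≤ Real.exp (1 / 20) :=
    Real.quadratic_le_exp_of_nonneg (by norm_num)
  have hq : ∀ u : ℝ, 0 ≤ 1 + u + 391 / 1000 * u ^ 2 := fun u => by
    nlinarith [sq_nonneg (u + 2), sq_nonneg u]
  have hR : ∀ (u x y : ℝ), x ≤ y →
      y ≤ (1 + 1 / 20 + (1 / 20) ^ 2 / 2) * (1 + u + 391 / 1000 * u ^ 2) →
      x ≤ Real.exp (1 / 20) * (1 + u + 391 / 1000 * u ^ 2) := fun u x y h1 h2 =>
    (h1.trans h2).trans (mul_le_mul_of_nonneg_right hde (hq u))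
  refine ExpFd.of (by norm_num) (by norm_num) (by norm_num) (by norm_num) (by norm_num) ?_ ?_ ?_
  · intro u h1
    rcases le_total u (-3) with h3 | h3
    · exact hR u _ _ (ev_exp_n3 h3) (ev_four_e24_d u h3)
    rcases le_total u (-2) with h4 | h4
    · refine hR u _ _ (ev_exp_n2 h4) ?_
      exact ev_four_e24_c0 u (by linarith) (by linarith)
    rcases le_total u (-1) with h5 | h5
    · refine hR u _ _ (ev_exp_n1 h5) ?_
      exact ev_four_e24_b0 u (by linarith) (by linarith)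
    refine hR u _ _ (ev_exp_n0 h1) ?_
    exact ev_four_e24_a0 u (by linarith) (by linarith)
  · intro u h1 h2
    have h5 := mul_le_mul_of_nonneg_right (Real.add_one_le_exp (3 / 100 * u ^ 2)) (hq u)
    rw [add_comm (3 / 100 * u ^ 2) 1] at h5
    have h6 : 0 ≤ Real.exp (3 / 100 * u ^ 2) * (1 + u + 391 / 1000 * u ^ 2) :=
      mul_nonneg (Real.exp_nonneg _) (hq u)
    rw [Real.exp_add, mul_assoc]
    refine ((ev_exp_p h1 (by linarith)).trans ?_).trans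
      ((mul_le_mul_of_nonneg_left h5
        (by norm_num : (0 : ℝ) ≤ (1 + 1 / 20 + (1 / 20) ^ 2 / 2))).trans
        (mul_le_mul_of_nonneg_right hde h6))
    exact ev_four_e24_e0 u (by linarith) (by linarith)
  · intro u h1
    have h4 : 0 ≤ (1 + (u - 1 / 5) / 4) ^ 4 := by
      have : 0 ≤ (u - 1 / 5) / 4 := div_nonneg (by linarith) (by norm_num)
      positivity
    have hE : Real.exp (1 / 5) ≤ 122141 / 100000 := ev_up_1_5
    have hx : 0 ≤ 3 / 100 * u ^ 2 := by positivity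
    have h5 := mul_le_mul_of_nonneg_right (taylor3_le_expE _ hx) (hq u)
    have h6 : 0 ≤ Real.exp (3 / 100 * u ^ 2) * (1 + u + 391 / 1000 * u ^ 2) :=
      mul_nonneg (Real.exp_nonneg _) (hq u)
    rw [Real.exp_add, mul_assoc]
    push_cast
    refine ((mul_le_mul_of_nonneg_right hE h4).trans ?_).trans
      ((mul_le_mul_of_nonneg_left h5
        (by norm_num : (0 : ℝ) ≤ (1 + 1 / 20 + (1 / 20) ^ 2 / 2))).trans
        (mul_le_mul_of_nonneg_right hde h6))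
    rcases le_total u (8 / 5) with hh | hh
    · exact ev_four_e24_g0 u (by linarith) (by linarith)
    rcases le_total u (23 / 10) with hh | hh
    · exact ev_four_e24_g1 u (by linarith) (by linarith)
    rcases le_total u (3) with hh | hh
    · exact ev_four_e24_g2 u (by linarith) (by linarith)
    exact ev_four_e24_t u (by linarith)

theorem ev_four_e25_a0 (u : ℝ) (h1 : -1 ≤ u) (h2 : u ≤ 0) :
    1 + u + u ^ 2 / 2 + u ^ 3 / 6 + u ^ 4 / 24 ≤
      (1 + 1 / 10 + (1 / 10) ^ 2 / 2) * (1 + u + 17 / 50 * u ^ 2) := by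
  obtain ⟨s, hs⟩ : ∃ s, s = u - (-1) := ⟨_, rfl⟩
  obtain ⟨t, ht⟩ : ∃ t, t = 0 - u := ⟨_, rfl⟩
  have hs0 : 0 ≤ s := by linarith
  have ht0 : 0 ≤ t := by linarith
  have h : 0 ≤
      7 / 10000 * t ^ 4 + 173 / 7500 * s * t ^ 3 + 1907 / 10000 * s ^ 2 * t ^ 2 +
      63 / 200 * s ^ 3 * t + 21 / 200 * s ^ 4 := by
    positivity
  have e :
      7 / 10000 * t ^ 4 + 173 / 7500 * s * t ^ 3 + 1907 / 10000 * s ^ 2 * t ^ 2 +
      63 / 200 * s ^ 3 * t + 21 / 200 * s ^ 4 =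
      (1 + 1 / 10 + (1 / 10) ^ 2 / 2) * (1 + u + 17 / 50 * u ^ 2) -
      (1 + u + u ^ 2 / 2 + u ^ 3 / 6 + u ^ 4 / 24) := by
    rw [hs, ht]
    ring
  rw [e] at h
  linarith

theorem ev_four_e25_b0 (u : ℝ) (h1 : -2 ≤ u) (h2 : u ≤ -1) :
    36788 / 100000 *
      (1 + (u + 1) + (u + 1) ^ 2 / 2 + (u + 1) ^ 3 / 6 + (u + 1) ^ 4 / 24) ≤
      (1 + 1 / 10 + (1 / 10) ^ 2 / 2) * (1 + u + 17 / 50 * u ^ 2) := by
  obtain ⟨s, hs⟩ : ∃ s, s = u - (-2) := ⟨_, rfl⟩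
  obtain ⟨t, ht⟩ : ∃ t, t = -1 - u := ⟨_, rfl⟩
  have hs0 : 0 ≤ s := by linarith
  have ht0 : 0 ≤ t := by linarith
  have h : 0 ≤
      51969 / 200000 * t ^ 4 + 77843 / 150000 * s * t ^ 3 + 3519 / 12500 * s ^ 2 * t ^ 2 +
      1139 / 25000 * s ^ 3 * t + 391 / 50000 * s ^ 4 := by
    positivity
  have e :
      51969 / 200000 * t ^ 4 + 77843 / 150000 * s * t ^ 3 + 3519 / 12500 * s ^ 2 * t ^ 2 +
      1139 / 25000 * s ^ 3 * t + 391 / 50000 * s ^ 4 =
      (1 + 1 / 10 + (1 / 10) ^ 2 / 2) * (1 + u + 17 / 50 * u ^ 2) -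
      (36788 / 100000 *
      (1 + (u + 1) + (u + 1) ^ 2 / 2 + (u + 1) ^ 3 / 6 + (u + 1) ^ 4 / 24)) := by
    rw [hs, ht]
    ring
  rw [e] at h
  linarith

theorem ev_four_e25_c0 (u : ℝ) (h1 : -3 ≤ u) (h2 : u ≤ -2) :
    13534 / 100000 *
      (1 + (u + 2) + (u + 2) ^ 2 / 2 + (u + 2) ^ 3 / 6 + (u + 2) ^ 4 / 24) ≤
      (1 + 1 / 10 + (1 / 10) ^ 2 / 2) * (1 + u + 17 / 50 * u ^ 2) := by
  obtain ⟨s, hs⟩ : ∃ s, s = u - (-3) := ⟨_, rfl⟩
  obtain ⟨t, ht⟩ : ∃ t, t = -2 - u := ⟨_, rfl⟩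
  have hs0 : 0 ≤ s := by linarith
  have ht0 : 0 ≤ t := by linarith
  have h : 0 ≤
      448219 / 400000 * t ^ 4 + 986363 / 300000 * s * t ^ 3 +
      348221 / 100000 * s ^ 2 * t ^ 2 + 79149 / 50000 * s ^ 3 * t + 13123 / 50000 * s ^ 4 := by
    positivity
  have e :
      448219 / 400000 * t ^ 4 + 986363 / 300000 * s * t ^ 3 +
      348221 / 100000 * s ^ 2 * t ^ 2 + 79149 / 50000 * s ^ 3 * t + 13123 / 50000 * s ^ 4 =
      (1 + 1 / 10 + (1 / 10) ^ 2 / 2) * (1 + u + 17 / 50 * u ^ 2) -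
      (13534 / 100000 *
      (1 + (u + 2) + (u + 2) ^ 2 / 2 + (u + 2) ^ 3 / 6 + (u + 2) ^ 4 / 24)) := by
    rw [hs, ht]
    ring
  rw [e] at h
  linarith

theorem ev_four_e25_d (u : ℝ) (h2 : u ≤ -3) :
    4979 / 100000 ≤
      (1 + 1 / 10 + (1 / 10) ^ 2 / 2) * (1 + u + 17 / 50 * u ^ 2) := by
  obtain ⟨s, hs⟩ : ∃ s, s = -3 - u := ⟨_, rfl⟩
  have hs0 : 0 ≤ s := by linarith
  have h : 0 ≤
      112151 / 100000 + 2873 / 2500 * s + 3757 / 10000 * s ^ 2 := by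
    positivity
  have e :
      112151 / 100000 + 2873 / 2500 * s + 3757 / 10000 * s ^ 2 =
      (1 + 1 / 10 + (1 / 10) ^ 2 / 2) * (1 + u + 17 / 50 * u ^ 2) -
      (4979 / 100000) := by
    rw [hs]
    ring
  rw [e] at h
  linarith

theorem ev_four_e25_e0 (u : ℝ) (h1 : 0 ≤ u) (h2 : u ≤ 1 / 5) :
    1 + u + u ^ 2 / 2 + u ^ 3 / 6 + u ^ 4 / 24 + u ^ 5 / 100 ≤
      (1 + 1 / 10 + (1 / 10) ^ 2 / 2) * ((1 + 1 / 25 * u ^ 2) *
      (1 + u + 17 / 50 * u ^ 2)) := by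
  obtain ⟨s, hs⟩ : ∃ s, s = u - (0) := ⟨_, rfl⟩
  obtain ⟨t, ht⟩ : ∃ t, t = 1 / 5 - u := ⟨_, rfl⟩
  have hs0 : 0 ≤ s := by linarith
  have ht0 : 0 ≤ t := by linarith
  have h : 0 ≤
      2625 / 8 * t ^ 5 + 6825 / 4 * s * t ^ 4 + 282699 / 80 * s ^ 2 * t ^ 3 +
      4370281 / 1200 * s ^ 3 * t ^ 2 + 140012323 / 75000 * s ^ 4 * t + 2378329 / 6250 * s ^ 5 := by
    positivity
  have e :
      2625 / 8 * t ^ 5 + 6825 / 4 * s * t ^ 4 + 282699 / 80 * s ^ 2 * t ^ 3 +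
      4370281 / 1200 * s ^ 3 * t ^ 2 + 140012323 / 75000 * s ^ 4 * t + 2378329 / 6250 * s ^ 5 =
      (1 + 1 / 10 + (1 / 10) ^ 2 / 2) * ((1 + 1 / 25 * u ^ 2) *
      (1 + u + 17 / 50 * u ^ 2)) -
      (1 + u + u ^ 2 / 2 + u ^ 3 / 6 + u ^ 4 / 24 + u ^ 5 / 100) := by
    rw [hs, ht]
    ring
  rw [e] at h
  linarith

theorem ev_four_e25_g0 (u : ℝ) (h1 : 1 / 5 ≤ u) (h2 : u ≤ 2) :
    122141 / 100000 * (1 + (u - 1 / 5) / 4) ^ 4 ≤
      (1 + 1 / 10 + (1 / 10) ^ 2 / 2) * ((1 + (1 / 25 * u ^ 2) + (1 / 25 * u ^ 2) ^ 2 / 2 +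
      (1 / 25 * u ^ 2) ^ 3 / 6) *
      (1 + u + 17 / 50 * u ^ 2)) := by
  obtain ⟨s, hs⟩ : ∃ s, s = u - (1 / 5) := ⟨_, rfl⟩
  obtain ⟨t, ht⟩ : ∃ t, t = 2 - u := ⟨_, rfl⟩
  have hs0 : 0 ≤ s := by linarith
  have ht0 : 0 ≤ t := by linarith
  have h : 0 ≤
      44591807457757 / 40356300937500000 * t ^ 8 +
      78910433229787 / 8071260187500000 * s * t ^ 7 +
      481326271645847 / 12914016300000000 * s ^ 2 * t ^ 6 +
      409065627194401 / 5165606520000000 * s ^ 3 * t ^ 5 +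
      340117002096233 / 3305988172800000 * s ^ 4 * t ^ 4 +
      70216139665441 / 826497043200000 * s ^ 5 * t ^ 3 +
      14843199785807 / 330598817280000 * s ^ 6 * t ^ 2 +
      480505917877 / 33059881728000 * s ^ 7 * t + 61045020637 / 26447905382400 * s ^ 8 := by
    positivity
  have e :
      44591807457757 / 40356300937500000 * t ^ 8 +
      78910433229787 / 8071260187500000 * s * t ^ 7 +
      481326271645847 / 12914016300000000 * s ^ 2 * t ^ 6 +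
      409065627194401 / 5165606520000000 * s ^ 3 * t ^ 5 +
      340117002096233 / 3305988172800000 * s ^ 4 * t ^ 4 +
      70216139665441 / 826497043200000 * s ^ 5 * t ^ 3 +
      14843199785807 / 330598817280000 * s ^ 6 * t ^ 2 +
      480505917877 / 33059881728000 * s ^ 7 * t + 61045020637 / 26447905382400 * s ^ 8 =
      (1 + 1 / 10 + (1 / 10) ^ 2 / 2) * ((1 + (1 / 25 * u ^ 2) + (1 / 25 * u ^ 2) ^ 2 / 2 +
      (1 / 25 * u ^ 2) ^ 3 / 6) *
      (1 + u + 17 / 50 * u ^ 2)) -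
      (122141 / 100000 * (1 + (u - 1 / 5) / 4) ^ 4) := by
    rw [hs, ht]
    ring
  rw [e] at h
  linarith

theorem ev_four_e25_t (u : ℝ) (h1 : 2 ≤ u) :
    122141 / 100000 * (1 + (u - 1 / 5) / 4) ^ 4 ≤
      (1 + 1 / 10 + (1 / 10) ^ 2 / 2) * ((1 + (1 / 25 * u ^ 2) + (1 / 25 * u ^ 2) ^ 2 / 2 +
      (1 / 25 * u ^ 2) ^ 3 / 6) *
      (1 + u + 17 / 50 * u ^ 2)) := by
  obtain ⟨s, hs⟩ : ∃ s, s = u - (2) := ⟨_, rfl⟩
  have hs0 : 0 ≤ s := by linarith
  have h : 0 ≤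
      61045020637 / 240000000000 + 14438254277 / 60000000000 * s +
      31772132807 / 120000000000 * s ^ 2 + 9595385941 / 60000000000 * s ^ 3 +
      2232494233 / 48000000000 * s ^ 4 + 3476993 / 468750000 * s ^ 5 +
      868309 / 937500000 * s ^ 6 + 35581 / 468750000 * s ^ 7 + 3757 / 937500000 * s ^ 8 := by
    positivity
  have e :
      61045020637 / 240000000000 + 14438254277 / 60000000000 * s +
      31772132807 / 120000000000 * s ^ 2 + 9595385941 / 60000000000 * s ^ 3 +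
      2232494233 / 48000000000 * s ^ 4 + 3476993 / 468750000 * s ^ 5 +
      868309 / 937500000 * s ^ 6 + 35581 / 468750000 * s ^ 7 + 3757 / 937500000 * s ^ 8 =
      (1 + 1 / 10 + (1 / 10) ^ 2 / 2) * ((1 + (1 / 25 * u ^ 2) + (1 / 25 * u ^ 2) ^ 2 / 2 +
      (1 / 25 * u ^ 2) ^ 3 / 6) *
      (1 + u + 17 / 50 * u ^ 2)) -
      (122141 / 100000 * (1 + (u - 1 / 5) / 4) ^ 4) := by
    rw [hs]
    ring
  rw [e] at h
  linarith

/-- `K = 4`: `(c, μ, P, δ) = (17 / 50, 1 / 25, 1 / 5, 1 / 10)` -/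
theorem expFd_four_e25 : ExpFd 4 (17 / 50) (1 / 25) (1 / 5) (1 / 10) := by
  have hde : (1 + 1 / 10 + (1 / 10) ^ 2 / 2) ≤ Real.exp (1 / 10) :=
    Real.quadratic_le_exp_of_nonneg (by norm_num)
  have hq : ∀ u : ℝ, 0 ≤ 1 + u + 17 / 50 * u ^ 2 := fun u => by
    nlinarith [sq_nonneg (u + 2), sq_nonneg u]
  have hR : ∀ (u x y : ℝ), x ≤ y →
      y ≤ (1 + 1 / 10 + (1 / 10) ^ 2 / 2) * (1 + u + 17 / 50 * u ^ 2) →
      x ≤ Real.exp (1 / 10) * (1 + u + 17 / 50 * u ^ 2) := fun u x y h1 h2 =>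
    (h1.trans h2).trans (mul_le_mul_of_nonneg_right hde (hq u))
  refine ExpFd.of (by norm_num) (by norm_num) (by norm_num) (by norm_num) (by norm_num) ?_ ?_ ?_
  · intro u h1
    rcases le_total u (-3) with h3 | h3
    · exact hR u _ _ (ev_exp_n3 h3) (ev_four_e25_d u h3)
    rcases le_total u (-2) with h4 | h4
    · refine hR u _ _ (ev_exp_n2 h4) ?_
      exact ev_four_e25_c0 u (by linarith) (by linarith)
    rcases le_total u (-1) with h5 | h5
    · refine hR u _ _ (ev_exp_n1 h5) ?_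
      exact ev_four_e25_b0 u (by linarith) (by linarith)
    refine hR u _ _ (ev_exp_n0 h1) ?_
    exact ev_four_e25_a0 u (by linarith) (by linarith)
  · intro u h1 h2
    have h5 := mul_le_mul_of_nonneg_right (Real.add_one_le_exp (1 / 25 * u ^ 2)) (hq u)
    rw [add_comm (1 / 25 * u ^ 2) 1] at h5
    have h6 : 0 ≤ Real.exp (1 / 25 * u ^ 2) * (1 + u + 17 / 50 * u ^ 2) :=
      mul_nonneg (Real.exp_nonneg _) (hq u)
    rw [Real.exp_add, mul_assoc]
    refine ((ev_exp_p h1 (by linarith)).trans ?_).trans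
      ((mul_le_mul_of_nonneg_left h5
        (by norm_num : (0 : ℝ) ≤ (1 + 1 / 10 + (1 / 10) ^ 2 / 2))).trans
        (mul_le_mul_of_nonneg_right hde h6))
    exact ev_four_e25_e0 u (by linarith) (by linarith)
  · intro u h1
    have h4 : 0 ≤ (1 + (u - 1 / 5) / 4) ^ 4 := by
      have : 0 ≤ (u - 1 / 5) / 4 := div_nonneg (by linarith) (by norm_num)
      positivity
    have hE : Real.exp (1 / 5) ≤ 122141 / 100000 := ev_up_1_5
    have hx : 0 ≤ 1 / 25 * u ^ 2 := by positivity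
    have h5 := mul_le_mul_of_nonneg_right (taylor3_le_expE _ hx) (hq u)
    have h6 : 0 ≤ Real.exp (1 / 25 * u ^ 2) * (1 + u + 17 / 50 * u ^ 2) :=
      mul_nonneg (Real.exp_nonneg _) (hq u)
    rw [Real.exp_add, mul_assoc]
    push_cast
    refine ((mul_le_mul_of_nonneg_right hE h4).trans ?_).trans
      ((mul_le_mul_of_nonneg_left h5
        (by norm_num : (0 : ℝ) ≤ (1 + 1 / 10 + (1 / 10) ^ 2 / 2))).trans
        (mul_le_mul_of_nonneg_right hde h6))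
    rcases le_total u (2) with hh | hh
    · exact ev_four_e25_g0 u (by linarith) (by linarith)
    exact ev_four_e25_t u (by linarith)

theorem ev_four_e30_a0 (u : ℝ) (h1 : -1 ≤ u) (h2 : u ≤ 0) :
    1 + u + u ^ 2 / 2 + u ^ 3 / 6 + u ^ 4 / 24 ≤
      (1 + 1 / 500 + (1 / 500) ^ 2 / 2) * (1 + u + 277 / 500 * u ^ 2) := by
  obtain ⟨s, hs⟩ : ∃ s, s = u - (-1) := ⟨_, rfl⟩
  obtain ⟨t, ht⟩ : ∃ t, t = 0 - u := ⟨_, rfl⟩
  have hs0 : 0 ≤ s := by linarith
  have ht0 : 0 ≤ t := by linarith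
  have h : 0 ≤
      45027277 / 250000000 * t ^ 4 + 104582581 / 375000000 * s * t ^ 3 +
      15278777 / 250000000 * s ^ 2 * t ^ 2 + 3003 / 500000 * s ^ 3 * t + 1001 / 500000 * s ^ 4 := by
    positivity
  have e :
      45027277 / 250000000 * t ^ 4 + 104582581 / 375000000 * s * t ^ 3 +
      15278777 / 250000000 * s ^ 2 * t ^ 2 + 3003 / 500000 * s ^ 3 * t + 1001 / 500000 * s ^ 4 =
      (1 + 1 / 500 + (1 / 500) ^ 2 / 2) * (1 + u + 277 / 500 * u ^ 2) -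
      (1 + u + u ^ 2 / 2 + u ^ 3 / 6 + u ^ 4 / 24) := by
    rw [hs, ht]
    ring
  rw [e] at h
  linarith

theorem ev_four_e30_b0 (u : ℝ) (h1 : -2 ≤ u) (h2 : u ≤ -1) :
    36788 / 100000 *
      (1 + (u + 1) + (u + 1) ^ 2 / 2 + (u + 1) ^ 3 / 6 + (u + 1) ^ 4 / 24) ≤
      (1 + 1 / 500 + (1 / 500) ^ 2 / 2) * (1 + u + 277 / 500 * u ^ 2) := by
  obtain ⟨s, hs⟩ : ∃ s, s = u - (-2) := ⟨_, rfl⟩
  obtain ⟨t, ht⟩ : ∃ t, t = -1 - u := ⟨_, rfl⟩
  have hs0 : 0 ≤ s := by linarith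
  have ht0 : 0 ≤ t := by linarith
  have h : 0 ≤
      135059929 / 125000000 * t ^ 4 + 279455309 / 93750000 * s * t ^ 3 +
      730708101 / 250000000 * s ^ 2 * t ^ 2 + 153126581 / 125000000 * s ^ 3 * t +
      46807277 / 250000000 * s ^ 4 := by
    positivity
  have e :
      135059929 / 125000000 * t ^ 4 + 279455309 / 93750000 * s * t ^ 3 +
      730708101 / 250000000 * s ^ 2 * t ^ 2 + 153126581 / 125000000 * s ^ 3 * t +
      46807277 / 250000000 * s ^ 4 =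
      (1 + 1 / 500 + (1 / 500) ^ 2 / 2) * (1 + u + 277 / 500 * u ^ 2) -
      (36788 / 100000 *
      (1 + (u + 1) + (u + 1) ^ 2 / 2 + (u + 1) ^ 3 / 6 + (u + 1) ^ 4 / 24)) := by
    rw [hs, ht]
    ring
  rw [e] at h
  linarith

theorem ev_four_e30_c0 (u : ℝ) (h1 : -3 ≤ u) (h2 : u ≤ -2) :
    13534 / 100000 *
      (1 + (u + 2) + (u + 2) ^ 2 / 2 + (u + 2) ^ 3 / 6 + (u + 2) ^ 4 / 24) ≤
      (1 + 1 / 500 + (1 / 500) ^ 2 / 2) * (1 + u + 277 / 500 * u ^ 2) := by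
  obtain ⟨s, hs⟩ : ∃ s, s = u - (-3) := ⟨_, rfl⟩
  obtain ⟨t, ht⟩ : ∃ t, t = -2 - u := ⟨_, rfl⟩
  have hs0 : 0 ≤ s := by linarith
  have ht0 : 0 ≤ t := by linarith
  have h : 0 ≤
      5744581 / 1953125 * t ^ 4 + 704335193 / 75000000 * s * t ^ 3 +
      2761832249 / 250000000 * s ^ 2 * t ^ 2 + 35538451 / 6250000 * s ^ 3 * t +
      33846701 / 31250000 * s ^ 4 := by
    positivity
  have e :
      5744581 / 1953125 * t ^ 4 + 704335193 / 75000000 * s * t ^ 3 +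
      2761832249 / 250000000 * s ^ 2 * t ^ 2 + 35538451 / 6250000 * s ^ 3 * t +
      33846701 / 31250000 * s ^ 4 =
      (1 + 1 / 500 + (1 / 500) ^ 2 / 2) * (1 + u + 277 / 500 * u ^ 2) -
      (13534 / 100000 *
      (1 + (u + 2) + (u + 2) ^ 2 / 2 + (u + 2) ^ 3 / 6 + (u + 2) ^ 4 / 24)) := by
    rw [hs, ht]
    ring
  rw [e] at h
  linarith

theorem ev_four_e30_d (u : ℝ) (h2 : u ≤ -3) :
    4979 / 100000 ≤
      (1 + 1 / 500 + (1 / 500) ^ 2 / 2) * (1 + u + 277 / 500 * u ^ 2) := by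
  obtain ⟨s, hs⟩ : ∃ s, s = -3 - u := ⟨_, rfl⟩
  have hs0 : 0 ≤ s := by linarith
  have h : 0 ≤
      735546993 / 250000000 + 291081581 / 125000000 * s + 138777277 / 250000000 * s ^ 2 := by
    positivity
  have e :
      735546993 / 250000000 + 291081581 / 125000000 * s + 138777277 / 250000000 * s ^ 2 =
      (1 + 1 / 500 + (1 / 500) ^ 2 / 2) * (1 + u + 277 / 500 * u ^ 2) -
      (4979 / 100000) := by
    rw [hs]
    ring
  rw [e] at h
  linarith

theorem ev_four_e30_e0 (u : ℝ) (h1 : 0 ≤ u) (h2 : u ≤ 1 / 3) :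
    1 + u + u ^ 2 / 2 + u ^ 3 / 6 + u ^ 4 / 24 + u ^ 5 / 100 ≤
      (1 + 1 / 500 + (1 / 500) ^ 2 / 2) * ((1 + 1 / 50 * u ^ 2) *
      (1 + u + 277 / 500 * u ^ 2)) := by
  obtain ⟨s, hs⟩ : ∃ s, s = u - (0) := ⟨_, rfl⟩
  obtain ⟨t, ht⟩ : ∃ t, t = 1 / 3 - u := ⟨_, rfl⟩
  have hs0 : 0 ≤ s := by linarith
  have ht0 : 0 ≤ t := by linarith
  have h : 0 ≤
      243243 / 500000 * t ^ 5 + 81081 / 31250 * s * t ^ 4 +
      1885633749 / 250000000 * s ^ 2 * t ^ 3 + 2651318337 / 250000000 * s ^ 3 * t ^ 2 +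
      80464828181 / 12500000000 * s ^ 4 * t + 15704273781 / 12500000000 * s ^ 5 := by
    positivity
  have e :
      243243 / 500000 * t ^ 5 + 81081 / 31250 * s * t ^ 4 +
      1885633749 / 250000000 * s ^ 2 * t ^ 3 + 2651318337 / 250000000 * s ^ 3 * t ^ 2 +
      80464828181 / 12500000000 * s ^ 4 * t + 15704273781 / 12500000000 * s ^ 5 =
      (1 + 1 / 500 + (1 / 500) ^ 2 / 2) * ((1 + 1 / 50 * u ^ 2) *
      (1 + u + 277 / 500 * u ^ 2)) -
      (1 + u + u ^ 2 / 2 + u ^ 3 / 6 + u ^ 4 / 24 + u ^ 5 / 100) := by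
    rw [hs, ht]
    ring
  rw [e] at h
  linarith

theorem ev_four_e30_g0 (u : ℝ) (h1 : 1 / 3 ≤ u) (h2 : u ≤ 3) :
    69781 / 50000 * (1 + (u - 1 / 3) / 4) ^ 4 ≤
      (1 + 1 / 500 + (1 / 500) ^ 2 / 2) * ((1 + (1 / 50 * u ^ 2) + (1 / 50 * u ^ 2) ^ 2 / 2 +
      (1 / 50 * u ^ 2) ^ 3 / 6) *
      (1 + u + 277 / 500 * u ^ 2)) := by
  obtain ⟨s, hs⟩ : ∃ s, s = u - (1 / 3) := ⟨_, rfl⟩
  obtain ⟨t, ht⟩ : ∃ t, t = 3 - u := ⟨_, rfl⟩
  have hs0 : 0 ≤ s := by linarith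
  have ht0 : 0 ≤ t := by linarith
  have h : 0 ≤
      6361138233512227 / 3145728000000000000000 * t ^ 8 +
      1872208976618881 / 131072000000000000000 * s * t ^ 7 +
      69296006777146503 / 262144000000000000000 * s ^ 2 * t ^ 6 +
      133055495557577127 / 131072000000000000000 * s ^ 3 * t ^ 5 +
      167243460169907943 / 104857600000000000000 * s ^ 4 * t ^ 4 +
      150908314645801287 / 131072000000000000000 * s ^ 5 * t ^ 3 +
      86599678203978183 / 262144000000000000000 * s ^ 6 * t ^ 2 +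
      1880173785583521 / 131072000000000000000 * s ^ 7 * t +
      4367921473937889 / 1048576000000000000000 * s ^ 8 := by
    positivity
  have e :
      6361138233512227 / 3145728000000000000000 * t ^ 8 +
      1872208976618881 / 131072000000000000000 * s * t ^ 7 +
      69296006777146503 / 262144000000000000000 * s ^ 2 * t ^ 6 +
      133055495557577127 / 131072000000000000000 * s ^ 3 * t ^ 5 +
      167243460169907943 / 104857600000000000000 * s ^ 4 * t ^ 4 +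
      150908314645801287 / 131072000000000000000 * s ^ 5 * t ^ 3 +
      86599678203978183 / 262144000000000000000 * s ^ 6 * t ^ 2 +
      1880173785583521 / 131072000000000000000 * s ^ 7 * t +
      4367921473937889 / 1048576000000000000000 * s ^ 8 =
      (1 + 1 / 500 + (1 / 500) ^ 2 / 2) * ((1 + (1 / 50 * u ^ 2) + (1 / 50 * u ^ 2) ^ 2 / 2 +
      (1 / 50 * u ^ 2) ^ 3 / 6) *
      (1 + u + 277 / 500 * u ^ 2)) -
      (69781 / 50000 * (1 + (u - 1 / 3) / 4) ^ 4) := by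
    rw [hs, ht]
    ring
  rw [e] at h
  linarith

theorem ev_four_e30_t (u : ℝ) (h1 : 3 ≤ u) :
    69781 / 50000 * (1 + (u - 1 / 3) / 4) ^ 4 ≤
      (1 + 1 / 500 + (1 / 500) ^ 2 / 2) * ((1 + (1 / 50 * u ^ 2) + (1 / 50 * u ^ 2) ^ 2 / 2 +
      (1 / 50 * u ^ 2) ^ 3 / 6) *
      (1 + u + 277 / 500 * u ^ 2)) := by
  obtain ⟨s, hs⟩ : ∃ s, s = u - (3) := ⟨_, rfl⟩
  have hs0 : 0 ≤ s := by linarith
  have h : 0 ≤
      53924956468369 / 5062500000000000 + 479889600377 / 26367187500000 * s +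
      11683731420187 / 93750000000000 * s ^ 2 + 4821687923729 / 46875000000000 * s ^ 3 +
      737110039687 / 25000000000000 * s ^ 4 + 28081607051 / 7812500000000 * s ^ 5 +
      30649738177 / 93750000000000 * s ^ 6 + 895288787 / 46875000000000 * s ^ 7 +
      138777277 / 187500000000000 * s ^ 8 := by
    positivity
  have e :
      53924956468369 / 5062500000000000 + 479889600377 / 26367187500000 * s +
      11683731420187 / 93750000000000 * s ^ 2 + 4821687923729 / 46875000000000 * s ^ 3 +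
      737110039687 / 25000000000000 * s ^ 4 + 28081607051 / 7812500000000 * s ^ 5 +
      30649738177 / 93750000000000 * s ^ 6 + 895288787 / 46875000000000 * s ^ 7 +
      138777277 / 187500000000000 * s ^ 8 =
      (1 + 1 / 500 + (1 / 500) ^ 2 / 2) * ((1 + (1 / 50 * u ^ 2) + (1 / 50 * u ^ 2) ^ 2 / 2 +
      (1 / 50 * u ^ 2) ^ 3 / 6) *
      (1 + u + 277 / 500 * u ^ 2)) -
      (69781 / 50000 * (1 + (u - 1 / 3) / 4) ^ 4) := by
    rw [hs]
    ring
  rw [e] at h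
  linarith

/-- `K = 4`: `(c, μ, P, δ) = (277 / 500, 1 / 50, 1 / 3, 1 / 500)` -/
theorem expFd_four_e30 : ExpFd 4 (277 / 500) (1 / 50) (1 / 3) (1 / 500) := by
  have hde : (1 + 1 / 500 + (1 / 500) ^ 2 / 2) ≤ Real.exp (1 / 500) :=
    Real.quadratic_le_exp_of_nonneg (by norm_num)
  have hq : ∀ u : ℝ, 0 ≤ 1 + u + 277 / 500 * u ^ 2 := fun u => by
    nlinarith [sq_nonneg (u + 2), sq_nonneg u]
  have hR : ∀ (u x y : ℝ), x ≤ y →
      y ≤ (1 + 1 / 500 + (1 / 500) ^ 2 / 2) * (1 + u + 277 / 500 * u ^ 2) →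
      x ≤ Real.exp (1 / 500) * (1 + u + 277 / 500 * u ^ 2) := fun u x y h1 h2 =>
    (h1.trans h2).trans (mul_le_mul_of_nonneg_right hde (hq u))
  refine ExpFd.of (by norm_num) (by norm_num) (by norm_num) (by norm_num) (by norm_num) ?_ ?_ ?_
  · intro u h1
    rcases le_total u (-3) with h3 | h3
    · exact hR u _ _ (ev_exp_n3 h3) (ev_four_e30_d u h3)
    rcases le_total u (-2) with h4 | h4
    · refine hR u _ _ (ev_exp_n2 h4) ?_
      exact ev_four_e30_c0 u (by linarith) (by linarith)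
    rcases le_total u (-1) with h5 | h5
    · refine hR u _ _ (ev_exp_n1 h5) ?_
      exact ev_four_e30_b0 u (by linarith) (by linarith)
    refine hR u _ _ (ev_exp_n0 h1) ?_
    exact ev_four_e30_a0 u (by linarith) (by linarith)
  · intro u h1 h2
    have h5 := mul_le_mul_of_nonneg_right (Real.add_one_le_exp (1 / 50 * u ^ 2)) (hq u)
    rw [add_comm (1 / 50 * u ^ 2) 1] at h5
    have h6 : 0 ≤ Real.exp (1 / 50 * u ^ 2) * (1 + u + 277 / 500 * u ^ 2) :=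
      mul_nonneg (Real.exp_nonneg _) (hq u)
    rw [Real.exp_add, mul_assoc]
    refine ((ev_exp_p h1 (by linarith)).trans ?_).trans
      ((mul_le_mul_of_nonneg_left h5
        (by norm_num : (0 : ℝ) ≤ (1 + 1 / 500 + (1 / 500) ^ 2 / 2))).trans
        (mul_le_mul_of_nonneg_right hde h6))
    exact ev_four_e30_e0 u (by linarith) (by linarith)
  · intro u h1
    have h4 : 0 ≤ (1 + (u - 1 / 3) / 4) ^ 4 := by
      have : 0 ≤ (u - 1 / 3) / 4 := div_nonneg (by linarith) (by norm_num)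
      positivity
    have hE : Real.exp (1 / 3) ≤ 69781 / 50000 := ev_up_1_3
    have hx : 0 ≤ 1 / 50 * u ^ 2 := by positivity
    have h5 := mul_le_mul_of_nonneg_right (taylor3_le_expE _ hx) (hq u)
    have h6 : 0 ≤ Real.exp (1 / 50 * u ^ 2) * (1 + u + 277 / 500 * u ^ 2) :=
      mul_nonneg (Real.exp_nonneg _) (hq u)
    rw [Real.exp_add, mul_assoc]
    push_cast
    refine ((mul_le_mul_of_nonneg_right hE h4).trans ?_).trans
      ((mul_le_mul_of_nonneg_left h5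
        (by norm_num : (0 : ℝ) ≤ (1 + 1 / 500 + (1 / 500) ^ 2 / 2))).trans
        (mul_le_mul_of_nonneg_right hde h6))
    rcases le_total u (3) with hh | hh
    · exact ev_four_e30_g0 u (by linarith) (by linarith)
    exact ev_four_e30_t u (by linarith)

theorem ev_four_e31_a0 (u : ℝ) (h1 : -1 ≤ u) (h2 : u ≤ 0) :
    1 + u + u ^ 2 / 2 + u ^ 3 / 6 + u ^ 4 / 24 ≤
      (1 + 1 / 200 + (1 / 200) ^ 2 / 2) * (1 + u + 551 / 1000 * u ^ 2) := by
  obtain ⟨s, hs⟩ : ∃ s, s = u - (-1) := ⟨_, rfl⟩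
  obtain ⟨t, ht⟩ : ∃ t, t = 0 - u := ⟨_, rfl⟩
  have hs0 : 0 ≤ s := by linarith
  have ht0 : 0 ≤ t := by linarith
  have h : 0 ≤
      14300951 / 80000000 * t ^ 4 + 33504353 / 120000000 * s * t ^ 3 +
      5503951 / 80000000 * s ^ 2 * t ^ 2 + 1203 / 80000 * s ^ 3 * t + 401 / 80000 * s ^ 4 := by
    positivity
  have e :
      14300951 / 80000000 * t ^ 4 + 33504353 / 120000000 * s * t ^ 3 +
      5503951 / 80000000 * s ^ 2 * t ^ 2 + 1203 / 80000 * s ^ 3 * t + 401 / 80000 * s ^ 4 =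
      (1 + 1 / 200 + (1 / 200) ^ 2 / 2) * (1 + u + 551 / 1000 * u ^ 2) -
      (1 + u + u ^ 2 / 2 + u ^ 3 / 6 + u ^ 4 / 24) := by
    rw [hs, ht]
    ring
  rw [e] at h
  linarith

theorem ev_four_e31_b0 (u : ℝ) (h1 : -2 ≤ u) (h2 : u ≤ -1) :
    36788 / 100000 *
      (1 + (u + 1) + (u + 1) ^ 2 / 2 + (u + 1) ^ 3 / 6 + (u + 1) ^ 4 / 24) ≤
      (1 + 1 / 200 + (1 / 200) ^ 2 / 2) * (1 + u + 551 / 1000 * u ^ 2) := by
  obtain ⟨s, hs⟩ : ∃ s, s = u - (-2) := ⟨_, rfl⟩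
  obtain ⟨t, ht⟩ : ∃ t, t = -1 - u := ⟨_, rfl⟩
  have hs0 : 0 ≤ s := by linarith
  have ht0 : 0 ≤ t := by linarith
  have h : 0 ≤
      21441601 / 20000000 * t ^ 4 + 177339509 / 60000000 * s * t ^ 3 +
      231702963 / 80000000 * s ^ 2 * t ^ 2 + 48556753 / 40000000 * s ^ 3 * t +
      14870551 / 80000000 * s ^ 4 := by
    positivity
  have e :
      21441601 / 20000000 * t ^ 4 + 177339509 / 60000000 * s * t ^ 3 +
      231702963 / 80000000 * s ^ 2 * t ^ 2 + 48556753 / 40000000 * s ^ 3 * t +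
      14870551 / 80000000 * s ^ 4 =
      (1 + 1 / 200 + (1 / 200) ^ 2 / 2) * (1 + u + 551 / 1000 * u ^ 2) -
      (36788 / 100000 *
      (1 + (u + 1) + (u + 1) ^ 2 / 2 + (u + 1) ^ 3 / 6 + (u + 1) ^ 4 / 24)) := by
    rw [hs, ht]
    ring
  rw [e] at h
  linarith

theorem ev_four_e31_c0 (u : ℝ) (h1 : -3 ≤ u) (h2 : u ≤ -2) :
    13534 / 100000 *
      (1 + (u + 2) + (u + 2) ^ 2 / 2 + (u + 2) ^ 3 / 6 + (u + 2) ^ 4 / 24) ≤
      (1 + 1 / 200 + (1 / 200) ^ 2 / 2) * (1 + u + 551 / 1000 * u ^ 2) := by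
  obtain ⟨s, hs⟩ : ∃ s, s = u - (-3) := ⟨_, rfl⟩
  obtain ⟨t, ht⟩ : ∃ t, t = -2 - u := ⟨_, rfl⟩
  have hs0 : 0 ≤ s := by linarith
  have ht0 : 0 ≤ t := by linarith
  have h : 0 ≤
      233846359 / 80000000 * t ^ 4 + 223911499 / 24000000 * s * t ^ 3 +
      877630987 / 80000000 * s ^ 2 * t ^ 2 + 22576621 / 4000000 * s ^ 3 * t +
      21493901 / 20000000 * s ^ 4 := by
    positivity
  have e :
      233846359 / 80000000 * t ^ 4 + 223911499 / 24000000 * s * t ^ 3 +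
      877630987 / 80000000 * s ^ 2 * t ^ 2 + 22576621 / 4000000 * s ^ 3 * t +
      21493901 / 20000000 * s ^ 4 =
      (1 + 1 / 200 + (1 / 200) ^ 2 / 2) * (1 + u + 551 / 1000 * u ^ 2) -
      (13534 / 100000 *
      (1 + (u + 2) + (u + 2) ^ 2 / 2 + (u + 2) ^ 3 / 6 + (u + 2) ^ 4 / 24)) := by
    rw [hs, ht]
    ring
  rw [e] at h
  linarith

theorem ev_four_e31_d (u : ℝ) (h2 : u ≤ -3) :
    4979 / 100000 ≤
      (1 + 1 / 200 + (1 / 200) ^ 2 / 2) * (1 + u + 551 / 1000 * u ^ 2) := by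
  obtain ⟨s, hs⟩ : ∃ s, s = -3 - u := ⟨_, rfl⟩
  have hs0 : 0 ≤ s := by linarith
  have h : 0 ≤
      233923359 / 80000000 + 92702353 / 40000000 * s + 44300951 / 80000000 * s ^ 2 := by
    positivity
  have e :
      233923359 / 80000000 + 92702353 / 40000000 * s + 44300951 / 80000000 * s ^ 2 =
      (1 + 1 / 200 + (1 / 200) ^ 2 / 2) * (1 + u + 551 / 1000 * u ^ 2) -
      (4979 / 100000) := by
    rw [hs]
    ring
  rw [e] at h
  linarith

theorem ev_four_e31_e0 (u : ℝ) (h1 : 0 ≤ u) (h2 : u ≤ 1 / 3) :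
    1 + u + u ^ 2 / 2 + u ^ 3 / 6 + u ^ 4 / 24 + u ^ 5 / 100 ≤
      (1 + 1 / 200 + (1 / 200) ^ 2 / 2) * ((1 + 1 / 50 * u ^ 2) *
      (1 + u + 551 / 1000 * u ^ 2)) := by
  obtain ⟨s, hs⟩ : ∃ s, s = u - (0) := ⟨_, rfl⟩
  obtain ⟨t, ht⟩ : ∃ t, t = 1 / 3 - u := ⟨_, rfl⟩
  have hs0 : 0 ≤ s := by linarith
  have ht0 : 0 ≤ t := by linarith
  have h : 0 ≤
      97443 / 80000 * t ^ 5 + 32481 / 5000 * s * t ^ 4 +
      1263896217 / 80000000 * s ^ 2 * t ^ 3 + 1542414831 / 80000000 * s ^ 3 * t ^ 2 +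
      43868403403 / 4000000000 * s ^ 4 * t + 8789822703 / 4000000000 * s ^ 5 := by
    positivity
  have e :
      97443 / 80000 * t ^ 5 + 32481 / 5000 * s * t ^ 4 +
      1263896217 / 80000000 * s ^ 2 * t ^ 3 + 1542414831 / 80000000 * s ^ 3 * t ^ 2 +
      43868403403 / 4000000000 * s ^ 4 * t + 8789822703 / 4000000000 * s ^ 5 =
      (1 + 1 / 200 + (1 / 200) ^ 2 / 2) * ((1 + 1 / 50 * u ^ 2) *
      (1 + u + 551 / 1000 * u ^ 2)) -
      (1 + u + u ^ 2 / 2 + u ^ 3 / 6 + u ^ 4 / 24 + u ^ 5 / 100) := by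
    rw [hs, ht]
    ring
  rw [e] at h
  linarith

theorem ev_four_e31_g0 (u : ℝ) (h1 : 1 / 3 ≤ u) (h2 : u ≤ 3) :
    69781 / 50000 * (1 + (u - 1 / 3) / 4) ^ 4 ≤
      (1 + 1 / 200 + (1 / 200) ^ 2 / 2) * ((1 + (1 / 50 * u ^ 2) + (1 / 50 * u ^ 2) ^ 2 / 2 +
      (1 / 50 * u ^ 2) ^ 3 / 6) *
      (1 + u + 551 / 1000 * u ^ 2)) := by
  obtain ⟨s, hs⟩ : ∃ s, s = u - (1 / 3) := ⟨_, rfl⟩
  obtain ⟨t, ht⟩ : ∃ t, t = 3 - u := ⟨_, rfl⟩
  have hs0 : 0 ≤ s := by linarith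
  have ht0 : 0 ≤ t := by linarith
  have h : 0 ≤
      3560172306311801 / 1006632960000000000000 * t ^ 8 +
      1202168110902503 / 41943040000000000000 * s * t ^ 7 +
      26769916515360189 / 83886080000000000000 * s ^ 2 * t ^ 6 +
      47264424823061001 / 41943040000000000000 * s ^ 3 * t ^ 5 +
      58004597254041909 / 33554432000000000000 * s ^ 4 * t ^ 4 +
      52259837242230081 / 41943040000000000000 * s ^ 5 * t ^ 3 +
      30800082655402029 / 83886080000000000000 * s ^ 6 * t ^ 2 +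
      854775204557823 / 41943040000000000000 * s ^ 7 * t +
      1384698595083507 / 335544320000000000000 * s ^ 8 := by
    positivity
  have e :
      3560172306311801 / 1006632960000000000000 * t ^ 8 +
      1202168110902503 / 41943040000000000000 * s * t ^ 7 +
      26769916515360189 / 83886080000000000000 * s ^ 2 * t ^ 6 +
      47264424823061001 / 41943040000000000000 * s ^ 3 * t ^ 5 +
      58004597254041909 / 33554432000000000000 * s ^ 4 * t ^ 4 +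
      52259837242230081 / 41943040000000000000 * s ^ 5 * t ^ 3 +
      30800082655402029 / 83886080000000000000 * s ^ 6 * t ^ 2 +
      854775204557823 / 41943040000000000000 * s ^ 7 * t +
      1384698595083507 / 335544320000000000000 * s ^ 8 =
      (1 + 1 / 200 + (1 / 200) ^ 2 / 2) * ((1 + (1 / 50 * u ^ 2) + (1 / 50 * u ^ 2) ^ 2 / 2 +
      (1 / 50 * u ^ 2) ^ 3 / 6) *
      (1 + u + 551 / 1000 * u ^ 2)) -
      (69781 / 50000 * (1 + (u - 1 / 3) / 4) ^ 4) := by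
    rw [hs, ht]
    ring
  rw [e] at h
  linarith

theorem ev_four_e31_t (u : ℝ) (h1 : 3 ≤ u) :
    69781 / 50000 * (1 + (u - 1 / 3) / 4) ^ 4 ≤
      (1 + 1 / 200 + (1 / 200) ^ 2 / 2) * ((1 + (1 / 50 * u ^ 2) + (1 / 50 * u ^ 2) ^ 2 / 2 +
      (1 / 50 * u ^ 2) ^ 3 / 6) *
      (1 + u + 551 / 1000 * u ^ 2)) := by
  obtain ⟨s, hs⟩ : ∃ s, s = u - (3) := ⟨_, rfl⟩
  have hs0 : 0 ≤ s := by linarith
  have h : 0 ≤
      17095044383747 / 1620000000000000 + 1635566020141 / 135000000000000 * s +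
      3668482504781 / 30000000000000 * s ^ 2 + 768784278401 / 7500000000000 * s ^ 3 +
      29424865957 / 1000000000000 * s ^ 4 + 17941563551 / 5000000000000 * s ^ 5 +
      9788902151 / 30000000000000 * s ^ 6 + 71476489 / 3750000000000 * s ^ 7 +
      44300951 / 60000000000000 * s ^ 8 := by
    positivity
  have e :
      17095044383747 / 1620000000000000 + 1635566020141 / 135000000000000 * s +
      3668482504781 / 30000000000000 * s ^ 2 + 768784278401 / 7500000000000 * s ^ 3 +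
      29424865957 / 1000000000000 * s ^ 4 + 17941563551 / 5000000000000 * s ^ 5 +
      9788902151 / 30000000000000 * s ^ 6 + 71476489 / 3750000000000 * s ^ 7 +
      44300951 / 60000000000000 * s ^ 8 =
      (1 + 1 / 200 + (1 / 200) ^ 2 / 2) * ((1 + (1 / 50 * u ^ 2) + (1 / 50 * u ^ 2) ^ 2 / 2 +
      (1 / 50 * u ^ 2) ^ 3 / 6) *
      (1 + u + 551 / 1000 * u ^ 2)) -
      (69781 / 50000 * (1 + (u - 1 / 3) / 4) ^ 4) := by
    rw [hs]
    ring
  rw [e] at h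
  linarith

/-- `K = 4`: `(c, μ, P, δ) = (551 / 1000, 1 / 50, 1 / 3, 1 / 200)` -/
theorem expFd_four_e31 : ExpFd 4 (551 / 1000) (1 / 50) (1 / 3) (1 / 200) := by
  have hde : (1 + 1 / 200 + (1 / 200) ^ 2 / 2) ≤ Real.exp (1 / 200) :=
    Real.quadratic_le_exp_of_nonneg (by norm_num)
  have hq : ∀ u : ℝ, 0 ≤ 1 + u + 551 / 1000 * u ^ 2 := fun u => by
    nlinarith [sq_nonneg (u + 2), sq_nonneg u]
  have hR : ∀ (u x y : ℝ), x ≤ y →
      y ≤ (1 + 1 / 200 + (1 / 200) ^ 2 / 2) * (1 + u + 551 / 1000 * u ^ 2) →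
      x ≤ Real.exp (1 / 200) * (1 + u + 551 / 1000 * u ^ 2) := fun u x y h1 h2 =>
    (h1.trans h2).trans (mul_le_mul_of_nonneg_right hde (hq u))
  refine ExpFd.of (by norm_num) (by norm_num) (by norm_num) (by norm_num) (by norm_num) ?_ ?_ ?_
  · intro u h1
    rcases le_total u (-3) with h3 | h3
    · exact hR u _ _ (ev_exp_n3 h3) (ev_four_e31_d u h3)
    rcases le_total u (-2) with h4 | h4
    · refine hR u _ _ (ev_exp_n2 h4) ?_
      exact ev_four_e31_c0 u (by linarith) (by linarith)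
    rcases le_total u (-1) with h5 | h5
    · refine hR u _ _ (ev_exp_n1 h5) ?_
      exact ev_four_e31_b0 u (by linarith) (by linarith)
    refine hR u _ _ (ev_exp_n0 h1) ?_
    exact ev_four_e31_a0 u (by linarith) (by linarith)
  · intro u h1 h2
    have h5 := mul_le_mul_of_nonneg_right (Real.add_one_le_exp (1 / 50 * u ^ 2)) (hq u)
    rw [add_comm (1 / 50 * u ^ 2) 1] at h5
    have h6 : 0 ≤ Real.exp (1 / 50 * u ^ 2) * (1 + u + 551 / 1000 * u ^ 2) :=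
      mul_nonneg (Real.exp_nonneg _) (hq u)
    rw [Real.exp_add, mul_assoc]
    refine ((ev_exp_p h1 (by linarith)).trans ?_).trans
      ((mul_le_mul_of_nonneg_left h5
        (by norm_num : (0 : ℝ) ≤ (1 + 1 / 200 + (1 / 200) ^ 2 / 2))).trans
        (mul_le_mul_of_nonneg_right hde h6))
    exact ev_four_e31_e0 u (by linarith) (by linarith)
  · intro u h1
    have h4 : 0 ≤ (1 + (u - 1 / 3) / 4) ^ 4 := by
      have : 0 ≤ (u - 1 / 3) / 4 := div_nonneg (by linarith) (by norm_num)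
      positivity
    have hE : Real.exp (1 / 3) ≤ 69781 / 50000 := ev_up_1_3
    have hx : 0 ≤ 1 / 50 * u ^ 2 := by positivity
    have h5 := mul_le_mul_of_nonneg_right (taylor3_le_expE _ hx) (hq u)
    have h6 : 0 ≤ Real.exp (1 / 50 * u ^ 2) * (1 + u + 551 / 1000 * u ^ 2) :=
      mul_nonneg (Real.exp_nonneg _) (hq u)
    rw [Real.exp_add, mul_assoc]
    push_cast
    refine ((mul_le_mul_of_nonneg_right hE h4).trans ?_).trans
      ((mul_le_mul_of_nonneg_left h5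
        (by norm_num : (0 : ℝ) ≤ (1 + 1 / 200 + (1 / 200) ^ 2 / 2))).trans
        (mul_le_mul_of_nonneg_right hde h6))
    rcases le_total u (3) with hh | hh
    · exact ev_four_e31_g0 u (by linarith) (by linarith)
    exact ev_four_e31_t u (by linarith)

theorem ev_four_e32_a0 (u : ℝ) (h1 : -1 ≤ u) (h2 : u ≤ 0) :
    1 + u + u ^ 2 / 2 + u ^ 3 / 6 + u ^ 4 / 24 ≤
      (1 + 1 / 100 + (1 / 100) ^ 2 / 2) * (1 + u + 51 / 100 * u ^ 2) := by
  obtain ⟨s, hs⟩ : ∃ s, s = u - (-1) := ⟨_, rfl⟩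
  obtain ⟨t, ht⟩ : ∃ t, t = 0 - u := ⟨_, rfl⟩
  have hs0 : 0 ≤ s := by linarith
  have ht0 : 0 ≤ t := by linarith
  have h : 0 ≤
      280251 / 2000000 * t ^ 4 + 620903 / 3000000 * s * t ^ 3 +
      90551 / 2000000 * s ^ 2 * t ^ 2 + 603 / 20000 * s ^ 3 * t + 201 / 20000 * s ^ 4 := by
    positivity
  have e :
      280251 / 2000000 * t ^ 4 + 620903 / 3000000 * s * t ^ 3 +
      90551 / 2000000 * s ^ 2 * t ^ 2 + 603 / 20000 * s ^ 3 * t + 201 / 20000 * s ^ 4 =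
      (1 + 1 / 100 + (1 / 100) ^ 2 / 2) * (1 + u + 51 / 100 * u ^ 2) -
      (1 + u + u ^ 2 / 2 + u ^ 3 / 6 + u ^ 4 / 24) := by
    rw [hs, ht]
    ring
  rw [e] at h
  linarith

theorem ev_four_e32_b0 (u : ℝ) (h1 : -2 ≤ u) (h2 : u ≤ -1) :
    36788 / 100000 *
      (1 + (u + 1) + (u + 1) ^ 2 / 2 + (u + 1) ^ 3 / 6 + (u + 1) ^ 4 / 24) ≤
      (1 + 1 / 100 + (1 / 100) ^ 2 / 2) * (1 + u + 51 / 100 * u ^ 2) := by
  obtain ⟨s, hs⟩ : ∃ s, s = u - (-2) := ⟨_, rfl⟩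
  obtain ⟨t, ht⟩ : ∃ t, t = -1 - u := ⟨_, rfl⟩
  have hs0 : 0 ≤ s := by linarith
  have ht0 : 0 ≤ t := by linarith
  have h : 0 ≤
      912497 / 1000000 * t ^ 4 + 928841 / 375000 * s * t ^ 3 +
      4757803 / 2000000 * s ^ 2 * t ^ 2 + 977063 / 1000000 * s ^ 3 * t +
      294491 / 2000000 * s ^ 4 := by
    positivity
  have e :
      912497 / 1000000 * t ^ 4 + 928841 / 375000 * s * t ^ 3 +
      4757803 / 2000000 * s ^ 2 * t ^ 2 + 977063 / 1000000 * s ^ 3 * t +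
      294491 / 2000000 * s ^ 4 =
      (1 + 1 / 100 + (1 / 100) ^ 2 / 2) * (1 + u + 51 / 100 * u ^ 2) -
      (36788 / 100000 *
      (1 + (u + 1) + (u + 1) ^ 2 / 2 + (u + 1) ^ 3 / 6 + (u + 1) ^ 4 / 24)) := by
    rw [hs, ht]
    ring
  rw [e] at h
  linarith

theorem ev_four_e32_c0 (u : ℝ) (h1 : -3 ≤ u) (h2 : u ≤ -2) :
    13534 / 100000 *
      (1 + (u + 2) + (u + 2) ^ 2 / 2 + (u + 2) ^ 3 / 6 + (u + 2) ^ 4 / 24) ≤
      (1 + 1 / 100 + (1 / 100) ^ 2 / 2) * (1 + u + 51 / 100 * u ^ 2) := by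
  obtain ⟨s, hs⟩ : ∃ s, s = u - (-3) := ⟨_, rfl⟩
  obtain ⟨t, ht⟩ : ∃ t, t = -2 - u := ⟨_, rfl⟩
  have hs0 : 0 ≤ s := by linarith
  have ht0 : 0 ≤ t := by linarith
  have h : 0 ≤
      2565277 / 1000000 * t ^ 4 + 195247 / 24000 * s * t ^ 3 +
      18991007 / 2000000 * s ^ 2 * t ^ 2 + 30289 / 6250 * s ^ 3 * t + 114389 / 125000 * s ^ 4 := by
    positivity
  have e :
      2565277 / 1000000 * t ^ 4 + 195247 / 24000 * s * t ^ 3 +
      18991007 / 2000000 * s ^ 2 * t ^ 2 + 30289 / 6250 * s ^ 3 * t + 114389 / 125000 * s ^ 4 =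
      (1 + 1 / 100 + (1 / 100) ^ 2 / 2) * (1 + u + 51 / 100 * u ^ 2) -
      (13534 / 100000 *
      (1 + (u + 2) + (u + 2) ^ 2 / 2 + (u + 2) ^ 3 / 6 + (u + 2) ^ 4 / 24)) := by
    rw [hs, ht]
    ring
  rw [e] at h
  linarith

theorem ev_four_e32_d (u : ℝ) (h2 : u ≤ -3) :
    4979 / 100000 ≤
      (1 + 1 / 100 + (1 / 100) ^ 2 / 2) * (1 + u + 51 / 100 * u ^ 2) := by
  obtain ⟨s, hs⟩ : ∃ s, s = -3 - u := ⟨_, rfl⟩
  have hs0 : 0 ≤ s := by linarith
  have h : 0 ≤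
      5132479 / 2000000 + 2080703 / 1000000 * s + 1030251 / 2000000 * s ^ 2 := by
    positivity
  have e :
      5132479 / 2000000 + 2080703 / 1000000 * s + 1030251 / 2000000 * s ^ 2 =
      (1 + 1 / 100 + (1 / 100) ^ 2 / 2) * (1 + u + 51 / 100 * u ^ 2) -
      (4979 / 100000) := by
    rw [hs]
    ring
  rw [e] at h
  linarith

theorem ev_four_e32_e0 (u : ℝ) (h1 : 0 ≤ u) (h2 : u ≤ 1 / 3) :
    1 + u + u ^ 2 / 2 + u ^ 3 / 6 + u ^ 4 / 24 + u ^ 5 / 100 ≤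
      (1 + 1 / 100 + (1 / 100) ^ 2 / 2) * ((1 + 1 / 40 * u ^ 2) *
      (1 + u + 51 / 100 * u ^ 2)) := by
  obtain ⟨s, hs⟩ : ∃ s, s = u - (0) := ⟨_, rfl⟩
  obtain ⟨t, ht⟩ : ∃ t, t = 1 / 3 - u := ⟨_, rfl⟩
  have hs0 : 0 ≤ s := by linarith
  have ht0 : 0 ≤ t := by linarith
  have h : 0 ≤
      48843 / 20000 * t ^ 5 + 16281 / 1250 * s * t ^ 4 +
      115071489 / 4000000 * s ^ 2 * t ^ 3 + 15651789 / 500000 * s ^ 3 * t ^ 2 +
      1288449893 / 80000000 * s ^ 4 * t + 238181433 / 80000000 * s ^ 5 := by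
    positivity
  have e :
      48843 / 20000 * t ^ 5 + 16281 / 1250 * s * t ^ 4 +
      115071489 / 4000000 * s ^ 2 * t ^ 3 + 15651789 / 500000 * s ^ 3 * t ^ 2 +
      1288449893 / 80000000 * s ^ 4 * t + 238181433 / 80000000 * s ^ 5 =
      (1 + 1 / 100 + (1 / 100) ^ 2 / 2) * ((1 + 1 / 40 * u ^ 2) *
      (1 + u + 51 / 100 * u ^ 2)) -
      (1 + u + u ^ 2 / 2 + u ^ 3 / 6 + u ^ 4 / 24 + u ^ 5 / 100) := by
    rw [hs, ht]
    ring
  rw [e] at h
  linarith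

theorem ev_four_e32_g0 (u : ℝ) (h1 : 1 / 3 ≤ u) (h2 : u ≤ 5 / 3) :
    69781 / 50000 * (1 + (u - 1 / 3) / 4) ^ 4 ≤
      (1 + 1 / 100 + (1 / 100) ^ 2 / 2) * ((1 + (1 / 40 * u ^ 2) + (1 / 40 * u ^ 2) ^ 2 / 2 +
      (1 / 40 * u ^ 2) ^ 3 / 6) *
      (1 + u + 51 / 100 * u ^ 2)) := by
  obtain ⟨s, hs⟩ : ∃ s, s = u - (1 / 3) := ⟨_, rfl⟩
  obtain ⟨t, ht⟩ : ∃ t, t = 5 / 3 - u := ⟨_, rfl⟩
  have hs0 : 0 ≤ s := by linarith
  have ht0 : 0 ≤ t := by linarith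
  have h : 0 ≤
      20583420037377 / 16777216000000000 * t ^ 8 +
      656231107271 / 83886080000000 * s * t ^ 7 +
      24765573671743 / 838860800000000 * s ^ 2 * t ^ 6 +
      5967752548293 / 83886080000000 * s ^ 3 * t ^ 5 +
      34724432250659 / 335544320000000 * s ^ 4 * t ^ 4 +
      1479277780421 / 16777216000000 * s ^ 5 * t ^ 3 +
      1415625693279 / 33554432000000 * s ^ 6 * t ^ 2 +
      34563402851 / 3355443200000 * s ^ 7 * t + 27175486913 / 26843545600000 * s ^ 8 := by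
    positivity
  have e :
      20583420037377 / 16777216000000000 * t ^ 8 +
      656231107271 / 83886080000000 * s * t ^ 7 +
      24765573671743 / 838860800000000 * s ^ 2 * t ^ 6 +
      5967752548293 / 83886080000000 * s ^ 3 * t ^ 5 +
      34724432250659 / 335544320000000 * s ^ 4 * t ^ 4 +
      1479277780421 / 16777216000000 * s ^ 5 * t ^ 3 +
      1415625693279 / 33554432000000 * s ^ 6 * t ^ 2 +
      34563402851 / 3355443200000 * s ^ 7 * t + 27175486913 / 26843545600000 * s ^ 8 =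
      (1 + 1 / 100 + (1 / 100) ^ 2 / 2) * ((1 + (1 / 40 * u ^ 2) + (1 / 40 * u ^ 2) ^ 2 / 2 +
      (1 / 40 * u ^ 2) ^ 3 / 6) *
      (1 + u + 51 / 100 * u ^ 2)) -
      (69781 / 50000 * (1 + (u - 1 / 3) / 4) ^ 4) := by
    rw [hs, ht]
    ring
  rw [e] at h
  linarith

theorem ev_four_e32_g1 (u : ℝ) (h1 : 5 / 3 ≤ u) (h2 : u ≤ 3) :
    69781 / 50000 * (1 + (u - 1 / 3) / 4) ^ 4 ≤
      (1 + 1 / 100 + (1 / 100) ^ 2 / 2) * ((1 + (1 / 40 * u ^ 2) + (1 / 40 * u ^ 2) ^ 2 / 2 +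
      (1 / 40 * u ^ 2) ^ 3 / 6) *
      (1 + u + 51 / 100 * u ^ 2)) := by
  obtain ⟨s, hs⟩ : ∃ s, s = u - (5 / 3) := ⟨_, rfl⟩
  obtain ⟨t, ht⟩ : ∃ t, t = 3 - u := ⟨_, rfl⟩
  have hs0 : 0 ≤ s := by linarith
  have ht0 : 0 ≤ t := by linarith
  have h : 0 ≤
      27175486913 / 26843545600000 * t ^ 8 + 791502839 / 134217728000 * s * t ^ 7 +
      381317461959 / 33554432000000 * s ^ 2 * t ^ 6 +
      106983517473 / 16777216000000 * s ^ 3 * t ^ 5 +
      925829087859 / 335544320000000 * s ^ 4 * t ^ 4 +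
      86836799169 / 3355443200000 * s ^ 5 * t ^ 3 +
      41984981963703 / 838860800000000 * s ^ 6 * t ^ 2 +
      15365462915511 / 419430400000000 * s ^ 7 * t +
      161111887022817 / 16777216000000000 * s ^ 8 := by
    positivity
  have e :
      27175486913 / 26843545600000 * t ^ 8 + 791502839 / 134217728000 * s * t ^ 7 +
      381317461959 / 33554432000000 * s ^ 2 * t ^ 6 +
      106983517473 / 16777216000000 * s ^ 3 * t ^ 5 +
      925829087859 / 335544320000000 * s ^ 4 * t ^ 4 +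
      86836799169 / 3355443200000 * s ^ 5 * t ^ 3 +
      41984981963703 / 838860800000000 * s ^ 6 * t ^ 2 +
      15365462915511 / 419430400000000 * s ^ 7 * t +
      161111887022817 / 16777216000000000 * s ^ 8 =
      (1 + 1 / 100 + (1 / 100) ^ 2 / 2) * ((1 + (1 / 40 * u ^ 2) + (1 / 40 * u ^ 2) ^ 2 / 2 +
      (1 / 40 * u ^ 2) ^ 3 / 6) *
      (1 + u + 51 / 100 * u ^ 2)) -
      (69781 / 50000 * (1 + (u - 1 / 3) / 4) ^ 4) := by
    rw [hs, ht]
    ring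
  rw [e] at h
  linarith

theorem ev_four_e32_t (u : ℝ) (h1 : 3 ≤ u) :
    69781 / 50000 * (1 + (u - 1 / 3) / 4) ^ 4 ≤
      (1 + 1 / 100 + (1 / 100) ^ 2 / 2) * ((1 + (1 / 40 * u ^ 2) + (1 / 40 * u ^ 2) ^ 2 / 2 +
      (1 / 40 * u ^ 2) ^ 3 / 6) *
      (1 + u + 51 / 100 * u ^ 2)) := by
  obtain ⟨s, hs⟩ : ∃ s, s = u - (3) := ⟨_, rfl⟩
  have hs0 : 0 ≤ s := by linarith
  have h : 0 ≤
      1989035642257 / 20736000000000 + 520275138551 / 1728000000000 * s +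
      67419165353 / 192000000000 * s ^ 2 + 34688014277 / 192000000000 * s ^ 3 +
      1143181299 / 25600000000 * s ^ 4 + 370304531 / 64000000000 * s ^ 5 +
      106923893 / 192000000000 * s ^ 6 + 6686531 / 192000000000 * s ^ 7 +
      343417 / 256000000000 * s ^ 8 := by
    positivity
  have e :
      1989035642257 / 20736000000000 + 520275138551 / 1728000000000 * s +
      67419165353 / 192000000000 * s ^ 2 + 34688014277 / 192000000000 * s ^ 3 +
      1143181299 / 25600000000 * s ^ 4 + 370304531 / 64000000000 * s ^ 5 +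
      106923893 / 192000000000 * s ^ 6 + 6686531 / 192000000000 * s ^ 7 +
      343417 / 256000000000 * s ^ 8 =
      (1 + 1 / 100 + (1 / 100) ^ 2 / 2) * ((1 + (1 / 40 * u ^ 2) + (1 / 40 * u ^ 2) ^ 2 / 2 +
      (1 / 40 * u ^ 2) ^ 3 / 6) *
      (1 + u + 51 / 100 * u ^ 2)) -
      (69781 / 50000 * (1 + (u - 1 / 3) / 4) ^ 4) := by
    rw [hs]
    ring
  rw [e] at h
  linarith

/-- `K = 4`: `(c, μ, P, δ) = (51 / 100, 1 / 40, 1 / 3, 1 / 100)` -/
theorem expFd_four_e32 : ExpFd 4 (51 / 100) (1 / 40) (1 / 3) (1 / 100) := by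
  have hde : (1 + 1 / 100 + (1 / 100) ^ 2 / 2) ≤ Real.exp (1 / 100) :=
    Real.quadratic_le_exp_of_nonneg (by norm_num)
  have hq : ∀ u : ℝ, 0 ≤ 1 + u + 51 / 100 * u ^ 2 := fun u => by
    nlinarith [sq_nonneg (u + 2), sq_nonneg u]
  have hR : ∀ (u x y : ℝ), x ≤ y →
      y ≤ (1 + 1 / 100 + (1 / 100) ^ 2 / 2) * (1 + u + 51 / 100 * u ^ 2) →
      x ≤ Real.exp (1 / 100) * (1 + u + 51 / 100 * u ^ 2) := fun u x y h1 h2 =>
    (h1.trans h2).trans (mul_le_mul_of_nonneg_right hde (hq u))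
  refine ExpFd.of (by norm_num) (by norm_num) (by norm_num) (by norm_num) (by norm_num) ?_ ?_ ?_
  · intro u h1
    rcases le_total u (-3) with h3 | h3
    · exact hR u _ _ (ev_exp_n3 h3) (ev_four_e32_d u h3)
    rcases le_total u (-2) with h4 | h4
    · refine hR u _ _ (ev_exp_n2 h4) ?_
      exact ev_four_e32_c0 u (by linarith) (by linarith)
    rcases le_total u (-1) with h5 | h5
    · refine hR u _ _ (ev_exp_n1 h5) ?_
      exact ev_four_e32_b0 u (by linarith) (by linarith)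
    refine hR u _ _ (ev_exp_n0 h1) ?_
    exact ev_four_e32_a0 u (by linarith) (by linarith)
  · intro u h1 h2
    have h5 := mul_le_mul_of_nonneg_right (Real.add_one_le_exp (1 / 40 * u ^ 2)) (hq u)
    rw [add_comm (1 / 40 * u ^ 2) 1] at h5
    have h6 : 0 ≤ Real.exp (1 / 40 * u ^ 2) * (1 + u + 51 / 100 * u ^ 2) :=
      mul_nonneg (Real.exp_nonneg _) (hq u)
    rw [Real.exp_add, mul_assoc]
    refine ((ev_exp_p h1 (by linarith)).trans ?_).trans
      ((mul_le_mul_of_nonneg_left h5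
        (by norm_num : (0 : ℝ) ≤ (1 + 1 / 100 + (1 / 100) ^ 2 / 2))).trans
        (mul_le_mul_of_nonneg_right hde h6))
    exact ev_four_e32_e0 u (by linarith) (by linarith)
  · intro u h1
    have h4 : 0 ≤ (1 + (u - 1 / 3) / 4) ^ 4 := by
      have : 0 ≤ (u - 1 / 3) / 4 := div_nonneg (by linarith) (by norm_num)
      positivity
    have hE : Real.exp (1 / 3) ≤ 69781 / 50000 := ev_up_1_3
    have hx : 0 ≤ 1 / 40 * u ^ 2 := by positivity
    have h5 := mul_le_mul_of_nonneg_right (taylor3_le_expE _ hx) (hq u)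
    have h6 : 0 ≤ Real.exp (1 / 40 * u ^ 2) * (1 + u + 51 / 100 * u ^ 2) :=
      mul_nonneg (Real.exp_nonneg _) (hq u)
    rw [Real.exp_add, mul_assoc]
    push_cast
    refine ((mul_le_mul_of_nonneg_right hE h4).trans ?_).trans
      ((mul_le_mul_of_nonneg_left h5
        (by norm_num : (0 : ℝ) ≤ (1 + 1 / 100 + (1 / 100) ^ 2 / 2))).trans
        (mul_le_mul_of_nonneg_right hde h6))
    rcases le_total u (5 / 3) with hh | hh
    · exact ev_four_e32_g0 u (by linarith) (by linarith)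
    rcases le_total u (3) with hh | hh
    · exact ev_four_e32_g1 u (by linarith) (by linarith)
    exact ev_four_e32_t u (by linarith)

theorem ev_four_e33_a0 (u : ℝ) (h1 : -1 ≤ u) (h2 : u ≤ 0) :
    1 + u + u ^ 2 / 2 + u ^ 3 / 6 + u ^ 4 / 24 ≤
      (1 + 1 / 50 + (1 / 50) ^ 2 / 2) * (1 + u + 473 / 1000 * u ^ 2) := by
  obtain ⟨s, hs⟩ : ∃ s, s = u - (-1) := ⟨_, rfl⟩
  obtain ⟨t, ht⟩ : ∃ t, t = 0 - u := ⟨_, rfl⟩
  have hs0 : 0 ≤ s := by linarith
  have ht0 : 0 ≤ t := by linarith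
  have h : 0 ≤
      537773 / 5000000 * t ^ 4 + 1139819 / 7500000 * s * t ^ 3 +
      215773 / 5000000 * s ^ 2 * t ^ 2 + 303 / 5000 * s ^ 3 * t + 101 / 5000 * s ^ 4 := by
    positivity
  have e :
      537773 / 5000000 * t ^ 4 + 1139819 / 7500000 * s * t ^ 3 +
      215773 / 5000000 * s ^ 2 * t ^ 2 + 303 / 5000 * s ^ 3 * t + 101 / 5000 * s ^ 4 =
      (1 + 1 / 50 + (1 / 50) ^ 2 / 2) * (1 + u + 473 / 1000 * u ^ 2) -
      (1 + u + u ^ 2 / 2 + u ^ 3 / 6 + u ^ 4 / 24) := by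
    rw [hs, ht]
    ring
  rw [e] at h
  linarith

theorem ev_four_e33_b0 (u : ℝ) (h1 : -2 ≤ u) (h2 : u ≤ -1) :
    36788 / 100000 *
      (1 + (u + 1) + (u + 1) ^ 2 / 2 + (u + 1) ^ 3 / 6 + (u + 1) ^ 4 / 24) ≤
      (1 + 1 / 50 + (1 / 50) ^ 2 / 2) * (1 + u + 473 / 1000 * u ^ 2) := by
  obtain ⟨s, hs⟩ : ∃ s, s = u - (-2) := ⟨_, rfl⟩
  obtain ⟨t, ht⟩ : ∃ t, t = -1 - u := ⟨_, rfl⟩
  have hs0 : 0 ≤ s := by linarith
  have ht0 : 0 ≤ t := by linarith
  have h : 0 ≤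
      3860317 / 5000000 * t ^ 4 + 1927133 / 937500 * s * t ^ 3 +
      9625149 / 5000000 * s ^ 2 * t ^ 2 + 1928719 / 2500000 * s ^ 3 * t +
      573373 / 5000000 * s ^ 4 := by
    positivity
  have e :
      3860317 / 5000000 * t ^ 4 + 1927133 / 937500 * s * t ^ 3 +
      9625149 / 5000000 * s ^ 2 * t ^ 2 + 1928719 / 2500000 * s ^ 3 * t +
      573373 / 5000000 * s ^ 4 =
      (1 + 1 / 50 + (1 / 50) ^ 2 / 2) * (1 + u + 473 / 1000 * u ^ 2) -
      (36788 / 100000 *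
      (1 + (u + 1) + (u + 1) ^ 2 / 2 + (u + 1) ^ 3 / 6 + (u + 1) ^ 4 / 24)) := by
    rw [hs, ht]
    ring
  rw [e] at h
  linarith

theorem ev_four_e33_c0 (u : ℝ) (h1 : -3 ≤ u) (h2 : u ≤ -2) :
    13534 / 100000 *
      (1 + (u + 2) + (u + 2) ^ 2 / 2 + (u + 2) ^ 3 / 6 + (u + 2) ^ 4 / 24) ≤
      (1 + 1 / 50 + (1 / 50) ^ 2 / 2) * (1 + u + 473 / 1000 * u ^ 2) := by
  obtain ⟨s, hs⟩ : ∃ s, s = u - (-3) := ⟨_, rfl⟩
  obtain ⟨t, ht⟩ : ∃ t, t = -2 - u := ⟨_, rfl⟩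
  have hs0 : 0 ≤ s := by linarith
  have ht0 : 0 ≤ t := by linarith
  have h : 0 ≤
      22518389 / 10000000 * t ^ 4 + 664417 / 93750 * s * t ^ 3 +
      40995151 / 5000000 * s ^ 2 * t ^ 2 + 518009 / 125000 * s ^ 3 * t +
      242087 / 312500 * s ^ 4 := by
    positivity
  have e :
      22518389 / 10000000 * t ^ 4 + 664417 / 93750 * s * t ^ 3 +
      40995151 / 5000000 * s ^ 2 * t ^ 2 + 518009 / 125000 * s ^ 3 * t +
      242087 / 312500 * s ^ 4 =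
      (1 + 1 / 50 + (1 / 50) ^ 2 / 2) * (1 + u + 473 / 1000 * u ^ 2) -
      (13534 / 100000 *
      (1 + (u + 2) + (u + 2) ^ 2 / 2 + (u + 2) ^ 3 / 6 + (u + 2) ^ 4 / 24)) := by
    rw [hs, ht]
    ring
  rw [e] at h
  linarith

theorem ev_four_e33_d (u : ℝ) (h2 : u ≤ -3) :
    4979 / 100000 ≤
      (1 + 1 / 50 + (1 / 50) ^ 2 / 2) * (1 + u + 473 / 1000 * u ^ 2) := by
  obtain ⟨s, hs⟩ : ∃ s, s = -3 - u := ⟨_, rfl⟩
  have hs0 : 0 ≤ s := by linarith
  have h : 0 ≤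
      11264007 / 5000000 + 4687819 / 2500000 * s + 2412773 / 5000000 * s ^ 2 := by
    positivity
  have e :
      11264007 / 5000000 + 4687819 / 2500000 * s + 2412773 / 5000000 * s ^ 2 =
      (1 + 1 / 50 + (1 / 50) ^ 2 / 2) * (1 + u + 473 / 1000 * u ^ 2) -
      (4979 / 100000) := by
    rw [hs]
    ring
  rw [e] at h
  linarith

theorem ev_four_e33_e0 (u : ℝ) (h1 : 0 ≤ u) (h2 : u ≤ 1 / 3) :
    1 + u + u ^ 2 / 2 + u ^ 3 / 6 + u ^ 4 / 24 + u ^ 5 / 100 ≤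
      (1 + 1 / 50 + (1 / 50) ^ 2 / 2) * ((1 + 3 / 100 * u ^ 2) *
      (1 + u + 473 / 1000 * u ^ 2)) := by
  obtain ⟨s, hs⟩ : ∃ s, s = u - (0) := ⟨_, rfl⟩
  obtain ⟨t, ht⟩ : ∃ t, t = 1 / 3 - u := ⟨_, rfl⟩
  have hs0 : 0 ≤ s := by linarith
  have ht0 : 0 ≤ t := by linarith
  have h : 0 ≤
      24543 / 5000 * t ^ 5 + 16362 / 625 * s * t ^ 4 + 279930681 / 5000000 * s ^ 2 * t ^ 3 +
      293723313 / 5000000 * s ^ 3 * t ^ 2 + 14811573257 / 500000000 * s ^ 4 * t +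
      2792010057 / 500000000 * s ^ 5 := by
    positivity
  have e :
      24543 / 5000 * t ^ 5 + 16362 / 625 * s * t ^ 4 + 279930681 / 5000000 * s ^ 2 * t ^ 3 +
      293723313 / 5000000 * s ^ 3 * t ^ 2 + 14811573257 / 500000000 * s ^ 4 * t +
      2792010057 / 500000000 * s ^ 5 =
      (1 + 1 / 50 + (1 / 50) ^ 2 / 2) * ((1 + 3 / 100 * u ^ 2) *
      (1 + u + 473 / 1000 * u ^ 2)) -
      (1 + u + u ^ 2 / 2 + u ^ 3 / 6 + u ^ 4 / 24 + u ^ 5 / 100) := by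
    rw [hs, ht]
    ring
  rw [e] at h
  linarith

theorem ev_four_e33_g0 (u : ℝ) (h1 : 1 / 3 ≤ u) (h2 : u ≤ 7 / 6) :
    69781 / 50000 * (1 + (u - 1 / 3) / 4) ^ 4 ≤
      (1 + 1 / 50 + (1 / 50) ^ 2 / 2) * ((1 + (3 / 100 * u ^ 2) + (3 / 100 * u ^ 2) ^ 2 / 2 +
      (3 / 100 * u ^ 2) ^ 3 / 6) *
      (1 + u + 473 / 1000 * u ^ 2)) := by
  obtain ⟨s, hs⟩ : ∃ s, s = u - (1 / 3) := ⟨_, rfl⟩
  obtain ⟨t, ht⟩ : ∃ t, t = 7 / 6 - u := ⟨_, rfl⟩
  have hs0 : 0 ≤ s := by linarith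
  have ht0 : 0 ≤ t := by linarith
  have h : 0 ≤
      1508023164064257 / 15258789062500000 * t ^ 8 +
      2730856513055049 / 3814697265625000 * s * t ^ 7 +
      17816268042122013 / 7629394531250000 * s ^ 2 * t ^ 6 +
      33742293169692591 / 7629394531250000 * s ^ 3 * t ^ 5 +
      16005882814671753 / 3051757812500000 * s ^ 4 * t ^ 4 +
      240304397612730543 / 61035156250000000 * s ^ 5 * t ^ 3 +
      55164380889831147 / 30517578125000000 * s ^ 6 * t ^ 2 +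
      28105667284729419 / 61035156250000000 * s ^ 7 * t +
      194149883848341357 / 3906250000000000000 * s ^ 8 := by
    positivity
  have e :
      1508023164064257 / 15258789062500000 * t ^ 8 +
      2730856513055049 / 3814697265625000 * s * t ^ 7 +
      17816268042122013 / 7629394531250000 * s ^ 2 * t ^ 6 +
      33742293169692591 / 7629394531250000 * s ^ 3 * t ^ 5 +
      16005882814671753 / 3051757812500000 * s ^ 4 * t ^ 4 +
      240304397612730543 / 61035156250000000 * s ^ 5 * t ^ 3 +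
      55164380889831147 / 30517578125000000 * s ^ 6 * t ^ 2 +
      28105667284729419 / 61035156250000000 * s ^ 7 * t +
      194149883848341357 / 3906250000000000000 * s ^ 8 =
      (1 + 1 / 50 + (1 / 50) ^ 2 / 2) * ((1 + (3 / 100 * u ^ 2) + (3 / 100 * u ^ 2) ^ 2 / 2 +
      (3 / 100 * u ^ 2) ^ 3 / 6) *
      (1 + u + 473 / 1000 * u ^ 2)) -
      (69781 / 50000 * (1 + (u - 1 / 3) / 4) ^ 4) := by
    rw [hs, ht]
    ring
  rw [e] at h
  linarith

theorem ev_four_e33_g1 (u : ℝ) (h1 : 7 / 6 ≤ u) (h2 : u ≤ 2) :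
    69781 / 50000 * (1 + (u - 1 / 3) / 4) ^ 4 ≤
      (1 + 1 / 50 + (1 / 50) ^ 2 / 2) * ((1 + (3 / 100 * u ^ 2) + (3 / 100 * u ^ 2) ^ 2 / 2 +
      (3 / 100 * u ^ 2) ^ 3 / 6) *
      (1 + u + 473 / 1000 * u ^ 2)) := by
  obtain ⟨s, hs⟩ : ∃ s, s = u - (7 / 6) := ⟨_, rfl⟩
  obtain ⟨t, ht⟩ : ∃ t, t = 2 - u := ⟨_, rfl⟩
  have hs0 : 0 ≤ s := by linarith
  have ht0 : 0 ≤ t := by linarith
  have h : 0 ≤
      194149883848341357 / 3906250000000000000 * t ^ 8 +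
      81727214709423681 / 244140625000000000 * s * t ^ 7 +
      226446866112191211 / 244140625000000000 * s ^ 2 * t ^ 6 +
      10226734845541911 / 7629394531250000 * s ^ 3 * t ^ 5 +
      25934205827041479 / 24414062500000000 * s ^ 4 * t ^ 4 +
      7112988382942107 / 15258789062500000 * s ^ 5 * t ^ 3 +
      2365793437517181 / 15258789062500000 * s ^ 6 * t ^ 2 +
      297586308115989 / 3814697265625000 * s ^ 7 * t +
      189394082505531 / 7629394531250000 * s ^ 8 := by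
    positivity
  have e :
      194149883848341357 / 3906250000000000000 * t ^ 8 +
      81727214709423681 / 244140625000000000 * s * t ^ 7 +
      226446866112191211 / 244140625000000000 * s ^ 2 * t ^ 6 +
      10226734845541911 / 7629394531250000 * s ^ 3 * t ^ 5 +
      25934205827041479 / 24414062500000000 * s ^ 4 * t ^ 4 +
      7112988382942107 / 15258789062500000 * s ^ 5 * t ^ 3 +
      2365793437517181 / 15258789062500000 * s ^ 6 * t ^ 2 +
      297586308115989 / 3814697265625000 * s ^ 7 * t +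
      189394082505531 / 7629394531250000 * s ^ 8 =
      (1 + 1 / 50 + (1 / 50) ^ 2 / 2) * ((1 + (3 / 100 * u ^ 2) + (3 / 100 * u ^ 2) ^ 2 / 2 +
      (3 / 100 * u ^ 2) ^ 3 / 6) *
      (1 + u + 473 / 1000 * u ^ 2)) -
      (69781 / 50000 * (1 + (u - 1 / 3) / 4) ^ 4) := by
    rw [hs, ht]
    ring
  rw [e] at h
  linarith

theorem ev_four_e33_t (u : ℝ) (h1 : 2 ≤ u) :
    69781 / 50000 * (1 + (u - 1 / 3) / 4) ^ 4 ≤
      (1 + 1 / 50 + (1 / 50) ^ 2 / 2) * ((1 + (3 / 100 * u ^ 2) + (3 / 100 * u ^ 2) ^ 2 / 2 +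
      (3 / 100 * u ^ 2) ^ 3 / 6) *
      (1 + u + 473 / 1000 * u ^ 2)) := by
  obtain ⟨s, hs⟩ : ∃ s, s = u - (2) := ⟨_, rfl⟩
  have hs0 : 0 ≤ s := by linarith
  have h : 0 ≤
      2338198549451 / 405000000000000 + 1135777831867 / 33750000000000 * s +
      763694721083 / 7500000000000 * s ^ 2 + 325596009979 / 3750000000000 * s ^ 3 +
      31096942759 / 1000000000000 * s ^ 4 + 2799025821 / 625000000000 * s ^ 5 +
      1323051471 / 2500000000000 * s ^ 6 + 49168539 / 1250000000000 * s ^ 7 +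
      21714957 / 10000000000000 * s ^ 8 := by
    positivity
  have e :
      2338198549451 / 405000000000000 + 1135777831867 / 33750000000000 * s +
      763694721083 / 7500000000000 * s ^ 2 + 325596009979 / 3750000000000 * s ^ 3 +
      31096942759 / 1000000000000 * s ^ 4 + 2799025821 / 625000000000 * s ^ 5 +
      1323051471 / 2500000000000 * s ^ 6 + 49168539 / 1250000000000 * s ^ 7 +
      21714957 / 10000000000000 * s ^ 8 =
      (1 + 1 / 50 + (1 / 50) ^ 2 / 2) * ((1 + (3 / 100 * u ^ 2) + (3 / 100 * u ^ 2) ^ 2 / 2 +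
      (3 / 100 * u ^ 2) ^ 3 / 6) *
      (1 + u + 473 / 1000 * u ^ 2)) -
      (69781 / 50000 * (1 + (u - 1 / 3) / 4) ^ 4) := by
    rw [hs]
    ring
  rw [e] at h
  linarith

/-- `K = 4`: `(c, μ, P, δ) = (473 / 1000, 3 / 100, 1 / 3, 1 / 50)` -/
theorem expFd_four_e33 : ExpFd 4 (473 / 1000) (3 / 100) (1 / 3) (1 / 50) := by
  have hde : (1 + 1 / 50 + (1 / 50) ^ 2 / 2) ≤ Real.exp (1 / 50) :=
    Real.quadratic_le_exp_of_nonneg (by norm_num)
  have hq : ∀ u : ℝ, 0 ≤ 1 + u + 473 / 1000 * u ^ 2 := fun u => by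
    nlinarith [sq_nonneg (u + 2), sq_nonneg u]
  have hR : ∀ (u x y : ℝ), x ≤ y →
      y ≤ (1 + 1 / 50 + (1 / 50) ^ 2 / 2) * (1 + u + 473 / 1000 * u ^ 2) →
      x ≤ Real.exp (1 / 50) * (1 + u + 473 / 1000 * u ^ 2) := fun u x y h1 h2 =>
    (h1.trans h2).trans (mul_le_mul_of_nonneg_right hde (hq u))
  refine ExpFd.of (by norm_num) (by norm_num) (by norm_num) (by norm_num) (by norm_num) ?_ ?_ ?_
  · intro u h1
    rcases le_total u (-3) with h3 | h3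
    · exact hR u _ _ (ev_exp_n3 h3) (ev_four_e33_d u h3)
    rcases le_total u (-2) with h4 | h4
    · refine hR u _ _ (ev_exp_n2 h4) ?_
      exact ev_four_e33_c0 u (by linarith) (by linarith)
    rcases le_total u (-1) with h5 | h5
    · refine hR u _ _ (ev_exp_n1 h5) ?_
      exact ev_four_e33_b0 u (by linarith) (by linarith)
    refine hR u _ _ (ev_exp_n0 h1) ?_
    exact ev_four_e33_a0 u (by linarith) (by linarith)
  · intro u h1 h2
    have h5 := mul_le_mul_of_nonneg_right (Real.add_one_le_exp (3 / 100 * u ^ 2)) (hq u)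
    rw [add_comm (3 / 100 * u ^ 2) 1] at h5
    have h6 : 0 ≤ Real.exp (3 / 100 * u ^ 2) * (1 + u + 473 / 1000 * u ^ 2) :=
      mul_nonneg (Real.exp_nonneg _) (hq u)
    rw [Real.exp_add, mul_assoc]
    refine ((ev_exp_p h1 (by linarith)).trans ?_).trans
      ((mul_le_mul_of_nonneg_left h5
        (by norm_num : (0 : ℝ) ≤ (1 + 1 / 50 + (1 / 50) ^ 2 / 2))).trans
        (mul_le_mul_of_nonneg_right hde h6))
    exact ev_four_e33_e0 u (by linarith) (by linarith)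
  · intro u h1
    have h4 : 0 ≤ (1 + (u - 1 / 3) / 4) ^ 4 := by
      have : 0 ≤ (u - 1 / 3) / 4 := div_nonneg (by linarith) (by norm_num)
      positivity
    have hE : Real.exp (1 / 3) ≤ 69781 / 50000 := ev_up_1_3
    have hx : 0 ≤ 3 / 100 * u ^ 2 := by positivity
    have h5 := mul_le_mul_of_nonneg_right (taylor3_le_expE _ hx) (hq u)
    have h6 : 0 ≤ Real.exp (3 / 100 * u ^ 2) * (1 + u + 473 / 1000 * u ^ 2) :=
      mul_nonneg (Real.exp_nonneg _) (hq u)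
    rw [Real.exp_add, mul_assoc]
    push_cast
    refine ((mul_le_mul_of_nonneg_right hE h4).trans ?_).trans
      ((mul_le_mul_of_nonneg_left h5
        (by norm_num : (0 : ℝ) ≤ (1 + 1 / 50 + (1 / 50) ^ 2 / 2))).trans
        (mul_le_mul_of_nonneg_right hde h6))
    rcases le_total u (7 / 6) with hh | hh
    · exact ev_four_e33_g0 u (by linarith) (by linarith)
    rcases le_total u (2) with hh | hh
    · exact ev_four_e33_g1 u (by linarith) (by linarith)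
    exact ev_four_e33_t u (by linarith)

theorem ev_four_e34_a0 (u : ℝ) (h1 : -1 ≤ u) (h2 : u ≤ 0) :
    1 + u + u ^ 2 / 2 + u ^ 3 / 6 + u ^ 4 / 24 ≤
      (1 + 1 / 20 + (1 / 20) ^ 2 / 2) * (1 + u + 437 / 1000 * u ^ 2) := by
  obtain ⟨s, hs⟩ : ∃ s, s = u - (-1) := ⟨_, rfl⟩
  obtain ⟨t, ht⟩ : ∃ t, t = 0 - u := ⟨_, rfl⟩
  have hs0 : 0 ≤ s := by linarith
  have ht0 : 0 ≤ t := by linarith
  have h : 0 ≤
      67517 / 800000 * t ^ 4 + 164051 / 1200000 * s * t ^ 3 +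
      90517 / 800000 * s ^ 2 * t ^ 2 + 123 / 800 * s ^ 3 * t + 41 / 800 * s ^ 4 := by
    positivity
  have e :
      67517 / 800000 * t ^ 4 + 164051 / 1200000 * s * t ^ 3 +
      90517 / 800000 * s ^ 2 * t ^ 2 + 123 / 800 * s ^ 3 * t + 41 / 800 * s ^ 4 =
      (1 + 1 / 20 + (1 / 20) ^ 2 / 2) * (1 + u + 437 / 1000 * u ^ 2) -
      (1 + u + u ^ 2 / 2 + u ^ 3 / 6 + u ^ 4 / 24) := by
    rw [hs, ht]
    ring
  rw [e] at h
  linarith

theorem ev_four_e34_b0 (u : ℝ) (h1 : -2 ≤ u) (h2 : u ≤ -1) :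
    36788 / 100000 *
      (1 + (u + 1) + (u + 1) ^ 2 / 2 + (u + 1) ^ 3 / 6 + (u + 1) ^ 4 / 24) ≤
      (1 + 1 / 20 + (1 / 20) ^ 2 / 2) * (1 + u + 437 / 1000 * u ^ 2) := by
  obtain ⟨s, hs⟩ : ∃ s, s = u - (-2) := ⟨_, rfl⟩
  obtain ⟨t, ht⟩ : ∃ t, t = -1 - u := ⟨_, rfl⟩
  have hs0 : 0 ≤ s := by linarith
  have ht0 : 0 ≤ t := by linarith
  have h : 0 ≤
      32419 / 50000 * t ^ 4 + 202147 / 120000 * s * t ^ 3 +
      1224657 / 800000 * s ^ 2 * t ^ 2 + 48119 / 80000 * s ^ 3 * t + 73213 / 800000 * s ^ 4 := by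
    positivity
  have e :
      32419 / 50000 * t ^ 4 + 202147 / 120000 * s * t ^ 3 +
      1224657 / 800000 * s ^ 2 * t ^ 2 + 48119 / 80000 * s ^ 3 * t + 73213 / 800000 * s ^ 4 =
      (1 + 1 / 20 + (1 / 20) ^ 2 / 2) * (1 + u + 437 / 1000 * u ^ 2) -
      (36788 / 100000 *
      (1 + (u + 1) + (u + 1) ^ 2 / 2 + (u + 1) ^ 3 / 6 + (u + 1) ^ 4 / 24)) := by
    rw [hs, ht]
    ring
  rw [e] at h
  linarith

theorem ev_four_e34_c0 (u : ℝ) (h1 : -3 ≤ u) (h2 : u ≤ -2) :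
    13534 / 100000 *
      (1 + (u + 2) + (u + 2) ^ 2 / 2 + (u + 2) ^ 3 / 6 + (u + 2) ^ 4 / 24) ≤
      (1 + 1 / 20 + (1 / 20) ^ 2 / 2) * (1 + u + 437 / 1000 * u ^ 2) := by
  obtain ⟨s, hs⟩ : ∃ s, s = u - (-3) := ⟨_, rfl⟩
  obtain ⟨t, ht⟩ : ∃ t, t = -2 - u := ⟨_, rfl⟩
  have hs0 : 0 ≤ s := by linarith
  have ht0 : 0 ≤ t := by linarith
  have h : 0 ≤
      1585051 / 800000 * t ^ 4 + 7410017 / 1200000 * s * t ^ 3 +
      5650177 / 800000 * s ^ 2 * t ^ 2 + 705131 / 200000 * s ^ 3 * t + 130199 / 200000 * s ^ 4 := by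
    positivity
  have e :
      1585051 / 800000 * t ^ 4 + 7410017 / 1200000 * s * t ^ 3 +
      5650177 / 800000 * s ^ 2 * t ^ 2 + 705131 / 200000 * s ^ 3 * t + 130199 / 200000 * s ^ 4 =
      (1 + 1 / 20 + (1 / 20) ^ 2 / 2) * (1 + u + 437 / 1000 * u ^ 2) -
      (13534 / 100000 *
      (1 + (u + 2) + (u + 2) ^ 2 / 2 + (u + 2) ^ 3 / 6 + (u + 2) ^ 4 / 24)) := by
    rw [hs, ht]
    ring
  rw [e] at h
  linarith

theorem ev_four_e34_d (u : ℝ) (h2 : u ≤ -3) :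
    4979 / 100000 ≤
      (1 + 1 / 20 + (1 / 20) ^ 2 / 2) * (1 + u + 437 / 1000 * u ^ 2) := by
  obtain ⟨s, hs⟩ : ∃ s, s = -3 - u := ⟨_, rfl⟩
  have hs0 : 0 ≤ s := by linarith
  have h : 0 ≤
      1585821 / 800000 + 682051 / 400000 * s + 367517 / 800000 * s ^ 2 := by
    positivity
  have e :
      1585821 / 800000 + 682051 / 400000 * s + 367517 / 800000 * s ^ 2 =
      (1 + 1 / 20 + (1 / 20) ^ 2 / 2) * (1 + u + 437 / 1000 * u ^ 2) -
      (4979 / 100000) := by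
    rw [hs]
    ring
  rw [e] at h
  linarith

theorem ev_four_e34_e0 (u : ℝ) (h1 : 0 ≤ u) (h2 : u ≤ 1 / 3) :
    1 + u + u ^ 2 / 2 + u ^ 3 / 6 + u ^ 4 / 24 + u ^ 5 / 100 ≤
      (1 + 1 / 20 + (1 / 20) ^ 2 / 2) * ((1 + 3 / 100 * u ^ 2) *
      (1 + u + 437 / 1000 * u ^ 2)) := by
  obtain ⟨s, hs⟩ : ∃ s, s = u - (0) := ⟨_, rfl⟩
  obtain ⟨t, ht⟩ : ∃ t, t = 1 / 3 - u := ⟨_, rfl⟩
  have hs0 : 0 ≤ s := by linarith
  have ht0 : 0 ≤ t := by linarith
  have h : 0 ≤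
      9963 / 800 * t ^ 5 + 3321 / 50 * s * t ^ 4 + 112718169 / 800000 * s ^ 2 * t ^ 3 +
      117995577 / 800000 * s ^ 3 * t ^ 2 + 6049872353 / 80000000 * s ^ 4 * t +
      1204031553 / 80000000 * s ^ 5 := by
    positivity
  have e :
      9963 / 800 * t ^ 5 + 3321 / 50 * s * t ^ 4 + 112718169 / 800000 * s ^ 2 * t ^ 3 +
      117995577 / 800000 * s ^ 3 * t ^ 2 + 6049872353 / 80000000 * s ^ 4 * t +
      1204031553 / 80000000 * s ^ 5 =
      (1 + 1 / 20 + (1 / 20) ^ 2 / 2) * ((1 + 3 / 100 * u ^ 2) *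
      (1 + u + 437 / 1000 * u ^ 2)) -
      (1 + u + u ^ 2 / 2 + u ^ 3 / 6 + u ^ 4 / 24 + u ^ 5 / 100) := by
    rw [hs, ht]
    ring
  rw [e] at h
  linarith

theorem ev_four_e34_g0 (u : ℝ) (h1 : 1 / 3 ≤ u) (h2 : u ≤ 5 / 3) :
    69781 / 50000 * (1 + (u - 1 / 3) / 4) ^ 4 ≤
      (1 + 1 / 20 + (1 / 20) ^ 2 / 2) * ((1 + (3 / 100 * u ^ 2) + (3 / 100 * u ^ 2) ^ 2 / 2 +
      (3 / 100 * u ^ 2) ^ 3 / 6) *
      (1 + u + 437 / 1000 * u ^ 2)) := by
  obtain ⟨s, hs⟩ : ∃ s, s = u - (1 / 3) := ⟨_, rfl⟩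
  obtain ⟨t, ht⟩ : ∃ t, t = 5 / 3 - u := ⟨_, rfl⟩
  have hs0 : 0 ≤ s := by linarith
  have ht0 : 0 ≤ t := by linarith
  have h : 0 ≤
      650233342843353 / 104857600000000000 * t ^ 8 +
      128499317672913 / 2621440000000000 * s * t ^ 7 +
      179380999041903 / 1048576000000000 * s ^ 2 * t ^ 6 +
      35206510065687 / 104857600000000 * s ^ 3 * t ^ 5 +
      33339159368811 / 83886080000000 * s ^ 4 * t ^ 4 +
      1197881199927 / 4194304000000 * s ^ 5 * t ^ 3 +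
      200598285231 / 1677721600000 * s ^ 6 * t ^ 2 + 21987239733 / 838860800000 * s ^ 7 * t +
      15517390257 / 6710886400000 * s ^ 8 := by
    positivity
  have e :
      650233342843353 / 104857600000000000 * t ^ 8 +
      128499317672913 / 2621440000000000 * s * t ^ 7 +
      179380999041903 / 1048576000000000 * s ^ 2 * t ^ 6 +
      35206510065687 / 104857600000000 * s ^ 3 * t ^ 5 +
      33339159368811 / 83886080000000 * s ^ 4 * t ^ 4 +
      1197881199927 / 4194304000000 * s ^ 5 * t ^ 3 +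
      200598285231 / 1677721600000 * s ^ 6 * t ^ 2 + 21987239733 / 838860800000 * s ^ 7 * t +
      15517390257 / 6710886400000 * s ^ 8 =
      (1 + 1 / 20 + (1 / 20) ^ 2 / 2) * ((1 + (3 / 100 * u ^ 2) + (3 / 100 * u ^ 2) ^ 2 / 2 +
      (3 / 100 * u ^ 2) ^ 3 / 6) *
      (1 + u + 437 / 1000 * u ^ 2)) -
      (69781 / 50000 * (1 + (u - 1 / 3) / 4) ^ 4) := by
    rw [hs, ht]
    ring
  rw [e] at h
  linarith

theorem ev_four_e34_g1 (u : ℝ) (h1 : 5 / 3 ≤ u) (h2 : u ≤ 7 / 3) :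
    69781 / 50000 * (1 + (u - 1 / 3) / 4) ^ 4 ≤
      (1 + 1 / 20 + (1 / 20) ^ 2 / 2) * ((1 + (3 / 100 * u ^ 2) + (3 / 100 * u ^ 2) ^ 2 / 2 +
      (3 / 100 * u ^ 2) ^ 3 / 6) *
      (1 + u + 437 / 1000 * u ^ 2)) := by
  obtain ⟨s, hs⟩ : ∃ s, s = u - (5 / 3) := ⟨_, rfl⟩
  obtain ⟨t, ht⟩ : ∃ t, t = 7 / 3 - u := ⟨_, rfl⟩
  have hs0 : 0 ≤ s := by linarith
  have ht0 : 0 ≤ t := by linarith
  have h : 0 ≤
      15517390257 / 26214400000 * t ^ 8 + 12282465519 / 3276800000 * s * t ^ 7 +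
      63682450659 / 6553600000 * s ^ 2 * t ^ 6 + 214379235081 / 16384000000 * s ^ 3 * t ^ 5 +
      3125881524771 / 327680000000 * s ^ 4 * t ^ 4 +
      1484291568429 / 409600000000 * s ^ 5 * t ^ 3 +
      3542822239707 / 4096000000000 * s ^ 6 * t ^ 2 +
      4028706829719 / 10240000000000 * s ^ 7 * t + 55983236389353 / 409600000000000 * s ^ 8 := by
    positivity
  have e :
      15517390257 / 26214400000 * t ^ 8 + 12282465519 / 3276800000 * s * t ^ 7 +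
      63682450659 / 6553600000 * s ^ 2 * t ^ 6 + 214379235081 / 16384000000 * s ^ 3 * t ^ 5 +
      3125881524771 / 327680000000 * s ^ 4 * t ^ 4 +
      1484291568429 / 409600000000 * s ^ 5 * t ^ 3 +
      3542822239707 / 4096000000000 * s ^ 6 * t ^ 2 +
      4028706829719 / 10240000000000 * s ^ 7 * t + 55983236389353 / 409600000000000 * s ^ 8 =
      (1 + 1 / 20 + (1 / 20) ^ 2 / 2) * ((1 + (3 / 100 * u ^ 2) + (3 / 100 * u ^ 2) ^ 2 / 2 +
      (3 / 100 * u ^ 2) ^ 3 / 6) *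
      (1 + u + 437 / 1000 * u ^ 2)) -
      (69781 / 50000 * (1 + (u - 1 / 3) / 4) ^ 4) := by
    rw [hs, ht]
    ring
  rw [e] at h
  linarith

theorem ev_four_e34_g2 (u : ℝ) (h1 : 7 / 3 ≤ u) (h2 : u ≤ 3) :
    69781 / 50000 * (1 + (u - 1 / 3) / 4) ^ 4 ≤
      (1 + 1 / 20 + (1 / 20) ^ 2 / 2) * ((1 + (3 / 100 * u ^ 2) + (3 / 100 * u ^ 2) ^ 2 / 2 +
      (3 / 100 * u ^ 2) ^ 3 / 6) *
      (1 + u + 437 / 1000 * u ^ 2)) := by
  obtain ⟨s, hs⟩ : ∃ s, s = u - (7 / 3) := ⟨_, rfl⟩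
  obtain ⟨t, ht⟩ : ∃ t, t = 3 - u := ⟨_, rfl⟩
  have hs0 : 0 ≤ s := by linarith
  have ht0 : 0 ≤ t := by linarith
  have h : 0 ≤
      55983236389353 / 409600000000000 * t ^ 8 +
      91822938630111 / 51200000000000 * s * t ^ 7 +
      1092082218733899 / 102400000000000 * s ^ 2 * t ^ 6 +
      1788891259224213 / 51200000000000 * s ^ 3 * t ^ 5 +
      2790107792313831 / 40960000000000 * s ^ 4 * t ^ 4 +
      4161469261606497 / 51200000000000 * s ^ 5 * t ^ 3 +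
      5978610488172339 / 102400000000000 * s ^ 6 * t ^ 2 +
      1189758017950299 / 51200000000000 * s ^ 7 * t +
      1615700678895513 / 409600000000000 * s ^ 8 := by
    positivity
  have e :
      55983236389353 / 409600000000000 * t ^ 8 +
      91822938630111 / 51200000000000 * s * t ^ 7 +
      1092082218733899 / 102400000000000 * s ^ 2 * t ^ 6 +
      1788891259224213 / 51200000000000 * s ^ 3 * t ^ 5 +
      2790107792313831 / 40960000000000 * s ^ 4 * t ^ 4 +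
      4161469261606497 / 51200000000000 * s ^ 5 * t ^ 3 +
      5978610488172339 / 102400000000000 * s ^ 6 * t ^ 2 +
      1189758017950299 / 51200000000000 * s ^ 7 * t +
      1615700678895513 / 409600000000000 * s ^ 8 =
      (1 + 1 / 20 + (1 / 20) ^ 2 / 2) * ((1 + (3 / 100 * u ^ 2) + (3 / 100 * u ^ 2) ^ 2 / 2 +
      (3 / 100 * u ^ 2) ^ 3 / 6) *
      (1 + u + 437 / 1000 * u ^ 2)) -
      (69781 / 50000 * (1 + (u - 1 / 3) / 4) ^ 4) := by
    rw [hs, ht]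
    ring
  rw [e] at h
  linarith

theorem ev_four_e34_t (u : ℝ) (h1 : 3 ≤ u) :
    69781 / 50000 * (1 + (u - 1 / 3) / 4) ^ 4 ≤
      (1 + 1 / 20 + (1 / 20) ^ 2 / 2) * ((1 + (3 / 100 * u ^ 2) + (3 / 100 * u ^ 2) ^ 2 / 2 +
      (3 / 100 * u ^ 2) ^ 3 / 6) *
      (1 + u + 437 / 1000 * u ^ 2)) := by
  obtain ⟨s, hs⟩ : ∃ s, s = u - (3) := ⟨_, rfl⟩
  have hs0 : 0 ≤ s := by linarith
  have h : 0 ≤
      19946921961673 / 129600000000000 + 2629275684847 / 5400000000000 * s +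
      325052977951 / 600000000000 * s ^ 2 + 76657853567 / 300000000000 * s ^ 3 +
      9702102301 / 160000000000 * s ^ 4 + 1659828717 / 200000000000 * s ^ 5 +
      83175741 / 100000000000 * s ^ 6 + 2717271 / 50000000000 * s ^ 7 +
      3307653 / 1600000000000 * s ^ 8 := by
    positivity
  have e :
      19946921961673 / 129600000000000 + 2629275684847 / 5400000000000 * s +
      325052977951 / 600000000000 * s ^ 2 + 76657853567 / 300000000000 * s ^ 3 +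
      9702102301 / 160000000000 * s ^ 4 + 1659828717 / 200000000000 * s ^ 5 +
      83175741 / 100000000000 * s ^ 6 + 2717271 / 50000000000 * s ^ 7 +
      3307653 / 1600000000000 * s ^ 8 =
      (1 + 1 / 20 + (1 / 20) ^ 2 / 2) * ((1 + (3 / 100 * u ^ 2) + (3 / 100 * u ^ 2) ^ 2 / 2 +
      (3 / 100 * u ^ 2) ^ 3 / 6) *
      (1 + u + 437 / 1000 * u ^ 2)) -
      (69781 / 50000 * (1 + (u - 1 / 3) / 4) ^ 4) := by
    rw [hs]
    ring
  rw [e] at h
  linarith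

/-- `K = 4`: `(c, μ, P, δ) = (437 / 1000, 3 / 100, 1 / 3, 1 / 20)` -/
theorem expFd_four_e34 : ExpFd 4 (437 / 1000) (3 / 100) (1 / 3) (1 / 20) := by
  have hde : (1 + 1 / 20 + (1 / 20) ^ 2 / 2) ≤ Real.exp (1 / 20) :=
    Real.quadratic_le_exp_of_nonneg (by norm_num)
  have hq : ∀ u : ℝ, 0 ≤ 1 + u + 437 / 1000 * u ^ 2 := fun u => by
    nlinarith [sq_nonneg (u + 2), sq_nonneg u]
  have hR : ∀ (u x y : ℝ), x ≤ y →
      y ≤ (1 + 1 / 20 + (1 / 20) ^ 2 / 2) * (1 + u + 437 / 1000 * u ^ 2) →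
      x ≤ Real.exp (1 / 20) * (1 + u + 437 / 1000 * u ^ 2) := fun u x y h1 h2 =>
    (h1.trans h2).trans (mul_le_mul_of_nonneg_right hde (hq u))
  refine ExpFd.of (by norm_num) (by norm_num) (by norm_num) (by norm_num) (by norm_num) ?_ ?_ ?_
  · intro u h1
    rcases le_total u (-3) with h3 | h3
    · exact hR u _ _ (ev_exp_n3 h3) (ev_four_e34_d u h3)
    rcases le_total u (-2) with h4 | h4
    · refine hR u _ _ (ev_exp_n2 h4) ?_
      exact ev_four_e34_c0 u (by linarith) (by linarith)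
    rcases le_total u (-1) with h5 | h5
    · refine hR u _ _ (ev_exp_n1 h5) ?_
      exact ev_four_e34_b0 u (by linarith) (by linarith)
    refine hR u _ _ (ev_exp_n0 h1) ?_
    exact ev_four_e34_a0 u (by linarith) (by linarith)
  · intro u h1 h2
    have h5 := mul_le_mul_of_nonneg_right (Real.add_one_le_exp (3 / 100 * u ^ 2)) (hq u)
    rw [add_comm (3 / 100 * u ^ 2) 1] at h5
    have h6 : 0 ≤ Real.exp (3 / 100 * u ^ 2) * (1 + u + 437 / 1000 * u ^ 2) :=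
      mul_nonneg (Real.exp_nonneg _) (hq u)
    rw [Real.exp_add, mul_assoc]
    refine ((ev_exp_p h1 (by linarith)).trans ?_).trans
      ((mul_le_mul_of_nonneg_left h5
        (by norm_num : (0 : ℝ) ≤ (1 + 1 / 20 + (1 / 20) ^ 2 / 2))).trans
        (mul_le_mul_of_nonneg_right hde h6))
    exact ev_four_e34_e0 u (by linarith) (by linarith)
  · intro u h1
    have h4 : 0 ≤ (1 + (u - 1 / 3) / 4) ^ 4 := by
      have : 0 ≤ (u - 1 / 3) / 4 := div_nonneg (by linarith) (by norm_num)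
      positivity
    have hE : Real.exp (1 / 3) ≤ 69781 / 50000 := ev_up_1_3
    have hx : 0 ≤ 3 / 100 * u ^ 2 := by positivity
    have h5 := mul_le_mul_of_nonneg_right (taylor3_le_expE _ hx) (hq u)
    have h6 : 0 ≤ Real.exp (3 / 100 * u ^ 2) * (1 + u + 437 / 1000 * u ^ 2) :=
      mul_nonneg (Real.exp_nonneg _) (hq u)
    rw [Real.exp_add, mul_assoc]
    push_cast
    refine ((mul_le_mul_of_nonneg_right hE h4).trans ?_).trans
      ((mul_le_mul_of_nonneg_left h5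
        (by norm_num : (0 : ℝ) ≤ (1 + 1 / 20 + (1 / 20) ^ 2 / 2))).trans
        (mul_le_mul_of_nonneg_right hde h6))
    rcases le_total u (5 / 3) with hh | hh
    · exact ev_four_e34_g0 u (by linarith) (by linarith)
    rcases le_total u (7 / 3) with hh | hh
    · exact ev_four_e34_g1 u (by linarith) (by linarith)
    rcases le_total u (3) with hh | hh
    · exact ev_four_e34_g2 u (by linarith) (by linarith)
    exact ev_four_e34_t u (by linarith)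

theorem ev_four_e35_a0 (u : ℝ) (h1 : -1 ≤ u) (h2 : u ≤ 0) :
    1 + u + u ^ 2 / 2 + u ^ 3 / 6 + u ^ 4 / 24 ≤
      (1 + 1 / 10 + (1 / 10) ^ 2 / 2) * (1 + u + 17 / 50 * u ^ 2) := by
  obtain ⟨s, hs⟩ : ∃ s, s = u - (-1) := ⟨_, rfl⟩
  obtain ⟨t, ht⟩ : ∃ t, t = 0 - u := ⟨_, rfl⟩
  have hs0 : 0 ≤ s := by linarith
  have ht0 : 0 ≤ t := by linarith
  have h : 0 ≤
      7 / 10000 * t ^ 4 + 173 / 7500 * s * t ^ 3 + 1907 / 10000 * s ^ 2 * t ^ 2 +
      63 / 200 * s ^ 3 * t + 21 / 200 * s ^ 4 := by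
    positivity
  have e :
      7 / 10000 * t ^ 4 + 173 / 7500 * s * t ^ 3 + 1907 / 10000 * s ^ 2 * t ^ 2 +
      63 / 200 * s ^ 3 * t + 21 / 200 * s ^ 4 =
      (1 + 1 / 10 + (1 / 10) ^ 2 / 2) * (1 + u + 17 / 50 * u ^ 2) -
      (1 + u + u ^ 2 / 2 + u ^ 3 / 6 + u ^ 4 / 24) := by
    rw [hs, ht]
    ring
  rw [e] at h
  linarith

theorem ev_four_e35_b0 (u : ℝ) (h1 : -2 ≤ u) (h2 : u ≤ -1) :
    36788 / 100000 *
      (1 + (u + 1) + (u + 1) ^ 2 / 2 + (u + 1) ^ 3 / 6 + (u + 1) ^ 4 / 24) ≤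
      (1 + 1 / 10 + (1 / 10) ^ 2 / 2) * (1 + u + 17 / 50 * u ^ 2) := by
  obtain ⟨s, hs⟩ : ∃ s, s = u - (-2) := ⟨_, rfl⟩
  obtain ⟨t, ht⟩ : ∃ t, t = -1 - u := ⟨_, rfl⟩
  have hs0 : 0 ≤ s := by linarith
  have ht0 : 0 ≤ t := by linarith
  have h : 0 ≤
      51969 / 200000 * t ^ 4 + 77843 / 150000 * s * t ^ 3 + 3519 / 12500 * s ^ 2 * t ^ 2 +
      1139 / 25000 * s ^ 3 * t + 391 / 50000 * s ^ 4 := by
    positivity
  have e :
      51969 / 200000 * t ^ 4 + 77843 / 150000 * s * t ^ 3 + 3519 / 12500 * s ^ 2 * t ^ 2 +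
      1139 / 25000 * s ^ 3 * t + 391 / 50000 * s ^ 4 =
      (1 + 1 / 10 + (1 / 10) ^ 2 / 2) * (1 + u + 17 / 50 * u ^ 2) -
      (36788 / 100000 *
      (1 + (u + 1) + (u + 1) ^ 2 / 2 + (u + 1) ^ 3 / 6 + (u + 1) ^ 4 / 24)) := by
    rw [hs, ht]
    ring
  rw [e] at h
  linarith

theorem ev_four_e35_c0 (u : ℝ) (h1 : -3 ≤ u) (h2 : u ≤ -2) :
    13534 / 100000 *
      (1 + (u + 2) + (u + 2) ^ 2 / 2 + (u + 2) ^ 3 / 6 + (u + 2) ^ 4 / 24) ≤
      (1 + 1 / 10 + (1 / 10) ^ 2 / 2) * (1 + u + 17 / 50 * u ^ 2) := by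
  obtain ⟨s, hs⟩ : ∃ s, s = u - (-3) := ⟨_, rfl⟩
  obtain ⟨t, ht⟩ : ∃ t, t = -2 - u := ⟨_, rfl⟩
  have hs0 : 0 ≤ s := by linarith
  have ht0 : 0 ≤ t := by linarith
  have h : 0 ≤
      448219 / 400000 * t ^ 4 + 986363 / 300000 * s * t ^ 3 +
      348221 / 100000 * s ^ 2 * t ^ 2 + 79149 / 50000 * s ^ 3 * t + 13123 / 50000 * s ^ 4 := by
    positivity
  have e :
      448219 / 400000 * t ^ 4 + 986363 / 300000 * s * t ^ 3 +
      348221 / 100000 * s ^ 2 * t ^ 2 + 79149 / 50000 * s ^ 3 * t + 13123 / 50000 * s ^ 4 =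
      (1 + 1 / 10 + (1 / 10) ^ 2 / 2) * (1 + u + 17 / 50 * u ^ 2) -
      (13534 / 100000 *
      (1 + (u + 2) + (u + 2) ^ 2 / 2 + (u + 2) ^ 3 / 6 + (u + 2) ^ 4 / 24)) := by
    rw [hs, ht]
    ring
  rw [e] at h
  linarith

theorem ev_four_e35_d (u : ℝ) (h2 : u ≤ -3) :
    4979 / 100000 ≤
      (1 + 1 / 10 + (1 / 10) ^ 2 / 2) * (1 + u + 17 / 50 * u ^ 2) := by
  obtain ⟨s, hs⟩ : ∃ s, s = -3 - u := ⟨_, rfl⟩
  have hs0 : 0 ≤ s := by linarith
  have h : 0 ≤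
      112151 / 100000 + 2873 / 2500 * s + 3757 / 10000 * s ^ 2 := by
    positivity
  have e :
      112151 / 100000 + 2873 / 2500 * s + 3757 / 10000 * s ^ 2 =
      (1 + 1 / 10 + (1 / 10) ^ 2 / 2) * (1 + u + 17 / 50 * u ^ 2) -
      (4979 / 100000) := by
    rw [hs]
    ring
  rw [e] at h
  linarith

theorem ev_four_e35_e0 (u : ℝ) (h1 : 0 ≤ u) (h2 : u ≤ 1 / 3) :
    1 + u + u ^ 2 / 2 + u ^ 3 / 6 + u ^ 4 / 24 + u ^ 5 / 100 ≤
      (1 + 1 / 10 + (1 / 10) ^ 2 / 2) * ((1 + 1 / 25 * u ^ 2) *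
      (1 + u + 17 / 50 * u ^ 2)) := by
  obtain ⟨s, hs⟩ : ∃ s, s = u - (0) := ⟨_, rfl⟩
  obtain ⟨t, ht⟩ : ∃ t, t = 1 / 3 - u := ⟨_, rfl⟩
  have hs0 : 0 ≤ s := by linarith
  have ht0 : 0 ≤ t := by linarith
  have h : 0 ≤
      5103 / 200 * t ^ 5 + 3402 / 25 * s * t ^ 4 + 2870073 / 10000 * s ^ 2 * t ^ 3 +
      2985897 / 10000 * s ^ 3 * t ^ 2 + 19102823 / 125000 * s ^ 4 * t + 958287 / 31250 * s ^ 5 := by
    positivity
  have e :
      5103 / 200 * t ^ 5 + 3402 / 25 * s * t ^ 4 + 2870073 / 10000 * s ^ 2 * t ^ 3 +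
      2985897 / 10000 * s ^ 3 * t ^ 2 + 19102823 / 125000 * s ^ 4 * t + 958287 / 31250 * s ^ 5 =
      (1 + 1 / 10 + (1 / 10) ^ 2 / 2) * ((1 + 1 / 25 * u ^ 2) *
      (1 + u + 17 / 50 * u ^ 2)) -
      (1 + u + u ^ 2 / 2 + u ^ 3 / 6 + u ^ 4 / 24 + u ^ 5 / 100) := by
    rw [hs, ht]
    ring
  rw [e] at h
  linarith

theorem ev_four_e35_g0 (u : ℝ) (h1 : 1 / 3 ≤ u) (h2 : u ≤ 5 / 3) :
    69781 / 50000 * (1 + (u - 1 / 3) / 4) ^ 4 ≤
      (1 + 1 / 10 + (1 / 10) ^ 2 / 2) * ((1 + (1 / 25 * u ^ 2) + (1 / 25 * u ^ 2) ^ 2 / 2 +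
      (1 / 25 * u ^ 2) ^ 3 / 6) *
      (1 + u + 17 / 50 * u ^ 2)) := by
  obtain ⟨s, hs⟩ : ∃ s, s = u - (1 / 3) := ⟨_, rfl⟩
  obtain ⟨t, ht⟩ : ∃ t, t = 5 / 3 - u := ⟨_, rfl⟩
  have hs0 : 0 ≤ s := by linarith
  have ht0 : 0 ≤ t := by linarith
  have h : 0 ≤
      388143970541 / 30720000000000 * t ^ 8 + 39145850983 / 384000000000 * s * t ^ 7 +
      215795339917 / 614400000000 * s ^ 2 * t ^ 6 + 5139882221 / 7680000000 * s ^ 3 * t ^ 5 +
      37617091169 / 49152000000 * s ^ 4 * t ^ 4 + 1311238033 / 2457600000 * s ^ 5 * t ^ 3 +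
      540736381 / 2457600000 * s ^ 6 * t ^ 2 + 121172941 / 2457600000 * s ^ 7 * t +
      11892763 / 2457600000 * s ^ 8 := by
    positivity
  have e :
      388143970541 / 30720000000000 * t ^ 8 + 39145850983 / 384000000000 * s * t ^ 7 +
      215795339917 / 614400000000 * s ^ 2 * t ^ 6 + 5139882221 / 7680000000 * s ^ 3 * t ^ 5 +
      37617091169 / 49152000000 * s ^ 4 * t ^ 4 + 1311238033 / 2457600000 * s ^ 5 * t ^ 3 +
      540736381 / 2457600000 * s ^ 6 * t ^ 2 + 121172941 / 2457600000 * s ^ 7 * t +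
      11892763 / 2457600000 * s ^ 8 =
      (1 + 1 / 10 + (1 / 10) ^ 2 / 2) * ((1 + (1 / 25 * u ^ 2) + (1 / 25 * u ^ 2) ^ 2 / 2 +
      (1 / 25 * u ^ 2) ^ 3 / 6) *
      (1 + u + 17 / 50 * u ^ 2)) -
      (69781 / 50000 * (1 + (u - 1 / 3) / 4) ^ 4) := by
    rw [hs, ht]
    ring
  rw [e] at h
  linarith

theorem ev_four_e35_g1 (u : ℝ) (h1 : 5 / 3 ≤ u) (h2 : u ≤ 3) :
    69781 / 50000 * (1 + (u - 1 / 3) / 4) ^ 4 ≤
      (1 + 1 / 10 + (1 / 10) ^ 2 / 2) * ((1 + (1 / 25 * u ^ 2) + (1 / 25 * u ^ 2) ^ 2 / 2 +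
      (1 / 25 * u ^ 2) ^ 3 / 6) *
      (1 + u + 17 / 50 * u ^ 2)) := by
  obtain ⟨s, hs⟩ : ∃ s, s = u - (5 / 3) := ⟨_, rfl⟩
  obtain ⟨t, ht⟩ : ∃ t, t = 3 - u := ⟨_, rfl⟩
  have hs0 : 0 ≤ s := by linarith
  have ht0 : 0 ≤ t := by linarith
  have h : 0 ≤
      11892763 / 2457600000 * t ^ 8 + 23037089 / 819200000 * s * t ^ 7 +
      58768221 / 819200000 * s ^ 2 * t ^ 6 + 109009773 / 819200000 * s ^ 3 * t ^ 5 +
      4027521123 / 16384000000 * s ^ 4 * t ^ 4 + 3855658887 / 10240000000 * s ^ 5 * t ^ 3 +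
      74701720179 / 204800000000 * s ^ 6 * t ^ 2 + 48692123973 / 256000000000 * s ^ 7 * t +
      417528004887 / 10240000000000 * s ^ 8 := by
    positivity
  have e :
      11892763 / 2457600000 * t ^ 8 + 23037089 / 819200000 * s * t ^ 7 +
      58768221 / 819200000 * s ^ 2 * t ^ 6 + 109009773 / 819200000 * s ^ 3 * t ^ 5 +
      4027521123 / 16384000000 * s ^ 4 * t ^ 4 + 3855658887 / 10240000000 * s ^ 5 * t ^ 3 +
      74701720179 / 204800000000 * s ^ 6 * t ^ 2 + 48692123973 / 256000000000 * s ^ 7 * t +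
      417528004887 / 10240000000000 * s ^ 8 =
      (1 + 1 / 10 + (1 / 10) ^ 2 / 2) * ((1 + (1 / 25 * u ^ 2) + (1 / 25 * u ^ 2) ^ 2 / 2 +
      (1 / 25 * u ^ 2) ^ 3 / 6) *
      (1 + u + 17 / 50 * u ^ 2)) -
      (69781 / 50000 * (1 + (u - 1 / 3) / 4) ^ 4) := by
    rw [hs, ht]
    ring
  rw [e] at h
  linarith

theorem ev_four_e35_t (u : ℝ) (h1 : 3 ≤ u) :
    69781 / 50000 * (1 + (u - 1 / 3) / 4) ^ 4 ≤
      (1 + 1 / 10 + (1 / 10) ^ 2 / 2) * ((1 + (1 / 25 * u ^ 2) + (1 / 25 * u ^ 2) ^ 2 / 2 +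
      (1 / 25 * u ^ 2) ^ 3 / 6) *
      (1 + u + 17 / 50 * u ^ 2)) := by
  obtain ⟨s, hs⟩ : ∃ s, s = u - (3) := ⟨_, rfl⟩
  have hs0 : 0 ≤ s := by linarith
  have h : 0 ≤
      5154666727 / 12656250000 + 1074490031 / 1054687500 * s +
      3687398011 / 3750000000 * s ^ 2 + 3194571923 / 7500000000 * s ^ 3 +
      797983163 / 8000000000 * s ^ 4 + 2311439 / 156250000 * s ^ 5 +
      1471639 / 937500000 * s ^ 6 + 50609 / 468750000 * s ^ 7 + 3757 / 937500000 * s ^ 8 := by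
    positivity
  have e :
      5154666727 / 12656250000 + 1074490031 / 1054687500 * s +
      3687398011 / 3750000000 * s ^ 2 + 3194571923 / 7500000000 * s ^ 3 +
      797983163 / 8000000000 * s ^ 4 + 2311439 / 156250000 * s ^ 5 +
      1471639 / 937500000 * s ^ 6 + 50609 / 468750000 * s ^ 7 + 3757 / 937500000 * s ^ 8 =
      (1 + 1 / 10 + (1 / 10) ^ 2 / 2) * ((1 + (1 / 25 * u ^ 2) + (1 / 25 * u ^ 2) ^ 2 / 2 +
      (1 / 25 * u ^ 2) ^ 3 / 6) *
      (1 + u + 17 / 50 * u ^ 2)) -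
      (69781 / 50000 * (1 + (u - 1 / 3) / 4) ^ 4) := by
    rw [hs]
    ring
  rw [e] at h
  linarith

/-- `K = 4`: `(c, μ, P, δ) = (17 / 50, 1 / 25, 1 / 3, 1 / 10)` -/
theorem expFd_four_e35 : ExpFd 4 (17 / 50) (1 / 25) (1 / 3) (1 / 10) := by
  have hde : (1 + 1 / 10 + (1 / 10) ^ 2 / 2) ≤ Real.exp (1 / 10) :=
    Real.quadratic_le_exp_of_nonneg (by norm_num)
  have hq : ∀ u : ℝ, 0 ≤ 1 + u + 17 / 50 * u ^ 2 := fun u => by
    nlinarith [sq_nonneg (u + 2), sq_nonneg u]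
  have hR : ∀ (u x y : ℝ), x ≤ y →
      y ≤ (1 + 1 / 10 + (1 / 10) ^ 2 / 2) * (1 + u + 17 / 50 * u ^ 2) →
      x ≤ Real.exp (1 / 10) * (1 + u + 17 / 50 * u ^ 2) := fun u x y h1 h2 =>
    (h1.trans h2).trans (mul_le_mul_of_nonneg_right hde (hq u))
  refine ExpFd.of (by norm_num) (by norm_num) (by norm_num) (by norm_num) (by norm_num) ?_ ?_ ?_
  · intro u h1
    rcases le_total u (-3) with h3 | h3
    · exact hR u _ _ (ev_exp_n3 h3) (ev_four_e35_d u h3)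
    rcases le_total u (-2) with h4 | h4
    · refine hR u _ _ (ev_exp_n2 h4) ?_
      exact ev_four_e35_c0 u (by linarith) (by linarith)
    rcases le_total u (-1) with h5 | h5
    · refine hR u _ _ (ev_exp_n1 h5) ?_
      exact ev_four_e35_b0 u (by linarith) (by linarith)
    refine hR u _ _ (ev_exp_n0 h1) ?_
    exact ev_four_e35_a0 u (by linarith) (by linarith)
  · intro u h1 h2
    have h5 := mul_le_mul_of_nonneg_right (Real.add_one_le_exp (1 / 25 * u ^ 2)) (hq u)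
    rw [add_comm (1 / 25 * u ^ 2) 1] at h5
    have h6 : 0 ≤ Real.exp (1 / 25 * u ^ 2) * (1 + u + 17 / 50 * u ^ 2) :=
      mul_nonneg (Real.exp_nonneg _) (hq u)
    rw [Real.exp_add, mul_assoc]
    refine ((ev_exp_p h1 (by linarith)).trans ?_).trans
      ((mul_le_mul_of_nonneg_left h5
        (by norm_num : (0 : ℝ) ≤ (1 + 1 / 10 + (1 / 10) ^ 2 / 2))).trans
        (mul_le_mul_of_nonneg_right hde h6))
    exact ev_four_e35_e0 u (by linarith) (by linarith)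
  · intro u h1
    have h4 : 0 ≤ (1 + (u - 1 / 3) / 4) ^ 4 := by
      have : 0 ≤ (u - 1 / 3) / 4 := div_nonneg (by linarith) (by norm_num)
      positivity
    have hE : Real.exp (1 / 3) ≤ 69781 / 50000 := ev_up_1_3
    have hx : 0 ≤ 1 / 25 * u ^ 2 := by positivity
    have h5 := mul_le_mul_of_nonneg_right (taylor3_le_expE _ hx) (hq u)
    have h6 : 0 ≤ Real.exp (1 / 25 * u ^ 2) * (1 + u + 17 / 50 * u ^ 2) :=
      mul_nonneg (Real.exp_nonneg _) (hq u)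
    rw [Real.exp_add, mul_assoc]
    push_cast
    refine ((mul_le_mul_of_nonneg_right hE h4).trans ?_).trans
      ((mul_le_mul_of_nonneg_left h5
        (by norm_num : (0 : ℝ) ≤ (1 + 1 / 10 + (1 / 10) ^ 2 / 2))).trans
        (mul_le_mul_of_nonneg_right hde h6))
    rcases le_total u (5 / 3) with hh | hh
    · exact ev_four_e35_g0 u (by linarith) (by linarith)
    rcases le_total u (3) with hh | hh
    · exact ev_four_e35_g1 u (by linarith) (by linarith)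
    exact ev_four_e35_t u (by linarith)

theorem ev_four_e40_a0 (u : ℝ) (h1 : -1 ≤ u) (h2 : u ≤ 0) :
    1 + u + u ^ 2 / 2 + u ^ 3 / 6 + u ^ 4 / 24 ≤
      (1 + 1 / 500 + (1 / 500) ^ 2 / 2) * (1 + u + 173 / 250 * u ^ 2) := by
  obtain ⟨s, hs⟩ : ∃ s, s = u - (-1) := ⟨_, rfl⟩
  obtain ⟨t, ht⟩ : ∃ t, t = 0 - u := ⟨_, rfl⟩
  have hs0 : 0 ≤ s := by linarith
  have ht0 : 0 ≤ t := by linarith
  have h : 0 ≤
      39798173 / 125000000 * t ^ 4 + 52072447 / 93750000 * s * t ^ 3 +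
      24923923 / 125000000 * s ^ 2 * t ^ 2 + 3003 / 500000 * s ^ 3 * t + 1001 / 500000 * s ^ 4 := by
    positivity
  have e :
      39798173 / 125000000 * t ^ 4 + 52072447 / 93750000 * s * t ^ 3 +
      24923923 / 125000000 * s ^ 2 * t ^ 2 + 3003 / 500000 * s ^ 3 * t + 1001 / 500000 * s ^ 4 =
      (1 + 1 / 500 + (1 / 500) ^ 2 / 2) * (1 + u + 173 / 250 * u ^ 2) -
      (1 + u + u ^ 2 / 2 + u ^ 3 / 6 + u ^ 4 / 24) := by
    rw [hs, ht]
    ring
  rw [e] at h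
  linarith

theorem ev_four_e40_b0 (u : ℝ) (h1 : -2 ≤ u) (h2 : u ≤ -1) :
    36788 / 100000 *
      (1 + (u + 1) + (u + 1) ^ 2 / 2 + (u + 1) ^ 3 / 6 + (u + 1) ^ 4 / 24) ≤
      (1 + 1 / 500 + (1 / 500) ^ 2 / 2) * (1 + u + 173 / 250 * u ^ 2) := by
  obtain ⟨s, hs⟩ : ∃ s, s = u - (-2) := ⟨_, rfl⟩
  obtain ⟨t, ht⟩ : ∃ t, t = -1 - u := ⟨_, rfl⟩
  have hs0 : 0 ≤ s := by linarith
  have ht0 : 0 ≤ t := by linarith
  have h : 0 ≤
      204198067 / 125000000 * t ^ 4 + 870032239 / 187500000 * s * t ^ 3 +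
      590052999 / 125000000 * s ^ 2 * t ^ 2 + 64208447 / 31250000 * s ^ 3 * t +
      40688173 / 125000000 * s ^ 4 := by
    positivity
  have e :
      204198067 / 125000000 * t ^ 4 + 870032239 / 187500000 * s * t ^ 3 +
      590052999 / 125000000 * s ^ 2 * t ^ 2 + 64208447 / 31250000 * s ^ 3 * t +
      40688173 / 125000000 * s ^ 4 =
      (1 + 1 / 500 + (1 / 500) ^ 2 / 2) * (1 + u + 173 / 250 * u ^ 2) -
      (36788 / 100000 *
      (1 + (u + 1) + (u + 1) ^ 2 / 2 + (u + 1) ^ 3 / 6 + (u + 1) ^ 4 / 24)) := by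
    rw [hs, ht]
    ring
  rw [e] at h
  linarith

theorem ev_four_e40_c0 (u : ℝ) (h1 : -3 ≤ u) (h2 : u ≤ -2) :
    13534 / 100000 *
      (1 + (u + 2) + (u + 2) ^ 2 / 2 + (u + 2) ^ 3 / 6 + (u + 2) ^ 4 / 24) ≤
      (1 + 1 / 500 + (1 / 500) ^ 2 / 2) * (1 + u + 173 / 250 * u ^ 2) := by
  obtain ⟨s, hs⟩ : ∃ s, s = u - (-3) := ⟨_, rfl⟩
  obtain ⟨t, ht⟩ : ∃ t, t = -2 - u := ⟨_, rfl⟩
  have hs0 : 0 ≤ s := by linarith
  have ht0 : 0 ≤ t := by linarith
  have h : 0 ≤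
      1046427989 / 250000000 * t ^ 4 + 507728407 / 37500000 * s * t ^ 3 +
      2020443901 / 125000000 * s ^ 2 * t ^ 2 + 105645971 / 12500000 * s ^ 3 * t +
      102262471 / 62500000 * s ^ 4 := by
    positivity
  have e :
      1046427989 / 250000000 * t ^ 4 + 507728407 / 37500000 * s * t ^ 3 +
      2020443901 / 125000000 * s ^ 2 * t ^ 2 + 105645971 / 12500000 * s ^ 3 * t +
      102262471 / 62500000 * s ^ 4 =
      (1 + 1 / 500 + (1 / 500) ^ 2 / 2) * (1 + u + 173 / 250 * u ^ 2) -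
      (13534 / 100000 *
      (1 + (u + 2) + (u + 2) ^ 2 / 2 + (u + 2) ^ 3 / 6 + (u + 2) ^ 4 / 24)) := by
    rw [hs, ht]
    ring
  rw [e] at h
  linarith

theorem ev_four_e40_d (u : ℝ) (h2 : u ≤ -3) :
    4979 / 100000 ≤
      (1 + 1 / 500 + (1 / 500) ^ 2 / 2) * (1 + u + 173 / 250 * u ^ 2) := by
  obtain ⟨s, hs⟩ : ∃ s, s = -3 - u := ⟨_, rfl⟩
  have hs0 : 0 ≤ s := by linarith
  have h : 0 ≤
      523334307 / 125000000 + 98697197 / 31250000 * s + 86673173 / 125000000 * s ^ 2 := by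
    positivity
  have e :
      523334307 / 125000000 + 98697197 / 31250000 * s + 86673173 / 125000000 * s ^ 2 =
      (1 + 1 / 500 + (1 / 500) ^ 2 / 2) * (1 + u + 173 / 250 * u ^ 2) -
      (4979 / 100000) := by
    rw [hs]
    ring
  rw [e] at h
  linarith

theorem ev_four_e40_e0 (u : ℝ) (h1 : 0 ≤ u) (h2 : u ≤ 2 / 3) :
    1 + u + u ^ 2 / 2 + u ^ 3 / 6 + u ^ 4 / 24 + u ^ 5 / 100 ≤
      (1 + 1 / 500 + (1 / 500) ^ 2 / 2) * ((1 + 1 / 50 * u ^ 2) *
      (1 + u + 173 / 250 * u ^ 2)) := by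
  obtain ⟨s, hs⟩ : ∃ s, s = u - (0) := ⟨_, rfl⟩
  obtain ⟨t, ht⟩ : ∃ t, t = 2 / 3 - u := ⟨_, rfl⟩
  have hs0 : 0 ≤ s := by linarith
  have ht0 : 0 ≤ t := by linarith
  have h : 0 ≤
      243243 / 16000000 * t ^ 5 + 1378377 / 16000000 * s * t ^ 4 +
      912878181 / 1000000000 * s ^ 2 * t ^ 3 + 2043860133 / 1000000000 * s ^ 3 * t ^ 2 +
      78798404851 / 50000000000 * s ^ 4 * t + 18202013501 / 50000000000 * s ^ 5 := by
    positivity
  have e :
      243243 / 16000000 * t ^ 5 + 1378377 / 16000000 * s * t ^ 4 +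
      912878181 / 1000000000 * s ^ 2 * t ^ 3 + 2043860133 / 1000000000 * s ^ 3 * t ^ 2 +
      78798404851 / 50000000000 * s ^ 4 * t + 18202013501 / 50000000000 * s ^ 5 =
      (1 + 1 / 500 + (1 / 500) ^ 2 / 2) * ((1 + 1 / 50 * u ^ 2) *
      (1 + u + 173 / 250 * u ^ 2)) -
      (1 + u + u ^ 2 / 2 + u ^ 3 / 6 + u ^ 4 / 24 + u ^ 5 / 100) := by
    rw [hs, ht]
    ring
  rw [e] at h
  linarith

theorem ev_four_e40_g0 (u : ℝ) (h1 : 2 / 3 ≤ u) (h2 : u ≤ 7 / 3) :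
    97387 / 50000 * (1 + (u - 2 / 3) / 4) ^ 4 ≤
      (1 + 1 / 500 + (1 / 500) ^ 2 / 2) * ((1 + (1 / 50 * u ^ 2) + (1 / 50 * u ^ 2) ^ 2 / 2 +
      (1 / 50 * u ^ 2) ^ 3 / 6) *
      (1 + u + 173 / 250 * u ^ 2)) := by
  obtain ⟨s, hs⟩ : ∃ s, s = u - (2 / 3) := ⟨_, rfl⟩
  obtain ⟨t, ht⟩ : ∃ t, t = 7 / 3 - u := ⟨_, rfl⟩
  have hs0 : 0 ≤ s := by linarith
  have ht0 : 0 ≤ t := by linarith
  have h : 0 ≤
      924500728698109 / 1144409179687500000 * t ^ 8 +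
      8972153870440927 / 1144409179687500000 * s * t ^ 7 +
      160839352319492173 / 4577636718750000000 * s ^ 2 * t ^ 6 +
      792473134678349297 / 9155273437500000000 * s ^ 3 * t ^ 5 +
      3652045293353076283 / 29296875000000000000 * s ^ 4 * t ^ 4 +
      3909725698516467803 / 36621093750000000000 * s ^ 5 * t ^ 3 +
      3880110002615454373 / 73242187500000000000 * s ^ 6 * t ^ 2 +
      509033008161612749 / 36621093750000000000 * s ^ 7 * t +
      217534264321764467 / 146484375000000000000 * s ^ 8 := by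
    positivity
  have e :
      924500728698109 / 1144409179687500000 * t ^ 8 +
      8972153870440927 / 1144409179687500000 * s * t ^ 7 +
      160839352319492173 / 4577636718750000000 * s ^ 2 * t ^ 6 +
      792473134678349297 / 9155273437500000000 * s ^ 3 * t ^ 5 +
      3652045293353076283 / 29296875000000000000 * s ^ 4 * t ^ 4 +
      3909725698516467803 / 36621093750000000000 * s ^ 5 * t ^ 3 +
      3880110002615454373 / 73242187500000000000 * s ^ 6 * t ^ 2 +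
      509033008161612749 / 36621093750000000000 * s ^ 7 * t +
      217534264321764467 / 146484375000000000000 * s ^ 8 =
      (1 + 1 / 500 + (1 / 500) ^ 2 / 2) * ((1 + (1 / 50 * u ^ 2) + (1 / 50 * u ^ 2) ^ 2 / 2 +
      (1 / 50 * u ^ 2) ^ 3 / 6) *
      (1 + u + 173 / 250 * u ^ 2)) -
      (97387 / 50000 * (1 + (u - 2 / 3) / 4) ^ 4) := by
    rw [hs, ht]
    ring
  rw [e] at h
  linarith

theorem ev_four_e40_g1 (u : ℝ) (h1 : 7 / 3 ≤ u) (h2 : u ≤ 19 / 6) :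
    97387 / 50000 * (1 + (u - 2 / 3) / 4) ^ 4 ≤
      (1 + 1 / 500 + (1 / 500) ^ 2 / 2) * ((1 + (1 / 50 * u ^ 2) + (1 / 50 * u ^ 2) ^ 2 / 2 +
      (1 / 50 * u ^ 2) ^ 3 / 6) *
      (1 + u + 173 / 250 * u ^ 2)) := by
  obtain ⟨s, hs⟩ : ∃ s, s = u - (7 / 3) := ⟨_, rfl⟩
  obtain ⟨t, ht⟩ : ∃ t, t = 19 / 6 - u := ⟨_, rfl⟩
  have hs0 : 0 ≤ s := by linarith
  have ht0 : 0 ≤ t := by linarith
  have h : 0 ≤
      217534264321764467 / 572204589843750000 * t ^ 8 +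
      796172577768974053 / 286102294921875000 * s * t ^ 7 +
      9910040964370041757 / 1144409179687500000 * s ^ 2 * t ^ 6 +
      17031977696104780519 / 1144409179687500000 * s ^ 3 * t ^ 5 +
      28116178623091666123 / 1831054687500000000 * s ^ 4 * t ^ 4 +
      692315059152248419 / 71525573730468750 * s ^ 5 * t ^ 3 +
      1040423045192639173 / 286102294921875000 * s ^ 6 * t ^ 2 +
      6966455773534893491 / 9155273437500000000 * s ^ 7 * t +
      2723317443655224293 / 36621093750000000000 * s ^ 8 := by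
    positivity
  have e :
      217534264321764467 / 572204589843750000 * t ^ 8 +
      796172577768974053 / 286102294921875000 * s * t ^ 7 +
      9910040964370041757 / 1144409179687500000 * s ^ 2 * t ^ 6 +
      17031977696104780519 / 1144409179687500000 * s ^ 3 * t ^ 5 +
      28116178623091666123 / 1831054687500000000 * s ^ 4 * t ^ 4 +
      692315059152248419 / 71525573730468750 * s ^ 5 * t ^ 3 +
      1040423045192639173 / 286102294921875000 * s ^ 6 * t ^ 2 +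
      6966455773534893491 / 9155273437500000000 * s ^ 7 * t +
      2723317443655224293 / 36621093750000000000 * s ^ 8 =
      (1 + 1 / 500 + (1 / 500) ^ 2 / 2) * ((1 + (1 / 50 * u ^ 2) + (1 / 50 * u ^ 2) ^ 2 / 2 +
      (1 / 50 * u ^ 2) ^ 3 / 6) *
      (1 + u + 173 / 250 * u ^ 2)) -
      (97387 / 50000 * (1 + (u - 2 / 3) / 4) ^ 4) := by
    rw [hs, ht]
    ring
  rw [e] at h
  linarith

theorem ev_four_e40_g2 (u : ℝ) (h1 : 19 / 6 ≤ u) (h2 : u ≤ 4) :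
    97387 / 50000 * (1 + (u - 2 / 3) / 4) ^ 4 ≤
      (1 + 1 / 500 + (1 / 500) ^ 2 / 2) * ((1 + (1 / 50 * u ^ 2) + (1 / 50 * u ^ 2) ^ 2 / 2 +
      (1 / 50 * u ^ 2) ^ 3 / 6) *
      (1 + u + 173 / 250 * u ^ 2)) := by
  obtain ⟨s, hs⟩ : ∃ s, s = u - (19 / 6) := ⟨_, rfl⟩
  obtain ⟨t, ht⟩ : ∃ t, t = 4 - u := ⟨_, rfl⟩
  have hs0 : 0 ≤ s := by linarith
  have ht0 : 0 ≤ t := by linarith
  have h : 0 ≤
      2723317443655224293 / 36621093750000000000 * t ^ 8 +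
      1308938000362001227 / 3051757812500000000 * s * t ^ 7 +
      2002674173170370811 / 1525878906250000000 * s ^ 2 * t ^ 6 +
      2561282541244976031 / 762939453125000000 * s ^ 3 * t ^ 5 +
      4263408786942679401 / 610351562500000000 * s ^ 4 * t ^ 4 +
      1865316530408941449 / 190734863281250000 * s ^ 5 * t ^ 3 +
      785599472661123951 / 95367431640625000 * s ^ 6 * t ^ 2 +
      44808036740232057 / 11920928955078125 * s ^ 7 * t +
      8521384188523509 / 11920928955078125 * s ^ 8 := by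
    positivity
  have e :
      2723317443655224293 / 36621093750000000000 * t ^ 8 +
      1308938000362001227 / 3051757812500000000 * s * t ^ 7 +
      2002674173170370811 / 1525878906250000000 * s ^ 2 * t ^ 6 +
      2561282541244976031 / 762939453125000000 * s ^ 3 * t ^ 5 +
      4263408786942679401 / 610351562500000000 * s ^ 4 * t ^ 4 +
      1865316530408941449 / 190734863281250000 * s ^ 5 * t ^ 3 +
      785599472661123951 / 95367431640625000 * s ^ 6 * t ^ 2 +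
      44808036740232057 / 11920928955078125 * s ^ 7 * t +
      8521384188523509 / 11920928955078125 * s ^ 8 =
      (1 + 1 / 500 + (1 / 500) ^ 2 / 2) * ((1 + (1 / 50 * u ^ 2) + (1 / 50 * u ^ 2) ^ 2 / 2 +
      (1 / 50 * u ^ 2) ^ 3 / 6) *
      (1 + u + 173 / 250 * u ^ 2)) -
      (97387 / 50000 * (1 + (u - 2 / 3) / 4) ^ 4) := by
    rw [hs, ht]
    ring
  rw [e] at h
  linarith

theorem ev_four_e40_t (u : ℝ) (h1 : 4 ≤ u) :
    97387 / 50000 * (1 + (u - 2 / 3) / 4) ^ 4 ≤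
      (1 + 1 / 500 + (1 / 500) ^ 2 / 2) * ((1 + (1 / 50 * u ^ 2) + (1 / 50 * u ^ 2) ^ 2 / 2 +
      (1 / 50 * u ^ 2) ^ 3 / 6) *
      (1 + u + 173 / 250 * u ^ 2)) := by
  obtain ⟨s, hs⟩ : ∃ s, s = u - (4) := ⟨_, rfl⟩
  have hs0 : 0 ≤ s := by linarith
  have h : 0 ≤
      105202273932389 / 632812500000000 + 57686510538163 / 105468750000000 * s +
      10158544495879 / 15625000000000 * s ^ 2 + 13978965898631 / 46875000000000 * s ^ 3 +
      4772312239403 / 75000000000000 * s ^ 4 + 171634425583 / 23437500000000 * s ^ 5 +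
      3466425919 / 5859375000000 * s ^ 6 + 1449395893 / 46875000000000 * s ^ 7 +
      86673173 / 93750000000000 * s ^ 8 := by
    positivity
  have e :
      105202273932389 / 632812500000000 + 57686510538163 / 105468750000000 * s +
      10158544495879 / 15625000000000 * s ^ 2 + 13978965898631 / 46875000000000 * s ^ 3 +
      4772312239403 / 75000000000000 * s ^ 4 + 171634425583 / 23437500000000 * s ^ 5 +
      3466425919 / 5859375000000 * s ^ 6 + 1449395893 / 46875000000000 * s ^ 7 +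
      86673173 / 93750000000000 * s ^ 8 =
      (1 + 1 / 500 + (1 / 500) ^ 2 / 2) * ((1 + (1 / 50 * u ^ 2) + (1 / 50 * u ^ 2) ^ 2 / 2 +
      (1 / 50 * u ^ 2) ^ 3 / 6) *
      (1 + u + 173 / 250 * u ^ 2)) -
      (97387 / 50000 * (1 + (u - 2 / 3) / 4) ^ 4) := by
    rw [hs]
    ring
  rw [e] at h
  linarith

/-- `K = 4`: `(c, μ, P, δ) = (173 / 250, 1 / 50, 2 / 3, 1 / 500)` -/
theorem expFd_four_e40 : ExpFd 4 (173 / 250) (1 / 50) (2 / 3) (1 / 500) := by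
  have hde : (1 + 1 / 500 + (1 / 500) ^ 2 / 2) ≤ Real.exp (1 / 500) :=
    Real.quadratic_le_exp_of_nonneg (by norm_num)
  have hq : ∀ u : ℝ, 0 ≤ 1 + u + 173 / 250 * u ^ 2 := fun u => by
    nlinarith [sq_nonneg (u + 2), sq_nonneg u]
  have hR : ∀ (u x y : ℝ), x ≤ y →
      y ≤ (1 + 1 / 500 + (1 / 500) ^ 2 / 2) * (1 + u + 173 / 250 * u ^ 2) →
      x ≤ Real.exp (1 / 500) * (1 + u + 173 / 250 * u ^ 2) := fun u x y h1 h2 =>
    (h1.trans h2).trans (mul_le_mul_of_nonneg_right hde (hq u))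
  refine ExpFd.of (by norm_num) (by norm_num) (by norm_num) (by norm_num) (by norm_num) ?_ ?_ ?_
  · intro u h1
    rcases le_total u (-3) with h3 | h3
    · exact hR u _ _ (ev_exp_n3 h3) (ev_four_e40_d u h3)
    rcases le_total u (-2) with h4 | h4
    · refine hR u _ _ (ev_exp_n2 h4) ?_
      exact ev_four_e40_c0 u (by linarith) (by linarith)
    rcases le_total u (-1) with h5 | h5
    · refine hR u _ _ (ev_exp_n1 h5) ?_
      exact ev_four_e40_b0 u (by linarith) (by linarith)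
    refine hR u _ _ (ev_exp_n0 h1) ?_
    exact ev_four_e40_a0 u (by linarith) (by linarith)
  · intro u h1 h2
    have h5 := mul_le_mul_of_nonneg_right (Real.add_one_le_exp (1 / 50 * u ^ 2)) (hq u)
    rw [add_comm (1 / 50 * u ^ 2) 1] at h5
    have h6 : 0 ≤ Real.exp (1 / 50 * u ^ 2) * (1 + u + 173 / 250 * u ^ 2) :=
      mul_nonneg (Real.exp_nonneg _) (hq u)
    rw [Real.exp_add, mul_assoc]
    refine ((ev_exp_p h1 (by linarith)).trans ?_).trans
      ((mul_le_mul_of_nonneg_left h5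
        (by norm_num : (0 : ℝ) ≤ (1 + 1 / 500 + (1 / 500) ^ 2 / 2))).trans
        (mul_le_mul_of_nonneg_right hde h6))
    exact ev_four_e40_e0 u (by linarith) (by linarith)
  · intro u h1
    have h4 : 0 ≤ (1 + (u - 2 / 3) / 4) ^ 4 := by
      have : 0 ≤ (u - 2 / 3) / 4 := div_nonneg (by linarith) (by norm_num)
      positivity
    have hE : Real.exp (2 / 3) ≤ 97387 / 50000 := ev_up_2_3
    have hx : 0 ≤ 1 / 50 * u ^ 2 := by positivity
    have h5 := mul_le_mul_of_nonneg_right (taylor3_le_expE _ hx) (hq u)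
    have h6 : 0 ≤ Real.exp (1 / 50 * u ^ 2) * (1 + u + 173 / 250 * u ^ 2) :=
      mul_nonneg (Real.exp_nonneg _) (hq u)
    rw [Real.exp_add, mul_assoc]
    push_cast
    refine ((mul_le_mul_of_nonneg_right hE h4).trans ?_).trans
      ((mul_le_mul_of_nonneg_left h5
        (by norm_num : (0 : ℝ) ≤ (1 + 1 / 500 + (1 / 500) ^ 2 / 2))).trans
        (mul_le_mul_of_nonneg_right hde h6))
    rcases le_total u (7 / 3) with hh | hh
    · exact ev_four_e40_g0 u (by linarith) (by linarith)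
    rcases le_total u (19 / 6) with hh | hh
    · exact ev_four_e40_g1 u (by linarith) (by linarith)
    rcases le_total u (4) with hh | hh
    · exact ev_four_e40_g2 u (by linarith) (by linarith)
    exact ev_four_e40_t u (by linarith)

theorem ev_four_e41_a0 (u : ℝ) (h1 : -1 ≤ u) (h2 : u ≤ 0) :
    1 + u + u ^ 2 / 2 + u ^ 3 / 6 + u ^ 4 / 24 ≤
      (1 + 1 / 200 + (1 / 200) ^ 2 / 2) * (1 + u + 86 / 125 * u ^ 2) := by
  obtain ⟨s, hs⟩ : ∃ s, s = u - (-1) := ⟨_, rfl⟩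
  obtain ⟨t, ht⟩ : ∃ t, t = 0 - u := ⟨_, rfl⟩
  have hs0 : 0 ≤ s := by linarith
  have ht0 : 0 ≤ t := by linarith
  have h : 0 ≤
      1582243 / 5000000 * t ^ 4 + 16637291 / 30000000 * s * t ^ 3 +
      2064861 / 10000000 * s ^ 2 * t ^ 2 + 1203 / 80000 * s ^ 3 * t + 401 / 80000 * s ^ 4 := by
    positivity
  have e :
      1582243 / 5000000 * t ^ 4 + 16637291 / 30000000 * s * t ^ 3 +
      2064861 / 10000000 * s ^ 2 * t ^ 2 + 1203 / 80000 * s ^ 3 * t + 401 / 80000 * s ^ 4 =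
      (1 + 1 / 200 + (1 / 200) ^ 2 / 2) * (1 + u + 86 / 125 * u ^ 2) -
      (1 + u + u ^ 2 / 2 + u ^ 3 / 6 + u ^ 4 / 24) := by
    rw [hs, ht]
    ring
  rw [e] at h
  linarith

theorem ev_four_e41_b0 (u : ℝ) (h1 : -2 ≤ u) (h2 : u ≤ -1) :
    36788 / 100000 *
      (1 + (u + 1) + (u + 1) ^ 2 / 2 + (u + 1) ^ 3 / 6 + (u + 1) ^ 4 / 24) ≤
      (1 + 1 / 200 + (1 / 200) ^ 2 / 2) * (1 + u + 86 / 125 * u ^ 2) := by
  obtain ⟨s, hs⟩ : ∃ s, s = u - (-2) := ⟨_, rfl⟩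
  obtain ⟨t, ht⟩ : ∃ t, t = -1 - u := ⟨_, rfl⟩
  have hs0 : 0 ≤ s := by linarith
  have ht0 : 0 ≤ t := by linarith
  have h : 0 ≤
      16228269 / 10000000 * t ^ 4 + 138236971 / 30000000 * s * t ^ 3 +
      46862143 / 10000000 * s ^ 2 * t ^ 2 + 20400391 / 10000000 * s ^ 3 * t +
      1617843 / 5000000 * s ^ 4 := by
    positivity
  have e :
      16228269 / 10000000 * t ^ 4 + 138236971 / 30000000 * s * t ^ 3 +
      46862143 / 10000000 * s ^ 2 * t ^ 2 + 20400391 / 10000000 * s ^ 3 * t +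
      1617843 / 5000000 * s ^ 4 =
      (1 + 1 / 200 + (1 / 200) ^ 2 / 2) * (1 + u + 86 / 125 * u ^ 2) -
      (36788 / 100000 *
      (1 + (u + 1) + (u + 1) ^ 2 / 2 + (u + 1) ^ 3 / 6 + (u + 1) ^ 4 / 24)) := by
    rw [hs, ht]
    ring
  rw [e] at h
  linarith

theorem ev_four_e41_c0 (u : ℝ) (h1 : -3 ≤ u) (h2 : u ≤ -2) :
    13534 / 100000 *
      (1 + (u + 2) + (u + 2) ^ 2 / 2 + (u + 2) ^ 3 / 6 + (u + 2) ^ 4 / 24) ≤
      (1 + 1 / 200 + (1 / 200) ^ 2 / 2) * (1 + u + 86 / 125 * u ^ 2) := by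
  obtain ⟨s, hs⟩ : ∃ s, s = u - (-3) := ⟨_, rfl⟩
  obtain ⟨t, ht⟩ : ∃ t, t = -2 - u := ⟨_, rfl⟩
  have hs0 : 0 ≤ s := by linarith
  have ht0 : 0 ≤ t := by linarith
  have h : 0 ≤
      41622599 / 10000000 * t ^ 4 + 80761483 / 6000000 * s * t ^ 3 +
      160647957 / 10000000 * s ^ 2 * t ^ 2 + 16795779 / 2000000 * s ^ 3 * t +
      16254419 / 10000000 * s ^ 4 := by
    positivity
  have e :
      41622599 / 10000000 * t ^ 4 + 80761483 / 6000000 * s * t ^ 3 +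
      160647957 / 10000000 * s ^ 2 * t ^ 2 + 16795779 / 2000000 * s ^ 3 * t +
      16254419 / 10000000 * s ^ 4 =
      (1 + 1 / 200 + (1 / 200) ^ 2 / 2) * (1 + u + 86 / 125 * u ^ 2) -
      (13534 / 100000 *
      (1 + (u + 2) + (u + 2) ^ 2 / 2 + (u + 2) ^ 3 / 6 + (u + 2) ^ 4 / 24)) := by
    rw [hs, ht]
    ring
  rw [e] at h
  linarith

theorem ev_four_e41_d (u : ℝ) (h2 : u ≤ -3) :
    4979 / 100000 ≤
      (1 + 1 / 200 + (1 / 200) ^ 2 / 2) * (1 + u + 86 / 125 * u ^ 2) := by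
  obtain ⟨s, hs⟩ : ∃ s, s = -3 - u := ⟨_, rfl⟩
  have hs0 : 0 ≤ s := by linarith
  have h : 0 ≤
      1301007 / 312500 + 31436791 / 10000000 * s + 3457243 / 5000000 * s ^ 2 := by
    positivity
  have e :
      1301007 / 312500 + 31436791 / 10000000 * s + 3457243 / 5000000 * s ^ 2 =
      (1 + 1 / 200 + (1 / 200) ^ 2 / 2) * (1 + u + 86 / 125 * u ^ 2) -
      (4979 / 100000) := by
    rw [hs]
    ring
  rw [e] at h
  linarith

theorem ev_four_e41_e0 (u : ℝ) (h1 : 0 ≤ u) (h2 : u ≤ 2 / 3) :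
    1 + u + u ^ 2 / 2 + u ^ 3 / 6 + u ^ 4 / 24 + u ^ 5 / 100 ≤
      (1 + 1 / 200 + (1 / 200) ^ 2 / 2) * ((1 + 1 / 50 * u ^ 2) *
      (1 + u + 86 / 125 * u ^ 2)) := by
  obtain ⟨s, hs⟩ : ∃ s, s = u - (0) := ⟨_, rfl⟩
  obtain ⟨t, ht⟩ : ∃ t, t = 2 / 3 - u := ⟨_, rfl⟩
  have hs0 : 0 ≤ s := by linarith
  have ht0 : 0 ≤ t := by linarith
  have h : 0 ≤
      97443 / 2560000 * t ^ 5 + 552177 / 2560000 * s * t ^ 4 +
      95689377 / 80000000 * s ^ 2 * t ^ 3 + 93801963 / 40000000 * s ^ 3 * t ^ 2 +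
      13859585389 / 8000000000 * s ^ 4 * t + 3167086739 / 8000000000 * s ^ 5 := by
    positivity
  have e :
      97443 / 2560000 * t ^ 5 + 552177 / 2560000 * s * t ^ 4 +
      95689377 / 80000000 * s ^ 2 * t ^ 3 + 93801963 / 40000000 * s ^ 3 * t ^ 2 +
      13859585389 / 8000000000 * s ^ 4 * t + 3167086739 / 8000000000 * s ^ 5 =
      (1 + 1 / 200 + (1 / 200) ^ 2 / 2) * ((1 + 1 / 50 * u ^ 2) *
      (1 + u + 86 / 125 * u ^ 2)) -
      (1 + u + u ^ 2 / 2 + u ^ 3 / 6 + u ^ 4 / 24 + u ^ 5 / 100) := by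
    rw [hs, ht]
    ring
  rw [e] at h
  linarith

theorem ev_four_e41_g0 (u : ℝ) (h1 : 2 / 3 ≤ u) (h2 : u ≤ 7 / 3) :
    97387 / 50000 * (1 + (u - 2 / 3) / 4) ^ 4 ≤
      (1 + 1 / 200 + (1 / 200) ^ 2 / 2) * ((1 + (1 / 50 * u ^ 2) + (1 / 50 * u ^ 2) ^ 2 / 2 +
      (1 / 50 * u ^ 2) ^ 3 / 6) *
      (1 + u + 86 / 125 * u ^ 2)) := by
  obtain ⟨s, hs⟩ : ∃ s, s = u - (2 / 3) := ⟨_, rfl⟩
  obtain ⟨t, ht⟩ : ∃ t, t = 7 / 3 - u := ⟨_, rfl⟩
  have hs0 : 0 ≤ s := by linarith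
  have ht0 : 0 ≤ t := by linarith
  have h : 0 ≤
      160818079931801 / 183105468750000000 * t ^ 8 +
      1541515618272803 / 183105468750000000 * s * t ^ 7 +
      13596724381606861 / 366210937500000000 * s ^ 2 * t ^ 6 +
      1033406345832911 / 11444091796875000 * s ^ 3 * t ^ 5 +
      150936739436421503 / 1171875000000000000 * s ^ 4 * t ^ 4 +
      20041595805905681 / 183105468750000000 * s ^ 5 * t ^ 3 +
      78963768044857909 / 1464843750000000000 * s ^ 6 * t ^ 2 +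
      41054479101440693 / 2929687500000000000 * s ^ 7 * t +
      8645436760164247 / 5859375000000000000 * s ^ 8 := by
    positivity
  have e :
      160818079931801 / 183105468750000000 * t ^ 8 +
      1541515618272803 / 183105468750000000 * s * t ^ 7 +
      13596724381606861 / 366210937500000000 * s ^ 2 * t ^ 6 +
      1033406345832911 / 11444091796875000 * s ^ 3 * t ^ 5 +
      150936739436421503 / 1171875000000000000 * s ^ 4 * t ^ 4 +
      20041595805905681 / 183105468750000000 * s ^ 5 * t ^ 3 +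
      78963768044857909 / 1464843750000000000 * s ^ 6 * t ^ 2 +
      41054479101440693 / 2929687500000000000 * s ^ 7 * t +
      8645436760164247 / 5859375000000000000 * s ^ 8 =
      (1 + 1 / 200 + (1 / 200) ^ 2 / 2) * ((1 + (1 / 50 * u ^ 2) + (1 / 50 * u ^ 2) ^ 2 / 2 +
      (1 / 50 * u ^ 2) ^ 3 / 6) *
      (1 + u + 86 / 125 * u ^ 2)) -
      (97387 / 50000 * (1 + (u - 2 / 3) / 4) ^ 4) := by
    rw [hs, ht]
    ring
  rw [e] at h
  linarith

theorem ev_four_e41_g1 (u : ℝ) (h1 : 7 / 3 ≤ u) (h2 : u ≤ 19 / 6) :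
    97387 / 50000 * (1 + (u - 2 / 3) / 4) ^ 4 ≤
      (1 + 1 / 200 + (1 / 200) ^ 2 / 2) * ((1 + (1 / 50 * u ^ 2) + (1 / 50 * u ^ 2) ^ 2 / 2 +
      (1 / 50 * u ^ 2) ^ 3 / 6) *
      (1 + u + 86 / 125 * u ^ 2)) := by
  obtain ⟨s, hs⟩ : ∃ s, s = u - (7 / 3) := ⟨_, rfl⟩
  obtain ⟨t, ht⟩ : ∃ t, t = 19 / 6 - u := ⟨_, rfl⟩
  have hs0 : 0 ≤ s := by linarith
  have ht0 : 0 ≤ t := by linarith
  have h : 0 ≤
      8645436760164247 / 22888183593750000 * t ^ 8 +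
      62690762020530271 / 22888183593750000 * s * t ^ 7 +
      385108506740156387 / 45776367187500000 * s ^ 2 * t ^ 6 +
      1298683757232273583 / 91552734375000000 * s ^ 3 * t ^ 5 +
      1040362676595804443 / 73242187500000000 * s ^ 4 * t ^ 4 +
      3118625150074952887 / 366210937500000000 * s ^ 5 * t ^ 3 +
      1070424292623678151 / 366210937500000000 * s ^ 6 * t ^ 2 +
      756074225663315599 / 1464843750000000000 * s ^ 7 * t +
      27997095366335519 / 732421875000000000 * s ^ 8 := by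
    positivity
  have e :
      8645436760164247 / 22888183593750000 * t ^ 8 +
      62690762020530271 / 22888183593750000 * s * t ^ 7 +
      385108506740156387 / 45776367187500000 * s ^ 2 * t ^ 6 +
      1298683757232273583 / 91552734375000000 * s ^ 3 * t ^ 5 +
      1040362676595804443 / 73242187500000000 * s ^ 4 * t ^ 4 +
      3118625150074952887 / 366210937500000000 * s ^ 5 * t ^ 3 +
      1070424292623678151 / 366210937500000000 * s ^ 6 * t ^ 2 +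
      756074225663315599 / 1464843750000000000 * s ^ 7 * t +
      27997095366335519 / 732421875000000000 * s ^ 8 =
      (1 + 1 / 200 + (1 / 200) ^ 2 / 2) * ((1 + (1 / 50 * u ^ 2) + (1 / 50 * u ^ 2) ^ 2 / 2 +
      (1 / 50 * u ^ 2) ^ 3 / 6) *
      (1 + u + 86 / 125 * u ^ 2)) -
      (97387 / 50000 * (1 + (u - 2 / 3) / 4) ^ 4) := by
    rw [hs, ht]
    ring
  rw [e] at h
  linarith

theorem ev_four_e41_g2 (u : ℝ) (h1 : 19 / 6 ≤ u) (h2 : u ≤ 43 / 12) :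
    97387 / 50000 * (1 + (u - 2 / 3) / 4) ^ 4 ≤
      (1 + 1 / 200 + (1 / 200) ^ 2 / 2) * ((1 + (1 / 50 * u ^ 2) + (1 / 50 * u ^ 2) ^ 2 / 2 +
      (1 / 50 * u ^ 2) ^ 3 / 6) *
      (1 + u + 86 / 125 * u ^ 2)) := by
  obtain ⟨s, hs⟩ : ∃ s, s = u - (19 / 6) := ⟨_, rfl⟩
  obtain ⟨t, ht⟩ : ∃ t, t = 43 / 12 - u := ⟨_, rfl⟩
  have hs0 : 0 ≤ s := by linarith
  have ht0 : 0 ≤ t := by linarith
  have h : 0 ≤
      27997095366335519 / 2861022949218750 * t ^ 8 +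
      587786351920789313 / 11444091796875000 * s * t ^ 7 +
      2514674496198186601 / 22888183593750000 * s ^ 2 * t ^ 6 +
      6361236206036976569 / 45776367187500000 * s ^ 3 * t ^ 5 +
      2943156149323332317 / 18310546875000000 * s ^ 4 * t ^ 4 +
      36818038042126217771 / 183105468750000000 * s ^ 5 * t ^ 3 +
      67758249643214828731 / 366210937500000000 * s ^ 6 * t ^ 2 +
      68049941806171776827 / 732421875000000000 * s ^ 7 * t +
      27681229835909496493 / 1464843750000000000 * s ^ 8 := by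
    positivity
  have e :
      27997095366335519 / 2861022949218750 * t ^ 8 +
      587786351920789313 / 11444091796875000 * s * t ^ 7 +
      2514674496198186601 / 22888183593750000 * s ^ 2 * t ^ 6 +
      6361236206036976569 / 45776367187500000 * s ^ 3 * t ^ 5 +
      2943156149323332317 / 18310546875000000 * s ^ 4 * t ^ 4 +
      36818038042126217771 / 183105468750000000 * s ^ 5 * t ^ 3 +
      67758249643214828731 / 366210937500000000 * s ^ 6 * t ^ 2 +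
      68049941806171776827 / 732421875000000000 * s ^ 7 * t +
      27681229835909496493 / 1464843750000000000 * s ^ 8 =
      (1 + 1 / 200 + (1 / 200) ^ 2 / 2) * ((1 + (1 / 50 * u ^ 2) + (1 / 50 * u ^ 2) ^ 2 / 2 +
      (1 / 50 * u ^ 2) ^ 3 / 6) *
      (1 + u + 86 / 125 * u ^ 2)) -
      (97387 / 50000 * (1 + (u - 2 / 3) / 4) ^ 4) := by
    rw [hs, ht]
    ring
  rw [e] at h
  linarith

theorem ev_four_e41_g3 (u : ℝ) (h1 : 43 / 12 ≤ u) (h2 : u ≤ 4) :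
    97387 / 50000 * (1 + (u - 2 / 3) / 4) ^ 4 ≤
      (1 + 1 / 200 + (1 / 200) ^ 2 / 2) * ((1 + (1 / 50 * u ^ 2) + (1 / 50 * u ^ 2) ^ 2 / 2 +
      (1 / 50 * u ^ 2) ^ 3 / 6) *
      (1 + u + 86 / 125 * u ^ 2)) := by
  obtain ⟨s, hs⟩ : ∃ s, s = u - (43 / 12) := ⟨_, rfl⟩
  obtain ⟨t, ht⟩ : ∃ t, t = 4 - u := ⟨_, rfl⟩
  have hs0 : 0 ≤ s := by linarith
  have ht0 : 0 ≤ t := by linarith
  have h : 0 ≤
      27681229835909496493 / 1464843750000000000 * t ^ 8 +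
      51133298960368065039 / 244140625000000000 * s * t ^ 7 +
      61080515400913048791 / 61035156250000000 * s ^ 2 * t ^ 6 +
      20451314695770301869 / 7629394531250000 * s ^ 3 * t ^ 5 +
      6715624341364342821 / 1525878906250000 * s ^ 4 * t ^ 4 +
      2165493821024830014 / 476837158203125 * s ^ 5 * t ^ 3 +
      1373847334595959752 / 476837158203125 * s ^ 6 * t ^ 2 +
      490855445898446592 / 476837158203125 * s ^ 7 * t +
      75743875534673664 / 476837158203125 * s ^ 8 := by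
    positivity
  have e :
      27681229835909496493 / 1464843750000000000 * t ^ 8 +
      51133298960368065039 / 244140625000000000 * s * t ^ 7 +
      61080515400913048791 / 61035156250000000 * s ^ 2 * t ^ 6 +
      20451314695770301869 / 7629394531250000 * s ^ 3 * t ^ 5 +
      6715624341364342821 / 1525878906250000 * s ^ 4 * t ^ 4 +
      2165493821024830014 / 476837158203125 * s ^ 5 * t ^ 3 +
      1373847334595959752 / 476837158203125 * s ^ 6 * t ^ 2 +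
      490855445898446592 / 476837158203125 * s ^ 7 * t +
      75743875534673664 / 476837158203125 * s ^ 8 =
      (1 + 1 / 200 + (1 / 200) ^ 2 / 2) * ((1 + (1 / 50 * u ^ 2) + (1 / 50 * u ^ 2) ^ 2 / 2 +
      (1 / 50 * u ^ 2) ^ 3 / 6) *
      (1 + u + 86 / 125 * u ^ 2)) -
      (97387 / 50000 * (1 + (u - 2 / 3) / 4) ^ 4) := by
    rw [hs, ht]
    ring
  rw [e] at h
  linarith

theorem ev_four_e41_t (u : ℝ) (h1 : 4 ≤ u) :
    97387 / 50000 * (1 + (u - 2 / 3) / 4) ^ 4 ≤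
      (1 + 1 / 200 + (1 / 200) ^ 2 / 2) * ((1 + (1 / 50 * u ^ 2) + (1 / 50 * u ^ 2) ^ 2 / 2 +
      (1 / 50 * u ^ 2) ^ 3 / 6) *
      (1 + u + 86 / 125 * u ^ 2)) := by
  obtain ⟨s, hs⟩ : ∃ s, s = u - (4) := ⟨_, rfl⟩
  have hs0 : 0 ≤ s := by linarith
  have h : 0 ≤
      3652771775399 / 25312500000000 + 1110103765229 / 2109375000000 * s +
      1207566425467 / 1875000000000 * s ^ 2 + 557177907421 / 1875000000000 * s ^ 3 +
      63475451141 / 1000000000000 * s ^ 4 + 27399615587 / 3750000000000 * s ^ 5 +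
      1475438751 / 2500000000000 * s ^ 6 + 77104559 / 2500000000000 * s ^ 7 +
      3457243 / 3750000000000 * s ^ 8 := by
    positivity
  have e :
      3652771775399 / 25312500000000 + 1110103765229 / 2109375000000 * s +
      1207566425467 / 1875000000000 * s ^ 2 + 557177907421 / 1875000000000 * s ^ 3 +
      63475451141 / 1000000000000 * s ^ 4 + 27399615587 / 3750000000000 * s ^ 5 +
      1475438751 / 2500000000000 * s ^ 6 + 77104559 / 2500000000000 * s ^ 7 +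
      3457243 / 3750000000000 * s ^ 8 =
      (1 + 1 / 200 + (1 / 200) ^ 2 / 2) * ((1 + (1 / 50 * u ^ 2) + (1 / 50 * u ^ 2) ^ 2 / 2 +
      (1 / 50 * u ^ 2) ^ 3 / 6) *
      (1 + u + 86 / 125 * u ^ 2)) -
      (97387 / 50000 * (1 + (u - 2 / 3) / 4) ^ 4) := by
    rw [hs]
    ring
  rw [e] at h
  linarith

/-- `K = 4`: `(c, μ, P, δ) = (86 / 125, 1 / 50, 2 / 3, 1 / 200)` -/
theorem expFd_four_e41 : ExpFd 4 (86 / 125) (1 / 50) (2 / 3) (1 / 200) := by
  have hde : (1 + 1 / 200 + (1 / 200) ^ 2 / 2) ≤ Real.exp (1 / 200) :=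
    Real.quadratic_le_exp_of_nonneg (by norm_num)
  have hq : ∀ u : ℝ, 0 ≤ 1 + u + 86 / 125 * u ^ 2 := fun u => by
    nlinarith [sq_nonneg (u + 2), sq_nonneg u]
  have hR : ∀ (u x y : ℝ), x ≤ y →
      y ≤ (1 + 1 / 200 + (1 / 200) ^ 2 / 2) * (1 + u + 86 / 125 * u ^ 2) →
      x ≤ Real.exp (1 / 200) * (1 + u + 86 / 125 * u ^ 2) := fun u x y h1 h2 =>
    (h1.trans h2).trans (mul_le_mul_of_nonneg_right hde (hq u))
  refine ExpFd.of (by norm_num) (by norm_num) (by norm_num) (by norm_num) (by norm_num) ?_ ?_ ?_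
  · intro u h1
    rcases le_total u (-3) with h3 | h3
    · exact hR u _ _ (ev_exp_n3 h3) (ev_four_e41_d u h3)
    rcases le_total u (-2) with h4 | h4
    · refine hR u _ _ (ev_exp_n2 h4) ?_
      exact ev_four_e41_c0 u (by linarith) (by linarith)
    rcases le_total u (-1) with h5 | h5
    · refine hR u _ _ (ev_exp_n1 h5) ?_
      exact ev_four_e41_b0 u (by linarith) (by linarith)
    refine hR u _ _ (ev_exp_n0 h1) ?_
    exact ev_four_e41_a0 u (by linarith) (by linarith)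
  · intro u h1 h2
    have h5 := mul_le_mul_of_nonneg_right (Real.add_one_le_exp (1 / 50 * u ^ 2)) (hq u)
    rw [add_comm (1 / 50 * u ^ 2) 1] at h5
    have h6 : 0 ≤ Real.exp (1 / 50 * u ^ 2) * (1 + u + 86 / 125 * u ^ 2) :=
      mul_nonneg (Real.exp_nonneg _) (hq u)
    rw [Real.exp_add, mul_assoc]
    refine ((ev_exp_p h1 (by linarith)).trans ?_).trans
      ((mul_le_mul_of_nonneg_left h5
        (by norm_num : (0 : ℝ) ≤ (1 + 1 / 200 + (1 / 200) ^ 2 / 2))).trans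
        (mul_le_mul_of_nonneg_right hde h6))
    exact ev_four_e41_e0 u (by linarith) (by linarith)
  · intro u h1
    have h4 : 0 ≤ (1 + (u - 2 / 3) / 4) ^ 4 := by
      have : 0 ≤ (u - 2 / 3) / 4 := div_nonneg (by linarith) (by norm_num)
      positivity
    have hE : Real.exp (2 / 3) ≤ 97387 / 50000 := ev_up_2_3
    have hx : 0 ≤ 1 / 50 * u ^ 2 := by positivity
    have h5 := mul_le_mul_of_nonneg_right (taylor3_le_expE _ hx) (hq u)
    have h6 : 0 ≤ Real.exp (1 / 50 * u ^ 2) * (1 + u + 86 / 125 * u ^ 2) :=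
      mul_nonneg (Real.exp_nonneg _) (hq u)
    rw [Real.exp_add, mul_assoc]
    push_cast
    refine ((mul_le_mul_of_nonneg_right hE h4).trans ?_).trans
      ((mul_le_mul_of_nonneg_left h5
        (by norm_num : (0 : ℝ) ≤ (1 + 1 / 200 + (1 / 200) ^ 2 / 2))).trans
        (mul_le_mul_of_nonneg_right hde h6))
    rcases le_total u (7 / 3) with hh | hh
    · exact ev_four_e41_g0 u (by linarith) (by linarith)
    rcases le_total u (19 / 6) with hh | hh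
    · exact ev_four_e41_g1 u (by linarith) (by linarith)
    rcases le_total u (43 / 12) with hh | hh
    · exact ev_four_e41_g2 u (by linarith) (by linarith)
    rcases le_total u (4) with hh | hh
    · exact ev_four_e41_g3 u (by linarith) (by linarith)
    exact ev_four_e41_t u (by linarith)

theorem ev_four_e42_a0 (u : ℝ) (h1 : -1 ≤ u) (h2 : u ≤ 0) :
    1 + u + u ^ 2 / 2 + u ^ 3 / 6 + u ^ 4 / 24 ≤
      (1 + 1 / 100 + (1 / 100) ^ 2 / 2) * (1 + u + 317 / 500 * u ^ 2) := by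
  obtain ⟨s, hs⟩ : ∃ s, s = u - (-1) := ⟨_, rfl⟩
  obtain ⟨t, ht⟩ : ∃ t, t = 0 - u := ⟨_, rfl⟩
  have hs0 : 0 ≤ s := by linarith
  have ht0 : 0 ≤ t := by linarith
  have h : 0 ≤
      2653717 / 10000000 * t ^ 4 + 6861901 / 15000000 * s * t ^ 3 +
      1705217 / 10000000 * s ^ 2 * t ^ 2 + 603 / 20000 * s ^ 3 * t + 201 / 20000 * s ^ 4 := by
    positivity
  have e :
      2653717 / 10000000 * t ^ 4 + 6861901 / 15000000 * s * t ^ 3 +
      1705217 / 10000000 * s ^ 2 * t ^ 2 + 603 / 20000 * s ^ 3 * t + 201 / 20000 * s ^ 4 =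
      (1 + 1 / 100 + (1 / 100) ^ 2 / 2) * (1 + u + 317 / 500 * u ^ 2) -
      (1 + u + u ^ 2 / 2 + u ^ 3 / 6 + u ^ 4 / 24) := by
    rw [hs, ht]
    ring
  rw [e] at h
  linarith

theorem ev_four_e42_b0 (u : ℝ) (h1 : -2 ≤ u) (h2 : u ≤ -1) :
    36788 / 100000 *
      (1 + (u + 1) + (u + 1) ^ 2 / 2 + (u + 1) ^ 3 / 6 + (u + 1) ^ 4 / 24) ≤
      (1 + 1 / 100 + (1 / 100) ^ 2 / 2) * (1 + u + 317 / 500 * u ^ 2) := by
  obtain ⟨s, hs⟩ : ∃ s, s = u - (-2) := ⟨_, rfl⟩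
  obtain ⟨t, ht⟩ : ∃ t, t = -1 - u := ⟨_, rfl⟩
  have hs0 : 0 ≤ s := by linarith
  have ht0 : 0 ≤ t := by linarith
  have h : 0 ≤
      7067409 / 5000000 * t ^ 4 + 14924489 / 3750000 * s * t ^ 3 +
      40071021 / 10000000 * s ^ 2 * t ^ 2 + 8642701 / 5000000 * s ^ 3 * t +
      2724917 / 10000000 * s ^ 4 := by
    positivity
  have e :
      7067409 / 5000000 * t ^ 4 + 14924489 / 3750000 * s * t ^ 3 +
      40071021 / 10000000 * s ^ 2 * t ^ 2 + 8642701 / 5000000 * s ^ 3 * t +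
      2724917 / 10000000 * s ^ 4 =
      (1 + 1 / 100 + (1 / 100) ^ 2 / 2) * (1 + u + 317 / 500 * u ^ 2) -
      (36788 / 100000 *
      (1 + (u + 1) + (u + 1) ^ 2 / 2 + (u + 1) ^ 3 / 6 + (u + 1) ^ 4 / 24)) := by
    rw [hs, ht]
    ring
  rw [e] at h
  linarith

theorem ev_four_e42_c0 (u : ℝ) (h1 : -3 ≤ u) (h2 : u ≤ -2) :
    13534 / 100000 *
      (1 + (u + 2) + (u + 2) ^ 2 / 2 + (u + 2) ^ 3 / 6 + (u + 2) ^ 4 / 24) ≤
      (1 + 1 / 100 + (1 / 100) ^ 2 / 2) * (1 + u + 317 / 500 * u ^ 2) := by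
  obtain ⟨s, hs⟩ : ∃ s, s = u - (-3) := ⟨_, rfl⟩
  obtain ⟨t, ht⟩ : ∃ t, t = -2 - u := ⟨_, rfl⟩
  have hs0 : 0 ≤ s := by linarith
  have ht0 : 0 ≤ t := by linarith
  have h : 0 ≤
      288476 / 78125 * t ^ 4 + 35678033 / 3000000 * s * t ^ 3 +
      141296129 / 10000000 * s ^ 2 * t ^ 2 + 1837791 / 250000 * s ^ 3 * t +
      1770121 / 1250000 * s ^ 4 := by
    positivity
  have e :
      288476 / 78125 * t ^ 4 + 35678033 / 3000000 * s * t ^ 3 +
      141296129 / 10000000 * s ^ 2 * t ^ 2 + 1837791 / 250000 * s ^ 3 * t +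
      1770121 / 1250000 * s ^ 4 =
      (1 + 1 / 100 + (1 / 100) ^ 2 / 2) * (1 + u + 317 / 500 * u ^ 2) -
      (13534 / 100000 *
      (1 + (u + 2) + (u + 2) ^ 2 / 2 + (u + 2) ^ 3 / 6 + (u + 2) ^ 4 / 24)) := by
    rw [hs, ht]
    ring
  rw [e] at h
  linarith

theorem ev_four_e42_d (u : ℝ) (h2 : u ≤ -3) :
    4979 / 100000 ≤
      (1 + 1 / 100 + (1 / 100) ^ 2 / 2) * (1 + u + 317 / 500 * u ^ 2) := by
  obtain ⟨s, hs⟩ : ∃ s, s = -3 - u := ⟨_, rfl⟩
  have hs0 : 0 ≤ s := by linarith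
  have h : 0 ≤
      36934553 / 10000000 + 14160901 / 5000000 * s + 6403717 / 10000000 * s ^ 2 := by
    positivity
  have e :
      36934553 / 10000000 + 14160901 / 5000000 * s + 6403717 / 10000000 * s ^ 2 =
      (1 + 1 / 100 + (1 / 100) ^ 2 / 2) * (1 + u + 317 / 500 * u ^ 2) -
      (4979 / 100000) := by
    rw [hs]
    ring
  rw [e] at h
  linarith

theorem ev_four_e42_e0 (u : ℝ) (h1 : 0 ≤ u) (h2 : u ≤ 2 / 3) :
    1 + u + u ^ 2 / 2 + u ^ 3 / 6 + u ^ 4 / 24 + u ^ 5 / 100 ≤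
      (1 + 1 / 100 + (1 / 100) ^ 2 / 2) * ((1 + 1 / 40 * u ^ 2) *
      (1 + u + 317 / 500 * u ^ 2)) := by
  obtain ⟨s, hs⟩ : ∃ s, s = u - (0) := ⟨_, rfl⟩
  obtain ⟨t, ht⟩ : ∃ t, t = 2 / 3 - u := ⟨_, rfl⟩
  have hs0 : 0 ≤ s := by linarith
  have ht0 : 0 ≤ t := by linarith
  have h : 0 ≤
      48843 / 640000 * t ^ 5 + 276777 / 640000 * s * t ^ 4 +
      244105893 / 160000000 * s ^ 2 * t ^ 3 + 388350129 / 160000000 * s ^ 3 * t ^ 2 +
      158717537 / 100000000 * s ^ 4 * t + 15975101 / 50000000 * s ^ 5 := by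
    positivity
  have e :
      48843 / 640000 * t ^ 5 + 276777 / 640000 * s * t ^ 4 +
      244105893 / 160000000 * s ^ 2 * t ^ 3 + 388350129 / 160000000 * s ^ 3 * t ^ 2 +
      158717537 / 100000000 * s ^ 4 * t + 15975101 / 50000000 * s ^ 5 =
      (1 + 1 / 100 + (1 / 100) ^ 2 / 2) * ((1 + 1 / 40 * u ^ 2) *
      (1 + u + 317 / 500 * u ^ 2)) -
      (1 + u + u ^ 2 / 2 + u ^ 3 / 6 + u ^ 4 / 24 + u ^ 5 / 100) := by
    rw [hs, ht]
    ring
  rw [e] at h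
  linarith

theorem ev_four_e42_g0 (u : ℝ) (h1 : 2 / 3 ≤ u) (h2 : u ≤ 11 / 6) :
    97387 / 50000 * (1 + (u - 2 / 3) / 4) ^ 4 ≤
      (1 + 1 / 100 + (1 / 100) ^ 2 / 2) * ((1 + (1 / 40 * u ^ 2) + (1 / 40 * u ^ 2) ^ 2 / 2 +
      (1 / 40 * u ^ 2) ^ 3 / 6) *
      (1 + u + 317 / 500 * u ^ 2)) := by
  obtain ⟨s, hs⟩ : ∃ s, s = u - (2 / 3) := ⟨_, rfl⟩
  obtain ⟨t, ht⟩ : ∃ t, t = 11 / 6 - u := ⟨_, rfl⟩
  have hs0 : 0 ≤ s := by linarith
  have ht0 : 0 ≤ t := by linarith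
  have h : 0 ≤
      2080257059816 / 168890654296875 * t ^ 8 +
      16831390808657 / 168890654296875 * s * t ^ 7 +
      281762999533333 / 772071562500000 * s ^ 2 * t ^ 6 +
      1178674850049443 / 1544143125000000 * s ^ 3 * t ^ 5 +
      2407160739298199 / 2470629000000000 * s ^ 4 * t ^ 4 +
      9454929611798389 / 12353145000000000 * s ^ 5 * t ^ 3 +
      70649990891491303 / 197650320000000000 * s ^ 6 * t ^ 2 +
      249004281284193833 / 2767104480000000000 * s ^ 7 * t +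
      206580357228718717 / 22136835840000000000 * s ^ 8 := by
    positivity
  have e :
      2080257059816 / 168890654296875 * t ^ 8 +
      16831390808657 / 168890654296875 * s * t ^ 7 +
      281762999533333 / 772071562500000 * s ^ 2 * t ^ 6 +
      1178674850049443 / 1544143125000000 * s ^ 3 * t ^ 5 +
      2407160739298199 / 2470629000000000 * s ^ 4 * t ^ 4 +
      9454929611798389 / 12353145000000000 * s ^ 5 * t ^ 3 +
      70649990891491303 / 197650320000000000 * s ^ 6 * t ^ 2 +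
      249004281284193833 / 2767104480000000000 * s ^ 7 * t +
      206580357228718717 / 22136835840000000000 * s ^ 8 =
      (1 + 1 / 100 + (1 / 100) ^ 2 / 2) * ((1 + (1 / 40 * u ^ 2) + (1 / 40 * u ^ 2) ^ 2 / 2 +
      (1 / 40 * u ^ 2) ^ 3 / 6) *
      (1 + u + 317 / 500 * u ^ 2)) -
      (97387 / 50000 * (1 + (u - 2 / 3) / 4) ^ 4) := by
    rw [hs, ht]
    ring
  rw [e] at h
  linarith

theorem ev_four_e42_g1 (u : ℝ) (h1 : 11 / 6 ≤ u) (h2 : u ≤ 29 / 12) :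
    97387 / 50000 * (1 + (u - 2 / 3) / 4) ^ 4 ≤
      (1 + 1 / 100 + (1 / 100) ^ 2 / 2) * ((1 + (1 / 40 * u ^ 2) + (1 / 40 * u ^ 2) ^ 2 / 2 +
      (1 / 40 * u ^ 2) ^ 3 / 6) *
      (1 + u + 317 / 500 * u ^ 2)) := by
  obtain ⟨s, hs⟩ : ∃ s, s = u - (11 / 6) := ⟨_, rfl⟩
  obtain ⟨t, ht⟩ : ∃ t, t = 29 / 12 - u := ⟨_, rfl⟩
  have hs0 : 0 ≤ s := by linarith
  have ht0 : 0 ≤ t := by linarith
  have h : 0 ≤
      206580357228718717 / 86472015000000000 * t ^ 8 +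
      185368395200981159 / 10809001875000000 * s * t ^ 7 +
      647797490919270667 / 12353145000000000 * s ^ 2 * t ^ 6 +
      136924496877288791 / 1544143125000000 * s ^ 3 * t ^ 5 +
      1778368193094991657 / 19765032000000000 * s ^ 4 * t ^ 4 +
      1372046812575638729 / 24706290000000000 * s ^ 5 * t ^ 3 +
      3979539525720085207 / 197650320000000000 * s ^ 6 * t ^ 2 +
      1350804669102747127 / 345888060000000000 * s ^ 7 * t +
      7171062085998578197 / 22136835840000000000 * s ^ 8 := by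
    positivity
  have e :
      206580357228718717 / 86472015000000000 * t ^ 8 +
      185368395200981159 / 10809001875000000 * s * t ^ 7 +
      647797490919270667 / 12353145000000000 * s ^ 2 * t ^ 6 +
      136924496877288791 / 1544143125000000 * s ^ 3 * t ^ 5 +
      1778368193094991657 / 19765032000000000 * s ^ 4 * t ^ 4 +
      1372046812575638729 / 24706290000000000 * s ^ 5 * t ^ 3 +
      3979539525720085207 / 197650320000000000 * s ^ 6 * t ^ 2 +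
      1350804669102747127 / 345888060000000000 * s ^ 7 * t +
      7171062085998578197 / 22136835840000000000 * s ^ 8 =
      (1 + 1 / 100 + (1 / 100) ^ 2 / 2) * ((1 + (1 / 40 * u ^ 2) + (1 / 40 * u ^ 2) ^ 2 / 2 +
      (1 / 40 * u ^ 2) ^ 3 / 6) *
      (1 + u + 317 / 500 * u ^ 2)) -
      (97387 / 50000 * (1 + (u - 2 / 3) / 4) ^ 4) := by
    rw [hs, ht]
    ring
  rw [e] at h
  linarith

theorem ev_four_e42_g2 (u : ℝ) (h1 : 29 / 12 ≤ u) (h2 : u ≤ 3) :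
    97387 / 50000 * (1 + (u - 2 / 3) / 4) ^ 4 ≤
      (1 + 1 / 100 + (1 / 100) ^ 2 / 2) * ((1 + (1 / 40 * u ^ 2) + (1 / 40 * u ^ 2) ^ 2 / 2 +
      (1 / 40 * u ^ 2) ^ 3 / 6) *
      (1 + u + 317 / 500 * u ^ 2)) := by
  obtain ⟨s, hs⟩ : ∃ s, s = u - (29 / 12) := ⟨_, rfl⟩
  obtain ⟨t, ht⟩ : ∃ t, t = 3 - u := ⟨_, rfl⟩
  have hs0 : 0 ≤ s := by linarith
  have ht0 : 0 ≤ t := by linarith
  have h : 0 ≤
      7171062085998578197 / 22136835840000000000 * t ^ 8 +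
      589281136529196563 / 461184080000000000 * s * t ^ 7 +
      28680354908057199 / 16470860000000000 * s ^ 2 * t ^ 6 +
      12994250731215903 / 4117715000000000 * s ^ 3 * t ^ 5 +
      4946213065937859 / 411771500000000 * s ^ 4 * t ^ 4 +
      6372347918507523 / 257357187500000 * s ^ 5 * t ^ 3 +
      1634973685118019 / 64339296875000 * s ^ 6 * t ^ 2 +
      1453132499593023 / 112593769531250 * s ^ 7 * t +
      293998804398639 / 112593769531250 * s ^ 8 := by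
    positivity
  have e :
      7171062085998578197 / 22136835840000000000 * t ^ 8 +
      589281136529196563 / 461184080000000000 * s * t ^ 7 +
      28680354908057199 / 16470860000000000 * s ^ 2 * t ^ 6 +
      12994250731215903 / 4117715000000000 * s ^ 3 * t ^ 5 +
      4946213065937859 / 411771500000000 * s ^ 4 * t ^ 4 +
      6372347918507523 / 257357187500000 * s ^ 5 * t ^ 3 +
      1634973685118019 / 64339296875000 * s ^ 6 * t ^ 2 +
      1453132499593023 / 112593769531250 * s ^ 7 * t +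
      293998804398639 / 112593769531250 * s ^ 8 =
      (1 + 1 / 100 + (1 / 100) ^ 2 / 2) * ((1 + (1 / 40 * u ^ 2) + (1 / 40 * u ^ 2) ^ 2 / 2 +
      (1 / 40 * u ^ 2) ^ 3 / 6) *
      (1 + u + 317 / 500 * u ^ 2)) -
      (97387 / 50000 * (1 + (u - 2 / 3) / 4) ^ 4) := by
    rw [hs, ht]
    ring
  rw [e] at h
  linarith

theorem ev_four_e42_t (u : ℝ) (h1 : 3 ≤ u) :
    97387 / 50000 * (1 + (u - 2 / 3) / 4) ^ 4 ≤
      (1 + 1 / 100 + (1 / 100) ^ 2 / 2) * ((1 + (1 / 40 * u ^ 2) + (1 / 40 * u ^ 2) ^ 2 / 2 +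
      (1 / 40 * u ^ 2) ^ 3 / 6) *
      (1 + u + 317 / 500 * u ^ 2)) := by
  obtain ⟨s, hs⟩ : ∃ s, s = u - (3) := ⟨_, rfl⟩
  have hs0 : 0 ≤ s := by linarith
  have h : 0 ≤
      3629614869119 / 103680000000000 + 1585287364367 / 8640000000000 * s +
      309479457451 / 960000000000 * s ^ 2 + 188588437109 / 960000000000 * s ^ 3 +
      6753679133 / 128000000000 * s ^ 4 + 2234776027 / 320000000000 * s ^ 5 +
      651098431 / 960000000000 * s ^ 6 + 40947427 / 960000000000 * s ^ 7 +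
      6403717 / 3840000000000 * s ^ 8 := by
    positivity
  have e :
      3629614869119 / 103680000000000 + 1585287364367 / 8640000000000 * s +
      309479457451 / 960000000000 * s ^ 2 + 188588437109 / 960000000000 * s ^ 3 +
      6753679133 / 128000000000 * s ^ 4 + 2234776027 / 320000000000 * s ^ 5 +
      651098431 / 960000000000 * s ^ 6 + 40947427 / 960000000000 * s ^ 7 +
      6403717 / 3840000000000 * s ^ 8 =
      (1 + 1 / 100 + (1 / 100) ^ 2 / 2) * ((1 + (1 / 40 * u ^ 2) + (1 / 40 * u ^ 2) ^ 2 / 2 +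
      (1 / 40 * u ^ 2) ^ 3 / 6) *
      (1 + u + 317 / 500 * u ^ 2)) -
      (97387 / 50000 * (1 + (u - 2 / 3) / 4) ^ 4) := by
    rw [hs]
    ring
  rw [e] at h
  linarith

/-- `K = 4`: `(c, μ, P, δ) = (317 / 500, 1 / 40, 2 / 3, 1 / 100)` -/
theorem expFd_four_e42 : ExpFd 4 (317 / 500) (1 / 40) (2 / 3) (1 / 100) := by
  have hde : (1 + 1 / 100 + (1 / 100) ^ 2 / 2) ≤ Real.exp (1 / 100) :=
    Real.quadratic_le_exp_of_nonneg (by norm_num)
  have hq : ∀ u : ℝ, 0 ≤ 1 + u + 317 / 500 * u ^ 2 := fun u => by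
    nlinarith [sq_nonneg (u + 2), sq_nonneg u]
  have hR : ∀ (u x y : ℝ), x ≤ y →
      y ≤ (1 + 1 / 100 + (1 / 100) ^ 2 / 2) * (1 + u + 317 / 500 * u ^ 2) →
      x ≤ Real.exp (1 / 100) * (1 + u + 317 / 500 * u ^ 2) := fun u x y h1 h2 =>
    (h1.trans h2).trans (mul_le_mul_of_nonneg_right hde (hq u))
  refine ExpFd.of (by norm_num) (by norm_num) (by norm_num) (by norm_num) (by norm_num) ?_ ?_ ?_
  · intro u h1
    rcases le_total u (-3) with h3 | h3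
    · exact hR u _ _ (ev_exp_n3 h3) (ev_four_e42_d u h3)
    rcases le_total u (-2) with h4 | h4
    · refine hR u _ _ (ev_exp_n2 h4) ?_
      exact ev_four_e42_c0 u (by linarith) (by linarith)
    rcases le_total u (-1) with h5 | h5
    · refine hR u _ _ (ev_exp_n1 h5) ?_
      exact ev_four_e42_b0 u (by linarith) (by linarith)
    refine hR u _ _ (ev_exp_n0 h1) ?_
    exact ev_four_e42_a0 u (by linarith) (by linarith)
  · intro u h1 h2
    have h5 := mul_le_mul_of_nonneg_right (Real.add_one_le_exp (1 / 40 * u ^ 2)) (hq u)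
    rw [add_comm (1 / 40 * u ^ 2) 1] at h5
    have h6 : 0 ≤ Real.exp (1 / 40 * u ^ 2) * (1 + u + 317 / 500 * u ^ 2) :=
      mul_nonneg (Real.exp_nonneg _) (hq u)
    rw [Real.exp_add, mul_assoc]
    refine ((ev_exp_p h1 (by linarith)).trans ?_).trans
      ((mul_le_mul_of_nonneg_left h5
        (by norm_num : (0 : ℝ) ≤ (1 + 1 / 100 + (1 / 100) ^ 2 / 2))).trans
        (mul_le_mul_of_nonneg_right hde h6))
    exact ev_four_e42_e0 u (by linarith) (by linarith)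
  · intro u h1
    have h4 : 0 ≤ (1 + (u - 2 / 3) / 4) ^ 4 := by
      have : 0 ≤ (u - 2 / 3) / 4 := div_nonneg (by linarith) (by norm_num)
      positivity
    have hE : Real.exp (2 / 3) ≤ 97387 / 50000 := ev_up_2_3
    have hx : 0 ≤ 1 / 40 * u ^ 2 := by positivity
    have h5 := mul_le_mul_of_nonneg_right (taylor3_le_expE _ hx) (hq u)
    have h6 : 0 ≤ Real.exp (1 / 40 * u ^ 2) * (1 + u + 317 / 500 * u ^ 2) :=
      mul_nonneg (Real.exp_nonneg _) (hq u)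
    rw [Real.exp_add, mul_assoc]
    push_cast
    refine ((mul_le_mul_of_nonneg_right hE h4).trans ?_).trans
      ((mul_le_mul_of_nonneg_left h5
        (by norm_num : (0 : ℝ) ≤ (1 + 1 / 100 + (1 / 100) ^ 2 / 2))).trans
        (mul_le_mul_of_nonneg_right hde h6))
    rcases le_total u (11 / 6) with hh | hh
    · exact ev_four_e42_g0 u (by linarith) (by linarith)
    rcases le_total u (29 / 12) with hh | hh
    · exact ev_four_e42_g1 u (by linarith) (by linarith)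
    rcases le_total u (3) with hh | hh
    · exact ev_four_e42_g2 u (by linarith) (by linarith)
    exact ev_four_e42_t u (by linarith)

theorem ev_four_e43_a0 (u : ℝ) (h1 : -1 ≤ u) (h2 : u ≤ 0) :
    1 + u + u ^ 2 / 2 + u ^ 3 / 6 + u ^ 4 / 24 ≤
      (1 + 1 / 50 + (1 / 50) ^ 2 / 2) * (1 + u + 589 / 1000 * u ^ 2) := by
  obtain ⟨s, hs⟩ : ∃ s, s = u - (-1) := ⟨_, rfl⟩
  obtain ⟨t, ht⟩ : ∃ t, t = 0 - u := ⟨_, rfl⟩
  have hs0 : 0 ≤ s := by linarith
  have ht0 : 0 ≤ t := by linarith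
  have h : 0 ≤
      1129489 / 5000000 * t ^ 4 + 2914967 / 7500000 * s * t ^ 3 +
      807489 / 5000000 * s ^ 2 * t ^ 2 + 303 / 5000 * s ^ 3 * t + 101 / 5000 * s ^ 4 := by
    positivity
  have e :
      1129489 / 5000000 * t ^ 4 + 2914967 / 7500000 * s * t ^ 3 +
      807489 / 5000000 * s ^ 2 * t ^ 2 + 303 / 5000 * s ^ 3 * t + 101 / 5000 * s ^ 4 =
      (1 + 1 / 50 + (1 / 50) ^ 2 / 2) * (1 + u + 589 / 1000 * u ^ 2) -
      (1 + u + u ^ 2 / 2 + u ^ 3 / 6 + u ^ 4 / 24) := by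
    rw [hs, ht]
    ring
  rw [e] at h
  linarith

theorem ev_four_e43_b0 (u : ℝ) (h1 : -2 ≤ u) (h2 : u ≤ -1) :
    36788 / 100000 *
      (1 + (u + 1) + (u + 1) ^ 2 / 2 + (u + 1) ^ 3 / 6 + (u + 1) ^ 4 / 24) ≤
      (1 + 1 / 50 + (1 / 50) ^ 2 / 2) * (1 + u + 589 / 1000 * u ^ 2) := by
  obtain ⟨s, hs⟩ : ∃ s, s = u - (-2) := ⟨_, rfl⟩
  obtain ⟨t, ht⟩ : ∃ t, t = -1 - u := ⟨_, rfl⟩
  have hs0 : 0 ≤ s := by linarith
  have ht0 : 0 ≤ t := by linarith
  have h : 0 ≤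
      6227181 / 5000000 * t ^ 4 + 1629247 / 468750 * s * t ^ 3 +
      17317457 / 5000000 * s ^ 2 * t ^ 2 + 3703867 / 2500000 * s ^ 3 * t +
      1165089 / 5000000 * s ^ 4 := by
    positivity
  have e :
      6227181 / 5000000 * t ^ 4 + 1629247 / 468750 * s * t ^ 3 +
      17317457 / 5000000 * s ^ 2 * t ^ 2 + 3703867 / 2500000 * s ^ 3 * t +
      1165089 / 5000000 * s ^ 4 =
      (1 + 1 / 50 + (1 / 50) ^ 2 / 2) * (1 + u + 589 / 1000 * u ^ 2) -
      (36788 / 100000 *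
      (1 + (u + 1) + (u + 1) ^ 2 / 2 + (u + 1) ^ 3 / 6 + (u + 1) ^ 4 / 24)) := by
    rw [hs, ht]
    ring
  rw [e] at h
  linarith

theorem ev_four_e43_c0 (u : ℝ) (h1 : -3 ≤ u) (h2 : u ≤ -2) :
    13534 / 100000 *
      (1 + (u + 2) + (u + 2) ^ 2 / 2 + (u + 2) ^ 3 / 6 + (u + 2) ^ 4 / 24) ≤
      (1 + 1 / 50 + (1 / 50) ^ 2 / 2) * (1 + u + 589 / 1000 * u ^ 2) := by
  obtain ⟨s, hs⟩ : ∃ s, s = u - (-3) := ⟨_, rfl⟩
  obtain ⟨t, ht⟩ : ∃ t, t = -2 - u := ⟨_, rfl⟩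
  have hs0 : 0 ≤ s := by linarith
  have ht0 : 0 ≤ t := by linarith
  have h : 0 ≤
      33169277 / 10000000 * t ^ 4 + 3989029 / 375000 * s * t ^ 3 +
      62888643 / 5000000 * s ^ 2 * t ^ 2 + 813867 / 125000 * s ^ 3 * t + 97504 / 78125 * s ^ 4 := by
    positivity
  have e :
      33169277 / 10000000 * t ^ 4 + 3989029 / 375000 * s * t ^ 3 +
      62888643 / 5000000 * s ^ 2 * t ^ 2 + 813867 / 125000 * s ^ 3 * t + 97504 / 78125 * s ^ 4 =
      (1 + 1 / 50 + (1 / 50) ^ 2 / 2) * (1 + u + 589 / 1000 * u ^ 2) -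
      (13534 / 100000 *
      (1 + (u + 2) + (u + 2) ^ 2 / 2 + (u + 2) ^ 3 / 6 + (u + 2) ^ 4 / 24)) := by
    rw [hs, ht]
    ring
  rw [e] at h
  linarith

theorem ev_four_e43_d (u : ℝ) (h2 : u ≤ -3) :
    4979 / 100000 ≤
      (1 + 1 / 50 + (1 / 50) ^ 2 / 2) * (1 + u + 589 / 1000 * u ^ 2) := by
  obtain ⟨s, hs⟩ : ∃ s, s = -3 - u := ⟨_, rfl⟩
  have hs0 : 0 ≤ s := by linarith
  have h : 0 ≤
      16589451 / 5000000 + 6462967 / 2500000 * s + 3004489 / 5000000 * s ^ 2 := by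
    positivity
  have e :
      16589451 / 5000000 + 6462967 / 2500000 * s + 3004489 / 5000000 * s ^ 2 =
      (1 + 1 / 50 + (1 / 50) ^ 2 / 2) * (1 + u + 589 / 1000 * u ^ 2) -
      (4979 / 100000) := by
    rw [hs]
    ring
  rw [e] at h
  linarith

theorem ev_four_e43_e0 (u : ℝ) (h1 : 0 ≤ u) (h2 : u ≤ 2 / 3) :
    1 + u + u ^ 2 / 2 + u ^ 3 / 6 + u ^ 4 / 24 + u ^ 5 / 100 ≤
      (1 + 1 / 50 + (1 / 50) ^ 2 / 2) * ((1 + 3 / 100 * u ^ 2) *
      (1 + u + 589 / 1000 * u ^ 2)) := by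
  obtain ⟨s, hs⟩ : ∃ s, s = u - (0) := ⟨_, rfl⟩
  obtain ⟨t, ht⟩ : ∃ t, t = 2 / 3 - u := ⟨_, rfl⟩
  have hs0 : 0 ≤ s := by linarith
  have ht0 : 0 ≤ t := by linarith
  have h : 0 ≤
      24543 / 160000 * t ^ 5 + 139077 / 160000 * s * t ^ 4 +
      95472513 / 40000000 * s ^ 2 * t ^ 3 + 126914079 / 40000000 * s ^ 3 * t ^ 2 +
      929881063 / 500000000 * s ^ 4 * t + 86971369 / 250000000 * s ^ 5 := by
    positivity
  have e :
      24543 / 160000 * t ^ 5 + 139077 / 160000 * s * t ^ 4 +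
      95472513 / 40000000 * s ^ 2 * t ^ 3 + 126914079 / 40000000 * s ^ 3 * t ^ 2 +
      929881063 / 500000000 * s ^ 4 * t + 86971369 / 250000000 * s ^ 5 =
      (1 + 1 / 50 + (1 / 50) ^ 2 / 2) * ((1 + 3 / 100 * u ^ 2) *
      (1 + u + 589 / 1000 * u ^ 2)) -
      (1 + u + u ^ 2 / 2 + u ^ 3 / 6 + u ^ 4 / 24 + u ^ 5 / 100) := by
    rw [hs, ht]
    ring
  rw [e] at h
  linarith

theorem ev_four_e43_g0 (u : ℝ) (h1 : 2 / 3 ≤ u) (h2 : u ≤ 11 / 6) :
    97387 / 50000 * (1 + (u - 2 / 3) / 4) ^ 4 ≤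
      (1 + 1 / 50 + (1 / 50) ^ 2 / 2) * ((1 + (3 / 100 * u ^ 2) + (3 / 100 * u ^ 2) ^ 2 / 2 +
      (3 / 100 * u ^ 2) ^ 3 / 6) *
      (1 + u + 589 / 1000 * u ^ 2)) := by
  obtain ⟨s, hs⟩ : ∃ s, s = u - (2 / 3) := ⟨_, rfl⟩
  obtain ⟨t, ht⟩ : ∃ t, t = 11 / 6 - u := ⟨_, rfl⟩
  have hs0 : 0 ≤ s := by linarith
  have ht0 : 0 ≤ t := by linarith
  have h : 0 ≤
      94451061835008 / 7037110595703125 * t ^ 8 +
      702642268122876 / 7037110595703125 * s * t ^ 7 +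
      330341196922767 / 1005301513671875 * s ^ 2 * t ^ 6 +
      4896026024062023 / 8042412109375000 * s ^ 3 * t ^ 5 +
      34886297065791231 / 51471437500000000 * s ^ 4 * t ^ 4 +
      7291568977601301 / 16084824218750000 * s ^ 5 * t ^ 3 +
      89196628347875169 / 514714375000000000 * s ^ 6 * t ^ 2 +
      122200803275044617 / 3603000625000000000 * s ^ 7 * t +
      159608168053948881 / 57648010000000000000 * s ^ 8 := by
    positivity
  have e :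
      94451061835008 / 7037110595703125 * t ^ 8 +
      702642268122876 / 7037110595703125 * s * t ^ 7 +
      330341196922767 / 1005301513671875 * s ^ 2 * t ^ 6 +
      4896026024062023 / 8042412109375000 * s ^ 3 * t ^ 5 +
      34886297065791231 / 51471437500000000 * s ^ 4 * t ^ 4 +
      7291568977601301 / 16084824218750000 * s ^ 5 * t ^ 3 +
      89196628347875169 / 514714375000000000 * s ^ 6 * t ^ 2 +
      122200803275044617 / 3603000625000000000 * s ^ 7 * t +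
      159608168053948881 / 57648010000000000000 * s ^ 8 =
      (1 + 1 / 50 + (1 / 50) ^ 2 / 2) * ((1 + (3 / 100 * u ^ 2) + (3 / 100 * u ^ 2) ^ 2 / 2 +
      (3 / 100 * u ^ 2) ^ 3 / 6) *
      (1 + u + 589 / 1000 * u ^ 2)) -
      (97387 / 50000 * (1 + (u - 2 / 3) / 4) ^ 4) := by
    rw [hs, ht]
    ring
  rw [e] at h
  linarith

theorem ev_four_e43_g1 (u : ℝ) (h1 : 11 / 6 ≤ u) (h2 : u ≤ 3) :
    97387 / 50000 * (1 + (u - 2 / 3) / 4) ^ 4 ≤
      (1 + 1 / 50 + (1 / 50) ^ 2 / 2) * ((1 + (3 / 100 * u ^ 2) + (3 / 100 * u ^ 2) ^ 2 / 2 +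
      (3 / 100 * u ^ 2) ^ 3 / 6) *
      (1 + u + 589 / 1000 * u ^ 2)) := by
  obtain ⟨s, hs⟩ : ∃ s, s = u - (11 / 6) := ⟨_, rfl⟩
  obtain ⟨t, ht⟩ : ∃ t, t = 3 - u := ⟨_, rfl⟩
  have hs0 : 0 ≤ s := by linarith
  have ht0 : 0 ≤ t := by linarith
  have h : 0 ≤
      159608168053948881 / 57648010000000000000 * t ^ 8 +
      4675920597363033 / 450375078125000000 * s * t ^ 7 +
      137599682866713 / 16084824218750000 * s ^ 2 * t ^ 6 +
      2263091451630129 / 128678593750000000 * s ^ 3 * t ^ 5 +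
      3770407411785513 / 25735718750000000 * s ^ 4 * t ^ 4 +
      12092298182081469 / 32169648437500000 * s ^ 5 * t ^ 3 +
      14062486916509011 / 32169648437500000 * s ^ 6 * t ^ 2 +
      1727740994106348 / 7037110595703125 * s ^ 7 * t +
      12254440105862271 / 225187539062500000 * s ^ 8 := by
    positivity
  have e :
      159608168053948881 / 57648010000000000000 * t ^ 8 +
      4675920597363033 / 450375078125000000 * s * t ^ 7 +
      137599682866713 / 16084824218750000 * s ^ 2 * t ^ 6 +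
      2263091451630129 / 128678593750000000 * s ^ 3 * t ^ 5 +
      3770407411785513 / 25735718750000000 * s ^ 4 * t ^ 4 +
      12092298182081469 / 32169648437500000 * s ^ 5 * t ^ 3 +
      14062486916509011 / 32169648437500000 * s ^ 6 * t ^ 2 +
      1727740994106348 / 7037110595703125 * s ^ 7 * t +
      12254440105862271 / 225187539062500000 * s ^ 8 =
      (1 + 1 / 50 + (1 / 50) ^ 2 / 2) * ((1 + (3 / 100 * u ^ 2) + (3 / 100 * u ^ 2) ^ 2 / 2 +
      (3 / 100 * u ^ 2) ^ 3 / 6) *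
      (1 + u + 589 / 1000 * u ^ 2)) -
      (97387 / 50000 * (1 + (u - 2 / 3) / 4) ^ 4) := by
    rw [hs, ht]
    ring
  rw [e] at h
  linarith

theorem ev_four_e43_t (u : ℝ) (h1 : 3 ≤ u) :
    97387 / 50000 * (1 + (u - 2 / 3) / 4) ^ 4 ≤
      (1 + 1 / 50 + (1 / 50) ^ 2 / 2) * ((1 + (3 / 100 * u ^ 2) + (3 / 100 * u ^ 2) ^ 2 / 2 +
      (3 / 100 * u ^ 2) ^ 3 / 6) *
      (1 + u + 589 / 1000 * u ^ 2)) := by
  obtain ⟨s, hs⟩ : ∃ s, s = u - (3) := ⟨_, rfl⟩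
  have hs0 : 0 ≤ s := by linarith
  have h : 0 ≤
      151289384022991 / 810000000000000 + 9424120157737 / 16875000000000 * s +
      4581149634659 / 7500000000000 * s ^ 2 + 1122451179053 / 3750000000000 * s ^ 3 +
      37279317671 / 500000000000 * s ^ 4 + 12956483889 / 1250000000000 * s ^ 5 +
      658013697 / 625000000000 * s ^ 6 + 21714957 / 312500000000 * s ^ 7 +
      27040401 / 10000000000000 * s ^ 8 := by
    positivity
  have e :
      151289384022991 / 810000000000000 + 9424120157737 / 16875000000000 * s +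
      4581149634659 / 7500000000000 * s ^ 2 + 1122451179053 / 3750000000000 * s ^ 3 +
      37279317671 / 500000000000 * s ^ 4 + 12956483889 / 1250000000000 * s ^ 5 +
      658013697 / 625000000000 * s ^ 6 + 21714957 / 312500000000 * s ^ 7 +
      27040401 / 10000000000000 * s ^ 8 =
      (1 + 1 / 50 + (1 / 50) ^ 2 / 2) * ((1 + (3 / 100 * u ^ 2) + (3 / 100 * u ^ 2) ^ 2 / 2 +
      (3 / 100 * u ^ 2) ^ 3 / 6) *
      (1 + u + 589 / 1000 * u ^ 2)) -
      (97387 / 50000 * (1 + (u - 2 / 3) / 4) ^ 4) := by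
    rw [hs]
    ring
  rw [e] at h
  linarith

/-- `K = 4`: `(c, μ, P, δ) = (589 / 1000, 3 / 100, 2 / 3, 1 / 50)` -/
theorem expFd_four_e43 : ExpFd 4 (589 / 1000) (3 / 100) (2 / 3) (1 / 50) := by
  have hde : (1 + 1 / 50 + (1 / 50) ^ 2 / 2) ≤ Real.exp (1 / 50) :=
    Real.quadratic_le_exp_of_nonneg (by norm_num)
  have hq : ∀ u : ℝ, 0 ≤ 1 + u + 589 / 1000 * u ^ 2 := fun u => by
    nlinarith [sq_nonneg (u + 2), sq_nonneg u]
  have hR : ∀ (u x y : ℝ), x ≤ y →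
      y ≤ (1 + 1 / 50 + (1 / 50) ^ 2 / 2) * (1 + u + 589 / 1000 * u ^ 2) →
      x ≤ Real.exp (1 / 50) * (1 + u + 589 / 1000 * u ^ 2) := fun u x y h1 h2 =>
    (h1.trans h2).trans (mul_le_mul_of_nonneg_right hde (hq u))
  refine ExpFd.of (by norm_num) (by norm_num) (by norm_num) (by norm_num) (by norm_num) ?_ ?_ ?_
  · intro u h1
    rcases le_total u (-3) with h3 | h3
    · exact hR u _ _ (ev_exp_n3 h3) (ev_four_e43_d u h3)
    rcases le_total u (-2) with h4 | h4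
    · refine hR u _ _ (ev_exp_n2 h4) ?_
      exact ev_four_e43_c0 u (by linarith) (by linarith)
    rcases le_total u (-1) with h5 | h5
    · refine hR u _ _ (ev_exp_n1 h5) ?_
      exact ev_four_e43_b0 u (by linarith) (by linarith)
    refine hR u _ _ (ev_exp_n0 h1) ?_
    exact ev_four_e43_a0 u (by linarith) (by linarith)
  · intro u h1 h2
    have h5 := mul_le_mul_of_nonneg_right (Real.add_one_le_exp (3 / 100 * u ^ 2)) (hq u)
    rw [add_comm (3 / 100 * u ^ 2) 1] at h5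
    have h6 : 0 ≤ Real.exp (3 / 100 * u ^ 2) * (1 + u + 589 / 1000 * u ^ 2) :=
      mul_nonneg (Real.exp_nonneg _) (hq u)
    rw [Real.exp_add, mul_assoc]
    refine ((ev_exp_p h1 (by linarith)).trans ?_).trans
      ((mul_le_mul_of_nonneg_left h5
        (by norm_num : (0 : ℝ) ≤ (1 + 1 / 50 + (1 / 50) ^ 2 / 2))).trans
        (mul_le_mul_of_nonneg_right hde h6))
    exact ev_four_e43_e0 u (by linarith) (by linarith)
  · intro u h1
    have h4 : 0 ≤ (1 + (u - 2 / 3) / 4) ^ 4 := by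
      have : 0 ≤ (u - 2 / 3) / 4 := div_nonneg (by linarith) (by norm_num)
      positivity
    have hE : Real.exp (2 / 3) ≤ 97387 / 50000 := ev_up_2_3
    have hx : 0 ≤ 3 / 100 * u ^ 2 := by positivity
    have h5 := mul_le_mul_of_nonneg_right (taylor3_le_expE _ hx) (hq u)
    have h6 : 0 ≤ Real.exp (3 / 100 * u ^ 2) * (1 + u + 589 / 1000 * u ^ 2) :=
      mul_nonneg (Real.exp_nonneg _) (hq u)
    rw [Real.exp_add, mul_assoc]
    push_cast
    refine ((mul_le_mul_of_nonneg_right hE h4).trans ?_).trans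
      ((mul_le_mul_of_nonneg_left h5
        (by norm_num : (0 : ℝ) ≤ (1 + 1 / 50 + (1 / 50) ^ 2 / 2))).trans
        (mul_le_mul_of_nonneg_right hde h6))
    rcases le_total u (11 / 6) with hh | hh
    · exact ev_four_e43_g0 u (by linarith) (by linarith)
    rcases le_total u (3) with hh | hh
    · exact ev_four_e43_g1 u (by linarith) (by linarith)
    exact ev_four_e43_t u (by linarith)

theorem ev_four_e44_a0 (u : ℝ) (h1 : -1 ≤ u) (h2 : u ≤ 0) :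
    1 + u + u ^ 2 / 2 + u ^ 3 / 6 + u ^ 4 / 24 ≤
      (1 + 1 / 20 + (1 / 20) ^ 2 / 2) * (1 + u + 553 / 1000 * u ^ 2) := by
  obtain ⟨s, hs⟩ : ∃ s, s = u - (-1) := ⟨_, rfl⟩
  obtain ⟨t, ht⟩ : ∃ t, t = 0 - u := ⟨_, rfl⟩
  have hs0 : 0 ≤ s := by linarith
  have ht0 : 0 ≤ t := by linarith
  have h : 0 ≤
      165073 / 800000 * t ^ 4 + 456719 / 1200000 * s * t ^ 3 +
      188073 / 800000 * s ^ 2 * t ^ 2 + 123 / 800 * s ^ 3 * t + 41 / 800 * s ^ 4 := by
    positivity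
  have e :
      165073 / 800000 * t ^ 4 + 456719 / 1200000 * s * t ^ 3 +
      188073 / 800000 * s ^ 2 * t ^ 2 + 123 / 800 * s ^ 3 * t + 41 / 800 * s ^ 4 =
      (1 + 1 / 20 + (1 / 20) ^ 2 / 2) * (1 + u + 553 / 1000 * u ^ 2) -
      (1 + u + u ^ 2 / 2 + u ^ 3 / 6 + u ^ 4 / 24) := by
    rw [hs, ht]
    ring
  rw [e] at h
  linarith

theorem ev_four_e44_b0 (u : ℝ) (h1 : -2 ≤ u) (h2 : u ≤ -1) :
    36788 / 100000 *
      (1 + (u + 1) + (u + 1) ^ 2 / 2 + (u + 1) ^ 3 / 6 + (u + 1) ^ 4 / 24) ≤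
      (1 + 1 / 20 + (1 / 20) ^ 2 / 2) * (1 + u + 553 / 1000 * u ^ 2) := by
  obtain ⟨s, hs⟩ : ∃ s, s = u - (-2) := ⟨_, rfl⟩
  obtain ⟨t, ht⟩ : ∃ t, t = -1 - u := ⟨_, rfl⟩
  have hs0 : 0 ≤ s := by linarith
  have ht0 : 0 ≤ t := by linarith
  have h : 0 ≤
      7101 / 6250 * t ^ 4 + 1888739 / 600000 * s * t ^ 3 + 498577 / 160000 * s ^ 2 * t ^ 2 +
      533263 / 400000 * s ^ 3 * t + 170769 / 800000 * s ^ 4 := by
    positivity
  have e :
      7101 / 6250 * t ^ 4 + 1888739 / 600000 * s * t ^ 3 + 498577 / 160000 * s ^ 2 * t ^ 2 +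
      533263 / 400000 * s ^ 3 * t + 170769 / 800000 * s ^ 4 =
      (1 + 1 / 20 + (1 / 20) ^ 2 / 2) * (1 + u + 553 / 1000 * u ^ 2) -
      (36788 / 100000 *
      (1 + (u + 1) + (u + 1) ^ 2 / 2 + (u + 1) ^ 3 / 6 + (u + 1) ^ 4 / 24)) := by
    rw [hs, ht]
    ring
  rw [e] at h
  linarith

theorem ev_four_e44_c0 (u : ℝ) (h1 : -3 ≤ u) (h2 : u ≤ -2) :
    13534 / 100000 *
      (1 + (u + 2) + (u + 2) ^ 2 / 2 + (u + 2) ^ 3 / 6 + (u + 2) ^ 4 / 24) ≤
      (1 + 1 / 20 + (1 / 20) ^ 2 / 2) * (1 + u + 553 / 1000 * u ^ 2) := by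
  obtain ⟨s, hs⟩ : ∃ s, s = u - (-3) := ⟨_, rfl⟩
  obtain ⟨t, ht⟩ : ∃ t, t = -2 - u := ⟨_, rfl⟩
  have hs0 : 0 ≤ s := by linarith
  have ht0 : 0 ≤ t := by linarith
  have h : 0 ≤
      492611 / 160000 * t ^ 4 + 11800037 / 1200000 * s * t ^ 3 +
      9259749 / 800000 * s ^ 2 * t ^ 2 + 1192911 / 200000 * s ^ 3 * t + 45551 / 40000 * s ^ 4 := by
    positivity
  have e :
      492611 / 160000 * t ^ 4 + 11800037 / 1200000 * s * t ^ 3 +
      9259749 / 800000 * s ^ 2 * t ^ 2 + 1192911 / 200000 * s ^ 3 * t + 45551 / 40000 * s ^ 4 =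
      (1 + 1 / 20 + (1 / 20) ^ 2 / 2) * (1 + u + 553 / 1000 * u ^ 2) -
      (13534 / 100000 *
      (1 + (u + 2) + (u + 2) ^ 2 / 2 + (u + 2) ^ 3 / 6 + (u + 2) ^ 4 / 24)) := by
    rw [hs, ht]
    ring
  rw [e] at h
  linarith

theorem ev_four_e44_d (u : ℝ) (h2 : u ≤ -3) :
    4979 / 100000 ≤
      (1 + 1 / 20 + (1 / 20) ^ 2 / 2) * (1 + u + 553 / 1000 * u ^ 2) := by
  obtain ⟨s, hs⟩ : ∃ s, s = -3 - u := ⟨_, rfl⟩
  have hs0 : 0 ≤ s := by linarith
  have h : 0 ≤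
      98553 / 32000 + 974719 / 400000 * s + 465073 / 800000 * s ^ 2 := by
    positivity
  have e :
      98553 / 32000 + 974719 / 400000 * s + 465073 / 800000 * s ^ 2 =
      (1 + 1 / 20 + (1 / 20) ^ 2 / 2) * (1 + u + 553 / 1000 * u ^ 2) -
      (4979 / 100000) := by
    rw [hs]
    ring
  rw [e] at h
  linarith

theorem ev_four_e44_e0 (u : ℝ) (h1 : 0 ≤ u) (h2 : u ≤ 2 / 3) :
    1 + u + u ^ 2 / 2 + u ^ 3 / 6 + u ^ 4 / 24 + u ^ 5 / 100 ≤
      (1 + 1 / 20 + (1 / 20) ^ 2 / 2) * ((1 + 3 / 100 * u ^ 2) *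
      (1 + u + 553 / 1000 * u ^ 2)) := by
  obtain ⟨s, hs⟩ : ∃ s, s = u - (0) := ⟨_, rfl⟩
  obtain ⟨t, ht⟩ : ∃ t, t = 2 / 3 - u := ⟨_, rfl⟩
  have hs0 : 0 ≤ s := by linarith
  have ht0 : 0 ≤ t := by linarith
  have h : 0 ≤
      9963 / 25600 * t ^ 5 + 56457 / 25600 * s * t ^ 4 + 33987681 / 6400000 * s ^ 2 * t ^ 3 +
      40239183 / 6400000 * s ^ 3 * t ^ 2 + 278574991 / 80000000 * s ^ 4 * t +
      27168733 / 40000000 * s ^ 5 := by
    positivity
  have e :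
      9963 / 25600 * t ^ 5 + 56457 / 25600 * s * t ^ 4 + 33987681 / 6400000 * s ^ 2 * t ^ 3 +
      40239183 / 6400000 * s ^ 3 * t ^ 2 + 278574991 / 80000000 * s ^ 4 * t +
      27168733 / 40000000 * s ^ 5 =
      (1 + 1 / 20 + (1 / 20) ^ 2 / 2) * ((1 + 3 / 100 * u ^ 2) *
      (1 + u + 553 / 1000 * u ^ 2)) -
      (1 + u + u ^ 2 / 2 + u ^ 3 / 6 + u ^ 4 / 24 + u ^ 5 / 100) := by
    rw [hs, ht]
    ring
  rw [e] at h
  linarith

theorem ev_four_e44_g0 (u : ℝ) (h1 : 2 / 3 ≤ u) (h2 : u ≤ 11 / 6) :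
    97387 / 50000 * (1 + (u - 2 / 3) / 4) ^ 4 ≤
      (1 + 1 / 20 + (1 / 20) ^ 2 / 2) * ((1 + (3 / 100 * u ^ 2) + (3 / 100 * u ^ 2) ^ 2 / 2 +
      (3 / 100 * u ^ 2) ^ 3 / 6) *
      (1 + u + 553 / 1000 * u ^ 2)) := by
  obtain ⟨s, hs⟩ : ∃ s, s = u - (2 / 3) := ⟨_, rfl⟩
  obtain ⟨t, ht⟩ : ∃ t, t = 11 / 6 - u := ⟨_, rfl⟩
  have hs0 : 0 ≤ s := by linarith
  have ht0 : 0 ≤ t := by linarith
  have h : 0 ≤
      7356752531964 / 281484423828125 * t ^ 8 +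
      57384742386933 / 281484423828125 * s * t ^ 7 +
      223091644752513 / 321696484375000 * s ^ 2 * t ^ 6 +
      426388994455959 / 321696484375000 * s ^ 3 * t ^ 5 +
      3166759115664273 / 2058857500000000 * s ^ 4 * t ^ 4 +
      11294056260753453 / 10294287500000000 * s ^ 5 * t ^ 3 +
      38243833024374333 / 82354300000000000 * s ^ 6 * t ^ 2 +
      60892992417808269 / 576480100000000000 * s ^ 7 * t +
      91655063158645017 / 9223681600000000000 * s ^ 8 := by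
    positivity
  have e :
      7356752531964 / 281484423828125 * t ^ 8 +
      57384742386933 / 281484423828125 * s * t ^ 7 +
      223091644752513 / 321696484375000 * s ^ 2 * t ^ 6 +
      426388994455959 / 321696484375000 * s ^ 3 * t ^ 5 +
      3166759115664273 / 2058857500000000 * s ^ 4 * t ^ 4 +
      11294056260753453 / 10294287500000000 * s ^ 5 * t ^ 3 +
      38243833024374333 / 82354300000000000 * s ^ 6 * t ^ 2 +
      60892992417808269 / 576480100000000000 * s ^ 7 * t +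
      91655063158645017 / 9223681600000000000 * s ^ 8 =
      (1 + 1 / 20 + (1 / 20) ^ 2 / 2) * ((1 + (3 / 100 * u ^ 2) + (3 / 100 * u ^ 2) ^ 2 / 2 +
      (3 / 100 * u ^ 2) ^ 3 / 6) *
      (1 + u + 553 / 1000 * u ^ 2)) -
      (97387 / 50000 * (1 + (u - 2 / 3) / 4) ^ 4) := by
    rw [hs, ht]
    ring
  rw [e] at h
  linarith

theorem ev_four_e44_g1 (u : ℝ) (h1 : 11 / 6 ≤ u) (h2 : u ≤ 29 / 12) :
    97387 / 50000 * (1 + (u - 2 / 3) / 4) ^ 4 ≤
      (1 + 1 / 20 + (1 / 20) ^ 2 / 2) * ((1 + (3 / 100 * u ^ 2) + (3 / 100 * u ^ 2) ^ 2 / 2 +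
      (3 / 100 * u ^ 2) ^ 3 / 6) *
      (1 + u + 553 / 1000 * u ^ 2)) := by
  obtain ⟨s, hs⟩ : ∃ s, s = u - (11 / 6) := ⟨_, rfl⟩
  obtain ⟨t, ht⟩ : ∃ t, t = 29 / 12 - u := ⟨_, rfl⟩
  have hs0 : 0 ≤ s := by linarith
  have ht0 : 0 ≤ t := by linarith
  have h : 0 ≤
      91655063158645017 / 36030006250000000 * t ^ 8 +
      153179204640318513 / 9007501562500000 * s * t ^ 7 +
      247154991511603257 / 5147143750000000 * s ^ 2 * t ^ 6 +
      382538203427189673 / 5147143750000000 * s ^ 3 * t ^ 5 +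
      566055468206366697 / 8235430000000000 * s ^ 4 * t ^ 4 +
      810532725841599633 / 20588575000000000 * s ^ 5 * t ^ 3 +
      1196601188532503337 / 82354300000000000 * s ^ 6 * t ^ 2 +
      2137566141359868393 / 576480100000000000 * s ^ 7 * t +
      5316811197307005177 / 9223681600000000000 * s ^ 8 := by
    positivity
  have e :
      91655063158645017 / 36030006250000000 * t ^ 8 +
      153179204640318513 / 9007501562500000 * s * t ^ 7 +
      247154991511603257 / 5147143750000000 * s ^ 2 * t ^ 6 +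
      382538203427189673 / 5147143750000000 * s ^ 3 * t ^ 5 +
      566055468206366697 / 8235430000000000 * s ^ 4 * t ^ 4 +
      810532725841599633 / 20588575000000000 * s ^ 5 * t ^ 3 +
      1196601188532503337 / 82354300000000000 * s ^ 6 * t ^ 2 +
      2137566141359868393 / 576480100000000000 * s ^ 7 * t +
      5316811197307005177 / 9223681600000000000 * s ^ 8 =
      (1 + 1 / 20 + (1 / 20) ^ 2 / 2) * ((1 + (3 / 100 * u ^ 2) + (3 / 100 * u ^ 2) ^ 2 / 2 +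
      (3 / 100 * u ^ 2) ^ 3 / 6) *
      (1 + u + 553 / 1000 * u ^ 2)) -
      (97387 / 50000 * (1 + (u - 2 / 3) / 4) ^ 4) := by
    rw [hs, ht]
    ring
  rw [e] at h
  linarith

theorem ev_four_e44_g2 (u : ℝ) (h1 : 29 / 12 ≤ u) (h2 : u ≤ 3) :
    97387 / 50000 * (1 + (u - 2 / 3) / 4) ^ 4 ≤
      (1 + 1 / 20 + (1 / 20) ^ 2 / 2) * ((1 + (3 / 100 * u ^ 2) + (3 / 100 * u ^ 2) ^ 2 / 2 +
      (3 / 100 * u ^ 2) ^ 3 / 6) *
      (1 + u + 553 / 1000 * u ^ 2)) := by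
  obtain ⟨s, hs⟩ : ∃ s, s = u - (29 / 12) := ⟨_, rfl⟩
  obtain ⟨t, ht⟩ : ∃ t, t = 3 - u := ⟨_, rfl⟩
  have hs0 : 0 ≤ s := by linarith
  have ht0 : 0 ≤ t := by linarith
  have h : 0 ≤
      5316811197307005177 / 9223681600000000000 * t ^ 8 +
      198702815996696049 / 36030006250000000 * s * t ^ 7 +
      139892506444985733 / 5147143750000000 * s ^ 2 * t ^ 6 +
      210422951622913797 / 2573571875000000 * s ^ 3 * t ^ 5 +
      79379895493907487 / 514714375000000 * s ^ 4 * t ^ 4 +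
      14646941484708501 / 80424121093750 * s ^ 5 * t ^ 3 +
      5254183237088421 / 40212060546875 * s ^ 6 * t ^ 2 +
      14667894178352028 / 281484423828125 * s ^ 7 * t +
      2496775539785994 / 281484423828125 * s ^ 8 := by
    positivity
  have e :
      5316811197307005177 / 9223681600000000000 * t ^ 8 +
      198702815996696049 / 36030006250000000 * s * t ^ 7 +
      139892506444985733 / 5147143750000000 * s ^ 2 * t ^ 6 +
      210422951622913797 / 2573571875000000 * s ^ 3 * t ^ 5 +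
      79379895493907487 / 514714375000000 * s ^ 4 * t ^ 4 +
      14646941484708501 / 80424121093750 * s ^ 5 * t ^ 3 +
      5254183237088421 / 40212060546875 * s ^ 6 * t ^ 2 +
      14667894178352028 / 281484423828125 * s ^ 7 * t +
      2496775539785994 / 281484423828125 * s ^ 8 =
      (1 + 1 / 20 + (1 / 20) ^ 2 / 2) * ((1 + (3 / 100 * u ^ 2) + (3 / 100 * u ^ 2) ^ 2 / 2 +
      (3 / 100 * u ^ 2) ^ 3 / 6) *
      (1 + u + 553 / 1000 * u ^ 2)) -
      (97387 / 50000 * (1 + (u - 2 / 3) / 4) ^ 4) := by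
    rw [hs, ht]
    ring
  rw [e] at h
  linarith

theorem ev_four_e44_t (u : ℝ) (h1 : 3 ≤ u) :
    97387 / 50000 * (1 + (u - 2 / 3) / 4) ^ 4 ≤
      (1 + 1 / 20 + (1 / 20) ^ 2 / 2) * ((1 + (3 / 100 * u ^ 2) + (3 / 100 * u ^ 2) ^ 2 / 2 +
      (3 / 100 * u ^ 2) ^ 3 / 6) *
      (1 + u + 553 / 1000 * u ^ 2)) := by
  obtain ⟨s, hs⟩ : ∃ s, s = u - (3) := ⟨_, rfl⟩
  have hs0 : 0 ≤ s := by linarith
  have h : 0 ≤
      15412194690037 / 129600000000000 + 2339642918843 / 5400000000000 * s +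
      337090663069 / 600000000000 * s ^ 2 + 86747525023 / 300000000000 * s ^ 3 +
      11625496969 / 160000000000 * s ^ 4 + 2023322373 / 200000000000 * s ^ 5 +
      102491829 / 100000000000 * s ^ 6 + 1687887 / 25000000000 * s ^ 7 +
      4185657 / 1600000000000 * s ^ 8 := by
    positivity
  have e :
      15412194690037 / 129600000000000 + 2339642918843 / 5400000000000 * s +
      337090663069 / 600000000000 * s ^ 2 + 86747525023 / 300000000000 * s ^ 3 +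
      11625496969 / 160000000000 * s ^ 4 + 2023322373 / 200000000000 * s ^ 5 +
      102491829 / 100000000000 * s ^ 6 + 1687887 / 25000000000 * s ^ 7 +
      4185657 / 1600000000000 * s ^ 8 =
      (1 + 1 / 20 + (1 / 20) ^ 2 / 2) * ((1 + (3 / 100 * u ^ 2) + (3 / 100 * u ^ 2) ^ 2 / 2 +
      (3 / 100 * u ^ 2) ^ 3 / 6) *
      (1 + u + 553 / 1000 * u ^ 2)) -
      (97387 / 50000 * (1 + (u - 2 / 3) / 4) ^ 4) := by
    rw [hs]
    ring
  rw [e] at h
  linarith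

/-- `K = 4`: `(c, μ, P, δ) = (553 / 1000, 3 / 100, 2 / 3, 1 / 20)` -/
theorem expFd_four_e44 : ExpFd 4 (553 / 1000) (3 / 100) (2 / 3) (1 / 20) := by
  have hde : (1 + 1 / 20 + (1 / 20) ^ 2 / 2) ≤ Real.exp (1 / 20) :=
    Real.quadratic_le_exp_of_nonneg (by norm_num)
  have hq : ∀ u : ℝ, 0 ≤ 1 + u + 553 / 1000 * u ^ 2 := fun u => by
    nlinarith [sq_nonneg (u + 2), sq_nonneg u]
  have hR : ∀ (u x y : ℝ), x ≤ y →
      y ≤ (1 + 1 / 20 + (1 / 20) ^ 2 / 2) * (1 + u + 553 / 1000 * u ^ 2) →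
      x ≤ Real.exp (1 / 20) * (1 + u + 553 / 1000 * u ^ 2) := fun u x y h1 h2 =>
    (h1.trans h2).trans (mul_le_mul_of_nonneg_right hde (hq u))
  refine ExpFd.of (by norm_num) (by norm_num) (by norm_num) (by norm_num) (by norm_num) ?_ ?_ ?_
  · intro u h1
    rcases le_total u (-3) with h3 | h3
    · exact hR u _ _ (ev_exp_n3 h3) (ev_four_e44_d u h3)
    rcases le_total u (-2) with h4 | h4
    · refine hR u _ _ (ev_exp_n2 h4) ?_
      exact ev_four_e44_c0 u (by linarith) (by linarith)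
    rcases le_total u (-1) with h5 | h5
    · refine hR u _ _ (ev_exp_n1 h5) ?_
      exact ev_four_e44_b0 u (by linarith) (by linarith)
    refine hR u _ _ (ev_exp_n0 h1) ?_
    exact ev_four_e44_a0 u (by linarith) (by linarith)
  · intro u h1 h2
    have h5 := mul_le_mul_of_nonneg_right (Real.add_one_le_exp (3 / 100 * u ^ 2)) (hq u)
    rw [add_comm (3 / 100 * u ^ 2) 1] at h5
    have h6 : 0 ≤ Real.exp (3 / 100 * u ^ 2) * (1 + u + 553 / 1000 * u ^ 2) :=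
      mul_nonneg (Real.exp_nonneg _) (hq u)
    rw [Real.exp_add, mul_assoc]
    refine ((ev_exp_p h1 (by linarith)).trans ?_).trans
      ((mul_le_mul_of_nonneg_left h5
        (by norm_num : (0 : ℝ) ≤ (1 + 1 / 20 + (1 / 20) ^ 2 / 2))).trans
        (mul_le_mul_of_nonneg_right hde h6))
    exact ev_four_e44_e0 u (by linarith) (by linarith)
  · intro u h1
    have h4 : 0 ≤ (1 + (u - 2 / 3) / 4) ^ 4 := by
      have : 0 ≤ (u - 2 / 3) / 4 := div_nonneg (by linarith) (by norm_num)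
      positivity
    have hE : Real.exp (2 / 3) ≤ 97387 / 50000 := ev_up_2_3
    have hx : 0 ≤ 3 / 100 * u ^ 2 := by positivity
    have h5 := mul_le_mul_of_nonneg_right (taylor3_le_expE _ hx) (hq u)
    have h6 : 0 ≤ Real.exp (3 / 100 * u ^ 2) * (1 + u + 553 / 1000 * u ^ 2) :=
      mul_nonneg (Real.exp_nonneg _) (hq u)
    rw [Real.exp_add, mul_assoc]
    push_cast
    refine ((mul_le_mul_of_nonneg_right hE h4).trans ?_).trans
      ((mul_le_mul_of_nonneg_left h5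
        (by norm_num : (0 : ℝ) ≤ (1 + 1 / 20 + (1 / 20) ^ 2 / 2))).trans
        (mul_le_mul_of_nonneg_right hde h6))
    rcases le_total u (11 / 6) with hh | hh
    · exact ev_four_e44_g0 u (by linarith) (by linarith)
    rcases le_total u (29 / 12) with hh | hh
    · exact ev_four_e44_g1 u (by linarith) (by linarith)
    rcases le_total u (3) with hh | hh
    · exact ev_four_e44_g2 u (by linarith) (by linarith)
    exact ev_four_e44_t u (by linarith)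

theorem ev_four_e45_a0 (u : ℝ) (h1 : -1 ≤ u) (h2 : u ≤ 0) :
    1 + u + u ^ 2 / 2 + u ^ 3 / 6 + u ^ 4 / 24 ≤
      (1 + 1 / 10 + (1 / 10) ^ 2 / 2) * (1 + u + 219 / 500 * u ^ 2) := by
  obtain ⟨s, hs⟩ : ∃ s, s = u - (-1) := ⟨_, rfl⟩
  obtain ⟨t, ht⟩ : ∃ t, t = 0 - u := ⟨_, rfl⟩
  have hs0 : 0 ≤ s := by linarith
  have ht0 : 0 ≤ t := by linarith
  have h : 0 ≤
      10899 / 100000 * t ^ 4 + 35947 / 150000 * s * t ^ 3 + 29899 / 100000 * s ^ 2 * t ^ 2 +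
      63 / 200 * s ^ 3 * t + 21 / 200 * s ^ 4 := by
    positivity
  have e :
      10899 / 100000 * t ^ 4 + 35947 / 150000 * s * t ^ 3 + 29899 / 100000 * s ^ 2 * t ^ 2 +
      63 / 200 * s ^ 3 * t + 21 / 200 * s ^ 4 =
      (1 + 1 / 10 + (1 / 10) ^ 2 / 2) * (1 + u + 219 / 500 * u ^ 2) -
      (1 + u + u ^ 2 / 2 + u ^ 3 / 6 + u ^ 4 / 24) := by
    rw [hs, ht]
    ring
  rw [e] at h
  linarith

theorem ev_four_e45_b0 (u : ℝ) (h1 : -2 ≤ u) (h2 : u ≤ -1) :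
    36788 / 100000 *
      (1 + (u + 1) + (u + 1) ^ 2 / 2 + (u + 1) ^ 3 / 6 + (u + 1) ^ 4 / 24) ≤
      (1 + 1 / 10 + (1 / 10) ^ 2 / 2) * (1 + u + 219 / 500 * u ^ 2) := by
  obtain ⟨s, hs⟩ : ∃ s, s = u - (-2) := ⟨_, rfl⟩
  obtain ⟨t, ht⟩ : ∃ t, t = -1 - u := ⟨_, rfl⟩
  have hs0 : 0 ≤ s := by linarith
  have ht0 : 0 ≤ t := by linarith
  have h : 0 ≤
      138601 / 200000 * t ^ 4 + 54553 / 30000 * s * t ^ 3 + 168929 / 100000 * s ^ 2 * t ^ 2 +
      6953 / 10000 * s ^ 3 * t + 11611 / 100000 * s ^ 4 := by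
    positivity
  have e :
      138601 / 200000 * t ^ 4 + 54553 / 30000 * s * t ^ 3 + 168929 / 100000 * s ^ 2 * t ^ 2 +
      6953 / 10000 * s ^ 3 * t + 11611 / 100000 * s ^ 4 =
      (1 + 1 / 10 + (1 / 10) ^ 2 / 2) * (1 + u + 219 / 500 * u ^ 2) -
      (36788 / 100000 *
      (1 + (u + 1) + (u + 1) ^ 2 / 2 + (u + 1) ^ 3 / 6 + (u + 1) ^ 4 / 24)) := by
    rw [hs, ht]
    ring
  rw [e] at h
  linarith

theorem ev_four_e45_c0 (u : ℝ) (h1 : -3 ≤ u) (h2 : u ≤ -2) :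
    13534 / 100000 *
      (1 + (u + 2) + (u + 2) ^ 2 / 2 + (u + 2) ^ 3 / 6 + (u + 2) ^ 4 / 24) ≤
      (1 + 1 / 10 + (1 / 10) ^ 2 / 2) * (1 + u + 219 / 500 * u ^ 2) := by
  obtain ⟨s, hs⟩ : ∃ s, s = u - (-3) := ⟨_, rfl⟩
  obtain ⟨t, ht⟩ : ∃ t, t = -2 - u := ⟨_, rfl⟩
  have hs0 : 0 ≤ s := by linarith
  have ht0 : 0 ≤ t := by linarith
  have h : 0 ≤
      838063 / 400000 * t ^ 4 + 1960973 / 300000 * s * t ^ 3 +
      374447 / 50000 * s ^ 2 * t ^ 2 + 187439 / 50000 * s ^ 3 * t + 34781 / 50000 * s ^ 4 := by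
    positivity
  have e :
      838063 / 400000 * t ^ 4 + 1960973 / 300000 * s * t ^ 3 +
      374447 / 50000 * s ^ 2 * t ^ 2 + 187439 / 50000 * s ^ 3 * t + 34781 / 50000 * s ^ 4 =
      (1 + 1 / 10 + (1 / 10) ^ 2 / 2) * (1 + u + 219 / 500 * u ^ 2) -
      (13534 / 100000 *
      (1 + (u + 2) + (u + 2) ^ 2 / 2 + (u + 2) ^ 3 / 6 + (u + 2) ^ 4 / 24)) := by
    rw [hs, ht]
    ring
  rw [e] at h
  linarith

theorem ev_four_e45_d (u : ℝ) (h2 : u ≤ -3) :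
    4979 / 100000 ≤
      (1 + 1 / 10 + (1 / 10) ^ 2 / 2) * (1 + u + 219 / 500 * u ^ 2) := by
  obtain ⟨s, hs⟩ : ∃ s, s = -3 - u := ⟨_, rfl⟩
  have hs0 : 0 ≤ s := by linarith
  have h : 0 ≤
      52403 / 25000 + 89947 / 50000 * s + 48399 / 100000 * s ^ 2 := by
    positivity
  have e :
      52403 / 25000 + 89947 / 50000 * s + 48399 / 100000 * s ^ 2 =
      (1 + 1 / 10 + (1 / 10) ^ 2 / 2) * (1 + u + 219 / 500 * u ^ 2) -
      (4979 / 100000) := by
    rw [hs]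
    ring
  rw [e] at h
  linarith

theorem ev_four_e45_e0 (u : ℝ) (h1 : 0 ≤ u) (h2 : u ≤ 2 / 3) :
    1 + u + u ^ 2 / 2 + u ^ 3 / 6 + u ^ 4 / 24 + u ^ 5 / 100 ≤
      (1 + 1 / 10 + (1 / 10) ^ 2 / 2) * ((1 + 1 / 25 * u ^ 2) *
      (1 + u + 219 / 500 * u ^ 2)) := by
  obtain ⟨s, hs⟩ : ∃ s, s = u - (0) := ⟨_, rfl⟩
  obtain ⟨t, ht⟩ : ∃ t, t = 2 / 3 - u := ⟨_, rfl⟩
  have hs0 : 0 ≤ s := by linarith
  have ht0 : 0 ≤ t := by linarith
  have h : 0 ≤
      5103 / 6400 * t ^ 5 + 28917 / 6400 * s * t ^ 4 + 8155863 / 800000 * s ^ 2 * t ^ 3 +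
      8938149 / 800000 * s ^ 3 * t ^ 2 + 58138319 / 10000000 * s ^ 4 * t +
      11050369 / 10000000 * s ^ 5 := by
    positivity
  have e :
      5103 / 6400 * t ^ 5 + 28917 / 6400 * s * t ^ 4 + 8155863 / 800000 * s ^ 2 * t ^ 3 +
      8938149 / 800000 * s ^ 3 * t ^ 2 + 58138319 / 10000000 * s ^ 4 * t +
      11050369 / 10000000 * s ^ 5 =
      (1 + 1 / 10 + (1 / 10) ^ 2 / 2) * ((1 + 1 / 25 * u ^ 2) *
      (1 + u + 219 / 500 * u ^ 2)) -
      (1 + u + u ^ 2 / 2 + u ^ 3 / 6 + u ^ 4 / 24 + u ^ 5 / 100) := by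
    rw [hs, ht]
    ring
  rw [e] at h
  linarith

theorem ev_four_e45_g0 (u : ℝ) (h1 : 2 / 3 ≤ u) (h2 : u ≤ 11 / 6) :
    97387 / 50000 * (1 + (u - 2 / 3) / 4) ^ 4 ≤
      (1 + 1 / 10 + (1 / 10) ^ 2 / 2) * ((1 + (1 / 25 * u ^ 2) + (1 / 25 * u ^ 2) ^ 2 / 2 +
      (1 / 25 * u ^ 2) ^ 3 / 6) *
      (1 + u + 219 / 500 * u ^ 2)) := by
  obtain ⟨s, hs⟩ : ∃ s, s = u - (2 / 3) := ⟨_, rfl⟩
  obtain ⟨t, ht⟩ : ∃ t, t = 11 / 6 - u := ⟨_, rfl⟩
  have hs0 : 0 ≤ s := by linarith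
  have ht0 : 0 ≤ t := by linarith
  have h : 0 ≤
      11967685512592 / 281484423828125 * t ^ 8 +
      90539971091624 / 281484423828125 * s * t ^ 7 +
      83552954653341 / 80424121093750 * s ^ 2 * t ^ 6 +
      595692693701327 / 321696484375000 * s ^ 3 * t ^ 5 +
      4049096835863119 / 2058857500000000 * s ^ 4 * t ^ 4 +
      3222960146266971 / 2573571875000000 * s ^ 5 * t ^ 3 +
      2343156500588489 / 5147143750000000 * s ^ 6 * t ^ 2 +
      1505693600858501 / 18015003125000000 * s ^ 7 * t +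
      429671377535217 / 72060012500000000 * s ^ 8 := by
    positivity
  have e :
      11967685512592 / 281484423828125 * t ^ 8 +
      90539971091624 / 281484423828125 * s * t ^ 7 +
      83552954653341 / 80424121093750 * s ^ 2 * t ^ 6 +
      595692693701327 / 321696484375000 * s ^ 3 * t ^ 5 +
      4049096835863119 / 2058857500000000 * s ^ 4 * t ^ 4 +
      3222960146266971 / 2573571875000000 * s ^ 5 * t ^ 3 +
      2343156500588489 / 5147143750000000 * s ^ 6 * t ^ 2 +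
      1505693600858501 / 18015003125000000 * s ^ 7 * t +
      429671377535217 / 72060012500000000 * s ^ 8 =
      (1 + 1 / 10 + (1 / 10) ^ 2 / 2) * ((1 + (1 / 25 * u ^ 2) + (1 / 25 * u ^ 2) ^ 2 / 2 +
      (1 / 25 * u ^ 2) ^ 3 / 6) *
      (1 + u + 219 / 500 * u ^ 2)) -
      (97387 / 50000 * (1 + (u - 2 / 3) / 4) ^ 4) := by
    rw [hs, ht]
    ring
  rw [e] at h
  linarith

theorem ev_four_e45_g1 (u : ℝ) (h1 : 11 / 6 ≤ u) (h2 : u ≤ 17 / 8) :
    97387 / 50000 * (1 + (u - 2 / 3) / 4) ^ 4 ≤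
      (1 + 1 / 10 + (1 / 10) ^ 2 / 2) * ((1 + (1 / 25 * u ^ 2) + (1 / 25 * u ^ 2) ^ 2 / 2 +
      (1 / 25 * u ^ 2) ^ 3 / 6) *
      (1 + u + 219 / 500 * u ^ 2)) := by
  obtain ⟨s, hs⟩ : ∃ s, s = u - (11 / 6) := ⟨_, rfl⟩
  obtain ⟨t, ht⟩ : ∃ t, t = 17 / 8 - u := ⟨_, rfl⟩
  have hs0 : 0 ≤ s := by linarith
  have ht0 : 0 ≤ t := by linarith
  have h : 0 ≤
      109995872649015552 / 281484423828125 * t ^ 8 +
      714501164670379264 / 281484423828125 * s * t ^ 7 +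
      280633259800458528 / 40212060546875 * s ^ 2 * t ^ 6 +
      422643386911632624 / 40212060546875 * s ^ 3 * t ^ 5 +
      75305790488567799 / 8042412109375 * s ^ 4 * t ^ 4 +
      199821075428126484 / 40212060546875 * s ^ 5 * t ^ 3 +
      60744976910807418 / 40212060546875 * s ^ 6 * t ^ 2 +
      69535043821118844 / 281484423828125 * s ^ 7 * t +
      380239974095484933 / 18015003125000000 * s ^ 8 := by
    positivity
  have e :
      109995872649015552 / 281484423828125 * t ^ 8 +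
      714501164670379264 / 281484423828125 * s * t ^ 7 +
      280633259800458528 / 40212060546875 * s ^ 2 * t ^ 6 +
      422643386911632624 / 40212060546875 * s ^ 3 * t ^ 5 +
      75305790488567799 / 8042412109375 * s ^ 4 * t ^ 4 +
      199821075428126484 / 40212060546875 * s ^ 5 * t ^ 3 +
      60744976910807418 / 40212060546875 * s ^ 6 * t ^ 2 +
      69535043821118844 / 281484423828125 * s ^ 7 * t +
      380239974095484933 / 18015003125000000 * s ^ 8 =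
      (1 + 1 / 10 + (1 / 10) ^ 2 / 2) * ((1 + (1 / 25 * u ^ 2) + (1 / 25 * u ^ 2) ^ 2 / 2 +
      (1 / 25 * u ^ 2) ^ 3 / 6) *
      (1 + u + 219 / 500 * u ^ 2)) -
      (97387 / 50000 * (1 + (u - 2 / 3) / 4) ^ 4) := by
    rw [hs, ht]
    ring
  rw [e] at h
  linarith

theorem ev_four_e45_g2 (u : ℝ) (h1 : 17 / 8 ≤ u) (h2 : u ≤ 29 / 12) :
    97387 / 50000 * (1 + (u - 2 / 3) / 4) ^ 4 ≤
      (1 + 1 / 10 + (1 / 10) ^ 2 / 2) * ((1 + (1 / 25 * u ^ 2) + (1 / 25 * u ^ 2) ^ 2 / 2 +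
      (1 / 25 * u ^ 2) ^ 3 / 6) *
      (1 + u + 219 / 500 * u ^ 2)) := by
  obtain ⟨s, hs⟩ : ∃ s, s = u - (17 / 8) := ⟨_, rfl⟩
  obtain ⟨t, ht⟩ : ∃ t, t = 29 / 12 - u := ⟨_, rfl⟩
  have hs0 : 0 ≤ s := by linarith
  have ht0 : 0 ≤ t := by linarith
  have h : 0 ≤
      380239974095484933 / 18015003125000000 * t ^ 8 +
      102099798811009557 / 1125937695312500 * s * t ^ 7 +
      66939531169763853 / 160848242187500 * s ^ 2 * t ^ 6 +
      74938095743621337 / 40212060546875 * s ^ 3 * t ^ 5 +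
      76885998081591123 / 16084824218750 * s ^ 4 * t ^ 4 +
      274097911927639068 / 40212060546875 * s ^ 5 * t ^ 3 +
      220171910856990972 / 40212060546875 * s ^ 6 * t ^ 2 +
      657257638402109552 / 281484423828125 * s ^ 7 * t +
      116240871687754852 / 281484423828125 * s ^ 8 := by
    positivity
  have e :
      380239974095484933 / 18015003125000000 * t ^ 8 +
      102099798811009557 / 1125937695312500 * s * t ^ 7 +
      66939531169763853 / 160848242187500 * s ^ 2 * t ^ 6 +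
      74938095743621337 / 40212060546875 * s ^ 3 * t ^ 5 +
      76885998081591123 / 16084824218750 * s ^ 4 * t ^ 4 +
      274097911927639068 / 40212060546875 * s ^ 5 * t ^ 3 +
      220171910856990972 / 40212060546875 * s ^ 6 * t ^ 2 +
      657257638402109552 / 281484423828125 * s ^ 7 * t +
      116240871687754852 / 281484423828125 * s ^ 8 =
      (1 + 1 / 10 + (1 / 10) ^ 2 / 2) * ((1 + (1 / 25 * u ^ 2) + (1 / 25 * u ^ 2) ^ 2 / 2 +
      (1 / 25 * u ^ 2) ^ 3 / 6) *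
      (1 + u + 219 / 500 * u ^ 2)) -
      (97387 / 50000 * (1 + (u - 2 / 3) / 4) ^ 4) := by
    rw [hs, ht]
    ring
  rw [e] at h
  linarith

theorem ev_four_e45_g3 (u : ℝ) (h1 : 29 / 12 ≤ u) (h2 : u ≤ 3) :
    97387 / 50000 * (1 + (u - 2 / 3) / 4) ^ 4 ≤
      (1 + 1 / 10 + (1 / 10) ^ 2 / 2) * ((1 + (1 / 25 * u ^ 2) + (1 / 25 * u ^ 2) ^ 2 / 2 +
      (1 / 25 * u ^ 2) ^ 3 / 6) *
      (1 + u + 219 / 500 * u ^ 2)) := by
  obtain ⟨s, hs⟩ : ∃ s, s = u - (29 / 12) := ⟨_, rfl⟩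
  obtain ⟨t, ht⟩ : ∃ t, t = 3 - u := ⟨_, rfl⟩
  have hs0 : 0 ≤ s := by linarith
  have ht0 : 0 ≤ t := by linarith
  have h : 0 ≤
      29060217921938713 / 18015003125000000 * t ^ 8 +
      11525512841421073 / 562968847656250 * s * t ^ 7 +
      35056662305452539 / 321696484375000 * s ^ 2 * t ^ 6 +
      51182970267552651 / 160848242187500 * s ^ 3 * t ^ 5 +
      72150825665424159 / 128678593750000 * s ^ 4 * t ^ 4 +
      24693977866620789 / 40212060546875 * s ^ 5 * t ^ 3 +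
      16497495442512738 / 40212060546875 * s ^ 6 * t ^ 2 +
      43200898976550384 / 281484423828125 * s ^ 7 * t +
      6950655221998032 / 281484423828125 * s ^ 8 := by
    positivity
  have e :
      29060217921938713 / 18015003125000000 * t ^ 8 +
      11525512841421073 / 562968847656250 * s * t ^ 7 +
      35056662305452539 / 321696484375000 * s ^ 2 * t ^ 6 +
      51182970267552651 / 160848242187500 * s ^ 3 * t ^ 5 +
      72150825665424159 / 128678593750000 * s ^ 4 * t ^ 4 +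
      24693977866620789 / 40212060546875 * s ^ 5 * t ^ 3 +
      16497495442512738 / 40212060546875 * s ^ 6 * t ^ 2 +
      43200898976550384 / 281484423828125 * s ^ 7 * t +
      6950655221998032 / 281484423828125 * s ^ 8 =
      (1 + 1 / 10 + (1 / 10) ^ 2 / 2) * ((1 + (1 / 25 * u ^ 2) + (1 / 25 * u ^ 2) ^ 2 / 2 +
      (1 / 25 * u ^ 2) ^ 3 / 6) *
      (1 + u + 219 / 500 * u ^ 2)) -
      (97387 / 50000 * (1 + (u - 2 / 3) / 4) ^ 4) := by
    rw [hs, ht]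
    ring
  rw [e] at h
  linarith

theorem ev_four_e45_t (u : ℝ) (h1 : 3 ≤ u) :
    97387 / 50000 * (1 + (u - 2 / 3) / 4) ^ 4 ≤
      (1 + 1 / 10 + (1 / 10) ^ 2 / 2) * ((1 + (1 / 25 * u ^ 2) + (1 / 25 * u ^ 2) ^ 2 / 2 +
      (1 / 25 * u ^ 2) ^ 3 / 6) *
      (1 + u + 219 / 500 * u ^ 2)) := by
  obtain ⟨s, hs⟩ : ∃ s, s = u - (3) := ⟨_, rfl⟩
  have hs0 : 0 ≤ s := by linarith
  have h : 0 ≤
      5363159893517 / 16200000000000 + 1367321737151 / 1350000000000 * s +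
      323109157541 / 300000000000 * s ^ 2 + 73958083847 / 150000000000 * s ^ 3 +
      4806699033 / 40000000000 * s ^ 4 + 28279823 / 1562500000 * s ^ 5 +
      18257473 / 9375000000 * s ^ 6 + 318019 / 2343750000 * s ^ 7 + 16133 / 3125000000 * s ^ 8 := by
    positivity
  have e :
      5363159893517 / 16200000000000 + 1367321737151 / 1350000000000 * s +
      323109157541 / 300000000000 * s ^ 2 + 73958083847 / 150000000000 * s ^ 3 +
      4806699033 / 40000000000 * s ^ 4 + 28279823 / 1562500000 * s ^ 5 +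
      18257473 / 9375000000 * s ^ 6 + 318019 / 2343750000 * s ^ 7 + 16133 / 3125000000 * s ^ 8 =
      (1 + 1 / 10 + (1 / 10) ^ 2 / 2) * ((1 + (1 / 25 * u ^ 2) + (1 / 25 * u ^ 2) ^ 2 / 2 +
      (1 / 25 * u ^ 2) ^ 3 / 6) *
      (1 + u + 219 / 500 * u ^ 2)) -
      (97387 / 50000 * (1 + (u - 2 / 3) / 4) ^ 4) := by
    rw [hs]
    ring
  rw [e] at h
  linarith

/-- `K = 4`: `(c, μ, P, δ) = (219 / 500, 1 / 25, 2 / 3, 1 / 10)` -/
theorem expFd_four_e45 : ExpFd 4 (219 / 500) (1 / 25) (2 / 3) (1 / 10) := by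
  have hde : (1 + 1 / 10 + (1 / 10) ^ 2 / 2) ≤ Real.exp (1 / 10) :=
    Real.quadratic_le_exp_of_nonneg (by norm_num)
  have hq : ∀ u : ℝ, 0 ≤ 1 + u + 219 / 500 * u ^ 2 := fun u => by
    nlinarith [sq_nonneg (u + 2), sq_nonneg u]
  have hR : ∀ (u x y : ℝ), x ≤ y →
      y ≤ (1 + 1 / 10 + (1 / 10) ^ 2 / 2) * (1 + u + 219 / 500 * u ^ 2) →
      x ≤ Real.exp (1 / 10) * (1 + u + 219 / 500 * u ^ 2) := fun u x y h1 h2 =>
    (h1.trans h2).trans (mul_le_mul_of_nonneg_right hde (hq u))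
  refine ExpFd.of (by norm_num) (by norm_num) (by norm_num) (by norm_num) (by norm_num) ?_ ?_ ?_
  · intro u h1
    rcases le_total u (-3) with h3 | h3
    · exact hR u _ _ (ev_exp_n3 h3) (ev_four_e45_d u h3)
    rcases le_total u (-2) with h4 | h4
    · refine hR u _ _ (ev_exp_n2 h4) ?_
      exact ev_four_e45_c0 u (by linarith) (by linarith)
    rcases le_total u (-1) with h5 | h5
    · refine hR u _ _ (ev_exp_n1 h5) ?_
      exact ev_four_e45_b0 u (by linarith) (by linarith)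
    refine hR u _ _ (ev_exp_n0 h1) ?_
    exact ev_four_e45_a0 u (by linarith) (by linarith)
  · intro u h1 h2
    have h5 := mul_le_mul_of_nonneg_right (Real.add_one_le_exp (1 / 25 * u ^ 2)) (hq u)
    rw [add_comm (1 / 25 * u ^ 2) 1] at h5
    have h6 : 0 ≤ Real.exp (1 / 25 * u ^ 2) * (1 + u + 219 / 500 * u ^ 2) :=
      mul_nonneg (Real.exp_nonneg _) (hq u)
    rw [Real.exp_add, mul_assoc]
    refine ((ev_exp_p h1 (by linarith)).trans ?_).trans
      ((mul_le_mul_of_nonneg_left h5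
        (by norm_num : (0 : ℝ) ≤ (1 + 1 / 10 + (1 / 10) ^ 2 / 2))).trans
        (mul_le_mul_of_nonneg_right hde h6))
    exact ev_four_e45_e0 u (by linarith) (by linarith)
  · intro u h1
    have h4 : 0 ≤ (1 + (u - 2 / 3) / 4) ^ 4 := by
      have : 0 ≤ (u - 2 / 3) / 4 := div_nonneg (by linarith) (by norm_num)
      positivity
    have hE : Real.exp (2 / 3) ≤ 97387 / 50000 := ev_up_2_3
    have hx : 0 ≤ 1 / 25 * u ^ 2 := by positivity
    have h5 := mul_le_mul_of_nonneg_right (taylor3_le_expE _ hx) (hq u)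
    have h6 : 0 ≤ Real.exp (1 / 25 * u ^ 2) * (1 + u + 219 / 500 * u ^ 2) :=
      mul_nonneg (Real.exp_nonneg _) (hq u)
    rw [Real.exp_add, mul_assoc]
    push_cast
    refine ((mul_le_mul_of_nonneg_right hE h4).trans ?_).trans
      ((mul_le_mul_of_nonneg_left h5
        (by norm_num : (0 : ℝ) ≤ (1 + 1 / 10 + (1 / 10) ^ 2 / 2))).trans
        (mul_le_mul_of_nonneg_right hde h6))
    rcases le_total u (11 / 6) with hh | hh
    · exact ev_four_e45_g0 u (by linarith) (by linarith)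
    rcases le_total u (17 / 8) with hh | hh
    · exact ev_four_e45_g1 u (by linarith) (by linarith)
    rcases le_total u (29 / 12) with hh | hh
    · exact ev_four_e45_g2 u (by linarith) (by linarith)
    rcases le_total u (3) with hh | hh
    · exact ev_four_e45_g3 u (by linarith) (by linarith)
    exact ev_four_e45_t u (by linarith)

end

end Pool.Agent.TSM
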