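import Pool.Agent.TSM.EvenDB

set_option autoImplicit false

/-!
# Constants of the even rule with a constant, K = 6 (MP_d27362_co, helper2)
-/

namespace Pool.Agent.TSM

noncomputable section


theorem ev_six_e00_a0 (u : ℝ) (h1 : -1 ≤ u) (h2 : u ≤ -1 / 2) :
    1 + u + u ^ 2 / 2 + u ^ 3 / 6 + u ^ 4 / 24 ≤
      (1 + 1 / 500 + (1 / 500) ^ 2 / 2) * (1 + u + 447 / 1000 * u ^ 2) := by
  obtain ⟨s, hs⟩ : ∃ s, s = u - (-1) := ⟨_, rfl⟩
  obtain ⟨t, ht⟩ : ∃ t, t = -1 / 2 - u := ⟨_, rfl⟩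
  have hs0 : 0 ≤ s := by linarith
  have ht0 : 0 ≤ t := by linarith
  have h : 0 ≤
      36447447 / 31250000 * t ^ 4 + 267028523 / 93750000 * s * t ^ 3 +
      292322811 / 125000000 * s ^ 2 * t ^ 2 + 49845341 / 62500000 * s ^ 3 * t +
      37223341 / 375000000 * s ^ 4 := by
    positivity
  have e :
      36447447 / 31250000 * t ^ 4 + 267028523 / 93750000 * s * t ^ 3 +
      292322811 / 125000000 * s ^ 2 * t ^ 2 + 49845341 / 62500000 * s ^ 3 * t +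
      37223341 / 375000000 * s ^ 4 =
      (1 + 1 / 500 + (1 / 500) ^ 2 / 2) * (1 + u + 447 / 1000 * u ^ 2) -
      (1 + u + u ^ 2 / 2 + u ^ 3 / 6 + u ^ 4 / 24) := by
    rw [hs, ht]
    ring
  rw [e] at h
  linarith

theorem ev_six_e00_a1 (u : ℝ) (h1 : -1 / 2 ≤ u) (h2 : u ≤ -1 / 4) :
    1 + u + u ^ 2 / 2 + u ^ 3 / 6 + u ^ 4 / 24 ≤
      (1 + 1 / 500 + (1 / 500) ^ 2 / 2) * (1 + u + 447 / 1000 * u ^ 2) := by
  obtain ⟨s, hs⟩ : ∃ s, s = u - (-1 / 2) := ⟨_, rfl⟩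
  obtain ⟨t, ht⟩ : ∃ t, t = -1 / 4 - u := ⟨_, rfl⟩
  have hs0 : 0 ≤ s := by linarith
  have ht0 : 0 ≤ t := by linarith
  have h : 0 ≤
      37223341 / 23437500 * t ^ 4 + 24601341 / 7812500 * s * t ^ 3 +
      65126811 / 31250000 * s ^ 2 * t ^ 2 + 34718023 / 46875000 * s ^ 3 * t +
      5490697 / 31250000 * s ^ 4 := by
    positivity
  have e :
      37223341 / 23437500 * t ^ 4 + 24601341 / 7812500 * s * t ^ 3 +
      65126811 / 31250000 * s ^ 2 * t ^ 2 + 34718023 / 46875000 * s ^ 3 * t +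
      5490697 / 31250000 * s ^ 4 =
      (1 + 1 / 500 + (1 / 500) ^ 2 / 2) * (1 + u + 447 / 1000 * u ^ 2) -
      (1 + u + u ^ 2 / 2 + u ^ 3 / 6 + u ^ 4 / 24) := by
    rw [hs, ht]
    ring
  rw [e] at h
  linarith

theorem ev_six_e00_a2 (u : ℝ) (h1 : -1 / 4 ≤ u) (h2 : u ≤ 0) :
    1 + u + u ^ 2 / 2 + u ^ 3 / 6 + u ^ 4 / 24 ≤
      (1 + 1 / 500 + (1 / 500) ^ 2 / 2) * (1 + u + 447 / 1000 * u ^ 2) := by
  obtain ⟨s, hs⟩ : ∃ s, s = u - (-1 / 4) := ⟨_, rfl⟩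
  obtain ⟨t, ht⟩ : ∃ t, t = 0 - u := ⟨_, rfl⟩
  have hs0 : 0 ≤ s := by linarith
  have ht0 : 0 ≤ t := by linarith
  have h : 0 ≤
      5490697 / 31250000 * t ^ 4 + 31170341 / 46875000 * s * t ^ 3 +
      58031447 / 31250000 * s ^ 2 * t ^ 2 + 6006 / 3125 * s ^ 3 * t + 8008 / 15625 * s ^ 4 := by
    positivity
  have e :
      5490697 / 31250000 * t ^ 4 + 31170341 / 46875000 * s * t ^ 3 +
      58031447 / 31250000 * s ^ 2 * t ^ 2 + 6006 / 3125 * s ^ 3 * t + 8008 / 15625 * s ^ 4 =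
      (1 + 1 / 500 + (1 / 500) ^ 2 / 2) * (1 + u + 447 / 1000 * u ^ 2) -
      (1 + u + u ^ 2 / 2 + u ^ 3 / 6 + u ^ 4 / 24) := by
    rw [hs, ht]
    ring
  rw [e] at h
  linarith

theorem ev_six_e00_b0 (u : ℝ) (h1 : -2 ≤ u) (h2 : u ≤ -1) :
    36788 / 100000 *
      (1 + (u + 1) + (u + 1) ^ 2 / 2 + (u + 1) ^ 3 / 6 + (u + 1) ^ 4 / 24) ≤
      (1 + 1 / 500 + (1 / 500) ^ 2 / 2) * (1 + u + 447 / 1000 * u ^ 2) := by
  obtain ⟨s, hs⟩ : ∃ s, s = u - (-2) := ⟨_, rfl⟩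
  obtain ⟨t, ht⟩ : ∃ t, t = -1 - u := ⟨_, rfl⟩
  have hs0 : 0 ≤ s := by linarith
  have ht0 : 0 ≤ t := by linarith
  have h : 0 ≤
      40726411 / 62500000 * t ^ 4 + 635357273 / 375000000 * s * t ^ 3 +
      764523811 / 500000000 * s ^ 2 * t ^ 2 + 145431841 / 250000000 * s ^ 3 * t +
      40007447 / 500000000 * s ^ 4 := by
    positivity
  have e :
      40726411 / 62500000 * t ^ 4 + 635357273 / 375000000 * s * t ^ 3 +
      764523811 / 500000000 * s ^ 2 * t ^ 2 + 145431841 / 250000000 * s ^ 3 * t +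
      40007447 / 500000000 * s ^ 4 =
      (1 + 1 / 500 + (1 / 500) ^ 2 / 2) * (1 + u + 447 / 1000 * u ^ 2) -
      (36788 / 100000 *
      (1 + (u + 1) + (u + 1) ^ 2 / 2 + (u + 1) ^ 3 / 6 + (u + 1) ^ 4 / 24)) := by
    rw [hs, ht]
    ring
  rw [e] at h
  linarith

theorem ev_six_e00_c0 (u : ℝ) (h1 : -3 ≤ u) (h2 : u ≤ -2) :
    13534 / 100000 *
      (1 + (u + 2) + (u + 2) ^ 2 / 2 + (u + 2) ^ 3 / 6 + (u + 2) ^ 4 / 24) ≤
      (1 + 1 / 500 + (1 / 500) ^ 2 / 2) * (1 + u + 447 / 1000 * u ^ 2) := by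
  obtain ⟨s, hs⟩ : ∃ s, s = u - (-3) := ⟨_, rfl⟩
  obtain ⟨t, ht⟩ : ∃ t, t = -2 - u := ⟨_, rfl⟩
  have hs0 : 0 ≤ s := by linarith
  have ht0 : 0 ≤ t := by linarith
  have h : 0 ≤
      988148773 / 500000000 * t ^ 4 + 926206423 / 150000000 * s * t ^ 3 +
      3540201539 / 500000000 * s ^ 2 * t ^ 2 + 88546697 / 25000000 * s ^ 3 * t +
      81779697 / 125000000 * s ^ 4 := by
    positivity
  have e :
      988148773 / 500000000 * t ^ 4 + 926206423 / 150000000 * s * t ^ 3 +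
      3540201539 / 500000000 * s ^ 2 * t ^ 2 + 88546697 / 25000000 * s ^ 3 * t +
      81779697 / 125000000 * s ^ 4 =
      (1 + 1 / 500 + (1 / 500) ^ 2 / 2) * (1 + u + 447 / 1000 * u ^ 2) -
      (13534 / 100000 *
      (1 + (u + 2) + (u + 2) ^ 2 / 2 + (u + 2) ^ 3 / 6 + (u + 2) ^ 4 / 24)) := by
    rw [hs, ht]
    ring
  rw [e] at h
  linarith

theorem ev_six_e00_d (u : ℝ) (h2 : u ≤ -3) :
    4979 / 100000 ≤
      (1 + 1 / 500 + (1 / 500) ^ 2 / 2) * (1 + u + 447 / 1000 * u ^ 2) := by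
  obtain ⟨s, hs⟩ : ∃ s, s = -3 - u := ⟨_, rfl⟩
  have hs0 : 0 ≤ s := by linarith
  have h : 0 ≤
      988630023 / 500000000 + 421341841 / 250000000 * s + 223947447 / 500000000 * s ^ 2 := by
    positivity
  have e :
      988630023 / 500000000 + 421341841 / 250000000 * s + 223947447 / 500000000 * s ^ 2 =
      (1 + 1 / 500 + (1 / 500) ^ 2 / 2) * (1 + u + 447 / 1000 * u ^ 2) -
      (4979 / 100000) := by
    rw [hs]
    ring
  rw [e] at h
  linarith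

theorem ev_six_e00_g0 (u : ℝ) (h1 : 0 ≤ u) (h2 : u ≤ 3 / 2) :
    1 * (1 + (u - 0) / 6) ^ 6 ≤
      (1 + 1 / 500 + (1 / 500) ^ 2 / 2) * ((1 + (1 / 25 * u ^ 2) + (1 / 25 * u ^ 2) ^ 2 / 2 +
      (1 / 25 * u ^ 2) ^ 3 / 6) *
      (1 + u + 447 / 1000 * u ^ 2)) := by
  obtain ⟨s, hs⟩ : ∃ s, s = u - (0) := ⟨_, rfl⟩
  obtain ⟨t, ht⟩ : ∃ t, t = 3 / 2 - u := ⟨_, rfl⟩
  have hs0 : 0 ≤ s := by linarith
  have ht0 : 0 ≤ t := by linarith
  have h : 0 ≤
      8008 / 102515625 * t ^ 8 + 76076 / 102515625 * s * t ^ 7 +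
      475041383 / 51257812500 * s ^ 2 * t ^ 6 + 320202473 / 8542968750 * s ^ 3 * t ^ 5 +
      120127653109 / 1708593750000 * s ^ 4 * t ^ 4 +
      59955787123 / 854296875000 * s ^ 5 * t ^ 3 +
      39003916943983 / 1025156250000000 * s ^ 6 * t ^ 2 +
      5339737230673 / 512578125000000 * s ^ 7 * t +
      115495703022889 / 102515625000000000 * s ^ 8 := by
    positivity
  have e :
      8008 / 102515625 * t ^ 8 + 76076 / 102515625 * s * t ^ 7 +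
      475041383 / 51257812500 * s ^ 2 * t ^ 6 + 320202473 / 8542968750 * s ^ 3 * t ^ 5 +
      120127653109 / 1708593750000 * s ^ 4 * t ^ 4 +
      59955787123 / 854296875000 * s ^ 5 * t ^ 3 +
      39003916943983 / 1025156250000000 * s ^ 6 * t ^ 2 +
      5339737230673 / 512578125000000 * s ^ 7 * t +
      115495703022889 / 102515625000000000 * s ^ 8 =
      (1 + 1 / 500 + (1 / 500) ^ 2 / 2) * ((1 + (1 / 25 * u ^ 2) + (1 / 25 * u ^ 2) ^ 2 / 2 +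
      (1 / 25 * u ^ 2) ^ 3 / 6) *
      (1 + u + 447 / 1000 * u ^ 2)) -
      (1 * (1 + (u - 0) / 6) ^ 6) := by
    rw [hs, ht]
    ring
  rw [e] at h
  linarith

theorem ev_six_e00_g1 (u : ℝ) (h1 : 3 / 2 ≤ u) (h2 : u ≤ 9 / 4) :
    1 * (1 + (u - 0) / 6) ^ 6 ≤
      (1 + 1 / 500 + (1 / 500) ^ 2 / 2) * ((1 + (1 / 25 * u ^ 2) + (1 / 25 * u ^ 2) ^ 2 / 2 +
      (1 / 25 * u ^ 2) ^ 3 / 6) *
      (1 + u + 447 / 1000 * u ^ 2)) := by
  obtain ⟨s, hs⟩ : ∃ s, s = u - (3 / 2) := ⟨_, rfl⟩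
  obtain ⟨t, ht⟩ : ∃ t, t = 9 / 4 - u := ⟨_, rfl⟩
  have hs0 : 0 ≤ s := by linarith
  have ht0 : 0 ≤ t := by linarith
  have h : 0 ≤
      115495703022889 / 400451660156250 * t ^ 8 +
      425987356603684 / 200225830078125 * s * t ^ 7 +
      1322301560917466 / 200225830078125 * s ^ 2 * t ^ 6 +
      1491657987315757 / 133483886718750 * s ^ 3 * t ^ 5 +
      2383014021716471 / 213574218750000 * s ^ 4 * t ^ 4 +
      889302203677547 / 133483886718750 * s ^ 5 * t ^ 3 +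
      7469086267780121 / 3203613281250000 * s ^ 6 * t ^ 2 +
      3025356276105443 / 6407226562500000 * s ^ 7 * t +
      5646353298225229 / 102515625000000000 * s ^ 8 := by
    positivity
  have e :
      115495703022889 / 400451660156250 * t ^ 8 +
      425987356603684 / 200225830078125 * s * t ^ 7 +
      1322301560917466 / 200225830078125 * s ^ 2 * t ^ 6 +
      1491657987315757 / 133483886718750 * s ^ 3 * t ^ 5 +
      2383014021716471 / 213574218750000 * s ^ 4 * t ^ 4 +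
      889302203677547 / 133483886718750 * s ^ 5 * t ^ 3 +
      7469086267780121 / 3203613281250000 * s ^ 6 * t ^ 2 +
      3025356276105443 / 6407226562500000 * s ^ 7 * t +
      5646353298225229 / 102515625000000000 * s ^ 8 =
      (1 + 1 / 500 + (1 / 500) ^ 2 / 2) * ((1 + (1 / 25 * u ^ 2) + (1 / 25 * u ^ 2) ^ 2 / 2 +
      (1 / 25 * u ^ 2) ^ 3 / 6) *
      (1 + u + 447 / 1000 * u ^ 2)) -
      (1 * (1 + (u - 0) / 6) ^ 6) := by
    rw [hs, ht]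
    ring
  rw [e] at h
  linarith

theorem ev_six_e00_g2 (u : ℝ) (h1 : 9 / 4 ≤ u) (h2 : u ≤ 3) :
    1 * (1 + (u - 0) / 6) ^ 6 ≤
      (1 + 1 / 500 + (1 / 500) ^ 2 / 2) * ((1 + (1 / 25 * u ^ 2) + (1 / 25 * u ^ 2) ^ 2 / 2 +
      (1 / 25 * u ^ 2) ^ 3 / 6) *
      (1 + u + 447 / 1000 * u ^ 2)) := by
  obtain ⟨s, hs⟩ : ∃ s, s = u - (9 / 4) := ⟨_, rfl⟩
  obtain ⟨t, ht⟩ : ∃ t, t = 3 - u := ⟨_, rfl⟩
  have hs0 : 0 ≤ s := by linarith
  have ht0 : 0 ≤ t := by linarith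
  have h : 0 ≤
      5646353298225229 / 102515625000000000 * t ^ 8 +
      1310498511059893 / 3203613281250000 * s * t ^ 7 +
      12107657757660643 / 6407226562500000 * s ^ 2 * t ^ 6 +
      5067441225956231 / 800903320312500 * s ^ 3 * t ^ 5 +
      1113258607326601 / 80090332031250 * s ^ 4 * t ^ 4 +
      3786350350991336 / 200225830078125 * s ^ 5 * t ^ 3 +
      3064979484666424 / 200225830078125 * s ^ 6 * t ^ 2 +
      1354285269906752 / 200225830078125 * s ^ 7 * t +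
      251884699220992 / 200225830078125 * s ^ 8 := by
    positivity
  have e :
      5646353298225229 / 102515625000000000 * t ^ 8 +
      1310498511059893 / 3203613281250000 * s * t ^ 7 +
      12107657757660643 / 6407226562500000 * s ^ 2 * t ^ 6 +
      5067441225956231 / 800903320312500 * s ^ 3 * t ^ 5 +
      1113258607326601 / 80090332031250 * s ^ 4 * t ^ 4 +
      3786350350991336 / 200225830078125 * s ^ 5 * t ^ 3 +
      3064979484666424 / 200225830078125 * s ^ 6 * t ^ 2 +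
      1354285269906752 / 200225830078125 * s ^ 7 * t +
      251884699220992 / 200225830078125 * s ^ 8 =
      (1 + 1 / 500 + (1 / 500) ^ 2 / 2) * ((1 + (1 / 25 * u ^ 2) + (1 / 25 * u ^ 2) ^ 2 / 2 +
      (1 / 25 * u ^ 2) ^ 3 / 6) *
      (1 + u + 447 / 1000 * u ^ 2)) -
      (1 * (1 + (u - 0) / 6) ^ 6) := by
    rw [hs, ht]
    ring
  rw [e] at h
  linarith

theorem ev_six_e00_t (u : ℝ) (h1 : 3 ≤ u) :
    1 * (1 + (u - 0) / 6) ^ 6 ≤
      (1 + 1 / 500 + (1 / 500) ^ 2 / 2) * ((1 + (1 / 25 * u ^ 2) + (1 / 25 * u ^ 2) ^ 2 / 2 +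
      (1 / 25 * u ^ 2) ^ 3 / 6) *
      (1 + u + 447 / 1000 * u ^ 2)) := by
  obtain ⟨s, hs⟩ : ∃ s, s = u - (3) := ⟨_, rfl⟩
  have hs0 : 0 ≤ s := by linarith
  have h : 0 ≤
      245981151583 / 1953125000000 + 3441626686777 / 7812500000000 * s +
      8857696854263 / 15625000000000 * s ^ 2 + 1245736321023 / 3906250000000 * s ^ 3 +
      859726401323 / 9375000000000 * s ^ 4 + 3275848813913 / 210937500000000 * s ^ 5 +
      20229298807067 / 11390625000000000 * s ^ 6 + 367233733 / 2929687500000 * s ^ 7 +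
      74649149 / 15625000000000 * s ^ 8 := by
    positivity
  have e :
      245981151583 / 1953125000000 + 3441626686777 / 7812500000000 * s +
      8857696854263 / 15625000000000 * s ^ 2 + 1245736321023 / 3906250000000 * s ^ 3 +
      859726401323 / 9375000000000 * s ^ 4 + 3275848813913 / 210937500000000 * s ^ 5 +
      20229298807067 / 11390625000000000 * s ^ 6 + 367233733 / 2929687500000 * s ^ 7 +
      74649149 / 15625000000000 * s ^ 8 =
      (1 + 1 / 500 + (1 / 500) ^ 2 / 2) * ((1 + (1 / 25 * u ^ 2) + (1 / 25 * u ^ 2) ^ 2 / 2 +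
      (1 / 25 * u ^ 2) ^ 3 / 6) *
      (1 + u + 447 / 1000 * u ^ 2)) -
      (1 * (1 + (u - 0) / 6) ^ 6) := by
    rw [hs]
    ring
  rw [e] at h
  linarith

/-- `K = 6`: `(c, μ, P, δ) = (447 / 1000, 1 / 25, 0, 1 / 500)` -/
theorem expFd_six_e00 : ExpFd 6 (447 / 1000) (1 / 25) (0) (1 / 500) := by
  have hde : (1 + 1 / 500 + (1 / 500) ^ 2 / 2) ≤ Real.exp (1 / 500) :=
    Real.quadratic_le_exp_of_nonneg (by norm_num)
  have hq : ∀ u : ℝ, 0 ≤ 1 + u + 447 / 1000 * u ^ 2 := fun u => by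
    nlinarith [sq_nonneg (u + 2), sq_nonneg u]
  have hR : ∀ (u x y : ℝ), x ≤ y →
      y ≤ (1 + 1 / 500 + (1 / 500) ^ 2 / 2) * (1 + u + 447 / 1000 * u ^ 2) →
      x ≤ Real.exp (1 / 500) * (1 + u + 447 / 1000 * u ^ 2) := fun u x y h1 h2 =>
    (h1.trans h2).trans (mul_le_mul_of_nonneg_right hde (hq u))
  refine ExpFd.of (by norm_num) (by norm_num) (by norm_num) (by norm_num) (by norm_num) ?_ ?_ ?_
  · intro u h1
    rcases le_total u (-3) with h3 | h3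
    · exact hR u _ _ (ev_exp_n3 h3) (ev_six_e00_d u h3)
    rcases le_total u (-2) with h4 | h4
    · refine hR u _ _ (ev_exp_n2 h4) ?_
      exact ev_six_e00_c0 u (by linarith) (by linarith)
    rcases le_total u (-1) with h5 | h5
    · refine hR u _ _ (ev_exp_n1 h5) ?_
      exact ev_six_e00_b0 u (by linarith) (by linarith)
    refine hR u _ _ (ev_exp_n0 h1) ?_
    rcases le_total u (-1 / 2) with hh | hh
    · exact ev_six_e00_a0 u (by linarith) (by linarith)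
    rcases le_total u (-1 / 4) with hh | hh
    · exact ev_six_e00_a1 u (by linarith) (by linarith)
    exact ev_six_e00_a2 u (by linarith) (by linarith)
  · intro u h1 h2
    have h7 : u = 0 := le_antisymm h2 h1
    rw [h7, Real.exp_zero]
    have := Real.add_one_le_exp ((1 / 500 : ℝ) + 1 / 25 * 0 ^ 2)
    linarith
  · intro u h1
    have h4 : 0 ≤ (1 + (u - 0) / 6) ^ 6 := by
      have : 0 ≤ (u - 0) / 6 := div_nonneg (by linarith) (by norm_num)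
      positivity
    have hE : Real.exp (0) ≤ 1 := Real.exp_zero.le
    have hx : 0 ≤ 1 / 25 * u ^ 2 := by positivity
    have h5 := mul_le_mul_of_nonneg_right (taylor3_le_expE _ hx) (hq u)
    have h6 : 0 ≤ Real.exp (1 / 25 * u ^ 2) * (1 + u + 447 / 1000 * u ^ 2) :=
      mul_nonneg (Real.exp_nonneg _) (hq u)
    rw [Real.exp_add, mul_assoc]
    push_cast
    refine ((mul_le_mul_of_nonneg_right hE h4).trans ?_).trans
      ((mul_le_mul_of_nonneg_left h5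
        (by norm_num : (0 : ℝ) ≤ (1 + 1 / 500 + (1 / 500) ^ 2 / 2))).trans
        (mul_le_mul_of_nonneg_right hde h6))
    rcases le_total u (3 / 2) with hh | hh
    · exact ev_six_e00_g0 u (by linarith) (by linarith)
    rcases le_total u (9 / 4) with hh | hh
    · exact ev_six_e00_g1 u (by linarith) (by linarith)
    rcases le_total u (3) with hh | hh
    · exact ev_six_e00_g2 u (by linarith) (by linarith)
    exact ev_six_e00_t u (by linarith)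

theorem ev_six_e01_a0 (u : ℝ) (h1 : -1 ≤ u) (h2 : u ≤ -1 / 2) :
    1 + u + u ^ 2 / 2 + u ^ 3 / 6 + u ^ 4 / 24 ≤
      (1 + 1 / 200 + (1 / 200) ^ 2 / 2) * (1 + u + 21 / 50 * u ^ 2) := by
  obtain ⟨s, hs⟩ : ∃ s, s = u - (-1) := ⟨_, rfl⟩
  obtain ⟨t, ht⟩ : ∃ t, t = -1 / 2 - u := ⟨_, rfl⟩
  have hs0 : 0 ≤ s := by linarith
  have ht0 : 0 ≤ t := by linarith
  have h : 0 ≤
      188421 / 250000 * t ^ 4 + 153233 / 93750 * s * t ^ 3 +
      1069773 / 1000000 * s ^ 2 * t ^ 2 + 125413 / 500000 * s ^ 3 * t +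
      60563 / 3000000 * s ^ 4 := by
    positivity
  have e :
      188421 / 250000 * t ^ 4 + 153233 / 93750 * s * t ^ 3 +
      1069773 / 1000000 * s ^ 2 * t ^ 2 + 125413 / 500000 * s ^ 3 * t +
      60563 / 3000000 * s ^ 4 =
      (1 + 1 / 200 + (1 / 200) ^ 2 / 2) * (1 + u + 21 / 50 * u ^ 2) -
      (1 + u + u ^ 2 / 2 + u ^ 3 / 6 + u ^ 4 / 24) := by
    rw [hs, ht]
    ring
  rw [e] at h
  linarith

theorem ev_six_e01_a1 (u : ℝ) (h1 : -1 / 2 ≤ u) (h2 : u ≤ -3 / 8) :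
    1 + u + u ^ 2 / 2 + u ^ 3 / 6 + u ^ 4 / 24 ≤
      (1 + 1 / 200 + (1 / 200) ^ 2 / 2) * (1 + u + 21 / 50 * u ^ 2) := by
  obtain ⟨s, hs⟩ : ∃ s, s = u - (-1 / 2) := ⟨_, rfl⟩
  obtain ⟨t, ht⟩ : ∃ t, t = -3 / 8 - u := ⟨_, rfl⟩
  have hs0 : 0 ≤ s := by linarith
  have ht0 : 0 ≤ t := by linarith
  have h : 0 ≤
      242252 / 46875 * t ^ 4 + 458782 / 46875 * s * t ^ 3 + 335533 / 62500 * s ^ 2 * t ^ 2 +
      43141 / 31250 * s ^ 3 * t + 73703 / 125000 * s ^ 4 := by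
    positivity
  have e :
      242252 / 46875 * t ^ 4 + 458782 / 46875 * s * t ^ 3 + 335533 / 62500 * s ^ 2 * t ^ 2 +
      43141 / 31250 * s ^ 3 * t + 73703 / 125000 * s ^ 4 =
      (1 + 1 / 200 + (1 / 200) ^ 2 / 2) * (1 + u + 21 / 50 * u ^ 2) -
      (1 + u + u ^ 2 / 2 + u ^ 3 / 6 + u ^ 4 / 24) := by
    rw [hs, ht]
    ring
  rw [e] at h
  linarith

theorem ev_six_e01_a2 (u : ℝ) (h1 : -3 / 8 ≤ u) (h2 : u ≤ -1 / 4) :
    1 + u + u ^ 2 / 2 + u ^ 3 / 6 + u ^ 4 / 24 ≤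
      (1 + 1 / 200 + (1 / 200) ^ 2 / 2) * (1 + u + 21 / 50 * u ^ 2) := by
  obtain ⟨s, hs⟩ : ∃ s, s = u - (-3 / 8) := ⟨_, rfl⟩
  obtain ⟨t, ht⟩ : ∃ t, t = -1 / 4 - u := ⟨_, rfl⟩
  have hs0 : 0 ≤ s := by linarith
  have ht0 : 0 ≤ t := by linarith
  have h : 0 ≤
      73703 / 125000 * t ^ 4 + 20853 / 6250 * s * t ^ 3 + 702277 / 62500 * s ^ 2 * t ^ 2 +
      131143 / 9375 * s ^ 3 * t + 85271 / 15625 * s ^ 4 := by
    positivity
  have e :
      73703 / 125000 * t ^ 4 + 20853 / 6250 * s * t ^ 3 + 702277 / 62500 * s ^ 2 * t ^ 2 +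
      131143 / 9375 * s ^ 3 * t + 85271 / 15625 * s ^ 4 =
      (1 + 1 / 200 + (1 / 200) ^ 2 / 2) * (1 + u + 21 / 50 * u ^ 2) -
      (1 + u + u ^ 2 / 2 + u ^ 3 / 6 + u ^ 4 / 24) := by
    rw [hs, ht]
    ring
  rw [e] at h
  linarith

theorem ev_six_e01_a3 (u : ℝ) (h1 : -1 / 4 ≤ u) (h2 : u ≤ 0) :
    1 + u + u ^ 2 / 2 + u ^ 3 / 6 + u ^ 4 / 24 ≤
      (1 + 1 / 200 + (1 / 200) ^ 2 / 2) * (1 + u + 21 / 50 * u ^ 2) := by
  obtain ⟨s, hs⟩ : ∃ s, s = u - (-1 / 4) := ⟨_, rfl⟩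
  obtain ⟨t, ht⟩ : ∃ t, t = 0 - u := ⟨_, rfl⟩
  have hs0 : 0 ≤ s := by linarith
  have ht0 : 0 ≤ t := by linarith
  have h : 0 ≤
      85271 / 250000 * t ^ 4 + 879163 / 375000 * s * t ^ 3 +
      1372621 / 250000 * s ^ 2 * t ^ 2 + 1203 / 250 * s ^ 3 * t + 802 / 625 * s ^ 4 := by
    positivity
  have e :
      85271 / 250000 * t ^ 4 + 879163 / 375000 * s * t ^ 3 +
      1372621 / 250000 * s ^ 2 * t ^ 2 + 1203 / 250 * s ^ 3 * t + 802 / 625 * s ^ 4 =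
      (1 + 1 / 200 + (1 / 200) ^ 2 / 2) * (1 + u + 21 / 50 * u ^ 2) -
      (1 + u + u ^ 2 / 2 + u ^ 3 / 6 + u ^ 4 / 24) := by
    rw [hs, ht]
    ring
  rw [e] at h
  linarith

theorem ev_six_e01_b0 (u : ℝ) (h1 : -2 ≤ u) (h2 : u ≤ -1) :
    36788 / 100000 *
      (1 + (u + 1) + (u + 1) ^ 2 / 2 + (u + 1) ^ 3 / 6 + (u + 1) ^ 4 / 24) ≤
      (1 + 1 / 200 + (1 / 200) ^ 2 / 2) * (1 + u + 21 / 50 * u ^ 2) := by
  obtain ⟨s, hs⟩ : ∃ s, s = u - (-2) := ⟨_, rfl⟩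
  obtain ⟨t, ht⟩ : ∃ t, t = -1 - u := ⟨_, rfl⟩
  have hs0 : 0 ≤ s := by linarith
  have ht0 : 0 ≤ t := by linarith
  have h : 0 ≤
      1090907 / 2000000 * t ^ 4 + 8254673 / 6000000 * s * t ^ 3 +
      4739003 / 4000000 * s ^ 2 * t ^ 2 + 423979 / 1000000 * s ^ 3 * t +
      216901 / 4000000 * s ^ 4 := by
    positivity
  have e :
      1090907 / 2000000 * t ^ 4 + 8254673 / 6000000 * s * t ^ 3 +
      4739003 / 4000000 * s ^ 2 * t ^ 2 + 423979 / 1000000 * s ^ 3 * t +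
      216901 / 4000000 * s ^ 4 =
      (1 + 1 / 200 + (1 / 200) ^ 2 / 2) * (1 + u + 21 / 50 * u ^ 2) -
      (36788 / 100000 *
      (1 + (u + 1) + (u + 1) ^ 2 / 2 + (u + 1) ^ 3 / 6 + (u + 1) ^ 4 / 24)) := by
    rw [hs, ht]
    ring
  rw [e] at h
  linarith

theorem ev_six_e01_c0 (u : ℝ) (h1 : -3 ≤ u) (h2 : u ≤ -2) :
    13534 / 100000 *
      (1 + (u + 2) + (u + 2) ^ 2 / 2 + (u + 2) ^ 3 / 6 + (u + 2) ^ 4 / 24) ≤
      (1 + 1 / 200 + (1 / 200) ^ 2 / 2) * (1 + u + 21 / 50 * u ^ 2) := by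
  obtain ⟨s, hs⟩ : ∃ s, s = u - (-3) := ⟨_, rfl⟩
  obtain ⟨t, ht⟩ : ∃ t, t = -2 - u := ⟨_, rfl⟩
  have hs0 : 0 ≤ s := by linarith
  have ht0 : 0 ≤ t := by linarith
  have h : 0 ≤
      6952679 / 4000000 * t ^ 4 + 50437 / 9375 * s * t ^ 3 +
      24396367 / 4000000 * s ^ 2 * t ^ 2 + 1204409 / 400000 * s ^ 3 * t +
      1096137 / 2000000 * s ^ 4 := by
    positivity
  have e :
      6952679 / 4000000 * t ^ 4 + 50437 / 9375 * s * t ^ 3 +
      24396367 / 4000000 * s ^ 2 * t ^ 2 + 1204409 / 400000 * s ^ 3 * t +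
      1096137 / 2000000 * s ^ 4 =
      (1 + 1 / 200 + (1 / 200) ^ 2 / 2) * (1 + u + 21 / 50 * u ^ 2) -
      (13534 / 100000 *
      (1 + (u + 2) + (u + 2) ^ 2 / 2 + (u + 2) ^ 3 / 6 + (u + 2) ^ 4 / 24)) := by
    rw [hs, ht]
    ring
  rw [e] at h
  linarith

theorem ev_six_e01_d (u : ℝ) (h2 : u ≤ -3) :
    4979 / 100000 ≤
      (1 + 1 / 200 + (1 / 200) ^ 2 / 2) * (1 + u + 21 / 50 * u ^ 2) := by
  obtain ⟨s, hs⟩ : ∃ s, s = -3 - u := ⟨_, rfl⟩
  have hs0 : 0 ≤ s := by linarith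
  have h : 0 ≤
      6956529 / 4000000 + 1527619 / 1000000 * s + 1688421 / 4000000 * s ^ 2 := by
    positivity
  have e :
      6956529 / 4000000 + 1527619 / 1000000 * s + 1688421 / 4000000 * s ^ 2 =
      (1 + 1 / 200 + (1 / 200) ^ 2 / 2) * (1 + u + 21 / 50 * u ^ 2) -
      (4979 / 100000) := by
    rw [hs]
    ring
  rw [e] at h
  linarith

theorem ev_six_e01_g0 (u : ℝ) (h1 : 0 ≤ u) (h2 : u ≤ 2) :
    1 * (1 + (u - 0) / 6) ^ 6 ≤
      (1 + 1 / 200 + (1 / 200) ^ 2 / 2) * ((1 + (9 / 200 * u ^ 2) + (9 / 200 * u ^ 2) ^ 2 / 2 +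
      (9 / 200 * u ^ 2) ^ 3 / 6) *
      (1 + u + 21 / 50 * u ^ 2)) := by
  obtain ⟨s, hs⟩ : ∃ s, s = u - (0) := ⟨_, rfl⟩
  obtain ⟨t, ht⟩ : ∃ t, t = 2 - u := ⟨_, rfl⟩
  have hs0 : 0 ≤ s := by linarith
  have ht0 : 0 ≤ t := by linarith
  have h : 0 ≤
      401 / 20480000 * t ^ 8 + 401 / 2048000 * s * t ^ 7 +
      4958179 / 3072000000 * s ^ 2 * t ^ 6 + 35862163 / 6912000000 * s ^ 3 * t ^ 5 +
      7134945637 / 921600000000 * s ^ 4 * t ^ 4 +
      23380852427 / 4147200000000 * s ^ 5 * t ^ 3 +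
      6736001081263 / 3732480000000000 * s ^ 6 * t ^ 2 +
      18612270773 / 93312000000000 * s ^ 7 * t + 4444394657449 / 93312000000000000 * s ^ 8 := by
    positivity
  have e :
      401 / 20480000 * t ^ 8 + 401 / 2048000 * s * t ^ 7 +
      4958179 / 3072000000 * s ^ 2 * t ^ 6 + 35862163 / 6912000000 * s ^ 3 * t ^ 5 +
      7134945637 / 921600000000 * s ^ 4 * t ^ 4 +
      23380852427 / 4147200000000 * s ^ 5 * t ^ 3 +
      6736001081263 / 3732480000000000 * s ^ 6 * t ^ 2 +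
      18612270773 / 93312000000000 * s ^ 7 * t + 4444394657449 / 93312000000000000 * s ^ 8 =
      (1 + 1 / 200 + (1 / 200) ^ 2 / 2) * ((1 + (9 / 200 * u ^ 2) + (9 / 200 * u ^ 2) ^ 2 / 2 +
      (9 / 200 * u ^ 2) ^ 3 / 6) *
      (1 + u + 21 / 50 * u ^ 2)) -
      (1 * (1 + (u - 0) / 6) ^ 6) := by
    rw [hs, ht]
    ring
  rw [e] at h
  linarith

theorem ev_six_e01_t (u : ℝ) (h1 : 2 ≤ u) :
    1 * (1 + (u - 0) / 6) ^ 6 ≤
      (1 + 1 / 200 + (1 / 200) ^ 2 / 2) * ((1 + (9 / 200 * u ^ 2) + (9 / 200 * u ^ 2) ^ 2 / 2 +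
      (9 / 200 * u ^ 2) ^ 3 / 6) *
      (1 + u + 21 / 50 * u ^ 2)) := by
  obtain ⟨s, hs⟩ : ∃ s, s = u - (2) := ⟨_, rfl⟩
  have hs0 : 0 ≤ s := by linarith
  have h : 0 ≤
      4444394657449 / 364500000000000 + 88244200451 / 3796875000000 * s +
      54185727343049 / 486000000000000 * s ^ 2 + 171179698583047 / 1458000000000000 * s ^ 3 +
      18516393476587 / 388800000000000 * s ^ 4 + 9189929233637 / 972000000000000 * s ^ 5 +
      31560533676697 / 23328000000000000 * s ^ 6 + 3770726499 / 32000000000000 * s ^ 7 +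
      410286303 / 64000000000000 * s ^ 8 := by
    positivity
  have e :
      4444394657449 / 364500000000000 + 88244200451 / 3796875000000 * s +
      54185727343049 / 486000000000000 * s ^ 2 + 171179698583047 / 1458000000000000 * s ^ 3 +
      18516393476587 / 388800000000000 * s ^ 4 + 9189929233637 / 972000000000000 * s ^ 5 +
      31560533676697 / 23328000000000000 * s ^ 6 + 3770726499 / 32000000000000 * s ^ 7 +
      410286303 / 64000000000000 * s ^ 8 =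
      (1 + 1 / 200 + (1 / 200) ^ 2 / 2) * ((1 + (9 / 200 * u ^ 2) + (9 / 200 * u ^ 2) ^ 2 / 2 +
      (9 / 200 * u ^ 2) ^ 3 / 6) *
      (1 + u + 21 / 50 * u ^ 2)) -
      (1 * (1 + (u - 0) / 6) ^ 6) := by
    rw [hs]
    ring
  rw [e] at h
  linarith

/-- `K = 6`: `(c, μ, P, δ) = (21 / 50, 9 / 200, 0, 1 / 200)` -/
theorem expFd_six_e01 : ExpFd 6 (21 / 50) (9 / 200) (0) (1 / 200) := by
  have hde : (1 + 1 / 200 + (1 / 200) ^ 2 / 2) ≤ Real.exp (1 / 200) :=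
    Real.quadratic_le_exp_of_nonneg (by norm_num)
  have hq : ∀ u : ℝ, 0 ≤ 1 + u + 21 / 50 * u ^ 2 := fun u => by
    nlinarith [sq_nonneg (u + 2), sq_nonneg u]
  have hR : ∀ (u x y : ℝ), x ≤ y →
      y ≤ (1 + 1 / 200 + (1 / 200) ^ 2 / 2) * (1 + u + 21 / 50 * u ^ 2) →
      x ≤ Real.exp (1 / 200) * (1 + u + 21 / 50 * u ^ 2) := fun u x y h1 h2 =>
    (h1.trans h2).trans (mul_le_mul_of_nonneg_right hde (hq u))
  refine ExpFd.of (by norm_num) (by norm_num) (by norm_num) (by norm_num) (by norm_num) ?_ ?_ ?_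
  · intro u h1
    rcases le_total u (-3) with h3 | h3
    · exact hR u _ _ (ev_exp_n3 h3) (ev_six_e01_d u h3)
    rcases le_total u (-2) with h4 | h4
    · refine hR u _ _ (ev_exp_n2 h4) ?_
      exact ev_six_e01_c0 u (by linarith) (by linarith)
    rcases le_total u (-1) with h5 | h5
    · refine hR u _ _ (ev_exp_n1 h5) ?_
      exact ev_six_e01_b0 u (by linarith) (by linarith)
    refine hR u _ _ (ev_exp_n0 h1) ?_
    rcases le_total u (-1 / 2) with hh | hh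
    · exact ev_six_e01_a0 u (by linarith) (by linarith)
    rcases le_total u (-3 / 8) with hh | hh
    · exact ev_six_e01_a1 u (by linarith) (by linarith)
    rcases le_total u (-1 / 4) with hh | hh
    · exact ev_six_e01_a2 u (by linarith) (by linarith)
    exact ev_six_e01_a3 u (by linarith) (by linarith)
  · intro u h1 h2
    have h7 : u = 0 := le_antisymm h2 h1
    rw [h7, Real.exp_zero]
    have := Real.add_one_le_exp ((1 / 200 : ℝ) + 9 / 200 * 0 ^ 2)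
    linarith
  · intro u h1
    have h4 : 0 ≤ (1 + (u - 0) / 6) ^ 6 := by
      have : 0 ≤ (u - 0) / 6 := div_nonneg (by linarith) (by norm_num)
      positivity
    have hE : Real.exp (0) ≤ 1 := Real.exp_zero.le
    have hx : 0 ≤ 9 / 200 * u ^ 2 := by positivity
    have h5 := mul_le_mul_of_nonneg_right (taylor3_le_expE _ hx) (hq u)
    have h6 : 0 ≤ Real.exp (9 / 200 * u ^ 2) * (1 + u + 21 / 50 * u ^ 2) :=
      mul_nonneg (Real.exp_nonneg _) (hq u)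
    rw [Real.exp_add, mul_assoc]
    push_cast
    refine ((mul_le_mul_of_nonneg_right hE h4).trans ?_).trans
      ((mul_le_mul_of_nonneg_left h5
        (by norm_num : (0 : ℝ) ≤ (1 + 1 / 200 + (1 / 200) ^ 2 / 2))).trans
        (mul_le_mul_of_nonneg_right hde h6))
    rcases le_total u (2) with hh | hh
    · exact ev_six_e01_g0 u (by linarith) (by linarith)
    exact ev_six_e01_t u (by linarith)

theorem ev_six_e02_a0 (u : ℝ) (h1 : -1 ≤ u) (h2 : u ≤ -1 / 2) :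
    1 + u + u ^ 2 / 2 + u ^ 3 / 6 + u ^ 4 / 24 ≤
      (1 + 1 / 100 + (1 / 100) ^ 2 / 2) * (1 + u + 403 / 1000 * u ^ 2) := by
  obtain ⟨s, hs⟩ : ∃ s, s = u - (-1) := ⟨_, rfl⟩
  obtain ⟨t, ht⟩ : ∃ t, t = -1 / 2 - u := ⟨_, rfl⟩
  have hs0 : 0 ≤ s := by linarith
  have ht0 : 0 ≤ t := by linarith
  have h : 0 ≤
      641003 / 1250000 * t ^ 4 + 3570527 / 3750000 * s * t ^ 3 +
      2039039 / 5000000 * s ^ 2 * t ^ 2 + 26009 / 2500000 * s ^ 3 * t +
      4009 / 15000000 * s ^ 4 := by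
    positivity
  have e :
      641003 / 1250000 * t ^ 4 + 3570527 / 3750000 * s * t ^ 3 +
      2039039 / 5000000 * s ^ 2 * t ^ 2 + 26009 / 2500000 * s ^ 3 * t +
      4009 / 15000000 * s ^ 4 =
      (1 + 1 / 100 + (1 / 100) ^ 2 / 2) * (1 + u + 403 / 1000 * u ^ 2) -
      (1 + u + u ^ 2 / 2 + u ^ 3 / 6 + u ^ 4 / 24) := by
    rw [hs, ht]
    ring
  rw [e] at h
  linarith

theorem ev_six_e02_a1 (u : ℝ) (h1 : -1 / 2 ≤ u) (h2 : u ≤ -15 / 32) :
    1 + u + u ^ 2 / 2 + u ^ 3 / 6 + u ^ 4 / 24 ≤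
      (1 + 1 / 100 + (1 / 100) ^ 2 / 2) * (1 + u + 403 / 1000 * u ^ 2) := by
  obtain ⟨s, hs⟩ : ∃ s, s = u - (-1 / 2) := ⟨_, rfl⟩
  obtain ⟨t, ht⟩ : ∃ t, t = -15 / 32 - u := ⟨_, rfl⟩
  have hs0 : 0 ≤ s := by linarith
  have ht0 : 0 ≤ t := by linarith
  have h : 0 ≤
      4105216 / 234375 * t ^ 4 + 7459712 / 234375 * s * t ^ 3 +
      6813292 / 78125 * s ^ 2 * t ^ 2 + 2286432 / 15625 * s ^ 3 * t + 1834809 / 25000 * s ^ 4 := by
    positivity
  have e :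
      4105216 / 234375 * t ^ 4 + 7459712 / 234375 * s * t ^ 3 +
      6813292 / 78125 * s ^ 2 * t ^ 2 + 2286432 / 15625 * s ^ 3 * t + 1834809 / 25000 * s ^ 4 =
      (1 + 1 / 100 + (1 / 100) ^ 2 / 2) * (1 + u + 403 / 1000 * u ^ 2) -
      (1 + u + u ^ 2 / 2 + u ^ 3 / 6 + u ^ 4 / 24) := by
    rw [hs, ht]
    ring
  rw [e] at h
  linarith

theorem ev_six_e02_a2 (u : ℝ) (h1 : -15 / 32 ≤ u) (h2 : u ≤ -7 / 16) :
    1 + u + u ^ 2 / 2 + u ^ 3 / 6 + u ^ 4 / 24 ≤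
      (1 + 1 / 100 + (1 / 100) ^ 2 / 2) * (1 + u + 403 / 1000 * u ^ 2) := by
  obtain ⟨s, hs⟩ : ∃ s, s = u - (-15 / 32) := ⟨_, rfl⟩
  obtain ⟨t, ht⟩ : ∃ t, t = -7 / 16 - u := ⟨_, rfl⟩
  have hs0 : 0 ≤ s := by linarith
  have ht0 : 0 ≤ t := by linarith
  have h : 0 ≤
      1834809 / 25000 * t ^ 4 + 6887613 / 15625 * s * t ^ 3 +
      75831007 / 78125 * s ^ 2 * t ^ 2 + 213184732 / 234375 * s ^ 3 * t +
      23931602 / 78125 * s ^ 4 := by
    positivity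
  have e :
      1834809 / 25000 * t ^ 4 + 6887613 / 15625 * s * t ^ 3 +
      75831007 / 78125 * s ^ 2 * t ^ 2 + 213184732 / 234375 * s ^ 3 * t +
      23931602 / 78125 * s ^ 4 =
      (1 + 1 / 100 + (1 / 100) ^ 2 / 2) * (1 + u + 403 / 1000 * u ^ 2) -
      (1 + u + u ^ 2 / 2 + u ^ 3 / 6 + u ^ 4 / 24) := by
    rw [hs, ht]
    ring
  rw [e] at h
  linarith

theorem ev_six_e02_a3 (u : ℝ) (h1 : -7 / 16 ≤ u) (h2 : u ≤ -3 / 8) :
    1 + u + u ^ 2 / 2 + u ^ 3 / 6 + u ^ 4 / 24 ≤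
      (1 + 1 / 100 + (1 / 100) ^ 2 / 2) * (1 + u + 403 / 1000 * u ^ 2) := by
  obtain ⟨s, hs⟩ : ∃ s, s = u - (-7 / 16) := ⟨_, rfl⟩
  obtain ⟨t, ht⟩ : ∃ t, t = -3 / 8 - u := ⟨_, rfl⟩
  have hs0 : 0 ≤ s := by linarith
  have ht0 : 0 ≤ t := by linarith
  have h : 0 ≤
      11965801 / 625000 * t ^ 4 + 27198013 / 234375 * s * t ^ 3 +
      19782634 / 78125 * s ^ 2 * t ^ 2 + 18232968 / 78125 * s ^ 3 * t +
      6017358 / 78125 * s ^ 4 := by
    positivity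
  have e :
      11965801 / 625000 * t ^ 4 + 27198013 / 234375 * s * t ^ 3 +
      19782634 / 78125 * s ^ 2 * t ^ 2 + 18232968 / 78125 * s ^ 3 * t +
      6017358 / 78125 * s ^ 4 =
      (1 + 1 / 100 + (1 / 100) ^ 2 / 2) * (1 + u + 403 / 1000 * u ^ 2) -
      (1 + u + u ^ 2 / 2 + u ^ 3 / 6 + u ^ 4 / 24) := by
    rw [hs, ht]
    ring
  rw [e] at h
  linarith

theorem ev_six_e02_a4 (u : ℝ) (h1 : -3 / 8 ≤ u) (h2 : u ≤ -1 / 4) :
    1 + u + u ^ 2 / 2 + u ^ 3 / 6 + u ^ 4 / 24 ≤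
      (1 + 1 / 100 + (1 / 100) ^ 2 / 2) * (1 + u + 403 / 1000 * u ^ 2) := by
  obtain ⟨s, hs⟩ : ∃ s, s = u - (-3 / 8) := ⟨_, rfl⟩
  obtain ⟨t, ht⟩ : ∃ t, t = -1 / 4 - u := ⟨_, rfl⟩
  have hs0 : 0 ≤ s := by linarith
  have ht0 : 0 ≤ t := by linarith
  have h : 0 ≤
      3008679 / 625000 * t ^ 4 + 893559 / 31250 * s * t ^ 3 +
      18968611 / 312500 * s ^ 2 * t ^ 2 + 2533109 / 46875 * s ^ 3 * t +
      1334253 / 78125 * s ^ 4 := by
    positivity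
  have e :
      3008679 / 625000 * t ^ 4 + 893559 / 31250 * s * t ^ 3 +
      18968611 / 312500 * s ^ 2 * t ^ 2 + 2533109 / 46875 * s ^ 3 * t +
      1334253 / 78125 * s ^ 4 =
      (1 + 1 / 100 + (1 / 100) ^ 2 / 2) * (1 + u + 403 / 1000 * u ^ 2) -
      (1 + u + u ^ 2 / 2 + u ^ 3 / 6 + u ^ 4 / 24) := by
    rw [hs, ht]
    ring
  rw [e] at h
  linarith

theorem ev_six_e02_a5 (u : ℝ) (h1 : -1 / 4 ≤ u) (h2 : u ≤ 0) :
    1 + u + u ^ 2 / 2 + u ^ 3 / 6 + u ^ 4 / 24 ≤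
      (1 + 1 / 100 + (1 / 100) ^ 2 / 2) * (1 + u + 403 / 1000 * u ^ 2) := by
  obtain ⟨s, hs⟩ : ∃ s, s = u - (-1 / 4) := ⟨_, rfl⟩
  obtain ⟨t, ht⟩ : ∃ t, t = 0 - u := ⟨_, rfl⟩
  have hs0 : 0 ≤ s := by linarith
  have ht0 : 0 ≤ t := by linarith
  have h : 0 ≤
      1334253 / 1250000 * t ^ 4 + 11351009 / 1875000 * s * t ^ 3 +
      15025003 / 1250000 * s ^ 2 * t ^ 2 + 1206 / 125 * s ^ 3 * t + 1608 / 625 * s ^ 4 := by
    positivity
  have e :
      1334253 / 1250000 * t ^ 4 + 11351009 / 1875000 * s * t ^ 3 +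
      15025003 / 1250000 * s ^ 2 * t ^ 2 + 1206 / 125 * s ^ 3 * t + 1608 / 625 * s ^ 4 =
      (1 + 1 / 100 + (1 / 100) ^ 2 / 2) * (1 + u + 403 / 1000 * u ^ 2) -
      (1 + u + u ^ 2 / 2 + u ^ 3 / 6 + u ^ 4 / 24) := by
    rw [hs, ht]
    ring
  rw [e] at h
  linarith

theorem ev_six_e02_b0 (u : ℝ) (h1 : -2 ≤ u) (h2 : u ≤ -1) :
    36788 / 100000 *
      (1 + (u + 1) + (u + 1) ^ 2 / 2 + (u + 1) ^ 3 / 6 + (u + 1) ^ 4 / 24) ≤
      (1 + 1 / 100 + (1 / 100) ^ 2 / 2) * (1 + u + 403 / 1000 * u ^ 2) := by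
  obtain ⟨s, hs⟩ : ∃ s, s = u - (-2) := ⟨_, rfl⟩
  obtain ⟨t, ht⟩ : ∃ t, t = -1 - u := ⟨_, rfl⟩
  have hs0 : 0 ≤ s := by linarith
  have ht0 : 0 ≤ t := by linarith
  have h : 0 ≤
      1200489 / 2500000 * t ^ 4 + 17700077 / 15000000 * s * t ^ 3 +
      19478439 / 20000000 * s ^ 2 * t ^ 2 + 3286109 / 10000000 * s ^ 3 * t +
      783403 / 20000000 * s ^ 4 := by
    positivity
  have e :
      1200489 / 2500000 * t ^ 4 + 17700077 / 15000000 * s * t ^ 3 +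
      19478439 / 20000000 * s ^ 2 * t ^ 2 + 3286109 / 10000000 * s ^ 3 * t +
      783403 / 20000000 * s ^ 4 =
      (1 + 1 / 100 + (1 / 100) ^ 2 / 2) * (1 + u + 403 / 1000 * u ^ 2) -
      (36788 / 100000 *
      (1 + (u + 1) + (u + 1) ^ 2 / 2 + (u + 1) ^ 3 / 6 + (u + 1) ^ 4 / 24)) := by
    rw [hs, ht]
    ring
  rw [e] at h
  linarith

theorem ev_six_e02_c0 (u : ℝ) (h1 : -3 ≤ u) (h2 : u ≤ -2) :
    13534 / 100000 *
      (1 + (u + 2) + (u + 2) ^ 2 / 2 + (u + 2) ^ 3 / 6 + (u + 2) ^ 4 / 24) ≤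
      (1 + 1 / 100 + (1 / 100) ^ 2 / 2) * (1 + u + 403 / 1000 * u ^ 2) := by
  obtain ⟨s, hs⟩ : ∃ s, s = u - (-3) := ⟨_, rfl⟩
  obtain ⟨t, ht⟩ : ∃ t, t = -2 - u := ⟨_, rfl⟩
  have hs0 : 0 ≤ s := by linarith
  have ht0 : 0 ≤ t := by linarith
  have h : 0 ≤
      31851977 / 20000000 * t ^ 4 + 29358187 / 6000000 * s * t ^ 3 +
      109934311 / 20000000 * s ^ 2 * t ^ 2 + 2684733 / 1000000 * s ^ 3 * t +
      2414053 / 5000000 * s ^ 4 := by
    positivity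
  have e :
      31851977 / 20000000 * t ^ 4 + 29358187 / 6000000 * s * t ^ 3 +
      109934311 / 20000000 * s ^ 2 * t ^ 2 + 2684733 / 1000000 * s ^ 3 * t +
      2414053 / 5000000 * s ^ 4 =
      (1 + 1 / 100 + (1 / 100) ^ 2 / 2) * (1 + u + 403 / 1000 * u ^ 2) -
      (13534 / 100000 *
      (1 + (u + 2) + (u + 2) ^ 2 / 2 + (u + 2) ^ 3 / 6 + (u + 2) ^ 4 / 24)) := by
    rw [hs, ht]
    ring
  rw [e] at h
  linarith

theorem ev_six_e02_d (u : ℝ) (h2 : u ≤ -3) :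
    4979 / 100000 ≤
      (1 + 1 / 100 + (1 / 100) ^ 2 / 2) * (1 + u + 403 / 1000 * u ^ 2) := by
  obtain ⟨s, hs⟩ : ∃ s, s = -3 - u := ⟨_, rfl⟩
  have hs0 : 0 ≤ s := by linarith
  have h : 0 ≤
      31871227 / 20000000 + 14322509 / 10000000 * s + 8141003 / 20000000 * s ^ 2 := by
    positivity
  have e :
      31871227 / 20000000 + 14322509 / 10000000 * s + 8141003 / 20000000 * s ^ 2 =
      (1 + 1 / 100 + (1 / 100) ^ 2 / 2) * (1 + u + 403 / 1000 * u ^ 2) -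
      (4979 / 100000) := by
    rw [hs]
    ring
  rw [e] at h
  linarith

theorem ev_six_e02_g0 (u : ℝ) (h1 : 0 ≤ u) (h2 : u ≤ 2) :
    1 * (1 + (u - 0) / 6) ^ 6 ≤
      (1 + 1 / 100 + (1 / 100) ^ 2 / 2) * ((1 + (1 / 20 * u ^ 2) + (1 / 20 * u ^ 2) ^ 2 / 2 +
      (1 / 20 * u ^ 2) ^ 3 / 6) *
      (1 + u + 403 / 1000 * u ^ 2)) := by
  obtain ⟨s, hs⟩ : ∃ s, s = u - (0) := ⟨_, rfl⟩
  obtain ⟨t, ht⟩ : ∃ t, t = 2 - u := ⟨_, rfl⟩
  have hs0 : 0 ≤ s := by linarith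
  have ht0 : 0 ≤ t := by linarith
  have h : 0 ≤
      201 / 5120000 * t ^ 8 + 201 / 512000 * s * t ^ 7 +
      8784659 / 3840000000 * s ^ 2 * t ^ 6 + 109987393 / 17280000000 * s ^ 3 * t ^ 5 +
      525872527 / 57600000000 * s ^ 4 * t ^ 4 + 1851159461 / 259200000000 * s ^ 5 * t ^ 3 +
      151824844307 / 46656000000000 * s ^ 6 * t ^ 2 +
      25176656027 / 23328000000000 * s ^ 7 * t + 16116179191 / 58320000000000 * s ^ 8 := by
    positivity
  have e :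
      201 / 5120000 * t ^ 8 + 201 / 512000 * s * t ^ 7 +
      8784659 / 3840000000 * s ^ 2 * t ^ 6 + 109987393 / 17280000000 * s ^ 3 * t ^ 5 +
      525872527 / 57600000000 * s ^ 4 * t ^ 4 + 1851159461 / 259200000000 * s ^ 5 * t ^ 3 +
      151824844307 / 46656000000000 * s ^ 6 * t ^ 2 +
      25176656027 / 23328000000000 * s ^ 7 * t + 16116179191 / 58320000000000 * s ^ 8 =
      (1 + 1 / 100 + (1 / 100) ^ 2 / 2) * ((1 + (1 / 20 * u ^ 2) + (1 / 20 * u ^ 2) ^ 2 / 2 +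
      (1 / 20 * u ^ 2) ^ 3 / 6) *
      (1 + u + 403 / 1000 * u ^ 2)) -
      (1 * (1 + (u - 0) / 6) ^ 6) := by
    rw [hs, ht]
    ring
  rw [e] at h
  linarith

theorem ev_six_e02_t (u : ℝ) (h1 : 2 ≤ u) :
    1 * (1 + (u - 0) / 6) ^ 6 ≤
      (1 + 1 / 100 + (1 / 100) ^ 2 / 2) * ((1 + (1 / 20 * u ^ 2) + (1 / 20 * u ^ 2) ^ 2 / 2 +
      (1 / 20 * u ^ 2) ^ 3 / 6) *
      (1 + u + 403 / 1000 * u ^ 2)) := by
  obtain ⟨s, hs⟩ : ∃ s, s = u - (2) := ⟨_, rfl⟩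
  have hs0 : 0 ≤ s := by linarith
  have h : 0 ≤
      16116179191 / 227812500000 + 43991862307 / 303750000000 * s +
      267256789679 / 1215000000000 * s ^ 2 + 37863380857 / 227812500000 * s ^ 3 +
      59142003127 / 972000000000 * s ^ 4 + 59091490489 / 4860000000000 * s ^ 5 +
      102223501597 / 58320000000000 * s ^ 6 + 18807131 / 120000000000 * s ^ 7 +
      8141003 / 960000000000 * s ^ 8 := by
    positivity
  have e :
      16116179191 / 227812500000 + 43991862307 / 303750000000 * s +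
      267256789679 / 1215000000000 * s ^ 2 + 37863380857 / 227812500000 * s ^ 3 +
      59142003127 / 972000000000 * s ^ 4 + 59091490489 / 4860000000000 * s ^ 5 +
      102223501597 / 58320000000000 * s ^ 6 + 18807131 / 120000000000 * s ^ 7 +
      8141003 / 960000000000 * s ^ 8 =
      (1 + 1 / 100 + (1 / 100) ^ 2 / 2) * ((1 + (1 / 20 * u ^ 2) + (1 / 20 * u ^ 2) ^ 2 / 2 +
      (1 / 20 * u ^ 2) ^ 3 / 6) *
      (1 + u + 403 / 1000 * u ^ 2)) -
      (1 * (1 + (u - 0) / 6) ^ 6) := by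
    rw [hs]
    ring
  rw [e] at h
  linarith

/-- `K = 6`: `(c, μ, P, δ) = (403 / 1000, 1 / 20, 0, 1 / 100)` -/
theorem expFd_six_e02 : ExpFd 6 (403 / 1000) (1 / 20) (0) (1 / 100) := by
  have hde : (1 + 1 / 100 + (1 / 100) ^ 2 / 2) ≤ Real.exp (1 / 100) :=
    Real.quadratic_le_exp_of_nonneg (by norm_num)
  have hq : ∀ u : ℝ, 0 ≤ 1 + u + 403 / 1000 * u ^ 2 := fun u => by
    nlinarith [sq_nonneg (u + 2), sq_nonneg u]
  have hR : ∀ (u x y : ℝ), x ≤ y →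
      y ≤ (1 + 1 / 100 + (1 / 100) ^ 2 / 2) * (1 + u + 403 / 1000 * u ^ 2) →
      x ≤ Real.exp (1 / 100) * (1 + u + 403 / 1000 * u ^ 2) := fun u x y h1 h2 =>
    (h1.trans h2).trans (mul_le_mul_of_nonneg_right hde (hq u))
  refine ExpFd.of (by norm_num) (by norm_num) (by norm_num) (by norm_num) (by norm_num) ?_ ?_ ?_
  · intro u h1
    rcases le_total u (-3) with h3 | h3
    · exact hR u _ _ (ev_exp_n3 h3) (ev_six_e02_d u h3)
    rcases le_total u (-2) with h4 | h4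
    · refine hR u _ _ (ev_exp_n2 h4) ?_
      exact ev_six_e02_c0 u (by linarith) (by linarith)
    rcases le_total u (-1) with h5 | h5
    · refine hR u _ _ (ev_exp_n1 h5) ?_
      exact ev_six_e02_b0 u (by linarith) (by linarith)
    refine hR u _ _ (ev_exp_n0 h1) ?_
    rcases le_total u (-1 / 2) with hh | hh
    · exact ev_six_e02_a0 u (by linarith) (by linarith)
    rcases le_total u (-15 / 32) with hh | hh
    · exact ev_six_e02_a1 u (by linarith) (by linarith)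
    rcases le_total u (-7 / 16) with hh | hh
    · exact ev_six_e02_a2 u (by linarith) (by linarith)
    rcases le_total u (-3 / 8) with hh | hh
    · exact ev_six_e02_a3 u (by linarith) (by linarith)
    rcases le_total u (-1 / 4) with hh | hh
    · exact ev_six_e02_a4 u (by linarith) (by linarith)
    exact ev_six_e02_a5 u (by linarith) (by linarith)
  · intro u h1 h2
    have h7 : u = 0 := le_antisymm h2 h1
    rw [h7, Real.exp_zero]
    have := Real.add_one_le_exp ((1 / 100 : ℝ) + 1 / 20 * 0 ^ 2)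
    linarith
  · intro u h1
    have h4 : 0 ≤ (1 + (u - 0) / 6) ^ 6 := by
      have : 0 ≤ (u - 0) / 6 := div_nonneg (by linarith) (by norm_num)
      positivity
    have hE : Real.exp (0) ≤ 1 := Real.exp_zero.le
    have hx : 0 ≤ 1 / 20 * u ^ 2 := by positivity
    have h5 := mul_le_mul_of_nonneg_right (taylor3_le_expE _ hx) (hq u)
    have h6 : 0 ≤ Real.exp (1 / 20 * u ^ 2) * (1 + u + 403 / 1000 * u ^ 2) :=
      mul_nonneg (Real.exp_nonneg _) (hq u)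
    rw [Real.exp_add, mul_assoc]
    push_cast
    refine ((mul_le_mul_of_nonneg_right hE h4).trans ?_).trans
      ((mul_le_mul_of_nonneg_left h5
        (by norm_num : (0 : ℝ) ≤ (1 + 1 / 100 + (1 / 100) ^ 2 / 2))).trans
        (mul_le_mul_of_nonneg_right hde h6))
    rcases le_total u (2) with hh | hh
    · exact ev_six_e02_g0 u (by linarith) (by linarith)
    exact ev_six_e02_t u (by linarith)

theorem ev_six_e03_a0 (u : ℝ) (h1 : -1 ≤ u) (h2 : u ≤ -3 / 4) :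
    1 + u + u ^ 2 / 2 + u ^ 3 / 6 + u ^ 4 / 24 ≤
      (1 + 1 / 50 + (1 / 50) ^ 2 / 2) * (1 + u + 77 / 200 * u ^ 2) := by
  obtain ⟨s, hs⟩ : ∃ s, s = u - (-1) := ⟨_, rfl⟩
  obtain ⟨t, ht⟩ : ∃ t, t = -3 / 4 - u := ⟨_, rfl⟩
  have hs0 : 0 ≤ s := by linarith
  have ht0 : 0 ≤ t := by linarith
  have h : 0 ≤
      71108 / 15625 * t ^ 4 + 557234 / 46875 * s * t ^ 3 + 665121 / 62500 * s ^ 2 * t ^ 2 +
      119517 / 31250 * s ^ 3 * t + 59711 / 125000 * s ^ 4 := by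
    positivity
  have e :
      71108 / 15625 * t ^ 4 + 557234 / 46875 * s * t ^ 3 + 665121 / 62500 * s ^ 2 * t ^ 2 +
      119517 / 31250 * s ^ 3 * t + 59711 / 125000 * s ^ 4 =
      (1 + 1 / 50 + (1 / 50) ^ 2 / 2) * (1 + u + 77 / 200 * u ^ 2) -
      (1 + u + u ^ 2 / 2 + u ^ 3 / 6 + u ^ 4 / 24) := by
    rw [hs, ht]
    ring
  rw [e] at h
  linarith

theorem ev_six_e03_a1 (u : ℝ) (h1 : -3 / 4 ≤ u) (h2 : u ≤ -5 / 8) :
    1 + u + u ^ 2 / 2 + u ^ 3 / 6 + u ^ 4 / 24 ≤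
      (1 + 1 / 50 + (1 / 50) ^ 2 / 2) * (1 + u + 77 / 200 * u ^ 2) := by
  obtain ⟨s, hs⟩ : ∃ s, s = u - (-3 / 4) := ⟨_, rfl⟩
  obtain ⟨t, ht⟩ : ∃ t, t = -5 / 8 - u := ⟨_, rfl⟩
  have hs0 : 0 ≤ s := by linarith
  have ht0 : 0 ≤ t := by linarith
  have h : 0 ≤
      119422 / 15625 * t ^ 4 + 238464 / 15625 * s * t ^ 3 + 126012 / 15625 * s ^ 2 * t ^ 2 +
      5467 / 9375 * s ^ 3 * t + 477 / 5000 * s ^ 4 := by
    positivity
  have e :
      119422 / 15625 * t ^ 4 + 238464 / 15625 * s * t ^ 3 + 126012 / 15625 * s ^ 2 * t ^ 2 +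
      5467 / 9375 * s ^ 3 * t + 477 / 5000 * s ^ 4 =
      (1 + 1 / 50 + (1 / 50) ^ 2 / 2) * (1 + u + 77 / 200 * u ^ 2) -
      (1 + u + u ^ 2 / 2 + u ^ 3 / 6 + u ^ 4 / 24) := by
    rw [hs, ht]
    ring
  rw [e] at h
  linarith

theorem ev_six_e03_a2 (u : ℝ) (h1 : -5 / 8 ≤ u) (h2 : u ≤ -1 / 2) :
    1 + u + u ^ 2 / 2 + u ^ 3 / 6 + u ^ 4 / 24 ≤
      (1 + 1 / 50 + (1 / 50) ^ 2 / 2) * (1 + u + 77 / 200 * u ^ 2) := by
  obtain ⟨s, hs⟩ : ∃ s, s = u - (-5 / 8) := ⟨_, rfl⟩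
  obtain ⟨t, ht⟩ : ∃ t, t = -1 / 2 - u := ⟨_, rfl⟩
  have hs0 : 0 ≤ s := by linarith
  have ht0 : 0 ≤ t := by linarith
  have h : 0 ≤
      477 / 5000 * t ^ 4 + 1688 / 9375 * s * t ^ 3 + 107117 / 15625 * s ^ 2 * t ^ 2 +
      203944 / 15625 * s ^ 3 * t + 292496 / 46875 * s ^ 4 := by
    positivity
  have e :
      477 / 5000 * t ^ 4 + 1688 / 9375 * s * t ^ 3 + 107117 / 15625 * s ^ 2 * t ^ 2 +
      203944 / 15625 * s ^ 3 * t + 292496 / 46875 * s ^ 4 =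
      (1 + 1 / 50 + (1 / 50) ^ 2 / 2) * (1 + u + 77 / 200 * u ^ 2) -
      (1 + u + u ^ 2 / 2 + u ^ 3 / 6 + u ^ 4 / 24) := by
    rw [hs, ht]
    ring
  rw [e] at h
  linarith

theorem ev_six_e03_a3 (u : ℝ) (h1 : -1 / 2 ≤ u) (h2 : u ≤ 0) :
    1 + u + u ^ 2 / 2 + u ^ 3 / 6 + u ^ 4 / 24 ≤
      (1 + 1 / 50 + (1 / 50) ^ 2 / 2) * (1 + u + 77 / 200 * u ^ 2) := by
  obtain ⟨s, hs⟩ : ∃ s, s = u - (-1 / 2) := ⟨_, rfl⟩
  obtain ⟨t, ht⟩ : ∃ t, t = 0 - u := ⟨_, rfl⟩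
  have hs0 : 0 ≤ s := by linarith
  have ht0 : 0 ≤ t := by linarith
  have h : 0 ≤
      18281 / 750000 * t ^ 4 + 106331 / 375000 * s * t ^ 3 +
      256377 / 250000 * s ^ 2 * t ^ 2 + 707 / 625 * s ^ 3 * t + 202 / 625 * s ^ 4 := by
    positivity
  have e :
      18281 / 750000 * t ^ 4 + 106331 / 375000 * s * t ^ 3 +
      256377 / 250000 * s ^ 2 * t ^ 2 + 707 / 625 * s ^ 3 * t + 202 / 625 * s ^ 4 =
      (1 + 1 / 50 + (1 / 50) ^ 2 / 2) * (1 + u + 77 / 200 * u ^ 2) -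
      (1 + u + u ^ 2 / 2 + u ^ 3 / 6 + u ^ 4 / 24) := by
    rw [hs, ht]
    ring
  rw [e] at h
  linarith

theorem ev_six_e03_b0 (u : ℝ) (h1 : -2 ≤ u) (h2 : u ≤ -1) :
    36788 / 100000 *
      (1 + (u + 1) + (u + 1) ^ 2 / 2 + (u + 1) ^ 3 / 6 + (u + 1) ^ 4 / 24) ≤
      (1 + 1 / 50 + (1 / 50) ^ 2 / 2) * (1 + u + 77 / 200 * u ^ 2) := by
  obtain ⟨s, hs⟩ : ∃ s, s = u - (-2) := ⟨_, rfl⟩
  obtain ⟨t, ht⟩ : ∃ t, t = -1 - u := ⟨_, rfl⟩
  have hs0 : 0 ≤ s := by linarith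
  have ht0 : 0 ≤ t := by linarith
  have h : 0 ≤
      412953 / 1000000 * t ^ 4 + 183427 / 187500 * s * t ^ 3 +
      757921 / 1000000 * s ^ 2 * t ^ 2 + 116411 / 500000 * s ^ 3 * t + 24897 / 1000000 * s ^ 4 := by
    positivity
  have e :
      412953 / 1000000 * t ^ 4 + 183427 / 187500 * s * t ^ 3 +
      757921 / 1000000 * s ^ 2 * t ^ 2 + 116411 / 500000 * s ^ 3 * t + 24897 / 1000000 * s ^ 4 =
      (1 + 1 / 50 + (1 / 50) ^ 2 / 2) * (1 + u + 77 / 200 * u ^ 2) -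
      (36788 / 100000 *
      (1 + (u + 1) + (u + 1) ^ 2 / 2 + (u + 1) ^ 3 / 6 + (u + 1) ^ 4 / 24)) := by
    rw [hs, ht]
    ring
  rw [e] at h
  linarith

theorem ev_six_e03_c0 (u : ℝ) (h1 : -3 ≤ u) (h2 : u ≤ -2) :
    13534 / 100000 *
      (1 + (u + 2) + (u + 2) ^ 2 / 2 + (u + 2) ^ 3 / 6 + (u + 2) ^ 4 / 24) ≤
      (1 + 1 / 50 + (1 / 50) ^ 2 / 2) * (1 + u + 77 / 200 * u ^ 2) := by
  obtain ⟨s, hs⟩ : ∃ s, s = u - (-3) := ⟨_, rfl⟩
  obtain ⟨t, ht⟩ : ∃ t, t = -2 - u := ⟨_, rfl⟩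
  have hs0 : 0 ≤ s := by linarith
  have ht0 : 0 ≤ t := by linarith
  have h : 0 ≤
      2887681 / 2000000 * t ^ 4 + 164767 / 37500 * s * t ^ 3 +
      4877259 / 1000000 * s ^ 2 * t ^ 2 + 58713 / 25000 * s ^ 3 * t + 25973 / 62500 * s ^ 4 := by
    positivity
  have e :
      2887681 / 2000000 * t ^ 4 + 164767 / 37500 * s * t ^ 3 +
      4877259 / 1000000 * s ^ 2 * t ^ 2 + 58713 / 25000 * s ^ 3 * t + 25973 / 62500 * s ^ 4 =
      (1 + 1 / 50 + (1 / 50) ^ 2 / 2) * (1 + u + 77 / 200 * u ^ 2) -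
      (13534 / 100000 *
      (1 + (u + 2) + (u + 2) ^ 2 / 2 + (u + 2) ^ 3 / 6 + (u + 2) ^ 4 / 24)) := by
    rw [hs, ht]
    ring
  rw [e] at h
  linarith

theorem ev_six_e03_d (u : ℝ) (h2 : u ≤ -3) :
    4979 / 100000 ≤
      (1 + 1 / 50 + (1 / 50) ^ 2 / 2) * (1 + u + 77 / 200 * u ^ 2) := by
  obtain ⟨s, hs⟩ : ∃ s, s = -3 - u := ⟨_, rfl⟩
  have hs0 : 0 ≤ s := by linarith
  have h : 0 ≤
      1444803 / 1000000 + 668231 / 500000 * s + 392777 / 1000000 * s ^ 2 := by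
    positivity
  have e :
      1444803 / 1000000 + 668231 / 500000 * s + 392777 / 1000000 * s ^ 2 =
      (1 + 1 / 50 + (1 / 50) ^ 2 / 2) * (1 + u + 77 / 200 * u ^ 2) -
      (4979 / 100000) := by
    rw [hs]
    ring
  rw [e] at h
  linarith

theorem ev_six_e03_g0 (u : ℝ) (h1 : 0 ≤ u) (h2 : u ≤ 2) :
    1 * (1 + (u - 0) / 6) ^ 6 ≤
      (1 + 1 / 50 + (1 / 50) ^ 2 / 2) * ((1 + (1 / 20 * u ^ 2) + (1 / 20 * u ^ 2) ^ 2 / 2 +
      (1 / 20 * u ^ 2) ^ 3 / 6) *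
      (1 + u + 77 / 200 * u ^ 2)) := by
  obtain ⟨s, hs⟩ : ∃ s, s = u - (0) := ⟨_, rfl⟩
  obtain ⟨t, ht⟩ : ∃ t, t = 2 - u := ⟨_, rfl⟩
  have hs0 : 0 ≤ s := by linarith
  have ht0 : 0 ≤ t := by linarith
  have h : 0 ≤
      101 / 1280000 * t ^ 8 + 101 / 128000 * s * t ^ 7 + 717661 / 192000000 * s ^ 2 * t ^ 6 +
      7755167 / 864000000 * s ^ 3 * t ^ 5 + 33090263 / 2880000000 * s ^ 4 * t ^ 4 +
      101356189 / 12960000000 * s ^ 5 * t ^ 3 + 6296880493 / 2332800000000 * s ^ 6 * t ^ 2 +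
      654449653 / 1166400000000 * s ^ 7 * t + 435163769 / 2916000000000 * s ^ 8 := by
    positivity
  have e :
      101 / 1280000 * t ^ 8 + 101 / 128000 * s * t ^ 7 + 717661 / 192000000 * s ^ 2 * t ^ 6 +
      7755167 / 864000000 * s ^ 3 * t ^ 5 + 33090263 / 2880000000 * s ^ 4 * t ^ 4 +
      101356189 / 12960000000 * s ^ 5 * t ^ 3 + 6296880493 / 2332800000000 * s ^ 6 * t ^ 2 +
      654449653 / 1166400000000 * s ^ 7 * t + 435163769 / 2916000000000 * s ^ 8 =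
      (1 + 1 / 50 + (1 / 50) ^ 2 / 2) * ((1 + (1 / 20 * u ^ 2) + (1 / 20 * u ^ 2) ^ 2 / 2 +
      (1 / 20 * u ^ 2) ^ 3 / 6) *
      (1 + u + 77 / 200 * u ^ 2)) -
      (1 * (1 + (u - 0) / 6) ^ 6) := by
    rw [hs, ht]
    ring
  rw [e] at h
  linarith

theorem ev_six_e03_t (u : ℝ) (h1 : 2 ≤ u) :
    1 * (1 + (u - 0) / 6) ^ 6 ≤
      (1 + 1 / 50 + (1 / 50) ^ 2 / 2) * ((1 + (1 / 20 * u ^ 2) + (1 / 20 * u ^ 2) ^ 2 / 2 +
      (1 / 20 * u ^ 2) ^ 3 / 6) *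
      (1 + u + 77 / 200 * u ^ 2)) := by
  obtain ⟨s, hs⟩ : ∃ s, s = u - (2) := ⟨_, rfl⟩
  have hs0 : 0 ≤ s := by linarith
  have h : 0 ≤
      435163769 / 11390625000 + 1230124013 / 15187500000 * s +
      11470422961 / 60750000000 * s ^ 2 + 7216012727 / 45562500000 * s ^ 3 +
      2864481893 / 48600000000 * s ^ 4 + 2878193351 / 243000000000 * s ^ 5 +
      4971284123 / 2916000000000 * s ^ 6 + 913079 / 6000000000 * s ^ 7 +
      392777 / 48000000000 * s ^ 8 := by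
    positivity
  have e :
      435163769 / 11390625000 + 1230124013 / 15187500000 * s +
      11470422961 / 60750000000 * s ^ 2 + 7216012727 / 45562500000 * s ^ 3 +
      2864481893 / 48600000000 * s ^ 4 + 2878193351 / 243000000000 * s ^ 5 +
      4971284123 / 2916000000000 * s ^ 6 + 913079 / 6000000000 * s ^ 7 +
      392777 / 48000000000 * s ^ 8 =
      (1 + 1 / 50 + (1 / 50) ^ 2 / 2) * ((1 + (1 / 20 * u ^ 2) + (1 / 20 * u ^ 2) ^ 2 / 2 +
      (1 / 20 * u ^ 2) ^ 3 / 6) *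
      (1 + u + 77 / 200 * u ^ 2)) -
      (1 * (1 + (u - 0) / 6) ^ 6) := by
    rw [hs]
    ring
  rw [e] at h
  linarith

/-- `K = 6`: `(c, μ, P, δ) = (77 / 200, 1 / 20, 0, 1 / 50)` -/
theorem expFd_six_e03 : ExpFd 6 (77 / 200) (1 / 20) (0) (1 / 50) := by
  have hde : (1 + 1 / 50 + (1 / 50) ^ 2 / 2) ≤ Real.exp (1 / 50) :=
    Real.quadratic_le_exp_of_nonneg (by norm_num)
  have hq : ∀ u : ℝ, 0 ≤ 1 + u + 77 / 200 * u ^ 2 := fun u => by
    nlinarith [sq_nonneg (u + 2), sq_nonneg u]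
  have hR : ∀ (u x y : ℝ), x ≤ y →
      y ≤ (1 + 1 / 50 + (1 / 50) ^ 2 / 2) * (1 + u + 77 / 200 * u ^ 2) →
      x ≤ Real.exp (1 / 50) * (1 + u + 77 / 200 * u ^ 2) := fun u x y h1 h2 =>
    (h1.trans h2).trans (mul_le_mul_of_nonneg_right hde (hq u))
  refine ExpFd.of (by norm_num) (by norm_num) (by norm_num) (by norm_num) (by norm_num) ?_ ?_ ?_
  · intro u h1
    rcases le_total u (-3) with h3 | h3
    · exact hR u _ _ (ev_exp_n3 h3) (ev_six_e03_d u h3)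
    rcases le_total u (-2) with h4 | h4
    · refine hR u _ _ (ev_exp_n2 h4) ?_
      exact ev_six_e03_c0 u (by linarith) (by linarith)
    rcases le_total u (-1) with h5 | h5
    · refine hR u _ _ (ev_exp_n1 h5) ?_
      exact ev_six_e03_b0 u (by linarith) (by linarith)
    refine hR u _ _ (ev_exp_n0 h1) ?_
    rcases le_total u (-3 / 4) with hh | hh
    · exact ev_six_e03_a0 u (by linarith) (by linarith)
    rcases le_total u (-5 / 8) with hh | hh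
    · exact ev_six_e03_a1 u (by linarith) (by linarith)
    rcases le_total u (-1 / 2) with hh | hh
    · exact ev_six_e03_a2 u (by linarith) (by linarith)
    exact ev_six_e03_a3 u (by linarith) (by linarith)
  · intro u h1 h2
    have h7 : u = 0 := le_antisymm h2 h1
    rw [h7, Real.exp_zero]
    have := Real.add_one_le_exp ((1 / 50 : ℝ) + 1 / 20 * 0 ^ 2)
    linarith
  · intro u h1
    have h4 : 0 ≤ (1 + (u - 0) / 6) ^ 6 := by
      have : 0 ≤ (u - 0) / 6 := div_nonneg (by linarith) (by norm_num)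
      positivity
    have hE : Real.exp (0) ≤ 1 := Real.exp_zero.le
    have hx : 0 ≤ 1 / 20 * u ^ 2 := by positivity
    have h5 := mul_le_mul_of_nonneg_right (taylor3_le_expE _ hx) (hq u)
    have h6 : 0 ≤ Real.exp (1 / 20 * u ^ 2) * (1 + u + 77 / 200 * u ^ 2) :=
      mul_nonneg (Real.exp_nonneg _) (hq u)
    rw [Real.exp_add, mul_assoc]
    push_cast
    refine ((mul_le_mul_of_nonneg_right hE h4).trans ?_).trans
      ((mul_le_mul_of_nonneg_left h5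
        (by norm_num : (0 : ℝ) ≤ (1 + 1 / 50 + (1 / 50) ^ 2 / 2))).trans
        (mul_le_mul_of_nonneg_right hde h6))
    rcases le_total u (2) with hh | hh
    · exact ev_six_e03_g0 u (by linarith) (by linarith)
    exact ev_six_e03_t u (by linarith)

theorem ev_six_e04_a0 (u : ℝ) (h1 : -1 ≤ u) (h2 : u ≤ -7 / 8) :
    1 + u + u ^ 2 / 2 + u ^ 3 / 6 + u ^ 4 / 24 ≤
      (1 + 1 / 20 + (1 / 20) ^ 2 / 2) * (1 + u + 9 / 25 * u ^ 2) := by
  obtain ⟨s, hs⟩ : ∃ s, s = u - (-1) := ⟨_, rfl⟩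
  obtain ⟨t, ht⟩ : ∃ t, t = -7 / 8 - u := ⟨_, rfl⟩
  have hs0 : 0 ≤ s := by linarith
  have ht0 : 0 ≤ t := by linarith
  have h : 0 ≤
      8832 / 625 * t ^ 4 + 13712 / 375 * s * t ^ 3 + 20706 / 625 * s ^ 2 * t ^ 2 +
      1636 / 125 * s ^ 3 * t + 35263 / 15000 * s ^ 4 := by
    positivity
  have e :
      8832 / 625 * t ^ 4 + 13712 / 375 * s * t ^ 3 + 20706 / 625 * s ^ 2 * t ^ 2 +
      1636 / 125 * s ^ 3 * t + 35263 / 15000 * s ^ 4 =
      (1 + 1 / 20 + (1 / 20) ^ 2 / 2) * (1 + u + 9 / 25 * u ^ 2) -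
      (1 + u + u ^ 2 / 2 + u ^ 3 / 6 + u ^ 4 / 24) := by
    rw [hs, ht]
    ring
  rw [e] at h
  linarith

theorem ev_six_e04_a1 (u : ℝ) (h1 : -7 / 8 ≤ u) (h2 : u ≤ -3 / 4) :
    1 + u + u ^ 2 / 2 + u ^ 3 / 6 + u ^ 4 / 24 ≤
      (1 + 1 / 20 + (1 / 20) ^ 2 / 2) * (1 + u + 9 / 25 * u ^ 2) := by
  obtain ⟨s, hs⟩ : ∃ s, s = u - (-7 / 8) := ⟨_, rfl⟩
  obtain ⟨t, ht⟩ : ∃ t, t = -3 / 4 - u := ⟨_, rfl⟩
  have hs0 : 0 ≤ s := by linarith
  have ht0 : 0 ≤ t := by linarith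
  have h : 0 ≤
      35263 / 15000 * t ^ 4 + 10723 / 1875 * s * t ^ 3 + 6889 / 625 * s ^ 2 * t ^ 2 +
      8828 / 625 * s ^ 3 * t + 4018 / 625 * s ^ 4 := by
    positivity
  have e :
      35263 / 15000 * t ^ 4 + 10723 / 1875 * s * t ^ 3 + 6889 / 625 * s ^ 2 * t ^ 2 +
      8828 / 625 * s ^ 3 * t + 4018 / 625 * s ^ 4 =
      (1 + 1 / 20 + (1 / 20) ^ 2 / 2) * (1 + u + 9 / 25 * u ^ 2) -
      (1 + u + u ^ 2 / 2 + u ^ 3 / 6 + u ^ 4 / 24) := by
    rw [hs, ht]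
    ring
  rw [e] at h
  linarith

theorem ev_six_e04_a2 (u : ℝ) (h1 : -3 / 4 ≤ u) (h2 : u ≤ -1 / 2) :
    1 + u + u ^ 2 / 2 + u ^ 3 / 6 + u ^ 4 / 24 ≤
      (1 + 1 / 20 + (1 / 20) ^ 2 / 2) * (1 + u + 9 / 25 * u ^ 2) := by
  obtain ⟨s, hs⟩ : ∃ s, s = u - (-3 / 4) := ⟨_, rfl⟩
  obtain ⟨t, ht⟩ : ∃ t, t = -1 / 2 - u := ⟨_, rfl⟩
  have hs0 : 0 ≤ s := by linarith
  have ht0 : 0 ≤ t := by linarith
  have h : 0 ≤
      2009 / 5000 * t ^ 4 + 382 / 125 * s * t ^ 3 + 10703 / 1250 * s ^ 2 * t ^ 2 +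
      3524 / 375 * s ^ 3 * t + 6464 / 1875 * s ^ 4 := by
    positivity
  have e :
      2009 / 5000 * t ^ 4 + 382 / 125 * s * t ^ 3 + 10703 / 1250 * s ^ 2 * t ^ 2 +
      3524 / 375 * s ^ 3 * t + 6464 / 1875 * s ^ 4 =
      (1 + 1 / 20 + (1 / 20) ^ 2 / 2) * (1 + u + 9 / 25 * u ^ 2) -
      (1 + u + u ^ 2 / 2 + u ^ 3 / 6 + u ^ 4 / 24) := by
    rw [hs, ht]
    ring
  rw [e] at h
  linarith

theorem ev_six_e04_a3 (u : ℝ) (h1 : -1 / 2 ≤ u) (h2 : u ≤ 0) :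
    1 + u + u ^ 2 / 2 + u ^ 3 / 6 + u ^ 4 / 24 ≤
      (1 + 1 / 20 + (1 / 20) ^ 2 / 2) * (1 + u + 9 / 25 * u ^ 2) := by
  obtain ⟨s, hs⟩ : ∃ s, s = u - (-1 / 2) := ⟨_, rfl⟩
  obtain ⟨t, ht⟩ : ∃ t, t = 0 - u := ⟨_, rfl⟩
  have hs0 : 0 ≤ s := by linarith
  have ht0 : 0 ≤ t := by linarith
  have h : 0 ≤
      404 / 1875 * t ^ 4 + 5291 / 3750 * s * t ^ 3 + 16019 / 5000 * s ^ 2 * t ^ 2 +
      287 / 100 * s ^ 3 * t + 41 / 50 * s ^ 4 := by
    positivity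
  have e :
      404 / 1875 * t ^ 4 + 5291 / 3750 * s * t ^ 3 + 16019 / 5000 * s ^ 2 * t ^ 2 +
      287 / 100 * s ^ 3 * t + 41 / 50 * s ^ 4 =
      (1 + 1 / 20 + (1 / 20) ^ 2 / 2) * (1 + u + 9 / 25 * u ^ 2) -
      (1 + u + u ^ 2 / 2 + u ^ 3 / 6 + u ^ 4 / 24) := by
    rw [hs, ht]
    ring
  rw [e] at h
  linarith

theorem ev_six_e04_b0 (u : ℝ) (h1 : -2 ≤ u) (h2 : u ≤ -1) :
    36788 / 100000 *
      (1 + (u + 1) + (u + 1) ^ 2 / 2 + (u + 1) ^ 3 / 6 + (u + 1) ^ 4 / 24) ≤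
      (1 + 1 / 20 + (1 / 20) ^ 2 / 2) * (1 + u + 9 / 25 * u ^ 2) := by
  obtain ⟨s, hs⟩ : ∃ s, s = u - (-2) := ⟨_, rfl⟩
  obtain ⟨t, ht⟩ : ∃ t, t = -1 - u := ⟨_, rfl⟩
  have hs0 : 0 ≤ s := by linarith
  have ht0 : 0 ≤ t := by linarith
  have h : 0 ≤
      64919 / 200000 * t ^ 4 + 213961 / 300000 * s * t ^ 3 + 11963 / 25000 * s ^ 2 * t ^ 2 +
      11581 / 100000 * s ^ 3 * t + 1057 / 100000 * s ^ 4 := by
    positivity
  have e :
      64919 / 200000 * t ^ 4 + 213961 / 300000 * s * t ^ 3 + 11963 / 25000 * s ^ 2 * t ^ 2 +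
      11581 / 100000 * s ^ 3 * t + 1057 / 100000 * s ^ 4 =
      (1 + 1 / 20 + (1 / 20) ^ 2 / 2) * (1 + u + 9 / 25 * u ^ 2) -
      (36788 / 100000 *
      (1 + (u + 1) + (u + 1) ^ 2 / 2 + (u + 1) ^ 3 / 6 + (u + 1) ^ 4 / 24)) := by
    rw [hs, ht]
    ring
  rw [e] at h
  linarith

theorem ev_six_e04_c0 (u : ℝ) (h1 : -3 ≤ u) (h2 : u ≤ -2) :
    13534 / 100000 *
      (1 + (u + 2) + (u + 2) ^ 2 / 2 + (u + 2) ^ 3 / 6 + (u + 2) ^ 4 / 24) ≤
      (1 + 1 / 20 + (1 / 20) ^ 2 / 2) * (1 + u + 9 / 25 * u ^ 2) := by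
  obtain ⟨s, hs⟩ : ∃ s, s = u - (-3) := ⟨_, rfl⟩
  obtain ⟨t, ht⟩ : ∃ t, t = -2 - u := ⟨_, rfl⟩
  have hs0 : 0 ≤ s := by linarith
  have ht0 : 0 ≤ t := by linarith
  have h : 0 ≤
      501119 / 400000 * t ^ 4 + 280997 / 75000 * s * t ^ 3 +
      406771 / 100000 * s ^ 2 * t ^ 2 + 190673 / 100000 * s ^ 3 * t + 32721 / 100000 * s ^ 4 := by
    positivity
  have e :
      501119 / 400000 * t ^ 4 + 280997 / 75000 * s * t ^ 3 +
      406771 / 100000 * s ^ 2 * t ^ 2 + 190673 / 100000 * s ^ 3 * t + 32721 / 100000 * s ^ 4 =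
      (1 + 1 / 20 + (1 / 20) ^ 2 / 2) * (1 + u + 9 / 25 * u ^ 2) -
      (13534 / 100000 *
      (1 + (u + 2) + (u + 2) ^ 2 / 2 + (u + 2) ^ 3 / 6 + (u + 2) ^ 4 / 24)) := by
    rw [hs, ht]
    ring
  rw [e] at h
  linarith

theorem ev_six_e04_d (u : ℝ) (h2 : u ≤ -3) :
    4979 / 100000 ≤
      (1 + 1 / 20 + (1 / 20) ^ 2 / 2) * (1 + u + 9 / 25 * u ^ 2) := by
  obtain ⟨s, hs⟩ : ∃ s, s = -3 - u := ⟨_, rfl⟩
  have hs0 : 0 ≤ s := by linarith
  have h : 0 ≤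
      3918 / 3125 + 24389 / 20000 * s + 7569 / 20000 * s ^ 2 := by
    positivity
  have e :
      3918 / 3125 + 24389 / 20000 * s + 7569 / 20000 * s ^ 2 =
      (1 + 1 / 20 + (1 / 20) ^ 2 / 2) * (1 + u + 9 / 25 * u ^ 2) -
      (4979 / 100000) := by
    rw [hs]
    ring
  rw [e] at h
  linarith

theorem ev_six_e04_g0 (u : ℝ) (h1 : 0 ≤ u) (h2 : u ≤ 2) :
    1 * (1 + (u - 0) / 6) ^ 6 ≤
      (1 + 1 / 20 + (1 / 20) ^ 2 / 2) * ((1 + (3 / 50 * u ^ 2) + (3 / 50 * u ^ 2) ^ 2 / 2 +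
      (3 / 50 * u ^ 2) ^ 3 / 6) *
      (1 + u + 9 / 25 * u ^ 2)) := by
  obtain ⟨s, hs⟩ : ∃ s, s = u - (0) := ⟨_, rfl⟩
  obtain ⟨t, ht⟩ : ∃ t, t = 2 - u := ⟨_, rfl⟩
  have hs0 : 0 ≤ s := by linarith
  have ht0 : 0 ≤ t := by linarith
  have h : 0 ≤
      41 / 204800 * t ^ 8 + 41 / 20480 * s * t ^ 7 + 33779 / 3840000 * s ^ 2 * t ^ 6 +
      1453399 / 69120000 * s ^ 3 * t ^ 5 + 4327987 / 144000000 * s ^ 4 * t ^ 4 +
      140823181 / 5184000000 * s ^ 5 * t ^ 3 + 4693209947 / 291600000000 * s ^ 6 * t ^ 2 +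
      1438616981 / 233280000000 * s ^ 7 * t + 71598229819 / 58320000000000 * s ^ 8 := by
    positivity
  have e :
      41 / 204800 * t ^ 8 + 41 / 20480 * s * t ^ 7 + 33779 / 3840000 * s ^ 2 * t ^ 6 +
      1453399 / 69120000 * s ^ 3 * t ^ 5 + 4327987 / 144000000 * s ^ 4 * t ^ 4 +
      140823181 / 5184000000 * s ^ 5 * t ^ 3 + 4693209947 / 291600000000 * s ^ 6 * t ^ 2 +
      1438616981 / 233280000000 * s ^ 7 * t + 71598229819 / 58320000000000 * s ^ 8 =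
      (1 + 1 / 20 + (1 / 20) ^ 2 / 2) * ((1 + (3 / 50 * u ^ 2) + (3 / 50 * u ^ 2) ^ 2 / 2 +
      (3 / 50 * u ^ 2) ^ 3 / 6) *
      (1 + u + 9 / 25 * u ^ 2)) -
      (1 * (1 + (u - 0) / 6) ^ 6) := by
    rw [hs, ht]
    ring
  rw [e] at h
  linarith

theorem ev_six_e04_t (u : ℝ) (h1 : 2 ≤ u) :
    1 * (1 + (u - 0) / 6) ^ 6 ≤
      (1 + 1 / 20 + (1 / 20) ^ 2 / 2) * ((1 + (3 / 50 * u ^ 2) + (3 / 50 * u ^ 2) ^ 2 / 2 +
      (3 / 50 * u ^ 2) ^ 3 / 6) *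
      (1 + u + 9 / 25 * u ^ 2)) := by
  obtain ⟨s, hs⟩ : ∃ s, s = u - (2) := ⟨_, rfl⟩
  have hs0 : 0 ≤ s := by linarith
  have h : 0 ≤
      71598229819 / 227812500000 + 35521932217 / 75937500000 * s +
      70968784597 / 151875000000 * s ^ 2 + 126088217441 / 455625000000 * s ^ 3 +
      11171271611 / 121500000000 * s ^ 4 + 11405645447 / 607500000000 * s ^ 5 +
      10036004233 / 3645000000000 * s ^ 6 + 1279161 / 5000000000 * s ^ 7 +
      68121 / 5000000000 * s ^ 8 := by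
    positivity
  have e :
      71598229819 / 227812500000 + 35521932217 / 75937500000 * s +
      70968784597 / 151875000000 * s ^ 2 + 126088217441 / 455625000000 * s ^ 3 +
      11171271611 / 121500000000 * s ^ 4 + 11405645447 / 607500000000 * s ^ 5 +
      10036004233 / 3645000000000 * s ^ 6 + 1279161 / 5000000000 * s ^ 7 +
      68121 / 5000000000 * s ^ 8 =
      (1 + 1 / 20 + (1 / 20) ^ 2 / 2) * ((1 + (3 / 50 * u ^ 2) + (3 / 50 * u ^ 2) ^ 2 / 2 +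
      (3 / 50 * u ^ 2) ^ 3 / 6) *
      (1 + u + 9 / 25 * u ^ 2)) -
      (1 * (1 + (u - 0) / 6) ^ 6) := by
    rw [hs]
    ring
  rw [e] at h
  linarith

/-- `K = 6`: `(c, μ, P, δ) = (9 / 25, 3 / 50, 0, 1 / 20)` -/
theorem expFd_six_e04 : ExpFd 6 (9 / 25) (3 / 50) (0) (1 / 20) := by
  have hde : (1 + 1 / 20 + (1 / 20) ^ 2 / 2) ≤ Real.exp (1 / 20) :=
    Real.quadratic_le_exp_of_nonneg (by norm_num)
  have hq : ∀ u : ℝ, 0 ≤ 1 + u + 9 / 25 * u ^ 2 := fun u => by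
    nlinarith [sq_nonneg (u + 2), sq_nonneg u]
  have hR : ∀ (u x y : ℝ), x ≤ y →
      y ≤ (1 + 1 / 20 + (1 / 20) ^ 2 / 2) * (1 + u + 9 / 25 * u ^ 2) →
      x ≤ Real.exp (1 / 20) * (1 + u + 9 / 25 * u ^ 2) := fun u x y h1 h2 =>
    (h1.trans h2).trans (mul_le_mul_of_nonneg_right hde (hq u))
  refine ExpFd.of (by norm_num) (by norm_num) (by norm_num) (by norm_num) (by norm_num) ?_ ?_ ?_
  · intro u h1
    rcases le_total u (-3) with h3 | h3
    · exact hR u _ _ (ev_exp_n3 h3) (ev_six_e04_d u h3)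
    rcases le_total u (-2) with h4 | h4
    · refine hR u _ _ (ev_exp_n2 h4) ?_
      exact ev_six_e04_c0 u (by linarith) (by linarith)
    rcases le_total u (-1) with h5 | h5
    · refine hR u _ _ (ev_exp_n1 h5) ?_
      exact ev_six_e04_b0 u (by linarith) (by linarith)
    refine hR u _ _ (ev_exp_n0 h1) ?_
    rcases le_total u (-7 / 8) with hh | hh
    · exact ev_six_e04_a0 u (by linarith) (by linarith)
    rcases le_total u (-3 / 4) with hh | hh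
    · exact ev_six_e04_a1 u (by linarith) (by linarith)
    rcases le_total u (-1 / 2) with hh | hh
    · exact ev_six_e04_a2 u (by linarith) (by linarith)
    exact ev_six_e04_a3 u (by linarith) (by linarith)
  · intro u h1 h2
    have h7 : u = 0 := le_antisymm h2 h1
    rw [h7, Real.exp_zero]
    have := Real.add_one_le_exp ((1 / 20 : ℝ) + 3 / 50 * 0 ^ 2)
    linarith
  · intro u h1
    have h4 : 0 ≤ (1 + (u - 0) / 6) ^ 6 := by
      have : 0 ≤ (u - 0) / 6 := div_nonneg (by linarith) (by norm_num)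
      positivity
    have hE : Real.exp (0) ≤ 1 := Real.exp_zero.le
    have hx : 0 ≤ 3 / 50 * u ^ 2 := by positivity
    have h5 := mul_le_mul_of_nonneg_right (taylor3_le_expE _ hx) (hq u)
    have h6 : 0 ≤ Real.exp (3 / 50 * u ^ 2) * (1 + u + 9 / 25 * u ^ 2) :=
      mul_nonneg (Real.exp_nonneg _) (hq u)
    rw [Real.exp_add, mul_assoc]
    push_cast
    refine ((mul_le_mul_of_nonneg_right hE h4).trans ?_).trans
      ((mul_le_mul_of_nonneg_left h5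
        (by norm_num : (0 : ℝ) ≤ (1 + 1 / 20 + (1 / 20) ^ 2 / 2))).trans
        (mul_le_mul_of_nonneg_right hde h6))
    rcases le_total u (2) with hh | hh
    · exact ev_six_e04_g0 u (by linarith) (by linarith)
    exact ev_six_e04_t u (by linarith)

theorem ev_six_e05_a0 (u : ℝ) (h1 : -1 ≤ u) (h2 : u ≤ 0) :
    1 + u + u ^ 2 / 2 + u ^ 3 / 6 + u ^ 4 / 24 ≤
      (1 + 1 / 10 + (1 / 10) ^ 2 / 2) * (1 + u + 17 / 50 * u ^ 2) := by
  obtain ⟨s, hs⟩ : ∃ s, s = u - (-1) := ⟨_, rfl⟩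
  obtain ⟨t, ht⟩ : ∃ t, t = 0 - u := ⟨_, rfl⟩
  have hs0 : 0 ≤ s := by linarith
  have ht0 : 0 ≤ t := by linarith
  have h : 0 ≤
      7 / 10000 * t ^ 4 + 173 / 7500 * s * t ^ 3 + 1907 / 10000 * s ^ 2 * t ^ 2 +
      63 / 200 * s ^ 3 * t + 21 / 200 * s ^ 4 := by
    positivity
  have e :
      7 / 10000 * t ^ 4 + 173 / 7500 * s * t ^ 3 + 1907 / 10000 * s ^ 2 * t ^ 2 +
      63 / 200 * s ^ 3 * t + 21 / 200 * s ^ 4 =
      (1 + 1 / 10 + (1 / 10) ^ 2 / 2) * (1 + u + 17 / 50 * u ^ 2) -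
      (1 + u + u ^ 2 / 2 + u ^ 3 / 6 + u ^ 4 / 24) := by
    rw [hs, ht]
    ring
  rw [e] at h
  linarith

theorem ev_six_e05_b0 (u : ℝ) (h1 : -2 ≤ u) (h2 : u ≤ -1) :
    36788 / 100000 *
      (1 + (u + 1) + (u + 1) ^ 2 / 2 + (u + 1) ^ 3 / 6 + (u + 1) ^ 4 / 24) ≤
      (1 + 1 / 10 + (1 / 10) ^ 2 / 2) * (1 + u + 17 / 50 * u ^ 2) := by
  obtain ⟨s, hs⟩ : ∃ s, s = u - (-2) := ⟨_, rfl⟩
  obtain ⟨t, ht⟩ : ∃ t, t = -1 - u := ⟨_, rfl⟩
  have hs0 : 0 ≤ s := by linarith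
  have ht0 : 0 ≤ t := by linarith
  have h : 0 ≤
      51969 / 200000 * t ^ 4 + 77843 / 150000 * s * t ^ 3 + 3519 / 12500 * s ^ 2 * t ^ 2 +
      1139 / 25000 * s ^ 3 * t + 391 / 50000 * s ^ 4 := by
    positivity
  have e :
      51969 / 200000 * t ^ 4 + 77843 / 150000 * s * t ^ 3 + 3519 / 12500 * s ^ 2 * t ^ 2 +
      1139 / 25000 * s ^ 3 * t + 391 / 50000 * s ^ 4 =
      (1 + 1 / 10 + (1 / 10) ^ 2 / 2) * (1 + u + 17 / 50 * u ^ 2) -
      (36788 / 100000 *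
      (1 + (u + 1) + (u + 1) ^ 2 / 2 + (u + 1) ^ 3 / 6 + (u + 1) ^ 4 / 24)) := by
    rw [hs, ht]
    ring
  rw [e] at h
  linarith

theorem ev_six_e05_c0 (u : ℝ) (h1 : -3 ≤ u) (h2 : u ≤ -2) :
    13534 / 100000 *
      (1 + (u + 2) + (u + 2) ^ 2 / 2 + (u + 2) ^ 3 / 6 + (u + 2) ^ 4 / 24) ≤
      (1 + 1 / 10 + (1 / 10) ^ 2 / 2) * (1 + u + 17 / 50 * u ^ 2) := by
  obtain ⟨s, hs⟩ : ∃ s, s = u - (-3) := ⟨_, rfl⟩
  obtain ⟨t, ht⟩ : ∃ t, t = -2 - u := ⟨_, rfl⟩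
  have hs0 : 0 ≤ s := by linarith
  have ht0 : 0 ≤ t := by linarith
  have h : 0 ≤
      448219 / 400000 * t ^ 4 + 986363 / 300000 * s * t ^ 3 +
      348221 / 100000 * s ^ 2 * t ^ 2 + 79149 / 50000 * s ^ 3 * t + 13123 / 50000 * s ^ 4 := by
    positivity
  have e :
      448219 / 400000 * t ^ 4 + 986363 / 300000 * s * t ^ 3 +
      348221 / 100000 * s ^ 2 * t ^ 2 + 79149 / 50000 * s ^ 3 * t + 13123 / 50000 * s ^ 4 =
      (1 + 1 / 10 + (1 / 10) ^ 2 / 2) * (1 + u + 17 / 50 * u ^ 2) -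
      (13534 / 100000 *
      (1 + (u + 2) + (u + 2) ^ 2 / 2 + (u + 2) ^ 3 / 6 + (u + 2) ^ 4 / 24)) := by
    rw [hs, ht]
    ring
  rw [e] at h
  linarith

theorem ev_six_e05_d (u : ℝ) (h2 : u ≤ -3) :
    4979 / 100000 ≤
      (1 + 1 / 10 + (1 / 10) ^ 2 / 2) * (1 + u + 17 / 50 * u ^ 2) := by
  obtain ⟨s, hs⟩ : ∃ s, s = -3 - u := ⟨_, rfl⟩
  have hs0 : 0 ≤ s := by linarith
  have h : 0 ≤
      112151 / 100000 + 2873 / 2500 * s + 3757 / 10000 * s ^ 2 := by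
    positivity
  have e :
      112151 / 100000 + 2873 / 2500 * s + 3757 / 10000 * s ^ 2 =
      (1 + 1 / 10 + (1 / 10) ^ 2 / 2) * (1 + u + 17 / 50 * u ^ 2) -
      (4979 / 100000) := by
    rw [hs]
    ring
  rw [e] at h
  linarith

theorem ev_six_e05_g0 (u : ℝ) (h1 : 0 ≤ u) (h2 : u ≤ 2) :
    1 * (1 + (u - 0) / 6) ^ 6 ≤
      (1 + 1 / 10 + (1 / 10) ^ 2 / 2) * ((1 + (3 / 50 * u ^ 2) + (3 / 50 * u ^ 2) ^ 2 / 2 +
      (3 / 50 * u ^ 2) ^ 3 / 6) *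
      (1 + u + 17 / 50 * u ^ 2)) := by
  obtain ⟨s, hs⟩ : ∃ s, s = u - (0) := ⟨_, rfl⟩
  obtain ⟨t, ht⟩ : ∃ t, t = 2 - u := ⟨_, rfl⟩
  have hs0 : 0 ≤ s := by linarith
  have ht0 : 0 ≤ t := by linarith
  have h : 0 ≤
      21 / 51200 * t ^ 8 + 21 / 5120 * s * t ^ 7 + 6767 / 384000 * s ^ 2 * t ^ 6 +
      721417 / 17280000 * s ^ 3 * t ^ 5 + 8648779 / 144000000 * s ^ 4 * t ^ 4 +
      70983637 / 1296000000 * s ^ 5 * t ^ 3 + 9308170691 / 291600000000 * s ^ 6 * t ^ 2 +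
      3310583731 / 291600000000 * s ^ 7 * t + 28776657541 / 14580000000000 * s ^ 8 := by
    positivity
  have e :
      21 / 51200 * t ^ 8 + 21 / 5120 * s * t ^ 7 + 6767 / 384000 * s ^ 2 * t ^ 6 +
      721417 / 17280000 * s ^ 3 * t ^ 5 + 8648779 / 144000000 * s ^ 4 * t ^ 4 +
      70983637 / 1296000000 * s ^ 5 * t ^ 3 + 9308170691 / 291600000000 * s ^ 6 * t ^ 2 +
      3310583731 / 291600000000 * s ^ 7 * t + 28776657541 / 14580000000000 * s ^ 8 =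
      (1 + 1 / 10 + (1 / 10) ^ 2 / 2) * ((1 + (3 / 50 * u ^ 2) + (3 / 50 * u ^ 2) ^ 2 / 2 +
      (3 / 50 * u ^ 2) ^ 3 / 6) *
      (1 + u + 17 / 50 * u ^ 2)) -
      (1 * (1 + (u - 0) / 6) ^ 6) := by
    rw [hs, ht]
    ring
  rw [e] at h
  linarith

theorem ev_six_e05_t (u : ℝ) (h1 : 2 ≤ u) :
    1 * (1 + (u - 0) / 6) ^ 6 ≤
      (1 + 1 / 10 + (1 / 10) ^ 2 / 2) * ((1 + (3 / 50 * u ^ 2) + (3 / 50 * u ^ 2) ^ 2 / 2 +
      (3 / 50 * u ^ 2) ^ 3 / 6) *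
      (1 + u + 17 / 50 * u ^ 2)) := by
  obtain ⟨s, hs⟩ : ∃ s, s = u - (2) := ⟨_, rfl⟩
  have hs0 : 0 ≤ s := by linarith
  have h : 0 ≤
      28776657541 / 56953125000 + 10780678963 / 18984375000 * s +
      4685443327 / 9492187500 * s ^ 2 + 32316298949 / 113906250000 * s ^ 3 +
      2827726979 / 30375000000 * s ^ 4 + 2878560233 / 151875000000 * s ^ 5 +
      1260417731 / 455625000000 * s ^ 6 + 320229 / 1250000000 * s ^ 7 +
      33813 / 2500000000 * s ^ 8 := by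
    positivity
  have e :
      28776657541 / 56953125000 + 10780678963 / 18984375000 * s +
      4685443327 / 9492187500 * s ^ 2 + 32316298949 / 113906250000 * s ^ 3 +
      2827726979 / 30375000000 * s ^ 4 + 2878560233 / 151875000000 * s ^ 5 +
      1260417731 / 455625000000 * s ^ 6 + 320229 / 1250000000 * s ^ 7 +
      33813 / 2500000000 * s ^ 8 =
      (1 + 1 / 10 + (1 / 10) ^ 2 / 2) * ((1 + (3 / 50 * u ^ 2) + (3 / 50 * u ^ 2) ^ 2 / 2 +
      (3 / 50 * u ^ 2) ^ 3 / 6) *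
      (1 + u + 17 / 50 * u ^ 2)) -
      (1 * (1 + (u - 0) / 6) ^ 6) := by
    rw [hs]
    ring
  rw [e] at h
  linarith

/-- `K = 6`: `(c, μ, P, δ) = (17 / 50, 3 / 50, 0, 1 / 10)` -/
theorem expFd_six_e05 : ExpFd 6 (17 / 50) (3 / 50) (0) (1 / 10) := by
  have hde : (1 + 1 / 10 + (1 / 10) ^ 2 / 2) ≤ Real.exp (1 / 10) :=
    Real.quadratic_le_exp_of_nonneg (by norm_num)
  have hq : ∀ u : ℝ, 0 ≤ 1 + u + 17 / 50 * u ^ 2 := fun u => by
    nlinarith [sq_nonneg (u + 2), sq_nonneg u]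
  have hR : ∀ (u x y : ℝ), x ≤ y →
      y ≤ (1 + 1 / 10 + (1 / 10) ^ 2 / 2) * (1 + u + 17 / 50 * u ^ 2) →
      x ≤ Real.exp (1 / 10) * (1 + u + 17 / 50 * u ^ 2) := fun u x y h1 h2 =>
    (h1.trans h2).trans (mul_le_mul_of_nonneg_right hde (hq u))
  refine ExpFd.of (by norm_num) (by norm_num) (by norm_num) (by norm_num) (by norm_num) ?_ ?_ ?_
  · intro u h1
    rcases le_total u (-3) with h3 | h3
    · exact hR u _ _ (ev_exp_n3 h3) (ev_six_e05_d u h3)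
    rcases le_total u (-2) with h4 | h4
    · refine hR u _ _ (ev_exp_n2 h4) ?_
      exact ev_six_e05_c0 u (by linarith) (by linarith)
    rcases le_total u (-1) with h5 | h5
    · refine hR u _ _ (ev_exp_n1 h5) ?_
      exact ev_six_e05_b0 u (by linarith) (by linarith)
    refine hR u _ _ (ev_exp_n0 h1) ?_
    exact ev_six_e05_a0 u (by linarith) (by linarith)
  · intro u h1 h2
    have h7 : u = 0 := le_antisymm h2 h1
    rw [h7, Real.exp_zero]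
    have := Real.add_one_le_exp ((1 / 10 : ℝ) + 3 / 50 * 0 ^ 2)
    linarith
  · intro u h1
    have h4 : 0 ≤ (1 + (u - 0) / 6) ^ 6 := by
      have : 0 ≤ (u - 0) / 6 := div_nonneg (by linarith) (by norm_num)
      positivity
    have hE : Real.exp (0) ≤ 1 := Real.exp_zero.le
    have hx : 0 ≤ 3 / 50 * u ^ 2 := by positivity
    have h5 := mul_le_mul_of_nonneg_right (taylor3_le_expE _ hx) (hq u)
    have h6 : 0 ≤ Real.exp (3 / 50 * u ^ 2) * (1 + u + 17 / 50 * u ^ 2) :=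
      mul_nonneg (Real.exp_nonneg _) (hq u)
    rw [Real.exp_add, mul_assoc]
    push_cast
    refine ((mul_le_mul_of_nonneg_right hE h4).trans ?_).trans
      ((mul_le_mul_of_nonneg_left h5
        (by norm_num : (0 : ℝ) ≤ (1 + 1 / 10 + (1 / 10) ^ 2 / 2))).trans
        (mul_le_mul_of_nonneg_right hde h6))
    rcases le_total u (2) with hh | hh
    · exact ev_six_e05_g0 u (by linarith) (by linarith)
    exact ev_six_e05_t u (by linarith)

theorem ev_six_e10_a0 (u : ℝ) (h1 : -1 ≤ u) (h2 : u ≤ -1 / 2) :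
    1 + u + u ^ 2 / 2 + u ^ 3 / 6 + u ^ 4 / 24 ≤
      (1 + 1 / 500 + (1 / 500) ^ 2 / 2) * (1 + u + 119 / 250 * u ^ 2) := by
  obtain ⟨s, hs⟩ : ∃ s, s = u - (-1) := ⟨_, rfl⟩
  obtain ⟨t, ht⟩ : ∃ t, t = -1 / 2 - u := ⟨_, rfl⟩
  have hs0 : 0 ≤ s := by linarith
  have ht0 : 0 ≤ t := by linarith
  have h : 0 ≤
      12744119 / 7812500 * t ^ 4 + 49723723 / 11718750 * s * t ^ 3 +
      120300047 / 31250000 * s ^ 2 * t ^ 2 + 23358107 / 15625000 * s ^ 3 * t +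
      20202607 / 93750000 * s ^ 4 := by
    positivity
  have e :
      12744119 / 7812500 * t ^ 4 + 49723723 / 11718750 * s * t ^ 3 +
      120300047 / 31250000 * s ^ 2 * t ^ 2 + 23358107 / 15625000 * s ^ 3 * t +
      20202607 / 93750000 * s ^ 4 =
      (1 + 1 / 500 + (1 / 500) ^ 2 / 2) * (1 + u + 119 / 250 * u ^ 2) -
      (1 + u + u ^ 2 / 2 + u ^ 3 / 6 + u ^ 4 / 24) := by
    rw [hs, ht]
    ring
  rw [e] at h
  linarith

theorem ev_six_e10_a1 (u : ℝ) (h1 : -1 / 2 ≤ u) (h2 : u ≤ 0) :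
    1 + u + u ^ 2 / 2 + u ^ 3 / 6 + u ^ 4 / 24 ≤
      (1 + 1 / 500 + (1 / 500) ^ 2 / 2) * (1 + u + 119 / 250 * u ^ 2) := by
  obtain ⟨s, hs⟩ : ∃ s, s = u - (-1 / 2) := ⟨_, rfl⟩
  obtain ⟨t, ht⟩ : ∃ t, t = 0 - u := ⟨_, rfl⟩
  have hs0 : 0 ≤ s := by linarith
  have ht0 : 0 ≤ t := by linarith
  have h : 0 ≤
      20202607 / 93750000 * t ^ 4 + 10736107 / 46875000 * s * t ^ 3 +
      1623619 / 31250000 * s ^ 2 * t ^ 2 + 7007 / 62500 * s ^ 3 * t + 1001 / 31250 * s ^ 4 := by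
    positivity
  have e :
      20202607 / 93750000 * t ^ 4 + 10736107 / 46875000 * s * t ^ 3 +
      1623619 / 31250000 * s ^ 2 * t ^ 2 + 7007 / 62500 * s ^ 3 * t + 1001 / 31250 * s ^ 4 =
      (1 + 1 / 500 + (1 / 500) ^ 2 / 2) * (1 + u + 119 / 250 * u ^ 2) -
      (1 + u + u ^ 2 / 2 + u ^ 3 / 6 + u ^ 4 / 24) := by
    rw [hs, ht]
    ring
  rw [e] at h
  linarith

theorem ev_six_e10_b0 (u : ℝ) (h1 : -2 ≤ u) (h2 : u ≤ -1) :
    36788 / 100000 *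
      (1 + (u + 1) + (u + 1) ^ 2 / 2 + (u + 1) ^ 3 / 6 + (u + 1) ^ 4 / 24) ≤
      (1 + 1 / 500 + (1 / 500) ^ 2 / 2) * (1 + u + 119 / 250 * u ^ 2) := by
  obtain ⟨s, hs⟩ : ∃ s, s = u - (-2) := ⟨_, rfl⟩
  obtain ⟨t, ht⟩ : ∃ t, t = -1 - u := ⟨_, rfl⟩
  have hs0 : 0 ≤ s := by linarith
  have ht0 : 0 ≤ t := by linarith
  have h : 0 ≤
      95981851 / 125000000 * t ^ 4 + 383059267 / 187500000 * s * t ^ 3 +
      238350297 / 125000000 * s ^ 2 * t ^ 2 + 11813683 / 15625000 * s ^ 3 * t +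
      13634119 / 125000000 * s ^ 4 := by
    positivity
  have e :
      95981851 / 125000000 * t ^ 4 + 383059267 / 187500000 * s * t ^ 3 +
      238350297 / 125000000 * s ^ 2 * t ^ 2 + 11813683 / 15625000 * s ^ 3 * t +
      13634119 / 125000000 * s ^ 4 =
      (1 + 1 / 500 + (1 / 500) ^ 2 / 2) * (1 + u + 119 / 250 * u ^ 2) -
      (36788 / 100000 *
      (1 + (u + 1) + (u + 1) ^ 2 / 2 + (u + 1) ^ 3 / 6 + (u + 1) ^ 4 / 24)) := by
    rw [hs, ht]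
    ring
  rw [e] at h
  linarith

theorem ev_six_e10_c0 (u : ℝ) (h1 : -3 ≤ u) (h2 : u ≤ -2) :
    13534 / 100000 *
      (1 + (u + 2) + (u + 2) ^ 2 / 2 + (u + 2) ^ 3 / 6 + (u + 2) ^ 4 / 24) ≤
      (1 + 1 / 500 + (1 / 500) ^ 2 / 2) * (1 + u + 119 / 250 * u ^ 2) := by
  obtain ⟨s, hs⟩ : ∃ s, s = u - (-3) := ⟨_, rfl⟩
  obtain ⟨t, ht⟩ : ∃ t, t = -2 - u := ⟨_, rfl⟩
  have hs0 : 0 ≤ s := by linarith
  have ht0 : 0 ≤ t := by linarith
  have h : 0 ≤
      559455017 / 250000000 * t ^ 4 + 264241921 / 37500000 * s * t ^ 3 +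
      1019443903 / 125000000 * s ^ 2 * t ^ 2 + 51537863 / 12500000 * s ^ 3 * t +
      48154363 / 62500000 * s ^ 4 := by
    positivity
  have e :
      559455017 / 250000000 * t ^ 4 + 264241921 / 37500000 * s * t ^ 3 +
      1019443903 / 125000000 * s ^ 2 * t ^ 2 + 51537863 / 12500000 * s ^ 3 * t +
      48154363 / 62500000 * s ^ 4 =
      (1 + 1 / 500 + (1 / 500) ^ 2 / 2) * (1 + u + 119 / 250 * u ^ 2) -
      (13534 / 100000 *
      (1 + (u + 2) + (u + 2) ^ 2 / 2 + (u + 2) ^ 3 / 6 + (u + 2) ^ 4 / 24)) := by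
    rw [hs, ht]
    ring
  rw [e] at h
  linarith

theorem ev_six_e10_d (u : ℝ) (h2 : u ≤ -3) :
    4979 / 100000 ≤
      (1 + 1 / 500 + (1 / 500) ^ 2 / 2) * (1 + u + 119 / 250 * u ^ 2) := by
  obtain ⟨s, hs⟩ : ∃ s, s = -3 - u := ⟨_, rfl⟩
  have hs0 : 0 ≤ s := by linarith
  have h : 0 ≤
      279847821 / 125000000 + 14529029 / 7812500 * s + 59619119 / 125000000 * s ^ 2 := by
    positivity
  have e :
      279847821 / 125000000 + 14529029 / 7812500 * s + 59619119 / 125000000 * s ^ 2 =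
      (1 + 1 / 500 + (1 / 500) ^ 2 / 2) * (1 + u + 119 / 250 * u ^ 2) -
      (4979 / 100000) := by
    rw [hs]
    ring
  rw [e] at h
  linarith

theorem ev_six_e10_e0 (u : ℝ) (h1 : 0 ≤ u) (h2 : u ≤ 1 / 10) :
    1 + u + u ^ 2 / 2 + u ^ 3 / 6 + u ^ 4 / 24 + u ^ 5 / 100 ≤
      (1 + 1 / 500 + (1 / 500) ^ 2 / 2) * ((1 + 1 / 25 * u ^ 2) *
      (1 + u + 119 / 250 * u ^ 2)) := by
  obtain ⟨s, hs⟩ : ∃ s, s = u - (0) := ⟨_, rfl⟩
  obtain ⟨t, ht⟩ : ∃ t, t = 1 / 10 - u := ⟨_, rfl⟩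
  have hs0 : 0 ≤ s := by linarith
  have ht0 : 0 ≤ t := by linarith
  have h : 0 ≤
      1001 / 5 * t ^ 5 + 51051 / 50 * s * t ^ 4 + 262389129 / 125000 * s ^ 2 * t ^ 3 +
      202552541 / 93750 * s ^ 3 * t ^ 2 + 345823716619 / 312500000 * s ^ 4 * t +
      210336082357 / 937500000 * s ^ 5 := by
    positivity
  have e :
      1001 / 5 * t ^ 5 + 51051 / 50 * s * t ^ 4 + 262389129 / 125000 * s ^ 2 * t ^ 3 +
      202552541 / 93750 * s ^ 3 * t ^ 2 + 345823716619 / 312500000 * s ^ 4 * t +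
      210336082357 / 937500000 * s ^ 5 =
      (1 + 1 / 500 + (1 / 500) ^ 2 / 2) * ((1 + 1 / 25 * u ^ 2) *
      (1 + u + 119 / 250 * u ^ 2)) -
      (1 + u + u ^ 2 / 2 + u ^ 3 / 6 + u ^ 4 / 24 + u ^ 5 / 100) := by
    rw [hs, ht]
    ring
  rw [e] at h
  linarith

theorem ev_six_e10_g0 (u : ℝ) (h1 : 1 / 10 ≤ u) (h2 : u ≤ 31 / 20) :
    55259 / 50000 * (1 + (u - 1 / 10) / 6) ^ 6 ≤
      (1 + 1 / 500 + (1 / 500) ^ 2 / 2) * ((1 + (1 / 25 * u ^ 2) + (1 / 25 * u ^ 2) ^ 2 / 2 +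
      (1 / 25 * u ^ 2) ^ 3 / 6) *
      (1 + u + 119 / 250 * u ^ 2)) := by
  obtain ⟨s, hs⟩ : ∃ s, s = u - (1 / 10) := ⟨_, rfl⟩
  obtain ⟨t, ht⟩ : ∃ t, t = 31 / 20 - u := ⟨_, rfl⟩
  have hs0 : 0 ≤ s := by linarith
  have ht0 : 0 ≤ t := by linarith
  have h : 0 ≤
      5237359643798578238 / 45798926967864990234375 * t ^ 8 +
      47033753405401664012 / 45798926967864990234375 * s * t ^ 7 +
      175460786788280807342 / 15266308989288330078125 * s ^ 2 * t ^ 6 +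
      18688724041978703249629 / 412190342710784912109375 * s ^ 3 * t ^ 5 +
      27681553585104246313937 / 329752274168627929687500 * s ^ 4 * t ^ 4 +
      102355784085030461367133 / 1236571028132354736328125 * s ^ 5 * t ^ 3 +
      31472617999882108349134837 / 712264912204236328125000000 * s ^ 6 * t ^ 2 +
      4214428681713236858246023 / 356132456102118164062500000 * s ^ 7 * t +
      1764946182097666004709647 / 1424529824408472656250000000 * s ^ 8 := by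
    positivity
  have e :
      5237359643798578238 / 45798926967864990234375 * t ^ 8 +
      47033753405401664012 / 45798926967864990234375 * s * t ^ 7 +
      175460786788280807342 / 15266308989288330078125 * s ^ 2 * t ^ 6 +
      18688724041978703249629 / 412190342710784912109375 * s ^ 3 * t ^ 5 +
      27681553585104246313937 / 329752274168627929687500 * s ^ 4 * t ^ 4 +
      102355784085030461367133 / 1236571028132354736328125 * s ^ 5 * t ^ 3 +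
      31472617999882108349134837 / 712264912204236328125000000 * s ^ 6 * t ^ 2 +
      4214428681713236858246023 / 356132456102118164062500000 * s ^ 7 * t +
      1764946182097666004709647 / 1424529824408472656250000000 * s ^ 8 =
      (1 + 1 / 500 + (1 / 500) ^ 2 / 2) * ((1 + (1 / 25 * u ^ 2) + (1 / 25 * u ^ 2) ^ 2 / 2 +
      (1 / 25 * u ^ 2) ^ 3 / 6) *
      (1 + u + 119 / 250 * u ^ 2)) -
      (55259 / 50000 * (1 + (u - 1 / 10) / 6) ^ 6) := by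
    rw [hs, ht]
    ring
  rw [e] at h
  linarith

theorem ev_six_e10_g1 (u : ℝ) (h1 : 31 / 20 ≤ u) (h2 : u ≤ 91 / 40) :
    55259 / 50000 * (1 + (u - 1 / 10) / 6) ^ 6 ≤
      (1 + 1 / 500 + (1 / 500) ^ 2 / 2) * ((1 + (1 / 25 * u ^ 2) + (1 / 25 * u ^ 2) ^ 2 / 2 +
      (1 / 25 * u ^ 2) ^ 3 / 6) *
      (1 + u + 119 / 250 * u ^ 2)) := by
  obtain ⟨s, hs⟩ : ∃ s, s = u - (31 / 20) := ⟨_, rfl⟩
  obtain ⟨t, ht⟩ : ∃ t, t = 91 / 40 - u := ⟨_, rfl⟩
  have hs0 : 0 ≤ s := by linarith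
  have ht0 : 0 ≤ t := by linarith
  have h : 0 ≤
      3529892364195332009419294 / 11129139253191192626953125 * t ^ 8 +
      25500993643491036680047436 / 11129139253191192626953125 * s * t ^ 7 +
      76849832312232076896217393 / 11129139253191192626953125 * s ^ 2 * t ^ 6 +
      13821970241285131760025272 / 1236571028132354736328125 * s ^ 3 * t ^ 5 +
      63455943627175867520733 / 6106523595715332031250 * s ^ 4 * t ^ 4 +
      9021941193114606783185429 / 1648761370843139648437500 * s ^ 5 * t ^ 3 +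
      367293018121273919968147 / 244260943828613281250000 * s ^ 6 * t ^ 2 +
      72847573256438631646909 / 366391415742919921875000 * s ^ 7 * t +
      129928138595336923594999 / 5862262651886718750000000 * s ^ 8 := by
    positivity
  have e :
      3529892364195332009419294 / 11129139253191192626953125 * t ^ 8 +
      25500993643491036680047436 / 11129139253191192626953125 * s * t ^ 7 +
      76849832312232076896217393 / 11129139253191192626953125 * s ^ 2 * t ^ 6 +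
      13821970241285131760025272 / 1236571028132354736328125 * s ^ 3 * t ^ 5 +
      63455943627175867520733 / 6106523595715332031250 * s ^ 4 * t ^ 4 +
      9021941193114606783185429 / 1648761370843139648437500 * s ^ 5 * t ^ 3 +
      367293018121273919968147 / 244260943828613281250000 * s ^ 6 * t ^ 2 +
      72847573256438631646909 / 366391415742919921875000 * s ^ 7 * t +
      129928138595336923594999 / 5862262651886718750000000 * s ^ 8 =
      (1 + 1 / 500 + (1 / 500) ^ 2 / 2) * ((1 + (1 / 25 * u ^ 2) + (1 / 25 * u ^ 2) ^ 2 / 2 +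
      (1 / 25 * u ^ 2) ^ 3 / 6) *
      (1 + u + 119 / 250 * u ^ 2)) -
      (55259 / 50000 * (1 + (u - 1 / 10) / 6) ^ 6) := by
    rw [hs, ht]
    ring
  rw [e] at h
  linarith

theorem ev_six_e10_g2 (u : ℝ) (h1 : 91 / 40 ≤ u) (h2 : u ≤ 3) :
    55259 / 50000 * (1 + (u - 1 / 10) / 6) ^ 6 ≤
      (1 + 1 / 500 + (1 / 500) ^ 2 / 2) * ((1 + (1 / 25 * u ^ 2) + (1 / 25 * u ^ 2) ^ 2 / 2 +
      (1 / 25 * u ^ 2) ^ 3 / 6) *
      (1 + u + 119 / 250 * u ^ 2)) := by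
  obtain ⟨s, hs⟩ : ∃ s, s = u - (91 / 40) := ⟨_, rfl⟩
  obtain ⟨t, ht⟩ : ∃ t, t = 3 - u := ⟨_, rfl⟩
  have hs0 : 0 ≤ s := by linarith
  have ht0 : 0 ≤ t := by linarith
  have h : 0 ≤
      129928138595336923594999 / 5862262651886718750000000 * t ^ 8 +
      1902685511296609731603 / 12213047191430664062500 * s * t ^ 7 +
      35245637740730280164839 / 29311313259433593750000 * s ^ 2 * t ^ 6 +
      38253424187148921378691 / 6595045483372558593750 * s ^ 3 * t ^ 5 +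
      1984542923338064723453 / 131900909667451171875 * s ^ 4 * t ^ 4 +
      8722140881248572354704 / 395702729002353515625 * s ^ 5 * t ^ 3 +
      13157003814442299138352 / 712264912204236328125 * s ^ 6 * t ^ 2 +
      1182435643933111086208 / 142452982440847265625 * s ^ 7 * t +
      44343159775335441664 / 28490596488169453125 * s ^ 8 := by
    positivity
  have e :
      129928138595336923594999 / 5862262651886718750000000 * t ^ 8 +
      1902685511296609731603 / 12213047191430664062500 * s * t ^ 7 +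
      35245637740730280164839 / 29311313259433593750000 * s ^ 2 * t ^ 6 +
      38253424187148921378691 / 6595045483372558593750 * s ^ 3 * t ^ 5 +
      1984542923338064723453 / 131900909667451171875 * s ^ 4 * t ^ 4 +
      8722140881248572354704 / 395702729002353515625 * s ^ 5 * t ^ 3 +
      13157003814442299138352 / 712264912204236328125 * s ^ 6 * t ^ 2 +
      1182435643933111086208 / 142452982440847265625 * s ^ 7 * t +
      44343159775335441664 / 28490596488169453125 * s ^ 8 =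
      (1 + 1 / 500 + (1 / 500) ^ 2 / 2) * ((1 + (1 / 25 * u ^ 2) + (1 / 25 * u ^ 2) ^ 2 / 2 +
      (1 / 25 * u ^ 2) ^ 3 / 6) *
      (1 + u + 119 / 250 * u ^ 2)) -
      (55259 / 50000 * (1 + (u - 1 / 10) / 6) ^ 6) := by
    rw [hs, ht]
    ring
  rw [e] at h
  linarith

theorem ev_six_e10_t (u : ℝ) (h1 : 3 ≤ u) :
    55259 / 50000 * (1 + (u - 1 / 10) / 6) ^ 6 ≤
      (1 + 1 / 500 + (1 / 500) ^ 2 / 2) * ((1 + (1 / 25 * u ^ 2) + (1 / 25 * u ^ 2) ^ 2 / 2 +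
      (1 / 25 * u ^ 2) ^ 3 / 6) *
      (1 + u + 119 / 250 * u ^ 2)) := by
  obtain ⟨s, hs⟩ : ∃ s, s = u - (3) := ⟨_, rfl⟩
  have hs0 : 0 ≤ s := by linarith
  have h : 0 ≤
      173215467872404069 / 1458000000000000000 + 53097229443274657 / 121500000000000000 * s +
      69658346202888929 / 121500000000000000 * s ^ 2 +
      14951032905450701 / 45562500000000000 * s ^ 3 +
      581129211646357 / 6075000000000000 * s ^ 4 +
      123850348563169 / 7593750000000000 * s ^ 5 +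
      42716222538997 / 22781250000000000 * s ^ 6 + 778054553 / 5859375000000 * s ^ 7 +
      59619119 / 11718750000000 * s ^ 8 := by
    positivity
  have e :
      173215467872404069 / 1458000000000000000 + 53097229443274657 / 121500000000000000 * s +
      69658346202888929 / 121500000000000000 * s ^ 2 +
      14951032905450701 / 45562500000000000 * s ^ 3 +
      581129211646357 / 6075000000000000 * s ^ 4 +
      123850348563169 / 7593750000000000 * s ^ 5 +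
      42716222538997 / 22781250000000000 * s ^ 6 + 778054553 / 5859375000000 * s ^ 7 +
      59619119 / 11718750000000 * s ^ 8 =
      (1 + 1 / 500 + (1 / 500) ^ 2 / 2) * ((1 + (1 / 25 * u ^ 2) + (1 / 25 * u ^ 2) ^ 2 / 2 +
      (1 / 25 * u ^ 2) ^ 3 / 6) *
      (1 + u + 119 / 250 * u ^ 2)) -
      (55259 / 50000 * (1 + (u - 1 / 10) / 6) ^ 6) := by
    rw [hs]
    ring
  rw [e] at h
  linarith

/-- `K = 6`: `(c, μ, P, δ) = (119 / 250, 1 / 25, 1 / 10, 1 / 500)` -/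
theorem expFd_six_e10 : ExpFd 6 (119 / 250) (1 / 25) (1 / 10) (1 / 500) := by
  have hde : (1 + 1 / 500 + (1 / 500) ^ 2 / 2) ≤ Real.exp (1 / 500) :=
    Real.quadratic_le_exp_of_nonneg (by norm_num)
  have hq : ∀ u : ℝ, 0 ≤ 1 + u + 119 / 250 * u ^ 2 := fun u => by
    nlinarith [sq_nonneg (u + 2), sq_nonneg u]
  have hR : ∀ (u x y : ℝ), x ≤ y →
      y ≤ (1 + 1 / 500 + (1 / 500) ^ 2 / 2) * (1 + u + 119 / 250 * u ^ 2) →
      x ≤ Real.exp (1 / 500) * (1 + u + 119 / 250 * u ^ 2) := fun u x y h1 h2 =>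
    (h1.trans h2).trans (mul_le_mul_of_nonneg_right hde (hq u))
  refine ExpFd.of (by norm_num) (by norm_num) (by norm_num) (by norm_num) (by norm_num) ?_ ?_ ?_
  · intro u h1
    rcases le_total u (-3) with h3 | h3
    · exact hR u _ _ (ev_exp_n3 h3) (ev_six_e10_d u h3)
    rcases le_total u (-2) with h4 | h4
    · refine hR u _ _ (ev_exp_n2 h4) ?_
      exact ev_six_e10_c0 u (by linarith) (by linarith)
    rcases le_total u (-1) with h5 | h5
    · refine hR u _ _ (ev_exp_n1 h5) ?_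
      exact ev_six_e10_b0 u (by linarith) (by linarith)
    refine hR u _ _ (ev_exp_n0 h1) ?_
    rcases le_total u (-1 / 2) with hh | hh
    · exact ev_six_e10_a0 u (by linarith) (by linarith)
    exact ev_six_e10_a1 u (by linarith) (by linarith)
  · intro u h1 h2
    have h5 := mul_le_mul_of_nonneg_right (Real.add_one_le_exp (1 / 25 * u ^ 2)) (hq u)
    rw [add_comm (1 / 25 * u ^ 2) 1] at h5
    have h6 : 0 ≤ Real.exp (1 / 25 * u ^ 2) * (1 + u + 119 / 250 * u ^ 2) :=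
      mul_nonneg (Real.exp_nonneg _) (hq u)
    rw [Real.exp_add, mul_assoc]
    refine ((ev_exp_p h1 (by linarith)).trans ?_).trans
      ((mul_le_mul_of_nonneg_left h5
        (by norm_num : (0 : ℝ) ≤ (1 + 1 / 500 + (1 / 500) ^ 2 / 2))).trans
        (mul_le_mul_of_nonneg_right hde h6))
    exact ev_six_e10_e0 u (by linarith) (by linarith)
  · intro u h1
    have h4 : 0 ≤ (1 + (u - 1 / 10) / 6) ^ 6 := by
      have : 0 ≤ (u - 1 / 10) / 6 := div_nonneg (by linarith) (by norm_num)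
      positivity
    have hE : Real.exp (1 / 10) ≤ 55259 / 50000 := ev_up_1_10
    have hx : 0 ≤ 1 / 25 * u ^ 2 := by positivity
    have h5 := mul_le_mul_of_nonneg_right (taylor3_le_expE _ hx) (hq u)
    have h6 : 0 ≤ Real.exp (1 / 25 * u ^ 2) * (1 + u + 119 / 250 * u ^ 2) :=
      mul_nonneg (Real.exp_nonneg _) (hq u)
    rw [Real.exp_add, mul_assoc]
    push_cast
    refine ((mul_le_mul_of_nonneg_right hE h4).trans ?_).trans
      ((mul_le_mul_of_nonneg_left h5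
        (by norm_num : (0 : ℝ) ≤ (1 + 1 / 500 + (1 / 500) ^ 2 / 2))).trans
        (mul_le_mul_of_nonneg_right hde h6))
    rcases le_total u (31 / 20) with hh | hh
    · exact ev_six_e10_g0 u (by linarith) (by linarith)
    rcases le_total u (91 / 40) with hh | hh
    · exact ev_six_e10_g1 u (by linarith) (by linarith)
    rcases le_total u (3) with hh | hh
    · exact ev_six_e10_g2 u (by linarith) (by linarith)
    exact ev_six_e10_t u (by linarith)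

theorem ev_six_e11_a0 (u : ℝ) (h1 : -1 ≤ u) (h2 : u ≤ -1 / 2) :
    1 + u + u ^ 2 / 2 + u ^ 3 / 6 + u ^ 4 / 24 ≤
      (1 + 1 / 200 + (1 / 200) ^ 2 / 2) * (1 + u + 447 / 1000 * u ^ 2) := by
  obtain ⟨s, hs⟩ : ∃ s, s = u - (-1) := ⟨_, rfl⟩
  obtain ⟨t, ht⟩ : ∃ t, t = -1 / 2 - u := ⟨_, rfl⟩
  have hs0 : 0 ≤ s := by linarith
  have ht0 : 0 ≤ t := by linarith
  have h : 0 ≤
      5939247 / 5000000 * t ^ 4 + 44054723 / 15000000 * s * t ^ 3 +
      49616211 / 20000000 * s ^ 2 * t ^ 2 + 9020741 / 10000000 * s ^ 3 * t +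
      7723741 / 60000000 * s ^ 4 := by
    positivity
  have e :
      5939247 / 5000000 * t ^ 4 + 44054723 / 15000000 * s * t ^ 3 +
      49616211 / 20000000 * s ^ 2 * t ^ 2 + 9020741 / 10000000 * s ^ 3 * t +
      7723741 / 60000000 * s ^ 4 =
      (1 + 1 / 200 + (1 / 200) ^ 2 / 2) * (1 + u + 447 / 1000 * u ^ 2) -
      (1 + u + u ^ 2 / 2 + u ^ 3 / 6 + u ^ 4 / 24) := by
    rw [hs, ht]
    ring
  rw [e] at h
  linarith

theorem ev_six_e11_a1 (u : ℝ) (h1 : -1 / 2 ≤ u) (h2 : u ≤ 0) :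
    1 + u + u ^ 2 / 2 + u ^ 3 / 6 + u ^ 4 / 24 ≤
      (1 + 1 / 200 + (1 / 200) ^ 2 / 2) * (1 + u + 447 / 1000 * u ^ 2) := by
  obtain ⟨s, hs⟩ : ∃ s, s = u - (-1 / 2) := ⟨_, rfl⟩
  obtain ⟨t, ht⟩ : ∃ t, t = 0 - u := ⟨_, rfl⟩
  have hs0 : 0 ≤ s := by linarith
  have ht0 : 0 ≤ t := by linarith
  have h : 0 ≤
      7723741 / 60000000 * t ^ 4 + 3832741 / 30000000 * s * t ^ 3 +
      3157247 / 20000000 * s ^ 2 * t ^ 2 + 2807 / 10000 * s ^ 3 * t + 401 / 5000 * s ^ 4 := by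
    positivity
  have e :
      7723741 / 60000000 * t ^ 4 + 3832741 / 30000000 * s * t ^ 3 +
      3157247 / 20000000 * s ^ 2 * t ^ 2 + 2807 / 10000 * s ^ 3 * t + 401 / 5000 * s ^ 4 =
      (1 + 1 / 200 + (1 / 200) ^ 2 / 2) * (1 + u + 447 / 1000 * u ^ 2) -
      (1 + u + u ^ 2 / 2 + u ^ 3 / 6 + u ^ 4 / 24) := by
    rw [hs, ht]
    ring
  rw [e] at h
  linarith

theorem ev_six_e11_b0 (u : ℝ) (h1 : -2 ≤ u) (h2 : u ≤ -1) :
    36788 / 100000 *
      (1 + (u + 1) + (u + 1) ^ 2 / 2 + (u + 1) ^ 3 / 6 + (u + 1) ^ 4 / 24) ≤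
      (1 + 1 / 200 + (1 / 200) ^ 2 / 2) * (1 + u + 447 / 1000 * u ^ 2) := by
  obtain ⟨s, hs⟩ : ∃ s, s = u - (-2) := ⟨_, rfl⟩
  obtain ⟨t, ht⟩ : ∃ t, t = -1 - u := ⟨_, rfl⟩
  have hs0 : 0 ≤ s := by linarith
  have ht0 : 0 ≤ t := by linarith
  have h : 0 ≤
      13079897 / 20000000 * t ^ 4 + 102084173 / 60000000 * s * t ^ 3 +
      123000811 / 80000000 * s ^ 2 * t ^ 2 + 23471641 / 40000000 * s ^ 3 * t +
      6508847 / 80000000 * s ^ 4 := by
    positivity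
  have e :
      13079897 / 20000000 * t ^ 4 + 102084173 / 60000000 * s * t ^ 3 +
      123000811 / 80000000 * s ^ 2 * t ^ 2 + 23471641 / 40000000 * s ^ 3 * t +
      6508847 / 80000000 * s ^ 4 =
      (1 + 1 / 200 + (1 / 200) ^ 2 / 2) * (1 + u + 447 / 1000 * u ^ 2) -
      (36788 / 100000 *
      (1 + (u + 1) + (u + 1) ^ 2 / 2 + (u + 1) ^ 3 / 6 + (u + 1) ^ 4 / 24)) := by
    rw [hs, ht]
    ring
  rw [e] at h
  linarith

theorem ev_six_e11_c0 (u : ℝ) (h1 : -3 ≤ u) (h2 : u ≤ -2) :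
    13534 / 100000 *
      (1 + (u + 2) + (u + 2) ^ 2 / 2 + (u + 2) ^ 3 / 6 + (u + 2) ^ 4 / 24) ≤
      (1 + 1 / 200 + (1 / 200) ^ 2 / 2) * (1 + u + 447 / 1000 * u ^ 2) := by
  obtain ⟨s, hs⟩ : ∃ s, s = u - (-3) := ⟨_, rfl⟩
  obtain ⟨t, ht⟩ : ∃ t, t = -2 - u := ⟨_, rfl⟩
  have hs0 : 0 ≤ s := by linarith
  have ht0 : 0 ≤ t := by linarith
  have h : 0 ≤
      158591023 / 80000000 * t ^ 4 + 148656163 / 24000000 * s * t ^ 3 +
      568247939 / 80000000 * s ^ 2 * t ^ 2 + 14214917 / 4000000 * s ^ 3 * t +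
      13132197 / 20000000 * s ^ 4 := by
    positivity
  have e :
      158591023 / 80000000 * t ^ 4 + 148656163 / 24000000 * s * t ^ 3 +
      568247939 / 80000000 * s ^ 2 * t ^ 2 + 14214917 / 4000000 * s ^ 3 * t +
      13132197 / 20000000 * s ^ 4 =
      (1 + 1 / 200 + (1 / 200) ^ 2 / 2) * (1 + u + 447 / 1000 * u ^ 2) -
      (13534 / 100000 *
      (1 + (u + 2) + (u + 2) ^ 2 / 2 + (u + 2) ^ 3 / 6 + (u + 2) ^ 4 / 24)) := by
    rw [hs, ht]
    ring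
  rw [e] at h
  linarith

theorem ev_six_e11_d (u : ℝ) (h2 : u ≤ -3) :
    4979 / 100000 ≤
      (1 + 1 / 200 + (1 / 200) ^ 2 / 2) * (1 + u + 447 / 1000 * u ^ 2) := by
  obtain ⟨s, hs⟩ : ∃ s, s = -3 - u := ⟨_, rfl⟩
  have hs0 : 0 ≤ s := by linarith
  have h : 0 ≤
      158668023 / 80000000 + 67617241 / 40000000 * s + 35939247 / 80000000 * s ^ 2 := by
    positivity
  have e :
      158668023 / 80000000 + 67617241 / 40000000 * s + 35939247 / 80000000 * s ^ 2 =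
      (1 + 1 / 200 + (1 / 200) ^ 2 / 2) * (1 + u + 447 / 1000 * u ^ 2) -
      (4979 / 100000) := by
    rw [hs]
    ring
  rw [e] at h
  linarith

theorem ev_six_e11_e0 (u : ℝ) (h1 : 0 ≤ u) (h2 : u ≤ 1 / 10) :
    1 + u + u ^ 2 / 2 + u ^ 3 / 6 + u ^ 4 / 24 + u ^ 5 / 100 ≤
      (1 + 1 / 200 + (1 / 200) ^ 2 / 2) * ((1 + 9 / 200 * u ^ 2) *
      (1 + u + 447 / 1000 * u ^ 2)) := by
  obtain ⟨s, hs⟩ : ∃ s, s = u - (0) := ⟨_, rfl⟩
  obtain ⟨t, ht⟩ : ∃ t, t = 1 / 10 - u := ⟨_, rfl⟩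
  have hs0 : 0 ≤ s := by linarith
  have ht0 : 0 ≤ t := by linarith
  have h : 0 ≤
      2005 / 4 * t ^ 5 + 20451 / 8 * s * t ^ 4 + 104149323 / 20000 * s ^ 2 * t ^ 3 +
      2536562083 / 480000 * s ^ 3 * t ^ 2 + 4265033153223 / 1600000000 * s ^ 4 * t +
      2560668149669 / 4800000000 * s ^ 5 := by
    positivity
  have e :
      2005 / 4 * t ^ 5 + 20451 / 8 * s * t ^ 4 + 104149323 / 20000 * s ^ 2 * t ^ 3 +
      2536562083 / 480000 * s ^ 3 * t ^ 2 + 4265033153223 / 1600000000 * s ^ 4 * t +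
      2560668149669 / 4800000000 * s ^ 5 =
      (1 + 1 / 200 + (1 / 200) ^ 2 / 2) * ((1 + 9 / 200 * u ^ 2) *
      (1 + u + 447 / 1000 * u ^ 2)) -
      (1 + u + u ^ 2 / 2 + u ^ 3 / 6 + u ^ 4 / 24 + u ^ 5 / 100) := by
    rw [hs, ht]
    ring
  rw [e] at h
  linarith

theorem ev_six_e11_g0 (u : ℝ) (h1 : 1 / 10 ≤ u) (h2 : u ≤ 21 / 20) :
    55259 / 50000 * (1 + (u - 1 / 10) / 6) ^ 6 ≤
      (1 + 1 / 200 + (1 / 200) ^ 2 / 2) * ((1 + (9 / 200 * u ^ 2) + (9 / 200 * u ^ 2) ^ 2 / 2 +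
      (9 / 200 * u ^ 2) ^ 3 / 6) *
      (1 + u + 447 / 1000 * u ^ 2)) := by
  obtain ⟨s, hs⟩ : ∃ s, s = u - (1 / 10) := ⟨_, rfl⟩
  obtain ⟨t, ht⟩ : ∃ t, t = 21 / 20 - u := ⟨_, rfl⟩
  have hs0 : 0 ≤ s := by linarith
  have ht0 : 0 ≤ t := by linarith
  have h : 0 ≤
      681698694416032107021 / 84917815205000000000000 * t ^ 8 +
      1368503603520643886191 / 21229453801250000000000 * s * t ^ 7 +
      74613111522721906628981 / 254753445615000000000000 * s ^ 2 * t ^ 6 +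
      1812356533333946673191159 / 2292781010535000000000000 * s ^ 3 * t ^ 5 +
      515367399063308067508121 / 407605512984000000000000 * s ^ 4 * t ^ 4 +
      33138608050569189197415857 / 27513372126420000000000000 * s ^ 5 * t ^ 3 +
      661549973397451807551213223 / 990481396551120000000000000 * s ^ 6 * t ^ 2 +
      196075894423882061469858419 / 990481396551120000000000000 * s ^ 7 * t +
      382713669995135566027390549 / 15847702344817920000000000000 * s ^ 8 := by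
    positivity
  have e :
      681698694416032107021 / 84917815205000000000000 * t ^ 8 +
      1368503603520643886191 / 21229453801250000000000 * s * t ^ 7 +
      74613111522721906628981 / 254753445615000000000000 * s ^ 2 * t ^ 6 +
      1812356533333946673191159 / 2292781010535000000000000 * s ^ 3 * t ^ 5 +
      515367399063308067508121 / 407605512984000000000000 * s ^ 4 * t ^ 4 +
      33138608050569189197415857 / 27513372126420000000000000 * s ^ 5 * t ^ 3 +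
      661549973397451807551213223 / 990481396551120000000000000 * s ^ 6 * t ^ 2 +
      196075894423882061469858419 / 990481396551120000000000000 * s ^ 7 * t +
      382713669995135566027390549 / 15847702344817920000000000000 * s ^ 8 =
      (1 + 1 / 200 + (1 / 200) ^ 2 / 2) * ((1 + (9 / 200 * u ^ 2) + (9 / 200 * u ^ 2) ^ 2 / 2 +
      (9 / 200 * u ^ 2) ^ 3 / 6) *
      (1 + u + 447 / 1000 * u ^ 2)) -
      (55259 / 50000 * (1 + (u - 1 / 10) / 6) ^ 6) := by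
    rw [hs, ht]
    ring
  rw [e] at h
  linarith

theorem ev_six_e11_g1 (u : ℝ) (h1 : 21 / 20 ≤ u) (h2 : u ≤ 2) :
    55259 / 50000 * (1 + (u - 1 / 10) / 6) ^ 6 ≤
      (1 + 1 / 200 + (1 / 200) ^ 2 / 2) * ((1 + (9 / 200 * u ^ 2) + (9 / 200 * u ^ 2) ^ 2 / 2 +
      (9 / 200 * u ^ 2) ^ 3 / 6) *
      (1 + u + 447 / 1000 * u ^ 2)) := by
  obtain ⟨s, hs⟩ : ∃ s, s = u - (21 / 20) := ⟨_, rfl⟩
  obtain ⟨t, ht⟩ : ∃ t, t = 2 - u := ⟨_, rfl⟩
  have hs0 : 0 ≤ s := by linarith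
  have ht0 : 0 ≤ t := by linarith
  have h : 0 ≤
      382713669995135566027390549 / 15847702344817920000000000000 * t ^ 8 +
      18663777557125350455753213 / 99048139655112000000000000 * s * t ^ 7 +
      1488707853572629772912323 / 2476203491377800000000000 * s ^ 2 * t ^ 6 +
      61951088700414597800401 / 61905087284445000000000 * s ^ 3 * t ^ 5 +
      565092966461594597753 / 619050872844450000000 * s ^ 4 * t ^ 4 +
      16626348759544125211 / 38690679552778125000 * s ^ 5 * t ^ 3 +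
      321979581744087907 / 3869067955277812500 * s ^ 6 * t ^ 2 +
      1235307245344249 / 193453397763890625 * s ^ 7 * t +
      150116755745869 / 38690679552778125 * s ^ 8 := by
    positivity
  have e :
      382713669995135566027390549 / 15847702344817920000000000000 * t ^ 8 +
      18663777557125350455753213 / 99048139655112000000000000 * s * t ^ 7 +
      1488707853572629772912323 / 2476203491377800000000000 * s ^ 2 * t ^ 6 +
      61951088700414597800401 / 61905087284445000000000 * s ^ 3 * t ^ 5 +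
      565092966461594597753 / 619050872844450000000 * s ^ 4 * t ^ 4 +
      16626348759544125211 / 38690679552778125000 * s ^ 5 * t ^ 3 +
      321979581744087907 / 3869067955277812500 * s ^ 6 * t ^ 2 +
      1235307245344249 / 193453397763890625 * s ^ 7 * t +
      150116755745869 / 38690679552778125 * s ^ 8 =
      (1 + 1 / 200 + (1 / 200) ^ 2 / 2) * ((1 + (9 / 200 * u ^ 2) + (9 / 200 * u ^ 2) ^ 2 / 2 +
      (9 / 200 * u ^ 2) ^ 3 / 6) *
      (1 + u + 447 / 1000 * u ^ 2)) -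
      (55259 / 50000 * (1 + (u - 1 / 10) / 6) ^ 6) := by
    rw [hs, ht]
    ring
  rw [e] at h
  linarith

theorem ev_six_e11_t (u : ℝ) (h1 : 2 ≤ u) :
    55259 / 50000 * (1 + (u - 1 / 10) / 6) ^ 6 ≤
      (1 + 1 / 200 + (1 / 200) ^ 2 / 2) * ((1 + (9 / 200 * u ^ 2) + (9 / 200 * u ^ 2) ^ 2 / 2 +
      (9 / 200 * u ^ 2) ^ 3 / 6) *
      (1 + u + 447 / 1000 * u ^ 2)) := by
  obtain ⟨s, hs⟩ : ∃ s, s = u - (2) := ⟨_, rfl⟩
  have hs0 : 0 ≤ s := by linarith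
  have h : 0 ≤
      150116755745869 / 58320000000000000 + 83673034815623 / 4860000000000000 * s +
      525728054925509 / 4860000000000000 * s ^ 2 +
      861739909086451 / 7290000000000000 * s ^ 3 +
      95948764565171 / 1944000000000000 * s ^ 4 + 95984861213767 / 9720000000000000 * s ^ 5 +
      83064062169763 / 58320000000000000 * s ^ 6 + 19908654417 / 160000000000000 * s ^ 7 +
      8733237021 / 1280000000000000 * s ^ 8 := by
    positivity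
  have e :
      150116755745869 / 58320000000000000 + 83673034815623 / 4860000000000000 * s +
      525728054925509 / 4860000000000000 * s ^ 2 +
      861739909086451 / 7290000000000000 * s ^ 3 +
      95948764565171 / 1944000000000000 * s ^ 4 + 95984861213767 / 9720000000000000 * s ^ 5 +
      83064062169763 / 58320000000000000 * s ^ 6 + 19908654417 / 160000000000000 * s ^ 7 +
      8733237021 / 1280000000000000 * s ^ 8 =
      (1 + 1 / 200 + (1 / 200) ^ 2 / 2) * ((1 + (9 / 200 * u ^ 2) + (9 / 200 * u ^ 2) ^ 2 / 2 +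
      (9 / 200 * u ^ 2) ^ 3 / 6) *
      (1 + u + 447 / 1000 * u ^ 2)) -
      (55259 / 50000 * (1 + (u - 1 / 10) / 6) ^ 6) := by
    rw [hs]
    ring
  rw [e] at h
  linarith

/-- `K = 6`: `(c, μ, P, δ) = (447 / 1000, 9 / 200, 1 / 10, 1 / 200)` -/
theorem expFd_six_e11 : ExpFd 6 (447 / 1000) (9 / 200) (1 / 10) (1 / 200) := by
  have hde : (1 + 1 / 200 + (1 / 200) ^ 2 / 2) ≤ Real.exp (1 / 200) :=
    Real.quadratic_le_exp_of_nonneg (by norm_num)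
  have hq : ∀ u : ℝ, 0 ≤ 1 + u + 447 / 1000 * u ^ 2 := fun u => by
    nlinarith [sq_nonneg (u + 2), sq_nonneg u]
  have hR : ∀ (u x y : ℝ), x ≤ y →
      y ≤ (1 + 1 / 200 + (1 / 200) ^ 2 / 2) * (1 + u + 447 / 1000 * u ^ 2) →
      x ≤ Real.exp (1 / 200) * (1 + u + 447 / 1000 * u ^ 2) := fun u x y h1 h2 =>
    (h1.trans h2).trans (mul_le_mul_of_nonneg_right hde (hq u))
  refine ExpFd.of (by norm_num) (by norm_num) (by norm_num) (by norm_num) (by norm_num) ?_ ?_ ?_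
  · intro u h1
    rcases le_total u (-3) with h3 | h3
    · exact hR u _ _ (ev_exp_n3 h3) (ev_six_e11_d u h3)
    rcases le_total u (-2) with h4 | h4
    · refine hR u _ _ (ev_exp_n2 h4) ?_
      exact ev_six_e11_c0 u (by linarith) (by linarith)
    rcases le_total u (-1) with h5 | h5
    · refine hR u _ _ (ev_exp_n1 h5) ?_
      exact ev_six_e11_b0 u (by linarith) (by linarith)
    refine hR u _ _ (ev_exp_n0 h1) ?_
    rcases le_total u (-1 / 2) with hh | hh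
    · exact ev_six_e11_a0 u (by linarith) (by linarith)
    exact ev_six_e11_a1 u (by linarith) (by linarith)
  · intro u h1 h2
    have h5 := mul_le_mul_of_nonneg_right (Real.add_one_le_exp (9 / 200 * u ^ 2)) (hq u)
    rw [add_comm (9 / 200 * u ^ 2) 1] at h5
    have h6 : 0 ≤ Real.exp (9 / 200 * u ^ 2) * (1 + u + 447 / 1000 * u ^ 2) :=
      mul_nonneg (Real.exp_nonneg _) (hq u)
    rw [Real.exp_add, mul_assoc]
    refine ((ev_exp_p h1 (by linarith)).trans ?_).trans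
      ((mul_le_mul_of_nonneg_left h5
        (by norm_num : (0 : ℝ) ≤ (1 + 1 / 200 + (1 / 200) ^ 2 / 2))).trans
        (mul_le_mul_of_nonneg_right hde h6))
    exact ev_six_e11_e0 u (by linarith) (by linarith)
  · intro u h1
    have h4 : 0 ≤ (1 + (u - 1 / 10) / 6) ^ 6 := by
      have : 0 ≤ (u - 1 / 10) / 6 := div_nonneg (by linarith) (by norm_num)
      positivity
    have hE : Real.exp (1 / 10) ≤ 55259 / 50000 := ev_up_1_10
    have hx : 0 ≤ 9 / 200 * u ^ 2 := by positivity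
    have h5 := mul_le_mul_of_nonneg_right (taylor3_le_expE _ hx) (hq u)
    have h6 : 0 ≤ Real.exp (9 / 200 * u ^ 2) * (1 + u + 447 / 1000 * u ^ 2) :=
      mul_nonneg (Real.exp_nonneg _) (hq u)
    rw [Real.exp_add, mul_assoc]
    push_cast
    refine ((mul_le_mul_of_nonneg_right hE h4).trans ?_).trans
      ((mul_le_mul_of_nonneg_left h5
        (by norm_num : (0 : ℝ) ≤ (1 + 1 / 200 + (1 / 200) ^ 2 / 2))).trans
        (mul_le_mul_of_nonneg_right hde h6))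
    rcases le_total u (21 / 20) with hh | hh
    · exact ev_six_e11_g0 u (by linarith) (by linarith)
    rcases le_total u (2) with hh | hh
    · exact ev_six_e11_g1 u (by linarith) (by linarith)
    exact ev_six_e11_t u (by linarith)

theorem ev_six_e12_a0 (u : ℝ) (h1 : -1 ≤ u) (h2 : u ≤ -1 / 2) :
    1 + u + u ^ 2 / 2 + u ^ 3 / 6 + u ^ 4 / 24 ≤
      (1 + 1 / 100 + (1 / 100) ^ 2 / 2) * (1 + u + 21 / 50 * u ^ 2) := by
  obtain ⟨s, hs⟩ : ∃ s, s = u - (-1) := ⟨_, rfl⟩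
  obtain ⟨t, ht⟩ : ∃ t, t = -1 / 2 - u := ⟨_, rfl⟩
  have hs0 : 0 ≤ s := by linarith
  have ht0 : 0 ≤ t := by linarith
  have h : 0 ≤
      49221 / 62500 * t ^ 4 + 83266 / 46875 * s * t ^ 3 + 325173 / 250000 * s ^ 2 * t ^ 2 +
      52813 / 125000 * s ^ 3 * t + 51713 / 750000 * s ^ 4 := by
    positivity
  have e :
      49221 / 62500 * t ^ 4 + 83266 / 46875 * s * t ^ 3 + 325173 / 250000 * s ^ 2 * t ^ 2 +
      52813 / 125000 * s ^ 3 * t + 51713 / 750000 * s ^ 4 =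
      (1 + 1 / 100 + (1 / 100) ^ 2 / 2) * (1 + u + 21 / 50 * u ^ 2) -
      (1 + u + u ^ 2 / 2 + u ^ 3 / 6 + u ^ 4 / 24) := by
    rw [hs, ht]
    ring
  rw [e] at h
  linarith

theorem ev_six_e12_a1 (u : ℝ) (h1 : -1 / 2 ≤ u) (h2 : u ≤ 0) :
    1 + u + u ^ 2 / 2 + u ^ 3 / 6 + u ^ 4 / 24 ≤
      (1 + 1 / 100 + (1 / 100) ^ 2 / 2) * (1 + u + 21 / 50 * u ^ 2) := by
  obtain ⟨s, hs⟩ : ∃ s, s = u - (-1 / 2) := ⟨_, rfl⟩
  obtain ⟨t, ht⟩ : ∃ t, t = 0 - u := ⟨_, rfl⟩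
  have hs0 : 0 ≤ s := by linarith
  have ht0 : 0 ≤ t := by linarith
  have h : 0 ≤
      51713 / 750000 * t ^ 4 + 48413 / 375000 * s * t ^ 3 + 105121 / 250000 * s ^ 2 * t ^ 2 +
      1407 / 2500 * s ^ 3 * t + 201 / 1250 * s ^ 4 := by
    positivity
  have e :
      51713 / 750000 * t ^ 4 + 48413 / 375000 * s * t ^ 3 + 105121 / 250000 * s ^ 2 * t ^ 2 +
      1407 / 2500 * s ^ 3 * t + 201 / 1250 * s ^ 4 =
      (1 + 1 / 100 + (1 / 100) ^ 2 / 2) * (1 + u + 21 / 50 * u ^ 2) -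
      (1 + u + u ^ 2 / 2 + u ^ 3 / 6 + u ^ 4 / 24) := by
    rw [hs, ht]
    ring
  rw [e] at h
  linarith

theorem ev_six_e12_b0 (u : ℝ) (h1 : -2 ≤ u) (h2 : u ≤ -1) :
    36788 / 100000 *
      (1 + (u + 1) + (u + 1) ^ 2 / 2 + (u + 1) ^ 3 / 6 + (u + 1) ^ 4 / 24) ≤
      (1 + 1 / 100 + (1 / 100) ^ 2 / 2) * (1 + u + 21 / 50 * u ^ 2) := by
  obtain ⟨s, hs⟩ : ∃ s, s = u - (-2) := ⟨_, rfl⟩
  obtain ⟨t, ht⟩ : ∃ t, t = -1 - u := ⟨_, rfl⟩
  have hs0 : 0 ≤ s := by linarith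
  have ht0 : 0 ≤ t := by linarith
  have h : 0 ≤
      548879 / 1000000 * t ^ 4 + 2079083 / 1500000 * s * t ^ 3 +
      1197143 / 1000000 * s ^ 2 * t ^ 2 + 107909 / 250000 * s ^ 3 * t +
      56341 / 1000000 * s ^ 4 := by
    positivity
  have e :
      548879 / 1000000 * t ^ 4 + 2079083 / 1500000 * s * t ^ 3 +
      1197143 / 1000000 * s ^ 2 * t ^ 2 + 107909 / 250000 * s ^ 3 * t +
      56341 / 1000000 * s ^ 4 =
      (1 + 1 / 100 + (1 / 100) ^ 2 / 2) * (1 + u + 21 / 50 * u ^ 2) -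
      (36788 / 100000 *
      (1 + (u + 1) + (u + 1) ^ 2 / 2 + (u + 1) ^ 3 / 6 + (u + 1) ^ 4 / 24)) := by
    rw [hs, ht]
    ring
  rw [e] at h
  linarith

theorem ev_six_e12_c0 (u : ℝ) (h1 : -3 ≤ u) (h2 : u ≤ -2) :
    13534 / 100000 *
      (1 + (u + 2) + (u + 2) ^ 2 / 2 + (u + 2) ^ 3 / 6 + (u + 2) ^ 4 / 24) ≤
      (1 + 1 / 100 + (1 / 100) ^ 2 / 2) * (1 + u + 21 / 50 * u ^ 2) := by
  obtain ⟨s, hs⟩ : ∃ s, s = u - (-3) := ⟨_, rfl⟩
  obtain ⟨t, ht⟩ : ∃ t, t = -2 - u := ⟨_, rfl⟩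
  have hs0 : 0 ≤ s := by linarith
  have ht0 : 0 ≤ t := by linarith
  have h : 0 ≤
      3494273 / 2000000 * t ^ 4 + 1622447 / 300000 * s * t ^ 3 +
      6132037 / 1000000 * s ^ 2 * t ^ 2 + 60563 / 20000 * s ^ 3 * t + 275747 / 500000 * s ^ 4 := by
    positivity
  have e :
      3494273 / 2000000 * t ^ 4 + 1622447 / 300000 * s * t ^ 3 +
      6132037 / 1000000 * s ^ 2 * t ^ 2 + 60563 / 20000 * s ^ 3 * t + 275747 / 500000 * s ^ 4 =
      (1 + 1 / 100 + (1 / 100) ^ 2 / 2) * (1 + u + 21 / 50 * u ^ 2) -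
      (13534 / 100000 *
      (1 + (u + 2) + (u + 2) ^ 2 / 2 + (u + 2) ^ 3 / 6 + (u + 2) ^ 4 / 24)) := by
    rw [hs, ht]
    ring
  rw [e] at h
  linarith

theorem ev_six_e12_d (u : ℝ) (h2 : u ≤ -3) :
    4979 / 100000 ≤
      (1 + 1 / 100 + (1 / 100) ^ 2 / 2) * (1 + u + 21 / 50 * u ^ 2) := by
  obtain ⟨s, hs⟩ : ∃ s, s = -3 - u := ⟨_, rfl⟩
  have hs0 : 0 ≤ s := by linarith
  have h : 0 ≤
      1748099 / 1000000 + 383819 / 250000 * s + 424221 / 1000000 * s ^ 2 := by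
    positivity
  have e :
      1748099 / 1000000 + 383819 / 250000 * s + 424221 / 1000000 * s ^ 2 =
      (1 + 1 / 100 + (1 / 100) ^ 2 / 2) * (1 + u + 21 / 50 * u ^ 2) -
      (4979 / 100000) := by
    rw [hs]
    ring
  rw [e] at h
  linarith

theorem ev_six_e12_e0 (u : ℝ) (h1 : 0 ≤ u) (h2 : u ≤ 1 / 10) :
    1 + u + u ^ 2 / 2 + u ^ 3 / 6 + u ^ 4 / 24 + u ^ 5 / 100 ≤
      (1 + 1 / 100 + (1 / 100) ^ 2 / 2) * ((1 + 1 / 20 * u ^ 2) *
      (1 + u + 21 / 50 * u ^ 2)) := by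
  obtain ⟨s, hs⟩ : ∃ s, s = u - (0) := ⟨_, rfl⟩
  obtain ⟨t, ht⟩ : ∃ t, t = 1 / 10 - u := ⟨_, rfl⟩
  have hs0 : 0 ≤ s := by linarith
  have ht0 : 0 ≤ t := by linarith
  have h : 0 ≤
      1005 * t ^ 5 + 10251 / 2 * s * t ^ 4 + 20853447 / 2000 * s ^ 2 * t ^ 3 +
      126786649 / 12000 * s ^ 3 * t ^ 2 + 10655466221 / 2000000 * s ^ 4 * t +
      6410355163 / 6000000 * s ^ 5 := by
    positivity
  have e :
      1005 * t ^ 5 + 10251 / 2 * s * t ^ 4 + 20853447 / 2000 * s ^ 2 * t ^ 3 +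
      126786649 / 12000 * s ^ 3 * t ^ 2 + 10655466221 / 2000000 * s ^ 4 * t +
      6410355163 / 6000000 * s ^ 5 =
      (1 + 1 / 100 + (1 / 100) ^ 2 / 2) * ((1 + 1 / 20 * u ^ 2) *
      (1 + u + 21 / 50 * u ^ 2)) -
      (1 + u + u ^ 2 / 2 + u ^ 3 / 6 + u ^ 4 / 24 + u ^ 5 / 100) := by
    rw [hs, ht]
    ring
  rw [e] at h
  linarith

theorem ev_six_e12_g0 (u : ℝ) (h1 : 1 / 10 ≤ u) (h2 : u ≤ 21 / 20) :
    55259 / 50000 * (1 + (u - 1 / 10) / 6) ^ 6 ≤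
      (1 + 1 / 100 + (1 / 100) ^ 2 / 2) * ((1 + (1 / 20 * u ^ 2) + (1 / 20 * u ^ 2) ^ 2 / 2 +
      (1 / 20 * u ^ 2) ^ 3 / 6) *
      (1 + u + 21 / 50 * u ^ 2)) := by
  obtain ⟨s, hs⟩ : ∃ s, s = u - (1 / 10) := ⟨_, rfl⟩
  obtain ⟨t, ht⟩ : ∃ t, t = 21 / 20 - u := ⟨_, rfl⟩
  have hs0 : 0 ≤ s := by linarith
  have ht0 : 0 ≤ t := by linarith
  have h : 0 ≤
      51239990593855721 / 3184418070187500000 * t ^ 8 +
      69399441271689469 / 530736345031250000 * s * t ^ 7 +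
      403310446509266963 / 796104517546875000 * s ^ 2 * t ^ 6 +
      65318833029722893931 / 57319525263375000000 * s ^ 3 * t ^ 5 +
      7957160107577945857 / 5095068912300000000 * s ^ 4 * t ^ 4 +
      900249366599869621463 / 687834303160500000000 * s ^ 5 * t ^ 3 +
      4014863665375359148033 / 6190508728444500000000 * s ^ 6 * t ^ 2 +
      4280867433032002262771 / 24762034913778000000000 * s ^ 7 * t +
      3771492778753346450783 / 198096279310224000000000 * s ^ 8 := by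
    positivity
  have e :
      51239990593855721 / 3184418070187500000 * t ^ 8 +
      69399441271689469 / 530736345031250000 * s * t ^ 7 +
      403310446509266963 / 796104517546875000 * s ^ 2 * t ^ 6 +
      65318833029722893931 / 57319525263375000000 * s ^ 3 * t ^ 5 +
      7957160107577945857 / 5095068912300000000 * s ^ 4 * t ^ 4 +
      900249366599869621463 / 687834303160500000000 * s ^ 5 * t ^ 3 +
      4014863665375359148033 / 6190508728444500000000 * s ^ 6 * t ^ 2 +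
      4280867433032002262771 / 24762034913778000000000 * s ^ 7 * t +
      3771492778753346450783 / 198096279310224000000000 * s ^ 8 =
      (1 + 1 / 100 + (1 / 100) ^ 2 / 2) * ((1 + (1 / 20 * u ^ 2) + (1 / 20 * u ^ 2) ^ 2 / 2 +
      (1 / 20 * u ^ 2) ^ 3 / 6) *
      (1 + u + 21 / 50 * u ^ 2)) -
      (55259 / 50000 * (1 + (u - 1 / 10) / 6) ^ 6) := by
    rw [hs, ht]
    ring
  rw [e] at h
  linarith

theorem ev_six_e12_g1 (u : ℝ) (h1 : 21 / 20 ≤ u) (h2 : u ≤ 2) :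
    55259 / 50000 * (1 + (u - 1 / 10) / 6) ^ 6 ≤
      (1 + 1 / 100 + (1 / 100) ^ 2 / 2) * ((1 + (1 / 20 * u ^ 2) + (1 / 20 * u ^ 2) ^ 2 / 2 +
      (1 / 20 * u ^ 2) ^ 3 / 6) *
      (1 + u + 21 / 50 * u ^ 2)) := by
  obtain ⟨s, hs⟩ : ∃ s, s = u - (21 / 20) := ⟨_, rfl⟩
  obtain ⟨t, ht⟩ : ∃ t, t = 2 - u := ⟨_, rfl⟩
  have hs0 : 0 ≤ s := by linarith
  have ht0 : 0 ≤ t := by linarith
  have h : 0 ≤
      3771492778753346450783 / 198096279310224000000000 * t ^ 8 +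
      652423624894938127759 / 4952406982755600000000 * s * t ^ 7 +
      89282095016002552243 / 247620349137780000000 * s ^ 2 * t ^ 6 +
      372350311747535747 / 773813591055562500 * s ^ 3 * t ^ 5 +
      37577068067349091 / 123810174568890000 * s ^ 4 * t ^ 4 +
      574664685323807 / 7738135910555625 * s ^ 5 * t ^ 3 +
      49185912951923 / 1238101745688900 * s ^ 6 * t ^ 2 +
      18058332101329 / 309525436422225 * s ^ 7 * t + 35147658462661 / 1547627182111125 * s ^ 8 := by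
    positivity
  have e :
      3771492778753346450783 / 198096279310224000000000 * t ^ 8 +
      652423624894938127759 / 4952406982755600000000 * s * t ^ 7 +
      89282095016002552243 / 247620349137780000000 * s ^ 2 * t ^ 6 +
      372350311747535747 / 773813591055562500 * s ^ 3 * t ^ 5 +
      37577068067349091 / 123810174568890000 * s ^ 4 * t ^ 4 +
      574664685323807 / 7738135910555625 * s ^ 5 * t ^ 3 +
      49185912951923 / 1238101745688900 * s ^ 6 * t ^ 2 +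
      18058332101329 / 309525436422225 * s ^ 7 * t + 35147658462661 / 1547627182111125 * s ^ 8 =
      (1 + 1 / 100 + (1 / 100) ^ 2 / 2) * ((1 + (1 / 20 * u ^ 2) + (1 / 20 * u ^ 2) ^ 2 / 2 +
      (1 / 20 * u ^ 2) ^ 3 / 6) *
      (1 + u + 21 / 50 * u ^ 2)) -
      (55259 / 50000 * (1 + (u - 1 / 10) / 6) ^ 6) := by
    rw [hs, ht]
    ring
  rw [e] at h
  linarith

theorem ev_six_e12_t (u : ℝ) (h1 : 2 ≤ u) :
    55259 / 50000 * (1 + (u - 1 / 10) / 6) ^ 6 ≤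
      (1 + 1 / 100 + (1 / 100) ^ 2 / 2) * ((1 + (1 / 20 * u ^ 2) + (1 / 20 * u ^ 2) ^ 2 / 2 +
      (1 / 20 * u ^ 2) ^ 3 / 6) *
      (1 + u + 21 / 50 * u ^ 2)) := by
  obtain ⟨s, hs⟩ : ∃ s, s = u - (2) := ⟨_, rfl⟩
  have hs0 : 0 ≤ s := by linarith
  have h : 0 ≤
      35147658462661 / 2332800000000000 + 3348940477099 / 38880000000000 * s +
      1527516914489 / 7776000000000 * s ^ 2 + 475441629019 / 2916000000000 * s ^ 3 +
      24025293037 / 388800000000 * s ^ 4 + 47394757 / 3796875000 * s ^ 5 +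
      10568039083 / 5832000000000 * s ^ 6 + 3898793 / 24000000000 * s ^ 7 +
      141407 / 16000000000 * s ^ 8 := by
    positivity
  have e :
      35147658462661 / 2332800000000000 + 3348940477099 / 38880000000000 * s +
      1527516914489 / 7776000000000 * s ^ 2 + 475441629019 / 2916000000000 * s ^ 3 +
      24025293037 / 388800000000 * s ^ 4 + 47394757 / 3796875000 * s ^ 5 +
      10568039083 / 5832000000000 * s ^ 6 + 3898793 / 24000000000 * s ^ 7 +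
      141407 / 16000000000 * s ^ 8 =
      (1 + 1 / 100 + (1 / 100) ^ 2 / 2) * ((1 + (1 / 20 * u ^ 2) + (1 / 20 * u ^ 2) ^ 2 / 2 +
      (1 / 20 * u ^ 2) ^ 3 / 6) *
      (1 + u + 21 / 50 * u ^ 2)) -
      (55259 / 50000 * (1 + (u - 1 / 10) / 6) ^ 6) := by
    rw [hs]
    ring
  rw [e] at h
  linarith

/-- `K = 6`: `(c, μ, P, δ) = (21 / 50, 1 / 20, 1 / 10, 1 / 100)` -/
theorem expFd_six_e12 : ExpFd 6 (21 / 50) (1 / 20) (1 / 10) (1 / 100) := by
  have hde : (1 + 1 / 100 + (1 / 100) ^ 2 / 2) ≤ Real.exp (1 / 100) :=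
    Real.quadratic_le_exp_of_nonneg (by norm_num)
  have hq : ∀ u : ℝ, 0 ≤ 1 + u + 21 / 50 * u ^ 2 := fun u => by
    nlinarith [sq_nonneg (u + 2), sq_nonneg u]
  have hR : ∀ (u x y : ℝ), x ≤ y →
      y ≤ (1 + 1 / 100 + (1 / 100) ^ 2 / 2) * (1 + u + 21 / 50 * u ^ 2) →
      x ≤ Real.exp (1 / 100) * (1 + u + 21 / 50 * u ^ 2) := fun u x y h1 h2 =>
    (h1.trans h2).trans (mul_le_mul_of_nonneg_right hde (hq u))
  refine ExpFd.of (by norm_num) (by norm_num) (by norm_num) (by norm_num) (by norm_num) ?_ ?_ ?_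
  · intro u h1
    rcases le_total u (-3) with h3 | h3
    · exact hR u _ _ (ev_exp_n3 h3) (ev_six_e12_d u h3)
    rcases le_total u (-2) with h4 | h4
    · refine hR u _ _ (ev_exp_n2 h4) ?_
      exact ev_six_e12_c0 u (by linarith) (by linarith)
    rcases le_total u (-1) with h5 | h5
    · refine hR u _ _ (ev_exp_n1 h5) ?_
      exact ev_six_e12_b0 u (by linarith) (by linarith)
    refine hR u _ _ (ev_exp_n0 h1) ?_
    rcases le_total u (-1 / 2) with hh | hh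
    · exact ev_six_e12_a0 u (by linarith) (by linarith)
    exact ev_six_e12_a1 u (by linarith) (by linarith)
  · intro u h1 h2
    have h5 := mul_le_mul_of_nonneg_right (Real.add_one_le_exp (1 / 20 * u ^ 2)) (hq u)
    rw [add_comm (1 / 20 * u ^ 2) 1] at h5
    have h6 : 0 ≤ Real.exp (1 / 20 * u ^ 2) * (1 + u + 21 / 50 * u ^ 2) :=
      mul_nonneg (Real.exp_nonneg _) (hq u)
    rw [Real.exp_add, mul_assoc]
    refine ((ev_exp_p h1 (by linarith)).trans ?_).trans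
      ((mul_le_mul_of_nonneg_left h5
        (by norm_num : (0 : ℝ) ≤ (1 + 1 / 100 + (1 / 100) ^ 2 / 2))).trans
        (mul_le_mul_of_nonneg_right hde h6))
    exact ev_six_e12_e0 u (by linarith) (by linarith)
  · intro u h1
    have h4 : 0 ≤ (1 + (u - 1 / 10) / 6) ^ 6 := by
      have : 0 ≤ (u - 1 / 10) / 6 := div_nonneg (by linarith) (by norm_num)
      positivity
    have hE : Real.exp (1 / 10) ≤ 55259 / 50000 := ev_up_1_10
    have hx : 0 ≤ 1 / 20 * u ^ 2 := by positivity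
    have h5 := mul_le_mul_of_nonneg_right (taylor3_le_expE _ hx) (hq u)
    have h6 : 0 ≤ Real.exp (1 / 20 * u ^ 2) * (1 + u + 21 / 50 * u ^ 2) :=
      mul_nonneg (Real.exp_nonneg _) (hq u)
    rw [Real.exp_add, mul_assoc]
    push_cast
    refine ((mul_le_mul_of_nonneg_right hE h4).trans ?_).trans
      ((mul_le_mul_of_nonneg_left h5
        (by norm_num : (0 : ℝ) ≤ (1 + 1 / 100 + (1 / 100) ^ 2 / 2))).trans
        (mul_le_mul_of_nonneg_right hde h6))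
    rcases le_total u (21 / 20) with hh | hh
    · exact ev_six_e12_g0 u (by linarith) (by linarith)
    rcases le_total u (2) with hh | hh
    · exact ev_six_e12_g1 u (by linarith) (by linarith)
    exact ev_six_e12_t u (by linarith)

theorem ev_six_e13_a0 (u : ℝ) (h1 : -1 ≤ u) (h2 : u ≤ -1 / 2) :
    1 + u + u ^ 2 / 2 + u ^ 3 / 6 + u ^ 4 / 24 ≤
      (1 + 1 / 50 + (1 / 50) ^ 2 / 2) * (1 + u + 407 / 1000 * u ^ 2) := by
  obtain ⟨s, hs⟩ : ∃ s, s = u - (-1) := ⟨_, rfl⟩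
  obtain ⟨t, ht⟩ : ∃ t, t = -1 / 2 - u := ⟨_, rfl⟩
  have hs0 : 0 ≤ s := by linarith
  have ht0 : 0 ≤ t := by linarith
  have h : 0 ≤
      201107 / 312500 * t ^ 4 + 1336463 / 937500 * s * t ^ 3 +
      1345391 / 1250000 * s ^ 2 * t ^ 2 + 281321 / 625000 * s ^ 3 * t +
      428071 / 3750000 * s ^ 4 := by
    positivity
  have e :
      201107 / 312500 * t ^ 4 + 1336463 / 937500 * s * t ^ 3 +
      1345391 / 1250000 * s ^ 2 * t ^ 2 + 281321 / 625000 * s ^ 3 * t +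
      428071 / 3750000 * s ^ 4 =
      (1 + 1 / 50 + (1 / 50) ^ 2 / 2) * (1 + u + 407 / 1000 * u ^ 2) -
      (1 + u + u ^ 2 / 2 + u ^ 3 / 6 + u ^ 4 / 24) := by
    rw [hs, ht]
    ring
  rw [e] at h
  linarith

theorem ev_six_e13_a1 (u : ℝ) (h1 : -1 / 2 ≤ u) (h2 : u ≤ 0) :
    1 + u + u ^ 2 / 2 + u ^ 3 / 6 + u ^ 4 / 24 ≤
      (1 + 1 / 50 + (1 / 50) ^ 2 / 2) * (1 + u + 407 / 1000 * u ^ 2) := by
  obtain ⟨s, hs⟩ : ∃ s, s = u - (-1 / 2) := ⟨_, rfl⟩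
  obtain ⟨t, ht⟩ : ∃ t, t = 0 - u := ⟨_, rfl⟩
  have hs0 : 0 ≤ s := by linarith
  have ht0 : 0 ≤ t := by linarith
  have h : 0 ≤
      428071 / 3750000 * t ^ 4 + 868321 / 1875000 * s * t ^ 3 +
      1394107 / 1250000 * s ^ 2 * t ^ 2 + 707 / 625 * s ^ 3 * t + 202 / 625 * s ^ 4 := by
    positivity
  have e :
      428071 / 3750000 * t ^ 4 + 868321 / 1875000 * s * t ^ 3 +
      1394107 / 1250000 * s ^ 2 * t ^ 2 + 707 / 625 * s ^ 3 * t + 202 / 625 * s ^ 4 =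
      (1 + 1 / 50 + (1 / 50) ^ 2 / 2) * (1 + u + 407 / 1000 * u ^ 2) -
      (1 + u + u ^ 2 / 2 + u ^ 3 / 6 + u ^ 4 / 24) := by
    rw [hs, ht]
    ring
  rw [e] at h
  linarith

theorem ev_six_e13_b0 (u : ℝ) (h1 : -2 ≤ u) (h2 : u ≤ -1) :
    36788 / 100000 *
      (1 + (u + 1) + (u + 1) ^ 2 / 2 + (u + 1) ^ 3 / 6 + (u + 1) ^ 4 / 24) ≤
      (1 + 1 / 50 + (1 / 50) ^ 2 / 2) * (1 + u + 407 / 1000 * u ^ 2) := by
  obtain ⟨s, hs⟩ : ∃ s, s = u - (-2) := ⟨_, rfl⟩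
  obtain ⟨t, ht⟩ : ∃ t, t = -1 - u := ⟨_, rfl⟩
  have hs0 : 0 ≤ s := by linarith
  have ht0 : 0 ≤ t := by linarith
  have h : 0 ≤
      2513653 / 5000000 * t ^ 4 + 2339269 / 1875000 * s * t ^ 3 +
      5248491 / 5000000 * s ^ 2 * t ^ 2 + 918721 / 2500000 * s ^ 3 * t +
      236707 / 5000000 * s ^ 4 := by
    positivity
  have e :
      2513653 / 5000000 * t ^ 4 + 2339269 / 1875000 * s * t ^ 3 +
      5248491 / 5000000 * s ^ 2 * t ^ 2 + 918721 / 2500000 * s ^ 3 * t +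
      236707 / 5000000 * s ^ 4 =
      (1 + 1 / 50 + (1 / 50) ^ 2 / 2) * (1 + u + 407 / 1000 * u ^ 2) -
      (36788 / 100000 *
      (1 + (u + 1) + (u + 1) ^ 2 / 2 + (u + 1) ^ 3 / 6 + (u + 1) ^ 4 / 24)) := by
    rw [hs, ht]
    ring
  rw [e] at h
  linarith

theorem ev_six_e13_c0 (u : ℝ) (h1 : -3 ≤ u) (h2 : u ≤ -2) :
    13534 / 100000 *
      (1 + (u + 2) + (u + 2) ^ 2 / 2 + (u + 2) ^ 3 / 6 + (u + 2) ^ 4 / 24) ≤
      (1 + 1 / 50 + (1 / 50) ^ 2 / 2) * (1 + u + 407 / 1000 * u ^ 2) := by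
  obtain ⟨s, hs⟩ : ∃ s, s = u - (-3) := ⟨_, rfl⟩
  obtain ⟨t, ht⟩ : ∃ t, t = -2 - u := ⟨_, rfl⟩
  have hs0 : 0 ≤ s := by linarith
  have ht0 : 0 ≤ t := by linarith
  have h : 0 ≤
      16458401 / 10000000 * t ^ 4 + 3800339 / 750000 * s * t ^ 3 +
      28538509 / 5000000 * s ^ 2 * t ^ 2 + 87419 / 31250 * s ^ 3 * t + 315841 / 625000 * s ^ 4 := by
    positivity
  have e :
      16458401 / 10000000 * t ^ 4 + 3800339 / 750000 * s * t ^ 3 +
      28538509 / 5000000 * s ^ 2 * t ^ 2 + 87419 / 31250 * s ^ 3 * t + 315841 / 625000 * s ^ 4 =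
      (1 + 1 / 50 + (1 / 50) ^ 2 / 2) * (1 + u + 407 / 1000 * u ^ 2) -
      (13534 / 100000 *
      (1 + (u + 2) + (u + 2) ^ 2 / 2 + (u + 2) ^ 3 / 6 + (u + 2) ^ 4 / 24)) := by
    rw [hs, ht]
    ring
  rw [e] at h
  linarith

theorem ev_six_e13_d (u : ℝ) (h2 : u ≤ -3) :
    4979 / 100000 ≤
      (1 + 1 / 50 + (1 / 50) ^ 2 / 2) * (1 + u + 407 / 1000 * u ^ 2) := by
  obtain ⟨s, hs⟩ : ∃ s, s = -3 - u := ⟨_, rfl⟩
  have hs0 : 0 ≤ s := by linarith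
  have h : 0 ≤
      8234013 / 5000000 + 3677821 / 2500000 * s + 2076107 / 5000000 * s ^ 2 := by
    positivity
  have e :
      8234013 / 5000000 + 3677821 / 2500000 * s + 2076107 / 5000000 * s ^ 2 =
      (1 + 1 / 50 + (1 / 50) ^ 2 / 2) * (1 + u + 407 / 1000 * u ^ 2) -
      (4979 / 100000) := by
    rw [hs]
    ring
  rw [e] at h
  linarith

theorem ev_six_e13_e0 (u : ℝ) (h1 : 0 ≤ u) (h2 : u ≤ 1 / 10) :
    1 + u + u ^ 2 / 2 + u ^ 3 / 6 + u ^ 4 / 24 + u ^ 5 / 100 ≤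
      (1 + 1 / 50 + (1 / 50) ^ 2 / 2) * ((1 + 1 / 20 * u ^ 2) *
      (1 + u + 407 / 1000 * u ^ 2)) := by
  obtain ⟨s, hs⟩ : ∃ s, s = u - (0) := ⟨_, rfl⟩
  obtain ⟨t, ht⟩ : ∃ t, t = 1 / 10 - u := ⟨_, rfl⟩
  have hs0 : 0 ≤ s := by linarith
  have ht0 : 0 ≤ t := by linarith
  have h : 0 ≤
      2020 * t ^ 5 + 10302 * s * t ^ 4 + 104871157 / 5000 * s ^ 2 * t ^ 3 +
      39935866 / 1875 * s ^ 3 * t ^ 2 + 107833538107 / 10000000 * s ^ 4 * t +
      65293400321 / 30000000 * s ^ 5 := by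
    positivity
  have e :
      2020 * t ^ 5 + 10302 * s * t ^ 4 + 104871157 / 5000 * s ^ 2 * t ^ 3 +
      39935866 / 1875 * s ^ 3 * t ^ 2 + 107833538107 / 10000000 * s ^ 4 * t +
      65293400321 / 30000000 * s ^ 5 =
      (1 + 1 / 50 + (1 / 50) ^ 2 / 2) * ((1 + 1 / 20 * u ^ 2) *
      (1 + u + 407 / 1000 * u ^ 2)) -
      (1 + u + u ^ 2 / 2 + u ^ 3 / 6 + u ^ 4 / 24 + u ^ 5 / 100) := by
    rw [hs, ht]
    ring
  rw [e] at h
  linarith

theorem ev_six_e13_g0 (u : ℝ) (h1 : 1 / 10 ≤ u) (h2 : u ≤ 21 / 20) :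
    55259 / 50000 * (1 + (u - 1 / 10) / 6) ^ 6 ≤
      (1 + 1 / 50 + (1 / 50) ^ 2 / 2) * ((1 + (1 / 20 * u ^ 2) + (1 / 20 * u ^ 2) ^ 2 / 2 +
      (1 / 20 * u ^ 2) ^ 3 / 6) *
      (1 + u + 407 / 1000 * u ^ 2)) := by
  obtain ⟨s, hs⟩ : ∃ s, s = u - (1 / 10) := ⟨_, rfl⟩
  obtain ⟨t, ht⟩ : ∃ t, t = 21 / 20 - u := ⟨_, rfl⟩
  have hs0 : 0 ≤ s := by linarith
  have ht0 : 0 ≤ t := by linarith
  have h : 0 ≤
      522132982247828107 / 15922090350937500000 * t ^ 8 +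
      366870906239238999 / 1326840862578125000 * s * t ^ 7 +
      5560716833809632103 / 5307363450312500000 * s ^ 2 * t ^ 6 +
      324081577079127956651 / 143298813158437500000 * s ^ 3 * t ^ 5 +
      76070911479679944269 / 25475344561500000000 * s ^ 4 * t ^ 4 +
      4200905349925593830273 / 1719585757901250000000 * s ^ 5 * t ^ 3 +
      74359729482885414705847 / 61905087284445000000000 * s ^ 6 * t ^ 2 +
      20001098375564771079791 / 61905087284445000000000 * s ^ 7 * t +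
      36030371458063024557361 / 990481396551120000000000 * s ^ 8 := by
    positivity
  have e :
      522132982247828107 / 15922090350937500000 * t ^ 8 +
      366870906239238999 / 1326840862578125000 * s * t ^ 7 +
      5560716833809632103 / 5307363450312500000 * s ^ 2 * t ^ 6 +
      324081577079127956651 / 143298813158437500000 * s ^ 3 * t ^ 5 +
      76070911479679944269 / 25475344561500000000 * s ^ 4 * t ^ 4 +
      4200905349925593830273 / 1719585757901250000000 * s ^ 5 * t ^ 3 +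
      74359729482885414705847 / 61905087284445000000000 * s ^ 6 * t ^ 2 +
      20001098375564771079791 / 61905087284445000000000 * s ^ 7 * t +
      36030371458063024557361 / 990481396551120000000000 * s ^ 8 =
      (1 + 1 / 50 + (1 / 50) ^ 2 / 2) * ((1 + (1 / 20 * u ^ 2) + (1 / 20 * u ^ 2) ^ 2 / 2 +
      (1 / 20 * u ^ 2) ^ 3 / 6) *
      (1 + u + 407 / 1000 * u ^ 2)) -
      (55259 / 50000 * (1 + (u - 1 / 10) / 6) ^ 6) := by
    rw [hs, ht]
    ring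
  rw [e] at h
  linarith

theorem ev_six_e13_g1 (u : ℝ) (h1 : 21 / 20 ≤ u) (h2 : u ≤ 2) :
    55259 / 50000 * (1 + (u - 1 / 10) / 6) ^ 6 ≤
      (1 + 1 / 50 + (1 / 50) ^ 2 / 2) * ((1 + (1 / 20 * u ^ 2) + (1 / 20 * u ^ 2) ^ 2 / 2 +
      (1 / 20 * u ^ 2) ^ 3 / 6) *
      (1 + u + 407 / 1000 * u ^ 2)) := by
  obtain ⟨s, hs⟩ : ∃ s, s = u - (21 / 20) := ⟨_, rfl⟩
  obtain ⟨t, ht⟩ : ∃ t, t = 2 - u := ⟨_, rfl⟩
  have hs0 : 0 ≤ s := by linarith
  have ht0 : 0 ≤ t := by linarith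
  have h : 0 ≤
      36030371458063024557361 / 990481396551120000000000 * t ^ 8 +
      1602927308249825347757 / 6190508728444500000000 * s * t ^ 7 +
      465569524314197914903 / 619050872844450000000 * s ^ 2 * t ^ 6 +
      17460574618906878871 / 15476271821111250000 * s ^ 3 * t ^ 5 +
      559286148018091847 / 619050872844450000 * s ^ 4 * t ^ 4 +
      13659252638995639 / 38690679552778125 * s ^ 5 * t ^ 3 +
      1843736942856059 / 30952543642222500 * s ^ 6 * t ^ 2 +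
      36790266743573 / 1547627182111125 * s ^ 7 * t +
      19339565544901 / 1547627182111125 * s ^ 8 := by
    positivity
  have e :
      36030371458063024557361 / 990481396551120000000000 * t ^ 8 +
      1602927308249825347757 / 6190508728444500000000 * s * t ^ 7 +
      465569524314197914903 / 619050872844450000000 * s ^ 2 * t ^ 6 +
      17460574618906878871 / 15476271821111250000 * s ^ 3 * t ^ 5 +
      559286148018091847 / 619050872844450000 * s ^ 4 * t ^ 4 +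
      13659252638995639 / 38690679552778125 * s ^ 5 * t ^ 3 +
      1843736942856059 / 30952543642222500 * s ^ 6 * t ^ 2 +
      36790266743573 / 1547627182111125 * s ^ 7 * t +
      19339565544901 / 1547627182111125 * s ^ 8 =
      (1 + 1 / 50 + (1 / 50) ^ 2 / 2) * ((1 + (1 / 20 * u ^ 2) + (1 / 20 * u ^ 2) ^ 2 / 2 +
      (1 / 20 * u ^ 2) ^ 3 / 6) *
      (1 + u + 407 / 1000 * u ^ 2)) -
      (55259 / 50000 * (1 + (u - 1 / 10) / 6) ^ 6) := by
    rw [hs, ht]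
    ring
  rw [e] at h
  linarith

theorem ev_six_e13_t (u : ℝ) (h1 : 2 ≤ u) :
    55259 / 50000 * (1 + (u - 1 / 10) / 6) ^ 6 ≤
      (1 + 1 / 50 + (1 / 50) ^ 2 / 2) * ((1 + (1 / 20 * u ^ 2) + (1 / 20 * u ^ 2) ^ 2 / 2 +
      (1 / 20 * u ^ 2) ^ 3 / 6) *
      (1 + u + 407 / 1000 * u ^ 2)) := by
  obtain ⟨s, hs⟩ : ∃ s, s = u - (2) := ⟨_, rfl⟩
  have hs0 : 0 ≤ s := by linarith
  have h : 0 ≤
      19339565544901 / 2332800000000000 + 413776342511 / 7776000000000 * s +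
      6946681721053 / 38880000000000 * s ^ 2 + 2312079357023 / 14580000000000 * s ^ 3 +
      117942415529 / 1944000000000 * s ^ 4 + 29880657757 / 2430000000000 * s ^ 5 +
      25996159543 / 14580000000000 * s ^ 6 + 1596613 / 10000000000 * s ^ 7 +
      2076107 / 240000000000 * s ^ 8 := by
    positivity
  have e :
      19339565544901 / 2332800000000000 + 413776342511 / 7776000000000 * s +
      6946681721053 / 38880000000000 * s ^ 2 + 2312079357023 / 14580000000000 * s ^ 3 +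
      117942415529 / 1944000000000 * s ^ 4 + 29880657757 / 2430000000000 * s ^ 5 +
      25996159543 / 14580000000000 * s ^ 6 + 1596613 / 10000000000 * s ^ 7 +
      2076107 / 240000000000 * s ^ 8 =
      (1 + 1 / 50 + (1 / 50) ^ 2 / 2) * ((1 + (1 / 20 * u ^ 2) + (1 / 20 * u ^ 2) ^ 2 / 2 +
      (1 / 20 * u ^ 2) ^ 3 / 6) *
      (1 + u + 407 / 1000 * u ^ 2)) -
      (55259 / 50000 * (1 + (u - 1 / 10) / 6) ^ 6) := by
    rw [hs]
    ring
  rw [e] at h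
  linarith

/-- `K = 6`: `(c, μ, P, δ) = (407 / 1000, 1 / 20, 1 / 10, 1 / 50)` -/
theorem expFd_six_e13 : ExpFd 6 (407 / 1000) (1 / 20) (1 / 10) (1 / 50) := by
  have hde : (1 + 1 / 50 + (1 / 50) ^ 2 / 2) ≤ Real.exp (1 / 50) :=
    Real.quadratic_le_exp_of_nonneg (by norm_num)
  have hq : ∀ u : ℝ, 0 ≤ 1 + u + 407 / 1000 * u ^ 2 := fun u => by
    nlinarith [sq_nonneg (u + 2), sq_nonneg u]
  have hR : ∀ (u x y : ℝ), x ≤ y →
      y ≤ (1 + 1 / 50 + (1 / 50) ^ 2 / 2) * (1 + u + 407 / 1000 * u ^ 2) →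
      x ≤ Real.exp (1 / 50) * (1 + u + 407 / 1000 * u ^ 2) := fun u x y h1 h2 =>
    (h1.trans h2).trans (mul_le_mul_of_nonneg_right hde (hq u))
  refine ExpFd.of (by norm_num) (by norm_num) (by norm_num) (by norm_num) (by norm_num) ?_ ?_ ?_
  · intro u h1
    rcases le_total u (-3) with h3 | h3
    · exact hR u _ _ (ev_exp_n3 h3) (ev_six_e13_d u h3)
    rcases le_total u (-2) with h4 | h4
    · refine hR u _ _ (ev_exp_n2 h4) ?_
      exact ev_six_e13_c0 u (by linarith) (by linarith)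
    rcases le_total u (-1) with h5 | h5
    · refine hR u _ _ (ev_exp_n1 h5) ?_
      exact ev_six_e13_b0 u (by linarith) (by linarith)
    refine hR u _ _ (ev_exp_n0 h1) ?_
    rcases le_total u (-1 / 2) with hh | hh
    · exact ev_six_e13_a0 u (by linarith) (by linarith)
    exact ev_six_e13_a1 u (by linarith) (by linarith)
  · intro u h1 h2
    have h5 := mul_le_mul_of_nonneg_right (Real.add_one_le_exp (1 / 20 * u ^ 2)) (hq u)
    rw [add_comm (1 / 20 * u ^ 2) 1] at h5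
    have h6 : 0 ≤ Real.exp (1 / 20 * u ^ 2) * (1 + u + 407 / 1000 * u ^ 2) :=
      mul_nonneg (Real.exp_nonneg _) (hq u)
    rw [Real.exp_add, mul_assoc]
    refine ((ev_exp_p h1 (by linarith)).trans ?_).trans
      ((mul_le_mul_of_nonneg_left h5
        (by norm_num : (0 : ℝ) ≤ (1 + 1 / 50 + (1 / 50) ^ 2 / 2))).trans
        (mul_le_mul_of_nonneg_right hde h6))
    exact ev_six_e13_e0 u (by linarith) (by linarith)
  · intro u h1
    have h4 : 0 ≤ (1 + (u - 1 / 10) / 6) ^ 6 := by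
      have : 0 ≤ (u - 1 / 10) / 6 := div_nonneg (by linarith) (by norm_num)
      positivity
    have hE : Real.exp (1 / 10) ≤ 55259 / 50000 := ev_up_1_10
    have hx : 0 ≤ 1 / 20 * u ^ 2 := by positivity
    have h5 := mul_le_mul_of_nonneg_right (taylor3_le_expE _ hx) (hq u)
    have h6 : 0 ≤ Real.exp (1 / 20 * u ^ 2) * (1 + u + 407 / 1000 * u ^ 2) :=
      mul_nonneg (Real.exp_nonneg _) (hq u)
    rw [Real.exp_add, mul_assoc]
    push_cast
    refine ((mul_le_mul_of_nonneg_right hE h4).trans ?_).trans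
      ((mul_le_mul_of_nonneg_left h5
        (by norm_num : (0 : ℝ) ≤ (1 + 1 / 50 + (1 / 50) ^ 2 / 2))).trans
        (mul_le_mul_of_nonneg_right hde h6))
    rcases le_total u (21 / 20) with hh | hh
    · exact ev_six_e13_g0 u (by linarith) (by linarith)
    rcases le_total u (2) with hh | hh
    · exact ev_six_e13_g1 u (by linarith) (by linarith)
    exact ev_six_e13_t u (by linarith)

theorem ev_six_e14_a0 (u : ℝ) (h1 : -1 ≤ u) (h2 : u ≤ -7 / 8) :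
    1 + u + u ^ 2 / 2 + u ^ 3 / 6 + u ^ 4 / 24 ≤
      (1 + 1 / 20 + (1 / 20) ^ 2 / 2) * (1 + u + 9 / 25 * u ^ 2) := by
  obtain ⟨s, hs⟩ : ∃ s, s = u - (-1) := ⟨_, rfl⟩
  obtain ⟨t, ht⟩ : ∃ t, t = -7 / 8 - u := ⟨_, rfl⟩
  have hs0 : 0 ≤ s := by linarith
  have ht0 : 0 ≤ t := by linarith
  have h : 0 ≤
      8832 / 625 * t ^ 4 + 13712 / 375 * s * t ^ 3 + 20706 / 625 * s ^ 2 * t ^ 2 +
      1636 / 125 * s ^ 3 * t + 35263 / 15000 * s ^ 4 := by
    positivity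
  have e :
      8832 / 625 * t ^ 4 + 13712 / 375 * s * t ^ 3 + 20706 / 625 * s ^ 2 * t ^ 2 +
      1636 / 125 * s ^ 3 * t + 35263 / 15000 * s ^ 4 =
      (1 + 1 / 20 + (1 / 20) ^ 2 / 2) * (1 + u + 9 / 25 * u ^ 2) -
      (1 + u + u ^ 2 / 2 + u ^ 3 / 6 + u ^ 4 / 24) := by
    rw [hs, ht]
    ring
  rw [e] at h
  linarith

theorem ev_six_e14_a1 (u : ℝ) (h1 : -7 / 8 ≤ u) (h2 : u ≤ -3 / 4) :
    1 + u + u ^ 2 / 2 + u ^ 3 / 6 + u ^ 4 / 24 ≤
      (1 + 1 / 20 + (1 / 20) ^ 2 / 2) * (1 + u + 9 / 25 * u ^ 2) := by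
  obtain ⟨s, hs⟩ : ∃ s, s = u - (-7 / 8) := ⟨_, rfl⟩
  obtain ⟨t, ht⟩ : ∃ t, t = -3 / 4 - u := ⟨_, rfl⟩
  have hs0 : 0 ≤ s := by linarith
  have ht0 : 0 ≤ t := by linarith
  have h : 0 ≤
      35263 / 15000 * t ^ 4 + 10723 / 1875 * s * t ^ 3 + 6889 / 625 * s ^ 2 * t ^ 2 +
      8828 / 625 * s ^ 3 * t + 4018 / 625 * s ^ 4 := by
    positivity
  have e :
      35263 / 15000 * t ^ 4 + 10723 / 1875 * s * t ^ 3 + 6889 / 625 * s ^ 2 * t ^ 2 +
      8828 / 625 * s ^ 3 * t + 4018 / 625 * s ^ 4 =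
      (1 + 1 / 20 + (1 / 20) ^ 2 / 2) * (1 + u + 9 / 25 * u ^ 2) -
      (1 + u + u ^ 2 / 2 + u ^ 3 / 6 + u ^ 4 / 24) := by
    rw [hs, ht]
    ring
  rw [e] at h
  linarith

theorem ev_six_e14_a2 (u : ℝ) (h1 : -3 / 4 ≤ u) (h2 : u ≤ -1 / 2) :
    1 + u + u ^ 2 / 2 + u ^ 3 / 6 + u ^ 4 / 24 ≤
      (1 + 1 / 20 + (1 / 20) ^ 2 / 2) * (1 + u + 9 / 25 * u ^ 2) := by
  obtain ⟨s, hs⟩ : ∃ s, s = u - (-3 / 4) := ⟨_, rfl⟩
  obtain ⟨t, ht⟩ : ∃ t, t = -1 / 2 - u := ⟨_, rfl⟩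
  have hs0 : 0 ≤ s := by linarith
  have ht0 : 0 ≤ t := by linarith
  have h : 0 ≤
      2009 / 5000 * t ^ 4 + 382 / 125 * s * t ^ 3 + 10703 / 1250 * s ^ 2 * t ^ 2 +
      3524 / 375 * s ^ 3 * t + 6464 / 1875 * s ^ 4 := by
    positivity
  have e :
      2009 / 5000 * t ^ 4 + 382 / 125 * s * t ^ 3 + 10703 / 1250 * s ^ 2 * t ^ 2 +
      3524 / 375 * s ^ 3 * t + 6464 / 1875 * s ^ 4 =
      (1 + 1 / 20 + (1 / 20) ^ 2 / 2) * (1 + u + 9 / 25 * u ^ 2) -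
      (1 + u + u ^ 2 / 2 + u ^ 3 / 6 + u ^ 4 / 24) := by
    rw [hs, ht]
    ring
  rw [e] at h
  linarith

theorem ev_six_e14_a3 (u : ℝ) (h1 : -1 / 2 ≤ u) (h2 : u ≤ 0) :
    1 + u + u ^ 2 / 2 + u ^ 3 / 6 + u ^ 4 / 24 ≤
      (1 + 1 / 20 + (1 / 20) ^ 2 / 2) * (1 + u + 9 / 25 * u ^ 2) := by
  obtain ⟨s, hs⟩ : ∃ s, s = u - (-1 / 2) := ⟨_, rfl⟩
  obtain ⟨t, ht⟩ : ∃ t, t = 0 - u := ⟨_, rfl⟩
  have hs0 : 0 ≤ s := by linarith
  have ht0 : 0 ≤ t := by linarith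
  have h : 0 ≤
      404 / 1875 * t ^ 4 + 5291 / 3750 * s * t ^ 3 + 16019 / 5000 * s ^ 2 * t ^ 2 +
      287 / 100 * s ^ 3 * t + 41 / 50 * s ^ 4 := by
    positivity
  have e :
      404 / 1875 * t ^ 4 + 5291 / 3750 * s * t ^ 3 + 16019 / 5000 * s ^ 2 * t ^ 2 +
      287 / 100 * s ^ 3 * t + 41 / 50 * s ^ 4 =
      (1 + 1 / 20 + (1 / 20) ^ 2 / 2) * (1 + u + 9 / 25 * u ^ 2) -
      (1 + u + u ^ 2 / 2 + u ^ 3 / 6 + u ^ 4 / 24) := by
    rw [hs, ht]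
    ring
  rw [e] at h
  linarith

theorem ev_six_e14_b0 (u : ℝ) (h1 : -2 ≤ u) (h2 : u ≤ -1) :
    36788 / 100000 *
      (1 + (u + 1) + (u + 1) ^ 2 / 2 + (u + 1) ^ 3 / 6 + (u + 1) ^ 4 / 24) ≤
      (1 + 1 / 20 + (1 / 20) ^ 2 / 2) * (1 + u + 9 / 25 * u ^ 2) := by
  obtain ⟨s, hs⟩ : ∃ s, s = u - (-2) := ⟨_, rfl⟩
  obtain ⟨t, ht⟩ : ∃ t, t = -1 - u := ⟨_, rfl⟩
  have hs0 : 0 ≤ s := by linarith
  have ht0 : 0 ≤ t := by linarith
  have h : 0 ≤
      64919 / 200000 * t ^ 4 + 213961 / 300000 * s * t ^ 3 + 11963 / 25000 * s ^ 2 * t ^ 2 +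
      11581 / 100000 * s ^ 3 * t + 1057 / 100000 * s ^ 4 := by
    positivity
  have e :
      64919 / 200000 * t ^ 4 + 213961 / 300000 * s * t ^ 3 + 11963 / 25000 * s ^ 2 * t ^ 2 +
      11581 / 100000 * s ^ 3 * t + 1057 / 100000 * s ^ 4 =
      (1 + 1 / 20 + (1 / 20) ^ 2 / 2) * (1 + u + 9 / 25 * u ^ 2) -
      (36788 / 100000 *
      (1 + (u + 1) + (u + 1) ^ 2 / 2 + (u + 1) ^ 3 / 6 + (u + 1) ^ 4 / 24)) := by
    rw [hs, ht]
    ring
  rw [e] at h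
  linarith

theorem ev_six_e14_c0 (u : ℝ) (h1 : -3 ≤ u) (h2 : u ≤ -2) :
    13534 / 100000 *
      (1 + (u + 2) + (u + 2) ^ 2 / 2 + (u + 2) ^ 3 / 6 + (u + 2) ^ 4 / 24) ≤
      (1 + 1 / 20 + (1 / 20) ^ 2 / 2) * (1 + u + 9 / 25 * u ^ 2) := by
  obtain ⟨s, hs⟩ : ∃ s, s = u - (-3) := ⟨_, rfl⟩
  obtain ⟨t, ht⟩ : ∃ t, t = -2 - u := ⟨_, rfl⟩
  have hs0 : 0 ≤ s := by linarith
  have ht0 : 0 ≤ t := by linarith
  have h : 0 ≤
      501119 / 400000 * t ^ 4 + 280997 / 75000 * s * t ^ 3 +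
      406771 / 100000 * s ^ 2 * t ^ 2 + 190673 / 100000 * s ^ 3 * t + 32721 / 100000 * s ^ 4 := by
    positivity
  have e :
      501119 / 400000 * t ^ 4 + 280997 / 75000 * s * t ^ 3 +
      406771 / 100000 * s ^ 2 * t ^ 2 + 190673 / 100000 * s ^ 3 * t + 32721 / 100000 * s ^ 4 =
      (1 + 1 / 20 + (1 / 20) ^ 2 / 2) * (1 + u + 9 / 25 * u ^ 2) -
      (13534 / 100000 *
      (1 + (u + 2) + (u + 2) ^ 2 / 2 + (u + 2) ^ 3 / 6 + (u + 2) ^ 4 / 24)) := by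
    rw [hs, ht]
    ring
  rw [e] at h
  linarith

theorem ev_six_e14_d (u : ℝ) (h2 : u ≤ -3) :
    4979 / 100000 ≤
      (1 + 1 / 20 + (1 / 20) ^ 2 / 2) * (1 + u + 9 / 25 * u ^ 2) := by
  obtain ⟨s, hs⟩ : ∃ s, s = -3 - u := ⟨_, rfl⟩
  have hs0 : 0 ≤ s := by linarith
  have h : 0 ≤
      3918 / 3125 + 24389 / 20000 * s + 7569 / 20000 * s ^ 2 := by
    positivity
  have e :
      3918 / 3125 + 24389 / 20000 * s + 7569 / 20000 * s ^ 2 =
      (1 + 1 / 20 + (1 / 20) ^ 2 / 2) * (1 + u + 9 / 25 * u ^ 2) -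
      (4979 / 100000) := by
    rw [hs]
    ring
  rw [e] at h
  linarith

theorem ev_six_e14_e0 (u : ℝ) (h1 : 0 ≤ u) (h2 : u ≤ 1 / 10) :
    1 + u + u ^ 2 / 2 + u ^ 3 / 6 + u ^ 4 / 24 + u ^ 5 / 100 ≤
      (1 + 1 / 20 + (1 / 20) ^ 2 / 2) * ((1 + 3 / 50 * u ^ 2) *
      (1 + u + 9 / 25 * u ^ 2)) := by
  obtain ⟨s, hs⟩ : ∃ s, s = u - (0) := ⟨_, rfl⟩
  obtain ⟨t, ht⟩ : ∃ t, t = 1 / 10 - u := ⟨_, rfl⟩
  have hs0 : 0 ≤ s := by linarith
  have ht0 : 0 ≤ t := by linarith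
  have h : 0 ≤
      5125 * t ^ 5 + 52275 / 2 * s * t ^ 4 + 2129661 / 40 * s ^ 2 * t ^ 3 +
      64967059 / 1200 * s ^ 3 * t ^ 2 + 2747866707 / 100000 * s ^ 4 * t +
      1670539871 / 300000 * s ^ 5 := by
    positivity
  have e :
      5125 * t ^ 5 + 52275 / 2 * s * t ^ 4 + 2129661 / 40 * s ^ 2 * t ^ 3 +
      64967059 / 1200 * s ^ 3 * t ^ 2 + 2747866707 / 100000 * s ^ 4 * t +
      1670539871 / 300000 * s ^ 5 =
      (1 + 1 / 20 + (1 / 20) ^ 2 / 2) * ((1 + 3 / 50 * u ^ 2) *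
      (1 + u + 9 / 25 * u ^ 2)) -
      (1 + u + u ^ 2 / 2 + u ^ 3 / 6 + u ^ 4 / 24 + u ^ 5 / 100) := by
    rw [hs, ht]
    ring
  rw [e] at h
  linarith

theorem ev_six_e14_g0 (u : ℝ) (h1 : 1 / 10 ≤ u) (h2 : u ≤ 2) :
    55259 / 50000 * (1 + (u - 1 / 10) / 6) ^ 6 ≤
      (1 + 1 / 20 + (1 / 20) ^ 2 / 2) * ((1 + (3 / 50 * u ^ 2) + (3 / 50 * u ^ 2) ^ 2 / 2 +
      (3 / 50 * u ^ 2) ^ 3 / 6) *
      (1 + u + 9 / 25 * u ^ 2)) := by
  obtain ⟨s, hs⟩ : ∃ s, s = u - (1 / 10) := ⟨_, rfl⟩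
  obtain ⟨t, ht⟩ : ∃ t, t = 2 - u := ⟨_, rfl⟩
  have hs0 : 0 ≤ s := by linarith
  have ht0 : 0 ≤ t := by linarith
  have h : 0 ≤
      27837902285237871 / 84917815205000000000 * t ^ 8 +
      25725152299881161 / 8491781520500000000 * s * t ^ 7 +
      30717596758029431 / 2547534456150000000 * s ^ 2 * t ^ 6 +
      29699646192835883 / 1146390505267500000 * s ^ 3 * t ^ 5 +
      187652571614701 / 5731952526337500 * s ^ 4 * t ^ 4 +
      3519045158757659 / 137566860632100000 * s ^ 5 * t ^ 3 +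
      26065586047070201 / 1980962793102240000 * s ^ 6 * t ^ 2 +
      946830999508993 / 198096279310224000 * s ^ 7 * t +
      407596168711621 / 396192558620448000 * s ^ 8 := by
    positivity
  have e :
      27837902285237871 / 84917815205000000000 * t ^ 8 +
      25725152299881161 / 8491781520500000000 * s * t ^ 7 +
      30717596758029431 / 2547534456150000000 * s ^ 2 * t ^ 6 +
      29699646192835883 / 1146390505267500000 * s ^ 3 * t ^ 5 +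
      187652571614701 / 5731952526337500 * s ^ 4 * t ^ 4 +
      3519045158757659 / 137566860632100000 * s ^ 5 * t ^ 3 +
      26065586047070201 / 1980962793102240000 * s ^ 6 * t ^ 2 +
      946830999508993 / 198096279310224000 * s ^ 7 * t +
      407596168711621 / 396192558620448000 * s ^ 8 =
      (1 + 1 / 20 + (1 / 20) ^ 2 / 2) * ((1 + (3 / 50 * u ^ 2) + (3 / 50 * u ^ 2) ^ 2 / 2 +
      (3 / 50 * u ^ 2) ^ 3 / 6) *
      (1 + u + 9 / 25 * u ^ 2)) -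
      (55259 / 50000 * (1 + (u - 1 / 10) / 6) ^ 6) := by
    rw [hs, ht]
    ring
  rw [e] at h
  linarith

theorem ev_six_e14_t (u : ℝ) (h1 : 2 ≤ u) :
    55259 / 50000 * (1 + (u - 1 / 10) / 6) ^ 6 ≤
      (1 + 1 / 20 + (1 / 20) ^ 2 / 2) * ((1 + (3 / 50 * u ^ 2) + (3 / 50 * u ^ 2) ^ 2 / 2 +
      (3 / 50 * u ^ 2) ^ 3 / 6) *
      (1 + u + 9 / 25 * u ^ 2)) := by
  obtain ⟨s, hs⟩ : ∃ s, s = u - (2) := ⟨_, rfl⟩
  have hs0 : 0 ≤ s := by linarith
  have h : 0 ≤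
      407596168711621 / 2332800000000000 + 11992169742763 / 38880000000000 * s +
      15559445707357 / 38880000000000 * s ^ 2 + 3829217695487 / 14580000000000 * s ^ 3 +
      175631418401 / 1944000000000 * s ^ 4 + 45394168663 / 2430000000000 * s ^ 5 +
      20055574091 / 7290000000000 * s ^ 6 + 1279161 / 5000000000 * s ^ 7 +
      68121 / 5000000000 * s ^ 8 := by
    positivity
  have e :
      407596168711621 / 2332800000000000 + 11992169742763 / 38880000000000 * s +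
      15559445707357 / 38880000000000 * s ^ 2 + 3829217695487 / 14580000000000 * s ^ 3 +
      175631418401 / 1944000000000 * s ^ 4 + 45394168663 / 2430000000000 * s ^ 5 +
      20055574091 / 7290000000000 * s ^ 6 + 1279161 / 5000000000 * s ^ 7 +
      68121 / 5000000000 * s ^ 8 =
      (1 + 1 / 20 + (1 / 20) ^ 2 / 2) * ((1 + (3 / 50 * u ^ 2) + (3 / 50 * u ^ 2) ^ 2 / 2 +
      (3 / 50 * u ^ 2) ^ 3 / 6) *
      (1 + u + 9 / 25 * u ^ 2)) -
      (55259 / 50000 * (1 + (u - 1 / 10) / 6) ^ 6) := by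
    rw [hs]
    ring
  rw [e] at h
  linarith

/-- `K = 6`: `(c, μ, P, δ) = (9 / 25, 3 / 50, 1 / 10, 1 / 20)` -/
theorem expFd_six_e14 : ExpFd 6 (9 / 25) (3 / 50) (1 / 10) (1 / 20) := by
  have hde : (1 + 1 / 20 + (1 / 20) ^ 2 / 2) ≤ Real.exp (1 / 20) :=
    Real.quadratic_le_exp_of_nonneg (by norm_num)
  have hq : ∀ u : ℝ, 0 ≤ 1 + u + 9 / 25 * u ^ 2 := fun u => by
    nlinarith [sq_nonneg (u + 2), sq_nonneg u]
  have hR : ∀ (u x y : ℝ), x ≤ y →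
      y ≤ (1 + 1 / 20 + (1 / 20) ^ 2 / 2) * (1 + u + 9 / 25 * u ^ 2) →
      x ≤ Real.exp (1 / 20) * (1 + u + 9 / 25 * u ^ 2) := fun u x y h1 h2 =>
    (h1.trans h2).trans (mul_le_mul_of_nonneg_right hde (hq u))
  refine ExpFd.of (by norm_num) (by norm_num) (by norm_num) (by norm_num) (by norm_num) ?_ ?_ ?_
  · intro u h1
    rcases le_total u (-3) with h3 | h3
    · exact hR u _ _ (ev_exp_n3 h3) (ev_six_e14_d u h3)
    rcases le_total u (-2) with h4 | h4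
    · refine hR u _ _ (ev_exp_n2 h4) ?_
      exact ev_six_e14_c0 u (by linarith) (by linarith)
    rcases le_total u (-1) with h5 | h5
    · refine hR u _ _ (ev_exp_n1 h5) ?_
      exact ev_six_e14_b0 u (by linarith) (by linarith)
    refine hR u _ _ (ev_exp_n0 h1) ?_
    rcases le_total u (-7 / 8) with hh | hh
    · exact ev_six_e14_a0 u (by linarith) (by linarith)
    rcases le_total u (-3 / 4) with hh | hh
    · exact ev_six_e14_a1 u (by linarith) (by linarith)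
    rcases le_total u (-1 / 2) with hh | hh
    · exact ev_six_e14_a2 u (by linarith) (by linarith)
    exact ev_six_e14_a3 u (by linarith) (by linarith)
  · intro u h1 h2
    have h5 := mul_le_mul_of_nonneg_right (Real.add_one_le_exp (3 / 50 * u ^ 2)) (hq u)
    rw [add_comm (3 / 50 * u ^ 2) 1] at h5
    have h6 : 0 ≤ Real.exp (3 / 50 * u ^ 2) * (1 + u + 9 / 25 * u ^ 2) :=
      mul_nonneg (Real.exp_nonneg _) (hq u)
    rw [Real.exp_add, mul_assoc]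
    refine ((ev_exp_p h1 (by linarith)).trans ?_).trans
      ((mul_le_mul_of_nonneg_left h5
        (by norm_num : (0 : ℝ) ≤ (1 + 1 / 20 + (1 / 20) ^ 2 / 2))).trans
        (mul_le_mul_of_nonneg_right hde h6))
    exact ev_six_e14_e0 u (by linarith) (by linarith)
  · intro u h1
    have h4 : 0 ≤ (1 + (u - 1 / 10) / 6) ^ 6 := by
      have : 0 ≤ (u - 1 / 10) / 6 := div_nonneg (by linarith) (by norm_num)
      positivity
    have hE : Real.exp (1 / 10) ≤ 55259 / 50000 := ev_up_1_10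
    have hx : 0 ≤ 3 / 50 * u ^ 2 := by positivity
    have h5 := mul_le_mul_of_nonneg_right (taylor3_le_expE _ hx) (hq u)
    have h6 : 0 ≤ Real.exp (3 / 50 * u ^ 2) * (1 + u + 9 / 25 * u ^ 2) :=
      mul_nonneg (Real.exp_nonneg _) (hq u)
    rw [Real.exp_add, mul_assoc]
    push_cast
    refine ((mul_le_mul_of_nonneg_right hE h4).trans ?_).trans
      ((mul_le_mul_of_nonneg_left h5
        (by norm_num : (0 : ℝ) ≤ (1 + 1 / 20 + (1 / 20) ^ 2 / 2))).trans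
        (mul_le_mul_of_nonneg_right hde h6))
    rcases le_total u (2) with hh | hh
    · exact ev_six_e14_g0 u (by linarith) (by linarith)
    exact ev_six_e14_t u (by linarith)

theorem ev_six_e15_a0 (u : ℝ) (h1 : -1 ≤ u) (h2 : u ≤ 0) :
    1 + u + u ^ 2 / 2 + u ^ 3 / 6 + u ^ 4 / 24 ≤
      (1 + 1 / 10 + (1 / 10) ^ 2 / 2) * (1 + u + 17 / 50 * u ^ 2) := by
  obtain ⟨s, hs⟩ : ∃ s, s = u - (-1) := ⟨_, rfl⟩
  obtain ⟨t, ht⟩ : ∃ t, t = 0 - u := ⟨_, rfl⟩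
  have hs0 : 0 ≤ s := by linarith
  have ht0 : 0 ≤ t := by linarith
  have h : 0 ≤
      7 / 10000 * t ^ 4 + 173 / 7500 * s * t ^ 3 + 1907 / 10000 * s ^ 2 * t ^ 2 +
      63 / 200 * s ^ 3 * t + 21 / 200 * s ^ 4 := by
    positivity
  have e :
      7 / 10000 * t ^ 4 + 173 / 7500 * s * t ^ 3 + 1907 / 10000 * s ^ 2 * t ^ 2 +
      63 / 200 * s ^ 3 * t + 21 / 200 * s ^ 4 =
      (1 + 1 / 10 + (1 / 10) ^ 2 / 2) * (1 + u + 17 / 50 * u ^ 2) -
      (1 + u + u ^ 2 / 2 + u ^ 3 / 6 + u ^ 4 / 24) := by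
    rw [hs, ht]
    ring
  rw [e] at h
  linarith

theorem ev_six_e15_b0 (u : ℝ) (h1 : -2 ≤ u) (h2 : u ≤ -1) :
    36788 / 100000 *
      (1 + (u + 1) + (u + 1) ^ 2 / 2 + (u + 1) ^ 3 / 6 + (u + 1) ^ 4 / 24) ≤
      (1 + 1 / 10 + (1 / 10) ^ 2 / 2) * (1 + u + 17 / 50 * u ^ 2) := by
  obtain ⟨s, hs⟩ : ∃ s, s = u - (-2) := ⟨_, rfl⟩
  obtain ⟨t, ht⟩ : ∃ t, t = -1 - u := ⟨_, rfl⟩
  have hs0 : 0 ≤ s := by linarith
  have ht0 : 0 ≤ t := by linarith
  have h : 0 ≤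
      51969 / 200000 * t ^ 4 + 77843 / 150000 * s * t ^ 3 + 3519 / 12500 * s ^ 2 * t ^ 2 +
      1139 / 25000 * s ^ 3 * t + 391 / 50000 * s ^ 4 := by
    positivity
  have e :
      51969 / 200000 * t ^ 4 + 77843 / 150000 * s * t ^ 3 + 3519 / 12500 * s ^ 2 * t ^ 2 +
      1139 / 25000 * s ^ 3 * t + 391 / 50000 * s ^ 4 =
      (1 + 1 / 10 + (1 / 10) ^ 2 / 2) * (1 + u + 17 / 50 * u ^ 2) -
      (36788 / 100000 *
      (1 + (u + 1) + (u + 1) ^ 2 / 2 + (u + 1) ^ 3 / 6 + (u + 1) ^ 4 / 24)) := by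
    rw [hs, ht]
    ring
  rw [e] at h
  linarith

theorem ev_six_e15_c0 (u : ℝ) (h1 : -3 ≤ u) (h2 : u ≤ -2) :
    13534 / 100000 *
      (1 + (u + 2) + (u + 2) ^ 2 / 2 + (u + 2) ^ 3 / 6 + (u + 2) ^ 4 / 24) ≤
      (1 + 1 / 10 + (1 / 10) ^ 2 / 2) * (1 + u + 17 / 50 * u ^ 2) := by
  obtain ⟨s, hs⟩ : ∃ s, s = u - (-3) := ⟨_, rfl⟩
  obtain ⟨t, ht⟩ : ∃ t, t = -2 - u := ⟨_, rfl⟩
  have hs0 : 0 ≤ s := by linarith
  have ht0 : 0 ≤ t := by linarith
  have h : 0 ≤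
      448219 / 400000 * t ^ 4 + 986363 / 300000 * s * t ^ 3 +
      348221 / 100000 * s ^ 2 * t ^ 2 + 79149 / 50000 * s ^ 3 * t + 13123 / 50000 * s ^ 4 := by
    positivity
  have e :
      448219 / 400000 * t ^ 4 + 986363 / 300000 * s * t ^ 3 +
      348221 / 100000 * s ^ 2 * t ^ 2 + 79149 / 50000 * s ^ 3 * t + 13123 / 50000 * s ^ 4 =
      (1 + 1 / 10 + (1 / 10) ^ 2 / 2) * (1 + u + 17 / 50 * u ^ 2) -
      (13534 / 100000 *
      (1 + (u + 2) + (u + 2) ^ 2 / 2 + (u + 2) ^ 3 / 6 + (u + 2) ^ 4 / 24)) := by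
    rw [hs, ht]
    ring
  rw [e] at h
  linarith

theorem ev_six_e15_d (u : ℝ) (h2 : u ≤ -3) :
    4979 / 100000 ≤
      (1 + 1 / 10 + (1 / 10) ^ 2 / 2) * (1 + u + 17 / 50 * u ^ 2) := by
  obtain ⟨s, hs⟩ : ∃ s, s = -3 - u := ⟨_, rfl⟩
  have hs0 : 0 ≤ s := by linarith
  have h : 0 ≤
      112151 / 100000 + 2873 / 2500 * s + 3757 / 10000 * s ^ 2 := by
    positivity
  have e :
      112151 / 100000 + 2873 / 2500 * s + 3757 / 10000 * s ^ 2 =
      (1 + 1 / 10 + (1 / 10) ^ 2 / 2) * (1 + u + 17 / 50 * u ^ 2) -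
      (4979 / 100000) := by
    rw [hs]
    ring
  rw [e] at h
  linarith

theorem ev_six_e15_e0 (u : ℝ) (h1 : 0 ≤ u) (h2 : u ≤ 1 / 10) :
    1 + u + u ^ 2 / 2 + u ^ 3 / 6 + u ^ 4 / 24 + u ^ 5 / 100 ≤
      (1 + 1 / 10 + (1 / 10) ^ 2 / 2) * ((1 + 3 / 50 * u ^ 2) *
      (1 + u + 17 / 50 * u ^ 2)) := by
  obtain ⟨s, hs⟩ : ∃ s, s = u - (0) := ⟨_, rfl⟩
  obtain ⟨t, ht⟩ : ∃ t, t = 1 / 10 - u := ⟨_, rfl⟩
  have hs0 : 0 ≤ s := by linarith
  have ht0 : 0 ≤ t := by linarith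
  have h : 0 ≤
      10500 * t ^ 5 + 53550 * s * t ^ 4 + 109142 * s ^ 2 * t ^ 3 +
      33334789 / 300 * s ^ 3 * t ^ 2 + 2825286771 / 50000 * s ^ 4 * t +
      1722264313 / 150000 * s ^ 5 := by
    positivity
  have e :
      10500 * t ^ 5 + 53550 * s * t ^ 4 + 109142 * s ^ 2 * t ^ 3 +
      33334789 / 300 * s ^ 3 * t ^ 2 + 2825286771 / 50000 * s ^ 4 * t +
      1722264313 / 150000 * s ^ 5 =
      (1 + 1 / 10 + (1 / 10) ^ 2 / 2) * ((1 + 3 / 50 * u ^ 2) *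
      (1 + u + 17 / 50 * u ^ 2)) -
      (1 + u + u ^ 2 / 2 + u ^ 3 / 6 + u ^ 4 / 24 + u ^ 5 / 100) := by
    rw [hs, ht]
    ring
  rw [e] at h
  linarith

theorem ev_six_e15_g0 (u : ℝ) (h1 : 1 / 10 ≤ u) (h2 : u ≤ 2) :
    55259 / 50000 * (1 + (u - 1 / 10) / 6) ^ 6 ≤
      (1 + 1 / 10 + (1 / 10) ^ 2 / 2) * ((1 + (3 / 50 * u ^ 2) + (3 / 50 * u ^ 2) ^ 2 / 2 +
      (3 / 50 * u ^ 2) ^ 3 / 6) *
      (1 + u + 17 / 50 * u ^ 2)) := by
  obtain ⟨s, hs⟩ : ∃ s, s = u - (1 / 10) := ⟨_, rfl⟩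
  obtain ⟨t, ht⟩ : ∃ t, t = 2 - u := ⟨_, rfl⟩
  have hs0 : 0 ≤ s := by linarith
  have ht0 : 0 ≤ t := by linarith
  have h : 0 ≤
      28702193427538313 / 42458907602500000000 * t ^ 8 +
      13625696212617729 / 2122945380125000000 * s * t ^ 7 +
      4149544992089921 / 159220903509375000 * s ^ 2 * t ^ 6 +
      16734661506778637 / 286597626316875000 * s ^ 3 * t ^ 5 +
      1819012722486949 / 22927810105350000 * s ^ 4 * t ^ 4 +
      9370302824511179 / 137566860632100000 * s ^ 5 * t ^ 3 +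
      74020262981829881 / 1980962793102240000 * s ^ 6 * t ^ 2 +
      2507113808036353 / 198096279310224000 * s ^ 7 * t +
      853122188244421 / 396192558620448000 * s ^ 8 := by
    positivity
  have e :
      28702193427538313 / 42458907602500000000 * t ^ 8 +
      13625696212617729 / 2122945380125000000 * s * t ^ 7 +
      4149544992089921 / 159220903509375000 * s ^ 2 * t ^ 6 +
      16734661506778637 / 286597626316875000 * s ^ 3 * t ^ 5 +
      1819012722486949 / 22927810105350000 * s ^ 4 * t ^ 4 +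
      9370302824511179 / 137566860632100000 * s ^ 5 * t ^ 3 +
      74020262981829881 / 1980962793102240000 * s ^ 6 * t ^ 2 +
      2507113808036353 / 198096279310224000 * s ^ 7 * t +
      853122188244421 / 396192558620448000 * s ^ 8 =
      (1 + 1 / 10 + (1 / 10) ^ 2 / 2) * ((1 + (3 / 50 * u ^ 2) + (3 / 50 * u ^ 2) ^ 2 / 2 +
      (3 / 50 * u ^ 2) ^ 3 / 6) *
      (1 + u + 17 / 50 * u ^ 2)) -
      (55259 / 50000 * (1 + (u - 1 / 10) / 6) ^ 6) := by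
    rw [hs, ht]
    ring
  rw [e] at h
  linarith

theorem ev_six_e15_t (u : ℝ) (h1 : 2 ≤ u) :
    55259 / 50000 * (1 + (u - 1 / 10) / 6) ^ 6 ≤
      (1 + 1 / 10 + (1 / 10) ^ 2 / 2) * ((1 + (3 / 50 * u ^ 2) + (3 / 50 * u ^ 2) ^ 2 / 2 +
      (3 / 50 * u ^ 2) ^ 3 / 6) *
      (1 + u + 17 / 50 * u ^ 2)) := by
  obtain ⟨s, hs⟩ : ∃ s, s = u - (2) := ⟨_, rfl⟩
  have hs0 : 0 ≤ s := by linarith
  have h : 0 ≤
      853122188244421 / 2332800000000000 + 15883770963883 / 38880000000000 * s +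
      16583012717917 / 38880000000000 * s ^ 2 + 3930881002847 / 14580000000000 * s ^ 3 +
      177865599281 / 1944000000000 * s ^ 4 + 45828550603 / 2430000000000 * s ^ 5 +
      20150249321 / 7290000000000 * s ^ 6 + 320229 / 1250000000 * s ^ 7 +
      33813 / 2500000000 * s ^ 8 := by
    positivity
  have e :
      853122188244421 / 2332800000000000 + 15883770963883 / 38880000000000 * s +
      16583012717917 / 38880000000000 * s ^ 2 + 3930881002847 / 14580000000000 * s ^ 3 +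
      177865599281 / 1944000000000 * s ^ 4 + 45828550603 / 2430000000000 * s ^ 5 +
      20150249321 / 7290000000000 * s ^ 6 + 320229 / 1250000000 * s ^ 7 +
      33813 / 2500000000 * s ^ 8 =
      (1 + 1 / 10 + (1 / 10) ^ 2 / 2) * ((1 + (3 / 50 * u ^ 2) + (3 / 50 * u ^ 2) ^ 2 / 2 +
      (3 / 50 * u ^ 2) ^ 3 / 6) *
      (1 + u + 17 / 50 * u ^ 2)) -
      (55259 / 50000 * (1 + (u - 1 / 10) / 6) ^ 6) := by
    rw [hs]
    ring
  rw [e] at h
  linarith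

/-- `K = 6`: `(c, μ, P, δ) = (17 / 50, 3 / 50, 1 / 10, 1 / 10)` -/
theorem expFd_six_e15 : ExpFd 6 (17 / 50) (3 / 50) (1 / 10) (1 / 10) := by
  have hde : (1 + 1 / 10 + (1 / 10) ^ 2 / 2) ≤ Real.exp (1 / 10) :=
    Real.quadratic_le_exp_of_nonneg (by norm_num)
  have hq : ∀ u : ℝ, 0 ≤ 1 + u + 17 / 50 * u ^ 2 := fun u => by
    nlinarith [sq_nonneg (u + 2), sq_nonneg u]
  have hR : ∀ (u x y : ℝ), x ≤ y →
      y ≤ (1 + 1 / 10 + (1 / 10) ^ 2 / 2) * (1 + u + 17 / 50 * u ^ 2) →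
      x ≤ Real.exp (1 / 10) * (1 + u + 17 / 50 * u ^ 2) := fun u x y h1 h2 =>
    (h1.trans h2).trans (mul_le_mul_of_nonneg_right hde (hq u))
  refine ExpFd.of (by norm_num) (by norm_num) (by norm_num) (by norm_num) (by norm_num) ?_ ?_ ?_
  · intro u h1
    rcases le_total u (-3) with h3 | h3
    · exact hR u _ _ (ev_exp_n3 h3) (ev_six_e15_d u h3)
    rcases le_total u (-2) with h4 | h4
    · refine hR u _ _ (ev_exp_n2 h4) ?_
      exact ev_six_e15_c0 u (by linarith) (by linarith)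
    rcases le_total u (-1) with h5 | h5
    · refine hR u _ _ (ev_exp_n1 h5) ?_
      exact ev_six_e15_b0 u (by linarith) (by linarith)
    refine hR u _ _ (ev_exp_n0 h1) ?_
    exact ev_six_e15_a0 u (by linarith) (by linarith)
  · intro u h1 h2
    have h5 := mul_le_mul_of_nonneg_right (Real.add_one_le_exp (3 / 50 * u ^ 2)) (hq u)
    rw [add_comm (3 / 50 * u ^ 2) 1] at h5
    have h6 : 0 ≤ Real.exp (3 / 50 * u ^ 2) * (1 + u + 17 / 50 * u ^ 2) :=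
      mul_nonneg (Real.exp_nonneg _) (hq u)
    rw [Real.exp_add, mul_assoc]
    refine ((ev_exp_p h1 (by linarith)).trans ?_).trans
      ((mul_le_mul_of_nonneg_left h5
        (by norm_num : (0 : ℝ) ≤ (1 + 1 / 10 + (1 / 10) ^ 2 / 2))).trans
        (mul_le_mul_of_nonneg_right hde h6))
    exact ev_six_e15_e0 u (by linarith) (by linarith)
  · intro u h1
    have h4 : 0 ≤ (1 + (u - 1 / 10) / 6) ^ 6 := by
      have : 0 ≤ (u - 1 / 10) / 6 := div_nonneg (by linarith) (by norm_num)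
      positivity
    have hE : Real.exp (1 / 10) ≤ 55259 / 50000 := ev_up_1_10
    have hx : 0 ≤ 3 / 50 * u ^ 2 := by positivity
    have h5 := mul_le_mul_of_nonneg_right (taylor3_le_expE _ hx) (hq u)
    have h6 : 0 ≤ Real.exp (3 / 50 * u ^ 2) * (1 + u + 17 / 50 * u ^ 2) :=
      mul_nonneg (Real.exp_nonneg _) (hq u)
    rw [Real.exp_add, mul_assoc]
    push_cast
    refine ((mul_le_mul_of_nonneg_right hE h4).trans ?_).trans
      ((mul_le_mul_of_nonneg_left h5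
        (by norm_num : (0 : ℝ) ≤ (1 + 1 / 10 + (1 / 10) ^ 2 / 2))).trans
        (mul_le_mul_of_nonneg_right hde h6))
    rcases le_total u (2) with hh | hh
    · exact ev_six_e15_g0 u (by linarith) (by linarith)
    exact ev_six_e15_t u (by linarith)

theorem ev_six_e20_a0 (u : ℝ) (h1 : -1 ≤ u) (h2 : u ≤ 0) :
    1 + u + u ^ 2 / 2 + u ^ 3 / 6 + u ^ 4 / 24 ≤
      (1 + 1 / 500 + (1 / 500) ^ 2 / 2) * (1 + u + 253 / 500 * u ^ 2) := by
  obtain ⟨s, hs⟩ : ∃ s, s = u - (-1) := ⟨_, rfl⟩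
  obtain ⟨t, ht⟩ : ∃ t, t = 0 - u := ⟨_, rfl⟩
  have hs0 : 0 ≤ s := by linarith
  have ht0 : 0 ≤ t := by linarith
  have h : 0 ≤
      33003253 / 250000000 * t ^ 4 + 68510509 / 375000000 * s * t ^ 3 +
      3254753 / 250000000 * s ^ 2 * t ^ 2 + 3003 / 500000 * s ^ 3 * t + 1001 / 500000 * s ^ 4 := by
    positivity
  have e :
      33003253 / 250000000 * t ^ 4 + 68510509 / 375000000 * s * t ^ 3 +
      3254753 / 250000000 * s ^ 2 * t ^ 2 + 3003 / 500000 * s ^ 3 * t + 1001 / 500000 * s ^ 4 =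
      (1 + 1 / 500 + (1 / 500) ^ 2 / 2) * (1 + u + 253 / 500 * u ^ 2) -
      (1 + u + u ^ 2 / 2 + u ^ 3 / 6 + u ^ 4 / 24) := by
    rw [hs, ht]
    ring
  rw [e] at h
  linarith

theorem ev_six_e20_b0 (u : ℝ) (h1 : -2 ≤ u) (h2 : u ≤ -1) :
    36788 / 100000 *
      (1 + (u + 1) + (u + 1) ^ 2 / 2 + (u + 1) ^ 3 / 6 + (u + 1) ^ 4 / 24) ≤
      (1 + 1 / 500 + (1 / 500) ^ 2 / 2) * (1 + u + 253 / 500 * u ^ 2) := by
  obtain ⟨s, hs⟩ : ∃ s, s = u - (-2) := ⟨_, rfl⟩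
  obtain ⟨t, ht⟩ : ∃ t, t = -1 - u := ⟨_, rfl⟩
  have hs0 : 0 ≤ s := by linarith
  have ht0 : 0 ≤ t := by linarith
  have h : 0 ≤
      111011881 / 125000000 * t ^ 4 + 225347201 / 93750000 * s * t ^ 3 +
      574395789 / 250000000 * s ^ 2 * t ^ 2 + 117054509 / 125000000 * s ^ 3 * t +
      34783253 / 250000000 * s ^ 4 := by
    positivity
  have e :
      111011881 / 125000000 * t ^ 4 + 225347201 / 93750000 * s * t ^ 3 +
      574395789 / 250000000 * s ^ 2 * t ^ 2 + 117054509 / 125000000 * s ^ 3 * t +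
      34783253 / 250000000 * s ^ 4 =
      (1 + 1 / 500 + (1 / 500) ^ 2 / 2) * (1 + u + 253 / 500 * u ^ 2) -
      (36788 / 100000 *
      (1 + (u + 1) + (u + 1) ^ 2 / 2 + (u + 1) ^ 3 / 6 + (u + 1) ^ 4 / 24)) := by
    rw [hs, ht]
    ring
  rw [e] at h
  linarith

theorem ev_six_e20_c0 (u : ℝ) (h1 : -3 ≤ u) (h2 : u ≤ -2) :
    13534 / 100000 *
      (1 + (u + 2) + (u + 2) ^ 2 / 2 + (u + 2) ^ 3 / 6 + (u + 2) ^ 4 / 24) ≤
      (1 + 1 / 500 + (1 / 500) ^ 2 / 2) * (1 + u + 253 / 500 * u ^ 2) := by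
  obtain ⟨s, hs⟩ : ∃ s, s = u - (-3) := ⟨_, rfl⟩
  obtain ⟨t, ht⟩ : ∃ t, t = -2 - u := ⟨_, rfl⟩
  have hs0 : 0 ≤ s := by linarith
  have ht0 : 0 ≤ t := by linarith
  have h : 0 ≤
      78386269 / 31250000 * t ^ 4 + 596118977 / 75000000 * s * t ^ 3 +
      2316943361 / 250000000 * s ^ 2 * t ^ 2 + 29526439 / 6250000 * s ^ 3 * t +
      27834689 / 31250000 * s ^ 4 := by
    positivity
  have e :
      78386269 / 31250000 * t ^ 4 + 596118977 / 75000000 * s * t ^ 3 +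
      2316943361 / 250000000 * s ^ 2 * t ^ 2 + 29526439 / 6250000 * s ^ 3 * t +
      27834689 / 31250000 * s ^ 4 =
      (1 + 1 / 500 + (1 / 500) ^ 2 / 2) * (1 + u + 253 / 500 * u ^ 2) -
      (13534 / 100000 *
      (1 + (u + 2) + (u + 2) ^ 2 / 2 + (u + 2) ^ 3 / 6 + (u + 2) ^ 4 / 24)) := by
    rw [hs, ht]
    ring
  rw [e] at h
  linarith

theorem ev_six_e20_d (u : ℝ) (h2 : u ≤ -3) :
    4979 / 100000 ≤
      (1 + 1 / 500 + (1 / 500) ^ 2 / 2) * (1 + u + 253 / 500 * u ^ 2) := by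
  obtain ⟨s, hs⟩ : ∃ s, s = -3 - u := ⟨_, rfl⟩
  have hs0 : 0 ≤ s := by linarith
  have h : 0 ≤
      627330777 / 250000000 + 255009509 / 125000000 * s + 126753253 / 250000000 * s ^ 2 := by
    positivity
  have e :
      627330777 / 250000000 + 255009509 / 125000000 * s + 126753253 / 250000000 * s ^ 2 =
      (1 + 1 / 500 + (1 / 500) ^ 2 / 2) * (1 + u + 253 / 500 * u ^ 2) -
      (4979 / 100000) := by
    rw [hs]
    ring
  rw [e] at h
  linarith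

theorem ev_six_e20_e0 (u : ℝ) (h1 : 0 ≤ u) (h2 : u ≤ 1 / 5) :
    1 + u + u ^ 2 / 2 + u ^ 3 / 6 + u ^ 4 / 24 + u ^ 5 / 100 ≤
      (1 + 1 / 500 + (1 / 500) ^ 2 / 2) * ((1 + 1 / 25 * u ^ 2) *
      (1 + u + 253 / 500 * u ^ 2)) := by
  obtain ⟨s, hs⟩ : ∃ s, s = u - (0) := ⟨_, rfl⟩
  obtain ⟨t, ht⟩ : ∃ t, t = 1 / 5 - u := ⟨_, rfl⟩
  have hs0 : 0 ≤ s := by linarith
  have ht0 : 0 ≤ t := by linarith
  have h : 0 ≤
      1001 / 160 * t ^ 5 + 13013 / 400 * s * t ^ 4 + 146908273 / 2000000 * s ^ 2 * t ^ 3 +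
      507391469 / 6000000 * s ^ 3 * t ^ 2 + 44540530721 / 937500000 * s ^ 4 * t +
      6320338189 / 625000000 * s ^ 5 := by
    positivity
  have e :
      1001 / 160 * t ^ 5 + 13013 / 400 * s * t ^ 4 + 146908273 / 2000000 * s ^ 2 * t ^ 3 +
      507391469 / 6000000 * s ^ 3 * t ^ 2 + 44540530721 / 937500000 * s ^ 4 * t +
      6320338189 / 625000000 * s ^ 5 =
      (1 + 1 / 500 + (1 / 500) ^ 2 / 2) * ((1 + 1 / 25 * u ^ 2) *
      (1 + u + 253 / 500 * u ^ 2)) -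
      (1 + u + u ^ 2 / 2 + u ^ 3 / 6 + u ^ 4 / 24 + u ^ 5 / 100) := by
    rw [hs, ht]
    ring
  rw [e] at h
  linarith

theorem ev_six_e20_g0 (u : ℝ) (h1 : 1 / 5 ≤ u) (h2 : u ≤ 8 / 5) :
    122141 / 100000 * (1 + (u - 1 / 5) / 6) ^ 6 ≤
      (1 + 1 / 500 + (1 / 500) ^ 2 / 2) * ((1 + (1 / 25 * u ^ 2) + (1 / 25 * u ^ 2) ^ 2 / 2 +
      (1 / 25 * u ^ 2) ^ 3 / 6) *
      (1 + u + 253 / 500 * u ^ 2)) := by
  obtain ⟨s, hs⟩ : ∃ s, s = u - (1 / 5) := ⟨_, rfl⟩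
  obtain ⟨t, ht⟩ : ∃ t, t = 8 / 5 - u := ⟨_, rfl⟩
  have hs0 : 0 ≤ s := by linarith
  have ht0 : 0 ≤ t := by linarith
  have h : 0 ≤
      3697333169850641 / 16889065429687500000 * t ^ 8 +
      149849856394284721 / 67556261718750000000 * s * t ^ 7 +
      118015335810533631 / 6433929687500000000 * s ^ 2 * t ^ 6 +
      2838806377151691523 / 43429025390625000000 * s ^ 3 * t ^ 5 +
      896271117488317777 / 7720715625000000000 * s ^ 4 * t ^ 4 +
      117042208343146791203 / 1042296609375000000000 * s ^ 5 * t ^ 3 +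
      2234314210822079633857 / 37522677937500000000000 * s ^ 6 * t ^ 2 +
      2104014516177586926481 / 131329372781250000000000 * s ^ 7 * t +
      449101353160339268587 / 262658745562500000000000 * s ^ 8 := by
    positivity
  have e :
      3697333169850641 / 16889065429687500000 * t ^ 8 +
      149849856394284721 / 67556261718750000000 * s * t ^ 7 +
      118015335810533631 / 6433929687500000000 * s ^ 2 * t ^ 6 +
      2838806377151691523 / 43429025390625000000 * s ^ 3 * t ^ 5 +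
      896271117488317777 / 7720715625000000000 * s ^ 4 * t ^ 4 +
      117042208343146791203 / 1042296609375000000000 * s ^ 5 * t ^ 3 +
      2234314210822079633857 / 37522677937500000000000 * s ^ 6 * t ^ 2 +
      2104014516177586926481 / 131329372781250000000000 * s ^ 7 * t +
      449101353160339268587 / 262658745562500000000000 * s ^ 8 =
      (1 + 1 / 500 + (1 / 500) ^ 2 / 2) * ((1 + (1 / 25 * u ^ 2) + (1 / 25 * u ^ 2) ^ 2 / 2 +
      (1 / 25 * u ^ 2) ^ 3 / 6) *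
      (1 + u + 253 / 500 * u ^ 2)) -
      (122141 / 100000 * (1 + (u - 1 / 5) / 6) ^ 6) := by
    rw [hs, ht]
    ring
  rw [e] at h
  linarith

theorem ev_six_e20_g1 (u : ℝ) (h1 : 8 / 5 ≤ u) (h2 : u ≤ 23 / 10) :
    122141 / 100000 * (1 + (u - 1 / 5) / 6) ^ 6 ≤
      (1 + 1 / 500 + (1 / 500) ^ 2 / 2) * ((1 + (1 / 25 * u ^ 2) + (1 / 25 * u ^ 2) ^ 2 / 2 +
      (1 / 25 * u ^ 2) ^ 3 / 6) *
      (1 + u + 253 / 500 * u ^ 2)) := by
  obtain ⟨s, hs⟩ : ∃ s, s = u - (8 / 5) := ⟨_, rfl⟩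
  obtain ⟨t, ht⟩ : ∃ t, t = 23 / 10 - u := ⟨_, rfl⟩
  have hs0 : 0 ≤ s := by linarith
  have ht0 : 0 ≤ t := by linarith
  have h : 0 ≤
      449101353160339268587 / 1026010724853515625000 * t ^ 8 +
      3285201721746484296563 / 1026010724853515625000 * s * t ^ 7 +
      5777875827528771744103 / 586291842773437500000 * s ^ 2 * t ^ 6 +
      9975948921547189769 / 603180908203125000 * s ^ 3 * t ^ 5 +
      31665580476214851953 / 1930178906250000000 * s ^ 4 * t ^ 4 +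
      94510275954817197011 / 9650894531250000000 * s ^ 5 * t ^ 3 +
      134975232121058062891 / 38603578125000000000 * s ^ 6 * t ^ 2 +
      102665092565901543023 / 135112523437500000000 * s ^ 7 * t +
      26739194939083753811 / 270225046875000000000 * s ^ 8 := by
    positivity
  have e :
      449101353160339268587 / 1026010724853515625000 * t ^ 8 +
      3285201721746484296563 / 1026010724853515625000 * s * t ^ 7 +
      5777875827528771744103 / 586291842773437500000 * s ^ 2 * t ^ 6 +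
      9975948921547189769 / 603180908203125000 * s ^ 3 * t ^ 5 +
      31665580476214851953 / 1930178906250000000 * s ^ 4 * t ^ 4 +
      94510275954817197011 / 9650894531250000000 * s ^ 5 * t ^ 3 +
      134975232121058062891 / 38603578125000000000 * s ^ 6 * t ^ 2 +
      102665092565901543023 / 135112523437500000000 * s ^ 7 * t +
      26739194939083753811 / 270225046875000000000 * s ^ 8 =
      (1 + 1 / 500 + (1 / 500) ^ 2 / 2) * ((1 + (1 / 25 * u ^ 2) + (1 / 25 * u ^ 2) ^ 2 / 2 +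
      (1 / 25 * u ^ 2) ^ 3 / 6) *
      (1 + u + 253 / 500 * u ^ 2)) -
      (122141 / 100000 * (1 + (u - 1 / 5) / 6) ^ 6) := by
    rw [hs, ht]
    ring
  rw [e] at h
  linarith

theorem ev_six_e20_g2 (u : ℝ) (h1 : 23 / 10 ≤ u) (h2 : u ≤ 3) :
    122141 / 100000 * (1 + (u - 1 / 5) / 6) ^ 6 ≤
      (1 + 1 / 500 + (1 / 500) ^ 2 / 2) * ((1 + (1 / 25 * u ^ 2) + (1 / 25 * u ^ 2) ^ 2 / 2 +
      (1 / 25 * u ^ 2) ^ 3 / 6) *
      (1 + u + 253 / 500 * u ^ 2)) := by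
  obtain ⟨s, hs⟩ : ∃ s, s = u - (23 / 10) := ⟨_, rfl⟩
  obtain ⟨t, ht⟩ : ∃ t, t = 3 - u := ⟨_, rfl⟩
  have hs0 : 0 ≤ s := by linarith
  have ht0 : 0 ≤ t := by linarith
  have h : 0 ≤
      26739194939083753811 / 270225046875000000000 * t ^ 8 +
      22249693389353697493 / 27022504687500000000 * s * t ^ 7 +
      6085679235311678071 / 1544143125000000000 * s ^ 2 * t ^ 6 +
      81501322692191863 / 6433929687500000 * s ^ 3 * t ^ 5 +
      3388260945254567 / 128678593750000 * s ^ 4 * t ^ 4 +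
      1651555282093861 / 48254472656250 * s ^ 5 * t ^ 3 +
      125564666644045031 / 4690334742187500 * s ^ 6 * t ^ 2 +
      18922305786796691 / 1641617159765625 * s ^ 7 * t +
      689861207848544 / 328323431953125 * s ^ 8 := by
    positivity
  have e :
      26739194939083753811 / 270225046875000000000 * t ^ 8 +
      22249693389353697493 / 27022504687500000000 * s * t ^ 7 +
      6085679235311678071 / 1544143125000000000 * s ^ 2 * t ^ 6 +
      81501322692191863 / 6433929687500000 * s ^ 3 * t ^ 5 +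
      3388260945254567 / 128678593750000 * s ^ 4 * t ^ 4 +
      1651555282093861 / 48254472656250 * s ^ 5 * t ^ 3 +
      125564666644045031 / 4690334742187500 * s ^ 6 * t ^ 2 +
      18922305786796691 / 1641617159765625 * s ^ 7 * t +
      689861207848544 / 328323431953125 * s ^ 8 =
      (1 + 1 / 500 + (1 / 500) ^ 2 / 2) * ((1 + (1 / 25 * u ^ 2) + (1 / 25 * u ^ 2) ^ 2 / 2 +
      (1 / 25 * u ^ 2) ^ 3 / 6) *
      (1 + u + 253 / 500 * u ^ 2)) -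
      (122141 / 100000 * (1 + (u - 1 / 5) / 6) ^ 6) := by
    rw [hs, ht]
    ring
  rw [e] at h
  linarith

theorem ev_six_e20_t (u : ℝ) (h1 : 3 ≤ u) :
    122141 / 100000 * (1 + (u - 1 / 5) / 6) ^ 6 ≤
      (1 + 1 / 500 + (1 / 500) ^ 2 / 2) * ((1 + (1 / 25 * u ^ 2) + (1 / 25 * u ^ 2) ^ 2 / 2 +
      (1 / 25 * u ^ 2) ^ 3 / 6) *
      (1 + u + 253 / 500 * u ^ 2)) := by
  obtain ⟨s, hs⟩ : ∃ s, s = u - (3) := ⟨_, rfl⟩
  have hs0 : 0 ≤ s := by linarith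
  have h : 0 ≤
      21558162745267 / 177978515625000 + 412959167959289 / 949218750000000 * s +
      1098239716548991 / 1898437500000000 * s ^ 2 +
      59996463748601 / 177978515625000 * s ^ 3 + 37840100805887 / 379687500000000 * s ^ 4 +
      32482001991091 / 1898437500000000 * s ^ 5 +
      90096144073939 / 45562500000000000 * s ^ 6 + 823144643 / 5859375000000 * s ^ 7 +
      126753253 / 23437500000000 * s ^ 8 := by
    positivity
  have e :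
      21558162745267 / 177978515625000 + 412959167959289 / 949218750000000 * s +
      1098239716548991 / 1898437500000000 * s ^ 2 +
      59996463748601 / 177978515625000 * s ^ 3 + 37840100805887 / 379687500000000 * s ^ 4 +
      32482001991091 / 1898437500000000 * s ^ 5 +
      90096144073939 / 45562500000000000 * s ^ 6 + 823144643 / 5859375000000 * s ^ 7 +
      126753253 / 23437500000000 * s ^ 8 =
      (1 + 1 / 500 + (1 / 500) ^ 2 / 2) * ((1 + (1 / 25 * u ^ 2) + (1 / 25 * u ^ 2) ^ 2 / 2 +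
      (1 / 25 * u ^ 2) ^ 3 / 6) *
      (1 + u + 253 / 500 * u ^ 2)) -
      (122141 / 100000 * (1 + (u - 1 / 5) / 6) ^ 6) := by
    rw [hs]
    ring
  rw [e] at h
  linarith

/-- `K = 6`: `(c, μ, P, δ) = (253 / 500, 1 / 25, 1 / 5, 1 / 500)` -/
theorem expFd_six_e20 : ExpFd 6 (253 / 500) (1 / 25) (1 / 5) (1 / 500) := by
  have hde : (1 + 1 / 500 + (1 / 500) ^ 2 / 2) ≤ Real.exp (1 / 500) :=
    Real.quadratic_le_exp_of_nonneg (by norm_num)
  have hq : ∀ u : ℝ, 0 ≤ 1 + u + 253 / 500 * u ^ 2 := fun u => by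
    nlinarith [sq_nonneg (u + 2), sq_nonneg u]
  have hR : ∀ (u x y : ℝ), x ≤ y →
      y ≤ (1 + 1 / 500 + (1 / 500) ^ 2 / 2) * (1 + u + 253 / 500 * u ^ 2) →
      x ≤ Real.exp (1 / 500) * (1 + u + 253 / 500 * u ^ 2) := fun u x y h1 h2 =>
    (h1.trans h2).trans (mul_le_mul_of_nonneg_right hde (hq u))
  refine ExpFd.of (by norm_num) (by norm_num) (by norm_num) (by norm_num) (by norm_num) ?_ ?_ ?_
  · intro u h1
    rcases le_total u (-3) with h3 | h3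
    · exact hR u _ _ (ev_exp_n3 h3) (ev_six_e20_d u h3)
    rcases le_total u (-2) with h4 | h4
    · refine hR u _ _ (ev_exp_n2 h4) ?_
      exact ev_six_e20_c0 u (by linarith) (by linarith)
    rcases le_total u (-1) with h5 | h5
    · refine hR u _ _ (ev_exp_n1 h5) ?_
      exact ev_six_e20_b0 u (by linarith) (by linarith)
    refine hR u _ _ (ev_exp_n0 h1) ?_
    exact ev_six_e20_a0 u (by linarith) (by linarith)
  · intro u h1 h2
    have h5 := mul_le_mul_of_nonneg_right (Real.add_one_le_exp (1 / 25 * u ^ 2)) (hq u)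
    rw [add_comm (1 / 25 * u ^ 2) 1] at h5
    have h6 : 0 ≤ Real.exp (1 / 25 * u ^ 2) * (1 + u + 253 / 500 * u ^ 2) :=
      mul_nonneg (Real.exp_nonneg _) (hq u)
    rw [Real.exp_add, mul_assoc]
    refine ((ev_exp_p h1 (by linarith)).trans ?_).trans
      ((mul_le_mul_of_nonneg_left h5
        (by norm_num : (0 : ℝ) ≤ (1 + 1 / 500 + (1 / 500) ^ 2 / 2))).trans
        (mul_le_mul_of_nonneg_right hde h6))
    exact ev_six_e20_e0 u (by linarith) (by linarith)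
  · intro u h1
    have h4 : 0 ≤ (1 + (u - 1 / 5) / 6) ^ 6 := by
      have : 0 ≤ (u - 1 / 5) / 6 := div_nonneg (by linarith) (by norm_num)
      positivity
    have hE : Real.exp (1 / 5) ≤ 122141 / 100000 := ev_up_1_5
    have hx : 0 ≤ 1 / 25 * u ^ 2 := by positivity
    have h5 := mul_le_mul_of_nonneg_right (taylor3_le_expE _ hx) (hq u)
    have h6 : 0 ≤ Real.exp (1 / 25 * u ^ 2) * (1 + u + 253 / 500 * u ^ 2) :=
      mul_nonneg (Real.exp_nonneg _) (hq u)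
    rw [Real.exp_add, mul_assoc]
    push_cast
    refine ((mul_le_mul_of_nonneg_right hE h4).trans ?_).trans
      ((mul_le_mul_of_nonneg_left h5
        (by norm_num : (0 : ℝ) ≤ (1 + 1 / 500 + (1 / 500) ^ 2 / 2))).trans
        (mul_le_mul_of_nonneg_right hde h6))
    rcases le_total u (8 / 5) with hh | hh
    · exact ev_six_e20_g0 u (by linarith) (by linarith)
    rcases le_total u (23 / 10) with hh | hh
    · exact ev_six_e20_g1 u (by linarith) (by linarith)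
    rcases le_total u (3) with hh | hh
    · exact ev_six_e20_g2 u (by linarith) (by linarith)
    exact ev_six_e20_t u (by linarith)

theorem ev_six_e21_a0 (u : ℝ) (h1 : -1 ≤ u) (h2 : u ≤ -1 / 2) :
    1 + u + u ^ 2 / 2 + u ^ 3 / 6 + u ^ 4 / 24 ≤
      (1 + 1 / 200 + (1 / 200) ^ 2 / 2) * (1 + u + 119 / 250 * u ^ 2) := by
  obtain ⟨s, hs⟩ : ∃ s, s = u - (-1) := ⟨_, rfl⟩
  obtain ⟨t, ht⟩ : ∃ t, t = -1 / 2 - u := ⟨_, rfl⟩
  have hs0 : 0 ≤ s := by linarith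
  have ht0 : 0 ≤ t := by linarith
  have h : 0 ≤
      2067719 / 1250000 * t ^ 4 + 8129923 / 1875000 * s * t ^ 3 +
      19981847 / 5000000 * s ^ 2 * t ^ 2 + 4003907 / 2500000 * s ^ 3 * t +
      3679657 / 15000000 * s ^ 4 := by
    positivity
  have e :
      2067719 / 1250000 * t ^ 4 + 8129923 / 1875000 * s * t ^ 3 +
      19981847 / 5000000 * s ^ 2 * t ^ 2 + 4003907 / 2500000 * s ^ 3 * t +
      3679657 / 15000000 * s ^ 4 =
      (1 + 1 / 200 + (1 / 200) ^ 2 / 2) * (1 + u + 119 / 250 * u ^ 2) -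
      (1 + u + u ^ 2 / 2 + u ^ 3 / 6 + u ^ 4 / 24) := by
    rw [hs, ht]
    ring
  rw [e] at h
  linarith

theorem ev_six_e21_a1 (u : ℝ) (h1 : -1 / 2 ≤ u) (h2 : u ≤ 0) :
    1 + u + u ^ 2 / 2 + u ^ 3 / 6 + u ^ 4 / 24 ≤
      (1 + 1 / 200 + (1 / 200) ^ 2 / 2) * (1 + u + 119 / 250 * u ^ 2) := by
  obtain ⟨s, hs⟩ : ∃ s, s = u - (-1 / 2) := ⟨_, rfl⟩
  obtain ⟨t, ht⟩ : ∃ t, t = 0 - u := ⟨_, rfl⟩
  have hs0 : 0 ≤ s := by linarith
  have ht0 : 0 ≤ t := by linarith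
  have h : 0 ≤
      3679657 / 15000000 * t ^ 4 + 2706907 / 7500000 * s * t ^ 3 +
      1372219 / 5000000 * s ^ 2 * t ^ 2 + 2807 / 10000 * s ^ 3 * t + 401 / 5000 * s ^ 4 := by
    positivity
  have e :
      3679657 / 15000000 * t ^ 4 + 2706907 / 7500000 * s * t ^ 3 +
      1372219 / 5000000 * s ^ 2 * t ^ 2 + 2807 / 10000 * s ^ 3 * t + 401 / 5000 * s ^ 4 =
      (1 + 1 / 200 + (1 / 200) ^ 2 / 2) * (1 + u + 119 / 250 * u ^ 2) -
      (1 + u + u ^ 2 / 2 + u ^ 3 / 6 + u ^ 4 / 24) := by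
    rw [hs, ht]
    ring
  rw [e] at h
  linarith

theorem ev_six_e21_b0 (u : ℝ) (h1 : -2 ≤ u) (h2 : u ≤ -1) :
    36788 / 100000 *
      (1 + (u + 1) + (u + 1) ^ 2 / 2 + (u + 1) ^ 3 / 6 + (u + 1) ^ 4 / 24) ≤
      (1 + 1 / 200 + (1 / 200) ^ 2 / 2) * (1 + u + 119 / 250 * u ^ 2) := by
  obtain ⟨s, hs⟩ : ∃ s, s = u - (-2) := ⟨_, rfl⟩
  obtain ⟨t, ht⟩ : ∃ t, t = -1 - u := ⟨_, rfl⟩
  have hs0 : 0 ≤ s := by linarith
  have ht0 : 0 ≤ t := by linarith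
  have h : 0 ≤
      7705763 / 10000000 * t ^ 4 + 61534417 / 30000000 * s * t ^ 3 +
      38327997 / 20000000 * s ^ 2 * t ^ 2 + 952079 / 1250000 * s ^ 3 * t +
      2210119 / 20000000 * s ^ 4 := by
    positivity
  have e :
      7705763 / 10000000 * t ^ 4 + 61534417 / 30000000 * s * t ^ 3 +
      38327997 / 20000000 * s ^ 2 * t ^ 2 + 952079 / 1250000 * s ^ 3 * t +
      2210119 / 20000000 * s ^ 4 =
      (1 + 1 / 200 + (1 / 200) ^ 2 / 2) * (1 + u + 119 / 250 * u ^ 2) -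
      (36788 / 100000 *
      (1 + (u + 1) + (u + 1) ^ 2 / 2 + (u + 1) ^ 3 / 6 + (u + 1) ^ 4 / 24)) := by
    rw [hs, ht]
    ring
  rw [e] at h
  linarith

theorem ev_six_e21_c0 (u : ℝ) (h1 : -3 ≤ u) (h2 : u ≤ -2) :
    13534 / 100000 *
      (1 + (u + 2) + (u + 2) ^ 2 / 2 + (u + 2) ^ 3 / 6 + (u + 2) ^ 4 / 24) ≤
      (1 + 1 / 200 + (1 / 200) ^ 2 / 2) * (1 + u + 119 / 250 * u ^ 2) := by
  obtain ⟨s, hs⟩ : ∃ s, s = u - (-3) := ⟨_, rfl⟩
  obtain ⟨t, ht⟩ : ∃ t, t = -2 - u := ⟨_, rfl⟩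
  have hs0 : 0 ≤ s := by linarith
  have ht0 : 0 ≤ t := by linarith
  have h : 0 ≤
      44893921 / 20000000 * t ^ 4 + 21205103 / 3000000 * s * t ^ 3 +
      163629553 / 20000000 * s ^ 2 * t ^ 2 + 8273273 / 2000000 * s ^ 3 * t +
      7731913 / 10000000 * s ^ 4 := by
    positivity
  have e :
      44893921 / 20000000 * t ^ 4 + 21205103 / 3000000 * s * t ^ 3 +
      163629553 / 20000000 * s ^ 2 * t ^ 2 + 8273273 / 2000000 * s ^ 3 * t +
      7731913 / 10000000 * s ^ 4 =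
      (1 + 1 / 200 + (1 / 200) ^ 2 / 2) * (1 + u + 119 / 250 * u ^ 2) -
      (13534 / 100000 *
      (1 + (u + 2) + (u + 2) ^ 2 / 2 + (u + 2) ^ 3 / 6 + (u + 2) ^ 4 / 24)) := by
    rw [hs, ht]
    ring
  rw [e] at h
  linarith

theorem ev_six_e21_d (u : ℝ) (h2 : u ≤ -3) :
    4979 / 100000 ≤
      (1 + 1 / 200 + (1 / 200) ^ 2 / 2) * (1 + u + 119 / 250 * u ^ 2) := by
  obtain ⟨s, hs⟩ : ∃ s, s = -3 - u := ⟨_, rfl⟩
  have hs0 : 0 ≤ s := by linarith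
  have h : 0 ≤
      44913171 / 20000000 + 2331629 / 1250000 * s + 9567719 / 20000000 * s ^ 2 := by
    positivity
  have e :
      44913171 / 20000000 + 2331629 / 1250000 * s + 9567719 / 20000000 * s ^ 2 =
      (1 + 1 / 200 + (1 / 200) ^ 2 / 2) * (1 + u + 119 / 250 * u ^ 2) -
      (4979 / 100000) := by
    rw [hs]
    ring
  rw [e] at h
  linarith

theorem ev_six_e21_e0 (u : ℝ) (h1 : 0 ≤ u) (h2 : u ≤ 1 / 5) :
    1 + u + u ^ 2 / 2 + u ^ 3 / 6 + u ^ 4 / 24 + u ^ 5 / 100 ≤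
      (1 + 1 / 200 + (1 / 200) ^ 2 / 2) * ((1 + 9 / 200 * u ^ 2) *
      (1 + u + 119 / 250 * u ^ 2)) := by
  obtain ⟨s, hs⟩ : ∃ s, s = u - (0) := ⟨_, rfl⟩
  obtain ⟨t, ht⟩ : ∃ t, t = 1 / 5 - u := ⟨_, rfl⟩
  have hs0 : 0 ≤ s := by linarith
  have ht0 : 0 ≤ t := by linarith
  have h : 0 ≤
      2005 / 128 * t ^ 5 + 5213 / 64 * s * t ^ 4 + 110158921 / 640000 * s ^ 2 * t ^ 3 +
      87002779 / 480000 * s ^ 3 * t ^ 2 + 224479507163 / 2400000000 * s ^ 4 * t +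
      14881271971 / 800000000 * s ^ 5 := by
    positivity
  have e :
      2005 / 128 * t ^ 5 + 5213 / 64 * s * t ^ 4 + 110158921 / 640000 * s ^ 2 * t ^ 3 +
      87002779 / 480000 * s ^ 3 * t ^ 2 + 224479507163 / 2400000000 * s ^ 4 * t +
      14881271971 / 800000000 * s ^ 5 =
      (1 + 1 / 200 + (1 / 200) ^ 2 / 2) * ((1 + 9 / 200 * u ^ 2) *
      (1 + u + 119 / 250 * u ^ 2)) -
      (1 + u + u ^ 2 / 2 + u ^ 3 / 6 + u ^ 4 / 24 + u ^ 5 / 100) := by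
    rw [hs, ht]
    ring
  rw [e] at h
  linarith

theorem ev_six_e21_g0 (u : ℝ) (h1 : 1 / 5 ≤ u) (h2 : u ≤ 2) :
    122141 / 100000 * (1 + (u - 1 / 5) / 6) ^ 6 ≤
      (1 + 1 / 200 + (1 / 200) ^ 2 / 2) * ((1 + (9 / 200 * u ^ 2) + (9 / 200 * u ^ 2) ^ 2 / 2 +
      (9 / 200 * u ^ 2) ^ 3 / 6) *
      (1 + u + 119 / 250 * u ^ 2)) := by
  obtain ⟨s, hs⟩ : ∃ s, s = u - (1 / 5) := ⟨_, rfl⟩
  obtain ⟨t, ht⟩ : ∃ t, t = 2 - u := ⟨_, rfl⟩
  have hs0 : 0 ≤ s := by linarith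
  have ht0 : 0 ≤ t := by linarith
  have h : 0 ≤
      743461840369473217 / 13774950720000000000000 * t ^ 8 +
      576875630553402611 / 1377495072000000000000 * s * t ^ 7 +
      774662809124307677 / 275499014400000000000 * s ^ 2 * t ^ 6 +
      58458506936243551 / 6887475360000000000 * s ^ 3 * t ^ 5 +
      6648828812700901 / 550998028800000000 * s ^ 4 * t ^ 4 +
      1117344934998527 / 137749507200000000 * s ^ 5 * t ^ 3 +
      57034952303027 / 27549901440000000 * s ^ 6 * t ^ 2 +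
      15014864593 / 688747536000000 * s ^ 7 * t + 3029219621 / 68874753600000 * s ^ 8 := by
    positivity
  have e :
      743461840369473217 / 13774950720000000000000 * t ^ 8 +
      576875630553402611 / 1377495072000000000000 * s * t ^ 7 +
      774662809124307677 / 275499014400000000000 * s ^ 2 * t ^ 6 +
      58458506936243551 / 6887475360000000000 * s ^ 3 * t ^ 5 +
      6648828812700901 / 550998028800000000 * s ^ 4 * t ^ 4 +
      1117344934998527 / 137749507200000000 * s ^ 5 * t ^ 3 +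
      57034952303027 / 27549901440000000 * s ^ 6 * t ^ 2 +
      15014864593 / 688747536000000 * s ^ 7 * t + 3029219621 / 68874753600000 * s ^ 8 =
      (1 + 1 / 200 + (1 / 200) ^ 2 / 2) * ((1 + (9 / 200 * u ^ 2) + (9 / 200 * u ^ 2) ^ 2 / 2 +
      (9 / 200 * u ^ 2) ^ 3 / 6) *
      (1 + u + 119 / 250 * u ^ 2)) -
      (122141 / 100000 * (1 + (u - 1 / 5) / 6) ^ 6) := by
    rw [hs, ht]
    ring
  rw [e] at h
  linarith

theorem ev_six_e21_t (u : ℝ) (h1 : 2 ≤ u) :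
    122141 / 100000 * (1 + (u - 1 / 5) / 6) ^ 6 ≤
      (1 + 1 / 200 + (1 / 200) ^ 2 / 2) * ((1 + (9 / 200 * u ^ 2) + (9 / 200 * u ^ 2) ^ 2 / 2 +
      (9 / 200 * u ^ 2) ^ 3 / 6) *
      (1 + u + 119 / 250 * u ^ 2)) := by
  obtain ⟨s, hs⟩ : ∃ s, s = u - (2) := ⟨_, rfl⟩
  have hs0 : 0 ≤ s := by linarith
  have h : 0 ≤
      3029219621 / 625000000000 + 25258078343 / 1250000000000 * s +
      3213261110081 / 30000000000000 * s ^ 2 + 32219029642729 / 270000000000000 * s ^ 3 +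
      11063220505327 / 216000000000000 * s ^ 4 + 16726550047631 / 1620000000000000 * s ^ 5 +
      175062133514533 / 116640000000000000 * s ^ 6 + 21041826111 / 160000000000000 * s ^ 7 +
      2324955717 / 320000000000000 * s ^ 8 := by
    positivity
  have e :
      3029219621 / 625000000000 + 25258078343 / 1250000000000 * s +
      3213261110081 / 30000000000000 * s ^ 2 + 32219029642729 / 270000000000000 * s ^ 3 +
      11063220505327 / 216000000000000 * s ^ 4 + 16726550047631 / 1620000000000000 * s ^ 5 +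
      175062133514533 / 116640000000000000 * s ^ 6 + 21041826111 / 160000000000000 * s ^ 7 +
      2324955717 / 320000000000000 * s ^ 8 =
      (1 + 1 / 200 + (1 / 200) ^ 2 / 2) * ((1 + (9 / 200 * u ^ 2) + (9 / 200 * u ^ 2) ^ 2 / 2 +
      (9 / 200 * u ^ 2) ^ 3 / 6) *
      (1 + u + 119 / 250 * u ^ 2)) -
      (122141 / 100000 * (1 + (u - 1 / 5) / 6) ^ 6) := by
    rw [hs]
    ring
  rw [e] at h
  linarith

/-- `K = 6`: `(c, μ, P, δ) = (119 / 250, 9 / 200, 1 / 5, 1 / 200)` -/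
theorem expFd_six_e21 : ExpFd 6 (119 / 250) (9 / 200) (1 / 5) (1 / 200) := by
  have hde : (1 + 1 / 200 + (1 / 200) ^ 2 / 2) ≤ Real.exp (1 / 200) :=
    Real.quadratic_le_exp_of_nonneg (by norm_num)
  have hq : ∀ u : ℝ, 0 ≤ 1 + u + 119 / 250 * u ^ 2 := fun u => by
    nlinarith [sq_nonneg (u + 2), sq_nonneg u]
  have hR : ∀ (u x y : ℝ), x ≤ y →
      y ≤ (1 + 1 / 200 + (1 / 200) ^ 2 / 2) * (1 + u + 119 / 250 * u ^ 2) →
      x ≤ Real.exp (1 / 200) * (1 + u + 119 / 250 * u ^ 2) := fun u x y h1 h2 =>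
    (h1.trans h2).trans (mul_le_mul_of_nonneg_right hde (hq u))
  refine ExpFd.of (by norm_num) (by norm_num) (by norm_num) (by norm_num) (by norm_num) ?_ ?_ ?_
  · intro u h1
    rcases le_total u (-3) with h3 | h3
    · exact hR u _ _ (ev_exp_n3 h3) (ev_six_e21_d u h3)
    rcases le_total u (-2) with h4 | h4
    · refine hR u _ _ (ev_exp_n2 h4) ?_
      exact ev_six_e21_c0 u (by linarith) (by linarith)
    rcases le_total u (-1) with h5 | h5
    · refine hR u _ _ (ev_exp_n1 h5) ?_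
      exact ev_six_e21_b0 u (by linarith) (by linarith)
    refine hR u _ _ (ev_exp_n0 h1) ?_
    rcases le_total u (-1 / 2) with hh | hh
    · exact ev_six_e21_a0 u (by linarith) (by linarith)
    exact ev_six_e21_a1 u (by linarith) (by linarith)
  · intro u h1 h2
    have h5 := mul_le_mul_of_nonneg_right (Real.add_one_le_exp (9 / 200 * u ^ 2)) (hq u)
    rw [add_comm (9 / 200 * u ^ 2) 1] at h5
    have h6 : 0 ≤ Real.exp (9 / 200 * u ^ 2) * (1 + u + 119 / 250 * u ^ 2) :=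
      mul_nonneg (Real.exp_nonneg _) (hq u)
    rw [Real.exp_add, mul_assoc]
    refine ((ev_exp_p h1 (by linarith)).trans ?_).trans
      ((mul_le_mul_of_nonneg_left h5
        (by norm_num : (0 : ℝ) ≤ (1 + 1 / 200 + (1 / 200) ^ 2 / 2))).trans
        (mul_le_mul_of_nonneg_right hde h6))
    exact ev_six_e21_e0 u (by linarith) (by linarith)
  · intro u h1
    have h4 : 0 ≤ (1 + (u - 1 / 5) / 6) ^ 6 := by
      have : 0 ≤ (u - 1 / 5) / 6 := div_nonneg (by linarith) (by norm_num)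
      positivity
    have hE : Real.exp (1 / 5) ≤ 122141 / 100000 := ev_up_1_5
    have hx : 0 ≤ 9 / 200 * u ^ 2 := by positivity
    have h5 := mul_le_mul_of_nonneg_right (taylor3_le_expE _ hx) (hq u)
    have h6 : 0 ≤ Real.exp (9 / 200 * u ^ 2) * (1 + u + 119 / 250 * u ^ 2) :=
      mul_nonneg (Real.exp_nonneg _) (hq u)
    rw [Real.exp_add, mul_assoc]
    push_cast
    refine ((mul_le_mul_of_nonneg_right hE h4).trans ?_).trans
      ((mul_le_mul_of_nonneg_left h5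
        (by norm_num : (0 : ℝ) ≤ (1 + 1 / 200 + (1 / 200) ^ 2 / 2))).trans
        (mul_le_mul_of_nonneg_right hde h6))
    rcases le_total u (2) with hh | hh
    · exact ev_six_e21_g0 u (by linarith) (by linarith)
    exact ev_six_e21_t u (by linarith)

theorem ev_six_e22_a0 (u : ℝ) (h1 : -1 ≤ u) (h2 : u ≤ -1 / 2) :
    1 + u + u ^ 2 / 2 + u ^ 3 / 6 + u ^ 4 / 24 ≤
      (1 + 1 / 100 + (1 / 100) ^ 2 / 2) * (1 + u + 56 / 125 * u ^ 2) := by
  obtain ⟨s, hs⟩ : ∃ s, s = u - (-1) := ⟨_, rfl⟩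
  obtain ⟨t, ht⟩ : ∃ t, t = -1 / 2 - u := ⟨_, rfl⟩
  have hs0 : 0 ≤ s := by linarith
  have ht0 : 0 ≤ t := by linarith
  have h : 0 ≤
      96878 / 78125 * t ^ 4 + 2937983 / 937500 * s * t ^ 3 +
      866039 / 312500 * s ^ 2 * t ^ 2 + 344143 / 312500 * s ^ 3 * t + 341393 / 1875000 * s ^ 4 := by
    positivity
  have e :
      96878 / 78125 * t ^ 4 + 2937983 / 937500 * s * t ^ 3 +
      866039 / 312500 * s ^ 2 * t ^ 2 + 344143 / 312500 * s ^ 3 * t + 341393 / 1875000 * s ^ 4 =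
      (1 + 1 / 100 + (1 / 100) ^ 2 / 2) * (1 + u + 56 / 125 * u ^ 2) -
      (1 + u + u ^ 2 / 2 + u ^ 3 / 6 + u ^ 4 / 24) := by
    rw [hs, ht]
    ring
  rw [e] at h
  linarith

theorem ev_six_e22_a1 (u : ℝ) (h1 : -1 / 2 ≤ u) (h2 : u ≤ 0) :
    1 + u + u ^ 2 / 2 + u ^ 3 / 6 + u ^ 4 / 24 ≤
      (1 + 1 / 100 + (1 / 100) ^ 2 / 2) * (1 + u + 56 / 125 * u ^ 2) := by
  obtain ⟨s, hs⟩ : ∃ s, s = u - (-1 / 2) := ⟨_, rfl⟩
  obtain ⟨t, ht⟩ : ∃ t, t = 0 - u := ⟨_, rfl⟩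
  have hs0 : 0 ≤ s := by linarith
  have ht0 : 0 ≤ t := by linarith
  have h : 0 ≤
      341393 / 1875000 * t ^ 4 + 333143 / 937500 * s * t ^ 3 +
      166753 / 312500 * s ^ 2 * t ^ 2 + 1407 / 2500 * s ^ 3 * t + 201 / 1250 * s ^ 4 := by
    positivity
  have e :
      341393 / 1875000 * t ^ 4 + 333143 / 937500 * s * t ^ 3 +
      166753 / 312500 * s ^ 2 * t ^ 2 + 1407 / 2500 * s ^ 3 * t + 201 / 1250 * s ^ 4 =
      (1 + 1 / 100 + (1 / 100) ^ 2 / 2) * (1 + u + 56 / 125 * u ^ 2) -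
      (1 + u + u ^ 2 / 2 + u ^ 3 / 6 + u ^ 4 / 24) := by
    rw [hs, ht]
    ring
  rw [e] at h
  linarith

theorem ev_six_e22_b0 (u : ℝ) (h1 : -2 ≤ u) (h2 : u ≤ -1) :
    36788 / 100000 *
      (1 + (u + 1) + (u + 1) ^ 2 / 2 + (u + 1) ^ 3 / 6 + (u + 1) ^ 4 / 24) ≤
      (1 + 1 / 100 + (1 / 100) ^ 2 / 2) * (1 + u + 56 / 125 * u ^ 2) := by
  obtain ⟨s, hs⟩ : ∃ s, s = u - (-2) := ⟨_, rfl⟩
  obtain ⟨t, ht⟩ : ∃ t, t = -1 - u := ⟨_, rfl⟩
  have hs0 : 0 ≤ s := by linarith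
  have ht0 : 0 ≤ t := by linarith
  have h : 0 ≤
      3310023 / 5000000 * t ^ 4 + 12940741 / 7500000 * s * t ^ 3 +
      3912003 / 2500000 * s ^ 2 * t ^ 2 + 1503311 / 2500000 * s ^ 3 * t +
      52889 / 625000 * s ^ 4 := by
    positivity
  have e :
      3310023 / 5000000 * t ^ 4 + 12940741 / 7500000 * s * t ^ 3 +
      3912003 / 2500000 * s ^ 2 * t ^ 2 + 1503311 / 2500000 * s ^ 3 * t +
      52889 / 625000 * s ^ 4 =
      (1 + 1 / 100 + (1 / 100) ^ 2 / 2) * (1 + u + 56 / 125 * u ^ 2) -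
      (36788 / 100000 *
      (1 + (u + 1) + (u + 1) ^ 2 / 2 + (u + 1) ^ 3 / 6 + (u + 1) ^ 4 / 24)) := by
    rw [hs, ht]
    ring
  rw [e] at h
  linarith

theorem ev_six_e22_c0 (u : ℝ) (h1 : -3 ≤ u) (h2 : u ≤ -2) :
    13534 / 100000 *
      (1 + (u + 2) + (u + 2) ^ 2 / 2 + (u + 2) ^ 3 / 6 + (u + 2) ^ 4 / 24) ≤
      (1 + 1 / 100 + (1 / 100) ^ 2 / 2) * (1 + u + 56 / 125 * u ^ 2) := by
  obtain ⟨s, hs⟩ : ∃ s, s = u - (-3) := ⟨_, rfl⟩
  obtain ⟨t, ht⟩ : ∃ t, t = -2 - u := ⟨_, rfl⟩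
  have hs0 : 0 ≤ s := by linarith
  have ht0 : 0 ≤ t := by linarith
  have h : 0 ≤
      20016691 / 10000000 * t ^ 4 + 4692449 / 750000 * s * t ^ 3 +
      8973061 / 1250000 * s ^ 2 * t ^ 2 + 1796889 / 500000 * s ^ 3 * t +
      1661549 / 2500000 * s ^ 4 := by
    positivity
  have e :
      20016691 / 10000000 * t ^ 4 + 4692449 / 750000 * s * t ^ 3 +
      8973061 / 1250000 * s ^ 2 * t ^ 2 + 1796889 / 500000 * s ^ 3 * t +
      1661549 / 2500000 * s ^ 4 =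
      (1 + 1 / 100 + (1 / 100) ^ 2 / 2) * (1 + u + 56 / 125 * u ^ 2) -
      (13534 / 100000 *
      (1 + (u + 2) + (u + 2) ^ 2 / 2 + (u + 2) ^ 3 / 6 + (u + 2) ^ 4 / 24)) := by
    rw [hs, ht]
    ring
  rw [e] at h
  linarith

theorem ev_six_e22_d (u : ℝ) (h2 : u ≤ -3) :
    4979 / 100000 ≤
      (1 + 1 / 100 + (1 / 100) ^ 2 / 2) * (1 + u + 56 / 125 * u ^ 2) := by
  obtain ⟨s, hs⟩ : ∃ s, s = -3 - u := ⟨_, rfl⟩
  have hs0 : 0 ≤ s := by linarith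
  have h : 0 ≤
      5006579 / 2500000 + 4262411 / 2500000 * s + 141407 / 312500 * s ^ 2 := by
    positivity
  have e :
      5006579 / 2500000 + 4262411 / 2500000 * s + 141407 / 312500 * s ^ 2 =
      (1 + 1 / 100 + (1 / 100) ^ 2 / 2) * (1 + u + 56 / 125 * u ^ 2) -
      (4979 / 100000) := by
    rw [hs]
    ring
  rw [e] at h
  linarith

theorem ev_six_e22_e0 (u : ℝ) (h1 : 0 ≤ u) (h2 : u ≤ 1 / 5) :
    1 + u + u ^ 2 / 2 + u ^ 3 / 6 + u ^ 4 / 24 + u ^ 5 / 100 ≤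
      (1 + 1 / 100 + (1 / 100) ^ 2 / 2) * ((1 + 1 / 20 * u ^ 2) *
      (1 + u + 56 / 125 * u ^ 2)) := by
  obtain ⟨s, hs⟩ : ∃ s, s = u - (0) := ⟨_, rfl⟩
  obtain ⟨t, ht⟩ : ∃ t, t = 1 / 5 - u := ⟨_, rfl⟩
  have hs0 : 0 ≤ s := by linarith
  have ht0 : 0 ≤ t := by linarith
  have h : 0 ≤
      1005 / 32 * t ^ 5 + 2613 / 16 * s * t ^ 4 + 27165049 / 80000 * s ^ 2 * t ^ 3 +
      5249591 / 15000 * s ^ 3 * t ^ 2 + 5321390143 / 30000000 * s ^ 4 * t +
      175269003 / 5000000 * s ^ 5 := by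
    positivity
  have e :
      1005 / 32 * t ^ 5 + 2613 / 16 * s * t ^ 4 + 27165049 / 80000 * s ^ 2 * t ^ 3 +
      5249591 / 15000 * s ^ 3 * t ^ 2 + 5321390143 / 30000000 * s ^ 4 * t +
      175269003 / 5000000 * s ^ 5 =
      (1 + 1 / 100 + (1 / 100) ^ 2 / 2) * ((1 + 1 / 20 * u ^ 2) *
      (1 + u + 56 / 125 * u ^ 2)) -
      (1 + u + u ^ 2 / 2 + u ^ 3 / 6 + u ^ 4 / 24 + u ^ 5 / 100) := by
    rw [hs, ht]
    ring
  rw [e] at h
  linarith

theorem ev_six_e22_g0 (u : ℝ) (h1 : 1 / 5 ≤ u) (h2 : u ≤ 11 / 10) :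
    122141 / 100000 * (1 + (u - 1 / 5) / 6) ^ 6 ≤
      (1 + 1 / 100 + (1 / 100) ^ 2 / 2) * ((1 + (1 / 20 * u ^ 2) + (1 / 20 * u ^ 2) ^ 2 / 2 +
      (1 / 20 * u ^ 2) ^ 3 / 6) *
      (1 + u + 56 / 125 * u ^ 2)) := by
  obtain ⟨s, hs⟩ : ∃ s, s = u - (1 / 5) := ⟨_, rfl⟩
  obtain ⟨t, ht⟩ : ∃ t, t = 11 / 10 - u := ⟨_, rfl⟩
  have hs0 : 0 ≤ s := by linarith
  have ht0 : 0 ≤ t := by linarith
  have h : 0 ≤
      262801831697003 / 10089075234375000 * t ^ 8 +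
      8129356691761153 / 40356300937500000 * s * t ^ 7 +
      29767574970068039 / 40356300937500000 * s ^ 2 * t ^ 6 +
      255303785360835091 / 161425203750000000 * s ^ 3 * t ^ 5 +
      33703437674519711 / 16142520375000000 * s ^ 4 * t ^ 4 +
      1096391118377346511 / 645700815000000000 * s ^ 5 * t ^ 3 +
      66160425526904203 / 80712601875000000 * s ^ 6 * t ^ 2 +
      550589912004124333 / 2582803260000000000 * s ^ 7 * t +
      59232416207415893 / 2582803260000000000 * s ^ 8 := by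
    positivity
  have e :
      262801831697003 / 10089075234375000 * t ^ 8 +
      8129356691761153 / 40356300937500000 * s * t ^ 7 +
      29767574970068039 / 40356300937500000 * s ^ 2 * t ^ 6 +
      255303785360835091 / 161425203750000000 * s ^ 3 * t ^ 5 +
      33703437674519711 / 16142520375000000 * s ^ 4 * t ^ 4 +
      1096391118377346511 / 645700815000000000 * s ^ 5 * t ^ 3 +
      66160425526904203 / 80712601875000000 * s ^ 6 * t ^ 2 +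
      550589912004124333 / 2582803260000000000 * s ^ 7 * t +
      59232416207415893 / 2582803260000000000 * s ^ 8 =
      (1 + 1 / 100 + (1 / 100) ^ 2 / 2) * ((1 + (1 / 20 * u ^ 2) + (1 / 20 * u ^ 2) ^ 2 / 2 +
      (1 / 20 * u ^ 2) ^ 3 / 6) *
      (1 + u + 56 / 125 * u ^ 2)) -
      (122141 / 100000 * (1 + (u - 1 / 5) / 6) ^ 6) := by
    rw [hs, ht]
    ring
  rw [e] at h
  linarith

theorem ev_six_e22_g1 (u : ℝ) (h1 : 11 / 10 ≤ u) (h2 : u ≤ 2) :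
    122141 / 100000 * (1 + (u - 1 / 5) / 6) ^ 6 ≤
      (1 + 1 / 100 + (1 / 100) ^ 2 / 2) * ((1 + (1 / 20 * u ^ 2) + (1 / 20 * u ^ 2) ^ 2 / 2 +
      (1 / 20 * u ^ 2) ^ 3 / 6) *
      (1 + u + 56 / 125 * u ^ 2)) := by
  obtain ⟨s, hs⟩ : ∃ s, s = u - (11 / 10) := ⟨_, rfl⟩
  obtain ⟨t, ht⟩ : ∃ t, t = 2 - u := ⟨_, rfl⟩
  have hs0 : 0 ≤ s := by linarith
  have ht0 : 0 ≤ t := by linarith
  have h : 0 ≤
      59232416207415893 / 2582803260000000000 * t ^ 8 +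
      79425749462905991 / 516560652000000000 * s * t ^ 7 +
      20858109280675477 / 51656065200000000 * s ^ 2 * t ^ 6 +
      163326097674713 / 322850407500000 * s ^ 3 * t ^ 5 +
      14801061912727 / 51656065200000 * s ^ 4 * t ^ 4 +
      235598170457 / 3228504075000 * s ^ 5 * t ^ 3 +
      232141216391 / 2582803260000 * s ^ 6 * t ^ 2 + 13885232171 / 129140163000 * s ^ 7 * t +
      4780643233 / 129140163000 * s ^ 8 := by
    positivity
  have e :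
      59232416207415893 / 2582803260000000000 * t ^ 8 +
      79425749462905991 / 516560652000000000 * s * t ^ 7 +
      20858109280675477 / 51656065200000000 * s ^ 2 * t ^ 6 +
      163326097674713 / 322850407500000 * s ^ 3 * t ^ 5 +
      14801061912727 / 51656065200000 * s ^ 4 * t ^ 4 +
      235598170457 / 3228504075000 * s ^ 5 * t ^ 3 +
      232141216391 / 2582803260000 * s ^ 6 * t ^ 2 + 13885232171 / 129140163000 * s ^ 7 * t +
      4780643233 / 129140163000 * s ^ 8 =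
      (1 + 1 / 100 + (1 / 100) ^ 2 / 2) * ((1 + (1 / 20 * u ^ 2) + (1 / 20 * u ^ 2) ^ 2 / 2 +
      (1 / 20 * u ^ 2) ^ 3 / 6) *
      (1 + u + 56 / 125 * u ^ 2)) -
      (122141 / 100000 * (1 + (u - 1 / 5) / 6) ^ 6) := by
    rw [hs, ht]
    ring
  rw [e] at h
  linarith

theorem ev_six_e22_t (u : ℝ) (h1 : 2 ≤ u) :
    122141 / 100000 * (1 + (u - 1 / 5) / 6) ^ 6 ≤
      (1 + 1 / 100 + (1 / 100) ^ 2 / 2) * ((1 + (1 / 20 * u ^ 2) + (1 / 20 * u ^ 2) ^ 2 / 2 +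
      (1 / 20 * u ^ 2) ^ 3 / 6) *
      (1 + u + 56 / 125 * u ^ 2)) := by
  obtain ⟨s, hs⟩ : ∃ s, s = u - (2) := ⟨_, rfl⟩
  have hs0 : 0 ≤ s := by linarith
  have h : 0 ≤
      4780643233 / 300000000000 + 2706657077 / 30000000000 * s +
      3972711617 / 20000000000 * s ^ 2 + 22434928121 / 135000000000 * s ^ 3 +
      6941472323 / 108000000000 * s ^ 4 + 1323172913 / 101250000000 * s ^ 5 +
      55722675151 / 29160000000000 * s ^ 6 + 20625221 / 120000000000 * s ^ 7 +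
      141407 / 15000000000 * s ^ 8 := by
    positivity
  have e :
      4780643233 / 300000000000 + 2706657077 / 30000000000 * s +
      3972711617 / 20000000000 * s ^ 2 + 22434928121 / 135000000000 * s ^ 3 +
      6941472323 / 108000000000 * s ^ 4 + 1323172913 / 101250000000 * s ^ 5 +
      55722675151 / 29160000000000 * s ^ 6 + 20625221 / 120000000000 * s ^ 7 +
      141407 / 15000000000 * s ^ 8 =
      (1 + 1 / 100 + (1 / 100) ^ 2 / 2) * ((1 + (1 / 20 * u ^ 2) + (1 / 20 * u ^ 2) ^ 2 / 2 +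
      (1 / 20 * u ^ 2) ^ 3 / 6) *
      (1 + u + 56 / 125 * u ^ 2)) -
      (122141 / 100000 * (1 + (u - 1 / 5) / 6) ^ 6) := by
    rw [hs]
    ring
  rw [e] at h
  linarith

/-- `K = 6`: `(c, μ, P, δ) = (56 / 125, 1 / 20, 1 / 5, 1 / 100)` -/
theorem expFd_six_e22 : ExpFd 6 (56 / 125) (1 / 20) (1 / 5) (1 / 100) := by
  have hde : (1 + 1 / 100 + (1 / 100) ^ 2 / 2) ≤ Real.exp (1 / 100) :=
    Real.quadratic_le_exp_of_nonneg (by norm_num)
  have hq : ∀ u : ℝ, 0 ≤ 1 + u + 56 / 125 * u ^ 2 := fun u => by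
    nlinarith [sq_nonneg (u + 2), sq_nonneg u]
  have hR : ∀ (u x y : ℝ), x ≤ y →
      y ≤ (1 + 1 / 100 + (1 / 100) ^ 2 / 2) * (1 + u + 56 / 125 * u ^ 2) →
      x ≤ Real.exp (1 / 100) * (1 + u + 56 / 125 * u ^ 2) := fun u x y h1 h2 =>
    (h1.trans h2).trans (mul_le_mul_of_nonneg_right hde (hq u))
  refine ExpFd.of (by norm_num) (by norm_num) (by norm_num) (by norm_num) (by norm_num) ?_ ?_ ?_
  · intro u h1
    rcases le_total u (-3) with h3 | h3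
    · exact hR u _ _ (ev_exp_n3 h3) (ev_six_e22_d u h3)
    rcases le_total u (-2) with h4 | h4
    · refine hR u _ _ (ev_exp_n2 h4) ?_
      exact ev_six_e22_c0 u (by linarith) (by linarith)
    rcases le_total u (-1) with h5 | h5
    · refine hR u _ _ (ev_exp_n1 h5) ?_
      exact ev_six_e22_b0 u (by linarith) (by linarith)
    refine hR u _ _ (ev_exp_n0 h1) ?_
    rcases le_total u (-1 / 2) with hh | hh
    · exact ev_six_e22_a0 u (by linarith) (by linarith)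
    exact ev_six_e22_a1 u (by linarith) (by linarith)
  · intro u h1 h2
    have h5 := mul_le_mul_of_nonneg_right (Real.add_one_le_exp (1 / 20 * u ^ 2)) (hq u)
    rw [add_comm (1 / 20 * u ^ 2) 1] at h5
    have h6 : 0 ≤ Real.exp (1 / 20 * u ^ 2) * (1 + u + 56 / 125 * u ^ 2) :=
      mul_nonneg (Real.exp_nonneg _) (hq u)
    rw [Real.exp_add, mul_assoc]
    refine ((ev_exp_p h1 (by linarith)).trans ?_).trans
      ((mul_le_mul_of_nonneg_left h5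
        (by norm_num : (0 : ℝ) ≤ (1 + 1 / 100 + (1 / 100) ^ 2 / 2))).trans
        (mul_le_mul_of_nonneg_right hde h6))
    exact ev_six_e22_e0 u (by linarith) (by linarith)
  · intro u h1
    have h4 : 0 ≤ (1 + (u - 1 / 5) / 6) ^ 6 := by
      have : 0 ≤ (u - 1 / 5) / 6 := div_nonneg (by linarith) (by norm_num)
      positivity
    have hE : Real.exp (1 / 5) ≤ 122141 / 100000 := ev_up_1_5
    have hx : 0 ≤ 1 / 20 * u ^ 2 := by positivity
    have h5 := mul_le_mul_of_nonneg_right (taylor3_le_expE _ hx) (hq u)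
    have h6 : 0 ≤ Real.exp (1 / 20 * u ^ 2) * (1 + u + 56 / 125 * u ^ 2) :=
      mul_nonneg (Real.exp_nonneg _) (hq u)
    rw [Real.exp_add, mul_assoc]
    push_cast
    refine ((mul_le_mul_of_nonneg_right hE h4).trans ?_).trans
      ((mul_le_mul_of_nonneg_left h5
        (by norm_num : (0 : ℝ) ≤ (1 + 1 / 100 + (1 / 100) ^ 2 / 2))).trans
        (mul_le_mul_of_nonneg_right hde h6))
    rcases le_total u (11 / 10) with hh | hh
    · exact ev_six_e22_g0 u (by linarith) (by linarith)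
    rcases le_total u (2) with hh | hh
    · exact ev_six_e22_g1 u (by linarith) (by linarith)
    exact ev_six_e22_t u (by linarith)

end

end Pool.Agent.TSM
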