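import Pool.Agent.TSM.EvenDB

set_option autoImplicit false

/-!
# Constants of the even rule with a constant, K = 6, second part (MP_d27362_co, helper2)
-/

namespace Pool.Agent.TSM

noncomputable section


theorem ev_six_e23_a0 (u : ℝ) (h1 : -1 ≤ u) (h2 : u ≤ 0) :
    1 + u + u ^ 2 / 2 + u ^ 3 / 6 + u ^ 4 / 24 ≤
      (1 + 1 / 50 + (1 / 50) ^ 2 / 2) * (1 + u + 217 / 500 * u ^ 2) := by
  obtain ⟨s, hs⟩ : ∃ s, s = u - (-1) := ⟨_, rfl⟩
  obtain ⟨t, ht⟩ : ∃ t, t = 0 - u := ⟨_, rfl⟩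
  have hs0 : 0 ≤ s := by linarith
  have ht0 : 0 ≤ t := by linarith
  have h : 0 ≤
      169417 / 2500000 * t ^ 4 + 271501 / 3750000 * s * t ^ 3 +
      8417 / 2500000 * s ^ 2 * t ^ 2 + 303 / 5000 * s ^ 3 * t + 101 / 5000 * s ^ 4 := by
    positivity
  have e :
      169417 / 2500000 * t ^ 4 + 271501 / 3750000 * s * t ^ 3 +
      8417 / 2500000 * s ^ 2 * t ^ 2 + 303 / 5000 * s ^ 3 * t + 101 / 5000 * s ^ 4 =
      (1 + 1 / 50 + (1 / 50) ^ 2 / 2) * (1 + u + 217 / 500 * u ^ 2) -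
      (1 + u + u ^ 2 / 2 + u ^ 3 / 6 + u ^ 4 / 24) := by
    rw [hs, ht]
    ring
  rw [e] at h
  linarith

theorem ev_six_e23_b0 (u : ℝ) (h1 : -2 ≤ u) (h2 : u ≤ -1) :
    36788 / 100000 *
      (1 + (u + 1) + (u + 1) ^ 2 / 2 + (u + 1) ^ 3 / 6 + (u + 1) ^ 4 / 24) ≤
      (1 + 1 / 50 + (1 / 50) ^ 2 / 2) * (1 + u + 217 / 500 * u ^ 2) := by
  obtain ⟨s, hs⟩ : ∃ s, s = u - (-2) := ⟨_, rfl⟩
  obtain ⟨t, ht⟩ : ∃ t, t = -1 - u := ⟨_, rfl⟩
  have hs0 : 0 ≤ s := by linarith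
  have ht0 : 0 ≤ t := by linarith
  have h : 0 ≤
      3064561 / 5000000 * t ^ 4 + 5918081 / 3750000 * s * t ^ 3 +
      3519471 / 2500000 * s ^ 2 * t ^ 2 + 665951 / 1250000 * s ^ 3 * t +
      187217 / 2500000 * s ^ 4 := by
    positivity
  have e :
      3064561 / 5000000 * t ^ 4 + 5918081 / 3750000 * s * t ^ 3 +
      3519471 / 2500000 * s ^ 2 * t ^ 2 + 665951 / 1250000 * s ^ 3 * t +
      187217 / 2500000 * s ^ 4 =
      (1 + 1 / 50 + (1 / 50) ^ 2 / 2) * (1 + u + 217 / 500 * u ^ 2) -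
      (36788 / 100000 *
      (1 + (u + 1) + (u + 1) ^ 2 / 2 + (u + 1) ^ 3 / 6 + (u + 1) ^ 4 / 24)) := by
    rw [hs, ht]
    ring
  rw [e] at h
  linarith

theorem ev_six_e23_c0 (u : ℝ) (h1 : -3 ≤ u) (h2 : u ≤ -2) :
    13534 / 100000 *
      (1 + (u + 2) + (u + 2) ^ 2 / 2 + (u + 2) ^ 3 / 6 + (u + 2) ^ 4 / 24) ≤
      (1 + 1 / 50 + (1 / 50) ^ 2 / 2) * (1 + u + 217 / 500 * u ^ 2) := by
  obtain ⟨s, hs⟩ : ∃ s, s = u - (-3) := ⟨_, rfl⟩
  obtain ⟨t, ht⟩ : ∃ t, t = -2 - u := ⟨_, rfl⟩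
  have hs0 : 0 ≤ s := by linarith
  have ht0 : 0 ≤ t := by linarith
  have h : 0 ≤
      18937487 / 10000000 * t ^ 4 + 8840221 / 1500000 * s * t ^ 3 +
      4204301 / 625000 * s ^ 2 * t ^ 2 + 837079 / 250000 * s ^ 3 * t +
      769409 / 1250000 * s ^ 4 := by
    positivity
  have e :
      18937487 / 10000000 * t ^ 4 + 8840221 / 1500000 * s * t ^ 3 +
      4204301 / 625000 * s ^ 2 * t ^ 2 + 837079 / 250000 * s ^ 3 * t +
      769409 / 1250000 * s ^ 4 =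
      (1 + 1 / 50 + (1 / 50) ^ 2 / 2) * (1 + u + 217 / 500 * u ^ 2) -
      (13534 / 100000 *
      (1 + (u + 2) + (u + 2) ^ 2 / 2 + (u + 2) ^ 3 / 6 + (u + 2) ^ 4 / 24)) := by
    rw [hs, ht]
    ring
  rw [e] at h
  linarith

theorem ev_six_e23_d (u : ℝ) (h2 : u ≤ -3) :
    4979 / 100000 ≤
      (1 + 1 / 50 + (1 / 50) ^ 2 / 2) * (1 + u + 217 / 500 * u ^ 2) := by
  obtain ⟨s, hs⟩ : ∃ s, s = -3 - u := ⟨_, rfl⟩
  have hs0 : 0 ≤ s := by linarith
  have h : 0 ≤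
      2368389 / 1250000 + 2045501 / 1250000 * s + 1106917 / 2500000 * s ^ 2 := by
    positivity
  have e :
      2368389 / 1250000 + 2045501 / 1250000 * s + 1106917 / 2500000 * s ^ 2 =
      (1 + 1 / 50 + (1 / 50) ^ 2 / 2) * (1 + u + 217 / 500 * u ^ 2) -
      (4979 / 100000) := by
    rw [hs]
    ring
  rw [e] at h
  linarith

theorem ev_six_e23_e0 (u : ℝ) (h1 : 0 ≤ u) (h2 : u ≤ 1 / 5) :
    1 + u + u ^ 2 / 2 + u ^ 3 / 6 + u ^ 4 / 24 + u ^ 5 / 100 ≤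
      (1 + 1 / 50 + (1 / 50) ^ 2 / 2) * ((1 + 1 / 20 * u ^ 2) *
      (1 + u + 217 / 500 * u ^ 2)) := by
  obtain ⟨s, hs⟩ : ∃ s, s = u - (0) := ⟨_, rfl⟩
  obtain ⟨t, ht⟩ : ∃ t, t = 1 / 5 - u := ⟨_, rfl⟩
  have hs0 : 0 ≤ s := by linarith
  have ht0 : 0 ≤ t := by linarith
  have h : 0 ≤
      505 / 8 * t ^ 5 + 1313 / 4 * s * t ^ 4 + 6809721 / 10000 * s ^ 2 * t ^ 3 +
      42106493 / 60000 * s ^ 3 * t ^ 2 + 10737324751 / 30000000 * s ^ 4 * t +
      719730417 / 10000000 * s ^ 5 := by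
    positivity
  have e :
      505 / 8 * t ^ 5 + 1313 / 4 * s * t ^ 4 + 6809721 / 10000 * s ^ 2 * t ^ 3 +
      42106493 / 60000 * s ^ 3 * t ^ 2 + 10737324751 / 30000000 * s ^ 4 * t +
      719730417 / 10000000 * s ^ 5 =
      (1 + 1 / 50 + (1 / 50) ^ 2 / 2) * ((1 + 1 / 20 * u ^ 2) *
      (1 + u + 217 / 500 * u ^ 2)) -
      (1 + u + u ^ 2 / 2 + u ^ 3 / 6 + u ^ 4 / 24 + u ^ 5 / 100) := by
    rw [hs, ht]
    ring
  rw [e] at h
  linarith

theorem ev_six_e23_g0 (u : ℝ) (h1 : 1 / 5 ≤ u) (h2 : u ≤ 11 / 10) :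
    122141 / 100000 * (1 + (u - 1 / 5) / 6) ^ 6 ≤
      (1 + 1 / 50 + (1 / 50) ^ 2 / 2) * ((1 + (1 / 20 * u ^ 2) + (1 / 20 * u ^ 2) ^ 2 / 2 +
      (1 / 20 * u ^ 2) ^ 3 / 6) *
      (1 + u + 217 / 500 * u ^ 2)) := by
  obtain ⟨s, hs⟩ : ∃ s, s = u - (1 / 5) := ⟨_, rfl⟩
  obtain ⟨t, ht⟩ : ∃ t, t = 11 / 10 - u := ⟨_, rfl⟩
  have hs0 : 0 ≤ s := by linarith
  have ht0 : 0 ≤ t := by linarith
  have h : 0 ≤
      1079393385997417 / 20178150468750000 * t ^ 8 +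
      4384703787316549 / 10089075234375000 * s * t ^ 7 +
      15983834714834537 / 10089075234375000 * s ^ 2 * t ^ 6 +
      133267331089738753 / 40356300937500000 * s ^ 3 * t ^ 5 +
      136576579708415329 / 32285040750000000 * s ^ 4 * t ^ 4 +
      544030850773238113 / 161425203750000000 * s ^ 5 * t ^ 3 +
      1043846934422143493 / 645700815000000000 * s ^ 6 * t ^ 2 +
      273859327055978989 / 645700815000000000 * s ^ 7 * t +
      240019899397131877 / 5165606520000000000 * s ^ 8 := by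
    positivity
  have e :
      1079393385997417 / 20178150468750000 * t ^ 8 +
      4384703787316549 / 10089075234375000 * s * t ^ 7 +
      15983834714834537 / 10089075234375000 * s ^ 2 * t ^ 6 +
      133267331089738753 / 40356300937500000 * s ^ 3 * t ^ 5 +
      136576579708415329 / 32285040750000000 * s ^ 4 * t ^ 4 +
      544030850773238113 / 161425203750000000 * s ^ 5 * t ^ 3 +
      1043846934422143493 / 645700815000000000 * s ^ 6 * t ^ 2 +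
      273859327055978989 / 645700815000000000 * s ^ 7 * t +
      240019899397131877 / 5165606520000000000 * s ^ 8 =
      (1 + 1 / 50 + (1 / 50) ^ 2 / 2) * ((1 + (1 / 20 * u ^ 2) + (1 / 20 * u ^ 2) ^ 2 / 2 +
      (1 / 20 * u ^ 2) ^ 3 / 6) *
      (1 + u + 217 / 500 * u ^ 2)) -
      (122141 / 100000 * (1 + (u - 1 / 5) / 6) ^ 6) := by
    rw [hs, ht]
    ring
  rw [e] at h
  linarith

theorem ev_six_e23_g1 (u : ℝ) (h1 : 11 / 10 ≤ u) (h2 : u ≤ 31 / 20) :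
    122141 / 100000 * (1 + (u - 1 / 5) / 6) ^ 6 ≤
      (1 + 1 / 50 + (1 / 50) ^ 2 / 2) * ((1 + (1 / 20 * u ^ 2) + (1 / 20 * u ^ 2) ^ 2 / 2 +
      (1 / 20 * u ^ 2) ^ 3 / 6) *
      (1 + u + 217 / 500 * u ^ 2)) := by
  obtain ⟨s, hs⟩ : ∃ s, s = u - (11 / 10) := ⟨_, rfl⟩
  obtain ⟨t, ht⟩ : ∃ t, t = 31 / 20 - u := ⟨_, rfl⟩
  have hs0 : 0 ≤ s := by linarith
  have ht0 : 0 ≤ t := by linarith
  have h : 0 ≤
      240019899397131877 / 20178150468750000 * t ^ 8 +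
      223100185567708321 / 2522268808593750 * s * t ^ 7 +
      5706855794512477699 / 20178150468750000 * s ^ 2 * t ^ 6 +
      5108734794491763127 / 10089075234375000 * s ^ 3 * t ^ 5 +
      17860845059664371659 / 32285040750000000 * s ^ 4 * t ^ 4 +
      15177498406498256707 / 40356300937500000 * s ^ 5 * t ^ 3 +
      49925019325687941019 / 322850407500000000 * s ^ 6 * t ^ 2 +
      5654661388612138141 / 161425203750000000 * s ^ 7 * t +
      17314706540795337397 / 5165606520000000000 * s ^ 8 := by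
    positivity
  have e :
      240019899397131877 / 20178150468750000 * t ^ 8 +
      223100185567708321 / 2522268808593750 * s * t ^ 7 +
      5706855794512477699 / 20178150468750000 * s ^ 2 * t ^ 6 +
      5108734794491763127 / 10089075234375000 * s ^ 3 * t ^ 5 +
      17860845059664371659 / 32285040750000000 * s ^ 4 * t ^ 4 +
      15177498406498256707 / 40356300937500000 * s ^ 5 * t ^ 3 +
      49925019325687941019 / 322850407500000000 * s ^ 6 * t ^ 2 +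
      5654661388612138141 / 161425203750000000 * s ^ 7 * t +
      17314706540795337397 / 5165606520000000000 * s ^ 8 =
      (1 + 1 / 50 + (1 / 50) ^ 2 / 2) * ((1 + (1 / 20 * u ^ 2) + (1 / 20 * u ^ 2) ^ 2 / 2 +
      (1 / 20 * u ^ 2) ^ 3 / 6) *
      (1 + u + 217 / 500 * u ^ 2)) -
      (122141 / 100000 * (1 + (u - 1 / 5) / 6) ^ 6) := by
    rw [hs, ht]
    ring
  rw [e] at h
  linarith

theorem ev_six_e23_g2 (u : ℝ) (h1 : 31 / 20 ≤ u) (h2 : u ≤ 2) :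
    122141 / 100000 * (1 + (u - 1 / 5) / 6) ^ 6 ≤
      (1 + 1 / 50 + (1 / 50) ^ 2 / 2) * ((1 + (1 / 20 * u ^ 2) + (1 / 20 * u ^ 2) ^ 2 / 2 +
      (1 / 20 * u ^ 2) ^ 3 / 6) *
      (1 + u + 217 / 500 * u ^ 2)) := by
  obtain ⟨s, hs⟩ : ∃ s, s = u - (31 / 20) := ⟨_, rfl⟩
  obtain ⟨t, ht⟩ : ∃ t, t = 2 - u := ⟨_, rfl⟩
  have hs0 : 0 ≤ s := by linarith
  have ht0 : 0 ≤ t := by linarith
  have h : 0 ≤
      17314706540795337397 / 5165606520000000000 * t ^ 8 +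
      1201076752714212223 / 64570081500000000 * s * t ^ 7 +
      255948924602308697 / 6457008150000000 * s ^ 2 * t ^ 6 +
      6254457255849739 / 161425203750000 * s ^ 3 * t ^ 5 +
      53288178509359 / 3228504075000 * s ^ 4 * t ^ 4 +
      3272588379406 / 403563009375 * s ^ 5 * t ^ 3 +
      1205827692454 / 80712601875 * s ^ 6 * t ^ 2 + 198377494576 / 16142520375 * s ^ 7 * t +
      53408891936 / 16142520375 * s ^ 8 := by
    positivity
  have e :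
      17314706540795337397 / 5165606520000000000 * t ^ 8 +
      1201076752714212223 / 64570081500000000 * s * t ^ 7 +
      255948924602308697 / 6457008150000000 * s ^ 2 * t ^ 6 +
      6254457255849739 / 161425203750000 * s ^ 3 * t ^ 5 +
      53288178509359 / 3228504075000 * s ^ 4 * t ^ 4 +
      3272588379406 / 403563009375 * s ^ 5 * t ^ 3 +
      1205827692454 / 80712601875 * s ^ 6 * t ^ 2 + 198377494576 / 16142520375 * s ^ 7 * t +
      53408891936 / 16142520375 * s ^ 8 =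
      (1 + 1 / 50 + (1 / 50) ^ 2 / 2) * ((1 + (1 / 20 * u ^ 2) + (1 / 20 * u ^ 2) ^ 2 / 2 +
      (1 / 20 * u ^ 2) ^ 3 / 6) *
      (1 + u + 217 / 500 * u ^ 2)) -
      (122141 / 100000 * (1 + (u - 1 / 5) / 6) ^ 6) := by
    rw [hs, ht]
    ring
  rw [e] at h
  linarith

theorem ev_six_e23_t (u : ℝ) (h1 : 2 ≤ u) :
    122141 / 100000 * (1 + (u - 1 / 5) / 6) ^ 6 ≤
      (1 + 1 / 50 + (1 / 50) ^ 2 / 2) * ((1 + (1 / 20 * u ^ 2) + (1 / 20 * u ^ 2) ^ 2 / 2 +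
      (1 / 20 * u ^ 2) ^ 3 / 6) *
      (1 + u + 217 / 500 * u ^ 2)) := by
  obtain ⟨s, hs⟩ : ∃ s, s = u - (2) := ⟨_, rfl⟩
  have hs0 : 0 ≤ s := by linarith
  have h : 0 ≤
      1669027873 / 300000000000 + 529846391 / 10000000000 * s +
      3579959369 / 20000000000 * s ^ 2 + 21768558347 / 135000000000 * s ^ 3 +
      6808345511 / 108000000000 * s ^ 4 + 10420214503 / 810000000000 * s ^ 5 +
      27398947091 / 14580000000000 * s ^ 6 + 1688431 / 10000000000 * s ^ 7 +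
      1106917 / 120000000000 * s ^ 8 := by
    positivity
  have e :
      1669027873 / 300000000000 + 529846391 / 10000000000 * s +
      3579959369 / 20000000000 * s ^ 2 + 21768558347 / 135000000000 * s ^ 3 +
      6808345511 / 108000000000 * s ^ 4 + 10420214503 / 810000000000 * s ^ 5 +
      27398947091 / 14580000000000 * s ^ 6 + 1688431 / 10000000000 * s ^ 7 +
      1106917 / 120000000000 * s ^ 8 =
      (1 + 1 / 50 + (1 / 50) ^ 2 / 2) * ((1 + (1 / 20 * u ^ 2) + (1 / 20 * u ^ 2) ^ 2 / 2 +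
      (1 / 20 * u ^ 2) ^ 3 / 6) *
      (1 + u + 217 / 500 * u ^ 2)) -
      (122141 / 100000 * (1 + (u - 1 / 5) / 6) ^ 6) := by
    rw [hs]
    ring
  rw [e] at h
  linarith

/-- `K = 6`: `(c, μ, P, δ) = (217 / 500, 1 / 20, 1 / 5, 1 / 50)` -/
theorem expFd_six_e23 : ExpFd 6 (217 / 500) (1 / 20) (1 / 5) (1 / 50) := by
  have hde : (1 + 1 / 50 + (1 / 50) ^ 2 / 2) ≤ Real.exp (1 / 50) :=
    Real.quadratic_le_exp_of_nonneg (by norm_num)
  have hq : ∀ u : ℝ, 0 ≤ 1 + u + 217 / 500 * u ^ 2 := fun u => by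
    nlinarith [sq_nonneg (u + 2), sq_nonneg u]
  have hR : ∀ (u x y : ℝ), x ≤ y →
      y ≤ (1 + 1 / 50 + (1 / 50) ^ 2 / 2) * (1 + u + 217 / 500 * u ^ 2) →
      x ≤ Real.exp (1 / 50) * (1 + u + 217 / 500 * u ^ 2) := fun u x y h1 h2 =>
    (h1.trans h2).trans (mul_le_mul_of_nonneg_right hde (hq u))
  refine ExpFd.of (by norm_num) (by norm_num) (by norm_num) (by norm_num) (by norm_num) ?_ ?_ ?_
  · intro u h1
    rcases le_total u (-3) with h3 | h3
    · exact hR u _ _ (ev_exp_n3 h3) (ev_six_e23_d u h3)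
    rcases le_total u (-2) with h4 | h4
    · refine hR u _ _ (ev_exp_n2 h4) ?_
      exact ev_six_e23_c0 u (by linarith) (by linarith)
    rcases le_total u (-1) with h5 | h5
    · refine hR u _ _ (ev_exp_n1 h5) ?_
      exact ev_six_e23_b0 u (by linarith) (by linarith)
    refine hR u _ _ (ev_exp_n0 h1) ?_
    exact ev_six_e23_a0 u (by linarith) (by linarith)
  · intro u h1 h2
    have h5 := mul_le_mul_of_nonneg_right (Real.add_one_le_exp (1 / 20 * u ^ 2)) (hq u)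
    rw [add_comm (1 / 20 * u ^ 2) 1] at h5
    have h6 : 0 ≤ Real.exp (1 / 20 * u ^ 2) * (1 + u + 217 / 500 * u ^ 2) :=
      mul_nonneg (Real.exp_nonneg _) (hq u)
    rw [Real.exp_add, mul_assoc]
    refine ((ev_exp_p h1 (by linarith)).trans ?_).trans
      ((mul_le_mul_of_nonneg_left h5
        (by norm_num : (0 : ℝ) ≤ (1 + 1 / 50 + (1 / 50) ^ 2 / 2))).trans
        (mul_le_mul_of_nonneg_right hde h6))
    exact ev_six_e23_e0 u (by linarith) (by linarith)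
  · intro u h1
    have h4 : 0 ≤ (1 + (u - 1 / 5) / 6) ^ 6 := by
      have : 0 ≤ (u - 1 / 5) / 6 := div_nonneg (by linarith) (by norm_num)
      positivity
    have hE : Real.exp (1 / 5) ≤ 122141 / 100000 := ev_up_1_5
    have hx : 0 ≤ 1 / 20 * u ^ 2 := by positivity
    have h5 := mul_le_mul_of_nonneg_right (taylor3_le_expE _ hx) (hq u)
    have h6 : 0 ≤ Real.exp (1 / 20 * u ^ 2) * (1 + u + 217 / 500 * u ^ 2) :=
      mul_nonneg (Real.exp_nonneg _) (hq u)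
    rw [Real.exp_add, mul_assoc]
    push_cast
    refine ((mul_le_mul_of_nonneg_right hE h4).trans ?_).trans
      ((mul_le_mul_of_nonneg_left h5
        (by norm_num : (0 : ℝ) ≤ (1 + 1 / 50 + (1 / 50) ^ 2 / 2))).trans
        (mul_le_mul_of_nonneg_right hde h6))
    rcases le_total u (11 / 10) with hh | hh
    · exact ev_six_e23_g0 u (by linarith) (by linarith)
    rcases le_total u (31 / 20) with hh | hh
    · exact ev_six_e23_g1 u (by linarith) (by linarith)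
    rcases le_total u (2) with hh | hh
    · exact ev_six_e23_g2 u (by linarith) (by linarith)
    exact ev_six_e23_t u (by linarith)

theorem ev_six_e24_a0 (u : ℝ) (h1 : -1 ≤ u) (h2 : u ≤ -7 / 8) :
    1 + u + u ^ 2 / 2 + u ^ 3 / 6 + u ^ 4 / 24 ≤
      (1 + 1 / 20 + (1 / 20) ^ 2 / 2) * (1 + u + 9 / 25 * u ^ 2) := by
  obtain ⟨s, hs⟩ : ∃ s, s = u - (-1) := ⟨_, rfl⟩
  obtain ⟨t, ht⟩ : ∃ t, t = -7 / 8 - u := ⟨_, rfl⟩
  have hs0 : 0 ≤ s := by linarith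
  have ht0 : 0 ≤ t := by linarith
  have h : 0 ≤
      8832 / 625 * t ^ 4 + 13712 / 375 * s * t ^ 3 + 20706 / 625 * s ^ 2 * t ^ 2 +
      1636 / 125 * s ^ 3 * t + 35263 / 15000 * s ^ 4 := by
    positivity
  have e :
      8832 / 625 * t ^ 4 + 13712 / 375 * s * t ^ 3 + 20706 / 625 * s ^ 2 * t ^ 2 +
      1636 / 125 * s ^ 3 * t + 35263 / 15000 * s ^ 4 =
      (1 + 1 / 20 + (1 / 20) ^ 2 / 2) * (1 + u + 9 / 25 * u ^ 2) -
      (1 + u + u ^ 2 / 2 + u ^ 3 / 6 + u ^ 4 / 24) := by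
    rw [hs, ht]
    ring
  rw [e] at h
  linarith

theorem ev_six_e24_a1 (u : ℝ) (h1 : -7 / 8 ≤ u) (h2 : u ≤ -3 / 4) :
    1 + u + u ^ 2 / 2 + u ^ 3 / 6 + u ^ 4 / 24 ≤
      (1 + 1 / 20 + (1 / 20) ^ 2 / 2) * (1 + u + 9 / 25 * u ^ 2) := by
  obtain ⟨s, hs⟩ : ∃ s, s = u - (-7 / 8) := ⟨_, rfl⟩
  obtain ⟨t, ht⟩ : ∃ t, t = -3 / 4 - u := ⟨_, rfl⟩
  have hs0 : 0 ≤ s := by linarith
  have ht0 : 0 ≤ t := by linarith
  have h : 0 ≤
      35263 / 15000 * t ^ 4 + 10723 / 1875 * s * t ^ 3 + 6889 / 625 * s ^ 2 * t ^ 2 +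
      8828 / 625 * s ^ 3 * t + 4018 / 625 * s ^ 4 := by
    positivity
  have e :
      35263 / 15000 * t ^ 4 + 10723 / 1875 * s * t ^ 3 + 6889 / 625 * s ^ 2 * t ^ 2 +
      8828 / 625 * s ^ 3 * t + 4018 / 625 * s ^ 4 =
      (1 + 1 / 20 + (1 / 20) ^ 2 / 2) * (1 + u + 9 / 25 * u ^ 2) -
      (1 + u + u ^ 2 / 2 + u ^ 3 / 6 + u ^ 4 / 24) := by
    rw [hs, ht]
    ring
  rw [e] at h
  linarith

theorem ev_six_e24_a2 (u : ℝ) (h1 : -3 / 4 ≤ u) (h2 : u ≤ -1 / 2) :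
    1 + u + u ^ 2 / 2 + u ^ 3 / 6 + u ^ 4 / 24 ≤
      (1 + 1 / 20 + (1 / 20) ^ 2 / 2) * (1 + u + 9 / 25 * u ^ 2) := by
  obtain ⟨s, hs⟩ : ∃ s, s = u - (-3 / 4) := ⟨_, rfl⟩
  obtain ⟨t, ht⟩ : ∃ t, t = -1 / 2 - u := ⟨_, rfl⟩
  have hs0 : 0 ≤ s := by linarith
  have ht0 : 0 ≤ t := by linarith
  have h : 0 ≤
      2009 / 5000 * t ^ 4 + 382 / 125 * s * t ^ 3 + 10703 / 1250 * s ^ 2 * t ^ 2 +
      3524 / 375 * s ^ 3 * t + 6464 / 1875 * s ^ 4 := by
    positivity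
  have e :
      2009 / 5000 * t ^ 4 + 382 / 125 * s * t ^ 3 + 10703 / 1250 * s ^ 2 * t ^ 2 +
      3524 / 375 * s ^ 3 * t + 6464 / 1875 * s ^ 4 =
      (1 + 1 / 20 + (1 / 20) ^ 2 / 2) * (1 + u + 9 / 25 * u ^ 2) -
      (1 + u + u ^ 2 / 2 + u ^ 3 / 6 + u ^ 4 / 24) := by
    rw [hs, ht]
    ring
  rw [e] at h
  linarith

theorem ev_six_e24_a3 (u : ℝ) (h1 : -1 / 2 ≤ u) (h2 : u ≤ 0) :
    1 + u + u ^ 2 / 2 + u ^ 3 / 6 + u ^ 4 / 24 ≤
      (1 + 1 / 20 + (1 / 20) ^ 2 / 2) * (1 + u + 9 / 25 * u ^ 2) := by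
  obtain ⟨s, hs⟩ : ∃ s, s = u - (-1 / 2) := ⟨_, rfl⟩
  obtain ⟨t, ht⟩ : ∃ t, t = 0 - u := ⟨_, rfl⟩
  have hs0 : 0 ≤ s := by linarith
  have ht0 : 0 ≤ t := by linarith
  have h : 0 ≤
      404 / 1875 * t ^ 4 + 5291 / 3750 * s * t ^ 3 + 16019 / 5000 * s ^ 2 * t ^ 2 +
      287 / 100 * s ^ 3 * t + 41 / 50 * s ^ 4 := by
    positivity
  have e :
      404 / 1875 * t ^ 4 + 5291 / 3750 * s * t ^ 3 + 16019 / 5000 * s ^ 2 * t ^ 2 +
      287 / 100 * s ^ 3 * t + 41 / 50 * s ^ 4 =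
      (1 + 1 / 20 + (1 / 20) ^ 2 / 2) * (1 + u + 9 / 25 * u ^ 2) -
      (1 + u + u ^ 2 / 2 + u ^ 3 / 6 + u ^ 4 / 24) := by
    rw [hs, ht]
    ring
  rw [e] at h
  linarith

theorem ev_six_e24_b0 (u : ℝ) (h1 : -2 ≤ u) (h2 : u ≤ -1) :
    36788 / 100000 *
      (1 + (u + 1) + (u + 1) ^ 2 / 2 + (u + 1) ^ 3 / 6 + (u + 1) ^ 4 / 24) ≤
      (1 + 1 / 20 + (1 / 20) ^ 2 / 2) * (1 + u + 9 / 25 * u ^ 2) := by
  obtain ⟨s, hs⟩ : ∃ s, s = u - (-2) := ⟨_, rfl⟩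
  obtain ⟨t, ht⟩ : ∃ t, t = -1 - u := ⟨_, rfl⟩
  have hs0 : 0 ≤ s := by linarith
  have ht0 : 0 ≤ t := by linarith
  have h : 0 ≤
      64919 / 200000 * t ^ 4 + 213961 / 300000 * s * t ^ 3 + 11963 / 25000 * s ^ 2 * t ^ 2 +
      11581 / 100000 * s ^ 3 * t + 1057 / 100000 * s ^ 4 := by
    positivity
  have e :
      64919 / 200000 * t ^ 4 + 213961 / 300000 * s * t ^ 3 + 11963 / 25000 * s ^ 2 * t ^ 2 +
      11581 / 100000 * s ^ 3 * t + 1057 / 100000 * s ^ 4 =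
      (1 + 1 / 20 + (1 / 20) ^ 2 / 2) * (1 + u + 9 / 25 * u ^ 2) -
      (36788 / 100000 *
      (1 + (u + 1) + (u + 1) ^ 2 / 2 + (u + 1) ^ 3 / 6 + (u + 1) ^ 4 / 24)) := by
    rw [hs, ht]
    ring
  rw [e] at h
  linarith

theorem ev_six_e24_c0 (u : ℝ) (h1 : -3 ≤ u) (h2 : u ≤ -2) :
    13534 / 100000 *
      (1 + (u + 2) + (u + 2) ^ 2 / 2 + (u + 2) ^ 3 / 6 + (u + 2) ^ 4 / 24) ≤
      (1 + 1 / 20 + (1 / 20) ^ 2 / 2) * (1 + u + 9 / 25 * u ^ 2) := by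
  obtain ⟨s, hs⟩ : ∃ s, s = u - (-3) := ⟨_, rfl⟩
  obtain ⟨t, ht⟩ : ∃ t, t = -2 - u := ⟨_, rfl⟩
  have hs0 : 0 ≤ s := by linarith
  have ht0 : 0 ≤ t := by linarith
  have h : 0 ≤
      501119 / 400000 * t ^ 4 + 280997 / 75000 * s * t ^ 3 +
      406771 / 100000 * s ^ 2 * t ^ 2 + 190673 / 100000 * s ^ 3 * t + 32721 / 100000 * s ^ 4 := by
    positivity
  have e :
      501119 / 400000 * t ^ 4 + 280997 / 75000 * s * t ^ 3 +
      406771 / 100000 * s ^ 2 * t ^ 2 + 190673 / 100000 * s ^ 3 * t + 32721 / 100000 * s ^ 4 =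
      (1 + 1 / 20 + (1 / 20) ^ 2 / 2) * (1 + u + 9 / 25 * u ^ 2) -
      (13534 / 100000 *
      (1 + (u + 2) + (u + 2) ^ 2 / 2 + (u + 2) ^ 3 / 6 + (u + 2) ^ 4 / 24)) := by
    rw [hs, ht]
    ring
  rw [e] at h
  linarith

theorem ev_six_e24_d (u : ℝ) (h2 : u ≤ -3) :
    4979 / 100000 ≤
      (1 + 1 / 20 + (1 / 20) ^ 2 / 2) * (1 + u + 9 / 25 * u ^ 2) := by
  obtain ⟨s, hs⟩ : ∃ s, s = -3 - u := ⟨_, rfl⟩
  have hs0 : 0 ≤ s := by linarith
  have h : 0 ≤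
      3918 / 3125 + 24389 / 20000 * s + 7569 / 20000 * s ^ 2 := by
    positivity
  have e :
      3918 / 3125 + 24389 / 20000 * s + 7569 / 20000 * s ^ 2 =
      (1 + 1 / 20 + (1 / 20) ^ 2 / 2) * (1 + u + 9 / 25 * u ^ 2) -
      (4979 / 100000) := by
    rw [hs]
    ring
  rw [e] at h
  linarith

theorem ev_six_e24_e0 (u : ℝ) (h1 : 0 ≤ u) (h2 : u ≤ 1 / 5) :
    1 + u + u ^ 2 / 2 + u ^ 3 / 6 + u ^ 4 / 24 + u ^ 5 / 100 ≤
      (1 + 1 / 20 + (1 / 20) ^ 2 / 2) * ((1 + 3 / 50 * u ^ 2) *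
      (1 + u + 9 / 25 * u ^ 2)) := by
  obtain ⟨s, hs⟩ : ∃ s, s = u - (0) := ⟨_, rfl⟩
  obtain ⟨t, ht⟩ : ∃ t, t = 1 / 5 - u := ⟨_, rfl⟩
  have hs0 : 0 ≤ s := by linarith
  have ht0 : 0 ≤ t := by linarith
  have h : 0 ≤
      5125 / 32 * t ^ 5 + 13325 / 16 * s * t ^ 4 + 551161 / 320 * s ^ 2 * t ^ 3 +
      4246157 / 2400 * s ^ 3 * t ^ 2 + 270511123 / 300000 * s ^ 4 * t +
      36436707 / 200000 * s ^ 5 := by
    positivity
  have e :
      5125 / 32 * t ^ 5 + 13325 / 16 * s * t ^ 4 + 551161 / 320 * s ^ 2 * t ^ 3 +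
      4246157 / 2400 * s ^ 3 * t ^ 2 + 270511123 / 300000 * s ^ 4 * t +
      36436707 / 200000 * s ^ 5 =
      (1 + 1 / 20 + (1 / 20) ^ 2 / 2) * ((1 + 3 / 50 * u ^ 2) *
      (1 + u + 9 / 25 * u ^ 2)) -
      (1 + u + u ^ 2 / 2 + u ^ 3 / 6 + u ^ 4 / 24 + u ^ 5 / 100) := by
    rw [hs, ht]
    ring
  rw [e] at h
  linarith

theorem ev_six_e24_g0 (u : ℝ) (h1 : 1 / 5 ≤ u) (h2 : u ≤ 2) :
    122141 / 100000 * (1 + (u - 1 / 5) / 6) ^ 6 ≤
      (1 + 1 / 20 + (1 / 20) ^ 2 / 2) * ((1 + (3 / 50 * u ^ 2) + (3 / 50 * u ^ 2) ^ 2 / 2 +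
      (3 / 50 * u ^ 2) ^ 3 / 6) *
      (1 + u + 9 / 25 * u ^ 2)) := by
  obtain ⟨s, hs⟩ : ∃ s, s = u - (1 / 5) := ⟨_, rfl⟩
  obtain ⟨t, ht⟩ : ∃ t, t = 2 - u := ⟨_, rfl⟩
  have hs0 : 0 ≤ s := by linarith
  have ht0 : 0 ≤ t := by linarith
  have h : 0 ≤
      113858614958621 / 215233605000000000 * t ^ 8 +
      192596003966411 / 43046721000000000 * s * t ^ 7 +
      136169863425227 / 8609344200000000 * s ^ 2 * t ^ 6 +
      24973435905079 / 860934420000000 * s ^ 3 * t ^ 5 +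
      1967904075379 / 68874753600000 * s ^ 4 * t ^ 4 +
      956870667707 / 68874753600000 * s ^ 5 * t ^ 3 +
      135027824483 / 55099802880000 * s ^ 6 * t ^ 2 +
      1763035549 / 5509980288000 * s ^ 7 * t + 3742869451 / 11019960576000 * s ^ 8 := by
    positivity
  have e :
      113858614958621 / 215233605000000000 * t ^ 8 +
      192596003966411 / 43046721000000000 * s * t ^ 7 +
      136169863425227 / 8609344200000000 * s ^ 2 * t ^ 6 +
      24973435905079 / 860934420000000 * s ^ 3 * t ^ 5 +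
      1967904075379 / 68874753600000 * s ^ 4 * t ^ 4 +
      956870667707 / 68874753600000 * s ^ 5 * t ^ 3 +
      135027824483 / 55099802880000 * s ^ 6 * t ^ 2 +
      1763035549 / 5509980288000 * s ^ 7 * t + 3742869451 / 11019960576000 * s ^ 8 =
      (1 + 1 / 20 + (1 / 20) ^ 2 / 2) * ((1 + (3 / 50 * u ^ 2) + (3 / 50 * u ^ 2) ^ 2 / 2 +
      (3 / 50 * u ^ 2) ^ 3 / 6) *
      (1 + u + 9 / 25 * u ^ 2)) -
      (122141 / 100000 * (1 + (u - 1 / 5) / 6) ^ 6) := by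
    rw [hs, ht]
    ring
  rw [e] at h
  linarith

theorem ev_six_e24_t (u : ℝ) (h1 : 2 ≤ u) :
    122141 / 100000 * (1 + (u - 1 / 5) / 6) ^ 6 ≤
      (1 + 1 / 20 + (1 / 20) ^ 2 / 2) * ((1 + (3 / 50 * u ^ 2) + (3 / 50 * u ^ 2) ^ 2 / 2 +
      (3 / 50 * u ^ 2) ^ 3 / 6) *
      (1 + u + 9 / 25 * u ^ 2)) := by
  obtain ⟨s, hs⟩ : ∃ s, s = u - (2) := ⟨_, rfl⟩
  have hs0 : 0 ≤ s := by linarith
  have h : 0 ≤
      3742869451 / 100000000000 + 293520939 / 2000000000 * s +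
      19837668859 / 60000000000 * s ^ 2 + 33446129339 / 135000000000 * s ^ 3 +
      9572012807 / 108000000000 * s ^ 4 + 15048464971 / 810000000000 * s ^ 5 +
      40074826307 / 14580000000000 * s ^ 6 + 1279161 / 5000000000 * s ^ 7 +
      68121 / 5000000000 * s ^ 8 := by
    positivity
  have e :
      3742869451 / 100000000000 + 293520939 / 2000000000 * s +
      19837668859 / 60000000000 * s ^ 2 + 33446129339 / 135000000000 * s ^ 3 +
      9572012807 / 108000000000 * s ^ 4 + 15048464971 / 810000000000 * s ^ 5 +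
      40074826307 / 14580000000000 * s ^ 6 + 1279161 / 5000000000 * s ^ 7 +
      68121 / 5000000000 * s ^ 8 =
      (1 + 1 / 20 + (1 / 20) ^ 2 / 2) * ((1 + (3 / 50 * u ^ 2) + (3 / 50 * u ^ 2) ^ 2 / 2 +
      (3 / 50 * u ^ 2) ^ 3 / 6) *
      (1 + u + 9 / 25 * u ^ 2)) -
      (122141 / 100000 * (1 + (u - 1 / 5) / 6) ^ 6) := by
    rw [hs]
    ring
  rw [e] at h
  linarith

/-- `K = 6`: `(c, μ, P, δ) = (9 / 25, 3 / 50, 1 / 5, 1 / 20)` -/
theorem expFd_six_e24 : ExpFd 6 (9 / 25) (3 / 50) (1 / 5) (1 / 20) := by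
  have hde : (1 + 1 / 20 + (1 / 20) ^ 2 / 2) ≤ Real.exp (1 / 20) :=
    Real.quadratic_le_exp_of_nonneg (by norm_num)
  have hq : ∀ u : ℝ, 0 ≤ 1 + u + 9 / 25 * u ^ 2 := fun u => by
    nlinarith [sq_nonneg (u + 2), sq_nonneg u]
  have hR : ∀ (u x y : ℝ), x ≤ y →
      y ≤ (1 + 1 / 20 + (1 / 20) ^ 2 / 2) * (1 + u + 9 / 25 * u ^ 2) →
      x ≤ Real.exp (1 / 20) * (1 + u + 9 / 25 * u ^ 2) := fun u x y h1 h2 =>
    (h1.trans h2).trans (mul_le_mul_of_nonneg_right hde (hq u))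
  refine ExpFd.of (by norm_num) (by norm_num) (by norm_num) (by norm_num) (by norm_num) ?_ ?_ ?_
  · intro u h1
    rcases le_total u (-3) with h3 | h3
    · exact hR u _ _ (ev_exp_n3 h3) (ev_six_e24_d u h3)
    rcases le_total u (-2) with h4 | h4
    · refine hR u _ _ (ev_exp_n2 h4) ?_
      exact ev_six_e24_c0 u (by linarith) (by linarith)
    rcases le_total u (-1) with h5 | h5
    · refine hR u _ _ (ev_exp_n1 h5) ?_
      exact ev_six_e24_b0 u (by linarith) (by linarith)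
    refine hR u _ _ (ev_exp_n0 h1) ?_
    rcases le_total u (-7 / 8) with hh | hh
    · exact ev_six_e24_a0 u (by linarith) (by linarith)
    rcases le_total u (-3 / 4) with hh | hh
    · exact ev_six_e24_a1 u (by linarith) (by linarith)
    rcases le_total u (-1 / 2) with hh | hh
    · exact ev_six_e24_a2 u (by linarith) (by linarith)
    exact ev_six_e24_a3 u (by linarith) (by linarith)
  · intro u h1 h2
    have h5 := mul_le_mul_of_nonneg_right (Real.add_one_le_exp (3 / 50 * u ^ 2)) (hq u)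
    rw [add_comm (3 / 50 * u ^ 2) 1] at h5
    have h6 : 0 ≤ Real.exp (3 / 50 * u ^ 2) * (1 + u + 9 / 25 * u ^ 2) :=
      mul_nonneg (Real.exp_nonneg _) (hq u)
    rw [Real.exp_add, mul_assoc]
    refine ((ev_exp_p h1 (by linarith)).trans ?_).trans
      ((mul_le_mul_of_nonneg_left h5
        (by norm_num : (0 : ℝ) ≤ (1 + 1 / 20 + (1 / 20) ^ 2 / 2))).trans
        (mul_le_mul_of_nonneg_right hde h6))
    exact ev_six_e24_e0 u (by linarith) (by linarith)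
  · intro u h1
    have h4 : 0 ≤ (1 + (u - 1 / 5) / 6) ^ 6 := by
      have : 0 ≤ (u - 1 / 5) / 6 := div_nonneg (by linarith) (by norm_num)
      positivity
    have hE : Real.exp (1 / 5) ≤ 122141 / 100000 := ev_up_1_5
    have hx : 0 ≤ 3 / 50 * u ^ 2 := by positivity
    have h5 := mul_le_mul_of_nonneg_right (taylor3_le_expE _ hx) (hq u)
    have h6 : 0 ≤ Real.exp (3 / 50 * u ^ 2) * (1 + u + 9 / 25 * u ^ 2) :=
      mul_nonneg (Real.exp_nonneg _) (hq u)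
    rw [Real.exp_add, mul_assoc]
    push_cast
    refine ((mul_le_mul_of_nonneg_right hE h4).trans ?_).trans
      ((mul_le_mul_of_nonneg_left h5
        (by norm_num : (0 : ℝ) ≤ (1 + 1 / 20 + (1 / 20) ^ 2 / 2))).trans
        (mul_le_mul_of_nonneg_right hde h6))
    rcases le_total u (2) with hh | hh
    · exact ev_six_e24_g0 u (by linarith) (by linarith)
    exact ev_six_e24_t u (by linarith)

theorem ev_six_e25_a0 (u : ℝ) (h1 : -1 ≤ u) (h2 : u ≤ 0) :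
    1 + u + u ^ 2 / 2 + u ^ 3 / 6 + u ^ 4 / 24 ≤
      (1 + 1 / 10 + (1 / 10) ^ 2 / 2) * (1 + u + 17 / 50 * u ^ 2) := by
  obtain ⟨s, hs⟩ : ∃ s, s = u - (-1) := ⟨_, rfl⟩
  obtain ⟨t, ht⟩ : ∃ t, t = 0 - u := ⟨_, rfl⟩
  have hs0 : 0 ≤ s := by linarith
  have ht0 : 0 ≤ t := by linarith
  have h : 0 ≤
      7 / 10000 * t ^ 4 + 173 / 7500 * s * t ^ 3 + 1907 / 10000 * s ^ 2 * t ^ 2 +
      63 / 200 * s ^ 3 * t + 21 / 200 * s ^ 4 := by
    positivity
  have e :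
      7 / 10000 * t ^ 4 + 173 / 7500 * s * t ^ 3 + 1907 / 10000 * s ^ 2 * t ^ 2 +
      63 / 200 * s ^ 3 * t + 21 / 200 * s ^ 4 =
      (1 + 1 / 10 + (1 / 10) ^ 2 / 2) * (1 + u + 17 / 50 * u ^ 2) -
      (1 + u + u ^ 2 / 2 + u ^ 3 / 6 + u ^ 4 / 24) := by
    rw [hs, ht]
    ring
  rw [e] at h
  linarith

theorem ev_six_e25_b0 (u : ℝ) (h1 : -2 ≤ u) (h2 : u ≤ -1) :
    36788 / 100000 *
      (1 + (u + 1) + (u + 1) ^ 2 / 2 + (u + 1) ^ 3 / 6 + (u + 1) ^ 4 / 24) ≤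
      (1 + 1 / 10 + (1 / 10) ^ 2 / 2) * (1 + u + 17 / 50 * u ^ 2) := by
  obtain ⟨s, hs⟩ : ∃ s, s = u - (-2) := ⟨_, rfl⟩
  obtain ⟨t, ht⟩ : ∃ t, t = -1 - u := ⟨_, rfl⟩
  have hs0 : 0 ≤ s := by linarith
  have ht0 : 0 ≤ t := by linarith
  have h : 0 ≤
      51969 / 200000 * t ^ 4 + 77843 / 150000 * s * t ^ 3 + 3519 / 12500 * s ^ 2 * t ^ 2 +
      1139 / 25000 * s ^ 3 * t + 391 / 50000 * s ^ 4 := by
    positivity
  have e :
      51969 / 200000 * t ^ 4 + 77843 / 150000 * s * t ^ 3 + 3519 / 12500 * s ^ 2 * t ^ 2 +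
      1139 / 25000 * s ^ 3 * t + 391 / 50000 * s ^ 4 =
      (1 + 1 / 10 + (1 / 10) ^ 2 / 2) * (1 + u + 17 / 50 * u ^ 2) -
      (36788 / 100000 *
      (1 + (u + 1) + (u + 1) ^ 2 / 2 + (u + 1) ^ 3 / 6 + (u + 1) ^ 4 / 24)) := by
    rw [hs, ht]
    ring
  rw [e] at h
  linarith

theorem ev_six_e25_c0 (u : ℝ) (h1 : -3 ≤ u) (h2 : u ≤ -2) :
    13534 / 100000 *
      (1 + (u + 2) + (u + 2) ^ 2 / 2 + (u + 2) ^ 3 / 6 + (u + 2) ^ 4 / 24) ≤
      (1 + 1 / 10 + (1 / 10) ^ 2 / 2) * (1 + u + 17 / 50 * u ^ 2) := by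
  obtain ⟨s, hs⟩ : ∃ s, s = u - (-3) := ⟨_, rfl⟩
  obtain ⟨t, ht⟩ : ∃ t, t = -2 - u := ⟨_, rfl⟩
  have hs0 : 0 ≤ s := by linarith
  have ht0 : 0 ≤ t := by linarith
  have h : 0 ≤
      448219 / 400000 * t ^ 4 + 986363 / 300000 * s * t ^ 3 +
      348221 / 100000 * s ^ 2 * t ^ 2 + 79149 / 50000 * s ^ 3 * t + 13123 / 50000 * s ^ 4 := by
    positivity
  have e :
      448219 / 400000 * t ^ 4 + 986363 / 300000 * s * t ^ 3 +
      348221 / 100000 * s ^ 2 * t ^ 2 + 79149 / 50000 * s ^ 3 * t + 13123 / 50000 * s ^ 4 =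
      (1 + 1 / 10 + (1 / 10) ^ 2 / 2) * (1 + u + 17 / 50 * u ^ 2) -
      (13534 / 100000 *
      (1 + (u + 2) + (u + 2) ^ 2 / 2 + (u + 2) ^ 3 / 6 + (u + 2) ^ 4 / 24)) := by
    rw [hs, ht]
    ring
  rw [e] at h
  linarith

theorem ev_six_e25_d (u : ℝ) (h2 : u ≤ -3) :
    4979 / 100000 ≤
      (1 + 1 / 10 + (1 / 10) ^ 2 / 2) * (1 + u + 17 / 50 * u ^ 2) := by
  obtain ⟨s, hs⟩ : ∃ s, s = -3 - u := ⟨_, rfl⟩
  have hs0 : 0 ≤ s := by linarith
  have h : 0 ≤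
      112151 / 100000 + 2873 / 2500 * s + 3757 / 10000 * s ^ 2 := by
    positivity
  have e :
      112151 / 100000 + 2873 / 2500 * s + 3757 / 10000 * s ^ 2 =
      (1 + 1 / 10 + (1 / 10) ^ 2 / 2) * (1 + u + 17 / 50 * u ^ 2) -
      (4979 / 100000) := by
    rw [hs]
    ring
  rw [e] at h
  linarith

theorem ev_six_e25_e0 (u : ℝ) (h1 : 0 ≤ u) (h2 : u ≤ 1 / 5) :
    1 + u + u ^ 2 / 2 + u ^ 3 / 6 + u ^ 4 / 24 + u ^ 5 / 100 ≤
      (1 + 1 / 10 + (1 / 10) ^ 2 / 2) * ((1 + 3 / 50 * u ^ 2) *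
      (1 + u + 17 / 50 * u ^ 2)) := by
  obtain ⟨s, hs⟩ : ∃ s, s = u - (0) := ⟨_, rfl⟩
  obtain ⟨t, ht⟩ : ∃ t, t = 1 / 5 - u := ⟨_, rfl⟩
  have hs0 : 0 ≤ s := by linarith
  have ht0 : 0 ≤ t := by linarith
  have h : 0 ≤
      2625 / 8 * t ^ 5 + 6825 / 4 * s * t ^ 4 + 7073 / 2 * s ^ 2 * t ^ 3 +
      4380889 / 1200 * s ^ 3 * t ^ 2 + 562878313 / 300000 * s ^ 4 * t +
      38388521 / 100000 * s ^ 5 := by
    positivity
  have e :
      2625 / 8 * t ^ 5 + 6825 / 4 * s * t ^ 4 + 7073 / 2 * s ^ 2 * t ^ 3 +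
      4380889 / 1200 * s ^ 3 * t ^ 2 + 562878313 / 300000 * s ^ 4 * t +
      38388521 / 100000 * s ^ 5 =
      (1 + 1 / 10 + (1 / 10) ^ 2 / 2) * ((1 + 3 / 50 * u ^ 2) *
      (1 + u + 17 / 50 * u ^ 2)) -
      (1 + u + u ^ 2 / 2 + u ^ 3 / 6 + u ^ 4 / 24 + u ^ 5 / 100) := by
    rw [hs, ht]
    ring
  rw [e] at h
  linarith

theorem ev_six_e25_g0 (u : ℝ) (h1 : 1 / 5 ≤ u) (h2 : u ≤ 2) :
    122141 / 100000 * (1 + (u - 1 / 5) / 6) ^ 6 ≤
      (1 + 1 / 10 + (1 / 10) ^ 2 / 2) * ((1 + (3 / 50 * u ^ 2) + (3 / 50 * u ^ 2) ^ 2 / 2 +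
      (3 / 50 * u ^ 2) ^ 3 / 6) *
      (1 + u + 17 / 50 * u ^ 2)) := by
  obtain ⟨s, hs⟩ : ∃ s, s = u - (1 / 5) := ⟨_, rfl⟩
  obtain ⟨t, ht⟩ : ∃ t, t = 2 - u := ⟨_, rfl⟩
  have hs0 : 0 ≤ s := by linarith
  have ht0 : 0 ≤ t := by linarith
  have h : 0 ≤
      119961262158563 / 107616802500000000 * t ^ 8 +
      108123983985229 / 10761680250000000 * s * t ^ 7 +
      82861504722103 / 2152336050000000 * s ^ 2 * t ^ 6 +
      17441417736431 / 215233605000000 * s ^ 3 * t ^ 5 +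
      7062402658649 / 68874753600000 * s ^ 4 * t ^ 4 +
      5571049449667 / 68874753600000 * s ^ 5 * t ^ 3 +
      2220860182723 / 55099802880000 * s ^ 6 * t ^ 2 +
      69148049789 / 5509980288000 * s ^ 7 * t + 22841207051 / 11019960576000 * s ^ 8 := by
    positivity
  have e :
      119961262158563 / 107616802500000000 * t ^ 8 +
      108123983985229 / 10761680250000000 * s * t ^ 7 +
      82861504722103 / 2152336050000000 * s ^ 2 * t ^ 6 +
      17441417736431 / 215233605000000 * s ^ 3 * t ^ 5 +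
      7062402658649 / 68874753600000 * s ^ 4 * t ^ 4 +
      5571049449667 / 68874753600000 * s ^ 5 * t ^ 3 +
      2220860182723 / 55099802880000 * s ^ 6 * t ^ 2 +
      69148049789 / 5509980288000 * s ^ 7 * t + 22841207051 / 11019960576000 * s ^ 8 =
      (1 + 1 / 10 + (1 / 10) ^ 2 / 2) * ((1 + (3 / 50 * u ^ 2) + (3 / 50 * u ^ 2) ^ 2 / 2 +
      (3 / 50 * u ^ 2) ^ 3 / 6) *
      (1 + u + 17 / 50 * u ^ 2)) -
      (122141 / 100000 * (1 + (u - 1 / 5) / 6) ^ 6) := by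
    rw [hs, ht]
    ring
  rw [e] at h
  linarith

theorem ev_six_e25_t (u : ℝ) (h1 : 2 ≤ u) :
    122141 / 100000 * (1 + (u - 1 / 5) / 6) ^ 6 ≤
      (1 + 1 / 10 + (1 / 10) ^ 2 / 2) * ((1 + (3 / 50 * u ^ 2) + (3 / 50 * u ^ 2) ^ 2 / 2 +
      (3 / 50 * u ^ 2) ^ 3 / 6) *
      (1 + u + 17 / 50 * u ^ 2)) := by
  obtain ⟨s, hs⟩ : ∃ s, s = u - (2) := ⟨_, rfl⟩
  have hs0 : 0 ≤ s := by linarith
  have h : 0 ≤
      22841207051 / 100000000000 + 493706187 / 2000000000 * s +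
      21417247579 / 60000000000 * s ^ 2 + 34387456259 / 135000000000 * s ^ 3 +
      9696133967 / 108000000000 * s ^ 4 + 15193258951 / 810000000000 * s ^ 5 +
      40264176767 / 14580000000000 * s ^ 6 + 320229 / 1250000000 * s ^ 7 +
      33813 / 2500000000 * s ^ 8 := by
    positivity
  have e :
      22841207051 / 100000000000 + 493706187 / 2000000000 * s +
      21417247579 / 60000000000 * s ^ 2 + 34387456259 / 135000000000 * s ^ 3 +
      9696133967 / 108000000000 * s ^ 4 + 15193258951 / 810000000000 * s ^ 5 +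
      40264176767 / 14580000000000 * s ^ 6 + 320229 / 1250000000 * s ^ 7 +
      33813 / 2500000000 * s ^ 8 =
      (1 + 1 / 10 + (1 / 10) ^ 2 / 2) * ((1 + (3 / 50 * u ^ 2) + (3 / 50 * u ^ 2) ^ 2 / 2 +
      (3 / 50 * u ^ 2) ^ 3 / 6) *
      (1 + u + 17 / 50 * u ^ 2)) -
      (122141 / 100000 * (1 + (u - 1 / 5) / 6) ^ 6) := by
    rw [hs]
    ring
  rw [e] at h
  linarith

/-- `K = 6`: `(c, μ, P, δ) = (17 / 50, 3 / 50, 1 / 5, 1 / 10)` -/
theorem expFd_six_e25 : ExpFd 6 (17 / 50) (3 / 50) (1 / 5) (1 / 10) := by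
  have hde : (1 + 1 / 10 + (1 / 10) ^ 2 / 2) ≤ Real.exp (1 / 10) :=
    Real.quadratic_le_exp_of_nonneg (by norm_num)
  have hq : ∀ u : ℝ, 0 ≤ 1 + u + 17 / 50 * u ^ 2 := fun u => by
    nlinarith [sq_nonneg (u + 2), sq_nonneg u]
  have hR : ∀ (u x y : ℝ), x ≤ y →
      y ≤ (1 + 1 / 10 + (1 / 10) ^ 2 / 2) * (1 + u + 17 / 50 * u ^ 2) →
      x ≤ Real.exp (1 / 10) * (1 + u + 17 / 50 * u ^ 2) := fun u x y h1 h2 =>
    (h1.trans h2).trans (mul_le_mul_of_nonneg_right hde (hq u))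
  refine ExpFd.of (by norm_num) (by norm_num) (by norm_num) (by norm_num) (by norm_num) ?_ ?_ ?_
  · intro u h1
    rcases le_total u (-3) with h3 | h3
    · exact hR u _ _ (ev_exp_n3 h3) (ev_six_e25_d u h3)
    rcases le_total u (-2) with h4 | h4
    · refine hR u _ _ (ev_exp_n2 h4) ?_
      exact ev_six_e25_c0 u (by linarith) (by linarith)
    rcases le_total u (-1) with h5 | h5
    · refine hR u _ _ (ev_exp_n1 h5) ?_
      exact ev_six_e25_b0 u (by linarith) (by linarith)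
    refine hR u _ _ (ev_exp_n0 h1) ?_
    exact ev_six_e25_a0 u (by linarith) (by linarith)
  · intro u h1 h2
    have h5 := mul_le_mul_of_nonneg_right (Real.add_one_le_exp (3 / 50 * u ^ 2)) (hq u)
    rw [add_comm (3 / 50 * u ^ 2) 1] at h5
    have h6 : 0 ≤ Real.exp (3 / 50 * u ^ 2) * (1 + u + 17 / 50 * u ^ 2) :=
      mul_nonneg (Real.exp_nonneg _) (hq u)
    rw [Real.exp_add, mul_assoc]
    refine ((ev_exp_p h1 (by linarith)).trans ?_).trans
      ((mul_le_mul_of_nonneg_left h5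
        (by norm_num : (0 : ℝ) ≤ (1 + 1 / 10 + (1 / 10) ^ 2 / 2))).trans
        (mul_le_mul_of_nonneg_right hde h6))
    exact ev_six_e25_e0 u (by linarith) (by linarith)
  · intro u h1
    have h4 : 0 ≤ (1 + (u - 1 / 5) / 6) ^ 6 := by
      have : 0 ≤ (u - 1 / 5) / 6 := div_nonneg (by linarith) (by norm_num)
      positivity
    have hE : Real.exp (1 / 5) ≤ 122141 / 100000 := ev_up_1_5
    have hx : 0 ≤ 3 / 50 * u ^ 2 := by positivity
    have h5 := mul_le_mul_of_nonneg_right (taylor3_le_expE _ hx) (hq u)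
    have h6 : 0 ≤ Real.exp (3 / 50 * u ^ 2) * (1 + u + 17 / 50 * u ^ 2) :=
      mul_nonneg (Real.exp_nonneg _) (hq u)
    rw [Real.exp_add, mul_assoc]
    push_cast
    refine ((mul_le_mul_of_nonneg_right hE h4).trans ?_).trans
      ((mul_le_mul_of_nonneg_left h5
        (by norm_num : (0 : ℝ) ≤ (1 + 1 / 10 + (1 / 10) ^ 2 / 2))).trans
        (mul_le_mul_of_nonneg_right hde h6))
    rcases le_total u (2) with hh | hh
    · exact ev_six_e25_g0 u (by linarith) (by linarith)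
    exact ev_six_e25_t u (by linarith)

theorem ev_six_e30_a0 (u : ℝ) (h1 : -1 ≤ u) (h2 : u ≤ 0) :
    1 + u + u ^ 2 / 2 + u ^ 3 / 6 + u ^ 4 / 24 ≤
      (1 + 1 / 500 + (1 / 500) ^ 2 / 2) * (1 + u + 109 / 200 * u ^ 2) := by
  obtain ⟨s, hs⟩ : ∃ s, s = u - (-1) := ⟨_, rfl⟩
  obtain ⟨t, ht⟩ : ∃ t, t = 0 - u := ⟨_, rfl⟩
  have hs0 : 0 ≤ s := by linarith
  have ht0 : 0 ≤ t := by linarith
  have h : 0 ≤
      17109109 / 100000000 * t ^ 4 + 39127627 / 150000000 * s * t ^ 3 +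
      5209709 / 100000000 * s ^ 2 * t ^ 2 + 3003 / 500000 * s ^ 3 * t + 1001 / 500000 * s ^ 4 := by
    positivity
  have e :
      17109109 / 100000000 * t ^ 4 + 39127627 / 150000000 * s * t ^ 3 +
      5209709 / 100000000 * s ^ 2 * t ^ 2 + 3003 / 500000 * s ^ 3 * t + 1001 / 500000 * s ^ 4 =
      (1 + 1 / 500 + (1 / 500) ^ 2 / 2) * (1 + u + 109 / 200 * u ^ 2) -
      (1 + u + u ^ 2 / 2 + u ^ 3 / 6 + u ^ 4 / 24) := by
    rw [hs, ht]
    ring
  rw [e] at h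
  linarith

theorem ev_six_e30_b0 (u : ℝ) (h1 : -2 ≤ u) (h2 : u ≤ -1) :
    36788 / 100000 *
      (1 + (u + 1) + (u + 1) ^ 2 / 2 + (u + 1) ^ 3 / 6 + (u + 1) ^ 4 / 24) ≤
      (1 + 1 / 500 + (1 / 500) ^ 2 / 2) * (1 + u + 109 / 200 * u ^ 2) := by
  obtain ⟨s, hs⟩ : ∃ s, s = u - (-2) := ⟨_, rfl⟩
  obtain ⟨t, ht⟩ : ∃ t, t = -1 - u := ⟨_, rfl⟩
  have hs0 : 0 ≤ s := by linarith
  have ht0 : 0 ≤ t := by linarith
  have h : 0 ≤
      3263773 / 3125000 * t ^ 4 + 215448031 / 75000000 * s * t ^ 3 +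
      280559817 / 100000000 * s ^ 2 * t ^ 2 + 58545227 / 50000000 * s ^ 3 * t +
      17821109 / 100000000 * s ^ 4 := by
    positivity
  have e :
      3263773 / 3125000 * t ^ 4 + 215448031 / 75000000 * s * t ^ 3 +
      280559817 / 100000000 * s ^ 2 * t ^ 2 + 58545227 / 50000000 * s ^ 3 * t +
      17821109 / 100000000 * s ^ 4 =
      (1 + 1 / 500 + (1 / 500) ^ 2 / 2) * (1 + u + 109 / 200 * u ^ 2) -
      (36788 / 100000 *
      (1 + (u + 1) + (u + 1) ^ 2 / 2 + (u + 1) ^ 3 / 6 + (u + 1) ^ 4 / 24)) := by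
    rw [hs, ht]
    ring
  rw [e] at h
  linarith

theorem ev_six_e30_c0 (u : ℝ) (h1 : -3 ≤ u) (h2 : u ≤ -2) :
    13534 / 100000 *
      (1 + (u + 2) + (u + 2) ^ 2 / 2 + (u + 2) ^ 3 / 6 + (u + 2) ^ 4 / 24) ≤
      (1 + 1 / 500 + (1 / 500) ^ 2 / 2) * (1 + u + 109 / 200 * u ^ 2) := by
  obtain ⟨s, hs⟩ : ∃ s, s = u - (-3) := ⟨_, rfl⟩
  obtain ⟨t, ht⟩ : ∃ t, t = -2 - u := ⟨_, rfl⟩
  have hs0 : 0 ≤ s := by linarith
  have ht0 : 0 ≤ t := by linarith
  have h : 0 ≤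
      286006331 / 100000000 * t ^ 4 + 273617861 / 30000000 * s * t ^ 3 +
      1071366233 / 100000000 * s ^ 2 * t ^ 2 + 27528959 / 5000000 * s ^ 3 * t +
      26175559 / 25000000 * s ^ 4 := by
    positivity
  have e :
      286006331 / 100000000 * t ^ 4 + 273617861 / 30000000 * s * t ^ 3 +
      1071366233 / 100000000 * s ^ 2 * t ^ 2 + 27528959 / 5000000 * s ^ 3 * t +
      26175559 / 25000000 * s ^ 4 =
      (1 + 1 / 500 + (1 / 500) ^ 2 / 2) * (1 + u + 109 / 200 * u ^ 2) -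
      (13534 / 100000 *
      (1 + (u + 2) + (u + 2) ^ 2 / 2 + (u + 2) ^ 3 / 6 + (u + 2) ^ 4 / 24)) := by
    rw [hs, ht]
    ring
  rw [e] at h
  linarith

theorem ev_six_e30_d (u : ℝ) (h2 : u ≤ -3) :
    4979 / 100000 ≤
      (1 + 1 / 500 + (1 / 500) ^ 2 / 2) * (1 + u + 109 / 200 * u ^ 2) := by
  obtain ⟨s, hs⟩ : ∃ s, s = -3 - u := ⟨_, rfl⟩
  have hs0 : 0 ≤ s := by linarith
  have h : 0 ≤
      286102581 / 100000000 + 113727227 / 50000000 * s + 54609109 / 100000000 * s ^ 2 := by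
    positivity
  have e :
      286102581 / 100000000 + 113727227 / 50000000 * s + 54609109 / 100000000 * s ^ 2 =
      (1 + 1 / 500 + (1 / 500) ^ 2 / 2) * (1 + u + 109 / 200 * u ^ 2) -
      (4979 / 100000) := by
    rw [hs]
    ring
  rw [e] at h
  linarith

theorem ev_six_e30_e0 (u : ℝ) (h1 : 0 ≤ u) (h2 : u ≤ 1 / 3) :
    1 + u + u ^ 2 / 2 + u ^ 3 / 6 + u ^ 4 / 24 + u ^ 5 / 100 ≤
      (1 + 1 / 500 + (1 / 500) ^ 2 / 2) * ((1 + 1 / 25 * u ^ 2) *
      (1 + u + 109 / 200 * u ^ 2)) := by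
  obtain ⟨s, hs⟩ : ∃ s, s = u - (0) := ⟨_, rfl⟩
  obtain ⟨t, ht⟩ : ∃ t, t = 1 / 3 - u := ⟨_, rfl⟩
  have hs0 : 0 ≤ s := by linarith
  have ht0 : 0 ≤ t := by linarith
  have h : 0 ≤
      243243 / 500000 * t ^ 5 + 81081 / 31250 * s * t ^ 4 +
      784012959 / 100000000 * s ^ 2 * t ^ 3 + 1167841749 / 100000000 * s ^ 3 * t ^ 2 +
      4826821963 / 625000000 * s ^ 4 * t + 2208151551 / 1250000000 * s ^ 5 := by
    positivity
  have e :
      243243 / 500000 * t ^ 5 + 81081 / 31250 * s * t ^ 4 +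
      784012959 / 100000000 * s ^ 2 * t ^ 3 + 1167841749 / 100000000 * s ^ 3 * t ^ 2 +
      4826821963 / 625000000 * s ^ 4 * t + 2208151551 / 1250000000 * s ^ 5 =
      (1 + 1 / 500 + (1 / 500) ^ 2 / 2) * ((1 + 1 / 25 * u ^ 2) *
      (1 + u + 109 / 200 * u ^ 2)) -
      (1 + u + u ^ 2 / 2 + u ^ 3 / 6 + u ^ 4 / 24 + u ^ 5 / 100) := by
    rw [hs, ht]
    ring
  rw [e] at h
  linarith

theorem ev_six_e30_g0 (u : ℝ) (h1 : 1 / 3 ≤ u) (h2 : u ≤ 5 / 3) :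
    69781 / 50000 * (1 + (u - 1 / 3) / 6) ^ 6 ≤
      (1 + 1 / 500 + (1 / 500) ^ 2 / 2) * ((1 + (1 / 25 * u ^ 2) + (1 / 25 * u ^ 2) ^ 2 / 2 +
      (1 / 25 * u ^ 2) ^ 3 / 6) *
      (1 + u + 109 / 200 * u ^ 2)) := by
  obtain ⟨s, hs⟩ : ∃ s, s = u - (1 / 3) := ⟨_, rfl⟩
  obtain ⟨t, ht⟩ : ∃ t, t = 5 / 3 - u := ⟨_, rfl⟩
  have hs0 : 0 ≤ s := by linarith
  have ht0 : 0 ≤ t := by linarith
  have h : 0 ≤
      27989585397349 / 38400000000000000 * t ^ 8 +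
      118144573125199 / 15360000000000000 * s * t ^ 7 +
      135631379845979 / 3072000000000000 * s ^ 2 * t ^ 6 +
      80178989336983 / 614400000000000 * s ^ 3 * t ^ 5 +
      25945073033711 / 122880000000000 * s ^ 4 * t ^ 4 +
      1593114868679 / 8192000000000 * s ^ 5 * t ^ 3 +
      13360839060067 / 132710400000000 * s ^ 6 * t ^ 2 +
      5715901331 / 212336640000 * s ^ 7 * t + 15343099777 / 5308416000000 * s ^ 8 := by
    positivity
  have e :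
      27989585397349 / 38400000000000000 * t ^ 8 +
      118144573125199 / 15360000000000000 * s * t ^ 7 +
      135631379845979 / 3072000000000000 * s ^ 2 * t ^ 6 +
      80178989336983 / 614400000000000 * s ^ 3 * t ^ 5 +
      25945073033711 / 122880000000000 * s ^ 4 * t ^ 4 +
      1593114868679 / 8192000000000 * s ^ 5 * t ^ 3 +
      13360839060067 / 132710400000000 * s ^ 6 * t ^ 2 +
      5715901331 / 212336640000 * s ^ 7 * t + 15343099777 / 5308416000000 * s ^ 8 =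
      (1 + 1 / 500 + (1 / 500) ^ 2 / 2) * ((1 + (1 / 25 * u ^ 2) + (1 / 25 * u ^ 2) ^ 2 / 2 +
      (1 / 25 * u ^ 2) ^ 3 / 6) *
      (1 + u + 109 / 200 * u ^ 2)) -
      (69781 / 50000 * (1 + (u - 1 / 3) / 6) ^ 6) := by
    rw [hs, ht]
    ring
  rw [e] at h
  linarith

theorem ev_six_e30_g1 (u : ℝ) (h1 : 5 / 3 ≤ u) (h2 : u ≤ 7 / 3) :
    69781 / 50000 * (1 + (u - 1 / 3) / 6) ^ 6 ≤
      (1 + 1 / 500 + (1 / 500) ^ 2 / 2) * ((1 + (1 / 25 * u ^ 2) + (1 / 25 * u ^ 2) ^ 2 / 2 +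
      (1 / 25 * u ^ 2) ^ 3 / 6) *
      (1 + u + 109 / 200 * u ^ 2)) := by
  obtain ⟨s, hs⟩ : ∃ s, s = u - (5 / 3) := ⟨_, rfl⟩
  obtain ⟨t, ht⟩ : ∃ t, t = 7 / 3 - u := ⟨_, rfl⟩
  have hs0 : 0 ≤ s := by linarith
  have ht0 : 0 ≤ t := by linarith
  have h : 0 ≤
      15343099777 / 20736000000 * t ^ 8 + 225336861373 / 41472000000 * s * t ^ 7 +
      1093786333931 / 64800000000 * s ^ 2 * t ^ 6 +
      16592356813171 / 576000000000 * s ^ 3 * t ^ 5 +
      4697862821457 / 160000000000 * s ^ 4 * t ^ 4 +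
      29213056712199 / 1600000000000 * s ^ 5 * t ^ 3 +
      41173685382073 / 6000000000000 * s ^ 6 * t ^ 2 +
      183304521953639 / 120000000000000 * s ^ 7 * t + 6828031240531 / 37500000000000 * s ^ 8 := by
    positivity
  have e :
      15343099777 / 20736000000 * t ^ 8 + 225336861373 / 41472000000 * s * t ^ 7 +
      1093786333931 / 64800000000 * s ^ 2 * t ^ 6 +
      16592356813171 / 576000000000 * s ^ 3 * t ^ 5 +
      4697862821457 / 160000000000 * s ^ 4 * t ^ 4 +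
      29213056712199 / 1600000000000 * s ^ 5 * t ^ 3 +
      41173685382073 / 6000000000000 * s ^ 6 * t ^ 2 +
      183304521953639 / 120000000000000 * s ^ 7 * t + 6828031240531 / 37500000000000 * s ^ 8 =
      (1 + 1 / 500 + (1 / 500) ^ 2 / 2) * ((1 + (1 / 25 * u ^ 2) + (1 / 25 * u ^ 2) ^ 2 / 2 +
      (1 / 25 * u ^ 2) ^ 3 / 6) *
      (1 + u + 109 / 200 * u ^ 2)) -
      (69781 / 50000 * (1 + (u - 1 / 3) / 6) ^ 6) := by
    rw [hs, ht]
    ring
  rw [e] at h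
  linarith

theorem ev_six_e30_g2 (u : ℝ) (h1 : 7 / 3 ≤ u) (h2 : u ≤ 3) :
    69781 / 50000 * (1 + (u - 1 / 3) / 6) ^ 6 ≤
      (1 + 1 / 500 + (1 / 500) ^ 2 / 2) * ((1 + (1 / 25 * u ^ 2) + (1 / 25 * u ^ 2) ^ 2 / 2 +
      (1 / 25 * u ^ 2) ^ 3 / 6) *
      (1 + u + 109 / 200 * u ^ 2)) := by
  obtain ⟨s, hs⟩ : ∃ s, s = u - (7 / 3) := ⟨_, rfl⟩
  obtain ⟨t, ht⟩ : ∃ t, t = 3 - u := ⟨_, rfl⟩
  have hs0 : 0 ≤ s := by linarith
  have ht0 : 0 ≤ t := by linarith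
  have h : 0 ≤
      6828031240531 / 37500000000000 * t ^ 8 +
      277151129269247 / 200000000000000 * s * t ^ 7 +
      586980664080687 / 100000000000000 * s ^ 2 * t ^ 6 +
      10408954903010803 / 600000000000000 * s ^ 3 * t ^ 5 +
      347368738289607 / 10000000000000 * s ^ 4 * t ^ 4 +
      80267835955466521 / 1800000000000000 * s ^ 5 * t ^ 3 +
      281879201569134067 / 8100000000000000 * s ^ 6 * t ^ 2 +
      243026840773223263 / 16200000000000000 * s ^ 7 * t +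
      2774509146540677 / 1012500000000000 * s ^ 8 := by
    positivity
  have e :
      6828031240531 / 37500000000000 * t ^ 8 +
      277151129269247 / 200000000000000 * s * t ^ 7 +
      586980664080687 / 100000000000000 * s ^ 2 * t ^ 6 +
      10408954903010803 / 600000000000000 * s ^ 3 * t ^ 5 +
      347368738289607 / 10000000000000 * s ^ 4 * t ^ 4 +
      80267835955466521 / 1800000000000000 * s ^ 5 * t ^ 3 +
      281879201569134067 / 8100000000000000 * s ^ 6 * t ^ 2 +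
      243026840773223263 / 16200000000000000 * s ^ 7 * t +
      2774509146540677 / 1012500000000000 * s ^ 8 =
      (1 + 1 / 500 + (1 / 500) ^ 2 / 2) * ((1 + (1 / 25 * u ^ 2) + (1 / 25 * u ^ 2) ^ 2 / 2 +
      (1 / 25 * u ^ 2) ^ 3 / 6) *
      (1 + u + 109 / 200 * u ^ 2)) -
      (69781 / 50000 * (1 + (u - 1 / 3) / 6) ^ 6) := by
    rw [hs, ht]
    ring
  rw [e] at h
  linarith

theorem ev_six_e30_t (u : ℝ) (h1 : 3 ≤ u) :
    69781 / 50000 * (1 + (u - 1 / 3) / 6) ^ 6 ≤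
      (1 + 1 / 500 + (1 / 500) ^ 2 / 2) * ((1 + (1 / 25 * u ^ 2) + (1 / 25 * u ^ 2) ^ 2 / 2 +
      (1 / 25 * u ^ 2) ^ 3 / 6) *
      (1 + u + 109 / 200 * u ^ 2)) := by
  obtain ⟨s, hs⟩ : ∃ s, s = u - (3) := ⟨_, rfl⟩
  have hs0 : 0 ≤ s := by linarith
  have h : 0 ≤
      2774509146540677 / 25949267578125000 + 37370109994661131 / 92264062500000000 * s +
      35183538458642863 / 61509375000000000 * s ^ 2 +
      5317054286646023 / 15377343750000000 * s ^ 3 +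
      142860036165599 / 1366875000000000 * s ^ 4 + 5162691387343 / 284765625000000 * s ^ 5 +
      9613638343273 / 4556250000000000 * s ^ 6 + 5511011 / 36621093750 * s ^ 7 +
      54609109 / 9375000000000 * s ^ 8 := by
    positivity
  have e :
      2774509146540677 / 25949267578125000 + 37370109994661131 / 92264062500000000 * s +
      35183538458642863 / 61509375000000000 * s ^ 2 +
      5317054286646023 / 15377343750000000 * s ^ 3 +
      142860036165599 / 1366875000000000 * s ^ 4 + 5162691387343 / 284765625000000 * s ^ 5 +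
      9613638343273 / 4556250000000000 * s ^ 6 + 5511011 / 36621093750 * s ^ 7 +
      54609109 / 9375000000000 * s ^ 8 =
      (1 + 1 / 500 + (1 / 500) ^ 2 / 2) * ((1 + (1 / 25 * u ^ 2) + (1 / 25 * u ^ 2) ^ 2 / 2 +
      (1 / 25 * u ^ 2) ^ 3 / 6) *
      (1 + u + 109 / 200 * u ^ 2)) -
      (69781 / 50000 * (1 + (u - 1 / 3) / 6) ^ 6) := by
    rw [hs]
    ring
  rw [e] at h
  linarith

/-- `K = 6`: `(c, μ, P, δ) = (109 / 200, 1 / 25, 1 / 3, 1 / 500)` -/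
theorem expFd_six_e30 : ExpFd 6 (109 / 200) (1 / 25) (1 / 3) (1 / 500) := by
  have hde : (1 + 1 / 500 + (1 / 500) ^ 2 / 2) ≤ Real.exp (1 / 500) :=
    Real.quadratic_le_exp_of_nonneg (by norm_num)
  have hq : ∀ u : ℝ, 0 ≤ 1 + u + 109 / 200 * u ^ 2 := fun u => by
    nlinarith [sq_nonneg (u + 2), sq_nonneg u]
  have hR : ∀ (u x y : ℝ), x ≤ y →
      y ≤ (1 + 1 / 500 + (1 / 500) ^ 2 / 2) * (1 + u + 109 / 200 * u ^ 2) →
      x ≤ Real.exp (1 / 500) * (1 + u + 109 / 200 * u ^ 2) := fun u x y h1 h2 =>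
    (h1.trans h2).trans (mul_le_mul_of_nonneg_right hde (hq u))
  refine ExpFd.of (by norm_num) (by norm_num) (by norm_num) (by norm_num) (by norm_num) ?_ ?_ ?_
  · intro u h1
    rcases le_total u (-3) with h3 | h3
    · exact hR u _ _ (ev_exp_n3 h3) (ev_six_e30_d u h3)
    rcases le_total u (-2) with h4 | h4
    · refine hR u _ _ (ev_exp_n2 h4) ?_
      exact ev_six_e30_c0 u (by linarith) (by linarith)
    rcases le_total u (-1) with h5 | h5
    · refine hR u _ _ (ev_exp_n1 h5) ?_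
      exact ev_six_e30_b0 u (by linarith) (by linarith)
    refine hR u _ _ (ev_exp_n0 h1) ?_
    exact ev_six_e30_a0 u (by linarith) (by linarith)
  · intro u h1 h2
    have h5 := mul_le_mul_of_nonneg_right (Real.add_one_le_exp (1 / 25 * u ^ 2)) (hq u)
    rw [add_comm (1 / 25 * u ^ 2) 1] at h5
    have h6 : 0 ≤ Real.exp (1 / 25 * u ^ 2) * (1 + u + 109 / 200 * u ^ 2) :=
      mul_nonneg (Real.exp_nonneg _) (hq u)
    rw [Real.exp_add, mul_assoc]
    refine ((ev_exp_p h1 (by linarith)).trans ?_).trans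
      ((mul_le_mul_of_nonneg_left h5
        (by norm_num : (0 : ℝ) ≤ (1 + 1 / 500 + (1 / 500) ^ 2 / 2))).trans
        (mul_le_mul_of_nonneg_right hde h6))
    exact ev_six_e30_e0 u (by linarith) (by linarith)
  · intro u h1
    have h4 : 0 ≤ (1 + (u - 1 / 3) / 6) ^ 6 := by
      have : 0 ≤ (u - 1 / 3) / 6 := div_nonneg (by linarith) (by norm_num)
      positivity
    have hE : Real.exp (1 / 3) ≤ 69781 / 50000 := ev_up_1_3
    have hx : 0 ≤ 1 / 25 * u ^ 2 := by positivity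
    have h5 := mul_le_mul_of_nonneg_right (taylor3_le_expE _ hx) (hq u)
    have h6 : 0 ≤ Real.exp (1 / 25 * u ^ 2) * (1 + u + 109 / 200 * u ^ 2) :=
      mul_nonneg (Real.exp_nonneg _) (hq u)
    rw [Real.exp_add, mul_assoc]
    push_cast
    refine ((mul_le_mul_of_nonneg_right hE h4).trans ?_).trans
      ((mul_le_mul_of_nonneg_left h5
        (by norm_num : (0 : ℝ) ≤ (1 + 1 / 500 + (1 / 500) ^ 2 / 2))).trans
        (mul_le_mul_of_nonneg_right hde h6))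
    rcases le_total u (5 / 3) with hh | hh
    · exact ev_six_e30_g0 u (by linarith) (by linarith)
    rcases le_total u (7 / 3) with hh | hh
    · exact ev_six_e30_g1 u (by linarith) (by linarith)
    rcases le_total u (3) with hh | hh
    · exact ev_six_e30_g2 u (by linarith) (by linarith)
    exact ev_six_e30_t u (by linarith)

theorem ev_six_e31_a0 (u : ℝ) (h1 : -1 ≤ u) (h2 : u ≤ 0) :
    1 + u + u ^ 2 / 2 + u ^ 3 / 6 + u ^ 4 / 24 ≤
      (1 + 1 / 200 + (1 / 200) ^ 2 / 2) * (1 + u + 513 / 1000 * u ^ 2) := by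
  obtain ⟨s, hs⟩ : ∃ s, s = u - (-1) := ⟨_, rfl⟩
  obtain ⟨t, ht⟩ : ∃ t, t = 0 - u := ⟨_, rfl⟩
  have hs0 : 0 ≤ s := by linarith
  have ht0 : 0 ≤ t := by linarith
  have h : 0 ≤
      11245713 / 80000000 * t ^ 4 + 24338639 / 120000000 * s * t ^ 3 +
      2448713 / 80000000 * s ^ 2 * t ^ 2 + 1203 / 80000 * s ^ 3 * t + 401 / 80000 * s ^ 4 := by
    positivity
  have e :
      11245713 / 80000000 * t ^ 4 + 24338639 / 120000000 * s * t ^ 3 +
      2448713 / 80000000 * s ^ 2 * t ^ 2 + 1203 / 80000 * s ^ 3 * t + 401 / 80000 * s ^ 4 =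
      (1 + 1 / 200 + (1 / 200) ^ 2 / 2) * (1 + u + 513 / 1000 * u ^ 2) -
      (1 + u + u ^ 2 / 2 + u ^ 3 / 6 + u ^ 4 / 24) := by
    rw [hs, ht]
    ring
  rw [e] at h
  linarith

theorem ev_six_e31_b0 (u : ℝ) (h1 : -2 ≤ u) (h2 : u ≤ -1) :
    36788 / 100000 *
      (1 + (u + 1) + (u + 1) ^ 2 / 2 + (u + 1) ^ 3 / 6 + (u + 1) ^ 4 / 24) ≤
      (1 + 1 / 200 + (1 / 200) ^ 2 / 2) * (1 + u + 513 / 1000 * u ^ 2) := by
  obtain ⟨s, hs⟩ : ∃ s, s = u - (-2) := ⟨_, rfl⟩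
  obtain ⟨t, ht⟩ : ∃ t, t = -1 - u := ⟨_, rfl⟩
  have hs0 : 0 ≤ s := by linarith
  have ht0 : 0 ≤ t := by linarith
  have h : 0 ≤
      18386363 / 20000000 * t ^ 4 + 149842367 / 60000000 * s * t ^ 3 +
      191984869 / 80000000 * s ^ 2 * t ^ 2 + 39391039 / 40000000 * s ^ 3 * t +
      11815313 / 80000000 * s ^ 4 := by
    positivity
  have e :
      18386363 / 20000000 * t ^ 4 + 149842367 / 60000000 * s * t ^ 3 +
      191984869 / 80000000 * s ^ 2 * t ^ 2 + 39391039 / 40000000 * s ^ 3 * t +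
      11815313 / 80000000 * s ^ 4 =
      (1 + 1 / 200 + (1 / 200) ^ 2 / 2) * (1 + u + 513 / 1000 * u ^ 2) -
      (36788 / 100000 *
      (1 + (u + 1) + (u + 1) ^ 2 / 2 + (u + 1) ^ 3 / 6 + (u + 1) ^ 4 / 24)) := by
    rw [hs, ht]
    ring
  rw [e] at h
  linarith

theorem ev_six_e31_c0 (u : ℝ) (h1 : -3 ≤ u) (h2 : u ≤ -2) :
    13534 / 100000 *
      (1 + (u + 2) + (u + 2) ^ 2 / 2 + (u + 2) ^ 3 / 6 + (u + 2) ^ 4 / 24) ≤
      (1 + 1 / 200 + (1 / 200) ^ 2 / 2) * (1 + u + 513 / 1000 * u ^ 2) := by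
  obtain ⟨s, hs⟩ : ∃ s, s = u - (-3) := ⟨_, rfl⟩
  obtain ⟨t, ht⟩ : ∃ t, t = -2 - u := ⟨_, rfl⟩
  have hs0 : 0 ≤ s := by linarith
  have ht0 : 0 ≤ t := by linarith
  have h : 0 ≤
      206349217 / 80000000 * t ^ 4 + 196414357 / 24000000 * s * t ^ 3 +
      764587181 / 80000000 * s ^ 2 * t ^ 2 + 19521383 / 4000000 * s ^ 3 * t +
      18438663 / 20000000 * s ^ 4 := by
    positivity
  have e :
      206349217 / 80000000 * t ^ 4 + 196414357 / 24000000 * s * t ^ 3 +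
      764587181 / 80000000 * s ^ 2 * t ^ 2 + 19521383 / 4000000 * s ^ 3 * t +
      18438663 / 20000000 * s ^ 4 =
      (1 + 1 / 200 + (1 / 200) ^ 2 / 2) * (1 + u + 513 / 1000 * u ^ 2) -
      (13534 / 100000 *
      (1 + (u + 2) + (u + 2) ^ 2 / 2 + (u + 2) ^ 3 / 6 + (u + 2) ^ 4 / 24)) := by
    rw [hs, ht]
    ring
  rw [e] at h
  linarith

theorem ev_six_e31_d (u : ℝ) (h2 : u ≤ -3) :
    4979 / 100000 ≤
      (1 + 1 / 200 + (1 / 200) ^ 2 / 2) * (1 + u + 513 / 1000 * u ^ 2) := by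
  obtain ⟨s, hs⟩ : ∃ s, s = -3 - u := ⟨_, rfl⟩
  have hs0 : 0 ≤ s := by linarith
  have h : 0 ≤
      206426217 / 80000000 + 83536639 / 40000000 * s + 41245713 / 80000000 * s ^ 2 := by
    positivity
  have e :
      206426217 / 80000000 + 83536639 / 40000000 * s + 41245713 / 80000000 * s ^ 2 =
      (1 + 1 / 200 + (1 / 200) ^ 2 / 2) * (1 + u + 513 / 1000 * u ^ 2) -
      (4979 / 100000) := by
    rw [hs]
    ring
  rw [e] at h
  linarith

theorem ev_six_e31_e0 (u : ℝ) (h1 : 0 ≤ u) (h2 : u ≤ 1 / 3) :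
    1 + u + u ^ 2 / 2 + u ^ 3 / 6 + u ^ 4 / 24 + u ^ 5 / 100 ≤
      (1 + 1 / 200 + (1 / 200) ^ 2 / 2) * ((1 + 9 / 200 * u ^ 2) *
      (1 + u + 513 / 1000 * u ^ 2)) := by
  obtain ⟨s, hs⟩ : ∃ s, s = u - (0) := ⟨_, rfl⟩
  obtain ⟨t, ht⟩ : ∃ t, t = 1 / 3 - u := ⟨_, rfl⟩
  have hs0 : 0 ≤ s := by linarith
  have ht0 : 0 ≤ t := by linarith
  have h : 0 ≤
      97443 / 80000 * t ^ 5 + 32481 / 5000 * s * t ^ 4 +
      617837733 / 40000000 * s ^ 2 * t ^ 3 + 1475842803 / 80000000 * s ^ 3 * t ^ 2 +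
      166359275851 / 16000000000 * s ^ 4 * t + 33715208451 / 16000000000 * s ^ 5 := by
    positivity
  have e :
      97443 / 80000 * t ^ 5 + 32481 / 5000 * s * t ^ 4 +
      617837733 / 40000000 * s ^ 2 * t ^ 3 + 1475842803 / 80000000 * s ^ 3 * t ^ 2 +
      166359275851 / 16000000000 * s ^ 4 * t + 33715208451 / 16000000000 * s ^ 5 =
      (1 + 1 / 200 + (1 / 200) ^ 2 / 2) * ((1 + 9 / 200 * u ^ 2) *
      (1 + u + 513 / 1000 * u ^ 2)) -
      (1 + u + u ^ 2 / 2 + u ^ 3 / 6 + u ^ 4 / 24 + u ^ 5 / 100) := by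
    rw [hs, ht]
    ring
  rw [e] at h
  linarith

theorem ev_six_e31_g0 (u : ℝ) (h1 : 1 / 3 ≤ u) (h2 : u ≤ 2) :
    69781 / 50000 * (1 + (u - 1 / 3) / 6) ^ 6 ≤
      (1 + 1 / 200 + (1 / 200) ^ 2 / 2) * ((1 + (9 / 200 * u ^ 2) + (9 / 200 * u ^ 2) ^ 2 / 2 +
      (9 / 200 * u ^ 2) ^ 3 / 6) *
      (1 + u + 513 / 1000 * u ^ 2)) := by
  obtain ⟨s, hs⟩ : ∃ s, s = u - (1 / 3) := ⟨_, rfl⟩
  obtain ⟨t, ht⟩ : ∃ t, t = 2 - u := ⟨_, rfl⟩
  have hs0 : 0 ≤ s := by linarith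
  have ht0 : 0 ≤ t := by linarith
  have h : 0 ≤
      72948968340739659 / 500000000000000000000 * t ^ 8 +
      76442021608279329 / 62500000000000000000 * s * t ^ 7 +
      49966296287872473 / 7812500000000000000 * s ^ 2 * t ^ 6 +
      264978556816147227 / 15625000000000000000 * s ^ 3 * t ^ 5 +
      71365862440222653 / 3125000000000000000 * s ^ 4 * t ^ 4 +
      178933558019054129 / 11718750000000000000 * s ^ 5 * t ^ 3 +
      167661410366301353 / 39550781250000000000 * s ^ 6 * t ^ 2 +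
      18030387519923621 / 79101562500000000000 * s ^ 7 * t +
      10862894979957119 / 158203125000000000000 * s ^ 8 := by
    positivity
  have e :
      72948968340739659 / 500000000000000000000 * t ^ 8 +
      76442021608279329 / 62500000000000000000 * s * t ^ 7 +
      49966296287872473 / 7812500000000000000 * s ^ 2 * t ^ 6 +
      264978556816147227 / 15625000000000000000 * s ^ 3 * t ^ 5 +
      71365862440222653 / 3125000000000000000 * s ^ 4 * t ^ 4 +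
      178933558019054129 / 11718750000000000000 * s ^ 5 * t ^ 3 +
      167661410366301353 / 39550781250000000000 * s ^ 6 * t ^ 2 +
      18030387519923621 / 79101562500000000000 * s ^ 7 * t +
      10862894979957119 / 158203125000000000000 * s ^ 8 =
      (1 + 1 / 200 + (1 / 200) ^ 2 / 2) * ((1 + (9 / 200 * u ^ 2) + (9 / 200 * u ^ 2) ^ 2 / 2 +
      (9 / 200 * u ^ 2) ^ 3 / 6) *
      (1 + u + 513 / 1000 * u ^ 2)) -
      (69781 / 50000 * (1 + (u - 1 / 3) / 6) ^ 6) := by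
    rw [hs, ht]
    ring
  rw [e] at h
  linarith

theorem ev_six_e31_t (u : ℝ) (h1 : 2 ≤ u) :
    69781 / 50000 * (1 + (u - 1 / 3) / 6) ^ 6 ≤
      (1 + 1 / 200 + (1 / 200) ^ 2 / 2) * ((1 + (9 / 200 * u ^ 2) + (9 / 200 * u ^ 2) ^ 2 / 2 +
      (9 / 200 * u ^ 2) ^ 3 / 6) *
      (1 + u + 513 / 1000 * u ^ 2)) := by
  obtain ⟨s, hs⟩ : ∃ s, s = u - (2) := ⟨_, rfl⟩
  have hs0 : 0 ≤ s := by linarith
  have h : 0 ≤
      10862894979957119 / 2657205000000000000 + 1694746159993657 / 147622500000000000 * s +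
      4815875170833827 / 49207500000000000 * s ^ 2 +
      23349066537196933 / 196830000000000000 * s ^ 3 +
      932558305220731 / 17496000000000000 * s ^ 4 +
      317232422908879 / 29160000000000000 * s ^ 5 +
      46598976391351 / 29160000000000000 * s ^ 6 + 22487596893 / 160000000000000 * s ^ 7 +
      10022708259 / 1280000000000000 * s ^ 8 := by
    positivity
  have e :
      10862894979957119 / 2657205000000000000 + 1694746159993657 / 147622500000000000 * s +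
      4815875170833827 / 49207500000000000 * s ^ 2 +
      23349066537196933 / 196830000000000000 * s ^ 3 +
      932558305220731 / 17496000000000000 * s ^ 4 +
      317232422908879 / 29160000000000000 * s ^ 5 +
      46598976391351 / 29160000000000000 * s ^ 6 + 22487596893 / 160000000000000 * s ^ 7 +
      10022708259 / 1280000000000000 * s ^ 8 =
      (1 + 1 / 200 + (1 / 200) ^ 2 / 2) * ((1 + (9 / 200 * u ^ 2) + (9 / 200 * u ^ 2) ^ 2 / 2 +
      (9 / 200 * u ^ 2) ^ 3 / 6) *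
      (1 + u + 513 / 1000 * u ^ 2)) -
      (69781 / 50000 * (1 + (u - 1 / 3) / 6) ^ 6) := by
    rw [hs]
    ring
  rw [e] at h
  linarith

/-- `K = 6`: `(c, μ, P, δ) = (513 / 1000, 9 / 200, 1 / 3, 1 / 200)` -/
theorem expFd_six_e31 : ExpFd 6 (513 / 1000) (9 / 200) (1 / 3) (1 / 200) := by
  have hde : (1 + 1 / 200 + (1 / 200) ^ 2 / 2) ≤ Real.exp (1 / 200) :=
    Real.quadratic_le_exp_of_nonneg (by norm_num)
  have hq : ∀ u : ℝ, 0 ≤ 1 + u + 513 / 1000 * u ^ 2 := fun u => by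
    nlinarith [sq_nonneg (u + 2), sq_nonneg u]
  have hR : ∀ (u x y : ℝ), x ≤ y →
      y ≤ (1 + 1 / 200 + (1 / 200) ^ 2 / 2) * (1 + u + 513 / 1000 * u ^ 2) →
      x ≤ Real.exp (1 / 200) * (1 + u + 513 / 1000 * u ^ 2) := fun u x y h1 h2 =>
    (h1.trans h2).trans (mul_le_mul_of_nonneg_right hde (hq u))
  refine ExpFd.of (by norm_num) (by norm_num) (by norm_num) (by norm_num) (by norm_num) ?_ ?_ ?_
  · intro u h1
    rcases le_total u (-3) with h3 | h3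
    · exact hR u _ _ (ev_exp_n3 h3) (ev_six_e31_d u h3)
    rcases le_total u (-2) with h4 | h4
    · refine hR u _ _ (ev_exp_n2 h4) ?_
      exact ev_six_e31_c0 u (by linarith) (by linarith)
    rcases le_total u (-1) with h5 | h5
    · refine hR u _ _ (ev_exp_n1 h5) ?_
      exact ev_six_e31_b0 u (by linarith) (by linarith)
    refine hR u _ _ (ev_exp_n0 h1) ?_
    exact ev_six_e31_a0 u (by linarith) (by linarith)
  · intro u h1 h2
    have h5 := mul_le_mul_of_nonneg_right (Real.add_one_le_exp (9 / 200 * u ^ 2)) (hq u)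
    rw [add_comm (9 / 200 * u ^ 2) 1] at h5
    have h6 : 0 ≤ Real.exp (9 / 200 * u ^ 2) * (1 + u + 513 / 1000 * u ^ 2) :=
      mul_nonneg (Real.exp_nonneg _) (hq u)
    rw [Real.exp_add, mul_assoc]
    refine ((ev_exp_p h1 (by linarith)).trans ?_).trans
      ((mul_le_mul_of_nonneg_left h5
        (by norm_num : (0 : ℝ) ≤ (1 + 1 / 200 + (1 / 200) ^ 2 / 2))).trans
        (mul_le_mul_of_nonneg_right hde h6))
    exact ev_six_e31_e0 u (by linarith) (by linarith)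
  · intro u h1
    have h4 : 0 ≤ (1 + (u - 1 / 3) / 6) ^ 6 := by
      have : 0 ≤ (u - 1 / 3) / 6 := div_nonneg (by linarith) (by norm_num)
      positivity
    have hE : Real.exp (1 / 3) ≤ 69781 / 50000 := ev_up_1_3
    have hx : 0 ≤ 9 / 200 * u ^ 2 := by positivity
    have h5 := mul_le_mul_of_nonneg_right (taylor3_le_expE _ hx) (hq u)
    have h6 : 0 ≤ Real.exp (9 / 200 * u ^ 2) * (1 + u + 513 / 1000 * u ^ 2) :=
      mul_nonneg (Real.exp_nonneg _) (hq u)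
    rw [Real.exp_add, mul_assoc]
    push_cast
    refine ((mul_le_mul_of_nonneg_right hE h4).trans ?_).trans
      ((mul_le_mul_of_nonneg_left h5
        (by norm_num : (0 : ℝ) ≤ (1 + 1 / 200 + (1 / 200) ^ 2 / 2))).trans
        (mul_le_mul_of_nonneg_right hde h6))
    rcases le_total u (2) with hh | hh
    · exact ev_six_e31_g0 u (by linarith) (by linarith)
    exact ev_six_e31_t u (by linarith)

theorem ev_six_e32_a0 (u : ℝ) (h1 : -1 ≤ u) (h2 : u ≤ 0) :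
    1 + u + u ^ 2 / 2 + u ^ 3 / 6 + u ^ 4 / 24 ≤
      (1 + 1 / 100 + (1 / 100) ^ 2 / 2) * (1 + u + 121 / 250 * u ^ 2) := by
  obtain ⟨s, hs⟩ : ∃ s, s = u - (-1) := ⟨_, rfl⟩
  obtain ⟨t, ht⟩ : ∃ t, t = 0 - u := ⟨_, rfl⟩
  have hs0 : 0 ≤ s := by linarith
  have ht0 : 0 ≤ t := by linarith
  have h : 0 ≤
      569321 / 5000000 * t ^ 4 + 579169 / 3750000 * s * t ^ 3 +
      95071 / 5000000 * s ^ 2 * t ^ 2 + 603 / 20000 * s ^ 3 * t + 201 / 20000 * s ^ 4 := by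
    positivity
  have e :
      569321 / 5000000 * t ^ 4 + 579169 / 3750000 * s * t ^ 3 +
      95071 / 5000000 * s ^ 2 * t ^ 2 + 603 / 20000 * s ^ 3 * t + 201 / 20000 * s ^ 4 =
      (1 + 1 / 100 + (1 / 100) ^ 2 / 2) * (1 + u + 121 / 250 * u ^ 2) -
      (1 + u + u ^ 2 / 2 + u ^ 3 / 6 + u ^ 4 / 24) := by
    rw [hs, ht]
    ring
  rw [e] at h
  linarith

theorem ev_six_e32_b0 (u : ℝ) (h1 : -2 ≤ u) (h2 : u ≤ -1) :
    36788 / 100000 *
      (1 + (u + 1) + (u + 1) ^ 2 / 2 + (u + 1) ^ 3 / 6 + (u + 1) ^ 4 / 24) ≤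
      (1 + 1 / 100 + (1 / 100) ^ 2 / 2) * (1 + u + 121 / 250 * u ^ 2) := by
  obtain ⟨s, hs⟩ : ∃ s, s = u - (-2) := ⟨_, rfl⟩
  obtain ⟨t, ht⟩ : ∃ t, t = -1 - u := ⟨_, rfl⟩
  have hs0 : 0 ≤ s := by linarith
  have ht0 : 0 ≤ t := by linarith
  have h : 0 ≤
      4037259 / 5000000 * t ^ 4 + 16213303 / 7500000 * s * t ^ 3 +
      10187523 / 5000000 * s ^ 2 * t ^ 2 + 1024369 / 1250000 * s ^ 3 * t +
      604921 / 5000000 * s ^ 4 := by
    positivity
  have e :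
      4037259 / 5000000 * t ^ 4 + 16213303 / 7500000 * s * t ^ 3 +
      10187523 / 5000000 * s ^ 2 * t ^ 2 + 1024369 / 1250000 * s ^ 3 * t +
      604921 / 5000000 * s ^ 4 =
      (1 + 1 / 100 + (1 / 100) ^ 2 / 2) * (1 + u + 121 / 250 * u ^ 2) -
      (36788 / 100000 *
      (1 + (u + 1) + (u + 1) ^ 2 / 2 + (u + 1) ^ 3 / 6 + (u + 1) ^ 4 / 24)) := by
    rw [hs, ht]
    ring
  rw [e] at h
  linarith

theorem ev_six_e32_c0 (u : ℝ) (h1 : -3 ≤ u) (h2 : u ≤ -2) :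
    13534 / 100000 *
      (1 + (u + 2) + (u + 2) ^ 2 / 2 + (u + 2) ^ 3 / 6 + (u + 2) ^ 4 / 24) ≤
      (1 + 1 / 100 + (1 / 100) ^ 2 / 2) * (1 + u + 121 / 250 * u ^ 2) := by
  obtain ⟨s, hs⟩ : ∃ s, s = u - (-3) := ⟨_, rfl⟩
  obtain ⟨t, ht⟩ : ∃ t, t = -2 - u := ⟨_, rfl⟩
  have hs0 : 0 ≤ s := by linarith
  have ht0 : 0 ≤ t := by linarith
  have h : 0 ≤
      23289253 / 10000000 * t ^ 4 + 11021179 / 1500000 * s * t ^ 3 +
      42619177 / 5000000 * s ^ 2 * t ^ 2 + 2160507 / 500000 * s ^ 3 * t +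
      2025167 / 2500000 * s ^ 4 := by
    positivity
  have e :
      23289253 / 10000000 * t ^ 4 + 11021179 / 1500000 * s * t ^ 3 +
      42619177 / 5000000 * s ^ 2 * t ^ 2 + 2160507 / 500000 * s ^ 3 * t +
      2025167 / 2500000 * s ^ 4 =
      (1 + 1 / 100 + (1 / 100) ^ 2 / 2) * (1 + u + 121 / 250 * u ^ 2) -
      (13534 / 100000 *
      (1 + (u + 2) + (u + 2) ^ 2 / 2 + (u + 2) ^ 3 / 6 + (u + 2) ^ 4 / 24)) := by
    rw [hs, ht]
    ring
  rw [e] at h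
  linarith

theorem ev_six_e32_d (u : ℝ) (h2 : u ≤ -3) :
    4979 / 100000 ≤
      (1 + 1 / 100 + (1 / 100) ^ 2 / 2) * (1 + u + 121 / 250 * u ^ 2) := by
  obtain ⟨s, hs⟩ : ∃ s, s = -3 - u := ⟨_, rfl⟩
  have hs0 : 0 ≤ s := by linarith
  have h : 0 ≤
      11649439 / 5000000 + 2403919 / 1250000 * s + 2444321 / 5000000 * s ^ 2 := by
    positivity
  have e :
      11649439 / 5000000 + 2403919 / 1250000 * s + 2444321 / 5000000 * s ^ 2 =
      (1 + 1 / 100 + (1 / 100) ^ 2 / 2) * (1 + u + 121 / 250 * u ^ 2) -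
      (4979 / 100000) := by
    rw [hs]
    ring
  rw [e] at h
  linarith

theorem ev_six_e32_e0 (u : ℝ) (h1 : 0 ≤ u) (h2 : u ≤ 1 / 3) :
    1 + u + u ^ 2 / 2 + u ^ 3 / 6 + u ^ 4 / 24 + u ^ 5 / 100 ≤
      (1 + 1 / 100 + (1 / 100) ^ 2 / 2) * ((1 + 1 / 20 * u ^ 2) *
      (1 + u + 121 / 250 * u ^ 2)) := by
  obtain ⟨s, hs⟩ : ∃ s, s = u - (0) := ⟨_, rfl⟩
  obtain ⟨t, ht⟩ : ∃ t, t = 1 / 3 - u := ⟨_, rfl⟩
  have hs0 : 0 ≤ s := by linarith
  have ht0 : 0 ≤ t := by linarith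
  have h : 0 ≤
      48843 / 20000 * t ^ 5 + 16281 / 1250 * s * t ^ 4 +
      287406009 / 10000000 * s ^ 2 * t ^ 3 + 78622563 / 2500000 * s ^ 3 * t ^ 2 +
      1651302733 / 100000000 * s ^ 4 * t + 321195303 / 100000000 * s ^ 5 := by
    positivity
  have e :
      48843 / 20000 * t ^ 5 + 16281 / 1250 * s * t ^ 4 +
      287406009 / 10000000 * s ^ 2 * t ^ 3 + 78622563 / 2500000 * s ^ 3 * t ^ 2 +
      1651302733 / 100000000 * s ^ 4 * t + 321195303 / 100000000 * s ^ 5 =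
      (1 + 1 / 100 + (1 / 100) ^ 2 / 2) * ((1 + 1 / 20 * u ^ 2) *
      (1 + u + 121 / 250 * u ^ 2)) -
      (1 + u + u ^ 2 / 2 + u ^ 3 / 6 + u ^ 4 / 24 + u ^ 5 / 100) := by
    rw [hs, ht]
    ring
  rw [e] at h
  linarith

theorem ev_six_e32_g0 (u : ℝ) (h1 : 1 / 3 ≤ u) (h2 : u ≤ 7 / 6) :
    69781 / 50000 * (1 + (u - 1 / 3) / 6) ^ 6 ≤
      (1 + 1 / 100 + (1 / 100) ^ 2 / 2) * ((1 + (1 / 20 * u ^ 2) + (1 / 20 * u ^ 2) ^ 2 / 2 +
      (1 / 20 * u ^ 2) ^ 3 / 6) *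
      (1 + u + 121 / 250 * u ^ 2)) := by
  obtain ⟨s, hs⟩ : ∃ s, s = u - (1 / 3) := ⟨_, rfl⟩
  obtain ⟨t, ht⟩ : ∃ t, t = 7 / 6 - u := ⟨_, rfl⟩
  have hs0 : 0 ≤ s := by linarith
  have ht0 : 0 ≤ t := by linarith
  have h : 0 ≤
      20843287435061 / 366210937500000 * t ^ 8 +
      159849392685383 / 366210937500000 * s * t ^ 7 +
      140964393868037 / 91552734375000 * s ^ 2 * t ^ 6 +
      4618980935564669 / 1464843750000000 * s ^ 3 * t ^ 5 +
      2337985039013027 / 585937500000000 * s ^ 4 * t ^ 4 +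
      18369905593062481 / 5859375000000000 * s ^ 5 * t ^ 3 +
      116658895837671523 / 79101562500000000 * s ^ 6 * t ^ 2 +
      238500766307291209 / 632812500000000000 * s ^ 7 * t +
      101673720520924847 / 2531250000000000000 * s ^ 8 := by
    positivity
  have e :
      20843287435061 / 366210937500000 * t ^ 8 +
      159849392685383 / 366210937500000 * s * t ^ 7 +
      140964393868037 / 91552734375000 * s ^ 2 * t ^ 6 +
      4618980935564669 / 1464843750000000 * s ^ 3 * t ^ 5 +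
      2337985039013027 / 585937500000000 * s ^ 4 * t ^ 4 +
      18369905593062481 / 5859375000000000 * s ^ 5 * t ^ 3 +
      116658895837671523 / 79101562500000000 * s ^ 6 * t ^ 2 +
      238500766307291209 / 632812500000000000 * s ^ 7 * t +
      101673720520924847 / 2531250000000000000 * s ^ 8 =
      (1 + 1 / 100 + (1 / 100) ^ 2 / 2) * ((1 + (1 / 20 * u ^ 2) + (1 / 20 * u ^ 2) ^ 2 / 2 +
      (1 / 20 * u ^ 2) ^ 3 / 6) *
      (1 + u + 121 / 250 * u ^ 2)) -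
      (69781 / 50000 * (1 + (u - 1 / 3) / 6) ^ 6) := by
    rw [hs, ht]
    ring
  rw [e] at h
  linarith

theorem ev_six_e32_g1 (u : ℝ) (h1 : 7 / 6 ≤ u) (h2 : u ≤ 2) :
    69781 / 50000 * (1 + (u - 1 / 3) / 6) ^ 6 ≤
      (1 + 1 / 100 + (1 / 100) ^ 2 / 2) * ((1 + (1 / 20 * u ^ 2) + (1 / 20 * u ^ 2) ^ 2 / 2 +
      (1 / 20 * u ^ 2) ^ 3 / 6) *
      (1 + u + 121 / 250 * u ^ 2)) := by
  obtain ⟨s, hs⟩ : ∃ s, s = u - (7 / 6) := ⟨_, rfl⟩
  obtain ⟨t, ht⟩ : ∃ t, t = 2 - u := ⟨_, rfl⟩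
  have hs0 : 0 ≤ s := by linarith
  have ht0 : 0 ≤ t := by linarith
  have h : 0 ≤
      101673720520924847 / 2531250000000000000 * t ^ 8 +
      168194115776408179 / 632812500000000000 * s * t ^ 7 +
      220562306492595487 / 316406250000000000 * s ^ 2 * t ^ 6 +
      35543532806052473 / 39550781250000000 * s ^ 3 * t ^ 5 +
      2313893647039621 / 3955078125000000 * s ^ 4 * t ^ 4 +
      623371657771493 / 2471923828125000 * s ^ 5 * t ^ 3 +
      1163492467140913 / 4943847656250000 * s ^ 6 * t ^ 2 +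
      252614101015697 / 1235961914062500 * s ^ 7 * t +
      78370287761719 / 1235961914062500 * s ^ 8 := by
    positivity
  have e :
      101673720520924847 / 2531250000000000000 * t ^ 8 +
      168194115776408179 / 632812500000000000 * s * t ^ 7 +
      220562306492595487 / 316406250000000000 * s ^ 2 * t ^ 6 +
      35543532806052473 / 39550781250000000 * s ^ 3 * t ^ 5 +
      2313893647039621 / 3955078125000000 * s ^ 4 * t ^ 4 +
      623371657771493 / 2471923828125000 * s ^ 5 * t ^ 3 +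
      1163492467140913 / 4943847656250000 * s ^ 6 * t ^ 2 +
      252614101015697 / 1235961914062500 * s ^ 7 * t +
      78370287761719 / 1235961914062500 * s ^ 8 =
      (1 + 1 / 100 + (1 / 100) ^ 2 / 2) * ((1 + (1 / 20 * u ^ 2) + (1 / 20 * u ^ 2) ^ 2 / 2 +
      (1 / 20 * u ^ 2) ^ 3 / 6) *
      (1 + u + 121 / 250 * u ^ 2)) -
      (69781 / 50000 * (1 + (u - 1 / 3) / 6) ^ 6) := by
    rw [hs, ht]
    ring
  rw [e] at h
  linarith

theorem ev_six_e32_t (u : ℝ) (h1 : 2 ≤ u) :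
    69781 / 50000 * (1 + (u - 1 / 3) / 6) ^ 6 ≤
      (1 + 1 / 100 + (1 / 100) ^ 2 / 2) * ((1 + (1 / 20 * u ^ 2) + (1 / 20 * u ^ 2) ^ 2 / 2 +
      (1 / 20 * u ^ 2) ^ 3 / 6) *
      (1 + u + 121 / 250 * u ^ 2)) := by
  obtain ⟨s, hs⟩ : ∃ s, s = u - (2) := ⟨_, rfl⟩
  have hs0 : 0 ≤ s := by linarith
  have h : 0 ≤
      78370287761719 / 5314410000000000 + 24956546738537 / 295245000000000 * s +
      38236931573519 / 196830000000000 * s ^ 2 + 2069571460609 / 12301875000000 * s ^ 3 +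
      293864072227 / 4374000000000 * s ^ 4 + 100619211313 / 7290000000000 * s ^ 5 +
      59413238383 / 29160000000000 * s ^ 6 + 22079693 / 120000000000 * s ^ 7 +
      2444321 / 240000000000 * s ^ 8 := by
    positivity
  have e :
      78370287761719 / 5314410000000000 + 24956546738537 / 295245000000000 * s +
      38236931573519 / 196830000000000 * s ^ 2 + 2069571460609 / 12301875000000 * s ^ 3 +
      293864072227 / 4374000000000 * s ^ 4 + 100619211313 / 7290000000000 * s ^ 5 +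
      59413238383 / 29160000000000 * s ^ 6 + 22079693 / 120000000000 * s ^ 7 +
      2444321 / 240000000000 * s ^ 8 =
      (1 + 1 / 100 + (1 / 100) ^ 2 / 2) * ((1 + (1 / 20 * u ^ 2) + (1 / 20 * u ^ 2) ^ 2 / 2 +
      (1 / 20 * u ^ 2) ^ 3 / 6) *
      (1 + u + 121 / 250 * u ^ 2)) -
      (69781 / 50000 * (1 + (u - 1 / 3) / 6) ^ 6) := by
    rw [hs]
    ring
  rw [e] at h
  linarith

/-- `K = 6`: `(c, μ, P, δ) = (121 / 250, 1 / 20, 1 / 3, 1 / 100)` -/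
theorem expFd_six_e32 : ExpFd 6 (121 / 250) (1 / 20) (1 / 3) (1 / 100) := by
  have hde : (1 + 1 / 100 + (1 / 100) ^ 2 / 2) ≤ Real.exp (1 / 100) :=
    Real.quadratic_le_exp_of_nonneg (by norm_num)
  have hq : ∀ u : ℝ, 0 ≤ 1 + u + 121 / 250 * u ^ 2 := fun u => by
    nlinarith [sq_nonneg (u + 2), sq_nonneg u]
  have hR : ∀ (u x y : ℝ), x ≤ y →
      y ≤ (1 + 1 / 100 + (1 / 100) ^ 2 / 2) * (1 + u + 121 / 250 * u ^ 2) →
      x ≤ Real.exp (1 / 100) * (1 + u + 121 / 250 * u ^ 2) := fun u x y h1 h2 =>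
    (h1.trans h2).trans (mul_le_mul_of_nonneg_right hde (hq u))
  refine ExpFd.of (by norm_num) (by norm_num) (by norm_num) (by norm_num) (by norm_num) ?_ ?_ ?_
  · intro u h1
    rcases le_total u (-3) with h3 | h3
    · exact hR u _ _ (ev_exp_n3 h3) (ev_six_e32_d u h3)
    rcases le_total u (-2) with h4 | h4
    · refine hR u _ _ (ev_exp_n2 h4) ?_
      exact ev_six_e32_c0 u (by linarith) (by linarith)
    rcases le_total u (-1) with h5 | h5
    · refine hR u _ _ (ev_exp_n1 h5) ?_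
      exact ev_six_e32_b0 u (by linarith) (by linarith)
    refine hR u _ _ (ev_exp_n0 h1) ?_
    exact ev_six_e32_a0 u (by linarith) (by linarith)
  · intro u h1 h2
    have h5 := mul_le_mul_of_nonneg_right (Real.add_one_le_exp (1 / 20 * u ^ 2)) (hq u)
    rw [add_comm (1 / 20 * u ^ 2) 1] at h5
    have h6 : 0 ≤ Real.exp (1 / 20 * u ^ 2) * (1 + u + 121 / 250 * u ^ 2) :=
      mul_nonneg (Real.exp_nonneg _) (hq u)
    rw [Real.exp_add, mul_assoc]
    refine ((ev_exp_p h1 (by linarith)).trans ?_).trans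
      ((mul_le_mul_of_nonneg_left h5
        (by norm_num : (0 : ℝ) ≤ (1 + 1 / 100 + (1 / 100) ^ 2 / 2))).trans
        (mul_le_mul_of_nonneg_right hde h6))
    exact ev_six_e32_e0 u (by linarith) (by linarith)
  · intro u h1
    have h4 : 0 ≤ (1 + (u - 1 / 3) / 6) ^ 6 := by
      have : 0 ≤ (u - 1 / 3) / 6 := div_nonneg (by linarith) (by norm_num)
      positivity
    have hE : Real.exp (1 / 3) ≤ 69781 / 50000 := ev_up_1_3
    have hx : 0 ≤ 1 / 20 * u ^ 2 := by positivity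
    have h5 := mul_le_mul_of_nonneg_right (taylor3_le_expE _ hx) (hq u)
    have h6 : 0 ≤ Real.exp (1 / 20 * u ^ 2) * (1 + u + 121 / 250 * u ^ 2) :=
      mul_nonneg (Real.exp_nonneg _) (hq u)
    rw [Real.exp_add, mul_assoc]
    push_cast
    refine ((mul_le_mul_of_nonneg_right hE h4).trans ?_).trans
      ((mul_le_mul_of_nonneg_left h5
        (by norm_num : (0 : ℝ) ≤ (1 + 1 / 100 + (1 / 100) ^ 2 / 2))).trans
        (mul_le_mul_of_nonneg_right hde h6))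
    rcases le_total u (7 / 6) with hh | hh
    · exact ev_six_e32_g0 u (by linarith) (by linarith)
    rcases le_total u (2) with hh | hh
    · exact ev_six_e32_g1 u (by linarith) (by linarith)
    exact ev_six_e32_t u (by linarith)

theorem ev_six_e33_a0 (u : ℝ) (h1 : -1 ≤ u) (h2 : u ≤ 0) :
    1 + u + u ^ 2 / 2 + u ^ 3 / 6 + u ^ 4 / 24 ≤
      (1 + 1 / 50 + (1 / 50) ^ 2 / 2) * (1 + u + 47 / 100 * u ^ 2) := by
  obtain ⟨s, hs⟩ : ∃ s, s = u - (-1) := ⟨_, rfl⟩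
  obtain ⟨t, ht⟩ : ∃ t, t = 0 - u := ⟨_, rfl⟩
  have hs0 : 0 ≤ s := by linarith
  have ht0 : 0 ≤ t := by linarith
  have h : 0 ≤
      52247 / 500000 * t ^ 4 + 109391 / 750000 * s * t ^ 3 + 20047 / 500000 * s ^ 2 * t ^ 2 +
      303 / 5000 * s ^ 3 * t + 101 / 5000 * s ^ 4 := by
    positivity
  have e :
      52247 / 500000 * t ^ 4 + 109391 / 750000 * s * t ^ 3 + 20047 / 500000 * s ^ 2 * t ^ 2 +
      303 / 5000 * s ^ 3 * t + 101 / 5000 * s ^ 4 =
      (1 + 1 / 50 + (1 / 50) ^ 2 / 2) * (1 + u + 47 / 100 * u ^ 2) -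
      (1 + u + u ^ 2 / 2 + u ^ 3 / 6 + u ^ 4 / 24) := by
    rw [hs, ht]
    ring
  rw [e] at h
  linarith

theorem ev_six_e33_b0 (u : ℝ) (h1 : -2 ≤ u) (h2 : u ≤ -1) :
    36788 / 100000 *
      (1 + (u + 1) + (u + 1) ^ 2 / 2 + (u + 1) ^ 3 / 6 + (u + 1) ^ 4 / 24) ≤
      (1 + 1 / 50 + (1 / 50) ^ 2 / 2) * (1 + u + 47 / 100 * u ^ 2) := by
  obtain ⟨s, hs⟩ : ∃ s, s = u - (-2) := ⟨_, rfl⟩
  obtain ⟨t, ht⟩ : ∃ t, t = -1 - u := ⟨_, rfl⟩
  have hs0 : 0 ≤ s := by linarith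
  have ht0 : 0 ≤ t := by linarith
  have h : 0 ≤
      759821 / 1000000 * t ^ 4 + 1514161 / 750000 * s * t ^ 3 +
      942621 / 500000 * s ^ 2 * t ^ 2 + 188281 / 250000 * s ^ 3 * t + 55807 / 500000 * s ^ 4 := by
    positivity
  have e :
      759821 / 1000000 * t ^ 4 + 1514161 / 750000 * s * t ^ 3 +
      942621 / 500000 * s ^ 2 * t ^ 2 + 188281 / 250000 * s ^ 3 * t + 55807 / 500000 * s ^ 4 =
      (1 + 1 / 50 + (1 / 50) ^ 2 / 2) * (1 + u + 47 / 100 * u ^ 2) -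
      (36788 / 100000 *
      (1 + (u + 1) + (u + 1) ^ 2 / 2 + (u + 1) ^ 3 / 6 + (u + 1) ^ 4 / 24)) := by
    rw [hs, ht]
    ring
  rw [e] at h
  linarith

theorem ev_six_e33_c0 (u : ℝ) (h1 : -3 ≤ u) (h2 : u ≤ -2) :
    13534 / 100000 *
      (1 + (u + 2) + (u + 2) ^ 2 / 2 + (u + 2) ^ 3 / 6 + (u + 2) ^ 4 / 24) ≤
      (1 + 1 / 50 + (1 / 50) ^ 2 / 2) * (1 + u + 47 / 100 * u ^ 2) := by
  obtain ⟨s, hs⟩ : ∃ s, s = u - (-3) := ⟨_, rfl⟩
  obtain ⟨t, ht⟩ : ∃ t, t = -2 - u := ⟨_, rfl⟩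
  have hs0 : 0 ≤ s := by linarith
  have ht0 : 0 ≤ t := by linarith
  have h : 0 ≤
      4448587 / 2000000 * t ^ 4 + 2098589 / 300000 * s * t ^ 3 +
      2021447 / 250000 * s ^ 2 * t ^ 2 + 204143 / 50000 * s ^ 3 * t + 190609 / 250000 * s ^ 4 := by
    positivity
  have e :
      4448587 / 2000000 * t ^ 4 + 2098589 / 300000 * s * t ^ 3 +
      2021447 / 250000 * s ^ 2 * t ^ 2 + 204143 / 50000 * s ^ 3 * t + 190609 / 250000 * s ^ 4 =
      (1 + 1 / 50 + (1 / 50) ^ 2 / 2) * (1 + u + 47 / 100 * u ^ 2) -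
      (13534 / 100000 *
      (1 + (u + 2) + (u + 2) ^ 2 / 2 + (u + 2) ^ 3 / 6 + (u + 2) ^ 4 / 24)) := by
    rw [hs, ht]
    ring
  rw [e] at h
  linarith

theorem ev_six_e33_d (u : ℝ) (h2 : u ≤ -3) :
    4979 / 100000 ≤
      (1 + 1 / 50 + (1 / 50) ^ 2 / 2) * (1 + u + 47 / 100 * u ^ 2) := by
  obtain ⟨s, hs⟩ : ∃ s, s = -3 - u := ⟨_, rfl⟩
  have hs0 : 0 ≤ s := by linarith
  have h : 0 ≤
      278157 / 125000 + 464191 / 250000 * s + 239747 / 500000 * s ^ 2 := by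
    positivity
  have e :
      278157 / 125000 + 464191 / 250000 * s + 239747 / 500000 * s ^ 2 =
      (1 + 1 / 50 + (1 / 50) ^ 2 / 2) * (1 + u + 47 / 100 * u ^ 2) -
      (4979 / 100000) := by
    rw [hs]
    ring
  rw [e] at h
  linarith

theorem ev_six_e33_e0 (u : ℝ) (h1 : 0 ≤ u) (h2 : u ≤ 1 / 3) :
    1 + u + u ^ 2 / 2 + u ^ 3 / 6 + u ^ 4 / 24 + u ^ 5 / 100 ≤
      (1 + 1 / 50 + (1 / 50) ^ 2 / 2) * ((1 + 1 / 20 * u ^ 2) *
      (1 + u + 47 / 100 * u ^ 2)) := by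
  obtain ⟨s, hs⟩ : ∃ s, s = u - (0) := ⟨_, rfl⟩
  obtain ⟨t, ht⟩ : ∃ t, t = 1 / 3 - u := ⟨_, rfl⟩
  have hs0 : 0 ≤ s := by linarith
  have ht0 : 0 ≤ t := by linarith
  have h : 0 ≤
      24543 / 5000 * t ^ 5 + 16362 / 625 * s * t ^ 4 + 7056801 / 125000 * s ^ 2 * t ^ 3 +
      30166557 / 500000 * s ^ 3 * t ^ 2 + 314237281 / 10000000 * s ^ 4 * t +
      62644221 / 10000000 * s ^ 5 := by
    positivity
  have e :
      24543 / 5000 * t ^ 5 + 16362 / 625 * s * t ^ 4 + 7056801 / 125000 * s ^ 2 * t ^ 3 +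
      30166557 / 500000 * s ^ 3 * t ^ 2 + 314237281 / 10000000 * s ^ 4 * t +
      62644221 / 10000000 * s ^ 5 =
      (1 + 1 / 50 + (1 / 50) ^ 2 / 2) * ((1 + 1 / 20 * u ^ 2) *
      (1 + u + 47 / 100 * u ^ 2)) -
      (1 + u + u ^ 2 / 2 + u ^ 3 / 6 + u ^ 4 / 24 + u ^ 5 / 100) := by
    rw [hs, ht]
    ring
  rw [e] at h
  linarith

theorem ev_six_e33_g0 (u : ℝ) (h1 : 1 / 3 ≤ u) (h2 : u ≤ 7 / 6) :
    69781 / 50000 * (1 + (u - 1 / 3) / 6) ^ 6 ≤
      (1 + 1 / 50 + (1 / 50) ^ 2 / 2) * ((1 + (1 / 20 * u ^ 2) + (1 / 20 * u ^ 2) ^ 2 / 2 +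
      (1 / 20 * u ^ 2) ^ 3 / 6) *
      (1 + u + 47 / 100 * u ^ 2)) := by
  obtain ⟨s, hs⟩ : ∃ s, s = u - (1 / 3) := ⟨_, rfl⟩
  obtain ⟨t, ht⟩ : ∃ t, t = 7 / 6 - u := ⟨_, rfl⟩
  have hs0 : 0 ≤ s := by linarith
  have ht0 : 0 ≤ t := by linarith
  have h : 0 ≤
      4062359113127 / 36621093750000 * t ^ 8 + 16189579383703 / 18310546875000 * s * t ^ 7 +
      28703463807659 / 9155273437500 * s ^ 2 * t ^ 6 +
      465051153429679 / 73242187500000 * s ^ 3 * t ^ 5 +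
      464414347224839 / 58593750000000 * s ^ 4 * t ^ 4 +
      1810994478121721 / 292968750000000 * s ^ 5 * t ^ 3 +
      46167299847509897 / 15820312500000000 * s ^ 6 * t ^ 2 +
      23978204983223819 / 31640625000000000 * s ^ 7 * t +
      20929758082326329 / 253125000000000000 * s ^ 8 := by
    positivity
  have e :
      4062359113127 / 36621093750000 * t ^ 8 + 16189579383703 / 18310546875000 * s * t ^ 7 +
      28703463807659 / 9155273437500 * s ^ 2 * t ^ 6 +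
      465051153429679 / 73242187500000 * s ^ 3 * t ^ 5 +
      464414347224839 / 58593750000000 * s ^ 4 * t ^ 4 +
      1810994478121721 / 292968750000000 * s ^ 5 * t ^ 3 +
      46167299847509897 / 15820312500000000 * s ^ 6 * t ^ 2 +
      23978204983223819 / 31640625000000000 * s ^ 7 * t +
      20929758082326329 / 253125000000000000 * s ^ 8 =
      (1 + 1 / 50 + (1 / 50) ^ 2 / 2) * ((1 + (1 / 20 * u ^ 2) + (1 / 20 * u ^ 2) ^ 2 / 2 +
      (1 / 20 * u ^ 2) ^ 3 / 6) *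
      (1 + u + 47 / 100 * u ^ 2)) -
      (69781 / 50000 * (1 + (u - 1 / 3) / 6) ^ 6) := by
    rw [hs, ht]
    ring
  rw [e] at h
  linarith

theorem ev_six_e33_g1 (u : ℝ) (h1 : 7 / 6 ≤ u) (h2 : u ≤ 2) :
    69781 / 50000 * (1 + (u - 1 / 3) / 6) ^ 6 ≤
      (1 + 1 / 50 + (1 / 50) ^ 2 / 2) * ((1 + (1 / 20 * u ^ 2) + (1 / 20 * u ^ 2) ^ 2 / 2 +
      (1 / 20 * u ^ 2) ^ 3 / 6) *
      (1 + u + 47 / 100 * u ^ 2)) := by
  obtain ⟨s, hs⟩ : ∃ s, s = u - (7 / 6) := ⟨_, rfl⟩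
  obtain ⟨t, ht⟩ : ∃ t, t = 2 - u := ⟨_, rfl⟩
  have hs0 : 0 ≤ s := by linarith
  have ht0 : 0 ≤ t := by linarith
  have h : 0 ≤
      20929758082326329 / 253125000000000000 * t ^ 8 +
      17881311181428839 / 31640625000000000 * s * t ^ 7 +
      24828171541227467 / 15820312500000000 * s ^ 2 * t ^ 6 +
      8790628340320661 / 3955078125000000 * s ^ 3 * t ^ 5 +
      1281360726353969 / 791015625000000 * s ^ 4 * t ^ 4 +
      31013100161669 / 61798095703125 * s ^ 5 * t ^ 3 +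
      25631837850857 / 988769531250000 * s ^ 6 * t ^ 2 +
      8592841354933 / 247192382812500 * s ^ 7 * t + 6547142537291 / 247192382812500 * s ^ 8 := by
    positivity
  have e :
      20929758082326329 / 253125000000000000 * t ^ 8 +
      17881311181428839 / 31640625000000000 * s * t ^ 7 +
      24828171541227467 / 15820312500000000 * s ^ 2 * t ^ 6 +
      8790628340320661 / 3955078125000000 * s ^ 3 * t ^ 5 +
      1281360726353969 / 791015625000000 * s ^ 4 * t ^ 4 +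
      31013100161669 / 61798095703125 * s ^ 5 * t ^ 3 +
      25631837850857 / 988769531250000 * s ^ 6 * t ^ 2 +
      8592841354933 / 247192382812500 * s ^ 7 * t + 6547142537291 / 247192382812500 * s ^ 8 =
      (1 + 1 / 50 + (1 / 50) ^ 2 / 2) * ((1 + (1 / 20 * u ^ 2) + (1 / 20 * u ^ 2) ^ 2 / 2 +
      (1 / 20 * u ^ 2) ^ 3 / 6) *
      (1 + u + 47 / 100 * u ^ 2)) -
      (69781 / 50000 * (1 + (u - 1 / 3) / 6) ^ 6) := by
    rw [hs, ht]
    ring
  rw [e] at h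
  linarith

theorem ev_six_e33_t (u : ℝ) (h1 : 2 ≤ u) :
    69781 / 50000 * (1 + (u - 1 / 3) / 6) ^ 6 ≤
      (1 + 1 / 50 + (1 / 50) ^ 2 / 2) * ((1 + (1 / 20 * u ^ 2) + (1 / 20 * u ^ 2) ^ 2 / 2 +
      (1 / 20 * u ^ 2) ^ 3 / 6) *
      (1 + u + 47 / 100 * u ^ 2)) := by
  obtain ⟨s, hs⟩ : ∃ s, s = u - (2) := ⟨_, rfl⟩
  have hs0 : 0 ≤ s := by linarith
  have h : 0 ≤
      6547142537291 / 1062882000000000 + 2918953262893 / 59049000000000 * s +
      6910829921191 / 39366000000000 * s ^ 2 + 1609370716229 / 9841500000000 * s ^ 3 +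
      57741902303 / 874800000000 * s ^ 4 + 9919751041 / 729000000000 * s ^ 5 +
      2926331903 / 1458000000000 * s ^ 6 + 362171 / 2000000000 * s ^ 7 +
      239747 / 24000000000 * s ^ 8 := by
    positivity
  have e :
      6547142537291 / 1062882000000000 + 2918953262893 / 59049000000000 * s +
      6910829921191 / 39366000000000 * s ^ 2 + 1609370716229 / 9841500000000 * s ^ 3 +
      57741902303 / 874800000000 * s ^ 4 + 9919751041 / 729000000000 * s ^ 5 +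
      2926331903 / 1458000000000 * s ^ 6 + 362171 / 2000000000 * s ^ 7 +
      239747 / 24000000000 * s ^ 8 =
      (1 + 1 / 50 + (1 / 50) ^ 2 / 2) * ((1 + (1 / 20 * u ^ 2) + (1 / 20 * u ^ 2) ^ 2 / 2 +
      (1 / 20 * u ^ 2) ^ 3 / 6) *
      (1 + u + 47 / 100 * u ^ 2)) -
      (69781 / 50000 * (1 + (u - 1 / 3) / 6) ^ 6) := by
    rw [hs]
    ring
  rw [e] at h
  linarith

/-- `K = 6`: `(c, μ, P, δ) = (47 / 100, 1 / 20, 1 / 3, 1 / 50)` -/
theorem expFd_six_e33 : ExpFd 6 (47 / 100) (1 / 20) (1 / 3) (1 / 50) := by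
  have hde : (1 + 1 / 50 + (1 / 50) ^ 2 / 2) ≤ Real.exp (1 / 50) :=
    Real.quadratic_le_exp_of_nonneg (by norm_num)
  have hq : ∀ u : ℝ, 0 ≤ 1 + u + 47 / 100 * u ^ 2 := fun u => by
    nlinarith [sq_nonneg (u + 2), sq_nonneg u]
  have hR : ∀ (u x y : ℝ), x ≤ y →
      y ≤ (1 + 1 / 50 + (1 / 50) ^ 2 / 2) * (1 + u + 47 / 100 * u ^ 2) →
      x ≤ Real.exp (1 / 50) * (1 + u + 47 / 100 * u ^ 2) := fun u x y h1 h2 =>
    (h1.trans h2).trans (mul_le_mul_of_nonneg_right hde (hq u))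
  refine ExpFd.of (by norm_num) (by norm_num) (by norm_num) (by norm_num) (by norm_num) ?_ ?_ ?_
  · intro u h1
    rcases le_total u (-3) with h3 | h3
    · exact hR u _ _ (ev_exp_n3 h3) (ev_six_e33_d u h3)
    rcases le_total u (-2) with h4 | h4
    · refine hR u _ _ (ev_exp_n2 h4) ?_
      exact ev_six_e33_c0 u (by linarith) (by linarith)
    rcases le_total u (-1) with h5 | h5
    · refine hR u _ _ (ev_exp_n1 h5) ?_
      exact ev_six_e33_b0 u (by linarith) (by linarith)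
    refine hR u _ _ (ev_exp_n0 h1) ?_
    exact ev_six_e33_a0 u (by linarith) (by linarith)
  · intro u h1 h2
    have h5 := mul_le_mul_of_nonneg_right (Real.add_one_le_exp (1 / 20 * u ^ 2)) (hq u)
    rw [add_comm (1 / 20 * u ^ 2) 1] at h5
    have h6 : 0 ≤ Real.exp (1 / 20 * u ^ 2) * (1 + u + 47 / 100 * u ^ 2) :=
      mul_nonneg (Real.exp_nonneg _) (hq u)
    rw [Real.exp_add, mul_assoc]
    refine ((ev_exp_p h1 (by linarith)).trans ?_).trans
      ((mul_le_mul_of_nonneg_left h5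
        (by norm_num : (0 : ℝ) ≤ (1 + 1 / 50 + (1 / 50) ^ 2 / 2))).trans
        (mul_le_mul_of_nonneg_right hde h6))
    exact ev_six_e33_e0 u (by linarith) (by linarith)
  · intro u h1
    have h4 : 0 ≤ (1 + (u - 1 / 3) / 6) ^ 6 := by
      have : 0 ≤ (u - 1 / 3) / 6 := div_nonneg (by linarith) (by norm_num)
      positivity
    have hE : Real.exp (1 / 3) ≤ 69781 / 50000 := ev_up_1_3
    have hx : 0 ≤ 1 / 20 * u ^ 2 := by positivity
    have h5 := mul_le_mul_of_nonneg_right (taylor3_le_expE _ hx) (hq u)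
    have h6 : 0 ≤ Real.exp (1 / 20 * u ^ 2) * (1 + u + 47 / 100 * u ^ 2) :=
      mul_nonneg (Real.exp_nonneg _) (hq u)
    rw [Real.exp_add, mul_assoc]
    push_cast
    refine ((mul_le_mul_of_nonneg_right hE h4).trans ?_).trans
      ((mul_le_mul_of_nonneg_left h5
        (by norm_num : (0 : ℝ) ≤ (1 + 1 / 50 + (1 / 50) ^ 2 / 2))).trans
        (mul_le_mul_of_nonneg_right hde h6))
    rcases le_total u (7 / 6) with hh | hh
    · exact ev_six_e33_g0 u (by linarith) (by linarith)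
    rcases le_total u (2) with hh | hh
    · exact ev_six_e33_g1 u (by linarith) (by linarith)
    exact ev_six_e33_t u (by linarith)

theorem ev_six_e34_a0 (u : ℝ) (h1 : -1 ≤ u) (h2 : u ≤ 0) :
    1 + u + u ^ 2 / 2 + u ^ 3 / 6 + u ^ 4 / 24 ≤
      (1 + 1 / 20 + (1 / 20) ^ 2 / 2) * (1 + u + 39 / 100 * u ^ 2) := by
  obtain ⟨s, hs⟩ : ∃ s, s = u - (-1) := ⟨_, rfl⟩
  obtain ⟨t, ht⟩ : ∃ t, t = 0 - u := ⟨_, rfl⟩
  have hs0 : 0 ≤ s := by linarith
  have ht0 : 0 ≤ t := by linarith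
  have h : 0 ≤
      2799 / 80000 * t ^ 4 + 4547 / 120000 * s * t ^ 3 + 5099 / 80000 * s ^ 2 * t ^ 2 +
      123 / 800 * s ^ 3 * t + 41 / 800 * s ^ 4 := by
    positivity
  have e :
      2799 / 80000 * t ^ 4 + 4547 / 120000 * s * t ^ 3 + 5099 / 80000 * s ^ 2 * t ^ 2 +
      123 / 800 * s ^ 3 * t + 41 / 800 * s ^ 4 =
      (1 + 1 / 20 + (1 / 20) ^ 2 / 2) * (1 + u + 39 / 100 * u ^ 2) -
      (1 + u + u ^ 2 / 2 + u ^ 3 / 6 + u ^ 4 / 24) := by
    rw [hs, ht]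
    ring
  rw [e] at h
  linarith

theorem ev_six_e34_b0 (u : ℝ) (h1 : -2 ≤ u) (h2 : u ≤ -1) :
    36788 / 100000 *
      (1 + (u + 1) + (u + 1) ^ 2 / 2 + (u + 1) ^ 3 / 6 + (u + 1) ^ 4 / 24) ≤
      (1 + 1 / 20 + (1 / 20) ^ 2 / 2) * (1 + u + 39 / 100 * u ^ 2) := by
  obtain ⟨s, hs⟩ : ∃ s, s = u - (-2) := ⟨_, rfl⟩
  obtain ⟨t, ht⟩ : ∃ t, t = -1 - u := ⟨_, rfl⟩
  have hs0 : 0 ≤ s := by linarith
  have ht0 : 0 ≤ t := by linarith
  have h : 0 ≤
      90149 / 200000 * t ^ 4 + 40937 / 37500 * s * t ^ 3 + 355403 / 400000 * s ^ 2 * t ^ 2 +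
      61007 / 200000 * s ^ 3 * t + 16843 / 400000 * s ^ 4 := by
    positivity
  have e :
      90149 / 200000 * t ^ 4 + 40937 / 37500 * s * t ^ 3 + 355403 / 400000 * s ^ 2 * t ^ 2 +
      61007 / 200000 * s ^ 3 * t + 16843 / 400000 * s ^ 4 =
      (1 + 1 / 20 + (1 / 20) ^ 2 / 2) * (1 + u + 39 / 100 * u ^ 2) -
      (36788 / 100000 *
      (1 + (u + 1) + (u + 1) ^ 2 / 2 + (u + 1) ^ 3 / 6 + (u + 1) ^ 4 / 24)) := by
    rw [hs, ht]
    ring
  rw [e] at h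
  linarith

theorem ev_six_e34_c0 (u : ℝ) (h1 : -3 ≤ u) (h2 : u ≤ -2) :
    13534 / 100000 *
      (1 + (u + 2) + (u + 2) ^ 2 / 2 + (u + 2) ^ 3 / 6 + (u + 2) ^ 4 / 24) ≤
      (1 + 1 / 20 + (1 / 20) ^ 2 / 2) * (1 + u + 39 / 100 * u ^ 2) := by
  obtain ⟨s, hs⟩ : ∃ s, s = u - (-3) := ⟨_, rfl⟩
  obtain ⟨t, ht⟩ : ∃ t, t = -2 - u := ⟨_, rfl⟩
  have hs0 : 0 ≤ s := by linarith
  have ht0 : 0 ≤ t := by linarith
  have h : 0 ≤
      307327 / 200000 * t ^ 4 + 2815651 / 600000 * s * t ^ 3 +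
      2093839 / 400000 * s ^ 2 * t ^ 2 + 63437 / 25000 * s ^ 3 * t + 5667 / 12500 * s ^ 4 := by
    positivity
  have e :
      307327 / 200000 * t ^ 4 + 2815651 / 600000 * s * t ^ 3 +
      2093839 / 400000 * s ^ 2 * t ^ 2 + 63437 / 25000 * s ^ 3 * t + 5667 / 12500 * s ^ 4 =
      (1 + 1 / 20 + (1 / 20) ^ 2 / 2) * (1 + u + 39 / 100 * u ^ 2) -
      (13534 / 100000 *
      (1 + (u + 2) + (u + 2) ^ 2 / 2 + (u + 2) ^ 3 / 6 + (u + 2) ^ 4 / 24)) := by
    rw [hs, ht]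
    ring
  rw [e] at h
  linarith

theorem ev_six_e34_d (u : ℝ) (h2 : u ≤ -3) :
    4979 / 100000 ≤
      (1 + 1 / 20 + (1 / 20) ^ 2 / 2) * (1 + u + 39 / 100 * u ^ 2) := by
  obtain ⟨s, hs⟩ : ∃ s, s = -3 - u := ⟨_, rfl⟩
  have hs0 : 0 ≤ s := by linarith
  have h : 0 ≤
      615039 / 400000 + 56347 / 40000 * s + 32799 / 80000 * s ^ 2 := by
    positivity
  have e :
      615039 / 400000 + 56347 / 40000 * s + 32799 / 80000 * s ^ 2 =
      (1 + 1 / 20 + (1 / 20) ^ 2 / 2) * (1 + u + 39 / 100 * u ^ 2) -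
      (4979 / 100000) := by
    rw [hs]
    ring
  rw [e] at h
  linarith

theorem ev_six_e34_e0 (u : ℝ) (h1 : 0 ≤ u) (h2 : u ≤ 1 / 3) :
    1 + u + u ^ 2 / 2 + u ^ 3 / 6 + u ^ 4 / 24 + u ^ 5 / 100 ≤
      (1 + 1 / 20 + (1 / 20) ^ 2 / 2) * ((1 + 3 / 50 * u ^ 2) *
      (1 + u + 39 / 100 * u ^ 2)) := by
  obtain ⟨s, hs⟩ : ∃ s, s = u - (0) := ⟨_, rfl⟩
  obtain ⟨t, ht⟩ : ∃ t, t = 1 / 3 - u := ⟨_, rfl⟩
  have hs0 : 0 ≤ s := by linarith
  have ht0 : 0 ≤ t := by linarith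
  have h : 0 ≤
      9963 / 800 * t ^ 5 + 3321 / 50 * s * t ^ 4 + 2246643 / 16000 * s ^ 2 * t ^ 3 +
      11706459 / 80000 * s ^ 3 * t ^ 2 + 299103841 / 4000000 * s ^ 4 * t +
      59536641 / 4000000 * s ^ 5 := by
    positivity
  have e :
      9963 / 800 * t ^ 5 + 3321 / 50 * s * t ^ 4 + 2246643 / 16000 * s ^ 2 * t ^ 3 +
      11706459 / 80000 * s ^ 3 * t ^ 2 + 299103841 / 4000000 * s ^ 4 * t +
      59536641 / 4000000 * s ^ 5 =
      (1 + 1 / 20 + (1 / 20) ^ 2 / 2) * ((1 + 3 / 50 * u ^ 2) *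
      (1 + u + 39 / 100 * u ^ 2)) -
      (1 + u + u ^ 2 / 2 + u ^ 3 / 6 + u ^ 4 / 24 + u ^ 5 / 100) := by
    rw [hs, ht]
    ring
  rw [e] at h
  linarith

theorem ev_six_e34_g0 (u : ℝ) (h1 : 1 / 3 ≤ u) (h2 : u ≤ 7 / 6) :
    69781 / 50000 * (1 + (u - 1 / 3) / 6) ^ 6 ≤
      (1 + 1 / 20 + (1 / 20) ^ 2 / 2) * ((1 + (3 / 50 * u ^ 2) + (3 / 50 * u ^ 2) ^ 2 / 2 +
      (3 / 50 * u ^ 2) ^ 3 / 6) *
      (1 + u + 39 / 100 * u ^ 2)) := by
  obtain ⟨s, hs⟩ : ∃ s, s = u - (1 / 3) := ⟨_, rfl⟩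
  obtain ⟨t, ht⟩ : ∃ t, t = 7 / 6 - u := ⟨_, rfl⟩
  have hs0 : 0 ≤ s := by linarith
  have ht0 : 0 ≤ t := by linarith
  have h : 0 ≤
      8041319608941 / 30517578125000 * t ^ 8 + 7987889090106 / 3814697265625 * s * t ^ 7 +
      439434173126151 / 61035156250000 * s ^ 2 * t ^ 6 +
      849029836188807 / 61035156250000 * s ^ 3 * t ^ 5 +
      401179525723131 / 24414062500000 * s ^ 4 * t ^ 4 +
      2213557359396751 / 183105468750000 * s ^ 5 * t ^ 3 +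
      106383595375242439 / 19775390625000000 * s ^ 6 * t ^ 2 +
      104205924854396381 / 79101562500000000 * s ^ 7 * t +
      85900590788884271 / 632812500000000000 * s ^ 8 := by
    positivity
  have e :
      8041319608941 / 30517578125000 * t ^ 8 + 7987889090106 / 3814697265625 * s * t ^ 7 +
      439434173126151 / 61035156250000 * s ^ 2 * t ^ 6 +
      849029836188807 / 61035156250000 * s ^ 3 * t ^ 5 +
      401179525723131 / 24414062500000 * s ^ 4 * t ^ 4 +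
      2213557359396751 / 183105468750000 * s ^ 5 * t ^ 3 +
      106383595375242439 / 19775390625000000 * s ^ 6 * t ^ 2 +
      104205924854396381 / 79101562500000000 * s ^ 7 * t +
      85900590788884271 / 632812500000000000 * s ^ 8 =
      (1 + 1 / 20 + (1 / 20) ^ 2 / 2) * ((1 + (3 / 50 * u ^ 2) + (3 / 50 * u ^ 2) ^ 2 / 2 +
      (3 / 50 * u ^ 2) ^ 3 / 6) *
      (1 + u + 39 / 100 * u ^ 2)) -
      (69781 / 50000 * (1 + (u - 1 / 3) / 6) ^ 6) := by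
    rw [hs, ht]
    ring
  rw [e] at h
  linarith

theorem ev_six_e34_g1 (u : ℝ) (h1 : 7 / 6 ≤ u) (h2 : u ≤ 2) :
    69781 / 50000 * (1 + (u - 1 / 3) / 6) ^ 6 ≤
      (1 + 1 / 20 + (1 / 20) ^ 2 / 2) * ((1 + (3 / 50 * u ^ 2) + (3 / 50 * u ^ 2) ^ 2 / 2 +
      (3 / 50 * u ^ 2) ^ 3 / 6) *
      (1 + u + 39 / 100 * u ^ 2)) := by
  obtain ⟨s, hs⟩ : ∃ s, s = u - (7 / 6) := ⟨_, rfl⟩
  obtain ⟨t, ht⟩ : ∃ t, t = 2 - u := ⟨_, rfl⟩
  have hs0 : 0 ≤ s := by linarith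
  have ht0 : 0 ≤ t := by linarith
  have h : 0 ≤
      85900590788884271 / 632812500000000000 * t ^ 8 +
      67595256723372161 / 79101562500000000 * s * t ^ 7 +
      21157463072975027 / 9887695312500000 * s ^ 2 * t ^ 6 +
      51822798790115953 / 19775390625000000 * s ^ 3 * t ^ 5 +
      5887025600998837 / 3955078125000000 * s ^ 4 * t ^ 4 +
      77636433868237 / 308990478515625 * s ^ 5 * t ^ 3 +
      389416027170661 / 4943847656250000 * s ^ 6 * t ^ 2 +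
      244551461273609 / 1235961914062500 * s ^ 7 * t +
      100709267061943 / 1235961914062500 * s ^ 8 := by
    positivity
  have e :
      85900590788884271 / 632812500000000000 * t ^ 8 +
      67595256723372161 / 79101562500000000 * s * t ^ 7 +
      21157463072975027 / 9887695312500000 * s ^ 2 * t ^ 6 +
      51822798790115953 / 19775390625000000 * s ^ 3 * t ^ 5 +
      5887025600998837 / 3955078125000000 * s ^ 4 * t ^ 4 +
      77636433868237 / 308990478515625 * s ^ 5 * t ^ 3 +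
      389416027170661 / 4943847656250000 * s ^ 6 * t ^ 2 +
      244551461273609 / 1235961914062500 * s ^ 7 * t +
      100709267061943 / 1235961914062500 * s ^ 8 =
      (1 + 1 / 20 + (1 / 20) ^ 2 / 2) * ((1 + (3 / 50 * u ^ 2) + (3 / 50 * u ^ 2) ^ 2 / 2 +
      (3 / 50 * u ^ 2) ^ 3 / 6) *
      (1 + u + 39 / 100 * u ^ 2)) -
      (69781 / 50000 * (1 + (u - 1 / 3) / 6) ^ 6) := by
    rw [hs, ht]
    ring
  rw [e] at h
  linarith

theorem ev_six_e34_t (u : ℝ) (h1 : 2 ≤ u) :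
    69781 / 50000 * (1 + (u - 1 / 3) / 6) ^ 6 ≤
      (1 + 1 / 20 + (1 / 20) ^ 2 / 2) * ((1 + (3 / 50 * u ^ 2) + (3 / 50 * u ^ 2) ^ 2 / 2 +
      (3 / 50 * u ^ 2) ^ 3 / 6) *
      (1 + u + 39 / 100 * u ^ 2)) := by
  obtain ⟨s, hs⟩ : ∃ s, s = u - (2) := ⟨_, rfl⟩
  have hs0 : 0 ≤ s := by linarith
  have h : 0 ≤
      100709267061943 / 5314410000000000 + 37408178348129 / 295245000000000 * s +
      64285506965963 / 196830000000000 * s ^ 2 + 12443465184097 / 49207500000000 * s ^ 3 +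
      405545769979 / 4374000000000 * s ^ 4 + 71505354893 / 3645000000000 * s ^ 5 +
      5337754621 / 1822500000000 * s ^ 6 + 1369989 / 5000000000 * s ^ 7 +
      295191 / 20000000000 * s ^ 8 := by
    positivity
  have e :
      100709267061943 / 5314410000000000 + 37408178348129 / 295245000000000 * s +
      64285506965963 / 196830000000000 * s ^ 2 + 12443465184097 / 49207500000000 * s ^ 3 +
      405545769979 / 4374000000000 * s ^ 4 + 71505354893 / 3645000000000 * s ^ 5 +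
      5337754621 / 1822500000000 * s ^ 6 + 1369989 / 5000000000 * s ^ 7 +
      295191 / 20000000000 * s ^ 8 =
      (1 + 1 / 20 + (1 / 20) ^ 2 / 2) * ((1 + (3 / 50 * u ^ 2) + (3 / 50 * u ^ 2) ^ 2 / 2 +
      (3 / 50 * u ^ 2) ^ 3 / 6) *
      (1 + u + 39 / 100 * u ^ 2)) -
      (69781 / 50000 * (1 + (u - 1 / 3) / 6) ^ 6) := by
    rw [hs]
    ring
  rw [e] at h
  linarith

/-- `K = 6`: `(c, μ, P, δ) = (39 / 100, 3 / 50, 1 / 3, 1 / 20)` -/
theorem expFd_six_e34 : ExpFd 6 (39 / 100) (3 / 50) (1 / 3) (1 / 20) := by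
  have hde : (1 + 1 / 20 + (1 / 20) ^ 2 / 2) ≤ Real.exp (1 / 20) :=
    Real.quadratic_le_exp_of_nonneg (by norm_num)
  have hq : ∀ u : ℝ, 0 ≤ 1 + u + 39 / 100 * u ^ 2 := fun u => by
    nlinarith [sq_nonneg (u + 2), sq_nonneg u]
  have hR : ∀ (u x y : ℝ), x ≤ y →
      y ≤ (1 + 1 / 20 + (1 / 20) ^ 2 / 2) * (1 + u + 39 / 100 * u ^ 2) →
      x ≤ Real.exp (1 / 20) * (1 + u + 39 / 100 * u ^ 2) := fun u x y h1 h2 =>
    (h1.trans h2).trans (mul_le_mul_of_nonneg_right hde (hq u))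
  refine ExpFd.of (by norm_num) (by norm_num) (by norm_num) (by norm_num) (by norm_num) ?_ ?_ ?_
  · intro u h1
    rcases le_total u (-3) with h3 | h3
    · exact hR u _ _ (ev_exp_n3 h3) (ev_six_e34_d u h3)
    rcases le_total u (-2) with h4 | h4
    · refine hR u _ _ (ev_exp_n2 h4) ?_
      exact ev_six_e34_c0 u (by linarith) (by linarith)
    rcases le_total u (-1) with h5 | h5
    · refine hR u _ _ (ev_exp_n1 h5) ?_
      exact ev_six_e34_b0 u (by linarith) (by linarith)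
    refine hR u _ _ (ev_exp_n0 h1) ?_
    exact ev_six_e34_a0 u (by linarith) (by linarith)
  · intro u h1 h2
    have h5 := mul_le_mul_of_nonneg_right (Real.add_one_le_exp (3 / 50 * u ^ 2)) (hq u)
    rw [add_comm (3 / 50 * u ^ 2) 1] at h5
    have h6 : 0 ≤ Real.exp (3 / 50 * u ^ 2) * (1 + u + 39 / 100 * u ^ 2) :=
      mul_nonneg (Real.exp_nonneg _) (hq u)
    rw [Real.exp_add, mul_assoc]
    refine ((ev_exp_p h1 (by linarith)).trans ?_).trans
      ((mul_le_mul_of_nonneg_left h5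
        (by norm_num : (0 : ℝ) ≤ (1 + 1 / 20 + (1 / 20) ^ 2 / 2))).trans
        (mul_le_mul_of_nonneg_right hde h6))
    exact ev_six_e34_e0 u (by linarith) (by linarith)
  · intro u h1
    have h4 : 0 ≤ (1 + (u - 1 / 3) / 6) ^ 6 := by
      have : 0 ≤ (u - 1 / 3) / 6 := div_nonneg (by linarith) (by norm_num)
      positivity
    have hE : Real.exp (1 / 3) ≤ 69781 / 50000 := ev_up_1_3
    have hx : 0 ≤ 3 / 50 * u ^ 2 := by positivity
    have h5 := mul_le_mul_of_nonneg_right (taylor3_le_expE _ hx) (hq u)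
    have h6 : 0 ≤ Real.exp (3 / 50 * u ^ 2) * (1 + u + 39 / 100 * u ^ 2) :=
      mul_nonneg (Real.exp_nonneg _) (hq u)
    rw [Real.exp_add, mul_assoc]
    push_cast
    refine ((mul_le_mul_of_nonneg_right hE h4).trans ?_).trans
      ((mul_le_mul_of_nonneg_left h5
        (by norm_num : (0 : ℝ) ≤ (1 + 1 / 20 + (1 / 20) ^ 2 / 2))).trans
        (mul_le_mul_of_nonneg_right hde h6))
    rcases le_total u (7 / 6) with hh | hh
    · exact ev_six_e34_g0 u (by linarith) (by linarith)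
    rcases le_total u (2) with hh | hh
    · exact ev_six_e34_g1 u (by linarith) (by linarith)
    exact ev_six_e34_t u (by linarith)

theorem ev_six_e35_a0 (u : ℝ) (h1 : -1 ≤ u) (h2 : u ≤ 0) :
    1 + u + u ^ 2 / 2 + u ^ 3 / 6 + u ^ 4 / 24 ≤
      (1 + 1 / 10 + (1 / 10) ^ 2 / 2) * (1 + u + 17 / 50 * u ^ 2) := by
  obtain ⟨s, hs⟩ : ∃ s, s = u - (-1) := ⟨_, rfl⟩
  obtain ⟨t, ht⟩ : ∃ t, t = 0 - u := ⟨_, rfl⟩
  have hs0 : 0 ≤ s := by linarith
  have ht0 : 0 ≤ t := by linarith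
  have h : 0 ≤
      7 / 10000 * t ^ 4 + 173 / 7500 * s * t ^ 3 + 1907 / 10000 * s ^ 2 * t ^ 2 +
      63 / 200 * s ^ 3 * t + 21 / 200 * s ^ 4 := by
    positivity
  have e :
      7 / 10000 * t ^ 4 + 173 / 7500 * s * t ^ 3 + 1907 / 10000 * s ^ 2 * t ^ 2 +
      63 / 200 * s ^ 3 * t + 21 / 200 * s ^ 4 =
      (1 + 1 / 10 + (1 / 10) ^ 2 / 2) * (1 + u + 17 / 50 * u ^ 2) -
      (1 + u + u ^ 2 / 2 + u ^ 3 / 6 + u ^ 4 / 24) := by
    rw [hs, ht]
    ring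
  rw [e] at h
  linarith

theorem ev_six_e35_b0 (u : ℝ) (h1 : -2 ≤ u) (h2 : u ≤ -1) :
    36788 / 100000 *
      (1 + (u + 1) + (u + 1) ^ 2 / 2 + (u + 1) ^ 3 / 6 + (u + 1) ^ 4 / 24) ≤
      (1 + 1 / 10 + (1 / 10) ^ 2 / 2) * (1 + u + 17 / 50 * u ^ 2) := by
  obtain ⟨s, hs⟩ : ∃ s, s = u - (-2) := ⟨_, rfl⟩
  obtain ⟨t, ht⟩ : ∃ t, t = -1 - u := ⟨_, rfl⟩
  have hs0 : 0 ≤ s := by linarith
  have ht0 : 0 ≤ t := by linarith
  have h : 0 ≤
      51969 / 200000 * t ^ 4 + 77843 / 150000 * s * t ^ 3 + 3519 / 12500 * s ^ 2 * t ^ 2 +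
      1139 / 25000 * s ^ 3 * t + 391 / 50000 * s ^ 4 := by
    positivity
  have e :
      51969 / 200000 * t ^ 4 + 77843 / 150000 * s * t ^ 3 + 3519 / 12500 * s ^ 2 * t ^ 2 +
      1139 / 25000 * s ^ 3 * t + 391 / 50000 * s ^ 4 =
      (1 + 1 / 10 + (1 / 10) ^ 2 / 2) * (1 + u + 17 / 50 * u ^ 2) -
      (36788 / 100000 *
      (1 + (u + 1) + (u + 1) ^ 2 / 2 + (u + 1) ^ 3 / 6 + (u + 1) ^ 4 / 24)) := by
    rw [hs, ht]
    ring
  rw [e] at h
  linarith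

theorem ev_six_e35_c0 (u : ℝ) (h1 : -3 ≤ u) (h2 : u ≤ -2) :
    13534 / 100000 *
      (1 + (u + 2) + (u + 2) ^ 2 / 2 + (u + 2) ^ 3 / 6 + (u + 2) ^ 4 / 24) ≤
      (1 + 1 / 10 + (1 / 10) ^ 2 / 2) * (1 + u + 17 / 50 * u ^ 2) := by
  obtain ⟨s, hs⟩ : ∃ s, s = u - (-3) := ⟨_, rfl⟩
  obtain ⟨t, ht⟩ : ∃ t, t = -2 - u := ⟨_, rfl⟩
  have hs0 : 0 ≤ s := by linarith
  have ht0 : 0 ≤ t := by linarith
  have h : 0 ≤
      448219 / 400000 * t ^ 4 + 986363 / 300000 * s * t ^ 3 +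
      348221 / 100000 * s ^ 2 * t ^ 2 + 79149 / 50000 * s ^ 3 * t + 13123 / 50000 * s ^ 4 := by
    positivity
  have e :
      448219 / 400000 * t ^ 4 + 986363 / 300000 * s * t ^ 3 +
      348221 / 100000 * s ^ 2 * t ^ 2 + 79149 / 50000 * s ^ 3 * t + 13123 / 50000 * s ^ 4 =
      (1 + 1 / 10 + (1 / 10) ^ 2 / 2) * (1 + u + 17 / 50 * u ^ 2) -
      (13534 / 100000 *
      (1 + (u + 2) + (u + 2) ^ 2 / 2 + (u + 2) ^ 3 / 6 + (u + 2) ^ 4 / 24)) := by
    rw [hs, ht]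
    ring
  rw [e] at h
  linarith

theorem ev_six_e35_d (u : ℝ) (h2 : u ≤ -3) :
    4979 / 100000 ≤
      (1 + 1 / 10 + (1 / 10) ^ 2 / 2) * (1 + u + 17 / 50 * u ^ 2) := by
  obtain ⟨s, hs⟩ : ∃ s, s = -3 - u := ⟨_, rfl⟩
  have hs0 : 0 ≤ s := by linarith
  have h : 0 ≤
      112151 / 100000 + 2873 / 2500 * s + 3757 / 10000 * s ^ 2 := by
    positivity
  have e :
      112151 / 100000 + 2873 / 2500 * s + 3757 / 10000 * s ^ 2 =
      (1 + 1 / 10 + (1 / 10) ^ 2 / 2) * (1 + u + 17 / 50 * u ^ 2) -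
      (4979 / 100000) := by
    rw [hs]
    ring
  rw [e] at h
  linarith

theorem ev_six_e35_e0 (u : ℝ) (h1 : 0 ≤ u) (h2 : u ≤ 1 / 3) :
    1 + u + u ^ 2 / 2 + u ^ 3 / 6 + u ^ 4 / 24 + u ^ 5 / 100 ≤
      (1 + 1 / 10 + (1 / 10) ^ 2 / 2) * ((1 + 3 / 50 * u ^ 2) *
      (1 + u + 17 / 50 * u ^ 2)) := by
  obtain ⟨s, hs⟩ : ∃ s, s = u - (0) := ⟨_, rfl⟩
  obtain ⟨t, ht⟩ : ∃ t, t = 1 / 3 - u := ⟨_, rfl⟩
  have hs0 : 0 ≤ s := by linarith
  have ht0 : 0 ≤ t := by linarith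
  have h : 0 ≤
      5103 / 200 * t ^ 5 + 3402 / 25 * s * t ^ 4 + 71901 / 250 * s ^ 2 * t ^ 3 +
      3005787 / 10000 * s ^ 3 * t ^ 2 + 77516513 / 500000 * s ^ 4 * t +
      15741663 / 500000 * s ^ 5 := by
    positivity
  have e :
      5103 / 200 * t ^ 5 + 3402 / 25 * s * t ^ 4 + 71901 / 250 * s ^ 2 * t ^ 3 +
      3005787 / 10000 * s ^ 3 * t ^ 2 + 77516513 / 500000 * s ^ 4 * t +
      15741663 / 500000 * s ^ 5 =
      (1 + 1 / 10 + (1 / 10) ^ 2 / 2) * ((1 + 3 / 50 * u ^ 2) *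
      (1 + u + 17 / 50 * u ^ 2)) -
      (1 + u + u ^ 2 / 2 + u ^ 3 / 6 + u ^ 4 / 24 + u ^ 5 / 100) := by
    rw [hs, ht]
    ring
  rw [e] at h
  linarith

theorem ev_six_e35_g0 (u : ℝ) (h1 : 1 / 3 ≤ u) (h2 : u ≤ 2) :
    69781 / 50000 * (1 + (u - 1 / 3) / 6) ^ 6 ≤
      (1 + 1 / 10 + (1 / 10) ^ 2 / 2) * ((1 + (3 / 50 * u ^ 2) + (3 / 50 * u ^ 2) ^ 2 / 2 +
      (3 / 50 * u ^ 2) ^ 3 / 6) *
      (1 + u + 17 / 50 * u ^ 2)) := by
  obtain ⟨s, hs⟩ : ∃ s, s = u - (1 / 3) := ⟨_, rfl⟩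
  obtain ⟨t, ht⟩ : ∃ t, t = 2 - u := ⟨_, rfl⟩
  have hs0 : 0 ≤ s := by linarith
  have ht0 : 0 ≤ t := by linarith
  have h : 0 ≤
      2125633428063 / 976562500000000 * t ^ 8 + 8911527016887 / 488281250000000 * s * t ^ 7 +
      1959156342297 / 30517578125000 * s ^ 2 * t ^ 6 +
      29706115738887 / 244140625000000 * s ^ 3 * t ^ 5 +
      26075752249197 / 195312500000000 * s ^ 4 * t ^ 4 +
      248637102454559 / 2929687500000000 * s ^ 5 * t ^ 3 +
      9483208068173491 / 316406250000000000 * s ^ 6 * t ^ 2 +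
      929895841652653 / 158203125000000000 * s ^ 7 * t +
      263508811250167 / 316406250000000000 * s ^ 8 := by
    positivity
  have e :
      2125633428063 / 976562500000000 * t ^ 8 + 8911527016887 / 488281250000000 * s * t ^ 7 +
      1959156342297 / 30517578125000 * s ^ 2 * t ^ 6 +
      29706115738887 / 244140625000000 * s ^ 3 * t ^ 5 +
      26075752249197 / 195312500000000 * s ^ 4 * t ^ 4 +
      248637102454559 / 2929687500000000 * s ^ 5 * t ^ 3 +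
      9483208068173491 / 316406250000000000 * s ^ 6 * t ^ 2 +
      929895841652653 / 158203125000000000 * s ^ 7 * t +
      263508811250167 / 316406250000000000 * s ^ 8 =
      (1 + 1 / 10 + (1 / 10) ^ 2 / 2) * ((1 + (3 / 50 * u ^ 2) + (3 / 50 * u ^ 2) ^ 2 / 2 +
      (3 / 50 * u ^ 2) ^ 3 / 6) *
      (1 + u + 17 / 50 * u ^ 2)) -
      (69781 / 50000 * (1 + (u - 1 / 3) / 6) ^ 6) := by
    rw [hs, ht]
    ring
  rw [e] at h
  linarith

theorem ev_six_e35_t (u : ℝ) (h1 : 2 ≤ u) :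
    69781 / 50000 * (1 + (u - 1 / 3) / 6) ^ 6 ≤
      (1 + 1 / 10 + (1 / 10) ^ 2 / 2) * ((1 + (3 / 50 * u ^ 2) + (3 / 50 * u ^ 2) ^ 2 / 2 +
      (3 / 50 * u ^ 2) ^ 3 / 6) *
      (1 + u + 17 / 50 * u ^ 2)) := by
  obtain ⟨s, hs⟩ : ∃ s, s = u - (2) := ⟨_, rfl⟩
  have hs0 : 0 ≤ s := by linarith
  have h : 0 ≤
      263508811250167 / 5314410000000000 + 8275960223201 / 295245000000000 * s +
      51238840000547 / 196830000000000 * s ^ 2 + 11494618849093 / 49207500000000 * s ^ 3 +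
      381835969351 / 4374000000000 * s ^ 4 + 67819936217 / 3645000000000 * s ^ 5 +
      20104868071 / 7290000000000 * s ^ 6 + 320229 / 1250000000 * s ^ 7 +
      33813 / 2500000000 * s ^ 8 := by
    positivity
  have e :
      263508811250167 / 5314410000000000 + 8275960223201 / 295245000000000 * s +
      51238840000547 / 196830000000000 * s ^ 2 + 11494618849093 / 49207500000000 * s ^ 3 +
      381835969351 / 4374000000000 * s ^ 4 + 67819936217 / 3645000000000 * s ^ 5 +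
      20104868071 / 7290000000000 * s ^ 6 + 320229 / 1250000000 * s ^ 7 +
      33813 / 2500000000 * s ^ 8 =
      (1 + 1 / 10 + (1 / 10) ^ 2 / 2) * ((1 + (3 / 50 * u ^ 2) + (3 / 50 * u ^ 2) ^ 2 / 2 +
      (3 / 50 * u ^ 2) ^ 3 / 6) *
      (1 + u + 17 / 50 * u ^ 2)) -
      (69781 / 50000 * (1 + (u - 1 / 3) / 6) ^ 6) := by
    rw [hs]
    ring
  rw [e] at h
  linarith

/-- `K = 6`: `(c, μ, P, δ) = (17 / 50, 3 / 50, 1 / 3, 1 / 10)` -/
theorem expFd_six_e35 : ExpFd 6 (17 / 50) (3 / 50) (1 / 3) (1 / 10) := by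
  have hde : (1 + 1 / 10 + (1 / 10) ^ 2 / 2) ≤ Real.exp (1 / 10) :=
    Real.quadratic_le_exp_of_nonneg (by norm_num)
  have hq : ∀ u : ℝ, 0 ≤ 1 + u + 17 / 50 * u ^ 2 := fun u => by
    nlinarith [sq_nonneg (u + 2), sq_nonneg u]
  have hR : ∀ (u x y : ℝ), x ≤ y →
      y ≤ (1 + 1 / 10 + (1 / 10) ^ 2 / 2) * (1 + u + 17 / 50 * u ^ 2) →
      x ≤ Real.exp (1 / 10) * (1 + u + 17 / 50 * u ^ 2) := fun u x y h1 h2 =>
    (h1.trans h2).trans (mul_le_mul_of_nonneg_right hde (hq u))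
  refine ExpFd.of (by norm_num) (by norm_num) (by norm_num) (by norm_num) (by norm_num) ?_ ?_ ?_
  · intro u h1
    rcases le_total u (-3) with h3 | h3
    · exact hR u _ _ (ev_exp_n3 h3) (ev_six_e35_d u h3)
    rcases le_total u (-2) with h4 | h4
    · refine hR u _ _ (ev_exp_n2 h4) ?_
      exact ev_six_e35_c0 u (by linarith) (by linarith)
    rcases le_total u (-1) with h5 | h5
    · refine hR u _ _ (ev_exp_n1 h5) ?_
      exact ev_six_e35_b0 u (by linarith) (by linarith)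
    refine hR u _ _ (ev_exp_n0 h1) ?_
    exact ev_six_e35_a0 u (by linarith) (by linarith)
  · intro u h1 h2
    have h5 := mul_le_mul_of_nonneg_right (Real.add_one_le_exp (3 / 50 * u ^ 2)) (hq u)
    rw [add_comm (3 / 50 * u ^ 2) 1] at h5
    have h6 : 0 ≤ Real.exp (3 / 50 * u ^ 2) * (1 + u + 17 / 50 * u ^ 2) :=
      mul_nonneg (Real.exp_nonneg _) (hq u)
    rw [Real.exp_add, mul_assoc]
    refine ((ev_exp_p h1 (by linarith)).trans ?_).trans
      ((mul_le_mul_of_nonneg_left h5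
        (by norm_num : (0 : ℝ) ≤ (1 + 1 / 10 + (1 / 10) ^ 2 / 2))).trans
        (mul_le_mul_of_nonneg_right hde h6))
    exact ev_six_e35_e0 u (by linarith) (by linarith)
  · intro u h1
    have h4 : 0 ≤ (1 + (u - 1 / 3) / 6) ^ 6 := by
      have : 0 ≤ (u - 1 / 3) / 6 := div_nonneg (by linarith) (by norm_num)
      positivity
    have hE : Real.exp (1 / 3) ≤ 69781 / 50000 := ev_up_1_3
    have hx : 0 ≤ 3 / 50 * u ^ 2 := by positivity
    have h5 := mul_le_mul_of_nonneg_right (taylor3_le_expE _ hx) (hq u)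
    have h6 : 0 ≤ Real.exp (3 / 50 * u ^ 2) * (1 + u + 17 / 50 * u ^ 2) :=
      mul_nonneg (Real.exp_nonneg _) (hq u)
    rw [Real.exp_add, mul_assoc]
    push_cast
    refine ((mul_le_mul_of_nonneg_right hE h4).trans ?_).trans
      ((mul_le_mul_of_nonneg_left h5
        (by norm_num : (0 : ℝ) ≤ (1 + 1 / 10 + (1 / 10) ^ 2 / 2))).trans
        (mul_le_mul_of_nonneg_right hde h6))
    rcases le_total u (2) with hh | hh
    · exact ev_six_e35_g0 u (by linarith) (by linarith)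
    exact ev_six_e35_t u (by linarith)

theorem ev_six_e40_a0 (u : ℝ) (h1 : -1 ≤ u) (h2 : u ≤ 0) :
    1 + u + u ^ 2 / 2 + u ^ 3 / 6 + u ^ 4 / 24 ≤
      (1 + 1 / 500 + (1 / 500) ^ 2 / 2) * (1 + u + 641 / 1000 * u ^ 2) := by
  obtain ⟨s, hs⟩ : ∃ s, s = u - (-1) := ⟨_, rfl⟩
  obtain ⟨t, ht⟩ : ∃ t, t = 0 - u := ⟨_, rfl⟩
  have hs0 : 0 ≤ s := by linarith
  have ht0 : 0 ≤ t := by linarith
  have h : 0 ≤
      133641641 / 500000000 * t ^ 4 + 339926423 / 750000000 * s * t ^ 3 +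
      74144641 / 500000000 * s ^ 2 * t ^ 2 + 3003 / 500000 * s ^ 3 * t + 1001 / 500000 * s ^ 4 := by
    positivity
  have e :
      133641641 / 500000000 * t ^ 4 + 339926423 / 750000000 * s * t ^ 3 +
      74144641 / 500000000 * s ^ 2 * t ^ 2 + 3003 / 500000 * s ^ 3 * t + 1001 / 500000 * s ^ 4 =
      (1 + 1 / 500 + (1 / 500) ^ 2 / 2) * (1 + u + 641 / 1000 * u ^ 2) -
      (1 + u + u ^ 2 / 2 + u ^ 3 / 6 + u ^ 4 / 24) := by
    rw [hs, ht]
    ring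
  rw [e] at h
  linarith

theorem ev_six_e40_b0 (u : ℝ) (h1 : -2 ≤ u) (h2 : u ≤ -1) :
    36788 / 100000 *
      (1 + (u + 1) + (u + 1) ^ 2 / 2 + (u + 1) ^ 3 / 6 + (u + 1) ^ 4 / 24) ≤
      (1 + 1 / 500 + (1 / 500) ^ 2 / 2) * (1 + u + 641 / 1000 * u ^ 2) := by
  obtain ⟨s, hs⟩ : ∃ s, s = u - (-2) := ⟨_, rfl⟩
  obtain ⟨t, ht⟩ : ∃ t, t = -1 - u := ⟨_, rfl⟩
  have hs0 : 0 ≤ s := by linarith
  have ht0 : 0 ≤ t := by linarith
  have h : 0 ≤
      22330877 / 15625000 * t ^ 4 + 1510105019 / 375000000 * s * t ^ 3 +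
      2028048333 / 500000000 * s ^ 2 * t ^ 2 + 437014423 / 250000000 * s ^ 3 * t +
      137201641 / 500000000 * s ^ 4 := by
    positivity
  have e :
      22330877 / 15625000 * t ^ 4 + 1510105019 / 375000000 * s * t ^ 3 +
      2028048333 / 500000000 * s ^ 2 * t ^ 2 + 437014423 / 250000000 * s ^ 3 * t +
      137201641 / 500000000 * s ^ 4 =
      (1 + 1 / 500 + (1 / 500) ^ 2 / 2) * (1 + u + 641 / 1000 * u ^ 2) -
      (36788 / 100000 *
      (1 + (u + 1) + (u + 1) ^ 2 / 2 + (u + 1) ^ 3 / 6 + (u + 1) ^ 4 / 24)) := by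
    rw [hs, ht]
    ring
  rw [e] at h
  linarith

theorem ev_six_e40_c0 (u : ℝ) (h1 : -3 ≤ u) (h2 : u ≤ -2) :
    13534 / 100000 *
      (1 + (u + 2) + (u + 2) ^ 2 / 2 + (u + 2) ^ 3 / 6 + (u + 2) ^ 4 / 24) ≤
      (1 + 1 / 500 + (1 / 500) ^ 2 / 2) * (1 + u + 641 / 1000 * u ^ 2) := by
  obtain ⟨s, hs⟩ : ∃ s, s = u - (-3) := ⟨_, rfl⟩
  obtain ⟨t, ht⟩ : ∃ t, t = -2 - u := ⟨_, rfl⟩
  have hs0 : 0 ≤ s := by linarith
  have ht0 : 0 ≤ t := by linarith
  have h : 0 ≤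
      1862896519 / 500000000 * t ^ 4 + 1800954169 / 150000000 * s * t ^ 3 +
      7136386717 / 500000000 * s ^ 2 * t ^ 2 + 185740891 / 25000000 * s ^ 3 * t +
      178973891 / 125000000 * s ^ 4 := by
    positivity
  have e :
      1862896519 / 500000000 * t ^ 4 + 1800954169 / 150000000 * s * t ^ 3 +
      7136386717 / 500000000 * s ^ 2 * t ^ 2 + 185740891 / 25000000 * s ^ 3 * t +
      178973891 / 125000000 * s ^ 4 =
      (1 + 1 / 500 + (1 / 500) ^ 2 / 2) * (1 + u + 641 / 1000 * u ^ 2) -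
      (13534 / 100000 *
      (1 + (u + 2) + (u + 2) ^ 2 / 2 + (u + 2) ^ 3 / 6 + (u + 2) ^ 4 / 24)) := by
    rw [hs, ht]
    ring
  rw [e] at h
  linarith

theorem ev_six_e40_d (u : ℝ) (h2 : u ≤ -3) :
    4979 / 100000 ≤
      (1 + 1 / 500 + (1 / 500) ^ 2 / 2) * (1 + u + 641 / 1000 * u ^ 2) := by
  obtain ⟨s, hs⟩ : ∃ s, s = -3 - u := ⟨_, rfl⟩
  have hs0 : 0 ≤ s := by linarith
  have h : 0 ≤
      1863377769 / 500000000 + 712924423 / 250000000 * s + 321141641 / 500000000 * s ^ 2 := by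
    positivity
  have e :
      1863377769 / 500000000 + 712924423 / 250000000 * s + 321141641 / 500000000 * s ^ 2 =
      (1 + 1 / 500 + (1 / 500) ^ 2 / 2) * (1 + u + 641 / 1000 * u ^ 2) -
      (4979 / 100000) := by
    rw [hs]
    ring
  rw [e] at h
  linarith

theorem ev_six_e40_e0 (u : ℝ) (h1 : 0 ≤ u) (h2 : u ≤ 2 / 3) :
    1 + u + u ^ 2 / 2 + u ^ 3 / 6 + u ^ 4 / 24 + u ^ 5 / 100 ≤
      (1 + 1 / 500 + (1 / 500) ^ 2 / 2) * ((1 + 1 / 25 * u ^ 2) *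
      (1 + u + 641 / 1000 * u ^ 2)) := by
  obtain ⟨s, hs⟩ : ∃ s, s = u - (0) := ⟨_, rfl⟩
  obtain ⟨t, ht⟩ : ∃ t, t = 2 / 3 - u := ⟨_, rfl⟩
  have hs0 : 0 ≤ s := by linarith
  have ht0 : 0 ≤ t := by linarith
  have h : 0 ≤
      243243 / 16000000 * t ^ 5 + 1378377 / 16000000 * s * t ^ 4 +
      3232174887 / 4000000000 * s ^ 2 * t ^ 3 + 7097787381 / 4000000000 * s ^ 3 * t ^ 2 +
      136938033467 / 100000000000 * s ^ 4 * t + 32203133617 / 100000000000 * s ^ 5 := by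
    positivity
  have e :
      243243 / 16000000 * t ^ 5 + 1378377 / 16000000 * s * t ^ 4 +
      3232174887 / 4000000000 * s ^ 2 * t ^ 3 + 7097787381 / 4000000000 * s ^ 3 * t ^ 2 +
      136938033467 / 100000000000 * s ^ 4 * t + 32203133617 / 100000000000 * s ^ 5 =
      (1 + 1 / 500 + (1 / 500) ^ 2 / 2) * ((1 + 1 / 25 * u ^ 2) *
      (1 + u + 641 / 1000 * u ^ 2)) -
      (1 + u + u ^ 2 / 2 + u ^ 3 / 6 + u ^ 4 / 24 + u ^ 5 / 100) := by
    rw [hs, ht]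
    ring
  rw [e] at h
  linarith

theorem ev_six_e40_g0 (u : ℝ) (h1 : 2 / 3 ≤ u) (h2 : u ≤ 11 / 6) :
    97387 / 50000 * (1 + (u - 2 / 3) / 6) ^ 6 ≤
      (1 + 1 / 500 + (1 / 500) ^ 2 / 2) * ((1 + (1 / 25 * u ^ 2) + (1 / 25 * u ^ 2) ^ 2 / 2 +
      (1 / 25 * u ^ 2) ^ 3 / 6) *
      (1 + u + 641 / 1000 * u ^ 2)) := by
  obtain ⟨s, hs⟩ : ∃ s, s = u - (2 / 3) := ⟨_, rfl⟩
  obtain ⟨t, ht⟩ : ∃ t, t = 11 / 6 - u := ⟨_, rfl⟩
  have hs0 : 0 ≤ s := by linarith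
  have ht0 : 0 ≤ t := by linarith
  have h : 0 ≤
      6581071228248148 / 527783294677734375 * t ^ 8 +
      61642882443189406 / 527783294677734375 * s * t ^ 7 +
      144334831557278233 / 301590454101562500 * s ^ 2 * t ^ 6 +
      164061326129235497 / 150795227050781250 * s ^ 3 * t ^ 5 +
      178754495829463873 / 120636181640625000 * s ^ 4 * t ^ 4 +
      2968460096869534387 / 2412723632812500000 * s ^ 5 * t ^ 3 +
      315556146193072000289 / 521148304687500000000 * s ^ 6 * t ^ 2 +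
      293453476430584466951 / 1824019066406250000000 * s ^ 7 * t +
      128998706402065853617 / 7296076265625000000000 * s ^ 8 := by
    positivity
  have e :
      6581071228248148 / 527783294677734375 * t ^ 8 +
      61642882443189406 / 527783294677734375 * s * t ^ 7 +
      144334831557278233 / 301590454101562500 * s ^ 2 * t ^ 6 +
      164061326129235497 / 150795227050781250 * s ^ 3 * t ^ 5 +
      178754495829463873 / 120636181640625000 * s ^ 4 * t ^ 4 +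
      2968460096869534387 / 2412723632812500000 * s ^ 5 * t ^ 3 +
      315556146193072000289 / 521148304687500000000 * s ^ 6 * t ^ 2 +
      293453476430584466951 / 1824019066406250000000 * s ^ 7 * t +
      128998706402065853617 / 7296076265625000000000 * s ^ 8 =
      (1 + 1 / 500 + (1 / 500) ^ 2 / 2) * ((1 + (1 / 25 * u ^ 2) + (1 / 25 * u ^ 2) ^ 2 / 2 +
      (1 / 25 * u ^ 2) ^ 3 / 6) *
      (1 + u + 641 / 1000 * u ^ 2)) -
      (97387 / 50000 * (1 + (u - 2 / 3) / 6) ^ 6) := by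
    rw [hs, ht]
    ring
  rw [e] at h
  linarith

theorem ev_six_e40_g1 (u : ℝ) (h1 : 11 / 6 ≤ u) (h2 : u ≤ 29 / 12) :
    97387 / 50000 * (1 + (u - 2 / 3) / 6) ^ 6 ≤
      (1 + 1 / 500 + (1 / 500) ^ 2 / 2) * ((1 + (1 / 25 * u ^ 2) + (1 / 25 * u ^ 2) ^ 2 / 2 +
      (1 / 25 * u ^ 2) ^ 3 / 6) *
      (1 + u + 641 / 1000 * u ^ 2)) := by
  obtain ⟨s, hs⟩ : ∃ s, s = u - (11 / 6) := ⟨_, rfl⟩
  obtain ⟨t, ht⟩ : ∃ t, t = 29 / 12 - u := ⟨_, rfl⟩
  have hs0 : 0 ≤ s := by linarith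
  have ht0 : 0 ≤ t := by linarith
  have h : 0 ≤
      128998706402065853617 / 28500297912597656250 * t ^ 8 +
      480538761981810654751 / 14250148956298828125 * s * t ^ 7 +
      876812002846750563689 / 8142942260742187500 * s ^ 2 * t ^ 6 +
      86783217075639654247 / 452385681152343750 * s ^ 3 * t ^ 5 +
      8353735679962440981 / 40212060546875000 * s ^ 4 * t ^ 4 +
      56064928986706743561 / 402120605468750000 * s ^ 5 * t ^ 3 +
      272272813395394994137 / 4825447265625000000 * s ^ 6 * t ^ 2 +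
      26596209706955519173 / 2111133178710937500 * s ^ 7 * t +
      326247199347613994801 / 270225046875000000000 * s ^ 8 := by
    positivity
  have e :
      128998706402065853617 / 28500297912597656250 * t ^ 8 +
      480538761981810654751 / 14250148956298828125 * s * t ^ 7 +
      876812002846750563689 / 8142942260742187500 * s ^ 2 * t ^ 6 +
      86783217075639654247 / 452385681152343750 * s ^ 3 * t ^ 5 +
      8353735679962440981 / 40212060546875000 * s ^ 4 * t ^ 4 +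
      56064928986706743561 / 402120605468750000 * s ^ 5 * t ^ 3 +
      272272813395394994137 / 4825447265625000000 * s ^ 6 * t ^ 2 +
      26596209706955519173 / 2111133178710937500 * s ^ 7 * t +
      326247199347613994801 / 270225046875000000000 * s ^ 8 =
      (1 + 1 / 500 + (1 / 500) ^ 2 / 2) * ((1 + (1 / 25 * u ^ 2) + (1 / 25 * u ^ 2) ^ 2 / 2 +
      (1 / 25 * u ^ 2) ^ 3 / 6) *
      (1 + u + 641 / 1000 * u ^ 2)) -
      (97387 / 50000 * (1 + (u - 2 / 3) / 6) ^ 6) := by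
    rw [hs, ht]
    ring
  rw [e] at h
  linarith

theorem ev_six_e40_g2 (u : ℝ) (h1 : 29 / 12 ≤ u) (h2 : u ≤ 3) :
    97387 / 50000 * (1 + (u - 2 / 3) / 6) ^ 6 ≤
      (1 + 1 / 500 + (1 / 500) ^ 2 / 2) * ((1 + (1 / 25 * u ^ 2) + (1 / 25 * u ^ 2) ^ 2 / 2 +
      (1 / 25 * u ^ 2) ^ 3 / 6) *
      (1 + u + 641 / 1000 * u ^ 2)) := by
  obtain ⟨s, hs⟩ : ∃ s, s = u - (29 / 12) := ⟨_, rfl⟩
  obtain ⟨t, ht⟩ : ∃ t, t = 3 - u := ⟨_, rfl⟩
  have hs0 : 0 ≤ s := by linarith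
  have ht0 : 0 ≤ t := by linarith
  have h : 0 ≤
      326247199347613994801 / 270225046875000000000 * t ^ 8 +
      37825840563989947139 / 5629688476562500000 * s * t ^ 7 +
      24562833822682123401 / 1608482421875000000 * s ^ 2 * t ^ 6 +
      12249992993713910513 / 603180908203125000 * s ^ 3 * t ^ 5 +
      476647422563045683 / 20106030273437500 * s ^ 4 * t ^ 4 +
      6709911929140584748 / 226192840576171875 * s ^ 5 * t ^ 3 +
      57164408576907288044 / 2035735565185546875 * s ^ 6 * t ^ 2 +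
      209473942940744130592 / 14250148956298828125 * s ^ 7 * t +
      44560716677940113216 / 14250148956298828125 * s ^ 8 := by
    positivity
  have e :
      326247199347613994801 / 270225046875000000000 * t ^ 8 +
      37825840563989947139 / 5629688476562500000 * s * t ^ 7 +
      24562833822682123401 / 1608482421875000000 * s ^ 2 * t ^ 6 +
      12249992993713910513 / 603180908203125000 * s ^ 3 * t ^ 5 +
      476647422563045683 / 20106030273437500 * s ^ 4 * t ^ 4 +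
      6709911929140584748 / 226192840576171875 * s ^ 5 * t ^ 3 +
      57164408576907288044 / 2035735565185546875 * s ^ 6 * t ^ 2 +
      209473942940744130592 / 14250148956298828125 * s ^ 7 * t +
      44560716677940113216 / 14250148956298828125 * s ^ 8 =
      (1 + 1 / 500 + (1 / 500) ^ 2 / 2) * ((1 + (1 / 25 * u ^ 2) + (1 / 25 * u ^ 2) ^ 2 / 2 +
      (1 / 25 * u ^ 2) ^ 3 / 6) *
      (1 + u + 641 / 1000 * u ^ 2)) -
      (97387 / 50000 * (1 + (u - 2 / 3) / 6) ^ 6) := by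
    rw [hs, ht]
    ring
  rw [e] at h
  linarith

theorem ev_six_e40_t (u : ℝ) (h1 : 3 ≤ u) :
    97387 / 50000 * (1 + (u - 2 / 3) / 6) ^ 6 ≤
      (1 + 1 / 500 + (1 / 500) ^ 2 / 2) * ((1 + (1 / 25 * u ^ 2) + (1 / 25 * u ^ 2) ^ 2 / 2 +
      (1 / 25 * u ^ 2) ^ 3 / 6) *
      (1 + u + 641 / 1000 * u ^ 2)) := by
  obtain ⟨s, hs⟩ : ∃ s, s = u - (3) := ⟨_, rfl⟩
  have hs0 : 0 ≤ s := by linarith
  have h : 0 ≤
      696261198092814269 / 16607531250000000000 +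
      218767545361274963 / 922640625000000000 * s +
      308730146999090599 / 615093750000000000 * s ^ 2 +
      54393615818709079 / 153773437500000000 * s ^ 3 +
      1568976056343527 / 13668750000000000 * s ^ 4 +
      233898563978831 / 11390625000000000 * s ^ 5 +
      55442129641127 / 22781250000000000 * s ^ 6 + 16032032 / 91552734375 * s ^ 7 +
      321141641 / 46875000000000 * s ^ 8 := by
    positivity
  have e :
      696261198092814269 / 16607531250000000000 +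
      218767545361274963 / 922640625000000000 * s +
      308730146999090599 / 615093750000000000 * s ^ 2 +
      54393615818709079 / 153773437500000000 * s ^ 3 +
      1568976056343527 / 13668750000000000 * s ^ 4 +
      233898563978831 / 11390625000000000 * s ^ 5 +
      55442129641127 / 22781250000000000 * s ^ 6 + 16032032 / 91552734375 * s ^ 7 +
      321141641 / 46875000000000 * s ^ 8 =
      (1 + 1 / 500 + (1 / 500) ^ 2 / 2) * ((1 + (1 / 25 * u ^ 2) + (1 / 25 * u ^ 2) ^ 2 / 2 +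
      (1 / 25 * u ^ 2) ^ 3 / 6) *
      (1 + u + 641 / 1000 * u ^ 2)) -
      (97387 / 50000 * (1 + (u - 2 / 3) / 6) ^ 6) := by
    rw [hs]
    ring
  rw [e] at h
  linarith

/-- `K = 6`: `(c, μ, P, δ) = (641 / 1000, 1 / 25, 2 / 3, 1 / 500)` -/
theorem expFd_six_e40 : ExpFd 6 (641 / 1000) (1 / 25) (2 / 3) (1 / 500) := by
  have hde : (1 + 1 / 500 + (1 / 500) ^ 2 / 2) ≤ Real.exp (1 / 500) :=
    Real.quadratic_le_exp_of_nonneg (by norm_num)
  have hq : ∀ u : ℝ, 0 ≤ 1 + u + 641 / 1000 * u ^ 2 := fun u => by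
    nlinarith [sq_nonneg (u + 2), sq_nonneg u]
  have hR : ∀ (u x y : ℝ), x ≤ y →
      y ≤ (1 + 1 / 500 + (1 / 500) ^ 2 / 2) * (1 + u + 641 / 1000 * u ^ 2) →
      x ≤ Real.exp (1 / 500) * (1 + u + 641 / 1000 * u ^ 2) := fun u x y h1 h2 =>
    (h1.trans h2).trans (mul_le_mul_of_nonneg_right hde (hq u))
  refine ExpFd.of (by norm_num) (by norm_num) (by norm_num) (by norm_num) (by norm_num) ?_ ?_ ?_
  · intro u h1
    rcases le_total u (-3) with h3 | h3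
    · exact hR u _ _ (ev_exp_n3 h3) (ev_six_e40_d u h3)
    rcases le_total u (-2) with h4 | h4
    · refine hR u _ _ (ev_exp_n2 h4) ?_
      exact ev_six_e40_c0 u (by linarith) (by linarith)
    rcases le_total u (-1) with h5 | h5
    · refine hR u _ _ (ev_exp_n1 h5) ?_
      exact ev_six_e40_b0 u (by linarith) (by linarith)
    refine hR u _ _ (ev_exp_n0 h1) ?_
    exact ev_six_e40_a0 u (by linarith) (by linarith)
  · intro u h1 h2
    have h5 := mul_le_mul_of_nonneg_right (Real.add_one_le_exp (1 / 25 * u ^ 2)) (hq u)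
    rw [add_comm (1 / 25 * u ^ 2) 1] at h5
    have h6 : 0 ≤ Real.exp (1 / 25 * u ^ 2) * (1 + u + 641 / 1000 * u ^ 2) :=
      mul_nonneg (Real.exp_nonneg _) (hq u)
    rw [Real.exp_add, mul_assoc]
    refine ((ev_exp_p h1 (by linarith)).trans ?_).trans
      ((mul_le_mul_of_nonneg_left h5
        (by norm_num : (0 : ℝ) ≤ (1 + 1 / 500 + (1 / 500) ^ 2 / 2))).trans
        (mul_le_mul_of_nonneg_right hde h6))
    exact ev_six_e40_e0 u (by linarith) (by linarith)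
  · intro u h1
    have h4 : 0 ≤ (1 + (u - 2 / 3) / 6) ^ 6 := by
      have : 0 ≤ (u - 2 / 3) / 6 := div_nonneg (by linarith) (by norm_num)
      positivity
    have hE : Real.exp (2 / 3) ≤ 97387 / 50000 := ev_up_2_3
    have hx : 0 ≤ 1 / 25 * u ^ 2 := by positivity
    have h5 := mul_le_mul_of_nonneg_right (taylor3_le_expE _ hx) (hq u)
    have h6 : 0 ≤ Real.exp (1 / 25 * u ^ 2) * (1 + u + 641 / 1000 * u ^ 2) :=
      mul_nonneg (Real.exp_nonneg _) (hq u)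
    rw [Real.exp_add, mul_assoc]
    push_cast
    refine ((mul_le_mul_of_nonneg_right hE h4).trans ?_).trans
      ((mul_le_mul_of_nonneg_left h5
        (by norm_num : (0 : ℝ) ≤ (1 + 1 / 500 + (1 / 500) ^ 2 / 2))).trans
        (mul_le_mul_of_nonneg_right hde h6))
    rcases le_total u (11 / 6) with hh | hh
    · exact ev_six_e40_g0 u (by linarith) (by linarith)
    rcases le_total u (29 / 12) with hh | hh
    · exact ev_six_e40_g1 u (by linarith) (by linarith)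
    rcases le_total u (3) with hh | hh
    · exact ev_six_e40_g2 u (by linarith) (by linarith)
    exact ev_six_e40_t u (by linarith)

theorem ev_six_e41_a0 (u : ℝ) (h1 : -1 ≤ u) (h2 : u ≤ 0) :
    1 + u + u ^ 2 / 2 + u ^ 3 / 6 + u ^ 4 / 24 ≤
      (1 + 1 / 200 + (1 / 200) ^ 2 / 2) * (1 + u + 601 / 1000 * u ^ 2) := by
  obtain ⟨s, hs⟩ : ∃ s, s = u - (-1) := ⟨_, rfl⟩
  obtain ⟨t, ht⟩ : ∃ t, t = 0 - u := ⟨_, rfl⟩
  have hs0 : 0 ≤ s := by linarith
  have ht0 : 0 ≤ t := by linarith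
  have h : 0 ≤
      18321001 / 80000000 * t ^ 4 + 45564503 / 120000000 * s * t ^ 3 +
      9524001 / 80000000 * s ^ 2 * t ^ 2 + 1203 / 80000 * s ^ 3 * t + 401 / 80000 * s ^ 4 := by
    positivity
  have e :
      18321001 / 80000000 * t ^ 4 + 45564503 / 120000000 * s * t ^ 3 +
      9524001 / 80000000 * s ^ 2 * t ^ 2 + 1203 / 80000 * s ^ 3 * t + 401 / 80000 * s ^ 4 =
      (1 + 1 / 200 + (1 / 200) ^ 2 / 2) * (1 + u + 601 / 1000 * u ^ 2) -
      (1 + u + u ^ 2 / 2 + u ^ 3 / 6 + u ^ 4 / 24) := by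
    rw [hs, ht]
    ring
  rw [e] at h
  linarith

theorem ev_six_e41_b0 (u : ℝ) (h1 : -2 ≤ u) (h2 : u ≤ -1) :
    36788 / 100000 *
      (1 + (u + 1) + (u + 1) ^ 2 / 2 + (u + 1) ^ 3 / 6 + (u + 1) ^ 4 / 24) ≤
      (1 + 1 / 200 + (1 / 200) ^ 2 / 2) * (1 + u + 601 / 1000 * u ^ 2) := by
  obtain ⟨s, hs⟩ : ∃ s, s = u - (-2) := ⟨_, rfl⟩
  obtain ⟨t, ht⟩ : ∃ t, t = -1 - u := ⟨_, rfl⟩
  have hs0 : 0 ≤ s := by linarith
  have ht0 : 0 ≤ t := by linarith
  have h : 0 ≤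
      25461651 / 20000000 * t ^ 4 + 213519959 / 60000000 * s * t ^ 3 +
      283963613 / 80000000 * s ^ 2 * t ^ 2 + 60616903 / 40000000 * s ^ 3 * t +
      18890601 / 80000000 * s ^ 4 := by
    positivity
  have e :
      25461651 / 20000000 * t ^ 4 + 213519959 / 60000000 * s * t ^ 3 +
      283963613 / 80000000 * s ^ 2 * t ^ 2 + 60616903 / 40000000 * s ^ 3 * t +
      18890601 / 80000000 * s ^ 4 =
      (1 + 1 / 200 + (1 / 200) ^ 2 / 2) * (1 + u + 601 / 1000 * u ^ 2) -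
      (36788 / 100000 *
      (1 + (u + 1) + (u + 1) ^ 2 / 2 + (u + 1) ^ 3 / 6 + (u + 1) ^ 4 / 24)) := by
    rw [hs, ht]
    ring
  rw [e] at h
  linarith

theorem ev_six_e41_c0 (u : ℝ) (h1 : -3 ≤ u) (h2 : u ≤ -2) :
    13534 / 100000 *
      (1 + (u + 2) + (u + 2) ^ 2 / 2 + (u + 2) ^ 3 / 6 + (u + 2) ^ 4 / 24) ≤
      (1 + 1 / 200 + (1 / 200) ^ 2 / 2) * (1 + u + 601 / 1000 * u ^ 2) := by
  obtain ⟨s, hs⟩ : ∃ s, s = u - (-3) := ⟨_, rfl⟩
  obtain ⟨t, ht⟩ : ∃ t, t = -2 - u := ⟨_, rfl⟩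
  have hs0 : 0 ≤ s := by linarith
  have ht0 : 0 ≤ t := by linarith
  have h : 0 ≤
      270026809 / 80000000 * t ^ 4 + 260091949 / 24000000 * s * t ^ 3 +
      1026372837 / 80000000 * s ^ 2 * t ^ 2 + 26596671 / 4000000 * s ^ 3 * t +
      25513951 / 20000000 * s ^ 4 := by
    positivity
  have e :
      270026809 / 80000000 * t ^ 4 + 260091949 / 24000000 * s * t ^ 3 +
      1026372837 / 80000000 * s ^ 2 * t ^ 2 + 26596671 / 4000000 * s ^ 3 * t +
      25513951 / 20000000 * s ^ 4 =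
      (1 + 1 / 200 + (1 / 200) ^ 2 / 2) * (1 + u + 601 / 1000 * u ^ 2) -
      (13534 / 100000 *
      (1 + (u + 2) + (u + 2) ^ 2 / 2 + (u + 2) ^ 3 / 6 + (u + 2) ^ 4 / 24)) := by
    rw [hs, ht]
    ring
  rw [e] at h
  linarith

theorem ev_six_e41_d (u : ℝ) (h2 : u ≤ -3) :
    4979 / 100000 ≤
      (1 + 1 / 200 + (1 / 200) ^ 2 / 2) * (1 + u + 601 / 1000 * u ^ 2) := by
  obtain ⟨s, hs⟩ : ∃ s, s = -3 - u := ⟨_, rfl⟩
  have hs0 : 0 ≤ s := by linarith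
  have h : 0 ≤
      270103809 / 80000000 + 104762503 / 40000000 * s + 48321001 / 80000000 * s ^ 2 := by
    positivity
  have e :
      270103809 / 80000000 + 104762503 / 40000000 * s + 48321001 / 80000000 * s ^ 2 =
      (1 + 1 / 200 + (1 / 200) ^ 2 / 2) * (1 + u + 601 / 1000 * u ^ 2) -
      (4979 / 100000) := by
    rw [hs]
    ring
  rw [e] at h
  linarith

theorem ev_six_e41_e0 (u : ℝ) (h1 : 0 ≤ u) (h2 : u ≤ 2 / 3) :
    1 + u + u ^ 2 / 2 + u ^ 3 / 6 + u ^ 4 / 24 + u ^ 5 / 100 ≤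
      (1 + 1 / 200 + (1 / 200) ^ 2 / 2) * ((1 + 9 / 200 * u ^ 2) *
      (1 + u + 601 / 1000 * u ^ 2)) := by
  obtain ⟨s, hs⟩ : ∃ s, s = u - (0) := ⟨_, rfl⟩
  obtain ⟨t, ht⟩ : ∃ t, t = 2 / 3 - u := ⟨_, rfl⟩
  have hs0 : 0 ≤ s := by linarith
  have ht0 : 0 ≤ t := by linarith
  have h : 0 ≤
      97443 / 2560000 * t ^ 5 + 552177 / 2560000 * s * t ^ 4 +
      315461871 / 320000000 * s ^ 2 * t ^ 3 + 283309509 / 160000000 * s ^ 3 * t ^ 2 +
      39508571827 / 32000000000 * s ^ 4 * t + 8388682127 / 32000000000 * s ^ 5 := by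
    positivity
  have e :
      97443 / 2560000 * t ^ 5 + 552177 / 2560000 * s * t ^ 4 +
      315461871 / 320000000 * s ^ 2 * t ^ 3 + 283309509 / 160000000 * s ^ 3 * t ^ 2 +
      39508571827 / 32000000000 * s ^ 4 * t + 8388682127 / 32000000000 * s ^ 5 =
      (1 + 1 / 200 + (1 / 200) ^ 2 / 2) * ((1 + 9 / 200 * u ^ 2) *
      (1 + u + 601 / 1000 * u ^ 2)) -
      (1 + u + u ^ 2 / 2 + u ^ 3 / 6 + u ^ 4 / 24 + u ^ 5 / 100) := by
    rw [hs, ht]
    ring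
  rw [e] at h
  linarith

theorem ev_six_e41_g0 (u : ℝ) (h1 : 2 / 3 ≤ u) (h2 : u ≤ 11 / 6) :
    97387 / 50000 * (1 + (u - 2 / 3) / 6) ^ 6 ≤
      (1 + 1 / 200 + (1 / 200) ^ 2 / 2) * ((1 + (9 / 200 * u ^ 2) + (9 / 200 * u ^ 2) ^ 2 / 2 +
      (9 / 200 * u ^ 2) ^ 3 / 6) *
      (1 + u + 601 / 1000 * u ^ 2)) := by
  obtain ⟨s, hs⟩ : ∃ s, s = u - (2 / 3) := ⟨_, rfl⟩
  obtain ⟨t, ht⟩ : ∃ t, t = 11 / 6 - u := ⟨_, rfl⟩
  have hs0 : 0 ≤ s := by linarith
  have ht0 : 0 ≤ t := by linarith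
  have h : 0 ≤
      1147897506733443 / 112593769531250000 * t ^ 8 +
      9878131738010421 / 112593769531250000 * s * t ^ 7 +
      5339249085305907 / 16084824218750000 * s ^ 2 * t ^ 6 +
      179214526140415641 / 257357187500000000 * s ^ 3 * t ^ 5 +
      356986612765244163 / 411771500000000000 * s ^ 4 * t ^ 4 +
      7964965244615867683 / 12353145000000000000 * s ^ 5 * t ^ 3 +
      45791939295764963611 / 166767457500000000000 * s ^ 6 * t ^ 2 +
      2240974019698955451661 / 37355910480000000000000 * s ^ 7 * t +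
      3103005572357106474923 / 597694567680000000000000 * s ^ 8 := by
    positivity
  have e :
      1147897506733443 / 112593769531250000 * t ^ 8 +
      9878131738010421 / 112593769531250000 * s * t ^ 7 +
      5339249085305907 / 16084824218750000 * s ^ 2 * t ^ 6 +
      179214526140415641 / 257357187500000000 * s ^ 3 * t ^ 5 +
      356986612765244163 / 411771500000000000 * s ^ 4 * t ^ 4 +
      7964965244615867683 / 12353145000000000000 * s ^ 5 * t ^ 3 +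
      45791939295764963611 / 166767457500000000000 * s ^ 6 * t ^ 2 +
      2240974019698955451661 / 37355910480000000000000 * s ^ 7 * t +
      3103005572357106474923 / 597694567680000000000000 * s ^ 8 =
      (1 + 1 / 200 + (1 / 200) ^ 2 / 2) * ((1 + (9 / 200 * u ^ 2) + (9 / 200 * u ^ 2) ^ 2 / 2 +
      (9 / 200 * u ^ 2) ^ 3 / 6) *
      (1 + u + 601 / 1000 * u ^ 2)) -
      (97387 / 50000 * (1 + (u - 2 / 3) / 6) ^ 6) := by
    rw [hs, ht]
    ring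
  rw [e] at h
  linarith

theorem ev_six_e41_g1 (u : ℝ) (h1 : 11 / 6 ≤ u) (h2 : u ≤ 29 / 12) :
    97387 / 50000 * (1 + (u - 2 / 3) / 6) ^ 6 ≤
      (1 + 1 / 200 + (1 / 200) ^ 2 / 2) * ((1 + (9 / 200 * u ^ 2) + (9 / 200 * u ^ 2) ^ 2 / 2 +
      (9 / 200 * u ^ 2) ^ 3 / 6) *
      (1 + u + 601 / 1000 * u ^ 2)) := by
  obtain ⟨s, hs⟩ : ∃ s, s = u - (11 / 6) := ⟨_, rfl⟩
  obtain ⟨t, ht⟩ : ∃ t, t = 29 / 12 - u := ⟨_, rfl⟩
  have hs0 : 0 ≤ s := by linarith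
  have ht0 : 0 ≤ t := by linarith
  have h : 0 ≤
      3103005572357106474923 / 2334744405000000000000 * t ^ 8 +
      4827068677673408521447 / 583686101250000000000 * s * t ^ 7 +
      6896730144684408196583 / 333534915000000000000 * s ^ 2 * t ^ 6 +
      959904165252378759443 / 37059435000000000000 * s ^ 3 * t ^ 5 +
      319580083866720822809 / 19765032000000000000 * s ^ 4 * t ^ 4 +
      209624221234683552701 / 49412580000000000000 * s ^ 5 * t ^ 3 +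
      67603602203313999663 / 65883440000000000000 * s ^ 6 * t ^ 2 +
      600165292139353120707 / 461184080000000000000 * s ^ 7 * t +
      3789821278945220257323 / 7378945280000000000000 * s ^ 8 := by
    positivity
  have e :
      3103005572357106474923 / 2334744405000000000000 * t ^ 8 +
      4827068677673408521447 / 583686101250000000000 * s * t ^ 7 +
      6896730144684408196583 / 333534915000000000000 * s ^ 2 * t ^ 6 +
      959904165252378759443 / 37059435000000000000 * s ^ 3 * t ^ 5 +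
      319580083866720822809 / 19765032000000000000 * s ^ 4 * t ^ 4 +
      209624221234683552701 / 49412580000000000000 * s ^ 5 * t ^ 3 +
      67603602203313999663 / 65883440000000000000 * s ^ 6 * t ^ 2 +
      600165292139353120707 / 461184080000000000000 * s ^ 7 * t +
      3789821278945220257323 / 7378945280000000000000 * s ^ 8 =
      (1 + 1 / 200 + (1 / 200) ^ 2 / 2) * ((1 + (9 / 200 * u ^ 2) + (9 / 200 * u ^ 2) ^ 2 / 2 +
      (9 / 200 * u ^ 2) ^ 3 / 6) *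
      (1 + u + 601 / 1000 * u ^ 2)) -
      (97387 / 50000 * (1 + (u - 2 / 3) / 6) ^ 6) := by
    rw [hs, ht]
    ring
  rw [e] at h
  linarith

theorem ev_six_e41_g2 (u : ℝ) (h1 : 29 / 12 ≤ u) (h2 : u ≤ 3) :
    97387 / 50000 * (1 + (u - 2 / 3) / 6) ^ 6 ≤
      (1 + 1 / 200 + (1 / 200) ^ 2 / 2) * ((1 + (9 / 200 * u ^ 2) + (9 / 200 * u ^ 2) ^ 2 / 2 +
      (9 / 200 * u ^ 2) ^ 3 / 6) *
      (1 + u + 601 / 1000 * u ^ 2)) := by
  obtain ⟨s, hs⟩ : ∃ s, s = u - (29 / 12) := ⟨_, rfl⟩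
  obtain ⟨t, ht⟩ : ∃ t, t = 3 - u := ⟨_, rfl⟩
  have hs0 : 0 ≤ s := by linarith
  have ht0 : 0 ≤ t := by linarith
  have h : 0 ≤
      3789821278945220257323 / 7378945280000000000000 * t ^ 8 +
      398706998350733392077 / 57648010000000000000 * s * t ^ 7 +
      664273574217457003893 / 16470860000000000000 * s ^ 2 * t ^ 6 +
      397924025386039070617 / 3088286250000000000 * s ^ 3 * t ^ 5 +
      101363091036480456863 / 411771500000000000 * s ^ 4 * t ^ 4 +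
      41915421946258901779 / 144763417968750000 * s ^ 5 * t ^ 3 +
      1073880125190820370873 / 5211483046875000000 * s ^ 6 * t ^ 2 +
      185984279644843040629 / 2280023833007812500 * s ^ 7 * t +
      125980941412395962243 / 9120095332031250000 * s ^ 8 := by
    positivity
  have e :
      3789821278945220257323 / 7378945280000000000000 * t ^ 8 +
      398706998350733392077 / 57648010000000000000 * s * t ^ 7 +
      664273574217457003893 / 16470860000000000000 * s ^ 2 * t ^ 6 +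
      397924025386039070617 / 3088286250000000000 * s ^ 3 * t ^ 5 +
      101363091036480456863 / 411771500000000000 * s ^ 4 * t ^ 4 +
      41915421946258901779 / 144763417968750000 * s ^ 5 * t ^ 3 +
      1073880125190820370873 / 5211483046875000000 * s ^ 6 * t ^ 2 +
      185984279644843040629 / 2280023833007812500 * s ^ 7 * t +
      125980941412395962243 / 9120095332031250000 * s ^ 8 =
      (1 + 1 / 200 + (1 / 200) ^ 2 / 2) * ((1 + (9 / 200 * u ^ 2) + (9 / 200 * u ^ 2) ^ 2 / 2 +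
      (9 / 200 * u ^ 2) ^ 3 / 6) *
      (1 + u + 601 / 1000 * u ^ 2)) -
      (97387 / 50000 * (1 + (u - 2 / 3) / 6) ^ 6) := by
    rw [hs, ht]
    ring
  rw [e] at h
  linarith

theorem ev_six_e41_t (u : ℝ) (h1 : 3 ≤ u) :
    97387 / 50000 * (1 + (u - 2 / 3) / 6) ^ 6 ≤
      (1 + 1 / 200 + (1 / 200) ^ 2 / 2) * ((1 + (9 / 200 * u ^ 2) + (9 / 200 * u ^ 2) ^ 2 / 2 +
      (9 / 200 * u ^ 2) ^ 3 / 6) *
      (1 + u + 601 / 1000 * u ^ 2)) := by
  obtain ⟨s, hs⟩ : ∃ s, s = u - (3) := ⟨_, rfl⟩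
  have hs0 : 0 ≤ s := by linarith
  have h : 0 ≤
      125980941412395962243 / 680244480000000000000 +
      3141790627616613517 / 4723920000000000000 * s +
      5420319689127005557 / 6298560000000000000 * s ^ 2 +
      392553707385781661 / 787320000000000000 * s ^ 3 +
      42280013213942947 / 279936000000000000 * s ^ 4 +
      1572783907399729 / 58320000000000000 * s ^ 5 +
      750537000052211 / 233280000000000000 * s ^ 6 + 4708523763 / 20000000000000 * s ^ 7 +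
      11742003243 / 1280000000000000 * s ^ 8 := by
    positivity
  have e :
      125980941412395962243 / 680244480000000000000 +
      3141790627616613517 / 4723920000000000000 * s +
      5420319689127005557 / 6298560000000000000 * s ^ 2 +
      392553707385781661 / 787320000000000000 * s ^ 3 +
      42280013213942947 / 279936000000000000 * s ^ 4 +
      1572783907399729 / 58320000000000000 * s ^ 5 +
      750537000052211 / 233280000000000000 * s ^ 6 + 4708523763 / 20000000000000 * s ^ 7 +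
      11742003243 / 1280000000000000 * s ^ 8 =
      (1 + 1 / 200 + (1 / 200) ^ 2 / 2) * ((1 + (9 / 200 * u ^ 2) + (9 / 200 * u ^ 2) ^ 2 / 2 +
      (9 / 200 * u ^ 2) ^ 3 / 6) *
      (1 + u + 601 / 1000 * u ^ 2)) -
      (97387 / 50000 * (1 + (u - 2 / 3) / 6) ^ 6) := by
    rw [hs]
    ring
  rw [e] at h
  linarith

/-- `K = 6`: `(c, μ, P, δ) = (601 / 1000, 9 / 200, 2 / 3, 1 / 200)` -/
theorem expFd_six_e41 : ExpFd 6 (601 / 1000) (9 / 200) (2 / 3) (1 / 200) := by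
  have hde : (1 + 1 / 200 + (1 / 200) ^ 2 / 2) ≤ Real.exp (1 / 200) :=
    Real.quadratic_le_exp_of_nonneg (by norm_num)
  have hq : ∀ u : ℝ, 0 ≤ 1 + u + 601 / 1000 * u ^ 2 := fun u => by
    nlinarith [sq_nonneg (u + 2), sq_nonneg u]
  have hR : ∀ (u x y : ℝ), x ≤ y →
      y ≤ (1 + 1 / 200 + (1 / 200) ^ 2 / 2) * (1 + u + 601 / 1000 * u ^ 2) →
      x ≤ Real.exp (1 / 200) * (1 + u + 601 / 1000 * u ^ 2) := fun u x y h1 h2 =>
    (h1.trans h2).trans (mul_le_mul_of_nonneg_right hde (hq u))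
  refine ExpFd.of (by norm_num) (by norm_num) (by norm_num) (by norm_num) (by norm_num) ?_ ?_ ?_
  · intro u h1
    rcases le_total u (-3) with h3 | h3
    · exact hR u _ _ (ev_exp_n3 h3) (ev_six_e41_d u h3)
    rcases le_total u (-2) with h4 | h4
    · refine hR u _ _ (ev_exp_n2 h4) ?_
      exact ev_six_e41_c0 u (by linarith) (by linarith)
    rcases le_total u (-1) with h5 | h5
    · refine hR u _ _ (ev_exp_n1 h5) ?_
      exact ev_six_e41_b0 u (by linarith) (by linarith)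
    refine hR u _ _ (ev_exp_n0 h1) ?_
    exact ev_six_e41_a0 u (by linarith) (by linarith)
  · intro u h1 h2
    have h5 := mul_le_mul_of_nonneg_right (Real.add_one_le_exp (9 / 200 * u ^ 2)) (hq u)
    rw [add_comm (9 / 200 * u ^ 2) 1] at h5
    have h6 : 0 ≤ Real.exp (9 / 200 * u ^ 2) * (1 + u + 601 / 1000 * u ^ 2) :=
      mul_nonneg (Real.exp_nonneg _) (hq u)
    rw [Real.exp_add, mul_assoc]
    refine ((ev_exp_p h1 (by linarith)).trans ?_).trans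
      ((mul_le_mul_of_nonneg_left h5
        (by norm_num : (0 : ℝ) ≤ (1 + 1 / 200 + (1 / 200) ^ 2 / 2))).trans
        (mul_le_mul_of_nonneg_right hde h6))
    exact ev_six_e41_e0 u (by linarith) (by linarith)
  · intro u h1
    have h4 : 0 ≤ (1 + (u - 2 / 3) / 6) ^ 6 := by
      have : 0 ≤ (u - 2 / 3) / 6 := div_nonneg (by linarith) (by norm_num)
      positivity
    have hE : Real.exp (2 / 3) ≤ 97387 / 50000 := ev_up_2_3
    have hx : 0 ≤ 9 / 200 * u ^ 2 := by positivity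
    have h5 := mul_le_mul_of_nonneg_right (taylor3_le_expE _ hx) (hq u)
    have h6 : 0 ≤ Real.exp (9 / 200 * u ^ 2) * (1 + u + 601 / 1000 * u ^ 2) :=
      mul_nonneg (Real.exp_nonneg _) (hq u)
    rw [Real.exp_add, mul_assoc]
    push_cast
    refine ((mul_le_mul_of_nonneg_right hE h4).trans ?_).trans
      ((mul_le_mul_of_nonneg_left h5
        (by norm_num : (0 : ℝ) ≤ (1 + 1 / 200 + (1 / 200) ^ 2 / 2))).trans
        (mul_le_mul_of_nonneg_right hde h6))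
    rcases le_total u (11 / 6) with hh | hh
    · exact ev_six_e41_g0 u (by linarith) (by linarith)
    rcases le_total u (29 / 12) with hh | hh
    · exact ev_six_e41_g1 u (by linarith) (by linarith)
    rcases le_total u (3) with hh | hh
    · exact ev_six_e41_g2 u (by linarith) (by linarith)
    exact ev_six_e41_t u (by linarith)

theorem ev_six_e42_a0 (u : ℝ) (h1 : -1 ≤ u) (h2 : u ≤ 0) :
    1 + u + u ^ 2 / 2 + u ^ 3 / 6 + u ^ 4 / 24 ≤
      (1 + 1 / 100 + (1 / 100) ^ 2 / 2) * (1 + u + 283 / 500 * u ^ 2) := by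
  obtain ⟨s, hs⟩ : ∃ s, s = u - (-1) := ⟨_, rfl⟩
  obtain ⟨t, ht⟩ : ∃ t, t = 0 - u := ⟨_, rfl⟩
  have hs0 : 0 ≤ s := by linarith
  have ht0 : 0 ≤ t := by linarith
  have h : 0 ≤
      1966883 / 10000000 * t ^ 4 + 4801399 / 15000000 * s * t ^ 3 +
      1018383 / 10000000 * s ^ 2 * t ^ 2 + 603 / 20000 * s ^ 3 * t + 201 / 20000 * s ^ 4 := by
    positivity
  have e :
      1966883 / 10000000 * t ^ 4 + 4801399 / 15000000 * s * t ^ 3 +
      1018383 / 10000000 * s ^ 2 * t ^ 2 + 603 / 20000 * s ^ 3 * t + 201 / 20000 * s ^ 4 =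
      (1 + 1 / 100 + (1 / 100) ^ 2 / 2) * (1 + u + 283 / 500 * u ^ 2) -
      (1 + u + u ^ 2 / 2 + u ^ 3 / 6 + u ^ 4 / 24) := by
    rw [hs, ht]
    ring
  rw [e] at h
  linarith

theorem ev_six_e42_b0 (u : ℝ) (h1 : -2 ≤ u) (h2 : u ≤ -1) :
    36788 / 100000 *
      (1 + (u + 1) + (u + 1) ^ 2 / 2 + (u + 1) ^ 3 / 6 + (u + 1) ^ 4 / 24) ≤
      (1 + 1 / 100 + (1 / 100) ^ 2 / 2) * (1 + u + 283 / 500 * u ^ 2) := by
  obtain ⟨s, hs⟩ : ∃ s, s = u - (-2) := ⟨_, rfl⟩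
  obtain ⟨t, ht⟩ : ∃ t, t = -1 - u := ⟨_, rfl⟩
  have hs0 : 0 ≤ s := by linarith
  have ht0 : 0 ≤ t := by linarith
  have h : 0 ≤
      5693741 / 5000000 * t ^ 4 + 1479217 / 468750 * s * t ^ 3 +
      31142179 / 10000000 * s ^ 2 * t ^ 2 + 6582199 / 5000000 * s ^ 3 * t +
      2038083 / 10000000 * s ^ 4 := by
    positivity
  have e :
      5693741 / 5000000 * t ^ 4 + 1479217 / 468750 * s * t ^ 3 +
      31142179 / 10000000 * s ^ 2 * t ^ 2 + 6582199 / 5000000 * s ^ 3 * t +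
      2038083 / 10000000 * s ^ 4 =
      (1 + 1 / 100 + (1 / 100) ^ 2 / 2) * (1 + u + 283 / 500 * u ^ 2) -
      (36788 / 100000 *
      (1 + (u + 1) + (u + 1) ^ 2 / 2 + (u + 1) ^ 3 / 6 + (u + 1) ^ 4 / 24)) := by
    rw [hs, ht]
    ring
  rw [e] at h
  linarith

theorem ev_six_e42_c0 (u : ℝ) (h1 : -3 ≤ u) (h2 : u ≤ -2) :
    13534 / 100000 *
      (1 + (u + 2) + (u + 2) ^ 2 / 2 + (u + 2) ^ 3 / 6 + (u + 2) ^ 4 / 24) ≤
      (1 + 1 / 100 + (1 / 100) ^ 2 / 2) * (1 + u + 283 / 500 * u ^ 2) := by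
  obtain ⟨s, hs⟩ : ∃ s, s = u - (-3) := ⟨_, rfl⟩
  obtain ⟨t, ht⟩ : ∃ t, t = -2 - u := ⟨_, rfl⟩
  have hs0 : 0 ≤ s := by linarith
  have ht0 : 0 ≤ t := by linarith
  have h : 0 ≤
      15371711 / 5000000 * t ^ 4 + 29496527 / 3000000 * s * t ^ 3 +
      115883271 / 10000000 * s ^ 2 * t ^ 2 + 747187 / 125000 * s ^ 3 * t +
      89169 / 78125 * s ^ 4 := by
    positivity
  have e :
      15371711 / 5000000 * t ^ 4 + 29496527 / 3000000 * s * t ^ 3 +
      115883271 / 10000000 * s ^ 2 * t ^ 2 + 747187 / 125000 * s ^ 3 * t +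
      89169 / 78125 * s ^ 4 =
      (1 + 1 / 100 + (1 / 100) ^ 2 / 2) * (1 + u + 283 / 500 * u ^ 2) -
      (13534 / 100000 *
      (1 + (u + 2) + (u + 2) ^ 2 / 2 + (u + 2) ^ 3 / 6 + (u + 2) ^ 4 / 24)) := by
    rw [hs, ht]
    ring
  rw [e] at h
  linarith

theorem ev_six_e42_d (u : ℝ) (h2 : u ≤ -3) :
    4979 / 100000 ≤
      (1 + 1 / 100 + (1 / 100) ^ 2 / 2) * (1 + u + 283 / 500 * u ^ 2) := by
  obtain ⟨s, hs⟩ : ∃ s, s = -3 - u := ⟨_, rfl⟩
  have hs0 : 0 ≤ s := by linarith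
  have h : 0 ≤
      30753047 / 10000000 + 12100399 / 5000000 * s + 5716883 / 10000000 * s ^ 2 := by
    positivity
  have e :
      30753047 / 10000000 + 12100399 / 5000000 * s + 5716883 / 10000000 * s ^ 2 =
      (1 + 1 / 100 + (1 / 100) ^ 2 / 2) * (1 + u + 283 / 500 * u ^ 2) -
      (4979 / 100000) := by
    rw [hs]
    ring
  rw [e] at h
  linarith

theorem ev_six_e42_e0 (u : ℝ) (h1 : 0 ≤ u) (h2 : u ≤ 2 / 3) :
    1 + u + u ^ 2 / 2 + u ^ 3 / 6 + u ^ 4 / 24 + u ^ 5 / 100 ≤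
      (1 + 1 / 100 + (1 / 100) ^ 2 / 2) * ((1 + 1 / 20 * u ^ 2) *
      (1 + u + 283 / 500 * u ^ 2)) := by
  obtain ⟨s, hs⟩ : ∃ s, s = u - (0) := ⟨_, rfl⟩
  obtain ⟨t, ht⟩ : ∃ t, t = 2 / 3 - u := ⟨_, rfl⟩
  have hs0 : 0 ≤ s := by linarith
  have ht0 : 0 ≤ t := by linarith
  have h : 0 ≤
      48843 / 640000 * t ^ 5 + 276777 / 640000 * s * t ^ 4 +
      55163133 / 40000000 * s ^ 2 * t ^ 3 + 20442531 / 10000000 * s ^ 3 * t ^ 2 +
      15998977 / 12500000 * s ^ 4 * t + 24859651 / 100000000 * s ^ 5 := by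
    positivity
  have e :
      48843 / 640000 * t ^ 5 + 276777 / 640000 * s * t ^ 4 +
      55163133 / 40000000 * s ^ 2 * t ^ 3 + 20442531 / 10000000 * s ^ 3 * t ^ 2 +
      15998977 / 12500000 * s ^ 4 * t + 24859651 / 100000000 * s ^ 5 =
      (1 + 1 / 100 + (1 / 100) ^ 2 / 2) * ((1 + 1 / 20 * u ^ 2) *
      (1 + u + 283 / 500 * u ^ 2)) -
      (1 + u + u ^ 2 / 2 + u ^ 3 / 6 + u ^ 4 / 24 + u ^ 5 / 100) := by
    rw [hs, ht]
    ring
  rw [e] at h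
  linarith

theorem ev_six_e42_g0 (u : ℝ) (h1 : 2 / 3 ≤ u) (h2 : u ≤ 4 / 3) :
    97387 / 50000 * (1 + (u - 2 / 3) / 6) ^ 6 ≤
      (1 + 1 / 100 + (1 / 100) ^ 2 / 2) * ((1 + (1 / 20 * u ^ 2) + (1 / 20 * u ^ 2) ^ 2 / 2 +
      (1 / 20 * u ^ 2) ^ 3 / 6) *
      (1 + u + 283 / 500 * u ^ 2)) := by
  obtain ⟨s, hs⟩ : ∃ s, s = u - (2 / 3) := ⟨_, rfl⟩
  obtain ⟨t, ht⟩ : ∃ t, t = 4 / 3 - u := ⟨_, rfl⟩
  have hs0 : 0 ≤ s := by linarith
  have ht0 : 0 ≤ t := by linarith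
  have h : 0 ≤
      102406521197 / 120000000000 * t ^ 8 + 811984500287 / 120000000000 * s * t ^ 7 +
      5625465872923 / 240000000000 * s ^ 2 * t ^ 6 +
      11045989611847 / 240000000000 * s ^ 3 * t ^ 5 +
      5348149359577 / 96000000000 * s ^ 4 * t ^ 4 +
      1270504787431 / 30000000000 * s ^ 5 * t ^ 3 +
      63677800723963 / 3240000000000 * s ^ 6 * t ^ 2 +
      16425799773821 / 3240000000000 * s ^ 7 * t + 3596379413093 / 6480000000000 * s ^ 8 := by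
    positivity
  have e :
      102406521197 / 120000000000 * t ^ 8 + 811984500287 / 120000000000 * s * t ^ 7 +
      5625465872923 / 240000000000 * s ^ 2 * t ^ 6 +
      11045989611847 / 240000000000 * s ^ 3 * t ^ 5 +
      5348149359577 / 96000000000 * s ^ 4 * t ^ 4 +
      1270504787431 / 30000000000 * s ^ 5 * t ^ 3 +
      63677800723963 / 3240000000000 * s ^ 6 * t ^ 2 +
      16425799773821 / 3240000000000 * s ^ 7 * t + 3596379413093 / 6480000000000 * s ^ 8 =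
      (1 + 1 / 100 + (1 / 100) ^ 2 / 2) * ((1 + (1 / 20 * u ^ 2) + (1 / 20 * u ^ 2) ^ 2 / 2 +
      (1 / 20 * u ^ 2) ^ 3 / 6) *
      (1 + u + 283 / 500 * u ^ 2)) -
      (97387 / 50000 * (1 + (u - 2 / 3) / 6) ^ 6) := by
    rw [hs, ht]
    ring
  rw [e] at h
  linarith

theorem ev_six_e42_g1 (u : ℝ) (h1 : 4 / 3 ≤ u) (h2 : u ≤ 5 / 3) :
    97387 / 50000 * (1 + (u - 2 / 3) / 6) ^ 6 ≤
      (1 + 1 / 100 + (1 / 100) ^ 2 / 2) * ((1 + (1 / 20 * u ^ 2) + (1 / 20 * u ^ 2) ^ 2 / 2 +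
      (1 / 20 * u ^ 2) ^ 3 / 6) *
      (1 + u + 283 / 500 * u ^ 2)) := by
  obtain ⟨s, hs⟩ : ∃ s, s = u - (4 / 3) := ⟨_, rfl⟩
  obtain ⟨t, ht⟩ : ∃ t, t = 5 / 3 - u := ⟨_, rfl⟩
  have hs0 : 0 ≤ s := by linarith
  have ht0 : 0 ≤ t := by linarith
  have h : 0 ≤
      3596379413093 / 25312500000 * t ^ 8 + 5346150636659 / 5062500000 * s * t ^ 7 +
      2148497644043 / 632812500 * s ^ 2 * t ^ 6 + 2770544777933 / 450000000 * s ^ 3 * t ^ 5 +
      2749906632771 / 400000000 * s ^ 4 * t ^ 4 + 386411586347 / 80000000 * s ^ 5 * t ^ 3 +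
      998671752071 / 480000000 * s ^ 6 * t ^ 2 + 96249513431 / 192000000 * s ^ 7 * t +
      7936762267 / 153600000 * s ^ 8 := by
    positivity
  have e :
      3596379413093 / 25312500000 * t ^ 8 + 5346150636659 / 5062500000 * s * t ^ 7 +
      2148497644043 / 632812500 * s ^ 2 * t ^ 6 + 2770544777933 / 450000000 * s ^ 3 * t ^ 5 +
      2749906632771 / 400000000 * s ^ 4 * t ^ 4 + 386411586347 / 80000000 * s ^ 5 * t ^ 3 +
      998671752071 / 480000000 * s ^ 6 * t ^ 2 + 96249513431 / 192000000 * s ^ 7 * t +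
      7936762267 / 153600000 * s ^ 8 =
      (1 + 1 / 100 + (1 / 100) ^ 2 / 2) * ((1 + (1 / 20 * u ^ 2) + (1 / 20 * u ^ 2) ^ 2 / 2 +
      (1 / 20 * u ^ 2) ^ 3 / 6) *
      (1 + u + 283 / 500 * u ^ 2)) -
      (97387 / 50000 * (1 + (u - 2 / 3) / 6) ^ 6) := by
    rw [hs, ht]
    ring
  rw [e] at h
  linarith

theorem ev_six_e42_g2 (u : ℝ) (h1 : 5 / 3 ≤ u) (h2 : u ≤ 2) :
    97387 / 50000 * (1 + (u - 2 / 3) / 6) ^ 6 ≤
      (1 + 1 / 100 + (1 / 100) ^ 2 / 2) * ((1 + (1 / 20 * u ^ 2) + (1 / 20 * u ^ 2) ^ 2 / 2 +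
      (1 / 20 * u ^ 2) ^ 3 / 6) *
      (1 + u + 283 / 500 * u ^ 2)) := by
  obtain ⟨s, hs⟩ : ∃ s, s = u - (5 / 3) := ⟨_, rfl⟩
  obtain ⟨t, ht⟩ : ∃ t, t = 2 - u := ⟨_, rfl⟩
  have hs0 : 0 ≤ s := by linarith
  have ht0 : 0 ≤ t := by linarith
  have h : 0 ≤
      7936762267 / 153600000 * t ^ 8 + 20828577303 / 64000000 * s * t ^ 7 +
      33983797953 / 40000000 * s ^ 2 * t ^ 6 + 28233043003 / 24000000 * s ^ 3 * t ^ 5 +
      366255362971 / 400000000 * s ^ 4 * t ^ 4 + 354572646287 / 900000000 * s ^ 5 * t ^ 3 +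
      1934080732981 / 20250000000 * s ^ 6 * t ^ 2 + 114406393667 / 5062500000 * s ^ 7 * t +
      75641085679 / 12656250000 * s ^ 8 := by
    positivity
  have e :
      7936762267 / 153600000 * t ^ 8 + 20828577303 / 64000000 * s * t ^ 7 +
      33983797953 / 40000000 * s ^ 2 * t ^ 6 + 28233043003 / 24000000 * s ^ 3 * t ^ 5 +
      366255362971 / 400000000 * s ^ 4 * t ^ 4 + 354572646287 / 900000000 * s ^ 5 * t ^ 3 +
      1934080732981 / 20250000000 * s ^ 6 * t ^ 2 + 114406393667 / 5062500000 * s ^ 7 * t +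
      75641085679 / 12656250000 * s ^ 8 =
      (1 + 1 / 100 + (1 / 100) ^ 2 / 2) * ((1 + (1 / 20 * u ^ 2) + (1 / 20 * u ^ 2) ^ 2 / 2 +
      (1 / 20 * u ^ 2) ^ 3 / 6) *
      (1 + u + 283 / 500 * u ^ 2)) -
      (97387 / 50000 * (1 + (u - 2 / 3) / 6) ^ 6) := by
    rw [hs, ht]
    ring
  rw [e] at h
  linarith

theorem ev_six_e42_t (u : ℝ) (h1 : 2 ≤ u) :
    97387 / 50000 * (1 + (u - 2 / 3) / 6) ^ 6 ≤
      (1 + 1 / 100 + (1 / 100) ^ 2 / 2) * ((1 + (1 / 20 * u ^ 2) + (1 / 20 * u ^ 2) ^ 2 / 2 +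
      (1 / 20 * u ^ 2) ^ 3 / 6) *
      (1 + u + 283 / 500 * u ^ 2)) := by
  obtain ⟨s, hs⟩ : ∃ s, s = u - (2) := ⟨_, rfl⟩
  have hs0 : 0 ≤ s := by linarith
  have h : 0 ≤
      75641085679 / 83037656250000 + 212741800843 / 18452812500000 * s +
      3532370581207 / 24603750000000 * s ^ 2 + 7939040652389 / 49207500000000 * s ^ 3 +
      315660054673 / 4374000000000 * s ^ 4 + 55975842331 / 3645000000000 * s ^ 5 +
      8465306699 / 3645000000000 * s ^ 6 + 8464219 / 40000000000 * s ^ 7 +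
      5716883 / 480000000000 * s ^ 8 := by
    positivity
  have e :
      75641085679 / 83037656250000 + 212741800843 / 18452812500000 * s +
      3532370581207 / 24603750000000 * s ^ 2 + 7939040652389 / 49207500000000 * s ^ 3 +
      315660054673 / 4374000000000 * s ^ 4 + 55975842331 / 3645000000000 * s ^ 5 +
      8465306699 / 3645000000000 * s ^ 6 + 8464219 / 40000000000 * s ^ 7 +
      5716883 / 480000000000 * s ^ 8 =
      (1 + 1 / 100 + (1 / 100) ^ 2 / 2) * ((1 + (1 / 20 * u ^ 2) + (1 / 20 * u ^ 2) ^ 2 / 2 +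
      (1 / 20 * u ^ 2) ^ 3 / 6) *
      (1 + u + 283 / 500 * u ^ 2)) -
      (97387 / 50000 * (1 + (u - 2 / 3) / 6) ^ 6) := by
    rw [hs]
    ring
  rw [e] at h
  linarith

/-- `K = 6`: `(c, μ, P, δ) = (283 / 500, 1 / 20, 2 / 3, 1 / 100)` -/
theorem expFd_six_e42 : ExpFd 6 (283 / 500) (1 / 20) (2 / 3) (1 / 100) := by
  have hde : (1 + 1 / 100 + (1 / 100) ^ 2 / 2) ≤ Real.exp (1 / 100) :=
    Real.quadratic_le_exp_of_nonneg (by norm_num)
  have hq : ∀ u : ℝ, 0 ≤ 1 + u + 283 / 500 * u ^ 2 := fun u => by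
    nlinarith [sq_nonneg (u + 2), sq_nonneg u]
  have hR : ∀ (u x y : ℝ), x ≤ y →
      y ≤ (1 + 1 / 100 + (1 / 100) ^ 2 / 2) * (1 + u + 283 / 500 * u ^ 2) →
      x ≤ Real.exp (1 / 100) * (1 + u + 283 / 500 * u ^ 2) := fun u x y h1 h2 =>
    (h1.trans h2).trans (mul_le_mul_of_nonneg_right hde (hq u))
  refine ExpFd.of (by norm_num) (by norm_num) (by norm_num) (by norm_num) (by norm_num) ?_ ?_ ?_
  · intro u h1
    rcases le_total u (-3) with h3 | h3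
    · exact hR u _ _ (ev_exp_n3 h3) (ev_six_e42_d u h3)
    rcases le_total u (-2) with h4 | h4
    · refine hR u _ _ (ev_exp_n2 h4) ?_
      exact ev_six_e42_c0 u (by linarith) (by linarith)
    rcases le_total u (-1) with h5 | h5
    · refine hR u _ _ (ev_exp_n1 h5) ?_
      exact ev_six_e42_b0 u (by linarith) (by linarith)
    refine hR u _ _ (ev_exp_n0 h1) ?_
    exact ev_six_e42_a0 u (by linarith) (by linarith)
  · intro u h1 h2
    have h5 := mul_le_mul_of_nonneg_right (Real.add_one_le_exp (1 / 20 * u ^ 2)) (hq u)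
    rw [add_comm (1 / 20 * u ^ 2) 1] at h5
    have h6 : 0 ≤ Real.exp (1 / 20 * u ^ 2) * (1 + u + 283 / 500 * u ^ 2) :=
      mul_nonneg (Real.exp_nonneg _) (hq u)
    rw [Real.exp_add, mul_assoc]
    refine ((ev_exp_p h1 (by linarith)).trans ?_).trans
      ((mul_le_mul_of_nonneg_left h5
        (by norm_num : (0 : ℝ) ≤ (1 + 1 / 100 + (1 / 100) ^ 2 / 2))).trans
        (mul_le_mul_of_nonneg_right hde h6))
    exact ev_six_e42_e0 u (by linarith) (by linarith)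
  · intro u h1
    have h4 : 0 ≤ (1 + (u - 2 / 3) / 6) ^ 6 := by
      have : 0 ≤ (u - 2 / 3) / 6 := div_nonneg (by linarith) (by norm_num)
      positivity
    have hE : Real.exp (2 / 3) ≤ 97387 / 50000 := ev_up_2_3
    have hx : 0 ≤ 1 / 20 * u ^ 2 := by positivity
    have h5 := mul_le_mul_of_nonneg_right (taylor3_le_expE _ hx) (hq u)
    have h6 : 0 ≤ Real.exp (1 / 20 * u ^ 2) * (1 + u + 283 / 500 * u ^ 2) :=
      mul_nonneg (Real.exp_nonneg _) (hq u)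
    rw [Real.exp_add, mul_assoc]
    push_cast
    refine ((mul_le_mul_of_nonneg_right hE h4).trans ?_).trans
      ((mul_le_mul_of_nonneg_left h5
        (by norm_num : (0 : ℝ) ≤ (1 + 1 / 100 + (1 / 100) ^ 2 / 2))).trans
        (mul_le_mul_of_nonneg_right hde h6))
    rcases le_total u (4 / 3) with hh | hh
    · exact ev_six_e42_g0 u (by linarith) (by linarith)
    rcases le_total u (5 / 3) with hh | hh
    · exact ev_six_e42_g1 u (by linarith) (by linarith)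
    rcases le_total u (2) with hh | hh
    · exact ev_six_e42_g2 u (by linarith) (by linarith)
    exact ev_six_e42_t u (by linarith)

theorem ev_six_e43_a0 (u : ℝ) (h1 : -1 ≤ u) (h2 : u ≤ 0) :
    1 + u + u ^ 2 / 2 + u ^ 3 / 6 + u ^ 4 / 24 ≤
      (1 + 1 / 50 + (1 / 50) ^ 2 / 2) * (1 + u + 553 / 1000 * u ^ 2) := by
  obtain ⟨s, hs⟩ : ∃ s, s = u - (-1) := ⟨_, rfl⟩
  obtain ⟨t, ht⟩ : ∃ t, t = 0 - u := ⟨_, rfl⟩
  have hs0 : 0 ≤ s := by linarith
  have ht0 : 0 ≤ t := by linarith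
  have h : 0 ≤
      945853 / 5000000 * t ^ 4 + 2364059 / 7500000 * s * t ^ 3 +
      623853 / 5000000 * s ^ 2 * t ^ 2 + 303 / 5000 * s ^ 3 * t + 101 / 5000 * s ^ 4 := by
    positivity
  have e :
      945853 / 5000000 * t ^ 4 + 2364059 / 7500000 * s * t ^ 3 +
      623853 / 5000000 * s ^ 2 * t ^ 2 + 303 / 5000 * s ^ 3 * t + 101 / 5000 * s ^ 4 =
      (1 + 1 / 50 + (1 / 50) ^ 2 / 2) * (1 + u + 553 / 1000 * u ^ 2) -
      (1 + u + u ^ 2 / 2 + u ^ 3 / 6 + u ^ 4 / 24) := by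
    rw [hs, ht]
    ring
  rw [e] at h
  linarith

theorem ev_six_e43_b0 (u : ℝ) (h1 : -2 ≤ u) (h2 : u ≤ -1) :
    36788 / 100000 *
      (1 + (u + 1) + (u + 1) ^ 2 / 2 + (u + 1) ^ 3 / 6 + (u + 1) ^ 4 / 24) ≤
      (1 + 1 / 50 + (1 / 50) ^ 2 / 2) * (1 + u + 553 / 1000 * u ^ 2) := by
  obtain ⟨s, hs⟩ : ∃ s, s = u - (-2) := ⟨_, rfl⟩
  obtain ⟨t, ht⟩ : ∃ t, t = -1 - u := ⟨_, rfl⟩
  have hs0 : 0 ≤ s := by linarith
  have ht0 : 0 ≤ t := by linarith
  have h : 0 ≤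
      5492637 / 5000000 * t ^ 4 + 2845313 / 937500 * s * t ^ 3 +
      14930189 / 5000000 * s ^ 2 * t ^ 2 + 3152959 / 2500000 * s ^ 3 * t +
      981453 / 5000000 * s ^ 4 := by
    positivity
  have e :
      5492637 / 5000000 * t ^ 4 + 2845313 / 937500 * s * t ^ 3 +
      14930189 / 5000000 * s ^ 2 * t ^ 2 + 3152959 / 2500000 * s ^ 3 * t +
      981453 / 5000000 * s ^ 4 =
      (1 + 1 / 50 + (1 / 50) ^ 2 / 2) * (1 + u + 553 / 1000 * u ^ 2) -
      (36788 / 100000 *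
      (1 + (u + 1) + (u + 1) ^ 2 / 2 + (u + 1) ^ 3 / 6 + (u + 1) ^ 4 / 24)) := by
    rw [hs, ht]
    ring
  rw [e] at h
  linarith

theorem ev_six_e43_c0 (u : ℝ) (h1 : -3 ≤ u) (h2 : u ≤ -2) :
    13534 / 100000 *
      (1 + (u + 2) + (u + 2) ^ 2 / 2 + (u + 2) ^ 3 / 6 + (u + 2) ^ 4 / 24) ≤
      (1 + 1 / 50 + (1 / 50) ^ 2 / 2) * (1 + u + 553 / 1000 * u ^ 2) := by
  obtain ⟨s, hs⟩ : ∃ s, s = u - (-3) := ⟨_, rfl⟩
  obtain ⟨t, ht⟩ : ∃ t, t = -2 - u := ⟨_, rfl⟩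
  have hs0 : 0 ≤ s := by linarith
  have ht0 : 0 ≤ t := by linarith
  have h : 0 ≤
      29863829 / 10000000 * t ^ 4 + 446981 / 46875 * s * t ^ 3 +
      56094111 / 5000000 * s ^ 2 * t ^ 2 + 722049 / 125000 * s ^ 3 * t +
      344107 / 312500 * s ^ 4 := by
    positivity
  have e :
      29863829 / 10000000 * t ^ 4 + 446981 / 46875 * s * t ^ 3 +
      56094111 / 5000000 * s ^ 2 * t ^ 2 + 722049 / 125000 * s ^ 3 * t +
      344107 / 312500 * s ^ 4 =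
      (1 + 1 / 50 + (1 / 50) ^ 2 / 2) * (1 + u + 553 / 1000 * u ^ 2) -
      (13534 / 100000 *
      (1 + (u + 2) + (u + 2) ^ 2 / 2 + (u + 2) ^ 3 / 6 + (u + 2) ^ 4 / 24)) := by
    rw [hs, ht]
    ring
  rw [e] at h
  linarith

theorem ev_six_e43_d (u : ℝ) (h2 : u ≤ -3) :
    4979 / 100000 ≤
      (1 + 1 / 50 + (1 / 50) ^ 2 / 2) * (1 + u + 553 / 1000 * u ^ 2) := by
  obtain ⟨s, hs⟩ : ∃ s, s = -3 - u := ⟨_, rfl⟩
  have hs0 : 0 ≤ s := by linarith
  have h : 0 ≤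
      14936727 / 5000000 + 5912059 / 2500000 * s + 2820853 / 5000000 * s ^ 2 := by
    positivity
  have e :
      14936727 / 5000000 + 5912059 / 2500000 * s + 2820853 / 5000000 * s ^ 2 =
      (1 + 1 / 50 + (1 / 50) ^ 2 / 2) * (1 + u + 553 / 1000 * u ^ 2) -
      (4979 / 100000) := by
    rw [hs]
    ring
  rw [e] at h
  linarith

theorem ev_six_e43_e0 (u : ℝ) (h1 : 0 ≤ u) (h2 : u ≤ 2 / 3) :
    1 + u + u ^ 2 / 2 + u ^ 3 / 6 + u ^ 4 / 24 + u ^ 5 / 100 ≤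
      (1 + 1 / 50 + (1 / 50) ^ 2 / 2) * ((1 + 1 / 20 * u ^ 2) *
      (1 + u + 553 / 1000 * u ^ 2)) := by
  obtain ⟨s, hs⟩ : ∃ s, s = u - (0) := ⟨_, rfl⟩
  obtain ⟨t, ht⟩ : ∃ t, t = 2 / 3 - u := ⟨_, rfl⟩
  have hs0 : 0 ≤ s := by linarith
  have ht0 : 0 ≤ t := by linarith
  have h : 0 ≤
      24543 / 160000 * t ^ 5 + 139077 / 160000 * s * t ^ 4 +
      93268881 / 40000000 * s ^ 2 * t ^ 3 + 122139543 / 40000000 * s ^ 3 * t ^ 2 +
      45039503 / 25000000 * s ^ 4 * t + 35397607 / 100000000 * s ^ 5 := by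
    positivity
  have e :
      24543 / 160000 * t ^ 5 + 139077 / 160000 * s * t ^ 4 +
      93268881 / 40000000 * s ^ 2 * t ^ 3 + 122139543 / 40000000 * s ^ 3 * t ^ 2 +
      45039503 / 25000000 * s ^ 4 * t + 35397607 / 100000000 * s ^ 5 =
      (1 + 1 / 50 + (1 / 50) ^ 2 / 2) * ((1 + 1 / 20 * u ^ 2) *
      (1 + u + 553 / 1000 * u ^ 2)) -
      (1 + u + u ^ 2 / 2 + u ^ 3 / 6 + u ^ 4 / 24 + u ^ 5 / 100) := by
    rw [hs, ht]
    ring
  rw [e] at h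
  linarith

theorem ev_six_e43_g0 (u : ℝ) (h1 : 2 / 3 ≤ u) (h2 : u ≤ 11 / 6) :
    97387 / 50000 * (1 + (u - 2 / 3) / 6) ^ 6 ≤
      (1 + 1 / 50 + (1 / 50) ^ 2 / 2) * ((1 + (1 / 20 * u ^ 2) + (1 / 20 * u ^ 2) ^ 2 / 2 +
      (1 / 20 * u ^ 2) ^ 3 / 6) *
      (1 + u + 553 / 1000 * u ^ 2)) := by
  obtain ⟨s, hs⟩ : ∃ s, s = u - (2 / 3) := ⟨_, rfl⟩
  obtain ⟨t, ht⟩ : ∃ t, t = 11 / 6 - u := ⟨_, rfl⟩
  have hs0 : 0 ≤ s := by linarith
  have ht0 : 0 ≤ t := by linarith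
  have h : 0 ≤
      2321530051664 / 168890654296875 * t ^ 8 +
      18429289326068 / 168890654296875 * s * t ^ 7 +
      18100417392937 / 48254472656250 * s ^ 2 * t ^ 6 +
      17133458213198 / 24127236328125 * s ^ 3 * t ^ 5 +
      121978334816861 / 154414312500000 * s ^ 4 * t ^ 4 +
      792224936264557 / 1544143125000000 * s ^ 5 * t ^ 3 +
      60556624025539559 / 333534915000000000 * s ^ 6 * t ^ 2 +
      69826427221528987 / 2334744405000000000 * s ^ 7 * t +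
      69803763726313271 / 37355910480000000000 * s ^ 8 := by
    positivity
  have e :
      2321530051664 / 168890654296875 * t ^ 8 +
      18429289326068 / 168890654296875 * s * t ^ 7 +
      18100417392937 / 48254472656250 * s ^ 2 * t ^ 6 +
      17133458213198 / 24127236328125 * s ^ 3 * t ^ 5 +
      121978334816861 / 154414312500000 * s ^ 4 * t ^ 4 +
      792224936264557 / 1544143125000000 * s ^ 5 * t ^ 3 +
      60556624025539559 / 333534915000000000 * s ^ 6 * t ^ 2 +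
      69826427221528987 / 2334744405000000000 * s ^ 7 * t +
      69803763726313271 / 37355910480000000000 * s ^ 8 =
      (1 + 1 / 50 + (1 / 50) ^ 2 / 2) * ((1 + (1 / 20 * u ^ 2) + (1 / 20 * u ^ 2) ^ 2 / 2 +
      (1 / 20 * u ^ 2) ^ 3 / 6) *
      (1 + u + 553 / 1000 * u ^ 2)) -
      (97387 / 50000 * (1 + (u - 2 / 3) / 6) ^ 6) := by
    rw [hs, ht]
    ring
  rw [e] at h
  linarith

theorem ev_six_e43_g1 (u : ℝ) (h1 : 11 / 6 ≤ u) (h2 : u ≤ 17 / 8) :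
    97387 / 50000 * (1 + (u - 2 / 3) / 6) ^ 6 ≤
      (1 + 1 / 50 + (1 / 50) ^ 2 / 2) * ((1 + (1 / 20 * u ^ 2) + (1 / 20 * u ^ 2) ^ 2 / 2 +
      (1 / 20 * u ^ 2) ^ 3 / 6) *
      (1 + u + 553 / 1000 * u ^ 2)) := by
  obtain ⟨s, hs⟩ : ∃ s, s = u - (11 / 6) := ⟨_, rfl⟩
  obtain ⟨t, ht⟩ : ∃ t, t = 17 / 8 - u := ⟨_, rfl⟩
  have hs0 : 0 ≤ s := by linarith
  have ht0 : 0 ≤ t := by linarith
  have h : 0 ≤
      558430109810506168 / 4560047666015625 * t ^ 8 +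
      3349855427016134096 / 4560047666015625 * s * t ^ 7 +
      1181584089658820542 / 651435380859375 * s ^ 2 * t ^ 6 +
      1542662651625895741 / 651435380859375 * s ^ 3 * t ^ 5 +
      3711633198541841911 / 2084593218750000 * s ^ 4 * t ^ 4 +
      9009640796796734221 / 10422966093750000 * s ^ 5 * t ^ 3 +
      31836443890696578431 / 83383728750000000 * s ^ 6 * t ^ 2 +
      201098974099065836621 / 1167372202500000000 * s ^ 7 * t +
      1523571701040909507191 / 37355910480000000000 * s ^ 8 := by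
    positivity
  have e :
      558430109810506168 / 4560047666015625 * t ^ 8 +
      3349855427016134096 / 4560047666015625 * s * t ^ 7 +
      1181584089658820542 / 651435380859375 * s ^ 2 * t ^ 6 +
      1542662651625895741 / 651435380859375 * s ^ 3 * t ^ 5 +
      3711633198541841911 / 2084593218750000 * s ^ 4 * t ^ 4 +
      9009640796796734221 / 10422966093750000 * s ^ 5 * t ^ 3 +
      31836443890696578431 / 83383728750000000 * s ^ 6 * t ^ 2 +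
      201098974099065836621 / 1167372202500000000 * s ^ 7 * t +
      1523571701040909507191 / 37355910480000000000 * s ^ 8 =
      (1 + 1 / 50 + (1 / 50) ^ 2 / 2) * ((1 + (1 / 20 * u ^ 2) + (1 / 20 * u ^ 2) ^ 2 / 2 +
      (1 / 20 * u ^ 2) ^ 3 / 6) *
      (1 + u + 553 / 1000 * u ^ 2)) -
      (97387 / 50000 * (1 + (u - 2 / 3) / 6) ^ 6) := by
    rw [hs, ht]
    ring
  rw [e] at h
  linarith

theorem ev_six_e43_g2 (u : ℝ) (h1 : 17 / 8 ≤ u) (h2 : u ≤ 29 / 12) :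
    97387 / 50000 * (1 + (u - 2 / 3) / 6) ^ 6 ≤
      (1 + 1 / 50 + (1 / 50) ^ 2 / 2) * ((1 + (1 / 20 * u ^ 2) + (1 / 20 * u ^ 2) ^ 2 / 2 +
      (1 / 20 * u ^ 2) ^ 3 / 6) *
      (1 + u + 553 / 1000 * u ^ 2)) := by
  obtain ⟨s, hs⟩ : ∃ s, s = u - (17 / 8) := ⟨_, rfl⟩
  obtain ⟨t, ht⟩ : ∃ t, t = 29 / 12 - u := ⟨_, rfl⟩
  have hs0 : 0 ≤ s := by linarith
  have ht0 : 0 ≤ t := by linarith
  have h : 0 ≤
      1523571701040909507191 / 37355910480000000000 * t ^ 8 +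
      1121373752842777833949 / 2334744405000000000 * s * t ^ 7 +
      846521580207432474431 / 333534915000000000 * s ^ 2 * t ^ 6 +
      69659784084499950541 / 9264858750000000 * s ^ 3 * t ^ 5 +
      5554718361781168791 / 411771500000000 * s ^ 4 * t ^ 4 +
      11586440850581267767 / 772071562500000 * s ^ 5 * t ^ 3 +
      2610364780412210271 / 257357187500000 * s ^ 6 * t ^ 2 +
      1721842090465321749 / 450375078125000 * s ^ 7 * t +
      3337289830422243253 / 5404500937500000 * s ^ 8 := by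
    positivity
  have e :
      1523571701040909507191 / 37355910480000000000 * t ^ 8 +
      1121373752842777833949 / 2334744405000000000 * s * t ^ 7 +
      846521580207432474431 / 333534915000000000 * s ^ 2 * t ^ 6 +
      69659784084499950541 / 9264858750000000 * s ^ 3 * t ^ 5 +
      5554718361781168791 / 411771500000000 * s ^ 4 * t ^ 4 +
      11586440850581267767 / 772071562500000 * s ^ 5 * t ^ 3 +
      2610364780412210271 / 257357187500000 * s ^ 6 * t ^ 2 +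
      1721842090465321749 / 450375078125000 * s ^ 7 * t +
      3337289830422243253 / 5404500937500000 * s ^ 8 =
      (1 + 1 / 50 + (1 / 50) ^ 2 / 2) * ((1 + (1 / 20 * u ^ 2) + (1 / 20 * u ^ 2) ^ 2 / 2 +
      (1 / 20 * u ^ 2) ^ 3 / 6) *
      (1 + u + 553 / 1000 * u ^ 2)) -
      (97387 / 50000 * (1 + (u - 2 / 3) / 6) ^ 6) := by
    rw [hs, ht]
    ring
  rw [e] at h
  linarith

theorem ev_six_e43_g3 (u : ℝ) (h1 : 29 / 12 ≤ u) (h2 : u ≤ 3) :
    97387 / 50000 * (1 + (u - 2 / 3) / 6) ^ 6 ≤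
      (1 + 1 / 50 + (1 / 50) ^ 2 / 2) * ((1 + (1 / 20 * u ^ 2) + (1 / 20 * u ^ 2) ^ 2 / 2 +
      (1 / 20 * u ^ 2) ^ 3 / 6) *
      (1 + u + 553 / 1000 * u ^ 2)) := by
  obtain ⟨s, hs⟩ : ∃ s, s = u - (29 / 12) := ⟨_, rfl⟩
  obtain ⟨t, ht⟩ : ∃ t, t = 3 - u := ⟨_, rfl⟩
  have hs0 : 0 ≤ s := by linarith
  have ht0 : 0 ≤ t := by linarith
  have h : 0 ≤
      3337289830422243253 / 1383552240000000000 * t ^ 8 +
      50482741873653797 / 1801500312500000 * s * t ^ 7 +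
      8949928628464881 / 64339296875000 * s ^ 2 * t ^ 6 +
      148922254910279933 / 386035781250000 * s ^ 3 * t ^ 5 +
      16861456065864341 / 25735718750000 * s ^ 4 * t ^ 4 +
      50629343879300834 / 72381708984375 * s ^ 5 * t ^ 3 +
      299312812410037612 / 651435380859375 * s ^ 6 * t ^ 2 +
      775732642475680016 / 4560047666015625 * s ^ 7 * t +
      124155443543144728 / 4560047666015625 * s ^ 8 := by
    positivity
  have e :
      3337289830422243253 / 1383552240000000000 * t ^ 8 +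
      50482741873653797 / 1801500312500000 * s * t ^ 7 +
      8949928628464881 / 64339296875000 * s ^ 2 * t ^ 6 +
      148922254910279933 / 386035781250000 * s ^ 3 * t ^ 5 +
      16861456065864341 / 25735718750000 * s ^ 4 * t ^ 4 +
      50629343879300834 / 72381708984375 * s ^ 5 * t ^ 3 +
      299312812410037612 / 651435380859375 * s ^ 6 * t ^ 2 +
      775732642475680016 / 4560047666015625 * s ^ 7 * t +
      124155443543144728 / 4560047666015625 * s ^ 8 =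
      (1 + 1 / 50 + (1 / 50) ^ 2 / 2) * ((1 + (1 / 20 * u ^ 2) + (1 / 20 * u ^ 2) ^ 2 / 2 +
      (1 / 20 * u ^ 2) ^ 3 / 6) *
      (1 + u + 553 / 1000 * u ^ 2)) -
      (97387 / 50000 * (1 + (u - 2 / 3) / 6) ^ 6) := by
    rw [hs, ht]
    ring
  rw [e] at h
  linarith

theorem ev_six_e43_t (u : ℝ) (h1 : 3 ≤ u) :
    97387 / 50000 * (1 + (u - 2 / 3) / 6) ^ 6 ≤
      (1 + 1 / 50 + (1 / 50) ^ 2 / 2) * ((1 + (1 / 20 * u ^ 2) + (1 / 20 * u ^ 2) ^ 2 / 2 +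
      (1 / 20 * u ^ 2) ^ 3 / 6) *
      (1 + u + 553 / 1000 * u ^ 2)) := by
  obtain ⟨s, hs⟩ : ∃ s, s = u - (3) := ⟨_, rfl⟩
  have hs0 : 0 ≤ s := by linarith
  have h : 0 ≤
      15519430442893091 / 42515280000000000 + 647353886516303 / 590490000000000 * s +
      240499334606387 / 196830000000000 * s ^ 2 + 63861229230979 / 98415000000000 * s ^ 3 +
      3322966148929 / 17496000000000 * s ^ 4 + 248244427271 / 7290000000000 * s ^ 5 +
      7459408189 / 1822500000000 * s ^ 6 + 1137523 / 3750000000 * s ^ 7 +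
      2820853 / 240000000000 * s ^ 8 := by
    positivity
  have e :
      15519430442893091 / 42515280000000000 + 647353886516303 / 590490000000000 * s +
      240499334606387 / 196830000000000 * s ^ 2 + 63861229230979 / 98415000000000 * s ^ 3 +
      3322966148929 / 17496000000000 * s ^ 4 + 248244427271 / 7290000000000 * s ^ 5 +
      7459408189 / 1822500000000 * s ^ 6 + 1137523 / 3750000000 * s ^ 7 +
      2820853 / 240000000000 * s ^ 8 =
      (1 + 1 / 50 + (1 / 50) ^ 2 / 2) * ((1 + (1 / 20 * u ^ 2) + (1 / 20 * u ^ 2) ^ 2 / 2 +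
      (1 / 20 * u ^ 2) ^ 3 / 6) *
      (1 + u + 553 / 1000 * u ^ 2)) -
      (97387 / 50000 * (1 + (u - 2 / 3) / 6) ^ 6) := by
    rw [hs]
    ring
  rw [e] at h
  linarith

/-- `K = 6`: `(c, μ, P, δ) = (553 / 1000, 1 / 20, 2 / 3, 1 / 50)` -/
theorem expFd_six_e43 : ExpFd 6 (553 / 1000) (1 / 20) (2 / 3) (1 / 50) := by
  have hde : (1 + 1 / 50 + (1 / 50) ^ 2 / 2) ≤ Real.exp (1 / 50) :=
    Real.quadratic_le_exp_of_nonneg (by norm_num)
  have hq : ∀ u : ℝ, 0 ≤ 1 + u + 553 / 1000 * u ^ 2 := fun u => by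
    nlinarith [sq_nonneg (u + 2), sq_nonneg u]
  have hR : ∀ (u x y : ℝ), x ≤ y →
      y ≤ (1 + 1 / 50 + (1 / 50) ^ 2 / 2) * (1 + u + 553 / 1000 * u ^ 2) →
      x ≤ Real.exp (1 / 50) * (1 + u + 553 / 1000 * u ^ 2) := fun u x y h1 h2 =>
    (h1.trans h2).trans (mul_le_mul_of_nonneg_right hde (hq u))
  refine ExpFd.of (by norm_num) (by norm_num) (by norm_num) (by norm_num) (by norm_num) ?_ ?_ ?_
  · intro u h1
    rcases le_total u (-3) with h3 | h3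
    · exact hR u _ _ (ev_exp_n3 h3) (ev_six_e43_d u h3)
    rcases le_total u (-2) with h4 | h4
    · refine hR u _ _ (ev_exp_n2 h4) ?_
      exact ev_six_e43_c0 u (by linarith) (by linarith)
    rcases le_total u (-1) with h5 | h5
    · refine hR u _ _ (ev_exp_n1 h5) ?_
      exact ev_six_e43_b0 u (by linarith) (by linarith)
    refine hR u _ _ (ev_exp_n0 h1) ?_
    exact ev_six_e43_a0 u (by linarith) (by linarith)
  · intro u h1 h2
    have h5 := mul_le_mul_of_nonneg_right (Real.add_one_le_exp (1 / 20 * u ^ 2)) (hq u)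
    rw [add_comm (1 / 20 * u ^ 2) 1] at h5
    have h6 : 0 ≤ Real.exp (1 / 20 * u ^ 2) * (1 + u + 553 / 1000 * u ^ 2) :=
      mul_nonneg (Real.exp_nonneg _) (hq u)
    rw [Real.exp_add, mul_assoc]
    refine ((ev_exp_p h1 (by linarith)).trans ?_).trans
      ((mul_le_mul_of_nonneg_left h5
        (by norm_num : (0 : ℝ) ≤ (1 + 1 / 50 + (1 / 50) ^ 2 / 2))).trans
        (mul_le_mul_of_nonneg_right hde h6))
    exact ev_six_e43_e0 u (by linarith) (by linarith)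
  · intro u h1
    have h4 : 0 ≤ (1 + (u - 2 / 3) / 6) ^ 6 := by
      have : 0 ≤ (u - 2 / 3) / 6 := div_nonneg (by linarith) (by norm_num)
      positivity
    have hE : Real.exp (2 / 3) ≤ 97387 / 50000 := ev_up_2_3
    have hx : 0 ≤ 1 / 20 * u ^ 2 := by positivity
    have h5 := mul_le_mul_of_nonneg_right (taylor3_le_expE _ hx) (hq u)
    have h6 : 0 ≤ Real.exp (1 / 20 * u ^ 2) * (1 + u + 553 / 1000 * u ^ 2) :=
      mul_nonneg (Real.exp_nonneg _) (hq u)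
    rw [Real.exp_add, mul_assoc]
    push_cast
    refine ((mul_le_mul_of_nonneg_right hE h4).trans ?_).trans
      ((mul_le_mul_of_nonneg_left h5
        (by norm_num : (0 : ℝ) ≤ (1 + 1 / 50 + (1 / 50) ^ 2 / 2))).trans
        (mul_le_mul_of_nonneg_right hde h6))
    rcases le_total u (11 / 6) with hh | hh
    · exact ev_six_e43_g0 u (by linarith) (by linarith)
    rcases le_total u (17 / 8) with hh | hh
    · exact ev_six_e43_g1 u (by linarith) (by linarith)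
    rcases le_total u (29 / 12) with hh | hh
    · exact ev_six_e43_g2 u (by linarith) (by linarith)
    rcases le_total u (3) with hh | hh
    · exact ev_six_e43_g3 u (by linarith) (by linarith)
    exact ev_six_e43_t u (by linarith)

theorem ev_six_e44_a0 (u : ℝ) (h1 : -1 ≤ u) (h2 : u ≤ 0) :
    1 + u + u ^ 2 / 2 + u ^ 3 / 6 + u ^ 4 / 24 ≤
      (1 + 1 / 20 + (1 / 20) ^ 2 / 2) * (1 + u + 233 / 500 * u ^ 2) := by
  obtain ⟨s, hs⟩ : ∃ s, s = u - (-1) := ⟨_, rfl⟩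
  obtain ⟨t, ht⟩ : ∃ t, t = 0 - u := ⟨_, rfl⟩
  have hs0 : 0 ≤ s := by linarith
  have ht0 : 0 ≤ t := by linarith
  have h : 0 ≤
      45953 / 400000 * t ^ 4 + 118609 / 600000 * s * t ^ 3 + 57453 / 400000 * s ^ 2 * t ^ 2 +
      123 / 800 * s ^ 3 * t + 41 / 800 * s ^ 4 := by
    positivity
  have e :
      45953 / 400000 * t ^ 4 + 118609 / 600000 * s * t ^ 3 + 57453 / 400000 * s ^ 2 * t ^ 2 +
      123 / 800 * s ^ 3 * t + 41 / 800 * s ^ 4 =
      (1 + 1 / 20 + (1 / 20) ^ 2 / 2) * (1 + u + 233 / 500 * u ^ 2) -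
      (1 + u + u ^ 2 / 2 + u ^ 3 / 6 + u ^ 4 / 24) := by
    rw [hs, ht]
    ring
  rw [e] at h
  linarith

theorem ev_six_e44_b0 (u : ℝ) (h1 : -2 ≤ u) (h2 : u ≤ -1) :
    36788 / 100000 *
      (1 + (u + 1) + (u + 1) ^ 2 / 2 + (u + 1) ^ 3 / 6 + (u + 1) ^ 4 / 24) ≤
      (1 + 1 / 20 + (1 / 20) ^ 2 / 2) * (1 + u + 233 / 500 * u ^ 2) := by
  obtain ⟨s, hs⟩ : ∃ s, s = u - (-2) := ⟨_, rfl⟩
  obtain ⟨t, ht⟩ : ∃ t, t = -1 - u := ⟨_, rfl⟩
  have hs0 : 0 ≤ s := by linarith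
  have ht0 : 0 ≤ t := by linarith
  have h : 0 ≤
      30813 / 40000 * t ^ 4 + 307559 / 150000 * s * t ^ 3 + 770857 / 400000 * s ^ 2 * t ^ 2 +
      156881 / 200000 * s ^ 3 * t + 48801 / 400000 * s ^ 4 := by
    positivity
  have e :
      30813 / 40000 * t ^ 4 + 307559 / 150000 * s * t ^ 3 + 770857 / 400000 * s ^ 2 * t ^ 2 +
      156881 / 200000 * s ^ 3 * t + 48801 / 400000 * s ^ 4 =
      (1 + 1 / 20 + (1 / 20) ^ 2 / 2) * (1 + u + 233 / 500 * u ^ 2) -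
      (36788 / 100000 *
      (1 + (u + 1) + (u + 1) ^ 2 / 2 + (u + 1) ^ 3 / 6 + (u + 1) ^ 4 / 24)) := by
    rw [hs, ht]
    ring
  rw [e] at h
  linarith

theorem ev_six_e44_c0 (u : ℝ) (h1 : -3 ≤ u) (h2 : u ≤ -2) :
    13534 / 100000 *
      (1 + (u + 2) + (u + 2) ^ 2 / 2 + (u + 2) ^ 3 / 6 + (u + 2) ^ 4 / 24) ≤
      (1 + 1 / 20 + (1 / 20) ^ 2 / 2) * (1 + u + 233 / 500 * u ^ 2) := by
  obtain ⟨s, hs⟩ : ∃ s, s = u - (-3) := ⟨_, rfl⟩
  obtain ⟨t, ht⟩ : ∃ t, t = -2 - u := ⟨_, rfl⟩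
  have hs0 : 0 ≤ s := by linarith
  have ht0 : 0 ≤ t := by linarith
  have h : 0 ≤
      225569 / 100000 * t ^ 4 + 4253761 / 600000 * s * t ^ 3 +
      655257 / 80000 * s ^ 2 * t ^ 2 + 206769 / 50000 * s ^ 3 * t + 38647 / 50000 * s ^ 4 := by
    positivity
  have e :
      225569 / 100000 * t ^ 4 + 4253761 / 600000 * s * t ^ 3 +
      655257 / 80000 * s ^ 2 * t ^ 2 + 206769 / 50000 * s ^ 3 * t + 38647 / 50000 * s ^ 4 =
      (1 + 1 / 20 + (1 / 20) ^ 2 / 2) * (1 + u + 233 / 500 * u ^ 2) -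
      (13534 / 100000 *
      (1 + (u + 2) + (u + 2) ^ 2 / 2 + (u + 2) ^ 3 / 6 + (u + 2) ^ 4 / 24)) := by
    rw [hs, ht]
    ring
  rw [e] at h
  linarith

theorem ev_six_e44_d (u : ℝ) (h2 : u ≤ -3) :
    4979 / 100000 ≤
      (1 + 1 / 20 + (1 / 20) ^ 2 / 2) * (1 + u + 233 / 500 * u ^ 2) := by
  obtain ⟨s, hs⟩ : ∃ s, s = -3 - u := ⟨_, rfl⟩
  have hs0 : 0 ≤ s := by linarith
  have h : 0 ≤
      902661 / 400000 + 377609 / 200000 * s + 195953 / 400000 * s ^ 2 := by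
    positivity
  have e :
      902661 / 400000 + 377609 / 200000 * s + 195953 / 400000 * s ^ 2 =
      (1 + 1 / 20 + (1 / 20) ^ 2 / 2) * (1 + u + 233 / 500 * u ^ 2) -
      (4979 / 100000) := by
    rw [hs]
    ring
  rw [e] at h
  linarith

theorem ev_six_e44_e0 (u : ℝ) (h1 : 0 ≤ u) (h2 : u ≤ 2 / 3) :
    1 + u + u ^ 2 / 2 + u ^ 3 / 6 + u ^ 4 / 24 + u ^ 5 / 100 ≤
      (1 + 1 / 20 + (1 / 20) ^ 2 / 2) * ((1 + 3 / 50 * u ^ 2) *
      (1 + u + 233 / 500 * u ^ 2)) := by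
  obtain ⟨s, hs⟩ : ∃ s, s = u - (0) := ⟨_, rfl⟩
  obtain ⟨t, ht⟩ : ∃ t, t = 2 / 3 - u := ⟨_, rfl⟩
  have hs0 : 0 ≤ s := by linarith
  have ht0 : 0 ≤ t := by linarith
  have h : 0 ≤
      9963 / 25600 * t ^ 5 + 56457 / 25600 * s * t ^ 4 + 16346691 / 3200000 * s ^ 2 * t ^ 3 +
      18405213 / 3200000 * s ^ 3 * t ^ 2 + 60706651 / 20000000 * s ^ 4 * t +
      11317451 / 20000000 * s ^ 5 := by
    positivity
  have e :
      9963 / 25600 * t ^ 5 + 56457 / 25600 * s * t ^ 4 + 16346691 / 3200000 * s ^ 2 * t ^ 3 +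
      18405213 / 3200000 * s ^ 3 * t ^ 2 + 60706651 / 20000000 * s ^ 4 * t +
      11317451 / 20000000 * s ^ 5 =
      (1 + 1 / 20 + (1 / 20) ^ 2 / 2) * ((1 + 3 / 50 * u ^ 2) *
      (1 + u + 233 / 500 * u ^ 2)) -
      (1 + u + u ^ 2 / 2 + u ^ 3 / 6 + u ^ 4 / 24 + u ^ 5 / 100) := by
    rw [hs, ht]
    ring
  rw [e] at h
  linarith

theorem ev_six_e44_g0 (u : ℝ) (h1 : 2 / 3 ≤ u) (h2 : u ≤ 4 / 3) :
    97387 / 50000 * (1 + (u - 2 / 3) / 6) ^ 6 ≤
      (1 + 1 / 20 + (1 / 20) ^ 2 / 2) * ((1 + (3 / 50 * u ^ 2) + (3 / 50 * u ^ 2) ^ 2 / 2 +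
      (3 / 50 * u ^ 2) ^ 3 / 6) *
      (1 + u + 233 / 500 * u ^ 2)) := by
  obtain ⟨s, hs⟩ : ∃ s, s = u - (2 / 3) := ⟨_, rfl⟩
  obtain ⟨t, ht⟩ : ∃ t, t = 4 / 3 - u := ⟨_, rfl⟩
  have hs0 : 0 ≤ s := by linarith
  have ht0 : 0 ≤ t := by linarith
  have h : 0 ≤
      385990436979 / 200000000000 * t ^ 8 + 1483464629007 / 100000000000 * s * t ^ 7 +
      19736816006871 / 400000000000 * s ^ 2 * t ^ 6 +
      18490641634017 / 200000000000 * s ^ 3 * t ^ 5 +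
      8508948356217 / 80000000000 * s ^ 4 * t ^ 4 +
      22991024259677 / 300000000000 * s ^ 5 * t ^ 3 +
      1089688938892141 / 32400000000000 * s ^ 6 * t ^ 2 +
      132603724350751 / 16200000000000 * s ^ 7 * t + 27339554147413 / 32400000000000 * s ^ 8 := by
    positivity
  have e :
      385990436979 / 200000000000 * t ^ 8 + 1483464629007 / 100000000000 * s * t ^ 7 +
      19736816006871 / 400000000000 * s ^ 2 * t ^ 6 +
      18490641634017 / 200000000000 * s ^ 3 * t ^ 5 +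
      8508948356217 / 80000000000 * s ^ 4 * t ^ 4 +
      22991024259677 / 300000000000 * s ^ 5 * t ^ 3 +
      1089688938892141 / 32400000000000 * s ^ 6 * t ^ 2 +
      132603724350751 / 16200000000000 * s ^ 7 * t + 27339554147413 / 32400000000000 * s ^ 8 =
      (1 + 1 / 20 + (1 / 20) ^ 2 / 2) * ((1 + (3 / 50 * u ^ 2) + (3 / 50 * u ^ 2) ^ 2 / 2 +
      (3 / 50 * u ^ 2) ^ 3 / 6) *
      (1 + u + 233 / 500 * u ^ 2)) -
      (97387 / 50000 * (1 + (u - 2 / 3) / 6) ^ 6) := by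
    rw [hs, ht]
    ring
  rw [e] at h
  linarith

theorem ev_six_e44_g1 (u : ℝ) (h1 : 4 / 3 ≤ u) (h2 : u ≤ 5 / 3) :
    97387 / 50000 * (1 + (u - 2 / 3) / 6) ^ 6 ≤
      (1 + 1 / 20 + (1 / 20) ^ 2 / 2) * ((1 + (3 / 50 * u ^ 2) + (3 / 50 * u ^ 2) ^ 2 / 2 +
      (3 / 50 * u ^ 2) ^ 3 / 6) *
      (1 + u + 233 / 500 * u ^ 2)) := by
  obtain ⟨s, hs⟩ : ∃ s, s = u - (4 / 3) := ⟨_, rfl⟩
  obtain ⟨t, ht⟩ : ∃ t, t = 5 / 3 - u := ⟨_, rfl⟩
  have hs0 : 0 ≤ s := by linarith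
  have ht0 : 0 ≤ t := by linarith
  have h : 0 ≤
      27339554147413 / 126562500000 * t ^ 8 + 39094185083641 / 25312500000 * s * t ^ 7 +
      96396006452347 / 20250000000 * s ^ 2 * t ^ 6 +
      463587130351 / 56250000 * s ^ 3 * t ^ 5 + 262265252251 / 30000000 * s ^ 4 * t ^ 4 +
      2784096241 / 480000 * s ^ 5 * t ^ 3 + 1875080397 / 800000 * s ^ 6 * t ^ 2 +
      842773833 / 1600000 * s ^ 7 * t + 323880741 / 6400000 * s ^ 8 := by
    positivity
  have e :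
      27339554147413 / 126562500000 * t ^ 8 + 39094185083641 / 25312500000 * s * t ^ 7 +
      96396006452347 / 20250000000 * s ^ 2 * t ^ 6 +
      463587130351 / 56250000 * s ^ 3 * t ^ 5 + 262265252251 / 30000000 * s ^ 4 * t ^ 4 +
      2784096241 / 480000 * s ^ 5 * t ^ 3 + 1875080397 / 800000 * s ^ 6 * t ^ 2 +
      842773833 / 1600000 * s ^ 7 * t + 323880741 / 6400000 * s ^ 8 =
      (1 + 1 / 20 + (1 / 20) ^ 2 / 2) * ((1 + (3 / 50 * u ^ 2) + (3 / 50 * u ^ 2) ^ 2 / 2 +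
      (3 / 50 * u ^ 2) ^ 3 / 6) *
      (1 + u + 233 / 500 * u ^ 2)) -
      (97387 / 50000 * (1 + (u - 2 / 3) / 6) ^ 6) := by
    rw [hs, ht]
    ring
  rw [e] at h
  linarith

theorem ev_six_e44_g2 (u : ℝ) (h1 : 5 / 3 ≤ u) (h2 : u ≤ 2) :
    97387 / 50000 * (1 + (u - 2 / 3) / 6) ^ 6 ≤
      (1 + 1 / 20 + (1 / 20) ^ 2 / 2) * ((1 + (3 / 50 * u ^ 2) + (3 / 50 * u ^ 2) ^ 2 / 2 +
      (3 / 50 * u ^ 2) ^ 3 / 6) *
      (1 + u + 233 / 500 * u ^ 2)) := by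
  obtain ⟨s, hs⟩ : ∃ s, s = u - (5 / 3) := ⟨_, rfl⟩
  obtain ⟨t, ht⟩ : ∃ t, t = 2 - u := ⟨_, rfl⟩
  have hs0 : 0 ≤ s := by linarith
  have ht0 : 0 ≤ t := by linarith
  have h : 0 ≤
      323880741 / 6400000 * t ^ 8 + 452749131 / 1600000 * s * t ^ 7 +
      25499697 / 40000 * s ^ 2 * t ^ 6 + 1804874617 / 2400000 * s ^ 3 * t ^ 5 +
      1412271823 / 2500000 * s ^ 4 * t ^ 4 + 23606823539 / 56250000 * s ^ 5 * t ^ 3 +
      7145841565387 / 20250000000 * s ^ 6 * t ^ 2 + 1235502194611 / 6328125000 * s ^ 7 * t +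
      2786111809589 / 63281250000 * s ^ 8 := by
    positivity
  have e :
      323880741 / 6400000 * t ^ 8 + 452749131 / 1600000 * s * t ^ 7 +
      25499697 / 40000 * s ^ 2 * t ^ 6 + 1804874617 / 2400000 * s ^ 3 * t ^ 5 +
      1412271823 / 2500000 * s ^ 4 * t ^ 4 + 23606823539 / 56250000 * s ^ 5 * t ^ 3 +
      7145841565387 / 20250000000 * s ^ 6 * t ^ 2 + 1235502194611 / 6328125000 * s ^ 7 * t +
      2786111809589 / 63281250000 * s ^ 8 =
      (1 + 1 / 20 + (1 / 20) ^ 2 / 2) * ((1 + (3 / 50 * u ^ 2) + (3 / 50 * u ^ 2) ^ 2 / 2 +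
      (3 / 50 * u ^ 2) ^ 3 / 6) *
      (1 + u + 233 / 500 * u ^ 2)) -
      (97387 / 50000 * (1 + (u - 2 / 3) / 6) ^ 6) := by
    rw [hs, ht]
    ring
  rw [e] at h
  linarith

theorem ev_six_e44_t (u : ℝ) (h1 : 2 ≤ u) :
    97387 / 50000 * (1 + (u - 2 / 3) / 6) ^ 6 ≤
      (1 + 1 / 20 + (1 / 20) ^ 2 / 2) * ((1 + (3 / 50 * u ^ 2) + (3 / 50 * u ^ 2) ^ 2 / 2 +
      (3 / 50 * u ^ 2) ^ 3 / 6) *
      (1 + u + 233 / 500 * u ^ 2)) := by
  obtain ⟨s, hs⟩ : ∃ s, s = u - (2) := ⟨_, rfl⟩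
  have hs0 : 0 ≤ s := by linarith
  have h : 0 ≤
      2786111809589 / 415188281250000 + 1655645421767 / 23066015625000 * s +
      36951285166817 / 123018750000000 * s ^ 2 + 15974613353221 / 61509375000000 * s ^ 3 +
      279002692111 / 2733750000000 * s ^ 4 + 202031383423 / 9112500000000 * s ^ 5 +
      30826885037 / 9112500000000 * s ^ 6 + 8000433 / 25000000000 * s ^ 7 +
      1763577 / 100000000000 * s ^ 8 := by
    positivity
  have e :
      2786111809589 / 415188281250000 + 1655645421767 / 23066015625000 * s +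
      36951285166817 / 123018750000000 * s ^ 2 + 15974613353221 / 61509375000000 * s ^ 3 +
      279002692111 / 2733750000000 * s ^ 4 + 202031383423 / 9112500000000 * s ^ 5 +
      30826885037 / 9112500000000 * s ^ 6 + 8000433 / 25000000000 * s ^ 7 +
      1763577 / 100000000000 * s ^ 8 =
      (1 + 1 / 20 + (1 / 20) ^ 2 / 2) * ((1 + (3 / 50 * u ^ 2) + (3 / 50 * u ^ 2) ^ 2 / 2 +
      (3 / 50 * u ^ 2) ^ 3 / 6) *
      (1 + u + 233 / 500 * u ^ 2)) -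
      (97387 / 50000 * (1 + (u - 2 / 3) / 6) ^ 6) := by
    rw [hs]
    ring
  rw [e] at h
  linarith

/-- `K = 6`: `(c, μ, P, δ) = (233 / 500, 3 / 50, 2 / 3, 1 / 20)` -/
theorem expFd_six_e44 : ExpFd 6 (233 / 500) (3 / 50) (2 / 3) (1 / 20) := by
  have hde : (1 + 1 / 20 + (1 / 20) ^ 2 / 2) ≤ Real.exp (1 / 20) :=
    Real.quadratic_le_exp_of_nonneg (by norm_num)
  have hq : ∀ u : ℝ, 0 ≤ 1 + u + 233 / 500 * u ^ 2 := fun u => by
    nlinarith [sq_nonneg (u + 2), sq_nonneg u]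
  have hR : ∀ (u x y : ℝ), x ≤ y →
      y ≤ (1 + 1 / 20 + (1 / 20) ^ 2 / 2) * (1 + u + 233 / 500 * u ^ 2) →
      x ≤ Real.exp (1 / 20) * (1 + u + 233 / 500 * u ^ 2) := fun u x y h1 h2 =>
    (h1.trans h2).trans (mul_le_mul_of_nonneg_right hde (hq u))
  refine ExpFd.of (by norm_num) (by norm_num) (by norm_num) (by norm_num) (by norm_num) ?_ ?_ ?_
  · intro u h1
    rcases le_total u (-3) with h3 | h3
    · exact hR u _ _ (ev_exp_n3 h3) (ev_six_e44_d u h3)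
    rcases le_total u (-2) with h4 | h4
    · refine hR u _ _ (ev_exp_n2 h4) ?_
      exact ev_six_e44_c0 u (by linarith) (by linarith)
    rcases le_total u (-1) with h5 | h5
    · refine hR u _ _ (ev_exp_n1 h5) ?_
      exact ev_six_e44_b0 u (by linarith) (by linarith)
    refine hR u _ _ (ev_exp_n0 h1) ?_
    exact ev_six_e44_a0 u (by linarith) (by linarith)
  · intro u h1 h2
    have h5 := mul_le_mul_of_nonneg_right (Real.add_one_le_exp (3 / 50 * u ^ 2)) (hq u)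
    rw [add_comm (3 / 50 * u ^ 2) 1] at h5
    have h6 : 0 ≤ Real.exp (3 / 50 * u ^ 2) * (1 + u + 233 / 500 * u ^ 2) :=
      mul_nonneg (Real.exp_nonneg _) (hq u)
    rw [Real.exp_add, mul_assoc]
    refine ((ev_exp_p h1 (by linarith)).trans ?_).trans
      ((mul_le_mul_of_nonneg_left h5
        (by norm_num : (0 : ℝ) ≤ (1 + 1 / 20 + (1 / 20) ^ 2 / 2))).trans
        (mul_le_mul_of_nonneg_right hde h6))
    exact ev_six_e44_e0 u (by linarith) (by linarith)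
  · intro u h1
    have h4 : 0 ≤ (1 + (u - 2 / 3) / 6) ^ 6 := by
      have : 0 ≤ (u - 2 / 3) / 6 := div_nonneg (by linarith) (by norm_num)
      positivity
    have hE : Real.exp (2 / 3) ≤ 97387 / 50000 := ev_up_2_3
    have hx : 0 ≤ 3 / 50 * u ^ 2 := by positivity
    have h5 := mul_le_mul_of_nonneg_right (taylor3_le_expE _ hx) (hq u)
    have h6 : 0 ≤ Real.exp (3 / 50 * u ^ 2) * (1 + u + 233 / 500 * u ^ 2) :=
      mul_nonneg (Real.exp_nonneg _) (hq u)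
    rw [Real.exp_add, mul_assoc]
    push_cast
    refine ((mul_le_mul_of_nonneg_right hE h4).trans ?_).trans
      ((mul_le_mul_of_nonneg_left h5
        (by norm_num : (0 : ℝ) ≤ (1 + 1 / 20 + (1 / 20) ^ 2 / 2))).trans
        (mul_le_mul_of_nonneg_right hde h6))
    rcases le_total u (4 / 3) with hh | hh
    · exact ev_six_e44_g0 u (by linarith) (by linarith)
    rcases le_total u (5 / 3) with hh | hh
    · exact ev_six_e44_g1 u (by linarith) (by linarith)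
    rcases le_total u (2) with hh | hh
    · exact ev_six_e44_g2 u (by linarith) (by linarith)
    exact ev_six_e44_t u (by linarith)

theorem ev_six_e45_a0 (u : ℝ) (h1 : -1 ≤ u) (h2 : u ≤ 0) :
    1 + u + u ^ 2 / 2 + u ^ 3 / 6 + u ^ 4 / 24 ≤
      (1 + 1 / 10 + (1 / 10) ^ 2 / 2) * (1 + u + 407 / 1000 * u ^ 2) := by
  obtain ⟨s, hs⟩ : ∃ s, s = u - (-1) := ⟨_, rfl⟩
  obtain ⟨t, ht⟩ : ∃ t, t = 0 - u := ⟨_, rfl⟩
  have hs0 : 0 ≤ s := by linarith
  have ht0 : 0 ≤ t := by linarith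
  have h : 0 ≤
      14947 / 200000 * t ^ 4 + 51341 / 300000 * s * t ^ 3 + 52947 / 200000 * s ^ 2 * t ^ 2 +
      63 / 200 * s ^ 3 * t + 21 / 200 * s ^ 4 := by
    positivity
  have e :
      14947 / 200000 * t ^ 4 + 51341 / 300000 * s * t ^ 3 + 52947 / 200000 * s ^ 2 * t ^ 2 +
      63 / 200 * s ^ 3 * t + 21 / 200 * s ^ 4 =
      (1 + 1 / 10 + (1 / 10) ^ 2 / 2) * (1 + u + 407 / 1000 * u ^ 2) -
      (1 + u + u ^ 2 / 2 + u ^ 3 / 6 + u ^ 4 / 24) := by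
    rw [hs, ht]
    ring
  rw [e] at h
  linarith

theorem ev_six_e45_b0 (u : ℝ) (h1 : -2 ≤ u) (h2 : u ≤ -1) :
    36788 / 100000 *
      (1 + (u + 1) + (u + 1) ^ 2 / 2 + (u + 1) ^ 3 / 6 + (u + 1) ^ 4 / 24) ≤
      (1 + 1 / 10 + (1 / 10) ^ 2 / 2) * (1 + u + 407 / 1000 * u ^ 2) := by
  obtain ⟨s, hs⟩ : ∃ s, s = u - (-2) := ⟨_, rfl⟩
  obtain ⟨t, ht⟩ : ∃ t, t = -1 - u := ⟨_, rfl⟩
  have hs0 : 0 ≤ s := by linarith
  have ht0 : 0 ≤ t := by linarith
  have h : 0 ≤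
      111197 / 200000 * t ^ 4 + 105553 / 75000 * s * t ^ 3 + 49759 / 40000 * s ^ 2 * t ^ 2 +
      48977 / 100000 * s ^ 3 * t + 16371 / 200000 * s ^ 4 := by
    positivity
  have e :
      111197 / 200000 * t ^ 4 + 105553 / 75000 * s * t ^ 3 + 49759 / 40000 * s ^ 2 * t ^ 2 +
      48977 / 100000 * s ^ 3 * t + 16371 / 200000 * s ^ 4 =
      (1 + 1 / 10 + (1 / 10) ^ 2 / 2) * (1 + u + 407 / 1000 * u ^ 2) -
      (36788 / 100000 *
      (1 + (u + 1) + (u + 1) ^ 2 / 2 + (u + 1) ^ 3 / 6 + (u + 1) ^ 4 / 24)) := by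
    rw [hs, ht]
    ring
  rw [e] at h
  linarith

theorem ev_six_e45_c0 (u : ℝ) (h1 : -3 ≤ u) (h2 : u ≤ -2) :
    13534 / 100000 *
      (1 + (u + 2) + (u + 2) ^ 2 / 2 + (u + 2) ^ 3 / 6 + (u + 2) ^ 4 / 24) ≤
      (1 + 1 / 10 + (1 / 10) ^ 2 / 2) * (1 + u + 407 / 1000 * u ^ 2) := by
  obtain ⟨s, hs⟩ : ∃ s, s = u - (-3) := ⟨_, rfl⟩
  obtain ⟨t, ht⟩ : ∃ t, t = -2 - u := ⟨_, rfl⟩
  have hs0 : 0 ≤ s := by linarith
  have ht0 : 0 ≤ t := by linarith
  have h : 0 ≤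
      142949 / 80000 * t ^ 4 + 826339 / 150000 * s * t ^ 3 +
      1244301 / 200000 * s ^ 2 * t ^ 2 + 9574 / 3125 * s ^ 3 * t + 2793 / 5000 * s ^ 4 := by
    positivity
  have e :
      142949 / 80000 * t ^ 4 + 826339 / 150000 * s * t ^ 3 +
      1244301 / 200000 * s ^ 2 * t ^ 2 + 9574 / 3125 * s ^ 3 * t + 2793 / 5000 * s ^ 4 =
      (1 + 1 / 10 + (1 / 10) ^ 2 / 2) * (1 + u + 407 / 1000 * u ^ 2) -
      (13534 / 100000 *
      (1 + (u + 2) + (u + 2) ^ 2 / 2 + (u + 2) ^ 3 / 6 + (u + 2) ^ 4 / 24)) := by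
    rw [hs, ht]
    ring
  rw [e] at h
  linarith

theorem ev_six_e45_d (u : ℝ) (h2 : u ≤ -3) :
    4979 / 100000 ≤
      (1 + 1 / 10 + (1 / 10) ^ 2 / 2) * (1 + u + 407 / 1000 * u ^ 2) := by
  obtain ⟨s, hs⟩ : ∃ s, s = -3 - u := ⟨_, rfl⟩
  have hs0 : 0 ≤ s := by linarith
  have h : 0 ≤
      71513 / 40000 + 159341 / 100000 * s + 89947 / 200000 * s ^ 2 := by
    positivity
  have e :
      71513 / 40000 + 159341 / 100000 * s + 89947 / 200000 * s ^ 2 =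
      (1 + 1 / 10 + (1 / 10) ^ 2 / 2) * (1 + u + 407 / 1000 * u ^ 2) -
      (4979 / 100000) := by
    rw [hs]
    ring
  rw [e] at h
  linarith

theorem ev_six_e45_e0 (u : ℝ) (h1 : 0 ≤ u) (h2 : u ≤ 2 / 3) :
    1 + u + u ^ 2 / 2 + u ^ 3 / 6 + u ^ 4 / 24 + u ^ 5 / 100 ≤
      (1 + 1 / 10 + (1 / 10) ^ 2 / 2) * ((1 + 3 / 50 * u ^ 2) *
      (1 + u + 407 / 1000 * u ^ 2)) := by
  obtain ⟨s, hs⟩ : ∃ s, s = u - (0) := ⟨_, rfl⟩
  obtain ⟨t, ht⟩ : ∃ t, t = 2 / 3 - u := ⟨_, rfl⟩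
  have hs0 : 0 ≤ s := by linarith
  have ht0 : 0 ≤ t := by linarith
  have h : 0 ≤
      5103 / 6400 * t ^ 5 + 28917 / 6400 * s * t ^ 4 + 16246089 / 1600000 * s ^ 2 * t ^ 3 +
      17758947 / 1600000 * s ^ 3 * t ^ 2 + 232065971 / 40000000 * s ^ 4 * t +
      45007021 / 40000000 * s ^ 5 := by
    positivity
  have e :
      5103 / 6400 * t ^ 5 + 28917 / 6400 * s * t ^ 4 + 16246089 / 1600000 * s ^ 2 * t ^ 3 +
      17758947 / 1600000 * s ^ 3 * t ^ 2 + 232065971 / 40000000 * s ^ 4 * t +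
      45007021 / 40000000 * s ^ 5 =
      (1 + 1 / 10 + (1 / 10) ^ 2 / 2) * ((1 + 3 / 50 * u ^ 2) *
      (1 + u + 407 / 1000 * u ^ 2)) -
      (1 + u + u ^ 2 / 2 + u ^ 3 / 6 + u ^ 4 / 24 + u ^ 5 / 100) := by
    rw [hs, ht]
    ring
  rw [e] at h
  linarith

theorem ev_six_e45_g0 (u : ℝ) (h1 : 2 / 3 ≤ u) (h2 : u ≤ 11 / 6) :
    97387 / 50000 * (1 + (u - 2 / 3) / 6) ^ 6 ≤
      (1 + 1 / 10 + (1 / 10) ^ 2 / 2) * ((1 + (3 / 50 * u ^ 2) + (3 / 50 * u ^ 2) ^ 2 / 2 +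
      (3 / 50 * u ^ 2) ^ 3 / 6) *
      (1 + u + 407 / 1000 * u ^ 2)) := by
  obtain ⟨s, hs⟩ : ∃ s, s = u - (2 / 3) := ⟨_, rfl⟩
  obtain ⟨t, ht⟩ : ∃ t, t = 11 / 6 - u := ⟨_, rfl⟩
  have hs0 : 0 ≤ s := by linarith
  have ht0 : 0 ≤ t := by linarith
  have h : 0 ≤
      12218429655072 / 281484423828125 * t ^ 8 +
      94945189983984 / 281484423828125 * s * t ^ 7 +
      44841933190728 / 40212060546875 * s ^ 2 * t ^ 6 +
      81544537780479 / 40212060546875 * s ^ 3 * t ^ 5 +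
      281777676678969 / 128678593750000 * s ^ 4 * t ^ 4 +
      5448135513392879 / 3860357812500000 * s ^ 5 * t ^ 3 +
      429953024636296613 / 833837287500000000 * s ^ 6 * t ^ 2 +
      274996480639082717 / 2918430506250000000 * s ^ 7 * t +
      157761343890772703 / 23347444050000000000 * s ^ 8 := by
    positivity
  have e :
      12218429655072 / 281484423828125 * t ^ 8 +
      94945189983984 / 281484423828125 * s * t ^ 7 +
      44841933190728 / 40212060546875 * s ^ 2 * t ^ 6 +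
      81544537780479 / 40212060546875 * s ^ 3 * t ^ 5 +
      281777676678969 / 128678593750000 * s ^ 4 * t ^ 4 +
      5448135513392879 / 3860357812500000 * s ^ 5 * t ^ 3 +
      429953024636296613 / 833837287500000000 * s ^ 6 * t ^ 2 +
      274996480639082717 / 2918430506250000000 * s ^ 7 * t +
      157761343890772703 / 23347444050000000000 * s ^ 8 =
      (1 + 1 / 10 + (1 / 10) ^ 2 / 2) * ((1 + (3 / 50 * u ^ 2) + (3 / 50 * u ^ 2) ^ 2 / 2 +
      (3 / 50 * u ^ 2) ^ 3 / 6) *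
      (1 + u + 407 / 1000 * u ^ 2)) -
      (97387 / 50000 * (1 + (u - 2 / 3) / 6) ^ 6) := by
    rw [hs, ht]
    ring
  rw [e] at h
  linarith

theorem ev_six_e45_g1 (u : ℝ) (h1 : 11 / 6 ≤ u) (h2 : u ≤ 17 / 8) :
    97387 / 50000 * (1 + (u - 2 / 3) / 6) ^ 6 ≤
      (1 + 1 / 10 + (1 / 10) ^ 2 / 2) * ((1 + (3 / 50 * u ^ 2) + (3 / 50 * u ^ 2) ^ 2 / 2 +
      (3 / 50 * u ^ 2) ^ 3 / 6) *
      (1 + u + 407 / 1000 * u ^ 2)) := by
  obtain ⟨s, hs⟩ : ∃ s, s = u - (11 / 6) := ⟨_, rfl⟩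
  obtain ⟨t, ht⟩ : ∃ t, t = 17 / 8 - u := ⟨_, rfl⟩
  have hs0 : 0 ≤ s := by linarith
  have ht0 : 0 ≤ t := by linarith
  have h : 0 ≤
      10096726009009452992 / 22800238330078125 * t ^ 8 +
      65767710568291942144 / 22800238330078125 * s * t ^ 7 +
      25984349048236592288 / 3257176904296875 * s ^ 2 * t ^ 6 +
      39650629380107218904 / 3257176904296875 * s ^ 3 * t ^ 5 +
      14557948336659341833 / 1302870761718750 * s ^ 4 * t ^ 4 +
      20697779638191712214 / 3257176904296875 * s ^ 5 * t ^ 3 +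
      29526033671771643287 / 13028707617187500 * s ^ 6 * t ^ 2 +
      374867728128787814993 / 729607626562500000 * s ^ 7 * t +
      1535351199488992280963 / 23347444050000000000 * s ^ 8 := by
    positivity
  have e :
      10096726009009452992 / 22800238330078125 * t ^ 8 +
      65767710568291942144 / 22800238330078125 * s * t ^ 7 +
      25984349048236592288 / 3257176904296875 * s ^ 2 * t ^ 6 +
      39650629380107218904 / 3257176904296875 * s ^ 3 * t ^ 5 +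
      14557948336659341833 / 1302870761718750 * s ^ 4 * t ^ 4 +
      20697779638191712214 / 3257176904296875 * s ^ 5 * t ^ 3 +
      29526033671771643287 / 13028707617187500 * s ^ 6 * t ^ 2 +
      374867728128787814993 / 729607626562500000 * s ^ 7 * t +
      1535351199488992280963 / 23347444050000000000 * s ^ 8 =
      (1 + 1 / 10 + (1 / 10) ^ 2 / 2) * ((1 + (3 / 50 * u ^ 2) + (3 / 50 * u ^ 2) ^ 2 / 2 +
      (3 / 50 * u ^ 2) ^ 3 / 6) *
      (1 + u + 407 / 1000 * u ^ 2)) -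
      (97387 / 50000 * (1 + (u - 2 / 3) / 6) ^ 6) := by
    rw [hs, ht]
    ring
  rw [e] at h
  linarith

theorem ev_six_e45_g2 (u : ℝ) (h1 : 17 / 8 ≤ u) (h2 : u ≤ 29 / 12) :
    97387 / 50000 * (1 + (u - 2 / 3) / 6) ^ 6 ≤
      (1 + 1 / 10 + (1 / 10) ^ 2 / 2) * ((1 + (3 / 50 * u ^ 2) + (3 / 50 * u ^ 2) ^ 2 / 2 +
      (3 / 50 * u ^ 2) ^ 3 / 6) *
      (1 + u + 407 / 1000 * u ^ 2)) := by
  obtain ⟨s, hs⟩ : ∃ s, s = u - (17 / 8) := ⟨_, rfl⟩
  obtain ⟨t, ht⟩ : ∃ t, t = 29 / 12 - u := ⟨_, rfl⟩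
  have hs0 : 0 ≤ s := by linarith
  have ht0 : 0 ≤ t := by linarith
  have h : 0 ≤
      1535351199488992280963 / 23347444050000000000 * t ^ 8 +
      785615743231416650977 / 1459215253125000000 * s * t ^ 7 +
      508296825722187313583 / 208459321875000000 * s ^ 2 * t ^ 6 +
      41358885861137430373 / 5790536718750000 * s ^ 3 * t ^ 5 +
      3446640536926511163 / 257357187500000 * s ^ 4 * t ^ 4 +
      7601033814304502731 / 482544726562500 * s ^ 5 * t ^ 3 +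
      1804036429827162183 / 160848242187500 * s ^ 6 * t ^ 2 +
      1244271424647331557 / 281484423828125 * s ^ 7 * t +
      834241325542663203 / 1125937695312500 * s ^ 8 := by
    positivity
  have e :
      1535351199488992280963 / 23347444050000000000 * t ^ 8 +
      785615743231416650977 / 1459215253125000000 * s * t ^ 7 +
      508296825722187313583 / 208459321875000000 * s ^ 2 * t ^ 6 +
      41358885861137430373 / 5790536718750000 * s ^ 3 * t ^ 5 +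
      3446640536926511163 / 257357187500000 * s ^ 4 * t ^ 4 +
      7601033814304502731 / 482544726562500 * s ^ 5 * t ^ 3 +
      1804036429827162183 / 160848242187500 * s ^ 6 * t ^ 2 +
      1244271424647331557 / 281484423828125 * s ^ 7 * t +
      834241325542663203 / 1125937695312500 * s ^ 8 =
      (1 + 1 / 10 + (1 / 10) ^ 2 / 2) * ((1 + (3 / 50 * u ^ 2) + (3 / 50 * u ^ 2) ^ 2 / 2 +
      (3 / 50 * u ^ 2) ^ 3 / 6) *
      (1 + u + 407 / 1000 * u ^ 2)) -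
      (97387 / 50000 * (1 + (u - 2 / 3) / 6) ^ 6) := by
    rw [hs, ht]
    ring
  rw [e] at h
  linarith

theorem ev_six_e45_g3 (u : ℝ) (h1 : 29 / 12 ≤ u) (h2 : u ≤ 3) :
    97387 / 50000 * (1 + (u - 2 / 3) / 6) ^ 6 ≤
      (1 + 1 / 10 + (1 / 10) ^ 2 / 2) * ((1 + (3 / 50 * u ^ 2) + (3 / 50 * u ^ 2) ^ 2 / 2 +
      (3 / 50 * u ^ 2) ^ 3 / 6) *
      (1 + u + 407 / 1000 * u ^ 2)) := by
  obtain ⟨s, hs⟩ : ∃ s, s = u - (29 / 12) := ⟨_, rfl⟩
  obtain ⟨t, ht⟩ : ∃ t, t = 3 - u := ⟨_, rfl⟩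
  have hs0 : 0 ≤ s := by linarith
  have ht0 : 0 ≤ t := by linarith
  have h : 0 ≤
      834241325542663203 / 288240050000000000 * t ^ 8 +
      314613137995164513 / 9007501562500000 * s * t ^ 7 +
      461644952956785417 / 2573571875000000 * s ^ 2 * t ^ 6 +
      493469485221921221 / 965089453125000 * s ^ 3 * t ^ 5 +
      28536765604837261 / 32169648437500 * s ^ 4 * t ^ 4 +
      348307948156334716 / 361908544921875 * s ^ 5 * t ^ 3 +
      2083957579523425148 / 3257176904296875 * s ^ 6 * t ^ 2 +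
      5448546579642751264 / 22800238330078125 * s ^ 7 * t +
      877517550009932672 / 22800238330078125 * s ^ 8 := by
    positivity
  have e :
      834241325542663203 / 288240050000000000 * t ^ 8 +
      314613137995164513 / 9007501562500000 * s * t ^ 7 +
      461644952956785417 / 2573571875000000 * s ^ 2 * t ^ 6 +
      493469485221921221 / 965089453125000 * s ^ 3 * t ^ 5 +
      28536765604837261 / 32169648437500 * s ^ 4 * t ^ 4 +
      348307948156334716 / 361908544921875 * s ^ 5 * t ^ 3 +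
      2083957579523425148 / 3257176904296875 * s ^ 6 * t ^ 2 +
      5448546579642751264 / 22800238330078125 * s ^ 7 * t +
      877517550009932672 / 22800238330078125 * s ^ 8 =
      (1 + 1 / 10 + (1 / 10) ^ 2 / 2) * ((1 + (3 / 50 * u ^ 2) + (3 / 50 * u ^ 2) ^ 2 / 2 +
      (3 / 50 * u ^ 2) ^ 3 / 6) *
      (1 + u + 407 / 1000 * u ^ 2)) -
      (97387 / 50000 * (1 + (u - 2 / 3) / 6) ^ 6) := by
    rw [hs, ht]
    ring
  rw [e] at h
  linarith

theorem ev_six_e45_t (u : ℝ) (h1 : 3 ≤ u) :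
    97387 / 50000 * (1 + (u - 2 / 3) / 6) ^ 6 ≤
      (1 + 1 / 10 + (1 / 10) ^ 2 / 2) * ((1 + (3 / 50 * u ^ 2) + (3 / 50 * u ^ 2) ^ 2 / 2 +
      (3 / 50 * u ^ 2) ^ 3 / 6) *
      (1 + u + 407 / 1000 * u ^ 2)) := by
  obtain ⟨s, hs⟩ : ∃ s, s = u - (3) := ⟨_, rfl⟩
  have hs0 : 0 ≤ s := by linarith
  have h : 0 ≤
      6855605859452599 / 13286025000000000 + 2338681280411771 / 1476225000000000 * s +
      1731919046671483 / 984150000000000 * s ^ 2 +
      221809208595643 / 246037500000000 * s ^ 3 + 5672416086809 / 21870000000000 * s ^ 4 +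
      859992335627 / 18225000000000 * s ^ 5 + 208600874759 / 36450000000000 * s ^ 6 +
      1338597 / 3125000000 * s ^ 7 + 809523 / 50000000000 * s ^ 8 := by
    positivity
  have e :
      6855605859452599 / 13286025000000000 + 2338681280411771 / 1476225000000000 * s +
      1731919046671483 / 984150000000000 * s ^ 2 +
      221809208595643 / 246037500000000 * s ^ 3 + 5672416086809 / 21870000000000 * s ^ 4 +
      859992335627 / 18225000000000 * s ^ 5 + 208600874759 / 36450000000000 * s ^ 6 +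
      1338597 / 3125000000 * s ^ 7 + 809523 / 50000000000 * s ^ 8 =
      (1 + 1 / 10 + (1 / 10) ^ 2 / 2) * ((1 + (3 / 50 * u ^ 2) + (3 / 50 * u ^ 2) ^ 2 / 2 +
      (3 / 50 * u ^ 2) ^ 3 / 6) *
      (1 + u + 407 / 1000 * u ^ 2)) -
      (97387 / 50000 * (1 + (u - 2 / 3) / 6) ^ 6) := by
    rw [hs]
    ring
  rw [e] at h
  linarith

/-- `K = 6`: `(c, μ, P, δ) = (407 / 1000, 3 / 50, 2 / 3, 1 / 10)` -/
theorem expFd_six_e45 : ExpFd 6 (407 / 1000) (3 / 50) (2 / 3) (1 / 10) := by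
  have hde : (1 + 1 / 10 + (1 / 10) ^ 2 / 2) ≤ Real.exp (1 / 10) :=
    Real.quadratic_le_exp_of_nonneg (by norm_num)
  have hq : ∀ u : ℝ, 0 ≤ 1 + u + 407 / 1000 * u ^ 2 := fun u => by
    nlinarith [sq_nonneg (u + 2), sq_nonneg u]
  have hR : ∀ (u x y : ℝ), x ≤ y →
      y ≤ (1 + 1 / 10 + (1 / 10) ^ 2 / 2) * (1 + u + 407 / 1000 * u ^ 2) →
      x ≤ Real.exp (1 / 10) * (1 + u + 407 / 1000 * u ^ 2) := fun u x y h1 h2 =>
    (h1.trans h2).trans (mul_le_mul_of_nonneg_right hde (hq u))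
  refine ExpFd.of (by norm_num) (by norm_num) (by norm_num) (by norm_num) (by norm_num) ?_ ?_ ?_
  · intro u h1
    rcases le_total u (-3) with h3 | h3
    · exact hR u _ _ (ev_exp_n3 h3) (ev_six_e45_d u h3)
    rcases le_total u (-2) with h4 | h4
    · refine hR u _ _ (ev_exp_n2 h4) ?_
      exact ev_six_e45_c0 u (by linarith) (by linarith)
    rcases le_total u (-1) with h5 | h5
    · refine hR u _ _ (ev_exp_n1 h5) ?_
      exact ev_six_e45_b0 u (by linarith) (by linarith)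
    refine hR u _ _ (ev_exp_n0 h1) ?_
    exact ev_six_e45_a0 u (by linarith) (by linarith)
  · intro u h1 h2
    have h5 := mul_le_mul_of_nonneg_right (Real.add_one_le_exp (3 / 50 * u ^ 2)) (hq u)
    rw [add_comm (3 / 50 * u ^ 2) 1] at h5
    have h6 : 0 ≤ Real.exp (3 / 50 * u ^ 2) * (1 + u + 407 / 1000 * u ^ 2) :=
      mul_nonneg (Real.exp_nonneg _) (hq u)
    rw [Real.exp_add, mul_assoc]
    refine ((ev_exp_p h1 (by linarith)).trans ?_).trans
      ((mul_le_mul_of_nonneg_left h5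
        (by norm_num : (0 : ℝ) ≤ (1 + 1 / 10 + (1 / 10) ^ 2 / 2))).trans
        (mul_le_mul_of_nonneg_right hde h6))
    exact ev_six_e45_e0 u (by linarith) (by linarith)
  · intro u h1
    have h4 : 0 ≤ (1 + (u - 2 / 3) / 6) ^ 6 := by
      have : 0 ≤ (u - 2 / 3) / 6 := div_nonneg (by linarith) (by norm_num)
      positivity
    have hE : Real.exp (2 / 3) ≤ 97387 / 50000 := ev_up_2_3
    have hx : 0 ≤ 3 / 50 * u ^ 2 := by positivity
    have h5 := mul_le_mul_of_nonneg_right (taylor3_le_expE _ hx) (hq u)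
    have h6 : 0 ≤ Real.exp (3 / 50 * u ^ 2) * (1 + u + 407 / 1000 * u ^ 2) :=
      mul_nonneg (Real.exp_nonneg _) (hq u)
    rw [Real.exp_add, mul_assoc]
    push_cast
    refine ((mul_le_mul_of_nonneg_right hE h4).trans ?_).trans
      ((mul_le_mul_of_nonneg_left h5
        (by norm_num : (0 : ℝ) ≤ (1 + 1 / 10 + (1 / 10) ^ 2 / 2))).trans
        (mul_le_mul_of_nonneg_right hde h6))
    rcases le_total u (11 / 6) with hh | hh
    · exact ev_six_e45_g0 u (by linarith) (by linarith)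
    rcases le_total u (17 / 8) with hh | hh
    · exact ev_six_e45_g1 u (by linarith) (by linarith)
    rcases le_total u (29 / 12) with hh | hh
    · exact ev_six_e45_g2 u (by linarith) (by linarith)
    rcases le_total u (3) with hh | hh
    · exact ev_six_e45_g3 u (by linarith) (by linarith)
    exact ev_six_e45_t u (by linarith)

end

end Pool.Agent.TSM
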