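import Pool.Agent.TSM.EvenDB

set_option autoImplicit false

/-!
# Constants of the even rule with a constant, K = 8 (MP_d27362_co, helper2)
-/

namespace Pool.Agent.TSM

noncomputable section


theorem ev_eight_e00_a0 (u : ℝ) (h1 : -1 ≤ u) (h2 : u ≤ -1 / 2) :
    1 + u + u ^ 2 / 2 + u ^ 3 / 6 + u ^ 4 / 24 ≤
      (1 + 1 / 500 + (1 / 500) ^ 2 / 2) * (1 + u + 47 / 100 * u ^ 2) := by
  obtain ⟨s, hs⟩ : ∃ s, s = u - (-1) := ⟨_, rfl⟩
  obtain ⟨t, ht⟩ : ∃ t, t = -1 / 2 - u := ⟨_, rfl⟩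
  have hs0 : 0 ≤ s := by linarith
  have ht0 : 0 ≤ t := by linarith
  have h : 0 ≤
      4797047 / 3125000 * t ^ 4 + 37073573 / 9375000 * s * t ^ 3 +
      44212211 / 12500000 * s ^ 2 * t ^ 2 + 8441441 / 6250000 * s ^ 3 * t +
      7179241 / 37500000 * s ^ 4 := by
    positivity
  have e :
      4797047 / 3125000 * t ^ 4 + 37073573 / 9375000 * s * t ^ 3 +
      44212211 / 12500000 * s ^ 2 * t ^ 2 + 8441441 / 6250000 * s ^ 3 * t +
      7179241 / 37500000 * s ^ 4 =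
      (1 + 1 / 500 + (1 / 500) ^ 2 / 2) * (1 + u + 47 / 100 * u ^ 2) -
      (1 + u + u ^ 2 / 2 + u ^ 3 / 6 + u ^ 4 / 24) := by
    rw [hs, ht]
    ring
  rw [e] at h
  linarith

theorem ev_eight_e00_a1 (u : ℝ) (h1 : -1 / 2 ≤ u) (h2 : u ≤ 0) :
    1 + u + u ^ 2 / 2 + u ^ 3 / 6 + u ^ 4 / 24 ≤
      (1 + 1 / 500 + (1 / 500) ^ 2 / 2) * (1 + u + 47 / 100 * u ^ 2) := by
  obtain ⟨s, hs⟩ : ∃ s, s = u - (-1 / 2) := ⟨_, rfl⟩
  obtain ⟨t, ht⟩ : ∃ t, t = 0 - u := ⟨_, rfl⟩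
  have hs0 : 0 ≤ s := by linarith
  have ht0 : 0 ≤ t := by linarith
  have h : 0 ≤
      7179241 / 37500000 * t ^ 4 + 3392641 / 18750000 * s * t ^ 3 +
      348847 / 12500000 * s ^ 2 * t ^ 2 + 7007 / 62500 * s ^ 3 * t + 1001 / 31250 * s ^ 4 := by
    positivity
  have e :
      7179241 / 37500000 * t ^ 4 + 3392641 / 18750000 * s * t ^ 3 +
      348847 / 12500000 * s ^ 2 * t ^ 2 + 7007 / 62500 * s ^ 3 * t + 1001 / 31250 * s ^ 4 =
      (1 + 1 / 500 + (1 / 500) ^ 2 / 2) * (1 + u + 47 / 100 * u ^ 2) -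
      (1 + u + u ^ 2 / 2 + u ^ 3 / 6 + u ^ 4 / 24) := by
    rw [hs, ht]
    ring
  rw [e] at h
  linarith

theorem ev_eight_e00_b0 (u : ℝ) (h1 : -2 ≤ u) (h2 : u ≤ -1) :
    36788 / 100000 *
      (1 + (u + 1) + (u + 1) ^ 2 / 2 + (u + 1) ^ 3 / 6 + (u + 1) ^ 4 / 24) ≤
      (1 + 1 / 500 + (1 / 500) ^ 2 / 2) * (1 + u + 47 / 100 * u ^ 2) := by
  obtain ⟨s, hs⟩ : ∃ s, s = u - (-2) := ⟨_, rfl⟩
  obtain ⟨t, ht⟩ : ∃ t, t = -1 - u := ⟨_, rfl⟩
  have hs0 : 0 ≤ s := by linarith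
  have ht0 : 0 ≤ t := by linarith
  have h : 0 ≤
      18595169 / 25000000 * t ^ 4 + 4619153 / 2343750 * s * t ^ 3 +
      91432311 / 50000000 * s ^ 2 * t ^ 2 + 18000091 / 25000000 * s ^ 3 * t +
      5153047 / 50000000 * s ^ 4 := by
    positivity
  have e :
      18595169 / 25000000 * t ^ 4 + 4619153 / 2343750 * s * t ^ 3 +
      91432311 / 50000000 * s ^ 2 * t ^ 2 + 18000091 / 25000000 * s ^ 3 * t +
      5153047 / 50000000 * s ^ 4 =
      (1 + 1 / 500 + (1 / 500) ^ 2 / 2) * (1 + u + 47 / 100 * u ^ 2) -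
      (36788 / 100000 *
      (1 + (u + 1) + (u + 1) ^ 2 / 2 + (u + 1) ^ 3 / 6 + (u + 1) ^ 4 / 24)) := by
    rw [hs, ht]
    ring
  rw [e] at h
  linarith

theorem ev_eight_e00_c0 (u : ℝ) (h1 : -3 ≤ u) (h2 : u ≤ -2) :
    13534 / 100000 *
      (1 + (u + 2) + (u + 2) ^ 2 / 2 + (u + 2) ^ 3 / 6 + (u + 2) ^ 4 / 24) ≤
      (1 + 1 / 500 + (1 / 500) ^ 2 / 2) * (1 + u + 47 / 100 * u ^ 2) := by
  obtain ⟨s, hs⟩ : ∃ s, s = u - (-3) := ⟨_, rfl⟩
  obtain ⟨t, ht⟩ : ∃ t, t = -2 - u := ⟨_, rfl⟩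
  have hs0 : 0 ≤ s := by linarith
  have ht0 : 0 ≤ t := by linarith
  have h : 0 ≤
      54592799 / 25000000 * t ^ 4 + 102991363 / 15000000 * s * t ^ 3 +
      396655339 / 50000000 * s ^ 2 * t ^ 2 + 2501743 / 625000 * s ^ 3 * t +
      291571 / 390625 * s ^ 4 := by
    positivity
  have e :
      54592799 / 25000000 * t ^ 4 + 102991363 / 15000000 * s * t ^ 3 +
      396655339 / 50000000 * s ^ 2 * t ^ 2 + 2501743 / 625000 * s ^ 3 * t +
      291571 / 390625 * s ^ 4 =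
      (1 + 1 / 500 + (1 / 500) ^ 2 / 2) * (1 + u + 47 / 100 * u ^ 2) -
      (13534 / 100000 *
      (1 + (u + 2) + (u + 2) ^ 2 / 2 + (u + 2) ^ 3 / 6 + (u + 2) ^ 4 / 24)) := by
    rw [hs, ht]
    ring
  rw [e] at h
  linarith

theorem ev_eight_e00_d (u : ℝ) (h2 : u ≤ -3) :
    4979 / 100000 ≤
      (1 + 1 / 500 + (1 / 500) ^ 2 / 2) * (1 + u + 47 / 100 * u ^ 2) := by
  obtain ⟨s, hs⟩ : ∃ s, s = -3 - u := ⟨_, rfl⟩
  have hs0 : 0 ≤ s := by linarith
  have h : 0 ≤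
      109233723 / 50000000 + 45591091 / 25000000 * s + 23547047 / 50000000 * s ^ 2 := by
    positivity
  have e :
      109233723 / 50000000 + 45591091 / 25000000 * s + 23547047 / 50000000 * s ^ 2 =
      (1 + 1 / 500 + (1 / 500) ^ 2 / 2) * (1 + u + 47 / 100 * u ^ 2) -
      (4979 / 100000) := by
    rw [hs]
    ring
  rw [e] at h
  linarith

theorem ev_eight_e00_g0 (u : ℝ) (h1 : 0 ≤ u) (h2 : u ≤ 3 / 2) :
    1 * (1 + (u - 0) / 8) ^ 8 ≤
      (1 + 1 / 500 + (1 / 500) ^ 2 / 2) * ((1 + (1 / 20 * u ^ 2) + (1 / 20 * u ^ 2) ^ 2 / 2 +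
      (1 / 20 * u ^ 2) ^ 3 / 6) *
      (1 + u + 47 / 100 * u ^ 2)) := by
  obtain ⟨s, hs⟩ : ∃ s, s = u - (0) := ⟨_, rfl⟩
  obtain ⟨t, ht⟩ : ∃ t, t = 3 / 2 - u := ⟨_, rfl⟩
  have hs0 : 0 ≤ s := by linarith
  have ht0 : 0 ≤ t := by linarith
  have h : 0 ≤
      8008 / 102515625 * t ^ 8 + 76076 / 102515625 * s * t ^ 7 +
      26504434 / 2562890625 * s ^ 2 * t ^ 6 + 441170501 / 10251562500 * s ^ 3 * t ^ 5 +
      134625379063 / 1640250000000 * s ^ 4 * t ^ 4 +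
      544944910643 / 6561000000000 * s ^ 5 * t ^ 3 +
      47825339545993 / 1049760000000000 * s ^ 6 * t ^ 2 +
      105527360499613 / 8398080000000000 * s ^ 7 * t +
      7287910311959171 / 5374771200000000000 * s ^ 8 := by
    positivity
  have e :
      8008 / 102515625 * t ^ 8 + 76076 / 102515625 * s * t ^ 7 +
      26504434 / 2562890625 * s ^ 2 * t ^ 6 + 441170501 / 10251562500 * s ^ 3 * t ^ 5 +
      134625379063 / 1640250000000 * s ^ 4 * t ^ 4 +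
      544944910643 / 6561000000000 * s ^ 5 * t ^ 3 +
      47825339545993 / 1049760000000000 * s ^ 6 * t ^ 2 +
      105527360499613 / 8398080000000000 * s ^ 7 * t +
      7287910311959171 / 5374771200000000000 * s ^ 8 =
      (1 + 1 / 500 + (1 / 500) ^ 2 / 2) * ((1 + (1 / 20 * u ^ 2) + (1 / 20 * u ^ 2) ^ 2 / 2 +
      (1 / 20 * u ^ 2) ^ 3 / 6) *
      (1 + u + 47 / 100 * u ^ 2)) -
      (1 * (1 + (u - 0) / 8) ^ 8) := by
    rw [hs, ht]
    ring
  rw [e] at h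
  linarith

theorem ev_eight_e00_g1 (u : ℝ) (h1 : 3 / 2 ≤ u) (h2 : u ≤ 9 / 4) :
    1 * (1 + (u - 0) / 8) ^ 8 ≤
      (1 + 1 / 500 + (1 / 500) ^ 2 / 2) * ((1 + (1 / 20 * u ^ 2) + (1 / 20 * u ^ 2) ^ 2 / 2 +
      (1 / 20 * u ^ 2) ^ 3 / 6) *
      (1 + u + 47 / 100 * u ^ 2)) := by
  obtain ⟨s, hs⟩ : ∃ s, s = u - (3 / 2) := ⟨_, rfl⟩
  obtain ⟨t, ht⟩ : ∃ t, t = 9 / 4 - u := ⟨_, rfl⟩
  have hs0 : 0 ≤ s := by linarith
  have ht0 : 0 ≤ t := by linarith
  have h : 0 ≤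
      7287910311959171 / 20995200000000000 * t ^ 8 +
      13421542095908473 / 5248800000000000 * s * t ^ 7 +
      165782852993599133 / 20995200000000000 * s ^ 2 * t ^ 6 +
      276986910926130919 / 20995200000000000 * s ^ 3 * t ^ 5 +
      430123591296537317 / 33592320000000000 * s ^ 4 * t ^ 4 +
      602153243156535871 / 83980800000000000 * s ^ 5 * t ^ 3 +
      722787330280075373 / 335923200000000000 * s ^ 6 * t ^ 2 +
      100942123057210417 / 335923200000000000 * s ^ 7 * t +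
      114754949051215331 / 5374771200000000000 * s ^ 8 := by
    positivity
  have e :
      7287910311959171 / 20995200000000000 * t ^ 8 +
      13421542095908473 / 5248800000000000 * s * t ^ 7 +
      165782852993599133 / 20995200000000000 * s ^ 2 * t ^ 6 +
      276986910926130919 / 20995200000000000 * s ^ 3 * t ^ 5 +
      430123591296537317 / 33592320000000000 * s ^ 4 * t ^ 4 +
      602153243156535871 / 83980800000000000 * s ^ 5 * t ^ 3 +
      722787330280075373 / 335923200000000000 * s ^ 6 * t ^ 2 +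
      100942123057210417 / 335923200000000000 * s ^ 7 * t +
      114754949051215331 / 5374771200000000000 * s ^ 8 =
      (1 + 1 / 500 + (1 / 500) ^ 2 / 2) * ((1 + (1 / 20 * u ^ 2) + (1 / 20 * u ^ 2) ^ 2 / 2 +
      (1 / 20 * u ^ 2) ^ 3 / 6) *
      (1 + u + 47 / 100 * u ^ 2)) -
      (1 * (1 + (u - 0) / 8) ^ 8) := by
    rw [hs, ht]
    ring
  rw [e] at h
  linarith

theorem ev_eight_e00_g2 (u : ℝ) (h1 : 9 / 4 ≤ u) (h2 : u ≤ 3) :
    1 * (1 + (u - 0) / 8) ^ 8 ≤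
      (1 + 1 / 500 + (1 / 500) ^ 2 / 2) * ((1 + (1 / 20 * u ^ 2) + (1 / 20 * u ^ 2) ^ 2 / 2 +
      (1 / 20 * u ^ 2) ^ 3 / 6) *
      (1 + u + 47 / 100 * u ^ 2)) := by
  obtain ⟨s, hs⟩ : ∃ s, s = u - (9 / 4) := ⟨_, rfl⟩
  obtain ⟨t, ht⟩ : ∃ t, t = 3 - u := ⟨_, rfl⟩
  have hs0 : 0 ≤ s := by linarith
  have ht0 : 0 ≤ t := by linarith
  have h : 0 ≤
      114754949051215331 / 5374771200000000000 * t ^ 8 +
      6906412997002457 / 167961600000000000 * s * t ^ 7 +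
      28220562709409213 / 83980800000000000 * s ^ 2 * t ^ 6 +
      31213600855097351 / 10497600000000000 * s ^ 3 * t ^ 5 +
      20946237381716357 / 2099520000000000 * s ^ 4 * t ^ 4 +
      10946320410877919 / 656100000000000 * s ^ 5 * t ^ 3 +
      4971497232983693 / 328050000000000 * s ^ 6 * t ^ 2 +
      295112478986513 / 41006250000000 * s ^ 7 * t + 115347466941251 / 82012500000000 * s ^ 8 := by
    positivity
  have e :
      114754949051215331 / 5374771200000000000 * t ^ 8 +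
      6906412997002457 / 167961600000000000 * s * t ^ 7 +
      28220562709409213 / 83980800000000000 * s ^ 2 * t ^ 6 +
      31213600855097351 / 10497600000000000 * s ^ 3 * t ^ 5 +
      20946237381716357 / 2099520000000000 * s ^ 4 * t ^ 4 +
      10946320410877919 / 656100000000000 * s ^ 5 * t ^ 3 +
      4971497232983693 / 328050000000000 * s ^ 6 * t ^ 2 +
      295112478986513 / 41006250000000 * s ^ 7 * t + 115347466941251 / 82012500000000 * s ^ 8 =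
      (1 + 1 / 500 + (1 / 500) ^ 2 / 2) * ((1 + (1 / 20 * u ^ 2) + (1 / 20 * u ^ 2) ^ 2 / 2 +
      (1 / 20 * u ^ 2) ^ 3 / 6) *
      (1 + u + 47 / 100 * u ^ 2)) -
      (1 * (1 + (u - 0) / 8) ^ 8) := by
    rw [hs, ht]
    ring
  rw [e] at h
  linarith

theorem ev_eight_e00_t (u : ℝ) (h1 : 3 ≤ u) :
    1 * (1 + (u - 0) / 8) ^ 8 ≤
      (1 + 1 / 500 + (1 / 500) ^ 2 / 2) * ((1 + (1 / 20 * u ^ 2) + (1 / 20 * u ^ 2) ^ 2 / 2 +
      (1 / 20 * u ^ 2) ^ 3 / 6) *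
      (1 + u + 47 / 100 * u ^ 2)) := by
  obtain ⟨s, hs⟩ : ∃ s, s = u - (3) := ⟨_, rfl⟩
  have hs0 : 0 ≤ s := by linarith
  have h : 0 ≤
      115347466941251 / 819200000000000 + 55425796259497 / 102400000000000 * s +
      151568300795453 / 204800000000000 * s ^ 2 + 45537727227351 / 102400000000000 * s ^ 3 +
      11480785049317 / 81920000000000 * s ^ 4 + 2719923720399 / 102400000000000 * s ^ 5 +
      2038841235559 / 614400000000000 * s ^ 6 + 77138013059 / 307200000000000 * s ^ 7 +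
      23965691753 / 2457600000000000 * s ^ 8 := by
    positivity
  have e :
      115347466941251 / 819200000000000 + 55425796259497 / 102400000000000 * s +
      151568300795453 / 204800000000000 * s ^ 2 + 45537727227351 / 102400000000000 * s ^ 3 +
      11480785049317 / 81920000000000 * s ^ 4 + 2719923720399 / 102400000000000 * s ^ 5 +
      2038841235559 / 614400000000000 * s ^ 6 + 77138013059 / 307200000000000 * s ^ 7 +
      23965691753 / 2457600000000000 * s ^ 8 =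
      (1 + 1 / 500 + (1 / 500) ^ 2 / 2) * ((1 + (1 / 20 * u ^ 2) + (1 / 20 * u ^ 2) ^ 2 / 2 +
      (1 / 20 * u ^ 2) ^ 3 / 6) *
      (1 + u + 47 / 100 * u ^ 2)) -
      (1 * (1 + (u - 0) / 8) ^ 8) := by
    rw [hs]
    ring
  rw [e] at h
  linarith

/-- `K = 8`: `(c, μ, P, δ) = (47 / 100, 1 / 20, 0, 1 / 500)` -/
theorem expFd_eight_e00 : ExpFd 8 (47 / 100) (1 / 20) (0) (1 / 500) := by
  have hde : (1 + 1 / 500 + (1 / 500) ^ 2 / 2) ≤ Real.exp (1 / 500) :=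
    Real.quadratic_le_exp_of_nonneg (by norm_num)
  have hq : ∀ u : ℝ, 0 ≤ 1 + u + 47 / 100 * u ^ 2 := fun u => by
    nlinarith [sq_nonneg (u + 2), sq_nonneg u]
  have hR : ∀ (u x y : ℝ), x ≤ y →
      y ≤ (1 + 1 / 500 + (1 / 500) ^ 2 / 2) * (1 + u + 47 / 100 * u ^ 2) →
      x ≤ Real.exp (1 / 500) * (1 + u + 47 / 100 * u ^ 2) := fun u x y h1 h2 =>
    (h1.trans h2).trans (mul_le_mul_of_nonneg_right hde (hq u))
  refine ExpFd.of (by norm_num) (by norm_num) (by norm_num) (by norm_num) (by norm_num) ?_ ?_ ?_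
  · intro u h1
    rcases le_total u (-3) with h3 | h3
    · exact hR u _ _ (ev_exp_n3 h3) (ev_eight_e00_d u h3)
    rcases le_total u (-2) with h4 | h4
    · refine hR u _ _ (ev_exp_n2 h4) ?_
      exact ev_eight_e00_c0 u (by linarith) (by linarith)
    rcases le_total u (-1) with h5 | h5
    · refine hR u _ _ (ev_exp_n1 h5) ?_
      exact ev_eight_e00_b0 u (by linarith) (by linarith)
    refine hR u _ _ (ev_exp_n0 h1) ?_
    rcases le_total u (-1 / 2) with hh | hh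
    · exact ev_eight_e00_a0 u (by linarith) (by linarith)
    exact ev_eight_e00_a1 u (by linarith) (by linarith)
  · intro u h1 h2
    have h7 : u = 0 := le_antisymm h2 h1
    rw [h7, Real.exp_zero]
    have := Real.add_one_le_exp ((1 / 500 : ℝ) + 1 / 20 * 0 ^ 2)
    linarith
  · intro u h1
    have h4 : 0 ≤ (1 + (u - 0) / 8) ^ 8 := by
      have : 0 ≤ (u - 0) / 8 := div_nonneg (by linarith) (by norm_num)
      positivity
    have hE : Real.exp (0) ≤ 1 := Real.exp_zero.le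
    have hx : 0 ≤ 1 / 20 * u ^ 2 := by positivity
    have h5 := mul_le_mul_of_nonneg_right (taylor3_le_expE _ hx) (hq u)
    have h6 : 0 ≤ Real.exp (1 / 20 * u ^ 2) * (1 + u + 47 / 100 * u ^ 2) :=
      mul_nonneg (Real.exp_nonneg _) (hq u)
    rw [Real.exp_add, mul_assoc]
    push_cast
    refine ((mul_le_mul_of_nonneg_right hE h4).trans ?_).trans
      ((mul_le_mul_of_nonneg_left h5
        (by norm_num : (0 : ℝ) ≤ (1 + 1 / 500 + (1 / 500) ^ 2 / 2))).trans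
        (mul_le_mul_of_nonneg_right hde h6))
    rcases le_total u (3 / 2) with hh | hh
    · exact ev_eight_e00_g0 u (by linarith) (by linarith)
    rcases le_total u (9 / 4) with hh | hh
    · exact ev_eight_e00_g1 u (by linarith) (by linarith)
    rcases le_total u (3) with hh | hh
    · exact ev_eight_e00_g2 u (by linarith) (by linarith)
    exact ev_eight_e00_t u (by linarith)

theorem ev_eight_e01_a0 (u : ℝ) (h1 : -1 ≤ u) (h2 : u ≤ -1 / 2) :
    1 + u + u ^ 2 / 2 + u ^ 3 / 6 + u ^ 4 / 24 ≤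
      (1 + 1 / 200 + (1 / 200) ^ 2 / 2) * (1 + u + 441 / 1000 * u ^ 2) := by
  obtain ⟨s, hs⟩ : ∃ s, s = u - (-1) := ⟨_, rfl⟩
  obtain ⟨t, ht⟩ : ∃ t, t = -1 / 2 - u := ⟨_, rfl⟩
  have hs0 : 0 ≤ s := by linarith
  have ht0 : 0 ≤ t := by linarith
  have h : 0 ≤
      5456841 / 5000000 * t ^ 4 + 39713069 / 15000000 * s * t ^ 3 +
      43344933 / 20000000 * s ^ 2 * t ^ 2 + 7573523 / 10000000 * s ^ 3 * t +
      6276523 / 60000000 * s ^ 4 := by
    positivity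
  have e :
      5456841 / 5000000 * t ^ 4 + 39713069 / 15000000 * s * t ^ 3 +
      43344933 / 20000000 * s ^ 2 * t ^ 2 + 7573523 / 10000000 * s ^ 3 * t +
      6276523 / 60000000 * s ^ 4 =
      (1 + 1 / 200 + (1 / 200) ^ 2 / 2) * (1 + u + 441 / 1000 * u ^ 2) -
      (1 + u + u ^ 2 / 2 + u ^ 3 / 6 + u ^ 4 / 24) := by
    rw [hs, ht]
    ring
  rw [e] at h
  linarith

theorem ev_eight_e01_a1 (u : ℝ) (h1 : -1 / 2 ≤ u) (h2 : u ≤ 0) :
    1 + u + u ^ 2 / 2 + u ^ 3 / 6 + u ^ 4 / 24 ≤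
      (1 + 1 / 200 + (1 / 200) ^ 2 / 2) * (1 + u + 441 / 1000 * u ^ 2) := by
  obtain ⟨s, hs⟩ : ∃ s, s = u - (-1 / 2) := ⟨_, rfl⟩
  obtain ⟨t, ht⟩ : ∃ t, t = 0 - u := ⟨_, rfl⟩
  have hs0 : 0 ≤ s := by linarith
  have ht0 : 0 ≤ t := by linarith
  have h : 0 ≤
      6276523 / 60000000 * t ^ 4 + 2385523 / 30000000 * s * t ^ 3 +
      2674841 / 20000000 * s ^ 2 * t ^ 2 + 2807 / 10000 * s ^ 3 * t + 401 / 5000 * s ^ 4 := by
    positivity
  have e :
      6276523 / 60000000 * t ^ 4 + 2385523 / 30000000 * s * t ^ 3 +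
      2674841 / 20000000 * s ^ 2 * t ^ 2 + 2807 / 10000 * s ^ 3 * t + 401 / 5000 * s ^ 4 =
      (1 + 1 / 200 + (1 / 200) ^ 2 / 2) * (1 + u + 441 / 1000 * u ^ 2) -
      (1 + u + u ^ 2 / 2 + u ^ 3 / 6 + u ^ 4 / 24) := by
    rw [hs, ht]
    ring
  rw [e] at h
  linarith

theorem ev_eight_e01_b0 (u : ℝ) (h1 : -2 ≤ u) (h2 : u ≤ -1) :
    36788 / 100000 *
      (1 + (u + 1) + (u + 1) ^ 2 / 2 + (u + 1) ^ 3 / 6 + (u + 1) ^ 4 / 24) ≤
      (1 + 1 / 200 + (1 / 200) ^ 2 / 2) * (1 + u + 441 / 1000 * u ^ 2) := by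
  obtain ⟨s, hs⟩ : ∃ s, s = u - (-2) := ⟨_, rfl⟩
  obtain ⟨t, ht⟩ : ∃ t, t = -1 - u := ⟨_, rfl⟩
  have hs0 : 0 ≤ s := by linarith
  have ht0 : 0 ≤ t := by linarith
  have h : 0 ≤
      12597491 / 20000000 * t ^ 4 + 97742519 / 60000000 * s * t ^ 3 +
      116729533 / 80000000 * s ^ 2 * t ^ 2 + 22024423 / 40000000 * s ^ 3 * t +
      6026441 / 80000000 * s ^ 4 := by
    positivity
  have e :
      12597491 / 20000000 * t ^ 4 + 97742519 / 60000000 * s * t ^ 3 +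
      116729533 / 80000000 * s ^ 2 * t ^ 2 + 22024423 / 40000000 * s ^ 3 * t +
      6026441 / 80000000 * s ^ 4 =
      (1 + 1 / 200 + (1 / 200) ^ 2 / 2) * (1 + u + 441 / 1000 * u ^ 2) -
      (36788 / 100000 *
      (1 + (u + 1) + (u + 1) ^ 2 / 2 + (u + 1) ^ 3 / 6 + (u + 1) ^ 4 / 24)) := by
    rw [hs, ht]
    ring
  rw [e] at h
  linarith

theorem ev_eight_e01_c0 (u : ℝ) (h1 : -3 ≤ u) (h2 : u ≤ -2) :
    13534 / 100000 *
      (1 + (u + 2) + (u + 2) ^ 2 / 2 + (u + 2) ^ 3 / 6 + (u + 2) ^ 4 / 24) ≤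
      (1 + 1 / 200 + (1 / 200) ^ 2 / 2) * (1 + u + 441 / 1000 * u ^ 2) := by
  obtain ⟨s, hs⟩ : ∃ s, s = u - (-3) := ⟨_, rfl⟩
  obtain ⟨t, ht⟩ : ∃ t, t = -2 - u := ⟨_, rfl⟩
  have hs0 : 0 ≤ s := by linarith
  have ht0 : 0 ≤ t := by linarith
  have h : 0 ≤
      154249369 / 80000000 * t ^ 4 + 144314509 / 24000000 * s * t ^ 3 +
      550398917 / 80000000 * s ^ 2 * t ^ 2 + 13732511 / 4000000 * s ^ 3 * t +
      12649791 / 20000000 * s ^ 4 := by
    positivity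
  have e :
      154249369 / 80000000 * t ^ 4 + 144314509 / 24000000 * s * t ^ 3 +
      550398917 / 80000000 * s ^ 2 * t ^ 2 + 13732511 / 4000000 * s ^ 3 * t +
      12649791 / 20000000 * s ^ 4 =
      (1 + 1 / 200 + (1 / 200) ^ 2 / 2) * (1 + u + 441 / 1000 * u ^ 2) -
      (13534 / 100000 *
      (1 + (u + 2) + (u + 2) ^ 2 / 2 + (u + 2) ^ 3 / 6 + (u + 2) ^ 4 / 24)) := by
    rw [hs, ht]
    ring
  rw [e] at h
  linarith

theorem ev_eight_e01_d (u : ℝ) (h2 : u ≤ -3) :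
    4979 / 100000 ≤
      (1 + 1 / 200 + (1 / 200) ^ 2 / 2) * (1 + u + 441 / 1000 * u ^ 2) := by
  obtain ⟨s, hs⟩ : ∃ s, s = -3 - u := ⟨_, rfl⟩
  have hs0 : 0 ≤ s := by linarith
  have h : 0 ≤
      154326369 / 80000000 + 66170023 / 40000000 * s + 35456841 / 80000000 * s ^ 2 := by
    positivity
  have e :
      154326369 / 80000000 + 66170023 / 40000000 * s + 35456841 / 80000000 * s ^ 2 =
      (1 + 1 / 200 + (1 / 200) ^ 2 / 2) * (1 + u + 441 / 1000 * u ^ 2) -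
      (4979 / 100000) := by
    rw [hs]
    ring
  rw [e] at h
  linarith

theorem ev_eight_e01_g0 (u : ℝ) (h1 : 0 ≤ u) (h2 : u ≤ 2) :
    1 * (1 + (u - 0) / 8) ^ 8 ≤
      (1 + 1 / 200 + (1 / 200) ^ 2 / 2) * ((1 + (11 / 200 * u ^ 2) + (11 / 200 * u ^ 2) ^ 2 / 2 +
      (11 / 200 * u ^ 2) ^ 3 / 6) *
      (1 + u + 441 / 1000 * u ^ 2)) := by
  obtain ⟨s, hs⟩ : ∃ s, s = u - (0) := ⟨_, rfl⟩
  obtain ⟨t, ht⟩ : ∃ t, t = 2 - u := ⟨_, rfl⟩
  have hs0 : 0 ≤ s := by linarith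
  have ht0 : 0 ≤ t := by linarith
  have h : 0 ≤
      401 / 20480000 * t ^ 8 + 401 / 2048000 * s * t ^ 7 +
      2272349 / 1280000000 * s ^ 2 * t ^ 6 + 15220993 / 2560000000 * s ^ 3 * t ^ 5 +
      4675717107 / 512000000000 * s ^ 4 * t ^ 4 + 1740117319 / 256000000000 * s ^ 5 * t ^ 3 +
      5130675359 / 2400000000000 * s ^ 6 * t ^ 2 + 10275743011 / 76800000000000 * s ^ 7 * t +
      408971904987 / 20480000000000000 * s ^ 8 := by
    positivity
  have e :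
      401 / 20480000 * t ^ 8 + 401 / 2048000 * s * t ^ 7 +
      2272349 / 1280000000 * s ^ 2 * t ^ 6 + 15220993 / 2560000000 * s ^ 3 * t ^ 5 +
      4675717107 / 512000000000 * s ^ 4 * t ^ 4 + 1740117319 / 256000000000 * s ^ 5 * t ^ 3 +
      5130675359 / 2400000000000 * s ^ 6 * t ^ 2 + 10275743011 / 76800000000000 * s ^ 7 * t +
      408971904987 / 20480000000000000 * s ^ 8 =
      (1 + 1 / 200 + (1 / 200) ^ 2 / 2) * ((1 + (11 / 200 * u ^ 2) + (11 / 200 * u ^ 2) ^ 2 / 2 +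
      (11 / 200 * u ^ 2) ^ 3 / 6) *
      (1 + u + 441 / 1000 * u ^ 2)) -
      (1 * (1 + (u - 0) / 8) ^ 8) := by
    rw [hs, ht]
    ring
  rw [e] at h
  linarith

theorem ev_eight_e01_t (u : ℝ) (h1 : 2 ≤ u) :
    1 * (1 + (u - 0) / 8) ^ 8 ≤
      (1 + 1 / 200 + (1 / 200) ^ 2 / 2) * ((1 + (11 / 200 * u ^ 2) + (11 / 200 * u ^ 2) ^ 2 / 2 +
      (11 / 200 * u ^ 2) ^ 3 / 6) *
      (1 + u + 441 / 1000 * u ^ 2)) := by
  obtain ⟨s, hs⟩ : ∃ s, s = u - (2) := ⟨_, rfl⟩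
  have hs0 : 0 ≤ s := by linarith
  have h : 0 ≤
      408971904987 / 80000000000000 + 199341413861 / 60000000000000 * s +
      9012897362309 / 80000000000000 * s ^ 2 + 11104932334809 / 80000000000000 * s ^ 3 +
      24128790363527 / 384000000000000 * s ^ 4 + 4610461387409 / 320000000000000 * s ^ 5 +
      2941375227509 / 1280000000000000 * s ^ 6 + 843792070061 / 3840000000000000 * s ^ 7 +
      250475592187 / 20480000000000000 * s ^ 8 := by
    positivity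
  have e :
      408971904987 / 80000000000000 + 199341413861 / 60000000000000 * s +
      9012897362309 / 80000000000000 * s ^ 2 + 11104932334809 / 80000000000000 * s ^ 3 +
      24128790363527 / 384000000000000 * s ^ 4 + 4610461387409 / 320000000000000 * s ^ 5 +
      2941375227509 / 1280000000000000 * s ^ 6 + 843792070061 / 3840000000000000 * s ^ 7 +
      250475592187 / 20480000000000000 * s ^ 8 =
      (1 + 1 / 200 + (1 / 200) ^ 2 / 2) * ((1 + (11 / 200 * u ^ 2) + (11 / 200 * u ^ 2) ^ 2 / 2 +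
      (11 / 200 * u ^ 2) ^ 3 / 6) *
      (1 + u + 441 / 1000 * u ^ 2)) -
      (1 * (1 + (u - 0) / 8) ^ 8) := by
    rw [hs]
    ring
  rw [e] at h
  linarith

/-- `K = 8`: `(c, μ, P, δ) = (441 / 1000, 11 / 200, 0, 1 / 200)` -/
theorem expFd_eight_e01 : ExpFd 8 (441 / 1000) (11 / 200) (0) (1 / 200) := by
  have hde : (1 + 1 / 200 + (1 / 200) ^ 2 / 2) ≤ Real.exp (1 / 200) :=
    Real.quadratic_le_exp_of_nonneg (by norm_num)
  have hq : ∀ u : ℝ, 0 ≤ 1 + u + 441 / 1000 * u ^ 2 := fun u => by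
    nlinarith [sq_nonneg (u + 2), sq_nonneg u]
  have hR : ∀ (u x y : ℝ), x ≤ y →
      y ≤ (1 + 1 / 200 + (1 / 200) ^ 2 / 2) * (1 + u + 441 / 1000 * u ^ 2) →
      x ≤ Real.exp (1 / 200) * (1 + u + 441 / 1000 * u ^ 2) := fun u x y h1 h2 =>
    (h1.trans h2).trans (mul_le_mul_of_nonneg_right hde (hq u))
  refine ExpFd.of (by norm_num) (by norm_num) (by norm_num) (by norm_num) (by norm_num) ?_ ?_ ?_
  · intro u h1
    rcases le_total u (-3) with h3 | h3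
    · exact hR u _ _ (ev_exp_n3 h3) (ev_eight_e01_d u h3)
    rcases le_total u (-2) with h4 | h4
    · refine hR u _ _ (ev_exp_n2 h4) ?_
      exact ev_eight_e01_c0 u (by linarith) (by linarith)
    rcases le_total u (-1) with h5 | h5
    · refine hR u _ _ (ev_exp_n1 h5) ?_
      exact ev_eight_e01_b0 u (by linarith) (by linarith)
    refine hR u _ _ (ev_exp_n0 h1) ?_
    rcases le_total u (-1 / 2) with hh | hh
    · exact ev_eight_e01_a0 u (by linarith) (by linarith)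
    exact ev_eight_e01_a1 u (by linarith) (by linarith)
  · intro u h1 h2
    have h7 : u = 0 := le_antisymm h2 h1
    rw [h7, Real.exp_zero]
    have := Real.add_one_le_exp ((1 / 200 : ℝ) + 11 / 200 * 0 ^ 2)
    linarith
  · intro u h1
    have h4 : 0 ≤ (1 + (u - 0) / 8) ^ 8 := by
      have : 0 ≤ (u - 0) / 8 := div_nonneg (by linarith) (by norm_num)
      positivity
    have hE : Real.exp (0) ≤ 1 := Real.exp_zero.le
    have hx : 0 ≤ 11 / 200 * u ^ 2 := by positivity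
    have h5 := mul_le_mul_of_nonneg_right (taylor3_le_expE _ hx) (hq u)
    have h6 : 0 ≤ Real.exp (11 / 200 * u ^ 2) * (1 + u + 441 / 1000 * u ^ 2) :=
      mul_nonneg (Real.exp_nonneg _) (hq u)
    rw [Real.exp_add, mul_assoc]
    push_cast
    refine ((mul_le_mul_of_nonneg_right hE h4).trans ?_).trans
      ((mul_le_mul_of_nonneg_left h5
        (by norm_num : (0 : ℝ) ≤ (1 + 1 / 200 + (1 / 200) ^ 2 / 2))).trans
        (mul_le_mul_of_nonneg_right hde h6))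
    rcases le_total u (2) with hh | hh
    · exact ev_eight_e01_g0 u (by linarith) (by linarith)
    exact ev_eight_e01_t u (by linarith)

theorem ev_eight_e02_a0 (u : ℝ) (h1 : -1 ≤ u) (h2 : u ≤ -1 / 2) :
    1 + u + u ^ 2 / 2 + u ^ 3 / 6 + u ^ 4 / 24 ≤
      (1 + 1 / 100 + (1 / 100) ^ 2 / 2) * (1 + u + 103 / 250 * u ^ 2) := by
  obtain ⟨s, hs⟩ : ∃ s, s = u - (-1) := ⟨_, rfl⟩
  obtain ⟨t, ht⟩ : ∃ t, t = -1 / 2 - u := ⟨_, rfl⟩
  have hs0 : 0 ≤ s := by linarith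
  have ht0 : 0 ≤ t := by linarith
  have h : 0 ≤
      205703 / 312500 * t ^ 4 + 650851 / 468750 * s * t ^ 3 +
      1100639 / 1250000 * s ^ 2 * t ^ 2 + 142859 / 625000 * s ^ 3 * t +
      137359 / 3750000 * s ^ 4 := by
    positivity
  have e :
      205703 / 312500 * t ^ 4 + 650851 / 468750 * s * t ^ 3 +
      1100639 / 1250000 * s ^ 2 * t ^ 2 + 142859 / 625000 * s ^ 3 * t +
      137359 / 3750000 * s ^ 4 =
      (1 + 1 / 100 + (1 / 100) ^ 2 / 2) * (1 + u + 103 / 250 * u ^ 2) -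
      (1 + u + u ^ 2 / 2 + u ^ 3 / 6 + u ^ 4 / 24) := by
    rw [hs, ht]
    ring
  rw [e] at h
  linarith

theorem ev_eight_e02_a1 (u : ℝ) (h1 : -1 / 2 ≤ u) (h2 : u ≤ 0) :
    1 + u + u ^ 2 / 2 + u ^ 3 / 6 + u ^ 4 / 24 ≤
      (1 + 1 / 100 + (1 / 100) ^ 2 / 2) * (1 + u + 103 / 250 * u ^ 2) := by
  obtain ⟨s, hs⟩ : ∃ s, s = u - (-1 / 2) := ⟨_, rfl⟩
  obtain ⟨t, ht⟩ : ∃ t, t = 0 - u := ⟨_, rfl⟩
  have hs0 : 0 ≤ s := by linarith
  have ht0 : 0 ≤ t := by linarith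
  have h : 0 ≤
      137359 / 3750000 * t ^ 4 + 120859 / 1875000 * s * t ^ 3 +
      485203 / 1250000 * s ^ 2 * t ^ 2 + 1407 / 2500 * s ^ 3 * t + 201 / 1250 * s ^ 4 := by
    positivity
  have e :
      137359 / 3750000 * t ^ 4 + 120859 / 1875000 * s * t ^ 3 +
      485203 / 1250000 * s ^ 2 * t ^ 2 + 1407 / 2500 * s ^ 3 * t + 201 / 1250 * s ^ 4 =
      (1 + 1 / 100 + (1 / 100) ^ 2 / 2) * (1 + u + 103 / 250 * u ^ 2) -
      (1 + u + u ^ 2 / 2 + u ^ 3 / 6 + u ^ 4 / 24) := by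
    rw [hs, ht]
    ring
  rw [e] at h
  linarith

theorem ev_eight_e02_b0 (u : ℝ) (h1 : -2 ≤ u) (h2 : u ≤ -1) :
    36788 / 100000 *
      (1 + (u + 1) + (u + 1) ^ 2 / 2 + (u + 1) ^ 3 / 6 + (u + 1) ^ 4 / 24) ≤
      (1 + 1 / 100 + (1 / 100) ^ 2 / 2) * (1 + u + 103 / 250 * u ^ 2) := by
  obtain ⟨s, hs⟩ : ∃ s, s = u - (-2) := ⟨_, rfl⟩
  obtain ⟨t, ht⟩ : ∃ t, t = -1 - u := ⟨_, rfl⟩
  have hs0 : 0 ≤ s := by linarith
  have ht0 : 0 ≤ t := by linarith
  have h : 0 ≤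
      2582787 / 5000000 * t ^ 4 + 9668179 / 7500000 * s * t ^ 3 +
      5460489 / 5000000 * s ^ 2 * t ^ 2 + 239471 / 625000 * s ^ 3 * t +
      241303 / 5000000 * s ^ 4 := by
    positivity
  have e :
      2582787 / 5000000 * t ^ 4 + 9668179 / 7500000 * s * t ^ 3 +
      5460489 / 5000000 * s ^ 2 * t ^ 2 + 239471 / 625000 * s ^ 3 * t +
      241303 / 5000000 * s ^ 4 =
      (1 + 1 / 100 + (1 / 100) ^ 2 / 2) * (1 + u + 103 / 250 * u ^ 2) -
      (36788 / 100000 *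
      (1 + (u + 1) + (u + 1) ^ 2 / 2 + (u + 1) ^ 3 / 6 + (u + 1) ^ 4 / 24)) := by
    rw [hs, ht]
    ring
  rw [e] at h
  linarith

theorem ev_eight_e02_c0 (u : ℝ) (h1 : -3 ≤ u) (h2 : u ≤ -2) :
    13534 / 100000 *
      (1 + (u + 2) + (u + 2) ^ 2 / 2 + (u + 2) ^ 3 / 6 + (u + 2) ^ 4 / 24) ≤
      (1 + 1 / 100 + (1 / 100) ^ 2 / 2) * (1 + u + 103 / 250 * u ^ 2) := by
  obtain ⟨s, hs⟩ : ∃ s, s = u - (-3) := ⟨_, rfl⟩
  obtain ⟨t, ht⟩ : ∃ t, t = -2 - u := ⟨_, rfl⟩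
  have hs0 : 0 ≤ s := by linarith
  have ht0 : 0 ≤ t := by linarith
  have h : 0 ≤
      16744129 / 10000000 * t ^ 4 + 7748617 / 1500000 * s * t ^ 3 +
      29165311 / 5000000 * s ^ 2 * t ^ 2 + 1433271 / 500000 * s ^ 3 * t +
      1297931 / 2500000 * s ^ 4 := by
    positivity
  have e :
      16744129 / 10000000 * t ^ 4 + 7748617 / 1500000 * s * t ^ 3 +
      29165311 / 5000000 * s ^ 2 * t ^ 2 + 1433271 / 500000 * s ^ 3 * t +
      1297931 / 2500000 * s ^ 4 =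
      (1 + 1 / 100 + (1 / 100) ^ 2 / 2) * (1 + u + 103 / 250 * u ^ 2) -
      (13534 / 100000 *
      (1 + (u + 2) + (u + 2) ^ 2 / 2 + (u + 2) ^ 3 / 6 + (u + 2) ^ 4 / 24)) := by
    rw [hs, ht]
    ring
  rw [e] at h
  linarith

theorem ev_eight_e02_d (u : ℝ) (h2 : u ≤ -3) :
    4979 / 100000 ≤
      (1 + 1 / 100 + (1 / 100) ^ 2 / 2) * (1 + u + 103 / 250 * u ^ 2) := by
  obtain ⟨s, hs⟩ : ∃ s, s = -3 - u := ⟨_, rfl⟩
  have hs0 : 0 ≤ s := by linarith
  have h : 0 ≤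
      8376877 / 5000000 + 464623 / 312500 * s + 2080703 / 5000000 * s ^ 2 := by
    positivity
  have e :
      8376877 / 5000000 + 464623 / 312500 * s + 2080703 / 5000000 * s ^ 2 =
      (1 + 1 / 100 + (1 / 100) ^ 2 / 2) * (1 + u + 103 / 250 * u ^ 2) -
      (4979 / 100000) := by
    rw [hs]
    ring
  rw [e] at h
  linarith

theorem ev_eight_e02_g0 (u : ℝ) (h1 : 0 ≤ u) (h2 : u ≤ 1) :
    1 * (1 + (u - 0) / 8) ^ 8 ≤
      (1 + 1 / 100 + (1 / 100) ^ 2 / 2) * ((1 + (3 / 50 * u ^ 2) + (3 / 50 * u ^ 2) ^ 2 / 2 +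
      (3 / 50 * u ^ 2) ^ 3 / 6) *
      (1 + u + 103 / 250 * u ^ 2)) := by
  obtain ⟨s, hs⟩ : ∃ s, s = u - (0) := ⟨_, rfl⟩
  obtain ⟨t, ht⟩ : ∃ t, t = 1 - u := ⟨_, rfl⟩
  have hs0 : 0 ≤ s := by linarith
  have ht0 : 0 ≤ t := by linarith
  have h : 0 ≤
      201 / 20000 * t ^ 8 + 1809 / 20000 * s * t ^ 7 + 244371 / 625000 * s ^ 2 * t ^ 6 +
      2401349 / 2500000 * s ^ 3 * t ^ 5 + 5638962729 / 4000000000 * s ^ 4 * t ^ 4 +
      10004782677 / 8000000000 * s ^ 5 * t ^ 3 +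
      2088224043941 / 3200000000000 * s ^ 6 * t ^ 2 +
      2340549116043 / 12800000000000 * s ^ 7 * t + 432198856524843 / 20480000000000000 * s ^ 8 := by
    positivity
  have e :
      201 / 20000 * t ^ 8 + 1809 / 20000 * s * t ^ 7 + 244371 / 625000 * s ^ 2 * t ^ 6 +
      2401349 / 2500000 * s ^ 3 * t ^ 5 + 5638962729 / 4000000000 * s ^ 4 * t ^ 4 +
      10004782677 / 8000000000 * s ^ 5 * t ^ 3 +
      2088224043941 / 3200000000000 * s ^ 6 * t ^ 2 +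
      2340549116043 / 12800000000000 * s ^ 7 * t + 432198856524843 / 20480000000000000 * s ^ 8 =
      (1 + 1 / 100 + (1 / 100) ^ 2 / 2) * ((1 + (3 / 50 * u ^ 2) + (3 / 50 * u ^ 2) ^ 2 / 2 +
      (3 / 50 * u ^ 2) ^ 3 / 6) *
      (1 + u + 103 / 250 * u ^ 2)) -
      (1 * (1 + (u - 0) / 8) ^ 8) := by
    rw [hs, ht]
    ring
  rw [e] at h
  linarith

theorem ev_eight_e02_g1 (u : ℝ) (h1 : 1 ≤ u) (h2 : u ≤ 3 / 2) :
    1 * (1 + (u - 0) / 8) ^ 8 ≤
      (1 + 1 / 100 + (1 / 100) ^ 2 / 2) * ((1 + (3 / 50 * u ^ 2) + (3 / 50 * u ^ 2) ^ 2 / 2 +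
      (3 / 50 * u ^ 2) ^ 3 / 6) *
      (1 + u + 103 / 250 * u ^ 2)) := by
  obtain ⟨s, hs⟩ : ∃ s, s = u - (1) := ⟨_, rfl⟩
  obtain ⟨t, ht⟩ : ∃ t, t = 3 / 2 - u := ⟨_, rfl⟩
  have hs0 : 0 ≤ s := by linarith
  have ht0 : 0 ≤ t := by linarith
  have h : 0 ≤
      432198856524843 / 80000000000000 * t ^ 8 +
      828486746365929 / 20000000000000 * s * t ^ 7 +
      10909073856609509 / 80000000000000 * s ^ 2 * t ^ 6 +
      20081723072880327 / 80000000000000 * s ^ 3 * t ^ 5 +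
      36057066137954781 / 128000000000000 * s ^ 4 * t ^ 4 +
      62902204420008943 / 320000000000000 * s ^ 5 * t ^ 3 +
      106168330307486229 / 1280000000000000 * s ^ 6 * t ^ 2 +
      24685877672408241 / 1280000000000000 * s ^ 7 * t +
      38817284611678923 / 20480000000000000 * s ^ 8 := by
    positivity
  have e :
      432198856524843 / 80000000000000 * t ^ 8 +
      828486746365929 / 20000000000000 * s * t ^ 7 +
      10909073856609509 / 80000000000000 * s ^ 2 * t ^ 6 +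
      20081723072880327 / 80000000000000 * s ^ 3 * t ^ 5 +
      36057066137954781 / 128000000000000 * s ^ 4 * t ^ 4 +
      62902204420008943 / 320000000000000 * s ^ 5 * t ^ 3 +
      106168330307486229 / 1280000000000000 * s ^ 6 * t ^ 2 +
      24685877672408241 / 1280000000000000 * s ^ 7 * t +
      38817284611678923 / 20480000000000000 * s ^ 8 =
      (1 + 1 / 100 + (1 / 100) ^ 2 / 2) * ((1 + (3 / 50 * u ^ 2) + (3 / 50 * u ^ 2) ^ 2 / 2 +
      (3 / 50 * u ^ 2) ^ 3 / 6) *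
      (1 + u + 103 / 250 * u ^ 2)) -
      (1 * (1 + (u - 0) / 8) ^ 8) := by
    rw [hs, ht]
    ring
  rw [e] at h
  linarith

theorem ev_eight_e02_g2 (u : ℝ) (h1 : 3 / 2 ≤ u) (h2 : u ≤ 2) :
    1 * (1 + (u - 0) / 8) ^ 8 ≤
      (1 + 1 / 100 + (1 / 100) ^ 2 / 2) * ((1 + (3 / 50 * u ^ 2) + (3 / 50 * u ^ 2) ^ 2 / 2 +
      (3 / 50 * u ^ 2) ^ 3 / 6) *
      (1 + u + 103 / 250 * u ^ 2)) := by
  obtain ⟨s, hs⟩ : ∃ s, s = u - (3 / 2) := ⟨_, rfl⟩
  obtain ⟨t, ht⟩ : ∃ t, t = 2 - u := ⟨_, rfl⟩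
  have hs0 : 0 ≤ s := by linarith
  have ht0 : 0 ≤ t := by linarith
  have h : 0 ≤
      38817284611678923 / 20480000000000000 * t ^ 8 +
      7065703469635341 / 640000000000000 * s * t ^ 7 +
      8071758793880829 / 320000000000000 * s ^ 2 * t ^ 6 +
      1115043457953643 / 40000000000000 * s ^ 3 * t ^ 5 +
      123415484822381 / 8000000000000 * s ^ 4 * t ^ 4 +
      18129382472827 / 2500000000000 * s ^ 5 * t ^ 3 +
      10464433458909 / 1250000000000 * s ^ 6 * t ^ 2 +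
      1022330536029 / 156250000000 * s ^ 7 * t + 560258636043 / 312500000000 * s ^ 8 := by
    positivity
  have e :
      38817284611678923 / 20480000000000000 * t ^ 8 +
      7065703469635341 / 640000000000000 * s * t ^ 7 +
      8071758793880829 / 320000000000000 * s ^ 2 * t ^ 6 +
      1115043457953643 / 40000000000000 * s ^ 3 * t ^ 5 +
      123415484822381 / 8000000000000 * s ^ 4 * t ^ 4 +
      18129382472827 / 2500000000000 * s ^ 5 * t ^ 3 +
      10464433458909 / 1250000000000 * s ^ 6 * t ^ 2 +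
      1022330536029 / 156250000000 * s ^ 7 * t + 560258636043 / 312500000000 * s ^ 8 =
      (1 + 1 / 100 + (1 / 100) ^ 2 / 2) * ((1 + (3 / 50 * u ^ 2) + (3 / 50 * u ^ 2) ^ 2 / 2 +
      (3 / 50 * u ^ 2) ^ 3 / 6) *
      (1 + u + 103 / 250 * u ^ 2)) -
      (1 * (1 + (u - 0) / 8) ^ 8) := by
    rw [hs, ht]
    ring
  rw [e] at h
  linarith

theorem ev_eight_e02_t (u : ℝ) (h1 : 2 ≤ u) :
    1 * (1 + (u - 0) / 8) ^ 8 ≤
      (1 + 1 / 100 + (1 / 100) ^ 2 / 2) * ((1 + (3 / 50 * u ^ 2) + (3 / 50 * u ^ 2) ^ 2 / 2 +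
      (3 / 50 * u ^ 2) ^ 3 / 6) *
      (1 + u + 103 / 250 * u ^ 2)) := by
  obtain ⟨s, hs⟩ : ∃ s, s = u - (2) := ⟨_, rfl⟩
  have hs0 : 0 ≤ s := by linarith
  have h : 0 ≤
      560258636043 / 80000000000000 + 1218704008143 / 20000000000000 * s +
      15962890678101 / 80000000000000 * s ^ 2 + 14936627875601 / 80000000000000 * s ^ 3 +
      9898132537501 / 128000000000000 * s ^ 4 + 5654756879801 / 320000000000000 * s ^ 5 +
      3590996446501 / 1280000000000000 * s ^ 6 + 347251729943 / 1280000000000000 * s ^ 7 +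
      305591438443 / 20480000000000000 * s ^ 8 := by
    positivity
  have e :
      560258636043 / 80000000000000 + 1218704008143 / 20000000000000 * s +
      15962890678101 / 80000000000000 * s ^ 2 + 14936627875601 / 80000000000000 * s ^ 3 +
      9898132537501 / 128000000000000 * s ^ 4 + 5654756879801 / 320000000000000 * s ^ 5 +
      3590996446501 / 1280000000000000 * s ^ 6 + 347251729943 / 1280000000000000 * s ^ 7 +
      305591438443 / 20480000000000000 * s ^ 8 =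
      (1 + 1 / 100 + (1 / 100) ^ 2 / 2) * ((1 + (3 / 50 * u ^ 2) + (3 / 50 * u ^ 2) ^ 2 / 2 +
      (3 / 50 * u ^ 2) ^ 3 / 6) *
      (1 + u + 103 / 250 * u ^ 2)) -
      (1 * (1 + (u - 0) / 8) ^ 8) := by
    rw [hs]
    ring
  rw [e] at h
  linarith

/-- `K = 8`: `(c, μ, P, δ) = (103 / 250, 3 / 50, 0, 1 / 100)` -/
theorem expFd_eight_e02 : ExpFd 8 (103 / 250) (3 / 50) (0) (1 / 100) := by
  have hde : (1 + 1 / 100 + (1 / 100) ^ 2 / 2) ≤ Real.exp (1 / 100) :=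
    Real.quadratic_le_exp_of_nonneg (by norm_num)
  have hq : ∀ u : ℝ, 0 ≤ 1 + u + 103 / 250 * u ^ 2 := fun u => by
    nlinarith [sq_nonneg (u + 2), sq_nonneg u]
  have hR : ∀ (u x y : ℝ), x ≤ y →
      y ≤ (1 + 1 / 100 + (1 / 100) ^ 2 / 2) * (1 + u + 103 / 250 * u ^ 2) →
      x ≤ Real.exp (1 / 100) * (1 + u + 103 / 250 * u ^ 2) := fun u x y h1 h2 =>
    (h1.trans h2).trans (mul_le_mul_of_nonneg_right hde (hq u))
  refine ExpFd.of (by norm_num) (by norm_num) (by norm_num) (by norm_num) (by norm_num) ?_ ?_ ?_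
  · intro u h1
    rcases le_total u (-3) with h3 | h3
    · exact hR u _ _ (ev_exp_n3 h3) (ev_eight_e02_d u h3)
    rcases le_total u (-2) with h4 | h4
    · refine hR u _ _ (ev_exp_n2 h4) ?_
      exact ev_eight_e02_c0 u (by linarith) (by linarith)
    rcases le_total u (-1) with h5 | h5
    · refine hR u _ _ (ev_exp_n1 h5) ?_
      exact ev_eight_e02_b0 u (by linarith) (by linarith)
    refine hR u _ _ (ev_exp_n0 h1) ?_
    rcases le_total u (-1 / 2) with hh | hh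
    · exact ev_eight_e02_a0 u (by linarith) (by linarith)
    exact ev_eight_e02_a1 u (by linarith) (by linarith)
  · intro u h1 h2
    have h7 : u = 0 := le_antisymm h2 h1
    rw [h7, Real.exp_zero]
    have := Real.add_one_le_exp ((1 / 100 : ℝ) + 3 / 50 * 0 ^ 2)
    linarith
  · intro u h1
    have h4 : 0 ≤ (1 + (u - 0) / 8) ^ 8 := by
      have : 0 ≤ (u - 0) / 8 := div_nonneg (by linarith) (by norm_num)
      positivity
    have hE : Real.exp (0) ≤ 1 := Real.exp_zero.le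
    have hx : 0 ≤ 3 / 50 * u ^ 2 := by positivity
    have h5 := mul_le_mul_of_nonneg_right (taylor3_le_expE _ hx) (hq u)
    have h6 : 0 ≤ Real.exp (3 / 50 * u ^ 2) * (1 + u + 103 / 250 * u ^ 2) :=
      mul_nonneg (Real.exp_nonneg _) (hq u)
    rw [Real.exp_add, mul_assoc]
    push_cast
    refine ((mul_le_mul_of_nonneg_right hE h4).trans ?_).trans
      ((mul_le_mul_of_nonneg_left h5
        (by norm_num : (0 : ℝ) ≤ (1 + 1 / 100 + (1 / 100) ^ 2 / 2))).trans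
        (mul_le_mul_of_nonneg_right hde h6))
    rcases le_total u (1) with hh | hh
    · exact ev_eight_e02_g0 u (by linarith) (by linarith)
    rcases le_total u (3 / 2) with hh | hh
    · exact ev_eight_e02_g1 u (by linarith) (by linarith)
    rcases le_total u (2) with hh | hh
    · exact ev_eight_e02_g2 u (by linarith) (by linarith)
    exact ev_eight_e02_t u (by linarith)

theorem ev_eight_e03_a0 (u : ℝ) (h1 : -1 ≤ u) (h2 : u ≤ -1 / 2) :
    1 + u + u ^ 2 / 2 + u ^ 3 / 6 + u ^ 4 / 24 ≤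
      (1 + 1 / 50 + (1 / 50) ^ 2 / 2) * (1 + u + 2 / 5 * u ^ 2) := by
  obtain ⟨s, hs⟩ : ∃ s, s = u - (-1) := ⟨_, rfl⟩
  obtain ⟨t, ht⟩ : ∃ t, t = -1 / 2 - u := ⟨_, rfl⟩
  have hs0 : 0 ≤ s := by linarith
  have ht0 : 0 ≤ t := by linarith
  have h : 0 ≤
      1654 / 3125 * t ^ 4 + 10151 / 9375 * s * t ^ 3 + 2203 / 3125 * s ^ 2 * t ^ 2 +
      871 / 3125 * s ^ 3 * t + 6419 / 75000 * s ^ 4 := by
    positivity
  have e :
      1654 / 3125 * t ^ 4 + 10151 / 9375 * s * t ^ 3 + 2203 / 3125 * s ^ 2 * t ^ 2 +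
      871 / 3125 * s ^ 3 * t + 6419 / 75000 * s ^ 4 =
      (1 + 1 / 50 + (1 / 50) ^ 2 / 2) * (1 + u + 2 / 5 * u ^ 2) -
      (1 + u + u ^ 2 / 2 + u ^ 3 / 6 + u ^ 4 / 24) := by
    rw [hs, ht]
    ring
  rw [e] at h
  linarith

theorem ev_eight_e03_a1 (u : ℝ) (h1 : -1 / 2 ≤ u) (h2 : u ≤ 0) :
    1 + u + u ^ 2 / 2 + u ^ 3 / 6 + u ^ 4 / 24 ≤
      (1 + 1 / 50 + (1 / 50) ^ 2 / 2) * (1 + u + 2 / 5 * u ^ 2) := by
  obtain ⟨s, hs⟩ : ∃ s, s = u - (-1 / 2) := ⟨_, rfl⟩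
  obtain ⟨t, ht⟩ : ∃ t, t = 0 - u := ⟨_, rfl⟩
  have hs0 : 0 ≤ s := by linarith
  have ht0 : 0 ≤ t := by linarith
  have h : 0 ≤
      6419 / 75000 * t ^ 4 + 3806 / 9375 * s * t ^ 3 + 3396 / 3125 * s ^ 2 * t ^ 2 +
      707 / 625 * s ^ 3 * t + 202 / 625 * s ^ 4 := by
    positivity
  have e :
      6419 / 75000 * t ^ 4 + 3806 / 9375 * s * t ^ 3 + 3396 / 3125 * s ^ 2 * t ^ 2 +
      707 / 625 * s ^ 3 * t + 202 / 625 * s ^ 4 =
      (1 + 1 / 50 + (1 / 50) ^ 2 / 2) * (1 + u + 2 / 5 * u ^ 2) -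
      (1 + u + u ^ 2 / 2 + u ^ 3 / 6 + u ^ 4 / 24) := by
    rw [hs, ht]
    ring
  rw [e] at h
  linarith

theorem ev_eight_e03_b0 (u : ℝ) (h1 : -2 ≤ u) (h2 : u ≤ -1) :
    36788 / 100000 *
      (1 + (u + 1) + (u + 1) ^ 2 / 2 + (u + 1) ^ 3 / 6 + (u + 1) ^ 4 / 24) ≤
      (1 + 1 / 50 + (1 / 50) ^ 2 / 2) * (1 + u + 2 / 5 * u ^ 2) := by
  obtain ⟨s, hs⟩ : ∃ s, s = u - (-2) := ⟨_, rfl⟩
  obtain ⟨t, ht⟩ : ∃ t, t = -1 - u := ⟨_, rfl⟩
  have hs0 : 0 ≤ s := by linarith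
  have ht0 : 0 ≤ t := by linarith
  have h : 0 ≤
      94833 / 200000 * t ^ 4 + 174287 / 150000 * s * t ^ 3 + 47843 / 50000 * s ^ 2 * t ^ 2 +
      2029 / 6250 * s ^ 3 * t + 201 / 5000 * s ^ 4 := by
    positivity
  have e :
      94833 / 200000 * t ^ 4 + 174287 / 150000 * s * t ^ 3 + 47843 / 50000 * s ^ 2 * t ^ 2 +
      2029 / 6250 * s ^ 3 * t + 201 / 5000 * s ^ 4 =
      (1 + 1 / 50 + (1 / 50) ^ 2 / 2) * (1 + u + 2 / 5 * u ^ 2) -
      (36788 / 100000 *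
      (1 + (u + 1) + (u + 1) ^ 2 / 2 + (u + 1) ^ 3 / 6 + (u + 1) ^ 4 / 24)) := by
    rw [hs, ht]
    ring
  rw [e] at h
  linarith

theorem ev_eight_e03_c0 (u : ℝ) (h1 : -3 ≤ u) (h2 : u ≤ -2) :
    13534 / 100000 *
      (1 + (u + 2) + (u + 2) ^ 2 / 2 + (u + 2) ^ 3 / 6 + (u + 2) ^ 4 / 24) ≤
      (1 + 1 / 50 + (1 / 50) ^ 2 / 2) * (1 + u + 2 / 5 * u ^ 2) := by
  obtain ⟨s, hs⟩ : ∃ s, s = u - (-3) := ⟨_, rfl⟩
  obtain ⟨t, ht⟩ : ∃ t, t = -2 - u := ⟨_, rfl⟩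
  have hs0 : 0 ≤ s := by linarith
  have ht0 : 0 ≤ t := by linarith
  have h : 0 ≤
      632627 / 400000 * t ^ 4 + 1455863 / 300000 * s * t ^ 3 +
      544347 / 100000 * s ^ 2 * t ^ 2 + 132729 / 50000 * s ^ 3 * t + 23839 / 50000 * s ^ 4 := by
    positivity
  have e :
      632627 / 400000 * t ^ 4 + 1455863 / 300000 * s * t ^ 3 +
      544347 / 100000 * s ^ 2 * t ^ 2 + 132729 / 50000 * s ^ 3 * t + 23839 / 50000 * s ^ 4 =
      (1 + 1 / 50 + (1 / 50) ^ 2 / 2) * (1 + u + 2 / 5 * u ^ 2) -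
      (13534 / 100000 *
      (1 + (u + 2) + (u + 2) ^ 2 / 2 + (u + 2) ^ 3 / 6 + (u + 2) ^ 4 / 24)) := by
    rw [hs, ht]
    ring
  rw [e] at h
  linarith

theorem ev_eight_e03_d (u : ℝ) (h2 : u ≤ -3) :
    4979 / 100000 ≤
      (1 + 1 / 50 + (1 / 50) ^ 2 / 2) * (1 + u + 2 / 5 * u ^ 2) := by
  obtain ⟨s, hs⟩ : ∃ s, s = -3 - u := ⟨_, rfl⟩
  have hs0 : 0 ≤ s := by linarith
  have h : 0 ≤
      158253 / 100000 + 35707 / 25000 * s + 5101 / 12500 * s ^ 2 := by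
    positivity
  have e :
      158253 / 100000 + 35707 / 25000 * s + 5101 / 12500 * s ^ 2 =
      (1 + 1 / 50 + (1 / 50) ^ 2 / 2) * (1 + u + 2 / 5 * u ^ 2) -
      (4979 / 100000) := by
    rw [hs]
    ring
  rw [e] at h
  linarith

theorem ev_eight_e03_g0 (u : ℝ) (h1 : 0 ≤ u) (h2 : u ≤ 1) :
    1 * (1 + (u - 0) / 8) ^ 8 ≤
      (1 + 1 / 50 + (1 / 50) ^ 2 / 2) * ((1 + (3 / 50 * u ^ 2) + (3 / 50 * u ^ 2) ^ 2 / 2 +
      (3 / 50 * u ^ 2) ^ 3 / 6) *
      (1 + u + 2 / 5 * u ^ 2)) := by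
  obtain ⟨s, hs⟩ : ∃ s, s = u - (0) := ⟨_, rfl⟩
  obtain ⟨t, ht⟩ : ∃ t, t = 1 - u := ⟨_, rfl⟩
  have hs0 : 0 ≤ s := by linarith
  have ht0 : 0 ≤ t := by linarith
  have h : 0 ≤
      101 / 5000 * t ^ 8 + 909 / 5000 * s * t ^ 7 + 92349 / 125000 * s ^ 2 * t ^ 6 +
      1697989 / 1000000 * s ^ 3 * t ^ 5 + 1893037053 / 800000000 * s ^ 4 * t ^ 4 +
      129885609 / 64000000 * s ^ 5 * t ^ 3 + 666550069793 / 640000000000 * s ^ 6 * t ^ 2 +
      746511932751 / 2560000000000 * s ^ 7 * t + 27934470414051 / 819200000000000 * s ^ 8 := by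
    positivity
  have e :
      101 / 5000 * t ^ 8 + 909 / 5000 * s * t ^ 7 + 92349 / 125000 * s ^ 2 * t ^ 6 +
      1697989 / 1000000 * s ^ 3 * t ^ 5 + 1893037053 / 800000000 * s ^ 4 * t ^ 4 +
      129885609 / 64000000 * s ^ 5 * t ^ 3 + 666550069793 / 640000000000 * s ^ 6 * t ^ 2 +
      746511932751 / 2560000000000 * s ^ 7 * t + 27934470414051 / 819200000000000 * s ^ 8 =
      (1 + 1 / 50 + (1 / 50) ^ 2 / 2) * ((1 + (3 / 50 * u ^ 2) + (3 / 50 * u ^ 2) ^ 2 / 2 +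
      (3 / 50 * u ^ 2) ^ 3 / 6) *
      (1 + u + 2 / 5 * u ^ 2)) -
      (1 * (1 + (u - 0) / 8) ^ 8) := by
    rw [hs, ht]
    ring
  rw [e] at h
  linarith

theorem ev_eight_e03_g1 (u : ℝ) (h1 : 1 ≤ u) (h2 : u ≤ 2) :
    1 * (1 + (u - 0) / 8) ^ 8 ≤
      (1 + 1 / 50 + (1 / 50) ^ 2 / 2) * ((1 + (3 / 50 * u ^ 2) + (3 / 50 * u ^ 2) ^ 2 / 2 +
      (3 / 50 * u ^ 2) ^ 3 / 6) *
      (1 + u + 2 / 5 * u ^ 2)) := by
  obtain ⟨s, hs⟩ : ∃ s, s = u - (1) := ⟨_, rfl⟩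
  obtain ⟨t, ht⟩ : ∃ t, t = 2 - u := ⟨_, rfl⟩
  have hs0 : 0 ≤ s := by linarith
  have ht0 : 0 ≤ t := by linarith
  have h : 0 ≤
      27934470414051 / 819200000000000 * t ^ 8 +
      13004231759031 / 51200000000000 * s * t ^ 7 +
      39841957311517 / 51200000000000 * s ^ 2 * t ^ 6 +
      16001176093257 / 12800000000000 * s ^ 3 * t ^ 5 +
      5645593997637 / 5120000000000 * s ^ 4 * t ^ 4 +
      1595398703057 / 3200000000000 * s ^ 5 * t ^ 3 +
      283219827117 / 3200000000000 * s ^ 6 * t ^ 2 + 4393275231 / 800000000000 * s ^ 7 * t +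
      15119699651 / 3200000000000 * s ^ 8 := by
    positivity
  have e :
      27934470414051 / 819200000000000 * t ^ 8 +
      13004231759031 / 51200000000000 * s * t ^ 7 +
      39841957311517 / 51200000000000 * s ^ 2 * t ^ 6 +
      16001176093257 / 12800000000000 * s ^ 3 * t ^ 5 +
      5645593997637 / 5120000000000 * s ^ 4 * t ^ 4 +
      1595398703057 / 3200000000000 * s ^ 5 * t ^ 3 +
      283219827117 / 3200000000000 * s ^ 6 * t ^ 2 + 4393275231 / 800000000000 * s ^ 7 * t +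
      15119699651 / 3200000000000 * s ^ 8 =
      (1 + 1 / 50 + (1 / 50) ^ 2 / 2) * ((1 + (3 / 50 * u ^ 2) + (3 / 50 * u ^ 2) ^ 2 / 2 +
      (3 / 50 * u ^ 2) ^ 3 / 6) *
      (1 + u + 2 / 5 * u ^ 2)) -
      (1 * (1 + (u - 0) / 8) ^ 8) := by
    rw [hs, ht]
    ring
  rw [e] at h
  linarith

theorem ev_eight_e03_t (u : ℝ) (h1 : 2 ≤ u) :
    1 * (1 + (u - 0) / 8) ^ 8 ≤
      (1 + 1 / 50 + (1 / 50) ^ 2 / 2) * ((1 + (3 / 50 * u ^ 2) + (3 / 50 * u ^ 2) ^ 2 / 2 +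
      (3 / 50 * u ^ 2) ^ 3 / 6) *
      (1 + u + 2 / 5 * u ^ 2)) := by
  obtain ⟨s, hs⟩ : ∃ s, s = u - (2) := ⟨_, rfl⟩
  have hs0 : 0 ≤ s := by linarith
  have h : 0 ≤
      15119699651 / 3200000000000 + 25846124071 / 800000000000 * s +
      583559710877 / 3200000000000 * s ^ 2 + 581588320697 / 3200000000000 * s ^ 3 +
      388992933157 / 5120000000000 * s ^ 4 + 222980522657 / 12800000000000 * s ^ 5 +
      141513602797 / 51200000000000 * s ^ 6 + 13671060911 / 51200000000000 * s ^ 7 +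
      11985940771 / 819200000000000 * s ^ 8 := by
    positivity
  have e :
      15119699651 / 3200000000000 + 25846124071 / 800000000000 * s +
      583559710877 / 3200000000000 * s ^ 2 + 581588320697 / 3200000000000 * s ^ 3 +
      388992933157 / 5120000000000 * s ^ 4 + 222980522657 / 12800000000000 * s ^ 5 +
      141513602797 / 51200000000000 * s ^ 6 + 13671060911 / 51200000000000 * s ^ 7 +
      11985940771 / 819200000000000 * s ^ 8 =
      (1 + 1 / 50 + (1 / 50) ^ 2 / 2) * ((1 + (3 / 50 * u ^ 2) + (3 / 50 * u ^ 2) ^ 2 / 2 +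
      (3 / 50 * u ^ 2) ^ 3 / 6) *
      (1 + u + 2 / 5 * u ^ 2)) -
      (1 * (1 + (u - 0) / 8) ^ 8) := by
    rw [hs]
    ring
  rw [e] at h
  linarith

/-- `K = 8`: `(c, μ, P, δ) = (2 / 5, 3 / 50, 0, 1 / 50)` -/
theorem expFd_eight_e03 : ExpFd 8 (2 / 5) (3 / 50) (0) (1 / 50) := by
  have hde : (1 + 1 / 50 + (1 / 50) ^ 2 / 2) ≤ Real.exp (1 / 50) :=
    Real.quadratic_le_exp_of_nonneg (by norm_num)
  have hq : ∀ u : ℝ, 0 ≤ 1 + u + 2 / 5 * u ^ 2 := fun u => by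
    nlinarith [sq_nonneg (u + 2), sq_nonneg u]
  have hR : ∀ (u x y : ℝ), x ≤ y →
      y ≤ (1 + 1 / 50 + (1 / 50) ^ 2 / 2) * (1 + u + 2 / 5 * u ^ 2) →
      x ≤ Real.exp (1 / 50) * (1 + u + 2 / 5 * u ^ 2) := fun u x y h1 h2 =>
    (h1.trans h2).trans (mul_le_mul_of_nonneg_right hde (hq u))
  refine ExpFd.of (by norm_num) (by norm_num) (by norm_num) (by norm_num) (by norm_num) ?_ ?_ ?_
  · intro u h1
    rcases le_total u (-3) with h3 | h3
    · exact hR u _ _ (ev_exp_n3 h3) (ev_eight_e03_d u h3)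
    rcases le_total u (-2) with h4 | h4
    · refine hR u _ _ (ev_exp_n2 h4) ?_
      exact ev_eight_e03_c0 u (by linarith) (by linarith)
    rcases le_total u (-1) with h5 | h5
    · refine hR u _ _ (ev_exp_n1 h5) ?_
      exact ev_eight_e03_b0 u (by linarith) (by linarith)
    refine hR u _ _ (ev_exp_n0 h1) ?_
    rcases le_total u (-1 / 2) with hh | hh
    · exact ev_eight_e03_a0 u (by linarith) (by linarith)
    exact ev_eight_e03_a1 u (by linarith) (by linarith)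
  · intro u h1 h2
    have h7 : u = 0 := le_antisymm h2 h1
    rw [h7, Real.exp_zero]
    have := Real.add_one_le_exp ((1 / 50 : ℝ) + 3 / 50 * 0 ^ 2)
    linarith
  · intro u h1
    have h4 : 0 ≤ (1 + (u - 0) / 8) ^ 8 := by
      have : 0 ≤ (u - 0) / 8 := div_nonneg (by linarith) (by norm_num)
      positivity
    have hE : Real.exp (0) ≤ 1 := Real.exp_zero.le
    have hx : 0 ≤ 3 / 50 * u ^ 2 := by positivity
    have h5 := mul_le_mul_of_nonneg_right (taylor3_le_expE _ hx) (hq u)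
    have h6 : 0 ≤ Real.exp (3 / 50 * u ^ 2) * (1 + u + 2 / 5 * u ^ 2) :=
      mul_nonneg (Real.exp_nonneg _) (hq u)
    rw [Real.exp_add, mul_assoc]
    push_cast
    refine ((mul_le_mul_of_nonneg_right hE h4).trans ?_).trans
      ((mul_le_mul_of_nonneg_left h5
        (by norm_num : (0 : ℝ) ≤ (1 + 1 / 50 + (1 / 50) ^ 2 / 2))).trans
        (mul_le_mul_of_nonneg_right hde h6))
    rcases le_total u (1) with hh | hh
    · exact ev_eight_e03_g0 u (by linarith) (by linarith)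
    rcases le_total u (2) with hh | hh
    · exact ev_eight_e03_g1 u (by linarith) (by linarith)
    exact ev_eight_e03_t u (by linarith)

theorem ev_eight_e04_a0 (u : ℝ) (h1 : -1 ≤ u) (h2 : u ≤ -7 / 8) :
    1 + u + u ^ 2 / 2 + u ^ 3 / 6 + u ^ 4 / 24 ≤
      (1 + 1 / 20 + (1 / 20) ^ 2 / 2) * (1 + u + 9 / 25 * u ^ 2) := by
  obtain ⟨s, hs⟩ : ∃ s, s = u - (-1) := ⟨_, rfl⟩
  obtain ⟨t, ht⟩ : ∃ t, t = -7 / 8 - u := ⟨_, rfl⟩
  have hs0 : 0 ≤ s := by linarith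
  have ht0 : 0 ≤ t := by linarith
  have h : 0 ≤
      8832 / 625 * t ^ 4 + 13712 / 375 * s * t ^ 3 + 20706 / 625 * s ^ 2 * t ^ 2 +
      1636 / 125 * s ^ 3 * t + 35263 / 15000 * s ^ 4 := by
    positivity
  have e :
      8832 / 625 * t ^ 4 + 13712 / 375 * s * t ^ 3 + 20706 / 625 * s ^ 2 * t ^ 2 +
      1636 / 125 * s ^ 3 * t + 35263 / 15000 * s ^ 4 =
      (1 + 1 / 20 + (1 / 20) ^ 2 / 2) * (1 + u + 9 / 25 * u ^ 2) -
      (1 + u + u ^ 2 / 2 + u ^ 3 / 6 + u ^ 4 / 24) := by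
    rw [hs, ht]
    ring
  rw [e] at h
  linarith

theorem ev_eight_e04_a1 (u : ℝ) (h1 : -7 / 8 ≤ u) (h2 : u ≤ -3 / 4) :
    1 + u + u ^ 2 / 2 + u ^ 3 / 6 + u ^ 4 / 24 ≤
      (1 + 1 / 20 + (1 / 20) ^ 2 / 2) * (1 + u + 9 / 25 * u ^ 2) := by
  obtain ⟨s, hs⟩ : ∃ s, s = u - (-7 / 8) := ⟨_, rfl⟩
  obtain ⟨t, ht⟩ : ∃ t, t = -3 / 4 - u := ⟨_, rfl⟩
  have hs0 : 0 ≤ s := by linarith
  have ht0 : 0 ≤ t := by linarith
  have h : 0 ≤
      35263 / 15000 * t ^ 4 + 10723 / 1875 * s * t ^ 3 + 6889 / 625 * s ^ 2 * t ^ 2 +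
      8828 / 625 * s ^ 3 * t + 4018 / 625 * s ^ 4 := by
    positivity
  have e :
      35263 / 15000 * t ^ 4 + 10723 / 1875 * s * t ^ 3 + 6889 / 625 * s ^ 2 * t ^ 2 +
      8828 / 625 * s ^ 3 * t + 4018 / 625 * s ^ 4 =
      (1 + 1 / 20 + (1 / 20) ^ 2 / 2) * (1 + u + 9 / 25 * u ^ 2) -
      (1 + u + u ^ 2 / 2 + u ^ 3 / 6 + u ^ 4 / 24) := by
    rw [hs, ht]
    ring
  rw [e] at h
  linarith

theorem ev_eight_e04_a2 (u : ℝ) (h1 : -3 / 4 ≤ u) (h2 : u ≤ -1 / 2) :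
    1 + u + u ^ 2 / 2 + u ^ 3 / 6 + u ^ 4 / 24 ≤
      (1 + 1 / 20 + (1 / 20) ^ 2 / 2) * (1 + u + 9 / 25 * u ^ 2) := by
  obtain ⟨s, hs⟩ : ∃ s, s = u - (-3 / 4) := ⟨_, rfl⟩
  obtain ⟨t, ht⟩ : ∃ t, t = -1 / 2 - u := ⟨_, rfl⟩
  have hs0 : 0 ≤ s := by linarith
  have ht0 : 0 ≤ t := by linarith
  have h : 0 ≤
      2009 / 5000 * t ^ 4 + 382 / 125 * s * t ^ 3 + 10703 / 1250 * s ^ 2 * t ^ 2 +
      3524 / 375 * s ^ 3 * t + 6464 / 1875 * s ^ 4 := by
    positivity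
  have e :
      2009 / 5000 * t ^ 4 + 382 / 125 * s * t ^ 3 + 10703 / 1250 * s ^ 2 * t ^ 2 +
      3524 / 375 * s ^ 3 * t + 6464 / 1875 * s ^ 4 =
      (1 + 1 / 20 + (1 / 20) ^ 2 / 2) * (1 + u + 9 / 25 * u ^ 2) -
      (1 + u + u ^ 2 / 2 + u ^ 3 / 6 + u ^ 4 / 24) := by
    rw [hs, ht]
    ring
  rw [e] at h
  linarith

theorem ev_eight_e04_a3 (u : ℝ) (h1 : -1 / 2 ≤ u) (h2 : u ≤ 0) :
    1 + u + u ^ 2 / 2 + u ^ 3 / 6 + u ^ 4 / 24 ≤
      (1 + 1 / 20 + (1 / 20) ^ 2 / 2) * (1 + u + 9 / 25 * u ^ 2) := by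
  obtain ⟨s, hs⟩ : ∃ s, s = u - (-1 / 2) := ⟨_, rfl⟩
  obtain ⟨t, ht⟩ : ∃ t, t = 0 - u := ⟨_, rfl⟩
  have hs0 : 0 ≤ s := by linarith
  have ht0 : 0 ≤ t := by linarith
  have h : 0 ≤
      404 / 1875 * t ^ 4 + 5291 / 3750 * s * t ^ 3 + 16019 / 5000 * s ^ 2 * t ^ 2 +
      287 / 100 * s ^ 3 * t + 41 / 50 * s ^ 4 := by
    positivity
  have e :
      404 / 1875 * t ^ 4 + 5291 / 3750 * s * t ^ 3 + 16019 / 5000 * s ^ 2 * t ^ 2 +
      287 / 100 * s ^ 3 * t + 41 / 50 * s ^ 4 =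
      (1 + 1 / 20 + (1 / 20) ^ 2 / 2) * (1 + u + 9 / 25 * u ^ 2) -
      (1 + u + u ^ 2 / 2 + u ^ 3 / 6 + u ^ 4 / 24) := by
    rw [hs, ht]
    ring
  rw [e] at h
  linarith

theorem ev_eight_e04_b0 (u : ℝ) (h1 : -2 ≤ u) (h2 : u ≤ -1) :
    36788 / 100000 *
      (1 + (u + 1) + (u + 1) ^ 2 / 2 + (u + 1) ^ 3 / 6 + (u + 1) ^ 4 / 24) ≤
      (1 + 1 / 20 + (1 / 20) ^ 2 / 2) * (1 + u + 9 / 25 * u ^ 2) := by
  obtain ⟨s, hs⟩ : ∃ s, s = u - (-2) := ⟨_, rfl⟩
  obtain ⟨t, ht⟩ : ∃ t, t = -1 - u := ⟨_, rfl⟩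
  have hs0 : 0 ≤ s := by linarith
  have ht0 : 0 ≤ t := by linarith
  have h : 0 ≤
      64919 / 200000 * t ^ 4 + 213961 / 300000 * s * t ^ 3 + 11963 / 25000 * s ^ 2 * t ^ 2 +
      11581 / 100000 * s ^ 3 * t + 1057 / 100000 * s ^ 4 := by
    positivity
  have e :
      64919 / 200000 * t ^ 4 + 213961 / 300000 * s * t ^ 3 + 11963 / 25000 * s ^ 2 * t ^ 2 +
      11581 / 100000 * s ^ 3 * t + 1057 / 100000 * s ^ 4 =
      (1 + 1 / 20 + (1 / 20) ^ 2 / 2) * (1 + u + 9 / 25 * u ^ 2) -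
      (36788 / 100000 *
      (1 + (u + 1) + (u + 1) ^ 2 / 2 + (u + 1) ^ 3 / 6 + (u + 1) ^ 4 / 24)) := by
    rw [hs, ht]
    ring
  rw [e] at h
  linarith

theorem ev_eight_e04_c0 (u : ℝ) (h1 : -3 ≤ u) (h2 : u ≤ -2) :
    13534 / 100000 *
      (1 + (u + 2) + (u + 2) ^ 2 / 2 + (u + 2) ^ 3 / 6 + (u + 2) ^ 4 / 24) ≤
      (1 + 1 / 20 + (1 / 20) ^ 2 / 2) * (1 + u + 9 / 25 * u ^ 2) := by
  obtain ⟨s, hs⟩ : ∃ s, s = u - (-3) := ⟨_, rfl⟩
  obtain ⟨t, ht⟩ : ∃ t, t = -2 - u := ⟨_, rfl⟩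
  have hs0 : 0 ≤ s := by linarith
  have ht0 : 0 ≤ t := by linarith
  have h : 0 ≤
      501119 / 400000 * t ^ 4 + 280997 / 75000 * s * t ^ 3 +
      406771 / 100000 * s ^ 2 * t ^ 2 + 190673 / 100000 * s ^ 3 * t + 32721 / 100000 * s ^ 4 := by
    positivity
  have e :
      501119 / 400000 * t ^ 4 + 280997 / 75000 * s * t ^ 3 +
      406771 / 100000 * s ^ 2 * t ^ 2 + 190673 / 100000 * s ^ 3 * t + 32721 / 100000 * s ^ 4 =
      (1 + 1 / 20 + (1 / 20) ^ 2 / 2) * (1 + u + 9 / 25 * u ^ 2) -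
      (13534 / 100000 *
      (1 + (u + 2) + (u + 2) ^ 2 / 2 + (u + 2) ^ 3 / 6 + (u + 2) ^ 4 / 24)) := by
    rw [hs, ht]
    ring
  rw [e] at h
  linarith

theorem ev_eight_e04_d (u : ℝ) (h2 : u ≤ -3) :
    4979 / 100000 ≤
      (1 + 1 / 20 + (1 / 20) ^ 2 / 2) * (1 + u + 9 / 25 * u ^ 2) := by
  obtain ⟨s, hs⟩ : ∃ s, s = -3 - u := ⟨_, rfl⟩
  have hs0 : 0 ≤ s := by linarith
  have h : 0 ≤
      3918 / 3125 + 24389 / 20000 * s + 7569 / 20000 * s ^ 2 := by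
    positivity
  have e :
      3918 / 3125 + 24389 / 20000 * s + 7569 / 20000 * s ^ 2 =
      (1 + 1 / 20 + (1 / 20) ^ 2 / 2) * (1 + u + 9 / 25 * u ^ 2) -
      (4979 / 100000) := by
    rw [hs]
    ring
  rw [e] at h
  linarith

theorem ev_eight_e04_g0 (u : ℝ) (h1 : 0 ≤ u) (h2 : u ≤ 2) :
    1 * (1 + (u - 0) / 8) ^ 8 ≤
      (1 + 1 / 20 + (1 / 20) ^ 2 / 2) * ((1 + (7 / 100 * u ^ 2) + (7 / 100 * u ^ 2) ^ 2 / 2 +
      (7 / 100 * u ^ 2) ^ 3 / 6) *
      (1 + u + 9 / 25 * u ^ 2)) := by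
  obtain ⟨s, hs⟩ : ∃ s, s = u - (0) := ⟨_, rfl⟩
  obtain ⟨t, ht⟩ : ∃ t, t = 2 - u := ⟨_, rfl⟩
  have hs0 : 0 ≤ s := by linarith
  have ht0 : 0 ≤ t := by linarith
  have h : 0 ≤
      41 / 204800 * t ^ 8 + 41 / 20480 * s * t ^ 7 + 44213 / 5120000 * s ^ 2 * t ^ 6 +
      50851 / 2560000 * s ^ 3 * t ^ 5 + 13614771 / 512000000 * s ^ 4 * t ^ 4 +
      2220709 / 102400000 * s ^ 5 * t ^ 3 + 692665367 / 61440000000 * s ^ 6 * t ^ 2 +
      2434895897 / 614400000000 * s ^ 7 * t + 136988474919 / 163840000000000 * s ^ 8 := by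
    positivity
  have e :
      41 / 204800 * t ^ 8 + 41 / 20480 * s * t ^ 7 + 44213 / 5120000 * s ^ 2 * t ^ 6 +
      50851 / 2560000 * s ^ 3 * t ^ 5 + 13614771 / 512000000 * s ^ 4 * t ^ 4 +
      2220709 / 102400000 * s ^ 5 * t ^ 3 + 692665367 / 61440000000 * s ^ 6 * t ^ 2 +
      2434895897 / 614400000000 * s ^ 7 * t + 136988474919 / 163840000000000 * s ^ 8 =
      (1 + 1 / 20 + (1 / 20) ^ 2 / 2) * ((1 + (7 / 100 * u ^ 2) + (7 / 100 * u ^ 2) ^ 2 / 2 +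
      (7 / 100 * u ^ 2) ^ 3 / 6) *
      (1 + u + 9 / 25 * u ^ 2)) -
      (1 * (1 + (u - 0) / 8) ^ 8) := by
    rw [hs, ht]
    ring
  rw [e] at h
  linarith

theorem ev_eight_e04_t (u : ℝ) (h1 : 2 ≤ u) :
    1 * (1 + (u - 0) / 8) ^ 8 ≤
      (1 + 1 / 20 + (1 / 20) ^ 2 / 2) * ((1 + (7 / 100 * u ^ 2) + (7 / 100 * u ^ 2) ^ 2 / 2 +
      (7 / 100 * u ^ 2) ^ 3 / 6) *
      (1 + u + 9 / 25 * u ^ 2)) := by
  obtain ⟨s, hs⟩ : ∃ s, s = u - (2) := ⟨_, rfl⟩
  have hs0 : 0 ≤ s := by linarith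
  have h : 0 ≤
      136988474919 / 640000000000 + 167475835057 / 480000000000 * s +
      284411483833 / 640000000000 * s ^ 2 + 195681130533 / 640000000000 * s ^ 3 +
      348350281699 / 3072000000000 * s ^ 4 + 66113917933 / 2560000000000 * s ^ 5 +
      41828818633 / 10240000000000 * s ^ 6 + 12333578857 / 30720000000000 * s ^ 7 +
      3534867719 / 163840000000000 * s ^ 8 := by
    positivity
  have e :
      136988474919 / 640000000000 + 167475835057 / 480000000000 * s +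
      284411483833 / 640000000000 * s ^ 2 + 195681130533 / 640000000000 * s ^ 3 +
      348350281699 / 3072000000000 * s ^ 4 + 66113917933 / 2560000000000 * s ^ 5 +
      41828818633 / 10240000000000 * s ^ 6 + 12333578857 / 30720000000000 * s ^ 7 +
      3534867719 / 163840000000000 * s ^ 8 =
      (1 + 1 / 20 + (1 / 20) ^ 2 / 2) * ((1 + (7 / 100 * u ^ 2) + (7 / 100 * u ^ 2) ^ 2 / 2 +
      (7 / 100 * u ^ 2) ^ 3 / 6) *
      (1 + u + 9 / 25 * u ^ 2)) -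
      (1 * (1 + (u - 0) / 8) ^ 8) := by
    rw [hs]
    ring
  rw [e] at h
  linarith

/-- `K = 8`: `(c, μ, P, δ) = (9 / 25, 7 / 100, 0, 1 / 20)` -/
theorem expFd_eight_e04 : ExpFd 8 (9 / 25) (7 / 100) (0) (1 / 20) := by
  have hde : (1 + 1 / 20 + (1 / 20) ^ 2 / 2) ≤ Real.exp (1 / 20) :=
    Real.quadratic_le_exp_of_nonneg (by norm_num)
  have hq : ∀ u : ℝ, 0 ≤ 1 + u + 9 / 25 * u ^ 2 := fun u => by
    nlinarith [sq_nonneg (u + 2), sq_nonneg u]
  have hR : ∀ (u x y : ℝ), x ≤ y →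
      y ≤ (1 + 1 / 20 + (1 / 20) ^ 2 / 2) * (1 + u + 9 / 25 * u ^ 2) →
      x ≤ Real.exp (1 / 20) * (1 + u + 9 / 25 * u ^ 2) := fun u x y h1 h2 =>
    (h1.trans h2).trans (mul_le_mul_of_nonneg_right hde (hq u))
  refine ExpFd.of (by norm_num) (by norm_num) (by norm_num) (by norm_num) (by norm_num) ?_ ?_ ?_
  · intro u h1
    rcases le_total u (-3) with h3 | h3
    · exact hR u _ _ (ev_exp_n3 h3) (ev_eight_e04_d u h3)
    rcases le_total u (-2) with h4 | h4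
    · refine hR u _ _ (ev_exp_n2 h4) ?_
      exact ev_eight_e04_c0 u (by linarith) (by linarith)
    rcases le_total u (-1) with h5 | h5
    · refine hR u _ _ (ev_exp_n1 h5) ?_
      exact ev_eight_e04_b0 u (by linarith) (by linarith)
    refine hR u _ _ (ev_exp_n0 h1) ?_
    rcases le_total u (-7 / 8) with hh | hh
    · exact ev_eight_e04_a0 u (by linarith) (by linarith)
    rcases le_total u (-3 / 4) with hh | hh
    · exact ev_eight_e04_a1 u (by linarith) (by linarith)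
    rcases le_total u (-1 / 2) with hh | hh
    · exact ev_eight_e04_a2 u (by linarith) (by linarith)
    exact ev_eight_e04_a3 u (by linarith) (by linarith)
  · intro u h1 h2
    have h7 : u = 0 := le_antisymm h2 h1
    rw [h7, Real.exp_zero]
    have := Real.add_one_le_exp ((1 / 20 : ℝ) + 7 / 100 * 0 ^ 2)
    linarith
  · intro u h1
    have h4 : 0 ≤ (1 + (u - 0) / 8) ^ 8 := by
      have : 0 ≤ (u - 0) / 8 := div_nonneg (by linarith) (by norm_num)
      positivity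
    have hE : Real.exp (0) ≤ 1 := Real.exp_zero.le
    have hx : 0 ≤ 7 / 100 * u ^ 2 := by positivity
    have h5 := mul_le_mul_of_nonneg_right (taylor3_le_expE _ hx) (hq u)
    have h6 : 0 ≤ Real.exp (7 / 100 * u ^ 2) * (1 + u + 9 / 25 * u ^ 2) :=
      mul_nonneg (Real.exp_nonneg _) (hq u)
    rw [Real.exp_add, mul_assoc]
    push_cast
    refine ((mul_le_mul_of_nonneg_right hE h4).trans ?_).trans
      ((mul_le_mul_of_nonneg_left h5
        (by norm_num : (0 : ℝ) ≤ (1 + 1 / 20 + (1 / 20) ^ 2 / 2))).trans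
        (mul_le_mul_of_nonneg_right hde h6))
    rcases le_total u (2) with hh | hh
    · exact ev_eight_e04_g0 u (by linarith) (by linarith)
    exact ev_eight_e04_t u (by linarith)

theorem ev_eight_e05_a0 (u : ℝ) (h1 : -1 ≤ u) (h2 : u ≤ 0) :
    1 + u + u ^ 2 / 2 + u ^ 3 / 6 + u ^ 4 / 24 ≤
      (1 + 1 / 10 + (1 / 10) ^ 2 / 2) * (1 + u + 17 / 50 * u ^ 2) := by
  obtain ⟨s, hs⟩ : ∃ s, s = u - (-1) := ⟨_, rfl⟩
  obtain ⟨t, ht⟩ : ∃ t, t = 0 - u := ⟨_, rfl⟩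
  have hs0 : 0 ≤ s := by linarith
  have ht0 : 0 ≤ t := by linarith
  have h : 0 ≤
      7 / 10000 * t ^ 4 + 173 / 7500 * s * t ^ 3 + 1907 / 10000 * s ^ 2 * t ^ 2 +
      63 / 200 * s ^ 3 * t + 21 / 200 * s ^ 4 := by
    positivity
  have e :
      7 / 10000 * t ^ 4 + 173 / 7500 * s * t ^ 3 + 1907 / 10000 * s ^ 2 * t ^ 2 +
      63 / 200 * s ^ 3 * t + 21 / 200 * s ^ 4 =
      (1 + 1 / 10 + (1 / 10) ^ 2 / 2) * (1 + u + 17 / 50 * u ^ 2) -
      (1 + u + u ^ 2 / 2 + u ^ 3 / 6 + u ^ 4 / 24) := by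
    rw [hs, ht]
    ring
  rw [e] at h
  linarith

theorem ev_eight_e05_b0 (u : ℝ) (h1 : -2 ≤ u) (h2 : u ≤ -1) :
    36788 / 100000 *
      (1 + (u + 1) + (u + 1) ^ 2 / 2 + (u + 1) ^ 3 / 6 + (u + 1) ^ 4 / 24) ≤
      (1 + 1 / 10 + (1 / 10) ^ 2 / 2) * (1 + u + 17 / 50 * u ^ 2) := by
  obtain ⟨s, hs⟩ : ∃ s, s = u - (-2) := ⟨_, rfl⟩
  obtain ⟨t, ht⟩ : ∃ t, t = -1 - u := ⟨_, rfl⟩
  have hs0 : 0 ≤ s := by linarith
  have ht0 : 0 ≤ t := by linarith
  have h : 0 ≤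
      51969 / 200000 * t ^ 4 + 77843 / 150000 * s * t ^ 3 + 3519 / 12500 * s ^ 2 * t ^ 2 +
      1139 / 25000 * s ^ 3 * t + 391 / 50000 * s ^ 4 := by
    positivity
  have e :
      51969 / 200000 * t ^ 4 + 77843 / 150000 * s * t ^ 3 + 3519 / 12500 * s ^ 2 * t ^ 2 +
      1139 / 25000 * s ^ 3 * t + 391 / 50000 * s ^ 4 =
      (1 + 1 / 10 + (1 / 10) ^ 2 / 2) * (1 + u + 17 / 50 * u ^ 2) -
      (36788 / 100000 *
      (1 + (u + 1) + (u + 1) ^ 2 / 2 + (u + 1) ^ 3 / 6 + (u + 1) ^ 4 / 24)) := by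
    rw [hs, ht]
    ring
  rw [e] at h
  linarith

theorem ev_eight_e05_c0 (u : ℝ) (h1 : -3 ≤ u) (h2 : u ≤ -2) :
    13534 / 100000 *
      (1 + (u + 2) + (u + 2) ^ 2 / 2 + (u + 2) ^ 3 / 6 + (u + 2) ^ 4 / 24) ≤
      (1 + 1 / 10 + (1 / 10) ^ 2 / 2) * (1 + u + 17 / 50 * u ^ 2) := by
  obtain ⟨s, hs⟩ : ∃ s, s = u - (-3) := ⟨_, rfl⟩
  obtain ⟨t, ht⟩ : ∃ t, t = -2 - u := ⟨_, rfl⟩
  have hs0 : 0 ≤ s := by linarith
  have ht0 : 0 ≤ t := by linarith
  have h : 0 ≤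
      448219 / 400000 * t ^ 4 + 986363 / 300000 * s * t ^ 3 +
      348221 / 100000 * s ^ 2 * t ^ 2 + 79149 / 50000 * s ^ 3 * t + 13123 / 50000 * s ^ 4 := by
    positivity
  have e :
      448219 / 400000 * t ^ 4 + 986363 / 300000 * s * t ^ 3 +
      348221 / 100000 * s ^ 2 * t ^ 2 + 79149 / 50000 * s ^ 3 * t + 13123 / 50000 * s ^ 4 =
      (1 + 1 / 10 + (1 / 10) ^ 2 / 2) * (1 + u + 17 / 50 * u ^ 2) -
      (13534 / 100000 *
      (1 + (u + 2) + (u + 2) ^ 2 / 2 + (u + 2) ^ 3 / 6 + (u + 2) ^ 4 / 24)) := by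
    rw [hs, ht]
    ring
  rw [e] at h
  linarith

theorem ev_eight_e05_d (u : ℝ) (h2 : u ≤ -3) :
    4979 / 100000 ≤
      (1 + 1 / 10 + (1 / 10) ^ 2 / 2) * (1 + u + 17 / 50 * u ^ 2) := by
  obtain ⟨s, hs⟩ : ∃ s, s = -3 - u := ⟨_, rfl⟩
  have hs0 : 0 ≤ s := by linarith
  have h : 0 ≤
      112151 / 100000 + 2873 / 2500 * s + 3757 / 10000 * s ^ 2 := by
    positivity
  have e :
      112151 / 100000 + 2873 / 2500 * s + 3757 / 10000 * s ^ 2 =
      (1 + 1 / 10 + (1 / 10) ^ 2 / 2) * (1 + u + 17 / 50 * u ^ 2) -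
      (4979 / 100000) := by
    rw [hs]
    ring
  rw [e] at h
  linarith

theorem ev_eight_e05_g0 (u : ℝ) (h1 : 0 ≤ u) (h2 : u ≤ 2) :
    1 * (1 + (u - 0) / 8) ^ 8 ≤
      (1 + 1 / 10 + (1 / 10) ^ 2 / 2) * ((1 + (7 / 100 * u ^ 2) + (7 / 100 * u ^ 2) ^ 2 / 2 +
      (7 / 100 * u ^ 2) ^ 3 / 6) *
      (1 + u + 17 / 50 * u ^ 2)) := by
  obtain ⟨s, hs⟩ : ∃ s, s = u - (0) := ⟨_, rfl⟩
  obtain ⟨t, ht⟩ : ∃ t, t = 2 - u := ⟨_, rfl⟩
  have hs0 : 0 ≤ s := by linarith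
  have ht0 : 0 ≤ t := by linarith
  have h : 0 ≤
      21 / 51200 * t ^ 8 + 21 / 5120 * s * t ^ 7 + 22361 / 1280000 * s ^ 2 * t ^ 6 +
      10407 / 256000 * s ^ 3 * t ^ 5 + 1163413 / 20480000 * s ^ 4 * t ^ 4 +
      25413189 / 512000000 * s ^ 5 * t ^ 3 + 8420310179 / 307200000000 * s ^ 6 * t ^ 2 +
      5713234009 / 614400000000 * s ^ 7 * t + 792583692917 / 491520000000000 * s ^ 8 := by
    positivity
  have e :
      21 / 51200 * t ^ 8 + 21 / 5120 * s * t ^ 7 + 22361 / 1280000 * s ^ 2 * t ^ 6 +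
      10407 / 256000 * s ^ 3 * t ^ 5 + 1163413 / 20480000 * s ^ 4 * t ^ 4 +
      25413189 / 512000000 * s ^ 5 * t ^ 3 + 8420310179 / 307200000000 * s ^ 6 * t ^ 2 +
      5713234009 / 614400000000 * s ^ 7 * t + 792583692917 / 491520000000000 * s ^ 8 =
      (1 + 1 / 10 + (1 / 10) ^ 2 / 2) * ((1 + (7 / 100 * u ^ 2) + (7 / 100 * u ^ 2) ^ 2 / 2 +
      (7 / 100 * u ^ 2) ^ 3 / 6) *
      (1 + u + 17 / 50 * u ^ 2)) -
      (1 * (1 + (u - 0) / 8) ^ 8) := by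
    rw [hs, ht]
    ring
  rw [e] at h
  linarith

theorem ev_eight_e05_t (u : ℝ) (h1 : 2 ≤ u) :
    1 * (1 + (u - 0) / 8) ^ 8 ≤
      (1 + 1 / 10 + (1 / 10) ^ 2 / 2) * ((1 + (7 / 100 * u ^ 2) + (7 / 100 * u ^ 2) ^ 2 / 2 +
      (7 / 100 * u ^ 2) ^ 3 / 6) *
      (1 + u + 17 / 50 * u ^ 2)) := by
  obtain ⟨s, hs⟩ : ∃ s, s = u - (2) := ⟨_, rfl⟩
  have hs0 : 0 ≤ s := by linarith
  have h : 0 ≤
      792583692917 / 1920000000000 + 221260292017 / 480000000000 * s +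
      917682309419 / 1920000000000 * s ^ 2 + 605083966319 / 1920000000000 * s ^ 3 +
      353635534819 / 3072000000000 * s ^ 4 + 200456734919 / 7680000000000 * s ^ 5 +
      126154486619 / 30720000000000 * s ^ 6 + 12350701417 / 30720000000000 * s ^ 7 +
      10527332117 / 491520000000000 * s ^ 8 := by
    positivity
  have e :
      792583692917 / 1920000000000 + 221260292017 / 480000000000 * s +
      917682309419 / 1920000000000 * s ^ 2 + 605083966319 / 1920000000000 * s ^ 3 +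
      353635534819 / 3072000000000 * s ^ 4 + 200456734919 / 7680000000000 * s ^ 5 +
      126154486619 / 30720000000000 * s ^ 6 + 12350701417 / 30720000000000 * s ^ 7 +
      10527332117 / 491520000000000 * s ^ 8 =
      (1 + 1 / 10 + (1 / 10) ^ 2 / 2) * ((1 + (7 / 100 * u ^ 2) + (7 / 100 * u ^ 2) ^ 2 / 2 +
      (7 / 100 * u ^ 2) ^ 3 / 6) *
      (1 + u + 17 / 50 * u ^ 2)) -
      (1 * (1 + (u - 0) / 8) ^ 8) := by
    rw [hs]
    ring
  rw [e] at h
  linarith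

/-- `K = 8`: `(c, μ, P, δ) = (17 / 50, 7 / 100, 0, 1 / 10)` -/
theorem expFd_eight_e05 : ExpFd 8 (17 / 50) (7 / 100) (0) (1 / 10) := by
  have hde : (1 + 1 / 10 + (1 / 10) ^ 2 / 2) ≤ Real.exp (1 / 10) :=
    Real.quadratic_le_exp_of_nonneg (by norm_num)
  have hq : ∀ u : ℝ, 0 ≤ 1 + u + 17 / 50 * u ^ 2 := fun u => by
    nlinarith [sq_nonneg (u + 2), sq_nonneg u]
  have hR : ∀ (u x y : ℝ), x ≤ y →
      y ≤ (1 + 1 / 10 + (1 / 10) ^ 2 / 2) * (1 + u + 17 / 50 * u ^ 2) →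
      x ≤ Real.exp (1 / 10) * (1 + u + 17 / 50 * u ^ 2) := fun u x y h1 h2 =>
    (h1.trans h2).trans (mul_le_mul_of_nonneg_right hde (hq u))
  refine ExpFd.of (by norm_num) (by norm_num) (by norm_num) (by norm_num) (by norm_num) ?_ ?_ ?_
  · intro u h1
    rcases le_total u (-3) with h3 | h3
    · exact hR u _ _ (ev_exp_n3 h3) (ev_eight_e05_d u h3)
    rcases le_total u (-2) with h4 | h4
    · refine hR u _ _ (ev_exp_n2 h4) ?_
      exact ev_eight_e05_c0 u (by linarith) (by linarith)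
    rcases le_total u (-1) with h5 | h5
    · refine hR u _ _ (ev_exp_n1 h5) ?_
      exact ev_eight_e05_b0 u (by linarith) (by linarith)
    refine hR u _ _ (ev_exp_n0 h1) ?_
    exact ev_eight_e05_a0 u (by linarith) (by linarith)
  · intro u h1 h2
    have h7 : u = 0 := le_antisymm h2 h1
    rw [h7, Real.exp_zero]
    have := Real.add_one_le_exp ((1 / 10 : ℝ) + 7 / 100 * 0 ^ 2)
    linarith
  · intro u h1
    have h4 : 0 ≤ (1 + (u - 0) / 8) ^ 8 := by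
      have : 0 ≤ (u - 0) / 8 := div_nonneg (by linarith) (by norm_num)
      positivity
    have hE : Real.exp (0) ≤ 1 := Real.exp_zero.le
    have hx : 0 ≤ 7 / 100 * u ^ 2 := by positivity
    have h5 := mul_le_mul_of_nonneg_right (taylor3_le_expE _ hx) (hq u)
    have h6 : 0 ≤ Real.exp (7 / 100 * u ^ 2) * (1 + u + 17 / 50 * u ^ 2) :=
      mul_nonneg (Real.exp_nonneg _) (hq u)
    rw [Real.exp_add, mul_assoc]
    push_cast
    refine ((mul_le_mul_of_nonneg_right hE h4).trans ?_).trans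
      ((mul_le_mul_of_nonneg_left h5
        (by norm_num : (0 : ℝ) ≤ (1 + 1 / 10 + (1 / 10) ^ 2 / 2))).trans
        (mul_le_mul_of_nonneg_right hde h6))
    rcases le_total u (2) with hh | hh
    · exact ev_eight_e05_g0 u (by linarith) (by linarith)
    exact ev_eight_e05_t u (by linarith)

theorem ev_eight_e10_a0 (u : ℝ) (h1 : -1 ≤ u) (h2 : u ≤ 0) :
    1 + u + u ^ 2 / 2 + u ^ 3 / 6 + u ^ 4 / 24 ≤
      (1 + 1 / 500 + (1 / 500) ^ 2 / 2) * (1 + u + 99 / 200 * u ^ 2) := by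
  obtain ⟨s, hs⟩ : ∃ s, s = u - (-1) := ⟨_, rfl⟩
  obtain ⟨t, ht⟩ : ∃ t, t = 0 - u := ⟨_, rfl⟩
  have hs0 : 0 ≤ s := by linarith
  have ht0 : 0 ≤ t := by linarith
  have h : 0 ≤
      12099099 / 100000000 * t ^ 4 + 24097597 / 150000000 * s * t ^ 3 +
      199699 / 100000000 * s ^ 2 * t ^ 2 + 3003 / 500000 * s ^ 3 * t + 1001 / 500000 * s ^ 4 := by
    positivity
  have e :
      12099099 / 100000000 * t ^ 4 + 24097597 / 150000000 * s * t ^ 3 +
      199699 / 100000000 * s ^ 2 * t ^ 2 + 3003 / 500000 * s ^ 3 * t + 1001 / 500000 * s ^ 4 =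
      (1 + 1 / 500 + (1 / 500) ^ 2 / 2) * (1 + u + 99 / 200 * u ^ 2) -
      (1 + u + u ^ 2 / 2 + u ^ 3 / 6 + u ^ 4 / 24) := by
    rw [hs, ht]
    ring
  rw [e] at h
  linarith

theorem ev_eight_e10_b0 (u : ℝ) (h1 : -2 ≤ u) (h2 : u ≤ -1) :
    36788 / 100000 *
      (1 + (u + 1) + (u + 1) ^ 2 / 2 + (u + 1) ^ 3 / 6 + (u + 1) ^ 4 / 24) ≤
      (1 + 1 / 500 + (1 / 500) ^ 2 / 2) * (1 + u + 99 / 200 * u ^ 2) := by
  obtain ⟨s, hs⟩ : ∃ s, s = u - (-2) := ⟨_, rfl⟩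
  obtain ⟨t, ht⟩ : ∃ t, t = -1 - u := ⟨_, rfl⟩
  have hs0 : 0 ≤ s := by linarith
  have ht0 : 0 ≤ t := by linarith
  have h : 0 ≤
      10550087 / 12500000 * t ^ 4 + 170357941 / 75000000 * s * t ^ 3 +
      215429687 / 100000000 * s ^ 2 * t ^ 2 + 43515197 / 50000000 * s ^ 3 * t +
      12811099 / 100000000 * s ^ 4 := by
    positivity
  have e :
      10550087 / 12500000 * t ^ 4 + 170357941 / 75000000 * s * t ^ 3 +
      215429687 / 100000000 * s ^ 2 * t ^ 2 + 43515197 / 50000000 * s ^ 3 * t +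
      12811099 / 100000000 * s ^ 4 =
      (1 + 1 / 500 + (1 / 500) ^ 2 / 2) * (1 + u + 99 / 200 * u ^ 2) -
      (36788 / 100000 *
      (1 + (u + 1) + (u + 1) ^ 2 / 2 + (u + 1) ^ 3 / 6 + (u + 1) ^ 4 / 24)) := by
    rw [hs, ht]
    ring
  rw [e] at h
  linarith

theorem ev_eight_e10_c0 (u : ℝ) (h1 : -3 ≤ u) (h2 : u ≤ -2) :
    13534 / 100000 *
      (1 + (u + 2) + (u + 2) ^ 2 / 2 + (u + 2) ^ 3 / 6 + (u + 2) ^ 4 / 24) ≤
      (1 + 1 / 500 + (1 / 500) ^ 2 / 2) * (1 + u + 99 / 200 * u ^ 2) := by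
  obtain ⟨s, hs⟩ : ∃ s, s = u - (-3) := ⟨_, rfl⟩
  obtain ⟨t, ht⟩ : ∃ t, t = -2 - u := ⟨_, rfl⟩
  have hs0 : 0 ≤ s := by linarith
  have ht0 : 0 ≤ t := by linarith
  have h : 0 ≤
      240916241 / 100000000 * t ^ 4 + 228527771 / 30000000 * s * t ^ 3 +
      885995863 / 100000000 * s ^ 2 * t ^ 2 + 22518949 / 5000000 * s ^ 3 * t +
      21165549 / 25000000 * s ^ 4 := by
    positivity
  have e :
      240916241 / 100000000 * t ^ 4 + 228527771 / 30000000 * s * t ^ 3 +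
      885995863 / 100000000 * s ^ 2 * t ^ 2 + 22518949 / 5000000 * s ^ 3 * t +
      21165549 / 25000000 * s ^ 4 =
      (1 + 1 / 500 + (1 / 500) ^ 2 / 2) * (1 + u + 99 / 200 * u ^ 2) -
      (13534 / 100000 *
      (1 + (u + 2) + (u + 2) ^ 2 / 2 + (u + 2) ^ 3 / 6 + (u + 2) ^ 4 / 24)) := by
    rw [hs, ht]
    ring
  rw [e] at h
  linarith

theorem ev_eight_e10_d (u : ℝ) (h2 : u ≤ -3) :
    4979 / 100000 ≤
      (1 + 1 / 500 + (1 / 500) ^ 2 / 2) * (1 + u + 99 / 200 * u ^ 2) := by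
  obtain ⟨s, hs⟩ : ∃ s, s = -3 - u := ⟨_, rfl⟩
  have hs0 : 0 ≤ s := by linarith
  have h : 0 ≤
      241012491 / 100000000 + 98697197 / 50000000 * s + 49599099 / 100000000 * s ^ 2 := by
    positivity
  have e :
      241012491 / 100000000 + 98697197 / 50000000 * s + 49599099 / 100000000 * s ^ 2 =
      (1 + 1 / 500 + (1 / 500) ^ 2 / 2) * (1 + u + 99 / 200 * u ^ 2) -
      (4979 / 100000) := by
    rw [hs]
    ring
  rw [e] at h
  linarith

theorem ev_eight_e10_e0 (u : ℝ) (h1 : 0 ≤ u) (h2 : u ≤ 1 / 10) :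
    1 + u + u ^ 2 / 2 + u ^ 3 / 6 + u ^ 4 / 24 + u ^ 5 / 100 ≤
      (1 + 1 / 500 + (1 / 500) ^ 2 / 2) * ((1 + 1 / 20 * u ^ 2) *
      (1 + u + 99 / 200 * u ^ 2)) := by
  obtain ⟨s, hs⟩ : ∃ s, s = u - (0) := ⟨_, rfl⟩
  obtain ⟨t, ht⟩ : ∃ t, t = 1 / 10 - u := ⟨_, rfl⟩
  have hs0 : 0 ≤ s := by linarith
  have ht0 : 0 ≤ t := by linarith
  have h : 0 ≤
      1001 / 5 * t ^ 5 + 51051 / 50 * s * t ^ 4 + 212817109 / 100000 * s ^ 2 * t ^ 3 +
      84327623 / 37500 * s ^ 3 * t ^ 2 + 239174257099 / 200000000 * s ^ 4 * t +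
      152685457297 / 600000000 * s ^ 5 := by
    positivity
  have e :
      1001 / 5 * t ^ 5 + 51051 / 50 * s * t ^ 4 + 212817109 / 100000 * s ^ 2 * t ^ 3 +
      84327623 / 37500 * s ^ 3 * t ^ 2 + 239174257099 / 200000000 * s ^ 4 * t +
      152685457297 / 600000000 * s ^ 5 =
      (1 + 1 / 500 + (1 / 500) ^ 2 / 2) * ((1 + 1 / 20 * u ^ 2) *
      (1 + u + 99 / 200 * u ^ 2)) -
      (1 + u + u ^ 2 / 2 + u ^ 3 / 6 + u ^ 4 / 24 + u ^ 5 / 100) := by
    rw [hs, ht]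
    ring
  rw [e] at h
  linarith

theorem ev_eight_e10_g0 (u : ℝ) (h1 : 1 / 10 ≤ u) (h2 : u ≤ 31 / 20) :
    55259 / 50000 * (1 + (u - 1 / 10) / 8) ^ 8 ≤
      (1 + 1 / 500 + (1 / 500) ^ 2 / 2) * ((1 + (1 / 20 * u ^ 2) + (1 / 20 * u ^ 2) ^ 2 / 2 +
      (1 / 20 * u ^ 2) ^ 3 / 6) *
      (1 + u + 99 / 200 * u ^ 2)) := by
  obtain ⟨s, hs⟩ : ∃ s, s = u - (1 / 10) := ⟨_, rfl⟩
  obtain ⟨t, ht⟩ : ∃ t, t = 31 / 20 - u := ⟨_, rfl⟩
  have hs0 : 0 ≤ s := by linarith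
  have ht0 : 0 ≤ t := by linarith
  have h : 0 ≤
      1217198099174215099 / 9379620243018750000000 * t ^ 8 +
      3765164565739959319 / 2344905060754687500000 * s * t ^ 7 +
      50417671610480988991 / 3126540081006250000000 * s ^ 2 * t ^ 6 +
      571285031061065511913 / 9379620243018750000000 * s ^ 3 * t ^ 5 +
      1674057524564335556053 / 15007392388830000000000 * s ^ 4 * t ^ 4 +
      2767025803208147862137 / 25012320648050000000000 * s ^ 5 * t ^ 3 +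
      288689231152976481400481 / 4802365564425600000000000 * s ^ 6 * t ^ 2 +
      1273849767105704265603743 / 76837849030809600000000000 * s ^ 7 * t +
      11865397592460709539624301 / 6556829783962419200000000000 * s ^ 8 := by
    positivity
  have e :
      1217198099174215099 / 9379620243018750000000 * t ^ 8 +
      3765164565739959319 / 2344905060754687500000 * s * t ^ 7 +
      50417671610480988991 / 3126540081006250000000 * s ^ 2 * t ^ 6 +
      571285031061065511913 / 9379620243018750000000 * s ^ 3 * t ^ 5 +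
      1674057524564335556053 / 15007392388830000000000 * s ^ 4 * t ^ 4 +
      2767025803208147862137 / 25012320648050000000000 * s ^ 5 * t ^ 3 +
      288689231152976481400481 / 4802365564425600000000000 * s ^ 6 * t ^ 2 +
      1273849767105704265603743 / 76837849030809600000000000 * s ^ 7 * t +
      11865397592460709539624301 / 6556829783962419200000000000 * s ^ 8 =
      (1 + 1 / 500 + (1 / 500) ^ 2 / 2) * ((1 + (1 / 20 * u ^ 2) + (1 / 20 * u ^ 2) ^ 2 / 2 +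
      (1 / 20 * u ^ 2) ^ 3 / 6) *
      (1 + u + 99 / 200 * u ^ 2)) -
      (55259 / 50000 * (1 + (u - 1 / 10) / 8) ^ 8) := by
    rw [hs, ht]
    ring
  rw [e] at h
  linarith

theorem ev_eight_e10_g1 (u : ℝ) (h1 : 31 / 20 ≤ u) (h2 : u ≤ 91 / 40) :
    55259 / 50000 * (1 + (u - 1 / 10) / 8) ^ 8 ≤
      (1 + 1 / 500 + (1 / 500) ^ 2 / 2) * ((1 + (1 / 20 * u ^ 2) + (1 / 20 * u ^ 2) ^ 2 / 2 +
      (1 / 20 * u ^ 2) ^ 3 / 6) *
      (1 + u + 99 / 200 * u ^ 2)) := by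
  obtain ⟨s, hs⟩ : ∃ s, s = u - (31 / 20) := ⟨_, rfl⟩
  obtain ⟨t, ht⟩ : ∃ t, t = 91 / 40 - u := ⟨_, rfl⟩
  have hs0 : 0 ≤ s := by linarith
  have ht0 : 0 ≤ t := by linarith
  have h : 0 ≤
      11865397592460709539624301 / 25612616343603200000000000 * t ^ 8 +
      66025385784763849357298933 / 19209462257702400000000000 * s * t ^ 7 +
      826123830685655486971654841 / 76837849030809600000000000 * s ^ 2 * t ^ 6 +
      470662431072393465247619417 / 25612616343603200000000000 * s ^ 3 * t ^ 5 +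
      2284733077946268229664973761 / 122940558449295360000000000 * s ^ 4 * t ^ 4 +
      3462970336113785205669582371 / 307351396123238400000000000 * s ^ 5 * t ^ 3 +
      1638066766155570498872225027 / 409801861497651200000000000 * s ^ 6 * t ^ 2 +
      988168043244041343617250413 / 1229405584492953600000000000 * s ^ 7 * t +
      1734911019235247969805989543 / 19670489351887257600000000000 * s ^ 8 := by
    positivity
  have e :
      11865397592460709539624301 / 25612616343603200000000000 * t ^ 8 +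
      66025385784763849357298933 / 19209462257702400000000000 * s * t ^ 7 +
      826123830685655486971654841 / 76837849030809600000000000 * s ^ 2 * t ^ 6 +
      470662431072393465247619417 / 25612616343603200000000000 * s ^ 3 * t ^ 5 +
      2284733077946268229664973761 / 122940558449295360000000000 * s ^ 4 * t ^ 4 +
      3462970336113785205669582371 / 307351396123238400000000000 * s ^ 5 * t ^ 3 +
      1638066766155570498872225027 / 409801861497651200000000000 * s ^ 6 * t ^ 2 +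
      988168043244041343617250413 / 1229405584492953600000000000 * s ^ 7 * t +
      1734911019235247969805989543 / 19670489351887257600000000000 * s ^ 8 =
      (1 + 1 / 500 + (1 / 500) ^ 2 / 2) * ((1 + (1 / 20 * u ^ 2) + (1 / 20 * u ^ 2) ^ 2 / 2 +
      (1 / 20 * u ^ 2) ^ 3 / 6) *
      (1 + u + 99 / 200 * u ^ 2)) -
      (55259 / 50000 * (1 + (u - 1 / 10) / 8) ^ 8) := by
    rw [hs, ht]
    ring
  rw [e] at h
  linarith

theorem ev_eight_e10_g2 (u : ℝ) (h1 : 91 / 40 ≤ u) (h2 : u ≤ 3) :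
    55259 / 50000 * (1 + (u - 1 / 10) / 8) ^ 8 ≤
      (1 + 1 / 500 + (1 / 500) ^ 2 / 2) * ((1 + (1 / 20 * u ^ 2) + (1 / 20 * u ^ 2) ^ 2 / 2 +
      (1 / 20 * u ^ 2) ^ 3 / 6) *
      (1 + u + 99 / 200 * u ^ 2)) := by
  obtain ⟨s, hs⟩ : ∃ s, s = u - (91 / 40) := ⟨_, rfl⟩
  obtain ⟨t, ht⟩ : ∃ t, t = 3 - u := ⟨_, rfl⟩
  have hs0 : 0 ≤ s := by linarith
  have ht0 : 0 ≤ t := by linarith
  have h : 0 ≤
      1734911019235247969805989543 / 19670489351887257600000000000 * t ^ 8 +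
      24891432533040220872957971 / 40980186149765120000000000 * s * t ^ 7 +
      32242248276968684746170961 / 12294055844929536000000000 * s ^ 2 * t ^ 6 +
      890826261936072285620037 / 102450465374412800000000 * s ^ 3 * t ^ 5 +
      79790848270165818468187 / 4098018614976512000000 * s ^ 4 * t ^ 4 +
      6941577803829041413637 / 256126163436032000000 * s ^ 5 * t ^ 3 +
      114674220913237616671 / 5122523268720640000 * s ^ 6 * t ^ 2 +
      32214314389809770783 / 3201577042950400000 * s ^ 7 * t +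
      12160503433884497861 / 6403154085900800000 * s ^ 8 := by
    positivity
  have e :
      1734911019235247969805989543 / 19670489351887257600000000000 * t ^ 8 +
      24891432533040220872957971 / 40980186149765120000000000 * s * t ^ 7 +
      32242248276968684746170961 / 12294055844929536000000000 * s ^ 2 * t ^ 6 +
      890826261936072285620037 / 102450465374412800000000 * s ^ 3 * t ^ 5 +
      79790848270165818468187 / 4098018614976512000000 * s ^ 4 * t ^ 4 +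
      6941577803829041413637 / 256126163436032000000 * s ^ 5 * t ^ 3 +
      114674220913237616671 / 5122523268720640000 * s ^ 6 * t ^ 2 +
      32214314389809770783 / 3201577042950400000 * s ^ 7 * t +
      12160503433884497861 / 6403154085900800000 * s ^ 8 =
      (1 + 1 / 500 + (1 / 500) ^ 2 / 2) * ((1 + (1 / 20 * u ^ 2) + (1 / 20 * u ^ 2) ^ 2 / 2 +
      (1 / 20 * u ^ 2) ^ 3 / 6) *
      (1 + u + 99 / 200 * u ^ 2)) -
      (55259 / 50000 * (1 + (u - 1 / 10) / 8) ^ 8) := by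
    rw [hs, ht]
    ring
  rw [e] at h
  linarith

theorem ev_eight_e10_t (u : ℝ) (h1 : 3 ≤ u) :
    55259 / 50000 * (1 + (u - 1 / 10) / 8) ^ 8 ≤
      (1 + 1 / 500 + (1 / 500) ^ 2 / 2) * ((1 + (1 / 20 * u ^ 2) + (1 / 20 * u ^ 2) ^ 2 / 2 +
      (1 / 20 * u ^ 2) ^ 3 / 6) *
      (1 + u + 99 / 200 * u ^ 2)) := by
  obtain ⟨s, hs⟩ : ∃ s, s = u - (3) := ⟨_, rfl⟩
  have hs0 : 0 ≤ s := by linarith
  have h : 0 ≤
      12160503433884497861 / 83886080000000000000 +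
      566472391232007609 / 1048576000000000000 * s +
      156178220370873579 / 209715200000000000 * s ^ 2 +
      23788100666821267 / 52428800000000000 * s ^ 3 +
      3032096291631867 / 20971520000000000 * s ^ 4 +
      361494874468387 / 13107200000000000 * s ^ 5 +
      136212031525921 / 39321600000000000 * s ^ 6 +
      2586637133023 / 9830400000000000 * s ^ 7 + 134575184461 / 13107200000000000 * s ^ 8 := by
    positivity
  have e :
      12160503433884497861 / 83886080000000000000 +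
      566472391232007609 / 1048576000000000000 * s +
      156178220370873579 / 209715200000000000 * s ^ 2 +
      23788100666821267 / 52428800000000000 * s ^ 3 +
      3032096291631867 / 20971520000000000 * s ^ 4 +
      361494874468387 / 13107200000000000 * s ^ 5 +
      136212031525921 / 39321600000000000 * s ^ 6 +
      2586637133023 / 9830400000000000 * s ^ 7 + 134575184461 / 13107200000000000 * s ^ 8 =
      (1 + 1 / 500 + (1 / 500) ^ 2 / 2) * ((1 + (1 / 20 * u ^ 2) + (1 / 20 * u ^ 2) ^ 2 / 2 +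
      (1 / 20 * u ^ 2) ^ 3 / 6) *
      (1 + u + 99 / 200 * u ^ 2)) -
      (55259 / 50000 * (1 + (u - 1 / 10) / 8) ^ 8) := by
    rw [hs]
    ring
  rw [e] at h
  linarith

/-- `K = 8`: `(c, μ, P, δ) = (99 / 200, 1 / 20, 1 / 10, 1 / 500)` -/
theorem expFd_eight_e10 : ExpFd 8 (99 / 200) (1 / 20) (1 / 10) (1 / 500) := by
  have hde : (1 + 1 / 500 + (1 / 500) ^ 2 / 2) ≤ Real.exp (1 / 500) :=
    Real.quadratic_le_exp_of_nonneg (by norm_num)
  have hq : ∀ u : ℝ, 0 ≤ 1 + u + 99 / 200 * u ^ 2 := fun u => by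
    nlinarith [sq_nonneg (u + 2), sq_nonneg u]
  have hR : ∀ (u x y : ℝ), x ≤ y →
      y ≤ (1 + 1 / 500 + (1 / 500) ^ 2 / 2) * (1 + u + 99 / 200 * u ^ 2) →
      x ≤ Real.exp (1 / 500) * (1 + u + 99 / 200 * u ^ 2) := fun u x y h1 h2 =>
    (h1.trans h2).trans (mul_le_mul_of_nonneg_right hde (hq u))
  refine ExpFd.of (by norm_num) (by norm_num) (by norm_num) (by norm_num) (by norm_num) ?_ ?_ ?_
  · intro u h1
    rcases le_total u (-3) with h3 | h3
    · exact hR u _ _ (ev_exp_n3 h3) (ev_eight_e10_d u h3)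
    rcases le_total u (-2) with h4 | h4
    · refine hR u _ _ (ev_exp_n2 h4) ?_
      exact ev_eight_e10_c0 u (by linarith) (by linarith)
    rcases le_total u (-1) with h5 | h5
    · refine hR u _ _ (ev_exp_n1 h5) ?_
      exact ev_eight_e10_b0 u (by linarith) (by linarith)
    refine hR u _ _ (ev_exp_n0 h1) ?_
    exact ev_eight_e10_a0 u (by linarith) (by linarith)
  · intro u h1 h2
    have h5 := mul_le_mul_of_nonneg_right (Real.add_one_le_exp (1 / 20 * u ^ 2)) (hq u)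
    rw [add_comm (1 / 20 * u ^ 2) 1] at h5
    have h6 : 0 ≤ Real.exp (1 / 20 * u ^ 2) * (1 + u + 99 / 200 * u ^ 2) :=
      mul_nonneg (Real.exp_nonneg _) (hq u)
    rw [Real.exp_add, mul_assoc]
    refine ((ev_exp_p h1 (by linarith)).trans ?_).trans
      ((mul_le_mul_of_nonneg_left h5
        (by norm_num : (0 : ℝ) ≤ (1 + 1 / 500 + (1 / 500) ^ 2 / 2))).trans
        (mul_le_mul_of_nonneg_right hde h6))
    exact ev_eight_e10_e0 u (by linarith) (by linarith)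
  · intro u h1
    have h4 : 0 ≤ (1 + (u - 1 / 10) / 8) ^ 8 := by
      have : 0 ≤ (u - 1 / 10) / 8 := div_nonneg (by linarith) (by norm_num)
      positivity
    have hE : Real.exp (1 / 10) ≤ 55259 / 50000 := ev_up_1_10
    have hx : 0 ≤ 1 / 20 * u ^ 2 := by positivity
    have h5 := mul_le_mul_of_nonneg_right (taylor3_le_expE _ hx) (hq u)
    have h6 : 0 ≤ Real.exp (1 / 20 * u ^ 2) * (1 + u + 99 / 200 * u ^ 2) :=
      mul_nonneg (Real.exp_nonneg _) (hq u)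
    rw [Real.exp_add, mul_assoc]
    push_cast
    refine ((mul_le_mul_of_nonneg_right hE h4).trans ?_).trans
      ((mul_le_mul_of_nonneg_left h5
        (by norm_num : (0 : ℝ) ≤ (1 + 1 / 500 + (1 / 500) ^ 2 / 2))).trans
        (mul_le_mul_of_nonneg_right hde h6))
    rcases le_total u (31 / 20) with hh | hh
    · exact ev_eight_e10_g0 u (by linarith) (by linarith)
    rcases le_total u (91 / 40) with hh | hh
    · exact ev_eight_e10_g1 u (by linarith) (by linarith)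
    rcases le_total u (3) with hh | hh
    · exact ev_eight_e10_g2 u (by linarith) (by linarith)
    exact ev_eight_e10_t u (by linarith)

theorem ev_eight_e11_a0 (u : ℝ) (h1 : -1 ≤ u) (h2 : u ≤ -1 / 2) :
    1 + u + u ^ 2 / 2 + u ^ 3 / 6 + u ^ 4 / 24 ≤
      (1 + 1 / 200 + (1 / 200) ^ 2 / 2) * (1 + u + 58 / 125 * u ^ 2) := by
  obtain ⟨s, hs⟩ : ∃ s, s = u - (-1) := ⟨_, rfl⟩
  obtain ⟨t, ht⟩ : ∃ t, t = -1 / 2 - u := ⟨_, rfl⟩
  have hs0 : 0 ≤ s := by linarith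
  have ht0 : 0 ≤ t := by linarith
  have h : 0 ≤
      456629 / 312500 * t ^ 4 + 14089019 / 3750000 * s * t ^ 3 +
      263222 / 78125 * s ^ 2 * t ^ 2 + 1640149 / 1250000 * s ^ 3 * t + 184753 / 937500 * s ^ 4 := by
    positivity
  have e :
      456629 / 312500 * t ^ 4 + 14089019 / 3750000 * s * t ^ 3 +
      263222 / 78125 * s ^ 2 * t ^ 2 + 1640149 / 1250000 * s ^ 3 * t + 184753 / 937500 * s ^ 4 =
      (1 + 1 / 200 + (1 / 200) ^ 2 / 2) * (1 + u + 58 / 125 * u ^ 2) -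
      (1 + u + u ^ 2 / 2 + u ^ 3 / 6 + u ^ 4 / 24) := by
    rw [hs, ht]
    ring
  rw [e] at h
  linarith

theorem ev_eight_e11_a1 (u : ℝ) (h1 : -1 / 2 ≤ u) (h2 : u ≤ 0) :
    1 + u + u ^ 2 / 2 + u ^ 3 / 6 + u ^ 4 / 24 ≤
      (1 + 1 / 200 + (1 / 200) ^ 2 / 2) * (1 + u + 58 / 125 * u ^ 2) := by
  obtain ⟨s, hs⟩ : ∃ s, s = u - (-1 / 2) := ⟨_, rfl⟩
  obtain ⟨t, ht⟩ : ∃ t, t = 0 - u := ⟨_, rfl⟩
  have hs0 : 0 ≤ s := by linarith
  have ht0 : 0 ≤ t := by linarith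
  have h : 0 ≤
      184753 / 937500 * t ^ 4 + 991649 / 3750000 * s * t ^ 3 +
      141377 / 625000 * s ^ 2 * t ^ 2 + 2807 / 10000 * s ^ 3 * t + 401 / 5000 * s ^ 4 := by
    positivity
  have e :
      184753 / 937500 * t ^ 4 + 991649 / 3750000 * s * t ^ 3 +
      141377 / 625000 * s ^ 2 * t ^ 2 + 2807 / 10000 * s ^ 3 * t + 401 / 5000 * s ^ 4 =
      (1 + 1 / 200 + (1 / 200) ^ 2 / 2) * (1 + u + 58 / 125 * u ^ 2) -
      (1 + u + u ^ 2 / 2 + u ^ 3 / 6 + u ^ 4 / 24) := by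
    rw [hs, ht]
    ring
  rw [e] at h
  linarith

theorem ev_eight_e11_b0 (u : ℝ) (h1 : -2 ≤ u) (h2 : u ≤ -1) :
    36788 / 100000 *
      (1 + (u + 1) + (u + 1) ^ 2 / 2 + (u + 1) ^ 3 / 6 + (u + 1) ^ 4 / 24) ≤
      (1 + 1 / 200 + (1 / 200) ^ 2 / 2) * (1 + u + 58 / 125 * u ^ 2) := by
  obtain ⟨s, hs⟩ : ∃ s, s = u - (-2) := ⟨_, rfl⟩
  obtain ⟨t, ht⟩ : ∃ t, t = -1 - u := ⟨_, rfl⟩
  have hs0 : 0 ≤ s := by linarith
  have ht0 : 0 ≤ t := by linarith
  have h : 0 ≤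
      7223357 / 10000000 * t ^ 4 + 57192763 / 30000000 * s * t ^ 3 +
      17596179 / 10000000 * s ^ 2 * t ^ 2 + 6893023 / 10000000 * s ^ 3 * t +
      492229 / 5000000 * s ^ 4 := by
    positivity
  have e :
      7223357 / 10000000 * t ^ 4 + 57192763 / 30000000 * s * t ^ 3 +
      17596179 / 10000000 * s ^ 2 * t ^ 2 + 6893023 / 10000000 * s ^ 3 * t +
      492229 / 5000000 * s ^ 4 =
      (1 + 1 / 200 + (1 / 200) ^ 2 / 2) * (1 + u + 58 / 125 * u ^ 2) -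
      (36788 / 100000 *
      (1 + (u + 1) + (u + 1) ^ 2 / 2 + (u + 1) ^ 3 / 6 + (u + 1) ^ 4 / 24)) := by
    rw [hs, ht]
    ring
  rw [e] at h
  linarith

theorem ev_eight_e11_c0 (u : ℝ) (h1 : -3 ≤ u) (h2 : u ≤ -2) :
    13534 / 100000 *
      (1 + (u + 2) + (u + 2) ^ 2 / 2 + (u + 2) ^ 3 / 6 + (u + 2) ^ 4 / 24) ≤
      (1 + 1 / 200 + (1 / 200) ^ 2 / 2) * (1 + u + 58 / 125 * u ^ 2) := by
  obtain ⟨s, hs⟩ : ∃ s, s = u - (-3) := ⟨_, rfl⟩
  obtain ⟨t, ht⟩ : ∃ t, t = -2 - u := ⟨_, rfl⟩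
  have hs0 : 0 ≤ s := by linarith
  have ht0 : 0 ≤ t := by linarith
  have h : 0 ≤
      21361547 / 10000000 * t ^ 4 + 40239379 / 6000000 * s * t ^ 3 +
      77352521 / 10000000 * s ^ 2 * t ^ 2 + 7790867 / 2000000 * s ^ 3 * t +
      7249507 / 10000000 * s ^ 4 := by
    positivity
  have e :
      21361547 / 10000000 * t ^ 4 + 40239379 / 6000000 * s * t ^ 3 +
      77352521 / 10000000 * s ^ 2 * t ^ 2 + 7790867 / 2000000 * s ^ 3 * t +
      7249507 / 10000000 * s ^ 4 =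
      (1 + 1 / 200 + (1 / 200) ^ 2 / 2) * (1 + u + 58 / 125 * u ^ 2) -
      (13534 / 100000 *
      (1 + (u + 2) + (u + 2) ^ 2 / 2 + (u + 2) ^ 3 / 6 + (u + 2) ^ 4 / 24)) := by
    rw [hs, ht]
    ring
  rw [e] at h
  linarith

theorem ev_eight_e11_d (u : ℝ) (h2 : u ≤ -3) :
    4979 / 100000 ≤
      (1 + 1 / 200 + (1 / 200) ^ 2 / 2) * (1 + u + 58 / 125 * u ^ 2) := by
  obtain ⟨s, hs⟩ : ∃ s, s = -3 - u := ⟨_, rfl⟩
  have hs0 : 0 ≤ s := by linarith
  have h : 0 ≤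
      5342793 / 2500000 + 17929423 / 10000000 * s + 2331629 / 5000000 * s ^ 2 := by
    positivity
  have e :
      5342793 / 2500000 + 17929423 / 10000000 * s + 2331629 / 5000000 * s ^ 2 =
      (1 + 1 / 200 + (1 / 200) ^ 2 / 2) * (1 + u + 58 / 125 * u ^ 2) -
      (4979 / 100000) := by
    rw [hs]
    ring
  rw [e] at h
  linarith

theorem ev_eight_e11_e0 (u : ℝ) (h1 : 0 ≤ u) (h2 : u ≤ 1 / 10) :
    1 + u + u ^ 2 / 2 + u ^ 3 / 6 + u ^ 4 / 24 + u ^ 5 / 100 ≤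
      (1 + 1 / 200 + (1 / 200) ^ 2 / 2) * ((1 + 11 / 200 * u ^ 2) *
      (1 + u + 58 / 125 * u ^ 2)) := by
  obtain ⟨s, hs⟩ : ∃ s, s = u - (0) := ⟨_, rfl⟩
  obtain ⟨t, ht⟩ : ∃ t, t = 1 / 10 - u := ⟨_, rfl⟩
  have hs0 : 0 ≤ s := by linarith
  have ht0 : 0 ≤ t := by linarith
  have h : 0 ≤
      2005 / 4 * t ^ 5 + 20451 / 8 * s * t ^ 4 + 418768119 / 80000 * s ^ 2 * t ^ 3 +
      4121791 / 768 * s ^ 3 * t ^ 2 + 274911607919 / 100000000 * s ^ 4 * t +
      21062520079 / 37500000 * s ^ 5 := by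
    positivity
  have e :
      2005 / 4 * t ^ 5 + 20451 / 8 * s * t ^ 4 + 418768119 / 80000 * s ^ 2 * t ^ 3 +
      4121791 / 768 * s ^ 3 * t ^ 2 + 274911607919 / 100000000 * s ^ 4 * t +
      21062520079 / 37500000 * s ^ 5 =
      (1 + 1 / 200 + (1 / 200) ^ 2 / 2) * ((1 + 11 / 200 * u ^ 2) *
      (1 + u + 58 / 125 * u ^ 2)) -
      (1 + u + u ^ 2 / 2 + u ^ 3 / 6 + u ^ 4 / 24 + u ^ 5 / 100) := by
    rw [hs, ht]
    ring
  rw [e] at h
  linarith

theorem ev_eight_e11_g0 (u : ℝ) (h1 : 1 / 10 ≤ u) (h2 : u ≤ 2) :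
    55259 / 50000 * (1 + (u - 1 / 10) / 8) ^ 8 ≤
      (1 + 1 / 200 + (1 / 200) ^ 2 / 2) * ((1 + (11 / 200 * u ^ 2) + (11 / 200 * u ^ 2) ^ 2 / 2 +
      (11 / 200 * u ^ 2) ^ 3 / 6) *
      (1 + u + 58 / 125 * u ^ 2)) := by
  obtain ⟨s, hs⟩ : ∃ s, s = u - (1 / 10) := ⟨_, rfl⟩
  obtain ⟨t, ht⟩ : ∃ t, t = 2 - u := ⟨_, rfl⟩
  have hs0 : 0 ≤ s := by linarith
  have ht0 : 0 ≤ t := by linarith
  have h : 0 ≤
      16823319898370229853 / 509506891230000000000000 * t ^ 8 +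
      269333859297959804743 / 815211025968000000000000 * s * t ^ 7 +
      210746700395862850001 / 81521102596800000000000 * s ^ 2 * t ^ 6 +
      8374451538277820363 / 1019013782460000000000 * s ^ 3 * t ^ 5 +
      250018811943222469 / 20380275649200000000 * s ^ 4 * t ^ 4 +
      1449334572553398307 / 163042205193600000000 * s ^ 5 * t ^ 3 +
      2771931109701752273 / 1043470113239040000000 * s ^ 6 * t ^ 2 +
      175549819545480221 / 1669552181182464000000 * s ^ 7 * t +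
      580141225107977167 / 42740535838271078400000 * s ^ 8 := by
    positivity
  have e :
      16823319898370229853 / 509506891230000000000000 * t ^ 8 +
      269333859297959804743 / 815211025968000000000000 * s * t ^ 7 +
      210746700395862850001 / 81521102596800000000000 * s ^ 2 * t ^ 6 +
      8374451538277820363 / 1019013782460000000000 * s ^ 3 * t ^ 5 +
      250018811943222469 / 20380275649200000000 * s ^ 4 * t ^ 4 +
      1449334572553398307 / 163042205193600000000 * s ^ 5 * t ^ 3 +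
      2771931109701752273 / 1043470113239040000000 * s ^ 6 * t ^ 2 +
      175549819545480221 / 1669552181182464000000 * s ^ 7 * t +
      580141225107977167 / 42740535838271078400000 * s ^ 8 =
      (1 + 1 / 200 + (1 / 200) ^ 2 / 2) * ((1 + (11 / 200 * u ^ 2) + (11 / 200 * u ^ 2) ^ 2 / 2 +
      (11 / 200 * u ^ 2) ^ 3 / 6) *
      (1 + u + 58 / 125 * u ^ 2)) -
      (55259 / 50000 * (1 + (u - 1 / 10) / 8) ^ 8) := by
    rw [hs, ht]
    ring
  rw [e] at h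
  linarith

theorem ev_eight_e11_t (u : ℝ) (h1 : 2 ≤ u) :
    55259 / 50000 * (1 + (u - 1 / 10) / 8) ^ 8 ≤
      (1 + 1 / 200 + (1 / 200) ^ 2 / 2) * ((1 + (11 / 200 * u ^ 2) + (11 / 200 * u ^ 2) ^ 2 / 2 +
      (11 / 200 * u ^ 2) ^ 3 / 6) *
      (1 + u + 58 / 125 * u ^ 2)) := by
  obtain ⟨s, hs⟩ : ∃ s, s = u - (2) := ⟨_, rfl⟩
  have hs0 : 0 ≤ s := by linarith
  have h : 0 ≤
      580141225107977167 / 251658240000000000000 +
      1612438821266707 / 5242880000000000000 * s +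
      1702280555641569913 / 15728640000000000000 * s ^ 2 +
      545377772250102847 / 3932160000000000000 * s ^ 3 +
      33738384740488131 / 524288000000000000 * s ^ 4 +
      14620632794006767 / 983040000000000000 * s ^ 5 +
      2350268086971673 / 983040000000000000 * s ^ 6 +
      18804257797347 / 81920000000000000 * s ^ 7 + 12646762382479 / 983040000000000000 * s ^ 8 := by
    positivity
  have e :
      580141225107977167 / 251658240000000000000 +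
      1612438821266707 / 5242880000000000000 * s +
      1702280555641569913 / 15728640000000000000 * s ^ 2 +
      545377772250102847 / 3932160000000000000 * s ^ 3 +
      33738384740488131 / 524288000000000000 * s ^ 4 +
      14620632794006767 / 983040000000000000 * s ^ 5 +
      2350268086971673 / 983040000000000000 * s ^ 6 +
      18804257797347 / 81920000000000000 * s ^ 7 + 12646762382479 / 983040000000000000 * s ^ 8 =
      (1 + 1 / 200 + (1 / 200) ^ 2 / 2) * ((1 + (11 / 200 * u ^ 2) + (11 / 200 * u ^ 2) ^ 2 / 2 +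
      (11 / 200 * u ^ 2) ^ 3 / 6) *
      (1 + u + 58 / 125 * u ^ 2)) -
      (55259 / 50000 * (1 + (u - 1 / 10) / 8) ^ 8) := by
    rw [hs]
    ring
  rw [e] at h
  linarith

/-- `K = 8`: `(c, μ, P, δ) = (58 / 125, 11 / 200, 1 / 10, 1 / 200)` -/
theorem expFd_eight_e11 : ExpFd 8 (58 / 125) (11 / 200) (1 / 10) (1 / 200) := by
  have hde : (1 + 1 / 200 + (1 / 200) ^ 2 / 2) ≤ Real.exp (1 / 200) :=
    Real.quadratic_le_exp_of_nonneg (by norm_num)
  have hq : ∀ u : ℝ, 0 ≤ 1 + u + 58 / 125 * u ^ 2 := fun u => by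
    nlinarith [sq_nonneg (u + 2), sq_nonneg u]
  have hR : ∀ (u x y : ℝ), x ≤ y →
      y ≤ (1 + 1 / 200 + (1 / 200) ^ 2 / 2) * (1 + u + 58 / 125 * u ^ 2) →
      x ≤ Real.exp (1 / 200) * (1 + u + 58 / 125 * u ^ 2) := fun u x y h1 h2 =>
    (h1.trans h2).trans (mul_le_mul_of_nonneg_right hde (hq u))
  refine ExpFd.of (by norm_num) (by norm_num) (by norm_num) (by norm_num) (by norm_num) ?_ ?_ ?_
  · intro u h1
    rcases le_total u (-3) with h3 | h3
    · exact hR u _ _ (ev_exp_n3 h3) (ev_eight_e11_d u h3)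
    rcases le_total u (-2) with h4 | h4
    · refine hR u _ _ (ev_exp_n2 h4) ?_
      exact ev_eight_e11_c0 u (by linarith) (by linarith)
    rcases le_total u (-1) with h5 | h5
    · refine hR u _ _ (ev_exp_n1 h5) ?_
      exact ev_eight_e11_b0 u (by linarith) (by linarith)
    refine hR u _ _ (ev_exp_n0 h1) ?_
    rcases le_total u (-1 / 2) with hh | hh
    · exact ev_eight_e11_a0 u (by linarith) (by linarith)
    exact ev_eight_e11_a1 u (by linarith) (by linarith)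
  · intro u h1 h2
    have h5 := mul_le_mul_of_nonneg_right (Real.add_one_le_exp (11 / 200 * u ^ 2)) (hq u)
    rw [add_comm (11 / 200 * u ^ 2) 1] at h5
    have h6 : 0 ≤ Real.exp (11 / 200 * u ^ 2) * (1 + u + 58 / 125 * u ^ 2) :=
      mul_nonneg (Real.exp_nonneg _) (hq u)
    rw [Real.exp_add, mul_assoc]
    refine ((ev_exp_p h1 (by linarith)).trans ?_).trans
      ((mul_le_mul_of_nonneg_left h5
        (by norm_num : (0 : ℝ) ≤ (1 + 1 / 200 + (1 / 200) ^ 2 / 2))).trans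
        (mul_le_mul_of_nonneg_right hde h6))
    exact ev_eight_e11_e0 u (by linarith) (by linarith)
  · intro u h1
    have h4 : 0 ≤ (1 + (u - 1 / 10) / 8) ^ 8 := by
      have : 0 ≤ (u - 1 / 10) / 8 := div_nonneg (by linarith) (by norm_num)
      positivity
    have hE : Real.exp (1 / 10) ≤ 55259 / 50000 := ev_up_1_10
    have hx : 0 ≤ 11 / 200 * u ^ 2 := by positivity
    have h5 := mul_le_mul_of_nonneg_right (taylor3_le_expE _ hx) (hq u)
    have h6 : 0 ≤ Real.exp (11 / 200 * u ^ 2) * (1 + u + 58 / 125 * u ^ 2) :=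
      mul_nonneg (Real.exp_nonneg _) (hq u)
    rw [Real.exp_add, mul_assoc]
    push_cast
    refine ((mul_le_mul_of_nonneg_right hE h4).trans ?_).trans
      ((mul_le_mul_of_nonneg_left h5
        (by norm_num : (0 : ℝ) ≤ (1 + 1 / 200 + (1 / 200) ^ 2 / 2))).trans
        (mul_le_mul_of_nonneg_right hde h6))
    rcases le_total u (2) with hh | hh
    · exact ev_eight_e11_g0 u (by linarith) (by linarith)
    exact ev_eight_e11_t u (by linarith)

theorem ev_eight_e12_a0 (u : ℝ) (h1 : -1 ≤ u) (h2 : u ≤ -1 / 2) :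
    1 + u + u ^ 2 / 2 + u ^ 3 / 6 + u ^ 4 / 24 ≤
      (1 + 1 / 100 + (1 / 100) ^ 2 / 2) * (1 + u + 87 / 200 * u ^ 2) := by
  obtain ⟨s, hs⟩ : ∃ s, s = u - (-1) := ⟨_, rfl⟩
  obtain ⟨t, ht⟩ : ∃ t, t = -1 / 2 - u := ⟨_, rfl⟩
  have hs0 : 0 ≤ s := by linarith
  have ht0 : 0 ≤ t := by linarith
  have h : 0 ≤
      257487 / 250000 * t ^ 4 + 1877683 / 750000 * s * t ^ 3 +
      2088531 / 1000000 * s ^ 2 * t ^ 2 + 393061 / 500000 * s ^ 3 * t +
      388661 / 3000000 * s ^ 4 := by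
    positivity
  have e :
      257487 / 250000 * t ^ 4 + 1877683 / 750000 * s * t ^ 3 +
      2088531 / 1000000 * s ^ 2 * t ^ 2 + 393061 / 500000 * s ^ 3 * t +
      388661 / 3000000 * s ^ 4 =
      (1 + 1 / 100 + (1 / 100) ^ 2 / 2) * (1 + u + 87 / 200 * u ^ 2) -
      (1 + u + u ^ 2 / 2 + u ^ 3 / 6 + u ^ 4 / 24) := by
    rw [hs, ht]
    ring
  rw [e] at h
  linarith

theorem ev_eight_e12_a1 (u : ℝ) (h1 : -1 / 2 ≤ u) (h2 : u ≤ 0) :
    1 + u + u ^ 2 / 2 + u ^ 3 / 6 + u ^ 4 / 24 ≤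
      (1 + 1 / 100 + (1 / 100) ^ 2 / 2) * (1 + u + 87 / 200 * u ^ 2) := by
  obtain ⟨s, hs⟩ : ∃ s, s = u - (-1 / 2) := ⟨_, rfl⟩
  obtain ⟨t, ht⟩ : ∃ t, t = 0 - u := ⟨_, rfl⟩
  have hs0 : 0 ≤ s := by linarith
  have ht0 : 0 ≤ t := by linarith
  have h : 0 ≤
      388661 / 3000000 * t ^ 4 + 375461 / 1500000 * s * t ^ 3 +
      481087 / 1000000 * s ^ 2 * t ^ 2 + 1407 / 2500 * s ^ 3 * t + 201 / 1250 * s ^ 4 := by
    positivity
  have e :
      388661 / 3000000 * t ^ 4 + 375461 / 1500000 * s * t ^ 3 +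
      481087 / 1000000 * s ^ 2 * t ^ 2 + 1407 / 2500 * s ^ 3 * t + 201 / 1250 * s ^ 4 =
      (1 + 1 / 100 + (1 / 100) ^ 2 / 2) * (1 + u + 87 / 200 * u ^ 2) -
      (1 + u + u ^ 2 / 2 + u ^ 3 / 6 + u ^ 4 / 24) := by
    rw [hs, ht]
    ring
  rw [e] at h
  linarith

theorem ev_eight_e12_b0 (u : ℝ) (h1 : -2 ≤ u) (h2 : u ≤ -1) :
    36788 / 100000 *
      (1 + (u + 1) + (u + 1) ^ 2 / 2 + (u + 1) ^ 3 / 6 + (u + 1) ^ 4 / 24) ≤
      (1 + 1 / 100 + (1 / 100) ^ 2 / 2) * (1 + u + 87 / 200 * u ^ 2) := by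
  obtain ⟨s, hs⟩ : ∃ s, s = u - (-2) := ⟨_, rfl⟩
  obtain ⟨t, ht⟩ : ∃ t, t = -1 - u := ⟨_, rfl⟩
  have hs0 : 0 ≤ s := by linarith
  have ht0 : 0 ≤ t := by linarith
  have h : 0 ≤
      304741 / 500000 * t ^ 4 + 4703593 / 3000000 * s * t ^ 3 +
      5576411 / 4000000 * s ^ 2 * t ^ 2 + 1045081 / 2000000 * s ^ 3 * t +
      285967 / 4000000 * s ^ 4 := by
    positivity
  have e :
      304741 / 500000 * t ^ 4 + 4703593 / 3000000 * s * t ^ 3 +
      5576411 / 4000000 * s ^ 2 * t ^ 2 + 1045081 / 2000000 * s ^ 3 * t +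
      285967 / 4000000 * s ^ 4 =
      (1 + 1 / 100 + (1 / 100) ^ 2 / 2) * (1 + u + 87 / 200 * u ^ 2) -
      (36788 / 100000 *
      (1 + (u + 1) + (u + 1) ^ 2 / 2 + (u + 1) ^ 3 / 6 + (u + 1) ^ 4 / 24)) := by
    rw [hs, ht]
    ring
  rw [e] at h
  linarith

theorem ev_eight_e12_c0 (u : ℝ) (h1 : -3 ≤ u) (h2 : u ≤ -2) :
    13534 / 100000 *
      (1 + (u + 2) + (u + 2) ^ 2 / 2 + (u + 2) ^ 3 / 6 + (u + 2) ^ 4 / 24) ≤
      (1 + 1 / 100 + (1 / 100) ^ 2 / 2) * (1 + u + 87 / 200 * u ^ 2) := by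
  obtain ⟨s, hs⟩ : ∃ s, s = u - (-3) := ⟨_, rfl⟩
  obtain ⟨t, ht⟩ : ∃ t, t = -2 - u := ⟨_, rfl⟩
  have hs0 : 0 ≤ s := by linarith
  have ht0 : 0 ≤ t := by linarith
  have h : 0 ≤
      7533973 / 4000000 * t ^ 4 + 1407043 / 240000 * s * t ^ 3 +
      26770459 / 4000000 * s ^ 2 * t ^ 2 + 666233 / 200000 * s ^ 3 * t +
      612097 / 1000000 * s ^ 4 := by
    positivity
  have e :
      7533973 / 4000000 * t ^ 4 + 1407043 / 240000 * s * t ^ 3 +
      26770459 / 4000000 * s ^ 2 * t ^ 2 + 666233 / 200000 * s ^ 3 * t +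
      612097 / 1000000 * s ^ 4 =
      (1 + 1 / 100 + (1 / 100) ^ 2 / 2) * (1 + u + 87 / 200 * u ^ 2) -
      (13534 / 100000 *
      (1 + (u + 2) + (u + 2) ^ 2 / 2 + (u + 2) ^ 3 / 6 + (u + 2) ^ 4 / 24)) := by
    rw [hs, ht]
    ring
  rw [e] at h
  linarith

theorem ev_eight_e12_d (u : ℝ) (h2 : u ≤ -3) :
    4979 / 100000 ≤
      (1 + 1 / 100 + (1 / 100) ^ 2 / 2) * (1 + u + 87 / 200 * u ^ 2) := by
  obtain ⟨s, hs⟩ : ∃ s, s = -3 - u := ⟨_, rfl⟩
  have hs0 : 0 ≤ s := by linarith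
  have h : 0 ≤
      7537823 / 4000000 + 3252361 / 2000000 * s + 1757487 / 4000000 * s ^ 2 := by
    positivity
  have e :
      7537823 / 4000000 + 3252361 / 2000000 * s + 1757487 / 4000000 * s ^ 2 =
      (1 + 1 / 100 + (1 / 100) ^ 2 / 2) * (1 + u + 87 / 200 * u ^ 2) -
      (4979 / 100000) := by
    rw [hs]
    ring
  rw [e] at h
  linarith

theorem ev_eight_e12_e0 (u : ℝ) (h1 : 0 ≤ u) (h2 : u ≤ 1 / 10) :
    1 + u + u ^ 2 / 2 + u ^ 3 / 6 + u ^ 4 / 24 + u ^ 5 / 100 ≤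
      (1 + 1 / 100 + (1 / 100) ^ 2 / 2) * ((1 + 3 / 50 * u ^ 2) *
      (1 + u + 87 / 200 * u ^ 2)) := by
  obtain ⟨s, hs⟩ : ∃ s, s = u - (0) := ⟨_, rfl⟩
  obtain ⟨t, ht⟩ : ∃ t, t = 1 / 10 - u := ⟨_, rfl⟩
  have hs0 : 0 ≤ s := by linarith
  have ht0 : 0 ≤ t := by linarith
  have h : 0 ≤
      1005 * t ^ 5 + 10251 / 2 * s * t ^ 4 + 41807899 / 4000 * s ^ 2 * t ^ 3 +
      638539073 / 60000 * s ^ 3 * t ^ 2 + 108111169461 / 20000000 * s ^ 4 * t +
      65682320383 / 60000000 * s ^ 5 := by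
    positivity
  have e :
      1005 * t ^ 5 + 10251 / 2 * s * t ^ 4 + 41807899 / 4000 * s ^ 2 * t ^ 3 +
      638539073 / 60000 * s ^ 3 * t ^ 2 + 108111169461 / 20000000 * s ^ 4 * t +
      65682320383 / 60000000 * s ^ 5 =
      (1 + 1 / 100 + (1 / 100) ^ 2 / 2) * ((1 + 3 / 50 * u ^ 2) *
      (1 + u + 87 / 200 * u ^ 2)) -
      (1 + u + u ^ 2 / 2 + u ^ 3 / 6 + u ^ 4 / 24 + u ^ 5 / 100) := by
    rw [hs, ht]
    ring
  rw [e] at h
  linarith

theorem ev_eight_e12_g0 (u : ℝ) (h1 : 1 / 10 ≤ u) (h2 : u ≤ 21 / 20) :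
    55259 / 50000 * (1 + (u - 1 / 10) / 8) ^ 8 ≤
      (1 + 1 / 100 + (1 / 100) ^ 2 / 2) * ((1 + (3 / 50 * u ^ 2) + (3 / 50 * u ^ 2) ^ 2 / 2 +
      (3 / 50 * u ^ 2) ^ 3 / 6) *
      (1 + u + 87 / 200 * u ^ 2)) := by
  obtain ⟨s, hs⟩ : ∃ s, s = u - (1 / 10) := ⟨_, rfl⟩
  obtain ⟨t, ht⟩ : ∃ t, t = 21 / 20 - u := ⟨_, rfl⟩
  have hs0 : 0 ≤ s := by linarith
  have ht0 : 0 ≤ t := by linarith
  have h : 0 ≤
      1093818755142530383 / 66342043128906250000 * t ^ 8 +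
      2349059622778594043 / 16585510782226562500 * s * t ^ 7 +
      38427300524467180071 / 66342043128906250000 * s ^ 2 * t ^ 6 +
      90312190873657550991 / 66342043128906250000 * s ^ 3 * t ^ 5 +
      51317466639997559609 / 26536817251562500000 * s ^ 4 * t ^ 4 +
      7105143678615659307121 / 4245890760250000000000 * s ^ 5 * t ^ 3 +
      232457922963924296679031 / 271737008656000000000000 * s ^ 6 * t ^ 2 +
      1022935667810151964113863 / 4347792138496000000000000 * s ^ 7 * t +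
      29677140741476312950834593 / 1113034787454976000000000000 * s ^ 8 := by
    positivity
  have e :
      1093818755142530383 / 66342043128906250000 * t ^ 8 +
      2349059622778594043 / 16585510782226562500 * s * t ^ 7 +
      38427300524467180071 / 66342043128906250000 * s ^ 2 * t ^ 6 +
      90312190873657550991 / 66342043128906250000 * s ^ 3 * t ^ 5 +
      51317466639997559609 / 26536817251562500000 * s ^ 4 * t ^ 4 +
      7105143678615659307121 / 4245890760250000000000 * s ^ 5 * t ^ 3 +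
      232457922963924296679031 / 271737008656000000000000 * s ^ 6 * t ^ 2 +
      1022935667810151964113863 / 4347792138496000000000000 * s ^ 7 * t +
      29677140741476312950834593 / 1113034787454976000000000000 * s ^ 8 =
      (1 + 1 / 100 + (1 / 100) ^ 2 / 2) * ((1 + (3 / 50 * u ^ 2) + (3 / 50 * u ^ 2) ^ 2 / 2 +
      (3 / 50 * u ^ 2) ^ 3 / 6) *
      (1 + u + 87 / 200 * u ^ 2)) -
      (55259 / 50000 * (1 + (u - 1 / 10) / 8) ^ 8) := by
    rw [hs, ht]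
    ring
  rw [e] at h
  linarith

theorem ev_eight_e12_g1 (u : ℝ) (h1 : 21 / 20 ≤ u) (h2 : u ≤ 61 / 40) :
    55259 / 50000 * (1 + (u - 1 / 10) / 8) ^ 8 ≤
      (1 + 1 / 100 + (1 / 100) ^ 2 / 2) * ((1 + (3 / 50 * u ^ 2) + (3 / 50 * u ^ 2) ^ 2 / 2 +
      (3 / 50 * u ^ 2) ^ 3 / 6) *
      (1 + u + 87 / 200 * u ^ 2)) := by
  obtain ⟨s, hs⟩ : ∃ s, s = u - (21 / 20) := ⟨_, rfl⟩
  obtain ⟨t, ht⟩ : ∃ t, t = 61 / 40 - u := ⟨_, rfl⟩
  have hs0 : 0 ≤ s := by linarith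
  have ht0 : 0 ≤ t := by linarith
  have h : 0 ≤
      29677140741476312950834593 / 4347792138496000000000000 * t ^ 8 +
      56297480854504076000860163 / 1086948034624000000000000 * s * t ^ 7 +
      732871242291221955932875231 / 4347792138496000000000000 * s ^ 2 * t ^ 6 +
      1331775551197872462765303421 / 4347792138496000000000000 * s ^ 3 * t ^ 5 +
      2355457311834504270593714711 / 6956467421593600000000000 * s ^ 4 * t ^ 4 +
      4035355275356050698459928101 / 17391168553984000000000000 * s ^ 5 * t ^ 3 +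
      6660712299381238944858072591 / 69564674215936000000000000 * s ^ 6 * t ^ 2 +
      1506475617081162056293783883 / 69564674215936000000000000 * s ^ 7 * t +
      2292573789739724921727231553 / 1113034787454976000000000000 * s ^ 8 := by
    positivity
  have e :
      29677140741476312950834593 / 4347792138496000000000000 * t ^ 8 +
      56297480854504076000860163 / 1086948034624000000000000 * s * t ^ 7 +
      732871242291221955932875231 / 4347792138496000000000000 * s ^ 2 * t ^ 6 +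
      1331775551197872462765303421 / 4347792138496000000000000 * s ^ 3 * t ^ 5 +
      2355457311834504270593714711 / 6956467421593600000000000 * s ^ 4 * t ^ 4 +
      4035355275356050698459928101 / 17391168553984000000000000 * s ^ 5 * t ^ 3 +
      6660712299381238944858072591 / 69564674215936000000000000 * s ^ 6 * t ^ 2 +
      1506475617081162056293783883 / 69564674215936000000000000 * s ^ 7 * t +
      2292573789739724921727231553 / 1113034787454976000000000000 * s ^ 8 =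
      (1 + 1 / 100 + (1 / 100) ^ 2 / 2) * ((1 + (3 / 50 * u ^ 2) + (3 / 50 * u ^ 2) ^ 2 / 2 +
      (3 / 50 * u ^ 2) ^ 3 / 6) *
      (1 + u + 87 / 200 * u ^ 2)) -
      (55259 / 50000 * (1 + (u - 1 / 10) / 8) ^ 8) := by
    rw [hs, ht]
    ring
  rw [e] at h
  linarith

theorem ev_eight_e12_g2 (u : ℝ) (h1 : 61 / 40 ≤ u) (h2 : u ≤ 2) :
    55259 / 50000 * (1 + (u - 1 / 10) / 8) ^ 8 ≤
      (1 + 1 / 100 + (1 / 100) ^ 2 / 2) * ((1 + (3 / 50 * u ^ 2) + (3 / 50 * u ^ 2) ^ 2 / 2 +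
      (3 / 50 * u ^ 2) ^ 3 / 6) *
      (1 + u + 87 / 200 * u ^ 2)) := by
  obtain ⟨s, hs⟩ : ∃ s, s = u - (61 / 40) := ⟨_, rfl⟩
  obtain ⟨t, ht⟩ : ∃ t, t = 2 - u := ⟨_, rfl⟩
  have hs0 : 0 ≤ s := by linarith
  have ht0 : 0 ≤ t := by linarith
  have h : 0 ≤
      2292573789739724921727231553 / 1113034787454976000000000000 * t ^ 8 +
      78609817265856286543344767 / 6956467421593600000000000 * s * t ^ 7 +
      16180701884230446088357191 / 695646742159360000000000 * s ^ 2 * t ^ 6 +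
      358810192261337406035449 / 17391168553984000000000 * s ^ 3 * t ^ 5 +
      4500925660327202176711 / 695646742159360000000 * s ^ 4 * t ^ 4 +
      204511785639338359929 / 43477921384960000000 * s ^ 5 * t ^ 3 +
      53697206988389529671 / 4347792138496000000 * s ^ 6 * t ^ 2 +
      222773171013514291 / 21738960692480000 * s ^ 7 * t +
      596340979968659781 / 217389606924800000 * s ^ 8 := by
    positivity
  have e :
      2292573789739724921727231553 / 1113034787454976000000000000 * t ^ 8 +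
      78609817265856286543344767 / 6956467421593600000000000 * s * t ^ 7 +
      16180701884230446088357191 / 695646742159360000000000 * s ^ 2 * t ^ 6 +
      358810192261337406035449 / 17391168553984000000000 * s ^ 3 * t ^ 5 +
      4500925660327202176711 / 695646742159360000000 * s ^ 4 * t ^ 4 +
      204511785639338359929 / 43477921384960000000 * s ^ 5 * t ^ 3 +
      53697206988389529671 / 4347792138496000000 * s ^ 6 * t ^ 2 +
      222773171013514291 / 21738960692480000 * s ^ 7 * t +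
      596340979968659781 / 217389606924800000 * s ^ 8 =
      (1 + 1 / 100 + (1 / 100) ^ 2 / 2) * ((1 + (3 / 50 * u ^ 2) + (3 / 50 * u ^ 2) ^ 2 / 2 +
      (3 / 50 * u ^ 2) ^ 3 / 6) *
      (1 + u + 87 / 200 * u ^ 2)) -
      (55259 / 50000 * (1 + (u - 1 / 10) / 8) ^ 8) := by
    rw [hs, ht]
    ring
  rw [e] at h
  linarith

theorem ev_eight_e12_t (u : ℝ) (h1 : 2 ≤ u) :
    55259 / 50000 * (1 + (u - 1 / 10) / 8) ^ 8 ≤
      (1 + 1 / 100 + (1 / 100) ^ 2 / 2) * ((1 + (3 / 50 * u ^ 2) + (3 / 50 * u ^ 2) ^ 2 / 2 +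
      (3 / 50 * u ^ 2) ^ 3 / 6) *
      (1 + u + 87 / 200 * u ^ 2)) := by
  obtain ⟨s, hs⟩ : ∃ s, s = u - (2) := ⟨_, rfl⟩
  have hs0 : 0 ≤ s := by linarith
  have h : 0 ≤
      596340979968659781 / 83886080000000000000 +
      66920950779319351 / 1048576000000000000 * s +
      209877330614734071 / 1048576000000000000 * s ^ 2 +
      49550433991168209 / 262144000000000000 * s ^ 3 +
      8346372105484071 / 104857600000000000 * s ^ 4 +
      1199706540969249 / 65536000000000000 * s ^ 5 +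
      191828244947031 / 65536000000000000 * s ^ 6 +
      4656705014727 / 16384000000000000 * s ^ 7 + 1032290902913 / 65536000000000000 * s ^ 8 := by
    positivity
  have e :
      596340979968659781 / 83886080000000000000 +
      66920950779319351 / 1048576000000000000 * s +
      209877330614734071 / 1048576000000000000 * s ^ 2 +
      49550433991168209 / 262144000000000000 * s ^ 3 +
      8346372105484071 / 104857600000000000 * s ^ 4 +
      1199706540969249 / 65536000000000000 * s ^ 5 +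
      191828244947031 / 65536000000000000 * s ^ 6 +
      4656705014727 / 16384000000000000 * s ^ 7 + 1032290902913 / 65536000000000000 * s ^ 8 =
      (1 + 1 / 100 + (1 / 100) ^ 2 / 2) * ((1 + (3 / 50 * u ^ 2) + (3 / 50 * u ^ 2) ^ 2 / 2 +
      (3 / 50 * u ^ 2) ^ 3 / 6) *
      (1 + u + 87 / 200 * u ^ 2)) -
      (55259 / 50000 * (1 + (u - 1 / 10) / 8) ^ 8) := by
    rw [hs]
    ring
  rw [e] at h
  linarith

/-- `K = 8`: `(c, μ, P, δ) = (87 / 200, 3 / 50, 1 / 10, 1 / 100)` -/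
theorem expFd_eight_e12 : ExpFd 8 (87 / 200) (3 / 50) (1 / 10) (1 / 100) := by
  have hde : (1 + 1 / 100 + (1 / 100) ^ 2 / 2) ≤ Real.exp (1 / 100) :=
    Real.quadratic_le_exp_of_nonneg (by norm_num)
  have hq : ∀ u : ℝ, 0 ≤ 1 + u + 87 / 200 * u ^ 2 := fun u => by
    nlinarith [sq_nonneg (u + 2), sq_nonneg u]
  have hR : ∀ (u x y : ℝ), x ≤ y →
      y ≤ (1 + 1 / 100 + (1 / 100) ^ 2 / 2) * (1 + u + 87 / 200 * u ^ 2) →
      x ≤ Real.exp (1 / 100) * (1 + u + 87 / 200 * u ^ 2) := fun u x y h1 h2 =>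
    (h1.trans h2).trans (mul_le_mul_of_nonneg_right hde (hq u))
  refine ExpFd.of (by norm_num) (by norm_num) (by norm_num) (by norm_num) (by norm_num) ?_ ?_ ?_
  · intro u h1
    rcases le_total u (-3) with h3 | h3
    · exact hR u _ _ (ev_exp_n3 h3) (ev_eight_e12_d u h3)
    rcases le_total u (-2) with h4 | h4
    · refine hR u _ _ (ev_exp_n2 h4) ?_
      exact ev_eight_e12_c0 u (by linarith) (by linarith)
    rcases le_total u (-1) with h5 | h5
    · refine hR u _ _ (ev_exp_n1 h5) ?_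
      exact ev_eight_e12_b0 u (by linarith) (by linarith)
    refine hR u _ _ (ev_exp_n0 h1) ?_
    rcases le_total u (-1 / 2) with hh | hh
    · exact ev_eight_e12_a0 u (by linarith) (by linarith)
    exact ev_eight_e12_a1 u (by linarith) (by linarith)
  · intro u h1 h2
    have h5 := mul_le_mul_of_nonneg_right (Real.add_one_le_exp (3 / 50 * u ^ 2)) (hq u)
    rw [add_comm (3 / 50 * u ^ 2) 1] at h5
    have h6 : 0 ≤ Real.exp (3 / 50 * u ^ 2) * (1 + u + 87 / 200 * u ^ 2) :=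
      mul_nonneg (Real.exp_nonneg _) (hq u)
    rw [Real.exp_add, mul_assoc]
    refine ((ev_exp_p h1 (by linarith)).trans ?_).trans
      ((mul_le_mul_of_nonneg_left h5
        (by norm_num : (0 : ℝ) ≤ (1 + 1 / 100 + (1 / 100) ^ 2 / 2))).trans
        (mul_le_mul_of_nonneg_right hde h6))
    exact ev_eight_e12_e0 u (by linarith) (by linarith)
  · intro u h1
    have h4 : 0 ≤ (1 + (u - 1 / 10) / 8) ^ 8 := by
      have : 0 ≤ (u - 1 / 10) / 8 := div_nonneg (by linarith) (by norm_num)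
      positivity
    have hE : Real.exp (1 / 10) ≤ 55259 / 50000 := ev_up_1_10
    have hx : 0 ≤ 3 / 50 * u ^ 2 := by positivity
    have h5 := mul_le_mul_of_nonneg_right (taylor3_le_expE _ hx) (hq u)
    have h6 : 0 ≤ Real.exp (3 / 50 * u ^ 2) * (1 + u + 87 / 200 * u ^ 2) :=
      mul_nonneg (Real.exp_nonneg _) (hq u)
    rw [Real.exp_add, mul_assoc]
    push_cast
    refine ((mul_le_mul_of_nonneg_right hE h4).trans ?_).trans
      ((mul_le_mul_of_nonneg_left h5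
        (by norm_num : (0 : ℝ) ≤ (1 + 1 / 100 + (1 / 100) ^ 2 / 2))).trans
        (mul_le_mul_of_nonneg_right hde h6))
    rcases le_total u (21 / 20) with hh | hh
    · exact ev_eight_e12_g0 u (by linarith) (by linarith)
    rcases le_total u (61 / 40) with hh | hh
    · exact ev_eight_e12_g1 u (by linarith) (by linarith)
    rcases le_total u (2) with hh | hh
    · exact ev_eight_e12_g2 u (by linarith) (by linarith)
    exact ev_eight_e12_t u (by linarith)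

theorem ev_eight_e13_a0 (u : ℝ) (h1 : -1 ≤ u) (h2 : u ≤ -1 / 2) :
    1 + u + u ^ 2 / 2 + u ^ 3 / 6 + u ^ 4 / 24 ≤
      (1 + 1 / 50 + (1 / 50) ^ 2 / 2) * (1 + u + 423 / 1000 * u ^ 2) := by
  obtain ⟨s, hs⟩ : ∃ s, s = u - (-1) := ⟨_, rfl⟩
  obtain ⟨t, ht⟩ : ∃ t, t = -1 / 2 - u := ⟨_, rfl⟩
  have hs0 : 0 ≤ s := by linarith
  have ht0 : 0 ≤ t := by linarith
  have h : 0 ≤
      282723 / 312500 * t ^ 4 + 2071007 / 937500 * s * t ^ 3 +
      2406399 / 1250000 * s ^ 2 * t ^ 2 + 526169 / 625000 * s ^ 3 * t +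
      672919 / 3750000 * s ^ 4 := by
    positivity
  have e :
      282723 / 312500 * t ^ 4 + 2071007 / 937500 * s * t ^ 3 +
      2406399 / 1250000 * s ^ 2 * t ^ 2 + 526169 / 625000 * s ^ 3 * t +
      672919 / 3750000 * s ^ 4 =
      (1 + 1 / 50 + (1 / 50) ^ 2 / 2) * (1 + u + 423 / 1000 * u ^ 2) -
      (1 + u + u ^ 2 / 2 + u ^ 3 / 6 + u ^ 4 / 24) := by
    rw [hs, ht]
    ring
  rw [e] at h
  linarith

theorem ev_eight_e13_a1 (u : ℝ) (h1 : -1 / 2 ≤ u) (h2 : u ≤ 0) :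
    1 + u + u ^ 2 / 2 + u ^ 3 / 6 + u ^ 4 / 24 ≤
      (1 + 1 / 50 + (1 / 50) ^ 2 / 2) * (1 + u + 423 / 1000 * u ^ 2) := by
  obtain ⟨s, hs⟩ : ∃ s, s = u - (-1 / 2) := ⟨_, rfl⟩
  obtain ⟨t, ht⟩ : ∃ t, t = 0 - u := ⟨_, rfl⟩
  have hs0 : 0 ≤ s := by linarith
  have ht0 : 0 ≤ t := by linarith
  have h : 0 ≤
      672919 / 3750000 * t ^ 4 + 1113169 / 1875000 * s * t ^ 3 +
      1475723 / 1250000 * s ^ 2 * t ^ 2 + 707 / 625 * s ^ 3 * t + 202 / 625 * s ^ 4 := by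
    positivity
  have e :
      672919 / 3750000 * t ^ 4 + 1113169 / 1875000 * s * t ^ 3 +
      1475723 / 1250000 * s ^ 2 * t ^ 2 + 707 / 625 * s ^ 3 * t + 202 / 625 * s ^ 4 =
      (1 + 1 / 50 + (1 / 50) ^ 2 / 2) * (1 + u + 423 / 1000 * u ^ 2) -
      (1 + u + u ^ 2 / 2 + u ^ 3 / 6 + u ^ 4 / 24) := by
    rw [hs, ht]
    ring
  rw [e] at h
  linarith

theorem ev_eight_e13_b0 (u : ℝ) (h1 : -2 ≤ u) (h2 : u ≤ -1) :
    36788 / 100000 *
      (1 + (u + 1) + (u + 1) ^ 2 / 2 + (u + 1) ^ 3 / 6 + (u + 1) ^ 4 / 24) ≤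
      (1 + 1 / 50 + (1 / 50) ^ 2 / 2) * (1 + u + 423 / 1000 * u ^ 2) := by
  obtain ⟨s, hs⟩ : ∃ s, s = u - (-2) := ⟨_, rfl⟩
  obtain ⟨t, ht⟩ : ∃ t, t = -1 - u := ⟨_, rfl⟩
  have hs0 : 0 ≤ s := by linarith
  have ht0 : 0 ≤ t := by linarith
  have h : 0 ≤
      2840117 / 5000000 * t ^ 4 + 2706541 / 1875000 * s * t ^ 3 +
      6309499 / 5000000 * s ^ 2 * t ^ 2 + 1163569 / 2500000 * s ^ 3 * t +
      318323 / 5000000 * s ^ 4 := by
    positivity
  have e :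
      2840117 / 5000000 * t ^ 4 + 2706541 / 1875000 * s * t ^ 3 +
      6309499 / 5000000 * s ^ 2 * t ^ 2 + 1163569 / 2500000 * s ^ 3 * t +
      318323 / 5000000 * s ^ 4 =
      (1 + 1 / 50 + (1 / 50) ^ 2 / 2) * (1 + u + 423 / 1000 * u ^ 2) -
      (36788 / 100000 *
      (1 + (u + 1) + (u + 1) ^ 2 / 2 + (u + 1) ^ 3 / 6 + (u + 1) ^ 4 / 24)) := by
    rw [hs, ht]
    ring
  rw [e] at h
  linarith

theorem ev_eight_e13_c0 (u : ℝ) (h1 : -3 ≤ u) (h2 : u ≤ -2) :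
    13534 / 100000 *
      (1 + (u + 2) + (u + 2) ^ 2 / 2 + (u + 2) ^ 3 / 6 + (u + 2) ^ 4 / 24) ≤
      (1 + 1 / 50 + (1 / 50) ^ 2 / 2) * (1 + u + 423 / 1000 * u ^ 2) := by
  obtain ⟨s, hs⟩ : ∃ s, s = u - (-3) := ⟨_, rfl⟩
  obtain ⟨t, ht⟩ : ∃ t, t = -2 - u := ⟨_, rfl⟩
  have hs0 : 0 ≤ s := by linarith
  have ht0 : 0 ≤ t := by linarith
  have h : 0 ≤
      17927489 / 10000000 * t ^ 4 + 4167611 / 750000 * s * t ^ 3 +
      31558301 / 5000000 * s ^ 2 * t ^ 2 + 97621 / 31250 * s ^ 3 * t + 356649 / 625000 * s ^ 4 := by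
    positivity
  have e :
      17927489 / 10000000 * t ^ 4 + 4167611 / 750000 * s * t ^ 3 +
      31558301 / 5000000 * s ^ 2 * t ^ 2 + 97621 / 31250 * s ^ 3 * t + 356649 / 625000 * s ^ 4 =
      (1 + 1 / 50 + (1 / 50) ^ 2 / 2) * (1 + u + 423 / 1000 * u ^ 2) -
      (13534 / 100000 *
      (1 + (u + 2) + (u + 2) ^ 2 / 2 + (u + 2) ^ 3 / 6 + (u + 2) ^ 4 / 24)) := by
    rw [hs, ht]
    ring
  rw [e] at h
  linarith

theorem ev_eight_e13_d (u : ℝ) (h2 : u ≤ -3) :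
    4979 / 100000 ≤
      (1 + 1 / 50 + (1 / 50) ^ 2 / 2) * (1 + u + 423 / 1000 * u ^ 2) := by
  obtain ⟨s, hs⟩ : ∃ s, s = -3 - u := ⟨_, rfl⟩
  have hs0 : 0 ≤ s := by linarith
  have h : 0 ≤
      8968557 / 5000000 + 3922669 / 2500000 * s + 2157723 / 5000000 * s ^ 2 := by
    positivity
  have e :
      8968557 / 5000000 + 3922669 / 2500000 * s + 2157723 / 5000000 * s ^ 2 =
      (1 + 1 / 50 + (1 / 50) ^ 2 / 2) * (1 + u + 423 / 1000 * u ^ 2) -
      (4979 / 100000) := by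
    rw [hs]
    ring
  rw [e] at h
  linarith

theorem ev_eight_e13_e0 (u : ℝ) (h1 : 0 ≤ u) (h2 : u ≤ 1 / 10) :
    1 + u + u ^ 2 / 2 + u ^ 3 / 6 + u ^ 4 / 24 + u ^ 5 / 100 ≤
      (1 + 1 / 50 + (1 / 50) ^ 2 / 2) * ((1 + 3 / 50 * u ^ 2) *
      (1 + u + 423 / 1000 * u ^ 2)) := by
  obtain ⟨s, hs⟩ : ∃ s, s = u - (0) := ⟨_, rfl⟩
  obtain ⟨t, ht⟩ : ∃ t, t = 1 / 10 - u := ⟨_, rfl⟩
  have hs0 : 0 ≤ s := by linarith
  have ht0 : 0 ≤ t := by linarith
  have h : 0 ≤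
      2020 * t ^ 5 + 10302 * s * t ^ 4 + 105003783 / 5000 * s ^ 2 * t ^ 3 +
      64139173 / 3000 * s ^ 3 * t ^ 2 + 271625528169 / 25000000 * s ^ 4 * t +
      165303254507 / 75000000 * s ^ 5 := by
    positivity
  have e :
      2020 * t ^ 5 + 10302 * s * t ^ 4 + 105003783 / 5000 * s ^ 2 * t ^ 3 +
      64139173 / 3000 * s ^ 3 * t ^ 2 + 271625528169 / 25000000 * s ^ 4 * t +
      165303254507 / 75000000 * s ^ 5 =
      (1 + 1 / 50 + (1 / 50) ^ 2 / 2) * ((1 + 3 / 50 * u ^ 2) *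
      (1 + u + 423 / 1000 * u ^ 2)) -
      (1 + u + u ^ 2 / 2 + u ^ 3 / 6 + u ^ 4 / 24 + u ^ 5 / 100) := by
    rw [hs, ht]
    ring
  rw [e] at h
  linarith

theorem ev_eight_e13_g0 (u : ℝ) (h1 : 1 / 10 ≤ u) (h2 : u ≤ 21 / 20) :
    55259 / 50000 * (1 + (u - 1 / 10) / 8) ^ 8 ≤
      (1 + 1 / 50 + (1 / 50) ^ 2 / 2) * ((1 + (3 / 50 * u ^ 2) + (3 / 50 * u ^ 2) ^ 2 / 2 +
      (3 / 50 * u ^ 2) ^ 3 / 6) *
      (1 + u + 423 / 1000 * u ^ 2)) := by
  obtain ⟨s, hs⟩ : ∃ s, s = u - (1 / 10) := ⟨_, rfl⟩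
  obtain ⟨t, ht⟩ : ∃ t, t = 21 / 20 - u := ⟨_, rfl⟩
  have hs0 : 0 ≤ s := by linarith
  have ht0 : 0 ≤ t := by linarith
  have h : 0 ≤
      2753946260566944507 / 82927553911132812500 * t ^ 8 +
      5968629559689179647 / 20731888477783203125 * s * t ^ 7 +
      93315104120729881859 / 82927553911132812500 * s ^ 2 * t ^ 6 +
      207562249476090464039 / 82927553911132812500 * s ^ 3 * t ^ 5 +
      1804306144886195466151 / 530736345031250000000 * s ^ 4 * t ^ 4 +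
      60678849394449536829861 / 21229453801250000000000 * s ^ 5 * t ^ 3 +
      1962151800187120790265171 / 1358685043280000000000000 * s ^ 6 * t ^ 2 +
      8683467644519430775610083 / 21738960692480000000000000 * s ^ 7 * t +
      257528861562796204332031013 / 5565173937274880000000000000 * s ^ 8 := by
    positivity
  have e :
      2753946260566944507 / 82927553911132812500 * t ^ 8 +
      5968629559689179647 / 20731888477783203125 * s * t ^ 7 +
      93315104120729881859 / 82927553911132812500 * s ^ 2 * t ^ 6 +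
      207562249476090464039 / 82927553911132812500 * s ^ 3 * t ^ 5 +
      1804306144886195466151 / 530736345031250000000 * s ^ 4 * t ^ 4 +
      60678849394449536829861 / 21229453801250000000000 * s ^ 5 * t ^ 3 +
      1962151800187120790265171 / 1358685043280000000000000 * s ^ 6 * t ^ 2 +
      8683467644519430775610083 / 21738960692480000000000000 * s ^ 7 * t +
      257528861562796204332031013 / 5565173937274880000000000000 * s ^ 8 =
      (1 + 1 / 50 + (1 / 50) ^ 2 / 2) * ((1 + (3 / 50 * u ^ 2) + (3 / 50 * u ^ 2) ^ 2 / 2 +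
      (3 / 50 * u ^ 2) ^ 3 / 6) *
      (1 + u + 423 / 1000 * u ^ 2)) -
      (55259 / 50000 * (1 + (u - 1 / 10) / 8) ^ 8) := by
    rw [hs, ht]
    ring
  rw [e] at h
  linarith

theorem ev_eight_e13_g1 (u : ℝ) (h1 : 21 / 20 ≤ u) (h2 : u ≤ 2) :
    55259 / 50000 * (1 + (u - 1 / 10) / 8) ^ 8 ≤
      (1 + 1 / 50 + (1 / 50) ^ 2 / 2) * ((1 + (3 / 50 * u ^ 2) + (3 / 50 * u ^ 2) ^ 2 / 2 +
      (3 / 50 * u ^ 2) ^ 3 / 6) *
      (1 + u + 423 / 1000 * u ^ 2)) := by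
  obtain ⟨s, hs⟩ : ∃ s, s = u - (21 / 20) := ⟨_, rfl⟩
  obtain ⟨t, ht⟩ : ∃ t, t = 2 - u := ⟨_, rfl⟩
  have hs0 : 0 ≤ s := by linarith
  have ht0 : 0 ≤ t := by linarith
  have h : 0 ≤
      257528861562796204332031013 / 5565173937274880000000000000 * t ^ 8 +
      23718675850097062384453937 / 69564674215936000000000000 * s * t ^ 7 +
      14396645576604954355817691 / 13912934843187200000000000 * s ^ 2 * t ^ 6 +
      1147591342440705230302159 / 695646742159360000000000 * s ^ 3 * t ^ 5 +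
      80733488503818354155891 / 55651739372748800000000 * s ^ 4 * t ^ 4 +
      4635816486629331921159 / 6956467421593600000000 * s ^ 5 * t ^ 3 +
      189648736725912332491 / 1391293484318720000000 * s ^ 6 * t ^ 2 +
      1395572808440556617 / 69564674215936000000 * s ^ 7 * t +
      504790237697429829 / 55651739372748800000 * s ^ 8 := by
    positivity
  have e :
      257528861562796204332031013 / 5565173937274880000000000000 * t ^ 8 +
      23718675850097062384453937 / 69564674215936000000000000 * s * t ^ 7 +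
      14396645576604954355817691 / 13912934843187200000000000 * s ^ 2 * t ^ 6 +
      1147591342440705230302159 / 695646742159360000000000 * s ^ 3 * t ^ 5 +
      80733488503818354155891 / 55651739372748800000000 * s ^ 4 * t ^ 4 +
      4635816486629331921159 / 6956467421593600000000 * s ^ 5 * t ^ 3 +
      189648736725912332491 / 1391293484318720000000 * s ^ 6 * t ^ 2 +
      1395572808440556617 / 69564674215936000000 * s ^ 7 * t +
      504790237697429829 / 55651739372748800000 * s ^ 8 =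
      (1 + 1 / 50 + (1 / 50) ^ 2 / 2) * ((1 + (3 / 50 * u ^ 2) + (3 / 50 * u ^ 2) ^ 2 / 2 +
      (3 / 50 * u ^ 2) ^ 3 / 6) *
      (1 + u + 423 / 1000 * u ^ 2)) -
      (55259 / 50000 * (1 + (u - 1 / 10) / 8) ^ 8) := by
    rw [hs, ht]
    ring
  rw [e] at h
  linarith

theorem ev_eight_e13_t (u : ℝ) (h1 : 2 ≤ u) :
    55259 / 50000 * (1 + (u - 1 / 10) / 8) ^ 8 ≤
      (1 + 1 / 50 + (1 / 50) ^ 2 / 2) * ((1 + (3 / 50 * u ^ 2) + (3 / 50 * u ^ 2) ^ 2 / 2 +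
      (3 / 50 * u ^ 2) ^ 3 / 6) *
      (1 + u + 423 / 1000 * u ^ 2)) := by
  obtain ⟨s, hs⟩ : ∃ s, s = u - (2) := ⟨_, rfl⟩
  have hs0 : 0 ≤ s := by linarith
  have h : 0 ≤
      504790237697429829 / 83886080000000000000 +
      192227872028091667 / 5242880000000000000 * s +
      962941024743588051 / 5242880000000000000 * s ^ 2 +
      241503773335016469 / 1310720000000000000 * s ^ 3 +
      41047483342492611 / 524288000000000000 * s ^ 4 +
      5919249114841509 / 327680000000000000 * s ^ 5 +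
      945979322229171 / 327680000000000000 * s ^ 6 +
      22944127367907 / 81920000000000000 * s ^ 7 + 5069121696133 / 327680000000000000 * s ^ 8 := by
    positivity
  have e :
      504790237697429829 / 83886080000000000000 +
      192227872028091667 / 5242880000000000000 * s +
      962941024743588051 / 5242880000000000000 * s ^ 2 +
      241503773335016469 / 1310720000000000000 * s ^ 3 +
      41047483342492611 / 524288000000000000 * s ^ 4 +
      5919249114841509 / 327680000000000000 * s ^ 5 +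
      945979322229171 / 327680000000000000 * s ^ 6 +
      22944127367907 / 81920000000000000 * s ^ 7 + 5069121696133 / 327680000000000000 * s ^ 8 =
      (1 + 1 / 50 + (1 / 50) ^ 2 / 2) * ((1 + (3 / 50 * u ^ 2) + (3 / 50 * u ^ 2) ^ 2 / 2 +
      (3 / 50 * u ^ 2) ^ 3 / 6) *
      (1 + u + 423 / 1000 * u ^ 2)) -
      (55259 / 50000 * (1 + (u - 1 / 10) / 8) ^ 8) := by
    rw [hs]
    ring
  rw [e] at h
  linarith

/-- `K = 8`: `(c, μ, P, δ) = (423 / 1000, 3 / 50, 1 / 10, 1 / 50)` -/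
theorem expFd_eight_e13 : ExpFd 8 (423 / 1000) (3 / 50) (1 / 10) (1 / 50) := by
  have hde : (1 + 1 / 50 + (1 / 50) ^ 2 / 2) ≤ Real.exp (1 / 50) :=
    Real.quadratic_le_exp_of_nonneg (by norm_num)
  have hq : ∀ u : ℝ, 0 ≤ 1 + u + 423 / 1000 * u ^ 2 := fun u => by
    nlinarith [sq_nonneg (u + 2), sq_nonneg u]
  have hR : ∀ (u x y : ℝ), x ≤ y →
      y ≤ (1 + 1 / 50 + (1 / 50) ^ 2 / 2) * (1 + u + 423 / 1000 * u ^ 2) →
      x ≤ Real.exp (1 / 50) * (1 + u + 423 / 1000 * u ^ 2) := fun u x y h1 h2 =>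
    (h1.trans h2).trans (mul_le_mul_of_nonneg_right hde (hq u))
  refine ExpFd.of (by norm_num) (by norm_num) (by norm_num) (by norm_num) (by norm_num) ?_ ?_ ?_
  · intro u h1
    rcases le_total u (-3) with h3 | h3
    · exact hR u _ _ (ev_exp_n3 h3) (ev_eight_e13_d u h3)
    rcases le_total u (-2) with h4 | h4
    · refine hR u _ _ (ev_exp_n2 h4) ?_
      exact ev_eight_e13_c0 u (by linarith) (by linarith)
    rcases le_total u (-1) with h5 | h5
    · refine hR u _ _ (ev_exp_n1 h5) ?_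
      exact ev_eight_e13_b0 u (by linarith) (by linarith)
    refine hR u _ _ (ev_exp_n0 h1) ?_
    rcases le_total u (-1 / 2) with hh | hh
    · exact ev_eight_e13_a0 u (by linarith) (by linarith)
    exact ev_eight_e13_a1 u (by linarith) (by linarith)
  · intro u h1 h2
    have h5 := mul_le_mul_of_nonneg_right (Real.add_one_le_exp (3 / 50 * u ^ 2)) (hq u)
    rw [add_comm (3 / 50 * u ^ 2) 1] at h5
    have h6 : 0 ≤ Real.exp (3 / 50 * u ^ 2) * (1 + u + 423 / 1000 * u ^ 2) :=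
      mul_nonneg (Real.exp_nonneg _) (hq u)
    rw [Real.exp_add, mul_assoc]
    refine ((ev_exp_p h1 (by linarith)).trans ?_).trans
      ((mul_le_mul_of_nonneg_left h5
        (by norm_num : (0 : ℝ) ≤ (1 + 1 / 50 + (1 / 50) ^ 2 / 2))).trans
        (mul_le_mul_of_nonneg_right hde h6))
    exact ev_eight_e13_e0 u (by linarith) (by linarith)
  · intro u h1
    have h4 : 0 ≤ (1 + (u - 1 / 10) / 8) ^ 8 := by
      have : 0 ≤ (u - 1 / 10) / 8 := div_nonneg (by linarith) (by norm_num)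
      positivity
    have hE : Real.exp (1 / 10) ≤ 55259 / 50000 := ev_up_1_10
    have hx : 0 ≤ 3 / 50 * u ^ 2 := by positivity
    have h5 := mul_le_mul_of_nonneg_right (taylor3_le_expE _ hx) (hq u)
    have h6 : 0 ≤ Real.exp (3 / 50 * u ^ 2) * (1 + u + 423 / 1000 * u ^ 2) :=
      mul_nonneg (Real.exp_nonneg _) (hq u)
    rw [Real.exp_add, mul_assoc]
    push_cast
    refine ((mul_le_mul_of_nonneg_right hE h4).trans ?_).trans
      ((mul_le_mul_of_nonneg_left h5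
        (by norm_num : (0 : ℝ) ≤ (1 + 1 / 50 + (1 / 50) ^ 2 / 2))).trans
        (mul_le_mul_of_nonneg_right hde h6))
    rcases le_total u (21 / 20) with hh | hh
    · exact ev_eight_e13_g0 u (by linarith) (by linarith)
    rcases le_total u (2) with hh | hh
    · exact ev_eight_e13_g1 u (by linarith) (by linarith)
    exact ev_eight_e13_t u (by linarith)

theorem ev_eight_e14_a0 (u : ℝ) (h1 : -1 ≤ u) (h2 : u ≤ -7 / 8) :
    1 + u + u ^ 2 / 2 + u ^ 3 / 6 + u ^ 4 / 24 ≤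
      (1 + 1 / 20 + (1 / 20) ^ 2 / 2) * (1 + u + 9 / 25 * u ^ 2) := by
  obtain ⟨s, hs⟩ : ∃ s, s = u - (-1) := ⟨_, rfl⟩
  obtain ⟨t, ht⟩ : ∃ t, t = -7 / 8 - u := ⟨_, rfl⟩
  have hs0 : 0 ≤ s := by linarith
  have ht0 : 0 ≤ t := by linarith
  have h : 0 ≤
      8832 / 625 * t ^ 4 + 13712 / 375 * s * t ^ 3 + 20706 / 625 * s ^ 2 * t ^ 2 +
      1636 / 125 * s ^ 3 * t + 35263 / 15000 * s ^ 4 := by
    positivity
  have e :
      8832 / 625 * t ^ 4 + 13712 / 375 * s * t ^ 3 + 20706 / 625 * s ^ 2 * t ^ 2 +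
      1636 / 125 * s ^ 3 * t + 35263 / 15000 * s ^ 4 =
      (1 + 1 / 20 + (1 / 20) ^ 2 / 2) * (1 + u + 9 / 25 * u ^ 2) -
      (1 + u + u ^ 2 / 2 + u ^ 3 / 6 + u ^ 4 / 24) := by
    rw [hs, ht]
    ring
  rw [e] at h
  linarith

theorem ev_eight_e14_a1 (u : ℝ) (h1 : -7 / 8 ≤ u) (h2 : u ≤ -3 / 4) :
    1 + u + u ^ 2 / 2 + u ^ 3 / 6 + u ^ 4 / 24 ≤
      (1 + 1 / 20 + (1 / 20) ^ 2 / 2) * (1 + u + 9 / 25 * u ^ 2) := by
  obtain ⟨s, hs⟩ : ∃ s, s = u - (-7 / 8) := ⟨_, rfl⟩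
  obtain ⟨t, ht⟩ : ∃ t, t = -3 / 4 - u := ⟨_, rfl⟩
  have hs0 : 0 ≤ s := by linarith
  have ht0 : 0 ≤ t := by linarith
  have h : 0 ≤
      35263 / 15000 * t ^ 4 + 10723 / 1875 * s * t ^ 3 + 6889 / 625 * s ^ 2 * t ^ 2 +
      8828 / 625 * s ^ 3 * t + 4018 / 625 * s ^ 4 := by
    positivity
  have e :
      35263 / 15000 * t ^ 4 + 10723 / 1875 * s * t ^ 3 + 6889 / 625 * s ^ 2 * t ^ 2 +
      8828 / 625 * s ^ 3 * t + 4018 / 625 * s ^ 4 =
      (1 + 1 / 20 + (1 / 20) ^ 2 / 2) * (1 + u + 9 / 25 * u ^ 2) -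
      (1 + u + u ^ 2 / 2 + u ^ 3 / 6 + u ^ 4 / 24) := by
    rw [hs, ht]
    ring
  rw [e] at h
  linarith

theorem ev_eight_e14_a2 (u : ℝ) (h1 : -3 / 4 ≤ u) (h2 : u ≤ -1 / 2) :
    1 + u + u ^ 2 / 2 + u ^ 3 / 6 + u ^ 4 / 24 ≤
      (1 + 1 / 20 + (1 / 20) ^ 2 / 2) * (1 + u + 9 / 25 * u ^ 2) := by
  obtain ⟨s, hs⟩ : ∃ s, s = u - (-3 / 4) := ⟨_, rfl⟩
  obtain ⟨t, ht⟩ : ∃ t, t = -1 / 2 - u := ⟨_, rfl⟩
  have hs0 : 0 ≤ s := by linarith
  have ht0 : 0 ≤ t := by linarith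
  have h : 0 ≤
      2009 / 5000 * t ^ 4 + 382 / 125 * s * t ^ 3 + 10703 / 1250 * s ^ 2 * t ^ 2 +
      3524 / 375 * s ^ 3 * t + 6464 / 1875 * s ^ 4 := by
    positivity
  have e :
      2009 / 5000 * t ^ 4 + 382 / 125 * s * t ^ 3 + 10703 / 1250 * s ^ 2 * t ^ 2 +
      3524 / 375 * s ^ 3 * t + 6464 / 1875 * s ^ 4 =
      (1 + 1 / 20 + (1 / 20) ^ 2 / 2) * (1 + u + 9 / 25 * u ^ 2) -
      (1 + u + u ^ 2 / 2 + u ^ 3 / 6 + u ^ 4 / 24) := by
    rw [hs, ht]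
    ring
  rw [e] at h
  linarith

theorem ev_eight_e14_a3 (u : ℝ) (h1 : -1 / 2 ≤ u) (h2 : u ≤ 0) :
    1 + u + u ^ 2 / 2 + u ^ 3 / 6 + u ^ 4 / 24 ≤
      (1 + 1 / 20 + (1 / 20) ^ 2 / 2) * (1 + u + 9 / 25 * u ^ 2) := by
  obtain ⟨s, hs⟩ : ∃ s, s = u - (-1 / 2) := ⟨_, rfl⟩
  obtain ⟨t, ht⟩ : ∃ t, t = 0 - u := ⟨_, rfl⟩
  have hs0 : 0 ≤ s := by linarith
  have ht0 : 0 ≤ t := by linarith
  have h : 0 ≤
      404 / 1875 * t ^ 4 + 5291 / 3750 * s * t ^ 3 + 16019 / 5000 * s ^ 2 * t ^ 2 +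
      287 / 100 * s ^ 3 * t + 41 / 50 * s ^ 4 := by
    positivity
  have e :
      404 / 1875 * t ^ 4 + 5291 / 3750 * s * t ^ 3 + 16019 / 5000 * s ^ 2 * t ^ 2 +
      287 / 100 * s ^ 3 * t + 41 / 50 * s ^ 4 =
      (1 + 1 / 20 + (1 / 20) ^ 2 / 2) * (1 + u + 9 / 25 * u ^ 2) -
      (1 + u + u ^ 2 / 2 + u ^ 3 / 6 + u ^ 4 / 24) := by
    rw [hs, ht]
    ring
  rw [e] at h
  linarith

theorem ev_eight_e14_b0 (u : ℝ) (h1 : -2 ≤ u) (h2 : u ≤ -1) :
    36788 / 100000 *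
      (1 + (u + 1) + (u + 1) ^ 2 / 2 + (u + 1) ^ 3 / 6 + (u + 1) ^ 4 / 24) ≤
      (1 + 1 / 20 + (1 / 20) ^ 2 / 2) * (1 + u + 9 / 25 * u ^ 2) := by
  obtain ⟨s, hs⟩ : ∃ s, s = u - (-2) := ⟨_, rfl⟩
  obtain ⟨t, ht⟩ : ∃ t, t = -1 - u := ⟨_, rfl⟩
  have hs0 : 0 ≤ s := by linarith
  have ht0 : 0 ≤ t := by linarith
  have h : 0 ≤
      64919 / 200000 * t ^ 4 + 213961 / 300000 * s * t ^ 3 + 11963 / 25000 * s ^ 2 * t ^ 2 +
      11581 / 100000 * s ^ 3 * t + 1057 / 100000 * s ^ 4 := by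
    positivity
  have e :
      64919 / 200000 * t ^ 4 + 213961 / 300000 * s * t ^ 3 + 11963 / 25000 * s ^ 2 * t ^ 2 +
      11581 / 100000 * s ^ 3 * t + 1057 / 100000 * s ^ 4 =
      (1 + 1 / 20 + (1 / 20) ^ 2 / 2) * (1 + u + 9 / 25 * u ^ 2) -
      (36788 / 100000 *
      (1 + (u + 1) + (u + 1) ^ 2 / 2 + (u + 1) ^ 3 / 6 + (u + 1) ^ 4 / 24)) := by
    rw [hs, ht]
    ring
  rw [e] at h
  linarith

theorem ev_eight_e14_c0 (u : ℝ) (h1 : -3 ≤ u) (h2 : u ≤ -2) :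
    13534 / 100000 *
      (1 + (u + 2) + (u + 2) ^ 2 / 2 + (u + 2) ^ 3 / 6 + (u + 2) ^ 4 / 24) ≤
      (1 + 1 / 20 + (1 / 20) ^ 2 / 2) * (1 + u + 9 / 25 * u ^ 2) := by
  obtain ⟨s, hs⟩ : ∃ s, s = u - (-3) := ⟨_, rfl⟩
  obtain ⟨t, ht⟩ : ∃ t, t = -2 - u := ⟨_, rfl⟩
  have hs0 : 0 ≤ s := by linarith
  have ht0 : 0 ≤ t := by linarith
  have h : 0 ≤
      501119 / 400000 * t ^ 4 + 280997 / 75000 * s * t ^ 3 +
      406771 / 100000 * s ^ 2 * t ^ 2 + 190673 / 100000 * s ^ 3 * t + 32721 / 100000 * s ^ 4 := by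
    positivity
  have e :
      501119 / 400000 * t ^ 4 + 280997 / 75000 * s * t ^ 3 +
      406771 / 100000 * s ^ 2 * t ^ 2 + 190673 / 100000 * s ^ 3 * t + 32721 / 100000 * s ^ 4 =
      (1 + 1 / 20 + (1 / 20) ^ 2 / 2) * (1 + u + 9 / 25 * u ^ 2) -
      (13534 / 100000 *
      (1 + (u + 2) + (u + 2) ^ 2 / 2 + (u + 2) ^ 3 / 6 + (u + 2) ^ 4 / 24)) := by
    rw [hs, ht]
    ring
  rw [e] at h
  linarith

theorem ev_eight_e14_d (u : ℝ) (h2 : u ≤ -3) :
    4979 / 100000 ≤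
      (1 + 1 / 20 + (1 / 20) ^ 2 / 2) * (1 + u + 9 / 25 * u ^ 2) := by
  obtain ⟨s, hs⟩ : ∃ s, s = -3 - u := ⟨_, rfl⟩
  have hs0 : 0 ≤ s := by linarith
  have h : 0 ≤
      3918 / 3125 + 24389 / 20000 * s + 7569 / 20000 * s ^ 2 := by
    positivity
  have e :
      3918 / 3125 + 24389 / 20000 * s + 7569 / 20000 * s ^ 2 =
      (1 + 1 / 20 + (1 / 20) ^ 2 / 2) * (1 + u + 9 / 25 * u ^ 2) -
      (4979 / 100000) := by
    rw [hs]
    ring
  rw [e] at h
  linarith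

theorem ev_eight_e14_e0 (u : ℝ) (h1 : 0 ≤ u) (h2 : u ≤ 1 / 10) :
    1 + u + u ^ 2 / 2 + u ^ 3 / 6 + u ^ 4 / 24 + u ^ 5 / 100 ≤
      (1 + 1 / 20 + (1 / 20) ^ 2 / 2) * ((1 + 7 / 100 * u ^ 2) *
      (1 + u + 9 / 25 * u ^ 2)) := by
  obtain ⟨s, hs⟩ : ∃ s, s = u - (0) := ⟨_, rfl⟩
  obtain ⟨t, ht⟩ : ∃ t, t = 1 / 10 - u := ⟨_, rfl⟩
  have hs0 : 0 ≤ s := by linarith
  have ht0 : 0 ≤ t := by linarith
  have h : 0 ≤
      5125 * t ^ 5 + 52275 / 2 * s * t ^ 4 + 4260163 / 80 * s ^ 2 * t ^ 3 +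
      130012331 / 2400 * s ^ 3 * t ^ 2 + 5502468983 / 200000 * s ^ 4 * t +
      3348040699 / 600000 * s ^ 5 := by
    positivity
  have e :
      5125 * t ^ 5 + 52275 / 2 * s * t ^ 4 + 4260163 / 80 * s ^ 2 * t ^ 3 +
      130012331 / 2400 * s ^ 3 * t ^ 2 + 5502468983 / 200000 * s ^ 4 * t +
      3348040699 / 600000 * s ^ 5 =
      (1 + 1 / 20 + (1 / 20) ^ 2 / 2) * ((1 + 7 / 100 * u ^ 2) *
      (1 + u + 9 / 25 * u ^ 2)) -
      (1 + u + u ^ 2 / 2 + u ^ 3 / 6 + u ^ 4 / 24 + u ^ 5 / 100) := by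
    rw [hs, ht]
    ring
  rw [e] at h
  linarith

theorem ev_eight_e14_g0 (u : ℝ) (h1 : 1 / 10 ≤ u) (h2 : u ≤ 2) :
    55259 / 50000 * (1 + (u - 1 / 10) / 8) ^ 8 ≤
      (1 + 1 / 20 + (1 / 20) ^ 2 / 2) * ((1 + (7 / 100 * u ^ 2) + (7 / 100 * u ^ 2) ^ 2 / 2 +
      (7 / 100 * u ^ 2) ^ 3 / 6) *
      (1 + u + 9 / 25 * u ^ 2)) := by
  obtain ⟨s, hs⟩ : ∃ s, s = u - (1 / 10) := ⟨_, rfl⟩
  obtain ⟨t, ht⟩ : ∃ t, t = 2 - u := ⟨_, rfl⟩
  have hs0 : 0 ≤ s := by linarith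
  have ht0 : 0 ≤ t := by linarith
  have h : 0 ≤
      669502751464799417 / 2038027564920000000000 * t ^ 8 +
      624072449984188247 / 203802756492000000000 * s * t ^ 7 +
      82028032426805543 / 6793425216400000000 * s ^ 2 * t ^ 6 +
      12793686810248279 / 509506891230000000 * s ^ 3 * t ^ 5 +
      9619938142746989 / 326084410387200000 * s ^ 4 * t ^ 4 +
      8612304045940757 / 434779213849600000 * s ^ 5 * t ^ 3 +
      64762739300984549 / 8347760905912320000 * s ^ 6 * t ^ 2 +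
      148653246174641317 / 66782087247298560000 * s ^ 7 * t +
      8055862690658799941 / 14246845279423692800000 * s ^ 8 := by
    positivity
  have e :
      669502751464799417 / 2038027564920000000000 * t ^ 8 +
      624072449984188247 / 203802756492000000000 * s * t ^ 7 +
      82028032426805543 / 6793425216400000000 * s ^ 2 * t ^ 6 +
      12793686810248279 / 509506891230000000 * s ^ 3 * t ^ 5 +
      9619938142746989 / 326084410387200000 * s ^ 4 * t ^ 4 +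
      8612304045940757 / 434779213849600000 * s ^ 5 * t ^ 3 +
      64762739300984549 / 8347760905912320000 * s ^ 6 * t ^ 2 +
      148653246174641317 / 66782087247298560000 * s ^ 7 * t +
      8055862690658799941 / 14246845279423692800000 * s ^ 8 =
      (1 + 1 / 20 + (1 / 20) ^ 2 / 2) * ((1 + (7 / 100 * u ^ 2) + (7 / 100 * u ^ 2) ^ 2 / 2 +
      (7 / 100 * u ^ 2) ^ 3 / 6) *
      (1 + u + 9 / 25 * u ^ 2)) -
      (55259 / 50000 * (1 + (u - 1 / 10) / 8) ^ 8) := by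
    rw [hs, ht]
    ring
  rw [e] at h
  linarith

theorem ev_eight_e14_t (u : ℝ) (h1 : 2 ≤ u) :
    55259 / 50000 * (1 + (u - 1 / 10) / 8) ^ 8 ≤
      (1 + 1 / 20 + (1 / 20) ^ 2 / 2) * ((1 + (7 / 100 * u ^ 2) + (7 / 100 * u ^ 2) ^ 2 / 2 +
      (7 / 100 * u ^ 2) ^ 3 / 6) *
      (1 + u + 9 / 25 * u ^ 2)) := by
  obtain ⟨s, hs⟩ : ∃ s, s = u - (2) := ⟨_, rfl⟩
  have hs0 : 0 ≤ s := by linarith
  have h : 0 ≤
      8055862690658799941 / 83886080000000000000 +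
      646069914631847077 / 3145728000000000000 * s +
      79019193992148427 / 209715200000000000 * s ^ 2 +
      605497300186597 / 2097152000000000 * s ^ 3 +
      1394486217214909 / 12582912000000000 * s ^ 4 +
      67067545286217 / 2621440000000000 * s ^ 5 + 10671783293423 / 2621440000000000 * s ^ 6 +
      788466594973 / 1966080000000000 * s ^ 7 + 56541449129 / 2621440000000000 * s ^ 8 := by
    positivity
  have e :
      8055862690658799941 / 83886080000000000000 +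
      646069914631847077 / 3145728000000000000 * s +
      79019193992148427 / 209715200000000000 * s ^ 2 +
      605497300186597 / 2097152000000000 * s ^ 3 +
      1394486217214909 / 12582912000000000 * s ^ 4 +
      67067545286217 / 2621440000000000 * s ^ 5 + 10671783293423 / 2621440000000000 * s ^ 6 +
      788466594973 / 1966080000000000 * s ^ 7 + 56541449129 / 2621440000000000 * s ^ 8 =
      (1 + 1 / 20 + (1 / 20) ^ 2 / 2) * ((1 + (7 / 100 * u ^ 2) + (7 / 100 * u ^ 2) ^ 2 / 2 +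
      (7 / 100 * u ^ 2) ^ 3 / 6) *
      (1 + u + 9 / 25 * u ^ 2)) -
      (55259 / 50000 * (1 + (u - 1 / 10) / 8) ^ 8) := by
    rw [hs]
    ring
  rw [e] at h
  linarith

/-- `K = 8`: `(c, μ, P, δ) = (9 / 25, 7 / 100, 1 / 10, 1 / 20)` -/
theorem expFd_eight_e14 : ExpFd 8 (9 / 25) (7 / 100) (1 / 10) (1 / 20) := by
  have hde : (1 + 1 / 20 + (1 / 20) ^ 2 / 2) ≤ Real.exp (1 / 20) :=
    Real.quadratic_le_exp_of_nonneg (by norm_num)
  have hq : ∀ u : ℝ, 0 ≤ 1 + u + 9 / 25 * u ^ 2 := fun u => by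
    nlinarith [sq_nonneg (u + 2), sq_nonneg u]
  have hR : ∀ (u x y : ℝ), x ≤ y →
      y ≤ (1 + 1 / 20 + (1 / 20) ^ 2 / 2) * (1 + u + 9 / 25 * u ^ 2) →
      x ≤ Real.exp (1 / 20) * (1 + u + 9 / 25 * u ^ 2) := fun u x y h1 h2 =>
    (h1.trans h2).trans (mul_le_mul_of_nonneg_right hde (hq u))
  refine ExpFd.of (by norm_num) (by norm_num) (by norm_num) (by norm_num) (by norm_num) ?_ ?_ ?_
  · intro u h1
    rcases le_total u (-3) with h3 | h3
    · exact hR u _ _ (ev_exp_n3 h3) (ev_eight_e14_d u h3)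
    rcases le_total u (-2) with h4 | h4
    · refine hR u _ _ (ev_exp_n2 h4) ?_
      exact ev_eight_e14_c0 u (by linarith) (by linarith)
    rcases le_total u (-1) with h5 | h5
    · refine hR u _ _ (ev_exp_n1 h5) ?_
      exact ev_eight_e14_b0 u (by linarith) (by linarith)
    refine hR u _ _ (ev_exp_n0 h1) ?_
    rcases le_total u (-7 / 8) with hh | hh
    · exact ev_eight_e14_a0 u (by linarith) (by linarith)
    rcases le_total u (-3 / 4) with hh | hh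
    · exact ev_eight_e14_a1 u (by linarith) (by linarith)
    rcases le_total u (-1 / 2) with hh | hh
    · exact ev_eight_e14_a2 u (by linarith) (by linarith)
    exact ev_eight_e14_a3 u (by linarith) (by linarith)
  · intro u h1 h2
    have h5 := mul_le_mul_of_nonneg_right (Real.add_one_le_exp (7 / 100 * u ^ 2)) (hq u)
    rw [add_comm (7 / 100 * u ^ 2) 1] at h5
    have h6 : 0 ≤ Real.exp (7 / 100 * u ^ 2) * (1 + u + 9 / 25 * u ^ 2) :=
      mul_nonneg (Real.exp_nonneg _) (hq u)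
    rw [Real.exp_add, mul_assoc]
    refine ((ev_exp_p h1 (by linarith)).trans ?_).trans
      ((mul_le_mul_of_nonneg_left h5
        (by norm_num : (0 : ℝ) ≤ (1 + 1 / 20 + (1 / 20) ^ 2 / 2))).trans
        (mul_le_mul_of_nonneg_right hde h6))
    exact ev_eight_e14_e0 u (by linarith) (by linarith)
  · intro u h1
    have h4 : 0 ≤ (1 + (u - 1 / 10) / 8) ^ 8 := by
      have : 0 ≤ (u - 1 / 10) / 8 := div_nonneg (by linarith) (by norm_num)
      positivity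
    have hE : Real.exp (1 / 10) ≤ 55259 / 50000 := ev_up_1_10
    have hx : 0 ≤ 7 / 100 * u ^ 2 := by positivity
    have h5 := mul_le_mul_of_nonneg_right (taylor3_le_expE _ hx) (hq u)
    have h6 : 0 ≤ Real.exp (7 / 100 * u ^ 2) * (1 + u + 9 / 25 * u ^ 2) :=
      mul_nonneg (Real.exp_nonneg _) (hq u)
    rw [Real.exp_add, mul_assoc]
    push_cast
    refine ((mul_le_mul_of_nonneg_right hE h4).trans ?_).trans
      ((mul_le_mul_of_nonneg_left h5
        (by norm_num : (0 : ℝ) ≤ (1 + 1 / 20 + (1 / 20) ^ 2 / 2))).trans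
        (mul_le_mul_of_nonneg_right hde h6))
    rcases le_total u (2) with hh | hh
    · exact ev_eight_e14_g0 u (by linarith) (by linarith)
    exact ev_eight_e14_t u (by linarith)

theorem ev_eight_e15_a0 (u : ℝ) (h1 : -1 ≤ u) (h2 : u ≤ 0) :
    1 + u + u ^ 2 / 2 + u ^ 3 / 6 + u ^ 4 / 24 ≤
      (1 + 1 / 10 + (1 / 10) ^ 2 / 2) * (1 + u + 17 / 50 * u ^ 2) := by
  obtain ⟨s, hs⟩ : ∃ s, s = u - (-1) := ⟨_, rfl⟩
  obtain ⟨t, ht⟩ : ∃ t, t = 0 - u := ⟨_, rfl⟩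
  have hs0 : 0 ≤ s := by linarith
  have ht0 : 0 ≤ t := by linarith
  have h : 0 ≤
      7 / 10000 * t ^ 4 + 173 / 7500 * s * t ^ 3 + 1907 / 10000 * s ^ 2 * t ^ 2 +
      63 / 200 * s ^ 3 * t + 21 / 200 * s ^ 4 := by
    positivity
  have e :
      7 / 10000 * t ^ 4 + 173 / 7500 * s * t ^ 3 + 1907 / 10000 * s ^ 2 * t ^ 2 +
      63 / 200 * s ^ 3 * t + 21 / 200 * s ^ 4 =
      (1 + 1 / 10 + (1 / 10) ^ 2 / 2) * (1 + u + 17 / 50 * u ^ 2) -
      (1 + u + u ^ 2 / 2 + u ^ 3 / 6 + u ^ 4 / 24) := by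
    rw [hs, ht]
    ring
  rw [e] at h
  linarith

theorem ev_eight_e15_b0 (u : ℝ) (h1 : -2 ≤ u) (h2 : u ≤ -1) :
    36788 / 100000 *
      (1 + (u + 1) + (u + 1) ^ 2 / 2 + (u + 1) ^ 3 / 6 + (u + 1) ^ 4 / 24) ≤
      (1 + 1 / 10 + (1 / 10) ^ 2 / 2) * (1 + u + 17 / 50 * u ^ 2) := by
  obtain ⟨s, hs⟩ : ∃ s, s = u - (-2) := ⟨_, rfl⟩
  obtain ⟨t, ht⟩ : ∃ t, t = -1 - u := ⟨_, rfl⟩
  have hs0 : 0 ≤ s := by linarith
  have ht0 : 0 ≤ t := by linarith
  have h : 0 ≤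
      51969 / 200000 * t ^ 4 + 77843 / 150000 * s * t ^ 3 + 3519 / 12500 * s ^ 2 * t ^ 2 +
      1139 / 25000 * s ^ 3 * t + 391 / 50000 * s ^ 4 := by
    positivity
  have e :
      51969 / 200000 * t ^ 4 + 77843 / 150000 * s * t ^ 3 + 3519 / 12500 * s ^ 2 * t ^ 2 +
      1139 / 25000 * s ^ 3 * t + 391 / 50000 * s ^ 4 =
      (1 + 1 / 10 + (1 / 10) ^ 2 / 2) * (1 + u + 17 / 50 * u ^ 2) -
      (36788 / 100000 *
      (1 + (u + 1) + (u + 1) ^ 2 / 2 + (u + 1) ^ 3 / 6 + (u + 1) ^ 4 / 24)) := by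
    rw [hs, ht]
    ring
  rw [e] at h
  linarith

theorem ev_eight_e15_c0 (u : ℝ) (h1 : -3 ≤ u) (h2 : u ≤ -2) :
    13534 / 100000 *
      (1 + (u + 2) + (u + 2) ^ 2 / 2 + (u + 2) ^ 3 / 6 + (u + 2) ^ 4 / 24) ≤
      (1 + 1 / 10 + (1 / 10) ^ 2 / 2) * (1 + u + 17 / 50 * u ^ 2) := by
  obtain ⟨s, hs⟩ : ∃ s, s = u - (-3) := ⟨_, rfl⟩
  obtain ⟨t, ht⟩ : ∃ t, t = -2 - u := ⟨_, rfl⟩
  have hs0 : 0 ≤ s := by linarith
  have ht0 : 0 ≤ t := by linarith
  have h : 0 ≤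
      448219 / 400000 * t ^ 4 + 986363 / 300000 * s * t ^ 3 +
      348221 / 100000 * s ^ 2 * t ^ 2 + 79149 / 50000 * s ^ 3 * t + 13123 / 50000 * s ^ 4 := by
    positivity
  have e :
      448219 / 400000 * t ^ 4 + 986363 / 300000 * s * t ^ 3 +
      348221 / 100000 * s ^ 2 * t ^ 2 + 79149 / 50000 * s ^ 3 * t + 13123 / 50000 * s ^ 4 =
      (1 + 1 / 10 + (1 / 10) ^ 2 / 2) * (1 + u + 17 / 50 * u ^ 2) -
      (13534 / 100000 *
      (1 + (u + 2) + (u + 2) ^ 2 / 2 + (u + 2) ^ 3 / 6 + (u + 2) ^ 4 / 24)) := by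
    rw [hs, ht]
    ring
  rw [e] at h
  linarith

theorem ev_eight_e15_d (u : ℝ) (h2 : u ≤ -3) :
    4979 / 100000 ≤
      (1 + 1 / 10 + (1 / 10) ^ 2 / 2) * (1 + u + 17 / 50 * u ^ 2) := by
  obtain ⟨s, hs⟩ : ∃ s, s = -3 - u := ⟨_, rfl⟩
  have hs0 : 0 ≤ s := by linarith
  have h : 0 ≤
      112151 / 100000 + 2873 / 2500 * s + 3757 / 10000 * s ^ 2 := by
    positivity
  have e :
      112151 / 100000 + 2873 / 2500 * s + 3757 / 10000 * s ^ 2 =
      (1 + 1 / 10 + (1 / 10) ^ 2 / 2) * (1 + u + 17 / 50 * u ^ 2) -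
      (4979 / 100000) := by
    rw [hs]
    ring
  rw [e] at h
  linarith

theorem ev_eight_e15_e0 (u : ℝ) (h1 : 0 ≤ u) (h2 : u ≤ 1 / 10) :
    1 + u + u ^ 2 / 2 + u ^ 3 / 6 + u ^ 4 / 24 + u ^ 5 / 100 ≤
      (1 + 1 / 10 + (1 / 10) ^ 2 / 2) * ((1 + 7 / 100 * u ^ 2) *
      (1 + u + 17 / 50 * u ^ 2)) := by
  obtain ⟨s, hs⟩ : ∃ s, s = u - (0) := ⟨_, rfl⟩
  obtain ⟨t, ht⟩ : ∃ t, t = 1 / 10 - u := ⟨_, rfl⟩
  have hs0 : 0 ≤ s := by linarith
  have ht0 : 0 ≤ t := by linarith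
  have h : 0 ≤
      10500 * t ^ 5 + 53550 * s * t ^ 4 + 2183061 / 20 * s ^ 2 * t ^ 3 +
      66690131 / 600 * s ^ 3 * t ^ 2 + 5654113299 / 100000 * s ^ 4 * t +
      3448186397 / 300000 * s ^ 5 := by
    positivity
  have e :
      10500 * t ^ 5 + 53550 * s * t ^ 4 + 2183061 / 20 * s ^ 2 * t ^ 3 +
      66690131 / 600 * s ^ 3 * t ^ 2 + 5654113299 / 100000 * s ^ 4 * t +
      3448186397 / 300000 * s ^ 5 =
      (1 + 1 / 10 + (1 / 10) ^ 2 / 2) * ((1 + 7 / 100 * u ^ 2) *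
      (1 + u + 17 / 50 * u ^ 2)) -
      (1 + u + u ^ 2 / 2 + u ^ 3 / 6 + u ^ 4 / 24 + u ^ 5 / 100) := by
    rw [hs, ht]
    ring
  rw [e] at h
  linarith

theorem ev_eight_e15_g0 (u : ℝ) (h1 : 1 / 10 ≤ u) (h2 : u ≤ 2) :
    55259 / 50000 * (1 + (u - 1 / 10) / 8) ^ 8 ≤
      (1 + 1 / 10 + (1 / 10) ^ 2 / 2) * ((1 + (7 / 100 * u ^ 2) + (7 / 100 * u ^ 2) ^ 2 / 2 +
      (7 / 100 * u ^ 2) ^ 3 / 6) *
      (1 + u + 17 / 50 * u ^ 2)) := by
  obtain ⟨s, hs⟩ : ∃ s, s = u - (1 / 10) := ⟨_, rfl⟩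
  obtain ⟨t, ht⟩ : ∃ t, t = 2 - u := ⟨_, rfl⟩
  have hs0 : 0 ≤ s := by linarith
  have ht0 : 0 ≤ t := by linarith
  have h : 0 ≤
      229861557375331717 / 339671260820000000000 * t ^ 8 +
      109589531189591761 / 16983563041000000000 * s * t ^ 7 +
      133001343882908531 / 5095068912300000000 * s ^ 2 * t ^ 6 +
      612849998610363 / 10614726900625000 * s ^ 3 * t ^ 5 +
      8313583358641103 / 108694803462400000 * s ^ 4 * t ^ 4 +
      82072208084569151 / 1304337641548800000 * s ^ 5 * t ^ 3 +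
      90337533177548023 / 2782586968637440000 * s ^ 6 * t ^ 2 +
      230060728386294839 / 22260695749099520000 * s ^ 7 * t +
      74187057716243919823 / 42740535838271078400000 * s ^ 8 := by
    positivity
  have e :
      229861557375331717 / 339671260820000000000 * t ^ 8 +
      109589531189591761 / 16983563041000000000 * s * t ^ 7 +
      133001343882908531 / 5095068912300000000 * s ^ 2 * t ^ 6 +
      612849998610363 / 10614726900625000 * s ^ 3 * t ^ 5 +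
      8313583358641103 / 108694803462400000 * s ^ 4 * t ^ 4 +
      82072208084569151 / 1304337641548800000 * s ^ 5 * t ^ 3 +
      90337533177548023 / 2782586968637440000 * s ^ 6 * t ^ 2 +
      230060728386294839 / 22260695749099520000 * s ^ 7 * t +
      74187057716243919823 / 42740535838271078400000 * s ^ 8 =
      (1 + 1 / 10 + (1 / 10) ^ 2 / 2) * ((1 + (7 / 100 * u ^ 2) + (7 / 100 * u ^ 2) ^ 2 / 2 +
      (7 / 100 * u ^ 2) ^ 3 / 6) *
      (1 + u + 17 / 50 * u ^ 2)) -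
      (55259 / 50000 * (1 + (u - 1 / 10) / 8) ^ 8) := by
    rw [hs, ht]
    ring
  rw [e] at h
  linarith

theorem ev_eight_e15_t (u : ℝ) (h1 : 2 ≤ u) :
    55259 / 50000 * (1 + (u - 1 / 10) / 8) ^ 8 ≤
      (1 + 1 / 10 + (1 / 10) ^ 2 / 2) * ((1 + (7 / 100 * u ^ 2) + (7 / 100 * u ^ 2) ^ 2 / 2 +
      (7 / 100 * u ^ 2) ^ 3 / 6) *
      (1 + u + 17 / 50 * u ^ 2)) := by
  obtain ⟨s, hs⟩ : ∃ s, s = u - (2) := ⟨_, rfl⟩
  have hs0 : 0 ≤ s := by linarith
  have h : 0 ≤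
      74187057716243919823 / 251658240000000000000 +
      998551731764903077 / 3145728000000000000 * s +
      258175856059670881 / 629145600000000000 * s ^ 2 +
      1875607255802287 / 6291456000000000 * s ^ 3 +
      1416134613994429 / 12582912000000000 * s ^ 4 +
      203368376525531 / 7864320000000000 * s ^ 5 +
      32186365744589 / 7864320000000000 * s ^ 6 + 789562438813 / 1966080000000000 * s ^ 7 +
      168388010747 / 7864320000000000 * s ^ 8 := by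
    positivity
  have e :
      74187057716243919823 / 251658240000000000000 +
      998551731764903077 / 3145728000000000000 * s +
      258175856059670881 / 629145600000000000 * s ^ 2 +
      1875607255802287 / 6291456000000000 * s ^ 3 +
      1416134613994429 / 12582912000000000 * s ^ 4 +
      203368376525531 / 7864320000000000 * s ^ 5 +
      32186365744589 / 7864320000000000 * s ^ 6 + 789562438813 / 1966080000000000 * s ^ 7 +
      168388010747 / 7864320000000000 * s ^ 8 =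
      (1 + 1 / 10 + (1 / 10) ^ 2 / 2) * ((1 + (7 / 100 * u ^ 2) + (7 / 100 * u ^ 2) ^ 2 / 2 +
      (7 / 100 * u ^ 2) ^ 3 / 6) *
      (1 + u + 17 / 50 * u ^ 2)) -
      (55259 / 50000 * (1 + (u - 1 / 10) / 8) ^ 8) := by
    rw [hs]
    ring
  rw [e] at h
  linarith

/-- `K = 8`: `(c, μ, P, δ) = (17 / 50, 7 / 100, 1 / 10, 1 / 10)` -/
theorem expFd_eight_e15 : ExpFd 8 (17 / 50) (7 / 100) (1 / 10) (1 / 10) := by
  have hde : (1 + 1 / 10 + (1 / 10) ^ 2 / 2) ≤ Real.exp (1 / 10) :=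
    Real.quadratic_le_exp_of_nonneg (by norm_num)
  have hq : ∀ u : ℝ, 0 ≤ 1 + u + 17 / 50 * u ^ 2 := fun u => by
    nlinarith [sq_nonneg (u + 2), sq_nonneg u]
  have hR : ∀ (u x y : ℝ), x ≤ y →
      y ≤ (1 + 1 / 10 + (1 / 10) ^ 2 / 2) * (1 + u + 17 / 50 * u ^ 2) →
      x ≤ Real.exp (1 / 10) * (1 + u + 17 / 50 * u ^ 2) := fun u x y h1 h2 =>
    (h1.trans h2).trans (mul_le_mul_of_nonneg_right hde (hq u))
  refine ExpFd.of (by norm_num) (by norm_num) (by norm_num) (by norm_num) (by norm_num) ?_ ?_ ?_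
  · intro u h1
    rcases le_total u (-3) with h3 | h3
    · exact hR u _ _ (ev_exp_n3 h3) (ev_eight_e15_d u h3)
    rcases le_total u (-2) with h4 | h4
    · refine hR u _ _ (ev_exp_n2 h4) ?_
      exact ev_eight_e15_c0 u (by linarith) (by linarith)
    rcases le_total u (-1) with h5 | h5
    · refine hR u _ _ (ev_exp_n1 h5) ?_
      exact ev_eight_e15_b0 u (by linarith) (by linarith)
    refine hR u _ _ (ev_exp_n0 h1) ?_
    exact ev_eight_e15_a0 u (by linarith) (by linarith)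
  · intro u h1 h2
    have h5 := mul_le_mul_of_nonneg_right (Real.add_one_le_exp (7 / 100 * u ^ 2)) (hq u)
    rw [add_comm (7 / 100 * u ^ 2) 1] at h5
    have h6 : 0 ≤ Real.exp (7 / 100 * u ^ 2) * (1 + u + 17 / 50 * u ^ 2) :=
      mul_nonneg (Real.exp_nonneg _) (hq u)
    rw [Real.exp_add, mul_assoc]
    refine ((ev_exp_p h1 (by linarith)).trans ?_).trans
      ((mul_le_mul_of_nonneg_left h5
        (by norm_num : (0 : ℝ) ≤ (1 + 1 / 10 + (1 / 10) ^ 2 / 2))).trans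
        (mul_le_mul_of_nonneg_right hde h6))
    exact ev_eight_e15_e0 u (by linarith) (by linarith)
  · intro u h1
    have h4 : 0 ≤ (1 + (u - 1 / 10) / 8) ^ 8 := by
      have : 0 ≤ (u - 1 / 10) / 8 := div_nonneg (by linarith) (by norm_num)
      positivity
    have hE : Real.exp (1 / 10) ≤ 55259 / 50000 := ev_up_1_10
    have hx : 0 ≤ 7 / 100 * u ^ 2 := by positivity
    have h5 := mul_le_mul_of_nonneg_right (taylor3_le_expE _ hx) (hq u)
    have h6 : 0 ≤ Real.exp (7 / 100 * u ^ 2) * (1 + u + 17 / 50 * u ^ 2) :=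
      mul_nonneg (Real.exp_nonneg _) (hq u)
    rw [Real.exp_add, mul_assoc]
    push_cast
    refine ((mul_le_mul_of_nonneg_right hE h4).trans ?_).trans
      ((mul_le_mul_of_nonneg_left h5
        (by norm_num : (0 : ℝ) ≤ (1 + 1 / 10 + (1 / 10) ^ 2 / 2))).trans
        (mul_le_mul_of_nonneg_right hde h6))
    rcases le_total u (2) with hh | hh
    · exact ev_eight_e15_g0 u (by linarith) (by linarith)
    exact ev_eight_e15_t u (by linarith)

theorem ev_eight_e20_a0 (u : ℝ) (h1 : -1 ≤ u) (h2 : u ≤ 0) :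
    1 + u + u ^ 2 / 2 + u ^ 3 / 6 + u ^ 4 / 24 ≤
      (1 + 1 / 500 + (1 / 500) ^ 2 / 2) * (1 + u + 519 / 1000 * u ^ 2) := by
  obtain ⟨s, hs⟩ : ∃ s, s = u - (-1) := ⟨_, rfl⟩
  obtain ⟨t, ht⟩ : ∃ t, t = 0 - u := ⟨_, rfl⟩
  have hs0 : 0 ≤ s := by linarith
  have ht0 : 0 ≤ t := by linarith
  have h : 0 ≤
      72519519 / 500000000 * t ^ 4 + 156560057 / 750000000 * s * t ^ 3 +
      13022519 / 500000000 * s ^ 2 * t ^ 2 + 3003 / 500000 * s ^ 3 * t + 1001 / 500000 * s ^ 4 := by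
    positivity
  have e :
      72519519 / 500000000 * t ^ 4 + 156560057 / 750000000 * s * t ^ 3 +
      13022519 / 500000000 * s ^ 2 * t ^ 2 + 3003 / 500000 * s ^ 3 * t + 1001 / 500000 * s ^ 4 =
      (1 + 1 / 500 + (1 / 500) ^ 2 / 2) * (1 + u + 519 / 1000 * u ^ 2) -
      (1 + u + u ^ 2 / 2 + u ^ 3 / 6 + u ^ 4 / 24) := by
    rw [hs, ht]
    ring
  rw [e] at h
  linarith

theorem ev_eight_e20_b0 (u : ℝ) (h1 : -2 ≤ u) (h2 : u ≤ -1) :
    36788 / 100000 *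
      (1 + (u + 1) + (u + 1) ^ 2 / 2 + (u + 1) ^ 3 / 6 + (u + 1) ^ 4 / 24) ≤
      (1 + 1 / 500 + (1 / 500) ^ 2 / 2) * (1 + u + 519 / 1000 * u ^ 2) := by
  obtain ⟨s, hs⟩ : ∃ s, s = u - (-2) := ⟨_, rfl⟩
  obtain ⟨t, ht⟩ : ∃ t, t = -1 - u := ⟨_, rfl⟩
  have hs0 : 0 ≤ s := by linarith
  have ht0 : 0 ≤ t := by linarith
  have h : 0 ≤
      58762447 / 62500000 * t ^ 4 + 960005921 / 375000000 * s * t ^ 3 +
      1233460747 / 500000000 * s ^ 2 * t ^ 2 + 253648057 / 250000000 * s ^ 3 * t +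
      76079519 / 500000000 * s ^ 4 := by
    positivity
  have e :
      58762447 / 62500000 * t ^ 4 + 960005921 / 375000000 * s * t ^ 3 +
      1233460747 / 500000000 * s ^ 2 * t ^ 2 + 253648057 / 250000000 * s ^ 3 * t +
      76079519 / 500000000 * s ^ 4 =
      (1 + 1 / 500 + (1 / 500) ^ 2 / 2) * (1 + u + 519 / 1000 * u ^ 2) -
      (36788 / 100000 *
      (1 + (u + 1) + (u + 1) ^ 2 / 2 + (u + 1) ^ 3 / 6 + (u + 1) ^ 4 / 24)) := by
    rw [hs, ht]
    ring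
  rw [e] at h
  linarith

theorem ev_eight_e20_c0 (u : ℝ) (h1 : -3 ≤ u) (h2 : u ≤ -2) :
    13534 / 100000 *
      (1 + (u + 2) + (u + 2) ^ 2 / 2 + (u + 2) ^ 3 / 6 + (u + 2) ^ 4 / 24) ≤
      (1 + 1 / 500 + (1 / 500) ^ 2 / 2) * (1 + u + 519 / 1000 * u ^ 2) := by
  obtain ⟨s, hs⟩ : ∃ s, s = u - (-3) := ⟨_, rfl⟩
  obtain ⟨t, ht⟩ : ∃ t, t = -2 - u := ⟨_, rfl⟩
  have hs0 : 0 ≤ s := by linarith
  have ht0 : 0 ≤ t := by linarith
  have h : 0 ≤
      1312797421 / 500000000 * t ^ 4 + 1250855071 / 150000000 * s * t ^ 3 +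
      4874868203 / 500000000 * s ^ 2 * t ^ 2 + 124618769 / 25000000 * s ^ 3 * t +
      117851769 / 125000000 * s ^ 4 := by
    positivity
  have e :
      1312797421 / 500000000 * t ^ 4 + 1250855071 / 150000000 * s * t ^ 3 +
      4874868203 / 500000000 * s ^ 2 * t ^ 2 + 124618769 / 25000000 * s ^ 3 * t +
      117851769 / 125000000 * s ^ 4 =
      (1 + 1 / 500 + (1 / 500) ^ 2 / 2) * (1 + u + 519 / 1000 * u ^ 2) -
      (13534 / 100000 *
      (1 + (u + 2) + (u + 2) ^ 2 / 2 + (u + 2) ^ 3 / 6 + (u + 2) ^ 4 / 24)) := by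
    rw [hs, ht]
    ring
  rw [e] at h
  linarith

theorem ev_eight_e20_d (u : ℝ) (h2 : u ≤ -3) :
    4979 / 100000 ≤
      (1 + 1 / 500 + (1 / 500) ^ 2 / 2) * (1 + u + 519 / 1000 * u ^ 2) := by
  obtain ⟨s, hs⟩ : ∃ s, s = -3 - u := ⟨_, rfl⟩
  have hs0 : 0 ≤ s := by linarith
  have h : 0 ≤
      1313278671 / 500000000 + 529558057 / 250000000 * s + 260019519 / 500000000 * s ^ 2 := by
    positivity
  have e :
      1313278671 / 500000000 + 529558057 / 250000000 * s + 260019519 / 500000000 * s ^ 2 =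
      (1 + 1 / 500 + (1 / 500) ^ 2 / 2) * (1 + u + 519 / 1000 * u ^ 2) -
      (4979 / 100000) := by
    rw [hs]
    ring
  rw [e] at h
  linarith

theorem ev_eight_e20_e0 (u : ℝ) (h1 : 0 ≤ u) (h2 : u ≤ 1 / 5) :
    1 + u + u ^ 2 / 2 + u ^ 3 / 6 + u ^ 4 / 24 + u ^ 5 / 100 ≤
      (1 + 1 / 500 + (1 / 500) ^ 2 / 2) * ((1 + 1 / 20 * u ^ 2) *
      (1 + u + 519 / 1000 * u ^ 2)) := by
  obtain ⟨s, hs⟩ : ∃ s, s = u - (0) := ⟨_, rfl⟩
  obtain ⟨t, ht⟩ : ∃ t, t = 1 / 5 - u := ⟨_, rfl⟩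
  have hs0 : 0 ≤ s := by linarith
  have ht0 : 0 ≤ t := by linarith
  have h : 0 ≤
      1001 / 160 * t ^ 5 + 13013 / 400 * s * t ^ 4 + 305339569 / 4000000 * s ^ 2 * t ^ 3 +
      1121496151 / 12000000 * s ^ 3 * t ^ 2 + 340090649057 / 6000000000 * s ^ 4 * t +
      26544809019 / 2000000000 * s ^ 5 := by
    positivity
  have e :
      1001 / 160 * t ^ 5 + 13013 / 400 * s * t ^ 4 + 305339569 / 4000000 * s ^ 2 * t ^ 3 +
      1121496151 / 12000000 * s ^ 3 * t ^ 2 + 340090649057 / 6000000000 * s ^ 4 * t +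
      26544809019 / 2000000000 * s ^ 5 =
      (1 + 1 / 500 + (1 / 500) ^ 2 / 2) * ((1 + 1 / 20 * u ^ 2) *
      (1 + u + 519 / 1000 * u ^ 2)) -
      (1 + u + u ^ 2 / 2 + u ^ 3 / 6 + u ^ 4 / 24 + u ^ 5 / 100) := by
    rw [hs, ht]
    ring
  rw [e] at h
  linarith

theorem ev_eight_e20_g0 (u : ℝ) (h1 : 1 / 5 ≤ u) (h2 : u ≤ 8 / 5) :
    122141 / 100000 * (1 + (u - 1 / 5) / 8) ^ 8 ≤
      (1 + 1 / 500 + (1 / 500) ^ 2 / 2) * ((1 + (1 / 20 * u ^ 2) + (1 / 20 * u ^ 2) ^ 2 / 2 +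
      (1 / 20 * u ^ 2) ^ 3 / 6) *
      (1 + u + 519 / 1000 * u ^ 2)) := by
  obtain ⟨s, hs⟩ : ∃ s, s = u - (1 / 5) := ⟨_, rfl⟩
  obtain ⟨t, ht⟩ : ∃ t, t = 8 / 5 - u := ⟨_, rfl⟩
  have hs0 : 0 ≤ s := by linarith
  have ht0 : 0 ≤ t := by linarith
  have h : 0 ≤
      13258804630942673 / 46118408000000000000 * t ^ 8 +
      8159607364690769 / 2161800375000000000 * s * t ^ 7 +
      138348770710581341 / 4941258000000000000 * s ^ 2 * t ^ 6 +
      38489047555734663 / 411771500000000000 * s ^ 3 * t ^ 5 +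
      1276454368663408421 / 7906012800000000000 * s ^ 4 * t ^ 4 +
      12259145518174450319 / 79060128000000000000 * s ^ 5 * t ^ 3 +
      34875015797083484847 / 421654016000000000000 * s ^ 6 * t ^ 2 +
      800009566908998300999 / 35418937344000000000000 * s ^ 7 * t +
      5565771973922283019061 / 2266811990016000000000000 * s ^ 8 := by
    positivity
  have e :
      13258804630942673 / 46118408000000000000 * t ^ 8 +
      8159607364690769 / 2161800375000000000 * s * t ^ 7 +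
      138348770710581341 / 4941258000000000000 * s ^ 2 * t ^ 6 +
      38489047555734663 / 411771500000000000 * s ^ 3 * t ^ 5 +
      1276454368663408421 / 7906012800000000000 * s ^ 4 * t ^ 4 +
      12259145518174450319 / 79060128000000000000 * s ^ 5 * t ^ 3 +
      34875015797083484847 / 421654016000000000000 * s ^ 6 * t ^ 2 +
      800009566908998300999 / 35418937344000000000000 * s ^ 7 * t +
      5565771973922283019061 / 2266811990016000000000000 * s ^ 8 =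
      (1 + 1 / 500 + (1 / 500) ^ 2 / 2) * ((1 + (1 / 20 * u ^ 2) + (1 / 20 * u ^ 2) ^ 2 / 2 +
      (1 / 20 * u ^ 2) ^ 3 / 6) *
      (1 + u + 519 / 1000 * u ^ 2)) -
      (122141 / 100000 * (1 + (u - 1 / 5) / 8) ^ 8) := by
    rw [hs, ht]
    ring
  rw [e] at h
  linarith

theorem ev_eight_e20_g1 (u : ℝ) (h1 : 8 / 5 ≤ u) (h2 : u ≤ 23 / 10) :
    122141 / 100000 * (1 + (u - 1 / 5) / 8) ^ 8 ≤
      (1 + 1 / 500 + (1 / 500) ^ 2 / 2) * ((1 + (1 / 20 * u ^ 2) + (1 / 20 * u ^ 2) ^ 2 / 2 +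
      (1 / 20 * u ^ 2) ^ 3 / 6) *
      (1 + u + 519 / 1000 * u ^ 2)) := by
  obtain ⟨s, hs⟩ : ∃ s, s = u - (8 / 5) := ⟨_, rfl⟩
  obtain ⟨t, ht⟩ : ∃ t, t = 23 / 10 - u := ⟨_, rfl⟩
  have hs0 : 0 ≤ s := by linarith
  have ht0 : 0 ≤ t := by linarith
  have h : 0 ≤
      5565771973922283019061 / 8854734336000000000000 * t ^ 8 +
      10297239386494862649191 / 2213683584000000000000 * s * t ^ 7 +
      6129163862236219271407 / 421654016000000000000 * s ^ 2 * t ^ 6 +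
      31461121635612951751151 / 1264962048000000000000 * s ^ 3 * t ^ 5 +
      51111594892873461506981 / 2023939276800000000000 * s ^ 4 * t ^ 4 +
      26037571800350111746237 / 1686616064000000000000 * s ^ 5 * t ^ 3 +
      112360934840451018513341 / 20239392768000000000000 * s ^ 6 * t ^ 2 +
      160284546256185879607871 / 141675749376000000000000 * s ^ 7 * t +
      92381068549848941269767 / 755603996672000000000000 * s ^ 8 := by
    positivity
  have e :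
      5565771973922283019061 / 8854734336000000000000 * t ^ 8 +
      10297239386494862649191 / 2213683584000000000000 * s * t ^ 7 +
      6129163862236219271407 / 421654016000000000000 * s ^ 2 * t ^ 6 +
      31461121635612951751151 / 1264962048000000000000 * s ^ 3 * t ^ 5 +
      51111594892873461506981 / 2023939276800000000000 * s ^ 4 * t ^ 4 +
      26037571800350111746237 / 1686616064000000000000 * s ^ 5 * t ^ 3 +
      112360934840451018513341 / 20239392768000000000000 * s ^ 6 * t ^ 2 +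
      160284546256185879607871 / 141675749376000000000000 * s ^ 7 * t +
      92381068549848941269767 / 755603996672000000000000 * s ^ 8 =
      (1 + 1 / 500 + (1 / 500) ^ 2 / 2) * ((1 + (1 / 20 * u ^ 2) + (1 / 20 * u ^ 2) ^ 2 / 2 +
      (1 / 20 * u ^ 2) ^ 3 / 6) *
      (1 + u + 519 / 1000 * u ^ 2)) -
      (122141 / 100000 * (1 + (u - 1 / 5) / 8) ^ 8) := by
    rw [hs, ht]
    ring
  rw [e] at h
  linarith

theorem ev_eight_e20_g2 (u : ℝ) (h1 : 23 / 10 ≤ u) (h2 : u ≤ 3) :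
    122141 / 100000 * (1 + (u - 1 / 5) / 8) ^ 8 ≤
      (1 + 1 / 500 + (1 / 500) ^ 2 / 2) * ((1 + (1 / 20 * u ^ 2) + (1 / 20 * u ^ 2) ^ 2 / 2 +
      (1 / 20 * u ^ 2) ^ 3 / 6) *
      (1 + u + 519 / 1000 * u ^ 2)) := by
  obtain ⟨s, hs⟩ : ∃ s, s = u - (23 / 10) := ⟨_, rfl⟩
  obtain ⟨t, ht⟩ : ∃ t, t = 3 - u := ⟨_, rfl⟩
  have hs0 : 0 ≤ s := by linarith
  have ht0 : 0 ≤ t := by linarith
  have h : 0 ≤
      92381068549848941269767 / 755603996672000000000000 * t ^ 8 +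
      11685865939336094420143 / 14167574937600000000000 * s * t ^ 7 +
      689350479776260831069 / 202393927680000000000 * s ^ 2 * t ^ 6 +
      18419885333763968429 / 1686616064000000000 * s ^ 3 * t ^ 5 +
      1627712098539384567 / 67464642560000000 * s ^ 4 * t ^ 4 +
      140998405304595381 / 4216540160000000 * s ^ 5 * t ^ 3 +
      11630109288107663 / 421654016000000 * s ^ 6 * t ^ 2 +
      914114769737341 / 73789452800000 * s ^ 7 * t + 344790014841539 / 147578905600000 * s ^ 8 := by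
    positivity
  have e :
      92381068549848941269767 / 755603996672000000000000 * t ^ 8 +
      11685865939336094420143 / 14167574937600000000000 * s * t ^ 7 +
      689350479776260831069 / 202393927680000000000 * s ^ 2 * t ^ 6 +
      18419885333763968429 / 1686616064000000000 * s ^ 3 * t ^ 5 +
      1627712098539384567 / 67464642560000000 * s ^ 4 * t ^ 4 +
      140998405304595381 / 4216540160000000 * s ^ 5 * t ^ 3 +
      11630109288107663 / 421654016000000 * s ^ 6 * t ^ 2 +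
      914114769737341 / 73789452800000 * s ^ 7 * t + 344790014841539 / 147578905600000 * s ^ 8 =
      (1 + 1 / 500 + (1 / 500) ^ 2 / 2) * ((1 + (1 / 20 * u ^ 2) + (1 / 20 * u ^ 2) ^ 2 / 2 +
      (1 / 20 * u ^ 2) ^ 3 / 6) *
      (1 + u + 519 / 1000 * u ^ 2)) -
      (122141 / 100000 * (1 + (u - 1 / 5) / 8) ^ 8) := by
    rw [hs, ht]
    ring
  rw [e] at h
  linarith

theorem ev_eight_e20_t (u : ℝ) (h1 : 3 ≤ u) :
    122141 / 100000 * (1 + (u - 1 / 5) / 8) ^ 8 ≤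
      (1 + 1 / 500 + (1 / 500) ^ 2 / 2) * ((1 + (1 / 20 * u ^ 2) + (1 / 20 * u ^ 2) ^ 2 / 2 +
      (1 / 20 * u ^ 2) ^ 3 / 6) *
      (1 + u + 519 / 1000 * u ^ 2)) := by
  obtain ⟨s, hs⟩ : ∃ s, s = u - (3) := ⟨_, rfl⟩
  have hs0 : 0 ≤ s := by linarith
  have h : 0 ≤
      344790014841539 / 2560000000000000 + 13287008275109 / 25600000000000 * s +
      378388526562449 / 512000000000000 * s ^ 2 + 235396980479951 / 512000000000000 * s ^ 3 +
      121602941587409 / 819200000000000 * s ^ 4 + 58409020873871 / 2048000000000000 * s ^ 5 +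
      88516364836147 / 24576000000000000 * s ^ 6 +
      6748680019819 / 24576000000000000 * s ^ 7 + 1410511000807 / 131072000000000000 * s ^ 8 := by
    positivity
  have e :
      344790014841539 / 2560000000000000 + 13287008275109 / 25600000000000 * s +
      378388526562449 / 512000000000000 * s ^ 2 + 235396980479951 / 512000000000000 * s ^ 3 +
      121602941587409 / 819200000000000 * s ^ 4 + 58409020873871 / 2048000000000000 * s ^ 5 +
      88516364836147 / 24576000000000000 * s ^ 6 +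
      6748680019819 / 24576000000000000 * s ^ 7 + 1410511000807 / 131072000000000000 * s ^ 8 =
      (1 + 1 / 500 + (1 / 500) ^ 2 / 2) * ((1 + (1 / 20 * u ^ 2) + (1 / 20 * u ^ 2) ^ 2 / 2 +
      (1 / 20 * u ^ 2) ^ 3 / 6) *
      (1 + u + 519 / 1000 * u ^ 2)) -
      (122141 / 100000 * (1 + (u - 1 / 5) / 8) ^ 8) := by
    rw [hs]
    ring
  rw [e] at h
  linarith

/-- `K = 8`: `(c, μ, P, δ) = (519 / 1000, 1 / 20, 1 / 5, 1 / 500)` -/
theorem expFd_eight_e20 : ExpFd 8 (519 / 1000) (1 / 20) (1 / 5) (1 / 500) := by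
  have hde : (1 + 1 / 500 + (1 / 500) ^ 2 / 2) ≤ Real.exp (1 / 500) :=
    Real.quadratic_le_exp_of_nonneg (by norm_num)
  have hq : ∀ u : ℝ, 0 ≤ 1 + u + 519 / 1000 * u ^ 2 := fun u => by
    nlinarith [sq_nonneg (u + 2), sq_nonneg u]
  have hR : ∀ (u x y : ℝ), x ≤ y →
      y ≤ (1 + 1 / 500 + (1 / 500) ^ 2 / 2) * (1 + u + 519 / 1000 * u ^ 2) →
      x ≤ Real.exp (1 / 500) * (1 + u + 519 / 1000 * u ^ 2) := fun u x y h1 h2 =>
    (h1.trans h2).trans (mul_le_mul_of_nonneg_right hde (hq u))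
  refine ExpFd.of (by norm_num) (by norm_num) (by norm_num) (by norm_num) (by norm_num) ?_ ?_ ?_
  · intro u h1
    rcases le_total u (-3) with h3 | h3
    · exact hR u _ _ (ev_exp_n3 h3) (ev_eight_e20_d u h3)
    rcases le_total u (-2) with h4 | h4
    · refine hR u _ _ (ev_exp_n2 h4) ?_
      exact ev_eight_e20_c0 u (by linarith) (by linarith)
    rcases le_total u (-1) with h5 | h5
    · refine hR u _ _ (ev_exp_n1 h5) ?_
      exact ev_eight_e20_b0 u (by linarith) (by linarith)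
    refine hR u _ _ (ev_exp_n0 h1) ?_
    exact ev_eight_e20_a0 u (by linarith) (by linarith)
  · intro u h1 h2
    have h5 := mul_le_mul_of_nonneg_right (Real.add_one_le_exp (1 / 20 * u ^ 2)) (hq u)
    rw [add_comm (1 / 20 * u ^ 2) 1] at h5
    have h6 : 0 ≤ Real.exp (1 / 20 * u ^ 2) * (1 + u + 519 / 1000 * u ^ 2) :=
      mul_nonneg (Real.exp_nonneg _) (hq u)
    rw [Real.exp_add, mul_assoc]
    refine ((ev_exp_p h1 (by linarith)).trans ?_).trans
      ((mul_le_mul_of_nonneg_left h5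
        (by norm_num : (0 : ℝ) ≤ (1 + 1 / 500 + (1 / 500) ^ 2 / 2))).trans
        (mul_le_mul_of_nonneg_right hde h6))
    exact ev_eight_e20_e0 u (by linarith) (by linarith)
  · intro u h1
    have h4 : 0 ≤ (1 + (u - 1 / 5) / 8) ^ 8 := by
      have : 0 ≤ (u - 1 / 5) / 8 := div_nonneg (by linarith) (by norm_num)
      positivity
    have hE : Real.exp (1 / 5) ≤ 122141 / 100000 := ev_up_1_5
    have hx : 0 ≤ 1 / 20 * u ^ 2 := by positivity
    have h5 := mul_le_mul_of_nonneg_right (taylor3_le_expE _ hx) (hq u)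
    have h6 : 0 ≤ Real.exp (1 / 20 * u ^ 2) * (1 + u + 519 / 1000 * u ^ 2) :=
      mul_nonneg (Real.exp_nonneg _) (hq u)
    rw [Real.exp_add, mul_assoc]
    push_cast
    refine ((mul_le_mul_of_nonneg_right hE h4).trans ?_).trans
      ((mul_le_mul_of_nonneg_left h5
        (by norm_num : (0 : ℝ) ≤ (1 + 1 / 500 + (1 / 500) ^ 2 / 2))).trans
        (mul_le_mul_of_nonneg_right hde h6))
    rcases le_total u (8 / 5) with hh | hh
    · exact ev_eight_e20_g0 u (by linarith) (by linarith)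
    rcases le_total u (23 / 10) with hh | hh
    · exact ev_eight_e20_g1 u (by linarith) (by linarith)
    rcases le_total u (3) with hh | hh
    · exact ev_eight_e20_g2 u (by linarith) (by linarith)
    exact ev_eight_e20_t u (by linarith)

theorem ev_eight_e21_a0 (u : ℝ) (h1 : -1 ≤ u) (h2 : u ≤ 0) :
    1 + u + u ^ 2 / 2 + u ^ 3 / 6 + u ^ 4 / 24 ≤
      (1 + 1 / 200 + (1 / 200) ^ 2 / 2) * (1 + u + 487 / 1000 * u ^ 2) := by
  obtain ⟨s, hs⟩ : ∃ s, s = u - (-1) := ⟨_, rfl⟩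
  obtain ⟨t, ht⟩ : ∃ t, t = 0 - u := ⟨_, rfl⟩
  have hs0 : 0 ≤ s := by linarith
  have ht0 : 0 ≤ t := by linarith
  have h : 0 ≤
      9155287 / 80000000 * t ^ 4 + 18067361 / 120000000 * s * t ^ 3 +
      358287 / 80000000 * s ^ 2 * t ^ 2 + 1203 / 80000 * s ^ 3 * t + 401 / 80000 * s ^ 4 := by
    positivity
  have e :
      9155287 / 80000000 * t ^ 4 + 18067361 / 120000000 * s * t ^ 3 +
      358287 / 80000000 * s ^ 2 * t ^ 2 + 1203 / 80000 * s ^ 3 * t + 401 / 80000 * s ^ 4 =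
      (1 + 1 / 200 + (1 / 200) ^ 2 / 2) * (1 + u + 487 / 1000 * u ^ 2) -
      (1 + u + u ^ 2 / 2 + u ^ 3 / 6 + u ^ 4 / 24) := by
    rw [hs, ht]
    ring
  rw [e] at h
  linarith

theorem ev_eight_e21_b0 (u : ℝ) (h1 : -2 ≤ u) (h2 : u ≤ -1) :
    36788 / 100000 *
      (1 + (u + 1) + (u + 1) ^ 2 / 2 + (u + 1) ^ 3 / 6 + (u + 1) ^ 4 / 24) ≤
      (1 + 1 / 200 + (1 / 200) ^ 2 / 2) * (1 + u + 487 / 1000 * u ^ 2) := by
  obtain ⟨s, hs⟩ : ∃ s, s = u - (-2) := ⟨_, rfl⟩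
  obtain ⟨t, ht⟩ : ∃ t, t = -1 - u := ⟨_, rfl⟩
  have hs0 : 0 ≤ s := by linarith
  have ht0 : 0 ≤ t := by linarith
  have h : 0 ≤
      16295937 / 20000000 * t ^ 4 + 131028533 / 60000000 * s * t ^ 3 +
      164809331 / 80000000 * s ^ 2 * t ^ 2 + 33119761 / 40000000 * s ^ 3 * t +
      9724887 / 80000000 * s ^ 4 := by
    positivity
  have e :
      16295937 / 20000000 * t ^ 4 + 131028533 / 60000000 * s * t ^ 3 +
      164809331 / 80000000 * s ^ 2 * t ^ 2 + 33119761 / 40000000 * s ^ 3 * t +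
      9724887 / 80000000 * s ^ 4 =
      (1 + 1 / 200 + (1 / 200) ^ 2 / 2) * (1 + u + 487 / 1000 * u ^ 2) -
      (36788 / 100000 *
      (1 + (u + 1) + (u + 1) ^ 2 / 2 + (u + 1) ^ 3 / 6 + (u + 1) ^ 4 / 24)) := by
    rw [hs, ht]
    ring
  rw [e] at h
  linarith

theorem ev_eight_e21_c0 (u : ℝ) (h1 : -3 ≤ u) (h2 : u ≤ -2) :
    13534 / 100000 *
      (1 + (u + 2) + (u + 2) ^ 2 / 2 + (u + 2) ^ 3 / 6 + (u + 2) ^ 4 / 24) ≤
      (1 + 1 / 200 + (1 / 200) ^ 2 / 2) * (1 + u + 487 / 1000 * u ^ 2) := by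
  obtain ⟨s, hs⟩ : ∃ s, s = u - (-3) := ⟨_, rfl⟩
  obtain ⟨t, ht⟩ : ∃ t, t = -2 - u := ⟨_, rfl⟩
  have hs0 : 0 ≤ s := by linarith
  have ht0 : 0 ≤ t := by linarith
  have h : 0 ≤
      187535383 / 80000000 * t ^ 4 + 177600523 / 24000000 * s * t ^ 3 +
      687241419 / 80000000 * s ^ 2 * t ^ 2 + 17430957 / 4000000 * s ^ 3 * t +
      16348237 / 20000000 * s ^ 4 := by
    positivity
  have e :
      187535383 / 80000000 * t ^ 4 + 177600523 / 24000000 * s * t ^ 3 +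
      687241419 / 80000000 * s ^ 2 * t ^ 2 + 17430957 / 4000000 * s ^ 3 * t +
      16348237 / 20000000 * s ^ 4 =
      (1 + 1 / 200 + (1 / 200) ^ 2 / 2) * (1 + u + 487 / 1000 * u ^ 2) -
      (13534 / 100000 *
      (1 + (u + 2) + (u + 2) ^ 2 / 2 + (u + 2) ^ 3 / 6 + (u + 2) ^ 4 / 24)) := by
    rw [hs, ht]
    ring
  rw [e] at h
  linarith

theorem ev_eight_e21_d (u : ℝ) (h2 : u ≤ -3) :
    4979 / 100000 ≤
      (1 + 1 / 200 + (1 / 200) ^ 2 / 2) * (1 + u + 487 / 1000 * u ^ 2) := by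
  obtain ⟨s, hs⟩ : ∃ s, s = -3 - u := ⟨_, rfl⟩
  have hs0 : 0 ≤ s := by linarith
  have h : 0 ≤
      187612383 / 80000000 + 77265361 / 40000000 * s + 39155287 / 80000000 * s ^ 2 := by
    positivity
  have e :
      187612383 / 80000000 + 77265361 / 40000000 * s + 39155287 / 80000000 * s ^ 2 =
      (1 + 1 / 200 + (1 / 200) ^ 2 / 2) * (1 + u + 487 / 1000 * u ^ 2) -
      (4979 / 100000) := by
    rw [hs]
    ring
  rw [e] at h
  linarith

theorem ev_eight_e21_e0 (u : ℝ) (h1 : 0 ≤ u) (h2 : u ≤ 1 / 5) :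
    1 + u + u ^ 2 / 2 + u ^ 3 / 6 + u ^ 4 / 24 + u ^ 5 / 100 ≤
      (1 + 1 / 200 + (1 / 200) ^ 2 / 2) * ((1 + 11 / 200 * u ^ 2) *
      (1 + u + 487 / 1000 * u ^ 2)) := by
  obtain ⟨s, hs⟩ : ∃ s, s = u - (0) := ⟨_, rfl⟩
  obtain ⟨t, ht⟩ : ∃ t, t = 1 / 5 - u := ⟨_, rfl⟩
  have hs0 : 0 ≤ s := by linarith
  have ht0 : 0 ≤ t := by linarith
  have h : 0 ≤
      2005 / 128 * t ^ 5 + 5213 / 64 * s * t ^ 4 + 55923671 / 320000 * s ^ 2 * t ^ 3 +
      363689311 / 1920000 * s ^ 3 * t ^ 2 + 978979844471 / 9600000000 * s ^ 4 * t +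
      68857473157 / 3200000000 * s ^ 5 := by
    positivity
  have e :
      2005 / 128 * t ^ 5 + 5213 / 64 * s * t ^ 4 + 55923671 / 320000 * s ^ 2 * t ^ 3 +
      363689311 / 1920000 * s ^ 3 * t ^ 2 + 978979844471 / 9600000000 * s ^ 4 * t +
      68857473157 / 3200000000 * s ^ 5 =
      (1 + 1 / 200 + (1 / 200) ^ 2 / 2) * ((1 + 11 / 200 * u ^ 2) *
      (1 + u + 487 / 1000 * u ^ 2)) -
      (1 + u + u ^ 2 / 2 + u ^ 3 / 6 + u ^ 4 / 24 + u ^ 5 / 100) := by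
    rw [hs, ht]
    ring
  rw [e] at h
  linarith

theorem ev_eight_e21_g0 (u : ℝ) (h1 : 1 / 5 ≤ u) (h2 : u ≤ 8 / 5) :
    122141 / 100000 * (1 + (u - 1 / 5) / 8) ^ 8 ≤
      (1 + 1 / 200 + (1 / 200) ^ 2 / 2) * ((1 + (11 / 200 * u ^ 2) + (11 / 200 * u ^ 2) ^ 2 / 2 +
      (11 / 200 * u ^ 2) ^ 3 / 6) *
      (1 + u + 487 / 1000 * u ^ 2)) := by
  obtain ⟨s, hs⟩ : ∃ s, s = u - (1 / 5) := ⟨_, rfl⟩
  obtain ⟨t, ht⟩ : ∃ t, t = 8 / 5 - u := ⟨_, rfl⟩
  have hs0 : 0 ≤ s := by linarith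
  have ht0 : 0 ≤ t := by linarith
  have h : 0 ≤
      10322873137373521997 / 22136835840000000000000 * t ^ 8 +
      4232482781470887617 / 922368160000000000000 * s * t ^ 7 +
      848855391516021367 / 32941720000000000000 * s ^ 2 * t ^ 6 +
      3664747206577303433 / 49412580000000000000 * s ^ 3 * t ^ 5 +
      1512095770688741863 / 13176688000000000000 * s ^ 4 * t ^ 4 +
      12962652382059864857 / 131766880000000000000 * s ^ 5 * t ^ 3 +
      287086287864633903169 / 6324810240000000000000 * s ^ 6 * t ^ 2 +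
      595995205849857764897 / 59031562240000000000000 * s ^ 7 * t +
      3248190144388000225283 / 3778019983360000000000000 * s ^ 8 := by
    positivity
  have e :
      10322873137373521997 / 22136835840000000000000 * t ^ 8 +
      4232482781470887617 / 922368160000000000000 * s * t ^ 7 +
      848855391516021367 / 32941720000000000000 * s ^ 2 * t ^ 6 +
      3664747206577303433 / 49412580000000000000 * s ^ 3 * t ^ 5 +
      1512095770688741863 / 13176688000000000000 * s ^ 4 * t ^ 4 +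
      12962652382059864857 / 131766880000000000000 * s ^ 5 * t ^ 3 +
      287086287864633903169 / 6324810240000000000000 * s ^ 6 * t ^ 2 +
      595995205849857764897 / 59031562240000000000000 * s ^ 7 * t +
      3248190144388000225283 / 3778019983360000000000000 * s ^ 8 =
      (1 + 1 / 200 + (1 / 200) ^ 2 / 2) * ((1 + (11 / 200 * u ^ 2) + (11 / 200 * u ^ 2) ^ 2 / 2 +
      (11 / 200 * u ^ 2) ^ 3 / 6) *
      (1 + u + 487 / 1000 * u ^ 2)) -
      (122141 / 100000 * (1 + (u - 1 / 5) / 8) ^ 8) := by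
    rw [hs, ht]
    ring
  rw [e] at h
  linarith

theorem ev_eight_e21_g1 (u : ℝ) (h1 : 8 / 5 ≤ u) (h2 : u ≤ 23 / 10) :
    122141 / 100000 * (1 + (u - 1 / 5) / 8) ^ 8 ≤
      (1 + 1 / 200 + (1 / 200) ^ 2 / 2) * ((1 + (11 / 200 * u ^ 2) + (11 / 200 * u ^ 2) ^ 2 / 2 +
      (11 / 200 * u ^ 2) ^ 3 / 6) *
      (1 + u + 487 / 1000 * u ^ 2)) := by
  obtain ⟨s, hs⟩ : ∃ s, s = u - (8 / 5) := ⟨_, rfl⟩
  obtain ⟨t, ht⟩ : ∃ t, t = 23 / 10 - u := ⟨_, rfl⟩
  have hs0 : 0 ≤ s := by linarith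
  have ht0 : 0 ≤ t := by linarith
  have h : 0 ≤
      3248190144388000225283 / 14757890560000000000000 * t ^ 8 +
      4976608786365138556673 / 3689472640000000000000 * s * t ^ 7 +
      20251346679433057740289 / 6324810240000000000000 * s ^ 2 * t ^ 6 +
      7449858685301787466553 / 2108270080000000000000 * s ^ 3 * t ^ 5 +
      5437955502574442817043 / 3373232128000000000000 * s ^ 4 * t ^ 4 +
      7449891298361083687699 / 25299240960000000000000 * s ^ 5 * t ^ 3 +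
      23145546780363043864123 / 33732321280000000000000 * s ^ 6 * t ^ 2 +
      188762787179929203012713 / 236126248960000000000000 * s ^ 7 * t +
      2903443081294443984988009 / 11334059950080000000000000 * s ^ 8 := by
    positivity
  have e :
      3248190144388000225283 / 14757890560000000000000 * t ^ 8 +
      4976608786365138556673 / 3689472640000000000000 * s * t ^ 7 +
      20251346679433057740289 / 6324810240000000000000 * s ^ 2 * t ^ 6 +
      7449858685301787466553 / 2108270080000000000000 * s ^ 3 * t ^ 5 +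
      5437955502574442817043 / 3373232128000000000000 * s ^ 4 * t ^ 4 +
      7449891298361083687699 / 25299240960000000000000 * s ^ 5 * t ^ 3 +
      23145546780363043864123 / 33732321280000000000000 * s ^ 6 * t ^ 2 +
      188762787179929203012713 / 236126248960000000000000 * s ^ 7 * t +
      2903443081294443984988009 / 11334059950080000000000000 * s ^ 8 =
      (1 + 1 / 200 + (1 / 200) ^ 2 / 2) * ((1 + (11 / 200 * u ^ 2) + (11 / 200 * u ^ 2) ^ 2 / 2 +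
      (11 / 200 * u ^ 2) ^ 3 / 6) *
      (1 + u + 487 / 1000 * u ^ 2)) -
      (122141 / 100000 * (1 + (u - 1 / 5) / 8) ^ 8) := by
    rw [hs, ht]
    ring
  rw [e] at h
  linarith

theorem ev_eight_e21_g2 (u : ℝ) (h1 : 23 / 10 ≤ u) (h2 : u ≤ 3) :
    122141 / 100000 * (1 + (u - 1 / 5) / 8) ^ 8 ≤
      (1 + 1 / 200 + (1 / 200) ^ 2 / 2) * ((1 + (11 / 200 * u ^ 2) + (11 / 200 * u ^ 2) ^ 2 / 2 +
      (11 / 200 * u ^ 2) ^ 3 / 6) *
      (1 + u + 487 / 1000 * u ^ 2)) := by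
  obtain ⟨s, hs⟩ : ∃ s, s = u - (23 / 10) := ⟨_, rfl⟩
  obtain ⟨t, ht⟩ : ∃ t, t = 3 - u := ⟨_, rfl⟩
  have hs0 : 0 ≤ s := by linarith
  have ht0 : 0 ≤ t := by linarith
  have h : 0 ≤
      2903443081294443984988009 / 11334059950080000000000000 * t ^ 8 +
      233715471975465637594987 / 70837874688000000000000 * s * t ^ 7 +
      18403029985559578985041 / 1011969638400000000000 * s ^ 2 * t ^ 6 +
      468479342133329156321 / 8433080320000000000 * s ^ 3 * t ^ 5 +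
      34714125949870244403 / 337323212800000000 * s ^ 4 * t ^ 4 +
      2503628401684992329 / 21082700800000000 * s ^ 5 * t ^ 3 +
      176375526388228147 / 2108270080000000 * s ^ 6 * t ^ 2 +
      12177387774313481 / 368947264000000 * s ^ 7 * t +
      826354229376257 / 147578905600000 * s ^ 8 := by
    positivity
  have e :
      2903443081294443984988009 / 11334059950080000000000000 * t ^ 8 +
      233715471975465637594987 / 70837874688000000000000 * s * t ^ 7 +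
      18403029985559578985041 / 1011969638400000000000 * s ^ 2 * t ^ 6 +
      468479342133329156321 / 8433080320000000000 * s ^ 3 * t ^ 5 +
      34714125949870244403 / 337323212800000000 * s ^ 4 * t ^ 4 +
      2503628401684992329 / 21082700800000000 * s ^ 5 * t ^ 3 +
      176375526388228147 / 2108270080000000 * s ^ 6 * t ^ 2 +
      12177387774313481 / 368947264000000 * s ^ 7 * t +
      826354229376257 / 147578905600000 * s ^ 8 =
      (1 + 1 / 200 + (1 / 200) ^ 2 / 2) * ((1 + (11 / 200 * u ^ 2) + (11 / 200 * u ^ 2) ^ 2 / 2 +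
      (11 / 200 * u ^ 2) ^ 3 / 6) *
      (1 + u + 487 / 1000 * u ^ 2)) -
      (122141 / 100000 * (1 + (u - 1 / 5) / 8) ^ 8) := by
    rw [hs, ht]
    ring
  rw [e] at h
  linarith

theorem ev_eight_e21_t (u : ℝ) (h1 : 3 ≤ u) :
    122141 / 100000 * (1 + (u - 1 / 5) / 8) ^ 8 ≤
      (1 + 1 / 200 + (1 / 200) ^ 2 / 2) * ((1 + (11 / 200 * u ^ 2) + (11 / 200 * u ^ 2) ^ 2 / 2 +
      (11 / 200 * u ^ 2) ^ 3 / 6) *
      (1 + u + 487 / 1000 * u ^ 2)) := by
  obtain ⟨s, hs⟩ : ∃ s, s = u - (3) := ⟨_, rfl⟩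
  have hs0 : 0 ≤ s := by linarith
  have h : 0 ≤
      826354229376257 / 2560000000000000 + 621385259030237 / 640000000000000 * s +
      2831672452313101 / 2560000000000000 * s ^ 2 +
      1568809947807659 / 2560000000000000 * s ^ 3 +
      773717402297781 / 4096000000000000 * s ^ 4 +
      368626291218379 / 10240000000000000 * s ^ 5 +
      557347620435583 / 122880000000000000 * s ^ 6 +
      42676363490071 / 122880000000000000 * s ^ 7 +
      26540097758089 / 1966080000000000000 * s ^ 8 := by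
    positivity
  have e :
      826354229376257 / 2560000000000000 + 621385259030237 / 640000000000000 * s +
      2831672452313101 / 2560000000000000 * s ^ 2 +
      1568809947807659 / 2560000000000000 * s ^ 3 +
      773717402297781 / 4096000000000000 * s ^ 4 +
      368626291218379 / 10240000000000000 * s ^ 5 +
      557347620435583 / 122880000000000000 * s ^ 6 +
      42676363490071 / 122880000000000000 * s ^ 7 +
      26540097758089 / 1966080000000000000 * s ^ 8 =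
      (1 + 1 / 200 + (1 / 200) ^ 2 / 2) * ((1 + (11 / 200 * u ^ 2) + (11 / 200 * u ^ 2) ^ 2 / 2 +
      (11 / 200 * u ^ 2) ^ 3 / 6) *
      (1 + u + 487 / 1000 * u ^ 2)) -
      (122141 / 100000 * (1 + (u - 1 / 5) / 8) ^ 8) := by
    rw [hs]
    ring
  rw [e] at h
  linarith

/-- `K = 8`: `(c, μ, P, δ) = (487 / 1000, 11 / 200, 1 / 5, 1 / 200)` -/
theorem expFd_eight_e21 : ExpFd 8 (487 / 1000) (11 / 200) (1 / 5) (1 / 200) := by
  have hde : (1 + 1 / 200 + (1 / 200) ^ 2 / 2) ≤ Real.exp (1 / 200) :=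
    Real.quadratic_le_exp_of_nonneg (by norm_num)
  have hq : ∀ u : ℝ, 0 ≤ 1 + u + 487 / 1000 * u ^ 2 := fun u => by
    nlinarith [sq_nonneg (u + 2), sq_nonneg u]
  have hR : ∀ (u x y : ℝ), x ≤ y →
      y ≤ (1 + 1 / 200 + (1 / 200) ^ 2 / 2) * (1 + u + 487 / 1000 * u ^ 2) →
      x ≤ Real.exp (1 / 200) * (1 + u + 487 / 1000 * u ^ 2) := fun u x y h1 h2 =>
    (h1.trans h2).trans (mul_le_mul_of_nonneg_right hde (hq u))
  refine ExpFd.of (by norm_num) (by norm_num) (by norm_num) (by norm_num) (by norm_num) ?_ ?_ ?_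
  · intro u h1
    rcases le_total u (-3) with h3 | h3
    · exact hR u _ _ (ev_exp_n3 h3) (ev_eight_e21_d u h3)
    rcases le_total u (-2) with h4 | h4
    · refine hR u _ _ (ev_exp_n2 h4) ?_
      exact ev_eight_e21_c0 u (by linarith) (by linarith)
    rcases le_total u (-1) with h5 | h5
    · refine hR u _ _ (ev_exp_n1 h5) ?_
      exact ev_eight_e21_b0 u (by linarith) (by linarith)
    refine hR u _ _ (ev_exp_n0 h1) ?_
    exact ev_eight_e21_a0 u (by linarith) (by linarith)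
  · intro u h1 h2
    have h5 := mul_le_mul_of_nonneg_right (Real.add_one_le_exp (11 / 200 * u ^ 2)) (hq u)
    rw [add_comm (11 / 200 * u ^ 2) 1] at h5
    have h6 : 0 ≤ Real.exp (11 / 200 * u ^ 2) * (1 + u + 487 / 1000 * u ^ 2) :=
      mul_nonneg (Real.exp_nonneg _) (hq u)
    rw [Real.exp_add, mul_assoc]
    refine ((ev_exp_p h1 (by linarith)).trans ?_).trans
      ((mul_le_mul_of_nonneg_left h5
        (by norm_num : (0 : ℝ) ≤ (1 + 1 / 200 + (1 / 200) ^ 2 / 2))).trans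
        (mul_le_mul_of_nonneg_right hde h6))
    exact ev_eight_e21_e0 u (by linarith) (by linarith)
  · intro u h1
    have h4 : 0 ≤ (1 + (u - 1 / 5) / 8) ^ 8 := by
      have : 0 ≤ (u - 1 / 5) / 8 := div_nonneg (by linarith) (by norm_num)
      positivity
    have hE : Real.exp (1 / 5) ≤ 122141 / 100000 := ev_up_1_5
    have hx : 0 ≤ 11 / 200 * u ^ 2 := by positivity
    have h5 := mul_le_mul_of_nonneg_right (taylor3_le_expE _ hx) (hq u)
    have h6 : 0 ≤ Real.exp (11 / 200 * u ^ 2) * (1 + u + 487 / 1000 * u ^ 2) :=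
      mul_nonneg (Real.exp_nonneg _) (hq u)
    rw [Real.exp_add, mul_assoc]
    push_cast
    refine ((mul_le_mul_of_nonneg_right hE h4).trans ?_).trans
      ((mul_le_mul_of_nonneg_left h5
        (by norm_num : (0 : ℝ) ≤ (1 + 1 / 200 + (1 / 200) ^ 2 / 2))).trans
        (mul_le_mul_of_nonneg_right hde h6))
    rcases le_total u (8 / 5) with hh | hh
    · exact ev_eight_e21_g0 u (by linarith) (by linarith)
    rcases le_total u (23 / 10) with hh | hh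
    · exact ev_eight_e21_g1 u (by linarith) (by linarith)
    rcases le_total u (3) with hh | hh
    · exact ev_eight_e21_g2 u (by linarith) (by linarith)
    exact ev_eight_e21_t u (by linarith)

theorem ev_eight_e22_a0 (u : ℝ) (h1 : -1 ≤ u) (h2 : u ≤ -1 / 2) :
    1 + u + u ^ 2 / 2 + u ^ 3 / 6 + u ^ 4 / 24 ≤
      (1 + 1 / 100 + (1 / 100) ^ 2 / 2) * (1 + u + 229 / 500 * u ^ 2) := by
  obtain ⟨s, hs⟩ : ∃ s, s = u - (-1) := ⟨_, rfl⟩
  obtain ⟨t, ht⟩ : ∃ t, t = -1 / 2 - u := ⟨_, rfl⟩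
  have hs0 : 0 ≤ s := by linarith
  have ht0 : 0 ≤ t := by linarith
  have h : 0 ≤
      876029 / 625000 * t ^ 4 + 6785011 / 1875000 * s * t ^ 3 +
      8241377 / 2500000 * s ^ 2 * t ^ 2 + 1679587 / 1250000 * s ^ 3 * t +
      1668587 / 7500000 * s ^ 4 := by
    positivity
  have e :
      876029 / 625000 * t ^ 4 + 6785011 / 1875000 * s * t ^ 3 +
      8241377 / 2500000 * s ^ 2 * t ^ 2 + 1679587 / 1250000 * s ^ 3 * t +
      1668587 / 7500000 * s ^ 4 =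
      (1 + 1 / 100 + (1 / 100) ^ 2 / 2) * (1 + u + 229 / 500 * u ^ 2) -
      (1 + u + u ^ 2 / 2 + u ^ 3 / 6 + u ^ 4 / 24) := by
    rw [hs, ht]
    ring
  rw [e] at h
  linarith

theorem ev_eight_e22_a1 (u : ℝ) (h1 : -1 / 2 ≤ u) (h2 : u ≤ 0) :
    1 + u + u ^ 2 / 2 + u ^ 3 / 6 + u ^ 4 / 24 ≤
      (1 + 1 / 100 + (1 / 100) ^ 2 / 2) * (1 + u + 229 / 500 * u ^ 2) := by
  obtain ⟨s, hs⟩ : ∃ s, s = u - (-1 / 2) := ⟨_, rfl⟩
  obtain ⟨t, ht⟩ : ∃ t, t = 0 - u := ⟨_, rfl⟩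
  have hs0 : 0 ≤ s := by linarith
  have ht0 : 0 ≤ t := by linarith
  have h : 0 ≤
      1668587 / 7500000 * t ^ 4 + 1635587 / 3750000 * s * t ^ 3 +
      1435029 / 2500000 * s ^ 2 * t ^ 2 + 1407 / 2500 * s ^ 3 * t + 201 / 1250 * s ^ 4 := by
    positivity
  have e :
      1668587 / 7500000 * t ^ 4 + 1635587 / 3750000 * s * t ^ 3 +
      1435029 / 2500000 * s ^ 2 * t ^ 2 + 1407 / 2500 * s ^ 3 * t + 201 / 1250 * s ^ 4 =
      (1 + 1 / 100 + (1 / 100) ^ 2 / 2) * (1 + u + 229 / 500 * u ^ 2) -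
      (1 + u + u ^ 2 / 2 + u ^ 3 / 6 + u ^ 4 / 24) := by
    rw [hs, ht]
    ring
  rw [e] at h
  linarith

theorem ev_eight_e22_b0 (u : ℝ) (h1 : -2 ≤ u) (h2 : u ≤ -1) :
    36788 / 100000 *
      (1 + (u + 1) + (u + 1) ^ 2 / 2 + (u + 1) ^ 3 / 6 + (u + 1) ^ 4 / 24) ≤
      (1 + 1 / 100 + (1 / 100) ^ 2 / 2) * (1 + u + 229 / 500 * u ^ 2) := by
  obtain ⟨s, hs⟩ : ∃ s, s = u - (-2) := ⟨_, rfl⟩
  obtain ⟨t, ht⟩ : ∃ t, t = -1 - u := ⟨_, rfl⟩
  have hs0 : 0 ≤ s := by linarith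
  have ht0 : 0 ≤ t := by linarith
  have h : 0 ≤
      3512033 / 5000000 * t ^ 4 + 6924893 / 3750000 * s * t ^ 3 +
      16961077 / 10000000 * s ^ 2 * t ^ 2 + 3309637 / 5000000 * s ^ 3 * t +
      947229 / 10000000 * s ^ 4 := by
    positivity
  have e :
      3512033 / 5000000 * t ^ 4 + 6924893 / 3750000 * s * t ^ 3 +
      16961077 / 10000000 * s ^ 2 * t ^ 2 + 3309637 / 5000000 * s ^ 3 * t +
      947229 / 10000000 * s ^ 4 =
      (1 + 1 / 100 + (1 / 100) ^ 2 / 2) * (1 + u + 229 / 500 * u ^ 2) -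
      (36788 / 100000 *
      (1 + (u + 1) + (u + 1) ^ 2 / 2 + (u + 1) ^ 3 / 6 + (u + 1) ^ 4 / 24)) := by
    rw [hs, ht]
    ring
  rw [e] at h
  linarith

theorem ev_eight_e22_c0 (u : ℝ) (h1 : -3 ≤ u) (h2 : u ≤ -2) :
    13534 / 100000 *
      (1 + (u + 2) + (u + 2) ^ 2 / 2 + (u + 2) ^ 3 / 6 + (u + 2) ^ 4 / 24) ≤
      (1 + 1 / 100 + (1 / 100) ^ 2 / 2) * (1 + u + 229 / 500 * u ^ 2) := by
  obtain ⟨s, hs⟩ : ∃ s, s = u - (-3) := ⟨_, rfl⟩
  obtain ⟨t, ht⟩ : ∃ t, t = -2 - u := ⟨_, rfl⟩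
  have hs0 : 0 ≤ s := by linarith
  have ht0 : 0 ≤ t := by linarith
  have h : 0 ≤
      2615717 / 1250000 * t ^ 4 + 19678841 / 3000000 * s * t ^ 3 +
      75521673 / 10000000 * s ^ 2 * t ^ 2 + 948947 / 250000 * s ^ 3 * t +
      881277 / 1250000 * s ^ 4 := by
    positivity
  have e :
      2615717 / 1250000 * t ^ 4 + 19678841 / 3000000 * s * t ^ 3 +
      75521673 / 10000000 * s ^ 2 * t ^ 2 + 948947 / 250000 * s ^ 3 * t +
      881277 / 1250000 * s ^ 4 =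
      (1 + 1 / 100 + (1 / 100) ^ 2 / 2) * (1 + u + 229 / 500 * u ^ 2) -
      (13534 / 100000 *
      (1 + (u + 2) + (u + 2) ^ 2 / 2 + (u + 2) ^ 3 / 6 + (u + 2) ^ 4 / 24)) := by
    rw [hs, ht]
    ring
  rw [e] at h
  linarith

theorem ev_eight_e22_d (u : ℝ) (h2 : u ≤ -3) :
    4979 / 100000 ≤
      (1 + 1 / 100 + (1 / 100) ^ 2 / 2) * (1 + u + 229 / 500 * u ^ 2) := by
  obtain ⟨s, hs⟩ : ∃ s, s = -3 - u := ⟨_, rfl⟩
  have hs0 : 0 ≤ s := by linarith
  have h : 0 ≤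
      20935361 / 10000000 + 8827837 / 5000000 * s + 4626029 / 10000000 * s ^ 2 := by
    positivity
  have e :
      20935361 / 10000000 + 8827837 / 5000000 * s + 4626029 / 10000000 * s ^ 2 =
      (1 + 1 / 100 + (1 / 100) ^ 2 / 2) * (1 + u + 229 / 500 * u ^ 2) -
      (4979 / 100000) := by
    rw [hs]
    ring
  rw [e] at h
  linarith

theorem ev_eight_e22_e0 (u : ℝ) (h1 : 0 ≤ u) (h2 : u ≤ 1 / 5) :
    1 + u + u ^ 2 / 2 + u ^ 3 / 6 + u ^ 4 / 24 + u ^ 5 / 100 ≤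
      (1 + 1 / 100 + (1 / 100) ^ 2 / 2) * ((1 + 3 / 50 * u ^ 2) *
      (1 + u + 229 / 500 * u ^ 2)) := by
  obtain ⟨s, hs⟩ : ∃ s, s = u - (0) := ⟨_, rfl⟩
  obtain ⟨t, ht⟩ : ∃ t, t = 1 / 5 - u := ⟨_, rfl⟩
  have hs0 : 0 ≤ s := by linarith
  have ht0 : 0 ≤ t := by linarith
  have h : 0 ≤
      1005 / 32 * t ^ 5 + 2613 / 16 * s * t ^ 4 + 27367059 / 80000 * s ^ 2 * t ^ 3 +
      85872149 / 240000 * s ^ 3 * t ^ 2 + 55645718011 / 300000000 * s ^ 4 * t +
      3785709337 / 100000000 * s ^ 5 := by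
    positivity
  have e :
      1005 / 32 * t ^ 5 + 2613 / 16 * s * t ^ 4 + 27367059 / 80000 * s ^ 2 * t ^ 3 +
      85872149 / 240000 * s ^ 3 * t ^ 2 + 55645718011 / 300000000 * s ^ 4 * t +
      3785709337 / 100000000 * s ^ 5 =
      (1 + 1 / 100 + (1 / 100) ^ 2 / 2) * ((1 + 3 / 50 * u ^ 2) *
      (1 + u + 229 / 500 * u ^ 2)) -
      (1 + u + u ^ 2 / 2 + u ^ 3 / 6 + u ^ 4 / 24 + u ^ 5 / 100) := by
    rw [hs, ht]
    ring
  rw [e] at h
  linarith

theorem ev_eight_e22_g0 (u : ℝ) (h1 : 1 / 5 ≤ u) (h2 : u ≤ 11 / 10) :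
    122141 / 100000 * (1 + (u - 1 / 5) / 8) ^ 8 ≤
      (1 + 1 / 100 + (1 / 100) ^ 2 / 2) * ((1 + (3 / 50 * u ^ 2) + (3 / 50 * u ^ 2) ^ 2 / 2 +
      (3 / 50 * u ^ 2) ^ 3 / 6) *
      (1 + u + 229 / 500 * u ^ 2)) := by
  obtain ⟨s, hs⟩ : ∃ s, s = u - (1 / 5) := ⟨_, rfl⟩
  obtain ⟨t, ht⟩ : ∃ t, t = 11 / 10 - u := ⟨_, rfl⟩
  have hs0 : 0 ≤ s := by linarith
  have ht0 : 0 ≤ t := by linarith
  have h : 0 ≤
      3942388261156837 / 140126044921875000 * t ^ 8 +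
      4167876337342291 / 17515755615234375 * s * t ^ 7 +
      263148741646748753 / 280252089843750000 * s ^ 2 * t ^ 6 +
      2388134353229202007 / 1121008359375000000 * s ^ 3 * t ^ 5 +
      42226386233200455991 / 14348907000000000000 * s ^ 4 * t ^ 4 +
      716210288139785504083 / 286978140000000000000 * s ^ 5 * t ^ 3 +
      11563328052013779843679 / 9183300480000000000000 * s ^ 6 * t ^ 2 +
      25284410155602794163661 / 73466403840000000000000 * s ^ 7 * t +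
      367365492239721990057793 / 9403699691520000000000000 * s ^ 8 := by
    positivity
  have e :
      3942388261156837 / 140126044921875000 * t ^ 8 +
      4167876337342291 / 17515755615234375 * s * t ^ 7 +
      263148741646748753 / 280252089843750000 * s ^ 2 * t ^ 6 +
      2388134353229202007 / 1121008359375000000 * s ^ 3 * t ^ 5 +
      42226386233200455991 / 14348907000000000000 * s ^ 4 * t ^ 4 +
      716210288139785504083 / 286978140000000000000 * s ^ 5 * t ^ 3 +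
      11563328052013779843679 / 9183300480000000000000 * s ^ 6 * t ^ 2 +
      25284410155602794163661 / 73466403840000000000000 * s ^ 7 * t +
      367365492239721990057793 / 9403699691520000000000000 * s ^ 8 =
      (1 + 1 / 100 + (1 / 100) ^ 2 / 2) * ((1 + (3 / 50 * u ^ 2) + (3 / 50 * u ^ 2) ^ 2 / 2 +
      (3 / 50 * u ^ 2) ^ 3 / 6) *
      (1 + u + 229 / 500 * u ^ 2)) -
      (122141 / 100000 * (1 + (u - 1 / 5) / 8) ^ 8) := by
    rw [hs, ht]
    ring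
  rw [e] at h
  linarith

theorem ev_eight_e22_g1 (u : ℝ) (h1 : 11 / 10 ≤ u) (h2 : u ≤ 2) :
    122141 / 100000 * (1 + (u - 1 / 5) / 8) ^ 8 ≤
      (1 + 1 / 100 + (1 / 100) ^ 2 / 2) * ((1 + (3 / 50 * u ^ 2) + (3 / 50 * u ^ 2) ^ 2 / 2 +
      (3 / 50 * u ^ 2) ^ 3 / 6) *
      (1 + u + 229 / 500 * u ^ 2)) := by
  obtain ⟨s, hs⟩ : ∃ s, s = u - (11 / 10) := ⟨_, rfl⟩
  obtain ⟨t, ht⟩ : ∃ t, t = 2 - u := ⟨_, rfl⟩
  have hs0 : 0 ≤ s := by linarith
  have ht0 : 0 ≤ t := by linarith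
  have h : 0 ≤
      367365492239721990057793 / 9403699691520000000000000 * t ^ 8 +
      33018042198979927349701 / 117546246144000000000000 * s * t ^ 7 +
      19190300143176915762799 / 23509249228800000000000 * s ^ 2 * t ^ 6 +
      1417894863966880502443 / 1175462461440000000000 * s ^ 3 * t ^ 5 +
      86926641115564564951 / 94036996915200000000 * s ^ 4 * t ^ 4 +
      3839642781350313907 / 11754624614400000000 * s ^ 5 * t ^ 3 +
      137759736999161599 / 2350924922880000000 * s ^ 6 * t ^ 2 +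
      5614934871454189 / 117546246144000000 * s ^ 7 * t +
      2184786152159521 / 94036996915200000 * s ^ 8 := by
    positivity
  have e :
      367365492239721990057793 / 9403699691520000000000000 * t ^ 8 +
      33018042198979927349701 / 117546246144000000000000 * s * t ^ 7 +
      19190300143176915762799 / 23509249228800000000000 * s ^ 2 * t ^ 6 +
      1417894863966880502443 / 1175462461440000000000 * s ^ 3 * t ^ 5 +
      86926641115564564951 / 94036996915200000000 * s ^ 4 * t ^ 4 +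
      3839642781350313907 / 11754624614400000000 * s ^ 5 * t ^ 3 +
      137759736999161599 / 2350924922880000000 * s ^ 6 * t ^ 2 +
      5614934871454189 / 117546246144000000 * s ^ 7 * t +
      2184786152159521 / 94036996915200000 * s ^ 8 =
      (1 + 1 / 100 + (1 / 100) ^ 2 / 2) * ((1 + (3 / 50 * u ^ 2) + (3 / 50 * u ^ 2) ^ 2 / 2 +
      (3 / 50 * u ^ 2) ^ 3 / 6) *
      (1 + u + 229 / 500 * u ^ 2)) -
      (122141 / 100000 * (1 + (u - 1 / 5) / 8) ^ 8) := by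
    rw [hs, ht]
    ring
  rw [e] at h
  linarith

theorem ev_eight_e22_t (u : ℝ) (h1 : 2 ≤ u) :
    122141 / 100000 * (1 + (u - 1 / 5) / 8) ^ 8 ≤
      (1 + 1 / 100 + (1 / 100) ^ 2 / 2) * ((1 + (3 / 50 * u ^ 2) + (3 / 50 * u ^ 2) ^ 2 / 2 +
      (3 / 50 * u ^ 2) ^ 3 / 6) *
      (1 + u + 229 / 500 * u ^ 2)) := by
  obtain ⟨s, hs⟩ : ∃ s, s = u - (2) := ⟨_, rfl⟩
  have hs0 : 0 ≤ s := by linarith
  have h : 0 ≤
      6554358456478563 / 655360000000000000 + 5410975550047007 / 81920000000000000 * s +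
      32630339315082957 / 163840000000000000 * s ^ 2 +
      15618473924639441 / 81920000000000000 * s ^ 3 +
      5356024833789733 / 65536000000000000 * s ^ 4 +
      1550316616133129 / 81920000000000000 * s ^ 5 +
      499311342489277 / 163840000000000000 * s ^ 6 +
      24339531071543 / 81920000000000000 * s ^ 7 + 10866460387459 / 655360000000000000 * s ^ 8 := by
    positivity
  have e :
      6554358456478563 / 655360000000000000 + 5410975550047007 / 81920000000000000 * s +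
      32630339315082957 / 163840000000000000 * s ^ 2 +
      15618473924639441 / 81920000000000000 * s ^ 3 +
      5356024833789733 / 65536000000000000 * s ^ 4 +
      1550316616133129 / 81920000000000000 * s ^ 5 +
      499311342489277 / 163840000000000000 * s ^ 6 +
      24339531071543 / 81920000000000000 * s ^ 7 + 10866460387459 / 655360000000000000 * s ^ 8 =
      (1 + 1 / 100 + (1 / 100) ^ 2 / 2) * ((1 + (3 / 50 * u ^ 2) + (3 / 50 * u ^ 2) ^ 2 / 2 +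
      (3 / 50 * u ^ 2) ^ 3 / 6) *
      (1 + u + 229 / 500 * u ^ 2)) -
      (122141 / 100000 * (1 + (u - 1 / 5) / 8) ^ 8) := by
    rw [hs]
    ring
  rw [e] at h
  linarith

/-- `K = 8`: `(c, μ, P, δ) = (229 / 500, 3 / 50, 1 / 5, 1 / 100)` -/
theorem expFd_eight_e22 : ExpFd 8 (229 / 500) (3 / 50) (1 / 5) (1 / 100) := by
  have hde : (1 + 1 / 100 + (1 / 100) ^ 2 / 2) ≤ Real.exp (1 / 100) :=
    Real.quadratic_le_exp_of_nonneg (by norm_num)
  have hq : ∀ u : ℝ, 0 ≤ 1 + u + 229 / 500 * u ^ 2 := fun u => by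
    nlinarith [sq_nonneg (u + 2), sq_nonneg u]
  have hR : ∀ (u x y : ℝ), x ≤ y →
      y ≤ (1 + 1 / 100 + (1 / 100) ^ 2 / 2) * (1 + u + 229 / 500 * u ^ 2) →
      x ≤ Real.exp (1 / 100) * (1 + u + 229 / 500 * u ^ 2) := fun u x y h1 h2 =>
    (h1.trans h2).trans (mul_le_mul_of_nonneg_right hde (hq u))
  refine ExpFd.of (by norm_num) (by norm_num) (by norm_num) (by norm_num) (by norm_num) ?_ ?_ ?_
  · intro u h1
    rcases le_total u (-3) with h3 | h3
    · exact hR u _ _ (ev_exp_n3 h3) (ev_eight_e22_d u h3)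
    rcases le_total u (-2) with h4 | h4
    · refine hR u _ _ (ev_exp_n2 h4) ?_
      exact ev_eight_e22_c0 u (by linarith) (by linarith)
    rcases le_total u (-1) with h5 | h5
    · refine hR u _ _ (ev_exp_n1 h5) ?_
      exact ev_eight_e22_b0 u (by linarith) (by linarith)
    refine hR u _ _ (ev_exp_n0 h1) ?_
    rcases le_total u (-1 / 2) with hh | hh
    · exact ev_eight_e22_a0 u (by linarith) (by linarith)
    exact ev_eight_e22_a1 u (by linarith) (by linarith)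
  · intro u h1 h2
    have h5 := mul_le_mul_of_nonneg_right (Real.add_one_le_exp (3 / 50 * u ^ 2)) (hq u)
    rw [add_comm (3 / 50 * u ^ 2) 1] at h5
    have h6 : 0 ≤ Real.exp (3 / 50 * u ^ 2) * (1 + u + 229 / 500 * u ^ 2) :=
      mul_nonneg (Real.exp_nonneg _) (hq u)
    rw [Real.exp_add, mul_assoc]
    refine ((ev_exp_p h1 (by linarith)).trans ?_).trans
      ((mul_le_mul_of_nonneg_left h5
        (by norm_num : (0 : ℝ) ≤ (1 + 1 / 100 + (1 / 100) ^ 2 / 2))).trans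
        (mul_le_mul_of_nonneg_right hde h6))
    exact ev_eight_e22_e0 u (by linarith) (by linarith)
  · intro u h1
    have h4 : 0 ≤ (1 + (u - 1 / 5) / 8) ^ 8 := by
      have : 0 ≤ (u - 1 / 5) / 8 := div_nonneg (by linarith) (by norm_num)
      positivity
    have hE : Real.exp (1 / 5) ≤ 122141 / 100000 := ev_up_1_5
    have hx : 0 ≤ 3 / 50 * u ^ 2 := by positivity
    have h5 := mul_le_mul_of_nonneg_right (taylor3_le_expE _ hx) (hq u)
    have h6 : 0 ≤ Real.exp (3 / 50 * u ^ 2) * (1 + u + 229 / 500 * u ^ 2) :=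
      mul_nonneg (Real.exp_nonneg _) (hq u)
    rw [Real.exp_add, mul_assoc]
    push_cast
    refine ((mul_le_mul_of_nonneg_right hE h4).trans ?_).trans
      ((mul_le_mul_of_nonneg_left h5
        (by norm_num : (0 : ℝ) ≤ (1 + 1 / 100 + (1 / 100) ^ 2 / 2))).trans
        (mul_le_mul_of_nonneg_right hde h6))
    rcases le_total u (11 / 10) with hh | hh
    · exact ev_eight_e22_g0 u (by linarith) (by linarith)
    rcases le_total u (2) with hh | hh
    · exact ev_eight_e22_g1 u (by linarith) (by linarith)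
    exact ev_eight_e22_t u (by linarith)

end

end Pool.Agent.TSM
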