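import Pool.Agent.TSM.EvenDB

set_option autoImplicit false

/-!
# Constants of the even rule with a constant, K = 8, second part (MP_d27362_co, helper2)
-/

namespace Pool.Agent.TSM

noncomputable section


theorem ev_eight_e23_a0 (u : ℝ) (h1 : -1 ≤ u) (h2 : u ≤ 0) :
    1 + u + u ^ 2 / 2 + u ^ 3 / 6 + u ^ 4 / 24 ≤
      (1 + 1 / 50 + (1 / 50) ^ 2 / 2) * (1 + u + 89 / 200 * u ^ 2) := by
  obtain ⟨s, hs⟩ : ∃ s, s = u - (-1) := ⟨_, rfl⟩
  obtain ⟨t, ht⟩ : ∃ t, t = 0 - u := ⟨_, rfl⟩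
  have hs0 : 0 ≤ s := by linarith
  have ht0 : 0 ≤ t := by linarith
  have h : 0 ≤
      78989 / 1000000 * t ^ 4 + 142267 / 1500000 * s * t ^ 3 +
      14589 / 1000000 * s ^ 2 * t ^ 2 + 303 / 5000 * s ^ 3 * t + 101 / 5000 * s ^ 4 := by
    positivity
  have e :
      78989 / 1000000 * t ^ 4 + 142267 / 1500000 * s * t ^ 3 +
      14589 / 1000000 * s ^ 2 * t ^ 2 + 303 / 5000 * s ^ 3 * t + 101 / 5000 * s ^ 4 =
      (1 + 1 / 50 + (1 / 50) ^ 2 / 2) * (1 + u + 89 / 200 * u ^ 2) -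
      (1 + u + u ^ 2 / 2 + u ^ 3 / 6 + u ^ 4 / 24) := by
    rw [hs, ht]
    ring
  rw [e] at h
  linarith

theorem ev_eight_e23_b0 (u : ℝ) (h1 : -2 ≤ u) (h2 : u ≤ -1) :
    36788 / 100000 *
      (1 + (u + 1) + (u + 1) ^ 2 / 2 + (u + 1) ^ 3 / 6 + (u + 1) ^ 4 / 24) ≤
      (1 + 1 / 50 + (1 / 50) ^ 2 / 2) * (1 + u + 89 / 200 * u ^ 2) := by
  obtain ⟨s, hs⟩ : ∃ s, s = u - (-2) := ⟨_, rfl⟩
  obtain ⟨t, ht⟩ : ∃ t, t = -1 - u := ⟨_, rfl⟩
  have hs0 : 0 ≤ s := by linarith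
  have ht0 : 0 ≤ t := by linarith
  have h : 0 ≤
      657801 / 1000000 * t ^ 4 + 160577 / 93750 * s * t ^ 3 +
      1553677 / 1000000 * s ^ 2 * t ^ 2 + 300047 / 500000 * s ^ 3 * t +
      86109 / 1000000 * s ^ 4 := by
    positivity
  have e :
      657801 / 1000000 * t ^ 4 + 160577 / 93750 * s * t ^ 3 +
      1553677 / 1000000 * s ^ 2 * t ^ 2 + 300047 / 500000 * s ^ 3 * t +
      86109 / 1000000 * s ^ 4 =
      (1 + 1 / 50 + (1 / 50) ^ 2 / 2) * (1 + u + 89 / 200 * u ^ 2) -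
      (36788 / 100000 *
      (1 + (u + 1) + (u + 1) ^ 2 / 2 + (u + 1) ^ 3 / 6 + (u + 1) ^ 4 / 24)) := by
    rw [hs, ht]
    ring
  rw [e] at h
  linarith

theorem ev_eight_e23_c0 (u : ℝ) (h1 : -3 ≤ u) (h2 : u ≤ -2) :
    13534 / 100000 *
      (1 + (u + 2) + (u + 2) ^ 2 / 2 + (u + 2) ^ 3 / 6 + (u + 2) ^ 4 / 24) ≤
      (1 + 1 / 50 + (1 / 50) ^ 2 / 2) * (1 + u + 89 / 200 * u ^ 2) := by
  obtain ⟨s, hs⟩ : ∃ s, s = u - (-3) := ⟨_, rfl⟩
  obtain ⟨t, ht⟩ : ∃ t, t = -2 - u := ⟨_, rfl⟩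
  have hs0 : 0 ≤ s := by linarith
  have ht0 : 0 ≤ t := by linarith
  have h : 0 ≤
      3989497 / 2000000 * t ^ 4 + 467261 / 75000 * s * t ^ 3 +
      7142103 / 1000000 * s ^ 2 * t ^ 2 + 89319 / 25000 * s ^ 3 * t + 10319 / 15625 * s ^ 4 := by
    positivity
  have e :
      3989497 / 2000000 * t ^ 4 + 467261 / 75000 * s * t ^ 3 +
      7142103 / 1000000 * s ^ 2 * t ^ 2 + 89319 / 25000 * s ^ 3 * t + 10319 / 15625 * s ^ 4 =
      (1 + 1 / 50 + (1 / 50) ^ 2 / 2) * (1 + u + 89 / 200 * u ^ 2) -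
      (13534 / 100000 *
      (1 + (u + 2) + (u + 2) ^ 2 / 2 + (u + 2) ^ 3 / 6 + (u + 2) ^ 4 / 24)) := by
    rw [hs, ht]
    ring
  rw [e] at h
  linarith

theorem ev_eight_e23_d (u : ℝ) (h2 : u ≤ -3) :
    4979 / 100000 ≤
      (1 + 1 / 50 + (1 / 50) ^ 2 / 2) * (1 + u + 89 / 200 * u ^ 2) := by
  obtain ⟨s, hs⟩ : ∃ s, s = -3 - u := ⟨_, rfl⟩
  have hs0 : 0 ≤ s := by linarith
  have h : 0 ≤
      1995711 / 1000000 + 851867 / 500000 * s + 453989 / 1000000 * s ^ 2 := by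
    positivity
  have e :
      1995711 / 1000000 + 851867 / 500000 * s + 453989 / 1000000 * s ^ 2 =
      (1 + 1 / 50 + (1 / 50) ^ 2 / 2) * (1 + u + 89 / 200 * u ^ 2) -
      (4979 / 100000) := by
    rw [hs]
    ring
  rw [e] at h
  linarith

theorem ev_eight_e23_e0 (u : ℝ) (h1 : 0 ≤ u) (h2 : u ≤ 1 / 5) :
    1 + u + u ^ 2 / 2 + u ^ 3 / 6 + u ^ 4 / 24 + u ^ 5 / 100 ≤
      (1 + 1 / 50 + (1 / 50) ^ 2 / 2) * ((1 + 3 / 50 * u ^ 2) *
      (1 + u + 89 / 200 * u ^ 2)) := by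
  obtain ⟨s, hs⟩ : ∃ s, s = u - (0) := ⟨_, rfl⟩
  obtain ⟨t, ht⟩ : ∃ t, t = 1 / 5 - u := ⟨_, rfl⟩
  have hs0 : 0 ≤ s := by linarith
  have ht0 : 0 ≤ t := by linarith
  have h : 0 ≤
      505 / 8 * t ^ 5 + 1313 / 4 * s * t ^ 4 + 5469201 / 8000 * s ^ 2 * t ^ 3 +
      85207681 / 120000 * s ^ 3 * t ^ 2 + 10994415151 / 30000000 * s ^ 4 * t +
      749316217 / 10000000 * s ^ 5 := by
    positivity
  have e :
      505 / 8 * t ^ 5 + 1313 / 4 * s * t ^ 4 + 5469201 / 8000 * s ^ 2 * t ^ 3 +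
      85207681 / 120000 * s ^ 3 * t ^ 2 + 10994415151 / 30000000 * s ^ 4 * t +
      749316217 / 10000000 * s ^ 5 =
      (1 + 1 / 50 + (1 / 50) ^ 2 / 2) * ((1 + 3 / 50 * u ^ 2) *
      (1 + u + 89 / 200 * u ^ 2)) -
      (1 + u + u ^ 2 / 2 + u ^ 3 / 6 + u ^ 4 / 24 + u ^ 5 / 100) := by
    rw [hs, ht]
    ring
  rw [e] at h
  linarith

theorem ev_eight_e23_g0 (u : ℝ) (h1 : 1 / 5 ≤ u) (h2 : u ≤ 11 / 10) :
    122141 / 100000 * (1 + (u - 1 / 5) / 8) ^ 8 ≤
      (1 + 1 / 50 + (1 / 50) ^ 2 / 2) * ((1 + (3 / 50 * u ^ 2) + (3 / 50 * u ^ 2) ^ 2 / 2 +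
      (3 / 50 * u ^ 2) ^ 3 / 6) *
      (1 + u + 89 / 200 * u ^ 2)) := by
  obtain ⟨s, hs⟩ : ∃ s, s = u - (1 / 5) := ⟨_, rfl⟩
  obtain ⟨t, ht⟩ : ∃ t, t = 11 / 10 - u := ⟨_, rfl⟩
  have hs0 : 0 ≤ s := by linarith
  have ht0 : 0 ≤ t := by linarith
  have h : 0 ≤
      780432940013717 / 14012604492187500 * t ^ 8 +
      3314543443300649 / 7006302246093750 * s * t ^ 7 +
      25202944513898549 / 14012604492187500 * s ^ 2 * t ^ 6 +
      873059127264145999 / 224201671875000000 * s ^ 3 * t ^ 5 +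
      14827548515139675787 / 2869781400000000000 * s ^ 4 * t ^ 4 +
      244528338636383136631 / 57395628000000000000 * s ^ 5 * t ^ 3 +
      3891171091780240464403 / 1836660096000000000000 * s ^ 6 * t ^ 2 +
      8498355222905310791977 / 14693280768000000000000 * s ^ 7 * t +
      124645149696398891705101 / 1880739938304000000000000 * s ^ 8 := by
    positivity
  have e :
      780432940013717 / 14012604492187500 * t ^ 8 +
      3314543443300649 / 7006302246093750 * s * t ^ 7 +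
      25202944513898549 / 14012604492187500 * s ^ 2 * t ^ 6 +
      873059127264145999 / 224201671875000000 * s ^ 3 * t ^ 5 +
      14827548515139675787 / 2869781400000000000 * s ^ 4 * t ^ 4 +
      244528338636383136631 / 57395628000000000000 * s ^ 5 * t ^ 3 +
      3891171091780240464403 / 1836660096000000000000 * s ^ 6 * t ^ 2 +
      8498355222905310791977 / 14693280768000000000000 * s ^ 7 * t +
      124645149696398891705101 / 1880739938304000000000000 * s ^ 8 =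
      (1 + 1 / 50 + (1 / 50) ^ 2 / 2) * ((1 + (3 / 50 * u ^ 2) + (3 / 50 * u ^ 2) ^ 2 / 2 +
      (3 / 50 * u ^ 2) ^ 3 / 6) *
      (1 + u + 89 / 200 * u ^ 2)) -
      (122141 / 100000 * (1 + (u - 1 / 5) / 8) ^ 8) := by
    rw [hs, ht]
    ring
  rw [e] at h
  linarith

theorem ev_eight_e23_g1 (u : ℝ) (h1 : 11 / 10 ≤ u) (h2 : u ≤ 2) :
    122141 / 100000 * (1 + (u - 1 / 5) / 8) ^ 8 ≤
      (1 + 1 / 50 + (1 / 50) ^ 2 / 2) * ((1 + (3 / 50 * u ^ 2) + (3 / 50 * u ^ 2) ^ 2 / 2 +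
      (3 / 50 * u ^ 2) ^ 3 / 6) *
      (1 + u + 89 / 200 * u ^ 2)) := by
  obtain ⟨s, hs⟩ : ∃ s, s = u - (11 / 10) := ⟨_, rfl⟩
  obtain ⟨t, ht⟩ : ∃ t, t = 2 - u := ⟨_, rfl⟩
  have hs0 : 0 ≤ s := by linarith
  have ht0 : 0 ≤ t := by linarith
  have h : 0 ≤
      124645149696398891705101 / 1880739938304000000000000 * t ^ 8 +
      11331661582631281073857 / 23509249228800000000000 * s * t ^ 7 +
      6789408511333312918243 / 4701849845760000000000 * s ^ 2 * t ^ 6 +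
      533589685333424256751 / 235092492288000000000 * s ^ 3 * t ^ 5 +
      36854045405303057707 / 18807399383040000000 * s ^ 4 * t ^ 4 +
      2048250396878874199 / 2350924922880000000 * s ^ 5 * t ^ 3 +
      76193708890281523 / 470184984576000000 * s ^ 6 * t ^ 2 +
      476963414464201 / 23509249228800000 * s ^ 7 * t +
      1072523538233633 / 94036996915200000 * s ^ 8 := by
    positivity
  have e :
      124645149696398891705101 / 1880739938304000000000000 * t ^ 8 +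
      11331661582631281073857 / 23509249228800000000000 * s * t ^ 7 +
      6789408511333312918243 / 4701849845760000000000 * s ^ 2 * t ^ 6 +
      533589685333424256751 / 235092492288000000000 * s ^ 3 * t ^ 5 +
      36854045405303057707 / 18807399383040000000 * s ^ 4 * t ^ 4 +
      2048250396878874199 / 2350924922880000000 * s ^ 5 * t ^ 3 +
      76193708890281523 / 470184984576000000 * s ^ 6 * t ^ 2 +
      476963414464201 / 23509249228800000 * s ^ 7 * t +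
      1072523538233633 / 94036996915200000 * s ^ 8 =
      (1 + 1 / 50 + (1 / 50) ^ 2 / 2) * ((1 + (3 / 50 * u ^ 2) + (3 / 50 * u ^ 2) ^ 2 / 2 +
      (3 / 50 * u ^ 2) ^ 3 / 6) *
      (1 + u + 89 / 200 * u ^ 2)) -
      (122141 / 100000 * (1 + (u - 1 / 5) / 8) ^ 8) := by
    rw [hs, ht]
    ring
  rw [e] at h
  linarith

theorem ev_eight_e23_t (u : ℝ) (h1 : 2 ≤ u) :
    122141 / 100000 * (1 + (u - 1 / 5) / 8) ^ 8 ≤
      (1 + 1 / 50 + (1 / 50) ^ 2 / 2) * ((1 + (3 / 50 * u ^ 2) + (3 / 50 * u ^ 2) ^ 2 / 2 +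
      (3 / 50 * u ^ 2) ^ 3 / 6) *
      (1 + u + 89 / 200 * u ^ 2)) := by
  obtain ⟨s, hs⟩ : ∃ s, s = u - (2) := ⟨_, rfl⟩
  have hs0 : 0 ≤ s := by linarith
  have h : 0 ≤
      3217570614700899 / 655360000000000000 + 111205577466871 / 3276800000000000 * s +
      5910078748814889 / 32768000000000000 * s ^ 2 +
      3034858654246237 / 16384000000000000 * s ^ 3 +
      1051947322629281 / 13107200000000000 * s ^ 4 +
      305612825580853 / 16384000000000000 * s ^ 5 +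
      98395727980889 / 32768000000000000 * s ^ 6 +
      4792601968651 / 16384000000000000 * s ^ 7 + 2132646597863 / 131072000000000000 * s ^ 8 := by
    positivity
  have e :
      3217570614700899 / 655360000000000000 + 111205577466871 / 3276800000000000 * s +
      5910078748814889 / 32768000000000000 * s ^ 2 +
      3034858654246237 / 16384000000000000 * s ^ 3 +
      1051947322629281 / 13107200000000000 * s ^ 4 +
      305612825580853 / 16384000000000000 * s ^ 5 +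
      98395727980889 / 32768000000000000 * s ^ 6 +
      4792601968651 / 16384000000000000 * s ^ 7 + 2132646597863 / 131072000000000000 * s ^ 8 =
      (1 + 1 / 50 + (1 / 50) ^ 2 / 2) * ((1 + (3 / 50 * u ^ 2) + (3 / 50 * u ^ 2) ^ 2 / 2 +
      (3 / 50 * u ^ 2) ^ 3 / 6) *
      (1 + u + 89 / 200 * u ^ 2)) -
      (122141 / 100000 * (1 + (u - 1 / 5) / 8) ^ 8) := by
    rw [hs]
    ring
  rw [e] at h
  linarith

/-- `K = 8`: `(c, μ, P, δ) = (89 / 200, 3 / 50, 1 / 5, 1 / 50)` -/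
theorem expFd_eight_e23 : ExpFd 8 (89 / 200) (3 / 50) (1 / 5) (1 / 50) := by
  have hde : (1 + 1 / 50 + (1 / 50) ^ 2 / 2) ≤ Real.exp (1 / 50) :=
    Real.quadratic_le_exp_of_nonneg (by norm_num)
  have hq : ∀ u : ℝ, 0 ≤ 1 + u + 89 / 200 * u ^ 2 := fun u => by
    nlinarith [sq_nonneg (u + 2), sq_nonneg u]
  have hR : ∀ (u x y : ℝ), x ≤ y →
      y ≤ (1 + 1 / 50 + (1 / 50) ^ 2 / 2) * (1 + u + 89 / 200 * u ^ 2) →
      x ≤ Real.exp (1 / 50) * (1 + u + 89 / 200 * u ^ 2) := fun u x y h1 h2 =>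
    (h1.trans h2).trans (mul_le_mul_of_nonneg_right hde (hq u))
  refine ExpFd.of (by norm_num) (by norm_num) (by norm_num) (by norm_num) (by norm_num) ?_ ?_ ?_
  · intro u h1
    rcases le_total u (-3) with h3 | h3
    · exact hR u _ _ (ev_exp_n3 h3) (ev_eight_e23_d u h3)
    rcases le_total u (-2) with h4 | h4
    · refine hR u _ _ (ev_exp_n2 h4) ?_
      exact ev_eight_e23_c0 u (by linarith) (by linarith)
    rcases le_total u (-1) with h5 | h5
    · refine hR u _ _ (ev_exp_n1 h5) ?_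
      exact ev_eight_e23_b0 u (by linarith) (by linarith)
    refine hR u _ _ (ev_exp_n0 h1) ?_
    exact ev_eight_e23_a0 u (by linarith) (by linarith)
  · intro u h1 h2
    have h5 := mul_le_mul_of_nonneg_right (Real.add_one_le_exp (3 / 50 * u ^ 2)) (hq u)
    rw [add_comm (3 / 50 * u ^ 2) 1] at h5
    have h6 : 0 ≤ Real.exp (3 / 50 * u ^ 2) * (1 + u + 89 / 200 * u ^ 2) :=
      mul_nonneg (Real.exp_nonneg _) (hq u)
    rw [Real.exp_add, mul_assoc]
    refine ((ev_exp_p h1 (by linarith)).trans ?_).trans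
      ((mul_le_mul_of_nonneg_left h5
        (by norm_num : (0 : ℝ) ≤ (1 + 1 / 50 + (1 / 50) ^ 2 / 2))).trans
        (mul_le_mul_of_nonneg_right hde h6))
    exact ev_eight_e23_e0 u (by linarith) (by linarith)
  · intro u h1
    have h4 : 0 ≤ (1 + (u - 1 / 5) / 8) ^ 8 := by
      have : 0 ≤ (u - 1 / 5) / 8 := div_nonneg (by linarith) (by norm_num)
      positivity
    have hE : Real.exp (1 / 5) ≤ 122141 / 100000 := ev_up_1_5
    have hx : 0 ≤ 3 / 50 * u ^ 2 := by positivity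
    have h5 := mul_le_mul_of_nonneg_right (taylor3_le_expE _ hx) (hq u)
    have h6 : 0 ≤ Real.exp (3 / 50 * u ^ 2) * (1 + u + 89 / 200 * u ^ 2) :=
      mul_nonneg (Real.exp_nonneg _) (hq u)
    rw [Real.exp_add, mul_assoc]
    push_cast
    refine ((mul_le_mul_of_nonneg_right hE h4).trans ?_).trans
      ((mul_le_mul_of_nonneg_left h5
        (by norm_num : (0 : ℝ) ≤ (1 + 1 / 50 + (1 / 50) ^ 2 / 2))).trans
        (mul_le_mul_of_nonneg_right hde h6))
    rcases le_total u (11 / 10) with hh | hh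
    · exact ev_eight_e23_g0 u (by linarith) (by linarith)
    rcases le_total u (2) with hh | hh
    · exact ev_eight_e23_g1 u (by linarith) (by linarith)
    exact ev_eight_e23_t u (by linarith)

theorem ev_eight_e24_a0 (u : ℝ) (h1 : -1 ≤ u) (h2 : u ≤ -1 / 2) :
    1 + u + u ^ 2 / 2 + u ^ 3 / 6 + u ^ 4 / 24 ≤
      (1 + 1 / 20 + (1 / 20) ^ 2 / 2) * (1 + u + 183 / 500 * u ^ 2) := by
  obtain ⟨s, hs⟩ : ∃ s, s = u - (-1) := ⟨_, rfl⟩
  obtain ⟨t, ht⟩ : ∃ t, t = -1 / 2 - u := ⟨_, rfl⟩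
  have hs0 : 0 ≤ s := by linarith
  have ht0 : 0 ≤ t := by linarith
  have h : 0 ≤
      3903 / 25000 * t ^ 4 + 15877 / 75000 * s * t ^ 3 + 23739 / 100000 * s ^ 2 * t ^ 2 +
      23209 / 50000 * s ^ 3 * t + 72209 / 300000 * s ^ 4 := by
    positivity
  have e :
      3903 / 25000 * t ^ 4 + 15877 / 75000 * s * t ^ 3 + 23739 / 100000 * s ^ 2 * t ^ 2 +
      23209 / 50000 * s ^ 3 * t + 72209 / 300000 * s ^ 4 =
      (1 + 1 / 20 + (1 / 20) ^ 2 / 2) * (1 + u + 183 / 500 * u ^ 2) -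
      (1 + u + u ^ 2 / 2 + u ^ 3 / 6 + u ^ 4 / 24) := by
    rw [hs, ht]
    ring
  rw [e] at h
  linarith

theorem ev_eight_e24_a1 (u : ℝ) (h1 : -1 / 2 ≤ u) (h2 : u ≤ 0) :
    1 + u + u ^ 2 / 2 + u ^ 3 / 6 + u ^ 4 / 24 ≤
      (1 + 1 / 20 + (1 / 20) ^ 2 / 2) * (1 + u + 183 / 500 * u ^ 2) := by
  obtain ⟨s, hs⟩ : ∃ s, s = u - (-1 / 2) := ⟨_, rfl⟩
  obtain ⟨t, ht⟩ : ∃ t, t = 0 - u := ⟨_, rfl⟩
  have hs0 : 0 ≤ s := by linarith
  have ht0 : 0 ≤ t := by linarith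
  have h : 0 ≤
      72209 / 300000 * t ^ 4 + 219209 / 150000 * s * t ^ 3 +
      322903 / 100000 * s ^ 2 * t ^ 2 + 287 / 100 * s ^ 3 * t + 41 / 50 * s ^ 4 := by
    positivity
  have e :
      72209 / 300000 * t ^ 4 + 219209 / 150000 * s * t ^ 3 +
      322903 / 100000 * s ^ 2 * t ^ 2 + 287 / 100 * s ^ 3 * t + 41 / 50 * s ^ 4 =
      (1 + 1 / 20 + (1 / 20) ^ 2 / 2) * (1 + u + 183 / 500 * u ^ 2) -
      (1 + u + u ^ 2 / 2 + u ^ 3 / 6 + u ^ 4 / 24) := by
    rw [hs, ht]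
    ring
  rw [e] at h
  linarith

theorem ev_eight_e24_b0 (u : ℝ) (h1 : -2 ≤ u) (h2 : u ≤ -1) :
    36788 / 100000 *
      (1 + (u + 1) + (u + 1) ^ 2 / 2 + (u + 1) ^ 3 / 6 + (u + 1) ^ 4 / 24) ≤
      (1 + 1 / 20 + (1 / 20) ^ 2 / 2) * (1 + u + 183 / 500 * u ^ 2) := by
  obtain ⟨s, hs⟩ : ∃ s, s = u - (-2) := ⟨_, rfl⟩
  obtain ⟨t, ht⟩ : ∃ t, t = -1 - u := ⟨_, rfl⟩
  have hs0 : 0 ≤ s := by linarith
  have ht0 : 0 ≤ t := by linarith
  have h : 0 ≤
      13993 / 40000 * t ^ 4 + 59167 / 75000 * s * t ^ 3 + 224207 / 400000 * s ^ 2 * t ^ 2 +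
      30731 / 200000 * s ^ 3 * t + 6751 / 400000 * s ^ 4 := by
    positivity
  have e :
      13993 / 40000 * t ^ 4 + 59167 / 75000 * s * t ^ 3 + 224207 / 400000 * s ^ 2 * t ^ 2 +
      30731 / 200000 * s ^ 3 * t + 6751 / 400000 * s ^ 4 =
      (1 + 1 / 20 + (1 / 20) ^ 2 / 2) * (1 + u + 183 / 500 * u ^ 2) -
      (36788 / 100000 *
      (1 + (u + 1) + (u + 1) ^ 2 / 2 + (u + 1) ^ 3 / 6 + (u + 1) ^ 4 / 24)) := by
    rw [hs, ht]
    ring
  rw [e] at h
  linarith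

theorem ev_eight_e24_c0 (u : ℝ) (h1 : -3 ≤ u) (h2 : u ≤ -2) :
    13534 / 100000 *
      (1 + (u + 2) + (u + 2) ^ 2 / 2 + (u + 2) ^ 3 / 6 + (u + 2) ^ 4 / 24) ≤
      (1 + 1 / 20 + (1 / 20) ^ 2 / 2) * (1 + u + 183 / 500 * u ^ 2) := by
  obtain ⟨s, hs⟩ : ∃ s, s = u - (-3) := ⟨_, rfl⟩
  obtain ⟨t, ht⟩ : ∃ t, t = -2 - u := ⟨_, rfl⟩
  have hs0 : 0 ≤ s := by linarith
  have ht0 : 0 ≤ t := by linarith
  have h : 0 ≤
      261913 / 200000 * t ^ 4 + 2361511 / 600000 * s * t ^ 3 +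
      344087 / 80000 * s ^ 2 * t ^ 2 + 25411 / 12500 * s ^ 3 * t + 8811 / 25000 * s ^ 4 := by
    positivity
  have e :
      261913 / 200000 * t ^ 4 + 2361511 / 600000 * s * t ^ 3 +
      344087 / 80000 * s ^ 2 * t ^ 2 + 25411 / 12500 * s ^ 3 * t + 8811 / 25000 * s ^ 4 =
      (1 + 1 / 20 + (1 / 20) ^ 2 / 2) * (1 + u + 183 / 500 * u ^ 2) -
      (13534 / 100000 *
      (1 + (u + 2) + (u + 2) ^ 2 / 2 + (u + 2) ^ 3 / 6 + (u + 2) ^ 4 / 24)) := by
    rw [hs, ht]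
    ring
  rw [e] at h
  linarith

theorem ev_eight_e24_d (u : ℝ) (h2 : u ≤ -3) :
    4979 / 100000 ≤
      (1 + 1 / 20 + (1 / 20) ^ 2 / 2) * (1 + u + 183 / 500 * u ^ 2) := by
  obtain ⟨s, hs⟩ : ∃ s, s = -3 - u := ⟨_, rfl⟩
  have hs0 : 0 ≤ s := by linarith
  have h : 0 ≤
      524211 / 400000 + 251459 / 200000 * s + 153903 / 400000 * s ^ 2 := by
    positivity
  have e :
      524211 / 400000 + 251459 / 200000 * s + 153903 / 400000 * s ^ 2 =
      (1 + 1 / 20 + (1 / 20) ^ 2 / 2) * (1 + u + 183 / 500 * u ^ 2) -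
      (4979 / 100000) := by
    rw [hs]
    ring
  rw [e] at h
  linarith

theorem ev_eight_e24_e0 (u : ℝ) (h1 : 0 ≤ u) (h2 : u ≤ 1 / 5) :
    1 + u + u ^ 2 / 2 + u ^ 3 / 6 + u ^ 4 / 24 + u ^ 5 / 100 ≤
      (1 + 1 / 20 + (1 / 20) ^ 2 / 2) * ((1 + 7 / 100 * u ^ 2) *
      (1 + u + 183 / 500 * u ^ 2)) := by
  obtain ⟨s, hs⟩ : ∃ s, s = u - (0) := ⟨_, rfl⟩
  obtain ⟨t, ht⟩ : ∃ t, t = 1 / 5 - u := ⟨_, rfl⟩
  have hs0 : 0 ≤ s := by linarith
  have ht0 : 0 ≤ t := by linarith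
  have h : 0 ≤
      5125 / 32 * t ^ 5 + 13325 / 16 * s * t ^ 4 + 2759169 / 1600 * s ^ 2 * t ^ 3 +
      17047703 / 9600 * s ^ 3 * t ^ 2 + 21805391963 / 24000000 * s ^ 4 * t +
      1476559821 / 8000000 * s ^ 5 := by
    positivity
  have e :
      5125 / 32 * t ^ 5 + 13325 / 16 * s * t ^ 4 + 2759169 / 1600 * s ^ 2 * t ^ 3 +
      17047703 / 9600 * s ^ 3 * t ^ 2 + 21805391963 / 24000000 * s ^ 4 * t +
      1476559821 / 8000000 * s ^ 5 =
      (1 + 1 / 20 + (1 / 20) ^ 2 / 2) * ((1 + 7 / 100 * u ^ 2) *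
      (1 + u + 183 / 500 * u ^ 2)) -
      (1 + u + u ^ 2 / 2 + u ^ 3 / 6 + u ^ 4 / 24 + u ^ 5 / 100) := by
    rw [hs, ht]
    ring
  rw [e] at h
  linarith

theorem ev_eight_e24_g0 (u : ℝ) (h1 : 1 / 5 ≤ u) (h2 : u ≤ 11 / 10) :
    122141 / 100000 * (1 + (u - 1 / 5) / 8) ^ 8 ≤
      (1 + 1 / 20 + (1 / 20) ^ 2 / 2) * ((1 + (7 / 100 * u ^ 2) + (7 / 100 * u ^ 2) ^ 2 / 2 +
      (7 / 100 * u ^ 2) ^ 3 / 6) *
      (1 + u + 183 / 500 * u ^ 2)) := by
  obtain ⟨s, hs⟩ : ∃ s, s = u - (1 / 5) := ⟨_, rfl⟩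
  obtain ⟨t, ht⟩ : ∃ t, t = 11 / 10 - u := ⟨_, rfl⟩
  have hs0 : 0 ≤ s := by linarith
  have ht0 : 0 ≤ t := by linarith
  have h : 0 ≤
      18456438413028743 / 134521003125000000 * t ^ 8 +
      77056659962116721 / 67260501562500000 * s * t ^ 7 +
      69474629263846837 / 16815125390625000 * s ^ 2 * t ^ 6 +
      2247886742605607687 / 269042006250000000 * s ^ 3 * t ^ 5 +
      17756194011059658853 / 1721868840000000000 * s ^ 4 * t ^ 4 +
      272700214594387514689 / 34437376800000000000 * s ^ 5 * t ^ 3 +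
      4052830383239669070757 / 1101996057600000000000 * s ^ 6 * t ^ 2 +
      8290480531502710062463 / 8815968460800000000000 * s ^ 7 * t +
      114178569490536323778619 / 1128443962982400000000000 * s ^ 8 := by
    positivity
  have e :
      18456438413028743 / 134521003125000000 * t ^ 8 +
      77056659962116721 / 67260501562500000 * s * t ^ 7 +
      69474629263846837 / 16815125390625000 * s ^ 2 * t ^ 6 +
      2247886742605607687 / 269042006250000000 * s ^ 3 * t ^ 5 +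
      17756194011059658853 / 1721868840000000000 * s ^ 4 * t ^ 4 +
      272700214594387514689 / 34437376800000000000 * s ^ 5 * t ^ 3 +
      4052830383239669070757 / 1101996057600000000000 * s ^ 6 * t ^ 2 +
      8290480531502710062463 / 8815968460800000000000 * s ^ 7 * t +
      114178569490536323778619 / 1128443962982400000000000 * s ^ 8 =
      (1 + 1 / 20 + (1 / 20) ^ 2 / 2) * ((1 + (7 / 100 * u ^ 2) + (7 / 100 * u ^ 2) ^ 2 / 2 +
      (7 / 100 * u ^ 2) ^ 3 / 6) *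
      (1 + u + 183 / 500 * u ^ 2)) -
      (122141 / 100000 * (1 + (u - 1 / 5) / 8) ^ 8) := by
    rw [hs, ht]
    ring
  rw [e] at h
  linarith

theorem ev_eight_e24_g1 (u : ℝ) (h1 : 11 / 10 ≤ u) (h2 : u ≤ 2) :
    122141 / 100000 * (1 + (u - 1 / 5) / 8) ^ 8 ≤
      (1 + 1 / 20 + (1 / 20) ^ 2 / 2) * ((1 + (7 / 100 * u ^ 2) + (7 / 100 * u ^ 2) ^ 2 / 2 +
      (7 / 100 * u ^ 2) ^ 3 / 6) *
      (1 + u + 183 / 500 * u ^ 2)) := by
  obtain ⟨s, hs⟩ : ∃ s, s = u - (11 / 10) := ⟨_, rfl⟩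
  obtain ⟨t, ht⟩ : ∃ t, t = 2 - u := ⟨_, rfl⟩
  have hs0 : 0 ≤ s := by linarith
  have ht0 : 0 ≤ t := by linarith
  have h : 0 ≤
      114178569490536323778619 / 1128443962982400000000000 * t ^ 8 +
      9570945047702928655783 / 14105549537280000000000 * s * t ^ 7 +
      5203892457311582399317 / 2821109907456000000000 * s ^ 2 * t ^ 6 +
      359761446807912240169 / 141055495372800000000 * s ^ 3 * t ^ 5 +
      20333673153879789133 / 11284439629824000000 * s ^ 4 * t ^ 4 +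
      742163558006757121 / 1410554953728000000 * s ^ 5 * t ^ 3 +
      1179612422956673 / 56422198149120000 * s ^ 6 * t ^ 2 +
      3272257129120859 / 70527747686400000 * s ^ 7 * t +
      9295940200917859 / 282110990745600000 * s ^ 8 := by
    positivity
  have e :
      114178569490536323778619 / 1128443962982400000000000 * t ^ 8 +
      9570945047702928655783 / 14105549537280000000000 * s * t ^ 7 +
      5203892457311582399317 / 2821109907456000000000 * s ^ 2 * t ^ 6 +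
      359761446807912240169 / 141055495372800000000 * s ^ 3 * t ^ 5 +
      20333673153879789133 / 11284439629824000000 * s ^ 4 * t ^ 4 +
      742163558006757121 / 1410554953728000000 * s ^ 5 * t ^ 3 +
      1179612422956673 / 56422198149120000 * s ^ 6 * t ^ 2 +
      3272257129120859 / 70527747686400000 * s ^ 7 * t +
      9295940200917859 / 282110990745600000 * s ^ 8 =
      (1 + 1 / 20 + (1 / 20) ^ 2 / 2) * ((1 + (7 / 100 * u ^ 2) + (7 / 100 * u ^ 2) ^ 2 / 2 +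
      (7 / 100 * u ^ 2) ^ 3 / 6) *
      (1 + u + 183 / 500 * u ^ 2)) -
      (122141 / 100000 * (1 + (u - 1 / 5) / 8) ^ 8) := by
    rw [hs, ht]
    ring
  rw [e] at h
  linarith

theorem ev_eight_e24_t (u : ℝ) (h1 : 2 ≤ u) :
    122141 / 100000 * (1 + (u - 1 / 5) / 8) ^ 8 ≤
      (1 + 1 / 20 + (1 / 20) ^ 2 / 2) * ((1 + (7 / 100 * u ^ 2) + (7 / 100 * u ^ 2) ^ 2 / 2 +
      (7 / 100 * u ^ 2) ^ 3 / 6) *
      (1 + u + 183 / 500 * u ^ 2)) := by
  obtain ⟨s, hs⟩ : ∃ s, s = u - (2) := ⟨_, rfl⟩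
  have hs0 : 0 ≤ s := by linarith
  have h : 0 ≤
      9295940200917859 / 655360000000000000 + 5106541090904953 / 49152000000000000 * s +
      431015279321233 / 1310720000000000 * s ^ 2 +
      909867719427961 / 3276800000000000 * s ^ 3 +
      864179580234439 / 7864320000000000 * s ^ 4 +
      84126752601969 / 3276800000000000 * s ^ 5 + 26947120252997 / 6553600000000000 * s ^ 6 +
      3994225845869 / 9830400000000000 * s ^ 7 + 574685237499 / 26214400000000000 * s ^ 8 := by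
    positivity
  have e :
      9295940200917859 / 655360000000000000 + 5106541090904953 / 49152000000000000 * s +
      431015279321233 / 1310720000000000 * s ^ 2 +
      909867719427961 / 3276800000000000 * s ^ 3 +
      864179580234439 / 7864320000000000 * s ^ 4 +
      84126752601969 / 3276800000000000 * s ^ 5 + 26947120252997 / 6553600000000000 * s ^ 6 +
      3994225845869 / 9830400000000000 * s ^ 7 + 574685237499 / 26214400000000000 * s ^ 8 =
      (1 + 1 / 20 + (1 / 20) ^ 2 / 2) * ((1 + (7 / 100 * u ^ 2) + (7 / 100 * u ^ 2) ^ 2 / 2 +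
      (7 / 100 * u ^ 2) ^ 3 / 6) *
      (1 + u + 183 / 500 * u ^ 2)) -
      (122141 / 100000 * (1 + (u - 1 / 5) / 8) ^ 8) := by
    rw [hs]
    ring
  rw [e] at h
  linarith

/-- `K = 8`: `(c, μ, P, δ) = (183 / 500, 7 / 100, 1 / 5, 1 / 20)` -/
theorem expFd_eight_e24 : ExpFd 8 (183 / 500) (7 / 100) (1 / 5) (1 / 20) := by
  have hde : (1 + 1 / 20 + (1 / 20) ^ 2 / 2) ≤ Real.exp (1 / 20) :=
    Real.quadratic_le_exp_of_nonneg (by norm_num)
  have hq : ∀ u : ℝ, 0 ≤ 1 + u + 183 / 500 * u ^ 2 := fun u => by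
    nlinarith [sq_nonneg (u + 2), sq_nonneg u]
  have hR : ∀ (u x y : ℝ), x ≤ y →
      y ≤ (1 + 1 / 20 + (1 / 20) ^ 2 / 2) * (1 + u + 183 / 500 * u ^ 2) →
      x ≤ Real.exp (1 / 20) * (1 + u + 183 / 500 * u ^ 2) := fun u x y h1 h2 =>
    (h1.trans h2).trans (mul_le_mul_of_nonneg_right hde (hq u))
  refine ExpFd.of (by norm_num) (by norm_num) (by norm_num) (by norm_num) (by norm_num) ?_ ?_ ?_
  · intro u h1
    rcases le_total u (-3) with h3 | h3
    · exact hR u _ _ (ev_exp_n3 h3) (ev_eight_e24_d u h3)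
    rcases le_total u (-2) with h4 | h4
    · refine hR u _ _ (ev_exp_n2 h4) ?_
      exact ev_eight_e24_c0 u (by linarith) (by linarith)
    rcases le_total u (-1) with h5 | h5
    · refine hR u _ _ (ev_exp_n1 h5) ?_
      exact ev_eight_e24_b0 u (by linarith) (by linarith)
    refine hR u _ _ (ev_exp_n0 h1) ?_
    rcases le_total u (-1 / 2) with hh | hh
    · exact ev_eight_e24_a0 u (by linarith) (by linarith)
    exact ev_eight_e24_a1 u (by linarith) (by linarith)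
  · intro u h1 h2
    have h5 := mul_le_mul_of_nonneg_right (Real.add_one_le_exp (7 / 100 * u ^ 2)) (hq u)
    rw [add_comm (7 / 100 * u ^ 2) 1] at h5
    have h6 : 0 ≤ Real.exp (7 / 100 * u ^ 2) * (1 + u + 183 / 500 * u ^ 2) :=
      mul_nonneg (Real.exp_nonneg _) (hq u)
    rw [Real.exp_add, mul_assoc]
    refine ((ev_exp_p h1 (by linarith)).trans ?_).trans
      ((mul_le_mul_of_nonneg_left h5
        (by norm_num : (0 : ℝ) ≤ (1 + 1 / 20 + (1 / 20) ^ 2 / 2))).trans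
        (mul_le_mul_of_nonneg_right hde h6))
    exact ev_eight_e24_e0 u (by linarith) (by linarith)
  · intro u h1
    have h4 : 0 ≤ (1 + (u - 1 / 5) / 8) ^ 8 := by
      have : 0 ≤ (u - 1 / 5) / 8 := div_nonneg (by linarith) (by norm_num)
      positivity
    have hE : Real.exp (1 / 5) ≤ 122141 / 100000 := ev_up_1_5
    have hx : 0 ≤ 7 / 100 * u ^ 2 := by positivity
    have h5 := mul_le_mul_of_nonneg_right (taylor3_le_expE _ hx) (hq u)
    have h6 : 0 ≤ Real.exp (7 / 100 * u ^ 2) * (1 + u + 183 / 500 * u ^ 2) :=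
      mul_nonneg (Real.exp_nonneg _) (hq u)
    rw [Real.exp_add, mul_assoc]
    push_cast
    refine ((mul_le_mul_of_nonneg_right hE h4).trans ?_).trans
      ((mul_le_mul_of_nonneg_left h5
        (by norm_num : (0 : ℝ) ≤ (1 + 1 / 20 + (1 / 20) ^ 2 / 2))).trans
        (mul_le_mul_of_nonneg_right hde h6))
    rcases le_total u (11 / 10) with hh | hh
    · exact ev_eight_e24_g0 u (by linarith) (by linarith)
    rcases le_total u (2) with hh | hh
    · exact ev_eight_e24_g1 u (by linarith) (by linarith)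
    exact ev_eight_e24_t u (by linarith)

theorem ev_eight_e25_a0 (u : ℝ) (h1 : -1 ≤ u) (h2 : u ≤ 0) :
    1 + u + u ^ 2 / 2 + u ^ 3 / 6 + u ^ 4 / 24 ≤
      (1 + 1 / 10 + (1 / 10) ^ 2 / 2) * (1 + u + 17 / 50 * u ^ 2) := by
  obtain ⟨s, hs⟩ : ∃ s, s = u - (-1) := ⟨_, rfl⟩
  obtain ⟨t, ht⟩ : ∃ t, t = 0 - u := ⟨_, rfl⟩
  have hs0 : 0 ≤ s := by linarith
  have ht0 : 0 ≤ t := by linarith
  have h : 0 ≤
      7 / 10000 * t ^ 4 + 173 / 7500 * s * t ^ 3 + 1907 / 10000 * s ^ 2 * t ^ 2 +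
      63 / 200 * s ^ 3 * t + 21 / 200 * s ^ 4 := by
    positivity
  have e :
      7 / 10000 * t ^ 4 + 173 / 7500 * s * t ^ 3 + 1907 / 10000 * s ^ 2 * t ^ 2 +
      63 / 200 * s ^ 3 * t + 21 / 200 * s ^ 4 =
      (1 + 1 / 10 + (1 / 10) ^ 2 / 2) * (1 + u + 17 / 50 * u ^ 2) -
      (1 + u + u ^ 2 / 2 + u ^ 3 / 6 + u ^ 4 / 24) := by
    rw [hs, ht]
    ring
  rw [e] at h
  linarith

theorem ev_eight_e25_b0 (u : ℝ) (h1 : -2 ≤ u) (h2 : u ≤ -1) :
    36788 / 100000 *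
      (1 + (u + 1) + (u + 1) ^ 2 / 2 + (u + 1) ^ 3 / 6 + (u + 1) ^ 4 / 24) ≤
      (1 + 1 / 10 + (1 / 10) ^ 2 / 2) * (1 + u + 17 / 50 * u ^ 2) := by
  obtain ⟨s, hs⟩ : ∃ s, s = u - (-2) := ⟨_, rfl⟩
  obtain ⟨t, ht⟩ : ∃ t, t = -1 - u := ⟨_, rfl⟩
  have hs0 : 0 ≤ s := by linarith
  have ht0 : 0 ≤ t := by linarith
  have h : 0 ≤
      51969 / 200000 * t ^ 4 + 77843 / 150000 * s * t ^ 3 + 3519 / 12500 * s ^ 2 * t ^ 2 +
      1139 / 25000 * s ^ 3 * t + 391 / 50000 * s ^ 4 := by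
    positivity
  have e :
      51969 / 200000 * t ^ 4 + 77843 / 150000 * s * t ^ 3 + 3519 / 12500 * s ^ 2 * t ^ 2 +
      1139 / 25000 * s ^ 3 * t + 391 / 50000 * s ^ 4 =
      (1 + 1 / 10 + (1 / 10) ^ 2 / 2) * (1 + u + 17 / 50 * u ^ 2) -
      (36788 / 100000 *
      (1 + (u + 1) + (u + 1) ^ 2 / 2 + (u + 1) ^ 3 / 6 + (u + 1) ^ 4 / 24)) := by
    rw [hs, ht]
    ring
  rw [e] at h
  linarith

theorem ev_eight_e25_c0 (u : ℝ) (h1 : -3 ≤ u) (h2 : u ≤ -2) :
    13534 / 100000 *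
      (1 + (u + 2) + (u + 2) ^ 2 / 2 + (u + 2) ^ 3 / 6 + (u + 2) ^ 4 / 24) ≤
      (1 + 1 / 10 + (1 / 10) ^ 2 / 2) * (1 + u + 17 / 50 * u ^ 2) := by
  obtain ⟨s, hs⟩ : ∃ s, s = u - (-3) := ⟨_, rfl⟩
  obtain ⟨t, ht⟩ : ∃ t, t = -2 - u := ⟨_, rfl⟩
  have hs0 : 0 ≤ s := by linarith
  have ht0 : 0 ≤ t := by linarith
  have h : 0 ≤
      448219 / 400000 * t ^ 4 + 986363 / 300000 * s * t ^ 3 +
      348221 / 100000 * s ^ 2 * t ^ 2 + 79149 / 50000 * s ^ 3 * t + 13123 / 50000 * s ^ 4 := by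
    positivity
  have e :
      448219 / 400000 * t ^ 4 + 986363 / 300000 * s * t ^ 3 +
      348221 / 100000 * s ^ 2 * t ^ 2 + 79149 / 50000 * s ^ 3 * t + 13123 / 50000 * s ^ 4 =
      (1 + 1 / 10 + (1 / 10) ^ 2 / 2) * (1 + u + 17 / 50 * u ^ 2) -
      (13534 / 100000 *
      (1 + (u + 2) + (u + 2) ^ 2 / 2 + (u + 2) ^ 3 / 6 + (u + 2) ^ 4 / 24)) := by
    rw [hs, ht]
    ring
  rw [e] at h
  linarith

theorem ev_eight_e25_d (u : ℝ) (h2 : u ≤ -3) :
    4979 / 100000 ≤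
      (1 + 1 / 10 + (1 / 10) ^ 2 / 2) * (1 + u + 17 / 50 * u ^ 2) := by
  obtain ⟨s, hs⟩ : ∃ s, s = -3 - u := ⟨_, rfl⟩
  have hs0 : 0 ≤ s := by linarith
  have h : 0 ≤
      112151 / 100000 + 2873 / 2500 * s + 3757 / 10000 * s ^ 2 := by
    positivity
  have e :
      112151 / 100000 + 2873 / 2500 * s + 3757 / 10000 * s ^ 2 =
      (1 + 1 / 10 + (1 / 10) ^ 2 / 2) * (1 + u + 17 / 50 * u ^ 2) -
      (4979 / 100000) := by
    rw [hs]
    ring
  rw [e] at h
  linarith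

theorem ev_eight_e25_e0 (u : ℝ) (h1 : 0 ≤ u) (h2 : u ≤ 1 / 5) :
    1 + u + u ^ 2 / 2 + u ^ 3 / 6 + u ^ 4 / 24 + u ^ 5 / 100 ≤
      (1 + 1 / 10 + (1 / 10) ^ 2 / 2) * ((1 + 7 / 100 * u ^ 2) *
      (1 + u + 17 / 50 * u ^ 2)) := by
  obtain ⟨s, hs⟩ : ∃ s, s = u - (0) := ⟨_, rfl⟩
  obtain ⟨t, ht⟩ : ∃ t, t = 1 / 5 - u := ⟨_, rfl⟩
  have hs0 : 0 ≤ s := by linarith
  have ht0 : 0 ≤ t := by linarith
  have h : 0 ≤
      2625 / 8 * t ^ 5 + 6825 / 4 * s * t ^ 4 + 566061 / 160 * s ^ 2 * t ^ 3 +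
      4386193 / 1200 * s ^ 3 * t ^ 2 + 1128585647 / 600000 * s ^ 4 * t +
      77112299 / 200000 * s ^ 5 := by
    positivity
  have e :
      2625 / 8 * t ^ 5 + 6825 / 4 * s * t ^ 4 + 566061 / 160 * s ^ 2 * t ^ 3 +
      4386193 / 1200 * s ^ 3 * t ^ 2 + 1128585647 / 600000 * s ^ 4 * t +
      77112299 / 200000 * s ^ 5 =
      (1 + 1 / 10 + (1 / 10) ^ 2 / 2) * ((1 + 7 / 100 * u ^ 2) *
      (1 + u + 17 / 50 * u ^ 2)) -
      (1 + u + u ^ 2 / 2 + u ^ 3 / 6 + u ^ 4 / 24 + u ^ 5 / 100) := by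
    rw [hs, ht]
    ring
  rw [e] at h
  linarith

theorem ev_eight_e25_g0 (u : ℝ) (h1 : 1 / 5 ≤ u) (h2 : u ≤ 2) :
    122141 / 100000 * (1 + (u - 1 / 5) / 8) ^ 8 ≤
      (1 + 1 / 10 + (1 / 10) ^ 2 / 2) * ((1 + (7 / 100 * u ^ 2) + (7 / 100 * u ^ 2) ^ 2 / 2 +
      (7 / 100 * u ^ 2) ^ 3 / 6) *
      (1 + u + 17 / 50 * u ^ 2)) := by
  obtain ⟨s, hs⟩ : ∃ s, s = u - (1 / 5) := ⟨_, rfl⟩
  obtain ⟨t, ht⟩ : ∃ t, t = 2 - u := ⟨_, rfl⟩
  have hs0 : 0 ≤ s := by linarith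
  have ht0 : 0 ≤ t := by linarith
  have h : 0 ≤
      2891675159440651 / 2582803260000000000 * t ^ 8 +
      2629931062094783 / 258280326000000000 * s * t ^ 7 +
      2020488846862781 / 51656065200000000 * s ^ 2 * t ^ 6 +
      1691594404501723 / 20662426080000000 * s ^ 3 * t ^ 5 +
      2690617591507243 / 26447905382400000 * s ^ 4 * t ^ 4 +
      4081690701723763 / 52895810764800000 * s ^ 5 * t ^ 3 +
      6067647053908603 / 169266594447360000 * s ^ 6 * t ^ 2 +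
      6910147388054393 / 677066377789440000 * s ^ 7 * t +
      353045583442100777 / 216661240892620800000 * s ^ 8 := by
    positivity
  have e :
      2891675159440651 / 2582803260000000000 * t ^ 8 +
      2629931062094783 / 258280326000000000 * s * t ^ 7 +
      2020488846862781 / 51656065200000000 * s ^ 2 * t ^ 6 +
      1691594404501723 / 20662426080000000 * s ^ 3 * t ^ 5 +
      2690617591507243 / 26447905382400000 * s ^ 4 * t ^ 4 +
      4081690701723763 / 52895810764800000 * s ^ 5 * t ^ 3 +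
      6067647053908603 / 169266594447360000 * s ^ 6 * t ^ 2 +
      6910147388054393 / 677066377789440000 * s ^ 7 * t +
      353045583442100777 / 216661240892620800000 * s ^ 8 =
      (1 + 1 / 10 + (1 / 10) ^ 2 / 2) * ((1 + (7 / 100 * u ^ 2) + (7 / 100 * u ^ 2) ^ 2 / 2 +
      (7 / 100 * u ^ 2) ^ 3 / 6) *
      (1 + u + 17 / 50 * u ^ 2)) -
      (122141 / 100000 * (1 + (u - 1 / 5) / 8) ^ 8) := by
    rw [hs, ht]
    ring
  rw [e] at h
  linarith

theorem ev_eight_e25_t (u : ℝ) (h1 : 2 ≤ u) :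
    122141 / 100000 * (1 + (u - 1 / 5) / 8) ^ 8 ≤
      (1 + 1 / 10 + (1 / 10) ^ 2 / 2) * ((1 + (7 / 100 * u ^ 2) + (7 / 100 * u ^ 2) ^ 2 / 2 +
      (7 / 100 * u ^ 2) ^ 3 / 6) *
      (1 + u + 17 / 50 * u ^ 2)) := by
  obtain ⟨s, hs⟩ : ∃ s, s = u - (2) := ⟨_, rfl⟩
  have hs0 : 0 ≤ s := by linarith
  have h : 0 ≤
      353045583442100777 / 1966080000000000000 + 8515520879991673 / 49152000000000000 * s +
      6707204988086399 / 19660800000000000 * s ^ 2 +
      551317984360367 / 1966080000000000 * s ^ 3 +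
      172753945138523 / 1572864000000000 * s ^ 4 +
      50335296722039 / 1966080000000000 * s ^ 5 + 16034215367107 / 3932160000000000 * s ^ 6 +
      788598186313 / 1966080000000000 * s ^ 7 + 336667055869 / 15728640000000000 * s ^ 8 := by
    positivity
  have e :
      353045583442100777 / 1966080000000000000 + 8515520879991673 / 49152000000000000 * s +
      6707204988086399 / 19660800000000000 * s ^ 2 +
      551317984360367 / 1966080000000000 * s ^ 3 +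
      172753945138523 / 1572864000000000 * s ^ 4 +
      50335296722039 / 1966080000000000 * s ^ 5 + 16034215367107 / 3932160000000000 * s ^ 6 +
      788598186313 / 1966080000000000 * s ^ 7 + 336667055869 / 15728640000000000 * s ^ 8 =
      (1 + 1 / 10 + (1 / 10) ^ 2 / 2) * ((1 + (7 / 100 * u ^ 2) + (7 / 100 * u ^ 2) ^ 2 / 2 +
      (7 / 100 * u ^ 2) ^ 3 / 6) *
      (1 + u + 17 / 50 * u ^ 2)) -
      (122141 / 100000 * (1 + (u - 1 / 5) / 8) ^ 8) := by
    rw [hs]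
    ring
  rw [e] at h
  linarith

/-- `K = 8`: `(c, μ, P, δ) = (17 / 50, 7 / 100, 1 / 5, 1 / 10)` -/
theorem expFd_eight_e25 : ExpFd 8 (17 / 50) (7 / 100) (1 / 5) (1 / 10) := by
  have hde : (1 + 1 / 10 + (1 / 10) ^ 2 / 2) ≤ Real.exp (1 / 10) :=
    Real.quadratic_le_exp_of_nonneg (by norm_num)
  have hq : ∀ u : ℝ, 0 ≤ 1 + u + 17 / 50 * u ^ 2 := fun u => by
    nlinarith [sq_nonneg (u + 2), sq_nonneg u]
  have hR : ∀ (u x y : ℝ), x ≤ y →
      y ≤ (1 + 1 / 10 + (1 / 10) ^ 2 / 2) * (1 + u + 17 / 50 * u ^ 2) →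
      x ≤ Real.exp (1 / 10) * (1 + u + 17 / 50 * u ^ 2) := fun u x y h1 h2 =>
    (h1.trans h2).trans (mul_le_mul_of_nonneg_right hde (hq u))
  refine ExpFd.of (by norm_num) (by norm_num) (by norm_num) (by norm_num) (by norm_num) ?_ ?_ ?_
  · intro u h1
    rcases le_total u (-3) with h3 | h3
    · exact hR u _ _ (ev_exp_n3 h3) (ev_eight_e25_d u h3)
    rcases le_total u (-2) with h4 | h4
    · refine hR u _ _ (ev_exp_n2 h4) ?_
      exact ev_eight_e25_c0 u (by linarith) (by linarith)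
    rcases le_total u (-1) with h5 | h5
    · refine hR u _ _ (ev_exp_n1 h5) ?_
      exact ev_eight_e25_b0 u (by linarith) (by linarith)
    refine hR u _ _ (ev_exp_n0 h1) ?_
    exact ev_eight_e25_a0 u (by linarith) (by linarith)
  · intro u h1 h2
    have h5 := mul_le_mul_of_nonneg_right (Real.add_one_le_exp (7 / 100 * u ^ 2)) (hq u)
    rw [add_comm (7 / 100 * u ^ 2) 1] at h5
    have h6 : 0 ≤ Real.exp (7 / 100 * u ^ 2) * (1 + u + 17 / 50 * u ^ 2) :=
      mul_nonneg (Real.exp_nonneg _) (hq u)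
    rw [Real.exp_add, mul_assoc]
    refine ((ev_exp_p h1 (by linarith)).trans ?_).trans
      ((mul_le_mul_of_nonneg_left h5
        (by norm_num : (0 : ℝ) ≤ (1 + 1 / 10 + (1 / 10) ^ 2 / 2))).trans
        (mul_le_mul_of_nonneg_right hde h6))
    exact ev_eight_e25_e0 u (by linarith) (by linarith)
  · intro u h1
    have h4 : 0 ≤ (1 + (u - 1 / 5) / 8) ^ 8 := by
      have : 0 ≤ (u - 1 / 5) / 8 := div_nonneg (by linarith) (by norm_num)
      positivity
    have hE : Real.exp (1 / 5) ≤ 122141 / 100000 := ev_up_1_5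
    have hx : 0 ≤ 7 / 100 * u ^ 2 := by positivity
    have h5 := mul_le_mul_of_nonneg_right (taylor3_le_expE _ hx) (hq u)
    have h6 : 0 ≤ Real.exp (7 / 100 * u ^ 2) * (1 + u + 17 / 50 * u ^ 2) :=
      mul_nonneg (Real.exp_nonneg _) (hq u)
    rw [Real.exp_add, mul_assoc]
    push_cast
    refine ((mul_le_mul_of_nonneg_right hE h4).trans ?_).trans
      ((mul_le_mul_of_nonneg_left h5
        (by norm_num : (0 : ℝ) ≤ (1 + 1 / 10 + (1 / 10) ^ 2 / 2))).trans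
        (mul_le_mul_of_nonneg_right hde h6))
    rcases le_total u (2) with hh | hh
    · exact ev_eight_e25_g0 u (by linarith) (by linarith)
    exact ev_eight_e25_t u (by linarith)

theorem ev_eight_e30_a0 (u : ℝ) (h1 : -1 ≤ u) (h2 : u ≤ 0) :
    1 + u + u ^ 2 / 2 + u ^ 3 / 6 + u ^ 4 / 24 ≤
      (1 + 1 / 500 + (1 / 500) ^ 2 / 2) * (1 + u + 11 / 20 * u ^ 2) := by
  obtain ⟨s, hs⟩ : ∃ s, s = u - (-1) := ⟨_, rfl⟩
  obtain ⟨t, ht⟩ : ∃ t, t = 0 - u := ⟨_, rfl⟩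
  have hs0 : 0 ≤ s := by linarith
  have ht0 : 0 ≤ t := by linarith
  have h : 0 ≤
      1761011 / 10000000 * t ^ 4 + 4063063 / 15000000 * s * t ^ 3 +
      571071 / 10000000 * s ^ 2 * t ^ 2 + 3003 / 500000 * s ^ 3 * t + 1001 / 500000 * s ^ 4 := by
    positivity
  have e :
      1761011 / 10000000 * t ^ 4 + 4063063 / 15000000 * s * t ^ 3 +
      571071 / 10000000 * s ^ 2 * t ^ 2 + 3003 / 500000 * s ^ 3 * t + 1001 / 500000 * s ^ 4 =
      (1 + 1 / 500 + (1 / 500) ^ 2 / 2) * (1 + u + 11 / 20 * u ^ 2) -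
      (1 + u + u ^ 2 / 2 + u ^ 3 / 6 + u ^ 4 / 24) := by
    rw [hs, ht]
    ring
  rw [e] at h
  linarith

theorem ev_eight_e30_b0 (u : ℝ) (h1 : -2 ≤ u) (h2 : u ≤ -1) :
    36788 / 100000 *
      (1 + (u + 1) + (u + 1) ^ 2 / 2 + (u + 1) ^ 3 / 6 + (u + 1) ^ 4 / 24) ≤
      (1 + 1 / 500 + (1 / 500) ^ 2 / 2) * (1 + u + 11 / 20 * u ^ 2) := by
  obtain ⟨s, hs⟩ : ∃ s, s = u - (-2) := ⟨_, rfl⟩
  obtain ⟨t, ht⟩ : ∃ t, t = -1 - u := ⟨_, rfl⟩
  have hs0 : 0 ≤ s := by linarith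
  have ht0 : 0 ≤ t := by linarith
  have h : 0 ≤
      5322237 / 5000000 * t ^ 4 + 2749463 / 937500 * s * t ^ 3 +
      28707283 / 10000000 * s ^ 2 * t ^ 2 + 6004823 / 5000000 * s ^ 3 * t +
      1832211 / 10000000 * s ^ 4 := by
    positivity
  have e :
      5322237 / 5000000 * t ^ 4 + 2749463 / 937500 * s * t ^ 3 +
      28707283 / 10000000 * s ^ 2 * t ^ 2 + 6004823 / 5000000 * s ^ 3 * t +
      1832211 / 10000000 * s ^ 4 =
      (1 + 1 / 500 + (1 / 500) ^ 2 / 2) * (1 + u + 11 / 20 * u ^ 2) -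
      (36788 / 100000 *
      (1 + (u + 1) + (u + 1) ^ 2 / 2 + (u + 1) ^ 3 / 6 + (u + 1) ^ 4 / 24)) := by
    rw [hs, ht]
    ring
  rw [e] at h
  linarith

theorem ev_eight_e30_c0 (u : ℝ) (h1 : -3 ≤ u) (h2 : u ≤ -2) :
    13534 / 100000 *
      (1 + (u + 2) + (u + 2) ^ 2 / 2 + (u + 2) ^ 3 / 6 + (u + 2) ^ 4 / 24) ≤
      (1 + 1 / 500 + (1 / 500) ^ 2 / 2) * (1 + u + 11 / 20 * u ^ 2) := by
  obtain ⟨s, hs⟩ : ∃ s, s = u - (-3) := ⟨_, rfl⟩
  obtain ⟨t, ht⟩ : ∃ t, t = -2 - u := ⟨_, rfl⟩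
  have hs0 : 0 ≤ s := by linarith
  have ht0 : 0 ≤ t := by linarith
  have h : 0 ≤
      14525767 / 5000000 * t ^ 4 + 27812687 / 3000000 * s * t ^ 3 +
      108990327 / 10000000 * s ^ 2 * t ^ 2 + 700749 / 125000 * s ^ 3 * t +
      333457 / 312500 * s ^ 4 := by
    positivity
  have e :
      14525767 / 5000000 * t ^ 4 + 27812687 / 3000000 * s * t ^ 3 +
      108990327 / 10000000 * s ^ 2 * t ^ 2 + 700749 / 125000 * s ^ 3 * t +
      333457 / 312500 * s ^ 4 =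
      (1 + 1 / 500 + (1 / 500) ^ 2 / 2) * (1 + u + 11 / 20 * u ^ 2) -
      (13534 / 100000 *
      (1 + (u + 2) + (u + 2) ^ 2 / 2 + (u + 2) ^ 3 / 6 + (u + 2) ^ 4 / 24)) := by
    rw [hs, ht]
    ring
  rw [e] at h
  linarith

theorem ev_eight_e30_d (u : ℝ) (h2 : u ≤ -3) :
    4979 / 100000 ≤
      (1 + 1 / 500 + (1 / 500) ^ 2 / 2) * (1 + u + 11 / 20 * u ^ 2) := by
  obtain ⟨s, hs⟩ : ∃ s, s = -3 - u := ⟨_, rfl⟩
  have hs0 : 0 ≤ s := by linarith
  have h : 0 ≤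
      29061159 / 10000000 + 11523023 / 5000000 * s + 5511011 / 10000000 * s ^ 2 := by
    positivity
  have e :
      29061159 / 10000000 + 11523023 / 5000000 * s + 5511011 / 10000000 * s ^ 2 =
      (1 + 1 / 500 + (1 / 500) ^ 2 / 2) * (1 + u + 11 / 20 * u ^ 2) -
      (4979 / 100000) := by
    rw [hs]
    ring
  rw [e] at h
  linarith

theorem ev_eight_e30_e0 (u : ℝ) (h1 : 0 ≤ u) (h2 : u ≤ 1 / 3) :
    1 + u + u ^ 2 / 2 + u ^ 3 / 6 + u ^ 4 / 24 + u ^ 5 / 100 ≤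
      (1 + 1 / 500 + (1 / 500) ^ 2 / 2) * ((1 + 1 / 20 * u ^ 2) *
      (1 + u + 11 / 20 * u ^ 2)) := by
  obtain ⟨s, hs⟩ : ∃ s, s = u - (0) := ⟨_, rfl⟩
  obtain ⟨t, ht⟩ : ∃ t, t = 1 / 3 - u := ⟨_, rfl⟩
  have hs0 : 0 ≤ s := by linarith
  have ht0 : 0 ≤ t := by linarith
  have h : 0 ≤
      243243 / 500000 * t ^ 5 + 81081 / 31250 * s * t ^ 4 +
      20614851 / 2500000 * s ^ 2 * t ^ 3 + 129860301 / 10000000 * s ^ 3 * t ^ 2 +
      1827568433 / 200000000 * s ^ 4 * t + 455929293 / 200000000 * s ^ 5 := by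
    positivity
  have e :
      243243 / 500000 * t ^ 5 + 81081 / 31250 * s * t ^ 4 +
      20614851 / 2500000 * s ^ 2 * t ^ 3 + 129860301 / 10000000 * s ^ 3 * t ^ 2 +
      1827568433 / 200000000 * s ^ 4 * t + 455929293 / 200000000 * s ^ 5 =
      (1 + 1 / 500 + (1 / 500) ^ 2 / 2) * ((1 + 1 / 20 * u ^ 2) *
      (1 + u + 11 / 20 * u ^ 2)) -
      (1 + u + u ^ 2 / 2 + u ^ 3 / 6 + u ^ 4 / 24 + u ^ 5 / 100) := by
    rw [hs, ht]
    ring
  rw [e] at h
  linarith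

theorem ev_eight_e30_g0 (u : ℝ) (h1 : 1 / 3 ≤ u) (h2 : u ≤ 5 / 3) :
    69781 / 50000 * (1 + (u - 1 / 3) / 8) ^ 8 ≤
      (1 + 1 / 500 + (1 / 500) ^ 2 / 2) * ((1 + (1 / 20 * u ^ 2) + (1 / 20 * u ^ 2) ^ 2 / 2 +
      (1 / 20 * u ^ 2) ^ 3 / 6) *
      (1 + u + 11 / 20 * u ^ 2)) := by
  obtain ⟨s, hs⟩ : ∃ s, s = u - (1 / 3) := ⟨_, rfl⟩
  obtain ⟨t, ht⟩ : ∃ t, t = 5 / 3 - u := ⟨_, rfl⟩
  have hs0 : 0 ≤ s := by linarith
  have ht0 : 0 ≤ t := by linarith
  have h : 0 ≤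
      29603696013191 / 31457280000000000 * t ^ 8 +
      8885859991601 / 786432000000000 * s * t ^ 7 +
      99898636579921 / 1572864000000000 * s ^ 2 * t ^ 6 +
      28585752841807 / 157286400000000 * s ^ 3 * t ^ 5 +
      181327227845797 / 629145600000000 * s ^ 4 * t ^ 4 +
      1655153513803 / 6291456000000 * s ^ 5 * t ^ 3 +
      8555366054353 / 62914560000000 * s ^ 6 * t ^ 2 +
      229094094433 / 6291456000000 * s ^ 7 * t + 196097143931 / 50331648000000 * s ^ 8 := by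
    positivity
  have e :
      29603696013191 / 31457280000000000 * t ^ 8 +
      8885859991601 / 786432000000000 * s * t ^ 7 +
      99898636579921 / 1572864000000000 * s ^ 2 * t ^ 6 +
      28585752841807 / 157286400000000 * s ^ 3 * t ^ 5 +
      181327227845797 / 629145600000000 * s ^ 4 * t ^ 4 +
      1655153513803 / 6291456000000 * s ^ 5 * t ^ 3 +
      8555366054353 / 62914560000000 * s ^ 6 * t ^ 2 +
      229094094433 / 6291456000000 * s ^ 7 * t + 196097143931 / 50331648000000 * s ^ 8 =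
      (1 + 1 / 500 + (1 / 500) ^ 2 / 2) * ((1 + (1 / 20 * u ^ 2) + (1 / 20 * u ^ 2) ^ 2 / 2 +
      (1 / 20 * u ^ 2) ^ 3 / 6) *
      (1 + u + 11 / 20 * u ^ 2)) -
      (69781 / 50000 * (1 + (u - 1 / 3) / 8) ^ 8) := by
    rw [hs, ht]
    ring
  rw [e] at h
  linarith

theorem ev_eight_e30_g1 (u : ℝ) (h1 : 5 / 3 ≤ u) (h2 : u ≤ 7 / 3) :
    69781 / 50000 * (1 + (u - 1 / 3) / 8) ^ 8 ≤
      (1 + 1 / 500 + (1 / 500) ^ 2 / 2) * ((1 + (1 / 20 * u ^ 2) + (1 / 20 * u ^ 2) ^ 2 / 2 +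
      (1 / 20 * u ^ 2) ^ 3 / 6) *
      (1 + u + 11 / 20 * u ^ 2)) := by
  obtain ⟨s, hs⟩ : ∃ s, s = u - (5 / 3) := ⟨_, rfl⟩
  obtain ⟨t, ht⟩ : ∃ t, t = 7 / 3 - u := ⟨_, rfl⟩
  have hs0 : 0 ≤ s := by linarith
  have ht0 : 0 ≤ t := by linarith
  have h : 0 ≤
      196097143931 / 196608000000 * t ^ 8 + 4489966717 / 614400000 * s * t ^ 7 +
      2777025820211 / 122880000000 * s ^ 2 * t ^ 6 +
      9385102173943 / 245760000000 * s ^ 3 * t ^ 5 +
      374333570677243 / 9830400000000 * s ^ 4 * t ^ 4 +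
      110757950185571 / 4915200000000 * s ^ 5 * t ^ 3 +
      742853267839159 / 98304000000000 * s ^ 6 * t ^ 2 +
      128742528820153 / 98304000000000 * s ^ 7 * t +
      838399564838069 / 7864320000000000 * s ^ 8 := by
    positivity
  have e :
      196097143931 / 196608000000 * t ^ 8 + 4489966717 / 614400000 * s * t ^ 7 +
      2777025820211 / 122880000000 * s ^ 2 * t ^ 6 +
      9385102173943 / 245760000000 * s ^ 3 * t ^ 5 +
      374333570677243 / 9830400000000 * s ^ 4 * t ^ 4 +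
      110757950185571 / 4915200000000 * s ^ 5 * t ^ 3 +
      742853267839159 / 98304000000000 * s ^ 6 * t ^ 2 +
      128742528820153 / 98304000000000 * s ^ 7 * t +
      838399564838069 / 7864320000000000 * s ^ 8 =
      (1 + 1 / 500 + (1 / 500) ^ 2 / 2) * ((1 + (1 / 20 * u ^ 2) + (1 / 20 * u ^ 2) ^ 2 / 2 +
      (1 / 20 * u ^ 2) ^ 3 / 6) *
      (1 + u + 11 / 20 * u ^ 2)) -
      (69781 / 50000 * (1 + (u - 1 / 3) / 8) ^ 8) := by
    rw [hs, ht]
    ring
  rw [e] at h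
  linarith

theorem ev_eight_e30_g2 (u : ℝ) (h1 : 7 / 3 ≤ u) (h2 : u ≤ 3) :
    69781 / 50000 * (1 + (u - 1 / 3) / 8) ^ 8 ≤
      (1 + 1 / 500 + (1 / 500) ^ 2 / 2) * ((1 + (1 / 20 * u ^ 2) + (1 / 20 * u ^ 2) ^ 2 / 2 +
      (1 / 20 * u ^ 2) ^ 3 / 6) *
      (1 + u + 11 / 20 * u ^ 2)) := by
  obtain ⟨s, hs⟩ : ∃ s, s = u - (7 / 3) := ⟨_, rfl⟩
  obtain ⟨t, ht⟩ : ∃ t, t = 3 - u := ⟨_, rfl⟩
  have hs0 : 0 ≤ s := by linarith
  have ht0 : 0 ≤ t := by linarith
  have h : 0 ≤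
      838399564838069 / 7864320000000000 * t ^ 8 +
      8111955030721 / 20480000000000 * s * t ^ 7 +
      11897630742741 / 10240000000000 * s ^ 2 * t ^ 6 +
      7548767611443 / 1280000000000 * s ^ 3 * t ^ 5 +
      77192815754079 / 4096000000000 * s ^ 4 * t ^ 4 +
      81435979257759 / 2560000000000 * s ^ 5 * t ^ 3 +
      299444507391501 / 10240000000000 * s ^ 6 * t ^ 2 +
      4480171804851 / 320000000000 * s ^ 7 * t + 112559225160397 / 40960000000000 * s ^ 8 := by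
    positivity
  have e :
      838399564838069 / 7864320000000000 * t ^ 8 +
      8111955030721 / 20480000000000 * s * t ^ 7 +
      11897630742741 / 10240000000000 * s ^ 2 * t ^ 6 +
      7548767611443 / 1280000000000 * s ^ 3 * t ^ 5 +
      77192815754079 / 4096000000000 * s ^ 4 * t ^ 4 +
      81435979257759 / 2560000000000 * s ^ 5 * t ^ 3 +
      299444507391501 / 10240000000000 * s ^ 6 * t ^ 2 +
      4480171804851 / 320000000000 * s ^ 7 * t + 112559225160397 / 40960000000000 * s ^ 8 =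
      (1 + 1 / 500 + (1 / 500) ^ 2 / 2) * ((1 + (1 / 20 * u ^ 2) + (1 / 20 * u ^ 2) ^ 2 / 2 +
      (1 / 20 * u ^ 2) ^ 3 / 6) *
      (1 + u + 11 / 20 * u ^ 2)) -
      (69781 / 50000 * (1 + (u - 1 / 3) / 8) ^ 8) := by
    rw [hs, ht]
    ring
  rw [e] at h
  linarith

theorem ev_eight_e30_t (u : ℝ) (h1 : 3 ≤ u) :
    69781 / 50000 * (1 + (u - 1 / 3) / 8) ^ 8 ≤
      (1 + 1 / 500 + (1 / 500) ^ 2 / 2) * ((1 + (1 / 20 * u ^ 2) + (1 / 20 * u ^ 2) ^ 2 / 2 +
      (1 / 20 * u ^ 2) ^ 3 / 6) *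
      (1 + u + 11 / 20 * u ^ 2)) := by
  obtain ⟨s, hs⟩ : ∃ s, s = u - (3) := ⟨_, rfl⟩
  have hs0 : 0 ≤ s := by linarith
  have h : 0 ≤
      112559225160397 / 1049760000000000 + 40876476282781 / 87480000000000 * s +
      10475074903457 / 14580000000000 * s ^ 2 + 4509603337957 / 9720000000000 * s ^ 3 +
      198102099409 / 1296000000000 * s ^ 4 + 32053905667 / 1080000000000 * s ^ 5 +
      21752051089 / 5760000000000 * s ^ 6 + 2962709517 / 10240000000000 * s ^ 7 +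
      89638207349 / 7864320000000000 * s ^ 8 := by
    positivity
  have e :
      112559225160397 / 1049760000000000 + 40876476282781 / 87480000000000 * s +
      10475074903457 / 14580000000000 * s ^ 2 + 4509603337957 / 9720000000000 * s ^ 3 +
      198102099409 / 1296000000000 * s ^ 4 + 32053905667 / 1080000000000 * s ^ 5 +
      21752051089 / 5760000000000 * s ^ 6 + 2962709517 / 10240000000000 * s ^ 7 +
      89638207349 / 7864320000000000 * s ^ 8 =
      (1 + 1 / 500 + (1 / 500) ^ 2 / 2) * ((1 + (1 / 20 * u ^ 2) + (1 / 20 * u ^ 2) ^ 2 / 2 +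
      (1 / 20 * u ^ 2) ^ 3 / 6) *
      (1 + u + 11 / 20 * u ^ 2)) -
      (69781 / 50000 * (1 + (u - 1 / 3) / 8) ^ 8) := by
    rw [hs]
    ring
  rw [e] at h
  linarith

/-- `K = 8`: `(c, μ, P, δ) = (11 / 20, 1 / 20, 1 / 3, 1 / 500)` -/
theorem expFd_eight_e30 : ExpFd 8 (11 / 20) (1 / 20) (1 / 3) (1 / 500) := by
  have hde : (1 + 1 / 500 + (1 / 500) ^ 2 / 2) ≤ Real.exp (1 / 500) :=
    Real.quadratic_le_exp_of_nonneg (by norm_num)
  have hq : ∀ u : ℝ, 0 ≤ 1 + u + 11 / 20 * u ^ 2 := fun u => by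
    nlinarith [sq_nonneg (u + 2), sq_nonneg u]
  have hR : ∀ (u x y : ℝ), x ≤ y →
      y ≤ (1 + 1 / 500 + (1 / 500) ^ 2 / 2) * (1 + u + 11 / 20 * u ^ 2) →
      x ≤ Real.exp (1 / 500) * (1 + u + 11 / 20 * u ^ 2) := fun u x y h1 h2 =>
    (h1.trans h2).trans (mul_le_mul_of_nonneg_right hde (hq u))
  refine ExpFd.of (by norm_num) (by norm_num) (by norm_num) (by norm_num) (by norm_num) ?_ ?_ ?_
  · intro u h1
    rcases le_total u (-3) with h3 | h3
    · exact hR u _ _ (ev_exp_n3 h3) (ev_eight_e30_d u h3)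
    rcases le_total u (-2) with h4 | h4
    · refine hR u _ _ (ev_exp_n2 h4) ?_
      exact ev_eight_e30_c0 u (by linarith) (by linarith)
    rcases le_total u (-1) with h5 | h5
    · refine hR u _ _ (ev_exp_n1 h5) ?_
      exact ev_eight_e30_b0 u (by linarith) (by linarith)
    refine hR u _ _ (ev_exp_n0 h1) ?_
    exact ev_eight_e30_a0 u (by linarith) (by linarith)
  · intro u h1 h2
    have h5 := mul_le_mul_of_nonneg_right (Real.add_one_le_exp (1 / 20 * u ^ 2)) (hq u)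
    rw [add_comm (1 / 20 * u ^ 2) 1] at h5
    have h6 : 0 ≤ Real.exp (1 / 20 * u ^ 2) * (1 + u + 11 / 20 * u ^ 2) :=
      mul_nonneg (Real.exp_nonneg _) (hq u)
    rw [Real.exp_add, mul_assoc]
    refine ((ev_exp_p h1 (by linarith)).trans ?_).trans
      ((mul_le_mul_of_nonneg_left h5
        (by norm_num : (0 : ℝ) ≤ (1 + 1 / 500 + (1 / 500) ^ 2 / 2))).trans
        (mul_le_mul_of_nonneg_right hde h6))
    exact ev_eight_e30_e0 u (by linarith) (by linarith)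
  · intro u h1
    have h4 : 0 ≤ (1 + (u - 1 / 3) / 8) ^ 8 := by
      have : 0 ≤ (u - 1 / 3) / 8 := div_nonneg (by linarith) (by norm_num)
      positivity
    have hE : Real.exp (1 / 3) ≤ 69781 / 50000 := ev_up_1_3
    have hx : 0 ≤ 1 / 20 * u ^ 2 := by positivity
    have h5 := mul_le_mul_of_nonneg_right (taylor3_le_expE _ hx) (hq u)
    have h6 : 0 ≤ Real.exp (1 / 20 * u ^ 2) * (1 + u + 11 / 20 * u ^ 2) :=
      mul_nonneg (Real.exp_nonneg _) (hq u)
    rw [Real.exp_add, mul_assoc]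
    push_cast
    refine ((mul_le_mul_of_nonneg_right hE h4).trans ?_).trans
      ((mul_le_mul_of_nonneg_left h5
        (by norm_num : (0 : ℝ) ≤ (1 + 1 / 500 + (1 / 500) ^ 2 / 2))).trans
        (mul_le_mul_of_nonneg_right hde h6))
    rcases le_total u (5 / 3) with hh | hh
    · exact ev_eight_e30_g0 u (by linarith) (by linarith)
    rcases le_total u (7 / 3) with hh | hh
    · exact ev_eight_e30_g1 u (by linarith) (by linarith)
    rcases le_total u (3) with hh | hh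
    · exact ev_eight_e30_g2 u (by linarith) (by linarith)
    exact ev_eight_e30_t u (by linarith)

theorem ev_eight_e31_a0 (u : ℝ) (h1 : -1 ≤ u) (h2 : u ≤ 0) :
    1 + u + u ^ 2 / 2 + u ^ 3 / 6 + u ^ 4 / 24 ≤
      (1 + 1 / 200 + (1 / 200) ^ 2 / 2) * (1 + u + 517 / 1000 * u ^ 2) := by
  obtain ⟨s, hs⟩ : ∃ s, s = u - (-1) := ⟨_, rfl⟩
  obtain ⟨t, ht⟩ : ∃ t, t = 0 - u := ⟨_, rfl⟩
  have hs0 : 0 ≤ s := by linarith
  have ht0 : 0 ≤ t := by linarith
  have h : 0 ≤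
      11567317 / 80000000 * t ^ 4 + 25303451 / 120000000 * s * t ^ 3 +
      2770317 / 80000000 * s ^ 2 * t ^ 2 + 1203 / 80000 * s ^ 3 * t + 401 / 80000 * s ^ 4 := by
    positivity
  have e :
      11567317 / 80000000 * t ^ 4 + 25303451 / 120000000 * s * t ^ 3 +
      2770317 / 80000000 * s ^ 2 * t ^ 2 + 1203 / 80000 * s ^ 3 * t + 401 / 80000 * s ^ 4 =
      (1 + 1 / 200 + (1 / 200) ^ 2 / 2) * (1 + u + 517 / 1000 * u ^ 2) -
      (1 + u + u ^ 2 / 2 + u ^ 3 / 6 + u ^ 4 / 24) := by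
    rw [hs, ht]
    ring
  rw [e] at h
  linarith

theorem ev_eight_e31_b0 (u : ℝ) (h1 : -2 ≤ u) (h2 : u ≤ -1) :
    36788 / 100000 *
      (1 + (u + 1) + (u + 1) ^ 2 / 2 + (u + 1) ^ 3 / 6 + (u + 1) ^ 4 / 24) ≤
      (1 + 1 / 200 + (1 / 200) ^ 2 / 2) * (1 + u + 517 / 1000 * u ^ 2) := by
  obtain ⟨s, hs⟩ : ∃ s, s = u - (-2) := ⟨_, rfl⟩
  obtain ⟨t, ht⟩ : ∃ t, t = -1 - u := ⟨_, rfl⟩
  have hs0 : 0 ≤ s := by linarith
  have ht0 : 0 ≤ t := by linarith
  have h : 0 ≤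
      18707967 / 20000000 * t ^ 4 + 152736803 / 60000000 * s * t ^ 3 +
      196165721 / 80000000 * s ^ 2 * t ^ 2 + 40355851 / 40000000 * s ^ 3 * t +
      12136917 / 80000000 * s ^ 4 := by
    positivity
  have e :
      18707967 / 20000000 * t ^ 4 + 152736803 / 60000000 * s * t ^ 3 +
      196165721 / 80000000 * s ^ 2 * t ^ 2 + 40355851 / 40000000 * s ^ 3 * t +
      12136917 / 80000000 * s ^ 4 =
      (1 + 1 / 200 + (1 / 200) ^ 2 / 2) * (1 + u + 517 / 1000 * u ^ 2) -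
      (36788 / 100000 *
      (1 + (u + 1) + (u + 1) ^ 2 / 2 + (u + 1) ^ 3 / 6 + (u + 1) ^ 4 / 24)) := by
    rw [hs, ht]
    ring
  rw [e] at h
  linarith

theorem ev_eight_e31_c0 (u : ℝ) (h1 : -3 ≤ u) (h2 : u ≤ -2) :
    13534 / 100000 *
      (1 + (u + 2) + (u + 2) ^ 2 / 2 + (u + 2) ^ 3 / 6 + (u + 2) ^ 4 / 24) ≤
      (1 + 1 / 200 + (1 / 200) ^ 2 / 2) * (1 + u + 517 / 1000 * u ^ 2) := by
  obtain ⟨s, hs⟩ : ∃ s, s = u - (-3) := ⟨_, rfl⟩
  obtain ⟨t, ht⟩ : ∃ t, t = -2 - u := ⟨_, rfl⟩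
  have hs0 : 0 ≤ s := by linarith
  have ht0 : 0 ≤ t := by linarith
  have h : 0 ≤
      209243653 / 80000000 * t ^ 4 + 199308793 / 24000000 * s * t ^ 3 +
      776486529 / 80000000 * s ^ 2 * t ^ 2 + 19842987 / 4000000 * s ^ 3 * t +
      18760267 / 20000000 * s ^ 4 := by
    positivity
  have e :
      209243653 / 80000000 * t ^ 4 + 199308793 / 24000000 * s * t ^ 3 +
      776486529 / 80000000 * s ^ 2 * t ^ 2 + 19842987 / 4000000 * s ^ 3 * t +
      18760267 / 20000000 * s ^ 4 =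
      (1 + 1 / 200 + (1 / 200) ^ 2 / 2) * (1 + u + 517 / 1000 * u ^ 2) -
      (13534 / 100000 *
      (1 + (u + 2) + (u + 2) ^ 2 / 2 + (u + 2) ^ 3 / 6 + (u + 2) ^ 4 / 24)) := by
    rw [hs, ht]
    ring
  rw [e] at h
  linarith

theorem ev_eight_e31_d (u : ℝ) (h2 : u ≤ -3) :
    4979 / 100000 ≤
      (1 + 1 / 200 + (1 / 200) ^ 2 / 2) * (1 + u + 517 / 1000 * u ^ 2) := by
  obtain ⟨s, hs⟩ : ∃ s, s = -3 - u := ⟨_, rfl⟩
  have hs0 : 0 ≤ s := by linarith
  have h : 0 ≤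
      209320653 / 80000000 + 84501451 / 40000000 * s + 41567317 / 80000000 * s ^ 2 := by
    positivity
  have e :
      209320653 / 80000000 + 84501451 / 40000000 * s + 41567317 / 80000000 * s ^ 2 =
      (1 + 1 / 200 + (1 / 200) ^ 2 / 2) * (1 + u + 517 / 1000 * u ^ 2) -
      (4979 / 100000) := by
    rw [hs]
    ring
  rw [e] at h
  linarith

theorem ev_eight_e31_e0 (u : ℝ) (h1 : 0 ≤ u) (h2 : u ≤ 1 / 3) :
    1 + u + u ^ 2 / 2 + u ^ 3 / 6 + u ^ 4 / 24 + u ^ 5 / 100 ≤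
      (1 + 1 / 200 + (1 / 200) ^ 2 / 2) * ((1 + 11 / 200 * u ^ 2) *
      (1 + u + 517 / 1000 * u ^ 2)) := by
  obtain ⟨s, hs⟩ : ∃ s, s = u - (0) := ⟨_, rfl⟩
  obtain ⟨t, ht⟩ : ∃ t, t = 1 / 3 - u := ⟨_, rfl⟩
  have hs0 : 0 ≤ s := by linarith
  have ht0 : 0 ≤ t := by linarith
  have h : 0 ≤
      97443 / 80000 * t ^ 5 + 32481 / 5000 * s * t ^ 4 +
      316516761 / 20000000 * s ^ 2 * t ^ 3 + 1574253627 / 80000000 * s ^ 3 * t ^ 2 +
      187746745861 / 16000000000 * s ^ 4 * t + 41498829261 / 16000000000 * s ^ 5 := by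
    positivity
  have e :
      97443 / 80000 * t ^ 5 + 32481 / 5000 * s * t ^ 4 +
      316516761 / 20000000 * s ^ 2 * t ^ 3 + 1574253627 / 80000000 * s ^ 3 * t ^ 2 +
      187746745861 / 16000000000 * s ^ 4 * t + 41498829261 / 16000000000 * s ^ 5 =
      (1 + 1 / 200 + (1 / 200) ^ 2 / 2) * ((1 + 11 / 200 * u ^ 2) *
      (1 + u + 517 / 1000 * u ^ 2)) -
      (1 + u + u ^ 2 / 2 + u ^ 3 / 6 + u ^ 4 / 24 + u ^ 5 / 100) := by
    rw [hs, ht]
    ring
  rw [e] at h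
  linarith

theorem ev_eight_e31_g0 (u : ℝ) (h1 : 1 / 3 ≤ u) (h2 : u ≤ 5 / 3) :
    69781 / 50000 * (1 + (u - 1 / 3) / 8) ^ 8 ≤
      (1 + 1 / 200 + (1 / 200) ^ 2 / 2) * ((1 + (11 / 200 * u ^ 2) + (11 / 200 * u ^ 2) ^ 2 / 2 +
      (11 / 200 * u ^ 2) ^ 3 / 6) *
      (1 + u + 517 / 1000 * u ^ 2)) := by
  obtain ⟨s, hs⟩ : ∃ s, s = u - (1 / 3) := ⟨_, rfl⟩
  obtain ⟨t, ht⟩ : ∃ t, t = 5 / 3 - u := ⟨_, rfl⟩
  have hs0 : 0 ≤ s := by linarith
  have ht0 : 0 ≤ t := by linarith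
  have h : 0 ≤
      269502892547878727 / 251658240000000000000 * t ^ 8 +
      67031519420446067 / 6291456000000000000 * s * t ^ 7 +
      130295997077715737 / 2516582400000000000 * s ^ 2 * t ^ 6 +
      33682703842340813 / 251658240000000000 * s ^ 3 * t ^ 5 +
      39007551982723909 / 201326592000000000 * s ^ 4 * t ^ 4 +
      1605671156750453 / 10066329600000000 * s ^ 5 * t ^ 3 +
      57989683311637 / 805306368000000 * s ^ 6 * t ^ 2 +
      6430014015419 / 402653184000000 * s ^ 7 * t + 178067763643 / 128849018880000 * s ^ 8 := by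
    positivity
  have e :
      269502892547878727 / 251658240000000000000 * t ^ 8 +
      67031519420446067 / 6291456000000000000 * s * t ^ 7 +
      130295997077715737 / 2516582400000000000 * s ^ 2 * t ^ 6 +
      33682703842340813 / 251658240000000000 * s ^ 3 * t ^ 5 +
      39007551982723909 / 201326592000000000 * s ^ 4 * t ^ 4 +
      1605671156750453 / 10066329600000000 * s ^ 5 * t ^ 3 +
      57989683311637 / 805306368000000 * s ^ 6 * t ^ 2 +
      6430014015419 / 402653184000000 * s ^ 7 * t + 178067763643 / 128849018880000 * s ^ 8 =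
      (1 + 1 / 200 + (1 / 200) ^ 2 / 2) * ((1 + (11 / 200 * u ^ 2) + (11 / 200 * u ^ 2) ^ 2 / 2 +
      (11 / 200 * u ^ 2) ^ 3 / 6) *
      (1 + u + 517 / 1000 * u ^ 2)) -
      (69781 / 50000 * (1 + (u - 1 / 3) / 8) ^ 8) := by
    rw [hs, ht]
    ring
  rw [e] at h
  linarith

theorem ev_eight_e31_g1 (u : ℝ) (h1 : 5 / 3 ≤ u) (h2 : u ≤ 7 / 3) :
    69781 / 50000 * (1 + (u - 1 / 3) / 8) ^ 8 ≤
      (1 + 1 / 200 + (1 / 200) ^ 2 / 2) * ((1 + (11 / 200 * u ^ 2) + (11 / 200 * u ^ 2) ^ 2 / 2 +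
      (11 / 200 * u ^ 2) ^ 3 / 6) *
      (1 + u + 517 / 1000 * u ^ 2)) := by
  obtain ⟨s, hs⟩ : ∃ s, s = u - (5 / 3) := ⟨_, rfl⟩
  obtain ⟨t, ht⟩ : ∃ t, t = 7 / 3 - u := ⟨_, rfl⟩
  have hs0 : 0 ≤ s := by linarith
  have ht0 : 0 ≤ t := by linarith
  have h : 0 ≤
      178067763643 / 503316480000 * t ^ 8 + 3462534128903 / 1572864000000 * s * t ^ 7 +
      17096455600441 / 3145728000000 * s ^ 2 * t ^ 6 +
      261805743230309 / 39321600000000 * s ^ 3 * t ^ 5 +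
      3365342997785149 / 786432000000000 * s ^ 4 * t ^ 4 +
      1998616532884721 / 983040000000000 * s ^ 5 * t ^ 3 +
      17798057611933553 / 9830400000000000 * s ^ 6 * t ^ 2 +
      33866261420268821 / 24576000000000000 * s ^ 7 * t +
      48199124787056419 / 122880000000000000 * s ^ 8 := by
    positivity
  have e :
      178067763643 / 503316480000 * t ^ 8 + 3462534128903 / 1572864000000 * s * t ^ 7 +
      17096455600441 / 3145728000000 * s ^ 2 * t ^ 6 +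
      261805743230309 / 39321600000000 * s ^ 3 * t ^ 5 +
      3365342997785149 / 786432000000000 * s ^ 4 * t ^ 4 +
      1998616532884721 / 983040000000000 * s ^ 5 * t ^ 3 +
      17798057611933553 / 9830400000000000 * s ^ 6 * t ^ 2 +
      33866261420268821 / 24576000000000000 * s ^ 7 * t +
      48199124787056419 / 122880000000000000 * s ^ 8 =
      (1 + 1 / 200 + (1 / 200) ^ 2 / 2) * ((1 + (11 / 200 * u ^ 2) + (11 / 200 * u ^ 2) ^ 2 / 2 +
      (11 / 200 * u ^ 2) ^ 3 / 6) *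
      (1 + u + 517 / 1000 * u ^ 2)) -
      (69781 / 50000 * (1 + (u - 1 / 3) / 8) ^ 8) := by
    rw [hs, ht]
    ring
  rw [e] at h
  linarith

theorem ev_eight_e31_g2 (u : ℝ) (h1 : 7 / 3 ≤ u) (h2 : u ≤ 3) :
    69781 / 50000 * (1 + (u - 1 / 3) / 8) ^ 8 ≤
      (1 + 1 / 200 + (1 / 200) ^ 2 / 2) * ((1 + (11 / 200 * u ^ 2) + (11 / 200 * u ^ 2) ^ 2 / 2 +
      (11 / 200 * u ^ 2) ^ 3 / 6) *
      (1 + u + 517 / 1000 * u ^ 2)) := by
  obtain ⟨s, hs⟩ : ∃ s, s = u - (7 / 3) := ⟨_, rfl⟩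
  obtain ⟨t, ht⟩ : ∃ t, t = 3 - u := ⟨_, rfl⟩
  have hs0 : 0 ≤ s := by linarith
  have ht0 : 0 ≤ t := by linarith
  have h : 0 ≤
      48199124787056419 / 122880000000000000 * t ^ 8 +
      200618229830519533 / 40960000000000000 * s * t ^ 7 +
      2166759597920447247 / 81920000000000000 * s ^ 2 * t ^ 6 +
      3263086561089271239 / 40960000000000000 * s ^ 3 * t ^ 5 +
      4785696309166675443 / 32768000000000000 * s ^ 4 * t ^ 4 +
      6846289333577541891 / 40960000000000000 * s ^ 5 * t ^ 3 +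
      9579473070849036567 / 81920000000000000 * s ^ 6 * t ^ 2 +
      1878153822291482697 / 40960000000000000 * s ^ 7 * t +
      2534763502035921389 / 327680000000000000 * s ^ 8 := by
    positivity
  have e :
      48199124787056419 / 122880000000000000 * t ^ 8 +
      200618229830519533 / 40960000000000000 * s * t ^ 7 +
      2166759597920447247 / 81920000000000000 * s ^ 2 * t ^ 6 +
      3263086561089271239 / 40960000000000000 * s ^ 3 * t ^ 5 +
      4785696309166675443 / 32768000000000000 * s ^ 4 * t ^ 4 +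
      6846289333577541891 / 40960000000000000 * s ^ 5 * t ^ 3 +
      9579473070849036567 / 81920000000000000 * s ^ 6 * t ^ 2 +
      1878153822291482697 / 40960000000000000 * s ^ 7 * t +
      2534763502035921389 / 327680000000000000 * s ^ 8 =
      (1 + 1 / 200 + (1 / 200) ^ 2 / 2) * ((1 + (11 / 200 * u ^ 2) + (11 / 200 * u ^ 2) ^ 2 / 2 +
      (11 / 200 * u ^ 2) ^ 3 / 6) *
      (1 + u + 517 / 1000 * u ^ 2)) -
      (69781 / 50000 * (1 + (u - 1 / 3) / 8) ^ 8) := by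
    rw [hs, ht]
    ring
  rw [e] at h
  linarith

theorem ev_eight_e31_t (u : ℝ) (h1 : 3 ≤ u) :
    69781 / 50000 * (1 + (u - 1 / 3) / 8) ^ 8 ≤
      (1 + 1 / 200 + (1 / 200) ^ 2 / 2) * ((1 + (11 / 200 * u ^ 2) + (11 / 200 * u ^ 2) ^ 2 / 2 +
      (11 / 200 * u ^ 2) ^ 3 / 6) *
      (1 + u + 517 / 1000 * u ^ 2)) := by
  obtain ⟨s, hs⟩ : ∃ s, s = u - (3) := ⟨_, rfl⟩
  have hs0 : 0 ≤ s := by linarith
  have h : 0 ≤
      2534763502035921389 / 8398080000000000000 +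
      164152419936109673 / 174960000000000000 * s +
      257166018254932133 / 233280000000000000 * s ^ 2 +
      3035064454685639 / 4860000000000000 * s ^ 3 +
      2025930627541343 / 10368000000000000 * s ^ 4 +
      81142054822001 / 2160000000000000 * s ^ 5 + 13722469981853 / 2880000000000000 * s ^ 6 +
      1407581902123 / 3840000000000000 * s ^ 7 + 14081706715937 / 983040000000000000 * s ^ 8 := by
    positivity
  have e :
      2534763502035921389 / 8398080000000000000 +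
      164152419936109673 / 174960000000000000 * s +
      257166018254932133 / 233280000000000000 * s ^ 2 +
      3035064454685639 / 4860000000000000 * s ^ 3 +
      2025930627541343 / 10368000000000000 * s ^ 4 +
      81142054822001 / 2160000000000000 * s ^ 5 + 13722469981853 / 2880000000000000 * s ^ 6 +
      1407581902123 / 3840000000000000 * s ^ 7 + 14081706715937 / 983040000000000000 * s ^ 8 =
      (1 + 1 / 200 + (1 / 200) ^ 2 / 2) * ((1 + (11 / 200 * u ^ 2) + (11 / 200 * u ^ 2) ^ 2 / 2 +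
      (11 / 200 * u ^ 2) ^ 3 / 6) *
      (1 + u + 517 / 1000 * u ^ 2)) -
      (69781 / 50000 * (1 + (u - 1 / 3) / 8) ^ 8) := by
    rw [hs]
    ring
  rw [e] at h
  linarith

/-- `K = 8`: `(c, μ, P, δ) = (517 / 1000, 11 / 200, 1 / 3, 1 / 200)` -/
theorem expFd_eight_e31 : ExpFd 8 (517 / 1000) (11 / 200) (1 / 3) (1 / 200) := by
  have hde : (1 + 1 / 200 + (1 / 200) ^ 2 / 2) ≤ Real.exp (1 / 200) :=
    Real.quadratic_le_exp_of_nonneg (by norm_num)
  have hq : ∀ u : ℝ, 0 ≤ 1 + u + 517 / 1000 * u ^ 2 := fun u => by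
    nlinarith [sq_nonneg (u + 2), sq_nonneg u]
  have hR : ∀ (u x y : ℝ), x ≤ y →
      y ≤ (1 + 1 / 200 + (1 / 200) ^ 2 / 2) * (1 + u + 517 / 1000 * u ^ 2) →
      x ≤ Real.exp (1 / 200) * (1 + u + 517 / 1000 * u ^ 2) := fun u x y h1 h2 =>
    (h1.trans h2).trans (mul_le_mul_of_nonneg_right hde (hq u))
  refine ExpFd.of (by norm_num) (by norm_num) (by norm_num) (by norm_num) (by norm_num) ?_ ?_ ?_
  · intro u h1
    rcases le_total u (-3) with h3 | h3
    · exact hR u _ _ (ev_exp_n3 h3) (ev_eight_e31_d u h3)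
    rcases le_total u (-2) with h4 | h4
    · refine hR u _ _ (ev_exp_n2 h4) ?_
      exact ev_eight_e31_c0 u (by linarith) (by linarith)
    rcases le_total u (-1) with h5 | h5
    · refine hR u _ _ (ev_exp_n1 h5) ?_
      exact ev_eight_e31_b0 u (by linarith) (by linarith)
    refine hR u _ _ (ev_exp_n0 h1) ?_
    exact ev_eight_e31_a0 u (by linarith) (by linarith)
  · intro u h1 h2
    have h5 := mul_le_mul_of_nonneg_right (Real.add_one_le_exp (11 / 200 * u ^ 2)) (hq u)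
    rw [add_comm (11 / 200 * u ^ 2) 1] at h5
    have h6 : 0 ≤ Real.exp (11 / 200 * u ^ 2) * (1 + u + 517 / 1000 * u ^ 2) :=
      mul_nonneg (Real.exp_nonneg _) (hq u)
    rw [Real.exp_add, mul_assoc]
    refine ((ev_exp_p h1 (by linarith)).trans ?_).trans
      ((mul_le_mul_of_nonneg_left h5
        (by norm_num : (0 : ℝ) ≤ (1 + 1 / 200 + (1 / 200) ^ 2 / 2))).trans
        (mul_le_mul_of_nonneg_right hde h6))
    exact ev_eight_e31_e0 u (by linarith) (by linarith)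
  · intro u h1
    have h4 : 0 ≤ (1 + (u - 1 / 3) / 8) ^ 8 := by
      have : 0 ≤ (u - 1 / 3) / 8 := div_nonneg (by linarith) (by norm_num)
      positivity
    have hE : Real.exp (1 / 3) ≤ 69781 / 50000 := ev_up_1_3
    have hx : 0 ≤ 11 / 200 * u ^ 2 := by positivity
    have h5 := mul_le_mul_of_nonneg_right (taylor3_le_expE _ hx) (hq u)
    have h6 : 0 ≤ Real.exp (11 / 200 * u ^ 2) * (1 + u + 517 / 1000 * u ^ 2) :=
      mul_nonneg (Real.exp_nonneg _) (hq u)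
    rw [Real.exp_add, mul_assoc]
    push_cast
    refine ((mul_le_mul_of_nonneg_right hE h4).trans ?_).trans
      ((mul_le_mul_of_nonneg_left h5
        (by norm_num : (0 : ℝ) ≤ (1 + 1 / 200 + (1 / 200) ^ 2 / 2))).trans
        (mul_le_mul_of_nonneg_right hde h6))
    rcases le_total u (5 / 3) with hh | hh
    · exact ev_eight_e31_g0 u (by linarith) (by linarith)
    rcases le_total u (7 / 3) with hh | hh
    · exact ev_eight_e31_g1 u (by linarith) (by linarith)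
    rcases le_total u (3) with hh | hh
    · exact ev_eight_e31_g2 u (by linarith) (by linarith)
    exact ev_eight_e31_t u (by linarith)

theorem ev_eight_e32_a0 (u : ℝ) (h1 : -1 ≤ u) (h2 : u ≤ 0) :
    1 + u + u ^ 2 / 2 + u ^ 3 / 6 + u ^ 4 / 24 ≤
      (1 + 1 / 100 + (1 / 100) ^ 2 / 2) * (1 + u + 243 / 500 * u ^ 2) := by
  obtain ⟨s, hs⟩ : ∃ s, s = u - (-1) := ⟨_, rfl⟩
  obtain ⟨t, ht⟩ : ∃ t, t = 0 - u := ⟨_, rfl⟩
  have hs0 : 0 ≤ s := by linarith
  have ht0 : 0 ≤ t := by linarith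
  have h : 0 ≤
      1158843 / 10000000 * t ^ 4 + 2377279 / 15000000 * s * t ^ 3 +
      210343 / 10000000 * s ^ 2 * t ^ 2 + 603 / 20000 * s ^ 3 * t + 201 / 20000 * s ^ 4 := by
    positivity
  have e :
      1158843 / 10000000 * t ^ 4 + 2377279 / 15000000 * s * t ^ 3 +
      210343 / 10000000 * s ^ 2 * t ^ 2 + 603 / 20000 * s ^ 3 * t + 201 / 20000 * s ^ 4 =
      (1 + 1 / 100 + (1 / 100) ^ 2 / 2) * (1 + u + 243 / 500 * u ^ 2) -
      (1 + u + u ^ 2 / 2 + u ^ 3 / 6 + u ^ 4 / 24) := by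
    rw [hs, ht]
    ring
  rw [e] at h
  linarith

theorem ev_eight_e32_b0 (u : ℝ) (h1 : -2 ≤ u) (h2 : u ≤ -1) :
    36788 / 100000 *
      (1 + (u + 1) + (u + 1) ^ 2 / 2 + (u + 1) ^ 3 / 6 + (u + 1) ^ 4 / 24) ≤
      (1 + 1 / 100 + (1 / 100) ^ 2 / 2) * (1 + u + 243 / 500 * u ^ 2) := by
  obtain ⟨s, hs⟩ : ∃ s, s = u - (-2) := ⟨_, rfl⟩
  obtain ⟨t, ht⟩ : ∃ t, t = -1 - u := ⟨_, rfl⟩
  have hs0 : 0 ≤ s := by linarith
  have ht0 : 0 ≤ t := by linarith
  have h : 0 ≤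
      4077661 / 5000000 * t ^ 4 + 2049389 / 937500 * s * t ^ 3 +
      20637659 / 10000000 * s ^ 2 * t ^ 2 + 4158079 / 5000000 * s ^ 3 * t +
      1230043 / 10000000 * s ^ 4 := by
    positivity
  have e :
      4077661 / 5000000 * t ^ 4 + 2049389 / 937500 * s * t ^ 3 +
      20637659 / 10000000 * s ^ 2 * t ^ 2 + 4158079 / 5000000 * s ^ 3 * t +
      1230043 / 10000000 * s ^ 4 =
      (1 + 1 / 100 + (1 / 100) ^ 2 / 2) * (1 + u + 243 / 500 * u ^ 2) -
      (36788 / 100000 *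
      (1 + (u + 1) + (u + 1) ^ 2 / 2 + (u + 1) ^ 3 / 6 + (u + 1) ^ 4 / 24)) := by
    rw [hs, ht]
    ring
  rw [e] at h
  linarith

theorem ev_eight_e32_c0 (u : ℝ) (h1 : -3 ≤ u) (h2 : u ≤ -2) :
    13534 / 100000 *
      (1 + (u + 2) + (u + 2) ^ 2 / 2 + (u + 2) ^ 3 / 6 + (u + 2) ^ 4 / 24) ≤
      (1 + 1 / 100 + (1 / 100) ^ 2 / 2) * (1 + u + 243 / 500 * u ^ 2) := by
  obtain ⟨s, hs⟩ : ∃ s, s = u - (-3) := ⟨_, rfl⟩
  obtain ⟨t, ht⟩ : ∃ t, t = -2 - u := ⟨_, rfl⟩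
  have hs0 : 0 ≤ s := by linarith
  have ht0 : 0 ≤ t := by linarith
  have h : 0 ≤
      11735531 / 5000000 * t ^ 4 + 22224167 / 3000000 * s * t ^ 3 +
      85985791 / 10000000 * s ^ 2 * t ^ 2 + 545177 / 125000 * s ^ 3 * t +
      255671 / 312500 * s ^ 4 := by
    positivity
  have e :
      11735531 / 5000000 * t ^ 4 + 22224167 / 3000000 * s * t ^ 3 +
      85985791 / 10000000 * s ^ 2 * t ^ 2 + 545177 / 125000 * s ^ 3 * t +
      255671 / 312500 * s ^ 4 =
      (1 + 1 / 100 + (1 / 100) ^ 2 / 2) * (1 + u + 243 / 500 * u ^ 2) -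
      (13534 / 100000 *
      (1 + (u + 2) + (u + 2) ^ 2 / 2 + (u + 2) ^ 3 / 6 + (u + 2) ^ 4 / 24)) := by
    rw [hs, ht]
    ring
  rw [e] at h
  linarith

theorem ev_eight_e32_d (u : ℝ) (h2 : u ≤ -3) :
    4979 / 100000 ≤
      (1 + 1 / 100 + (1 / 100) ^ 2 / 2) * (1 + u + 243 / 500 * u ^ 2) := by
  obtain ⟨s, hs⟩ : ∃ s, s = -3 - u := ⟨_, rfl⟩
  have hs0 : 0 ≤ s := by linarith
  have h : 0 ≤
      23480687 / 10000000 + 9676279 / 5000000 * s + 4908843 / 10000000 * s ^ 2 := by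
    positivity
  have e :
      23480687 / 10000000 + 9676279 / 5000000 * s + 4908843 / 10000000 * s ^ 2 =
      (1 + 1 / 100 + (1 / 100) ^ 2 / 2) * (1 + u + 243 / 500 * u ^ 2) -
      (4979 / 100000) := by
    rw [hs]
    ring
  rw [e] at h
  linarith

theorem ev_eight_e32_e0 (u : ℝ) (h1 : 0 ≤ u) (h2 : u ≤ 1 / 3) :
    1 + u + u ^ 2 / 2 + u ^ 3 / 6 + u ^ 4 / 24 + u ^ 5 / 100 ≤
      (1 + 1 / 100 + (1 / 100) ^ 2 / 2) * ((1 + 3 / 50 * u ^ 2) *
      (1 + u + 243 / 500 * u ^ 2)) := by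
  obtain ⟨s, hs⟩ : ∃ s, s = u - (0) := ⟨_, rfl⟩
  obtain ⟨t, ht⟩ : ∃ t, t = 1 / 3 - u := ⟨_, rfl⟩
  have hs0 : 0 ≤ s := by linarith
  have ht0 : 0 ≤ t := by linarith
  have h : 0 ≤
      48843 / 20000 * t ^ 5 + 16281 / 1250 * s * t ^ 4 +
      290678571 / 10000000 * s ^ 2 * t ^ 3 + 325216983 / 10000000 * s ^ 3 * t ^ 2 +
      8845817237 / 500000000 * s ^ 4 * t + 1822571637 / 500000000 * s ^ 5 := by
    positivity
  have e :
      48843 / 20000 * t ^ 5 + 16281 / 1250 * s * t ^ 4 +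
      290678571 / 10000000 * s ^ 2 * t ^ 3 + 325216983 / 10000000 * s ^ 3 * t ^ 2 +
      8845817237 / 500000000 * s ^ 4 * t + 1822571637 / 500000000 * s ^ 5 =
      (1 + 1 / 100 + (1 / 100) ^ 2 / 2) * ((1 + 3 / 50 * u ^ 2) *
      (1 + u + 243 / 500 * u ^ 2)) -
      (1 + u + u ^ 2 / 2 + u ^ 3 / 6 + u ^ 4 / 24 + u ^ 5 / 100) := by
    rw [hs, ht]
    ring
  rw [e] at h
  linarith

theorem ev_eight_e32_g0 (u : ℝ) (h1 : 1 / 3 ≤ u) (h2 : u ≤ 7 / 6) :
    69781 / 50000 * (1 + (u - 1 / 3) / 8) ^ 8 ≤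
      (1 + 1 / 100 + (1 / 100) ^ 2 / 2) * ((1 + (3 / 50 * u ^ 2) + (3 / 50 * u ^ 2) ^ 2 / 2 +
      (3 / 50 * u ^ 2) ^ 3 / 6) *
      (1 + u + 243 / 500 * u ^ 2)) := by
  obtain ⟨s, hs⟩ : ∃ s, s = u - (1 / 3) := ⟨_, rfl⟩
  obtain ⟨t, ht⟩ : ∃ t, t = 7 / 6 - u := ⟨_, rfl⟩
  have hs0 : 0 ≤ s := by linarith
  have ht0 : 0 ≤ t := by linarith
  have h : 0 ≤
      246514521142737 / 3814697265625000 * t ^ 8 +
      258572612522142 / 476837158203125 * s * t ^ 7 +
      15683879309445207 / 7629394531250000 * s ^ 2 * t ^ 6 +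
      67856680973256273 / 15258789062500000 * s ^ 3 * t ^ 5 +
      1148485500487558413 / 195312500000000000 * s ^ 4 * t ^ 4 +
      18776262322354587003 / 3906250000000000000 * s ^ 5 * t ^ 3 +
      294120293311249159293 / 125000000000000000000 * s ^ 6 * t ^ 2 +
      626975347127147309469 / 1000000000000000000000 * s ^ 7 * t +
      8894689996071592804139 / 128000000000000000000000 * s ^ 8 := by
    positivity
  have e :
      246514521142737 / 3814697265625000 * t ^ 8 +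
      258572612522142 / 476837158203125 * s * t ^ 7 +
      15683879309445207 / 7629394531250000 * s ^ 2 * t ^ 6 +
      67856680973256273 / 15258789062500000 * s ^ 3 * t ^ 5 +
      1148485500487558413 / 195312500000000000 * s ^ 4 * t ^ 4 +
      18776262322354587003 / 3906250000000000000 * s ^ 5 * t ^ 3 +
      294120293311249159293 / 125000000000000000000 * s ^ 6 * t ^ 2 +
      626975347127147309469 / 1000000000000000000000 * s ^ 7 * t +
      8894689996071592804139 / 128000000000000000000000 * s ^ 8 =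
      (1 + 1 / 100 + (1 / 100) ^ 2 / 2) * ((1 + (3 / 50 * u ^ 2) + (3 / 50 * u ^ 2) ^ 2 / 2 +
      (3 / 50 * u ^ 2) ^ 3 / 6) *
      (1 + u + 243 / 500 * u ^ 2)) -
      (69781 / 50000 * (1 + (u - 1 / 3) / 8) ^ 8) := by
    rw [hs, ht]
    ring
  rw [e] at h
  linarith

theorem ev_eight_e32_g1 (u : ℝ) (h1 : 7 / 6 ≤ u) (h2 : u ≤ 19 / 12) :
    69781 / 50000 * (1 + (u - 1 / 3) / 8) ^ 8 ≤
      (1 + 1 / 100 + (1 / 100) ^ 2 / 2) * ((1 + (3 / 50 * u ^ 2) + (3 / 50 * u ^ 2) ^ 2 / 2 +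
      (3 / 50 * u ^ 2) ^ 3 / 6) *
      (1 + u + 243 / 500 * u ^ 2)) := by
  obtain ⟨s, hs⟩ : ∃ s, s = u - (7 / 6) := ⟨_, rfl⟩
  obtain ⟨t, ht⟩ : ∃ t, t = 19 / 12 - u := ⟨_, rfl⟩
  have hs0 : 0 ≤ s := by linarith
  have ht0 : 0 ≤ t := by linarith
  have h : 0 ≤
      8894689996071592804139 / 500000000000000000000 * t ^ 8 +
      16652464434180421460913 / 125000000000000000000 * s * t ^ 7 +
      214332831570747139476597 / 500000000000000000000 * s ^ 2 * t ^ 6 +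
      385868544861791250794799 / 500000000000000000000 * s ^ 3 * t ^ 5 +
      677690663748907610459133 / 800000000000000000000 * s ^ 4 * t ^ 4 +
      1156033568082200592471111 / 2000000000000000000000 * s ^ 5 * t ^ 3 +
      1906220409301750837680837 / 8000000000000000000000 * s ^ 6 * t ^ 2 +
      432352798479518220230697 / 8000000000000000000000 * s ^ 7 * t +
      661988179740733485359499 / 128000000000000000000000 * s ^ 8 := by
    positivity
  have e :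
      8894689996071592804139 / 500000000000000000000 * t ^ 8 +
      16652464434180421460913 / 125000000000000000000 * s * t ^ 7 +
      214332831570747139476597 / 500000000000000000000 * s ^ 2 * t ^ 6 +
      385868544861791250794799 / 500000000000000000000 * s ^ 3 * t ^ 5 +
      677690663748907610459133 / 800000000000000000000 * s ^ 4 * t ^ 4 +
      1156033568082200592471111 / 2000000000000000000000 * s ^ 5 * t ^ 3 +
      1906220409301750837680837 / 8000000000000000000000 * s ^ 6 * t ^ 2 +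
      432352798479518220230697 / 8000000000000000000000 * s ^ 7 * t +
      661988179740733485359499 / 128000000000000000000000 * s ^ 8 =
      (1 + 1 / 100 + (1 / 100) ^ 2 / 2) * ((1 + (3 / 50 * u ^ 2) + (3 / 50 * u ^ 2) ^ 2 / 2 +
      (3 / 50 * u ^ 2) ^ 3 / 6) *
      (1 + u + 243 / 500 * u ^ 2)) -
      (69781 / 50000 * (1 + (u - 1 / 3) / 8) ^ 8) := by
    rw [hs, ht]
    ring
  rw [e] at h
  linarith

theorem ev_eight_e32_g2 (u : ℝ) (h1 : 19 / 12 ≤ u) (h2 : u ≤ 2) :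
    69781 / 50000 * (1 + (u - 1 / 3) / 8) ^ 8 ≤
      (1 + 1 / 100 + (1 / 100) ^ 2 / 2) * ((1 + (3 / 50 * u ^ 2) + (3 / 50 * u ^ 2) ^ 2 / 2 +
      (3 / 50 * u ^ 2) ^ 3 / 6) *
      (1 + u + 243 / 500 * u ^ 2)) := by
  obtain ⟨s, hs⟩ : ∃ s, s = u - (19 / 12) := ⟨_, rfl⟩
  obtain ⟨t, ht⟩ : ∃ t, t = 2 - u := ⟨_, rfl⟩
  have hs0 : 0 ≤ s := by linarith
  have ht0 : 0 ≤ t := by linarith
  have h : 0 ≤
      661988179740733485359499 / 128000000000000000000000 * t ^ 8 +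
      114817690630607632564401 / 4000000000000000000000 * s * t ^ 7 +
      121799622193407537991893 / 2000000000000000000000 * s ^ 2 * t ^ 6 +
      14642018742287961655407 / 250000000000000000000 * s ^ 3 * t ^ 5 +
      1182359249327156107293 / 50000000000000000000 * s ^ 4 * t ^ 4 +
      188203046257685720007 / 15625000000000000000 * s ^ 5 * t ^ 3 +
      190875290019275862693 / 7812500000000000000 * s ^ 6 * t ^ 2 +
      19843977922550877801 / 976562500000000000 * s ^ 7 * t +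
      10716655681051608299 / 1953125000000000000 * s ^ 8 := by
    positivity
  have e :
      661988179740733485359499 / 128000000000000000000000 * t ^ 8 +
      114817690630607632564401 / 4000000000000000000000 * s * t ^ 7 +
      121799622193407537991893 / 2000000000000000000000 * s ^ 2 * t ^ 6 +
      14642018742287961655407 / 250000000000000000000 * s ^ 3 * t ^ 5 +
      1182359249327156107293 / 50000000000000000000 * s ^ 4 * t ^ 4 +
      188203046257685720007 / 15625000000000000000 * s ^ 5 * t ^ 3 +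
      190875290019275862693 / 7812500000000000000 * s ^ 6 * t ^ 2 +
      19843977922550877801 / 976562500000000000 * s ^ 7 * t +
      10716655681051608299 / 1953125000000000000 * s ^ 8 =
      (1 + 1 / 100 + (1 / 100) ^ 2 / 2) * ((1 + (3 / 50 * u ^ 2) + (3 / 50 * u ^ 2) ^ 2 / 2 +
      (3 / 50 * u ^ 2) ^ 3 / 6) *
      (1 + u + 243 / 500 * u ^ 2)) -
      (69781 / 50000 * (1 + (u - 1 / 3) / 8) ^ 8) := by
    rw [hs, ht]
    ring
  rw [e] at h
  linarith

theorem ev_eight_e32_t (u : ℝ) (h1 : 2 ≤ u) :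
    69781 / 50000 * (1 + (u - 1 / 3) / 8) ^ 8 ≤
      (1 + 1 / 100 + (1 / 100) ^ 2 / 2) * ((1 + (3 / 50 * u ^ 2) + (3 / 50 * u ^ 2) ^ 2 / 2 +
      (3 / 50 * u ^ 2) ^ 3 / 6) *
      (1 + u + 243 / 500 * u ^ 2)) := by
  obtain ⟨s, hs⟩ : ∃ s, s = u - (2) := ⟨_, rfl⟩
  have hs0 : 0 ≤ s := by linarith
  have h : 0 ≤
      10716655681051608299 / 2149908480000000000000 +
      4604528960331111079 / 89579520000000000000 * s +
      11195118505368273413 / 59719680000000000000 * s ^ 2 +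
      1886284776861201673 / 9953280000000000000 * s ^ 3 +
      222363030860762333 / 2654208000000000000 * s ^ 4 +
      21699261146899393 / 1105920000000000000 * s ^ 5 +
      2352376015300853 / 737280000000000000 * s ^ 6 +
      38421891056959 / 122880000000000000 * s ^ 7 + 5763448624139 / 327680000000000000 * s ^ 8 := by
    positivity
  have e :
      10716655681051608299 / 2149908480000000000000 +
      4604528960331111079 / 89579520000000000000 * s +
      11195118505368273413 / 59719680000000000000 * s ^ 2 +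
      1886284776861201673 / 9953280000000000000 * s ^ 3 +
      222363030860762333 / 2654208000000000000 * s ^ 4 +
      21699261146899393 / 1105920000000000000 * s ^ 5 +
      2352376015300853 / 737280000000000000 * s ^ 6 +
      38421891056959 / 122880000000000000 * s ^ 7 + 5763448624139 / 327680000000000000 * s ^ 8 =
      (1 + 1 / 100 + (1 / 100) ^ 2 / 2) * ((1 + (3 / 50 * u ^ 2) + (3 / 50 * u ^ 2) ^ 2 / 2 +
      (3 / 50 * u ^ 2) ^ 3 / 6) *
      (1 + u + 243 / 500 * u ^ 2)) -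
      (69781 / 50000 * (1 + (u - 1 / 3) / 8) ^ 8) := by
    rw [hs]
    ring
  rw [e] at h
  linarith

/-- `K = 8`: `(c, μ, P, δ) = (243 / 500, 3 / 50, 1 / 3, 1 / 100)` -/
theorem expFd_eight_e32 : ExpFd 8 (243 / 500) (3 / 50) (1 / 3) (1 / 100) := by
  have hde : (1 + 1 / 100 + (1 / 100) ^ 2 / 2) ≤ Real.exp (1 / 100) :=
    Real.quadratic_le_exp_of_nonneg (by norm_num)
  have hq : ∀ u : ℝ, 0 ≤ 1 + u + 243 / 500 * u ^ 2 := fun u => by
    nlinarith [sq_nonneg (u + 2), sq_nonneg u]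
  have hR : ∀ (u x y : ℝ), x ≤ y →
      y ≤ (1 + 1 / 100 + (1 / 100) ^ 2 / 2) * (1 + u + 243 / 500 * u ^ 2) →
      x ≤ Real.exp (1 / 100) * (1 + u + 243 / 500 * u ^ 2) := fun u x y h1 h2 =>
    (h1.trans h2).trans (mul_le_mul_of_nonneg_right hde (hq u))
  refine ExpFd.of (by norm_num) (by norm_num) (by norm_num) (by norm_num) (by norm_num) ?_ ?_ ?_
  · intro u h1
    rcases le_total u (-3) with h3 | h3
    · exact hR u _ _ (ev_exp_n3 h3) (ev_eight_e32_d u h3)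
    rcases le_total u (-2) with h4 | h4
    · refine hR u _ _ (ev_exp_n2 h4) ?_
      exact ev_eight_e32_c0 u (by linarith) (by linarith)
    rcases le_total u (-1) with h5 | h5
    · refine hR u _ _ (ev_exp_n1 h5) ?_
      exact ev_eight_e32_b0 u (by linarith) (by linarith)
    refine hR u _ _ (ev_exp_n0 h1) ?_
    exact ev_eight_e32_a0 u (by linarith) (by linarith)
  · intro u h1 h2
    have h5 := mul_le_mul_of_nonneg_right (Real.add_one_le_exp (3 / 50 * u ^ 2)) (hq u)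
    rw [add_comm (3 / 50 * u ^ 2) 1] at h5
    have h6 : 0 ≤ Real.exp (3 / 50 * u ^ 2) * (1 + u + 243 / 500 * u ^ 2) :=
      mul_nonneg (Real.exp_nonneg _) (hq u)
    rw [Real.exp_add, mul_assoc]
    refine ((ev_exp_p h1 (by linarith)).trans ?_).trans
      ((mul_le_mul_of_nonneg_left h5
        (by norm_num : (0 : ℝ) ≤ (1 + 1 / 100 + (1 / 100) ^ 2 / 2))).trans
        (mul_le_mul_of_nonneg_right hde h6))
    exact ev_eight_e32_e0 u (by linarith) (by linarith)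
  · intro u h1
    have h4 : 0 ≤ (1 + (u - 1 / 3) / 8) ^ 8 := by
      have : 0 ≤ (u - 1 / 3) / 8 := div_nonneg (by linarith) (by norm_num)
      positivity
    have hE : Real.exp (1 / 3) ≤ 69781 / 50000 := ev_up_1_3
    have hx : 0 ≤ 3 / 50 * u ^ 2 := by positivity
    have h5 := mul_le_mul_of_nonneg_right (taylor3_le_expE _ hx) (hq u)
    have h6 : 0 ≤ Real.exp (3 / 50 * u ^ 2) * (1 + u + 243 / 500 * u ^ 2) :=
      mul_nonneg (Real.exp_nonneg _) (hq u)
    rw [Real.exp_add, mul_assoc]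
    push_cast
    refine ((mul_le_mul_of_nonneg_right hE h4).trans ?_).trans
      ((mul_le_mul_of_nonneg_left h5
        (by norm_num : (0 : ℝ) ≤ (1 + 1 / 100 + (1 / 100) ^ 2 / 2))).trans
        (mul_le_mul_of_nonneg_right hde h6))
    rcases le_total u (7 / 6) with hh | hh
    · exact ev_eight_e32_g0 u (by linarith) (by linarith)
    rcases le_total u (19 / 12) with hh | hh
    · exact ev_eight_e32_g1 u (by linarith) (by linarith)
    rcases le_total u (2) with hh | hh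
    · exact ev_eight_e32_g2 u (by linarith) (by linarith)
    exact ev_eight_e32_t u (by linarith)

theorem ev_eight_e33_a0 (u : ℝ) (h1 : -1 ≤ u) (h2 : u ≤ 0) :
    1 + u + u ^ 2 / 2 + u ^ 3 / 6 + u ^ 4 / 24 ≤
      (1 + 1 / 50 + (1 / 50) ^ 2 / 2) * (1 + u + 473 / 1000 * u ^ 2) := by
  obtain ⟨s, hs⟩ : ∃ s, s = u - (-1) := ⟨_, rfl⟩
  obtain ⟨t, ht⟩ : ∃ t, t = 0 - u := ⟨_, rfl⟩
  have hs0 : 0 ≤ s := by linarith
  have ht0 : 0 ≤ t := by linarith
  have h : 0 ≤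
      537773 / 5000000 * t ^ 4 + 1139819 / 7500000 * s * t ^ 3 +
      215773 / 5000000 * s ^ 2 * t ^ 2 + 303 / 5000 * s ^ 3 * t + 101 / 5000 * s ^ 4 := by
    positivity
  have e :
      537773 / 5000000 * t ^ 4 + 1139819 / 7500000 * s * t ^ 3 +
      215773 / 5000000 * s ^ 2 * t ^ 2 + 303 / 5000 * s ^ 3 * t + 101 / 5000 * s ^ 4 =
      (1 + 1 / 50 + (1 / 50) ^ 2 / 2) * (1 + u + 473 / 1000 * u ^ 2) -
      (1 + u + u ^ 2 / 2 + u ^ 3 / 6 + u ^ 4 / 24) := by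
    rw [hs, ht]
    ring
  rw [e] at h
  linarith

theorem ev_eight_e33_b0 (u : ℝ) (h1 : -2 ≤ u) (h2 : u ≤ -1) :
    36788 / 100000 *
      (1 + (u + 1) + (u + 1) ^ 2 / 2 + (u + 1) ^ 3 / 6 + (u + 1) ^ 4 / 24) ≤
      (1 + 1 / 50 + (1 / 50) ^ 2 / 2) * (1 + u + 473 / 1000 * u ^ 2) := by
  obtain ⟨s, hs⟩ : ∃ s, s = u - (-2) := ⟨_, rfl⟩
  obtain ⟨t, ht⟩ : ∃ t, t = -1 - u := ⟨_, rfl⟩
  have hs0 : 0 ≤ s := by linarith
  have ht0 : 0 ≤ t := by linarith
  have h : 0 ≤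
      3860317 / 5000000 * t ^ 4 + 1927133 / 937500 * s * t ^ 3 +
      9625149 / 5000000 * s ^ 2 * t ^ 2 + 1928719 / 2500000 * s ^ 3 * t +
      573373 / 5000000 * s ^ 4 := by
    positivity
  have e :
      3860317 / 5000000 * t ^ 4 + 1927133 / 937500 * s * t ^ 3 +
      9625149 / 5000000 * s ^ 2 * t ^ 2 + 1928719 / 2500000 * s ^ 3 * t +
      573373 / 5000000 * s ^ 4 =
      (1 + 1 / 50 + (1 / 50) ^ 2 / 2) * (1 + u + 473 / 1000 * u ^ 2) -
      (36788 / 100000 *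
      (1 + (u + 1) + (u + 1) ^ 2 / 2 + (u + 1) ^ 3 / 6 + (u + 1) ^ 4 / 24)) := by
    rw [hs, ht]
    ring
  rw [e] at h
  linarith

theorem ev_eight_e33_c0 (u : ℝ) (h1 : -3 ≤ u) (h2 : u ≤ -2) :
    13534 / 100000 *
      (1 + (u + 2) + (u + 2) ^ 2 / 2 + (u + 2) ^ 3 / 6 + (u + 2) ^ 4 / 24) ≤
      (1 + 1 / 50 + (1 / 50) ^ 2 / 2) * (1 + u + 473 / 1000 * u ^ 2) := by
  obtain ⟨s, hs⟩ : ∃ s, s = u - (-3) := ⟨_, rfl⟩
  obtain ⟨t, ht⟩ : ∃ t, t = -2 - u := ⟨_, rfl⟩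
  have hs0 : 0 ≤ s := by linarith
  have ht0 : 0 ≤ t := by linarith
  have h : 0 ≤
      22518389 / 10000000 * t ^ 4 + 664417 / 93750 * s * t ^ 3 +
      40995151 / 5000000 * s ^ 2 * t ^ 2 + 518009 / 125000 * s ^ 3 * t +
      242087 / 312500 * s ^ 4 := by
    positivity
  have e :
      22518389 / 10000000 * t ^ 4 + 664417 / 93750 * s * t ^ 3 +
      40995151 / 5000000 * s ^ 2 * t ^ 2 + 518009 / 125000 * s ^ 3 * t +
      242087 / 312500 * s ^ 4 =
      (1 + 1 / 50 + (1 / 50) ^ 2 / 2) * (1 + u + 473 / 1000 * u ^ 2) -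
      (13534 / 100000 *
      (1 + (u + 2) + (u + 2) ^ 2 / 2 + (u + 2) ^ 3 / 6 + (u + 2) ^ 4 / 24)) := by
    rw [hs, ht]
    ring
  rw [e] at h
  linarith

theorem ev_eight_e33_d (u : ℝ) (h2 : u ≤ -3) :
    4979 / 100000 ≤
      (1 + 1 / 50 + (1 / 50) ^ 2 / 2) * (1 + u + 473 / 1000 * u ^ 2) := by
  obtain ⟨s, hs⟩ : ∃ s, s = -3 - u := ⟨_, rfl⟩
  have hs0 : 0 ≤ s := by linarith
  have h : 0 ≤
      11264007 / 5000000 + 4687819 / 2500000 * s + 2412773 / 5000000 * s ^ 2 := by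
    positivity
  have e :
      11264007 / 5000000 + 4687819 / 2500000 * s + 2412773 / 5000000 * s ^ 2 =
      (1 + 1 / 50 + (1 / 50) ^ 2 / 2) * (1 + u + 473 / 1000 * u ^ 2) -
      (4979 / 100000) := by
    rw [hs]
    ring
  rw [e] at h
  linarith

theorem ev_eight_e33_e0 (u : ℝ) (h1 : 0 ≤ u) (h2 : u ≤ 1 / 3) :
    1 + u + u ^ 2 / 2 + u ^ 3 / 6 + u ^ 4 / 24 + u ^ 5 / 100 ≤
      (1 + 1 / 50 + (1 / 50) ^ 2 / 2) * ((1 + 3 / 50 * u ^ 2) *
      (1 + u + 473 / 1000 * u ^ 2)) := by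
  obtain ⟨s, hs⟩ : ∃ s, s = u - (0) := ⟨_, rfl⟩
  obtain ⟨t, ht⟩ : ∃ t, t = 1 / 3 - u := ⟨_, rfl⟩
  have hs0 : 0 ≤ s := by linarith
  have ht0 : 0 ≤ t := by linarith
  have h : 0 ≤
      24543 / 5000 * t ^ 5 + 16362 / 625 * s * t ^ 4 + 284062491 / 5000000 * s ^ 2 * t ^ 3 +
      307496013 / 5000000 * s ^ 3 * t ^ 2 + 8174142607 / 250000000 * s ^ 4 * t +
      1682316507 / 250000000 * s ^ 5 := by
    positivity
  have e :
      24543 / 5000 * t ^ 5 + 16362 / 625 * s * t ^ 4 + 284062491 / 5000000 * s ^ 2 * t ^ 3 +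
      307496013 / 5000000 * s ^ 3 * t ^ 2 + 8174142607 / 250000000 * s ^ 4 * t +
      1682316507 / 250000000 * s ^ 5 =
      (1 + 1 / 50 + (1 / 50) ^ 2 / 2) * ((1 + 3 / 50 * u ^ 2) *
      (1 + u + 473 / 1000 * u ^ 2)) -
      (1 + u + u ^ 2 / 2 + u ^ 3 / 6 + u ^ 4 / 24 + u ^ 5 / 100) := by
    rw [hs, ht]
    ring
  rw [e] at h
  linarith

theorem ev_eight_e33_g0 (u : ℝ) (h1 : 1 / 3 ≤ u) (h2 : u ≤ 7 / 6) :
    69781 / 50000 * (1 + (u - 1 / 3) / 8) ^ 8 ≤
      (1 + 1 / 50 + (1 / 50) ^ 2 / 2) * ((1 + (3 / 50 * u ^ 2) + (3 / 50 * u ^ 2) ^ 2 / 2 +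
      (3 / 50 * u ^ 2) ^ 3 / 6) *
      (1 + u + 473 / 1000 * u ^ 2)) := by
  obtain ⟨s, hs⟩ : ∃ s, s = u - (1 / 3) := ⟨_, rfl⟩
  obtain ⟨t, ht⟩ : ∃ t, t = 7 / 6 - u := ⟨_, rfl⟩
  have hs0 : 0 ≤ s := by linarith
  have ht0 : 0 ≤ t := by linarith
  have h : 0 ≤
      227348706398607 / 1907348632812500 * t ^ 8 +
      951059293230123 / 953674316406250 * s * t ^ 7 +
      14077795857034527 / 3814697265625000 * s ^ 2 * t ^ 6 +
      118354179795079131 / 15258789062500000 * s ^ 3 * t ^ 5 +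
      1955163951605392461 / 195312500000000000 * s ^ 4 * t ^ 4 +
      31479322775746637691 / 3906250000000000000 * s ^ 5 * t ^ 3 +
      491018303784013981821 / 125000000000000000000 * s ^ 6 * t ^ 2 +
      1054948582001047521693 / 1000000000000000000000 * s ^ 7 * t +
      15257369556766034640683 / 128000000000000000000000 * s ^ 8 := by
    positivity
  have e :
      227348706398607 / 1907348632812500 * t ^ 8 +
      951059293230123 / 953674316406250 * s * t ^ 7 +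
      14077795857034527 / 3814697265625000 * s ^ 2 * t ^ 6 +
      118354179795079131 / 15258789062500000 * s ^ 3 * t ^ 5 +
      1955163951605392461 / 195312500000000000 * s ^ 4 * t ^ 4 +
      31479322775746637691 / 3906250000000000000 * s ^ 5 * t ^ 3 +
      491018303784013981821 / 125000000000000000000 * s ^ 6 * t ^ 2 +
      1054948582001047521693 / 1000000000000000000000 * s ^ 7 * t +
      15257369556766034640683 / 128000000000000000000000 * s ^ 8 =
      (1 + 1 / 50 + (1 / 50) ^ 2 / 2) * ((1 + (3 / 50 * u ^ 2) + (3 / 50 * u ^ 2) ^ 2 / 2 +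
      (3 / 50 * u ^ 2) ^ 3 / 6) *
      (1 + u + 473 / 1000 * u ^ 2)) -
      (69781 / 50000 * (1 + (u - 1 / 3) / 8) ^ 8) := by
    rw [hs, ht]
    ring
  rw [e] at h
  linarith

theorem ev_eight_e33_g1 (u : ℝ) (h1 : 7 / 6 ≤ u) (h2 : u ≤ 19 / 12) :
    69781 / 50000 * (1 + (u - 1 / 3) / 8) ^ 8 ≤
      (1 + 1 / 50 + (1 / 50) ^ 2 / 2) * ((1 + (3 / 50 * u ^ 2) + (3 / 50 * u ^ 2) ^ 2 / 2 +
      (3 / 50 * u ^ 2) ^ 3 / 6) *
      (1 + u + 473 / 1000 * u ^ 2)) := by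
  obtain ⟨s, hs⟩ : ∃ s, s = u - (7 / 6) := ⟨_, rfl⟩
  obtain ⟨t, ht⟩ : ∃ t, t = 19 / 12 - u := ⟨_, rfl⟩
  have hs0 : 0 ≤ s := by linarith
  have ht0 : 0 ≤ t := by linarith
  have h : 0 ≤
      15257369556766034640683 / 500000000000000000000 * t ^ 8 +
      28892931358281343574961 / 125000000000000000000 * s * t ^ 7 +
      377989520740263827131509 / 500000000000000000000 * s ^ 2 * t ^ 6 +
      695845200086522827622703 / 500000000000000000000 * s ^ 3 * t ^ 5 +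
      1258969473970792368098301 / 800000000000000000000 * s ^ 4 * t ^ 4 +
      2232866564544675354858567 / 2000000000000000000000 * s ^ 5 * t ^ 3 +
      3870853228439968089774789 / 8000000000000000000000 * s ^ 6 * t ^ 2 +
      934378385427516557959209 / 8000000000000000000000 * s ^ 7 * t +
      1536278037287375588958603 / 128000000000000000000000 * s ^ 8 := by
    positivity
  have e :
      15257369556766034640683 / 500000000000000000000 * t ^ 8 +
      28892931358281343574961 / 125000000000000000000 * s * t ^ 7 +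
      377989520740263827131509 / 500000000000000000000 * s ^ 2 * t ^ 6 +
      695845200086522827622703 / 500000000000000000000 * s ^ 3 * t ^ 5 +
      1258969473970792368098301 / 800000000000000000000 * s ^ 4 * t ^ 4 +
      2232866564544675354858567 / 2000000000000000000000 * s ^ 5 * t ^ 3 +
      3870853228439968089774789 / 8000000000000000000000 * s ^ 6 * t ^ 2 +
      934378385427516557959209 / 8000000000000000000000 * s ^ 7 * t +
      1536278037287375588958603 / 128000000000000000000000 * s ^ 8 =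
      (1 + 1 / 50 + (1 / 50) ^ 2 / 2) * ((1 + (3 / 50 * u ^ 2) + (3 / 50 * u ^ 2) ^ 2 / 2 +
      (3 / 50 * u ^ 2) ^ 3 / 6) *
      (1 + u + 473 / 1000 * u ^ 2)) -
      (69781 / 50000 * (1 + (u - 1 / 3) / 8) ^ 8) := by
    rw [hs, ht]
    ring
  rw [e] at h
  linarith

theorem ev_eight_e33_g2 (u : ℝ) (h1 : 19 / 12 ≤ u) (h2 : u ≤ 2) :
    69781 / 50000 * (1 + (u - 1 / 3) / 8) ^ 8 ≤
      (1 + 1 / 50 + (1 / 50) ^ 2 / 2) * ((1 + (3 / 50 * u ^ 2) + (3 / 50 * u ^ 2) ^ 2 / 2 +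
      (3 / 50 * u ^ 2) ^ 3 / 6) *
      (1 + u + 473 / 1000 * u ^ 2)) := by
  obtain ⟨s, hs⟩ : ∃ s, s = u - (19 / 12) := ⟨_, rfl⟩
  obtain ⟨t, ht⟩ : ∃ t, t = 2 - u := ⟨_, rfl⟩
  have hs0 : 0 ≤ s := by linarith
  have ht0 : 0 ≤ t := by linarith
  have h : 0 ≤
      1536278037287375588958603 / 128000000000000000000000 * t ^ 8 +
      300949825929929515499697 / 4000000000000000000000 * s * t ^ 7 +
      385875523366591350264021 / 2000000000000000000000 * s ^ 2 * t ^ 6 +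
      63961660976126290004079 / 250000000000000000000 * s ^ 3 * t ^ 5 +
      8998378467066561697821 / 50000000000000000000 * s ^ 4 * t ^ 4 +
      924111867778623630279 / 15625000000000000000 * s ^ 5 * t ^ 3 +
      46588102265005011621 / 7812500000000000000 * s ^ 6 * t ^ 2 +
      2066881778617339497 / 976562500000000000 * s ^ 7 * t +
      2876921629001172203 / 1953125000000000000 * s ^ 8 := by
    positivity
  have e :
      1536278037287375588958603 / 128000000000000000000000 * t ^ 8 +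
      300949825929929515499697 / 4000000000000000000000 * s * t ^ 7 +
      385875523366591350264021 / 2000000000000000000000 * s ^ 2 * t ^ 6 +
      63961660976126290004079 / 250000000000000000000 * s ^ 3 * t ^ 5 +
      8998378467066561697821 / 50000000000000000000 * s ^ 4 * t ^ 4 +
      924111867778623630279 / 15625000000000000000 * s ^ 5 * t ^ 3 +
      46588102265005011621 / 7812500000000000000 * s ^ 6 * t ^ 2 +
      2066881778617339497 / 976562500000000000 * s ^ 7 * t +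
      2876921629001172203 / 1953125000000000000 * s ^ 8 =
      (1 + 1 / 50 + (1 / 50) ^ 2 / 2) * ((1 + (3 / 50 * u ^ 2) + (3 / 50 * u ^ 2) ^ 2 / 2 +
      (3 / 50 * u ^ 2) ^ 3 / 6) *
      (1 + u + 473 / 1000 * u ^ 2)) -
      (69781 / 50000 * (1 + (u - 1 / 3) / 8) ^ 8) := by
    rw [hs, ht]
    ring
  rw [e] at h
  linarith

theorem ev_eight_e33_t (u : ℝ) (h1 : 2 ≤ u) :
    69781 / 50000 * (1 + (u - 1 / 3) / 8) ^ 8 ≤
      (1 + 1 / 50 + (1 / 50) ^ 2 / 2) * ((1 + (3 / 50 * u ^ 2) + (3 / 50 * u ^ 2) ^ 2 / 2 +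
      (3 / 50 * u ^ 2) ^ 3 / 6) *
      (1 + u + 473 / 1000 * u ^ 2)) := by
  obtain ⟨s, hs⟩ : ∃ s, s = u - (2) := ⟨_, rfl⟩
  have hs0 : 0 ≤ s := by linarith
  have h : 0 ≤
      2876921629001172203 / 2149908480000000000000 +
      1888160947477469863 / 89579520000000000000 * s +
      10122317804422611461 / 59719680000000000000 * s ^ 2 +
      1834671772628284681 / 9953280000000000000 * s ^ 3 +
      218620499099028701 / 2654208000000000000 * s ^ 4 +
      21410710559171521 / 1105920000000000000 * s ^ 5 +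
      2320600861649141 / 737280000000000000 * s ^ 6 +
      37877224572223 / 122880000000000000 * s ^ 7 + 5665187484683 / 327680000000000000 * s ^ 8 := by
    positivity
  have e :
      2876921629001172203 / 2149908480000000000000 +
      1888160947477469863 / 89579520000000000000 * s +
      10122317804422611461 / 59719680000000000000 * s ^ 2 +
      1834671772628284681 / 9953280000000000000 * s ^ 3 +
      218620499099028701 / 2654208000000000000 * s ^ 4 +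
      21410710559171521 / 1105920000000000000 * s ^ 5 +
      2320600861649141 / 737280000000000000 * s ^ 6 +
      37877224572223 / 122880000000000000 * s ^ 7 + 5665187484683 / 327680000000000000 * s ^ 8 =
      (1 + 1 / 50 + (1 / 50) ^ 2 / 2) * ((1 + (3 / 50 * u ^ 2) + (3 / 50 * u ^ 2) ^ 2 / 2 +
      (3 / 50 * u ^ 2) ^ 3 / 6) *
      (1 + u + 473 / 1000 * u ^ 2)) -
      (69781 / 50000 * (1 + (u - 1 / 3) / 8) ^ 8) := by
    rw [hs]
    ring
  rw [e] at h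
  linarith

/-- `K = 8`: `(c, μ, P, δ) = (473 / 1000, 3 / 50, 1 / 3, 1 / 50)` -/
theorem expFd_eight_e33 : ExpFd 8 (473 / 1000) (3 / 50) (1 / 3) (1 / 50) := by
  have hde : (1 + 1 / 50 + (1 / 50) ^ 2 / 2) ≤ Real.exp (1 / 50) :=
    Real.quadratic_le_exp_of_nonneg (by norm_num)
  have hq : ∀ u : ℝ, 0 ≤ 1 + u + 473 / 1000 * u ^ 2 := fun u => by
    nlinarith [sq_nonneg (u + 2), sq_nonneg u]
  have hR : ∀ (u x y : ℝ), x ≤ y →
      y ≤ (1 + 1 / 50 + (1 / 50) ^ 2 / 2) * (1 + u + 473 / 1000 * u ^ 2) →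
      x ≤ Real.exp (1 / 50) * (1 + u + 473 / 1000 * u ^ 2) := fun u x y h1 h2 =>
    (h1.trans h2).trans (mul_le_mul_of_nonneg_right hde (hq u))
  refine ExpFd.of (by norm_num) (by norm_num) (by norm_num) (by norm_num) (by norm_num) ?_ ?_ ?_
  · intro u h1
    rcases le_total u (-3) with h3 | h3
    · exact hR u _ _ (ev_exp_n3 h3) (ev_eight_e33_d u h3)
    rcases le_total u (-2) with h4 | h4
    · refine hR u _ _ (ev_exp_n2 h4) ?_
      exact ev_eight_e33_c0 u (by linarith) (by linarith)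
    rcases le_total u (-1) with h5 | h5
    · refine hR u _ _ (ev_exp_n1 h5) ?_
      exact ev_eight_e33_b0 u (by linarith) (by linarith)
    refine hR u _ _ (ev_exp_n0 h1) ?_
    exact ev_eight_e33_a0 u (by linarith) (by linarith)
  · intro u h1 h2
    have h5 := mul_le_mul_of_nonneg_right (Real.add_one_le_exp (3 / 50 * u ^ 2)) (hq u)
    rw [add_comm (3 / 50 * u ^ 2) 1] at h5
    have h6 : 0 ≤ Real.exp (3 / 50 * u ^ 2) * (1 + u + 473 / 1000 * u ^ 2) :=
      mul_nonneg (Real.exp_nonneg _) (hq u)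
    rw [Real.exp_add, mul_assoc]
    refine ((ev_exp_p h1 (by linarith)).trans ?_).trans
      ((mul_le_mul_of_nonneg_left h5
        (by norm_num : (0 : ℝ) ≤ (1 + 1 / 50 + (1 / 50) ^ 2 / 2))).trans
        (mul_le_mul_of_nonneg_right hde h6))
    exact ev_eight_e33_e0 u (by linarith) (by linarith)
  · intro u h1
    have h4 : 0 ≤ (1 + (u - 1 / 3) / 8) ^ 8 := by
      have : 0 ≤ (u - 1 / 3) / 8 := div_nonneg (by linarith) (by norm_num)
      positivity
    have hE : Real.exp (1 / 3) ≤ 69781 / 50000 := ev_up_1_3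
    have hx : 0 ≤ 3 / 50 * u ^ 2 := by positivity
    have h5 := mul_le_mul_of_nonneg_right (taylor3_le_expE _ hx) (hq u)
    have h6 : 0 ≤ Real.exp (3 / 50 * u ^ 2) * (1 + u + 473 / 1000 * u ^ 2) :=
      mul_nonneg (Real.exp_nonneg _) (hq u)
    rw [Real.exp_add, mul_assoc]
    push_cast
    refine ((mul_le_mul_of_nonneg_right hE h4).trans ?_).trans
      ((mul_le_mul_of_nonneg_left h5
        (by norm_num : (0 : ℝ) ≤ (1 + 1 / 50 + (1 / 50) ^ 2 / 2))).trans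
        (mul_le_mul_of_nonneg_right hde h6))
    rcases le_total u (7 / 6) with hh | hh
    · exact ev_eight_e33_g0 u (by linarith) (by linarith)
    rcases le_total u (19 / 12) with hh | hh
    · exact ev_eight_e33_g1 u (by linarith) (by linarith)
    rcases le_total u (2) with hh | hh
    · exact ev_eight_e33_g2 u (by linarith) (by linarith)
    exact ev_eight_e33_t u (by linarith)

theorem ev_eight_e34_a0 (u : ℝ) (h1 : -1 ≤ u) (h2 : u ≤ 0) :
    1 + u + u ^ 2 / 2 + u ^ 3 / 6 + u ^ 4 / 24 ≤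
      (1 + 1 / 20 + (1 / 20) ^ 2 / 2) * (1 + u + 49 / 125 * u ^ 2) := by
  obtain ⟨s, hs⟩ : ∃ s, s = u - (-1) := ⟨_, rfl⟩
  obtain ⟨t, ht⟩ : ∃ t, t = 0 - u := ⟨_, rfl⟩
  have hs0 : 0 ≤ s := by linarith
  have ht0 : 0 ≤ t := by linarith
  have h : 0 ≤
      3709 / 100000 * t ^ 4 + 12629 / 300000 * s * t ^ 3 + 823 / 12500 * s ^ 2 * t ^ 2 +
      123 / 800 * s ^ 3 * t + 41 / 800 * s ^ 4 := by
    positivity
  have e :
      3709 / 100000 * t ^ 4 + 12629 / 300000 * s * t ^ 3 + 823 / 12500 * s ^ 2 * t ^ 2 +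
      123 / 800 * s ^ 3 * t + 41 / 800 * s ^ 4 =
      (1 + 1 / 20 + (1 / 20) ^ 2 / 2) * (1 + u + 49 / 125 * u ^ 2) -
      (1 + u + u ^ 2 / 2 + u ^ 3 / 6 + u ^ 4 / 24) := by
    rw [hs, ht]
    ring
  rw [e] at h
  linarith

theorem ev_eight_e34_b0 (u : ℝ) (h1 : -2 ≤ u) (h2 : u ≤ -1) :
    36788 / 100000 *
      (1 + (u + 1) + (u + 1) ^ 2 / 2 + (u + 1) ^ 3 / 6 + (u + 1) ^ 4 / 24) ≤
      (1 + 1 / 20 + (1 / 20) ^ 2 / 2) * (1 + u + 49 / 125 * u ^ 2) := by
  obtain ⟨s, hs⟩ : ∃ s, s = u - (-2) := ⟨_, rfl⟩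
  obtain ⟨t, ht⟩ : ∃ t, t = -1 - u := ⟨_, rfl⟩
  have hs0 : 0 ≤ s := by linarith
  have ht0 : 0 ≤ t := by linarith
  have h : 0 ≤
      91831 / 200000 * t ^ 4 + 67013 / 60000 * s * t ^ 3 + 2862 / 3125 * s ^ 2 * t ^ 2 +
      6353 / 20000 * s ^ 3 * t + 4421 / 100000 * s ^ 4 := by
    positivity
  have e :
      91831 / 200000 * t ^ 4 + 67013 / 60000 * s * t ^ 3 + 2862 / 3125 * s ^ 2 * t ^ 2 +
      6353 / 20000 * s ^ 3 * t + 4421 / 100000 * s ^ 4 =
      (1 + 1 / 20 + (1 / 20) ^ 2 / 2) * (1 + u + 49 / 125 * u ^ 2) -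
      (36788 / 100000 *
      (1 + (u + 1) + (u + 1) ^ 2 / 2 + (u + 1) ^ 3 / 6 + (u + 1) ^ 4 / 24)) := by
    rw [hs, ht]
    ring
  rw [e] at h
  linarith

theorem ev_eight_e34_c0 (u : ℝ) (h1 : -3 ≤ u) (h2 : u ≤ -2) :
    13534 / 100000 *
      (1 + (u + 2) + (u + 2) ^ 2 / 2 + (u + 2) ^ 3 / 6 + (u + 2) ^ 4 / 24) ≤
      (1 + 1 / 20 + (1 / 20) ^ 2 / 2) * (1 + u + 49 / 125 * u ^ 2) := by
  obtain ⟨s, hs⟩ : ∃ s, s = u - (-3) := ⟨_, rfl⟩
  obtain ⟨t, ht⟩ : ∃ t, t = -2 - u := ⟨_, rfl⟩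
  have hs0 : 0 ≤ s := by linarith
  have ht0 : 0 ≤ t := by linarith
  have h : 0 ≤
      622223 / 400000 * t ^ 4 + 356687 / 75000 * s * t ^ 3 +
      531239 / 100000 * s ^ 2 * t ^ 2 + 257953 / 100000 * s ^ 3 * t + 46177 / 100000 * s ^ 4 := by
    positivity
  have e :
      622223 / 400000 * t ^ 4 + 356687 / 75000 * s * t ^ 3 +
      531239 / 100000 * s ^ 2 * t ^ 2 + 257953 / 100000 * s ^ 3 * t + 46177 / 100000 * s ^ 4 =
      (1 + 1 / 20 + (1 / 20) ^ 2 / 2) * (1 + u + 49 / 125 * u ^ 2) -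
      (13534 / 100000 *
      (1 + (u + 2) + (u + 2) ^ 2 / 2 + (u + 2) ^ 3 / 6 + (u + 2) ^ 4 / 24)) := by
    rw [hs, ht]
    ring
  rw [e] at h
  linarith

theorem ev_eight_e34_d (u : ℝ) (h2 : u ≤ -3) :
    4979 / 100000 ≤
      (1 + 1 / 20 + (1 / 20) ^ 2 / 2) * (1 + u + 49 / 125 * u ^ 2) := by
  obtain ⟨s, hs⟩ : ∃ s, s = -3 - u := ⟨_, rfl⟩
  have hs0 : 0 ≤ s := by linarith
  have h : 0 ≤
      38913 / 25000 + 142129 / 100000 * s + 41209 / 100000 * s ^ 2 := by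
    positivity
  have e :
      38913 / 25000 + 142129 / 100000 * s + 41209 / 100000 * s ^ 2 =
      (1 + 1 / 20 + (1 / 20) ^ 2 / 2) * (1 + u + 49 / 125 * u ^ 2) -
      (4979 / 100000) := by
    rw [hs]
    ring
  rw [e] at h
  linarith

theorem ev_eight_e34_e0 (u : ℝ) (h1 : 0 ≤ u) (h2 : u ≤ 1 / 3) :
    1 + u + u ^ 2 / 2 + u ^ 3 / 6 + u ^ 4 / 24 + u ^ 5 / 100 ≤
      (1 + 1 / 20 + (1 / 20) ^ 2 / 2) * ((1 + 7 / 100 * u ^ 2) *
      (1 + u + 49 / 125 * u ^ 2)) := by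
  obtain ⟨s, hs⟩ : ∃ s, s = u - (0) := ⟨_, rfl⟩
  obtain ⟨t, ht⟩ : ∃ t, t = 1 / 3 - u := ⟨_, rfl⟩
  have hs0 : 0 ≤ s := by linarith
  have ht0 : 0 ≤ t := by linarith
  have h : 0 ≤
      9963 / 800 * t ^ 5 + 3321 / 50 * s * t ^ 4 + 56302317 / 400000 * s ^ 2 * t ^ 3 +
      29489433 / 200000 * s ^ 3 * t ^ 2 + 379998707 / 5000000 * s ^ 4 * t +
      153321189 / 10000000 * s ^ 5 := by
    positivity
  have e :
      9963 / 800 * t ^ 5 + 3321 / 50 * s * t ^ 4 + 56302317 / 400000 * s ^ 2 * t ^ 3 +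
      29489433 / 200000 * s ^ 3 * t ^ 2 + 379998707 / 5000000 * s ^ 4 * t +
      153321189 / 10000000 * s ^ 5 =
      (1 + 1 / 20 + (1 / 20) ^ 2 / 2) * ((1 + 7 / 100 * u ^ 2) *
      (1 + u + 49 / 125 * u ^ 2)) -
      (1 + u + u ^ 2 / 2 + u ^ 3 / 6 + u ^ 4 / 24 + u ^ 5 / 100) := by
    rw [hs, ht]
    ring
  rw [e] at h
  linarith

theorem ev_eight_e34_g0 (u : ℝ) (h1 : 1 / 3 ≤ u) (h2 : u ≤ 7 / 6) :
    69781 / 50000 * (1 + (u - 1 / 3) / 8) ^ 8 ≤
      (1 + 1 / 20 + (1 / 20) ^ 2 / 2) * ((1 + (7 / 100 * u ^ 2) + (7 / 100 * u ^ 2) ^ 2 / 2 +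
      (7 / 100 * u ^ 2) ^ 3 / 6) *
      (1 + u + 49 / 125 * u ^ 2)) := by
  obtain ⟨s, hs⟩ : ∃ s, s = u - (1 / 3) := ⟨_, rfl⟩
  obtain ⟨t, ht⟩ : ∃ t, t = 7 / 6 - u := ⟨_, rfl⟩
  have hs0 : 0 ≤ s := by linarith
  have ht0 : 0 ≤ t := by linarith
  have h : 0 ≤
      248542429409887 / 915527343750000 * t ^ 8 +
      4034319346832297 / 1831054687500000 * s * t ^ 7 +
      3540534687314933 / 457763671875000 * s ^ 2 * t ^ 6 +
      111745392981243371 / 7324218750000000 * s ^ 3 * t ^ 5 +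
      431450672291076319 / 23437500000000000 * s ^ 4 * t ^ 4 +
      6489900241303940489 / 468750000000000000 * s ^ 5 * t ^ 3 +
      94599067569382687759 / 15000000000000000000 * s ^ 6 * t ^ 2 +
      189928912631006414447 / 120000000000000000000 * s ^ 7 * t +
      2566272206615693407657 / 15360000000000000000000 * s ^ 8 := by
    positivity
  have e :
      248542429409887 / 915527343750000 * t ^ 8 +
      4034319346832297 / 1831054687500000 * s * t ^ 7 +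
      3540534687314933 / 457763671875000 * s ^ 2 * t ^ 6 +
      111745392981243371 / 7324218750000000 * s ^ 3 * t ^ 5 +
      431450672291076319 / 23437500000000000 * s ^ 4 * t ^ 4 +
      6489900241303940489 / 468750000000000000 * s ^ 5 * t ^ 3 +
      94599067569382687759 / 15000000000000000000 * s ^ 6 * t ^ 2 +
      189928912631006414447 / 120000000000000000000 * s ^ 7 * t +
      2566272206615693407657 / 15360000000000000000000 * s ^ 8 =
      (1 + 1 / 20 + (1 / 20) ^ 2 / 2) * ((1 + (7 / 100 * u ^ 2) + (7 / 100 * u ^ 2) ^ 2 / 2 +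
      (7 / 100 * u ^ 2) ^ 3 / 6) *
      (1 + u + 49 / 125 * u ^ 2)) -
      (69781 / 50000 * (1 + (u - 1 / 3) / 8) ^ 8) := by
    rw [hs, ht]
    ring
  rw [e] at h
  linarith

theorem ev_eight_e34_g1 (u : ℝ) (h1 : 7 / 6 ≤ u) (h2 : u ≤ 19 / 12) :
    69781 / 50000 * (1 + (u - 1 / 3) / 8) ^ 8 ≤
      (1 + 1 / 20 + (1 / 20) ^ 2 / 2) * ((1 + (7 / 100 * u ^ 2) + (7 / 100 * u ^ 2) ^ 2 / 2 +
      (7 / 100 * u ^ 2) ^ 3 / 6) *
      (1 + u + 49 / 125 * u ^ 2)) := by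
  obtain ⟨s, hs⟩ : ∃ s, s = u - (7 / 6) := ⟨_, rfl⟩
  obtain ⟨t, ht⟩ : ∃ t, t = 19 / 12 - u := ⟨_, rfl⟩
  have hs0 : 0 ≤ s := by linarith
  have ht0 : 0 ≤ t := by linarith
  have h : 0 ≤
      2566272206615693407657 / 60000000000000000000 * t ^ 8 +
      4659954017750977591819 / 15000000000000000000 * s * t ^ 7 +
      58260281026514342240311 / 60000000000000000000 * s ^ 2 * t ^ 6 +
      102054035545679429113237 / 60000000000000000000 * s ^ 3 * t ^ 5 +
      174717698644287543297679 / 96000000000000000000 * s ^ 4 * t ^ 4 +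
      291144156543634885528093 / 240000000000000000000 * s ^ 5 * t ^ 3 +
      470147040667456881803431 / 960000000000000000000 * s ^ 6 * t ^ 2 +
      104760357473692592498611 / 960000000000000000000 * s ^ 7 * t +
      158236051366301826939337 / 15360000000000000000000 * s ^ 8 := by
    positivity
  have e :
      2566272206615693407657 / 60000000000000000000 * t ^ 8 +
      4659954017750977591819 / 15000000000000000000 * s * t ^ 7 +
      58260281026514342240311 / 60000000000000000000 * s ^ 2 * t ^ 6 +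
      102054035545679429113237 / 60000000000000000000 * s ^ 3 * t ^ 5 +
      174717698644287543297679 / 96000000000000000000 * s ^ 4 * t ^ 4 +
      291144156543634885528093 / 240000000000000000000 * s ^ 5 * t ^ 3 +
      470147040667456881803431 / 960000000000000000000 * s ^ 6 * t ^ 2 +
      104760357473692592498611 / 960000000000000000000 * s ^ 7 * t +
      158236051366301826939337 / 15360000000000000000000 * s ^ 8 =
      (1 + 1 / 20 + (1 / 20) ^ 2 / 2) * ((1 + (7 / 100 * u ^ 2) + (7 / 100 * u ^ 2) ^ 2 / 2 +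
      (7 / 100 * u ^ 2) ^ 3 / 6) *
      (1 + u + 49 / 125 * u ^ 2)) -
      (69781 / 50000 * (1 + (u - 1 / 3) / 8) ^ 8) := by
    rw [hs, ht]
    ring
  rw [e] at h
  linarith

theorem ev_eight_e34_g2 (u : ℝ) (h1 : 19 / 12 ≤ u) (h2 : u ≤ 2) :
    69781 / 50000 * (1 + (u - 1 / 3) / 8) ^ 8 ≤
      (1 + 1 / 20 + (1 / 20) ^ 2 / 2) * ((1 + (7 / 100 * u ^ 2) + (7 / 100 * u ^ 2) ^ 2 / 2 +
      (7 / 100 * u ^ 2) ^ 3 / 6) *
      (1 + u + 49 / 125 * u ^ 2)) := by
  obtain ⟨s, hs⟩ : ∃ s, s = u - (19 / 12) := ⟨_, rfl⟩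
  obtain ⟨t, ht⟩ : ∃ t, t = 2 - u := ⟨_, rfl⟩
  have hs0 : 0 ≤ s := by linarith
  have ht0 : 0 ≤ t := by linarith
  have h : 0 ≤
      158236051366301826939337 / 15360000000000000000000 * t ^ 8 +
      8912615648768205740121 / 160000000000000000000 * s * t ^ 7 +
      9262866299989447949853 / 80000000000000000000 * s ^ 2 * t ^ 6 +
      1124242419804337749447 / 10000000000000000000 * s ^ 3 * t ^ 5 +
      112201391150197721253 / 2000000000000000000 * s ^ 4 * t ^ 4 +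
      27116113529690638047 / 625000000000000000 * s ^ 5 * t ^ 3 +
      19486313671512172653 / 312500000000000000 * s ^ 6 * t ^ 2 +
      1720317520345549521 / 39062500000000000 * s ^ 7 * t +
      860114772935900579 / 78125000000000000 * s ^ 8 := by
    positivity
  have e :
      158236051366301826939337 / 15360000000000000000000 * t ^ 8 +
      8912615648768205740121 / 160000000000000000000 * s * t ^ 7 +
      9262866299989447949853 / 80000000000000000000 * s ^ 2 * t ^ 6 +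
      1124242419804337749447 / 10000000000000000000 * s ^ 3 * t ^ 5 +
      112201391150197721253 / 2000000000000000000 * s ^ 4 * t ^ 4 +
      27116113529690638047 / 625000000000000000 * s ^ 5 * t ^ 3 +
      19486313671512172653 / 312500000000000000 * s ^ 6 * t ^ 2 +
      1720317520345549521 / 39062500000000000 * s ^ 7 * t +
      860114772935900579 / 78125000000000000 * s ^ 8 =
      (1 + 1 / 20 + (1 / 20) ^ 2 / 2) * ((1 + (7 / 100 * u ^ 2) + (7 / 100 * u ^ 2) ^ 2 / 2 +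
      (7 / 100 * u ^ 2) ^ 3 / 6) *
      (1 + u + 49 / 125 * u ^ 2)) -
      (69781 / 50000 * (1 + (u - 1 / 3) / 8) ^ 8) := by
    rw [hs, ht]
    ring
  rw [e] at h
  linarith

theorem ev_eight_e34_t (u : ℝ) (h1 : 2 ≤ u) :
    69781 / 50000 * (1 + (u - 1 / 3) / 8) ^ 8 ≤
      (1 + 1 / 20 + (1 / 20) ^ 2 / 2) * ((1 + (7 / 100 * u ^ 2) + (7 / 100 * u ^ 2) ^ 2 / 2 +
      (7 / 100 * u ^ 2) ^ 3 / 6) *
      (1 + u + 49 / 125 * u ^ 2)) := by
  obtain ⟨s, hs⟩ : ∃ s, s = u - (2) := ⟨_, rfl⟩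
  have hs0 : 0 ≤ s := by linarith
  have h : 0 ≤
      860114772935900579 / 85996339200000000000 +
      344028314279610559 / 3583180800000000000 * s +
      779255484039290573 / 2388787200000000000 * s ^ 2 +
      112195055741074033 / 398131200000000000 * s ^ 3 +
      12074182051560293 / 106168320000000000 * s ^ 4 +
      1185823464101353 / 44236800000000000 * s ^ 5 +
      127752699665213 / 29491200000000000 * s ^ 6 +
      2116428290839 / 4915200000000000 * s ^ 7 + 923059862857 / 39321600000000000 * s ^ 8 := by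
    positivity
  have e :
      860114772935900579 / 85996339200000000000 +
      344028314279610559 / 3583180800000000000 * s +
      779255484039290573 / 2388787200000000000 * s ^ 2 +
      112195055741074033 / 398131200000000000 * s ^ 3 +
      12074182051560293 / 106168320000000000 * s ^ 4 +
      1185823464101353 / 44236800000000000 * s ^ 5 +
      127752699665213 / 29491200000000000 * s ^ 6 +
      2116428290839 / 4915200000000000 * s ^ 7 + 923059862857 / 39321600000000000 * s ^ 8 =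
      (1 + 1 / 20 + (1 / 20) ^ 2 / 2) * ((1 + (7 / 100 * u ^ 2) + (7 / 100 * u ^ 2) ^ 2 / 2 +
      (7 / 100 * u ^ 2) ^ 3 / 6) *
      (1 + u + 49 / 125 * u ^ 2)) -
      (69781 / 50000 * (1 + (u - 1 / 3) / 8) ^ 8) := by
    rw [hs]
    ring
  rw [e] at h
  linarith

/-- `K = 8`: `(c, μ, P, δ) = (49 / 125, 7 / 100, 1 / 3, 1 / 20)` -/
theorem expFd_eight_e34 : ExpFd 8 (49 / 125) (7 / 100) (1 / 3) (1 / 20) := by
  have hde : (1 + 1 / 20 + (1 / 20) ^ 2 / 2) ≤ Real.exp (1 / 20) :=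
    Real.quadratic_le_exp_of_nonneg (by norm_num)
  have hq : ∀ u : ℝ, 0 ≤ 1 + u + 49 / 125 * u ^ 2 := fun u => by
    nlinarith [sq_nonneg (u + 2), sq_nonneg u]
  have hR : ∀ (u x y : ℝ), x ≤ y →
      y ≤ (1 + 1 / 20 + (1 / 20) ^ 2 / 2) * (1 + u + 49 / 125 * u ^ 2) →
      x ≤ Real.exp (1 / 20) * (1 + u + 49 / 125 * u ^ 2) := fun u x y h1 h2 =>
    (h1.trans h2).trans (mul_le_mul_of_nonneg_right hde (hq u))
  refine ExpFd.of (by norm_num) (by norm_num) (by norm_num) (by norm_num) (by norm_num) ?_ ?_ ?_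
  · intro u h1
    rcases le_total u (-3) with h3 | h3
    · exact hR u _ _ (ev_exp_n3 h3) (ev_eight_e34_d u h3)
    rcases le_total u (-2) with h4 | h4
    · refine hR u _ _ (ev_exp_n2 h4) ?_
      exact ev_eight_e34_c0 u (by linarith) (by linarith)
    rcases le_total u (-1) with h5 | h5
    · refine hR u _ _ (ev_exp_n1 h5) ?_
      exact ev_eight_e34_b0 u (by linarith) (by linarith)
    refine hR u _ _ (ev_exp_n0 h1) ?_
    exact ev_eight_e34_a0 u (by linarith) (by linarith)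
  · intro u h1 h2
    have h5 := mul_le_mul_of_nonneg_right (Real.add_one_le_exp (7 / 100 * u ^ 2)) (hq u)
    rw [add_comm (7 / 100 * u ^ 2) 1] at h5
    have h6 : 0 ≤ Real.exp (7 / 100 * u ^ 2) * (1 + u + 49 / 125 * u ^ 2) :=
      mul_nonneg (Real.exp_nonneg _) (hq u)
    rw [Real.exp_add, mul_assoc]
    refine ((ev_exp_p h1 (by linarith)).trans ?_).trans
      ((mul_le_mul_of_nonneg_left h5
        (by norm_num : (0 : ℝ) ≤ (1 + 1 / 20 + (1 / 20) ^ 2 / 2))).trans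
        (mul_le_mul_of_nonneg_right hde h6))
    exact ev_eight_e34_e0 u (by linarith) (by linarith)
  · intro u h1
    have h4 : 0 ≤ (1 + (u - 1 / 3) / 8) ^ 8 := by
      have : 0 ≤ (u - 1 / 3) / 8 := div_nonneg (by linarith) (by norm_num)
      positivity
    have hE : Real.exp (1 / 3) ≤ 69781 / 50000 := ev_up_1_3
    have hx : 0 ≤ 7 / 100 * u ^ 2 := by positivity
    have h5 := mul_le_mul_of_nonneg_right (taylor3_le_expE _ hx) (hq u)
    have h6 : 0 ≤ Real.exp (7 / 100 * u ^ 2) * (1 + u + 49 / 125 * u ^ 2) :=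
      mul_nonneg (Real.exp_nonneg _) (hq u)
    rw [Real.exp_add, mul_assoc]
    push_cast
    refine ((mul_le_mul_of_nonneg_right hE h4).trans ?_).trans
      ((mul_le_mul_of_nonneg_left h5
        (by norm_num : (0 : ℝ) ≤ (1 + 1 / 20 + (1 / 20) ^ 2 / 2))).trans
        (mul_le_mul_of_nonneg_right hde h6))
    rcases le_total u (7 / 6) with hh | hh
    · exact ev_eight_e34_g0 u (by linarith) (by linarith)
    rcases le_total u (19 / 12) with hh | hh
    · exact ev_eight_e34_g1 u (by linarith) (by linarith)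
    rcases le_total u (2) with hh | hh
    · exact ev_eight_e34_g2 u (by linarith) (by linarith)
    exact ev_eight_e34_t u (by linarith)

theorem ev_eight_e35_a0 (u : ℝ) (h1 : -1 ≤ u) (h2 : u ≤ 0) :
    1 + u + u ^ 2 / 2 + u ^ 3 / 6 + u ^ 4 / 24 ≤
      (1 + 1 / 10 + (1 / 10) ^ 2 / 2) * (1 + u + 17 / 50 * u ^ 2) := by
  obtain ⟨s, hs⟩ : ∃ s, s = u - (-1) := ⟨_, rfl⟩
  obtain ⟨t, ht⟩ : ∃ t, t = 0 - u := ⟨_, rfl⟩
  have hs0 : 0 ≤ s := by linarith
  have ht0 : 0 ≤ t := by linarith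
  have h : 0 ≤
      7 / 10000 * t ^ 4 + 173 / 7500 * s * t ^ 3 + 1907 / 10000 * s ^ 2 * t ^ 2 +
      63 / 200 * s ^ 3 * t + 21 / 200 * s ^ 4 := by
    positivity
  have e :
      7 / 10000 * t ^ 4 + 173 / 7500 * s * t ^ 3 + 1907 / 10000 * s ^ 2 * t ^ 2 +
      63 / 200 * s ^ 3 * t + 21 / 200 * s ^ 4 =
      (1 + 1 / 10 + (1 / 10) ^ 2 / 2) * (1 + u + 17 / 50 * u ^ 2) -
      (1 + u + u ^ 2 / 2 + u ^ 3 / 6 + u ^ 4 / 24) := by
    rw [hs, ht]
    ring
  rw [e] at h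
  linarith

theorem ev_eight_e35_b0 (u : ℝ) (h1 : -2 ≤ u) (h2 : u ≤ -1) :
    36788 / 100000 *
      (1 + (u + 1) + (u + 1) ^ 2 / 2 + (u + 1) ^ 3 / 6 + (u + 1) ^ 4 / 24) ≤
      (1 + 1 / 10 + (1 / 10) ^ 2 / 2) * (1 + u + 17 / 50 * u ^ 2) := by
  obtain ⟨s, hs⟩ : ∃ s, s = u - (-2) := ⟨_, rfl⟩
  obtain ⟨t, ht⟩ : ∃ t, t = -1 - u := ⟨_, rfl⟩
  have hs0 : 0 ≤ s := by linarith
  have ht0 : 0 ≤ t := by linarith
  have h : 0 ≤
      51969 / 200000 * t ^ 4 + 77843 / 150000 * s * t ^ 3 + 3519 / 12500 * s ^ 2 * t ^ 2 +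
      1139 / 25000 * s ^ 3 * t + 391 / 50000 * s ^ 4 := by
    positivity
  have e :
      51969 / 200000 * t ^ 4 + 77843 / 150000 * s * t ^ 3 + 3519 / 12500 * s ^ 2 * t ^ 2 +
      1139 / 25000 * s ^ 3 * t + 391 / 50000 * s ^ 4 =
      (1 + 1 / 10 + (1 / 10) ^ 2 / 2) * (1 + u + 17 / 50 * u ^ 2) -
      (36788 / 100000 *
      (1 + (u + 1) + (u + 1) ^ 2 / 2 + (u + 1) ^ 3 / 6 + (u + 1) ^ 4 / 24)) := by
    rw [hs, ht]
    ring
  rw [e] at h
  linarith

theorem ev_eight_e35_c0 (u : ℝ) (h1 : -3 ≤ u) (h2 : u ≤ -2) :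
    13534 / 100000 *
      (1 + (u + 2) + (u + 2) ^ 2 / 2 + (u + 2) ^ 3 / 6 + (u + 2) ^ 4 / 24) ≤
      (1 + 1 / 10 + (1 / 10) ^ 2 / 2) * (1 + u + 17 / 50 * u ^ 2) := by
  obtain ⟨s, hs⟩ : ∃ s, s = u - (-3) := ⟨_, rfl⟩
  obtain ⟨t, ht⟩ : ∃ t, t = -2 - u := ⟨_, rfl⟩
  have hs0 : 0 ≤ s := by linarith
  have ht0 : 0 ≤ t := by linarith
  have h : 0 ≤
      448219 / 400000 * t ^ 4 + 986363 / 300000 * s * t ^ 3 +
      348221 / 100000 * s ^ 2 * t ^ 2 + 79149 / 50000 * s ^ 3 * t + 13123 / 50000 * s ^ 4 := by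
    positivity
  have e :
      448219 / 400000 * t ^ 4 + 986363 / 300000 * s * t ^ 3 +
      348221 / 100000 * s ^ 2 * t ^ 2 + 79149 / 50000 * s ^ 3 * t + 13123 / 50000 * s ^ 4 =
      (1 + 1 / 10 + (1 / 10) ^ 2 / 2) * (1 + u + 17 / 50 * u ^ 2) -
      (13534 / 100000 *
      (1 + (u + 2) + (u + 2) ^ 2 / 2 + (u + 2) ^ 3 / 6 + (u + 2) ^ 4 / 24)) := by
    rw [hs, ht]
    ring
  rw [e] at h
  linarith

theorem ev_eight_e35_d (u : ℝ) (h2 : u ≤ -3) :
    4979 / 100000 ≤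
      (1 + 1 / 10 + (1 / 10) ^ 2 / 2) * (1 + u + 17 / 50 * u ^ 2) := by
  obtain ⟨s, hs⟩ : ∃ s, s = -3 - u := ⟨_, rfl⟩
  have hs0 : 0 ≤ s := by linarith
  have h : 0 ≤
      112151 / 100000 + 2873 / 2500 * s + 3757 / 10000 * s ^ 2 := by
    positivity
  have e :
      112151 / 100000 + 2873 / 2500 * s + 3757 / 10000 * s ^ 2 =
      (1 + 1 / 10 + (1 / 10) ^ 2 / 2) * (1 + u + 17 / 50 * u ^ 2) -
      (4979 / 100000) := by
    rw [hs]
    ring
  rw [e] at h
  linarith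

theorem ev_eight_e35_e0 (u : ℝ) (h1 : 0 ≤ u) (h2 : u ≤ 1 / 3) :
    1 + u + u ^ 2 / 2 + u ^ 3 / 6 + u ^ 4 / 24 + u ^ 5 / 100 ≤
      (1 + 1 / 10 + (1 / 10) ^ 2 / 2) * ((1 + 7 / 100 * u ^ 2) *
      (1 + u + 17 / 50 * u ^ 2)) := by
  obtain ⟨s, hs⟩ : ∃ s, s = u - (0) := ⟨_, rfl⟩
  obtain ⟨t, ht⟩ : ∃ t, t = 1 / 3 - u := ⟨_, rfl⟩
  have hs0 : 0 ≤ s := by linarith
  have ht0 : 0 ≤ t := by linarith
  have h : 0 ≤
      5103 / 200 * t ^ 5 + 3402 / 25 * s * t ^ 4 + 5758047 / 20000 * s ^ 2 * t ^ 3 +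
      753933 / 2500 * s ^ 3 * t ^ 2 + 156138247 / 1000000 * s ^ 4 * t +
      31892397 / 1000000 * s ^ 5 := by
    positivity
  have e :
      5103 / 200 * t ^ 5 + 3402 / 25 * s * t ^ 4 + 5758047 / 20000 * s ^ 2 * t ^ 3 +
      753933 / 2500 * s ^ 3 * t ^ 2 + 156138247 / 1000000 * s ^ 4 * t +
      31892397 / 1000000 * s ^ 5 =
      (1 + 1 / 10 + (1 / 10) ^ 2 / 2) * ((1 + 7 / 100 * u ^ 2) *
      (1 + u + 17 / 50 * u ^ 2)) -
      (1 + u + u ^ 2 / 2 + u ^ 3 / 6 + u ^ 4 / 24 + u ^ 5 / 100) := by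
    rw [hs, ht]
    ring
  rw [e] at h
  linarith

theorem ev_eight_e35_g0 (u : ℝ) (h1 : 1 / 3 ≤ u) (h2 : u ≤ 5 / 3) :
    69781 / 50000 * (1 + (u - 1 / 3) / 8) ^ 8 ≤
      (1 + 1 / 10 + (1 / 10) ^ 2 / 2) * ((1 + (7 / 100 * u ^ 2) + (7 / 100 * u ^ 2) ^ 2 / 2 +
      (7 / 100 * u ^ 2) ^ 3 / 6) *
      (1 + u + 17 / 50 * u ^ 2)) := by
  obtain ⟨s, hs⟩ : ∃ s, s = u - (1 / 3) := ⟨_, rfl⟩
  obtain ⟨t, ht⟩ : ∃ t, t = 5 / 3 - u := ⟨_, rfl⟩
  have hs0 : 0 ≤ s := by linarith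
  have ht0 : 0 ≤ t := by linarith
  have h : 0 ≤
      51682700741551 / 3932160000000000 * t ^ 8 +
      2720885879629 / 24576000000000 * s * t ^ 7 +
      15585275207959 / 39321600000000 * s ^ 2 * t ^ 6 +
      1536282467309 / 1966080000000 * s ^ 3 * t ^ 5 +
      578924187229 / 629145600000 * s ^ 4 * t ^ 4 +
      25793923549 / 39321600000 * s ^ 5 * t ^ 3 +
      85890979613 / 314572800000 * s ^ 6 * t ^ 2 + 9478059103 / 157286400000 * s ^ 7 * t +
      14215038007 / 2516582400000 * s ^ 8 := by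
    positivity
  have e :
      51682700741551 / 3932160000000000 * t ^ 8 +
      2720885879629 / 24576000000000 * s * t ^ 7 +
      15585275207959 / 39321600000000 * s ^ 2 * t ^ 6 +
      1536282467309 / 1966080000000 * s ^ 3 * t ^ 5 +
      578924187229 / 629145600000 * s ^ 4 * t ^ 4 +
      25793923549 / 39321600000 * s ^ 5 * t ^ 3 +
      85890979613 / 314572800000 * s ^ 6 * t ^ 2 + 9478059103 / 157286400000 * s ^ 7 * t +
      14215038007 / 2516582400000 * s ^ 8 =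
      (1 + 1 / 10 + (1 / 10) ^ 2 / 2) * ((1 + (7 / 100 * u ^ 2) + (7 / 100 * u ^ 2) ^ 2 / 2 +
      (7 / 100 * u ^ 2) ^ 3 / 6) *
      (1 + u + 17 / 50 * u ^ 2)) -
      (69781 / 50000 * (1 + (u - 1 / 3) / 8) ^ 8) := by
    rw [hs, ht]
    ring
  rw [e] at h
  linarith

theorem ev_eight_e35_g1 (u : ℝ) (h1 : 5 / 3 ≤ u) (h2 : u ≤ 3) :
    69781 / 50000 * (1 + (u - 1 / 3) / 8) ^ 8 ≤
      (1 + 1 / 10 + (1 / 10) ^ 2 / 2) * ((1 + (7 / 100 * u ^ 2) + (7 / 100 * u ^ 2) ^ 2 / 2 +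
      (7 / 100 * u ^ 2) ^ 3 / 6) *
      (1 + u + 17 / 50 * u ^ 2)) := by
  obtain ⟨s, hs⟩ : ∃ s, s = u - (5 / 3) := ⟨_, rfl⟩
  obtain ⟨t, ht⟩ : ∃ t, t = 3 - u := ⟨_, rfl⟩
  have hs0 : 0 ≤ s := by linarith
  have ht0 : 0 ≤ t := by linarith
  have h : 0 ≤
      14215038007 / 2516582400000 * t ^ 8 + 197374121 / 6553600000 * s * t ^ 7 +
      6505285609 / 104857600000 * s ^ 2 * t ^ 6 + 2339047171 / 26214400000 * s ^ 3 * t ^ 5 +
      41199473183 / 209715200000 * s ^ 4 * t ^ 4 + 1034627887 / 2560000000 * s ^ 5 * t ^ 3 +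
      6180099778793 / 13107200000000 * s ^ 6 * t ^ 2 +
      4539950456779 / 16384000000000 * s ^ 7 * t + 85154318399957 / 1310720000000000 * s ^ 8 := by
    positivity
  have e :
      14215038007 / 2516582400000 * t ^ 8 + 197374121 / 6553600000 * s * t ^ 7 +
      6505285609 / 104857600000 * s ^ 2 * t ^ 6 + 2339047171 / 26214400000 * s ^ 3 * t ^ 5 +
      41199473183 / 209715200000 * s ^ 4 * t ^ 4 + 1034627887 / 2560000000 * s ^ 5 * t ^ 3 +
      6180099778793 / 13107200000000 * s ^ 6 * t ^ 2 +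
      4539950456779 / 16384000000000 * s ^ 7 * t + 85154318399957 / 1310720000000000 * s ^ 8 =
      (1 + 1 / 10 + (1 / 10) ^ 2 / 2) * ((1 + (7 / 100 * u ^ 2) + (7 / 100 * u ^ 2) ^ 2 / 2 +
      (7 / 100 * u ^ 2) ^ 3 / 6) *
      (1 + u + 17 / 50 * u ^ 2)) -
      (69781 / 50000 * (1 + (u - 1 / 3) / 8) ^ 8) := by
    rw [hs, ht]
    ring
  rw [e] at h
  linarith

theorem ev_eight_e35_t (u : ℝ) (h1 : 3 ≤ u) :
    69781 / 50000 * (1 + (u - 1 / 3) / 8) ^ 8 ≤
      (1 + 1 / 10 + (1 / 10) ^ 2 / 2) * ((1 + (7 / 100 * u ^ 2) + (7 / 100 * u ^ 2) ^ 2 / 2 +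
      (7 / 100 * u ^ 2) ^ 3 / 6) *
      (1 + u + 17 / 50 * u ^ 2)) := by
  obtain ⟨s, hs⟩ : ∃ s, s = u - (3) := ⟨_, rfl⟩
  have hs0 : 0 ≤ s := by linarith
  have h : 0 ≤
      85154318399957 / 131220000000000 + 39754813832167 / 21870000000000 * s +
      7186853707529 / 3645000000000 * s ^ 2 + 2498870719849 / 2430000000000 * s ^ 3 +
      49976560109 / 162000000000 * s ^ 4 + 7988232077 / 135000000000 * s ^ 5 +
      42955260817 / 5760000000000 * s ^ 6 + 5852478221 / 10240000000000 * s ^ 7 +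
      168251866997 / 7864320000000000 * s ^ 8 := by
    positivity
  have e :
      85154318399957 / 131220000000000 + 39754813832167 / 21870000000000 * s +
      7186853707529 / 3645000000000 * s ^ 2 + 2498870719849 / 2430000000000 * s ^ 3 +
      49976560109 / 162000000000 * s ^ 4 + 7988232077 / 135000000000 * s ^ 5 +
      42955260817 / 5760000000000 * s ^ 6 + 5852478221 / 10240000000000 * s ^ 7 +
      168251866997 / 7864320000000000 * s ^ 8 =
      (1 + 1 / 10 + (1 / 10) ^ 2 / 2) * ((1 + (7 / 100 * u ^ 2) + (7 / 100 * u ^ 2) ^ 2 / 2 +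
      (7 / 100 * u ^ 2) ^ 3 / 6) *
      (1 + u + 17 / 50 * u ^ 2)) -
      (69781 / 50000 * (1 + (u - 1 / 3) / 8) ^ 8) := by
    rw [hs]
    ring
  rw [e] at h
  linarith

/-- `K = 8`: `(c, μ, P, δ) = (17 / 50, 7 / 100, 1 / 3, 1 / 10)` -/
theorem expFd_eight_e35 : ExpFd 8 (17 / 50) (7 / 100) (1 / 3) (1 / 10) := by
  have hde : (1 + 1 / 10 + (1 / 10) ^ 2 / 2) ≤ Real.exp (1 / 10) :=
    Real.quadratic_le_exp_of_nonneg (by norm_num)
  have hq : ∀ u : ℝ, 0 ≤ 1 + u + 17 / 50 * u ^ 2 := fun u => by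
    nlinarith [sq_nonneg (u + 2), sq_nonneg u]
  have hR : ∀ (u x y : ℝ), x ≤ y →
      y ≤ (1 + 1 / 10 + (1 / 10) ^ 2 / 2) * (1 + u + 17 / 50 * u ^ 2) →
      x ≤ Real.exp (1 / 10) * (1 + u + 17 / 50 * u ^ 2) := fun u x y h1 h2 =>
    (h1.trans h2).trans (mul_le_mul_of_nonneg_right hde (hq u))
  refine ExpFd.of (by norm_num) (by norm_num) (by norm_num) (by norm_num) (by norm_num) ?_ ?_ ?_
  · intro u h1
    rcases le_total u (-3) with h3 | h3
    · exact hR u _ _ (ev_exp_n3 h3) (ev_eight_e35_d u h3)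
    rcases le_total u (-2) with h4 | h4
    · refine hR u _ _ (ev_exp_n2 h4) ?_
      exact ev_eight_e35_c0 u (by linarith) (by linarith)
    rcases le_total u (-1) with h5 | h5
    · refine hR u _ _ (ev_exp_n1 h5) ?_
      exact ev_eight_e35_b0 u (by linarith) (by linarith)
    refine hR u _ _ (ev_exp_n0 h1) ?_
    exact ev_eight_e35_a0 u (by linarith) (by linarith)
  · intro u h1 h2
    have h5 := mul_le_mul_of_nonneg_right (Real.add_one_le_exp (7 / 100 * u ^ 2)) (hq u)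
    rw [add_comm (7 / 100 * u ^ 2) 1] at h5
    have h6 : 0 ≤ Real.exp (7 / 100 * u ^ 2) * (1 + u + 17 / 50 * u ^ 2) :=
      mul_nonneg (Real.exp_nonneg _) (hq u)
    rw [Real.exp_add, mul_assoc]
    refine ((ev_exp_p h1 (by linarith)).trans ?_).trans
      ((mul_le_mul_of_nonneg_left h5
        (by norm_num : (0 : ℝ) ≤ (1 + 1 / 10 + (1 / 10) ^ 2 / 2))).trans
        (mul_le_mul_of_nonneg_right hde h6))
    exact ev_eight_e35_e0 u (by linarith) (by linarith)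
  · intro u h1
    have h4 : 0 ≤ (1 + (u - 1 / 3) / 8) ^ 8 := by
      have : 0 ≤ (u - 1 / 3) / 8 := div_nonneg (by linarith) (by norm_num)
      positivity
    have hE : Real.exp (1 / 3) ≤ 69781 / 50000 := ev_up_1_3
    have hx : 0 ≤ 7 / 100 * u ^ 2 := by positivity
    have h5 := mul_le_mul_of_nonneg_right (taylor3_le_expE _ hx) (hq u)
    have h6 : 0 ≤ Real.exp (7 / 100 * u ^ 2) * (1 + u + 17 / 50 * u ^ 2) :=
      mul_nonneg (Real.exp_nonneg _) (hq u)
    rw [Real.exp_add, mul_assoc]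
    push_cast
    refine ((mul_le_mul_of_nonneg_right hE h4).trans ?_).trans
      ((mul_le_mul_of_nonneg_left h5
        (by norm_num : (0 : ℝ) ≤ (1 + 1 / 10 + (1 / 10) ^ 2 / 2))).trans
        (mul_le_mul_of_nonneg_right hde h6))
    rcases le_total u (5 / 3) with hh | hh
    · exact ev_eight_e35_g0 u (by linarith) (by linarith)
    rcases le_total u (3) with hh | hh
    · exact ev_eight_e35_g1 u (by linarith) (by linarith)
    exact ev_eight_e35_t u (by linarith)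

theorem ev_eight_e40_a0 (u : ℝ) (h1 : -1 ≤ u) (h2 : u ≤ 0) :
    1 + u + u ^ 2 / 2 + u ^ 3 / 6 + u ^ 4 / 24 ≤
      (1 + 1 / 500 + (1 / 500) ^ 2 / 2) * (1 + u + 627 / 1000 * u ^ 2) := by
  obtain ⟨s, hs⟩ : ∃ s, s = u - (-1) := ⟨_, rfl⟩
  obtain ⟨t, ht⟩ : ∃ t, t = 0 - u := ⟨_, rfl⟩
  have hs0 : 0 ≤ s := by linarith
  have ht0 : 0 ≤ t := by linarith
  have h : 0 ≤
      126627627 / 500000000 * t ^ 4 + 318884381 / 750000000 * s * t ^ 3 +
      67130627 / 500000000 * s ^ 2 * t ^ 2 + 3003 / 500000 * s ^ 3 * t + 1001 / 500000 * s ^ 4 := by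
    positivity
  have e :
      126627627 / 500000000 * t ^ 4 + 318884381 / 750000000 * s * t ^ 3 +
      67130627 / 500000000 * s ^ 2 * t ^ 2 + 3003 / 500000 * s ^ 3 * t + 1001 / 500000 * s ^ 4 =
      (1 + 1 / 500 + (1 / 500) ^ 2 / 2) * (1 + u + 627 / 1000 * u ^ 2) -
      (1 + u + u ^ 2 / 2 + u ^ 3 / 6 + u ^ 4 / 24) := by
    rw [hs, ht]
    ring
  rw [e] at h
  linarith

theorem ev_eight_e40_b0 (u : ℝ) (h1 : -2 ≤ u) (h2 : u ≤ -1) :
    36788 / 100000 *
      (1 + (u + 1) + (u + 1) ^ 2 / 2 + (u + 1) ^ 3 / 6 + (u + 1) ^ 4 / 24) ≤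
      (1 + 1 / 500 + (1 / 500) ^ 2 / 2) * (1 + u + 627 / 1000 * u ^ 2) := by
  obtain ⟨s, hs⟩ : ∃ s, s = u - (-2) := ⟨_, rfl⟩
  obtain ⟨t, ht⟩ : ∃ t, t = -1 - u := ⟨_, rfl⟩
  have hs0 : 0 ≤ s := by linarith
  have ht0 : 0 ≤ t := by linarith
  have h : 0 ≤
      85816501 / 62500000 * t ^ 4 + 1446978893 / 375000000 * s * t ^ 3 +
      1936866151 / 500000000 * s ^ 2 * t ^ 2 + 415972381 / 250000000 * s ^ 3 * t +
      130187627 / 500000000 * s ^ 4 := by
    positivity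
  have e :
      85816501 / 62500000 * t ^ 4 + 1446978893 / 375000000 * s * t ^ 3 +
      1936866151 / 500000000 * s ^ 2 * t ^ 2 + 415972381 / 250000000 * s ^ 3 * t +
      130187627 / 500000000 * s ^ 4 =
      (1 + 1 / 500 + (1 / 500) ^ 2 / 2) * (1 + u + 627 / 1000 * u ^ 2) -
      (36788 / 100000 *
      (1 + (u + 1) + (u + 1) ^ 2 / 2 + (u + 1) ^ 3 / 6 + (u + 1) ^ 4 / 24)) := by
    rw [hs, ht]
    ring
  rw [e] at h
  linarith

theorem ev_eight_e40_c0 (u : ℝ) (h1 : -3 ≤ u) (h2 : u ≤ -2) :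
    13534 / 100000 *
      (1 + (u + 2) + (u + 2) ^ 2 / 2 + (u + 2) ^ 3 / 6 + (u + 2) ^ 4 / 24) ≤
      (1 + 1 / 500 + (1 / 500) ^ 2 / 2) * (1 + u + 627 / 1000 * u ^ 2) := by
  obtain ⟨s, hs⟩ : ∃ s, s = u - (-3) := ⟨_, rfl⟩
  obtain ⟨t, ht⟩ : ∃ t, t = -2 - u := ⟨_, rfl⟩
  have hs0 : 0 ≤ s := by linarith
  have ht0 : 0 ≤ t := by linarith
  have h : 0 ≤
      1799770393 / 500000000 * t ^ 4 + 1737828043 / 150000000 * s * t ^ 3 +
      6876868199 / 500000000 * s ^ 2 * t ^ 2 + 178726877 / 25000000 * s ^ 3 * t +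
      171959877 / 125000000 * s ^ 4 := by
    positivity
  have e :
      1799770393 / 500000000 * t ^ 4 + 1737828043 / 150000000 * s * t ^ 3 +
      6876868199 / 500000000 * s ^ 2 * t ^ 2 + 178726877 / 25000000 * s ^ 3 * t +
      171959877 / 125000000 * s ^ 4 =
      (1 + 1 / 500 + (1 / 500) ^ 2 / 2) * (1 + u + 627 / 1000 * u ^ 2) -
      (13534 / 100000 *
      (1 + (u + 2) + (u + 2) ^ 2 / 2 + (u + 2) ^ 3 / 6 + (u + 2) ^ 4 / 24)) := by
    rw [hs, ht]
    ring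
  rw [e] at h
  linarith

theorem ev_eight_e40_d (u : ℝ) (h2 : u ≤ -3) :
    4979 / 100000 ≤
      (1 + 1 / 500 + (1 / 500) ^ 2 / 2) * (1 + u + 627 / 1000 * u ^ 2) := by
  obtain ⟨s, hs⟩ : ∃ s, s = -3 - u := ⟨_, rfl⟩
  have hs0 : 0 ≤ s := by linarith
  have h : 0 ≤
      1800251643 / 500000000 + 691882381 / 250000000 * s + 314127627 / 500000000 * s ^ 2 := by
    positivity
  have e :
      1800251643 / 500000000 + 691882381 / 250000000 * s + 314127627 / 500000000 * s ^ 2 =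
      (1 + 1 / 500 + (1 / 500) ^ 2 / 2) * (1 + u + 627 / 1000 * u ^ 2) -
      (4979 / 100000) := by
    rw [hs]
    ring
  rw [e] at h
  linarith

theorem ev_eight_e40_e0 (u : ℝ) (h1 : 0 ≤ u) (h2 : u ≤ 2 / 3) :
    1 + u + u ^ 2 / 2 + u ^ 3 / 6 + u ^ 4 / 24 + u ^ 5 / 100 ≤
      (1 + 1 / 500 + (1 / 500) ^ 2 / 2) * ((1 + 1 / 20 * u ^ 2) *
      (1 + u + 627 / 1000 * u ^ 2)) := by
  obtain ⟨s, hs⟩ : ∃ s, s = u - (0) := ⟨_, rfl⟩
  obtain ⟨t, ht⟩ : ∃ t, t = 2 / 3 - u := ⟨_, rfl⟩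
  have hs0 : 0 ≤ s := by linarith
  have ht0 : 0 ≤ t := by linarith
  have h : 0 ≤
      243243 / 16000000 * t ^ 5 + 1378377 / 16000000 * s * t ^ 4 +
      3178066779 / 4000000000 * s ^ 2 * t ^ 3 + 7025643237 / 4000000000 * s ^ 3 * t ^ 2 +
      3456178727 / 2500000000 * s ^ 4 * t + 3396315013 / 10000000000 * s ^ 5 := by
    positivity
  have e :
      243243 / 16000000 * t ^ 5 + 1378377 / 16000000 * s * t ^ 4 +
      3178066779 / 4000000000 * s ^ 2 * t ^ 3 + 7025643237 / 4000000000 * s ^ 3 * t ^ 2 +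
      3456178727 / 2500000000 * s ^ 4 * t + 3396315013 / 10000000000 * s ^ 5 =
      (1 + 1 / 500 + (1 / 500) ^ 2 / 2) * ((1 + 1 / 20 * u ^ 2) *
      (1 + u + 627 / 1000 * u ^ 2)) -
      (1 + u + u ^ 2 / 2 + u ^ 3 / 6 + u ^ 4 / 24 + u ^ 5 / 100) := by
    rw [hs, ht]
    ring
  rw [e] at h
  linarith

theorem ev_eight_e40_g0 (u : ℝ) (h1 : 2 / 3 ≤ u) (h2 : u ≤ 11 / 6) :
    97387 / 50000 * (1 + (u - 2 / 3) / 8) ^ 8 ≤
      (1 + 1 / 500 + (1 / 500) ^ 2 / 2) * ((1 + (1 / 20 * u ^ 2) + (1 / 20 * u ^ 2) ^ 2 / 2 +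
      (1 / 20 * u ^ 2) ^ 3 / 6) *
      (1 + u + 627 / 1000 * u ^ 2)) := by
  obtain ⟨s, hs⟩ : ∃ s, s = u - (2 / 3) := ⟨_, rfl⟩
  obtain ⟨t, ht⟩ : ∃ t, t = 11 / 6 - u := ⟨_, rfl⟩
  have hs0 : 0 ≤ s := by linarith
  have ht0 : 0 ≤ t := by linarith
  have h : 0 ≤
      18571288565048 / 1407422119140625 * t ^ 8 +
      180213684471151 / 1407422119140625 * s * t ^ 7 +
      860004854501661 / 1608482421875000 * s ^ 2 * t ^ 6 +
      7899644676335077 / 6433929687500000 * s ^ 3 * t ^ 5 +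
      138517716316156753 / 82354300000000000 * s ^ 4 * t ^ 4 +
      2308380540996868797 / 1647086000000000000 * s ^ 5 * t ^ 3 +
      36411449985210074153 / 52706752000000000000 * s ^ 6 * t ^ 2 +
      541170893547940085957 / 2951578112000000000000 * s ^ 7 * t +
      7572690042124693333873 / 377801998336000000000000 * s ^ 8 := by
    positivity
  have e :
      18571288565048 / 1407422119140625 * t ^ 8 +
      180213684471151 / 1407422119140625 * s * t ^ 7 +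
      860004854501661 / 1608482421875000 * s ^ 2 * t ^ 6 +
      7899644676335077 / 6433929687500000 * s ^ 3 * t ^ 5 +
      138517716316156753 / 82354300000000000 * s ^ 4 * t ^ 4 +
      2308380540996868797 / 1647086000000000000 * s ^ 5 * t ^ 3 +
      36411449985210074153 / 52706752000000000000 * s ^ 6 * t ^ 2 +
      541170893547940085957 / 2951578112000000000000 * s ^ 7 * t +
      7572690042124693333873 / 377801998336000000000000 * s ^ 8 =
      (1 + 1 / 500 + (1 / 500) ^ 2 / 2) * ((1 + (1 / 20 * u ^ 2) + (1 / 20 * u ^ 2) ^ 2 / 2 +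
      (1 / 20 * u ^ 2) ^ 3 / 6) *
      (1 + u + 627 / 1000 * u ^ 2)) -
      (97387 / 50000 * (1 + (u - 2 / 3) / 8) ^ 8) := by
    rw [hs, ht]
    ring
  rw [e] at h
  linarith

theorem ev_eight_e40_g1 (u : ℝ) (h1 : 11 / 6 ≤ u) (h2 : u ≤ 29 / 12) :
    97387 / 50000 * (1 + (u - 2 / 3) / 8) ^ 8 ≤
      (1 + 1 / 500 + (1 / 500) ^ 2 / 2) * ((1 + (1 / 20 * u ^ 2) + (1 / 20 * u ^ 2) ^ 2 / 2 +
      (1 / 20 * u ^ 2) ^ 3 / 6) *
      (1 + u + 627 / 1000 * u ^ 2)) := by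
  obtain ⟨s, hs⟩ : ∃ s, s = u - (11 / 6) := ⟨_, rfl⟩
  obtain ⟨t, ht⟩ : ∃ t, t = 29 / 12 - u := ⟨_, rfl⟩
  have hs0 : 0 ≤ s := by linarith
  have ht0 : 0 ≤ t := by linarith
  have h : 0 ≤
      7572690042124693333873 / 1475789056000000000000 * t ^ 8 +
      14059335829607038626307 / 368947264000000000000 * s * t ^ 7 +
      25523135794733770736153 / 210827008000000000000 * s ^ 2 * t ^ 6 +
      45113659194657439137147 / 210827008000000000000 * s ^ 3 * t ^ 5 +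
      77212850662221310455553 / 337323212800000000000 * s ^ 4 * t ^ 4 +
      127059388421585340027827 / 843308032000000000000 * s ^ 5 * t ^ 3 +
      199334969162817244874793 / 3373232128000000000000 * s ^ 6 * t ^ 2 +
      295927376032192889330347 / 23612624896000000000000 * s ^ 7 * t +
      417908813916692074379153 / 377801998336000000000000 * s ^ 8 := by
    positivity
  have e :
      7572690042124693333873 / 1475789056000000000000 * t ^ 8 +
      14059335829607038626307 / 368947264000000000000 * s * t ^ 7 +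
      25523135794733770736153 / 210827008000000000000 * s ^ 2 * t ^ 6 +
      45113659194657439137147 / 210827008000000000000 * s ^ 3 * t ^ 5 +
      77212850662221310455553 / 337323212800000000000 * s ^ 4 * t ^ 4 +
      127059388421585340027827 / 843308032000000000000 * s ^ 5 * t ^ 3 +
      199334969162817244874793 / 3373232128000000000000 * s ^ 6 * t ^ 2 +
      295927376032192889330347 / 23612624896000000000000 * s ^ 7 * t +
      417908813916692074379153 / 377801998336000000000000 * s ^ 8 =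
      (1 + 1 / 500 + (1 / 500) ^ 2 / 2) * ((1 + (1 / 20 * u ^ 2) + (1 / 20 * u ^ 2) ^ 2 / 2 +
      (1 / 20 * u ^ 2) ^ 3 / 6) *
      (1 + u + 627 / 1000 * u ^ 2)) -
      (97387 / 50000 * (1 + (u - 2 / 3) / 8) ^ 8) := by
    rw [hs, ht]
    ring
  rw [e] at h
  linarith

theorem ev_eight_e40_g2 (u : ℝ) (h1 : 29 / 12 ≤ u) (h2 : u ≤ 65 / 24) :
    97387 / 50000 * (1 + (u - 2 / 3) / 8) ^ 8 ≤
      (1 + 1 / 500 + (1 / 500) ^ 2 / 2) * ((1 + (1 / 20 * u ^ 2) + (1 / 20 * u ^ 2) ^ 2 / 2 +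
      (1 / 20 * u ^ 2) ^ 3 / 6) *
      (1 + u + 627 / 1000 * u ^ 2)) := by
  obtain ⟨s, hs⟩ : ∃ s, s = u - (29 / 12) := ⟨_, rfl⟩
  obtain ⟨t, ht⟩ : ∃ t, t = 65 / 24 - u := ⟨_, rfl⟩
  have hs0 : 0 ≤ s := by linarith
  have ht0 : 0 ≤ t := by linarith
  have h : 0 ≤
      417908813916692074379153 / 1475789056000000000000 * t ^ 8 +
      132374337937138088895353 / 73789452800000000000 * s * t ^ 7 +
      201478137903036595389477 / 42165401600000000000 * s ^ 2 * t ^ 6 +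
      58521738100040323186733 / 8433080320000000000 * s ^ 3 * t ^ 5 +
      404871673118053429385837 / 67464642560000000000 * s ^ 4 * t ^ 4 +
      4379394068296303709181 / 1349292851200000000 * s ^ 5 * t ^ 3 +
      32243675284604040596029 / 26985857024000000000 * s ^ 6 * t ^ 2 +
      12743405002472860522501 / 37780199833600000000 * s ^ 7 * t +
      7127448239765815002893 / 120896639467520000000 * s ^ 8 := by
    positivity
  have e :
      417908813916692074379153 / 1475789056000000000000 * t ^ 8 +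
      132374337937138088895353 / 73789452800000000000 * s * t ^ 7 +
      201478137903036595389477 / 42165401600000000000 * s ^ 2 * t ^ 6 +
      58521738100040323186733 / 8433080320000000000 * s ^ 3 * t ^ 5 +
      404871673118053429385837 / 67464642560000000000 * s ^ 4 * t ^ 4 +
      4379394068296303709181 / 1349292851200000000 * s ^ 5 * t ^ 3 +
      32243675284604040596029 / 26985857024000000000 * s ^ 6 * t ^ 2 +
      12743405002472860522501 / 37780199833600000000 * s ^ 7 * t +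
      7127448239765815002893 / 120896639467520000000 * s ^ 8 =
      (1 + 1 / 500 + (1 / 500) ^ 2 / 2) * ((1 + (1 / 20 * u ^ 2) + (1 / 20 * u ^ 2) ^ 2 / 2 +
      (1 / 20 * u ^ 2) ^ 3 / 6) *
      (1 + u + 627 / 1000 * u ^ 2)) -
      (97387 / 50000 * (1 + (u - 2 / 3) / 8) ^ 8) := by
    rw [hs, ht]
    ring
  rw [e] at h
  linarith

theorem ev_eight_e40_g3 (u : ℝ) (h1 : 65 / 24 ≤ u) (h2 : u ≤ 3) :
    97387 / 50000 * (1 + (u - 2 / 3) / 8) ^ 8 ≤
      (1 + 1 / 500 + (1 / 500) ^ 2 / 2) * ((1 + (1 / 20 * u ^ 2) + (1 / 20 * u ^ 2) ^ 2 / 2 +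
      (1 / 20 * u ^ 2) ^ 3 / 6) *
      (1 + u + 627 / 1000 * u ^ 2)) := by
  obtain ⟨s, hs⟩ : ∃ s, s = u - (65 / 24) := ⟨_, rfl⟩
  obtain ⟨t, ht⟩ : ∃ t, t = 3 - u := ⟨_, rfl⟩
  have hs0 : 0 ≤ s := by linarith
  have ht0 : 0 ≤ t := by linarith
  have h : 0 ≤
      7127448239765815002893 / 120896639467520000000 * t ^ 8 +
      5723459049089053622991 / 9445049958400000000 * s * t ^ 7 +
      5187239453376300652709 / 1686616064000000000 * s ^ 2 * t ^ 6 +
      966706038584110476203 / 105413504000000000 * s ^ 3 * t ^ 5 +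
      4432338204209811639677 / 263533760000000000 * s ^ 4 * t ^ 4 +
      157900963706795428471 / 8235430000000000 * s ^ 5 * t ^ 3 +
      136449109047210272477 / 10294287500000000 * s ^ 6 * t ^ 2 +
      22946468159327891699 / 4503750781250000 * s ^ 7 * t +
      18842295788054218033 / 22518753906250000 * s ^ 8 := by
    positivity
  have e :
      7127448239765815002893 / 120896639467520000000 * t ^ 8 +
      5723459049089053622991 / 9445049958400000000 * s * t ^ 7 +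
      5187239453376300652709 / 1686616064000000000 * s ^ 2 * t ^ 6 +
      966706038584110476203 / 105413504000000000 * s ^ 3 * t ^ 5 +
      4432338204209811639677 / 263533760000000000 * s ^ 4 * t ^ 4 +
      157900963706795428471 / 8235430000000000 * s ^ 5 * t ^ 3 +
      136449109047210272477 / 10294287500000000 * s ^ 6 * t ^ 2 +
      22946468159327891699 / 4503750781250000 * s ^ 7 * t +
      18842295788054218033 / 22518753906250000 * s ^ 8 =
      (1 + 1 / 500 + (1 / 500) ^ 2 / 2) * ((1 + (1 / 20 * u ^ 2) + (1 / 20 * u ^ 2) ^ 2 / 2 +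
      (1 / 20 * u ^ 2) ^ 3 / 6) *
      (1 + u + 627 / 1000 * u ^ 2)) -
      (97387 / 50000 * (1 + (u - 2 / 3) / 8) ^ 8) := by
    rw [hs, ht]
    ring
  rw [e] at h
  linarith

theorem ev_eight_e40_t (u : ℝ) (h1 : 3 ≤ u) :
    97387 / 50000 * (1 + (u - 2 / 3) / 8) ^ 8 ≤
      (1 + 1 / 500 + (1 / 500) ^ 2 / 2) * ((1 + (1 / 20 * u ^ 2) + (1 / 20 * u ^ 2) ^ 2 / 2 +
      (1 / 20 * u ^ 2) ^ 3 / 6) *
      (1 + u + 627 / 1000 * u ^ 2)) := by
  obtain ⟨s, hs⟩ : ∃ s, s = u - (3) := ⟨_, rfl⟩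
  have hs0 : 0 ≤ s := by linarith
  have h : 0 ≤
      18842295788054218033 / 429981696000000000000 +
      5143717929684897967 / 17915904000000000000 * s +
      7490717560755711511 / 11943936000000000000 * s ^ 2 +
      918673541312869129 / 1990656000000000000 * s ^ 3 +
      85769745215465431 / 530841600000000000 * s ^ 4 +
      7150015239127369 / 221184000000000000 * s ^ 5 +
      618697913422231 / 147456000000000000 * s ^ 6 +
      7997166444527 / 24576000000000000 * s ^ 7 + 850169480753 / 65536000000000000 * s ^ 8 := by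
    positivity
  have e :
      18842295788054218033 / 429981696000000000000 +
      5143717929684897967 / 17915904000000000000 * s +
      7490717560755711511 / 11943936000000000000 * s ^ 2 +
      918673541312869129 / 1990656000000000000 * s ^ 3 +
      85769745215465431 / 530841600000000000 * s ^ 4 +
      7150015239127369 / 221184000000000000 * s ^ 5 +
      618697913422231 / 147456000000000000 * s ^ 6 +
      7997166444527 / 24576000000000000 * s ^ 7 + 850169480753 / 65536000000000000 * s ^ 8 =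
      (1 + 1 / 500 + (1 / 500) ^ 2 / 2) * ((1 + (1 / 20 * u ^ 2) + (1 / 20 * u ^ 2) ^ 2 / 2 +
      (1 / 20 * u ^ 2) ^ 3 / 6) *
      (1 + u + 627 / 1000 * u ^ 2)) -
      (97387 / 50000 * (1 + (u - 2 / 3) / 8) ^ 8) := by
    rw [hs]
    ring
  rw [e] at h
  linarith

/-- `K = 8`: `(c, μ, P, δ) = (627 / 1000, 1 / 20, 2 / 3, 1 / 500)` -/
theorem expFd_eight_e40 : ExpFd 8 (627 / 1000) (1 / 20) (2 / 3) (1 / 500) := by
  have hde : (1 + 1 / 500 + (1 / 500) ^ 2 / 2) ≤ Real.exp (1 / 500) :=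
    Real.quadratic_le_exp_of_nonneg (by norm_num)
  have hq : ∀ u : ℝ, 0 ≤ 1 + u + 627 / 1000 * u ^ 2 := fun u => by
    nlinarith [sq_nonneg (u + 2), sq_nonneg u]
  have hR : ∀ (u x y : ℝ), x ≤ y →
      y ≤ (1 + 1 / 500 + (1 / 500) ^ 2 / 2) * (1 + u + 627 / 1000 * u ^ 2) →
      x ≤ Real.exp (1 / 500) * (1 + u + 627 / 1000 * u ^ 2) := fun u x y h1 h2 =>
    (h1.trans h2).trans (mul_le_mul_of_nonneg_right hde (hq u))
  refine ExpFd.of (by norm_num) (by norm_num) (by norm_num) (by norm_num) (by norm_num) ?_ ?_ ?_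
  · intro u h1
    rcases le_total u (-3) with h3 | h3
    · exact hR u _ _ (ev_exp_n3 h3) (ev_eight_e40_d u h3)
    rcases le_total u (-2) with h4 | h4
    · refine hR u _ _ (ev_exp_n2 h4) ?_
      exact ev_eight_e40_c0 u (by linarith) (by linarith)
    rcases le_total u (-1) with h5 | h5
    · refine hR u _ _ (ev_exp_n1 h5) ?_
      exact ev_eight_e40_b0 u (by linarith) (by linarith)
    refine hR u _ _ (ev_exp_n0 h1) ?_
    exact ev_eight_e40_a0 u (by linarith) (by linarith)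
  · intro u h1 h2
    have h5 := mul_le_mul_of_nonneg_right (Real.add_one_le_exp (1 / 20 * u ^ 2)) (hq u)
    rw [add_comm (1 / 20 * u ^ 2) 1] at h5
    have h6 : 0 ≤ Real.exp (1 / 20 * u ^ 2) * (1 + u + 627 / 1000 * u ^ 2) :=
      mul_nonneg (Real.exp_nonneg _) (hq u)
    rw [Real.exp_add, mul_assoc]
    refine ((ev_exp_p h1 (by linarith)).trans ?_).trans
      ((mul_le_mul_of_nonneg_left h5
        (by norm_num : (0 : ℝ) ≤ (1 + 1 / 500 + (1 / 500) ^ 2 / 2))).trans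
        (mul_le_mul_of_nonneg_right hde h6))
    exact ev_eight_e40_e0 u (by linarith) (by linarith)
  · intro u h1
    have h4 : 0 ≤ (1 + (u - 2 / 3) / 8) ^ 8 := by
      have : 0 ≤ (u - 2 / 3) / 8 := div_nonneg (by linarith) (by norm_num)
      positivity
    have hE : Real.exp (2 / 3) ≤ 97387 / 50000 := ev_up_2_3
    have hx : 0 ≤ 1 / 20 * u ^ 2 := by positivity
    have h5 := mul_le_mul_of_nonneg_right (taylor3_le_expE _ hx) (hq u)
    have h6 : 0 ≤ Real.exp (1 / 20 * u ^ 2) * (1 + u + 627 / 1000 * u ^ 2) :=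
      mul_nonneg (Real.exp_nonneg _) (hq u)
    rw [Real.exp_add, mul_assoc]
    push_cast
    refine ((mul_le_mul_of_nonneg_right hE h4).trans ?_).trans
      ((mul_le_mul_of_nonneg_left h5
        (by norm_num : (0 : ℝ) ≤ (1 + 1 / 500 + (1 / 500) ^ 2 / 2))).trans
        (mul_le_mul_of_nonneg_right hde h6))
    rcases le_total u (11 / 6) with hh | hh
    · exact ev_eight_e40_g0 u (by linarith) (by linarith)
    rcases le_total u (29 / 12) with hh | hh
    · exact ev_eight_e40_g1 u (by linarith) (by linarith)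
    rcases le_total u (65 / 24) with hh | hh
    · exact ev_eight_e40_g2 u (by linarith) (by linarith)
    rcases le_total u (3) with hh | hh
    · exact ev_eight_e40_g3 u (by linarith) (by linarith)
    exact ev_eight_e40_t u (by linarith)

theorem ev_eight_e41_a0 (u : ℝ) (h1 : -1 ≤ u) (h2 : u ≤ 0) :
    1 + u + u ^ 2 / 2 + u ^ 3 / 6 + u ^ 4 / 24 ≤
      (1 + 1 / 200 + (1 / 200) ^ 2 / 2) * (1 + u + 147 / 250 * u ^ 2) := by
  obtain ⟨s, hs⟩ : ∃ s, s = u - (-1) := ⟨_, rfl⟩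
  obtain ⟨t, ht⟩ : ∃ t, t = 0 - u := ⟨_, rfl⟩
  have hs0 : 0 ≤ s := by linarith
  have ht0 : 0 ≤ t := by linarith
  have h : 0 ≤
      4318947 / 20000000 * t ^ 4 + 662951 / 1875000 * s * t ^ 3 +
      2119697 / 20000000 * s ^ 2 * t ^ 2 + 1203 / 80000 * s ^ 3 * t + 401 / 80000 * s ^ 4 := by
    positivity
  have e :
      4318947 / 20000000 * t ^ 4 + 662951 / 1875000 * s * t ^ 3 +
      2119697 / 20000000 * s ^ 2 * t ^ 2 + 1203 / 80000 * s ^ 3 * t + 401 / 80000 * s ^ 4 =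
      (1 + 1 / 200 + (1 / 200) ^ 2 / 2) * (1 + u + 147 / 250 * u ^ 2) -
      (1 + u + u ^ 2 / 2 + u ^ 3 / 6 + u ^ 4 / 24) := by
    rw [hs, ht]
    ring
  rw [e] at h
  linarith

theorem ev_eight_e41_b0 (u : ℝ) (h1 : -2 ≤ u) (h2 : u ≤ -1) :
    36788 / 100000 *
      (1 + (u + 1) + (u + 1) ^ 2 / 2 + (u + 1) ^ 3 / 6 + (u + 1) ^ 4 / 24) ≤
      (1 + 1 / 200 + (1 / 200) ^ 2 / 2) * (1 + u + 147 / 250 * u ^ 2) := by
  obtain ⟨s, hs⟩ : ∃ s, s = u - (-2) := ⟨_, rfl⟩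
  obtain ⟨t, ht⟩ : ∃ t, t = -1 - u := ⟨_, rfl⟩
  have hs0 : 0 ≤ s := by linarith
  have ht0 : 0 ≤ t := by linarith
  have h : 0 ≤
      12208219 / 10000000 * t ^ 4 + 102056521 / 30000000 * s * t ^ 3 +
      67593961 / 20000000 * s ^ 2 * t ^ 2 + 3592579 / 2500000 * s ^ 3 * t +
      4461347 / 20000000 * s ^ 4 := by
    positivity
  have e :
      12208219 / 10000000 * t ^ 4 + 102056521 / 30000000 * s * t ^ 3 +
      67593961 / 20000000 * s ^ 2 * t ^ 2 + 3592579 / 2500000 * s ^ 3 * t +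
      4461347 / 20000000 * s ^ 4 =
      (1 + 1 / 200 + (1 / 200) ^ 2 / 2) * (1 + u + 147 / 250 * u ^ 2) -
      (36788 / 100000 *
      (1 + (u + 1) + (u + 1) ^ 2 / 2 + (u + 1) ^ 3 / 6 + (u + 1) ^ 4 / 24)) := by
    rw [hs, ht]
    ring
  rw [e] at h
  linarith

theorem ev_eight_e41_c0 (u : ℝ) (h1 : -3 ≤ u) (h2 : u ≤ -2) :
    13534 / 100000 *
      (1 + (u + 2) + (u + 2) ^ 2 / 2 + (u + 2) ^ 3 / 6 + (u + 2) ^ 4 / 24) ≤
      (1 + 1 / 200 + (1 / 200) ^ 2 / 2) * (1 + u + 147 / 250 * u ^ 2) := by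
  obtain ⟨s, hs⟩ : ∃ s, s = u - (-3) := ⟨_, rfl⟩
  obtain ⟨t, ht⟩ : ∃ t, t = -2 - u := ⟨_, rfl⟩
  have hs0 : 0 ≤ s := by linarith
  have ht0 : 0 ≤ t := by linarith
  have h : 0 ≤
      65154973 / 20000000 * t ^ 4 + 31335629 / 3000000 * s * t ^ 3 +
      246924989 / 20000000 * s ^ 2 * t ^ 2 + 12775729 / 2000000 * s ^ 3 * t +
      12234369 / 10000000 * s ^ 4 := by
    positivity
  have e :
      65154973 / 20000000 * t ^ 4 + 31335629 / 3000000 * s * t ^ 3 +
      246924989 / 20000000 * s ^ 2 * t ^ 2 + 12775729 / 2000000 * s ^ 3 * t +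
      12234369 / 10000000 * s ^ 4 =
      (1 + 1 / 200 + (1 / 200) ^ 2 / 2) * (1 + u + 147 / 250 * u ^ 2) -
      (13534 / 100000 *
      (1 + (u + 2) + (u + 2) ^ 2 / 2 + (u + 2) ^ 3 / 6 + (u + 2) ^ 4 / 24)) := by
    rw [hs, ht]
    ring
  rw [e] at h
  linarith

theorem ev_eight_e41_d (u : ℝ) (h2 : u ≤ -3) :
    4979 / 100000 ≤
      (1 + 1 / 200 + (1 / 200) ^ 2 / 2) * (1 + u + 147 / 250 * u ^ 2) := by
  obtain ⟨s, hs⟩ : ∃ s, s = -3 - u := ⟨_, rfl⟩
  have hs0 : 0 ≤ s := by linarith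
  have h : 0 ≤
      65174223 / 20000000 + 6351679 / 2500000 * s + 11818947 / 20000000 * s ^ 2 := by
    positivity
  have e :
      65174223 / 20000000 + 6351679 / 2500000 * s + 11818947 / 20000000 * s ^ 2 =
      (1 + 1 / 200 + (1 / 200) ^ 2 / 2) * (1 + u + 147 / 250 * u ^ 2) -
      (4979 / 100000) := by
    rw [hs]
    ring
  rw [e] at h
  linarith

theorem ev_eight_e41_e0 (u : ℝ) (h1 : 0 ≤ u) (h2 : u ≤ 2 / 3) :
    1 + u + u ^ 2 / 2 + u ^ 3 / 6 + u ^ 4 / 24 + u ^ 5 / 100 ≤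
      (1 + 1 / 200 + (1 / 200) ^ 2 / 2) * ((1 + 11 / 200 * u ^ 2) *
      (1 + u + 147 / 250 * u ^ 2)) := by
  obtain ⟨s, hs⟩ : ∃ s, s = u - (0) := ⟨_, rfl⟩
  obtain ⟨t, ht⟩ : ∃ t, t = 2 / 3 - u := ⟨_, rfl⟩
  have hs0 : 0 ≤ s := by linarith
  have ht0 : 0 ≤ t := by linarith
  have h : 0 ≤
      97443 / 2560000 * t ^ 5 + 552177 / 2560000 * s * t ^ 4 +
      624411261 / 640000000 * s ^ 2 * t ^ 3 + 1128172773 / 640000000 * s ^ 3 * t ^ 2 +
      20117175827 / 16000000000 * s ^ 4 * t + 4521050527 / 16000000000 * s ^ 5 := by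
    positivity
  have e :
      97443 / 2560000 * t ^ 5 + 552177 / 2560000 * s * t ^ 4 +
      624411261 / 640000000 * s ^ 2 * t ^ 3 + 1128172773 / 640000000 * s ^ 3 * t ^ 2 +
      20117175827 / 16000000000 * s ^ 4 * t + 4521050527 / 16000000000 * s ^ 5 =
      (1 + 1 / 200 + (1 / 200) ^ 2 / 2) * ((1 + 11 / 200 * u ^ 2) *
      (1 + u + 147 / 250 * u ^ 2)) -
      (1 + u + u ^ 2 / 2 + u ^ 3 / 6 + u ^ 4 / 24 + u ^ 5 / 100) := by
    rw [hs, ht]
    ring
  rw [e] at h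
  linarith

theorem ev_eight_e41_g0 (u : ℝ) (h1 : 2 / 3 ≤ u) (h2 : u ≤ 11 / 6) :
    97387 / 50000 * (1 + (u - 2 / 3) / 8) ^ 8 ≤
      (1 + 1 / 200 + (1 / 200) ^ 2 / 2) * ((1 + (11 / 200 * u ^ 2) + (11 / 200 * u ^ 2) ^ 2 / 2 +
      (11 / 200 * u ^ 2) ^ 3 / 6) *
      (1 + u + 147 / 250 * u ^ 2)) := by
  obtain ⟨s, hs⟩ : ∃ s, s = u - (2 / 3) := ⟨_, rfl⟩
  obtain ⟨t, ht⟩ : ∃ t, t = 11 / 6 - u := ⟨_, rfl⟩
  have hs0 : 0 ≤ s := by linarith
  have ht0 : 0 ≤ t := by linarith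
  have h : 0 ≤
      621209364994563 / 56296884765625000 * t ^ 8 +
      5642908769621461 / 56296884765625000 * s * t ^ 7 +
      50667747408882767 / 128678593750000000 * s ^ 2 * t ^ 6 +
      218833850530787787 / 257357187500000000 * s ^ 3 * t ^ 5 +
      223957187473390183 / 205885750000000000 * s ^ 4 * t ^ 4 +
      6870788021991162329 / 8235430000000000000 * s ^ 5 * t ^ 3 +
      97450063291419509301 / 263533760000000000000 * s ^ 6 * t ^ 2 +
      1261261308589740853369 / 14757890560000000000000 * s ^ 7 * t +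
      15069810797392093028661 / 1889009991680000000000000 * s ^ 8 := by
    positivity
  have e :
      621209364994563 / 56296884765625000 * t ^ 8 +
      5642908769621461 / 56296884765625000 * s * t ^ 7 +
      50667747408882767 / 128678593750000000 * s ^ 2 * t ^ 6 +
      218833850530787787 / 257357187500000000 * s ^ 3 * t ^ 5 +
      223957187473390183 / 205885750000000000 * s ^ 4 * t ^ 4 +
      6870788021991162329 / 8235430000000000000 * s ^ 5 * t ^ 3 +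
      97450063291419509301 / 263533760000000000000 * s ^ 6 * t ^ 2 +
      1261261308589740853369 / 14757890560000000000000 * s ^ 7 * t +
      15069810797392093028661 / 1889009991680000000000000 * s ^ 8 =
      (1 + 1 / 200 + (1 / 200) ^ 2 / 2) * ((1 + (11 / 200 * u ^ 2) + (11 / 200 * u ^ 2) ^ 2 / 2 +
      (11 / 200 * u ^ 2) ^ 3 / 6) *
      (1 + u + 147 / 250 * u ^ 2)) -
      (97387 / 50000 * (1 + (u - 2 / 3) / 8) ^ 8) := by
    rw [hs, ht]
    ring
  rw [e] at h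
  linarith

theorem ev_eight_e41_g1 (u : ℝ) (h1 : 11 / 6 ≤ u) (h2 : u ≤ 29 / 12) :
    97387 / 50000 * (1 + (u - 2 / 3) / 8) ^ 8 ≤
      (1 + 1 / 200 + (1 / 200) ^ 2 / 2) * ((1 + (11 / 200 * u ^ 2) + (11 / 200 * u ^ 2) ^ 2 / 2 +
      (11 / 200 * u ^ 2) ^ 3 / 6) *
      (1 + u + 147 / 250 * u ^ 2)) := by
  obtain ⟨s, hs⟩ : ∃ s, s = u - (11 / 6) := ⟨_, rfl⟩
  obtain ⟨t, ht⟩ : ∃ t, t = 29 / 12 - u := ⟨_, rfl⟩
  have hs0 : 0 ≤ s := by linarith
  have ht0 : 0 ≤ t := by linarith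
  have h : 0 ≤
      15069810797392093028661 / 7378945280000000000000 * t ^ 8 +
      25029251454740425432079 / 1844736320000000000000 * s * t ^ 7 +
      39494427754517109715581 / 1054135040000000000000 * s ^ 2 * t ^ 6 +
      58402204304173211648359 / 1054135040000000000000 * s ^ 3 * t ^ 5 +
      79986351905873224548101 / 1686616064000000000000 * s ^ 4 * t ^ 4 +
      103526579071763832231039 / 4216540160000000000000 * s ^ 5 * t ^ 3 +
      150102560180322442070221 / 16866160640000000000000 * s ^ 6 * t ^ 2 +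
      352286464775418146700119 / 118063124480000000000000 * s ^ 7 * t +
      1275138223204766104297941 / 1889009991680000000000000 * s ^ 8 := by
    positivity
  have e :
      15069810797392093028661 / 7378945280000000000000 * t ^ 8 +
      25029251454740425432079 / 1844736320000000000000 * s * t ^ 7 +
      39494427754517109715581 / 1054135040000000000000 * s ^ 2 * t ^ 6 +
      58402204304173211648359 / 1054135040000000000000 * s ^ 3 * t ^ 5 +
      79986351905873224548101 / 1686616064000000000000 * s ^ 4 * t ^ 4 +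
      103526579071763832231039 / 4216540160000000000000 * s ^ 5 * t ^ 3 +
      150102560180322442070221 / 16866160640000000000000 * s ^ 6 * t ^ 2 +
      352286464775418146700119 / 118063124480000000000000 * s ^ 7 * t +
      1275138223204766104297941 / 1889009991680000000000000 * s ^ 8 =
      (1 + 1 / 200 + (1 / 200) ^ 2 / 2) * ((1 + (11 / 200 * u ^ 2) + (11 / 200 * u ^ 2) ^ 2 / 2 +
      (11 / 200 * u ^ 2) ^ 3 / 6) *
      (1 + u + 147 / 250 * u ^ 2)) -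
      (97387 / 50000 * (1 + (u - 2 / 3) / 8) ^ 8) := by
    rw [hs, ht]
    ring
  rw [e] at h
  linarith

theorem ev_eight_e41_g2 (u : ℝ) (h1 : 29 / 12 ≤ u) (h2 : u ≤ 3) :
    97387 / 50000 * (1 + (u - 2 / 3) / 8) ^ 8 ≤
      (1 + 1 / 200 + (1 / 200) ^ 2 / 2) * ((1 + (11 / 200 * u ^ 2) + (11 / 200 * u ^ 2) ^ 2 / 2 +
      (11 / 200 * u ^ 2) ^ 3 / 6) *
      (1 + u + 147 / 250 * u ^ 2)) := by
  obtain ⟨s, hs⟩ : ∃ s, s = u - (29 / 12) := ⟨_, rfl⟩
  obtain ⟨t, ht⟩ : ∃ t, t = 3 - u := ⟨_, rfl⟩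
  have hs0 : 0 ≤ s := by linarith
  have ht0 : 0 ≤ t := by linarith
  have h : 0 ≤
      1275138223204766104297941 / 1889009991680000000000000 * t ^ 8 +
      461425879214673978798911 / 59031562240000000000000 * s * t ^ 7 +
      180166963458563063241981 / 4216540160000000000000 * s ^ 2 * t ^ 6 +
      70632491293464394772151 / 527067520000000000000 * s ^ 3 * t ^ 5 +
      27030485050240379096421 / 105413504000000000000 * s ^ 4 * t ^ 4 +
      10031102051201699383791 / 32941720000000000000 * s ^ 5 * t ^ 3 +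
      3614105255303022165261 / 16470860000000000000 * s ^ 6 * t ^ 2 +
      1268470587474070233831 / 14412002500000000000 * s ^ 7 * t +
      435276291777532544501 / 28824005000000000000 * s ^ 8 := by
    positivity
  have e :
      1275138223204766104297941 / 1889009991680000000000000 * t ^ 8 +
      461425879214673978798911 / 59031562240000000000000 * s * t ^ 7 +
      180166963458563063241981 / 4216540160000000000000 * s ^ 2 * t ^ 6 +
      70632491293464394772151 / 527067520000000000000 * s ^ 3 * t ^ 5 +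
      27030485050240379096421 / 105413504000000000000 * s ^ 4 * t ^ 4 +
      10031102051201699383791 / 32941720000000000000 * s ^ 5 * t ^ 3 +
      3614105255303022165261 / 16470860000000000000 * s ^ 6 * t ^ 2 +
      1268470587474070233831 / 14412002500000000000 * s ^ 7 * t +
      435276291777532544501 / 28824005000000000000 * s ^ 8 =
      (1 + 1 / 200 + (1 / 200) ^ 2 / 2) * ((1 + (11 / 200 * u ^ 2) + (11 / 200 * u ^ 2) ^ 2 / 2 +
      (11 / 200 * u ^ 2) ^ 3 / 6) *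
      (1 + u + 147 / 250 * u ^ 2)) -
      (97387 / 50000 * (1 + (u - 2 / 3) / 8) ^ 8) := by
    rw [hs, ht]
    ring
  rw [e] at h
  linarith

theorem ev_eight_e41_t (u : ℝ) (h1 : 3 ≤ u) :
    97387 / 50000 * (1 + (u - 2 / 3) / 8) ^ 8 ≤
      (1 + 1 / 200 + (1 / 200) ^ 2 / 2) * ((1 + (11 / 200 * u ^ 2) + (11 / 200 * u ^ 2) ^ 2 / 2 +
      (11 / 200 * u ^ 2) ^ 3 / 6) *
      (1 + u + 147 / 250 * u ^ 2)) := by
  obtain ⟨s, hs⟩ : ∃ s, s = u - (3) := ⟨_, rfl⟩
  have hs0 : 0 ≤ s := by linarith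
  have h : 0 ≤
      435276291777532544501 / 2149908480000000000000 +
      67519225662294277739 / 89579520000000000000 * s +
      61537317707283000947 / 59719680000000000000 * s ^ 2 +
      6311336478393433133 / 9953280000000000000 * s ^ 3 +
      551653183060257587 / 2654208000000000000 * s ^ 4 +
      45321002244438893 / 1105920000000000000 * s ^ 5 +
      3899623884349427 / 737280000000000000 * s ^ 6 +
      16856944129593 / 40960000000000000 * s ^ 7 + 5331479169781 / 327680000000000000 * s ^ 8 := by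
    positivity
  have e :
      435276291777532544501 / 2149908480000000000000 +
      67519225662294277739 / 89579520000000000000 * s +
      61537317707283000947 / 59719680000000000000 * s ^ 2 +
      6311336478393433133 / 9953280000000000000 * s ^ 3 +
      551653183060257587 / 2654208000000000000 * s ^ 4 +
      45321002244438893 / 1105920000000000000 * s ^ 5 +
      3899623884349427 / 737280000000000000 * s ^ 6 +
      16856944129593 / 40960000000000000 * s ^ 7 + 5331479169781 / 327680000000000000 * s ^ 8 =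
      (1 + 1 / 200 + (1 / 200) ^ 2 / 2) * ((1 + (11 / 200 * u ^ 2) + (11 / 200 * u ^ 2) ^ 2 / 2 +
      (11 / 200 * u ^ 2) ^ 3 / 6) *
      (1 + u + 147 / 250 * u ^ 2)) -
      (97387 / 50000 * (1 + (u - 2 / 3) / 8) ^ 8) := by
    rw [hs]
    ring
  rw [e] at h
  linarith

/-- `K = 8`: `(c, μ, P, δ) = (147 / 250, 11 / 200, 2 / 3, 1 / 200)` -/
theorem expFd_eight_e41 : ExpFd 8 (147 / 250) (11 / 200) (2 / 3) (1 / 200) := by
  have hde : (1 + 1 / 200 + (1 / 200) ^ 2 / 2) ≤ Real.exp (1 / 200) :=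
    Real.quadratic_le_exp_of_nonneg (by norm_num)
  have hq : ∀ u : ℝ, 0 ≤ 1 + u + 147 / 250 * u ^ 2 := fun u => by
    nlinarith [sq_nonneg (u + 2), sq_nonneg u]
  have hR : ∀ (u x y : ℝ), x ≤ y →
      y ≤ (1 + 1 / 200 + (1 / 200) ^ 2 / 2) * (1 + u + 147 / 250 * u ^ 2) →
      x ≤ Real.exp (1 / 200) * (1 + u + 147 / 250 * u ^ 2) := fun u x y h1 h2 =>
    (h1.trans h2).trans (mul_le_mul_of_nonneg_right hde (hq u))
  refine ExpFd.of (by norm_num) (by norm_num) (by norm_num) (by norm_num) (by norm_num) ?_ ?_ ?_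
  · intro u h1
    rcases le_total u (-3) with h3 | h3
    · exact hR u _ _ (ev_exp_n3 h3) (ev_eight_e41_d u h3)
    rcases le_total u (-2) with h4 | h4
    · refine hR u _ _ (ev_exp_n2 h4) ?_
      exact ev_eight_e41_c0 u (by linarith) (by linarith)
    rcases le_total u (-1) with h5 | h5
    · refine hR u _ _ (ev_exp_n1 h5) ?_
      exact ev_eight_e41_b0 u (by linarith) (by linarith)
    refine hR u _ _ (ev_exp_n0 h1) ?_
    exact ev_eight_e41_a0 u (by linarith) (by linarith)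
  · intro u h1 h2
    have h5 := mul_le_mul_of_nonneg_right (Real.add_one_le_exp (11 / 200 * u ^ 2)) (hq u)
    rw [add_comm (11 / 200 * u ^ 2) 1] at h5
    have h6 : 0 ≤ Real.exp (11 / 200 * u ^ 2) * (1 + u + 147 / 250 * u ^ 2) :=
      mul_nonneg (Real.exp_nonneg _) (hq u)
    rw [Real.exp_add, mul_assoc]
    refine ((ev_exp_p h1 (by linarith)).trans ?_).trans
      ((mul_le_mul_of_nonneg_left h5
        (by norm_num : (0 : ℝ) ≤ (1 + 1 / 200 + (1 / 200) ^ 2 / 2))).trans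
        (mul_le_mul_of_nonneg_right hde h6))
    exact ev_eight_e41_e0 u (by linarith) (by linarith)
  · intro u h1
    have h4 : 0 ≤ (1 + (u - 2 / 3) / 8) ^ 8 := by
      have : 0 ≤ (u - 2 / 3) / 8 := div_nonneg (by linarith) (by norm_num)
      positivity
    have hE : Real.exp (2 / 3) ≤ 97387 / 50000 := ev_up_2_3
    have hx : 0 ≤ 11 / 200 * u ^ 2 := by positivity
    have h5 := mul_le_mul_of_nonneg_right (taylor3_le_expE _ hx) (hq u)
    have h6 : 0 ≤ Real.exp (11 / 200 * u ^ 2) * (1 + u + 147 / 250 * u ^ 2) :=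
      mul_nonneg (Real.exp_nonneg _) (hq u)
    rw [Real.exp_add, mul_assoc]
    push_cast
    refine ((mul_le_mul_of_nonneg_right hE h4).trans ?_).trans
      ((mul_le_mul_of_nonneg_left h5
        (by norm_num : (0 : ℝ) ≤ (1 + 1 / 200 + (1 / 200) ^ 2 / 2))).trans
        (mul_le_mul_of_nonneg_right hde h6))
    rcases le_total u (11 / 6) with hh | hh
    · exact ev_eight_e41_g0 u (by linarith) (by linarith)
    rcases le_total u (29 / 12) with hh | hh
    · exact ev_eight_e41_g1 u (by linarith) (by linarith)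
    rcases le_total u (3) with hh | hh
    · exact ev_eight_e41_g2 u (by linarith) (by linarith)
    exact ev_eight_e41_t u (by linarith)

theorem ev_eight_e42_a0 (u : ℝ) (h1 : -1 ≤ u) (h2 : u ≤ 0) :
    1 + u + u ^ 2 / 2 + u ^ 3 / 6 + u ^ 4 / 24 ≤
      (1 + 1 / 100 + (1 / 100) ^ 2 / 2) * (1 + u + 69 / 125 * u ^ 2) := by
  obtain ⟨s, hs⟩ : ∃ s, s = u - (-1) := ⟨_, rfl⟩
  obtain ⟨t, ht⟩ : ∃ t, t = 0 - u := ⟨_, rfl⟩
  have hs0 : 0 ≤ s := by linarith
  have ht0 : 0 ≤ t := by linarith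
  have h : 0 ≤
      456369 / 2500000 * t ^ 4 + 2188589 / 7500000 * s * t ^ 3 +
      54811 / 625000 * s ^ 2 * t ^ 2 + 603 / 20000 * s ^ 3 * t + 201 / 20000 * s ^ 4 := by
    positivity
  have e :
      456369 / 2500000 * t ^ 4 + 2188589 / 7500000 * s * t ^ 3 +
      54811 / 625000 * s ^ 2 * t ^ 2 + 603 / 20000 * s ^ 3 * t + 201 / 20000 * s ^ 4 =
      (1 + 1 / 100 + (1 / 100) ^ 2 / 2) * (1 + u + 69 / 125 * u ^ 2) -
      (1 + u + u ^ 2 / 2 + u ^ 3 / 6 + u ^ 4 / 24) := by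
    rw [hs, ht]
    ring
  rw [e] at h
  linarith

theorem ev_eight_e42_b0 (u : ℝ) (h1 : -2 ≤ u) (h2 : u ≤ -1) :
    36788 / 100000 *
      (1 + (u + 1) + (u + 1) ^ 2 / 2 + (u + 1) ^ 3 / 6 + (u + 1) ^ 4 / 24) ≤
      (1 + 1 / 100 + (1 / 100) ^ 2 / 2) * (1 + u + 69 / 125 * u ^ 2) := by
  obtain ⟨s, hs⟩ : ∃ s, s = u - (-2) := ⟨_, rfl⟩
  obtain ⟨t, ht⟩ : ∃ t, t = -1 - u := ⟨_, rfl⟩
  have hs0 : 0 ≤ s := by linarith
  have ht0 : 0 ≤ t := by linarith
  have h : 0 ≤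
      5410927 / 5000000 * t ^ 4 + 22394809 / 7500000 * s * t ^ 3 +
      1831493 / 625000 * s ^ 2 * t ^ 2 + 3078989 / 2500000 * s ^ 3 * t +
      474169 / 2500000 * s ^ 4 := by
    positivity
  have e :
      5410927 / 5000000 * t ^ 4 + 22394809 / 7500000 * s * t ^ 3 +
      1831493 / 625000 * s ^ 2 * t ^ 2 + 3078989 / 2500000 * s ^ 3 * t +
      474169 / 2500000 * s ^ 4 =
      (1 + 1 / 100 + (1 / 100) ^ 2 / 2) * (1 + u + 69 / 125 * u ^ 2) -
      (36788 / 100000 *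
      (1 + (u + 1) + (u + 1) ^ 2 / 2 + (u + 1) ^ 3 / 6 + (u + 1) ^ 4 / 24)) := by
    rw [hs, ht]
    ring
  rw [e] at h
  linarith

theorem ev_eight_e42_c0 (u : ℝ) (h1 : -3 ≤ u) (h2 : u ≤ -2) :
    13534 / 100000 *
      (1 + (u + 2) + (u + 2) ^ 2 / 2 + (u + 2) ^ 3 / 6 + (u + 2) ^ 4 / 24) ≤
      (1 + 1 / 100 + (1 / 100) ^ 2 / 2) * (1 + u + 69 / 125 * u ^ 2) := by
  obtain ⟨s, hs⟩ : ∃ s, s = u - (-3) := ⟨_, rfl⟩
  obtain ⟨t, ht⟩ : ∃ t, t = -2 - u := ⟨_, rfl⟩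
  have hs0 : 0 ≤ s := by linarith
  have ht0 : 0 ≤ t := by linarith
  have h : 0 ≤
      29470759 / 10000000 * t ^ 4 + 3527983 / 375000 * s * t ^ 3 +
      27662803 / 2500000 * s ^ 2 * t ^ 2 + 2847341 / 500000 * s ^ 3 * t +
      2712001 / 2500000 * s ^ 4 := by
    positivity
  have e :
      29470759 / 10000000 * t ^ 4 + 3527983 / 375000 * s * t ^ 3 +
      27662803 / 2500000 * s ^ 2 * t ^ 2 + 2847341 / 500000 * s ^ 3 * t +
      2712001 / 2500000 * s ^ 4 =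
      (1 + 1 / 100 + (1 / 100) ^ 2 / 2) * (1 + u + 69 / 125 * u ^ 2) -
      (13534 / 100000 *
      (1 + (u + 2) + (u + 2) ^ 2 / 2 + (u + 2) ^ 3 / 6 + (u + 2) ^ 4 / 24)) := by
    rw [hs, ht]
    ring
  rw [e] at h
  linarith

theorem ev_eight_e42_d (u : ℝ) (h2 : u ≤ -3) :
    4979 / 100000 ≤
      (1 + 1 / 100 + (1 / 100) ^ 2 / 2) * (1 + u + 69 / 125 * u ^ 2) := by
  obtain ⟨s, hs⟩ : ∃ s, s = -3 - u := ⟨_, rfl⟩
  have hs0 : 0 ≤ s := by linarith
  have h : 0 ≤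
      460631 / 156250 + 5838089 / 2500000 * s + 1393869 / 2500000 * s ^ 2 := by
    positivity
  have e :
      460631 / 156250 + 5838089 / 2500000 * s + 1393869 / 2500000 * s ^ 2 =
      (1 + 1 / 100 + (1 / 100) ^ 2 / 2) * (1 + u + 69 / 125 * u ^ 2) -
      (4979 / 100000) := by
    rw [hs]
    ring
  rw [e] at h
  linarith

theorem ev_eight_e42_e0 (u : ℝ) (h1 : 0 ≤ u) (h2 : u ≤ 2 / 3) :
    1 + u + u ^ 2 / 2 + u ^ 3 / 6 + u ^ 4 / 24 + u ^ 5 / 100 ≤
      (1 + 1 / 100 + (1 / 100) ^ 2 / 2) * ((1 + 3 / 50 * u ^ 2) *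
      (1 + u + 69 / 125 * u ^ 2)) := by
  obtain ⟨s, hs⟩ : ∃ s, s = u - (0) := ⟨_, rfl⟩
  obtain ⟨t, ht⟩ : ∃ t, t = 2 / 3 - u := ⟨_, rfl⟩
  have hs0 : 0 ≤ s := by linarith
  have ht0 : 0 ≤ t := by linarith
  have h : 0 ≤
      48843 / 640000 * t ^ 5 + 276777 / 640000 * s * t ^ 4 +
      27308853 / 20000000 * s ^ 2 * t ^ 3 + 10130361 / 5000000 * s ^ 3 * t ^ 2 +
      2583532093 / 2000000000 * s ^ 4 * t + 529979243 / 2000000000 * s ^ 5 := by
    positivity
  have e :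
      48843 / 640000 * t ^ 5 + 276777 / 640000 * s * t ^ 4 +
      27308853 / 20000000 * s ^ 2 * t ^ 3 + 10130361 / 5000000 * s ^ 3 * t ^ 2 +
      2583532093 / 2000000000 * s ^ 4 * t + 529979243 / 2000000000 * s ^ 5 =
      (1 + 1 / 100 + (1 / 100) ^ 2 / 2) * ((1 + 3 / 50 * u ^ 2) *
      (1 + u + 69 / 125 * u ^ 2)) -
      (1 + u + u ^ 2 / 2 + u ^ 3 / 6 + u ^ 4 / 24 + u ^ 5 / 100) := by
    rw [hs, ht]
    ring
  rw [e] at h
  linarith

theorem ev_eight_e42_g0 (u : ℝ) (h1 : 2 / 3 ≤ u) (h2 : u ≤ 11 / 6) :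
    97387 / 50000 * (1 + (u - 2 / 3) / 8) ^ 8 ≤
      (1 + 1 / 100 + (1 / 100) ^ 2 / 2) * ((1 + (3 / 50 * u ^ 2) + (3 / 50 * u ^ 2) ^ 2 / 2 +
      (3 / 50 * u ^ 2) ^ 3 / 6) *
      (1 + u + 69 / 125 * u ^ 2)) := by
  obtain ⟨s, hs⟩ : ∃ s, s = u - (2 / 3) := ⟨_, rfl⟩
  obtain ⟨t, ht⟩ : ∃ t, t = 11 / 6 - u := ⟨_, rfl⟩
  have hs0 : 0 ≤ s := by linarith
  have ht0 : 0 ≤ t := by linarith
  have h : 0 ≤
      73129399504488 / 7037110595703125 * t ^ 8 +
      613180978660836 / 7037110595703125 * s * t ^ 7 +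
      1266538186075473 / 4021206054687500 * s ^ 2 * t ^ 6 +
      19998677995327737 / 32169648437500000 * s ^ 3 * t ^ 5 +
      294243854247420453 / 411771500000000000 * s ^ 4 * t ^ 4 +
      3914238776420405457 / 8235430000000000000 * s ^ 5 * t ^ 3 +
      44890222600566835533 / 263533760000000000000 * s ^ 6 * t ^ 2 +
      411772848522780911577 / 14757890560000000000000 * s ^ 7 * t +
      3279284017832009852213 / 1889009991680000000000000 * s ^ 8 := by
    positivity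
  have e :
      73129399504488 / 7037110595703125 * t ^ 8 +
      613180978660836 / 7037110595703125 * s * t ^ 7 +
      1266538186075473 / 4021206054687500 * s ^ 2 * t ^ 6 +
      19998677995327737 / 32169648437500000 * s ^ 3 * t ^ 5 +
      294243854247420453 / 411771500000000000 * s ^ 4 * t ^ 4 +
      3914238776420405457 / 8235430000000000000 * s ^ 5 * t ^ 3 +
      44890222600566835533 / 263533760000000000000 * s ^ 6 * t ^ 2 +
      411772848522780911577 / 14757890560000000000000 * s ^ 7 * t +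
      3279284017832009852213 / 1889009991680000000000000 * s ^ 8 =
      (1 + 1 / 100 + (1 / 100) ^ 2 / 2) * ((1 + (3 / 50 * u ^ 2) + (3 / 50 * u ^ 2) ^ 2 / 2 +
      (3 / 50 * u ^ 2) ^ 3 / 6) *
      (1 + u + 69 / 125 * u ^ 2)) -
      (97387 / 50000 * (1 + (u - 2 / 3) / 8) ^ 8) := by
    rw [hs, ht]
    ring
  rw [e] at h
  linarith

theorem ev_eight_e42_g1 (u : ℝ) (h1 : 11 / 6 ≤ u) (h2 : u ≤ 17 / 8) :
    97387 / 50000 * (1 + (u - 2 / 3) / 8) ^ 8 ≤
      (1 + 1 / 100 + (1 / 100) ^ 2 / 2) * ((1 + (3 / 50 * u ^ 2) + (3 / 50 * u ^ 2) ^ 2 / 2 +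
      (3 / 50 * u ^ 2) ^ 3 / 6) *
      (1 + u + 69 / 125 * u ^ 2)) := by
  obtain ⟨s, hs⟩ : ∃ s, s = u - (11 / 6) := ⟨_, rfl⟩
  obtain ⟨t, ht⟩ : ∃ t, t = 17 / 8 - u := ⟨_, rfl⟩
  have hs0 : 0 ≤ s := by linarith
  have ht0 : 0 ≤ t := by linarith
  have h : 0 ≤
      3279284017832009852213 / 28824005000000000000 * t ^ 8 +
      9808054512795554675833 / 14412002500000000000 * s * t ^ 7 +
      27590341667900410349453 / 16470860000000000000 * s ^ 2 * t ^ 6 +
      72128816759622805329073 / 32941720000000000000 * s ^ 3 * t ^ 5 +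
      177783395492124681254693 / 105413504000000000000 * s ^ 4 * t ^ 4 +
      476929851734222284950313 / 527067520000000000000 * s ^ 5 * t ^ 3 +
      1985169325982112008423933 / 4216540160000000000000 * s ^ 6 * t ^ 2 +
      13110941482828072356867553 / 59031562240000000000000 * s ^ 7 * t +
      96156375267602900124657173 / 1889009991680000000000000 * s ^ 8 := by
    positivity
  have e :
      3279284017832009852213 / 28824005000000000000 * t ^ 8 +
      9808054512795554675833 / 14412002500000000000 * s * t ^ 7 +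
      27590341667900410349453 / 16470860000000000000 * s ^ 2 * t ^ 6 +
      72128816759622805329073 / 32941720000000000000 * s ^ 3 * t ^ 5 +
      177783395492124681254693 / 105413504000000000000 * s ^ 4 * t ^ 4 +
      476929851734222284950313 / 527067520000000000000 * s ^ 5 * t ^ 3 +
      1985169325982112008423933 / 4216540160000000000000 * s ^ 6 * t ^ 2 +
      13110941482828072356867553 / 59031562240000000000000 * s ^ 7 * t +
      96156375267602900124657173 / 1889009991680000000000000 * s ^ 8 =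
      (1 + 1 / 100 + (1 / 100) ^ 2 / 2) * ((1 + (3 / 50 * u ^ 2) + (3 / 50 * u ^ 2) ^ 2 / 2 +
      (3 / 50 * u ^ 2) ^ 3 / 6) *
      (1 + u + 69 / 125 * u ^ 2)) -
      (97387 / 50000 * (1 + (u - 2 / 3) / 8) ^ 8) := by
    rw [hs, ht]
    ring
  rw [e] at h
  linarith

theorem ev_eight_e42_g2 (u : ℝ) (h1 : 17 / 8 ≤ u) (h2 : u ≤ 29 / 12) :
    97387 / 50000 * (1 + (u - 2 / 3) / 8) ^ 8 ≤
      (1 + 1 / 100 + (1 / 100) ^ 2 / 2) * ((1 + (3 / 50 * u ^ 2) + (3 / 50 * u ^ 2) ^ 2 / 2 +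
      (3 / 50 * u ^ 2) ^ 3 / 6) *
      (1 + u + 69 / 125 * u ^ 2)) := by
  obtain ⟨s, hs⟩ : ∃ s, s = u - (17 / 8) := ⟨_, rfl⟩
  obtain ⟨t, ht⟩ : ∃ t, t = 29 / 12 - u := ⟨_, rfl⟩
  have hs0 : 0 ≤ s := by linarith
  have ht0 : 0 ≤ t := by linarith
  have h : 0 ≤
      96156375267602900124657173 / 1889009991680000000000000 * t ^ 8 +
      69934492301946755410922067 / 118063124480000000000000 * s * t ^ 7 +
      51653286640219058730882693 / 16866160640000000000000 * s ^ 2 * t ^ 6 +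
      37497319468546031804936547 / 4216540160000000000000 * s ^ 3 * t ^ 5 +
      26495686300927891253556213 / 1686616064000000000000 * s ^ 4 * t ^ 4 +
      18213894842930918826759027 / 1054135040000000000000 * s ^ 5 * t ^ 3 +
      12211524722125157895941733 / 1054135040000000000000 * s ^ 6 * t ^ 2 +
      8010238107629905209573507 / 1844736320000000000000 * s ^ 7 * t +
      5156206949694161436407253 / 7378945280000000000000 * s ^ 8 := by
    positivity
  have e :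
      96156375267602900124657173 / 1889009991680000000000000 * t ^ 8 +
      69934492301946755410922067 / 118063124480000000000000 * s * t ^ 7 +
      51653286640219058730882693 / 16866160640000000000000 * s ^ 2 * t ^ 6 +
      37497319468546031804936547 / 4216540160000000000000 * s ^ 3 * t ^ 5 +
      26495686300927891253556213 / 1686616064000000000000 * s ^ 4 * t ^ 4 +
      18213894842930918826759027 / 1054135040000000000000 * s ^ 5 * t ^ 3 +
      12211524722125157895941733 / 1054135040000000000000 * s ^ 6 * t ^ 2 +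
      8010238107629905209573507 / 1844736320000000000000 * s ^ 7 * t +
      5156206949694161436407253 / 7378945280000000000000 * s ^ 8 =
      (1 + 1 / 100 + (1 / 100) ^ 2 / 2) * ((1 + (3 / 50 * u ^ 2) + (3 / 50 * u ^ 2) ^ 2 / 2 +
      (3 / 50 * u ^ 2) ^ 3 / 6) *
      (1 + u + 69 / 125 * u ^ 2)) -
      (97387 / 50000 * (1 + (u - 2 / 3) / 8) ^ 8) := by
    rw [hs, ht]
    ring
  rw [e] at h
  linarith

theorem ev_eight_e42_g3 (u : ℝ) (h1 : 29 / 12 ≤ u) (h2 : u ≤ 3) :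
    97387 / 50000 * (1 + (u - 2 / 3) / 8) ^ 8 ≤
      (1 + 1 / 100 + (1 / 100) ^ 2 / 2) * ((1 + (3 / 50 * u ^ 2) + (3 / 50 * u ^ 2) ^ 2 / 2 +
      (3 / 50 * u ^ 2) ^ 3 / 6) *
      (1 + u + 69 / 125 * u ^ 2)) := by
  obtain ⟨s, hs⟩ : ∃ s, s = u - (29 / 12) := ⟨_, rfl⟩
  obtain ⟨t, ht⟩ : ∃ t, t = 3 - u := ⟨_, rfl⟩
  have hs0 : 0 ≤ s := by linarith
  have ht0 : 0 ≤ t := by linarith
  have h : 0 ≤
      5156206949694161436407253 / 1889009991680000000000000 * t ^ 8 +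
      1864595685363144774912063 / 59031562240000000000000 * s * t ^ 7 +
      659747413974573722885373 / 4216540160000000000000 * s ^ 2 * t ^ 6 +
      228609162373912818144183 / 527067520000000000000 * s ^ 3 * t ^ 5 +
      77727853444190255579493 / 105413504000000000000 * s ^ 4 * t ^ 4 +
      25987274747023333656303 / 32941720000000000000 * s ^ 5 * t ^ 3 +
      8561087508219817913613 / 16470860000000000000 * s ^ 6 * t ^ 2 +
      2783997497898031464423 / 14412002500000000000 * s ^ 7 * t +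
      895089026504182495733 / 28824005000000000000 * s ^ 8 := by
    positivity
  have e :
      5156206949694161436407253 / 1889009991680000000000000 * t ^ 8 +
      1864595685363144774912063 / 59031562240000000000000 * s * t ^ 7 +
      659747413974573722885373 / 4216540160000000000000 * s ^ 2 * t ^ 6 +
      228609162373912818144183 / 527067520000000000000 * s ^ 3 * t ^ 5 +
      77727853444190255579493 / 105413504000000000000 * s ^ 4 * t ^ 4 +
      25987274747023333656303 / 32941720000000000000 * s ^ 5 * t ^ 3 +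
      8561087508219817913613 / 16470860000000000000 * s ^ 6 * t ^ 2 +
      2783997497898031464423 / 14412002500000000000 * s ^ 7 * t +
      895089026504182495733 / 28824005000000000000 * s ^ 8 =
      (1 + 1 / 100 + (1 / 100) ^ 2 / 2) * ((1 + (3 / 50 * u ^ 2) + (3 / 50 * u ^ 2) ^ 2 / 2 +
      (3 / 50 * u ^ 2) ^ 3 / 6) *
      (1 + u + 69 / 125 * u ^ 2)) -
      (97387 / 50000 * (1 + (u - 2 / 3) / 8) ^ 8) := by
    rw [hs, ht]
    ring
  rw [e] at h
  linarith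

theorem ev_eight_e42_t (u : ℝ) (h1 : 3 ≤ u) :
    97387 / 50000 * (1 + (u - 2 / 3) / 8) ^ 8 ≤
      (1 + 1 / 100 + (1 / 100) ^ 2 / 2) * ((1 + (3 / 50 * u ^ 2) + (3 / 50 * u ^ 2) ^ 2 / 2 +
      (3 / 50 * u ^ 2) ^ 3 / 6) *
      (1 + u + 69 / 125 * u ^ 2)) := by
  obtain ⟨s, hs⟩ : ∃ s, s = u - (3) := ⟨_, rfl⟩
  have hs0 : 0 ≤ s := by linarith
  have h : 0 ≤
      895089026504182495733 / 2149908480000000000000 +
      113765515445528359787 / 89579520000000000000 * s +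
      87218849871783732851 / 59719680000000000000 * s ^ 2 +
      8154962219931647789 / 9953280000000000000 * s ^ 3 +
      685975522140235571 / 2654208000000000000 * s ^ 4 +
      55942556286953069 / 1105920000000000000 * s ^ 5 +
      4803025893218291 / 737280000000000000 * s ^ 6 +
      62482734292907 / 122880000000000000 * s ^ 7 + 6539057315573 / 327680000000000000 * s ^ 8 := by
    positivity
  have e :
      895089026504182495733 / 2149908480000000000000 +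
      113765515445528359787 / 89579520000000000000 * s +
      87218849871783732851 / 59719680000000000000 * s ^ 2 +
      8154962219931647789 / 9953280000000000000 * s ^ 3 +
      685975522140235571 / 2654208000000000000 * s ^ 4 +
      55942556286953069 / 1105920000000000000 * s ^ 5 +
      4803025893218291 / 737280000000000000 * s ^ 6 +
      62482734292907 / 122880000000000000 * s ^ 7 + 6539057315573 / 327680000000000000 * s ^ 8 =
      (1 + 1 / 100 + (1 / 100) ^ 2 / 2) * ((1 + (3 / 50 * u ^ 2) + (3 / 50 * u ^ 2) ^ 2 / 2 +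
      (3 / 50 * u ^ 2) ^ 3 / 6) *
      (1 + u + 69 / 125 * u ^ 2)) -
      (97387 / 50000 * (1 + (u - 2 / 3) / 8) ^ 8) := by
    rw [hs]
    ring
  rw [e] at h
  linarith

/-- `K = 8`: `(c, μ, P, δ) = (69 / 125, 3 / 50, 2 / 3, 1 / 100)` -/
theorem expFd_eight_e42 : ExpFd 8 (69 / 125) (3 / 50) (2 / 3) (1 / 100) := by
  have hde : (1 + 1 / 100 + (1 / 100) ^ 2 / 2) ≤ Real.exp (1 / 100) :=
    Real.quadratic_le_exp_of_nonneg (by norm_num)
  have hq : ∀ u : ℝ, 0 ≤ 1 + u + 69 / 125 * u ^ 2 := fun u => by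
    nlinarith [sq_nonneg (u + 2), sq_nonneg u]
  have hR : ∀ (u x y : ℝ), x ≤ y →
      y ≤ (1 + 1 / 100 + (1 / 100) ^ 2 / 2) * (1 + u + 69 / 125 * u ^ 2) →
      x ≤ Real.exp (1 / 100) * (1 + u + 69 / 125 * u ^ 2) := fun u x y h1 h2 =>
    (h1.trans h2).trans (mul_le_mul_of_nonneg_right hde (hq u))
  refine ExpFd.of (by norm_num) (by norm_num) (by norm_num) (by norm_num) (by norm_num) ?_ ?_ ?_
  · intro u h1
    rcases le_total u (-3) with h3 | h3
    · exact hR u _ _ (ev_exp_n3 h3) (ev_eight_e42_d u h3)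
    rcases le_total u (-2) with h4 | h4
    · refine hR u _ _ (ev_exp_n2 h4) ?_
      exact ev_eight_e42_c0 u (by linarith) (by linarith)
    rcases le_total u (-1) with h5 | h5
    · refine hR u _ _ (ev_exp_n1 h5) ?_
      exact ev_eight_e42_b0 u (by linarith) (by linarith)
    refine hR u _ _ (ev_exp_n0 h1) ?_
    exact ev_eight_e42_a0 u (by linarith) (by linarith)
  · intro u h1 h2
    have h5 := mul_le_mul_of_nonneg_right (Real.add_one_le_exp (3 / 50 * u ^ 2)) (hq u)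
    rw [add_comm (3 / 50 * u ^ 2) 1] at h5
    have h6 : 0 ≤ Real.exp (3 / 50 * u ^ 2) * (1 + u + 69 / 125 * u ^ 2) :=
      mul_nonneg (Real.exp_nonneg _) (hq u)
    rw [Real.exp_add, mul_assoc]
    refine ((ev_exp_p h1 (by linarith)).trans ?_).trans
      ((mul_le_mul_of_nonneg_left h5
        (by norm_num : (0 : ℝ) ≤ (1 + 1 / 100 + (1 / 100) ^ 2 / 2))).trans
        (mul_le_mul_of_nonneg_right hde h6))
    exact ev_eight_e42_e0 u (by linarith) (by linarith)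
  · intro u h1
    have h4 : 0 ≤ (1 + (u - 2 / 3) / 8) ^ 8 := by
      have : 0 ≤ (u - 2 / 3) / 8 := div_nonneg (by linarith) (by norm_num)
      positivity
    have hE : Real.exp (2 / 3) ≤ 97387 / 50000 := ev_up_2_3
    have hx : 0 ≤ 3 / 50 * u ^ 2 := by positivity
    have h5 := mul_le_mul_of_nonneg_right (taylor3_le_expE _ hx) (hq u)
    have h6 : 0 ≤ Real.exp (3 / 50 * u ^ 2) * (1 + u + 69 / 125 * u ^ 2) :=
      mul_nonneg (Real.exp_nonneg _) (hq u)
    rw [Real.exp_add, mul_assoc]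
    push_cast
    refine ((mul_le_mul_of_nonneg_right hE h4).trans ?_).trans
      ((mul_le_mul_of_nonneg_left h5
        (by norm_num : (0 : ℝ) ≤ (1 + 1 / 100 + (1 / 100) ^ 2 / 2))).trans
        (mul_le_mul_of_nonneg_right hde h6))
    rcases le_total u (11 / 6) with hh | hh
    · exact ev_eight_e42_g0 u (by linarith) (by linarith)
    rcases le_total u (17 / 8) with hh | hh
    · exact ev_eight_e42_g1 u (by linarith) (by linarith)
    rcases le_total u (29 / 12) with hh | hh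
    · exact ev_eight_e42_g2 u (by linarith) (by linarith)
    rcases le_total u (3) with hh | hh
    · exact ev_eight_e42_g3 u (by linarith) (by linarith)
    exact ev_eight_e42_t u (by linarith)

theorem ev_eight_e43_a0 (u : ℝ) (h1 : -1 ≤ u) (h2 : u ≤ 0) :
    1 + u + u ^ 2 / 2 + u ^ 3 / 6 + u ^ 4 / 24 ≤
      (1 + 1 / 50 + (1 / 50) ^ 2 / 2) * (1 + u + 27 / 50 * u ^ 2) := by
  obtain ⟨s, hs⟩ : ∃ s, s = u - (-1) := ⟨_, rfl⟩
  obtain ⟨t, ht⟩ : ∃ t, t = 0 - u := ⟨_, rfl⟩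
  have hs0 : 0 ≤ s := by linarith
  have ht0 : 0 ≤ t := by linarith
  have h : 0 ≤
      43977 / 250000 * t ^ 4 + 13532 / 46875 * s * t ^ 3 + 27877 / 250000 * s ^ 2 * t ^ 2 +
      303 / 5000 * s ^ 3 * t + 101 / 5000 * s ^ 4 := by
    positivity
  have e :
      43977 / 250000 * t ^ 4 + 13532 / 46875 * s * t ^ 3 + 27877 / 250000 * s ^ 2 * t ^ 2 +
      303 / 5000 * s ^ 3 * t + 101 / 5000 * s ^ 4 =
      (1 + 1 / 50 + (1 / 50) ^ 2 / 2) * (1 + u + 27 / 50 * u ^ 2) -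
      (1 + u + u ^ 2 / 2 + u ^ 3 / 6 + u ^ 4 / 24) := by
    rw [hs, ht]
    ring
  rw [e] at h
  linarith

theorem ev_eight_e43_b0 (u : ℝ) (h1 : -2 ≤ u) (h2 : u ≤ -1) :
    36788 / 100000 *
      (1 + (u + 1) + (u + 1) ^ 2 / 2 + (u + 1) ^ 3 / 6 + (u + 1) ^ 4 / 24) ≤
      (1 + 1 / 50 + (1 / 50) ^ 2 / 2) * (1 + u + 27 / 50 * u ^ 2) := by
  obtain ⟨s, hs⟩ : ∃ s, s = u - (-2) := ⟨_, rfl⟩
  obtain ⟨t, ht⟩ : ∃ t, t = -1 - u := ⟨_, rfl⟩
  have hs0 : 0 ≤ s := by linarith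
  have ht0 : 0 ≤ t := by linarith
  have h : 0 ≤
      1045477 / 1000000 * t ^ 4 + 2156887 / 750000 * s * t ^ 3 +
      351703 / 125000 * s ^ 2 * t ^ 2 + 147701 / 125000 * s ^ 3 * t + 45757 / 250000 * s ^ 4 := by
    positivity
  have e :
      1045477 / 1000000 * t ^ 4 + 2156887 / 750000 * s * t ^ 3 +
      351703 / 125000 * s ^ 2 * t ^ 2 + 147701 / 125000 * s ^ 3 * t + 45757 / 250000 * s ^ 4 =
      (1 + 1 / 50 + (1 / 50) ^ 2 / 2) * (1 + u + 27 / 50 * u ^ 2) -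
      (36788 / 100000 *
      (1 + (u + 1) + (u + 1) ^ 2 / 2 + (u + 1) ^ 3 / 6 + (u + 1) ^ 4 / 24)) := by
    rw [hs, ht]
    ring
  rw [e] at h
  linarith

theorem ev_eight_e43_c0 (u : ℝ) (h1 : -3 ≤ u) (h2 : u ≤ -2) :
    13534 / 100000 *
      (1 + (u + 2) + (u + 2) ^ 2 / 2 + (u + 2) ^ 3 / 6 + (u + 2) ^ 4 / 24) ≤
      (1 + 1 / 50 + (1 / 50) ^ 2 / 2) * (1 + u + 27 / 50 * u ^ 2) := by
  obtain ⟨s, hs⟩ : ∃ s, s = u - (-3) := ⟨_, rfl⟩
  obtain ⟨t, ht⟩ : ∃ t, t = -2 - u := ⟨_, rfl⟩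
  have hs0 : 0 ≤ s := by linarith
  have ht0 : 0 ≤ t := by linarith
  have h : 0 ≤
      5734039 / 2000000 * t ^ 4 + 548263 / 60000 * s * t ^ 3 +
      5364053 / 500000 * s ^ 2 * t ^ 2 + 275557 / 50000 * s ^ 3 * t + 262023 / 250000 * s ^ 4 := by
    positivity
  have e :
      5734039 / 2000000 * t ^ 4 + 548263 / 60000 * s * t ^ 3 +
      5364053 / 500000 * s ^ 2 * t ^ 2 + 275557 / 50000 * s ^ 3 * t + 262023 / 250000 * s ^ 4 =
      (1 + 1 / 50 + (1 / 50) ^ 2 / 2) * (1 + u + 27 / 50 * u ^ 2) -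
      (13534 / 100000 *
      (1 + (u + 2) + (u + 2) ^ 2 / 2 + (u + 2) ^ 3 / 6 + (u + 2) ^ 4 / 24)) := by
    rw [hs, ht]
    ring
  rw [e] at h
  linarith

theorem ev_eight_e43_d (u : ℝ) (h2 : u ≤ -3) :
    4979 / 100000 ≤
      (1 + 1 / 50 + (1 / 50) ^ 2 / 2) * (1 + u + 27 / 50 * u ^ 2) := by
  obtain ⟨s, hs⟩ : ∃ s, s = -3 - u := ⟨_, rfl⟩
  have hs0 : 0 ≤ s := by linarith
  have h : 0 ≤
      1433991 / 500000 + 35707 / 15625 * s + 137727 / 250000 * s ^ 2 := by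
    positivity
  have e :
      1433991 / 500000 + 35707 / 15625 * s + 137727 / 250000 * s ^ 2 =
      (1 + 1 / 50 + (1 / 50) ^ 2 / 2) * (1 + u + 27 / 50 * u ^ 2) -
      (4979 / 100000) := by
    rw [hs]
    ring
  rw [e] at h
  linarith

theorem ev_eight_e43_e0 (u : ℝ) (h1 : 0 ≤ u) (h2 : u ≤ 2 / 3) :
    1 + u + u ^ 2 / 2 + u ^ 3 / 6 + u ^ 4 / 24 + u ^ 5 / 100 ≤
      (1 + 1 / 50 + (1 / 50) ^ 2 / 2) * ((1 + 3 / 50 * u ^ 2) *
      (1 + u + 27 / 50 * u ^ 2)) := by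
  obtain ⟨s, hs⟩ : ∃ s, s = u - (0) := ⟨_, rfl⟩
  obtain ⟨t, ht⟩ : ∃ t, t = 2 / 3 - u := ⟨_, rfl⟩
  have hs0 : 0 ≤ s := by linarith
  have ht0 : 0 ≤ t := by linarith
  have h : 0 ≤
      24543 / 160000 * t ^ 5 + 139077 / 160000 * s * t ^ 4 +
      928557 / 400000 * s ^ 2 * t ^ 3 + 6090909 / 2000000 * s ^ 3 * t ^ 2 +
      182376947 / 100000000 * s ^ 4 * t + 37386997 / 100000000 * s ^ 5 := by
    positivity
  have e :
      24543 / 160000 * t ^ 5 + 139077 / 160000 * s * t ^ 4 +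
      928557 / 400000 * s ^ 2 * t ^ 3 + 6090909 / 2000000 * s ^ 3 * t ^ 2 +
      182376947 / 100000000 * s ^ 4 * t + 37386997 / 100000000 * s ^ 5 =
      (1 + 1 / 50 + (1 / 50) ^ 2 / 2) * ((1 + 3 / 50 * u ^ 2) *
      (1 + u + 27 / 50 * u ^ 2)) -
      (1 + u + u ^ 2 / 2 + u ^ 3 / 6 + u ^ 4 / 24 + u ^ 5 / 100) := by
    rw [hs, ht]
    ring
  rw [e] at h
  linarith

theorem ev_eight_e43_g0 (u : ℝ) (h1 : 2 / 3 ≤ u) (h2 : u ≤ 11 / 6) :
    97387 / 50000 * (1 + (u - 2 / 3) / 8) ^ 8 ≤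
      (1 + 1 / 50 + (1 / 50) ^ 2 / 2) * ((1 + (3 / 50 * u ^ 2) + (3 / 50 * u ^ 2) ^ 2 / 2 +
      (3 / 50 * u ^ 2) ^ 3 / 6) *
      (1 + u + 27 / 50 * u ^ 2)) := by
  obtain ⟨s, hs⟩ : ∃ s, s = u - (2 / 3) := ⟨_, rfl⟩
  obtain ⟨t, ht⟩ : ∃ t, t = 11 / 6 - u := ⟨_, rfl⟩
  have hs0 : 0 ≤ s := by linarith
  have ht0 : 0 ≤ t := by linarith
  have h : 0 ≤
      2929639003344 / 201060302734375 * t ^ 8 +
      24410749706568 / 201060302734375 * s * t ^ 7 +
      50043801246399 / 114891601562500 * s ^ 2 * t ^ 6 +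
      789894318244131 / 919132812500000 * s ^ 3 * t ^ 5 +
      11776128396658839 / 11764900000000000 * s ^ 4 * t ^ 4 +
      162375375181133691 / 235298000000000000 * s ^ 5 * t ^ 3 +
      2013084091944675279 / 7529536000000000000 * s ^ 6 * t ^ 2 +
      21751120118496631251 / 421654016000000000000 * s ^ 7 * t +
      217620021803846315719 / 53971714048000000000000 * s ^ 8 := by
    positivity
  have e :
      2929639003344 / 201060302734375 * t ^ 8 +
      24410749706568 / 201060302734375 * s * t ^ 7 +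
      50043801246399 / 114891601562500 * s ^ 2 * t ^ 6 +
      789894318244131 / 919132812500000 * s ^ 3 * t ^ 5 +
      11776128396658839 / 11764900000000000 * s ^ 4 * t ^ 4 +
      162375375181133691 / 235298000000000000 * s ^ 5 * t ^ 3 +
      2013084091944675279 / 7529536000000000000 * s ^ 6 * t ^ 2 +
      21751120118496631251 / 421654016000000000000 * s ^ 7 * t +
      217620021803846315719 / 53971714048000000000000 * s ^ 8 =
      (1 + 1 / 50 + (1 / 50) ^ 2 / 2) * ((1 + (3 / 50 * u ^ 2) + (3 / 50 * u ^ 2) ^ 2 / 2 +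
      (3 / 50 * u ^ 2) ^ 3 / 6) *
      (1 + u + 27 / 50 * u ^ 2)) -
      (97387 / 50000 * (1 + (u - 2 / 3) / 8) ^ 8) := by
    rw [hs, ht]
    ring
  rw [e] at h
  linarith

theorem ev_eight_e43_g1 (u : ℝ) (h1 : 11 / 6 ≤ u) (h2 : u ≤ 29 / 12) :
    97387 / 50000 * (1 + (u - 2 / 3) / 8) ^ 8 ≤
      (1 + 1 / 50 + (1 / 50) ^ 2 / 2) * ((1 + (3 / 50 * u ^ 2) + (3 / 50 * u ^ 2) ^ 2 / 2 +
      (3 / 50 * u ^ 2) ^ 3 / 6) *
      (1 + u + 27 / 50 * u ^ 2)) := by
  obtain ⟨s, hs⟩ : ∃ s, s = u - (11 / 6) := ⟨_, rfl⟩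
  obtain ⟨t, ht⟩ : ∃ t, t = 29 / 12 - u := ⟨_, rfl⟩
  have hs0 : 0 ≤ s := by linarith
  have ht0 : 0 ≤ t := by linarith
  have h : 0 ≤
      217620021803846315719 / 210827008000000000000 * t ^ 8 +
      304842143515592847141 / 52706752000000000000 * s * t ^ 7 +
      385822192396777112799 / 30118144000000000000 * s ^ 2 * t ^ 6 +
      452312908611914068461 / 30118144000000000000 * s ^ 3 * t ^ 5 +
      660846598092914321079 / 48189030400000000000 * s ^ 4 * t ^ 4 +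
      1968862093323662830581 / 120472576000000000000 * s ^ 5 * t ^ 3 +
      8354678839334214740559 / 481890304000000000000 * s ^ 6 * t ^ 2 +
      33883347555471028125501 / 3373232128000000000000 * s ^ 7 * t +
      123911615801103585187239 / 53971714048000000000000 * s ^ 8 := by
    positivity
  have e :
      217620021803846315719 / 210827008000000000000 * t ^ 8 +
      304842143515592847141 / 52706752000000000000 * s * t ^ 7 +
      385822192396777112799 / 30118144000000000000 * s ^ 2 * t ^ 6 +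
      452312908611914068461 / 30118144000000000000 * s ^ 3 * t ^ 5 +
      660846598092914321079 / 48189030400000000000 * s ^ 4 * t ^ 4 +
      1968862093323662830581 / 120472576000000000000 * s ^ 5 * t ^ 3 +
      8354678839334214740559 / 481890304000000000000 * s ^ 6 * t ^ 2 +
      33883347555471028125501 / 3373232128000000000000 * s ^ 7 * t +
      123911615801103585187239 / 53971714048000000000000 * s ^ 8 =
      (1 + 1 / 50 + (1 / 50) ^ 2 / 2) * ((1 + (3 / 50 * u ^ 2) + (3 / 50 * u ^ 2) ^ 2 / 2 +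
      (3 / 50 * u ^ 2) ^ 3 / 6) *
      (1 + u + 27 / 50 * u ^ 2)) -
      (97387 / 50000 * (1 + (u - 2 / 3) / 8) ^ 8) := by
    rw [hs, ht]
    ring
  rw [e] at h
  linarith

theorem ev_eight_e43_g2 (u : ℝ) (h1 : 29 / 12 ≤ u) (h2 : u ≤ 3) :
    97387 / 50000 * (1 + (u - 2 / 3) / 8) ^ 8 ≤
      (1 + 1 / 50 + (1 / 50) ^ 2 / 2) * ((1 + (3 / 50 * u ^ 2) + (3 / 50 * u ^ 2) ^ 2 / 2 +
      (3 / 50 * u ^ 2) ^ 3 / 6) *
      (1 + u + 27 / 50 * u ^ 2)) := by
  obtain ⟨s, hs⟩ : ∃ s, s = u - (29 / 12) := ⟨_, rfl⟩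
  obtain ⟨t, ht⟩ : ∃ t, t = 3 - u := ⟨_, rfl⟩
  have hs0 : 0 ≤ s := by linarith
  have ht0 : 0 ≤ t := by linarith
  have h : 0 ≤
      123911615801103585187239 / 53971714048000000000000 * t ^ 8 +
      45014134122816278530869 / 1686616064000000000000 * s * t ^ 7 +
      16124899882373935919199 / 120472576000000000000 * s ^ 2 * t ^ 6 +
      5669593444921185275229 / 15059072000000000000 * s ^ 3 * t ^ 5 +
      1955731052501439007959 / 3011814400000000000 * s ^ 4 * t ^ 4 +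
      662655173928331912389 / 941192000000000000 * s ^ 5 * t ^ 3 +
      31560524339143724217 / 67228000000000000 * s ^ 6 * t ^ 2 +
      72603424438752746349 / 411771500000000000 * s ^ 7 * t +
      23559409678101295879 / 823543000000000000 * s ^ 8 := by
    positivity
  have e :
      123911615801103585187239 / 53971714048000000000000 * t ^ 8 +
      45014134122816278530869 / 1686616064000000000000 * s * t ^ 7 +
      16124899882373935919199 / 120472576000000000000 * s ^ 2 * t ^ 6 +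
      5669593444921185275229 / 15059072000000000000 * s ^ 3 * t ^ 5 +
      1955731052501439007959 / 3011814400000000000 * s ^ 4 * t ^ 4 +
      662655173928331912389 / 941192000000000000 * s ^ 5 * t ^ 3 +
      31560524339143724217 / 67228000000000000 * s ^ 6 * t ^ 2 +
      72603424438752746349 / 411771500000000000 * s ^ 7 * t +
      23559409678101295879 / 823543000000000000 * s ^ 8 =
      (1 + 1 / 50 + (1 / 50) ^ 2 / 2) * ((1 + (3 / 50 * u ^ 2) + (3 / 50 * u ^ 2) ^ 2 / 2 +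
      (3 / 50 * u ^ 2) ^ 3 / 6) *
      (1 + u + 27 / 50 * u ^ 2)) -
      (97387 / 50000 * (1 + (u - 2 / 3) / 8) ^ 8) := by
    rw [hs, ht]
    ring
  rw [e] at h
  linarith

theorem ev_eight_e43_t (u : ℝ) (h1 : 3 ≤ u) :
    97387 / 50000 * (1 + (u - 2 / 3) / 8) ^ 8 ≤
      (1 + 1 / 50 + (1 / 50) ^ 2 / 2) * ((1 + (3 / 50 * u ^ 2) + (3 / 50 * u ^ 2) ^ 2 / 2 +
      (3 / 50 * u ^ 2) ^ 3 / 6) *
      (1 + u + 27 / 50 * u ^ 2)) := by
  obtain ⟨s, hs⟩ : ∃ s, s = u - (3) := ⟨_, rfl⟩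
  have hs0 : 0 ≤ s := by linarith
  have h : 0 ≤
      164915867746709071153 / 429981696000000000000 +
      21634214273652437167 / 17915904000000000000 * s +
      17046829713604832791 / 11943936000000000000 * s ^ 2 +
      1609530985441719049 / 1990656000000000000 * s ^ 3 +
      135772384202852311 / 530841600000000000 * s ^ 4 +
      11081763004621129 / 221184000000000000 * s ^ 5 +
      951146328756631 / 147456000000000000 * s ^ 6 +
      12364543893487 / 24576000000000000 * s ^ 7 + 1292146681393 / 65536000000000000 * s ^ 8 := by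
    positivity
  have e :
      164915867746709071153 / 429981696000000000000 +
      21634214273652437167 / 17915904000000000000 * s +
      17046829713604832791 / 11943936000000000000 * s ^ 2 +
      1609530985441719049 / 1990656000000000000 * s ^ 3 +
      135772384202852311 / 530841600000000000 * s ^ 4 +
      11081763004621129 / 221184000000000000 * s ^ 5 +
      951146328756631 / 147456000000000000 * s ^ 6 +
      12364543893487 / 24576000000000000 * s ^ 7 + 1292146681393 / 65536000000000000 * s ^ 8 =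
      (1 + 1 / 50 + (1 / 50) ^ 2 / 2) * ((1 + (3 / 50 * u ^ 2) + (3 / 50 * u ^ 2) ^ 2 / 2 +
      (3 / 50 * u ^ 2) ^ 3 / 6) *
      (1 + u + 27 / 50 * u ^ 2)) -
      (97387 / 50000 * (1 + (u - 2 / 3) / 8) ^ 8) := by
    rw [hs]
    ring
  rw [e] at h
  linarith

/-- `K = 8`: `(c, μ, P, δ) = (27 / 50, 3 / 50, 2 / 3, 1 / 50)` -/
theorem expFd_eight_e43 : ExpFd 8 (27 / 50) (3 / 50) (2 / 3) (1 / 50) := by
  have hde : (1 + 1 / 50 + (1 / 50) ^ 2 / 2) ≤ Real.exp (1 / 50) :=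
    Real.quadratic_le_exp_of_nonneg (by norm_num)
  have hq : ∀ u : ℝ, 0 ≤ 1 + u + 27 / 50 * u ^ 2 := fun u => by
    nlinarith [sq_nonneg (u + 2), sq_nonneg u]
  have hR : ∀ (u x y : ℝ), x ≤ y →
      y ≤ (1 + 1 / 50 + (1 / 50) ^ 2 / 2) * (1 + u + 27 / 50 * u ^ 2) →
      x ≤ Real.exp (1 / 50) * (1 + u + 27 / 50 * u ^ 2) := fun u x y h1 h2 =>
    (h1.trans h2).trans (mul_le_mul_of_nonneg_right hde (hq u))
  refine ExpFd.of (by norm_num) (by norm_num) (by norm_num) (by norm_num) (by norm_num) ?_ ?_ ?_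
  · intro u h1
    rcases le_total u (-3) with h3 | h3
    · exact hR u _ _ (ev_exp_n3 h3) (ev_eight_e43_d u h3)
    rcases le_total u (-2) with h4 | h4
    · refine hR u _ _ (ev_exp_n2 h4) ?_
      exact ev_eight_e43_c0 u (by linarith) (by linarith)
    rcases le_total u (-1) with h5 | h5
    · refine hR u _ _ (ev_exp_n1 h5) ?_
      exact ev_eight_e43_b0 u (by linarith) (by linarith)
    refine hR u _ _ (ev_exp_n0 h1) ?_
    exact ev_eight_e43_a0 u (by linarith) (by linarith)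
  · intro u h1 h2
    have h5 := mul_le_mul_of_nonneg_right (Real.add_one_le_exp (3 / 50 * u ^ 2)) (hq u)
    rw [add_comm (3 / 50 * u ^ 2) 1] at h5
    have h6 : 0 ≤ Real.exp (3 / 50 * u ^ 2) * (1 + u + 27 / 50 * u ^ 2) :=
      mul_nonneg (Real.exp_nonneg _) (hq u)
    rw [Real.exp_add, mul_assoc]
    refine ((ev_exp_p h1 (by linarith)).trans ?_).trans
      ((mul_le_mul_of_nonneg_left h5
        (by norm_num : (0 : ℝ) ≤ (1 + 1 / 50 + (1 / 50) ^ 2 / 2))).trans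
        (mul_le_mul_of_nonneg_right hde h6))
    exact ev_eight_e43_e0 u (by linarith) (by linarith)
  · intro u h1
    have h4 : 0 ≤ (1 + (u - 2 / 3) / 8) ^ 8 := by
      have : 0 ≤ (u - 2 / 3) / 8 := div_nonneg (by linarith) (by norm_num)
      positivity
    have hE : Real.exp (2 / 3) ≤ 97387 / 50000 := ev_up_2_3
    have hx : 0 ≤ 3 / 50 * u ^ 2 := by positivity
    have h5 := mul_le_mul_of_nonneg_right (taylor3_le_expE _ hx) (hq u)
    have h6 : 0 ≤ Real.exp (3 / 50 * u ^ 2) * (1 + u + 27 / 50 * u ^ 2) :=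
      mul_nonneg (Real.exp_nonneg _) (hq u)
    rw [Real.exp_add, mul_assoc]
    push_cast
    refine ((mul_le_mul_of_nonneg_right hE h4).trans ?_).trans
      ((mul_le_mul_of_nonneg_left h5
        (by norm_num : (0 : ℝ) ≤ (1 + 1 / 50 + (1 / 50) ^ 2 / 2))).trans
        (mul_le_mul_of_nonneg_right hde h6))
    rcases le_total u (11 / 6) with hh | hh
    · exact ev_eight_e43_g0 u (by linarith) (by linarith)
    rcases le_total u (29 / 12) with hh | hh
    · exact ev_eight_e43_g1 u (by linarith) (by linarith)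
    rcases le_total u (3) with hh | hh
    · exact ev_eight_e43_g2 u (by linarith) (by linarith)
    exact ev_eight_e43_t u (by linarith)

theorem ev_eight_e44_a0 (u : ℝ) (h1 : -1 ≤ u) (h2 : u ≤ 0) :
    1 + u + u ^ 2 / 2 + u ^ 3 / 6 + u ^ 4 / 24 ≤
      (1 + 1 / 20 + (1 / 20) ^ 2 / 2) * (1 + u + 453 / 1000 * u ^ 2) := by
  obtain ⟨s, hs⟩ : ∃ s, s = u - (-1) := ⟨_, rfl⟩
  obtain ⟨t, ht⟩ : ∃ t, t = 0 - u := ⟨_, rfl⟩
  have hs0 : 0 ≤ s := by linarith
  have ht0 : 0 ≤ t := by linarith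
  have h : 0 ≤
      80973 / 800000 * t ^ 4 + 204419 / 1200000 * s * t ^ 3 +
      103973 / 800000 * s ^ 2 * t ^ 2 + 123 / 800 * s ^ 3 * t + 41 / 800 * s ^ 4 := by
    positivity
  have e :
      80973 / 800000 * t ^ 4 + 204419 / 1200000 * s * t ^ 3 +
      103973 / 800000 * s ^ 2 * t ^ 2 + 123 / 800 * s ^ 3 * t + 41 / 800 * s ^ 4 =
      (1 + 1 / 20 + (1 / 20) ^ 2 / 2) * (1 + u + 453 / 1000 * u ^ 2) -
      (1 + u + u ^ 2 / 2 + u ^ 3 / 6 + u ^ 4 / 24) := by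
    rw [hs, ht]
    ring
  rw [e] at h
  linarith

theorem ev_eight_e44_b0 (u : ℝ) (h1 : -2 ≤ u) (h2 : u ≤ -1) :
    36788 / 100000 *
      (1 + (u + 1) + (u + 1) ^ 2 / 2 + (u + 1) ^ 3 / 6 + (u + 1) ^ 4 / 24) ≤
      (1 + 1 / 20 + (1 / 20) ^ 2 / 2) * (1 + u + 453 / 1000 * u ^ 2) := by
  obtain ⟨s, hs⟩ : ∃ s, s = u - (-2) := ⟨_, rfl⟩
  obtain ⟨t, ht⟩ : ∃ t, t = -1 - u := ⟨_, rfl⟩
  have hs0 : 0 ≤ s := by linarith
  have ht0 : 0 ≤ t := by linarith
  have h : 0 ≤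
      35783 / 50000 * t ^ 4 + 1131839 / 600000 * s * t ^ 3 +
      279917 / 160000 * s ^ 2 * t ^ 2 + 280963 / 400000 * s ^ 3 * t + 86669 / 800000 * s ^ 4 := by
    positivity
  have e :
      35783 / 50000 * t ^ 4 + 1131839 / 600000 * s * t ^ 3 +
      279917 / 160000 * s ^ 2 * t ^ 2 + 280963 / 400000 * s ^ 3 * t + 86669 / 800000 * s ^ 4 =
      (1 + 1 / 20 + (1 / 20) ^ 2 / 2) * (1 + u + 453 / 1000 * u ^ 2) -
      (36788 / 100000 *
      (1 + (u + 1) + (u + 1) ^ 2 / 2 + (u + 1) ^ 3 / 6 + (u + 1) ^ 4 / 24)) := by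
    rw [hs, ht]
    ring
  rw [e] at h
  linarith

theorem ev_eight_e44_c0 (u : ℝ) (h1 : -3 ≤ u) (h2 : u ≤ -2) :
    13534 / 100000 *
      (1 + (u + 2) + (u + 2) ^ 2 / 2 + (u + 2) ^ 3 / 6 + (u + 2) ^ 4 / 24) ≤
      (1 + 1 / 20 + (1 / 20) ^ 2 / 2) * (1 + u + 453 / 1000 * u ^ 2) := by
  obtain ⟨s, hs⟩ : ∃ s, s = u - (-3) := ⟨_, rfl⟩
  obtain ⟨t, ht⟩ : ∃ t, t = -2 - u := ⟨_, rfl⟩
  have hs0 : 0 ≤ s := by linarith
  have ht0 : 0 ≤ t := by linarith
  have h : 0 ≤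
      341231 / 160000 * t ^ 4 + 8015537 / 1200000 * s * t ^ 3 +
      6148049 / 800000 * s ^ 2 * t ^ 2 + 772411 / 200000 * s ^ 3 * t + 28731 / 40000 * s ^ 4 := by
    positivity
  have e :
      341231 / 160000 * t ^ 4 + 8015537 / 1200000 * s * t ^ 3 +
      6148049 / 800000 * s ^ 2 * t ^ 2 + 772411 / 200000 * s ^ 3 * t + 28731 / 40000 * s ^ 4 =
      (1 + 1 / 20 + (1 / 20) ^ 2 / 2) * (1 + u + 453 / 1000 * u ^ 2) -
      (13534 / 100000 *
      (1 + (u + 2) + (u + 2) ^ 2 / 2 + (u + 2) ^ 3 / 6 + (u + 2) ^ 4 / 24)) := by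
    rw [hs, ht]
    ring
  rw [e] at h
  linarith

theorem ev_eight_e44_d (u : ℝ) (h2 : u ≤ -3) :
    4979 / 100000 ≤
      (1 + 1 / 20 + (1 / 20) ^ 2 / 2) * (1 + u + 453 / 1000 * u ^ 2) := by
  obtain ⟨s, hs⟩ : ∃ s, s = -3 - u := ⟨_, rfl⟩
  have hs0 : 0 ≤ s := by linarith
  have h : 0 ≤
      68277 / 32000 + 722419 / 400000 * s + 380973 / 800000 * s ^ 2 := by
    positivity
  have e :
      68277 / 32000 + 722419 / 400000 * s + 380973 / 800000 * s ^ 2 =
      (1 + 1 / 20 + (1 / 20) ^ 2 / 2) * (1 + u + 453 / 1000 * u ^ 2) -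
      (4979 / 100000) := by
    rw [hs]
    ring
  rw [e] at h
  linarith

theorem ev_eight_e44_e0 (u : ℝ) (h1 : 0 ≤ u) (h2 : u ≤ 2 / 3) :
    1 + u + u ^ 2 / 2 + u ^ 3 / 6 + u ^ 4 / 24 + u ^ 5 / 100 ≤
      (1 + 1 / 20 + (1 / 20) ^ 2 / 2) * ((1 + 7 / 100 * u ^ 2) *
      (1 + u + 453 / 1000 * u ^ 2)) := by
  obtain ⟨s, hs⟩ : ∃ s, s = u - (0) := ⟨_, rfl⟩
  obtain ⟨t, ht⟩ : ∃ t, t = 2 / 3 - u := ⟨_, rfl⟩
  have hs0 : 0 ≤ s := by linarith
  have ht0 : 0 ≤ t := by linarith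
  have h : 0 ≤
      9963 / 25600 * t ^ 5 + 56457 / 25600 * s * t ^ 4 + 32625261 / 6400000 * s ^ 2 * t ^ 3 +
      36757443 / 6400000 * s ^ 3 * t ^ 2 + 244529629 / 80000000 * s ^ 4 * t +
      11695901 / 20000000 * s ^ 5 := by
    positivity
  have e :
      9963 / 25600 * t ^ 5 + 56457 / 25600 * s * t ^ 4 + 32625261 / 6400000 * s ^ 2 * t ^ 3 +
      36757443 / 6400000 * s ^ 3 * t ^ 2 + 244529629 / 80000000 * s ^ 4 * t +
      11695901 / 20000000 * s ^ 5 =
      (1 + 1 / 20 + (1 / 20) ^ 2 / 2) * ((1 + 7 / 100 * u ^ 2) *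
      (1 + u + 453 / 1000 * u ^ 2)) -
      (1 + u + u ^ 2 / 2 + u ^ 3 / 6 + u ^ 4 / 24 + u ^ 5 / 100) := by
    rw [hs, ht]
    ring
  rw [e] at h
  linarith

theorem ev_eight_e44_g0 (u : ℝ) (h1 : 2 / 3 ≤ u) (h2 : u ≤ 4 / 3) :
    97387 / 50000 * (1 + (u - 2 / 3) / 8) ^ 8 ≤
      (1 + 1 / 20 + (1 / 20) ^ 2 / 2) * ((1 + (7 / 100 * u ^ 2) + (7 / 100 * u ^ 2) ^ 2 / 2 +
      (7 / 100 * u ^ 2) ^ 3 / 6) *
      (1 + u + 453 / 1000 * u ^ 2)) := by
  obtain ⟨s, hs⟩ : ∃ s, s = u - (2 / 3) := ⟨_, rfl⟩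
  obtain ⟨t, ht⟩ : ∃ t, t = 4 / 3 - u := ⟨_, rfl⟩
  have hs0 : 0 ≤ s := by linarith
  have ht0 : 0 ≤ t := by linarith
  have h : 0 ≤
      1600252176369 / 800000000000 * t ^ 8 + 12539877454079 / 800000000000 * s * t ^ 7 +
      85071254539631 / 1600000000000 * s ^ 2 * t ^ 6 +
      162685048077549 / 1600000000000 * s ^ 3 * t ^ 5 +
      612088578509867 / 5120000000000 * s ^ 4 * t ^ 4 +
      2258400895405061 / 25600000000000 * s ^ 5 * t ^ 3 +
      8144943862641963 / 204800000000000 * s ^ 6 * t ^ 2 +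
      4089296711735347 / 409600000000000 * s ^ 7 * t +
      13982957545953501 / 13107200000000000 * s ^ 8 := by
    positivity
  have e :
      1600252176369 / 800000000000 * t ^ 8 + 12539877454079 / 800000000000 * s * t ^ 7 +
      85071254539631 / 1600000000000 * s ^ 2 * t ^ 6 +
      162685048077549 / 1600000000000 * s ^ 3 * t ^ 5 +
      612088578509867 / 5120000000000 * s ^ 4 * t ^ 4 +
      2258400895405061 / 25600000000000 * s ^ 5 * t ^ 3 +
      8144943862641963 / 204800000000000 * s ^ 6 * t ^ 2 +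
      4089296711735347 / 409600000000000 * s ^ 7 * t +
      13982957545953501 / 13107200000000000 * s ^ 8 =
      (1 + 1 / 20 + (1 / 20) ^ 2 / 2) * ((1 + (7 / 100 * u ^ 2) + (7 / 100 * u ^ 2) ^ 2 / 2 +
      (7 / 100 * u ^ 2) ^ 3 / 6) *
      (1 + u + 453 / 1000 * u ^ 2)) -
      (97387 / 50000 * (1 + (u - 2 / 3) / 8) ^ 8) := by
    rw [hs, ht]
    ring
  rw [e] at h
  linarith

theorem ev_eight_e44_g1 (u : ℝ) (h1 : 4 / 3 ≤ u) (h2 : u ≤ 2) :
    97387 / 50000 * (1 + (u - 2 / 3) / 8) ^ 8 ≤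
      (1 + 1 / 20 + (1 / 20) ^ 2 / 2) * ((1 + (7 / 100 * u ^ 2) + (7 / 100 * u ^ 2) ^ 2 / 2 +
      (7 / 100 * u ^ 2) ^ 3 / 6) *
      (1 + u + 453 / 1000 * u ^ 2)) := by
  obtain ⟨s, hs⟩ : ∃ s, s = u - (4 / 3) := ⟨_, rfl⟩
  obtain ⟨t, ht⟩ : ∃ t, t = 2 - u := ⟨_, rfl⟩
  have hs0 : 0 ≤ s := by linarith
  have ht0 : 0 ≤ t := by linarith
  have h : 0 ≤
      13982957545953501 / 13107200000000000 * t ^ 8 +
      5804364122482807 / 819200000000000 * s * t ^ 7 +
      15960170343652643 / 819200000000000 * s ^ 2 * t ^ 6 +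
      5802360117253001 / 204800000000000 * s ^ 3 * t ^ 5 +
      1883328271098107 / 81920000000000 * s ^ 4 * t ^ 4 +
      516780615781649 / 51200000000000 * s ^ 5 * t ^ 3 +
      120277286360243 / 51200000000000 * s ^ 6 * t ^ 2 +
      7057888507343 / 12800000000000 * s ^ 7 * t + 8887314499901 / 51200000000000 * s ^ 8 := by
    positivity
  have e :
      13982957545953501 / 13107200000000000 * t ^ 8 +
      5804364122482807 / 819200000000000 * s * t ^ 7 +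
      15960170343652643 / 819200000000000 * s ^ 2 * t ^ 6 +
      5802360117253001 / 204800000000000 * s ^ 3 * t ^ 5 +
      1883328271098107 / 81920000000000 * s ^ 4 * t ^ 4 +
      516780615781649 / 51200000000000 * s ^ 5 * t ^ 3 +
      120277286360243 / 51200000000000 * s ^ 6 * t ^ 2 +
      7057888507343 / 12800000000000 * s ^ 7 * t + 8887314499901 / 51200000000000 * s ^ 8 =
      (1 + 1 / 20 + (1 / 20) ^ 2 / 2) * ((1 + (7 / 100 * u ^ 2) + (7 / 100 * u ^ 2) ^ 2 / 2 +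
      (7 / 100 * u ^ 2) ^ 3 / 6) *
      (1 + u + 453 / 1000 * u ^ 2)) -
      (97387 / 50000 * (1 + (u - 2 / 3) / 8) ^ 8) := by
    rw [hs, ht]
    ring
  rw [e] at h
  linarith

theorem ev_eight_e44_t (u : ℝ) (h1 : 2 ≤ u) :
    97387 / 50000 * (1 + (u - 2 / 3) / 8) ^ 8 ≤
      (1 + 1 / 20 + (1 / 20) ^ 2 / 2) * ((1 + (7 / 100 * u ^ 2) + (7 / 100 * u ^ 2) ^ 2 / 2 +
      (7 / 100 * u ^ 2) ^ 3 / 6) *
      (1 + u + 453 / 1000 * u ^ 2)) := by
  obtain ⟨s, hs⟩ : ∃ s, s = u - (2) := ⟨_, rfl⟩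
  have hs0 : 0 ≤ s := by linarith
  have h : 0 ≤
      8887314499901 / 1312200000000000 + 10716740492459 / 218700000000000 * s +
      171501214151867 / 583200000000000 * s ^ 2 + 109710079757453 / 388800000000000 * s ^ 3 +
      50150415834827 / 414720000000000 * s ^ 4 + 20221755147293 / 691200000000000 * s ^ 5 +
      8910145984187 / 1843200000000000 * s ^ 6 + 199478153273 / 409600000000000 * s ^ 7 +
      355304751421 / 13107200000000000 * s ^ 8 := by
    positivity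
  have e :
      8887314499901 / 1312200000000000 + 10716740492459 / 218700000000000 * s +
      171501214151867 / 583200000000000 * s ^ 2 + 109710079757453 / 388800000000000 * s ^ 3 +
      50150415834827 / 414720000000000 * s ^ 4 + 20221755147293 / 691200000000000 * s ^ 5 +
      8910145984187 / 1843200000000000 * s ^ 6 + 199478153273 / 409600000000000 * s ^ 7 +
      355304751421 / 13107200000000000 * s ^ 8 =
      (1 + 1 / 20 + (1 / 20) ^ 2 / 2) * ((1 + (7 / 100 * u ^ 2) + (7 / 100 * u ^ 2) ^ 2 / 2 +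
      (7 / 100 * u ^ 2) ^ 3 / 6) *
      (1 + u + 453 / 1000 * u ^ 2)) -
      (97387 / 50000 * (1 + (u - 2 / 3) / 8) ^ 8) := by
    rw [hs]
    ring
  rw [e] at h
  linarith

/-- `K = 8`: `(c, μ, P, δ) = (453 / 1000, 7 / 100, 2 / 3, 1 / 20)` -/
theorem expFd_eight_e44 : ExpFd 8 (453 / 1000) (7 / 100) (2 / 3) (1 / 20) := by
  have hde : (1 + 1 / 20 + (1 / 20) ^ 2 / 2) ≤ Real.exp (1 / 20) :=
    Real.quadratic_le_exp_of_nonneg (by norm_num)
  have hq : ∀ u : ℝ, 0 ≤ 1 + u + 453 / 1000 * u ^ 2 := fun u => by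
    nlinarith [sq_nonneg (u + 2), sq_nonneg u]
  have hR : ∀ (u x y : ℝ), x ≤ y →
      y ≤ (1 + 1 / 20 + (1 / 20) ^ 2 / 2) * (1 + u + 453 / 1000 * u ^ 2) →
      x ≤ Real.exp (1 / 20) * (1 + u + 453 / 1000 * u ^ 2) := fun u x y h1 h2 =>
    (h1.trans h2).trans (mul_le_mul_of_nonneg_right hde (hq u))
  refine ExpFd.of (by norm_num) (by norm_num) (by norm_num) (by norm_num) (by norm_num) ?_ ?_ ?_
  · intro u h1
    rcases le_total u (-3) with h3 | h3
    · exact hR u _ _ (ev_exp_n3 h3) (ev_eight_e44_d u h3)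
    rcases le_total u (-2) with h4 | h4
    · refine hR u _ _ (ev_exp_n2 h4) ?_
      exact ev_eight_e44_c0 u (by linarith) (by linarith)
    rcases le_total u (-1) with h5 | h5
    · refine hR u _ _ (ev_exp_n1 h5) ?_
      exact ev_eight_e44_b0 u (by linarith) (by linarith)
    refine hR u _ _ (ev_exp_n0 h1) ?_
    exact ev_eight_e44_a0 u (by linarith) (by linarith)
  · intro u h1 h2
    have h5 := mul_le_mul_of_nonneg_right (Real.add_one_le_exp (7 / 100 * u ^ 2)) (hq u)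
    rw [add_comm (7 / 100 * u ^ 2) 1] at h5
    have h6 : 0 ≤ Real.exp (7 / 100 * u ^ 2) * (1 + u + 453 / 1000 * u ^ 2) :=
      mul_nonneg (Real.exp_nonneg _) (hq u)
    rw [Real.exp_add, mul_assoc]
    refine ((ev_exp_p h1 (by linarith)).trans ?_).trans
      ((mul_le_mul_of_nonneg_left h5
        (by norm_num : (0 : ℝ) ≤ (1 + 1 / 20 + (1 / 20) ^ 2 / 2))).trans
        (mul_le_mul_of_nonneg_right hde h6))
    exact ev_eight_e44_e0 u (by linarith) (by linarith)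
  · intro u h1
    have h4 : 0 ≤ (1 + (u - 2 / 3) / 8) ^ 8 := by
      have : 0 ≤ (u - 2 / 3) / 8 := div_nonneg (by linarith) (by norm_num)
      positivity
    have hE : Real.exp (2 / 3) ≤ 97387 / 50000 := ev_up_2_3
    have hx : 0 ≤ 7 / 100 * u ^ 2 := by positivity
    have h5 := mul_le_mul_of_nonneg_right (taylor3_le_expE _ hx) (hq u)
    have h6 : 0 ≤ Real.exp (7 / 100 * u ^ 2) * (1 + u + 453 / 1000 * u ^ 2) :=
      mul_nonneg (Real.exp_nonneg _) (hq u)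
    rw [Real.exp_add, mul_assoc]
    push_cast
    refine ((mul_le_mul_of_nonneg_right hE h4).trans ?_).trans
      ((mul_le_mul_of_nonneg_left h5
        (by norm_num : (0 : ℝ) ≤ (1 + 1 / 20 + (1 / 20) ^ 2 / 2))).trans
        (mul_le_mul_of_nonneg_right hde h6))
    rcases le_total u (4 / 3) with hh | hh
    · exact ev_eight_e44_g0 u (by linarith) (by linarith)
    rcases le_total u (2) with hh | hh
    · exact ev_eight_e44_g1 u (by linarith) (by linarith)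
    exact ev_eight_e44_t u (by linarith)

theorem ev_eight_e45_a0 (u : ℝ) (h1 : -1 ≤ u) (h2 : u ≤ 0) :
    1 + u + u ^ 2 / 2 + u ^ 3 / 6 + u ^ 4 / 24 ≤
      (1 + 1 / 10 + (1 / 10) ^ 2 / 2) * (1 + u + 79 / 200 * u ^ 2) := by
  obtain ⟨s, hs⟩ : ∃ s, s = u - (-1) := ⟨_, rfl⟩
  obtain ⟨t, ht⟩ : ∃ t, t = 0 - u := ⟨_, rfl⟩
  have hs0 : 0 ≤ s := by linarith
  have ht0 : 0 ≤ t := by linarith
  have h : 0 ≤
      2459 / 40000 * t ^ 4 + 8677 / 60000 * s * t ^ 3 + 10059 / 40000 * s ^ 2 * t ^ 2 +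
      63 / 200 * s ^ 3 * t + 21 / 200 * s ^ 4 := by
    positivity
  have e :
      2459 / 40000 * t ^ 4 + 8677 / 60000 * s * t ^ 3 + 10059 / 40000 * s ^ 2 * t ^ 2 +
      63 / 200 * s ^ 3 * t + 21 / 200 * s ^ 4 =
      (1 + 1 / 10 + (1 / 10) ^ 2 / 2) * (1 + u + 79 / 200 * u ^ 2) -
      (1 + u + u ^ 2 / 2 + u ^ 3 / 6 + u ^ 4 / 24) := by
    rw [hs, ht]
    ring
  rw [e] at h
  linarith

theorem ev_eight_e45_b0 (u : ℝ) (h1 : -2 ≤ u) (h2 : u ≤ -1) :
    36788 / 100000 *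
      (1 + (u + 1) + (u + 1) ^ 2 / 2 + (u + 1) ^ 3 / 6 + (u + 1) ^ 4 / 24) ≤
      (1 + 1 / 10 + (1 / 10) ^ 2 / 2) * (1 + u + 79 / 200 * u ^ 2) := by
  obtain ⟨s, hs⟩ : ∃ s, s = u - (-2) := ⟨_, rfl⟩
  obtain ⟨t, ht⟩ : ∃ t, t = -1 - u := ⟨_, rfl⟩
  have hs0 : 0 ≤ s := by linarith
  have ht0 : 0 ≤ t := by linarith
  have h : 0 ≤
      100589 / 200000 * t ^ 4 + 93619 / 75000 * s * t ^ 3 + 214319 / 200000 * s ^ 2 * t ^ 2 +
      41021 / 100000 * s ^ 3 * t + 13719 / 200000 * s ^ 4 := by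
    positivity
  have e :
      100589 / 200000 * t ^ 4 + 93619 / 75000 * s * t ^ 3 + 214319 / 200000 * s ^ 2 * t ^ 2 +
      41021 / 100000 * s ^ 3 * t + 13719 / 200000 * s ^ 4 =
      (1 + 1 / 10 + (1 / 10) ^ 2 / 2) * (1 + u + 79 / 200 * u ^ 2) -
      (36788 / 100000 *
      (1 + (u + 1) + (u + 1) ^ 2 / 2 + (u + 1) ^ 3 / 6 + (u + 1) ^ 4 / 24)) := by
    rw [hs, ht]
    ring
  rw [e] at h
  linarith

theorem ev_eight_e45_c0 (u : ℝ) (h1 : -3 ≤ u) (h2 : u ≤ -2) :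
    13534 / 100000 *
      (1 + (u + 2) + (u + 2) ^ 2 / 2 + (u + 2) ^ 3 / 6 + (u + 2) ^ 4 / 24) ≤
      (1 + 1 / 10 + (1 / 10) ^ 2 / 2) * (1 + u + 79 / 200 * u ^ 2) := by
  obtain ⟨s, hs⟩ : ∃ s, s = u - (-3) := ⟨_, rfl⟩
  obtain ⟨t, ht⟩ : ∃ t, t = -2 - u := ⟨_, rfl⟩
  have hs0 : 0 ≤ s := by linarith
  have ht0 : 0 ≤ t := by linarith
  have h : 0 ≤
      667009 / 400000 * t ^ 4 + 766669 / 150000 * s * t ^ 3 +
      1146177 / 200000 * s ^ 2 * t ^ 2 + 34981 / 12500 * s ^ 3 * t + 12639 / 25000 * s ^ 4 := by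
    positivity
  have e :
      667009 / 400000 * t ^ 4 + 766669 / 150000 * s * t ^ 3 +
      1146177 / 200000 * s ^ 2 * t ^ 2 + 34981 / 12500 * s ^ 3 * t + 12639 / 25000 * s ^ 4 =
      (1 + 1 / 10 + (1 / 10) ^ 2 / 2) * (1 + u + 79 / 200 * u ^ 2) -
      (13534 / 100000 *
      (1 + (u + 2) + (u + 2) ^ 2 / 2 + (u + 2) ^ 3 / 6 + (u + 2) ^ 4 / 24)) := by
    rw [hs, ht]
    ring
  rw [e] at h
  linarith

theorem ev_eight_e45_d (u : ℝ) (h2 : u ≤ -3) :
    4979 / 100000 ≤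
      (1 + 1 / 10 + (1 / 10) ^ 2 / 2) * (1 + u + 79 / 200 * u ^ 2) := by
  obtain ⟨s, hs⟩ : ∃ s, s = -3 - u := ⟨_, rfl⟩
  have hs0 : 0 ≤ s := by linarith
  have h : 0 ≤
      333697 / 200000 + 30277 / 20000 * s + 17459 / 40000 * s ^ 2 := by
    positivity
  have e :
      333697 / 200000 + 30277 / 20000 * s + 17459 / 40000 * s ^ 2 =
      (1 + 1 / 10 + (1 / 10) ^ 2 / 2) * (1 + u + 79 / 200 * u ^ 2) -
      (4979 / 100000) := by
    rw [hs]
    ring
  rw [e] at h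
  linarith

theorem ev_eight_e45_e0 (u : ℝ) (h1 : 0 ≤ u) (h2 : u ≤ 2 / 3) :
    1 + u + u ^ 2 / 2 + u ^ 3 / 6 + u ^ 4 / 24 + u ^ 5 / 100 ≤
      (1 + 1 / 10 + (1 / 10) ^ 2 / 2) * ((1 + 7 / 100 * u ^ 2) *
      (1 + u + 79 / 200 * u ^ 2)) := by
  obtain ⟨s, hs⟩ : ∃ s, s = u - (0) := ⟨_, rfl⟩
  obtain ⟨t, ht⟩ : ∃ t, t = 2 / 3 - u := ⟨_, rfl⟩
  have hs0 : 0 ≤ s := by linarith
  have ht0 : 0 ≤ t := by linarith
  have h : 0 ≤
      5103 / 6400 * t ^ 5 + 28917 / 6400 * s * t ^ 4 + 3246831 / 320000 * s ^ 2 * t ^ 3 +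
      710517 / 64000 * s ^ 3 * t ^ 2 + 23337407 / 4000000 * s ^ 4 * t +
      1147933 / 1000000 * s ^ 5 := by
    positivity
  have e :
      5103 / 6400 * t ^ 5 + 28917 / 6400 * s * t ^ 4 + 3246831 / 320000 * s ^ 2 * t ^ 3 +
      710517 / 64000 * s ^ 3 * t ^ 2 + 23337407 / 4000000 * s ^ 4 * t +
      1147933 / 1000000 * s ^ 5 =
      (1 + 1 / 10 + (1 / 10) ^ 2 / 2) * ((1 + 7 / 100 * u ^ 2) *
      (1 + u + 79 / 200 * u ^ 2)) -
      (1 + u + u ^ 2 / 2 + u ^ 3 / 6 + u ^ 4 / 24 + u ^ 5 / 100) := by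
    rw [hs, ht]
    ring
  rw [e] at h
  linarith

theorem ev_eight_e45_g0 (u : ℝ) (h1 : 2 / 3 ≤ u) (h2 : u ≤ 11 / 6) :
    97387 / 50000 * (1 + (u - 2 / 3) / 8) ^ 8 ≤
      (1 + 1 / 10 + (1 / 10) ^ 2 / 2) * ((1 + (7 / 100 * u ^ 2) + (7 / 100 * u ^ 2) ^ 2 / 2 +
      (7 / 100 * u ^ 2) ^ 3 / 6) *
      (1 + u + 79 / 200 * u ^ 2)) := by
  obtain ⟨s, hs⟩ : ∃ s, s = u - (2 / 3) := ⟨_, rfl⟩
  obtain ⟨t, ht⟩ : ∃ t, t = 11 / 6 - u := ⟨_, rfl⟩
  have hs0 : 0 ≤ s := by linarith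
  have ht0 : 0 ≤ t := by linarith
  have h : 0 ≤
      7491469616896 / 168890654296875 * t ^ 8 +
      59273413836412 / 168890654296875 * s * t ^ 7 +
      114041911214341 / 96508945312500 * s ^ 2 * t ^ 6 +
      1691712257269079 / 772071562500000 * s ^ 3 * t ^ 5 +
      23901709964468251 / 9882516000000000 * s ^ 4 * t ^ 4 +
      316243449662767919 / 197650320000000000 * s ^ 5 * t ^ 3 +
      3820355404951087411 / 6324810240000000000 * s ^ 6 * t ^ 2 +
      40741904174277422759 / 354189373440000000000 * s ^ 7 * t +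
      386192028146731722571 / 45336239800320000000000 * s ^ 8 := by
    positivity
  have e :
      7491469616896 / 168890654296875 * t ^ 8 +
      59273413836412 / 168890654296875 * s * t ^ 7 +
      114041911214341 / 96508945312500 * s ^ 2 * t ^ 6 +
      1691712257269079 / 772071562500000 * s ^ 3 * t ^ 5 +
      23901709964468251 / 9882516000000000 * s ^ 4 * t ^ 4 +
      316243449662767919 / 197650320000000000 * s ^ 5 * t ^ 3 +
      3820355404951087411 / 6324810240000000000 * s ^ 6 * t ^ 2 +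
      40741904174277422759 / 354189373440000000000 * s ^ 7 * t +
      386192028146731722571 / 45336239800320000000000 * s ^ 8 =
      (1 + 1 / 10 + (1 / 10) ^ 2 / 2) * ((1 + (7 / 100 * u ^ 2) + (7 / 100 * u ^ 2) ^ 2 / 2 +
      (7 / 100 * u ^ 2) ^ 3 / 6) *
      (1 + u + 79 / 200 * u ^ 2)) -
      (97387 / 50000 * (1 + (u - 2 / 3) / 8) ^ 8) := by
    rw [hs, ht]
    ring
  rw [e] at h
  linarith

theorem ev_eight_e45_g1 (u : ℝ) (h1 : 11 / 6 ≤ u) (h2 : u ≤ 17 / 8) :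
    97387 / 50000 * (1 + (u - 2 / 3) / 8) ^ 8 ≤
      (1 + 1 / 10 + (1 / 10) ^ 2 / 2) * ((1 + (7 / 100 * u ^ 2) + (7 / 100 * u ^ 2) ^ 2 / 2 +
      (7 / 100 * u ^ 2) ^ 3 / 6) *
      (1 + u + 79 / 200 * u ^ 2)) := by
  obtain ⟨s, hs⟩ : ∃ s, s = u - (11 / 6) := ⟨_, rfl⟩
  obtain ⟨t, ht⟩ : ∃ t, t = 17 / 8 - u := ⟨_, rfl⟩
  have hs0 : 0 ≤ s := by linarith
  have ht0 : 0 ≤ t := by linarith
  have h : 0 ≤
      386192028146731722571 / 691776120000000000 * t ^ 8 +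
      426363224648406616237 / 115296020000000000 * s * t ^ 7 +
      1371369006483794600017 / 131766880000000000 * s ^ 2 * t ^ 6 +
      4252850031467345424197 / 263533760000000000 * s ^ 3 * t ^ 5 +
      12598730271822381496777 / 843308032000000000 * s ^ 4 * t ^ 4 +
      35273996369415239401757 / 4216540160000000000 * s ^ 5 * t ^ 3 +
      92768099517748245899137 / 33732321280000000000 * s ^ 6 * t ^ 2 +
      235420349042284149924917 / 472252497920000000000 * s ^ 7 * t +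
      669750062073073568991097 / 15112079933440000000000 * s ^ 8 := by
    positivity
  have e :
      386192028146731722571 / 691776120000000000 * t ^ 8 +
      426363224648406616237 / 115296020000000000 * s * t ^ 7 +
      1371369006483794600017 / 131766880000000000 * s ^ 2 * t ^ 6 +
      4252850031467345424197 / 263533760000000000 * s ^ 3 * t ^ 5 +
      12598730271822381496777 / 843308032000000000 * s ^ 4 * t ^ 4 +
      35273996369415239401757 / 4216540160000000000 * s ^ 5 * t ^ 3 +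
      92768099517748245899137 / 33732321280000000000 * s ^ 6 * t ^ 2 +
      235420349042284149924917 / 472252497920000000000 * s ^ 7 * t +
      669750062073073568991097 / 15112079933440000000000 * s ^ 8 =
      (1 + 1 / 10 + (1 / 10) ^ 2 / 2) * ((1 + (7 / 100 * u ^ 2) + (7 / 100 * u ^ 2) ^ 2 / 2 +
      (7 / 100 * u ^ 2) ^ 3 / 6) *
      (1 + u + 79 / 200 * u ^ 2)) -
      (97387 / 50000 * (1 + (u - 2 / 3) / 8) ^ 8) := by
    rw [hs, ht]
    ring
  rw [e] at h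
  linarith

theorem ev_eight_e45_g2 (u : ℝ) (h1 : 17 / 8 ≤ u) (h2 : u ≤ 29 / 12) :
    97387 / 50000 * (1 + (u - 2 / 3) / 8) ^ 8 ≤
      (1 + 1 / 10 + (1 / 10) ^ 2 / 2) * ((1 + (7 / 100 * u ^ 2) + (7 / 100 * u ^ 2) ^ 2 / 2 +
      (7 / 100 * u ^ 2) ^ 3 / 6) *
      (1 + u + 79 / 200 * u ^ 2)) := by
  obtain ⟨s, hs⟩ : ∃ s, s = u - (17 / 8) := ⟨_, rfl⟩
  obtain ⟨t, ht⟩ : ∃ t, t = 29 / 12 - u := ⟨_, rfl⟩
  have hs0 : 0 ≤ s := by linarith
  have ht0 : 0 ≤ t := by linarith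
  have h : 0 ≤
      669750062073073568991097 / 15112079933440000000000 * t ^ 8 +
      198909363988505269141263 / 944504995840000000000 * s * t ^ 7 +
      99141063974929952887977 / 134929285120000000000 * s ^ 2 * t ^ 6 +
      88253191077025705017183 / 33732321280000000000 * s ^ 3 * t ^ 5 +
      85633458688628714263257 / 13492928512000000000 * s ^ 4 * t ^ 4 +
      76158063545778219734703 / 8433080320000000000 * s ^ 5 * t ^ 3 +
      61868101134724311740937 / 8433080320000000000 * s ^ 6 * t ^ 2 +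
      46839104759902540141823 / 14757890560000000000 * s ^ 7 * t +
      100872805756201171003051 / 177094686720000000000 * s ^ 8 := by
    positivity
  have e :
      669750062073073568991097 / 15112079933440000000000 * t ^ 8 +
      198909363988505269141263 / 944504995840000000000 * s * t ^ 7 +
      99141063974929952887977 / 134929285120000000000 * s ^ 2 * t ^ 6 +
      88253191077025705017183 / 33732321280000000000 * s ^ 3 * t ^ 5 +
      85633458688628714263257 / 13492928512000000000 * s ^ 4 * t ^ 4 +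
      76158063545778219734703 / 8433080320000000000 * s ^ 5 * t ^ 3 +
      61868101134724311740937 / 8433080320000000000 * s ^ 6 * t ^ 2 +
      46839104759902540141823 / 14757890560000000000 * s ^ 7 * t +
      100872805756201171003051 / 177094686720000000000 * s ^ 8 =
      (1 + 1 / 10 + (1 / 10) ^ 2 / 2) * ((1 + (7 / 100 * u ^ 2) + (7 / 100 * u ^ 2) ^ 2 / 2 +
      (7 / 100 * u ^ 2) ^ 3 / 6) *
      (1 + u + 79 / 200 * u ^ 2)) -
      (97387 / 50000 * (1 + (u - 2 / 3) / 8) ^ 8) := by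
    rw [hs, ht]
    ring
  rw [e] at h
  linarith

theorem ev_eight_e45_g3 (u : ℝ) (h1 : 29 / 12 ≤ u) (h2 : u ≤ 3) :
    97387 / 50000 * (1 + (u - 2 / 3) / 8) ^ 8 ≤
      (1 + 1 / 10 + (1 / 10) ^ 2 / 2) * ((1 + (7 / 100 * u ^ 2) + (7 / 100 * u ^ 2) ^ 2 / 2 +
      (7 / 100 * u ^ 2) ^ 3 / 6) *
      (1 + u + 79 / 200 * u ^ 2)) := by
  obtain ⟨s, hs⟩ : ∃ s, s = u - (29 / 12) := ⟨_, rfl⟩
  obtain ⟨t, ht⟩ : ∃ t, t = 3 - u := ⟨_, rfl⟩
  have hs0 : 0 ≤ s := by linarith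
  have ht0 : 0 ≤ t := by linarith
  have h : 0 ≤
      100872805756201171003051 / 45336239800320000000000 * t ^ 8 +
      13508425249074657715307 / 472252497920000000000 * s * t ^ 7 +
      5215743115244536493697 / 33732321280000000000 * s ^ 2 * t ^ 6 +
      1935222968049727205187 / 4216540160000000000 * s ^ 3 * t ^ 5 +
      693580463915469504777 / 843308032000000000 * s ^ 4 * t ^ 4 +
      241474721679390133467 / 263533760000000000 * s ^ 5 * t ^ 3 +
      82071818931182818257 / 131766880000000000 * s ^ 6 * t ^ 2 +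
      27340824669567972147 / 115296020000000000 * s ^ 7 * t +
      8956302561843794137 / 230592040000000000 * s ^ 8 := by
    positivity
  have e :
      100872805756201171003051 / 45336239800320000000000 * t ^ 8 +
      13508425249074657715307 / 472252497920000000000 * s * t ^ 7 +
      5215743115244536493697 / 33732321280000000000 * s ^ 2 * t ^ 6 +
      1935222968049727205187 / 4216540160000000000 * s ^ 3 * t ^ 5 +
      693580463915469504777 / 843308032000000000 * s ^ 4 * t ^ 4 +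
      241474721679390133467 / 263533760000000000 * s ^ 5 * t ^ 3 +
      82071818931182818257 / 131766880000000000 * s ^ 6 * t ^ 2 +
      27340824669567972147 / 115296020000000000 * s ^ 7 * t +
      8956302561843794137 / 230592040000000000 * s ^ 8 =
      (1 + 1 / 10 + (1 / 10) ^ 2 / 2) * ((1 + (7 / 100 * u ^ 2) + (7 / 100 * u ^ 2) ^ 2 / 2 +
      (7 / 100 * u ^ 2) ^ 3 / 6) *
      (1 + u + 79 / 200 * u ^ 2)) -
      (97387 / 50000 * (1 + (u - 2 / 3) / 8) ^ 8) := by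
    rw [hs, ht]
    ring
  rw [e] at h
  linarith

theorem ev_eight_e45_t (u : ℝ) (h1 : 3 ≤ u) :
    97387 / 50000 * (1 + (u - 2 / 3) / 8) ^ 8 ≤
      (1 + 1 / 10 + (1 / 10) ^ 2 / 2) * ((1 + (7 / 100 * u ^ 2) + (7 / 100 * u ^ 2) ^ 2 / 2 +
      (7 / 100 * u ^ 2) ^ 3 / 6) *
      (1 + u + 79 / 200 * u ^ 2)) := by
  obtain ⟨s, hs⟩ : ∃ s, s = u - (3) := ⟨_, rfl⟩
  have hs0 : 0 ≤ s := by linarith
  have h : 0 ≤
      8956302561843794137 / 17199267840000000000 +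
      1212055082543886343 / 716636160000000000 * s +
      949437509162821039 / 477757440000000000 * s ^ 2 +
      86344598235588721 / 79626240000000000 * s ^ 3 +
      7119168692094319 / 21233664000000000 * s ^ 4 +
      580259806449841 / 8847360000000000 * s ^ 5 +
      49544319210799 / 5898240000000000 * s ^ 6 + 641350762823 / 983040000000000 * s ^ 7 +
      195316100491 / 7864320000000000 * s ^ 8 := by
    positivity
  have e :
      8956302561843794137 / 17199267840000000000 +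
      1212055082543886343 / 716636160000000000 * s +
      949437509162821039 / 477757440000000000 * s ^ 2 +
      86344598235588721 / 79626240000000000 * s ^ 3 +
      7119168692094319 / 21233664000000000 * s ^ 4 +
      580259806449841 / 8847360000000000 * s ^ 5 +
      49544319210799 / 5898240000000000 * s ^ 6 + 641350762823 / 983040000000000 * s ^ 7 +
      195316100491 / 7864320000000000 * s ^ 8 =
      (1 + 1 / 10 + (1 / 10) ^ 2 / 2) * ((1 + (7 / 100 * u ^ 2) + (7 / 100 * u ^ 2) ^ 2 / 2 +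
      (7 / 100 * u ^ 2) ^ 3 / 6) *
      (1 + u + 79 / 200 * u ^ 2)) -
      (97387 / 50000 * (1 + (u - 2 / 3) / 8) ^ 8) := by
    rw [hs]
    ring
  rw [e] at h
  linarith

/-- `K = 8`: `(c, μ, P, δ) = (79 / 200, 7 / 100, 2 / 3, 1 / 10)` -/
theorem expFd_eight_e45 : ExpFd 8 (79 / 200) (7 / 100) (2 / 3) (1 / 10) := by
  have hde : (1 + 1 / 10 + (1 / 10) ^ 2 / 2) ≤ Real.exp (1 / 10) :=
    Real.quadratic_le_exp_of_nonneg (by norm_num)
  have hq : ∀ u : ℝ, 0 ≤ 1 + u + 79 / 200 * u ^ 2 := fun u => by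
    nlinarith [sq_nonneg (u + 2), sq_nonneg u]
  have hR : ∀ (u x y : ℝ), x ≤ y →
      y ≤ (1 + 1 / 10 + (1 / 10) ^ 2 / 2) * (1 + u + 79 / 200 * u ^ 2) →
      x ≤ Real.exp (1 / 10) * (1 + u + 79 / 200 * u ^ 2) := fun u x y h1 h2 =>
    (h1.trans h2).trans (mul_le_mul_of_nonneg_right hde (hq u))
  refine ExpFd.of (by norm_num) (by norm_num) (by norm_num) (by norm_num) (by norm_num) ?_ ?_ ?_
  · intro u h1
    rcases le_total u (-3) with h3 | h3
    · exact hR u _ _ (ev_exp_n3 h3) (ev_eight_e45_d u h3)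
    rcases le_total u (-2) with h4 | h4
    · refine hR u _ _ (ev_exp_n2 h4) ?_
      exact ev_eight_e45_c0 u (by linarith) (by linarith)
    rcases le_total u (-1) with h5 | h5
    · refine hR u _ _ (ev_exp_n1 h5) ?_
      exact ev_eight_e45_b0 u (by linarith) (by linarith)
    refine hR u _ _ (ev_exp_n0 h1) ?_
    exact ev_eight_e45_a0 u (by linarith) (by linarith)
  · intro u h1 h2
    have h5 := mul_le_mul_of_nonneg_right (Real.add_one_le_exp (7 / 100 * u ^ 2)) (hq u)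
    rw [add_comm (7 / 100 * u ^ 2) 1] at h5
    have h6 : 0 ≤ Real.exp (7 / 100 * u ^ 2) * (1 + u + 79 / 200 * u ^ 2) :=
      mul_nonneg (Real.exp_nonneg _) (hq u)
    rw [Real.exp_add, mul_assoc]
    refine ((ev_exp_p h1 (by linarith)).trans ?_).trans
      ((mul_le_mul_of_nonneg_left h5
        (by norm_num : (0 : ℝ) ≤ (1 + 1 / 10 + (1 / 10) ^ 2 / 2))).trans
        (mul_le_mul_of_nonneg_right hde h6))
    exact ev_eight_e45_e0 u (by linarith) (by linarith)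
  · intro u h1
    have h4 : 0 ≤ (1 + (u - 2 / 3) / 8) ^ 8 := by
      have : 0 ≤ (u - 2 / 3) / 8 := div_nonneg (by linarith) (by norm_num)
      positivity
    have hE : Real.exp (2 / 3) ≤ 97387 / 50000 := ev_up_2_3
    have hx : 0 ≤ 7 / 100 * u ^ 2 := by positivity
    have h5 := mul_le_mul_of_nonneg_right (taylor3_le_expE _ hx) (hq u)
    have h6 : 0 ≤ Real.exp (7 / 100 * u ^ 2) * (1 + u + 79 / 200 * u ^ 2) :=
      mul_nonneg (Real.exp_nonneg _) (hq u)
    rw [Real.exp_add, mul_assoc]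
    push_cast
    refine ((mul_le_mul_of_nonneg_right hE h4).trans ?_).trans
      ((mul_le_mul_of_nonneg_left h5
        (by norm_num : (0 : ℝ) ≤ (1 + 1 / 10 + (1 / 10) ^ 2 / 2))).trans
        (mul_le_mul_of_nonneg_right hde h6))
    rcases le_total u (11 / 6) with hh | hh
    · exact ev_eight_e45_g0 u (by linarith) (by linarith)
    rcases le_total u (17 / 8) with hh | hh
    · exact ev_eight_e45_g1 u (by linarith) (by linarith)
    rcases le_total u (29 / 12) with hh | hh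
    · exact ev_eight_e45_g2 u (by linarith) (by linarith)
    rcases le_total u (3) with hh | hh
    · exact ev_eight_e45_g3 u (by linarith) (by linarith)
    exact ev_eight_e45_t u (by linarith)

end

end Pool.Agent.TSM
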