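import Pool.Agent.TSM.EvenDB

set_option autoImplicit false

/-!
# Constants of the even rule with a constant, any K (MP_d27362_co, helper2)
-/

namespace Pool.Agent.TSM

noncomputable section


theorem ee_a_a0 (u : ℝ) (h1 : -1 ≤ u) (h2 : u ≤ -1 / 2) :
    1 + u + u ^ 2 / 2 + u ^ 3 / 6 + u ^ 4 / 24 ≤
      (1 + 1 / 500 + (1 / 500) ^ 2 / 2) * (1 + u + 487 / 1000 * u ^ 2) := by
  obtain ⟨s, hs⟩ : ∃ s, s = u - (-1) := ⟨_, rfl⟩
  obtain ⟨t, ht⟩ : ∃ t, t = -1 / 2 - u := ⟨_, rfl⟩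
  have hs0 : 0 ≤ s := by linarith
  have ht0 : 0 ≤ t := by linarith
  have h : 0 ≤
      56487487 / 31250000 * t ^ 4 + 447388883 / 93750000 * s * t ^ 3 +
      552843331 / 125000000 * s ^ 2 * t ^ 2 + 109965461 / 62500000 * s ^ 3 * t +
      97343461 / 375000000 * s ^ 4 := by
    positivity
  have e :
      56487487 / 31250000 * t ^ 4 + 447388883 / 93750000 * s * t ^ 3 +
      552843331 / 125000000 * s ^ 2 * t ^ 2 + 109965461 / 62500000 * s ^ 3 * t +
      97343461 / 375000000 * s ^ 4 =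
      (1 + 1 / 500 + (1 / 500) ^ 2 / 2) * (1 + u + 487 / 1000 * u ^ 2) -
      (1 + u + u ^ 2 / 2 + u ^ 3 / 6 + u ^ 4 / 24) := by
    rw [hs, ht]
    ring
  rw [e] at h
  linarith

theorem ee_a_a1 (u : ℝ) (h1 : -1 / 2 ≤ u) (h2 : u ≤ 0) :
    1 + u + u ^ 2 / 2 + u ^ 3 / 6 + u ^ 4 / 24 ≤
      (1 + 1 / 500 + (1 / 500) ^ 2 / 2) * (1 + u + 487 / 1000 * u ^ 2) := by
  obtain ⟨s, hs⟩ : ∃ s, s = u - (-1 / 2) := ⟨_, rfl⟩
  obtain ⟨t, ht⟩ : ∃ t, t = 0 - u := ⟨_, rfl⟩
  have hs0 : 0 ≤ s := by linarith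
  have ht0 : 0 ≤ t := by linarith
  have h : 0 ≤
      97343461 / 375000000 * t ^ 4 + 59477461 / 187500000 * s * t ^ 3 +
      12005487 / 125000000 * s ^ 2 * t ^ 2 + 7007 / 62500 * s ^ 3 * t + 1001 / 31250 * s ^ 4 := by
    positivity
  have e :
      97343461 / 375000000 * t ^ 4 + 59477461 / 187500000 * s * t ^ 3 +
      12005487 / 125000000 * s ^ 2 * t ^ 2 + 7007 / 62500 * s ^ 3 * t + 1001 / 31250 * s ^ 4 =
      (1 + 1 / 500 + (1 / 500) ^ 2 / 2) * (1 + u + 487 / 1000 * u ^ 2) -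
      (1 + u + u ^ 2 / 2 + u ^ 3 / 6 + u ^ 4 / 24) := by
    rw [hs, ht]
    ring
  rw [e] at h
  linarith

theorem ee_a_b0 (u : ℝ) (h1 : -2 ≤ u) (h2 : u ≤ -1) :
    36788 / 100000 *
      (1 + (u + 1) + (u + 1) ^ 2 / 2 + (u + 1) ^ 3 / 6 + (u + 1) ^ 4 / 24) ≤
      (1 + 1 / 500 + (1 / 500) ^ 2 / 2) * (1 + u + 487 / 1000 * u ^ 2) := by
  obtain ⟨s, hs⟩ : ∃ s, s = u - (-2) := ⟨_, rfl⟩
  obtain ⟨t, ht⟩ : ∃ t, t = -1 - u := ⟨_, rfl⟩
  have hs0 : 0 ≤ s := by linarith
  have ht0 : 0 ≤ t := by linarith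
  have h : 0 ≤
      50746431 / 62500000 * t ^ 4 + 815717633 / 375000000 * s * t ^ 3 +
      1025044331 / 500000000 * s ^ 2 * t ^ 2 + 205551961 / 250000000 * s ^ 3 * t +
      60047487 / 500000000 * s ^ 4 := by
    positivity
  have e :
      50746431 / 62500000 * t ^ 4 + 815717633 / 375000000 * s * t ^ 3 +
      1025044331 / 500000000 * s ^ 2 * t ^ 2 + 205551961 / 250000000 * s ^ 3 * t +
      60047487 / 500000000 * s ^ 4 =
      (1 + 1 / 500 + (1 / 500) ^ 2 / 2) * (1 + u + 487 / 1000 * u ^ 2) -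
      (36788 / 100000 *
      (1 + (u + 1) + (u + 1) ^ 2 / 2 + (u + 1) ^ 3 / 6 + (u + 1) ^ 4 / 24)) := by
    rw [hs, ht]
    ring
  rw [e] at h
  linarith

theorem ee_a_c0 (u : ℝ) (h1 : -3 ≤ u) (h2 : u ≤ -2) :
    13534 / 100000 *
      (1 + (u + 2) + (u + 2) ^ 2 / 2 + (u + 2) ^ 3 / 6 + (u + 2) ^ 4 / 24) ≤
      (1 + 1 / 500 + (1 / 500) ^ 2 / 2) * (1 + u + 487 / 1000 * u ^ 2) := by
  obtain ⟨s, hs⟩ : ∃ s, s = u - (-3) := ⟨_, rfl⟩
  obtain ⟨t, ht⟩ : ∃ t, t = -2 - u := ⟨_, rfl⟩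
  have hs0 : 0 ≤ s := by linarith
  have ht0 : 0 ≤ t := by linarith
  have h : 0 ≤
      1168509133 / 500000000 * t ^ 4 + 1106566783 / 150000000 * s * t ^ 3 +
      4281683019 / 500000000 * s ^ 2 * t ^ 2 + 108586737 / 25000000 * s ^ 3 * t +
      101819737 / 125000000 * s ^ 4 := by
    positivity
  have e :
      1168509133 / 500000000 * t ^ 4 + 1106566783 / 150000000 * s * t ^ 3 +
      4281683019 / 500000000 * s ^ 2 * t ^ 2 + 108586737 / 25000000 * s ^ 3 * t +
      101819737 / 125000000 * s ^ 4 =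
      (1 + 1 / 500 + (1 / 500) ^ 2 / 2) * (1 + u + 487 / 1000 * u ^ 2) -
      (13534 / 100000 *
      (1 + (u + 2) + (u + 2) ^ 2 / 2 + (u + 2) ^ 3 / 6 + (u + 2) ^ 4 / 24)) := by
    rw [hs, ht]
    ring
  rw [e] at h
  linarith

theorem ee_a_d (u : ℝ) (h2 : u ≤ -3) :
    4979 / 100000 ≤
      (1 + 1 / 500 + (1 / 500) ^ 2 / 2) * (1 + u + 487 / 1000 * u ^ 2) := by
  obtain ⟨s, hs⟩ : ∃ s, s = -3 - u := ⟨_, rfl⟩
  have hs0 : 0 ≤ s := by linarith
  have h : 0 ≤
      1168990383 / 500000000 + 481461961 / 250000000 * s + 243987487 / 500000000 * s ^ 2 := by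
    positivity
  have e :
      1168990383 / 500000000 + 481461961 / 250000000 * s + 243987487 / 500000000 * s ^ 2 =
      (1 + 1 / 500 + (1 / 500) ^ 2 / 2) * (1 + u + 487 / 1000 * u ^ 2) -
      (4979 / 100000) := by
    rw [hs]
    ring
  rw [e] at h
  linarith

theorem ee_a_g0_0 (u : ℝ) (h1 : 0 ≤ u) (h2 : u ≤ 11 / 10) :
    1 * (1 + (u - 1 / 10 * u ^ 2 - 0) +
      (u - 1 / 10 * u ^ 2 - 0) ^ 2 / 2 +
      (u - 1 / 10 * u ^ 2 - 0) ^ 3 / 6 +
      (u - 1 / 10 * u ^ 2 - 0) ^ 4 / 24 +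
      (u - 1 / 10 * u ^ 2 - 0) ^ 5 / 100) ≤
      (1 + 1 / 500 + (1 / 500) ^ 2 / 2) * (1 + u + 487 / 1000 * u ^ 2) := by
  obtain ⟨s, hs⟩ : ∃ s, s = u - (0) := ⟨_, rfl⟩
  obtain ⟨t, ht⟩ : ∃ t, t = 11 / 10 - u := ⟨_, rfl⟩
  have hs0 : 0 ≤ s := by linarith
  have ht0 : 0 ≤ t := by linarith
  have h : 0 ≤
      1820000 / 2357947691 * t ^ 10 + 20202000 / 2357947691 * s * t ^ 9 +
      983452357 / 11789738455 * s ^ 2 * t ^ 8 + 14759776568 / 35369215365 * s ^ 3 * t ^ 7 +
      13498835996 / 11789738455 * s ^ 4 * t ^ 6 + 66978158476 / 35369215365 * s ^ 5 * t ^ 5 +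
      14004711574 / 7073843073 * s ^ 6 * t ^ 4 + 93339916127 / 70738430730 * s ^ 7 * t ^ 3 +
      3076989301013 / 5659074458400 * s ^ 8 * t ^ 2 +
      17859875692007 / 141476861460000 * s ^ 9 * t +
      893979014184073 / 70738430730000000 * s ^ 10 := by
    positivity
  have e :
      1820000 / 2357947691 * t ^ 10 + 20202000 / 2357947691 * s * t ^ 9 +
      983452357 / 11789738455 * s ^ 2 * t ^ 8 + 14759776568 / 35369215365 * s ^ 3 * t ^ 7 +
      13498835996 / 11789738455 * s ^ 4 * t ^ 6 + 66978158476 / 35369215365 * s ^ 5 * t ^ 5 +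
      14004711574 / 7073843073 * s ^ 6 * t ^ 4 + 93339916127 / 70738430730 * s ^ 7 * t ^ 3 +
      3076989301013 / 5659074458400 * s ^ 8 * t ^ 2 +
      17859875692007 / 141476861460000 * s ^ 9 * t +
      893979014184073 / 70738430730000000 * s ^ 10 =
      (1 + 1 / 500 + (1 / 500) ^ 2 / 2) * (1 + u + 487 / 1000 * u ^ 2) -
      (1 * (1 + (u - 1 / 10 * u ^ 2 - 0) +
      (u - 1 / 10 * u ^ 2 - 0) ^ 2 / 2 +
      (u - 1 / 10 * u ^ 2 - 0) ^ 3 / 6 +
      (u - 1 / 10 * u ^ 2 - 0) ^ 4 / 24 +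
      (u - 1 / 10 * u ^ 2 - 0) ^ 5 / 100)) := by
    rw [hs, ht]
    ring
  rw [e] at h
  linarith

theorem ee_a_g1_0 (u : ℝ) (h1 : 11 / 10 ≤ u) (h2 : u ≤ 19 / 10) :
    66547 / 25000 * (1 + (u - 1 / 10 * u ^ 2 - 979 / 1000) +
      (u - 1 / 10 * u ^ 2 - 979 / 1000) ^ 2 / 2 +
      (u - 1 / 10 * u ^ 2 - 979 / 1000) ^ 3 / 6 +
      (u - 1 / 10 * u ^ 2 - 979 / 1000) ^ 4 / 24 +
      (u - 1 / 10 * u ^ 2 - 979 / 1000) ^ 5 / 100) ≤
      (1 + 1 / 500 + (1 / 500) ^ 2 / 2) * (1 + u + 487 / 1000 * u ^ 2) := by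
  obtain ⟨s, hs⟩ : ∃ s, s = u - (11 / 10) := ⟨_, rfl⟩
  obtain ⟨t, ht⟩ : ∃ t, t = 19 / 10 - u := ⟨_, rfl⟩
  have hs0 : 0 ≤ s := by linarith
  have ht0 : 0 ≤ t := by linarith
  have h : 0 ≤
      1638695927 / 5368709120 * t ^ 10 + 8179090491 / 2684354560 * s * t ^ 9 +
      71703722619 / 5368709120 * s ^ 2 * t ^ 8 +
      2832880678941 / 83886080000 * s ^ 3 * t ^ 7 +
      2280721573442023 / 41943040000000 * s ^ 4 * t ^ 6 +
      3802252276563389757 / 65536000000000000 * s ^ 5 * t ^ 5 +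
      649896175793611921 / 15728640000000000 * s ^ 6 * t ^ 4 +
      15156666881451299 / 786432000000000 * s ^ 7 * t ^ 3 +
      7050627409202221 / 1258291200000000 * s ^ 8 * t ^ 2 +
      115684257426937 / 125829120000000 * s ^ 9 * t + 5620963910079 / 83886080000000 * s ^ 10 := by
    positivity
  have e :
      1638695927 / 5368709120 * t ^ 10 + 8179090491 / 2684354560 * s * t ^ 9 +
      71703722619 / 5368709120 * s ^ 2 * t ^ 8 +
      2832880678941 / 83886080000 * s ^ 3 * t ^ 7 +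
      2280721573442023 / 41943040000000 * s ^ 4 * t ^ 6 +
      3802252276563389757 / 65536000000000000 * s ^ 5 * t ^ 5 +
      649896175793611921 / 15728640000000000 * s ^ 6 * t ^ 4 +
      15156666881451299 / 786432000000000 * s ^ 7 * t ^ 3 +
      7050627409202221 / 1258291200000000 * s ^ 8 * t ^ 2 +
      115684257426937 / 125829120000000 * s ^ 9 * t + 5620963910079 / 83886080000000 * s ^ 10 =
      (1 + 1 / 500 + (1 / 500) ^ 2 / 2) * (1 + u + 487 / 1000 * u ^ 2) -
      (66547 / 25000 * (1 + (u - 1 / 10 * u ^ 2 - 979 / 1000) +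
      (u - 1 / 10 * u ^ 2 - 979 / 1000) ^ 2 / 2 +
      (u - 1 / 10 * u ^ 2 - 979 / 1000) ^ 3 / 6 +
      (u - 1 / 10 * u ^ 2 - 979 / 1000) ^ 4 / 24 +
      (u - 1 / 10 * u ^ 2 - 979 / 1000) ^ 5 / 100)) := by
    rw [hs, ht]
    ring
  rw [e] at h
  linarith

theorem ee_a_g1_1 (u : ℝ) (h1 : 19 / 10 ≤ u) (h2 : u ≤ 27 / 10) :
    66547 / 25000 * (1 + (u - 1 / 10 * u ^ 2 - 979 / 1000) +
      (u - 1 / 10 * u ^ 2 - 979 / 1000) ^ 2 / 2 +
      (u - 1 / 10 * u ^ 2 - 979 / 1000) ^ 3 / 6 +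
      (u - 1 / 10 * u ^ 2 - 979 / 1000) ^ 4 / 24 +
      (u - 1 / 10 * u ^ 2 - 979 / 1000) ^ 5 / 100) ≤
      (1 + 1 / 500 + (1 / 500) ^ 2 / 2) * (1 + u + 487 / 1000 * u ^ 2) := by
  obtain ⟨s, hs⟩ : ∃ s, s = u - (19 / 10) := ⟨_, rfl⟩
  obtain ⟨t, ht⟩ : ∃ t, t = 27 / 10 - u := ⟨_, rfl⟩
  have hs0 : 0 ≤ s := by linarith
  have ht0 : 0 ≤ t := by linarith
  have h : 0 ≤
      5620963910079 / 83886080000000 * t ^ 10 +
      52944659875433 / 125829120000000 * s * t ^ 9 +
      1404063629566861 / 1258291200000000 * s ^ 2 * t ^ 8 +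
      1822450717038611 / 786432000000000 * s ^ 3 * t ^ 7 +
      100637461357419601 / 15728640000000000 * s ^ 4 * t ^ 6 +
      3162390678671359879 / 196608000000000000 * s ^ 5 * t ^ 5 +
      2075240884159950341 / 78643200000000000 * s ^ 6 * t ^ 4 +
      525882286243818491 / 19660800000000000 * s ^ 7 * t ^ 3 +
      2570122247589311081 / 157286400000000000 * s ^ 8 * t ^ 2 +
      436039159209541913 / 78643200000000000 * s ^ 9 * t +
      211157118193036379 / 262144000000000000 * s ^ 10 := by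
    positivity
  have e :
      5620963910079 / 83886080000000 * t ^ 10 +
      52944659875433 / 125829120000000 * s * t ^ 9 +
      1404063629566861 / 1258291200000000 * s ^ 2 * t ^ 8 +
      1822450717038611 / 786432000000000 * s ^ 3 * t ^ 7 +
      100637461357419601 / 15728640000000000 * s ^ 4 * t ^ 6 +
      3162390678671359879 / 196608000000000000 * s ^ 5 * t ^ 5 +
      2075240884159950341 / 78643200000000000 * s ^ 6 * t ^ 4 +
      525882286243818491 / 19660800000000000 * s ^ 7 * t ^ 3 +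
      2570122247589311081 / 157286400000000000 * s ^ 8 * t ^ 2 +
      436039159209541913 / 78643200000000000 * s ^ 9 * t +
      211157118193036379 / 262144000000000000 * s ^ 10 =
      (1 + 1 / 500 + (1 / 500) ^ 2 / 2) * (1 + u + 487 / 1000 * u ^ 2) -
      (66547 / 25000 * (1 + (u - 1 / 10 * u ^ 2 - 979 / 1000) +
      (u - 1 / 10 * u ^ 2 - 979 / 1000) ^ 2 / 2 +
      (u - 1 / 10 * u ^ 2 - 979 / 1000) ^ 3 / 6 +
      (u - 1 / 10 * u ^ 2 - 979 / 1000) ^ 4 / 24 +
      (u - 1 / 10 * u ^ 2 - 979 / 1000) ^ 5 / 100)) := by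
    rw [hs, ht]
    ring
  rw [e] at h
  linarith

theorem ee_a_g2_0 (u : ℝ) (h1 : 27 / 10 ≤ u) (h2 : u ≤ 5) :
    358913 / 50000 * (1 + (u - 1 / 10 * u ^ 2 - 1971 / 1000) +
      (u - 1 / 10 * u ^ 2 - 1971 / 1000) ^ 2 / 2 +
      (u - 1 / 10 * u ^ 2 - 1971 / 1000) ^ 3 / 6 +
      (u - 1 / 10 * u ^ 2 - 1971 / 1000) ^ 4 / 24 +
      (u - 1 / 10 * u ^ 2 - 1971 / 1000) ^ 5 / 100) ≤
      (1 + 1 / 500 + (1 / 500) ^ 2 / 2) * (1 + u + 487 / 1000 * u ^ 2) := by
  obtain ⟨s, hs⟩ : ∃ s, s = u - (27 / 10) := ⟨_, rfl⟩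
  obtain ⟨t, ht⟩ : ∃ t, t = 5 - u := ⟨_, rfl⟩
  have hs0 : 0 ≤ s := by linarith
  have ht0 : 0 ≤ t := by linarith
  have h : 0 ≤
      4324248023 / 207132556068245 * t ^ 10 + 81775215084 / 207132556068245 * s * t ^ 9 +
      659442986678 / 207132556068245 * s ^ 2 * t ^ 8 +
      2235435289090843 / 155349417051183750 * s ^ 3 * t ^ 7 +
      4198995944978621149 / 103566278034122500000 * s ^ 4 * t ^ 6 +
      145220528861911753589389 / 1941867713139796875000000 * s ^ 5 * t ^ 5 +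
      71357261739153638428139 / 776747085255918750000000 * s ^ 6 * t ^ 4 +
      57855421724200712935639 / 776747085255918750000000 * s ^ 7 * t ^ 3 +
      118899225555511580033153 / 3106988341023675000000000 * s ^ 8 * t ^ 2 +
      70127031547107482376889 / 6213976682047350000000000 * s ^ 9 * t +
      90419075050107482376889 / 62139766820473500000000000 * s ^ 10 := by
    positivity
  have e :
      4324248023 / 207132556068245 * t ^ 10 + 81775215084 / 207132556068245 * s * t ^ 9 +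
      659442986678 / 207132556068245 * s ^ 2 * t ^ 8 +
      2235435289090843 / 155349417051183750 * s ^ 3 * t ^ 7 +
      4198995944978621149 / 103566278034122500000 * s ^ 4 * t ^ 6 +
      145220528861911753589389 / 1941867713139796875000000 * s ^ 5 * t ^ 5 +
      71357261739153638428139 / 776747085255918750000000 * s ^ 6 * t ^ 4 +
      57855421724200712935639 / 776747085255918750000000 * s ^ 7 * t ^ 3 +
      118899225555511580033153 / 3106988341023675000000000 * s ^ 8 * t ^ 2 +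
      70127031547107482376889 / 6213976682047350000000000 * s ^ 9 * t +
      90419075050107482376889 / 62139766820473500000000000 * s ^ 10 =
      (1 + 1 / 500 + (1 / 500) ^ 2 / 2) * (1 + u + 487 / 1000 * u ^ 2) -
      (358913 / 50000 * (1 + (u - 1 / 10 * u ^ 2 - 1971 / 1000) +
      (u - 1 / 10 * u ^ 2 - 1971 / 1000) ^ 2 / 2 +
      (u - 1 / 10 * u ^ 2 - 1971 / 1000) ^ 3 / 6 +
      (u - 1 / 10 * u ^ 2 - 1971 / 1000) ^ 4 / 24 +
      (u - 1 / 10 * u ^ 2 - 1971 / 1000) ^ 5 / 100)) := by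
    rw [hs, ht]
    ring
  rw [e] at h
  linarith

/-- Rule E: `(c, μ, δ) = (487 / 1000, 1 / 10, 1 / 500)` -/
theorem expEd_a : ExpEd (487 / 1000) (1 / 10) (1 / 500) := by
  have hde : (1 + 1 / 500 + (1 / 500) ^ 2 / 2) ≤ Real.exp (1 / 500) :=
    Real.quadratic_le_exp_of_nonneg (by norm_num)
  have hq : ∀ u : ℝ, 0 ≤ 1 + u + 487 / 1000 * u ^ 2 := fun u => by
    nlinarith [sq_nonneg (u + 2), sq_nonneg u]
  have hR : ∀ (u x y : ℝ), x ≤ y →
      y ≤ (1 + 1 / 500 + (1 / 500) ^ 2 / 2) * (1 + u + 487 / 1000 * u ^ 2) →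
      x ≤ Real.exp (1 / 500) * (1 + u + 487 / 1000 * u ^ 2) := fun u x y h1 h2 =>
    (h1.trans h2).trans (mul_le_mul_of_nonneg_right hde (hq u))
  have hE1 : Real.exp (979 / 1000) ≤ 66547 / 25000 := by
    have e : Real.exp (979 / 1000) = Real.exp (0) * Real.exp (979 / 1000) := by
      rw [← Real.exp_add]
      norm_num
    have h := ev_exp_p (u := 979 / 1000) (by norm_num) (by norm_num)
    have h2 := Real.exp_zero.le
    rw [e]
    refine (mul_le_mul h2 h (Real.exp_nonneg _) (by norm_num)).trans ?_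
    norm_num
  have hE2 : Real.exp (1971 / 1000) ≤ 358913 / 50000 := by
    have e : Real.exp (1971 / 1000) = Real.exp (979 / 1000) * Real.exp (124 / 125) := by
      rw [← Real.exp_add]
      norm_num
    have h := ev_exp_p (u := 124 / 125) (by norm_num) (by norm_num)
    have h2 := hE1
    rw [e]
    refine (mul_le_mul h2 h (Real.exp_nonneg _) (by norm_num)).trans ?_
    norm_num
  have hE3 : Real.exp (5 / 2) ≤ 243669 / 20000 := by
    have e : Real.exp (5 / 2) = Real.exp (1971 / 1000) * Real.exp (529 / 1000) := by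
      rw [← Real.exp_add]
      norm_num
    have h := ev_exp_p (u := 529 / 1000) (by norm_num) (by norm_num)
    have h2 := hE2
    rw [e]
    refine (mul_le_mul h2 h (Real.exp_nonneg _) (by norm_num)).trans ?_
    norm_num
  have hEm : Real.exp (5 / 2) ≤ 24367 / 2000 := by
    have e : Real.exp (5 / 2) = Real.exp (5 / 2) * Real.exp (0) := by
      rw [← Real.exp_add]
      norm_num
    have h := ev_exp_p (u := 0) (by norm_num) (by norm_num)
    rw [e]
    refine (mul_le_mul hE3 h (Real.exp_nonneg _) (by norm_num)).trans ?_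
    norm_num
  refine ExpEd.of (by norm_num) (by norm_num) (by norm_num) ?_ ?_
  · intro u h1
    rcases le_total u (-3) with h3 | h3
    · exact hR u _ _ (ev_exp_n3 h3) (ee_a_d u h3)
    rcases le_total u (-2) with h4 | h4
    · refine hR u _ _ (ev_exp_n2 h4) ?_
      exact ee_a_c0 u (by linarith) (by linarith)
    rcases le_total u (-1) with h5 | h5
    · refine hR u _ _ (ev_exp_n1 h5) ?_
      exact ee_a_b0 u (by linarith) (by linarith)
    refine hR u _ _ (ev_exp_n0 h1) ?_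
    rcases le_total u (-1 / 2) with hh | hh
    · exact ee_a_a0 u (by linarith) (by linarith)
    exact ee_a_a1 u (by linarith) (by linarith)
  · intro u h1
    rcases le_total u (11 / 10) with k1 | k1
    · have hy0 : 0 ≤ (u - 1 / 10 * u ^ 2 - 0) := by
        nlinarith [mul_nonneg (sub_nonneg.2 h1)
          (show 0 ≤ 1 -
            1 / 10 * (u + 0) by linarith)]
      have hy1 : (u - 1 / 10 * u ^ 2 - 0) ≤ 1 := by
        nlinarith [mul_nonneg (sub_nonneg.2 k1)
          (show 0 ≤ 1 - 1 / 10 * (u + 11 / 10) by linarith)]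
      refine hR u _ _
        (exp_split (x := 0) Real.exp_zero.le hy0 hy1) ?_
      exact ee_a_g0_0 u (by linarith) (by linarith)
    rcases le_total u (27 / 10) with k2 | k2
    · have hy0 : 0 ≤ (u - 1 / 10 * u ^ 2 - 979 / 1000) := by
        nlinarith [mul_nonneg (sub_nonneg.2 k1)
          (show 0 ≤ 1 -
            1 / 10 * (u + 11 / 10) by linarith)]
      have hy1 : (u - 1 / 10 * u ^ 2 - 979 / 1000) ≤ 1 := by
        nlinarith [mul_nonneg (sub_nonneg.2 k2)
          (show 0 ≤ 1 - 1 / 10 * (u + 27 / 10) by linarith)]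
      refine hR u _ _
        (exp_split (x := 979 / 1000) hE1 hy0 hy1) ?_
      rcases le_total u (19 / 10) with hh | hh
      · exact ee_a_g1_0 u (by linarith) (by linarith)
      exact ee_a_g1_1 u (by linarith) (by linarith)
    rcases le_total u (5) with k3 | k3
    · have hy0 : 0 ≤ (u - 1 / 10 * u ^ 2 - 1971 / 1000) := by
        nlinarith [mul_nonneg (sub_nonneg.2 k2)
          (show 0 ≤ 1 -
            1 / 10 * (u + 27 / 10) by linarith)]
      have hy1 : (u - 1 / 10 * u ^ 2 - 1971 / 1000) ≤ 1 := by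
        nlinarith [mul_nonneg (sub_nonneg.2 k3)
          (show 0 ≤ 1 - 1 / 10 * (u + 5) by linarith)]
      refine hR u _ _
        (exp_split (x := 1971 / 1000) hE2 hy0 hy1) ?_
      exact ee_a_g2_0 u (by linarith) (by linarith)
    have h2 : u - 1 / 10 * u ^ 2 ≤ 5 / 2 := by
      nlinarith [sq_nonneg (u - 5)]
    refine ((Real.exp_le_exp.2 h2).trans hEm).trans ?_
    have h3 : 24367 / 2000 ≤ 1 + u + 487 / 1000 * u ^ 2 := by nlinarith
    have h4 : 1 ≤ Real.exp (1 / 500) := Real.one_le_exp (by norm_num)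
    nlinarith [mul_nonneg (sub_nonneg.2 h4) (hq u)]

theorem ee_b_a0 (u : ℝ) (h1 : -1 ≤ u) (h2 : u ≤ -1 / 2) :
    1 + u + u ^ 2 / 2 + u ^ 3 / 6 + u ^ 4 / 24 ≤
      (1 + 1 / 500 + (1 / 500) ^ 2 / 2) * (1 + u + 463 / 1000 * u ^ 2) := by
  obtain ⟨s, hs⟩ : ∃ s, s = u - (-1) := ⟨_, rfl⟩
  obtain ⟨t, ht⟩ : ∃ t, t = -1 / 2 - u := ⟨_, rfl⟩
  have hs0 : 0 ≤ s := by linarith
  have ht0 : 0 ≤ t := by linarith
  have h : 0 ≤
      44463463 / 31250000 * t ^ 4 + 339172667 / 93750000 * s * t ^ 3 +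
      396531019 / 125000000 * s ^ 2 * t ^ 2 + 73893389 / 62500000 * s ^ 3 * t +
      61271389 / 375000000 * s ^ 4 := by
    positivity
  have e :
      44463463 / 31250000 * t ^ 4 + 339172667 / 93750000 * s * t ^ 3 +
      396531019 / 125000000 * s ^ 2 * t ^ 2 + 73893389 / 62500000 * s ^ 3 * t +
      61271389 / 375000000 * s ^ 4 =
      (1 + 1 / 500 + (1 / 500) ^ 2 / 2) * (1 + u + 463 / 1000 * u ^ 2) -
      (1 + u + u ^ 2 / 2 + u ^ 3 / 6 + u ^ 4 / 24) := by
    rw [hs, ht]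
    ring
  rw [e] at h
  linarith

theorem ee_b_a1 (u : ℝ) (h1 : -1 / 2 ≤ u) (h2 : u ≤ -1 / 4) :
    1 + u + u ^ 2 / 2 + u ^ 3 / 6 + u ^ 4 / 24 ≤
      (1 + 1 / 500 + (1 / 500) ^ 2 / 2) * (1 + u + 463 / 1000 * u ^ 2) := by
  obtain ⟨s, hs⟩ : ∃ s, s = u - (-1 / 2) := ⟨_, rfl⟩
  obtain ⟨t, ht⟩ : ∃ t, t = -1 / 4 - u := ⟨_, rfl⟩
  have hs0 : 0 ≤ s := by linarith
  have ht0 : 0 ≤ t := by linarith
  have h : 0 ≤
      61271389 / 23437500 * t ^ 4 + 48649389 / 7812500 * s * t ^ 3 +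
      169335019 / 31250000 * s ^ 2 * t ^ 2 + 106862167 / 46875000 * s ^ 3 * t +
      13506713 / 31250000 * s ^ 4 := by
    positivity
  have e :
      61271389 / 23437500 * t ^ 4 + 48649389 / 7812500 * s * t ^ 3 +
      169335019 / 31250000 * s ^ 2 * t ^ 2 + 106862167 / 46875000 * s ^ 3 * t +
      13506713 / 31250000 * s ^ 4 =
      (1 + 1 / 500 + (1 / 500) ^ 2 / 2) * (1 + u + 463 / 1000 * u ^ 2) -
      (1 + u + u ^ 2 / 2 + u ^ 3 / 6 + u ^ 4 / 24) := by
    rw [hs, ht]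
    ring
  rw [e] at h
  linarith

theorem ee_b_a2 (u : ℝ) (h1 : -1 / 4 ≤ u) (h2 : u ≤ 0) :
    1 + u + u ^ 2 / 2 + u ^ 3 / 6 + u ^ 4 / 24 ≤
      (1 + 1 / 500 + (1 / 500) ^ 2 / 2) * (1 + u + 463 / 1000 * u ^ 2) := by
  obtain ⟨s, hs⟩ : ∃ s, s = u - (-1 / 4) := ⟨_, rfl⟩
  obtain ⟨t, ht⟩ : ∃ t, t = 0 - u := ⟨_, rfl⟩
  have hs0 : 0 ≤ s := by linarith
  have ht0 : 0 ≤ t := by linarith
  have h : 0 ≤
      13506713 / 31250000 * t ^ 4 + 55218389 / 46875000 * s * t ^ 3 +
      66047463 / 31250000 * s ^ 2 * t ^ 2 + 6006 / 3125 * s ^ 3 * t + 8008 / 15625 * s ^ 4 := by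
    positivity
  have e :
      13506713 / 31250000 * t ^ 4 + 55218389 / 46875000 * s * t ^ 3 +
      66047463 / 31250000 * s ^ 2 * t ^ 2 + 6006 / 3125 * s ^ 3 * t + 8008 / 15625 * s ^ 4 =
      (1 + 1 / 500 + (1 / 500) ^ 2 / 2) * (1 + u + 463 / 1000 * u ^ 2) -
      (1 + u + u ^ 2 / 2 + u ^ 3 / 6 + u ^ 4 / 24) := by
    rw [hs, ht]
    ring
  rw [e] at h
  linarith

theorem ee_b_b0 (u : ℝ) (h1 : -2 ≤ u) (h2 : u ≤ -1) :
    36788 / 100000 *
      (1 + (u + 1) + (u + 1) ^ 2 / 2 + (u + 1) ^ 3 / 6 + (u + 1) ^ 4 / 24) ≤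
      (1 + 1 / 500 + (1 / 500) ^ 2 / 2) * (1 + u + 463 / 1000 * u ^ 2) := by
  obtain ⟨s, hs⟩ : ∃ s, s = u - (-2) := ⟨_, rfl⟩
  obtain ⟨t, ht⟩ : ∃ t, t = -1 - u := ⟨_, rfl⟩
  have hs0 : 0 ≤ s := by linarith
  have ht0 : 0 ≤ t := by linarith
  have h : 0 ≤
      44734419 / 62500000 * t ^ 4 + 707501417 / 375000000 * s * t ^ 3 +
      868732019 / 500000000 * s ^ 2 * t ^ 2 + 169479889 / 250000000 * s ^ 3 * t +
      48023463 / 500000000 * s ^ 4 := by
    positivity
  have e :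
      44734419 / 62500000 * t ^ 4 + 707501417 / 375000000 * s * t ^ 3 +
      868732019 / 500000000 * s ^ 2 * t ^ 2 + 169479889 / 250000000 * s ^ 3 * t +
      48023463 / 500000000 * s ^ 4 =
      (1 + 1 / 500 + (1 / 500) ^ 2 / 2) * (1 + u + 463 / 1000 * u ^ 2) -
      (36788 / 100000 *
      (1 + (u + 1) + (u + 1) ^ 2 / 2 + (u + 1) ^ 3 / 6 + (u + 1) ^ 4 / 24)) := by
    rw [hs, ht]
    ring
  rw [e] at h
  linarith

theorem ee_b_c0 (u : ℝ) (h1 : -3 ≤ u) (h2 : u ≤ -2) :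
    13534 / 100000 *
      (1 + (u + 2) + (u + 2) ^ 2 / 2 + (u + 2) ^ 3 / 6 + (u + 2) ^ 4 / 24) ≤
      (1 + 1 / 500 + (1 / 500) ^ 2 / 2) * (1 + u + 463 / 1000 * u ^ 2) := by
  obtain ⟨s, hs⟩ : ∃ s, s = u - (-3) := ⟨_, rfl⟩
  obtain ⟨t, ht⟩ : ∃ t, t = -2 - u := ⟨_, rfl⟩
  have hs0 : 0 ≤ s := by linarith
  have ht0 : 0 ≤ t := by linarith
  have h : 0 ≤
      1060292917 / 500000000 * t ^ 4 + 998350567 / 150000000 * s * t ^ 3 +
      3836794131 / 500000000 * s ^ 2 * t ^ 2 + 96562713 / 25000000 * s ^ 3 * t +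
      89795713 / 125000000 * s ^ 4 := by
    positivity
  have e :
      1060292917 / 500000000 * t ^ 4 + 998350567 / 150000000 * s * t ^ 3 +
      3836794131 / 500000000 * s ^ 2 * t ^ 2 + 96562713 / 25000000 * s ^ 3 * t +
      89795713 / 125000000 * s ^ 4 =
      (1 + 1 / 500 + (1 / 500) ^ 2 / 2) * (1 + u + 463 / 1000 * u ^ 2) -
      (13534 / 100000 *
      (1 + (u + 2) + (u + 2) ^ 2 / 2 + (u + 2) ^ 3 / 6 + (u + 2) ^ 4 / 24)) := by
    rw [hs, ht]
    ring
  rw [e] at h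
  linarith

theorem ee_b_d (u : ℝ) (h2 : u ≤ -3) :
    4979 / 100000 ≤
      (1 + 1 / 500 + (1 / 500) ^ 2 / 2) * (1 + u + 463 / 1000 * u ^ 2) := by
  obtain ⟨s, hs⟩ : ∃ s, s = -3 - u := ⟨_, rfl⟩
  have hs0 : 0 ≤ s := by linarith
  have h : 0 ≤
      1060774167 / 500000000 + 445389889 / 250000000 * s + 231963463 / 500000000 * s ^ 2 := by
    positivity
  have e :
      1060774167 / 500000000 + 445389889 / 250000000 * s + 231963463 / 500000000 * s ^ 2 =
      (1 + 1 / 500 + (1 / 500) ^ 2 / 2) * (1 + u + 463 / 1000 * u ^ 2) -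
      (4979 / 100000) := by
    rw [hs]
    ring
  rw [e] at h
  linarith

theorem ee_b_g0_0 (u : ℝ) (h1 : 0 ≤ u) (h2 : u ≤ 11 / 10) :
    1 * (1 + (u - 21 / 200 * u ^ 2 - 0) +
      (u - 21 / 200 * u ^ 2 - 0) ^ 2 / 2 +
      (u - 21 / 200 * u ^ 2 - 0) ^ 3 / 6 +
      (u - 21 / 200 * u ^ 2 - 0) ^ 4 / 24 +
      (u - 21 / 200 * u ^ 2 - 0) ^ 5 / 100) ≤
      (1 + 1 / 500 + (1 / 500) ^ 2 / 2) * (1 + u + 463 / 1000 * u ^ 2) := by
  obtain ⟨s, hs⟩ : ∃ s, s = u - (0) := ⟨_, rfl⟩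
  obtain ⟨t, ht⟩ : ∃ t, t = 11 / 10 - u := ⟨_, rfl⟩
  have hs0 : 0 ≤ s := by linarith
  have ht0 : 0 ≤ t := by linarith
  have h : 0 ≤
      1820000 / 2357947691 * t ^ 10 + 20202000 / 2357947691 * s * t ^ 9 +
      878688093 / 11789738455 * s ^ 2 * t ^ 8 + 12336184232 / 35369215365 * s ^ 3 * t ^ 7 +
      21580826833 / 23579476910 * s ^ 4 * t ^ 6 + 68704854307 / 47158953820 * s ^ 5 * t ^ 5 +
      16585674417611 / 11318148916800 * s ^ 6 * t ^ 4 +
      35317108511847 / 37727163056000 * s ^ 7 * t ^ 3 +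
      110930438506234543 / 301817304448000000 * s ^ 8 * t ^ 2 +
      1827763899709974167 / 22636297833600000000 * s ^ 9 * t +
      573934834191800900791 / 75454326112000000000000 * s ^ 10 := by
    positivity
  have e :
      1820000 / 2357947691 * t ^ 10 + 20202000 / 2357947691 * s * t ^ 9 +
      878688093 / 11789738455 * s ^ 2 * t ^ 8 + 12336184232 / 35369215365 * s ^ 3 * t ^ 7 +
      21580826833 / 23579476910 * s ^ 4 * t ^ 6 + 68704854307 / 47158953820 * s ^ 5 * t ^ 5 +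
      16585674417611 / 11318148916800 * s ^ 6 * t ^ 4 +
      35317108511847 / 37727163056000 * s ^ 7 * t ^ 3 +
      110930438506234543 / 301817304448000000 * s ^ 8 * t ^ 2 +
      1827763899709974167 / 22636297833600000000 * s ^ 9 * t +
      573934834191800900791 / 75454326112000000000000 * s ^ 10 =
      (1 + 1 / 500 + (1 / 500) ^ 2 / 2) * (1 + u + 463 / 1000 * u ^ 2) -
      (1 * (1 + (u - 21 / 200 * u ^ 2 - 0) +
      (u - 21 / 200 * u ^ 2 - 0) ^ 2 / 2 +
      (u - 21 / 200 * u ^ 2 - 0) ^ 3 / 6 +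
      (u - 21 / 200 * u ^ 2 - 0) ^ 4 / 24 +
      (u - 21 / 200 * u ^ 2 - 0) ^ 5 / 100)) := by
    rw [hs, ht]
    ring
  rw [e] at h
  linarith

theorem ee_b_g1_0 (u : ℝ) (h1 : 11 / 10 ≤ u) (h2 : u ≤ 77 / 40) :
    264583 / 100000 * (1 + (u - 21 / 200 * u ^ 2 - 19459 / 20000) +
      (u - 21 / 200 * u ^ 2 - 19459 / 20000) ^ 2 / 2 +
      (u - 21 / 200 * u ^ 2 - 19459 / 20000) ^ 3 / 6 +
      (u - 21 / 200 * u ^ 2 - 19459 / 20000) ^ 4 / 24 +
      (u - 21 / 200 * u ^ 2 - 19459 / 20000) ^ 5 / 100) ≤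
      (1 + 1 / 500 + (1 / 500) ^ 2 / 2) * (1 + u + 463 / 1000 * u ^ 2) := by
  obtain ⟨s, hs⟩ : ∃ s, s = u - (11 / 10) := ⟨_, rfl⟩
  obtain ⟨t, ht⟩ : ∃ t, t = 77 / 40 - u := ⟨_, rfl⟩
  have hs0 : 0 ≤ s := by linarith
  have ht0 : 0 ≤ t := by linarith
  have h : 0 ≤
      1034198998581248 / 7657894926322245 * t ^ 10 +
      9822856939569152 / 7657894926322245 * s * t ^ 9 +
      112274004184993792 / 21271930350895125 * s ^ 2 * t ^ 8 +
      490707823177652181056 / 39884869407928359375 * s ^ 3 * t ^ 7 +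
      1776458667849229110854033 / 99712173519820898437500 * s ^ 4 * t ^ 6 +
      274511518867268225007801145441 / 16618695586636816406250000000 * s ^ 5 * t ^ 5 +
      778765154928110946784195023553 / 79769738815856718750000000000 * s ^ 6 * t ^ 4 +
      1149823599245210321992077098083 / 319078955263426875000000000000 * s ^ 7 * t ^ 3 +
      731669597592373631945413779721 / 850877214035805000000000000000 * s ^ 8 * t ^ 2 +
      21122691657657418351761923393129 / 122526318821155920000000000000000 * s ^ 9 * t +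
      139684244934883899820868215401419 / 4901052752846236800000000000000000 * s ^ 10 := by
    positivity
  have e :
      1034198998581248 / 7657894926322245 * t ^ 10 +
      9822856939569152 / 7657894926322245 * s * t ^ 9 +
      112274004184993792 / 21271930350895125 * s ^ 2 * t ^ 8 +
      490707823177652181056 / 39884869407928359375 * s ^ 3 * t ^ 7 +
      1776458667849229110854033 / 99712173519820898437500 * s ^ 4 * t ^ 6 +
      274511518867268225007801145441 / 16618695586636816406250000000 * s ^ 5 * t ^ 5 +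
      778765154928110946784195023553 / 79769738815856718750000000000 * s ^ 6 * t ^ 4 +
      1149823599245210321992077098083 / 319078955263426875000000000000 * s ^ 7 * t ^ 3 +
      731669597592373631945413779721 / 850877214035805000000000000000 * s ^ 8 * t ^ 2 +
      21122691657657418351761923393129 / 122526318821155920000000000000000 * s ^ 9 * t +
      139684244934883899820868215401419 / 4901052752846236800000000000000000 * s ^ 10 =
      (1 + 1 / 500 + (1 / 500) ^ 2 / 2) * (1 + u + 463 / 1000 * u ^ 2) -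
      (264583 / 100000 * (1 + (u - 21 / 200 * u ^ 2 - 19459 / 20000) +
      (u - 21 / 200 * u ^ 2 - 19459 / 20000) ^ 2 / 2 +
      (u - 21 / 200 * u ^ 2 - 19459 / 20000) ^ 3 / 6 +
      (u - 21 / 200 * u ^ 2 - 19459 / 20000) ^ 4 / 24 +
      (u - 21 / 200 * u ^ 2 - 19459 / 20000) ^ 5 / 100)) := by
    rw [hs, ht]
    ring
  rw [e] at h
  linarith

theorem ee_b_g1_1 (u : ℝ) (h1 : 77 / 40 ≤ u) (h2 : u ≤ 11 / 4) :
    264583 / 100000 * (1 + (u - 21 / 200 * u ^ 2 - 19459 / 20000) +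
      (u - 21 / 200 * u ^ 2 - 19459 / 20000) ^ 2 / 2 +
      (u - 21 / 200 * u ^ 2 - 19459 / 20000) ^ 3 / 6 +
      (u - 21 / 200 * u ^ 2 - 19459 / 20000) ^ 4 / 24 +
      (u - 21 / 200 * u ^ 2 - 19459 / 20000) ^ 5 / 100) ≤
      (1 + 1 / 500 + (1 / 500) ^ 2 / 2) * (1 + u + 463 / 1000 * u ^ 2) := by
  obtain ⟨s, hs⟩ : ∃ s, s = u - (77 / 40) := ⟨_, rfl⟩
  obtain ⟨t, ht⟩ : ∃ t, t = 11 / 4 - u := ⟨_, rfl⟩
  have hs0 : 0 ≤ s := by linarith
  have ht0 : 0 ≤ t := by linarith
  have h : 0 ≤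
      139684244934883899820868215401419 / 4901052752846236800000000000000000 * t ^ 10 +
      97438861619569063117344368615161 / 245052637642311840000000000000000 * s * t ^ 9 +
      3144276217088407305442950511199 / 1089122833965830400000000000000 * s ^ 2 * t ^ 8 +
      64791198769883893225183164326533 / 5105263284214830000000000000000 * s ^ 3 * t ^ 7 +
      362843888248466009317972340813333 / 10210526568429660000000000000000 * s ^ 4 * t ^ 6 +
      278473516284419729389231108854007 / 4254386070179025000000000000000 * s ^ 5 * t ^ 5 +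
      205345347280857728723948673568121 / 2552631642107415000000000000000 * s ^ 6 * t ^ 4 +
      20883847707885400173264953118877 / 319078955263426875000000000000 * s ^ 7 * t ^ 3 +
      576981903493256647301158853747 / 17017544280716100000000000000 * s ^ 8 * t ^ 2 +
      9707805475869854557987242414121 / 957236865790280625000000000000 * s ^ 9 * t +
      6388512430959934663788440076983 / 4786184328951403125000000000000 * s ^ 10 := by
    positivity
  have e :
      139684244934883899820868215401419 / 4901052752846236800000000000000000 * t ^ 10 +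
      97438861619569063117344368615161 / 245052637642311840000000000000000 * s * t ^ 9 +
      3144276217088407305442950511199 / 1089122833965830400000000000000 * s ^ 2 * t ^ 8 +
      64791198769883893225183164326533 / 5105263284214830000000000000000 * s ^ 3 * t ^ 7 +
      362843888248466009317972340813333 / 10210526568429660000000000000000 * s ^ 4 * t ^ 6 +
      278473516284419729389231108854007 / 4254386070179025000000000000000 * s ^ 5 * t ^ 5 +
      205345347280857728723948673568121 / 2552631642107415000000000000000 * s ^ 6 * t ^ 4 +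
      20883847707885400173264953118877 / 319078955263426875000000000000 * s ^ 7 * t ^ 3 +
      576981903493256647301158853747 / 17017544280716100000000000000 * s ^ 8 * t ^ 2 +
      9707805475869854557987242414121 / 957236865790280625000000000000 * s ^ 9 * t +
      6388512430959934663788440076983 / 4786184328951403125000000000000 * s ^ 10 =
      (1 + 1 / 500 + (1 / 500) ^ 2 / 2) * (1 + u + 463 / 1000 * u ^ 2) -
      (264583 / 100000 * (1 + (u - 21 / 200 * u ^ 2 - 19459 / 20000) +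
      (u - 21 / 200 * u ^ 2 - 19459 / 20000) ^ 2 / 2 +
      (u - 21 / 200 * u ^ 2 - 19459 / 20000) ^ 3 / 6 +
      (u - 21 / 200 * u ^ 2 - 19459 / 20000) ^ 4 / 24 +
      (u - 21 / 200 * u ^ 2 - 19459 / 20000) ^ 5 / 100)) := by
    rw [hs, ht]
    ring
  rw [e] at h
  linarith

theorem ee_b_g2_0 (u : ℝ) (h1 : 11 / 4 ≤ u) (h2 : u ≤ 47 / 10) :
    7071 / 1000 * (1 + (u - 21 / 200 * u ^ 2 - 6259 / 3200) +
      (u - 21 / 200 * u ^ 2 - 6259 / 3200) ^ 2 / 2 +
      (u - 21 / 200 * u ^ 2 - 6259 / 3200) ^ 3 / 6 +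
      (u - 21 / 200 * u ^ 2 - 6259 / 3200) ^ 4 / 24 +
      (u - 21 / 200 * u ^ 2 - 6259 / 3200) ^ 5 / 100) ≤
      (1 + 1 / 500 + (1 / 500) ^ 2 / 2) * (1 + u + 463 / 1000 * u ^ 2) := by
  obtain ⟨s, hs⟩ : ∃ s, s = u - (11 / 4) := ⟨_, rfl⟩
  obtain ⟨t, ht⟩ : ∃ t, t = 47 / 10 - u := ⟨_, rfl⟩
  have hs0 : 0 ≤ s := by linarith
  have ht0 : 0 ≤ t := by linarith
  have h : 0 ≤
      1996337949440 / 8140406085191601 * t ^ 10 +
      31267316071424 / 8140406085191601 * s * t ^ 9 +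
      39624146289584 / 1507482608368815 * s ^ 2 * t ^ 8 +
      28092314755479911 / 271346869506386700 * s ^ 3 * t ^ 7 +
      2259294890257667606041 / 8683099824204374400000 * s ^ 4 * t ^ 6 +
      42118844312891945671755277 / 96478886935604160000000000 * s ^ 5 * t ^ 5 +
      861116262977025572135531387 / 1736619964840874880000000000 * s ^ 6 * t ^ 4 +
      3273001497811707590852540533 / 8683099824204374400000000000 * s ^ 7 * t ^ 3 +
      1772887705624270498678611083 / 9647888693560416000000000000 * s ^ 8 * t ^ 2 +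
      270634428535763457697046068319 / 5209859894522624640000000000000 * s ^ 9 * t +
      1686867870300089316539711256721 / 260492994726131232000000000000000 * s ^ 10 := by
    positivity
  have e :
      1996337949440 / 8140406085191601 * t ^ 10 +
      31267316071424 / 8140406085191601 * s * t ^ 9 +
      39624146289584 / 1507482608368815 * s ^ 2 * t ^ 8 +
      28092314755479911 / 271346869506386700 * s ^ 3 * t ^ 7 +
      2259294890257667606041 / 8683099824204374400000 * s ^ 4 * t ^ 6 +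
      42118844312891945671755277 / 96478886935604160000000000 * s ^ 5 * t ^ 5 +
      861116262977025572135531387 / 1736619964840874880000000000 * s ^ 6 * t ^ 4 +
      3273001497811707590852540533 / 8683099824204374400000000000 * s ^ 7 * t ^ 3 +
      1772887705624270498678611083 / 9647888693560416000000000000 * s ^ 8 * t ^ 2 +
      270634428535763457697046068319 / 5209859894522624640000000000000 * s ^ 9 * t +
      1686867870300089316539711256721 / 260492994726131232000000000000000 * s ^ 10 =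
      (1 + 1 / 500 + (1 / 500) ^ 2 / 2) * (1 + u + 463 / 1000 * u ^ 2) -
      (7071 / 1000 * (1 + (u - 21 / 200 * u ^ 2 - 6259 / 3200) +
      (u - 21 / 200 * u ^ 2 - 6259 / 3200) ^ 2 / 2 +
      (u - 21 / 200 * u ^ 2 - 6259 / 3200) ^ 3 / 6 +
      (u - 21 / 200 * u ^ 2 - 6259 / 3200) ^ 4 / 24 +
      (u - 21 / 200 * u ^ 2 - 6259 / 3200) ^ 5 / 100)) := by
    rw [hs, ht]
    ring
  rw [e] at h
  linarith

/-- Rule E: `(c, μ, δ) = (463 / 1000, 21 / 200, 1 / 500)` -/
theorem expEd_b : ExpEd (463 / 1000) (21 / 200) (1 / 500) := by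
  have hde : (1 + 1 / 500 + (1 / 500) ^ 2 / 2) ≤ Real.exp (1 / 500) :=
    Real.quadratic_le_exp_of_nonneg (by norm_num)
  have hq : ∀ u : ℝ, 0 ≤ 1 + u + 463 / 1000 * u ^ 2 := fun u => by
    nlinarith [sq_nonneg (u + 2), sq_nonneg u]
  have hR : ∀ (u x y : ℝ), x ≤ y →
      y ≤ (1 + 1 / 500 + (1 / 500) ^ 2 / 2) * (1 + u + 463 / 1000 * u ^ 2) →
      x ≤ Real.exp (1 / 500) * (1 + u + 463 / 1000 * u ^ 2) := fun u x y h1 h2 =>
    (h1.trans h2).trans (mul_le_mul_of_nonneg_right hde (hq u))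
  have hE1 : Real.exp (19459 / 20000) ≤ 264583 / 100000 := by
    have e : Real.exp (19459 / 20000) = Real.exp (0) * Real.exp (19459 / 20000) := by
      rw [← Real.exp_add]
      norm_num
    have h := ev_exp_p (u := 19459 / 20000) (by norm_num) (by norm_num)
    have h2 := Real.exp_zero.le
    rw [e]
    refine (mul_le_mul h2 h (Real.exp_nonneg _) (by norm_num)).trans ?_
    norm_num
  have hE2 : Real.exp (6259 / 3200) ≤ 7071 / 1000 := by
    have e : Real.exp (6259 / 3200) = Real.exp (19459 / 20000) * Real.exp (78639 / 80000) := by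
      rw [← Real.exp_add]
      norm_num
    have h := ev_exp_p (u := 78639 / 80000) (by norm_num) (by norm_num)
    have h2 := hE1
    rw [e]
    refine (mul_le_mul h2 h (Real.exp_nonneg _) (by norm_num)).trans ?_
    norm_num
  have hE3 : Real.exp (47611 / 20000) ≤ 216233 / 20000 := by
    have e : Real.exp (47611 / 20000) = Real.exp (6259 / 3200) * Real.exp (33969 / 80000) := by
      rw [← Real.exp_add]
      norm_num
    have h := ev_exp_p (u := 33969 / 80000) (by norm_num) (by norm_num)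
    have h2 := hE2
    rw [e]
    refine (mul_le_mul h2 h (Real.exp_nonneg _) (by norm_num)).trans ?_
    norm_num
  have hEm : Real.exp (50 / 21) ≤ 108161 / 10000 := by
    have e : Real.exp (50 / 21) = Real.exp (47611 / 20000) * Real.exp (169 / 420000) := by
      rw [← Real.exp_add]
      norm_num
    have h := ev_exp_p (u := 169 / 420000) (by norm_num) (by norm_num)
    rw [e]
    refine (mul_le_mul hE3 h (Real.exp_nonneg _) (by norm_num)).trans ?_
    norm_num
  refine ExpEd.of (by norm_num) (by norm_num) (by norm_num) ?_ ?_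
  · intro u h1
    rcases le_total u (-3) with h3 | h3
    · exact hR u _ _ (ev_exp_n3 h3) (ee_b_d u h3)
    rcases le_total u (-2) with h4 | h4
    · refine hR u _ _ (ev_exp_n2 h4) ?_
      exact ee_b_c0 u (by linarith) (by linarith)
    rcases le_total u (-1) with h5 | h5
    · refine hR u _ _ (ev_exp_n1 h5) ?_
      exact ee_b_b0 u (by linarith) (by linarith)
    refine hR u _ _ (ev_exp_n0 h1) ?_
    rcases le_total u (-1 / 2) with hh | hh
    · exact ee_b_a0 u (by linarith) (by linarith)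
    rcases le_total u (-1 / 4) with hh | hh
    · exact ee_b_a1 u (by linarith) (by linarith)
    exact ee_b_a2 u (by linarith) (by linarith)
  · intro u h1
    rcases le_total u (11 / 10) with k1 | k1
    · have hy0 : 0 ≤ (u - 21 / 200 * u ^ 2 - 0) := by
        nlinarith [mul_nonneg (sub_nonneg.2 h1)
          (show 0 ≤ 1 -
            21 / 200 * (u + 0) by linarith)]
      have hy1 : (u - 21 / 200 * u ^ 2 - 0) ≤ 1 := by
        nlinarith [mul_nonneg (sub_nonneg.2 k1)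
          (show 0 ≤ 1 - 21 / 200 * (u + 11 / 10) by linarith)]
      refine hR u _ _
        (exp_split (x := 0) Real.exp_zero.le hy0 hy1) ?_
      exact ee_b_g0_0 u (by linarith) (by linarith)
    rcases le_total u (11 / 4) with k2 | k2
    · have hy0 : 0 ≤ (u - 21 / 200 * u ^ 2 - 19459 / 20000) := by
        nlinarith [mul_nonneg (sub_nonneg.2 k1)
          (show 0 ≤ 1 -
            21 / 200 * (u + 11 / 10) by linarith)]
      have hy1 : (u - 21 / 200 * u ^ 2 - 19459 / 20000) ≤ 1 := by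
        nlinarith [mul_nonneg (sub_nonneg.2 k2)
          (show 0 ≤ 1 - 21 / 200 * (u + 11 / 4) by linarith)]
      refine hR u _ _
        (exp_split (x := 19459 / 20000) hE1 hy0 hy1) ?_
      rcases le_total u (77 / 40) with hh | hh
      · exact ee_b_g1_0 u (by linarith) (by linarith)
      exact ee_b_g1_1 u (by linarith) (by linarith)
    rcases le_total u (47 / 10) with k3 | k3
    · have hy0 : 0 ≤ (u - 21 / 200 * u ^ 2 - 6259 / 3200) := by
        nlinarith [mul_nonneg (sub_nonneg.2 k2)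
          (show 0 ≤ 1 -
            21 / 200 * (u + 11 / 4) by linarith)]
      have hy1 : (u - 21 / 200 * u ^ 2 - 6259 / 3200) ≤ 1 := by
        nlinarith [mul_nonneg (sub_nonneg.2 k3)
          (show 0 ≤ 1 - 21 / 200 * (u + 47 / 10) by linarith)]
      refine hR u _ _
        (exp_split (x := 6259 / 3200) hE2 hy0 hy1) ?_
      exact ee_b_g2_0 u (by linarith) (by linarith)
    have h2 : u - 21 / 200 * u ^ 2 ≤ 50 / 21 := by
      nlinarith [sq_nonneg (u - 100 / 21)]
    refine ((Real.exp_le_exp.2 h2).trans hEm).trans ?_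
    have h3 : 108161 / 10000 ≤ 1 + u + 463 / 1000 * u ^ 2 := by nlinarith
    have h4 : 1 ≤ Real.exp (1 / 500) := Real.one_le_exp (by norm_num)
    nlinarith [mul_nonneg (sub_nonneg.2 h4) (hq u)]

theorem ee_c_a0 (u : ℝ) (h1 : -1 ≤ u) (h2 : u ≤ -1 / 2) :
    1 + u + u ^ 2 / 2 + u ^ 3 / 6 + u ^ 4 / 24 ≤
      (1 + 1 / 200 + (1 / 200) ^ 2 / 2) * (1 + u + 459 / 1000 * u ^ 2) := by
  obtain ⟨s, hs⟩ : ∃ s, s = u - (-1) := ⟨_, rfl⟩
  obtain ⟨t, ht⟩ : ∃ t, t = -1 / 2 - u := ⟨_, rfl⟩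
  have hs0 : 0 ≤ s := by linarith
  have ht0 : 0 ≤ t := by linarith
  have h : 0 ≤
      6904059 / 5000000 * t ^ 4 + 52738031 / 15000000 * s * t ^ 3 +
      62158767 / 20000000 * s ^ 2 * t ^ 2 + 11915177 / 10000000 * s ^ 3 * t +
      10618177 / 60000000 * s ^ 4 := by
    positivity
  have e :
      6904059 / 5000000 * t ^ 4 + 52738031 / 15000000 * s * t ^ 3 +
      62158767 / 20000000 * s ^ 2 * t ^ 2 + 11915177 / 10000000 * s ^ 3 * t +
      10618177 / 60000000 * s ^ 4 =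
      (1 + 1 / 200 + (1 / 200) ^ 2 / 2) * (1 + u + 459 / 1000 * u ^ 2) -
      (1 + u + u ^ 2 / 2 + u ^ 3 / 6 + u ^ 4 / 24) := by
    rw [hs, ht]
    ring
  rw [e] at h
  linarith

theorem ee_c_a1 (u : ℝ) (h1 : -1 / 2 ≤ u) (h2 : u ≤ 0) :
    1 + u + u ^ 2 / 2 + u ^ 3 / 6 + u ^ 4 / 24 ≤
      (1 + 1 / 200 + (1 / 200) ^ 2 / 2) * (1 + u + 459 / 1000 * u ^ 2) := by
  obtain ⟨s, hs⟩ : ∃ s, s = u - (-1 / 2) := ⟨_, rfl⟩
  obtain ⟨t, ht⟩ : ∃ t, t = 0 - u := ⟨_, rfl⟩
  have hs0 : 0 ≤ s := by linarith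
  have ht0 : 0 ≤ t := by linarith
  have h : 0 ≤
      10618177 / 60000000 * t ^ 4 + 6727177 / 30000000 * s * t ^ 3 +
      4122059 / 20000000 * s ^ 2 * t ^ 2 + 2807 / 10000 * s ^ 3 * t + 401 / 5000 * s ^ 4 := by
    positivity
  have e :
      10618177 / 60000000 * t ^ 4 + 6727177 / 30000000 * s * t ^ 3 +
      4122059 / 20000000 * s ^ 2 * t ^ 2 + 2807 / 10000 * s ^ 3 * t + 401 / 5000 * s ^ 4 =
      (1 + 1 / 200 + (1 / 200) ^ 2 / 2) * (1 + u + 459 / 1000 * u ^ 2) -
      (1 + u + u ^ 2 / 2 + u ^ 3 / 6 + u ^ 4 / 24) := by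
    rw [hs, ht]
    ring
  rw [e] at h
  linarith

theorem ee_c_b0 (u : ℝ) (h1 : -2 ≤ u) (h2 : u ≤ -1) :
    36788 / 100000 *
      (1 + (u + 1) + (u + 1) ^ 2 / 2 + (u + 1) ^ 3 / 6 + (u + 1) ^ 4 / 24) ≤
      (1 + 1 / 200 + (1 / 200) ^ 2 / 2) * (1 + u + 459 / 1000 * u ^ 2) := by
  obtain ⟨s, hs⟩ : ∃ s, s = u - (-2) := ⟨_, rfl⟩
  obtain ⟨t, ht⟩ : ∃ t, t = -1 - u := ⟨_, rfl⟩
  have hs0 : 0 ≤ s := by linarith
  have ht0 : 0 ≤ t := by linarith
  have h : 0 ≤
      14044709 / 20000000 * t ^ 4 + 110767481 / 60000000 * s * t ^ 3 +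
      135543367 / 80000000 * s ^ 2 * t ^ 2 + 26366077 / 40000000 * s ^ 3 * t +
      7473659 / 80000000 * s ^ 4 := by
    positivity
  have e :
      14044709 / 20000000 * t ^ 4 + 110767481 / 60000000 * s * t ^ 3 +
      135543367 / 80000000 * s ^ 2 * t ^ 2 + 26366077 / 40000000 * s ^ 3 * t +
      7473659 / 80000000 * s ^ 4 =
      (1 + 1 / 200 + (1 / 200) ^ 2 / 2) * (1 + u + 459 / 1000 * u ^ 2) -
      (36788 / 100000 *
      (1 + (u + 1) + (u + 1) ^ 2 / 2 + (u + 1) ^ 3 / 6 + (u + 1) ^ 4 / 24)) := by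
    rw [hs, ht]
    ring
  rw [e] at h
  linarith

theorem ee_c_c0 (u : ℝ) (h1 : -3 ≤ u) (h2 : u ≤ -2) :
    13534 / 100000 *
      (1 + (u + 2) + (u + 2) ^ 2 / 2 + (u + 2) ^ 3 / 6 + (u + 2) ^ 4 / 24) ≤
      (1 + 1 / 200 + (1 / 200) ^ 2 / 2) * (1 + u + 459 / 1000 * u ^ 2) := by
  obtain ⟨s, hs⟩ : ∃ s, s = u - (-3) := ⟨_, rfl⟩
  obtain ⟨t, ht⟩ : ∃ t, t = -2 - u := ⟨_, rfl⟩
  have hs0 : 0 ≤ s := by linarith
  have ht0 : 0 ≤ t := by linarith
  have h : 0 ≤
      167274331 / 80000000 * t ^ 4 + 157339471 / 24000000 * s * t ^ 3 +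
      603945983 / 80000000 * s ^ 2 * t ^ 2 + 15179729 / 4000000 * s ^ 3 * t +
      14097009 / 20000000 * s ^ 4 := by
    positivity
  have e :
      167274331 / 80000000 * t ^ 4 + 157339471 / 24000000 * s * t ^ 3 +
      603945983 / 80000000 * s ^ 2 * t ^ 2 + 15179729 / 4000000 * s ^ 3 * t +
      14097009 / 20000000 * s ^ 4 =
      (1 + 1 / 200 + (1 / 200) ^ 2 / 2) * (1 + u + 459 / 1000 * u ^ 2) -
      (13534 / 100000 *
      (1 + (u + 2) + (u + 2) ^ 2 / 2 + (u + 2) ^ 3 / 6 + (u + 2) ^ 4 / 24)) := by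
    rw [hs, ht]
    ring
  rw [e] at h
  linarith

theorem ee_c_d (u : ℝ) (h2 : u ≤ -3) :
    4979 / 100000 ≤
      (1 + 1 / 200 + (1 / 200) ^ 2 / 2) * (1 + u + 459 / 1000 * u ^ 2) := by
  obtain ⟨s, hs⟩ : ∃ s, s = -3 - u := ⟨_, rfl⟩
  have hs0 : 0 ≤ s := by linarith
  have h : 0 ≤
      167351331 / 80000000 + 70511677 / 40000000 * s + 36904059 / 80000000 * s ^ 2 := by
    positivity
  have e :
      167351331 / 80000000 + 70511677 / 40000000 * s + 36904059 / 80000000 * s ^ 2 =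
      (1 + 1 / 200 + (1 / 200) ^ 2 / 2) * (1 + u + 459 / 1000 * u ^ 2) -
      (4979 / 100000) := by
    rw [hs]
    ring
  rw [e] at h
  linarith

theorem ee_c_g0_0 (u : ℝ) (h1 : 0 ≤ u) (h2 : u ≤ 11 / 10) :
    1 * (1 + (u - 21 / 200 * u ^ 2 - 0) +
      (u - 21 / 200 * u ^ 2 - 0) ^ 2 / 2 +
      (u - 21 / 200 * u ^ 2 - 0) ^ 3 / 6 +
      (u - 21 / 200 * u ^ 2 - 0) ^ 4 / 24 +
      (u - 21 / 200 * u ^ 2 - 0) ^ 5 / 100) ≤
      (1 + 1 / 200 + (1 / 200) ^ 2 / 2) * (1 + u + 459 / 1000 * u ^ 2) := by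
  obtain ⟨s, hs⟩ : ∃ s, s = u - (0) := ⟨_, rfl⟩
  obtain ⟨t, ht⟩ : ∃ t, t = 11 / 10 - u := ⟨_, rfl⟩
  have hs0 : 0 ≤ s := by linarith
  have ht0 : 0 ≤ t := by linarith
  have h : 0 ≤
      50125000 / 25937424601 * t ^ 10 + 556387500 / 25937424601 * s * t ^ 9 +
      14216405695 / 103749698404 * s ^ 2 * t ^ 8 +
      40791234170 / 77812273803 * s ^ 3 * t ^ 7 + 63905817705 / 51874849202 * s ^ 4 * t ^ 6 +
      191068710165 / 103749698404 * s ^ 5 * t ^ 5 +
      222139481028121 / 124499638084800 * s ^ 6 * t ^ 4 +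
      462324940388717 / 414998793616000 * s ^ 7 * t ^ 3 +
      1432347506602179973 / 3319990348928000000 * s ^ 8 * t ^ 2 +
      23416197647529715837 / 248999276169600000000 * s ^ 9 * t +
      7319478988909809908701 / 829997587232000000000000 * s ^ 10 := by
    positivity
  have e :
      50125000 / 25937424601 * t ^ 10 + 556387500 / 25937424601 * s * t ^ 9 +
      14216405695 / 103749698404 * s ^ 2 * t ^ 8 +
      40791234170 / 77812273803 * s ^ 3 * t ^ 7 + 63905817705 / 51874849202 * s ^ 4 * t ^ 6 +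
      191068710165 / 103749698404 * s ^ 5 * t ^ 5 +
      222139481028121 / 124499638084800 * s ^ 6 * t ^ 4 +
      462324940388717 / 414998793616000 * s ^ 7 * t ^ 3 +
      1432347506602179973 / 3319990348928000000 * s ^ 8 * t ^ 2 +
      23416197647529715837 / 248999276169600000000 * s ^ 9 * t +
      7319478988909809908701 / 829997587232000000000000 * s ^ 10 =
      (1 + 1 / 200 + (1 / 200) ^ 2 / 2) * (1 + u + 459 / 1000 * u ^ 2) -
      (1 * (1 + (u - 21 / 200 * u ^ 2 - 0) +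
      (u - 21 / 200 * u ^ 2 - 0) ^ 2 / 2 +
      (u - 21 / 200 * u ^ 2 - 0) ^ 3 / 6 +
      (u - 21 / 200 * u ^ 2 - 0) ^ 4 / 24 +
      (u - 21 / 200 * u ^ 2 - 0) ^ 5 / 100)) := by
    rw [hs, ht]
    ring
  rw [e] at h
  linarith

theorem ee_c_g1_0 (u : ℝ) (h1 : 11 / 10 ≤ u) (h2 : u ≤ 77 / 40) :
    264583 / 100000 * (1 + (u - 21 / 200 * u ^ 2 - 19459 / 20000) +
      (u - 21 / 200 * u ^ 2 - 19459 / 20000) ^ 2 / 2 +
      (u - 21 / 200 * u ^ 2 - 19459 / 20000) ^ 3 / 6 +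
      (u - 21 / 200 * u ^ 2 - 19459 / 20000) ^ 4 / 24 +
      (u - 21 / 200 * u ^ 2 - 19459 / 20000) ^ 5 / 100) ≤
      (1 + 1 / 200 + (1 / 200) ^ 2 / 2) * (1 + u + 459 / 1000 * u ^ 2) := by
  obtain ⟨s, hs⟩ : ∃ s, s = u - (11 / 10) := ⟨_, rfl⟩
  obtain ⟨t, ht⟩ : ∃ t, t = 77 / 40 - u := ⟨_, rfl⟩
  have hs0 : 0 ≤ s := by linarith
  have ht0 : 0 ≤ t := by linarith
  have h : 0 ≤
      239810824110080 / 1531578985264449 * t ^ 10 +
      2270344008826880 / 1531578985264449 * s * t ^ 9 +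
      129628375345057792 / 21271930350895125 * s ^ 2 * t ^ 8 +
      567396009703348181056 / 39884869407928359375 * s ^ 3 * t ^ 7 +
      2062159013774349110854033 / 99712173519820898437500 * s ^ 4 * t ^ 6 +
      320550610617668225007801145441 / 16618695586636816406250000000 * s ^ 5 * t ^ 5 +
      913962078552558946784195023553 / 79769738815856718750000000000 * s ^ 6 * t ^ 4 +
      1336525191493530321992077098083 / 319078955263426875000000000000 * s ^ 7 * t ^ 3 +
      785638594059061631945413779721 / 850877214035805000000000000000 * s ^ 8 * t ^ 2 +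
      18269051733437514351761923393129 / 122526318821155920000000000000000 * s ^ 9 * t +
      108614275008821819820868215401419 / 4901052752846236800000000000000000 * s ^ 10 := by
    positivity
  have e :
      239810824110080 / 1531578985264449 * t ^ 10 +
      2270344008826880 / 1531578985264449 * s * t ^ 9 +
      129628375345057792 / 21271930350895125 * s ^ 2 * t ^ 8 +
      567396009703348181056 / 39884869407928359375 * s ^ 3 * t ^ 7 +
      2062159013774349110854033 / 99712173519820898437500 * s ^ 4 * t ^ 6 +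
      320550610617668225007801145441 / 16618695586636816406250000000 * s ^ 5 * t ^ 5 +
      913962078552558946784195023553 / 79769738815856718750000000000 * s ^ 6 * t ^ 4 +
      1336525191493530321992077098083 / 319078955263426875000000000000 * s ^ 7 * t ^ 3 +
      785638594059061631945413779721 / 850877214035805000000000000000 * s ^ 8 * t ^ 2 +
      18269051733437514351761923393129 / 122526318821155920000000000000000 * s ^ 9 * t +
      108614275008821819820868215401419 / 4901052752846236800000000000000000 * s ^ 10 =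
      (1 + 1 / 200 + (1 / 200) ^ 2 / 2) * (1 + u + 459 / 1000 * u ^ 2) -
      (264583 / 100000 * (1 + (u - 21 / 200 * u ^ 2 - 19459 / 20000) +
      (u - 21 / 200 * u ^ 2 - 19459 / 20000) ^ 2 / 2 +
      (u - 21 / 200 * u ^ 2 - 19459 / 20000) ^ 3 / 6 +
      (u - 21 / 200 * u ^ 2 - 19459 / 20000) ^ 4 / 24 +
      (u - 21 / 200 * u ^ 2 - 19459 / 20000) ^ 5 / 100)) := by
    rw [hs, ht]
    ring
  rw [e] at h
  linarith

theorem ee_c_g1_1 (u : ℝ) (h1 : 77 / 40 ≤ u) (h2 : u ≤ 11 / 4) :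
    264583 / 100000 * (1 + (u - 21 / 200 * u ^ 2 - 19459 / 20000) +
      (u - 21 / 200 * u ^ 2 - 19459 / 20000) ^ 2 / 2 +
      (u - 21 / 200 * u ^ 2 - 19459 / 20000) ^ 3 / 6 +
      (u - 21 / 200 * u ^ 2 - 19459 / 20000) ^ 4 / 24 +
      (u - 21 / 200 * u ^ 2 - 19459 / 20000) ^ 5 / 100) ≤
      (1 + 1 / 200 + (1 / 200) ^ 2 / 2) * (1 + u + 459 / 1000 * u ^ 2) := by
  obtain ⟨s, hs⟩ : ∃ s, s = u - (77 / 40) := ⟨_, rfl⟩
  obtain ⟨t, ht⟩ : ∃ t, t = 11 / 4 - u := ⟨_, rfl⟩
  have hs0 : 0 ≤ s := by linarith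
  have ht0 : 0 ≤ t := by linarith
  have h : 0 ≤
      108614275008821819820868215401419 / 4901052752846236800000000000000000 * t ^ 10 +
      72076171541946791117344368615161 / 245052637642311840000000000000000 * s * t ^ 9 +
      2427140123398469385442950511199 / 1089122833965830400000000000000 * s ^ 2 * t ^ 8 +
      53036866573970165225183164326533 / 5105263284214830000000000000000 * s ^ 3 * t ^ 7 +
      311355158670256729317972340813333 / 10210526568429660000000000000000 * s ^ 4 * t ^ 6 +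
      247263313896185489389231108854007 / 4254386070179025000000000000000 * s ^ 5 * t ^ 5 +
      186861550210738816723948673568121 / 2552631642107415000000000000000 * s ^ 6 * t ^ 4 +
      19347542706274136173264953118877 / 319078955263426875000000000000 * s ^ 7 * t ^ 3 +
      541726874848351687301158853747 / 17017544280716100000000000000 * s ^ 8 * t ^ 2 +
      9207902848070814557987242414121 / 957236865790280625000000000000 * s ^ 9 * t +
      6107652151151934663788440076983 / 4786184328951403125000000000000 * s ^ 10 := by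
    positivity
  have e :
      108614275008821819820868215401419 / 4901052752846236800000000000000000 * t ^ 10 +
      72076171541946791117344368615161 / 245052637642311840000000000000000 * s * t ^ 9 +
      2427140123398469385442950511199 / 1089122833965830400000000000000 * s ^ 2 * t ^ 8 +
      53036866573970165225183164326533 / 5105263284214830000000000000000 * s ^ 3 * t ^ 7 +
      311355158670256729317972340813333 / 10210526568429660000000000000000 * s ^ 4 * t ^ 6 +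
      247263313896185489389231108854007 / 4254386070179025000000000000000 * s ^ 5 * t ^ 5 +
      186861550210738816723948673568121 / 2552631642107415000000000000000 * s ^ 6 * t ^ 4 +
      19347542706274136173264953118877 / 319078955263426875000000000000 * s ^ 7 * t ^ 3 +
      541726874848351687301158853747 / 17017544280716100000000000000 * s ^ 8 * t ^ 2 +
      9207902848070814557987242414121 / 957236865790280625000000000000 * s ^ 9 * t +
      6107652151151934663788440076983 / 4786184328951403125000000000000 * s ^ 10 =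
      (1 + 1 / 200 + (1 / 200) ^ 2 / 2) * (1 + u + 459 / 1000 * u ^ 2) -
      (264583 / 100000 * (1 + (u - 21 / 200 * u ^ 2 - 19459 / 20000) +
      (u - 21 / 200 * u ^ 2 - 19459 / 20000) ^ 2 / 2 +
      (u - 21 / 200 * u ^ 2 - 19459 / 20000) ^ 3 / 6 +
      (u - 21 / 200 * u ^ 2 - 19459 / 20000) ^ 4 / 24 +
      (u - 21 / 200 * u ^ 2 - 19459 / 20000) ^ 5 / 100)) := by
    rw [hs, ht]
    ring
  rw [e] at h
  linarith

theorem ee_c_g2_0 (u : ℝ) (h1 : 11 / 4 ≤ u) (h2 : u ≤ 47 / 10) :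
    7071 / 1000 * (1 + (u - 21 / 200 * u ^ 2 - 6259 / 3200) +
      (u - 21 / 200 * u ^ 2 - 6259 / 3200) ^ 2 / 2 +
      (u - 21 / 200 * u ^ 2 - 6259 / 3200) ^ 3 / 6 +
      (u - 21 / 200 * u ^ 2 - 6259 / 3200) ^ 4 / 24 +
      (u - 21 / 200 * u ^ 2 - 6259 / 3200) ^ 5 / 100) ≤
      (1 + 1 / 200 + (1 / 200) ^ 2 / 2) * (1 + u + 459 / 1000 * u ^ 2) := by
  obtain ⟨s, hs⟩ : ∃ s, s = u - (11 / 4) := ⟨_, rfl⟩
  obtain ⟨t, ht⟩ : ∃ t, t = 47 / 10 - u := ⟨_, rfl⟩
  have hs0 : 0 ≤ s := by linarith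
  have ht0 : 0 ≤ t := by linarith
  have h : 0 ≤
      636189704000 / 2713468695063867 * t ^ 10 +
      3351258092800 / 904489565021289 * s * t ^ 9 +
      7698658927600 / 301496521673763 * s ^ 2 * t ^ 8 +
      9146668303635917 / 90448956502128900 * s ^ 3 * t ^ 7 +
      246236051673540098449 / 964788869356041600000 * s ^ 4 * t ^ 6 +
      41447904124973609671755277 / 96478886935604160000000000 * s ^ 5 * t ^ 5 +
      283173446459658764045177129 / 578873321613624960000000000 * s ^ 6 * t ^ 4 +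
      119822325593345353735279279 / 321596289785347200000000000 * s ^ 7 * t ^ 3 +
      1755072260200961698678611083 / 9647888693560416000000000000 * s ^ 8 * t ^ 2 +
      89411371229357568565682022773 / 1736619964840874880000000000000 * s ^ 9 * t +
      185942363627648679615523472969 / 28943666080681248000000000000000 * s ^ 10 := by
    positivity
  have e :
      636189704000 / 2713468695063867 * t ^ 10 +
      3351258092800 / 904489565021289 * s * t ^ 9 +
      7698658927600 / 301496521673763 * s ^ 2 * t ^ 8 +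
      9146668303635917 / 90448956502128900 * s ^ 3 * t ^ 7 +
      246236051673540098449 / 964788869356041600000 * s ^ 4 * t ^ 6 +
      41447904124973609671755277 / 96478886935604160000000000 * s ^ 5 * t ^ 5 +
      283173446459658764045177129 / 578873321613624960000000000 * s ^ 6 * t ^ 4 +
      119822325593345353735279279 / 321596289785347200000000000 * s ^ 7 * t ^ 3 +
      1755072260200961698678611083 / 9647888693560416000000000000 * s ^ 8 * t ^ 2 +
      89411371229357568565682022773 / 1736619964840874880000000000000 * s ^ 9 * t +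
      185942363627648679615523472969 / 28943666080681248000000000000000 * s ^ 10 =
      (1 + 1 / 200 + (1 / 200) ^ 2 / 2) * (1 + u + 459 / 1000 * u ^ 2) -
      (7071 / 1000 * (1 + (u - 21 / 200 * u ^ 2 - 6259 / 3200) +
      (u - 21 / 200 * u ^ 2 - 6259 / 3200) ^ 2 / 2 +
      (u - 21 / 200 * u ^ 2 - 6259 / 3200) ^ 3 / 6 +
      (u - 21 / 200 * u ^ 2 - 6259 / 3200) ^ 4 / 24 +
      (u - 21 / 200 * u ^ 2 - 6259 / 3200) ^ 5 / 100)) := by
    rw [hs, ht]
    ring
  rw [e] at h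
  linarith

/-- Rule E: `(c, μ, δ) = (459 / 1000, 21 / 200, 1 / 200)` -/
theorem expEd_c : ExpEd (459 / 1000) (21 / 200) (1 / 200) := by
  have hde : (1 + 1 / 200 + (1 / 200) ^ 2 / 2) ≤ Real.exp (1 / 200) :=
    Real.quadratic_le_exp_of_nonneg (by norm_num)
  have hq : ∀ u : ℝ, 0 ≤ 1 + u + 459 / 1000 * u ^ 2 := fun u => by
    nlinarith [sq_nonneg (u + 2), sq_nonneg u]
  have hR : ∀ (u x y : ℝ), x ≤ y →
      y ≤ (1 + 1 / 200 + (1 / 200) ^ 2 / 2) * (1 + u + 459 / 1000 * u ^ 2) →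
      x ≤ Real.exp (1 / 200) * (1 + u + 459 / 1000 * u ^ 2) := fun u x y h1 h2 =>
    (h1.trans h2).trans (mul_le_mul_of_nonneg_right hde (hq u))
  have hE1 : Real.exp (19459 / 20000) ≤ 264583 / 100000 := by
    have e : Real.exp (19459 / 20000) = Real.exp (0) * Real.exp (19459 / 20000) := by
      rw [← Real.exp_add]
      norm_num
    have h := ev_exp_p (u := 19459 / 20000) (by norm_num) (by norm_num)
    have h2 := Real.exp_zero.le
    rw [e]
    refine (mul_le_mul h2 h (Real.exp_nonneg _) (by norm_num)).trans ?_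
    norm_num
  have hE2 : Real.exp (6259 / 3200) ≤ 7071 / 1000 := by
    have e : Real.exp (6259 / 3200) = Real.exp (19459 / 20000) * Real.exp (78639 / 80000) := by
      rw [← Real.exp_add]
      norm_num
    have h := ev_exp_p (u := 78639 / 80000) (by norm_num) (by norm_num)
    have h2 := hE1
    rw [e]
    refine (mul_le_mul h2 h (Real.exp_nonneg _) (by norm_num)).trans ?_
    norm_num
  have hE3 : Real.exp (47611 / 20000) ≤ 216233 / 20000 := by
    have e : Real.exp (47611 / 20000) = Real.exp (6259 / 3200) * Real.exp (33969 / 80000) := by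
      rw [← Real.exp_add]
      norm_num
    have h := ev_exp_p (u := 33969 / 80000) (by norm_num) (by norm_num)
    have h2 := hE2
    rw [e]
    refine (mul_le_mul h2 h (Real.exp_nonneg _) (by norm_num)).trans ?_
    norm_num
  have hEm : Real.exp (50 / 21) ≤ 108161 / 10000 := by
    have e : Real.exp (50 / 21) = Real.exp (47611 / 20000) * Real.exp (169 / 420000) := by
      rw [← Real.exp_add]
      norm_num
    have h := ev_exp_p (u := 169 / 420000) (by norm_num) (by norm_num)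
    rw [e]
    refine (mul_le_mul hE3 h (Real.exp_nonneg _) (by norm_num)).trans ?_
    norm_num
  refine ExpEd.of (by norm_num) (by norm_num) (by norm_num) ?_ ?_
  · intro u h1
    rcases le_total u (-3) with h3 | h3
    · exact hR u _ _ (ev_exp_n3 h3) (ee_c_d u h3)
    rcases le_total u (-2) with h4 | h4
    · refine hR u _ _ (ev_exp_n2 h4) ?_
      exact ee_c_c0 u (by linarith) (by linarith)
    rcases le_total u (-1) with h5 | h5
    · refine hR u _ _ (ev_exp_n1 h5) ?_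
      exact ee_c_b0 u (by linarith) (by linarith)
    refine hR u _ _ (ev_exp_n0 h1) ?_
    rcases le_total u (-1 / 2) with hh | hh
    · exact ee_c_a0 u (by linarith) (by linarith)
    exact ee_c_a1 u (by linarith) (by linarith)
  · intro u h1
    rcases le_total u (11 / 10) with k1 | k1
    · have hy0 : 0 ≤ (u - 21 / 200 * u ^ 2 - 0) := by
        nlinarith [mul_nonneg (sub_nonneg.2 h1)
          (show 0 ≤ 1 -
            21 / 200 * (u + 0) by linarith)]
      have hy1 : (u - 21 / 200 * u ^ 2 - 0) ≤ 1 := by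
        nlinarith [mul_nonneg (sub_nonneg.2 k1)
          (show 0 ≤ 1 - 21 / 200 * (u + 11 / 10) by linarith)]
      refine hR u _ _
        (exp_split (x := 0) Real.exp_zero.le hy0 hy1) ?_
      exact ee_c_g0_0 u (by linarith) (by linarith)
    rcases le_total u (11 / 4) with k2 | k2
    · have hy0 : 0 ≤ (u - 21 / 200 * u ^ 2 - 19459 / 20000) := by
        nlinarith [mul_nonneg (sub_nonneg.2 k1)
          (show 0 ≤ 1 -
            21 / 200 * (u + 11 / 10) by linarith)]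
      have hy1 : (u - 21 / 200 * u ^ 2 - 19459 / 20000) ≤ 1 := by
        nlinarith [mul_nonneg (sub_nonneg.2 k2)
          (show 0 ≤ 1 - 21 / 200 * (u + 11 / 4) by linarith)]
      refine hR u _ _
        (exp_split (x := 19459 / 20000) hE1 hy0 hy1) ?_
      rcases le_total u (77 / 40) with hh | hh
      · exact ee_c_g1_0 u (by linarith) (by linarith)
      exact ee_c_g1_1 u (by linarith) (by linarith)
    rcases le_total u (47 / 10) with k3 | k3
    · have hy0 : 0 ≤ (u - 21 / 200 * u ^ 2 - 6259 / 3200) := by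
        nlinarith [mul_nonneg (sub_nonneg.2 k2)
          (show 0 ≤ 1 -
            21 / 200 * (u + 11 / 4) by linarith)]
      have hy1 : (u - 21 / 200 * u ^ 2 - 6259 / 3200) ≤ 1 := by
        nlinarith [mul_nonneg (sub_nonneg.2 k3)
          (show 0 ≤ 1 - 21 / 200 * (u + 47 / 10) by linarith)]
      refine hR u _ _
        (exp_split (x := 6259 / 3200) hE2 hy0 hy1) ?_
      exact ee_c_g2_0 u (by linarith) (by linarith)
    have h2 : u - 21 / 200 * u ^ 2 ≤ 50 / 21 := by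
      nlinarith [sq_nonneg (u - 100 / 21)]
    refine ((Real.exp_le_exp.2 h2).trans hEm).trans ?_
    have h3 : 108161 / 10000 ≤ 1 + u + 459 / 1000 * u ^ 2 := by nlinarith
    have h4 : 1 ≤ Real.exp (1 / 200) := Real.one_le_exp (by norm_num)
    nlinarith [mul_nonneg (sub_nonneg.2 h4) (hq u)]

theorem ee_d_a0 (u : ℝ) (h1 : -1 ≤ u) (h2 : u ≤ -1 / 2) :
    1 + u + u ^ 2 / 2 + u ^ 3 / 6 + u ^ 4 / 24 ≤
      (1 + 1 / 100 + (1 / 100) ^ 2 / 2) * (1 + u + 431 / 1000 * u ^ 2) := by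
  obtain ⟨s, hs⟩ : ∃ s, s = u - (-1) := ⟨_, rfl⟩
  obtain ⟨t, ht⟩ : ∃ t, t = -1 / 2 - u := ⟨_, rfl⟩
  have hs0 : 0 ≤ s := by linarith
  have ht0 : 0 ≤ t := by linarith
  have h : 0 ≤
      1206631 / 1250000 * t ^ 4 + 8661179 / 3750000 * s * t ^ 3 +
      9392203 / 5000000 * s ^ 2 * t ^ 2 + 1722893 / 2500000 * s ^ 3 * t +
      1700893 / 15000000 * s ^ 4 := by
    positivity
  have e :
      1206631 / 1250000 * t ^ 4 + 8661179 / 3750000 * s * t ^ 3 +
      9392203 / 5000000 * s ^ 2 * t ^ 2 + 1722893 / 2500000 * s ^ 3 * t +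
      1700893 / 15000000 * s ^ 4 =
      (1 + 1 / 100 + (1 / 100) ^ 2 / 2) * (1 + u + 431 / 1000 * u ^ 2) -
      (1 + u + u ^ 2 / 2 + u ^ 3 / 6 + u ^ 4 / 24) := by
    rw [hs, ht]
    ring
  rw [e] at h
  linarith

theorem ee_d_a1 (u : ℝ) (h1 : -1 / 2 ≤ u) (h2 : u ≤ 0) :
    1 + u + u ^ 2 / 2 + u ^ 3 / 6 + u ^ 4 / 24 ≤
      (1 + 1 / 100 + (1 / 100) ^ 2 / 2) * (1 + u + 431 / 1000 * u ^ 2) := by
  obtain ⟨s, hs⟩ : ∃ s, s = u - (-1 / 2) := ⟨_, rfl⟩
  obtain ⟨t, ht⟩ : ∃ t, t = 0 - u := ⟨_, rfl⟩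
  have hs0 : 0 ≤ s := by linarith
  have ht0 : 0 ≤ t := by linarith
  have h : 0 ≤
      1700893 / 15000000 * t ^ 4 + 1634893 / 7500000 * s * t ^ 3 +
      2324631 / 5000000 * s ^ 2 * t ^ 2 + 1407 / 2500 * s ^ 3 * t + 201 / 1250 * s ^ 4 := by
    positivity
  have e :
      1700893 / 15000000 * t ^ 4 + 1634893 / 7500000 * s * t ^ 3 +
      2324631 / 5000000 * s ^ 2 * t ^ 2 + 1407 / 2500 * s ^ 3 * t + 201 / 1250 * s ^ 4 =
      (1 + 1 / 100 + (1 / 100) ^ 2 / 2) * (1 + u + 431 / 1000 * u ^ 2) -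
      (1 + u + u ^ 2 / 2 + u ^ 3 / 6 + u ^ 4 / 24) := by
    rw [hs, ht]
    ring
  rw [e] at h
  linarith

theorem ee_d_b0 (u : ℝ) (h1 : -2 ≤ u) (h2 : u ≤ -1) :
    36788 / 100000 *
      (1 + (u + 1) + (u + 1) ^ 2 / 2 + (u + 1) ^ 3 / 6 + (u + 1) ^ 4 / 24) ≤
      (1 + 1 / 100 + (1 / 100) ^ 2 / 2) * (1 + u + 431 / 1000 * u ^ 2) := by
  obtain ⟨s, hs⟩ : ∃ s, s = u - (-2) := ⟨_, rfl⟩
  obtain ⟨t, ht⟩ : ∃ t, t = -1 - u := ⟨_, rfl⟩
  have hs0 : 0 ≤ s := by linarith
  have ht0 : 0 ≤ t := by linarith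
  have h : 0 ≤
      1483303 / 2500000 * t ^ 4 + 22790729 / 15000000 * s * t ^ 3 +
      26831603 / 20000000 * s ^ 2 * t ^ 2 + 4982993 / 10000000 * s ^ 3 * t +
      1349031 / 20000000 * s ^ 4 := by
    positivity
  have e :
      1483303 / 2500000 * t ^ 4 + 22790729 / 15000000 * s * t ^ 3 +
      26831603 / 20000000 * s ^ 2 * t ^ 2 + 4982993 / 10000000 * s ^ 3 * t +
      1349031 / 20000000 * s ^ 4 =
      (1 + 1 / 100 + (1 / 100) ^ 2 / 2) * (1 + u + 431 / 1000 * u ^ 2) -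
      (36788 / 100000 *
      (1 + (u + 1) + (u + 1) ^ 2 / 2 + (u + 1) ^ 3 / 6 + (u + 1) ^ 4 / 24)) := by
    rw [hs, ht]
    ring
  rw [e] at h
  linarith

theorem ee_d_c0 (u : ℝ) (h1 : -3 ≤ u) (h2 : u ≤ -2) :
    13534 / 100000 *
      (1 + (u + 2) + (u + 2) ^ 2 / 2 + (u + 2) ^ 3 / 6 + (u + 2) ^ 4 / 24) ≤
      (1 + 1 / 100 + (1 / 100) ^ 2 / 2) * (1 + u + 431 / 1000 * u ^ 2) := by
  obtain ⟨s, hs⟩ : ∃ s, s = u - (-3) := ⟨_, rfl⟩
  obtain ⟨t, ht⟩ : ∃ t, t = -2 - u := ⟨_, rfl⟩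
  have hs0 : 0 ≤ s := by linarith
  have ht0 : 0 ≤ t := by linarith
  have h : 0 ≤
      36942629 / 20000000 * t ^ 4 + 34448839 / 6000000 * s * t ^ 3 +
      130862547 / 20000000 * s ^ 2 * t ^ 2 + 3250361 / 1000000 * s ^ 3 * t +
      2979681 / 5000000 * s ^ 4 := by
    positivity
  have e :
      36942629 / 20000000 * t ^ 4 + 34448839 / 6000000 * s * t ^ 3 +
      130862547 / 20000000 * s ^ 2 * t ^ 2 + 3250361 / 1000000 * s ^ 3 * t +
      2979681 / 5000000 * s ^ 4 =
      (1 + 1 / 100 + (1 / 100) ^ 2 / 2) * (1 + u + 431 / 1000 * u ^ 2) -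
      (13534 / 100000 *
      (1 + (u + 2) + (u + 2) ^ 2 / 2 + (u + 2) ^ 3 / 6 + (u + 2) ^ 4 / 24)) := by
    rw [hs, ht]
    ring
  rw [e] at h
  linarith

theorem ee_d_d (u : ℝ) (h2 : u ≤ -3) :
    4979 / 100000 ≤
      (1 + 1 / 100 + (1 / 100) ^ 2 / 2) * (1 + u + 431 / 1000 * u ^ 2) := by
  obtain ⟨s, hs⟩ : ∃ s, s = -3 - u := ⟨_, rfl⟩
  have hs0 : 0 ≤ s := by linarith
  have h : 0 ≤
      36961879 / 20000000 + 16019393 / 10000000 * s + 8706631 / 20000000 * s ^ 2 := by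
    positivity
  have e :
      36961879 / 20000000 + 16019393 / 10000000 * s + 8706631 / 20000000 * s ^ 2 =
      (1 + 1 / 100 + (1 / 100) ^ 2 / 2) * (1 + u + 431 / 1000 * u ^ 2) -
      (4979 / 100000) := by
    rw [hs]
    ring
  rw [e] at h
  linarith

theorem ee_d_g0_0 (u : ℝ) (h1 : 0 ≤ u) (h2 : u ≤ 11 / 10) :
    1 * (1 + (u - 11 / 100 * u ^ 2 - 0) +
      (u - 11 / 100 * u ^ 2 - 0) ^ 2 / 2 +
      (u - 11 / 100 * u ^ 2 - 0) ^ 3 / 6 +
      (u - 11 / 100 * u ^ 2 - 0) ^ 4 / 24 +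
      (u - 11 / 100 * u ^ 2 - 0) ^ 5 / 100) ≤
      (1 + 1 / 100 + (1 / 100) ^ 2 / 2) * (1 + u + 431 / 1000 * u ^ 2) := by
  obtain ⟨s, hs⟩ : ∃ s, s = u - (0) := ⟨_, rfl⟩
  obtain ⟨t, ht⟩ : ∃ t, t = 11 / 10 - u := ⟨_, rfl⟩
  have hs0 : 0 ≤ s := by linarith
  have ht0 : 0 ≤ t := by linarith
  have h : 0 ≤
      100500000 / 25937424601 * t ^ 10 + 1115550000 / 25937424601 * s * t ^ 9 +
      6065961755 / 25937424601 * s ^ 2 * t ^ 8 + 59020982120 / 77812273803 * s ^ 3 * t ^ 7 +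
      40576531090 / 25937424601 * s ^ 4 * t ^ 6 +
      164428929875 / 77812273803 * s ^ 5 * t ^ 5 +
      9772625607847 / 5187484920200 * s ^ 6 * t ^ 4 +
      170021868084781 / 155624547606000 * s ^ 7 * t ^ 3 +
      81764803380033973 / 207499396808000000 * s ^ 8 * t ^ 2 +
      414139104199454719 / 5187484920200000000 * s ^ 9 * t +
      179810403969696385651 / 25937424601000000000000 * s ^ 10 := by
    positivity
  have e :
      100500000 / 25937424601 * t ^ 10 + 1115550000 / 25937424601 * s * t ^ 9 +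
      6065961755 / 25937424601 * s ^ 2 * t ^ 8 + 59020982120 / 77812273803 * s ^ 3 * t ^ 7 +
      40576531090 / 25937424601 * s ^ 4 * t ^ 6 +
      164428929875 / 77812273803 * s ^ 5 * t ^ 5 +
      9772625607847 / 5187484920200 * s ^ 6 * t ^ 4 +
      170021868084781 / 155624547606000 * s ^ 7 * t ^ 3 +
      81764803380033973 / 207499396808000000 * s ^ 8 * t ^ 2 +
      414139104199454719 / 5187484920200000000 * s ^ 9 * t +
      179810403969696385651 / 25937424601000000000000 * s ^ 10 =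
      (1 + 1 / 100 + (1 / 100) ^ 2 / 2) * (1 + u + 431 / 1000 * u ^ 2) -
      (1 * (1 + (u - 11 / 100 * u ^ 2 - 0) +
      (u - 11 / 100 * u ^ 2 - 0) ^ 2 / 2 +
      (u - 11 / 100 * u ^ 2 - 0) ^ 3 / 6 +
      (u - 11 / 100 * u ^ 2 - 0) ^ 4 / 24 +
      (u - 11 / 100 * u ^ 2 - 0) ^ 5 / 100)) := by
    rw [hs, ht]
    ring
  rw [e] at h
  linarith

theorem ee_d_g1_0 (u : ℝ) (h1 : 11 / 10 ≤ u) (h2 : u ≤ 123 / 80) :
    65747 / 25000 * (1 + (u - 11 / 100 * u ^ 2 - 9669 / 10000) +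
      (u - 11 / 100 * u ^ 2 - 9669 / 10000) ^ 2 / 2 +
      (u - 11 / 100 * u ^ 2 - 9669 / 10000) ^ 3 / 6 +
      (u - 11 / 100 * u ^ 2 - 9669 / 10000) ^ 4 / 24 +
      (u - 11 / 100 * u ^ 2 - 9669 / 10000) ^ 5 / 100) ≤
      (1 + 1 / 100 + (1 / 100) ^ 2 / 2) * (1 + u + 431 / 1000 * u ^ 2) := by
  obtain ⟨s, hs⟩ : ∃ s, s = u - (11 / 10) := ⟨_, rfl⟩
  obtain ⟨t, ht⟩ : ∃ t, t = 123 / 80 - u := ⟨_, rfl⟩
  have hs0 : 0 ≤ s := by linarith
  have ht0 : 0 ≤ t := by linarith
  have h : 0 ≤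
      38603542939828224 / 551709470703125 * t ^ 10 +
      72383638695575552 / 110341894140625 * s * t ^ 9 +
      37685089900567724032 / 13792736767578125 * s ^ 2 * t ^ 8 +
      34384720517451869323264 / 5172276287841796875 * s ^ 3 * t ^ 7 +
      321621030222548391355392 / 30787358856201171875 * s ^ 4 * t ^ 6 +
      3191267873344230560902935712 / 288631489276885986328125 * s ^ 5 * t ^ 5 +
      153271821348491680182255294 / 19242099285125732421875 * s ^ 6 * t ^ 4 +
      6221669036269292589366886487 / 1616336339950561523437500 * s ^ 7 * t ^ 3 +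
      2570270230238469378761855251 / 2155115119934082031250000 * s ^ 8 * t ^ 2 +
      59093022211864366877407711929 / 275854735351562500000000000 * s ^ 9 * t +
      376724565980428304181913482229 / 22068378828125000000000000000 * s ^ 10 := by
    positivity
  have e :
      38603542939828224 / 551709470703125 * t ^ 10 +
      72383638695575552 / 110341894140625 * s * t ^ 9 +
      37685089900567724032 / 13792736767578125 * s ^ 2 * t ^ 8 +
      34384720517451869323264 / 5172276287841796875 * s ^ 3 * t ^ 7 +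
      321621030222548391355392 / 30787358856201171875 * s ^ 4 * t ^ 6 +
      3191267873344230560902935712 / 288631489276885986328125 * s ^ 5 * t ^ 5 +
      153271821348491680182255294 / 19242099285125732421875 * s ^ 6 * t ^ 4 +
      6221669036269292589366886487 / 1616336339950561523437500 * s ^ 7 * t ^ 3 +
      2570270230238469378761855251 / 2155115119934082031250000 * s ^ 8 * t ^ 2 +
      59093022211864366877407711929 / 275854735351562500000000000 * s ^ 9 * t +
      376724565980428304181913482229 / 22068378828125000000000000000 * s ^ 10 =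
      (1 + 1 / 100 + (1 / 100) ^ 2 / 2) * (1 + u + 431 / 1000 * u ^ 2) -
      (65747 / 25000 * (1 + (u - 11 / 100 * u ^ 2 - 9669 / 10000) +
      (u - 11 / 100 * u ^ 2 - 9669 / 10000) ^ 2 / 2 +
      (u - 11 / 100 * u ^ 2 - 9669 / 10000) ^ 3 / 6 +
      (u - 11 / 100 * u ^ 2 - 9669 / 10000) ^ 4 / 24 +
      (u - 11 / 100 * u ^ 2 - 9669 / 10000) ^ 5 / 100)) := by
    rw [hs, ht]
    ring
  rw [e] at h
  linarith

theorem ee_d_g1_1 (u : ℝ) (h1 : 123 / 80 ≤ u) (h2 : u ≤ 79 / 40) :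
    65747 / 25000 * (1 + (u - 11 / 100 * u ^ 2 - 9669 / 10000) +
      (u - 11 / 100 * u ^ 2 - 9669 / 10000) ^ 2 / 2 +
      (u - 11 / 100 * u ^ 2 - 9669 / 10000) ^ 3 / 6 +
      (u - 11 / 100 * u ^ 2 - 9669 / 10000) ^ 4 / 24 +
      (u - 11 / 100 * u ^ 2 - 9669 / 10000) ^ 5 / 100) ≤
      (1 + 1 / 100 + (1 / 100) ^ 2 / 2) * (1 + u + 431 / 1000 * u ^ 2) := by
  obtain ⟨s, hs⟩ : ∃ s, s = u - (123 / 80) := ⟨_, rfl⟩
  obtain ⟨t, ht⟩ : ∃ t, t = 79 / 40 - u := ⟨_, rfl⟩
  have hs0 : 0 ≤ s := by linarith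
  have ht0 : 0 ≤ t := by linarith
  have h : 0 ≤
      376724565980428304181913482229 / 22068378828125000000000000000 * t ^ 10 +
      140352477132970836672282634513 / 1103418941406250000000000000 * s * t ^ 9 +
      90360370490343328877987193937 / 220683788281250000000000000 * s ^ 2 * t ^ 8 +
      160036131946322629216436646929 / 206891051513671875000000000 * s ^ 3 * t ^ 7 +
      62352531220652474610972535181 / 59111729003906250000000000 * s ^ 4 * t ^ 6 +
      95273876415985812931924529051 / 73889661254882812500000000 * s ^ 5 * t ^ 5 +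
      21845402536281095695583507333 / 14777932250976562500000000 * s ^ 6 * t ^ 4 +
      17266792082723454318279665921 / 12930690719604492187500000 * s ^ 7 * t ^ 3 +
      8260029462241154824271774027 / 10344552575683593750000000 * s ^ 8 * t ^ 2 +
      1175615797666077135119664113 / 4310230239868164062500000 * s ^ 9 * t +
      864852386133755748036989197 / 21551151199340820312500000 * s ^ 10 := by
    positivity
  have e :
      376724565980428304181913482229 / 22068378828125000000000000000 * t ^ 10 +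
      140352477132970836672282634513 / 1103418941406250000000000000 * s * t ^ 9 +
      90360370490343328877987193937 / 220683788281250000000000000 * s ^ 2 * t ^ 8 +
      160036131946322629216436646929 / 206891051513671875000000000 * s ^ 3 * t ^ 7 +
      62352531220652474610972535181 / 59111729003906250000000000 * s ^ 4 * t ^ 6 +
      95273876415985812931924529051 / 73889661254882812500000000 * s ^ 5 * t ^ 5 +
      21845402536281095695583507333 / 14777932250976562500000000 * s ^ 6 * t ^ 4 +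
      17266792082723454318279665921 / 12930690719604492187500000 * s ^ 7 * t ^ 3 +
      8260029462241154824271774027 / 10344552575683593750000000 * s ^ 8 * t ^ 2 +
      1175615797666077135119664113 / 4310230239868164062500000 * s ^ 9 * t +
      864852386133755748036989197 / 21551151199340820312500000 * s ^ 10 =
      (1 + 1 / 100 + (1 / 100) ^ 2 / 2) * (1 + u + 431 / 1000 * u ^ 2) -
      (65747 / 25000 * (1 + (u - 11 / 100 * u ^ 2 - 9669 / 10000) +
      (u - 11 / 100 * u ^ 2 - 9669 / 10000) ^ 2 / 2 +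
      (u - 11 / 100 * u ^ 2 - 9669 / 10000) ^ 3 / 6 +
      (u - 11 / 100 * u ^ 2 - 9669 / 10000) ^ 4 / 24 +
      (u - 11 / 100 * u ^ 2 - 9669 / 10000) ^ 5 / 100)) := by
    rw [hs, ht]
    ring
  rw [e] at h
  linarith

theorem ee_d_g1_2 (u : ℝ) (h1 : 79 / 40 ≤ u) (h2 : u ≤ 57 / 20) :
    65747 / 25000 * (1 + (u - 11 / 100 * u ^ 2 - 9669 / 10000) +
      (u - 11 / 100 * u ^ 2 - 9669 / 10000) ^ 2 / 2 +
      (u - 11 / 100 * u ^ 2 - 9669 / 10000) ^ 3 / 6 +
      (u - 11 / 100 * u ^ 2 - 9669 / 10000) ^ 4 / 24 +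
      (u - 11 / 100 * u ^ 2 - 9669 / 10000) ^ 5 / 100) ≤
      (1 + 1 / 100 + (1 / 100) ^ 2 / 2) * (1 + u + 431 / 1000 * u ^ 2) := by
  obtain ⟨s, hs⟩ : ∃ s, s = u - (79 / 40) := ⟨_, rfl⟩
  obtain ⟨t, ht⟩ : ∃ t, t = 57 / 20 - u := ⟨_, rfl⟩
  have hs0 : 0 ≤ s := by linarith
  have ht0 : 0 ≤ t := by linarith
  have h : 0 ≤
      864852386133755748036989197 / 22068378828125000000000000000 * t ^ 10 +
      709470680367595054495651739 / 1103418941406250000000000000 * s * t ^ 9 +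
      610095179198039250049616587 / 132410272968750000000000000 * s ^ 2 * t ^ 8 +
      3889767606067471373088367487 / 206891051513671875000000000 * s ^ 3 * t ^ 7 +
      2864086456586533940208674093 / 59111729003906250000000000 * s ^ 4 * t ^ 6 +
      6116028354747119704308671393 / 73889661254882812500000000 * s ^ 5 * t ^ 5 +
      1409321249057281234890238889 / 14777932250976562500000000 * s ^ 6 * t ^ 4 +
      949968788802555838351449623 / 12930690719604492187500000 * s ^ 7 * t ^ 3 +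
      25057726447758428337266093 / 689636838378906250000000 * s ^ 8 * t ^ 2 +
      45025096595347867220967499 / 4310230239868164062500000 * s ^ 9 * t +
      28633163455653815340775321 / 21551151199340820312500000 * s ^ 10 := by
    positivity
  have e :
      864852386133755748036989197 / 22068378828125000000000000000 * t ^ 10 +
      709470680367595054495651739 / 1103418941406250000000000000 * s * t ^ 9 +
      610095179198039250049616587 / 132410272968750000000000000 * s ^ 2 * t ^ 8 +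
      3889767606067471373088367487 / 206891051513671875000000000 * s ^ 3 * t ^ 7 +
      2864086456586533940208674093 / 59111729003906250000000000 * s ^ 4 * t ^ 6 +
      6116028354747119704308671393 / 73889661254882812500000000 * s ^ 5 * t ^ 5 +
      1409321249057281234890238889 / 14777932250976562500000000 * s ^ 6 * t ^ 4 +
      949968788802555838351449623 / 12930690719604492187500000 * s ^ 7 * t ^ 3 +
      25057726447758428337266093 / 689636838378906250000000 * s ^ 8 * t ^ 2 +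
      45025096595347867220967499 / 4310230239868164062500000 * s ^ 9 * t +
      28633163455653815340775321 / 21551151199340820312500000 * s ^ 10 =
      (1 + 1 / 100 + (1 / 100) ^ 2 / 2) * (1 + u + 431 / 1000 * u ^ 2) -
      (65747 / 25000 * (1 + (u - 11 / 100 * u ^ 2 - 9669 / 10000) +
      (u - 11 / 100 * u ^ 2 - 9669 / 10000) ^ 2 / 2 +
      (u - 11 / 100 * u ^ 2 - 9669 / 10000) ^ 3 / 6 +
      (u - 11 / 100 * u ^ 2 - 9669 / 10000) ^ 4 / 24 +
      (u - 11 / 100 * u ^ 2 - 9669 / 10000) ^ 5 / 100)) := by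
    rw [hs, ht]
    ring
  rw [e] at h
  linarith

theorem ee_d_g2_0 (u : ℝ) (h1 : 57 / 20 ≤ u) (h2 : u ≤ 9 / 2) :
    141503 / 20000 * (1 + (u - 11 / 100 * u ^ 2 - 78261 / 40000) +
      (u - 11 / 100 * u ^ 2 - 78261 / 40000) ^ 2 / 2 +
      (u - 11 / 100 * u ^ 2 - 78261 / 40000) ^ 3 / 6 +
      (u - 11 / 100 * u ^ 2 - 78261 / 40000) ^ 4 / 24 +
      (u - 11 / 100 * u ^ 2 - 78261 / 40000) ^ 5 / 100) ≤
      (1 + 1 / 100 + (1 / 100) ^ 2 / 2) * (1 + u + 431 / 1000 * u ^ 2) := by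
  obtain ⟨s, hs⟩ : ∃ s, s = u - (57 / 20) := ⟨_, rfl⟩
  obtain ⟨t, ht⟩ : ∃ t, t = 9 / 2 - u := ⟨_, rfl⟩
  have hs0 : 0 ≤ s := by linarith
  have ht0 : 0 ≤ t := by linarith
  have h : 0 ≤
      1193038557440 / 510526328421483 * t ^ 10 +
      16731152414720 / 510526328421483 * s * t ^ 9 +
      863313642218768 / 4254386070179025 * s ^ 2 * t ^ 8 +
      3886844174114347319 / 5317982587723781250 * s ^ 3 * t ^ 7 +
      721872130770509129329571 / 425438607017902500000000 * s ^ 4 * t ^ 6 +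
      282329760432474651705628148317 / 106359651754475625000000000000 * s ^ 5 * t ^ 5 +
      40214436748394767282311057869 / 14181286900596750000000000000 * s ^ 6 * t ^ 4 +
      86951387194733695028284566197 / 42543860701790250000000000000 * s ^ 7 * t ^ 3 +
      80976165375300180024704864587 / 85087721403580500000000000000 * s ^ 8 * t ^ 2 +
      264147752599116741437195881831 / 1021052656842966000000000000000 * s ^ 9 * t +
      318563996478877797466728873301 / 10210526568429660000000000000000 * s ^ 10 := by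
    positivity
  have e :
      1193038557440 / 510526328421483 * t ^ 10 +
      16731152414720 / 510526328421483 * s * t ^ 9 +
      863313642218768 / 4254386070179025 * s ^ 2 * t ^ 8 +
      3886844174114347319 / 5317982587723781250 * s ^ 3 * t ^ 7 +
      721872130770509129329571 / 425438607017902500000000 * s ^ 4 * t ^ 6 +
      282329760432474651705628148317 / 106359651754475625000000000000 * s ^ 5 * t ^ 5 +
      40214436748394767282311057869 / 14181286900596750000000000000 * s ^ 6 * t ^ 4 +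
      86951387194733695028284566197 / 42543860701790250000000000000 * s ^ 7 * t ^ 3 +
      80976165375300180024704864587 / 85087721403580500000000000000 * s ^ 8 * t ^ 2 +
      264147752599116741437195881831 / 1021052656842966000000000000000 * s ^ 9 * t +
      318563996478877797466728873301 / 10210526568429660000000000000000 * s ^ 10 =
      (1 + 1 / 100 + (1 / 100) ^ 2 / 2) * (1 + u + 431 / 1000 * u ^ 2) -
      (141503 / 20000 * (1 + (u - 11 / 100 * u ^ 2 - 78261 / 40000) +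
      (u - 11 / 100 * u ^ 2 - 78261 / 40000) ^ 2 / 2 +
      (u - 11 / 100 * u ^ 2 - 78261 / 40000) ^ 3 / 6 +
      (u - 11 / 100 * u ^ 2 - 78261 / 40000) ^ 4 / 24 +
      (u - 11 / 100 * u ^ 2 - 78261 / 40000) ^ 5 / 100)) := by
    rw [hs, ht]
    ring
  rw [e] at h
  linarith

/-- Rule E: `(c, μ, δ) = (431 / 1000, 11 / 100, 1 / 100)` -/
theorem expEd_d : ExpEd (431 / 1000) (11 / 100) (1 / 100) := by
  have hde : (1 + 1 / 100 + (1 / 100) ^ 2 / 2) ≤ Real.exp (1 / 100) :=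
    Real.quadratic_le_exp_of_nonneg (by norm_num)
  have hq : ∀ u : ℝ, 0 ≤ 1 + u + 431 / 1000 * u ^ 2 := fun u => by
    nlinarith [sq_nonneg (u + 2), sq_nonneg u]
  have hR : ∀ (u x y : ℝ), x ≤ y →
      y ≤ (1 + 1 / 100 + (1 / 100) ^ 2 / 2) * (1 + u + 431 / 1000 * u ^ 2) →
      x ≤ Real.exp (1 / 100) * (1 + u + 431 / 1000 * u ^ 2) := fun u x y h1 h2 =>
    (h1.trans h2).trans (mul_le_mul_of_nonneg_right hde (hq u))
  have hE1 : Real.exp (9669 / 10000) ≤ 65747 / 25000 := by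
    have e : Real.exp (9669 / 10000) = Real.exp (0) * Real.exp (9669 / 10000) := by
      rw [← Real.exp_add]
      norm_num
    have h := ev_exp_p (u := 9669 / 10000) (by norm_num) (by norm_num)
    have h2 := Real.exp_zero.le
    rw [e]
    refine (mul_le_mul h2 h (Real.exp_nonneg _) (by norm_num)).trans ?_
    norm_num
  have hE2 : Real.exp (78261 / 40000) ≤ 141503 / 20000 := by
    have e : Real.exp (78261 / 40000) = Real.exp (9669 / 10000) * Real.exp (7917 / 8000) := by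
      rw [← Real.exp_add]
      norm_num
    have h := ev_exp_p (u := 7917 / 8000) (by norm_num) (by norm_num)
    have h2 := hE1
    rw [e]
    refine (mul_le_mul h2 h (Real.exp_nonneg _) (by norm_num)).trans ?_
    norm_num
  have hE3 : Real.exp (909 / 400) ≤ 242607 / 25000 := by
    have e : Real.exp (909 / 400) = Real.exp (78261 / 40000) * Real.exp (12639 / 40000) := by
      rw [← Real.exp_add]
      norm_num
    have h := ev_exp_p (u := 12639 / 40000) (by norm_num) (by norm_num)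
    have h2 := hE2
    rw [e]
    refine (mul_le_mul h2 h (Real.exp_nonneg _) (by norm_num)).trans ?_
    norm_num
  have hEm : Real.exp (25 / 11) ≤ 19413 / 2000 := by
    have e : Real.exp (25 / 11) = Real.exp (909 / 400) * Real.exp (1 / 4400) := by
      rw [← Real.exp_add]
      norm_num
    have h := ev_exp_p (u := 1 / 4400) (by norm_num) (by norm_num)
    rw [e]
    refine (mul_le_mul hE3 h (Real.exp_nonneg _) (by norm_num)).trans ?_
    norm_num
  refine ExpEd.of (by norm_num) (by norm_num) (by norm_num) ?_ ?_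
  · intro u h1
    rcases le_total u (-3) with h3 | h3
    · exact hR u _ _ (ev_exp_n3 h3) (ee_d_d u h3)
    rcases le_total u (-2) with h4 | h4
    · refine hR u _ _ (ev_exp_n2 h4) ?_
      exact ee_d_c0 u (by linarith) (by linarith)
    rcases le_total u (-1) with h5 | h5
    · refine hR u _ _ (ev_exp_n1 h5) ?_
      exact ee_d_b0 u (by linarith) (by linarith)
    refine hR u _ _ (ev_exp_n0 h1) ?_
    rcases le_total u (-1 / 2) with hh | hh
    · exact ee_d_a0 u (by linarith) (by linarith)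
    exact ee_d_a1 u (by linarith) (by linarith)
  · intro u h1
    rcases le_total u (11 / 10) with k1 | k1
    · have hy0 : 0 ≤ (u - 11 / 100 * u ^ 2 - 0) := by
        nlinarith [mul_nonneg (sub_nonneg.2 h1)
          (show 0 ≤ 1 -
            11 / 100 * (u + 0) by linarith)]
      have hy1 : (u - 11 / 100 * u ^ 2 - 0) ≤ 1 := by
        nlinarith [mul_nonneg (sub_nonneg.2 k1)
          (show 0 ≤ 1 - 11 / 100 * (u + 11 / 10) by linarith)]
      refine hR u _ _
        (exp_split (x := 0) Real.exp_zero.le hy0 hy1) ?_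
      exact ee_d_g0_0 u (by linarith) (by linarith)
    rcases le_total u (57 / 20) with k2 | k2
    · have hy0 : 0 ≤ (u - 11 / 100 * u ^ 2 - 9669 / 10000) := by
        nlinarith [mul_nonneg (sub_nonneg.2 k1)
          (show 0 ≤ 1 -
            11 / 100 * (u + 11 / 10) by linarith)]
      have hy1 : (u - 11 / 100 * u ^ 2 - 9669 / 10000) ≤ 1 := by
        nlinarith [mul_nonneg (sub_nonneg.2 k2)
          (show 0 ≤ 1 - 11 / 100 * (u + 57 / 20) by linarith)]
      refine hR u _ _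
        (exp_split (x := 9669 / 10000) hE1 hy0 hy1) ?_
      rcases le_total u (123 / 80) with hh | hh
      · exact ee_d_g1_0 u (by linarith) (by linarith)
      rcases le_total u (79 / 40) with hh | hh
      · exact ee_d_g1_1 u (by linarith) (by linarith)
      exact ee_d_g1_2 u (by linarith) (by linarith)
    rcases le_total u (9 / 2) with k3 | k3
    · have hy0 : 0 ≤ (u - 11 / 100 * u ^ 2 - 78261 / 40000) := by
        nlinarith [mul_nonneg (sub_nonneg.2 k2)
          (show 0 ≤ 1 -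
            11 / 100 * (u + 57 / 20) by linarith)]
      have hy1 : (u - 11 / 100 * u ^ 2 - 78261 / 40000) ≤ 1 := by
        nlinarith [mul_nonneg (sub_nonneg.2 k3)
          (show 0 ≤ 1 - 11 / 100 * (u + 9 / 2) by linarith)]
      refine hR u _ _
        (exp_split (x := 78261 / 40000) hE2 hy0 hy1) ?_
      exact ee_d_g2_0 u (by linarith) (by linarith)
    have h2 : u - 11 / 100 * u ^ 2 ≤ 25 / 11 := by
      nlinarith [sq_nonneg (u - 50 / 11)]
    refine ((Real.exp_le_exp.2 h2).trans hEm).trans ?_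
    have h3 : 19413 / 2000 ≤ 1 + u + 431 / 1000 * u ^ 2 := by nlinarith
    have h4 : 1 ≤ Real.exp (1 / 100) := Real.one_le_exp (by norm_num)
    nlinarith [mul_nonneg (sub_nonneg.2 h4) (hq u)]

theorem ee_e_a0 (u : ℝ) (h1 : -1 ≤ u) (h2 : u ≤ -1 / 2) :
    1 + u + u ^ 2 / 2 + u ^ 3 / 6 + u ^ 4 / 24 ≤
      (1 + 1 / 50 + (1 / 50) ^ 2 / 2) * (1 + u + 209 / 500 * u ^ 2) := by
  obtain ⟨s, hs⟩ : ∃ s, s = u - (-1) := ⟨_, rfl⟩
  obtain ⟨t, ht⟩ : ∃ t, t = -1 / 2 - u := ⟨_, rfl⟩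
  have hs0 : 0 ≤ s := by linarith
  have ht0 : 0 ≤ t := by linarith
  have h : 0 ≤
      128609 / 156250 * t ^ 4 + 920731 / 468750 * s * t ^ 3 +
      1037417 / 625000 * s ^ 2 * t ^ 2 + 224827 / 312500 * s ^ 3 * t + 149101 / 937500 * s ^ 4 := by
    positivity
  have e :
      128609 / 156250 * t ^ 4 + 920731 / 468750 * s * t ^ 3 +
      1037417 / 625000 * s ^ 2 * t ^ 2 + 224827 / 312500 * s ^ 3 * t + 149101 / 937500 * s ^ 4 =
      (1 + 1 / 50 + (1 / 50) ^ 2 / 2) * (1 + u + 209 / 500 * u ^ 2) -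
      (1 + u + u ^ 2 / 2 + u ^ 3 / 6 + u ^ 4 / 24) := by
    rw [hs, ht]
    ring
  rw [e] at h
  linarith

theorem ee_e_a1 (u : ℝ) (h1 : -1 / 2 ≤ u) (h2 : u ≤ 0) :
    1 + u + u ^ 2 / 2 + u ^ 3 / 6 + u ^ 4 / 24 ≤
      (1 + 1 / 50 + (1 / 50) ^ 2 / 2) * (1 + u + 209 / 500 * u ^ 2) := by
  obtain ⟨s, hs⟩ : ∃ s, s = u - (-1 / 2) := ⟨_, rfl⟩
  obtain ⟨t, ht⟩ : ∃ t, t = 0 - u := ⟨_, rfl⟩
  have hs0 : 0 ≤ s := by linarith
  have ht0 : 0 ≤ t := by linarith
  have h : 0 ≤
      149101 / 937500 * t ^ 4 + 518327 / 937500 * s * t ^ 3 +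
      725109 / 625000 * s ^ 2 * t ^ 2 + 707 / 625 * s ^ 3 * t + 202 / 625 * s ^ 4 := by
    positivity
  have e :
      149101 / 937500 * t ^ 4 + 518327 / 937500 * s * t ^ 3 +
      725109 / 625000 * s ^ 2 * t ^ 2 + 707 / 625 * s ^ 3 * t + 202 / 625 * s ^ 4 =
      (1 + 1 / 50 + (1 / 50) ^ 2 / 2) * (1 + u + 209 / 500 * u ^ 2) -
      (1 + u + u ^ 2 / 2 + u ^ 3 / 6 + u ^ 4 / 24) := by
    rw [hs, ht]
    ring
  rw [e] at h
  linarith

theorem ee_e_b0 (u : ℝ) (h1 : -2 ≤ u) (h2 : u ≤ -1) :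
    36788 / 100000 *
      (1 + (u + 1) + (u + 1) ^ 2 / 2 + (u + 1) ^ 3 / 6 + (u + 1) ^ 4 / 24) ≤
      (1 + 1 / 50 + (1 / 50) ^ 2 / 2) * (1 + u + 209 / 500 * u ^ 2) := by
  obtain ⟨s, hs⟩ : ∃ s, s = u - (-2) := ⟨_, rfl⟩
  obtain ⟨t, ht⟩ : ∃ t, t = -1 - u := ⟨_, rfl⟩
  have hs0 : 0 ≤ s := by linarith
  have ht0 : 0 ≤ t := by linarith
  have h : 0 ≤
      2738097 / 5000000 * t ^ 4 + 5183537 / 3750000 * s * t ^ 3 +
      2988967 / 2500000 * s ^ 2 * t ^ 2 + 543527 / 1250000 * s ^ 3 * t +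
      146409 / 2500000 * s ^ 4 := by
    positivity
  have e :
      2738097 / 5000000 * t ^ 4 + 5183537 / 3750000 * s * t ^ 3 +
      2988967 / 2500000 * s ^ 2 * t ^ 2 + 543527 / 1250000 * s ^ 3 * t +
      146409 / 2500000 * s ^ 4 =
      (1 + 1 / 50 + (1 / 50) ^ 2 / 2) * (1 + u + 209 / 500 * u ^ 2) -
      (36788 / 100000 *
      (1 + (u + 1) + (u + 1) ^ 2 / 2 + (u + 1) ^ 3 / 6 + (u + 1) ^ 4 / 24)) := by
    rw [hs, ht]
    ring
  rw [e] at h
  linarith

theorem ee_e_c0 (u : ℝ) (h1 : -3 ≤ u) (h2 : u ≤ -2) :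
    13534 / 100000 *
      (1 + (u + 2) + (u + 2) ^ 2 / 2 + (u + 2) ^ 3 / 6 + (u + 2) ^ 4 / 24) ≤
      (1 + 1 / 50 + (1 / 50) ^ 2 / 2) * (1 + u + 209 / 500 * u ^ 2) := by
  obtain ⟨s, hs⟩ : ∃ s, s = u - (-3) := ⟨_, rfl⟩
  obtain ⟨t, ht⟩ : ∃ t, t = -2 - u := ⟨_, rfl⟩
  have hs0 : 0 ≤ s := by linarith
  have ht0 : 0 ≤ t := by linarith
  have h : 0 ≤
      17468399 / 10000000 * t ^ 4 + 8105677 / 1500000 * s * t ^ 3 +
      3826827 / 625000 * s ^ 2 * t ^ 2 + 755463 / 250000 * s ^ 3 * t +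
      687793 / 1250000 * s ^ 4 := by
    positivity
  have e :
      17468399 / 10000000 * t ^ 4 + 8105677 / 1500000 * s * t ^ 3 +
      3826827 / 625000 * s ^ 2 * t ^ 2 + 755463 / 250000 * s ^ 3 * t +
      687793 / 1250000 * s ^ 4 =
      (1 + 1 / 50 + (1 / 50) ^ 2 / 2) * (1 + u + 209 / 500 * u ^ 2) -
      (13534 / 100000 *
      (1 + (u + 2) + (u + 2) ^ 2 / 2 + (u + 2) ^ 3 / 6 + (u + 2) ^ 4 / 24)) := by
    rw [hs, ht]
    ring
  rw [e] at h
  linarith

theorem ee_e_d (u : ℝ) (h2 : u ≤ -3) :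
    4979 / 100000 ≤
      (1 + 1 / 50 + (1 / 50) ^ 2 / 2) * (1 + u + 209 / 500 * u ^ 2) := by
  obtain ⟨s, hs⟩ : ∃ s, s = -3 - u := ⟨_, rfl⟩
  have hs0 : 0 ≤ s := by linarith
  have h : 0 ≤
      2184753 / 1250000 + 1923077 / 1250000 * s + 1066109 / 2500000 * s ^ 2 := by
    positivity
  have e :
      2184753 / 1250000 + 1923077 / 1250000 * s + 1066109 / 2500000 * s ^ 2 =
      (1 + 1 / 50 + (1 / 50) ^ 2 / 2) * (1 + u + 209 / 500 * u ^ 2) -
      (4979 / 100000) := by
    rw [hs]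
    ring
  rw [e] at h
  linarith

theorem ee_e_g0_0 (u : ℝ) (h1 : 0 ≤ u) (h2 : u ≤ 11 / 10) :
    1 * (1 + (u - 11 / 100 * u ^ 2 - 0) +
      (u - 11 / 100 * u ^ 2 - 0) ^ 2 / 2 +
      (u - 11 / 100 * u ^ 2 - 0) ^ 3 / 6 +
      (u - 11 / 100 * u ^ 2 - 0) ^ 4 / 24 +
      (u - 11 / 100 * u ^ 2 - 0) ^ 5 / 100) ≤
      (1 + 1 / 50 + (1 / 50) ^ 2 / 2) * (1 + u + 209 / 500 * u ^ 2) := by
  obtain ⟨s, hs⟩ : ∃ s, s = u - (0) := ⟨_, rfl⟩
  obtain ⟨t, ht⟩ : ∃ t, t = 11 / 10 - u := ⟨_, rfl⟩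
  have hs0 : 0 ≤ s := by linarith
  have ht0 : 0 ≤ t := by linarith
  have h : 0 ≤
      202000000 / 25937424601 * t ^ 10 + 2242200000 / 25937424601 * s * t ^ 9 +
      11530767560 / 25937424601 * s ^ 2 * t ^ 8 +
      105038121440 / 77812273803 * s ^ 3 * t ^ 7 +
      68258893630 / 25937424601 * s ^ 4 * t ^ 6 +
      265299205115 / 77812273803 * s ^ 5 * t ^ 5 +
      15343586877847 / 5187484920200 * s ^ 6 * t ^ 4 +
      263238618564781 / 155624547606000 * s ^ 7 * t ^ 3 +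
      126370103700033973 / 207499396808000000 * s ^ 8 * t ^ 2 +
      646038392199454719 / 5187484920200000000 * s ^ 9 * t +
      285416208969696385651 / 25937424601000000000000 * s ^ 10 := by
    positivity
  have e :
      202000000 / 25937424601 * t ^ 10 + 2242200000 / 25937424601 * s * t ^ 9 +
      11530767560 / 25937424601 * s ^ 2 * t ^ 8 +
      105038121440 / 77812273803 * s ^ 3 * t ^ 7 +
      68258893630 / 25937424601 * s ^ 4 * t ^ 6 +
      265299205115 / 77812273803 * s ^ 5 * t ^ 5 +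
      15343586877847 / 5187484920200 * s ^ 6 * t ^ 4 +
      263238618564781 / 155624547606000 * s ^ 7 * t ^ 3 +
      126370103700033973 / 207499396808000000 * s ^ 8 * t ^ 2 +
      646038392199454719 / 5187484920200000000 * s ^ 9 * t +
      285416208969696385651 / 25937424601000000000000 * s ^ 10 =
      (1 + 1 / 50 + (1 / 50) ^ 2 / 2) * (1 + u + 209 / 500 * u ^ 2) -
      (1 * (1 + (u - 11 / 100 * u ^ 2 - 0) +
      (u - 11 / 100 * u ^ 2 - 0) ^ 2 / 2 +
      (u - 11 / 100 * u ^ 2 - 0) ^ 3 / 6 +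
      (u - 11 / 100 * u ^ 2 - 0) ^ 4 / 24 +
      (u - 11 / 100 * u ^ 2 - 0) ^ 5 / 100)) := by
    rw [hs, ht]
    ring
  rw [e] at h
  linarith

theorem ee_e_g1_0 (u : ℝ) (h1 : 11 / 10 ≤ u) (h2 : u ≤ 79 / 40) :
    65747 / 25000 * (1 + (u - 11 / 100 * u ^ 2 - 9669 / 10000) +
      (u - 11 / 100 * u ^ 2 - 9669 / 10000) ^ 2 / 2 +
      (u - 11 / 100 * u ^ 2 - 9669 / 10000) ^ 3 / 6 +
      (u - 11 / 100 * u ^ 2 - 9669 / 10000) ^ 4 / 24 +
      (u - 11 / 100 * u ^ 2 - 9669 / 10000) ^ 5 / 100) ≤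
      (1 + 1 / 50 + (1 / 50) ^ 2 / 2) * (1 + u + 209 / 500 * u ^ 2) := by
  obtain ⟨s, hs⟩ : ∃ s, s = u - (11 / 10) := ⟨_, rfl⟩
  obtain ⟨t, ht⟩ : ∃ t, t = 79 / 40 - u := ⟨_, rfl⟩
  have hs0 : 0 ≤ s := by linarith
  have ht0 : 0 ≤ t := by linarith
  have h : 0 ≤
      59845914918912 / 551709470703125 * t ^ 10 +
      106819938680832 / 110341894140625 * s * t ^ 9 +
      51248703306268672 / 13792736767578125 * s ^ 2 * t ^ 8 +
      41187987266378713088 / 5172276287841796875 * s ^ 3 * t ^ 7 +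
      952569796723240708784 / 92362076568603515625 * s ^ 4 * t ^ 6 +
      2334987132625287338516741 / 288631489276885986328125 * s ^ 5 * t ^ 5 +
      1647131892231490006449013 / 461810382843017578125000 * s ^ 6 * t ^ 4 +
      8997654774280321193897063 / 12930690719604492187500000 * s ^ 7 * t ^ 3 +
      1148684176726980511515071 / 25861381439208984375000000 * s ^ 8 * t ^ 2 +
      29696748173960346770668729 / 551709470703125000000000000 * s ^ 9 * t +
      489687834310395748036989197 / 22068378828125000000000000000 * s ^ 10 := by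
    positivity
  have e :
      59845914918912 / 551709470703125 * t ^ 10 +
      106819938680832 / 110341894140625 * s * t ^ 9 +
      51248703306268672 / 13792736767578125 * s ^ 2 * t ^ 8 +
      41187987266378713088 / 5172276287841796875 * s ^ 3 * t ^ 7 +
      952569796723240708784 / 92362076568603515625 * s ^ 4 * t ^ 6 +
      2334987132625287338516741 / 288631489276885986328125 * s ^ 5 * t ^ 5 +
      1647131892231490006449013 / 461810382843017578125000 * s ^ 6 * t ^ 4 +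
      8997654774280321193897063 / 12930690719604492187500000 * s ^ 7 * t ^ 3 +
      1148684176726980511515071 / 25861381439208984375000000 * s ^ 8 * t ^ 2 +
      29696748173960346770668729 / 551709470703125000000000000 * s ^ 9 * t +
      489687834310395748036989197 / 22068378828125000000000000000 * s ^ 10 =
      (1 + 1 / 50 + (1 / 50) ^ 2 / 2) * (1 + u + 209 / 500 * u ^ 2) -
      (65747 / 25000 * (1 + (u - 11 / 100 * u ^ 2 - 9669 / 10000) +
      (u - 11 / 100 * u ^ 2 - 9669 / 10000) ^ 2 / 2 +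
      (u - 11 / 100 * u ^ 2 - 9669 / 10000) ^ 3 / 6 +
      (u - 11 / 100 * u ^ 2 - 9669 / 10000) ^ 4 / 24 +
      (u - 11 / 100 * u ^ 2 - 9669 / 10000) ^ 5 / 100)) := by
    rw [hs, ht]
    ring
  rw [e] at h
  linarith

theorem ee_e_g1_1 (u : ℝ) (h1 : 79 / 40 ≤ u) (h2 : u ≤ 57 / 20) :
    65747 / 25000 * (1 + (u - 11 / 100 * u ^ 2 - 9669 / 10000) +
      (u - 11 / 100 * u ^ 2 - 9669 / 10000) ^ 2 / 2 +
      (u - 11 / 100 * u ^ 2 - 9669 / 10000) ^ 3 / 6 +
      (u - 11 / 100 * u ^ 2 - 9669 / 10000) ^ 4 / 24 +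
      (u - 11 / 100 * u ^ 2 - 9669 / 10000) ^ 5 / 100) ≤
      (1 + 1 / 50 + (1 / 50) ^ 2 / 2) * (1 + u + 209 / 500 * u ^ 2) := by
  obtain ⟨s, hs⟩ : ∃ s, s = u - (79 / 40) := ⟨_, rfl⟩
  obtain ⟨t, ht⟩ : ∃ t, t = 57 / 20 - u := ⟨_, rfl⟩
  have hs0 : 0 ≤ s := by linarith
  have ht0 : 0 ≤ t := by linarith
  have h : 0 ≤
      489687834310395748036989197 / 22068378828125000000000000000 * t ^ 10 +
      430294337962475054495651739 / 1103418941406250000000000000 * s * t ^ 9 +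
      406454171928560850049616587 / 132410272968750000000000000 * s ^ 2 * t ^ 8 +
      2806635205632271373088367487 / 206891051513671875000000000 * s ^ 3 * t ^ 7 +
      2198070766162213940208674093 / 59111729003906250000000000 * s ^ 4 * t ^ 6 +
      4919627501099759704308671393 / 73889661254882812500000000 * s ^ 5 * t ^ 5 +
      1175241039997441234890238889 / 14777932250976562500000000 * s ^ 6 * t ^ 4 +
      814696727321595838351449623 / 12930690719604492187500000 * s ^ 7 * t ^ 3 +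
      21969807607950428337266093 / 689636838378906250000000 * s ^ 8 * t ^ 2 +
      40180325871507867220967499 / 4310230239868164062500000 * s ^ 9 * t +
      25920392987813815340775321 / 21551151199340820312500000 * s ^ 10 := by
    positivity
  have e :
      489687834310395748036989197 / 22068378828125000000000000000 * t ^ 10 +
      430294337962475054495651739 / 1103418941406250000000000000 * s * t ^ 9 +
      406454171928560850049616587 / 132410272968750000000000000 * s ^ 2 * t ^ 8 +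
      2806635205632271373088367487 / 206891051513671875000000000 * s ^ 3 * t ^ 7 +
      2198070766162213940208674093 / 59111729003906250000000000 * s ^ 4 * t ^ 6 +
      4919627501099759704308671393 / 73889661254882812500000000 * s ^ 5 * t ^ 5 +
      1175241039997441234890238889 / 14777932250976562500000000 * s ^ 6 * t ^ 4 +
      814696727321595838351449623 / 12930690719604492187500000 * s ^ 7 * t ^ 3 +
      21969807607950428337266093 / 689636838378906250000000 * s ^ 8 * t ^ 2 +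
      40180325871507867220967499 / 4310230239868164062500000 * s ^ 9 * t +
      25920392987813815340775321 / 21551151199340820312500000 * s ^ 10 =
      (1 + 1 / 50 + (1 / 50) ^ 2 / 2) * (1 + u + 209 / 500 * u ^ 2) -
      (65747 / 25000 * (1 + (u - 11 / 100 * u ^ 2 - 9669 / 10000) +
      (u - 11 / 100 * u ^ 2 - 9669 / 10000) ^ 2 / 2 +
      (u - 11 / 100 * u ^ 2 - 9669 / 10000) ^ 3 / 6 +
      (u - 11 / 100 * u ^ 2 - 9669 / 10000) ^ 4 / 24 +
      (u - 11 / 100 * u ^ 2 - 9669 / 10000) ^ 5 / 100)) := by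
    rw [hs, ht]
    ring
  rw [e] at h
  linarith

theorem ee_e_g2_0 (u : ℝ) (h1 : 57 / 20 ≤ u) (h2 : u ≤ 9 / 2) :
    141503 / 20000 * (1 + (u - 11 / 100 * u ^ 2 - 78261 / 40000) +
      (u - 11 / 100 * u ^ 2 - 78261 / 40000) ^ 2 / 2 +
      (u - 11 / 100 * u ^ 2 - 78261 / 40000) ^ 3 / 6 +
      (u - 11 / 100 * u ^ 2 - 78261 / 40000) ^ 4 / 24 +
      (u - 11 / 100 * u ^ 2 - 78261 / 40000) ^ 5 / 100) ≤
      (1 + 1 / 50 + (1 / 50) ^ 2 / 2) * (1 + u + 209 / 500 * u ^ 2) := by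
  obtain ⟨s, hs⟩ : ∃ s, s = u - (57 / 20) := ⟨_, rfl⟩
  obtain ⟨t, ht⟩ : ∃ t, t = 9 / 2 - u := ⟨_, rfl⟩
  have hs0 : 0 ≤ s := by linarith
  have ht0 : 0 ≤ t := by linarith
  have h : 0 ≤
      3240019363840 / 1531578985264449 * t ^ 10 +
      46118014981120 / 1531578985264449 * s * t ^ 9 +
      803126341354768 / 4254386070179025 * s ^ 2 * t ^ 8 +
      10959333959463041957 / 15953947763171343750 * s ^ 3 * t ^ 7 +
      2052579419927527387988713 / 1276315821053707500000000 * s ^ 4 * t ^ 6 +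
      269442786237274651705628148317 / 106359651754475625000000000000 * s ^ 5 * t ^ 5 +
      347363319984832905540799520821 / 127631582105370750000000000000 * s ^ 6 * t ^ 4 +
      251515529067081085084853698591 / 127631582105370750000000000000 * s ^ 7 * t ^ 3 +
      78374027852740180024704864587 / 85087721403580500000000000000 * s ^ 8 * t ^ 2 +
      769376197214950224311587645493 / 3063157970528898000000000000000 * s ^ 9 * t +
      930264843196633392400186619903 / 30631579705288980000000000000000 * s ^ 10 := by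
    positivity
  have e :
      3240019363840 / 1531578985264449 * t ^ 10 +
      46118014981120 / 1531578985264449 * s * t ^ 9 +
      803126341354768 / 4254386070179025 * s ^ 2 * t ^ 8 +
      10959333959463041957 / 15953947763171343750 * s ^ 3 * t ^ 7 +
      2052579419927527387988713 / 1276315821053707500000000 * s ^ 4 * t ^ 6 +
      269442786237274651705628148317 / 106359651754475625000000000000 * s ^ 5 * t ^ 5 +
      347363319984832905540799520821 / 127631582105370750000000000000 * s ^ 6 * t ^ 4 +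
      251515529067081085084853698591 / 127631582105370750000000000000 * s ^ 7 * t ^ 3 +
      78374027852740180024704864587 / 85087721403580500000000000000 * s ^ 8 * t ^ 2 +
      769376197214950224311587645493 / 3063157970528898000000000000000 * s ^ 9 * t +
      930264843196633392400186619903 / 30631579705288980000000000000000 * s ^ 10 =
      (1 + 1 / 50 + (1 / 50) ^ 2 / 2) * (1 + u + 209 / 500 * u ^ 2) -
      (141503 / 20000 * (1 + (u - 11 / 100 * u ^ 2 - 78261 / 40000) +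
      (u - 11 / 100 * u ^ 2 - 78261 / 40000) ^ 2 / 2 +
      (u - 11 / 100 * u ^ 2 - 78261 / 40000) ^ 3 / 6 +
      (u - 11 / 100 * u ^ 2 - 78261 / 40000) ^ 4 / 24 +
      (u - 11 / 100 * u ^ 2 - 78261 / 40000) ^ 5 / 100)) := by
    rw [hs, ht]
    ring
  rw [e] at h
  linarith

/-- Rule E: `(c, μ, δ) = (209 / 500, 11 / 100, 1 / 50)` -/
theorem expEd_e : ExpEd (209 / 500) (11 / 100) (1 / 50) := by
  have hde : (1 + 1 / 50 + (1 / 50) ^ 2 / 2) ≤ Real.exp (1 / 50) :=
    Real.quadratic_le_exp_of_nonneg (by norm_num)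
  have hq : ∀ u : ℝ, 0 ≤ 1 + u + 209 / 500 * u ^ 2 := fun u => by
    nlinarith [sq_nonneg (u + 2), sq_nonneg u]
  have hR : ∀ (u x y : ℝ), x ≤ y →
      y ≤ (1 + 1 / 50 + (1 / 50) ^ 2 / 2) * (1 + u + 209 / 500 * u ^ 2) →
      x ≤ Real.exp (1 / 50) * (1 + u + 209 / 500 * u ^ 2) := fun u x y h1 h2 =>
    (h1.trans h2).trans (mul_le_mul_of_nonneg_right hde (hq u))
  have hE1 : Real.exp (9669 / 10000) ≤ 65747 / 25000 := by
    have e : Real.exp (9669 / 10000) = Real.exp (0) * Real.exp (9669 / 10000) := by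
      rw [← Real.exp_add]
      norm_num
    have h := ev_exp_p (u := 9669 / 10000) (by norm_num) (by norm_num)
    have h2 := Real.exp_zero.le
    rw [e]
    refine (mul_le_mul h2 h (Real.exp_nonneg _) (by norm_num)).trans ?_
    norm_num
  have hE2 : Real.exp (78261 / 40000) ≤ 141503 / 20000 := by
    have e : Real.exp (78261 / 40000) = Real.exp (9669 / 10000) * Real.exp (7917 / 8000) := by
      rw [← Real.exp_add]
      norm_num
    have h := ev_exp_p (u := 7917 / 8000) (by norm_num) (by norm_num)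
    have h2 := hE1
    rw [e]
    refine (mul_le_mul h2 h (Real.exp_nonneg _) (by norm_num)).trans ?_
    norm_num
  have hE3 : Real.exp (909 / 400) ≤ 242607 / 25000 := by
    have e : Real.exp (909 / 400) = Real.exp (78261 / 40000) * Real.exp (12639 / 40000) := by
      rw [← Real.exp_add]
      norm_num
    have h := ev_exp_p (u := 12639 / 40000) (by norm_num) (by norm_num)
    have h2 := hE2
    rw [e]
    refine (mul_le_mul h2 h (Real.exp_nonneg _) (by norm_num)).trans ?_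
    norm_num
  have hEm : Real.exp (25 / 11) ≤ 19413 / 2000 := by
    have e : Real.exp (25 / 11) = Real.exp (909 / 400) * Real.exp (1 / 4400) := by
      rw [← Real.exp_add]
      norm_num
    have h := ev_exp_p (u := 1 / 4400) (by norm_num) (by norm_num)
    rw [e]
    refine (mul_le_mul hE3 h (Real.exp_nonneg _) (by norm_num)).trans ?_
    norm_num
  refine ExpEd.of (by norm_num) (by norm_num) (by norm_num) ?_ ?_
  · intro u h1
    rcases le_total u (-3) with h3 | h3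
    · exact hR u _ _ (ev_exp_n3 h3) (ee_e_d u h3)
    rcases le_total u (-2) with h4 | h4
    · refine hR u _ _ (ev_exp_n2 h4) ?_
      exact ee_e_c0 u (by linarith) (by linarith)
    rcases le_total u (-1) with h5 | h5
    · refine hR u _ _ (ev_exp_n1 h5) ?_
      exact ee_e_b0 u (by linarith) (by linarith)
    refine hR u _ _ (ev_exp_n0 h1) ?_
    rcases le_total u (-1 / 2) with hh | hh
    · exact ee_e_a0 u (by linarith) (by linarith)
    exact ee_e_a1 u (by linarith) (by linarith)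
  · intro u h1
    rcases le_total u (11 / 10) with k1 | k1
    · have hy0 : 0 ≤ (u - 11 / 100 * u ^ 2 - 0) := by
        nlinarith [mul_nonneg (sub_nonneg.2 h1)
          (show 0 ≤ 1 -
            11 / 100 * (u + 0) by linarith)]
      have hy1 : (u - 11 / 100 * u ^ 2 - 0) ≤ 1 := by
        nlinarith [mul_nonneg (sub_nonneg.2 k1)
          (show 0 ≤ 1 - 11 / 100 * (u + 11 / 10) by linarith)]
      refine hR u _ _
        (exp_split (x := 0) Real.exp_zero.le hy0 hy1) ?_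
      exact ee_e_g0_0 u (by linarith) (by linarith)
    rcases le_total u (57 / 20) with k2 | k2
    · have hy0 : 0 ≤ (u - 11 / 100 * u ^ 2 - 9669 / 10000) := by
        nlinarith [mul_nonneg (sub_nonneg.2 k1)
          (show 0 ≤ 1 -
            11 / 100 * (u + 11 / 10) by linarith)]
      have hy1 : (u - 11 / 100 * u ^ 2 - 9669 / 10000) ≤ 1 := by
        nlinarith [mul_nonneg (sub_nonneg.2 k2)
          (show 0 ≤ 1 - 11 / 100 * (u + 57 / 20) by linarith)]
      refine hR u _ _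
        (exp_split (x := 9669 / 10000) hE1 hy0 hy1) ?_
      rcases le_total u (79 / 40) with hh | hh
      · exact ee_e_g1_0 u (by linarith) (by linarith)
      exact ee_e_g1_1 u (by linarith) (by linarith)
    rcases le_total u (9 / 2) with k3 | k3
    · have hy0 : 0 ≤ (u - 11 / 100 * u ^ 2 - 78261 / 40000) := by
        nlinarith [mul_nonneg (sub_nonneg.2 k2)
          (show 0 ≤ 1 -
            11 / 100 * (u + 57 / 20) by linarith)]
      have hy1 : (u - 11 / 100 * u ^ 2 - 78261 / 40000) ≤ 1 := by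
        nlinarith [mul_nonneg (sub_nonneg.2 k3)
          (show 0 ≤ 1 - 11 / 100 * (u + 9 / 2) by linarith)]
      refine hR u _ _
        (exp_split (x := 78261 / 40000) hE2 hy0 hy1) ?_
      exact ee_e_g2_0 u (by linarith) (by linarith)
    have h2 : u - 11 / 100 * u ^ 2 ≤ 25 / 11 := by
      nlinarith [sq_nonneg (u - 50 / 11)]
    refine ((Real.exp_le_exp.2 h2).trans hEm).trans ?_
    have h3 : 19413 / 2000 ≤ 1 + u + 209 / 500 * u ^ 2 := by nlinarith
    have h4 : 1 ≤ Real.exp (1 / 50) := Real.one_le_exp (by norm_num)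
    nlinarith [mul_nonneg (sub_nonneg.2 h4) (hq u)]

theorem ee_f_a0 (u : ℝ) (h1 : -1 ≤ u) (h2 : u ≤ -3 / 4) :
    1 + u + u ^ 2 / 2 + u ^ 3 / 6 + u ^ 4 / 24 ≤
      (1 + 1 / 50 + (1 / 50) ^ 2 / 2) * (1 + u + 77 / 200 * u ^ 2) := by
  obtain ⟨s, hs⟩ : ∃ s, s = u - (-1) := ⟨_, rfl⟩
  obtain ⟨t, ht⟩ : ∃ t, t = -3 / 4 - u := ⟨_, rfl⟩
  have hs0 : 0 ≤ s := by linarith
  have ht0 : 0 ≤ t := by linarith
  have h : 0 ≤
      71108 / 15625 * t ^ 4 + 557234 / 46875 * s * t ^ 3 + 665121 / 62500 * s ^ 2 * t ^ 2 +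
      119517 / 31250 * s ^ 3 * t + 59711 / 125000 * s ^ 4 := by
    positivity
  have e :
      71108 / 15625 * t ^ 4 + 557234 / 46875 * s * t ^ 3 + 665121 / 62500 * s ^ 2 * t ^ 2 +
      119517 / 31250 * s ^ 3 * t + 59711 / 125000 * s ^ 4 =
      (1 + 1 / 50 + (1 / 50) ^ 2 / 2) * (1 + u + 77 / 200 * u ^ 2) -
      (1 + u + u ^ 2 / 2 + u ^ 3 / 6 + u ^ 4 / 24) := by
    rw [hs, ht]
    ring
  rw [e] at h
  linarith

theorem ee_f_a1 (u : ℝ) (h1 : -3 / 4 ≤ u) (h2 : u ≤ -5 / 8) :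
    1 + u + u ^ 2 / 2 + u ^ 3 / 6 + u ^ 4 / 24 ≤
      (1 + 1 / 50 + (1 / 50) ^ 2 / 2) * (1 + u + 77 / 200 * u ^ 2) := by
  obtain ⟨s, hs⟩ : ∃ s, s = u - (-3 / 4) := ⟨_, rfl⟩
  obtain ⟨t, ht⟩ : ∃ t, t = -5 / 8 - u := ⟨_, rfl⟩
  have hs0 : 0 ≤ s := by linarith
  have ht0 : 0 ≤ t := by linarith
  have h : 0 ≤
      119422 / 15625 * t ^ 4 + 238464 / 15625 * s * t ^ 3 + 126012 / 15625 * s ^ 2 * t ^ 2 +
      5467 / 9375 * s ^ 3 * t + 477 / 5000 * s ^ 4 := by
    positivity
  have e :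
      119422 / 15625 * t ^ 4 + 238464 / 15625 * s * t ^ 3 + 126012 / 15625 * s ^ 2 * t ^ 2 +
      5467 / 9375 * s ^ 3 * t + 477 / 5000 * s ^ 4 =
      (1 + 1 / 50 + (1 / 50) ^ 2 / 2) * (1 + u + 77 / 200 * u ^ 2) -
      (1 + u + u ^ 2 / 2 + u ^ 3 / 6 + u ^ 4 / 24) := by
    rw [hs, ht]
    ring
  rw [e] at h
  linarith

theorem ee_f_a2 (u : ℝ) (h1 : -5 / 8 ≤ u) (h2 : u ≤ -1 / 2) :
    1 + u + u ^ 2 / 2 + u ^ 3 / 6 + u ^ 4 / 24 ≤
      (1 + 1 / 50 + (1 / 50) ^ 2 / 2) * (1 + u + 77 / 200 * u ^ 2) := by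
  obtain ⟨s, hs⟩ : ∃ s, s = u - (-5 / 8) := ⟨_, rfl⟩
  obtain ⟨t, ht⟩ : ∃ t, t = -1 / 2 - u := ⟨_, rfl⟩
  have hs0 : 0 ≤ s := by linarith
  have ht0 : 0 ≤ t := by linarith
  have h : 0 ≤
      477 / 5000 * t ^ 4 + 1688 / 9375 * s * t ^ 3 + 107117 / 15625 * s ^ 2 * t ^ 2 +
      203944 / 15625 * s ^ 3 * t + 292496 / 46875 * s ^ 4 := by
    positivity
  have e :
      477 / 5000 * t ^ 4 + 1688 / 9375 * s * t ^ 3 + 107117 / 15625 * s ^ 2 * t ^ 2 +
      203944 / 15625 * s ^ 3 * t + 292496 / 46875 * s ^ 4 =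
      (1 + 1 / 50 + (1 / 50) ^ 2 / 2) * (1 + u + 77 / 200 * u ^ 2) -
      (1 + u + u ^ 2 / 2 + u ^ 3 / 6 + u ^ 4 / 24) := by
    rw [hs, ht]
    ring
  rw [e] at h
  linarith

theorem ee_f_a3 (u : ℝ) (h1 : -1 / 2 ≤ u) (h2 : u ≤ 0) :
    1 + u + u ^ 2 / 2 + u ^ 3 / 6 + u ^ 4 / 24 ≤
      (1 + 1 / 50 + (1 / 50) ^ 2 / 2) * (1 + u + 77 / 200 * u ^ 2) := by
  obtain ⟨s, hs⟩ : ∃ s, s = u - (-1 / 2) := ⟨_, rfl⟩
  obtain ⟨t, ht⟩ : ∃ t, t = 0 - u := ⟨_, rfl⟩
  have hs0 : 0 ≤ s := by linarith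
  have ht0 : 0 ≤ t := by linarith
  have h : 0 ≤
      18281 / 750000 * t ^ 4 + 106331 / 375000 * s * t ^ 3 +
      256377 / 250000 * s ^ 2 * t ^ 2 + 707 / 625 * s ^ 3 * t + 202 / 625 * s ^ 4 := by
    positivity
  have e :
      18281 / 750000 * t ^ 4 + 106331 / 375000 * s * t ^ 3 +
      256377 / 250000 * s ^ 2 * t ^ 2 + 707 / 625 * s ^ 3 * t + 202 / 625 * s ^ 4 =
      (1 + 1 / 50 + (1 / 50) ^ 2 / 2) * (1 + u + 77 / 200 * u ^ 2) -
      (1 + u + u ^ 2 / 2 + u ^ 3 / 6 + u ^ 4 / 24) := by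
    rw [hs, ht]
    ring
  rw [e] at h
  linarith

theorem ee_f_b0 (u : ℝ) (h1 : -2 ≤ u) (h2 : u ≤ -1) :
    36788 / 100000 *
      (1 + (u + 1) + (u + 1) ^ 2 / 2 + (u + 1) ^ 3 / 6 + (u + 1) ^ 4 / 24) ≤
      (1 + 1 / 50 + (1 / 50) ^ 2 / 2) * (1 + u + 77 / 200 * u ^ 2) := by
  obtain ⟨s, hs⟩ : ∃ s, s = u - (-2) := ⟨_, rfl⟩
  obtain ⟨t, ht⟩ : ∃ t, t = -1 - u := ⟨_, rfl⟩
  have hs0 : 0 ≤ s := by linarith
  have ht0 : 0 ≤ t := by linarith
  have h : 0 ≤
      412953 / 1000000 * t ^ 4 + 183427 / 187500 * s * t ^ 3 +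
      757921 / 1000000 * s ^ 2 * t ^ 2 + 116411 / 500000 * s ^ 3 * t + 24897 / 1000000 * s ^ 4 := by
    positivity
  have e :
      412953 / 1000000 * t ^ 4 + 183427 / 187500 * s * t ^ 3 +
      757921 / 1000000 * s ^ 2 * t ^ 2 + 116411 / 500000 * s ^ 3 * t + 24897 / 1000000 * s ^ 4 =
      (1 + 1 / 50 + (1 / 50) ^ 2 / 2) * (1 + u + 77 / 200 * u ^ 2) -
      (36788 / 100000 *
      (1 + (u + 1) + (u + 1) ^ 2 / 2 + (u + 1) ^ 3 / 6 + (u + 1) ^ 4 / 24)) := by
    rw [hs, ht]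
    ring
  rw [e] at h
  linarith

theorem ee_f_c0 (u : ℝ) (h1 : -3 ≤ u) (h2 : u ≤ -2) :
    13534 / 100000 *
      (1 + (u + 2) + (u + 2) ^ 2 / 2 + (u + 2) ^ 3 / 6 + (u + 2) ^ 4 / 24) ≤
      (1 + 1 / 50 + (1 / 50) ^ 2 / 2) * (1 + u + 77 / 200 * u ^ 2) := by
  obtain ⟨s, hs⟩ : ∃ s, s = u - (-3) := ⟨_, rfl⟩
  obtain ⟨t, ht⟩ : ∃ t, t = -2 - u := ⟨_, rfl⟩
  have hs0 : 0 ≤ s := by linarith
  have ht0 : 0 ≤ t := by linarith
  have h : 0 ≤
      2887681 / 2000000 * t ^ 4 + 164767 / 37500 * s * t ^ 3 +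
      4877259 / 1000000 * s ^ 2 * t ^ 2 + 58713 / 25000 * s ^ 3 * t + 25973 / 62500 * s ^ 4 := by
    positivity
  have e :
      2887681 / 2000000 * t ^ 4 + 164767 / 37500 * s * t ^ 3 +
      4877259 / 1000000 * s ^ 2 * t ^ 2 + 58713 / 25000 * s ^ 3 * t + 25973 / 62500 * s ^ 4 =
      (1 + 1 / 50 + (1 / 50) ^ 2 / 2) * (1 + u + 77 / 200 * u ^ 2) -
      (13534 / 100000 *
      (1 + (u + 2) + (u + 2) ^ 2 / 2 + (u + 2) ^ 3 / 6 + (u + 2) ^ 4 / 24)) := by
    rw [hs, ht]
    ring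
  rw [e] at h
  linarith

theorem ee_f_d (u : ℝ) (h2 : u ≤ -3) :
    4979 / 100000 ≤
      (1 + 1 / 50 + (1 / 50) ^ 2 / 2) * (1 + u + 77 / 200 * u ^ 2) := by
  obtain ⟨s, hs⟩ : ∃ s, s = -3 - u := ⟨_, rfl⟩
  have hs0 : 0 ≤ s := by linarith
  have h : 0 ≤
      1444803 / 1000000 + 668231 / 500000 * s + 392777 / 1000000 * s ^ 2 := by
    positivity
  have e :
      1444803 / 1000000 + 668231 / 500000 * s + 392777 / 1000000 * s ^ 2 =
      (1 + 1 / 50 + (1 / 50) ^ 2 / 2) * (1 + u + 77 / 200 * u ^ 2) -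
      (4979 / 100000) := by
    rw [hs]
    ring
  rw [e] at h
  linarith

theorem ee_f_g0_0 (u : ℝ) (h1 : 0 ≤ u) (h2 : u ≤ 23 / 20) :
    1 * (1 + (u - 3 / 25 * u ^ 2 - 0) +
      (u - 3 / 25 * u ^ 2 - 0) ^ 2 / 2 +
      (u - 3 / 25 * u ^ 2 - 0) ^ 3 / 6 +
      (u - 3 / 25 * u ^ 2 - 0) ^ 4 / 24 +
      (u - 3 / 25 * u ^ 2 - 0) ^ 5 / 100) ≤
      (1 + 1 / 50 + (1 / 50) ^ 2 / 2) * (1 + u + 77 / 200 * u ^ 2) := by
  obtain ⟨s, hs⟩ : ∃ s, s = u - (0) := ⟨_, rfl⟩
  obtain ⟨t, ht⟩ : ∃ t, t = 23 / 20 - u := ⟨_, rfl⟩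
  have hs0 : 0 ≤ s := by linarith
  have ht0 : 0 ≤ t := by linarith
  have h : 0 ≤
      206848000000 / 41426511213649 * t ^ 10 + 2306355200000 / 41426511213649 * s * t ^ 9 +
      11622068044800 / 41426511213649 * s ^ 2 * t ^ 8 +
      102128225075200 / 124279533640947 * s ^ 3 * t ^ 7 +
      190129318284800 / 124279533640947 * s ^ 4 * t ^ 6 +
      77779481985280 / 41426511213649 * s ^ 5 * t ^ 5 +
      4757126778915584 / 3106988341023675 * s ^ 6 * t ^ 4 +
      12691422205566848 / 15534941705118375 * s ^ 7 * t ^ 3 +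
      176795366322274306 / 647289237713265625 * s ^ 8 * t ^ 2 +
      2532827725779210391 / 48546692828494921875 * s ^ 9 * t +
      542320574799268352621 / 121366732071237304687500 * s ^ 10 := by
    positivity
  have e :
      206848000000 / 41426511213649 * t ^ 10 + 2306355200000 / 41426511213649 * s * t ^ 9 +
      11622068044800 / 41426511213649 * s ^ 2 * t ^ 8 +
      102128225075200 / 124279533640947 * s ^ 3 * t ^ 7 +
      190129318284800 / 124279533640947 * s ^ 4 * t ^ 6 +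
      77779481985280 / 41426511213649 * s ^ 5 * t ^ 5 +
      4757126778915584 / 3106988341023675 * s ^ 6 * t ^ 4 +
      12691422205566848 / 15534941705118375 * s ^ 7 * t ^ 3 +
      176795366322274306 / 647289237713265625 * s ^ 8 * t ^ 2 +
      2532827725779210391 / 48546692828494921875 * s ^ 9 * t +
      542320574799268352621 / 121366732071237304687500 * s ^ 10 =
      (1 + 1 / 50 + (1 / 50) ^ 2 / 2) * (1 + u + 77 / 200 * u ^ 2) -
      (1 * (1 + (u - 3 / 25 * u ^ 2 - 0) +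
      (u - 3 / 25 * u ^ 2 - 0) ^ 2 / 2 +
      (u - 3 / 25 * u ^ 2 - 0) ^ 3 / 6 +
      (u - 3 / 25 * u ^ 2 - 0) ^ 4 / 24 +
      (u - 3 / 25 * u ^ 2 - 0) ^ 5 / 100)) := by
    rw [hs, ht]
    ring
  rw [e] at h
  linarith

theorem ee_f_g1_0 (u : ℝ) (h1 : 23 / 20 ≤ u) (h2 : u ≤ 13 / 4) :
    269481 / 100000 * (1 + (u - 3 / 25 * u ^ 2 - 9913 / 10000) +
      (u - 3 / 25 * u ^ 2 - 9913 / 10000) ^ 2 / 2 +
      (u - 3 / 25 * u ^ 2 - 9913 / 10000) ^ 3 / 6 +
      (u - 3 / 25 * u ^ 2 - 9913 / 10000) ^ 4 / 24 +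
      (u - 3 / 25 * u ^ 2 - 9913 / 10000) ^ 5 / 100) ≤
      (1 + 1 / 50 + (1 / 50) ^ 2 / 2) * (1 + u + 77 / 200 * u ^ 2) := by
  obtain ⟨s, hs⟩ : ∃ s, s = u - (23 / 20) := ⟨_, rfl⟩
  obtain ⟨t, ht⟩ : ∃ t, t = 13 / 4 - u := ⟨_, rfl⟩
  have hs0 : 0 ≤ s := by linarith
  have ht0 : 0 ≤ t := by linarith
  have h : 0 ≤
      60225275 / 5559960326067 * t ^ 10 + 410065370 / 5559960326067 * s * t ^ 9 +
      46901685616 / 231665013586125 * s ^ 2 * t ^ 8 +
      119288431516199 / 193054177988437500 * s ^ 3 * t ^ 7 +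
      2465074170644603171 / 827375048521875000000 * s ^ 4 * t ^ 6 +
      250803985078799744456413 / 25855470266308593750000000 * s ^ 5 * t ^ 5 +
      23644894501766263005491 / 1292773513315429687500000 * s ^ 6 * t ^ 4 +
      10287615954368571583829 / 502745255178222656250000 * s ^ 7 * t ^ 3 +
      15253572049686158633177 / 1131176824151000976562500 * s ^ 8 * t ^ 2 +
      32885969255888129021293 / 6787060944906005859375000 * s ^ 9 * t +
      6222067286137891865651 / 8483826181132507324218750 * s ^ 10 := by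
    positivity
  have e :
      60225275 / 5559960326067 * t ^ 10 + 410065370 / 5559960326067 * s * t ^ 9 +
      46901685616 / 231665013586125 * s ^ 2 * t ^ 8 +
      119288431516199 / 193054177988437500 * s ^ 3 * t ^ 7 +
      2465074170644603171 / 827375048521875000000 * s ^ 4 * t ^ 6 +
      250803985078799744456413 / 25855470266308593750000000 * s ^ 5 * t ^ 5 +
      23644894501766263005491 / 1292773513315429687500000 * s ^ 6 * t ^ 4 +
      10287615954368571583829 / 502745255178222656250000 * s ^ 7 * t ^ 3 +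
      15253572049686158633177 / 1131176824151000976562500 * s ^ 8 * t ^ 2 +
      32885969255888129021293 / 6787060944906005859375000 * s ^ 9 * t +
      6222067286137891865651 / 8483826181132507324218750 * s ^ 10 =
      (1 + 1 / 50 + (1 / 50) ^ 2 / 2) * (1 + u + 77 / 200 * u ^ 2) -
      (269481 / 100000 * (1 + (u - 3 / 25 * u ^ 2 - 9913 / 10000) +
      (u - 3 / 25 * u ^ 2 - 9913 / 10000) ^ 2 / 2 +
      (u - 3 / 25 * u ^ 2 - 9913 / 10000) ^ 3 / 6 +
      (u - 3 / 25 * u ^ 2 - 9913 / 10000) ^ 4 / 24 +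
      (u - 3 / 25 * u ^ 2 - 9913 / 10000) ^ 5 / 100)) := by
    rw [hs, ht]
    ring
  rw [e] at h
  linarith

theorem ee_f_g2_0 (u : ℝ) (h1 : 13 / 4 ≤ u) (h2 : u ≤ 41 / 10) :
    5809 / 800 * (1 + (u - 3 / 25 * u ^ 2 - 793 / 400) +
      (u - 3 / 25 * u ^ 2 - 793 / 400) ^ 2 / 2 +
      (u - 3 / 25 * u ^ 2 - 793 / 400) ^ 3 / 6 +
      (u - 3 / 25 * u ^ 2 - 793 / 400) ^ 4 / 24 +
      (u - 3 / 25 * u ^ 2 - 793 / 400) ^ 5 / 100) ≤
      (1 + 1 / 50 + (1 / 50) ^ 2 / 2) * (1 + u + 77 / 200 * u ^ 2) := by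
  obtain ⟨s, hs⟩ : ∃ s, s = u - (13 / 4) := ⟨_, rfl⟩
  obtain ⟨t, ht⟩ : ∃ t, t = 41 / 10 - u := ⟨_, rfl⟩
  have hs0 : 0 ≤ s := by linarith
  have ht0 : 0 ≤ t := by linarith
  have h : 0 ≤
      12526664320000 / 2015993900449 * t ^ 10 + 142463793152000 / 2015993900449 * s * t ^ 9 +
      726526697670400 / 2015993900449 * s ^ 2 * t ^ 8 +
      32817618336331936 / 30239908506735 * s ^ 3 * t ^ 7 +
      8078118012813079951 / 3779988563341875 * s ^ 4 * t ^ 6 +
      45289399281767648482037 / 15749952347257812500 * s ^ 5 * t ^ 5 +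
      253016596872883553602459 / 94499714083546875000 * s ^ 6 * t ^ 4 +
      804891838834171356992371 / 472498570417734375000 * s ^ 7 * t ^ 3 +
      558161291042958550344879 / 787497617362890625000 * s ^ 8 * t ^ 2 +
      16457787352044737457596231 / 94499714083546875000000 * s ^ 9 * t +
      90678506180083412331705239 / 4724985704177343750000000 * s ^ 10 := by
    positivity
  have e :
      12526664320000 / 2015993900449 * t ^ 10 + 142463793152000 / 2015993900449 * s * t ^ 9 +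
      726526697670400 / 2015993900449 * s ^ 2 * t ^ 8 +
      32817618336331936 / 30239908506735 * s ^ 3 * t ^ 7 +
      8078118012813079951 / 3779988563341875 * s ^ 4 * t ^ 6 +
      45289399281767648482037 / 15749952347257812500 * s ^ 5 * t ^ 5 +
      253016596872883553602459 / 94499714083546875000 * s ^ 6 * t ^ 4 +
      804891838834171356992371 / 472498570417734375000 * s ^ 7 * t ^ 3 +
      558161291042958550344879 / 787497617362890625000 * s ^ 8 * t ^ 2 +
      16457787352044737457596231 / 94499714083546875000000 * s ^ 9 * t +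
      90678506180083412331705239 / 4724985704177343750000000 * s ^ 10 =
      (1 + 1 / 50 + (1 / 50) ^ 2 / 2) * (1 + u + 77 / 200 * u ^ 2) -
      (5809 / 800 * (1 + (u - 3 / 25 * u ^ 2 - 793 / 400) +
      (u - 3 / 25 * u ^ 2 - 793 / 400) ^ 2 / 2 +
      (u - 3 / 25 * u ^ 2 - 793 / 400) ^ 3 / 6 +
      (u - 3 / 25 * u ^ 2 - 793 / 400) ^ 4 / 24 +
      (u - 3 / 25 * u ^ 2 - 793 / 400) ^ 5 / 100)) := by
    rw [hs, ht]
    ring
  rw [e] at h
  linarith

/-- Rule E: `(c, μ, δ) = (77 / 200, 3 / 25, 1 / 50)` -/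
theorem expEd_f : ExpEd (77 / 200) (3 / 25) (1 / 50) := by
  have hde : (1 + 1 / 50 + (1 / 50) ^ 2 / 2) ≤ Real.exp (1 / 50) :=
    Real.quadratic_le_exp_of_nonneg (by norm_num)
  have hq : ∀ u : ℝ, 0 ≤ 1 + u + 77 / 200 * u ^ 2 := fun u => by
    nlinarith [sq_nonneg (u + 2), sq_nonneg u]
  have hR : ∀ (u x y : ℝ), x ≤ y →
      y ≤ (1 + 1 / 50 + (1 / 50) ^ 2 / 2) * (1 + u + 77 / 200 * u ^ 2) →
      x ≤ Real.exp (1 / 50) * (1 + u + 77 / 200 * u ^ 2) := fun u x y h1 h2 =>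
    (h1.trans h2).trans (mul_le_mul_of_nonneg_right hde (hq u))
  have hE1 : Real.exp (9913 / 10000) ≤ 269481 / 100000 := by
    have e : Real.exp (9913 / 10000) = Real.exp (0) * Real.exp (9913 / 10000) := by
      rw [← Real.exp_add]
      norm_num
    have h := ev_exp_p (u := 9913 / 10000) (by norm_num) (by norm_num)
    have h2 := Real.exp_zero.le
    rw [e]
    refine (mul_le_mul h2 h (Real.exp_nonneg _) (by norm_num)).trans ?_
    norm_num
  have hE2 : Real.exp (793 / 400) ≤ 5809 / 800 := by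
    have e : Real.exp (793 / 400) = Real.exp (9913 / 10000) * Real.exp (1239 / 1250) := by
      rw [← Real.exp_add]
      norm_num
    have h := ev_exp_p (u := 1239 / 1250) (by norm_num) (by norm_num)
    have h2 := hE1
    rw [e]
    refine (mul_le_mul h2 h (Real.exp_nonneg _) (by norm_num)).trans ?_
    norm_num
  have hE3 : Real.exp (5207 / 2500) ≤ 401367 / 50000 := by
    have e : Real.exp (5207 / 2500) = Real.exp (793 / 400) * Real.exp (1003 / 10000) := by
      rw [← Real.exp_add]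
      norm_num
    have h := ev_exp_p (u := 1003 / 10000) (by norm_num) (by norm_num)
    have h2 := hE2
    rw [e]
    refine (mul_le_mul h2 h (Real.exp_nonneg _) (by norm_num)).trans ?_
    norm_num
  have hEm : Real.exp (25 / 12) ≤ 80317 / 10000 := by
    have e : Real.exp (25 / 12) = Real.exp (5207 / 2500) * Real.exp (1 / 1875) := by
      rw [← Real.exp_add]
      norm_num
    have h := ev_exp_p (u := 1 / 1875) (by norm_num) (by norm_num)
    rw [e]
    refine (mul_le_mul hE3 h (Real.exp_nonneg _) (by norm_num)).trans ?_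
    norm_num
  refine ExpEd.of (by norm_num) (by norm_num) (by norm_num) ?_ ?_
  · intro u h1
    rcases le_total u (-3) with h3 | h3
    · exact hR u _ _ (ev_exp_n3 h3) (ee_f_d u h3)
    rcases le_total u (-2) with h4 | h4
    · refine hR u _ _ (ev_exp_n2 h4) ?_
      exact ee_f_c0 u (by linarith) (by linarith)
    rcases le_total u (-1) with h5 | h5
    · refine hR u _ _ (ev_exp_n1 h5) ?_
      exact ee_f_b0 u (by linarith) (by linarith)
    refine hR u _ _ (ev_exp_n0 h1) ?_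
    rcases le_total u (-3 / 4) with hh | hh
    · exact ee_f_a0 u (by linarith) (by linarith)
    rcases le_total u (-5 / 8) with hh | hh
    · exact ee_f_a1 u (by linarith) (by linarith)
    rcases le_total u (-1 / 2) with hh | hh
    · exact ee_f_a2 u (by linarith) (by linarith)
    exact ee_f_a3 u (by linarith) (by linarith)
  · intro u h1
    rcases le_total u (23 / 20) with k1 | k1
    · have hy0 : 0 ≤ (u - 3 / 25 * u ^ 2 - 0) := by
        nlinarith [mul_nonneg (sub_nonneg.2 h1)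
          (show 0 ≤ 1 -
            3 / 25 * (u + 0) by linarith)]
      have hy1 : (u - 3 / 25 * u ^ 2 - 0) ≤ 1 := by
        nlinarith [mul_nonneg (sub_nonneg.2 k1)
          (show 0 ≤ 1 - 3 / 25 * (u + 23 / 20) by linarith)]
      refine hR u _ _
        (exp_split (x := 0) Real.exp_zero.le hy0 hy1) ?_
      exact ee_f_g0_0 u (by linarith) (by linarith)
    rcases le_total u (13 / 4) with k2 | k2
    · have hy0 : 0 ≤ (u - 3 / 25 * u ^ 2 - 9913 / 10000) := by
        nlinarith [mul_nonneg (sub_nonneg.2 k1)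
          (show 0 ≤ 1 -
            3 / 25 * (u + 23 / 20) by linarith)]
      have hy1 : (u - 3 / 25 * u ^ 2 - 9913 / 10000) ≤ 1 := by
        nlinarith [mul_nonneg (sub_nonneg.2 k2)
          (show 0 ≤ 1 - 3 / 25 * (u + 13 / 4) by linarith)]
      refine hR u _ _
        (exp_split (x := 9913 / 10000) hE1 hy0 hy1) ?_
      exact ee_f_g1_0 u (by linarith) (by linarith)
    rcases le_total u (41 / 10) with k3 | k3
    · have hy0 : 0 ≤ (u - 3 / 25 * u ^ 2 - 793 / 400) := by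
        nlinarith [mul_nonneg (sub_nonneg.2 k2)
          (show 0 ≤ 1 -
            3 / 25 * (u + 13 / 4) by linarith)]
      have hy1 : (u - 3 / 25 * u ^ 2 - 793 / 400) ≤ 1 := by
        nlinarith [mul_nonneg (sub_nonneg.2 k3)
          (show 0 ≤ 1 - 3 / 25 * (u + 41 / 10) by linarith)]
      refine hR u _ _
        (exp_split (x := 793 / 400) hE2 hy0 hy1) ?_
      exact ee_f_g2_0 u (by linarith) (by linarith)
    have h2 : u - 3 / 25 * u ^ 2 ≤ 25 / 12 := by
      nlinarith [sq_nonneg (u - 25 / 6)]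
    refine ((Real.exp_le_exp.2 h2).trans hEm).trans ?_
    have h3 : 80317 / 10000 ≤ 1 + u + 77 / 200 * u ^ 2 := by nlinarith
    have h4 : 1 ≤ Real.exp (1 / 50) := Real.one_le_exp (by norm_num)
    nlinarith [mul_nonneg (sub_nonneg.2 h4) (hq u)]

theorem ee_g_a0 (u : ℝ) (h1 : -1 ≤ u) (h2 : u ≤ -7 / 8) :
    1 + u + u ^ 2 / 2 + u ^ 3 / 6 + u ^ 4 / 24 ≤
      (1 + 1 / 20 + (1 / 20) ^ 2 / 2) * (1 + u + 9 / 25 * u ^ 2) := by
  obtain ⟨s, hs⟩ : ∃ s, s = u - (-1) := ⟨_, rfl⟩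
  obtain ⟨t, ht⟩ : ∃ t, t = -7 / 8 - u := ⟨_, rfl⟩
  have hs0 : 0 ≤ s := by linarith
  have ht0 : 0 ≤ t := by linarith
  have h : 0 ≤
      8832 / 625 * t ^ 4 + 13712 / 375 * s * t ^ 3 + 20706 / 625 * s ^ 2 * t ^ 2 +
      1636 / 125 * s ^ 3 * t + 35263 / 15000 * s ^ 4 := by
    positivity
  have e :
      8832 / 625 * t ^ 4 + 13712 / 375 * s * t ^ 3 + 20706 / 625 * s ^ 2 * t ^ 2 +
      1636 / 125 * s ^ 3 * t + 35263 / 15000 * s ^ 4 =
      (1 + 1 / 20 + (1 / 20) ^ 2 / 2) * (1 + u + 9 / 25 * u ^ 2) -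
      (1 + u + u ^ 2 / 2 + u ^ 3 / 6 + u ^ 4 / 24) := by
    rw [hs, ht]
    ring
  rw [e] at h
  linarith

theorem ee_g_a1 (u : ℝ) (h1 : -7 / 8 ≤ u) (h2 : u ≤ -3 / 4) :
    1 + u + u ^ 2 / 2 + u ^ 3 / 6 + u ^ 4 / 24 ≤
      (1 + 1 / 20 + (1 / 20) ^ 2 / 2) * (1 + u + 9 / 25 * u ^ 2) := by
  obtain ⟨s, hs⟩ : ∃ s, s = u - (-7 / 8) := ⟨_, rfl⟩
  obtain ⟨t, ht⟩ : ∃ t, t = -3 / 4 - u := ⟨_, rfl⟩
  have hs0 : 0 ≤ s := by linarith
  have ht0 : 0 ≤ t := by linarith
  have h : 0 ≤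
      35263 / 15000 * t ^ 4 + 10723 / 1875 * s * t ^ 3 + 6889 / 625 * s ^ 2 * t ^ 2 +
      8828 / 625 * s ^ 3 * t + 4018 / 625 * s ^ 4 := by
    positivity
  have e :
      35263 / 15000 * t ^ 4 + 10723 / 1875 * s * t ^ 3 + 6889 / 625 * s ^ 2 * t ^ 2 +
      8828 / 625 * s ^ 3 * t + 4018 / 625 * s ^ 4 =
      (1 + 1 / 20 + (1 / 20) ^ 2 / 2) * (1 + u + 9 / 25 * u ^ 2) -
      (1 + u + u ^ 2 / 2 + u ^ 3 / 6 + u ^ 4 / 24) := by
    rw [hs, ht]
    ring
  rw [e] at h
  linarith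

theorem ee_g_a2 (u : ℝ) (h1 : -3 / 4 ≤ u) (h2 : u ≤ -1 / 2) :
    1 + u + u ^ 2 / 2 + u ^ 3 / 6 + u ^ 4 / 24 ≤
      (1 + 1 / 20 + (1 / 20) ^ 2 / 2) * (1 + u + 9 / 25 * u ^ 2) := by
  obtain ⟨s, hs⟩ : ∃ s, s = u - (-3 / 4) := ⟨_, rfl⟩
  obtain ⟨t, ht⟩ : ∃ t, t = -1 / 2 - u := ⟨_, rfl⟩
  have hs0 : 0 ≤ s := by linarith
  have ht0 : 0 ≤ t := by linarith
  have h : 0 ≤
      2009 / 5000 * t ^ 4 + 382 / 125 * s * t ^ 3 + 10703 / 1250 * s ^ 2 * t ^ 2 +
      3524 / 375 * s ^ 3 * t + 6464 / 1875 * s ^ 4 := by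
    positivity
  have e :
      2009 / 5000 * t ^ 4 + 382 / 125 * s * t ^ 3 + 10703 / 1250 * s ^ 2 * t ^ 2 +
      3524 / 375 * s ^ 3 * t + 6464 / 1875 * s ^ 4 =
      (1 + 1 / 20 + (1 / 20) ^ 2 / 2) * (1 + u + 9 / 25 * u ^ 2) -
      (1 + u + u ^ 2 / 2 + u ^ 3 / 6 + u ^ 4 / 24) := by
    rw [hs, ht]
    ring
  rw [e] at h
  linarith

theorem ee_g_a3 (u : ℝ) (h1 : -1 / 2 ≤ u) (h2 : u ≤ 0) :
    1 + u + u ^ 2 / 2 + u ^ 3 / 6 + u ^ 4 / 24 ≤
      (1 + 1 / 20 + (1 / 20) ^ 2 / 2) * (1 + u + 9 / 25 * u ^ 2) := by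
  obtain ⟨s, hs⟩ : ∃ s, s = u - (-1 / 2) := ⟨_, rfl⟩
  obtain ⟨t, ht⟩ : ∃ t, t = 0 - u := ⟨_, rfl⟩
  have hs0 : 0 ≤ s := by linarith
  have ht0 : 0 ≤ t := by linarith
  have h : 0 ≤
      404 / 1875 * t ^ 4 + 5291 / 3750 * s * t ^ 3 + 16019 / 5000 * s ^ 2 * t ^ 2 +
      287 / 100 * s ^ 3 * t + 41 / 50 * s ^ 4 := by
    positivity
  have e :
      404 / 1875 * t ^ 4 + 5291 / 3750 * s * t ^ 3 + 16019 / 5000 * s ^ 2 * t ^ 2 +
      287 / 100 * s ^ 3 * t + 41 / 50 * s ^ 4 =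
      (1 + 1 / 20 + (1 / 20) ^ 2 / 2) * (1 + u + 9 / 25 * u ^ 2) -
      (1 + u + u ^ 2 / 2 + u ^ 3 / 6 + u ^ 4 / 24) := by
    rw [hs, ht]
    ring
  rw [e] at h
  linarith

theorem ee_g_b0 (u : ℝ) (h1 : -2 ≤ u) (h2 : u ≤ -1) :
    36788 / 100000 *
      (1 + (u + 1) + (u + 1) ^ 2 / 2 + (u + 1) ^ 3 / 6 + (u + 1) ^ 4 / 24) ≤
      (1 + 1 / 20 + (1 / 20) ^ 2 / 2) * (1 + u + 9 / 25 * u ^ 2) := by
  obtain ⟨s, hs⟩ : ∃ s, s = u - (-2) := ⟨_, rfl⟩
  obtain ⟨t, ht⟩ : ∃ t, t = -1 - u := ⟨_, rfl⟩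
  have hs0 : 0 ≤ s := by linarith
  have ht0 : 0 ≤ t := by linarith
  have h : 0 ≤
      64919 / 200000 * t ^ 4 + 213961 / 300000 * s * t ^ 3 + 11963 / 25000 * s ^ 2 * t ^ 2 +
      11581 / 100000 * s ^ 3 * t + 1057 / 100000 * s ^ 4 := by
    positivity
  have e :
      64919 / 200000 * t ^ 4 + 213961 / 300000 * s * t ^ 3 + 11963 / 25000 * s ^ 2 * t ^ 2 +
      11581 / 100000 * s ^ 3 * t + 1057 / 100000 * s ^ 4 =
      (1 + 1 / 20 + (1 / 20) ^ 2 / 2) * (1 + u + 9 / 25 * u ^ 2) -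
      (36788 / 100000 *
      (1 + (u + 1) + (u + 1) ^ 2 / 2 + (u + 1) ^ 3 / 6 + (u + 1) ^ 4 / 24)) := by
    rw [hs, ht]
    ring
  rw [e] at h
  linarith

theorem ee_g_c0 (u : ℝ) (h1 : -3 ≤ u) (h2 : u ≤ -2) :
    13534 / 100000 *
      (1 + (u + 2) + (u + 2) ^ 2 / 2 + (u + 2) ^ 3 / 6 + (u + 2) ^ 4 / 24) ≤
      (1 + 1 / 20 + (1 / 20) ^ 2 / 2) * (1 + u + 9 / 25 * u ^ 2) := by
  obtain ⟨s, hs⟩ : ∃ s, s = u - (-3) := ⟨_, rfl⟩
  obtain ⟨t, ht⟩ : ∃ t, t = -2 - u := ⟨_, rfl⟩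
  have hs0 : 0 ≤ s := by linarith
  have ht0 : 0 ≤ t := by linarith
  have h : 0 ≤
      501119 / 400000 * t ^ 4 + 280997 / 75000 * s * t ^ 3 +
      406771 / 100000 * s ^ 2 * t ^ 2 + 190673 / 100000 * s ^ 3 * t + 32721 / 100000 * s ^ 4 := by
    positivity
  have e :
      501119 / 400000 * t ^ 4 + 280997 / 75000 * s * t ^ 3 +
      406771 / 100000 * s ^ 2 * t ^ 2 + 190673 / 100000 * s ^ 3 * t + 32721 / 100000 * s ^ 4 =
      (1 + 1 / 20 + (1 / 20) ^ 2 / 2) * (1 + u + 9 / 25 * u ^ 2) -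
      (13534 / 100000 *
      (1 + (u + 2) + (u + 2) ^ 2 / 2 + (u + 2) ^ 3 / 6 + (u + 2) ^ 4 / 24)) := by
    rw [hs, ht]
    ring
  rw [e] at h
  linarith

theorem ee_g_d (u : ℝ) (h2 : u ≤ -3) :
    4979 / 100000 ≤
      (1 + 1 / 20 + (1 / 20) ^ 2 / 2) * (1 + u + 9 / 25 * u ^ 2) := by
  obtain ⟨s, hs⟩ : ∃ s, s = -3 - u := ⟨_, rfl⟩
  have hs0 : 0 ≤ s := by linarith
  have h : 0 ≤
      3918 / 3125 + 24389 / 20000 * s + 7569 / 20000 * s ^ 2 := by
    positivity
  have e :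
      3918 / 3125 + 24389 / 20000 * s + 7569 / 20000 * s ^ 2 =
      (1 + 1 / 20 + (1 / 20) ^ 2 / 2) * (1 + u + 9 / 25 * u ^ 2) -
      (4979 / 100000) := by
    rw [hs]
    ring
  rw [e] at h
  linarith

theorem ee_g_g0_0 (u : ℝ) (h1 : 0 ≤ u) (h2 : u ≤ 23 / 20) :
    1 * (1 + (u - 3 / 25 * u ^ 2 - 0) +
      (u - 3 / 25 * u ^ 2 - 0) ^ 2 / 2 +
      (u - 3 / 25 * u ^ 2 - 0) ^ 3 / 6 +
      (u - 3 / 25 * u ^ 2 - 0) ^ 4 / 24 +
      (u - 3 / 25 * u ^ 2 - 0) ^ 5 / 100) ≤
      (1 + 1 / 20 + (1 / 20) ^ 2 / 2) * (1 + u + 9 / 25 * u ^ 2) := by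
  obtain ⟨s, hs⟩ : ∃ s, s = u - (0) := ⟨_, rfl⟩
  obtain ⟨t, ht⟩ : ∃ t, t = 23 / 20 - u := ⟨_, rfl⟩
  have hs0 : 0 ≤ s := by linarith
  have ht0 : 0 ≤ t := by linarith
  have h : 0 ≤
      524800000000 / 41426511213649 * t ^ 10 + 5851520000000 / 41426511213649 * s * t ^ 9 +
      29026689280000 / 41426511213649 * s ^ 2 * t ^ 8 +
      251424056320000 / 124279533640947 * s ^ 3 * t ^ 7 +
      466283722841600 / 124279533640947 * s ^ 4 * t ^ 6 +
      193109400756480 / 41426511213649 * s ^ 5 * t ^ 5 +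
      12201598823715584 / 3106988341023675 * s ^ 6 * t ^ 4 +
      34442612144766848 / 15534941705118375 * s ^ 7 * t ^ 3 +
      521145956722274306 / 647289237713265625 * s ^ 8 * t ^ 2 +
      8296281805779210391 / 48546692828494921875 * s ^ 9 * t +
      1976621849799268352621 / 121366732071237304687500 * s ^ 10 := by
    positivity
  have e :
      524800000000 / 41426511213649 * t ^ 10 + 5851520000000 / 41426511213649 * s * t ^ 9 +
      29026689280000 / 41426511213649 * s ^ 2 * t ^ 8 +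
      251424056320000 / 124279533640947 * s ^ 3 * t ^ 7 +
      466283722841600 / 124279533640947 * s ^ 4 * t ^ 6 +
      193109400756480 / 41426511213649 * s ^ 5 * t ^ 5 +
      12201598823715584 / 3106988341023675 * s ^ 6 * t ^ 4 +
      34442612144766848 / 15534941705118375 * s ^ 7 * t ^ 3 +
      521145956722274306 / 647289237713265625 * s ^ 8 * t ^ 2 +
      8296281805779210391 / 48546692828494921875 * s ^ 9 * t +
      1976621849799268352621 / 121366732071237304687500 * s ^ 10 =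
      (1 + 1 / 20 + (1 / 20) ^ 2 / 2) * (1 + u + 9 / 25 * u ^ 2) -
      (1 * (1 + (u - 3 / 25 * u ^ 2 - 0) +
      (u - 3 / 25 * u ^ 2 - 0) ^ 2 / 2 +
      (u - 3 / 25 * u ^ 2 - 0) ^ 3 / 6 +
      (u - 3 / 25 * u ^ 2 - 0) ^ 4 / 24 +
      (u - 3 / 25 * u ^ 2 - 0) ^ 5 / 100)) := by
    rw [hs, ht]
    ring
  rw [e] at h
  linarith

theorem ee_g_g1_0 (u : ℝ) (h1 : 23 / 20 ≤ u) (h2 : u ≤ 13 / 4) :
    269481 / 100000 * (1 + (u - 3 / 25 * u ^ 2 - 9913 / 10000) +
      (u - 3 / 25 * u ^ 2 - 9913 / 10000) ^ 2 / 2 +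
      (u - 3 / 25 * u ^ 2 - 9913 / 10000) ^ 3 / 6 +
      (u - 3 / 25 * u ^ 2 - 9913 / 10000) ^ 4 / 24 +
      (u - 3 / 25 * u ^ 2 - 9913 / 10000) ^ 5 / 100) ≤
      (1 + 1 / 20 + (1 / 20) ^ 2 / 2) * (1 + u + 9 / 25 * u ^ 2) := by
  obtain ⟨s, hs⟩ : ∃ s, s = u - (23 / 20) := ⟨_, rfl⟩
  obtain ⟨t, ht⟩ : ∃ t, t = 13 / 4 - u := ⟨_, rfl⟩
  have hs0 : 0 ≤ s := by linarith
  have ht0 : 0 ≤ t := by linarith
  have h : 0 ≤
      658776250 / 16679880978201 * t ^ 10 + 5971256260 / 16679880978201 * s * t ^ 9 +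
      331946151241 / 231665013586125 * s ^ 2 * t ^ 8 +
      6373543571145791 / 1737487601895937500 * s ^ 3 * t ^ 7 +
      19203973293183809513 / 2482125145565625000000 * s ^ 4 * t ^ 6 +
      374914834688174744456413 / 25855470266308593750000000 * s ^ 5 * t ^ 5 +
      82825653476001914016473 / 3878320539946289062500000 * s ^ 6 * t ^ 4 +
      292930659576545182763383 / 13574121889812011718750000 * s ^ 7 * t ^ 3 +
      15415352643558228945677 / 1131176824151000976562500 * s ^ 8 * t ^ 2 +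
      97885131583582355813879 / 20361182834718017578125000 * s ^ 9 * t +
      18370693473709085753203 / 25451478543397521972656250 * s ^ 10 := by
    positivity
  have e :
      658776250 / 16679880978201 * t ^ 10 + 5971256260 / 16679880978201 * s * t ^ 9 +
      331946151241 / 231665013586125 * s ^ 2 * t ^ 8 +
      6373543571145791 / 1737487601895937500 * s ^ 3 * t ^ 7 +
      19203973293183809513 / 2482125145565625000000 * s ^ 4 * t ^ 6 +
      374914834688174744456413 / 25855470266308593750000000 * s ^ 5 * t ^ 5 +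
      82825653476001914016473 / 3878320539946289062500000 * s ^ 6 * t ^ 4 +
      292930659576545182763383 / 13574121889812011718750000 * s ^ 7 * t ^ 3 +
      15415352643558228945677 / 1131176824151000976562500 * s ^ 8 * t ^ 2 +
      97885131583582355813879 / 20361182834718017578125000 * s ^ 9 * t +
      18370693473709085753203 / 25451478543397521972656250 * s ^ 10 =
      (1 + 1 / 20 + (1 / 20) ^ 2 / 2) * (1 + u + 9 / 25 * u ^ 2) -
      (269481 / 100000 * (1 + (u - 3 / 25 * u ^ 2 - 9913 / 10000) +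
      (u - 3 / 25 * u ^ 2 - 9913 / 10000) ^ 2 / 2 +
      (u - 3 / 25 * u ^ 2 - 9913 / 10000) ^ 3 / 6 +
      (u - 3 / 25 * u ^ 2 - 9913 / 10000) ^ 4 / 24 +
      (u - 3 / 25 * u ^ 2 - 9913 / 10000) ^ 5 / 100)) := by
    rw [hs, ht]
    ring
  rw [e] at h
  linarith

theorem ee_g_g2_0 (u : ℝ) (h1 : 13 / 4 ≤ u) (h2 : u ≤ 41 / 10) :
    5809 / 800 * (1 + (u - 3 / 25 * u ^ 2 - 793 / 400) +
      (u - 3 / 25 * u ^ 2 - 793 / 400) ^ 2 / 2 +
      (u - 3 / 25 * u ^ 2 - 793 / 400) ^ 3 / 6 +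
      (u - 3 / 25 * u ^ 2 - 793 / 400) ^ 4 / 24 +
      (u - 3 / 25 * u ^ 2 - 793 / 400) ^ 5 / 100) ≤
      (1 + 1 / 20 + (1 / 20) ^ 2 / 2) * (1 + u + 9 / 25 * u ^ 2) := by
  obtain ⟨s, hs⟩ : ∃ s, s = u - (13 / 4) := ⟨_, rfl⟩
  obtain ⟨t, ht⟩ : ∃ t, t = 41 / 10 - u := ⟨_, rfl⟩
  have hs0 : 0 ≤ s := by linarith
  have ht0 : 0 ≤ t := by linarith
  have h : 0 ≤
      12328352000000 / 2015993900449 * t ^ 10 + 139940364800000 / 2015993900449 * s * t ^ 9 +
      712633900025600 / 2015993900449 * s ^ 2 * t ^ 8 +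
      32156171753035936 / 30239908506735 * s ^ 3 * t ^ 7 +
      7909369639341079951 / 3779988563341875 * s ^ 4 * t ^ 6 +
      44320735384167648482037 / 15749952347257812500 * s ^ 5 * t ^ 5 +
      247525480416883553602459 / 94499714083546875000 * s ^ 6 * t ^ 4 +
      787285838146171356992371 / 472498570417734375000 * s ^ 7 * t ^ 3 +
      545917950252958550344879 / 787497617362890625000 * s ^ 8 * t ^ 2 +
      16097138387244737457596231 / 94499714083546875000000 * s ^ 9 * t +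
      88698941300083412331705239 / 4724985704177343750000000 * s ^ 10 := by
    positivity
  have e :
      12328352000000 / 2015993900449 * t ^ 10 + 139940364800000 / 2015993900449 * s * t ^ 9 +
      712633900025600 / 2015993900449 * s ^ 2 * t ^ 8 +
      32156171753035936 / 30239908506735 * s ^ 3 * t ^ 7 +
      7909369639341079951 / 3779988563341875 * s ^ 4 * t ^ 6 +
      44320735384167648482037 / 15749952347257812500 * s ^ 5 * t ^ 5 +
      247525480416883553602459 / 94499714083546875000 * s ^ 6 * t ^ 4 +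
      787285838146171356992371 / 472498570417734375000 * s ^ 7 * t ^ 3 +
      545917950252958550344879 / 787497617362890625000 * s ^ 8 * t ^ 2 +
      16097138387244737457596231 / 94499714083546875000000 * s ^ 9 * t +
      88698941300083412331705239 / 4724985704177343750000000 * s ^ 10 =
      (1 + 1 / 20 + (1 / 20) ^ 2 / 2) * (1 + u + 9 / 25 * u ^ 2) -
      (5809 / 800 * (1 + (u - 3 / 25 * u ^ 2 - 793 / 400) +
      (u - 3 / 25 * u ^ 2 - 793 / 400) ^ 2 / 2 +
      (u - 3 / 25 * u ^ 2 - 793 / 400) ^ 3 / 6 +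
      (u - 3 / 25 * u ^ 2 - 793 / 400) ^ 4 / 24 +
      (u - 3 / 25 * u ^ 2 - 793 / 400) ^ 5 / 100)) := by
    rw [hs, ht]
    ring
  rw [e] at h
  linarith

/-- Rule E: `(c, μ, δ) = (9 / 25, 3 / 25, 1 / 20)` -/
theorem expEd_g : ExpEd (9 / 25) (3 / 25) (1 / 20) := by
  have hde : (1 + 1 / 20 + (1 / 20) ^ 2 / 2) ≤ Real.exp (1 / 20) :=
    Real.quadratic_le_exp_of_nonneg (by norm_num)
  have hq : ∀ u : ℝ, 0 ≤ 1 + u + 9 / 25 * u ^ 2 := fun u => by
    nlinarith [sq_nonneg (u + 2), sq_nonneg u]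
  have hR : ∀ (u x y : ℝ), x ≤ y →
      y ≤ (1 + 1 / 20 + (1 / 20) ^ 2 / 2) * (1 + u + 9 / 25 * u ^ 2) →
      x ≤ Real.exp (1 / 20) * (1 + u + 9 / 25 * u ^ 2) := fun u x y h1 h2 =>
    (h1.trans h2).trans (mul_le_mul_of_nonneg_right hde (hq u))
  have hE1 : Real.exp (9913 / 10000) ≤ 269481 / 100000 := by
    have e : Real.exp (9913 / 10000) = Real.exp (0) * Real.exp (9913 / 10000) := by
      rw [← Real.exp_add]
      norm_num
    have h := ev_exp_p (u := 9913 / 10000) (by norm_num) (by norm_num)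
    have h2 := Real.exp_zero.le
    rw [e]
    refine (mul_le_mul h2 h (Real.exp_nonneg _) (by norm_num)).trans ?_
    norm_num
  have hE2 : Real.exp (793 / 400) ≤ 5809 / 800 := by
    have e : Real.exp (793 / 400) = Real.exp (9913 / 10000) * Real.exp (1239 / 1250) := by
      rw [← Real.exp_add]
      norm_num
    have h := ev_exp_p (u := 1239 / 1250) (by norm_num) (by norm_num)
    have h2 := hE1
    rw [e]
    refine (mul_le_mul h2 h (Real.exp_nonneg _) (by norm_num)).trans ?_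
    norm_num
  have hE3 : Real.exp (5207 / 2500) ≤ 401367 / 50000 := by
    have e : Real.exp (5207 / 2500) = Real.exp (793 / 400) * Real.exp (1003 / 10000) := by
      rw [← Real.exp_add]
      norm_num
    have h := ev_exp_p (u := 1003 / 10000) (by norm_num) (by norm_num)
    have h2 := hE2
    rw [e]
    refine (mul_le_mul h2 h (Real.exp_nonneg _) (by norm_num)).trans ?_
    norm_num
  have hEm : Real.exp (25 / 12) ≤ 80317 / 10000 := by
    have e : Real.exp (25 / 12) = Real.exp (5207 / 2500) * Real.exp (1 / 1875) := by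
      rw [← Real.exp_add]
      norm_num
    have h := ev_exp_p (u := 1 / 1875) (by norm_num) (by norm_num)
    rw [e]
    refine (mul_le_mul hE3 h (Real.exp_nonneg _) (by norm_num)).trans ?_
    norm_num
  refine ExpEd.of (by norm_num) (by norm_num) (by norm_num) ?_ ?_
  · intro u h1
    rcases le_total u (-3) with h3 | h3
    · exact hR u _ _ (ev_exp_n3 h3) (ee_g_d u h3)
    rcases le_total u (-2) with h4 | h4
    · refine hR u _ _ (ev_exp_n2 h4) ?_
      exact ee_g_c0 u (by linarith) (by linarith)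
    rcases le_total u (-1) with h5 | h5
    · refine hR u _ _ (ev_exp_n1 h5) ?_
      exact ee_g_b0 u (by linarith) (by linarith)
    refine hR u _ _ (ev_exp_n0 h1) ?_
    rcases le_total u (-7 / 8) with hh | hh
    · exact ee_g_a0 u (by linarith) (by linarith)
    rcases le_total u (-3 / 4) with hh | hh
    · exact ee_g_a1 u (by linarith) (by linarith)
    rcases le_total u (-1 / 2) with hh | hh
    · exact ee_g_a2 u (by linarith) (by linarith)
    exact ee_g_a3 u (by linarith) (by linarith)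
  · intro u h1
    rcases le_total u (23 / 20) with k1 | k1
    · have hy0 : 0 ≤ (u - 3 / 25 * u ^ 2 - 0) := by
        nlinarith [mul_nonneg (sub_nonneg.2 h1)
          (show 0 ≤ 1 -
            3 / 25 * (u + 0) by linarith)]
      have hy1 : (u - 3 / 25 * u ^ 2 - 0) ≤ 1 := by
        nlinarith [mul_nonneg (sub_nonneg.2 k1)
          (show 0 ≤ 1 - 3 / 25 * (u + 23 / 20) by linarith)]
      refine hR u _ _
        (exp_split (x := 0) Real.exp_zero.le hy0 hy1) ?_
      exact ee_g_g0_0 u (by linarith) (by linarith)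
    rcases le_total u (13 / 4) with k2 | k2
    · have hy0 : 0 ≤ (u - 3 / 25 * u ^ 2 - 9913 / 10000) := by
        nlinarith [mul_nonneg (sub_nonneg.2 k1)
          (show 0 ≤ 1 -
            3 / 25 * (u + 23 / 20) by linarith)]
      have hy1 : (u - 3 / 25 * u ^ 2 - 9913 / 10000) ≤ 1 := by
        nlinarith [mul_nonneg (sub_nonneg.2 k2)
          (show 0 ≤ 1 - 3 / 25 * (u + 13 / 4) by linarith)]
      refine hR u _ _
        (exp_split (x := 9913 / 10000) hE1 hy0 hy1) ?_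
      exact ee_g_g1_0 u (by linarith) (by linarith)
    rcases le_total u (41 / 10) with k3 | k3
    · have hy0 : 0 ≤ (u - 3 / 25 * u ^ 2 - 793 / 400) := by
        nlinarith [mul_nonneg (sub_nonneg.2 k2)
          (show 0 ≤ 1 -
            3 / 25 * (u + 13 / 4) by linarith)]
      have hy1 : (u - 3 / 25 * u ^ 2 - 793 / 400) ≤ 1 := by
        nlinarith [mul_nonneg (sub_nonneg.2 k3)
          (show 0 ≤ 1 - 3 / 25 * (u + 41 / 10) by linarith)]
      refine hR u _ _
        (exp_split (x := 793 / 400) hE2 hy0 hy1) ?_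
      exact ee_g_g2_0 u (by linarith) (by linarith)
    have h2 : u - 3 / 25 * u ^ 2 ≤ 25 / 12 := by
      nlinarith [sq_nonneg (u - 25 / 6)]
    refine ((Real.exp_le_exp.2 h2).trans hEm).trans ?_
    have h3 : 80317 / 10000 ≤ 1 + u + 9 / 25 * u ^ 2 := by nlinarith
    have h4 : 1 ≤ Real.exp (1 / 20) := Real.one_le_exp (by norm_num)
    nlinarith [mul_nonneg (sub_nonneg.2 h4) (hq u)]

theorem ee_h_a0 (u : ℝ) (h1 : -1 ≤ u) (h2 : u ≤ 0) :
    1 + u + u ^ 2 / 2 + u ^ 3 / 6 + u ^ 4 / 24 ≤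
      (1 + 1 / 100 + (1 / 100) ^ 2 / 2) * (1 + u + 271 / 500 * u ^ 2) := by
  obtain ⟨s, hs⟩ : ∃ s, s = u - (-1) := ⟨_, rfl⟩
  obtain ⟨t, ht⟩ : ∃ t, t = 0 - u := ⟨_, rfl⟩
  have hs0 : 0 ≤ s := by linarith
  have ht0 : 0 ≤ t := by linarith
  have h : 0 ≤
      1724471 / 10000000 * t ^ 4 + 4074163 / 15000000 * s * t ^ 3 +
      775971 / 10000000 * s ^ 2 * t ^ 2 + 603 / 20000 * s ^ 3 * t + 201 / 20000 * s ^ 4 := by
    positivity
  have e :
      1724471 / 10000000 * t ^ 4 + 4074163 / 15000000 * s * t ^ 3 +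
      775971 / 10000000 * s ^ 2 * t ^ 2 + 603 / 20000 * s ^ 3 * t + 201 / 20000 * s ^ 4 =
      (1 + 1 / 100 + (1 / 100) ^ 2 / 2) * (1 + u + 271 / 500 * u ^ 2) -
      (1 + u + u ^ 2 / 2 + u ^ 3 / 6 + u ^ 4 / 24) := by
    rw [hs, ht]
    ring
  rw [e] at h
  linarith

theorem ee_h_b0 (u : ℝ) (h1 : -2 ≤ u) (h2 : u ≤ -1) :
    36788 / 100000 *
      (1 + (u + 1) + (u + 1) ^ 2 / 2 + (u + 1) ^ 3 / 6 + (u + 1) ^ 4 / 24) ≤
      (1 + 1 / 100 + (1 / 100) ^ 2 / 2) * (1 + u + 271 / 500 * u ^ 2) := by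
  obtain ⟨s, hs⟩ : ∃ s, s = u - (-2) := ⟨_, rfl⟩
  obtain ⟨t, ht⟩ : ∃ t, t = -1 - u := ⟨_, rfl⟩
  have hs0 : 0 ≤ s := by linarith
  have ht0 : 0 ≤ t := by linarith
  have h : 0 ≤
      5208917 / 5000000 * t ^ 4 + 5371441 / 1875000 * s * t ^ 3 +
      27990823 / 10000000 * s ^ 2 * t ^ 2 + 5854963 / 5000000 * s ^ 3 * t +
      1795671 / 10000000 * s ^ 4 := by
    positivity
  have e :
      5208917 / 5000000 * t ^ 4 + 5371441 / 1875000 * s * t ^ 3 +
      27990823 / 10000000 * s ^ 2 * t ^ 2 + 5854963 / 5000000 * s ^ 3 * t +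
      1795671 / 10000000 * s ^ 4 =
      (1 + 1 / 100 + (1 / 100) ^ 2 / 2) * (1 + u + 271 / 500 * u ^ 2) -
      (36788 / 100000 *
      (1 + (u + 1) + (u + 1) ^ 2 / 2 + (u + 1) ^ 3 / 6 + (u + 1) ^ 4 / 24)) := by
    rw [hs, ht]
    ring
  rw [e] at h
  linarith

theorem ee_h_c0 (u : ℝ) (h1 : -3 ≤ u) (h2 : u ≤ -2) :
    13534 / 100000 *
      (1 + (u + 2) + (u + 2) ^ 2 / 2 + (u + 2) ^ 3 / 6 + (u + 2) ^ 4 / 24) ≤
      (1 + 1 / 100 + (1 / 100) ^ 2 / 2) * (1 + u + 271 / 500 * u ^ 2) := by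
  obtain ⟨s, hs⟩ : ∃ s, s = u - (-3) := ⟨_, rfl⟩
  obtain ⟨t, ht⟩ : ∃ t, t = -2 - u := ⟨_, rfl⟩
  have hs0 : 0 ≤ s := by linarith
  have ht0 : 0 ≤ t := by linarith
  have h : 0 ≤
      14280857 / 5000000 * t ^ 4 + 27314819 / 3000000 * s * t ^ 3 +
      106914027 / 10000000 * s ^ 2 * t ^ 2 + 85823 / 15625 * s ^ 3 * t +
      652749 / 625000 * s ^ 4 := by
    positivity
  have e :
      14280857 / 5000000 * t ^ 4 + 27314819 / 3000000 * s * t ^ 3 +
      106914027 / 10000000 * s ^ 2 * t ^ 2 + 85823 / 15625 * s ^ 3 * t +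
      652749 / 625000 * s ^ 4 =
      (1 + 1 / 100 + (1 / 100) ^ 2 / 2) * (1 + u + 271 / 500 * u ^ 2) -
      (13534 / 100000 *
      (1 + (u + 2) + (u + 2) ^ 2 / 2 + (u + 2) ^ 3 / 6 + (u + 2) ^ 4 / 24)) := by
    rw [hs, ht]
    ring
  rw [e] at h
  linarith

theorem ee_h_d (u : ℝ) (h2 : u ≤ -3) :
    4979 / 100000 ≤
      (1 + 1 / 100 + (1 / 100) ^ 2 / 2) * (1 + u + 271 / 500 * u ^ 2) := by
  obtain ⟨s, hs⟩ : ∃ s, s = -3 - u := ⟨_, rfl⟩
  have hs0 : 0 ≤ s := by linarith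
  have h : 0 ≤
      28571339 / 10000000 + 11373163 / 5000000 * s + 5474471 / 10000000 * s ^ 2 := by
    positivity
  have e :
      28571339 / 10000000 + 11373163 / 5000000 * s + 5474471 / 10000000 * s ^ 2 =
      (1 + 1 / 100 + (1 / 100) ^ 2 / 2) * (1 + u + 271 / 500 * u ^ 2) -
      (4979 / 100000) := by
    rw [hs]
    ring
  rw [e] at h
  linarith

theorem ee_h_g0_0 (u : ℝ) (h1 : 0 ≤ u) (h2 : u ≤ 11 / 10) :
    1 * (1 + (u - 9 / 100 * u ^ 2 - 0) +
      (u - 9 / 100 * u ^ 2 - 0) ^ 2 / 2 +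
      (u - 9 / 100 * u ^ 2 - 0) ^ 3 / 6 +
      (u - 9 / 100 * u ^ 2 - 0) ^ 4 / 24 +
      (u - 9 / 100 * u ^ 2 - 0) ^ 5 / 100) ≤
      (1 + 1 / 100 + (1 / 100) ^ 2 / 2) * (1 + u + 271 / 500 * u ^ 2) := by
  obtain ⟨s, hs⟩ : ∃ s, s = u - (0) := ⟨_, rfl⟩
  obtain ⟨t, ht⟩ : ∃ t, t = 11 / 10 - u := ⟨_, rfl⟩
  have hs0 : 0 ≤ s := by linarith
  have ht0 : 0 ≤ t := by linarith
  have h : 0 ≤
      100500000 / 25937424601 * t ^ 10 + 1115550000 / 25937424601 * s * t ^ 9 +
      7180559910 / 25937424601 * s ^ 2 * t ^ 8 + 84972737840 / 77812273803 * s ^ 3 * t ^ 7 +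
      69804751430 / 25937424601 * s ^ 4 * t ^ 6 +
      110912698505 / 25937424601 * s ^ 5 * t ^ 5 +
      69421160453819 / 15562454760600 * s ^ 6 * t ^ 4 +
      157757819636453 / 51874849202000 * s ^ 7 * t ^ 3 +
      270985039938983173 / 207499396808000000 * s ^ 8 * t ^ 2 +
      4993207946831373997 / 15562454760600000000 * s ^ 9 * t +
      892543624119878634449 / 25937424601000000000000 * s ^ 10 := by
    positivity
  have e :
      100500000 / 25937424601 * t ^ 10 + 1115550000 / 25937424601 * s * t ^ 9 +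
      7180559910 / 25937424601 * s ^ 2 * t ^ 8 + 84972737840 / 77812273803 * s ^ 3 * t ^ 7 +
      69804751430 / 25937424601 * s ^ 4 * t ^ 6 +
      110912698505 / 25937424601 * s ^ 5 * t ^ 5 +
      69421160453819 / 15562454760600 * s ^ 6 * t ^ 4 +
      157757819636453 / 51874849202000 * s ^ 7 * t ^ 3 +
      270985039938983173 / 207499396808000000 * s ^ 8 * t ^ 2 +
      4993207946831373997 / 15562454760600000000 * s ^ 9 * t +
      892543624119878634449 / 25937424601000000000000 * s ^ 10 =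
      (1 + 1 / 100 + (1 / 100) ^ 2 / 2) * (1 + u + 271 / 500 * u ^ 2) -
      (1 * (1 + (u - 9 / 100 * u ^ 2 - 0) +
      (u - 9 / 100 * u ^ 2 - 0) ^ 2 / 2 +
      (u - 9 / 100 * u ^ 2 - 0) ^ 3 / 6 +
      (u - 9 / 100 * u ^ 2 - 0) ^ 4 / 24 +
      (u - 9 / 100 * u ^ 2 - 0) ^ 5 / 100)) := by
    rw [hs, ht]
    ring
  rw [e] at h
  linarith

theorem ee_h_g1_0 (u : ℝ) (h1 : 11 / 10 ≤ u) (h2 : u ≤ 51 / 20) :
    269427 / 100000 * (1 + (u - 9 / 100 * u ^ 2 - 9911 / 10000) +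
      (u - 9 / 100 * u ^ 2 - 9911 / 10000) ^ 2 / 2 +
      (u - 9 / 100 * u ^ 2 - 9911 / 10000) ^ 3 / 6 +
      (u - 9 / 100 * u ^ 2 - 9911 / 10000) ^ 4 / 24 +
      (u - 9 / 100 * u ^ 2 - 9911 / 10000) ^ 5 / 100) ≤
      (1 + 1 / 100 + (1 / 100) ^ 2 / 2) * (1 + u + 271 / 500 * u ^ 2) := by
  obtain ⟨s, hs⟩ : ∃ s, s = u - (11 / 10) := ⟨_, rfl⟩
  obtain ⟨t, ht⟩ : ∃ t, t = 51 / 20 - u := ⟨_, rfl⟩
  have hs0 : 0 ≤ s := by linarith
  have ht0 : 0 ≤ t := by linarith
  have h : 0 ≤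
      913878947840 / 420707233300201 * t ^ 10 + 9935074058240 / 420707233300201 * s * t ^ 9 +
      5830374589202752 / 52588404162525125 * s ^ 2 * t ^ 8 +
      9686445017376808396 / 32867752601578203125 * s ^ 3 * t ^ 7 +
      160521053856555176584271 / 328677526015782031250000 * s ^ 4 * t ^ 6 +
      21462739490555548019216987377 / 41084690751972753906250000000 * s ^ 5 * t ^ 5 +
      11834759791117164424103420411 / 32867752601578203125000000000 * s ^ 6 * t ^ 4 +
      10152301903948730414943927773 / 65735505203156406250000000000 * s ^ 7 * t ^ 3 +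
      5021676807975638975056671457 / 131471010406312812500000000000 * s ^ 8 * t ^ 2 +
      10116172224491073138374749577 / 2103536166501005000000000000000 * s ^ 9 * t +
      11994051642287244826927127511 / 42070723330020100000000000000000 * s ^ 10 := by
    positivity
  have e :
      913878947840 / 420707233300201 * t ^ 10 + 9935074058240 / 420707233300201 * s * t ^ 9 +
      5830374589202752 / 52588404162525125 * s ^ 2 * t ^ 8 +
      9686445017376808396 / 32867752601578203125 * s ^ 3 * t ^ 7 +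
      160521053856555176584271 / 328677526015782031250000 * s ^ 4 * t ^ 6 +
      21462739490555548019216987377 / 41084690751972753906250000000 * s ^ 5 * t ^ 5 +
      11834759791117164424103420411 / 32867752601578203125000000000 * s ^ 6 * t ^ 4 +
      10152301903948730414943927773 / 65735505203156406250000000000 * s ^ 7 * t ^ 3 +
      5021676807975638975056671457 / 131471010406312812500000000000 * s ^ 8 * t ^ 2 +
      10116172224491073138374749577 / 2103536166501005000000000000000 * s ^ 9 * t +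
      11994051642287244826927127511 / 42070723330020100000000000000000 * s ^ 10 =
      (1 + 1 / 100 + (1 / 100) ^ 2 / 2) * (1 + u + 271 / 500 * u ^ 2) -
      (269427 / 100000 * (1 + (u - 9 / 100 * u ^ 2 - 9911 / 10000) +
      (u - 9 / 100 * u ^ 2 - 9911 / 10000) ^ 2 / 2 +
      (u - 9 / 100 * u ^ 2 - 9911 / 10000) ^ 3 / 6 +
      (u - 9 / 100 * u ^ 2 - 9911 / 10000) ^ 4 / 24 +
      (u - 9 / 100 * u ^ 2 - 9911 / 10000) ^ 5 / 100)) := by
    rw [hs, ht]
    ring
  rw [e] at h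
  linarith

theorem ee_h_g2_0 (u : ℝ) (h1 : 51 / 20 ≤ u) (h2 : u ≤ 161 / 40) :
    356687 / 50000 * (1 + (u - 9 / 100 * u ^ 2 - 78591 / 40000) +
      (u - 9 / 100 * u ^ 2 - 78591 / 40000) ^ 2 / 2 +
      (u - 9 / 100 * u ^ 2 - 78591 / 40000) ^ 3 / 6 +
      (u - 9 / 100 * u ^ 2 - 78591 / 40000) ^ 4 / 24 +
      (u - 9 / 100 * u ^ 2 - 78591 / 40000) ^ 5 / 100) ≤
      (1 + 1 / 100 + (1 / 100) ^ 2 / 2) * (1 + u + 271 / 500 * u ^ 2) := by
  obtain ⟨s, hs⟩ : ∃ s, s = u - (51 / 20) := ⟨_, rfl⟩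
  obtain ⟨t, ht⟩ : ∃ t, t = 161 / 40 - u := ⟨_, rfl⟩
  have hs0 : 0 ≤ s := by linarith
  have ht0 : 0 ≤ t := by linarith
  have h : 0 ≤
      122812028682240 / 511116753300641401 * t ^ 10 +
      341532325969920 / 511116753300641401 * s * t ^ 9 +
      108400745140985856 / 63889594162580175125 * s ^ 2 * t ^ 8 +
      3453028426000963067776 / 119792989054837828359375 * s ^ 3 * t ^ 7 +
      8175042375071756473800891 / 49913745439515761816406250 * s ^ 4 * t ^ 6 +
      11192209218737194484582997819487 / 24956872719757880908203125000000 * s ^ 5 * t ^ 5 +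
      42482821210360301379499531556593 / 59896494527418914179687500000000 * s ^ 6 * t ^ 4 +
      27426054964953586456503330400503 / 39930996351612609453125000000000 * s ^ 7 * t ^ 3 +
      64508557189320019445996181905839 / 159723985406450437812500000000000 * s ^ 8 * t ^ 2 +
      509430548227629234821258979565421 / 3833375649754810507500000000000000 * s ^ 9 * t +
      480939055827742870093448260757691 / 25555837665032070050000000000000000 * s ^ 10 := by
    positivity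
  have e :
      122812028682240 / 511116753300641401 * t ^ 10 +
      341532325969920 / 511116753300641401 * s * t ^ 9 +
      108400745140985856 / 63889594162580175125 * s ^ 2 * t ^ 8 +
      3453028426000963067776 / 119792989054837828359375 * s ^ 3 * t ^ 7 +
      8175042375071756473800891 / 49913745439515761816406250 * s ^ 4 * t ^ 6 +
      11192209218737194484582997819487 / 24956872719757880908203125000000 * s ^ 5 * t ^ 5 +
      42482821210360301379499531556593 / 59896494527418914179687500000000 * s ^ 6 * t ^ 4 +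
      27426054964953586456503330400503 / 39930996351612609453125000000000 * s ^ 7 * t ^ 3 +
      64508557189320019445996181905839 / 159723985406450437812500000000000 * s ^ 8 * t ^ 2 +
      509430548227629234821258979565421 / 3833375649754810507500000000000000 * s ^ 9 * t +
      480939055827742870093448260757691 / 25555837665032070050000000000000000 * s ^ 10 =
      (1 + 1 / 100 + (1 / 100) ^ 2 / 2) * (1 + u + 271 / 500 * u ^ 2) -
      (356687 / 50000 * (1 + (u - 9 / 100 * u ^ 2 - 78591 / 40000) +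
      (u - 9 / 100 * u ^ 2 - 78591 / 40000) ^ 2 / 2 +
      (u - 9 / 100 * u ^ 2 - 78591 / 40000) ^ 3 / 6 +
      (u - 9 / 100 * u ^ 2 - 78591 / 40000) ^ 4 / 24 +
      (u - 9 / 100 * u ^ 2 - 78591 / 40000) ^ 5 / 100)) := by
    rw [hs, ht]
    ring
  rw [e] at h
  linarith

theorem ee_h_g2_1 (u : ℝ) (h1 : 161 / 40 ≤ u) (h2 : u ≤ 11 / 2) :
    356687 / 50000 * (1 + (u - 9 / 100 * u ^ 2 - 78591 / 40000) +
      (u - 9 / 100 * u ^ 2 - 78591 / 40000) ^ 2 / 2 +
      (u - 9 / 100 * u ^ 2 - 78591 / 40000) ^ 3 / 6 +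
      (u - 9 / 100 * u ^ 2 - 78591 / 40000) ^ 4 / 24 +
      (u - 9 / 100 * u ^ 2 - 78591 / 40000) ^ 5 / 100) ≤
      (1 + 1 / 100 + (1 / 100) ^ 2 / 2) * (1 + u + 271 / 500 * u ^ 2) := by
  obtain ⟨s, hs⟩ : ∃ s, s = u - (161 / 40) := ⟨_, rfl⟩
  obtain ⟨t, ht⟩ : ∃ t, t = 11 / 2 - u := ⟨_, rfl⟩
  have hs0 : 0 ≤ s := by linarith
  have ht0 : 0 ≤ t := by linarith
  have h : 0 ≤
      480939055827742870093448260757691 / 25555837665032070050000000000000000 * t ^ 10 +
      233346654813899843864771450676913 / 958343912438702626875000000000000 * s * t ^ 9 +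
      357587334119694115496289984934681 / 255558376650320700500000000000000 * s ^ 2 * t ^ 8 +
      93935467596248472117882659505629 / 19965498175806304726562500000000 * s ^ 3 * t ^ 7 +
      4914155017209151511099640009769313 / 479171956219351313437500000000000 * s ^ 4 * t ^ 6 +
      756144267162487559246206988032933 / 49913745439515761816406250000000 * s ^ 5 * t ^ 5 +
      613515304459447995133228765609837 / 39930996351612609453125000000000 * s ^ 6 * t ^ 4 +
      39566088786655873339973601254183 / 3743530907963682136230468750000 * s ^ 7 * t ^ 3 +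
      18853249521410324431241557453663 / 3993099635161260945312500000000 * s ^ 8 * t ^ 2 +
      1544029093782388479575507903451 / 1247843635987894045410156250000 * s ^ 9 * t +
      10820903275736997098833637055511 / 74870618159273642724609375000000 * s ^ 10 := by
    positivity
  have e :
      480939055827742870093448260757691 / 25555837665032070050000000000000000 * t ^ 10 +
      233346654813899843864771450676913 / 958343912438702626875000000000000 * s * t ^ 9 +
      357587334119694115496289984934681 / 255558376650320700500000000000000 * s ^ 2 * t ^ 8 +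
      93935467596248472117882659505629 / 19965498175806304726562500000000 * s ^ 3 * t ^ 7 +
      4914155017209151511099640009769313 / 479171956219351313437500000000000 * s ^ 4 * t ^ 6 +
      756144267162487559246206988032933 / 49913745439515761816406250000000 * s ^ 5 * t ^ 5 +
      613515304459447995133228765609837 / 39930996351612609453125000000000 * s ^ 6 * t ^ 4 +
      39566088786655873339973601254183 / 3743530907963682136230468750000 * s ^ 7 * t ^ 3 +
      18853249521410324431241557453663 / 3993099635161260945312500000000 * s ^ 8 * t ^ 2 +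
      1544029093782388479575507903451 / 1247843635987894045410156250000 * s ^ 9 * t +
      10820903275736997098833637055511 / 74870618159273642724609375000000 * s ^ 10 =
      (1 + 1 / 100 + (1 / 100) ^ 2 / 2) * (1 + u + 271 / 500 * u ^ 2) -
      (356687 / 50000 * (1 + (u - 9 / 100 * u ^ 2 - 78591 / 40000) +
      (u - 9 / 100 * u ^ 2 - 78591 / 40000) ^ 2 / 2 +
      (u - 9 / 100 * u ^ 2 - 78591 / 40000) ^ 3 / 6 +
      (u - 9 / 100 * u ^ 2 - 78591 / 40000) ^ 4 / 24 +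
      (u - 9 / 100 * u ^ 2 - 78591 / 40000) ^ 5 / 100)) := by
    rw [hs, ht]
    ring
  rw [e] at h
  linarith

/-- Rule E: `(c, μ, δ) = (271 / 500, 9 / 100, 1 / 100)` -/
theorem expEd_h : ExpEd (271 / 500) (9 / 100) (1 / 100) := by
  have hde : (1 + 1 / 100 + (1 / 100) ^ 2 / 2) ≤ Real.exp (1 / 100) :=
    Real.quadratic_le_exp_of_nonneg (by norm_num)
  have hq : ∀ u : ℝ, 0 ≤ 1 + u + 271 / 500 * u ^ 2 := fun u => by
    nlinarith [sq_nonneg (u + 2), sq_nonneg u]
  have hR : ∀ (u x y : ℝ), x ≤ y →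
      y ≤ (1 + 1 / 100 + (1 / 100) ^ 2 / 2) * (1 + u + 271 / 500 * u ^ 2) →
      x ≤ Real.exp (1 / 100) * (1 + u + 271 / 500 * u ^ 2) := fun u x y h1 h2 =>
    (h1.trans h2).trans (mul_le_mul_of_nonneg_right hde (hq u))
  have hE1 : Real.exp (9911 / 10000) ≤ 269427 / 100000 := by
    have e : Real.exp (9911 / 10000) = Real.exp (0) * Real.exp (9911 / 10000) := by
      rw [← Real.exp_add]
      norm_num
    have h := ev_exp_p (u := 9911 / 10000) (by norm_num) (by norm_num)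
    have h2 := Real.exp_zero.le
    rw [e]
    refine (mul_le_mul h2 h (Real.exp_nonneg _) (by norm_num)).trans ?_
    norm_num
  have hE2 : Real.exp (78591 / 40000) ≤ 356687 / 50000 := by
    have e : Real.exp (78591 / 40000) = Real.exp (9911 / 10000) * Real.exp (38947 / 40000) := by
      rw [← Real.exp_add]
      norm_num
    have h := ev_exp_p (u := 38947 / 40000) (by norm_num) (by norm_num)
    have h2 := hE1
    rw [e]
    refine (mul_le_mul h2 h (Real.exp_nonneg _) (by norm_num)).trans ?_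
    norm_num
  have hE3 : Real.exp (1111 / 400) ≤ 64323 / 4000 := by
    have e : Real.exp (1111 / 400) = Real.exp (78591 / 40000) * Real.exp (32509 / 40000) := by
      rw [← Real.exp_add]
      norm_num
    have h := ev_exp_p (u := 32509 / 40000) (by norm_num) (by norm_num)
    have h2 := hE2
    rw [e]
    refine (mul_le_mul h2 h (Real.exp_nonneg _) (by norm_num)).trans ?_
    norm_num
  have hEm : Real.exp (25 / 9) ≤ 160853 / 10000 := by
    have e : Real.exp (25 / 9) = Real.exp (1111 / 400) * Real.exp (1 / 3600) := by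
      rw [← Real.exp_add]
      norm_num
    have h := ev_exp_p (u := 1 / 3600) (by norm_num) (by norm_num)
    rw [e]
    refine (mul_le_mul hE3 h (Real.exp_nonneg _) (by norm_num)).trans ?_
    norm_num
  refine ExpEd.of (by norm_num) (by norm_num) (by norm_num) ?_ ?_
  · intro u h1
    rcases le_total u (-3) with h3 | h3
    · exact hR u _ _ (ev_exp_n3 h3) (ee_h_d u h3)
    rcases le_total u (-2) with h4 | h4
    · refine hR u _ _ (ev_exp_n2 h4) ?_
      exact ee_h_c0 u (by linarith) (by linarith)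
    rcases le_total u (-1) with h5 | h5
    · refine hR u _ _ (ev_exp_n1 h5) ?_
      exact ee_h_b0 u (by linarith) (by linarith)
    refine hR u _ _ (ev_exp_n0 h1) ?_
    exact ee_h_a0 u (by linarith) (by linarith)
  · intro u h1
    rcases le_total u (11 / 10) with k1 | k1
    · have hy0 : 0 ≤ (u - 9 / 100 * u ^ 2 - 0) := by
        nlinarith [mul_nonneg (sub_nonneg.2 h1)
          (show 0 ≤ 1 -
            9 / 100 * (u + 0) by linarith)]
      have hy1 : (u - 9 / 100 * u ^ 2 - 0) ≤ 1 := by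
        nlinarith [mul_nonneg (sub_nonneg.2 k1)
          (show 0 ≤ 1 - 9 / 100 * (u + 11 / 10) by linarith)]
      refine hR u _ _
        (exp_split (x := 0) Real.exp_zero.le hy0 hy1) ?_
      exact ee_h_g0_0 u (by linarith) (by linarith)
    rcases le_total u (51 / 20) with k2 | k2
    · have hy0 : 0 ≤ (u - 9 / 100 * u ^ 2 - 9911 / 10000) := by
        nlinarith [mul_nonneg (sub_nonneg.2 k1)
          (show 0 ≤ 1 -
            9 / 100 * (u + 11 / 10) by linarith)]
      have hy1 : (u - 9 / 100 * u ^ 2 - 9911 / 10000) ≤ 1 := by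
        nlinarith [mul_nonneg (sub_nonneg.2 k2)
          (show 0 ≤ 1 - 9 / 100 * (u + 51 / 20) by linarith)]
      refine hR u _ _
        (exp_split (x := 9911 / 10000) hE1 hy0 hy1) ?_
      exact ee_h_g1_0 u (by linarith) (by linarith)
    rcases le_total u (11 / 2) with k3 | k3
    · have hy0 : 0 ≤ (u - 9 / 100 * u ^ 2 - 78591 / 40000) := by
        nlinarith [mul_nonneg (sub_nonneg.2 k2)
          (show 0 ≤ 1 -
            9 / 100 * (u + 51 / 20) by linarith)]
      have hy1 : (u - 9 / 100 * u ^ 2 - 78591 / 40000) ≤ 1 := by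
        nlinarith [mul_nonneg (sub_nonneg.2 k3)
          (show 0 ≤ 1 - 9 / 100 * (u + 11 / 2) by linarith)]
      refine hR u _ _
        (exp_split (x := 78591 / 40000) hE2 hy0 hy1) ?_
      rcases le_total u (161 / 40) with hh | hh
      · exact ee_h_g2_0 u (by linarith) (by linarith)
      exact ee_h_g2_1 u (by linarith) (by linarith)
    have h2 : u - 9 / 100 * u ^ 2 ≤ 25 / 9 := by
      nlinarith [sq_nonneg (u - 50 / 9)]
    refine ((Real.exp_le_exp.2 h2).trans hEm).trans ?_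
    have h3 : 160853 / 10000 ≤ 1 + u + 271 / 500 * u ^ 2 := by nlinarith
    have h4 : 1 ≤ Real.exp (1 / 100) := Real.one_le_exp (by norm_num)
    nlinarith [mul_nonneg (sub_nonneg.2 h4) (hq u)]

end

end Pool.Agent.TSM
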