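import Pool.Agent.TSM.LeftTree
import Pool.Agent.TSM.EvenH

set_option autoImplicit false

/-!
# An odd number of children: one child is split off, two coefficients in the bound of the rest
(MP_d27362_co)
-/

namespace Pool.Agent.TSM

open Finset Polynomial
open Pool.Agent.TSP
open Pool.Agent.TSO
open Pool.Agent.TSR (OBr Ker sg_true sg_false vS_nonneg)
open Pool.Agent.TLT (sg)

noncomputable section

/-- **one child split off**, for the total mass `D`. The child: gain `xL`, `yL`, potential `VL`,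
pending cost `cL`. The rest of `k` children: gain `y2`, `U2`, sum of the potentials `VR`, sum of
the pending costs `cR`; the state of the rest costs `MU a U2² + MY y2²` -/
def LfE2 (χ : ℝ → ℝ) (D : ℝ) (k : ℕ) (xL yL U2 y2 VL cL VR cR V' c' : ℝ → ℝ) : Prop :=
  ∃ D1 χ0 K r κ σ0 s K1 K2 τ ω ϑ ν B1 B2 P c μ η sR l MU MY rR : ℝ, ∃ N g Ex gR BR : ℝ → ℝ,
    OneE D D1 χ0 K r κ ∧ LossC D1 σ0 s 1 K1 ∧ LossC D1 σ0 (χ D) (1 + χ D) K2 ∧ s ≤ χ D ∧
    LeftC (r * D) χ0 τ ω ϑ ν B1 B2 ∧ RestC k P c μ η sR N ∧ sR ≤ χ D ∧ 0 < l ∧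
    μ * (1 + l) ≤ MU ∧ μ * ((1 + l) + (1 + 1 / l) * D) ≤ MY ∧ rR * D ≤ P ∧
    ILe D g xL ∧ ILe D g (fun _ => r) ∧ ILe D gR y2 ∧ ILe D gR (fun _ => rR) ∧
    ILe D (fun _ => 0) Ex ∧ ILe D (ldl xL yL) (fun a => 1 + Ex a) ∧
    ILe D BR (fun a => VR a + η * gR a - (MU * (a * U2 a ^ 2) + MY * y2 a ^ 2)) ∧
    ILe D BR (fun a => VR a + gR a - sR * (cR a - gR a) -
      (MU * (a * U2 a ^ 2) + MY * y2 a ^ 2)) ∧
    ILe D V' (fun a => VL a + BR a + (1 - χ0 - ϑ) * g a - K * Ex a -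
      ω * (lcr xL yL U2 y2 a + ν * (τ / 2) * ldl xL yL a + 1 / (2 * τ) * lq2 U2 y2 a) -
      2 * (B1 * c) * lq2 U2 y2 a) ∧
    ILe D V' (fun a => VL a + BR a + (1 - χ0 - ϑ) * g a - K * Ex a -
      ω * (lcr xL yL U2 y2 a + ν * (τ / 2) * ldl xL yL a + 1 / (2 * τ) * lq2 U2 y2 a) -
      2 * (B1 * c) * lq2 U2 y2 a - χ D * ((κ + ϑ) * g a + ω * (lcr xL yL U2 y2 a +
      ν * (τ / 2) * ldl xL yL a + 1 / (2 * τ) * lq2 U2 y2 a) +
      2 * (B1 * c) * lq2 U2 y2 a - c' a)) ∧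
    ILe D V' (fun a => VL a + BR a + g a - s * (cL a - g a) - K1 * Ex a -
      (lcr xL yL U2 y2 a + τ / 2 * ldl xL yL a + 1 / (2 * τ) * lq2 U2 y2 a) -
      2 * (B2 * c) * lq2 U2 y2 a) ∧
    ILe D V' (fun a => VL a + BR a + g a - χ D * (cL a - g a) - K2 * Ex a + χ D * c' a -
      (1 + χ D) * ((lcr xL yL U2 y2 a + τ / 2 * ldl xL yL a + 1 / (2 * τ) * lq2 U2 y2 a) +
      2 * (B2 * c) * lq2 U2 y2 a))

/-- **an odd number of children**: the child `i0` with `σ i0 = +` is split off; one total mass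
`D` -/
theorem GoodE.lf2D {χ : ℝ → ℝ} {K : ℕ} (O : Fin K → OBr) (σ e : Fin K → Bool)
    (V c : Fin K → ℝ → ℝ → ℝ) (h : ∀ i, GoodE χ (O i) (V i) (c i)) (hK : 2 ≤ K) (i0 : Fin K)
    (h0 : σ i0 = true) (hτ : ∑ i, sg (σ i) = 1) (xL yL U2 y2 : ℝ → ℝ)
    (hxL : ∀ a, sg (e i0) * (XX (O i0)).eval a = xL a) (hyL : ∀ a, (YY (O i0)).eval a = yL a)
    (hU2 : ∀ a, ∑ i ∈ univ.erase i0, sg (σ i) * (YY (O i)).eval a = U2 a)
    (hy2 : ∀ a, ∑ i ∈ univ.erase i0, sg (e i) * (XX (O i)).eval a = y2 a)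
    {V' c' : ℝ → ℝ} {D : ℝ}
    (H : LfE2 χ D (K - 1) xL yL U2 y2 (V i0 D) (c i0 D)
      (fun a => ∑ i ∈ univ.erase i0, V i D a) (fun a => ∑ i ∈ univ.erase i0, c i D a)
      V' c') (m : ℕ) (S : Fin m → Fin m → ℝ) (hS : Ker S) (w t : Fin m → ℝ) (hR : Rep S w t)
      (hDD : dee S = D) :
      MajE S ((fam σ e O).vS S) (XX (fam σ e O)) (YY (fam σ e O)) (χ (dee S))
        (nu w t V') (nu w t c') := by
  subst hDD
  obtain ⟨D1, χ0, K0, r, κ, σ0, s, K1, K2, τ, ω, ϑ, ν, B1, B2, P, cc, μ, η, sR, l, MU, MY, rR,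
    N, g, Ex, gR, BR, hOne, hl1, hl2, hsχ, hLC, hRC, hsR, hlp, hMU, hMY, hrR, hg, hgr, hgR, hgRr,
    hE0, hE, hBR1, hBR2, hb1, hb1', hb2, hb3⟩ := H
  have hM : ∀ i ∈ univ.erase i0, MMajE S (ms S (cn (σ i) (e i) (O i)))
      (sg (σ i) • (1 - X * YY (O i))) (sg (e i) • XX (O i))
      (nu w t fun a => sg (e i) * (XX (O i)).eval a) (χ (dee S)) (nu w t (V i (dee S)))
      (nu w t (c i (dee S))) := fun i _ => (h i).msg (σ i) (e i) hS hR
  obtain ⟨ex, hex, hL⟩ := (h i0).msgC (σ i0) (e i0) hS hR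
  rw [fam_vS, fam_XX, fam_YY]
  have ev : (fun z => ∏ i, ms S (cn (σ i) (e i) (O i)) z) = fun z =>
      ms S (cn (σ i0) (e i0) (O i0)) z * ∏ i ∈ univ.erase i0, ms S (cn (σ i) (e i) (O i)) z := by
    funext z
    exact (mul_prod_erase univ _ (mem_univ i0)).symm
  rw [ev, ← add_sum_erase univ (fun i => sg (σ i) • (1 - X * YY (O i))) (mem_univ i0),
    ← add_sum_erase univ (fun i => sg (e i) • XX (O i)) (mem_univ i0)]
  have hσs : ∑ i ∈ univ.erase i0, sg (σ i) = 0 := by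
    have h1 := add_sum_erase univ (fun i => sg (σ i)) (mem_univ i0)
    rw [hτ, h0, sg_true] at h1
    linarith
  set U' := ∑ i ∈ univ.erase i0, sg (σ i) • YY (O i) with hU'
  set y' := ∑ i ∈ univ.erase i0, sg (e i) • XX (O i) with hy'
  have hx' : ∑ i ∈ univ.erase i0, sg (σ i) • (1 - X * YY (O i)) = C 0 - X * U' := by
    have h1 : ∀ i : Fin K, sg (σ i) • (1 - X * YY (O i)) =
        C (sg (σ i)) - X * (sg (σ i) • YY (O i)) := by
      intro i
      rw [smul_sub, smul_eq_C_mul, mul_one, mul_smul_comm]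
    rw [Finset.sum_congr rfl fun i _ => h1 i, Finset.sum_sub_distrib, ← Finset.mul_sum,
      ← map_sum, hσs]
  have hUe : ∀ a, U'.eval a = U2 a := by
    intro a
    rw [hU', eval_finsetSum, ← hU2]
    exact Finset.sum_congr rfl fun i _ => by rw [eval_smul, smul_eq_mul]
  have hye : ∀ a, y'.eval a = y2 a := by
    intro a
    rw [hy', eval_finsetSum, ← hy2]
    exact Finset.sum_congr rfl fun i _ => by rw [eval_smul, smul_eq_mul]
  have henR : en S (∑ i ∈ univ.erase i0, sg (σ i) • (1 - X * YY (O i))) y' =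
      nu w t (lq2 U2 y2) := by
    rw [hx', hR.en_nu]
    congr 1
    funext a
    simp only [eval_sub, eval_C, eval_mul, eval_X, hUe, hye, lq2]
    ring
  have hen2 : en2 S U' y' = nu w t (le2 U2 y2) := by
    unfold en2
    rw [hR.mo_nu]
    congr 1
    funext a
    simp only [eval_add, eval_mul, eval_X, hUe, hye, le2]
    ring
  have henL : en S (sg (σ i0) • (1 - X * YY (O i0))) (sg (e i0) • XX (O i0)) =
      nu w t (ldl xL yL) := by
    rw [hR.en_nu]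
    congr 1
    funext a
    simp only [eval_sub, eval_mul, eval_X, eval_smul, eval_one, smul_eq_mul, h0, sg_true, hyL,
      hxL, ldl, one_mul]
  have hJ : ip (st S (sg (σ i0) • (1 - X * YY (O i0))) (sg (e i0) • XX (O i0)))
      (st S (∑ i ∈ univ.erase i0, sg (σ i) • (1 - X * YY (O i))) y') =
      nu w t (lcr xL yL U2 y2) := by
    rw [hx', ip_st S hS.anti, hR.mo_nu]
    congr 1
    funext a
    simp only [eval_sub, eval_add, eval_C, eval_mul, eval_X, eval_smul, eval_one, smul_eq_mul,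
      h0, sg_true, hyL, hUe, hye, lcr, one_mul]
    rw [← hxL]
    ring
  have hxx : (nu w t fun a => sg (e i0) * (XX (O i0)).eval a) = nu w t xL := by
    congr 1
    funext a
    exact hxL a
  -- the rest
  have hk0 := en2_nonneg (S := S) hS.anti U' y'
  have hbD := mo_sq_le_en2 hS U' y'
  have hw0 : 0 ≤ Real.sqrt (en2 S U' y') + mo S y' := by
    have h1 : mo S y' ^ 2 ≤ Real.sqrt (en2 S U' y') ^ 2 := by
      rw [Real.sq_sqrt hk0]
      refine hbD.trans ?_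
      have : dee S * en2 S U' y' ≤ 1 * en2 S U' y' :=
        mul_le_mul_of_nonneg_right (by linarith [hR.dee_le]) hk0
      linarith
    have h2 := abs_le_of_sq_le_sq h1 (Real.sqrt_nonneg _)
    linarith [(abs_le.1 h2).1]
  have hen2' : en2 S U' y' = (nu w t fun a => y2 a ^ 2) + (nu w t fun a => a * U2 a ^ 2) := by
    rw [hen2, ← nu_add]
    rfl
  have hmy2 : mo S (y' * y') = nu w t fun a => y2 a ^ 2 := by
    rw [hR.mo_nu]
    congr 1
    funext a
    simp only [eval_mul, hye]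
    ring
  have hU0 : 0 ≤ nu w t fun a => a * U2 a ^ 2 := by
    have h1 := hR.nu_mono (f := fun _ => 0) (g := fun a => a * U2 a ^ 2) fun a ha =>
      mul_nonneg ha.2.2.1 (sq_nonneg _)
    rwa [nu_zero] at h1
  have hy0 : 0 ≤ nu w t fun a => y2 a ^ 2 := by
    have h1 := hR.nu_mono (f := fun _ => 0) (g := fun a => y2 a ^ 2) fun a ha => sq_nonneg _
    rwa [nu_zero] at h1
  have hμw : μ * (Real.sqrt (en2 S U' y') + mo S y') ^ 2 ≤
      MU * (nu w t fun a => a * U2 a ^ 2) + MY * nu w t fun a => y2 a ^ 2 := by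
    have h1 := mul_le_mul_of_nonneg_left (sup_sq_le2 hS U' y' l hlp) hRC.hμ
    rw [hen2', hmy2] at h1
    have h2 := mul_le_mul_of_nonneg_right hMU hU0
    have h3 := mul_le_mul_of_nonneg_right hMY hy0
    rw [hen2']
    linarith
  have hcard : (univ.erase i0).card = K - 1 := by
    rw [card_erase_of_mem (mem_univ i0), card_univ, Fintype.card_fin]
  have hGR : nu w t gR ≤ ∑ i ∈ univ.erase i0, (nu w t fun a => sg (e i) * (XX (O i)).eval a) := by
    rw [← nu_finset_sum]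
    have h1 := hgR m S hS w t hR rfl
    refine h1.trans (le_of_eq ?_)
    congr 1
    funext a
    exact (hy2 a).symm
  have hGRP : nu w t gR ≤ P := by
    have := hgRr m S hS w t hR rfl
    rw [hR.nu_const] at this
    exact this.trans hrR
  have hrest : RMaj S (fun z => ∏ i ∈ univ.erase i0, ms S (cn (σ i) (e i) (O i)) z)
      (∑ i ∈ univ.erase i0, sg (σ i) • (1 - X * YY (O i))) y' cc (nu w t BR) := by
    refine MMajE.rest (univ.erase i0) (K - 1) hcard (by omega) _ _ _ _ _ _ hM hRC hsR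
      (Real.sqrt (en2 S U' y') + mo S y') (nu w t gR) hw0 (fun z => ?_) hGR hGRP ?_ ?_
    · have h1 := st_sup hS 0 U' y' z
      rw [show (0 : ℝ) ^ 2 + en2 S U' y' = en2 S U' y' by ring] at h1
      rw [hx', ← hy']
      exact h1
    · have h1 := hBR1 m S hS w t hR rfl
      simp only [nu_add, nu_sub, nu_mul, nu_finset_sum] at h1
      linarith
    · have h1 := hBR2 m S hS w t hR rfl
      simp only [nu_add, nu_sub, nu_mul, nu_finset_sum] at h1
      linarith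
  -- the split child
  have hgr' : nu w t g ≤ r * dee S := by
    have := hgr m S hS w t hR rfl
    rwa [hR.nu_const] at this
  have hE0' : 0 ≤ nu w t Ex := by
    have := hE0 m S hS w t hR rfl
    rwa [nu_zero] at this
  have hen : en S (sg (σ i0) • (1 - X * YY (O i0))) (sg (e i0) • XX (O i0)) ≤
      D1 + nu w t Ex := by
    have h1 := hE m S hS w t hR rfl
    have h1' : (nu w t fun a => 1 + Ex a) = dee S + nu w t Ex := by
      rw [nu_add, hR.nu_const, one_mul]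
    rw [h1'] at h1
    rw [henL]
    linarith [hOne.hD]
  have hen0 : 0 ≤ en S (sg (σ i0) • (1 - X * YY (O i0))) (sg (e i0) • XX (O i0)) :=
    en_nonneg hS.anti _ _
  have hgg : nu w t g ≤ nu w t fun a => sg (e i0) * (XX (O i0)).eval a := by
    rw [hxx]
    exact hg m S hS w t hR rfl
  have hcc := hRC.hc
  have hχ00 : 0 ≤ χ (dee S) := hl1.hs.trans hsχ
  have hνe := mul_le_mul_of_nonneg_left (mul_le_mul_of_nonneg_right (mul_le_mul_of_nonneg_right
    hLC.hν (show 0 ≤ τ / 2 by have := hLC.hτ; positivity)) hen0) hLC.hω0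
  refine MMajC.left' hS hex (hL.cap hgg) hrest D1 χ0 K0 (nu w t Ex) (r * dee S) κ s K1 K2 τ ω ϑ
    B1 B2 (hR.dee_nonneg.trans hOne.hD) hOne.hχ0 hOne.hχ01 hOne.hχD hE0' hen hOne.hK hgr'
    (mul_nonneg hOne.hr0 hR.dee_nonneg) hOne.hr hOne.hκ0 hOne.hκ1 hOne.hκ hl1.hs hsχ
    (fun r hr => ?_) (fun r hr => ?_) hLC.hτ hLC.hω0 hLC.hω hLC.hϑ hLC.hB1 hLC.hB1' hLC.hB2 hcc
    ?_ ?_ ?_ ?_
  · have := hl1.ineq hen0 hE0' hen r hr
    rwa [one_mul] at this
  · exact hl2.ineq hen0 hE0' hen r hr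
  · have h1 := hb1 m S hS w t hR rfl
    simp only [nu_add, nu_sub, nu_mul] at h1
    rw [hJ, henR]
    rw [← henL] at h1
    refine h1.trans (le_of_sub_nonneg (le_of_le_of_eq (sub_nonneg.2 hνe) ?_))
    ring
  · have h1 := hb1' m S hS w t hR rfl
    simp only [nu_add, nu_sub, nu_mul] at h1
    rw [hJ, henR]
    rw [← henL] at h1
    have h2 := mul_le_mul_of_nonneg_left hνe (show 0 ≤ 1 + χ (dee S) by linarith)
    refine h1.trans (le_of_sub_nonneg (le_of_le_of_eq (sub_nonneg.2 h2) ?_))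
    ring
  · have h1 := hb2 m S hS w t hR rfl
    simp only [nu_add, nu_sub, nu_mul] at h1
    rw [hJ, henL, henR]
    refine h1.trans (le_of_eq ?_)
    ring
  · have h1 := hb3 m S hS w t hR rfl
    simp only [nu_add, nu_sub, nu_mul] at h1
    rw [hJ, henL, henR]
    refine h1.trans (le_of_eq ?_)
    ring

/-- **an odd number of children**: the child `i0` with `σ i0 = +` is split off -/
theorem GoodE.lf2 {χ : ℝ → ℝ} {K : ℕ} (O : Fin K → OBr) (σ e : Fin K → Bool)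
    (V c : Fin K → ℝ → ℝ → ℝ) (h : ∀ i, GoodE χ (O i) (V i) (c i)) (hK : 2 ≤ K) (i0 : Fin K)
    (h0 : σ i0 = true) (hτ : ∑ i, sg (σ i) = 1) (xL yL U2 y2 : ℝ → ℝ)
    (hxL : ∀ a, sg (e i0) * (XX (O i0)).eval a = xL a) (hyL : ∀ a, (YY (O i0)).eval a = yL a)
    (hU2 : ∀ a, ∑ i ∈ univ.erase i0, sg (σ i) * (YY (O i)).eval a = U2 a)
    (hy2 : ∀ a, ∑ i ∈ univ.erase i0, sg (e i) * (XX (O i)).eval a = y2 a)
    {V' c' : ℝ → ℝ → ℝ}
    (H : ∀ D, RD D → LfE2 χ D (K - 1) xL yL U2 y2 (V i0 D) (c i0 D)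
      (fun a => ∑ i ∈ univ.erase i0, V i D a) (fun a => ∑ i ∈ univ.erase i0, c i D a)
      (V' D) (c' D)) : GoodE χ (fam σ e O) V' c' :=
  fun m S hS w t hR => GoodE.lf2D O σ e V c h hK i0 h0 hτ xL yL U2 y2 hxL hyL hU2 hy2
    (H _ ⟨hR.dee_nonneg, hR.dee_le⟩) m S hS w t hR rfl

/-- one coefficient is a special case -/
lemma LfE.to2 {χ : ℝ → ℝ} {D : ℝ} (hD : 0 ≤ D) {k : ℕ} {xL yL U2 y2 VL cL VR cR V' c' : ℝ → ℝ}
    (h : LfE χ D k xL yL U2 y2 VL cL VR cR V' c') :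
    LfE2 χ D k xL yL U2 y2 VL cL VR cR V' c' := by
  obtain ⟨D1, χ0, K0, r, κ, σ0, s, K1, K2, τ, ω, ϑ, ν, B1, B2, P, cc, μ, η, sR, l, ψ, rR, N, g,
    Ex, gR, BR, hOne, hl1, hl2, hsχ, hLC, hRC, hsR, hlp, hψ, hrR, hg, hgr, hgR, hgRr, hE0, hE,
    hBR1, hBR2, hb1, hb1', hb2, hb3⟩ := h
  have hμ := hRC.hμ
  refine ⟨D1, χ0, K0, r, κ, σ0, s, K1, K2, τ, ω, ϑ, ν, B1, B2, P, cc, μ, η, sR, l, μ * ψ, μ * ψ,
    rR, N, g, Ex, gR, BR, hOne, hl1, hl2, hsχ, hLC, hRC, hsR, hlp, ?_,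
    mul_le_mul_of_nonneg_left hψ hμ, hrR, hg, hgr, hgR, hgRr, hE0, hE, ?_, ?_, hb1, hb1', hb2,
    hb3⟩
  · have h1 : 0 ≤ (1 + 1 / l) * D := by positivity
    exact mul_le_mul_of_nonneg_left (by linarith) hμ
  · refine hBR1.trans (ILe.pt fun a _ => ?_)
    unfold le2
    linarith
  · refine hBR2.trans (ILe.pt fun a _ => ?_)
    unfold le2
    linarith

end

end Pool.Agent.TSM
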