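import Pool.Agent.TSM.Fam5
import Pool.Agent.TSM.LfG

set_option autoImplicit false

/-!
# The step with an odd number of children, one of them split off, two coefficients
(MP_d27362_co)
-/

namespace Pool.Agent.TSM

open Finset Polynomial
open Pool.Agent.TSP
open Pool.Agent.TSO
open Pool.Agent.TSR (OBr Ker)
open Pool.Agent.TLT (sg)
open Pool.Agent.TDN (dn dn_nonneg)

noncomputable section

/-- the constants of the rule which splits off one child, two coefficients in the bound of the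
rest; the field `ψ` is not used -/
structure LK2 extends LK where
  /-- factor of `a U2²` -/
  MU : ℝ
  /-- factor of `y2²` -/
  MY : ℝ

/-- the conditions on the constants -/
structure LK2.Ok (C : LK2) (χD D : ℝ) (k : ℕ) : Prop where
  h1 : OneE D C.D1 C.χ0 C.K C.r C.κ
  h2 : LossC C.D1 C.σ0 C.s 1 C.K1
  h3 : LossC C.D1 C.σ0 χD (1 + χD) C.K2
  h4 : C.s ≤ χD
  h5 : LeftC (C.r * D) C.χ0 C.τ C.ω C.ϑ C.ν C.B1 C.B2
  h6 : RestC k C.P C.c C.μ C.η C.sR C.N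
  h7 : C.sR ≤ χD
  h8 : 0 < C.l
  h9U : C.μ * (1 + C.l) ≤ C.MU
  h9Y : C.μ * ((1 + C.l) + (1 + 1 / C.l) * D) ≤ C.MY
  h10 : C.rR * D ≤ C.P
  h11 : 0 ≤ C.η

/-- **the rule from its lines** -/
theorem lfE_of2 {χ : ℝ → ℝ} {D : ℝ} {k : ℕ} (C : LK2) (hC : C.Ok (χ D) D k)
    {xL yL U2 y2 VL cL VR cR V' c' : ℝ → ℝ} {s : ℝ} (hs : 0 ≤ s)
    (H : ∀ a, Reg D a → a < q0 → 0 < D → ∀ G hG hS : ℝ, (G = y2 a ∨ G = C.rR) →
      ((hG = C.η ∧ hS = 0) ∨ (hG = 1 + C.sR ∧ hS = C.sR)) →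
      C.Ln (χ D) xL yL U2 y2 VL cL
        (VR a + hG * G - hS * cR a - (C.MU * (a * U2 a ^ 2) + C.MY * y2 a ^ 2))
        (min (xL a) C.r)
        (max 0 (ldl xL yL a - 1)) (V' a + s * (1 - D / (q0 - a))) (c' a) a) :
    LfE2 χ D k xL yL U2 y2 VL cL VR cR V' c' := by
  have hsR := hC.h6.hs0
  have hη := hC.h11
  -- the two banks
  set gR : ℝ → ℝ := fun a => min (y2 a) C.rR with hgR
  set b1 : ℝ → ℝ := fun a => VR a + C.η * gR a -
    (C.MU * (a * U2 a ^ 2) + C.MY * y2 a ^ 2) with hb1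
  set b2 : ℝ → ℝ := fun a => VR a + gR a - C.sR * (cR a - gR a) -
    (C.MU * (a * U2 a ^ 2) + C.MY * y2 a ^ 2) with hb2
  have key : ∀ a, Reg D a → a < q0 → 0 < D →
      C.Ln (χ D) xL yL U2 y2 VL cL (min (b1 a) (b2 a)) (min (xL a) C.r)
        (max 0 (ldl xL yL a - 1)) (V' a + s * (1 - D / (q0 - a))) (c' a) a := by
    intro a ha hq hD
    have e1 : ∃ G hG hS : ℝ, (G = y2 a ∨ G = C.rR) ∧
        ((hG = C.η ∧ hS = 0) ∨ (hG = 1 + C.sR ∧ hS = C.sR)) ∧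
        VR a + hG * G - hS * cR a - (C.MU * (a * U2 a ^ 2) + C.MY * y2 a ^ 2) =
          min (b1 a) (b2 a) := by
      have e2 : gR a = y2 a ∨ gR a = C.rR := by
        rcases le_total (y2 a) C.rR with h | h
        · exact Or.inl (min_eq_left h)
        · exact Or.inr (min_eq_right h)
      rcases le_total (b1 a) (b2 a) with h | h
      · rw [min_eq_left h]
        refine ⟨gR a, C.η, 0, e2, Or.inl ⟨rfl, rfl⟩, ?_⟩
        simp only [hb1]
        ring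
      · rw [min_eq_right h]
        refine ⟨gR a, 1 + C.sR, C.sR, e2, Or.inr ⟨rfl, rfl⟩, ?_⟩
        simp only [hb2]
        ring
    obtain ⟨G, hG, hS, h1, h2, h3⟩ := e1
    have := H a ha hq hD G hG hS h1 h2
    rwa [h3] at this
  refine ⟨C.D1, C.χ0, C.K, C.r, C.κ, C.σ0, C.s, C.K1, C.K2, C.τ, C.ω, C.ϑ, C.ν, C.B1, C.B2, C.P,
    C.c, C.μ, C.η, C.sR, C.l, C.MU, C.MY, C.rR, C.N, fun a => min (xL a) C.r,
    fun a => max 0 (ldl xL yL a - 1), gR, fun a => min (b1 a) (b2 a), hC.h1, hC.h2, hC.h3, hC.h4,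
    hC.h5, hC.h6, hC.h7, hC.h8, hC.h9U, hC.h9Y, hC.h10, ILe.pt fun a _ => min_le_left _ _,
    ILe.pt fun a _ => min_le_right _ _, ILe.pt fun a _ => min_le_left _ _,
    ILe.pt fun a _ => min_le_right _ _, ILe.pt fun a _ => le_max_left _ _,
    ILe.pt fun a _ => ?_, ILe.pt fun a _ => min_le_left _ _, ILe.pt fun a _ => min_le_right _ _,
    ILe.c1 s hs fun a ha hq hD => ?_, ILe.c1 s hs fun a ha hq hD => ?_,
    ILe.c1 s hs fun a ha hq hD => ?_, ILe.c1 s hs fun a ha hq hD => ?_⟩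
  · have := le_max_right 0 (ldl xL yL a - 1)
    linarith
  · have h := (key a ha hq hD).1
    unfold q0 LK.Q1 at h
    linarith
  · have h := (key a ha hq hD).2.1
    unfold q0 LK.Q1 at h
    linarith
  · have h := (key a ha hq hD).2.2.1
    unfold q0 LK.Q2 at h
    linarith
  · have h := (key a ha hq hD).2.2.2
    unfold q0 LK.Q2 at h
    linarith

/-! ### a trivial child is split off -/

variable {K : ℕ} {O : Fin K → OBr} {N : Finset (Fin K)}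
  {Y : Sys} {Adm : ℕ → ℝ → ℝ → ℝ → ℝ → Prop} {V P : ℝ → ℝ → Sn → ℝ} {χ : ℝ → ℝ}

/-- the coefficients of the new state for one line, two coefficients; `G0 + G1 y'` is the gain of
the rest with the factor `hG` -/
def NS.lf2 (p : NS) (q : Q5) (MU MY : ℝ) (L : LnC) (ξ a hG G0 G1 : ℝ) : NS :=
  p.add (MY * ξ ^ 2 - L.al * (a * ξ ^ 2) + L.la * (1 + a * ξ ^ 2) + L.b * (a * ξ ^ 2) -
      L.z * q.c + L.k - hG * G0)
    (-(L.al * a) - L.z * q.al) (MU * a + L.b * a ^ 2 - L.z * q.be)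
    (-(2 * MY * ξ) + L.al * (a * ξ) - 2 * L.b * (a * ξ) - L.z * q.ga - hG * G1)
    (MY + L.b * a - L.z * q.de)

/-- **the inequality of an odd number of children from the lines of the children**, a trivial child
with the gain `ξ` is split off, two coefficients. `NV a`, `NP a` are the potential and the pending
cost of the new type -/
theorem lfE_lines2 {σ e ρ : Fin K → Bool} {tc : Fin K → ℕ} {m f n vm fv fg D ξ : ℝ}
    (hS : FamS O N σ e ρ m f n vm fv fg) {ty : ℕ}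
    (NV : ℝ → NS) (hV : ∀ a, Reg D a → ∀ u y vU vY aU aY,
      V D a ⟨ty, u, y, vU, vY, aU, aY⟩ = (NV a).ev ⟨ty, u, y, vU, vY, aU, aY⟩)
    (NP : ℝ → Q5) (hP : ∀ a, Reg D a → ∀ u y vU vY aU aY,
      P D a ⟨ty, u, y, vU, vY, aU, aY⟩ = (NP a).ev ⟨ty, u, y, vU, vY, aU, aY⟩)
    (C : LK2) {k : ℕ} (hC : C.Ok (χ D) D k) (pay : Fin K → ℝ) (hpay : ∀ i ∈ N, 0 ≤ pay i)
    (H : ∀ a, Reg D a → a < q0 → 0 < D → ∀ (i4 : Fin 4) (G0 G1 hG hS' : ℝ),
      ((G0 = -ξ ∧ G1 = 1) ∨ (G0 = C.rR ∧ G1 = 0)) →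
      ((hG = C.η ∧ hS' = 0) ∨ (hG = 1 + C.sR ∧ hS' = C.sR)) →
      ∃ κ c, ∃ sh : Fin K → ℝ,
      Spl ((NV a).lf2 (NP a) C.MU C.MY (C.ln (χ D) ξ a i4) ξ a hG G0 G1) a m f n vm fv κ c fg ∧
      (∀ i ∈ N, sh i + pay i * (1 - D / (q0 - a)) +
        c.ev (sg (σ i)) (sg (e i)) (sg (ρ i)) ((chd (tc i) (O i)).sn a) ≤
          V D a ((chd (tc i) (O i)).sn a) - hS' * P D a ((chd (tc i) (O i)).sn a)) ∧
      κ ≤ ∑ i ∈ N, sh i) :
    LfE2 χ D k (fun _ => ξ) (fun _ => 0) (fun a => (UU (fam σ e O)).eval a)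
        (fun a => (YY (fam σ e O)).eval a - ξ) (fun _ => 0) (fun _ => 0)
        (fun a => ∑ i, Vi V N tc O i D a) (fun a => ∑ i, Vi P N tc O i D a)
        (fun a => V D a ((chd ty (fam σ e O)).sn a))
        (fun a => P D a ((chd ty (fam σ e O)).sn a)) := by
  have hs : 0 ≤ ∑ i ∈ N, pay i := sum_nonneg hpay
  have eV : ∀ a, Reg D a → V D a ((chd ty (fam σ e O)).sn a) =
      (NV a).ev ((chd ty (fam σ e O)).sn a) := fun a ha => hV a ha _ _ _ _ _ _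
  have eP : ∀ a, Reg D a → P D a ((chd ty (fam σ e O)).sn a) =
      (NP a).ev ((chd ty (fam σ e O)).sn a) := fun a ha => hP a ha _ _ _ _ _ _
  refine lfE_of2 C hC hs fun a ha hq hD G hG hS' h1 h2 => ?_
  -- the two forms of the gain
  obtain ⟨G0, G1, h3, h4⟩ : ∃ G0 G1 : ℝ, ((G0 = -ξ ∧ G1 = 1) ∨ (G0 = C.rR ∧ G1 = 0)) ∧
      G = G0 + G1 * (YY (fam σ e O)).eval a := by
    rcases h1 with h1 | h1
    · exact ⟨-ξ, 1, Or.inl ⟨rfl, rfl⟩, by rw [h1]; ring⟩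
    · exact ⟨C.rR, 0, Or.inr ⟨rfl, rfl⟩, by rw [h1]; ring⟩
  have key : ∀ i4 : Fin 4,
      ((NV a).lf2 (NP a) C.MU C.MY (C.ln (χ D) ξ a i4) ξ a hG G0 G1).ev
        ((chd ty (fam σ e O)).sn a) + (∑ i ∈ N, pay i) * (1 - D / (q0 - a)) ≤
      ∑ i, Vi V N tc O i D a - hS' * ∑ i, Vi P N tc O i D a := by
    intro i4
    obtain ⟨κ, c, sh, g1, g2, g3⟩ := H a ha hq hD i4 G0 G1 hG hS' h3 h2
    have h5 := hS.line ha.2.2.1 hq.le g1 ty tc
      (fun i => Vi V N tc O i D a - hS' * Vi P N tc O i D a)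
      (fun i hi => by rw [Vi_not V tc O hi, Vi_not P tc O hi]; ring) sh pay (1 - D / (q0 - a))
      (fun i hi => by rw [Vi_mem V tc O hi, Vi_mem P tc O hi]; exact g2 i hi) g3 (by simp)
    rw [sum_sub_distrib, ← mul_sum] at h5
    exact h5
  have hmax : max 0 (ldl (fun _ => ξ) (fun _ => 0) a - 1) = a * ξ ^ 2 := by
    unfold ldl
    have : 0 ≤ a * ξ ^ 2 := mul_nonneg ha.2.2.1 (sq_nonneg _)
    rw [max_eq_right (by linarith)]
    ring
  have k0 := key 0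
  have k1 := key 1
  have k2 := key 2
  have k3 := key 3
  unfold NS.lf2 at k0 k1 k2 k3
  rw [NS.add_ev] at k0 k1 k2 k3
  rw [← eV a ha] at k0 k1 k2 k3
  have eP' := eP a ha
  unfold Q5.ev at eP'
  set s' := (chd ty (fam σ e O)).sn a with hs'
  have eu : (UU (fam σ e O)).eval a = s'.u := rfl
  have ey : (YY (fam σ e O)).eval a = s'.y := rfl
  simp only [LK.ln] at k0 k1 k2 k3
  have hτ0 : C.τ ≠ 0 := ne_of_gt hC.h5.hτ
  rw [hmax, h4]
  unfold LK.Ln LK.Q1 LK.Q2 lcr ldl lq2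
  dsimp only
  rw [eu, ey, eP']
  have e5 : C.ω / (2 * C.τ) = C.ω * (1 / (2 * C.τ)) := by ring
  rw [e5] at k0 k1
  refine ⟨?_, ?_, ?_, ?_⟩
  · linarith
  · linarith
  · linarith
  · linarith

end

end Pool.Agent.TSM
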