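import Pool.Agent.TSM.FamL2
import Pool.Agent.TSM.LfH

set_option autoImplicit false

/-!
# The step with an odd number of children, a nontrivial child is split off: lines
(MP_d27362_co)
-/

namespace Pool.Agent.TSM

open Finset Polynomial
open Pool.Agent.TSP
open Pool.Agent.TSO
open Pool.Agent.TSR (OBr Ker)
open Pool.Agent.TLT (sg)
open Pool.Agent.TDN (dn dn_nonneg)

noncomputable section

/-- the values of the forms `γ0 + γ1 x + γ2 x²` in `F` are below `min x r`, one of them suffices -/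
def Caps (F : ℝ → ℝ → ℝ → Prop) (r : ℝ) : Prop :=
  ∀ x : ℝ, ∃ γ0 γ1 γ2 : ℝ, F γ0 γ1 γ2 ∧ γ0 + γ1 * x + γ2 * x ^ 2 ≤ x ∧
    γ0 + γ1 * x + γ2 * x ^ 2 ≤ r

/-- the two forms `x` and `r` -/
lemma caps_two (r : ℝ) :
    Caps (fun c0 c1 c2 => (c0 = 0 ∧ c1 = 1 ∧ c2 = 0) ∨ (c0 = r ∧ c1 = 0 ∧ c2 = 0)) r := by
  intro x
  rcases le_total x r with h | h
  · exact ⟨0, 1, 0, Or.inl ⟨rfl, rfl, rfl⟩, by linarith, by linarith⟩
  · exact ⟨r, 0, 0, Or.inr ⟨rfl, rfl, rfl⟩, by linarith, by linarith⟩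

/-- the form `x - t x²` -/
lemma caps_one {r t : ℝ} (ht : 0 ≤ t) (h : 1 ≤ 4 * t * r) :
    Caps (fun c0 c1 c2 => c0 = 0 ∧ c1 = 1 ∧ c2 = -t) r := by
  intro x
  refine ⟨0, 1, -t, ⟨rfl, rfl, rfl⟩, by nlinarith [mul_nonneg ht (sq_nonneg x)], ?_⟩
  have ht' : 0 < t := by
    rcases ht.lt_or_eq with h1 | h1
    · exact h1
    · rw [← h1] at h
      norm_num at h
  have h2 : 0 ≤ t * (r - (0 + 1 * x + -t * x ^ 2)) := by nlinarith [sq_nonneg (t * x - 1 / 2)]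
  have h3 := nonneg_of_mul_nonneg_right h2 ht'
  linarith

/-- the two forms `x` and `0` -/
lemma caps_zero : Caps (fun c0 c1 c2 => (c0 = 0 ∧ c1 = 1 ∧ c2 = 0) ∨
    (c0 = 0 ∧ c1 = 0 ∧ c2 = 0)) 0 := caps_two 0

/-- **the rule from its lines**; the forms `F` are for the gain of `L`, `F'` for that of the rest -/
theorem lfE_of3 {χ : ℝ → ℝ} {D : ℝ} {k : ℕ} (C : LK2) (hC : C.Ok (χ D) D k)
    {F F' : ℝ → ℝ → ℝ → Prop} (hF : Caps F C.r) (hF' : Caps F' C.rR)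
    {xL yL U2 y2 VL cL VR cR V' c' : ℝ → ℝ} {s : ℝ} (hs : 0 ≤ s)
    (H : ∀ a, Reg D a → a < q0 → 0 < D → ∀ γ0 γ1 γ2 δ0 δ1 δ2 ε hG hS : ℝ, F γ0 γ1 γ2 →
      F' δ0 δ1 δ2 → (ε = 0 ∨ ε = 1) →
      ((hG = C.η ∧ hS = 0) ∨ (hG = 1 + C.sR ∧ hS = C.sR)) →
      C.Ln (χ D) xL yL U2 y2 VL cL
        (VR a + hG * (δ0 + δ1 * y2 a + δ2 * y2 a ^ 2) - hS * cR a -
          (C.MU * (a * U2 a ^ 2) + C.MY * y2 a ^ 2))
        (γ0 + γ1 * xL a + γ2 * xL a ^ 2) (ε * (ldl xL yL a - 1))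
        (V' a + s * (1 - D / (q0 - a))) (c' a) a) :
    LfE2 χ D k xL yL U2 y2 VL cL VR cR V' c' := by
  have hsR := hC.h6.hs0
  have hη := hC.h11
  choose γ0 γ1 γ2 hγ hγ1 hγ2 using hF
  choose δ0 δ1 δ2 hδ hδ1 hδ2 using hF'
  set g : ℝ → ℝ := fun a => γ0 (xL a) + γ1 (xL a) * xL a + γ2 (xL a) * xL a ^ 2 with hg
  set gR : ℝ → ℝ := fun a => δ0 (y2 a) + δ1 (y2 a) * y2 a + δ2 (y2 a) * y2 a ^ 2 with hgR
  set b1 : ℝ → ℝ := fun a => VR a + C.η * gR a -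
    (C.MU * (a * U2 a ^ 2) + C.MY * y2 a ^ 2) with hb1
  set b2 : ℝ → ℝ := fun a => VR a + gR a - C.sR * (cR a - gR a) -
    (C.MU * (a * U2 a ^ 2) + C.MY * y2 a ^ 2) with hb2
  have key : ∀ a, Reg D a → a < q0 → 0 < D →
      C.Ln (χ D) xL yL U2 y2 VL cL (min (b1 a) (b2 a)) (g a)
        (max 0 (ldl xL yL a - 1)) (V' a + s * (1 - D / (q0 - a))) (c' a) a := by
    intro a ha hq hD
    have e1 : ∃ hG hS : ℝ, ((hG = C.η ∧ hS = 0) ∨ (hG = 1 + C.sR ∧ hS = C.sR)) ∧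
        VR a + hG * gR a - hS * cR a - (C.MU * (a * U2 a ^ 2) + C.MY * y2 a ^ 2) =
          min (b1 a) (b2 a) := by
      rcases le_total (b1 a) (b2 a) with h | h
      · rw [min_eq_left h]
        refine ⟨C.η, 0, Or.inl ⟨rfl, rfl⟩, ?_⟩
        simp only [hb1]
        ring
      · rw [min_eq_right h]
        refine ⟨1 + C.sR, C.sR, Or.inr ⟨rfl, rfl⟩, ?_⟩
        simp only [hb2]
        ring
    obtain ⟨hG, hS, h2, h3⟩ := e1
    have e2 : ∃ ε : ℝ, (ε = 0 ∨ ε = 1) ∧ max 0 (ldl xL yL a - 1) = ε * (ldl xL yL a - 1) := by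
      rcases le_total 0 (ldl xL yL a - 1) with h | h
      · exact ⟨1, Or.inr rfl, by rw [max_eq_right h, one_mul]⟩
      · exact ⟨0, Or.inl rfl, by rw [max_eq_left h, zero_mul]⟩
    obtain ⟨ε, hε, h4⟩ := e2
    have := H a ha hq hD _ _ _ _ _ _ ε hG hS (hγ (xL a)) (hδ (y2 a)) hε h2
    rw [h4, ← h3]
    exact this
  refine ⟨C.D1, C.χ0, C.K, C.r, C.κ, C.σ0, C.s, C.K1, C.K2, C.τ, C.ω, C.ϑ, C.ν, C.B1, C.B2, C.P,
    C.c, C.μ, C.η, C.sR, C.l, C.MU, C.MY, C.rR, C.N, g,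
    fun a => max 0 (ldl xL yL a - 1), gR, fun a => min (b1 a) (b2 a), hC.h1, hC.h2, hC.h3, hC.h4,
    hC.h5, hC.h6, hC.h7, hC.h8, hC.h9U, hC.h9Y, hC.h10, ILe.pt fun a _ => hγ1 _,
    ILe.pt fun a _ => hγ2 _, ILe.pt fun a _ => hδ1 _,
    ILe.pt fun a _ => hδ2 _, ILe.pt fun a _ => le_max_left _ _,
    ILe.pt fun a _ => ?_, ILe.pt fun a _ => min_le_left _ _, ILe.pt fun a _ => min_le_right _ _,
    ILe.c1 s hs fun a ha hq hD => ?_, ILe.c1 s hs fun a ha hq hD => ?_,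
    ILe.c1 s hs fun a ha hq hD => ?_, ILe.c1 s hs fun a ha hq hD => ?_⟩
  · have := le_max_right 0 (ldl xL yL a - 1)
    linarith
  · have h := (key a ha hq hD).1
    unfold q0 LK.Q1 at h
    linarith
  · have h := (key a ha hq hD).2.1
    unfold q0 LK.Q1 at h
    linarith
  · have h := (key a ha hq hD).2.2.1
    unfold q0 LK.Q2 at h
    linarith
  · have h := (key a ha hq hD).2.2.2
    unfold q0 LK.Q2 at h
    linarith

/-! ### one line -/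

/-- the coefficients of one line: `al`, `la`, `b` are the factors of `lcr`, `ldl`, `lq2`, `z` is the
factor of the pending cost of the new vertex, `ag` the factor of the gain of `L`, `KE` that of the
excess of its energy and `zL` that of its pending cost -/
structure LnL where
  /-- factor of the mixed moment -/
  al : ℝ
  /-- factor of the second moment of `L` -/
  la : ℝ
  /-- factor of the second moment of the rest -/
  b : ℝ
  /-- factor of the pending cost of the new vertex -/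
  z : ℝ
  /-- factor of the gain of `L` -/
  ag : ℝ
  /-- factor of the excess of the energy of `L` -/
  KE : ℝ
  /-- factor of the pending cost of `L` -/
  zL : ℝ

/-- the four lines -/
def LK.lnL (C : LK) (χD : ℝ) : Fin 4 → LnL
  | 0 => ⟨C.ω, C.ω * (C.ν * (C.τ / 2)), C.ω * (1 / (2 * C.τ)) + 2 * (C.B1 * C.c), 0,
      1 - C.χ0 - C.ϑ, C.K, 0⟩
  | 1 => ⟨(1 + χD) * C.ω, (1 + χD) * (C.ω * (C.ν * (C.τ / 2))),
      (1 + χD) * (C.ω * (1 / (2 * C.τ)) + 2 * (C.B1 * C.c)), χD,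
      1 - C.χ0 - C.ϑ - χD * (C.κ + C.ϑ), C.K, 0⟩
  | 2 => ⟨1, C.τ / 2, 1 / (2 * C.τ) + 2 * (C.B2 * C.c), 0, 1 + C.s, C.K1, C.s⟩
  | 3 => ⟨1 + χD, (1 + χD) * (C.τ / 2), (1 + χD) * (1 / (2 * C.τ) + 2 * (C.B2 * C.c)), χD,
      1 + χD, C.K2, χD⟩

/-- the four lines as one inequality each -/
lemma LK.Ln_of {C : LK} {χD : ℝ} {xL yL U2 y2 VL cL : ℝ → ℝ} {B g E V' c' a : ℝ}
    (h : ∀ i4 : Fin 4, V' ≤ VL a + B + (C.lnL χD i4).ag * g - (C.lnL χD i4).KE * E -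
      (C.lnL χD i4).zL * cL a - (C.lnL χD i4).al * lcr xL yL U2 y2 a -
      (C.lnL χD i4).la * ldl xL yL a - (C.lnL χD i4).b * lq2 U2 y2 a +
      (C.lnL χD i4).z * c') : C.Ln χD xL yL U2 y2 VL cL B g E V' c' a := by
  have h0 := h 0
  have h1 := h 1
  have h2 := h 2
  have h3 := h 3
  simp only [LK.lnL] at h0 h1 h2 h3
  unfold LK.Ln LK.Q1 LK.Q2
  refine ⟨?_, ?_, ?_, ?_⟩
  · linarith
  · linarith
  · linarith
  · linarith

/-- the data of one line -/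
def LnL.ld (L : LnL) (MU MY γ1 γ2 δ1 δ2 ε hG k1 k2 : ℝ) : LD :=
  ⟨L.al, L.la + L.KE * ε, L.b, MU, MY, hG * δ1, hG * δ2, L.ag * γ1, L.ag * γ2, k1, k2⟩

/-- the coefficients of the new state for one line -/
def NS.lfL (p : NS) (q : Q5) (z : ℝ) : NS :=
  p.add (-(z * q.c)) (-(z * q.al)) (-(z * q.be)) (-(z * q.ga)) (-(z * q.de))

lemma NS.lfL_ev (p : NS) (q : Q5) (z : ℝ) (s : Sn) : (p.lfL q z).ev s = p.ev s - z * q.ev s := by
  unfold NS.lfL Q5.ev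
  rw [NS.add_ev]
  ring

variable {K : ℕ} {O : Fin K → OBr} {N : Finset (Fin K)}
  {Y : Sys} {Adm : ℕ → ℝ → ℝ → ℝ → ℝ → Prop} {V P : ℝ → ℝ → Sn → ℝ} {χ : ℝ → ℝ}
  {σ e ρ : Fin K → Bool} {tc : Fin K → ℕ} {L : Fin K} {m f f2 n nL nR vm fv v2m kL kR D : ℝ}

/-- **the inequality of an odd number of children from the lines of the children**, the nontrivial
child `L` is split off -/
theorem lfE_linesL (hS : FamL O N σ e ρ L m f f2 n nL nR vm fv v2m kL kR) {ty : ℕ}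
    (NV : ℝ → NS) (hV : ∀ a, Reg D a → ∀ u y vU vY aU aY,
      V D a ⟨ty, u, y, vU, vY, aU, aY⟩ = (NV a).ev ⟨ty, u, y, vU, vY, aU, aY⟩)
    (NP : ℝ → Q5) (hP : ∀ a, Reg D a → ∀ u y vU vY aU aY,
      P D a ⟨ty, u, y, vU, vY, aU, aY⟩ = (NP a).ev ⟨ty, u, y, vU, vY, aU, aY⟩)
    (C : LK2) {k : ℕ} (hC : C.Ok (χ D) D k)
    {F F' : ℝ → ℝ → ℝ → Prop} (hF : Caps F C.r) (hF' : Caps F' C.rR)
    (pay : Fin K → ℝ) (hpay : ∀ i ∈ N, 0 ≤ pay i)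
    (H : ∀ a, Reg D a → a < q0 → 0 < D → ∀ (i4 : Fin 4) (γ0 γ1 γ2 δ0 δ1 δ2 ε hG hS' : ℝ),
      F γ0 γ1 γ2 → F' δ0 δ1 δ2 → (ε = 0 ∨ ε = 1) →
      ((hG = C.η ∧ hS' = 0) ∨ (hG = 1 + C.sR ∧ hS' = C.sR)) →
      ∃ (κ : ℝ) (c : CT) (d : LD) (kU x1 v1 a1 k1 k2 : ℝ) (sh : Fin K → ℝ),
      d = (C.lnL (χ D) i4).ld C.MU C.MY γ1 γ2 δ1 δ2 ε hG k1 k2 ∧ 0 ≤ d.al ∧ 0 < k1 ∧ 0 < k2 ∧
      0 ≤ d.BG a ∧ Wt (d.BU a) 0 0 (m - 1) f2 (th a) v2m 1 kU x1 v1 a1 ∧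
      Spl ((NV a).lfL (NP a) (C.lnL (χ D) i4).z) a m f n vm fv κ c ∧
      (∀ i ∈ N, i ≠ L → sh i + pay i * (1 - D / (q0 - a)) +
        (d.cR c m nL nR kR x1 v1 a1 a).ev (sg (σ i)) (sg (e i)) (sg (ρ i))
          ((chd (tc i) (O i)).sn a) ≤
          V D a ((chd (tc i) (O i)).sn a) - hS' * P D a ((chd (tc i) (O i)).sn a)) ∧
      sh L + pay L * (1 - D / (q0 - a)) +
        (d.cL c nL nR kL a).ev 1 (sg (e L)) 1 ((chd (tc L) (O L)).sn a) ≤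
          V D a ((chd (tc L) (O L)).sn a) -
            (C.lnL (χ D) i4).zL * P D a ((chd (tc L) (O L)).sn a) ∧
      d.k0 κ kU nL nR a - (C.lnL (χ D) i4).ag * γ0 - hG * δ0 - (C.lnL (χ D) i4).KE * ε ≤
        ∑ i ∈ N, sh i) :
    LfE2 χ D k (fun a => sg (e L) * (XX (O L)).eval a)
        (fun a => (YY (O L)).eval a) (fun a => (gY2 σ O L).eval a)
        (fun a => ∑ i ∈ univ.erase L, sg (e i) * (XX (O i)).eval a)
        (Vi V N tc O L D) (Vi P N tc O L D)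
        (fun a => ∑ i ∈ univ.erase L, Vi V N tc O i D a)
        (fun a => ∑ i ∈ univ.erase L, Vi P N tc O i D a)
        (fun a => V D a ((chd ty (fam σ e O)).sn a))
        (fun a => P D a ((chd ty (fam σ e O)).sn a)) := by
  have hs : 0 ≤ ∑ i ∈ N, pay i := sum_nonneg hpay
  have hLN := hS.hL
  have eV : ∀ a, Reg D a → V D a ((chd ty (fam σ e O)).sn a) =
      (NV a).ev ((chd ty (fam σ e O)).sn a) := fun a ha => hV a ha _ _ _ _ _ _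
  have eP : ∀ a, Reg D a → P D a ((chd ty (fam σ e O)).sn a) =
      (NP a).ev ((chd ty (fam σ e O)).sn a) := fun a ha => hP a ha _ _ _ _ _ _
  refine lfE_of3 C hC hF hF' hs fun a ha hq hD γ0 γ1 γ2 δ0 δ1 δ2 ε hG hS' h1 h2 h3 h4 => ?_
  refine LK.Ln_of fun i4 => ?_
  obtain ⟨κ, c, d, kU, x1, v1, a1, k1, k2, sh, hd, g1, g2, g3, g4, g5, g6, g7, g8, g9⟩ :=
    H a ha hq hD i4 γ0 γ1 γ2 δ0 δ1 δ2 ε hG hS' h1 h2 h3 h4
  have hk1 : d.k1 = k1 := by rw [hd]; rfl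
  have hk2 : d.k2 = k2 := by rw [hd]; rfl
  have t0 := hS.total ha.2.2.1 hq.le g6 d g1 (by rw [hk1]; exact g2) (by rw [hk2]; exact g3) g4 g5
    ty tc (xL := fun a => sg (e L) * (XX (O L)).eval a) (yL := fun a => (YY (O L)).eval a)
    (U2 := fun a => (gY2 σ O L).eval a)
    (y2 := fun a => ∑ i ∈ univ.erase L, sg (e i) * (XX (O i)).eval a) rfl rfl rfl rfl
  rw [NS.lfL_ev, ← eV a ha, ← eP a ha] at t0
  -- the sums over the children
  have hsub : N.erase L ⊆ univ.erase L := erase_subset_erase L (subset_univ N)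
  have hz : ∀ i ∈ univ.erase L, i ∉ N.erase L → i ∉ N := by
    intro i hi hi2 hi3
    exact hi2 (mem_erase.mpr ⟨(mem_erase.mp hi).1, hi3⟩)
  have e2 : ∑ i ∈ univ.erase L, (d.cR c m nL nR kR x1 v1 a1 a).ev (sg (σ i)) (sg (e i)) (sg (ρ i))
      ((chd (tc i) (O i)).sn a) = ∑ i ∈ N.erase L,
      (d.cR c m nL nR kR x1 v1 a1 a).ev (sg (σ i)) (sg (e i)) (sg (ρ i))
      ((chd (tc i) (O i)).sn a) := by
    rw [← sum_subset hsub]
    intro i hi hi2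
    exact hS.hW.hO.ct0 (hz i hi hi2) _ _ _ _ _ _
  have e3 : (∑ i ∈ univ.erase L, Vi V N tc O i D a) - hS' * ∑ i ∈ univ.erase L, Vi P N tc O i D a =
      ∑ i ∈ N.erase L, (V D a ((chd (tc i) (O i)).sn a) -
        hS' * P D a ((chd (tc i) (O i)).sn a)) := by
    rw [mul_sum, ← sum_sub_distrib, ← sum_subset hsub]
    · refine sum_congr rfl fun i hi => ?_
      rw [Vi_mem V tc O (mem_of_mem_erase hi), Vi_mem P tc O (mem_of_mem_erase hi)]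
    · intro i hi hi2
      rw [Vi_not V tc O (hz i hi hi2), Vi_not P tc O (hz i hi hi2)]
      ring
  have e4 := sum_le_sum fun i (hi : i ∈ N.erase L) => g7 i (mem_of_mem_erase hi)
    (ne_of_mem_erase hi)
  rw [sum_add_distrib, sum_add_distrib, ← sum_mul] at e4
  rw [← add_sum_erase N _ hLN] at g9
  have e5 : ∑ i ∈ N, pay i = pay L + ∑ i ∈ N.erase L, pay i := (add_sum_erase N _ hLN).symm
  have e6 : Vi V N tc O L D a = V D a ((chd (tc L) (O L)).sn a) := Vi_mem V tc O hLN D a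
  have e7 : Vi P N tc O L D a = P D a ((chd (tc L) (O L)).sn a) := Vi_mem P tc O hLN D a
  rw [e2] at t0
  have l1 : d.al = (C.lnL (χ D) i4).al := by rw [hd]; rfl
  have l2 : d.la = (C.lnL (χ D) i4).la + (C.lnL (χ D) i4).KE * ε := by rw [hd]; rfl
  have l3 : d.b = (C.lnL (χ D) i4).b := by rw [hd]; rfl
  have l4 : d.MU = C.MU := by rw [hd]; rfl
  have l5 : d.MY = C.MY := by rw [hd]; rfl
  have l6 : d.r1 = hG * δ1 := by rw [hd]; rfl
  have l7 : d.r2 = hG * δ2 := by rw [hd]; rfl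
  have l8 : d.g1 = (C.lnL (χ D) i4).ag * γ1 := by rw [hd]; rfl
  have l9 : d.g2 = (C.lnL (χ D) i4).ag * γ2 := by rw [hd]; rfl
  rw [l1, l3, l4, l5, l6, l7, l8, l9, l2] at t0
  rw [e5, e6, e7]
  linarith

end

end Pool.Agent.TSM
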