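import Pool.Agent.TSM.OddFC

set_option autoImplicit false

/-!
# The finite rule for an even number of children: reduction, the pair (MP_d27362_co)
-/

namespace Pool.Agent.TSM

noncomputable section

/-- reduction of `ExpF` to two inequalities in one variable -/
theorem ExpF.of {K : ℕ} (hK : 0 < K) {cq μ P : ℝ} (hμ : 0 ≤ μ) (hP0 : 0 ≤ P)
    (hcq : 1 / 4 ≤ cq)
    (h1 : ∀ u, u ≤ P → Real.exp u ≤ 1 + u + cq * u ^ 2)
    (h3 : ∀ u, P ≤ u → Real.exp P * (1 + (u - P) / K) ^ K ≤
      Real.exp (μ * u ^ 2) * (1 + u + cq * u ^ 2)) : ExpF K cq μ P := by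
  have hq : ∀ u : ℝ, 0 ≤ 1 + u + cq * u ^ 2 := by
    intro u
    have h2 := mul_le_mul_of_nonneg_right hcq (sq_nonneg u)
    nlinarith [sq_nonneg (u + 2)]
  refine ⟨by linarith, hμ, hq, fun ρ u w hρ huw hn => ?_⟩
  have hKR : (0 : ℝ) < K := by exact_mod_cast hK
  have hE1 : 1 ≤ Real.exp (μ * w ^ 2) :=
    Real.one_le_exp (mul_nonneg hμ (sq_nonneg w))
  have key : Real.exp ρ * (1 + (u - ρ) / K) ^ K ≤
      Real.exp (μ * w ^ 2) * (1 + u + cq * u ^ 2) := by
    rcases le_total u P with hu | hu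
    · have h4 : (1 + (u - ρ) / K) ^ K ≤ Real.exp (u - ρ) := by
        have h5 : 1 + (u - ρ) / K ≤ Real.exp ((u - ρ) / K) := by
          have := Real.add_one_le_exp ((u - ρ) / K)
          linarith
        refine (pow_le_pow_left₀ hn h5 K).trans (le_of_eq ?_)
        rw [← Real.exp_nat_mul]
        congr 1
        field_simp
      have h6 : Real.exp ρ * (1 + (u - ρ) / K) ^ K ≤ Real.exp u := by
        refine (mul_le_mul_of_nonneg_left h4 (Real.exp_nonneg _)).trans (le_of_eq ?_)
        rw [← Real.exp_add]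
        congr 1
        ring
      have h7 := h6.trans (h1 u hu)
      have h8 := mul_le_mul_of_nonneg_right hE1 (hq u)
      linarith
    · have h4 : 1 + (u - ρ) / K ≤ (1 + (u - P) / K) * Real.exp ((P - ρ) / K) := by
        have h5 : 1 + (P - ρ) / K ≤ Real.exp ((P - ρ) / K) := by
          have := Real.add_one_le_exp ((P - ρ) / K)
          linarith
        have h6 : 0 ≤ (u - P) / K := div_nonneg (by linarith) hKR.le
        have h7 : 0 ≤ (P - ρ) / K := div_nonneg (by linarith) hKR.le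
        have h8 := mul_le_mul_of_nonneg_left h5 (show 0 ≤ 1 + (u - P) / K by linarith)
        have h9 : 1 + (u - ρ) / K = 1 + (u - P) / K + (P - ρ) / K := by
          field_simp
          ring
        rw [h9]
        nlinarith [mul_nonneg h6 h7]
      have h5 : Real.exp ρ * (1 + (u - ρ) / K) ^ K ≤ Real.exp P * (1 + (u - P) / K) ^ K := by
        have h6 := mul_le_mul_of_nonneg_left (pow_le_pow_left₀ hn h4 K) (Real.exp_nonneg ρ)
        refine h6.trans (le_of_eq ?_)
        rw [mul_pow, ← Real.exp_nat_mul]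
        have h7 : (K : ℝ) * ((P - ρ) / K) = P - ρ := by field_simp
        rw [h7]
        have h8 : Real.exp P = Real.exp ρ * Real.exp (P - ρ) := by
          rw [← Real.exp_add]
          congr 1
          ring
        rw [h8]
        ring
      refine (h5.trans (h3 u hu)).trans ?_
      refine mul_le_mul_of_nonneg_right (Real.exp_le_exp.2 ?_) (hq u)
      apply mul_le_mul_of_nonneg_left _ hμ
      exact pow_le_pow_left₀ (hP0.trans hu) huw 2
  have h4 := mul_le_mul_of_nonneg_left key (Real.exp_nonneg (-ρ))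
  refine le_trans (le_of_eq ?_) h4
  rw [← mul_assoc, ← Real.exp_add, neg_add_cancel, Real.exp_zero, one_mul]

/-- **a pair**: no exponential cost -/
theorem ExpF.two {c P E : ℝ} (hP0 : 0 ≤ P) (hP1 : P ≤ 1)
    (hc : 1 / 2 + P / 6 + 5 / 96 * P ^ 2 ≤ c) (hE : Real.exp P ≤ E) (h4 : E < 4 * c)
    (hd : (E - 1 - 2 * c * P) ^ 2 ≤ (1 + P + c * P ^ 2 - E) * (4 * c - E)) :
    ExpF 2 c 0 P := by
  have hc2 : 1 / 2 ≤ c := by
    have : 0 ≤ 5 / 96 * P ^ 2 := by positivity
    linarith
  refine ExpF.of (by norm_num) le_rfl hP0 (by linarith) (exp_le_quad_of_le hP0 hP1 hc) ?_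
  intro u hu
  rw [zero_mul, Real.exp_zero, one_mul]
  push_cast
  have h5 : 0 ≤ (1 + (u - P) / 2) ^ 2 := sq_nonneg _
  refine (mul_le_mul_of_nonneg_right hE h5).trans ?_
  have e : (4 * c - E) * (1 + u + c * u ^ 2 - E * (1 + (u - P) / 2) ^ 2) =
      ((4 * c - E) * (u - P) - 2 * (E - 1 - 2 * c * P)) ^ 2 / 4 +
      ((1 + P + c * P ^ 2 - E) * (4 * c - E) - (E - 1 - 2 * c * P) ^ 2) := by ring
  have h6 : 0 ≤ (4 * c - E) * (1 + u + c * u ^ 2 - E * (1 + (u - P) / 2) ^ 2) := by
    rw [e]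
    have : 0 ≤ ((4 * c - E) * (u - P) - 2 * (E - 1 - 2 * c * P)) ^ 2 / 4 := by positivity
    linarith
  have h7 : 0 ≤ 1 + u + c * u ^ 2 - E * (1 + (u - P) / 2) ^ 2 := by
    by_contra h
    push Not at h
    have := mul_neg_of_pos_of_neg (show 0 < 4 * c - E by linarith) h
    linarith
  linarith

theorem exp_half : Real.exp (1 / 2) ≤ 164873 / 100000 := by
  have h := Real.exp_bound' (x := 1 / 2) (by norm_num) (by norm_num) (n := 8) (by norm_num)
  simp only [Finset.sum_range_succ, Finset.sum_range_zero, Nat.factorial] at h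
  push_cast at h
  refine h.trans ?_
  norm_num

/-- `K = 2`: `c = 57/100`, `μ = 0`, gain at most `1/3` -/
theorem expF_two_a : ExpF 2 (57 / 100) 0 (1 / 3) :=
  ExpF.two (by norm_num) (by norm_num) (by norm_num) exp_third (by norm_num) (by norm_num)

/-- `K = 2`: `c = 61/100`, `μ = 0`, gain at most `1/2` -/
theorem expF_two_b : ExpF 2 (61 / 100) 0 (1 / 2) :=
  ExpF.two (by norm_num) (by norm_num) (by norm_num) exp_half (by norm_num) (by norm_num)

/-- `K = 2`: `c = 131/200`, `μ = 0`, gain at most `2/3` -/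
theorem expF_two_c : ExpF 2 (131 / 200) 0 (2 / 3) :=
  ExpF.two (by norm_num) (by norm_num) (by norm_num) exp_two_thirds (by norm_num) (by norm_num)

/-- `K = 2`: `c = 1/2`, `μ = 0`, no gain -/
theorem expF_two_d : ExpF 2 (1 / 2) 0 0 :=
  ExpF.two le_rfl (by norm_num) (by norm_num) Real.exp_zero.le (by norm_num) (by norm_num)

end

end Pool.Agent.TSM
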