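import Pool.Agent.TSM.EvenG
import Pool.Agent.TSO.RuleE

set_option autoImplicit false

/-!
# Constants of Rule E (MP_d27362_co)
-/

namespace Pool.Agent.TSM

noncomputable section

/-- `exp (u - m u²) ≤ 1 + u + c u²` for `u ≥ 0`, from the value at the critical point `r` -/
theorem exp_quad_of {c m r : ℝ} (hc : 1 / 2 ≤ c) (hm : 0 < m) (hr : 0 < r)
    (hq : 2 * c - 1 + 2 * m + (2 * m - c) * r + 2 * m * c * r ^ 2 = 0)
    (h1 : 2 * c - 1 + 2 * m ≤ 2 * m * c * r ^ 2)
    (hE : Real.exp (r - m * r ^ 2) ≤ 1 + r + c * r ^ 2) (u : ℝ) (hu : 0 ≤ u) :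
    Real.exp (u - m * u ^ 2) ≤ 1 + u + c * u ^ 2 := by
  have hc0 : 0 < c := by linarith
  have hpos : ∀ x : ℝ, 0 ≤ x → 0 < 1 + x + c * x ^ 2 := by intro x hx; positivity
  obtain ⟨F, hF⟩ : ∃ F : ℝ → ℝ, F = fun x : ℝ => Real.log (1 + x + c * x ^ 2) - x + m * x ^ 2 :=
    ⟨_, rfl⟩
  obtain ⟨k, hk⟩ : ∃ k : ℝ, k = 2 * c - 1 + 2 * m := ⟨_, rfl⟩
  have hk0 : 0 < k := by rw [hk]; linarith
  have hsq : ∀ x : ℝ, HasDerivAt (fun x : ℝ => x ^ 2) (2 * x) x := by
    intro x
    simpa using hasDerivAt_pow 2 x
  have hd : ∀ x : ℝ, 0 ≤ x → HasDerivAt F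
      (x * ((x - r) * (2 * m * c * x - k / r)) / (1 + x + c * x ^ 2)) x := by
    intro x hx
    have h2 : HasDerivAt (fun x : ℝ => 1 + x + c * x ^ 2) (1 + 2 * c * x) x :=
      HasDerivAt.congr_deriv (((hasDerivAt_id' x).const_add 1).add ((hsq x).const_mul c))
        (by ring)
    have h3 := h2.log (hpos x hx).ne'
    have h4 : HasDerivAt (fun x : ℝ => m * x ^ 2) (2 * m * x) x :=
      HasDerivAt.congr_deriv ((hsq x).const_mul m) (by ring)
    rw [hF]
    refine HasDerivAt.congr_deriv ((h3.sub (hasDerivAt_id' x)).add h4) ?_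
    have e : (x - r) * (2 * m * c * x - k / r) = k + (2 * m - c) * x + 2 * m * c * x ^ 2 := by
      have h5 : k / r = -(2 * m - c) - 2 * m * c * r := by
        rw [div_eq_iff hr.ne']
        rw [← hk] at hq
        linarith
      rw [h5]
      rw [← hk] at hq
      linear_combination -hq
    rw [e, hk]
    have := (hpos x hx).ne'
    field_simp
    ring
  have hu1 : k / (2 * m * c * r) ≤ r := by
    rw [div_le_iff₀ (by positivity), hk]
    nlinarith
  have hu10 : 0 < k / (2 * m * c * r) := by positivity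
  have e1 : 2 * m * c * (k / (2 * m * c * r)) = k / r := by
    field_simp
  have hF0 : F 0 = 0 := by rw [hF]; norm_num
  have hFr : 0 ≤ F r := by
    rw [hF]
    have h2 := Real.log_le_log (Real.exp_pos _) hE
    rw [Real.log_exp] at h2
    simp only
    linarith
  have hcont : ∀ s : Set ℝ, s ⊆ Set.Ici 0 → ContinuousOn F s := fun s hs x hx =>
    (hd x (hs hx)).continuousAt.continuousWithinAt
  have hinc : ∀ x, 0 ≤ x → (x ≤ k / (2 * m * c * r) ∨ r ≤ x) →
      0 ≤ x * ((x - r) * (2 * m * c * x - k / r)) / (1 + x + c * x ^ 2) := by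
    intro x hx h
    apply div_nonneg (mul_nonneg hx _) (hpos x hx).le
    rcases h with h | h
    · apply mul_nonneg_of_nonpos_of_nonpos
      · linarith
      · rw [← e1]
        have := mul_le_mul_of_nonneg_left h (show 0 ≤ 2 * m * c by positivity)
        linarith
    · apply mul_nonneg
      · linarith
      · rw [← e1]
        have := mul_le_mul_of_nonneg_left (hu1.trans h) (show 0 ≤ 2 * m * c by positivity)
        linarith
  have hdec : ∀ x, k / (2 * m * c * r) ≤ x → x ≤ r →
      x * ((x - r) * (2 * m * c * x - k / r)) / (1 + x + c * x ^ 2) ≤ 0 := by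
    intro x h h'
    have hx : 0 ≤ x := by linarith
    apply div_nonpos_of_nonpos_of_nonneg _ (hpos x hx).le
    apply mul_nonpos_of_nonneg_of_nonpos hx
    apply mul_nonpos_of_nonpos_of_nonneg
    · linarith
    · rw [← e1]
      have := mul_le_mul_of_nonneg_left h (show 0 ≤ 2 * m * c by positivity)
      linarith
  have hmain : 0 ≤ F u := by
    rcases le_total u (k / (2 * m * c * r)) with hu2 | hu2
    · have hm1 : MonotoneOn F (Set.Icc 0 (k / (2 * m * c * r))) := by
        apply monotoneOn_of_deriv_nonneg (convex_Icc _ _) (hcont _ (fun x hx => hx.1))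
        · intro x hx
          rw [interior_Icc] at hx
          exact (hd x hx.1.le).differentiableAt.differentiableWithinAt
        · intro x hx
          rw [interior_Icc] at hx
          rw [(hd x hx.1.le).deriv]
          exact hinc x hx.1.le (Or.inl hx.2.le)
      have := hm1 ⟨le_rfl, hu10.le⟩ ⟨hu, hu2⟩ hu
      linarith
    · rcases le_total u r with hu3 | hu3
      · have hm1 : AntitoneOn F (Set.Icc (k / (2 * m * c * r)) r) := by
          apply antitoneOn_of_deriv_nonpos (convex_Icc _ _)
            (hcont _ (fun x hx => le_trans hu10.le hx.1))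
          · intro x hx
            rw [interior_Icc] at hx
            exact (hd x (by linarith [hx.1])).differentiableAt.differentiableWithinAt
          · intro x hx
            rw [interior_Icc] at hx
            rw [(hd x (by linarith [hx.1])).deriv]
            exact hdec x hx.1.le hx.2.le
        have := hm1 ⟨hu2, hu3⟩ ⟨hu1, le_rfl⟩ hu3
        linarith
      · have hm1 : MonotoneOn F (Set.Ici r) := by
          apply monotoneOn_of_deriv_nonneg (convex_Ici _)
            (hcont _ (fun x hx => le_trans hr.le hx))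
          · intro x hx
            rw [interior_Ici] at hx
            have hx' : r < x := hx
            exact (hd x (by linarith)).differentiableAt.differentiableWithinAt
          · intro x hx
            rw [interior_Ici] at hx
            have hx' : r < x := hx
            rw [(hd x (by linarith)).deriv]
            exact hinc x (by linarith) (Or.inr hx'.le)
        have := hm1 (Set.mem_Ici.2 le_rfl) (Set.mem_Ici.2 hu3) hu3
        linarith
  rw [hF] at hmain
  calc Real.exp (u - m * u ^ 2) ≤ Real.exp (Real.log (1 + u + c * u ^ 2)) := by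
        apply Real.exp_le_exp.2
        simp only at hmain
        linarith
    _ = _ := Real.exp_log (hpos u hu)

/-- **the constants of Rule E**: `(c, μ)` for all `μ ≥ m`, `r` the critical point of `(c, m)` -/
theorem ExpE.of {c m r μ : ℝ} (hc : 1 / 2 ≤ c) (hm : 0 < m) (hr : 0 < r)
    (hq : 2 * c - 1 + 2 * m + (2 * m - c) * r + 2 * m * c * r ^ 2 = 0)
    (h1 : 2 * c - 1 + 2 * m ≤ 2 * m * c * r ^ 2)
    (hE : Real.exp (r - m * r ^ 2) ≤ 1 + r + c * r ^ 2) (hμ : m ≤ μ) : ExpE c μ := by
  refine ⟨by linarith, by linarith, ?_⟩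
  intro u w huw
  have hu0 : 0 < 1 + u + c * u ^ 2 := by nlinarith [sq_nonneg (u + 1), sq_nonneg u]
  rcases le_total 0 u with hu | hu
  · have h2 := exp_quad_of hc hm hr hq h1 hE u hu
    have e : Real.exp u = Real.exp (m * u ^ 2) * Real.exp (u - m * u ^ 2) := by
      rw [← Real.exp_add]
      congr 1
      ring
    rw [e]
    apply mul_le_mul _ h2 (Real.exp_pos _).le (Real.exp_pos _).le
    apply Real.exp_le_exp.2
    have h3 : u ^ 2 ≤ w ^ 2 := pow_le_pow_left₀ hu huw 2
    exact mul_le_mul hμ h3 (sq_nonneg _) (by linarith)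
  · have h2 := Pool.Agent.TSO.exp_le_neg u hu
    have h3 : (1 : ℝ) ≤ Real.exp (μ * w ^ 2) := by
      rw [← Real.exp_zero]
      exact Real.exp_le_exp.2 (mul_nonneg (by linarith) (sq_nonneg _))
    calc Real.exp u ≤ 1 + u + 1 / 2 * u ^ 2 := h2
      _ ≤ 1 + u + c * u ^ 2 := by nlinarith [sq_nonneg u]
      _ ≤ _ := le_mul_of_one_le_left hu0.le h3

/-- numerical upper bounds for the exponential -/
theorem exp_num {x y z : ℝ} (hx0 : 0 ≤ x) (hx1 : x ≤ 4)
    (h : 1 + x / 4 + (x / 4) ^ 2 / 2 + (x / 4) ^ 3 / 6 + (x / 4) ^ 4 / 24 + (x / 4) ^ 5 / 120 +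
      (x / 4) ^ 6 / 720 + (x / 4) ^ 7 / 5040 + (x / 4) ^ 8 * 9 / 322560 ≤ z) (hz : z ^ 4 ≤ y) :
    Real.exp x ≤ y := by
  have h0 : 0 ≤ x / 4 := by linarith
  have h1 := Real.exp_bound' h0 (by linarith) (n := 8) (by norm_num)
  have h2 : Real.exp (x / 4) ≤ z := by
    refine h1.trans (le_trans (le_of_eq ?_) h)
    simp only [Finset.sum_range_succ, Finset.sum_range_zero, Nat.factorial]
    push_cast
    ring
  have e : Real.exp x = Real.exp (x / 4) ^ 4 := by
    rw [← Real.exp_nat_mul]
    congr 1
    push_cast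
    ring
  rw [e]
  exact (pow_le_pow_left₀ (Real.exp_pos _).le h2 4).trans hz

/-- Rule E: `(c, μ) = (3 / 5, 211 / 2500)` -/
theorem expE_c : ExpE (3 / 5) (211 / 2500) := by
  refine ExpE.of (m := 4109500 / 48694987)
    (r := 3073 / 1000) (by norm_num) (by norm_num) (by norm_num) (by norm_num)
    (by norm_num) ?_ (by norm_num)
  refine le_trans (Real.exp_le_exp.2 (show _ ≤ (2276053 / 1000000 : ℝ) by norm_num)) ?_
  exact exp_num (z := 441631 / 250000) (by norm_num) (by norm_num) (by norm_num) (by norm_num)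

/-- Rule E: `(c, μ) = (1 / 2, 979 / 10000)` -/
theorem expE_d : ExpE (1 / 2) (979 / 10000) := by
  refine ExpE.of (m := 1099500 / 11233601)
    (r := 2199 / 1000) (by norm_num) (by norm_num) (by norm_num) (by norm_num)
    (by norm_num) ?_ (by norm_num)
  refine le_trans (Real.exp_le_exp.2 (show _ ≤ (1725711 / 1000000 : ℝ) by norm_num)) ?_
  exact exp_num (z := 769727 / 500000) (by norm_num) (by norm_num) (by norm_num) (by norm_num)

/-- Rule E: `(c, μ) = (11 / 20, 903 / 10000)` -/
theorem expE_e : ExpE (11 / 20) (903 / 10000) := by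
  refine ExpE.of (m := 13646500 / 151267259)
    (r := 2663 / 1000) (by norm_num) (by norm_num) (by norm_num) (by norm_num)
    (by norm_num) ?_ (by norm_num)
  refine le_trans (Real.exp_le_exp.2 (show _ ≤ (1011619 / 500000 : ℝ) by norm_num)) ?_
  exact exp_num (z := 207291 / 125000) (by norm_num) (by norm_num) (by norm_num) (by norm_num)

/-- Rule E: `(c, μ) = (57 / 100, 439 / 5000)` -/
theorem expE_f : ExpE (57 / 100) (439 / 5000) := by
  refine ExpE.of (m := 73740500 / 840775673)
    (r := 2833 / 1000) (by norm_num) (by norm_num) (by norm_num) (by norm_num)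
    (by norm_num) ?_ (by norm_num)
  refine le_trans (Real.exp_le_exp.2 (show _ ≤ (2129087 / 1000000 : ℝ) by norm_num)) ?_
  exact exp_num (z := 1702797 / 1000000) (by norm_num) (by norm_num) (by norm_num) (by norm_num)

/-- Rule E: `(c, μ) = (13 / 20, 799 / 10000)` -/
theorem expE_g : ExpE (13 / 20) (799 / 10000) := by
  refine ExpE.of (m := 77401000 / 969890677)
    (r := 6877 / 2000) (by norm_num) (by norm_num) (by norm_num) (by norm_num)
    (by norm_num) ?_ (by norm_num)
  refine le_trans (Real.exp_le_exp.2 (show _ ≤ (2494957 / 1000000 : ℝ) by norm_num)) ?_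
  exact exp_num (z := 1865893 / 1000000) (by norm_num) (by norm_num) (by norm_num) (by norm_num)

/-- Rule E: `(c, μ) = (7 / 10, 761 / 10000)` -/
theorem expE_h : ExpE (7 / 10) (761 / 10000) := by
  refine ExpE.of (m := 111950 / 1471903)
    (r := 377 / 100) (by norm_num) (by norm_num) (by norm_num) (by norm_num)
    (by norm_num) ?_ (by norm_num)
  refine le_trans (Real.exp_le_exp.2 (show _ ≤ (672249 / 250000 : ℝ) by norm_num)) ?_
  exact exp_num (z := 979319 / 500000) (by norm_num) (by norm_num) (by norm_num) (by norm_num)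

/-- Rule E: `(c, μ) = (18 / 25, 187 / 2500)` -/
theorem expE_i : ExpE (18 / 25) (187 / 2500) := by
  refine ExpE.of (m := 3693250 / 49411031)
    (r := 1947 / 500) (by norm_num) (by norm_num) (by norm_num) (by norm_num)
    (by norm_num) ?_ (by norm_num)
  refine le_trans (Real.exp_le_exp.2 (show _ ≤ (1380309 / 500000 : ℝ) by norm_num)) ?_
  exact exp_num (z := 249253 / 125000) (by norm_num) (by norm_num) (by norm_num) (by norm_num)

end

end Pool.Agent.TSM
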