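import Pool.Agent.TSM.ExpFC
import Pool.Agent.TSM.ExpEC

set_option autoImplicit false

/-!
# Constants of the finite rule for `K = 4, 6, 8`, gain at most `2/3` and `c < 13/20`
-/

namespace Pool.Agent.TSM

noncomputable section

/-- reduction of `ExpF` to two inequalities in one variable, with the exponential in both -/
theorem ExpF.of2 {K : ℕ} (hK : 0 < K) {cq μ P : ℝ} (hμ : 0 ≤ μ) (hP0 : 0 ≤ P)
    (hcq : 1 / 2 ≤ cq)
    (h1 : ∀ u, 0 ≤ u → u ≤ P → Real.exp u ≤ Real.exp (μ * u ^ 2) * (1 + u + cq * u ^ 2))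
    (h3 : ∀ u, P ≤ u → Real.exp P * (1 + (u - P) / K) ^ K ≤
      Real.exp (μ * u ^ 2) * (1 + u + cq * u ^ 2)) : ExpF K cq μ P := by
  have hq : ∀ u : ℝ, 0 ≤ 1 + u + cq * u ^ 2 := by
    intro u
    have h2 := mul_le_mul_of_nonneg_right hcq (sq_nonneg u)
    nlinarith [sq_nonneg (u + 1)]
  refine ⟨by linarith, hμ, hq, fun ρ u w hρ huw hn => ?_⟩
  have hKR : (0 : ℝ) < K := by exact_mod_cast hK
  have hE1 : 1 ≤ Real.exp (μ * w ^ 2) :=
    Real.one_le_exp (mul_nonneg hμ (sq_nonneg w))
  have hE2 : 0 ≤ u → Real.exp (μ * u ^ 2) ≤ Real.exp (μ * w ^ 2) := by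
    intro hu
    apply Real.exp_le_exp.2
    apply mul_le_mul_of_nonneg_left _ hμ
    exact pow_le_pow_left₀ hu huw 2
  have key : Real.exp ρ * (1 + (u - ρ) / K) ^ K ≤
      Real.exp (μ * w ^ 2) * (1 + u + cq * u ^ 2) := by
    rcases le_total u P with hu | hu
    · have h4 : (1 + (u - ρ) / K) ^ K ≤ Real.exp (u - ρ) := by
        have h5 : 1 + (u - ρ) / K ≤ Real.exp ((u - ρ) / K) := by
          have := Real.add_one_le_exp ((u - ρ) / K)
          linarith
        refine (pow_le_pow_left₀ hn h5 K).trans (le_of_eq ?_)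
        rw [← Real.exp_nat_mul]
        congr 1
        field_simp
      have h6 : Real.exp ρ * (1 + (u - ρ) / K) ^ K ≤ Real.exp u := by
        refine (mul_le_mul_of_nonneg_left h4 (Real.exp_nonneg _)).trans (le_of_eq ?_)
        rw [← Real.exp_add]
        congr 1
        ring
      rcases le_total u 0 with hu0 | hu0
      · have h7 := h6.trans (Pool.Agent.TSO.exp_le_neg u hu0)
        have h8 := mul_le_mul_of_nonneg_right hE1 (hq u)
        have h9 := mul_le_mul_of_nonneg_right hcq (sq_nonneg u)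
        linarith
      · exact (h6.trans (h1 u hu0 hu)).trans (mul_le_mul_of_nonneg_right (hE2 hu0) (hq u))
    · have h4 : 1 + (u - ρ) / K ≤ (1 + (u - P) / K) * Real.exp ((P - ρ) / K) := by
        have h5 : 1 + (P - ρ) / K ≤ Real.exp ((P - ρ) / K) := by
          have := Real.add_one_le_exp ((P - ρ) / K)
          linarith
        have h6 : 0 ≤ (u - P) / K := div_nonneg (by linarith) hKR.le
        have h7 : 0 ≤ (P - ρ) / K := div_nonneg (by linarith) hKR.le
        have h8 := mul_le_mul_of_nonneg_left h5 (show 0 ≤ 1 + (u - P) / K by linarith)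
        have h9 : 1 + (u - ρ) / K = 1 + (u - P) / K + (P - ρ) / K := by
          field_simp
          ring
        rw [h9]
        nlinarith [mul_nonneg h6 h7]
      have h5 : Real.exp ρ * (1 + (u - ρ) / K) ^ K ≤ Real.exp P * (1 + (u - P) / K) ^ K := by
        have h6 := mul_le_mul_of_nonneg_left (pow_le_pow_left₀ hn h4 K) (Real.exp_nonneg ρ)
        refine h6.trans (le_of_eq ?_)
        rw [mul_pow, ← Real.exp_nat_mul]
        have h7 : (K : ℝ) * ((P - ρ) / K) = P - ρ := by field_simp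
        rw [h7]
        have h8 : Real.exp P = Real.exp ρ * Real.exp (P - ρ) := by
          rw [← Real.exp_add]
          congr 1
          ring
        rw [h8]
        ring
      refine (h5.trans (h3 u hu)).trans ?_
      exact mul_le_mul_of_nonneg_right (hE2 (hP0.trans hu)) (hq u)
  have h4 := mul_le_mul_of_nonneg_left key (Real.exp_nonneg (-ρ))
  refine le_trans (le_of_eq ?_) h4
  rw [← mul_assoc, ← Real.exp_add, neg_add_cancel, Real.exp_zero, one_mul]

/-- the first inequality -/
theorem exp_le_mu {c μ P : ℝ} (hP1 : P ≤ 1) (hc0 : 0 ≤ c)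
    (hμ : μ ≤ 1 / 6) (hμc : μ * c ≤ 5 / 96)
    (hc : 1 / 2 + (1 / 6 - μ) * P + (5 / 96 - μ * c) * P ^ 2 ≤ c + μ) :
    ∀ u, 0 ≤ u → u ≤ P → Real.exp u ≤ Real.exp (μ * u ^ 2) * (1 + u + c * u ^ 2) := by
  intro u hu0 hu
  have h := Real.exp_bound' (x := u) hu0 (by linarith) (n := 4) (by norm_num)
  simp only [Finset.sum_range_succ, Finset.sum_range_zero, Nat.factorial] at h
  push_cast at h
  have h1 : 1 + μ * u ^ 2 ≤ Real.exp (μ * u ^ 2) := by
    have := Real.add_one_le_exp (μ * u ^ 2)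
    linarith
  have hq : 0 ≤ 1 + u + c * u ^ 2 := by positivity
  refine le_trans ?_ (mul_le_mul_of_nonneg_right h1 hq)
  have h2 : (1 / 6 - μ) * u ≤ (1 / 6 - μ) * P := mul_le_mul_of_nonneg_left hu (by linarith)
  have h3 : (5 / 96 - μ * c) * u ^ 2 ≤ (5 / 96 - μ * c) * P ^ 2 :=
    mul_le_mul_of_nonneg_left (pow_le_pow_left₀ hu0 hu 2) (by linarith)
  have h4 : 0 ≤ c + μ - 1 / 2 - (1 / 6 - μ) * u - (5 / 96 - μ * c) * u ^ 2 := by linarith
  have h5 := mul_nonneg h4 (sq_nonneg u)
  have e : (1 + μ * u ^ 2) * (1 + u + c * u ^ 2) = (1 + u + u ^ 2 / 2 + u ^ 3 / 6 +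
      5 / 96 * u ^ 4) + (c + μ - 1 / 2 - (1 / 6 - μ) * u - (5 / 96 - μ * c) * u ^ 2) * u ^ 2 := by
    ring
  rw [e]
  refine h.trans ?_
  norm_num at h ⊢
  linarith

theorem evf_six_g_0 (u : ℝ) (h1 : 2 / 3 ≤ u) (h2 : u ≤ 2) :
    194774 / 100000 * (1 + (u - 2 / 3) / 6) ^ 6 ≤
      (1 + (289 / 5000 * u ^ 2) +
      (289 / 5000 * u ^ 2) ^ 2 / 2 +
      (289 / 5000 * u ^ 2) ^ 3 / 6) *
      (1 + u + 11 / 20 * u ^ 2) := by
  obtain ⟨s, hs⟩ : ∃ s, s = u - 2 / 3 := ⟨_, rfl⟩
  obtain ⟨t, ht⟩ : ∃ t, t = 2 - u := ⟨_, rfl⟩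
  have hs0 : 0 ≤ s := by linarith
  have ht0 : 0 ≤ t := by linarith
  have h : 0 ≤
      5036626392809 / 3840000000000000 * t ^ 8 +
      2580881713613 / 320000000000000 * s * t ^ 7 +
      3412424826147 / 160000000000000 * s ^ 2 * t ^ 6 +
      8743201137369 / 320000000000000 * s ^ 3 * t ^ 5 +
      1865347115151 / 128000000000000 * s ^ 4 * t ^ 4 +
      4524484047893 / 960000000000000 * s ^ 5 * t ^ 3 +
      21668845970579 / 1620000000000000 * s ^ 6 * t ^ 2 +
      424810263859747 / 25920000000000000 * s ^ 7 * t +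
      613745898637343 / 103680000000000000 * s ^ 8 := by
    positivity
  have e :
      5036626392809 / 3840000000000000 * t ^ 8 +
      2580881713613 / 320000000000000 * s * t ^ 7 +
      3412424826147 / 160000000000000 * s ^ 2 * t ^ 6 +
      8743201137369 / 320000000000000 * s ^ 3 * t ^ 5 +
      1865347115151 / 128000000000000 * s ^ 4 * t ^ 4 +
      4524484047893 / 960000000000000 * s ^ 5 * t ^ 3 +
      21668845970579 / 1620000000000000 * s ^ 6 * t ^ 2 +
      424810263859747 / 25920000000000000 * s ^ 7 * t +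
      613745898637343 / 103680000000000000 * s ^ 8 =
      (1 + (289 / 5000 * u ^ 2) +
      (289 / 5000 * u ^ 2) ^ 2 / 2 +
      (289 / 5000 * u ^ 2) ^ 3 / 6) *
      (1 + u + 11 / 20 * u ^ 2) -
      194774 / 100000 * (1 + (u - 2 / 3) / 6) ^ 6 := by
    rw [hs, ht]
    ring
  rw [e] at h
  linarith

theorem evf_six_g_t (u : ℝ) (h1 : 2 ≤ u) :
    194774 / 100000 * (1 + (u - 2 / 3) / 6) ^ 6 ≤
      (1 + (289 / 5000 * u ^ 2) +
      (289 / 5000 * u ^ 2) ^ 2 / 2 +
      (289 / 5000 * u ^ 2) ^ 3 / 6) *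
      (1 + u + 11 / 20 * u ^ 2) := by
  obtain ⟨s, hs⟩ : ∃ s, s = u - 2 := ⟨_, rfl⟩
  have hs0 : 0 ≤ s := by linarith
  have h : 0 ≤
      613745898637343 / 10379707031250000 + 267560511138313 / 1153300781250000 * s +
      139104248247703 / 384433593750000 * s ^ 2 +
      407368795937647 / 1537734375000000 * s ^ 3 + 3498518618141 / 34171875000000 * s ^ 4 +
      4984067388151 / 227812500000000 * s ^ 5 + 380701404517 / 113906250000000 * s ^ 6 +
      1182740881 / 3750000000000 * s ^ 7 + 265513259 / 15000000000000 * s ^ 8 := by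
    positivity
  have e :
      613745898637343 / 10379707031250000 + 267560511138313 / 1153300781250000 * s +
      139104248247703 / 384433593750000 * s ^ 2 +
      407368795937647 / 1537734375000000 * s ^ 3 + 3498518618141 / 34171875000000 * s ^ 4 +
      4984067388151 / 227812500000000 * s ^ 5 + 380701404517 / 113906250000000 * s ^ 6 +
      1182740881 / 3750000000000 * s ^ 7 + 265513259 / 15000000000000 * s ^ 8 =
      (1 + (289 / 5000 * u ^ 2) +
      (289 / 5000 * u ^ 2) ^ 2 / 2 +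
      (289 / 5000 * u ^ 2) ^ 3 / 6) *
      (1 + u + 11 / 20 * u ^ 2) -
      194774 / 100000 * (1 + (u - 2 / 3) / 6) ^ 6 := by
    rw [hs]
    ring
  rw [e] at h
  linarith

/-- `K = 6`: `(c, μ) = (11 / 20, 289 / 5000)`, gain at most `2 / 3` -/
theorem expF_six_g : ExpF 6 (11 / 20) (289 / 5000) (2 / 3) := by
  have hE : Real.exp (2 / 3) ≤ 194774 / 100000 := exp_two_thirds
  refine ExpF.of2 (by norm_num) (by norm_num) (by norm_num) (by norm_num)
    (exp_le_mu (by norm_num) (by norm_num) (by norm_num) (by norm_num) (by norm_num)) ?_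
  intro u h1
  have h4 : 0 ≤ (1 + (u - 2 / 3) / 6) ^ 6 := by
    have : 0 ≤ (u - 2 / 3) / 6 := div_nonneg (by linarith) (by norm_num)
    positivity
  have hu : 0 ≤ u := by linarith
  have hx : 0 ≤ 289 / 5000 * u ^ 2 := by positivity
  have hq : 0 ≤ 1 + u + 11 / 20 * u ^ 2 := by positivity
  have h5 := mul_le_mul_of_nonneg_right (taylor3_le_exp _ hx) hq
  push_cast
  refine ((mul_le_mul_of_nonneg_right hE h4).trans ?_).trans h5
  rcases le_total u (2) with h2 | h2
  · exact evf_six_g_0 u (by linarith) h2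
  exact evf_six_g_t u (by linarith)

theorem evf_six_h_0 (u : ℝ) (h1 : 2 / 3 ≤ u) (h2 : u ≤ 11 / 6) :
    194774 / 100000 * (1 + (u - 2 / 3) / 6) ^ 6 ≤
      (1 + (933 / 20000 * u ^ 2) +
      (933 / 20000 * u ^ 2) ^ 2 / 2 +
      (933 / 20000 * u ^ 2) ^ 3 / 6) *
      (1 + u + 3 / 5 * u ^ 2) := by
  obtain ⟨s, hs⟩ : ∃ s, s = u - 2 / 3 := ⟨_, rfl⟩
  obtain ⟨t, ht⟩ : ∃ t, t = 11 / 6 - u := ⟨_, rfl⟩
  have hs0 : 0 ≤ s := by linarith
  have ht0 : 0 ≤ t := by linarith
  have h : 0 ≤
      214021392255873 / 28148442382812500 * t ^ 8 +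
      458522023480029 / 7037110595703125 * s * t ^ 7 +
      15934156184117457 / 64339296875000000 * s ^ 2 * t ^ 6 +
      67119362094414717 / 128678593750000000 * s ^ 3 * t ^ 5 +
      133723639046146281 / 205885750000000000 * s ^ 4 * t ^ 4 +
      1488649034043793813 / 3088286250000000000 * s ^ 5 * t ^ 3 +
      275196997454814063767 / 1334139660000000000000 * s ^ 6 * t ^ 2 +
      881211962773387738667 / 18677955240000000000000 * s ^ 7 * t +
      184686623942808632447 / 37355910480000000000000 * s ^ 8 := by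
    positivity
  have e :
      214021392255873 / 28148442382812500 * t ^ 8 +
      458522023480029 / 7037110595703125 * s * t ^ 7 +
      15934156184117457 / 64339296875000000 * s ^ 2 * t ^ 6 +
      67119362094414717 / 128678593750000000 * s ^ 3 * t ^ 5 +
      133723639046146281 / 205885750000000000 * s ^ 4 * t ^ 4 +
      1488649034043793813 / 3088286250000000000 * s ^ 5 * t ^ 3 +
      275196997454814063767 / 1334139660000000000000 * s ^ 6 * t ^ 2 +
      881211962773387738667 / 18677955240000000000000 * s ^ 7 * t +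
      184686623942808632447 / 37355910480000000000000 * s ^ 8 =
      (1 + (933 / 20000 * u ^ 2) +
      (933 / 20000 * u ^ 2) ^ 2 / 2 +
      (933 / 20000 * u ^ 2) ^ 3 / 6) *
      (1 + u + 3 / 5 * u ^ 2) -
      194774 / 100000 * (1 + (u - 2 / 3) / 6) ^ 6 := by
    rw [hs, ht]
    ring
  rw [e] at h
  linarith

theorem evf_six_h_1 (u : ℝ) (h1 : 11 / 6 ≤ u) (h2 : u ≤ 3) :
    194774 / 100000 * (1 + (u - 2 / 3) / 6) ^ 6 ≤
      (1 + (933 / 20000 * u ^ 2) +
      (933 / 20000 * u ^ 2) ^ 2 / 2 +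
      (933 / 20000 * u ^ 2) ^ 3 / 6) *
      (1 + u + 3 / 5 * u ^ 2) := by
  obtain ⟨s, hs⟩ : ∃ s, s = u - 11 / 6 := ⟨_, rfl⟩
  obtain ⟨t, ht⟩ : ∃ t, t = 3 - u := ⟨_, rfl⟩
  have hs0 : 0 ≤ s := by linarith
  have ht0 : 0 ≤ t := by linarith
  have h : 0 ≤
      184686623942808632447 / 37355910480000000000000 * t ^ 8 +
      596281028769081320909 / 18677955240000000000000 * s * t ^ 7 +
      16591441306582606861 / 166767457500000000000 * s ^ 2 * t ^ 6 +
      163490896597730762569 / 667069830000000000000 * s ^ 3 * t ^ 5 +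
      8882636293540912241 / 16676745750000000000 * s ^ 4 * t ^ 4 +
      139433700981883433149 / 166767457500000000000 * s ^ 5 * t ^ 3 +
      16767003464690322527 / 20845932187500000000 * s ^ 6 * t ^ 2 +
      122173660678332086249 / 291843050625000000000 * s ^ 7 * t +
      13183844183675861657 / 145921525312500000000 * s ^ 8 := by
    positivity
  have e :
      184686623942808632447 / 37355910480000000000000 * t ^ 8 +
      596281028769081320909 / 18677955240000000000000 * s * t ^ 7 +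
      16591441306582606861 / 166767457500000000000 * s ^ 2 * t ^ 6 +
      163490896597730762569 / 667069830000000000000 * s ^ 3 * t ^ 5 +
      8882636293540912241 / 16676745750000000000 * s ^ 4 * t ^ 4 +
      139433700981883433149 / 166767457500000000000 * s ^ 5 * t ^ 3 +
      16767003464690322527 / 20845932187500000000 * s ^ 6 * t ^ 2 +
      122173660678332086249 / 291843050625000000000 * s ^ 7 * t +
      13183844183675861657 / 145921525312500000000 * s ^ 8 =
      (1 + (933 / 20000 * u ^ 2) +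
      (933 / 20000 * u ^ 2) ^ 2 / 2 +
      (933 / 20000 * u ^ 2) ^ 3 / 6) *
      (1 + u + 3 / 5 * u ^ 2) -
      194774 / 100000 * (1 + (u - 2 / 3) / 6) ^ 6 := by
    rw [hs, ht]
    ring
  rw [e] at h
  linarith

theorem evf_six_h_t (u : ℝ) (h1 : 3 ≤ u) :
    194774 / 100000 * (1 + (u - 2 / 3) / 6) ^ 6 ≤
      (1 + (933 / 20000 * u ^ 2) +
      (933 / 20000 * u ^ 2) ^ 2 / 2 +
      (933 / 20000 * u ^ 2) ^ 3 / 6) *
      (1 + u + 3 / 5 * u ^ 2) := by
  obtain ⟨s, hs⟩ : ∃ s, s = u - 3 := ⟨_, rfl⟩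
  have hs0 : 0 ≤ s := by linarith
  have h : 0 ≤
      13183844183675861657 / 42515280000000000000 +
      4227040298118176203 / 4723920000000000000 * s +
      801480939069307241 / 787320000000000000 * s ^ 2 +
      878868672214737943 / 1574640000000000000 * s ^ 3 +
      2902350809768293 / 17496000000000000 * s ^ 4 +
      1726550777417461 / 58320000000000000 * s ^ 5 +
      103275576220903 / 29160000000000000 * s ^ 6 + 20845600083 / 80000000000000 * s ^ 7 +
      812166237 / 80000000000000 * s ^ 8 := by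
    positivity
  have e :
      13183844183675861657 / 42515280000000000000 +
      4227040298118176203 / 4723920000000000000 * s +
      801480939069307241 / 787320000000000000 * s ^ 2 +
      878868672214737943 / 1574640000000000000 * s ^ 3 +
      2902350809768293 / 17496000000000000 * s ^ 4 +
      1726550777417461 / 58320000000000000 * s ^ 5 +
      103275576220903 / 29160000000000000 * s ^ 6 + 20845600083 / 80000000000000 * s ^ 7 +
      812166237 / 80000000000000 * s ^ 8 =
      (1 + (933 / 20000 * u ^ 2) +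
      (933 / 20000 * u ^ 2) ^ 2 / 2 +
      (933 / 20000 * u ^ 2) ^ 3 / 6) *
      (1 + u + 3 / 5 * u ^ 2) -
      194774 / 100000 * (1 + (u - 2 / 3) / 6) ^ 6 := by
    rw [hs]
    ring
  rw [e] at h
  linarith

/-- `K = 6`: `(c, μ) = (3 / 5, 933 / 20000)`, gain at most `2 / 3` -/
theorem expF_six_h : ExpF 6 (3 / 5) (933 / 20000) (2 / 3) := by
  have hE : Real.exp (2 / 3) ≤ 194774 / 100000 := exp_two_thirds
  refine ExpF.of2 (by norm_num) (by norm_num) (by norm_num) (by norm_num)
    (exp_le_mu (by norm_num) (by norm_num) (by norm_num) (by norm_num) (by norm_num)) ?_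
  intro u h1
  have h4 : 0 ≤ (1 + (u - 2 / 3) / 6) ^ 6 := by
    have : 0 ≤ (u - 2 / 3) / 6 := div_nonneg (by linarith) (by norm_num)
    positivity
  have hu : 0 ≤ u := by linarith
  have hx : 0 ≤ 933 / 20000 * u ^ 2 := by positivity
  have hq : 0 ≤ 1 + u + 3 / 5 * u ^ 2 := by positivity
  have h5 := mul_le_mul_of_nonneg_right (taylor3_le_exp _ hx) hq
  push_cast
  refine ((mul_le_mul_of_nonneg_right hE h4).trans ?_).trans h5
  rcases le_total u (11 / 6) with h2 | h2
  · exact evf_six_h_0 u (by linarith) h2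
  rcases le_total u (3) with h2 | h2
  · exact evf_six_h_1 u (by linarith) h2
  exact evf_six_h_t u (by linarith)

theorem evf_six_i_0 (u : ℝ) (h1 : 1 / 3 ≤ u) (h2 : u ≤ 5 / 3) :
    139562 / 100000 * (1 + (u - 1 / 3) / 6) ^ 6 ≤
      (1 + (797 / 20000 * u ^ 2) +
      (797 / 20000 * u ^ 2) ^ 2 / 2 +
      (797 / 20000 * u ^ 2) ^ 3 / 6) *
      (1 + u + 11 / 20 * u ^ 2) := by
  obtain ⟨s, hs⟩ : ∃ s, s = u - 1 / 3 := ⟨_, rfl⟩
  obtain ⟨t, ht⟩ : ∃ t, t = 5 / 3 - u := ⟨_, rfl⟩
  have hs0 : 0 ≤ s := by linarith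
  have ht0 : 0 ≤ t := by linarith
  have h : 0 ≤
      31571052899514823 / 62914560000000000000 * t ^ 8 +
      9321041050836757 / 1572864000000000000 * s * t ^ 7 +
      121964944053268697 / 3145728000000000000 * s ^ 2 * t ^ 6 +
      38550320047109411 / 314572800000000000 * s ^ 3 * t ^ 5 +
      10377945561663677 / 50331648000000000 * s ^ 4 * t ^ 4 +
      32828783588501 / 167772160000000 * s ^ 5 * t ^ 3 +
      567726689662963 / 5435817984000000 * s ^ 6 * t ^ 2 +
      394965840687407 / 13589544960000000 * s ^ 7 * t +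
      72022131691201 / 21743271936000000 * s ^ 8 := by
    positivity
  have e :
      31571052899514823 / 62914560000000000000 * t ^ 8 +
      9321041050836757 / 1572864000000000000 * s * t ^ 7 +
      121964944053268697 / 3145728000000000000 * s ^ 2 * t ^ 6 +
      38550320047109411 / 314572800000000000 * s ^ 3 * t ^ 5 +
      10377945561663677 / 50331648000000000 * s ^ 4 * t ^ 4 +
      32828783588501 / 167772160000000 * s ^ 5 * t ^ 3 +
      567726689662963 / 5435817984000000 * s ^ 6 * t ^ 2 +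
      394965840687407 / 13589544960000000 * s ^ 7 * t +
      72022131691201 / 21743271936000000 * s ^ 8 =
      (1 + (797 / 20000 * u ^ 2) +
      (797 / 20000 * u ^ 2) ^ 2 / 2 +
      (797 / 20000 * u ^ 2) ^ 3 / 6) *
      (1 + u + 11 / 20 * u ^ 2) -
      139562 / 100000 * (1 + (u - 1 / 3) / 6) ^ 6 := by
    rw [hs, ht]
    ring
  rw [e] at h
  linarith

theorem evf_six_i_1 (u : ℝ) (h1 : 5 / 3 ≤ u) (h2 : u ≤ 3) :
    139562 / 100000 * (1 + (u - 1 / 3) / 6) ^ 6 ≤
      (1 + (797 / 20000 * u ^ 2) +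
      (797 / 20000 * u ^ 2) ^ 2 / 2 +
      (797 / 20000 * u ^ 2) ^ 3 / 6) *
      (1 + u + 11 / 20 * u ^ 2) := by
  obtain ⟨s, hs⟩ : ∃ s, s = u - 5 / 3 := ⟨_, rfl⟩
  obtain ⟨t, ht⟩ : ∃ t, t = 3 - u := ⟨_, rfl⟩
  have hs0 : 0 ≤ s := by linarith
  have ht0 : 0 ≤ t := by linarith
  have h : 0 ≤
      72022131691201 / 21743271936000000 * t ^ 8 +
      325255476224603 / 13589544960000000 * s * t ^ 7 +
      1862688345835559 / 27179089920000000 * s ^ 2 * t ^ 6 +
      1361735475014401 / 13589544960000000 * s ^ 3 * t ^ 5 +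
      119479083577457279 / 1358954496000000000 * s ^ 4 * t ^ 4 +
      600201459248484853 / 8493465600000000000 * s ^ 5 * t ^ 3 +
      5856072113618277499 / 84934656000000000000 * s ^ 6 * t ^ 2 +
      1986703806437400379 / 42467328000000000000 * s ^ 7 * t +
      21877119587242915421 / 1698693120000000000000 * s ^ 8 := by
    positivity
  have e :
      72022131691201 / 21743271936000000 * t ^ 8 +
      325255476224603 / 13589544960000000 * s * t ^ 7 +
      1862688345835559 / 27179089920000000 * s ^ 2 * t ^ 6 +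
      1361735475014401 / 13589544960000000 * s ^ 3 * t ^ 5 +
      119479083577457279 / 1358954496000000000 * s ^ 4 * t ^ 4 +
      600201459248484853 / 8493465600000000000 * s ^ 5 * t ^ 3 +
      5856072113618277499 / 84934656000000000000 * s ^ 6 * t ^ 2 +
      1986703806437400379 / 42467328000000000000 * s ^ 7 * t +
      21877119587242915421 / 1698693120000000000000 * s ^ 8 =
      (1 + (797 / 20000 * u ^ 2) +
      (797 / 20000 * u ^ 2) ^ 2 / 2 +
      (797 / 20000 * u ^ 2) ^ 3 / 6) *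
      (1 + u + 11 / 20 * u ^ 2) -
      139562 / 100000 * (1 + (u - 1 / 3) / 6) ^ 6 := by
    rw [hs, ht]
    ring
  rw [e] at h
  linarith

theorem evf_six_i_t (u : ℝ) (h1 : 3 ≤ u) :
    139562 / 100000 * (1 + (u - 1 / 3) / 6) ^ 6 ≤
      (1 + (797 / 20000 * u ^ 2) +
      (797 / 20000 * u ^ 2) ^ 2 / 2 +
      (797 / 20000 * u ^ 2) ^ 3 / 6) *
      (1 + u + 11 / 20 * u ^ 2) := by
  obtain ⟨s, hs⟩ : ∃ s, s = u - 3 := ⟨_, rfl⟩
  have hs0 : 0 ≤ s := by linarith
  have h : 0 ≤
      21877119587242915421 / 170061120000000000000 +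
      1990600092509318921 / 4723920000000000000 * s +
      903144400586953519 / 1574640000000000000 * s ^ 2 +
      542874458057356541 / 1574640000000000000 * s ^ 3 +
      7289332213992649 / 69984000000000000 * s ^ 4 +
      1052879096197127 / 58320000000000000 * s ^ 5 +
      122510494332917 / 58320000000000000 * s ^ 6 + 35944571683 / 240000000000000 * s ^ 7 +
      5568877303 / 960000000000000 * s ^ 8 := by
    positivity
  have e :
      21877119587242915421 / 170061120000000000000 +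
      1990600092509318921 / 4723920000000000000 * s +
      903144400586953519 / 1574640000000000000 * s ^ 2 +
      542874458057356541 / 1574640000000000000 * s ^ 3 +
      7289332213992649 / 69984000000000000 * s ^ 4 +
      1052879096197127 / 58320000000000000 * s ^ 5 +
      122510494332917 / 58320000000000000 * s ^ 6 + 35944571683 / 240000000000000 * s ^ 7 +
      5568877303 / 960000000000000 * s ^ 8 =
      (1 + (797 / 20000 * u ^ 2) +
      (797 / 20000 * u ^ 2) ^ 2 / 2 +
      (797 / 20000 * u ^ 2) ^ 3 / 6) *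
      (1 + u + 11 / 20 * u ^ 2) -
      139562 / 100000 * (1 + (u - 1 / 3) / 6) ^ 6 := by
    rw [hs]
    ring
  rw [e] at h
  linarith

/-- `K = 6`: `(c, μ) = (11 / 20, 797 / 20000)`, gain at most `1 / 3` -/
theorem expF_six_i : ExpF 6 (11 / 20) (797 / 20000) (1 / 3) := by
  have hE : Real.exp (1 / 3) ≤ 139562 / 100000 := exp_third
  refine ExpF.of2 (by norm_num) (by norm_num) (by norm_num) (by norm_num)
    (exp_le_mu (by norm_num) (by norm_num) (by norm_num) (by norm_num) (by norm_num)) ?_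
  intro u h1
  have h4 : 0 ≤ (1 + (u - 1 / 3) / 6) ^ 6 := by
    have : 0 ≤ (u - 1 / 3) / 6 := div_nonneg (by linarith) (by norm_num)
    positivity
  have hu : 0 ≤ u := by linarith
  have hx : 0 ≤ 797 / 20000 * u ^ 2 := by positivity
  have hq : 0 ≤ 1 + u + 11 / 20 * u ^ 2 := by positivity
  have h5 := mul_le_mul_of_nonneg_right (taylor3_le_exp _ hx) hq
  push_cast
  refine ((mul_le_mul_of_nonneg_right hE h4).trans ?_).trans h5
  rcases le_total u (5 / 3) with h2 | h2
  · exact evf_six_i_0 u (by linarith) h2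
  rcases le_total u (3) with h2 | h2
  · exact evf_six_i_1 u (by linarith) h2
  exact evf_six_i_t u (by linarith)

theorem evf_eight_d_0 (u : ℝ) (h1 : 2 / 3 ≤ u) (h2 : u ≤ 2) :
    194774 / 100000 * (1 + (u - 2 / 3) / 8) ^ 8 ≤
      (1 + (319 / 5000 * u ^ 2) +
      (319 / 5000 * u ^ 2) ^ 2 / 2 +
      (319 / 5000 * u ^ 2) ^ 3 / 6) *
      (1 + u + 11 / 20 * u ^ 2) := by
  obtain ⟨s, hs⟩ : ∃ s, s = u - 2 / 3 := ⟨_, rfl⟩
  obtain ⟨t, ht⟩ : ∃ t, t = 2 - u := ⟨_, rfl⟩
  have hs0 : 0 ≤ s := by linarith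
  have ht0 : 0 ≤ t := by linarith
  have h : 0 ≤
      7049471373149 / 3840000000000000 * t ^ 8 +
      4814695990493 / 320000000000000 * s * t ^ 7 +
      68542054129311 / 1280000000000000 * s ^ 2 * t ^ 6 +
      128134115385111 / 1280000000000000 * s ^ 3 * t ^ 5 +
      207785595392451 / 2048000000000000 * s ^ 4 * t ^ 4 +
      274963697551431 / 5120000000000000 * s ^ 5 * t ^ 3 +
      318761189070651 / 20480000000000000 * s ^ 6 * t ^ 2 +
      124984251125673 / 20480000000000000 * s ^ 7 * t +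
      843574334229173 / 327680000000000000 * s ^ 8 := by
    positivity
  have e :
      7049471373149 / 3840000000000000 * t ^ 8 +
      4814695990493 / 320000000000000 * s * t ^ 7 +
      68542054129311 / 1280000000000000 * s ^ 2 * t ^ 6 +
      128134115385111 / 1280000000000000 * s ^ 3 * t ^ 5 +
      207785595392451 / 2048000000000000 * s ^ 4 * t ^ 4 +
      274963697551431 / 5120000000000000 * s ^ 5 * t ^ 3 +
      318761189070651 / 20480000000000000 * s ^ 6 * t ^ 2 +
      124984251125673 / 20480000000000000 * s ^ 7 * t +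
      843574334229173 / 327680000000000000 * s ^ 8 =
      (1 + (319 / 5000 * u ^ 2) +
      (319 / 5000 * u ^ 2) ^ 2 / 2 +
      (319 / 5000 * u ^ 2) ^ 3 / 6) *
      (1 + u + 11 / 20 * u ^ 2) -
      194774 / 100000 * (1 + (u - 2 / 3) / 8) ^ 8 := by
    rw [hs, ht]
    ring
  rw [e] at h
  linarith

theorem evf_eight_d_t (u : ℝ) (h1 : 2 ≤ u) :
    194774 / 100000 * (1 + (u - 2 / 3) / 8) ^ 8 ≤
      (1 + (319 / 5000 * u ^ 2) +
      (319 / 5000 * u ^ 2) ^ 2 / 2 +
      (319 / 5000 * u ^ 2) ^ 3 / 6) *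
      (1 + u + 11 / 20 * u ^ 2) := by
  obtain ⟨s, hs⟩ : ∃ s, s = u - 2 := ⟨_, rfl⟩
  have hs0 : 0 ≤ s := by linarith
  have h : 0 ≤
      843574334229173 / 32805000000000000 + 593605831977827 / 5467500000000000 * s +
      3680506064367971 / 14580000000000000 * s ^ 2 +
      2281106480762309 / 9720000000000000 * s ^ 3 +
      1081902018895571 / 10368000000000000 * s ^ 4 +
      432030458591189 / 17280000000000000 * s ^ 5 +
      191307185580611 / 46080000000000000 * s ^ 6 +
      12764117178547 / 30720000000000000 * s ^ 7 + 23287426825439 / 983040000000000000 * s ^ 8 := by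
    positivity
  have e :
      843574334229173 / 32805000000000000 + 593605831977827 / 5467500000000000 * s +
      3680506064367971 / 14580000000000000 * s ^ 2 +
      2281106480762309 / 9720000000000000 * s ^ 3 +
      1081902018895571 / 10368000000000000 * s ^ 4 +
      432030458591189 / 17280000000000000 * s ^ 5 +
      191307185580611 / 46080000000000000 * s ^ 6 +
      12764117178547 / 30720000000000000 * s ^ 7 + 23287426825439 / 983040000000000000 * s ^ 8 =
      (1 + (319 / 5000 * u ^ 2) +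
      (319 / 5000 * u ^ 2) ^ 2 / 2 +
      (319 / 5000 * u ^ 2) ^ 3 / 6) *
      (1 + u + 11 / 20 * u ^ 2) -
      194774 / 100000 * (1 + (u - 2 / 3) / 8) ^ 8 := by
    rw [hs]
    ring
  rw [e] at h
  linarith

/-- `K = 8`: `(c, μ) = (11 / 20, 319 / 5000)`, gain at most `2 / 3` -/
theorem expF_eight_d : ExpF 8 (11 / 20) (319 / 5000) (2 / 3) := by
  have hE : Real.exp (2 / 3) ≤ 194774 / 100000 := exp_two_thirds
  refine ExpF.of2 (by norm_num) (by norm_num) (by norm_num) (by norm_num)
    (exp_le_mu (by norm_num) (by norm_num) (by norm_num) (by norm_num) (by norm_num)) ?_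
  intro u h1
  have h4 : 0 ≤ (1 + (u - 2 / 3) / 8) ^ 8 := by
    have : 0 ≤ (u - 2 / 3) / 8 := div_nonneg (by linarith) (by norm_num)
    positivity
  have hu : 0 ≤ u := by linarith
  have hx : 0 ≤ 319 / 5000 * u ^ 2 := by positivity
  have hq : 0 ≤ 1 + u + 11 / 20 * u ^ 2 := by positivity
  have h5 := mul_le_mul_of_nonneg_right (taylor3_le_exp _ hx) hq
  push_cast
  refine ((mul_le_mul_of_nonneg_right hE h4).trans ?_).trans h5
  rcases le_total u (2) with h2 | h2
  · exact evf_eight_d_0 u (by linarith) h2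
  exact evf_eight_d_t u (by linarith)

theorem evf_eight_e_0 (u : ℝ) (h1 : 2 / 3 ≤ u) (h2 : u ≤ 11 / 6) :
    194774 / 100000 * (1 + (u - 2 / 3) / 8) ^ 8 ≤
      (1 + (1091 / 20000 * u ^ 2) +
      (1091 / 20000 * u ^ 2) ^ 2 / 2 +
      (1091 / 20000 * u ^ 2) ^ 3 / 6) *
      (1 + u + 3 / 5 * u ^ 2) := by
  obtain ⟨s, hs⟩ : ∃ s, s = u - 2 / 3 := ⟨_, rfl⟩
  obtain ⟨t, ht⟩ : ∃ t, t = 11 / 6 - u := ⟨_, rfl⟩
  have hs0 : 0 ≤ s := by linarith
  have ht0 : 0 ≤ t := by linarith
  have h : 0 ≤
      270958784415559 / 28148442382812500 * t ^ 8 +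
      638798646757457 / 7037110595703125 * s * t ^ 7 +
      23797149933651831 / 64339296875000000 * s ^ 2 * t ^ 6 +
      106366085704578911 / 128678593750000000 * s ^ 3 * t ^ 5 +
      450913236236987171 / 411771500000000000 * s ^ 4 * t ^ 4 +
      7205903870690294169 / 8235430000000000000 * s ^ 5 * t ^ 3 +
      108083322984652035421 / 263533760000000000000 * s ^ 6 * t ^ 2 +
      1525938554624305699609 / 14757890560000000000000 * s ^ 7 * t +
      20963283856878520005941 / 1889009991680000000000000 * s ^ 8 := by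
    positivity
  have e :
      270958784415559 / 28148442382812500 * t ^ 8 +
      638798646757457 / 7037110595703125 * s * t ^ 7 +
      23797149933651831 / 64339296875000000 * s ^ 2 * t ^ 6 +
      106366085704578911 / 128678593750000000 * s ^ 3 * t ^ 5 +
      450913236236987171 / 411771500000000000 * s ^ 4 * t ^ 4 +
      7205903870690294169 / 8235430000000000000 * s ^ 5 * t ^ 3 +
      108083322984652035421 / 263533760000000000000 * s ^ 6 * t ^ 2 +
      1525938554624305699609 / 14757890560000000000000 * s ^ 7 * t +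
      20963283856878520005941 / 1889009991680000000000000 * s ^ 8 =
      (1 + (1091 / 20000 * u ^ 2) +
      (1091 / 20000 * u ^ 2) ^ 2 / 2 +
      (1091 / 20000 * u ^ 2) ^ 3 / 6) *
      (1 + u + 3 / 5 * u ^ 2) -
      194774 / 100000 * (1 + (u - 2 / 3) / 8) ^ 8 := by
    rw [hs, ht]
    ring
  rw [e] at h
  linarith

theorem evf_eight_e_1 (u : ℝ) (h1 : 11 / 6 ≤ u) (h2 : u ≤ 3) :
    194774 / 100000 * (1 + (u - 2 / 3) / 8) ^ 8 ≤
      (1 + (1091 / 20000 * u ^ 2) +
      (1091 / 20000 * u ^ 2) ^ 2 / 2 +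
      (1091 / 20000 * u ^ 2) ^ 3 / 6) *
      (1 + u + 3 / 5 * u ^ 2) := by
  obtain ⟨s, hs⟩ : ∃ s, s = u - 11 / 6 := ⟨_, rfl⟩
  obtain ⟨t, ht⟩ : ∃ t, t = 3 - u := ⟨_, rfl⟩
  have hs0 : 0 ≤ s := by linarith
  have ht0 : 0 ≤ t := by linarith
  have h : 0 ≤
      20963283856878520005941 / 1889009991680000000000000 * t ^ 8 +
      8755775419884074409069 / 118063124480000000000000 * s * t ^ 7 +
      3465599653907359079141 / 16866160640000000000000 * s ^ 2 * t ^ 6 +
      1403333777154943401629 / 4216540160000000000000 * s ^ 3 * t ^ 5 +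
      726495623460096214421 / 1686616064000000000000 * s ^ 4 * t ^ 4 +
      568192668190875368909 / 1054135040000000000000 * s ^ 5 * t ^ 3 +
      555663558671168890181 / 1054135040000000000000 * s ^ 6 * t ^ 2 +
      551254916659100928509 / 1844736320000000000000 * s ^ 7 * t +
      519406400009047992821 / 7378945280000000000000 * s ^ 8 := by
    positivity
  have e :
      20963283856878520005941 / 1889009991680000000000000 * t ^ 8 +
      8755775419884074409069 / 118063124480000000000000 * s * t ^ 7 +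
      3465599653907359079141 / 16866160640000000000000 * s ^ 2 * t ^ 6 +
      1403333777154943401629 / 4216540160000000000000 * s ^ 3 * t ^ 5 +
      726495623460096214421 / 1686616064000000000000 * s ^ 4 * t ^ 4 +
      568192668190875368909 / 1054135040000000000000 * s ^ 5 * t ^ 3 +
      555663558671168890181 / 1054135040000000000000 * s ^ 6 * t ^ 2 +
      551254916659100928509 / 1844736320000000000000 * s ^ 7 * t +
      519406400009047992821 / 7378945280000000000000 * s ^ 8 =
      (1 + (1091 / 20000 * u ^ 2) +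
      (1091 / 20000 * u ^ 2) ^ 2 / 2 +
      (1091 / 20000 * u ^ 2) ^ 3 / 6) *
      (1 + u + 3 / 5 * u ^ 2) -
      194774 / 100000 * (1 + (u - 2 / 3) / 8) ^ 8 := by
    rw [hs, ht]
    ring
  rw [e] at h
  linarith

theorem evf_eight_e_t (u : ℝ) (h1 : 3 ≤ u) :
    194774 / 100000 * (1 + (u - 2 / 3) / 8) ^ 8 ≤
      (1 + (1091 / 20000 * u ^ 2) +
      (1091 / 20000 * u ^ 2) ^ 2 / 2 +
      (1091 / 20000 * u ^ 2) ^ 3 / 6) *
      (1 + u + 3 / 5 * u ^ 2) := by
  obtain ⟨s, hs⟩ : ∃ s, s = u - 3 := ⟨_, rfl⟩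
  have hs0 : 0 ≤ s := by linarith
  have h : 0 ≤
      519406400009047992821 / 2149908480000000000000 +
      69651126194142151019 / 89579520000000000000 * s +
      61181356010136735347 / 59719680000000000000 * s ^ 2 +
      6244507836720628013 / 9953280000000000000 * s ^ 3 +
      545844761208993587 / 2654208000000000000 * s ^ 4 +
      44819613105363053 / 1105920000000000000 * s ^ 5 +
      3856994599034867 / 737280000000000000 * s ^ 6 +
      50016575511979 / 122880000000000000 * s ^ 7 + 5281009757941 / 327680000000000000 * s ^ 8 := by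
    positivity
  have e :
      519406400009047992821 / 2149908480000000000000 +
      69651126194142151019 / 89579520000000000000 * s +
      61181356010136735347 / 59719680000000000000 * s ^ 2 +
      6244507836720628013 / 9953280000000000000 * s ^ 3 +
      545844761208993587 / 2654208000000000000 * s ^ 4 +
      44819613105363053 / 1105920000000000000 * s ^ 5 +
      3856994599034867 / 737280000000000000 * s ^ 6 +
      50016575511979 / 122880000000000000 * s ^ 7 + 5281009757941 / 327680000000000000 * s ^ 8 =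
      (1 + (1091 / 20000 * u ^ 2) +
      (1091 / 20000 * u ^ 2) ^ 2 / 2 +
      (1091 / 20000 * u ^ 2) ^ 3 / 6) *
      (1 + u + 3 / 5 * u ^ 2) -
      194774 / 100000 * (1 + (u - 2 / 3) / 8) ^ 8 := by
    rw [hs]
    ring
  rw [e] at h
  linarith

/-- `K = 8`: `(c, μ) = (3 / 5, 1091 / 20000)`, gain at most `2 / 3` -/
theorem expF_eight_e : ExpF 8 (3 / 5) (1091 / 20000) (2 / 3) := by
  have hE : Real.exp (2 / 3) ≤ 194774 / 100000 := exp_two_thirds
  refine ExpF.of2 (by norm_num) (by norm_num) (by norm_num) (by norm_num)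
    (exp_le_mu (by norm_num) (by norm_num) (by norm_num) (by norm_num) (by norm_num)) ?_
  intro u h1
  have h4 : 0 ≤ (1 + (u - 2 / 3) / 8) ^ 8 := by
    have : 0 ≤ (u - 2 / 3) / 8 := div_nonneg (by linarith) (by norm_num)
    positivity
  have hu : 0 ≤ u := by linarith
  have hx : 0 ≤ 1091 / 20000 * u ^ 2 := by positivity
  have hq : 0 ≤ 1 + u + 3 / 5 * u ^ 2 := by positivity
  have h5 := mul_le_mul_of_nonneg_right (taylor3_le_exp _ hx) hq
  push_cast
  refine ((mul_le_mul_of_nonneg_right hE h4).trans ?_).trans h5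
  rcases le_total u (11 / 6) with h2 | h2
  · exact evf_eight_e_0 u (by linarith) h2
  rcases le_total u (3) with h2 | h2
  · exact evf_eight_e_1 u (by linarith) h2
  exact evf_eight_e_t u (by linarith)

theorem evf_eight_f_0 (u : ℝ) (h1 : 2 / 3 ≤ u) (h2 : u ≤ 3) :
    194774 / 100000 * (1 + (u - 2 / 3) / 8) ^ 8 ≤
      (1 + (961 / 20000 * u ^ 2) +
      (961 / 20000 * u ^ 2) ^ 2 / 2 +
      (961 / 20000 * u ^ 2) ^ 3 / 6) *
      (1 + u + 13 / 20 * u ^ 2) := by
  obtain ⟨s, hs⟩ : ∃ s, s = u - 2 / 3 := ⟨_, rfl⟩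
  obtain ⟨t, ht⟩ : ∃ t, t = 3 - u := ⟨_, rfl⟩
  have hs0 : 0 ≤ s := by linarith
  have ht0 : 0 ≤ t := by linarith
  have h : 0 ≤
      153855338100491 / 2702250468750000000 * t ^ 8 +
      1237775595777949 / 1801500312500000000 * s * t ^ 7 +
      14111456946219609 / 4117715000000000000 * s ^ 2 * t ^ 6 +
      34293512079468531 / 4117715000000000000 * s ^ 3 * t ^ 5 +
      69724542142505259 / 6588344000000000000 * s ^ 4 * t ^ 4 +
      449999693175223809 / 65883440000000000000 * s ^ 5 * t ^ 3 +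
      1951342732356800589 / 1054135040000000000000 * s ^ 6 * t ^ 2 +
      4202253961456581249 / 29515781120000000000000 * s ^ 7 * t +
      154499165458749683189 / 1889009991680000000000000 * s ^ 8 := by
    positivity
  have e :
      153855338100491 / 2702250468750000000 * t ^ 8 +
      1237775595777949 / 1801500312500000000 * s * t ^ 7 +
      14111456946219609 / 4117715000000000000 * s ^ 2 * t ^ 6 +
      34293512079468531 / 4117715000000000000 * s ^ 3 * t ^ 5 +
      69724542142505259 / 6588344000000000000 * s ^ 4 * t ^ 4 +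
      449999693175223809 / 65883440000000000000 * s ^ 5 * t ^ 3 +
      1951342732356800589 / 1054135040000000000000 * s ^ 6 * t ^ 2 +
      4202253961456581249 / 29515781120000000000000 * s ^ 7 * t +
      154499165458749683189 / 1889009991680000000000000 * s ^ 8 =
      (1 + (961 / 20000 * u ^ 2) +
      (961 / 20000 * u ^ 2) ^ 2 / 2 +
      (961 / 20000 * u ^ 2) ^ 3 / 6) *
      (1 + u + 13 / 20 * u ^ 2) -
      194774 / 100000 * (1 + (u - 2 / 3) / 8) ^ 8 := by
    rw [hs, ht]
    ring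
  rw [e] at h
  linarith

theorem evf_eight_f_t (u : ℝ) (h1 : 3 ≤ u) :
    194774 / 100000 * (1 + (u - 2 / 3) / 8) ^ 8 ≤
      (1 + (961 / 20000 * u ^ 2) +
      (961 / 20000 * u ^ 2) ^ 2 / 2 +
      (961 / 20000 * u ^ 2) ^ 3 / 6) *
      (1 + u + 13 / 20 * u ^ 2) := by
  obtain ⟨s, hs⟩ : ∃ s, s = u - 3 := ⟨_, rfl⟩
  have hs0 : 0 ≤ s := by linarith
  have h : 0 ≤
      154499165458749683189 / 2149908480000000000000 +
      17268733395299576171 / 89579520000000000000 * s +
      30307005278039945843 / 59719680000000000000 * s ^ 2 +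
      4038837389603731757 / 9953280000000000000 * s ^ 3 +
      388731781078698803 / 2654208000000000000 * s ^ 4 +
      32609787078381677 / 1105920000000000000 * s ^ 5 +
      2830154957423603 / 737280000000000000 * s ^ 6 +
      12178686908217 / 40960000000000000 * s ^ 7 + 11700323610847 / 983040000000000000 * s ^ 8 := by
    positivity
  have e :
      154499165458749683189 / 2149908480000000000000 +
      17268733395299576171 / 89579520000000000000 * s +
      30307005278039945843 / 59719680000000000000 * s ^ 2 +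
      4038837389603731757 / 9953280000000000000 * s ^ 3 +
      388731781078698803 / 2654208000000000000 * s ^ 4 +
      32609787078381677 / 1105920000000000000 * s ^ 5 +
      2830154957423603 / 737280000000000000 * s ^ 6 +
      12178686908217 / 40960000000000000 * s ^ 7 + 11700323610847 / 983040000000000000 * s ^ 8 =
      (1 + (961 / 20000 * u ^ 2) +
      (961 / 20000 * u ^ 2) ^ 2 / 2 +
      (961 / 20000 * u ^ 2) ^ 3 / 6) *
      (1 + u + 13 / 20 * u ^ 2) -
      194774 / 100000 * (1 + (u - 2 / 3) / 8) ^ 8 := by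
    rw [hs]
    ring
  rw [e] at h
  linarith

/-- `K = 8`: `(c, μ) = (13 / 20, 961 / 20000)`, gain at most `2 / 3` -/
theorem expF_eight_f : ExpF 8 (13 / 20) (961 / 20000) (2 / 3) := by
  have hE : Real.exp (2 / 3) ≤ 194774 / 100000 := exp_two_thirds
  refine ExpF.of2 (by norm_num) (by norm_num) (by norm_num) (by norm_num)
    (exp_le_mu (by norm_num) (by norm_num) (by norm_num) (by norm_num) (by norm_num)) ?_
  intro u h1
  have h4 : 0 ≤ (1 + (u - 2 / 3) / 8) ^ 8 := by
    have : 0 ≤ (u - 2 / 3) / 8 := div_nonneg (by linarith) (by norm_num)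
    positivity
  have hu : 0 ≤ u := by linarith
  have hx : 0 ≤ 961 / 20000 * u ^ 2 := by positivity
  have hq : 0 ≤ 1 + u + 13 / 20 * u ^ 2 := by positivity
  have h5 := mul_le_mul_of_nonneg_right (taylor3_le_exp _ hx) hq
  push_cast
  refine ((mul_le_mul_of_nonneg_right hE h4).trans ?_).trans h5
  rcases le_total u (3) with h2 | h2
  · exact evf_eight_f_0 u (by linarith) h2
  exact evf_eight_f_t u (by linarith)

theorem evf_eight_g_0 (u : ℝ) (h1 : 1 / 3 ≤ u) (h2 : u ≤ 5 / 3) :
    139562 / 100000 * (1 + (u - 1 / 3) / 8) ^ 8 ≤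
      (1 + (127 / 2500 * u ^ 2) +
      (127 / 2500 * u ^ 2) ^ 2 / 2 +
      (127 / 2500 * u ^ 2) ^ 3 / 6) *
      (1 + u + 11 / 20 * u ^ 2) := by
  obtain ⟨s, hs⟩ : ∃ s, s = u - 1 / 3 := ⟨_, rfl⟩
  obtain ⟨t, ht⟩ : ∃ t, t = 5 / 3 - u := ⟨_, rfl⟩
  have hs0 : 0 ≤ s := by linarith
  have ht0 : 0 ≤ t := by linarith
  have h : 0 ≤
      82638629726633 / 122880000000000000 * t ^ 8 +
      27302138613047 / 3072000000000000 * s * t ^ 7 +
      333369314609287 / 6144000000000000 * s ^ 2 * t ^ 6 +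
      99614476310581 / 614400000000000 * s ^ 3 * t ^ 5 +
      25906914598057 / 98304000000000 * s ^ 4 * t ^ 4 +
      30081141947 / 122880000000 * s ^ 5 * t ^ 3 +
      101286444041 / 786432000000 * s ^ 6 * t ^ 2 +
      139327645369 / 3932160000000 * s ^ 7 * t + 50370874349 / 12582912000000 * s ^ 8 := by
    positivity
  have e :
      82638629726633 / 122880000000000000 * t ^ 8 +
      27302138613047 / 3072000000000000 * s * t ^ 7 +
      333369314609287 / 6144000000000000 * s ^ 2 * t ^ 6 +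
      99614476310581 / 614400000000000 * s ^ 3 * t ^ 5 +
      25906914598057 / 98304000000000 * s ^ 4 * t ^ 4 +
      30081141947 / 122880000000 * s ^ 5 * t ^ 3 +
      101286444041 / 786432000000 * s ^ 6 * t ^ 2 +
      139327645369 / 3932160000000 * s ^ 7 * t + 50370874349 / 12582912000000 * s ^ 8 =
      (1 + (127 / 2500 * u ^ 2) +
      (127 / 2500 * u ^ 2) ^ 2 / 2 +
      (127 / 2500 * u ^ 2) ^ 3 / 6) *
      (1 + u + 11 / 20 * u ^ 2) -
      139562 / 100000 * (1 + (u - 1 / 3) / 8) ^ 8 := by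
    rw [hs, ht]
    ring
  rw [e] at h
  linarith

theorem evf_eight_g_1 (u : ℝ) (h1 : 5 / 3 ≤ u) (h2 : u ≤ 3) :
    139562 / 100000 * (1 + (u - 1 / 3) / 8) ^ 8 ≤
      (1 + (127 / 2500 * u ^ 2) +
      (127 / 2500 * u ^ 2) ^ 2 / 2 +
      (127 / 2500 * u ^ 2) ^ 3 / 6) *
      (1 + u + 11 / 20 * u ^ 2) := by
  obtain ⟨s, hs⟩ : ∃ s, s = u - 5 / 3 := ⟨_, rfl⟩
  obtain ⟨t, ht⟩ : ∃ t, t = 3 - u := ⟨_, rfl⟩
  have hs0 : 0 ≤ s := by linarith
  have ht0 : 0 ≤ t := by linarith
  have h : 0 ≤
      50370874349 / 12582912000000 * t ^ 8 + 4688613599 / 163840000000 * s * t ^ 7 +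
      53137631209 / 655360000000 * s ^ 2 * t ^ 6 + 7716504967 / 65536000000 * s ^ 3 * t ^ 5 +
      3452580766769 / 32768000000000 * s ^ 4 * t ^ 4 +
      18863635022423 / 204800000000000 * s ^ 5 * t ^ 3 +
      194958279953309 / 2048000000000000 * s ^ 6 * t ^ 2 +
      66691451625889 / 1024000000000000 * s ^ 7 * t +
      735881692045411 / 40960000000000000 * s ^ 8 := by
    positivity
  have e :
      50370874349 / 12582912000000 * t ^ 8 + 4688613599 / 163840000000 * s * t ^ 7 +
      53137631209 / 655360000000 * s ^ 2 * t ^ 6 + 7716504967 / 65536000000 * s ^ 3 * t ^ 5 +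
      3452580766769 / 32768000000000 * s ^ 4 * t ^ 4 +
      18863635022423 / 204800000000000 * s ^ 5 * t ^ 3 +
      194958279953309 / 2048000000000000 * s ^ 6 * t ^ 2 +
      66691451625889 / 1024000000000000 * s ^ 7 * t +
      735881692045411 / 40960000000000000 * s ^ 8 =
      (1 + (127 / 2500 * u ^ 2) +
      (127 / 2500 * u ^ 2) ^ 2 / 2 +
      (127 / 2500 * u ^ 2) ^ 3 / 6) *
      (1 + u + 11 / 20 * u ^ 2) -
      139562 / 100000 * (1 + (u - 1 / 3) / 8) ^ 8 := by
    rw [hs, ht]
    ring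
  rw [e] at h
  linarith

theorem evf_eight_g_t (u : ℝ) (h1 : 3 ≤ u) :
    139562 / 100000 * (1 + (u - 1 / 3) / 8) ^ 8 ≤
      (1 + (127 / 2500 * u ^ 2) +
      (127 / 2500 * u ^ 2) ^ 2 / 2 +
      (127 / 2500 * u ^ 2) ^ 3 / 6) *
      (1 + u + 11 / 20 * u ^ 2) := by
  obtain ⟨s, hs⟩ : ∃ s, s = u - 3 := ⟨_, rfl⟩
  have hs0 : 0 ≤ s := by linarith
  have h : 0 ≤
      735881692045411 / 4100625000000000 + 201212216957983 / 341718750000000 * s +
      22774400473003 / 28476562500000 * s ^ 2 + 18792273354331 / 37968750000000 * s ^ 3 +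
      813773862877 / 5062500000000 * s ^ 4 + 1049751258293 / 33750000000000 * s ^ 5 +
      2846651277389 / 720000000000000 * s ^ 6 + 388048965977 / 1280000000000000 * s ^ 7 +
      11731594279969 / 983040000000000000 * s ^ 8 := by
    positivity
  have e :
      735881692045411 / 4100625000000000 + 201212216957983 / 341718750000000 * s +
      22774400473003 / 28476562500000 * s ^ 2 + 18792273354331 / 37968750000000 * s ^ 3 +
      813773862877 / 5062500000000 * s ^ 4 + 1049751258293 / 33750000000000 * s ^ 5 +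
      2846651277389 / 720000000000000 * s ^ 6 + 388048965977 / 1280000000000000 * s ^ 7 +
      11731594279969 / 983040000000000000 * s ^ 8 =
      (1 + (127 / 2500 * u ^ 2) +
      (127 / 2500 * u ^ 2) ^ 2 / 2 +
      (127 / 2500 * u ^ 2) ^ 3 / 6) *
      (1 + u + 11 / 20 * u ^ 2) -
      139562 / 100000 * (1 + (u - 1 / 3) / 8) ^ 8 := by
    rw [hs]
    ring
  rw [e] at h
  linarith

/-- `K = 8`: `(c, μ) = (11 / 20, 127 / 2500)`, gain at most `1 / 3` -/
theorem expF_eight_g : ExpF 8 (11 / 20) (127 / 2500) (1 / 3) := by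
  have hE : Real.exp (1 / 3) ≤ 139562 / 100000 := exp_third
  refine ExpF.of2 (by norm_num) (by norm_num) (by norm_num) (by norm_num)
    (exp_le_mu (by norm_num) (by norm_num) (by norm_num) (by norm_num) (by norm_num)) ?_
  intro u h1
  have h4 : 0 ≤ (1 + (u - 1 / 3) / 8) ^ 8 := by
    have : 0 ≤ (u - 1 / 3) / 8 := div_nonneg (by linarith) (by norm_num)
    positivity
  have hu : 0 ≤ u := by linarith
  have hx : 0 ≤ 127 / 2500 * u ^ 2 := by positivity
  have hq : 0 ≤ 1 + u + 11 / 20 * u ^ 2 := by positivity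
  have h5 := mul_le_mul_of_nonneg_right (taylor3_le_exp _ hx) hq
  push_cast
  refine ((mul_le_mul_of_nonneg_right hE h4).trans ?_).trans h5
  rcases le_total u (5 / 3) with h2 | h2
  · exact evf_eight_g_0 u (by linarith) h2
  rcases le_total u (3) with h2 | h2
  · exact evf_eight_g_1 u (by linarith) h2
  exact evf_eight_g_t u (by linarith)

theorem evf_four_k_0 (u : ℝ) (h1 : 2 / 3 ≤ u) (h2 : u ≤ 2) :
    194774 / 100000 * (1 + (u - 2 / 3) / 4) ^ 4 ≤
      (1 + (679 / 20000 * u ^ 2) +
      (679 / 20000 * u ^ 2) ^ 2 / 2 +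
      (679 / 20000 * u ^ 2) ^ 3 / 6) *
      (1 + u + 3 / 5 * u ^ 2) := by
  obtain ⟨s, hs⟩ : ∃ s, s = u - 2 / 3 := ⟨_, rfl⟩
  obtain ⟨t, ht⟩ : ∃ t, t = 2 - u := ⟨_, rfl⟩
  have hs0 : 0 ≤ s := by linarith
  have ht0 : 0 ≤ t := by linarith
  have h : 0 ≤
      122907028873331 / 81920000000000000 * t ^ 8 +
      79812150544103 / 10240000000000000 * s * t ^ 7 +
      183337406687529 / 10240000000000000 * s ^ 2 * t ^ 6 +
      109106449824807 / 5120000000000000 * s ^ 3 * t ^ 5 +
      93148259045427 / 8192000000000000 * s ^ 4 * t ^ 4 +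
      26405224485831 / 10240000000000000 * s ^ 5 * t ^ 3 +
      15259311526941 / 2560000000000000 * s ^ 6 * t ^ 2 +
      20498099600673 / 2560000000000000 * s ^ 7 * t +
      242315102931111 / 81920000000000000 * s ^ 8 := by
    positivity
  have e :
      122907028873331 / 81920000000000000 * t ^ 8 +
      79812150544103 / 10240000000000000 * s * t ^ 7 +
      183337406687529 / 10240000000000000 * s ^ 2 * t ^ 6 +
      109106449824807 / 5120000000000000 * s ^ 3 * t ^ 5 +
      93148259045427 / 8192000000000000 * s ^ 4 * t ^ 4 +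
      26405224485831 / 10240000000000000 * s ^ 5 * t ^ 3 +
      15259311526941 / 2560000000000000 * s ^ 6 * t ^ 2 +
      20498099600673 / 2560000000000000 * s ^ 7 * t +
      242315102931111 / 81920000000000000 * s ^ 8 =
      (1 + (679 / 20000 * u ^ 2) +
      (679 / 20000 * u ^ 2) ^ 2 / 2 +
      (679 / 20000 * u ^ 2) ^ 3 / 6) *
      (1 + u + 3 / 5 * u ^ 2) -
      194774 / 100000 * (1 + (u - 2 / 3) / 4) ^ 4 := by
    rw [hs, ht]
    ring
  rw [e] at h
  linarith

theorem evf_four_k_t (u : ℝ) (h1 : 2 ≤ u) :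
    194774 / 100000 * (1 + (u - 2 / 3) / 4) ^ 4 ≤
      (1 + (679 / 20000 * u ^ 2) +
      (679 / 20000 * u ^ 2) ^ 2 / 2 +
      (679 / 20000 * u ^ 2) ^ 3 / 6) *
      (1 + u + 3 / 5 * u ^ 2) := by
  obtain ⟨s, hs⟩ : ∃ s, s = u - 2 := ⟨_, rfl⟩
  have hs0 : 0 ≤ s := by linarith
  have h : 0 ≤
      2991544480631 / 101250000000000 + 1979292648499 / 16875000000000 * s +
      2758792737019 / 15000000000000 * s ^ 2 + 1939404976679 / 15000000000000 * s ^ 3 +
      557374442767 / 12000000000000 * s ^ 4 + 8881032783 / 1250000000000 * s ^ 5 +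
      70549876943 / 80000000000000 * s ^ 6 + 16591482467 / 240000000000000 * s ^ 7 +
      313046839 / 80000000000000 * s ^ 8 := by
    positivity
  have e :
      2991544480631 / 101250000000000 + 1979292648499 / 16875000000000 * s +
      2758792737019 / 15000000000000 * s ^ 2 + 1939404976679 / 15000000000000 * s ^ 3 +
      557374442767 / 12000000000000 * s ^ 4 + 8881032783 / 1250000000000 * s ^ 5 +
      70549876943 / 80000000000000 * s ^ 6 + 16591482467 / 240000000000000 * s ^ 7 +
      313046839 / 80000000000000 * s ^ 8 =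
      (1 + (679 / 20000 * u ^ 2) +
      (679 / 20000 * u ^ 2) ^ 2 / 2 +
      (679 / 20000 * u ^ 2) ^ 3 / 6) *
      (1 + u + 3 / 5 * u ^ 2) -
      194774 / 100000 * (1 + (u - 2 / 3) / 4) ^ 4 := by
    rw [hs]
    ring
  rw [e] at h
  linarith

/-- `K = 4`: `(c, μ) = (3 / 5, 679 / 20000)`, gain at most `2 / 3` -/
theorem expF_four_k : ExpF 4 (3 / 5) (679 / 20000) (2 / 3) := by
  have hE : Real.exp (2 / 3) ≤ 194774 / 100000 := exp_two_thirds
  refine ExpF.of2 (by norm_num) (by norm_num) (by norm_num) (by norm_num)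
    (exp_le_mu (by norm_num) (by norm_num) (by norm_num) (by norm_num) (by norm_num)) ?_
  intro u h1
  have h4 : 0 ≤ (1 + (u - 2 / 3) / 4) ^ 4 := by
    have : 0 ≤ (u - 2 / 3) / 4 := div_nonneg (by linarith) (by norm_num)
    positivity
  have hu : 0 ≤ u := by linarith
  have hx : 0 ≤ 679 / 20000 * u ^ 2 := by positivity
  have hq : 0 ≤ 1 + u + 3 / 5 * u ^ 2 := by positivity
  have h5 := mul_le_mul_of_nonneg_right (taylor3_le_exp _ hx) hq
  push_cast
  refine ((mul_le_mul_of_nonneg_right hE h4).trans ?_).trans h5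
  rcases le_total u (2) with h2 | h2
  · exact evf_four_k_0 u (by linarith) h2
  exact evf_four_k_t u (by linarith)

theorem evf_four_l_0 (u : ℝ) (h1 : 2 / 3 ≤ u) (h2 : u ≤ 1) :
    194774 / 100000 * (1 + (u - 2 / 3) / 4) ^ 4 ≤
      (1 + (513 / 10000 * u ^ 2) +
      (513 / 10000 * u ^ 2) ^ 2 / 2 +
      (513 / 10000 * u ^ 2) ^ 3 / 6) *
      (1 + u + 11 / 20 * u ^ 2) := by
  obtain ⟨s, hs⟩ : ∃ s, s = u - 2 / 3 := ⟨_, rfl⟩
  obtain ⟨t, ht⟩ : ∃ t, t = 1 - u := ⟨_, rfl⟩
  have hs0 : 0 ≤ s := by linarith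
  have ht0 : 0 ≤ t := by linarith
  have h : 0 ≤
      3816121401657 / 78125000000 * t ^ 8 + 11787640683957 / 39062500000 * s * t ^ 7 +
      492035331470103 / 625000000000 * s ^ 2 * t ^ 6 +
      704047249483569 / 625000000000 * s ^ 3 * t ^ 5 +
      968578034872707 / 1000000000000 * s ^ 4 * t ^ 4 +
      165151205082207 / 312500000000 * s ^ 5 * t ^ 3 +
      1992381643886553 / 10000000000000 * s ^ 6 * t ^ 2 +
      569239721991747 / 10000000000000 * s ^ 7 * t + 389118318641289 / 40000000000000 * s ^ 8 := by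
    positivity
  have e :
      3816121401657 / 78125000000 * t ^ 8 + 11787640683957 / 39062500000 * s * t ^ 7 +
      492035331470103 / 625000000000 * s ^ 2 * t ^ 6 +
      704047249483569 / 625000000000 * s ^ 3 * t ^ 5 +
      968578034872707 / 1000000000000 * s ^ 4 * t ^ 4 +
      165151205082207 / 312500000000 * s ^ 5 * t ^ 3 +
      1992381643886553 / 10000000000000 * s ^ 6 * t ^ 2 +
      569239721991747 / 10000000000000 * s ^ 7 * t + 389118318641289 / 40000000000000 * s ^ 8 =
      (1 + (513 / 10000 * u ^ 2) +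
      (513 / 10000 * u ^ 2) ^ 2 / 2 +
      (513 / 10000 * u ^ 2) ^ 3 / 6) *
      (1 + u + 11 / 20 * u ^ 2) -
      194774 / 100000 * (1 + (u - 2 / 3) / 4) ^ 4 := by
    rw [hs, ht]
    ring
  rw [e] at h
  linarith

theorem evf_four_l_1 (u : ℝ) (h1 : 1 ≤ u) (h2 : u ≤ 4 / 3) :
    194774 / 100000 * (1 + (u - 2 / 3) / 4) ^ 4 ≤
      (1 + (513 / 10000 * u ^ 2) +
      (513 / 10000 * u ^ 2) ^ 2 / 2 +
      (513 / 10000 * u ^ 2) ^ 3 / 6) *
      (1 + u + 11 / 20 * u ^ 2) := by
  obtain ⟨s, hs⟩ : ∃ s, s = u - 1 := ⟨_, rfl⟩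
  obtain ⟨t, ht⟩ : ∃ t, t = 4 / 3 - u := ⟨_, rfl⟩
  have hs0 : 0 ≤ s := by linarith
  have ht0 : 0 ≤ t := by linarith
  have h : 0 ≤
      389118318641289 / 40000000000000 * t ^ 8 +
      987233552573409 / 10000000000000 * s * t ^ 7 +
      4918338457958187 / 10000000000000 * s ^ 2 * t ^ 6 +
      224825878195713 / 156250000000 * s ^ 3 * t ^ 5 +
      2594630041748577 / 1000000000000 * s ^ 4 * t ^ 4 +
      1822485609413883 / 625000000000 * s ^ 5 * t ^ 3 +
      1245198801107187 / 625000000000 * s ^ 6 * t ^ 2 +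
      118525143641409 / 156250000000 * s ^ 7 * t + 38636548490853 / 312500000000 * s ^ 8 := by
    positivity
  have e :
      389118318641289 / 40000000000000 * t ^ 8 +
      987233552573409 / 10000000000000 * s * t ^ 7 +
      4918338457958187 / 10000000000000 * s ^ 2 * t ^ 6 +
      224825878195713 / 156250000000 * s ^ 3 * t ^ 5 +
      2594630041748577 / 1000000000000 * s ^ 4 * t ^ 4 +
      1822485609413883 / 625000000000 * s ^ 5 * t ^ 3 +
      1245198801107187 / 625000000000 * s ^ 6 * t ^ 2 +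
      118525143641409 / 156250000000 * s ^ 7 * t + 38636548490853 / 312500000000 * s ^ 8 =
      (1 + (513 / 10000 * u ^ 2) +
      (513 / 10000 * u ^ 2) ^ 2 / 2 +
      (513 / 10000 * u ^ 2) ^ 3 / 6) *
      (1 + u + 11 / 20 * u ^ 2) -
      194774 / 100000 * (1 + (u - 2 / 3) / 4) ^ 4 := by
    rw [hs, ht]
    ring
  rw [e] at h
  linarith

theorem evf_four_l_2 (u : ℝ) (h1 : 4 / 3 ≤ u) (h2 : u ≤ 2) :
    194774 / 100000 * (1 + (u - 2 / 3) / 4) ^ 4 ≤
      (1 + (513 / 10000 * u ^ 2) +
      (513 / 10000 * u ^ 2) ^ 2 / 2 +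
      (513 / 10000 * u ^ 2) ^ 3 / 6) *
      (1 + u + 11 / 20 * u ^ 2) := by
  obtain ⟨s, hs⟩ : ∃ s, s = u - 4 / 3 := ⟨_, rfl⟩
  obtain ⟨t, ht⟩ : ∃ t, t = 2 - u := ⟨_, rfl⟩
  have hs0 : 0 ≤ s := by linarith
  have ht0 : 0 ≤ t := by linarith
  have h : 0 ≤
      38636548490853 / 80000000000000 * t ^ 8 +
      113294147303709 / 20000000000000 * s * t ^ 7 +
      1135347878015487 / 40000000000000 * s ^ 2 * t ^ 6 +
      1587666781866933 / 20000000000000 * s ^ 3 * t ^ 5 +
      2174375384292177 / 16000000000000 * s ^ 4 * t ^ 4 +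
      1462481884637829 / 10000000000000 * s ^ 5 * t ^ 3 +
      3874853328811587 / 40000000000000 * s ^ 6 * t ^ 2 +
      361883684104317 / 10000000000000 * s ^ 7 * t + 116963343263907 / 20000000000000 * s ^ 8 := by
    positivity
  have e :
      38636548490853 / 80000000000000 * t ^ 8 +
      113294147303709 / 20000000000000 * s * t ^ 7 +
      1135347878015487 / 40000000000000 * s ^ 2 * t ^ 6 +
      1587666781866933 / 20000000000000 * s ^ 3 * t ^ 5 +
      2174375384292177 / 16000000000000 * s ^ 4 * t ^ 4 +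
      1462481884637829 / 10000000000000 * s ^ 5 * t ^ 3 +
      3874853328811587 / 40000000000000 * s ^ 6 * t ^ 2 +
      361883684104317 / 10000000000000 * s ^ 7 * t + 116963343263907 / 20000000000000 * s ^ 8 =
      (1 + (513 / 10000 * u ^ 2) +
      (513 / 10000 * u ^ 2) ^ 2 / 2 +
      (513 / 10000 * u ^ 2) ^ 3 / 6) *
      (1 + u + 11 / 20 * u ^ 2) -
      194774 / 100000 * (1 + (u - 2 / 3) / 4) ^ 4 := by
    rw [hs, ht]
    ring
  rw [e] at h
  linarith

theorem evf_four_l_t (u : ℝ) (h1 : 2 ≤ u) :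
    194774 / 100000 * (1 + (u - 2 / 3) / 4) ^ 4 ≤
      (1 + (513 / 10000 * u ^ 2) +
      (513 / 10000 * u ^ 2) ^ 2 / 2 +
      (513 / 10000 * u ^ 2) ^ 3 / 6) *
      (1 + u + 11 / 20 * u ^ 2) := by
  obtain ⟨s, hs⟩ : ∃ s, s = u - 2 := ⟨_, rfl⟩
  have hs0 : 0 ≤ s := by linarith
  have h : 0 ≤
      1443991892147 / 6328125000000 + 1308267764831 / 2109375000000 * s +
      1201882290821 / 1875000000000 * s ^ 2 + 622576636501 / 1875000000000 * s ^ 3 +
      100014728347 / 1000000000000 * s ^ 4 + 11065466943 / 625000000000 * s ^ 5 +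
      24472874817 / 10000000000000 * s ^ 6 + 2205093051 / 10000000000000 * s ^ 7 +
      495020889 / 40000000000000 * s ^ 8 := by
    positivity
  have e :
      1443991892147 / 6328125000000 + 1308267764831 / 2109375000000 * s +
      1201882290821 / 1875000000000 * s ^ 2 + 622576636501 / 1875000000000 * s ^ 3 +
      100014728347 / 1000000000000 * s ^ 4 + 11065466943 / 625000000000 * s ^ 5 +
      24472874817 / 10000000000000 * s ^ 6 + 2205093051 / 10000000000000 * s ^ 7 +
      495020889 / 40000000000000 * s ^ 8 =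
      (1 + (513 / 10000 * u ^ 2) +
      (513 / 10000 * u ^ 2) ^ 2 / 2 +
      (513 / 10000 * u ^ 2) ^ 3 / 6) *
      (1 + u + 11 / 20 * u ^ 2) -
      194774 / 100000 * (1 + (u - 2 / 3) / 4) ^ 4 := by
    rw [hs]
    ring
  rw [e] at h
  linarith

/-- `K = 4`: `(c, μ) = (11 / 20, 513 / 10000)`, gain at most `2 / 3` -/
theorem expF_four_l : ExpF 4 (11 / 20) (513 / 10000) (2 / 3) := by
  have hE : Real.exp (2 / 3) ≤ 194774 / 100000 := exp_two_thirds
  refine ExpF.of2 (by norm_num) (by norm_num) (by norm_num) (by norm_num)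
    (exp_le_mu (by norm_num) (by norm_num) (by norm_num) (by norm_num) (by norm_num)) ?_
  intro u h1
  have h4 : 0 ≤ (1 + (u - 2 / 3) / 4) ^ 4 := by
    have : 0 ≤ (u - 2 / 3) / 4 := div_nonneg (by linarith) (by norm_num)
    positivity
  have hu : 0 ≤ u := by linarith
  have hx : 0 ≤ 513 / 10000 * u ^ 2 := by positivity
  have hq : 0 ≤ 1 + u + 11 / 20 * u ^ 2 := by positivity
  have h5 := mul_le_mul_of_nonneg_right (taylor3_le_exp _ hx) hq
  push_cast
  refine ((mul_le_mul_of_nonneg_right hE h4).trans ?_).trans h5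
  rcases le_total u (1) with h2 | h2
  · exact evf_four_l_0 u (by linarith) h2
  rcases le_total u (4 / 3) with h2 | h2
  · exact evf_four_l_1 u (by linarith) h2
  rcases le_total u (2) with h2 | h2
  · exact evf_four_l_2 u (by linarith) h2
  exact evf_four_l_t u (by linarith)

theorem evf_four_m_0 (u : ℝ) (h1 : 1 / 3 ≤ u) (h2 : u ≤ 5 / 3) :
    139562 / 100000 * (1 + (u - 1 / 3) / 4) ^ 4 ≤
      (1 + (417 / 20000 * u ^ 2) +
      (417 / 20000 * u ^ 2) ^ 2 / 2 +
      (417 / 20000 * u ^ 2) ^ 3 / 6) *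
      (1 + u + 11 / 20 * u ^ 2) := by
  obtain ⟨s, hs⟩ : ∃ s, s = u - 1 / 3 := ⟨_, rfl⟩
  obtain ⟨t, ht⟩ : ∃ t, t = 5 / 3 - u := ⟨_, rfl⟩
  have hs0 : 0 ≤ s := by linarith
  have ht0 : 0 ≤ t := by linarith
  have h : 0 ≤
      4322181571833321 / 20971520000000000000 * t ^ 8 +
      419630694825339 / 524288000000000000 * s * t ^ 7 +
      14051148084505719 / 1048576000000000000 * s ^ 2 * t ^ 6 +
      6622734898030797 / 104857600000000000 * s ^ 3 * t ^ 5 +
      2189953452167379 / 16777216000000000 * s ^ 4 * t ^ 4 +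
      23867420084721 / 167772160000000 * s ^ 5 * t ^ 3 +
      5723922748743 / 67108864000000 * s ^ 6 * t ^ 2 +
      4459830293907 / 167772160000000 * s ^ 7 * t + 905511830301 / 268435456000000 * s ^ 8 := by
    positivity
  have e :
      4322181571833321 / 20971520000000000000 * t ^ 8 +
      419630694825339 / 524288000000000000 * s * t ^ 7 +
      14051148084505719 / 1048576000000000000 * s ^ 2 * t ^ 6 +
      6622734898030797 / 104857600000000000 * s ^ 3 * t ^ 5 +
      2189953452167379 / 16777216000000000 * s ^ 4 * t ^ 4 +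
      23867420084721 / 167772160000000 * s ^ 5 * t ^ 3 +
      5723922748743 / 67108864000000 * s ^ 6 * t ^ 2 +
      4459830293907 / 167772160000000 * s ^ 7 * t + 905511830301 / 268435456000000 * s ^ 8 =
      (1 + (417 / 20000 * u ^ 2) +
      (417 / 20000 * u ^ 2) ^ 2 / 2 +
      (417 / 20000 * u ^ 2) ^ 3 / 6) *
      (1 + u + 11 / 20 * u ^ 2) -
      139562 / 100000 * (1 + (u - 1 / 3) / 4) ^ 4 := by
    rw [hs, ht]
    ring
  rw [e] at h
  linarith

theorem evf_four_m_1 (u : ℝ) (h1 : 5 / 3 ≤ u) (h2 : u ≤ 3) :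
    139562 / 100000 * (1 + (u - 1 / 3) / 4) ^ 4 ≤
      (1 + (417 / 20000 * u ^ 2) +
      (417 / 20000 * u ^ 2) ^ 2 / 2 +
      (417 / 20000 * u ^ 2) ^ 3 / 6) *
      (1 + u + 11 / 20 * u ^ 2) := by
  obtain ⟨s, hs⟩ : ∃ s, s = u - 5 / 3 := ⟨_, rfl⟩
  obtain ⟨t, ht⟩ : ∃ t, t = 3 - u := ⟨_, rfl⟩
  have hs0 : 0 ≤ s := by linarith
  have ht0 : 0 ≤ t := by linarith
  have h : 0 ≤
      905511830301 / 268435456000000 * t ^ 8 + 4595288009103 / 167772160000000 * s * t ^ 7 +
      30516021756459 / 335544320000000 * s ^ 2 * t ^ 6 +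
      26767830173661 / 167772160000000 * s ^ 3 * t ^ 5 +
      2691954490265379 / 16777216000000000 * s ^ 4 * t ^ 4 +
      10087801121313153 / 104857600000000000 * s ^ 5 * t ^ 3 +
      39913075577076399 / 1048576000000000000 * s ^ 6 * t ^ 2 +
      6562374826167279 / 524288000000000000 * s ^ 7 * t +
      59263318728568521 / 20971520000000000000 * s ^ 8 := by
    positivity
  have e :
      905511830301 / 268435456000000 * t ^ 8 + 4595288009103 / 167772160000000 * s * t ^ 7 +
      30516021756459 / 335544320000000 * s ^ 2 * t ^ 6 +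
      26767830173661 / 167772160000000 * s ^ 3 * t ^ 5 +
      2691954490265379 / 16777216000000000 * s ^ 4 * t ^ 4 +
      10087801121313153 / 104857600000000000 * s ^ 5 * t ^ 3 +
      39913075577076399 / 1048576000000000000 * s ^ 6 * t ^ 2 +
      6562374826167279 / 524288000000000000 * s ^ 7 * t +
      59263318728568521 / 20971520000000000000 * s ^ 8 =
      (1 + (417 / 20000 * u ^ 2) +
      (417 / 20000 * u ^ 2) ^ 2 / 2 +
      (417 / 20000 * u ^ 2) ^ 3 / 6) *
      (1 + u + 11 / 20 * u ^ 2) -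
      139562 / 100000 * (1 + (u - 1 / 3) / 4) ^ 4 := by
    rw [hs, ht]
    ring
  rw [e] at h
  linarith

theorem evf_four_m_t (u : ℝ) (h1 : 3 ≤ u) :
    139562 / 100000 * (1 + (u - 1 / 3) / 4) ^ 4 ≤
      (1 + (417 / 20000 * u ^ 2) +
      (417 / 20000 * u ^ 2) ^ 2 / 2 +
      (417 / 20000 * u ^ 2) ^ 3 / 6) *
      (1 + u + 11 / 20 * u ^ 2) := by
  obtain ⟨s, hs⟩ : ∃ s, s = u - 3 := ⟨_, rfl⟩
  have hs0 : 0 ≤ s := by linarith
  have h : 0 ≤
      731645910229241 / 25920000000000000 + 163280522208223 / 2160000000000000 * s +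
      39877153074499 / 240000000000000 * s ^ 2 + 27891581780761 / 240000000000000 * s ^ 3 +
      1023207074687 / 32000000000000 * s ^ 4 + 315056785203 / 80000000000000 * s ^ 5 +
      28972863513 / 80000000000000 * s ^ 6 + 1716110541 / 80000000000000 * s ^ 7 +
      265876281 / 320000000000000 * s ^ 8 := by
    positivity
  have e :
      731645910229241 / 25920000000000000 + 163280522208223 / 2160000000000000 * s +
      39877153074499 / 240000000000000 * s ^ 2 + 27891581780761 / 240000000000000 * s ^ 3 +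
      1023207074687 / 32000000000000 * s ^ 4 + 315056785203 / 80000000000000 * s ^ 5 +
      28972863513 / 80000000000000 * s ^ 6 + 1716110541 / 80000000000000 * s ^ 7 +
      265876281 / 320000000000000 * s ^ 8 =
      (1 + (417 / 20000 * u ^ 2) +
      (417 / 20000 * u ^ 2) ^ 2 / 2 +
      (417 / 20000 * u ^ 2) ^ 3 / 6) *
      (1 + u + 11 / 20 * u ^ 2) -
      139562 / 100000 * (1 + (u - 1 / 3) / 4) ^ 4 := by
    rw [hs]
    ring
  rw [e] at h
  linarith

/-- `K = 4`: `(c, μ) = (11 / 20, 417 / 20000)`, gain at most `1 / 3` -/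
theorem expF_four_m : ExpF 4 (11 / 20) (417 / 20000) (1 / 3) := by
  have hE : Real.exp (1 / 3) ≤ 139562 / 100000 := exp_third
  refine ExpF.of2 (by norm_num) (by norm_num) (by norm_num) (by norm_num)
    (exp_le_mu (by norm_num) (by norm_num) (by norm_num) (by norm_num) (by norm_num)) ?_
  intro u h1
  have h4 : 0 ≤ (1 + (u - 1 / 3) / 4) ^ 4 := by
    have : 0 ≤ (u - 1 / 3) / 4 := div_nonneg (by linarith) (by norm_num)
    positivity
  have hu : 0 ≤ u := by linarith
  have hx : 0 ≤ 417 / 20000 * u ^ 2 := by positivity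
  have hq : 0 ≤ 1 + u + 11 / 20 * u ^ 2 := by positivity
  have h5 := mul_le_mul_of_nonneg_right (taylor3_le_exp _ hx) hq
  push_cast
  refine ((mul_le_mul_of_nonneg_right hE h4).trans ?_).trans h5
  rcases le_total u (5 / 3) with h2 | h2
  · exact evf_four_m_0 u (by linarith) h2
  rcases le_total u (3) with h2 | h2
  · exact evf_four_m_1 u (by linarith) h2
  exact evf_four_m_t u (by linarith)

end

end Pool.Agent.TSM
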