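import Pool.Agent.TSM.FamL3

set_option autoImplicit false

/-!
# The step with an odd number of children, a nontrivial child is split off: lines with a mixed bound
(MP_d27362_co)
-/

namespace Pool.Agent.TSM

open Finset Polynomial
open Pool.Agent.TSP
open Pool.Agent.TSO
open Pool.Agent.TSR (OBr Ker)
open Pool.Agent.TLT (sg)
open Pool.Agent.TDN (dn dn_nonneg)

noncomputable section

variable {K : ℕ} {O : Fin K → OBr} {N : Finset (Fin K)}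
  {Y : Sys} {Adm : ℕ → ℝ → ℝ → ℝ → ℝ → Prop} {V P : ℝ → ℝ → Sn → ℝ} {χ : ℝ → ℝ}
  {σ e ρ : Fin K → Bool} {tc : Fin K → ℕ} {L : Fin K} {m f f2 n nL nR vm fv v2m kL kR D : ℝ}

/-- another bound of the value of `G` -/
lemma FamL.setVm (h : FamL O N σ e ρ L m f f2 n nL nR vm fv v2m kL kR) {vm' : ℝ}
    (hv : (gU e O).eval q0 ^ 2 ≤ vm') : FamL O N σ e ρ L m f f2 n nL nR vm' fv v2m kL kR :=
  ⟨⟨h.hW.hO, h.hW.hm, h.hW.hU0, h.hW.hU2, h.hW.hU3, h.hW.hUa, h.hW.hY, hv, h.hW.hG3, h.hW.hGa⟩,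
    h.hL, h.hσL, h.hσ, h.hv2, h.hv3, h.hd2, h.hlab, h.hn⟩

/-- **the inequality of an odd number of children from the lines of the children**, the nontrivial
child `L` is split off; the new state may be enlarged and the bound of the value of `G` may be
mixed at every point -/
theorem lfE_linesM (hS : FamL O N σ e ρ L m f f2 n nL nR vm fv v2m kL kR) {ty : ℕ}
    (NV : ℝ → NS) (hV : ∀ a, Reg D a → ∀ u y vU vY aU aY,
      V D a ⟨ty, u, y, vU, vY, aU, aY⟩ = (NV a).ev ⟨ty, u, y, vU, vY, aU, aY⟩)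
    (NP : ℝ → Q5) (hP : ∀ a, Reg D a → ∀ u y vU vY aU aY,
      P D a ⟨ty, u, y, vU, vY, aU, aY⟩ = (NP a).ev ⟨ty, u, y, vU, vY, aU, aY⟩)
    (C : LK2) {k : ℕ} (hC : C.Ok (χ D) D k)
    {F F' : ℝ → ℝ → ℝ → Prop} (hF : Caps F C.r) (hF' : Caps F' C.rR)
    (pay : Fin K → ℝ) (hpay : ∀ i ∈ N, 0 ≤ pay i)
    (H : ∀ a, Reg D a → a < q0 → 0 < D → ∀ (i4 : Fin 4) (γ0 γ1 γ2 δ0 δ1 δ2 ε hG hS' : ℝ),
      F γ0 γ1 γ2 → F' δ0 δ1 δ2 → (ε = 0 ∨ ε = 1) →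
      ((hG = C.η ∧ hS' = 0) ∨ (hG = 1 + C.sR ∧ hS' = C.sR)) →
      ∃ (p : NS) (vm' κ : ℝ) (c : CT) (d : LD) (kU x1 v1 a1 k1 k2 : ℝ) (sh : Fin K → ℝ),
      ((NV a).lfL (NP a) (C.lnL (χ D) i4).z).ev ((chd ty (fam σ e O)).sn a) ≤
        p.ev ((chd ty (fam σ e O)).sn a) ∧ (gU e O).eval q0 ^ 2 ≤ vm' ∧
      d = (C.lnL (χ D) i4).ld C.MU C.MY γ1 γ2 δ1 δ2 ε hG k1 k2 ∧ 0 ≤ d.al ∧ 0 < k1 ∧ 0 < k2 ∧
      0 ≤ d.BG a ∧ Wt (d.BU a) 0 0 (m - 1) f2 (th a) v2m 1 kU x1 v1 a1 ∧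
      Spl p a m f n vm' fv κ c ∧
      (∀ i ∈ N, i ≠ L → sh i + pay i * (1 - D / (q0 - a)) +
        (d.cR c m nL nR kR x1 v1 a1 a).ev (sg (σ i)) (sg (e i)) (sg (ρ i))
          ((chd (tc i) (O i)).sn a) ≤
          V D a ((chd (tc i) (O i)).sn a) - hS' * P D a ((chd (tc i) (O i)).sn a)) ∧
      sh L + pay L * (1 - D / (q0 - a)) +
        (d.cL c nL nR kL a).ev 1 (sg (e L)) 1 ((chd (tc L) (O L)).sn a) ≤
          V D a ((chd (tc L) (O L)).sn a) -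
            (C.lnL (χ D) i4).zL * P D a ((chd (tc L) (O L)).sn a) ∧
      d.k0 κ kU nL nR a - (C.lnL (χ D) i4).ag * γ0 - hG * δ0 - (C.lnL (χ D) i4).KE * ε ≤
        ∑ i ∈ N, sh i) :
    LfE2 χ D k (fun a => sg (e L) * (XX (O L)).eval a)
        (fun a => (YY (O L)).eval a) (fun a => (gY2 σ O L).eval a)
        (fun a => ∑ i ∈ univ.erase L, sg (e i) * (XX (O i)).eval a)
        (Vi V N tc O L D) (Vi P N tc O L D)
        (fun a => ∑ i ∈ univ.erase L, Vi V N tc O i D a)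
        (fun a => ∑ i ∈ univ.erase L, Vi P N tc O i D a)
        (fun a => V D a ((chd ty (fam σ e O)).sn a))
        (fun a => P D a ((chd ty (fam σ e O)).sn a)) := by
  have hs : 0 ≤ ∑ i ∈ N, pay i := sum_nonneg hpay
  have hLN := hS.hL
  have eV : ∀ a, Reg D a → V D a ((chd ty (fam σ e O)).sn a) =
      (NV a).ev ((chd ty (fam σ e O)).sn a) := fun a ha => hV a ha _ _ _ _ _ _
  have eP : ∀ a, Reg D a → P D a ((chd ty (fam σ e O)).sn a) =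
      (NP a).ev ((chd ty (fam σ e O)).sn a) := fun a ha => hP a ha _ _ _ _ _ _
  refine lfE_of3 C hC hF hF' hs fun a ha hq hD γ0 γ1 γ2 δ0 δ1 δ2 ε hG hS' h1 h2 h3 h4 => ?_
  refine LK.Ln_of fun i4 => ?_
  obtain ⟨p, vm', κ, c, d, kU, x1, v1, a1, k1, k2, sh, hp, hvm, hd, g1, g2, g3, g4, g5, g6, g7,
    g8, g9⟩ :=
    H a ha hq hD i4 γ0 γ1 γ2 δ0 δ1 δ2 ε hG hS' h1 h2 h3 h4
  have hk1 : d.k1 = k1 := by rw [hd]; rfl
  have hk2 : d.k2 = k2 := by rw [hd]; rfl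
  have t0 := (hS.setVm hvm).total ha.2.2.1 hq.le g6 d g1 (by rw [hk1]; exact g2) (by rw [hk2]; exact g3) g4 g5
    ty tc (xL := fun a => sg (e L) * (XX (O L)).eval a) (yL := fun a => (YY (O L)).eval a)
    (U2 := fun a => (gY2 σ O L).eval a)
    (y2 := fun a => ∑ i ∈ univ.erase L, sg (e i) * (XX (O i)).eval a) rfl rfl rfl rfl
  rw [NS.lfL_ev, ← eV a ha, ← eP a ha] at hp
  -- the sums over the children
  have hsub : N.erase L ⊆ univ.erase L := erase_subset_erase L (subset_univ N)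
  have hz : ∀ i ∈ univ.erase L, i ∉ N.erase L → i ∉ N := by
    intro i hi hi2 hi3
    exact hi2 (mem_erase.mpr ⟨(mem_erase.mp hi).1, hi3⟩)
  have e2 : ∑ i ∈ univ.erase L, (d.cR c m nL nR kR x1 v1 a1 a).ev (sg (σ i)) (sg (e i)) (sg (ρ i))
      ((chd (tc i) (O i)).sn a) = ∑ i ∈ N.erase L,
      (d.cR c m nL nR kR x1 v1 a1 a).ev (sg (σ i)) (sg (e i)) (sg (ρ i))
      ((chd (tc i) (O i)).sn a) := by
    rw [← sum_subset hsub]
    intro i hi hi2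
    exact hS.hW.hO.ct0 (hz i hi hi2) _ _ _ _ _ _
  have e3 : (∑ i ∈ univ.erase L, Vi V N tc O i D a) - hS' * ∑ i ∈ univ.erase L, Vi P N tc O i D a =
      ∑ i ∈ N.erase L, (V D a ((chd (tc i) (O i)).sn a) -
        hS' * P D a ((chd (tc i) (O i)).sn a)) := by
    rw [mul_sum, ← sum_sub_distrib, ← sum_subset hsub]
    · refine sum_congr rfl fun i hi => ?_
      rw [Vi_mem V tc O (mem_of_mem_erase hi), Vi_mem P tc O (mem_of_mem_erase hi)]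
    · intro i hi hi2
      rw [Vi_not V tc O (hz i hi hi2), Vi_not P tc O (hz i hi hi2)]
      ring
  have e4 := sum_le_sum fun i (hi : i ∈ N.erase L) => g7 i (mem_of_mem_erase hi)
    (ne_of_mem_erase hi)
  rw [sum_add_distrib, sum_add_distrib, ← sum_mul] at e4
  rw [← add_sum_erase N _ hLN] at g9
  have e5 : ∑ i ∈ N, pay i = pay L + ∑ i ∈ N.erase L, pay i := (add_sum_erase N _ hLN).symm
  have e6 : Vi V N tc O L D a = V D a ((chd (tc L) (O L)).sn a) := Vi_mem V tc O hLN D a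
  have e7 : Vi P N tc O L D a = P D a ((chd (tc L) (O L)).sn a) := Vi_mem P tc O hLN D a
  rw [e2] at t0
  have l1 : d.al = (C.lnL (χ D) i4).al := by rw [hd]; rfl
  have l2 : d.la = (C.lnL (χ D) i4).la + (C.lnL (χ D) i4).KE * ε := by rw [hd]; rfl
  have l3 : d.b = (C.lnL (χ D) i4).b := by rw [hd]; rfl
  have l4 : d.MU = C.MU := by rw [hd]; rfl
  have l5 : d.MY = C.MY := by rw [hd]; rfl
  have l6 : d.r1 = hG * δ1 := by rw [hd]; rfl
  have l7 : d.r2 = hG * δ2 := by rw [hd]; rfl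
  have l8 : d.g1 = (C.lnL (χ D) i4).ag * γ1 := by rw [hd]; rfl
  have l9 : d.g2 = (C.lnL (χ D) i4).ag * γ2 := by rw [hd]; rfl
  rw [l1, l3, l4, l5, l6, l7, l8, l9, l2] at t0
  rw [e5, e6, e7]
  linarith

end

end Pool.Agent.TSM
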