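import Pool.Agent.TSM.OddF

set_option autoImplicit false

/-!
# An odd number of children, Rule E with the pending cost in the excess (MP_d27362_co)
-/

namespace Pool.Agent.TSM

open Finset Polynomial
open Pool.Agent.TSP
open Pool.Agent.TSO
open Pool.Agent.TSR (OBr Ker sg_true sg_false vS_nonneg)
open Pool.Agent.TLT (sg)

noncomputable section

/-- the constants of Rule E for an odd number of children -/
structure ExpOE (cq μ : ℝ) : Prop where
  cq0 : 0 ≤ cq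
  mu0 : 0 ≤ μ
  quad : ∀ u : ℝ, 0 ≤ 1 + u + cq * u ^ 2
  hexp : ∀ u w : ℝ, 1 ≤ w → u ≤ w →
    Real.exp u ≤ Real.exp (μ * (w ^ 2 - 1)) * (1 + u + cq * u ^ 2)

/-- Rule E: `(c, μ) = (18/25, 43/500)` -/
theorem expOE_a : ExpOE (18 / 25) (43 / 500) :=
  ⟨by norm_num, by norm_num, fun u => by nlinarith [sq_nonneg (u + 25 / 36)], exp_odd_E⟩

/-- odd number of children, Rule E: `U`, `y` the new state, `V` the sum of the values.
Lines 1, 2 are used if `∫ y ≥ 0` (multipliers `k1`, `k2`), lines 3, 4 if `∫ y ≤ 0` -/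
def OdE (χ : ℝ → ℝ) (D : ℝ) (U y V V' c' : ℝ → ℝ) : Prop :=
  ∃ cq μ l k1 k2 k3 k4 : ℝ, ExpOE cq μ ∧ 0 < l ∧
    2 * μ ≤ k1 ∧ 2 * μ ≤ k2 ∧ 1 ≤ k3 ∧ 1 ≤ k4 ∧
    ILe D V' (fun a => V a + y a - k1 * y a - μ * ((1 + l) * (y a ^ 2 + a * U a ^ 2) +
      (1 + 1 / l) * D * y a ^ 2) - 2 * cq * ((1 - a * U a) ^ 2 + a * y a ^ 2)) ∧
    ILe D V' (fun a => V a + y a - k2 * y a - μ * ((1 + l) * (y a ^ 2 + a * U a ^ 2) +
      (1 + 1 / l) * D * y a ^ 2) - 2 * cq * ((1 - a * U a) ^ 2 + a * y a ^ 2) -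
      χ D * (2 * cq * ((1 - a * U a) ^ 2 + a * y a ^ 2) - c' a)) ∧
    ILe D V' (fun a => V a + k3 * y a - μ * (y a ^ 2 + a * U a ^ 2) -
      2 * cq * ((1 - a * U a) ^ 2 + a * y a ^ 2)) ∧
    ILe D V' (fun a => V a + k4 * y a - μ * (y a ^ 2 + a * U a ^ 2) -
      2 * cq * ((1 - a * U a) ^ 2 + a * y a ^ 2) -
      χ D * (2 * cq * ((1 - a * U a) ^ 2 + a * y a ^ 2) - c' a))

/-- **an odd number of children** (`Σ σ = 1`), Rule E -/
theorem GoodE.odE {χ : ℝ → ℝ} (hχ : ∀ D, RD D → 0 ≤ χ D) {K : ℕ}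
    (O : Fin K → OBr) (σ e : Fin K → Bool) (V c : Fin K → ℝ → ℝ → ℝ)
    (h : ∀ i, GoodE χ (O i) (V i) (c i)) (hτ : ∑ i, sg (σ i) = 1) {V' c' : ℝ → ℝ → ℝ}
    (U y : ℝ → ℝ) (hU : ∀ a, ∑ i, sg (σ i) * (YY (O i)).eval a = U a)
    (hy : ∀ a, ∑ i, sg (e i) * (XX (O i)).eval a = y a)
    (H : ∀ D, RD D → OdE χ D U y (fun a => ∑ i, V i D a) (V' D) (c' D)) :
    GoodE χ (fam σ e O) V' c' := by
  intro m S hS w t hR
  have hRD : RD (dee S) := ⟨hR.dee_nonneg, hR.dee_le⟩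
  obtain ⟨cq, μ, l, k1, k2, k3, k4, hF, hl, hk1, hk2, hk3, hk4, hp1, hp2, hn1, hn2⟩ := H _ hRD
  have hM : ∀ i ∈ (Finset.univ : Finset (Fin K)), MMajE S (ms S (cn (σ i) (e i) (O i)))
      (sg (σ i) • (1 - X * YY (O i))) (sg (e i) • XX (O i))
      (nu w t fun a => sg (e i) * (XX (O i)).eval a) (χ (dee S)) (nu w t (V i (dee S)))
      (nu w t (c i (dee S))) := fun i _ => (h i).msg (σ i) (e i) hS hR
  rw [fam_vS, fam_XX, fam_YY]
  set U' := ∑ i, sg (σ i) • YY (O i) with hU'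
  set y' := ∑ i, sg (e i) • XX (O i) with hy'
  have hx' : ∑ i, sg (σ i) • (1 - X * YY (O i)) = C 1 - X * U' := by
    have h1 : ∀ i : Fin K, sg (σ i) • (1 - X * YY (O i)) =
        C (sg (σ i)) - X * (sg (σ i) • YY (O i)) := by
      intro i
      rw [smul_sub, smul_eq_C_mul, mul_one, mul_smul_comm]
    rw [Finset.sum_congr rfl fun i _ => h1 i, Finset.sum_sub_distrib, ← Finset.mul_sum,
      ← map_sum, hτ]
  have hUe : ∀ a, U'.eval a = U a := by
    intro a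
    rw [hU', eval_finsetSum, ← hU a]
    exact Finset.sum_congr rfl fun i _ => by rw [eval_smul, smul_eq_mul]
  have hye : ∀ a, y'.eval a = y a := by
    intro a
    rw [hy', eval_finsetSum, ← hy a]
    exact Finset.sum_congr rfl fun i _ => by rw [eval_smul, smul_eq_mul]
  have hen : en S (∑ i, sg (σ i) • (1 - X * YY (O i))) y' =
      nu w t fun a => (1 - a * U a) ^ 2 + a * y a ^ 2 := by
    rw [hx', hR.en_nu]
    congr 1
    funext a
    simp only [eval_sub, eval_C, eval_mul, eval_X, hUe, hye]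
  have hen2 : en2 S U' y' = nu w t fun a => y a ^ 2 + a * U a ^ 2 := by
    unfold en2
    rw [hR.mo_nu]
    congr 1
    funext a
    simp only [eval_add, eval_mul, eval_X, hUe, hye]
    ring
  have hmoy : mo S y' = nu w t y := by
    rw [hR.mo_nu]
    congr 1
    funext a
    exact hye a
  have hmy2 : mo S (y' * y') = nu w t fun a => y a ^ 2 := by
    rw [hR.mo_nu]
    congr 1
    funext a
    simp only [eval_mul, hye]
    ring
  have hsumG : ∑ i, (nu w t fun a => sg (e i) * (XX (O i)).eval a) = nu w t y := by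
    rw [← nu_finset_sum]
    congr 1
    funext a
    exact hy a
  have hk0 := en2_nonneg (S := S) hS.anti U' y'
  have hb2 := mo_sq_le hS y'
  have hw1 : 1 ≤ Real.sqrt (1 + en2 S U' y') := by
    rw [Real.one_le_sqrt]
    linarith
  have hsup : ∀ z, st S (∑ i, sg (σ i) • (1 - X * YY (O i))) (∑ i, sg (e i) • XX (O i)) z ≤
      Real.sqrt (1 + en2 S U' y') + mo S y' := by
    intro z
    rw [hx', ← hy']
    have h1 := st_sup hS 1 U' y' z
    rwa [show (1 : ℝ) ^ 2 + en2 S U' y' = 1 + en2 S U' y' by ring] at h1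
  have hhE : ∀ w1 mm : ℝ, 1 ≤ w1 → μ * (w1 ^ 2 - 1) ≤ mm → (∀ z, st S (∑ i, sg (σ i) •
      (1 - X * YY (O i))) (∑ i, sg (e i) • XX (O i)) z ≤ w1) → ∀ z,
      Real.exp (st S (∑ i, sg (σ i) • (1 - X * YY (O i))) (∑ i, sg (e i) • XX (O i)) z) ≤
      Real.exp mm * (1 + st S (∑ i, sg (σ i) • (1 - X * YY (O i)))
        (∑ i, sg (e i) • XX (O i)) z + cq * st S (∑ i, sg (σ i) • (1 - X * YY (O i)))
        (∑ i, sg (e i) • XX (O i)) z ^ 2) := by
    intro w1 mm h1 h2 h3 z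
    refine (hF.hexp _ w1 h1 (h3 z)).trans ?_
    exact mul_le_mul_of_nonneg_right (Real.exp_le_exp.2 h2) (hF.quad _)
  -- the integrated lines
  have eT : ∀ k : ℝ, ∀ f : ℝ → ℝ, (nu w t fun a => (∑ i, V i (dee S) a) + f a - k * y a -
      μ * ((1 + l) * (y a ^ 2 + a * U a ^ 2) + (1 + 1 / l) * dee S * y a ^ 2) -
      2 * cq * ((1 - a * U a) ^ 2 + a * y a ^ 2)) =
      ∑ i, nu w t (V i (dee S)) + nu w t f - k * mo S y' -
      μ * ((1 + l) * en2 S U' y' + (1 + 1 / l) * dee S * mo S (y' * y')) -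
      2 * cq * en S (∑ i, sg (σ i) • (1 - X * YY (O i))) y' := by
    intro k f
    rw [nu_sub, nu_sub, nu_sub, nu_add, nu_finset_sum, nu_mul, nu_mul, nu_mul, nu_add, nu_mul,
      nu_mul, ← hen, ← hen2, ← hmy2, ← hmoy]
  have eN : ∀ k : ℝ, (nu w t fun a => (∑ i, V i (dee S) a) + k * y a -
      μ * (y a ^ 2 + a * U a ^ 2) - 2 * cq * ((1 - a * U a) ^ 2 + a * y a ^ 2)) =
      ∑ i, nu w t (V i (dee S)) + k * mo S y' - μ * en2 S U' y' -
      2 * cq * en S (∑ i, sg (σ i) • (1 - X * YY (O i))) y' := by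
    intro k
    rw [nu_sub, nu_sub, nu_add, nu_finset_sum, nu_mul, nu_mul, nu_mul, ← hen, ← hen2, ← hmoy]
  have eX : (nu w t fun a => 2 * cq * ((1 - a * U a) ^ 2 + a * y a ^ 2) - c' (dee S) a) =
      2 * cq * en S (∑ i, sg (σ i) • (1 - X * YY (O i))) y' - nu w t (c' (dee S)) := by
    rw [nu_sub, nu_mul, ← hen]
  have hp1' := hp1 m S hS w t hR rfl
  rw [eT] at hp1'
  have hp2' := hp2 m S hS w t hR rfl
  rw [nu_sub, nu_mul, eT, eX] at hp2'
  have hn1' := hn1 m S hS w t hR rfl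
  rw [eN] at hn1'
  have hn2' := hn2 m S hS w t hR rfl
  rw [nu_sub, nu_mul, eN, eX] at hn2'
  rcases le_total 0 (mo S y') with hb | hb
  · have hso := sup_odd2 hk0 hb hb2 hl
    have hw2 : 1 ≤ Real.sqrt (1 + en2 S U' y') + mo S y' := by linarith
    have hmm : μ * ((Real.sqrt (1 + en2 S U' y') + mo S y') ^ 2 - 1) ≤
        μ * (2 * mo S y' + (1 + l) * en2 S U' y' + (1 + 1 / l) * (dee S * mo S (y' * y'))) :=
      mul_le_mul_of_nonneg_left hso hF.mu0
    have h6 := mul_le_mul_of_nonneg_right hk1 hb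
    have h7 := mul_le_mul_of_nonneg_right hk2 hb
    refine (MMajE.manyE hS Finset.univ _ _ _ _ _ _ (hχ _ hRD) hM cq _
      hF.cq0 (hhE _ _ hw2 hmm hsup) le_rfl le_rfl).excess ?_ ?_
    · rw [← hy', hsumG, ← hmoy]
      rw [← hmoy] at hp1'
      linarith
    · rw [← hy', hsumG, ← hmoy]
      rw [← hmoy] at hp2'
      linarith
  · have hsup' : ∀ z, st S (∑ i, sg (σ i) • (1 - X * YY (O i))) (∑ i, sg (e i) • XX (O i)) z ≤
        Real.sqrt (1 + en2 S U' y') := fun z => (hsup z).trans (by linarith)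
    have hmm : μ * (Real.sqrt (1 + en2 S U' y') ^ 2 - 1) ≤ μ * en2 S U' y' := by
      rw [Real.sq_sqrt (by linarith)]
      apply le_of_eq
      ring
    have h6 := mul_nonneg (sub_nonneg.2 hk3) (neg_nonneg.2 hb)
    have h7 := mul_nonneg (sub_nonneg.2 hk4) (neg_nonneg.2 hb)
    refine (MMajE.manyE hS Finset.univ _ _ _ _ _ _ (hχ _ hRD) hM cq _
      hF.cq0 (hhE _ _ hw1 hmm hsup') le_rfl le_rfl).excess ?_ ?_
    · rw [← hy', hsumG, ← hmoy]
      linarith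
    · rw [← hy', hsumG, ← hmoy]
      linarith

end

end Pool.Agent.TSM
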