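import Pool.Agent.TSM.RoleOdd
import Pool.Agent.TSM.OddE

set_option autoImplicit false

/-!
# The step with an odd number of children, symmetric rule (MP_d27362_co)
-/

namespace Pool.Agent.TSM

open Finset Polynomial
open Pool.Agent.TSP
open Pool.Agent.TSO
open Pool.Agent.TSR (OBr Ker)
open Pool.Agent.TLT (sg)
open Pool.Agent.TDN (dn dn_nonneg)

noncomputable section

variable {K : ℕ} {O : Fin K → OBr} {N : Finset (Fin K)}
  {Y : Sys} {Adm : ℕ → ℝ → ℝ → ℝ → ℝ → Prop} {V P : ℝ → ℝ → Sn → ℝ} {χ : ℝ → ℝ}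

/-- Rule E is a finite rule -/
lemma ExpOE.toF {cq μ : ℝ} (h : ExpOE cq μ) {K : ℕ} (hK : 0 < K) {P : ℝ} (hP : 0 ≤ P) :
    ExpO K cq μ P where
  cq0 := h.cq0
  mu0 := h.mu0
  P0 := hP
  quad := by
    intro u
    have h1 := h.hexp u (max u 1) (le_max_right _ _) (le_max_left _ _)
    by_contra h2
    push Not at h2
    have h3 := mul_neg_of_pos_of_neg (Real.exp_pos (μ * ((max u 1) ^ 2 - 1))) h2
    have := Real.exp_pos u
    linarith
  hexp := by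
    intro ρ u w _ hw hu h0
    have hK' : (0 : ℝ) < K := by exact_mod_cast hK
    have h1 : (1 + (u - ρ) / K) ^ K ≤ Real.exp (u - ρ) := by
      have h2 : 1 + (u - ρ) / K ≤ Real.exp ((u - ρ) / K) := by
        have := Real.add_one_le_exp ((u - ρ) / K)
        linarith
      refine (pow_le_pow_left₀ h0 h2 K).trans (le_of_eq ?_)
      rw [← Real.exp_nat_mul]
      congr 1
      field_simp
    have h3 : Real.exp (u - ρ) = Real.exp (-ρ) * Real.exp u := by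
      rw [← Real.exp_add]
      congr 1
      ring
    rw [h3] at h1
    exact h1.trans (mul_le_mul_of_nonneg_left (h.hexp u w hw hu) (Real.exp_nonneg _))

lemma OdE.toF {D : ℝ} {U y V V' c' : ℝ → ℝ} (h : OdE χ D U y V V' c') {K : ℕ} (hK : 0 < K)
    (hD : 0 ≤ D) (hb : ∃ B, ∀ a, Reg D a → y a ≤ B) : OdF χ D K U y V V' c' := by
  obtain ⟨cq, μ, l, k1, k2, k3, k4, hE, hl, h1, h2, h3, h4, g1, g2, g3, g4⟩ := h
  obtain ⟨B, hB⟩ := hb
  have hB' : ∀ a, Reg D a → y a ≤ max B 0 := fun a ha => (hB a ha).trans (le_max_left _ _)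
  exact ⟨cq, μ, max B 0 * D, l, max B 0, k1, k2, k3, k4, y,
    hE.toF hK (mul_nonneg (le_max_right _ _) hD), hl, le_rfl, h1, h2, h3, h4,
    ILe.pt fun a _ => le_rfl, ILe.pt fun a ha => hB' a ha, g1, g2, g3, g4⟩

/-- **the step with an odd number of children, symmetric rule** -/
theorem odd_step_F (hY : Y.G = GoodE χ) (hχ : ∀ D, RD D → 0 ≤ χ D) (hK : Odd K)
    (hN : ∀ i ∈ N, PO Y Adm V P (O i)) (hM : ∀ i ∉ N, O i = .nil ∨ O i = two)
    (H : ∀ (σ e ρ : Fin K → Bool) (tc : Fin K → ℕ) (n : ℕ) (f : ℝ), FamT Y Adm V P O N tc →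
      n = n1 O % 2 →
      (Even N.card → ∑ i ∈ N, sg (ρ i) = 0) → (Odd N.card → ∑ i ∈ N, sg (ρ i) = 1) →
      (f = 2 ∨ (f = 3 ∧ N = univ)) →
      (∀ m : ℝ, (N.card : ℝ) ≤ m → FamS O N σ e ρ m f n (16 - 12 * n) (4 - 3 * n)) →
      Inv (fam σ e O) →
      ∃ ty : ℕ, ty ≠ 0 ∧ Adm ty (vU (fam σ e O)) (vY (fam σ e O)) (aU (fam σ e O))
        (aY (fam σ e O)) ∧
      ∀ D, RD D → OdF χ D K (fun a => (UU (fam σ e O)).eval a)
        (fun a => (YY (fam σ e O)).eval a) (fun a => ∑ i, Vi V N tc O i D a)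
        (fun a => V D a ((chd ty (fam σ e O)).sn a))
        (fun a => P D a ((chd ty (fam σ e O)).sn a))) :
    ∃ σ e : Fin K → Bool, PO Y Adm V P (fam σ e O) := by
  obtain ⟨tc, hT⟩ := famT_exists hN hM
  obtain ⟨σ, e, ρ, n, f, hn, hσ1, h1, h2, hf, hInv, h3⟩ := famSO_exists hT.hO hK
  have hτ : tau (fam σ e O) = 1 := by rw [fam_tau]; exact hσ1
  obtain ⟨ty, hty, hAd, h4⟩ := H σ e ρ tc n f hT hn h1 h2 hf h3 hInv
  refine ⟨σ, e, ty, ?_, hInv, hAd, ?_⟩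
  · rw [hτ]
    constructor
    · exact fun h => absurd h hty
    · intro h
      norm_num at h
  · have hG := hT.hG
    rw [hY] at hG ⊢
    refine GoodE.odF hχ hK.pos O σ e _ _ hG hσ1 (fun a => (UU (fam σ e O)).eval a)
      (fun a => (YY (fam σ e O)).eval a) (fun a => (FamS.U_eq O σ e a).symm) (fun a => ?_) h4
    rw [fam_YY, eval_finsetSum]
    exact sum_congr rfl fun i _ => by rw [eval_smul, smul_eq_mul]

/-- the constants of the symmetric rule -/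
structure OC where
  /-- see `ExpO` -/
  cq : ℝ
  /-- see `ExpO` -/
  μ : ℝ
  /-- see `ExpO` -/
  P : ℝ
  /-- the parameter of the sup bound -/
  l : ℝ
  /-- the cap of the gain -/
  r : ℝ
  /-- multiplier, line p1 -/
  k1 : ℝ
  /-- multiplier, line p2 -/
  k2 : ℝ
  /-- multiplier, line n1 -/
  k3 : ℝ
  /-- multiplier, line n2 -/
  k4 : ℝ
  /-- `≥ μ (1 + l)` -/
  MU : ℝ
  /-- `≥ μ (1 + l + (1 + 1/l) D)` -/
  My : ℝ

/-- the conditions on the constants -/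
structure OC.Ok (C : OC) (D : ℝ) : Prop where
  hl : 0 < C.l
  h1 : 2 * C.μ ≤ C.k1
  h2 : 2 * C.μ ≤ C.k2
  h3 : 1 ≤ C.k3
  h4 : 1 ≤ C.k4
  hU : C.μ * (1 + C.l) ≤ C.MU
  hy : C.μ * ((1 + C.l) + (1 + 1 / C.l) * D) ≤ C.My

/-- the coefficients of one line: `MU`, `My`, `Cc` are the factors of `t U'²`, `y'²`,
`(1 - t U')² + t y'²`, `z` the factor of the pending cost, `g0 + g1 y'` the gain -/
structure OL where
  /-- factor of `t U'²` -/
  MU : ℝ
  /-- factor of `y'²` -/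
  My : ℝ
  /-- factor of the second moment -/
  Cc : ℝ
  /-- factor of the pending cost -/
  z : ℝ
  /-- constant part of the gain -/
  g0 : ℝ
  /-- factor of `y'` in the gain -/
  g1 : ℝ

/-- the four lines with the gain `y'` -/
def OC.lnE (C : OC) (χD : ℝ) : Fin 4 → OL
  | 0 => ⟨C.MU, C.My, 2 * C.cq, 0, 0, 1 - C.k1⟩
  | 1 => ⟨C.MU, C.My, (1 + χD) * (2 * C.cq), χD, 0, 1 - C.k2⟩
  | 2 => ⟨C.μ, C.μ, 2 * C.cq, 0, 0, C.k3⟩
  | 3 => ⟨C.μ, C.μ, (1 + χD) * (2 * C.cq), χD, 0, C.k4⟩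

/-- the two lines with the gain `r` -/
def OC.lnR (C : OC) (χD : ℝ) : Fin 2 → OL
  | 0 => ⟨C.MU, C.My, 2 * C.cq, 0, C.r, -C.k1⟩
  | 1 => ⟨C.MU, C.My, (1 + χD) * (2 * C.cq), χD, C.r, -C.k2⟩

/-- the coefficients of the new state for one line -/
def NS.od (p : NS) (q : Q5) (L : OL) (a : ℝ) : NS :=
  p.add (L.Cc - L.g0 - L.z * q.c) (-(2 * L.Cc * a) - L.z * q.al)
    (L.MU * a + L.Cc * a ^ 2 - L.z * q.be) (-L.g1 - L.z * q.ga) (L.My + L.Cc * a - L.z * q.de)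

lemma NS.od_ev (p : NS) (q : Q5) (L : OL) (a : ℝ) (s : Sn) : (p.od q L a).ev s =
    p.ev s - (L.g0 + L.g1 * s.y) + L.MU * (a * s.u ^ 2) + L.My * s.y ^ 2 +
      L.Cc * ((1 - a * s.u) ^ 2 + a * s.y ^ 2) - L.z * q.ev s := by
  unfold NS.od Q5.ev
  rw [NS.add_ev]
  ring

variable {σ e ρ : Fin K → Bool} {tc : Fin K → ℕ} {m f n vm fv fg D : ℝ}

/-- one line from the lines of the children -/
lemma FamS.odl (hS : FamS O N σ e ρ m f n vm fv fg) {ty : ℕ} {a : ℝ} (ha : Reg D a) (hq : a < q0)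
    {NV : NS} (hV : V D a ((chd ty (fam σ e O)).sn a) = NV.ev ((chd ty (fam σ e O)).sn a))
    {NP : Q5} (hP : P D a ((chd ty (fam σ e O)).sn a) = NP.ev ((chd ty (fam σ e O)).sn a))
    (L : OL) (pay : Fin K → ℝ)
    (H : ∃ κ c, ∃ sh : Fin K → ℝ, Spl (NV.od NP L a) a m f n vm fv κ c fg ∧
      (∀ i ∈ N, sh i + pay i * (1 - D / (q0 - a)) +
        c.ev (sg (σ i)) (sg (e i)) (sg (ρ i)) ((chd (tc i) (O i)).sn a) ≤
          V D a ((chd (tc i) (O i)).sn a)) ∧ κ ≤ ∑ i ∈ N, sh i) :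
    V D a ((chd ty (fam σ e O)).sn a) + (∑ i ∈ N, pay i) * (1 - D / (q0 - a)) ≤
      (∑ i, Vi V N tc O i D a) + (L.g0 + L.g1 * (YY (fam σ e O)).eval a) -
        (L.MU * (a * (UU (fam σ e O)).eval a ^ 2) + L.My * (YY (fam σ e O)).eval a ^ 2 +
        L.Cc * ((1 - a * (UU (fam σ e O)).eval a) ^ 2 + a * (YY (fam σ e O)).eval a ^ 2)) +
        L.z * P D a ((chd ty (fam σ e O)).sn a) := by
  obtain ⟨κ, c, sh, h1, h2, h3⟩ := H
  have h4 := hS.line ha.2.2.1 hq.le h1 ty tc (fun i => Vi V N tc O i D a)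
    (fun i hi => Vi_not V tc O hi D a) sh pay (1 - D / (q0 - a))
    (fun i hi => by rw [Vi_mem V tc O hi]; exact h2 i hi) h3 (by simp)
  rw [NS.od_ev, ← hV, ← hP] at h4
  have eu : (UU (fam σ e O)).eval a = ((chd ty (fam σ e O)).sn a).u := rfl
  have ey : (YY (fam σ e O)).eval a = ((chd ty (fam σ e O)).sn a).y := rfl
  rw [eu, ey]
  linarith

/-- **the inequality of an odd number of children from the lines of the children**, finite rule -/
theorem odF_lines (hS : FamS O N σ e ρ m f n vm fv fg) (hχ : 0 ≤ χ D) {ty : ℕ}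
    (NV : ℝ → NS) (hV : ∀ a, Reg D a → ∀ u y vU vY aU aY,
      V D a ⟨ty, u, y, vU, vY, aU, aY⟩ = (NV a).ev ⟨ty, u, y, vU, vY, aU, aY⟩)
    (NP : ℝ → Q5) (hP : ∀ a, Reg D a → ∀ u y vU vY aU aY,
      P D a ⟨ty, u, y, vU, vY, aU, aY⟩ = (NP a).ev ⟨ty, u, y, vU, vY, aU, aY⟩)
    (C : OC) (hE : ExpO K C.cq C.μ C.P) (hr : C.r * D ≤ C.P) (hC : C.Ok D)
    (pay : Fin K → ℝ) (hpay : ∀ i ∈ N, 0 ≤ pay i)
    (H : ∀ a, Reg D a → a < q0 → 0 < D → ∀ i4 : Fin 4, ∃ κ c, ∃ sh : Fin K → ℝ,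
      Spl ((NV a).od (NP a) (C.lnE (χ D) i4) a) a m f n vm fv κ c fg ∧
      (∀ i ∈ N, sh i + pay i * (1 - D / (q0 - a)) +
        c.ev (sg (σ i)) (sg (e i)) (sg (ρ i)) ((chd (tc i) (O i)).sn a) ≤
          V D a ((chd (tc i) (O i)).sn a)) ∧ κ ≤ ∑ i ∈ N, sh i)
    (H' : ∀ a, Reg D a → a < q0 → 0 < D → ∀ i2 : Fin 2, ∃ κ c, ∃ sh : Fin K → ℝ,
      Spl ((NV a).od (NP a) (C.lnR (χ D) i2) a) a m f n vm fv κ c fg ∧
      (∀ i ∈ N, sh i + pay i * (1 - D / (q0 - a)) +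
        c.ev (sg (σ i)) (sg (e i)) (sg (ρ i)) ((chd (tc i) (O i)).sn a) ≤
          V D a ((chd (tc i) (O i)).sn a)) ∧ κ ≤ ∑ i ∈ N, sh i) :
    OdF χ D K (fun a => (UU (fam σ e O)).eval a)
        (fun a => (YY (fam σ e O)).eval a) (fun a => ∑ i, Vi V N tc O i D a)
        (fun a => V D a ((chd ty (fam σ e O)).sn a))
        (fun a => P D a ((chd ty (fam σ e O)).sn a)) := by
  have hs : 0 ≤ ∑ i ∈ N, pay i := sum_nonneg hpay
  have hμ := hE.mu0
  have eV : ∀ a, Reg D a → V D a ((chd ty (fam σ e O)).sn a) =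
      (NV a).ev ((chd ty (fam σ e O)).sn a) := fun a ha => hV a ha _ _ _ _ _ _
  have eP : ∀ a, Reg D a → P D a ((chd ty (fam σ e O)).sn a) =
      (NP a).ev ((chd ty (fam σ e O)).sn a) := fun a ha => hP a ha _ _ _ _ _ _
  have key : ∀ a, Reg D a → a < q0 → 0 < D → ∀ i4 : Fin 4, _ := fun a ha hq hD i4 =>
    hS.odl ha hq (eV a ha) (eP a ha) _ pay (H a ha hq hD i4)
  have key' : ∀ a, Reg D a → a < q0 → 0 < D → ∀ i2 : Fin 2, _ := fun a ha hq hD i2 =>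
    hS.odl ha hq (eV a ha) (eP a ha) _ pay (H' a ha hq hD i2)
  -- the two coefficients of the sup bound
  have hM : ∀ a, Reg D a → C.μ * ((1 + C.l) * ((YY (fam σ e O)).eval a ^ 2 +
      a * (UU (fam σ e O)).eval a ^ 2) + (1 + 1 / C.l) * D * (YY (fam σ e O)).eval a ^ 2) ≤
      C.MU * (a * (UU (fam σ e O)).eval a ^ 2) + C.My * (YY (fam σ e O)).eval a ^ 2 := by
    intro a ha
    have h1 := mul_le_mul_of_nonneg_right hC.hU
      (mul_nonneg ha.2.2.1 (sq_nonneg ((UU (fam σ e O)).eval a)))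
    have h2 := mul_le_mul_of_nonneg_right hC.hy (sq_nonneg ((YY (fam σ e O)).eval a))
    linarith
  refine ⟨C.cq, C.μ, C.P, C.l, C.r, C.k1, C.k2, C.k3, C.k4,
    fun a => min ((YY (fam σ e O)).eval a) C.r, hE, hC.hl, hr, hC.h1, hC.h2, hC.h3, hC.h4,
    ILe.pt fun a _ => min_le_left _ _, ILe.pt fun a _ => min_le_right _ _,
    ILe.c1 _ hs fun a ha hq hD => ?_, ILe.c1 _ hs fun a ha hq hD => ?_,
    ILe.c1 _ hs fun a ha hq hD => ?_, ILe.c1 _ hs fun a ha hq hD => ?_⟩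
  · dsimp only
    have h0 := key a ha hq hD 0
    have h1 := key' a ha hq hD 0
    have h2 := hM a ha
    simp only [OC.lnE] at h0
    simp only [OC.lnR] at h1
    unfold q0 at h0 h1
    rcases le_total ((YY (fam σ e O)).eval a) C.r with h | h
    · rw [min_eq_left h]
      linarith
    · rw [min_eq_right h]
      linarith
  · dsimp only
    have h0 := key a ha hq hD 1
    have h1 := key' a ha hq hD 1
    have h2 := hM a ha
    simp only [OC.lnE] at h0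
    simp only [OC.lnR] at h1
    unfold q0 at h0 h1
    rcases le_total ((YY (fam σ e O)).eval a) C.r with h | h
    · rw [min_eq_left h]
      linarith
    · rw [min_eq_right h]
      linarith
  · dsimp only
    have h0 := key a ha hq hD 2
    simp only [OC.lnE] at h0
    unfold q0 at h0
    linarith
  · dsimp only
    have h0 := key a ha hq hD 3
    simp only [OC.lnE] at h0
    unfold q0 at h0
    linarith

/-- the same with Rule E: no cap of the gain -/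
theorem odE_lines (hS : FamS O N σ e ρ m f n vm fv fg) (hχ : 0 ≤ χ D) (hK : 0 < K) (hD0 : 0 ≤ D)
    {ty : ℕ}
    (NV : ℝ → NS) (hV : ∀ a, Reg D a → ∀ u y vU vY aU aY,
      V D a ⟨ty, u, y, vU, vY, aU, aY⟩ = (NV a).ev ⟨ty, u, y, vU, vY, aU, aY⟩)
    (NP : ℝ → Q5) (hP : ∀ a, Reg D a → ∀ u y vU vY aU aY,
      P D a ⟨ty, u, y, vU, vY, aU, aY⟩ = (NP a).ev ⟨ty, u, y, vU, vY, aU, aY⟩)
    (C : OC) (hE : ExpOE C.cq C.μ) (hC : C.Ok D)
    (pay : Fin K → ℝ) (hpay : ∀ i ∈ N, 0 ≤ pay i)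
    (H : ∀ a, Reg D a → a < q0 → 0 < D → ∀ i4 : Fin 4, ∃ κ c, ∃ sh : Fin K → ℝ,
      Spl ((NV a).od (NP a) (C.lnE (χ D) i4) a) a m f n vm fv κ c fg ∧
      (∀ i ∈ N, sh i + pay i * (1 - D / (q0 - a)) +
        c.ev (sg (σ i)) (sg (e i)) (sg (ρ i)) ((chd (tc i) (O i)).sn a) ≤
          V D a ((chd (tc i) (O i)).sn a)) ∧ κ ≤ ∑ i ∈ N, sh i) :
    OdF χ D K (fun a => (UU (fam σ e O)).eval a)
        (fun a => (YY (fam σ e O)).eval a) (fun a => ∑ i, Vi V N tc O i D a)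
        (fun a => V D a ((chd ty (fam σ e O)).sn a))
        (fun a => P D a ((chd ty (fam σ e O)).sn a)) := by
  have hs : 0 ≤ ∑ i ∈ N, pay i := sum_nonneg hpay
  have eV : ∀ a, Reg D a → V D a ((chd ty (fam σ e O)).sn a) =
      (NV a).ev ((chd ty (fam σ e O)).sn a) := fun a ha => hV a ha _ _ _ _ _ _
  have eP : ∀ a, Reg D a → P D a ((chd ty (fam σ e O)).sn a) =
      (NP a).ev ((chd ty (fam σ e O)).sn a) := fun a ha => hP a ha _ _ _ _ _ _
  have key : ∀ a, Reg D a → a < q0 → 0 < D → ∀ i4 : Fin 4, _ := fun a ha hq hD i4 =>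
    hS.odl ha hq (eV a ha) (eP a ha) _ pay (H a ha hq hD i4)
  have hM : ∀ a, Reg D a → C.μ * ((1 + C.l) * ((YY (fam σ e O)).eval a ^ 2 +
      a * (UU (fam σ e O)).eval a ^ 2) + (1 + 1 / C.l) * D * (YY (fam σ e O)).eval a ^ 2) ≤
      C.MU * (a * (UU (fam σ e O)).eval a ^ 2) + C.My * (YY (fam σ e O)).eval a ^ 2 := by
    intro a ha
    have h1 := mul_le_mul_of_nonneg_right hC.hU
      (mul_nonneg ha.2.2.1 (sq_nonneg ((UU (fam σ e O)).eval a)))
    have h2 := mul_le_mul_of_nonneg_right hC.hy (sq_nonneg ((YY (fam σ e O)).eval a))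
    linarith
  refine OdE.toF ⟨C.cq, C.μ, C.l, C.k1, C.k2, C.k3, C.k4, hE, hC.hl, hC.h1, hC.h2, hC.h3,
    hC.h4, ILe.c1 _ hs fun a ha hq hD => ?_, ILe.c1 _ hs fun a ha hq hD => ?_,
    ILe.c1 _ hs fun a ha hq hD => ?_, ILe.c1 _ hs fun a ha hq hD => ?_⟩ hK hD0 ?_
  · have h0 := key a ha hq hD 0
    have h2 := hM a ha
    simp only [OC.lnE] at h0
    unfold q0 at h0
    linarith
  · have h0 := key a ha hq hD 1
    have h2 := hM a ha
    simp only [OC.lnE] at h0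
    unfold q0 at h0
    linarith
  · have h0 := key a ha hq hD 2
    simp only [OC.lnE] at h0
    unfold q0 at h0
    linarith
  · have h0 := key a ha hq hD 3
    simp only [OC.lnE] at h0
    unfold q0 at h0
    linarith
  · exact poly_bd _ D

end

end Pool.Agent.TSM
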