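import Pool.Agent.TSM.OddFC

set_option autoImplicit false

/-!
# An odd number `K` of children, full finite rule with a constant (MP_d27362_co, helper2)

`(1 + (u - ρ)/K)^K ≤ e^{-ρ} e^{δ + μ (w² - 1)} (1 + u + c u²)` for `u ≤ w`, `w ≥ 1`, `ρ ≤ P`:
with a small constant `δ` the factor `c` may be smaller than `1/2`.
-/

namespace Pool.Agent.TSM

open Finset Polynomial
open Pool.Agent.TSP
open Pool.Agent.TSO
open Pool.Agent.TSR (OBr Ker sg_true sg_false vS_nonneg)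
open Pool.Agent.TLT (sg)

noncomputable section

/-- the constants of the finite rule for an odd number `K` of children, the gain at most `P`,
with a constant `de` in the exponent -/
structure ExpOd (K : ℕ) (cq μ P de : ℝ) : Prop where
  cq0 : 0 ≤ cq
  mu0 : 0 ≤ μ
  P0 : 0 ≤ P
  de0 : 0 ≤ de
  quad : ∀ u : ℝ, 0 ≤ 1 + u + cq * u ^ 2
  hexp : ∀ ρ u w : ℝ, ρ ≤ P → 1 ≤ w → u ≤ w → 0 ≤ 1 + (u - ρ) / K →
    (1 + (u - ρ) / K) ^ K ≤
      Real.exp (-ρ) * (Real.exp (de + μ * (w ^ 2 - 1)) * (1 + u + cq * u ^ 2))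

/-- the case `de = 0` -/
theorem ExpO.toD {K : ℕ} {cq μ P : ℝ} (h : ExpO K cq μ P) : ExpOd K cq μ P 0 :=
  ⟨h.cq0, h.mu0, h.P0, le_rfl, h.quad, by
    intro ρ u w h1 h2 h3 h4
    rw [zero_add]
    exact h.hexp ρ u w h1 h2 h3 h4⟩

/-- the constants may be enlarged -/
theorem ExpOd.mono {K : ℕ} {c μ P de c' μ' P' de' : ℝ} (h : ExpOd K c μ P de) (hc : c ≤ c')
    (hμ : μ ≤ μ') (hP0 : 0 ≤ P') (hP : P' ≤ P) (hde : de ≤ de') : ExpOd K c' μ' P' de' := by
  refine ⟨h.cq0.trans hc, h.mu0.trans hμ, hP0, h.de0.trans hde, fun u => ?_,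
    fun ρ u w hρ hw hu h0 => ?_⟩
  · have h1 := h.quad u
    have h2 := mul_le_mul_of_nonneg_right hc (sq_nonneg u)
    linarith
  · have h1 := h.hexp ρ u w (hρ.trans hP) hw hu h0
    have h2 := mul_le_mul_of_nonneg_right hc (sq_nonneg u)
    have h3 := mul_le_mul_of_nonneg_right hμ (show 0 ≤ w ^ 2 - 1 by nlinarith)
    refine h1.trans (mul_le_mul_of_nonneg_left ?_ (Real.exp_pos _).le)
    exact mul_le_mul (Real.exp_le_exp.2 (by linarith)) (by linarith) (h.quad u)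
      (Real.exp_pos _).le

/-- reduction to three inequalities in one variable -/
theorem ExpOd.of {K : ℕ} (hK : 0 < K) {cq μ P de : ℝ} (hμ : 0 ≤ μ) (hP0 : 0 ≤ P) (hde : 0 ≤ de)
    (hcq : 1 / 4 ≤ cq)
    (h1 : ∀ u, u ≤ P → Real.exp u ≤ Real.exp de * (1 + u + cq * u ^ 2))
    (h2 : ∀ u, P ≤ u → u ≤ 1 → Real.exp P * (1 + (u - P) / K) ^ K ≤
      Real.exp de * (1 + u + cq * u ^ 2))
    (h3 : ∀ u, 1 ≤ u → Real.exp P * (1 + (u - P) / K) ^ K ≤
      Real.exp (de + μ * (u ^ 2 - 1)) * (1 + u + cq * u ^ 2)) : ExpOd K cq μ P de := by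
  have hq : ∀ u : ℝ, 0 ≤ 1 + u + cq * u ^ 2 := by
    intro u
    have h2 := mul_le_mul_of_nonneg_right hcq (sq_nonneg u)
    nlinarith [sq_nonneg (u + 2)]
  refine ⟨by linarith, hμ, hP0, hde, hq, fun ρ u w hρ hw huw hn => ?_⟩
  have hKR : (0 : ℝ) < K := by exact_mod_cast hK
  have hE1 : Real.exp de ≤ Real.exp (de + μ * (w ^ 2 - 1)) :=
    Real.exp_le_exp.2 (by linarith [mul_nonneg hμ (show 0 ≤ w ^ 2 - 1 by nlinarith)])
  -- the bound without `ρ`
  have key : Real.exp ρ * (1 + (u - ρ) / K) ^ K ≤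
      Real.exp (de + μ * (w ^ 2 - 1)) * (1 + u + cq * u ^ 2) := by
    rcases le_total u P with hu | hu
    · have h4 : (1 + (u - ρ) / K) ^ K ≤ Real.exp (u - ρ) := by
        have h5 : 1 + (u - ρ) / K ≤ Real.exp ((u - ρ) / K) := by
          have := Real.add_one_le_exp ((u - ρ) / K)
          linarith
        refine (pow_le_pow_left₀ hn h5 K).trans (le_of_eq ?_)
        rw [← Real.exp_nat_mul]
        congr 1
        field_simp
      have h6 : Real.exp ρ * (1 + (u - ρ) / K) ^ K ≤ Real.exp u := by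
        refine (mul_le_mul_of_nonneg_left h4 (Real.exp_nonneg _)).trans (le_of_eq ?_)
        rw [← Real.exp_add]
        congr 1
        ring
      have h7 := h6.trans (h1 u hu)
      have h8 := mul_le_mul_of_nonneg_right hE1 (hq u)
      linarith
    · have h4 : 1 + (u - ρ) / K ≤ (1 + (u - P) / K) * Real.exp ((P - ρ) / K) := by
        have h5 : 1 + (P - ρ) / K ≤ Real.exp ((P - ρ) / K) := by
          have := Real.add_one_le_exp ((P - ρ) / K)
          linarith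
        have h6 : 0 ≤ (u - P) / K := div_nonneg (by linarith) hKR.le
        have h7 : 0 ≤ (P - ρ) / K := div_nonneg (by linarith) hKR.le
        have h8 := mul_le_mul_of_nonneg_left h5 (show 0 ≤ 1 + (u - P) / K by linarith)
        have h9 : 1 + (u - ρ) / K = 1 + (u - P) / K + (P - ρ) / K := by
          field_simp
          ring
        rw [h9]
        nlinarith [mul_nonneg h6 h7]
      have h5 : Real.exp ρ * (1 + (u - ρ) / K) ^ K ≤ Real.exp P * (1 + (u - P) / K) ^ K := by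
        have h6 := mul_le_mul_of_nonneg_left (pow_le_pow_left₀ hn h4 K) (Real.exp_nonneg ρ)
        refine h6.trans (le_of_eq ?_)
        rw [mul_pow, ← Real.exp_nat_mul]
        have h7 : (K : ℝ) * ((P - ρ) / K) = P - ρ := by field_simp
        rw [h7]
        have h8 : Real.exp P = Real.exp ρ * Real.exp (P - ρ) := by
          rw [← Real.exp_add]
          congr 1
          ring
        rw [h8]
        ring
      refine h5.trans ?_
      rcases le_total u 1 with h6 | h6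
      · have h7 := h2 u hu h6
        have h8 := mul_le_mul_of_nonneg_right hE1 (hq u)
        linarith
      · refine (h3 u h6).trans (mul_le_mul_of_nonneg_right (Real.exp_le_exp.2 ?_) (hq u))
        have := pow_le_pow_left₀ (by linarith : (0 : ℝ) ≤ u) huw 2
        have := mul_le_mul_of_nonneg_left (show u ^ 2 - 1 ≤ w ^ 2 - 1 by linarith) hμ
        linarith
  have h4 := mul_le_mul_of_nonneg_left key (Real.exp_nonneg (-ρ))
  refine le_trans (le_of_eq ?_) h4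
  rw [← mul_assoc, ← Real.exp_add, neg_add_cancel, Real.exp_zero, one_mul]

/-- odd number `K` of children, finite rule with the constant `de ≤ dl D`: `U`, `y` the new state,
`V` the sum of the values. Lines 1, 2 are used if `∫ y ≥ 0` (multipliers `k1`, `k2`), lines 3, 4
if `∫ y ≤ 0` -/
def OdFd (χ : ℝ → ℝ) (D : ℝ) (K : ℕ) (U y V V' c' : ℝ → ℝ) : Prop :=
  ∃ cq μ P de dl l r k1 k2 k3 k4 : ℝ, ∃ g : ℝ → ℝ, ExpOd K cq μ P de ∧ 0 < l ∧ r * D ≤ P ∧
    de ≤ dl * D ∧ 2 * μ ≤ k1 ∧ 2 * μ ≤ k2 ∧ 1 ≤ k3 ∧ 1 ≤ k4 ∧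
    ILe D g y ∧ ILe D g (fun _ => r) ∧
    ILe D V' (fun a => V a + g a - dl - k1 * y a - μ * ((1 + l) * (y a ^ 2 + a * U a ^ 2) +
      (1 + 1 / l) * D * y a ^ 2) - 2 * cq * ((1 - a * U a) ^ 2 + a * y a ^ 2)) ∧
    ILe D V' (fun a => V a + g a - dl - k2 * y a - μ * ((1 + l) * (y a ^ 2 + a * U a ^ 2) +
      (1 + 1 / l) * D * y a ^ 2) - 2 * cq * ((1 - a * U a) ^ 2 + a * y a ^ 2) -
      χ D * (2 * cq * ((1 - a * U a) ^ 2 + a * y a ^ 2) - c' a)) ∧
    ILe D V' (fun a => V a - dl + k3 * y a - μ * (y a ^ 2 + a * U a ^ 2) -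
      2 * cq * ((1 - a * U a) ^ 2 + a * y a ^ 2)) ∧
    ILe D V' (fun a => V a - dl + k4 * y a - μ * (y a ^ 2 + a * U a ^ 2) -
      2 * cq * ((1 - a * U a) ^ 2 + a * y a ^ 2) -
      χ D * (2 * cq * ((1 - a * U a) ^ 2 + a * y a ^ 2) - c' a))

/-- the rule without the constant -/
theorem OdF.toD {χ : ℝ → ℝ} {D : ℝ} {K : ℕ} {U y V V' c' : ℝ → ℝ} (h : OdF χ D K U y V V' c') :
    OdFd χ D K U y V V' c' := by
  obtain ⟨cq, μ, P, l, r, k1, k2, k3, k4, g, hF, hl, hrP, h1, h2, h3, h4, hg, hgr, p1, p2, p3,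
    p4⟩ := h
  refine ⟨cq, μ, P, 0, 0, l, r, k1, k2, k3, k4, g, hF.toD, hl, hrP, by rw [zero_mul], h1, h2, h3,
    h4, hg, hgr, ?_, ?_, ?_, ?_⟩ <;> simp only [sub_zero] <;> assumption

/-- **an odd number of children** (`Σ σ = 1`), full finite rule with a constant -/
theorem GoodE.odFd {χ : ℝ → ℝ} (hχ : ∀ D, RD D → 0 ≤ χ D) {K : ℕ} (hK0 : 0 < K)
    (O : Fin K → OBr) (σ e : Fin K → Bool) (V c : Fin K → ℝ → ℝ → ℝ)
    (h : ∀ i, GoodE χ (O i) (V i) (c i)) (hτ : ∑ i, sg (σ i) = 1) {V' c' : ℝ → ℝ → ℝ}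
    (U y : ℝ → ℝ) (hU : ∀ a, ∑ i, sg (σ i) * (YY (O i)).eval a = U a)
    (hy : ∀ a, ∑ i, sg (e i) * (XX (O i)).eval a = y a)
    (H : ∀ D, RD D → OdFd χ D K U y (fun a => ∑ i, V i D a) (V' D) (c' D)) :
    GoodE χ (fam σ e O) V' c' := by
  intro m S hS w t hR
  have hRD : RD (dee S) := ⟨hR.dee_nonneg, hR.dee_le⟩
  obtain ⟨cq, μ, P, de, dl, l, r, k1, k2, k3, k4, g, hF, hl, hrP, hde, hk1, hk2, hk3, hk4, hg,
    hgr, hp1, hp2, hn1, hn2⟩ := H _ hRD
  have hM : ∀ i ∈ (Finset.univ : Finset (Fin K)), MMajE S (ms S (cn (σ i) (e i) (O i)))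
      (sg (σ i) • (1 - X * YY (O i))) (sg (e i) • XX (O i))
      (nu w t fun a => sg (e i) * (XX (O i)).eval a) (χ (dee S)) (nu w t (V i (dee S)))
      (nu w t (c i (dee S))) := fun i _ => (h i).msg (σ i) (e i) hS hR
  rw [fam_vS, fam_XX, fam_YY]
  set U' := ∑ i, sg (σ i) • YY (O i) with hU'
  set y' := ∑ i, sg (e i) • XX (O i) with hy'
  have hx' : ∑ i, sg (σ i) • (1 - X * YY (O i)) = C 1 - X * U' := by
    have h1 : ∀ i : Fin K, sg (σ i) • (1 - X * YY (O i)) =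
        C (sg (σ i)) - X * (sg (σ i) • YY (O i)) := by
      intro i
      rw [smul_sub, smul_eq_C_mul, mul_one, mul_smul_comm]
    rw [Finset.sum_congr rfl fun i _ => h1 i, Finset.sum_sub_distrib, ← Finset.mul_sum,
      ← map_sum, hτ]
  have hUe : ∀ a, U'.eval a = U a := by
    intro a
    rw [hU', eval_finsetSum, ← hU a]
    exact Finset.sum_congr rfl fun i _ => by rw [eval_smul, smul_eq_mul]
  have hye : ∀ a, y'.eval a = y a := by
    intro a
    rw [hy', eval_finsetSum, ← hy a]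
    exact Finset.sum_congr rfl fun i _ => by rw [eval_smul, smul_eq_mul]
  have hen : en S (∑ i, sg (σ i) • (1 - X * YY (O i))) y' =
      nu w t fun a => (1 - a * U a) ^ 2 + a * y a ^ 2 := by
    rw [hx', hR.en_nu]
    congr 1
    funext a
    simp only [eval_sub, eval_C, eval_mul, eval_X, hUe, hye]
  have hen2 : en2 S U' y' = nu w t fun a => y a ^ 2 + a * U a ^ 2 := by
    unfold en2
    rw [hR.mo_nu]
    congr 1
    funext a
    simp only [eval_add, eval_mul, eval_X, hUe, hye]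
    ring
  have hmoy : mo S y' = nu w t y := by
    rw [hR.mo_nu]
    congr 1
    funext a
    exact hye a
  have hmy2 : mo S (y' * y') = nu w t fun a => y a ^ 2 := by
    rw [hR.mo_nu]
    congr 1
    funext a
    simp only [eval_mul, hye]
    ring
  have hsumG : ∑ i, (nu w t fun a => sg (e i) * (XX (O i)).eval a) = nu w t y := by
    rw [← nu_finset_sum]
    congr 1
    funext a
    exact hy a
  have hk0 := en2_nonneg (S := S) hS.anti U' y'
  have hb2 := mo_sq_le hS y'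
  have hw1 : 1 ≤ Real.sqrt (1 + en2 S U' y') := by
    rw [Real.one_le_sqrt]
    linarith
  have hG1 : nu w t g ≤ nu w t y := hg m S hS w t hR rfl
  have hGP : nu w t g ≤ P := by
    have := hgr m S hS w t hR rfl
    rw [hR.nu_const] at this
    exact this.trans hrP
  have hsup : ∀ z, st S (∑ i, sg (σ i) • (1 - X * YY (O i))) (∑ i, sg (e i) • XX (O i)) z ≤
      Real.sqrt (1 + en2 S U' y') + mo S y' := by
    intro z
    rw [hx', ← hy']
    have h1 := st_sup hS 1 U' y' z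
    rwa [show (1 : ℝ) ^ 2 + en2 S U' y' = 1 + en2 S U' y' by ring] at h1
  have hhE : ∀ w1 mm : ℝ, 1 ≤ w1 → de + μ * (w1 ^ 2 - 1) ≤ mm → (∀ z, st S (∑ i, sg (σ i) •
      (1 - X * YY (O i))) (∑ i, sg (e i) • XX (O i)) z ≤ w1) → ∀ z ρ, ρ ≤ P →
      0 ≤ 1 + (st S (∑ i, sg (σ i) • (1 - X * YY (O i))) (∑ i, sg (e i) • XX (O i)) z - ρ) /
        (K : ℝ) →
      (1 + (st S (∑ i, sg (σ i) • (1 - X * YY (O i))) (∑ i, sg (e i) • XX (O i)) z - ρ) /
        (K : ℝ)) ^ K ≤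
      Real.exp (-ρ) * (Real.exp mm * (1 + st S (∑ i, sg (σ i) • (1 - X * YY (O i)))
        (∑ i, sg (e i) • XX (O i)) z + cq * st S (∑ i, sg (σ i) • (1 - X * YY (O i)))
        (∑ i, sg (e i) • XX (O i)) z ^ 2)) := by
    intro w1 mm h1 h2 h3 z ρ h4 h5
    refine (hF.hexp _ _ w1 h4 h1 (h3 z) h5).trans ?_
    refine mul_le_mul_of_nonneg_left ?_ (Real.exp_nonneg _)
    exact mul_le_mul_of_nonneg_right (Real.exp_le_exp.2 h2) (hF.quad _)
  -- the integrated lines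
  have eT : ∀ k : ℝ, ∀ f : ℝ → ℝ, (nu w t fun a => (∑ i, V i (dee S) a) + f a - dl - k * y a -
      μ * ((1 + l) * (y a ^ 2 + a * U a ^ 2) + (1 + 1 / l) * dee S * y a ^ 2) -
      2 * cq * ((1 - a * U a) ^ 2 + a * y a ^ 2)) =
      ∑ i, nu w t (V i (dee S)) + nu w t f - dl * dee S - k * mo S y' -
      μ * ((1 + l) * en2 S U' y' + (1 + 1 / l) * dee S * mo S (y' * y')) -
      2 * cq * en S (∑ i, sg (σ i) • (1 - X * YY (O i))) y' := by
    intro k f
    rw [nu_sub, nu_sub, nu_sub, nu_sub, nu_add, nu_finset_sum, hR.nu_const, nu_mul, nu_mul,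
      nu_mul, nu_add, nu_mul, nu_mul, ← hen, ← hen2, ← hmy2, ← hmoy]
  have eN : ∀ k : ℝ, (nu w t fun a => (∑ i, V i (dee S) a) - dl + k * y a -
      μ * (y a ^ 2 + a * U a ^ 2) - 2 * cq * ((1 - a * U a) ^ 2 + a * y a ^ 2)) =
      ∑ i, nu w t (V i (dee S)) - dl * dee S + k * mo S y' - μ * en2 S U' y' -
      2 * cq * en S (∑ i, sg (σ i) • (1 - X * YY (O i))) y' := by
    intro k
    rw [nu_sub, nu_sub, nu_add, nu_sub, nu_finset_sum, hR.nu_const, nu_mul, nu_mul, nu_mul,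
      ← hen, ← hen2, ← hmoy]
  have eX : (nu w t fun a => 2 * cq * ((1 - a * U a) ^ 2 + a * y a ^ 2) - c' (dee S) a) =
      2 * cq * en S (∑ i, sg (σ i) • (1 - X * YY (O i))) y' - nu w t (c' (dee S)) := by
    rw [nu_sub, nu_mul, ← hen]
  have hp1' := hp1 m S hS w t hR rfl
  rw [eT] at hp1'
  have hp2' := hp2 m S hS w t hR rfl
  rw [nu_sub, nu_mul, eT, eX] at hp2'
  have hn1' := hn1 m S hS w t hR rfl
  rw [eN] at hn1'
  have hn2' := hn2 m S hS w t hR rfl
  rw [nu_sub, nu_mul, eN, eX] at hn2'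
  rcases le_total 0 (mo S y') with hb | hb
  · have hso := sup_odd2 hk0 hb hb2 hl
    have hw2 : 1 ≤ Real.sqrt (1 + en2 S U' y') + mo S y' := by linarith
    have hmm : de + μ * ((Real.sqrt (1 + en2 S U' y') + mo S y') ^ 2 - 1) ≤ de +
        μ * (2 * mo S y' + (1 + l) * en2 S U' y' + (1 + 1 / l) * (dee S * mo S (y' * y'))) :=
      add_le_add le_rfl (mul_le_mul_of_nonneg_left hso hF.mu0)
    have h6 := mul_le_mul_of_nonneg_right hk1 hb
    have h7 := mul_le_mul_of_nonneg_right hk2 hb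
    refine (MMajE.manyF hS Finset.univ K (by simp) hK0 _ _ _ _ _ _ (hχ _ hRD) hM cq _
      (nu w t g) P hF.cq0 (by rw [hsumG]; exact hG1) hGP (hhE _ _ hw2 hmm hsup) le_rfl
      le_rfl).excess ?_ ?_
    · rw [← hy']
      linarith
    · rw [← hy']
      linarith
  · have hsup' : ∀ z, st S (∑ i, sg (σ i) • (1 - X * YY (O i))) (∑ i, sg (e i) • XX (O i)) z ≤
        Real.sqrt (1 + en2 S U' y') := fun z => (hsup z).trans (by linarith)
    have hmm : de + μ * (Real.sqrt (1 + en2 S U' y') ^ 2 - 1) ≤ de + μ * en2 S U' y' := by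
      rw [Real.sq_sqrt (by linarith)]
      apply le_of_eq
      ring
    have h6 := mul_nonneg (sub_nonneg.2 hk3) (neg_nonneg.2 hb)
    have h7 := mul_nonneg (sub_nonneg.2 hk4) (neg_nonneg.2 hb)
    refine (MMajE.manyF hS Finset.univ K (by simp) hK0 _ _ _ _ _ _ (hχ _ hRD) hM cq _
      (mo S y') P hF.cq0 (by rw [hsumG, hmoy]) (hb.trans hF.P0) (hhE _ _ hw1 hmm hsup') le_rfl
      le_rfl).excess ?_ ?_
    · rw [← hy']
      linarith
    · rw [← hy']
      linarith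

end

end Pool.Agent.TSM
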