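import Pool.Agent.TSM.Path
import Pool.Agent.TSM.Fam6
import Pool.Agent.TSM.OddD
import Pool.Agent.TSM.LfH

set_option autoImplicit false

/-!
# The step with an odd number of children and a trivial child: two rules (MP_d27362_co)
-/

namespace Pool.Agent.TSM

open Finset Polynomial
open Pool.Agent.TSP
open Pool.Agent.TSO
open Pool.Agent.TSR (OBr Ker)
open Pool.Agent.TLT (sg)
open Pool.Agent.TDN (dn dn_nonneg)

noncomputable section

variable {K : ℕ} {O : Fin K → OBr} {N : Finset (Fin K)}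
  {Y : Sys} {Adm : ℕ → ℝ → ℝ → ℝ → ℝ → Prop} {V P : ℝ → ℝ → Sn → ℝ} {χ : ℝ → ℝ}

/-- **an odd number of children**, full finite rule, one total mass `D` -/
theorem GoodE.odFD {χ : ℝ → ℝ} (hχ : ∀ D, RD D → 0 ≤ χ D) {K : ℕ} (hK0 : 0 < K)
    (O : Fin K → OBr) (σ e : Fin K → Bool) (V c : Fin K → ℝ → ℝ → ℝ)
    (h : ∀ i, GoodE χ (O i) (V i) (c i)) (hτ : ∑ i, sg (σ i) = 1) {V' c' : ℝ → ℝ}
    (U y : ℝ → ℝ) (hU : ∀ a, ∑ i, sg (σ i) * (YY (O i)).eval a = U a)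
    (hy : ∀ a, ∑ i, sg (e i) * (XX (O i)).eval a = y a) {D : ℝ}
    (H : OdFd χ D K U y (fun a => ∑ i, V i D a) V' c')
    (m : ℕ) (S : Fin m → Fin m → ℝ) (hS : Ker S) (w t : Fin m → ℝ) (hR : Rep S w t)
    (hDD : dee S = D) :
    MajE S ((fam σ e O).vS S) (XX (fam σ e O)) (YY (fam σ e O)) (χ (dee S))
      (nu w t V') (nu w t c') := by
  classical
  -- the four lines for the other masses
  set L1 : ℝ → ℝ → ℝ := fun D' a => (∑ i, V i D' a) + min (y a) 0 - 2 * (43 / 500) * y a -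
      43 / 500 * ((1 + 1) * (y a ^ 2 + a * U a ^ 2) +
      (1 + 1 / 1) * D' * y a ^ 2) - 2 * (18 / 25) * ((1 - a * U a) ^ 2 + a * y a ^ 2) with hL1
  set L2 : ℝ → ℝ → ℝ := fun D' a => (∑ i, V i D' a) + min (y a) 0 - 2 * (43 / 500) * y a -
      43 / 500 * ((1 + 1) * (y a ^ 2 + a * U a ^ 2) +
      (1 + 1 / 1) * D' * y a ^ 2) - 2 * (18 / 25) * ((1 - a * U a) ^ 2 + a * y a ^ 2) -
      χ D' * (2 * (18 / 25) * ((1 - a * U a) ^ 2 + a * y a ^ 2) - 0) with hL2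
  set L3 : ℝ → ℝ → ℝ := fun D' a => (∑ i, V i D' a) + 1 * y a -
      43 / 500 * (y a ^ 2 + a * U a ^ 2) - 2 * (18 / 25) * ((1 - a * U a) ^ 2 + a * y a ^ 2)
    with hL3
  set L4 : ℝ → ℝ → ℝ := fun D' a => (∑ i, V i D' a) + 1 * y a -
      43 / 500 * (y a ^ 2 + a * U a ^ 2) - 2 * (18 / 25) * ((1 - a * U a) ^ 2 + a * y a ^ 2) -
      χ D' * (2 * (18 / 25) * ((1 - a * U a) ^ 2 + a * y a ^ 2) - 0) with hL4
  set W : ℝ → ℝ → ℝ := fun D' a => if D' = D then V' a else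
    min (min (L1 D' a) (L2 D' a)) (min (L3 D' a) (L4 D' a)) with hW
  set c'' : ℝ → ℝ → ℝ := fun D' a => if D' = D then c' a else 0 with hc''
  have hall : GoodE χ (fam σ e O) W c'' := by
    refine GoodE.odFd hχ hK0 O σ e V c h hτ U y hU hy fun D' hD' => ?_
    by_cases hDD' : D' = D
    · have e1 : W D' = V' := by
        funext a
        exact if_pos hDD'
      have e2 : c'' D' = c' := by
        funext a
        exact if_pos hDD'
      rw [e1, e2, hDD']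
      exact H
    · have e1 : W D' = fun a => min (min (L1 D' a) (L2 D' a)) (min (L3 D' a) (L4 D' a)) := by
        funext a
        exact if_neg hDD'
      have e2 : c'' D' = fun _ => 0 := by
        funext a
        exact if_neg hDD'
      rw [e1, e2]
      exact OdF.toD ⟨18 / 25, 43 / 500, 0, 1, 0, 2 * (43 / 500), 2 * (43 / 500), 1, 1,
        fun a => min (y a) 0, expOE_a.toF hK0 le_rfl, one_pos, by rw [zero_mul], le_rfl, le_rfl,
        le_rfl, le_rfl, ILe.pt fun a _ => min_le_left _ _, ILe.pt fun a _ => min_le_right _ _,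
        ILe.pt fun a _ => (min_le_left _ _).trans (min_le_left _ _),
        ILe.pt fun a _ => (min_le_left _ _).trans (min_le_right _ _),
        ILe.pt fun a _ => (min_le_right _ _).trans (min_le_left _ _),
        ILe.pt fun a _ => (min_le_right _ _).trans (min_le_right _ _)⟩
  have h1 := hall m S hS w t hR
  have e1 : W (dee S) = V' := by
    funext a
    exact if_pos hDD
  have e2 : c'' (dee S) = c' := by
    funext a
    exact if_pos hDD
  rwa [e1, e2] at h1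

/-- the inequality of the rule which splits off a trivial child with the gain `ξ` -/
def LfT (V P : ℝ → ℝ → Sn → ℝ) (χ : ℝ → ℝ) (O : Fin K → OBr) (N : Finset (Fin K))
    (tc : Fin K → ℕ) (σ e : Fin K → Bool) (ξ : ℝ) (ty : ℕ) (D : ℝ) : Prop :=
  LfE2 χ D (K - 1) (fun _ => ξ) (fun _ => 0) (fun a => (UU (fam σ e O)).eval a)
    (fun a => (YY (fam σ e O)).eval a - ξ) (fun _ => 0) (fun _ => 0)
    (fun a => ∑ i, Vi V N tc O i D a) (fun a => ∑ i, Vi P N tc O i D a)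
    (fun a => V D a ((chd ty (fam σ e O)).sn a)) (fun a => P D a ((chd ty (fam σ e O)).sn a))

/-- the inequality of the symmetric rule (with a constant, see `OdFd`) -/
def OdT (V P : ℝ → ℝ → Sn → ℝ) (χ : ℝ → ℝ) (O : Fin K → OBr) (N : Finset (Fin K))
    (tc : Fin K → ℕ) (σ e : Fin K → Bool) (ty : ℕ) (D : ℝ) : Prop :=
  OdFd χ D K (fun a => (UU (fam σ e O)).eval a) (fun a => (YY (fam σ e O)).eval a)
    (fun a => ∑ i, Vi V N tc O i D a)
    (fun a => V D a ((chd ty (fam σ e O)).sn a)) (fun a => P D a ((chd ty (fam σ e O)).sn a))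

/-- one of the two rules for every `D` -/
def OddR (V P : ℝ → ℝ → Sn → ℝ) (χ : ℝ → ℝ) (O : Fin K → OBr) (N : Finset (Fin K))
    (tc : Fin K → ℕ) (σ e : Fin K → Bool) (ξ : ℝ) (ty : ℕ) : Prop :=
  ∀ D, RD D → LfT V P χ O N tc σ e ξ ty D ∨ OdT V P χ O N tc σ e ty D

/-- the vertex with an odd number of children and the trivial child `j`, given signs: one of the
two rules for every `D` -/
theorem po_R (hY : Y.G = GoodE χ) (hχ : ∀ D, RD D → 0 ≤ χ D) (hK2 : 2 ≤ K) (j : Fin K)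
    (hj : j ∉ N) (hM : ∀ i ∉ N, O i = .nil ∨ O i = two) {σ e : Fin K → Bool} {tc : Fin K → ℕ}
    (hT : FamT Y Adm V P O N tc) (hσj : σ j = true) (hσ1 : ∑ i, sg (σ i) = 1)
    (hInv : Inv (fam σ e O)) {ty : ℕ} (hty : ty ≠ 0)
    (hAd : Adm ty (vU (fam σ e O)) (vY (fam σ e O)) (aU (fam σ e O)) (aY (fam σ e O)))
    {ξ : ℝ} (hξ : xiT (e j) (O j) = ξ) (h4 : OddR V P χ O N tc σ e ξ ty) :
    PO Y Adm V P (fam σ e O) := by
  have hτ : tau (fam σ e O) = 1 := by rw [fam_tau]; exact hσ1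
  refine ⟨ty, ?_, hInv, hAd, ?_⟩
  · rw [hτ]
    constructor
    · exact fun h => absurd h hty
    · intro h
      norm_num at h
  have hG := hT.hG
  rw [hY] at hG ⊢
  have hYj : YY (O j) = 0 := hT.hO.YY0 hj
  have hK0 : 0 < K := by omega
  intro m S hS w t hR
  have hRD : RD (dee S) := ⟨hR.dee_nonneg, hR.dee_le⟩
  rcases h4 _ hRD with h5 | h5
  · have eS : ∀ (W : ℝ → ℝ → Sn → ℝ) (D : ℝ), (fun a => ∑ i ∈ univ.erase j, Vi W N tc O i D a) =
        fun a => ∑ i, Vi W N tc O i D a := by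
      intro W D
      funext a
      rw [← add_sum_erase univ _ (mem_univ j), Vi_not W tc O hj, zero_add]
    refine GoodE.lf2D O σ e _ _ hG hK2 j hσj hσ1 (fun _ => ξ) (fun _ => 0)
      (fun a => (UU (fam σ e O)).eval a)
      (fun a => (YY (fam σ e O)).eval a - ξ)
      (fun a => by rw [xiT_eq (hM j hj), hξ]) (fun a => by rw [hYj, eval_zero]) (fun a => ?_)
      (fun a => ?_) ?_ m S hS w t hR rfl
    · rw [FamS.U_eq, ← add_sum_erase univ _ (mem_univ j), hYj, eval_zero, mul_zero, zero_add]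
    · rw [fam_YY, eval_finsetSum, ← add_sum_erase univ _ (mem_univ j), eval_smul, smul_eq_mul,
        xiT_eq (hM j hj), hξ]
      have : ∑ i ∈ univ.erase j, (sg (e i) • XX (O i)).eval a =
          ∑ i ∈ univ.erase j, sg (e i) * (XX (O i)).eval a :=
        sum_congr rfl fun i _ => by rw [eval_smul, smul_eq_mul]
      rw [this]
      ring
    · rw [eS, eS]
      have e1 : Vi V N tc O j (dee S) = fun _ => 0 := by
        funext a
        exact Vi_not V tc O hj _ a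
      have e2 : Vi P N tc O j (dee S) = fun _ => 0 := by
        funext a
        exact Vi_not P tc O hj _ a
      rw [e1, e2]
      exact h5
  · refine GoodE.odFD hχ hK0 O σ e _ _ hG hσ1 (fun a => (UU (fam σ e O)).eval a)
      (fun a => (YY (fam σ e O)).eval a) (fun a => (FamS.U_eq O σ e a).symm) (fun a => ?_) h5
      m S hS w t hR rfl
    rw [fam_YY, eval_finsetSum]
    exact sum_congr rfl fun i _ => by rw [eval_smul, smul_eq_mul]

/-- the signs when the trivial child `j` is split off, given the types of the children -/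
theorem odd_triv_signsT (hK : Odd K) (j : Fin K) (hj : j ∉ N) {tc : Fin K → ℕ}
    (hT : FamT Y Adm V P O N tc) :
    ∃ (σ e ρ : Fin K → Bool) (n : ℕ), n = n1 O % 2 ∧
      (Even N.card → ∑ i ∈ N, sg (ρ i) = 0) ∧ (Odd N.card → ∑ i ∈ N, sg (ρ i) = 1) ∧
      (∀ m : ℝ, (N.card : ℝ) ≤ m → FamS O N σ e ρ m 2 n (16 - 12 * n) (4 - 3 * n)) ∧
      Inv (fam σ e O) ∧ σ j = true ∧ ∑ i, sg (σ i) = 1 := by
  obtain ⟨s, e, ρ, z, n, hn, h1, h2, h3⟩ := famS_exists hT.hO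
  obtain ⟨σ, hσ, hσj, hσ1⟩ := ext_odd hK j hj s z (fun h => (h1 h).1) (fun h => (h2 h).1)
  have hτ : tau (fam σ e O) = 1 := by rw [fam_tau]; exact hσ1
  exact ⟨σ, e, ρ, n, hn, fun h => (h1 h).2, fun h => (h2 h).2,
    fun m hm => (h3 σ hσ m hm).2, (h3 σ hσ _ le_rfl).1 (Or.inr hτ), hσj, hσ1⟩

/-- the signs when the path `j` with the sign `+` is split off, given the types of the children -/
theorem odd_path_signsT (hK : Odd K) (j : Fin K) (hj : j ∉ N) {tc : Fin K → ℕ}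
    (hT : FamT Y Adm V P O N tc)
    (hOj : O j = two) (hM : ∀ i ∉ N, i ≠ j → O i = .nil)
    (hcl : (∀ i ∈ N, tau (O i) = 0) ∨ ((∀ i ∈ N, tau (O i) = 1) ∧ Even N.card)) :
    ∃ σ e ρ : Fin K → Bool,
      (Even N.card → ∑ i ∈ N, sg (ρ i) = 0) ∧ (Odd N.card → ∑ i ∈ N, sg (ρ i) = 1) ∧
      (∀ m : ℝ, (N.card : ℝ) ≤ m → FamS O N σ e ρ m 2 1 4 1) ∧
      Inv (fam σ e O) ∧ σ j = true ∧ ∑ i, sg (σ i) = 1 ∧ e j = true := by
  obtain ⟨s, e, ρ, z, hej, h1, h2, h3⟩ := famS_path hT.hO j hj hOj hM hcl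
  obtain ⟨σ, hσ, hσj, hσ1⟩ := ext_odd hK j hj s z (fun h => (h1 h).1) (fun h => (h2 h).1)
  have hτ : tau (fam σ e O) = 1 := by rw [fam_tau]; exact hσ1
  exact ⟨σ, e, ρ, fun h => (h1 h).2, fun h => (h2 h).2,
    fun m hm => (h3 σ hσ m hm).2, (h3 σ hσ _ le_rfl).1 (Or.inr hτ), hσj, hσ1, hej⟩

/-- the signs when the trivial child `j` is split off -/
theorem odd_triv_signs (hK : Odd K) (j : Fin K) (hj : j ∉ N)
    (hN : ∀ i ∈ N, PO Y Adm V P (O i)) (hM : ∀ i ∉ N, O i = .nil ∨ O i = two) :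
    ∃ (σ e ρ : Fin K → Bool) (tc : Fin K → ℕ) (n : ℕ), FamT Y Adm V P O N tc ∧
      n = n1 O % 2 ∧
      (Even N.card → ∑ i ∈ N, sg (ρ i) = 0) ∧ (Odd N.card → ∑ i ∈ N, sg (ρ i) = 1) ∧
      (∀ m : ℝ, (N.card : ℝ) ≤ m → FamS O N σ e ρ m 2 n (16 - 12 * n) (4 - 3 * n)) ∧
      Inv (fam σ e O) ∧ σ j = true ∧ ∑ i, sg (σ i) = 1 := by
  obtain ⟨tc, hT⟩ := famT_exists hN hM
  obtain ⟨s, e, ρ, z, n, hn, h1, h2, h3⟩ := famS_exists hT.hO
  obtain ⟨σ, hσ, hσj, hσ1⟩ := ext_odd hK j hj s z (fun h => (h1 h).1) (fun h => (h2 h).1)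
  have hτ : tau (fam σ e O) = 1 := by rw [fam_tau]; exact hσ1
  exact ⟨σ, e, ρ, tc, n, hT, hn, fun h => (h1 h).2, fun h => (h2 h).2,
    fun m hm => (h3 σ hσ m hm).2, (h3 σ hσ _ le_rfl).1 (Or.inr hτ), hσj, hσ1⟩

/-- the signs when the path `j` with the sign `+` is split off -/
theorem odd_path_signs (hK : Odd K) (j : Fin K) (hj : j ∉ N)
    (hOj : O j = two) (hN : ∀ i ∈ N, PO Y Adm V P (O i)) (hM : ∀ i ∉ N, i ≠ j → O i = .nil)
    (hcl : (∀ i ∈ N, tau (O i) = 0) ∨ ((∀ i ∈ N, tau (O i) = 1) ∧ Even N.card)) :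
    ∃ (σ e ρ : Fin K → Bool) (tc : Fin K → ℕ), FamT Y Adm V P O N tc ∧
      (Even N.card → ∑ i ∈ N, sg (ρ i) = 0) ∧ (Odd N.card → ∑ i ∈ N, sg (ρ i) = 1) ∧
      (∀ m : ℝ, (N.card : ℝ) ≤ m → FamS O N σ e ρ m 2 1 4 1) ∧
      Inv (fam σ e O) ∧ σ j = true ∧ ∑ i, sg (σ i) = 1 ∧ e j = true := by
  have hM' : ∀ i ∉ N, O i = .nil ∨ O i = two := by
    intro i hi
    by_cases h : i = j
    · rw [h]
      exact Or.inr hOj
    · exact Or.inl (hM i hi h)
  obtain ⟨tc, hT⟩ := famT_exists hN hM'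
  obtain ⟨s, e, ρ, z, hej, h1, h2, h3⟩ := famS_path hT.hO j hj hOj hM hcl
  obtain ⟨σ, hσ, hσj, hσ1⟩ := ext_odd hK j hj s z (fun h => (h1 h).1) (fun h => (h2 h).1)
  have hτ : tau (fam σ e O) = 1 := by rw [fam_tau]; exact hσ1
  exact ⟨σ, e, ρ, tc, hT, fun h => (h1 h).2, fun h => (h2 h).2,
    fun m hm => (h3 σ hσ m hm).2, (h3 σ hσ _ le_rfl).1 (Or.inr hτ), hσj, hσ1, hej⟩

end

end Pool.Agent.TSM
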