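import Pool.Agent.TSM.EvenL
import Pool.Agent.TSM.OddL

set_option autoImplicit false

/-!
# The kinds of vertices with at least two nontrivial children (MP_d27362_co)
-/

namespace Pool.Agent.TSM

open Finset Polynomial
open Pool.Agent.TSP
open Pool.Agent.TSO
open Pool.Agent.TSR (OBr Ker)
open Pool.Agent.TLT (sg)
open Pool.Agent.TDN (dn dn_nonneg)

noncomputable section

/-- the index data of the list of children: `N` are the nontrivial ones -/
structure ItD (lf tw : Bool) (m : ℕ) {K : ℕ} (O : Fin K → OBr) (N : Finset (Fin K)) : Prop where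
  hK : K = lf.toNat + tw.toNat + m
  hN : N.card = m
  hM : ∀ i ∉ N, O i = .nil ∨ O i = two
  hl : lf = true → ∃ j ∉ N, O j = .nil
  ht : tw = true → ∃ j ∉ N, O j = two ∧ ∀ i ∉ N, i ≠ j → O i = .nil
  ht' : tw = false → ∀ i ∉ N, O i = .nil

/-- a trivial child in front -/
lemma ItD.cons_nil {m K : ℕ} {O : Fin K → OBr} {N : Finset (Fin K)} {tw : Bool}
    (h : ItD false tw m O N) :
    ItD true tw m (Fin.cons .nil O : Fin (K + 1) → OBr) (N.map (Fin.succEmb K)) := by
  have h0 : (0 : Fin (K + 1)) ∉ N.map (Fin.succEmb K) := by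
    simp [Fin.succ_ne_zero]
  refine ⟨?_, by rw [card_map]; exact h.hN, fun i hi => ?_, fun _ => ⟨0, h0, rfl⟩,
    fun htw => ?_, fun htw i hi => ?_⟩
  · rw [h.hK]
    simp
    omega
  · refine Fin.cases (fun _ => Or.inl rfl) (fun i hi => ?_) i hi
    rw [Fin.cons_succ]
    exact h.hM i fun h1 => hi (mem_map.mpr ⟨i, h1, rfl⟩)
  · obtain ⟨j, hj, hj1, hj2⟩ := h.ht htw
    refine ⟨j.succ, fun h1 => ?_, by rw [Fin.cons_succ]; exact hj1, fun i hi hij => ?_⟩
    · obtain ⟨i, hi, hi2⟩ := mem_map.mp h1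
      have : i = j := Fin.succ_injective _ hi2
      exact hj (this ▸ hi)
    · revert hi hij
      refine Fin.cases (fun _ _ => rfl) (fun i hi hij => ?_) i
      rw [Fin.cons_succ]
      exact hj2 i (fun h1 => hi (mem_map.mpr ⟨i, h1, rfl⟩)) fun h1 => hij (by rw [h1])
  · revert hi
    refine Fin.cases (fun _ => rfl) (fun i hi => ?_) i
    rw [Fin.cons_succ]
    exact h.ht' htw i fun h1 => hi (mem_map.mpr ⟨i, h1, rfl⟩)

lemma ItD.cons_two {m K : ℕ} {O : Fin K → OBr} {N : Finset (Fin K)}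
    (h : ItD false false m O N) :
    ItD false true m (Fin.cons two O : Fin (K + 1) → OBr) (N.map (Fin.succEmb K)) := by
  have h0 : (0 : Fin (K + 1)) ∉ N.map (Fin.succEmb K) := by
    simp [Fin.succ_ne_zero]
  refine ⟨?_, by rw [card_map]; exact h.hN, fun i hi => ?_, fun h1 => by simp at h1,
    fun _ => ⟨0, h0, rfl, fun i hi hi0 => ?_⟩, fun h1 => by simp at h1⟩
  · rw [h.hK]
    simp
    omega
  · refine Fin.cases (fun _ => Or.inr rfl) (fun i hi => ?_) i hi
    rw [Fin.cons_succ]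
    exact h.hM i fun h1 => hi (mem_map.mpr ⟨i, h1, rfl⟩)
  · revert hi hi0
    refine Fin.cases (fun _ h2 => absurd rfl h2) (fun i hi _ => ?_) i
    rw [Fin.cons_succ]
    exact h.ht' rfl i fun h1 => hi (mem_map.mpr ⟨i, h1, rfl⟩)

lemma get_cons_eq (O : OBr) (l : List OBr) :
    (O :: l).get = (Fin.cons O l.get : Fin (l.length + 1) → OBr) := by
  funext i
  refine Fin.cases rfl (fun i => rfl) i

lemma ItD.mem {K : ℕ} {O : Fin K → OBr} {N : Finset (Fin K)} {p : OBr → Prop}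
    (O' : OBr) (h : ∀ i ∈ N, p (O i)) :
    ∀ i ∈ N.map (Fin.succEmb K), p ((Fin.cons O' O : Fin (K + 1) → OBr) i) := by
  intro i hi
  obtain ⟨k, hk, hk2⟩ := mem_map.mp hi
  rw [← hk2]
  exact h k hk

theorem itD_exists (lf tw : Bool) (L : List OBr) (p : OBr → Prop) (hp : ∀ O ∈ L, p O) :
    ∃ N : Finset (Fin (items lf tw L).length), ItD lf tw L.length (items lf tw L).get N ∧
      ∀ i ∈ N, p ((items lf tw L).get i) := by
  have h0 : ItD false false L.length L.get univ := by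
    refine ⟨by simp, by simp, fun i hi => absurd (mem_univ i) hi, fun h => by simp at h,
      fun h => by simp at h, fun _ i hi => absurd (mem_univ i) hi⟩
  have hp0 : ∀ i ∈ (univ : Finset (Fin L.length)), p (L.get i) := fun i _ =>
    hp _ (L.get_mem i)
  have h1 := h0.cons_two
  have hp1 := ItD.mem two hp0
  rw [← get_cons_eq] at h1 hp1
  cases lf <;> cases tw
  · exact ⟨_, h0, hp0⟩
  · exact ⟨_, h1, hp1⟩
  · have h2 := h0.cons_nil
    have hp2 := ItD.mem .nil hp0
    rw [← get_cons_eq] at h2 hp2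
    exact ⟨_, h2, hp2⟩
  · have h2 := h1.cons_nil
    have hp2 := ItD.mem .nil hp1
    rw [← get_cons_eq] at h2 hp2
    exact ⟨_, h2, hp2⟩

/-- the number of children with `τ = 1` among the nontrivial ones -/
def c1 {K : ℕ} (O : Fin K → OBr) (N : Finset (Fin K)) : ℕ :=
  (N.filter fun i => tau (O i) = 1).card

lemma ItD.n1 {lf tw : Bool} {m K : ℕ} {O : Fin K → OBr} {N : Finset (Fin K)}
    (h : ItD lf tw m O N) : n1 O = tw.toNat + c1 O N := by
  classical
  unfold TSM.n1 c1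
  have e1 : (univ.filter fun i => tau (O i) = 1) =
      (N.filter fun i => tau (O i) = 1) ∪ ((univ \ N).filter fun i => tau (O i) = 1) := by
    rw [← filter_union, union_sdiff_of_subset (subset_univ N)]
  have e2 : Disjoint (N.filter fun i => tau (O i) = 1)
      ((univ \ N).filter fun i => tau (O i) = 1) := by
    refine disjoint_filter_filter ?_
    exact disjoint_sdiff
  rw [e1, card_union_of_disjoint e2, add_comm]
  congr 1
  cases htw : tw
  · rw [Bool.toNat_false, card_eq_zero, filter_eq_empty_iff]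
    intro i hi h1
    rw [h.ht' htw i (mem_sdiff.mp hi).2, tau_nil] at h1
    norm_num at h1
  · obtain ⟨j, hj, hj1, hj2⟩ := h.ht htw
    rw [Bool.toNat_true, card_eq_one]
    refine ⟨j, ?_⟩
    ext i
    simp only [mem_filter, mem_sdiff, mem_univ, true_and, mem_singleton]
    constructor
    · rintro ⟨hi, h1⟩
      by_contra h2
      rw [hj2 i hi h2, tau_nil] at h1
      norm_num at h1
    · rintro rfl
      exact ⟨hj, by rw [hj1, tau_two]⟩

/-! ### the obligations -/

variable {Y : Sys} {Adm : ℕ → ℝ → ℝ → ℝ → ℝ → Prop} {V P : ℝ → ℝ → Sn → ℝ} {χ : ℝ → ℝ}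

/-- everything that is known about a family with the label `n` of the new `y` -/
structure FamK (Y : Sys) (Adm : ℕ → ℝ → ℝ → ℝ → ℝ → Prop) (V P : ℝ → ℝ → Sn → ℝ) (lf tw : Bool)
    (m : ℕ) {K : ℕ} (O : Fin K → OBr) (N : Finset (Fin K)) (tc : Fin K → ℕ)
    (σ e ρ : Fin K → Bool) (n : ℕ) : Prop where
  hI : ItD lf tw m O N
  hT : FamT Y Adm V P O N tc
  hn : n = (tw.toNat + c1 O N) % 2
  hρ0 : Even m → ∑ i ∈ N, sg (ρ i) = 0
  hρ1 : Odd m → ∑ i ∈ N, sg (ρ i) = 1
  hInv : Inv (fam σ e O)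
  hS : ∀ M : ℝ, (m : ℝ) ≤ M → FamS O N σ e ρ M 2 n (16 - 12 * n) (4 - 3 * n)

/-- the obligation for one family with an even number of children -/
def EvenO (Y : Sys) (Adm : ℕ → ℝ → ℝ → ℝ → ℝ → Prop) (V P : ℝ → ℝ → Sn → ℝ) (χ : ℝ → ℝ)
    (lf tw : Bool) (m : ℕ) {K : ℕ} (O : Fin K → OBr) (N : Finset (Fin K)) (tc : Fin K → ℕ) :
    Prop :=
  ∀ (σ e ρ : Fin K → Bool) (n : ℕ), FamK Y Adm V P lf tw m O N tc σ e ρ n → ∀ D, RD D →
    EvF2 χ D K (fun a => (UU (fam σ e O)).eval a)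
        (fun a => (YY (fam σ e O)).eval a) (fun a => ∑ i, Vi V N tc O i D a)
        (fun a => V D a ((chd 0 (fam σ e O)).sn a))
        (fun a => P D a ((chd 0 (fam σ e O)).sn a))

/-- the obligation for one family with an odd number of children when there is a trivial child with
the gain `ξ` which can be split off; the type of the new vertex and the rule are chosen -/
def OddO (Y : Sys) (Adm : ℕ → ℝ → ℝ → ℝ → ℝ → Prop) (V P : ℝ → ℝ → Sn → ℝ) (χ : ℝ → ℝ)
    (lf tw : Bool) (m : ℕ) {K : ℕ} (O : Fin K → OBr) (N : Finset (Fin K)) (tc : Fin K → ℕ)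
    (ξ : ℝ) : Prop :=
  ∀ (σ e ρ : Fin K → Bool) (n : ℕ), FamK Y Adm V P lf tw m O N tc σ e ρ n → (ξ = 1 → n = 1) →
    ∃ ty : ℕ, ty ≠ 0 ∧ Adm ty (vU (fam σ e O)) (vY (fam σ e O)) (aU (fam σ e O))
        (aY (fam σ e O)) ∧ OddR V P χ O N tc σ e ξ ty

/-- the obligation for an even number of children -/
def EvenH (Y : Sys) (Adm : ℕ → ℝ → ℝ → ℝ → ℝ → Prop) (V P : ℝ → ℝ → Sn → ℝ) (χ : ℝ → ℝ)
    (lf tw : Bool) (m : ℕ) : Prop :=
  ∀ (K : ℕ) (O : Fin K → OBr) (N : Finset (Fin K)) (tc : Fin K → ℕ),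
    EvenO Y Adm V P χ lf tw m O N tc

/-- the obligation for an odd number of children when there is a trivial child with the gain `ξ`
which can be split off -/
def OddH (Y : Sys) (Adm : ℕ → ℝ → ℝ → ℝ → ℝ → Prop) (V P : ℝ → ℝ → Sn → ℝ) (χ : ℝ → ℝ)
    (lf tw : Bool) (m : ℕ) (ξ : ℝ) : Prop :=
  ∀ (K : ℕ) (O : Fin K → OBr) (N : Finset (Fin K)) (tc : Fin K → ℕ),
    OddO Y Adm V P χ lf tw m O N tc ξ

/-- all nontrivial children have the same `τ` -/
def OneCl (m : ℕ) (c : ℕ) : Prop := c = 0 ∨ c = m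

/-- the obligation for an odd number of children without a leaf, when the path (if there is one)
cannot be split off -/
def RestH (Y : Sys) (Adm : ℕ → ℝ → ℝ → ℝ → ℝ → Prop) (V P : ℝ → ℝ → Sn → ℝ)
    (tw : Bool) (m : ℕ) : Prop :=
  ∀ (K : ℕ) (O : Fin K → OBr) (N : Finset (Fin K)), ItD false tw m O N →
    (∀ i ∈ N, PO Y Adm V P (O i)) → (tw = true → ¬ OneCl m (c1 O N)) →
    ∃ σ e : Fin K → Bool, PO Y Adm V P (fam σ e O)

/-- **the obligation for one kind** in its most general form, the types of the children given -/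
def PoT (Y : Sys) (Adm : ℕ → ℝ → ℝ → ℝ → ℝ → Prop) (V P : ℝ → ℝ → Sn → ℝ)
    (lf tw : Bool) (m : ℕ) : Prop :=
  ∀ (K : ℕ) (O : Fin K → OBr) (N : Finset (Fin K)) (tc : Fin K → ℕ), ItD lf tw m O N →
    FamT Y Adm V P O N tc → ∃ σ e : Fin K → Bool, PO Y Adm V P (fam σ e O)

/-- one family with an even number of children -/
theorem poT_even (hY : Y.G = GoodE χ) (hχ : ∀ D, RD D → 0 ≤ χ D)
    (hAd : ∀ vU vY aU aY, Adm 0 vU vY aU aY) {lf tw : Bool} {m : ℕ}
    (h3 : 3 ≤ lf.toNat + tw.toNat + m) (hev : Even (lf.toNat + tw.toNat + m))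
    {K : ℕ} {O : Fin K → OBr} {N : Finset (Fin K)} {tc : Fin K → ℕ} (hI : ItD lf tw m O N)
    (hT : FamT Y Adm V P O N tc) (H : EvenO Y Adm V P χ lf tw m O N tc) :
    ∃ σ e : Fin K → Bool, PO Y Adm V P (fam σ e O) := by
  have hK := hI.hK
  have hcard := hI.hN
  rw [← hK] at hev
  refine even_stepT hY hχ hev (by omega) hT hAd fun σ e ρ n hn r0 r1 hS hInv D hD => ?_
  refine H σ e ρ n ⟨hI, hT, by rw [hn, hI.n1], by rw [← hcard]; exact r0,
    by rw [← hcard]; exact r1, hInv, fun M hM => hS M ?_⟩ D hD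
  rw [hcard]
  exact hM

/-- one family with a leaf and an odd number of children, the leaf is split off (or the symmetric
rule with the sign `+` of the leaf) -/
theorem poT_leaf (hY : Y.G = GoodE χ) (hχ : ∀ D, RD D → 0 ≤ χ D) {tw : Bool} {m : ℕ}
    (h2 : 2 ≤ m) (hodd : Odd (1 + tw.toNat + m))
    {K : ℕ} {O : Fin K → OBr} {N : Finset (Fin K)} {tc : Fin K → ℕ} (hI : ItD true tw m O N)
    (hT : FamT Y Adm V P O N tc) (H : OddO Y Adm V P χ true tw m O N tc 0) :
    ∃ σ e : Fin K → Bool, PO Y Adm V P (fam σ e O) := by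
  have hK := hI.hK
  have hcard := hI.hN
  rw [Bool.toNat_true] at hK
  rw [← hK] at hodd
  obtain ⟨j, hj, hj1⟩ := hI.hl rfl
  obtain ⟨σ, e, ρ, n, hn, r0, r1, hS, hInv, hσj, hσ1⟩ := odd_triv_signsT hodd j hj hT
  obtain ⟨ty, hty, hA, h4⟩ := H σ e ρ n
    ⟨hI, hT, by rw [hn, hI.n1], by rw [← hcard]; exact r0, by rw [← hcard]; exact r1, hInv,
      fun M hM => hS M (by rw [hcard]; exact hM)⟩ fun h => by norm_num at h
  exact ⟨σ, e, po_R hY hχ (by omega) j hj hI.hM hT hσj hσ1 hInv hty hA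
    (by rw [hj1, xiT_nil]) h4⟩

/-- one family with the path, no leaf and an odd number of children, all nontrivial children have
the same `τ`: the path is split off (or the symmetric rule with its sign `+`) -/
theorem poT_path (hY : Y.G = GoodE χ) (hχ : ∀ D, RD D → 0 ≤ χ D) {m : ℕ}
    (h2 : 2 ≤ m) (hm : Even m)
    {K : ℕ} {O : Fin K → OBr} {N : Finset (Fin K)} {tc : Fin K → ℕ} (hI : ItD false true m O N)
    (hT : FamT Y Adm V P O N tc) (hc : OneCl m (c1 O N))
    (H : OddO Y Adm V P χ false true m O N tc 1) :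
    ∃ σ e : Fin K → Bool, PO Y Adm V P (fam σ e O) := by
  have hK := hI.hK
  have hcard := hI.hN
  have hodd : Odd K := by
    obtain ⟨a, ha⟩ := hm
    refine ⟨a, ?_⟩
    simp only [Bool.toNat_false, Bool.toNat_true] at hK
    omega
  obtain ⟨j, hj, hj1, hj2⟩ := hI.ht rfl
  have hcl : (∀ i ∈ N, tau (O i) = 0) ∨ ((∀ i ∈ N, tau (O i) = 1) ∧ Even N.card) := by
    rcases hc with hc | hc
    · left
      intro i hi
      have h4 : i ∉ N.filter fun i => tau (O i) = 1 := by
        have h5 : (N.filter fun i => tau (O i) = 1) = ∅ := card_eq_zero.mp hc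
        rw [h5]
        simp
      rcases (hT.hO.hI i).1 with h | h
      · exact h
      · exact absurd (mem_filter.mpr ⟨hi, h⟩) h4
    · right
      refine ⟨fun i hi => ?_, by rw [hcard]; exact hm⟩
      have h4 : (N.filter fun i => tau (O i) = 1) = N :=
        eq_of_subset_of_card_le (filter_subset _ _) (by rw [hcard]; exact hc.ge)
      rw [← h4] at hi
      exact (mem_filter.mp hi).2
  have hn1 : (true.toNat + c1 O N) % 2 = 1 := by
    obtain ⟨a, ha⟩ := hm
    rw [Bool.toNat_true]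
    rcases hc with hc | hc <;> omega
  obtain ⟨σ, e, ρ, r0, r1, hS, hInv, hσj, hσ1, hej⟩ :=
    odd_path_signsT hodd j hj hT hj1 hj2 hcl
  obtain ⟨ty, hty, hA, h4⟩ := H σ e ρ 1 ⟨hI, hT, hn1.symm,
    by rw [← hcard]; exact r0, by rw [← hcard]; exact r1, hInv, fun M hM => by
      have h5 := hS M (by rw [hcard]; exact hM)
      have e1 : (16 : ℝ) - 12 * ((1 : ℕ) : ℝ) = 4 := by norm_num
      have e2 : (4 : ℝ) - 3 * ((1 : ℕ) : ℝ) = 1 := by norm_num
      rw [e1, e2, Nat.cast_one]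
      exact h5⟩ fun _ => rfl
  exact ⟨σ, e, po_R hY hχ (by omega) j hj hI.hM hT hσj hσ1 hInv hty hA
    (by rw [hj1, xiT_two, hej, TSR.sg_tt]) h4⟩

/-- **the case distinction in its most general form** -/
theorem big_of_po
    (h : ∀ (lf tw : Bool) (m : ℕ), 2 ≤ m → 3 ≤ lf.toNat + tw.toNat + m → PoT Y Adm V P lf tw m) :
    ∀ (lf tw : Bool) (L : List OBr), 2 ≤ L.length → 3 ≤ (items lf tw L).length →
      (∀ O ∈ L, PO Y Adm V P O) →
      ∃ σ e : Fin (items lf tw L).length → Bool, PO Y Adm V P (fam σ e (items lf tw L).get) := by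
  intro lf tw L h2 h3 hPO
  obtain ⟨N, hI, hN⟩ := itD_exists lf tw L (PO Y Adm V P) hPO
  have hK := hI.hK
  obtain ⟨tc, hT⟩ := famT_exists hN hI.hM
  exact h lf tw L.length h2 (by omega) _ _ N tc hI hT

/-- the children of a family are good -/
lemma FamT.po {K : ℕ} {O : Fin K → OBr} {N : Finset (Fin K)} {tc : Fin K → ℕ}
    (hT : FamT Y Adm V P O N tc) : ∀ i ∈ N, PO Y Adm V P (O i) := by
  intro i hi
  refine ⟨tc i, hT.ht i hi, hT.hO.hI i, hT.hA i hi, ?_⟩
  have h1 := hT.hG i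
  have e1 : Vi V N tc O i = fun D a => V D a ((chd (tc i) (O i)).sn a) := by
    funext D a
    exact Vi_mem V tc O hi D a
  have e2 : Vi P N tc O i = fun D a => P D a ((chd (tc i) (O i)).sn a) := by
    funext D a
    exact Vi_mem P tc O hi D a
  rw [e1, e2] at h1
  exact h1

/-- the simple policy -/
theorem poT_of_kinds (hY : Y.G = GoodE χ) (hχ : ∀ D, RD D → 0 ≤ χ D)
    (hAd : ∀ vU vY aU aY, Adm 0 vU vY aU aY) {lf tw : Bool} {m : ℕ}
    (h2 : 2 ≤ m) (h3 : 3 ≤ lf.toNat + tw.toNat + m)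
    (hE : Even (lf.toNat + tw.toNat + m) → EvenH Y Adm V P χ lf tw m)
    (hL : lf = true → Odd (1 + tw.toNat + m) → OddH Y Adm V P χ true tw m 0)
    (hP : lf = false → tw = true → Even m → OddH Y Adm V P χ false true m 1)
    (hR : lf = false → Odd (tw.toNat + m) → RestH Y Adm V P tw m) :
    PoT Y Adm V P lf tw m := by
  intro K O N tc hI hT
  have hK := hI.hK
  rcases Nat.even_or_odd K with hev | hodd
  · rw [hK] at hev
    exact poT_even hY hχ hAd h3 hev hI hT (hE hev K O N tc)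
  · rw [hK] at hodd
    cases hlf : lf
    · subst hlf
      cases htw : tw
      · subst htw
        exact hR rfl (by simpa using hodd) K O N hI hT.po fun h => by simp at h
      · subst htw
        have hm : Even m := by
          obtain ⟨a, ha⟩ := hodd
          simp only [Bool.toNat_false, Bool.toNat_true] at ha
          exact ⟨a, by omega⟩
        by_cases hc : OneCl m (c1 O N)
        · exact poT_path hY hχ h2 hm hI hT hc (hP rfl rfl hm K O N tc)
        · exact hR rfl (by simpa using hodd) K O N hI hT.po fun _ => hc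
    · subst hlf
      exact poT_leaf hY hχ h2 (by simpa using hodd) hI hT
        (hL rfl (by simpa using hodd) K O N tc)

/-- **the case distinction** -/
theorem big_of_kinds (hY : Y.G = GoodE χ) (hχ : ∀ D, RD D → 0 ≤ χ D)
    (hAd : ∀ vU vY aU aY, Adm 0 vU vY aU aY)
    (hE : ∀ (lf tw : Bool) (m : ℕ), 2 ≤ m → 3 ≤ lf.toNat + tw.toNat + m →
      Even (lf.toNat + tw.toNat + m) → EvenH Y Adm V P χ lf tw m)
    (hL : ∀ (tw : Bool) (m : ℕ), 2 ≤ m → Odd (1 + tw.toNat + m) →
      OddH Y Adm V P χ true tw m 0)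
    (hP : ∀ m : ℕ, 2 ≤ m → Even m → OddH Y Adm V P χ false true m 1)
    (hR : ∀ (tw : Bool) (m : ℕ), 2 ≤ m → Odd (tw.toNat + m) → RestH Y Adm V P tw m) :
    ∀ (lf tw : Bool) (L : List OBr), 2 ≤ L.length → 3 ≤ (items lf tw L).length →
      (∀ O ∈ L, PO Y Adm V P O) →
      ∃ σ e : Fin (items lf tw L).length → Bool, PO Y Adm V P (fam σ e (items lf tw L).get) := by
  exact big_of_po fun lf tw m h2 h3 => poT_of_kinds hY hχ hAd h2 h3 (hE lf tw m h2 h3)
    (fun _ => hL tw m h2) (fun _ _ => hP m h2) (fun _ => hR tw m h2)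

end

end Pool.Agent.TSM
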