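import Pool.Agent.TSM.FamL3
import Pool.Agent.TSM.Kinds

set_option autoImplicit false

/-!
# The step with an odd number of children, a nontrivial child is split off: kinds
(MP_d27362_co)
-/

namespace Pool.Agent.TSM

open Finset Polynomial
open Pool.Agent.TSP
open Pool.Agent.TSO
open Pool.Agent.TSR (OBr Ker)
open Pool.Agent.TLT (sg)
open Pool.Agent.TDN (dn dn_nonneg)

noncomputable section

variable {Y : Sys} {Adm : ℕ → ℝ → ℝ → ℝ → ℝ → Prop} {V P : ℝ → ℝ → Sn → ℝ} {χ : ℝ → ℝ}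
  {K : ℕ} {O : Fin K → OBr} {N : Finset (Fin K)} {L : Fin K} {lf tw : Bool} {m : ℕ}

/-- the orientation chosen by `famL_choice`: `x`, `v` are the values of `L` and of the rest, `u` is
that of the new `U`, `f2`, `f` are the factors of the seminorms of the rest and of the new `U` -/
def Orient (x v u f2 f : ℝ) : Prop :=
  (f = f2 ∧ v ≤ x ∧ x + v ≤ 2 ∧ (u = x - v ∨ u = x + v)) ∨
    (f = 1 + f2 ∧ ((v ≤ x ∧ 2 < x + v ∧ u = x - v) ∨ (x < v ∧ x + v ≤ 2 ∧ u = x + v)))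

/-- everything that is known about a family with the nontrivial child `L` split off; `v` is the
value of the rest, `n` the label of the new `y`, `nL` that of `L` and `nR` that of the rest -/
structure FamLK (Y : Sys) (Adm : ℕ → ℝ → ℝ → ℝ → ℝ → Prop) (V P : ℝ → ℝ → Sn → ℝ)
    (lf tw : Bool) (m : ℕ) {K : ℕ} (O : Fin K → OBr) (N : Finset (Fin K)) (tc : Fin K → ℕ)
    (σ e ρ : Fin K → Bool) (L : Fin K) (n : ℕ) (v f f2 nL nR vm fv : ℝ) : Prop where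
  hI : ItD lf tw m O N
  hT : FamT Y Adm V P O N tc
  hn : n = (tw.toNat + c1 O N) % 2
  hL : L ∈ N
  hρ0 : Even (N.erase L).card → ∑ i ∈ N.erase L, sg (ρ i) = 0
  hρ1 : Odd (N.erase L).card → ∑ i ∈ N.erase L, sg (ρ i) = 1
  hσL : σ L = true
  hσ1 : ∑ i, sg (σ i) = 1
  hv : 0 ≤ v
  hvi : ∃ i ∈ N, i ≠ L ∧ v ≤ vY (O i)
  hvg : (vU (fam σ e O) = vY (O L) + v ∧ (gY2 σ O L).eval q0 = v) ∨
    (vU (fam σ e O) = vY (O L) - v ∧ (gY2 σ O L).eval q0 = -v)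
  hnL : sg (e L) * tau (O L) = nL
  hnR : nL + nR = n
  hInv : Inv (fam σ e O)
  hS : ∀ M kL kR v2m : ℝ, (m : ℝ) ≤ M → 0 ≤ kR → v ^ 2 ≤ v2m →
    vU (fam σ e O) ^ 2 ≤ kL * vY (O L) ^ 2 + kR * v ^ 2 →
    FamL O N σ e ρ L M f f2 n nL nR vm fv v2m kL kR
  hE : LabD O e n vm fv

/-- the child `L` can be split off: there is an orientation of the rest -/
def CanL {K : ℕ} (O : Fin K → OBr) (N : Finset (Fin K)) (L : Fin K) : Prop :=
  L ∈ N ∧ ∀ i ∈ N, i ≠ L → vY (O i) ≤ vY (O L) ∨ vY (O L) + vY (O i) ≤ 2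

/-- the obligation for one family with `L` split off: the type of the new vertex and one of the two
rules for every `D` -/
def LO (Adm : ℕ → ℝ → ℝ → ℝ → ℝ → Prop) (V P : ℝ → ℝ → Sn → ℝ) (χ : ℝ → ℝ) (O : Fin K → OBr)
    (N : Finset (Fin K)) (tc : Fin K → ℕ) (σ e : Fin K → Bool) (L : Fin K) : Prop :=
  ∃ ty : ℕ, ty ≠ 0 ∧ Adm ty (vU (fam σ e O)) (vY (fam σ e O)) (aU (fam σ e O))
    (aY (fam σ e O)) ∧ ∀ D, RD D → LfL V P χ O N tc σ e L ty D ∨ OdT V P χ O N tc σ e ty D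

theorem famLK_exists (hK : Odd K) (hI : ItD lf tw m O N) (h2 : 2 ≤ m) {tc : Fin K → ℕ}
    (hT : FamT Y Adm V P O N tc) {n : ℕ} (hn : n = (tw.toNat + c1 O N) % 2) {e : Fin K → Bool}
    {vm fv : ℝ} (he : LabD O e n vm fv) (hL : CanL O N L) :
    ∃ (σ ρ : Fin K → Bool) (v f f2 nL nR : ℝ), (f2 = 2 ∨ (f2 = 1 ∧ m = 2)) ∧
      Orient (vY (O L)) v (vU (fam σ e O)) f2 f ∧
      FamLK Y Adm V P lf tw m O N tc σ e ρ L n v f f2 nL nR vm fv := by
  classical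
  have hcard := hI.hN
  have hLN := hL.1
  have hc2 : (N.erase L).card + 1 = m := by rw [card_erase_add_one hLN, hcard]
  have hne : (N.erase L).Nonempty := card_pos.mp (by omega)
  -- the largest value of the rest
  obtain ⟨j, hj, hjm⟩ := exists_max_image (N.erase L) (fun i => vY (O i)) hne
  have hjN := mem_of_mem_erase hj
  have hjL := ne_of_mem_erase hj
  obtain ⟨f2, hf2, hf2'⟩ : ∃ f2 : ℝ, (f2 = 2 ∨ (f2 = 1 ∧ (N.erase L).card = 1)) ∧
      (f2 = 2 ∨ (f2 = 1 ∧ m = 2)) := by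
    by_cases h : m = 2
    · exact ⟨1, Or.inr ⟨rfl, by omega⟩, Or.inr ⟨rfl, h⟩⟩
    · exact ⟨2, Or.inl rfl, Or.inl rfl⟩
  obtain ⟨σ, ρ, v, hv0, hvc, hσL, hσ1, r0, r1, hcase⟩ := famL_choice hT.hO hK hLN hf2
    (hT.hO.hI j).2.2.2.1 (fun i hi hiL => hjm i (mem_erase.mpr ⟨hiL, hi⟩)) he rfl
    (show sg (e L) * tau (O L) + (n - sg (e L) * tau (O L)) = n by ring)
  rcases hcase with ⟨_, t1, t2⟩ | ⟨hInv, f, hor, hS⟩
  · exfalso
    rcases hL.2 j hjN hjL with h | h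
    · linarith
    · linarith
  · refine ⟨σ, ρ, v, f, f2, _, _, hf2', hor, hI, hT, hn, hLN, r0, r1, hσL, hσ1, hv0,
      ⟨j, hjN, hjL, hvc⟩, ?_, rfl, ?_, hInv, fun M kL kR v2m hM hk hv hkk =>
      hS M kL kR v2m (by rw [hcard]; exact hM) hk hv hkk, he⟩
    · have e1 : vU (fam σ e O) = vY (O L) + (gY2 σ O L).eval q0 := by
        unfold vU
        rw [U_split e O hσL, eval_add]
        rfl
      rcases hor with ⟨_, _, _, h | h⟩ | ⟨_, ⟨_, _, h⟩ | ⟨_, _, h⟩⟩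
      · exact Or.inr ⟨h, by linarith⟩
      · exact Or.inl ⟨h, by linarith⟩
      · exact Or.inr ⟨h, by linarith⟩
      · exact Or.inl ⟨h, by linarith⟩
    · ring

/-- everything that is known about a family with an odd number of children for the symmetric
rule -/
structure FamSK (Y : Sys) (Adm : ℕ → ℝ → ℝ → ℝ → ℝ → Prop) (V P : ℝ → ℝ → Sn → ℝ)
    (lf tw : Bool) (m : ℕ) {K : ℕ} (O : Fin K → OBr) (N : Finset (Fin K)) (tc : Fin K → ℕ)
    (σ e ρ : Fin K → Bool) (n : ℕ) (f vm fv : ℝ) : Prop where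
  hI : ItD lf tw m O N
  hT : FamT Y Adm V P O N tc
  hn : n = (tw.toNat + c1 O N) % 2
  hρ0 : Even m → ∑ i ∈ N, sg (ρ i) = 0
  hρ1 : Odd m → ∑ i ∈ N, sg (ρ i) = 1
  hσ1 : ∑ i, sg (σ i) = 1
  hf : f = 2 ∨ (f = 3 ∧ N = univ)
  hInv : Inv (fam σ e O)
  hS : ∀ M : ℝ, (m : ℝ) ≤ M → FamS O N σ e ρ M f n vm fv
  hE : LabD O e n vm fv

/-- the signs of the symmetric rule for given labels -/
theorem famSK_exists (hK : Odd K) (hI : ItD lf tw m O N) {tc : Fin K → ℕ}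
    (hT : FamT Y Adm V P O N tc) {n : ℕ} (hn : n = (tw.toNat + c1 O N) % 2) {e : Fin K → Bool}
    {vm fv : ℝ} (he : LabD O e n vm fv) :
    ∃ (σ ρ : Fin K → Bool) (f : ℝ), FamSK Y Adm V P lf tw m O N tc σ e ρ n f vm fv := by
  classical
  have hO := hT.hO
  have hcard := hI.hN
  by_cases hN : N = univ
  · have hc : Odd N.card := by rw [hN, card_univ, Fintype.card_fin]; exact hK
    obtain ⟨s, ρ, h1, h2, h3⟩ := hO.sigO hc
    obtain ⟨g1, g2, g3, g4⟩ := h3 s (fun _ _ => rfl) e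
    have hs1 : ∑ i, sg (s i) = 1 := by rw [← h1, hN]
    refine ⟨s, ρ, 3, hI, hT, hn, fun h => ?_, fun _ => h2, hs1, Or.inr ⟨rfl, hN⟩,
      inv_fam (Or.inr (by rw [fam_tau]; exact hs1)) g1 g2 (he.hY s) he.h0 he.h2, fun M hM =>
      ⟨hO, by rw [hcard]; exact hM, g1, g2, g3, g4, he.hY s, he.hG, he.hG3, he.hGa⟩, he⟩
    rw [← hcard] at h
    exact absurd hc (Nat.not_odd_iff_even.mpr h)
  · obtain ⟨j, hj⟩ : ∃ j, j ∉ N := by
      by_contra h
      push Not at h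
      exact hN (eq_univ_iff_forall.mpr h)
    obtain ⟨s, ρ, z, h1, h2, h3⟩ := hO.sig
    obtain ⟨σ, hσ, hσj, hσ1⟩ := ext_odd hK j hj s z (fun h => (h1 h).1) (fun h => (h2 h).1)
    obtain ⟨g1, g2, g3, g4⟩ := h3 σ hσ e
    exact ⟨σ, ρ, 2, hI, hT, hn, fun h => (h1 (by rw [hcard]; exact h)).2,
      fun h => (h2 (by rw [hcard]; exact h)).2, hσ1, Or.inl rfl,
      inv_fam (Or.inr (by rw [fam_tau]; exact hσ1)) g1 g2 (he.hY σ) he.h0 he.h2, fun M hM =>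
      ⟨hO, by rw [hcard]; exact hM, g1, g2, g3, g4, he.hY σ, he.hG, he.hG3, he.hGa⟩, he⟩

/-- the vertex with an odd number of children, symmetric rule, given signs -/
theorem po_S (hY : Y.G = GoodE χ) (hχ : ∀ D, RD D → 0 ≤ χ D) (hK0 : 0 < K)
    {σ e : Fin K → Bool} {tc : Fin K → ℕ}
    (hT : FamT Y Adm V P O N tc) (hσ1 : ∑ i, sg (σ i) = 1)
    (hInv : Inv (fam σ e O)) {ty : ℕ} (hty : ty ≠ 0)
    (hAd : Adm ty (vU (fam σ e O)) (vY (fam σ e O)) (aU (fam σ e O)) (aY (fam σ e O)))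
    (h4 : ∀ D, RD D → OdT V P χ O N tc σ e ty D) :
    PO Y Adm V P (fam σ e O) := by
  have hτ : tau (fam σ e O) = 1 := by rw [fam_tau]; exact hσ1
  refine ⟨ty, ?_, hInv, hAd, ?_⟩
  · rw [hτ]
    constructor
    · exact fun h => absurd h hty
    · intro h
      norm_num at h
  · have hG := hT.hG
    rw [hY] at hG ⊢
    refine GoodE.odFd hχ hK0 O σ e _ _ hG hσ1 (fun a => (UU (fam σ e O)).eval a)
      (fun a => (YY (fam σ e O)).eval a) (fun a => (FamS.U_eq O σ e a).symm) (fun a => ?_) h4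
    rw [fam_YY, eval_finsetSum]
    exact sum_congr rfl fun i _ => by rw [eval_smul, smul_eq_mul]

end

end Pool.Agent.TSM
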