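import Pool.Agent.TSM.Fam3

set_option autoImplicit false

/-!
# The total inequality of a family with the full norm (MP_d27362_co)
-/

namespace Pool.Agent.TSM

open Finset Polynomial
open Pool.Agent.TSP
open Pool.Agent.TSO
open Pool.Agent.TSR (OBr Ker)
open Pool.Agent.TLT (sg)
open Pool.Agent.TDN (dn dn_nonneg)

noncomputable section

variable {K : ℕ} {O : Fin K → OBr} {N : Finset (Fin K)} {σ e ρ r : Fin K → Bool}
  {m f n vm fv fg : ℝ} {z : Bool}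

/-- the facts about `G` when the flips are chosen with the full norm; `r` are the roles of the
values `v_U` of the children -/
structure NR (O : Fin K → OBr) (e r : Fin K → Bool) (κ : ℝ) : Prop where
  h1 : (gU e O).eval q0 ^ 2 + κ * dn q0 (gU e O) ^ 2 ≤
    ∑ i, vU (O i) ^ 2 + 2 * κ * ∑ i, aU (O i) ^ 2
  h2 : (gU e O).eval q0 ^ 2 + κ * dn q0 (gU e O) ^ 2 ≤
    ∑ i, sg (r i) * vU (O i) ^ 2 + 2 * κ * ∑ i, aU (O i) ^ 2
  h3 : (gU e O).eval q0 ^ 2 + κ * dn q0 (gU e O) ^ 2 ≤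
    2 * ∑ i, sg (r i) * vU (O i) + 2 * κ * ∑ i, aU (O i) ^ 2
  h4 : |(gU e O).eval q0| ≤ ∑ i, sg (r i) * vU (O i)
  h5 : |(gU e O).eval q0| ≤ 4
  h6 : 2 ≤ ∑ i, sg (r i) * vU (O i)

/-- the weights of the splitting of `B G(t)² + q aY²` with the full norm: `w3` is the weight of
the bound without roles, `w4` of the squares with roles, `w5` of the values with roles, `w7` of
`G² ≤ 4 ∑ ± v_U` -/
structure WtN (B q T lam g be m f θ vm fv κ w3 w4 w5 w7 k Kx Kv Ka : ℝ) : Prop where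
  /-- there are splittings -/
  spl : ∃ B1 B2 r1 r2 Z1 Z2 W R : ℝ, 0 ≤ B1 ∧ 0 ≤ B2 ∧ 0 ≤ Z1 ∧ 0 ≤ Z2 ∧ 0 ≤ W ∧ 0 ≤ R ∧
    B ≤ B1 + B2 ∧
    1 < r1 ∧ 1 ≤ (r1 - 1) * (r2 - 1) ∧
    r1 * B2 + g * (q * T ^ 2) ≤ Z1 + Z2 + (w3 + w4 + w5 + w7) ∧ m * B1 ≤ Kx ∧
    vm * Z1 ≤ k ∧ fv * Z2 + w3 ≤ Kv ∧ r2 * B2 ≤ be * q + W ∧
    θ ^ 2 * W + lam * (q * T ^ 2) ≤ R + κ * (w3 + w4 + w5) ∧
    f * R + 2 * κ * (w3 + w4 + w5) ≤ Ka
  hq : 0 ≤ q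
  h3 : 0 ≤ w3
  h4 : 0 ≤ w4
  h5 : 0 ≤ w5
  h7 : 0 ≤ w7

/-- the splitting of `B G(t)² + q aY²` with the full norm -/
theorem WtN.le {B q T lam g be m f θ vm fv κ w3 w4 w5 w7 k Kx Kv Ka : ℝ}
    (h : WtN B q T lam g be m f θ vm fv κ w3 w4 w5 w7 k Kx Kv Ka) (hlam : 0 ≤ lam) (hg : 0 ≤ g)
    (hT : q0 ≤ T) {x v a y S1 S2 S3 P2 P1 : ℝ} (h1 : x ^ 2 ≤ m * S1) (h2 : |x - v| ≤ θ * a)
    (h3 : v ^ 2 ≤ vm) (h4 : v ^ 2 ≤ fv * S2) (h5 : a ^ 2 ≤ f * S3)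
    (h6 : y ^ 2 + be * (x - v) ^ 2 ≤ q0 ^ 2 * (g * v ^ 2 + lam * a ^ 2))
    (n1 : v ^ 2 + κ * a ^ 2 ≤ S2 + 2 * κ * S3) (n2 : v ^ 2 + κ * a ^ 2 ≤ P2 + 2 * κ * S3)
    (n3 : v ^ 2 + κ * a ^ 2 ≤ 2 * P1 + 2 * κ * S3) (n4 : v ^ 2 ≤ 4 * P1)
    (hS1 : 0 ≤ S1) (hS2 : 0 ≤ S2) (hS3 : 0 ≤ S3) :
    B * x ^ 2 + q * y ^ 2 ≤
      k + Kx * S1 + Kv * S2 + Ka * S3 + (w4 * P2 + (2 * w5 + 4 * w7) * P1) := by
  obtain ⟨B1, B2, r1, r2, Z1, Z2, W, R, hB1, hB2, hZ1, hZ2, hW, hR, hB, hr1, hr, hZ, hx, hk, hv,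
    hw, hWR, ha⟩ := h.spl
  have hq := h.hq
  have hT2 : q0 ^ 2 ≤ T ^ 2 := pow_le_pow_left₀ q0_pos.le hT 2
  have e1 : B * x ^ 2 ≤ B1 * x ^ 2 + B2 * x ^ 2 := by
    have := mul_le_mul_of_nonneg_right hB (sq_nonneg x)
    linarith
  have e2 : B1 * x ^ 2 ≤ Kx * S1 := by
    calc B1 * x ^ 2 ≤ B1 * (m * S1) := mul_le_mul_of_nonneg_left h1 hB1
      _ = m * B1 * S1 := by ring
      _ ≤ Kx * S1 := mul_le_mul_of_nonneg_right hx hS1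
  have e3 : B2 * x ^ 2 ≤ r1 * B2 * v ^ 2 + r2 * B2 * (x - v) ^ 2 := by
    have g1 : |x - v| ≤ 1 * |x - v| := by rw [one_mul]
    have g2 := near_sq g1 hr1 hr
    rw [one_pow, one_mul, sq_abs] at g2
    have := mul_le_mul_of_nonneg_left g2 hB2
    linarith
  have e4 : r2 * B2 * (x - v) ^ 2 ≤ be * q * (x - v) ^ 2 + W * (θ ^ 2 * a ^ 2) := by
    have g1 := mul_le_mul_of_nonneg_right hw (sq_nonneg (x - v))
    have g2 : (x - v) ^ 2 ≤ θ ^ 2 * a ^ 2 := by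
      rw [← sq_abs, ← mul_pow]
      exact pow_le_pow_left₀ (abs_nonneg _) h2 2
    have g3 := mul_le_mul_of_nonneg_left g2 hW
    linarith
  have e5 : q * y ^ 2 + be * q * (x - v) ^ 2 ≤
      g * (q * T ^ 2) * v ^ 2 + lam * (q * T ^ 2) * a ^ 2 := by
    have g1 := mul_le_mul_of_nonneg_left h6 hq
    have g2 : q0 ^ 2 * (g * v ^ 2 + lam * a ^ 2) ≤ T ^ 2 * (g * v ^ 2 + lam * a ^ 2) :=
      mul_le_mul_of_nonneg_right hT2 (by positivity)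
    have g3 := mul_le_mul_of_nonneg_left g2 hq
    linarith
  have e6 : (r1 * B2 + g * (q * T ^ 2)) * v ^ 2 ≤
      k + (Kv - w3) * S2 + (w3 + w4 + w5 + w7) * v ^ 2 := by
    have g1 : (r1 * B2 + g * (q * T ^ 2)) * v ^ 2 ≤ (Z1 + Z2 + (w3 + w4 + w5 + w7)) * v ^ 2 :=
      mul_le_mul_of_nonneg_right hZ (sq_nonneg v)
    have g2 : Z1 * v ^ 2 ≤ Z1 * vm := mul_le_mul_of_nonneg_left h3 hZ1
    have g3 : Z2 * v ^ 2 ≤ Z2 * (fv * S2) := mul_le_mul_of_nonneg_left h4 hZ2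
    have g4 : (fv * Z2 + w3) * S2 ≤ Kv * S2 := mul_le_mul_of_nonneg_right hv hS2
    linarith
  have e7 : (θ ^ 2 * W + lam * (q * T ^ 2)) * a ^ 2 ≤
      (Ka - 2 * κ * (w3 + w4 + w5)) * S3 + κ * (w3 + w4 + w5) * a ^ 2 := by
    have g1 : (θ ^ 2 * W + lam * (q * T ^ 2)) * a ^ 2 ≤ (R + κ * (w3 + w4 + w5)) * a ^ 2 :=
      mul_le_mul_of_nonneg_right hWR (sq_nonneg a)
    have g2 : R * a ^ 2 ≤ R * (f * S3) := mul_le_mul_of_nonneg_left h5 hR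
    have g3 : (f * R + 2 * κ * (w3 + w4 + w5)) * S3 ≤ Ka * S3 :=
      mul_le_mul_of_nonneg_right ha hS3
    linarith
  have m3 := mul_le_mul_of_nonneg_left n1 h.h3
  have m4 := mul_le_mul_of_nonneg_left n2 h.h4
  have m5 := mul_le_mul_of_nonneg_left n3 h.h5
  have m7 := mul_le_mul_of_nonneg_left n4 h.h7
  linarith

/-- the part of `G`, with the full norm -/
theorem FamS.leGN (h : FamS O N σ e ρ m f n vm fv fg z) {κN : ℝ} (hr : NR O e r κN)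
    {a T : ℝ} (h0 : 0 ≤ a) (h1 : a ≤ q0)
    (hT : q0 ≤ T) {al B ly q1 q2 lam g be lam1 g1 kl w3 w4 w5 w7 k Kx Kv Ka : ℝ}
    (hC : Cre a lam g be)
    (hC1 : Cre a lam1 g1 0) (hL : CreL kl) (hly : 0 ≤ ly) (hq1 : 0 ≤ q1) (hm0 : 0 ≤ m)
    (hW : WtN B q2 T lam g be m fg (th a) vm fv κN w3 w4 w5 w7 k Kx Kv Ka) :
    al * (gU e O).eval a + B * (gU e O).eval a ^ 2 + ly * aY (fam σ e O) +
      (q1 + q2) * aY (fam σ e O) ^ 2 ≤ k + ∑ i, (al * (sg (e i) * (UU (O i)).eval a) +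
        Kx * (UU (O i)).eval a ^ 2 + (Kv + m * q1 * T ^ 2 * g1) * vU (O i) ^ 2 +
        (Ka + m * q1 * T ^ 2 * lam1) * aU (O i) ^ 2 +
        ly * T * kl * Real.sqrt (vU (O i) ^ 2 + aU (O i) ^ 2)) +
      ∑ i, sg (r i) * (w4 * vU (O i) ^ 2 + (2 * w5 + 4 * w7) * vU (O i)) := by
  have hq := q0_pos
  have hT0 : 0 ≤ T := hq.le.trans hT
  have hT2 : q0 ^ 2 ≤ T ^ 2 := pow_le_pow_left₀ hq.le hT 2
  have hg1 := hC1.g0
  have hlam1 := hC1.lam0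
  have e1 : (gU e O).eval a ^ 2 ≤ m * ∑ i, (UU (O i)).eval a ^ 2 := by
    rw [FamS.G_eq]
    exact sq_sum_le_N N m h.hm _ _ (fun i => sg_sq _) fun i hi => by rw [h.hO.UU0 hi, eval_zero]
  have e6 : aY (fam σ e O) = dn q0 (X * gU e O) := by
    unfold aY
    rw [h.hY, TDN.dn_C_sub]
  have n4 : (gU e O).eval q0 ^ 2 ≤ 4 * ∑ i, sg (r i) * vU (O i) := by
    rw [← sq_abs]
    nlinarith [hr.h4, hr.h5, abs_nonneg ((gU e O).eval q0)]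
  have e3 := hW.le hC.lam0 hC.g0 hT e1 (TDN.abs_sub_le q0 q0_pos (gU e O) a h0 h1) h.hG2 h.hG3
    h.hGa (hC.h (gU e O)) hr.h1 hr.h2 hr.h3 n4 (sum_nonneg fun i _ => sq_nonneg _)
    (sum_nonneg fun i _ => sq_nonneg _) (sum_nonneg fun i _ => sq_nonneg _)
  rw [← e6] at e3
  -- the seminorm of `x`
  have hX : ∀ i, aX (O i) ≤ T * kl * Real.sqrt (vU (O i) ^ 2 + aU (O i) ^ 2) := fun i =>
    (aX_CL hL (O i)).trans (mul_le_mul_of_nonneg_right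
      (mul_le_mul_of_nonneg_right hT hL.kl0) (Real.sqrt_nonneg _))
  have hX0 : ∀ i ∉ N, aX (O i) = 0 := by
    intro i hi
    rcases h.hO.hN i hi with h | h <;> rw [h]
    · exact aX_nil
    · exact aX_two
  have e4 : aY (fam σ e O) ≤ ∑ i, T * kl * Real.sqrt (vU (O i) ^ 2 + aU (O i) ^ 2) :=
    (aY_fam_le σ e O).trans (sum_le_sum fun i _ => hX i)
  have e5 : aY (fam σ e O) ^ 2 ≤ m * (T ^ 2 * ∑ i, (g1 * vU (O i) ^ 2 + lam1 * aU (O i) ^ 2)) := by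
    have g1 : aY (fam σ e O) ^ 2 ≤ (∑ i, 1 * aX (O i)) ^ 2 := by
      simp only [one_mul]
      exact pow_le_pow_left₀ (aY_nonneg _) (aY_fam_le σ e O) 2
    have g2 := sq_sum_le_N N m h.hm (fun _ => (1 : ℝ)) (fun i => aX (O i)) (fun i => by norm_num)
      hX0
    refine g1.trans (g2.trans (mul_le_mul_of_nonneg_left ?_ hm0))
    rw [mul_sum]
    refine sum_le_sum fun i _ => (aX_C hC1 (O i)).trans ?_
    exact mul_le_mul_of_nonneg_right hT2 (by positivity)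
  have e7 := mul_le_mul_of_nonneg_left e4 hly
  have e8 := mul_le_mul_of_nonneg_left e5 hq1
  have e10 : ∑ i, (al * (sg (e i) * (UU (O i)).eval a) +
        Kx * (UU (O i)).eval a ^ 2 + (Kv + m * q1 * T ^ 2 * g1) * vU (O i) ^ 2 +
        (Ka + m * q1 * T ^ 2 * lam1) * aU (O i) ^ 2 +
        ly * T * kl * Real.sqrt (vU (O i) ^ 2 + aU (O i) ^ 2)) =
      al * (gU e O).eval a + Kx * ∑ i, (UU (O i)).eval a ^ 2 + Kv * ∑ i, vU (O i) ^ 2 +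
        Ka * ∑ i, aU (O i) ^ 2 +
        q1 * (m * (T ^ 2 * ∑ i, (g1 * vU (O i) ^ 2 + lam1 * aU (O i) ^ 2))) +
        ly * ∑ i, T * kl * Real.sqrt (vU (O i) ^ 2 + aU (O i) ^ 2) := by
    rw [FamS.G_eq]
    simp only [mul_sum]
    rw [← sum_add_distrib, ← sum_add_distrib, ← sum_add_distrib, ← sum_add_distrib,
      ← sum_add_distrib]
    refine sum_congr rfl fun i _ => ?_
    ring
  have e11 : ∑ i, sg (r i) * (w4 * vU (O i) ^ 2 + (2 * w5 + 4 * w7) * vU (O i)) =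
      w4 * ∑ i, sg (r i) * vU (O i) ^ 2 + (2 * w5 + 4 * w7) * ∑ i, sg (r i) * vU (O i) := by
    rw [mul_sum, mul_sum, ← sum_add_distrib]
    refine sum_congr rfl fun i _ => ?_
    ring
  rw [e10, e11]
  linarith

/-- the splitting of the new state into terms of the children with the full norm; the additional
terms are `± (w4 v_U² + (2 w5 + 4 w7) v_U)` with the roles `r` -/
structure SplN (p : NS) (t m f n vm fv κ : ℝ) (k : CT) (fg κN w4 w57 : ℝ) : Prop where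
  /-- the splitting -/
  ex : ∃ T q1 q2 lam g be lam1 g1 kl w3 w5 w7 kU kG x1 v1 a1 x2 v2 a2 : ℝ, q0 ≤ T ∧ 0 ≤ q1 ∧
    p.qy = q1 + q2 ∧ Cre t lam g be ∧ Cre t lam1 g1 0 ∧ CreL kl ∧
    Wt p.be 0 p.qU m f (th t) 4 1 kU x1 v1 a1 ∧
    WtN (t ^ 2 * p.de) q2 T lam g be m fg (th t) vm fv κN w3 w4 w5 w7 kG x2 v2 a2 ∧
    w57 = 2 * w5 + 4 * w7 ∧
    κ = p.c + kU + kG + p.ga * n + p.de * n ^ 2 + p.dv * n ∧
    k = ⟨p.al, x1, v1, p.lU, a1, -(t * (p.ga + 2 * n * p.de)), x2, v2 + m * q1 * T ^ 2 * g1,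
      a2 + m * q1 * T ^ 2 * lam1, p.ly * T * kl, p.cv, -(q0 * p.dv)⟩
  hlU : 0 ≤ p.lU
  hly : 0 ≤ p.ly
  hm : 0 ≤ m

/-- **the total inequality with the full norm** -/
theorem FamS.totalN (h : FamS O N σ e ρ m f n vm fv fg z) {κN : ℝ} (hr : NR O e r κN)
    {a : ℝ} (h0 : 0 ≤ a) (h1 : a ≤ q0) {p : NS} {κ w4 w57 : ℝ} {k : CT}
    (hs : SplN p a m f n vm fv κ k fg κN w4 w57) (ty : ℕ) (tc : Fin K → ℕ)
    (hz : z = true → k.w2 = 0) :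
    p.ev ((chd ty (fam σ e O)).sn a) ≤
      κ + ∑ i, (k.ev (sg (σ i)) (sg (e i)) (sg (ρ i)) ((chd (tc i) (O i)).sn a) +
        sg (r i) * (w4 * vU (O i) ^ 2 + w57 * vU (O i))) := by
  obtain ⟨T, q1, q2, lam, g, be, lam1, g1, kl, w3, w5, w7, kU, kG, x1, v1, a1, x2, v2, a2, hT,
    hq1, hqy, hC, hC1, hL, hWU, hWG, hw, hκ, hk⟩ := hs.ex
  have hU := h.leU (a := a) h0 h1 (al := p.al) hs.hlU hWU (fun hz' => by
    have h2 := hz hz'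
    rw [hk] at h2
    exact h2)
  have hG := h.leGN hr (a := a) h0 h1 hT (al := -(a * (p.ga + 2 * n * p.de))) hC hC1 hL hs.hly
    hq1 hs.hm hWG
  have eY : (YY (fam σ e O)).eval a = n - a * (gU e O).eval a := by
    rw [h.hY, eval_sub, eval_C, eval_mul, eval_X]
  have evU : vU (fam σ e O) = ∑ i, sg (σ i) * vY (O i) := FamS.U_eq O σ e q0
  have evY : vY (fam σ e O) = n - q0 * ∑ i, sg (e i) * vU (O i) := by
    have e3 := FamS.G_eq O e q0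
    unfold vY
    rw [h.hY, eval_sub, eval_C, eval_mul, eval_X, e3]
    rfl
  have e1 : p.ev ((chd ty (fam σ e O)).sn a) = p.c + p.ga * n + p.de * n ^ 2 + p.dv * n +
      (p.cv * ∑ i, sg (σ i) * vY (O i) + -(q0 * p.dv) * ∑ i, sg (e i) * vU (O i)) +
      (p.al * (UU (fam σ e O)).eval a + p.be * (UU (fam σ e O)).eval a ^ 2 +
        p.lU * aU (fam σ e O) + p.qU * aU (fam σ e O) ^ 2) +
      (-(a * (p.ga + 2 * n * p.de)) * (gU e O).eval a +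
        a ^ 2 * p.de * (gU e O).eval a ^ 2 + p.ly * aY (fam σ e O) +
        (q1 + q2) * aY (fam σ e O) ^ 2) := by
    show p.c + p.al * (UU (fam σ e O)).eval a + p.be * (UU (fam σ e O)).eval a ^ 2 +
      p.ga * (YY (fam σ e O)).eval a + p.de * (YY (fam σ e O)).eval a ^ 2 +
      p.lU * aU (fam σ e O) + p.qU * aU (fam σ e O) ^ 2 + p.ly * aY (fam σ e O) +
      p.qy * aY (fam σ e O) ^ 2 + p.cv * vU (fam σ e O) + p.dv * vY (fam σ e O) = _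
    rw [eY, hqy, evU, evY]
    ring
  have e2 : ∑ i, (k.ev (sg (σ i)) (sg (e i)) (sg (ρ i)) ((chd (tc i) (O i)).sn a) +
        sg (r i) * (w4 * vU (O i) ^ 2 + w57 * vU (O i))) =
      (∑ i, (p.al * (sg (σ i) * (YY (O i)).eval a) +
        x1 * (YY (O i)).eval a ^ 2 + v1 * (sg (ρ i) * vY (O i) ^ 2) + a1 * aY (O i) ^ 2 +
        p.lU * aY (O i))) +
      ∑ i, (-(a * (p.ga + 2 * n * p.de)) * (sg (e i) * (UU (O i)).eval a) +
        x2 * (UU (O i)).eval a ^ 2 + (v2 + m * q1 * T ^ 2 * g1) * vU (O i) ^ 2 +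
        (a2 + m * q1 * T ^ 2 * lam1) * aU (O i) ^ 2 +
        p.ly * T * kl * Real.sqrt (vU (O i) ^ 2 + aU (O i) ^ 2)) +
      (p.cv * ∑ i, sg (σ i) * vY (O i) + -(q0 * p.dv) * ∑ i, sg (e i) * vU (O i)) +
      ∑ i, sg (r i) * (w4 * vU (O i) ^ 2 + (2 * w5 + 4 * w7) * vU (O i)) := by
    rw [mul_sum, mul_sum, ← sum_add_distrib, ← sum_add_distrib, ← sum_add_distrib,
      ← sum_add_distrib]
    refine sum_congr rfl fun i _ => ?_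
    rw [hk, hw]
    unfold CT.ev Chd.sn chd
    dsimp only
    ring
  rw [e1, e2, hκ]
  linarith

end

end Pool.Agent.TSM
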