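import Pool.Agent.TSM.OddDC

set_option autoImplicit false

/-!
# Constants of the odd rule with a constant (MP_d27362_co, helper2)
-/

namespace Pool.Agent.TSM

noncomputable section


theorem exp_up_1_5 : Real.exp (1 / 5) ≤ 122141 / 100000 := by
  have h := Real.exp_bound' (x := 1 / 5) (by norm_num) (by norm_num) (n := 9) (by norm_num)
  simp only [Finset.sum_range_succ, Finset.sum_range_zero, Nat.factorial] at h
  push_cast at h
  refine h.trans ?_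
  norm_num

theorem exp_up_1_3 : Real.exp (1 / 3) ≤ 69781 / 50000 := by
  have h := Real.exp_bound' (x := 1 / 3) (by norm_num) (by norm_num) (n := 9) (by norm_num)
  simp only [Finset.sum_range_succ, Finset.sum_range_zero, Nat.factorial] at h
  push_cast at h
  refine h.trans ?_
  norm_num

theorem exp_up_2_3 : Real.exp (2 / 3) ≤ 97387 / 50000 := by
  have h := Real.exp_bound' (x := 2 / 3) (by norm_num) (by norm_num) (n := 9) (by norm_num)
  simp only [Finset.sum_range_succ, Finset.sum_range_zero, Nat.factorial] at h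
  push_cast at h
  refine h.trans ?_
  norm_num

theorem od_three_d20_a0 (u : ℝ) (h1 : -1 ≤ u) (h2 : u ≤ 0) :
    1 + u + u ^ 2 / 2 + u ^ 3 / 6 + u ^ 4 / 24 ≤
      1 * (1 + u + 111 / 200 * u ^ 2) := by
  obtain ⟨s, hs⟩ : ∃ s, s = u - (-1) := ⟨_, rfl⟩
  obtain ⟨t, ht⟩ : ∃ t, t = 0 - u := ⟨_, rfl⟩
  have hs0 : 0 ≤ s := by linarith
  have ht0 : 0 ≤ t := by linarith
  have h : 0 ≤
      9 / 50 * t ^ 4 + 83 / 300 * s * t ^ 3 + 11 / 200 * s ^ 2 * t ^ 2 := by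
    positivity
  have e :
      9 / 50 * t ^ 4 + 83 / 300 * s * t ^ 3 + 11 / 200 * s ^ 2 * t ^ 2 =
      1 * (1 + u + 111 / 200 * u ^ 2) -
      (1 + u + u ^ 2 / 2 + u ^ 3 / 6 + u ^ 4 / 24) := by
    rw [hs, ht]
    ring
  rw [e] at h
  linarith

theorem od_three_d20_b0 (u : ℝ) (h1 : -2 ≤ u) (h2 : u ≤ -1) :
    36788 / 100000 *
      (1 + (u + 1) + (u + 1) ^ 2 / 2 + (u + 1) ^ 3 / 6 + (u + 1) ^ 4 / 24) ≤
      1 * (1 + u + 111 / 200 * u ^ 2) := by
  obtain ⟨s, hs⟩ : ∃ s, s = u - (-2) := ⟨_, rfl⟩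
  obtain ⟨t, ht⟩ : ∃ t, t = -1 - u := ⟨_, rfl⟩
  have hs0 : 0 ≤ s := by linarith
  have ht0 : 0 ≤ t := by linarith
  have h : 0 ≤
      216409 / 200000 * t ^ 4 + 447833 / 150000 * s * t ^ 3 +
      146371 / 50000 * s ^ 2 * t ^ 2 + 30659 / 25000 * s ^ 3 * t + 2339 / 12500 * s ^ 4 := by
    positivity
  have e :
      216409 / 200000 * t ^ 4 + 447833 / 150000 * s * t ^ 3 +
      146371 / 50000 * s ^ 2 * t ^ 2 + 30659 / 25000 * s ^ 3 * t + 2339 / 12500 * s ^ 4 =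
      1 * (1 + u + 111 / 200 * u ^ 2) -
      (36788 / 100000 *
      (1 + (u + 1) + (u + 1) ^ 2 / 2 + (u + 1) ^ 3 / 6 + (u + 1) ^ 4 / 24)) := by
    rw [hs, ht]
    ring
  rw [e] at h
  linarith

theorem od_three_d20_c0 (u : ℝ) (h1 : -3 ≤ u) (h2 : u ≤ -2) :
    13534 / 100000 *
      (1 + (u + 2) + (u + 2) ^ 2 / 2 + (u + 2) ^ 3 / 6 + (u + 2) ^ 4 / 24) ≤
      1 * (1 + u + 111 / 200 * u ^ 2) := by
  obtain ⟨s, hs⟩ : ∃ s, s = u - (-3) := ⟨_, rfl⟩
  obtain ⟨t, ht⟩ : ∃ t, t = -2 - u := ⟨_, rfl⟩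
  have hs0 : 0 ≤ s := by linarith
  have ht0 : 0 ≤ t := by linarith
  have h : 0 ≤
      1177699 / 400000 * t ^ 4 + 2820563 / 300000 * s * t ^ 3 +
      1106131 / 100000 * s ^ 2 * t ^ 2 + 284699 / 50000 * s ^ 3 * t + 54233 / 50000 * s ^ 4 := by
    positivity
  have e :
      1177699 / 400000 * t ^ 4 + 2820563 / 300000 * s * t ^ 3 +
      1106131 / 100000 * s ^ 2 * t ^ 2 + 284699 / 50000 * s ^ 3 * t + 54233 / 50000 * s ^ 4 =
      1 * (1 + u + 111 / 200 * u ^ 2) -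
      (13534 / 100000 *
      (1 + (u + 2) + (u + 2) ^ 2 / 2 + (u + 2) ^ 3 / 6 + (u + 2) ^ 4 / 24)) := by
    rw [hs, ht]
    ring
  rw [e] at h
  linarith

theorem od_three_d20_d (u : ℝ) (h2 : u ≤ -3) :
    4979 / 100000 ≤
      1 * (1 + u + 111 / 200 * u ^ 2) := by
  obtain ⟨s, hs⟩ : ∃ s, s = -3 - u := ⟨_, rfl⟩
  have hs0 : 0 ≤ s := by linarith
  have h : 0 ≤
      294521 / 100000 + 233 / 100 * s + 111 / 200 * s ^ 2 := by
    positivity
  have e :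
      294521 / 100000 + 233 / 100 * s + 111 / 200 * s ^ 2 =
      1 * (1 + u + 111 / 200 * u ^ 2) -
      (4979 / 100000) := by
    rw [hs]
    ring
  rw [e] at h
  linarith

theorem od_three_d20_e0 (u : ℝ) (h1 : 0 ≤ u) (h2 : u ≤ 1 / 5) :
    1 + u + u ^ 2 / 2 + u ^ 3 / 6 + u ^ 4 / 24 + u ^ 5 / 100 ≤
      1 * (1 + u + 111 / 200 * u ^ 2) := by
  obtain ⟨s, hs⟩ : ∃ s, s = u - (0) := ⟨_, rfl⟩
  obtain ⟨t, ht⟩ : ∃ t, t = 1 / 5 - u := ⟨_, rfl⟩
  have hs0 : 0 ≤ s := by linarith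
  have ht0 : 0 ≤ t := by linarith
  have h : 0 ≤
      55 / 8 * s ^ 2 * t ^ 3 + 395 / 24 * s ^ 3 * t ^ 2 + 145 / 12 * s ^ 4 * t +
      249 / 100 * s ^ 5 := by
    positivity
  have e :
      55 / 8 * s ^ 2 * t ^ 3 + 395 / 24 * s ^ 3 * t ^ 2 + 145 / 12 * s ^ 4 * t +
      249 / 100 * s ^ 5 =
      1 * (1 + u + 111 / 200 * u ^ 2) -
      (1 + u + u ^ 2 / 2 + u ^ 3 / 6 + u ^ 4 / 24 + u ^ 5 / 100) := by
    rw [hs, ht]
    ring
  rw [e] at h
  linarith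

theorem od_three_d20_f0 (u : ℝ) (h1 : 1 / 5 ≤ u) (h2 : u ≤ 1) :
    122141 / 100000 * (1 + (u - 1 / 5) / 3) ^ 3 ≤
      1 * (1 + u + 111 / 200 * u ^ 2) := by
  obtain ⟨s, hs⟩ : ∃ s, s = u - (1 / 5) := ⟨_, rfl⟩
  obtain ⟨t, ht⟩ : ∃ t, t = 1 - u := ⟨_, rfl⟩
  have hs0 : 0 ≤ s := by linarith
  have ht0 : 0 ≤ t := by linarith
  have h : 0 ≤
      79 / 51200 * t ^ 3 + 1421 / 256000 * s * t ^ 2 + 734599 / 3840000 * s ^ 2 * t +
      24547381 / 172800000 * s ^ 3 := by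
    positivity
  have e :
      79 / 51200 * t ^ 3 + 1421 / 256000 * s * t ^ 2 + 734599 / 3840000 * s ^ 2 * t +
      24547381 / 172800000 * s ^ 3 =
      1 * (1 + u + 111 / 200 * u ^ 2) -
      (122141 / 100000 * (1 + (u - 1 / 5) / 3) ^ 3) := by
    rw [hs, ht]
    ring
  rw [e] at h
  linarith

theorem od_three_d20_g0 (u : ℝ) (h1 : 1 ≤ u) (h2 : u ≤ 9 / 2) :
    122141 / 100000 * (1 + (u - 1 / 5) / 3) ^ 3 ≤
      1 * ((1 + (1 / 250 * (u ^ 2 - 1)) +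
      (1 / 250 * (u ^ 2 - 1)) ^ 2 / 2 +
      (1 / 250 * (u ^ 2 - 1)) ^ 3 / 6) *
      (1 + u + 111 / 200 * u ^ 2)) := by
  obtain ⟨s, hs⟩ : ∃ s, s = u - (1) := ⟨_, rfl⟩
  obtain ⟨t, ht⟩ : ∃ t, t = 9 / 2 - u := ⟨_, rfl⟩
  have hs0 : 0 ≤ s := by linarith
  have ht0 : 0 ≤ t := by linarith
  have h : 0 ≤
      196379048 / 60800635546875 * t ^ 8 + 3184671964 / 60800635546875 * s * t ^ 7 +
      2713251638 / 8685805078125 * s ^ 2 * t ^ 6 +
      323495334109 / 361908544921875 * s ^ 3 * t ^ 5 +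
      678604433057 / 482544726562500 * s ^ 4 * t ^ 4 +
      148539457009 / 115810734375000 * s ^ 5 * t ^ 3 +
      23376071912491 / 34743220312500000 * s ^ 6 * t ^ 2 +
      22766131924687 / 121601271093750000 * s ^ 7 * t +
      20753664001627 / 972810168750000000 * s ^ 8 := by
    positivity
  have e :
      196379048 / 60800635546875 * t ^ 8 + 3184671964 / 60800635546875 * s * t ^ 7 +
      2713251638 / 8685805078125 * s ^ 2 * t ^ 6 +
      323495334109 / 361908544921875 * s ^ 3 * t ^ 5 +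
      678604433057 / 482544726562500 * s ^ 4 * t ^ 4 +
      148539457009 / 115810734375000 * s ^ 5 * t ^ 3 +
      23376071912491 / 34743220312500000 * s ^ 6 * t ^ 2 +
      22766131924687 / 121601271093750000 * s ^ 7 * t +
      20753664001627 / 972810168750000000 * s ^ 8 =
      1 * ((1 + (1 / 250 * (u ^ 2 - 1)) +
      (1 / 250 * (u ^ 2 - 1)) ^ 2 / 2 +
      (1 / 250 * (u ^ 2 - 1)) ^ 3 / 6) *
      (1 + u + 111 / 200 * u ^ 2)) -
      (122141 / 100000 * (1 + (u - 1 / 5) / 3) ^ 3) := by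
    rw [hs, ht]
    ring
  rw [e] at h
  linarith

theorem od_three_d20_g1 (u : ℝ) (h1 : 9 / 2 ≤ u) (h2 : u ≤ 25 / 4) :
    122141 / 100000 * (1 + (u - 1 / 5) / 3) ^ 3 ≤
      1 * ((1 + (1 / 250 * (u ^ 2 - 1)) +
      (1 / 250 * (u ^ 2 - 1)) ^ 2 / 2 +
      (1 / 250 * (u ^ 2 - 1)) ^ 3 / 6) *
      (1 + u + 111 / 200 * u ^ 2)) := by
  obtain ⟨s, hs⟩ : ∃ s, s = u - (9 / 2) := ⟨_, rfl⟩
  obtain ⟨t, ht⟩ : ∃ t, t = 25 / 4 - u := ⟨_, rfl⟩
  have hs0 : 0 ≤ s := by linarith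
  have ht0 : 0 ≤ t := by linarith
  have h : 0 ≤
      41507328003254 / 7600079443359375 * t ^ 8 +
      315958880641552 / 7600079443359375 * s * t ^ 7 +
      147124512758024 / 1085725634765625 * s ^ 2 * t ^ 6 +
      89178063158966 / 361908544921875 * s ^ 3 * t ^ 5 +
      131547335886637 / 482544726562500 * s ^ 4 * t ^ 4 +
      67790501448598 / 361908544921875 * s ^ 5 * t ^ 3 +
      338199570273721 / 4342902539062500 * s ^ 6 * t ^ 2 +
      43603008358051 / 2432025421875000 * s ^ 7 * t +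
      68912527405103 / 38912406750000000 * s ^ 8 := by
    positivity
  have e :
      41507328003254 / 7600079443359375 * t ^ 8 +
      315958880641552 / 7600079443359375 * s * t ^ 7 +
      147124512758024 / 1085725634765625 * s ^ 2 * t ^ 6 +
      89178063158966 / 361908544921875 * s ^ 3 * t ^ 5 +
      131547335886637 / 482544726562500 * s ^ 4 * t ^ 4 +
      67790501448598 / 361908544921875 * s ^ 5 * t ^ 3 +
      338199570273721 / 4342902539062500 * s ^ 6 * t ^ 2 +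
      43603008358051 / 2432025421875000 * s ^ 7 * t +
      68912527405103 / 38912406750000000 * s ^ 8 =
      1 * ((1 + (1 / 250 * (u ^ 2 - 1)) +
      (1 / 250 * (u ^ 2 - 1)) ^ 2 / 2 +
      (1 / 250 * (u ^ 2 - 1)) ^ 3 / 6) *
      (1 + u + 111 / 200 * u ^ 2)) -
      (122141 / 100000 * (1 + (u - 1 / 5) / 3) ^ 3) := by
    rw [hs, ht]
    ring
  rw [e] at h
  linarith

theorem od_three_d20_g2 (u : ℝ) (h1 : 25 / 4 ≤ u) (h2 : u ≤ 8) :
    122141 / 100000 * (1 + (u - 1 / 5) / 3) ^ 3 ≤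
      1 * ((1 + (1 / 250 * (u ^ 2 - 1)) +
      (1 / 250 * (u ^ 2 - 1)) ^ 2 / 2 +
      (1 / 250 * (u ^ 2 - 1)) ^ 3 / 6) *
      (1 + u + 111 / 200 * u ^ 2)) := by
  obtain ⟨s, hs⟩ : ∃ s, s = u - (25 / 4) := ⟨_, rfl⟩
  obtain ⟨t, ht⟩ : ∃ t, t = 8 - u := ⟨_, rfl⟩
  have hs0 : 0 ≤ s := by linarith
  have ht0 : 0 ≤ t := by linarith
  have h : 0 ≤
      68912527405103 / 38912406750000000 * t ^ 8 +
      6327379761763 / 608006355468750 * s * t ^ 7 +
      219061907772467 / 8685805078125000 * s ^ 2 * t ^ 6 +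
      37520985612244 / 1085725634765625 * s ^ 3 * t ^ 5 +
      38400453045902 / 1085725634765625 * s ^ 4 * t ^ 4 +
      38314774342048 / 1085725634765625 * s ^ 5 * t ^ 3 +
      1201972050912 / 40212060546875 * s ^ 6 * t ^ 2 +
      4289622424576 / 281484423828125 * s ^ 7 * t + 912884477952 / 281484423828125 * s ^ 8 := by
    positivity
  have e :
      68912527405103 / 38912406750000000 * t ^ 8 +
      6327379761763 / 608006355468750 * s * t ^ 7 +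
      219061907772467 / 8685805078125000 * s ^ 2 * t ^ 6 +
      37520985612244 / 1085725634765625 * s ^ 3 * t ^ 5 +
      38400453045902 / 1085725634765625 * s ^ 4 * t ^ 4 +
      38314774342048 / 1085725634765625 * s ^ 5 * t ^ 3 +
      1201972050912 / 40212060546875 * s ^ 6 * t ^ 2 +
      4289622424576 / 281484423828125 * s ^ 7 * t + 912884477952 / 281484423828125 * s ^ 8 =
      1 * ((1 + (1 / 250 * (u ^ 2 - 1)) +
      (1 / 250 * (u ^ 2 - 1)) ^ 2 / 2 +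
      (1 / 250 * (u ^ 2 - 1)) ^ 3 / 6) *
      (1 + u + 111 / 200 * u ^ 2)) -
      (122141 / 100000 * (1 + (u - 1 / 5) / 3) ^ 3) := by
    rw [hs, ht]
    ring
  rw [e] at h
  linarith

theorem od_three_d20_t (u : ℝ) (h1 : 8 ≤ u) :
    122141 / 100000 * (1 + (u - 1 / 5) / 3) ^ 3 ≤
      1 * ((1 + (1 / 250 * (u ^ 2 - 1)) +
      (1 / 250 * (u ^ 2 - 1)) ^ 2 / 2 +
      (1 / 250 * (u ^ 2 - 1)) ^ 3 / 6) *
      (1 + u + 111 / 200 * u ^ 2)) := by
  obtain ⟨s, hs⟩ : ∃ s, s = u - (8) := ⟨_, rfl⟩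
  have hs0 : 0 ≤ s := by linarith
  have h : 0 ≤
      222872187 / 781250000 + 84080731 / 156250000 * s + 2517355081 / 6250000000 * s ^ 2 +
      3908372929 / 42187500000 * s ^ 3 + 162786473 / 18750000000 * s ^ 4 +
      316267 / 781250000 * s ^ 5 + 97743 / 6250000000 * s ^ 6 + 913 / 2343750000 * s ^ 7 +
      37 / 6250000000 * s ^ 8 := by
    positivity
  have e :
      222872187 / 781250000 + 84080731 / 156250000 * s + 2517355081 / 6250000000 * s ^ 2 +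
      3908372929 / 42187500000 * s ^ 3 + 162786473 / 18750000000 * s ^ 4 +
      316267 / 781250000 * s ^ 5 + 97743 / 6250000000 * s ^ 6 + 913 / 2343750000 * s ^ 7 +
      37 / 6250000000 * s ^ 8 =
      1 * ((1 + (1 / 250 * (u ^ 2 - 1)) +
      (1 / 250 * (u ^ 2 - 1)) ^ 2 / 2 +
      (1 / 250 * (u ^ 2 - 1)) ^ 3 / 6) *
      (1 + u + 111 / 200 * u ^ 2)) -
      (122141 / 100000 * (1 + (u - 1 / 5) / 3) ^ 3) := by
    rw [hs]
    ring
  rw [e] at h
  linarith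

/-- `K = 3`: `(c, μ, P, δ) = (111 / 200, 1 / 250, 1 / 5, 0)` -/
theorem expOd_three_d20 : ExpOd 3 (111 / 200) (1 / 250) (1 / 5) (0) := by
  have hde : 1 ≤ Real.exp (0) := Real.exp_zero.ge
  have hq : ∀ u : ℝ, 0 ≤ 1 + u + 111 / 200 * u ^ 2 := fun u => by
    nlinarith [sq_nonneg (u + 2), sq_nonneg u]
  have hR : ∀ (u x y : ℝ), x ≤ y → y ≤ 1 * (1 + u + 111 / 200 * u ^ 2) →
      x ≤ Real.exp (0) * (1 + u + 111 / 200 * u ^ 2) := fun u x y h1 h2 =>
    (h1.trans h2).trans (mul_le_mul_of_nonneg_right hde (hq u))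
  refine ExpOd.of (by norm_num) (by norm_num) (by norm_num) (by norm_num) (by norm_num) ?_ ?_ ?_
  · intro u h1
    rcases le_total u (-3) with h3 | h3
    · exact hR u _ _ (exp_le_n3 h3) (od_three_d20_d u h3)
    rcases le_total u (-2) with h4 | h4
    · refine hR u _ _ (exp_le_n2 h4) ?_
      exact od_three_d20_c0 u (by linarith) (by linarith)
    rcases le_total u (-1) with h5 | h5
    · refine hR u _ _ (exp_le_n1 h5) ?_
      exact od_three_d20_b0 u (by linarith) (by linarith)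
    rcases le_total u 0 with h6 | h6
    · refine hR u _ _ (exp_le_n0 h6) ?_
      exact od_three_d20_a0 u (by linarith) (by linarith)
    refine hR u _ _ (exp_le_p h6 (by linarith)) ?_
    exact od_three_d20_e0 u (by linarith) (by linarith)
  · intro u h1 h2
    have h4 : 0 ≤ (1 + (u - 1 / 5) / 3) ^ 3 := by
      have : 0 ≤ (u - 1 / 5) / 3 := div_nonneg (by linarith) (by norm_num)
      positivity
    have hE : Real.exp (1 / 5) ≤ 122141 / 100000 := exp_up_1_5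
    push_cast
    refine hR u _ _ (mul_le_mul_of_nonneg_right hE h4) ?_
    exact od_three_d20_f0 u (by linarith) (by linarith)
  · intro u h1
    have h4 : 0 ≤ (1 + (u - 1 / 5) / 3) ^ 3 := by
      have : 0 ≤ (u - 1 / 5) / 3 := div_nonneg (by linarith) (by norm_num)
      positivity
    have hE : Real.exp (1 / 5) ≤ 122141 / 100000 := exp_up_1_5
    have hx : 0 ≤ 1 / 250 * (u ^ 2 - 1) := mul_nonneg (by norm_num) (by nlinarith)
    have h5 := mul_le_mul_of_nonneg_right (taylor3_le_exp _ hx) (hq u)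
    have h6 : 0 ≤ Real.exp (1 / 250 * (u ^ 2 - 1)) * (1 + u + 111 / 200 * u ^ 2) :=
      mul_nonneg (Real.exp_nonneg _) (hq u)
    rw [Real.exp_add, mul_assoc]
    push_cast
    refine ((mul_le_mul_of_nonneg_right hE h4).trans ?_).trans
      ((mul_le_mul_of_nonneg_left h5 (by norm_num : (0 : ℝ) ≤ 1)).trans
        (mul_le_mul_of_nonneg_right hde h6))
    rcases le_total u (9 / 2) with hh | hh
    · exact od_three_d20_g0 u (by linarith) (by linarith)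
    rcases le_total u (25 / 4) with hh | hh
    · exact od_three_d20_g1 u (by linarith) (by linarith)
    rcases le_total u (8) with hh | hh
    · exact od_three_d20_g2 u (by linarith) (by linarith)
    exact od_three_d20_t u (by linarith)

theorem od_three_d21_a0 (u : ℝ) (h1 : -1 ≤ u) (h2 : u ≤ 0) :
    1 + u + u ^ 2 / 2 + u ^ 3 / 6 + u ^ 4 / 24 ≤
      (1 + 1 / 100 + (1 / 100) ^ 2 / 2) * (1 + u + 137 / 250 * u ^ 2) := by
  obtain ⟨s, hs⟩ : ∃ s, s = u - (-1) := ⟨_, rfl⟩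
  obtain ⟨t, ht⟩ : ∃ t, t = 0 - u := ⟨_, rfl⟩
  have hs0 : 0 ≤ s := by linarith
  have ht0 : 0 ≤ t := by linarith
  have h : 0 ≤
      892537 / 5000000 * t ^ 4 + 1063993 / 3750000 * s * t ^ 3 +
      418287 / 5000000 * s ^ 2 * t ^ 2 + 603 / 20000 * s ^ 3 * t + 201 / 20000 * s ^ 4 := by
    positivity
  have e :
      892537 / 5000000 * t ^ 4 + 1063993 / 3750000 * s * t ^ 3 +
      418287 / 5000000 * s ^ 2 * t ^ 2 + 603 / 20000 * s ^ 3 * t + 201 / 20000 * s ^ 4 =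
      (1 + 1 / 100 + (1 / 100) ^ 2 / 2) * (1 + u + 137 / 250 * u ^ 2) -
      (1 + u + u ^ 2 / 2 + u ^ 3 / 6 + u ^ 4 / 24) := by
    rw [hs, ht]
    ring
  rw [e] at h
  linarith

theorem od_three_d21_b0 (u : ℝ) (h1 : -2 ≤ u) (h2 : u ≤ -1) :
    36788 / 100000 *
      (1 + (u + 1) + (u + 1) ^ 2 / 2 + (u + 1) ^ 3 / 6 + (u + 1) ^ 4 / 24) ≤
      (1 + 1 / 100 + (1 / 100) ^ 2 / 2) * (1 + u + 137 / 250 * u ^ 2) := by
  obtain ⟨s, hs⟩ : ∃ s, s = u - (-2) := ⟨_, rfl⟩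
  obtain ⟨t, ht⟩ : ∃ t, t = -1 - u := ⟨_, rfl⟩
  have hs0 : 0 ≤ s := by linarith
  have ht0 : 0 ≤ t := by linarith
  have h : 0 ≤
      5330123 / 5000000 * t ^ 4 + 22031191 / 7500000 * s * t ^ 3 +
      14389331 / 5000000 * s ^ 2 * t ^ 2 + 1509193 / 1250000 * s ^ 3 * t +
      928137 / 5000000 * s ^ 4 := by
    positivity
  have e :
      5330123 / 5000000 * t ^ 4 + 22031191 / 7500000 * s * t ^ 3 +
      14389331 / 5000000 * s ^ 2 * t ^ 2 + 1509193 / 1250000 * s ^ 3 * t +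
      928137 / 5000000 * s ^ 4 =
      (1 + 1 / 100 + (1 / 100) ^ 2 / 2) * (1 + u + 137 / 250 * u ^ 2) -
      (36788 / 100000 *
      (1 + (u + 1) + (u + 1) ^ 2 / 2 + (u + 1) ^ 3 / 6 + (u + 1) ^ 4 / 24)) := by
    rw [hs, ht]
    ring
  rw [e] at h
  linarith

theorem od_three_d21_c0 (u : ℝ) (h1 : -3 ≤ u) (h2 : u ≤ -2) :
    13534 / 100000 *
      (1 + (u + 2) + (u + 2) ^ 2 / 2 + (u + 2) ^ 3 / 6 + (u + 2) ^ 4 / 24) ≤
      (1 + 1 / 100 + (1 / 100) ^ 2 / 2) * (1 + u + 137 / 250 * u ^ 2) := by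
  obtain ⟨s, hs⟩ : ∃ s, s = u - (-3) := ⟨_, rfl⟩
  obtain ⟨t, ht⟩ : ∃ t, t = -2 - u := ⟨_, rfl⟩
  have hs0 : 0 ≤ s := by linarith
  have ht0 : 0 ≤ t := by linarith
  have h : 0 ≤
      29107141 / 10000000 * t ^ 4 + 13930123 / 1500000 * s * t ^ 3 +
      54578169 / 5000000 * s ^ 2 * t ^ 2 + 2806939 / 500000 * s ^ 3 * t +
      2671599 / 2500000 * s ^ 4 := by
    positivity
  have e :
      29107141 / 10000000 * t ^ 4 + 13930123 / 1500000 * s * t ^ 3 +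
      54578169 / 5000000 * s ^ 2 * t ^ 2 + 2806939 / 500000 * s ^ 3 * t +
      2671599 / 2500000 * s ^ 4 =
      (1 + 1 / 100 + (1 / 100) ^ 2 / 2) * (1 + u + 137 / 250 * u ^ 2) -
      (13534 / 100000 *
      (1 + (u + 2) + (u + 2) ^ 2 / 2 + (u + 2) ^ 3 / 6 + (u + 2) ^ 4 / 24)) := by
    rw [hs, ht]
    ring
  rw [e] at h
  linarith

theorem od_three_d21_d (u : ℝ) (h2 : u ≤ -3) :
    4979 / 100000 ≤
      (1 + 1 / 100 + (1 / 100) ^ 2 / 2) * (1 + u + 137 / 250 * u ^ 2) := by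
  obtain ⟨s, hs⟩ : ∃ s, s = -3 - u := ⟨_, rfl⟩
  have hs0 : 0 ≤ s := by linarith
  have h : 0 ≤
      14558383 / 5000000 + 2888743 / 1250000 * s + 2767537 / 5000000 * s ^ 2 := by
    positivity
  have e :
      14558383 / 5000000 + 2888743 / 1250000 * s + 2767537 / 5000000 * s ^ 2 =
      (1 + 1 / 100 + (1 / 100) ^ 2 / 2) * (1 + u + 137 / 250 * u ^ 2) -
      (4979 / 100000) := by
    rw [hs]
    ring
  rw [e] at h
  linarith

theorem od_three_d21_e0 (u : ℝ) (h1 : 0 ≤ u) (h2 : u ≤ 1 / 5) :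
    1 + u + u ^ 2 / 2 + u ^ 3 / 6 + u ^ 4 / 24 + u ^ 5 / 100 ≤
      (1 + 1 / 100 + (1 / 100) ^ 2 / 2) * (1 + u + 137 / 250 * u ^ 2) := by
  obtain ⟨s, hs⟩ : ∃ s, s = u - (0) := ⟨_, rfl⟩
  obtain ⟨t, ht⟩ : ∃ t, t = 1 / 5 - u := ⟨_, rfl⟩
  have hs0 : 0 ≤ s := by linarith
  have ht0 : 0 ≤ t := by linarith
  have h : 0 ≤
      1005 / 32 * t ^ 5 + 2613 / 16 * s * t ^ 4 + 13835037 / 40000 * s ^ 2 * t ^ 3 +
      44117833 / 120000 * s ^ 3 * t ^ 2 + 23241583 / 120000 * s ^ 4 * t +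
      1599637 / 40000 * s ^ 5 := by
    positivity
  have e :
      1005 / 32 * t ^ 5 + 2613 / 16 * s * t ^ 4 + 13835037 / 40000 * s ^ 2 * t ^ 3 +
      44117833 / 120000 * s ^ 3 * t ^ 2 + 23241583 / 120000 * s ^ 4 * t +
      1599637 / 40000 * s ^ 5 =
      (1 + 1 / 100 + (1 / 100) ^ 2 / 2) * (1 + u + 137 / 250 * u ^ 2) -
      (1 + u + u ^ 2 / 2 + u ^ 3 / 6 + u ^ 4 / 24 + u ^ 5 / 100) := by
    rw [hs, ht]
    ring
  rw [e] at h
  linarith

theorem od_three_d21_f0 (u : ℝ) (h1 : 1 / 5 ≤ u) (h2 : u ≤ 1) :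
    122141 / 100000 * (1 + (u - 1 / 5) / 3) ^ 3 ≤
      (1 + 1 / 100 + (1 / 100) ^ 2 / 2) * (1 + u + 137 / 250 * u ^ 2) := by
  obtain ⟨s, hs⟩ : ∃ s, s = u - (1 / 5) := ⟨_, rfl⟩
  obtain ⟨t, ht⟩ : ∃ t, t = 1 - u := ⟨_, rfl⟩
  have hs0 : 0 ≤ s := by linarith
  have ht0 : 0 ≤ t := by linarith
  have h : 0 ≤
      1598787 / 64000000 * t ^ 3 + 5800657 / 64000000 * s * t ^ 2 +
      11108767 / 38400000 * s ^ 2 * t + 61654757 / 345600000 * s ^ 3 := by
    positivity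
  have e :
      1598787 / 64000000 * t ^ 3 + 5800657 / 64000000 * s * t ^ 2 +
      11108767 / 38400000 * s ^ 2 * t + 61654757 / 345600000 * s ^ 3 =
      (1 + 1 / 100 + (1 / 100) ^ 2 / 2) * (1 + u + 137 / 250 * u ^ 2) -
      (122141 / 100000 * (1 + (u - 1 / 5) / 3) ^ 3) := by
    rw [hs, ht]
    ring
  rw [e] at h
  linarith

theorem od_three_d21_g0 (u : ℝ) (h1 : 1 ≤ u) (h2 : u ≤ 9 / 2) :
    122141 / 100000 * (1 + (u - 1 / 5) / 3) ^ 3 ≤
      (1 + 1 / 100 + (1 / 100) ^ 2 / 2) * ((1 + (1 / 250 * (u ^ 2 - 1)) +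
      (1 / 250 * (u ^ 2 - 1)) ^ 2 / 2 +
      (1 / 250 * (u ^ 2 - 1)) ^ 3 / 6) *
      (1 + u + 137 / 250 * u ^ 2)) := by
  obtain ⟨s, hs⟩ : ∃ s, s = u - (1) := ⟨_, rfl⟩
  obtain ⟨t, ht⟩ : ∃ t, t = 9 / 2 - u := ⟨_, rfl⟩
  have hs0 : 0 ≤ s := by linarith
  have ht0 : 0 ≤ t := by linarith
  have h : 0 ≤
      246619028 / 60800635546875 * t ^ 8 + 91369022086 / 1520015888671875 * s * t ^ 7 +
      9299842641184 / 27143140869140625 * s ^ 2 * t ^ 6 +
      2169794953358407 / 2261928405761718750 * s ^ 3 * t ^ 5 +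
      18003820877038319 / 12063618164062500000 * s ^ 4 * t ^ 4 +
      156748476764377 / 115810734375000000 * s ^ 5 * t ^ 3 +
      615389461716271597 / 868580507812500000000 * s ^ 6 * t ^ 2 +
      1199277968981192033 / 6080063554687500000000 * s ^ 7 * t +
      548060843164396609 / 24320254218750000000000 * s ^ 8 := by
    positivity
  have e :
      246619028 / 60800635546875 * t ^ 8 + 91369022086 / 1520015888671875 * s * t ^ 7 +
      9299842641184 / 27143140869140625 * s ^ 2 * t ^ 6 +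
      2169794953358407 / 2261928405761718750 * s ^ 3 * t ^ 5 +
      18003820877038319 / 12063618164062500000 * s ^ 4 * t ^ 4 +
      156748476764377 / 115810734375000000 * s ^ 5 * t ^ 3 +
      615389461716271597 / 868580507812500000000 * s ^ 6 * t ^ 2 +
      1199277968981192033 / 6080063554687500000000 * s ^ 7 * t +
      548060843164396609 / 24320254218750000000000 * s ^ 8 =
      (1 + 1 / 100 + (1 / 100) ^ 2 / 2) * ((1 + (1 / 250 * (u ^ 2 - 1)) +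
      (1 / 250 * (u ^ 2 - 1)) ^ 2 / 2 +
      (1 / 250 * (u ^ 2 - 1)) ^ 3 / 6) *
      (1 + u + 137 / 250 * u ^ 2)) -
      (122141 / 100000 * (1 + (u - 1 / 5) / 3) ^ 3) := by
    rw [hs, ht]
    ring
  rw [e] at h
  linarith

theorem od_three_d21_g1 (u : ℝ) (h1 : 9 / 2 ≤ u) (h2 : u ≤ 25 / 4) :
    122141 / 100000 * (1 + (u - 1 / 5) / 3) ^ 3 ≤
      (1 + 1 / 100 + (1 / 100) ^ 2 / 2) * ((1 + (1 / 250 * (u ^ 2 - 1)) +
      (1 / 250 * (u ^ 2 - 1)) ^ 2 / 2 +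
      (1 / 250 * (u ^ 2 - 1)) ^ 3 / 6) *
      (1 + u + 137 / 250 * u ^ 2)) := by
  obtain ⟨s, hs⟩ : ∃ s, s = u - (9 / 2) := ⟨_, rfl⟩
  obtain ⟨t, ht⟩ : ∃ t, t = 25 / 4 - u := ⟨_, rfl⟩
  have hs0 : 0 ≤ s := by linarith
  have ht0 : 0 ≤ t := by linarith
  have h : 0 ≤
      548060843164396609 / 95000993041992187500 * t ^ 8 +
      2089087090005187621 / 47500496520996093750 * s * t ^ 7 +
      1950103143252264979 / 13571570434570312500 * s ^ 2 * t ^ 6 +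
      2372059034515097747 / 9047713623046875000 * s ^ 3 * t ^ 5 +
      3515431939373422429 / 12063618164062500000 * s ^ 4 * t ^ 4 +
      7292393275672548439 / 36190854492187500000 * s ^ 5 * t ^ 3 +
      18342884992598918939 / 217145126953125000000 * s ^ 6 * t ^ 2 +
      2389818529166684369 / 121601271093750000000 * s ^ 7 * t +
      382056704217487237 / 194562033750000000000 * s ^ 8 := by
    positivity
  have e :
      548060843164396609 / 95000993041992187500 * t ^ 8 +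
      2089087090005187621 / 47500496520996093750 * s * t ^ 7 +
      1950103143252264979 / 13571570434570312500 * s ^ 2 * t ^ 6 +
      2372059034515097747 / 9047713623046875000 * s ^ 3 * t ^ 5 +
      3515431939373422429 / 12063618164062500000 * s ^ 4 * t ^ 4 +
      7292393275672548439 / 36190854492187500000 * s ^ 5 * t ^ 3 +
      18342884992598918939 / 217145126953125000000 * s ^ 6 * t ^ 2 +
      2389818529166684369 / 121601271093750000000 * s ^ 7 * t +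
      382056704217487237 / 194562033750000000000 * s ^ 8 =
      (1 + 1 / 100 + (1 / 100) ^ 2 / 2) * ((1 + (1 / 250 * (u ^ 2 - 1)) +
      (1 / 250 * (u ^ 2 - 1)) ^ 2 / 2 +
      (1 / 250 * (u ^ 2 - 1)) ^ 3 / 6) *
      (1 + u + 137 / 250 * u ^ 2)) -
      (122141 / 100000 * (1 + (u - 1 / 5) / 3) ^ 3) := by
    rw [hs, ht]
    ring
  rw [e] at h
  linarith

theorem od_three_d21_g2 (u : ℝ) (h1 : 25 / 4 ≤ u) (h2 : u ≤ 8) :
    122141 / 100000 * (1 + (u - 1 / 5) / 3) ^ 3 ≤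
      (1 + 1 / 100 + (1 / 100) ^ 2 / 2) * ((1 + (1 / 250 * (u ^ 2 - 1)) +
      (1 / 250 * (u ^ 2 - 1)) ^ 2 / 2 +
      (1 / 250 * (u ^ 2 - 1)) ^ 3 / 6) *
      (1 + u + 137 / 250 * u ^ 2)) := by
  obtain ⟨s, hs⟩ : ∃ s, s = u - (25 / 4) := ⟨_, rfl⟩
  obtain ⟨t, ht⟩ : ∃ t, t = 8 - u := ⟨_, rfl⟩
  have hs0 : 0 ≤ s := by linarith
  have ht0 : 0 ≤ t := by linarith
  have h : 0 ≤
      382056704217487237 / 194562033750000000000 * t ^ 8 +
      1430748513008188001 / 121601271093750000000 * s * t ^ 7 +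
      6354509790617714339 / 217145126953125000000 * s ^ 2 * t ^ 6 +
      1114479123861587473 / 27143140869140625000 * s ^ 3 * t ^ 5 +
      560555850801293467 / 13571570434570312500 * s ^ 4 * t ^ 4 +
      129294911939312402 / 3392892608642578125 * s ^ 5 * t ^ 3 +
      3800084761024988 / 125662689208984375 * s ^ 6 * t ^ 2 +
      13201320293808224 / 879638824462890625 * s ^ 7 * t +
      2787460210955648 / 879638824462890625 * s ^ 8 := by
    positivity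
  have e :
      382056704217487237 / 194562033750000000000 * t ^ 8 +
      1430748513008188001 / 121601271093750000000 * s * t ^ 7 +
      6354509790617714339 / 217145126953125000000 * s ^ 2 * t ^ 6 +
      1114479123861587473 / 27143140869140625000 * s ^ 3 * t ^ 5 +
      560555850801293467 / 13571570434570312500 * s ^ 4 * t ^ 4 +
      129294911939312402 / 3392892608642578125 * s ^ 5 * t ^ 3 +
      3800084761024988 / 125662689208984375 * s ^ 6 * t ^ 2 +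
      13201320293808224 / 879638824462890625 * s ^ 7 * t +
      2787460210955648 / 879638824462890625 * s ^ 8 =
      (1 + 1 / 100 + (1 / 100) ^ 2 / 2) * ((1 + (1 / 250 * (u ^ 2 - 1)) +
      (1 / 250 * (u ^ 2 - 1)) ^ 2 / 2 +
      (1 / 250 * (u ^ 2 - 1)) ^ 3 / 6) *
      (1 + u + 137 / 250 * u ^ 2)) -
      (122141 / 100000 * (1 + (u - 1 / 5) / 3) ^ 3) := by
    rw [hs, ht]
    ring
  rw [e] at h
  linarith

theorem od_three_d21_t (u : ℝ) (h1 : 8 ≤ u) :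
    122141 / 100000 * (1 + (u - 1 / 5) / 3) ^ 3 ≤
      (1 + 1 / 100 + (1 / 100) ^ 2 / 2) * ((1 + (1 / 250 * (u ^ 2 - 1)) +
      (1 / 250 * (u ^ 2 - 1)) ^ 2 / 2 +
      (1 / 250 * (u ^ 2 - 1)) ^ 3 / 6) *
      (1 + u + 137 / 250 * u ^ 2)) := by
  obtain ⟨s, hs⟩ : ∃ s, s = u - (8) := ⟨_, rfl⟩
  have hs0 : 0 ≤ s := by linarith
  have h : 0 ≤
      21777032898091 / 78125000000000 + 8123536958783 / 15625000000000 * s +
      62450189679977 / 156250000000000 * s ^ 2 + 194931439945811 / 2109375000000000 * s ^ 3 +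
      1353956813647 / 156250000000000 * s ^ 4 + 94693056143 / 234375000000000 * s ^ 5 +
      7314640693 / 468750000000000 * s ^ 6 + 30362103 / 78125000000000 * s ^ 7 +
      2767537 / 468750000000000 * s ^ 8 := by
    positivity
  have e :
      21777032898091 / 78125000000000 + 8123536958783 / 15625000000000 * s +
      62450189679977 / 156250000000000 * s ^ 2 + 194931439945811 / 2109375000000000 * s ^ 3 +
      1353956813647 / 156250000000000 * s ^ 4 + 94693056143 / 234375000000000 * s ^ 5 +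
      7314640693 / 468750000000000 * s ^ 6 + 30362103 / 78125000000000 * s ^ 7 +
      2767537 / 468750000000000 * s ^ 8 =
      (1 + 1 / 100 + (1 / 100) ^ 2 / 2) * ((1 + (1 / 250 * (u ^ 2 - 1)) +
      (1 / 250 * (u ^ 2 - 1)) ^ 2 / 2 +
      (1 / 250 * (u ^ 2 - 1)) ^ 3 / 6) *
      (1 + u + 137 / 250 * u ^ 2)) -
      (122141 / 100000 * (1 + (u - 1 / 5) / 3) ^ 3) := by
    rw [hs]
    ring
  rw [e] at h
  linarith

/-- `K = 3`: `(c, μ, P, δ) = (137 / 250, 1 / 250, 1 / 5, 1 / 100)` -/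
theorem expOd_three_d21 : ExpOd 3 (137 / 250) (1 / 250) (1 / 5) (1 / 100) := by
  have hde : (1 + 1 / 100 + (1 / 100) ^ 2 / 2) ≤ Real.exp (1 / 100) := Real.quadratic_le_exp_of_nonneg (by norm_num)
  have hq : ∀ u : ℝ, 0 ≤ 1 + u + 137 / 250 * u ^ 2 := fun u => by
    nlinarith [sq_nonneg (u + 2), sq_nonneg u]
  have hR : ∀ (u x y : ℝ), x ≤ y → y ≤ (1 + 1 / 100 + (1 / 100) ^ 2 / 2) * (1 + u + 137 / 250 * u ^ 2) →
      x ≤ Real.exp (1 / 100) * (1 + u + 137 / 250 * u ^ 2) := fun u x y h1 h2 =>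
    (h1.trans h2).trans (mul_le_mul_of_nonneg_right hde (hq u))
  refine ExpOd.of (by norm_num) (by norm_num) (by norm_num) (by norm_num) (by norm_num) ?_ ?_ ?_
  · intro u h1
    rcases le_total u (-3) with h3 | h3
    · exact hR u _ _ (exp_le_n3 h3) (od_three_d21_d u h3)
    rcases le_total u (-2) with h4 | h4
    · refine hR u _ _ (exp_le_n2 h4) ?_
      exact od_three_d21_c0 u (by linarith) (by linarith)
    rcases le_total u (-1) with h5 | h5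
    · refine hR u _ _ (exp_le_n1 h5) ?_
      exact od_three_d21_b0 u (by linarith) (by linarith)
    rcases le_total u 0 with h6 | h6
    · refine hR u _ _ (exp_le_n0 h6) ?_
      exact od_three_d21_a0 u (by linarith) (by linarith)
    refine hR u _ _ (exp_le_p h6 (by linarith)) ?_
    exact od_three_d21_e0 u (by linarith) (by linarith)
  · intro u h1 h2
    have h4 : 0 ≤ (1 + (u - 1 / 5) / 3) ^ 3 := by
      have : 0 ≤ (u - 1 / 5) / 3 := div_nonneg (by linarith) (by norm_num)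
      positivity
    have hE : Real.exp (1 / 5) ≤ 122141 / 100000 := exp_up_1_5
    push_cast
    refine hR u _ _ (mul_le_mul_of_nonneg_right hE h4) ?_
    exact od_three_d21_f0 u (by linarith) (by linarith)
  · intro u h1
    have h4 : 0 ≤ (1 + (u - 1 / 5) / 3) ^ 3 := by
      have : 0 ≤ (u - 1 / 5) / 3 := div_nonneg (by linarith) (by norm_num)
      positivity
    have hE : Real.exp (1 / 5) ≤ 122141 / 100000 := exp_up_1_5
    have hx : 0 ≤ 1 / 250 * (u ^ 2 - 1) := mul_nonneg (by norm_num) (by nlinarith)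
    have h5 := mul_le_mul_of_nonneg_right (taylor3_le_exp _ hx) (hq u)
    have h6 : 0 ≤ Real.exp (1 / 250 * (u ^ 2 - 1)) * (1 + u + 137 / 250 * u ^ 2) :=
      mul_nonneg (Real.exp_nonneg _) (hq u)
    rw [Real.exp_add, mul_assoc]
    push_cast
    refine ((mul_le_mul_of_nonneg_right hE h4).trans ?_).trans
      ((mul_le_mul_of_nonneg_left h5 (by norm_num : (0 : ℝ) ≤ (1 + 1 / 100 + (1 / 100) ^ 2 / 2))).trans
        (mul_le_mul_of_nonneg_right hde h6))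
    rcases le_total u (9 / 2) with hh | hh
    · exact od_three_d21_g0 u (by linarith) (by linarith)
    rcases le_total u (25 / 4) with hh | hh
    · exact od_three_d21_g1 u (by linarith) (by linarith)
    rcases le_total u (8) with hh | hh
    · exact od_three_d21_g2 u (by linarith) (by linarith)
    exact od_three_d21_t u (by linarith)

theorem od_three_d22_a0 (u : ℝ) (h1 : -1 ≤ u) (h2 : u ≤ 0) :
    1 + u + u ^ 2 / 2 + u ^ 3 / 6 + u ^ 4 / 24 ≤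
      1 * (1 + u + 539 / 1000 * u ^ 2) := by
  obtain ⟨s, hs⟩ : ∃ s, s = u - (-1) := ⟨_, rfl⟩
  obtain ⟨t, ht⟩ : ∃ t, t = 0 - u := ⟨_, rfl⟩
  have hs0 : 0 ≤ s := by linarith
  have ht0 : 0 ≤ t := by linarith
  have h : 0 ≤
      41 / 250 * t ^ 4 + 367 / 1500 * s * t ^ 3 + 39 / 1000 * s ^ 2 * t ^ 2 := by
    positivity
  have e :
      41 / 250 * t ^ 4 + 367 / 1500 * s * t ^ 3 + 39 / 1000 * s ^ 2 * t ^ 2 =
      1 * (1 + u + 539 / 1000 * u ^ 2) -
      (1 + u + u ^ 2 / 2 + u ^ 3 / 6 + u ^ 4 / 24) := by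
    rw [hs, ht]
    ring
  rw [e] at h
  linarith

theorem od_three_d22_b0 (u : ℝ) (h1 : -2 ≤ u) (h2 : u ≤ -1) :
    36788 / 100000 *
      (1 + (u + 1) + (u + 1) ^ 2 / 2 + (u + 1) ^ 3 / 6 + (u + 1) ^ 4 / 24) ≤
      1 * (1 + u + 539 / 1000 * u ^ 2) := by
  obtain ⟨s, hs⟩ : ∃ s, s = u - (-2) := ⟨_, rfl⟩
  obtain ⟨t, ht⟩ : ∃ t, t = -1 - u := ⟨_, rfl⟩
  have hs0 : 0 ≤ s := by linarith
  have ht0 : 0 ≤ t := by linarith
  have h : 0 ≤
      203609 / 200000 * t ^ 4 + 419033 / 150000 * s * t ^ 3 +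
      135971 / 50000 * s ^ 2 * t ^ 2 + 28259 / 25000 * s ^ 3 * t + 2139 / 12500 * s ^ 4 := by
    positivity
  have e :
      203609 / 200000 * t ^ 4 + 419033 / 150000 * s * t ^ 3 +
      135971 / 50000 * s ^ 2 * t ^ 2 + 28259 / 25000 * s ^ 3 * t + 2139 / 12500 * s ^ 4 =
      1 * (1 + u + 539 / 1000 * u ^ 2) -
      (36788 / 100000 *
      (1 + (u + 1) + (u + 1) ^ 2 / 2 + (u + 1) ^ 3 / 6 + (u + 1) ^ 4 / 24)) := by
    rw [hs, ht]
    ring
  rw [e] at h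
  linarith

theorem od_three_d22_c0 (u : ℝ) (h1 : -3 ≤ u) (h2 : u ≤ -2) :
    13534 / 100000 *
      (1 + (u + 2) + (u + 2) ^ 2 / 2 + (u + 2) ^ 3 / 6 + (u + 2) ^ 4 / 24) ≤
      1 * (1 + u + 539 / 1000 * u ^ 2) := by
  obtain ⟨s, hs⟩ : ∃ s, s = u - (-3) := ⟨_, rfl⟩
  obtain ⟨t, ht⟩ : ∃ t, t = -2 - u := ⟨_, rfl⟩
  have hs0 : 0 ≤ s := by linarith
  have ht0 : 0 ≤ t := by linarith
  have h : 0 ≤
      1120099 / 400000 * t ^ 4 + 2676563 / 300000 * s * t ^ 3 +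
      1046931 / 100000 * s ^ 2 * t ^ 2 + 268699 / 50000 * s ^ 3 * t + 51033 / 50000 * s ^ 4 := by
    positivity
  have e :
      1120099 / 400000 * t ^ 4 + 2676563 / 300000 * s * t ^ 3 +
      1046931 / 100000 * s ^ 2 * t ^ 2 + 268699 / 50000 * s ^ 3 * t + 51033 / 50000 * s ^ 4 =
      1 * (1 + u + 539 / 1000 * u ^ 2) -
      (13534 / 100000 *
      (1 + (u + 2) + (u + 2) ^ 2 / 2 + (u + 2) ^ 3 / 6 + (u + 2) ^ 4 / 24)) := by
    rw [hs, ht]
    ring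
  rw [e] at h
  linarith

theorem od_three_d22_d (u : ℝ) (h2 : u ≤ -3) :
    4979 / 100000 ≤
      1 * (1 + u + 539 / 1000 * u ^ 2) := by
  obtain ⟨s, hs⟩ : ∃ s, s = -3 - u := ⟨_, rfl⟩
  have hs0 : 0 ≤ s := by linarith
  have h : 0 ≤
      280121 / 100000 + 1117 / 500 * s + 539 / 1000 * s ^ 2 := by
    positivity
  have e :
      280121 / 100000 + 1117 / 500 * s + 539 / 1000 * s ^ 2 =
      1 * (1 + u + 539 / 1000 * u ^ 2) -
      (4979 / 100000) := by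
    rw [hs]
    ring
  rw [e] at h
  linarith

theorem od_three_d22_e0 (u : ℝ) (h1 : 0 ≤ u) (h2 : u ≤ 1 / 5) :
    1 + u + u ^ 2 / 2 + u ^ 3 / 6 + u ^ 4 / 24 + u ^ 5 / 100 ≤
      1 * (1 + u + 539 / 1000 * u ^ 2) := by
  obtain ⟨s, hs⟩ : ∃ s, s = u - (0) := ⟨_, rfl⟩
  obtain ⟨t, ht⟩ : ∃ t, t = 1 / 5 - u := ⟨_, rfl⟩
  have hs0 : 0 ≤ s := by linarith
  have ht0 : 0 ≤ t := by linarith
  have h : 0 ≤
      39 / 8 * s ^ 2 * t ^ 3 + 251 / 24 * s ^ 3 * t ^ 2 + 73 / 12 * s ^ 4 * t +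
      49 / 100 * s ^ 5 := by
    positivity
  have e :
      39 / 8 * s ^ 2 * t ^ 3 + 251 / 24 * s ^ 3 * t ^ 2 + 73 / 12 * s ^ 4 * t +
      49 / 100 * s ^ 5 =
      1 * (1 + u + 539 / 1000 * u ^ 2) -
      (1 + u + u ^ 2 / 2 + u ^ 3 / 6 + u ^ 4 / 24 + u ^ 5 / 100) := by
    rw [hs, ht]
    ring
  rw [e] at h
  linarith

theorem od_three_d22_f0 (u : ℝ) (h1 : 1 / 5 ≤ u) (h2 : u ≤ 1 / 4) :
    122141 / 100000 * (1 + (u - 1 / 5) / 3) ^ 3 ≤
      1 * (1 + u + 539 / 1000 * u ^ 2) := by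
  obtain ⟨s, hs⟩ : ∃ s, s = u - (1 / 5) := ⟨_, rfl⟩
  obtain ⟨t, ht⟩ : ∃ t, t = 1 / 4 - u := ⟨_, rfl⟩
  have hs0 : 0 ≤ s := by linarith
  have ht0 : 0 ≤ t := by linarith
  have h : 0 ≤
      6 / 5 * t ^ 3 + 319 / 250 * s * t ^ 2 + 23839 / 15000 * s ^ 2 * t +
      3963679 / 2700000 * s ^ 3 := by
    positivity
  have e :
      6 / 5 * t ^ 3 + 319 / 250 * s * t ^ 2 + 23839 / 15000 * s ^ 2 * t +
      3963679 / 2700000 * s ^ 3 =
      1 * (1 + u + 539 / 1000 * u ^ 2) -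
      (122141 / 100000 * (1 + (u - 1 / 5) / 3) ^ 3) := by
    rw [hs, ht]
    ring
  rw [e] at h
  linarith

theorem od_three_d22_f1 (u : ℝ) (h1 : 1 / 4 ≤ u) (h2 : u ≤ 3 / 10) :
    122141 / 100000 * (1 + (u - 1 / 5) / 3) ^ 3 ≤
      1 * (1 + u + 539 / 1000 * u ^ 2) := by
  obtain ⟨s, hs⟩ : ∃ s, s = u - (1 / 4) := ⟨_, rfl⟩
  obtain ⟨t, ht⟩ : ∃ t, t = 3 / 10 - u := ⟨_, rfl⟩
  have hs0 : 0 ≤ s := by linarith
  have ht0 : 0 ≤ t := by linarith
  have h : 0 ≤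
      3963679 / 2700000 * t ^ 3 + 3248509 / 450000 * s * t ^ 2 +
      2820439 / 225000 * s ^ 2 * t + 2274469 / 337500 * s ^ 3 := by
    positivity
  have e :
      3963679 / 2700000 * t ^ 3 + 3248509 / 450000 * s * t ^ 2 +
      2820439 / 225000 * s ^ 2 * t + 2274469 / 337500 * s ^ 3 =
      1 * (1 + u + 539 / 1000 * u ^ 2) -
      (122141 / 100000 * (1 + (u - 1 / 5) / 3) ^ 3) := by
    rw [hs, ht]
    ring
  rw [e] at h
  linarith

theorem od_three_d22_f2 (u : ℝ) (h1 : 3 / 10 ≤ u) (h2 : u ≤ 2 / 5) :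
    122141 / 100000 * (1 + (u - 1 / 5) / 3) ^ 3 ≤
      1 * (1 + u + 539 / 1000 * u ^ 2) := by
  obtain ⟨s, hs⟩ : ∃ s, s = u - (3 / 10) := ⟨_, rfl⟩
  obtain ⟨t, ht⟩ : ∃ t, t = 2 / 5 - u := ⟨_, rfl⟩
  have hs0 : 0 ≤ s := by linarith
  have ht0 : 0 ≤ t := by linarith
  have h : 0 ≤
      2274469 / 2700000 * t ^ 3 + 500371 / 112500 * s * t ^ 2 + 212378 / 28125 * s ^ 2 * t +
      329116 / 84375 * s ^ 3 := by
    positivity
  have e :
      2274469 / 2700000 * t ^ 3 + 500371 / 112500 * s * t ^ 2 + 212378 / 28125 * s ^ 2 * t +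
      329116 / 84375 * s ^ 3 =
      1 * (1 + u + 539 / 1000 * u ^ 2) -
      (122141 / 100000 * (1 + (u - 1 / 5) / 3) ^ 3) := by
    rw [hs, ht]
    ring
  rw [e] at h
  linarith

theorem od_three_d22_f3 (u : ℝ) (h1 : 2 / 5 ≤ u) (h2 : u ≤ 3 / 5) :
    122141 / 100000 * (1 + (u - 1 / 5) / 3) ^ 3 ≤
      1 * (1 + u + 539 / 1000 * u ^ 2) := by
  obtain ⟨s, hs⟩ : ∃ s, s = u - (2 / 5) := ⟨_, rfl⟩
  obtain ⟨t, ht⟩ : ∃ t, t = 3 / 5 - u := ⟨_, rfl⟩
  have hs0 : 0 ≤ s := by linarith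
  have ht0 : 0 ≤ t := by linarith
  have h : 0 ≤
      82279 / 168750 * t ^ 3 + 70324 / 28125 * s * t ^ 2 + 913879 / 225000 * s ^ 2 * t +
      5409767 / 2700000 * s ^ 3 := by
    positivity
  have e :
      82279 / 168750 * t ^ 3 + 70324 / 28125 * s * t ^ 2 + 913879 / 225000 * s ^ 2 * t +
      5409767 / 2700000 * s ^ 3 =
      1 * (1 + u + 539 / 1000 * u ^ 2) -
      (122141 / 100000 * (1 + (u - 1 / 5) / 3) ^ 3) := by
    rw [hs, ht]
    ring
  rw [e] at h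
  linarith

theorem od_three_d22_f4 (u : ℝ) (h1 : 3 / 5 ≤ u) (h2 : u ≤ 1) :
    122141 / 100000 * (1 + (u - 1 / 5) / 3) ^ 3 ≤
      1 * (1 + u + 539 / 1000 * u ^ 2) := by
  obtain ⟨s, hs⟩ : ∃ s, s = u - (3 / 5) := ⟨_, rfl⟩
  obtain ⟨t, ht⟩ : ∃ t, t = 1 - u := ⟨_, rfl⟩
  have hs0 : 0 ≤ s := by linarith
  have ht0 : 0 ≤ t := by linarith
  have h : 0 ≤
      5409767 / 21600000 * t ^ 3 + 8918269 / 7200000 * s * t ^ 2 +
      13823183 / 7200000 * s ^ 2 * t + 19147381 / 21600000 * s ^ 3 := by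
    positivity
  have e :
      5409767 / 21600000 * t ^ 3 + 8918269 / 7200000 * s * t ^ 2 +
      13823183 / 7200000 * s ^ 2 * t + 19147381 / 21600000 * s ^ 3 =
      1 * (1 + u + 539 / 1000 * u ^ 2) -
      (122141 / 100000 * (1 + (u - 1 / 5) / 3) ^ 3) := by
    rw [hs, ht]
    ring
  rw [e] at h
  linarith

theorem od_three_d22_g0 (u : ℝ) (h1 : 1 ≤ u) (h2 : u ≤ 3) :
    122141 / 100000 * (1 + (u - 1 / 5) / 3) ^ 3 ≤
      1 * ((1 + (7 / 1000 * (u ^ 2 - 1)) +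
      (7 / 1000 * (u ^ 2 - 1)) ^ 2 / 2 +
      (7 / 1000 * (u ^ 2 - 1)) ^ 3 / 6) *
      (1 + u + 539 / 1000 * u ^ 2)) := by
  obtain ⟨s, hs⟩ : ∃ s, s = u - (1) := ⟨_, rfl⟩
  obtain ⟨t, ht⟩ : ∃ t, t = 3 - u := ⟨_, rfl⟩
  have hs0 : 0 ≤ s := by linarith
  have ht0 : 0 ≤ t := by linarith
  have h : 0 ≤
      19147381 / 86400000000 * t ^ 8 + 16064723 / 5400000000 * s * t ^ 7 +
      13581722677 / 864000000000 * s ^ 2 * t ^ 6 +
      3135226839631 / 72000000000000 * s ^ 3 * t ^ 5 +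
      53097350657 / 750000000000 * s ^ 4 * t ^ 4 +
      5070948913967 / 72000000000000 * s ^ 5 * t ^ 3 +
      572905842557 / 13500000000000 * s ^ 6 * t ^ 2 +
      772908522577 / 54000000000000 * s ^ 7 * t + 112731833699 / 54000000000000 * s ^ 8 := by
    positivity
  have e :
      19147381 / 86400000000 * t ^ 8 + 16064723 / 5400000000 * s * t ^ 7 +
      13581722677 / 864000000000 * s ^ 2 * t ^ 6 +
      3135226839631 / 72000000000000 * s ^ 3 * t ^ 5 +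
      53097350657 / 750000000000 * s ^ 4 * t ^ 4 +
      5070948913967 / 72000000000000 * s ^ 5 * t ^ 3 +
      572905842557 / 13500000000000 * s ^ 6 * t ^ 2 +
      772908522577 / 54000000000000 * s ^ 7 * t + 112731833699 / 54000000000000 * s ^ 8 =
      1 * ((1 + (7 / 1000 * (u ^ 2 - 1)) +
      (7 / 1000 * (u ^ 2 - 1)) ^ 2 / 2 +
      (7 / 1000 * (u ^ 2 - 1)) ^ 3 / 6) *
      (1 + u + 539 / 1000 * u ^ 2)) -
      (122141 / 100000 * (1 + (u - 1 / 5) / 3) ^ 3) := by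
    rw [hs, ht]
    ring
  rw [e] at h
  linarith

theorem od_three_d22_t (u : ℝ) (h1 : 3 ≤ u) :
    122141 / 100000 * (1 + (u - 1 / 5) / 3) ^ 3 ≤
      1 * ((1 + (7 / 1000 * (u ^ 2 - 1)) +
      (7 / 1000 * (u ^ 2 - 1)) ^ 2 / 2 +
      (7 / 1000 * (u ^ 2 - 1)) ^ 3 / 6) *
      (1 + u + 539 / 1000 * u ^ 2)) := by
  obtain ⟨s, hs⟩ : ∃ s, s = u - (3) := ⟨_, rfl⟩
  have hs0 : 0 ≤ s := by linarith
  have h : 0 ≤
      112731833699 / 210937500000 + 8596409801 / 28125000000 * s +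
      12585018587 / 281250000000 * s ^ 2 + 113728995679 / 6750000000000 * s ^ 3 +
      3071324753 / 500000000000 * s ^ 4 + 318786111 / 1000000000000 * s ^ 5 +
      132813373 / 6000000000000 * s ^ 6 + 298753 / 375000000000 * s ^ 7 +
      184877 / 6000000000000 * s ^ 8 := by
    positivity
  have e :
      112731833699 / 210937500000 + 8596409801 / 28125000000 * s +
      12585018587 / 281250000000 * s ^ 2 + 113728995679 / 6750000000000 * s ^ 3 +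
      3071324753 / 500000000000 * s ^ 4 + 318786111 / 1000000000000 * s ^ 5 +
      132813373 / 6000000000000 * s ^ 6 + 298753 / 375000000000 * s ^ 7 +
      184877 / 6000000000000 * s ^ 8 =
      1 * ((1 + (7 / 1000 * (u ^ 2 - 1)) +
      (7 / 1000 * (u ^ 2 - 1)) ^ 2 / 2 +
      (7 / 1000 * (u ^ 2 - 1)) ^ 3 / 6) *
      (1 + u + 539 / 1000 * u ^ 2)) -
      (122141 / 100000 * (1 + (u - 1 / 5) / 3) ^ 3) := by
    rw [hs]
    ring
  rw [e] at h
  linarith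

/-- `K = 3`: `(c, μ, P, δ) = (539 / 1000, 7 / 1000, 1 / 5, 0)` -/
theorem expOd_three_d22 : ExpOd 3 (539 / 1000) (7 / 1000) (1 / 5) (0) := by
  have hde : 1 ≤ Real.exp (0) := Real.exp_zero.ge
  have hq : ∀ u : ℝ, 0 ≤ 1 + u + 539 / 1000 * u ^ 2 := fun u => by
    nlinarith [sq_nonneg (u + 2), sq_nonneg u]
  have hR : ∀ (u x y : ℝ), x ≤ y → y ≤ 1 * (1 + u + 539 / 1000 * u ^ 2) →
      x ≤ Real.exp (0) * (1 + u + 539 / 1000 * u ^ 2) := fun u x y h1 h2 =>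
    (h1.trans h2).trans (mul_le_mul_of_nonneg_right hde (hq u))
  refine ExpOd.of (by norm_num) (by norm_num) (by norm_num) (by norm_num) (by norm_num) ?_ ?_ ?_
  · intro u h1
    rcases le_total u (-3) with h3 | h3
    · exact hR u _ _ (exp_le_n3 h3) (od_three_d22_d u h3)
    rcases le_total u (-2) with h4 | h4
    · refine hR u _ _ (exp_le_n2 h4) ?_
      exact od_three_d22_c0 u (by linarith) (by linarith)
    rcases le_total u (-1) with h5 | h5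
    · refine hR u _ _ (exp_le_n1 h5) ?_
      exact od_three_d22_b0 u (by linarith) (by linarith)
    rcases le_total u 0 with h6 | h6
    · refine hR u _ _ (exp_le_n0 h6) ?_
      exact od_three_d22_a0 u (by linarith) (by linarith)
    refine hR u _ _ (exp_le_p h6 (by linarith)) ?_
    exact od_three_d22_e0 u (by linarith) (by linarith)
  · intro u h1 h2
    have h4 : 0 ≤ (1 + (u - 1 / 5) / 3) ^ 3 := by
      have : 0 ≤ (u - 1 / 5) / 3 := div_nonneg (by linarith) (by norm_num)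
      positivity
    have hE : Real.exp (1 / 5) ≤ 122141 / 100000 := exp_up_1_5
    push_cast
    refine hR u _ _ (mul_le_mul_of_nonneg_right hE h4) ?_
    rcases le_total u (1 / 4) with hh | hh
    · exact od_three_d22_f0 u (by linarith) (by linarith)
    rcases le_total u (3 / 10) with hh | hh
    · exact od_three_d22_f1 u (by linarith) (by linarith)
    rcases le_total u (2 / 5) with hh | hh
    · exact od_three_d22_f2 u (by linarith) (by linarith)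
    rcases le_total u (3 / 5) with hh | hh
    · exact od_three_d22_f3 u (by linarith) (by linarith)
    exact od_three_d22_f4 u (by linarith) (by linarith)
  · intro u h1
    have h4 : 0 ≤ (1 + (u - 1 / 5) / 3) ^ 3 := by
      have : 0 ≤ (u - 1 / 5) / 3 := div_nonneg (by linarith) (by norm_num)
      positivity
    have hE : Real.exp (1 / 5) ≤ 122141 / 100000 := exp_up_1_5
    have hx : 0 ≤ 7 / 1000 * (u ^ 2 - 1) := mul_nonneg (by norm_num) (by nlinarith)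
    have h5 := mul_le_mul_of_nonneg_right (taylor3_le_exp _ hx) (hq u)
    have h6 : 0 ≤ Real.exp (7 / 1000 * (u ^ 2 - 1)) * (1 + u + 539 / 1000 * u ^ 2) :=
      mul_nonneg (Real.exp_nonneg _) (hq u)
    rw [Real.exp_add, mul_assoc]
    push_cast
    refine ((mul_le_mul_of_nonneg_right hE h4).trans ?_).trans
      ((mul_le_mul_of_nonneg_left h5 (by norm_num : (0 : ℝ) ≤ 1)).trans
        (mul_le_mul_of_nonneg_right hde h6))
    rcases le_total u (3) with hh | hh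
    · exact od_three_d22_g0 u (by linarith) (by linarith)
    exact od_three_d22_t u (by linarith)

theorem od_three_d23_a0 (u : ℝ) (h1 : -1 ≤ u) (h2 : u ≤ 0) :
    1 + u + u ^ 2 / 2 + u ^ 3 / 6 + u ^ 4 / 24 ≤
      (1 + 1 / 200 + (1 / 200) ^ 2 / 2) * (1 + u + 243 / 500 * u ^ 2) := by
  obtain ⟨s, hs⟩ : ∃ s, s = u - (-1) := ⟨_, rfl⟩
  obtain ⟨t, ht⟩ : ∃ t, t = 0 - u := ⟨_, rfl⟩
  have hs0 : 0 ≤ s := by linarith
  have ht0 : 0 ≤ t := by linarith
  have h : 0 ≤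
      4537443 / 40000000 * t ^ 4 + 8913079 / 60000000 * s * t ^ 3 +
      138943 / 40000000 * s ^ 2 * t ^ 2 + 1203 / 80000 * s ^ 3 * t + 401 / 80000 * s ^ 4 := by
    positivity
  have e :
      4537443 / 40000000 * t ^ 4 + 8913079 / 60000000 * s * t ^ 3 +
      138943 / 40000000 * s ^ 2 * t ^ 2 + 1203 / 80000 * s ^ 3 * t + 401 / 80000 * s ^ 4 =
      (1 + 1 / 200 + (1 / 200) ^ 2 / 2) * (1 + u + 243 / 500 * u ^ 2) -
      (1 + u + u ^ 2 / 2 + u ^ 3 / 6 + u ^ 4 / 24) := by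
    rw [hs, ht]
    ring
  rw [e] at h
  linarith

theorem od_three_d23_b0 (u : ℝ) (h1 : -2 ≤ u) (h2 : u ≤ -1) :
    36788 / 100000 *
      (1 + (u + 1) + (u + 1) ^ 2 / 2 + (u + 1) ^ 3 / 6 + (u + 1) ^ 4 / 24) ≤
      (1 + 1 / 200 + (1 / 200) ^ 2 / 2) * (1 + u + 243 / 500 * u ^ 2) := by
  obtain ⟨s, hs⟩ : ∃ s, s = u - (-2) := ⟨_, rfl⟩
  obtain ⟨t, ht⟩ : ∃ t, t = -1 - u := ⟨_, rfl⟩
  have hs0 : 0 ≤ s := by linarith
  have ht0 : 0 ≤ t := by linarith
  have h : 0 ≤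
      1013471 / 1250000 * t ^ 4 + 32576231 / 15000000 * s * t ^ 3 +
      81882059 / 40000000 * s ^ 2 * t ^ 2 + 16439279 / 20000000 * s ^ 3 * t +
      4822243 / 40000000 * s ^ 4 := by
    positivity
  have e :
      1013471 / 1250000 * t ^ 4 + 32576231 / 15000000 * s * t ^ 3 +
      81882059 / 40000000 * s ^ 2 * t ^ 2 + 16439279 / 20000000 * s ^ 3 * t +
      4822243 / 40000000 * s ^ 4 =
      (1 + 1 / 200 + (1 / 200) ^ 2 / 2) * (1 + u + 243 / 500 * u ^ 2) -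
      (36788 / 100000 *
      (1 + (u + 1) + (u + 1) ^ 2 / 2 + (u + 1) ^ 3 / 6 + (u + 1) ^ 4 / 24)) := by
    rw [hs, ht]
    ring
  rw [e] at h
  linarith

theorem od_three_d23_c0 (u : ℝ) (h1 : -3 ≤ u) (h2 : u ≤ -2) :
    13534 / 100000 *
      (1 + (u + 2) + (u + 2) ^ 2 / 2 + (u + 2) ^ 3 / 6 + (u + 2) ^ 4 / 24) ≤
      (1 + 1 / 200 + (1 / 200) ^ 2 / 2) * (1 + u + 243 / 500 * u ^ 2) := by
  obtain ⟨s, hs⟩ : ∃ s, s = u - (-3) := ⟨_, rfl⟩
  obtain ⟨t, ht⟩ : ∃ t, t = -2 - u := ⟨_, rfl⟩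
  have hs0 : 0 ≤ s := by linarith
  have ht0 : 0 ≤ t := by linarith
  have h : 0 ≤
      93405887 / 40000000 * t ^ 4 + 88438457 / 12000000 * s * t ^ 3 +
      342133291 / 40000000 * s ^ 2 * t ^ 2 + 4337639 / 1000000 * s ^ 3 * t +
      4066959 / 5000000 * s ^ 4 := by
    positivity
  have e :
      93405887 / 40000000 * t ^ 4 + 88438457 / 12000000 * s * t ^ 3 +
      342133291 / 40000000 * s ^ 2 * t ^ 2 + 4337639 / 1000000 * s ^ 3 * t +
      4066959 / 5000000 * s ^ 4 =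
      (1 + 1 / 200 + (1 / 200) ^ 2 / 2) * (1 + u + 243 / 500 * u ^ 2) -
      (13534 / 100000 *
      (1 + (u + 2) + (u + 2) ^ 2 / 2 + (u + 2) ^ 3 / 6 + (u + 2) ^ 4 / 24)) := by
    rw [hs, ht]
    ring
  rw [e] at h
  linarith

theorem od_three_d23_d (u : ℝ) (h2 : u ≤ -3) :
    4979 / 100000 ≤
      (1 + 1 / 200 + (1 / 200) ^ 2 / 2) * (1 + u + 243 / 500 * u ^ 2) := by
  obtain ⟨s, hs⟩ : ∃ s, s = -3 - u := ⟨_, rfl⟩
  have hs0 : 0 ≤ s := by linarith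
  have h : 0 ≤
      93444387 / 40000000 + 38512079 / 20000000 * s + 19537443 / 40000000 * s ^ 2 := by
    positivity
  have e :
      93444387 / 40000000 + 38512079 / 20000000 * s + 19537443 / 40000000 * s ^ 2 =
      (1 + 1 / 200 + (1 / 200) ^ 2 / 2) * (1 + u + 243 / 500 * u ^ 2) -
      (4979 / 100000) := by
    rw [hs]
    ring
  rw [e] at h
  linarith

theorem od_three_d23_e0 (u : ℝ) (h1 : 0 ≤ u) (h2 : u ≤ 1 / 5) :
    1 + u + u ^ 2 / 2 + u ^ 3 / 6 + u ^ 4 / 24 + u ^ 5 / 100 ≤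
      (1 + 1 / 200 + (1 / 200) ^ 2 / 2) * (1 + u + 243 / 500 * u ^ 2) := by
  obtain ⟨s, hs⟩ : ∃ s, s = u - (0) := ⟨_, rfl⟩
  obtain ⟨t, ht⟩ : ∃ t, t = 1 / 5 - u := ⟨_, rfl⟩
  have hs0 : 0 ≤ s := by linarith
  have ht0 : 0 ≤ t := by linarith
  have h : 0 ≤
      2005 / 128 * t ^ 5 + 5213 / 64 * s * t ^ 4 + 53672443 / 320000 * s ^ 2 * t ^ 3 +
      160256987 / 960000 * s ^ 3 * t ^ 2 + 74854487 / 960000 * s ^ 4 * t +
      4149243 / 320000 * s ^ 5 := by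
    positivity
  have e :
      2005 / 128 * t ^ 5 + 5213 / 64 * s * t ^ 4 + 53672443 / 320000 * s ^ 2 * t ^ 3 +
      160256987 / 960000 * s ^ 3 * t ^ 2 + 74854487 / 960000 * s ^ 4 * t +
      4149243 / 320000 * s ^ 5 =
      (1 + 1 / 200 + (1 / 200) ^ 2 / 2) * (1 + u + 243 / 500 * u ^ 2) -
      (1 + u + u ^ 2 / 2 + u ^ 3 / 6 + u ^ 4 / 24 + u ^ 5 / 100) := by
    rw [hs, ht]
    ring
  rw [e] at h
  linarith

theorem od_three_d23_f0 (u : ℝ) (h1 : 1 / 5 ≤ u) (h2 : u ≤ 3 / 5) :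
    122141 / 100000 * (1 + (u - 1 / 5) / 3) ^ 3 ≤
      (1 + 1 / 200 + (1 / 200) ^ 2 / 2) * (1 + u + 243 / 500 * u ^ 2) := by
  obtain ⟨s, hs⟩ : ∃ s, s = u - (1 / 5) := ⟨_, rfl⟩
  obtain ⟨t, ht⟩ : ∃ t, t = 3 / 5 - u := ⟨_, rfl⟩
  have hs0 : 0 ≤ s := by linarith
  have ht0 : 0 ≤ t := by linarith
  have h : 0 ≤
      4142443 / 64000000 * t ^ 3 + 4018101 / 64000000 * s * t ^ 2 +
      5170067 / 38400000 * s ^ 2 * t + 157840009 / 1728000000 * s ^ 3 := by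
    positivity
  have e :
      4142443 / 64000000 * t ^ 3 + 4018101 / 64000000 * s * t ^ 2 +
      5170067 / 38400000 * s ^ 2 * t + 157840009 / 1728000000 * s ^ 3 =
      (1 + 1 / 200 + (1 / 200) ^ 2 / 2) * (1 + u + 243 / 500 * u ^ 2) -
      (122141 / 100000 * (1 + (u - 1 / 5) / 3) ^ 3) := by
    rw [hs, ht]
    ring
  rw [e] at h
  linarith

theorem od_three_d23_f1 (u : ℝ) (h1 : 3 / 5 ≤ u) (h2 : u ≤ 1) :
    122141 / 100000 * (1 + (u - 1 / 5) / 3) ^ 3 ≤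
      (1 + 1 / 200 + (1 / 200) ^ 2 / 2) * (1 + u + 243 / 500 * u ^ 2) := by
  obtain ⟨s, hs⟩ : ∃ s, s = u - (3 / 5) := ⟨_, rfl⟩
  obtain ⟨t, ht⟩ : ∃ t, t = 1 - u := ⟨_, rfl⟩
  have hs0 : 0 ≤ s := by linarith
  have ht0 : 0 ≤ t := by linarith
  have h : 0 ≤
      157840009 / 1728000000 * t ^ 3 + 238129013 / 576000000 * s * t ^ 2 +
      14292757 / 23040000 * s ^ 2 * t + 87447901 / 345600000 * s ^ 3 := by
    positivity
  have e :
      157840009 / 1728000000 * t ^ 3 + 238129013 / 576000000 * s * t ^ 2 +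
      14292757 / 23040000 * s ^ 2 * t + 87447901 / 345600000 * s ^ 3 =
      (1 + 1 / 200 + (1 / 200) ^ 2 / 2) * (1 + u + 243 / 500 * u ^ 2) -
      (122141 / 100000 * (1 + (u - 1 / 5) / 3) ^ 3) := by
    rw [hs, ht]
    ring
  rw [e] at h
  linarith

theorem od_three_d23_g0 (u : ℝ) (h1 : 1 ≤ u) (h2 : u ≤ 5) :
    122141 / 100000 * (1 + (u - 1 / 5) / 3) ^ 3 ≤
      (1 + 1 / 200 + (1 / 200) ^ 2 / 2) * ((1 + (7 / 1000 * (u ^ 2 - 1)) +
      (7 / 1000 * (u ^ 2 - 1)) ^ 2 / 2 +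
      (7 / 1000 * (u ^ 2 - 1)) ^ 3 / 6) *
      (1 + u + 243 / 500 * u ^ 2)) := by
  obtain ⟨s, hs⟩ : ∃ s, s = u - (1) := ⟨_, rfl⟩
  obtain ⟨t, ht⟩ : ∃ t, t = 5 - u := ⟨_, rfl⟩
  have hs0 : 0 ≤ s := by linarith
  have ht0 : 0 ≤ t := by linarith
  have h : 0 ≤
      87447901 / 353894400000000 * t ^ 8 + 48366032927 / 8847360000000000 * s * t ^ 7 +
      79170624824839 / 2211840000000000000 * s ^ 2 * t ^ 6 +
      24960413988892541 / 276480000000000000000 * s ^ 3 * t ^ 5 +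
      7124541132686101 / 69120000000000000000 * s ^ 4 * t ^ 4 +
      3416916221731643 / 69120000000000000000 * s ^ 5 * t ^ 3 +
      136366793226503 / 30720000000000000000 * s ^ 6 * t ^ 2 +
      44852987087 / 2048000000000000000 * s ^ 7 * t + 85774085107 / 51200000000000000 * s ^ 8 := by
    positivity
  have e :
      87447901 / 353894400000000 * t ^ 8 + 48366032927 / 8847360000000000 * s * t ^ 7 +
      79170624824839 / 2211840000000000000 * s ^ 2 * t ^ 6 +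
      24960413988892541 / 276480000000000000000 * s ^ 3 * t ^ 5 +
      7124541132686101 / 69120000000000000000 * s ^ 4 * t ^ 4 +
      3416916221731643 / 69120000000000000000 * s ^ 5 * t ^ 3 +
      136366793226503 / 30720000000000000000 * s ^ 6 * t ^ 2 +
      44852987087 / 2048000000000000000 * s ^ 7 * t + 85774085107 / 51200000000000000 * s ^ 8 =
      (1 + 1 / 200 + (1 / 200) ^ 2 / 2) * ((1 + (7 / 1000 * (u ^ 2 - 1)) +
      (7 / 1000 * (u ^ 2 - 1)) ^ 2 / 2 +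
      (7 / 1000 * (u ^ 2 - 1)) ^ 3 / 6) *
      (1 + u + 243 / 500 * u ^ 2)) -
      (122141 / 100000 * (1 + (u - 1 / 5) / 3) ^ 3) := by
    rw [hs, ht]
    ring
  rw [e] at h
  linarith

theorem od_three_d23_t (u : ℝ) (h1 : 5 ≤ u) :
    122141 / 100000 * (1 + (u - 1 / 5) / 3) ^ 3 ≤
      (1 + 1 / 200 + (1 / 200) ^ 2 / 2) * ((1 + (7 / 1000 * (u ^ 2 - 1)) +
      (7 / 1000 * (u ^ 2 - 1)) ^ 2 / 2 +
      (7 / 1000 * (u ^ 2 - 1)) ^ 3 / 6) *
      (1 + u + 243 / 500 * u ^ 2)) := by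
  obtain ⟨s, hs⟩ : ∃ s, s = u - (5) := ⟨_, rfl⟩
  have hs0 : 0 ≤ s := by linarith
  have h : 0 ≤
      85774085107 / 781250000000 + 27402854247153 / 125000000000000 * s +
      6143210388203 / 29296875000000 * s ^ 2 + 3901413413053949 / 54000000000000000 * s ^ 3 +
      598890610452743 / 60000000000000000 * s ^ 4 +
      4866242625853 / 8000000000000000 * s ^ 5 + 2679745310151 / 80000000000000000 * s ^ 6 +
      14092124473 / 12000000000000000 * s ^ 7 + 2233780983 / 80000000000000000 * s ^ 8 := by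
    positivity
  have e :
      85774085107 / 781250000000 + 27402854247153 / 125000000000000 * s +
      6143210388203 / 29296875000000 * s ^ 2 + 3901413413053949 / 54000000000000000 * s ^ 3 +
      598890610452743 / 60000000000000000 * s ^ 4 +
      4866242625853 / 8000000000000000 * s ^ 5 + 2679745310151 / 80000000000000000 * s ^ 6 +
      14092124473 / 12000000000000000 * s ^ 7 + 2233780983 / 80000000000000000 * s ^ 8 =
      (1 + 1 / 200 + (1 / 200) ^ 2 / 2) * ((1 + (7 / 1000 * (u ^ 2 - 1)) +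
      (7 / 1000 * (u ^ 2 - 1)) ^ 2 / 2 +
      (7 / 1000 * (u ^ 2 - 1)) ^ 3 / 6) *
      (1 + u + 243 / 500 * u ^ 2)) -
      (122141 / 100000 * (1 + (u - 1 / 5) / 3) ^ 3) := by
    rw [hs]
    ring
  rw [e] at h
  linarith

/-- `K = 3`: `(c, μ, P, δ) = (243 / 500, 7 / 1000, 1 / 5, 1 / 200)` -/
theorem expOd_three_d23 : ExpOd 3 (243 / 500) (7 / 1000) (1 / 5) (1 / 200) := by
  have hde : (1 + 1 / 200 + (1 / 200) ^ 2 / 2) ≤ Real.exp (1 / 200) := Real.quadratic_le_exp_of_nonneg (by norm_num)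
  have hq : ∀ u : ℝ, 0 ≤ 1 + u + 243 / 500 * u ^ 2 := fun u => by
    nlinarith [sq_nonneg (u + 2), sq_nonneg u]
  have hR : ∀ (u x y : ℝ), x ≤ y → y ≤ (1 + 1 / 200 + (1 / 200) ^ 2 / 2) * (1 + u + 243 / 500 * u ^ 2) →
      x ≤ Real.exp (1 / 200) * (1 + u + 243 / 500 * u ^ 2) := fun u x y h1 h2 =>
    (h1.trans h2).trans (mul_le_mul_of_nonneg_right hde (hq u))
  refine ExpOd.of (by norm_num) (by norm_num) (by norm_num) (by norm_num) (by norm_num) ?_ ?_ ?_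
  · intro u h1
    rcases le_total u (-3) with h3 | h3
    · exact hR u _ _ (exp_le_n3 h3) (od_three_d23_d u h3)
    rcases le_total u (-2) with h4 | h4
    · refine hR u _ _ (exp_le_n2 h4) ?_
      exact od_three_d23_c0 u (by linarith) (by linarith)
    rcases le_total u (-1) with h5 | h5
    · refine hR u _ _ (exp_le_n1 h5) ?_
      exact od_three_d23_b0 u (by linarith) (by linarith)
    rcases le_total u 0 with h6 | h6
    · refine hR u _ _ (exp_le_n0 h6) ?_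
      exact od_three_d23_a0 u (by linarith) (by linarith)
    refine hR u _ _ (exp_le_p h6 (by linarith)) ?_
    exact od_three_d23_e0 u (by linarith) (by linarith)
  · intro u h1 h2
    have h4 : 0 ≤ (1 + (u - 1 / 5) / 3) ^ 3 := by
      have : 0 ≤ (u - 1 / 5) / 3 := div_nonneg (by linarith) (by norm_num)
      positivity
    have hE : Real.exp (1 / 5) ≤ 122141 / 100000 := exp_up_1_5
    push_cast
    refine hR u _ _ (mul_le_mul_of_nonneg_right hE h4) ?_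
    rcases le_total u (3 / 5) with hh | hh
    · exact od_three_d23_f0 u (by linarith) (by linarith)
    exact od_three_d23_f1 u (by linarith) (by linarith)
  · intro u h1
    have h4 : 0 ≤ (1 + (u - 1 / 5) / 3) ^ 3 := by
      have : 0 ≤ (u - 1 / 5) / 3 := div_nonneg (by linarith) (by norm_num)
      positivity
    have hE : Real.exp (1 / 5) ≤ 122141 / 100000 := exp_up_1_5
    have hx : 0 ≤ 7 / 1000 * (u ^ 2 - 1) := mul_nonneg (by norm_num) (by nlinarith)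
    have h5 := mul_le_mul_of_nonneg_right (taylor3_le_exp _ hx) (hq u)
    have h6 : 0 ≤ Real.exp (7 / 1000 * (u ^ 2 - 1)) * (1 + u + 243 / 500 * u ^ 2) :=
      mul_nonneg (Real.exp_nonneg _) (hq u)
    rw [Real.exp_add, mul_assoc]
    push_cast
    refine ((mul_le_mul_of_nonneg_right hE h4).trans ?_).trans
      ((mul_le_mul_of_nonneg_left h5 (by norm_num : (0 : ℝ) ≤ (1 + 1 / 200 + (1 / 200) ^ 2 / 2))).trans
        (mul_le_mul_of_nonneg_right hde h6))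
    rcases le_total u (5) with hh | hh
    · exact od_three_d23_g0 u (by linarith) (by linarith)
    exact od_three_d23_t u (by linarith)

theorem od_three_d24_a0 (u : ℝ) (h1 : -1 ≤ u) (h2 : u ≤ 0) :
    1 + u + u ^ 2 / 2 + u ^ 3 / 6 + u ^ 4 / 24 ≤
      (1 + 1 / 100 + (1 / 100) ^ 2 / 2) * (1 + u + 241 / 500 * u ^ 2) := by
  obtain ⟨s, hs⟩ : ∃ s, s = u - (-1) := ⟨_, rfl⟩
  obtain ⟨t, ht⟩ : ∃ t, t = 0 - u := ⟨_, rfl⟩
  have hs0 : 0 ≤ s := by linarith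
  have ht0 : 0 ≤ t := by linarith
  have h : 0 ≤
      1118441 / 10000000 * t ^ 4 + 2256073 / 15000000 * s * t ^ 3 +
      169941 / 10000000 * s ^ 2 * t ^ 2 + 603 / 20000 * s ^ 3 * t + 201 / 20000 * s ^ 4 := by
    positivity
  have e :
      1118441 / 10000000 * t ^ 4 + 2256073 / 15000000 * s * t ^ 3 +
      169941 / 10000000 * s ^ 2 * t ^ 2 + 603 / 20000 * s ^ 3 * t + 201 / 20000 * s ^ 4 =
      (1 + 1 / 100 + (1 / 100) ^ 2 / 2) * (1 + u + 241 / 500 * u ^ 2) -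
      (1 + u + u ^ 2 / 2 + u ^ 3 / 6 + u ^ 4 / 24) := by
    rw [hs, ht]
    ring
  rw [e] at h
  linarith

theorem od_three_d24_b0 (u : ℝ) (h1 : -2 ≤ u) (h2 : u ≤ -1) :
    36788 / 100000 *
      (1 + (u + 1) + (u + 1) ^ 2 / 2 + (u + 1) ^ 3 / 6 + (u + 1) ^ 4 / 24) ≤
      (1 + 1 / 100 + (1 / 100) ^ 2 / 2) * (1 + u + 241 / 500 * u ^ 2) := by
  obtain ⟨s, hs⟩ : ∃ s, s = u - (-2) := ⟨_, rfl⟩
  obtain ⟨t, ht⟩ : ∃ t, t = -1 - u := ⟨_, rfl⟩
  have hs0 : 0 ≤ s := by linarith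
  have ht0 : 0 ≤ t := by linarith
  have h : 0 ≤
      3996857 / 5000000 * t ^ 4 + 8015747 / 3750000 * s * t ^ 3 +
      20112433 / 10000000 * s ^ 2 * t ^ 2 + 4036873 / 5000000 * s ^ 3 * t +
      1189641 / 10000000 * s ^ 4 := by
    positivity
  have e :
      3996857 / 5000000 * t ^ 4 + 8015747 / 3750000 * s * t ^ 3 +
      20112433 / 10000000 * s ^ 2 * t ^ 2 + 4036873 / 5000000 * s ^ 3 * t +
      1189641 / 10000000 * s ^ 4 =
      (1 + 1 / 100 + (1 / 100) ^ 2 / 2) * (1 + u + 241 / 500 * u ^ 2) -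
      (36788 / 100000 *
      (1 + (u + 1) + (u + 1) ^ 2 / 2 + (u + 1) ^ 3 / 6 + (u + 1) ^ 4 / 24)) := by
    rw [hs, ht]
    ring
  rw [e] at h
  linarith

theorem od_three_d24_c0 (u : ℝ) (h1 : -3 ≤ u) (h2 : u ≤ -2) :
    13534 / 100000 *
      (1 + (u + 2) + (u + 2) ^ 2 / 2 + (u + 2) ^ 3 / 6 + (u + 2) ^ 4 / 24) ≤
      (1 + 1 / 100 + (1 / 100) ^ 2 / 2) * (1 + u + 241 / 500 * u ^ 2) := by
  obtain ⟨s, hs⟩ : ∃ s, s = u - (-3) := ⟨_, rfl⟩
  obtain ⟨t, ht⟩ : ∃ t, t = -2 - u := ⟨_, rfl⟩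
  have hs0 : 0 ≤ s := by linarith
  have ht0 : 0 ≤ t := by linarith
  have h : 0 ≤
      5776861 / 2500000 * t ^ 4 + 21860549 / 3000000 * s * t ^ 3 +
      84490917 / 10000000 * s ^ 2 * t ^ 2 + 1070153 / 250000 * s ^ 3 * t +
      1002483 / 1250000 * s ^ 4 := by
    positivity
  have e :
      5776861 / 2500000 * t ^ 4 + 21860549 / 3000000 * s * t ^ 3 +
      84490917 / 10000000 * s ^ 2 * t ^ 2 + 1070153 / 250000 * s ^ 3 * t +
      1002483 / 1250000 * s ^ 4 =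
      (1 + 1 / 100 + (1 / 100) ^ 2 / 2) * (1 + u + 241 / 500 * u ^ 2) -
      (13534 / 100000 *
      (1 + (u + 2) + (u + 2) ^ 2 / 2 + (u + 2) ^ 3 / 6 + (u + 2) ^ 4 / 24)) := by
    rw [hs, ht]
    ring
  rw [e] at h
  linarith

theorem od_three_d24_d (u : ℝ) (h2 : u ≤ -3) :
    4979 / 100000 ≤
      (1 + 1 / 100 + (1 / 100) ^ 2 / 2) * (1 + u + 241 / 500 * u ^ 2) := by
  obtain ⟨s, hs⟩ : ∃ s, s = -3 - u := ⟨_, rfl⟩
  have hs0 : 0 ≤ s := by linarith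
  have h : 0 ≤
      23117069 / 10000000 + 9555073 / 5000000 * s + 4868441 / 10000000 * s ^ 2 := by
    positivity
  have e :
      23117069 / 10000000 + 9555073 / 5000000 * s + 4868441 / 10000000 * s ^ 2 =
      (1 + 1 / 100 + (1 / 100) ^ 2 / 2) * (1 + u + 241 / 500 * u ^ 2) -
      (4979 / 100000) := by
    rw [hs]
    ring
  rw [e] at h
  linarith

theorem od_three_d24_e0 (u : ℝ) (h1 : 0 ≤ u) (h2 : u ≤ 1 / 5) :
    1 + u + u ^ 2 / 2 + u ^ 3 / 6 + u ^ 4 / 24 + u ^ 5 / 100 ≤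
      (1 + 1 / 100 + (1 / 100) ^ 2 / 2) * (1 + u + 241 / 500 * u ^ 2) := by
  obtain ⟨s, hs⟩ : ∃ s, s = u - (0) := ⟨_, rfl⟩
  obtain ⟨t, ht⟩ : ∃ t, t = 1 / 5 - u := ⟨_, rfl⟩
  have hs0 : 0 ≤ s := by linarith
  have ht0 : 0 ≤ t := by linarith
  have h : 0 ≤
      1005 / 32 * t ^ 5 + 2613 / 16 * s * t ^ 4 + 27003441 / 80000 * s ^ 2 * t ^ 3 +
      82235969 / 240000 * s ^ 3 * t ^ 2 + 40483469 / 240000 * s ^ 4 * t +
      2532641 / 80000 * s ^ 5 := by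
    positivity
  have e :
      1005 / 32 * t ^ 5 + 2613 / 16 * s * t ^ 4 + 27003441 / 80000 * s ^ 2 * t ^ 3 +
      82235969 / 240000 * s ^ 3 * t ^ 2 + 40483469 / 240000 * s ^ 4 * t +
      2532641 / 80000 * s ^ 5 =
      (1 + 1 / 100 + (1 / 100) ^ 2 / 2) * (1 + u + 241 / 500 * u ^ 2) -
      (1 + u + u ^ 2 / 2 + u ^ 3 / 6 + u ^ 4 / 24 + u ^ 5 / 100) := by
    rw [hs, ht]
    ring
  rw [e] at h
  linarith

theorem od_three_d24_f0 (u : ℝ) (h1 : 1 / 5 ≤ u) (h2 : u ≤ 1) :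
    122141 / 100000 * (1 + (u - 1 / 5) / 3) ^ 3 ≤
      (1 + 1 / 100 + (1 / 100) ^ 2 / 2) * (1 + u + 241 / 500 * u ^ 2) := by
  obtain ⟨s, hs⟩ : ∃ s, s = u - (1 / 5) := ⟨_, rfl⟩
  obtain ⟨t, ht⟩ : ∃ t, t = 1 - u := ⟨_, rfl⟩
  have hs0 : 0 ≤ s := by linarith
  have ht0 : 0 ≤ t := by linarith
  have h : 0 ≤
      2530941 / 128000000 * t ^ 3 + 4268351 / 128000000 * s * t ^ 2 +
      8218241 / 76800000 * s ^ 2 * t + 33314059 / 691200000 * s ^ 3 := by
    positivity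
  have e :
      2530941 / 128000000 * t ^ 3 + 4268351 / 128000000 * s * t ^ 2 +
      8218241 / 76800000 * s ^ 2 * t + 33314059 / 691200000 * s ^ 3 =
      (1 + 1 / 100 + (1 / 100) ^ 2 / 2) * (1 + u + 241 / 500 * u ^ 2) -
      (122141 / 100000 * (1 + (u - 1 / 5) / 3) ^ 3) := by
    rw [hs, ht]
    ring
  rw [e] at h
  linarith

theorem od_three_d24_g0 (u : ℝ) (h1 : 1 ≤ u) (h2 : u ≤ 3) :
    122141 / 100000 * (1 + (u - 1 / 5) / 3) ^ 3 ≤
      (1 + 1 / 100 + (1 / 100) ^ 2 / 2) * ((1 + (7 / 1000 * (u ^ 2 - 1)) +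
      (7 / 1000 * (u ^ 2 - 1)) ^ 2 / 2 +
      (7 / 1000 * (u ^ 2 - 1)) ^ 3 / 6) *
      (1 + u + 241 / 500 * u ^ 2)) := by
  obtain ⟨s, hs⟩ : ∃ s, s = u - (1) := ⟨_, rfl⟩
  obtain ⟨t, ht⟩ : ∃ t, t = 3 - u := ⟨_, rfl⟩
  have hs0 : 0 ≤ s := by linarith
  have ht0 : 0 ≤ t := by linarith
  have h : 0 ≤
      33314059 / 345600000000 * t ^ 8 + 21310998949 / 17280000000000 * s * t ^ 7 +
      53523732764443 / 8640000000000000 * s ^ 2 * t ^ 6 +
      11459263260772789 / 720000000000000000 * s ^ 3 * t ^ 5 +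
      699125978810207 / 30000000000000000 * s ^ 4 * t ^ 4 +
      14546670726388973 / 720000000000000000 * s ^ 5 * t ^ 3 +
      2759998959432991 / 270000000000000000 * s ^ 6 * t ^ 2 +
      1500940159497313 / 540000000000000000 * s ^ 7 * t +
      42455585871839 / 135000000000000000 * s ^ 8 := by
    positivity
  have e :
      33314059 / 345600000000 * t ^ 8 + 21310998949 / 17280000000000 * s * t ^ 7 +
      53523732764443 / 8640000000000000 * s ^ 2 * t ^ 6 +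
      11459263260772789 / 720000000000000000 * s ^ 3 * t ^ 5 +
      699125978810207 / 30000000000000000 * s ^ 4 * t ^ 4 +
      14546670726388973 / 720000000000000000 * s ^ 5 * t ^ 3 +
      2759998959432991 / 270000000000000000 * s ^ 6 * t ^ 2 +
      1500940159497313 / 540000000000000000 * s ^ 7 * t +
      42455585871839 / 135000000000000000 * s ^ 8 =
      (1 + 1 / 100 + (1 / 100) ^ 2 / 2) * ((1 + (7 / 1000 * (u ^ 2 - 1)) +
      (7 / 1000 * (u ^ 2 - 1)) ^ 2 / 2 +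
      (7 / 1000 * (u ^ 2 - 1)) ^ 3 / 6) *
      (1 + u + 241 / 500 * u ^ 2)) -
      (122141 / 100000 * (1 + (u - 1 / 5) / 3) ^ 3) := by
    rw [hs, ht]
    ring
  rw [e] at h
  linarith

theorem od_three_d24_g1 (u : ℝ) (h1 : 3 ≤ u) (h2 : u ≤ 5) :
    122141 / 100000 * (1 + (u - 1 / 5) / 3) ^ 3 ≤
      (1 + 1 / 100 + (1 / 100) ^ 2 / 2) * ((1 + (7 / 1000 * (u ^ 2 - 1)) +
      (7 / 1000 * (u ^ 2 - 1)) ^ 2 / 2 +
      (7 / 1000 * (u ^ 2 - 1)) ^ 3 / 6) *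
      (1 + u + 241 / 500 * u ^ 2)) := by
  obtain ⟨s, hs⟩ : ∃ s, s = u - (3) := ⟨_, rfl⟩
  obtain ⟨t, ht⟩ : ∃ t, t = 5 - u := ⟨_, rfl⟩
  have hs0 : 0 ≤ s := by linarith
  have ht0 : 0 ≤ t := by linarith
  have h : 0 ≤
      42455585871839 / 135000000000000000 * t ^ 8 +
      1216217336300383 / 540000000000000000 * s * t ^ 7 +
      220433634780467 / 33750000000000000 * s ^ 2 * t ^ 6 +
      21325633864645001 / 2160000000000000000 * s ^ 3 * t ^ 5 +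
      9243784698432857 / 1080000000000000000 * s ^ 4 * t ^ 4 +
      10697555763299273 / 2160000000000000000 * s ^ 5 * t ^ 3 +
      165564529106053 / 60000000000000000 * s ^ 6 * t ^ 2 +
      5884474347149 / 4000000000000000 * s ^ 7 * t + 4807874951 / 12500000000000 * s ^ 8 := by
    positivity
  have e :
      42455585871839 / 135000000000000000 * t ^ 8 +
      1216217336300383 / 540000000000000000 * s * t ^ 7 +
      220433634780467 / 33750000000000000 * s ^ 2 * t ^ 6 +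
      21325633864645001 / 2160000000000000000 * s ^ 3 * t ^ 5 +
      9243784698432857 / 1080000000000000000 * s ^ 4 * t ^ 4 +
      10697555763299273 / 2160000000000000000 * s ^ 5 * t ^ 3 +
      165564529106053 / 60000000000000000 * s ^ 6 * t ^ 2 +
      5884474347149 / 4000000000000000 * s ^ 7 * t + 4807874951 / 12500000000000 * s ^ 8 =
      (1 + 1 / 100 + (1 / 100) ^ 2 / 2) * ((1 + (7 / 1000 * (u ^ 2 - 1)) +
      (7 / 1000 * (u ^ 2 - 1)) ^ 2 / 2 +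
      (7 / 1000 * (u ^ 2 - 1)) ^ 3 / 6) *
      (1 + u + 241 / 500 * u ^ 2)) -
      (122141 / 100000 * (1 + (u - 1 / 5) / 3) ^ 3) := by
    rw [hs, ht]
    ring
  rw [e] at h
  linarith

theorem od_three_d24_t (u : ℝ) (h1 : 5 ≤ u) :
    122141 / 100000 * (1 + (u - 1 / 5) / 3) ^ 3 ≤
      (1 + 1 / 100 + (1 / 100) ^ 2 / 2) * ((1 + (7 / 1000 * (u ^ 2 - 1)) +
      (7 / 1000 * (u ^ 2 - 1)) ^ 2 / 2 +
      (7 / 1000 * (u ^ 2 - 1)) ^ 3 / 6) *
      (1 + u + 241 / 500 * u ^ 2)) := by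
  obtain ⟨s, hs⟩ : ∃ s, s = u - (5) := ⟨_, rfl⟩
  have hs0 : 0 ≤ s := by linarith
  have h : 0 ≤
      4807874951 / 48828125000 + 6423685527411 / 31250000000000 * s +
      12117069754363 / 58593750000000 * s ^ 2 + 971857550555063 / 13500000000000000 * s ^ 3 +
      49782464585847 / 5000000000000000 * s ^ 4 + 3640582464533 / 6000000000000000 * s ^ 5 +
      2004284859311 / 60000000000000000 * s ^ 6 + 1170991367 / 1000000000000000 * s ^ 7 +
      1669875263 / 60000000000000000 * s ^ 8 := by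
    positivity
  have e :
      4807874951 / 48828125000 + 6423685527411 / 31250000000000 * s +
      12117069754363 / 58593750000000 * s ^ 2 + 971857550555063 / 13500000000000000 * s ^ 3 +
      49782464585847 / 5000000000000000 * s ^ 4 + 3640582464533 / 6000000000000000 * s ^ 5 +
      2004284859311 / 60000000000000000 * s ^ 6 + 1170991367 / 1000000000000000 * s ^ 7 +
      1669875263 / 60000000000000000 * s ^ 8 =
      (1 + 1 / 100 + (1 / 100) ^ 2 / 2) * ((1 + (7 / 1000 * (u ^ 2 - 1)) +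
      (7 / 1000 * (u ^ 2 - 1)) ^ 2 / 2 +
      (7 / 1000 * (u ^ 2 - 1)) ^ 3 / 6) *
      (1 + u + 241 / 500 * u ^ 2)) -
      (122141 / 100000 * (1 + (u - 1 / 5) / 3) ^ 3) := by
    rw [hs]
    ring
  rw [e] at h
  linarith

/-- `K = 3`: `(c, μ, P, δ) = (241 / 500, 7 / 1000, 1 / 5, 1 / 100)` -/
theorem expOd_three_d24 : ExpOd 3 (241 / 500) (7 / 1000) (1 / 5) (1 / 100) := by
  have hde : (1 + 1 / 100 + (1 / 100) ^ 2 / 2) ≤ Real.exp (1 / 100) := Real.quadratic_le_exp_of_nonneg (by norm_num)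
  have hq : ∀ u : ℝ, 0 ≤ 1 + u + 241 / 500 * u ^ 2 := fun u => by
    nlinarith [sq_nonneg (u + 2), sq_nonneg u]
  have hR : ∀ (u x y : ℝ), x ≤ y → y ≤ (1 + 1 / 100 + (1 / 100) ^ 2 / 2) * (1 + u + 241 / 500 * u ^ 2) →
      x ≤ Real.exp (1 / 100) * (1 + u + 241 / 500 * u ^ 2) := fun u x y h1 h2 =>
    (h1.trans h2).trans (mul_le_mul_of_nonneg_right hde (hq u))
  refine ExpOd.of (by norm_num) (by norm_num) (by norm_num) (by norm_num) (by norm_num) ?_ ?_ ?_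
  · intro u h1
    rcases le_total u (-3) with h3 | h3
    · exact hR u _ _ (exp_le_n3 h3) (od_three_d24_d u h3)
    rcases le_total u (-2) with h4 | h4
    · refine hR u _ _ (exp_le_n2 h4) ?_
      exact od_three_d24_c0 u (by linarith) (by linarith)
    rcases le_total u (-1) with h5 | h5
    · refine hR u _ _ (exp_le_n1 h5) ?_
      exact od_three_d24_b0 u (by linarith) (by linarith)
    rcases le_total u 0 with h6 | h6
    · refine hR u _ _ (exp_le_n0 h6) ?_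
      exact od_three_d24_a0 u (by linarith) (by linarith)
    refine hR u _ _ (exp_le_p h6 (by linarith)) ?_
    exact od_three_d24_e0 u (by linarith) (by linarith)
  · intro u h1 h2
    have h4 : 0 ≤ (1 + (u - 1 / 5) / 3) ^ 3 := by
      have : 0 ≤ (u - 1 / 5) / 3 := div_nonneg (by linarith) (by norm_num)
      positivity
    have hE : Real.exp (1 / 5) ≤ 122141 / 100000 := exp_up_1_5
    push_cast
    refine hR u _ _ (mul_le_mul_of_nonneg_right hE h4) ?_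
    exact od_three_d24_f0 u (by linarith) (by linarith)
  · intro u h1
    have h4 : 0 ≤ (1 + (u - 1 / 5) / 3) ^ 3 := by
      have : 0 ≤ (u - 1 / 5) / 3 := div_nonneg (by linarith) (by norm_num)
      positivity
    have hE : Real.exp (1 / 5) ≤ 122141 / 100000 := exp_up_1_5
    have hx : 0 ≤ 7 / 1000 * (u ^ 2 - 1) := mul_nonneg (by norm_num) (by nlinarith)
    have h5 := mul_le_mul_of_nonneg_right (taylor3_le_exp _ hx) (hq u)
    have h6 : 0 ≤ Real.exp (7 / 1000 * (u ^ 2 - 1)) * (1 + u + 241 / 500 * u ^ 2) :=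
      mul_nonneg (Real.exp_nonneg _) (hq u)
    rw [Real.exp_add, mul_assoc]
    push_cast
    refine ((mul_le_mul_of_nonneg_right hE h4).trans ?_).trans
      ((mul_le_mul_of_nonneg_left h5 (by norm_num : (0 : ℝ) ≤ (1 + 1 / 100 + (1 / 100) ^ 2 / 2))).trans
        (mul_le_mul_of_nonneg_right hde h6))
    rcases le_total u (3) with hh | hh
    · exact od_three_d24_g0 u (by linarith) (by linarith)
    rcases le_total u (5) with hh | hh
    · exact od_three_d24_g1 u (by linarith) (by linarith)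
    exact od_three_d24_t u (by linarith)

theorem od_three_d25_a0 (u : ℝ) (h1 : -1 ≤ u) (h2 : u ≤ 0) :
    1 + u + u ^ 2 / 2 + u ^ 3 / 6 + u ^ 4 / 24 ≤
      (1 + 1 / 50 + (1 / 50) ^ 2 / 2) * (1 + u + 111 / 250 * u ^ 2) := by
  obtain ⟨s, hs⟩ : ∃ s, s = u - (-1) := ⟨_, rfl⟩
  obtain ⟨t, ht⟩ : ∃ t, t = 0 - u := ⟨_, rfl⟩
  have hs0 : 0 ≤ s := by linarith
  have ht0 : 0 ≤ t := by linarith
  have h : 0 ≤
      97461 / 1250000 * t ^ 4 + 21751 / 234375 * s * t ^ 3 +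
      16961 / 1250000 * s ^ 2 * t ^ 2 + 303 / 5000 * s ^ 3 * t + 101 / 5000 * s ^ 4 := by
    positivity
  have e :
      97461 / 1250000 * t ^ 4 + 21751 / 234375 * s * t ^ 3 +
      16961 / 1250000 * s ^ 2 * t ^ 2 + 303 / 5000 * s ^ 3 * t + 101 / 5000 * s ^ 4 =
      (1 + 1 / 50 + (1 / 50) ^ 2 / 2) * (1 + u + 111 / 250 * u ^ 2) -
      (1 + u + u ^ 2 / 2 + u ^ 3 / 6 + u ^ 4 / 24) := by
    rw [hs, ht]
    ring
  rw [e] at h
  linarith

theorem od_three_d25_b0 (u : ℝ) (h1 : -2 ≤ u) (h2 : u ≤ -1) :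
    36788 / 100000 *
      (1 + (u + 1) + (u + 1) ^ 2 / 2 + (u + 1) ^ 3 / 6 + (u + 1) ^ 4 / 24) ≤
      (1 + 1 / 50 + (1 / 50) ^ 2 / 2) * (1 + u + 111 / 250 * u ^ 2) := by
  obtain ⟨s, hs⟩ : ∃ s, s = u - (-2) := ⟨_, rfl⟩
  obtain ⟨t, ht⟩ : ∃ t, t = -1 - u := ⟨_, rfl⟩
  have hs0 : 0 ≤ s := by linarith
  have ht0 : 0 ≤ t := by linarith
  have h : 0 ≤
      3268601 / 5000000 * t ^ 4 + 6377171 / 3750000 * s * t ^ 3 +
      962759 / 625000 * s ^ 2 * t ^ 2 + 371233 / 625000 * s ^ 3 * t + 106361 / 1250000 * s ^ 4 := by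
    positivity
  have e :
      3268601 / 5000000 * t ^ 4 + 6377171 / 3750000 * s * t ^ 3 +
      962759 / 625000 * s ^ 2 * t ^ 2 + 371233 / 625000 * s ^ 3 * t + 106361 / 1250000 * s ^ 4 =
      (1 + 1 / 50 + (1 / 50) ^ 2 / 2) * (1 + u + 111 / 250 * u ^ 2) -
      (36788 / 100000 *
      (1 + (u + 1) + (u + 1) ^ 2 / 2 + (u + 1) ^ 3 / 6 + (u + 1) ^ 4 / 24)) := by
    rw [hs, ht]
    ring
  rw [e] at h
  linarith

theorem od_three_d25_c0 (u : ℝ) (h1 : -3 ≤ u) (h2 : u ≤ -2) :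
    13534 / 100000 *
      (1 + (u + 2) + (u + 2) ^ 2 / 2 + (u + 2) ^ 3 / 6 + (u + 2) ^ 4 / 24) ≤
      (1 + 1 / 50 + (1 / 50) ^ 2 / 2) * (1 + u + 111 / 250 * u ^ 2) := by
  obtain ⟨s, hs⟩ : ∃ s, s = u - (-3) := ⟨_, rfl⟩
  obtain ⟨t, ht⟩ : ∃ t, t = -2 - u := ⟨_, rfl⟩
  have hs0 : 0 ≤ s := by linarith
  have ht0 : 0 ≤ t := by linarith
  have h : 0 ≤
      19855667 / 10000000 * t ^ 4 + 9299311 / 1500000 * s * t ^ 3 +
      17760889 / 2500000 * s ^ 2 * t ^ 2 + 888089 / 250000 * s ^ 3 * t +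
      820419 / 1250000 * s ^ 4 := by
    positivity
  have e :
      19855667 / 10000000 * t ^ 4 + 9299311 / 1500000 * s * t ^ 3 +
      17760889 / 2500000 * s ^ 2 * t ^ 2 + 888089 / 250000 * s ^ 3 * t +
      820419 / 1250000 * s ^ 4 =
      (1 + 1 / 50 + (1 / 50) ^ 2 / 2) * (1 + u + 111 / 250 * u ^ 2) -
      (13534 / 100000 *
      (1 + (u + 2) + (u + 2) ^ 2 / 2 + (u + 2) ^ 3 / 6 + (u + 2) ^ 4 / 24)) := by
    rw [hs, ht]
    ring
  rw [e] at h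
  linarith

theorem od_three_d25_d (u : ℝ) (h2 : u ≤ -3) :
    4979 / 100000 ≤
      (1 + 1 / 50 + (1 / 50) ^ 2 / 2) * (1 + u + 111 / 250 * u ^ 2) := by
  obtain ⟨s, hs⟩ : ∃ s, s = -3 - u := ⟨_, rfl⟩
  have hs0 : 0 ≤ s := by linarith
  have h : 0 ≤
      4966323 / 2500000 + 132626 / 78125 * s + 566211 / 1250000 * s ^ 2 := by
    positivity
  have e :
      4966323 / 2500000 + 132626 / 78125 * s + 566211 / 1250000 * s ^ 2 =
      (1 + 1 / 50 + (1 / 50) ^ 2 / 2) * (1 + u + 111 / 250 * u ^ 2) -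
      (4979 / 100000) := by
    rw [hs]
    ring
  rw [e] at h
  linarith

theorem od_three_d25_e0 (u : ℝ) (h1 : 0 ≤ u) (h2 : u ≤ 1 / 5) :
    1 + u + u ^ 2 / 2 + u ^ 3 / 6 + u ^ 4 / 24 + u ^ 5 / 100 ≤
      (1 + 1 / 50 + (1 / 50) ^ 2 / 2) * (1 + u + 111 / 250 * u ^ 2) := by
  obtain ⟨s, hs⟩ : ∃ s, s = u - (0) := ⟨_, rfl⟩
  obtain ⟨t, ht⟩ : ∃ t, t = 1 / 5 - u := ⟨_, rfl⟩
  have hs0 : 0 ≤ s := by linarith
  have ht0 : 0 ≤ t := by linarith
  have h : 0 ≤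
      505 / 8 * t ^ 5 + 1313 / 4 * s * t ^ 4 + 6758711 / 10000 * s ^ 2 * t ^ 3 +
      20555899 / 30000 * s ^ 3 * t ^ 2 + 10198399 / 30000 * s ^ 4 * t + 654861 / 10000 * s ^ 5 := by
    positivity
  have e :
      505 / 8 * t ^ 5 + 1313 / 4 * s * t ^ 4 + 6758711 / 10000 * s ^ 2 * t ^ 3 +
      20555899 / 30000 * s ^ 3 * t ^ 2 + 10198399 / 30000 * s ^ 4 * t + 654861 / 10000 * s ^ 5 =
      (1 + 1 / 50 + (1 / 50) ^ 2 / 2) * (1 + u + 111 / 250 * u ^ 2) -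
      (1 + u + u ^ 2 / 2 + u ^ 3 / 6 + u ^ 4 / 24 + u ^ 5 / 100) := by
    rw [hs, ht]
    ring
  rw [e] at h
  linarith

theorem od_three_d25_f0 (u : ℝ) (h1 : 1 / 5 ≤ u) (h2 : u ≤ 1) :
    122141 / 100000 * (1 + (u - 1 / 5) / 3) ^ 3 ≤
      (1 + 1 / 50 + (1 / 50) ^ 2 / 2) * (1 + u + 111 / 250 * u ^ 2) := by
  obtain ⟨s, hs⟩ : ∃ s, s = u - (1 / 5) := ⟨_, rfl⟩
  obtain ⟨t, ht⟩ : ∃ t, t = 1 - u := ⟨_, rfl⟩
  have hs0 : 0 ≤ s := by linarith
  have ht0 : 0 ≤ t := by linarith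
  have h : 0 ≤
      1309297 / 32000000 * t ^ 3 + 2926767 / 32000000 * s * t ^ 2 +
      2255357 / 19200000 * s ^ 2 * t + 3746851 / 172800000 * s ^ 3 := by
    positivity
  have e :
      1309297 / 32000000 * t ^ 3 + 2926767 / 32000000 * s * t ^ 2 +
      2255357 / 19200000 * s ^ 2 * t + 3746851 / 172800000 * s ^ 3 =
      (1 + 1 / 50 + (1 / 50) ^ 2 / 2) * (1 + u + 111 / 250 * u ^ 2) -
      (122141 / 100000 * (1 + (u - 1 / 5) / 3) ^ 3) := by
    rw [hs, ht]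
    ring
  rw [e] at h
  linarith

theorem od_three_d25_g0 (u : ℝ) (h1 : 1 ≤ u) (h2 : u ≤ 3) :
    122141 / 100000 * (1 + (u - 1 / 5) / 3) ^ 3 ≤
      (1 + 1 / 50 + (1 / 50) ^ 2 / 2) * ((1 + (1 / 100 * (u ^ 2 - 1)) +
      (1 / 100 * (u ^ 2 - 1)) ^ 2 / 2 +
      (1 / 100 * (u ^ 2 - 1)) ^ 3 / 6) *
      (1 + u + 111 / 250 * u ^ 2)) := by
  obtain ⟨s, hs⟩ : ∃ s, s = u - (1) := ⟨_, rfl⟩
  obtain ⟨t, ht⟩ : ∃ t, t = 3 - u := ⟨_, rfl⟩
  have hs0 : 0 ≤ s := by linarith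
  have ht0 : 0 ≤ t := by linarith
  have h : 0 ≤
      3746851 / 86400000000 * t ^ 8 + 51238921 / 108000000000 * s * t ^ 7 +
      22958714147 / 10800000000000 * s ^ 2 * t ^ 6 +
      424738127333 / 90000000000000 * s ^ 3 * t ^ 5 +
      84001959691 / 15000000000000 * s ^ 4 * t ^ 4 +
      321396711481 / 90000000000000 * s ^ 5 * t ^ 3 +
      316926646741 / 270000000000000 * s ^ 6 * t ^ 2 +
      7406730793 / 33750000000000 * s ^ 7 * t + 11137364653 / 270000000000000 * s ^ 8 := by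
    positivity
  have e :
      3746851 / 86400000000 * t ^ 8 + 51238921 / 108000000000 * s * t ^ 7 +
      22958714147 / 10800000000000 * s ^ 2 * t ^ 6 +
      424738127333 / 90000000000000 * s ^ 3 * t ^ 5 +
      84001959691 / 15000000000000 * s ^ 4 * t ^ 4 +
      321396711481 / 90000000000000 * s ^ 5 * t ^ 3 +
      316926646741 / 270000000000000 * s ^ 6 * t ^ 2 +
      7406730793 / 33750000000000 * s ^ 7 * t + 11137364653 / 270000000000000 * s ^ 8 =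
      (1 + 1 / 50 + (1 / 50) ^ 2 / 2) * ((1 + (1 / 100 * (u ^ 2 - 1)) +
      (1 / 100 * (u ^ 2 - 1)) ^ 2 / 2 +
      (1 / 100 * (u ^ 2 - 1)) ^ 3 / 6) *
      (1 + u + 111 / 250 * u ^ 2)) -
      (122141 / 100000 * (1 + (u - 1 / 5) / 3) ^ 3) := by
    rw [hs, ht]
    ring
  rw [e] at h
  linarith

theorem od_three_d25_t (u : ℝ) (h1 : 3 ≤ u) :
    122141 / 100000 * (1 + (u - 1 / 5) / 3) ^ 3 ≤
      (1 + 1 / 50 + (1 / 50) ^ 2 / 2) * ((1 + (1 / 100 * (u ^ 2 - 1)) +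
      (1 / 100 * (u ^ 2 - 1)) ^ 2 / 2 +
      (1 / 100 * (u ^ 2 - 1)) ^ 3 / 6) *
      (1 + u + 111 / 250 * u ^ 2)) := by
  obtain ⟨s, hs⟩ : ∃ s, s = u - (3) := ⟨_, rfl⟩
  have hs0 : 0 ≤ s := by linarith
  have h : 0 ≤
      11137364653 / 1054687500000 + 62177231 / 4394531250 * s +
      71331977539 / 1406250000000 * s ^ 2 + 316731393347 / 8437500000000 * s ^ 3 +
      174438897 / 19531250000 * s ^ 4 + 754300173 / 1250000000000 * s ^ 5 +
      338905339 / 7500000000000 * s ^ 6 + 7432157 / 3750000000000 * s ^ 7 +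
      188737 / 2500000000000 * s ^ 8 := by
    positivity
  have e :
      11137364653 / 1054687500000 + 62177231 / 4394531250 * s +
      71331977539 / 1406250000000 * s ^ 2 + 316731393347 / 8437500000000 * s ^ 3 +
      174438897 / 19531250000 * s ^ 4 + 754300173 / 1250000000000 * s ^ 5 +
      338905339 / 7500000000000 * s ^ 6 + 7432157 / 3750000000000 * s ^ 7 +
      188737 / 2500000000000 * s ^ 8 =
      (1 + 1 / 50 + (1 / 50) ^ 2 / 2) * ((1 + (1 / 100 * (u ^ 2 - 1)) +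
      (1 / 100 * (u ^ 2 - 1)) ^ 2 / 2 +
      (1 / 100 * (u ^ 2 - 1)) ^ 3 / 6) *
      (1 + u + 111 / 250 * u ^ 2)) -
      (122141 / 100000 * (1 + (u - 1 / 5) / 3) ^ 3) := by
    rw [hs]
    ring
  rw [e] at h
  linarith

/-- `K = 3`: `(c, μ, P, δ) = (111 / 250, 1 / 100, 1 / 5, 1 / 50)` -/
theorem expOd_three_d25 : ExpOd 3 (111 / 250) (1 / 100) (1 / 5) (1 / 50) := by
  have hde : (1 + 1 / 50 + (1 / 50) ^ 2 / 2) ≤ Real.exp (1 / 50) := Real.quadratic_le_exp_of_nonneg (by norm_num)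
  have hq : ∀ u : ℝ, 0 ≤ 1 + u + 111 / 250 * u ^ 2 := fun u => by
    nlinarith [sq_nonneg (u + 2), sq_nonneg u]
  have hR : ∀ (u x y : ℝ), x ≤ y → y ≤ (1 + 1 / 50 + (1 / 50) ^ 2 / 2) * (1 + u + 111 / 250 * u ^ 2) →
      x ≤ Real.exp (1 / 50) * (1 + u + 111 / 250 * u ^ 2) := fun u x y h1 h2 =>
    (h1.trans h2).trans (mul_le_mul_of_nonneg_right hde (hq u))
  refine ExpOd.of (by norm_num) (by norm_num) (by norm_num) (by norm_num) (by norm_num) ?_ ?_ ?_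
  · intro u h1
    rcases le_total u (-3) with h3 | h3
    · exact hR u _ _ (exp_le_n3 h3) (od_three_d25_d u h3)
    rcases le_total u (-2) with h4 | h4
    · refine hR u _ _ (exp_le_n2 h4) ?_
      exact od_three_d25_c0 u (by linarith) (by linarith)
    rcases le_total u (-1) with h5 | h5
    · refine hR u _ _ (exp_le_n1 h5) ?_
      exact od_three_d25_b0 u (by linarith) (by linarith)
    rcases le_total u 0 with h6 | h6
    · refine hR u _ _ (exp_le_n0 h6) ?_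
      exact od_three_d25_a0 u (by linarith) (by linarith)
    refine hR u _ _ (exp_le_p h6 (by linarith)) ?_
    exact od_three_d25_e0 u (by linarith) (by linarith)
  · intro u h1 h2
    have h4 : 0 ≤ (1 + (u - 1 / 5) / 3) ^ 3 := by
      have : 0 ≤ (u - 1 / 5) / 3 := div_nonneg (by linarith) (by norm_num)
      positivity
    have hE : Real.exp (1 / 5) ≤ 122141 / 100000 := exp_up_1_5
    push_cast
    refine hR u _ _ (mul_le_mul_of_nonneg_right hE h4) ?_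
    exact od_three_d25_f0 u (by linarith) (by linarith)
  · intro u h1
    have h4 : 0 ≤ (1 + (u - 1 / 5) / 3) ^ 3 := by
      have : 0 ≤ (u - 1 / 5) / 3 := div_nonneg (by linarith) (by norm_num)
      positivity
    have hE : Real.exp (1 / 5) ≤ 122141 / 100000 := exp_up_1_5
    have hx : 0 ≤ 1 / 100 * (u ^ 2 - 1) := mul_nonneg (by norm_num) (by nlinarith)
    have h5 := mul_le_mul_of_nonneg_right (taylor3_le_exp _ hx) (hq u)
    have h6 : 0 ≤ Real.exp (1 / 100 * (u ^ 2 - 1)) * (1 + u + 111 / 250 * u ^ 2) :=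
      mul_nonneg (Real.exp_nonneg _) (hq u)
    rw [Real.exp_add, mul_assoc]
    push_cast
    refine ((mul_le_mul_of_nonneg_right hE h4).trans ?_).trans
      ((mul_le_mul_of_nonneg_left h5 (by norm_num : (0 : ℝ) ≤ (1 + 1 / 50 + (1 / 50) ^ 2 / 2))).trans
        (mul_le_mul_of_nonneg_right hde h6))
    rcases le_total u (3) with hh | hh
    · exact od_three_d25_g0 u (by linarith) (by linarith)
    exact od_three_d25_t u (by linarith)

theorem od_three_d26_a0 (u : ℝ) (h1 : -1 ≤ u) (h2 : u ≤ 0) :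
    1 + u + u ^ 2 / 2 + u ^ 3 / 6 + u ^ 4 / 24 ≤
      (1 + 1 / 20 + (1 / 20) ^ 2 / 2) * (1 + u + 419 / 1000 * u ^ 2) := by
  obtain ⟨s, hs⟩ : ∃ s, s = u - (-1) := ⟨_, rfl⟩
  obtain ⟨t, ht⟩ : ∃ t, t = 0 - u := ⟨_, rfl⟩
  have hs0 : 0 ≤ s := by linarith
  have ht0 : 0 ≤ t := by linarith
  have h : 0 ≤
      52379 / 800000 * t ^ 4 + 118637 / 1200000 * s * t ^ 3 +
      75379 / 800000 * s ^ 2 * t ^ 2 + 123 / 800 * s ^ 3 * t + 41 / 800 * s ^ 4 := by
    positivity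
  have e :
      52379 / 800000 * t ^ 4 + 118637 / 1200000 * s * t ^ 3 +
      75379 / 800000 * s ^ 2 * t ^ 2 + 123 / 800 * s ^ 3 * t + 41 / 800 * s ^ 4 =
      (1 + 1 / 20 + (1 / 20) ^ 2 / 2) * (1 + u + 419 / 1000 * u ^ 2) -
      (1 + u + u ^ 2 / 2 + u ^ 3 / 6 + u ^ 4 / 24) := by
    rw [hs, ht]
    ring
  rw [e] at h
  linarith

theorem od_three_d26_b0 (u : ℝ) (h1 : -2 ≤ u) (h2 : u ≤ -1) :
    36788 / 100000 *
      (1 + (u + 1) + (u + 1) ^ 2 / 2 + (u + 1) ^ 3 / 6 + (u + 1) ^ 4 / 24) ≤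
      (1 + 1 / 20 + (1 / 20) ^ 2 / 2) * (1 + u + 419 / 1000 * u ^ 2) := by
  obtain ⟨s, hs⟩ : ∃ s, s = u - (-2) := ⟨_, rfl⟩
  obtain ⟨t, ht⟩ : ∃ t, t = -1 - u := ⟨_, rfl⟩
  have hs0 : 0 ≤ s := by linarith
  have ht0 : 0 ≤ t := by linarith
  have h : 0 ≤
      57269 / 100000 * t ^ 4 + 874493 / 600000 * s * t ^ 3 +
      1027863 / 800000 * s ^ 2 * t ^ 2 + 195181 / 400000 * s ^ 3 * t + 2323 / 32000 * s ^ 4 := by
    positivity
  have e :
      57269 / 100000 * t ^ 4 + 874493 / 600000 * s * t ^ 3 +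
      1027863 / 800000 * s ^ 2 * t ^ 2 + 195181 / 400000 * s ^ 3 * t + 2323 / 32000 * s ^ 4 =
      (1 + 1 / 20 + (1 / 20) ^ 2 / 2) * (1 + u + 419 / 1000 * u ^ 2) -
      (36788 / 100000 *
      (1 + (u + 1) + (u + 1) ^ 2 / 2 + (u + 1) ^ 3 / 6 + (u + 1) ^ 4 / 24)) := by
    rw [hs, ht]
    ring
  rw [e] at h
  linarith

theorem od_three_d26_c0 (u : ℝ) (h1 : -3 ≤ u) (h2 : u ≤ -2) :
    13534 / 100000 *
      (1 + (u + 2) + (u + 2) ^ 2 / 2 + (u + 2) ^ 3 / 6 + (u + 2) ^ 4 / 24) ≤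
      (1 + 1 / 20 + (1 / 20) ^ 2 / 2) * (1 + u + 419 / 1000 * u ^ 2) := by
  obtain ⟨s, hs⟩ : ∃ s, s = u - (-3) := ⟨_, rfl⟩
  obtain ⟨t, ht⟩ : ∃ t, t = -2 - u := ⟨_, rfl⟩
  have hs0 : 0 ≤ s := by linarith
  have ht0 : 0 ≤ t := by linarith
  have h : 0 ≤
      1448809 / 800000 * t ^ 4 + 6728807 / 1200000 * s * t ^ 3 +
      5090071 / 800000 * s ^ 2 * t ^ 2 + 629441 / 200000 * s ^ 3 * t + 115061 / 200000 * s ^ 4 := by
    positivity
  have e :
      1448809 / 800000 * t ^ 4 + 6728807 / 1200000 * s * t ^ 3 +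
      5090071 / 800000 * s ^ 2 * t ^ 2 + 629441 / 200000 * s ^ 3 * t + 115061 / 200000 * s ^ 4 =
      (1 + 1 / 20 + (1 / 20) ^ 2 / 2) * (1 + u + 419 / 1000 * u ^ 2) -
      (13534 / 100000 *
      (1 + (u + 2) + (u + 2) ^ 2 / 2 + (u + 2) ^ 3 / 6 + (u + 2) ^ 4 / 24)) := by
    rw [hs, ht]
    ring
  rw [e] at h
  linarith

theorem od_three_d26_d (u : ℝ) (h2 : u ≤ -3) :
    4979 / 100000 ≤
      (1 + 1 / 20 + (1 / 20) ^ 2 / 2) * (1 + u + 419 / 1000 * u ^ 2) := by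
  obtain ⟨s, hs⟩ : ∃ s, s = -3 - u := ⟨_, rfl⟩
  have hs0 : 0 ≤ s := by linarith
  have h : 0 ≤
      1449579 / 800000 + 636637 / 400000 * s + 352379 / 800000 * s ^ 2 := by
    positivity
  have e :
      1449579 / 800000 + 636637 / 400000 * s + 352379 / 800000 * s ^ 2 =
      (1 + 1 / 20 + (1 / 20) ^ 2 / 2) * (1 + u + 419 / 1000 * u ^ 2) -
      (4979 / 100000) := by
    rw [hs]
    ring
  rw [e] at h
  linarith

theorem od_three_d26_e0 (u : ℝ) (h1 : 0 ≤ u) (h2 : u ≤ 1 / 5) :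
    1 + u + u ^ 2 / 2 + u ^ 3 / 6 + u ^ 4 / 24 + u ^ 5 / 100 ≤
      (1 + 1 / 20 + (1 / 20) ^ 2 / 2) * (1 + u + 419 / 1000 * u ^ 2) := by
  obtain ⟨s, hs⟩ : ∃ s, s = u - (0) := ⟨_, rfl⟩
  obtain ⟨t, ht⟩ : ∃ t, t = 1 / 5 - u := ⟨_, rfl⟩
  have hs0 : 0 ≤ s := by linarith
  have ht0 : 0 ≤ t := by linarith
  have h : 0 ≤
      5125 / 32 * t ^ 5 + 13325 / 16 * s * t ^ 4 + 11022379 / 6400 * s ^ 2 * t ^ 3 +
      33931411 / 19200 * s ^ 3 * t ^ 2 + 17242411 / 19200 * s ^ 4 * t + 230863 / 1280 * s ^ 5 := by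
    positivity
  have e :
      5125 / 32 * t ^ 5 + 13325 / 16 * s * t ^ 4 + 11022379 / 6400 * s ^ 2 * t ^ 3 +
      33931411 / 19200 * s ^ 3 * t ^ 2 + 17242411 / 19200 * s ^ 4 * t + 230863 / 1280 * s ^ 5 =
      (1 + 1 / 20 + (1 / 20) ^ 2 / 2) * (1 + u + 419 / 1000 * u ^ 2) -
      (1 + u + u ^ 2 / 2 + u ^ 3 / 6 + u ^ 4 / 24 + u ^ 5 / 100) := by
    rw [hs, ht]
    ring
  rw [e] at h
  linarith

theorem od_three_d26_f0 (u : ℝ) (h1 : 1 / 5 ≤ u) (h2 : u ≤ 1) :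
    122141 / 100000 * (1 + (u - 1 / 5) / 3) ^ 3 ≤
      (1 + 1 / 20 + (1 / 20) ^ 2 / 2) * (1 + u + 419 / 1000 * u ^ 2) := by
  obtain ⟨s, hs⟩ : ∃ s, s = u - (1 / 5) := ⟨_, rfl⟩
  obtain ⟨t, ht⟩ : ∃ t, t = 1 - u := ⟨_, rfl⟩
  have hs0 : 0 ≤ s := by linarith
  have ht0 : 0 ≤ t := by linarith
  have h : 0 ≤
      1154179 / 10240000 * t ^ 3 + 3559009 / 10240000 * s * t ^ 2 +
      12246587 / 30720000 * s ^ 2 * t + 163908173 / 1382400000 * s ^ 3 := by
    positivity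
  have e :
      1154179 / 10240000 * t ^ 3 + 3559009 / 10240000 * s * t ^ 2 +
      12246587 / 30720000 * s ^ 2 * t + 163908173 / 1382400000 * s ^ 3 =
      (1 + 1 / 20 + (1 / 20) ^ 2 / 2) * (1 + u + 419 / 1000 * u ^ 2) -
      (122141 / 100000 * (1 + (u - 1 / 5) / 3) ^ 3) := by
    rw [hs, ht]
    ring
  rw [e] at h
  linarith

theorem od_three_d26_g0 (u : ℝ) (h1 : 1 ≤ u) (h2 : u ≤ 5 / 2) :
    122141 / 100000 * (1 + (u - 1 / 5) / 3) ^ 3 ≤
      (1 + 1 / 20 + (1 / 20) ^ 2 / 2) * ((1 + (1 / 100 * (u ^ 2 - 1)) +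
      (1 / 100 * (u ^ 2 - 1)) ^ 2 / 2 +
      (1 / 100 * (u ^ 2 - 1)) ^ 3 / 6) *
      (1 + u + 419 / 1000 * u ^ 2)) := by
  obtain ⟨s, hs⟩ : ∃ s, s = u - (1) := ⟨_, rfl⟩
  obtain ⟨t, ht⟩ : ∃ t, t = 5 / 2 - u := ⟨_, rfl⟩
  have hs0 : 0 ≤ s := by linarith
  have ht0 : 0 ≤ t := by linarith
  have h : 0 ≤
      163908173 / 69198046875 * t ^ 8 + 5623695811 / 276792187500 * s * t ^ 7 +
      829974011387 / 11071687500000 * s ^ 2 * t ^ 6 +
      170092623473947 / 1107168750000000 * s ^ 3 * t ^ 5 +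
      420677879888851 / 2214337500000000 * s ^ 4 * t ^ 4 +
      2559755907727999 / 17714700000000000 * s ^ 5 * t ^ 3 +
      4662900956889851 / 70858800000000000 * s ^ 6 * t ^ 2 +
      116197105252333 / 7085880000000000 * s ^ 7 * t +
      19572025588631 / 11337408000000000 * s ^ 8 := by
    positivity
  have e :
      163908173 / 69198046875 * t ^ 8 + 5623695811 / 276792187500 * s * t ^ 7 +
      829974011387 / 11071687500000 * s ^ 2 * t ^ 6 +
      170092623473947 / 1107168750000000 * s ^ 3 * t ^ 5 +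
      420677879888851 / 2214337500000000 * s ^ 4 * t ^ 4 +
      2559755907727999 / 17714700000000000 * s ^ 5 * t ^ 3 +
      4662900956889851 / 70858800000000000 * s ^ 6 * t ^ 2 +
      116197105252333 / 7085880000000000 * s ^ 7 * t +
      19572025588631 / 11337408000000000 * s ^ 8 =
      (1 + 1 / 20 + (1 / 20) ^ 2 / 2) * ((1 + (1 / 100 * (u ^ 2 - 1)) +
      (1 / 100 * (u ^ 2 - 1)) ^ 2 / 2 +
      (1 / 100 * (u ^ 2 - 1)) ^ 3 / 6) *
      (1 + u + 419 / 1000 * u ^ 2)) -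
      (122141 / 100000 * (1 + (u - 1 / 5) / 3) ^ 3) := by
    rw [hs, ht]
    ring
  rw [e] at h
  linarith

theorem od_three_d26_g1 (u : ℝ) (h1 : 5 / 2 ≤ u) (h2 : u ≤ 4) :
    122141 / 100000 * (1 + (u - 1 / 5) / 3) ^ 3 ≤
      (1 + 1 / 20 + (1 / 20) ^ 2 / 2) * ((1 + (1 / 100 * (u ^ 2 - 1)) +
      (1 / 100 * (u ^ 2 - 1)) ^ 2 / 2 +
      (1 / 100 * (u ^ 2 - 1)) ^ 3 / 6) *
      (1 + u + 419 / 1000 * u ^ 2)) := by
  obtain ⟨s, hs⟩ : ∃ s, s = u - (5 / 2) := ⟨_, rfl⟩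
  obtain ⟨t, ht⟩ : ∃ t, t = 4 - u := ⟨_, rfl⟩
  have hs0 : 0 ≤ s := by linarith
  have ht0 : 0 ≤ t := by linarith
  have h : 0 ≤
      19572025588631 / 11337408000000000 * t ^ 8 +
      79523150633977 / 7085880000000000 * s * t ^ 7 +
      2095724133604931 / 70858800000000000 * s ^ 2 * t ^ 6 +
      181993192998331 / 4428675000000000 * s ^ 3 * t ^ 5 +
      624449418649733 / 17714700000000000 * s ^ 4 * t ^ 4 +
      56678574834749 / 2214337500000000 * s ^ 5 * t ^ 3 +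
      17666956138909 / 885735000000000 * s ^ 6 * t ^ 2 +
      15697426343 / 1383960937500 * s ^ 7 * t + 3052296257 / 1107168750000 * s ^ 8 := by
    positivity
  have e :
      19572025588631 / 11337408000000000 * t ^ 8 +
      79523150633977 / 7085880000000000 * s * t ^ 7 +
      2095724133604931 / 70858800000000000 * s ^ 2 * t ^ 6 +
      181993192998331 / 4428675000000000 * s ^ 3 * t ^ 5 +
      624449418649733 / 17714700000000000 * s ^ 4 * t ^ 4 +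
      56678574834749 / 2214337500000000 * s ^ 5 * t ^ 3 +
      17666956138909 / 885735000000000 * s ^ 6 * t ^ 2 +
      15697426343 / 1383960937500 * s ^ 7 * t + 3052296257 / 1107168750000 * s ^ 8 =
      (1 + 1 / 20 + (1 / 20) ^ 2 / 2) * ((1 + (1 / 100 * (u ^ 2 - 1)) +
      (1 / 100 * (u ^ 2 - 1)) ^ 2 / 2 +
      (1 / 100 * (u ^ 2 - 1)) ^ 3 / 6) *
      (1 + u + 419 / 1000 * u ^ 2)) -
      (122141 / 100000 * (1 + (u - 1 / 5) / 3) ^ 3) := by
    rw [hs, ht]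
    ring
  rw [e] at h
  linarith

theorem od_three_d26_t (u : ℝ) (h1 : 4 ≤ u) :
    122141 / 100000 * (1 + (u - 1 / 5) / 3) ^ 3 ≤
      (1 + 1 / 20 + (1 / 20) ^ 2 / 2) * ((1 + (1 / 100 * (u ^ 2 - 1)) +
      (1 / 100 * (u ^ 2 - 1)) ^ 2 / 2 +
      (1 / 100 * (u ^ 2 - 1)) ^ 3 / 6) *
      (1 + u + 419 / 1000 * u ^ 2)) := by
  obtain ⟨s, hs⟩ : ∃ s, s = u - (4) := ⟨_, rfl⟩
  have hs0 : 0 ≤ s := by linarith
  have h : 0 ≤
      3052296257 / 43200000000 + 1647281803 / 9000000000 * s +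
      581997121447 / 2880000000000 * s ^ 2 + 421285609409 / 5400000000000 * s ^ 3 +
      59695573537 / 4800000000000 * s ^ 4 + 270451303 / 300000000000 * s ^ 5 +
      57382271 / 960000000000 * s ^ 6 + 1514641 / 600000000000 * s ^ 7 +
      352379 / 4800000000000 * s ^ 8 := by
    positivity
  have e :
      3052296257 / 43200000000 + 1647281803 / 9000000000 * s +
      581997121447 / 2880000000000 * s ^ 2 + 421285609409 / 5400000000000 * s ^ 3 +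
      59695573537 / 4800000000000 * s ^ 4 + 270451303 / 300000000000 * s ^ 5 +
      57382271 / 960000000000 * s ^ 6 + 1514641 / 600000000000 * s ^ 7 +
      352379 / 4800000000000 * s ^ 8 =
      (1 + 1 / 20 + (1 / 20) ^ 2 / 2) * ((1 + (1 / 100 * (u ^ 2 - 1)) +
      (1 / 100 * (u ^ 2 - 1)) ^ 2 / 2 +
      (1 / 100 * (u ^ 2 - 1)) ^ 3 / 6) *
      (1 + u + 419 / 1000 * u ^ 2)) -
      (122141 / 100000 * (1 + (u - 1 / 5) / 3) ^ 3) := by
    rw [hs]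
    ring
  rw [e] at h
  linarith

/-- `K = 3`: `(c, μ, P, δ) = (419 / 1000, 1 / 100, 1 / 5, 1 / 20)` -/
theorem expOd_three_d26 : ExpOd 3 (419 / 1000) (1 / 100) (1 / 5) (1 / 20) := by
  have hde : (1 + 1 / 20 + (1 / 20) ^ 2 / 2) ≤ Real.exp (1 / 20) := Real.quadratic_le_exp_of_nonneg (by norm_num)
  have hq : ∀ u : ℝ, 0 ≤ 1 + u + 419 / 1000 * u ^ 2 := fun u => by
    nlinarith [sq_nonneg (u + 2), sq_nonneg u]
  have hR : ∀ (u x y : ℝ), x ≤ y → y ≤ (1 + 1 / 20 + (1 / 20) ^ 2 / 2) * (1 + u + 419 / 1000 * u ^ 2) →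
      x ≤ Real.exp (1 / 20) * (1 + u + 419 / 1000 * u ^ 2) := fun u x y h1 h2 =>
    (h1.trans h2).trans (mul_le_mul_of_nonneg_right hde (hq u))
  refine ExpOd.of (by norm_num) (by norm_num) (by norm_num) (by norm_num) (by norm_num) ?_ ?_ ?_
  · intro u h1
    rcases le_total u (-3) with h3 | h3
    · exact hR u _ _ (exp_le_n3 h3) (od_three_d26_d u h3)
    rcases le_total u (-2) with h4 | h4
    · refine hR u _ _ (exp_le_n2 h4) ?_
      exact od_three_d26_c0 u (by linarith) (by linarith)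
    rcases le_total u (-1) with h5 | h5
    · refine hR u _ _ (exp_le_n1 h5) ?_
      exact od_three_d26_b0 u (by linarith) (by linarith)
    rcases le_total u 0 with h6 | h6
    · refine hR u _ _ (exp_le_n0 h6) ?_
      exact od_three_d26_a0 u (by linarith) (by linarith)
    refine hR u _ _ (exp_le_p h6 (by linarith)) ?_
    exact od_three_d26_e0 u (by linarith) (by linarith)
  · intro u h1 h2
    have h4 : 0 ≤ (1 + (u - 1 / 5) / 3) ^ 3 := by
      have : 0 ≤ (u - 1 / 5) / 3 := div_nonneg (by linarith) (by norm_num)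
      positivity
    have hE : Real.exp (1 / 5) ≤ 122141 / 100000 := exp_up_1_5
    push_cast
    refine hR u _ _ (mul_le_mul_of_nonneg_right hE h4) ?_
    exact od_three_d26_f0 u (by linarith) (by linarith)
  · intro u h1
    have h4 : 0 ≤ (1 + (u - 1 / 5) / 3) ^ 3 := by
      have : 0 ≤ (u - 1 / 5) / 3 := div_nonneg (by linarith) (by norm_num)
      positivity
    have hE : Real.exp (1 / 5) ≤ 122141 / 100000 := exp_up_1_5
    have hx : 0 ≤ 1 / 100 * (u ^ 2 - 1) := mul_nonneg (by norm_num) (by nlinarith)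
    have h5 := mul_le_mul_of_nonneg_right (taylor3_le_exp _ hx) (hq u)
    have h6 : 0 ≤ Real.exp (1 / 100 * (u ^ 2 - 1)) * (1 + u + 419 / 1000 * u ^ 2) :=
      mul_nonneg (Real.exp_nonneg _) (hq u)
    rw [Real.exp_add, mul_assoc]
    push_cast
    refine ((mul_le_mul_of_nonneg_right hE h4).trans ?_).trans
      ((mul_le_mul_of_nonneg_left h5 (by norm_num : (0 : ℝ) ≤ (1 + 1 / 20 + (1 / 20) ^ 2 / 2))).trans
        (mul_le_mul_of_nonneg_right hde h6))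
    rcases le_total u (5 / 2) with hh | hh
    · exact od_three_d26_g0 u (by linarith) (by linarith)
    rcases le_total u (4) with hh | hh
    · exact od_three_d26_g1 u (by linarith) (by linarith)
    exact od_three_d26_t u (by linarith)

theorem od_three_d27_a0 (u : ℝ) (h1 : -1 ≤ u) (h2 : u ≤ 0) :
    1 + u + u ^ 2 / 2 + u ^ 3 / 6 + u ^ 4 / 24 ≤
      (1 + 1 / 10 + (1 / 10) ^ 2 / 2) * (1 + u + 43 / 125 * u ^ 2) := by
  obtain ⟨s, hs⟩ : ∃ s, s = u - (-1) := ⟨_, rfl⟩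
  obtain ⟨t, ht⟩ : ∃ t, t = 0 - u := ⟨_, rfl⟩
  have hs0 : 0 ≤ s := by linarith
  have ht0 : 0 ≤ t := by linarith
  have h : 0 ≤
      16 / 3125 * t ^ 4 + 2393 / 75000 * s * t ^ 3 + 2439 / 12500 * s ^ 2 * t ^ 2 +
      63 / 200 * s ^ 3 * t + 21 / 200 * s ^ 4 := by
    positivity
  have e :
      16 / 3125 * t ^ 4 + 2393 / 75000 * s * t ^ 3 + 2439 / 12500 * s ^ 2 * t ^ 2 +
      63 / 200 * s ^ 3 * t + 21 / 200 * s ^ 4 =
      (1 + 1 / 10 + (1 / 10) ^ 2 / 2) * (1 + u + 43 / 125 * u ^ 2) -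
      (1 + u + u ^ 2 / 2 + u ^ 3 / 6 + u ^ 4 / 24) := by
    rw [hs, ht]
    ring
  rw [e] at h
  linarith

theorem od_three_d27_b0 (u : ℝ) (h1 : -2 ≤ u) (h2 : u ≤ -1) :
    36788 / 100000 *
      (1 + (u + 1) + (u + 1) ^ 2 / 2 + (u + 1) ^ 3 / 6 + (u + 1) ^ 4 / 24) ≤
      (1 + 1 / 10 + (1 / 10) ^ 2 / 2) * (1 + u + 43 / 125 * u ^ 2) := by
  obtain ⟨s, hs⟩ : ∃ s, s = u - (-2) := ⟨_, rfl⟩
  obtain ⟨t, ht⟩ : ∃ t, t = -1 - u := ⟨_, rfl⟩
  have hs0 : 0 ≤ s := by linarith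
  have ht0 : 0 ≤ t := by linarith
  have h : 0 ≤
      11101 / 40000 * t ^ 4 + 85799 / 150000 * s * t ^ 3 + 16949 / 50000 * s ^ 2 * t ^ 2 +
      901 / 12500 * s ^ 3 * t + 153 / 12500 * s ^ 4 := by
    positivity
  have e :
      11101 / 40000 * t ^ 4 + 85799 / 150000 * s * t ^ 3 + 16949 / 50000 * s ^ 2 * t ^ 2 +
      901 / 12500 * s ^ 3 * t + 153 / 12500 * s ^ 4 =
      (1 + 1 / 10 + (1 / 10) ^ 2 / 2) * (1 + u + 43 / 125 * u ^ 2) -
      (36788 / 100000 *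
      (1 + (u + 1) + (u + 1) ^ 2 / 2 + (u + 1) ^ 3 / 6 + (u + 1) ^ 4 / 24)) := by
    rw [hs, ht]
    ring
  rw [e] at h
  linarith

theorem od_three_d27_c0 (u : ℝ) (h1 : -3 ≤ u) (h2 : u ≤ -2) :
    13534 / 100000 *
      (1 + (u + 2) + (u + 2) ^ 2 / 2 + (u + 2) ^ 3 / 6 + (u + 2) ^ 4 / 24) ≤
      (1 + 1 / 10 + (1 / 10) ^ 2 / 2) * (1 + u + 43 / 125 * u ^ 2) := by
  obtain ⟨s, hs⟩ : ∃ s, s = u - (-3) := ⟨_, rfl⟩
  obtain ⟨t, ht⟩ : ∃ t, t = -2 - u := ⟨_, rfl⟩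
  have hs0 : 0 ≤ s := by linarith
  have ht0 : 0 ≤ t := by linarith
  have h : 0 ≤
      464131 / 400000 * t ^ 4 + 1026143 / 300000 * s * t ^ 3 + 14583 / 4000 * s ^ 2 * t ^ 2 +
      83569 / 50000 * s ^ 3 * t + 14007 / 50000 * s ^ 4 := by
    positivity
  have e :
      464131 / 400000 * t ^ 4 + 1026143 / 300000 * s * t ^ 3 + 14583 / 4000 * s ^ 2 * t ^ 2 +
      83569 / 50000 * s ^ 3 * t + 14007 / 50000 * s ^ 4 =
      (1 + 1 / 10 + (1 / 10) ^ 2 / 2) * (1 + u + 43 / 125 * u ^ 2) -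
      (13534 / 100000 *
      (1 + (u + 2) + (u + 2) ^ 2 / 2 + (u + 2) ^ 3 / 6 + (u + 2) ^ 4 / 24)) := by
    rw [hs, ht]
    ring
  rw [e] at h
  linarith

theorem od_three_d27_d (u : ℝ) (h2 : u ≤ -3) :
    4979 / 100000 ≤
      (1 + 1 / 10 + (1 / 10) ^ 2 / 2) * (1 + u + 43 / 125 * u ^ 2) := by
  obtain ⟨s, hs⟩ : ∃ s, s = -3 - u := ⟨_, rfl⟩
  have hs0 : 0 ≤ s := by linarith
  have h : 0 ≤
      116129 / 100000 + 29393 / 25000 * s + 9503 / 25000 * s ^ 2 := by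
    positivity
  have e :
      116129 / 100000 + 29393 / 25000 * s + 9503 / 25000 * s ^ 2 =
      (1 + 1 / 10 + (1 / 10) ^ 2 / 2) * (1 + u + 43 / 125 * u ^ 2) -
      (4979 / 100000) := by
    rw [hs]
    ring
  rw [e] at h
  linarith

theorem od_three_d27_e0 (u : ℝ) (h1 : 0 ≤ u) (h2 : u ≤ 1 / 5) :
    1 + u + u ^ 2 / 2 + u ^ 3 / 6 + u ^ 4 / 24 + u ^ 5 / 100 ≤
      (1 + 1 / 10 + (1 / 10) ^ 2 / 2) * (1 + u + 43 / 125 * u ^ 2) := by
  obtain ⟨s, hs⟩ : ∃ s, s = u - (0) := ⟨_, rfl⟩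
  obtain ⟨t, ht⟩ : ∃ t, t = 1 / 5 - u := ⟨_, rfl⟩
  have hs0 : 0 ≤ s := by linarith
  have ht0 : 0 ≤ t := by linarith
  have h : 0 ≤
      2625 / 8 * t ^ 5 + 6825 / 4 * s * t ^ 4 + 705753 / 200 * s ^ 2 * t ^ 3 +
      2175527 / 600 * s ^ 3 * t ^ 2 + 1109777 / 600 * s ^ 4 * t + 18719 / 50 * s ^ 5 := by
    positivity
  have e :
      2625 / 8 * t ^ 5 + 6825 / 4 * s * t ^ 4 + 705753 / 200 * s ^ 2 * t ^ 3 +
      2175527 / 600 * s ^ 3 * t ^ 2 + 1109777 / 600 * s ^ 4 * t + 18719 / 50 * s ^ 5 =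
      (1 + 1 / 10 + (1 / 10) ^ 2 / 2) * (1 + u + 43 / 125 * u ^ 2) -
      (1 + u + u ^ 2 / 2 + u ^ 3 / 6 + u ^ 4 / 24 + u ^ 5 / 100) := by
    rw [hs, ht]
    ring
  rw [e] at h
  linarith

theorem od_three_d27_f0 (u : ℝ) (h1 : 1 / 5 ≤ u) (h2 : u ≤ 1) :
    122141 / 100000 * (1 + (u - 1 / 5) / 3) ^ 3 ≤
      (1 + 1 / 10 + (1 / 10) ^ 2 / 2) * (1 + u + 43 / 125 * u ^ 2) := by
  obtain ⟨s, hs⟩ : ∃ s, s = u - (1 / 5) := ⟨_, rfl⟩
  obtain ⟨t, ht⟩ : ∃ t, t = 1 - u := ⟨_, rfl⟩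
  have hs0 : 0 ≤ s := by linarith
  have ht0 : 0 ≤ t := by linarith
  have h : 0 ≤
      299487 / 1280000 * t ^ 3 + 969737 / 1280000 * s * t ^ 2 +
      2993359 / 3840000 * s ^ 2 * t + 36400381 / 172800000 * s ^ 3 := by
    positivity
  have e :
      299487 / 1280000 * t ^ 3 + 969737 / 1280000 * s * t ^ 2 +
      2993359 / 3840000 * s ^ 2 * t + 36400381 / 172800000 * s ^ 3 =
      (1 + 1 / 10 + (1 / 10) ^ 2 / 2) * (1 + u + 43 / 125 * u ^ 2) -
      (122141 / 100000 * (1 + (u - 1 / 5) / 3) ^ 3) := by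
    rw [hs, ht]
    ring
  rw [e] at h
  linarith

theorem od_three_d27_g0 (u : ℝ) (h1 : 1 ≤ u) (h2 : u ≤ 3) :
    122141 / 100000 * (1 + (u - 1 / 5) / 3) ^ 3 ≤
      (1 + 1 / 10 + (1 / 10) ^ 2 / 2) * ((1 + (3 / 200 * (u ^ 2 - 1)) +
      (3 / 200 * (u ^ 2 - 1)) ^ 2 / 2 +
      (3 / 200 * (u ^ 2 - 1)) ^ 3 / 6) *
      (1 + u + 43 / 125 * u ^ 2)) := by
  obtain ⟨s, hs⟩ : ∃ s, s = u - (1) := ⟨_, rfl⟩
  obtain ⟨t, ht⟩ : ∃ t, t = 3 - u := ⟨_, rfl⟩
  have hs0 : 0 ≤ s := by linarith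
  have ht0 : 0 ≤ t := by linarith
  have h : 0 ≤
      36400381 / 86400000000 * t ^ 8 + 69975737 / 21600000000 * s * t ^ 7 +
      8866339159 / 864000000000 * s ^ 2 * t ^ 6 +
      244983099293 / 14400000000000 * s ^ 3 * t ^ 5 +
      37125553561 / 2400000000000 * s ^ 4 * t ^ 4 +
      104325456451 / 14400000000000 * s ^ 5 * t ^ 3 +
      7382104067 / 5400000000000 * s ^ 6 * t ^ 2 + 842812781 / 10800000000000 * s ^ 7 * t +
      605921047 / 10800000000000 * s ^ 8 := by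
    positivity
  have e :
      36400381 / 86400000000 * t ^ 8 + 69975737 / 21600000000 * s * t ^ 7 +
      8866339159 / 864000000000 * s ^ 2 * t ^ 6 +
      244983099293 / 14400000000000 * s ^ 3 * t ^ 5 +
      37125553561 / 2400000000000 * s ^ 4 * t ^ 4 +
      104325456451 / 14400000000000 * s ^ 5 * t ^ 3 +
      7382104067 / 5400000000000 * s ^ 6 * t ^ 2 + 842812781 / 10800000000000 * s ^ 7 * t +
      605921047 / 10800000000000 * s ^ 8 =
      (1 + 1 / 10 + (1 / 10) ^ 2 / 2) * ((1 + (3 / 200 * (u ^ 2 - 1)) +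
      (3 / 200 * (u ^ 2 - 1)) ^ 2 / 2 +
      (3 / 200 * (u ^ 2 - 1)) ^ 3 / 6) *
      (1 + u + 43 / 125 * u ^ 2)) -
      (122141 / 100000 * (1 + (u - 1 / 5) / 3) ^ 3) := by
    rw [hs, ht]
    ring
  rw [e] at h
  linarith

theorem od_three_d27_t (u : ℝ) (h1 : 3 ≤ u) :
    122141 / 100000 * (1 + (u - 1 / 5) / 3) ^ 3 ≤
      (1 + 1 / 10 + (1 / 10) ^ 2 / 2) * ((1 + (3 / 200 * (u ^ 2 - 1)) +
      (3 / 200 * (u ^ 2 - 1)) ^ 2 / 2 +
      (3 / 200 * (u ^ 2 - 1)) ^ 3 / 6) *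
      (1 + u + 43 / 125 * u ^ 2)) := by
  obtain ⟨s, hs⟩ : ∃ s, s = u - (3) := ⟨_, rfl⟩
  have hs0 : 0 ≤ s := by linarith
  have h : 0 ≤
      605921047 / 42187500000 + 266970373 / 5625000000 * s +
      8610102661 / 56250000000 * s ^ 2 + 106294666787 / 1350000000000 * s ^ 3 +
      1514618859 / 100000000000 * s ^ 4 + 266520033 / 200000000000 * s ^ 5 +
      43871373 / 400000000000 * s ^ 6 + 2301273 / 400000000000 * s ^ 7 +
      85527 / 400000000000 * s ^ 8 := by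
    positivity
  have e :
      605921047 / 42187500000 + 266970373 / 5625000000 * s +
      8610102661 / 56250000000 * s ^ 2 + 106294666787 / 1350000000000 * s ^ 3 +
      1514618859 / 100000000000 * s ^ 4 + 266520033 / 200000000000 * s ^ 5 +
      43871373 / 400000000000 * s ^ 6 + 2301273 / 400000000000 * s ^ 7 +
      85527 / 400000000000 * s ^ 8 =
      (1 + 1 / 10 + (1 / 10) ^ 2 / 2) * ((1 + (3 / 200 * (u ^ 2 - 1)) +
      (3 / 200 * (u ^ 2 - 1)) ^ 2 / 2 +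
      (3 / 200 * (u ^ 2 - 1)) ^ 3 / 6) *
      (1 + u + 43 / 125 * u ^ 2)) -
      (122141 / 100000 * (1 + (u - 1 / 5) / 3) ^ 3) := by
    rw [hs]
    ring
  rw [e] at h
  linarith

/-- `K = 3`: `(c, μ, P, δ) = (43 / 125, 3 / 200, 1 / 5, 1 / 10)` -/
theorem expOd_three_d27 : ExpOd 3 (43 / 125) (3 / 200) (1 / 5) (1 / 10) := by
  have hde : (1 + 1 / 10 + (1 / 10) ^ 2 / 2) ≤ Real.exp (1 / 10) := Real.quadratic_le_exp_of_nonneg (by norm_num)
  have hq : ∀ u : ℝ, 0 ≤ 1 + u + 43 / 125 * u ^ 2 := fun u => by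
    nlinarith [sq_nonneg (u + 2), sq_nonneg u]
  have hR : ∀ (u x y : ℝ), x ≤ y → y ≤ (1 + 1 / 10 + (1 / 10) ^ 2 / 2) * (1 + u + 43 / 125 * u ^ 2) →
      x ≤ Real.exp (1 / 10) * (1 + u + 43 / 125 * u ^ 2) := fun u x y h1 h2 =>
    (h1.trans h2).trans (mul_le_mul_of_nonneg_right hde (hq u))
  refine ExpOd.of (by norm_num) (by norm_num) (by norm_num) (by norm_num) (by norm_num) ?_ ?_ ?_
  · intro u h1
    rcases le_total u (-3) with h3 | h3
    · exact hR u _ _ (exp_le_n3 h3) (od_three_d27_d u h3)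
    rcases le_total u (-2) with h4 | h4
    · refine hR u _ _ (exp_le_n2 h4) ?_
      exact od_three_d27_c0 u (by linarith) (by linarith)
    rcases le_total u (-1) with h5 | h5
    · refine hR u _ _ (exp_le_n1 h5) ?_
      exact od_three_d27_b0 u (by linarith) (by linarith)
    rcases le_total u 0 with h6 | h6
    · refine hR u _ _ (exp_le_n0 h6) ?_
      exact od_three_d27_a0 u (by linarith) (by linarith)
    refine hR u _ _ (exp_le_p h6 (by linarith)) ?_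
    exact od_three_d27_e0 u (by linarith) (by linarith)
  · intro u h1 h2
    have h4 : 0 ≤ (1 + (u - 1 / 5) / 3) ^ 3 := by
      have : 0 ≤ (u - 1 / 5) / 3 := div_nonneg (by linarith) (by norm_num)
      positivity
    have hE : Real.exp (1 / 5) ≤ 122141 / 100000 := exp_up_1_5
    push_cast
    refine hR u _ _ (mul_le_mul_of_nonneg_right hE h4) ?_
    exact od_three_d27_f0 u (by linarith) (by linarith)
  · intro u h1
    have h4 : 0 ≤ (1 + (u - 1 / 5) / 3) ^ 3 := by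
      have : 0 ≤ (u - 1 / 5) / 3 := div_nonneg (by linarith) (by norm_num)
      positivity
    have hE : Real.exp (1 / 5) ≤ 122141 / 100000 := exp_up_1_5
    have hx : 0 ≤ 3 / 200 * (u ^ 2 - 1) := mul_nonneg (by norm_num) (by nlinarith)
    have h5 := mul_le_mul_of_nonneg_right (taylor3_le_exp _ hx) (hq u)
    have h6 : 0 ≤ Real.exp (3 / 200 * (u ^ 2 - 1)) * (1 + u + 43 / 125 * u ^ 2) :=
      mul_nonneg (Real.exp_nonneg _) (hq u)
    rw [Real.exp_add, mul_assoc]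
    push_cast
    refine ((mul_le_mul_of_nonneg_right hE h4).trans ?_).trans
      ((mul_le_mul_of_nonneg_left h5 (by norm_num : (0 : ℝ) ≤ (1 + 1 / 10 + (1 / 10) ^ 2 / 2))).trans
        (mul_le_mul_of_nonneg_right hde h6))
    rcases le_total u (3) with hh | hh
    · exact od_three_d27_g0 u (by linarith) (by linarith)
    exact od_three_d27_t u (by linarith)

theorem od_three_d30_a0 (u : ℝ) (h1 : -1 ≤ u) (h2 : u ≤ 0) :
    1 + u + u ^ 2 / 2 + u ^ 3 / 6 + u ^ 4 / 24 ≤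
      1 * (1 + u + 5 / 8 * u ^ 2) := by
  obtain ⟨s, hs⟩ : ∃ s, s = u - (-1) := ⟨_, rfl⟩
  obtain ⟨t, ht⟩ : ∃ t, t = 0 - u := ⟨_, rfl⟩
  have hs0 : 0 ≤ s := by linarith
  have ht0 : 0 ≤ t := by linarith
  have h : 0 ≤
      1 / 4 * t ^ 4 + 5 / 12 * s * t ^ 3 + 1 / 8 * s ^ 2 * t ^ 2 := by
    positivity
  have e :
      1 / 4 * t ^ 4 + 5 / 12 * s * t ^ 3 + 1 / 8 * s ^ 2 * t ^ 2 =
      1 * (1 + u + 5 / 8 * u ^ 2) -
      (1 + u + u ^ 2 / 2 + u ^ 3 / 6 + u ^ 4 / 24) := by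
    rw [hs, ht]
    ring
  rw [e] at h
  linarith

theorem od_three_d30_b0 (u : ℝ) (h1 : -2 ≤ u) (h2 : u ≤ -1) :
    36788 / 100000 *
      (1 + (u + 1) + (u + 1) ^ 2 / 2 + (u + 1) ^ 3 / 6 + (u + 1) ^ 4 / 24) ≤
      1 * (1 + u + 5 / 8 * u ^ 2) := by
  obtain ⟨s, hs⟩ : ∃ s, s = u - (-2) := ⟨_, rfl⟩
  obtain ⟨t, ht⟩ : ∃ t, t = -1 - u := ⟨_, rfl⟩
  have hs0 : 0 ≤ s := by linarith
  have ht0 : 0 ≤ t := by linarith
  have h : 0 ≤
      272409 / 200000 * t ^ 4 + 573833 / 150000 * s * t ^ 3 +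
      191871 / 50000 * s ^ 2 * t ^ 2 + 41159 / 25000 * s ^ 3 * t + 1607 / 6250 * s ^ 4 := by
    positivity
  have e :
      272409 / 200000 * t ^ 4 + 573833 / 150000 * s * t ^ 3 +
      191871 / 50000 * s ^ 2 * t ^ 2 + 41159 / 25000 * s ^ 3 * t + 1607 / 6250 * s ^ 4 =
      1 * (1 + u + 5 / 8 * u ^ 2) -
      (36788 / 100000 *
      (1 + (u + 1) + (u + 1) ^ 2 / 2 + (u + 1) ^ 3 / 6 + (u + 1) ^ 4 / 24)) := by
    rw [hs, ht]
    ring
  rw [e] at h
  linarith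

theorem od_three_d30_c0 (u : ℝ) (h1 : -3 ≤ u) (h2 : u ≤ -2) :
    13534 / 100000 *
      (1 + (u + 2) + (u + 2) ^ 2 / 2 + (u + 2) ^ 3 / 6 + (u + 2) ^ 4 / 24) ≤
      1 * (1 + u + 5 / 8 * u ^ 2) := by
  obtain ⟨s, hs⟩ : ∃ s, s = u - (-3) := ⟨_, rfl⟩
  obtain ⟨t, ht⟩ : ∃ t, t = -2 - u := ⟨_, rfl⟩
  have hs0 : 0 ≤ s := by linarith
  have ht0 : 0 ≤ t := by linarith
  have h : 0 ≤
      1429699 / 400000 * t ^ 4 + 3450563 / 300000 * s * t ^ 3 +
      1365131 / 100000 * s ^ 2 * t ^ 2 + 354699 / 50000 * s ^ 3 * t + 68233 / 50000 * s ^ 4 := by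
    positivity
  have e :
      1429699 / 400000 * t ^ 4 + 3450563 / 300000 * s * t ^ 3 +
      1365131 / 100000 * s ^ 2 * t ^ 2 + 354699 / 50000 * s ^ 3 * t + 68233 / 50000 * s ^ 4 =
      1 * (1 + u + 5 / 8 * u ^ 2) -
      (13534 / 100000 *
      (1 + (u + 2) + (u + 2) ^ 2 / 2 + (u + 2) ^ 3 / 6 + (u + 2) ^ 4 / 24)) := by
    rw [hs, ht]
    ring
  rw [e] at h
  linarith

theorem od_three_d30_d (u : ℝ) (h2 : u ≤ -3) :
    4979 / 100000 ≤
      1 * (1 + u + 5 / 8 * u ^ 2) := by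
  obtain ⟨s, hs⟩ : ∃ s, s = -3 - u := ⟨_, rfl⟩
  have hs0 : 0 ≤ s := by linarith
  have h : 0 ≤
      357521 / 100000 + 11 / 4 * s + 5 / 8 * s ^ 2 := by
    positivity
  have e :
      357521 / 100000 + 11 / 4 * s + 5 / 8 * s ^ 2 =
      1 * (1 + u + 5 / 8 * u ^ 2) -
      (4979 / 100000) := by
    rw [hs]
    ring
  rw [e] at h
  linarith

theorem od_three_d30_e0 (u : ℝ) (h1 : 0 ≤ u) (h2 : u ≤ 1 / 3) :
    1 + u + u ^ 2 / 2 + u ^ 3 / 6 + u ^ 4 / 24 + u ^ 5 / 100 ≤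
      1 * (1 + u + 5 / 8 * u ^ 2) := by
  obtain ⟨s, hs⟩ : ∃ s, s = u - (0) := ⟨_, rfl⟩
  obtain ⟨t, ht⟩ : ∃ t, t = 1 / 3 - u := ⟨_, rfl⟩
  have hs0 : 0 ≤ s := by linarith
  have ht0 : 0 ≤ t := by linarith
  have h : 0 ≤
      27 / 8 * s ^ 2 * t ^ 3 + 69 / 8 * s ^ 3 * t ^ 2 + 7 * s ^ 4 * t + 87 / 50 * s ^ 5 := by
    positivity
  have e :
      27 / 8 * s ^ 2 * t ^ 3 + 69 / 8 * s ^ 3 * t ^ 2 + 7 * s ^ 4 * t + 87 / 50 * s ^ 5 =
      1 * (1 + u + 5 / 8 * u ^ 2) -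
      (1 + u + u ^ 2 / 2 + u ^ 3 / 6 + u ^ 4 / 24 + u ^ 5 / 100) := by
    rw [hs, ht]
    ring
  rw [e] at h
  linarith

theorem od_three_d30_f0 (u : ℝ) (h1 : 1 / 3 ≤ u) (h2 : u ≤ 1) :
    69781 / 50000 * (1 + (u - 1 / 3) / 3) ^ 3 ≤
      1 * (1 + u + 5 / 8 * u ^ 2) := by
  obtain ⟨s, hs⟩ : ∃ s, s = u - (1 / 3) := ⟨_, rfl⟩
  obtain ⟨t, ht⟩ : ∃ t, t = 1 - u := ⟨_, rfl⟩
  have hs0 : 0 ≤ s := by linarith
  have ht0 : 0 ≤ t := by linarith
  have h : 0 ≤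
      9663 / 400000 * t ^ 3 + 47931 / 400000 * s * t ^ 2 + 162749 / 400000 * s ^ 2 * t +
      2802739 / 10800000 * s ^ 3 := by
    positivity
  have e :
      9663 / 400000 * t ^ 3 + 47931 / 400000 * s * t ^ 2 + 162749 / 400000 * s ^ 2 * t +
      2802739 / 10800000 * s ^ 3 =
      1 * (1 + u + 5 / 8 * u ^ 2) -
      (69781 / 50000 * (1 + (u - 1 / 3) / 3) ^ 3) := by
    rw [hs, ht]
    ring
  rw [e] at h
  linarith

theorem od_three_d30_g0 (u : ℝ) (h1 : 1 ≤ u) (h2 : u ≤ 9 / 2) :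
    69781 / 50000 * (1 + (u - 1 / 3) / 3) ^ 3 ≤
      1 * ((1 + (1 / 250 * (u ^ 2 - 1)) +
      (1 / 250 * (u ^ 2 - 1)) ^ 2 / 2 +
      (1 / 250 * (u ^ 2 - 1)) ^ 3 / 6) *
      (1 + u + 5 / 8 * u ^ 2)) := by
  obtain ⟨s, hs⟩ : ∃ s, s = u - (1) := ⟨_, rfl⟩
  obtain ⟨t, ht⟩ : ∃ t, t = 9 / 2 - u := ⟨_, rfl⟩
  have hs0 : 0 ≤ s := by linarith
  have ht0 : 0 ≤ t := by linarith
  have h : 0 ≤
      44843824 / 13132937278125 * t ^ 8 + 738791288 / 13132937278125 * s * t ^ 7 +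
      3230825132 / 9380669484375 * s ^ 2 * t ^ 6 +
      1178308630094 / 1172583685546875 * s ^ 3 * t ^ 5 +
      7530467716357 / 4690334742187500 * s ^ 4 * t ^ 4 +
      13927950223699 / 9380669484375000 * s ^ 5 * t ^ 3 +
      29638264643171 / 37522677937500000 * s ^ 6 * t ^ 2 +
      29317322785571 / 131329372781250000 * s ^ 7 * t +
      27207747999539 / 1050634982250000000 * s ^ 8 := by
    positivity
  have e :
      44843824 / 13132937278125 * t ^ 8 + 738791288 / 13132937278125 * s * t ^ 7 +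
      3230825132 / 9380669484375 * s ^ 2 * t ^ 6 +
      1178308630094 / 1172583685546875 * s ^ 3 * t ^ 5 +
      7530467716357 / 4690334742187500 * s ^ 4 * t ^ 4 +
      13927950223699 / 9380669484375000 * s ^ 5 * t ^ 3 +
      29638264643171 / 37522677937500000 * s ^ 6 * t ^ 2 +
      29317322785571 / 131329372781250000 * s ^ 7 * t +
      27207747999539 / 1050634982250000000 * s ^ 8 =
      1 * ((1 + (1 / 250 * (u ^ 2 - 1)) +
      (1 / 250 * (u ^ 2 - 1)) ^ 2 / 2 +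
      (1 / 250 * (u ^ 2 - 1)) ^ 3 / 6) *
      (1 + u + 5 / 8 * u ^ 2)) -
      (69781 / 50000 * (1 + (u - 1 / 3) / 3) ^ 3) := by
    rw [hs, ht]
    ring
  rw [e] at h
  linarith

theorem od_three_d30_g1 (u : ℝ) (h1 : 9 / 2 ≤ u) (h2 : u ≤ 8) :
    69781 / 50000 * (1 + (u - 1 / 3) / 3) ^ 3 ≤
      1 * ((1 + (1 / 250 * (u ^ 2 - 1)) +
      (1 / 250 * (u ^ 2 - 1)) ^ 2 / 2 +
      (1 / 250 * (u ^ 2 - 1)) ^ 3 / 6) *
      (1 + u + 5 / 8 * u ^ 2)) := by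
  obtain ⟨s, hs⟩ : ∃ s, s = u - (9 / 2) := ⟨_, rfl⟩
  obtain ⟨t, ht⟩ : ∃ t, t = 8 - u := ⟨_, rfl⟩
  have hs0 : 0 ≤ s := by linarith
  have ht0 : 0 ≤ t := by linarith
  have h : 0 ≤
      27207747999539 / 1050634982250000000 * t ^ 8 +
      25098173213507 / 131329372781250000 * s * t ^ 7 +
      21199965499043 / 37522677937500000 * s ^ 2 * t ^ 6 +
      989237373818 / 1172583685546875 * s ^ 3 * t ^ 5 +
      6086427127259 / 9380669484375000 * s ^ 4 * t ^ 4 +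
      263080971203 / 1172583685546875 * s ^ 5 * t ^ 3 +
      14339812609 / 469033474218750 * s ^ 6 * t ^ 2 +
      201955949672 / 8208085798828125 * s ^ 7 * t + 110251470064 / 8208085798828125 * s ^ 8 := by
    positivity
  have e :
      27207747999539 / 1050634982250000000 * t ^ 8 +
      25098173213507 / 131329372781250000 * s * t ^ 7 +
      21199965499043 / 37522677937500000 * s ^ 2 * t ^ 6 +
      989237373818 / 1172583685546875 * s ^ 3 * t ^ 5 +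
      6086427127259 / 9380669484375000 * s ^ 4 * t ^ 4 +
      263080971203 / 1172583685546875 * s ^ 5 * t ^ 3 +
      14339812609 / 469033474218750 * s ^ 6 * t ^ 2 +
      201955949672 / 8208085798828125 * s ^ 7 * t + 110251470064 / 8208085798828125 * s ^ 8 =
      1 * ((1 + (1 / 250 * (u ^ 2 - 1)) +
      (1 / 250 * (u ^ 2 - 1)) ^ 2 / 2 +
      (1 / 250 * (u ^ 2 - 1)) ^ 3 / 6) *
      (1 + u + 5 / 8 * u ^ 2)) -
      (69781 / 50000 * (1 + (u - 1 / 3) / 3) ^ 3) := by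
    rw [hs, ht]
    ring
  rw [e] at h
  linarith

theorem od_three_d30_t (u : ℝ) (h1 : 8 ≤ u) :
    69781 / 50000 * (1 + (u - 1 / 3) / 3) ^ 3 ≤
      1 * ((1 + (1 / 250 * (u ^ 2 - 1)) +
      (1 / 250 * (u ^ 2 - 1)) ^ 2 / 2 +
      (1 / 250 * (u ^ 2 - 1)) ^ 3 / 6) *
      (1 + u + 5 / 8 * u ^ 2)) := by
  obtain ⟨s, hs⟩ : ∃ s, s = u - (8) := ⟨_, rfl⟩
  have hs0 : 0 ≤ s := by linarith
  have h : 0 ≤
      6890716879 / 22781250000 + 269863417 / 506250000 * s +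
      2908989017 / 6750000000 * s ^ 2 + 43114159 / 421875000 * s ^ 3 +
      7282771 / 750000000 * s ^ 4 + 42469 / 93750000 * s ^ 5 + 13151 / 750000000 * s ^ 6 +
      41 / 93750000 * s ^ 7 + 1 / 150000000 * s ^ 8 := by
    positivity
  have e :
      6890716879 / 22781250000 + 269863417 / 506250000 * s +
      2908989017 / 6750000000 * s ^ 2 + 43114159 / 421875000 * s ^ 3 +
      7282771 / 750000000 * s ^ 4 + 42469 / 93750000 * s ^ 5 + 13151 / 750000000 * s ^ 6 +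
      41 / 93750000 * s ^ 7 + 1 / 150000000 * s ^ 8 =
      1 * ((1 + (1 / 250 * (u ^ 2 - 1)) +
      (1 / 250 * (u ^ 2 - 1)) ^ 2 / 2 +
      (1 / 250 * (u ^ 2 - 1)) ^ 3 / 6) *
      (1 + u + 5 / 8 * u ^ 2)) -
      (69781 / 50000 * (1 + (u - 1 / 3) / 3) ^ 3) := by
    rw [hs]
    ring
  rw [e] at h
  linarith

/-- `K = 3`: `(c, μ, P, δ) = (5 / 8, 1 / 250, 1 / 3, 0)` -/
theorem expOd_three_d30 : ExpOd 3 (5 / 8) (1 / 250) (1 / 3) (0) := by
  have hde : 1 ≤ Real.exp (0) := Real.exp_zero.ge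
  have hq : ∀ u : ℝ, 0 ≤ 1 + u + 5 / 8 * u ^ 2 := fun u => by
    nlinarith [sq_nonneg (u + 2), sq_nonneg u]
  have hR : ∀ (u x y : ℝ), x ≤ y → y ≤ 1 * (1 + u + 5 / 8 * u ^ 2) →
      x ≤ Real.exp (0) * (1 + u + 5 / 8 * u ^ 2) := fun u x y h1 h2 =>
    (h1.trans h2).trans (mul_le_mul_of_nonneg_right hde (hq u))
  refine ExpOd.of (by norm_num) (by norm_num) (by norm_num) (by norm_num) (by norm_num) ?_ ?_ ?_
  · intro u h1
    rcases le_total u (-3) with h3 | h3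
    · exact hR u _ _ (exp_le_n3 h3) (od_three_d30_d u h3)
    rcases le_total u (-2) with h4 | h4
    · refine hR u _ _ (exp_le_n2 h4) ?_
      exact od_three_d30_c0 u (by linarith) (by linarith)
    rcases le_total u (-1) with h5 | h5
    · refine hR u _ _ (exp_le_n1 h5) ?_
      exact od_three_d30_b0 u (by linarith) (by linarith)
    rcases le_total u 0 with h6 | h6
    · refine hR u _ _ (exp_le_n0 h6) ?_
      exact od_three_d30_a0 u (by linarith) (by linarith)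
    refine hR u _ _ (exp_le_p h6 (by linarith)) ?_
    exact od_three_d30_e0 u (by linarith) (by linarith)
  · intro u h1 h2
    have h4 : 0 ≤ (1 + (u - 1 / 3) / 3) ^ 3 := by
      have : 0 ≤ (u - 1 / 3) / 3 := div_nonneg (by linarith) (by norm_num)
      positivity
    have hE : Real.exp (1 / 3) ≤ 69781 / 50000 := exp_up_1_3
    push_cast
    refine hR u _ _ (mul_le_mul_of_nonneg_right hE h4) ?_
    exact od_three_d30_f0 u (by linarith) (by linarith)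
  · intro u h1
    have h4 : 0 ≤ (1 + (u - 1 / 3) / 3) ^ 3 := by
      have : 0 ≤ (u - 1 / 3) / 3 := div_nonneg (by linarith) (by norm_num)
      positivity
    have hE : Real.exp (1 / 3) ≤ 69781 / 50000 := exp_up_1_3
    have hx : 0 ≤ 1 / 250 * (u ^ 2 - 1) := mul_nonneg (by norm_num) (by nlinarith)
    have h5 := mul_le_mul_of_nonneg_right (taylor3_le_exp _ hx) (hq u)
    have h6 : 0 ≤ Real.exp (1 / 250 * (u ^ 2 - 1)) * (1 + u + 5 / 8 * u ^ 2) :=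
      mul_nonneg (Real.exp_nonneg _) (hq u)
    rw [Real.exp_add, mul_assoc]
    push_cast
    refine ((mul_le_mul_of_nonneg_right hE h4).trans ?_).trans
      ((mul_le_mul_of_nonneg_left h5 (by norm_num : (0 : ℝ) ≤ 1)).trans
        (mul_le_mul_of_nonneg_right hde h6))
    rcases le_total u (9 / 2) with hh | hh
    · exact od_three_d30_g0 u (by linarith) (by linarith)
    rcases le_total u (8) with hh | hh
    · exact od_three_d30_g1 u (by linarith) (by linarith)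
    exact od_three_d30_t u (by linarith)

theorem od_three_d31_a0 (u : ℝ) (h1 : -1 ≤ u) (h2 : u ≤ 0) :
    1 + u + u ^ 2 / 2 + u ^ 3 / 6 + u ^ 4 / 24 ≤
      (1 + 1 / 100 + (1 / 100) ^ 2 / 2) * (1 + u + 617 / 1000 * u ^ 2) := by
  obtain ⟨s, hs⟩ : ∃ s, s = u - (-1) := ⟨_, rfl⟩
  obtain ⟨t, ht⟩ : ∃ t, t = 0 - u := ⟨_, rfl⟩
  have hs0 : 0 ≤ s := by linarith
  have ht0 : 0 ≤ t := by linarith
  have h : 0 ≤
      4964017 / 20000000 * t ^ 4 + 12693551 / 30000000 * s * t ^ 3 +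
      3067017 / 20000000 * s ^ 2 * t ^ 2 + 603 / 20000 * s ^ 3 * t + 201 / 20000 * s ^ 4 := by
    positivity
  have e :
      4964017 / 20000000 * t ^ 4 + 12693551 / 30000000 * s * t ^ 3 +
      3067017 / 20000000 * s ^ 2 * t ^ 2 + 603 / 20000 * s ^ 3 * t + 201 / 20000 * s ^ 4 =
      (1 + 1 / 100 + (1 / 100) ^ 2 / 2) * (1 + u + 617 / 1000 * u ^ 2) -
      (1 + u + u ^ 2 / 2 + u ^ 3 / 6 + u ^ 4 / 24) := by
    rw [hs, ht]
    ring
  rw [e] at h
  linarith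

theorem od_three_d31_b0 (u : ℝ) (h1 : -2 ≤ u) (h2 : u ≤ -1) :
    36788 / 100000 *
      (1 + (u + 1) + (u + 1) ^ 2 / 2 + (u + 1) ^ 3 / 6 + (u + 1) ^ 4 / 24) ≤
      (1 + 1 / 100 + (1 / 100) ^ 2 / 2) * (1 + u + 617 / 1000 * u ^ 2) := by
  obtain ⟨s, hs⟩ : ∃ s, s = u - (-2) := ⟨_, rfl⟩
  obtain ⟨t, ht⟩ : ∃ t, t = -1 - u := ⟨_, rfl⟩
  have hs0 : 0 ≤ s := by linarith
  have ht0 : 0 ≤ t := by linarith
  have h : 0 ≤
      840499 / 625000 * t ^ 4 + 56607203 / 15000000 * s * t ^ 3 +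
      75677621 / 20000000 * s ^ 2 * t ^ 2 + 16255151 / 10000000 * s ^ 3 * t +
      5106417 / 20000000 * s ^ 4 := by
    positivity
  have e :
      840499 / 625000 * t ^ 4 + 56607203 / 15000000 * s * t ^ 3 +
      75677621 / 20000000 * s ^ 2 * t ^ 2 + 16255151 / 10000000 * s ^ 3 * t +
      5106417 / 20000000 * s ^ 4 =
      (1 + 1 / 100 + (1 / 100) ^ 2 / 2) * (1 + u + 617 / 1000 * u ^ 2) -
      (36788 / 100000 *
      (1 + (u + 1) + (u + 1) ^ 2 / 2 + (u + 1) ^ 3 / 6 + (u + 1) ^ 4 / 24)) := by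
    rw [hs, ht]
    ring
  rw [e] at h
  linarith

theorem od_three_d31_c0 (u : ℝ) (h1 : -3 ≤ u) (h2 : u ≤ -2) :
    13534 / 100000 *
      (1 + (u + 2) + (u + 2) ^ 2 / 2 + (u + 2) ^ 3 / 6 + (u + 2) ^ 4 / 24) ≤
      (1 + 1 / 100 + (1 / 100) ^ 2 / 2) * (1 + u + 617 / 1000 * u ^ 2) := by
  obtain ⟨s, hs⟩ : ∃ s, s = u - (-3) := ⟨_, rfl⟩
  obtain ⟨t, ht⟩ : ∃ t, t = -2 - u := ⟨_, rfl⟩
  have hs0 : 0 ≤ s := by linarith
  have ht0 : 0 ≤ t := by linarith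
  have h : 0 ≤
      70759103 / 20000000 * t ^ 4 + 68265313 / 6000000 * s * t ^ 3 +
      269885829 / 20000000 * s ^ 2 * t ^ 2 + 7007747 / 1000000 * s ^ 3 * t +
      6737067 / 5000000 * s ^ 4 := by
    positivity
  have e :
      70759103 / 20000000 * t ^ 4 + 68265313 / 6000000 * s * t ^ 3 +
      269885829 / 20000000 * s ^ 2 * t ^ 2 + 7007747 / 1000000 * s ^ 3 * t +
      6737067 / 5000000 * s ^ 4 =
      (1 + 1 / 100 + (1 / 100) ^ 2 / 2) * (1 + u + 617 / 1000 * u ^ 2) -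
      (13534 / 100000 *
      (1 + (u + 2) + (u + 2) ^ 2 / 2 + (u + 2) ^ 3 / 6 + (u + 2) ^ 4 / 24)) := by
    rw [hs, ht]
    ring
  rw [e] at h
  linarith

theorem od_three_d31_d (u : ℝ) (h2 : u ≤ -3) :
    4979 / 100000 ≤
      (1 + 1 / 100 + (1 / 100) ^ 2 / 2) * (1 + u + 617 / 1000 * u ^ 2) := by
  obtain ⟨s, hs⟩ : ∃ s, s = -3 - u := ⟨_, rfl⟩
  have hs0 : 0 ≤ s := by linarith
  have h : 0 ≤
      70778353 / 20000000 + 27291551 / 10000000 * s + 12464017 / 20000000 * s ^ 2 := by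
    positivity
  have e :
      70778353 / 20000000 + 27291551 / 10000000 * s + 12464017 / 20000000 * s ^ 2 =
      (1 + 1 / 100 + (1 / 100) ^ 2 / 2) * (1 + u + 617 / 1000 * u ^ 2) -
      (4979 / 100000) := by
    rw [hs]
    ring
  rw [e] at h
  linarith

theorem od_three_d31_e0 (u : ℝ) (h1 : 0 ≤ u) (h2 : u ≤ 1 / 3) :
    1 + u + u ^ 2 / 2 + u ^ 3 / 6 + u ^ 4 / 24 + u ^ 5 / 100 ≤
      (1 + 1 / 100 + (1 / 100) ^ 2 / 2) * (1 + u + 617 / 1000 * u ^ 2) := by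
  obtain ⟨s, hs⟩ : ∃ s, s = u - (0) := ⟨_, rfl⟩
  obtain ⟨t, ht⟩ : ∃ t, t = 1 / 3 - u := ⟨_, rfl⟩
  have hs0 : 0 ≤ s := by linarith
  have ht0 : 0 ≤ t := by linarith
  have h : 0 ≤
      48843 / 20000 * t ^ 5 + 16281 / 1250 * s * t ^ 4 +
      620082459 / 20000000 * s ^ 2 * t ^ 3 + 755701377 / 20000000 * s ^ 3 * t ^ 2 +
      446424377 / 20000000 * s ^ 4 * t + 98952459 / 20000000 * s ^ 5 := by
    positivity
  have e :
      48843 / 20000 * t ^ 5 + 16281 / 1250 * s * t ^ 4 +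
      620082459 / 20000000 * s ^ 2 * t ^ 3 + 755701377 / 20000000 * s ^ 3 * t ^ 2 +
      446424377 / 20000000 * s ^ 4 * t + 98952459 / 20000000 * s ^ 5 =
      (1 + 1 / 100 + (1 / 100) ^ 2 / 2) * (1 + u + 617 / 1000 * u ^ 2) -
      (1 + u + u ^ 2 / 2 + u ^ 3 / 6 + u ^ 4 / 24 + u ^ 5 / 100) := by
    rw [hs, ht]
    ring
  rw [e] at h
  linarith

theorem od_three_d31_f0 (u : ℝ) (h1 : 1 / 3 ≤ u) (h2 : u ≤ 1) :
    69781 / 50000 * (1 + (u - 1 / 3) / 3) ^ 3 ≤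
      (1 + 1 / 100 + (1 / 100) ^ 2 / 2) * (1 + u + 617 / 1000 * u ^ 2) := by
  obtain ⟨s, hs⟩ : ∃ s, s = u - (1 / 3) := ⟨_, rfl⟩
  obtain ⟨t, ht⟩ : ∃ t, t = 1 - u := ⟨_, rfl⟩
  have hs0 : 0 ≤ s := by linarith
  have ht0 : 0 ≤ t := by linarith
  have h : 0 ≤
      10993251 / 160000000 * t ^ 3 + 43742757 / 160000000 * s * t ^ 2 +
      18484873 / 32000000 * s ^ 2 * t + 1387921993 / 4320000000 * s ^ 3 := by
    positivity
  have e :
      10993251 / 160000000 * t ^ 3 + 43742757 / 160000000 * s * t ^ 2 +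
      18484873 / 32000000 * s ^ 2 * t + 1387921993 / 4320000000 * s ^ 3 =
      (1 + 1 / 100 + (1 / 100) ^ 2 / 2) * (1 + u + 617 / 1000 * u ^ 2) -
      (69781 / 50000 * (1 + (u - 1 / 3) / 3) ^ 3) := by
    rw [hs, ht]
    ring
  rw [e] at h
  linarith

theorem od_three_d31_g0 (u : ℝ) (h1 : 1 ≤ u) (h2 : u ≤ 9 / 2) :
    69781 / 50000 * (1 + (u - 1 / 3) / 3) ^ 3 ≤
      (1 + 1 / 100 + (1 / 100) ^ 2 / 2) * ((1 + (1 / 250 * (u ^ 2 - 1)) +
      (1 / 250 * (u ^ 2 - 1)) ^ 2 / 2 +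
      (1 / 250 * (u ^ 2 - 1)) ^ 3 / 6) *
      (1 + u + 617 / 1000 * u ^ 2)) := by
  obtain ⟨s, hs⟩ : ∃ s, s = u - (1) := ⟨_, rfl⟩
  obtain ⟨t, ht⟩ : ∃ t, t = 9 / 2 - u := ⟨_, rfl⟩
  have hs0 : 0 ≤ s := by linarith
  have ht0 : 0 ≤ t := by linarith
  have h : 0 ≤
      1387921993 / 328323431953125 * t ^ 8 + 5235273683501 / 82080857988281250 * s * t ^ 7 +
      273678546215422 / 732864803466796875 * s ^ 2 * t ^ 6 +
      781592447965818647 / 732864803466796875000 * s ^ 3 * t ^ 5 +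
      19754789401492272697 / 11725836855468750000000 * s ^ 4 * t ^ 4 +
      290424112619772563 / 187613389687500000000 * s ^ 5 * t ^ 3 +
      76965105639913421879 / 93806694843750000000000 * s ^ 6 * t ^ 2 +
      75968122064958577703 / 328323431953125000000000 * s ^ 7 * t +
      70393035322465934663 / 2626587455625000000000000 * s ^ 8 := by
    positivity
  have e :
      1387921993 / 328323431953125 * t ^ 8 + 5235273683501 / 82080857988281250 * s * t ^ 7 +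
      273678546215422 / 732864803466796875 * s ^ 2 * t ^ 6 +
      781592447965818647 / 732864803466796875000 * s ^ 3 * t ^ 5 +
      19754789401492272697 / 11725836855468750000000 * s ^ 4 * t ^ 4 +
      290424112619772563 / 187613389687500000000 * s ^ 5 * t ^ 3 +
      76965105639913421879 / 93806694843750000000000 * s ^ 6 * t ^ 2 +
      75968122064958577703 / 328323431953125000000000 * s ^ 7 * t +
      70393035322465934663 / 2626587455625000000000000 * s ^ 8 =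
      (1 + 1 / 100 + (1 / 100) ^ 2 / 2) * ((1 + (1 / 250 * (u ^ 2 - 1)) +
      (1 / 250 * (u ^ 2 - 1)) ^ 2 / 2 +
      (1 / 250 * (u ^ 2 - 1)) ^ 3 / 6) *
      (1 + u + 617 / 1000 * u ^ 2)) -
      (69781 / 50000 * (1 + (u - 1 / 3) / 3) ^ 3) := by
    rw [hs, ht]
    ring
  rw [e] at h
  linarith

theorem od_three_d31_g1 (u : ℝ) (h1 : 9 / 2 ≤ u) (h2 : u ≤ 8) :
    69781 / 50000 * (1 + (u - 1 / 3) / 3) ^ 3 ≤
      (1 + 1 / 100 + (1 / 100) ^ 2 / 2) * ((1 + (1 / 250 * (u ^ 2 - 1)) +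
      (1 / 250 * (u ^ 2 - 1)) ^ 2 / 2 +
      (1 / 250 * (u ^ 2 - 1)) ^ 3 / 6) *
      (1 + u + 617 / 1000 * u ^ 2)) := by
  obtain ⟨s, hs⟩ : ∃ s, s = u - (9 / 2) := ⟨_, rfl⟩
  obtain ⟨t, ht⟩ : ∃ t, t = 8 - u := ⟨_, rfl⟩
  have hs0 : 0 ≤ s := by linarith
  have ht0 : 0 ≤ t := by linarith
  have h : 0 ≤
      70393035322465934663 / 2626587455625000000000000 * t ^ 8 +
      64817948579973291623 / 328323431953125000000000 * s * t ^ 7 +
      54664758669942849719 / 93806694843750000000000 * s ^ 2 * t ^ 6 +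
      1272231983898810481 / 1465729606933593750000 * s ^ 3 * t ^ 5 +
      15523934552457962399 / 23451673710937500000000 * s ^ 4 * t ^ 4 +
      639127143469509137 / 2931459213867187500000 * s ^ 5 * t ^ 3 +
      101443244902080209 / 5862918427734375000000 * s ^ 6 * t ^ 2 +
      44579867068164241 / 2565026812133789062500 * s ^ 7 * t +
      15417454451669131 / 1282513406066894531250 * s ^ 8 := by
    positivity
  have e :
      70393035322465934663 / 2626587455625000000000000 * t ^ 8 +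
      64817948579973291623 / 328323431953125000000000 * s * t ^ 7 +
      54664758669942849719 / 93806694843750000000000 * s ^ 2 * t ^ 6 +
      1272231983898810481 / 1465729606933593750000 * s ^ 3 * t ^ 5 +
      15523934552457962399 / 23451673710937500000000 * s ^ 4 * t ^ 4 +
      639127143469509137 / 2931459213867187500000 * s ^ 5 * t ^ 3 +
      101443244902080209 / 5862918427734375000000 * s ^ 6 * t ^ 2 +
      44579867068164241 / 2565026812133789062500 * s ^ 7 * t +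
      15417454451669131 / 1282513406066894531250 * s ^ 8 =
      (1 + 1 / 100 + (1 / 100) ^ 2 / 2) * ((1 + (1 / 250 * (u ^ 2 - 1)) +
      (1 / 250 * (u ^ 2 - 1)) ^ 2 / 2 +
      (1 / 250 * (u ^ 2 - 1)) ^ 3 / 6) *
      (1 + u + 617 / 1000 * u ^ 2)) -
      (69781 / 50000 * (1 + (u - 1 / 3) / 3) ^ 3) := by
    rw [hs, ht]
    ring
  rw [e] at h
  linarith

theorem od_three_d31_t (u : ℝ) (h1 : 8 ≤ u) :
    69781 / 50000 * (1 + (u - 1 / 3) / 3) ^ 3 ≤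
      (1 + 1 / 100 + (1 / 100) ^ 2 / 2) * ((1 + (1 / 250 * (u ^ 2 - 1)) +
      (1 / 250 * (u ^ 2 - 1)) ^ 2 / 2 +
      (1 / 250 * (u ^ 2 - 1)) ^ 3 / 6) *
      (1 + u + 617 / 1000 * u ^ 2)) := by
  obtain ⟨s, hs⟩ : ∃ s, s = u - (8) := ⟨_, rfl⟩
  have hs0 : 0 ≤ s := by linarith
  have h : 0 ≤
      15417454451669131 / 56953125000000000 + 641585410027117 / 1265625000000000 * s +
      7204230378968789 / 16875000000000000 * s ^ 2 +
      214935733716719 / 2109375000000000 * s ^ 3 + 6055772491277 / 625000000000000 * s ^ 4 +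
      105936003497 / 234375000000000 * s ^ 5 + 32797596163 / 1875000000000000 * s ^ 6 +
      34079087 / 78125000000000 * s ^ 7 + 12464017 / 1875000000000000 * s ^ 8 := by
    positivity
  have e :
      15417454451669131 / 56953125000000000 + 641585410027117 / 1265625000000000 * s +
      7204230378968789 / 16875000000000000 * s ^ 2 +
      214935733716719 / 2109375000000000 * s ^ 3 + 6055772491277 / 625000000000000 * s ^ 4 +
      105936003497 / 234375000000000 * s ^ 5 + 32797596163 / 1875000000000000 * s ^ 6 +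
      34079087 / 78125000000000 * s ^ 7 + 12464017 / 1875000000000000 * s ^ 8 =
      (1 + 1 / 100 + (1 / 100) ^ 2 / 2) * ((1 + (1 / 250 * (u ^ 2 - 1)) +
      (1 / 250 * (u ^ 2 - 1)) ^ 2 / 2 +
      (1 / 250 * (u ^ 2 - 1)) ^ 3 / 6) *
      (1 + u + 617 / 1000 * u ^ 2)) -
      (69781 / 50000 * (1 + (u - 1 / 3) / 3) ^ 3) := by
    rw [hs]
    ring
  rw [e] at h
  linarith

/-- `K = 3`: `(c, μ, P, δ) = (617 / 1000, 1 / 250, 1 / 3, 1 / 100)` -/
theorem expOd_three_d31 : ExpOd 3 (617 / 1000) (1 / 250) (1 / 3) (1 / 100) := by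
  have hde : (1 + 1 / 100 + (1 / 100) ^ 2 / 2) ≤ Real.exp (1 / 100) := Real.quadratic_le_exp_of_nonneg (by norm_num)
  have hq : ∀ u : ℝ, 0 ≤ 1 + u + 617 / 1000 * u ^ 2 := fun u => by
    nlinarith [sq_nonneg (u + 2), sq_nonneg u]
  have hR : ∀ (u x y : ℝ), x ≤ y → y ≤ (1 + 1 / 100 + (1 / 100) ^ 2 / 2) * (1 + u + 617 / 1000 * u ^ 2) →
      x ≤ Real.exp (1 / 100) * (1 + u + 617 / 1000 * u ^ 2) := fun u x y h1 h2 =>
    (h1.trans h2).trans (mul_le_mul_of_nonneg_right hde (hq u))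
  refine ExpOd.of (by norm_num) (by norm_num) (by norm_num) (by norm_num) (by norm_num) ?_ ?_ ?_
  · intro u h1
    rcases le_total u (-3) with h3 | h3
    · exact hR u _ _ (exp_le_n3 h3) (od_three_d31_d u h3)
    rcases le_total u (-2) with h4 | h4
    · refine hR u _ _ (exp_le_n2 h4) ?_
      exact od_three_d31_c0 u (by linarith) (by linarith)
    rcases le_total u (-1) with h5 | h5
    · refine hR u _ _ (exp_le_n1 h5) ?_
      exact od_three_d31_b0 u (by linarith) (by linarith)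
    rcases le_total u 0 with h6 | h6
    · refine hR u _ _ (exp_le_n0 h6) ?_
      exact od_three_d31_a0 u (by linarith) (by linarith)
    refine hR u _ _ (exp_le_p h6 (by linarith)) ?_
    exact od_three_d31_e0 u (by linarith) (by linarith)
  · intro u h1 h2
    have h4 : 0 ≤ (1 + (u - 1 / 3) / 3) ^ 3 := by
      have : 0 ≤ (u - 1 / 3) / 3 := div_nonneg (by linarith) (by norm_num)
      positivity
    have hE : Real.exp (1 / 3) ≤ 69781 / 50000 := exp_up_1_3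
    push_cast
    refine hR u _ _ (mul_le_mul_of_nonneg_right hE h4) ?_
    exact od_three_d31_f0 u (by linarith) (by linarith)
  · intro u h1
    have h4 : 0 ≤ (1 + (u - 1 / 3) / 3) ^ 3 := by
      have : 0 ≤ (u - 1 / 3) / 3 := div_nonneg (by linarith) (by norm_num)
      positivity
    have hE : Real.exp (1 / 3) ≤ 69781 / 50000 := exp_up_1_3
    have hx : 0 ≤ 1 / 250 * (u ^ 2 - 1) := mul_nonneg (by norm_num) (by nlinarith)
    have h5 := mul_le_mul_of_nonneg_right (taylor3_le_exp _ hx) (hq u)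
    have h6 : 0 ≤ Real.exp (1 / 250 * (u ^ 2 - 1)) * (1 + u + 617 / 1000 * u ^ 2) :=
      mul_nonneg (Real.exp_nonneg _) (hq u)
    rw [Real.exp_add, mul_assoc]
    push_cast
    refine ((mul_le_mul_of_nonneg_right hE h4).trans ?_).trans
      ((mul_le_mul_of_nonneg_left h5 (by norm_num : (0 : ℝ) ≤ (1 + 1 / 100 + (1 / 100) ^ 2 / 2))).trans
        (mul_le_mul_of_nonneg_right hde h6))
    rcases le_total u (9 / 2) with hh | hh
    · exact od_three_d31_g0 u (by linarith) (by linarith)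
    rcases le_total u (8) with hh | hh
    · exact od_three_d31_g1 u (by linarith) (by linarith)
    exact od_three_d31_t u (by linarith)

theorem od_three_d32_a0 (u : ℝ) (h1 : -1 ≤ u) (h2 : u ≤ 0) :
    1 + u + u ^ 2 / 2 + u ^ 3 / 6 + u ^ 4 / 24 ≤
      1 * (1 + u + 569 / 1000 * u ^ 2) := by
  obtain ⟨s, hs⟩ : ∃ s, s = u - (-1) := ⟨_, rfl⟩
  obtain ⟨t, ht⟩ : ∃ t, t = 0 - u := ⟨_, rfl⟩
  have hs0 : 0 ≤ s := by linarith
  have ht0 : 0 ≤ t := by linarith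
  have h : 0 ≤
      97 / 500 * t ^ 4 + 457 / 1500 * s * t ^ 3 + 69 / 1000 * s ^ 2 * t ^ 2 := by
    positivity
  have e :
      97 / 500 * t ^ 4 + 457 / 1500 * s * t ^ 3 + 69 / 1000 * s ^ 2 * t ^ 2 =
      1 * (1 + u + 569 / 1000 * u ^ 2) -
      (1 + u + u ^ 2 / 2 + u ^ 3 / 6 + u ^ 4 / 24) := by
    rw [hs, ht]
    ring
  rw [e] at h
  linarith

theorem od_three_d32_b0 (u : ℝ) (h1 : -2 ≤ u) (h2 : u ≤ -1) :
    36788 / 100000 *
      (1 + (u + 1) + (u + 1) ^ 2 / 2 + (u + 1) ^ 3 / 6 + (u + 1) ^ 4 / 24) ≤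
      1 * (1 + u + 569 / 1000 * u ^ 2) := by
  obtain ⟨s, hs⟩ : ∃ s, s = u - (-2) := ⟨_, rfl⟩
  obtain ⟨t, ht⟩ : ∃ t, t = -1 - u := ⟨_, rfl⟩
  have hs0 : 0 ≤ s := by linarith
  have ht0 : 0 ≤ t := by linarith
  have h : 0 ≤
      227609 / 200000 * t ^ 4 + 473033 / 150000 * s * t ^ 3 +
      155471 / 50000 * s ^ 2 * t ^ 2 + 32759 / 25000 * s ^ 3 * t + 1257 / 6250 * s ^ 4 := by
    positivity
  have e :
      227609 / 200000 * t ^ 4 + 473033 / 150000 * s * t ^ 3 +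
      155471 / 50000 * s ^ 2 * t ^ 2 + 32759 / 25000 * s ^ 3 * t + 1257 / 6250 * s ^ 4 =
      1 * (1 + u + 569 / 1000 * u ^ 2) -
      (36788 / 100000 *
      (1 + (u + 1) + (u + 1) ^ 2 / 2 + (u + 1) ^ 3 / 6 + (u + 1) ^ 4 / 24)) := by
    rw [hs, ht]
    ring
  rw [e] at h
  linarith

theorem od_three_d32_c0 (u : ℝ) (h1 : -3 ≤ u) (h2 : u ≤ -2) :
    13534 / 100000 *
      (1 + (u + 2) + (u + 2) ^ 2 / 2 + (u + 2) ^ 3 / 6 + (u + 2) ^ 4 / 24) ≤
      1 * (1 + u + 569 / 1000 * u ^ 2) := by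
  obtain ⟨s, hs⟩ : ∃ s, s = u - (-3) := ⟨_, rfl⟩
  obtain ⟨t, ht⟩ : ∃ t, t = -2 - u := ⟨_, rfl⟩
  have hs0 : 0 ≤ s := by linarith
  have ht0 : 0 ≤ t := by linarith
  have h : 0 ≤
      1228099 / 400000 * t ^ 4 + 2946563 / 300000 * s * t ^ 3 +
      1157931 / 100000 * s ^ 2 * t ^ 2 + 298699 / 50000 * s ^ 3 * t + 57033 / 50000 * s ^ 4 := by
    positivity
  have e :
      1228099 / 400000 * t ^ 4 + 2946563 / 300000 * s * t ^ 3 +
      1157931 / 100000 * s ^ 2 * t ^ 2 + 298699 / 50000 * s ^ 3 * t + 57033 / 50000 * s ^ 4 =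
      1 * (1 + u + 569 / 1000 * u ^ 2) -
      (13534 / 100000 *
      (1 + (u + 2) + (u + 2) ^ 2 / 2 + (u + 2) ^ 3 / 6 + (u + 2) ^ 4 / 24)) := by
    rw [hs, ht]
    ring
  rw [e] at h
  linarith

theorem od_three_d32_d (u : ℝ) (h2 : u ≤ -3) :
    4979 / 100000 ≤
      1 * (1 + u + 569 / 1000 * u ^ 2) := by
  obtain ⟨s, hs⟩ : ∃ s, s = -3 - u := ⟨_, rfl⟩
  have hs0 : 0 ≤ s := by linarith
  have h : 0 ≤
      307121 / 100000 + 1207 / 500 * s + 569 / 1000 * s ^ 2 := by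
    positivity
  have e :
      307121 / 100000 + 1207 / 500 * s + 569 / 1000 * s ^ 2 =
      1 * (1 + u + 569 / 1000 * u ^ 2) -
      (4979 / 100000) := by
    rw [hs]
    ring
  rw [e] at h
  linarith

theorem od_three_d32_e0 (u : ℝ) (h1 : 0 ≤ u) (h2 : u ≤ 1 / 3) :
    1 + u + u ^ 2 / 2 + u ^ 3 / 6 + u ^ 4 / 24 + u ^ 5 / 100 ≤
      1 * (1 + u + 569 / 1000 * u ^ 2) := by
  obtain ⟨s, hs⟩ : ∃ s, s = u - (0) := ⟨_, rfl⟩
  obtain ⟨t, ht⟩ : ∃ t, t = 1 / 3 - u := ⟨_, rfl⟩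
  have hs0 : 0 ≤ s := by linarith
  have ht0 : 0 ≤ t := by linarith
  have h : 0 ≤
      1863 / 1000 * s ^ 2 * t ^ 3 + 4089 / 1000 * s ^ 3 * t ^ 2 + 308 / 125 * s ^ 4 * t +
      57 / 250 * s ^ 5 := by
    positivity
  have e :
      1863 / 1000 * s ^ 2 * t ^ 3 + 4089 / 1000 * s ^ 3 * t ^ 2 + 308 / 125 * s ^ 4 * t +
      57 / 250 * s ^ 5 =
      1 * (1 + u + 569 / 1000 * u ^ 2) -
      (1 + u + u ^ 2 / 2 + u ^ 3 / 6 + u ^ 4 / 24 + u ^ 5 / 100) := by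
    rw [hs, ht]
    ring
  rw [e] at h
  linarith

theorem od_three_d32_f0 (u : ℝ) (h1 : 1 / 3 ≤ u) (h2 : u ≤ 1 / 2) :
    69781 / 50000 * (1 + (u - 1 / 3) / 3) ^ 3 ≤
      1 * (1 + u + 569 / 1000 * u ^ 2) := by
  obtain ⟨s, hs⟩ : ∃ s, s = u - (1 / 3) := ⟨_, rfl⟩
  obtain ⟨t, ht⟩ : ∃ t, t = 1 / 2 - u := ⟨_, rfl⟩
  have hs0 : 0 ≤ s := by linarith
  have ht0 : 0 ≤ t := by linarith
  have h : 0 ≤
      1263 / 6250 * t ^ 3 + 249 / 12500 * s * t ^ 2 + 1409 / 25000 * s ^ 2 * t +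
      252221 / 1350000 * s ^ 3 := by
    positivity
  have e :
      1263 / 6250 * t ^ 3 + 249 / 12500 * s * t ^ 2 + 1409 / 25000 * s ^ 2 * t +
      252221 / 1350000 * s ^ 3 =
      1 * (1 + u + 569 / 1000 * u ^ 2) -
      (69781 / 50000 * (1 + (u - 1 / 3) / 3) ^ 3) := by
    rw [hs, ht]
    ring
  rw [e] at h
  linarith

theorem od_three_d32_f1 (u : ℝ) (h1 : 1 / 2 ≤ u) (h2 : u ≤ 2 / 3) :
    69781 / 50000 * (1 + (u - 1 / 3) / 3) ^ 3 ≤
      1 * (1 + u + 569 / 1000 * u ^ 2) := by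
  obtain ⟨s, hs⟩ : ∃ s, s = u - (1 / 2) := ⟨_, rfl⟩
  obtain ⟨t, ht⟩ : ∃ t, t = 2 / 3 - u := ⟨_, rfl⟩
  have hs0 : 0 ≤ s := by linarith
  have ht0 : 0 ≤ t := by linarith
  have h : 0 ≤
      252221 / 1350000 * t ^ 3 + 11977 / 11250 * s * t ^ 2 + 2291 / 1125 * s ^ 2 * t +
      3736 / 3375 * s ^ 3 := by
    positivity
  have e :
      252221 / 1350000 * t ^ 3 + 11977 / 11250 * s * t ^ 2 + 2291 / 1125 * s ^ 2 * t +
      3736 / 3375 * s ^ 3 =
      1 * (1 + u + 569 / 1000 * u ^ 2) -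
      (69781 / 50000 * (1 + (u - 1 / 3) / 3) ^ 3) := by
    rw [hs, ht]
    ring
  rw [e] at h
  linarith

theorem od_three_d32_f2 (u : ℝ) (h1 : 2 / 3 ≤ u) (h2 : u ≤ 1) :
    69781 / 50000 * (1 + (u - 1 / 3) / 3) ^ 3 ≤
      1 * (1 + u + 569 / 1000 * u ^ 2) := by
  obtain ⟨s, hs⟩ : ∃ s, s = u - (2 / 3) := ⟨_, rfl⟩
  obtain ⟨t, ht⟩ : ∃ t, t = 1 - u := ⟨_, rfl⟩
  have hs0 : 0 ≤ s := by linarith
  have ht0 : 0 ≤ t := by linarith
  have h : 0 ≤
      467 / 3375 * t ^ 3 + 3313 / 4500 * s * t ^ 2 + 27307 / 22500 * s ^ 2 * t +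
      761539 / 1350000 * s ^ 3 := by
    positivity
  have e :
      467 / 3375 * t ^ 3 + 3313 / 4500 * s * t ^ 2 + 27307 / 22500 * s ^ 2 * t +
      761539 / 1350000 * s ^ 3 =
      1 * (1 + u + 569 / 1000 * u ^ 2) -
      (69781 / 50000 * (1 + (u - 1 / 3) / 3) ^ 3) := by
    rw [hs, ht]
    ring
  rw [e] at h
  linarith

theorem od_three_d32_g0 (u : ℝ) (h1 : 1 ≤ u) (h2 : u ≤ 4) :
    69781 / 50000 * (1 + (u - 1 / 3) / 3) ^ 3 ≤
      1 * ((1 + (7 / 1000 * (u ^ 2 - 1)) +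
      (7 / 1000 * (u ^ 2 - 1)) ^ 2 / 2 +
      (7 / 1000 * (u ^ 2 - 1)) ^ 3 / 6) *
      (1 + u + 569 / 1000 * u ^ 2)) := by
  obtain ⟨s, hs⟩ : ∃ s, s = u - (1) := ⟨_, rfl⟩
  obtain ⟨t, ht⟩ : ∃ t, t = 4 - u := ⟨_, rfl⟩
  have hs0 : 0 ≤ s := by linarith
  have ht0 : 0 ≤ t := by linarith
  have h : 0 ≤
      761539 / 239148450000 * t ^ 8 + 158409671 / 2391484500000 * s * t ^ 7 +
      1055006209741 / 2391484500000000 * s ^ 2 * t ^ 6 +
      1575714552144187 / 1195742250000000000 * s ^ 3 * t ^ 5 +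
      5070681267582547 / 2391484500000000000 * s ^ 4 * t ^ 4 +
      9520982372145373 / 4782969000000000000 * s ^ 5 * t ^ 3 +
      2131198322213759 / 1913187600000000000 * s ^ 6 * t ^ 2 +
      8544474882077 / 23914845000000000 * s ^ 7 * t + 510217877149 / 9565938000000000 * s ^ 8 := by
    positivity
  have e :
      761539 / 239148450000 * t ^ 8 + 158409671 / 2391484500000 * s * t ^ 7 +
      1055006209741 / 2391484500000000 * s ^ 2 * t ^ 6 +
      1575714552144187 / 1195742250000000000 * s ^ 3 * t ^ 5 +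
      5070681267582547 / 2391484500000000000 * s ^ 4 * t ^ 4 +
      9520982372145373 / 4782969000000000000 * s ^ 5 * t ^ 3 +
      2131198322213759 / 1913187600000000000 * s ^ 6 * t ^ 2 +
      8544474882077 / 23914845000000000 * s ^ 7 * t + 510217877149 / 9565938000000000 * s ^ 8 =
      1 * ((1 + (7 / 1000 * (u ^ 2 - 1)) +
      (7 / 1000 * (u ^ 2 - 1)) ^ 2 / 2 +
      (7 / 1000 * (u ^ 2 - 1)) ^ 3 / 6) *
      (1 + u + 569 / 1000 * u ^ 2)) -
      (69781 / 50000 * (1 + (u - 1 / 3) / 3) ^ 3) := by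
    rw [hs, ht]
    ring
  rw [e] at h
  linarith

theorem od_three_d32_t (u : ℝ) (h1 : 4 ≤ u) :
    69781 / 50000 * (1 + (u - 1 / 3) / 3) ^ 3 ≤
      1 * ((1 + (7 / 1000 * (u ^ 2 - 1)) +
      (7 / 1000 * (u ^ 2 - 1)) ^ 2 / 2 +
      (7 / 1000 * (u ^ 2 - 1)) ^ 3 / 6) *
      (1 + u + 569 / 1000 * u ^ 2)) := by
  obtain ⟨s, hs⟩ : ∃ s, s = u - (4) := ⟨_, rfl⟩
  have hs0 : 0 ≤ s := by linarith
  have h : 0 ≤
      510217877149 / 1458000000000 + 61477135589 / 405000000000 * s +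
      837500001173 / 10800000000000 * s ^ 2 + 290225828707 / 6750000000000 * s ^ 3 +
      51078522901 / 6000000000000 * s ^ 4 + 23143043 / 46875000000 * s ^ 5 +
      36087863 / 1200000000000 * s ^ 6 + 823543 / 750000000000 * s ^ 7 +
      195167 / 6000000000000 * s ^ 8 := by
    positivity
  have e :
      510217877149 / 1458000000000 + 61477135589 / 405000000000 * s +
      837500001173 / 10800000000000 * s ^ 2 + 290225828707 / 6750000000000 * s ^ 3 +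
      51078522901 / 6000000000000 * s ^ 4 + 23143043 / 46875000000 * s ^ 5 +
      36087863 / 1200000000000 * s ^ 6 + 823543 / 750000000000 * s ^ 7 +
      195167 / 6000000000000 * s ^ 8 =
      1 * ((1 + (7 / 1000 * (u ^ 2 - 1)) +
      (7 / 1000 * (u ^ 2 - 1)) ^ 2 / 2 +
      (7 / 1000 * (u ^ 2 - 1)) ^ 3 / 6) *
      (1 + u + 569 / 1000 * u ^ 2)) -
      (69781 / 50000 * (1 + (u - 1 / 3) / 3) ^ 3) := by
    rw [hs]
    ring
  rw [e] at h
  linarith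

/-- `K = 3`: `(c, μ, P, δ) = (569 / 1000, 7 / 1000, 1 / 3, 0)` -/
theorem expOd_three_d32 : ExpOd 3 (569 / 1000) (7 / 1000) (1 / 3) (0) := by
  have hde : 1 ≤ Real.exp (0) := Real.exp_zero.ge
  have hq : ∀ u : ℝ, 0 ≤ 1 + u + 569 / 1000 * u ^ 2 := fun u => by
    nlinarith [sq_nonneg (u + 2), sq_nonneg u]
  have hR : ∀ (u x y : ℝ), x ≤ y → y ≤ 1 * (1 + u + 569 / 1000 * u ^ 2) →
      x ≤ Real.exp (0) * (1 + u + 569 / 1000 * u ^ 2) := fun u x y h1 h2 =>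
    (h1.trans h2).trans (mul_le_mul_of_nonneg_right hde (hq u))
  refine ExpOd.of (by norm_num) (by norm_num) (by norm_num) (by norm_num) (by norm_num) ?_ ?_ ?_
  · intro u h1
    rcases le_total u (-3) with h3 | h3
    · exact hR u _ _ (exp_le_n3 h3) (od_three_d32_d u h3)
    rcases le_total u (-2) with h4 | h4
    · refine hR u _ _ (exp_le_n2 h4) ?_
      exact od_three_d32_c0 u (by linarith) (by linarith)
    rcases le_total u (-1) with h5 | h5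
    · refine hR u _ _ (exp_le_n1 h5) ?_
      exact od_three_d32_b0 u (by linarith) (by linarith)
    rcases le_total u 0 with h6 | h6
    · refine hR u _ _ (exp_le_n0 h6) ?_
      exact od_three_d32_a0 u (by linarith) (by linarith)
    refine hR u _ _ (exp_le_p h6 (by linarith)) ?_
    exact od_three_d32_e0 u (by linarith) (by linarith)
  · intro u h1 h2
    have h4 : 0 ≤ (1 + (u - 1 / 3) / 3) ^ 3 := by
      have : 0 ≤ (u - 1 / 3) / 3 := div_nonneg (by linarith) (by norm_num)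
      positivity
    have hE : Real.exp (1 / 3) ≤ 69781 / 50000 := exp_up_1_3
    push_cast
    refine hR u _ _ (mul_le_mul_of_nonneg_right hE h4) ?_
    rcases le_total u (1 / 2) with hh | hh
    · exact od_three_d32_f0 u (by linarith) (by linarith)
    rcases le_total u (2 / 3) with hh | hh
    · exact od_three_d32_f1 u (by linarith) (by linarith)
    exact od_three_d32_f2 u (by linarith) (by linarith)
  · intro u h1
    have h4 : 0 ≤ (1 + (u - 1 / 3) / 3) ^ 3 := by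
      have : 0 ≤ (u - 1 / 3) / 3 := div_nonneg (by linarith) (by norm_num)
      positivity
    have hE : Real.exp (1 / 3) ≤ 69781 / 50000 := exp_up_1_3
    have hx : 0 ≤ 7 / 1000 * (u ^ 2 - 1) := mul_nonneg (by norm_num) (by nlinarith)
    have h5 := mul_le_mul_of_nonneg_right (taylor3_le_exp _ hx) (hq u)
    have h6 : 0 ≤ Real.exp (7 / 1000 * (u ^ 2 - 1)) * (1 + u + 569 / 1000 * u ^ 2) :=
      mul_nonneg (Real.exp_nonneg _) (hq u)
    rw [Real.exp_add, mul_assoc]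
    push_cast
    refine ((mul_le_mul_of_nonneg_right hE h4).trans ?_).trans
      ((mul_le_mul_of_nonneg_left h5 (by norm_num : (0 : ℝ) ≤ 1)).trans
        (mul_le_mul_of_nonneg_right hde h6))
    rcases le_total u (4) with hh | hh
    · exact od_three_d32_g0 u (by linarith) (by linarith)
    exact od_three_d32_t u (by linarith)

theorem od_three_d33_a0 (u : ℝ) (h1 : -1 ≤ u) (h2 : u ≤ 0) :
    1 + u + u ^ 2 / 2 + u ^ 3 / 6 + u ^ 4 / 24 ≤
      (1 + 1 / 200 + (1 / 200) ^ 2 / 2) * (1 + u + 547 / 1000 * u ^ 2) := by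
  obtain ⟨s, hs⟩ : ∃ s, s = u - (-1) := ⟨_, rfl⟩
  obtain ⟨t, ht⟩ : ∃ t, t = 0 - u := ⟨_, rfl⟩
  have hs0 : 0 ≤ s := by linarith
  have ht0 : 0 ≤ t := by linarith
  have h : 0 ≤
      13979347 / 80000000 * t ^ 4 + 32539541 / 120000000 * s * t ^ 3 +
      5182347 / 80000000 * s ^ 2 * t ^ 2 + 1203 / 80000 * s ^ 3 * t + 401 / 80000 * s ^ 4 := by
    positivity
  have e :
      13979347 / 80000000 * t ^ 4 + 32539541 / 120000000 * s * t ^ 3 +
      5182347 / 80000000 * s ^ 2 * t ^ 2 + 1203 / 80000 * s ^ 3 * t + 401 / 80000 * s ^ 4 =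
      (1 + 1 / 200 + (1 / 200) ^ 2 / 2) * (1 + u + 547 / 1000 * u ^ 2) -
      (1 + u + u ^ 2 / 2 + u ^ 3 / 6 + u ^ 4 / 24) := by
    rw [hs, ht]
    ring
  rw [e] at h
  linarith

theorem od_three_d33_b0 (u : ℝ) (h1 : -2 ≤ u) (h2 : u ≤ -1) :
    36788 / 100000 *
      (1 + (u + 1) + (u + 1) ^ 2 / 2 + (u + 1) ^ 3 / 6 + (u + 1) ^ 4 / 24) ≤
      (1 + 1 / 200 + (1 / 200) ^ 2 / 2) * (1 + u + 547 / 1000 * u ^ 2) := by
  obtain ⟨s, hs⟩ : ∃ s, s = u - (-2) := ⟨_, rfl⟩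
  obtain ⟨t, ht⟩ : ∃ t, t = -1 - u := ⟨_, rfl⟩
  have hs0 : 0 ≤ s := by linarith
  have ht0 : 0 ≤ t := by linarith
  have h : 0 ≤
      21119997 / 20000000 * t ^ 4 + 174445073 / 60000000 * s * t ^ 3 +
      227522111 / 80000000 * s ^ 2 * t ^ 2 + 47591941 / 40000000 * s ^ 3 * t +
      14548947 / 80000000 * s ^ 4 := by
    positivity
  have e :
      21119997 / 20000000 * t ^ 4 + 174445073 / 60000000 * s * t ^ 3 +
      227522111 / 80000000 * s ^ 2 * t ^ 2 + 47591941 / 40000000 * s ^ 3 * t +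
      14548947 / 80000000 * s ^ 4 =
      (1 + 1 / 200 + (1 / 200) ^ 2 / 2) * (1 + u + 547 / 1000 * u ^ 2) -
      (36788 / 100000 *
      (1 + (u + 1) + (u + 1) ^ 2 / 2 + (u + 1) ^ 3 / 6 + (u + 1) ^ 4 / 24)) := by
    rw [hs, ht]
    ring
  rw [e] at h
  linarith

theorem od_three_d33_c0 (u : ℝ) (h1 : -3 ≤ u) (h2 : u ≤ -2) :
    13534 / 100000 *
      (1 + (u + 2) + (u + 2) ^ 2 / 2 + (u + 2) ^ 3 / 6 + (u + 2) ^ 4 / 24) ≤
      (1 + 1 / 200 + (1 / 200) ^ 2 / 2) * (1 + u + 547 / 1000 * u ^ 2) := by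
  obtain ⟨s, hs⟩ : ∃ s, s = u - (-3) := ⟨_, rfl⟩
  obtain ⟨t, ht⟩ : ∃ t, t = -2 - u := ⟨_, rfl⟩
  have hs0 : 0 ≤ s := by linarith
  have ht0 : 0 ≤ t := by linarith
  have h : 0 ≤
      230951923 / 80000000 * t ^ 4 + 221017063 / 24000000 * s * t ^ 3 +
      865731639 / 80000000 * s ^ 2 * t ^ 2 + 22255017 / 4000000 * s ^ 3 * t +
      21172297 / 20000000 * s ^ 4 := by
    positivity
  have e :
      230951923 / 80000000 * t ^ 4 + 221017063 / 24000000 * s * t ^ 3 +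
      865731639 / 80000000 * s ^ 2 * t ^ 2 + 22255017 / 4000000 * s ^ 3 * t +
      21172297 / 20000000 * s ^ 4 =
      (1 + 1 / 200 + (1 / 200) ^ 2 / 2) * (1 + u + 547 / 1000 * u ^ 2) -
      (13534 / 100000 *
      (1 + (u + 2) + (u + 2) ^ 2 / 2 + (u + 2) ^ 3 / 6 + (u + 2) ^ 4 / 24)) := by
    rw [hs, ht]
    ring
  rw [e] at h
  linarith

theorem od_three_d33_d (u : ℝ) (h2 : u ≤ -3) :
    4979 / 100000 ≤
      (1 + 1 / 200 + (1 / 200) ^ 2 / 2) * (1 + u + 547 / 1000 * u ^ 2) := by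
  obtain ⟨s, hs⟩ : ∃ s, s = -3 - u := ⟨_, rfl⟩
  have hs0 : 0 ≤ s := by linarith
  have h : 0 ≤
      231028923 / 80000000 + 91737541 / 40000000 * s + 43979347 / 80000000 * s ^ 2 := by
    positivity
  have e :
      231028923 / 80000000 + 91737541 / 40000000 * s + 43979347 / 80000000 * s ^ 2 =
      (1 + 1 / 200 + (1 / 200) ^ 2 / 2) * (1 + u + 547 / 1000 * u ^ 2) -
      (4979 / 100000) := by
    rw [hs]
    ring
  rw [e] at h
  linarith

theorem od_three_d33_e0 (u : ℝ) (h1 : 0 ≤ u) (h2 : u ≤ 1 / 3) :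
    1 + u + u ^ 2 / 2 + u ^ 3 / 6 + u ^ 4 / 24 + u ^ 5 / 100 ≤
      (1 + 1 / 200 + (1 / 200) ^ 2 / 2) * (1 + u + 547 / 1000 * u ^ 2) := by
  obtain ⟨s, hs⟩ : ∃ s, s = u - (0) := ⟨_, rfl⟩
  obtain ⟨t, ht⟩ : ∃ t, t = 1 / 3 - u := ⟨_, rfl⟩
  have hs0 : 0 ≤ s := by linarith
  have ht0 : 0 ≤ t := by linarith
  have h : 0 ≤
      97443 / 80000 * t ^ 5 + 32481 / 5000 * s * t ^ 4 +
      1211796369 / 80000000 * s ^ 2 * t ^ 3 + 1371643107 / 80000000 * s ^ 3 * t ^ 2 +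
      689466107 / 80000000 * s ^ 4 * t + 106566369 / 80000000 * s ^ 5 := by
    positivity
  have e :
      97443 / 80000 * t ^ 5 + 32481 / 5000 * s * t ^ 4 +
      1211796369 / 80000000 * s ^ 2 * t ^ 3 + 1371643107 / 80000000 * s ^ 3 * t ^ 2 +
      689466107 / 80000000 * s ^ 4 * t + 106566369 / 80000000 * s ^ 5 =
      (1 + 1 / 200 + (1 / 200) ^ 2 / 2) * (1 + u + 547 / 1000 * u ^ 2) -
      (1 + u + u ^ 2 / 2 + u ^ 3 / 6 + u ^ 4 / 24 + u ^ 5 / 100) := by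
    rw [hs, ht]
    ring
  rw [e] at h
  linarith

theorem od_three_d33_f0 (u : ℝ) (h1 : 1 / 3 ≤ u) (h2 : u ≤ 1) :
    69781 / 50000 * (1 + (u - 1 / 3) / 3) ^ 3 ≤
      (1 + 1 / 200 + (1 / 200) ^ 2 / 2) * (1 + u + 547 / 1000 * u ^ 2) := by
  obtain ⟨s, hs⟩ : ∃ s, s = u - (1 / 3) := ⟨_, rfl⟩
  obtain ⟨t, ht⟩ : ∃ t, t = 1 - u := ⟨_, rfl⟩
  have hs0 : 0 ≤ s := by linarith
  have ht0 : 0 ≤ t := by linarith
  have h : 0 ≤
      11834841 / 640000000 * t ^ 3 + 781887 / 640000000 * s * t ^ 2 +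
      9442603 / 128000000 * s ^ 2 * t + 679984363 / 17280000000 * s ^ 3 := by
    positivity
  have e :
      11834841 / 640000000 * t ^ 3 + 781887 / 640000000 * s * t ^ 2 +
      9442603 / 128000000 * s ^ 2 * t + 679984363 / 17280000000 * s ^ 3 =
      (1 + 1 / 200 + (1 / 200) ^ 2 / 2) * (1 + u + 547 / 1000 * u ^ 2) -
      (69781 / 50000 * (1 + (u - 1 / 3) / 3) ^ 3) := by
    rw [hs, ht]
    ring
  rw [e] at h
  linarith

theorem od_three_d33_g0 (u : ℝ) (h1 : 1 ≤ u) (h2 : u ≤ 3) :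
    69781 / 50000 * (1 + (u - 1 / 3) / 3) ^ 3 ≤
      (1 + 1 / 200 + (1 / 200) ^ 2 / 2) * ((1 + (7 / 1000 * (u ^ 2 - 1)) +
      (7 / 1000 * (u ^ 2 - 1)) ^ 2 / 2 +
      (7 / 1000 * (u ^ 2 - 1)) ^ 3 / 6) *
      (1 + u + 547 / 1000 * u ^ 2)) := by
  obtain ⟨s, hs⟩ : ∃ s, s = u - (1) := ⟨_, rfl⟩
  obtain ⟨t, ht⟩ : ∃ t, t = 3 - u := ⟨_, rfl⟩
  have hs0 : 0 ≤ s := by linarith
  have ht0 : 0 ≤ t := by linarith
  have h : 0 ≤
      679984363 / 14929920000000 * t ^ 8 + 2978869202741 / 3732480000000000 * s * t ^ 7 +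
      8885557440442187 / 1866240000000000000 * s ^ 2 * t ^ 6 +
      6278822076092427103 / 466560000000000000000 * s ^ 3 * t ^ 5 +
      304376976009286273 / 14580000000000000000 * s ^ 4 * t ^ 4 +
      8763538267729149871 / 466560000000000000000 * s ^ 5 * t ^ 3 +
      567984668262910819 / 58320000000000000000 * s ^ 6 * t ^ 2 +
      313794047399981017 / 116640000000000000000 * s ^ 7 * t +
      8958149777984651 / 29160000000000000000 * s ^ 8 := by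
    positivity
  have e :
      679984363 / 14929920000000 * t ^ 8 + 2978869202741 / 3732480000000000 * s * t ^ 7 +
      8885557440442187 / 1866240000000000000 * s ^ 2 * t ^ 6 +
      6278822076092427103 / 466560000000000000000 * s ^ 3 * t ^ 5 +
      304376976009286273 / 14580000000000000000 * s ^ 4 * t ^ 4 +
      8763538267729149871 / 466560000000000000000 * s ^ 5 * t ^ 3 +
      567984668262910819 / 58320000000000000000 * s ^ 6 * t ^ 2 +
      313794047399981017 / 116640000000000000000 * s ^ 7 * t +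
      8958149777984651 / 29160000000000000000 * s ^ 8 =
      (1 + 1 / 200 + (1 / 200) ^ 2 / 2) * ((1 + (7 / 1000 * (u ^ 2 - 1)) +
      (7 / 1000 * (u ^ 2 - 1)) ^ 2 / 2 +
      (7 / 1000 * (u ^ 2 - 1)) ^ 3 / 6) *
      (1 + u + 547 / 1000 * u ^ 2)) -
      (69781 / 50000 * (1 + (u - 1 / 3) / 3) ^ 3) := by
    rw [hs, ht]
    ring
  rw [e] at h
  linarith

theorem od_three_d33_g1 (u : ℝ) (h1 : 3 ≤ u) (h2 : u ≤ 5) :
    69781 / 50000 * (1 + (u - 1 / 3) / 3) ^ 3 ≤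
      (1 + 1 / 200 + (1 / 200) ^ 2 / 2) * ((1 + (7 / 1000 * (u ^ 2 - 1)) +
      (7 / 1000 * (u ^ 2 - 1)) ^ 2 / 2 +
      (7 / 1000 * (u ^ 2 - 1)) ^ 3 / 6) *
      (1 + u + 547 / 1000 * u ^ 2)) := by
  obtain ⟨s, hs⟩ : ∃ s, s = u - (3) := ⟨_, rfl⟩
  obtain ⟨t, ht⟩ : ∃ t, t = 5 - u := ⟨_, rfl⟩
  have hs0 : 0 ≤ s := by linarith
  have ht0 : 0 ≤ t := by linarith
  have h : 0 ≤
      8958149777984651 / 29160000000000000000 * t ^ 8 +
      259527538391036647 / 116640000000000000000 * s * t ^ 7 +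
      94512971682901381 / 14580000000000000000 * s ^ 2 * t ^ 6 +
      4540207567710645409 / 466560000000000000000 * s ^ 3 * t ^ 5 +
      1909016127354531013 / 233280000000000000000 * s ^ 4 * t ^ 4 +
      2069932708063147657 / 466560000000000000000 * s ^ 5 * t ^ 3 +
      281786787092891093 / 116640000000000000000 * s ^ 6 * t ^ 2 +
      32106968286657407 / 23328000000000000000 * s ^ 7 * t +
      110924727642647 / 291600000000000000 * s ^ 8 := by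
    positivity
  have e :
      8958149777984651 / 29160000000000000000 * t ^ 8 +
      259527538391036647 / 116640000000000000000 * s * t ^ 7 +
      94512971682901381 / 14580000000000000000 * s ^ 2 * t ^ 6 +
      4540207567710645409 / 466560000000000000000 * s ^ 3 * t ^ 5 +
      1909016127354531013 / 233280000000000000000 * s ^ 4 * t ^ 4 +
      2069932708063147657 / 466560000000000000000 * s ^ 5 * t ^ 3 +
      281786787092891093 / 116640000000000000000 * s ^ 6 * t ^ 2 +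
      32106968286657407 / 23328000000000000000 * s ^ 7 * t +
      110924727642647 / 291600000000000000 * s ^ 8 =
      (1 + 1 / 200 + (1 / 200) ^ 2 / 2) * ((1 + (7 / 1000 * (u ^ 2 - 1)) +
      (7 / 1000 * (u ^ 2 - 1)) ^ 2 / 2 +
      (7 / 1000 * (u ^ 2 - 1)) ^ 3 / 6) *
      (1 + u + 547 / 1000 * u ^ 2)) -
      (69781 / 50000 * (1 + (u - 1 / 3) / 3) ^ 3) := by
    rw [hs, ht]
    ring
  rw [e] at h
  linarith

theorem od_three_d33_t (u : ℝ) (h1 : 5 ≤ u) :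
    69781 / 50000 * (1 + (u - 1 / 3) / 3) ^ 3 ≤
      (1 + 1 / 200 + (1 / 200) ^ 2 / 2) * ((1 + (7 / 1000 * (u ^ 2 - 1)) +
      (7 / 1000 * (u ^ 2 - 1)) ^ 2 / 2 +
      (7 / 1000 * (u ^ 2 - 1)) ^ 3 / 6) *
      (1 + u + 547 / 1000 * u ^ 2)) := by
  obtain ⟨s, hs⟩ : ∃ s, s = u - (5) := ⟨_, rfl⟩
  have hs0 : 0 ≤ s := by linarith
  have h : 0 ≤
      110924727642647 / 1139062500000000 + 4320539711626297 / 20250000000000000 * s +
      1853702993784853 / 8437500000000000 * s ^ 2 +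
      8495400730009621 / 108000000000000000 * s ^ 3 +
      1334434713099047 / 120000000000000000 * s ^ 4 +
      32522744071111 / 48000000000000000 * s ^ 5 +
      17971942023637 / 480000000000000000 * s ^ 6 + 3943588649 / 3000000000000000 * s ^ 7 +
      15084916021 / 480000000000000000 * s ^ 8 := by
    positivity
  have e :
      110924727642647 / 1139062500000000 + 4320539711626297 / 20250000000000000 * s +
      1853702993784853 / 8437500000000000 * s ^ 2 +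
      8495400730009621 / 108000000000000000 * s ^ 3 +
      1334434713099047 / 120000000000000000 * s ^ 4 +
      32522744071111 / 48000000000000000 * s ^ 5 +
      17971942023637 / 480000000000000000 * s ^ 6 + 3943588649 / 3000000000000000 * s ^ 7 +
      15084916021 / 480000000000000000 * s ^ 8 =
      (1 + 1 / 200 + (1 / 200) ^ 2 / 2) * ((1 + (7 / 1000 * (u ^ 2 - 1)) +
      (7 / 1000 * (u ^ 2 - 1)) ^ 2 / 2 +
      (7 / 1000 * (u ^ 2 - 1)) ^ 3 / 6) *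
      (1 + u + 547 / 1000 * u ^ 2)) -
      (69781 / 50000 * (1 + (u - 1 / 3) / 3) ^ 3) := by
    rw [hs]
    ring
  rw [e] at h
  linarith

/-- `K = 3`: `(c, μ, P, δ) = (547 / 1000, 7 / 1000, 1 / 3, 1 / 200)` -/
theorem expOd_three_d33 : ExpOd 3 (547 / 1000) (7 / 1000) (1 / 3) (1 / 200) := by
  have hde : (1 + 1 / 200 + (1 / 200) ^ 2 / 2) ≤ Real.exp (1 / 200) := Real.quadratic_le_exp_of_nonneg (by norm_num)
  have hq : ∀ u : ℝ, 0 ≤ 1 + u + 547 / 1000 * u ^ 2 := fun u => by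
    nlinarith [sq_nonneg (u + 2), sq_nonneg u]
  have hR : ∀ (u x y : ℝ), x ≤ y → y ≤ (1 + 1 / 200 + (1 / 200) ^ 2 / 2) * (1 + u + 547 / 1000 * u ^ 2) →
      x ≤ Real.exp (1 / 200) * (1 + u + 547 / 1000 * u ^ 2) := fun u x y h1 h2 =>
    (h1.trans h2).trans (mul_le_mul_of_nonneg_right hde (hq u))
  refine ExpOd.of (by norm_num) (by norm_num) (by norm_num) (by norm_num) (by norm_num) ?_ ?_ ?_
  · intro u h1
    rcases le_total u (-3) with h3 | h3
    · exact hR u _ _ (exp_le_n3 h3) (od_three_d33_d u h3)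
    rcases le_total u (-2) with h4 | h4
    · refine hR u _ _ (exp_le_n2 h4) ?_
      exact od_three_d33_c0 u (by linarith) (by linarith)
    rcases le_total u (-1) with h5 | h5
    · refine hR u _ _ (exp_le_n1 h5) ?_
      exact od_three_d33_b0 u (by linarith) (by linarith)
    rcases le_total u 0 with h6 | h6
    · refine hR u _ _ (exp_le_n0 h6) ?_
      exact od_three_d33_a0 u (by linarith) (by linarith)
    refine hR u _ _ (exp_le_p h6 (by linarith)) ?_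
    exact od_three_d33_e0 u (by linarith) (by linarith)
  · intro u h1 h2
    have h4 : 0 ≤ (1 + (u - 1 / 3) / 3) ^ 3 := by
      have : 0 ≤ (u - 1 / 3) / 3 := div_nonneg (by linarith) (by norm_num)
      positivity
    have hE : Real.exp (1 / 3) ≤ 69781 / 50000 := exp_up_1_3
    push_cast
    refine hR u _ _ (mul_le_mul_of_nonneg_right hE h4) ?_
    exact od_three_d33_f0 u (by linarith) (by linarith)
  · intro u h1
    have h4 : 0 ≤ (1 + (u - 1 / 3) / 3) ^ 3 := by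
      have : 0 ≤ (u - 1 / 3) / 3 := div_nonneg (by linarith) (by norm_num)
      positivity
    have hE : Real.exp (1 / 3) ≤ 69781 / 50000 := exp_up_1_3
    have hx : 0 ≤ 7 / 1000 * (u ^ 2 - 1) := mul_nonneg (by norm_num) (by nlinarith)
    have h5 := mul_le_mul_of_nonneg_right (taylor3_le_exp _ hx) (hq u)
    have h6 : 0 ≤ Real.exp (7 / 1000 * (u ^ 2 - 1)) * (1 + u + 547 / 1000 * u ^ 2) :=
      mul_nonneg (Real.exp_nonneg _) (hq u)
    rw [Real.exp_add, mul_assoc]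
    push_cast
    refine ((mul_le_mul_of_nonneg_right hE h4).trans ?_).trans
      ((mul_le_mul_of_nonneg_left h5 (by norm_num : (0 : ℝ) ≤ (1 + 1 / 200 + (1 / 200) ^ 2 / 2))).trans
        (mul_le_mul_of_nonneg_right hde h6))
    rcases le_total u (3) with hh | hh
    · exact od_three_d33_g0 u (by linarith) (by linarith)
    rcases le_total u (5) with hh | hh
    · exact od_three_d33_g1 u (by linarith) (by linarith)
    exact od_three_d33_t u (by linarith)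

theorem od_three_d34_a0 (u : ℝ) (h1 : -1 ≤ u) (h2 : u ≤ 0) :
    1 + u + u ^ 2 / 2 + u ^ 3 / 6 + u ^ 4 / 24 ≤
      (1 + 1 / 100 + (1 / 100) ^ 2 / 2) * (1 + u + 543 / 1000 * u ^ 2) := by
  obtain ⟨s, hs⟩ : ∃ s, s = u - (-1) := ⟨_, rfl⟩
  obtain ⟨t, ht⟩ : ∃ t, t = 0 - u := ⟨_, rfl⟩
  have hs0 : 0 ≤ s := by linarith
  have ht0 : 0 ≤ t := by linarith
  have h : 0 ≤
      3469143 / 20000000 * t ^ 4 + 8208929 / 30000000 * s * t ^ 3 +
      1572143 / 20000000 * s ^ 2 * t ^ 2 + 603 / 20000 * s ^ 3 * t + 201 / 20000 * s ^ 4 := by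
    positivity
  have e :
      3469143 / 20000000 * t ^ 4 + 8208929 / 30000000 * s * t ^ 3 +
      1572143 / 20000000 * s ^ 2 * t ^ 2 + 603 / 20000 * s ^ 3 * t + 201 / 20000 * s ^ 4 =
      (1 + 1 / 100 + (1 / 100) ^ 2 / 2) * (1 + u + 543 / 1000 * u ^ 2) -
      (1 + u + u ^ 2 / 2 + u ^ 3 / 6 + u ^ 4 / 24) := by
    rw [hs, ht]
    ring
  rw [e] at h
  linarith

theorem od_three_d34_b0 (u : ℝ) (h1 : -2 ≤ u) (h2 : u ≤ -1) :
    36788 / 100000 *
      (1 + (u + 1) + (u + 1) ^ 2 / 2 + (u + 1) ^ 3 / 6 + (u + 1) ^ 4 / 24) ≤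
      (1 + 1 / 100 + (1 / 100) ^ 2 / 2) * (1 + u + 543 / 1000 * u ^ 2) := by
  obtain ⟨s, hs⟩ : ∃ s, s = u - (-2) := ⟨_, rfl⟩
  obtain ⟨t, ht⟩ : ∃ t, t = -1 - u := ⟨_, rfl⟩
  have hs0 : 0 ≤ s := by linarith
  have ht0 : 0 ≤ t := by linarith
  have h : 0 ≤
      2614559 / 2500000 * t ^ 4 + 43153337 / 15000000 * s * t ^ 3 +
      56244259 / 20000000 * s ^ 2 * t ^ 2 + 11770529 / 10000000 * s ^ 3 * t +
      3611543 / 20000000 * s ^ 4 := by
    positivity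
  have e :
      2614559 / 2500000 * t ^ 4 + 43153337 / 15000000 * s * t ^ 3 +
      56244259 / 20000000 * s ^ 2 * t ^ 2 + 11770529 / 10000000 * s ^ 3 * t +
      3611543 / 20000000 * s ^ 4 =
      (1 + 1 / 100 + (1 / 100) ^ 2 / 2) * (1 + u + 543 / 1000 * u ^ 2) -
      (36788 / 100000 *
      (1 + (u + 1) + (u + 1) ^ 2 / 2 + (u + 1) ^ 3 / 6 + (u + 1) ^ 4 / 24)) := by
    rw [hs, ht]
    ring
  rw [e] at h
  linarith

theorem od_three_d34_c0 (u : ℝ) (h1 : -3 ≤ u) (h2 : u ≤ -2) :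
    13534 / 100000 *
      (1 + (u + 2) + (u + 2) ^ 2 / 2 + (u + 2) ^ 3 / 6 + (u + 2) ^ 4 / 24) ≤
      (1 + 1 / 100 + (1 / 100) ^ 2 / 2) * (1 + u + 543 / 1000 * u ^ 2) := by
  obtain ⟨s, hs⟩ : ∃ s, s = u - (-3) := ⟨_, rfl⟩
  obtain ⟨t, ht⟩ : ∃ t, t = -2 - u := ⟨_, rfl⟩
  have hs0 : 0 ≤ s := by linarith
  have ht0 : 0 ≤ t := by linarith
  have h : 0 ≤
      57305237 / 20000000 * t ^ 4 + 54811447 / 6000000 * s * t ^ 3 +
      214575491 / 20000000 * s ^ 2 * t ^ 2 + 5512873 / 1000000 * s ^ 3 * t +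
      5242193 / 5000000 * s ^ 4 := by
    positivity
  have e :
      57305237 / 20000000 * t ^ 4 + 54811447 / 6000000 * s * t ^ 3 +
      214575491 / 20000000 * s ^ 2 * t ^ 2 + 5512873 / 1000000 * s ^ 3 * t +
      5242193 / 5000000 * s ^ 4 =
      (1 + 1 / 100 + (1 / 100) ^ 2 / 2) * (1 + u + 543 / 1000 * u ^ 2) -
      (13534 / 100000 *
      (1 + (u + 2) + (u + 2) ^ 2 / 2 + (u + 2) ^ 3 / 6 + (u + 2) ^ 4 / 24)) := by
    rw [hs, ht]
    ring
  rw [e] at h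
  linarith

theorem od_three_d34_d (u : ℝ) (h2 : u ≤ -3) :
    4979 / 100000 ≤
      (1 + 1 / 100 + (1 / 100) ^ 2 / 2) * (1 + u + 543 / 1000 * u ^ 2) := by
  obtain ⟨s, hs⟩ : ∃ s, s = -3 - u := ⟨_, rfl⟩
  have hs0 : 0 ≤ s := by linarith
  have h : 0 ≤
      57324487 / 20000000 + 22806929 / 10000000 * s + 10969143 / 20000000 * s ^ 2 := by
    positivity
  have e :
      57324487 / 20000000 + 22806929 / 10000000 * s + 10969143 / 20000000 * s ^ 2 =
      (1 + 1 / 100 + (1 / 100) ^ 2 / 2) * (1 + u + 543 / 1000 * u ^ 2) -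
      (4979 / 100000) := by
    rw [hs]
    ring
  rw [e] at h
  linarith

theorem od_three_d34_e0 (u : ℝ) (h1 : 0 ≤ u) (h2 : u ≤ 1 / 3) :
    1 + u + u ^ 2 / 2 + u ^ 3 / 6 + u ^ 4 / 24 + u ^ 5 / 100 ≤
      (1 + 1 / 100 + (1 / 100) ^ 2 / 2) * (1 + u + 543 / 1000 * u ^ 2) := by
  obtain ⟨s, hs⟩ : ∃ s, s = u - (0) := ⟨_, rfl⟩
  obtain ⟨t, ht⟩ : ∃ t, t = 1 / 3 - u := ⟨_, rfl⟩
  have hs0 : 0 ≤ s := by linarith
  have ht0 : 0 ≤ t := by linarith
  have h : 0 ≤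
      48843 / 20000 * t ^ 5 + 16281 / 1250 * s * t ^ 4 +
      579720861 / 20000000 * s ^ 2 * t ^ 3 + 634616583 / 20000000 * s ^ 3 * t ^ 2 +
      325339583 / 20000000 * s ^ 4 * t + 58590861 / 20000000 * s ^ 5 := by
    positivity
  have e :
      48843 / 20000 * t ^ 5 + 16281 / 1250 * s * t ^ 4 +
      579720861 / 20000000 * s ^ 2 * t ^ 3 + 634616583 / 20000000 * s ^ 3 * t ^ 2 +
      325339583 / 20000000 * s ^ 4 * t + 58590861 / 20000000 * s ^ 5 =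
      (1 + 1 / 100 + (1 / 100) ^ 2 / 2) * (1 + u + 543 / 1000 * u ^ 2) -
      (1 + u + u ^ 2 / 2 + u ^ 3 / 6 + u ^ 4 / 24 + u ^ 5 / 100) := by
    rw [hs, ht]
    ring
  rw [e] at h
  linarith

theorem od_three_d34_f0 (u : ℝ) (h1 : 1 / 3 ≤ u) (h2 : u ≤ 1) :
    69781 / 50000 * (1 + (u - 1 / 3) / 3) ^ 3 ≤
      (1 + 1 / 100 + (1 / 100) ^ 2 / 2) * (1 + u + 543 / 1000 * u ^ 2) := by
  obtain ⟨s, hs⟩ : ∃ s, s = u - (1 / 3) := ⟨_, rfl⟩
  obtain ⟨t, ht⟩ : ∃ t, t = 1 - u := ⟨_, rfl⟩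
  have hs0 : 0 ≤ s := by linarith
  have ht0 : 0 ≤ t := by linarith
  have h : 0 ≤
      6508629 / 160000000 * t ^ 3 + 12350403 / 160000000 * s * t ^ 2 +
      5031007 / 32000000 * s ^ 2 * t + 298158847 / 4320000000 * s ^ 3 := by
    positivity
  have e :
      6508629 / 160000000 * t ^ 3 + 12350403 / 160000000 * s * t ^ 2 +
      5031007 / 32000000 * s ^ 2 * t + 298158847 / 4320000000 * s ^ 3 =
      (1 + 1 / 100 + (1 / 100) ^ 2 / 2) * (1 + u + 543 / 1000 * u ^ 2) -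
      (69781 / 50000 * (1 + (u - 1 / 3) / 3) ^ 3) := by
    rw [hs, ht]
    ring
  rw [e] at h
  linarith

theorem od_three_d34_g0 (u : ℝ) (h1 : 1 ≤ u) (h2 : u ≤ 3) :
    69781 / 50000 * (1 + (u - 1 / 3) / 3) ^ 3 ≤
      (1 + 1 / 100 + (1 / 100) ^ 2 / 2) * ((1 + (7 / 1000 * (u ^ 2 - 1)) +
      (7 / 1000 * (u ^ 2 - 1)) ^ 2 / 2 +
      (7 / 1000 * (u ^ 2 - 1)) ^ 3 / 6) *
      (1 + u + 543 / 1000 * u ^ 2)) := by
  obtain ⟨s, hs⟩ : ∃ s, s = u - (1) := ⟨_, rfl⟩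
  obtain ⟨t, ht⟩ : ∃ t, t = 3 - u := ⟨_, rfl⟩
  have hs0 : 0 ≤ s := by linarith
  have ht0 : 0 ≤ t := by linarith
  have h : 0 ≤
      298158847 / 3732480000000 * t ^ 8 + 1019932583729 / 933120000000000 * s * t ^ 7 +
      2727414578473103 / 466560000000000000 * s ^ 2 * t ^ 6 +
      1830589504900581907 / 116640000000000000000 * s ^ 3 * t ^ 5 +
      86421528521003887 / 3645000000000000000 * s ^ 4 * t ^ 4 +
      2454280284588313699 / 116640000000000000000 * s ^ 5 * t ^ 3 +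
      158107494240911911 / 14580000000000000000 * s ^ 6 * t ^ 2 +
      87281436177978373 / 29160000000000000000 * s ^ 7 * t +
      2498174315555519 / 7290000000000000000 * s ^ 8 := by
    positivity
  have e :
      298158847 / 3732480000000 * t ^ 8 + 1019932583729 / 933120000000000 * s * t ^ 7 +
      2727414578473103 / 466560000000000000 * s ^ 2 * t ^ 6 +
      1830589504900581907 / 116640000000000000000 * s ^ 3 * t ^ 5 +
      86421528521003887 / 3645000000000000000 * s ^ 4 * t ^ 4 +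
      2454280284588313699 / 116640000000000000000 * s ^ 5 * t ^ 3 +
      158107494240911911 / 14580000000000000000 * s ^ 6 * t ^ 2 +
      87281436177978373 / 29160000000000000000 * s ^ 7 * t +
      2498174315555519 / 7290000000000000000 * s ^ 8 =
      (1 + 1 / 100 + (1 / 100) ^ 2 / 2) * ((1 + (7 / 1000 * (u ^ 2 - 1)) +
      (7 / 1000 * (u ^ 2 - 1)) ^ 2 / 2 +
      (7 / 1000 * (u ^ 2 - 1)) ^ 3 / 6) *
      (1 + u + 543 / 1000 * u ^ 2)) -
      (69781 / 50000 * (1 + (u - 1 / 3) / 3) ^ 3) := by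
    rw [hs, ht]
    ring
  rw [e] at h
  linarith

theorem od_three_d34_g1 (u : ℝ) (h1 : 3 ≤ u) (h2 : u ≤ 5) :
    69781 / 50000 * (1 + (u - 1 / 3) / 3) ^ 3 ≤
      (1 + 1 / 100 + (1 / 100) ^ 2 / 2) * ((1 + (7 / 1000 * (u ^ 2 - 1)) +
      (7 / 1000 * (u ^ 2 - 1)) ^ 2 / 2 +
      (7 / 1000 * (u ^ 2 - 1)) ^ 3 / 6) *
      (1 + u + 543 / 1000 * u ^ 2)) := by
  obtain ⟨s, hs⟩ : ∃ s, s = u - (3) := ⟨_, rfl⟩
  obtain ⟨t, ht⟩ : ∃ t, t = 5 - u := ⟨_, rfl⟩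
  have hs0 : 0 ≤ s := by linarith
  have ht0 : 0 ≤ t := by linarith
  have h : 0 ≤
      2498174315555519 / 7290000000000000000 * t ^ 8 +
      72601720017574843 / 29160000000000000000 * s * t ^ 7 +
      26682121919874889 / 3645000000000000000 * s ^ 2 * t ^ 6 +
      1304390100640456621 / 116640000000000000000 * s ^ 3 * t ^ 5 +
      563179258922913697 / 58320000000000000000 * s ^ 4 * t ^ 4 +
      616939978247396533 / 116640000000000000000 * s ^ 5 * t ^ 3 +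
      77292556008379217 / 29160000000000000000 * s ^ 6 * t ^ 2 +
      8046844715397683 / 5832000000000000000 * s ^ 7 * t +
      27093798731423 / 72900000000000000 * s ^ 8 := by
    positivity
  have e :
      2498174315555519 / 7290000000000000000 * t ^ 8 +
      72601720017574843 / 29160000000000000000 * s * t ^ 7 +
      26682121919874889 / 3645000000000000000 * s ^ 2 * t ^ 6 +
      1304390100640456621 / 116640000000000000000 * s ^ 3 * t ^ 5 +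
      563179258922913697 / 58320000000000000000 * s ^ 4 * t ^ 4 +
      616939978247396533 / 116640000000000000000 * s ^ 5 * t ^ 3 +
      77292556008379217 / 29160000000000000000 * s ^ 6 * t ^ 2 +
      8046844715397683 / 5832000000000000000 * s ^ 7 * t +
      27093798731423 / 72900000000000000 * s ^ 8 =
      (1 + 1 / 100 + (1 / 100) ^ 2 / 2) * ((1 + (7 / 1000 * (u ^ 2 - 1)) +
      (7 / 1000 * (u ^ 2 - 1)) ^ 2 / 2 +
      (7 / 1000 * (u ^ 2 - 1)) ^ 3 / 6) *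
      (1 + u + 543 / 1000 * u ^ 2)) -
      (69781 / 50000 * (1 + (u - 1 / 3) / 3) ^ 3) := by
    rw [hs, ht]
    ring
  rw [e] at h
  linarith

theorem od_three_d34_t (u : ℝ) (h1 : 5 ≤ u) :
    69781 / 50000 * (1 + (u - 1 / 3) / 3) ^ 3 ≤
      (1 + 1 / 100 + (1 / 100) ^ 2 / 2) * ((1 + (7 / 1000 * (u ^ 2 - 1)) +
      (7 / 1000 * (u ^ 2 - 1)) ^ 2 / 2 +
      (7 / 1000 * (u ^ 2 - 1)) ^ 3 / 6) *
      (1 + u + 543 / 1000 * u ^ 2)) := by
  obtain ⟨s, hs⟩ : ∃ s, s = u - (5) := ⟨_, rfl⟩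
  have hs0 : 0 ≤ s := by linarith
  have h : 0 ≤
      27093798731423 / 284765625000000 + 1032576274745893 / 5062500000000000 * s +
      458812670191657 / 2109375000000000 * s ^ 2 +
      2118599643127249 / 27000000000000000 * s ^ 3 +
      333029400216443 / 30000000000000000 * s ^ 4 +
      2705551302153 / 4000000000000000 * s ^ 5 + 1494769985051 / 40000000000000000 * s ^ 6 +
      491954953 / 375000000000000 * s ^ 7 + 1254138683 / 40000000000000000 * s ^ 8 := by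
    positivity
  have e :
      27093798731423 / 284765625000000 + 1032576274745893 / 5062500000000000 * s +
      458812670191657 / 2109375000000000 * s ^ 2 +
      2118599643127249 / 27000000000000000 * s ^ 3 +
      333029400216443 / 30000000000000000 * s ^ 4 +
      2705551302153 / 4000000000000000 * s ^ 5 + 1494769985051 / 40000000000000000 * s ^ 6 +
      491954953 / 375000000000000 * s ^ 7 + 1254138683 / 40000000000000000 * s ^ 8 =
      (1 + 1 / 100 + (1 / 100) ^ 2 / 2) * ((1 + (7 / 1000 * (u ^ 2 - 1)) +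
      (7 / 1000 * (u ^ 2 - 1)) ^ 2 / 2 +
      (7 / 1000 * (u ^ 2 - 1)) ^ 3 / 6) *
      (1 + u + 543 / 1000 * u ^ 2)) -
      (69781 / 50000 * (1 + (u - 1 / 3) / 3) ^ 3) := by
    rw [hs]
    ring
  rw [e] at h
  linarith

/-- `K = 3`: `(c, μ, P, δ) = (543 / 1000, 7 / 1000, 1 / 3, 1 / 100)` -/
theorem expOd_three_d34 : ExpOd 3 (543 / 1000) (7 / 1000) (1 / 3) (1 / 100) := by
  have hde : (1 + 1 / 100 + (1 / 100) ^ 2 / 2) ≤ Real.exp (1 / 100) := Real.quadratic_le_exp_of_nonneg (by norm_num)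
  have hq : ∀ u : ℝ, 0 ≤ 1 + u + 543 / 1000 * u ^ 2 := fun u => by
    nlinarith [sq_nonneg (u + 2), sq_nonneg u]
  have hR : ∀ (u x y : ℝ), x ≤ y → y ≤ (1 + 1 / 100 + (1 / 100) ^ 2 / 2) * (1 + u + 543 / 1000 * u ^ 2) →
      x ≤ Real.exp (1 / 100) * (1 + u + 543 / 1000 * u ^ 2) := fun u x y h1 h2 =>
    (h1.trans h2).trans (mul_le_mul_of_nonneg_right hde (hq u))
  refine ExpOd.of (by norm_num) (by norm_num) (by norm_num) (by norm_num) (by norm_num) ?_ ?_ ?_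
  · intro u h1
    rcases le_total u (-3) with h3 | h3
    · exact hR u _ _ (exp_le_n3 h3) (od_three_d34_d u h3)
    rcases le_total u (-2) with h4 | h4
    · refine hR u _ _ (exp_le_n2 h4) ?_
      exact od_three_d34_c0 u (by linarith) (by linarith)
    rcases le_total u (-1) with h5 | h5
    · refine hR u _ _ (exp_le_n1 h5) ?_
      exact od_three_d34_b0 u (by linarith) (by linarith)
    rcases le_total u 0 with h6 | h6
    · refine hR u _ _ (exp_le_n0 h6) ?_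
      exact od_three_d34_a0 u (by linarith) (by linarith)
    refine hR u _ _ (exp_le_p h6 (by linarith)) ?_
    exact od_three_d34_e0 u (by linarith) (by linarith)
  · intro u h1 h2
    have h4 : 0 ≤ (1 + (u - 1 / 3) / 3) ^ 3 := by
      have : 0 ≤ (u - 1 / 3) / 3 := div_nonneg (by linarith) (by norm_num)
      positivity
    have hE : Real.exp (1 / 3) ≤ 69781 / 50000 := exp_up_1_3
    push_cast
    refine hR u _ _ (mul_le_mul_of_nonneg_right hE h4) ?_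
    exact od_three_d34_f0 u (by linarith) (by linarith)
  · intro u h1
    have h4 : 0 ≤ (1 + (u - 1 / 3) / 3) ^ 3 := by
      have : 0 ≤ (u - 1 / 3) / 3 := div_nonneg (by linarith) (by norm_num)
      positivity
    have hE : Real.exp (1 / 3) ≤ 69781 / 50000 := exp_up_1_3
    have hx : 0 ≤ 7 / 1000 * (u ^ 2 - 1) := mul_nonneg (by norm_num) (by nlinarith)
    have h5 := mul_le_mul_of_nonneg_right (taylor3_le_exp _ hx) (hq u)
    have h6 : 0 ≤ Real.exp (7 / 1000 * (u ^ 2 - 1)) * (1 + u + 543 / 1000 * u ^ 2) :=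
      mul_nonneg (Real.exp_nonneg _) (hq u)
    rw [Real.exp_add, mul_assoc]
    push_cast
    refine ((mul_le_mul_of_nonneg_right hE h4).trans ?_).trans
      ((mul_le_mul_of_nonneg_left h5 (by norm_num : (0 : ℝ) ≤ (1 + 1 / 100 + (1 / 100) ^ 2 / 2))).trans
        (mul_le_mul_of_nonneg_right hde h6))
    rcases le_total u (3) with hh | hh
    · exact od_three_d34_g0 u (by linarith) (by linarith)
    rcases le_total u (5) with hh | hh
    · exact od_three_d34_g1 u (by linarith) (by linarith)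
    exact od_three_d34_t u (by linarith)

theorem od_three_d35_a0 (u : ℝ) (h1 : -1 ≤ u) (h2 : u ≤ 0) :
    1 + u + u ^ 2 / 2 + u ^ 3 / 6 + u ^ 4 / 24 ≤
      (1 + 1 / 50 + (1 / 50) ^ 2 / 2) * (1 + u + 503 / 1000 * u ^ 2) := by
  obtain ⟨s, hs⟩ : ∃ s, s = u - (-1) := ⟨_, rfl⟩
  obtain ⟨t, ht⟩ : ∃ t, t = 0 - u := ⟨_, rfl⟩
  have hs0 : 0 ≤ s := by linarith
  have ht0 : 0 ≤ t := by linarith
  have h : 0 ≤
      690803 / 5000000 * t ^ 4 + 1598909 / 7500000 * s * t ^ 3 +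
      368803 / 5000000 * s ^ 2 * t ^ 2 + 303 / 5000 * s ^ 3 * t + 101 / 5000 * s ^ 4 := by
    positivity
  have e :
      690803 / 5000000 * t ^ 4 + 1598909 / 7500000 * s * t ^ 3 +
      368803 / 5000000 * s ^ 2 * t ^ 2 + 303 / 5000 * s ^ 3 * t + 101 / 5000 * s ^ 4 =
      (1 + 1 / 50 + (1 / 50) ^ 2 / 2) * (1 + u + 503 / 1000 * u ^ 2) -
      (1 + u + u ^ 2 / 2 + u ^ 3 / 6 + u ^ 4 / 24) := by
    rw [hs, ht]
    ring
  rw [e] at h
  linarith

theorem od_three_d35_b0 (u : ℝ) (h1 : -2 ≤ u) (h2 : u ≤ -1) :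
    36788 / 100000 *
      (1 + (u + 1) + (u + 1) ^ 2 / 2 + (u + 1) ^ 3 / 6 + (u + 1) ^ 4 / 24) ≤
      (1 + 1 / 50 + (1 / 50) ^ 2 / 2) * (1 + u + 503 / 1000 * u ^ 2) := by
  obtain ⟨s, hs⟩ : ∃ s, s = u - (-2) := ⟨_, rfl⟩
  obtain ⟨t, ht⟩ : ∃ t, t = -1 - u := ⟨_, rfl⟩
  have hs0 : 0 ≤ s := by linarith
  have ht0 : 0 ≤ t := by linarith
  have h : 0 ≤
      4472437 / 5000000 * t ^ 4 + 4542901 / 1875000 * s * t ^ 3 +
      11614539 / 5000000 * s ^ 2 * t ^ 2 + 2387809 / 2500000 * s ^ 3 * t +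
      726403 / 5000000 * s ^ 4 := by
    positivity
  have e :
      4472437 / 5000000 * t ^ 4 + 4542901 / 1875000 * s * t ^ 3 +
      11614539 / 5000000 * s ^ 2 * t ^ 2 + 2387809 / 2500000 * s ^ 3 * t +
      726403 / 5000000 * s ^ 4 =
      (1 + 1 / 50 + (1 / 50) ^ 2 / 2) * (1 + u + 503 / 1000 * u ^ 2) -
      (36788 / 100000 *
      (1 + (u + 1) + (u + 1) ^ 2 / 2 + (u + 1) ^ 3 / 6 + (u + 1) ^ 4 / 24)) := by
    rw [hs, ht]
    ring
  rw [e] at h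
  linarith

theorem od_three_d35_c0 (u : ℝ) (h1 : -3 ≤ u) (h2 : u ≤ -2) :
    13534 / 100000 *
      (1 + (u + 2) + (u + 2) ^ 2 / 2 + (u + 2) ^ 3 / 6 + (u + 2) ^ 4 / 24) ≤
      (1 + 1 / 50 + (1 / 50) ^ 2 / 2) * (1 + u + 503 / 1000 * u ^ 2) := by
  obtain ⟨s, hs⟩ : ∃ s, s = u - (-3) := ⟨_, rfl⟩
  obtain ⟨t, ht⟩ : ∃ t, t = -2 - u := ⟨_, rfl⟩
  have hs0 : 0 ≤ s := by linarith
  have ht0 : 0 ≤ t := by linarith
  have h : 0 ≤
      25272929 / 10000000 * t ^ 4 + 6003971 / 750000 * s * t ^ 3 +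
      46657261 / 5000000 * s ^ 2 * t ^ 2 + 148631 / 31250 * s ^ 3 * t +
      560689 / 625000 * s ^ 4 := by
    positivity
  have e :
      25272929 / 10000000 * t ^ 4 + 6003971 / 750000 * s * t ^ 3 +
      46657261 / 5000000 * s ^ 2 * t ^ 2 + 148631 / 31250 * s ^ 3 * t +
      560689 / 625000 * s ^ 4 =
      (1 + 1 / 50 + (1 / 50) ^ 2 / 2) * (1 + u + 503 / 1000 * u ^ 2) -
      (13534 / 100000 *
      (1 + (u + 2) + (u + 2) ^ 2 / 2 + (u + 2) ^ 3 / 6 + (u + 2) ^ 4 / 24)) := by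
    rw [hs, ht]
    ring
  rw [e] at h
  linarith

theorem od_three_d35_d (u : ℝ) (h2 : u ≤ -3) :
    4979 / 100000 ≤
      (1 + 1 / 50 + (1 / 50) ^ 2 / 2) * (1 + u + 503 / 1000 * u ^ 2) := by
  obtain ⟨s, hs⟩ : ∃ s, s = -3 - u := ⟨_, rfl⟩
  have hs0 : 0 ≤ s := by linarith
  have h : 0 ≤
      12641277 / 5000000 + 5146909 / 2500000 * s + 2565803 / 5000000 * s ^ 2 := by
    positivity
  have e :
      12641277 / 5000000 + 5146909 / 2500000 * s + 2565803 / 5000000 * s ^ 2 =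
      (1 + 1 / 50 + (1 / 50) ^ 2 / 2) * (1 + u + 503 / 1000 * u ^ 2) -
      (4979 / 100000) := by
    rw [hs]
    ring
  rw [e] at h
  linarith

theorem od_three_d35_e0 (u : ℝ) (h1 : 0 ≤ u) (h2 : u ≤ 1 / 3) :
    1 + u + u ^ 2 / 2 + u ^ 3 / 6 + u ^ 4 / 24 + u ^ 5 / 100 ≤
      (1 + 1 / 50 + (1 / 50) ^ 2 / 2) * (1 + u + 503 / 1000 * u ^ 2) := by
  obtain ⟨s, hs⟩ : ∃ s, s = u - (0) := ⟨_, rfl⟩
  obtain ⟨t, ht⟩ : ∃ t, t = 1 / 3 - u := ⟨_, rfl⟩
  have hs0 : 0 ≤ s := by linarith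
  have ht0 : 0 ≤ t := by linarith
  have h : 0 ≤
      24543 / 5000 * t ^ 5 + 16362 / 625 * s * t ^ 4 + 279930681 / 5000000 * s ^ 2 * t ^ 3 +
      292346043 / 5000000 * s ^ 3 * t ^ 2 + 145144043 / 5000000 * s ^ 4 * t +
      26325681 / 5000000 * s ^ 5 := by
    positivity
  have e :
      24543 / 5000 * t ^ 5 + 16362 / 625 * s * t ^ 4 + 279930681 / 5000000 * s ^ 2 * t ^ 3 +
      292346043 / 5000000 * s ^ 3 * t ^ 2 + 145144043 / 5000000 * s ^ 4 * t +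
      26325681 / 5000000 * s ^ 5 =
      (1 + 1 / 50 + (1 / 50) ^ 2 / 2) * (1 + u + 503 / 1000 * u ^ 2) -
      (1 + u + u ^ 2 / 2 + u ^ 3 / 6 + u ^ 4 / 24 + u ^ 5 / 100) := by
    rw [hs, ht]
    ring
  rw [e] at h
  linarith

theorem od_three_d35_f0 (u : ℝ) (h1 : 1 / 3 ≤ u) (h2 : u ≤ 1) :
    69781 / 50000 * (1 + (u - 1 / 3) / 3) ^ 3 ≤
      (1 + 1 / 50 + (1 / 50) ^ 2 / 2) * (1 + u + 503 / 1000 * u ^ 2) := by
  obtain ⟨s, hs⟩ : ∃ s, s = u - (1 / 3) := ⟨_, rfl⟩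
  obtain ⟨t, ht⟩ : ∃ t, t = 1 - u := ⟨_, rfl⟩
  have hs0 : 0 ≤ s := by linarith
  have ht0 : 0 ≤ t := by linarith
  have h : 0 ≤
      2924709 / 40000000 * t ^ 3 + 5775963 / 40000000 * s * t ^ 2 +
      1131007 / 8000000 * s ^ 2 * t + 19877287 / 1080000000 * s ^ 3 := by
    positivity
  have e :
      2924709 / 40000000 * t ^ 3 + 5775963 / 40000000 * s * t ^ 2 +
      1131007 / 8000000 * s ^ 2 * t + 19877287 / 1080000000 * s ^ 3 =
      (1 + 1 / 50 + (1 / 50) ^ 2 / 2) * (1 + u + 503 / 1000 * u ^ 2) -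
      (69781 / 50000 * (1 + (u - 1 / 3) / 3) ^ 3) := by
    rw [hs, ht]
    ring
  rw [e] at h
  linarith

theorem od_three_d35_g0 (u : ℝ) (h1 : 1 ≤ u) (h2 : u ≤ 3) :
    69781 / 50000 * (1 + (u - 1 / 3) / 3) ^ 3 ≤
      (1 + 1 / 50 + (1 / 50) ^ 2 / 2) * ((1 + (1 / 100 * (u ^ 2 - 1)) +
      (1 / 100 * (u ^ 2 - 1)) ^ 2 / 2 +
      (1 / 100 * (u ^ 2 - 1)) ^ 3 / 6) *
      (1 + u + 503 / 1000 * u ^ 2)) := by
  obtain ⟨s, hs⟩ : ∃ s, s = u - (1) := ⟨_, rfl⟩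
  obtain ⟨t, ht⟩ : ∃ t, t = 3 - u := ⟨_, rfl⟩
  have hs0 : 0 ≤ s := by linarith
  have ht0 : 0 ≤ t := by linarith
  have h : 0 ≤
      19877287 / 933120000000 * t ^ 8 + 6304129487 / 23328000000000 * s * t ^ 7 +
      1721264835587 / 1166400000000000 * s ^ 2 * t ^ 6 +
      109232147408479 / 29160000000000000 * s ^ 3 * t ^ 5 +
      71771426688349 / 14580000000000000 * s ^ 4 * t ^ 4 +
      102235737803803 / 29160000000000000 * s ^ 5 * t ^ 3 +
      40600577435561 / 29160000000000000 * s ^ 6 * t ^ 2 +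
      5257493464487 / 14580000000000000 * s ^ 7 * t +
      1034655519919 / 14580000000000000 * s ^ 8 := by
    positivity
  have e :
      19877287 / 933120000000 * t ^ 8 + 6304129487 / 23328000000000 * s * t ^ 7 +
      1721264835587 / 1166400000000000 * s ^ 2 * t ^ 6 +
      109232147408479 / 29160000000000000 * s ^ 3 * t ^ 5 +
      71771426688349 / 14580000000000000 * s ^ 4 * t ^ 4 +
      102235737803803 / 29160000000000000 * s ^ 5 * t ^ 3 +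
      40600577435561 / 29160000000000000 * s ^ 6 * t ^ 2 +
      5257493464487 / 14580000000000000 * s ^ 7 * t +
      1034655519919 / 14580000000000000 * s ^ 8 =
      (1 + 1 / 50 + (1 / 50) ^ 2 / 2) * ((1 + (1 / 100 * (u ^ 2 - 1)) +
      (1 / 100 * (u ^ 2 - 1)) ^ 2 / 2 +
      (1 / 100 * (u ^ 2 - 1)) ^ 3 / 6) *
      (1 + u + 503 / 1000 * u ^ 2)) -
      (69781 / 50000 * (1 + (u - 1 / 3) / 3) ^ 3) := by
    rw [hs, ht]
    ring
  rw [e] at h
  linarith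

theorem od_three_d35_t (u : ℝ) (h1 : 3 ≤ u) :
    69781 / 50000 * (1 + (u - 1 / 3) / 3) ^ 3 ≤
      (1 + 1 / 50 + (1 / 50) ^ 2 / 2) * ((1 + (1 / 100 * (u ^ 2 - 1)) +
      (1 / 100 * (u ^ 2 - 1)) ^ 2 / 2 +
      (1 / 100 * (u ^ 2 - 1)) ^ 3 / 6) *
      (1 + u + 503 / 1000 * u ^ 2)) := by
  obtain ⟨s, hs⟩ : ∃ s, s = u - (3) := ⟨_, rfl⟩
  have hs0 : 0 ≤ s := by linarith
  have h : 0 ≤
      1034655519919 / 56953125000000 + 67105570997 / 2531250000000 * s +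
      923569557341 / 16875000000000 * s ^ 2 + 1349422945631 / 33750000000000 * s ^ 3 +
      6241445873 / 625000000000 * s ^ 4 + 3361196829 / 5000000000000 * s ^ 5 +
      1520847847 / 30000000000000 * s ^ 6 + 4167517 / 1875000000000 * s ^ 7 +
      2565803 / 30000000000000 * s ^ 8 := by
    positivity
  have e :
      1034655519919 / 56953125000000 + 67105570997 / 2531250000000 * s +
      923569557341 / 16875000000000 * s ^ 2 + 1349422945631 / 33750000000000 * s ^ 3 +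
      6241445873 / 625000000000 * s ^ 4 + 3361196829 / 5000000000000 * s ^ 5 +
      1520847847 / 30000000000000 * s ^ 6 + 4167517 / 1875000000000 * s ^ 7 +
      2565803 / 30000000000000 * s ^ 8 =
      (1 + 1 / 50 + (1 / 50) ^ 2 / 2) * ((1 + (1 / 100 * (u ^ 2 - 1)) +
      (1 / 100 * (u ^ 2 - 1)) ^ 2 / 2 +
      (1 / 100 * (u ^ 2 - 1)) ^ 3 / 6) *
      (1 + u + 503 / 1000 * u ^ 2)) -
      (69781 / 50000 * (1 + (u - 1 / 3) / 3) ^ 3) := by
    rw [hs]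
    ring
  rw [e] at h
  linarith

/-- `K = 3`: `(c, μ, P, δ) = (503 / 1000, 1 / 100, 1 / 3, 1 / 50)` -/
theorem expOd_three_d35 : ExpOd 3 (503 / 1000) (1 / 100) (1 / 3) (1 / 50) := by
  have hde : (1 + 1 / 50 + (1 / 50) ^ 2 / 2) ≤ Real.exp (1 / 50) := Real.quadratic_le_exp_of_nonneg (by norm_num)
  have hq : ∀ u : ℝ, 0 ≤ 1 + u + 503 / 1000 * u ^ 2 := fun u => by
    nlinarith [sq_nonneg (u + 2), sq_nonneg u]
  have hR : ∀ (u x y : ℝ), x ≤ y → y ≤ (1 + 1 / 50 + (1 / 50) ^ 2 / 2) * (1 + u + 503 / 1000 * u ^ 2) →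
      x ≤ Real.exp (1 / 50) * (1 + u + 503 / 1000 * u ^ 2) := fun u x y h1 h2 =>
    (h1.trans h2).trans (mul_le_mul_of_nonneg_right hde (hq u))
  refine ExpOd.of (by norm_num) (by norm_num) (by norm_num) (by norm_num) (by norm_num) ?_ ?_ ?_
  · intro u h1
    rcases le_total u (-3) with h3 | h3
    · exact hR u _ _ (exp_le_n3 h3) (od_three_d35_d u h3)
    rcases le_total u (-2) with h4 | h4
    · refine hR u _ _ (exp_le_n2 h4) ?_
      exact od_three_d35_c0 u (by linarith) (by linarith)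
    rcases le_total u (-1) with h5 | h5
    · refine hR u _ _ (exp_le_n1 h5) ?_
      exact od_three_d35_b0 u (by linarith) (by linarith)
    rcases le_total u 0 with h6 | h6
    · refine hR u _ _ (exp_le_n0 h6) ?_
      exact od_three_d35_a0 u (by linarith) (by linarith)
    refine hR u _ _ (exp_le_p h6 (by linarith)) ?_
    exact od_three_d35_e0 u (by linarith) (by linarith)
  · intro u h1 h2
    have h4 : 0 ≤ (1 + (u - 1 / 3) / 3) ^ 3 := by
      have : 0 ≤ (u - 1 / 3) / 3 := div_nonneg (by linarith) (by norm_num)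
      positivity
    have hE : Real.exp (1 / 3) ≤ 69781 / 50000 := exp_up_1_3
    push_cast
    refine hR u _ _ (mul_le_mul_of_nonneg_right hE h4) ?_
    exact od_three_d35_f0 u (by linarith) (by linarith)
  · intro u h1
    have h4 : 0 ≤ (1 + (u - 1 / 3) / 3) ^ 3 := by
      have : 0 ≤ (u - 1 / 3) / 3 := div_nonneg (by linarith) (by norm_num)
      positivity
    have hE : Real.exp (1 / 3) ≤ 69781 / 50000 := exp_up_1_3
    have hx : 0 ≤ 1 / 100 * (u ^ 2 - 1) := mul_nonneg (by norm_num) (by nlinarith)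
    have h5 := mul_le_mul_of_nonneg_right (taylor3_le_exp _ hx) (hq u)
    have h6 : 0 ≤ Real.exp (1 / 100 * (u ^ 2 - 1)) * (1 + u + 503 / 1000 * u ^ 2) :=
      mul_nonneg (Real.exp_nonneg _) (hq u)
    rw [Real.exp_add, mul_assoc]
    push_cast
    refine ((mul_le_mul_of_nonneg_right hE h4).trans ?_).trans
      ((mul_le_mul_of_nonneg_left h5 (by norm_num : (0 : ℝ) ≤ (1 + 1 / 50 + (1 / 50) ^ 2 / 2))).trans
        (mul_le_mul_of_nonneg_right hde h6))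
    rcases le_total u (3) with hh | hh
    · exact od_three_d35_g0 u (by linarith) (by linarith)
    exact od_three_d35_t u (by linarith)

theorem od_three_d36_a0 (u : ℝ) (h1 : -1 ≤ u) (h2 : u ≤ 0) :
    1 + u + u ^ 2 / 2 + u ^ 3 / 6 + u ^ 4 / 24 ≤
      (1 + 1 / 20 + (1 / 20) ^ 2 / 2) * (1 + u + 19 / 40 * u ^ 2) := by
  obtain ⟨s, hs⟩ : ∃ s, s = u - (-1) := ⟨_, rfl⟩
  obtain ⟨t, ht⟩ : ∃ t, t = 0 - u := ⟨_, rfl⟩
  have hs0 : 0 ≤ s := by linarith
  have ht0 : 0 ≤ t := by linarith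
  have h : 0 ≤
      3979 / 32000 * t ^ 4 + 10397 / 48000 * s * t ^ 3 + 4899 / 32000 * s ^ 2 * t ^ 2 +
      123 / 800 * s ^ 3 * t + 41 / 800 * s ^ 4 := by
    positivity
  have e :
      3979 / 32000 * t ^ 4 + 10397 / 48000 * s * t ^ 3 + 4899 / 32000 * s ^ 2 * t ^ 2 +
      123 / 800 * s ^ 3 * t + 41 / 800 * s ^ 4 =
      (1 + 1 / 20 + (1 / 20) ^ 2 / 2) * (1 + u + 19 / 40 * u ^ 2) -
      (1 + u + u ^ 2 / 2 + u ^ 3 / 6 + u ^ 4 / 24) := by
    rw [hs, ht]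
    ring
  rw [e] at h
  linarith

theorem od_three_d36_b0 (u : ℝ) (h1 : -2 ≤ u) (h2 : u ≤ -1) :
    36788 / 100000 *
      (1 + (u + 1) + (u + 1) ^ 2 / 2 + (u + 1) ^ 3 / 6 + (u + 1) ^ 4 / 24) ≤
      (1 + 1 / 20 + (1 / 20) ^ 2 / 2) * (1 + u + 19 / 40 * u ^ 2) := by
  obtain ⟨s, hs⟩ : ∃ s, s = u - (-2) := ⟨_, rfl⟩
  obtain ⟨t, ht⟩ : ∃ t, t = -1 - u := ⟨_, rfl⟩
  have hs0 : 0 ≤ s := by linarith
  have ht0 : 0 ≤ t := by linarith
  have h : 0 ≤
      80817 / 100000 * t ^ 4 + 1298357 / 600000 * s * t ^ 3 +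
      1640111 / 800000 * s ^ 2 * t ^ 2 + 336469 / 400000 * s ^ 3 * t + 105171 / 800000 * s ^ 4 := by
    positivity
  have e :
      80817 / 100000 * t ^ 4 + 1298357 / 600000 * s * t ^ 3 +
      1640111 / 800000 * s ^ 2 * t ^ 2 + 336469 / 400000 * s ^ 3 * t + 105171 / 800000 * s ^ 4 =
      (1 + 1 / 20 + (1 / 20) ^ 2 / 2) * (1 + u + 19 / 40 * u ^ 2) -
      (36788 / 100000 *
      (1 + (u + 1) + (u + 1) ^ 2 / 2 + (u + 1) ^ 3 / 6 + (u + 1) ^ 4 / 24)) := by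
    rw [hs, ht]
    ring
  rw [e] at h
  linarith

theorem od_three_d36_c0 (u : ℝ) (h1 : -3 ≤ u) (h2 : u ≤ -2) :
    13534 / 100000 *
      (1 + (u + 2) + (u + 2) ^ 2 / 2 + (u + 2) ^ 3 / 6 + (u + 2) ^ 4 / 24) ≤
      (1 + 1 / 20 + (1 / 20) ^ 2 / 2) * (1 + u + 19 / 40 * u ^ 2) := by
  obtain ⟨s, hs⟩ : ∃ s, s = u - (-3) := ⟨_, rfl⟩
  obtain ⟨t, ht⟩ : ∃ t, t = -2 - u := ⟨_, rfl⟩
  have hs0 : 0 ≤ s := by linarith
  have ht0 : 0 ≤ t := by linarith
  have h : 0 ≤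
      1872673 / 800000 * t ^ 4 + 8848127 / 1200000 * s * t ^ 3 +
      6832623 / 800000 * s ^ 2 * t ^ 2 + 864921 / 200000 * s ^ 3 * t + 162157 / 200000 * s ^ 4 := by
    positivity
  have e :
      1872673 / 800000 * t ^ 4 + 8848127 / 1200000 * s * t ^ 3 +
      6832623 / 800000 * s ^ 2 * t ^ 2 + 864921 / 200000 * s ^ 3 * t + 162157 / 200000 * s ^ 4 =
      (1 + 1 / 20 + (1 / 20) ^ 2 / 2) * (1 + u + 19 / 40 * u ^ 2) -
      (13534 / 100000 *
      (1 + (u + 2) + (u + 2) ^ 2 / 2 + (u + 2) ^ 3 / 6 + (u + 2) ^ 4 / 24)) := by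
    rw [hs, ht]
    ring
  rw [e] at h
  linarith

theorem od_three_d36_d (u : ℝ) (h2 : u ≤ -3) :
    4979 / 100000 ≤
      (1 + 1 / 20 + (1 / 20) ^ 2 / 2) * (1 + u + 19 / 40 * u ^ 2) := by
  obtain ⟨s, hs⟩ : ∃ s, s = -3 - u := ⟨_, rfl⟩
  have hs0 : 0 ≤ s := by linarith
  have h : 0 ≤
      1873443 / 800000 + 31117 / 16000 * s + 15979 / 32000 * s ^ 2 := by
    positivity
  have e :
      1873443 / 800000 + 31117 / 16000 * s + 15979 / 32000 * s ^ 2 =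
      (1 + 1 / 20 + (1 / 20) ^ 2 / 2) * (1 + u + 19 / 40 * u ^ 2) -
      (4979 / 100000) := by
    rw [hs]
    ring
  rw [e] at h
  linarith

theorem od_three_d36_e0 (u : ℝ) (h1 : 0 ≤ u) (h2 : u ≤ 1 / 3) :
    1 + u + u ^ 2 / 2 + u ^ 3 / 6 + u ^ 4 / 24 + u ^ 5 / 100 ≤
      (1 + 1 / 20 + (1 / 20) ^ 2 / 2) * (1 + u + 19 / 40 * u ^ 2) := by
  obtain ⟨s, hs⟩ : ∃ s, s = u - (0) := ⟨_, rfl⟩
  obtain ⟨t, ht⟩ : ∃ t, t = 1 / 3 - u := ⟨_, rfl⟩
  have hs0 : 0 ≤ s := by linarith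
  have ht0 : 0 ≤ t := by linarith
  have h : 0 ≤
      9963 / 800 * t ^ 5 + 3321 / 50 * s * t ^ 4 + 4515993 / 32000 * s ^ 2 * t ^ 3 +
      4732539 / 32000 * s ^ 3 * t ^ 2 + 2422259 / 32000 * s ^ 4 * t + 478473 / 32000 * s ^ 5 := by
    positivity
  have e :
      9963 / 800 * t ^ 5 + 3321 / 50 * s * t ^ 4 + 4515993 / 32000 * s ^ 2 * t ^ 3 +
      4732539 / 32000 * s ^ 3 * t ^ 2 + 2422259 / 32000 * s ^ 4 * t + 478473 / 32000 * s ^ 5 =
      (1 + 1 / 20 + (1 / 20) ^ 2 / 2) * (1 + u + 19 / 40 * u ^ 2) -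
      (1 + u + u ^ 2 / 2 + u ^ 3 / 6 + u ^ 4 / 24 + u ^ 5 / 100) := by
    rw [hs, ht]
    ring
  rw [e] at h
  linarith

theorem od_three_d36_f0 (u : ℝ) (h1 : 1 / 3 ≤ u) (h2 : u ≤ 1) :
    69781 / 50000 * (1 + (u - 1 / 3) / 3) ^ 3 ≤
      (1 + 1 / 20 + (1 / 20) ^ 2 / 2) * (1 + u + 19 / 40 * u ^ 2) := by
  obtain ⟨s, hs⟩ : ∃ s, s = u - (1 / 3) := ⟨_, rfl⟩
  obtain ⟨t, ht⟩ : ∃ t, t = 1 - u := ⟨_, rfl⟩
  have hs0 : 0 ≤ s := by linarith
  have ht0 : 0 ≤ t := by linarith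
  have h : 0 ≤
      1329033 / 6400000 * t ^ 3 + 3821871 / 6400000 * s * t ^ 2 +
      3984359 / 6400000 * s ^ 2 * t + 31339099 / 172800000 * s ^ 3 := by
    positivity
  have e :
      1329033 / 6400000 * t ^ 3 + 3821871 / 6400000 * s * t ^ 2 +
      3984359 / 6400000 * s ^ 2 * t + 31339099 / 172800000 * s ^ 3 =
      (1 + 1 / 20 + (1 / 20) ^ 2 / 2) * (1 + u + 19 / 40 * u ^ 2) -
      (69781 / 50000 * (1 + (u - 1 / 3) / 3) ^ 3) := by
    rw [hs, ht]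
    ring
  rw [e] at h
  linarith

theorem od_three_d36_g0 (u : ℝ) (h1 : 1 ≤ u) (h2 : u ≤ 5 / 2) :
    69781 / 50000 * (1 + (u - 1 / 3) / 3) ^ 3 ≤
      (1 + 1 / 20 + (1 / 20) ^ 2 / 2) * ((1 + (1 / 100 * (u ^ 2 - 1)) +
      (1 / 100 * (u ^ 2 - 1)) ^ 2 / 2 +
      (1 / 100 * (u ^ 2 - 1)) ^ 3 / 6) *
      (1 + u + 19 / 40 * u ^ 2)) := by
  obtain ⟨s, hs⟩ : ∃ s, s = u - (1) := ⟨_, rfl⟩
  obtain ⟨t, ht⟩ : ∃ t, t = 5 / 2 - u := ⟨_, rfl⟩
  have hs0 : 0 ≤ s := by linarith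
  have ht0 : 0 ≤ t := by linarith
  have h : 0 ≤
      31339099 / 14946778125 * t ^ 8 + 1062895037 / 59787112500 * s * t ^ 7 +
      784267792649 / 11957422500000 * s ^ 2 * t ^ 6 +
      161352198478249 / 1195742250000000 * s ^ 3 * t ^ 5 +
      400438665631057 / 2391484500000000 * s ^ 4 * t ^ 4 +
      2437406025425653 / 19131876000000000 * s ^ 5 * t ^ 3 +
      4419160426812617 / 76527504000000000 * s ^ 6 * t ^ 2 +
      108893034391519 / 7652750400000000 * s ^ 7 * t +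
      90111502134001 / 61222003200000000 * s ^ 8 := by
    positivity
  have e :
      31339099 / 14946778125 * t ^ 8 + 1062895037 / 59787112500 * s * t ^ 7 +
      784267792649 / 11957422500000 * s ^ 2 * t ^ 6 +
      161352198478249 / 1195742250000000 * s ^ 3 * t ^ 5 +
      400438665631057 / 2391484500000000 * s ^ 4 * t ^ 4 +
      2437406025425653 / 19131876000000000 * s ^ 5 * t ^ 3 +
      4419160426812617 / 76527504000000000 * s ^ 6 * t ^ 2 +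
      108893034391519 / 7652750400000000 * s ^ 7 * t +
      90111502134001 / 61222003200000000 * s ^ 8 =
      (1 + 1 / 20 + (1 / 20) ^ 2 / 2) * ((1 + (1 / 100 * (u ^ 2 - 1)) +
      (1 / 100 * (u ^ 2 - 1)) ^ 2 / 2 +
      (1 / 100 * (u ^ 2 - 1)) ^ 3 / 6) *
      (1 + u + 19 / 40 * u ^ 2)) -
      (69781 / 50000 * (1 + (u - 1 / 3) / 3) ^ 3) := by
    rw [hs, ht]
    ring
  rw [e] at h
  linarith

theorem od_three_d36_g1 (u : ℝ) (h1 : 5 / 2 ≤ u) (h2 : u ≤ 4) :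
    69781 / 50000 * (1 + (u - 1 / 3) / 3) ^ 3 ≤
      (1 + 1 / 20 + (1 / 20) ^ 2 / 2) * ((1 + (1 / 100 * (u ^ 2 - 1)) +
      (1 / 100 * (u ^ 2 - 1)) ^ 2 / 2 +
      (1 / 100 * (u ^ 2 - 1)) ^ 3 / 6) *
      (1 + u + 19 / 40 * u ^ 2)) := by
  obtain ⟨s, hs⟩ : ∃ s, s = u - (5 / 2) := ⟨_, rfl⟩
  obtain ⟨t, ht⟩ : ∃ t, t = 4 - u := ⟨_, rfl⟩
  have hs0 : 0 ≤ s := by linarith
  have ht0 : 0 ≤ t := by linarith
  have h : 0 ≤
      90111502134001 / 61222003200000000 * t ^ 8 +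
      71329969876483 / 7652750400000000 * s * t ^ 7 +
      1789745910760097 / 76527504000000000 * s ^ 2 * t ^ 6 +
      142037082888337 / 4782969000000000 * s ^ 3 * t ^ 5 +
      430757145818231 / 19131876000000000 * s ^ 4 * t ^ 4 +
      41101065891023 / 2391484500000000 * s ^ 5 * t ^ 3 +
      16426410374143 / 956593800000000 * s ^ 6 * t ^ 2 +
      4190710394 / 373669453125 * s ^ 7 * t + 3435379523 / 1195742250000 * s ^ 8 := by
    positivity
  have e :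
      90111502134001 / 61222003200000000 * t ^ 8 +
      71329969876483 / 7652750400000000 * s * t ^ 7 +
      1789745910760097 / 76527504000000000 * s ^ 2 * t ^ 6 +
      142037082888337 / 4782969000000000 * s ^ 3 * t ^ 5 +
      430757145818231 / 19131876000000000 * s ^ 4 * t ^ 4 +
      41101065891023 / 2391484500000000 * s ^ 5 * t ^ 3 +
      16426410374143 / 956593800000000 * s ^ 6 * t ^ 2 +
      4190710394 / 373669453125 * s ^ 7 * t + 3435379523 / 1195742250000 * s ^ 8 =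
      (1 + 1 / 20 + (1 / 20) ^ 2 / 2) * ((1 + (1 / 100 * (u ^ 2 - 1)) +
      (1 / 100 * (u ^ 2 - 1)) ^ 2 / 2 +
      (1 / 100 * (u ^ 2 - 1)) ^ 3 / 6) *
      (1 + u + 19 / 40 * u ^ 2)) -
      (69781 / 50000 * (1 + (u - 1 / 3) / 3) ^ 3) := by
    rw [hs, ht]
    ring
  rw [e] at h
  linarith

theorem od_three_d36_t (u : ℝ) (h1 : 4 ≤ u) :
    69781 / 50000 * (1 + (u - 1 / 3) / 3) ^ 3 ≤
      (1 + 1 / 20 + (1 / 20) ^ 2 / 2) * ((1 + (1 / 100 * (u ^ 2 - 1)) +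
      (1 / 100 * (u ^ 2 - 1)) ^ 2 / 2 +
      (1 / 100 * (u ^ 2 - 1)) ^ 3 / 6) *
      (1 + u + 19 / 40 * u ^ 2)) := by
  obtain ⟨s, hs⟩ : ∃ s, s = u - (4) := ⟨_, rfl⟩
  have hs0 : 0 ≤ s := by linarith
  have h : 0 ≤
      3435379523 / 46656000000 + 325758401 / 1620000000 * s +
      75232022341 / 345600000000 * s ^ 2 + 18399258809 / 216000000000 * s ^ 3 +
      889255739 / 64000000000 * s ^ 4 + 12079283 / 12000000000 * s ^ 5 +
      858661 / 12800000000 * s ^ 6 + 22707 / 8000000000 * s ^ 7 + 15979 / 192000000000 * s ^ 8 := by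
    positivity
  have e :
      3435379523 / 46656000000 + 325758401 / 1620000000 * s +
      75232022341 / 345600000000 * s ^ 2 + 18399258809 / 216000000000 * s ^ 3 +
      889255739 / 64000000000 * s ^ 4 + 12079283 / 12000000000 * s ^ 5 +
      858661 / 12800000000 * s ^ 6 + 22707 / 8000000000 * s ^ 7 + 15979 / 192000000000 * s ^ 8 =
      (1 + 1 / 20 + (1 / 20) ^ 2 / 2) * ((1 + (1 / 100 * (u ^ 2 - 1)) +
      (1 / 100 * (u ^ 2 - 1)) ^ 2 / 2 +
      (1 / 100 * (u ^ 2 - 1)) ^ 3 / 6) *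
      (1 + u + 19 / 40 * u ^ 2)) -
      (69781 / 50000 * (1 + (u - 1 / 3) / 3) ^ 3) := by
    rw [hs]
    ring
  rw [e] at h
  linarith

/-- `K = 3`: `(c, μ, P, δ) = (19 / 40, 1 / 100, 1 / 3, 1 / 20)` -/
theorem expOd_three_d36 : ExpOd 3 (19 / 40) (1 / 100) (1 / 3) (1 / 20) := by
  have hde : (1 + 1 / 20 + (1 / 20) ^ 2 / 2) ≤ Real.exp (1 / 20) := Real.quadratic_le_exp_of_nonneg (by norm_num)
  have hq : ∀ u : ℝ, 0 ≤ 1 + u + 19 / 40 * u ^ 2 := fun u => by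
    nlinarith [sq_nonneg (u + 2), sq_nonneg u]
  have hR : ∀ (u x y : ℝ), x ≤ y → y ≤ (1 + 1 / 20 + (1 / 20) ^ 2 / 2) * (1 + u + 19 / 40 * u ^ 2) →
      x ≤ Real.exp (1 / 20) * (1 + u + 19 / 40 * u ^ 2) := fun u x y h1 h2 =>
    (h1.trans h2).trans (mul_le_mul_of_nonneg_right hde (hq u))
  refine ExpOd.of (by norm_num) (by norm_num) (by norm_num) (by norm_num) (by norm_num) ?_ ?_ ?_
  · intro u h1
    rcases le_total u (-3) with h3 | h3
    · exact hR u _ _ (exp_le_n3 h3) (od_three_d36_d u h3)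
    rcases le_total u (-2) with h4 | h4
    · refine hR u _ _ (exp_le_n2 h4) ?_
      exact od_three_d36_c0 u (by linarith) (by linarith)
    rcases le_total u (-1) with h5 | h5
    · refine hR u _ _ (exp_le_n1 h5) ?_
      exact od_three_d36_b0 u (by linarith) (by linarith)
    rcases le_total u 0 with h6 | h6
    · refine hR u _ _ (exp_le_n0 h6) ?_
      exact od_three_d36_a0 u (by linarith) (by linarith)
    refine hR u _ _ (exp_le_p h6 (by linarith)) ?_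
    exact od_three_d36_e0 u (by linarith) (by linarith)
  · intro u h1 h2
    have h4 : 0 ≤ (1 + (u - 1 / 3) / 3) ^ 3 := by
      have : 0 ≤ (u - 1 / 3) / 3 := div_nonneg (by linarith) (by norm_num)
      positivity
    have hE : Real.exp (1 / 3) ≤ 69781 / 50000 := exp_up_1_3
    push_cast
    refine hR u _ _ (mul_le_mul_of_nonneg_right hE h4) ?_
    exact od_three_d36_f0 u (by linarith) (by linarith)
  · intro u h1
    have h4 : 0 ≤ (1 + (u - 1 / 3) / 3) ^ 3 := by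
      have : 0 ≤ (u - 1 / 3) / 3 := div_nonneg (by linarith) (by norm_num)
      positivity
    have hE : Real.exp (1 / 3) ≤ 69781 / 50000 := exp_up_1_3
    have hx : 0 ≤ 1 / 100 * (u ^ 2 - 1) := mul_nonneg (by norm_num) (by nlinarith)
    have h5 := mul_le_mul_of_nonneg_right (taylor3_le_exp _ hx) (hq u)
    have h6 : 0 ≤ Real.exp (1 / 100 * (u ^ 2 - 1)) * (1 + u + 19 / 40 * u ^ 2) :=
      mul_nonneg (Real.exp_nonneg _) (hq u)
    rw [Real.exp_add, mul_assoc]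
    push_cast
    refine ((mul_le_mul_of_nonneg_right hE h4).trans ?_).trans
      ((mul_le_mul_of_nonneg_left h5 (by norm_num : (0 : ℝ) ≤ (1 + 1 / 20 + (1 / 20) ^ 2 / 2))).trans
        (mul_le_mul_of_nonneg_right hde h6))
    rcases le_total u (5 / 2) with hh | hh
    · exact od_three_d36_g0 u (by linarith) (by linarith)
    rcases le_total u (4) with hh | hh
    · exact od_three_d36_g1 u (by linarith) (by linarith)
    exact od_three_d36_t u (by linarith)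

theorem od_three_d37_a0 (u : ℝ) (h1 : -1 ≤ u) (h2 : u ≤ 0) :
    1 + u + u ^ 2 / 2 + u ^ 3 / 6 + u ^ 4 / 24 ≤
      (1 + 1 / 10 + (1 / 10) ^ 2 / 2) * (1 + u + 99 / 250 * u ^ 2) := by
  obtain ⟨s, hs⟩ : ∃ s, s = u - (-1) := ⟨_, rfl⟩
  obtain ⟨t, ht⟩ : ∃ t, t = 0 - u := ⟨_, rfl⟩
  have hs0 : 0 ≤ s := by linarith
  have ht0 : 0 ≤ t := by linarith
  have h : 0 ≤
      3129 / 50000 * t ^ 4 + 2753 / 18750 * s * t ^ 3 + 12629 / 50000 * s ^ 2 * t ^ 2 +
      63 / 200 * s ^ 3 * t + 21 / 200 * s ^ 4 := by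
    positivity
  have e :
      3129 / 50000 * t ^ 4 + 2753 / 18750 * s * t ^ 3 + 12629 / 50000 * s ^ 2 * t ^ 2 +
      63 / 200 * s ^ 3 * t + 21 / 200 * s ^ 4 =
      (1 + 1 / 10 + (1 / 10) ^ 2 / 2) * (1 + u + 99 / 250 * u ^ 2) -
      (1 + u + u ^ 2 / 2 + u ^ 3 / 6 + u ^ 4 / 24) := by
    rw [hs, ht]
    ring
  rw [e] at h
  linarith

theorem od_three_d37_b0 (u : ℝ) (h1 : -2 ≤ u) (h2 : u ≤ -1) :
    36788 / 100000 *
      (1 + (u + 1) + (u + 1) ^ 2 / 2 + (u + 1) ^ 3 / 6 + (u + 1) ^ 4 / 24) ≤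
      (1 + 1 / 10 + (1 / 10) ^ 2 / 2) * (1 + u + 99 / 250 * u ^ 2) := by
  obtain ⟨s, hs⟩ : ∃ s, s = u - (-2) := ⟨_, rfl⟩
  obtain ⟨t, ht⟩ : ∃ t, t = -1 - u := ⟨_, rfl⟩
  have hs0 : 0 ≤ s := by linarith
  have ht0 : 0 ≤ t := by linarith
  have h : 0 ≤
      101473 / 200000 * t ^ 4 + 189227 / 150000 * s * t ^ 3 + 27149 / 25000 * s ^ 2 * t ^ 2 +
      10421 / 25000 * s ^ 3 * t + 697 / 10000 * s ^ 4 := by
    positivity
  have e :
      101473 / 200000 * t ^ 4 + 189227 / 150000 * s * t ^ 3 + 27149 / 25000 * s ^ 2 * t ^ 2 +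
      10421 / 25000 * s ^ 3 * t + 697 / 10000 * s ^ 4 =
      (1 + 1 / 10 + (1 / 10) ^ 2 / 2) * (1 + u + 99 / 250 * u ^ 2) -
      (36788 / 100000 *
      (1 + (u + 1) + (u + 1) ^ 2 / 2 + (u + 1) ^ 3 / 6 + (u + 1) ^ 4 / 24)) := by
    rw [hs, ht]
    ring
  rw [e] at h
  linarith

theorem od_three_d37_c0 (u : ℝ) (h1 : -3 ≤ u) (h2 : u ≤ -2) :
    13534 / 100000 *
      (1 + (u + 2) + (u + 2) ^ 2 / 2 + (u + 2) ^ 3 / 6 + (u + 2) ^ 4 / 24) ≤
      (1 + 1 / 10 + (1 / 10) ^ 2 / 2) * (1 + u + 99 / 250 * u ^ 2) := by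
  obtain ⟨s, hs⟩ : ∃ s, s = u - (-3) := ⟨_, rfl⟩
  obtain ⟨t, ht⟩ : ∃ t, t = -2 - u := ⟨_, rfl⟩
  have hs0 : 0 ≤ s := by linarith
  have ht0 : 0 ≤ t := by linarith
  have h : 0 ≤
      670987 / 400000 * t ^ 4 + 1543283 / 300000 * s * t ^ 3 +
      577177 / 100000 * s ^ 2 * t ^ 2 + 141029 / 50000 * s ^ 3 * t + 25499 / 50000 * s ^ 4 := by
    positivity
  have e :
      670987 / 400000 * t ^ 4 + 1543283 / 300000 * s * t ^ 3 +
      577177 / 100000 * s ^ 2 * t ^ 2 + 141029 / 50000 * s ^ 3 * t + 25499 / 50000 * s ^ 4 =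
      (1 + 1 / 10 + (1 / 10) ^ 2 / 2) * (1 + u + 99 / 250 * u ^ 2) -
      (13534 / 100000 *
      (1 + (u + 2) + (u + 2) ^ 2 / 2 + (u + 2) ^ 3 / 6 + (u + 2) ^ 4 / 24)) := by
    rw [hs, ht]
    ring
  rw [e] at h
  linarith

theorem od_three_d37_d (u : ℝ) (h2 : u ≤ -3) :
    4979 / 100000 ≤
      (1 + 1 / 10 + (1 / 10) ^ 2 / 2) * (1 + u + 99 / 250 * u ^ 2) := by
  obtain ⟨s, hs⟩ : ∃ s, s = -3 - u := ⟨_, rfl⟩
  have hs0 : 0 ≤ s := by linarith
  have h : 0 ≤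
      167843 / 100000 + 9503 / 6250 * s + 21879 / 50000 * s ^ 2 := by
    positivity
  have e :
      167843 / 100000 + 9503 / 6250 * s + 21879 / 50000 * s ^ 2 =
      (1 + 1 / 10 + (1 / 10) ^ 2 / 2) * (1 + u + 99 / 250 * u ^ 2) -
      (4979 / 100000) := by
    rw [hs]
    ring
  rw [e] at h
  linarith

theorem od_three_d37_e0 (u : ℝ) (h1 : 0 ≤ u) (h2 : u ≤ 1 / 3) :
    1 + u + u ^ 2 / 2 + u ^ 3 / 6 + u ^ 4 / 24 + u ^ 5 / 100 ≤
      (1 + 1 / 10 + (1 / 10) ^ 2 / 2) * (1 + u + 99 / 250 * u ^ 2) := by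
  obtain ⟨s, hs⟩ : ∃ s, s = u - (0) := ⟨_, rfl⟩
  obtain ⟨t, ht⟩ : ∃ t, t = 1 / 3 - u := ⟨_, rfl⟩
  have hs0 : 0 ≤ s := by linarith
  have ht0 : 0 ≤ t := by linarith
  have h : 0 ≤
      5103 / 200 * t ^ 5 + 3402 / 25 * s * t ^ 4 + 14374233 / 50000 * s ^ 2 * t ^ 3 +
      14981199 / 50000 * s ^ 3 * t ^ 2 + 7670699 / 50000 * s ^ 4 * t + 1534983 / 50000 * s ^ 5 := by
    positivity
  have e :
      5103 / 200 * t ^ 5 + 3402 / 25 * s * t ^ 4 + 14374233 / 50000 * s ^ 2 * t ^ 3 +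
      14981199 / 50000 * s ^ 3 * t ^ 2 + 7670699 / 50000 * s ^ 4 * t + 1534983 / 50000 * s ^ 5 =
      (1 + 1 / 10 + (1 / 10) ^ 2 / 2) * (1 + u + 99 / 250 * u ^ 2) -
      (1 + u + u ^ 2 / 2 + u ^ 3 / 6 + u ^ 4 / 24 + u ^ 5 / 100) := by
    rw [hs, ht]
    ring
  rw [e] at h
  linarith

theorem od_three_d37_f0 (u : ℝ) (h1 : 1 / 3 ≤ u) (h2 : u ≤ 1) :
    69781 / 50000 * (1 + (u - 1 / 3) / 3) ^ 3 ≤
      (1 + 1 / 10 + (1 / 10) ^ 2 / 2) * (1 + u + 99 / 250 * u ^ 2) := by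
  obtain ⟨s, hs⟩ : ∃ s, s = u - (1 / 3) := ⟨_, rfl⟩
  obtain ⟨t, ht⟩ : ∃ t, t = 1 - u := ⟨_, rfl⟩
  have hs0 : 0 ≤ s := by linarith
  have ht0 : 0 ≤ t := by linarith
  have h : 0 ≤
      3411 / 8000 * t ^ 3 + 801 / 625 * s * t ^ 2 + 248527 / 200000 * s ^ 2 * t +
      181289 / 540000 * s ^ 3 := by
    positivity
  have e :
      3411 / 8000 * t ^ 3 + 801 / 625 * s * t ^ 2 + 248527 / 200000 * s ^ 2 * t +
      181289 / 540000 * s ^ 3 =
      (1 + 1 / 10 + (1 / 10) ^ 2 / 2) * (1 + u + 99 / 250 * u ^ 2) -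
      (69781 / 50000 * (1 + (u - 1 / 3) / 3) ^ 3) := by
    rw [hs, ht]
    ring
  rw [e] at h
  linarith

theorem od_three_d37_g0 (u : ℝ) (h1 : 1 ≤ u) (h2 : u ≤ 2) :
    69781 / 50000 * (1 + (u - 1 / 3) / 3) ^ 3 ≤
      (1 + 1 / 10 + (1 / 10) ^ 2 / 2) * ((1 + (3 / 200 * (u ^ 2 - 1)) +
      (3 / 200 * (u ^ 2 - 1)) ^ 2 / 2 +
      (3 / 200 * (u ^ 2 - 1)) ^ 3 / 6) *
      (1 + u + 99 / 250 * u ^ 2)) := by
  obtain ⟨s, hs⟩ : ∃ s, s = u - (1) := ⟨_, rfl⟩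
  obtain ⟨t, ht⟩ : ∃ t, t = 2 - u := ⟨_, rfl⟩
  have hs0 : 0 ≤ s := by linarith
  have ht0 : 0 ≤ t := by linarith
  have h : 0 ≤
      181289 / 1822500 * t ^ 8 + 2808669173 / 3645000000 * s * t ^ 7 +
      1879322647319 / 729000000000 * s ^ 2 * t ^ 6 +
      353546695700719 / 72900000000000 * s ^ 3 * t ^ 5 +
      815580404361373 / 145800000000000 * s ^ 4 * t ^ 4 +
      235512359353577 / 58320000000000 * s ^ 5 * t ^ 3 +
      1036119143732653 / 583200000000000 * s ^ 6 * t ^ 2 +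
      126713366431303 / 291600000000000 * s ^ 7 * t + 13199872099451 / 291600000000000 * s ^ 8 := by
    positivity
  have e :
      181289 / 1822500 * t ^ 8 + 2808669173 / 3645000000 * s * t ^ 7 +
      1879322647319 / 729000000000 * s ^ 2 * t ^ 6 +
      353546695700719 / 72900000000000 * s ^ 3 * t ^ 5 +
      815580404361373 / 145800000000000 * s ^ 4 * t ^ 4 +
      235512359353577 / 58320000000000 * s ^ 5 * t ^ 3 +
      1036119143732653 / 583200000000000 * s ^ 6 * t ^ 2 +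
      126713366431303 / 291600000000000 * s ^ 7 * t + 13199872099451 / 291600000000000 * s ^ 8 =
      (1 + 1 / 10 + (1 / 10) ^ 2 / 2) * ((1 + (3 / 200 * (u ^ 2 - 1)) +
      (3 / 200 * (u ^ 2 - 1)) ^ 2 / 2 +
      (3 / 200 * (u ^ 2 - 1)) ^ 3 / 6) *
      (1 + u + 99 / 250 * u ^ 2)) -
      (69781 / 50000 * (1 + (u - 1 / 3) / 3) ^ 3) := by
    rw [hs, ht]
    ring
  rw [e] at h
  linarith

theorem od_three_d37_g1 (u : ℝ) (h1 : 2 ≤ u) (h2 : u ≤ 3) :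
    69781 / 50000 * (1 + (u - 1 / 3) / 3) ^ 3 ≤
      (1 + 1 / 10 + (1 / 10) ^ 2 / 2) * ((1 + (3 / 200 * (u ^ 2 - 1)) +
      (3 / 200 * (u ^ 2 - 1)) ^ 2 / 2 +
      (3 / 200 * (u ^ 2 - 1)) ^ 3 / 6) *
      (1 + u + 99 / 250 * u ^ 2)) := by
  obtain ⟨s, hs⟩ : ∃ s, s = u - (2) := ⟨_, rfl⟩
  obtain ⟨t, ht⟩ : ∃ t, t = 3 - u := ⟨_, rfl⟩
  have hs0 : 0 ≤ s := by linarith
  have ht0 : 0 ≤ t := by linarith
  have h : 0 ≤
      13199872099451 / 291600000000000 * t ^ 8 +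
      84484587159913 / 291600000000000 * s * t ^ 7 +
      444916233933193 / 583200000000000 * s ^ 2 * t ^ 6 +
      308772985952629 / 291600000000000 * s ^ 3 * t ^ 5 +
      121615651821883 / 145800000000000 * s ^ 4 * t ^ 4 +
      29211228890611 / 72900000000000 * s ^ 5 * t ^ 3 +
      1456557447637 / 9112500000000 * s ^ 6 * t ^ 2 +
      323470513777 / 4556250000000 * s ^ 7 * t + 5181193649 / 284765625000 * s ^ 8 := by
    positivity
  have e :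
      13199872099451 / 291600000000000 * t ^ 8 +
      84484587159913 / 291600000000000 * s * t ^ 7 +
      444916233933193 / 583200000000000 * s ^ 2 * t ^ 6 +
      308772985952629 / 291600000000000 * s ^ 3 * t ^ 5 +
      121615651821883 / 145800000000000 * s ^ 4 * t ^ 4 +
      29211228890611 / 72900000000000 * s ^ 5 * t ^ 3 +
      1456557447637 / 9112500000000 * s ^ 6 * t ^ 2 +
      323470513777 / 4556250000000 * s ^ 7 * t + 5181193649 / 284765625000 * s ^ 8 =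
      (1 + 1 / 10 + (1 / 10) ^ 2 / 2) * ((1 + (3 / 200 * (u ^ 2 - 1)) +
      (3 / 200 * (u ^ 2 - 1)) ^ 2 / 2 +
      (3 / 200 * (u ^ 2 - 1)) ^ 3 / 6) *
      (1 + u + 99 / 250 * u ^ 2)) -
      (69781 / 50000 * (1 + (u - 1 / 3) / 3) ^ 3) := by
    rw [hs, ht]
    ring
  rw [e] at h
  linarith

theorem od_three_d37_t (u : ℝ) (h1 : 3 ≤ u) :
    69781 / 50000 * (1 + (u - 1 / 3) / 3) ^ 3 ≤
      (1 + 1 / 10 + (1 / 10) ^ 2 / 2) * ((1 + (3 / 200 * (u ^ 2 - 1)) +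
      (3 / 200 * (u ^ 2 - 1)) ^ 2 / 2 +
      (3 / 200 * (u ^ 2 - 1)) ^ 3 / 6) *
      (1 + u + 99 / 250 * u ^ 2)) := by
  obtain ⟨s, hs⟩ : ∃ s, s = u - (3) := ⟨_, rfl⟩
  have hs0 : 0 ≤ s := by linarith
  have h : 0 ≤
      5181193649 / 284765625000 + 7549383851 / 101250000000 * s +
      58159991269 / 337500000000 * s ^ 2 + 233149189591 / 2700000000000 * s ^ 3 +
      3407620437 / 200000000000 * s ^ 4 + 598432419 / 400000000000 * s ^ 5 +
      99352539 / 800000000000 * s ^ 6 + 2611557 / 400000000000 * s ^ 7 +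
      196911 / 800000000000 * s ^ 8 := by
    positivity
  have e :
      5181193649 / 284765625000 + 7549383851 / 101250000000 * s +
      58159991269 / 337500000000 * s ^ 2 + 233149189591 / 2700000000000 * s ^ 3 +
      3407620437 / 200000000000 * s ^ 4 + 598432419 / 400000000000 * s ^ 5 +
      99352539 / 800000000000 * s ^ 6 + 2611557 / 400000000000 * s ^ 7 +
      196911 / 800000000000 * s ^ 8 =
      (1 + 1 / 10 + (1 / 10) ^ 2 / 2) * ((1 + (3 / 200 * (u ^ 2 - 1)) +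
      (3 / 200 * (u ^ 2 - 1)) ^ 2 / 2 +
      (3 / 200 * (u ^ 2 - 1)) ^ 3 / 6) *
      (1 + u + 99 / 250 * u ^ 2)) -
      (69781 / 50000 * (1 + (u - 1 / 3) / 3) ^ 3) := by
    rw [hs]
    ring
  rw [e] at h
  linarith

/-- `K = 3`: `(c, μ, P, δ) = (99 / 250, 3 / 200, 1 / 3, 1 / 10)` -/
theorem expOd_three_d37 : ExpOd 3 (99 / 250) (3 / 200) (1 / 3) (1 / 10) := by
  have hde : (1 + 1 / 10 + (1 / 10) ^ 2 / 2) ≤ Real.exp (1 / 10) := Real.quadratic_le_exp_of_nonneg (by norm_num)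
  have hq : ∀ u : ℝ, 0 ≤ 1 + u + 99 / 250 * u ^ 2 := fun u => by
    nlinarith [sq_nonneg (u + 2), sq_nonneg u]
  have hR : ∀ (u x y : ℝ), x ≤ y → y ≤ (1 + 1 / 10 + (1 / 10) ^ 2 / 2) * (1 + u + 99 / 250 * u ^ 2) →
      x ≤ Real.exp (1 / 10) * (1 + u + 99 / 250 * u ^ 2) := fun u x y h1 h2 =>
    (h1.trans h2).trans (mul_le_mul_of_nonneg_right hde (hq u))
  refine ExpOd.of (by norm_num) (by norm_num) (by norm_num) (by norm_num) (by norm_num) ?_ ?_ ?_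
  · intro u h1
    rcases le_total u (-3) with h3 | h3
    · exact hR u _ _ (exp_le_n3 h3) (od_three_d37_d u h3)
    rcases le_total u (-2) with h4 | h4
    · refine hR u _ _ (exp_le_n2 h4) ?_
      exact od_three_d37_c0 u (by linarith) (by linarith)
    rcases le_total u (-1) with h5 | h5
    · refine hR u _ _ (exp_le_n1 h5) ?_
      exact od_three_d37_b0 u (by linarith) (by linarith)
    rcases le_total u 0 with h6 | h6
    · refine hR u _ _ (exp_le_n0 h6) ?_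
      exact od_three_d37_a0 u (by linarith) (by linarith)
    refine hR u _ _ (exp_le_p h6 (by linarith)) ?_
    exact od_three_d37_e0 u (by linarith) (by linarith)
  · intro u h1 h2
    have h4 : 0 ≤ (1 + (u - 1 / 3) / 3) ^ 3 := by
      have : 0 ≤ (u - 1 / 3) / 3 := div_nonneg (by linarith) (by norm_num)
      positivity
    have hE : Real.exp (1 / 3) ≤ 69781 / 50000 := exp_up_1_3
    push_cast
    refine hR u _ _ (mul_le_mul_of_nonneg_right hE h4) ?_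
    exact od_three_d37_f0 u (by linarith) (by linarith)
  · intro u h1
    have h4 : 0 ≤ (1 + (u - 1 / 3) / 3) ^ 3 := by
      have : 0 ≤ (u - 1 / 3) / 3 := div_nonneg (by linarith) (by norm_num)
      positivity
    have hE : Real.exp (1 / 3) ≤ 69781 / 50000 := exp_up_1_3
    have hx : 0 ≤ 3 / 200 * (u ^ 2 - 1) := mul_nonneg (by norm_num) (by nlinarith)
    have h5 := mul_le_mul_of_nonneg_right (taylor3_le_exp _ hx) (hq u)
    have h6 : 0 ≤ Real.exp (3 / 200 * (u ^ 2 - 1)) * (1 + u + 99 / 250 * u ^ 2) :=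
      mul_nonneg (Real.exp_nonneg _) (hq u)
    rw [Real.exp_add, mul_assoc]
    push_cast
    refine ((mul_le_mul_of_nonneg_right hE h4).trans ?_).trans
      ((mul_le_mul_of_nonneg_left h5 (by norm_num : (0 : ℝ) ≤ (1 + 1 / 10 + (1 / 10) ^ 2 / 2))).trans
        (mul_le_mul_of_nonneg_right hde h6))
    rcases le_total u (2) with hh | hh
    · exact od_three_d37_g0 u (by linarith) (by linarith)
    rcases le_total u (3) with hh | hh
    · exact od_three_d37_g1 u (by linarith) (by linarith)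
    exact od_three_d37_t u (by linarith)

theorem od_three_d40_a0 (u : ℝ) (h1 : -1 ≤ u) (h2 : u ≤ 0) :
    1 + u + u ^ 2 / 2 + u ^ 3 / 6 + u ^ 4 / 24 ≤
      1 * (1 + u + 207 / 250 * u ^ 2) := by
  obtain ⟨s, hs⟩ : ∃ s, s = u - (-1) := ⟨_, rfl⟩
  obtain ⟨t, ht⟩ : ∃ t, t = 0 - u := ⟨_, rfl⟩
  have hs0 : 0 ≤ s := by linarith
  have ht0 : 0 ≤ t := by linarith
  have h : 0 ≤
      453 / 1000 * t ^ 4 + 617 / 750 * s * t ^ 3 + 41 / 125 * s ^ 2 * t ^ 2 := by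
    positivity
  have e :
      453 / 1000 * t ^ 4 + 617 / 750 * s * t ^ 3 + 41 / 125 * s ^ 2 * t ^ 2 =
      1 * (1 + u + 207 / 250 * u ^ 2) -
      (1 + u + u ^ 2 / 2 + u ^ 3 / 6 + u ^ 4 / 24) := by
    rw [hs, ht]
    ring
  rw [e] at h
  linarith

theorem od_three_d40_b0 (u : ℝ) (h1 : -2 ≤ u) (h2 : u ≤ -1) :
    36788 / 100000 *
      (1 + (u + 1) + (u + 1) ^ 2 / 2 + (u + 1) ^ 3 / 6 + (u + 1) ^ 4 / 24) ≤
      1 * (1 + u + 207 / 250 * u ^ 2) := by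
  obtain ⟨s, hs⟩ : ∃ s, s = u - (-2) := ⟨_, rfl⟩
  obtain ⟨t, ht⟩ : ∃ t, t = -1 - u := ⟨_, rfl⟩
  have hs0 : 0 ≤ s := by linarith
  have ht0 : 0 ≤ t := by linarith
  have h : 0 ≤
      434809 / 200000 * t ^ 4 + 939233 / 150000 * s * t ^ 3 +
      323821 / 50000 * s ^ 2 * t ^ 2 + 71609 / 25000 * s ^ 3 * t + 11503 / 25000 * s ^ 4 := by
    positivity
  have e :
      434809 / 200000 * t ^ 4 + 939233 / 150000 * s * t ^ 3 +
      323821 / 50000 * s ^ 2 * t ^ 2 + 71609 / 25000 * s ^ 3 * t + 11503 / 25000 * s ^ 4 =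
      1 * (1 + u + 207 / 250 * u ^ 2) -
      (36788 / 100000 *
      (1 + (u + 1) + (u + 1) ^ 2 / 2 + (u + 1) ^ 3 / 6 + (u + 1) ^ 4 / 24)) := by
    rw [hs, ht]
    ring
  rw [e] at h
  linarith

theorem od_three_d40_c0 (u : ℝ) (h1 : -3 ≤ u) (h2 : u ≤ -2) :
    13534 / 100000 *
      (1 + (u + 2) + (u + 2) ^ 2 / 2 + (u + 2) ^ 3 / 6 + (u + 2) ^ 4 / 24) ≤
      1 * (1 + u + 207 / 250 * u ^ 2) := by
  obtain ⟨s, hs⟩ : ∃ s, s = u - (-3) := ⟨_, rfl⟩
  obtain ⟨t, ht⟩ : ∃ t, t = -2 - u := ⟨_, rfl⟩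
  have hs0 : 0 ≤ s := by linarith
  have ht0 : 0 ≤ t := by linarith
  have h : 0 ≤
      2160499 / 400000 * t ^ 4 + 5277563 / 300000 * s * t ^ 3 +
      2116231 / 100000 * s ^ 2 * t ^ 2 + 557699 / 50000 * s ^ 3 * t + 108833 / 50000 * s ^ 4 := by
    positivity
  have e :
      2160499 / 400000 * t ^ 4 + 5277563 / 300000 * s * t ^ 3 +
      2116231 / 100000 * s ^ 2 * t ^ 2 + 557699 / 50000 * s ^ 3 * t + 108833 / 50000 * s ^ 4 =
      1 * (1 + u + 207 / 250 * u ^ 2) -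
      (13534 / 100000 *
      (1 + (u + 2) + (u + 2) ^ 2 / 2 + (u + 2) ^ 3 / 6 + (u + 2) ^ 4 / 24)) := by
    rw [hs, ht]
    ring
  rw [e] at h
  linarith

theorem od_three_d40_d (u : ℝ) (h2 : u ≤ -3) :
    4979 / 100000 ≤
      1 * (1 + u + 207 / 250 * u ^ 2) := by
  obtain ⟨s, hs⟩ : ∃ s, s = -3 - u := ⟨_, rfl⟩
  have hs0 : 0 ≤ s := by linarith
  have h : 0 ≤
      540221 / 100000 + 496 / 125 * s + 207 / 250 * s ^ 2 := by
    positivity
  have e :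
      540221 / 100000 + 496 / 125 * s + 207 / 250 * s ^ 2 =
      1 * (1 + u + 207 / 250 * u ^ 2) -
      (4979 / 100000) := by
    rw [hs]
    ring
  rw [e] at h
  linarith

theorem od_three_d40_e0 (u : ℝ) (h1 : 0 ≤ u) (h2 : u ≤ 2 / 3) :
    1 + u + u ^ 2 / 2 + u ^ 3 / 6 + u ^ 4 / 24 + u ^ 5 / 100 ≤
      1 * (1 + u + 207 / 250 * u ^ 2) := by
  obtain ⟨s, hs⟩ : ∃ s, s = u - (0) := ⟨_, rfl⟩
  obtain ⟨t, ht⟩ : ∃ t, t = 2 / 3 - u := ⟨_, rfl⟩
  have hs0 : 0 ≤ s := by linarith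
  have ht0 : 0 ≤ t := by linarith
  have h : 0 ≤
      1107 / 1000 * s ^ 2 * t ^ 3 + 1473 / 500 * s ^ 3 * t ^ 2 + 5017 / 2000 * s ^ 4 * t +
      1319 / 2000 * s ^ 5 := by
    positivity
  have e :
      1107 / 1000 * s ^ 2 * t ^ 3 + 1473 / 500 * s ^ 3 * t ^ 2 + 5017 / 2000 * s ^ 4 * t +
      1319 / 2000 * s ^ 5 =
      1 * (1 + u + 207 / 250 * u ^ 2) -
      (1 + u + u ^ 2 / 2 + u ^ 3 / 6 + u ^ 4 / 24 + u ^ 5 / 100) := by
    rw [hs, ht]
    ring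
  rw [e] at h
  linarith

theorem od_three_d40_f0 (u : ℝ) (h1 : 2 / 3 ≤ u) (h2 : u ≤ 1) :
    97387 / 50000 * (1 + (u - 2 / 3) / 3) ^ 3 ≤
      1 * (1 + u + 207 / 250 * u ^ 2) := by
  obtain ⟨s, hs⟩ : ∃ s, s = u - (2 / 3) := ⟨_, rfl⟩
  obtain ⟨t, ht⟩ : ∃ t, t = 1 - u := ⟨_, rfl⟩
  have hs0 : 0 ≤ s := by linarith
  have ht0 : 0 ≤ t := by linarith
  have h : 0 ≤
      117351 / 50000 * t ^ 3 + 42237 / 5000 * s * t ^ 2 + 1039 / 100 * s ^ 2 * t +
      14234 / 3375 * s ^ 3 := by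
    positivity
  have e :
      117351 / 50000 * t ^ 3 + 42237 / 5000 * s * t ^ 2 + 1039 / 100 * s ^ 2 * t +
      14234 / 3375 * s ^ 3 =
      1 * (1 + u + 207 / 250 * u ^ 2) -
      (97387 / 50000 * (1 + (u - 2 / 3) / 3) ^ 3) := by
    rw [hs, ht]
    ring
  rw [e] at h
  linarith

theorem od_three_d40_g0 (u : ℝ) (h1 : 1 ≤ u) (h2 : u ≤ 9 / 2) :
    97387 / 50000 * (1 + (u - 2 / 3) / 3) ^ 3 ≤
      1 * ((1 + (1 / 250 * (u ^ 2 - 1)) +
      (1 / 250 * (u ^ 2 - 1)) ^ 2 / 2 +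
      (1 / 250 * (u ^ 2 - 1)) ^ 3 / 6) *
      (1 + u + 207 / 250 * u ^ 2)) := by
  obtain ⟨s, hs⟩ : ∃ s, s = u - (1) := ⟨_, rfl⟩
  obtain ⟨t, ht⟩ : ∃ t, t = 9 / 2 - u := ⟨_, rfl⟩
  have hs0 : 0 ≤ s := by linarith
  have ht0 : 0 ≤ t := by linarith
  have h : 0 ≤
      3643904 / 525317491125 * t ^ 8 + 6440416544 / 65664686390625 * s * t ^ 7 +
      666141928136 / 1172583685546875 * s ^ 2 * t ^ 6 +
      239378647282742 / 146572960693359375 * s ^ 3 * t ^ 5 +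
      383231215034737 / 146572960693359375 * s ^ 4 * t ^ 4 +
      45879923947 / 18761338968750 * s ^ 5 * t ^ 3 +
      1553625843079409 / 1172583685546875000 * s ^ 6 * t ^ 2 +
      3149407772263951 / 8208085798828125000 * s ^ 7 * t +
      1503779473082573 / 32832343195312500000 * s ^ 8 := by
    positivity
  have e :
      3643904 / 525317491125 * t ^ 8 + 6440416544 / 65664686390625 * s * t ^ 7 +
      666141928136 / 1172583685546875 * s ^ 2 * t ^ 6 +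
      239378647282742 / 146572960693359375 * s ^ 3 * t ^ 5 +
      383231215034737 / 146572960693359375 * s ^ 4 * t ^ 4 +
      45879923947 / 18761338968750 * s ^ 5 * t ^ 3 +
      1553625843079409 / 1172583685546875000 * s ^ 6 * t ^ 2 +
      3149407772263951 / 8208085798828125000 * s ^ 7 * t +
      1503779473082573 / 32832343195312500000 * s ^ 8 =
      1 * ((1 + (1 / 250 * (u ^ 2 - 1)) +
      (1 / 250 * (u ^ 2 - 1)) ^ 2 / 2 +
      (1 / 250 * (u ^ 2 - 1)) ^ 3 / 6) *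
      (1 + u + 207 / 250 * u ^ 2)) -
      (97387 / 50000 * (1 + (u - 2 / 3) / 3) ^ 3) := by
    rw [hs, ht]
    ring
  rw [e] at h
  linarith

theorem od_three_d40_g1 (u : ℝ) (h1 : 9 / 2 ≤ u) (h2 : u ≤ 8) :
    97387 / 50000 * (1 + (u - 2 / 3) / 3) ^ 3 ≤
      1 * ((1 + (1 / 250 * (u ^ 2 - 1)) +
      (1 / 250 * (u ^ 2 - 1)) ^ 2 / 2 +
      (1 / 250 * (u ^ 2 - 1)) ^ 3 / 6) *
      (1 + u + 207 / 250 * u ^ 2)) := by
  obtain ⟨s, hs⟩ : ∃ s, s = u - (9 / 2) := ⟨_, rfl⟩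
  obtain ⟨t, ht⟩ : ∃ t, t = 8 - u := ⟨_, rfl⟩
  have hs0 : 0 ≤ s := by linarith
  have ht0 : 0 ≤ t := by linarith
  have h : 0 ≤
      1503779473082573 / 32832343195312500000 * t ^ 8 +
      2865710120066341 / 8208085798828125000 * s * t ^ 7 +
      1269928190881799 / 1172583685546875000 * s ^ 2 * t ^ 6 +
      510898293104791 / 293145921386718750 * s ^ 3 * t ^ 5 +
      445828967728079 / 293145921386718750 * s ^ 4 * t ^ 4 +
      97669763166908 / 146572960693359375 * s ^ 5 * t ^ 3 +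
      15710361154678 / 146572960693359375 * s ^ 6 * t ^ 2 +
      5433297083552 / 1026010724853515625 * s ^ 7 * t +
      6934301167264 / 1026010724853515625 * s ^ 8 := by
    positivity
  have e :
      1503779473082573 / 32832343195312500000 * t ^ 8 +
      2865710120066341 / 8208085798828125000 * s * t ^ 7 +
      1269928190881799 / 1172583685546875000 * s ^ 2 * t ^ 6 +
      510898293104791 / 293145921386718750 * s ^ 3 * t ^ 5 +
      445828967728079 / 293145921386718750 * s ^ 4 * t ^ 4 +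
      97669763166908 / 146572960693359375 * s ^ 5 * t ^ 3 +
      15710361154678 / 146572960693359375 * s ^ 6 * t ^ 2 +
      5433297083552 / 1026010724853515625 * s ^ 7 * t +
      6934301167264 / 1026010724853515625 * s ^ 8 =
      1 * ((1 + (1 / 250 * (u ^ 2 - 1)) +
      (1 / 250 * (u ^ 2 - 1)) ^ 2 / 2 +
      (1 / 250 * (u ^ 2 - 1)) ^ 3 / 6) *
      (1 + u + 207 / 250 * u ^ 2)) -
      (97387 / 50000 * (1 + (u - 2 / 3) / 3) ^ 3) := by
    rw [hs, ht]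
    ring
  rw [e] at h
  linarith

theorem od_three_d40_t (u : ℝ) (h1 : 8 ≤ u) :
    97387 / 50000 * (1 + (u - 2 / 3) / 3) ^ 3 ≤
      1 * ((1 + (1 / 250 * (u ^ 2 - 1)) +
      (1 / 250 * (u ^ 2 - 1)) ^ 2 / 2 +
      (1 / 250 * (u ^ 2 - 1)) ^ 3 / 6) *
      (1 + u + 207 / 250 * u ^ 2)) := by
  obtain ⟨s, hs⟩ : ∃ s, s = u - (8) := ⟨_, rfl⟩
  have hs0 : 0 ≤ s := by linarith
  have h : 0 ≤
      216696911477 / 1423828125000 + 4964396057 / 15820312500 * s +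
      100566848519 / 210937500000 * s ^ 2 + 3379338799 / 26367187500 * s ^ 3 +
      297486751 / 23437500000 * s ^ 4 + 2315341 / 3906250000 * s ^ 5 +
      179941 / 7812500000 * s ^ 6 + 6749 / 11718750000 * s ^ 7 + 69 / 7812500000 * s ^ 8 := by
    positivity
  have e :
      216696911477 / 1423828125000 + 4964396057 / 15820312500 * s +
      100566848519 / 210937500000 * s ^ 2 + 3379338799 / 26367187500 * s ^ 3 +
      297486751 / 23437500000 * s ^ 4 + 2315341 / 3906250000 * s ^ 5 +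
      179941 / 7812500000 * s ^ 6 + 6749 / 11718750000 * s ^ 7 + 69 / 7812500000 * s ^ 8 =
      1 * ((1 + (1 / 250 * (u ^ 2 - 1)) +
      (1 / 250 * (u ^ 2 - 1)) ^ 2 / 2 +
      (1 / 250 * (u ^ 2 - 1)) ^ 3 / 6) *
      (1 + u + 207 / 250 * u ^ 2)) -
      (97387 / 50000 * (1 + (u - 2 / 3) / 3) ^ 3) := by
    rw [hs]
    ring
  rw [e] at h
  linarith

/-- `K = 3`: `(c, μ, P, δ) = (207 / 250, 1 / 250, 2 / 3, 0)` -/
theorem expOd_three_d40 : ExpOd 3 (207 / 250) (1 / 250) (2 / 3) (0) := by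
  have hde : 1 ≤ Real.exp (0) := Real.exp_zero.ge
  have hq : ∀ u : ℝ, 0 ≤ 1 + u + 207 / 250 * u ^ 2 := fun u => by
    nlinarith [sq_nonneg (u + 2), sq_nonneg u]
  have hR : ∀ (u x y : ℝ), x ≤ y → y ≤ 1 * (1 + u + 207 / 250 * u ^ 2) →
      x ≤ Real.exp (0) * (1 + u + 207 / 250 * u ^ 2) := fun u x y h1 h2 =>
    (h1.trans h2).trans (mul_le_mul_of_nonneg_right hde (hq u))
  refine ExpOd.of (by norm_num) (by norm_num) (by norm_num) (by norm_num) (by norm_num) ?_ ?_ ?_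
  · intro u h1
    rcases le_total u (-3) with h3 | h3
    · exact hR u _ _ (exp_le_n3 h3) (od_three_d40_d u h3)
    rcases le_total u (-2) with h4 | h4
    · refine hR u _ _ (exp_le_n2 h4) ?_
      exact od_three_d40_c0 u (by linarith) (by linarith)
    rcases le_total u (-1) with h5 | h5
    · refine hR u _ _ (exp_le_n1 h5) ?_
      exact od_three_d40_b0 u (by linarith) (by linarith)
    rcases le_total u 0 with h6 | h6
    · refine hR u _ _ (exp_le_n0 h6) ?_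
      exact od_three_d40_a0 u (by linarith) (by linarith)
    refine hR u _ _ (exp_le_p h6 (by linarith)) ?_
    exact od_three_d40_e0 u (by linarith) (by linarith)
  · intro u h1 h2
    have h4 : 0 ≤ (1 + (u - 2 / 3) / 3) ^ 3 := by
      have : 0 ≤ (u - 2 / 3) / 3 := div_nonneg (by linarith) (by norm_num)
      positivity
    have hE : Real.exp (2 / 3) ≤ 97387 / 50000 := exp_up_2_3
    push_cast
    refine hR u _ _ (mul_le_mul_of_nonneg_right hE h4) ?_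
    exact od_three_d40_f0 u (by linarith) (by linarith)
  · intro u h1
    have h4 : 0 ≤ (1 + (u - 2 / 3) / 3) ^ 3 := by
      have : 0 ≤ (u - 2 / 3) / 3 := div_nonneg (by linarith) (by norm_num)
      positivity
    have hE : Real.exp (2 / 3) ≤ 97387 / 50000 := exp_up_2_3
    have hx : 0 ≤ 1 / 250 * (u ^ 2 - 1) := mul_nonneg (by norm_num) (by nlinarith)
    have h5 := mul_le_mul_of_nonneg_right (taylor3_le_exp _ hx) (hq u)
    have h6 : 0 ≤ Real.exp (1 / 250 * (u ^ 2 - 1)) * (1 + u + 207 / 250 * u ^ 2) :=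
      mul_nonneg (Real.exp_nonneg _) (hq u)
    rw [Real.exp_add, mul_assoc]
    push_cast
    refine ((mul_le_mul_of_nonneg_right hE h4).trans ?_).trans
      ((mul_le_mul_of_nonneg_left h5 (by norm_num : (0 : ℝ) ≤ 1)).trans
        (mul_le_mul_of_nonneg_right hde h6))
    rcases le_total u (9 / 2) with hh | hh
    · exact od_three_d40_g0 u (by linarith) (by linarith)
    rcases le_total u (8) with hh | hh
    · exact od_three_d40_g1 u (by linarith) (by linarith)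
    exact od_three_d40_t u (by linarith)

theorem od_three_d41_a0 (u : ℝ) (h1 : -1 ≤ u) (h2 : u ≤ 0) :
    1 + u + u ^ 2 / 2 + u ^ 3 / 6 + u ^ 4 / 24 ≤
      (1 + 1 / 100 + (1 / 100) ^ 2 / 2) * (1 + u + 409 / 500 * u ^ 2) := by
  obtain ⟨s, hs⟩ : ∃ s, s = u - (-1) := ⟨_, rfl⟩
  obtain ⟨t, ht⟩ : ∃ t, t = 0 - u := ⟨_, rfl⟩
  have hs0 : 0 ≤ s := by linarith
  have ht0 : 0 ≤ t := by linarith
  have h : 0 ≤
      4512209 / 10000000 * t ^ 4 + 12437377 / 15000000 * s * t ^ 3 +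
      3563709 / 10000000 * s ^ 2 * t ^ 2 + 603 / 20000 * s ^ 3 * t + 201 / 20000 * s ^ 4 := by
    positivity
  have e :
      4512209 / 10000000 * t ^ 4 + 12437377 / 15000000 * s * t ^ 3 +
      3563709 / 10000000 * s ^ 2 * t ^ 2 + 603 / 20000 * s ^ 3 * t + 201 / 20000 * s ^ 4 =
      (1 + 1 / 100 + (1 / 100) ^ 2 / 2) * (1 + u + 409 / 500 * u ^ 2) -
      (1 + u + u ^ 2 / 2 + u ^ 3 / 6 + u ^ 4 / 24) := by
    rw [hs, ht]
    ring
  rw [e] at h
  linarith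

theorem od_three_d41_b0 (u : ℝ) (h1 : -2 ≤ u) (h2 : u ≤ -1) :
    36788 / 100000 *
      (1 + (u + 1) + (u + 1) ^ 2 / 2 + (u + 1) ^ 3 / 6 + (u + 1) ^ 4 / 24) ≤
      (1 + 1 / 100 + (1 / 100) ^ 2 / 2) * (1 + u + 409 / 500 * u ^ 2) := by
  obtain ⟨s, hs⟩ : ∃ s, s = u - (-2) := ⟨_, rfl⟩
  obtain ⟨t, ht⟩ : ∃ t, t = -1 - u := ⟨_, rfl⟩
  have hs0 : 0 ≤ s := by linarith
  have ht0 : 0 ≤ t := by linarith
  have h : 0 ≤
      10784393 / 5000000 * t ^ 4 + 23287703 / 3750000 * s * t ^ 3 +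
      64231417 / 10000000 * s ^ 2 * t ^ 2 + 14218177 / 5000000 * s ^ 3 * t +
      4583409 / 10000000 * s ^ 4 := by
    positivity
  have e :
      10784393 / 5000000 * t ^ 4 + 23287703 / 3750000 * s * t ^ 3 +
      64231417 / 10000000 * s ^ 2 * t ^ 2 + 14218177 / 5000000 * s ^ 3 * t +
      4583409 / 10000000 * s ^ 4 =
      (1 + 1 / 100 + (1 / 100) ^ 2 / 2) * (1 + u + 409 / 500 * u ^ 2) -
      (36788 / 100000 *
      (1 + (u + 1) + (u + 1) ^ 2 / 2 + (u + 1) ^ 3 / 6 + (u + 1) ^ 4 / 24)) := by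
    rw [hs, ht]
    ring
  rw [e] at h
  linarith

theorem od_three_d41_c0 (u : ℝ) (h1 : -3 ≤ u) (h2 : u ≤ -2) :
    13534 / 100000 *
      (1 + (u + 2) + (u + 2) ^ 2 / 2 + (u + 2) ^ 3 / 6 + (u + 2) ^ 4 / 24) ≤
      (1 + 1 / 100 + (1 / 100) ^ 2 / 2) * (1 + u + 409 / 500 * u ^ 2) := by
  obtain ⟨s, hs⟩ : ∃ s, s = u - (-3) := ⟨_, rfl⟩
  obtain ⟨t, ht⟩ : ∃ t, t = -2 - u := ⟨_, rfl⟩
  have hs0 : 0 ≤ s := by linarith
  have ht0 : 0 ≤ t := by linarith
  have h : 0 ≤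
      13412839 / 2500000 * t ^ 4 + 52404461 / 3000000 * s * t ^ 3 +
      210060333 / 10000000 * s ^ 2 * t ^ 2 + 2767037 / 250000 * s ^ 3 * t +
      2699367 / 1250000 * s ^ 4 := by
    positivity
  have e :
      13412839 / 2500000 * t ^ 4 + 52404461 / 3000000 * s * t ^ 3 +
      210060333 / 10000000 * s ^ 2 * t ^ 2 + 2767037 / 250000 * s ^ 3 * t +
      2699367 / 1250000 * s ^ 4 =
      (1 + 1 / 100 + (1 / 100) ^ 2 / 2) * (1 + u + 409 / 500 * u ^ 2) -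
      (13534 / 100000 *
      (1 + (u + 2) + (u + 2) ^ 2 / 2 + (u + 2) ^ 3 / 6 + (u + 2) ^ 4 / 24)) := by
    rw [hs, ht]
    ring
  rw [e] at h
  linarith

theorem od_three_d41_d (u : ℝ) (h2 : u ≤ -3) :
    4979 / 100000 ≤
      (1 + 1 / 100 + (1 / 100) ^ 2 / 2) * (1 + u + 409 / 500 * u ^ 2) := by
  obtain ⟨s, hs⟩ : ∃ s, s = -3 - u := ⟨_, rfl⟩
  have hs0 : 0 ≤ s := by linarith
  have h : 0 ≤
      53660981 / 10000000 + 19736377 / 5000000 * s + 8262209 / 10000000 * s ^ 2 := by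
    positivity
  have e :
      53660981 / 10000000 + 19736377 / 5000000 * s + 8262209 / 10000000 * s ^ 2 =
      (1 + 1 / 100 + (1 / 100) ^ 2 / 2) * (1 + u + 409 / 500 * u ^ 2) -
      (4979 / 100000) := by
    rw [hs]
    ring
  rw [e] at h
  linarith

theorem od_three_d41_e0 (u : ℝ) (h1 : 0 ≤ u) (h2 : u ≤ 2 / 3) :
    1 + u + u ^ 2 / 2 + u ^ 3 / 6 + u ^ 4 / 24 + u ^ 5 / 100 ≤
      (1 + 1 / 100 + (1 / 100) ^ 2 / 2) * (1 + u + 409 / 500 * u ^ 2) := by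
  obtain ⟨s, hs⟩ : ∃ s, s = u - (0) := ⟨_, rfl⟩
  obtain ⟨t, ht⟩ : ∃ t, t = 2 / 3 - u := ⟨_, rfl⟩
  have hs0 : 0 ≤ s := by linarith
  have ht0 : 0 ≤ t := by linarith
  have h : 0 ≤
      48843 / 640000 * t ^ 5 + 276777 / 640000 * s * t ^ 4 +
      165414393 / 80000000 * s ^ 2 * t ^ 3 + 319714179 / 80000000 * s ^ 3 * t ^ 2 +
      61511701 / 20000000 * s ^ 4 * t + 15613817 / 20000000 * s ^ 5 := by
    positivity
  have e :
      48843 / 640000 * t ^ 5 + 276777 / 640000 * s * t ^ 4 +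
      165414393 / 80000000 * s ^ 2 * t ^ 3 + 319714179 / 80000000 * s ^ 3 * t ^ 2 +
      61511701 / 20000000 * s ^ 4 * t + 15613817 / 20000000 * s ^ 5 =
      (1 + 1 / 100 + (1 / 100) ^ 2 / 2) * (1 + u + 409 / 500 * u ^ 2) -
      (1 + u + u ^ 2 / 2 + u ^ 3 / 6 + u ^ 4 / 24 + u ^ 5 / 100) := by
    rw [hs, ht]
    ring
  rw [e] at h
  linarith

theorem od_three_d41_f0 (u : ℝ) (h1 : 2 / 3 ≤ u) (h2 : u ≤ 1) :
    97387 / 50000 * (1 + (u - 2 / 3) / 3) ^ 3 ≤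
      (1 + 1 / 100 + (1 / 100) ^ 2 / 2) * (1 + u + 409 / 500 * u ^ 2) := by
  obtain ⟨s, hs⟩ : ∃ s, s = u - (2 / 3) := ⟨_, rfl⟩
  obtain ⟨t, ht⟩ : ∃ t, t = 1 - u := ⟨_, rfl⟩
  have hs0 : 0 ≤ s := by linarith
  have ht0 : 0 ≤ t := by linarith
  have h : 0 ≤
      3472401 / 1250000 * t ^ 3 + 766344 / 78125 * s * t ^ 2 +
      118155667 / 10000000 * s ^ 2 * t + 1272279361 / 270000000 * s ^ 3 := by
    positivity
  have e :
      3472401 / 1250000 * t ^ 3 + 766344 / 78125 * s * t ^ 2 +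
      118155667 / 10000000 * s ^ 2 * t + 1272279361 / 270000000 * s ^ 3 =
      (1 + 1 / 100 + (1 / 100) ^ 2 / 2) * (1 + u + 409 / 500 * u ^ 2) -
      (97387 / 50000 * (1 + (u - 2 / 3) / 3) ^ 3) := by
    rw [hs, ht]
    ring
  rw [e] at h
  linarith

theorem od_three_d41_g0 (u : ℝ) (h1 : 1 ≤ u) (h2 : u ≤ 9 / 2) :
    97387 / 50000 * (1 + (u - 2 / 3) / 3) ^ 3 ≤
      (1 + 1 / 100 + (1 / 100) ^ 2 / 2) * ((1 + (1 / 250 * (u ^ 2 - 1)) +
      (1 / 250 * (u ^ 2 - 1)) ^ 2 / 2 +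
      (1 / 250 * (u ^ 2 - 1)) ^ 3 / 6) *
      (1 + u + 409 / 500 * u ^ 2)) := by
  obtain ⟨s, hs⟩ : ∃ s, s = u - (1) := ⟨_, rfl⟩
  obtain ⟨t, ht⟩ : ∃ t, t = 9 / 2 - u := ⟨_, rfl⟩
  have hs0 : 0 ≤ s := by linarith
  have ht0 : 0 ≤ t := by linarith
  have h : 0 ≤
      2544558722 / 328323431953125 * t ^ 8 + 4334723546777 / 41040428994140625 * s * t ^ 7 +
      437667563298038 / 732864803466796875 * s ^ 2 * t ^ 6 +
      621112503556739219 / 366432401733398437500 * s ^ 3 * t ^ 5 +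
      15796207770169805569 / 5862918427734375000000 * s ^ 4 * t ^ 4 +
      47075810639038483 / 18761338968750000000 * s ^ 5 * t ^ 3 +
      63595362221923188983 / 46903347421875000000000 * s ^ 6 * t ^ 2 +
      32172880717027382803 / 82080857988281250000000 * s ^ 7 * t +
      61363585487120875151 / 1313293727812500000000000 * s ^ 8 := by
    positivity
  have e :
      2544558722 / 328323431953125 * t ^ 8 + 4334723546777 / 41040428994140625 * s * t ^ 7 +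
      437667563298038 / 732864803466796875 * s ^ 2 * t ^ 6 +
      621112503556739219 / 366432401733398437500 * s ^ 3 * t ^ 5 +
      15796207770169805569 / 5862918427734375000000 * s ^ 4 * t ^ 4 +
      47075810639038483 / 18761338968750000000 * s ^ 5 * t ^ 3 +
      63595362221923188983 / 46903347421875000000000 * s ^ 6 * t ^ 2 +
      32172880717027382803 / 82080857988281250000000 * s ^ 7 * t +
      61363585487120875151 / 1313293727812500000000000 * s ^ 8 =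
      (1 + 1 / 100 + (1 / 100) ^ 2 / 2) * ((1 + (1 / 250 * (u ^ 2 - 1)) +
      (1 / 250 * (u ^ 2 - 1)) ^ 2 / 2 +
      (1 / 250 * (u ^ 2 - 1)) ^ 3 / 6) *
      (1 + u + 409 / 500 * u ^ 2)) -
      (97387 / 50000 * (1 + (u - 2 / 3) / 3) ^ 3) := by
    rw [hs, ht]
    ring
  rw [e] at h
  linarith

theorem od_three_d41_g1 (u : ℝ) (h1 : 9 / 2 ≤ u) (h2 : u ≤ 25 / 4) :
    97387 / 50000 * (1 + (u - 2 / 3) / 3) ^ 3 ≤
      (1 + 1 / 100 + (1 / 100) ^ 2 / 2) * ((1 + (1 / 250 * (u ^ 2 - 1)) +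
      (1 / 250 * (u ^ 2 - 1)) ^ 2 / 2 +
      (1 / 250 * (u ^ 2 - 1)) ^ 3 / 6) *
      (1 + u + 409 / 500 * u ^ 2)) := by
  obtain ⟨s, hs⟩ : ∃ s, s = u - (9 / 2) := ⟨_, rfl⟩
  obtain ⟨t, ht⟩ : ∃ t, t = 25 / 4 - u := ⟨_, rfl⟩
  have hs0 : 0 ≤ s := by linarith
  have ht0 : 0 ≤ t := by linarith
  have h : 0 ≤
      61363585487120875151 / 5130053624267578125000 * t ^ 8 +
      119744995027307859847 / 1282513406066894531250 * s * t ^ 7 +
      114896531500841235853 / 366432401733398437500 * s ^ 2 * t ^ 6 +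
      108248686532823888703 / 183216200866699218750 * s ^ 3 * t ^ 5 +
      3998342274208472698429 / 5862918427734375000000 * s ^ 4 * t ^ 4 +
      1444503768346143636469 / 2931459213867187500000 * s ^ 5 * t ^ 3 +
      636644361053008794599 / 2931459213867187500000 * s ^ 6 * t ^ 2 +
      87472241871798476729 / 1641617159765625000000 * s ^ 7 * t +
      58538906461439975023 / 10506349822500000000000 * s ^ 8 := by
    positivity
  have e :
      61363585487120875151 / 5130053624267578125000 * t ^ 8 +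
      119744995027307859847 / 1282513406066894531250 * s * t ^ 7 +
      114896531500841235853 / 366432401733398437500 * s ^ 2 * t ^ 6 +
      108248686532823888703 / 183216200866699218750 * s ^ 3 * t ^ 5 +
      3998342274208472698429 / 5862918427734375000000 * s ^ 4 * t ^ 4 +
      1444503768346143636469 / 2931459213867187500000 * s ^ 5 * t ^ 3 +
      636644361053008794599 / 2931459213867187500000 * s ^ 6 * t ^ 2 +
      87472241871798476729 / 1641617159765625000000 * s ^ 7 * t +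
      58538906461439975023 / 10506349822500000000000 * s ^ 8 =
      (1 + 1 / 100 + (1 / 100) ^ 2 / 2) * ((1 + (1 / 250 * (u ^ 2 - 1)) +
      (1 / 250 * (u ^ 2 - 1)) ^ 2 / 2 +
      (1 / 250 * (u ^ 2 - 1)) ^ 3 / 6) *
      (1 + u + 409 / 500 * u ^ 2)) -
      (97387 / 50000 * (1 + (u - 2 / 3) / 3) ^ 3) := by
    rw [hs, ht]
    ring
  rw [e] at h
  linarith

theorem od_three_d41_g2 (u : ℝ) (h1 : 25 / 4 ≤ u) (h2 : u ≤ 8) :
    97387 / 50000 * (1 + (u - 2 / 3) / 3) ^ 3 ≤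
      (1 + 1 / 100 + (1 / 100) ^ 2 / 2) * ((1 + (1 / 250 * (u ^ 2 - 1)) +
      (1 / 250 * (u ^ 2 - 1)) ^ 2 / 2 +
      (1 / 250 * (u ^ 2 - 1)) ^ 3 / 6) *
      (1 + u + 409 / 500 * u ^ 2)) := by
  obtain ⟨s, hs⟩ : ∃ s, s = u - (25 / 4) := ⟨_, rfl⟩
  obtain ⟨t, ht⟩ : ∃ t, t = 8 - u := ⟨_, rfl⟩
  have hs0 : 0 ≤ s := by linarith
  have ht0 : 0 ≤ t := by linarith
  have h : 0 ≤
      58538906461439975023 / 10506349822500000000000 * t ^ 8 +
      117750048563602921657 / 3283234319531250000000 * s * t ^ 7 +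
      1116716564712184383371 / 11725836855468750000000 * s ^ 2 * t ^ 6 +
      97938897800046816811 / 732864803466796875000 * s ^ 3 * t ^ 5 +
      77520612531020372663 / 732864803466796875000 * s ^ 4 * t ^ 4 +
      4423390808308782314 / 91608100433349609375 * s ^ 5 * t ^ 3 +
      1391056404679505482 / 91608100433349609375 * s ^ 6 * t ^ 2 +
      3442892787406586336 / 641256703033447265625 * s ^ 7 * t +
      889926799422681472 / 641256703033447265625 * s ^ 8 := by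
    positivity
  have e :
      58538906461439975023 / 10506349822500000000000 * t ^ 8 +
      117750048563602921657 / 3283234319531250000000 * s * t ^ 7 +
      1116716564712184383371 / 11725836855468750000000 * s ^ 2 * t ^ 6 +
      97938897800046816811 / 732864803466796875000 * s ^ 3 * t ^ 5 +
      77520612531020372663 / 732864803466796875000 * s ^ 4 * t ^ 4 +
      4423390808308782314 / 91608100433349609375 * s ^ 5 * t ^ 3 +
      1391056404679505482 / 91608100433349609375 * s ^ 6 * t ^ 2 +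
      3442892787406586336 / 641256703033447265625 * s ^ 7 * t +
      889926799422681472 / 641256703033447265625 * s ^ 8 =
      (1 + 1 / 100 + (1 / 100) ^ 2 / 2) * ((1 + (1 / 250 * (u ^ 2 - 1)) +
      (1 / 250 * (u ^ 2 - 1)) ^ 2 / 2 +
      (1 / 250 * (u ^ 2 - 1)) ^ 3 / 6) *
      (1 + u + 409 / 500 * u ^ 2)) -
      (97387 / 50000 * (1 + (u - 2 / 3) / 3) ^ 3) := by
    rw [hs, ht]
    ring
  rw [e] at h
  linarith

theorem od_three_d41_t (u : ℝ) (h1 : 8 ≤ u) :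
    97387 / 50000 * (1 + (u - 2 / 3) / 3) ^ 3 ≤
      (1 + 1 / 100 + (1 / 100) ^ 2 / 2) * ((1 + (1 / 250 * (u ^ 2 - 1)) +
      (1 / 250 * (u ^ 2 - 1)) ^ 2 / 2 +
      (1 / 250 * (u ^ 2 - 1)) ^ 3 / 6) *
      (1 + u + 409 / 500 * u ^ 2)) := by
  obtain ⟨s, hs⟩ : ∃ s, s = u - (8) := ⟨_, rfl⟩
  have hs0 : 0 ≤ s := by linarith
  have h : 0 ≤
      6952553120489699 / 56953125000000000 + 364734286505443 / 1265625000000000 * s +
      3989076230062553 / 8437500000000000 * s ^ 2 +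
      269721713125451 / 2109375000000000 * s ^ 3 + 3959980394729 / 312500000000000 * s ^ 4 +
      138687197963 / 234375000000000 * s ^ 5 + 21553477151 / 937500000000000 * s ^ 6 +
      44906823 / 78125000000000 * s ^ 7 + 8262209 / 937500000000000 * s ^ 8 := by
    positivity
  have e :
      6952553120489699 / 56953125000000000 + 364734286505443 / 1265625000000000 * s +
      3989076230062553 / 8437500000000000 * s ^ 2 +
      269721713125451 / 2109375000000000 * s ^ 3 + 3959980394729 / 312500000000000 * s ^ 4 +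
      138687197963 / 234375000000000 * s ^ 5 + 21553477151 / 937500000000000 * s ^ 6 +
      44906823 / 78125000000000 * s ^ 7 + 8262209 / 937500000000000 * s ^ 8 =
      (1 + 1 / 100 + (1 / 100) ^ 2 / 2) * ((1 + (1 / 250 * (u ^ 2 - 1)) +
      (1 / 250 * (u ^ 2 - 1)) ^ 2 / 2 +
      (1 / 250 * (u ^ 2 - 1)) ^ 3 / 6) *
      (1 + u + 409 / 500 * u ^ 2)) -
      (97387 / 50000 * (1 + (u - 2 / 3) / 3) ^ 3) := by
    rw [hs]
    ring
  rw [e] at h
  linarith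

/-- `K = 3`: `(c, μ, P, δ) = (409 / 500, 1 / 250, 2 / 3, 1 / 100)` -/
theorem expOd_three_d41 : ExpOd 3 (409 / 500) (1 / 250) (2 / 3) (1 / 100) := by
  have hde : (1 + 1 / 100 + (1 / 100) ^ 2 / 2) ≤ Real.exp (1 / 100) := Real.quadratic_le_exp_of_nonneg (by norm_num)
  have hq : ∀ u : ℝ, 0 ≤ 1 + u + 409 / 500 * u ^ 2 := fun u => by
    nlinarith [sq_nonneg (u + 2), sq_nonneg u]
  have hR : ∀ (u x y : ℝ), x ≤ y → y ≤ (1 + 1 / 100 + (1 / 100) ^ 2 / 2) * (1 + u + 409 / 500 * u ^ 2) →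
      x ≤ Real.exp (1 / 100) * (1 + u + 409 / 500 * u ^ 2) := fun u x y h1 h2 =>
    (h1.trans h2).trans (mul_le_mul_of_nonneg_right hde (hq u))
  refine ExpOd.of (by norm_num) (by norm_num) (by norm_num) (by norm_num) (by norm_num) ?_ ?_ ?_
  · intro u h1
    rcases le_total u (-3) with h3 | h3
    · exact hR u _ _ (exp_le_n3 h3) (od_three_d41_d u h3)
    rcases le_total u (-2) with h4 | h4
    · refine hR u _ _ (exp_le_n2 h4) ?_
      exact od_three_d41_c0 u (by linarith) (by linarith)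
    rcases le_total u (-1) with h5 | h5
    · refine hR u _ _ (exp_le_n1 h5) ?_
      exact od_three_d41_b0 u (by linarith) (by linarith)
    rcases le_total u 0 with h6 | h6
    · refine hR u _ _ (exp_le_n0 h6) ?_
      exact od_three_d41_a0 u (by linarith) (by linarith)
    refine hR u _ _ (exp_le_p h6 (by linarith)) ?_
    exact od_three_d41_e0 u (by linarith) (by linarith)
  · intro u h1 h2
    have h4 : 0 ≤ (1 + (u - 2 / 3) / 3) ^ 3 := by
      have : 0 ≤ (u - 2 / 3) / 3 := div_nonneg (by linarith) (by norm_num)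
      positivity
    have hE : Real.exp (2 / 3) ≤ 97387 / 50000 := exp_up_2_3
    push_cast
    refine hR u _ _ (mul_le_mul_of_nonneg_right hE h4) ?_
    exact od_three_d41_f0 u (by linarith) (by linarith)
  · intro u h1
    have h4 : 0 ≤ (1 + (u - 2 / 3) / 3) ^ 3 := by
      have : 0 ≤ (u - 2 / 3) / 3 := div_nonneg (by linarith) (by norm_num)
      positivity
    have hE : Real.exp (2 / 3) ≤ 97387 / 50000 := exp_up_2_3
    have hx : 0 ≤ 1 / 250 * (u ^ 2 - 1) := mul_nonneg (by norm_num) (by nlinarith)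
    have h5 := mul_le_mul_of_nonneg_right (taylor3_le_exp _ hx) (hq u)
    have h6 : 0 ≤ Real.exp (1 / 250 * (u ^ 2 - 1)) * (1 + u + 409 / 500 * u ^ 2) :=
      mul_nonneg (Real.exp_nonneg _) (hq u)
    rw [Real.exp_add, mul_assoc]
    push_cast
    refine ((mul_le_mul_of_nonneg_right hE h4).trans ?_).trans
      ((mul_le_mul_of_nonneg_left h5 (by norm_num : (0 : ℝ) ≤ (1 + 1 / 100 + (1 / 100) ^ 2 / 2))).trans
        (mul_le_mul_of_nonneg_right hde h6))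
    rcases le_total u (9 / 2) with hh | hh
    · exact od_three_d41_g0 u (by linarith) (by linarith)
    rcases le_total u (25 / 4) with hh | hh
    · exact od_three_d41_g1 u (by linarith) (by linarith)
    rcases le_total u (8) with hh | hh
    · exact od_three_d41_g2 u (by linarith) (by linarith)
    exact od_three_d41_t u (by linarith)

theorem od_three_d42_a0 (u : ℝ) (h1 : -1 ≤ u) (h2 : u ≤ 0) :
    1 + u + u ^ 2 / 2 + u ^ 3 / 6 + u ^ 4 / 24 ≤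
      1 * (1 + u + 181 / 250 * u ^ 2) := by
  obtain ⟨s, hs⟩ : ∃ s, s = u - (-1) := ⟨_, rfl⟩
  obtain ⟨t, ht⟩ : ∃ t, t = 0 - u := ⟨_, rfl⟩
  have hs0 : 0 ≤ s := by linarith
  have ht0 : 0 ≤ t := by linarith
  have h : 0 ≤
      349 / 1000 * t ^ 4 + 461 / 750 * s * t ^ 3 + 28 / 125 * s ^ 2 * t ^ 2 := by
    positivity
  have e :
      349 / 1000 * t ^ 4 + 461 / 750 * s * t ^ 3 + 28 / 125 * s ^ 2 * t ^ 2 =
      1 * (1 + u + 181 / 250 * u ^ 2) -
      (1 + u + u ^ 2 / 2 + u ^ 3 / 6 + u ^ 4 / 24) := by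
    rw [hs, ht]
    ring
  rw [e] at h
  linarith

theorem od_three_d42_b0 (u : ℝ) (h1 : -2 ≤ u) (h2 : u ≤ -1) :
    36788 / 100000 *
      (1 + (u + 1) + (u + 1) ^ 2 / 2 + (u + 1) ^ 3 / 6 + (u + 1) ^ 4 / 24) ≤
      1 * (1 + u + 181 / 250 * u ^ 2) := by
  obtain ⟨s, hs⟩ : ∃ s, s = u - (-2) := ⟨_, rfl⟩
  obtain ⟨t, ht⟩ : ∃ t, t = -1 - u := ⟨_, rfl⟩
  have hs0 : 0 ≤ s := by linarith
  have ht0 : 0 ≤ t := by linarith
  have h : 0 ≤
      351609 / 200000 * t ^ 4 + 752033 / 150000 * s * t ^ 3 +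
      256221 / 50000 * s ^ 2 * t ^ 2 + 56009 / 25000 * s ^ 3 * t + 8903 / 25000 * s ^ 4 := by
    positivity
  have e :
      351609 / 200000 * t ^ 4 + 752033 / 150000 * s * t ^ 3 +
      256221 / 50000 * s ^ 2 * t ^ 2 + 56009 / 25000 * s ^ 3 * t + 8903 / 25000 * s ^ 4 =
      1 * (1 + u + 181 / 250 * u ^ 2) -
      (36788 / 100000 *
      (1 + (u + 1) + (u + 1) ^ 2 / 2 + (u + 1) ^ 3 / 6 + (u + 1) ^ 4 / 24)) := by
    rw [hs, ht]
    ring
  rw [e] at h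
  linarith

theorem od_three_d42_c0 (u : ℝ) (h1 : -3 ≤ u) (h2 : u ≤ -2) :
    13534 / 100000 *
      (1 + (u + 2) + (u + 2) ^ 2 / 2 + (u + 2) ^ 3 / 6 + (u + 2) ^ 4 / 24) ≤
      1 * (1 + u + 181 / 250 * u ^ 2) := by
  obtain ⟨s, hs⟩ : ∃ s, s = u - (-3) := ⟨_, rfl⟩
  obtain ⟨t, ht⟩ : ∃ t, t = -2 - u := ⟨_, rfl⟩
  have hs0 : 0 ≤ s := by linarith
  have ht0 : 0 ≤ t := by linarith
  have h : 0 ≤
      1786099 / 400000 * t ^ 4 + 4341563 / 300000 * s * t ^ 3 +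
      1731431 / 100000 * s ^ 2 * t ^ 2 + 453699 / 50000 * s ^ 3 * t + 88033 / 50000 * s ^ 4 := by
    positivity
  have e :
      1786099 / 400000 * t ^ 4 + 4341563 / 300000 * s * t ^ 3 +
      1731431 / 100000 * s ^ 2 * t ^ 2 + 453699 / 50000 * s ^ 3 * t + 88033 / 50000 * s ^ 4 =
      1 * (1 + u + 181 / 250 * u ^ 2) -
      (13534 / 100000 *
      (1 + (u + 2) + (u + 2) ^ 2 / 2 + (u + 2) ^ 3 / 6 + (u + 2) ^ 4 / 24)) := by
    rw [hs, ht]
    ring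
  rw [e] at h
  linarith

theorem od_three_d42_d (u : ℝ) (h2 : u ≤ -3) :
    4979 / 100000 ≤
      1 * (1 + u + 181 / 250 * u ^ 2) := by
  obtain ⟨s, hs⟩ : ∃ s, s = -3 - u := ⟨_, rfl⟩
  have hs0 : 0 ≤ s := by linarith
  have h : 0 ≤
      446621 / 100000 + 418 / 125 * s + 181 / 250 * s ^ 2 := by
    positivity
  have e :
      446621 / 100000 + 418 / 125 * s + 181 / 250 * s ^ 2 =
      1 * (1 + u + 181 / 250 * u ^ 2) -
      (4979 / 100000) := by
    rw [hs]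
    ring
  rw [e] at h
  linarith

theorem od_three_d42_e0 (u : ℝ) (h1 : 0 ≤ u) (h2 : u ≤ 2 / 3) :
    1 + u + u ^ 2 / 2 + u ^ 3 / 6 + u ^ 4 / 24 + u ^ 5 / 100 ≤
      1 * (1 + u + 181 / 250 * u ^ 2) := by
  obtain ⟨s, hs⟩ : ∃ s, s = u - (0) := ⟨_, rfl⟩
  obtain ⟨t, ht⟩ : ∃ t, t = 2 / 3 - u := ⟨_, rfl⟩
  have hs0 : 0 ≤ s := by linarith
  have ht0 : 0 ≤ t := by linarith
  have h : 0 ≤
      189 / 250 * s ^ 2 * t ^ 3 + 1893 / 1000 * s ^ 3 * t ^ 2 + 2911 / 2000 * s ^ 4 * t +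
      617 / 2000 * s ^ 5 := by
    positivity
  have e :
      189 / 250 * s ^ 2 * t ^ 3 + 1893 / 1000 * s ^ 3 * t ^ 2 + 2911 / 2000 * s ^ 4 * t +
      617 / 2000 * s ^ 5 =
      1 * (1 + u + 181 / 250 * u ^ 2) -
      (1 + u + u ^ 2 / 2 + u ^ 3 / 6 + u ^ 4 / 24 + u ^ 5 / 100) := by
    rw [hs, ht]
    ring
  rw [e] at h
  linarith

theorem od_three_d42_f0 (u : ℝ) (h1 : 2 / 3 ≤ u) (h2 : u ≤ 1) :
    97387 / 50000 * (1 + (u - 2 / 3) / 3) ^ 3 ≤
      1 * (1 + u + 181 / 250 * u ^ 2) := by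
  obtain ⟨s, hs⟩ : ∃ s, s = u - (2 / 3) := ⟨_, rfl⟩
  obtain ⟨t, ht⟩ : ∃ t, t = 1 - u := ⟨_, rfl⟩
  have hs0 : 0 ≤ s := by linarith
  have ht0 : 0 ≤ t := by linarith
  have h : 0 ≤
      54951 / 50000 * t ^ 3 + 17277 / 5000 * s * t ^ 2 + 1919 / 500 * s ^ 2 * t +
      4757 / 3375 * s ^ 3 := by
    positivity
  have e :
      54951 / 50000 * t ^ 3 + 17277 / 5000 * s * t ^ 2 + 1919 / 500 * s ^ 2 * t +
      4757 / 3375 * s ^ 3 =
      1 * (1 + u + 181 / 250 * u ^ 2) -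
      (97387 / 50000 * (1 + (u - 2 / 3) / 3) ^ 3) := by
    rw [hs, ht]
    ring
  rw [e] at h
  linarith

theorem od_three_d42_g0 (u : ℝ) (h1 : 1 ≤ u) (h2 : u ≤ 5) :
    97387 / 50000 * (1 + (u - 2 / 3) / 3) ^ 3 ≤
      1 * ((1 + (7 / 1000 * (u ^ 2 - 1)) +
      (7 / 1000 * (u ^ 2 - 1)) ^ 2 / 2 +
      (7 / 1000 * (u ^ 2 - 1)) ^ 3 / 6) *
      (1 + u + 181 / 250 * u ^ 2)) := by
  obtain ⟨s, hs⟩ : ∃ s, s = u - (1) := ⟨_, rfl⟩
  obtain ⟨t, ht⟩ : ∃ t, t = 5 - u := ⟨_, rfl⟩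
  have hs0 : 0 ≤ s := by linarith
  have ht0 : 0 ≤ t := by linarith
  have h : 0 ≤
      4757 / 5971968000 * t ^ 8 + 16942393 / 1492992000000 * s * t ^ 7 +
      26447646251 / 373248000000000 * s ^ 2 * t ^ 6 +
      8777396419169 / 46656000000000000 * s ^ 3 * t ^ 5 +
      2804976863209 / 11664000000000000 * s ^ 4 * t ^ 4 +
      859102456531 / 5832000000000000 * s ^ 5 * t ^ 3 +
      1617568192843 / 46656000000000000 * s ^ 6 * t ^ 2 +
      8150543041 / 9331200000000000 * s ^ 7 * t + 835082159 / 933120000000000 * s ^ 8 := by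
    positivity
  have e :
      4757 / 5971968000 * t ^ 8 + 16942393 / 1492992000000 * s * t ^ 7 +
      26447646251 / 373248000000000 * s ^ 2 * t ^ 6 +
      8777396419169 / 46656000000000000 * s ^ 3 * t ^ 5 +
      2804976863209 / 11664000000000000 * s ^ 4 * t ^ 4 +
      859102456531 / 5832000000000000 * s ^ 5 * t ^ 3 +
      1617568192843 / 46656000000000000 * s ^ 6 * t ^ 2 +
      8150543041 / 9331200000000000 * s ^ 7 * t + 835082159 / 933120000000000 * s ^ 8 =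
      1 * ((1 + (7 / 1000 * (u ^ 2 - 1)) +
      (7 / 1000 * (u ^ 2 - 1)) ^ 2 / 2 +
      (7 / 1000 * (u ^ 2 - 1)) ^ 3 / 6) *
      (1 + u + 181 / 250 * u ^ 2)) -
      (97387 / 50000 * (1 + (u - 2 / 3) / 3) ^ 3) := by
    rw [hs, ht]
    ring
  rw [e] at h
  linarith

theorem od_three_d42_t (u : ℝ) (h1 : 5 ≤ u) :
    97387 / 50000 * (1 + (u - 2 / 3) / 3) ^ 3 ≤
      1 * ((1 + (7 / 1000 * (u ^ 2 - 1)) +
      (7 / 1000 * (u ^ 2 - 1)) ^ 2 / 2 +
      (7 / 1000 * (u ^ 2 - 1)) ^ 3 / 6) *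
      (1 + u + 181 / 250 * u ^ 2)) := by
  obtain ⟨s, hs⟩ : ∃ s, s = u - (5) := ⟨_, rfl⟩
  have hs0 : 0 ≤ s := by linarith
  have h : 0 ≤
      835082159 / 14238281250 + 6517336631 / 63281250000 * s +
      5790310669 / 26367187500 * s ^ 2 + 31963055783 / 337500000000 * s ^ 3 +
      5382252281 / 375000000000 * s ^ 4 + 131128753 / 150000000000 * s ^ 5 +
      72965851 / 1500000000000 * s ^ 6 + 256907 / 150000000000 * s ^ 7 +
      62083 / 1500000000000 * s ^ 8 := by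
    positivity
  have e :
      835082159 / 14238281250 + 6517336631 / 63281250000 * s +
      5790310669 / 26367187500 * s ^ 2 + 31963055783 / 337500000000 * s ^ 3 +
      5382252281 / 375000000000 * s ^ 4 + 131128753 / 150000000000 * s ^ 5 +
      72965851 / 1500000000000 * s ^ 6 + 256907 / 150000000000 * s ^ 7 +
      62083 / 1500000000000 * s ^ 8 =
      1 * ((1 + (7 / 1000 * (u ^ 2 - 1)) +
      (7 / 1000 * (u ^ 2 - 1)) ^ 2 / 2 +
      (7 / 1000 * (u ^ 2 - 1)) ^ 3 / 6) *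
      (1 + u + 181 / 250 * u ^ 2)) -
      (97387 / 50000 * (1 + (u - 2 / 3) / 3) ^ 3) := by
    rw [hs]
    ring
  rw [e] at h
  linarith

/-- `K = 3`: `(c, μ, P, δ) = (181 / 250, 7 / 1000, 2 / 3, 0)` -/
theorem expOd_three_d42 : ExpOd 3 (181 / 250) (7 / 1000) (2 / 3) (0) := by
  have hde : 1 ≤ Real.exp (0) := Real.exp_zero.ge
  have hq : ∀ u : ℝ, 0 ≤ 1 + u + 181 / 250 * u ^ 2 := fun u => by
    nlinarith [sq_nonneg (u + 2), sq_nonneg u]
  have hR : ∀ (u x y : ℝ), x ≤ y → y ≤ 1 * (1 + u + 181 / 250 * u ^ 2) →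
      x ≤ Real.exp (0) * (1 + u + 181 / 250 * u ^ 2) := fun u x y h1 h2 =>
    (h1.trans h2).trans (mul_le_mul_of_nonneg_right hde (hq u))
  refine ExpOd.of (by norm_num) (by norm_num) (by norm_num) (by norm_num) (by norm_num) ?_ ?_ ?_
  · intro u h1
    rcases le_total u (-3) with h3 | h3
    · exact hR u _ _ (exp_le_n3 h3) (od_three_d42_d u h3)
    rcases le_total u (-2) with h4 | h4
    · refine hR u _ _ (exp_le_n2 h4) ?_
      exact od_three_d42_c0 u (by linarith) (by linarith)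
    rcases le_total u (-1) with h5 | h5
    · refine hR u _ _ (exp_le_n1 h5) ?_
      exact od_three_d42_b0 u (by linarith) (by linarith)
    rcases le_total u 0 with h6 | h6
    · refine hR u _ _ (exp_le_n0 h6) ?_
      exact od_three_d42_a0 u (by linarith) (by linarith)
    refine hR u _ _ (exp_le_p h6 (by linarith)) ?_
    exact od_three_d42_e0 u (by linarith) (by linarith)
  · intro u h1 h2
    have h4 : 0 ≤ (1 + (u - 2 / 3) / 3) ^ 3 := by
      have : 0 ≤ (u - 2 / 3) / 3 := div_nonneg (by linarith) (by norm_num)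
      positivity
    have hE : Real.exp (2 / 3) ≤ 97387 / 50000 := exp_up_2_3
    push_cast
    refine hR u _ _ (mul_le_mul_of_nonneg_right hE h4) ?_
    exact od_three_d42_f0 u (by linarith) (by linarith)
  · intro u h1
    have h4 : 0 ≤ (1 + (u - 2 / 3) / 3) ^ 3 := by
      have : 0 ≤ (u - 2 / 3) / 3 := div_nonneg (by linarith) (by norm_num)
      positivity
    have hE : Real.exp (2 / 3) ≤ 97387 / 50000 := exp_up_2_3
    have hx : 0 ≤ 7 / 1000 * (u ^ 2 - 1) := mul_nonneg (by norm_num) (by nlinarith)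
    have h5 := mul_le_mul_of_nonneg_right (taylor3_le_exp _ hx) (hq u)
    have h6 : 0 ≤ Real.exp (7 / 1000 * (u ^ 2 - 1)) * (1 + u + 181 / 250 * u ^ 2) :=
      mul_nonneg (Real.exp_nonneg _) (hq u)
    rw [Real.exp_add, mul_assoc]
    push_cast
    refine ((mul_le_mul_of_nonneg_right hE h4).trans ?_).trans
      ((mul_le_mul_of_nonneg_left h5 (by norm_num : (0 : ℝ) ≤ 1)).trans
        (mul_le_mul_of_nonneg_right hde h6))
    rcases le_total u (5) with hh | hh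
    · exact od_three_d42_g0 u (by linarith) (by linarith)
    exact od_three_d42_t u (by linarith)

theorem od_three_d43_a0 (u : ℝ) (h1 : -1 ≤ u) (h2 : u ≤ 0) :
    1 + u + u ^ 2 / 2 + u ^ 3 / 6 + u ^ 4 / 24 ≤
      (1 + 1 / 200 + (1 / 200) ^ 2 / 2) * (1 + u + 719 / 1000 * u ^ 2) := by
  obtain ⟨s, hs⟩ : ∃ s, s = u - (-1) := ⟨_, rfl⟩
  obtain ⟨t, ht⟩ : ∃ t, t = 0 - u := ⟨_, rfl⟩
  have hs0 : 0 ≤ s := by linarith
  have ht0 : 0 ≤ t := by linarith
  have h : 0 ≤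
      27808319 / 80000000 * t ^ 4 + 74026457 / 120000000 * s * t ^ 3 +
      19011319 / 80000000 * s ^ 2 * t ^ 2 + 1203 / 80000 * s ^ 3 * t + 401 / 80000 * s ^ 4 := by
    positivity
  have e :
      27808319 / 80000000 * t ^ 4 + 74026457 / 120000000 * s * t ^ 3 +
      19011319 / 80000000 * s ^ 2 * t ^ 2 + 1203 / 80000 * s ^ 3 * t + 401 / 80000 * s ^ 4 =
      (1 + 1 / 200 + (1 / 200) ^ 2 / 2) * (1 + u + 719 / 1000 * u ^ 2) -
      (1 + u + u ^ 2 / 2 + u ^ 3 / 6 + u ^ 4 / 24) := by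
    rw [hs, ht]
    ring
  rw [e] at h
  linarith

theorem od_three_d43_b0 (u : ℝ) (h1 : -2 ≤ u) (h2 : u ≤ -1) :
    36788 / 100000 *
      (1 + (u + 1) + (u + 1) ^ 2 / 2 + (u + 1) ^ 3 / 6 + (u + 1) ^ 4 / 24) ≤
      (1 + 1 / 200 + (1 / 200) ^ 2 / 2) * (1 + u + 719 / 1000 * u ^ 2) := by
  obtain ⟨s, hs⟩ : ∃ s, s = u - (-2) := ⟨_, rfl⟩
  obtain ⟨t, ht⟩ : ∃ t, t = -1 - u := ⟨_, rfl⟩
  have hs0 : 0 ≤ s := by linarith
  have ht0 : 0 ≤ t := by linarith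
  have h : 0 ≤
      34948969 / 20000000 * t ^ 4 + 298905821 / 60000000 * s * t ^ 3 +
      407298747 / 80000000 * s ^ 2 * t ^ 2 + 89078857 / 40000000 * s ^ 3 * t +
      28377919 / 80000000 * s ^ 4 := by
    positivity
  have e :
      34948969 / 20000000 * t ^ 4 + 298905821 / 60000000 * s * t ^ 3 +
      407298747 / 80000000 * s ^ 2 * t ^ 2 + 89078857 / 40000000 * s ^ 3 * t +
      28377919 / 80000000 * s ^ 4 =
      (1 + 1 / 200 + (1 / 200) ^ 2 / 2) * (1 + u + 719 / 1000 * u ^ 2) -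
      (36788 / 100000 *
      (1 + (u + 1) + (u + 1) ^ 2 / 2 + (u + 1) ^ 3 / 6 + (u + 1) ^ 4 / 24)) := by
    rw [hs, ht]
    ring
  rw [e] at h
  linarith

theorem od_three_d43_c0 (u : ℝ) (h1 : -3 ≤ u) (h2 : u ≤ -2) :
    13534 / 100000 *
      (1 + (u + 2) + (u + 2) ^ 2 / 2 + (u + 2) ^ 3 / 6 + (u + 2) ^ 4 / 24) ≤
      (1 + 1 / 200 + (1 / 200) ^ 2 / 2) * (1 + u + 719 / 1000 * u ^ 2) := by
  obtain ⟨s, hs⟩ : ∃ s, s = u - (-3) := ⟨_, rfl⟩
  obtain ⟨t, ht⟩ : ∃ t, t = -2 - u := ⟨_, rfl⟩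
  have hs0 : 0 ≤ s := by linarith
  have ht0 : 0 ≤ t := by linarith
  have h : 0 ≤
      355412671 / 80000000 * t ^ 4 + 345477811 / 24000000 * s * t ^ 3 +
      1377403603 / 80000000 * s ^ 2 * t ^ 2 + 36083989 / 4000000 * s ^ 3 * t +
      35001269 / 20000000 * s ^ 4 := by
    positivity
  have e :
      355412671 / 80000000 * t ^ 4 + 345477811 / 24000000 * s * t ^ 3 +
      1377403603 / 80000000 * s ^ 2 * t ^ 2 + 36083989 / 4000000 * s ^ 3 * t +
      35001269 / 20000000 * s ^ 4 =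
      (1 + 1 / 200 + (1 / 200) ^ 2 / 2) * (1 + u + 719 / 1000 * u ^ 2) -
      (13534 / 100000 *
      (1 + (u + 2) + (u + 2) ^ 2 / 2 + (u + 2) ^ 3 / 6 + (u + 2) ^ 4 / 24)) := by
    rw [hs, ht]
    ring
  rw [e] at h
  linarith

theorem od_three_d43_d (u : ℝ) (h2 : u ≤ -3) :
    4979 / 100000 ≤
      (1 + 1 / 200 + (1 / 200) ^ 2 / 2) * (1 + u + 719 / 1000 * u ^ 2) := by
  obtain ⟨s, hs⟩ : ∃ s, s = -3 - u := ⟨_, rfl⟩
  have hs0 : 0 ≤ s := by linarith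
  have h : 0 ≤
      355489671 / 80000000 + 133224457 / 40000000 * s + 57808319 / 80000000 * s ^ 2 := by
    positivity
  have e :
      355489671 / 80000000 + 133224457 / 40000000 * s + 57808319 / 80000000 * s ^ 2 =
      (1 + 1 / 200 + (1 / 200) ^ 2 / 2) * (1 + u + 719 / 1000 * u ^ 2) -
      (4979 / 100000) := by
    rw [hs]
    ring
  rw [e] at h
  linarith

theorem od_three_d43_e0 (u : ℝ) (h1 : 0 ≤ u) (h2 : u ≤ 2 / 3) :
    1 + u + u ^ 2 / 2 + u ^ 3 / 6 + u ^ 4 / 24 + u ^ 5 / 100 ≤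
      (1 + 1 / 200 + (1 / 200) ^ 2 / 2) * (1 + u + 719 / 1000 * u ^ 2) := by
  obtain ⟨s, hs⟩ : ∃ s, s = u - (0) := ⟨_, rfl⟩
  obtain ⟨t, ht⟩ : ∃ t, t = 2 / 3 - u := ⟨_, rfl⟩
  have hs0 : 0 ≤ s := by linarith
  have ht0 : 0 ≤ t := by linarith
  have h : 0 ≤
      97443 / 2560000 * t ^ 5 + 552177 / 2560000 * s * t ^ 4 +
      789394113 / 640000000 * s ^ 2 * t ^ 3 + 1543524339 / 640000000 * s ^ 3 * t ^ 2 +
      1109239589 / 640000000 * s ^ 4 * t + 235025863 / 640000000 * s ^ 5 := by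
    positivity
  have e :
      97443 / 2560000 * t ^ 5 + 552177 / 2560000 * s * t ^ 4 +
      789394113 / 640000000 * s ^ 2 * t ^ 3 + 1543524339 / 640000000 * s ^ 3 * t ^ 2 +
      1109239589 / 640000000 * s ^ 4 * t + 235025863 / 640000000 * s ^ 5 =
      (1 + 1 / 200 + (1 / 200) ^ 2 / 2) * (1 + u + 719 / 1000 * u ^ 2) -
      (1 + u + u ^ 2 / 2 + u ^ 3 / 6 + u ^ 4 / 24 + u ^ 5 / 100) := by
    rw [hs, ht]
    ring
  rw [e] at h
  linarith

theorem od_three_d43_f0 (u : ℝ) (h1 : 2 / 3 ≤ u) (h2 : u ≤ 1) :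
    97387 / 50000 * (1 + (u - 2 / 3) / 3) ^ 3 ≤
      (1 + 1 / 200 + (1 / 200) ^ 2 / 2) * (1 + u + 719 / 1000 * u ^ 2) := by
  obtain ⟨s, hs⟩ : ∃ s, s = u - (2 / 3) := ⟨_, rfl⟩
  obtain ⟨t, ht⟩ : ∃ t, t = 1 - u := ⟨_, rfl⟩
  have hs0 : 0 ≤ s := by linarith
  have ht0 : 0 ≤ t := by linarith
  have h : 0 ≤
      26156607 / 20000000 * t ^ 3 + 20550957 / 5000000 * s * t ^ 2 +
      361357097 / 80000000 * s ^ 2 * t + 3547722551 / 2160000000 * s ^ 3 := by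
    positivity
  have e :
      26156607 / 20000000 * t ^ 3 + 20550957 / 5000000 * s * t ^ 2 +
      361357097 / 80000000 * s ^ 2 * t + 3547722551 / 2160000000 * s ^ 3 =
      (1 + 1 / 200 + (1 / 200) ^ 2 / 2) * (1 + u + 719 / 1000 * u ^ 2) -
      (97387 / 50000 * (1 + (u - 2 / 3) / 3) ^ 3) := by
    rw [hs, ht]
    ring
  rw [e] at h
  linarith

theorem od_three_d43_g0 (u : ℝ) (h1 : 1 ≤ u) (h2 : u ≤ 5) :
    97387 / 50000 * (1 + (u - 2 / 3) / 3) ^ 3 ≤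
      (1 + 1 / 200 + (1 / 200) ^ 2 / 2) * ((1 + (7 / 1000 * (u ^ 2 - 1)) +
      (7 / 1000 * (u ^ 2 - 1)) ^ 2 / 2 +
      (7 / 1000 * (u ^ 2 - 1)) ^ 3 / 6) *
      (1 + u + 719 / 1000 * u ^ 2)) := by
  obtain ⟨s, hs⟩ : ∃ s, s = u - (1) := ⟨_, rfl⟩
  obtain ⟨t, ht⟩ : ∃ t, t = 5 - u := ⟨_, rfl⟩
  have hs0 : 0 ≤ s := by linarith
  have ht0 : 0 ≤ t := by linarith
  have h : 0 ≤
      3547722551 / 3822059520000000 * t ^ 8 +
      5993080059857 / 477757440000000000 * s * t ^ 7 +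
      8985044362972249 / 119439360000000000000 * s ^ 2 * t ^ 6 +
      2935100302163757331 / 14929920000000000000000 * s ^ 3 * t ^ 5 +
      932650778340038291 / 3732480000000000000000 * s ^ 4 * t ^ 4 +
      571591211059990813 / 3732480000000000000000 * s ^ 5 * t ^ 3 +
      542359635657902657 / 14929920000000000000000 * s ^ 6 * t ^ 2 +
      2529387806978459 / 2985984000000000000000 * s ^ 7 * t +
      60304948494979 / 74649600000000000000 * s ^ 8 := by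
    positivity
  have e :
      3547722551 / 3822059520000000 * t ^ 8 +
      5993080059857 / 477757440000000000 * s * t ^ 7 +
      8985044362972249 / 119439360000000000000 * s ^ 2 * t ^ 6 +
      2935100302163757331 / 14929920000000000000000 * s ^ 3 * t ^ 5 +
      932650778340038291 / 3732480000000000000000 * s ^ 4 * t ^ 4 +
      571591211059990813 / 3732480000000000000000 * s ^ 5 * t ^ 3 +
      542359635657902657 / 14929920000000000000000 * s ^ 6 * t ^ 2 +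
      2529387806978459 / 2985984000000000000000 * s ^ 7 * t +
      60304948494979 / 74649600000000000000 * s ^ 8 =
      (1 + 1 / 200 + (1 / 200) ^ 2 / 2) * ((1 + (7 / 1000 * (u ^ 2 - 1)) +
      (7 / 1000 * (u ^ 2 - 1)) ^ 2 / 2 +
      (7 / 1000 * (u ^ 2 - 1)) ^ 3 / 6) *
      (1 + u + 719 / 1000 * u ^ 2)) -
      (97387 / 50000 * (1 + (u - 2 / 3) / 3) ^ 3) := by
    rw [hs, ht]
    ring
  rw [e] at h
  linarith

theorem od_three_d43_t (u : ℝ) (h1 : 5 ≤ u) :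
    97387 / 50000 * (1 + (u - 2 / 3) / 3) ^ 3 ≤
      (1 + 1 / 200 + (1 / 200) ^ 2 / 2) * ((1 + (7 / 1000 * (u ^ 2 - 1)) +
      (7 / 1000 * (u ^ 2 - 1)) ^ 2 / 2 +
      (7 / 1000 * (u ^ 2 - 1)) ^ 3 / 6) *
      (1 + u + 719 / 1000 * u ^ 2)) := by
  obtain ⟨s, hs⟩ : ∃ s, s = u - (5) := ⟨_, rfl⟩
  have hs0 : 0 ≤ s := by linarith
  have h : 0 ≤
      60304948494979 / 1139062500000000 + 1863132856823869 / 20250000000000000 * s +
      1832265680522081 / 8437500000000000 * s ^ 2 +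
      10204612393470217 / 108000000000000000 * s ^ 3 +
      573250918887073 / 40000000000000000 * s ^ 4 +
      41898966863747 / 48000000000000000 * s ^ 5 +
      23310907072649 / 480000000000000000 * s ^ 6 + 854903833 / 500000000000000 * s ^ 7 +
      19828253417 / 480000000000000000 * s ^ 8 := by
    positivity
  have e :
      60304948494979 / 1139062500000000 + 1863132856823869 / 20250000000000000 * s +
      1832265680522081 / 8437500000000000 * s ^ 2 +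
      10204612393470217 / 108000000000000000 * s ^ 3 +
      573250918887073 / 40000000000000000 * s ^ 4 +
      41898966863747 / 48000000000000000 * s ^ 5 +
      23310907072649 / 480000000000000000 * s ^ 6 + 854903833 / 500000000000000 * s ^ 7 +
      19828253417 / 480000000000000000 * s ^ 8 =
      (1 + 1 / 200 + (1 / 200) ^ 2 / 2) * ((1 + (7 / 1000 * (u ^ 2 - 1)) +
      (7 / 1000 * (u ^ 2 - 1)) ^ 2 / 2 +
      (7 / 1000 * (u ^ 2 - 1)) ^ 3 / 6) *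
      (1 + u + 719 / 1000 * u ^ 2)) -
      (97387 / 50000 * (1 + (u - 2 / 3) / 3) ^ 3) := by
    rw [hs]
    ring
  rw [e] at h
  linarith

/-- `K = 3`: `(c, μ, P, δ) = (719 / 1000, 7 / 1000, 2 / 3, 1 / 200)` -/
theorem expOd_three_d43 : ExpOd 3 (719 / 1000) (7 / 1000) (2 / 3) (1 / 200) := by
  have hde : (1 + 1 / 200 + (1 / 200) ^ 2 / 2) ≤ Real.exp (1 / 200) := Real.quadratic_le_exp_of_nonneg (by norm_num)
  have hq : ∀ u : ℝ, 0 ≤ 1 + u + 719 / 1000 * u ^ 2 := fun u => by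
    nlinarith [sq_nonneg (u + 2), sq_nonneg u]
  have hR : ∀ (u x y : ℝ), x ≤ y → y ≤ (1 + 1 / 200 + (1 / 200) ^ 2 / 2) * (1 + u + 719 / 1000 * u ^ 2) →
      x ≤ Real.exp (1 / 200) * (1 + u + 719 / 1000 * u ^ 2) := fun u x y h1 h2 =>
    (h1.trans h2).trans (mul_le_mul_of_nonneg_right hde (hq u))
  refine ExpOd.of (by norm_num) (by norm_num) (by norm_num) (by norm_num) (by norm_num) ?_ ?_ ?_
  · intro u h1
    rcases le_total u (-3) with h3 | h3
    · exact hR u _ _ (exp_le_n3 h3) (od_three_d43_d u h3)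
    rcases le_total u (-2) with h4 | h4
    · refine hR u _ _ (exp_le_n2 h4) ?_
      exact od_three_d43_c0 u (by linarith) (by linarith)
    rcases le_total u (-1) with h5 | h5
    · refine hR u _ _ (exp_le_n1 h5) ?_
      exact od_three_d43_b0 u (by linarith) (by linarith)
    rcases le_total u 0 with h6 | h6
    · refine hR u _ _ (exp_le_n0 h6) ?_
      exact od_three_d43_a0 u (by linarith) (by linarith)
    refine hR u _ _ (exp_le_p h6 (by linarith)) ?_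
    exact od_three_d43_e0 u (by linarith) (by linarith)
  · intro u h1 h2
    have h4 : 0 ≤ (1 + (u - 2 / 3) / 3) ^ 3 := by
      have : 0 ≤ (u - 2 / 3) / 3 := div_nonneg (by linarith) (by norm_num)
      positivity
    have hE : Real.exp (2 / 3) ≤ 97387 / 50000 := exp_up_2_3
    push_cast
    refine hR u _ _ (mul_le_mul_of_nonneg_right hE h4) ?_
    exact od_three_d43_f0 u (by linarith) (by linarith)
  · intro u h1
    have h4 : 0 ≤ (1 + (u - 2 / 3) / 3) ^ 3 := by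
      have : 0 ≤ (u - 2 / 3) / 3 := div_nonneg (by linarith) (by norm_num)
      positivity
    have hE : Real.exp (2 / 3) ≤ 97387 / 50000 := exp_up_2_3
    have hx : 0 ≤ 7 / 1000 * (u ^ 2 - 1) := mul_nonneg (by norm_num) (by nlinarith)
    have h5 := mul_le_mul_of_nonneg_right (taylor3_le_exp _ hx) (hq u)
    have h6 : 0 ≤ Real.exp (7 / 1000 * (u ^ 2 - 1)) * (1 + u + 719 / 1000 * u ^ 2) :=
      mul_nonneg (Real.exp_nonneg _) (hq u)
    rw [Real.exp_add, mul_assoc]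
    push_cast
    refine ((mul_le_mul_of_nonneg_right hE h4).trans ?_).trans
      ((mul_le_mul_of_nonneg_left h5 (by norm_num : (0 : ℝ) ≤ (1 + 1 / 200 + (1 / 200) ^ 2 / 2))).trans
        (mul_le_mul_of_nonneg_right hde h6))
    rcases le_total u (5) with hh | hh
    · exact od_three_d43_g0 u (by linarith) (by linarith)
    exact od_three_d43_t u (by linarith)

theorem od_three_d44_a0 (u : ℝ) (h1 : -1 ≤ u) (h2 : u ≤ 0) :
    1 + u + u ^ 2 / 2 + u ^ 3 / 6 + u ^ 4 / 24 ≤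
      (1 + 1 / 100 + (1 / 100) ^ 2 / 2) * (1 + u + 357 / 500 * u ^ 2) := by
  obtain ⟨s, hs⟩ : ∃ s, s = u - (-1) := ⟨_, rfl⟩
  obtain ⟨t, ht⟩ : ∃ t, t = 0 - u := ⟨_, rfl⟩
  have hs0 : 0 ≤ s := by linarith
  have ht0 : 0 ≤ t := by linarith
  have h : 0 ≤
      3461757 / 10000000 * t ^ 4 + 9286021 / 15000000 * s * t ^ 3 +
      2513257 / 10000000 * s ^ 2 * t ^ 2 + 603 / 20000 * s ^ 3 * t + 201 / 20000 * s ^ 4 := by
    positivity
  have e :
      3461757 / 10000000 * t ^ 4 + 9286021 / 15000000 * s * t ^ 3 +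
      2513257 / 10000000 * s ^ 2 * t ^ 2 + 603 / 20000 * s ^ 3 * t + 201 / 20000 * s ^ 4 =
      (1 + 1 / 100 + (1 / 100) ^ 2 / 2) * (1 + u + 357 / 500 * u ^ 2) -
      (1 + u + u ^ 2 / 2 + u ^ 3 / 6 + u ^ 4 / 24) := by
    rw [hs, ht]
    ring
  rw [e] at h
  linarith

theorem od_three_d44_b0 (u : ℝ) (h1 : -2 ≤ u) (h2 : u ≤ -1) :
    36788 / 100000 *
      (1 + (u + 1) + (u + 1) ^ 2 / 2 + (u + 1) ^ 3 / 6 + (u + 1) ^ 4 / 24) ≤
      (1 + 1 / 100 + (1 / 100) ^ 2 / 2) * (1 + u + 357 / 500 * u ^ 2) := by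
  obtain ⟨s, hs⟩ : ∃ s, s = u - (-2) := ⟨_, rfl⟩
  obtain ⟨t, ht⟩ : ∃ t, t = -1 - u := ⟨_, rfl⟩
  have hs0 : 0 ≤ s := by linarith
  have ht0 : 0 ≤ t := by linarith
  have h : 0 ≤
      8683489 / 5000000 * t ^ 4 + 18560669 / 3750000 * s * t ^ 3 +
      50575541 / 10000000 * s ^ 2 * t ^ 2 + 11066821 / 5000000 * s ^ 3 * t +
      3532957 / 10000000 * s ^ 4 := by
    positivity
  have e :
      8683489 / 5000000 * t ^ 4 + 18560669 / 3750000 * s * t ^ 3 +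
      50575541 / 10000000 * s ^ 2 * t ^ 2 + 11066821 / 5000000 * s ^ 3 * t +
      3532957 / 10000000 * s ^ 4 =
      (1 + 1 / 100 + (1 / 100) ^ 2 / 2) * (1 + u + 357 / 500 * u ^ 2) -
      (36788 / 100000 *
      (1 + (u + 1) + (u + 1) ^ 2 / 2 + (u + 1) ^ 3 / 6 + (u + 1) ^ 4 / 24)) := by
    rw [hs, ht]
    ring
  rw [e] at h
  linarith

theorem od_three_d44_c0 (u : ℝ) (h1 : -3 ≤ u) (h2 : u ≤ -2) :
    13534 / 100000 *
      (1 + (u + 2) + (u + 2) ^ 2 / 2 + (u + 2) ^ 3 / 6 + (u + 2) ^ 4 / 24) ≤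
      (1 + 1 / 100 + (1 / 100) ^ 2 / 2) * (1 + u + 357 / 500 * u ^ 2) := by
  obtain ⟨s, hs⟩ : ∃ s, s = u - (-3) := ⟨_, rfl⟩
  obtain ⟨t, ht⟩ : ∃ t, t = -2 - u := ⟨_, rfl⟩
  have hs0 : 0 ≤ s := by linarith
  have ht0 : 0 ≤ t := by linarith
  have h : 0 ≤
      5524661 / 1250000 * t ^ 4 + 42950393 / 3000000 * s * t ^ 3 +
      171193609 / 10000000 * s ^ 2 * t ^ 2 + 2241811 / 250000 * s ^ 3 * t +
      2174141 / 1250000 * s ^ 4 := by
    positivity
  have e :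
      5524661 / 1250000 * t ^ 4 + 42950393 / 3000000 * s * t ^ 3 +
      171193609 / 10000000 * s ^ 2 * t ^ 2 + 2241811 / 250000 * s ^ 3 * t +
      2174141 / 1250000 * s ^ 4 =
      (1 + 1 / 100 + (1 / 100) ^ 2 / 2) * (1 + u + 357 / 500 * u ^ 2) -
      (13534 / 100000 *
      (1 + (u + 2) + (u + 2) ^ 2 / 2 + (u + 2) ^ 3 / 6 + (u + 2) ^ 4 / 24)) := by
    rw [hs, ht]
    ring
  rw [e] at h
  linarith

theorem od_three_d44_d (u : ℝ) (h2 : u ≤ -3) :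
    4979 / 100000 ≤
      (1 + 1 / 100 + (1 / 100) ^ 2 / 2) * (1 + u + 357 / 500 * u ^ 2) := by
  obtain ⟨s, hs⟩ : ∃ s, s = -3 - u := ⟨_, rfl⟩
  have hs0 : 0 ≤ s := by linarith
  have h : 0 ≤
      44206913 / 10000000 + 16585021 / 5000000 * s + 7211757 / 10000000 * s ^ 2 := by
    positivity
  have e :
      44206913 / 10000000 + 16585021 / 5000000 * s + 7211757 / 10000000 * s ^ 2 =
      (1 + 1 / 100 + (1 / 100) ^ 2 / 2) * (1 + u + 357 / 500 * u ^ 2) -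
      (4979 / 100000) := by
    rw [hs]
    ring
  rw [e] at h
  linarith

theorem od_three_d44_e0 (u : ℝ) (h1 : 0 ≤ u) (h2 : u ≤ 2 / 3) :
    1 + u + u ^ 2 / 2 + u ^ 3 / 6 + u ^ 4 / 24 + u ^ 5 / 100 ≤
      (1 + 1 / 100 + (1 / 100) ^ 2 / 2) * (1 + u + 357 / 500 * u ^ 2) := by
  obtain ⟨s, hs⟩ : ∃ s, s = u - (0) := ⟨_, rfl⟩
  obtain ⟨t, ht⟩ : ∃ t, t = 2 / 3 - u := ⟨_, rfl⟩
  have hs0 : 0 ≤ s := by linarith
  have ht0 : 0 ≤ t := by linarith
  have h : 0 ≤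
      48843 / 640000 * t ^ 5 + 276777 / 640000 * s * t ^ 4 +
      137052189 / 80000000 * s ^ 2 * t ^ 3 + 234627567 / 80000000 * s ^ 3 * t ^ 2 +
      2515003 / 1250000 * s ^ 4 * t + 4261633 / 10000000 * s ^ 5 := by
    positivity
  have e :
      48843 / 640000 * t ^ 5 + 276777 / 640000 * s * t ^ 4 +
      137052189 / 80000000 * s ^ 2 * t ^ 3 + 234627567 / 80000000 * s ^ 3 * t ^ 2 +
      2515003 / 1250000 * s ^ 4 * t + 4261633 / 10000000 * s ^ 5 =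
      (1 + 1 / 100 + (1 / 100) ^ 2 / 2) * (1 + u + 357 / 500 * u ^ 2) -
      (1 + u + u ^ 2 / 2 + u ^ 3 / 6 + u ^ 4 / 24 + u ^ 5 / 100) := by
    rw [hs, ht]
    ring
  rw [e] at h
  linarith

theorem od_three_d44_f0 (u : ℝ) (h1 : 2 / 3 ≤ u) (h2 : u ≤ 1) :
    97387 / 50000 * (1 + (u - 2 / 3) / 3) ^ 3 ≤
      (1 + 1 / 100 + (1 / 100) ^ 2 / 2) * (1 + u + 357 / 500 * u ^ 2) := by
  obtain ⟨s, hs⟩ : ∃ s, s = u - (2 / 3) := ⟨_, rfl⟩
  obtain ⟨t, ht⟩ : ∃ t, t = 1 - u := ⟨_, rfl⟩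
  have hs0 : 0 ≤ s := by linarith
  have ht0 : 0 ≤ t := by linarith
  have h : 0 ≤
      1896723 / 1250000 * t ^ 3 + 744849 / 156250 * s * t ^ 2 +
      51977191 / 10000000 * s ^ 2 * t + 506499853 / 270000000 * s ^ 3 := by
    positivity
  have e :
      1896723 / 1250000 * t ^ 3 + 744849 / 156250 * s * t ^ 2 +
      51977191 / 10000000 * s ^ 2 * t + 506499853 / 270000000 * s ^ 3 =
      (1 + 1 / 100 + (1 / 100) ^ 2 / 2) * (1 + u + 357 / 500 * u ^ 2) -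
      (97387 / 50000 * (1 + (u - 2 / 3) / 3) ^ 3) := by
    rw [hs, ht]
    ring
  rw [e] at h
  linarith

theorem od_three_d44_g0 (u : ℝ) (h1 : 1 ≤ u) (h2 : u ≤ 5) :
    97387 / 50000 * (1 + (u - 2 / 3) / 3) ^ 3 ≤
      (1 + 1 / 100 + (1 / 100) ^ 2 / 2) * ((1 + (7 / 1000 * (u ^ 2 - 1)) +
      (7 / 1000 * (u ^ 2 - 1)) ^ 2 / 2 +
      (7 / 1000 * (u ^ 2 - 1)) ^ 3 / 6) *
      (1 + u + 357 / 500 * u ^ 2)) := by
  obtain ⟨s, hs⟩ : ∃ s, s = u - (1) := ⟨_, rfl⟩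
  obtain ⟨t, ht⟩ : ∃ t, t = 5 - u := ⟨_, rfl⟩
  have hs0 : 0 ≤ s := by linarith
  have ht0 : 0 ≤ t := by linarith
  have h : 0 ≤
      506499853 / 477757440000000 * t ^ 8 + 820560254971 / 59719680000000000 * s * t ^ 7 +
      1188098405344547 / 14929920000000000000 * s ^ 2 * t ^ 6 +
      382522739897770193 / 1866240000000000000000 * s ^ 3 * t ^ 5 +
      120875317105080073 / 466560000000000000000 * s ^ 4 * t ^ 4 +
      74057944665026039 / 466560000000000000000 * s ^ 5 * t ^ 3 +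
      70559847699893371 / 1866240000000000000000 * s ^ 6 * t ^ 2 +
      280184344399177 / 373248000000000000000 * s ^ 7 * t +
      6614781393137 / 9331200000000000000 * s ^ 8 := by
    positivity
  have e :
      506499853 / 477757440000000 * t ^ 8 + 820560254971 / 59719680000000000 * s * t ^ 7 +
      1188098405344547 / 14929920000000000000 * s ^ 2 * t ^ 6 +
      382522739897770193 / 1866240000000000000000 * s ^ 3 * t ^ 5 +
      120875317105080073 / 466560000000000000000 * s ^ 4 * t ^ 4 +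
      74057944665026039 / 466560000000000000000 * s ^ 5 * t ^ 3 +
      70559847699893371 / 1866240000000000000000 * s ^ 6 * t ^ 2 +
      280184344399177 / 373248000000000000000 * s ^ 7 * t +
      6614781393137 / 9331200000000000000 * s ^ 8 =
      (1 + 1 / 100 + (1 / 100) ^ 2 / 2) * ((1 + (7 / 1000 * (u ^ 2 - 1)) +
      (7 / 1000 * (u ^ 2 - 1)) ^ 2 / 2 +
      (7 / 1000 * (u ^ 2 - 1)) ^ 3 / 6) *
      (1 + u + 357 / 500 * u ^ 2)) -
      (97387 / 50000 * (1 + (u - 2 / 3) / 3) ^ 3) := by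
    rw [hs, ht]
    ring
  rw [e] at h
  linarith

theorem od_three_d44_t (u : ℝ) (h1 : 5 ≤ u) :
    97387 / 50000 * (1 + (u - 2 / 3) / 3) ^ 3 ≤
      (1 + 1 / 100 + (1 / 100) ^ 2 / 2) * ((1 + (7 / 1000 * (u ^ 2 - 1)) +
      (7 / 1000 * (u ^ 2 - 1)) ^ 2 / 2 +
      (7 / 1000 * (u ^ 2 - 1)) ^ 3 / 6) *
      (1 + u + 357 / 500 * u ^ 2)) := by
  obtain ⟨s, hs⟩ : ∃ s, s = u - (5) := ⟨_, rfl⟩
  have hs0 : 0 ≤ s := by linarith
  have h : 0 ≤
      6614781393137 / 142382812500000 + 204060633489407 / 2531250000000000 * s +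
      113190013249409 / 527343750000000 * s ^ 2 +
      1272544466522051 / 13500000000000000 * s ^ 3 +
      214639444140457 / 15000000000000000 * s ^ 4 +
      1743127058547 / 2000000000000000 * s ^ 5 + 969657070249 / 20000000000000000 * s ^ 6 +
      5120488877 / 3000000000000000 * s ^ 7 + 824544217 / 20000000000000000 * s ^ 8 := by
    positivity
  have e :
      6614781393137 / 142382812500000 + 204060633489407 / 2531250000000000 * s +
      113190013249409 / 527343750000000 * s ^ 2 +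
      1272544466522051 / 13500000000000000 * s ^ 3 +
      214639444140457 / 15000000000000000 * s ^ 4 +
      1743127058547 / 2000000000000000 * s ^ 5 + 969657070249 / 20000000000000000 * s ^ 6 +
      5120488877 / 3000000000000000 * s ^ 7 + 824544217 / 20000000000000000 * s ^ 8 =
      (1 + 1 / 100 + (1 / 100) ^ 2 / 2) * ((1 + (7 / 1000 * (u ^ 2 - 1)) +
      (7 / 1000 * (u ^ 2 - 1)) ^ 2 / 2 +
      (7 / 1000 * (u ^ 2 - 1)) ^ 3 / 6) *
      (1 + u + 357 / 500 * u ^ 2)) -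
      (97387 / 50000 * (1 + (u - 2 / 3) / 3) ^ 3) := by
    rw [hs]
    ring
  rw [e] at h
  linarith

/-- `K = 3`: `(c, μ, P, δ) = (357 / 500, 7 / 1000, 2 / 3, 1 / 100)` -/
theorem expOd_three_d44 : ExpOd 3 (357 / 500) (7 / 1000) (2 / 3) (1 / 100) := by
  have hde : (1 + 1 / 100 + (1 / 100) ^ 2 / 2) ≤ Real.exp (1 / 100) := Real.quadratic_le_exp_of_nonneg (by norm_num)
  have hq : ∀ u : ℝ, 0 ≤ 1 + u + 357 / 500 * u ^ 2 := fun u => by
    nlinarith [sq_nonneg (u + 2), sq_nonneg u]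
  have hR : ∀ (u x y : ℝ), x ≤ y → y ≤ (1 + 1 / 100 + (1 / 100) ^ 2 / 2) * (1 + u + 357 / 500 * u ^ 2) →
      x ≤ Real.exp (1 / 100) * (1 + u + 357 / 500 * u ^ 2) := fun u x y h1 h2 =>
    (h1.trans h2).trans (mul_le_mul_of_nonneg_right hde (hq u))
  refine ExpOd.of (by norm_num) (by norm_num) (by norm_num) (by norm_num) (by norm_num) ?_ ?_ ?_
  · intro u h1
    rcases le_total u (-3) with h3 | h3
    · exact hR u _ _ (exp_le_n3 h3) (od_three_d44_d u h3)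
    rcases le_total u (-2) with h4 | h4
    · refine hR u _ _ (exp_le_n2 h4) ?_
      exact od_three_d44_c0 u (by linarith) (by linarith)
    rcases le_total u (-1) with h5 | h5
    · refine hR u _ _ (exp_le_n1 h5) ?_
      exact od_three_d44_b0 u (by linarith) (by linarith)
    rcases le_total u 0 with h6 | h6
    · refine hR u _ _ (exp_le_n0 h6) ?_
      exact od_three_d44_a0 u (by linarith) (by linarith)
    refine hR u _ _ (exp_le_p h6 (by linarith)) ?_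
    exact od_three_d44_e0 u (by linarith) (by linarith)
  · intro u h1 h2
    have h4 : 0 ≤ (1 + (u - 2 / 3) / 3) ^ 3 := by
      have : 0 ≤ (u - 2 / 3) / 3 := div_nonneg (by linarith) (by norm_num)
      positivity
    have hE : Real.exp (2 / 3) ≤ 97387 / 50000 := exp_up_2_3
    push_cast
    refine hR u _ _ (mul_le_mul_of_nonneg_right hE h4) ?_
    exact od_three_d44_f0 u (by linarith) (by linarith)
  · intro u h1
    have h4 : 0 ≤ (1 + (u - 2 / 3) / 3) ^ 3 := by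
      have : 0 ≤ (u - 2 / 3) / 3 := div_nonneg (by linarith) (by norm_num)
      positivity
    have hE : Real.exp (2 / 3) ≤ 97387 / 50000 := exp_up_2_3
    have hx : 0 ≤ 7 / 1000 * (u ^ 2 - 1) := mul_nonneg (by norm_num) (by nlinarith)
    have h5 := mul_le_mul_of_nonneg_right (taylor3_le_exp _ hx) (hq u)
    have h6 : 0 ≤ Real.exp (7 / 1000 * (u ^ 2 - 1)) * (1 + u + 357 / 500 * u ^ 2) :=
      mul_nonneg (Real.exp_nonneg _) (hq u)
    rw [Real.exp_add, mul_assoc]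
    push_cast
    refine ((mul_le_mul_of_nonneg_right hE h4).trans ?_).trans
      ((mul_le_mul_of_nonneg_left h5 (by norm_num : (0 : ℝ) ≤ (1 + 1 / 100 + (1 / 100) ^ 2 / 2))).trans
        (mul_le_mul_of_nonneg_right hde h6))
    rcases le_total u (5) with hh | hh
    · exact od_three_d44_g0 u (by linarith) (by linarith)
    exact od_three_d44_t u (by linarith)

theorem od_three_d45_a0 (u : ℝ) (h1 : -1 ≤ u) (h2 : u ≤ 0) :
    1 + u + u ^ 2 / 2 + u ^ 3 / 6 + u ^ 4 / 24 ≤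
      (1 + 1 / 50 + (1 / 50) ^ 2 / 2) * (1 + u + 329 / 500 * u ^ 2) := by
  obtain ⟨s, hs⟩ : ∃ s, s = u - (-1) := ⟨_, rfl⟩
  obtain ⟨t, ht⟩ : ∃ t, t = 0 - u := ⟨_, rfl⟩
  have hs0 : 0 ≤ s := by linarith
  have ht0 : 0 ≤ t := by linarith
  have h : 0 ≤
      740729 / 2500000 * t ^ 4 + 1985437 / 3750000 * s * t ^ 3 +
      579729 / 2500000 * s ^ 2 * t ^ 2 + 303 / 5000 * s ^ 3 * t + 101 / 5000 * s ^ 4 := by
    positivity
  have e :
      740729 / 2500000 * t ^ 4 + 1985437 / 3750000 * s * t ^ 3 +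
      579729 / 2500000 * s ^ 2 * t ^ 2 + 303 / 5000 * s ^ 3 * t + 101 / 5000 * s ^ 4 =
      (1 + 1 / 50 + (1 / 50) ^ 2 / 2) * (1 + u + 329 / 500 * u ^ 2) -
      (1 + u + u ^ 2 / 2 + u ^ 3 / 6 + u ^ 4 / 24) := by
    rw [hs, ht]
    ring
  rw [e] at h
  linarith

theorem od_three_d45_b0 (u : ℝ) (h1 : -2 ≤ u) (h2 : u ≤ -1) :
    36788 / 100000 *
      (1 + (u + 1) + (u + 1) ^ 2 / 2 + (u + 1) ^ 3 / 6 + (u + 1) ^ 4 / 24) ≤
      (1 + 1 / 50 + (1 / 50) ^ 2 / 2) * (1 + u + 329 / 500 * u ^ 2) := by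
  obtain ⟨s, hs⟩ : ∃ s, s = u - (-2) := ⟨_, rfl⟩
  obtain ⟨t, ht⟩ : ∃ t, t = -1 - u := ⟨_, rfl⟩
  have hs0 : 0 ≤ s := by linarith
  have ht0 : 0 ≤ t := by linarith
  have h : 0 ≤
      7635057 / 5000000 * t ^ 4 + 16201697 / 3750000 * s * t ^ 3 +
      10946527 / 2500000 * s ^ 2 * t ^ 2 + 2379887 / 1250000 * s ^ 3 * t +
      758529 / 2500000 * s ^ 4 := by
    positivity
  have e :
      7635057 / 5000000 * t ^ 4 + 16201697 / 3750000 * s * t ^ 3 +
      10946527 / 2500000 * s ^ 2 * t ^ 2 + 2379887 / 1250000 * s ^ 3 * t +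
      758529 / 2500000 * s ^ 4 =
      (1 + 1 / 50 + (1 / 50) ^ 2 / 2) * (1 + u + 329 / 500 * u ^ 2) -
      (36788 / 100000 *
      (1 + (u + 1) + (u + 1) ^ 2 / 2 + (u + 1) ^ 3 / 6 + (u + 1) ^ 4 / 24)) := by
    rw [hs, ht]
    ring
  rw [e] at h
  linarith

theorem od_three_d45_c0 (u : ℝ) (h1 : -3 ≤ u) (h2 : u ≤ -2) :
    13534 / 100000 *
      (1 + (u + 2) + (u + 2) ^ 2 / 2 + (u + 2) ^ 3 / 6 + (u + 2) ^ 4 / 24) ≤
      (1 + 1 / 50 + (1 / 50) ^ 2 / 2) * (1 + u + 329 / 500 * u ^ 2) := by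
  obtain ⟨s, hs⟩ : ∃ s, s = u - (-3) := ⟨_, rfl⟩
  obtain ⟨t, ht⟩ : ∃ t, t = -2 - u := ⟨_, rfl⟩
  have hs0 : 0 ≤ s := by linarith
  have ht0 : 0 ≤ t := by linarith
  have h : 0 ≤
      39504719 / 10000000 * t ^ 4 + 19123837 / 1500000 * s * t ^ 3 +
      9488937 / 625000 * s ^ 2 * t ^ 2 + 1979703 / 250000 * s ^ 3 * t +
      1912033 / 1250000 * s ^ 4 := by
    positivity
  have e :
      39504719 / 10000000 * t ^ 4 + 19123837 / 1500000 * s * t ^ 3 +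
      9488937 / 625000 * s ^ 2 * t ^ 2 + 1979703 / 250000 * s ^ 3 * t +
      1912033 / 1250000 * s ^ 4 =
      (1 + 1 / 50 + (1 / 50) ^ 2 / 2) * (1 + u + 329 / 500 * u ^ 2) -
      (13534 / 100000 *
      (1 + (u + 2) + (u + 2) ^ 2 / 2 + (u + 2) ^ 3 / 6 + (u + 2) ^ 4 / 24)) := by
    rw [hs, ht]
    ring
  rw [e] at h
  linarith

theorem od_three_d45_d (u : ℝ) (h2 : u ≤ -3) :
    4979 / 100000 ≤
      (1 + 1 / 50 + (1 / 50) ^ 2 / 2) * (1 + u + 329 / 500 * u ^ 2) := by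
  obtain ⟨s, hs⟩ : ∃ s, s = -3 - u := ⟨_, rfl⟩
  have hs0 : 0 ≤ s := by linarith
  have h : 0 ≤
      4939293 / 1250000 + 3759437 / 1250000 * s + 1678229 / 2500000 * s ^ 2 := by
    positivity
  have e :
      4939293 / 1250000 + 3759437 / 1250000 * s + 1678229 / 2500000 * s ^ 2 =
      (1 + 1 / 50 + (1 / 50) ^ 2 / 2) * (1 + u + 329 / 500 * u ^ 2) -
      (4979 / 100000) := by
    rw [hs]
    ring
  rw [e] at h
  linarith

theorem od_three_d45_e0 (u : ℝ) (h1 : 0 ≤ u) (h2 : u ≤ 2 / 3) :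
    1 + u + u ^ 2 / 2 + u ^ 3 / 6 + u ^ 4 / 24 + u ^ 5 / 100 ≤
      (1 + 1 / 50 + (1 / 50) ^ 2 / 2) * (1 + u + 329 / 500 * u ^ 2) := by
  obtain ⟨s, hs⟩ : ∃ s, s = u - (0) := ⟨_, rfl⟩
  obtain ⟨t, ht⟩ : ∃ t, t = 2 / 3 - u := ⟨_, rfl⟩
  have hs0 : 0 ≤ s := by linarith
  have ht0 : 0 ≤ t := by linarith
  have h : 0 ≤
      24543 / 160000 * t ^ 5 + 139077 / 160000 * s * t ^ 4 +
      50421933 / 20000000 * s ^ 2 * t ^ 3 + 70136799 / 20000000 * s ^ 3 * t ^ 2 +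
      10489231 / 5000000 * s ^ 4 * t + 1931327 / 5000000 * s ^ 5 := by
    positivity
  have e :
      24543 / 160000 * t ^ 5 + 139077 / 160000 * s * t ^ 4 +
      50421933 / 20000000 * s ^ 2 * t ^ 3 + 70136799 / 20000000 * s ^ 3 * t ^ 2 +
      10489231 / 5000000 * s ^ 4 * t + 1931327 / 5000000 * s ^ 5 =
      (1 + 1 / 50 + (1 / 50) ^ 2 / 2) * (1 + u + 329 / 500 * u ^ 2) -
      (1 + u + u ^ 2 / 2 + u ^ 3 / 6 + u ^ 4 / 24 + u ^ 5 / 100) := by
    rw [hs, ht]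
    ring
  rw [e] at h
  linarith

theorem od_three_d45_f0 (u : ℝ) (h1 : 2 / 3 ≤ u) (h2 : u ≤ 1) :
    97387 / 50000 * (1 + (u - 2 / 3) / 3) ^ 3 ≤
      (1 + 1 / 50 + (1 / 50) ^ 2 / 2) * (1 + u + 329 / 500 * u ^ 2) := by
  obtain ⟨s, hs⟩ : ∃ s, s = u - (2 / 3) := ⟨_, rfl⟩
  obtain ⟨t, ht⟩ : ∃ t, t = 1 - u := ⟨_, rfl⟩
  have hs0 : 0 ≤ s := by linarith
  have ht0 : 0 ≤ t := by linarith
  have h : 0 ≤
      1719399 / 1250000 * t ^ 3 + 2396373 / 625000 * s * t ^ 2 +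
      9019927 / 2500000 * s ^ 2 * t + 72707941 / 67500000 * s ^ 3 := by
    positivity
  have e :
      1719399 / 1250000 * t ^ 3 + 2396373 / 625000 * s * t ^ 2 +
      9019927 / 2500000 * s ^ 2 * t + 72707941 / 67500000 * s ^ 3 =
      (1 + 1 / 50 + (1 / 50) ^ 2 / 2) * (1 + u + 329 / 500 * u ^ 2) -
      (97387 / 50000 * (1 + (u - 2 / 3) / 3) ^ 3) := by
    rw [hs, ht]
    ring
  rw [e] at h
  linarith

theorem od_three_d45_g0 (u : ℝ) (h1 : 1 ≤ u) (h2 : u ≤ 5 / 2) :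
    97387 / 50000 * (1 + (u - 2 / 3) / 3) ^ 3 ≤
      (1 + 1 / 50 + (1 / 50) ^ 2 / 2) * ((1 + (1 / 100 * (u ^ 2 - 1)) +
      (1 / 100 * (u ^ 2 - 1)) ^ 2 / 2 +
      (1 / 100 * (u ^ 2 - 1)) ^ 3 / 6) *
      (1 + u + 329 / 500 * u ^ 2)) := by
  obtain ⟨s, hs⟩ : ∃ s, s = u - (1) := ⟨_, rfl⟩
  obtain ⟨t, ht⟩ : ∃ t, t = 5 / 2 - u := ⟨_, rfl⟩
  have hs0 : 0 ≤ s := by linarith
  have ht0 : 0 ≤ t := by linarith
  have h : 0 ≤
      581663528 / 373669453125 * t ^ 8 + 123112267846 / 9341736328125 * s * t ^ 7 +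
      47497800115919 / 934173632812500 * s ^ 2 * t ^ 6 +
      10369313308668919 / 93417363281250000 * s ^ 3 * t ^ 5 +
      27295556250709027 / 186834726562500000 * s ^ 4 * t ^ 4 +
      175276673431277923 / 1494677812500000000 * s ^ 5 * t ^ 3 +
      333288841573329527 / 5978711250000000000 * s ^ 6 * t ^ 2 +
      1071728557652027 / 74733890625000000 * s ^ 7 * t +
      1477499461983707 / 956593800000000000 * s ^ 8 := by
    positivity
  have e :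
      581663528 / 373669453125 * t ^ 8 + 123112267846 / 9341736328125 * s * t ^ 7 +
      47497800115919 / 934173632812500 * s ^ 2 * t ^ 6 +
      10369313308668919 / 93417363281250000 * s ^ 3 * t ^ 5 +
      27295556250709027 / 186834726562500000 * s ^ 4 * t ^ 4 +
      175276673431277923 / 1494677812500000000 * s ^ 5 * t ^ 3 +
      333288841573329527 / 5978711250000000000 * s ^ 6 * t ^ 2 +
      1071728557652027 / 74733890625000000 * s ^ 7 * t +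
      1477499461983707 / 956593800000000000 * s ^ 8 =
      (1 + 1 / 50 + (1 / 50) ^ 2 / 2) * ((1 + (1 / 100 * (u ^ 2 - 1)) +
      (1 / 100 * (u ^ 2 - 1)) ^ 2 / 2 +
      (1 / 100 * (u ^ 2 - 1)) ^ 3 / 6) *
      (1 + u + 329 / 500 * u ^ 2)) -
      (97387 / 50000 * (1 + (u - 2 / 3) / 3) ^ 3) := by
    rw [hs, ht]
    ring
  rw [e] at h
  linarith

theorem od_three_d45_g1 (u : ℝ) (h1 : 5 / 2 ≤ u) (h2 : u ≤ 4) :
    97387 / 50000 * (1 + (u - 2 / 3) / 3) ^ 3 ≤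
      (1 + 1 / 50 + (1 / 50) ^ 2 / 2) * ((1 + (1 / 100 * (u ^ 2 - 1)) +
      (1 / 100 * (u ^ 2 - 1)) ^ 2 / 2 +
      (1 / 100 * (u ^ 2 - 1)) ^ 3 / 6) *
      (1 + u + 329 / 500 * u ^ 2)) := by
  obtain ⟨s, hs⟩ : ∃ s, s = u - (5 / 2) := ⟨_, rfl⟩
  obtain ⟨t, ht⟩ : ∃ t, t = 4 - u := ⟨_, rfl⟩
  have hs0 : 0 ≤ s := by linarith
  have ht0 : 0 ≤ t := by linarith
  have h : 0 ≤
      1477499461983707 / 956593800000000000 * t ^ 8 +
      3100583079310427 / 298935562500000000 * s * t ^ 7 +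
      167202480391654187 / 5978711250000000000 * s ^ 2 * t ^ 6 +
      29167748910950099 / 747338906250000000 * s ^ 3 * t ^ 5 +
      48874474912971941 / 1494677812500000000 * s ^ 4 * t ^ 4 +
      274468442503253 / 11677170410156250 * s ^ 5 * t ^ 3 +
      1472625064903093 / 74733890625000000 * s ^ 6 * t ^ 2 +
      22604983041191 / 1868347265625000 * s ^ 7 * t + 577292287621 / 186834726562500 * s ^ 8 := by
    positivity
  have e :
      1477499461983707 / 956593800000000000 * t ^ 8 +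
      3100583079310427 / 298935562500000000 * s * t ^ 7 +
      167202480391654187 / 5978711250000000000 * s ^ 2 * t ^ 6 +
      29167748910950099 / 747338906250000000 * s ^ 3 * t ^ 5 +
      48874474912971941 / 1494677812500000000 * s ^ 4 * t ^ 4 +
      274468442503253 / 11677170410156250 * s ^ 5 * t ^ 3 +
      1472625064903093 / 74733890625000000 * s ^ 6 * t ^ 2 +
      22604983041191 / 1868347265625000 * s ^ 7 * t + 577292287621 / 186834726562500 * s ^ 8 =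
      (1 + 1 / 50 + (1 / 50) ^ 2 / 2) * ((1 + (1 / 100 * (u ^ 2 - 1)) +
      (1 / 100 * (u ^ 2 - 1)) ^ 2 / 2 +
      (1 / 100 * (u ^ 2 - 1)) ^ 3 / 6) *
      (1 + u + 329 / 500 * u ^ 2)) -
      (97387 / 50000 * (1 + (u - 2 / 3) / 3) ^ 3) := by
    rw [hs, ht]
    ring
  rw [e] at h
  linarith

theorem od_three_d45_t (u : ℝ) (h1 : 4 ≤ u) :
    97387 / 50000 * (1 + (u - 2 / 3) / 3) ^ 3 ≤
      (1 + 1 / 50 + (1 / 50) ^ 2 / 2) * ((1 + (1 / 100 * (u ^ 2 - 1)) +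
      (1 / 100 * (u ^ 2 - 1)) ^ 2 / 2 +
      (1 / 100 * (u ^ 2 - 1)) ^ 3 / 6) *
      (1 + u + 329 / 500 * u ^ 2)) := by
  obtain ⟨s, hs⟩ : ∃ s, s = u - (4) := ⟨_, rfl⟩
  have hs0 : 0 ≤ s := by linarith
  have h : 0 ≤
      577292287621 / 7290000000000 + 873274072907 / 4050000000000 * s +
      6621001788991 / 27000000000000 * s ^ 2 + 3505877385143 / 33750000000000 * s ^ 3 +
      90540857529 / 5000000000000 * s ^ 4 + 4913216887 / 3750000000000 * s ^ 5 +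
      88283007 / 1000000000000 * s ^ 6 + 4687819 / 1250000000000 * s ^ 7 +
      1678229 / 15000000000000 * s ^ 8 := by
    positivity
  have e :
      577292287621 / 7290000000000 + 873274072907 / 4050000000000 * s +
      6621001788991 / 27000000000000 * s ^ 2 + 3505877385143 / 33750000000000 * s ^ 3 +
      90540857529 / 5000000000000 * s ^ 4 + 4913216887 / 3750000000000 * s ^ 5 +
      88283007 / 1000000000000 * s ^ 6 + 4687819 / 1250000000000 * s ^ 7 +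
      1678229 / 15000000000000 * s ^ 8 =
      (1 + 1 / 50 + (1 / 50) ^ 2 / 2) * ((1 + (1 / 100 * (u ^ 2 - 1)) +
      (1 / 100 * (u ^ 2 - 1)) ^ 2 / 2 +
      (1 / 100 * (u ^ 2 - 1)) ^ 3 / 6) *
      (1 + u + 329 / 500 * u ^ 2)) -
      (97387 / 50000 * (1 + (u - 2 / 3) / 3) ^ 3) := by
    rw [hs]
    ring
  rw [e] at h
  linarith

/-- `K = 3`: `(c, μ, P, δ) = (329 / 500, 1 / 100, 2 / 3, 1 / 50)` -/
theorem expOd_three_d45 : ExpOd 3 (329 / 500) (1 / 100) (2 / 3) (1 / 50) := by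
  have hde : (1 + 1 / 50 + (1 / 50) ^ 2 / 2) ≤ Real.exp (1 / 50) := Real.quadratic_le_exp_of_nonneg (by norm_num)
  have hq : ∀ u : ℝ, 0 ≤ 1 + u + 329 / 500 * u ^ 2 := fun u => by
    nlinarith [sq_nonneg (u + 2), sq_nonneg u]
  have hR : ∀ (u x y : ℝ), x ≤ y → y ≤ (1 + 1 / 50 + (1 / 50) ^ 2 / 2) * (1 + u + 329 / 500 * u ^ 2) →
      x ≤ Real.exp (1 / 50) * (1 + u + 329 / 500 * u ^ 2) := fun u x y h1 h2 =>
    (h1.trans h2).trans (mul_le_mul_of_nonneg_right hde (hq u))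
  refine ExpOd.of (by norm_num) (by norm_num) (by norm_num) (by norm_num) (by norm_num) ?_ ?_ ?_
  · intro u h1
    rcases le_total u (-3) with h3 | h3
    · exact hR u _ _ (exp_le_n3 h3) (od_three_d45_d u h3)
    rcases le_total u (-2) with h4 | h4
    · refine hR u _ _ (exp_le_n2 h4) ?_
      exact od_three_d45_c0 u (by linarith) (by linarith)
    rcases le_total u (-1) with h5 | h5
    · refine hR u _ _ (exp_le_n1 h5) ?_
      exact od_three_d45_b0 u (by linarith) (by linarith)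
    rcases le_total u 0 with h6 | h6
    · refine hR u _ _ (exp_le_n0 h6) ?_
      exact od_three_d45_a0 u (by linarith) (by linarith)
    refine hR u _ _ (exp_le_p h6 (by linarith)) ?_
    exact od_three_d45_e0 u (by linarith) (by linarith)
  · intro u h1 h2
    have h4 : 0 ≤ (1 + (u - 2 / 3) / 3) ^ 3 := by
      have : 0 ≤ (u - 2 / 3) / 3 := div_nonneg (by linarith) (by norm_num)
      positivity
    have hE : Real.exp (2 / 3) ≤ 97387 / 50000 := exp_up_2_3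
    push_cast
    refine hR u _ _ (mul_le_mul_of_nonneg_right hE h4) ?_
    exact od_three_d45_f0 u (by linarith) (by linarith)
  · intro u h1
    have h4 : 0 ≤ (1 + (u - 2 / 3) / 3) ^ 3 := by
      have : 0 ≤ (u - 2 / 3) / 3 := div_nonneg (by linarith) (by norm_num)
      positivity
    have hE : Real.exp (2 / 3) ≤ 97387 / 50000 := exp_up_2_3
    have hx : 0 ≤ 1 / 100 * (u ^ 2 - 1) := mul_nonneg (by norm_num) (by nlinarith)
    have h5 := mul_le_mul_of_nonneg_right (taylor3_le_exp _ hx) (hq u)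
    have h6 : 0 ≤ Real.exp (1 / 100 * (u ^ 2 - 1)) * (1 + u + 329 / 500 * u ^ 2) :=
      mul_nonneg (Real.exp_nonneg _) (hq u)
    rw [Real.exp_add, mul_assoc]
    push_cast
    refine ((mul_le_mul_of_nonneg_right hE h4).trans ?_).trans
      ((mul_le_mul_of_nonneg_left h5 (by norm_num : (0 : ℝ) ≤ (1 + 1 / 50 + (1 / 50) ^ 2 / 2))).trans
        (mul_le_mul_of_nonneg_right hde h6))
    rcases le_total u (5 / 2) with hh | hh
    · exact od_three_d45_g0 u (by linarith) (by linarith)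
    rcases le_total u (4) with hh | hh
    · exact od_three_d45_g1 u (by linarith) (by linarith)
    exact od_three_d45_t u (by linarith)

theorem od_three_d46_a0 (u : ℝ) (h1 : -1 ≤ u) (h2 : u ≤ 0) :
    1 + u + u ^ 2 / 2 + u ^ 3 / 6 + u ^ 4 / 24 ≤
      (1 + 1 / 20 + (1 / 20) ^ 2 / 2) * (1 + u + 157 / 250 * u ^ 2) := by
  obtain ⟨s, hs⟩ : ∃ s, s = u - (-1) := ⟨_, rfl⟩
  obtain ⟨t, ht⟩ : ∃ t, t = 0 - u := ⟨_, rfl⟩
  have hs0 : 0 ≤ s := by linarith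
  have ht0 : 0 ≤ t := by linarith
  have h : 0 ≤
      57037 / 200000 * t ^ 4 + 80743 / 150000 * s * t ^ 3 + 62787 / 200000 * s ^ 2 * t ^ 2 +
      123 / 800 * s ^ 3 * t + 41 / 800 * s ^ 4 := by
    positivity
  have e :
      57037 / 200000 * t ^ 4 + 80743 / 150000 * s * t ^ 3 + 62787 / 200000 * s ^ 2 * t ^ 2 +
      123 / 800 * s ^ 3 * t + 41 / 800 * s ^ 4 =
      (1 + 1 / 20 + (1 / 20) ^ 2 / 2) * (1 + u + 157 / 250 * u ^ 2) -
      (1 + u + u ^ 2 / 2 + u ^ 3 / 6 + u ^ 4 / 24) := by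
    rw [hs, ht]
    ring
  rw [e] at h
  linarith

theorem od_three_d46_b0 (u : ℝ) (h1 : -2 ≤ u) (h2 : u ≤ -1) :
    36788 / 100000 *
      (1 + (u + 1) + (u + 1) ^ 2 / 2 + (u + 1) ^ 3 / 6 + (u + 1) ^ 4 / 24) ≤
      (1 + 1 / 20 + (1 / 20) ^ 2 / 2) * (1 + u + 157 / 250 * u ^ 2) := by
  obtain ⟨s, hs⟩ : ∃ s, s = u - (-2) := ⟨_, rfl⟩
  obtain ⟨t, ht⟩ : ∃ t, t = -1 - u := ⟨_, rfl⟩
  have hs0 : 0 ≤ s := by linarith
  have ht0 : 0 ≤ t := by linarith
  have h : 0 ≤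
      290307 / 200000 * t ^ 4 + 1228207 / 300000 * s * t ^ 3 +
      165643 / 40000 * s ^ 2 * t ^ 2 + 90311 / 50000 * s ^ 3 * t + 58461 / 200000 * s ^ 4 := by
    positivity
  have e :
      290307 / 200000 * t ^ 4 + 1228207 / 300000 * s * t ^ 3 +
      165643 / 40000 * s ^ 2 * t ^ 2 + 90311 / 50000 * s ^ 3 * t + 58461 / 200000 * s ^ 4 =
      (1 + 1 / 20 + (1 / 20) ^ 2 / 2) * (1 + u + 157 / 250 * u ^ 2) -
      (36788 / 100000 *
      (1 + (u + 1) + (u + 1) ^ 2 / 2 + (u + 1) ^ 3 / 6 + (u + 1) ^ 4 / 24)) := by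
    rw [hs, ht]
    ring
  rw [e] at h
  linarith

theorem od_three_d46_c0 (u : ℝ) (h1 : -3 ≤ u) (h2 : u ≤ -2) :
    13534 / 100000 *
      (1 + (u + 2) + (u + 2) ^ 2 / 2 + (u + 2) ^ 3 / 6 + (u + 2) ^ 4 / 24) ≤
      (1 + 1 / 20 + (1 / 20) ^ 2 / 2) * (1 + u + 157 / 250 * u ^ 2) := by
  obtain ⟨s, hs⟩ : ∃ s, s = u - (-3) := ⟨_, rfl⟩
  obtain ⟨t, ht⟩ : ∃ t, t = -2 - u := ⟨_, rfl⟩
  have hs0 : 0 ≤ s := by linarith
  have ht0 : 0 ≤ t := by linarith
  have h : 0 ≤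
      303073 / 80000 * t ^ 4 + 3659603 / 300000 * s * t ^ 3 +
      2898381 / 200000 * s ^ 2 * t ^ 2 + 754143 / 100000 * s ^ 3 * t + 29083 / 20000 * s ^ 4 := by
    positivity
  have e :
      303073 / 80000 * t ^ 4 + 3659603 / 300000 * s * t ^ 3 +
      2898381 / 200000 * s ^ 2 * t ^ 2 + 754143 / 100000 * s ^ 3 * t + 29083 / 20000 * s ^ 4 =
      (1 + 1 / 20 + (1 / 20) ^ 2 / 2) * (1 + u + 157 / 250 * u ^ 2) -
      (13534 / 100000 *
      (1 + (u + 2) + (u + 2) ^ 2 / 2 + (u + 2) ^ 3 / 6 + (u + 2) ^ 4 / 24)) := by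
    rw [hs, ht]
    ring
  rw [e] at h
  linarith

theorem od_three_d46_d (u : ℝ) (h2 : u ≤ -3) :
    4979 / 100000 ≤
      (1 + 1 / 20 + (1 / 20) ^ 2 / 2) * (1 + u + 157 / 250 * u ^ 2) := by
  obtain ⟨s, hs⟩ : ∃ s, s = -3 - u := ⟨_, rfl⟩
  have hs0 : 0 ≤ s := by linarith
  have h : 0 ≤
      6063 / 1600 + 145493 / 50000 * s + 132037 / 200000 * s ^ 2 := by
    positivity
  have e :
      6063 / 1600 + 145493 / 50000 * s + 132037 / 200000 * s ^ 2 =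
      (1 + 1 / 20 + (1 / 20) ^ 2 / 2) * (1 + u + 157 / 250 * u ^ 2) -
      (4979 / 100000) := by
    rw [hs]
    ring
  rw [e] at h
  linarith

theorem od_three_d46_e0 (u : ℝ) (h1 : 0 ≤ u) (h2 : u ≤ 2 / 3) :
    1 + u + u ^ 2 / 2 + u ^ 3 / 6 + u ^ 4 / 24 + u ^ 5 / 100 ≤
      (1 + 1 / 20 + (1 / 20) ^ 2 / 2) * (1 + u + 157 / 250 * u ^ 2) := by
  obtain ⟨s, hs⟩ : ∃ s, s = u - (0) := ⟨_, rfl⟩
  obtain ⟨t, ht⟩ : ∃ t, t = 2 / 3 - u := ⟨_, rfl⟩
  have hs0 : 0 ≤ s := by linarith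
  have ht0 : 0 ≤ t := by linarith
  have h : 0 ≤
      9963 / 25600 * t ^ 5 + 56457 / 25600 * s * t ^ 4 + 4376187 / 800000 * s ^ 2 * t ^ 3 +
      5356311 / 800000 * s ^ 3 * t ^ 2 + 12137869 / 3200000 * s ^ 4 * t +
      2373623 / 3200000 * s ^ 5 := by
    positivity
  have e :
      9963 / 25600 * t ^ 5 + 56457 / 25600 * s * t ^ 4 + 4376187 / 800000 * s ^ 2 * t ^ 3 +
      5356311 / 800000 * s ^ 3 * t ^ 2 + 12137869 / 3200000 * s ^ 4 * t +
      2373623 / 3200000 * s ^ 5 =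
      (1 + 1 / 20 + (1 / 20) ^ 2 / 2) * (1 + u + 157 / 250 * u ^ 2) -
      (1 + u + u ^ 2 / 2 + u ^ 3 / 6 + u ^ 4 / 24 + u ^ 5 / 100) := by
    rw [hs, ht]
    ring
  rw [e] at h
  linarith

theorem od_three_d46_f0 (u : ℝ) (h1 : 2 / 3 ≤ u) (h2 : u ≤ 1) :
    97387 / 50000 * (1 + (u - 2 / 3) / 3) ^ 3 ≤
      (1 + 1 / 20 + (1 / 20) ^ 2 / 2) * (1 + u + 157 / 250 * u ^ 2) := by
  obtain ⟨s, hs⟩ : ∃ s, s = u - (2 / 3) := ⟨_, rfl⟩
  obtain ⟨t, ht⟩ : ∃ t, t = 1 - u := ⟨_, rfl⟩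
  have hs0 : 0 ≤ s := by linarith
  have ht0 : 0 ≤ t := by linarith
  have h : 0 ≤
      263949 / 100000 * t ^ 3 + 194307 / 25000 * s * t ^ 2 + 1531781 / 200000 * s ^ 2 * t +
      13251473 / 5400000 * s ^ 3 := by
    positivity
  have e :
      263949 / 100000 * t ^ 3 + 194307 / 25000 * s * t ^ 2 + 1531781 / 200000 * s ^ 2 * t +
      13251473 / 5400000 * s ^ 3 =
      (1 + 1 / 20 + (1 / 20) ^ 2 / 2) * (1 + u + 157 / 250 * u ^ 2) -
      (97387 / 50000 * (1 + (u - 2 / 3) / 3) ^ 3) := by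
    rw [hs, ht]
    ring
  rw [e] at h
  linarith

theorem od_three_d46_g0 (u : ℝ) (h1 : 1 ≤ u) (h2 : u ≤ 5 / 2) :
    97387 / 50000 * (1 + (u - 2 / 3) / 3) ^ 3 ≤
      (1 + 1 / 20 + (1 / 20) ^ 2 / 2) * ((1 + (1 / 100 * (u ^ 2 - 1)) +
      (1 / 100 * (u ^ 2 - 1)) ^ 2 / 2 +
      (1 / 100 * (u ^ 2 - 1)) ^ 3 / 6) *
      (1 + u + 157 / 250 * u ^ 2)) := by
  obtain ⟨s, hs⟩ : ∃ s, s = u - (1) := ⟨_, rfl⟩
  obtain ⟨t, ht⟩ : ∃ t, t = 5 / 2 - u := ⟨_, rfl⟩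
  have hs0 : 0 ≤ s := by linarith
  have ht0 : 0 ≤ t := by linarith
  have h : 0 ≤
      53005892 / 14946778125 * t ^ 8 + 11087926219 / 373669453125 * s * t ^ 7 +
      8196826346107 / 74733890625000 * s ^ 2 * t ^ 6 +
      1711685578717607 / 7473389062500000 * s ^ 3 * t ^ 5 +
      4360776381986381 / 14946778125000000 * s ^ 4 * t ^ 4 +
      27544637029770719 / 119574225000000000 * s ^ 5 * t ^ 3 +
      52408097401326631 / 478296900000000000 * s ^ 6 * t ^ 2 +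
      2740139963506471 / 95659380000000000 * s ^ 7 * t +
      241744700526871 / 76527504000000000 * s ^ 8 := by
    positivity
  have e :
      53005892 / 14946778125 * t ^ 8 + 11087926219 / 373669453125 * s * t ^ 7 +
      8196826346107 / 74733890625000 * s ^ 2 * t ^ 6 +
      1711685578717607 / 7473389062500000 * s ^ 3 * t ^ 5 +
      4360776381986381 / 14946778125000000 * s ^ 4 * t ^ 4 +
      27544637029770719 / 119574225000000000 * s ^ 5 * t ^ 3 +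
      52408097401326631 / 478296900000000000 * s ^ 6 * t ^ 2 +
      2740139963506471 / 95659380000000000 * s ^ 7 * t +
      241744700526871 / 76527504000000000 * s ^ 8 =
      (1 + 1 / 20 + (1 / 20) ^ 2 / 2) * ((1 + (1 / 100 * (u ^ 2 - 1)) +
      (1 / 100 * (u ^ 2 - 1)) ^ 2 / 2 +
      (1 / 100 * (u ^ 2 - 1)) ^ 3 / 6) *
      (1 + u + 157 / 250 * u ^ 2)) -
      (97387 / 50000 * (1 + (u - 2 / 3) / 3) ^ 3) := by
    rw [hs, ht]
    ring
  rw [e] at h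
  linarith

theorem od_three_d46_g1 (u : ℝ) (h1 : 5 / 2 ≤ u) (h2 : u ≤ 4) :
    97387 / 50000 * (1 + (u - 2 / 3) / 3) ^ 3 ≤
      (1 + 1 / 20 + (1 / 20) ^ 2 / 2) * ((1 + (1 / 100 * (u ^ 2 - 1)) +
      (1 / 100 * (u ^ 2 - 1)) ^ 2 / 2 +
      (1 / 100 * (u ^ 2 - 1)) ^ 3 / 6) *
      (1 + u + 157 / 250 * u ^ 2)) := by
  obtain ⟨s, hs⟩ : ∃ s, s = u - (5 / 2) := ⟨_, rfl⟩
  obtain ⟨t, ht⟩ : ∃ t, t = 4 - u := ⟨_, rfl⟩
  have hs0 : 0 ≤ s := by linarith
  have ht0 : 0 ≤ t := by linarith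
  have h : 0 ≤
      241744700526871 / 76527504000000000 * t ^ 8 +
      2094754047030949 / 95659380000000000 * s * t ^ 7 +
      29819590324683361 / 478296900000000000 * s ^ 2 * t ^ 6 +
      11186249374839419 / 119574225000000000 * s ^ 3 * t ^ 5 +
      9565540472842723 / 119574225000000000 * s ^ 4 * t ^ 4 +
      1257080267648063 / 29893556250000000 * s ^ 5 * t ^ 3 +
      107232288300479 / 5978711250000000 * s ^ 6 * t ^ 2 +
      2393822652821 / 298935562500000 * s ^ 7 * t + 61936326901 / 29893556250000 * s ^ 8 := by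
    positivity
  have e :
      241744700526871 / 76527504000000000 * t ^ 8 +
      2094754047030949 / 95659380000000000 * s * t ^ 7 +
      29819590324683361 / 478296900000000000 * s ^ 2 * t ^ 6 +
      11186249374839419 / 119574225000000000 * s ^ 3 * t ^ 5 +
      9565540472842723 / 119574225000000000 * s ^ 4 * t ^ 4 +
      1257080267648063 / 29893556250000000 * s ^ 5 * t ^ 3 +
      107232288300479 / 5978711250000000 * s ^ 6 * t ^ 2 +
      2393822652821 / 298935562500000 * s ^ 7 * t + 61936326901 / 29893556250000 * s ^ 8 =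
      (1 + 1 / 20 + (1 / 20) ^ 2 / 2) * ((1 + (1 / 100 * (u ^ 2 - 1)) +
      (1 / 100 * (u ^ 2 - 1)) ^ 2 / 2 +
      (1 / 100 * (u ^ 2 - 1)) ^ 3 / 6) *
      (1 + u + 157 / 250 * u ^ 2)) -
      (97387 / 50000 * (1 + (u - 2 / 3) / 3) ^ 3) := by
    rw [hs, ht]
    ring
  rw [e] at h
  linarith

theorem od_three_d46_t (u : ℝ) (h1 : 4 ≤ u) :
    97387 / 50000 * (1 + (u - 2 / 3) / 3) ^ 3 ≤
      (1 + 1 / 20 + (1 / 20) ^ 2 / 2) * ((1 + (1 / 100 * (u ^ 2 - 1)) +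
      (1 / 100 * (u ^ 2 - 1)) ^ 2 / 2 +
      (1 / 100 * (u ^ 2 - 1)) ^ 3 / 6) *
      (1 + u + 157 / 250 * u ^ 2)) := by
  obtain ⟨s, hs⟩ : ∃ s, s = u - (4) := ⟨_, rfl⟩
  have hs0 : 0 ≤ s := by linarith
  have h : 0 ≤
      61936326901 / 1166400000000 + 94854944417 / 648000000000 * s +
      489467273873 / 2160000000000 * s ^ 2 + 550473411383 / 5400000000000 * s ^ 3 +
      7151281187 / 400000000000 * s ^ 4 + 776257297 / 600000000000 * s ^ 5 +
      6964321 / 80000000000 * s ^ 6 + 739239 / 200000000000 * s ^ 7 +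
      132037 / 1200000000000 * s ^ 8 := by
    positivity
  have e :
      61936326901 / 1166400000000 + 94854944417 / 648000000000 * s +
      489467273873 / 2160000000000 * s ^ 2 + 550473411383 / 5400000000000 * s ^ 3 +
      7151281187 / 400000000000 * s ^ 4 + 776257297 / 600000000000 * s ^ 5 +
      6964321 / 80000000000 * s ^ 6 + 739239 / 200000000000 * s ^ 7 +
      132037 / 1200000000000 * s ^ 8 =
      (1 + 1 / 20 + (1 / 20) ^ 2 / 2) * ((1 + (1 / 100 * (u ^ 2 - 1)) +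
      (1 / 100 * (u ^ 2 - 1)) ^ 2 / 2 +
      (1 / 100 * (u ^ 2 - 1)) ^ 3 / 6) *
      (1 + u + 157 / 250 * u ^ 2)) -
      (97387 / 50000 * (1 + (u - 2 / 3) / 3) ^ 3) := by
    rw [hs]
    ring
  rw [e] at h
  linarith

/-- `K = 3`: `(c, μ, P, δ) = (157 / 250, 1 / 100, 2 / 3, 1 / 20)` -/
theorem expOd_three_d46 : ExpOd 3 (157 / 250) (1 / 100) (2 / 3) (1 / 20) := by
  have hde : (1 + 1 / 20 + (1 / 20) ^ 2 / 2) ≤ Real.exp (1 / 20) := Real.quadratic_le_exp_of_nonneg (by norm_num)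
  have hq : ∀ u : ℝ, 0 ≤ 1 + u + 157 / 250 * u ^ 2 := fun u => by
    nlinarith [sq_nonneg (u + 2), sq_nonneg u]
  have hR : ∀ (u x y : ℝ), x ≤ y → y ≤ (1 + 1 / 20 + (1 / 20) ^ 2 / 2) * (1 + u + 157 / 250 * u ^ 2) →
      x ≤ Real.exp (1 / 20) * (1 + u + 157 / 250 * u ^ 2) := fun u x y h1 h2 =>
    (h1.trans h2).trans (mul_le_mul_of_nonneg_right hde (hq u))
  refine ExpOd.of (by norm_num) (by norm_num) (by norm_num) (by norm_num) (by norm_num) ?_ ?_ ?_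
  · intro u h1
    rcases le_total u (-3) with h3 | h3
    · exact hR u _ _ (exp_le_n3 h3) (od_three_d46_d u h3)
    rcases le_total u (-2) with h4 | h4
    · refine hR u _ _ (exp_le_n2 h4) ?_
      exact od_three_d46_c0 u (by linarith) (by linarith)
    rcases le_total u (-1) with h5 | h5
    · refine hR u _ _ (exp_le_n1 h5) ?_
      exact od_three_d46_b0 u (by linarith) (by linarith)
    rcases le_total u 0 with h6 | h6
    · refine hR u _ _ (exp_le_n0 h6) ?_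
      exact od_three_d46_a0 u (by linarith) (by linarith)
    refine hR u _ _ (exp_le_p h6 (by linarith)) ?_
    exact od_three_d46_e0 u (by linarith) (by linarith)
  · intro u h1 h2
    have h4 : 0 ≤ (1 + (u - 2 / 3) / 3) ^ 3 := by
      have : 0 ≤ (u - 2 / 3) / 3 := div_nonneg (by linarith) (by norm_num)
      positivity
    have hE : Real.exp (2 / 3) ≤ 97387 / 50000 := exp_up_2_3
    push_cast
    refine hR u _ _ (mul_le_mul_of_nonneg_right hE h4) ?_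
    exact od_three_d46_f0 u (by linarith) (by linarith)
  · intro u h1
    have h4 : 0 ≤ (1 + (u - 2 / 3) / 3) ^ 3 := by
      have : 0 ≤ (u - 2 / 3) / 3 := div_nonneg (by linarith) (by norm_num)
      positivity
    have hE : Real.exp (2 / 3) ≤ 97387 / 50000 := exp_up_2_3
    have hx : 0 ≤ 1 / 100 * (u ^ 2 - 1) := mul_nonneg (by norm_num) (by nlinarith)
    have h5 := mul_le_mul_of_nonneg_right (taylor3_le_exp _ hx) (hq u)
    have h6 : 0 ≤ Real.exp (1 / 100 * (u ^ 2 - 1)) * (1 + u + 157 / 250 * u ^ 2) :=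
      mul_nonneg (Real.exp_nonneg _) (hq u)
    rw [Real.exp_add, mul_assoc]
    push_cast
    refine ((mul_le_mul_of_nonneg_right hE h4).trans ?_).trans
      ((mul_le_mul_of_nonneg_left h5 (by norm_num : (0 : ℝ) ≤ (1 + 1 / 20 + (1 / 20) ^ 2 / 2))).trans
        (mul_le_mul_of_nonneg_right hde h6))
    rcases le_total u (5 / 2) with hh | hh
    · exact od_three_d46_g0 u (by linarith) (by linarith)
    rcases le_total u (4) with hh | hh
    · exact od_three_d46_g1 u (by linarith) (by linarith)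
    exact od_three_d46_t u (by linarith)

theorem od_three_d47_a0 (u : ℝ) (h1 : -1 ≤ u) (h2 : u ≤ 0) :
    1 + u + u ^ 2 / 2 + u ^ 3 / 6 + u ^ 4 / 24 ≤
      (1 + 1 / 10 + (1 / 10) ^ 2 / 2) * (1 + u + 533 / 1000 * u ^ 2) := by
  obtain ⟨s, hs⟩ : ∃ s, s = u - (-1) := ⟨_, rfl⟩
  obtain ⟨t, ht⟩ : ∃ t, t = 0 - u := ⟨_, rfl⟩
  have hs0 : 0 ≤ s := by linarith
  have ht0 : 0 ≤ t := by linarith
  have h : 0 ≤
      42793 / 200000 * t ^ 4 + 134879 / 300000 * s * t ^ 3 + 80793 / 200000 * s ^ 2 * t ^ 2 +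
      63 / 200 * s ^ 3 * t + 21 / 200 * s ^ 4 := by
    positivity
  have e :
      42793 / 200000 * t ^ 4 + 134879 / 300000 * s * t ^ 3 + 80793 / 200000 * s ^ 2 * t ^ 2 +
      63 / 200 * s ^ 3 * t + 21 / 200 * s ^ 4 =
      (1 + 1 / 10 + (1 / 10) ^ 2 / 2) * (1 + u + 533 / 1000 * u ^ 2) -
      (1 + u + u ^ 2 / 2 + u ^ 3 / 6 + u ^ 4 / 24) := by
    rw [hs, ht]
    ring
  rw [e] at h
  linarith

theorem od_three_d47_b0 (u : ℝ) (h1 : -2 ≤ u) (h2 : u ≤ -1) :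
    36788 / 100000 *
      (1 + (u + 1) + (u + 1) ^ 2 / 2 + (u + 1) ^ 3 / 6 + (u + 1) ^ 4 / 24) ≤
      (1 + 1 / 10 + (1 / 10) ^ 2 / 2) * (1 + u + 533 / 1000 * u ^ 2) := by
  obtain ⟨s, hs⟩ : ∃ s, s = u - (-2) := ⟨_, rfl⟩
  obtain ⟨t, ht⟩ : ∃ t, t = -1 - u := ⟨_, rfl⟩
  have hs0 : 0 ≤ s := by linarith
  have ht0 : 0 ≤ t := by linarith
  have h : 0 ≤
      222581 / 200000 * t ^ 4 + 11543 / 3750 * s * t ^ 3 + 610793 / 200000 * s ^ 2 * t ^ 2 +
      26503 / 20000 * s ^ 3 * t + 44217 / 200000 * s ^ 4 := by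
    positivity
  have e :
      222581 / 200000 * t ^ 4 + 11543 / 3750 * s * t ^ 3 + 610793 / 200000 * s ^ 2 * t ^ 2 +
      26503 / 20000 * s ^ 3 * t + 44217 / 200000 * s ^ 4 =
      (1 + 1 / 10 + (1 / 10) ^ 2 / 2) * (1 + u + 533 / 1000 * u ^ 2) -
      (36788 / 100000 *
      (1 + (u + 1) + (u + 1) ^ 2 / 2 + (u + 1) ^ 3 / 6 + (u + 1) ^ 4 / 24)) := by
    rw [hs, ht]
    ring
  rw [e] at h
  linarith

theorem od_three_d47_c0 (u : ℝ) (h1 : -3 ≤ u) (h2 : u ≤ -2) :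
    13534 / 100000 *
      (1 + (u + 2) + (u + 2) ^ 2 / 2 + (u + 2) ^ 3 / 6 + (u + 2) ^ 4 / 24) ≤
      (1 + 1 / 10 + (1 / 10) ^ 2 / 2) * (1 + u + 533 / 1000 * u ^ 2) := by
  obtain ⟨s, hs⟩ : ∃ s, s = u - (-3) := ⟨_, rfl⟩
  obtain ⟨t, ht⟩ : ∃ t, t = -2 - u := ⟨_, rfl⟩
  have hs0 : 0 ≤ s := by linarith
  have ht0 : 0 ≤ t := by linarith
  have h : 0 ≤
      1215973 / 400000 * t ^ 4 + 726437 / 75000 * s * t ^ 3 +
      2274603 / 200000 * s ^ 2 * t ^ 2 + 146207 / 25000 * s ^ 3 * t + 3486 / 3125 * s ^ 4 := by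
    positivity
  have e :
      1215973 / 400000 * t ^ 4 + 726437 / 75000 * s * t ^ 3 +
      2274603 / 200000 * s ^ 2 * t ^ 2 + 146207 / 25000 * s ^ 3 * t + 3486 / 3125 * s ^ 4 =
      (1 + 1 / 10 + (1 / 10) ^ 2 / 2) * (1 + u + 533 / 1000 * u ^ 2) -
      (13534 / 100000 *
      (1 + (u + 2) + (u + 2) ^ 2 / 2 + (u + 2) ^ 3 / 6 + (u + 2) ^ 4 / 24)) := by
    rw [hs, ht]
    ring
  rw [e] at h
  linarith

theorem od_three_d47_d (u : ℝ) (h2 : u ≤ -3) :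
    4979 / 100000 ≤
      (1 + 1 / 10 + (1 / 10) ^ 2 / 2) * (1 + u + 533 / 1000 * u ^ 2) := by
  obtain ⟨s, hs⟩ : ∃ s, s = -3 - u := ⟨_, rfl⟩
  have hs0 : 0 ≤ s := by linarith
  have h : 0 ≤
      608179 / 200000 + 242879 / 100000 * s + 117793 / 200000 * s ^ 2 := by
    positivity
  have e :
      608179 / 200000 + 242879 / 100000 * s + 117793 / 200000 * s ^ 2 =
      (1 + 1 / 10 + (1 / 10) ^ 2 / 2) * (1 + u + 533 / 1000 * u ^ 2) -
      (4979 / 100000) := by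
    rw [hs]
    ring
  rw [e] at h
  linarith

theorem od_three_d47_e0 (u : ℝ) (h1 : 0 ≤ u) (h2 : u ≤ 2 / 3) :
    1 + u + u ^ 2 / 2 + u ^ 3 / 6 + u ^ 4 / 24 + u ^ 5 / 100 ≤
      (1 + 1 / 10 + (1 / 10) ^ 2 / 2) * (1 + u + 533 / 1000 * u ^ 2) := by
  obtain ⟨s, hs⟩ : ∃ s, s = u - (0) := ⟨_, rfl⟩
  obtain ⟨t, ht⟩ : ∃ t, t = 2 / 3 - u := ⟨_, rfl⟩
  have hs0 : 0 ≤ s := by linarith
  have ht0 : 0 ≤ t := by linarith
  have h : 0 ≤
      5103 / 6400 * t ^ 5 + 28917 / 6400 * s * t ^ 4 + 16639911 / 1600000 * s ^ 2 * t ^ 3 +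
      18701733 / 1600000 * s ^ 3 * t ^ 2 + 9921983 / 1600000 * s ^ 4 * t +
      1890661 / 1600000 * s ^ 5 := by
    positivity
  have e :
      5103 / 6400 * t ^ 5 + 28917 / 6400 * s * t ^ 4 + 16639911 / 1600000 * s ^ 2 * t ^ 3 +
      18701733 / 1600000 * s ^ 3 * t ^ 2 + 9921983 / 1600000 * s ^ 4 * t +
      1890661 / 1600000 * s ^ 5 =
      (1 + 1 / 10 + (1 / 10) ^ 2 / 2) * (1 + u + 533 / 1000 * u ^ 2) -
      (1 + u + u ^ 2 / 2 + u ^ 3 / 6 + u ^ 4 / 24 + u ^ 5 / 100) := by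
    rw [hs, ht]
    ring
  rw [e] at h
  linarith

theorem od_three_d47_f0 (u : ℝ) (h1 : 2 / 3 ≤ u) (h2 : u ≤ 1) :
    97387 / 50000 * (1 + (u - 2 / 3) / 3) ^ 3 ≤
      (1 + 1 / 10 + (1 / 10) ^ 2 / 2) * (1 + u + 533 / 1000 * u ^ 2) := by
  obtain ⟨s, hs⟩ : ∃ s, s = u - (2 / 3) := ⟨_, rfl⟩
  obtain ⟨t, ht⟩ : ∃ t, t = 1 - u := ⟨_, rfl⟩
  have hs0 : 0 ≤ s := by linarith
  have ht0 : 0 ≤ t := by linarith
  have h : 0 ≤
      10509 / 2500 * t ^ 3 + 302343 / 25000 * s * t ^ 2 + 2279159 / 200000 * s ^ 2 * t +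
      18541097 / 5400000 * s ^ 3 := by
    positivity
  have e :
      10509 / 2500 * t ^ 3 + 302343 / 25000 * s * t ^ 2 + 2279159 / 200000 * s ^ 2 * t +
      18541097 / 5400000 * s ^ 3 =
      (1 + 1 / 10 + (1 / 10) ^ 2 / 2) * (1 + u + 533 / 1000 * u ^ 2) -
      (97387 / 50000 * (1 + (u - 2 / 3) / 3) ^ 3) := by
    rw [hs, ht]
    ring
  rw [e] at h
  linarith

theorem od_three_d47_g0 (u : ℝ) (h1 : 1 ≤ u) (h2 : u ≤ 3) :
    97387 / 50000 * (1 + (u - 2 / 3) / 3) ^ 3 ≤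
      (1 + 1 / 10 + (1 / 10) ^ 2 / 2) * ((1 + (3 / 200 * (u ^ 2 - 1)) +
      (3 / 200 * (u ^ 2 - 1)) ^ 2 / 2 +
      (3 / 200 * (u ^ 2 - 1)) ^ 3 / 6) *
      (1 + u + 533 / 1000 * u ^ 2)) := by
  obtain ⟨s, hs⟩ : ∃ s, s = u - (1) := ⟨_, rfl⟩
  obtain ⟨t, ht⟩ : ∃ t, t = 3 - u := ⟨_, rfl⟩
  have hs0 : 0 ≤ s := by linarith
  have ht0 : 0 ≤ t := by linarith
  have h : 0 ≤
      18541097 / 37324800000 * t ^ 8 + 6866505491 / 1866240000000 * s * t ^ 7 +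
      2150473251073 / 186624000000000 * s ^ 2 * t ^ 6 +
      178506985470673 / 9331200000000000 * s ^ 3 * t ^ 5 +
      5092370882443 / 291600000000000 * s ^ 4 * t ^ 4 +
      75804552147361 / 9331200000000000 * s ^ 5 * t ^ 3 +
      1659281223679 / 1166400000000000 * s ^ 6 * t ^ 2 +
      83782818247 / 2332800000000000 * s ^ 7 * t + 37077054641 / 583200000000000 * s ^ 8 := by
    positivity
  have e :
      18541097 / 37324800000 * t ^ 8 + 6866505491 / 1866240000000 * s * t ^ 7 +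
      2150473251073 / 186624000000000 * s ^ 2 * t ^ 6 +
      178506985470673 / 9331200000000000 * s ^ 3 * t ^ 5 +
      5092370882443 / 291600000000000 * s ^ 4 * t ^ 4 +
      75804552147361 / 9331200000000000 * s ^ 5 * t ^ 3 +
      1659281223679 / 1166400000000000 * s ^ 6 * t ^ 2 +
      83782818247 / 2332800000000000 * s ^ 7 * t + 37077054641 / 583200000000000 * s ^ 8 =
      (1 + 1 / 10 + (1 / 10) ^ 2 / 2) * ((1 + (3 / 200 * (u ^ 2 - 1)) +
      (3 / 200 * (u ^ 2 - 1)) ^ 2 / 2 +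
      (3 / 200 * (u ^ 2 - 1)) ^ 3 / 6) *
      (1 + u + 533 / 1000 * u ^ 2)) -
      (97387 / 50000 * (1 + (u - 2 / 3) / 3) ^ 3) := by
    rw [hs, ht]
    ring
  rw [e] at h
  linarith

theorem od_three_d47_t (u : ℝ) (h1 : 3 ≤ u) :
    97387 / 50000 * (1 + (u - 2 / 3) / 3) ^ 3 ≤
      (1 + 1 / 10 + (1 / 10) ^ 2 / 2) * ((1 + (3 / 200 * (u ^ 2 - 1)) +
      (3 / 200 * (u ^ 2 - 1)) ^ 2 / 2 +
      (3 / 200 * (u ^ 2 - 1)) ^ 3 / 6) *
      (1 + u + 533 / 1000 * u ^ 2)) := by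
  obtain ⟨s, hs⟩ : ∃ s, s = u - (3) := ⟨_, rfl⟩
  have hs0 : 0 ≤ s := by linarith
  have h : 0 ≤
      37077054641 / 2278125000000 + 24504065117 / 405000000000 * s +
      254989364423 / 1350000000000 * s ^ 2 + 1112008548697 / 10800000000000 * s ^ 3 +
      17618053479 / 800000000000 * s ^ 4 + 3082864473 / 1600000000000 * s ^ 5 +
      519759513 / 3200000000000 * s ^ 6 + 857259 / 100000000000 * s ^ 7 +
      1060137 / 3200000000000 * s ^ 8 := by
    positivity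
  have e :
      37077054641 / 2278125000000 + 24504065117 / 405000000000 * s +
      254989364423 / 1350000000000 * s ^ 2 + 1112008548697 / 10800000000000 * s ^ 3 +
      17618053479 / 800000000000 * s ^ 4 + 3082864473 / 1600000000000 * s ^ 5 +
      519759513 / 3200000000000 * s ^ 6 + 857259 / 100000000000 * s ^ 7 +
      1060137 / 3200000000000 * s ^ 8 =
      (1 + 1 / 10 + (1 / 10) ^ 2 / 2) * ((1 + (3 / 200 * (u ^ 2 - 1)) +
      (3 / 200 * (u ^ 2 - 1)) ^ 2 / 2 +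
      (3 / 200 * (u ^ 2 - 1)) ^ 3 / 6) *
      (1 + u + 533 / 1000 * u ^ 2)) -
      (97387 / 50000 * (1 + (u - 2 / 3) / 3) ^ 3) := by
    rw [hs]
    ring
  rw [e] at h
  linarith

/-- `K = 3`: `(c, μ, P, δ) = (533 / 1000, 3 / 200, 2 / 3, 1 / 10)` -/
theorem expOd_three_d47 : ExpOd 3 (533 / 1000) (3 / 200) (2 / 3) (1 / 10) := by
  have hde : (1 + 1 / 10 + (1 / 10) ^ 2 / 2) ≤ Real.exp (1 / 10) := Real.quadratic_le_exp_of_nonneg (by norm_num)
  have hq : ∀ u : ℝ, 0 ≤ 1 + u + 533 / 1000 * u ^ 2 := fun u => by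
    nlinarith [sq_nonneg (u + 2), sq_nonneg u]
  have hR : ∀ (u x y : ℝ), x ≤ y → y ≤ (1 + 1 / 10 + (1 / 10) ^ 2 / 2) * (1 + u + 533 / 1000 * u ^ 2) →
      x ≤ Real.exp (1 / 10) * (1 + u + 533 / 1000 * u ^ 2) := fun u x y h1 h2 =>
    (h1.trans h2).trans (mul_le_mul_of_nonneg_right hde (hq u))
  refine ExpOd.of (by norm_num) (by norm_num) (by norm_num) (by norm_num) (by norm_num) ?_ ?_ ?_
  · intro u h1
    rcases le_total u (-3) with h3 | h3
    · exact hR u _ _ (exp_le_n3 h3) (od_three_d47_d u h3)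
    rcases le_total u (-2) with h4 | h4
    · refine hR u _ _ (exp_le_n2 h4) ?_
      exact od_three_d47_c0 u (by linarith) (by linarith)
    rcases le_total u (-1) with h5 | h5
    · refine hR u _ _ (exp_le_n1 h5) ?_
      exact od_three_d47_b0 u (by linarith) (by linarith)
    rcases le_total u 0 with h6 | h6
    · refine hR u _ _ (exp_le_n0 h6) ?_
      exact od_three_d47_a0 u (by linarith) (by linarith)
    refine hR u _ _ (exp_le_p h6 (by linarith)) ?_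
    exact od_three_d47_e0 u (by linarith) (by linarith)
  · intro u h1 h2
    have h4 : 0 ≤ (1 + (u - 2 / 3) / 3) ^ 3 := by
      have : 0 ≤ (u - 2 / 3) / 3 := div_nonneg (by linarith) (by norm_num)
      positivity
    have hE : Real.exp (2 / 3) ≤ 97387 / 50000 := exp_up_2_3
    push_cast
    refine hR u _ _ (mul_le_mul_of_nonneg_right hE h4) ?_
    exact od_three_d47_f0 u (by linarith) (by linarith)
  · intro u h1
    have h4 : 0 ≤ (1 + (u - 2 / 3) / 3) ^ 3 := by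
      have : 0 ≤ (u - 2 / 3) / 3 := div_nonneg (by linarith) (by norm_num)
      positivity
    have hE : Real.exp (2 / 3) ≤ 97387 / 50000 := exp_up_2_3
    have hx : 0 ≤ 3 / 200 * (u ^ 2 - 1) := mul_nonneg (by norm_num) (by nlinarith)
    have h5 := mul_le_mul_of_nonneg_right (taylor3_le_exp _ hx) (hq u)
    have h6 : 0 ≤ Real.exp (3 / 200 * (u ^ 2 - 1)) * (1 + u + 533 / 1000 * u ^ 2) :=
      mul_nonneg (Real.exp_nonneg _) (hq u)
    rw [Real.exp_add, mul_assoc]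
    push_cast
    refine ((mul_le_mul_of_nonneg_right hE h4).trans ?_).trans
      ((mul_le_mul_of_nonneg_left h5 (by norm_num : (0 : ℝ) ≤ (1 + 1 / 10 + (1 / 10) ^ 2 / 2))).trans
        (mul_le_mul_of_nonneg_right hde h6))
    rcases le_total u (3) with hh | hh
    · exact od_three_d47_g0 u (by linarith) (by linarith)
    exact od_three_d47_t u (by linarith)

end

end Pool.Agent.TSM
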