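import Pool.Agent.TSM.OddDE

set_option autoImplicit false

/-!
# Constants of the odd rule with a constant (MP_d27362_co, helper2)
-/

namespace Pool.Agent.TSM

noncomputable section


theorem od_five_d00_a0 (u : ℝ) (h1 : -1 ≤ u) (h2 : u ≤ 0) :
    1 + u + u ^ 2 / 2 + u ^ 3 / 6 + u ^ 4 / 24 ≤
      1 * (1 + u + 141 / 250 * u ^ 2) := by
  obtain ⟨s, hs⟩ : ∃ s, s = u - (-1) := ⟨_, rfl⟩
  obtain ⟨t, ht⟩ : ∃ t, t = 0 - u := ⟨_, rfl⟩
  have hs0 : 0 ≤ s := by linarith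
  have ht0 : 0 ≤ t := by linarith
  have h : 0 ≤
      189 / 1000 * t ^ 4 + 221 / 750 * s * t ^ 3 + 8 / 125 * s ^ 2 * t ^ 2 := by
    positivity
  have e :
      189 / 1000 * t ^ 4 + 221 / 750 * s * t ^ 3 + 8 / 125 * s ^ 2 * t ^ 2 =
      1 * (1 + u + 141 / 250 * u ^ 2) -
      (1 + u + u ^ 2 / 2 + u ^ 3 / 6 + u ^ 4 / 24) := by
    rw [hs, ht]
    ring
  rw [e] at h
  linarith

theorem od_five_d00_b0 (u : ℝ) (h1 : -2 ≤ u) (h2 : u ≤ -1) :
    36788 / 100000 *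
      (1 + (u + 1) + (u + 1) ^ 2 / 2 + (u + 1) ^ 3 / 6 + (u + 1) ^ 4 / 24) ≤
      1 * (1 + u + 141 / 250 * u ^ 2) := by
  obtain ⟨s, hs⟩ : ∃ s, s = u - (-2) := ⟨_, rfl⟩
  obtain ⟨t, ht⟩ : ∃ t, t = -1 - u := ⟨_, rfl⟩
  have hs0 : 0 ≤ s := by linarith
  have ht0 : 0 ≤ t := by linarith
  have h : 0 ≤
      223609 / 200000 * t ^ 4 + 464033 / 150000 * s * t ^ 3 +
      152221 / 50000 * s ^ 2 * t ^ 2 + 32009 / 25000 * s ^ 3 * t + 4903 / 25000 * s ^ 4 := by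
    positivity
  have e :
      223609 / 200000 * t ^ 4 + 464033 / 150000 * s * t ^ 3 +
      152221 / 50000 * s ^ 2 * t ^ 2 + 32009 / 25000 * s ^ 3 * t + 4903 / 25000 * s ^ 4 =
      1 * (1 + u + 141 / 250 * u ^ 2) -
      (36788 / 100000 *
      (1 + (u + 1) + (u + 1) ^ 2 / 2 + (u + 1) ^ 3 / 6 + (u + 1) ^ 4 / 24)) := by
    rw [hs, ht]
    ring
  rw [e] at h
  linarith

theorem od_five_d00_c0 (u : ℝ) (h1 : -3 ≤ u) (h2 : u ≤ -2) :
    13534 / 100000 *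
      (1 + (u + 2) + (u + 2) ^ 2 / 2 + (u + 2) ^ 3 / 6 + (u + 2) ^ 4 / 24) ≤
      1 * (1 + u + 141 / 250 * u ^ 2) := by
  obtain ⟨s, hs⟩ : ∃ s, s = u - (-3) := ⟨_, rfl⟩
  obtain ⟨t, ht⟩ : ∃ t, t = -2 - u := ⟨_, rfl⟩
  have hs0 : 0 ≤ s := by linarith
  have ht0 : 0 ≤ t := by linarith
  have h : 0 ≤
      1210099 / 400000 * t ^ 4 + 2901563 / 300000 * s * t ^ 3 +
      1139431 / 100000 * s ^ 2 * t ^ 2 + 293699 / 50000 * s ^ 3 * t + 56033 / 50000 * s ^ 4 := by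
    positivity
  have e :
      1210099 / 400000 * t ^ 4 + 2901563 / 300000 * s * t ^ 3 +
      1139431 / 100000 * s ^ 2 * t ^ 2 + 293699 / 50000 * s ^ 3 * t + 56033 / 50000 * s ^ 4 =
      1 * (1 + u + 141 / 250 * u ^ 2) -
      (13534 / 100000 *
      (1 + (u + 2) + (u + 2) ^ 2 / 2 + (u + 2) ^ 3 / 6 + (u + 2) ^ 4 / 24)) := by
    rw [hs, ht]
    ring
  rw [e] at h
  linarith

theorem od_five_d00_d (u : ℝ) (h2 : u ≤ -3) :
    4979 / 100000 ≤
      1 * (1 + u + 141 / 250 * u ^ 2) := by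
  obtain ⟨s, hs⟩ : ∃ s, s = -3 - u := ⟨_, rfl⟩
  have hs0 : 0 ≤ s := by linarith
  have h : 0 ≤
      302621 / 100000 + 298 / 125 * s + 141 / 250 * s ^ 2 := by
    positivity
  have e :
      302621 / 100000 + 298 / 125 * s + 141 / 250 * s ^ 2 =
      1 * (1 + u + 141 / 250 * u ^ 2) -
      (4979 / 100000) := by
    rw [hs]
    ring
  rw [e] at h
  linarith

theorem od_five_d00_f0 (u : ℝ) (h1 : 0 ≤ u) (h2 : u ≤ 1) :
    1 * (1 + (u - 0) / 5) ^ 5 ≤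
      1 * (1 + u + 141 / 250 * u ^ 2) := by
  obtain ⟨s, hs⟩ : ∃ s, s = u - (0) := ⟨_, rfl⟩
  obtain ⟨t, ht⟩ : ∃ t, t = 1 - u := ⟨_, rfl⟩
  have hs0 : 0 ≤ s := by linarith
  have ht0 : 0 ≤ t := by linarith
  have h : 0 ≤
      41 / 250 * s ^ 2 * t ^ 3 + 103 / 250 * s ^ 3 * t ^ 2 + 81 / 250 * s ^ 4 * t +
      473 / 6250 * s ^ 5 := by
    positivity
  have e :
      41 / 250 * s ^ 2 * t ^ 3 + 103 / 250 * s ^ 3 * t ^ 2 + 81 / 250 * s ^ 4 * t +
      473 / 6250 * s ^ 5 =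
      1 * (1 + u + 141 / 250 * u ^ 2) -
      (1 * (1 + (u - 0) / 5) ^ 5) := by
    rw [hs, ht]
    ring
  rw [e] at h
  linarith

theorem od_five_d00_g0 (u : ℝ) (h1 : 1 ≤ u) (h2 : u ≤ 3) :
    1 * (1 + (u - 0) / 5) ^ 5 ≤
      1 * ((1 + (1 / 50 * (u ^ 2 - 1)) +
      (1 / 50 * (u ^ 2 - 1)) ^ 2 / 2 +
      (1 / 50 * (u ^ 2 - 1)) ^ 3 / 6) *
      (1 + u + 141 / 250 * u ^ 2)) := by
  obtain ⟨s, hs⟩ : ∃ s, s = u - (1) := ⟨_, rfl⟩
  obtain ⟨t, ht⟩ : ∃ t, t = 3 - u := ⟨_, rfl⟩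
  have hs0 : 0 ≤ s := by linarith
  have ht0 : 0 ≤ t := by linarith
  have h : 0 ≤
      473 / 1600000 * t ^ 8 + 2873 / 800000 * s * t ^ 7 + 340741 / 20000000 * s ^ 2 * t ^ 6 +
      62871307 / 1500000000 * s ^ 3 * t ^ 5 + 29645453 / 500000000 * s ^ 4 * t ^ 4 +
      74551499 / 1500000000 * s ^ 5 * t ^ 3 + 36177263 / 1500000000 * s ^ 6 * t ^ 2 +
      3089089 / 500000000 * s ^ 7 * t + 1930883 / 3000000000 * s ^ 8 := by
    positivity
  have e :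
      473 / 1600000 * t ^ 8 + 2873 / 800000 * s * t ^ 7 + 340741 / 20000000 * s ^ 2 * t ^ 6 +
      62871307 / 1500000000 * s ^ 3 * t ^ 5 + 29645453 / 500000000 * s ^ 4 * t ^ 4 +
      74551499 / 1500000000 * s ^ 5 * t ^ 3 + 36177263 / 1500000000 * s ^ 6 * t ^ 2 +
      3089089 / 500000000 * s ^ 7 * t + 1930883 / 3000000000 * s ^ 8 =
      1 * ((1 + (1 / 50 * (u ^ 2 - 1)) +
      (1 / 50 * (u ^ 2 - 1)) ^ 2 / 2 +
      (1 / 50 * (u ^ 2 - 1)) ^ 3 / 6) *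
      (1 + u + 141 / 250 * u ^ 2)) -
      (1 * (1 + (u - 0) / 5) ^ 5) := by
    rw [hs, ht]
    ring
  rw [e] at h
  linarith

theorem od_five_d00_g1 (u : ℝ) (h1 : 3 ≤ u) (h2 : u ≤ 4) :
    1 * (1 + (u - 0) / 5) ^ 5 ≤
      1 * ((1 + (1 / 50 * (u ^ 2 - 1)) +
      (1 / 50 * (u ^ 2 - 1)) ^ 2 / 2 +
      (1 / 50 * (u ^ 2 - 1)) ^ 3 / 6) *
      (1 + u + 141 / 250 * u ^ 2)) := by
  obtain ⟨s, hs⟩ : ∃ s, s = u - (3) := ⟨_, rfl⟩
  obtain ⟨t, ht⟩ : ∃ t, t = 4 - u := ⟨_, rfl⟩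
  have hs0 : 0 ≤ s := by linarith
  have ht0 : 0 ≤ t := by linarith
  have h : 0 ≤
      1930883 / 11718750 * t ^ 8 + 4634443 / 3906250 * s * t ^ 7 +
      42427957 / 11718750 * s ^ 2 * t ^ 6 + 7121833 / 1171875 * s ^ 3 * t ^ 5 +
      190360123 / 31250000 * s ^ 4 * t ^ 4 + 347739049 / 93750000 * s ^ 5 * t ^ 3 +
      16815847 / 12500000 * s ^ 6 * t ^ 2 + 348569 / 1250000 * s ^ 7 * t +
      7427 / 250000 * s ^ 8 := by
    positivity
  have e :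
      1930883 / 11718750 * t ^ 8 + 4634443 / 3906250 * s * t ^ 7 +
      42427957 / 11718750 * s ^ 2 * t ^ 6 + 7121833 / 1171875 * s ^ 3 * t ^ 5 +
      190360123 / 31250000 * s ^ 4 * t ^ 4 + 347739049 / 93750000 * s ^ 5 * t ^ 3 +
      16815847 / 12500000 * s ^ 6 * t ^ 2 + 348569 / 1250000 * s ^ 7 * t +
      7427 / 250000 * s ^ 8 =
      1 * ((1 + (1 / 50 * (u ^ 2 - 1)) +
      (1 / 50 * (u ^ 2 - 1)) ^ 2 / 2 +
      (1 / 50 * (u ^ 2 - 1)) ^ 3 / 6) *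
      (1 + u + 141 / 250 * u ^ 2)) -
      (1 * (1 + (u - 0) / 5) ^ 5) := by
    rw [hs, ht]
    ring
  rw [e] at h
  linarith

theorem od_five_d00_g2 (u : ℝ) (h1 : 4 ≤ u) (h2 : u ≤ 5) :
    1 * (1 + (u - 0) / 5) ^ 5 ≤
      1 * ((1 + (1 / 50 * (u ^ 2 - 1)) +
      (1 / 50 * (u ^ 2 - 1)) ^ 2 / 2 +
      (1 / 50 * (u ^ 2 - 1)) ^ 3 / 6) *
      (1 + u + 141 / 250 * u ^ 2)) := by
  obtain ⟨s, hs⟩ : ∃ s, s = u - (4) := ⟨_, rfl⟩
  obtain ⟨t, ht⟩ : ∃ t, t = 5 - u := ⟨_, rfl⟩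
  have hs0 : 0 ≤ s := by linarith
  have ht0 : 0 ≤ t := by linarith
  have h : 0 ≤
      7427 / 250000 * t ^ 8 + 245591 / 1250000 * s * t ^ 7 +
      9607387 / 12500000 * s ^ 2 * t ^ 6 + 217438481 / 93750000 * s ^ 3 * t ^ 5 +
      460212029 / 93750000 * s ^ 4 * t ^ 4 + 12904099 / 1953125 * s ^ 5 * t ^ 3 +
      20805823 / 3906250 * s ^ 6 * t ^ 2 + 1831879 / 781250 * s ^ 7 * t +
      67813 / 156250 * s ^ 8 := by
    positivity
  have e :
      7427 / 250000 * t ^ 8 + 245591 / 1250000 * s * t ^ 7 +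
      9607387 / 12500000 * s ^ 2 * t ^ 6 + 217438481 / 93750000 * s ^ 3 * t ^ 5 +
      460212029 / 93750000 * s ^ 4 * t ^ 4 + 12904099 / 1953125 * s ^ 5 * t ^ 3 +
      20805823 / 3906250 * s ^ 6 * t ^ 2 + 1831879 / 781250 * s ^ 7 * t +
      67813 / 156250 * s ^ 8 =
      1 * ((1 + (1 / 50 * (u ^ 2 - 1)) +
      (1 / 50 * (u ^ 2 - 1)) ^ 2 / 2 +
      (1 / 50 * (u ^ 2 - 1)) ^ 3 / 6) *
      (1 + u + 141 / 250 * u ^ 2)) -
      (1 * (1 + (u - 0) / 5) ^ 5) := by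
    rw [hs, ht]
    ring
  rw [e] at h
  linarith

theorem od_five_d00_t (u : ℝ) (h1 : 5 ≤ u) :
    1 * (1 + (u - 0) / 5) ^ 5 ≤
      1 * ((1 + (1 / 50 * (u ^ 2 - 1)) +
      (1 / 50 * (u ^ 2 - 1)) ^ 2 / 2 +
      (1 / 50 * (u ^ 2 - 1)) ^ 3 / 6) *
      (1 + u + 141 / 250 * u ^ 2)) := by
  obtain ⟨s, hs⟩ : ∃ s, s = u - (5) := ⟨_, rfl⟩
  have hs0 : 0 ≤ s := by linarith
  have h : 0 ≤
      67813 / 156250 + 880641 / 781250 * s + 2079579 / 1953125 * s ^ 2 +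
      323529 / 781250 * s ^ 3 + 7578749 / 93750000 * s ^ 4 + 57477 / 6250000 * s ^ 5 +
      42809 / 62500000 * s ^ 6 + 589 / 18750000 * s ^ 7 + 47 / 62500000 * s ^ 8 := by
    positivity
  have e :
      67813 / 156250 + 880641 / 781250 * s + 2079579 / 1953125 * s ^ 2 +
      323529 / 781250 * s ^ 3 + 7578749 / 93750000 * s ^ 4 + 57477 / 6250000 * s ^ 5 +
      42809 / 62500000 * s ^ 6 + 589 / 18750000 * s ^ 7 + 47 / 62500000 * s ^ 8 =
      1 * ((1 + (1 / 50 * (u ^ 2 - 1)) +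
      (1 / 50 * (u ^ 2 - 1)) ^ 2 / 2 +
      (1 / 50 * (u ^ 2 - 1)) ^ 3 / 6) *
      (1 + u + 141 / 250 * u ^ 2)) -
      (1 * (1 + (u - 0) / 5) ^ 5) := by
    rw [hs]
    ring
  rw [e] at h
  linarith

/-- `K = 5`: `(c, μ, P, δ) = (141 / 250, 1 / 50, 0, 0)` -/
theorem expOd_five_d00 : ExpOd 5 (141 / 250) (1 / 50) (0) (0) := by
  have hde : 1 ≤ Real.exp (0) := Real.exp_zero.ge
  have hq : ∀ u : ℝ, 0 ≤ 1 + u + 141 / 250 * u ^ 2 := fun u => by
    nlinarith [sq_nonneg (u + 2), sq_nonneg u]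
  have hR : ∀ (u x y : ℝ), x ≤ y → y ≤ 1 * (1 + u + 141 / 250 * u ^ 2) →
      x ≤ Real.exp (0) * (1 + u + 141 / 250 * u ^ 2) := fun u x y h1 h2 =>
    (h1.trans h2).trans (mul_le_mul_of_nonneg_right hde (hq u))
  refine ExpOd.of (by norm_num) (by norm_num) (by norm_num) (by norm_num) (by norm_num) ?_ ?_ ?_
  · intro u h1
    rcases le_total u (-3) with h3 | h3
    · exact hR u _ _ (exp_le_n3 h3) (od_five_d00_d u h3)
    rcases le_total u (-2) with h4 | h4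
    · refine hR u _ _ (exp_le_n2 h4) ?_
      exact od_five_d00_c0 u (by linarith) (by linarith)
    rcases le_total u (-1) with h5 | h5
    · refine hR u _ _ (exp_le_n1 h5) ?_
      exact od_five_d00_b0 u (by linarith) (by linarith)
    rcases le_total u 0 with h6 | h6
    · refine hR u _ _ (exp_le_n0 h6) ?_
      exact od_five_d00_a0 u (by linarith) (by linarith)
    have h7 : u = 0 := le_antisymm h1 h6
    refine hR u _ _ (exp_le_n0 h7.le) ?_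
    exact od_five_d00_a0 u (by linarith) (by linarith)
  · intro u h1 h2
    have h4 : 0 ≤ (1 + (u - 0) / 5) ^ 5 := by
      have : 0 ≤ (u - 0) / 5 := div_nonneg (by linarith) (by norm_num)
      positivity
    have hE : Real.exp (0) ≤ 1 := Real.exp_zero.le
    push_cast
    refine hR u _ _ (mul_le_mul_of_nonneg_right hE h4) ?_
    exact od_five_d00_f0 u (by linarith) (by linarith)
  · intro u h1
    have h4 : 0 ≤ (1 + (u - 0) / 5) ^ 5 := by
      have : 0 ≤ (u - 0) / 5 := div_nonneg (by linarith) (by norm_num)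
      positivity
    have hE : Real.exp (0) ≤ 1 := Real.exp_zero.le
    have hx : 0 ≤ 1 / 50 * (u ^ 2 - 1) := mul_nonneg (by norm_num) (by nlinarith)
    have h5 := mul_le_mul_of_nonneg_right (taylor3_le_exp _ hx) (hq u)
    have h6 : 0 ≤ Real.exp (1 / 50 * (u ^ 2 - 1)) * (1 + u + 141 / 250 * u ^ 2) :=
      mul_nonneg (Real.exp_nonneg _) (hq u)
    rw [Real.exp_add, mul_assoc]
    push_cast
    refine ((mul_le_mul_of_nonneg_right hE h4).trans ?_).trans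
      ((mul_le_mul_of_nonneg_left h5 (by norm_num : (0 : ℝ) ≤ 1)).trans
        (mul_le_mul_of_nonneg_right hde h6))
    rcases le_total u (3) with hh | hh
    · exact od_five_d00_g0 u (by linarith) (by linarith)
    rcases le_total u (4) with hh | hh
    · exact od_five_d00_g1 u (by linarith) (by linarith)
    rcases le_total u (5) with hh | hh
    · exact od_five_d00_g2 u (by linarith) (by linarith)
    exact od_five_d00_t u (by linarith)

theorem od_five_d01_a0 (u : ℝ) (h1 : -1 ≤ u) (h2 : u ≤ 0) :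
    1 + u + u ^ 2 / 2 + u ^ 3 / 6 + u ^ 4 / 24 ≤
      1 * (1 + u + 501 / 1000 * u ^ 2) := by
  obtain ⟨s, hs⟩ : ∃ s, s = u - (-1) := ⟨_, rfl⟩
  obtain ⟨t, ht⟩ : ∃ t, t = 0 - u := ⟨_, rfl⟩
  have hs0 : 0 ≤ s := by linarith
  have ht0 : 0 ≤ t := by linarith
  have h : 0 ≤
      63 / 500 * t ^ 4 + 253 / 1500 * s * t ^ 3 + 1 / 1000 * s ^ 2 * t ^ 2 := by
    positivity
  have e :
      63 / 500 * t ^ 4 + 253 / 1500 * s * t ^ 3 + 1 / 1000 * s ^ 2 * t ^ 2 =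
      1 * (1 + u + 501 / 1000 * u ^ 2) -
      (1 + u + u ^ 2 / 2 + u ^ 3 / 6 + u ^ 4 / 24) := by
    rw [hs, ht]
    ring
  rw [e] at h
  linarith

theorem od_five_d01_b0 (u : ℝ) (h1 : -2 ≤ u) (h2 : u ≤ -1) :
    36788 / 100000 *
      (1 + (u + 1) + (u + 1) ^ 2 / 2 + (u + 1) ^ 3 / 6 + (u + 1) ^ 4 / 24) ≤
      1 * (1 + u + 501 / 1000 * u ^ 2) := by
  obtain ⟨s, hs⟩ : ∃ s, s = u - (-2) := ⟨_, rfl⟩
  obtain ⟨t, ht⟩ : ∃ t, t = -1 - u := ⟨_, rfl⟩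
  have hs0 : 0 ≤ s := by linarith
  have ht0 : 0 ≤ t := by linarith
  have h : 0 ≤
      173209 / 200000 * t ^ 4 + 350633 / 150000 * s * t ^ 3 +
      111271 / 50000 * s ^ 2 * t ^ 2 + 22559 / 25000 * s ^ 3 * t + 416 / 3125 * s ^ 4 := by
    positivity
  have e :
      173209 / 200000 * t ^ 4 + 350633 / 150000 * s * t ^ 3 +
      111271 / 50000 * s ^ 2 * t ^ 2 + 22559 / 25000 * s ^ 3 * t + 416 / 3125 * s ^ 4 =
      1 * (1 + u + 501 / 1000 * u ^ 2) -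
      (36788 / 100000 *
      (1 + (u + 1) + (u + 1) ^ 2 / 2 + (u + 1) ^ 3 / 6 + (u + 1) ^ 4 / 24)) := by
    rw [hs, ht]
    ring
  rw [e] at h
  linarith

theorem od_five_d01_c0 (u : ℝ) (h1 : -3 ≤ u) (h2 : u ≤ -2) :
    13534 / 100000 *
      (1 + (u + 2) + (u + 2) ^ 2 / 2 + (u + 2) ^ 3 / 6 + (u + 2) ^ 4 / 24) ≤
      1 * (1 + u + 501 / 1000 * u ^ 2) := by
  obtain ⟨s, hs⟩ : ∃ s, s = u - (-3) := ⟨_, rfl⟩
  obtain ⟨t, ht⟩ : ∃ t, t = -2 - u := ⟨_, rfl⟩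
  have hs0 : 0 ≤ s := by linarith
  have ht0 : 0 ≤ t := by linarith
  have h : 0 ≤
      983299 / 400000 * t ^ 4 + 2334563 / 300000 * s * t ^ 3 +
      906331 / 100000 * s ^ 2 * t ^ 2 + 230699 / 50000 * s ^ 3 * t + 43433 / 50000 * s ^ 4 := by
    positivity
  have e :
      983299 / 400000 * t ^ 4 + 2334563 / 300000 * s * t ^ 3 +
      906331 / 100000 * s ^ 2 * t ^ 2 + 230699 / 50000 * s ^ 3 * t + 43433 / 50000 * s ^ 4 =
      1 * (1 + u + 501 / 1000 * u ^ 2) -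
      (13534 / 100000 *
      (1 + (u + 2) + (u + 2) ^ 2 / 2 + (u + 2) ^ 3 / 6 + (u + 2) ^ 4 / 24)) := by
    rw [hs, ht]
    ring
  rw [e] at h
  linarith

theorem od_five_d01_d (u : ℝ) (h2 : u ≤ -3) :
    4979 / 100000 ≤
      1 * (1 + u + 501 / 1000 * u ^ 2) := by
  obtain ⟨s, hs⟩ : ∃ s, s = -3 - u := ⟨_, rfl⟩
  have hs0 : 0 ≤ s := by linarith
  have h : 0 ≤
      245921 / 100000 + 1003 / 500 * s + 501 / 1000 * s ^ 2 := by
    positivity
  have e :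
      245921 / 100000 + 1003 / 500 * s + 501 / 1000 * s ^ 2 =
      1 * (1 + u + 501 / 1000 * u ^ 2) -
      (4979 / 100000) := by
    rw [hs]
    ring
  rw [e] at h
  linarith

theorem od_five_d01_f0 (u : ℝ) (h1 : 0 ≤ u) (h2 : u ≤ 1) :
    1 * (1 + (u - 0) / 5) ^ 5 ≤
      1 * (1 + u + 501 / 1000 * u ^ 2) := by
  obtain ⟨s, hs⟩ : ∃ s, s = u - (0) := ⟨_, rfl⟩
  obtain ⟨t, ht⟩ : ∃ t, t = 1 - u := ⟨_, rfl⟩
  have hs0 : 0 ≤ s := by linarith
  have ht0 : 0 ≤ t := by linarith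
  have h : 0 ≤
      101 / 1000 * s ^ 2 * t ^ 3 + 223 / 1000 * s ^ 3 * t ^ 2 + 27 / 200 * s ^ 4 * t +
      317 / 25000 * s ^ 5 := by
    positivity
  have e :
      101 / 1000 * s ^ 2 * t ^ 3 + 223 / 1000 * s ^ 3 * t ^ 2 + 27 / 200 * s ^ 4 * t +
      317 / 25000 * s ^ 5 =
      1 * (1 + u + 501 / 1000 * u ^ 2) -
      (1 * (1 + (u - 0) / 5) ^ 5) := by
    rw [hs, ht]
    ring
  rw [e] at h
  linarith

theorem od_five_d01_g0 (u : ℝ) (h1 : 1 ≤ u) (h2 : u ≤ 2) :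
    1 * (1 + (u - 0) / 5) ^ 5 ≤
      1 * ((1 + (3 / 100 * (u ^ 2 - 1)) +
      (3 / 100 * (u ^ 2 - 1)) ^ 2 / 2 +
      (3 / 100 * (u ^ 2 - 1)) ^ 3 / 6) *
      (1 + u + 501 / 1000 * u ^ 2)) := by
  obtain ⟨s, hs⟩ : ∃ s, s = u - (1) := ⟨_, rfl⟩
  obtain ⟨t, ht⟩ : ∃ t, t = 2 - u := ⟨_, rfl⟩
  have hs0 : 0 ≤ s := by linarith
  have ht0 : 0 ≤ t := by linarith
  have h : 0 ≤
      317 / 25000 * t ^ 8 + 1799 / 10000 * s * t ^ 7 + 4568559 / 5000000 * s ^ 2 * t ^ 6 +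
      599391559 / 250000000 * s ^ 3 * t ^ 5 + 925580539 / 250000000 * s ^ 4 * t ^ 4 +
      704623727 / 200000000 * s ^ 5 * t ^ 3 + 4097172283 / 2000000000 * s ^ 6 * t ^ 2 +
      336853579 / 500000000 * s ^ 7 * t + 48497093 / 500000000 * s ^ 8 := by
    positivity
  have e :
      317 / 25000 * t ^ 8 + 1799 / 10000 * s * t ^ 7 + 4568559 / 5000000 * s ^ 2 * t ^ 6 +
      599391559 / 250000000 * s ^ 3 * t ^ 5 + 925580539 / 250000000 * s ^ 4 * t ^ 4 +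
      704623727 / 200000000 * s ^ 5 * t ^ 3 + 4097172283 / 2000000000 * s ^ 6 * t ^ 2 +
      336853579 / 500000000 * s ^ 7 * t + 48497093 / 500000000 * s ^ 8 =
      1 * ((1 + (3 / 100 * (u ^ 2 - 1)) +
      (3 / 100 * (u ^ 2 - 1)) ^ 2 / 2 +
      (3 / 100 * (u ^ 2 - 1)) ^ 3 / 6) *
      (1 + u + 501 / 1000 * u ^ 2)) -
      (1 * (1 + (u - 0) / 5) ^ 5) := by
    rw [hs, ht]
    ring
  rw [e] at h
  linarith

theorem od_five_d01_t (u : ℝ) (h1 : 2 ≤ u) :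
    1 * (1 + (u - 0) / 5) ^ 5 ≤
      1 * ((1 + (3 / 100 * (u ^ 2 - 1)) +
      (3 / 100 * (u ^ 2 - 1)) ^ 2 / 2 +
      (3 / 100 * (u ^ 2 - 1)) ^ 3 / 6) *
      (1 + u + 501 / 1000 * u ^ 2)) := by
  obtain ⟨s, hs⟩ : ∃ s, s = u - (2) := ⟨_, rfl⟩
  have hs0 : 0 ≤ s := by linarith
  have h : 0 ≤
      48497093 / 500000000 + 10224633 / 100000000 * s + 96946487 / 2000000000 * s ^ 2 +
      6527789 / 125000000 * s ^ 3 + 50727187 / 2000000000 * s ^ 4 +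
      2091377 / 500000000 * s ^ 5 + 1077381 / 2000000000 * s ^ 6 +
      10143 / 250000000 * s ^ 7 + 4509 / 2000000000 * s ^ 8 := by
    positivity
  have e :
      48497093 / 500000000 + 10224633 / 100000000 * s + 96946487 / 2000000000 * s ^ 2 +
      6527789 / 125000000 * s ^ 3 + 50727187 / 2000000000 * s ^ 4 +
      2091377 / 500000000 * s ^ 5 + 1077381 / 2000000000 * s ^ 6 +
      10143 / 250000000 * s ^ 7 + 4509 / 2000000000 * s ^ 8 =
      1 * ((1 + (3 / 100 * (u ^ 2 - 1)) +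
      (3 / 100 * (u ^ 2 - 1)) ^ 2 / 2 +
      (3 / 100 * (u ^ 2 - 1)) ^ 3 / 6) *
      (1 + u + 501 / 1000 * u ^ 2)) -
      (1 * (1 + (u - 0) / 5) ^ 5) := by
    rw [hs]
    ring
  rw [e] at h
  linarith

/-- `K = 5`: `(c, μ, P, δ) = (501 / 1000, 3 / 100, 0, 0)` -/
theorem expOd_five_d01 : ExpOd 5 (501 / 1000) (3 / 100) (0) (0) := by
  have hde : 1 ≤ Real.exp (0) := Real.exp_zero.ge
  have hq : ∀ u : ℝ, 0 ≤ 1 + u + 501 / 1000 * u ^ 2 := fun u => by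
    nlinarith [sq_nonneg (u + 2), sq_nonneg u]
  have hR : ∀ (u x y : ℝ), x ≤ y → y ≤ 1 * (1 + u + 501 / 1000 * u ^ 2) →
      x ≤ Real.exp (0) * (1 + u + 501 / 1000 * u ^ 2) := fun u x y h1 h2 =>
    (h1.trans h2).trans (mul_le_mul_of_nonneg_right hde (hq u))
  refine ExpOd.of (by norm_num) (by norm_num) (by norm_num) (by norm_num) (by norm_num) ?_ ?_ ?_
  · intro u h1
    rcases le_total u (-3) with h3 | h3
    · exact hR u _ _ (exp_le_n3 h3) (od_five_d01_d u h3)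
    rcases le_total u (-2) with h4 | h4
    · refine hR u _ _ (exp_le_n2 h4) ?_
      exact od_five_d01_c0 u (by linarith) (by linarith)
    rcases le_total u (-1) with h5 | h5
    · refine hR u _ _ (exp_le_n1 h5) ?_
      exact od_five_d01_b0 u (by linarith) (by linarith)
    rcases le_total u 0 with h6 | h6
    · refine hR u _ _ (exp_le_n0 h6) ?_
      exact od_five_d01_a0 u (by linarith) (by linarith)
    have h7 : u = 0 := le_antisymm h1 h6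
    refine hR u _ _ (exp_le_n0 h7.le) ?_
    exact od_five_d01_a0 u (by linarith) (by linarith)
  · intro u h1 h2
    have h4 : 0 ≤ (1 + (u - 0) / 5) ^ 5 := by
      have : 0 ≤ (u - 0) / 5 := div_nonneg (by linarith) (by norm_num)
      positivity
    have hE : Real.exp (0) ≤ 1 := Real.exp_zero.le
    push_cast
    refine hR u _ _ (mul_le_mul_of_nonneg_right hE h4) ?_
    exact od_five_d01_f0 u (by linarith) (by linarith)
  · intro u h1
    have h4 : 0 ≤ (1 + (u - 0) / 5) ^ 5 := by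
      have : 0 ≤ (u - 0) / 5 := div_nonneg (by linarith) (by norm_num)
      positivity
    have hE : Real.exp (0) ≤ 1 := Real.exp_zero.le
    have hx : 0 ≤ 3 / 100 * (u ^ 2 - 1) := mul_nonneg (by norm_num) (by nlinarith)
    have h5 := mul_le_mul_of_nonneg_right (taylor3_le_exp _ hx) (hq u)
    have h6 : 0 ≤ Real.exp (3 / 100 * (u ^ 2 - 1)) * (1 + u + 501 / 1000 * u ^ 2) :=
      mul_nonneg (Real.exp_nonneg _) (hq u)
    rw [Real.exp_add, mul_assoc]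
    push_cast
    refine ((mul_le_mul_of_nonneg_right hE h4).trans ?_).trans
      ((mul_le_mul_of_nonneg_left h5 (by norm_num : (0 : ℝ) ≤ 1)).trans
        (mul_le_mul_of_nonneg_right hde h6))
    rcases le_total u (2) with hh | hh
    · exact od_five_d01_g0 u (by linarith) (by linarith)
    exact od_five_d01_t u (by linarith)

theorem od_five_d02_a0 (u : ℝ) (h1 : -1 ≤ u) (h2 : u ≤ 0) :
    1 + u + u ^ 2 / 2 + u ^ 3 / 6 + u ^ 4 / 24 ≤
      (1 + 1 / 100 + (1 / 100) ^ 2 / 2) * (1 + u + 469 / 1000 * u ^ 2) := by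
  obtain ⟨s, hs⟩ : ∃ s, s = u - (-1) := ⟨_, rfl⟩
  obtain ⟨t, ht⟩ : ∃ t, t = 0 - u := ⟨_, rfl⟩
  have hs0 : 0 ≤ s := by linarith
  have ht0 : 0 ≤ t := by linarith
  have h : 0 ≤
      1974269 / 20000000 * t ^ 4 + 3724307 / 30000000 * s * t ^ 3 +
      77269 / 20000000 * s ^ 2 * t ^ 2 + 603 / 20000 * s ^ 3 * t + 201 / 20000 * s ^ 4 := by
    positivity
  have e :
      1974269 / 20000000 * t ^ 4 + 3724307 / 30000000 * s * t ^ 3 +
      77269 / 20000000 * s ^ 2 * t ^ 2 + 603 / 20000 * s ^ 3 * t + 201 / 20000 * s ^ 4 =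
      (1 + 1 / 100 + (1 / 100) ^ 2 / 2) * (1 + u + 469 / 1000 * u ^ 2) -
      (1 + u + u ^ 2 / 2 + u ^ 3 / 6 + u ^ 4 / 24) := by
    rw [hs, ht]
    ring
  rw [e] at h
  linarith

theorem od_five_d02_b0 (u : ℝ) (h1 : -2 ≤ u) (h2 : u ≤ -1) :
    36788 / 100000 *
      (1 + (u + 1) + (u + 1) ^ 2 / 2 + (u + 1) ^ 3 / 6 + (u + 1) ^ 4 / 24) ≤
      (1 + 1 / 100 + (1 / 100) ^ 2 / 2) * (1 + u + 469 / 1000 * u ^ 2) := by
  obtain ⟨s, hs⟩ : ∃ s, s = u - (-2) := ⟨_, rfl⟩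
  obtain ⟨t, ht⟩ : ∃ t, t = -1 - u := ⟨_, rfl⟩
  have hs0 : 0 ≤ s := by linarith
  have ht0 : 0 ≤ t := by linarith
  have h : 0 ≤
      933561 / 1250000 * t ^ 4 + 29699471 / 15000000 * s * t ^ 3 +
      36810897 / 20000000 * s ^ 2 * t ^ 2 + 7285907 / 10000000 * s ^ 3 * t +
      2116669 / 20000000 * s ^ 4 := by
    positivity
  have e :
      933561 / 1250000 * t ^ 4 + 29699471 / 15000000 * s * t ^ 3 +
      36810897 / 20000000 * s ^ 2 * t ^ 2 + 7285907 / 10000000 * s ^ 3 * t +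
      2116669 / 20000000 * s ^ 4 =
      (1 + 1 / 100 + (1 / 100) ^ 2 / 2) * (1 + u + 469 / 1000 * u ^ 2) -
      (36788 / 100000 *
      (1 + (u + 1) + (u + 1) ^ 2 / 2 + (u + 1) ^ 3 / 6 + (u + 1) ^ 4 / 24)) := by
    rw [hs, ht]
    ring
  rw [e] at h
  linarith

theorem od_five_d02_c0 (u : ℝ) (h1 : -3 ≤ u) (h2 : u ≤ -2) :
    13534 / 100000 *
      (1 + (u + 2) + (u + 2) ^ 2 / 2 + (u + 2) ^ 3 / 6 + (u + 2) ^ 4 / 24) ≤
      (1 + 1 / 100 + (1 / 100) ^ 2 / 2) * (1 + u + 469 / 1000 * u ^ 2) := by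
  obtain ⟨s, hs⟩ : ∃ s, s = u - (-3) := ⟨_, rfl⟩
  obtain ⟨t, ht⟩ : ∃ t, t = -2 - u := ⟨_, rfl⟩
  have hs0 : 0 ≤ s := by linarith
  have ht0 : 0 ≤ t := by linarith
  have h : 0 ≤
      43851371 / 20000000 * t ^ 4 + 41357581 / 6000000 * s * t ^ 3 +
      159265153 / 20000000 * s ^ 2 * t ^ 2 + 4017999 / 1000000 * s ^ 3 * t +
      3747319 / 5000000 * s ^ 4 := by
    positivity
  have e :
      43851371 / 20000000 * t ^ 4 + 41357581 / 6000000 * s * t ^ 3 +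
      159265153 / 20000000 * s ^ 2 * t ^ 2 + 4017999 / 1000000 * s ^ 3 * t +
      3747319 / 5000000 * s ^ 4 =
      (1 + 1 / 100 + (1 / 100) ^ 2 / 2) * (1 + u + 469 / 1000 * u ^ 2) -
      (13534 / 100000 *
      (1 + (u + 2) + (u + 2) ^ 2 / 2 + (u + 2) ^ 3 / 6 + (u + 2) ^ 4 / 24)) := by
    rw [hs, ht]
    ring
  rw [e] at h
  linarith

theorem od_five_d02_d (u : ℝ) (h2 : u ≤ -3) :
    4979 / 100000 ≤
      (1 + 1 / 100 + (1 / 100) ^ 2 / 2) * (1 + u + 469 / 1000 * u ^ 2) := by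
  obtain ⟨s, hs⟩ : ∃ s, s = -3 - u := ⟨_, rfl⟩
  have hs0 : 0 ≤ s := by linarith
  have h : 0 ≤
      43870621 / 20000000 + 18322307 / 10000000 * s + 9474269 / 20000000 * s ^ 2 := by
    positivity
  have e :
      43870621 / 20000000 + 18322307 / 10000000 * s + 9474269 / 20000000 * s ^ 2 =
      (1 + 1 / 100 + (1 / 100) ^ 2 / 2) * (1 + u + 469 / 1000 * u ^ 2) -
      (4979 / 100000) := by
    rw [hs]
    ring
  rw [e] at h
  linarith

theorem od_five_d02_f0 (u : ℝ) (h1 : 0 ≤ u) (h2 : u ≤ 1) :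
    1 * (1 + (u - 0) / 5) ^ 5 ≤
      (1 + 1 / 100 + (1 / 100) ^ 2 / 2) * (1 + u + 469 / 1000 * u ^ 2) := by
  obtain ⟨s, hs⟩ : ∃ s, s = u - (0) := ⟨_, rfl⟩
  obtain ⟨t, ht⟩ : ∃ t, t = 1 - u := ⟨_, rfl⟩
  have hs0 : 0 ≤ s := by linarith
  have ht0 : 0 ≤ t := by linarith
  have h : 0 ≤
      201 / 20000 * t ^ 5 + 603 / 10000 * s * t ^ 4 + 4288269 / 20000000 * s ^ 2 * t ^ 3 +
      6038807 / 20000000 * s ^ 3 * t ^ 2 + 2871807 / 20000000 * s ^ 4 * t +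
      109869 / 20000000 * s ^ 5 := by
    positivity
  have e :
      201 / 20000 * t ^ 5 + 603 / 10000 * s * t ^ 4 + 4288269 / 20000000 * s ^ 2 * t ^ 3 +
      6038807 / 20000000 * s ^ 3 * t ^ 2 + 2871807 / 20000000 * s ^ 4 * t +
      109869 / 20000000 * s ^ 5 =
      (1 + 1 / 100 + (1 / 100) ^ 2 / 2) * (1 + u + 469 / 1000 * u ^ 2) -
      (1 * (1 + (u - 0) / 5) ^ 5) := by
    rw [hs, ht]
    ring
  rw [e] at h
  linarith

theorem od_five_d02_g0 (u : ℝ) (h1 : 1 ≤ u) (h2 : u ≤ 2) :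
    1 * (1 + (u - 0) / 5) ^ 5 ≤
      (1 + 1 / 100 + (1 / 100) ^ 2 / 2) * ((1 + (3 / 100 * (u ^ 2 - 1)) +
      (3 / 100 * (u ^ 2 - 1)) ^ 2 / 2 +
      (3 / 100 * (u ^ 2 - 1)) ^ 3 / 6) *
      (1 + u + 469 / 1000 * u ^ 2)) := by
  obtain ⟨s, hs⟩ : ∃ s, s = u - (1) := ⟨_, rfl⟩
  obtain ⟨t, ht⟩ : ∃ t, t = 2 - u := ⟨_, rfl⟩
  have hs0 : 0 ≤ s := by linarith
  have ht0 : 0 ≤ t := by linarith
  have h : 0 ≤
      109869 / 20000000 * t ^ 8 + 77453307 / 1000000000 * s * t ^ 7 +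
      36762188071 / 100000000000 * s ^ 2 * t ^ 6 +
      4334471255871 / 5000000000000 * s ^ 3 * t ^ 5 +
      5783910937491 / 5000000000000 * s ^ 4 * t ^ 4 +
      3635979786663 / 4000000000000 * s ^ 5 * t ^ 3 +
      16556467548627 / 40000000000000 * s ^ 6 * t ^ 2 +
      1010233657251 / 10000000000000 * s ^ 7 * t + 105587953517 / 10000000000000 * s ^ 8 := by
    positivity
  have e :
      109869 / 20000000 * t ^ 8 + 77453307 / 1000000000 * s * t ^ 7 +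
      36762188071 / 100000000000 * s ^ 2 * t ^ 6 +
      4334471255871 / 5000000000000 * s ^ 3 * t ^ 5 +
      5783910937491 / 5000000000000 * s ^ 4 * t ^ 4 +
      3635979786663 / 4000000000000 * s ^ 5 * t ^ 3 +
      16556467548627 / 40000000000000 * s ^ 6 * t ^ 2 +
      1010233657251 / 10000000000000 * s ^ 7 * t + 105587953517 / 10000000000000 * s ^ 8 =
      (1 + 1 / 100 + (1 / 100) ^ 2 / 2) * ((1 + (3 / 100 * (u ^ 2 - 1)) +
      (3 / 100 * (u ^ 2 - 1)) ^ 2 / 2 +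
      (3 / 100 * (u ^ 2 - 1)) ^ 3 / 6) *
      (1 + u + 469 / 1000 * u ^ 2)) -
      (1 * (1 + (u - 0) / 5) ^ 5) := by
    rw [hs, ht]
    ring
  rw [e] at h
  linarith

theorem od_five_d02_g1 (u : ℝ) (h1 : 2 ≤ u) (h2 : u ≤ 3) :
    1 * (1 + (u - 0) / 5) ^ 5 ≤
      (1 + 1 / 100 + (1 / 100) ^ 2 / 2) * ((1 + (3 / 100 * (u ^ 2 - 1)) +
      (3 / 100 * (u ^ 2 - 1)) ^ 2 / 2 +
      (3 / 100 * (u ^ 2 - 1)) ^ 3 / 6) *
      (1 + u + 469 / 1000 * u ^ 2)) := by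
  obtain ⟨s, hs⟩ : ∃ s, s = u - (2) := ⟨_, rfl⟩
  obtain ⟨t, ht⟩ : ∃ t, t = 3 - u := ⟨_, rfl⟩
  have hs0 : 0 ≤ s := by linarith
  have ht0 : 0 ≤ t := by linarith
  have h : 0 ≤
      105587953517 / 10000000000000 * t ^ 8 + 679173599021 / 10000000000000 * s * t ^ 7 +
      7286785918187 / 40000000000000 * s ^ 2 * t ^ 6 +
      6046458291511 / 20000000000000 * s ^ 3 * t ^ 5 +
      1102106086643 / 2500000000000 * s ^ 4 * t ^ 4 +
      3008560204399 / 5000000000000 * s ^ 5 * t ^ 3 +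
      1454744837757 / 2500000000000 * s ^ 6 * t ^ 2 +
      195325185711 / 625000000000 * s ^ 7 * t + 21564353481 / 312500000000 * s ^ 8 := by
    positivity
  have e :
      105587953517 / 10000000000000 * t ^ 8 + 679173599021 / 10000000000000 * s * t ^ 7 +
      7286785918187 / 40000000000000 * s ^ 2 * t ^ 6 +
      6046458291511 / 20000000000000 * s ^ 3 * t ^ 5 +
      1102106086643 / 2500000000000 * s ^ 4 * t ^ 4 +
      3008560204399 / 5000000000000 * s ^ 5 * t ^ 3 +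
      1454744837757 / 2500000000000 * s ^ 6 * t ^ 2 +
      195325185711 / 625000000000 * s ^ 7 * t + 21564353481 / 312500000000 * s ^ 8 =
      (1 + 1 / 100 + (1 / 100) ^ 2 / 2) * ((1 + (3 / 100 * (u ^ 2 - 1)) +
      (3 / 100 * (u ^ 2 - 1)) ^ 2 / 2 +
      (3 / 100 * (u ^ 2 - 1)) ^ 3 / 6) *
      (1 + u + 469 / 1000 * u ^ 2)) -
      (1 * (1 + (u - 0) / 5) ^ 5) := by
    rw [hs, ht]
    ring
  rw [e] at h
  linarith

theorem od_five_d02_t (u : ℝ) (h1 : 3 ≤ u) :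
    1 * (1 + (u - 0) / 5) ^ 5 ≤
      (1 + 1 / 100 + (1 / 100) ^ 2 / 2) * ((1 + (3 / 100 * (u ^ 2 - 1)) +
      (3 / 100 * (u ^ 2 - 1)) ^ 2 / 2 +
      (3 / 100 * (u ^ 2 - 1)) ^ 3 / 6) *
      (1 + u + 469 / 1000 * u ^ 2)) := by
  obtain ⟨s, hs⟩ : ∃ s, s = u - (3) := ⟨_, rfl⟩
  have hs0 : 0 ≤ s := by linarith
  have h : 0 ≤
      21564353481 / 312500000000 + 29940893997 / 125000000000 * s +
      816054817593 / 2500000000000 * s ^ 2 + 955407368213 / 5000000000000 * s ^ 3 +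
      264780183641 / 5000000000000 * s ^ 4 + 160137225809 / 20000000000000 * s ^ 5 +
      33758476929 / 40000000000000 * s ^ 6 + 69632847 / 1250000000000 * s ^ 7 +
      85268421 / 40000000000000 * s ^ 8 := by
    positivity
  have e :
      21564353481 / 312500000000 + 29940893997 / 125000000000 * s +
      816054817593 / 2500000000000 * s ^ 2 + 955407368213 / 5000000000000 * s ^ 3 +
      264780183641 / 5000000000000 * s ^ 4 + 160137225809 / 20000000000000 * s ^ 5 +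
      33758476929 / 40000000000000 * s ^ 6 + 69632847 / 1250000000000 * s ^ 7 +
      85268421 / 40000000000000 * s ^ 8 =
      (1 + 1 / 100 + (1 / 100) ^ 2 / 2) * ((1 + (3 / 100 * (u ^ 2 - 1)) +
      (3 / 100 * (u ^ 2 - 1)) ^ 2 / 2 +
      (3 / 100 * (u ^ 2 - 1)) ^ 3 / 6) *
      (1 + u + 469 / 1000 * u ^ 2)) -
      (1 * (1 + (u - 0) / 5) ^ 5) := by
    rw [hs]
    ring
  rw [e] at h
  linarith

/-- `K = 5`: `(c, μ, P, δ) = (469 / 1000, 3 / 100, 0, 1 / 100)` -/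
theorem expOd_five_d02 : ExpOd 5 (469 / 1000) (3 / 100) (0) (1 / 100) := by
  have hde : (1 + 1 / 100 + (1 / 100) ^ 2 / 2) ≤ Real.exp (1 / 100) := Real.quadratic_le_exp_of_nonneg (by norm_num)
  have hq : ∀ u : ℝ, 0 ≤ 1 + u + 469 / 1000 * u ^ 2 := fun u => by
    nlinarith [sq_nonneg (u + 2), sq_nonneg u]
  have hR : ∀ (u x y : ℝ), x ≤ y → y ≤ (1 + 1 / 100 + (1 / 100) ^ 2 / 2) * (1 + u + 469 / 1000 * u ^ 2) →
      x ≤ Real.exp (1 / 100) * (1 + u + 469 / 1000 * u ^ 2) := fun u x y h1 h2 =>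
    (h1.trans h2).trans (mul_le_mul_of_nonneg_right hde (hq u))
  refine ExpOd.of (by norm_num) (by norm_num) (by norm_num) (by norm_num) (by norm_num) ?_ ?_ ?_
  · intro u h1
    rcases le_total u (-3) with h3 | h3
    · exact hR u _ _ (exp_le_n3 h3) (od_five_d02_d u h3)
    rcases le_total u (-2) with h4 | h4
    · refine hR u _ _ (exp_le_n2 h4) ?_
      exact od_five_d02_c0 u (by linarith) (by linarith)
    rcases le_total u (-1) with h5 | h5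
    · refine hR u _ _ (exp_le_n1 h5) ?_
      exact od_five_d02_b0 u (by linarith) (by linarith)
    rcases le_total u 0 with h6 | h6
    · refine hR u _ _ (exp_le_n0 h6) ?_
      exact od_five_d02_a0 u (by linarith) (by linarith)
    have h7 : u = 0 := le_antisymm h1 h6
    refine hR u _ _ (exp_le_n0 h7.le) ?_
    exact od_five_d02_a0 u (by linarith) (by linarith)
  · intro u h1 h2
    have h4 : 0 ≤ (1 + (u - 0) / 5) ^ 5 := by
      have : 0 ≤ (u - 0) / 5 := div_nonneg (by linarith) (by norm_num)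
      positivity
    have hE : Real.exp (0) ≤ 1 := Real.exp_zero.le
    push_cast
    refine hR u _ _ (mul_le_mul_of_nonneg_right hE h4) ?_
    exact od_five_d02_f0 u (by linarith) (by linarith)
  · intro u h1
    have h4 : 0 ≤ (1 + (u - 0) / 5) ^ 5 := by
      have : 0 ≤ (u - 0) / 5 := div_nonneg (by linarith) (by norm_num)
      positivity
    have hE : Real.exp (0) ≤ 1 := Real.exp_zero.le
    have hx : 0 ≤ 3 / 100 * (u ^ 2 - 1) := mul_nonneg (by norm_num) (by nlinarith)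
    have h5 := mul_le_mul_of_nonneg_right (taylor3_le_exp _ hx) (hq u)
    have h6 : 0 ≤ Real.exp (3 / 100 * (u ^ 2 - 1)) * (1 + u + 469 / 1000 * u ^ 2) :=
      mul_nonneg (Real.exp_nonneg _) (hq u)
    rw [Real.exp_add, mul_assoc]
    push_cast
    refine ((mul_le_mul_of_nonneg_right hE h4).trans ?_).trans
      ((mul_le_mul_of_nonneg_left h5 (by norm_num : (0 : ℝ) ≤ (1 + 1 / 100 + (1 / 100) ^ 2 / 2))).trans
        (mul_le_mul_of_nonneg_right hde h6))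
    rcases le_total u (2) with hh | hh
    · exact od_five_d02_g0 u (by linarith) (by linarith)
    rcases le_total u (3) with hh | hh
    · exact od_five_d02_g1 u (by linarith) (by linarith)
    exact od_five_d02_t u (by linarith)

theorem od_five_d03_a0 (u : ℝ) (h1 : -1 ≤ u) (h2 : u ≤ 0) :
    1 + u + u ^ 2 / 2 + u ^ 3 / 6 + u ^ 4 / 24 ≤
      (1 + 3 / 100 + (3 / 100) ^ 2 / 2) * (1 + u + 52 / 125 * u ^ 2) := by
  obtain ⟨s, hs⟩ : ∃ s, s = u - (-1) := ⟨_, rfl⟩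
  obtain ⟨t, ht⟩ : ∃ t, t = 0 - u := ⟨_, rfl⟩
  have hs0 : 0 ≤ s := by linarith
  have ht0 : 0 ≤ t := by linarith
  have h : 0 ≤
      16771 / 312500 * t ^ 4 + 408383 / 7500000 * s * t ^ 3 +
      50043 / 2500000 * s ^ 2 * t ^ 2 + 1827 / 20000 * s ^ 3 * t + 609 / 20000 * s ^ 4 := by
    positivity
  have e :
      16771 / 312500 * t ^ 4 + 408383 / 7500000 * s * t ^ 3 +
      50043 / 2500000 * s ^ 2 * t ^ 2 + 1827 / 20000 * s ^ 3 * t + 609 / 20000 * s ^ 4 =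
      (1 + 3 / 100 + (3 / 100) ^ 2 / 2) * (1 + u + 52 / 125 * u ^ 2) -
      (1 + u + u ^ 2 / 2 + u ^ 3 / 6 + u ^ 4 / 24) := by
    rw [hs, ht]
    ring
  rw [e] at h
  linarith

theorem od_five_d03_b0 (u : ℝ) (h1 : -2 ≤ u) (h2 : u ≤ -1) :
    36788 / 100000 *
      (1 + (u + 1) + (u + 1) ^ 2 / 2 + (u + 1) ^ 3 / 6 + (u + 1) ^ 4 / 24) ≤
      (1 + 3 / 100 + (3 / 100) ^ 2 / 2) * (1 + u + 52 / 125 * u ^ 2) := by
  obtain ⟨s, hs⟩ : ∃ s, s = u - (-2) := ⟨_, rfl⟩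
  obtain ⟨t, ht⟩ : ∃ t, t = -1 - u := ⟨_, rfl⟩
  have hs0 : 0 ≤ s := by linarith
  have ht0 : 0 ≤ t := by linarith
  have h : 0 ≤
      2731319 / 5000000 * t ^ 4 + 10336573 / 7500000 * s * t ^ 3 +
      2984359 / 2500000 * s ^ 2 * t ^ 2 + 1094783 / 2500000 * s ^ 3 * t + 4749 / 78125 * s ^ 4 := by
    positivity
  have e :
      2731319 / 5000000 * t ^ 4 + 10336573 / 7500000 * s * t ^ 3 +
      2984359 / 2500000 * s ^ 2 * t ^ 2 + 1094783 / 2500000 * s ^ 3 * t + 4749 / 78125 * s ^ 4 =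
      (1 + 3 / 100 + (3 / 100) ^ 2 / 2) * (1 + u + 52 / 125 * u ^ 2) -
      (36788 / 100000 *
      (1 + (u + 1) + (u + 1) ^ 2 / 2 + (u + 1) ^ 3 / 6 + (u + 1) ^ 4 / 24)) := by
    rw [hs, ht]
    ring
  rw [e] at h
  linarith

theorem od_five_d03_c0 (u : ℝ) (h1 : -3 ≤ u) (h2 : u ≤ -2) :
    13534 / 100000 *
      (1 + (u + 2) + (u + 2) ^ 2 / 2 + (u + 2) ^ 3 / 6 + (u + 2) ^ 4 / 24) ≤
      (1 + 3 / 100 + (3 / 100) ^ 2 / 2) * (1 + u + 52 / 125 * u ^ 2) := by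
  obtain ⟨s, hs⟩ : ∃ s, s = u - (-3) := ⟨_, rfl⟩
  obtain ⟨t, ht⟩ : ∃ t, t = -2 - u := ⟨_, rfl⟩
  have hs0 : 0 ≤ s := by linarith
  have ht0 : 0 ≤ t := by linarith
  have h : 0 ≤
      17463523 / 10000000 * t ^ 4 + 4049057 / 750000 * s * t ^ 3 +
      7641183 / 1250000 * s ^ 2 * t ^ 2 + 1507537 / 500000 * s ^ 3 * t +
      1372197 / 2500000 * s ^ 4 := by
    positivity
  have e :
      17463523 / 10000000 * t ^ 4 + 4049057 / 750000 * s * t ^ 3 +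
      7641183 / 1250000 * s ^ 2 * t ^ 2 + 1507537 / 500000 * s ^ 3 * t +
      1372197 / 2500000 * s ^ 4 =
      (1 + 3 / 100 + (3 / 100) ^ 2 / 2) * (1 + u + 52 / 125 * u ^ 2) -
      (13534 / 100000 *
      (1 + (u + 2) + (u + 2) ^ 2 / 2 + (u + 2) ^ 3 / 6 + (u + 2) ^ 4 / 24)) := by
    rw [hs, ht]
    ring
  rw [e] at h
  linarith

theorem od_five_d03_d (u : ℝ) (h2 : u ≤ -3) :
    4979 / 100000 ≤
      (1 + 3 / 100 + (3 / 100) ^ 2 / 2) * (1 + u + 52 / 125 * u ^ 2) := by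
  obtain ⟨s, hs⟩ : ∃ s, s = -3 - u := ⟨_, rfl⟩
  have hs0 : 0 ≤ s := by linarith
  have h : 0 ≤
      4368287 / 2500000 + 3853883 / 2500000 * s + 267917 / 625000 * s ^ 2 := by
    positivity
  have e :
      4368287 / 2500000 + 3853883 / 2500000 * s + 267917 / 625000 * s ^ 2 =
      (1 + 3 / 100 + (3 / 100) ^ 2 / 2) * (1 + u + 52 / 125 * u ^ 2) -
      (4979 / 100000) := by
    rw [hs]
    ring
  rw [e] at h
  linarith

theorem od_five_d03_f0 (u : ℝ) (h1 : 0 ≤ u) (h2 : u ≤ 1) :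
    1 * (1 + (u - 0) / 5) ^ 5 ≤
      (1 + 3 / 100 + (3 / 100) ^ 2 / 2) * (1 + u + 52 / 125 * u ^ 2) := by
  obtain ⟨s, hs⟩ : ∃ s, s = u - (0) := ⟨_, rfl⟩
  obtain ⟨t, ht⟩ : ∃ t, t = 1 - u := ⟨_, rfl⟩
  have hs0 : 0 ≤ s := by linarith
  have ht0 : 0 ≤ t := by linarith
  have h : 0 ≤
      609 / 20000 * t ^ 5 + 1827 / 10000 * s * t ^ 4 + 568709 / 1250000 * s ^ 2 * t ^ 3 +
      308251 / 625000 * s ^ 3 * t ^ 2 + 480129 / 2500000 * s ^ 4 * t + 1559 / 1250000 * s ^ 5 := by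
    positivity
  have e :
      609 / 20000 * t ^ 5 + 1827 / 10000 * s * t ^ 4 + 568709 / 1250000 * s ^ 2 * t ^ 3 +
      308251 / 625000 * s ^ 3 * t ^ 2 + 480129 / 2500000 * s ^ 4 * t + 1559 / 1250000 * s ^ 5 =
      (1 + 3 / 100 + (3 / 100) ^ 2 / 2) * (1 + u + 52 / 125 * u ^ 2) -
      (1 * (1 + (u - 0) / 5) ^ 5) := by
    rw [hs, ht]
    ring
  rw [e] at h
  linarith

theorem od_five_d03_g0 (u : ℝ) (h1 : 1 ≤ u) (h2 : u ≤ 2) :
    1 * (1 + (u - 0) / 5) ^ 5 ≤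
      (1 + 3 / 100 + (3 / 100) ^ 2 / 2) * ((1 + (1 / 25 * (u ^ 2 - 1)) +
      (1 / 25 * (u ^ 2 - 1)) ^ 2 / 2 +
      (1 / 25 * (u ^ 2 - 1)) ^ 3 / 6) *
      (1 + u + 52 / 125 * u ^ 2)) := by
  obtain ⟨s, hs⟩ : ∃ s, s = u - (1) := ⟨_, rfl⟩
  obtain ⟨t, ht⟩ : ∃ t, t = 2 - u := ⟨_, rfl⟩
  have hs0 : 0 ≤ s := by linarith
  have ht0 : 0 ≤ t := by linarith
  have h : 0 ≤
      1559 / 1250000 * t ^ 8 + 1457961 / 62500000 * s * t ^ 7 +
      194389511 / 1562500000 * s ^ 2 * t ^ 6 + 4910870309 / 14648437500 * s ^ 3 * t ^ 5 +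
      65237030737 / 117187500000 * s ^ 4 * t ^ 4 +
      29008131713 / 46875000000 * s ^ 5 * t ^ 3 + 35799303697 / 78125000000 * s ^ 6 * t ^ 2 +
      7954866797 / 39062500000 * s ^ 7 * t + 1581582999 / 39062500000 * s ^ 8 := by
    positivity
  have e :
      1559 / 1250000 * t ^ 8 + 1457961 / 62500000 * s * t ^ 7 +
      194389511 / 1562500000 * s ^ 2 * t ^ 6 + 4910870309 / 14648437500 * s ^ 3 * t ^ 5 +
      65237030737 / 117187500000 * s ^ 4 * t ^ 4 +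
      29008131713 / 46875000000 * s ^ 5 * t ^ 3 + 35799303697 / 78125000000 * s ^ 6 * t ^ 2 +
      7954866797 / 39062500000 * s ^ 7 * t + 1581582999 / 39062500000 * s ^ 8 =
      (1 + 3 / 100 + (3 / 100) ^ 2 / 2) * ((1 + (1 / 25 * (u ^ 2 - 1)) +
      (1 / 25 * (u ^ 2 - 1)) ^ 2 / 2 +
      (1 / 25 * (u ^ 2 - 1)) ^ 3 / 6) *
      (1 + u + 52 / 125 * u ^ 2)) -
      (1 * (1 + (u - 0) / 5) ^ 5) := by
    rw [hs, ht]
    ring
  rw [e] at h
  linarith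

theorem od_five_d03_t (u : ℝ) (h1 : 2 ≤ u) :
    1 * (1 + (u - 0) / 5) ^ 5 ≤
      (1 + 3 / 100 + (3 / 100) ^ 2 / 2) * ((1 + (1 / 25 * (u ^ 2 - 1)) +
      (1 / 25 * (u ^ 2 - 1)) ^ 2 / 2 +
      (1 / 25 * (u ^ 2 - 1)) ^ 3 / 6) *
      (1 + u + 52 / 125 * u ^ 2)) := by
  obtain ⟨s, hs⟩ : ∃ s, s = u - (2) := ⟨_, rfl⟩
  have hs0 : 0 ≤ s := by linarith
  have h : 0 ≤
      1581582999 / 39062500000 + 939559439 / 7812500000 * s +
      12999816483 / 78125000000 * s ^ 2 + 28445479223 / 234375000000 * s ^ 3 +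
      415927801 / 9765625000 * s ^ 4 + 220477177 / 29296875000 * s ^ 5 +
      235828787 / 234375000000 * s ^ 6 + 6574271 / 78125000000 * s ^ 7 +
      267917 / 58593750000 * s ^ 8 := by
    positivity
  have e :
      1581582999 / 39062500000 + 939559439 / 7812500000 * s +
      12999816483 / 78125000000 * s ^ 2 + 28445479223 / 234375000000 * s ^ 3 +
      415927801 / 9765625000 * s ^ 4 + 220477177 / 29296875000 * s ^ 5 +
      235828787 / 234375000000 * s ^ 6 + 6574271 / 78125000000 * s ^ 7 +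
      267917 / 58593750000 * s ^ 8 =
      (1 + 3 / 100 + (3 / 100) ^ 2 / 2) * ((1 + (1 / 25 * (u ^ 2 - 1)) +
      (1 / 25 * (u ^ 2 - 1)) ^ 2 / 2 +
      (1 / 25 * (u ^ 2 - 1)) ^ 3 / 6) *
      (1 + u + 52 / 125 * u ^ 2)) -
      (1 * (1 + (u - 0) / 5) ^ 5) := by
    rw [hs]
    ring
  rw [e] at h
  linarith

/-- `K = 5`: `(c, μ, P, δ) = (52 / 125, 1 / 25, 0, 3 / 100)` -/
theorem expOd_five_d03 : ExpOd 5 (52 / 125) (1 / 25) (0) (3 / 100) := by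
  have hde : (1 + 3 / 100 + (3 / 100) ^ 2 / 2) ≤ Real.exp (3 / 100) := Real.quadratic_le_exp_of_nonneg (by norm_num)
  have hq : ∀ u : ℝ, 0 ≤ 1 + u + 52 / 125 * u ^ 2 := fun u => by
    nlinarith [sq_nonneg (u + 2), sq_nonneg u]
  have hR : ∀ (u x y : ℝ), x ≤ y → y ≤ (1 + 3 / 100 + (3 / 100) ^ 2 / 2) * (1 + u + 52 / 125 * u ^ 2) →
      x ≤ Real.exp (3 / 100) * (1 + u + 52 / 125 * u ^ 2) := fun u x y h1 h2 =>
    (h1.trans h2).trans (mul_le_mul_of_nonneg_right hde (hq u))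
  refine ExpOd.of (by norm_num) (by norm_num) (by norm_num) (by norm_num) (by norm_num) ?_ ?_ ?_
  · intro u h1
    rcases le_total u (-3) with h3 | h3
    · exact hR u _ _ (exp_le_n3 h3) (od_five_d03_d u h3)
    rcases le_total u (-2) with h4 | h4
    · refine hR u _ _ (exp_le_n2 h4) ?_
      exact od_five_d03_c0 u (by linarith) (by linarith)
    rcases le_total u (-1) with h5 | h5
    · refine hR u _ _ (exp_le_n1 h5) ?_
      exact od_five_d03_b0 u (by linarith) (by linarith)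
    rcases le_total u 0 with h6 | h6
    · refine hR u _ _ (exp_le_n0 h6) ?_
      exact od_five_d03_a0 u (by linarith) (by linarith)
    have h7 : u = 0 := le_antisymm h1 h6
    refine hR u _ _ (exp_le_n0 h7.le) ?_
    exact od_five_d03_a0 u (by linarith) (by linarith)
  · intro u h1 h2
    have h4 : 0 ≤ (1 + (u - 0) / 5) ^ 5 := by
      have : 0 ≤ (u - 0) / 5 := div_nonneg (by linarith) (by norm_num)
      positivity
    have hE : Real.exp (0) ≤ 1 := Real.exp_zero.le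
    push_cast
    refine hR u _ _ (mul_le_mul_of_nonneg_right hE h4) ?_
    exact od_five_d03_f0 u (by linarith) (by linarith)
  · intro u h1
    have h4 : 0 ≤ (1 + (u - 0) / 5) ^ 5 := by
      have : 0 ≤ (u - 0) / 5 := div_nonneg (by linarith) (by norm_num)
      positivity
    have hE : Real.exp (0) ≤ 1 := Real.exp_zero.le
    have hx : 0 ≤ 1 / 25 * (u ^ 2 - 1) := mul_nonneg (by norm_num) (by nlinarith)
    have h5 := mul_le_mul_of_nonneg_right (taylor3_le_exp _ hx) (hq u)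
    have h6 : 0 ≤ Real.exp (1 / 25 * (u ^ 2 - 1)) * (1 + u + 52 / 125 * u ^ 2) :=
      mul_nonneg (Real.exp_nonneg _) (hq u)
    rw [Real.exp_add, mul_assoc]
    push_cast
    refine ((mul_le_mul_of_nonneg_right hE h4).trans ?_).trans
      ((mul_le_mul_of_nonneg_left h5 (by norm_num : (0 : ℝ) ≤ (1 + 3 / 100 + (3 / 100) ^ 2 / 2))).trans
        (mul_le_mul_of_nonneg_right hde h6))
    rcases le_total u (2) with hh | hh
    · exact od_five_d03_g0 u (by linarith) (by linarith)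
    exact od_five_d03_t u (by linarith)

theorem od_five_d04_a0 (u : ℝ) (h1 : -1 ≤ u) (h2 : u ≤ 0) :
    1 + u + u ^ 2 / 2 + u ^ 3 / 6 + u ^ 4 / 24 ≤
      (1 + 1 / 10 + (1 / 10) ^ 2 / 2) * (1 + u + 17 / 50 * u ^ 2) := by
  obtain ⟨s, hs⟩ : ∃ s, s = u - (-1) := ⟨_, rfl⟩
  obtain ⟨t, ht⟩ : ∃ t, t = 0 - u := ⟨_, rfl⟩
  have hs0 : 0 ≤ s := by linarith
  have ht0 : 0 ≤ t := by linarith
  have h : 0 ≤
      7 / 10000 * t ^ 4 + 173 / 7500 * s * t ^ 3 + 1907 / 10000 * s ^ 2 * t ^ 2 +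
      63 / 200 * s ^ 3 * t + 21 / 200 * s ^ 4 := by
    positivity
  have e :
      7 / 10000 * t ^ 4 + 173 / 7500 * s * t ^ 3 + 1907 / 10000 * s ^ 2 * t ^ 2 +
      63 / 200 * s ^ 3 * t + 21 / 200 * s ^ 4 =
      (1 + 1 / 10 + (1 / 10) ^ 2 / 2) * (1 + u + 17 / 50 * u ^ 2) -
      (1 + u + u ^ 2 / 2 + u ^ 3 / 6 + u ^ 4 / 24) := by
    rw [hs, ht]
    ring
  rw [e] at h
  linarith

theorem od_five_d04_b0 (u : ℝ) (h1 : -2 ≤ u) (h2 : u ≤ -1) :
    36788 / 100000 *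
      (1 + (u + 1) + (u + 1) ^ 2 / 2 + (u + 1) ^ 3 / 6 + (u + 1) ^ 4 / 24) ≤
      (1 + 1 / 10 + (1 / 10) ^ 2 / 2) * (1 + u + 17 / 50 * u ^ 2) := by
  obtain ⟨s, hs⟩ : ∃ s, s = u - (-2) := ⟨_, rfl⟩
  obtain ⟨t, ht⟩ : ∃ t, t = -1 - u := ⟨_, rfl⟩
  have hs0 : 0 ≤ s := by linarith
  have ht0 : 0 ≤ t := by linarith
  have h : 0 ≤
      51969 / 200000 * t ^ 4 + 77843 / 150000 * s * t ^ 3 + 3519 / 12500 * s ^ 2 * t ^ 2 +
      1139 / 25000 * s ^ 3 * t + 391 / 50000 * s ^ 4 := by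
    positivity
  have e :
      51969 / 200000 * t ^ 4 + 77843 / 150000 * s * t ^ 3 + 3519 / 12500 * s ^ 2 * t ^ 2 +
      1139 / 25000 * s ^ 3 * t + 391 / 50000 * s ^ 4 =
      (1 + 1 / 10 + (1 / 10) ^ 2 / 2) * (1 + u + 17 / 50 * u ^ 2) -
      (36788 / 100000 *
      (1 + (u + 1) + (u + 1) ^ 2 / 2 + (u + 1) ^ 3 / 6 + (u + 1) ^ 4 / 24)) := by
    rw [hs, ht]
    ring
  rw [e] at h
  linarith

theorem od_five_d04_c0 (u : ℝ) (h1 : -3 ≤ u) (h2 : u ≤ -2) :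
    13534 / 100000 *
      (1 + (u + 2) + (u + 2) ^ 2 / 2 + (u + 2) ^ 3 / 6 + (u + 2) ^ 4 / 24) ≤
      (1 + 1 / 10 + (1 / 10) ^ 2 / 2) * (1 + u + 17 / 50 * u ^ 2) := by
  obtain ⟨s, hs⟩ : ∃ s, s = u - (-3) := ⟨_, rfl⟩
  obtain ⟨t, ht⟩ : ∃ t, t = -2 - u := ⟨_, rfl⟩
  have hs0 : 0 ≤ s := by linarith
  have ht0 : 0 ≤ t := by linarith
  have h : 0 ≤
      448219 / 400000 * t ^ 4 + 986363 / 300000 * s * t ^ 3 +
      348221 / 100000 * s ^ 2 * t ^ 2 + 79149 / 50000 * s ^ 3 * t + 13123 / 50000 * s ^ 4 := by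
    positivity
  have e :
      448219 / 400000 * t ^ 4 + 986363 / 300000 * s * t ^ 3 +
      348221 / 100000 * s ^ 2 * t ^ 2 + 79149 / 50000 * s ^ 3 * t + 13123 / 50000 * s ^ 4 =
      (1 + 1 / 10 + (1 / 10) ^ 2 / 2) * (1 + u + 17 / 50 * u ^ 2) -
      (13534 / 100000 *
      (1 + (u + 2) + (u + 2) ^ 2 / 2 + (u + 2) ^ 3 / 6 + (u + 2) ^ 4 / 24)) := by
    rw [hs, ht]
    ring
  rw [e] at h
  linarith

theorem od_five_d04_d (u : ℝ) (h2 : u ≤ -3) :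
    4979 / 100000 ≤
      (1 + 1 / 10 + (1 / 10) ^ 2 / 2) * (1 + u + 17 / 50 * u ^ 2) := by
  obtain ⟨s, hs⟩ : ∃ s, s = -3 - u := ⟨_, rfl⟩
  have hs0 : 0 ≤ s := by linarith
  have h : 0 ≤
      112151 / 100000 + 2873 / 2500 * s + 3757 / 10000 * s ^ 2 := by
    positivity
  have e :
      112151 / 100000 + 2873 / 2500 * s + 3757 / 10000 * s ^ 2 =
      (1 + 1 / 10 + (1 / 10) ^ 2 / 2) * (1 + u + 17 / 50 * u ^ 2) -
      (4979 / 100000) := by
    rw [hs]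
    ring
  rw [e] at h
  linarith

theorem od_five_d04_f0 (u : ℝ) (h1 : 0 ≤ u) (h2 : u ≤ 1) :
    1 * (1 + (u - 0) / 5) ^ 5 ≤
      (1 + 1 / 10 + (1 / 10) ^ 2 / 2) * (1 + u + 17 / 50 * u ^ 2) := by
  obtain ⟨s, hs⟩ : ∃ s, s = u - (0) := ⟨_, rfl⟩
  obtain ⟨t, ht⟩ : ∃ t, t = 1 - u := ⟨_, rfl⟩
  have hs0 : 0 ≤ s := by linarith
  have ht0 : 0 ≤ t := by linarith
  have h : 0 ≤
      21 / 200 * t ^ 5 + 63 / 100 * s * t ^ 4 + 14457 / 10000 * s ^ 2 * t ^ 3 +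
      15271 / 10000 * s ^ 3 * t ^ 2 + 7041 / 10000 * s ^ 4 * t + 4869 / 50000 * s ^ 5 := by
    positivity
  have e :
      21 / 200 * t ^ 5 + 63 / 100 * s * t ^ 4 + 14457 / 10000 * s ^ 2 * t ^ 3 +
      15271 / 10000 * s ^ 3 * t ^ 2 + 7041 / 10000 * s ^ 4 * t + 4869 / 50000 * s ^ 5 =
      (1 + 1 / 10 + (1 / 10) ^ 2 / 2) * (1 + u + 17 / 50 * u ^ 2) -
      (1 * (1 + (u - 0) / 5) ^ 5) := by
    rw [hs, ht]
    ring
  rw [e] at h
  linarith

theorem od_five_d04_g0 (u : ℝ) (h1 : 1 ≤ u) (h2 : u ≤ 3) :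
    1 * (1 + (u - 0) / 5) ^ 5 ≤
      (1 + 1 / 10 + (1 / 10) ^ 2 / 2) * ((1 + (1 / 25 * (u ^ 2 - 1)) +
      (1 / 25 * (u ^ 2 - 1)) ^ 2 / 2 +
      (1 / 25 * (u ^ 2 - 1)) ^ 3 / 6) *
      (1 + u + 17 / 50 * u ^ 2)) := by
  obtain ⟨s, hs⟩ : ∃ s, s = u - (1) := ⟨_, rfl⟩
  obtain ⟨t, ht⟩ : ∃ t, t = 3 - u := ⟨_, rfl⟩
  have hs0 : 0 ≤ s := by linarith
  have ht0 : 0 ≤ t := by linarith
  have h : 0 ≤
      4869 / 12800000 * t ^ 8 + 47397 / 16000000 * s * t ^ 7 +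
      922141 / 100000000 * s ^ 2 * t ^ 6 + 145326277 / 10000000000 * s ^ 3 * t ^ 5 +
      246822473 / 20000000000 * s ^ 4 * t ^ 4 + 193130117 / 30000000000 * s ^ 5 * t ^ 3 +
      19763909 / 5000000000 * s ^ 6 * t ^ 2 + 29512287 / 10000000000 * s ^ 7 * t +
      119056903 / 120000000000 * s ^ 8 := by
    positivity
  have e :
      4869 / 12800000 * t ^ 8 + 47397 / 16000000 * s * t ^ 7 +
      922141 / 100000000 * s ^ 2 * t ^ 6 + 145326277 / 10000000000 * s ^ 3 * t ^ 5 +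
      246822473 / 20000000000 * s ^ 4 * t ^ 4 + 193130117 / 30000000000 * s ^ 5 * t ^ 3 +
      19763909 / 5000000000 * s ^ 6 * t ^ 2 + 29512287 / 10000000000 * s ^ 7 * t +
      119056903 / 120000000000 * s ^ 8 =
      (1 + 1 / 10 + (1 / 10) ^ 2 / 2) * ((1 + (1 / 25 * (u ^ 2 - 1)) +
      (1 / 25 * (u ^ 2 - 1)) ^ 2 / 2 +
      (1 / 25 * (u ^ 2 - 1)) ^ 3 / 6) *
      (1 + u + 17 / 50 * u ^ 2)) -
      (1 * (1 + (u - 0) / 5) ^ 5) := by
    rw [hs, ht]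
    ring
  rw [e] at h
  linarith

theorem od_five_d04_t (u : ℝ) (h1 : 3 ≤ u) :
    1 * (1 + (u - 0) / 5) ^ 5 ≤
      (1 + 1 / 10 + (1 / 10) ^ 2 / 2) * ((1 + (1 / 25 * (u ^ 2 - 1)) +
      (1 / 25 * (u ^ 2 - 1)) ^ 2 / 2 +
      (1 / 25 * (u ^ 2 - 1)) ^ 3 / 6) *
      (1 + u + 17 / 50 * u ^ 2)) := by
  obtain ⟨s, hs⟩ : ∃ s, s = u - (3) := ⟨_, rfl⟩
  have hs0 : 0 ≤ s := by linarith
  have h : 0 ≤
      119056903 / 468750000 + 29915389 / 46875000 * s + 83055937 / 117187500 * s ^ 2 +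
      6789441 / 19531250 * s ^ 3 + 28006767 / 312500000 * s ^ 4 +
      2222101 / 156250000 * s ^ 5 + 91273 / 58593750 * s ^ 6 + 50609 / 468750000 * s ^ 7 +
      3757 / 937500000 * s ^ 8 := by
    positivity
  have e :
      119056903 / 468750000 + 29915389 / 46875000 * s + 83055937 / 117187500 * s ^ 2 +
      6789441 / 19531250 * s ^ 3 + 28006767 / 312500000 * s ^ 4 +
      2222101 / 156250000 * s ^ 5 + 91273 / 58593750 * s ^ 6 + 50609 / 468750000 * s ^ 7 +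
      3757 / 937500000 * s ^ 8 =
      (1 + 1 / 10 + (1 / 10) ^ 2 / 2) * ((1 + (1 / 25 * (u ^ 2 - 1)) +
      (1 / 25 * (u ^ 2 - 1)) ^ 2 / 2 +
      (1 / 25 * (u ^ 2 - 1)) ^ 3 / 6) *
      (1 + u + 17 / 50 * u ^ 2)) -
      (1 * (1 + (u - 0) / 5) ^ 5) := by
    rw [hs]
    ring
  rw [e] at h
  linarith

/-- `K = 5`: `(c, μ, P, δ) = (17 / 50, 1 / 25, 0, 1 / 10)` -/
theorem expOd_five_d04 : ExpOd 5 (17 / 50) (1 / 25) (0) (1 / 10) := by
  have hde : (1 + 1 / 10 + (1 / 10) ^ 2 / 2) ≤ Real.exp (1 / 10) := Real.quadratic_le_exp_of_nonneg (by norm_num)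
  have hq : ∀ u : ℝ, 0 ≤ 1 + u + 17 / 50 * u ^ 2 := fun u => by
    nlinarith [sq_nonneg (u + 2), sq_nonneg u]
  have hR : ∀ (u x y : ℝ), x ≤ y → y ≤ (1 + 1 / 10 + (1 / 10) ^ 2 / 2) * (1 + u + 17 / 50 * u ^ 2) →
      x ≤ Real.exp (1 / 10) * (1 + u + 17 / 50 * u ^ 2) := fun u x y h1 h2 =>
    (h1.trans h2).trans (mul_le_mul_of_nonneg_right hde (hq u))
  refine ExpOd.of (by norm_num) (by norm_num) (by norm_num) (by norm_num) (by norm_num) ?_ ?_ ?_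
  · intro u h1
    rcases le_total u (-3) with h3 | h3
    · exact hR u _ _ (exp_le_n3 h3) (od_five_d04_d u h3)
    rcases le_total u (-2) with h4 | h4
    · refine hR u _ _ (exp_le_n2 h4) ?_
      exact od_five_d04_c0 u (by linarith) (by linarith)
    rcases le_total u (-1) with h5 | h5
    · refine hR u _ _ (exp_le_n1 h5) ?_
      exact od_five_d04_b0 u (by linarith) (by linarith)
    rcases le_total u 0 with h6 | h6
    · refine hR u _ _ (exp_le_n0 h6) ?_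
      exact od_five_d04_a0 u (by linarith) (by linarith)
    have h7 : u = 0 := le_antisymm h1 h6
    refine hR u _ _ (exp_le_n0 h7.le) ?_
    exact od_five_d04_a0 u (by linarith) (by linarith)
  · intro u h1 h2
    have h4 : 0 ≤ (1 + (u - 0) / 5) ^ 5 := by
      have : 0 ≤ (u - 0) / 5 := div_nonneg (by linarith) (by norm_num)
      positivity
    have hE : Real.exp (0) ≤ 1 := Real.exp_zero.le
    push_cast
    refine hR u _ _ (mul_le_mul_of_nonneg_right hE h4) ?_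
    exact od_five_d04_f0 u (by linarith) (by linarith)
  · intro u h1
    have h4 : 0 ≤ (1 + (u - 0) / 5) ^ 5 := by
      have : 0 ≤ (u - 0) / 5 := div_nonneg (by linarith) (by norm_num)
      positivity
    have hE : Real.exp (0) ≤ 1 := Real.exp_zero.le
    have hx : 0 ≤ 1 / 25 * (u ^ 2 - 1) := mul_nonneg (by norm_num) (by nlinarith)
    have h5 := mul_le_mul_of_nonneg_right (taylor3_le_exp _ hx) (hq u)
    have h6 : 0 ≤ Real.exp (1 / 25 * (u ^ 2 - 1)) * (1 + u + 17 / 50 * u ^ 2) :=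
      mul_nonneg (Real.exp_nonneg _) (hq u)
    rw [Real.exp_add, mul_assoc]
    push_cast
    refine ((mul_le_mul_of_nonneg_right hE h4).trans ?_).trans
      ((mul_le_mul_of_nonneg_left h5 (by norm_num : (0 : ℝ) ≤ (1 + 1 / 10 + (1 / 10) ^ 2 / 2))).trans
        (mul_le_mul_of_nonneg_right hde h6))
    rcases le_total u (3) with hh | hh
    · exact od_five_d04_g0 u (by linarith) (by linarith)
    exact od_five_d04_t u (by linarith)

theorem od_five_d10_a0 (u : ℝ) (h1 : -1 ≤ u) (h2 : u ≤ 0) :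
    1 + u + u ^ 2 / 2 + u ^ 3 / 6 + u ^ 4 / 24 ≤
      1 * (1 + u + 129 / 200 * u ^ 2) := by
  obtain ⟨s, hs⟩ : ∃ s, s = u - (-1) := ⟨_, rfl⟩
  obtain ⟨t, ht⟩ : ∃ t, t = 0 - u := ⟨_, rfl⟩
  have hs0 : 0 ≤ s := by linarith
  have ht0 : 0 ≤ t := by linarith
  have h : 0 ≤
      27 / 100 * t ^ 4 + 137 / 300 * s * t ^ 3 + 29 / 200 * s ^ 2 * t ^ 2 := by
    positivity
  have e :
      27 / 100 * t ^ 4 + 137 / 300 * s * t ^ 3 + 29 / 200 * s ^ 2 * t ^ 2 =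
      1 * (1 + u + 129 / 200 * u ^ 2) -
      (1 + u + u ^ 2 / 2 + u ^ 3 / 6 + u ^ 4 / 24) := by
    rw [hs, ht]
    ring
  rw [e] at h
  linarith

theorem od_five_d10_b0 (u : ℝ) (h1 : -2 ≤ u) (h2 : u ≤ -1) :
    36788 / 100000 *
      (1 + (u + 1) + (u + 1) ^ 2 / 2 + (u + 1) ^ 3 / 6 + (u + 1) ^ 4 / 24) ≤
      1 * (1 + u + 129 / 200 * u ^ 2) := by
  obtain ⟨s, hs⟩ : ∃ s, s = u - (-2) := ⟨_, rfl⟩
  obtain ⟨t, ht⟩ : ∃ t, t = -1 - u := ⟨_, rfl⟩
  have hs0 : 0 ≤ s := by linarith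
  have ht0 : 0 ≤ t := by linarith
  have h : 0 ≤
      288409 / 200000 * t ^ 4 + 609833 / 150000 * s * t ^ 3 +
      204871 / 50000 * s ^ 2 * t ^ 2 + 44159 / 25000 * s ^ 3 * t + 866 / 3125 * s ^ 4 := by
    positivity
  have e :
      288409 / 200000 * t ^ 4 + 609833 / 150000 * s * t ^ 3 +
      204871 / 50000 * s ^ 2 * t ^ 2 + 44159 / 25000 * s ^ 3 * t + 866 / 3125 * s ^ 4 =
      1 * (1 + u + 129 / 200 * u ^ 2) -
      (36788 / 100000 *
      (1 + (u + 1) + (u + 1) ^ 2 / 2 + (u + 1) ^ 3 / 6 + (u + 1) ^ 4 / 24)) := by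
    rw [hs, ht]
    ring
  rw [e] at h
  linarith

theorem od_five_d10_c0 (u : ℝ) (h1 : -3 ≤ u) (h2 : u ≤ -2) :
    13534 / 100000 *
      (1 + (u + 2) + (u + 2) ^ 2 / 2 + (u + 2) ^ 3 / 6 + (u + 2) ^ 4 / 24) ≤
      1 * (1 + u + 129 / 200 * u ^ 2) := by
  obtain ⟨s, hs⟩ : ∃ s, s = u - (-3) := ⟨_, rfl⟩
  obtain ⟨t, ht⟩ : ∃ t, t = -2 - u := ⟨_, rfl⟩
  have hs0 : 0 ≤ s := by linarith
  have ht0 : 0 ≤ t := by linarith
  have h : 0 ≤
      1501699 / 400000 * t ^ 4 + 3630563 / 300000 * s * t ^ 3 +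
      1439131 / 100000 * s ^ 2 * t ^ 2 + 374699 / 50000 * s ^ 3 * t + 72233 / 50000 * s ^ 4 := by
    positivity
  have e :
      1501699 / 400000 * t ^ 4 + 3630563 / 300000 * s * t ^ 3 +
      1439131 / 100000 * s ^ 2 * t ^ 2 + 374699 / 50000 * s ^ 3 * t + 72233 / 50000 * s ^ 4 =
      1 * (1 + u + 129 / 200 * u ^ 2) -
      (13534 / 100000 *
      (1 + (u + 2) + (u + 2) ^ 2 / 2 + (u + 2) ^ 3 / 6 + (u + 2) ^ 4 / 24)) := by
    rw [hs, ht]
    ring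
  rw [e] at h
  linarith

theorem od_five_d10_d (u : ℝ) (h2 : u ≤ -3) :
    4979 / 100000 ≤
      1 * (1 + u + 129 / 200 * u ^ 2) := by
  obtain ⟨s, hs⟩ : ∃ s, s = -3 - u := ⟨_, rfl⟩
  have hs0 : 0 ≤ s := by linarith
  have h : 0 ≤
      375521 / 100000 + 287 / 100 * s + 129 / 200 * s ^ 2 := by
    positivity
  have e :
      375521 / 100000 + 287 / 100 * s + 129 / 200 * s ^ 2 =
      1 * (1 + u + 129 / 200 * u ^ 2) -
      (4979 / 100000) := by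
    rw [hs]
    ring
  rw [e] at h
  linarith

theorem od_five_d10_e0 (u : ℝ) (h1 : 0 ≤ u) (h2 : u ≤ 1 / 5) :
    1 + u + u ^ 2 / 2 + u ^ 3 / 6 + u ^ 4 / 24 + u ^ 5 / 100 ≤
      1 * (1 + u + 129 / 200 * u ^ 2) := by
  obtain ⟨s, hs⟩ : ∃ s, s = u - (0) := ⟨_, rfl⟩
  obtain ⟨t, ht⟩ : ∃ t, t = 1 / 5 - u := ⟨_, rfl⟩
  have hs0 : 0 ≤ s := by linarith
  have ht0 : 0 ≤ t := by linarith
  have h : 0 ≤
      145 / 8 * s ^ 2 * t ^ 3 + 1205 / 24 * s ^ 3 * t ^ 2 + 275 / 6 * s ^ 4 * t +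
      687 / 50 * s ^ 5 := by
    positivity
  have e :
      145 / 8 * s ^ 2 * t ^ 3 + 1205 / 24 * s ^ 3 * t ^ 2 + 275 / 6 * s ^ 4 * t +
      687 / 50 * s ^ 5 =
      1 * (1 + u + 129 / 200 * u ^ 2) -
      (1 + u + u ^ 2 / 2 + u ^ 3 / 6 + u ^ 4 / 24 + u ^ 5 / 100) := by
    rw [hs, ht]
    ring
  rw [e] at h
  linarith

theorem od_five_d10_f0 (u : ℝ) (h1 : 1 / 5 ≤ u) (h2 : u ≤ 1) :
    122141 / 100000 * (1 + (u - 1 / 5) / 5) ^ 5 ≤
      1 * (1 + u + 129 / 200 * u ^ 2) := by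
  obtain ⟨s, hs⟩ : ∃ s, s = u - (1 / 5) := ⟨_, rfl⟩
  obtain ⟨t, ht⟩ : ∃ t, t = 1 - u := ⟨_, rfl⟩
  have hs0 : 0 ≤ s := by linarith
  have ht0 : 0 ≤ t := by linarith
  have h : 0 ≤
      439 / 32768 * t ^ 5 + 25611 / 163840 * s * t ^ 4 + 1631919 / 2048000 * s ^ 2 * t ^ 3 +
      73415651 / 51200000 * s ^ 3 * t ^ 2 + 2619803879 / 2560000000 * s ^ 4 * t +
      77755562491 / 320000000000 * s ^ 5 := by
    positivity
  have e :
      439 / 32768 * t ^ 5 + 25611 / 163840 * s * t ^ 4 + 1631919 / 2048000 * s ^ 2 * t ^ 3 +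
      73415651 / 51200000 * s ^ 3 * t ^ 2 + 2619803879 / 2560000000 * s ^ 4 * t +
      77755562491 / 320000000000 * s ^ 5 =
      1 * (1 + u + 129 / 200 * u ^ 2) -
      (122141 / 100000 * (1 + (u - 1 / 5) / 5) ^ 5) := by
    rw [hs, ht]
    ring
  rw [e] at h
  linarith

theorem od_five_d10_g0 (u : ℝ) (h1 : 1 ≤ u) (h2 : u ≤ 3) :
    122141 / 100000 * (1 + (u - 1 / 5) / 5) ^ 5 ≤
      1 * ((1 + (1 / 50 * (u ^ 2 - 1)) +
      (1 / 50 * (u ^ 2 - 1)) ^ 2 / 2 +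
      (1 / 50 * (u ^ 2 - 1)) ^ 3 / 6) *
      (1 + u + 129 / 200 * u ^ 2)) := by
  obtain ⟨s, hs⟩ : ∃ s, s = u - (1) := ⟨_, rfl⟩
  obtain ⟨t, ht⟩ : ∃ t, t = 3 - u := ⟨_, rfl⟩
  have hs0 : 0 ≤ s := by linarith
  have ht0 : 0 ≤ t := by linarith
  have h : 0 ≤
      77755562491 / 250000000000000 * t ^ 8 + 490970471939 / 125000000000000 * s * t ^ 7 +
      2404892004199 / 125000000000000 * s ^ 2 * t ^ 6 +
      18233233627669 / 375000000000000 * s ^ 3 * t ^ 5 +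
      881309152631 / 12500000000000 * s ^ 4 * t ^ 4 +
      22728216961619 / 375000000000000 * s ^ 5 * t ^ 3 +
      11341714981547 / 375000000000000 * s ^ 6 * t ^ 2 +
      1000664056789 / 125000000000000 * s ^ 7 * t + 648755517323 / 750000000000000 * s ^ 8 := by
    positivity
  have e :
      77755562491 / 250000000000000 * t ^ 8 + 490970471939 / 125000000000000 * s * t ^ 7 +
      2404892004199 / 125000000000000 * s ^ 2 * t ^ 6 +
      18233233627669 / 375000000000000 * s ^ 3 * t ^ 5 +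
      881309152631 / 12500000000000 * s ^ 4 * t ^ 4 +
      22728216961619 / 375000000000000 * s ^ 5 * t ^ 3 +
      11341714981547 / 375000000000000 * s ^ 6 * t ^ 2 +
      1000664056789 / 125000000000000 * s ^ 7 * t + 648755517323 / 750000000000000 * s ^ 8 =
      1 * ((1 + (1 / 50 * (u ^ 2 - 1)) +
      (1 / 50 * (u ^ 2 - 1)) ^ 2 / 2 +
      (1 / 50 * (u ^ 2 - 1)) ^ 3 / 6) *
      (1 + u + 129 / 200 * u ^ 2)) -
      (122141 / 100000 * (1 + (u - 1 / 5) / 5) ^ 5) := by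
    rw [hs, ht]
    ring
  rw [e] at h
  linarith

theorem od_five_d10_g1 (u : ℝ) (h1 : 3 ≤ u) (h2 : u ≤ 4) :
    122141 / 100000 * (1 + (u - 1 / 5) / 5) ^ 5 ≤
      1 * ((1 + (1 / 50 * (u ^ 2 - 1)) +
      (1 / 50 * (u ^ 2 - 1)) ^ 2 / 2 +
      (1 / 50 * (u ^ 2 - 1)) ^ 3 / 6) *
      (1 + u + 129 / 200 * u ^ 2)) := by
  obtain ⟨s, hs⟩ : ∃ s, s = u - (3) := ⟨_, rfl⟩
  obtain ⟨t, ht⟩ : ∃ t, t = 4 - u := ⟨_, rfl⟩
  have hs0 : 0 ≤ s := by linarith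
  have ht0 : 0 ≤ t := by linarith
  have h : 0 ≤
      648755517323 / 2929687500000 * t ^ 8 + 1594358012503 / 976562500000 * s * t ^ 7 +
      15021537293269 / 2929687500000 * s ^ 2 * t ^ 6 +
      26126325900763 / 2929687500000 * s ^ 3 * t ^ 5 +
      3649780554623 / 390625000000 * s ^ 4 * t ^ 4 +
      35188670210551 / 5859375000000 * s ^ 5 * t ^ 3 +
      9018095332667 / 3906250000000 * s ^ 6 * t ^ 2 +
      120311569057 / 244140625000 * s ^ 7 * t + 23376320333 / 488281250000 * s ^ 8 := by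
    positivity
  have e :
      648755517323 / 2929687500000 * t ^ 8 + 1594358012503 / 976562500000 * s * t ^ 7 +
      15021537293269 / 2929687500000 * s ^ 2 * t ^ 6 +
      26126325900763 / 2929687500000 * s ^ 3 * t ^ 5 +
      3649780554623 / 390625000000 * s ^ 4 * t ^ 4 +
      35188670210551 / 5859375000000 * s ^ 5 * t ^ 3 +
      9018095332667 / 3906250000000 * s ^ 6 * t ^ 2 +
      120311569057 / 244140625000 * s ^ 7 * t + 23376320333 / 488281250000 * s ^ 8 =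
      1 * ((1 + (1 / 50 * (u ^ 2 - 1)) +
      (1 / 50 * (u ^ 2 - 1)) ^ 2 / 2 +
      (1 / 50 * (u ^ 2 - 1)) ^ 3 / 6) *
      (1 + u + 129 / 200 * u ^ 2)) -
      (122141 / 100000 * (1 + (u - 1 / 5) / 5) ^ 5) := by
    rw [hs, ht]
    ring
  rw [e] at h
  linarith

theorem od_five_d10_g2 (u : ℝ) (h1 : 4 ≤ u) (h2 : u ≤ 5) :
    122141 / 100000 * (1 + (u - 1 / 5) / 5) ^ 5 ≤
      1 * ((1 + (1 / 50 * (u ^ 2 - 1)) +
      (1 / 50 * (u ^ 2 - 1)) ^ 2 / 2 +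
      (1 / 50 * (u ^ 2 - 1)) ^ 3 / 6) *
      (1 + u + 129 / 200 * u ^ 2)) := by
  obtain ⟨s, hs⟩ : ∃ s, s = u - (4) := ⟨_, rfl⟩
  obtain ⟨t, ht⟩ : ∃ t, t = 5 - u := ⟨_, rfl⟩
  have hs0 : 0 ≤ s := by linarith
  have ht0 : 0 ≤ t := by linarith
  have h : 0 ≤
      23376320333 / 488281250000 * t ^ 8 + 66698993607 / 244140625000 * s * t ^ 7 +
      3013486882267 / 3906250000000 * s ^ 2 * t ^ 6 +
      10260020668751 / 5859375000000 * s ^ 3 * t ^ 5 +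
      4034517473269 / 1171875000000 * s ^ 4 * t ^ 4 +
      4702331747671 / 976562500000 * s ^ 5 * t ^ 3 +
      4028045507873 / 976562500000 * s ^ 6 * t ^ 2 +
      1874177931153 / 976562500000 * s ^ 7 * t + 363042174391 / 976562500000 * s ^ 8 := by
    positivity
  have e :
      23376320333 / 488281250000 * t ^ 8 + 66698993607 / 244140625000 * s * t ^ 7 +
      3013486882267 / 3906250000000 * s ^ 2 * t ^ 6 +
      10260020668751 / 5859375000000 * s ^ 3 * t ^ 5 +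
      4034517473269 / 1171875000000 * s ^ 4 * t ^ 4 +
      4702331747671 / 976562500000 * s ^ 5 * t ^ 3 +
      4028045507873 / 976562500000 * s ^ 6 * t ^ 2 +
      1874177931153 / 976562500000 * s ^ 7 * t + 363042174391 / 976562500000 * s ^ 8 =
      1 * ((1 + (1 / 50 * (u ^ 2 - 1)) +
      (1 / 50 * (u ^ 2 - 1)) ^ 2 / 2 +
      (1 / 50 * (u ^ 2 - 1)) ^ 3 / 6) *
      (1 + u + 129 / 200 * u ^ 2)) -
      (122141 / 100000 * (1 + (u - 1 / 5) / 5) ^ 5) := by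
    rw [hs, ht]
    ring
  rw [e] at h
  linarith

theorem od_five_d10_t (u : ℝ) (h1 : 5 ≤ u) :
    122141 / 100000 * (1 + (u - 1 / 5) / 5) ^ 5 ≤
      1 * ((1 + (1 / 50 * (u ^ 2 - 1)) +
      (1 / 50 * (u ^ 2 - 1)) ^ 2 / 2 +
      (1 / 50 * (u ^ 2 - 1)) ^ 3 / 6) *
      (1 + u + 129 / 200 * u ^ 2)) := by
  obtain ⟨s, hs⟩ : ∃ s, s = u - (5) := ⟨_, rfl⟩
  have hs0 : 0 ≤ s := by linarith
  have h : 0 ≤
      363042174391 / 976562500000 + 41206378559 / 39062500000 * s +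
      4295923491 / 3906250000 * s ^ 2 + 350853209 / 781250000 * s ^ 3 +
      168665071 / 1875000000 * s ^ 4 + 6473593 / 625000000 * s ^ 5 +
      38821 / 50000000 * s ^ 6 + 67 / 1875000 * s ^ 7 + 43 / 50000000 * s ^ 8 := by
    positivity
  have e :
      363042174391 / 976562500000 + 41206378559 / 39062500000 * s +
      4295923491 / 3906250000 * s ^ 2 + 350853209 / 781250000 * s ^ 3 +
      168665071 / 1875000000 * s ^ 4 + 6473593 / 625000000 * s ^ 5 +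
      38821 / 50000000 * s ^ 6 + 67 / 1875000 * s ^ 7 + 43 / 50000000 * s ^ 8 =
      1 * ((1 + (1 / 50 * (u ^ 2 - 1)) +
      (1 / 50 * (u ^ 2 - 1)) ^ 2 / 2 +
      (1 / 50 * (u ^ 2 - 1)) ^ 3 / 6) *
      (1 + u + 129 / 200 * u ^ 2)) -
      (122141 / 100000 * (1 + (u - 1 / 5) / 5) ^ 5) := by
    rw [hs]
    ring
  rw [e] at h
  linarith

/-- `K = 5`: `(c, μ, P, δ) = (129 / 200, 1 / 50, 1 / 5, 0)` -/
theorem expOd_five_d10 : ExpOd 5 (129 / 200) (1 / 50) (1 / 5) (0) := by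
  have hde : 1 ≤ Real.exp (0) := Real.exp_zero.ge
  have hq : ∀ u : ℝ, 0 ≤ 1 + u + 129 / 200 * u ^ 2 := fun u => by
    nlinarith [sq_nonneg (u + 2), sq_nonneg u]
  have hR : ∀ (u x y : ℝ), x ≤ y → y ≤ 1 * (1 + u + 129 / 200 * u ^ 2) →
      x ≤ Real.exp (0) * (1 + u + 129 / 200 * u ^ 2) := fun u x y h1 h2 =>
    (h1.trans h2).trans (mul_le_mul_of_nonneg_right hde (hq u))
  refine ExpOd.of (by norm_num) (by norm_num) (by norm_num) (by norm_num) (by norm_num) ?_ ?_ ?_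
  · intro u h1
    rcases le_total u (-3) with h3 | h3
    · exact hR u _ _ (exp_le_n3 h3) (od_five_d10_d u h3)
    rcases le_total u (-2) with h4 | h4
    · refine hR u _ _ (exp_le_n2 h4) ?_
      exact od_five_d10_c0 u (by linarith) (by linarith)
    rcases le_total u (-1) with h5 | h5
    · refine hR u _ _ (exp_le_n1 h5) ?_
      exact od_five_d10_b0 u (by linarith) (by linarith)
    rcases le_total u 0 with h6 | h6
    · refine hR u _ _ (exp_le_n0 h6) ?_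
      exact od_five_d10_a0 u (by linarith) (by linarith)
    refine hR u _ _ (exp_le_p h6 (by linarith)) ?_
    exact od_five_d10_e0 u (by linarith) (by linarith)
  · intro u h1 h2
    have h4 : 0 ≤ (1 + (u - 1 / 5) / 5) ^ 5 := by
      have : 0 ≤ (u - 1 / 5) / 5 := div_nonneg (by linarith) (by norm_num)
      positivity
    have hE : Real.exp (1 / 5) ≤ 122141 / 100000 := exp_up_1_5
    push_cast
    refine hR u _ _ (mul_le_mul_of_nonneg_right hE h4) ?_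
    exact od_five_d10_f0 u (by linarith) (by linarith)
  · intro u h1
    have h4 : 0 ≤ (1 + (u - 1 / 5) / 5) ^ 5 := by
      have : 0 ≤ (u - 1 / 5) / 5 := div_nonneg (by linarith) (by norm_num)
      positivity
    have hE : Real.exp (1 / 5) ≤ 122141 / 100000 := exp_up_1_5
    have hx : 0 ≤ 1 / 50 * (u ^ 2 - 1) := mul_nonneg (by norm_num) (by nlinarith)
    have h5 := mul_le_mul_of_nonneg_right (taylor3_le_exp _ hx) (hq u)
    have h6 : 0 ≤ Real.exp (1 / 50 * (u ^ 2 - 1)) * (1 + u + 129 / 200 * u ^ 2) :=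
      mul_nonneg (Real.exp_nonneg _) (hq u)
    rw [Real.exp_add, mul_assoc]
    push_cast
    refine ((mul_le_mul_of_nonneg_right hE h4).trans ?_).trans
      ((mul_le_mul_of_nonneg_left h5 (by norm_num : (0 : ℝ) ≤ 1)).trans
        (mul_le_mul_of_nonneg_right hde h6))
    rcases le_total u (3) with hh | hh
    · exact od_five_d10_g0 u (by linarith) (by linarith)
    rcases le_total u (4) with hh | hh
    · exact od_five_d10_g1 u (by linarith) (by linarith)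
    rcases le_total u (5) with hh | hh
    · exact od_five_d10_g2 u (by linarith) (by linarith)
    exact od_five_d10_t u (by linarith)

theorem od_five_d11_a0 (u : ℝ) (h1 : -1 ≤ u) (h2 : u ≤ 0) :
    1 + u + u ^ 2 / 2 + u ^ 3 / 6 + u ^ 4 / 24 ≤
      1 * (1 + u + 567 / 1000 * u ^ 2) := by
  obtain ⟨s, hs⟩ : ∃ s, s = u - (-1) := ⟨_, rfl⟩
  obtain ⟨t, ht⟩ : ∃ t, t = 0 - u := ⟨_, rfl⟩
  have hs0 : 0 ≤ s := by linarith
  have ht0 : 0 ≤ t := by linarith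
  have h : 0 ≤
      24 / 125 * t ^ 4 + 451 / 1500 * s * t ^ 3 + 67 / 1000 * s ^ 2 * t ^ 2 := by
    positivity
  have e :
      24 / 125 * t ^ 4 + 451 / 1500 * s * t ^ 3 + 67 / 1000 * s ^ 2 * t ^ 2 =
      1 * (1 + u + 567 / 1000 * u ^ 2) -
      (1 + u + u ^ 2 / 2 + u ^ 3 / 6 + u ^ 4 / 24) := by
    rw [hs, ht]
    ring
  rw [e] at h
  linarith

theorem od_five_d11_b0 (u : ℝ) (h1 : -2 ≤ u) (h2 : u ≤ -1) :
    36788 / 100000 *
      (1 + (u + 1) + (u + 1) ^ 2 / 2 + (u + 1) ^ 3 / 6 + (u + 1) ^ 4 / 24) ≤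
      1 * (1 + u + 567 / 1000 * u ^ 2) := by
  obtain ⟨s, hs⟩ : ∃ s, s = u - (-2) := ⟨_, rfl⟩
  obtain ⟨t, ht⟩ : ∃ t, t = -1 - u := ⟨_, rfl⟩
  have hs0 : 0 ≤ s := by linarith
  have ht0 : 0 ≤ t := by linarith
  have h : 0 ≤
      226009 / 200000 * t ^ 4 + 469433 / 150000 * s * t ^ 3 +
      154171 / 50000 * s ^ 2 * t ^ 2 + 32459 / 25000 * s ^ 3 * t + 2489 / 12500 * s ^ 4 := by
    positivity
  have e :
      226009 / 200000 * t ^ 4 + 469433 / 150000 * s * t ^ 3 +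
      154171 / 50000 * s ^ 2 * t ^ 2 + 32459 / 25000 * s ^ 3 * t + 2489 / 12500 * s ^ 4 =
      1 * (1 + u + 567 / 1000 * u ^ 2) -
      (36788 / 100000 *
      (1 + (u + 1) + (u + 1) ^ 2 / 2 + (u + 1) ^ 3 / 6 + (u + 1) ^ 4 / 24)) := by
    rw [hs, ht]
    ring
  rw [e] at h
  linarith

theorem od_five_d11_c0 (u : ℝ) (h1 : -3 ≤ u) (h2 : u ≤ -2) :
    13534 / 100000 *
      (1 + (u + 2) + (u + 2) ^ 2 / 2 + (u + 2) ^ 3 / 6 + (u + 2) ^ 4 / 24) ≤
      1 * (1 + u + 567 / 1000 * u ^ 2) := by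
  obtain ⟨s, hs⟩ : ∃ s, s = u - (-3) := ⟨_, rfl⟩
  obtain ⟨t, ht⟩ : ∃ t, t = -2 - u := ⟨_, rfl⟩
  have hs0 : 0 ≤ s := by linarith
  have ht0 : 0 ≤ t := by linarith
  have h : 0 ≤
      1220899 / 400000 * t ^ 4 + 2928563 / 300000 * s * t ^ 3 +
      1150531 / 100000 * s ^ 2 * t ^ 2 + 296699 / 50000 * s ^ 3 * t + 56633 / 50000 * s ^ 4 := by
    positivity
  have e :
      1220899 / 400000 * t ^ 4 + 2928563 / 300000 * s * t ^ 3 +
      1150531 / 100000 * s ^ 2 * t ^ 2 + 296699 / 50000 * s ^ 3 * t + 56633 / 50000 * s ^ 4 =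
      1 * (1 + u + 567 / 1000 * u ^ 2) -
      (13534 / 100000 *
      (1 + (u + 2) + (u + 2) ^ 2 / 2 + (u + 2) ^ 3 / 6 + (u + 2) ^ 4 / 24)) := by
    rw [hs, ht]
    ring
  rw [e] at h
  linarith

theorem od_five_d11_d (u : ℝ) (h2 : u ≤ -3) :
    4979 / 100000 ≤
      1 * (1 + u + 567 / 1000 * u ^ 2) := by
  obtain ⟨s, hs⟩ : ∃ s, s = -3 - u := ⟨_, rfl⟩
  have hs0 : 0 ≤ s := by linarith
  have h : 0 ≤
      305321 / 100000 + 1201 / 500 * s + 567 / 1000 * s ^ 2 := by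
    positivity
  have e :
      305321 / 100000 + 1201 / 500 * s + 567 / 1000 * s ^ 2 =
      1 * (1 + u + 567 / 1000 * u ^ 2) -
      (4979 / 100000) := by
    rw [hs]
    ring
  rw [e] at h
  linarith

theorem od_five_d11_e0 (u : ℝ) (h1 : 0 ≤ u) (h2 : u ≤ 1 / 5) :
    1 + u + u ^ 2 / 2 + u ^ 3 / 6 + u ^ 4 / 24 + u ^ 5 / 100 ≤
      1 * (1 + u + 567 / 1000 * u ^ 2) := by
  obtain ⟨s, hs⟩ : ∃ s, s = u - (0) := ⟨_, rfl⟩
  obtain ⟨t, ht⟩ : ∃ t, t = 1 / 5 - u := ⟨_, rfl⟩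
  have hs0 : 0 ≤ s := by linarith
  have ht0 : 0 ≤ t := by linarith
  have h : 0 ≤
      67 / 8 * s ^ 2 * t ^ 3 + 503 / 24 * s ^ 3 * t ^ 2 + 199 / 12 * s ^ 4 * t +
      399 / 100 * s ^ 5 := by
    positivity
  have e :
      67 / 8 * s ^ 2 * t ^ 3 + 503 / 24 * s ^ 3 * t ^ 2 + 199 / 12 * s ^ 4 * t +
      399 / 100 * s ^ 5 =
      1 * (1 + u + 567 / 1000 * u ^ 2) -
      (1 + u + u ^ 2 / 2 + u ^ 3 / 6 + u ^ 4 / 24 + u ^ 5 / 100) := by
    rw [hs, ht]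
    ring
  rw [e] at h
  linarith

theorem od_five_d11_f0 (u : ℝ) (h1 : 1 / 5 ≤ u) (h2 : u ≤ 1) :
    122141 / 100000 * (1 + (u - 1 / 5) / 5) ^ 5 ≤
      1 * (1 + u + 567 / 1000 * u ^ 2) := by
  obtain ⟨s, hs⟩ : ∃ s, s = u - (1 / 5) := ⟨_, rfl⟩
  obtain ⟨t, ht⟩ : ∃ t, t = 1 - u := ⟨_, rfl⟩
  have hs0 : 0 ≤ s := by linarith
  have ht0 : 0 ≤ t := by linarith
  have h : 0 ≤
      127 / 32768 * t ^ 5 + 5331 / 163840 * s * t ^ 4 + 500919 / 2048000 * s ^ 2 * t ^ 3 +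
      21740651 / 51200000 * s ^ 3 * t ^ 2 + 547928879 / 2560000000 * s ^ 4 * t +
      1583687491 / 320000000000 * s ^ 5 := by
    positivity
  have e :
      127 / 32768 * t ^ 5 + 5331 / 163840 * s * t ^ 4 + 500919 / 2048000 * s ^ 2 * t ^ 3 +
      21740651 / 51200000 * s ^ 3 * t ^ 2 + 547928879 / 2560000000 * s ^ 4 * t +
      1583687491 / 320000000000 * s ^ 5 =
      1 * (1 + u + 567 / 1000 * u ^ 2) -
      (122141 / 100000 * (1 + (u - 1 / 5) / 5) ^ 5) := by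
    rw [hs, ht]
    ring
  rw [e] at h
  linarith

theorem od_five_d11_g0 (u : ℝ) (h1 : 1 ≤ u) (h2 : u ≤ 2) :
    122141 / 100000 * (1 + (u - 1 / 5) / 5) ^ 5 ≤
      1 * ((1 + (3 / 100 * (u ^ 2 - 1)) +
      (3 / 100 * (u ^ 2 - 1)) ^ 2 / 2 +
      (3 / 100 * (u ^ 2 - 1)) ^ 3 / 6) *
      (1 + u + 567 / 1000 * u ^ 2)) := by
  obtain ⟨s, hs⟩ : ∃ s, s = u - (1) := ⟨_, rfl⟩
  obtain ⟨t, ht⟩ : ∃ t, t = 2 - u := ⟨_, rfl⟩
  have hs0 : 0 ≤ s := by linarith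
  have ht0 : 0 ≤ t := by linarith
  have h : 0 ≤
      1583687491 / 976562500000 * t ^ 8 + 87363815653 / 976562500000 * s * t ^ 7 +
      1161893260771 / 1953125000000 * s ^ 2 * t ^ 6 +
      6861685348009 / 3906250000000 * s ^ 3 * t ^ 5 +
      2257129018421 / 781250000000 * s ^ 4 * t ^ 4 +
      44529123468561 / 15625000000000 * s ^ 5 * t ^ 3 +
      52844813569761 / 31250000000000 * s ^ 6 * t ^ 2 +
      4391644045149 / 7812500000000 * s ^ 7 * t + 635770814603 / 7812500000000 * s ^ 8 := by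
    positivity
  have e :
      1583687491 / 976562500000 * t ^ 8 + 87363815653 / 976562500000 * s * t ^ 7 +
      1161893260771 / 1953125000000 * s ^ 2 * t ^ 6 +
      6861685348009 / 3906250000000 * s ^ 3 * t ^ 5 +
      2257129018421 / 781250000000 * s ^ 4 * t ^ 4 +
      44529123468561 / 15625000000000 * s ^ 5 * t ^ 3 +
      52844813569761 / 31250000000000 * s ^ 6 * t ^ 2 +
      4391644045149 / 7812500000000 * s ^ 7 * t + 635770814603 / 7812500000000 * s ^ 8 =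
      1 * ((1 + (3 / 100 * (u ^ 2 - 1)) +
      (3 / 100 * (u ^ 2 - 1)) ^ 2 / 2 +
      (3 / 100 * (u ^ 2 - 1)) ^ 3 / 6) *
      (1 + u + 567 / 1000 * u ^ 2)) -
      (122141 / 100000 * (1 + (u - 1 / 5) / 5) ^ 5) := by
    rw [hs, ht]
    ring
  rw [e] at h
  linarith

theorem od_five_d11_t (u : ℝ) (h1 : 2 ≤ u) :
    122141 / 100000 * (1 + (u - 1 / 5) / 5) ^ 5 ≤
      1 * ((1 + (3 / 100 * (u ^ 2 - 1)) +
      (3 / 100 * (u ^ 2 - 1)) ^ 2 / 2 +
      (3 / 100 * (u ^ 2 - 1)) ^ 3 / 6) *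
      (1 + u + 567 / 1000 * u ^ 2)) := by
  obtain ⟨s, hs⟩ : ∃ s, s = u - (2) := ⟨_, rfl⟩
  have hs0 : 0 ≤ s := by linarith
  have h : 0 ≤
      635770814603 / 7812500000000 + 27780898867 / 312500000000 * s +
      8680892329 / 250000000000 * s ^ 2 + 38129929 / 781250000 * s ^ 3 +
      272573237 / 10000000000 * s ^ 4 + 11476667 / 2500000000 * s ^ 5 +
      1201527 / 2000000000 * s ^ 6 + 11331 / 250000000 * s ^ 7 + 5103 / 2000000000 * s ^ 8 := by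
    positivity
  have e :
      635770814603 / 7812500000000 + 27780898867 / 312500000000 * s +
      8680892329 / 250000000000 * s ^ 2 + 38129929 / 781250000 * s ^ 3 +
      272573237 / 10000000000 * s ^ 4 + 11476667 / 2500000000 * s ^ 5 +
      1201527 / 2000000000 * s ^ 6 + 11331 / 250000000 * s ^ 7 + 5103 / 2000000000 * s ^ 8 =
      1 * ((1 + (3 / 100 * (u ^ 2 - 1)) +
      (3 / 100 * (u ^ 2 - 1)) ^ 2 / 2 +
      (3 / 100 * (u ^ 2 - 1)) ^ 3 / 6) *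
      (1 + u + 567 / 1000 * u ^ 2)) -
      (122141 / 100000 * (1 + (u - 1 / 5) / 5) ^ 5) := by
    rw [hs]
    ring
  rw [e] at h
  linarith

/-- `K = 5`: `(c, μ, P, δ) = (567 / 1000, 3 / 100, 1 / 5, 0)` -/
theorem expOd_five_d11 : ExpOd 5 (567 / 1000) (3 / 100) (1 / 5) (0) := by
  have hde : 1 ≤ Real.exp (0) := Real.exp_zero.ge
  have hq : ∀ u : ℝ, 0 ≤ 1 + u + 567 / 1000 * u ^ 2 := fun u => by
    nlinarith [sq_nonneg (u + 2), sq_nonneg u]
  have hR : ∀ (u x y : ℝ), x ≤ y → y ≤ 1 * (1 + u + 567 / 1000 * u ^ 2) →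
      x ≤ Real.exp (0) * (1 + u + 567 / 1000 * u ^ 2) := fun u x y h1 h2 =>
    (h1.trans h2).trans (mul_le_mul_of_nonneg_right hde (hq u))
  refine ExpOd.of (by norm_num) (by norm_num) (by norm_num) (by norm_num) (by norm_num) ?_ ?_ ?_
  · intro u h1
    rcases le_total u (-3) with h3 | h3
    · exact hR u _ _ (exp_le_n3 h3) (od_five_d11_d u h3)
    rcases le_total u (-2) with h4 | h4
    · refine hR u _ _ (exp_le_n2 h4) ?_
      exact od_five_d11_c0 u (by linarith) (by linarith)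
    rcases le_total u (-1) with h5 | h5
    · refine hR u _ _ (exp_le_n1 h5) ?_
      exact od_five_d11_b0 u (by linarith) (by linarith)
    rcases le_total u 0 with h6 | h6
    · refine hR u _ _ (exp_le_n0 h6) ?_
      exact od_five_d11_a0 u (by linarith) (by linarith)
    refine hR u _ _ (exp_le_p h6 (by linarith)) ?_
    exact od_five_d11_e0 u (by linarith) (by linarith)
  · intro u h1 h2
    have h4 : 0 ≤ (1 + (u - 1 / 5) / 5) ^ 5 := by
      have : 0 ≤ (u - 1 / 5) / 5 := div_nonneg (by linarith) (by norm_num)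
      positivity
    have hE : Real.exp (1 / 5) ≤ 122141 / 100000 := exp_up_1_5
    push_cast
    refine hR u _ _ (mul_le_mul_of_nonneg_right hE h4) ?_
    exact od_five_d11_f0 u (by linarith) (by linarith)
  · intro u h1
    have h4 : 0 ≤ (1 + (u - 1 / 5) / 5) ^ 5 := by
      have : 0 ≤ (u - 1 / 5) / 5 := div_nonneg (by linarith) (by norm_num)
      positivity
    have hE : Real.exp (1 / 5) ≤ 122141 / 100000 := exp_up_1_5
    have hx : 0 ≤ 3 / 100 * (u ^ 2 - 1) := mul_nonneg (by norm_num) (by nlinarith)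
    have h5 := mul_le_mul_of_nonneg_right (taylor3_le_exp _ hx) (hq u)
    have h6 : 0 ≤ Real.exp (3 / 100 * (u ^ 2 - 1)) * (1 + u + 567 / 1000 * u ^ 2) :=
      mul_nonneg (Real.exp_nonneg _) (hq u)
    rw [Real.exp_add, mul_assoc]
    push_cast
    refine ((mul_le_mul_of_nonneg_right hE h4).trans ?_).trans
      ((mul_le_mul_of_nonneg_left h5 (by norm_num : (0 : ℝ) ≤ 1)).trans
        (mul_le_mul_of_nonneg_right hde h6))
    rcases le_total u (2) with hh | hh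
    · exact od_five_d11_g0 u (by linarith) (by linarith)
    exact od_five_d11_t u (by linarith)

theorem od_five_d12_a0 (u : ℝ) (h1 : -1 ≤ u) (h2 : u ≤ 0) :
    1 + u + u ^ 2 / 2 + u ^ 3 / 6 + u ^ 4 / 24 ≤
      (1 + 1 / 100 + (1 / 100) ^ 2 / 2) * (1 + u + 541 / 1000 * u ^ 2) := by
  obtain ⟨s, hs⟩ : ∃ s, s = u - (-1) := ⟨_, rfl⟩
  obtain ⟨t, ht⟩ : ∃ t, t = 0 - u := ⟨_, rfl⟩
  have hs0 : 0 ≤ s := by linarith
  have ht0 : 0 ≤ t := by linarith
  have h : 0 ≤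
      3428741 / 20000000 * t ^ 4 + 8087723 / 30000000 * s * t ^ 3 +
      1531741 / 20000000 * s ^ 2 * t ^ 2 + 603 / 20000 * s ^ 3 * t + 201 / 20000 * s ^ 4 := by
    positivity
  have e :
      3428741 / 20000000 * t ^ 4 + 8087723 / 30000000 * s * t ^ 3 +
      1531741 / 20000000 * s ^ 2 * t ^ 2 + 603 / 20000 * s ^ 3 * t + 201 / 20000 * s ^ 4 =
      (1 + 1 / 100 + (1 / 100) ^ 2 / 2) * (1 + u + 541 / 1000 * u ^ 2) -
      (1 + u + u ^ 2 / 2 + u ^ 3 / 6 + u ^ 4 / 24) := by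
    rw [hs, ht]
    ring
  rw [e] at h
  linarith

theorem od_five_d12_b0 (u : ℝ) (h1 : -2 ≤ u) (h2 : u ≤ -1) :
    36788 / 100000 *
      (1 + (u + 1) + (u + 1) ^ 2 / 2 + (u + 1) ^ 3 / 6 + (u + 1) ^ 4 / 24) ≤
      (1 + 1 / 100 + (1 / 100) ^ 2 / 2) * (1 + u + 541 / 1000 * u ^ 2) := by
  obtain ⟨s, hs⟩ : ∃ s, s = u - (-2) := ⟨_, rfl⟩
  obtain ⟨t, ht⟩ : ∃ t, t = -1 - u := ⟨_, rfl⟩
  have hs0 : 0 ≤ s := by linarith
  have ht0 : 0 ≤ t := by linarith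
  have h : 0 ≤
      1297179 / 1250000 * t ^ 4 + 42789719 / 15000000 * s * t ^ 3 +
      55719033 / 20000000 * s ^ 2 * t ^ 2 + 11649323 / 10000000 * s ^ 3 * t +
      3571141 / 20000000 * s ^ 4 := by
    positivity
  have e :
      1297179 / 1250000 * t ^ 4 + 42789719 / 15000000 * s * t ^ 3 +
      55719033 / 20000000 * s ^ 2 * t ^ 2 + 11649323 / 10000000 * s ^ 3 * t +
      3571141 / 20000000 * s ^ 4 =
      (1 + 1 / 100 + (1 / 100) ^ 2 / 2) * (1 + u + 541 / 1000 * u ^ 2) -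
      (36788 / 100000 *
      (1 + (u + 1) + (u + 1) ^ 2 / 2 + (u + 1) ^ 3 / 6 + (u + 1) ^ 4 / 24)) := by
    rw [hs, ht]
    ring
  rw [e] at h
  linarith

theorem od_five_d12_c0 (u : ℝ) (h1 : -3 ≤ u) (h2 : u ≤ -2) :
    13534 / 100000 *
      (1 + (u + 2) + (u + 2) ^ 2 / 2 + (u + 2) ^ 3 / 6 + (u + 2) ^ 4 / 24) ≤
      (1 + 1 / 100 + (1 / 100) ^ 2 / 2) * (1 + u + 541 / 1000 * u ^ 2) := by
  obtain ⟨s, hs⟩ : ∃ s, s = u - (-3) := ⟨_, rfl⟩
  obtain ⟨t, ht⟩ : ∃ t, t = -2 - u := ⟨_, rfl⟩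
  have hs0 : 0 ≤ s := by linarith
  have ht0 : 0 ≤ t := by linarith
  have h : 0 ≤
      56941619 / 20000000 * t ^ 4 + 54447829 / 6000000 * s * t ^ 3 +
      213080617 / 20000000 * s ^ 2 * t ^ 2 + 5472471 / 1000000 * s ^ 3 * t +
      5201791 / 5000000 * s ^ 4 := by
    positivity
  have e :
      56941619 / 20000000 * t ^ 4 + 54447829 / 6000000 * s * t ^ 3 +
      213080617 / 20000000 * s ^ 2 * t ^ 2 + 5472471 / 1000000 * s ^ 3 * t +
      5201791 / 5000000 * s ^ 4 =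
      (1 + 1 / 100 + (1 / 100) ^ 2 / 2) * (1 + u + 541 / 1000 * u ^ 2) -
      (13534 / 100000 *
      (1 + (u + 2) + (u + 2) ^ 2 / 2 + (u + 2) ^ 3 / 6 + (u + 2) ^ 4 / 24)) := by
    rw [hs, ht]
    ring
  rw [e] at h
  linarith

theorem od_five_d12_d (u : ℝ) (h2 : u ≤ -3) :
    4979 / 100000 ≤
      (1 + 1 / 100 + (1 / 100) ^ 2 / 2) * (1 + u + 541 / 1000 * u ^ 2) := by
  obtain ⟨s, hs⟩ : ∃ s, s = -3 - u := ⟨_, rfl⟩
  have hs0 : 0 ≤ s := by linarith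
  have h : 0 ≤
      56960869 / 20000000 + 22685723 / 10000000 * s + 10928741 / 20000000 * s ^ 2 := by
    positivity
  have e :
      56960869 / 20000000 + 22685723 / 10000000 * s + 10928741 / 20000000 * s ^ 2 =
      (1 + 1 / 100 + (1 / 100) ^ 2 / 2) * (1 + u + 541 / 1000 * u ^ 2) -
      (4979 / 100000) := by
    rw [hs]
    ring
  rw [e] at h
  linarith

theorem od_five_d12_e0 (u : ℝ) (h1 : 0 ≤ u) (h2 : u ≤ 1 / 5) :
    1 + u + u ^ 2 / 2 + u ^ 3 / 6 + u ^ 4 / 24 + u ^ 5 / 100 ≤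
      (1 + 1 / 100 + (1 / 100) ^ 2 / 2) * (1 + u + 541 / 1000 * u ^ 2) := by
  obtain ⟨s, hs⟩ : ∃ s, s = u - (0) := ⟨_, rfl⟩
  obtain ⟨t, ht⟩ : ∃ t, t = 1 / 5 - u := ⟨_, rfl⟩
  have hs0 : 0 ≤ s := by linarith
  have ht0 : 0 ≤ t := by linarith
  have h : 0 ≤
      1005 / 32 * t ^ 5 + 2613 / 16 * s * t ^ 4 + 55198741 / 160000 * s ^ 2 * t ^ 3 +
      175198669 / 480000 * s ^ 3 * t ^ 2 + 91693669 / 480000 * s ^ 4 * t +
      6257141 / 160000 * s ^ 5 := by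
    positivity
  have e :
      1005 / 32 * t ^ 5 + 2613 / 16 * s * t ^ 4 + 55198741 / 160000 * s ^ 2 * t ^ 3 +
      175198669 / 480000 * s ^ 3 * t ^ 2 + 91693669 / 480000 * s ^ 4 * t +
      6257141 / 160000 * s ^ 5 =
      (1 + 1 / 100 + (1 / 100) ^ 2 / 2) * (1 + u + 541 / 1000 * u ^ 2) -
      (1 + u + u ^ 2 / 2 + u ^ 3 / 6 + u ^ 4 / 24 + u ^ 5 / 100) := by
    rw [hs, ht]
    ring
  rw [e] at h
  linarith

theorem od_five_d12_f0 (u : ℝ) (h1 : 1 / 5 ≤ u) (h2 : u ≤ 1) :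
    122141 / 100000 * (1 + (u - 1 / 5) / 5) ^ 5 ≤
      (1 + 1 / 100 + (1 / 100) ^ 2 / 2) * (1 + u + 541 / 1000 * u ^ 2) := by
  obtain ⟨s, hs⟩ : ∃ s, s = u - (1 / 5) := ⟨_, rfl⟩
  obtain ⟨t, ht⟩ : ∃ t, t = 1 - u := ⟨_, rfl⟩
  have hs0 : 0 ≤ s := by linarith
  have ht0 : 0 ≤ t := by linarith
  have h : 0 ≤
      6253741 / 163840000 * t ^ 5 + 34154633 / 163840000 * s * t ^ 4 +
      46300249 / 81920000 * s ^ 2 * t ^ 3 + 275991573 / 409600000 * s ^ 3 * t ^ 2 +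
      5792554157 / 20480000000 * s ^ 4 * t + 9052703053 / 2560000000000 * s ^ 5 := by
    positivity
  have e :
      6253741 / 163840000 * t ^ 5 + 34154633 / 163840000 * s * t ^ 4 +
      46300249 / 81920000 * s ^ 2 * t ^ 3 + 275991573 / 409600000 * s ^ 3 * t ^ 2 +
      5792554157 / 20480000000 * s ^ 4 * t + 9052703053 / 2560000000000 * s ^ 5 =
      (1 + 1 / 100 + (1 / 100) ^ 2 / 2) * (1 + u + 541 / 1000 * u ^ 2) -
      (122141 / 100000 * (1 + (u - 1 / 5) / 5) ^ 5) := by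
    rw [hs, ht]
    ring
  rw [e] at h
  linarith

theorem od_five_d12_g0 (u : ℝ) (h1 : 1 ≤ u) (h2 : u ≤ 2) :
    122141 / 100000 * (1 + (u - 1 / 5) / 5) ^ 5 ≤
      (1 + 1 / 100 + (1 / 100) ^ 2 / 2) * ((1 + (3 / 100 * (u ^ 2 - 1)) +
      (3 / 100 * (u ^ 2 - 1)) ^ 2 / 2 +
      (3 / 100 * (u ^ 2 - 1)) ^ 3 / 6) *
      (1 + u + 541 / 1000 * u ^ 2)) := by
  obtain ⟨s, hs⟩ : ∃ s, s = u - (1) := ⟨_, rfl⟩
  obtain ⟨t, ht⟩ : ∃ t, t = 2 - u := ⟨_, rfl⟩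
  have hs0 : 0 ≤ s := by linarith
  have ht0 : 0 ≤ t := by linarith
  have h : 0 ≤
      9052703053 / 7812500000000 * t ^ 8 + 853957347323 / 15625000000000 * s * t ^ 7 +
      21359924044047 / 62500000000000 * s ^ 2 * t ^ 6 +
      117576604579263 / 125000000000000 * s ^ 3 * t ^ 5 +
      35490779198967 / 25000000000000 * s ^ 4 * t ^ 4 +
      630669447269827 / 500000000000000 * s ^ 5 * t ^ 3 +
      661593791337427 / 1000000000000000 * s ^ 6 * t ^ 2 +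
      47976347308243 / 250000000000000 * s ^ 7 * t + 6092589902621 / 250000000000000 * s ^ 8 := by
    positivity
  have e :
      9052703053 / 7812500000000 * t ^ 8 + 853957347323 / 15625000000000 * s * t ^ 7 +
      21359924044047 / 62500000000000 * s ^ 2 * t ^ 6 +
      117576604579263 / 125000000000000 * s ^ 3 * t ^ 5 +
      35490779198967 / 25000000000000 * s ^ 4 * t ^ 4 +
      630669447269827 / 500000000000000 * s ^ 5 * t ^ 3 +
      661593791337427 / 1000000000000000 * s ^ 6 * t ^ 2 +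
      47976347308243 / 250000000000000 * s ^ 7 * t + 6092589902621 / 250000000000000 * s ^ 8 =
      (1 + 1 / 100 + (1 / 100) ^ 2 / 2) * ((1 + (3 / 100 * (u ^ 2 - 1)) +
      (3 / 100 * (u ^ 2 - 1)) ^ 2 / 2 +
      (3 / 100 * (u ^ 2 - 1)) ^ 3 / 6) *
      (1 + u + 541 / 1000 * u ^ 2)) -
      (122141 / 100000 * (1 + (u - 1 / 5) / 5) ^ 5) := by
    rw [hs, ht]
    ring
  rw [e] at h
  linarith

theorem od_five_d12_t (u : ℝ) (h1 : 2 ≤ u) :
    122141 / 100000 * (1 + (u - 1 / 5) / 5) ^ 5 ≤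
      (1 + 1 / 100 + (1 / 100) ^ 2 / 2) * ((1 + (3 / 100 * (u ^ 2 - 1)) +
      (3 / 100 * (u ^ 2 - 1)) ^ 2 / 2 +
      (3 / 100 * (u ^ 2 - 1)) ^ 3 / 6) *
      (1 + u + 541 / 1000 * u ^ 2)) := by
  obtain ⟨s, hs⟩ : ∃ s, s = u - (2) := ⟨_, rfl⟩
  have hs0 : 0 ≤ s := by linarith
  have h : 0 ≤
      6092589902621 / 250000000000000 + 30574876509 / 10000000000000 * s +
      25045432007 / 40000000000000 * s ^ 2 + 107377044449 / 2500000000000 * s ^ 3 +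
      1043204596067 / 40000000000000 * s ^ 4 + 44502315857 / 10000000000000 * s ^ 5 +
      23284096821 / 40000000000000 * s ^ 6 + 219443463 / 5000000000000 * s ^ 7 +
      98358669 / 40000000000000 * s ^ 8 := by
    positivity
  have e :
      6092589902621 / 250000000000000 + 30574876509 / 10000000000000 * s +
      25045432007 / 40000000000000 * s ^ 2 + 107377044449 / 2500000000000 * s ^ 3 +
      1043204596067 / 40000000000000 * s ^ 4 + 44502315857 / 10000000000000 * s ^ 5 +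
      23284096821 / 40000000000000 * s ^ 6 + 219443463 / 5000000000000 * s ^ 7 +
      98358669 / 40000000000000 * s ^ 8 =
      (1 + 1 / 100 + (1 / 100) ^ 2 / 2) * ((1 + (3 / 100 * (u ^ 2 - 1)) +
      (3 / 100 * (u ^ 2 - 1)) ^ 2 / 2 +
      (3 / 100 * (u ^ 2 - 1)) ^ 3 / 6) *
      (1 + u + 541 / 1000 * u ^ 2)) -
      (122141 / 100000 * (1 + (u - 1 / 5) / 5) ^ 5) := by
    rw [hs]
    ring
  rw [e] at h
  linarith

/-- `K = 5`: `(c, μ, P, δ) = (541 / 1000, 3 / 100, 1 / 5, 1 / 100)` -/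
theorem expOd_five_d12 : ExpOd 5 (541 / 1000) (3 / 100) (1 / 5) (1 / 100) := by
  have hde : (1 + 1 / 100 + (1 / 100) ^ 2 / 2) ≤ Real.exp (1 / 100) := Real.quadratic_le_exp_of_nonneg (by norm_num)
  have hq : ∀ u : ℝ, 0 ≤ 1 + u + 541 / 1000 * u ^ 2 := fun u => by
    nlinarith [sq_nonneg (u + 2), sq_nonneg u]
  have hR : ∀ (u x y : ℝ), x ≤ y → y ≤ (1 + 1 / 100 + (1 / 100) ^ 2 / 2) * (1 + u + 541 / 1000 * u ^ 2) →
      x ≤ Real.exp (1 / 100) * (1 + u + 541 / 1000 * u ^ 2) := fun u x y h1 h2 =>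
    (h1.trans h2).trans (mul_le_mul_of_nonneg_right hde (hq u))
  refine ExpOd.of (by norm_num) (by norm_num) (by norm_num) (by norm_num) (by norm_num) ?_ ?_ ?_
  · intro u h1
    rcases le_total u (-3) with h3 | h3
    · exact hR u _ _ (exp_le_n3 h3) (od_five_d12_d u h3)
    rcases le_total u (-2) with h4 | h4
    · refine hR u _ _ (exp_le_n2 h4) ?_
      exact od_five_d12_c0 u (by linarith) (by linarith)
    rcases le_total u (-1) with h5 | h5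
    · refine hR u _ _ (exp_le_n1 h5) ?_
      exact od_five_d12_b0 u (by linarith) (by linarith)
    rcases le_total u 0 with h6 | h6
    · refine hR u _ _ (exp_le_n0 h6) ?_
      exact od_five_d12_a0 u (by linarith) (by linarith)
    refine hR u _ _ (exp_le_p h6 (by linarith)) ?_
    exact od_five_d12_e0 u (by linarith) (by linarith)
  · intro u h1 h2
    have h4 : 0 ≤ (1 + (u - 1 / 5) / 5) ^ 5 := by
      have : 0 ≤ (u - 1 / 5) / 5 := div_nonneg (by linarith) (by norm_num)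
      positivity
    have hE : Real.exp (1 / 5) ≤ 122141 / 100000 := exp_up_1_5
    push_cast
    refine hR u _ _ (mul_le_mul_of_nonneg_right hE h4) ?_
    exact od_five_d12_f0 u (by linarith) (by linarith)
  · intro u h1
    have h4 : 0 ≤ (1 + (u - 1 / 5) / 5) ^ 5 := by
      have : 0 ≤ (u - 1 / 5) / 5 := div_nonneg (by linarith) (by norm_num)
      positivity
    have hE : Real.exp (1 / 5) ≤ 122141 / 100000 := exp_up_1_5
    have hx : 0 ≤ 3 / 100 * (u ^ 2 - 1) := mul_nonneg (by norm_num) (by nlinarith)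
    have h5 := mul_le_mul_of_nonneg_right (taylor3_le_exp _ hx) (hq u)
    have h6 : 0 ≤ Real.exp (3 / 100 * (u ^ 2 - 1)) * (1 + u + 541 / 1000 * u ^ 2) :=
      mul_nonneg (Real.exp_nonneg _) (hq u)
    rw [Real.exp_add, mul_assoc]
    push_cast
    refine ((mul_le_mul_of_nonneg_right hE h4).trans ?_).trans
      ((mul_le_mul_of_nonneg_left h5 (by norm_num : (0 : ℝ) ≤ (1 + 1 / 100 + (1 / 100) ^ 2 / 2))).trans
        (mul_le_mul_of_nonneg_right hde h6))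
    rcases le_total u (2) with hh | hh
    · exact od_five_d12_g0 u (by linarith) (by linarith)
    exact od_five_d12_t u (by linarith)

theorem od_five_d13_a0 (u : ℝ) (h1 : -1 ≤ u) (h2 : u ≤ 0) :
    1 + u + u ^ 2 / 2 + u ^ 3 / 6 + u ^ 4 / 24 ≤
      (1 + 3 / 100 + (3 / 100) ^ 2 / 2) * (1 + u + 491 / 1000 * u ^ 2) := by
  obtain ⟨s, hs⟩ : ∃ s, s = u - (-1) := ⟨_, rfl⟩
  obtain ⟨t, ht⟩ : ∃ t, t = 0 - u := ⟨_, rfl⟩
  have hs0 : 0 ≤ s := by linarith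
  have ht0 : 0 ≤ t := by linarith
  have h : 0 ≤
      2619019 / 20000000 * t ^ 4 + 6270557 / 30000000 * s * t ^ 3 +
      1946019 / 20000000 * s ^ 2 * t ^ 2 + 1827 / 20000 * s ^ 3 * t + 609 / 20000 * s ^ 4 := by
    positivity
  have e :
      2619019 / 20000000 * t ^ 4 + 6270557 / 30000000 * s * t ^ 3 +
      1946019 / 20000000 * s ^ 2 * t ^ 2 + 1827 / 20000 * s ^ 3 * t + 609 / 20000 * s ^ 4 =
      (1 + 3 / 100 + (3 / 100) ^ 2 / 2) * (1 + u + 491 / 1000 * u ^ 2) -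
      (1 + u + u ^ 2 / 2 + u ^ 3 / 6 + u ^ 4 / 24) := by
    rw [hs, ht]
    ring
  rw [e] at h
  linarith

theorem od_five_d13_b0 (u : ℝ) (h1 : -2 ≤ u) (h2 : u ≤ -1) :
    36788 / 100000 *
      (1 + (u + 1) + (u + 1) ^ 2 / 2 + (u + 1) ^ 3 / 6 + (u + 1) ^ 4 / 24) ≤
      (1 + 3 / 100 + (3 / 100) ^ 2 / 2) * (1 + u + 491 / 1000 * u ^ 2) := by
  obtain ⟨s, hs⟩ : ∃ s, s = u - (-2) := ⟨_, rfl⟩
  obtain ⟨t, ht⟩ : ∃ t, t = -1 - u := ⟨_, rfl⟩
  have hs0 : 0 ≤ s := by linarith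
  have ht0 : 0 ≤ t := by linarith
  have h : 0 ≤
      2138497 / 2500000 * t ^ 4 + 34584221 / 15000000 * s * t ^ 3 +
      43968647 / 20000000 * s ^ 2 * t ^ 2 + 9016157 / 10000000 * s ^ 3 * t +
      2761419 / 20000000 * s ^ 4 := by
    positivity
  have e :
      2138497 / 2500000 * t ^ 4 + 34584221 / 15000000 * s * t ^ 3 +
      43968647 / 20000000 * s ^ 2 * t ^ 2 + 9016157 / 10000000 * s ^ 3 * t +
      2761419 / 20000000 * s ^ 4 =
      (1 + 3 / 100 + (3 / 100) ^ 2 / 2) * (1 + u + 491 / 1000 * u ^ 2) -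
      (36788 / 100000 *
      (1 + (u + 1) + (u + 1) ^ 2 / 2 + (u + 1) ^ 3 / 6 + (u + 1) ^ 4 / 24)) := by
    rw [hs, ht]
    ring
  rw [e] at h
  linarith

theorem od_five_d13_c0 (u : ℝ) (h1 : -3 ≤ u) (h2 : u ≤ -2) :
    13534 / 100000 *
      (1 + (u + 2) + (u + 2) ^ 2 / 2 + (u + 2) ^ 3 / 6 + (u + 2) ^ 4 / 24) ≤
      (1 + 3 / 100 + (3 / 100) ^ 2 / 2) * (1 + u + 491 / 1000 * u ^ 2) := by
  obtain ⟨s, hs⟩ : ∃ s, s = u - (-3) := ⟨_, rfl⟩
  obtain ⟨t, ht⟩ : ∃ t, t = -2 - u := ⟨_, rfl⟩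
  have hs0 : 0 ≤ s := by linarith
  have ht0 : 0 ≤ t := by linarith
  have h : 0 ≤
      48838121 / 20000000 * t ^ 4 + 46303531 / 6000000 * s * t ^ 3 +
      179448903 / 20000000 * s ^ 2 * t ^ 2 + 4560749 / 1000000 * s ^ 3 * t +
      4290069 / 5000000 * s ^ 4 := by
    positivity
  have e :
      48838121 / 20000000 * t ^ 4 + 46303531 / 6000000 * s * t ^ 3 +
      179448903 / 20000000 * s ^ 2 * t ^ 2 + 4560749 / 1000000 * s ^ 3 * t +
      4290069 / 5000000 * s ^ 4 =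
      (1 + 3 / 100 + (3 / 100) ^ 2 / 2) * (1 + u + 491 / 1000 * u ^ 2) -
      (13534 / 100000 *
      (1 + (u + 2) + (u + 2) ^ 2 / 2 + (u + 2) ^ 3 / 6 + (u + 2) ^ 4 / 24)) := by
    rw [hs, ht]
    ring
  rw [e] at h
  linarith

theorem od_five_d13_d (u : ℝ) (h2 : u ≤ -3) :
    4979 / 100000 ≤
      (1 + 3 / 100 + (3 / 100) ^ 2 / 2) * (1 + u + 491 / 1000 * u ^ 2) := by
  obtain ⟨s, hs⟩ : ∃ s, s = -3 - u := ⟨_, rfl⟩
  have hs0 : 0 ≤ s := by linarith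
  have h : 0 ≤
      48857371 / 20000000 + 20052557 / 10000000 * s + 10119019 / 20000000 * s ^ 2 := by
    positivity
  have e :
      48857371 / 20000000 + 20052557 / 10000000 * s + 10119019 / 20000000 * s ^ 2 =
      (1 + 3 / 100 + (3 / 100) ^ 2 / 2) * (1 + u + 491 / 1000 * u ^ 2) -
      (4979 / 100000) := by
    rw [hs]
    ring
  rw [e] at h
  linarith

theorem od_five_d13_e0 (u : ℝ) (h1 : 0 ≤ u) (h2 : u ≤ 1 / 5) :
    1 + u + u ^ 2 / 2 + u ^ 3 / 6 + u ^ 4 / 24 + u ^ 5 / 100 ≤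
      (1 + 3 / 100 + (3 / 100) ^ 2 / 2) * (1 + u + 491 / 1000 * u ^ 2) := by
  obtain ⟨s, hs⟩ : ∃ s, s = u - (0) := ⟨_, rfl⟩
  obtain ⟨t, ht⟩ : ∃ t, t = 1 / 5 - u := ⟨_, rfl⟩
  have hs0 : 0 ≤ s := by linarith
  have ht0 : 0 ≤ t := by linarith
  have h : 0 ≤
      3045 / 32 * t ^ 5 + 7917 / 16 * s * t ^ 4 + 164549019 / 160000 * s ^ 2 * t ^ 3 +
      510631171 / 480000 * s ^ 3 * t ^ 2 + 261886171 / 480000 * s ^ 4 * t +
      17687419 / 160000 * s ^ 5 := by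
    positivity
  have e :
      3045 / 32 * t ^ 5 + 7917 / 16 * s * t ^ 4 + 164549019 / 160000 * s ^ 2 * t ^ 3 +
      510631171 / 480000 * s ^ 3 * t ^ 2 + 261886171 / 480000 * s ^ 4 * t +
      17687419 / 160000 * s ^ 5 =
      (1 + 3 / 100 + (3 / 100) ^ 2 / 2) * (1 + u + 491 / 1000 * u ^ 2) -
      (1 + u + u ^ 2 / 2 + u ^ 3 / 6 + u ^ 4 / 24 + u ^ 5 / 100) := by
    rw [hs, ht]
    ring
  rw [e] at h
  linarith

theorem od_five_d13_f0 (u : ℝ) (h1 : 1 / 5 ≤ u) (h2 : u ≤ 1) :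
    122141 / 100000 * (1 + (u - 1 / 5) / 5) ^ 5 ≤
      (1 + 3 / 100 + (3 / 100) ^ 2 / 2) * (1 + u + 491 / 1000 * u ^ 2) := by
  obtain ⟨s, hs⟩ : ∃ s, s = u - (1 / 5) := ⟨_, rfl⟩
  obtain ⟨t, ht⟩ : ∃ t, t = 1 - u := ⟨_, rfl⟩
  have hs0 : 0 ≤ s := by linarith
  have ht0 : 0 ≤ t := by linarith
  have h : 0 ≤
      17684019 / 163840000 * t ^ 5 + 92988247 / 163840000 * s * t ^ 4 +
      100338311 / 81920000 * s ^ 2 * t ^ 3 + 489815243 / 409600000 * s ^ 3 * t ^ 2 +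
      8919257907 / 20480000000 * s ^ 4 * t + 11505046803 / 2560000000000 * s ^ 5 := by
    positivity
  have e :
      17684019 / 163840000 * t ^ 5 + 92988247 / 163840000 * s * t ^ 4 +
      100338311 / 81920000 * s ^ 2 * t ^ 3 + 489815243 / 409600000 * s ^ 3 * t ^ 2 +
      8919257907 / 20480000000 * s ^ 4 * t + 11505046803 / 2560000000000 * s ^ 5 =
      (1 + 3 / 100 + (3 / 100) ^ 2 / 2) * (1 + u + 491 / 1000 * u ^ 2) -
      (122141 / 100000 * (1 + (u - 1 / 5) / 5) ^ 5) := by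
    rw [hs, ht]
    ring
  rw [e] at h
  linarith

theorem od_five_d13_g0 (u : ℝ) (h1 : 1 ≤ u) (h2 : u ≤ 2) :
    122141 / 100000 * (1 + (u - 1 / 5) / 5) ^ 5 ≤
      (1 + 3 / 100 + (3 / 100) ^ 2 / 2) * ((1 + (1 / 25 * (u ^ 2 - 1)) +
      (1 / 25 * (u ^ 2 - 1)) ^ 2 / 2 +
      (1 / 25 * (u ^ 2 - 1)) ^ 3 / 6) *
      (1 + u + 491 / 1000 * u ^ 2)) := by
  obtain ⟨s, hs⟩ : ∃ s, s = u - (1) := ⟨_, rfl⟩
  obtain ⟨t, ht⟩ : ∃ t, t = 2 - u := ⟨_, rfl⟩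
  have hs0 : 0 ≤ s := by linarith
  have ht0 : 0 ≤ t := by linarith
  have h : 0 ≤
      11505046803 / 7812500000000 * t ^ 8 + 93648678181 / 1953125000000 * s * t ^ 7 +
      304718988823 / 976562500000 * s ^ 2 * t ^ 6 +
      11172742387477 / 11718750000000 * s ^ 3 * t ^ 5 +
      15761872668887 / 9375000000000 * s ^ 4 * t ^ 4 +
      21553732839827 / 11718750000000 * s ^ 5 * t ^ 3 +
      9766023807609 / 7812500000000 * s ^ 6 * t ^ 2 +
      954623723481 / 1953125000000 * s ^ 7 * t + 165151816257 / 1953125000000 * s ^ 8 := by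
    positivity
  have e :
      11505046803 / 7812500000000 * t ^ 8 + 93648678181 / 1953125000000 * s * t ^ 7 +
      304718988823 / 976562500000 * s ^ 2 * t ^ 6 +
      11172742387477 / 11718750000000 * s ^ 3 * t ^ 5 +
      15761872668887 / 9375000000000 * s ^ 4 * t ^ 4 +
      21553732839827 / 11718750000000 * s ^ 5 * t ^ 3 +
      9766023807609 / 7812500000000 * s ^ 6 * t ^ 2 +
      954623723481 / 1953125000000 * s ^ 7 * t + 165151816257 / 1953125000000 * s ^ 8 =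
      (1 + 3 / 100 + (3 / 100) ^ 2 / 2) * ((1 + (1 / 25 * (u ^ 2 - 1)) +
      (1 / 25 * (u ^ 2 - 1)) ^ 2 / 2 +
      (1 / 25 * (u ^ 2 - 1)) ^ 3 / 6) *
      (1 + u + 491 / 1000 * u ^ 2)) -
      (122141 / 100000 * (1 + (u - 1 / 5) / 5) ^ 5) := by
    rw [hs, ht]
    ring
  rw [e] at h
  linarith

theorem od_five_d13_t (u : ℝ) (h1 : 2 ≤ u) :
    122141 / 100000 * (1 + (u - 1 / 5) / 5) ^ 5 ≤
      (1 + 3 / 100 + (3 / 100) ^ 2 / 2) * ((1 + (1 / 25 * (u ^ 2 - 1)) +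
      (1 / 25 * (u ^ 2 - 1)) ^ 2 / 2 +
      (1 / 25 * (u ^ 2 - 1)) ^ 3 / 6) *
      (1 + u + 491 / 1000 * u ^ 2)) := by
  obtain ⟨s, hs⟩ : ∃ s, s = u - (2) := ⟨_, rfl⟩
  have hs0 : 0 ≤ s := by linarith
  have h : 0 ≤
      165151816257 / 1953125000000 + 14663632263 / 78125000000 * s +
      61342518837 / 312500000000 * s ^ 2 + 3872256331 / 29296875000 * s ^ 3 +
      29972970939 / 625000000000 * s ^ 4 + 1000351183 / 117187500000 * s ^ 5 +
      16961207 / 14648437500 * s ^ 6 + 7604721 / 78125000000 * s ^ 7 +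
      10119019 / 1875000000000 * s ^ 8 := by
    positivity
  have e :
      165151816257 / 1953125000000 + 14663632263 / 78125000000 * s +
      61342518837 / 312500000000 * s ^ 2 + 3872256331 / 29296875000 * s ^ 3 +
      29972970939 / 625000000000 * s ^ 4 + 1000351183 / 117187500000 * s ^ 5 +
      16961207 / 14648437500 * s ^ 6 + 7604721 / 78125000000 * s ^ 7 +
      10119019 / 1875000000000 * s ^ 8 =
      (1 + 3 / 100 + (3 / 100) ^ 2 / 2) * ((1 + (1 / 25 * (u ^ 2 - 1)) +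
      (1 / 25 * (u ^ 2 - 1)) ^ 2 / 2 +
      (1 / 25 * (u ^ 2 - 1)) ^ 3 / 6) *
      (1 + u + 491 / 1000 * u ^ 2)) -
      (122141 / 100000 * (1 + (u - 1 / 5) / 5) ^ 5) := by
    rw [hs]
    ring
  rw [e] at h
  linarith

/-- `K = 5`: `(c, μ, P, δ) = (491 / 1000, 1 / 25, 1 / 5, 3 / 100)` -/
theorem expOd_five_d13 : ExpOd 5 (491 / 1000) (1 / 25) (1 / 5) (3 / 100) := by
  have hde : (1 + 3 / 100 + (3 / 100) ^ 2 / 2) ≤ Real.exp (3 / 100) := Real.quadratic_le_exp_of_nonneg (by norm_num)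
  have hq : ∀ u : ℝ, 0 ≤ 1 + u + 491 / 1000 * u ^ 2 := fun u => by
    nlinarith [sq_nonneg (u + 2), sq_nonneg u]
  have hR : ∀ (u x y : ℝ), x ≤ y → y ≤ (1 + 3 / 100 + (3 / 100) ^ 2 / 2) * (1 + u + 491 / 1000 * u ^ 2) →
      x ≤ Real.exp (3 / 100) * (1 + u + 491 / 1000 * u ^ 2) := fun u x y h1 h2 =>
    (h1.trans h2).trans (mul_le_mul_of_nonneg_right hde (hq u))
  refine ExpOd.of (by norm_num) (by norm_num) (by norm_num) (by norm_num) (by norm_num) ?_ ?_ ?_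
  · intro u h1
    rcases le_total u (-3) with h3 | h3
    · exact hR u _ _ (exp_le_n3 h3) (od_five_d13_d u h3)
    rcases le_total u (-2) with h4 | h4
    · refine hR u _ _ (exp_le_n2 h4) ?_
      exact od_five_d13_c0 u (by linarith) (by linarith)
    rcases le_total u (-1) with h5 | h5
    · refine hR u _ _ (exp_le_n1 h5) ?_
      exact od_five_d13_b0 u (by linarith) (by linarith)
    rcases le_total u 0 with h6 | h6
    · refine hR u _ _ (exp_le_n0 h6) ?_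
      exact od_five_d13_a0 u (by linarith) (by linarith)
    refine hR u _ _ (exp_le_p h6 (by linarith)) ?_
    exact od_five_d13_e0 u (by linarith) (by linarith)
  · intro u h1 h2
    have h4 : 0 ≤ (1 + (u - 1 / 5) / 5) ^ 5 := by
      have : 0 ≤ (u - 1 / 5) / 5 := div_nonneg (by linarith) (by norm_num)
      positivity
    have hE : Real.exp (1 / 5) ≤ 122141 / 100000 := exp_up_1_5
    push_cast
    refine hR u _ _ (mul_le_mul_of_nonneg_right hE h4) ?_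
    exact od_five_d13_f0 u (by linarith) (by linarith)
  · intro u h1
    have h4 : 0 ≤ (1 + (u - 1 / 5) / 5) ^ 5 := by
      have : 0 ≤ (u - 1 / 5) / 5 := div_nonneg (by linarith) (by norm_num)
      positivity
    have hE : Real.exp (1 / 5) ≤ 122141 / 100000 := exp_up_1_5
    have hx : 0 ≤ 1 / 25 * (u ^ 2 - 1) := mul_nonneg (by norm_num) (by nlinarith)
    have h5 := mul_le_mul_of_nonneg_right (taylor3_le_exp _ hx) (hq u)
    have h6 : 0 ≤ Real.exp (1 / 25 * (u ^ 2 - 1)) * (1 + u + 491 / 1000 * u ^ 2) :=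
      mul_nonneg (Real.exp_nonneg _) (hq u)
    rw [Real.exp_add, mul_assoc]
    push_cast
    refine ((mul_le_mul_of_nonneg_right hE h4).trans ?_).trans
      ((mul_le_mul_of_nonneg_left h5 (by norm_num : (0 : ℝ) ≤ (1 + 3 / 100 + (3 / 100) ^ 2 / 2))).trans
        (mul_le_mul_of_nonneg_right hde h6))
    rcases le_total u (2) with hh | hh
    · exact od_five_d13_g0 u (by linarith) (by linarith)
    exact od_five_d13_t u (by linarith)

theorem od_five_d14_a0 (u : ℝ) (h1 : -1 ≤ u) (h2 : u ≤ 0) :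
    1 + u + u ^ 2 / 2 + u ^ 3 / 6 + u ^ 4 / 24 ≤
      (1 + 1 / 10 + (1 / 10) ^ 2 / 2) * (1 + u + 197 / 500 * u ^ 2) := by
  obtain ⟨s, hs⟩ : ∃ s, s = u - (-1) := ⟨_, rfl⟩
  obtain ⟨t, ht⟩ : ∃ t, t = 0 - u := ⟨_, rfl⟩
  have hs0 : 0 ≤ s := by linarith
  have ht0 : 0 ≤ t := by linarith
  have h : 0 ≤
      6037 / 100000 * t ^ 4 + 21361 / 150000 * s * t ^ 3 + 25037 / 100000 * s ^ 2 * t ^ 2 +
      63 / 200 * s ^ 3 * t + 21 / 200 * s ^ 4 := by
    positivity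
  have e :
      6037 / 100000 * t ^ 4 + 21361 / 150000 * s * t ^ 3 + 25037 / 100000 * s ^ 2 * t ^ 2 +
      63 / 200 * s ^ 3 * t + 21 / 200 * s ^ 4 =
      (1 + 1 / 10 + (1 / 10) ^ 2 / 2) * (1 + u + 197 / 500 * u ^ 2) -
      (1 + u + u ^ 2 / 2 + u ^ 3 / 6 + u ^ 4 / 24) := by
    rw [hs, ht]
    ring
  rw [e] at h
  linarith

theorem od_five_d14_b0 (u : ℝ) (h1 : -2 ≤ u) (h2 : u ≤ -1) :
    36788 / 100000 *
      (1 + (u + 1) + (u + 1) ^ 2 / 2 + (u + 1) ^ 3 / 6 + (u + 1) ^ 4 / 24) ≤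
      (1 + 1 / 10 + (1 / 10) ^ 2 / 2) * (1 + u + 197 / 500 * u ^ 2) := by
  obtain ⟨s, hs⟩ : ∃ s, s = u - (-2) := ⟨_, rfl⟩
  obtain ⟨t, ht⟩ : ∃ t, t = -1 - u := ⟨_, rfl⟩
  have hs0 : 0 ≤ s := by linarith
  have ht0 : 0 ≤ t := by linarith
  have h : 0 ≤
      19941 / 40000 * t ^ 4 + 185249 / 150000 * s * t ^ 3 + 105723 / 100000 * s ^ 2 * t ^ 2 +
      20179 / 50000 * s ^ 3 * t + 6749 / 100000 * s ^ 4 := by
    positivity
  have e :
      19941 / 40000 * t ^ 4 + 185249 / 150000 * s * t ^ 3 + 105723 / 100000 * s ^ 2 * t ^ 2 +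
      20179 / 50000 * s ^ 3 * t + 6749 / 100000 * s ^ 4 =
      (1 + 1 / 10 + (1 / 10) ^ 2 / 2) * (1 + u + 197 / 500 * u ^ 2) -
      (36788 / 100000 *
      (1 + (u + 1) + (u + 1) ^ 2 / 2 + (u + 1) ^ 3 / 6 + (u + 1) ^ 4 / 24)) := by
    rw [hs, ht]
    ring
  rw [e] at h
  linarith

theorem od_five_d14_c0 (u : ℝ) (h1 : -3 ≤ u) (h2 : u ≤ -2) :
    13534 / 100000 *
      (1 + (u + 2) + (u + 2) ^ 2 / 2 + (u + 2) ^ 3 / 6 + (u + 2) ^ 4 / 24) ≤
      (1 + 1 / 10 + (1 / 10) ^ 2 / 2) * (1 + u + 197 / 500 * u ^ 2) := by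
  obtain ⟨s, hs⟩ : ∃ s, s = u - (-3) := ⟨_, rfl⟩
  obtain ⟨t, ht⟩ : ∃ t, t = -2 - u := ⟨_, rfl⟩
  have hs0 : 0 ≤ s := by linarith
  have ht0 : 0 ≤ t := by linarith
  have h : 0 ≤
      663031 / 400000 * t ^ 4 + 1523393 / 300000 * s * t ^ 3 + 569 / 100 * s ^ 2 * t ^ 2 +
      138819 / 50000 * s ^ 3 * t + 25057 / 50000 * s ^ 4 := by
    positivity
  have e :
      663031 / 400000 * t ^ 4 + 1523393 / 300000 * s * t ^ 3 + 569 / 100 * s ^ 2 * t ^ 2 +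
      138819 / 50000 * s ^ 3 * t + 25057 / 50000 * s ^ 4 =
      (1 + 1 / 10 + (1 / 10) ^ 2 / 2) * (1 + u + 197 / 500 * u ^ 2) -
      (13534 / 100000 *
      (1 + (u + 2) + (u + 2) ^ 2 / 2 + (u + 2) ^ 3 / 6 + (u + 2) ^ 4 / 24)) := by
    rw [hs, ht]
    ring
  rw [e] at h
  linarith

theorem od_five_d14_d (u : ℝ) (h2 : u ≤ -3) :
    4979 / 100000 ≤
      (1 + 1 / 10 + (1 / 10) ^ 2 / 2) * (1 + u + 197 / 500 * u ^ 2) := by
  obtain ⟨s, hs⟩ : ∃ s, s = -3 - u := ⟨_, rfl⟩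
  have hs0 : 0 ≤ s := by linarith
  have h : 0 ≤
      82927 / 50000 + 75361 / 50000 * s + 43537 / 100000 * s ^ 2 := by
    positivity
  have e :
      82927 / 50000 + 75361 / 50000 * s + 43537 / 100000 * s ^ 2 =
      (1 + 1 / 10 + (1 / 10) ^ 2 / 2) * (1 + u + 197 / 500 * u ^ 2) -
      (4979 / 100000) := by
    rw [hs]
    ring
  rw [e] at h
  linarith

theorem od_five_d14_e0 (u : ℝ) (h1 : 0 ≤ u) (h2 : u ≤ 1 / 5) :
    1 + u + u ^ 2 / 2 + u ^ 3 / 6 + u ^ 4 / 24 + u ^ 5 / 100 ≤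
      (1 + 1 / 10 + (1 / 10) ^ 2 / 2) * (1 + u + 197 / 500 * u ^ 2) := by
  obtain ⟨s, hs⟩ : ∃ s, s = u - (0) := ⟨_, rfl⟩
  obtain ⟨t, ht⟩ : ∃ t, t = 1 / 5 - u := ⟨_, rfl⟩
  have hs0 : 0 ≤ s := by linarith
  have ht0 : 0 ≤ t := by linarith
  have h : 0 ≤
      2625 / 8 * t ^ 5 + 6825 / 4 * s * t ^ 4 + 2828537 / 800 * s ^ 2 * t ^ 3 +
      8751833 / 2400 * s ^ 3 * t ^ 2 + 4488833 / 2400 * s ^ 4 * t + 305029 / 800 * s ^ 5 := by
    positivity
  have e :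
      2625 / 8 * t ^ 5 + 6825 / 4 * s * t ^ 4 + 2828537 / 800 * s ^ 2 * t ^ 3 +
      8751833 / 2400 * s ^ 3 * t ^ 2 + 4488833 / 2400 * s ^ 4 * t + 305029 / 800 * s ^ 5 =
      (1 + 1 / 10 + (1 / 10) ^ 2 / 2) * (1 + u + 197 / 500 * u ^ 2) -
      (1 + u + u ^ 2 / 2 + u ^ 3 / 6 + u ^ 4 / 24 + u ^ 5 / 100) := by
    rw [hs, ht]
    ring
  rw [e] at h
  linarith

theorem od_five_d14_f0 (u : ℝ) (h1 : 1 / 5 ≤ u) (h2 : u ≤ 1) :
    122141 / 100000 * (1 + (u - 1 / 5) / 5) ^ 5 ≤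
      (1 + 1 / 10 + (1 / 10) ^ 2 / 2) * (1 + u + 197 / 500 * u ^ 2) := by
  obtain ⟨s, hs⟩ : ∃ s, s = u - (1 / 5) := ⟨_, rfl⟩
  obtain ⟨t, ht⟩ : ∃ t, t = 1 - u := ⟨_, rfl⟩
  have hs0 : 0 ≤ s := by linarith
  have ht0 : 0 ≤ t := by linarith
  have h : 0 ≤
      76253 / 204800 * t ^ 5 + 205067 / 102400 * s * t ^ 4 +
      2141821 / 512000 * s ^ 2 * t ^ 3 + 26270097 / 6400000 * s ^ 3 * t ^ 2 +
      1149595501 / 640000000 * s ^ 4 * t + 9764611327 / 40000000000 * s ^ 5 := by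
    positivity
  have e :
      76253 / 204800 * t ^ 5 + 205067 / 102400 * s * t ^ 4 +
      2141821 / 512000 * s ^ 2 * t ^ 3 + 26270097 / 6400000 * s ^ 3 * t ^ 2 +
      1149595501 / 640000000 * s ^ 4 * t + 9764611327 / 40000000000 * s ^ 5 =
      (1 + 1 / 10 + (1 / 10) ^ 2 / 2) * (1 + u + 197 / 500 * u ^ 2) -
      (122141 / 100000 * (1 + (u - 1 / 5) / 5) ^ 5) := by
    rw [hs, ht]
    ring
  rw [e] at h
  linarith

theorem od_five_d14_g0 (u : ℝ) (h1 : 1 ≤ u) (h2 : u ≤ 2) :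
    122141 / 100000 * (1 + (u - 1 / 5) / 5) ^ 5 ≤
      (1 + 1 / 10 + (1 / 10) ^ 2 / 2) * ((1 + (1 / 25 * (u ^ 2 - 1)) +
      (1 / 25 * (u ^ 2 - 1)) ^ 2 / 2 +
      (1 / 25 * (u ^ 2 - 1)) ^ 3 / 6) *
      (1 + u + 197 / 500 * u ^ 2)) := by
  obtain ⟨s, hs⟩ : ∃ s, s = u - (1) := ⟨_, rfl⟩
  obtain ⟨t, ht⟩ : ∃ t, t = 2 - u := ⟨_, rfl⟩
  have hs0 : 0 ≤ s := by linarith
  have ht0 : 0 ≤ t := by linarith
  have h : 0 ≤
      9764611327 / 122070312500 * t ^ 8 + 601338034403 / 976562500000 * s * t ^ 7 +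
      1968491341323 / 976562500000 * s ^ 2 * t ^ 6 +
      3554846514971 / 976562500000 * s ^ 3 * t ^ 5 +
      1536618263523 / 390625000000 * s ^ 4 * t ^ 4 +
      472168116343 / 183105468750 * s ^ 5 * t ^ 3 +
      967882317473 / 976562500000 * s ^ 6 * t ^ 2 + 24948694641 / 122070312500 * s ^ 7 * t +
      1123274201 / 61035156250 * s ^ 8 := by
    positivity
  have e :
      9764611327 / 122070312500 * t ^ 8 + 601338034403 / 976562500000 * s * t ^ 7 +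
      1968491341323 / 976562500000 * s ^ 2 * t ^ 6 +
      3554846514971 / 976562500000 * s ^ 3 * t ^ 5 +
      1536618263523 / 390625000000 * s ^ 4 * t ^ 4 +
      472168116343 / 183105468750 * s ^ 5 * t ^ 3 +
      967882317473 / 976562500000 * s ^ 6 * t ^ 2 + 24948694641 / 122070312500 * s ^ 7 * t +
      1123274201 / 61035156250 * s ^ 8 =
      (1 + 1 / 10 + (1 / 10) ^ 2 / 2) * ((1 + (1 / 25 * (u ^ 2 - 1)) +
      (1 / 25 * (u ^ 2 - 1)) ^ 2 / 2 +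
      (1 / 25 * (u ^ 2 - 1)) ^ 3 / 6) *
      (1 + u + 197 / 500 * u ^ 2)) -
      (122141 / 100000 * (1 + (u - 1 / 5) / 5) ^ 5) := by
    rw [hs, ht]
    ring
  rw [e] at h
  linarith

theorem od_five_d14_g1 (u : ℝ) (h1 : 2 ≤ u) (h2 : u ≤ 3) :
    122141 / 100000 * (1 + (u - 1 / 5) / 5) ^ 5 ≤
      (1 + 1 / 10 + (1 / 10) ^ 2 / 2) * ((1 + (1 / 25 * (u ^ 2 - 1)) +
      (1 / 25 * (u ^ 2 - 1)) ^ 2 / 2 +
      (1 / 25 * (u ^ 2 - 1)) ^ 3 / 6) *
      (1 + u + 197 / 500 * u ^ 2)) := by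
  obtain ⟨s, hs⟩ : ∃ s, s = u - (2) := ⟨_, rfl⟩
  obtain ⟨t, ht⟩ : ∃ t, t = 3 - u := ⟨_, rfl⟩
  have hs0 : 0 ≤ s := by linarith
  have ht0 : 0 ≤ t := by linarith
  have h : 0 ≤
      1123274201 / 61035156250 * t ^ 8 + 10996079791 / 122070312500 * s * t ^ 7 +
      186535885873 / 976562500000 * s ^ 2 * t ^ 6 +
      286848397397 / 732421875000 * s ^ 3 * t ^ 5 +
      1171419425969 / 1171875000000 * s ^ 4 * t ^ 4 +
      5237571892163 / 2929687500000 * s ^ 5 * t ^ 3 +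
      5256610353319 / 2929687500000 * s ^ 6 * t ^ 2 +
      2719625392159 / 2929687500000 * s ^ 7 * t + 284913328349 / 1464843750000 * s ^ 8 := by
    positivity
  have e :
      1123274201 / 61035156250 * t ^ 8 + 10996079791 / 122070312500 * s * t ^ 7 +
      186535885873 / 976562500000 * s ^ 2 * t ^ 6 +
      286848397397 / 732421875000 * s ^ 3 * t ^ 5 +
      1171419425969 / 1171875000000 * s ^ 4 * t ^ 4 +
      5237571892163 / 2929687500000 * s ^ 5 * t ^ 3 +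
      5256610353319 / 2929687500000 * s ^ 6 * t ^ 2 +
      2719625392159 / 2929687500000 * s ^ 7 * t + 284913328349 / 1464843750000 * s ^ 8 =
      (1 + 1 / 10 + (1 / 10) ^ 2 / 2) * ((1 + (1 / 25 * (u ^ 2 - 1)) +
      (1 / 25 * (u ^ 2 - 1)) ^ 2 / 2 +
      (1 / 25 * (u ^ 2 - 1)) ^ 3 / 6) *
      (1 + u + 197 / 500 * u ^ 2)) -
      (122141 / 100000 * (1 + (u - 1 / 5) / 5) ^ 5) := by
    rw [hs, ht]
    ring
  rw [e] at h
  linarith

theorem od_five_d14_t (u : ℝ) (h1 : 3 ≤ u) :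
    122141 / 100000 * (1 + (u - 1 / 5) / 5) ^ 5 ≤
      (1 + 1 / 10 + (1 / 10) ^ 2 / 2) * ((1 + (1 / 25 * (u ^ 2 - 1)) +
      (1 / 25 * (u ^ 2 - 1)) ^ 2 / 2 +
      (1 / 25 * (u ^ 2 - 1)) ^ 3 / 6) *
      (1 + u + 197 / 500 * u ^ 2)) := by
  obtain ⟨s, hs⟩ : ∃ s, s = u - (3) := ⟨_, rfl⟩
  have hs0 : 0 ≤ s := by linarith
  have h : 0 ≤
      284913328349 / 1464843750000 + 73559514457 / 117187500000 * s +
      8697515983 / 11718750000 * s ^ 2 + 146699969 / 390625000 * s ^ 3 +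
      310209757 / 3125000000 * s ^ 4 + 24902861 / 1562500000 * s ^ 5 +
      4134247 / 2343750000 * s ^ 6 + 288847 / 2343750000 * s ^ 7 + 43537 / 9375000000 * s ^ 8 := by
    positivity
  have e :
      284913328349 / 1464843750000 + 73559514457 / 117187500000 * s +
      8697515983 / 11718750000 * s ^ 2 + 146699969 / 390625000 * s ^ 3 +
      310209757 / 3125000000 * s ^ 4 + 24902861 / 1562500000 * s ^ 5 +
      4134247 / 2343750000 * s ^ 6 + 288847 / 2343750000 * s ^ 7 + 43537 / 9375000000 * s ^ 8 =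
      (1 + 1 / 10 + (1 / 10) ^ 2 / 2) * ((1 + (1 / 25 * (u ^ 2 - 1)) +
      (1 / 25 * (u ^ 2 - 1)) ^ 2 / 2 +
      (1 / 25 * (u ^ 2 - 1)) ^ 3 / 6) *
      (1 + u + 197 / 500 * u ^ 2)) -
      (122141 / 100000 * (1 + (u - 1 / 5) / 5) ^ 5) := by
    rw [hs]
    ring
  rw [e] at h
  linarith

/-- `K = 5`: `(c, μ, P, δ) = (197 / 500, 1 / 25, 1 / 5, 1 / 10)` -/
theorem expOd_five_d14 : ExpOd 5 (197 / 500) (1 / 25) (1 / 5) (1 / 10) := by
  have hde : (1 + 1 / 10 + (1 / 10) ^ 2 / 2) ≤ Real.exp (1 / 10) := Real.quadratic_le_exp_of_nonneg (by norm_num)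
  have hq : ∀ u : ℝ, 0 ≤ 1 + u + 197 / 500 * u ^ 2 := fun u => by
    nlinarith [sq_nonneg (u + 2), sq_nonneg u]
  have hR : ∀ (u x y : ℝ), x ≤ y → y ≤ (1 + 1 / 10 + (1 / 10) ^ 2 / 2) * (1 + u + 197 / 500 * u ^ 2) →
      x ≤ Real.exp (1 / 10) * (1 + u + 197 / 500 * u ^ 2) := fun u x y h1 h2 =>
    (h1.trans h2).trans (mul_le_mul_of_nonneg_right hde (hq u))
  refine ExpOd.of (by norm_num) (by norm_num) (by norm_num) (by norm_num) (by norm_num) ?_ ?_ ?_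
  · intro u h1
    rcases le_total u (-3) with h3 | h3
    · exact hR u _ _ (exp_le_n3 h3) (od_five_d14_d u h3)
    rcases le_total u (-2) with h4 | h4
    · refine hR u _ _ (exp_le_n2 h4) ?_
      exact od_five_d14_c0 u (by linarith) (by linarith)
    rcases le_total u (-1) with h5 | h5
    · refine hR u _ _ (exp_le_n1 h5) ?_
      exact od_five_d14_b0 u (by linarith) (by linarith)
    rcases le_total u 0 with h6 | h6
    · refine hR u _ _ (exp_le_n0 h6) ?_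
      exact od_five_d14_a0 u (by linarith) (by linarith)
    refine hR u _ _ (exp_le_p h6 (by linarith)) ?_
    exact od_five_d14_e0 u (by linarith) (by linarith)
  · intro u h1 h2
    have h4 : 0 ≤ (1 + (u - 1 / 5) / 5) ^ 5 := by
      have : 0 ≤ (u - 1 / 5) / 5 := div_nonneg (by linarith) (by norm_num)
      positivity
    have hE : Real.exp (1 / 5) ≤ 122141 / 100000 := exp_up_1_5
    push_cast
    refine hR u _ _ (mul_le_mul_of_nonneg_right hE h4) ?_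
    exact od_five_d14_f0 u (by linarith) (by linarith)
  · intro u h1
    have h4 : 0 ≤ (1 + (u - 1 / 5) / 5) ^ 5 := by
      have : 0 ≤ (u - 1 / 5) / 5 := div_nonneg (by linarith) (by norm_num)
      positivity
    have hE : Real.exp (1 / 5) ≤ 122141 / 100000 := exp_up_1_5
    have hx : 0 ≤ 1 / 25 * (u ^ 2 - 1) := mul_nonneg (by norm_num) (by nlinarith)
    have h5 := mul_le_mul_of_nonneg_right (taylor3_le_exp _ hx) (hq u)
    have h6 : 0 ≤ Real.exp (1 / 25 * (u ^ 2 - 1)) * (1 + u + 197 / 500 * u ^ 2) :=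
      mul_nonneg (Real.exp_nonneg _) (hq u)
    rw [Real.exp_add, mul_assoc]
    push_cast
    refine ((mul_le_mul_of_nonneg_right hE h4).trans ?_).trans
      ((mul_le_mul_of_nonneg_left h5 (by norm_num : (0 : ℝ) ≤ (1 + 1 / 10 + (1 / 10) ^ 2 / 2))).trans
        (mul_le_mul_of_nonneg_right hde h6))
    rcases le_total u (2) with hh | hh
    · exact od_five_d14_g0 u (by linarith) (by linarith)
    rcases le_total u (3) with hh | hh
    · exact od_five_d14_g1 u (by linarith) (by linarith)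
    exact od_five_d14_t u (by linarith)

theorem od_five_d20_a0 (u : ℝ) (h1 : -1 ≤ u) (h2 : u ≤ 0) :
    1 + u + u ^ 2 / 2 + u ^ 3 / 6 + u ^ 4 / 24 ≤
      1 * (1 + u + 351 / 500 * u ^ 2) := by
  obtain ⟨s, hs⟩ : ∃ s, s = u - (-1) := ⟨_, rfl⟩
  obtain ⟨t, ht⟩ : ∃ t, t = 0 - u := ⟨_, rfl⟩
  have hs0 : 0 ≤ s := by linarith
  have ht0 : 0 ≤ t := by linarith
  have h : 0 ≤
      327 / 1000 * t ^ 4 + 214 / 375 * s * t ^ 3 + 101 / 500 * s ^ 2 * t ^ 2 := by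
    positivity
  have e :
      327 / 1000 * t ^ 4 + 214 / 375 * s * t ^ 3 + 101 / 500 * s ^ 2 * t ^ 2 =
      1 * (1 + u + 351 / 500 * u ^ 2) -
      (1 + u + u ^ 2 / 2 + u ^ 3 / 6 + u ^ 4 / 24) := by
    rw [hs, ht]
    ring
  rw [e] at h
  linarith

theorem od_five_d20_b0 (u : ℝ) (h1 : -2 ≤ u) (h2 : u ≤ -1) :
    36788 / 100000 *
      (1 + (u + 1) + (u + 1) ^ 2 / 2 + (u + 1) ^ 3 / 6 + (u + 1) ^ 4 / 24) ≤
      1 * (1 + u + 351 / 500 * u ^ 2) := by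
  obtain ⟨s, hs⟩ : ∃ s, s = u - (-2) := ⟨_, rfl⟩
  obtain ⟨t, ht⟩ : ∃ t, t = -1 - u := ⟨_, rfl⟩
  have hs0 : 0 ≤ s := by linarith
  have ht0 : 0 ≤ t := by linarith
  have h : 0 ≤
      334009 / 200000 * t ^ 4 + 712433 / 150000 * s * t ^ 3 +
      241921 / 50000 * s ^ 2 * t ^ 2 + 52709 / 25000 * s ^ 3 * t + 8353 / 25000 * s ^ 4 := by
    positivity
  have e :
      334009 / 200000 * t ^ 4 + 712433 / 150000 * s * t ^ 3 +
      241921 / 50000 * s ^ 2 * t ^ 2 + 52709 / 25000 * s ^ 3 * t + 8353 / 25000 * s ^ 4 =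
      1 * (1 + u + 351 / 500 * u ^ 2) -
      (36788 / 100000 *
      (1 + (u + 1) + (u + 1) ^ 2 / 2 + (u + 1) ^ 3 / 6 + (u + 1) ^ 4 / 24)) := by
    rw [hs, ht]
    ring
  rw [e] at h
  linarith

theorem od_five_d20_c0 (u : ℝ) (h1 : -3 ≤ u) (h2 : u ≤ -2) :
    13534 / 100000 *
      (1 + (u + 2) + (u + 2) ^ 2 / 2 + (u + 2) ^ 3 / 6 + (u + 2) ^ 4 / 24) ≤
      1 * (1 + u + 351 / 500 * u ^ 2) := by
  obtain ⟨s, hs⟩ : ∃ s, s = u - (-3) := ⟨_, rfl⟩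
  obtain ⟨t, ht⟩ : ∃ t, t = -2 - u := ⟨_, rfl⟩
  have hs0 : 0 ≤ s := by linarith
  have ht0 : 0 ≤ t := by linarith
  have h : 0 ≤
      1706899 / 400000 * t ^ 4 + 4143563 / 300000 * s * t ^ 3 +
      1650031 / 100000 * s ^ 2 * t ^ 2 + 431699 / 50000 * s ^ 3 * t + 83633 / 50000 * s ^ 4 := by
    positivity
  have e :
      1706899 / 400000 * t ^ 4 + 4143563 / 300000 * s * t ^ 3 +
      1650031 / 100000 * s ^ 2 * t ^ 2 + 431699 / 50000 * s ^ 3 * t + 83633 / 50000 * s ^ 4 =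
      1 * (1 + u + 351 / 500 * u ^ 2) -
      (13534 / 100000 *
      (1 + (u + 2) + (u + 2) ^ 2 / 2 + (u + 2) ^ 3 / 6 + (u + 2) ^ 4 / 24)) := by
    rw [hs, ht]
    ring
  rw [e] at h
  linarith

theorem od_five_d20_d (u : ℝ) (h2 : u ≤ -3) :
    4979 / 100000 ≤
      1 * (1 + u + 351 / 500 * u ^ 2) := by
  obtain ⟨s, hs⟩ : ∃ s, s = -3 - u := ⟨_, rfl⟩
  have hs0 : 0 ≤ s := by linarith
  have h : 0 ≤
      426821 / 100000 + 803 / 250 * s + 351 / 500 * s ^ 2 := by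
    positivity
  have e :
      426821 / 100000 + 803 / 250 * s + 351 / 500 * s ^ 2 =
      1 * (1 + u + 351 / 500 * u ^ 2) -
      (4979 / 100000) := by
    rw [hs]
    ring
  rw [e] at h
  linarith

theorem od_five_d20_e0 (u : ℝ) (h1 : 0 ≤ u) (h2 : u ≤ 1 / 3) :
    1 + u + u ^ 2 / 2 + u ^ 3 / 6 + u ^ 4 / 24 + u ^ 5 / 100 ≤
      1 * (1 + u + 351 / 500 * u ^ 2) := by
  obtain ⟨s, hs⟩ : ∃ s, s = u - (0) := ⟨_, rfl⟩
  obtain ⟨t, ht⟩ : ∃ t, t = 1 / 3 - u := ⟨_, rfl⟩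
  have hs0 : 0 ≤ s := by linarith
  have ht0 : 0 ≤ t := by linarith
  have h : 0 ≤
      2727 / 500 * s ^ 2 * t ^ 3 + 7431 / 500 * s ^ 3 * t ^ 2 + 13237 / 1000 * s ^ 4 * t +
      3819 / 1000 * s ^ 5 := by
    positivity
  have e :
      2727 / 500 * s ^ 2 * t ^ 3 + 7431 / 500 * s ^ 3 * t ^ 2 + 13237 / 1000 * s ^ 4 * t +
      3819 / 1000 * s ^ 5 =
      1 * (1 + u + 351 / 500 * u ^ 2) -
      (1 + u + u ^ 2 / 2 + u ^ 3 / 6 + u ^ 4 / 24 + u ^ 5 / 100) := by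
    rw [hs, ht]
    ring
  rw [e] at h
  linarith

theorem od_five_d20_f0 (u : ℝ) (h1 : 1 / 3 ≤ u) (h2 : u ≤ 1) :
    69781 / 50000 * (1 + (u - 1 / 3) / 5) ^ 5 ≤
      1 * (1 + u + 351 / 500 * u ^ 2) := by
  obtain ⟨s, hs⟩ : ∃ s, s = u - (1 / 3) := ⟨_, rfl⟩
  obtain ⟨t, ht⟩ : ∃ t, t = 1 - u := ⟨_, rfl⟩
  have hs0 : 0 ≤ s := by linarith
  have ht0 : 0 ≤ t := by linarith
  have h : 0 ≤
      190917 / 1600000 * t ^ 5 + 1540863 / 1600000 * s * t ^ 4 +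
      12576357 / 4000000 * s ^ 2 * t ^ 3 + 91921023 / 20000000 * s ^ 3 * t ^ 2 +
      599725797 / 200000000 * s ^ 4 * t + 3512521183 / 5000000000 * s ^ 5 := by
    positivity
  have e :
      190917 / 1600000 * t ^ 5 + 1540863 / 1600000 * s * t ^ 4 +
      12576357 / 4000000 * s ^ 2 * t ^ 3 + 91921023 / 20000000 * s ^ 3 * t ^ 2 +
      599725797 / 200000000 * s ^ 4 * t + 3512521183 / 5000000000 * s ^ 5 =
      1 * (1 + u + 351 / 500 * u ^ 2) -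
      (69781 / 50000 * (1 + (u - 1 / 3) / 5) ^ 5) := by
    rw [hs, ht]
    ring
  rw [e] at h
  linarith

theorem od_five_d20_g0 (u : ℝ) (h1 : 1 ≤ u) (h2 : u ≤ 3) :
    69781 / 50000 * (1 + (u - 1 / 3) / 5) ^ 5 ≤
      1 * ((1 + (1 / 50 * (u ^ 2 - 1)) +
      (1 / 50 * (u ^ 2 - 1)) ^ 2 / 2 +
      (1 / 50 * (u ^ 2 - 1)) ^ 3 / 6) *
      (1 + u + 351 / 500 * u ^ 2)) := by
  obtain ⟨s, hs⟩ : ∃ s, s = u - (1) := ⟨_, rfl⟩
  obtain ⟨t, ht⟩ : ∃ t, t = 3 - u := ⟨_, rfl⟩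
  have hs0 : 0 ≤ s := by linarith
  have ht0 : 0 ≤ t := by linarith
  have h : 0 ≤
      3512521183 / 9720000000000 * t ^ 8 + 22007938717 / 4860000000000 * s * t ^ 7 +
      108048228917 / 4860000000000 * s ^ 2 * t ^ 6 +
      274884764089 / 4860000000000 * s ^ 3 * t ^ 5 +
      2515005863 / 30375000000 * s ^ 4 * t ^ 4 +
      350196424831 / 4860000000000 * s ^ 5 * t ^ 3 +
      177511246643 / 4860000000000 * s ^ 6 * t ^ 2 +
      47918473723 / 4860000000000 * s ^ 7 * t + 10590952177 / 9720000000000 * s ^ 8 := by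
    positivity
  have e :
      3512521183 / 9720000000000 * t ^ 8 + 22007938717 / 4860000000000 * s * t ^ 7 +
      108048228917 / 4860000000000 * s ^ 2 * t ^ 6 +
      274884764089 / 4860000000000 * s ^ 3 * t ^ 5 +
      2515005863 / 30375000000 * s ^ 4 * t ^ 4 +
      350196424831 / 4860000000000 * s ^ 5 * t ^ 3 +
      177511246643 / 4860000000000 * s ^ 6 * t ^ 2 +
      47918473723 / 4860000000000 * s ^ 7 * t + 10590952177 / 9720000000000 * s ^ 8 =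
      1 * ((1 + (1 / 50 * (u ^ 2 - 1)) +
      (1 / 50 * (u ^ 2 - 1)) ^ 2 / 2 +
      (1 / 50 * (u ^ 2 - 1)) ^ 3 / 6) *
      (1 + u + 351 / 500 * u ^ 2)) -
      (69781 / 50000 * (1 + (u - 1 / 3) / 5) ^ 5) := by
    rw [hs, ht]
    ring
  rw [e] at h
  linarith

theorem od_five_d20_g1 (u : ℝ) (h1 : 3 ≤ u) (h2 : u ≤ 4) :
    69781 / 50000 * (1 + (u - 1 / 3) / 5) ^ 5 ≤
      1 * ((1 + (1 / 50 * (u ^ 2 - 1)) +
      (1 / 50 * (u ^ 2 - 1)) ^ 2 / 2 +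
      (1 / 50 * (u ^ 2 - 1)) ^ 3 / 6) *
      (1 + u + 351 / 500 * u ^ 2)) := by
  obtain ⟨s, hs⟩ : ∃ s, s = u - (3) := ⟨_, rfl⟩
  obtain ⟨t, ht⟩ : ∃ t, t = 4 - u := ⟨_, rfl⟩
  have hs0 : 0 ≤ s := by linarith
  have ht0 : 0 ≤ t := by linarith
  have h : 0 ≤
      10590952177 / 37968750000 * t ^ 8 + 79172952401 / 37968750000 * s * t ^ 7 +
      252841636381 / 37968750000 * s ^ 2 * t ^ 6 +
      448793581727 / 37968750000 * s ^ 3 * t ^ 5 +
      192793230799 / 15187500000 * s ^ 4 * t ^ 4 +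
      638035881613 / 75937500000 * s ^ 5 * t ^ 3 +
      506269060663 / 151875000000 * s ^ 6 * t ^ 2 + 27612779717 / 37968750000 * s ^ 7 * t +
      2614359469 / 37968750000 * s ^ 8 := by
    positivity
  have e :
      10590952177 / 37968750000 * t ^ 8 + 79172952401 / 37968750000 * s * t ^ 7 +
      252841636381 / 37968750000 * s ^ 2 * t ^ 6 +
      448793581727 / 37968750000 * s ^ 3 * t ^ 5 +
      192793230799 / 15187500000 * s ^ 4 * t ^ 4 +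
      638035881613 / 75937500000 * s ^ 5 * t ^ 3 +
      506269060663 / 151875000000 * s ^ 6 * t ^ 2 + 27612779717 / 37968750000 * s ^ 7 * t +
      2614359469 / 37968750000 * s ^ 8 =
      1 * ((1 + (1 / 50 * (u ^ 2 - 1)) +
      (1 / 50 * (u ^ 2 - 1)) ^ 2 / 2 +
      (1 / 50 * (u ^ 2 - 1)) ^ 3 / 6) *
      (1 + u + 351 / 500 * u ^ 2)) -
      (69781 / 50000 * (1 + (u - 1 / 3) / 5) ^ 5) := by
    rw [hs, ht]
    ring
  rw [e] at h
  linarith

theorem od_five_d20_g2 (u : ℝ) (h1 : 4 ≤ u) (h2 : u ≤ 5) :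
    69781 / 50000 * (1 + (u - 1 / 3) / 5) ^ 5 ≤
      1 * ((1 + (1 / 50 * (u ^ 2 - 1)) +
      (1 / 50 * (u ^ 2 - 1)) ^ 2 / 2 +
      (1 / 50 * (u ^ 2 - 1)) ^ 3 / 6) *
      (1 + u + 351 / 500 * u ^ 2)) := by
  obtain ⟨s, hs⟩ : ∃ s, s = u - (4) := ⟨_, rfl⟩
  obtain ⟨t, ht⟩ : ∃ t, t = 5 - u := ⟨_, rfl⟩
  have hs0 : 0 ≤ s := by linarith
  have ht0 : 0 ≤ t := by linarith
  have h : 0 ≤
      2614359469 / 37968750000 * t ^ 8 + 14216971787 / 37968750000 * s * t ^ 7 +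
      131186438623 / 151875000000 * s ^ 2 * t ^ 6 +
      103097574133 / 75937500000 * s ^ 3 * t ^ 5 +
      32937545359 / 15187500000 * s ^ 4 * t ^ 4 +
      118891355441 / 37968750000 * s ^ 5 * t ^ 3 +
      111526567843 / 37968750000 * s ^ 6 * t ^ 2 + 56187506663 / 37968750000 * s ^ 7 * t +
      11563256131 / 37968750000 * s ^ 8 := by
    positivity
  have e :
      2614359469 / 37968750000 * t ^ 8 + 14216971787 / 37968750000 * s * t ^ 7 +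
      131186438623 / 151875000000 * s ^ 2 * t ^ 6 +
      103097574133 / 75937500000 * s ^ 3 * t ^ 5 +
      32937545359 / 15187500000 * s ^ 4 * t ^ 4 +
      118891355441 / 37968750000 * s ^ 5 * t ^ 3 +
      111526567843 / 37968750000 * s ^ 6 * t ^ 2 + 56187506663 / 37968750000 * s ^ 7 * t +
      11563256131 / 37968750000 * s ^ 8 =
      1 * ((1 + (1 / 50 * (u ^ 2 - 1)) +
      (1 / 50 * (u ^ 2 - 1)) ^ 2 / 2 +
      (1 / 50 * (u ^ 2 - 1)) ^ 3 / 6) *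
      (1 + u + 351 / 500 * u ^ 2)) -
      (69781 / 50000 * (1 + (u - 1 / 3) / 5) ^ 5) := by
    rw [hs, ht]
    ring
  rw [e] at h
  linarith

theorem od_five_d20_t (u : ℝ) (h1 : 5 ≤ u) :
    69781 / 50000 * (1 + (u - 1 / 3) / 5) ^ 5 ≤
      1 * ((1 + (1 / 50 * (u ^ 2 - 1)) +
      (1 / 50 * (u ^ 2 - 1)) ^ 2 / 2 +
      (1 / 50 * (u ^ 2 - 1)) ^ 3 / 6) *
      (1 + u + 351 / 500 * u ^ 2)) := by
  obtain ⟨s, hs⟩ : ∃ s, s = u - (5) := ⟨_, rfl⟩
  have hs0 : 0 ≤ s := by linarith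
  have h : 0 ≤
      11563256131 / 37968750000 + 2421236159 / 2531250000 * s +
      466502143 / 421875000 * s ^ 2 + 66195389 / 140625000 * s ^ 3 +
      6009547 / 62500000 * s ^ 4 + 3490363 / 312500000 * s ^ 5 + 105099 / 125000000 * s ^ 6 +
      727 / 18750000 * s ^ 7 + 117 / 125000000 * s ^ 8 := by
    positivity
  have e :
      11563256131 / 37968750000 + 2421236159 / 2531250000 * s +
      466502143 / 421875000 * s ^ 2 + 66195389 / 140625000 * s ^ 3 +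
      6009547 / 62500000 * s ^ 4 + 3490363 / 312500000 * s ^ 5 + 105099 / 125000000 * s ^ 6 +
      727 / 18750000 * s ^ 7 + 117 / 125000000 * s ^ 8 =
      1 * ((1 + (1 / 50 * (u ^ 2 - 1)) +
      (1 / 50 * (u ^ 2 - 1)) ^ 2 / 2 +
      (1 / 50 * (u ^ 2 - 1)) ^ 3 / 6) *
      (1 + u + 351 / 500 * u ^ 2)) -
      (69781 / 50000 * (1 + (u - 1 / 3) / 5) ^ 5) := by
    rw [hs]
    ring
  rw [e] at h
  linarith

/-- `K = 5`: `(c, μ, P, δ) = (351 / 500, 1 / 50, 1 / 3, 0)` -/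
theorem expOd_five_d20 : ExpOd 5 (351 / 500) (1 / 50) (1 / 3) (0) := by
  have hde : 1 ≤ Real.exp (0) := Real.exp_zero.ge
  have hq : ∀ u : ℝ, 0 ≤ 1 + u + 351 / 500 * u ^ 2 := fun u => by
    nlinarith [sq_nonneg (u + 2), sq_nonneg u]
  have hR : ∀ (u x y : ℝ), x ≤ y → y ≤ 1 * (1 + u + 351 / 500 * u ^ 2) →
      x ≤ Real.exp (0) * (1 + u + 351 / 500 * u ^ 2) := fun u x y h1 h2 =>
    (h1.trans h2).trans (mul_le_mul_of_nonneg_right hde (hq u))
  refine ExpOd.of (by norm_num) (by norm_num) (by norm_num) (by norm_num) (by norm_num) ?_ ?_ ?_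
  · intro u h1
    rcases le_total u (-3) with h3 | h3
    · exact hR u _ _ (exp_le_n3 h3) (od_five_d20_d u h3)
    rcases le_total u (-2) with h4 | h4
    · refine hR u _ _ (exp_le_n2 h4) ?_
      exact od_five_d20_c0 u (by linarith) (by linarith)
    rcases le_total u (-1) with h5 | h5
    · refine hR u _ _ (exp_le_n1 h5) ?_
      exact od_five_d20_b0 u (by linarith) (by linarith)
    rcases le_total u 0 with h6 | h6
    · refine hR u _ _ (exp_le_n0 h6) ?_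
      exact od_five_d20_a0 u (by linarith) (by linarith)
    refine hR u _ _ (exp_le_p h6 (by linarith)) ?_
    exact od_five_d20_e0 u (by linarith) (by linarith)
  · intro u h1 h2
    have h4 : 0 ≤ (1 + (u - 1 / 3) / 5) ^ 5 := by
      have : 0 ≤ (u - 1 / 3) / 5 := div_nonneg (by linarith) (by norm_num)
      positivity
    have hE : Real.exp (1 / 3) ≤ 69781 / 50000 := exp_up_1_3
    push_cast
    refine hR u _ _ (mul_le_mul_of_nonneg_right hE h4) ?_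
    exact od_five_d20_f0 u (by linarith) (by linarith)
  · intro u h1
    have h4 : 0 ≤ (1 + (u - 1 / 3) / 5) ^ 5 := by
      have : 0 ≤ (u - 1 / 3) / 5 := div_nonneg (by linarith) (by norm_num)
      positivity
    have hE : Real.exp (1 / 3) ≤ 69781 / 50000 := exp_up_1_3
    have hx : 0 ≤ 1 / 50 * (u ^ 2 - 1) := mul_nonneg (by norm_num) (by nlinarith)
    have h5 := mul_le_mul_of_nonneg_right (taylor3_le_exp _ hx) (hq u)
    have h6 : 0 ≤ Real.exp (1 / 50 * (u ^ 2 - 1)) * (1 + u + 351 / 500 * u ^ 2) :=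
      mul_nonneg (Real.exp_nonneg _) (hq u)
    rw [Real.exp_add, mul_assoc]
    push_cast
    refine ((mul_le_mul_of_nonneg_right hE h4).trans ?_).trans
      ((mul_le_mul_of_nonneg_left h5 (by norm_num : (0 : ℝ) ≤ 1)).trans
        (mul_le_mul_of_nonneg_right hde h6))
    rcases le_total u (3) with hh | hh
    · exact od_five_d20_g0 u (by linarith) (by linarith)
    rcases le_total u (4) with hh | hh
    · exact od_five_d20_g1 u (by linarith) (by linarith)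
    rcases le_total u (5) with hh | hh
    · exact od_five_d20_g2 u (by linarith) (by linarith)
    exact od_five_d20_t u (by linarith)

theorem od_five_d21_a0 (u : ℝ) (h1 : -1 ≤ u) (h2 : u ≤ 0) :
    1 + u + u ^ 2 / 2 + u ^ 3 / 6 + u ^ 4 / 24 ≤
      1 * (1 + u + 611 / 1000 * u ^ 2) := by
  obtain ⟨s, hs⟩ : ∃ s, s = u - (-1) := ⟨_, rfl⟩
  obtain ⟨t, ht⟩ : ∃ t, t = 0 - u := ⟨_, rfl⟩
  have hs0 : 0 ≤ s := by linarith
  have ht0 : 0 ≤ t := by linarith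
  have h : 0 ≤
      59 / 250 * t ^ 4 + 583 / 1500 * s * t ^ 3 + 111 / 1000 * s ^ 2 * t ^ 2 := by
    positivity
  have e :
      59 / 250 * t ^ 4 + 583 / 1500 * s * t ^ 3 + 111 / 1000 * s ^ 2 * t ^ 2 =
      1 * (1 + u + 611 / 1000 * u ^ 2) -
      (1 + u + u ^ 2 / 2 + u ^ 3 / 6 + u ^ 4 / 24) := by
    rw [hs, ht]
    ring
  rw [e] at h
  linarith

theorem od_five_d21_b0 (u : ℝ) (h1 : -2 ≤ u) (h2 : u ≤ -1) :
    36788 / 100000 *
      (1 + (u + 1) + (u + 1) ^ 2 / 2 + (u + 1) ^ 3 / 6 + (u + 1) ^ 4 / 24) ≤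
      1 * (1 + u + 611 / 1000 * u ^ 2) := by
  obtain ⟨s, hs⟩ : ∃ s, s = u - (-2) := ⟨_, rfl⟩
  obtain ⟨t, ht⟩ : ∃ t, t = -1 - u := ⟨_, rfl⟩
  have hs0 : 0 ≤ s := by linarith
  have ht0 : 0 ≤ t := by linarith
  have h : 0 ≤
      261209 / 200000 * t ^ 4 + 548633 / 150000 * s * t ^ 3 +
      182771 / 50000 * s ^ 2 * t ^ 2 + 39059 / 25000 * s ^ 3 * t + 3039 / 12500 * s ^ 4 := by
    positivity
  have e :
      261209 / 200000 * t ^ 4 + 548633 / 150000 * s * t ^ 3 +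
      182771 / 50000 * s ^ 2 * t ^ 2 + 39059 / 25000 * s ^ 3 * t + 3039 / 12500 * s ^ 4 =
      1 * (1 + u + 611 / 1000 * u ^ 2) -
      (36788 / 100000 *
      (1 + (u + 1) + (u + 1) ^ 2 / 2 + (u + 1) ^ 3 / 6 + (u + 1) ^ 4 / 24)) := by
    rw [hs, ht]
    ring
  rw [e] at h
  linarith

theorem od_five_d21_c0 (u : ℝ) (h1 : -3 ≤ u) (h2 : u ≤ -2) :
    13534 / 100000 *
      (1 + (u + 2) + (u + 2) ^ 2 / 2 + (u + 2) ^ 3 / 6 + (u + 2) ^ 4 / 24) ≤
      1 * (1 + u + 611 / 1000 * u ^ 2) := by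
  obtain ⟨s, hs⟩ : ∃ s, s = u - (-3) := ⟨_, rfl⟩
  obtain ⟨t, ht⟩ : ∃ t, t = -2 - u := ⟨_, rfl⟩
  have hs0 : 0 ≤ s := by linarith
  have ht0 : 0 ≤ t := by linarith
  have h : 0 ≤
      1379299 / 400000 * t ^ 4 + 3324563 / 300000 * s * t ^ 3 +
      1313331 / 100000 * s ^ 2 * t ^ 2 + 340699 / 50000 * s ^ 3 * t + 65433 / 50000 * s ^ 4 := by
    positivity
  have e :
      1379299 / 400000 * t ^ 4 + 3324563 / 300000 * s * t ^ 3 +
      1313331 / 100000 * s ^ 2 * t ^ 2 + 340699 / 50000 * s ^ 3 * t + 65433 / 50000 * s ^ 4 =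
      1 * (1 + u + 611 / 1000 * u ^ 2) -
      (13534 / 100000 *
      (1 + (u + 2) + (u + 2) ^ 2 / 2 + (u + 2) ^ 3 / 6 + (u + 2) ^ 4 / 24)) := by
    rw [hs, ht]
    ring
  rw [e] at h
  linarith

theorem od_five_d21_d (u : ℝ) (h2 : u ≤ -3) :
    4979 / 100000 ≤
      1 * (1 + u + 611 / 1000 * u ^ 2) := by
  obtain ⟨s, hs⟩ : ∃ s, s = -3 - u := ⟨_, rfl⟩
  have hs0 : 0 ≤ s := by linarith
  have h : 0 ≤
      344921 / 100000 + 1333 / 500 * s + 611 / 1000 * s ^ 2 := by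
    positivity
  have e :
      344921 / 100000 + 1333 / 500 * s + 611 / 1000 * s ^ 2 =
      1 * (1 + u + 611 / 1000 * u ^ 2) -
      (4979 / 100000) := by
    rw [hs]
    ring
  rw [e] at h
  linarith

theorem od_five_d21_e0 (u : ℝ) (h1 : 0 ≤ u) (h2 : u ≤ 1 / 3) :
    1 + u + u ^ 2 / 2 + u ^ 3 / 6 + u ^ 4 / 24 + u ^ 5 / 100 ≤
      1 * (1 + u + 611 / 1000 * u ^ 2) := by
  obtain ⟨s, hs⟩ : ∃ s, s = u - (0) := ⟨_, rfl⟩
  obtain ⟨t, ht⟩ : ∃ t, t = 1 / 3 - u := ⟨_, rfl⟩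
  have hs0 : 0 ≤ s := by linarith
  have ht0 : 0 ≤ t := by linarith
  have h : 0 ≤
      2997 / 1000 * s ^ 2 * t ^ 3 + 7491 / 1000 * s ^ 3 * t ^ 2 + 2933 / 500 * s ^ 4 * t +
      681 / 500 * s ^ 5 := by
    positivity
  have e :
      2997 / 1000 * s ^ 2 * t ^ 3 + 7491 / 1000 * s ^ 3 * t ^ 2 + 2933 / 500 * s ^ 4 * t +
      681 / 500 * s ^ 5 =
      1 * (1 + u + 611 / 1000 * u ^ 2) -
      (1 + u + u ^ 2 / 2 + u ^ 3 / 6 + u ^ 4 / 24 + u ^ 5 / 100) := by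
    rw [hs, ht]
    ring
  rw [e] at h
  linarith

theorem od_five_d21_f0 (u : ℝ) (h1 : 1 / 3 ≤ u) (h2 : u ≤ 1) :
    69781 / 50000 * (1 + (u - 1 / 3) / 5) ^ 5 ≤
      1 * (1 + u + 611 / 1000 * u ^ 2) := by
  obtain ⟨s, hs⟩ : ∃ s, s = u - (1 / 3) := ⟨_, rfl⟩
  obtain ⟨t, ht⟩ : ∃ t, t = 1 - u := ⟨_, rfl⟩
  have hs0 : 0 ≤ s := by linarith
  have ht0 : 0 ≤ t := by linarith
  have h : 0 ≤
      68067 / 1600000 * t ^ 5 + 435213 / 1600000 * s * t ^ 4 +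
      3362607 / 4000000 * s ^ 2 * t ^ 3 + 21282273 / 20000000 * s ^ 3 * t ^ 2 +
      92969547 / 200000000 * s ^ 4 * t + 57364933 / 5000000000 * s ^ 5 := by
    positivity
  have e :
      68067 / 1600000 * t ^ 5 + 435213 / 1600000 * s * t ^ 4 +
      3362607 / 4000000 * s ^ 2 * t ^ 3 + 21282273 / 20000000 * s ^ 3 * t ^ 2 +
      92969547 / 200000000 * s ^ 4 * t + 57364933 / 5000000000 * s ^ 5 =
      1 * (1 + u + 611 / 1000 * u ^ 2) -
      (69781 / 50000 * (1 + (u - 1 / 3) / 5) ^ 5) := by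
    rw [hs, ht]
    ring
  rw [e] at h
  linarith

theorem od_five_d21_g0 (u : ℝ) (h1 : 1 ≤ u) (h2 : u ≤ 2) :
    69781 / 50000 * (1 + (u - 1 / 3) / 5) ^ 5 ≤
      1 * ((1 + (3 / 100 * (u ^ 2 - 1)) +
      (3 / 100 * (u ^ 2 - 1)) ^ 2 / 2 +
      (3 / 100 * (u ^ 2 - 1)) ^ 3 / 6) *
      (1 + u + 611 / 1000 * u ^ 2)) := by
  obtain ⟨s, hs⟩ : ∃ s, s = u - (1) := ⟨_, rfl⟩
  obtain ⟨t, ht⟩ : ∃ t, t = 2 - u := ⟨_, rfl⟩
  have hs0 : 0 ≤ s := by linarith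
  have ht0 : 0 ≤ t := by linarith
  have h : 0 ≤
      57364933 / 37968750000 * t ^ 8 + 418872853 / 4746093750 * s * t ^ 7 +
      89636138371 / 151875000000 * s ^ 2 * t ^ 6 +
      528862388599 / 303750000000 * s ^ 3 * t ^ 5 +
      173015155687 / 60750000000 * s ^ 4 * t ^ 4 +
      135218517211 / 48600000000 * s ^ 5 * t ^ 3 +
      791460738359 / 486000000000 * s ^ 6 * t ^ 2 + 64651168867 / 121500000000 * s ^ 7 * t +
      9177921989 / 121500000000 * s ^ 8 := by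
    positivity
  have e :
      57364933 / 37968750000 * t ^ 8 + 418872853 / 4746093750 * s * t ^ 7 +
      89636138371 / 151875000000 * s ^ 2 * t ^ 6 +
      528862388599 / 303750000000 * s ^ 3 * t ^ 5 +
      173015155687 / 60750000000 * s ^ 4 * t ^ 4 +
      135218517211 / 48600000000 * s ^ 5 * t ^ 3 +
      791460738359 / 486000000000 * s ^ 6 * t ^ 2 + 64651168867 / 121500000000 * s ^ 7 * t +
      9177921989 / 121500000000 * s ^ 8 =
      1 * ((1 + (3 / 100 * (u ^ 2 - 1)) +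
      (3 / 100 * (u ^ 2 - 1)) ^ 2 / 2 +
      (3 / 100 * (u ^ 2 - 1)) ^ 3 / 6) *
      (1 + u + 611 / 1000 * u ^ 2)) -
      (69781 / 50000 * (1 + (u - 1 / 3) / 5) ^ 5) := by
    rw [hs, ht]
    ring
  rw [e] at h
  linarith

theorem od_five_d21_t (u : ℝ) (h1 : 2 ≤ u) :
    69781 / 50000 * (1 + (u - 1 / 3) / 5) ^ 5 ≤
      1 * ((1 + (3 / 100 * (u ^ 2 - 1)) +
      (3 / 100 * (u ^ 2 - 1)) ^ 2 / 2 +
      (3 / 100 * (u ^ 2 - 1)) ^ 3 / 6) *
      (1 + u + 611 / 1000 * u ^ 2)) := by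
  obtain ⟨s, hs⟩ : ∃ s, s = u - (2) := ⟨_, rfl⟩
  have hs0 : 0 ≤ s := by linarith
  have h : 0 ≤
      9177921989 / 121500000000 + 584813803 / 8100000000 * s +
      1017252539 / 54000000000 * s ^ 2 + 25156943 / 562500000 * s ^ 3 +
      169888591 / 6000000000 * s ^ 4 + 12135239 / 2500000000 * s ^ 5 +
      1284291 / 2000000000 * s ^ 6 + 12123 / 250000000 * s ^ 7 + 5499 / 2000000000 * s ^ 8 := by
    positivity
  have e :
      9177921989 / 121500000000 + 584813803 / 8100000000 * s +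
      1017252539 / 54000000000 * s ^ 2 + 25156943 / 562500000 * s ^ 3 +
      169888591 / 6000000000 * s ^ 4 + 12135239 / 2500000000 * s ^ 5 +
      1284291 / 2000000000 * s ^ 6 + 12123 / 250000000 * s ^ 7 + 5499 / 2000000000 * s ^ 8 =
      1 * ((1 + (3 / 100 * (u ^ 2 - 1)) +
      (3 / 100 * (u ^ 2 - 1)) ^ 2 / 2 +
      (3 / 100 * (u ^ 2 - 1)) ^ 3 / 6) *
      (1 + u + 611 / 1000 * u ^ 2)) -
      (69781 / 50000 * (1 + (u - 1 / 3) / 5) ^ 5) := by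
    rw [hs]
    ring
  rw [e] at h
  linarith

/-- `K = 5`: `(c, μ, P, δ) = (611 / 1000, 3 / 100, 1 / 3, 0)` -/
theorem expOd_five_d21 : ExpOd 5 (611 / 1000) (3 / 100) (1 / 3) (0) := by
  have hde : 1 ≤ Real.exp (0) := Real.exp_zero.ge
  have hq : ∀ u : ℝ, 0 ≤ 1 + u + 611 / 1000 * u ^ 2 := fun u => by
    nlinarith [sq_nonneg (u + 2), sq_nonneg u]
  have hR : ∀ (u x y : ℝ), x ≤ y → y ≤ 1 * (1 + u + 611 / 1000 * u ^ 2) →
      x ≤ Real.exp (0) * (1 + u + 611 / 1000 * u ^ 2) := fun u x y h1 h2 =>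
    (h1.trans h2).trans (mul_le_mul_of_nonneg_right hde (hq u))
  refine ExpOd.of (by norm_num) (by norm_num) (by norm_num) (by norm_num) (by norm_num) ?_ ?_ ?_
  · intro u h1
    rcases le_total u (-3) with h3 | h3
    · exact hR u _ _ (exp_le_n3 h3) (od_five_d21_d u h3)
    rcases le_total u (-2) with h4 | h4
    · refine hR u _ _ (exp_le_n2 h4) ?_
      exact od_five_d21_c0 u (by linarith) (by linarith)
    rcases le_total u (-1) with h5 | h5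
    · refine hR u _ _ (exp_le_n1 h5) ?_
      exact od_five_d21_b0 u (by linarith) (by linarith)
    rcases le_total u 0 with h6 | h6
    · refine hR u _ _ (exp_le_n0 h6) ?_
      exact od_five_d21_a0 u (by linarith) (by linarith)
    refine hR u _ _ (exp_le_p h6 (by linarith)) ?_
    exact od_five_d21_e0 u (by linarith) (by linarith)
  · intro u h1 h2
    have h4 : 0 ≤ (1 + (u - 1 / 3) / 5) ^ 5 := by
      have : 0 ≤ (u - 1 / 3) / 5 := div_nonneg (by linarith) (by norm_num)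
      positivity
    have hE : Real.exp (1 / 3) ≤ 69781 / 50000 := exp_up_1_3
    push_cast
    refine hR u _ _ (mul_le_mul_of_nonneg_right hE h4) ?_
    exact od_five_d21_f0 u (by linarith) (by linarith)
  · intro u h1
    have h4 : 0 ≤ (1 + (u - 1 / 3) / 5) ^ 5 := by
      have : 0 ≤ (u - 1 / 3) / 5 := div_nonneg (by linarith) (by norm_num)
      positivity
    have hE : Real.exp (1 / 3) ≤ 69781 / 50000 := exp_up_1_3
    have hx : 0 ≤ 3 / 100 * (u ^ 2 - 1) := mul_nonneg (by norm_num) (by nlinarith)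
    have h5 := mul_le_mul_of_nonneg_right (taylor3_le_exp _ hx) (hq u)
    have h6 : 0 ≤ Real.exp (3 / 100 * (u ^ 2 - 1)) * (1 + u + 611 / 1000 * u ^ 2) :=
      mul_nonneg (Real.exp_nonneg _) (hq u)
    rw [Real.exp_add, mul_assoc]
    push_cast
    refine ((mul_le_mul_of_nonneg_right hE h4).trans ?_).trans
      ((mul_le_mul_of_nonneg_left h5 (by norm_num : (0 : ℝ) ≤ 1)).trans
        (mul_le_mul_of_nonneg_right hde h6))
    rcases le_total u (2) with hh | hh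
    · exact od_five_d21_g0 u (by linarith) (by linarith)
    exact od_five_d21_t u (by linarith)

theorem od_five_d22_a0 (u : ℝ) (h1 : -1 ≤ u) (h2 : u ≤ 0) :
    1 + u + u ^ 2 / 2 + u ^ 3 / 6 + u ^ 4 / 24 ≤
      (1 + 1 / 100 + (1 / 100) ^ 2 / 2) * (1 + u + 117 / 200 * u ^ 2) := by
  obtain ⟨s, hs⟩ : ∃ s, s = u - (-1) := ⟨_, rfl⟩
  obtain ⟨t, ht⟩ : ∃ t, t = 0 - u := ⟨_, rfl⟩
  have hs0 : 0 ≤ s := by linarith
  have ht0 : 0 ≤ t := by linarith
  have h : 0 ≤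
      863517 / 4000000 * t ^ 4 + 2150851 / 6000000 * s * t ^ 3 +
      484117 / 4000000 * s ^ 2 * t ^ 2 + 603 / 20000 * s ^ 3 * t + 201 / 20000 * s ^ 4 := by
    positivity
  have e :
      863517 / 4000000 * t ^ 4 + 2150851 / 6000000 * s * t ^ 3 +
      484117 / 4000000 * s ^ 2 * t ^ 2 + 603 / 20000 * s ^ 3 * t + 201 / 20000 * s ^ 4 =
      (1 + 1 / 100 + (1 / 100) ^ 2 / 2) * (1 + u + 117 / 200 * u ^ 2) -
      (1 + u + u ^ 2 / 2 + u ^ 3 / 6 + u ^ 4 / 24) := by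
    rw [hs, ht]
    ring
  rw [e] at h
  linarith

theorem od_five_d22_b0 (u : ℝ) (h1 : -2 ≤ u) (h2 : u ≤ -1) :
    36788 / 100000 *
      (1 + (u + 1) + (u + 1) ^ 2 / 2 + (u + 1) ^ 3 / 6 + (u + 1) ^ 4 / 24) ≤
      (1 + 1 / 100 + (1 / 100) ^ 2 / 2) * (1 + u + 117 / 200 * u ^ 2) := by
  obtain ⟨s, hs⟩ : ∃ s, s = u - (-2) := ⟨_, rfl⟩
  obtain ⟨t, ht⟩ : ∃ t, t = -1 - u := ⟨_, rfl⟩
  have hs0 : 0 ≤ s := by linarith
  have ht0 : 0 ≤ t := by linarith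
  have h : 0 ≤
      151939 / 125000 * t ^ 4 + 10157863 / 3000000 * s * t ^ 3 +
      13454801 / 4000000 * s ^ 2 * t ^ 2 + 2863171 / 2000000 * s ^ 3 * t +
      891997 / 4000000 * s ^ 4 := by
    positivity
  have e :
      151939 / 125000 * t ^ 4 + 10157863 / 3000000 * s * t ^ 3 +
      13454801 / 4000000 * s ^ 2 * t ^ 2 + 2863171 / 2000000 * s ^ 3 * t +
      891997 / 4000000 * s ^ 4 =
      (1 + 1 / 100 + (1 / 100) ^ 2 / 2) * (1 + u + 117 / 200 * u ^ 2) -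
      (36788 / 100000 *
      (1 + (u + 1) + (u + 1) ^ 2 / 2 + (u + 1) ^ 3 / 6 + (u + 1) ^ 4 / 24)) := by
    rw [hs, ht]
    ring
  rw [e] at h
  linarith

theorem od_five_d22_c0 (u : ℝ) (h1 : -3 ≤ u) (h2 : u ≤ -2) :
    13534 / 100000 *
      (1 + (u + 2) + (u + 2) ^ 2 / 2 + (u + 2) ^ 3 / 6 + (u + 2) ^ 4 / 24) ≤
      (1 + 1 / 100 + (1 / 100) ^ 2 / 2) * (1 + u + 117 / 200 * u ^ 2) := by
  obtain ⟨s, hs⟩ : ∃ s, s = u - (-3) := ⟨_, rfl⟩
  obtain ⟨t, ht⟩ : ∃ t, t = -2 - u := ⟨_, rfl⟩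
  have hs0 : 0 ≤ s := by linarith
  have ht0 : 0 ≤ t := by linarith
  have h : 0 ≤
      12988243 / 4000000 * t ^ 4 + 2497897 / 240000 * s * t ^ 3 +
      49193569 / 4000000 * s ^ 2 * t ^ 2 + 1272263 / 200000 * s ^ 3 * t +
      1218127 / 1000000 * s ^ 4 := by
    positivity
  have e :
      12988243 / 4000000 * t ^ 4 + 2497897 / 240000 * s * t ^ 3 +
      49193569 / 4000000 * s ^ 2 * t ^ 2 + 1272263 / 200000 * s ^ 3 * t +
      1218127 / 1000000 * s ^ 4 =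
      (1 + 1 / 100 + (1 / 100) ^ 2 / 2) * (1 + u + 117 / 200 * u ^ 2) -
      (13534 / 100000 *
      (1 + (u + 2) + (u + 2) ^ 2 / 2 + (u + 2) ^ 3 / 6 + (u + 2) ^ 4 / 24)) := by
    rw [hs, ht]
    ring
  rw [e] at h
  linarith

theorem od_five_d22_d (u : ℝ) (h2 : u ≤ -3) :
    4979 / 100000 ≤
      (1 + 1 / 100 + (1 / 100) ^ 2 / 2) * (1 + u + 117 / 200 * u ^ 2) := by
  obtain ⟨s, hs⟩ : ∃ s, s = -3 - u := ⟨_, rfl⟩
  have hs0 : 0 ≤ s := by linarith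
  have h : 0 ≤
      12992093 / 4000000 + 5070451 / 2000000 * s + 2363517 / 4000000 * s ^ 2 := by
    positivity
  have e :
      12992093 / 4000000 + 5070451 / 2000000 * s + 2363517 / 4000000 * s ^ 2 =
      (1 + 1 / 100 + (1 / 100) ^ 2 / 2) * (1 + u + 117 / 200 * u ^ 2) -
      (4979 / 100000) := by
    rw [hs]
    ring
  rw [e] at h
  linarith

theorem od_five_d22_e0 (u : ℝ) (h1 : 0 ≤ u) (h2 : u ≤ 1 / 3) :
    1 + u + u ^ 2 / 2 + u ^ 3 / 6 + u ^ 4 / 24 + u ^ 5 / 100 ≤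
      (1 + 1 / 100 + (1 / 100) ^ 2 / 2) * (1 + u + 117 / 200 * u ^ 2) := by
  obtain ⟨s, hs⟩ : ∃ s, s = u - (0) := ⟨_, rfl⟩
  obtain ⟨t, ht⟩ : ∃ t, t = 1 / 3 - u := ⟨_, rfl⟩
  have hs0 : 0 ≤ s := by linarith
  have ht0 : 0 ≤ t := by linarith
  have h : 0 ≤
      48843 / 20000 * t ^ 5 + 16281 / 1250 * s * t ^ 4 +
      120525759 / 4000000 * s ^ 2 * t ^ 3 + 140668077 / 4000000 * s ^ 3 * t ^ 2 +
      78812677 / 4000000 * s ^ 4 * t + 16299759 / 4000000 * s ^ 5 := by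
    positivity
  have e :
      48843 / 20000 * t ^ 5 + 16281 / 1250 * s * t ^ 4 +
      120525759 / 4000000 * s ^ 2 * t ^ 3 + 140668077 / 4000000 * s ^ 3 * t ^ 2 +
      78812677 / 4000000 * s ^ 4 * t + 16299759 / 4000000 * s ^ 5 =
      (1 + 1 / 100 + (1 / 100) ^ 2 / 2) * (1 + u + 117 / 200 * u ^ 2) -
      (1 + u + u ^ 2 / 2 + u ^ 3 / 6 + u ^ 4 / 24 + u ^ 5 / 100) := by
    rw [hs, ht]
    ring
  rw [e] at h
  linarith

theorem od_five_d22_f0 (u : ℝ) (h1 : 1 / 3 ≤ u) (h2 : u ≤ 1) :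
    69781 / 50000 * (1 + (u - 1 / 3) / 5) ^ 5 ≤
      (1 + 1 / 100 + (1 / 100) ^ 2 / 2) * (1 + u + 117 / 200 * u ^ 2) := by
  obtain ⟨s, hs⟩ : ∃ s, s = u - (1 / 3) := ⟨_, rfl⟩
  obtain ⟨t, ht⟩ : ∃ t, t = 1 - u := ⟨_, rfl⟩
  have hs0 : 0 ≤ s := by linarith
  have ht0 : 0 ≤ t := by linarith
  have h : 0 ≤
      16297119 / 128000000 * t ^ 5 + 86896071 / 128000000 * s * t ^ 4 +
      99354897 / 64000000 * s ^ 2 * t ^ 3 + 513922653 / 320000000 * s ^ 3 * t ^ 2 +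
      1974093927 / 3200000000 * s ^ 4 * t + 905233303 / 80000000000 * s ^ 5 := by
    positivity
  have e :
      16297119 / 128000000 * t ^ 5 + 86896071 / 128000000 * s * t ^ 4 +
      99354897 / 64000000 * s ^ 2 * t ^ 3 + 513922653 / 320000000 * s ^ 3 * t ^ 2 +
      1974093927 / 3200000000 * s ^ 4 * t + 905233303 / 80000000000 * s ^ 5 =
      (1 + 1 / 100 + (1 / 100) ^ 2 / 2) * (1 + u + 117 / 200 * u ^ 2) -
      (69781 / 50000 * (1 + (u - 1 / 3) / 5) ^ 5) := by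
    rw [hs, ht]
    ring
  rw [e] at h
  linarith

theorem od_five_d22_g0 (u : ℝ) (h1 : 1 ≤ u) (h2 : u ≤ 3) :
    69781 / 50000 * (1 + (u - 1 / 3) / 5) ^ 5 ≤
      (1 + 1 / 100 + (1 / 100) ^ 2 / 2) * ((1 + (3 / 100 * (u ^ 2 - 1)) +
      (3 / 100 * (u ^ 2 - 1)) ^ 2 / 2 +
      (3 / 100 * (u ^ 2 - 1)) ^ 3 / 6) *
      (1 + u + 117 / 200 * u ^ 2)) := by
  obtain ⟨s, hs⟩ : ∃ s, s = u - (1) := ⟨_, rfl⟩
  obtain ⟨t, ht⟩ : ∃ t, t = 3 - u := ⟨_, rfl⟩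
  have hs0 : 0 ≤ s := by linarith
  have ht0 : 0 ≤ t := by linarith
  have h : 0 ≤
      905233303 / 155520000000000 * t ^ 8 + 63103708769 / 155520000000000 * s * t ^ 7 +
      797636701967 / 311040000000000 * s ^ 2 * t ^ 6 +
      47790074822329 / 7776000000000000 * s ^ 3 * t ^ 5 +
      26338665491449 / 3888000000000000 * s ^ 4 * t ^ 4 +
      25492737554053 / 7776000000000000 * s ^ 5 * t ^ 3 +
      4909593132761 / 7776000000000000 * s ^ 6 * t ^ 2 +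
      1560799996037 / 3888000000000000 * s ^ 7 * t + 1003585261819 / 3888000000000000 * s ^ 8 := by
    positivity
  have e :
      905233303 / 155520000000000 * t ^ 8 + 63103708769 / 155520000000000 * s * t ^ 7 +
      797636701967 / 311040000000000 * s ^ 2 * t ^ 6 +
      47790074822329 / 7776000000000000 * s ^ 3 * t ^ 5 +
      26338665491449 / 3888000000000000 * s ^ 4 * t ^ 4 +
      25492737554053 / 7776000000000000 * s ^ 5 * t ^ 3 +
      4909593132761 / 7776000000000000 * s ^ 6 * t ^ 2 +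
      1560799996037 / 3888000000000000 * s ^ 7 * t + 1003585261819 / 3888000000000000 * s ^ 8 =
      (1 + 1 / 100 + (1 / 100) ^ 2 / 2) * ((1 + (3 / 100 * (u ^ 2 - 1)) +
      (3 / 100 * (u ^ 2 - 1)) ^ 2 / 2 +
      (3 / 100 * (u ^ 2 - 1)) ^ 3 / 6) *
      (1 + u + 117 / 200 * u ^ 2)) -
      (69781 / 50000 * (1 + (u - 1 / 3) / 5) ^ 5) := by
    rw [hs, ht]
    ring
  rw [e] at h
  linarith

theorem od_five_d22_t (u : ℝ) (h1 : 3 ≤ u) :
    69781 / 50000 * (1 + (u - 1 / 3) / 5) ^ 5 ≤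
      (1 + 1 / 100 + (1 / 100) ^ 2 / 2) * ((1 + (3 / 100 * (u ^ 2 - 1)) +
      (3 / 100 * (u ^ 2 - 1)) ^ 2 / 2 +
      (3 / 100 * (u ^ 2 - 1)) ^ 3 / 6) *
      (1 + u + 117 / 200 * u ^ 2)) := by
  obtain ⟨s, hs⟩ : ∃ s, s = u - (3) := ⟨_, rfl⟩
  have hs0 : 0 ≤ s := by linarith
  have h : 0 ≤
      1003585261819 / 15187500000000 + 431192139901 / 2025000000000 * s +
      4362129761123 / 13500000000000 * s ^ 2 + 1881954471581 / 9000000000000 * s ^ 3 +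
      185823932939 / 3000000000000 * s ^ 4 + 38392122737 / 4000000000000 * s ^ 5 +
      8223766497 / 8000000000000 * s ^ 6 + 8545023 / 125000000000 * s ^ 7 +
      21271653 / 8000000000000 * s ^ 8 := by
    positivity
  have e :
      1003585261819 / 15187500000000 + 431192139901 / 2025000000000 * s +
      4362129761123 / 13500000000000 * s ^ 2 + 1881954471581 / 9000000000000 * s ^ 3 +
      185823932939 / 3000000000000 * s ^ 4 + 38392122737 / 4000000000000 * s ^ 5 +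
      8223766497 / 8000000000000 * s ^ 6 + 8545023 / 125000000000 * s ^ 7 +
      21271653 / 8000000000000 * s ^ 8 =
      (1 + 1 / 100 + (1 / 100) ^ 2 / 2) * ((1 + (3 / 100 * (u ^ 2 - 1)) +
      (3 / 100 * (u ^ 2 - 1)) ^ 2 / 2 +
      (3 / 100 * (u ^ 2 - 1)) ^ 3 / 6) *
      (1 + u + 117 / 200 * u ^ 2)) -
      (69781 / 50000 * (1 + (u - 1 / 3) / 5) ^ 5) := by
    rw [hs]
    ring
  rw [e] at h
  linarith

/-- `K = 5`: `(c, μ, P, δ) = (117 / 200, 3 / 100, 1 / 3, 1 / 100)` -/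
theorem expOd_five_d22 : ExpOd 5 (117 / 200) (3 / 100) (1 / 3) (1 / 100) := by
  have hde : (1 + 1 / 100 + (1 / 100) ^ 2 / 2) ≤ Real.exp (1 / 100) := Real.quadratic_le_exp_of_nonneg (by norm_num)
  have hq : ∀ u : ℝ, 0 ≤ 1 + u + 117 / 200 * u ^ 2 := fun u => by
    nlinarith [sq_nonneg (u + 2), sq_nonneg u]
  have hR : ∀ (u x y : ℝ), x ≤ y → y ≤ (1 + 1 / 100 + (1 / 100) ^ 2 / 2) * (1 + u + 117 / 200 * u ^ 2) →
      x ≤ Real.exp (1 / 100) * (1 + u + 117 / 200 * u ^ 2) := fun u x y h1 h2 =>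
    (h1.trans h2).trans (mul_le_mul_of_nonneg_right hde (hq u))
  refine ExpOd.of (by norm_num) (by norm_num) (by norm_num) (by norm_num) (by norm_num) ?_ ?_ ?_
  · intro u h1
    rcases le_total u (-3) with h3 | h3
    · exact hR u _ _ (exp_le_n3 h3) (od_five_d22_d u h3)
    rcases le_total u (-2) with h4 | h4
    · refine hR u _ _ (exp_le_n2 h4) ?_
      exact od_five_d22_c0 u (by linarith) (by linarith)
    rcases le_total u (-1) with h5 | h5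
    · refine hR u _ _ (exp_le_n1 h5) ?_
      exact od_five_d22_b0 u (by linarith) (by linarith)
    rcases le_total u 0 with h6 | h6
    · refine hR u _ _ (exp_le_n0 h6) ?_
      exact od_five_d22_a0 u (by linarith) (by linarith)
    refine hR u _ _ (exp_le_p h6 (by linarith)) ?_
    exact od_five_d22_e0 u (by linarith) (by linarith)
  · intro u h1 h2
    have h4 : 0 ≤ (1 + (u - 1 / 3) / 5) ^ 5 := by
      have : 0 ≤ (u - 1 / 3) / 5 := div_nonneg (by linarith) (by norm_num)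
      positivity
    have hE : Real.exp (1 / 3) ≤ 69781 / 50000 := exp_up_1_3
    push_cast
    refine hR u _ _ (mul_le_mul_of_nonneg_right hE h4) ?_
    exact od_five_d22_f0 u (by linarith) (by linarith)
  · intro u h1
    have h4 : 0 ≤ (1 + (u - 1 / 3) / 5) ^ 5 := by
      have : 0 ≤ (u - 1 / 3) / 5 := div_nonneg (by linarith) (by norm_num)
      positivity
    have hE : Real.exp (1 / 3) ≤ 69781 / 50000 := exp_up_1_3
    have hx : 0 ≤ 3 / 100 * (u ^ 2 - 1) := mul_nonneg (by norm_num) (by nlinarith)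
    have h5 := mul_le_mul_of_nonneg_right (taylor3_le_exp _ hx) (hq u)
    have h6 : 0 ≤ Real.exp (3 / 100 * (u ^ 2 - 1)) * (1 + u + 117 / 200 * u ^ 2) :=
      mul_nonneg (Real.exp_nonneg _) (hq u)
    rw [Real.exp_add, mul_assoc]
    push_cast
    refine ((mul_le_mul_of_nonneg_right hE h4).trans ?_).trans
      ((mul_le_mul_of_nonneg_left h5 (by norm_num : (0 : ℝ) ≤ (1 + 1 / 100 + (1 / 100) ^ 2 / 2))).trans
        (mul_le_mul_of_nonneg_right hde h6))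
    rcases le_total u (3) with hh | hh
    · exact od_five_d22_g0 u (by linarith) (by linarith)
    exact od_five_d22_t u (by linarith)

theorem od_five_d23_a0 (u : ℝ) (h1 : -1 ≤ u) (h2 : u ≤ 0) :
    1 + u + u ^ 2 / 2 + u ^ 3 / 6 + u ^ 4 / 24 ≤
      (1 + 3 / 100 + (3 / 100) ^ 2 / 2) * (1 + u + 267 / 500 * u ^ 2) := by
  obtain ⟨s, hs⟩ : ∃ s, s = u - (-1) := ⟨_, rfl⟩
  obtain ⟨t, ht⟩ : ∃ t, t = 0 - u := ⟨_, rfl⟩
  have hs0 : 0 ≤ s := by linarith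
  have ht0 : 0 ≤ t := by linarith
  have h : 0 ≤
      1752603 / 10000000 * t ^ 4 + 4464559 / 15000000 * s * t ^ 3 +
      1416103 / 10000000 * s ^ 2 * t ^ 2 + 1827 / 20000 * s ^ 3 * t + 609 / 20000 * s ^ 4 := by
    positivity
  have e :
      1752603 / 10000000 * t ^ 4 + 4464559 / 15000000 * s * t ^ 3 +
      1416103 / 10000000 * s ^ 2 * t ^ 2 + 1827 / 20000 * s ^ 3 * t + 609 / 20000 * s ^ 4 =
      (1 + 3 / 100 + (3 / 100) ^ 2 / 2) * (1 + u + 267 / 500 * u ^ 2) -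
      (1 + u + u ^ 2 / 2 + u ^ 3 / 6 + u ^ 4 / 24) := by
    rw [hs, ht]
    ring
  rw [e] at h
  linarith

theorem od_five_d23_b0 (u : ℝ) (h1 : -2 ≤ u) (h2 : u ≤ -1) :
    36788 / 100000 *
      (1 + (u + 1) + (u + 1) ^ 2 / 2 + (u + 1) ^ 3 / 6 + (u + 1) ^ 4 / 24) ≤
      (1 + 3 / 100 + (3 / 100) ^ 2 / 2) * (1 + u + 267 / 500 * u ^ 2) := by
  obtain ⟨s, hs⟩ : ∃ s, s = u - (-2) := ⟨_, rfl⟩
  obtain ⟨t, ht⟩ : ∃ t, t = -1 - u := ⟨_, rfl⟩
  have hs0 : 0 ≤ s := by linarith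
  have ht0 : 0 ≤ t := by linarith
  have h : 0 ≤
      5163181 / 5000000 * t ^ 4 + 1329997 / 468750 * s * t ^ 3 +
      27744539 / 10000000 * s ^ 2 * t ^ 2 + 5837359 / 5000000 * s ^ 3 * t +
      1823803 / 10000000 * s ^ 4 := by
    positivity
  have e :
      5163181 / 5000000 * t ^ 4 + 1329997 / 468750 * s * t ^ 3 +
      27744539 / 10000000 * s ^ 2 * t ^ 2 + 5837359 / 5000000 * s ^ 3 * t +
      1823803 / 10000000 * s ^ 4 =
      (1 + 3 / 100 + (3 / 100) ^ 2 / 2) * (1 + u + 267 / 500 * u ^ 2) -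
      (36788 / 100000 *
      (1 + (u + 1) + (u + 1) ^ 2 / 2 + (u + 1) ^ 3 / 6 + (u + 1) ^ 4 / 24)) := by
    rw [hs, ht]
    ring
  rw [e] at h
  linarith

theorem od_five_d23_c0 (u : ℝ) (h1 : -3 ≤ u) (h2 : u ≤ -2) :
    13534 / 100000 *
      (1 + (u + 2) + (u + 2) ^ 2 / 2 + (u + 2) ^ 3 / 6 + (u + 2) ^ 4 / 24) ≤
      (1 + 3 / 100 + (3 / 100) ^ 2 / 2) * (1 + u + 267 / 500 * u ^ 2) := by
  obtain ⟨s, hs⟩ : ∃ s, s = u - (-3) := ⟨_, rfl⟩
  obtain ⟨t, ht⟩ : ∃ t, t = -2 - u := ⟨_, rfl⟩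
  have hs0 : 0 ≤ s := by linarith
  have ht0 : 0 ≤ t := by linarith
  have h : 0 ≤
      14203451 / 5000000 * t ^ 4 + 27139607 / 3000000 * s * t ^ 3 +
      106118911 / 10000000 * s ^ 2 * t ^ 2 + 680867 / 125000 * s ^ 3 * t +
      80879 / 78125 * s ^ 4 := by
    positivity
  have e :
      14203451 / 5000000 * t ^ 4 + 27139607 / 3000000 * s * t ^ 3 +
      106118911 / 10000000 * s ^ 2 * t ^ 2 + 680867 / 125000 * s ^ 3 * t +
      80879 / 78125 * s ^ 4 =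
      (1 + 3 / 100 + (3 / 100) ^ 2 / 2) * (1 + u + 267 / 500 * u ^ 2) -
      (13534 / 100000 *
      (1 + (u + 2) + (u + 2) ^ 2 / 2 + (u + 2) ^ 3 / 6 + (u + 2) ^ 4 / 24)) := by
    rw [hs, ht]
    ring
  rw [e] at h
  linarith

theorem od_five_d23_d (u : ℝ) (h2 : u ≤ -3) :
    4979 / 100000 ≤
      (1 + 3 / 100 + (3 / 100) ^ 2 / 2) * (1 + u + 267 / 500 * u ^ 2) := by
  obtain ⟨s, hs⟩ : ∃ s, s = -3 - u := ⟨_, rfl⟩
  have hs0 : 0 ≤ s := by linarith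
  have h : 0 ≤
      28416527 / 10000000 + 11355559 / 5000000 * s + 5502603 / 10000000 * s ^ 2 := by
    positivity
  have e :
      28416527 / 10000000 + 11355559 / 5000000 * s + 5502603 / 10000000 * s ^ 2 =
      (1 + 3 / 100 + (3 / 100) ^ 2 / 2) * (1 + u + 267 / 500 * u ^ 2) -
      (4979 / 100000) := by
    rw [hs]
    ring
  rw [e] at h
  linarith

theorem od_five_d23_e0 (u : ℝ) (h1 : 0 ≤ u) (h2 : u ≤ 1 / 3) :
    1 + u + u ^ 2 / 2 + u ^ 3 / 6 + u ^ 4 / 24 + u ^ 5 / 100 ≤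
      (1 + 3 / 100 + (3 / 100) ^ 2 / 2) * (1 + u + 267 / 500 * u ^ 2) := by
  obtain ⟨s, hs⟩ : ∃ s, s = u - (0) := ⟨_, rfl⟩
  obtain ⟨t, ht⟩ : ∃ t, t = 1 / 3 - u := ⟨_, rfl⟩
  have hs0 : 0 ≤ s := by linarith
  have ht0 : 0 ≤ t := by linarith
  have h : 0 ≤
      147987 / 20000 * t ^ 5 + 49329 / 1250 * s * t ^ 4 +
      852163281 / 10000000 * s ^ 2 * t ^ 3 + 913632843 / 10000000 * s ^ 3 * t ^ 2 +
      478086343 / 10000000 * s ^ 4 * t + 95878281 / 10000000 * s ^ 5 := by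
    positivity
  have e :
      147987 / 20000 * t ^ 5 + 49329 / 1250 * s * t ^ 4 +
      852163281 / 10000000 * s ^ 2 * t ^ 3 + 913632843 / 10000000 * s ^ 3 * t ^ 2 +
      478086343 / 10000000 * s ^ 4 * t + 95878281 / 10000000 * s ^ 5 =
      (1 + 3 / 100 + (3 / 100) ^ 2 / 2) * (1 + u + 267 / 500 * u ^ 2) -
      (1 + u + u ^ 2 / 2 + u ^ 3 / 6 + u ^ 4 / 24 + u ^ 5 / 100) := by
    rw [hs, ht]
    ring
  rw [e] at h
  linarith

theorem od_five_d23_f0 (u : ℝ) (h1 : 1 / 3 ≤ u) (h2 : u ≤ 1) :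
    69781 / 50000 * (1 + (u - 1 / 3) / 5) ^ 5 ≤
      (1 + 3 / 100 + (3 / 100) ^ 2 / 2) * (1 + u + 267 / 500 * u ^ 2) := by
  obtain ⟨s, hs⟩ : ∃ s, s = u - (1 / 3) := ⟨_, rfl⟩
  obtain ⟨t, ht⟩ : ∃ t, t = 1 - u := ⟨_, rfl⟩
  have hs0 : 0 ≤ s := by linarith
  have ht0 : 0 ≤ t := by linarith
  have h : 0 ≤
      95871681 / 320000000 * t ^ 5 + 482064129 / 320000000 * s * t ^ 4 +
      96091299 / 32000000 * s ^ 2 * t ^ 3 + 434341647 / 160000000 * s ^ 3 * t ^ 2 +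
      1490832741 / 1600000000 * s ^ 4 * t + 507610589 / 40000000000 * s ^ 5 := by
    positivity
  have e :
      95871681 / 320000000 * t ^ 5 + 482064129 / 320000000 * s * t ^ 4 +
      96091299 / 32000000 * s ^ 2 * t ^ 3 + 434341647 / 160000000 * s ^ 3 * t ^ 2 +
      1490832741 / 1600000000 * s ^ 4 * t + 507610589 / 40000000000 * s ^ 5 =
      (1 + 3 / 100 + (3 / 100) ^ 2 / 2) * (1 + u + 267 / 500 * u ^ 2) -
      (69781 / 50000 * (1 + (u - 1 / 3) / 5) ^ 5) := by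
    rw [hs, ht]
    ring
  rw [e] at h
  linarith

theorem od_five_d23_g0 (u : ℝ) (h1 : 1 ≤ u) (h2 : u ≤ 2) :
    69781 / 50000 * (1 + (u - 1 / 3) / 5) ^ 5 ≤
      (1 + 3 / 100 + (3 / 100) ^ 2 / 2) * ((1 + (1 / 25 * (u ^ 2 - 1)) +
      (1 / 25 * (u ^ 2 - 1)) ^ 2 / 2 +
      (1 / 25 * (u ^ 2 - 1)) ^ 3 / 6) *
      (1 + u + 267 / 500 * u ^ 2)) := by
  obtain ⟨s, hs⟩ : ∃ s, s = u - (1) := ⟨_, rfl⟩
  obtain ⟨t, ht⟩ : ∃ t, t = 2 - u := ⟨_, rfl⟩
  have hs0 : 0 ≤ s := by linarith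
  have ht0 : 0 ≤ t := by linarith
  have h : 0 ≤
      507610589 / 303750000000 * t ^ 8 + 963308227 / 18984375000 * s * t ^ 7 +
      125030879917 / 379687500000 * s ^ 2 * t ^ 6 +
      19080150716461 / 18984375000000 * s ^ 3 * t ^ 5 +
      134050228606499 / 75937500000000 * s ^ 4 * t ^ 4 +
      3640700675311 / 1898437500000 * s ^ 5 * t ^ 3 +
      49055981825533 / 37968750000000 * s ^ 6 * t ^ 2 +
      1188181044851 / 2373046875000 * s ^ 7 * t + 408051940259 / 4746093750000 * s ^ 8 := by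
    positivity
  have e :
      507610589 / 303750000000 * t ^ 8 + 963308227 / 18984375000 * s * t ^ 7 +
      125030879917 / 379687500000 * s ^ 2 * t ^ 6 +
      19080150716461 / 18984375000000 * s ^ 3 * t ^ 5 +
      134050228606499 / 75937500000000 * s ^ 4 * t ^ 4 +
      3640700675311 / 1898437500000 * s ^ 5 * t ^ 3 +
      49055981825533 / 37968750000000 * s ^ 6 * t ^ 2 +
      1188181044851 / 2373046875000 * s ^ 7 * t + 408051940259 / 4746093750000 * s ^ 8 =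
      (1 + 3 / 100 + (3 / 100) ^ 2 / 2) * ((1 + (1 / 25 * (u ^ 2 - 1)) +
      (1 / 25 * (u ^ 2 - 1)) ^ 2 / 2 +
      (1 / 25 * (u ^ 2 - 1)) ^ 3 / 6) *
      (1 + u + 267 / 500 * u ^ 2)) -
      (69781 / 50000 * (1 + (u - 1 / 3) / 5) ^ 5) := by
    rw [hs, ht]
    ring
  rw [e] at h
  linarith

theorem od_five_d23_t (u : ℝ) (h1 : 2 ≤ u) :
    69781 / 50000 * (1 + (u - 1 / 3) / 5) ^ 5 ≤
      (1 + 3 / 100 + (3 / 100) ^ 2 / 2) * ((1 + (1 / 25 * (u ^ 2 - 1)) +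
      (1 / 25 * (u ^ 2 - 1)) ^ 2 / 2 +
      (1 / 25 * (u ^ 2 - 1)) ^ 3 / 6) *
      (1 + u + 267 / 500 * u ^ 2)) := by
  obtain ⟨s, hs⟩ : ∃ s, s = u - (2) := ⟨_, rfl⟩
  have hs0 : 0 ≤ s := by linarith
  have h : 0 ≤
      408051940259 / 4746093750000 + 29601781079 / 158203125000 * s +
      820371046693 / 4218750000000 * s ^ 2 + 94450289131 / 703125000000 * s ^ 3 +
      47468532929 / 937500000000 * s ^ 4 + 177747607 / 19531250000 * s ^ 5 +
      97253871 / 78125000000 * s ^ 6 + 24586537 / 234375000000 * s ^ 7 +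
      1834201 / 312500000000 * s ^ 8 := by
    positivity
  have e :
      408051940259 / 4746093750000 + 29601781079 / 158203125000 * s +
      820371046693 / 4218750000000 * s ^ 2 + 94450289131 / 703125000000 * s ^ 3 +
      47468532929 / 937500000000 * s ^ 4 + 177747607 / 19531250000 * s ^ 5 +
      97253871 / 78125000000 * s ^ 6 + 24586537 / 234375000000 * s ^ 7 +
      1834201 / 312500000000 * s ^ 8 =
      (1 + 3 / 100 + (3 / 100) ^ 2 / 2) * ((1 + (1 / 25 * (u ^ 2 - 1)) +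
      (1 / 25 * (u ^ 2 - 1)) ^ 2 / 2 +
      (1 / 25 * (u ^ 2 - 1)) ^ 3 / 6) *
      (1 + u + 267 / 500 * u ^ 2)) -
      (69781 / 50000 * (1 + (u - 1 / 3) / 5) ^ 5) := by
    rw [hs]
    ring
  rw [e] at h
  linarith

/-- `K = 5`: `(c, μ, P, δ) = (267 / 500, 1 / 25, 1 / 3, 3 / 100)` -/
theorem expOd_five_d23 : ExpOd 5 (267 / 500) (1 / 25) (1 / 3) (3 / 100) := by
  have hde : (1 + 3 / 100 + (3 / 100) ^ 2 / 2) ≤ Real.exp (3 / 100) := Real.quadratic_le_exp_of_nonneg (by norm_num)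
  have hq : ∀ u : ℝ, 0 ≤ 1 + u + 267 / 500 * u ^ 2 := fun u => by
    nlinarith [sq_nonneg (u + 2), sq_nonneg u]
  have hR : ∀ (u x y : ℝ), x ≤ y → y ≤ (1 + 3 / 100 + (3 / 100) ^ 2 / 2) * (1 + u + 267 / 500 * u ^ 2) →
      x ≤ Real.exp (3 / 100) * (1 + u + 267 / 500 * u ^ 2) := fun u x y h1 h2 =>
    (h1.trans h2).trans (mul_le_mul_of_nonneg_right hde (hq u))
  refine ExpOd.of (by norm_num) (by norm_num) (by norm_num) (by norm_num) (by norm_num) ?_ ?_ ?_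
  · intro u h1
    rcases le_total u (-3) with h3 | h3
    · exact hR u _ _ (exp_le_n3 h3) (od_five_d23_d u h3)
    rcases le_total u (-2) with h4 | h4
    · refine hR u _ _ (exp_le_n2 h4) ?_
      exact od_five_d23_c0 u (by linarith) (by linarith)
    rcases le_total u (-1) with h5 | h5
    · refine hR u _ _ (exp_le_n1 h5) ?_
      exact od_five_d23_b0 u (by linarith) (by linarith)
    rcases le_total u 0 with h6 | h6
    · refine hR u _ _ (exp_le_n0 h6) ?_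
      exact od_five_d23_a0 u (by linarith) (by linarith)
    refine hR u _ _ (exp_le_p h6 (by linarith)) ?_
    exact od_five_d23_e0 u (by linarith) (by linarith)
  · intro u h1 h2
    have h4 : 0 ≤ (1 + (u - 1 / 3) / 5) ^ 5 := by
      have : 0 ≤ (u - 1 / 3) / 5 := div_nonneg (by linarith) (by norm_num)
      positivity
    have hE : Real.exp (1 / 3) ≤ 69781 / 50000 := exp_up_1_3
    push_cast
    refine hR u _ _ (mul_le_mul_of_nonneg_right hE h4) ?_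
    exact od_five_d23_f0 u (by linarith) (by linarith)
  · intro u h1
    have h4 : 0 ≤ (1 + (u - 1 / 3) / 5) ^ 5 := by
      have : 0 ≤ (u - 1 / 3) / 5 := div_nonneg (by linarith) (by norm_num)
      positivity
    have hE : Real.exp (1 / 3) ≤ 69781 / 50000 := exp_up_1_3
    have hx : 0 ≤ 1 / 25 * (u ^ 2 - 1) := mul_nonneg (by norm_num) (by nlinarith)
    have h5 := mul_le_mul_of_nonneg_right (taylor3_le_exp _ hx) (hq u)
    have h6 : 0 ≤ Real.exp (1 / 25 * (u ^ 2 - 1)) * (1 + u + 267 / 500 * u ^ 2) :=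
      mul_nonneg (Real.exp_nonneg _) (hq u)
    rw [Real.exp_add, mul_assoc]
    push_cast
    refine ((mul_le_mul_of_nonneg_right hE h4).trans ?_).trans
      ((mul_le_mul_of_nonneg_left h5 (by norm_num : (0 : ℝ) ≤ (1 + 3 / 100 + (3 / 100) ^ 2 / 2))).trans
        (mul_le_mul_of_nonneg_right hde h6))
    rcases le_total u (2) with hh | hh
    · exact od_five_d23_g0 u (by linarith) (by linarith)
    exact od_five_d23_t u (by linarith)

theorem od_five_d24_a0 (u : ℝ) (h1 : -1 ≤ u) (h2 : u ≤ 0) :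
    1 + u + u ^ 2 / 2 + u ^ 3 / 6 + u ^ 4 / 24 ≤
      (1 + 1 / 10 + (1 / 10) ^ 2 / 2) * (1 + u + 217 / 500 * u ^ 2) := by
  obtain ⟨s, hs⟩ : ∃ s, s = u - (-1) := ⟨_, rfl⟩
  obtain ⟨t, ht⟩ : ∃ t, t = 0 - u := ⟨_, rfl⟩
  have hs0 : 0 ≤ s := by linarith
  have ht0 : 0 ≤ t := by linarith
  have h : 0 ≤
      10457 / 100000 * t ^ 4 + 34621 / 150000 * s * t ^ 3 + 29457 / 100000 * s ^ 2 * t ^ 2 +
      63 / 200 * s ^ 3 * t + 21 / 200 * s ^ 4 := by
    positivity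
  have e :
      10457 / 100000 * t ^ 4 + 34621 / 150000 * s * t ^ 3 + 29457 / 100000 * s ^ 2 * t ^ 2 +
      63 / 200 * s ^ 3 * t + 21 / 200 * s ^ 4 =
      (1 + 1 / 10 + (1 / 10) ^ 2 / 2) * (1 + u + 217 / 500 * u ^ 2) -
      (1 + u + u ^ 2 / 2 + u ^ 3 / 6 + u ^ 4 / 24) := by
    rw [hs, ht]
    ring
  rw [e] at h
  linarith

theorem od_five_d24_b0 (u : ℝ) (h1 : -2 ≤ u) (h2 : u ≤ -1) :
    36788 / 100000 *
      (1 + (u + 1) + (u + 1) ^ 2 / 2 + (u + 1) ^ 3 / 6 + (u + 1) ^ 4 / 24) ≤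
      (1 + 1 / 10 + (1 / 10) ^ 2 / 2) * (1 + u + 217 / 500 * u ^ 2) := by
  obtain ⟨s, hs⟩ : ∃ s, s = u - (-2) := ⟨_, rfl⟩
  obtain ⟨t, ht⟩ : ∃ t, t = -1 - u := ⟨_, rfl⟩
  have hs0 : 0 ≤ s := by linarith
  have ht0 : 0 ≤ t := by linarith
  have h : 0 ≤
      27013 / 40000 * t ^ 4 + 264809 / 150000 * s * t ^ 3 + 163183 / 100000 * s ^ 2 * t ^ 2 +
      33439 / 50000 * s ^ 3 * t + 11169 / 100000 * s ^ 4 := by
    positivity
  have e :
      27013 / 40000 * t ^ 4 + 264809 / 150000 * s * t ^ 3 + 163183 / 100000 * s ^ 2 * t ^ 2 +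
      33439 / 50000 * s ^ 3 * t + 11169 / 100000 * s ^ 4 =
      (1 + 1 / 10 + (1 / 10) ^ 2 / 2) * (1 + u + 217 / 500 * u ^ 2) -
      (36788 / 100000 *
      (1 + (u + 1) + (u + 1) ^ 2 / 2 + (u + 1) ^ 3 / 6 + (u + 1) ^ 4 / 24)) := by
    rw [hs, ht]
    ring
  rw [e] at h
  linarith

theorem od_five_d24_c0 (u : ℝ) (h1 : -3 ≤ u) (h2 : u ≤ -2) :
    13534 / 100000 *
      (1 + (u + 2) + (u + 2) ^ 2 / 2 + (u + 2) ^ 3 / 6 + (u + 2) ^ 4 / 24) ≤
      (1 + 1 / 10 + (1 / 10) ^ 2 / 2) * (1 + u + 217 / 500 * u ^ 2) := by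
  obtain ⟨s, hs⟩ : ∃ s, s = u - (-3) := ⟨_, rfl⟩
  obtain ⟨t, ht⟩ : ∃ t, t = -2 - u := ⟨_, rfl⟩
  have hs0 : 0 ≤ s := by linarith
  have ht0 : 0 ≤ t := by linarith
  have h : 0 ≤
      822151 / 400000 * t ^ 4 + 1921193 / 300000 * s * t ^ 3 + 36627 / 5000 * s ^ 2 * t ^ 2 +
      183019 / 50000 * s ^ 3 * t + 33897 / 50000 * s ^ 4 := by
    positivity
  have e :
      822151 / 400000 * t ^ 4 + 1921193 / 300000 * s * t ^ 3 + 36627 / 5000 * s ^ 2 * t ^ 2 +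
      183019 / 50000 * s ^ 3 * t + 33897 / 50000 * s ^ 4 =
      (1 + 1 / 10 + (1 / 10) ^ 2 / 2) * (1 + u + 217 / 500 * u ^ 2) -
      (13534 / 100000 *
      (1 + (u + 2) + (u + 2) ^ 2 / 2 + (u + 2) ^ 3 / 6 + (u + 2) ^ 4 / 24)) := by
    rw [hs, ht]
    ring
  rw [e] at h
  linarith

theorem od_five_d24_d (u : ℝ) (h2 : u ≤ -3) :
    4979 / 100000 ≤
      (1 + 1 / 10 + (1 / 10) ^ 2 / 2) * (1 + u + 217 / 500 * u ^ 2) := by
  obtain ⟨s, hs⟩ : ∃ s, s = -3 - u := ⟨_, rfl⟩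
  have hs0 : 0 ≤ s := by linarith
  have h : 0 ≤
      102817 / 50000 + 88621 / 50000 * s + 47957 / 100000 * s ^ 2 := by
    positivity
  have e :
      102817 / 50000 + 88621 / 50000 * s + 47957 / 100000 * s ^ 2 =
      (1 + 1 / 10 + (1 / 10) ^ 2 / 2) * (1 + u + 217 / 500 * u ^ 2) -
      (4979 / 100000) := by
    rw [hs]
    ring
  rw [e] at h
  linarith

theorem od_five_d24_e0 (u : ℝ) (h1 : 0 ≤ u) (h2 : u ≤ 1 / 3) :
    1 + u + u ^ 2 / 2 + u ^ 3 / 6 + u ^ 4 / 24 + u ^ 5 / 100 ≤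
      (1 + 1 / 10 + (1 / 10) ^ 2 / 2) * (1 + u + 217 / 500 * u ^ 2) := by
  obtain ⟨s, hs⟩ : ∃ s, s = u - (0) := ⟨_, rfl⟩
  obtain ⟨t, ht⟩ : ∃ t, t = 1 / 3 - u := ⟨_, rfl⟩
  have hs0 : 0 ≤ s := by linarith
  have ht0 : 0 ≤ t := by linarith
  have h : 0 ≤
      5103 / 200 * t ^ 5 + 3402 / 25 * s * t ^ 4 + 28861839 / 100000 * s ^ 2 * t ^ 3 +
      30302517 / 100000 * s ^ 3 * t ^ 2 + 15681517 / 100000 * s ^ 4 * t +
      3183339 / 100000 * s ^ 5 := by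
    positivity
  have e :
      5103 / 200 * t ^ 5 + 3402 / 25 * s * t ^ 4 + 28861839 / 100000 * s ^ 2 * t ^ 3 +
      30302517 / 100000 * s ^ 3 * t ^ 2 + 15681517 / 100000 * s ^ 4 * t +
      3183339 / 100000 * s ^ 5 =
      (1 + 1 / 10 + (1 / 10) ^ 2 / 2) * (1 + u + 217 / 500 * u ^ 2) -
      (1 + u + u ^ 2 / 2 + u ^ 3 / 6 + u ^ 4 / 24 + u ^ 5 / 100) := by
    rw [hs, ht]
    ring
  rw [e] at h
  linarith

theorem od_five_d24_f0 (u : ℝ) (h1 : 1 / 3 ≤ u) (h2 : u ≤ 1) :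
    69781 / 50000 * (1 + (u - 1 / 3) / 5) ^ 5 ≤
      (1 + 1 / 10 + (1 / 10) ^ 2 / 2) * (1 + u + 217 / 500 * u ^ 2) := by
  obtain ⟨s, hs⟩ : ∃ s, s = u - (1 / 3) := ⟨_, rfl⟩
  obtain ⟨t, ht⟩ : ∃ t, t = 1 - u := ⟨_, rfl⟩
  have hs0 : 0 ≤ s := by linarith
  have ht0 : 0 ≤ t := by linarith
  have h : 0 ≤
      3183273 / 3200000 * t ^ 5 + 16387677 / 3200000 * s * t ^ 4 +
      82170639 / 8000000 * s ^ 2 * t ^ 3 + 391344471 / 40000000 * s ^ 3 * t ^ 2 +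
      1698887469 / 400000000 * s ^ 4 * t + 6081139241 / 10000000000 * s ^ 5 := by
    positivity
  have e :
      3183273 / 3200000 * t ^ 5 + 16387677 / 3200000 * s * t ^ 4 +
      82170639 / 8000000 * s ^ 2 * t ^ 3 + 391344471 / 40000000 * s ^ 3 * t ^ 2 +
      1698887469 / 400000000 * s ^ 4 * t + 6081139241 / 10000000000 * s ^ 5 =
      (1 + 1 / 10 + (1 / 10) ^ 2 / 2) * (1 + u + 217 / 500 * u ^ 2) -
      (69781 / 50000 * (1 + (u - 1 / 3) / 5) ^ 5) := by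
    rw [hs, ht]
    ring
  rw [e] at h
  linarith

theorem od_five_d24_g0 (u : ℝ) (h1 : 1 ≤ u) (h2 : u ≤ 2) :
    69781 / 50000 * (1 + (u - 1 / 3) / 5) ^ 5 ≤
      (1 + 1 / 10 + (1 / 10) ^ 2 / 2) * ((1 + (1 / 25 * (u ^ 2 - 1)) +
      (1 / 25 * (u ^ 2 - 1)) ^ 2 / 2 +
      (1 / 25 * (u ^ 2 - 1)) ^ 3 / 6) *
      (1 + u + 217 / 500 * u ^ 2)) := by
  obtain ⟨s, hs⟩ : ∃ s, s = u - (1) := ⟨_, rfl⟩
  obtain ⟨t, ht⟩ : ∃ t, t = 2 - u := ⟨_, rfl⟩
  have hs0 : 0 ≤ s := by linarith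
  have ht0 : 0 ≤ t := by linarith
  have h : 0 ≤
      6081139241 / 75937500000 * t ^ 8 + 23444257949 / 37968750000 * s * t ^ 7 +
      77008857379 / 37968750000 * s ^ 2 * t ^ 6 +
      349321277837 / 94921875000 * s ^ 3 * t ^ 5 +
      3037545401981 / 759375000000 * s ^ 4 * t ^ 4 +
      6265382348 / 2373046875 * s ^ 5 * t ^ 3 + 388434531127 / 379687500000 * s ^ 6 * t ^ 2 +
      10106218963 / 47460937500 * s ^ 7 * t + 229345574 / 11865234375 * s ^ 8 := by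
    positivity
  have e :
      6081139241 / 75937500000 * t ^ 8 + 23444257949 / 37968750000 * s * t ^ 7 +
      77008857379 / 37968750000 * s ^ 2 * t ^ 6 +
      349321277837 / 94921875000 * s ^ 3 * t ^ 5 +
      3037545401981 / 759375000000 * s ^ 4 * t ^ 4 +
      6265382348 / 2373046875 * s ^ 5 * t ^ 3 + 388434531127 / 379687500000 * s ^ 6 * t ^ 2 +
      10106218963 / 47460937500 * s ^ 7 * t + 229345574 / 11865234375 * s ^ 8 =
      (1 + 1 / 10 + (1 / 10) ^ 2 / 2) * ((1 + (1 / 25 * (u ^ 2 - 1)) +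
      (1 / 25 * (u ^ 2 - 1)) ^ 2 / 2 +
      (1 / 25 * (u ^ 2 - 1)) ^ 3 / 6) *
      (1 + u + 217 / 500 * u ^ 2)) -
      (69781 / 50000 * (1 + (u - 1 / 3) / 5) ^ 5) := by
    rw [hs, ht]
    ring
  rw [e] at h
  linarith

theorem od_five_d24_g1 (u : ℝ) (h1 : 2 ≤ u) (h2 : u ≤ 3) :
    69781 / 50000 * (1 + (u - 1 / 3) / 5) ^ 5 ≤
      (1 + 1 / 10 + (1 / 10) ^ 2 / 2) * ((1 + (1 / 25 * (u ^ 2 - 1)) +
      (1 / 25 * (u ^ 2 - 1)) ^ 2 / 2 +
      (1 / 25 * (u ^ 2 - 1)) ^ 3 / 6) *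
      (1 + u + 217 / 500 * u ^ 2)) := by
  obtain ⟨s, hs⟩ : ∃ s, s = u - (2) := ⟨_, rfl⟩
  obtain ⟨t, ht⟩ : ∃ t, t = 3 - u := ⟨_, rfl⟩
  have hs0 : 0 ≤ s := by linarith
  have ht0 : 0 ≤ t := by linarith
  have h : 0 ≤
      229345574 / 11865234375 * t ^ 8 + 4571897773 / 47460937500 * s * t ^ 7 +
      78512544487 / 379687500000 * s ^ 2 * t ^ 6 +
      38818050893 / 94921875000 * s ^ 3 * t ^ 5 +
      764095413701 / 759375000000 * s ^ 4 * t ^ 4 +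
      21240815341 / 11865234375 * s ^ 5 * t ^ 3 +
      342437797961 / 189843750000 * s ^ 6 * t ^ 2 + 178129869307 / 189843750000 * s ^ 7 * t +
      75040251913 / 379687500000 * s ^ 8 := by
    positivity
  have e :
      229345574 / 11865234375 * t ^ 8 + 4571897773 / 47460937500 * s * t ^ 7 +
      78512544487 / 379687500000 * s ^ 2 * t ^ 6 +
      38818050893 / 94921875000 * s ^ 3 * t ^ 5 +
      764095413701 / 759375000000 * s ^ 4 * t ^ 4 +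
      21240815341 / 11865234375 * s ^ 5 * t ^ 3 +
      342437797961 / 189843750000 * s ^ 6 * t ^ 2 + 178129869307 / 189843750000 * s ^ 7 * t +
      75040251913 / 379687500000 * s ^ 8 =
      (1 + 1 / 10 + (1 / 10) ^ 2 / 2) * ((1 + (1 / 25 * (u ^ 2 - 1)) +
      (1 / 25 * (u ^ 2 - 1)) ^ 2 / 2 +
      (1 / 25 * (u ^ 2 - 1)) ^ 3 / 6) *
      (1 + u + 217 / 500 * u ^ 2)) -
      (69781 / 50000 * (1 + (u - 1 / 3) / 5) ^ 5) := by
    rw [hs, ht]
    ring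
  rw [e] at h
  linarith

theorem od_five_d24_t (u : ℝ) (h1 : 3 ≤ u) :
    69781 / 50000 * (1 + (u - 1 / 3) / 5) ^ 5 ≤
      (1 + 1 / 10 + (1 / 10) ^ 2 / 2) * ((1 + (1 / 25 * (u ^ 2 - 1)) +
      (1 / 25 * (u ^ 2 - 1)) ^ 2 / 2 +
      (1 / 25 * (u ^ 2 - 1)) ^ 3 / 6) *
      (1 + u + 217 / 500 * u ^ 2)) := by
  obtain ⟨s, hs⟩ : ∃ s, s = u - (3) := ⟨_, rfl⟩
  have hs0 : 0 ≤ s := by linarith
  have h : 0 ≤
      75040251913 / 379687500000 + 8135409223 / 12656250000 * s +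
      8116235533 / 10546875000 * s ^ 2 + 2784205201 / 7031250000 * s ^ 3 +
      996987001 / 9375000000 * s ^ 4 + 6721079 / 390625000 * s ^ 5 +
      4492267 / 2343750000 * s ^ 6 + 315367 / 2343750000 * s ^ 7 + 47957 / 9375000000 * s ^ 8 := by
    positivity
  have e :
      75040251913 / 379687500000 + 8135409223 / 12656250000 * s +
      8116235533 / 10546875000 * s ^ 2 + 2784205201 / 7031250000 * s ^ 3 +
      996987001 / 9375000000 * s ^ 4 + 6721079 / 390625000 * s ^ 5 +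
      4492267 / 2343750000 * s ^ 6 + 315367 / 2343750000 * s ^ 7 + 47957 / 9375000000 * s ^ 8 =
      (1 + 1 / 10 + (1 / 10) ^ 2 / 2) * ((1 + (1 / 25 * (u ^ 2 - 1)) +
      (1 / 25 * (u ^ 2 - 1)) ^ 2 / 2 +
      (1 / 25 * (u ^ 2 - 1)) ^ 3 / 6) *
      (1 + u + 217 / 500 * u ^ 2)) -
      (69781 / 50000 * (1 + (u - 1 / 3) / 5) ^ 5) := by
    rw [hs]
    ring
  rw [e] at h
  linarith

/-- `K = 5`: `(c, μ, P, δ) = (217 / 500, 1 / 25, 1 / 3, 1 / 10)` -/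
theorem expOd_five_d24 : ExpOd 5 (217 / 500) (1 / 25) (1 / 3) (1 / 10) := by
  have hde : (1 + 1 / 10 + (1 / 10) ^ 2 / 2) ≤ Real.exp (1 / 10) := Real.quadratic_le_exp_of_nonneg (by norm_num)
  have hq : ∀ u : ℝ, 0 ≤ 1 + u + 217 / 500 * u ^ 2 := fun u => by
    nlinarith [sq_nonneg (u + 2), sq_nonneg u]
  have hR : ∀ (u x y : ℝ), x ≤ y → y ≤ (1 + 1 / 10 + (1 / 10) ^ 2 / 2) * (1 + u + 217 / 500 * u ^ 2) →
      x ≤ Real.exp (1 / 10) * (1 + u + 217 / 500 * u ^ 2) := fun u x y h1 h2 =>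
    (h1.trans h2).trans (mul_le_mul_of_nonneg_right hde (hq u))
  refine ExpOd.of (by norm_num) (by norm_num) (by norm_num) (by norm_num) (by norm_num) ?_ ?_ ?_
  · intro u h1
    rcases le_total u (-3) with h3 | h3
    · exact hR u _ _ (exp_le_n3 h3) (od_five_d24_d u h3)
    rcases le_total u (-2) with h4 | h4
    · refine hR u _ _ (exp_le_n2 h4) ?_
      exact od_five_d24_c0 u (by linarith) (by linarith)
    rcases le_total u (-1) with h5 | h5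
    · refine hR u _ _ (exp_le_n1 h5) ?_
      exact od_five_d24_b0 u (by linarith) (by linarith)
    rcases le_total u 0 with h6 | h6
    · refine hR u _ _ (exp_le_n0 h6) ?_
      exact od_five_d24_a0 u (by linarith) (by linarith)
    refine hR u _ _ (exp_le_p h6 (by linarith)) ?_
    exact od_five_d24_e0 u (by linarith) (by linarith)
  · intro u h1 h2
    have h4 : 0 ≤ (1 + (u - 1 / 3) / 5) ^ 5 := by
      have : 0 ≤ (u - 1 / 3) / 5 := div_nonneg (by linarith) (by norm_num)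
      positivity
    have hE : Real.exp (1 / 3) ≤ 69781 / 50000 := exp_up_1_3
    push_cast
    refine hR u _ _ (mul_le_mul_of_nonneg_right hE h4) ?_
    exact od_five_d24_f0 u (by linarith) (by linarith)
  · intro u h1
    have h4 : 0 ≤ (1 + (u - 1 / 3) / 5) ^ 5 := by
      have : 0 ≤ (u - 1 / 3) / 5 := div_nonneg (by linarith) (by norm_num)
      positivity
    have hE : Real.exp (1 / 3) ≤ 69781 / 50000 := exp_up_1_3
    have hx : 0 ≤ 1 / 25 * (u ^ 2 - 1) := mul_nonneg (by norm_num) (by nlinarith)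
    have h5 := mul_le_mul_of_nonneg_right (taylor3_le_exp _ hx) (hq u)
    have h6 : 0 ≤ Real.exp (1 / 25 * (u ^ 2 - 1)) * (1 + u + 217 / 500 * u ^ 2) :=
      mul_nonneg (Real.exp_nonneg _) (hq u)
    rw [Real.exp_add, mul_assoc]
    push_cast
    refine ((mul_le_mul_of_nonneg_right hE h4).trans ?_).trans
      ((mul_le_mul_of_nonneg_left h5 (by norm_num : (0 : ℝ) ≤ (1 + 1 / 10 + (1 / 10) ^ 2 / 2))).trans
        (mul_le_mul_of_nonneg_right hde h6))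
    rcases le_total u (2) with hh | hh
    · exact od_five_d24_g0 u (by linarith) (by linarith)
    rcases le_total u (3) with hh | hh
    · exact od_five_d24_g1 u (by linarith) (by linarith)
    exact od_five_d24_t u (by linarith)

theorem od_five_d30_a0 (u : ℝ) (h1 : -1 ≤ u) (h2 : u ≤ 0) :
    1 + u + u ^ 2 / 2 + u ^ 3 / 6 + u ^ 4 / 24 ≤
      1 * (1 + u + 857 / 1000 * u ^ 2) := by
  obtain ⟨s, hs⟩ : ∃ s, s = u - (-1) := ⟨_, rfl⟩
  obtain ⟨t, ht⟩ : ∃ t, t = 0 - u := ⟨_, rfl⟩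
  have hs0 : 0 ≤ s := by linarith
  have ht0 : 0 ≤ t := by linarith
  have h : 0 ≤
      241 / 500 * t ^ 4 + 1321 / 1500 * s * t ^ 3 + 357 / 1000 * s ^ 2 * t ^ 2 := by
    positivity
  have e :
      241 / 500 * t ^ 4 + 1321 / 1500 * s * t ^ 3 + 357 / 1000 * s ^ 2 * t ^ 2 =
      1 * (1 + u + 857 / 1000 * u ^ 2) -
      (1 + u + u ^ 2 / 2 + u ^ 3 / 6 + u ^ 4 / 24) := by
    rw [hs, ht]
    ring
  rw [e] at h
  linarith

theorem od_five_d30_b0 (u : ℝ) (h1 : -2 ≤ u) (h2 : u ≤ -1) :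
    36788 / 100000 *
      (1 + (u + 1) + (u + 1) ^ 2 / 2 + (u + 1) ^ 3 / 6 + (u + 1) ^ 4 / 24) ≤
      1 * (1 + u + 857 / 1000 * u ^ 2) := by
  obtain ⟨s, hs⟩ : ∃ s, s = u - (-2) := ⟨_, rfl⟩
  obtain ⟨t, ht⟩ : ∃ t, t = -1 - u := ⟨_, rfl⟩
  have hs0 : 0 ≤ s := by linarith
  have ht0 : 0 ≤ t := by linarith
  have h : 0 ≤
      458009 / 200000 * t ^ 4 + 991433 / 150000 * s * t ^ 3 +
      342671 / 50000 * s ^ 2 * t ^ 2 + 75959 / 25000 * s ^ 3 * t + 3057 / 6250 * s ^ 4 := by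
    positivity
  have e :
      458009 / 200000 * t ^ 4 + 991433 / 150000 * s * t ^ 3 +
      342671 / 50000 * s ^ 2 * t ^ 2 + 75959 / 25000 * s ^ 3 * t + 3057 / 6250 * s ^ 4 =
      1 * (1 + u + 857 / 1000 * u ^ 2) -
      (36788 / 100000 *
      (1 + (u + 1) + (u + 1) ^ 2 / 2 + (u + 1) ^ 3 / 6 + (u + 1) ^ 4 / 24)) := by
    rw [hs, ht]
    ring
  rw [e] at h
  linarith

theorem od_five_d30_c0 (u : ℝ) (h1 : -3 ≤ u) (h2 : u ≤ -2) :
    13534 / 100000 *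
      (1 + (u + 2) + (u + 2) ^ 2 / 2 + (u + 2) ^ 3 / 6 + (u + 2) ^ 4 / 24) ≤
      1 * (1 + u + 857 / 1000 * u ^ 2) := by
  obtain ⟨s, hs⟩ : ∃ s, s = u - (-3) := ⟨_, rfl⟩
  obtain ⟨t, ht⟩ : ∃ t, t = -2 - u := ⟨_, rfl⟩
  have hs0 : 0 ≤ s := by linarith
  have ht0 : 0 ≤ t := by linarith
  have h : 0 ≤
      2264899 / 400000 * t ^ 4 + 5538563 / 300000 * s * t ^ 3 +
      2223531 / 100000 * s ^ 2 * t ^ 2 + 586699 / 50000 * s ^ 3 * t + 114633 / 50000 * s ^ 4 := by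
    positivity
  have e :
      2264899 / 400000 * t ^ 4 + 5538563 / 300000 * s * t ^ 3 +
      2223531 / 100000 * s ^ 2 * t ^ 2 + 586699 / 50000 * s ^ 3 * t + 114633 / 50000 * s ^ 4 =
      1 * (1 + u + 857 / 1000 * u ^ 2) -
      (13534 / 100000 *
      (1 + (u + 2) + (u + 2) ^ 2 / 2 + (u + 2) ^ 3 / 6 + (u + 2) ^ 4 / 24)) := by
    rw [hs, ht]
    ring
  rw [e] at h
  linarith

theorem od_five_d30_d (u : ℝ) (h2 : u ≤ -3) :
    4979 / 100000 ≤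
      1 * (1 + u + 857 / 1000 * u ^ 2) := by
  obtain ⟨s, hs⟩ : ∃ s, s = -3 - u := ⟨_, rfl⟩
  have hs0 : 0 ≤ s := by linarith
  have h : 0 ≤
      566321 / 100000 + 2071 / 500 * s + 857 / 1000 * s ^ 2 := by
    positivity
  have e :
      566321 / 100000 + 2071 / 500 * s + 857 / 1000 * s ^ 2 =
      1 * (1 + u + 857 / 1000 * u ^ 2) -
      (4979 / 100000) := by
    rw [hs]
    ring
  rw [e] at h
  linarith

theorem od_five_d30_e0 (u : ℝ) (h1 : 0 ≤ u) (h2 : u ≤ 2 / 3) :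
    1 + u + u ^ 2 / 2 + u ^ 3 / 6 + u ^ 4 / 24 + u ^ 5 / 100 ≤
      1 * (1 + u + 857 / 1000 * u ^ 2) := by
  obtain ⟨s, hs⟩ : ∃ s, s = u - (0) := ⟨_, rfl⟩
  obtain ⟨t, ht⟩ : ∃ t, t = 2 / 3 - u := ⟨_, rfl⟩
  have hs0 : 0 ≤ s := by linarith
  have ht0 : 0 ≤ t := by linarith
  have h : 0 ≤
      9639 / 8000 * s ^ 2 * t ^ 3 + 25917 / 8000 * s ^ 3 * t ^ 2 + 22417 / 8000 * s ^ 4 * t +
      6059 / 8000 * s ^ 5 := by
    positivity
  have e :
      9639 / 8000 * s ^ 2 * t ^ 3 + 25917 / 8000 * s ^ 3 * t ^ 2 + 22417 / 8000 * s ^ 4 * t +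
      6059 / 8000 * s ^ 5 =
      1 * (1 + u + 857 / 1000 * u ^ 2) -
      (1 + u + u ^ 2 / 2 + u ^ 3 / 6 + u ^ 4 / 24 + u ^ 5 / 100) := by
    rw [hs, ht]
    ring
  rw [e] at h
  linarith

theorem od_five_d30_f0 (u : ℝ) (h1 : 2 / 3 ≤ u) (h2 : u ≤ 1) :
    97387 / 50000 * (1 + (u - 2 / 3) / 5) ^ 5 ≤
      1 * (1 + u + 857 / 1000 * u ^ 2) := by
  obtain ⟨s, hs⟩ : ∃ s, s = u - (2 / 3) := ⟨_, rfl⟩
  obtain ⟨t, ht⟩ : ∃ t, t = 1 - u := ⟨_, rfl⟩
  have hs0 : 0 ≤ s := by linarith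
  have ht0 : 0 ≤ t := by linarith
  have h : 0 ≤
      1212759 / 50000 * t ^ 5 + 428328 / 3125 * s * t ^ 4 +
      38476431 / 125000 * s ^ 2 * t ^ 3 + 213871257 / 625000 * s ^ 3 * t ^ 2 +
      587158977 / 3125000 * s ^ 4 * t + 3179523919 / 78125000 * s ^ 5 := by
    positivity
  have e :
      1212759 / 50000 * t ^ 5 + 428328 / 3125 * s * t ^ 4 +
      38476431 / 125000 * s ^ 2 * t ^ 3 + 213871257 / 625000 * s ^ 3 * t ^ 2 +
      587158977 / 3125000 * s ^ 4 * t + 3179523919 / 78125000 * s ^ 5 =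
      1 * (1 + u + 857 / 1000 * u ^ 2) -
      (97387 / 50000 * (1 + (u - 2 / 3) / 5) ^ 5) := by
    rw [hs, ht]
    ring
  rw [e] at h
  linarith

theorem od_five_d30_g0 (u : ℝ) (h1 : 1 ≤ u) (h2 : u ≤ 3) :
    97387 / 50000 * (1 + (u - 2 / 3) / 5) ^ 5 ≤
      1 * ((1 + (1 / 50 * (u ^ 2 - 1)) +
      (1 / 50 * (u ^ 2 - 1)) ^ 2 / 2 +
      (1 / 50 * (u ^ 2 - 1)) ^ 3 / 6) *
      (1 + u + 857 / 1000 * u ^ 2)) := by
  obtain ⟨s, hs⟩ : ∃ s, s = u - (1) := ⟨_, rfl⟩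
  obtain ⟨t, ht⟩ : ∃ t, t = 3 - u := ⟨_, rfl⟩
  have hs0 : 0 ≤ s := by linarith
  have ht0 : 0 ≤ t := by linarith
  have h : 0 ≤
      3179523919 / 4860000000000 * t ^ 8 + 18543565561 / 2430000000000 * s * t ^ 7 +
      88308302381 / 2430000000000 * s ^ 2 * t ^ 6 +
      223064605777 / 2430000000000 * s ^ 3 * t ^ 5 +
      65810162833 / 486000000000 * s ^ 4 * t ^ 4 +
      291931837009 / 2430000000000 * s ^ 5 * t ^ 3 +
      152541649757 / 2430000000000 * s ^ 6 * t ^ 2 +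
      42943694017 / 2430000000000 * s ^ 7 * t + 9991901563 / 4860000000000 * s ^ 8 := by
    positivity
  have e :
      3179523919 / 4860000000000 * t ^ 8 + 18543565561 / 2430000000000 * s * t ^ 7 +
      88308302381 / 2430000000000 * s ^ 2 * t ^ 6 +
      223064605777 / 2430000000000 * s ^ 3 * t ^ 5 +
      65810162833 / 486000000000 * s ^ 4 * t ^ 4 +
      291931837009 / 2430000000000 * s ^ 5 * t ^ 3 +
      152541649757 / 2430000000000 * s ^ 6 * t ^ 2 +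
      42943694017 / 2430000000000 * s ^ 7 * t + 9991901563 / 4860000000000 * s ^ 8 =
      1 * ((1 + (1 / 50 * (u ^ 2 - 1)) +
      (1 / 50 * (u ^ 2 - 1)) ^ 2 / 2 +
      (1 / 50 * (u ^ 2 - 1)) ^ 3 / 6) *
      (1 + u + 857 / 1000 * u ^ 2)) -
      (97387 / 50000 * (1 + (u - 2 / 3) / 5) ^ 5) := by
    rw [hs, ht]
    ring
  rw [e] at h
  linarith

theorem od_five_d30_g1 (u : ℝ) (h1 : 3 ≤ u) (h2 : u ≤ 4) :
    97387 / 50000 * (1 + (u - 2 / 3) / 5) ^ 5 ≤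
      1 * ((1 + (1 / 50 * (u ^ 2 - 1)) +
      (1 / 50 * (u ^ 2 - 1)) ^ 2 / 2 +
      (1 / 50 * (u ^ 2 - 1)) ^ 3 / 6) *
      (1 + u + 857 / 1000 * u ^ 2)) := by
  obtain ⟨s, hs⟩ : ∃ s, s = u - (3) := ⟨_, rfl⟩
  obtain ⟨t, ht⟩ : ∃ t, t = 4 - u := ⟨_, rfl⟩
  have hs0 : 0 ≤ s := by linarith
  have ht0 : 0 ≤ t := by linarith
  have h : 0 ≤
      9991901563 / 18984375000 * t ^ 8 + 76959124739 / 18984375000 * s * t ^ 7 +
      254851836169 / 18984375000 * s ^ 2 * t ^ 6 +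
      236417158879 / 9492187500 * s ^ 3 * t ^ 5 +
      857689212253 / 30375000000 * s ^ 4 * t ^ 4 +
      606369639863 / 30375000000 * s ^ 5 * t ^ 3 +
      104033121217 / 12150000000 * s ^ 6 * t ^ 2 + 616716371 / 303750000 * s ^ 7 * t +
      773603 / 3796875 * s ^ 8 := by
    positivity
  have e :
      9991901563 / 18984375000 * t ^ 8 + 76959124739 / 18984375000 * s * t ^ 7 +
      254851836169 / 18984375000 * s ^ 2 * t ^ 6 +
      236417158879 / 9492187500 * s ^ 3 * t ^ 5 +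
      857689212253 / 30375000000 * s ^ 4 * t ^ 4 +
      606369639863 / 30375000000 * s ^ 5 * t ^ 3 +
      104033121217 / 12150000000 * s ^ 6 * t ^ 2 + 616716371 / 303750000 * s ^ 7 * t +
      773603 / 3796875 * s ^ 8 =
      1 * ((1 + (1 / 50 * (u ^ 2 - 1)) +
      (1 / 50 * (u ^ 2 - 1)) ^ 2 / 2 +
      (1 / 50 * (u ^ 2 - 1)) ^ 3 / 6) *
      (1 + u + 857 / 1000 * u ^ 2)) -
      (97387 / 50000 * (1 + (u - 2 / 3) / 5) ^ 5) := by
    rw [hs, ht]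
    ring
  rw [e] at h
  linarith

theorem od_five_d30_g2 (u : ℝ) (h1 : 4 ≤ u) (h2 : u ≤ 5) :
    97387 / 50000 * (1 + (u - 2 / 3) / 5) ^ 5 ≤
      1 * ((1 + (1 / 50 * (u ^ 2 - 1)) +
      (1 / 50 * (u ^ 2 - 1)) ^ 2 / 2 +
      (1 / 50 * (u ^ 2 - 1)) ^ 3 / 6) *
      (1 + u + 857 / 1000 * u ^ 2)) := by
  obtain ⟨s, hs⟩ : ∃ s, s = u - (4) := ⟨_, rfl⟩
  obtain ⟨t, ht⟩ : ∃ t, t = 5 - u := ⟨_, rfl⟩
  have hs0 : 0 ≤ s := by linarith
  have ht0 : 0 ≤ t := by linarith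
  have h : 0 ≤
      773603 / 3796875 * t ^ 8 + 373495469 / 303750000 * s * t ^ 7 +
      35931268657 / 12150000000 * s ^ 2 * t ^ 6 +
      106799632247 / 30375000000 * s ^ 3 * t ^ 5 +
      62385488173 / 30375000000 * s ^ 4 * t ^ 4 + 5530473091 / 9492187500 * s ^ 5 * t ^ 3 +
      6517874641 / 18984375000 * s ^ 6 * t ^ 2 + 6463995851 / 18984375000 * s ^ 7 * t +
      2098773667 / 18984375000 * s ^ 8 := by
    positivity
  have e :
      773603 / 3796875 * t ^ 8 + 373495469 / 303750000 * s * t ^ 7 +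
      35931268657 / 12150000000 * s ^ 2 * t ^ 6 +
      106799632247 / 30375000000 * s ^ 3 * t ^ 5 +
      62385488173 / 30375000000 * s ^ 4 * t ^ 4 + 5530473091 / 9492187500 * s ^ 5 * t ^ 3 +
      6517874641 / 18984375000 * s ^ 6 * t ^ 2 + 6463995851 / 18984375000 * s ^ 7 * t +
      2098773667 / 18984375000 * s ^ 8 =
      1 * ((1 + (1 / 50 * (u ^ 2 - 1)) +
      (1 / 50 * (u ^ 2 - 1)) ^ 2 / 2 +
      (1 / 50 * (u ^ 2 - 1)) ^ 3 / 6) *
      (1 + u + 857 / 1000 * u ^ 2)) -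
      (97387 / 50000 * (1 + (u - 2 / 3) / 5) ^ 5) := by
    rw [hs, ht]
    ring
  rw [e] at h
  linarith

theorem od_five_d30_t (u : ℝ) (h1 : 5 ≤ u) :
    97387 / 50000 * (1 + (u - 2 / 3) / 5) ^ 5 ≤
      1 * ((1 + (1 / 50 * (u ^ 2 - 1)) +
      (1 / 50 * (u ^ 2 - 1)) ^ 2 / 2 +
      (1 / 50 * (u ^ 2 - 1)) ^ 3 / 6) *
      (1 + u + 857 / 1000 * u ^ 2)) := by
  obtain ⟨s, hs⟩ : ∃ s, s = u - (5) := ⟨_, rfl⟩
  have hs0 : 0 ≤ s := by linarith
  have h : 0 ≤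
      2098773667 / 18984375000 + 688412899 / 1265625000 * s + 55654351 / 52734375 * s ^ 2 +
      72842327 / 140625000 * s ^ 3 + 42046829 / 375000000 * s ^ 4 +
      25032281 / 1875000000 * s ^ 5 + 761879 / 750000000 * s ^ 6 + 147 / 3125000 * s ^ 7 +
      857 / 750000000 * s ^ 8 := by
    positivity
  have e :
      2098773667 / 18984375000 + 688412899 / 1265625000 * s + 55654351 / 52734375 * s ^ 2 +
      72842327 / 140625000 * s ^ 3 + 42046829 / 375000000 * s ^ 4 +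
      25032281 / 1875000000 * s ^ 5 + 761879 / 750000000 * s ^ 6 + 147 / 3125000 * s ^ 7 +
      857 / 750000000 * s ^ 8 =
      1 * ((1 + (1 / 50 * (u ^ 2 - 1)) +
      (1 / 50 * (u ^ 2 - 1)) ^ 2 / 2 +
      (1 / 50 * (u ^ 2 - 1)) ^ 3 / 6) *
      (1 + u + 857 / 1000 * u ^ 2)) -
      (97387 / 50000 * (1 + (u - 2 / 3) / 5) ^ 5) := by
    rw [hs]
    ring
  rw [e] at h
  linarith

/-- `K = 5`: `(c, μ, P, δ) = (857 / 1000, 1 / 50, 2 / 3, 0)` -/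
theorem expOd_five_d30 : ExpOd 5 (857 / 1000) (1 / 50) (2 / 3) (0) := by
  have hde : 1 ≤ Real.exp (0) := Real.exp_zero.ge
  have hq : ∀ u : ℝ, 0 ≤ 1 + u + 857 / 1000 * u ^ 2 := fun u => by
    nlinarith [sq_nonneg (u + 2), sq_nonneg u]
  have hR : ∀ (u x y : ℝ), x ≤ y → y ≤ 1 * (1 + u + 857 / 1000 * u ^ 2) →
      x ≤ Real.exp (0) * (1 + u + 857 / 1000 * u ^ 2) := fun u x y h1 h2 =>
    (h1.trans h2).trans (mul_le_mul_of_nonneg_right hde (hq u))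
  refine ExpOd.of (by norm_num) (by norm_num) (by norm_num) (by norm_num) (by norm_num) ?_ ?_ ?_
  · intro u h1
    rcases le_total u (-3) with h3 | h3
    · exact hR u _ _ (exp_le_n3 h3) (od_five_d30_d u h3)
    rcases le_total u (-2) with h4 | h4
    · refine hR u _ _ (exp_le_n2 h4) ?_
      exact od_five_d30_c0 u (by linarith) (by linarith)
    rcases le_total u (-1) with h5 | h5
    · refine hR u _ _ (exp_le_n1 h5) ?_
      exact od_five_d30_b0 u (by linarith) (by linarith)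
    rcases le_total u 0 with h6 | h6
    · refine hR u _ _ (exp_le_n0 h6) ?_
      exact od_five_d30_a0 u (by linarith) (by linarith)
    refine hR u _ _ (exp_le_p h6 (by linarith)) ?_
    exact od_five_d30_e0 u (by linarith) (by linarith)
  · intro u h1 h2
    have h4 : 0 ≤ (1 + (u - 2 / 3) / 5) ^ 5 := by
      have : 0 ≤ (u - 2 / 3) / 5 := div_nonneg (by linarith) (by norm_num)
      positivity
    have hE : Real.exp (2 / 3) ≤ 97387 / 50000 := exp_up_2_3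
    push_cast
    refine hR u _ _ (mul_le_mul_of_nonneg_right hE h4) ?_
    exact od_five_d30_f0 u (by linarith) (by linarith)
  · intro u h1
    have h4 : 0 ≤ (1 + (u - 2 / 3) / 5) ^ 5 := by
      have : 0 ≤ (u - 2 / 3) / 5 := div_nonneg (by linarith) (by norm_num)
      positivity
    have hE : Real.exp (2 / 3) ≤ 97387 / 50000 := exp_up_2_3
    have hx : 0 ≤ 1 / 50 * (u ^ 2 - 1) := mul_nonneg (by norm_num) (by nlinarith)
    have h5 := mul_le_mul_of_nonneg_right (taylor3_le_exp _ hx) (hq u)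
    have h6 : 0 ≤ Real.exp (1 / 50 * (u ^ 2 - 1)) * (1 + u + 857 / 1000 * u ^ 2) :=
      mul_nonneg (Real.exp_nonneg _) (hq u)
    rw [Real.exp_add, mul_assoc]
    push_cast
    refine ((mul_le_mul_of_nonneg_right hE h4).trans ?_).trans
      ((mul_le_mul_of_nonneg_left h5 (by norm_num : (0 : ℝ) ≤ 1)).trans
        (mul_le_mul_of_nonneg_right hde h6))
    rcases le_total u (3) with hh | hh
    · exact od_five_d30_g0 u (by linarith) (by linarith)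
    rcases le_total u (4) with hh | hh
    · exact od_five_d30_g1 u (by linarith) (by linarith)
    rcases le_total u (5) with hh | hh
    · exact od_five_d30_g2 u (by linarith) (by linarith)
    exact od_five_d30_t u (by linarith)

theorem od_five_d31_a0 (u : ℝ) (h1 : -1 ≤ u) (h2 : u ≤ 0) :
    1 + u + u ^ 2 / 2 + u ^ 3 / 6 + u ^ 4 / 24 ≤
      1 * (1 + u + 713 / 1000 * u ^ 2) := by
  obtain ⟨s, hs⟩ : ∃ s, s = u - (-1) := ⟨_, rfl⟩
  obtain ⟨t, ht⟩ : ∃ t, t = 0 - u := ⟨_, rfl⟩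
  have hs0 : 0 ≤ s := by linarith
  have ht0 : 0 ≤ t := by linarith
  have h : 0 ≤
      169 / 500 * t ^ 4 + 889 / 1500 * s * t ^ 3 + 213 / 1000 * s ^ 2 * t ^ 2 := by
    positivity
  have e :
      169 / 500 * t ^ 4 + 889 / 1500 * s * t ^ 3 + 213 / 1000 * s ^ 2 * t ^ 2 =
      1 * (1 + u + 713 / 1000 * u ^ 2) -
      (1 + u + u ^ 2 / 2 + u ^ 3 / 6 + u ^ 4 / 24) := by
    rw [hs, ht]
    ring
  rw [e] at h
  linarith

theorem od_five_d31_b0 (u : ℝ) (h1 : -2 ≤ u) (h2 : u ≤ -1) :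
    36788 / 100000 *
      (1 + (u + 1) + (u + 1) ^ 2 / 2 + (u + 1) ^ 3 / 6 + (u + 1) ^ 4 / 24) ≤
      1 * (1 + u + 713 / 1000 * u ^ 2) := by
  obtain ⟨s, hs⟩ : ∃ s, s = u - (-2) := ⟨_, rfl⟩
  obtain ⟨t, ht⟩ : ∃ t, t = -1 - u := ⟨_, rfl⟩
  have hs0 : 0 ≤ s := by linarith
  have ht0 : 0 ≤ t := by linarith
  have h : 0 ≤
      342809 / 200000 * t ^ 4 + 732233 / 150000 * s * t ^ 3 +
      249071 / 50000 * s ^ 2 * t ^ 2 + 54359 / 25000 * s ^ 3 * t + 2157 / 6250 * s ^ 4 := by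
    positivity
  have e :
      342809 / 200000 * t ^ 4 + 732233 / 150000 * s * t ^ 3 +
      249071 / 50000 * s ^ 2 * t ^ 2 + 54359 / 25000 * s ^ 3 * t + 2157 / 6250 * s ^ 4 =
      1 * (1 + u + 713 / 1000 * u ^ 2) -
      (36788 / 100000 *
      (1 + (u + 1) + (u + 1) ^ 2 / 2 + (u + 1) ^ 3 / 6 + (u + 1) ^ 4 / 24)) := by
    rw [hs, ht]
    ring
  rw [e] at h
  linarith

theorem od_five_d31_c0 (u : ℝ) (h1 : -3 ≤ u) (h2 : u ≤ -2) :
    13534 / 100000 *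
      (1 + (u + 2) + (u + 2) ^ 2 / 2 + (u + 2) ^ 3 / 6 + (u + 2) ^ 4 / 24) ≤
      1 * (1 + u + 713 / 1000 * u ^ 2) := by
  obtain ⟨s, hs⟩ : ∃ s, s = u - (-3) := ⟨_, rfl⟩
  obtain ⟨t, ht⟩ : ∃ t, t = -2 - u := ⟨_, rfl⟩
  have hs0 : 0 ≤ s := by linarith
  have ht0 : 0 ≤ t := by linarith
  have h : 0 ≤
      1746499 / 400000 * t ^ 4 + 4242563 / 300000 * s * t ^ 3 +
      1690731 / 100000 * s ^ 2 * t ^ 2 + 442699 / 50000 * s ^ 3 * t + 85833 / 50000 * s ^ 4 := by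
    positivity
  have e :
      1746499 / 400000 * t ^ 4 + 4242563 / 300000 * s * t ^ 3 +
      1690731 / 100000 * s ^ 2 * t ^ 2 + 442699 / 50000 * s ^ 3 * t + 85833 / 50000 * s ^ 4 =
      1 * (1 + u + 713 / 1000 * u ^ 2) -
      (13534 / 100000 *
      (1 + (u + 2) + (u + 2) ^ 2 / 2 + (u + 2) ^ 3 / 6 + (u + 2) ^ 4 / 24)) := by
    rw [hs, ht]
    ring
  rw [e] at h
  linarith

theorem od_five_d31_d (u : ℝ) (h2 : u ≤ -3) :
    4979 / 100000 ≤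
      1 * (1 + u + 713 / 1000 * u ^ 2) := by
  obtain ⟨s, hs⟩ : ∃ s, s = -3 - u := ⟨_, rfl⟩
  have hs0 : 0 ≤ s := by linarith
  have h : 0 ≤
      436721 / 100000 + 1639 / 500 * s + 713 / 1000 * s ^ 2 := by
    positivity
  have e :
      436721 / 100000 + 1639 / 500 * s + 713 / 1000 * s ^ 2 =
      1 * (1 + u + 713 / 1000 * u ^ 2) -
      (4979 / 100000) := by
    rw [hs]
    ring
  rw [e] at h
  linarith

theorem od_five_d31_e0 (u : ℝ) (h1 : 0 ≤ u) (h2 : u ≤ 2 / 3) :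
    1 + u + u ^ 2 / 2 + u ^ 3 / 6 + u ^ 4 / 24 + u ^ 5 / 100 ≤
      1 * (1 + u + 713 / 1000 * u ^ 2) := by
  obtain ⟨s, hs⟩ : ∃ s, s = u - (0) := ⟨_, rfl⟩
  obtain ⟨t, ht⟩ : ∃ t, t = 2 / 3 - u := ⟨_, rfl⟩
  have hs0 : 0 ≤ s := by linarith
  have ht0 : 0 ≤ t := by linarith
  have h : 0 ≤
      5751 / 8000 * s ^ 2 * t ^ 3 + 14253 / 8000 * s ^ 3 * t ^ 2 + 10753 / 8000 * s ^ 4 * t +
      2171 / 8000 * s ^ 5 := by
    positivity
  have e :
      5751 / 8000 * s ^ 2 * t ^ 3 + 14253 / 8000 * s ^ 3 * t ^ 2 + 10753 / 8000 * s ^ 4 * t +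
      2171 / 8000 * s ^ 5 =
      1 * (1 + u + 713 / 1000 * u ^ 2) -
      (1 + u + u ^ 2 / 2 + u ^ 3 / 6 + u ^ 4 / 24 + u ^ 5 / 100) := by
    rw [hs, ht]
    ring
  rw [e] at h
  linarith

theorem od_five_d31_f0 (u : ℝ) (h1 : 2 / 3 ≤ u) (h2 : u ≤ 1) :
    97387 / 50000 * (1 + (u - 2 / 3) / 5) ^ 5 ≤
      1 * (1 + u + 713 / 1000 * u ^ 2) := by
  obtain ⟨s, hs⟩ : ∃ s, s = u - (2 / 3) := ⟨_, rfl⟩
  obtain ⟨t, ht⟩ : ∃ t, t = 1 - u := ⟨_, rfl⟩
  have hs0 : 0 ≤ s := by linarith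
  have ht0 : 0 ≤ t := by linarith
  have h : 0 ≤
      435159 / 50000 * t ^ 5 + 136728 / 3125 * s * t ^ 4 +
      10774431 / 125000 * s ^ 2 * t ^ 3 + 51061257 / 625000 * s ^ 3 * t ^ 2 +
      113308977 / 3125000 * s ^ 4 * t + 445773919 / 78125000 * s ^ 5 := by
    positivity
  have e :
      435159 / 50000 * t ^ 5 + 136728 / 3125 * s * t ^ 4 +
      10774431 / 125000 * s ^ 2 * t ^ 3 + 51061257 / 625000 * s ^ 3 * t ^ 2 +
      113308977 / 3125000 * s ^ 4 * t + 445773919 / 78125000 * s ^ 5 =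
      1 * (1 + u + 713 / 1000 * u ^ 2) -
      (97387 / 50000 * (1 + (u - 2 / 3) / 5) ^ 5) := by
    rw [hs, ht]
    ring
  rw [e] at h
  linarith

theorem od_five_d31_g0 (u : ℝ) (h1 : 1 ≤ u) (h2 : u ≤ 3) :
    97387 / 50000 * (1 + (u - 2 / 3) / 5) ^ 5 ≤
      1 * ((1 + (3 / 100 * (u ^ 2 - 1)) +
      (3 / 100 * (u ^ 2 - 1)) ^ 2 / 2 +
      (3 / 100 * (u ^ 2 - 1)) ^ 3 / 6) *
      (1 + u + 713 / 1000 * u ^ 2)) := by
  obtain ⟨s, hs⟩ : ∃ s, s = u - (1) := ⟨_, rfl⟩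
  obtain ⟨t, ht⟩ : ∃ t, t = 3 - u := ⟨_, rfl⟩
  have hs0 : 0 ≤ s := by linarith
  have ht0 : 0 ≤ t := by linarith
  have h : 0 ≤
      445773919 / 4860000000000 * t ^ 8 + 6123615497 / 4860000000000 * s * t ^ 7 +
      60660875399 / 9720000000000 * s ^ 2 * t ^ 6 +
      140789729833 / 9720000000000 * s ^ 3 * t ^ 5 +
      16749381461 / 972000000000 * s ^ 4 * t ^ 4 +
      98976883861 / 9720000000000 * s ^ 5 * t ^ 3 +
      23242504553 / 9720000000000 * s ^ 6 * t ^ 2 + 547300709 / 4860000000000 * s ^ 7 * t +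
      425445163 / 4860000000000 * s ^ 8 := by
    positivity
  have e :
      445773919 / 4860000000000 * t ^ 8 + 6123615497 / 4860000000000 * s * t ^ 7 +
      60660875399 / 9720000000000 * s ^ 2 * t ^ 6 +
      140789729833 / 9720000000000 * s ^ 3 * t ^ 5 +
      16749381461 / 972000000000 * s ^ 4 * t ^ 4 +
      98976883861 / 9720000000000 * s ^ 5 * t ^ 3 +
      23242504553 / 9720000000000 * s ^ 6 * t ^ 2 + 547300709 / 4860000000000 * s ^ 7 * t +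
      425445163 / 4860000000000 * s ^ 8 =
      1 * ((1 + (3 / 100 * (u ^ 2 - 1)) +
      (3 / 100 * (u ^ 2 - 1)) ^ 2 / 2 +
      (3 / 100 * (u ^ 2 - 1)) ^ 3 / 6) *
      (1 + u + 713 / 1000 * u ^ 2)) -
      (97387 / 50000 * (1 + (u - 2 / 3) / 5) ^ 5) := by
    rw [hs, ht]
    ring
  rw [e] at h
  linarith

theorem od_five_d31_t (u : ℝ) (h1 : 3 ≤ u) :
    97387 / 50000 * (1 + (u - 2 / 3) / 5) ^ 5 ≤
      1 * ((1 + (3 / 100 * (u ^ 2 - 1)) +
      (3 / 100 * (u ^ 2 - 1)) ^ 2 / 2 +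
      (3 / 100 * (u ^ 2 - 1)) ^ 3 / 6) *
      (1 + u + 713 / 1000 * u ^ 2)) := by
  obtain ⟨s, hs⟩ : ∃ s, s = u - (3) := ⟨_, rfl⟩
  have hs0 : 0 ≤ s := by linarith
  have h : 0 ≤
      425445163 / 18984375000 + 190417373 / 2531250000 * s + 875671639 / 3375000000 * s ^ 2 +
      482528681 / 2250000000 * s ^ 3 + 52466959 / 750000000 * s ^ 4 +
      55990081 / 5000000000 * s ^ 5 + 2437533 / 2000000000 * s ^ 6 +
      2547 / 31250000 * s ^ 7 + 6417 / 2000000000 * s ^ 8 := by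
    positivity
  have e :
      425445163 / 18984375000 + 190417373 / 2531250000 * s + 875671639 / 3375000000 * s ^ 2 +
      482528681 / 2250000000 * s ^ 3 + 52466959 / 750000000 * s ^ 4 +
      55990081 / 5000000000 * s ^ 5 + 2437533 / 2000000000 * s ^ 6 +
      2547 / 31250000 * s ^ 7 + 6417 / 2000000000 * s ^ 8 =
      1 * ((1 + (3 / 100 * (u ^ 2 - 1)) +
      (3 / 100 * (u ^ 2 - 1)) ^ 2 / 2 +
      (3 / 100 * (u ^ 2 - 1)) ^ 3 / 6) *
      (1 + u + 713 / 1000 * u ^ 2)) -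
      (97387 / 50000 * (1 + (u - 2 / 3) / 5) ^ 5) := by
    rw [hs]
    ring
  rw [e] at h
  linarith

/-- `K = 5`: `(c, μ, P, δ) = (713 / 1000, 3 / 100, 2 / 3, 0)` -/
theorem expOd_five_d31 : ExpOd 5 (713 / 1000) (3 / 100) (2 / 3) (0) := by
  have hde : 1 ≤ Real.exp (0) := Real.exp_zero.ge
  have hq : ∀ u : ℝ, 0 ≤ 1 + u + 713 / 1000 * u ^ 2 := fun u => by
    nlinarith [sq_nonneg (u + 2), sq_nonneg u]
  have hR : ∀ (u x y : ℝ), x ≤ y → y ≤ 1 * (1 + u + 713 / 1000 * u ^ 2) →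
      x ≤ Real.exp (0) * (1 + u + 713 / 1000 * u ^ 2) := fun u x y h1 h2 =>
    (h1.trans h2).trans (mul_le_mul_of_nonneg_right hde (hq u))
  refine ExpOd.of (by norm_num) (by norm_num) (by norm_num) (by norm_num) (by norm_num) ?_ ?_ ?_
  · intro u h1
    rcases le_total u (-3) with h3 | h3
    · exact hR u _ _ (exp_le_n3 h3) (od_five_d31_d u h3)
    rcases le_total u (-2) with h4 | h4
    · refine hR u _ _ (exp_le_n2 h4) ?_
      exact od_five_d31_c0 u (by linarith) (by linarith)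
    rcases le_total u (-1) with h5 | h5
    · refine hR u _ _ (exp_le_n1 h5) ?_
      exact od_five_d31_b0 u (by linarith) (by linarith)
    rcases le_total u 0 with h6 | h6
    · refine hR u _ _ (exp_le_n0 h6) ?_
      exact od_five_d31_a0 u (by linarith) (by linarith)
    refine hR u _ _ (exp_le_p h6 (by linarith)) ?_
    exact od_five_d31_e0 u (by linarith) (by linarith)
  · intro u h1 h2
    have h4 : 0 ≤ (1 + (u - 2 / 3) / 5) ^ 5 := by
      have : 0 ≤ (u - 2 / 3) / 5 := div_nonneg (by linarith) (by norm_num)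
      positivity
    have hE : Real.exp (2 / 3) ≤ 97387 / 50000 := exp_up_2_3
    push_cast
    refine hR u _ _ (mul_le_mul_of_nonneg_right hE h4) ?_
    exact od_five_d31_f0 u (by linarith) (by linarith)
  · intro u h1
    have h4 : 0 ≤ (1 + (u - 2 / 3) / 5) ^ 5 := by
      have : 0 ≤ (u - 2 / 3) / 5 := div_nonneg (by linarith) (by norm_num)
      positivity
    have hE : Real.exp (2 / 3) ≤ 97387 / 50000 := exp_up_2_3
    have hx : 0 ≤ 3 / 100 * (u ^ 2 - 1) := mul_nonneg (by norm_num) (by nlinarith)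
    have h5 := mul_le_mul_of_nonneg_right (taylor3_le_exp _ hx) (hq u)
    have h6 : 0 ≤ Real.exp (3 / 100 * (u ^ 2 - 1)) * (1 + u + 713 / 1000 * u ^ 2) :=
      mul_nonneg (Real.exp_nonneg _) (hq u)
    rw [Real.exp_add, mul_assoc]
    push_cast
    refine ((mul_le_mul_of_nonneg_right hE h4).trans ?_).trans
      ((mul_le_mul_of_nonneg_left h5 (by norm_num : (0 : ℝ) ≤ 1)).trans
        (mul_le_mul_of_nonneg_right hde h6))
    rcases le_total u (3) with hh | hh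
    · exact od_five_d31_g0 u (by linarith) (by linarith)
    exact od_five_d31_t u (by linarith)

theorem od_five_d32_a0 (u : ℝ) (h1 : -1 ≤ u) (h2 : u ≤ 0) :
    1 + u + u ^ 2 / 2 + u ^ 3 / 6 + u ^ 4 / 24 ≤
      (1 + 1 / 100 + (1 / 100) ^ 2 / 2) * (1 + u + 701 / 1000 * u ^ 2) := by
  obtain ⟨s, hs⟩ : ∃ s, s = u - (-1) := ⟨_, rfl⟩
  obtain ⟨t, ht⟩ : ∃ t, t = 0 - u := ⟨_, rfl⟩
  have hs0 : 0 ≤ s := by linarith
  have ht0 : 0 ≤ t := by linarith
  have h : 0 ≤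
      6660901 / 20000000 * t ^ 4 + 17784203 / 30000000 * s * t ^ 3 +
      4763901 / 20000000 * s ^ 2 * t ^ 2 + 603 / 20000 * s ^ 3 * t + 201 / 20000 * s ^ 4 := by
    positivity
  have e :
      6660901 / 20000000 * t ^ 4 + 17784203 / 30000000 * s * t ^ 3 +
      4763901 / 20000000 * s ^ 2 * t ^ 2 + 603 / 20000 * s ^ 3 * t + 201 / 20000 * s ^ 4 =
      (1 + 1 / 100 + (1 / 100) ^ 2 / 2) * (1 + u + 701 / 1000 * u ^ 2) -
      (1 + u + u ^ 2 / 2 + u ^ 3 / 6 + u ^ 4 / 24) := by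
    rw [hs, ht]
    ring
  rw [e] at h
  linarith

theorem od_five_d32_b0 (u : ℝ) (h1 : -2 ≤ u) (h2 : u ≤ -1) :
    36788 / 100000 *
      (1 + (u + 1) + (u + 1) ^ 2 / 2 + (u + 1) ^ 3 / 6 + (u + 1) ^ 4 / 24) ≤
      (1 + 1 / 100 + (1 / 100) ^ 2 / 2) * (1 + u + 701 / 1000 * u ^ 2) := by
  obtain ⟨s, hs⟩ : ∃ s, s = u - (-2) := ⟨_, rfl⟩
  obtain ⟨t, ht⟩ : ∃ t, t = -1 - u := ⟨_, rfl⟩
  have hs0 : 0 ≤ s := by linarith
  have ht0 : 0 ≤ t := by linarith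
  have h : 0 ≤
      2105219 / 1250000 * t ^ 4 + 71879159 / 15000000 * s * t ^ 3 +
      97737113 / 20000000 * s ^ 2 * t ^ 2 + 21345803 / 10000000 * s ^ 3 * t +
      6803301 / 20000000 * s ^ 4 := by
    positivity
  have e :
      2105219 / 1250000 * t ^ 4 + 71879159 / 15000000 * s * t ^ 3 +
      97737113 / 20000000 * s ^ 2 * t ^ 2 + 21345803 / 10000000 * s ^ 3 * t +
      6803301 / 20000000 * s ^ 4 =
      (1 + 1 / 100 + (1 / 100) ^ 2 / 2) * (1 + u + 701 / 1000 * u ^ 2) -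
      (36788 / 100000 *
      (1 + (u + 1) + (u + 1) ^ 2 / 2 + (u + 1) ^ 3 / 6 + (u + 1) ^ 4 / 24)) := by
    rw [hs, ht]
    ring
  rw [e] at h
  linarith

theorem od_five_d32_c0 (u : ℝ) (h1 : -3 ≤ u) (h2 : u ≤ -2) :
    13534 / 100000 *
      (1 + (u + 2) + (u + 2) ^ 2 / 2 + (u + 2) ^ 3 / 6 + (u + 2) ^ 4 / 24) ≤
      (1 + 1 / 100 + (1 / 100) ^ 2 / 2) * (1 + u + 701 / 1000 * u ^ 2) := by
  obtain ⟨s, hs⟩ : ∃ s, s = u - (-3) := ⟨_, rfl⟩
  obtain ⟨t, ht⟩ : ∃ t, t = -2 - u := ⟨_, rfl⟩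
  have hs0 : 0 ≤ s := by linarith
  have ht0 : 0 ≤ t := by linarith
  have h : 0 ≤
      86031059 / 20000000 * t ^ 4 + 83537269 / 6000000 * s * t ^ 3 +
      332670537 / 20000000 * s ^ 2 * t ^ 2 + 8704631 / 1000000 * s ^ 3 * t +
      8433951 / 5000000 * s ^ 4 := by
    positivity
  have e :
      86031059 / 20000000 * t ^ 4 + 83537269 / 6000000 * s * t ^ 3 +
      332670537 / 20000000 * s ^ 2 * t ^ 2 + 8704631 / 1000000 * s ^ 3 * t +
      8433951 / 5000000 * s ^ 4 =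
      (1 + 1 / 100 + (1 / 100) ^ 2 / 2) * (1 + u + 701 / 1000 * u ^ 2) -
      (13534 / 100000 *
      (1 + (u + 2) + (u + 2) ^ 2 / 2 + (u + 2) ^ 3 / 6 + (u + 2) ^ 4 / 24)) := by
    rw [hs, ht]
    ring
  rw [e] at h
  linarith

theorem od_five_d32_d (u : ℝ) (h2 : u ≤ -3) :
    4979 / 100000 ≤
      (1 + 1 / 100 + (1 / 100) ^ 2 / 2) * (1 + u + 701 / 1000 * u ^ 2) := by
  obtain ⟨s, hs⟩ : ∃ s, s = -3 - u := ⟨_, rfl⟩
  have hs0 : 0 ≤ s := by linarith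
  have h : 0 ≤
      86050309 / 20000000 + 32382203 / 10000000 * s + 14160901 / 20000000 * s ^ 2 := by
    positivity
  have e :
      86050309 / 20000000 + 32382203 / 10000000 * s + 14160901 / 20000000 * s ^ 2 =
      (1 + 1 / 100 + (1 / 100) ^ 2 / 2) * (1 + u + 701 / 1000 * u ^ 2) -
      (4979 / 100000) := by
    rw [hs]
    ring
  rw [e] at h
  linarith

theorem od_five_d32_e0 (u : ℝ) (h1 : 0 ≤ u) (h2 : u ≤ 2 / 3) :
    1 + u + u ^ 2 / 2 + u ^ 3 / 6 + u ^ 4 / 24 + u ^ 5 / 100 ≤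
      (1 + 1 / 100 + (1 / 100) ^ 2 / 2) * (1 + u + 701 / 1000 * u ^ 2) := by
  obtain ⟨s, hs⟩ : ∃ s, s = u - (0) := ⟨_, rfl⟩
  obtain ⟨t, ht⟩ : ∃ t, t = 2 / 3 - u := ⟨_, rfl⟩
  have hs0 : 0 ≤ s := by linarith
  have ht0 : 0 ≤ t := by linarith
  have h : 0 ≤
      48843 / 640000 * t ^ 5 + 276777 / 640000 * s * t ^ 4 +
      267013827 / 160000000 * s ^ 2 * t ^ 3 + 447983481 / 160000000 * s ^ 3 * t ^ 2 +
      300648731 / 160000000 * s ^ 4 * t + 61095577 / 160000000 * s ^ 5 := by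
    positivity
  have e :
      48843 / 640000 * t ^ 5 + 276777 / 640000 * s * t ^ 4 +
      267013827 / 160000000 * s ^ 2 * t ^ 3 + 447983481 / 160000000 * s ^ 3 * t ^ 2 +
      300648731 / 160000000 * s ^ 4 * t + 61095577 / 160000000 * s ^ 5 =
      (1 + 1 / 100 + (1 / 100) ^ 2 / 2) * (1 + u + 701 / 1000 * u ^ 2) -
      (1 + u + u ^ 2 / 2 + u ^ 3 / 6 + u ^ 4 / 24 + u ^ 5 / 100) := by
    rw [hs, ht]
    ring
  rw [e] at h
  linarith

theorem od_five_d32_f0 (u : ℝ) (h1 : 2 / 3 ≤ u) (h2 : u ≤ 1) :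
    97387 / 50000 * (1 + (u - 2 / 3) / 5) ^ 5 ≤
      (1 + 1 / 100 + (1 / 100) ^ 2 / 2) * (1 + u + 701 / 1000 * u ^ 2) := by
  obtain ⟨s, hs⟩ : ∃ s, s = u - (2 / 3) := ⟨_, rfl⟩
  obtain ⟨t, ht⟩ : ∃ t, t = 1 - u := ⟨_, rfl⟩
  have hs0 : 0 ≤ s := by linarith
  have ht0 : 0 ≤ t := by linarith
  have h : 0 ≤
      61191477 / 5000000 * t ^ 5 + 154268631 / 2500000 * s * t ^ 4 +
      2450569599 / 20000000 * s ^ 2 * t ^ 3 + 2366426133 / 20000000 * s ^ 3 * t ^ 2 +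
      5464876029 / 100000000 * s ^ 4 * t + 23465383283 / 2500000000 * s ^ 5 := by
    positivity
  have e :
      61191477 / 5000000 * t ^ 5 + 154268631 / 2500000 * s * t ^ 4 +
      2450569599 / 20000000 * s ^ 2 * t ^ 3 + 2366426133 / 20000000 * s ^ 3 * t ^ 2 +
      5464876029 / 100000000 * s ^ 4 * t + 23465383283 / 2500000000 * s ^ 5 =
      (1 + 1 / 100 + (1 / 100) ^ 2 / 2) * (1 + u + 701 / 1000 * u ^ 2) -
      (97387 / 50000 * (1 + (u - 2 / 3) / 5) ^ 5) := by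
    rw [hs, ht]
    ring
  rw [e] at h
  linarith

theorem od_five_d32_g0 (u : ℝ) (h1 : 1 ≤ u) (h2 : u ≤ 3) :
    97387 / 50000 * (1 + (u - 2 / 3) / 5) ^ 5 ≤
      (1 + 1 / 100 + (1 / 100) ^ 2 / 2) * ((1 + (3 / 100 * (u ^ 2 - 1)) +
      (3 / 100 * (u ^ 2 - 1)) ^ 2 / 2 +
      (3 / 100 * (u ^ 2 - 1)) ^ 3 / 6) *
      (1 + u + 701 / 1000 * u ^ 2)) := by
  obtain ⟨s, hs⟩ : ∃ s, s = u - (1) := ⟨_, rfl⟩
  obtain ⟨t, ht⟩ : ∃ t, t = 3 - u := ⟨_, rfl⟩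
  have hs0 : 0 ≤ s := by linarith
  have ht0 : 0 ≤ t := by linarith
  have h : 0 ≤
      23465383283 / 155520000000000 * t ^ 8 + 270834934549 / 155520000000000 * s * t ^ 7 +
      12262615930727 / 1555200000000000 * s ^ 2 * t ^ 6 +
      682060928586337 / 38880000000000000 * s ^ 3 * t ^ 5 +
      399737832326497 / 19440000000000000 * s ^ 4 * t ^ 4 +
      476900430981709 / 38880000000000000 * s ^ 5 * t ^ 3 +
      117826013276033 / 38880000000000000 * s ^ 6 * t ^ 2 +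
      2747323711661 / 19440000000000000 * s ^ 7 * t +
      1277599086307 / 19440000000000000 * s ^ 8 := by
    positivity
  have e :
      23465383283 / 155520000000000 * t ^ 8 + 270834934549 / 155520000000000 * s * t ^ 7 +
      12262615930727 / 1555200000000000 * s ^ 2 * t ^ 6 +
      682060928586337 / 38880000000000000 * s ^ 3 * t ^ 5 +
      399737832326497 / 19440000000000000 * s ^ 4 * t ^ 4 +
      476900430981709 / 38880000000000000 * s ^ 5 * t ^ 3 +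
      117826013276033 / 38880000000000000 * s ^ 6 * t ^ 2 +
      2747323711661 / 19440000000000000 * s ^ 7 * t +
      1277599086307 / 19440000000000000 * s ^ 8 =
      (1 + 1 / 100 + (1 / 100) ^ 2 / 2) * ((1 + (3 / 100 * (u ^ 2 - 1)) +
      (3 / 100 * (u ^ 2 - 1)) ^ 2 / 2 +
      (3 / 100 * (u ^ 2 - 1)) ^ 3 / 6) *
      (1 + u + 701 / 1000 * u ^ 2)) -
      (97387 / 50000 * (1 + (u - 2 / 3) / 5) ^ 5) := by
    rw [hs, ht]
    ring
  rw [e] at h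
  linarith

theorem od_five_d32_t (u : ℝ) (h1 : 3 ≤ u) :
    97387 / 50000 * (1 + (u - 2 / 3) / 5) ^ 5 ≤
      (1 + 1 / 100 + (1 / 100) ^ 2 / 2) * ((1 + (3 / 100 * (u ^ 2 - 1)) +
      (3 / 100 * (u ^ 2 - 1)) ^ 2 / 2 +
      (3 / 100 * (u ^ 2 - 1)) ^ 3 / 6) *
      (1 + u + 701 / 1000 * u ^ 2)) := by
  obtain ⟨s, hs⟩ : ∃ s, s = u - (3) := ⟨_, rfl⟩
  have hs0 : 0 ≤ s := by linarith
  have h : 0 ≤
      1277599086307 / 75937500000000 + 498231265253 / 10125000000000 * s +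
      16767670016219 / 67500000000000 * s ^ 2 + 9546635201893 / 45000000000000 * s ^ 3 +
      1042684698467 / 15000000000000 * s ^ 4 + 222782401561 / 20000000000000 * s ^ 5 +
      48479188041 / 40000000000000 * s ^ 6 + 101267613 / 1250000000000 * s ^ 7 +
      127448109 / 40000000000000 * s ^ 8 := by
    positivity
  have e :
      1277599086307 / 75937500000000 + 498231265253 / 10125000000000 * s +
      16767670016219 / 67500000000000 * s ^ 2 + 9546635201893 / 45000000000000 * s ^ 3 +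
      1042684698467 / 15000000000000 * s ^ 4 + 222782401561 / 20000000000000 * s ^ 5 +
      48479188041 / 40000000000000 * s ^ 6 + 101267613 / 1250000000000 * s ^ 7 +
      127448109 / 40000000000000 * s ^ 8 =
      (1 + 1 / 100 + (1 / 100) ^ 2 / 2) * ((1 + (3 / 100 * (u ^ 2 - 1)) +
      (3 / 100 * (u ^ 2 - 1)) ^ 2 / 2 +
      (3 / 100 * (u ^ 2 - 1)) ^ 3 / 6) *
      (1 + u + 701 / 1000 * u ^ 2)) -
      (97387 / 50000 * (1 + (u - 2 / 3) / 5) ^ 5) := by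
    rw [hs]
    ring
  rw [e] at h
  linarith

/-- `K = 5`: `(c, μ, P, δ) = (701 / 1000, 3 / 100, 2 / 3, 1 / 100)` -/
theorem expOd_five_d32 : ExpOd 5 (701 / 1000) (3 / 100) (2 / 3) (1 / 100) := by
  have hde : (1 + 1 / 100 + (1 / 100) ^ 2 / 2) ≤ Real.exp (1 / 100) := Real.quadratic_le_exp_of_nonneg (by norm_num)
  have hq : ∀ u : ℝ, 0 ≤ 1 + u + 701 / 1000 * u ^ 2 := fun u => by
    nlinarith [sq_nonneg (u + 2), sq_nonneg u]
  have hR : ∀ (u x y : ℝ), x ≤ y → y ≤ (1 + 1 / 100 + (1 / 100) ^ 2 / 2) * (1 + u + 701 / 1000 * u ^ 2) →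
      x ≤ Real.exp (1 / 100) * (1 + u + 701 / 1000 * u ^ 2) := fun u x y h1 h2 =>
    (h1.trans h2).trans (mul_le_mul_of_nonneg_right hde (hq u))
  refine ExpOd.of (by norm_num) (by norm_num) (by norm_num) (by norm_num) (by norm_num) ?_ ?_ ?_
  · intro u h1
    rcases le_total u (-3) with h3 | h3
    · exact hR u _ _ (exp_le_n3 h3) (od_five_d32_d u h3)
    rcases le_total u (-2) with h4 | h4
    · refine hR u _ _ (exp_le_n2 h4) ?_
      exact od_five_d32_c0 u (by linarith) (by linarith)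
    rcases le_total u (-1) with h5 | h5
    · refine hR u _ _ (exp_le_n1 h5) ?_
      exact od_five_d32_b0 u (by linarith) (by linarith)
    rcases le_total u 0 with h6 | h6
    · refine hR u _ _ (exp_le_n0 h6) ?_
      exact od_five_d32_a0 u (by linarith) (by linarith)
    refine hR u _ _ (exp_le_p h6 (by linarith)) ?_
    exact od_five_d32_e0 u (by linarith) (by linarith)
  · intro u h1 h2
    have h4 : 0 ≤ (1 + (u - 2 / 3) / 5) ^ 5 := by
      have : 0 ≤ (u - 2 / 3) / 5 := div_nonneg (by linarith) (by norm_num)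
      positivity
    have hE : Real.exp (2 / 3) ≤ 97387 / 50000 := exp_up_2_3
    push_cast
    refine hR u _ _ (mul_le_mul_of_nonneg_right hE h4) ?_
    exact od_five_d32_f0 u (by linarith) (by linarith)
  · intro u h1
    have h4 : 0 ≤ (1 + (u - 2 / 3) / 5) ^ 5 := by
      have : 0 ≤ (u - 2 / 3) / 5 := div_nonneg (by linarith) (by norm_num)
      positivity
    have hE : Real.exp (2 / 3) ≤ 97387 / 50000 := exp_up_2_3
    have hx : 0 ≤ 3 / 100 * (u ^ 2 - 1) := mul_nonneg (by norm_num) (by nlinarith)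
    have h5 := mul_le_mul_of_nonneg_right (taylor3_le_exp _ hx) (hq u)
    have h6 : 0 ≤ Real.exp (3 / 100 * (u ^ 2 - 1)) * (1 + u + 701 / 1000 * u ^ 2) :=
      mul_nonneg (Real.exp_nonneg _) (hq u)
    rw [Real.exp_add, mul_assoc]
    push_cast
    refine ((mul_le_mul_of_nonneg_right hE h4).trans ?_).trans
      ((mul_le_mul_of_nonneg_left h5 (by norm_num : (0 : ℝ) ≤ (1 + 1 / 100 + (1 / 100) ^ 2 / 2))).trans
        (mul_le_mul_of_nonneg_right hde h6))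
    rcases le_total u (3) with hh | hh
    · exact od_five_d32_g0 u (by linarith) (by linarith)
    exact od_five_d32_t u (by linarith)

theorem od_five_d33_a0 (u : ℝ) (h1 : -1 ≤ u) (h2 : u ≤ 0) :
    1 + u + u ^ 2 / 2 + u ^ 3 / 6 + u ^ 4 / 24 ≤
      (1 + 3 / 100 + (3 / 100) ^ 2 / 2) * (1 + u + 619 / 1000 * u ^ 2) := by
  obtain ⟨s, hs⟩ : ∃ s, s = u - (-1) := ⟨_, rfl⟩
  obtain ⟨t, ht⟩ : ∃ t, t = 0 - u := ⟨_, rfl⟩
  have hs0 : 0 ≤ s := by linarith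
  have ht0 : 0 ≤ t := by linarith
  have h : 0 ≤
      5256971 / 20000000 * t ^ 4 + 14184413 / 30000000 * s * t ^ 3 +
      4583971 / 20000000 * s ^ 2 * t ^ 2 + 1827 / 20000 * s ^ 3 * t + 609 / 20000 * s ^ 4 := by
    positivity
  have e :
      5256971 / 20000000 * t ^ 4 + 14184413 / 30000000 * s * t ^ 3 +
      4583971 / 20000000 * s ^ 2 * t ^ 2 + 1827 / 20000 * s ^ 3 * t + 609 / 20000 * s ^ 4 =
      (1 + 3 / 100 + (3 / 100) ^ 2 / 2) * (1 + u + 619 / 1000 * u ^ 2) -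
      (1 + u + u ^ 2 / 2 + u ^ 3 / 6 + u ^ 4 / 24) := by
    rw [hs, ht]
    ring
  rw [e] at h
  linarith

theorem od_five_d33_b0 (u : ℝ) (h1 : -2 ≤ u) (h2 : u ≤ -1) :
    36788 / 100000 *
      (1 + (u + 1) + (u + 1) ^ 2 / 2 + (u + 1) ^ 3 / 6 + (u + 1) ^ 4 / 24) ≤
      (1 + 3 / 100 + (3 / 100) ^ 2 / 2) * (1 + u + 619 / 1000 * u ^ 2) := by
  obtain ⟨s, hs⟩ : ∃ s, s = u - (-2) := ⟨_, rfl⟩
  obtain ⟨t, ht⟩ : ∃ t, t = -1 - u := ⟨_, rfl⟩
  have hs0 : 0 ≤ s := by linarith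
  have ht0 : 0 ≤ t := by linarith
  have h : 0 ≤
      3457473 / 2500000 * t ^ 4 + 58325789 / 15000000 * s * t ^ 3 +
      78262023 / 20000000 * s ^ 2 * t ^ 2 + 16930013 / 10000000 * s ^ 3 * t +
      5399371 / 20000000 * s ^ 4 := by
    positivity
  have e :
      3457473 / 2500000 * t ^ 4 + 58325789 / 15000000 * s * t ^ 3 +
      78262023 / 20000000 * s ^ 2 * t ^ 2 + 16930013 / 10000000 * s ^ 3 * t +
      5399371 / 20000000 * s ^ 4 =
      (1 + 3 / 100 + (3 / 100) ^ 2 / 2) * (1 + u + 619 / 1000 * u ^ 2) -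
      (36788 / 100000 *
      (1 + (u + 1) + (u + 1) ^ 2 / 2 + (u + 1) ^ 3 / 6 + (u + 1) ^ 4 / 24)) := by
    rw [hs, ht]
    ring
  rw [e] at h
  linarith

theorem od_five_d33_c0 (u : ℝ) (h1 : -3 ≤ u) (h2 : u ≤ -2) :
    13534 / 100000 *
      (1 + (u + 2) + (u + 2) ^ 2 / 2 + (u + 2) ^ 3 / 6 + (u + 2) ^ 4 / 24) ≤
      (1 + 3 / 100 + (3 / 100) ^ 2 / 2) * (1 + u + 619 / 1000 * u ^ 2) := by
  obtain ⟨s, hs⟩ : ∃ s, s = u - (-3) := ⟨_, rfl⟩
  obtain ⟨t, ht⟩ : ∃ t, t = -2 - u := ⟨_, rfl⟩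
  have hs0 : 0 ≤ s := by linarith
  have ht0 : 0 ≤ t := by linarith
  have h : 0 ≤
      72579689 / 20000000 * t ^ 4 + 70045099 / 6000000 * s * t ^ 3 +
      277053127 / 20000000 * s ^ 2 * t ^ 2 + 7198701 / 1000000 * s ^ 3 * t +
      6928021 / 5000000 * s ^ 4 := by
    positivity
  have e :
      72579689 / 20000000 * t ^ 4 + 70045099 / 6000000 * s * t ^ 3 +
      277053127 / 20000000 * s ^ 2 * t ^ 2 + 7198701 / 1000000 * s ^ 3 * t +
      6928021 / 5000000 * s ^ 4 =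
      (1 + 3 / 100 + (3 / 100) ^ 2 / 2) * (1 + u + 619 / 1000 * u ^ 2) -
      (13534 / 100000 *
      (1 + (u + 2) + (u + 2) ^ 2 / 2 + (u + 2) ^ 3 / 6 + (u + 2) ^ 4 / 24)) := by
    rw [hs, ht]
    ring
  rw [e] at h
  linarith

theorem od_five_d33_d (u : ℝ) (h2 : u ≤ -3) :
    4979 / 100000 ≤
      (1 + 3 / 100 + (3 / 100) ^ 2 / 2) * (1 + u + 619 / 1000 * u ^ 2) := by
  obtain ⟨s, hs⟩ : ∃ s, s = -3 - u := ⟨_, rfl⟩
  have hs0 : 0 ≤ s := by linarith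
  have h : 0 ≤
      72598939 / 20000000 + 27966413 / 10000000 * s + 12756971 / 20000000 * s ^ 2 := by
    positivity
  have e :
      72598939 / 20000000 + 27966413 / 10000000 * s + 12756971 / 20000000 * s ^ 2 =
      (1 + 3 / 100 + (3 / 100) ^ 2 / 2) * (1 + u + 619 / 1000 * u ^ 2) -
      (4979 / 100000) := by
    rw [hs]
    ring
  rw [e] at h
  linarith

theorem od_five_d33_e0 (u : ℝ) (h1 : 0 ≤ u) (h2 : u ≤ 2 / 3) :
    1 + u + u ^ 2 / 2 + u ^ 3 / 6 + u ^ 4 / 24 + u ^ 5 / 100 ≤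
      (1 + 3 / 100 + (3 / 100) ^ 2 / 2) * (1 + u + 619 / 1000 * u ^ 2) := by
  obtain ⟨s, hs⟩ : ∃ s, s = u - (0) := ⟨_, rfl⟩
  obtain ⟨t, ht⟩ : ∃ t, t = 2 / 3 - u := ⟨_, rfl⟩
  have hs0 : 0 ≤ s := by linarith
  have ht0 : 0 ≤ t := by linarith
  have h : 0 ≤
      147987 / 640000 * t ^ 5 + 838593 / 640000 * s * t ^ 4 +
      543063717 / 160000000 * s ^ 2 * t ^ 3 + 681269151 / 160000000 * s ^ 3 * t ^ 2 +
      376956401 / 160000000 * s ^ 4 * t + 64499467 / 160000000 * s ^ 5 := by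
    positivity
  have e :
      147987 / 640000 * t ^ 5 + 838593 / 640000 * s * t ^ 4 +
      543063717 / 160000000 * s ^ 2 * t ^ 3 + 681269151 / 160000000 * s ^ 3 * t ^ 2 +
      376956401 / 160000000 * s ^ 4 * t + 64499467 / 160000000 * s ^ 5 =
      (1 + 3 / 100 + (3 / 100) ^ 2 / 2) * (1 + u + 619 / 1000 * u ^ 2) -
      (1 + u + u ^ 2 / 2 + u ^ 3 / 6 + u ^ 4 / 24 + u ^ 5 / 100) := by
    rw [hs, ht]
    ring
  rw [e] at h
  linarith

theorem od_five_d33_f0 (u : ℝ) (h1 : 2 / 3 ≤ u) (h2 : u ≤ 1) :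
    97387 / 50000 * (1 + (u - 2 / 3) / 5) ^ 5 ≤
      (1 + 3 / 100 + (3 / 100) ^ 2 / 2) * (1 + u + 619 / 1000 * u ^ 2) := by
  obtain ⟨s, hs⟩ : ∃ s, s = u - (2 / 3) := ⟨_, rfl⟩
  obtain ⟨t, ht⟩ : ∃ t, t = 1 - u := ⟨_, rfl⟩
  have hs0 : 0 ≤ s := by linarith
  have ht0 : 0 ≤ t := by linarith
  have h : 0 ≤
      64595367 / 5000000 * t ^ 5 + 147956301 / 2500000 * s * t ^ 4 +
      2074513329 / 20000000 * s ^ 2 * t ^ 3 + 1677404763 / 20000000 * s ^ 3 * t ^ 2 +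
      2865144579 / 100000000 * s ^ 4 * t + 5607009533 / 2500000000 * s ^ 5 := by
    positivity
  have e :
      64595367 / 5000000 * t ^ 5 + 147956301 / 2500000 * s * t ^ 4 +
      2074513329 / 20000000 * s ^ 2 * t ^ 3 + 1677404763 / 20000000 * s ^ 3 * t ^ 2 +
      2865144579 / 100000000 * s ^ 4 * t + 5607009533 / 2500000000 * s ^ 5 =
      (1 + 3 / 100 + (3 / 100) ^ 2 / 2) * (1 + u + 619 / 1000 * u ^ 2) -
      (97387 / 50000 * (1 + (u - 2 / 3) / 5) ^ 5) := by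
    rw [hs, ht]
    ring
  rw [e] at h
  linarith

theorem od_five_d33_g0 (u : ℝ) (h1 : 1 ≤ u) (h2 : u ≤ 2) :
    97387 / 50000 * (1 + (u - 2 / 3) / 5) ^ 5 ≤
      (1 + 3 / 100 + (3 / 100) ^ 2 / 2) * ((1 + (1 / 25 * (u ^ 2 - 1)) +
      (1 / 25 * (u ^ 2 - 1)) ^ 2 / 2 +
      (1 / 25 * (u ^ 2 - 1)) ^ 3 / 6) *
      (1 + u + 619 / 1000 * u ^ 2)) := by
  obtain ⟨s, hs⟩ : ∃ s, s = u - (1) := ⟨_, rfl⟩
  obtain ⟨t, ht⟩ : ∃ t, t = 2 - u := ⟨_, rfl⟩
  have hs0 : 0 ≤ s := by linarith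
  have ht0 : 0 ≤ t := by linarith
  have h : 0 ≤
      5607009533 / 607500000000 * t ^ 8 + 11308638841 / 151875000000 * s * t ^ 7 +
      6079352417 / 23730468750 * s ^ 2 * t ^ 6 +
      17941337858977 / 37968750000000 * s ^ 3 * t ^ 5 +
      76080307829243 / 151875000000000 * s ^ 4 * t ^ 4 +
      2404773065879 / 7593750000000 * s ^ 5 * t ^ 3 +
      10094627165731 / 75937500000000 * s ^ 6 * t ^ 2 +
      887151835703 / 18984375000000 * s ^ 7 * t + 211066197751 / 18984375000000 * s ^ 8 := by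
    positivity
  have e :
      5607009533 / 607500000000 * t ^ 8 + 11308638841 / 151875000000 * s * t ^ 7 +
      6079352417 / 23730468750 * s ^ 2 * t ^ 6 +
      17941337858977 / 37968750000000 * s ^ 3 * t ^ 5 +
      76080307829243 / 151875000000000 * s ^ 4 * t ^ 4 +
      2404773065879 / 7593750000000 * s ^ 5 * t ^ 3 +
      10094627165731 / 75937500000000 * s ^ 6 * t ^ 2 +
      887151835703 / 18984375000000 * s ^ 7 * t + 211066197751 / 18984375000000 * s ^ 8 =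
      (1 + 3 / 100 + (3 / 100) ^ 2 / 2) * ((1 + (1 / 25 * (u ^ 2 - 1)) +
      (1 / 25 * (u ^ 2 - 1)) ^ 2 / 2 +
      (1 / 25 * (u ^ 2 - 1)) ^ 3 / 6) *
      (1 + u + 619 / 1000 * u ^ 2)) -
      (97387 / 50000 * (1 + (u - 2 / 3) / 5) ^ 5) := by
    rw [hs, ht]
    ring
  rw [e] at h
  linarith

theorem od_five_d33_t (u : ℝ) (h1 : 2 ≤ u) :
    97387 / 50000 * (1 + (u - 2 / 3) / 5) ^ 5 ≤
      (1 + 3 / 100 + (3 / 100) ^ 2 / 2) * ((1 + (1 / 25 * (u ^ 2 - 1)) +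
      (1 / 25 * (u ^ 2 - 1)) ^ 2 / 2 +
      (1 / 25 * (u ^ 2 - 1)) ^ 3 / 6) *
      (1 + u + 619 / 1000 * u ^ 2)) := by
  obtain ⟨s, hs⟩ : ∃ s, s = u - (2) := ⟨_, rfl⟩
  have hs0 : 0 ≤ s := by linarith
  have h : 0 ≤
      211066197751 / 18984375000000 + 53425183087 / 1265625000000 * s +
      988198879351 / 8437500000000 * s ^ 2 + 1342318639 / 10986328125 * s ^ 3 +
      101683616753 / 1875000000000 * s ^ 4 + 74339117 / 7324218750 * s ^ 5 +
      20753263 / 14648437500 * s ^ 6 + 28090067 / 234375000000 * s ^ 7 +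
      12756971 / 1875000000000 * s ^ 8 := by
    positivity
  have e :
      211066197751 / 18984375000000 + 53425183087 / 1265625000000 * s +
      988198879351 / 8437500000000 * s ^ 2 + 1342318639 / 10986328125 * s ^ 3 +
      101683616753 / 1875000000000 * s ^ 4 + 74339117 / 7324218750 * s ^ 5 +
      20753263 / 14648437500 * s ^ 6 + 28090067 / 234375000000 * s ^ 7 +
      12756971 / 1875000000000 * s ^ 8 =
      (1 + 3 / 100 + (3 / 100) ^ 2 / 2) * ((1 + (1 / 25 * (u ^ 2 - 1)) +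
      (1 / 25 * (u ^ 2 - 1)) ^ 2 / 2 +
      (1 / 25 * (u ^ 2 - 1)) ^ 3 / 6) *
      (1 + u + 619 / 1000 * u ^ 2)) -
      (97387 / 50000 * (1 + (u - 2 / 3) / 5) ^ 5) := by
    rw [hs]
    ring
  rw [e] at h
  linarith

/-- `K = 5`: `(c, μ, P, δ) = (619 / 1000, 1 / 25, 2 / 3, 3 / 100)` -/
theorem expOd_five_d33 : ExpOd 5 (619 / 1000) (1 / 25) (2 / 3) (3 / 100) := by
  have hde : (1 + 3 / 100 + (3 / 100) ^ 2 / 2) ≤ Real.exp (3 / 100) := Real.quadratic_le_exp_of_nonneg (by norm_num)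
  have hq : ∀ u : ℝ, 0 ≤ 1 + u + 619 / 1000 * u ^ 2 := fun u => by
    nlinarith [sq_nonneg (u + 2), sq_nonneg u]
  have hR : ∀ (u x y : ℝ), x ≤ y → y ≤ (1 + 3 / 100 + (3 / 100) ^ 2 / 2) * (1 + u + 619 / 1000 * u ^ 2) →
      x ≤ Real.exp (3 / 100) * (1 + u + 619 / 1000 * u ^ 2) := fun u x y h1 h2 =>
    (h1.trans h2).trans (mul_le_mul_of_nonneg_right hde (hq u))
  refine ExpOd.of (by norm_num) (by norm_num) (by norm_num) (by norm_num) (by norm_num) ?_ ?_ ?_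
  · intro u h1
    rcases le_total u (-3) with h3 | h3
    · exact hR u _ _ (exp_le_n3 h3) (od_five_d33_d u h3)
    rcases le_total u (-2) with h4 | h4
    · refine hR u _ _ (exp_le_n2 h4) ?_
      exact od_five_d33_c0 u (by linarith) (by linarith)
    rcases le_total u (-1) with h5 | h5
    · refine hR u _ _ (exp_le_n1 h5) ?_
      exact od_five_d33_b0 u (by linarith) (by linarith)
    rcases le_total u 0 with h6 | h6
    · refine hR u _ _ (exp_le_n0 h6) ?_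
      exact od_five_d33_a0 u (by linarith) (by linarith)
    refine hR u _ _ (exp_le_p h6 (by linarith)) ?_
    exact od_five_d33_e0 u (by linarith) (by linarith)
  · intro u h1 h2
    have h4 : 0 ≤ (1 + (u - 2 / 3) / 5) ^ 5 := by
      have : 0 ≤ (u - 2 / 3) / 5 := div_nonneg (by linarith) (by norm_num)
      positivity
    have hE : Real.exp (2 / 3) ≤ 97387 / 50000 := exp_up_2_3
    push_cast
    refine hR u _ _ (mul_le_mul_of_nonneg_right hE h4) ?_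
    exact od_five_d33_f0 u (by linarith) (by linarith)
  · intro u h1
    have h4 : 0 ≤ (1 + (u - 2 / 3) / 5) ^ 5 := by
      have : 0 ≤ (u - 2 / 3) / 5 := div_nonneg (by linarith) (by norm_num)
      positivity
    have hE : Real.exp (2 / 3) ≤ 97387 / 50000 := exp_up_2_3
    have hx : 0 ≤ 1 / 25 * (u ^ 2 - 1) := mul_nonneg (by norm_num) (by nlinarith)
    have h5 := mul_le_mul_of_nonneg_right (taylor3_le_exp _ hx) (hq u)
    have h6 : 0 ≤ Real.exp (1 / 25 * (u ^ 2 - 1)) * (1 + u + 619 / 1000 * u ^ 2) :=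
      mul_nonneg (Real.exp_nonneg _) (hq u)
    rw [Real.exp_add, mul_assoc]
    push_cast
    refine ((mul_le_mul_of_nonneg_right hE h4).trans ?_).trans
      ((mul_le_mul_of_nonneg_left h5 (by norm_num : (0 : ℝ) ≤ (1 + 3 / 100 + (3 / 100) ^ 2 / 2))).trans
        (mul_le_mul_of_nonneg_right hde h6))
    rcases le_total u (2) with hh | hh
    · exact od_five_d33_g0 u (by linarith) (by linarith)
    exact od_five_d33_t u (by linarith)

theorem od_five_d34_a0 (u : ℝ) (h1 : -1 ≤ u) (h2 : u ≤ 0) :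
    1 + u + u ^ 2 / 2 + u ^ 3 / 6 + u ^ 4 / 24 ≤
      (1 + 1 / 10 + (1 / 10) ^ 2 / 2) * (1 + u + 531 / 1000 * u ^ 2) := by
  obtain ⟨s, hs⟩ : ∃ s, s = u - (-1) := ⟨_, rfl⟩
  obtain ⟨t, ht⟩ : ∃ t, t = 0 - u := ⟨_, rfl⟩
  have hs0 : 0 ≤ s := by linarith
  have ht0 : 0 ≤ t := by linarith
  have h : 0 ≤
      42351 / 200000 * t ^ 4 + 133553 / 300000 * s * t ^ 3 + 80351 / 200000 * s ^ 2 * t ^ 2 +
      63 / 200 * s ^ 3 * t + 21 / 200 * s ^ 4 := by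
    positivity
  have e :
      42351 / 200000 * t ^ 4 + 133553 / 300000 * s * t ^ 3 + 80351 / 200000 * s ^ 2 * t ^ 2 +
      63 / 200 * s ^ 3 * t + 21 / 200 * s ^ 4 =
      (1 + 1 / 10 + (1 / 10) ^ 2 / 2) * (1 + u + 531 / 1000 * u ^ 2) -
      (1 + u + u ^ 2 / 2 + u ^ 3 / 6 + u ^ 4 / 24) := by
    rw [hs, ht]
    ring
  rw [e] at h
  linarith

theorem od_five_d34_b0 (u : ℝ) (h1 : -2 ≤ u) (h2 : u ≤ -1) :
    36788 / 100000 *
      (1 + (u + 1) + (u + 1) ^ 2 / 2 + (u + 1) ^ 3 / 6 + (u + 1) ^ 4 / 24) ≤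
      (1 + 1 / 10 + (1 / 10) ^ 2 / 2) * (1 + u + 531 / 1000 * u ^ 2) := by
  obtain ⟨s, hs⟩ : ∃ s, s = u - (-2) := ⟨_, rfl⟩
  obtain ⟨t, ht⟩ : ∃ t, t = -1 - u := ⟨_, rfl⟩
  have hs0 : 0 ≤ s := by linarith
  have ht0 : 0 ≤ t := by linarith
  have h : 0 ≤
      220813 / 200000 * t ^ 4 + 228871 / 75000 * s * t ^ 3 +
      605047 / 200000 * s ^ 2 * t ^ 2 + 131189 / 100000 * s ^ 3 * t + 1751 / 8000 * s ^ 4 := by
    positivity
  have e :
      220813 / 200000 * t ^ 4 + 228871 / 75000 * s * t ^ 3 +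
      605047 / 200000 * s ^ 2 * t ^ 2 + 131189 / 100000 * s ^ 3 * t + 1751 / 8000 * s ^ 4 =
      (1 + 1 / 10 + (1 / 10) ^ 2 / 2) * (1 + u + 531 / 1000 * u ^ 2) -
      (36788 / 100000 *
      (1 + (u + 1) + (u + 1) ^ 2 / 2 + (u + 1) ^ 3 / 6 + (u + 1) ^ 4 / 24)) := by
    rw [hs, ht]
    ring
  rw [e] at h
  linarith

theorem od_five_d34_c0 (u : ℝ) (h1 : -3 ≤ u) (h2 : u ≤ -2) :
    13534 / 100000 *
      (1 + (u + 2) + (u + 2) ^ 2 / 2 + (u + 2) ^ 3 / 6 + (u + 2) ^ 4 / 24) ≤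
      (1 + 1 / 10 + (1 / 10) ^ 2 / 2) * (1 + u + 531 / 1000 * u ^ 2) := by
  obtain ⟨s, hs⟩ : ∃ s, s = u - (-3) := ⟨_, rfl⟩
  obtain ⟨t, ht⟩ : ∃ t, t = -2 - u := ⟨_, rfl⟩
  have hs0 : 0 ≤ s := by linarith
  have ht0 : 0 ≤ t := by linarith
  have h : 0 ≤
      1208017 / 400000 * t ^ 4 + 1442929 / 150000 * s * t ^ 3 +
      2258249 / 200000 * s ^ 2 * t ^ 2 + 72551 / 12500 * s ^ 3 * t + 27667 / 25000 * s ^ 4 := by
    positivity
  have e :
      1208017 / 400000 * t ^ 4 + 1442929 / 150000 * s * t ^ 3 +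
      2258249 / 200000 * s ^ 2 * t ^ 2 + 72551 / 12500 * s ^ 3 * t + 27667 / 25000 * s ^ 4 =
      (1 + 1 / 10 + (1 / 10) ^ 2 / 2) * (1 + u + 531 / 1000 * u ^ 2) -
      (13534 / 100000 *
      (1 + (u + 2) + (u + 2) ^ 2 / 2 + (u + 2) ^ 3 / 6 + (u + 2) ^ 4 / 24)) := by
    rw [hs, ht]
    ring
  rw [e] at h
  linarith

theorem od_five_d34_d (u : ℝ) (h2 : u ≤ -3) :
    4979 / 100000 ≤
      (1 + 1 / 10 + (1 / 10) ^ 2 / 2) * (1 + u + 531 / 1000 * u ^ 2) := by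
  obtain ⟨s, hs⟩ : ∃ s, s = -3 - u := ⟨_, rfl⟩
  have hs0 : 0 ≤ s := by linarith
  have h : 0 ≤
      604201 / 200000 + 241553 / 100000 * s + 117351 / 200000 * s ^ 2 := by
    positivity
  have e :
      604201 / 200000 + 241553 / 100000 * s + 117351 / 200000 * s ^ 2 =
      (1 + 1 / 10 + (1 / 10) ^ 2 / 2) * (1 + u + 531 / 1000 * u ^ 2) -
      (4979 / 100000) := by
    rw [hs]
    ring
  rw [e] at h
  linarith

theorem od_five_d34_e0 (u : ℝ) (h1 : 0 ≤ u) (h2 : u ≤ 2 / 3) :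
    1 + u + u ^ 2 / 2 + u ^ 3 / 6 + u ^ 4 / 24 + u ^ 5 / 100 ≤
      (1 + 1 / 10 + (1 / 10) ^ 2 / 2) * (1 + u + 531 / 1000 * u ^ 2) := by
  obtain ⟨s, hs⟩ : ∃ s, s = u - (0) := ⟨_, rfl⟩
  obtain ⟨t, ht⟩ : ∃ t, t = 2 / 3 - u := ⟨_, rfl⟩
  have hs0 : 0 ≤ s := by linarith
  have ht0 : 0 ≤ t := by linarith
  have h : 0 ≤
      5103 / 6400 * t ^ 5 + 28917 / 6400 * s * t ^ 4 + 16627977 / 1600000 * s ^ 2 * t ^ 3 +
      18665931 / 1600000 * s ^ 3 * t ^ 2 + 9886181 / 1600000 * s ^ 4 * t +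
      1878727 / 1600000 * s ^ 5 := by
    positivity
  have e :
      5103 / 6400 * t ^ 5 + 28917 / 6400 * s * t ^ 4 + 16627977 / 1600000 * s ^ 2 * t ^ 3 +
      18665931 / 1600000 * s ^ 3 * t ^ 2 + 9886181 / 1600000 * s ^ 4 * t +
      1878727 / 1600000 * s ^ 5 =
      (1 + 1 / 10 + (1 / 10) ^ 2 / 2) * (1 + u + 531 / 1000 * u ^ 2) -
      (1 + u + u ^ 2 / 2 + u ^ 3 / 6 + u ^ 4 / 24 + u ^ 5 / 100) := by
    rw [hs, ht]
    ring
  rw [e] at h
  linarith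

theorem od_five_d34_f0 (u : ℝ) (h1 : 2 / 3 ≤ u) (h2 : u ≤ 1) :
    97387 / 50000 * (1 + (u - 2 / 3) / 5) ^ 5 ≤
      (1 + 1 / 10 + (1 / 10) ^ 2 / 2) * (1 + u + 531 / 1000 * u ^ 2) := by
  obtain ⟨s, hs⟩ : ∃ s, s = u - (2 / 3) := ⟨_, rfl⟩
  obtain ⟨t, ht⟩ : ∃ t, t = 1 - u := ⟨_, rfl⟩
  have hs0 : 0 ≤ s := by linarith
  have ht0 : 0 ≤ t := by linarith
  have h : 0 ≤
      939843 / 25000 * t ^ 5 + 915381 / 5000 * s * t ^ 4 +
      351174393 / 1000000 * s ^ 2 * t ^ 3 + 1648004031 / 5000000 * s ^ 3 * t ^ 2 +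
      3749197191 / 25000000 * s ^ 4 * t + 16286481977 / 625000000 * s ^ 5 := by
    positivity
  have e :
      939843 / 25000 * t ^ 5 + 915381 / 5000 * s * t ^ 4 +
      351174393 / 1000000 * s ^ 2 * t ^ 3 + 1648004031 / 5000000 * s ^ 3 * t ^ 2 +
      3749197191 / 25000000 * s ^ 4 * t + 16286481977 / 625000000 * s ^ 5 =
      (1 + 1 / 10 + (1 / 10) ^ 2 / 2) * (1 + u + 531 / 1000 * u ^ 2) -
      (97387 / 50000 * (1 + (u - 2 / 3) / 5) ^ 5) := by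
    rw [hs, ht]
    ring
  rw [e] at h
  linarith

theorem od_five_d34_g0 (u : ℝ) (h1 : 1 ≤ u) (h2 : u ≤ 2) :
    97387 / 50000 * (1 + (u - 2 / 3) / 5) ^ 5 ≤
      (1 + 1 / 10 + (1 / 10) ^ 2 / 2) * ((1 + (1 / 25 * (u ^ 2 - 1)) +
      (1 / 25 * (u ^ 2 - 1)) ^ 2 / 2 +
      (1 / 25 * (u ^ 2 - 1)) ^ 3 / 6) *
      (1 + u + 531 / 1000 * u ^ 2)) := by
  obtain ⟨s, hs⟩ : ∃ s, s = u - (1) := ⟨_, rfl⟩
  obtain ⟨t, ht⟩ : ∃ t, t = 2 - u := ⟨_, rfl⟩
  have hs0 : 0 ≤ s := by linarith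
  have ht0 : 0 ≤ t := by linarith
  have h : 0 ≤
      16286481977 / 151875000000 * t ^ 8 + 31844967349 / 37968750000 * s * t ^ 7 +
      6674709959 / 2373046875 * s ^ 2 * t ^ 6 +
      1991756615317 / 379687500000 * s ^ 3 * t ^ 5 +
      8968898489783 / 1518750000000 * s ^ 4 * t ^ 4 +
      309227834393 / 75937500000 * s ^ 5 * t ^ 3 +
      1261989750931 / 759375000000 * s ^ 6 * t ^ 2 + 4312956878 / 11865234375 * s ^ 7 * t +
      3118290233 / 94921875000 * s ^ 8 := by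
    positivity
  have e :
      16286481977 / 151875000000 * t ^ 8 + 31844967349 / 37968750000 * s * t ^ 7 +
      6674709959 / 2373046875 * s ^ 2 * t ^ 6 +
      1991756615317 / 379687500000 * s ^ 3 * t ^ 5 +
      8968898489783 / 1518750000000 * s ^ 4 * t ^ 4 +
      309227834393 / 75937500000 * s ^ 5 * t ^ 3 +
      1261989750931 / 759375000000 * s ^ 6 * t ^ 2 + 4312956878 / 11865234375 * s ^ 7 * t +
      3118290233 / 94921875000 * s ^ 8 =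
      (1 + 1 / 10 + (1 / 10) ^ 2 / 2) * ((1 + (1 / 25 * (u ^ 2 - 1)) +
      (1 / 25 * (u ^ 2 - 1)) ^ 2 / 2 +
      (1 / 25 * (u ^ 2 - 1)) ^ 3 / 6) *
      (1 + u + 531 / 1000 * u ^ 2)) -
      (97387 / 50000 * (1 + (u - 2 / 3) / 5) ^ 5) := by
    rw [hs, ht]
    ring
  rw [e] at h
  linarith

theorem od_five_d34_g1 (u : ℝ) (h1 : 2 ≤ u) (h2 : u ≤ 5 / 2) :
    97387 / 50000 * (1 + (u - 2 / 3) / 5) ^ 5 ≤
      (1 + 1 / 10 + (1 / 10) ^ 2 / 2) * ((1 + (1 / 25 * (u ^ 2 - 1)) +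
      (1 / 25 * (u ^ 2 - 1)) ^ 2 / 2 +
      (1 / 25 * (u ^ 2 - 1)) ^ 3 / 6) *
      (1 + u + 531 / 1000 * u ^ 2)) := by
  obtain ⟨s, hs⟩ : ∃ s, s = u - (2) := ⟨_, rfl⟩
  obtain ⟨t, ht⟩ : ∃ t, t = 5 / 2 - u := ⟨_, rfl⟩
  have hs0 : 0 ≤ s := by linarith
  have ht0 : 0 ≤ t := by linarith
  have h : 0 ≤
      99785287456 / 11865234375 * t ^ 8 + 645364969088 / 11865234375 * s * t ^ 7 +
      1751848816627 / 11865234375 * s ^ 2 * t ^ 6 +
      2586424717454 / 11865234375 * s ^ 3 * t ^ 5 +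
      18133806898133 / 94921875000 * s ^ 4 * t ^ 4 +
      1240743029762 / 11865234375 * s ^ 5 * t ^ 3 +
      1868512760893 / 47460937500 * s ^ 6 * t ^ 2 + 221808359699 / 18984375000 * s ^ 7 * t +
      657276385387 / 303750000000 * s ^ 8 := by
    positivity
  have e :
      99785287456 / 11865234375 * t ^ 8 + 645364969088 / 11865234375 * s * t ^ 7 +
      1751848816627 / 11865234375 * s ^ 2 * t ^ 6 +
      2586424717454 / 11865234375 * s ^ 3 * t ^ 5 +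
      18133806898133 / 94921875000 * s ^ 4 * t ^ 4 +
      1240743029762 / 11865234375 * s ^ 5 * t ^ 3 +
      1868512760893 / 47460937500 * s ^ 6 * t ^ 2 + 221808359699 / 18984375000 * s ^ 7 * t +
      657276385387 / 303750000000 * s ^ 8 =
      (1 + 1 / 10 + (1 / 10) ^ 2 / 2) * ((1 + (1 / 25 * (u ^ 2 - 1)) +
      (1 / 25 * (u ^ 2 - 1)) ^ 2 / 2 +
      (1 / 25 * (u ^ 2 - 1)) ^ 3 / 6) *
      (1 + u + 531 / 1000 * u ^ 2)) -
      (97387 / 50000 * (1 + (u - 2 / 3) / 5) ^ 5) := by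
    rw [hs, ht]
    ring
  rw [e] at h
  linarith

theorem od_five_d34_g2 (u : ℝ) (h1 : 5 / 2 ≤ u) (h2 : u ≤ 3) :
    97387 / 50000 * (1 + (u - 2 / 3) / 5) ^ 5 ≤
      (1 + 1 / 10 + (1 / 10) ^ 2 / 2) * ((1 + (1 / 25 * (u ^ 2 - 1)) +
      (1 / 25 * (u ^ 2 - 1)) ^ 2 / 2 +
      (1 / 25 * (u ^ 2 - 1)) ^ 3 / 6) *
      (1 + u + 531 / 1000 * u ^ 2)) := by
  obtain ⟨s, hs⟩ : ∃ s, s = u - (5 / 2) := ⟨_, rfl⟩
  obtain ⟨t, ht⟩ : ∃ t, t = 3 - u := ⟨_, rfl⟩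
  have hs0 : 0 ≤ s := by linarith
  have ht0 : 0 ≤ t := by linarith
  have h : 0 ≤
      657276385387 / 303750000000 * t ^ 8 + 54433503211 / 2373046875 * s * t ^ 7 +
      11215113831401 / 94921875000 * s ^ 2 * t ^ 6 +
      4222193112992 / 11865234375 * s ^ 3 * t ^ 5 +
      62610927131183 / 94921875000 * s ^ 4 * t ^ 4 +
      9034592508359 / 11865234375 * s ^ 5 * t ^ 3 +
      6335880382432 / 11865234375 * s ^ 6 * t ^ 2 + 2474046122168 / 11865234375 * s ^ 7 * t +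
      413188972276 / 11865234375 * s ^ 8 := by
    positivity
  have e :
      657276385387 / 303750000000 * t ^ 8 + 54433503211 / 2373046875 * s * t ^ 7 +
      11215113831401 / 94921875000 * s ^ 2 * t ^ 6 +
      4222193112992 / 11865234375 * s ^ 3 * t ^ 5 +
      62610927131183 / 94921875000 * s ^ 4 * t ^ 4 +
      9034592508359 / 11865234375 * s ^ 5 * t ^ 3 +
      6335880382432 / 11865234375 * s ^ 6 * t ^ 2 + 2474046122168 / 11865234375 * s ^ 7 * t +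
      413188972276 / 11865234375 * s ^ 8 =
      (1 + 1 / 10 + (1 / 10) ^ 2 / 2) * ((1 + (1 / 25 * (u ^ 2 - 1)) +
      (1 / 25 * (u ^ 2 - 1)) ^ 2 / 2 +
      (1 / 25 * (u ^ 2 - 1)) ^ 3 / 6) *
      (1 + u + 531 / 1000 * u ^ 2)) -
      (97387 / 50000 * (1 + (u - 2 / 3) / 5) ^ 5) := by
    rw [hs, ht]
    ring
  rw [e] at h
  linarith

theorem od_five_d34_t (u : ℝ) (h1 : 3 ≤ u) :
    97387 / 50000 * (1 + (u - 2 / 3) / 5) ^ 5 ≤
      (1 + 1 / 10 + (1 / 10) ^ 2 / 2) * ((1 + (1 / 25 * (u ^ 2 - 1)) +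
      (1 / 25 * (u ^ 2 - 1)) ^ 2 / 2 +
      (1 / 25 * (u ^ 2 - 1)) ^ 3 / 6) *
      (1 + u + 531 / 1000 * u ^ 2)) := by
  obtain ⟨s, hs⟩ : ∃ s, s = u - (3) := ⟨_, rfl⟩
  have hs0 : 0 ≤ s := by linarith
  have h : 0 ≤
      103297243069 / 759375000000 + 6928880467 / 12656250000 * s +
      8150677097 / 10546875000 * s ^ 2 + 6085321043 / 14062500000 * s ^ 3 +
      2293616743 / 18750000000 * s ^ 4 + 15812257 / 781250000 * s ^ 5 +
      10720931 / 4687500000 * s ^ 6 + 189839 / 1171875000 * s ^ 7 + 39117 / 6250000000 * s ^ 8 := by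
    positivity
  have e :
      103297243069 / 759375000000 + 6928880467 / 12656250000 * s +
      8150677097 / 10546875000 * s ^ 2 + 6085321043 / 14062500000 * s ^ 3 +
      2293616743 / 18750000000 * s ^ 4 + 15812257 / 781250000 * s ^ 5 +
      10720931 / 4687500000 * s ^ 6 + 189839 / 1171875000 * s ^ 7 + 39117 / 6250000000 * s ^ 8 =
      (1 + 1 / 10 + (1 / 10) ^ 2 / 2) * ((1 + (1 / 25 * (u ^ 2 - 1)) +
      (1 / 25 * (u ^ 2 - 1)) ^ 2 / 2 +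
      (1 / 25 * (u ^ 2 - 1)) ^ 3 / 6) *
      (1 + u + 531 / 1000 * u ^ 2)) -
      (97387 / 50000 * (1 + (u - 2 / 3) / 5) ^ 5) := by
    rw [hs]
    ring
  rw [e] at h
  linarith

/-- `K = 5`: `(c, μ, P, δ) = (531 / 1000, 1 / 25, 2 / 3, 1 / 10)` -/
theorem expOd_five_d34 : ExpOd 5 (531 / 1000) (1 / 25) (2 / 3) (1 / 10) := by
  have hde : (1 + 1 / 10 + (1 / 10) ^ 2 / 2) ≤ Real.exp (1 / 10) := Real.quadratic_le_exp_of_nonneg (by norm_num)
  have hq : ∀ u : ℝ, 0 ≤ 1 + u + 531 / 1000 * u ^ 2 := fun u => by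
    nlinarith [sq_nonneg (u + 2), sq_nonneg u]
  have hR : ∀ (u x y : ℝ), x ≤ y → y ≤ (1 + 1 / 10 + (1 / 10) ^ 2 / 2) * (1 + u + 531 / 1000 * u ^ 2) →
      x ≤ Real.exp (1 / 10) * (1 + u + 531 / 1000 * u ^ 2) := fun u x y h1 h2 =>
    (h1.trans h2).trans (mul_le_mul_of_nonneg_right hde (hq u))
  refine ExpOd.of (by norm_num) (by norm_num) (by norm_num) (by norm_num) (by norm_num) ?_ ?_ ?_
  · intro u h1
    rcases le_total u (-3) with h3 | h3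
    · exact hR u _ _ (exp_le_n3 h3) (od_five_d34_d u h3)
    rcases le_total u (-2) with h4 | h4
    · refine hR u _ _ (exp_le_n2 h4) ?_
      exact od_five_d34_c0 u (by linarith) (by linarith)
    rcases le_total u (-1) with h5 | h5
    · refine hR u _ _ (exp_le_n1 h5) ?_
      exact od_five_d34_b0 u (by linarith) (by linarith)
    rcases le_total u 0 with h6 | h6
    · refine hR u _ _ (exp_le_n0 h6) ?_
      exact od_five_d34_a0 u (by linarith) (by linarith)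
    refine hR u _ _ (exp_le_p h6 (by linarith)) ?_
    exact od_five_d34_e0 u (by linarith) (by linarith)
  · intro u h1 h2
    have h4 : 0 ≤ (1 + (u - 2 / 3) / 5) ^ 5 := by
      have : 0 ≤ (u - 2 / 3) / 5 := div_nonneg (by linarith) (by norm_num)
      positivity
    have hE : Real.exp (2 / 3) ≤ 97387 / 50000 := exp_up_2_3
    push_cast
    refine hR u _ _ (mul_le_mul_of_nonneg_right hE h4) ?_
    exact od_five_d34_f0 u (by linarith) (by linarith)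
  · intro u h1
    have h4 : 0 ≤ (1 + (u - 2 / 3) / 5) ^ 5 := by
      have : 0 ≤ (u - 2 / 3) / 5 := div_nonneg (by linarith) (by norm_num)
      positivity
    have hE : Real.exp (2 / 3) ≤ 97387 / 50000 := exp_up_2_3
    have hx : 0 ≤ 1 / 25 * (u ^ 2 - 1) := mul_nonneg (by norm_num) (by nlinarith)
    have h5 := mul_le_mul_of_nonneg_right (taylor3_le_exp _ hx) (hq u)
    have h6 : 0 ≤ Real.exp (1 / 25 * (u ^ 2 - 1)) * (1 + u + 531 / 1000 * u ^ 2) :=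
      mul_nonneg (Real.exp_nonneg _) (hq u)
    rw [Real.exp_add, mul_assoc]
    push_cast
    refine ((mul_le_mul_of_nonneg_right hE h4).trans ?_).trans
      ((mul_le_mul_of_nonneg_left h5 (by norm_num : (0 : ℝ) ≤ (1 + 1 / 10 + (1 / 10) ^ 2 / 2))).trans
        (mul_le_mul_of_nonneg_right hde h6))
    rcases le_total u (2) with hh | hh
    · exact od_five_d34_g0 u (by linarith) (by linarith)
    rcases le_total u (5 / 2) with hh | hh
    · exact od_five_d34_g1 u (by linarith) (by linarith)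
    rcases le_total u (3) with hh | hh
    · exact od_five_d34_g2 u (by linarith) (by linarith)
    exact od_five_d34_t u (by linarith)

theorem od_seven_d00_a0 (u : ℝ) (h1 : -1 ≤ u) (h2 : u ≤ 0) :
    1 + u + u ^ 2 / 2 + u ^ 3 / 6 + u ^ 4 / 24 ≤
      1 * (1 + u + 137 / 250 * u ^ 2) := by
  obtain ⟨s, hs⟩ : ∃ s, s = u - (-1) := ⟨_, rfl⟩
  obtain ⟨t, ht⟩ : ∃ t, t = 0 - u := ⟨_, rfl⟩
  have hs0 : 0 ≤ s := by linarith
  have ht0 : 0 ≤ t := by linarith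
  have h : 0 ≤
      173 / 1000 * t ^ 4 + 197 / 750 * s * t ^ 3 + 6 / 125 * s ^ 2 * t ^ 2 := by
    positivity
  have e :
      173 / 1000 * t ^ 4 + 197 / 750 * s * t ^ 3 + 6 / 125 * s ^ 2 * t ^ 2 =
      1 * (1 + u + 137 / 250 * u ^ 2) -
      (1 + u + u ^ 2 / 2 + u ^ 3 / 6 + u ^ 4 / 24) := by
    rw [hs, ht]
    ring
  rw [e] at h
  linarith

theorem od_seven_d00_b0 (u : ℝ) (h1 : -2 ≤ u) (h2 : u ≤ -1) :
    36788 / 100000 *
      (1 + (u + 1) + (u + 1) ^ 2 / 2 + (u + 1) ^ 3 / 6 + (u + 1) ^ 4 / 24) ≤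
      1 * (1 + u + 137 / 250 * u ^ 2) := by
  obtain ⟨s, hs⟩ : ∃ s, s = u - (-2) := ⟨_, rfl⟩
  obtain ⟨t, ht⟩ : ∃ t, t = -1 - u := ⟨_, rfl⟩
  have hs0 : 0 ≤ s := by linarith
  have ht0 : 0 ≤ t := by linarith
  have h : 0 ≤
      210809 / 200000 * t ^ 4 + 435233 / 150000 * s * t ^ 3 +
      141821 / 50000 * s ^ 2 * t ^ 2 + 29609 / 25000 * s ^ 3 * t + 4503 / 25000 * s ^ 4 := by
    positivity
  have e :
      210809 / 200000 * t ^ 4 + 435233 / 150000 * s * t ^ 3 +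
      141821 / 50000 * s ^ 2 * t ^ 2 + 29609 / 25000 * s ^ 3 * t + 4503 / 25000 * s ^ 4 =
      1 * (1 + u + 137 / 250 * u ^ 2) -
      (36788 / 100000 *
      (1 + (u + 1) + (u + 1) ^ 2 / 2 + (u + 1) ^ 3 / 6 + (u + 1) ^ 4 / 24)) := by
    rw [hs, ht]
    ring
  rw [e] at h
  linarith

theorem od_seven_d00_c0 (u : ℝ) (h1 : -3 ≤ u) (h2 : u ≤ -2) :
    13534 / 100000 *
      (1 + (u + 2) + (u + 2) ^ 2 / 2 + (u + 2) ^ 3 / 6 + (u + 2) ^ 4 / 24) ≤
      1 * (1 + u + 137 / 250 * u ^ 2) := by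
  obtain ⟨s, hs⟩ : ∃ s, s = u - (-3) := ⟨_, rfl⟩
  obtain ⟨t, ht⟩ : ∃ t, t = -2 - u := ⟨_, rfl⟩
  have hs0 : 0 ≤ s := by linarith
  have ht0 : 0 ≤ t := by linarith
  have h : 0 ≤
      1152499 / 400000 * t ^ 4 + 2757563 / 300000 * s * t ^ 3 +
      1080231 / 100000 * s ^ 2 * t ^ 2 + 277699 / 50000 * s ^ 3 * t + 52833 / 50000 * s ^ 4 := by
    positivity
  have e :
      1152499 / 400000 * t ^ 4 + 2757563 / 300000 * s * t ^ 3 +
      1080231 / 100000 * s ^ 2 * t ^ 2 + 277699 / 50000 * s ^ 3 * t + 52833 / 50000 * s ^ 4 =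
      1 * (1 + u + 137 / 250 * u ^ 2) -
      (13534 / 100000 *
      (1 + (u + 2) + (u + 2) ^ 2 / 2 + (u + 2) ^ 3 / 6 + (u + 2) ^ 4 / 24)) := by
    rw [hs, ht]
    ring
  rw [e] at h
  linarith

theorem od_seven_d00_d (u : ℝ) (h2 : u ≤ -3) :
    4979 / 100000 ≤
      1 * (1 + u + 137 / 250 * u ^ 2) := by
  obtain ⟨s, hs⟩ : ∃ s, s = -3 - u := ⟨_, rfl⟩
  have hs0 : 0 ≤ s := by linarith
  have h : 0 ≤
      288221 / 100000 + 286 / 125 * s + 137 / 250 * s ^ 2 := by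
    positivity
  have e :
      288221 / 100000 + 286 / 125 * s + 137 / 250 * s ^ 2 =
      1 * (1 + u + 137 / 250 * u ^ 2) -
      (4979 / 100000) := by
    rw [hs]
    ring
  rw [e] at h
  linarith

theorem od_seven_d00_f0 (u : ℝ) (h1 : 0 ≤ u) (h2 : u ≤ 1) :
    1 * (1 + (u - 0) / 7) ^ 7 ≤
      1 * (1 + u + 137 / 250 * u ^ 2) := by
  obtain ⟨s, hs⟩ : ∃ s, s = u - (0) := ⟨_, rfl⟩
  obtain ⟨t, ht⟩ : ∃ t, t = 1 - u := ⟨_, rfl⟩
  have hs0 : 0 ≤ s := by linarith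
  have ht0 : 0 ≤ t := by linarith
  have h : 0 ≤
      209 / 1750 * s ^ 2 * t ^ 5 + 1213 / 2450 * s ^ 3 * t ^ 4 +
      6616 / 8575 * s ^ 4 * t ^ 3 + 32237 / 60025 * s ^ 5 * t ^ 2 +
      119909 / 840350 * s ^ 6 * t + 308891 / 205885750 * s ^ 7 := by
    positivity
  have e :
      209 / 1750 * s ^ 2 * t ^ 5 + 1213 / 2450 * s ^ 3 * t ^ 4 +
      6616 / 8575 * s ^ 4 * t ^ 3 + 32237 / 60025 * s ^ 5 * t ^ 2 +
      119909 / 840350 * s ^ 6 * t + 308891 / 205885750 * s ^ 7 =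
      1 * (1 + u + 137 / 250 * u ^ 2) -
      (1 * (1 + (u - 0) / 7) ^ 7) := by
    rw [hs, ht]
    ring
  rw [e] at h
  linarith

theorem od_seven_d00_g0 (u : ℝ) (h1 : 1 ≤ u) (h2 : u ≤ 3) :
    1 * (1 + (u - 0) / 7) ^ 7 ≤
      1 * ((1 + (1 / 25 * (u ^ 2 - 1)) +
      (1 / 25 * (u ^ 2 - 1)) ^ 2 / 2 +
      (1 / 25 * (u ^ 2 - 1)) ^ 3 / 6) *
      (1 + u + 137 / 250 * u ^ 2)) := by
  obtain ⟨s, hs⟩ : ∃ s, s = u - (1) := ⟨_, rfl⟩
  obtain ⟨t, ht⟩ : ∃ t, t = 3 - u := ⟨_, rfl⟩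
  have hs0 : 0 ≤ s := by linarith
  have ht0 : 0 ≤ t := by linarith
  have h : 0 ≤
      308891 / 52706752000 * t ^ 8 + 199848091 / 329417200000 * s * t ^ 7 +
      577836247 / 147061250000 * s ^ 2 * t ^ 6 +
      898664827079 / 88236750000000 * s ^ 3 * t ^ 5 +
      794497260957 / 58824500000000 * s ^ 4 * t ^ 4 +
      127837479179 / 12605250000000 * s ^ 5 * t ^ 3 +
      221588361293 / 44118375000000 * s ^ 6 * t ^ 2 +
      437589090881 / 205885750000000 * s ^ 7 * t + 1483171092589 / 2470629000000000 * s ^ 8 := by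
    positivity
  have e :
      308891 / 52706752000 * t ^ 8 + 199848091 / 329417200000 * s * t ^ 7 +
      577836247 / 147061250000 * s ^ 2 * t ^ 6 +
      898664827079 / 88236750000000 * s ^ 3 * t ^ 5 +
      794497260957 / 58824500000000 * s ^ 4 * t ^ 4 +
      127837479179 / 12605250000000 * s ^ 5 * t ^ 3 +
      221588361293 / 44118375000000 * s ^ 6 * t ^ 2 +
      437589090881 / 205885750000000 * s ^ 7 * t + 1483171092589 / 2470629000000000 * s ^ 8 =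
      1 * ((1 + (1 / 25 * (u ^ 2 - 1)) +
      (1 / 25 * (u ^ 2 - 1)) ^ 2 / 2 +
      (1 / 25 * (u ^ 2 - 1)) ^ 3 / 6) *
      (1 + u + 137 / 250 * u ^ 2)) -
      (1 * (1 + (u - 0) / 7) ^ 7) := by
    rw [hs, ht]
    ring
  rw [e] at h
  linarith

theorem od_seven_d00_t (u : ℝ) (h1 : 3 ≤ u) :
    1 * (1 + (u - 0) / 7) ^ 7 ≤
      1 * ((1 + (1 / 25 * (u ^ 2 - 1)) +
      (1 / 25 * (u ^ 2 - 1)) ^ 2 / 2 +
      (1 / 25 * (u ^ 2 - 1)) ^ 3 / 6) *
      (1 + u + 137 / 250 * u ^ 2)) := by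
  obtain ⟨s, hs⟩ : ∃ s, s = u - (3) := ⟨_, rfl⟩
  have hs0 : 0 ≤ s := by linarith
  have h : 0 ≤
      1483171092589 / 9650894531250 + 47244997501 / 137869921875 * s +
      306790271266 / 689349609375 * s ^ 2 + 66019862376 / 229783203125 * s ^ 3 +
      84862721203 / 919132812500 * s ^ 4 + 7738977909 / 459566406250 * s ^ 5 +
      1408724578 / 689349609375 * s ^ 6 + 1445128817 / 9650894531250 * s ^ 7 +
      137 / 23437500 * s ^ 8 := by
    positivity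
  have e :
      1483171092589 / 9650894531250 + 47244997501 / 137869921875 * s +
      306790271266 / 689349609375 * s ^ 2 + 66019862376 / 229783203125 * s ^ 3 +
      84862721203 / 919132812500 * s ^ 4 + 7738977909 / 459566406250 * s ^ 5 +
      1408724578 / 689349609375 * s ^ 6 + 1445128817 / 9650894531250 * s ^ 7 +
      137 / 23437500 * s ^ 8 =
      1 * ((1 + (1 / 25 * (u ^ 2 - 1)) +
      (1 / 25 * (u ^ 2 - 1)) ^ 2 / 2 +
      (1 / 25 * (u ^ 2 - 1)) ^ 3 / 6) *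
      (1 + u + 137 / 250 * u ^ 2)) -
      (1 * (1 + (u - 0) / 7) ^ 7) := by
    rw [hs]
    ring
  rw [e] at h
  linarith

/-- `K = 7`: `(c, μ, P, δ) = (137 / 250, 1 / 25, 0, 0)` -/
theorem expOd_seven_d00 : ExpOd 7 (137 / 250) (1 / 25) (0) (0) := by
  have hde : 1 ≤ Real.exp (0) := Real.exp_zero.ge
  have hq : ∀ u : ℝ, 0 ≤ 1 + u + 137 / 250 * u ^ 2 := fun u => by
    nlinarith [sq_nonneg (u + 2), sq_nonneg u]
  have hR : ∀ (u x y : ℝ), x ≤ y → y ≤ 1 * (1 + u + 137 / 250 * u ^ 2) →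
      x ≤ Real.exp (0) * (1 + u + 137 / 250 * u ^ 2) := fun u x y h1 h2 =>
    (h1.trans h2).trans (mul_le_mul_of_nonneg_right hde (hq u))
  refine ExpOd.of (by norm_num) (by norm_num) (by norm_num) (by norm_num) (by norm_num) ?_ ?_ ?_
  · intro u h1
    rcases le_total u (-3) with h3 | h3
    · exact hR u _ _ (exp_le_n3 h3) (od_seven_d00_d u h3)
    rcases le_total u (-2) with h4 | h4
    · refine hR u _ _ (exp_le_n2 h4) ?_
      exact od_seven_d00_c0 u (by linarith) (by linarith)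
    rcases le_total u (-1) with h5 | h5
    · refine hR u _ _ (exp_le_n1 h5) ?_
      exact od_seven_d00_b0 u (by linarith) (by linarith)
    rcases le_total u 0 with h6 | h6
    · refine hR u _ _ (exp_le_n0 h6) ?_
      exact od_seven_d00_a0 u (by linarith) (by linarith)
    have h7 : u = 0 := le_antisymm h1 h6
    refine hR u _ _ (exp_le_n0 h7.le) ?_
    exact od_seven_d00_a0 u (by linarith) (by linarith)
  · intro u h1 h2
    have h4 : 0 ≤ (1 + (u - 0) / 7) ^ 7 := by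
      have : 0 ≤ (u - 0) / 7 := div_nonneg (by linarith) (by norm_num)
      positivity
    have hE : Real.exp (0) ≤ 1 := Real.exp_zero.le
    push_cast
    refine hR u _ _ (mul_le_mul_of_nonneg_right hE h4) ?_
    exact od_seven_d00_f0 u (by linarith) (by linarith)
  · intro u h1
    have h4 : 0 ≤ (1 + (u - 0) / 7) ^ 7 := by
      have : 0 ≤ (u - 0) / 7 := div_nonneg (by linarith) (by norm_num)
      positivity
    have hE : Real.exp (0) ≤ 1 := Real.exp_zero.le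
    have hx : 0 ≤ 1 / 25 * (u ^ 2 - 1) := mul_nonneg (by norm_num) (by nlinarith)
    have h5 := mul_le_mul_of_nonneg_right (taylor3_le_exp _ hx) (hq u)
    have h6 : 0 ≤ Real.exp (1 / 25 * (u ^ 2 - 1)) * (1 + u + 137 / 250 * u ^ 2) :=
      mul_nonneg (Real.exp_nonneg _) (hq u)
    rw [Real.exp_add, mul_assoc]
    push_cast
    refine ((mul_le_mul_of_nonneg_right hE h4).trans ?_).trans
      ((mul_le_mul_of_nonneg_left h5 (by norm_num : (0 : ℝ) ≤ 1)).trans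
        (mul_le_mul_of_nonneg_right hde h6))
    rcases le_total u (3) with hh | hh
    · exact od_seven_d00_g0 u (by linarith) (by linarith)
    exact od_seven_d00_t u (by linarith)

theorem od_seven_d01_a0 (u : ℝ) (h1 : -1 ≤ u) (h2 : u ≤ 0) :
    1 + u + u ^ 2 / 2 + u ^ 3 / 6 + u ^ 4 / 24 ≤
      1 * (1 + u + 137 / 250 * u ^ 2) := by
  obtain ⟨s, hs⟩ : ∃ s, s = u - (-1) := ⟨_, rfl⟩
  obtain ⟨t, ht⟩ : ∃ t, t = 0 - u := ⟨_, rfl⟩
  have hs0 : 0 ≤ s := by linarith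
  have ht0 : 0 ≤ t := by linarith
  have h : 0 ≤
      173 / 1000 * t ^ 4 + 197 / 750 * s * t ^ 3 + 6 / 125 * s ^ 2 * t ^ 2 := by
    positivity
  have e :
      173 / 1000 * t ^ 4 + 197 / 750 * s * t ^ 3 + 6 / 125 * s ^ 2 * t ^ 2 =
      1 * (1 + u + 137 / 250 * u ^ 2) -
      (1 + u + u ^ 2 / 2 + u ^ 3 / 6 + u ^ 4 / 24) := by
    rw [hs, ht]
    ring
  rw [e] at h
  linarith

theorem od_seven_d01_b0 (u : ℝ) (h1 : -2 ≤ u) (h2 : u ≤ -1) :
    36788 / 100000 *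
      (1 + (u + 1) + (u + 1) ^ 2 / 2 + (u + 1) ^ 3 / 6 + (u + 1) ^ 4 / 24) ≤
      1 * (1 + u + 137 / 250 * u ^ 2) := by
  obtain ⟨s, hs⟩ : ∃ s, s = u - (-2) := ⟨_, rfl⟩
  obtain ⟨t, ht⟩ : ∃ t, t = -1 - u := ⟨_, rfl⟩
  have hs0 : 0 ≤ s := by linarith
  have ht0 : 0 ≤ t := by linarith
  have h : 0 ≤
      210809 / 200000 * t ^ 4 + 435233 / 150000 * s * t ^ 3 +
      141821 / 50000 * s ^ 2 * t ^ 2 + 29609 / 25000 * s ^ 3 * t + 4503 / 25000 * s ^ 4 := by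
    positivity
  have e :
      210809 / 200000 * t ^ 4 + 435233 / 150000 * s * t ^ 3 +
      141821 / 50000 * s ^ 2 * t ^ 2 + 29609 / 25000 * s ^ 3 * t + 4503 / 25000 * s ^ 4 =
      1 * (1 + u + 137 / 250 * u ^ 2) -
      (36788 / 100000 *
      (1 + (u + 1) + (u + 1) ^ 2 / 2 + (u + 1) ^ 3 / 6 + (u + 1) ^ 4 / 24)) := by
    rw [hs, ht]
    ring
  rw [e] at h
  linarith

theorem od_seven_d01_c0 (u : ℝ) (h1 : -3 ≤ u) (h2 : u ≤ -2) :
    13534 / 100000 *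
      (1 + (u + 2) + (u + 2) ^ 2 / 2 + (u + 2) ^ 3 / 6 + (u + 2) ^ 4 / 24) ≤
      1 * (1 + u + 137 / 250 * u ^ 2) := by
  obtain ⟨s, hs⟩ : ∃ s, s = u - (-3) := ⟨_, rfl⟩
  obtain ⟨t, ht⟩ : ∃ t, t = -2 - u := ⟨_, rfl⟩
  have hs0 : 0 ≤ s := by linarith
  have ht0 : 0 ≤ t := by linarith
  have h : 0 ≤
      1152499 / 400000 * t ^ 4 + 2757563 / 300000 * s * t ^ 3 +
      1080231 / 100000 * s ^ 2 * t ^ 2 + 277699 / 50000 * s ^ 3 * t + 52833 / 50000 * s ^ 4 := by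
    positivity
  have e :
      1152499 / 400000 * t ^ 4 + 2757563 / 300000 * s * t ^ 3 +
      1080231 / 100000 * s ^ 2 * t ^ 2 + 277699 / 50000 * s ^ 3 * t + 52833 / 50000 * s ^ 4 =
      1 * (1 + u + 137 / 250 * u ^ 2) -
      (13534 / 100000 *
      (1 + (u + 2) + (u + 2) ^ 2 / 2 + (u + 2) ^ 3 / 6 + (u + 2) ^ 4 / 24)) := by
    rw [hs, ht]
    ring
  rw [e] at h
  linarith

theorem od_seven_d01_d (u : ℝ) (h2 : u ≤ -3) :
    4979 / 100000 ≤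
      1 * (1 + u + 137 / 250 * u ^ 2) := by
  obtain ⟨s, hs⟩ : ∃ s, s = -3 - u := ⟨_, rfl⟩
  have hs0 : 0 ≤ s := by linarith
  have h : 0 ≤
      288221 / 100000 + 286 / 125 * s + 137 / 250 * s ^ 2 := by
    positivity
  have e :
      288221 / 100000 + 286 / 125 * s + 137 / 250 * s ^ 2 =
      1 * (1 + u + 137 / 250 * u ^ 2) -
      (4979 / 100000) := by
    rw [hs]
    ring
  rw [e] at h
  linarith

theorem od_seven_d01_f0 (u : ℝ) (h1 : 0 ≤ u) (h2 : u ≤ 1) :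
    1 * (1 + (u - 0) / 7) ^ 7 ≤
      1 * (1 + u + 137 / 250 * u ^ 2) := by
  obtain ⟨s, hs⟩ : ∃ s, s = u - (0) := ⟨_, rfl⟩
  obtain ⟨t, ht⟩ : ∃ t, t = 1 - u := ⟨_, rfl⟩
  have hs0 : 0 ≤ s := by linarith
  have ht0 : 0 ≤ t := by linarith
  have h : 0 ≤
      209 / 1750 * s ^ 2 * t ^ 5 + 1213 / 2450 * s ^ 3 * t ^ 4 +
      6616 / 8575 * s ^ 4 * t ^ 3 + 32237 / 60025 * s ^ 5 * t ^ 2 +
      119909 / 840350 * s ^ 6 * t + 308891 / 205885750 * s ^ 7 := by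
    positivity
  have e :
      209 / 1750 * s ^ 2 * t ^ 5 + 1213 / 2450 * s ^ 3 * t ^ 4 +
      6616 / 8575 * s ^ 4 * t ^ 3 + 32237 / 60025 * s ^ 5 * t ^ 2 +
      119909 / 840350 * s ^ 6 * t + 308891 / 205885750 * s ^ 7 =
      1 * (1 + u + 137 / 250 * u ^ 2) -
      (1 * (1 + (u - 0) / 7) ^ 7) := by
    rw [hs, ht]
    ring
  rw [e] at h
  linarith

theorem od_seven_d01_g0 (u : ℝ) (h1 : 1 ≤ u) (h2 : u ≤ 2) :
    1 * (1 + (u - 0) / 7) ^ 7 ≤
      1 * ((1 + (1 / 20 * (u ^ 2 - 1)) +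
      (1 / 20 * (u ^ 2 - 1)) ^ 2 / 2 +
      (1 / 20 * (u ^ 2 - 1)) ^ 3 / 6) *
      (1 + u + 137 / 250 * u ^ 2)) := by
  obtain ⟨s, hs⟩ : ∃ s, s = u - (1) := ⟨_, rfl⟩
  obtain ⟨t, ht⟩ : ∃ t, t = 2 - u := ⟨_, rfl⟩
  have hs0 : 0 ≤ s := by linarith
  have ht0 : 0 ≤ t := by linarith
  have h : 0 ≤
      308891 / 205885750 * t ^ 8 + 277153491 / 2058857500 * s * t ^ 7 +
      808809669 / 840350000 * s ^ 2 * t ^ 6 + 536668494823 / 176473500000 * s ^ 3 * t ^ 5 +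
      119072939141 / 22059187500 * s ^ 4 * t ^ 4 +
      819870963103 / 141178800000 * s ^ 5 * t ^ 3 +
      1785602902997 / 470596000000 * s ^ 6 * t ^ 2 +
      2301818607399 / 1647086000000 * s ^ 7 * t + 369499696723 / 1647086000000 * s ^ 8 := by
    positivity
  have e :
      308891 / 205885750 * t ^ 8 + 277153491 / 2058857500 * s * t ^ 7 +
      808809669 / 840350000 * s ^ 2 * t ^ 6 + 536668494823 / 176473500000 * s ^ 3 * t ^ 5 +
      119072939141 / 22059187500 * s ^ 4 * t ^ 4 +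
      819870963103 / 141178800000 * s ^ 5 * t ^ 3 +
      1785602902997 / 470596000000 * s ^ 6 * t ^ 2 +
      2301818607399 / 1647086000000 * s ^ 7 * t + 369499696723 / 1647086000000 * s ^ 8 =
      1 * ((1 + (1 / 20 * (u ^ 2 - 1)) +
      (1 / 20 * (u ^ 2 - 1)) ^ 2 / 2 +
      (1 / 20 * (u ^ 2 - 1)) ^ 3 / 6) *
      (1 + u + 137 / 250 * u ^ 2)) -
      (1 * (1 + (u - 0) / 7) ^ 7) := by
    rw [hs, ht]
    ring
  rw [e] at h
  linarith

theorem od_seven_d01_t (u : ℝ) (h1 : 2 ≤ u) :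
    1 * (1 + (u - 0) / 7) ^ 7 ≤
      1 * ((1 + (1 / 20 * (u ^ 2 - 1)) +
      (1 / 20 * (u ^ 2 - 1)) ^ 2 / 2 +
      (1 / 20 * (u ^ 2 - 1)) ^ 3 / 6) *
      (1 + u + 137 / 250 * u ^ 2)) := by
  obtain ⟨s, hs⟩ : ∃ s, s = u - (2) := ⟨_, rfl⟩
  have hs0 : 0 ≤ s := by linarith
  have h : 0 ≤
      369499696723 / 1647086000000 + 18690827611 / 47059600000 * s +
      137963261983 / 470596000000 * s ^ 2 + 122696566219 / 705894000000 * s ^ 3 +
      31558055383 / 470596000000 * s ^ 4 + 9914775883 / 705894000000 * s ^ 5 +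
      3057111047 / 1411788000000 * s ^ 6 + 333182001 / 1647086000000 * s ^ 7 +
      137 / 12000000 * s ^ 8 := by
    positivity
  have e :
      369499696723 / 1647086000000 + 18690827611 / 47059600000 * s +
      137963261983 / 470596000000 * s ^ 2 + 122696566219 / 705894000000 * s ^ 3 +
      31558055383 / 470596000000 * s ^ 4 + 9914775883 / 705894000000 * s ^ 5 +
      3057111047 / 1411788000000 * s ^ 6 + 333182001 / 1647086000000 * s ^ 7 +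
      137 / 12000000 * s ^ 8 =
      1 * ((1 + (1 / 20 * (u ^ 2 - 1)) +
      (1 / 20 * (u ^ 2 - 1)) ^ 2 / 2 +
      (1 / 20 * (u ^ 2 - 1)) ^ 3 / 6) *
      (1 + u + 137 / 250 * u ^ 2)) -
      (1 * (1 + (u - 0) / 7) ^ 7) := by
    rw [hs]
    ring
  rw [e] at h
  linarith

/-- `K = 7`: `(c, μ, P, δ) = (137 / 250, 1 / 20, 0, 0)` -/
theorem expOd_seven_d01 : ExpOd 7 (137 / 250) (1 / 20) (0) (0) := by
  have hde : 1 ≤ Real.exp (0) := Real.exp_zero.ge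
  have hq : ∀ u : ℝ, 0 ≤ 1 + u + 137 / 250 * u ^ 2 := fun u => by
    nlinarith [sq_nonneg (u + 2), sq_nonneg u]
  have hR : ∀ (u x y : ℝ), x ≤ y → y ≤ 1 * (1 + u + 137 / 250 * u ^ 2) →
      x ≤ Real.exp (0) * (1 + u + 137 / 250 * u ^ 2) := fun u x y h1 h2 =>
    (h1.trans h2).trans (mul_le_mul_of_nonneg_right hde (hq u))
  refine ExpOd.of (by norm_num) (by norm_num) (by norm_num) (by norm_num) (by norm_num) ?_ ?_ ?_
  · intro u h1
    rcases le_total u (-3) with h3 | h3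
    · exact hR u _ _ (exp_le_n3 h3) (od_seven_d01_d u h3)
    rcases le_total u (-2) with h4 | h4
    · refine hR u _ _ (exp_le_n2 h4) ?_
      exact od_seven_d01_c0 u (by linarith) (by linarith)
    rcases le_total u (-1) with h5 | h5
    · refine hR u _ _ (exp_le_n1 h5) ?_
      exact od_seven_d01_b0 u (by linarith) (by linarith)
    rcases le_total u 0 with h6 | h6
    · refine hR u _ _ (exp_le_n0 h6) ?_
      exact od_seven_d01_a0 u (by linarith) (by linarith)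
    have h7 : u = 0 := le_antisymm h1 h6
    refine hR u _ _ (exp_le_n0 h7.le) ?_
    exact od_seven_d01_a0 u (by linarith) (by linarith)
  · intro u h1 h2
    have h4 : 0 ≤ (1 + (u - 0) / 7) ^ 7 := by
      have : 0 ≤ (u - 0) / 7 := div_nonneg (by linarith) (by norm_num)
      positivity
    have hE : Real.exp (0) ≤ 1 := Real.exp_zero.le
    push_cast
    refine hR u _ _ (mul_le_mul_of_nonneg_right hE h4) ?_
    exact od_seven_d01_f0 u (by linarith) (by linarith)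
  · intro u h1
    have h4 : 0 ≤ (1 + (u - 0) / 7) ^ 7 := by
      have : 0 ≤ (u - 0) / 7 := div_nonneg (by linarith) (by norm_num)
      positivity
    have hE : Real.exp (0) ≤ 1 := Real.exp_zero.le
    have hx : 0 ≤ 1 / 20 * (u ^ 2 - 1) := mul_nonneg (by norm_num) (by nlinarith)
    have h5 := mul_le_mul_of_nonneg_right (taylor3_le_exp _ hx) (hq u)
    have h6 : 0 ≤ Real.exp (1 / 20 * (u ^ 2 - 1)) * (1 + u + 137 / 250 * u ^ 2) :=
      mul_nonneg (Real.exp_nonneg _) (hq u)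
    rw [Real.exp_add, mul_assoc]
    push_cast
    refine ((mul_le_mul_of_nonneg_right hE h4).trans ?_).trans
      ((mul_le_mul_of_nonneg_left h5 (by norm_num : (0 : ℝ) ≤ 1)).trans
        (mul_le_mul_of_nonneg_right hde h6))
    rcases le_total u (2) with hh | hh
    · exact od_seven_d01_g0 u (by linarith) (by linarith)
    exact od_seven_d01_t u (by linarith)

theorem od_seven_d02_a0 (u : ℝ) (h1 : -1 ≤ u) (h2 : u ≤ 0) :
    1 + u + u ^ 2 / 2 + u ^ 3 / 6 + u ^ 4 / 24 ≤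
      (1 + 1 / 50 + (1 / 50) ^ 2 / 2) * (1 + u + 497 / 1000 * u ^ 2) := by
  obtain ⟨s, hs⟩ : ∃ s, s = u - (-1) := ⟨_, rfl⟩
  obtain ⟨t, ht⟩ : ∃ t, t = 0 - u := ⟨_, rfl⟩
  have hs0 : 0 ≤ s := by linarith
  have ht0 : 0 ≤ t := by linarith
  have h : 0 ≤
      660197 / 5000000 * t ^ 4 + 1507091 / 7500000 * s * t ^ 3 +
      338197 / 5000000 * s ^ 2 * t ^ 2 + 303 / 5000 * s ^ 3 * t + 101 / 5000 * s ^ 4 := by
    positivity
  have e :
      660197 / 5000000 * t ^ 4 + 1507091 / 7500000 * s * t ^ 3 +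
      338197 / 5000000 * s ^ 2 * t ^ 2 + 303 / 5000 * s ^ 3 * t + 101 / 5000 * s ^ 4 =
      (1 + 1 / 50 + (1 / 50) ^ 2 / 2) * (1 + u + 497 / 1000 * u ^ 2) -
      (1 + u + u ^ 2 / 2 + u ^ 3 / 6 + u ^ 4 / 24) := by
    rw [hs, ht]
    ring
  rw [e] at h
  linarith

theorem od_seven_d02_b0 (u : ℝ) (h1 : -2 ≤ u) (h2 : u ≤ -1) :
    36788 / 100000 *
      (1 + (u + 1) + (u + 1) ^ 2 / 2 + (u + 1) ^ 3 / 6 + (u + 1) ^ 4 / 24) ≤
      (1 + 1 / 50 + (1 / 50) ^ 2 / 2) * (1 + u + 497 / 1000 * u ^ 2) := by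
  obtain ⟨s, hs⟩ : ∃ s, s = u - (-2) := ⟨_, rfl⟩
  obtain ⟨t, ht⟩ : ∃ t, t = -1 - u := ⟨_, rfl⟩
  have hs0 : 0 ≤ s := by linarith
  have ht0 : 0 ≤ t := by linarith
  have h : 0 ≤
      4350013 / 5000000 * t ^ 4 + 2202587 / 937500 * s * t ^ 3 +
      11216661 / 5000000 * s ^ 2 * t ^ 2 + 2295991 / 2500000 * s ^ 3 * t +
      695797 / 5000000 * s ^ 4 := by
    positivity
  have e :
      4350013 / 5000000 * t ^ 4 + 2202587 / 937500 * s * t ^ 3 +
      11216661 / 5000000 * s ^ 2 * t ^ 2 + 2295991 / 2500000 * s ^ 3 * t +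
      695797 / 5000000 * s ^ 4 =
      (1 + 1 / 50 + (1 / 50) ^ 2 / 2) * (1 + u + 497 / 1000 * u ^ 2) -
      (36788 / 100000 *
      (1 + (u + 1) + (u + 1) ^ 2 / 2 + (u + 1) ^ 3 / 6 + (u + 1) ^ 4 / 24)) := by
    rw [hs, ht]
    ring
  rw [e] at h
  linarith

theorem od_seven_d02_c0 (u : ℝ) (h1 : -3 ≤ u) (h2 : u ≤ -2) :
    13534 / 100000 *
      (1 + (u + 2) + (u + 2) ^ 2 / 2 + (u + 2) ^ 3 / 6 + (u + 2) ^ 4 / 24) ≤
      (1 + 1 / 50 + (1 / 50) ^ 2 / 2) * (1 + u + 497 / 1000 * u ^ 2) := by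
  obtain ⟨s, hs⟩ : ∃ s, s = u - (-3) := ⟨_, rfl⟩
  obtain ⟨t, ht⟩ : ∃ t, t = -2 - u := ⟨_, rfl⟩
  have hs0 : 0 ≤ s := by linarith
  have ht0 : 0 ≤ t := by linarith
  have h : 0 ≤
      24722021 / 10000000 * t ^ 4 + 1466561 / 187500 * s * t ^ 3 +
      45524839 / 5000000 * s ^ 2 * t ^ 2 + 579221 / 125000 * s ^ 3 * t +
      272693 / 312500 * s ^ 4 := by
    positivity
  have e :
      24722021 / 10000000 * t ^ 4 + 1466561 / 187500 * s * t ^ 3 +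
      45524839 / 5000000 * s ^ 2 * t ^ 2 + 579221 / 125000 * s ^ 3 * t +
      272693 / 312500 * s ^ 4 =
      (1 + 1 / 50 + (1 / 50) ^ 2 / 2) * (1 + u + 497 / 1000 * u ^ 2) -
      (13534 / 100000 *
      (1 + (u + 2) + (u + 2) ^ 2 / 2 + (u + 2) ^ 3 / 6 + (u + 2) ^ 4 / 24)) := by
    rw [hs, ht]
    ring
  rw [e] at h
  linarith

theorem od_seven_d02_d (u : ℝ) (h2 : u ≤ -3) :
    4979 / 100000 ≤
      (1 + 1 / 50 + (1 / 50) ^ 2 / 2) * (1 + u + 497 / 1000 * u ^ 2) := by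
  obtain ⟨s, hs⟩ : ∃ s, s = -3 - u := ⟨_, rfl⟩
  have hs0 : 0 ≤ s := by linarith
  have h : 0 ≤
      12365823 / 5000000 + 5055091 / 2500000 * s + 2535197 / 5000000 * s ^ 2 := by
    positivity
  have e :
      12365823 / 5000000 + 5055091 / 2500000 * s + 2535197 / 5000000 * s ^ 2 =
      (1 + 1 / 50 + (1 / 50) ^ 2 / 2) * (1 + u + 497 / 1000 * u ^ 2) -
      (4979 / 100000) := by
    rw [hs]
    ring
  rw [e] at h
  linarith

theorem od_seven_d02_f0 (u : ℝ) (h1 : 0 ≤ u) (h2 : u ≤ 1) :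
    1 * (1 + (u - 0) / 7) ^ 7 ≤
      (1 + 1 / 50 + (1 / 50) ^ 2 / 2) * (1 + u + 497 / 1000 * u ^ 2) := by
  obtain ⟨s, hs⟩ : ∃ s, s = u - (0) := ⟨_, rfl⟩
  obtain ⟨t, ht⟩ : ∃ t, t = 1 - u := ⟨_, rfl⟩
  have hs0 : 0 ≤ s := by linarith
  have ht0 : 0 ≤ t := by linarith
  have h : 0 ≤
      101 / 5000 * t ^ 7 + 101 / 625 * s * t ^ 6 + 21835379 / 35000000 * s ^ 2 * t ^ 5 +
      63714653 / 49000000 * s ^ 3 * t ^ 4 + 252609071 / 171500000 * s ^ 4 * t ^ 3 +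
      1026011597 / 1200500000 * s ^ 5 * t ^ 2 + 3369574179 / 16807000000 * s ^ 6 * t +
      3869428971 / 4117715000000 * s ^ 7 := by
    positivity
  have e :
      101 / 5000 * t ^ 7 + 101 / 625 * s * t ^ 6 + 21835379 / 35000000 * s ^ 2 * t ^ 5 +
      63714653 / 49000000 * s ^ 3 * t ^ 4 + 252609071 / 171500000 * s ^ 4 * t ^ 3 +
      1026011597 / 1200500000 * s ^ 5 * t ^ 2 + 3369574179 / 16807000000 * s ^ 6 * t +
      3869428971 / 4117715000000 * s ^ 7 =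
      (1 + 1 / 50 + (1 / 50) ^ 2 / 2) * (1 + u + 497 / 1000 * u ^ 2) -
      (1 * (1 + (u - 0) / 7) ^ 7) := by
    rw [hs, ht]
    ring
  rw [e] at h
  linarith

theorem od_seven_d02_g0 (u : ℝ) (h1 : 1 ≤ u) (h2 : u ≤ 2) :
    1 * (1 + (u - 0) / 7) ^ 7 ≤
      (1 + 1 / 50 + (1 / 50) ^ 2 / 2) * ((1 + (1 / 20 * (u ^ 2 - 1)) +
      (1 / 20 * (u ^ 2 - 1)) ^ 2 / 2 +
      (1 / 20 * (u ^ 2 - 1)) ^ 3 / 6) *
      (1 + u + 497 / 1000 * u ^ 2)) := by
  obtain ⟨s, hs⟩ : ∃ s, s = u - (1) := ⟨_, rfl⟩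
  obtain ⟨t, ht⟩ : ∃ t, t = 2 - u := ⟨_, rfl⟩
  have hs0 : 0 ≤ s := by linarith
  have ht0 : 0 ≤ t := by linarith
  have h : 0 ≤
      3869428971 / 4117715000000 * t ^ 8 + 2814587036071 / 41177150000000 * s * t ^ 7 +
      7851666565389 / 16807000000000 * s ^ 2 * t ^ 6 +
      5018483836160563 / 3529470000000000 * s ^ 3 * t ^ 5 +
      4321737369907259 / 1764735000000000 * s ^ 4 * t ^ 4 +
      7298729278152343 / 2823576000000000 * s ^ 5 * t ^ 3 +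
      15835718881401857 / 9411920000000000 * s ^ 6 * t ^ 2 +
      10356658750824447 / 16470860000000000 * s ^ 7 * t +
      1719345131983169 / 16470860000000000 * s ^ 8 := by
    positivity
  have e :
      3869428971 / 4117715000000 * t ^ 8 + 2814587036071 / 41177150000000 * s * t ^ 7 +
      7851666565389 / 16807000000000 * s ^ 2 * t ^ 6 +
      5018483836160563 / 3529470000000000 * s ^ 3 * t ^ 5 +
      4321737369907259 / 1764735000000000 * s ^ 4 * t ^ 4 +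
      7298729278152343 / 2823576000000000 * s ^ 5 * t ^ 3 +
      15835718881401857 / 9411920000000000 * s ^ 6 * t ^ 2 +
      10356658750824447 / 16470860000000000 * s ^ 7 * t +
      1719345131983169 / 16470860000000000 * s ^ 8 =
      (1 + 1 / 50 + (1 / 50) ^ 2 / 2) * ((1 + (1 / 20 * (u ^ 2 - 1)) +
      (1 / 20 * (u ^ 2 - 1)) ^ 2 / 2 +
      (1 / 20 * (u ^ 2 - 1)) ^ 3 / 6) *
      (1 + u + 497 / 1000 * u ^ 2)) -
      (1 * (1 + (u - 0) / 7) ^ 7) := by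
    rw [hs, ht]
    ring
  rw [e] at h
  linarith

theorem od_seven_d02_t (u : ℝ) (h1 : 2 ≤ u) :
    1 * (1 + (u - 0) / 7) ^ 7 ≤
      (1 + 1 / 50 + (1 / 50) ^ 2 / 2) * ((1 + (1 / 20 * (u ^ 2 - 1)) +
      (1 / 20 * (u ^ 2 - 1)) ^ 2 / 2 +
      (1 / 20 * (u ^ 2 - 1)) ^ 3 / 6) *
      (1 + u + 497 / 1000 * u ^ 2)) := by
  obtain ⟨s, hs⟩ : ∃ s, s = u - (2) := ⟨_, rfl⟩
  have hs0 : 0 ≤ s := by linarith
  have h : 0 ≤
      1719345131983169 / 16470860000000000 + 97088637286883 / 470596000000000 * s +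
      1918605989834773 / 9411920000000000 * s ^ 2 +
      267066545275883 / 1764735000000000 * s ^ 3 +
      580191487498673 / 9411920000000000 * s ^ 4 +
      92783418643649 / 7058940000000000 * s ^ 5 +
      57248426458157 / 28235760000000000 * s ^ 6 + 1556933030439 / 8235430000000000 * s ^ 7 +
      2535197 / 240000000000 * s ^ 8 := by
    positivity
  have e :
      1719345131983169 / 16470860000000000 + 97088637286883 / 470596000000000 * s +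
      1918605989834773 / 9411920000000000 * s ^ 2 +
      267066545275883 / 1764735000000000 * s ^ 3 +
      580191487498673 / 9411920000000000 * s ^ 4 +
      92783418643649 / 7058940000000000 * s ^ 5 +
      57248426458157 / 28235760000000000 * s ^ 6 + 1556933030439 / 8235430000000000 * s ^ 7 +
      2535197 / 240000000000 * s ^ 8 =
      (1 + 1 / 50 + (1 / 50) ^ 2 / 2) * ((1 + (1 / 20 * (u ^ 2 - 1)) +
      (1 / 20 * (u ^ 2 - 1)) ^ 2 / 2 +
      (1 / 20 * (u ^ 2 - 1)) ^ 3 / 6) *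
      (1 + u + 497 / 1000 * u ^ 2)) -
      (1 * (1 + (u - 0) / 7) ^ 7) := by
    rw [hs]
    ring
  rw [e] at h
  linarith

/-- `K = 7`: `(c, μ, P, δ) = (497 / 1000, 1 / 20, 0, 1 / 50)` -/
theorem expOd_seven_d02 : ExpOd 7 (497 / 1000) (1 / 20) (0) (1 / 50) := by
  have hde : (1 + 1 / 50 + (1 / 50) ^ 2 / 2) ≤ Real.exp (1 / 50) := Real.quadratic_le_exp_of_nonneg (by norm_num)
  have hq : ∀ u : ℝ, 0 ≤ 1 + u + 497 / 1000 * u ^ 2 := fun u => by
    nlinarith [sq_nonneg (u + 2), sq_nonneg u]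
  have hR : ∀ (u x y : ℝ), x ≤ y → y ≤ (1 + 1 / 50 + (1 / 50) ^ 2 / 2) * (1 + u + 497 / 1000 * u ^ 2) →
      x ≤ Real.exp (1 / 50) * (1 + u + 497 / 1000 * u ^ 2) := fun u x y h1 h2 =>
    (h1.trans h2).trans (mul_le_mul_of_nonneg_right hde (hq u))
  refine ExpOd.of (by norm_num) (by norm_num) (by norm_num) (by norm_num) (by norm_num) ?_ ?_ ?_
  · intro u h1
    rcases le_total u (-3) with h3 | h3
    · exact hR u _ _ (exp_le_n3 h3) (od_seven_d02_d u h3)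
    rcases le_total u (-2) with h4 | h4
    · refine hR u _ _ (exp_le_n2 h4) ?_
      exact od_seven_d02_c0 u (by linarith) (by linarith)
    rcases le_total u (-1) with h5 | h5
    · refine hR u _ _ (exp_le_n1 h5) ?_
      exact od_seven_d02_b0 u (by linarith) (by linarith)
    rcases le_total u 0 with h6 | h6
    · refine hR u _ _ (exp_le_n0 h6) ?_
      exact od_seven_d02_a0 u (by linarith) (by linarith)
    have h7 : u = 0 := le_antisymm h1 h6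
    refine hR u _ _ (exp_le_n0 h7.le) ?_
    exact od_seven_d02_a0 u (by linarith) (by linarith)
  · intro u h1 h2
    have h4 : 0 ≤ (1 + (u - 0) / 7) ^ 7 := by
      have : 0 ≤ (u - 0) / 7 := div_nonneg (by linarith) (by norm_num)
      positivity
    have hE : Real.exp (0) ≤ 1 := Real.exp_zero.le
    push_cast
    refine hR u _ _ (mul_le_mul_of_nonneg_right hE h4) ?_
    exact od_seven_d02_f0 u (by linarith) (by linarith)
  · intro u h1
    have h4 : 0 ≤ (1 + (u - 0) / 7) ^ 7 := by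
      have : 0 ≤ (u - 0) / 7 := div_nonneg (by linarith) (by norm_num)
      positivity
    have hE : Real.exp (0) ≤ 1 := Real.exp_zero.le
    have hx : 0 ≤ 1 / 20 * (u ^ 2 - 1) := mul_nonneg (by norm_num) (by nlinarith)
    have h5 := mul_le_mul_of_nonneg_right (taylor3_le_exp _ hx) (hq u)
    have h6 : 0 ≤ Real.exp (1 / 20 * (u ^ 2 - 1)) * (1 + u + 497 / 1000 * u ^ 2) :=
      mul_nonneg (Real.exp_nonneg _) (hq u)
    rw [Real.exp_add, mul_assoc]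
    push_cast
    refine ((mul_le_mul_of_nonneg_right hE h4).trans ?_).trans
      ((mul_le_mul_of_nonneg_left h5 (by norm_num : (0 : ℝ) ≤ (1 + 1 / 50 + (1 / 50) ^ 2 / 2))).trans
        (mul_le_mul_of_nonneg_right hde h6))
    rcases le_total u (2) with hh | hh
    · exact od_seven_d02_g0 u (by linarith) (by linarith)
    exact od_seven_d02_t u (by linarith)

theorem od_seven_d03_a0 (u : ℝ) (h1 : -1 ≤ u) (h2 : u ≤ 0) :
    1 + u + u ^ 2 / 2 + u ^ 3 / 6 + u ^ 4 / 24 ≤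
      (1 + 1 / 10 + (1 / 10) ^ 2 / 2) * (1 + u + 193 / 500 * u ^ 2) := by
  obtain ⟨s, hs⟩ : ∃ s, s = u - (-1) := ⟨_, rfl⟩
  obtain ⟨t, ht⟩ : ∃ t, t = 0 - u := ⟨_, rfl⟩
  have hs0 : 0 ≤ s := by linarith
  have ht0 : 0 ≤ t := by linarith
  have h : 0 ≤
      5153 / 100000 * t ^ 4 + 18709 / 150000 * s * t ^ 3 + 24153 / 100000 * s ^ 2 * t ^ 2 +
      63 / 200 * s ^ 3 * t + 21 / 200 * s ^ 4 := by
    positivity
  have e :
      5153 / 100000 * t ^ 4 + 18709 / 150000 * s * t ^ 3 + 24153 / 100000 * s ^ 2 * t ^ 2 +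
      63 / 200 * s ^ 3 * t + 21 / 200 * s ^ 4 =
      (1 + 1 / 10 + (1 / 10) ^ 2 / 2) * (1 + u + 193 / 500 * u ^ 2) -
      (1 + u + u ^ 2 / 2 + u ^ 3 / 6 + u ^ 4 / 24) := by
    rw [hs, ht]
    ring
  rw [e] at h
  linarith

theorem od_seven_d03_b0 (u : ℝ) (h1 : -2 ≤ u) (h2 : u ≤ -1) :
    36788 / 100000 *
      (1 + (u + 1) + (u + 1) ^ 2 / 2 + (u + 1) ^ 3 / 6 + (u + 1) ^ 4 / 24) ≤
      (1 + 1 / 10 + (1 / 10) ^ 2 / 2) * (1 + u + 193 / 500 * u ^ 2) := by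
  obtain ⟨s, hs⟩ : ∃ s, s = u - (-2) := ⟨_, rfl⟩
  obtain ⟨t, ht⟩ : ∃ t, t = -1 - u := ⟨_, rfl⟩
  have hs0 : 0 ≤ s := by linarith
  have ht0 : 0 ≤ t := by linarith
  have h : 0 ≤
      92633 / 200000 * t ^ 4 + 169337 / 150000 * s * t ^ 3 + 94231 / 100000 * s ^ 2 * t ^ 2 +
      17527 / 50000 * s ^ 3 * t + 1173 / 20000 * s ^ 4 := by
    positivity
  have e :
      92633 / 200000 * t ^ 4 + 169337 / 150000 * s * t ^ 3 + 94231 / 100000 * s ^ 2 * t ^ 2 +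
      17527 / 50000 * s ^ 3 * t + 1173 / 20000 * s ^ 4 =
      (1 + 1 / 10 + (1 / 10) ^ 2 / 2) * (1 + u + 193 / 500 * u ^ 2) -
      (36788 / 100000 *
      (1 + (u + 1) + (u + 1) ^ 2 / 2 + (u + 1) ^ 3 / 6 + (u + 1) ^ 4 / 24)) := by
    rw [hs, ht]
    ring
  rw [e] at h
  linarith

theorem od_seven_d03_c0 (u : ℝ) (h1 : -3 ≤ u) (h2 : u ≤ -2) :
    13534 / 100000 *
      (1 + (u + 2) + (u + 2) ^ 2 / 2 + (u + 2) ^ 3 / 6 + (u + 2) ^ 4 / 24) ≤
      (1 + 1 / 10 + (1 / 10) ^ 2 / 2) * (1 + u + 193 / 500 * u ^ 2) := by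
  obtain ⟨s, hs⟩ : ∃ s, s = u - (-3) := ⟨_, rfl⟩
  obtain ⟨t, ht⟩ : ∃ t, t = -2 - u := ⟨_, rfl⟩
  have hs0 : 0 ≤ s := by linarith
  have ht0 : 0 ≤ t := by linarith
  have h : 0 ≤
      631207 / 400000 * t ^ 4 + 1443833 / 300000 * s * t ^ 3 +
      134073 / 25000 * s ^ 2 * t ^ 2 + 129979 / 50000 * s ^ 3 * t + 23289 / 50000 * s ^ 4 := by
    positivity
  have e :
      631207 / 400000 * t ^ 4 + 1443833 / 300000 * s * t ^ 3 +
      134073 / 25000 * s ^ 2 * t ^ 2 + 129979 / 50000 * s ^ 3 * t + 23289 / 50000 * s ^ 4 =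
      (1 + 1 / 10 + (1 / 10) ^ 2 / 2) * (1 + u + 193 / 500 * u ^ 2) -
      (13534 / 100000 *
      (1 + (u + 2) + (u + 2) ^ 2 / 2 + (u + 2) ^ 3 / 6 + (u + 2) ^ 4 / 24)) := by
    rw [hs, ht]
    ring
  rw [e] at h
  linarith

theorem od_seven_d03_d (u : ℝ) (h2 : u ≤ -3) :
    4979 / 100000 ≤
      (1 + 1 / 10 + (1 / 10) ^ 2 / 2) * (1 + u + 193 / 500 * u ^ 2) := by
  obtain ⟨s, hs⟩ : ∃ s, s = -3 - u := ⟨_, rfl⟩
  have hs0 : 0 ≤ s := by linarith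
  have h : 0 ≤
      78949 / 50000 + 72709 / 50000 * s + 42653 / 100000 * s ^ 2 := by
    positivity
  have e :
      78949 / 50000 + 72709 / 50000 * s + 42653 / 100000 * s ^ 2 =
      (1 + 1 / 10 + (1 / 10) ^ 2 / 2) * (1 + u + 193 / 500 * u ^ 2) -
      (4979 / 100000) := by
    rw [hs]
    ring
  rw [e] at h
  linarith

theorem od_seven_d03_f0 (u : ℝ) (h1 : 0 ≤ u) (h2 : u ≤ 1) :
    1 * (1 + (u - 0) / 7) ^ 7 ≤
      (1 + 1 / 10 + (1 / 10) ^ 2 / 2) * (1 + u + 193 / 500 * u ^ 2) := by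
  obtain ⟨s, hs⟩ : ∃ s, s = u - (0) := ⟨_, rfl⟩
  obtain ⟨t, ht⟩ : ∃ t, t = 1 - u := ⟨_, rfl⟩
  have hs0 : 0 ≤ s := by linarith
  have ht0 : 0 ≤ t := by linarith
  have h : 0 ≤
      21 / 200 * t ^ 7 + 21 / 25 * s * t ^ 6 + 1983071 / 700000 * s ^ 2 * t ^ 5 +
      5034997 / 980000 * s ^ 3 * t ^ 4 + 18288229 / 3430000 * s ^ 4 * t ^ 3 +
      74487653 / 24010000 * s ^ 5 * t ^ 2 + 302640071 / 336140000 * s ^ 6 * t +
      7414382579 / 82354300000 * s ^ 7 := by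
    positivity
  have e :
      21 / 200 * t ^ 7 + 21 / 25 * s * t ^ 6 + 1983071 / 700000 * s ^ 2 * t ^ 5 +
      5034997 / 980000 * s ^ 3 * t ^ 4 + 18288229 / 3430000 * s ^ 4 * t ^ 3 +
      74487653 / 24010000 * s ^ 5 * t ^ 2 + 302640071 / 336140000 * s ^ 6 * t +
      7414382579 / 82354300000 * s ^ 7 =
      (1 + 1 / 10 + (1 / 10) ^ 2 / 2) * (1 + u + 193 / 500 * u ^ 2) -
      (1 * (1 + (u - 0) / 7) ^ 7) := by
    rw [hs, ht]
    ring
  rw [e] at h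
  linarith

theorem od_seven_d03_g0 (u : ℝ) (h1 : 1 ≤ u) (h2 : u ≤ 2) :
    1 * (1 + (u - 0) / 7) ^ 7 ≤
      (1 + 1 / 10 + (1 / 10) ^ 2 / 2) * ((1 + (1 / 20 * (u ^ 2 - 1)) +
      (1 / 20 * (u ^ 2 - 1)) ^ 2 / 2 +
      (1 / 20 * (u ^ 2 - 1)) ^ 3 / 6) *
      (1 + u + 193 / 500 * u ^ 2)) := by
  obtain ⟨s, hs⟩ : ∃ s, s = u - (1) := ⟨_, rfl⟩
  obtain ⟨t, ht⟩ : ∃ t, t = 2 - u := ⟨_, rfl⟩
  have hs0 : 0 ≤ s := by linarith
  have ht0 : 0 ≤ t := by linarith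
  have h : 0 ≤
      7414382579 / 82354300000 * t ^ 8 + 587818795479 / 823543000000 * s * t ^ 7 +
      809191091061 / 336140000000 * s ^ 2 * t ^ 6 +
      316683735641587 / 70589400000000 * s ^ 3 * t ^ 5 +
      177086717387441 / 35294700000000 * s ^ 4 * t ^ 4 +
      192931115493007 / 56471520000000 * s ^ 5 * t ^ 3 +
      257404430222993 / 188238400000000 * s ^ 6 * t ^ 2 +
      48006550308639 / 164708600000000 * s ^ 7 * t + 1062571416457 / 41177150000000 * s ^ 8 := by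
    positivity
  have e :
      7414382579 / 82354300000 * t ^ 8 + 587818795479 / 823543000000 * s * t ^ 7 +
      809191091061 / 336140000000 * s ^ 2 * t ^ 6 +
      316683735641587 / 70589400000000 * s ^ 3 * t ^ 5 +
      177086717387441 / 35294700000000 * s ^ 4 * t ^ 4 +
      192931115493007 / 56471520000000 * s ^ 5 * t ^ 3 +
      257404430222993 / 188238400000000 * s ^ 6 * t ^ 2 +
      48006550308639 / 164708600000000 * s ^ 7 * t + 1062571416457 / 41177150000000 * s ^ 8 =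
      (1 + 1 / 10 + (1 / 10) ^ 2 / 2) * ((1 + (1 / 20 * (u ^ 2 - 1)) +
      (1 / 20 * (u ^ 2 - 1)) ^ 2 / 2 +
      (1 / 20 * (u ^ 2 - 1)) ^ 3 / 6) *
      (1 + u + 193 / 500 * u ^ 2)) -
      (1 * (1 + (u - 0) / 7) ^ 7) := by
    rw [hs, ht]
    ring
  rw [e] at h
  linarith

theorem od_seven_d03_g1 (u : ℝ) (h1 : 2 ≤ u) (h2 : u ≤ 3) :
    1 * (1 + (u - 0) / 7) ^ 7 ≤
      (1 + 1 / 10 + (1 / 10) ^ 2 / 2) * ((1 + (1 / 20 * (u ^ 2 - 1)) +
      (1 / 20 * (u ^ 2 - 1)) ^ 2 / 2 +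
      (1 / 20 * (u ^ 2 - 1)) ^ 3 / 6) *
      (1 + u + 193 / 500 * u ^ 2)) := by
  obtain ⟨s, hs⟩ : ∃ s, s = u - (2) := ⟨_, rfl⟩
  obtain ⟨t, ht⟩ : ∃ t, t = 3 - u := ⟨_, rfl⟩
  have hs0 : 0 ≤ s := by linarith
  have ht0 : 0 ≤ t := by linarith
  have h : 0 ≤
      1062571416457 / 41177150000000 * t ^ 8 + 19998020344609 / 164708600000000 * s * t ^ 7 +
      33336190510753 / 188238400000000 * s ^ 2 * t ^ 6 +
      2842901922961 / 40336800000000 * s ^ 3 * t ^ 5 +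
      13485253690397 / 70589400000000 * s ^ 4 * t ^ 4 +
      57061098569243 / 70589400000000 * s ^ 5 * t ^ 3 +
      40805111553499 / 35294700000000 * s ^ 6 * t ^ 2 +
      44361733965989 / 61765725000000 * s ^ 7 * t + 5201179215949 / 30882862500000 * s ^ 8 := by
    positivity
  have e :
      1062571416457 / 41177150000000 * t ^ 8 + 19998020344609 / 164708600000000 * s * t ^ 7 +
      33336190510753 / 188238400000000 * s ^ 2 * t ^ 6 +
      2842901922961 / 40336800000000 * s ^ 3 * t ^ 5 +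
      13485253690397 / 70589400000000 * s ^ 4 * t ^ 4 +
      57061098569243 / 70589400000000 * s ^ 5 * t ^ 3 +
      40805111553499 / 35294700000000 * s ^ 6 * t ^ 2 +
      44361733965989 / 61765725000000 * s ^ 7 * t + 5201179215949 / 30882862500000 * s ^ 8 =
      (1 + 1 / 10 + (1 / 10) ^ 2 / 2) * ((1 + (1 / 20 * (u ^ 2 - 1)) +
      (1 / 20 * (u ^ 2 - 1)) ^ 2 / 2 +
      (1 / 20 * (u ^ 2 - 1)) ^ 3 / 6) *
      (1 + u + 193 / 500 * u ^ 2)) -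
      (1 * (1 + (u - 0) / 7) ^ 7) := by
    rw [hs, ht]
    ring
  rw [e] at h
  linarith

theorem od_seven_d03_t (u : ℝ) (h1 : 3 ≤ u) :
    1 * (1 + (u - 0) / 7) ^ 7 ≤
      (1 + 1 / 10 + (1 / 10) ^ 2 / 2) * ((1 + (1 / 20 * (u ^ 2 - 1)) +
      (1 / 20 * (u ^ 2 - 1)) ^ 2 / 2 +
      (1 / 20 * (u ^ 2 - 1)) ^ 3 / 6) *
      (1 + u + 193 / 500 * u ^ 2)) := by
  obtain ⟨s, hs⟩ : ∃ s, s = u - (3) := ⟨_, rfl⟩
  have hs0 : 0 ≤ s := by linarith
  have h : 0 ≤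
      5201179215949 / 30882862500000 + 1110203813977 / 1764735000000 * s +
      29795910599911 / 35294700000000 * s ^ 2 + 11223188176827 / 23529800000000 * s ^ 3 +
      418850973393 / 2941225000000 * s ^ 4 + 2454658461131 / 94119200000000 * s ^ 5 +
      1788592303273 / 564715200000000 * s ^ 6 + 232309852849 / 988251600000000 * s ^ 7 +
      42653 / 4800000000 * s ^ 8 := by
    positivity
  have e :
      5201179215949 / 30882862500000 + 1110203813977 / 1764735000000 * s +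
      29795910599911 / 35294700000000 * s ^ 2 + 11223188176827 / 23529800000000 * s ^ 3 +
      418850973393 / 2941225000000 * s ^ 4 + 2454658461131 / 94119200000000 * s ^ 5 +
      1788592303273 / 564715200000000 * s ^ 6 + 232309852849 / 988251600000000 * s ^ 7 +
      42653 / 4800000000 * s ^ 8 =
      (1 + 1 / 10 + (1 / 10) ^ 2 / 2) * ((1 + (1 / 20 * (u ^ 2 - 1)) +
      (1 / 20 * (u ^ 2 - 1)) ^ 2 / 2 +
      (1 / 20 * (u ^ 2 - 1)) ^ 3 / 6) *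
      (1 + u + 193 / 500 * u ^ 2)) -
      (1 * (1 + (u - 0) / 7) ^ 7) := by
    rw [hs]
    ring
  rw [e] at h
  linarith

/-- `K = 7`: `(c, μ, P, δ) = (193 / 500, 1 / 20, 0, 1 / 10)` -/
theorem expOd_seven_d03 : ExpOd 7 (193 / 500) (1 / 20) (0) (1 / 10) := by
  have hde : (1 + 1 / 10 + (1 / 10) ^ 2 / 2) ≤ Real.exp (1 / 10) := Real.quadratic_le_exp_of_nonneg (by norm_num)
  have hq : ∀ u : ℝ, 0 ≤ 1 + u + 193 / 500 * u ^ 2 := fun u => by
    nlinarith [sq_nonneg (u + 2), sq_nonneg u]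
  have hR : ∀ (u x y : ℝ), x ≤ y → y ≤ (1 + 1 / 10 + (1 / 10) ^ 2 / 2) * (1 + u + 193 / 500 * u ^ 2) →
      x ≤ Real.exp (1 / 10) * (1 + u + 193 / 500 * u ^ 2) := fun u x y h1 h2 =>
    (h1.trans h2).trans (mul_le_mul_of_nonneg_right hde (hq u))
  refine ExpOd.of (by norm_num) (by norm_num) (by norm_num) (by norm_num) (by norm_num) ?_ ?_ ?_
  · intro u h1
    rcases le_total u (-3) with h3 | h3
    · exact hR u _ _ (exp_le_n3 h3) (od_seven_d03_d u h3)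
    rcases le_total u (-2) with h4 | h4
    · refine hR u _ _ (exp_le_n2 h4) ?_
      exact od_seven_d03_c0 u (by linarith) (by linarith)
    rcases le_total u (-1) with h5 | h5
    · refine hR u _ _ (exp_le_n1 h5) ?_
      exact od_seven_d03_b0 u (by linarith) (by linarith)
    rcases le_total u 0 with h6 | h6
    · refine hR u _ _ (exp_le_n0 h6) ?_
      exact od_seven_d03_a0 u (by linarith) (by linarith)
    have h7 : u = 0 := le_antisymm h1 h6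
    refine hR u _ _ (exp_le_n0 h7.le) ?_
    exact od_seven_d03_a0 u (by linarith) (by linarith)
  · intro u h1 h2
    have h4 : 0 ≤ (1 + (u - 0) / 7) ^ 7 := by
      have : 0 ≤ (u - 0) / 7 := div_nonneg (by linarith) (by norm_num)
      positivity
    have hE : Real.exp (0) ≤ 1 := Real.exp_zero.le
    push_cast
    refine hR u _ _ (mul_le_mul_of_nonneg_right hE h4) ?_
    exact od_seven_d03_f0 u (by linarith) (by linarith)
  · intro u h1
    have h4 : 0 ≤ (1 + (u - 0) / 7) ^ 7 := by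
      have : 0 ≤ (u - 0) / 7 := div_nonneg (by linarith) (by norm_num)
      positivity
    have hE : Real.exp (0) ≤ 1 := Real.exp_zero.le
    have hx : 0 ≤ 1 / 20 * (u ^ 2 - 1) := mul_nonneg (by norm_num) (by nlinarith)
    have h5 := mul_le_mul_of_nonneg_right (taylor3_le_exp _ hx) (hq u)
    have h6 : 0 ≤ Real.exp (1 / 20 * (u ^ 2 - 1)) * (1 + u + 193 / 500 * u ^ 2) :=
      mul_nonneg (Real.exp_nonneg _) (hq u)
    rw [Real.exp_add, mul_assoc]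
    push_cast
    refine ((mul_le_mul_of_nonneg_right hE h4).trans ?_).trans
      ((mul_le_mul_of_nonneg_left h5 (by norm_num : (0 : ℝ) ≤ (1 + 1 / 10 + (1 / 10) ^ 2 / 2))).trans
        (mul_le_mul_of_nonneg_right hde h6))
    rcases le_total u (2) with hh | hh
    · exact od_seven_d03_g0 u (by linarith) (by linarith)
    rcases le_total u (3) with hh | hh
    · exact od_seven_d03_g1 u (by linarith) (by linarith)
    exact od_seven_d03_t u (by linarith)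

theorem od_seven_d10_a0 (u : ℝ) (h1 : -1 ≤ u) (h2 : u ≤ 0) :
    1 + u + u ^ 2 / 2 + u ^ 3 / 6 + u ^ 4 / 24 ≤
      1 * (1 + u + 16 / 25 * u ^ 2) := by
  obtain ⟨s, hs⟩ : ∃ s, s = u - (-1) := ⟨_, rfl⟩
  obtain ⟨t, ht⟩ : ∃ t, t = 0 - u := ⟨_, rfl⟩
  have hs0 : 0 ≤ s := by linarith
  have ht0 : 0 ≤ t := by linarith
  have h : 0 ≤
      53 / 200 * t ^ 4 + 67 / 150 * s * t ^ 3 + 7 / 50 * s ^ 2 * t ^ 2 := by
    positivity
  have e :
      53 / 200 * t ^ 4 + 67 / 150 * s * t ^ 3 + 7 / 50 * s ^ 2 * t ^ 2 =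
      1 * (1 + u + 16 / 25 * u ^ 2) -
      (1 + u + u ^ 2 / 2 + u ^ 3 / 6 + u ^ 4 / 24) := by
    rw [hs, ht]
    ring
  rw [e] at h
  linarith

theorem od_seven_d10_b0 (u : ℝ) (h1 : -2 ≤ u) (h2 : u ≤ -1) :
    36788 / 100000 *
      (1 + (u + 1) + (u + 1) ^ 2 / 2 + (u + 1) ^ 3 / 6 + (u + 1) ^ 4 / 24) ≤
      1 * (1 + u + 16 / 25 * u ^ 2) := by
  obtain ⟨s, hs⟩ : ∃ s, s = u - (-2) := ⟨_, rfl⟩
  obtain ⟨t, ht⟩ : ∃ t, t = -1 - u := ⟨_, rfl⟩
  have hs0 : 0 ≤ s := by linarith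
  have ht0 : 0 ≤ t := by linarith
  have h : 0 ≤
      284409 / 200000 * t ^ 4 + 600833 / 150000 * s * t ^ 3 +
      201621 / 50000 * s ^ 2 * t ^ 2 + 43409 / 25000 * s ^ 3 * t + 6803 / 25000 * s ^ 4 := by
    positivity
  have e :
      284409 / 200000 * t ^ 4 + 600833 / 150000 * s * t ^ 3 +
      201621 / 50000 * s ^ 2 * t ^ 2 + 43409 / 25000 * s ^ 3 * t + 6803 / 25000 * s ^ 4 =
      1 * (1 + u + 16 / 25 * u ^ 2) -
      (36788 / 100000 *
      (1 + (u + 1) + (u + 1) ^ 2 / 2 + (u + 1) ^ 3 / 6 + (u + 1) ^ 4 / 24)) := by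
    rw [hs, ht]
    ring
  rw [e] at h
  linarith

theorem od_seven_d10_c0 (u : ℝ) (h1 : -3 ≤ u) (h2 : u ≤ -2) :
    13534 / 100000 *
      (1 + (u + 2) + (u + 2) ^ 2 / 2 + (u + 2) ^ 3 / 6 + (u + 2) ^ 4 / 24) ≤
      1 * (1 + u + 16 / 25 * u ^ 2) := by
  obtain ⟨s, hs⟩ : ∃ s, s = u - (-3) := ⟨_, rfl⟩
  obtain ⟨t, ht⟩ : ∃ t, t = -2 - u := ⟨_, rfl⟩
  have hs0 : 0 ≤ s := by linarith
  have ht0 : 0 ≤ t := by linarith
  have h : 0 ≤
      1483699 / 400000 * t ^ 4 + 3585563 / 300000 * s * t ^ 3 +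
      1420631 / 100000 * s ^ 2 * t ^ 2 + 369699 / 50000 * s ^ 3 * t + 71233 / 50000 * s ^ 4 := by
    positivity
  have e :
      1483699 / 400000 * t ^ 4 + 3585563 / 300000 * s * t ^ 3 +
      1420631 / 100000 * s ^ 2 * t ^ 2 + 369699 / 50000 * s ^ 3 * t + 71233 / 50000 * s ^ 4 =
      1 * (1 + u + 16 / 25 * u ^ 2) -
      (13534 / 100000 *
      (1 + (u + 2) + (u + 2) ^ 2 / 2 + (u + 2) ^ 3 / 6 + (u + 2) ^ 4 / 24)) := by
    rw [hs, ht]
    ring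
  rw [e] at h
  linarith

theorem od_seven_d10_d (u : ℝ) (h2 : u ≤ -3) :
    4979 / 100000 ≤
      1 * (1 + u + 16 / 25 * u ^ 2) := by
  obtain ⟨s, hs⟩ : ∃ s, s = -3 - u := ⟨_, rfl⟩
  have hs0 : 0 ≤ s := by linarith
  have h : 0 ≤
      371021 / 100000 + 71 / 25 * s + 16 / 25 * s ^ 2 := by
    positivity
  have e :
      371021 / 100000 + 71 / 25 * s + 16 / 25 * s ^ 2 =
      1 * (1 + u + 16 / 25 * u ^ 2) -
      (4979 / 100000) := by
    rw [hs]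
    ring
  rw [e] at h
  linarith

theorem od_seven_d10_e0 (u : ℝ) (h1 : 0 ≤ u) (h2 : u ≤ 1 / 3) :
    1 + u + u ^ 2 / 2 + u ^ 3 / 6 + u ^ 4 / 24 + u ^ 5 / 100 ≤
      1 * (1 + u + 16 / 25 * u ^ 2) := by
  obtain ⟨s, hs⟩ : ∃ s, s = u - (0) := ⟨_, rfl⟩
  obtain ⟨t, ht⟩ : ∃ t, t = 1 / 3 - u := ⟨_, rfl⟩
  have hs0 : 0 ≤ s := by linarith
  have ht0 : 0 ≤ t := by linarith
  have h : 0 ≤
      189 / 50 * s ^ 2 * t ^ 3 + 246 / 25 * s ^ 3 * t ^ 2 + 1643 / 200 * s ^ 4 * t +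
      429 / 200 * s ^ 5 := by
    positivity
  have e :
      189 / 50 * s ^ 2 * t ^ 3 + 246 / 25 * s ^ 3 * t ^ 2 + 1643 / 200 * s ^ 4 * t +
      429 / 200 * s ^ 5 =
      1 * (1 + u + 16 / 25 * u ^ 2) -
      (1 + u + u ^ 2 / 2 + u ^ 3 / 6 + u ^ 4 / 24 + u ^ 5 / 100) := by
    rw [hs, ht]
    ring
  rw [e] at h
  linarith

theorem od_seven_d10_f0 (u : ℝ) (h1 : 1 / 3 ≤ u) (h2 : u ≤ 1) :
    69781 / 50000 * (1 + (u - 1 / 3) / 7) ^ 7 ≤
      1 * (1 + u + 16 / 25 * u ^ 2) := by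
  obtain ⟨s, hs⟩ : ∃ s, s = u - (1 / 3) := ⟨_, rfl⟩
  obtain ⟨t, ht⟩ : ∃ t, t = 1 - u := ⟨_, rfl⟩
  have hs0 : 0 ≤ s := by linarith
  have ht0 : 0 ≤ t := by linarith
  have h : 0 ≤
      964953 / 6400000 * t ^ 7 + 9017973 / 6400000 * s * t ^ 6 +
      251153379 / 44800000 * s ^ 2 * t ^ 5 + 718192413 / 62720000 * s ^ 3 * t ^ 4 +
      5522017833 / 439040000 * s ^ 4 * t ^ 3 + 109336422159 / 15366400000 * s ^ 5 * t ^ 2 +
      179581721073 / 107564800000 * s ^ 6 * t + 151562894893 / 5270675200000 * s ^ 7 := by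
    positivity
  have e :
      964953 / 6400000 * t ^ 7 + 9017973 / 6400000 * s * t ^ 6 +
      251153379 / 44800000 * s ^ 2 * t ^ 5 + 718192413 / 62720000 * s ^ 3 * t ^ 4 +
      5522017833 / 439040000 * s ^ 4 * t ^ 3 + 109336422159 / 15366400000 * s ^ 5 * t ^ 2 +
      179581721073 / 107564800000 * s ^ 6 * t + 151562894893 / 5270675200000 * s ^ 7 =
      1 * (1 + u + 16 / 25 * u ^ 2) -
      (69781 / 50000 * (1 + (u - 1 / 3) / 7) ^ 7) := by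
    rw [hs, ht]
    ring
  rw [e] at h
  linarith

theorem od_seven_d10_g0 (u : ℝ) (h1 : 1 ≤ u) (h2 : u ≤ 3) :
    69781 / 50000 * (1 + (u - 1 / 3) / 7) ^ 7 ≤
      1 * ((1 + (1 / 25 * (u ^ 2 - 1)) +
      (1 / 25 * (u ^ 2 - 1)) ^ 2 / 2 +
      (1 / 25 * (u ^ 2 - 1)) ^ 3 / 6) *
      (1 + u + 16 / 25 * u ^ 2)) := by
  obtain ⟨s, hs⟩ : ∃ s, s = u - (1) := ⟨_, rfl⟩
  obtain ⟨t, ht⟩ : ∃ t, t = 3 - u := ⟨_, rfl⟩
  have hs0 : 0 ≤ s := by linarith
  have ht0 : 0 ≤ t := by linarith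
  have h : 0 ≤
      151562894893 / 23053933324800000 * t ^ 8 +
      8017900470043 / 11526966662400000 * s * t ^ 7 +
      37780840380187 / 8233547616000000 * s ^ 2 * t ^ 6 +
      2436786765128141 / 205838690400000000 * s ^ 3 * t ^ 5 +
      1536148544093621 / 102919345200000000 * s ^ 4 * t ^ 4 +
      1935401142835787 / 205838690400000000 * s ^ 5 * t ^ 3 +
      11757884022181 / 4200789600000000 * s ^ 6 * t ^ 2 +
      935076200384297 / 1440870832800000000 * s ^ 7 * t +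
      784623750780203 / 2881741665600000000 * s ^ 8 := by
    positivity
  have e :
      151562894893 / 23053933324800000 * t ^ 8 +
      8017900470043 / 11526966662400000 * s * t ^ 7 +
      37780840380187 / 8233547616000000 * s ^ 2 * t ^ 6 +
      2436786765128141 / 205838690400000000 * s ^ 3 * t ^ 5 +
      1536148544093621 / 102919345200000000 * s ^ 4 * t ^ 4 +
      1935401142835787 / 205838690400000000 * s ^ 5 * t ^ 3 +
      11757884022181 / 4200789600000000 * s ^ 6 * t ^ 2 +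
      935076200384297 / 1440870832800000000 * s ^ 7 * t +
      784623750780203 / 2881741665600000000 * s ^ 8 =
      1 * ((1 + (1 / 25 * (u ^ 2 - 1)) +
      (1 / 25 * (u ^ 2 - 1)) ^ 2 / 2 +
      (1 / 25 * (u ^ 2 - 1)) ^ 3 / 6) *
      (1 + u + 16 / 25 * u ^ 2)) -
      (69781 / 50000 * (1 + (u - 1 / 3) / 7) ^ 7) := by
    rw [hs, ht]
    ring
  rw [e] at h
  linarith

theorem od_seven_d10_t (u : ℝ) (h1 : 3 ≤ u) :
    69781 / 50000 * (1 + (u - 1 / 3) / 7) ^ 7 ≤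
      1 * ((1 + (1 / 25 * (u ^ 2 - 1)) +
      (1 / 25 * (u ^ 2 - 1)) ^ 2 / 2 +
      (1 / 25 * (u ^ 2 - 1)) ^ 3 / 6) *
      (1 + u + 16 / 25 * u ^ 2)) := by
  obtain ⟨s, hs⟩ : ∃ s, s = u - (3) := ⟨_, rfl⟩
  have hs0 : 0 ≤ s := by linarith
  have h : 0 ≤
      784623750780203 / 11256803381250000 + 20984940978443 / 107207651250000 * s +
      22413104041907 / 59559806250000 * s ^ 2 + 17172992237531 / 59559806250000 * s ^ 3 +
      1983138707239 / 19853268750000 * s ^ 4 + 41514960751 / 2205918750000 * s ^ 5 +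
      5143838803 / 2205918750000 * s ^ 6 + 2668464821 / 15441431250000 * s ^ 7 +
      8 / 1171875 * s ^ 8 := by
    positivity
  have e :
      784623750780203 / 11256803381250000 + 20984940978443 / 107207651250000 * s +
      22413104041907 / 59559806250000 * s ^ 2 + 17172992237531 / 59559806250000 * s ^ 3 +
      1983138707239 / 19853268750000 * s ^ 4 + 41514960751 / 2205918750000 * s ^ 5 +
      5143838803 / 2205918750000 * s ^ 6 + 2668464821 / 15441431250000 * s ^ 7 +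
      8 / 1171875 * s ^ 8 =
      1 * ((1 + (1 / 25 * (u ^ 2 - 1)) +
      (1 / 25 * (u ^ 2 - 1)) ^ 2 / 2 +
      (1 / 25 * (u ^ 2 - 1)) ^ 3 / 6) *
      (1 + u + 16 / 25 * u ^ 2)) -
      (69781 / 50000 * (1 + (u - 1 / 3) / 7) ^ 7) := by
    rw [hs]
    ring
  rw [e] at h
  linarith

/-- `K = 7`: `(c, μ, P, δ) = (16 / 25, 1 / 25, 1 / 3, 0)` -/
theorem expOd_seven_d10 : ExpOd 7 (16 / 25) (1 / 25) (1 / 3) (0) := by
  have hde : 1 ≤ Real.exp (0) := Real.exp_zero.ge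
  have hq : ∀ u : ℝ, 0 ≤ 1 + u + 16 / 25 * u ^ 2 := fun u => by
    nlinarith [sq_nonneg (u + 2), sq_nonneg u]
  have hR : ∀ (u x y : ℝ), x ≤ y → y ≤ 1 * (1 + u + 16 / 25 * u ^ 2) →
      x ≤ Real.exp (0) * (1 + u + 16 / 25 * u ^ 2) := fun u x y h1 h2 =>
    (h1.trans h2).trans (mul_le_mul_of_nonneg_right hde (hq u))
  refine ExpOd.of (by norm_num) (by norm_num) (by norm_num) (by norm_num) (by norm_num) ?_ ?_ ?_
  · intro u h1
    rcases le_total u (-3) with h3 | h3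
    · exact hR u _ _ (exp_le_n3 h3) (od_seven_d10_d u h3)
    rcases le_total u (-2) with h4 | h4
    · refine hR u _ _ (exp_le_n2 h4) ?_
      exact od_seven_d10_c0 u (by linarith) (by linarith)
    rcases le_total u (-1) with h5 | h5
    · refine hR u _ _ (exp_le_n1 h5) ?_
      exact od_seven_d10_b0 u (by linarith) (by linarith)
    rcases le_total u 0 with h6 | h6
    · refine hR u _ _ (exp_le_n0 h6) ?_
      exact od_seven_d10_a0 u (by linarith) (by linarith)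
    refine hR u _ _ (exp_le_p h6 (by linarith)) ?_
    exact od_seven_d10_e0 u (by linarith) (by linarith)
  · intro u h1 h2
    have h4 : 0 ≤ (1 + (u - 1 / 3) / 7) ^ 7 := by
      have : 0 ≤ (u - 1 / 3) / 7 := div_nonneg (by linarith) (by norm_num)
      positivity
    have hE : Real.exp (1 / 3) ≤ 69781 / 50000 := exp_up_1_3
    push_cast
    refine hR u _ _ (mul_le_mul_of_nonneg_right hE h4) ?_
    exact od_seven_d10_f0 u (by linarith) (by linarith)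
  · intro u h1
    have h4 : 0 ≤ (1 + (u - 1 / 3) / 7) ^ 7 := by
      have : 0 ≤ (u - 1 / 3) / 7 := div_nonneg (by linarith) (by norm_num)
      positivity
    have hE : Real.exp (1 / 3) ≤ 69781 / 50000 := exp_up_1_3
    have hx : 0 ≤ 1 / 25 * (u ^ 2 - 1) := mul_nonneg (by norm_num) (by nlinarith)
    have h5 := mul_le_mul_of_nonneg_right (taylor3_le_exp _ hx) (hq u)
    have h6 : 0 ≤ Real.exp (1 / 25 * (u ^ 2 - 1)) * (1 + u + 16 / 25 * u ^ 2) :=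
      mul_nonneg (Real.exp_nonneg _) (hq u)
    rw [Real.exp_add, mul_assoc]
    push_cast
    refine ((mul_le_mul_of_nonneg_right hE h4).trans ?_).trans
      ((mul_le_mul_of_nonneg_left h5 (by norm_num : (0 : ℝ) ≤ 1)).trans
        (mul_le_mul_of_nonneg_right hde h6))
    rcases le_total u (3) with hh | hh
    · exact od_seven_d10_g0 u (by linarith) (by linarith)
    exact od_seven_d10_t u (by linarith)

theorem od_seven_d11_a0 (u : ℝ) (h1 : -1 ≤ u) (h2 : u ≤ 0) :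
    1 + u + u ^ 2 / 2 + u ^ 3 / 6 + u ^ 4 / 24 ≤
      1 * (1 + u + 639 / 1000 * u ^ 2) := by
  obtain ⟨s, hs⟩ : ∃ s, s = u - (-1) := ⟨_, rfl⟩
  obtain ⟨t, ht⟩ : ∃ t, t = 0 - u := ⟨_, rfl⟩
  have hs0 : 0 ≤ s := by linarith
  have ht0 : 0 ≤ t := by linarith
  have h : 0 ≤
      33 / 125 * t ^ 4 + 667 / 1500 * s * t ^ 3 + 139 / 1000 * s ^ 2 * t ^ 2 := by
    positivity
  have e :
      33 / 125 * t ^ 4 + 667 / 1500 * s * t ^ 3 + 139 / 1000 * s ^ 2 * t ^ 2 =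
      1 * (1 + u + 639 / 1000 * u ^ 2) -
      (1 + u + u ^ 2 / 2 + u ^ 3 / 6 + u ^ 4 / 24) := by
    rw [hs, ht]
    ring
  rw [e] at h
  linarith

theorem od_seven_d11_b0 (u : ℝ) (h1 : -2 ≤ u) (h2 : u ≤ -1) :
    36788 / 100000 *
      (1 + (u + 1) + (u + 1) ^ 2 / 2 + (u + 1) ^ 3 / 6 + (u + 1) ^ 4 / 24) ≤
      1 * (1 + u + 639 / 1000 * u ^ 2) := by
  obtain ⟨s, hs⟩ : ∃ s, s = u - (-2) := ⟨_, rfl⟩
  obtain ⟨t, ht⟩ : ∃ t, t = -1 - u := ⟨_, rfl⟩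
  have hs0 : 0 ≤ s := by linarith
  have ht0 : 0 ≤ t := by linarith
  have h : 0 ≤
      283609 / 200000 * t ^ 4 + 599033 / 150000 * s * t ^ 3 +
      200971 / 50000 * s ^ 2 * t ^ 2 + 43259 / 25000 * s ^ 3 * t + 3389 / 12500 * s ^ 4 := by
    positivity
  have e :
      283609 / 200000 * t ^ 4 + 599033 / 150000 * s * t ^ 3 +
      200971 / 50000 * s ^ 2 * t ^ 2 + 43259 / 25000 * s ^ 3 * t + 3389 / 12500 * s ^ 4 =
      1 * (1 + u + 639 / 1000 * u ^ 2) -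
      (36788 / 100000 *
      (1 + (u + 1) + (u + 1) ^ 2 / 2 + (u + 1) ^ 3 / 6 + (u + 1) ^ 4 / 24)) := by
    rw [hs, ht]
    ring
  rw [e] at h
  linarith

theorem od_seven_d11_c0 (u : ℝ) (h1 : -3 ≤ u) (h2 : u ≤ -2) :
    13534 / 100000 *
      (1 + (u + 2) + (u + 2) ^ 2 / 2 + (u + 2) ^ 3 / 6 + (u + 2) ^ 4 / 24) ≤
      1 * (1 + u + 639 / 1000 * u ^ 2) := by
  obtain ⟨s, hs⟩ : ∃ s, s = u - (-3) := ⟨_, rfl⟩
  obtain ⟨t, ht⟩ : ∃ t, t = -2 - u := ⟨_, rfl⟩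
  have hs0 : 0 ≤ s := by linarith
  have ht0 : 0 ≤ t := by linarith
  have h : 0 ≤
      1480099 / 400000 * t ^ 4 + 3576563 / 300000 * s * t ^ 3 +
      1416931 / 100000 * s ^ 2 * t ^ 2 + 368699 / 50000 * s ^ 3 * t + 71033 / 50000 * s ^ 4 := by
    positivity
  have e :
      1480099 / 400000 * t ^ 4 + 3576563 / 300000 * s * t ^ 3 +
      1416931 / 100000 * s ^ 2 * t ^ 2 + 368699 / 50000 * s ^ 3 * t + 71033 / 50000 * s ^ 4 =
      1 * (1 + u + 639 / 1000 * u ^ 2) -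
      (13534 / 100000 *
      (1 + (u + 2) + (u + 2) ^ 2 / 2 + (u + 2) ^ 3 / 6 + (u + 2) ^ 4 / 24)) := by
    rw [hs, ht]
    ring
  rw [e] at h
  linarith

theorem od_seven_d11_d (u : ℝ) (h2 : u ≤ -3) :
    4979 / 100000 ≤
      1 * (1 + u + 639 / 1000 * u ^ 2) := by
  obtain ⟨s, hs⟩ : ∃ s, s = -3 - u := ⟨_, rfl⟩
  have hs0 : 0 ≤ s := by linarith
  have h : 0 ≤
      370121 / 100000 + 1417 / 500 * s + 639 / 1000 * s ^ 2 := by
    positivity
  have e :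
      370121 / 100000 + 1417 / 500 * s + 639 / 1000 * s ^ 2 =
      1 * (1 + u + 639 / 1000 * u ^ 2) -
      (4979 / 100000) := by
    rw [hs]
    ring
  rw [e] at h
  linarith

theorem od_seven_d11_e0 (u : ℝ) (h1 : 0 ≤ u) (h2 : u ≤ 1 / 3) :
    1 + u + u ^ 2 / 2 + u ^ 3 / 6 + u ^ 4 / 24 + u ^ 5 / 100 ≤
      1 * (1 + u + 639 / 1000 * u ^ 2) := by
  obtain ⟨s, hs⟩ : ∃ s, s = u - (0) := ⟨_, rfl⟩
  obtain ⟨t, ht⟩ : ∃ t, t = 1 / 3 - u := ⟨_, rfl⟩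
  have hs0 : 0 ≤ s := by linarith
  have ht0 : 0 ≤ t := by linarith
  have h : 0 ≤
      3753 / 1000 * s ^ 2 * t ^ 3 + 9759 / 1000 * s ^ 3 * t ^ 2 + 4067 / 500 * s ^ 4 * t +
      1059 / 500 * s ^ 5 := by
    positivity
  have e :
      3753 / 1000 * s ^ 2 * t ^ 3 + 9759 / 1000 * s ^ 3 * t ^ 2 + 4067 / 500 * s ^ 4 * t +
      1059 / 500 * s ^ 5 =
      1 * (1 + u + 639 / 1000 * u ^ 2) -
      (1 + u + u ^ 2 / 2 + u ^ 3 / 6 + u ^ 4 / 24 + u ^ 5 / 100) := by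
    rw [hs, ht]
    ring
  rw [e] at h
  linarith

theorem od_seven_d11_f0 (u : ℝ) (h1 : 1 / 3 ≤ u) (h2 : u ≤ 1) :
    69781 / 50000 * (1 + (u - 1 / 3) / 7) ^ 7 ≤
      1 * (1 + u + 639 / 1000 * u ^ 2) := by
  obtain ⟨s, hs⟩ : ∃ s, s = u - (1 / 3) := ⟨_, rfl⟩
  obtain ⟨t, ht⟩ : ∃ t, t = 1 - u := ⟨_, rfl⟩
  have hs0 : 0 ≤ s := by linarith
  have ht0 : 0 ≤ t := by linarith
  have h : 0 ≤
      952803 / 6400000 * t ^ 7 + 8884323 / 6400000 * s * t ^ 6 +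
      246985929 / 44800000 * s ^ 2 * t ^ 5 + 704499363 / 62720000 * s ^ 3 * t ^ 4 +
      5392826883 / 439040000 * s ^ 4 * t ^ 3 + 105806592009 / 15366400000 * s ^ 5 * t ^ 2 +
      169167263523 / 107564800000 * s ^ 6 * t + 61508467843 / 5270675200000 * s ^ 7 := by
    positivity
  have e :
      952803 / 6400000 * t ^ 7 + 8884323 / 6400000 * s * t ^ 6 +
      246985929 / 44800000 * s ^ 2 * t ^ 5 + 704499363 / 62720000 * s ^ 3 * t ^ 4 +
      5392826883 / 439040000 * s ^ 4 * t ^ 3 + 105806592009 / 15366400000 * s ^ 5 * t ^ 2 +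
      169167263523 / 107564800000 * s ^ 6 * t + 61508467843 / 5270675200000 * s ^ 7 =
      1 * (1 + u + 639 / 1000 * u ^ 2) -
      (69781 / 50000 * (1 + (u - 1 / 3) / 7) ^ 7) := by
    rw [hs, ht]
    ring
  rw [e] at h
  linarith

theorem od_seven_d11_g0 (u : ℝ) (h1 : 1 ≤ u) (h2 : u ≤ 2) :
    69781 / 50000 * (1 + (u - 1 / 3) / 7) ^ 7 ≤
      1 * ((1 + (1 / 20 * (u ^ 2 - 1)) +
      (1 / 20 * (u ^ 2 - 1)) ^ 2 / 2 +
      (1 / 20 * (u ^ 2 - 1)) ^ 3 / 6) *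
      (1 + u + 639 / 1000 * u ^ 2)) := by
  obtain ⟨s, hs⟩ : ∃ s, s = u - (1) := ⟨_, rfl⟩
  obtain ⟨t, ht⟩ : ∃ t, t = 2 - u := ⟨_, rfl⟩
  have hs0 : 0 ≤ s := by linarith
  have ht0 : 0 ≤ t := by linarith
  have h : 0 ≤
      61508467843 / 90054427050000 * t ^ 8 + 249389521693 / 1801088541000 * s * t ^ 7 +
      10492321309391 / 10291934520000 * s ^ 2 * t ^ 6 +
      1669966009520489 / 514596726000000 * s ^ 3 * t ^ 5 +
      30227610698393 / 5250987000000 * s ^ 4 * t ^ 4 +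
      507235640775953 / 82335476160000 * s ^ 5 * t ^ 3 +
      16434954608931833 / 4116773808000000 * s ^ 6 * t ^ 2 +
      10489605730924483 / 7204354164000000 * s ^ 7 * t +
      1666904389016981 / 7204354164000000 * s ^ 8 := by
    positivity
  have e :
      61508467843 / 90054427050000 * t ^ 8 + 249389521693 / 1801088541000 * s * t ^ 7 +
      10492321309391 / 10291934520000 * s ^ 2 * t ^ 6 +
      1669966009520489 / 514596726000000 * s ^ 3 * t ^ 5 +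
      30227610698393 / 5250987000000 * s ^ 4 * t ^ 4 +
      507235640775953 / 82335476160000 * s ^ 5 * t ^ 3 +
      16434954608931833 / 4116773808000000 * s ^ 6 * t ^ 2 +
      10489605730924483 / 7204354164000000 * s ^ 7 * t +
      1666904389016981 / 7204354164000000 * s ^ 8 =
      1 * ((1 + (1 / 20 * (u ^ 2 - 1)) +
      (1 / 20 * (u ^ 2 - 1)) ^ 2 / 2 +
      (1 / 20 * (u ^ 2 - 1)) ^ 3 / 6) *
      (1 + u + 639 / 1000 * u ^ 2)) -
      (69781 / 50000 * (1 + (u - 1 / 3) / 7) ^ 7) := by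
    rw [hs, ht]
    ring
  rw [e] at h
  linarith

theorem od_seven_d11_t (u : ℝ) (h1 : 2 ≤ u) :
    69781 / 50000 * (1 + (u - 1 / 3) / 7) ^ 7 ≤
      1 * ((1 + (1 / 20 * (u ^ 2 - 1)) +
      (1 / 20 * (u ^ 2 - 1)) ^ 2 / 2 +
      (1 / 20 * (u ^ 2 - 1)) ^ 3 / 6) *
      (1 + u + 639 / 1000 * u ^ 2)) := by
  obtain ⟨s, hs⟩ : ∃ s, s = u - (2) := ⟨_, rfl⟩
  have hs0 : 0 ≤ s := by linarith
  have h : 0 ≤
      1666904389016981 / 7204354164000000 + 27101232202013 / 68612896800000 * s +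
      42481552203911 / 152473104000000 * s ^ 2 + 25810810628 / 148899515625 * s ^ 3 +
      3677983576777 / 50824368000000 * s ^ 4 + 22001609983 / 1411788000000 * s ^ 5 +
      13889190239 / 5647152000000 * s ^ 6 + 1147057109 / 4941258000000 * s ^ 7 +
      213 / 16000000 * s ^ 8 := by
    positivity
  have e :
      1666904389016981 / 7204354164000000 + 27101232202013 / 68612896800000 * s +
      42481552203911 / 152473104000000 * s ^ 2 + 25810810628 / 148899515625 * s ^ 3 +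
      3677983576777 / 50824368000000 * s ^ 4 + 22001609983 / 1411788000000 * s ^ 5 +
      13889190239 / 5647152000000 * s ^ 6 + 1147057109 / 4941258000000 * s ^ 7 +
      213 / 16000000 * s ^ 8 =
      1 * ((1 + (1 / 20 * (u ^ 2 - 1)) +
      (1 / 20 * (u ^ 2 - 1)) ^ 2 / 2 +
      (1 / 20 * (u ^ 2 - 1)) ^ 3 / 6) *
      (1 + u + 639 / 1000 * u ^ 2)) -
      (69781 / 50000 * (1 + (u - 1 / 3) / 7) ^ 7) := by
    rw [hs]
    ring
  rw [e] at h
  linarith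

/-- `K = 7`: `(c, μ, P, δ) = (639 / 1000, 1 / 20, 1 / 3, 0)` -/
theorem expOd_seven_d11 : ExpOd 7 (639 / 1000) (1 / 20) (1 / 3) (0) := by
  have hde : 1 ≤ Real.exp (0) := Real.exp_zero.ge
  have hq : ∀ u : ℝ, 0 ≤ 1 + u + 639 / 1000 * u ^ 2 := fun u => by
    nlinarith [sq_nonneg (u + 2), sq_nonneg u]
  have hR : ∀ (u x y : ℝ), x ≤ y → y ≤ 1 * (1 + u + 639 / 1000 * u ^ 2) →
      x ≤ Real.exp (0) * (1 + u + 639 / 1000 * u ^ 2) := fun u x y h1 h2 =>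
    (h1.trans h2).trans (mul_le_mul_of_nonneg_right hde (hq u))
  refine ExpOd.of (by norm_num) (by norm_num) (by norm_num) (by norm_num) (by norm_num) ?_ ?_ ?_
  · intro u h1
    rcases le_total u (-3) with h3 | h3
    · exact hR u _ _ (exp_le_n3 h3) (od_seven_d11_d u h3)
    rcases le_total u (-2) with h4 | h4
    · refine hR u _ _ (exp_le_n2 h4) ?_
      exact od_seven_d11_c0 u (by linarith) (by linarith)
    rcases le_total u (-1) with h5 | h5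
    · refine hR u _ _ (exp_le_n1 h5) ?_
      exact od_seven_d11_b0 u (by linarith) (by linarith)
    rcases le_total u 0 with h6 | h6
    · refine hR u _ _ (exp_le_n0 h6) ?_
      exact od_seven_d11_a0 u (by linarith) (by linarith)
    refine hR u _ _ (exp_le_p h6 (by linarith)) ?_
    exact od_seven_d11_e0 u (by linarith) (by linarith)
  · intro u h1 h2
    have h4 : 0 ≤ (1 + (u - 1 / 3) / 7) ^ 7 := by
      have : 0 ≤ (u - 1 / 3) / 7 := div_nonneg (by linarith) (by norm_num)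
      positivity
    have hE : Real.exp (1 / 3) ≤ 69781 / 50000 := exp_up_1_3
    push_cast
    refine hR u _ _ (mul_le_mul_of_nonneg_right hE h4) ?_
    exact od_seven_d11_f0 u (by linarith) (by linarith)
  · intro u h1
    have h4 : 0 ≤ (1 + (u - 1 / 3) / 7) ^ 7 := by
      have : 0 ≤ (u - 1 / 3) / 7 := div_nonneg (by linarith) (by norm_num)
      positivity
    have hE : Real.exp (1 / 3) ≤ 69781 / 50000 := exp_up_1_3
    have hx : 0 ≤ 1 / 20 * (u ^ 2 - 1) := mul_nonneg (by norm_num) (by nlinarith)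
    have h5 := mul_le_mul_of_nonneg_right (taylor3_le_exp _ hx) (hq u)
    have h6 : 0 ≤ Real.exp (1 / 20 * (u ^ 2 - 1)) * (1 + u + 639 / 1000 * u ^ 2) :=
      mul_nonneg (Real.exp_nonneg _) (hq u)
    rw [Real.exp_add, mul_assoc]
    push_cast
    refine ((mul_le_mul_of_nonneg_right hE h4).trans ?_).trans
      ((mul_le_mul_of_nonneg_left h5 (by norm_num : (0 : ℝ) ≤ 1)).trans
        (mul_le_mul_of_nonneg_right hde h6))
    rcases le_total u (2) with hh | hh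
    · exact od_seven_d11_g0 u (by linarith) (by linarith)
    exact od_seven_d11_t u (by linarith)

theorem od_seven_d12_a0 (u : ℝ) (h1 : -1 ≤ u) (h2 : u ≤ 0) :
    1 + u + u ^ 2 / 2 + u ^ 3 / 6 + u ^ 4 / 24 ≤
      (1 + 1 / 50 + (1 / 50) ^ 2 / 2) * (1 + u + 587 / 1000 * u ^ 2) := by
  obtain ⟨s, hs⟩ : ∃ s, s = u - (-1) := ⟨_, rfl⟩
  obtain ⟨t, ht⟩ : ∃ t, t = 0 - u := ⟨_, rfl⟩
  have hs0 : 0 ≤ s := by linarith
  have ht0 : 0 ≤ t := by linarith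
  have h : 0 ≤
      1119287 / 5000000 * t ^ 4 + 2884361 / 7500000 * s * t ^ 3 +
      797287 / 5000000 * s ^ 2 * t ^ 2 + 303 / 5000 * s ^ 3 * t + 101 / 5000 * s ^ 4 := by
    positivity
  have e :
      1119287 / 5000000 * t ^ 4 + 2884361 / 7500000 * s * t ^ 3 +
      797287 / 5000000 * s ^ 2 * t ^ 2 + 303 / 5000 * s ^ 3 * t + 101 / 5000 * s ^ 4 =
      (1 + 1 / 50 + (1 / 50) ^ 2 / 2) * (1 + u + 587 / 1000 * u ^ 2) -
      (1 + u + u ^ 2 / 2 + u ^ 3 / 6 + u ^ 4 / 24) := by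
    rw [hs, ht]
    ring
  rw [e] at h
  linarith

theorem od_seven_d12_b0 (u : ℝ) (h1 : -2 ≤ u) (h2 : u ≤ -1) :
    36788 / 100000 *
      (1 + (u + 1) + (u + 1) ^ 2 / 2 + (u + 1) ^ 3 / 6 + (u + 1) ^ 4 / 24) ≤
      (1 + 1 / 50 + (1 / 50) ^ 2 / 2) * (1 + u + 587 / 1000 * u ^ 2) := by
  obtain ⟨s, hs⟩ : ∃ s, s = u - (-2) := ⟨_, rfl⟩
  obtain ⟨t, ht⟩ : ∃ t, t = -1 - u := ⟨_, rfl⟩
  have hs0 : 0 ≤ s := by linarith
  have ht0 : 0 ≤ t := by linarith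
  have h : 0 ≤
      6186373 / 5000000 * t ^ 4 + 6471079 / 1875000 * s * t ^ 3 +
      17184831 / 5000000 * s ^ 2 * t ^ 2 + 3673261 / 2500000 * s ^ 3 * t +
      1154887 / 5000000 * s ^ 4 := by
    positivity
  have e :
      6186373 / 5000000 * t ^ 4 + 6471079 / 1875000 * s * t ^ 3 +
      17184831 / 5000000 * s ^ 2 * t ^ 2 + 3673261 / 2500000 * s ^ 3 * t +
      1154887 / 5000000 * s ^ 4 =
      (1 + 1 / 50 + (1 / 50) ^ 2 / 2) * (1 + u + 587 / 1000 * u ^ 2) -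
      (36788 / 100000 *
      (1 + (u + 1) + (u + 1) ^ 2 / 2 + (u + 1) ^ 3 / 6 + (u + 1) ^ 4 / 24)) := by
    rw [hs, ht]
    ring
  rw [e] at h
  linarith

theorem od_seven_d12_c0 (u : ℝ) (h1 : -3 ≤ u) (h2 : u ≤ -2) :
    13534 / 100000 *
      (1 + (u + 2) + (u + 2) ^ 2 / 2 + (u + 2) ^ 3 / 6 + (u + 2) ^ 4 / 24) ≤
      (1 + 1 / 50 + (1 / 50) ^ 2 / 2) * (1 + u + 587 / 1000 * u ^ 2) := by
  obtain ⟨s, hs⟩ : ∃ s, s = u - (-3) := ⟨_, rfl⟩
  obtain ⟨t, ht⟩ : ∃ t, t = -2 - u := ⟨_, rfl⟩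
  have hs0 : 0 ≤ s := by linarith
  have ht0 : 0 ≤ t := by linarith
  have h : 0 ≤
      32985641 / 10000000 * t ^ 4 + 7932149 / 750000 * s * t ^ 3 +
      62511169 / 5000000 * s ^ 2 * t ^ 2 + 404383 / 62500 * s ^ 3 * t +
      774931 / 625000 * s ^ 4 := by
    positivity
  have e :
      32985641 / 10000000 * t ^ 4 + 7932149 / 750000 * s * t ^ 3 +
      62511169 / 5000000 * s ^ 2 * t ^ 2 + 404383 / 62500 * s ^ 3 * t +
      774931 / 625000 * s ^ 4 =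
      (1 + 1 / 50 + (1 / 50) ^ 2 / 2) * (1 + u + 587 / 1000 * u ^ 2) -
      (13534 / 100000 *
      (1 + (u + 2) + (u + 2) ^ 2 / 2 + (u + 2) ^ 3 / 6 + (u + 2) ^ 4 / 24)) := by
    rw [hs, ht]
    ring
  rw [e] at h
  linarith

theorem od_seven_d12_d (u : ℝ) (h2 : u ≤ -3) :
    4979 / 100000 ≤
      (1 + 1 / 50 + (1 / 50) ^ 2 / 2) * (1 + u + 587 / 1000 * u ^ 2) := by
  obtain ⟨s, hs⟩ : ∃ s, s = -3 - u := ⟨_, rfl⟩
  have hs0 : 0 ≤ s := by linarith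
  have h : 0 ≤
      16497633 / 5000000 + 6432361 / 2500000 * s + 2994287 / 5000000 * s ^ 2 := by
    positivity
  have e :
      16497633 / 5000000 + 6432361 / 2500000 * s + 2994287 / 5000000 * s ^ 2 =
      (1 + 1 / 50 + (1 / 50) ^ 2 / 2) * (1 + u + 587 / 1000 * u ^ 2) -
      (4979 / 100000) := by
    rw [hs]
    ring
  rw [e] at h
  linarith

theorem od_seven_d12_e0 (u : ℝ) (h1 : 0 ≤ u) (h2 : u ≤ 1 / 3) :
    1 + u + u ^ 2 / 2 + u ^ 3 / 6 + u ^ 4 / 24 + u ^ 5 / 100 ≤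
      (1 + 1 / 50 + (1 / 50) ^ 2 / 2) * (1 + u + 587 / 1000 * u ^ 2) := by
  obtain ⟨s, hs⟩ : ∃ s, s = u - (0) := ⟨_, rfl⟩
  obtain ⟨t, ht⟩ : ∃ t, t = 1 / 3 - u := ⟨_, rfl⟩
  have hs0 : 0 ≤ s := by linarith
  have ht0 : 0 ≤ t := by linarith
  have h : 0 ≤
      24543 / 5000 * t ^ 5 + 16362 / 625 * s * t ^ 4 + 291499749 / 5000000 * s ^ 2 * t ^ 3 +
      327053247 / 5000000 * s ^ 3 * t ^ 2 + 179851247 / 5000000 * s ^ 4 * t +
      37894749 / 5000000 * s ^ 5 := by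
    positivity
  have e :
      24543 / 5000 * t ^ 5 + 16362 / 625 * s * t ^ 4 + 291499749 / 5000000 * s ^ 2 * t ^ 3 +
      327053247 / 5000000 * s ^ 3 * t ^ 2 + 179851247 / 5000000 * s ^ 4 * t +
      37894749 / 5000000 * s ^ 5 =
      (1 + 1 / 50 + (1 / 50) ^ 2 / 2) * (1 + u + 587 / 1000 * u ^ 2) -
      (1 + u + u ^ 2 / 2 + u ^ 3 / 6 + u ^ 4 / 24 + u ^ 5 / 100) := by
    rw [hs, ht]
    ring
  rw [e] at h
  linarith

theorem od_seven_d12_f0 (u : ℝ) (h1 : 1 / 3 ≤ u) (h2 : u ≤ 1) :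
    69781 / 50000 * (1 + (u - 1 / 3) / 7) ^ 7 ≤
      (1 + 1 / 50 + (1 / 50) ^ 2 / 2) * (1 + u + 587 / 1000 * u ^ 2) := by
  obtain ⟨s, hs⟩ : ∃ s, s = u - (1 / 3) := ⟨_, rfl⟩
  obtain ⟨t, ht⟩ : ∃ t, t = 1 - u := ⟨_, rfl⟩
  have hs0 : 0 ≤ s := by linarith
  have ht0 : 0 ≤ t := by linarith
  have h : 0 ≤
      341023041 / 640000000 * t ^ 7 + 2560796451 / 640000000 * s * t ^ 6 +
      57448053063 / 4480000000 * s ^ 2 * t ^ 5 + 138148387407 / 6272000000 * s ^ 3 * t ^ 4 +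
      929847517353 / 43904000000 * s ^ 4 * t ^ 3 +
      16564291328961 / 1536640000000 * s ^ 5 * t ^ 2 +
      24609690107637 / 10756480000000 * s ^ 6 * t + 8468847736567 / 527067520000000 * s ^ 7 := by
    positivity
  have e :
      341023041 / 640000000 * t ^ 7 + 2560796451 / 640000000 * s * t ^ 6 +
      57448053063 / 4480000000 * s ^ 2 * t ^ 5 + 138148387407 / 6272000000 * s ^ 3 * t ^ 4 +
      929847517353 / 43904000000 * s ^ 4 * t ^ 3 +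
      16564291328961 / 1536640000000 * s ^ 5 * t ^ 2 +
      24609690107637 / 10756480000000 * s ^ 6 * t + 8468847736567 / 527067520000000 * s ^ 7 =
      (1 + 1 / 50 + (1 / 50) ^ 2 / 2) * (1 + u + 587 / 1000 * u ^ 2) -
      (69781 / 50000 * (1 + (u - 1 / 3) / 7) ^ 7) := by
    rw [hs, ht]
    ring
  rw [e] at h
  linarith

theorem od_seven_d12_g0 (u : ℝ) (h1 : 1 ≤ u) (h2 : u ≤ 2) :
    69781 / 50000 * (1 + (u - 1 / 3) / 7) ^ 7 ≤
      (1 + 1 / 50 + (1 / 50) ^ 2 / 2) * ((1 + (1 / 20 * (u ^ 2 - 1)) +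
      (1 / 20 * (u ^ 2 - 1)) ^ 2 / 2 +
      (1 / 20 * (u ^ 2 - 1)) ^ 3 / 6) *
      (1 + u + 587 / 1000 * u ^ 2)) := by
  obtain ⟨s, hs⟩ : ∃ s, s = u - (1) := ⟨_, rfl⟩
  obtain ⟨t, ht⟩ : ∃ t, t = 2 - u := ⟨_, rfl⟩
  have hs0 : 0 ≤ s := by linarith
  have ht0 : 0 ≤ t := by linarith
  have h : 0 ≤
      8468847736567 / 9005442705000000 * t ^ 8 +
      7246295901598967 / 90054427050000000 * s * t ^ 7 +
      144119063258249171 / 257298363000000000 * s ^ 2 * t ^ 6 +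
      4410659897641862617 / 2572983630000000000 * s ^ 3 * t ^ 5 +
      77224542895630969 / 26254935000000000 * s ^ 4 * t ^ 4 +
      6312342370293217637 / 2058386904000000000 * s ^ 5 * t ^ 3 +
      40279607929153588489 / 20583869040000000000 * s ^ 6 * t ^ 2 +
      25688439513596295419 / 36021770820000000000 * s ^ 7 * t +
      4150706360094660013 / 36021770820000000000 * s ^ 8 := by
    positivity
  have e :
      8468847736567 / 9005442705000000 * t ^ 8 +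
      7246295901598967 / 90054427050000000 * s * t ^ 7 +
      144119063258249171 / 257298363000000000 * s ^ 2 * t ^ 6 +
      4410659897641862617 / 2572983630000000000 * s ^ 3 * t ^ 5 +
      77224542895630969 / 26254935000000000 * s ^ 4 * t ^ 4 +
      6312342370293217637 / 2058386904000000000 * s ^ 5 * t ^ 3 +
      40279607929153588489 / 20583869040000000000 * s ^ 6 * t ^ 2 +
      25688439513596295419 / 36021770820000000000 * s ^ 7 * t +
      4150706360094660013 / 36021770820000000000 * s ^ 8 =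
      (1 + 1 / 50 + (1 / 50) ^ 2 / 2) * ((1 + (1 / 20 * (u ^ 2 - 1)) +
      (1 / 20 * (u ^ 2 - 1)) ^ 2 / 2 +
      (1 / 20 * (u ^ 2 - 1)) ^ 3 / 6) *
      (1 + u + 587 / 1000 * u ^ 2)) -
      (69781 / 50000 * (1 + (u - 1 / 3) / 7) ^ 7) := by
    rw [hs, ht]
    ring
  rw [e] at h
  linarith

theorem od_seven_d12_t (u : ℝ) (h1 : 2 ≤ u) :
    69781 / 50000 * (1 + (u - 1 / 3) / 7) ^ 7 ≤
      (1 + 1 / 50 + (1 / 50) ^ 2 / 2) * ((1 + (1 / 20 * (u ^ 2 - 1)) +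
      (1 / 20 * (u ^ 2 - 1)) ^ 2 / 2 +
      (1 / 20 * (u ^ 2 - 1)) ^ 3 / 6) *
      (1 + u + 587 / 1000 * u ^ 2)) := by
  obtain ⟨s, hs⟩ : ∃ s, s = u - (2) := ⟨_, rfl⟩
  have hs0 : 0 ≤ s := by linarith
  have h : 0 ≤
      4150706360094660013 / 36021770820000000000 +
      71592489211056997 / 343064484000000000 * s +
      145820430973443223 / 762365520000000000 * s ^ 2 +
      3605964388730243 / 23823922500000000 * s ^ 3 +
      17043286230594041 / 254121840000000000 * s ^ 4 +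
      103779884916679 / 7058940000000000 * s ^ 5 +
      21877825626149 / 9411920000000000 * s ^ 6 + 1805030401019 / 8235430000000000 * s ^ 7 +
      2994287 / 240000000000 * s ^ 8 := by
    positivity
  have e :
      4150706360094660013 / 36021770820000000000 +
      71592489211056997 / 343064484000000000 * s +
      145820430973443223 / 762365520000000000 * s ^ 2 +
      3605964388730243 / 23823922500000000 * s ^ 3 +
      17043286230594041 / 254121840000000000 * s ^ 4 +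
      103779884916679 / 7058940000000000 * s ^ 5 +
      21877825626149 / 9411920000000000 * s ^ 6 + 1805030401019 / 8235430000000000 * s ^ 7 +
      2994287 / 240000000000 * s ^ 8 =
      (1 + 1 / 50 + (1 / 50) ^ 2 / 2) * ((1 + (1 / 20 * (u ^ 2 - 1)) +
      (1 / 20 * (u ^ 2 - 1)) ^ 2 / 2 +
      (1 / 20 * (u ^ 2 - 1)) ^ 3 / 6) *
      (1 + u + 587 / 1000 * u ^ 2)) -
      (69781 / 50000 * (1 + (u - 1 / 3) / 7) ^ 7) := by
    rw [hs]
    ring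
  rw [e] at h
  linarith

/-- `K = 7`: `(c, μ, P, δ) = (587 / 1000, 1 / 20, 1 / 3, 1 / 50)` -/
theorem expOd_seven_d12 : ExpOd 7 (587 / 1000) (1 / 20) (1 / 3) (1 / 50) := by
  have hde : (1 + 1 / 50 + (1 / 50) ^ 2 / 2) ≤ Real.exp (1 / 50) := Real.quadratic_le_exp_of_nonneg (by norm_num)
  have hq : ∀ u : ℝ, 0 ≤ 1 + u + 587 / 1000 * u ^ 2 := fun u => by
    nlinarith [sq_nonneg (u + 2), sq_nonneg u]
  have hR : ∀ (u x y : ℝ), x ≤ y → y ≤ (1 + 1 / 50 + (1 / 50) ^ 2 / 2) * (1 + u + 587 / 1000 * u ^ 2) →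
      x ≤ Real.exp (1 / 50) * (1 + u + 587 / 1000 * u ^ 2) := fun u x y h1 h2 =>
    (h1.trans h2).trans (mul_le_mul_of_nonneg_right hde (hq u))
  refine ExpOd.of (by norm_num) (by norm_num) (by norm_num) (by norm_num) (by norm_num) ?_ ?_ ?_
  · intro u h1
    rcases le_total u (-3) with h3 | h3
    · exact hR u _ _ (exp_le_n3 h3) (od_seven_d12_d u h3)
    rcases le_total u (-2) with h4 | h4
    · refine hR u _ _ (exp_le_n2 h4) ?_
      exact od_seven_d12_c0 u (by linarith) (by linarith)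
    rcases le_total u (-1) with h5 | h5
    · refine hR u _ _ (exp_le_n1 h5) ?_
      exact od_seven_d12_b0 u (by linarith) (by linarith)
    rcases le_total u 0 with h6 | h6
    · refine hR u _ _ (exp_le_n0 h6) ?_
      exact od_seven_d12_a0 u (by linarith) (by linarith)
    refine hR u _ _ (exp_le_p h6 (by linarith)) ?_
    exact od_seven_d12_e0 u (by linarith) (by linarith)
  · intro u h1 h2
    have h4 : 0 ≤ (1 + (u - 1 / 3) / 7) ^ 7 := by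
      have : 0 ≤ (u - 1 / 3) / 7 := div_nonneg (by linarith) (by norm_num)
      positivity
    have hE : Real.exp (1 / 3) ≤ 69781 / 50000 := exp_up_1_3
    push_cast
    refine hR u _ _ (mul_le_mul_of_nonneg_right hE h4) ?_
    exact od_seven_d12_f0 u (by linarith) (by linarith)
  · intro u h1
    have h4 : 0 ≤ (1 + (u - 1 / 3) / 7) ^ 7 := by
      have : 0 ≤ (u - 1 / 3) / 7 := div_nonneg (by linarith) (by norm_num)
      positivity
    have hE : Real.exp (1 / 3) ≤ 69781 / 50000 := exp_up_1_3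
    have hx : 0 ≤ 1 / 20 * (u ^ 2 - 1) := mul_nonneg (by norm_num) (by nlinarith)
    have h5 := mul_le_mul_of_nonneg_right (taylor3_le_exp _ hx) (hq u)
    have h6 : 0 ≤ Real.exp (1 / 20 * (u ^ 2 - 1)) * (1 + u + 587 / 1000 * u ^ 2) :=
      mul_nonneg (Real.exp_nonneg _) (hq u)
    rw [Real.exp_add, mul_assoc]
    push_cast
    refine ((mul_le_mul_of_nonneg_right hE h4).trans ?_).trans
      ((mul_le_mul_of_nonneg_left h5 (by norm_num : (0 : ℝ) ≤ (1 + 1 / 50 + (1 / 50) ^ 2 / 2))).trans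
        (mul_le_mul_of_nonneg_right hde h6))
    rcases le_total u (2) with hh | hh
    · exact od_seven_d12_g0 u (by linarith) (by linarith)
    exact od_seven_d12_t u (by linarith)

theorem od_seven_d13_a0 (u : ℝ) (h1 : -1 ≤ u) (h2 : u ≤ 0) :
    1 + u + u ^ 2 / 2 + u ^ 3 / 6 + u ^ 4 / 24 ≤
      (1 + 1 / 10 + (1 / 10) ^ 2 / 2) * (1 + u + 117 / 250 * u ^ 2) := by
  obtain ⟨s, hs⟩ : ∃ s, s = u - (-1) := ⟨_, rfl⟩
  obtain ⟨t, ht⟩ : ∃ t, t = 0 - u := ⟨_, rfl⟩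
  have hs0 : 0 ≤ s := by linarith
  have ht0 : 0 ≤ t := by linarith
  have h : 0 ≤
      7107 / 50000 * t ^ 4 + 11473 / 37500 * s * t ^ 3 + 16607 / 50000 * s ^ 2 * t ^ 2 +
      63 / 200 * s ^ 3 * t + 21 / 200 * s ^ 4 := by
    positivity
  have e :
      7107 / 50000 * t ^ 4 + 11473 / 37500 * s * t ^ 3 + 16607 / 50000 * s ^ 2 * t ^ 2 +
      63 / 200 * s ^ 3 * t + 21 / 200 * s ^ 4 =
      (1 + 1 / 10 + (1 / 10) ^ 2 / 2) * (1 + u + 117 / 250 * u ^ 2) -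
      (1 + u + u ^ 2 / 2 + u ^ 3 / 6 + u ^ 4 / 24) := by
    rw [hs, ht]
    ring
  rw [e] at h
  linarith

theorem od_seven_d13_b0 (u : ℝ) (h1 : -2 ≤ u) (h2 : u ≤ -1) :
    36788 / 100000 *
      (1 + (u + 1) + (u + 1) ^ 2 / 2 + (u + 1) ^ 3 / 6 + (u + 1) ^ 4 / 24) ≤
      (1 + 1 / 10 + (1 / 10) ^ 2 / 2) * (1 + u + 117 / 250 * u ^ 2) := by
  obtain ⟨s, hs⟩ : ∃ s, s = u - (-2) := ⟨_, rfl⟩
  obtain ⟨t, ht⟩ : ∃ t, t = -1 - u := ⟨_, rfl⟩
  have hs0 : 0 ≤ s := by linarith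
  have ht0 : 0 ≤ t := by linarith
  have h : 0 ≤
      165121 / 200000 * t ^ 4 + 66487 / 30000 * s * t ^ 3 + 26503 / 12500 * s ^ 2 * t ^ 2 +
      4471 / 5000 * s ^ 3 * t + 7463 / 50000 * s ^ 4 := by
    positivity
  have e :
      165121 / 200000 * t ^ 4 + 66487 / 30000 * s * t ^ 3 + 26503 / 12500 * s ^ 2 * t ^ 2 +
      4471 / 5000 * s ^ 3 * t + 7463 / 50000 * s ^ 4 =
      (1 + 1 / 10 + (1 / 10) ^ 2 / 2) * (1 + u + 117 / 250 * u ^ 2) -
      (36788 / 100000 *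
      (1 + (u + 1) + (u + 1) ^ 2 / 2 + (u + 1) ^ 3 / 6 + (u + 1) ^ 4 / 24)) := by
    rw [hs, ht]
    ring
  rw [e] at h
  linarith

theorem od_seven_d13_c0 (u : ℝ) (h1 : -3 ≤ u) (h2 : u ≤ -2) :
    13534 / 100000 *
      (1 + (u + 2) + (u + 2) ^ 2 / 2 + (u + 2) ^ 3 / 6 + (u + 2) ^ 4 / 24) ≤
      (1 + 1 / 10 + (1 / 10) ^ 2 / 2) * (1 + u + 117 / 250 * u ^ 2) := by
  obtain ⟨s, hs⟩ : ∃ s, s = u - (-3) := ⟨_, rfl⟩
  obtain ⟨t, ht⟩ : ∃ t, t = -2 - u := ⟨_, rfl⟩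
  have hs0 : 0 ≤ s := by linarith
  have ht0 : 0 ≤ t := by linarith
  have h : 0 ≤
      957403 / 400000 * t ^ 4 + 2259323 / 300000 * s * t ^ 3 +
      871549 / 100000 * s ^ 2 * t ^ 2 + 220589 / 50000 * s ^ 3 * t + 41411 / 50000 * s ^ 4 := by
    positivity
  have e :
      957403 / 400000 * t ^ 4 + 2259323 / 300000 * s * t ^ 3 +
      871549 / 100000 * s ^ 2 * t ^ 2 + 220589 / 50000 * s ^ 3 * t + 41411 / 50000 * s ^ 4 =
      (1 + 1 / 10 + (1 / 10) ^ 2 / 2) * (1 + u + 117 / 250 * u ^ 2) -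
      (13534 / 100000 *
      (1 + (u + 2) + (u + 2) ^ 2 / 2 + (u + 2) ^ 3 / 6 + (u + 2) ^ 4 / 24)) := by
    rw [hs, ht]
    ring
  rw [e] at h
  linarith

theorem od_seven_d13_d (u : ℝ) (h2 : u ≤ -3) :
    4979 / 100000 ≤
      (1 + 1 / 10 + (1 / 10) ^ 2 / 2) * (1 + u + 117 / 250 * u ^ 2) := by
  obtain ⟨s, hs⟩ : ∃ s, s = -3 - u := ⟨_, rfl⟩
  have hs0 : 0 ≤ s := by linarith
  have h : 0 ≤
      239447 / 100000 + 24973 / 12500 * s + 25857 / 50000 * s ^ 2 := by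
    positivity
  have e :
      239447 / 100000 + 24973 / 12500 * s + 25857 / 50000 * s ^ 2 =
      (1 + 1 / 10 + (1 / 10) ^ 2 / 2) * (1 + u + 117 / 250 * u ^ 2) -
      (4979 / 100000) := by
    rw [hs]
    ring
  rw [e] at h
  linarith

theorem od_seven_d13_e0 (u : ℝ) (h1 : 0 ≤ u) (h2 : u ≤ 1 / 3) :
    1 + u + u ^ 2 / 2 + u ^ 3 / 6 + u ^ 4 / 24 + u ^ 5 / 100 ≤
      (1 + 1 / 10 + (1 / 10) ^ 2 / 2) * (1 + u + 117 / 250 * u ^ 2) := by
  obtain ⟨s, hs⟩ : ∃ s, s = u - (0) := ⟨_, rfl⟩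
  obtain ⟨t, ht⟩ : ∃ t, t = 1 / 3 - u := ⟨_, rfl⟩
  have hs0 : 0 ≤ s := by linarith
  have ht0 : 0 ≤ t := by linarith
  have h : 0 ≤
      5103 / 200 * t ^ 5 + 3402 / 25 * s * t ^ 4 + 14481639 / 50000 * s ^ 2 * t ^ 3 +
      15303417 / 50000 * s ^ 3 * t ^ 2 + 7992917 / 50000 * s ^ 4 * t + 1642389 / 50000 * s ^ 5 := by
    positivity
  have e :
      5103 / 200 * t ^ 5 + 3402 / 25 * s * t ^ 4 + 14481639 / 50000 * s ^ 2 * t ^ 3 +
      15303417 / 50000 * s ^ 3 * t ^ 2 + 7992917 / 50000 * s ^ 4 * t + 1642389 / 50000 * s ^ 5 =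
      (1 + 1 / 10 + (1 / 10) ^ 2 / 2) * (1 + u + 117 / 250 * u ^ 2) -
      (1 + u + u ^ 2 / 2 + u ^ 3 / 6 + u ^ 4 / 24 + u ^ 5 / 100) := by
    rw [hs, ht]
    ring
  rw [e] at h
  linarith

theorem od_seven_d13_f0 (u : ℝ) (h1 : 1 / 3 ≤ u) (h2 : u ≤ 1) :
    69781 / 50000 * (1 + (u - 1 / 3) / 7) ^ 7 ≤
      (1 + 1 / 10 + (1 / 10) ^ 2 / 2) * (1 + u + 117 / 250 * u ^ 2) := by
  obtain ⟨s, hs⟩ : ∃ s, s = u - (1 / 3) := ⟨_, rfl⟩
  obtain ⟨t, ht⟩ : ∃ t, t = 1 - u := ⟨_, rfl⟩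
  have hs0 : 0 ≤ s := by linarith
  have ht0 : 0 ≤ t := by linarith
  have h : 0 ≤
      3695301 / 1600000 * t ^ 7 + 53707617 / 3200000 * s * t ^ 6 +
      288881559 / 5600000 * s ^ 2 * t ^ 5 + 541206279 / 6272000 * s ^ 3 * t ^ 4 +
      9227125179 / 109760000 * s ^ 4 * t ^ 3 + 72323339643 / 1536640000 * s ^ 5 * t ^ 2 +
      9206531853 / 672280000 * s ^ 6 * t + 799890566803 / 527067520000 * s ^ 7 := by
    positivity
  have e :
      3695301 / 1600000 * t ^ 7 + 53707617 / 3200000 * s * t ^ 6 +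
      288881559 / 5600000 * s ^ 2 * t ^ 5 + 541206279 / 6272000 * s ^ 3 * t ^ 4 +
      9227125179 / 109760000 * s ^ 4 * t ^ 3 + 72323339643 / 1536640000 * s ^ 5 * t ^ 2 +
      9206531853 / 672280000 * s ^ 6 * t + 799890566803 / 527067520000 * s ^ 7 =
      (1 + 1 / 10 + (1 / 10) ^ 2 / 2) * (1 + u + 117 / 250 * u ^ 2) -
      (69781 / 50000 * (1 + (u - 1 / 3) / 7) ^ 7) := by
    rw [hs, ht]
    ring
  rw [e] at h
  linarith

theorem od_seven_d13_g0 (u : ℝ) (h1 : 1 ≤ u) (h2 : u ≤ 2) :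
    69781 / 50000 * (1 + (u - 1 / 3) / 7) ^ 7 ≤
      (1 + 1 / 10 + (1 / 10) ^ 2 / 2) * ((1 + (1 / 20 * (u ^ 2 - 1)) +
      (1 / 20 * (u ^ 2 - 1)) ^ 2 / 2 +
      (1 / 20 * (u ^ 2 - 1)) ^ 3 / 6) *
      (1 + u + 117 / 250 * u ^ 2)) := by
  obtain ⟨s, hs⟩ : ∃ s, s = u - (1) := ⟨_, rfl⟩
  obtain ⟨t, ht⟩ : ∃ t, t = 2 - u := ⟨_, rfl⟩
  have hs0 : 0 ≤ s := by linarith
  have ht0 : 0 ≤ t := by linarith
  have h : 0 ≤
      799890566803 / 9005442705000 * t ^ 8 + 642700432857887 / 900544270500000 * s * t ^ 7 +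
      6296512846101881 / 2572983630000000 * s ^ 2 * t ^ 6 +
      119601068563398487 / 25729836300000000 * s ^ 3 * t ^ 5 +
      174342467634023 / 32818668750000 * s ^ 4 * t ^ 4 +
      76334545979896607 / 20583869040000000 * s ^ 5 * t ^ 3 +
      314690511084163279 / 205838690400000000 * s ^ 6 * t ^ 2 +
      243246627497227393 / 720435416400000000 * s ^ 7 * t +
      22356284096732261 / 720435416400000000 * s ^ 8 := by
    positivity
  have e :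
      799890566803 / 9005442705000 * t ^ 8 + 642700432857887 / 900544270500000 * s * t ^ 7 +
      6296512846101881 / 2572983630000000 * s ^ 2 * t ^ 6 +
      119601068563398487 / 25729836300000000 * s ^ 3 * t ^ 5 +
      174342467634023 / 32818668750000 * s ^ 4 * t ^ 4 +
      76334545979896607 / 20583869040000000 * s ^ 5 * t ^ 3 +
      314690511084163279 / 205838690400000000 * s ^ 6 * t ^ 2 +
      243246627497227393 / 720435416400000000 * s ^ 7 * t +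
      22356284096732261 / 720435416400000000 * s ^ 8 =
      (1 + 1 / 10 + (1 / 10) ^ 2 / 2) * ((1 + (1 / 20 * (u ^ 2 - 1)) +
      (1 / 20 * (u ^ 2 - 1)) ^ 2 / 2 +
      (1 / 20 * (u ^ 2 - 1)) ^ 3 / 6) *
      (1 + u + 117 / 250 * u ^ 2)) -
      (69781 / 50000 * (1 + (u - 1 / 3) / 7) ^ 7) := by
    rw [hs, ht]
    ring
  rw [e] at h
  linarith

theorem od_seven_d13_g1 (u : ℝ) (h1 : 2 ≤ u) (h2 : u ≤ 3) :
    69781 / 50000 * (1 + (u - 1 / 3) / 7) ^ 7 ≤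
      (1 + 1 / 10 + (1 / 10) ^ 2 / 2) * ((1 + (1 / 20 * (u ^ 2 - 1)) +
      (1 / 20 * (u ^ 2 - 1)) ^ 2 / 2 +
      (1 / 20 * (u ^ 2 - 1)) ^ 3 / 6) *
      (1 + u + 117 / 250 * u ^ 2)) := by
  obtain ⟨s, hs⟩ : ∃ s, s = u - (2) := ⟨_, rfl⟩
  obtain ⟨t, ht⟩ : ∃ t, t = 3 - u := ⟨_, rfl⟩
  have hs0 : 0 ≤ s := by linarith
  have ht0 : 0 ≤ t := by linarith
  have h : 0 ≤
      22356284096732261 / 720435416400000000 * t ^ 8 +
      114453918050488783 / 720435416400000000 * s * t ^ 7 +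
      57105092190686059 / 205838690400000000 * s ^ 2 * t ^ 6 +
      18312988829632627 / 102919345200000000 * s ^ 3 * t ^ 5 +
      4466591904607547 / 25729836300000000 * s ^ 4 * t ^ 4 +
      2403920481706549 / 3675690900000000 * s ^ 5 * t ^ 3 +
      12965222437524799 / 12864918150000000 * s ^ 6 * t ^ 2 +
      14841334039232039 / 22513606762500000 * s ^ 7 * t +
      450791284079531 / 2814200845312500 * s ^ 8 := by
    positivity
  have e :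
      22356284096732261 / 720435416400000000 * t ^ 8 +
      114453918050488783 / 720435416400000000 * s * t ^ 7 +
      57105092190686059 / 205838690400000000 * s ^ 2 * t ^ 6 +
      18312988829632627 / 102919345200000000 * s ^ 3 * t ^ 5 +
      4466591904607547 / 25729836300000000 * s ^ 4 * t ^ 4 +
      2403920481706549 / 3675690900000000 * s ^ 5 * t ^ 3 +
      12965222437524799 / 12864918150000000 * s ^ 6 * t ^ 2 +
      14841334039232039 / 22513606762500000 * s ^ 7 * t +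
      450791284079531 / 2814200845312500 * s ^ 8 =
      (1 + 1 / 10 + (1 / 10) ^ 2 / 2) * ((1 + (1 / 20 * (u ^ 2 - 1)) +
      (1 / 20 * (u ^ 2 - 1)) ^ 2 / 2 +
      (1 / 20 * (u ^ 2 - 1)) ^ 3 / 6) *
      (1 + u + 117 / 250 * u ^ 2)) -
      (69781 / 50000 * (1 + (u - 1 / 3) / 7) ^ 7) := by
    rw [hs, ht]
    ring
  rw [e] at h
  linarith

theorem od_seven_d13_t (u : ℝ) (h1 : 3 ≤ u) :
    69781 / 50000 * (1 + (u - 1 / 3) / 7) ^ 7 ≤
      (1 + 1 / 10 + (1 / 10) ^ 2 / 2) * ((1 + (1 / 20 * (u ^ 2 - 1)) +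
      (1 / 20 * (u ^ 2 - 1)) ^ 2 / 2 +
      (1 / 20 * (u ^ 2 - 1)) ^ 3 / 6) *
      (1 + u + 117 / 250 * u ^ 2)) := by
  obtain ⟨s, hs⟩ : ∃ s, s = u - (3) := ⟨_, rfl⟩
  have hs0 : 0 ≤ s := by linarith
  have h : 0 ≤
      450791284079531 / 2814200845312500 + 133421982303409 / 214415302500000 * s +
      418561875658393 / 476478450000000 * s ^ 2 + 495123940203803 / 952956900000000 * s ^ 3 +
      25550051927411 / 158826150000000 * s ^ 4 + 4248889283917 / 141178800000000 * s ^ 5 +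
      350205828379 / 94119200000000 * s ^ 6 + 276607847587 / 988251600000000 * s ^ 7 +
      8619 / 800000000 * s ^ 8 := by
    positivity
  have e :
      450791284079531 / 2814200845312500 + 133421982303409 / 214415302500000 * s +
      418561875658393 / 476478450000000 * s ^ 2 + 495123940203803 / 952956900000000 * s ^ 3 +
      25550051927411 / 158826150000000 * s ^ 4 + 4248889283917 / 141178800000000 * s ^ 5 +
      350205828379 / 94119200000000 * s ^ 6 + 276607847587 / 988251600000000 * s ^ 7 +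
      8619 / 800000000 * s ^ 8 =
      (1 + 1 / 10 + (1 / 10) ^ 2 / 2) * ((1 + (1 / 20 * (u ^ 2 - 1)) +
      (1 / 20 * (u ^ 2 - 1)) ^ 2 / 2 +
      (1 / 20 * (u ^ 2 - 1)) ^ 3 / 6) *
      (1 + u + 117 / 250 * u ^ 2)) -
      (69781 / 50000 * (1 + (u - 1 / 3) / 7) ^ 7) := by
    rw [hs]
    ring
  rw [e] at h
  linarith

/-- `K = 7`: `(c, μ, P, δ) = (117 / 250, 1 / 20, 1 / 3, 1 / 10)` -/
theorem expOd_seven_d13 : ExpOd 7 (117 / 250) (1 / 20) (1 / 3) (1 / 10) := by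
  have hde : (1 + 1 / 10 + (1 / 10) ^ 2 / 2) ≤ Real.exp (1 / 10) := Real.quadratic_le_exp_of_nonneg (by norm_num)
  have hq : ∀ u : ℝ, 0 ≤ 1 + u + 117 / 250 * u ^ 2 := fun u => by
    nlinarith [sq_nonneg (u + 2), sq_nonneg u]
  have hR : ∀ (u x y : ℝ), x ≤ y → y ≤ (1 + 1 / 10 + (1 / 10) ^ 2 / 2) * (1 + u + 117 / 250 * u ^ 2) →
      x ≤ Real.exp (1 / 10) * (1 + u + 117 / 250 * u ^ 2) := fun u x y h1 h2 =>
    (h1.trans h2).trans (mul_le_mul_of_nonneg_right hde (hq u))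
  refine ExpOd.of (by norm_num) (by norm_num) (by norm_num) (by norm_num) (by norm_num) ?_ ?_ ?_
  · intro u h1
    rcases le_total u (-3) with h3 | h3
    · exact hR u _ _ (exp_le_n3 h3) (od_seven_d13_d u h3)
    rcases le_total u (-2) with h4 | h4
    · refine hR u _ _ (exp_le_n2 h4) ?_
      exact od_seven_d13_c0 u (by linarith) (by linarith)
    rcases le_total u (-1) with h5 | h5
    · refine hR u _ _ (exp_le_n1 h5) ?_
      exact od_seven_d13_b0 u (by linarith) (by linarith)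
    rcases le_total u 0 with h6 | h6
    · refine hR u _ _ (exp_le_n0 h6) ?_
      exact od_seven_d13_a0 u (by linarith) (by linarith)
    refine hR u _ _ (exp_le_p h6 (by linarith)) ?_
    exact od_seven_d13_e0 u (by linarith) (by linarith)
  · intro u h1 h2
    have h4 : 0 ≤ (1 + (u - 1 / 3) / 7) ^ 7 := by
      have : 0 ≤ (u - 1 / 3) / 7 := div_nonneg (by linarith) (by norm_num)
      positivity
    have hE : Real.exp (1 / 3) ≤ 69781 / 50000 := exp_up_1_3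
    push_cast
    refine hR u _ _ (mul_le_mul_of_nonneg_right hE h4) ?_
    exact od_seven_d13_f0 u (by linarith) (by linarith)
  · intro u h1
    have h4 : 0 ≤ (1 + (u - 1 / 3) / 7) ^ 7 := by
      have : 0 ≤ (u - 1 / 3) / 7 := div_nonneg (by linarith) (by norm_num)
      positivity
    have hE : Real.exp (1 / 3) ≤ 69781 / 50000 := exp_up_1_3
    have hx : 0 ≤ 1 / 20 * (u ^ 2 - 1) := mul_nonneg (by norm_num) (by nlinarith)
    have h5 := mul_le_mul_of_nonneg_right (taylor3_le_exp _ hx) (hq u)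
    have h6 : 0 ≤ Real.exp (1 / 20 * (u ^ 2 - 1)) * (1 + u + 117 / 250 * u ^ 2) :=
      mul_nonneg (Real.exp_nonneg _) (hq u)
    rw [Real.exp_add, mul_assoc]
    push_cast
    refine ((mul_le_mul_of_nonneg_right hE h4).trans ?_).trans
      ((mul_le_mul_of_nonneg_left h5 (by norm_num : (0 : ℝ) ≤ (1 + 1 / 10 + (1 / 10) ^ 2 / 2))).trans
        (mul_le_mul_of_nonneg_right hde h6))
    rcases le_total u (2) with hh | hh
    · exact od_seven_d13_g0 u (by linarith) (by linarith)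
    rcases le_total u (3) with hh | hh
    · exact od_seven_d13_g1 u (by linarith) (by linarith)
    exact od_seven_d13_t u (by linarith)

theorem od_seven_d20_a0 (u : ℝ) (h1 : -1 ≤ u) (h2 : u ≤ 0) :
    1 + u + u ^ 2 / 2 + u ^ 3 / 6 + u ^ 4 / 24 ≤
      1 * (1 + u + 367 / 500 * u ^ 2) := by
  obtain ⟨s, hs⟩ : ∃ s, s = u - (-1) := ⟨_, rfl⟩
  obtain ⟨t, ht⟩ : ∃ t, t = 0 - u := ⟨_, rfl⟩
  have hs0 : 0 ≤ s := by linarith
  have ht0 : 0 ≤ t := by linarith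
  have h : 0 ≤
      359 / 1000 * t ^ 4 + 238 / 375 * s * t ^ 3 + 117 / 500 * s ^ 2 * t ^ 2 := by
    positivity
  have e :
      359 / 1000 * t ^ 4 + 238 / 375 * s * t ^ 3 + 117 / 500 * s ^ 2 * t ^ 2 =
      1 * (1 + u + 367 / 500 * u ^ 2) -
      (1 + u + u ^ 2 / 2 + u ^ 3 / 6 + u ^ 4 / 24) := by
    rw [hs, ht]
    ring
  rw [e] at h
  linarith

theorem od_seven_d20_b0 (u : ℝ) (h1 : -2 ≤ u) (h2 : u ≤ -1) :
    36788 / 100000 *
      (1 + (u + 1) + (u + 1) ^ 2 / 2 + (u + 1) ^ 3 / 6 + (u + 1) ^ 4 / 24) ≤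
      1 * (1 + u + 367 / 500 * u ^ 2) := by
  obtain ⟨s, hs⟩ : ∃ s, s = u - (-2) := ⟨_, rfl⟩
  obtain ⟨t, ht⟩ : ∃ t, t = -1 - u := ⟨_, rfl⟩
  have hs0 : 0 ≤ s := by linarith
  have ht0 : 0 ≤ t := by linarith
  have h : 0 ≤
      359609 / 200000 * t ^ 4 + 770033 / 150000 * s * t ^ 3 +
      262721 / 50000 * s ^ 2 * t ^ 2 + 57509 / 25000 * s ^ 3 * t + 9153 / 25000 * s ^ 4 := by
    positivity
  have e :
      359609 / 200000 * t ^ 4 + 770033 / 150000 * s * t ^ 3 +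
      262721 / 50000 * s ^ 2 * t ^ 2 + 57509 / 25000 * s ^ 3 * t + 9153 / 25000 * s ^ 4 =
      1 * (1 + u + 367 / 500 * u ^ 2) -
      (36788 / 100000 *
      (1 + (u + 1) + (u + 1) ^ 2 / 2 + (u + 1) ^ 3 / 6 + (u + 1) ^ 4 / 24)) := by
    rw [hs, ht]
    ring
  rw [e] at h
  linarith

theorem od_seven_d20_c0 (u : ℝ) (h1 : -3 ≤ u) (h2 : u ≤ -2) :
    13534 / 100000 *
      (1 + (u + 2) + (u + 2) ^ 2 / 2 + (u + 2) ^ 3 / 6 + (u + 2) ^ 4 / 24) ≤
      1 * (1 + u + 367 / 500 * u ^ 2) := by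
  obtain ⟨s, hs⟩ : ∃ s, s = u - (-3) := ⟨_, rfl⟩
  obtain ⟨t, ht⟩ : ∃ t, t = -2 - u := ⟨_, rfl⟩
  have hs0 : 0 ≤ s := by linarith
  have ht0 : 0 ≤ t := by linarith
  have h : 0 ≤
      1822099 / 400000 * t ^ 4 + 4431563 / 300000 * s * t ^ 3 +
      1768431 / 100000 * s ^ 2 * t ^ 2 + 463699 / 50000 * s ^ 3 * t + 90033 / 50000 * s ^ 4 := by
    positivity
  have e :
      1822099 / 400000 * t ^ 4 + 4431563 / 300000 * s * t ^ 3 +
      1768431 / 100000 * s ^ 2 * t ^ 2 + 463699 / 50000 * s ^ 3 * t + 90033 / 50000 * s ^ 4 =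
      1 * (1 + u + 367 / 500 * u ^ 2) -
      (13534 / 100000 *
      (1 + (u + 2) + (u + 2) ^ 2 / 2 + (u + 2) ^ 3 / 6 + (u + 2) ^ 4 / 24)) := by
    rw [hs, ht]
    ring
  rw [e] at h
  linarith

theorem od_seven_d20_d (u : ℝ) (h2 : u ≤ -3) :
    4979 / 100000 ≤
      1 * (1 + u + 367 / 500 * u ^ 2) := by
  obtain ⟨s, hs⟩ : ∃ s, s = -3 - u := ⟨_, rfl⟩
  have hs0 : 0 ≤ s := by linarith
  have h : 0 ≤
      455621 / 100000 + 851 / 250 * s + 367 / 500 * s ^ 2 := by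
    positivity
  have e :
      455621 / 100000 + 851 / 250 * s + 367 / 500 * s ^ 2 =
      1 * (1 + u + 367 / 500 * u ^ 2) -
      (4979 / 100000) := by
    rw [hs]
    ring
  rw [e] at h
  linarith

theorem od_seven_d20_e0 (u : ℝ) (h1 : 0 ≤ u) (h2 : u ≤ 2 / 3) :
    1 + u + u ^ 2 / 2 + u ^ 3 / 6 + u ^ 4 / 24 + u ^ 5 / 100 ≤
      1 * (1 + u + 367 / 500 * u ^ 2) := by
  obtain ⟨s, hs⟩ : ∃ s, s = u - (0) := ⟨_, rfl⟩
  obtain ⟨t, ht⟩ : ∃ t, t = 2 / 3 - u := ⟨_, rfl⟩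
  have hs0 : 0 ≤ s := by linarith
  have ht0 : 0 ≤ t := by linarith
  have h : 0 ≤
      3159 / 4000 * s ^ 2 * t ^ 3 + 7977 / 4000 * s ^ 3 * t ^ 2 + 6227 / 4000 * s ^ 4 * t +
      1369 / 4000 * s ^ 5 := by
    positivity
  have e :
      3159 / 4000 * s ^ 2 * t ^ 3 + 7977 / 4000 * s ^ 3 * t ^ 2 + 6227 / 4000 * s ^ 4 * t +
      1369 / 4000 * s ^ 5 =
      1 * (1 + u + 367 / 500 * u ^ 2) -
      (1 + u + u ^ 2 / 2 + u ^ 3 / 6 + u ^ 4 / 24 + u ^ 5 / 100) := by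
    rw [hs, ht]
    ring
  rw [e] at h
  linarith

theorem od_seven_d20_f0 (u : ℝ) (h1 : 2 / 3 ≤ u) (h2 : u ≤ 1) :
    97387 / 50000 * (1 + (u - 2 / 3) / 7) ^ 7 ≤
      1 * (1 + u + 367 / 500 * u ^ 2) := by
  obtain ⟨s, hs⟩ : ∃ s, s = u - (2 / 3) := ⟨_, rfl⟩
  obtain ⟨t, ht⟩ : ∃ t, t = 1 - u := ⟨_, rfl⟩
  have hs0 : 0 ≤ s := by linarith
  have ht0 : 0 ≤ t := by linarith
  have h : 0 ≤
      4937031 / 50000 * t ^ 7 + 17843247 / 25000 * s * t ^ 6 +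
      47782548 / 21875 * s ^ 2 * t ^ 5 + 447811011 / 122500 * s ^ 3 * t ^ 4 +
      1542153357 / 428750 * s ^ 4 * t ^ 3 + 31033079829 / 15006250 * s ^ 5 * t ^ 2 +
      133891474839 / 210087500 * s ^ 6 * t + 822692979011 / 10294287500 * s ^ 7 := by
    positivity
  have e :
      4937031 / 50000 * t ^ 7 + 17843247 / 25000 * s * t ^ 6 +
      47782548 / 21875 * s ^ 2 * t ^ 5 + 447811011 / 122500 * s ^ 3 * t ^ 4 +
      1542153357 / 428750 * s ^ 4 * t ^ 3 + 31033079829 / 15006250 * s ^ 5 * t ^ 2 +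
      133891474839 / 210087500 * s ^ 6 * t + 822692979011 / 10294287500 * s ^ 7 =
      1 * (1 + u + 367 / 500 * u ^ 2) -
      (97387 / 50000 * (1 + (u - 2 / 3) / 7) ^ 7) := by
    rw [hs, ht]
    ring
  rw [e] at h
  linarith

theorem od_seven_d20_g0 (u : ℝ) (h1 : 1 ≤ u) (h2 : u ≤ 5 / 2) :
    97387 / 50000 * (1 + (u - 2 / 3) / 7) ^ 7 ≤
      1 * ((1 + (1 / 25 * (u ^ 2 - 1)) +
      (1 / 25 * (u ^ 2 - 1)) ^ 2 / 2 +
      (1 / 25 * (u ^ 2 - 1)) ^ 3 / 6) *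
      (1 + u + 367 / 500 * u ^ 2)) := by
  obtain ⟨s, hs⟩ : ∃ s, s = u - (1) := ⟨_, rfl⟩
  obtain ⟨t, ht⟩ : ∃ t, t = 5 / 2 - u := ⟨_, rfl⟩
  have hs0 : 0 ≤ s := by linarith
  have ht0 : 0 ≤ t := by linarith
  have h : 0 ≤
      52652350656704 / 36927943492190625 * t ^ 8 +
      663012260836864 / 36927943492190625 * s * t ^ 7 +
      1609443380449664 / 18840787496015625 * s ^ 2 * t ^ 6 +
      681773397375767248 / 3297137811802734375 * s ^ 3 * t ^ 5 +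
      933237660611985542 / 3297137811802734375 * s ^ 4 * t ^ 4 +
      741771808934108626 / 3297137811802734375 * s ^ 5 * t ^ 3 +
      662892239127974887 / 6594275623605468750 * s ^ 6 * t ^ 2 +
      839530727359794601 / 36927943492190625000 * s ^ 7 * t +
      7491870573724037 / 3692794349219062500 * s ^ 8 := by
    positivity
  have e :
      52652350656704 / 36927943492190625 * t ^ 8 +
      663012260836864 / 36927943492190625 * s * t ^ 7 +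
      1609443380449664 / 18840787496015625 * s ^ 2 * t ^ 6 +
      681773397375767248 / 3297137811802734375 * s ^ 3 * t ^ 5 +
      933237660611985542 / 3297137811802734375 * s ^ 4 * t ^ 4 +
      741771808934108626 / 3297137811802734375 * s ^ 5 * t ^ 3 +
      662892239127974887 / 6594275623605468750 * s ^ 6 * t ^ 2 +
      839530727359794601 / 36927943492190625000 * s ^ 7 * t +
      7491870573724037 / 3692794349219062500 * s ^ 8 =
      1 * ((1 + (1 / 25 * (u ^ 2 - 1)) +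
      (1 / 25 * (u ^ 2 - 1)) ^ 2 / 2 +
      (1 / 25 * (u ^ 2 - 1)) ^ 3 / 6) *
      (1 + u + 367 / 500 * u ^ 2)) -
      (97387 / 50000 * (1 + (u - 2 / 3) / 7) ^ 7) := by
    rw [hs, ht]
    ring
  rw [e] at h
  linarith

theorem od_seven_d20_g1 (u : ℝ) (h1 : 5 / 2 ≤ u) (h2 : u ≤ 13 / 4) :
    97387 / 50000 * (1 + (u - 2 / 3) / 7) ^ 7 ≤
      1 * ((1 + (1 / 25 * (u ^ 2 - 1)) +
      (1 / 25 * (u ^ 2 - 1)) ^ 2 / 2 +
      (1 / 25 * (u ^ 2 - 1)) ^ 3 / 6) *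
      (1 + u + 367 / 500 * u ^ 2)) := by
  obtain ⟨s, hs⟩ : ∃ s, s = u - (5 / 2) := ⟨_, rfl⟩
  obtain ⟨t, ht⟩ : ∃ t, t = 13 / 4 - u := ⟨_, rfl⟩
  have hs0 : 0 ≤ s := by linarith
  have ht0 : 0 ≤ t := by linarith
  have h : 0 ≤
      479479716718338368 / 923198587304765625 * t ^ 8 +
      15336291365343588464 / 4615992936523828125 * s * t ^ 7 +
      28351800630545977064 / 3297137811802734375 * s ^ 2 * t ^ 6 +
      37478482993554605284 / 3297137811802734375 * s ^ 3 * t ^ 5 +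
      26305221219742862042 / 3297137811802734375 * s ^ 4 * t ^ 4 +
      1438322740857764089 / 471019687400390625 * s ^ 5 * t ^ 3 +
      7978608792748634503 / 6594275623605468750 * s ^ 6 * t ^ 2 +
      76490216858875874533 / 92319858730476562500 * s ^ 7 * t +
      48960882835886851087 / 184639717460953125000 * s ^ 8 := by
    positivity
  have e :
      479479716718338368 / 923198587304765625 * t ^ 8 +
      15336291365343588464 / 4615992936523828125 * s * t ^ 7 +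
      28351800630545977064 / 3297137811802734375 * s ^ 2 * t ^ 6 +
      37478482993554605284 / 3297137811802734375 * s ^ 3 * t ^ 5 +
      26305221219742862042 / 3297137811802734375 * s ^ 4 * t ^ 4 +
      1438322740857764089 / 471019687400390625 * s ^ 5 * t ^ 3 +
      7978608792748634503 / 6594275623605468750 * s ^ 6 * t ^ 2 +
      76490216858875874533 / 92319858730476562500 * s ^ 7 * t +
      48960882835886851087 / 184639717460953125000 * s ^ 8 =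
      1 * ((1 + (1 / 25 * (u ^ 2 - 1)) +
      (1 / 25 * (u ^ 2 - 1)) ^ 2 / 2 +
      (1 / 25 * (u ^ 2 - 1)) ^ 3 / 6) *
      (1 + u + 367 / 500 * u ^ 2)) -
      (97387 / 50000 * (1 + (u - 2 / 3) / 7) ^ 7) := by
    rw [hs, ht]
    ring
  rw [e] at h
  linarith

theorem od_seven_d20_g2 (u : ℝ) (h1 : 13 / 4 ≤ u) (h2 : u ≤ 4) :
    97387 / 50000 * (1 + (u - 2 / 3) / 7) ^ 7 ≤
      1 * ((1 + (1 / 25 * (u ^ 2 - 1)) +
      (1 / 25 * (u ^ 2 - 1)) ^ 2 / 2 +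
      (1 / 25 * (u ^ 2 - 1)) ^ 3 / 6) *
      (1 + u + 367 / 500 * u ^ 2)) := by
  obtain ⟨s, hs⟩ : ∃ s, s = u - (13 / 4) := ⟨_, rfl⟩
  obtain ⟨t, ht⟩ : ∃ t, t = 4 - u := ⟨_, rfl⟩
  have hs0 : 0 ≤ s := by linarith
  have ht0 : 0 ≤ t := by linarith
  have h : 0 ≤
      48960882835886851087 / 184639717460953125000 * t ^ 8 +
      315196845828218934163 / 92319858730476562500 * s * t ^ 7 +
      63665961638710082159 / 3297137811802734375 * s ^ 2 * t ^ 6 +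
      200019805680954643492 / 3297137811802734375 * s ^ 3 * t ^ 5 +
      379296381271136687312 / 3297137811802734375 * s ^ 4 * t ^ 4 +
      445465536314966850496 / 3297137811802734375 * s ^ 5 * t ^ 3 +
      9078902237939815168 / 94203937480078125 * s ^ 6 * t ^ 2 +
      35393384878257992704 / 923198587304765625 * s ^ 7 * t +
      1206750792536190976 / 184639717460953125 * s ^ 8 := by
    positivity
  have e :
      48960882835886851087 / 184639717460953125000 * t ^ 8 +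
      315196845828218934163 / 92319858730476562500 * s * t ^ 7 +
      63665961638710082159 / 3297137811802734375 * s ^ 2 * t ^ 6 +
      200019805680954643492 / 3297137811802734375 * s ^ 3 * t ^ 5 +
      379296381271136687312 / 3297137811802734375 * s ^ 4 * t ^ 4 +
      445465536314966850496 / 3297137811802734375 * s ^ 5 * t ^ 3 +
      9078902237939815168 / 94203937480078125 * s ^ 6 * t ^ 2 +
      35393384878257992704 / 923198587304765625 * s ^ 7 * t +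
      1206750792536190976 / 184639717460953125 * s ^ 8 =
      1 * ((1 + (1 / 25 * (u ^ 2 - 1)) +
      (1 / 25 * (u ^ 2 - 1)) ^ 2 / 2 +
      (1 / 25 * (u ^ 2 - 1)) ^ 3 / 6) *
      (1 + u + 367 / 500 * u ^ 2)) -
      (97387 / 50000 * (1 + (u - 2 / 3) / 7) ^ 7) := by
    rw [hs, ht]
    ring
  rw [e] at h
  linarith

theorem od_seven_d20_t (u : ℝ) (h1 : 4 ≤ u) :
    97387 / 50000 * (1 + (u - 2 / 3) / 7) ^ 7 ≤
      1 * ((1 + (1 / 25 * (u ^ 2 - 1)) +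
      (1 / 25 * (u ^ 2 - 1)) ^ 2 / 2 +
      (1 / 25 * (u ^ 2 - 1)) ^ 3 / 6) *
      (1 + u + 367 / 500 * u ^ 2)) := by
  obtain ⟨s, hs⟩ : ∃ s, s = u - (4) := ⟨_, rfl⟩
  have hs0 : 0 ≤ s := by linarith
  have h : 0 ≤
      294616892709031 / 450272135250000 + 199600800210653 / 107207651250000 * s +
      116712810698107 / 59559806250000 * s ^ 2 + 286155270902689 / 297799031250000 * s ^ 3 +
      25317744081457 / 99266343750000 * s ^ 4 + 150348564439 / 3676531250000 * s ^ 5 +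
      3095281213 / 735306250000 * s ^ 6 + 19984320359 / 77207156250000 * s ^ 7 +
      367 / 46875000 * s ^ 8 := by
    positivity
  have e :
      294616892709031 / 450272135250000 + 199600800210653 / 107207651250000 * s +
      116712810698107 / 59559806250000 * s ^ 2 + 286155270902689 / 297799031250000 * s ^ 3 +
      25317744081457 / 99266343750000 * s ^ 4 + 150348564439 / 3676531250000 * s ^ 5 +
      3095281213 / 735306250000 * s ^ 6 + 19984320359 / 77207156250000 * s ^ 7 +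
      367 / 46875000 * s ^ 8 =
      1 * ((1 + (1 / 25 * (u ^ 2 - 1)) +
      (1 / 25 * (u ^ 2 - 1)) ^ 2 / 2 +
      (1 / 25 * (u ^ 2 - 1)) ^ 3 / 6) *
      (1 + u + 367 / 500 * u ^ 2)) -
      (97387 / 50000 * (1 + (u - 2 / 3) / 7) ^ 7) := by
    rw [hs]
    ring
  rw [e] at h
  linarith

/-- `K = 7`: `(c, μ, P, δ) = (367 / 500, 1 / 25, 2 / 3, 0)` -/
theorem expOd_seven_d20 : ExpOd 7 (367 / 500) (1 / 25) (2 / 3) (0) := by
  have hde : 1 ≤ Real.exp (0) := Real.exp_zero.ge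
  have hq : ∀ u : ℝ, 0 ≤ 1 + u + 367 / 500 * u ^ 2 := fun u => by
    nlinarith [sq_nonneg (u + 2), sq_nonneg u]
  have hR : ∀ (u x y : ℝ), x ≤ y → y ≤ 1 * (1 + u + 367 / 500 * u ^ 2) →
      x ≤ Real.exp (0) * (1 + u + 367 / 500 * u ^ 2) := fun u x y h1 h2 =>
    (h1.trans h2).trans (mul_le_mul_of_nonneg_right hde (hq u))
  refine ExpOd.of (by norm_num) (by norm_num) (by norm_num) (by norm_num) (by norm_num) ?_ ?_ ?_
  · intro u h1
    rcases le_total u (-3) with h3 | h3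
    · exact hR u _ _ (exp_le_n3 h3) (od_seven_d20_d u h3)
    rcases le_total u (-2) with h4 | h4
    · refine hR u _ _ (exp_le_n2 h4) ?_
      exact od_seven_d20_c0 u (by linarith) (by linarith)
    rcases le_total u (-1) with h5 | h5
    · refine hR u _ _ (exp_le_n1 h5) ?_
      exact od_seven_d20_b0 u (by linarith) (by linarith)
    rcases le_total u 0 with h6 | h6
    · refine hR u _ _ (exp_le_n0 h6) ?_
      exact od_seven_d20_a0 u (by linarith) (by linarith)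
    refine hR u _ _ (exp_le_p h6 (by linarith)) ?_
    exact od_seven_d20_e0 u (by linarith) (by linarith)
  · intro u h1 h2
    have h4 : 0 ≤ (1 + (u - 2 / 3) / 7) ^ 7 := by
      have : 0 ≤ (u - 2 / 3) / 7 := div_nonneg (by linarith) (by norm_num)
      positivity
    have hE : Real.exp (2 / 3) ≤ 97387 / 50000 := exp_up_2_3
    push_cast
    refine hR u _ _ (mul_le_mul_of_nonneg_right hE h4) ?_
    exact od_seven_d20_f0 u (by linarith) (by linarith)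
  · intro u h1
    have h4 : 0 ≤ (1 + (u - 2 / 3) / 7) ^ 7 := by
      have : 0 ≤ (u - 2 / 3) / 7 := div_nonneg (by linarith) (by norm_num)
      positivity
    have hE : Real.exp (2 / 3) ≤ 97387 / 50000 := exp_up_2_3
    have hx : 0 ≤ 1 / 25 * (u ^ 2 - 1) := mul_nonneg (by norm_num) (by nlinarith)
    have h5 := mul_le_mul_of_nonneg_right (taylor3_le_exp _ hx) (hq u)
    have h6 : 0 ≤ Real.exp (1 / 25 * (u ^ 2 - 1)) * (1 + u + 367 / 500 * u ^ 2) :=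
      mul_nonneg (Real.exp_nonneg _) (hq u)
    rw [Real.exp_add, mul_assoc]
    push_cast
    refine ((mul_le_mul_of_nonneg_right hE h4).trans ?_).trans
      ((mul_le_mul_of_nonneg_left h5 (by norm_num : (0 : ℝ) ≤ 1)).trans
        (mul_le_mul_of_nonneg_right hde h6))
    rcases le_total u (5 / 2) with hh | hh
    · exact od_seven_d20_g0 u (by linarith) (by linarith)
    rcases le_total u (13 / 4) with hh | hh
    · exact od_seven_d20_g1 u (by linarith) (by linarith)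
    rcases le_total u (4) with hh | hh
    · exact od_seven_d20_g2 u (by linarith) (by linarith)
    exact od_seven_d20_t u (by linarith)

theorem od_seven_d21_a0 (u : ℝ) (h1 : -1 ≤ u) (h2 : u ≤ 0) :
    1 + u + u ^ 2 / 2 + u ^ 3 / 6 + u ^ 4 / 24 ≤
      1 * (1 + u + 699 / 1000 * u ^ 2) := by
  obtain ⟨s, hs⟩ : ∃ s, s = u - (-1) := ⟨_, rfl⟩
  obtain ⟨t, ht⟩ : ∃ t, t = 0 - u := ⟨_, rfl⟩
  have hs0 : 0 ≤ s := by linarith
  have ht0 : 0 ≤ t := by linarith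
  have h : 0 ≤
      81 / 250 * t ^ 4 + 847 / 1500 * s * t ^ 3 + 199 / 1000 * s ^ 2 * t ^ 2 := by
    positivity
  have e :
      81 / 250 * t ^ 4 + 847 / 1500 * s * t ^ 3 + 199 / 1000 * s ^ 2 * t ^ 2 =
      1 * (1 + u + 699 / 1000 * u ^ 2) -
      (1 + u + u ^ 2 / 2 + u ^ 3 / 6 + u ^ 4 / 24) := by
    rw [hs, ht]
    ring
  rw [e] at h
  linarith

theorem od_seven_d21_b0 (u : ℝ) (h1 : -2 ≤ u) (h2 : u ≤ -1) :
    36788 / 100000 *
      (1 + (u + 1) + (u + 1) ^ 2 / 2 + (u + 1) ^ 3 / 6 + (u + 1) ^ 4 / 24) ≤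
      1 * (1 + u + 699 / 1000 * u ^ 2) := by
  obtain ⟨s, hs⟩ : ∃ s, s = u - (-2) := ⟨_, rfl⟩
  obtain ⟨t, ht⟩ : ∃ t, t = -1 - u := ⟨_, rfl⟩
  have hs0 : 0 ≤ s := by linarith
  have ht0 : 0 ≤ t := by linarith
  have h : 0 ≤
      331609 / 200000 * t ^ 4 + 707033 / 150000 * s * t ^ 3 +
      239971 / 50000 * s ^ 2 * t ^ 2 + 52259 / 25000 * s ^ 3 * t + 4139 / 12500 * s ^ 4 := by
    positivity
  have e :
      331609 / 200000 * t ^ 4 + 707033 / 150000 * s * t ^ 3 +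
      239971 / 50000 * s ^ 2 * t ^ 2 + 52259 / 25000 * s ^ 3 * t + 4139 / 12500 * s ^ 4 =
      1 * (1 + u + 699 / 1000 * u ^ 2) -
      (36788 / 100000 *
      (1 + (u + 1) + (u + 1) ^ 2 / 2 + (u + 1) ^ 3 / 6 + (u + 1) ^ 4 / 24)) := by
    rw [hs, ht]
    ring
  rw [e] at h
  linarith

theorem od_seven_d21_c0 (u : ℝ) (h1 : -3 ≤ u) (h2 : u ≤ -2) :
    13534 / 100000 *
      (1 + (u + 2) + (u + 2) ^ 2 / 2 + (u + 2) ^ 3 / 6 + (u + 2) ^ 4 / 24) ≤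
      1 * (1 + u + 699 / 1000 * u ^ 2) := by
  obtain ⟨s, hs⟩ : ∃ s, s = u - (-3) := ⟨_, rfl⟩
  obtain ⟨t, ht⟩ : ∃ t, t = -2 - u := ⟨_, rfl⟩
  have hs0 : 0 ≤ s := by linarith
  have ht0 : 0 ≤ t := by linarith
  have h : 0 ≤
      1696099 / 400000 * t ^ 4 + 4116563 / 300000 * s * t ^ 3 +
      1638931 / 100000 * s ^ 2 * t ^ 2 + 428699 / 50000 * s ^ 3 * t + 83033 / 50000 * s ^ 4 := by
    positivity
  have e :
      1696099 / 400000 * t ^ 4 + 4116563 / 300000 * s * t ^ 3 +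
      1638931 / 100000 * s ^ 2 * t ^ 2 + 428699 / 50000 * s ^ 3 * t + 83033 / 50000 * s ^ 4 =
      1 * (1 + u + 699 / 1000 * u ^ 2) -
      (13534 / 100000 *
      (1 + (u + 2) + (u + 2) ^ 2 / 2 + (u + 2) ^ 3 / 6 + (u + 2) ^ 4 / 24)) := by
    rw [hs, ht]
    ring
  rw [e] at h
  linarith

theorem od_seven_d21_d (u : ℝ) (h2 : u ≤ -3) :
    4979 / 100000 ≤
      1 * (1 + u + 699 / 1000 * u ^ 2) := by
  obtain ⟨s, hs⟩ : ∃ s, s = -3 - u := ⟨_, rfl⟩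
  have hs0 : 0 ≤ s := by linarith
  have h : 0 ≤
      424121 / 100000 + 1597 / 500 * s + 699 / 1000 * s ^ 2 := by
    positivity
  have e :
      424121 / 100000 + 1597 / 500 * s + 699 / 1000 * s ^ 2 =
      1 * (1 + u + 699 / 1000 * u ^ 2) -
      (4979 / 100000) := by
    rw [hs]
    ring
  rw [e] at h
  linarith

theorem od_seven_d21_e0 (u : ℝ) (h1 : 0 ≤ u) (h2 : u ≤ 2 / 3) :
    1 + u + u ^ 2 / 2 + u ^ 3 / 6 + u ^ 4 / 24 + u ^ 5 / 100 ≤
      1 * (1 + u + 699 / 1000 * u ^ 2) := by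
  obtain ⟨s, hs⟩ : ∃ s, s = u - (0) := ⟨_, rfl⟩
  obtain ⟨t, ht⟩ : ∃ t, t = 2 / 3 - u := ⟨_, rfl⟩
  have hs0 : 0 ≤ s := by linarith
  have ht0 : 0 ≤ t := by linarith
  have h : 0 ≤
      5373 / 8000 * s ^ 2 * t ^ 3 + 13119 / 8000 * s ^ 3 * t ^ 2 + 9619 / 8000 * s ^ 4 * t +
      1793 / 8000 * s ^ 5 := by
    positivity
  have e :
      5373 / 8000 * s ^ 2 * t ^ 3 + 13119 / 8000 * s ^ 3 * t ^ 2 + 9619 / 8000 * s ^ 4 * t +
      1793 / 8000 * s ^ 5 =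
      1 * (1 + u + 699 / 1000 * u ^ 2) -
      (1 + u + u ^ 2 / 2 + u ^ 3 / 6 + u ^ 4 / 24 + u ^ 5 / 100) := by
    rw [hs, ht]
    ring
  rw [e] at h
  linarith

theorem od_seven_d21_f0 (u : ℝ) (h1 : 2 / 3 ≤ u) (h2 : u ≤ 1) :
    97387 / 50000 * (1 + (u - 2 / 3) / 7) ^ 7 ≤
      1 * (1 + u + 699 / 1000 * u ^ 2) := by
  obtain ⟨s, hs⟩ : ∃ s, s = u - (2 / 3) := ⟨_, rfl⟩
  obtain ⟨t, ht⟩ : ∃ t, t = 1 - u := ⟨_, rfl⟩
  have hs0 : 0 ≤ s := by linarith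
  have ht0 : 0 ≤ t := by linarith
  have h : 0 ≤
      3236031 / 50000 * t ^ 7 + 11039247 / 25000 * s * t ^ 6 +
      220027509 / 175000 * s ^ 2 * t ^ 5 + 468458397 / 245000 * s ^ 3 * t ^ 4 +
      1406908089 / 857500 * s ^ 4 * t ^ 3 + 22756687533 / 30012500 * s ^ 5 * t ^ 2 +
      64088412303 / 420175000 * s ^ 6 * t + 69433484647 / 20588575000 * s ^ 7 := by
    positivity
  have e :
      3236031 / 50000 * t ^ 7 + 11039247 / 25000 * s * t ^ 6 +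
      220027509 / 175000 * s ^ 2 * t ^ 5 + 468458397 / 245000 * s ^ 3 * t ^ 4 +
      1406908089 / 857500 * s ^ 4 * t ^ 3 + 22756687533 / 30012500 * s ^ 5 * t ^ 2 +
      64088412303 / 420175000 * s ^ 6 * t + 69433484647 / 20588575000 * s ^ 7 =
      1 * (1 + u + 699 / 1000 * u ^ 2) -
      (97387 / 50000 * (1 + (u - 2 / 3) / 7) ^ 7) := by
    rw [hs, ht]
    ring
  rw [e] at h
  linarith

theorem od_seven_d21_g0 (u : ℝ) (h1 : 1 ≤ u) (h2 : u ≤ 2) :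
    97387 / 50000 * (1 + (u - 2 / 3) / 7) ^ 7 ≤
      1 * ((1 + (1 / 20 * (u ^ 2 - 1)) +
      (1 / 20 * (u ^ 2 - 1)) ^ 2 / 2 +
      (1 / 20 * (u ^ 2 - 1)) ^ 3 / 6) *
      (1 + u + 699 / 1000 * u ^ 2)) := by
  obtain ⟨s, hs⟩ : ∃ s, s = u - (1) := ⟨_, rfl⟩
  obtain ⟨t, ht⟩ : ∃ t, t = 2 - u := ⟨_, rfl⟩
  have hs0 : 0 ≤ s := by linarith
  have ht0 : 0 ≤ t := by linarith
  have h : 0 ≤
      69433484647 / 45027213525000 * t ^ 8 + 9490838753239 / 90054427050000 * s * t ^ 7 +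
      37485905205167 / 51459672600000 * s ^ 2 * t ^ 6 +
      1142514690024109 / 514596726000000 * s ^ 3 * t ^ 5 +
      971876153191837 / 257298363000000 * s ^ 4 * t ^ 4 +
      1596657330273449 / 411677380800000 * s ^ 5 * t ^ 3 +
      1422347965329979 / 588110544000000 * s ^ 6 * t ^ 2 +
      6160254057043463 / 7204354164000000 * s ^ 7 * t +
      960904059902401 / 7204354164000000 * s ^ 8 := by
    positivity
  have e :
      69433484647 / 45027213525000 * t ^ 8 + 9490838753239 / 90054427050000 * s * t ^ 7 +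
      37485905205167 / 51459672600000 * s ^ 2 * t ^ 6 +
      1142514690024109 / 514596726000000 * s ^ 3 * t ^ 5 +
      971876153191837 / 257298363000000 * s ^ 4 * t ^ 4 +
      1596657330273449 / 411677380800000 * s ^ 5 * t ^ 3 +
      1422347965329979 / 588110544000000 * s ^ 6 * t ^ 2 +
      6160254057043463 / 7204354164000000 * s ^ 7 * t +
      960904059902401 / 7204354164000000 * s ^ 8 =
      1 * ((1 + (1 / 20 * (u ^ 2 - 1)) +
      (1 / 20 * (u ^ 2 - 1)) ^ 2 / 2 +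
      (1 / 20 * (u ^ 2 - 1)) ^ 3 / 6) *
      (1 + u + 699 / 1000 * u ^ 2)) -
      (97387 / 50000 * (1 + (u - 2 / 3) / 7) ^ 7) := by
    rw [hs, ht]
    ring
  rw [e] at h
  linarith

theorem od_seven_d21_t (u : ℝ) (h1 : 2 ≤ u) :
    97387 / 50000 * (1 + (u - 2 / 3) / 7) ^ 7 ≤
      1 * ((1 + (1 / 20 * (u ^ 2 - 1)) +
      (1 / 20 * (u ^ 2 - 1)) ^ 2 / 2 +
      (1 / 20 * (u ^ 2 - 1)) ^ 3 / 6) *
      (1 + u + 699 / 1000 * u ^ 2)) := by
  obtain ⟨s, hs⟩ : ∃ s, s = u - (2) := ⟨_, rfl⟩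
  have hs0 : 0 ≤ s := by linarith
  have h : 0 ≤
      960904059902401 / 7204354164000000 + 14542651639769 / 68612896800000 * s +
      25551277317571 / 152473104000000 * s ^ 2 + 692039899861 / 4764784500000 * s ^ 3 +
      3639130274957 / 50824368000000 * s ^ 4 + 22903696483 / 1411788000000 * s ^ 5 +
      14883633019 / 5647152000000 * s ^ 6 + 1242569549 / 4941258000000 * s ^ 7 +
      233 / 16000000 * s ^ 8 := by
    positivity
  have e :
      960904059902401 / 7204354164000000 + 14542651639769 / 68612896800000 * s +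
      25551277317571 / 152473104000000 * s ^ 2 + 692039899861 / 4764784500000 * s ^ 3 +
      3639130274957 / 50824368000000 * s ^ 4 + 22903696483 / 1411788000000 * s ^ 5 +
      14883633019 / 5647152000000 * s ^ 6 + 1242569549 / 4941258000000 * s ^ 7 +
      233 / 16000000 * s ^ 8 =
      1 * ((1 + (1 / 20 * (u ^ 2 - 1)) +
      (1 / 20 * (u ^ 2 - 1)) ^ 2 / 2 +
      (1 / 20 * (u ^ 2 - 1)) ^ 3 / 6) *
      (1 + u + 699 / 1000 * u ^ 2)) -
      (97387 / 50000 * (1 + (u - 2 / 3) / 7) ^ 7) := by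
    rw [hs]
    ring
  rw [e] at h
  linarith

/-- `K = 7`: `(c, μ, P, δ) = (699 / 1000, 1 / 20, 2 / 3, 0)` -/
theorem expOd_seven_d21 : ExpOd 7 (699 / 1000) (1 / 20) (2 / 3) (0) := by
  have hde : 1 ≤ Real.exp (0) := Real.exp_zero.ge
  have hq : ∀ u : ℝ, 0 ≤ 1 + u + 699 / 1000 * u ^ 2 := fun u => by
    nlinarith [sq_nonneg (u + 2), sq_nonneg u]
  have hR : ∀ (u x y : ℝ), x ≤ y → y ≤ 1 * (1 + u + 699 / 1000 * u ^ 2) →
      x ≤ Real.exp (0) * (1 + u + 699 / 1000 * u ^ 2) := fun u x y h1 h2 =>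
    (h1.trans h2).trans (mul_le_mul_of_nonneg_right hde (hq u))
  refine ExpOd.of (by norm_num) (by norm_num) (by norm_num) (by norm_num) (by norm_num) ?_ ?_ ?_
  · intro u h1
    rcases le_total u (-3) with h3 | h3
    · exact hR u _ _ (exp_le_n3 h3) (od_seven_d21_d u h3)
    rcases le_total u (-2) with h4 | h4
    · refine hR u _ _ (exp_le_n2 h4) ?_
      exact od_seven_d21_c0 u (by linarith) (by linarith)
    rcases le_total u (-1) with h5 | h5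
    · refine hR u _ _ (exp_le_n1 h5) ?_
      exact od_seven_d21_b0 u (by linarith) (by linarith)
    rcases le_total u 0 with h6 | h6
    · refine hR u _ _ (exp_le_n0 h6) ?_
      exact od_seven_d21_a0 u (by linarith) (by linarith)
    refine hR u _ _ (exp_le_p h6 (by linarith)) ?_
    exact od_seven_d21_e0 u (by linarith) (by linarith)
  · intro u h1 h2
    have h4 : 0 ≤ (1 + (u - 2 / 3) / 7) ^ 7 := by
      have : 0 ≤ (u - 2 / 3) / 7 := div_nonneg (by linarith) (by norm_num)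
      positivity
    have hE : Real.exp (2 / 3) ≤ 97387 / 50000 := exp_up_2_3
    push_cast
    refine hR u _ _ (mul_le_mul_of_nonneg_right hE h4) ?_
    exact od_seven_d21_f0 u (by linarith) (by linarith)
  · intro u h1
    have h4 : 0 ≤ (1 + (u - 2 / 3) / 7) ^ 7 := by
      have : 0 ≤ (u - 2 / 3) / 7 := div_nonneg (by linarith) (by norm_num)
      positivity
    have hE : Real.exp (2 / 3) ≤ 97387 / 50000 := exp_up_2_3
    have hx : 0 ≤ 1 / 20 * (u ^ 2 - 1) := mul_nonneg (by norm_num) (by nlinarith)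
    have h5 := mul_le_mul_of_nonneg_right (taylor3_le_exp _ hx) (hq u)
    have h6 : 0 ≤ Real.exp (1 / 20 * (u ^ 2 - 1)) * (1 + u + 699 / 1000 * u ^ 2) :=
      mul_nonneg (Real.exp_nonneg _) (hq u)
    rw [Real.exp_add, mul_assoc]
    push_cast
    refine ((mul_le_mul_of_nonneg_right hE h4).trans ?_).trans
      ((mul_le_mul_of_nonneg_left h5 (by norm_num : (0 : ℝ) ≤ 1)).trans
        (mul_le_mul_of_nonneg_right hde h6))
    rcases le_total u (2) with hh | hh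
    · exact od_seven_d21_g0 u (by linarith) (by linarith)
    exact od_seven_d21_t u (by linarith)

theorem od_seven_d22_a0 (u : ℝ) (h1 : -1 ≤ u) (h2 : u ≤ 0) :
    1 + u + u ^ 2 / 2 + u ^ 3 / 6 + u ^ 4 / 24 ≤
      (1 + 1 / 50 + (1 / 50) ^ 2 / 2) * (1 + u + 129 / 200 * u ^ 2) := by
  obtain ⟨s, hs⟩ : ∃ s, s = u - (-1) := ⟨_, rfl⟩
  obtain ⟨t, ht⟩ : ∃ t, t = 0 - u := ⟨_, rfl⟩
  have hs0 : 0 ≤ s := by linarith
  have ht0 : 0 ≤ t := by linarith
  have h : 0 ≤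
      283029 / 1000000 * t ^ 4 + 754387 / 1500000 * s * t ^ 3 +
      218629 / 1000000 * s ^ 2 * t ^ 2 + 303 / 5000 * s ^ 3 * t + 101 / 5000 * s ^ 4 := by
    positivity
  have e :
      283029 / 1000000 * t ^ 4 + 754387 / 1500000 * s * t ^ 3 +
      218629 / 1000000 * s ^ 2 * t ^ 2 + 303 / 5000 * s ^ 3 * t + 101 / 5000 * s ^ 4 =
      (1 + 1 / 50 + (1 / 50) ^ 2 / 2) * (1 + u + 129 / 200 * u ^ 2) -
      (1 + u + u ^ 2 / 2 + u ^ 3 / 6 + u ^ 4 / 24) := by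
    rw [hs, ht]
    ring
  rw [e] at h
  linarith

theorem od_seven_d22_b0 (u : ℝ) (h1 : -2 ≤ u) (h2 : u ≤ -1) :
    36788 / 100000 *
      (1 + (u + 1) + (u + 1) ^ 2 / 2 + (u + 1) ^ 3 / 6 + (u + 1) ^ 4 / 24) ≤
      (1 + 1 / 50 + (1 / 50) ^ 2 / 2) * (1 + u + 129 / 200 * u ^ 2) := by
  obtain ⟨s, hs⟩ : ∃ s, s = u - (-2) := ⟨_, rfl⟩
  obtain ⟨t, ht⟩ : ∃ t, t = -1 - u := ⟨_, rfl⟩
  have hs0 : 0 ≤ s := by linarith
  have ht0 : 0 ≤ t := by linarith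
  have h : 0 ≤
      1473961 / 1000000 * t ^ 4 + 195061 / 46875 * s * t ^ 3 +
      4206197 / 1000000 * s ^ 2 * t ^ 2 + 912167 / 500000 * s ^ 3 * t +
      290149 / 1000000 * s ^ 4 := by
    positivity
  have e :
      1473961 / 1000000 * t ^ 4 + 195061 / 46875 * s * t ^ 3 +
      4206197 / 1000000 * s ^ 2 * t ^ 2 + 912167 / 500000 * s ^ 3 * t +
      290149 / 1000000 * s ^ 4 =
      (1 + 1 / 50 + (1 / 50) ^ 2 / 2) * (1 + u + 129 / 200 * u ^ 2) -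
      (36788 / 100000 *
      (1 + (u + 1) + (u + 1) ^ 2 / 2 + (u + 1) ^ 3 / 6 + (u + 1) ^ 4 / 24)) := by
    rw [hs, ht]
    ring
  rw [e] at h
  linarith

theorem od_seven_d22_c0 (u : ℝ) (h1 : -3 ≤ u) (h2 : u ≤ -2) :
    13534 / 100000 *
      (1 + (u + 2) + (u + 2) ^ 2 / 2 + (u + 2) ^ 3 / 6 + (u + 2) ^ 4 / 24) ≤
      (1 + 1 / 50 + (1 / 50) ^ 2 / 2) * (1 + u + 129 / 200 * u ^ 2) := by
  obtain ⟨s, hs⟩ : ∃ s, s = u - (-3) := ⟨_, rfl⟩
  obtain ⟨t, ht⟩ : ∃ t, t = -2 - u := ⟨_, rfl⟩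
  have hs0 : 0 ≤ s := by linarith
  have ht0 : 0 ≤ t := by linarith
  have h : 0 ≤
      7662217 / 2000000 * t ^ 4 + 926351 / 75000 * s * t ^ 3 +
      14691583 / 1000000 * s ^ 2 * t ^ 2 + 191339 / 25000 * s ^ 3 * t + 46143 / 31250 * s ^ 4 := by
    positivity
  have e :
      7662217 / 2000000 * t ^ 4 + 926351 / 75000 * s * t ^ 3 +
      14691583 / 1000000 * s ^ 2 * t ^ 2 + 191339 / 25000 * s ^ 3 * t + 46143 / 31250 * s ^ 4 =
      (1 + 1 / 50 + (1 / 50) ^ 2 / 2) * (1 + u + 129 / 200 * u ^ 2) -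
      (13534 / 100000 *
      (1 + (u + 2) + (u + 2) ^ 2 / 2 + (u + 2) ^ 3 / 6 + (u + 2) ^ 4 / 24)) := by
    rw [hs, ht]
    ring
  rw [e] at h
  linarith

theorem od_seven_d22_d (u : ℝ) (h2 : u ≤ -3) :
    4979 / 100000 ≤
      (1 + 1 / 50 + (1 / 50) ^ 2 / 2) * (1 + u + 129 / 200 * u ^ 2) := by
  obtain ⟨s, hs⟩ : ∃ s, s = -3 - u := ⟨_, rfl⟩
  have hs0 : 0 ≤ s := by linarith
  have h : 0 ≤
      3832071 / 1000000 + 1463987 / 500000 * s + 658029 / 1000000 * s ^ 2 := by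
    positivity
  have e :
      3832071 / 1000000 + 1463987 / 500000 * s + 658029 / 1000000 * s ^ 2 =
      (1 + 1 / 50 + (1 / 50) ^ 2 / 2) * (1 + u + 129 / 200 * u ^ 2) -
      (4979 / 100000) := by
    rw [hs]
    ring
  rw [e] at h
  linarith

theorem od_seven_d22_e0 (u : ℝ) (h1 : 0 ≤ u) (h2 : u ≤ 2 / 3) :
    1 + u + u ^ 2 / 2 + u ^ 3 / 6 + u ^ 4 / 24 + u ^ 5 / 100 ≤
      (1 + 1 / 50 + (1 / 50) ^ 2 / 2) * (1 + u + 129 / 200 * u ^ 2) := by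
  obtain ⟨s, hs⟩ : ∃ s, s = u - (0) := ⟨_, rfl⟩
  obtain ⟨t, ht⟩ : ∃ t, t = 2 / 3 - u := ⟨_, rfl⟩
  have hs0 : 0 ≤ s := by linarith
  have ht0 : 0 ≤ t := by linarith
  have h : 0 ≤
      24543 / 160000 * t ^ 5 + 139077 / 160000 * s * t ^ 4 +
      19810683 / 8000000 * s ^ 2 * t ^ 3 + 26980449 / 8000000 * s ^ 3 * t ^ 2 +
      15708499 / 8000000 * s ^ 4 * t + 2732033 / 8000000 * s ^ 5 := by
    positivity
  have e :
      24543 / 160000 * t ^ 5 + 139077 / 160000 * s * t ^ 4 +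
      19810683 / 8000000 * s ^ 2 * t ^ 3 + 26980449 / 8000000 * s ^ 3 * t ^ 2 +
      15708499 / 8000000 * s ^ 4 * t + 2732033 / 8000000 * s ^ 5 =
      (1 + 1 / 50 + (1 / 50) ^ 2 / 2) * (1 + u + 129 / 200 * u ^ 2) -
      (1 + u + u ^ 2 / 2 + u ^ 3 / 6 + u ^ 4 / 24 + u ^ 5 / 100) := by
    rw [hs, ht]
    ring
  rw [e] at h
  linarith

theorem od_seven_d22_f0 (u : ℝ) (h1 : 2 / 3 ≤ u) (h2 : u ≤ 1) :
    97387 / 50000 * (1 + (u - 2 / 3) / 7) ^ 7 ≤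
      (1 + 1 / 50 + (1 / 50) ^ 2 / 2) * (1 + u + 129 / 200 * u ^ 2) := by
  obtain ⟨s, hs⟩ : ∃ s, s = u - (2 / 3) := ⟨_, rfl⟩
  obtain ⟨t, ht⟩ : ∃ t, t = 1 - u := ⟨_, rfl⟩
  have hs0 : 0 ≤ s := by linarith
  have ht0 : 0 ≤ t := by linarith
  have h : 0 ≤
      6157863 / 62500 * t ^ 7 + 81638523 / 125000 * s * t ^ 6 +
      12646654821 / 7000000 * s ^ 2 * t ^ 5 + 26156265903 / 9800000 * s ^ 3 * t ^ 4 +
      76227323643 / 34300000 * s ^ 4 * t ^ 3 + 1191039526539 / 1200500000 * s ^ 5 * t ^ 2 +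
      3173100818673 / 16807000000 * s ^ 6 * t + 1748917828969 / 823543000000 * s ^ 7 := by
    positivity
  have e :
      6157863 / 62500 * t ^ 7 + 81638523 / 125000 * s * t ^ 6 +
      12646654821 / 7000000 * s ^ 2 * t ^ 5 + 26156265903 / 9800000 * s ^ 3 * t ^ 4 +
      76227323643 / 34300000 * s ^ 4 * t ^ 3 + 1191039526539 / 1200500000 * s ^ 5 * t ^ 2 +
      3173100818673 / 16807000000 * s ^ 6 * t + 1748917828969 / 823543000000 * s ^ 7 =
      (1 + 1 / 50 + (1 / 50) ^ 2 / 2) * (1 + u + 129 / 200 * u ^ 2) -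
      (97387 / 50000 * (1 + (u - 2 / 3) / 7) ^ 7) := by
    rw [hs, ht]
    ring
  rw [e] at h
  linarith

theorem od_seven_d22_g0 (u : ℝ) (h1 : 1 ≤ u) (h2 : u ≤ 2) :
    97387 / 50000 * (1 + (u - 2 / 3) / 7) ^ 7 ≤
      (1 + 1 / 50 + (1 / 50) ^ 2 / 2) * ((1 + (1 / 20 * (u ^ 2 - 1)) +
      (1 / 20 * (u ^ 2 - 1)) ^ 2 / 2 +
      (1 / 20 * (u ^ 2 - 1)) ^ 3 / 6) *
      (1 + u + 129 / 200 * u ^ 2)) := by
  obtain ⟨s, hs⟩ : ∃ s, s = u - (1) := ⟨_, rfl⟩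
  obtain ⟨t, ht⟩ : ∃ t, t = 2 - u := ⟨_, rfl⟩
  have hs0 : 0 ≤ s := by linarith
  have ht0 : 0 ≤ t := by linarith
  have h : 0 ≤
      1748917828969 / 1801088541000000 * t ^ 8 +
      702837517553789 / 18010885410000000 * s * t ^ 7 +
      11974345141136057 / 51459672600000000 * s ^ 2 * t ^ 6 +
      308707136027762539 / 514596726000000000 * s ^ 3 * t ^ 5 +
      212681275968109027 / 257298363000000000 * s ^ 4 * t ^ 4 +
      269396026944579119 / 411677380800000000 * s ^ 5 * t ^ 3 +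
      179788809304152109 / 588110544000000000 * s ^ 6 * t ^ 2 +
      619734235819147373 / 7204354164000000000 * s ^ 7 * t +
      96405750642595171 / 7204354164000000000 * s ^ 8 := by
    positivity
  have e :
      1748917828969 / 1801088541000000 * t ^ 8 +
      702837517553789 / 18010885410000000 * s * t ^ 7 +
      11974345141136057 / 51459672600000000 * s ^ 2 * t ^ 6 +
      308707136027762539 / 514596726000000000 * s ^ 3 * t ^ 5 +
      212681275968109027 / 257298363000000000 * s ^ 4 * t ^ 4 +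
      269396026944579119 / 411677380800000000 * s ^ 5 * t ^ 3 +
      179788809304152109 / 588110544000000000 * s ^ 6 * t ^ 2 +
      619734235819147373 / 7204354164000000000 * s ^ 7 * t +
      96405750642595171 / 7204354164000000000 * s ^ 8 =
      (1 + 1 / 50 + (1 / 50) ^ 2 / 2) * ((1 + (1 / 20 * (u ^ 2 - 1)) +
      (1 / 20 * (u ^ 2 - 1)) ^ 2 / 2 +
      (1 / 20 * (u ^ 2 - 1)) ^ 3 / 6) *
      (1 + u + 129 / 200 * u ^ 2)) -
      (97387 / 50000 * (1 + (u - 2 / 3) / 7) ^ 7) := by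
    rw [hs, ht]
    ring
  rw [e] at h
  linarith

theorem od_seven_d22_t (u : ℝ) (h1 : 2 ≤ u) :
    97387 / 50000 * (1 + (u - 2 / 3) / 7) ^ 7 ≤
      (1 + 1 / 50 + (1 / 50) ^ 2 / 2) * ((1 + (1 / 20 * (u ^ 2 - 1)) +
      (1 / 20 * (u ^ 2 - 1)) ^ 2 / 2 +
      (1 / 20 * (u ^ 2 - 1)) ^ 3 / 6) *
      (1 + u + 129 / 200 * u ^ 2)) := by
  obtain ⟨s, hs⟩ : ∃ s, s = u - (2) := ⟨_, rfl⟩
  have hs0 : 0 ≤ s := by linarith
  have h : 0 ≤
      96405750642595171 / 7204354164000000000 + 1442969231634419 / 68612896800000000 * s +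
      11928767856814741 / 152473104000000000 * s ^ 2 +
      1169775259402487 / 9529569000000000 * s ^ 3 +
      3363819191575547 / 50824368000000000 * s ^ 4 +
      21630482181193 / 1411788000000000 * s ^ 5 + 14104667342749 / 5647152000000000 * s ^ 6 +
      1177166234569 / 4941258000000000 * s ^ 7 + 219343 / 16000000000 * s ^ 8 := by
    positivity
  have e :
      96405750642595171 / 7204354164000000000 + 1442969231634419 / 68612896800000000 * s +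
      11928767856814741 / 152473104000000000 * s ^ 2 +
      1169775259402487 / 9529569000000000 * s ^ 3 +
      3363819191575547 / 50824368000000000 * s ^ 4 +
      21630482181193 / 1411788000000000 * s ^ 5 + 14104667342749 / 5647152000000000 * s ^ 6 +
      1177166234569 / 4941258000000000 * s ^ 7 + 219343 / 16000000000 * s ^ 8 =
      (1 + 1 / 50 + (1 / 50) ^ 2 / 2) * ((1 + (1 / 20 * (u ^ 2 - 1)) +
      (1 / 20 * (u ^ 2 - 1)) ^ 2 / 2 +
      (1 / 20 * (u ^ 2 - 1)) ^ 3 / 6) *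
      (1 + u + 129 / 200 * u ^ 2)) -
      (97387 / 50000 * (1 + (u - 2 / 3) / 7) ^ 7) := by
    rw [hs]
    ring
  rw [e] at h
  linarith

/-- `K = 7`: `(c, μ, P, δ) = (129 / 200, 1 / 20, 2 / 3, 1 / 50)` -/
theorem expOd_seven_d22 : ExpOd 7 (129 / 200) (1 / 20) (2 / 3) (1 / 50) := by
  have hde : (1 + 1 / 50 + (1 / 50) ^ 2 / 2) ≤ Real.exp (1 / 50) := Real.quadratic_le_exp_of_nonneg (by norm_num)
  have hq : ∀ u : ℝ, 0 ≤ 1 + u + 129 / 200 * u ^ 2 := fun u => by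
    nlinarith [sq_nonneg (u + 2), sq_nonneg u]
  have hR : ∀ (u x y : ℝ), x ≤ y → y ≤ (1 + 1 / 50 + (1 / 50) ^ 2 / 2) * (1 + u + 129 / 200 * u ^ 2) →
      x ≤ Real.exp (1 / 50) * (1 + u + 129 / 200 * u ^ 2) := fun u x y h1 h2 =>
    (h1.trans h2).trans (mul_le_mul_of_nonneg_right hde (hq u))
  refine ExpOd.of (by norm_num) (by norm_num) (by norm_num) (by norm_num) (by norm_num) ?_ ?_ ?_
  · intro u h1
    rcases le_total u (-3) with h3 | h3
    · exact hR u _ _ (exp_le_n3 h3) (od_seven_d22_d u h3)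
    rcases le_total u (-2) with h4 | h4
    · refine hR u _ _ (exp_le_n2 h4) ?_
      exact od_seven_d22_c0 u (by linarith) (by linarith)
    rcases le_total u (-1) with h5 | h5
    · refine hR u _ _ (exp_le_n1 h5) ?_
      exact od_seven_d22_b0 u (by linarith) (by linarith)
    rcases le_total u 0 with h6 | h6
    · refine hR u _ _ (exp_le_n0 h6) ?_
      exact od_seven_d22_a0 u (by linarith) (by linarith)
    refine hR u _ _ (exp_le_p h6 (by linarith)) ?_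
    exact od_seven_d22_e0 u (by linarith) (by linarith)
  · intro u h1 h2
    have h4 : 0 ≤ (1 + (u - 2 / 3) / 7) ^ 7 := by
      have : 0 ≤ (u - 2 / 3) / 7 := div_nonneg (by linarith) (by norm_num)
      positivity
    have hE : Real.exp (2 / 3) ≤ 97387 / 50000 := exp_up_2_3
    push_cast
    refine hR u _ _ (mul_le_mul_of_nonneg_right hE h4) ?_
    exact od_seven_d22_f0 u (by linarith) (by linarith)
  · intro u h1
    have h4 : 0 ≤ (1 + (u - 2 / 3) / 7) ^ 7 := by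
      have : 0 ≤ (u - 2 / 3) / 7 := div_nonneg (by linarith) (by norm_num)
      positivity
    have hE : Real.exp (2 / 3) ≤ 97387 / 50000 := exp_up_2_3
    have hx : 0 ≤ 1 / 20 * (u ^ 2 - 1) := mul_nonneg (by norm_num) (by nlinarith)
    have h5 := mul_le_mul_of_nonneg_right (taylor3_le_exp _ hx) (hq u)
    have h6 : 0 ≤ Real.exp (1 / 20 * (u ^ 2 - 1)) * (1 + u + 129 / 200 * u ^ 2) :=
      mul_nonneg (Real.exp_nonneg _) (hq u)
    rw [Real.exp_add, mul_assoc]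
    push_cast
    refine ((mul_le_mul_of_nonneg_right hE h4).trans ?_).trans
      ((mul_le_mul_of_nonneg_left h5 (by norm_num : (0 : ℝ) ≤ (1 + 1 / 50 + (1 / 50) ^ 2 / 2))).trans
        (mul_le_mul_of_nonneg_right hde h6))
    rcases le_total u (2) with hh | hh
    · exact od_seven_d22_g0 u (by linarith) (by linarith)
    exact od_seven_d22_t u (by linarith)

theorem od_seven_d23_a0 (u : ℝ) (h1 : -1 ≤ u) (h2 : u ≤ 0) :
    1 + u + u ^ 2 / 2 + u ^ 3 / 6 + u ^ 4 / 24 ≤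
      (1 + 1 / 10 + (1 / 10) ^ 2 / 2) * (1 + u + 547 / 1000 * u ^ 2) := by
  obtain ⟨s, hs⟩ : ∃ s, s = u - (-1) := ⟨_, rfl⟩
  obtain ⟨t, ht⟩ : ∃ t, t = 0 - u := ⟨_, rfl⟩
  have hs0 : 0 ≤ s := by linarith
  have ht0 : 0 ≤ t := by linarith
  have h : 0 ≤
      45887 / 200000 * t ^ 4 + 144161 / 300000 * s * t ^ 3 + 83887 / 200000 * s ^ 2 * t ^ 2 +
      63 / 200 * s ^ 3 * t + 21 / 200 * s ^ 4 := by
    positivity
  have e :
      45887 / 200000 * t ^ 4 + 144161 / 300000 * s * t ^ 3 + 83887 / 200000 * s ^ 2 * t ^ 2 +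
      63 / 200 * s ^ 3 * t + 21 / 200 * s ^ 4 =
      (1 + 1 / 10 + (1 / 10) ^ 2 / 2) * (1 + u + 547 / 1000 * u ^ 2) -
      (1 + u + u ^ 2 / 2 + u ^ 3 / 6 + u ^ 4 / 24) := by
    rw [hs, ht]
    ring
  rw [e] at h
  linarith

theorem od_seven_d23_b0 (u : ℝ) (h1 : -2 ≤ u) (h2 : u ≤ -1) :
    36788 / 100000 *
      (1 + (u + 1) + (u + 1) ^ 2 / 2 + (u + 1) ^ 3 / 6 + (u + 1) ^ 4 / 24) ≤
      (1 + 1 / 10 + (1 / 10) ^ 2 / 2) * (1 + u + 547 / 1000 * u ^ 2) := by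
  obtain ⟨s, hs⟩ : ∃ s, s = u - (-2) := ⟨_, rfl⟩
  obtain ⟨t, ht⟩ : ∃ t, t = -1 - u := ⟨_, rfl⟩
  have hs0 : 0 ≤ s := by linarith
  have ht0 : 0 ≤ t := by linarith
  have h : 0 ≤
      234957 / 200000 * t ^ 4 + 244783 / 75000 * s * t ^ 3 + 130203 / 40000 * s ^ 2 * t ^ 2 +
      141797 / 100000 * s ^ 3 * t + 47311 / 200000 * s ^ 4 := by
    positivity
  have e :
      234957 / 200000 * t ^ 4 + 244783 / 75000 * s * t ^ 3 + 130203 / 40000 * s ^ 2 * t ^ 2 +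
      141797 / 100000 * s ^ 3 * t + 47311 / 200000 * s ^ 4 =
      (1 + 1 / 10 + (1 / 10) ^ 2 / 2) * (1 + u + 547 / 1000 * u ^ 2) -
      (36788 / 100000 *
      (1 + (u + 1) + (u + 1) ^ 2 / 2 + (u + 1) ^ 3 / 6 + (u + 1) ^ 4 / 24)) := by
    rw [hs, ht]
    ring
  rw [e] at h
  linarith

theorem od_seven_d23_c0 (u : ℝ) (h1 : -3 ≤ u) (h2 : u ≤ -2) :
    13534 / 100000 *
      (1 + (u + 2) + (u + 2) ^ 2 / 2 + (u + 2) ^ 3 / 6 + (u + 2) ^ 4 / 24) ≤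
      (1 + 1 / 10 + (1 / 10) ^ 2 / 2) * (1 + u + 547 / 1000 * u ^ 2) := by
  obtain ⟨s, hs⟩ : ∃ s, s = u - (-3) := ⟨_, rfl⟩
  obtain ⟨t, ht⟩ : ∃ t, t = -2 - u := ⟨_, rfl⟩
  have hs0 : 0 ≤ s := by linarith
  have ht0 : 0 ≤ t := by linarith
  have h : 0 ≤
      254333 / 80000 * t ^ 4 + 1522489 / 150000 * s * t ^ 3 +
      2389081 / 200000 * s ^ 2 * t ^ 2 + 76971 / 12500 * s ^ 3 * t + 5887 / 5000 * s ^ 4 := by
    positivity
  have e :
      254333 / 80000 * t ^ 4 + 1522489 / 150000 * s * t ^ 3 +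
      2389081 / 200000 * s ^ 2 * t ^ 2 + 76971 / 12500 * s ^ 3 * t + 5887 / 5000 * s ^ 4 =
      (1 + 1 / 10 + (1 / 10) ^ 2 / 2) * (1 + u + 547 / 1000 * u ^ 2) -
      (13534 / 100000 *
      (1 + (u + 2) + (u + 2) ^ 2 / 2 + (u + 2) ^ 3 / 6 + (u + 2) ^ 4 / 24)) := by
    rw [hs, ht]
    ring
  rw [e] at h
  linarith

theorem od_seven_d23_d (u : ℝ) (h2 : u ≤ -3) :
    4979 / 100000 ≤
      (1 + 1 / 10 + (1 / 10) ^ 2 / 2) * (1 + u + 547 / 1000 * u ^ 2) := by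
  obtain ⟨s, hs⟩ : ∃ s, s = -3 - u := ⟨_, rfl⟩
  have hs0 : 0 ≤ s := by linarith
  have h : 0 ≤
      25441 / 8000 + 252161 / 100000 * s + 120887 / 200000 * s ^ 2 := by
    positivity
  have e :
      25441 / 8000 + 252161 / 100000 * s + 120887 / 200000 * s ^ 2 =
      (1 + 1 / 10 + (1 / 10) ^ 2 / 2) * (1 + u + 547 / 1000 * u ^ 2) -
      (4979 / 100000) := by
    rw [hs]
    ring
  rw [e] at h
  linarith

theorem od_seven_d23_e0 (u : ℝ) (h1 : 0 ≤ u) (h2 : u ≤ 2 / 3) :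
    1 + u + u ^ 2 / 2 + u ^ 3 / 6 + u ^ 4 / 24 + u ^ 5 / 100 ≤
      (1 + 1 / 10 + (1 / 10) ^ 2 / 2) * (1 + u + 547 / 1000 * u ^ 2) := by
  obtain ⟨s, hs⟩ : ∃ s, s = u - (0) := ⟨_, rfl⟩
  obtain ⟨t, ht⟩ : ∃ t, t = 2 / 3 - u := ⟨_, rfl⟩
  have hs0 : 0 ≤ s := by linarith
  have ht0 : 0 ≤ t := by linarith
  have h : 0 ≤
      5103 / 6400 * t ^ 5 + 28917 / 6400 * s * t ^ 4 + 16723449 / 1600000 * s ^ 2 * t ^ 3 +
      18952347 / 1600000 * s ^ 3 * t ^ 2 + 10172597 / 1600000 * s ^ 4 * t +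
      1974199 / 1600000 * s ^ 5 := by
    positivity
  have e :
      5103 / 6400 * t ^ 5 + 28917 / 6400 * s * t ^ 4 + 16723449 / 1600000 * s ^ 2 * t ^ 3 +
      18952347 / 1600000 * s ^ 3 * t ^ 2 + 10172597 / 1600000 * s ^ 4 * t +
      1974199 / 1600000 * s ^ 5 =
      (1 + 1 / 10 + (1 / 10) ^ 2 / 2) * (1 + u + 547 / 1000 * u ^ 2) -
      (1 + u + u ^ 2 / 2 + u ^ 3 / 6 + u ^ 4 / 24 + u ^ 5 / 100) := by
    rw [hs, ht]
    ring
  rw [e] at h
  linarith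

theorem od_seven_d23_f0 (u : ℝ) (h1 : 2 / 3 ≤ u) (h2 : u ≤ 1) :
    97387 / 50000 * (1 + (u - 2 / 3) / 7) ^ 7 ≤
      (1 + 1 / 10 + (1 / 10) ^ 2 / 2) * (1 + u + 547 / 1000 * u ^ 2) := by
  obtain ⟨s, hs⟩ : ∃ s, s = u - (2 / 3) := ⟨_, rfl⟩
  obtain ⟨t, ht⟩ : ∃ t, t = 1 - u := ⟨_, rfl⟩
  have hs0 : 0 ≤ s := by linarith
  have ht0 : 0 ≤ t := by linarith
  have h : 0 ≤
      8888211 / 25000 * t ^ 7 + 61546311 / 25000 * s * t ^ 6 +
      2029734531 / 280000 * s ^ 2 * t ^ 5 + 4603988889 / 392000 * s ^ 3 * t ^ 4 +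
      77392779561 / 6860000 * s ^ 4 * t ^ 3 + 1537799415921 / 240100000 * s ^ 5 * t ^ 2 +
      6659111855283 / 3361400000 * s ^ 6 * t + 42137199023243 / 164708600000 * s ^ 7 := by
    positivity
  have e :
      8888211 / 25000 * t ^ 7 + 61546311 / 25000 * s * t ^ 6 +
      2029734531 / 280000 * s ^ 2 * t ^ 5 + 4603988889 / 392000 * s ^ 3 * t ^ 4 +
      77392779561 / 6860000 * s ^ 4 * t ^ 3 + 1537799415921 / 240100000 * s ^ 5 * t ^ 2 +
      6659111855283 / 3361400000 * s ^ 6 * t + 42137199023243 / 164708600000 * s ^ 7 =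
      (1 + 1 / 10 + (1 / 10) ^ 2 / 2) * (1 + u + 547 / 1000 * u ^ 2) -
      (97387 / 50000 * (1 + (u - 2 / 3) / 7) ^ 7) := by
    rw [hs, ht]
    ring
  rw [e] at h
  linarith

theorem od_seven_d23_g0 (u : ℝ) (h1 : 1 ≤ u) (h2 : u ≤ 2) :
    97387 / 50000 * (1 + (u - 2 / 3) / 7) ^ 7 ≤
      (1 + 1 / 10 + (1 / 10) ^ 2 / 2) * ((1 + (1 / 20 * (u ^ 2 - 1)) +
      (1 / 20 * (u ^ 2 - 1)) ^ 2 / 2 +
      (1 / 20 * (u ^ 2 - 1)) ^ 3 / 6) *
      (1 + u + 547 / 1000 * u ^ 2)) := by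
  obtain ⟨s, hs⟩ : ∃ s, s = u - (1) := ⟨_, rfl⟩
  obtain ⟨t, ht⟩ : ∃ t, t = 2 - u := ⟨_, rfl⟩
  have hs0 : 0 ≤ s := by linarith
  have ht0 : 0 ≤ t := by linarith
  have h : 0 ≤
      42137199023243 / 360217708200000 * t ^ 8 +
      3444702615052327 / 3602177082000000 * s * t ^ 7 +
      34538677310006971 / 10291934520000000 * s ^ 2 * t ^ 6 +
      675870876046123217 / 102919345200000000 * s ^ 3 * t ^ 5 +
      401118973261953281 / 51459672600000000 * s ^ 4 * t ^ 4 +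
      470328794059258237 / 82335476160000000 * s ^ 5 * t ^ 3 +
      294917781316425527 / 117622108800000000 * s ^ 6 * t ^ 2 +
      863474537662989619 / 1440870832800000000 * s ^ 7 * t +
      86282196427683413 / 1440870832800000000 * s ^ 8 := by
    positivity
  have e :
      42137199023243 / 360217708200000 * t ^ 8 +
      3444702615052327 / 3602177082000000 * s * t ^ 7 +
      34538677310006971 / 10291934520000000 * s ^ 2 * t ^ 6 +
      675870876046123217 / 102919345200000000 * s ^ 3 * t ^ 5 +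
      401118973261953281 / 51459672600000000 * s ^ 4 * t ^ 4 +
      470328794059258237 / 82335476160000000 * s ^ 5 * t ^ 3 +
      294917781316425527 / 117622108800000000 * s ^ 6 * t ^ 2 +
      863474537662989619 / 1440870832800000000 * s ^ 7 * t +
      86282196427683413 / 1440870832800000000 * s ^ 8 =
      (1 + 1 / 10 + (1 / 10) ^ 2 / 2) * ((1 + (1 / 20 * (u ^ 2 - 1)) +
      (1 / 20 * (u ^ 2 - 1)) ^ 2 / 2 +
      (1 / 20 * (u ^ 2 - 1)) ^ 3 / 6) *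
      (1 + u + 547 / 1000 * u ^ 2)) -
      (97387 / 50000 * (1 + (u - 2 / 3) / 7) ^ 7) := by
    rw [hs, ht]
    ring
  rw [e] at h
  linarith

theorem od_seven_d23_g1 (u : ℝ) (h1 : 2 ≤ u) (h2 : u ≤ 3) :
    97387 / 50000 * (1 + (u - 2 / 3) / 7) ^ 7 ≤
      (1 + 1 / 10 + (1 / 10) ^ 2 / 2) * ((1 + (1 / 20 * (u ^ 2 - 1)) +
      (1 / 20 * (u ^ 2 - 1)) ^ 2 / 2 +
      (1 / 20 * (u ^ 2 - 1)) ^ 3 / 6) *
      (1 + u + 547 / 1000 * u ^ 2)) := by
  obtain ⟨s, hs⟩ : ∃ s, s = u - (2) := ⟨_, rfl⟩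
  obtain ⟨t, ht⟩ : ∃ t, t = 3 - u := ⟨_, rfl⟩
  have hs0 : 0 ≤ s := by linarith
  have ht0 : 0 ≤ t := by linarith
  have h : 0 ≤
      86282196427683413 / 1440870832800000000 * t ^ 8 +
      517040605179944989 / 1440870832800000000 * s * t ^ 7 +
      96955534183257167 / 117622108800000000 * s ^ 2 * t ^ 6 +
      7257858853577693 / 8401579200000000 * s ^ 3 * t ^ 5 +
      114858603062389 / 300056400000000 * s ^ 4 * t ^ 4 +
      8005836612113 / 42865200000000 * s ^ 5 * t ^ 3 +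
      1221819445487 / 3061800000000 * s ^ 6 * t ^ 2 +
      39672894793 / 109350000000 * s ^ 7 * t + 5810460313 / 54675000000 * s ^ 8 := by
    positivity
  have e :
      86282196427683413 / 1440870832800000000 * t ^ 8 +
      517040605179944989 / 1440870832800000000 * s * t ^ 7 +
      96955534183257167 / 117622108800000000 * s ^ 2 * t ^ 6 +
      7257858853577693 / 8401579200000000 * s ^ 3 * t ^ 5 +
      114858603062389 / 300056400000000 * s ^ 4 * t ^ 4 +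
      8005836612113 / 42865200000000 * s ^ 5 * t ^ 3 +
      1221819445487 / 3061800000000 * s ^ 6 * t ^ 2 +
      39672894793 / 109350000000 * s ^ 7 * t + 5810460313 / 54675000000 * s ^ 8 =
      (1 + 1 / 10 + (1 / 10) ^ 2 / 2) * ((1 + (1 / 20 * (u ^ 2 - 1)) +
      (1 / 20 * (u ^ 2 - 1)) ^ 2 / 2 +
      (1 / 20 * (u ^ 2 - 1)) ^ 3 / 6) *
      (1 + u + 547 / 1000 * u ^ 2)) -
      (97387 / 50000 * (1 + (u - 2 / 3) / 7) ^ 7) := by
    rw [hs, ht]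
    ring
  rw [e] at h
  linarith

theorem od_seven_d23_t (u : ℝ) (h1 : 3 ≤ u) :
    97387 / 50000 * (1 + (u - 2 / 3) / 7) ^ 7 ≤
      (1 + 1 / 10 + (1 / 10) ^ 2 / 2) * ((1 + (1 / 20 * (u ^ 2 - 1)) +
      (1 / 20 * (u ^ 2 - 1)) ^ 2 / 2 +
      (1 / 20 * (u ^ 2 - 1)) ^ 3 / 6) *
      (1 + u + 547 / 1000 * u ^ 2)) := by
  obtain ⟨s, hs⟩ : ∃ s, s = u - (3) := ⟨_, rfl⟩
  have hs0 : 0 ≤ s := by linarith
  have h : 0 ≤
      5810460313 / 54675000000 + 3552964681 / 7290000000 * s +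
      94693845809 / 113400000000 * s ^ 2 + 857117646473 / 1587600000000 * s ^ 3 +
      162625075391 / 926100000000 * s ^ 4 + 388506680803 / 11524800000000 * s ^ 5 +
      684594634981 / 161347200000000 * s ^ 6 + 159540007649 / 494125800000000 * s ^ 7 +
      120887 / 9600000000 * s ^ 8 := by
    positivity
  have e :
      5810460313 / 54675000000 + 3552964681 / 7290000000 * s +
      94693845809 / 113400000000 * s ^ 2 + 857117646473 / 1587600000000 * s ^ 3 +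
      162625075391 / 926100000000 * s ^ 4 + 388506680803 / 11524800000000 * s ^ 5 +
      684594634981 / 161347200000000 * s ^ 6 + 159540007649 / 494125800000000 * s ^ 7 +
      120887 / 9600000000 * s ^ 8 =
      (1 + 1 / 10 + (1 / 10) ^ 2 / 2) * ((1 + (1 / 20 * (u ^ 2 - 1)) +
      (1 / 20 * (u ^ 2 - 1)) ^ 2 / 2 +
      (1 / 20 * (u ^ 2 - 1)) ^ 3 / 6) *
      (1 + u + 547 / 1000 * u ^ 2)) -
      (97387 / 50000 * (1 + (u - 2 / 3) / 7) ^ 7) := by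
    rw [hs]
    ring
  rw [e] at h
  linarith

/-- `K = 7`: `(c, μ, P, δ) = (547 / 1000, 1 / 20, 2 / 3, 1 / 10)` -/
theorem expOd_seven_d23 : ExpOd 7 (547 / 1000) (1 / 20) (2 / 3) (1 / 10) := by
  have hde : (1 + 1 / 10 + (1 / 10) ^ 2 / 2) ≤ Real.exp (1 / 10) := Real.quadratic_le_exp_of_nonneg (by norm_num)
  have hq : ∀ u : ℝ, 0 ≤ 1 + u + 547 / 1000 * u ^ 2 := fun u => by
    nlinarith [sq_nonneg (u + 2), sq_nonneg u]
  have hR : ∀ (u x y : ℝ), x ≤ y → y ≤ (1 + 1 / 10 + (1 / 10) ^ 2 / 2) * (1 + u + 547 / 1000 * u ^ 2) →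
      x ≤ Real.exp (1 / 10) * (1 + u + 547 / 1000 * u ^ 2) := fun u x y h1 h2 =>
    (h1.trans h2).trans (mul_le_mul_of_nonneg_right hde (hq u))
  refine ExpOd.of (by norm_num) (by norm_num) (by norm_num) (by norm_num) (by norm_num) ?_ ?_ ?_
  · intro u h1
    rcases le_total u (-3) with h3 | h3
    · exact hR u _ _ (exp_le_n3 h3) (od_seven_d23_d u h3)
    rcases le_total u (-2) with h4 | h4
    · refine hR u _ _ (exp_le_n2 h4) ?_
      exact od_seven_d23_c0 u (by linarith) (by linarith)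
    rcases le_total u (-1) with h5 | h5
    · refine hR u _ _ (exp_le_n1 h5) ?_
      exact od_seven_d23_b0 u (by linarith) (by linarith)
    rcases le_total u 0 with h6 | h6
    · refine hR u _ _ (exp_le_n0 h6) ?_
      exact od_seven_d23_a0 u (by linarith) (by linarith)
    refine hR u _ _ (exp_le_p h6 (by linarith)) ?_
    exact od_seven_d23_e0 u (by linarith) (by linarith)
  · intro u h1 h2
    have h4 : 0 ≤ (1 + (u - 2 / 3) / 7) ^ 7 := by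
      have : 0 ≤ (u - 2 / 3) / 7 := div_nonneg (by linarith) (by norm_num)
      positivity
    have hE : Real.exp (2 / 3) ≤ 97387 / 50000 := exp_up_2_3
    push_cast
    refine hR u _ _ (mul_le_mul_of_nonneg_right hE h4) ?_
    exact od_seven_d23_f0 u (by linarith) (by linarith)
  · intro u h1
    have h4 : 0 ≤ (1 + (u - 2 / 3) / 7) ^ 7 := by
      have : 0 ≤ (u - 2 / 3) / 7 := div_nonneg (by linarith) (by norm_num)
      positivity
    have hE : Real.exp (2 / 3) ≤ 97387 / 50000 := exp_up_2_3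
    have hx : 0 ≤ 1 / 20 * (u ^ 2 - 1) := mul_nonneg (by norm_num) (by nlinarith)
    have h5 := mul_le_mul_of_nonneg_right (taylor3_le_exp _ hx) (hq u)
    have h6 : 0 ≤ Real.exp (1 / 20 * (u ^ 2 - 1)) * (1 + u + 547 / 1000 * u ^ 2) :=
      mul_nonneg (Real.exp_nonneg _) (hq u)
    rw [Real.exp_add, mul_assoc]
    push_cast
    refine ((mul_le_mul_of_nonneg_right hE h4).trans ?_).trans
      ((mul_le_mul_of_nonneg_left h5 (by norm_num : (0 : ℝ) ≤ (1 + 1 / 10 + (1 / 10) ^ 2 / 2))).trans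
        (mul_le_mul_of_nonneg_right hde h6))
    rcases le_total u (2) with hh | hh
    · exact od_seven_d23_g0 u (by linarith) (by linarith)
    rcases le_total u (3) with hh | hh
    · exact od_seven_d23_g1 u (by linarith) (by linarith)
    exact od_seven_d23_t u (by linarith)

end

end Pool.Agent.TSM
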