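import Pool.Agent.TSM.OddF

set_option autoImplicit false

/-!
# Constants of the full finite rule for `K = 3, 5, 7` (MP_d27362_co)
-/

namespace Pool.Agent.TSM

noncomputable section

theorem taylor3_le_exp (x : ℝ) (hx : 0 ≤ x) :
    1 + x + x ^ 2 / 2 + x ^ 3 / 6 ≤ Real.exp x := by
  have h := Real.sum_le_exp_of_nonneg hx 4
  simp only [Finset.sum_range_succ, Finset.sum_range_zero, Nat.factorial] at h
  push_cast at h
  refine le_trans (le_of_eq ?_) h
  ring

theorem exp_third : Real.exp (1 / 3) ≤ 139562 / 100000 := by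
  have h := Real.exp_bound' (x := 1 / 3) (by norm_num) (by norm_num) (n := 7) (by norm_num)
  simp only [Finset.sum_range_succ, Finset.sum_range_zero, Nat.factorial] at h
  push_cast at h
  refine h.trans ?_
  norm_num

theorem exp_two_thirds : Real.exp (2 / 3) ≤ 194774 / 100000 := by
  have h := Real.exp_bound' (x := 2 / 3) (by norm_num) (by norm_num) (n := 9) (by norm_num)
  simp only [Finset.sum_range_succ, Finset.sum_range_zero, Nat.factorial] at h
  push_cast at h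
  refine h.trans ?_
  norm_num

theorem odf_three_a_h2 (u : ℝ) (h1 : 1 / 3 ≤ u) (h2 : u ≤ 1) :
    139562 / 100000 * (1 + (u - 1 / 3) / 3) ^ 3 ≤ 1 + u + 13 / 20 * u ^ 2 := by
  obtain ⟨s, hs⟩ : ∃ s, s = u - 1 / 3 := ⟨_, rfl⟩
  obtain ⟨t, ht⟩ : ∃ t, t = 1 - u := ⟨_, rfl⟩
  have hs0 : 0 ≤ s := by linarith
  have ht0 : 0 ≤ t := by linarith
  have h : 0 ≤
      13413 / 400000 * t ^ 3 + 74181 / 400000 * s * t ^ 2 + 218999 / 400000 * s ^ 2 * t +
      3713989 / 10800000 * s ^ 3 := by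
    positivity
  have e :
      13413 / 400000 * t ^ 3 + 74181 / 400000 * s * t ^ 2 + 218999 / 400000 * s ^ 2 * t +
      3713989 / 10800000 * s ^ 3 =
      1 + u + 13 / 20 * u ^ 2 - 139562 / 100000 * (1 + (u - 1 / 3) / 3) ^ 3 := by
    rw [hs, ht]
    ring
  rw [e] at h
  linarith

theorem odf_three_a_0 (u : ℝ) (h1 : 1 ≤ u) (h2 : u ≤ 8) :
    139562 / 100000 * (1 + (u - 1 / 3) / 3) ^ 3 ≤
      (1 + (7 / 2000 * (u ^ 2 - 1)) +
      (7 / 2000 * (u ^ 2 - 1)) ^ 2 / 2 +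
      (7 / 2000 * (u ^ 2 - 1)) ^ 3 / 6) *
      (1 + u + 13 / 20 * u ^ 2) := by
  obtain ⟨s, hs⟩ : ∃ s, s = u - 1 := ⟨_, rfl⟩
  obtain ⟨t, ht⟩ : ∃ t, t = 8 - u := ⟨_, rfl⟩
  have hs0 : 0 ≤ s := by linarith
  have ht0 : 0 ≤ t := by linarith
  have h : 0 ≤
      3713989 / 210126996450000 * t ^ 8 + 178698763 / 420253992900000 * s * t ^ 7 +
      81405778691 / 24014513880000000 * s ^ 2 * t ^ 6 +
      242086358774353 / 24014513880000000000 * s ^ 3 * t ^ 5 +
      681347642562487 / 48029027760000000000 * s ^ 4 * t ^ 4 +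
      953779637965939 / 96058055520000000000 * s ^ 5 * t ^ 3 +
      605268516368041 / 192116111040000000000 * s ^ 6 * t ^ 2 +
      122481768685427 / 336203194320000000000 * s ^ 7 * t +
      20163442946959 / 336203194320000000000 * s ^ 8 := by
    positivity
  have e :
      3713989 / 210126996450000 * t ^ 8 + 178698763 / 420253992900000 * s * t ^ 7 +
      81405778691 / 24014513880000000 * s ^ 2 * t ^ 6 +
      242086358774353 / 24014513880000000000 * s ^ 3 * t ^ 5 +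
      681347642562487 / 48029027760000000000 * s ^ 4 * t ^ 4 +
      953779637965939 / 96058055520000000000 * s ^ 5 * t ^ 3 +
      605268516368041 / 192116111040000000000 * s ^ 6 * t ^ 2 +
      122481768685427 / 336203194320000000000 * s ^ 7 * t +
      20163442946959 / 336203194320000000000 * s ^ 8 =
      (1 + (7 / 2000 * (u ^ 2 - 1)) +
      (7 / 2000 * (u ^ 2 - 1)) ^ 2 / 2 +
      (7 / 2000 * (u ^ 2 - 1)) ^ 3 / 6) *
      (1 + u + 13 / 20 * u ^ 2) -
      139562 / 100000 * (1 + (u - 1 / 3) / 3) ^ 3 := by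
    rw [hs, ht]
    ring
  rw [e] at h
  linarith

theorem odf_three_a_t (u : ℝ) (h1 : 8 ≤ u) :
    139562 / 100000 * (1 + (u - 1 / 3) / 3) ^ 3 ≤
      (1 + (7 / 2000 * (u ^ 2 - 1)) +
      (7 / 2000 * (u ^ 2 - 1)) ^ 2 / 2 +
      (7 / 2000 * (u ^ 2 - 1)) ^ 3 / 6) *
      (1 + u + 13 / 20 * u ^ 2) := by
  obtain ⟨s, hs⟩ : ∃ s, s = u - 8 := ⟨_, rfl⟩
  have hs0 : 0 ≤ s := by linarith
  have h : 0 ≤
      20163442946959 / 58320000000000 + 123256428223 / 1296000000000 * s +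
      2317230310993 / 8640000000000 * s ^ 2 + 169973690921 / 2160000000000 * s ^ 3 +
      2493628319 / 320000000000 * s ^ 4 + 81517723 / 240000000000 * s ^ 5 +
      12190171 / 960000000000 * s ^ 6 + 24353 / 80000000000 * s ^ 7 +
      4459 / 960000000000 * s ^ 8 := by
    positivity
  have e :
      20163442946959 / 58320000000000 + 123256428223 / 1296000000000 * s +
      2317230310993 / 8640000000000 * s ^ 2 + 169973690921 / 2160000000000 * s ^ 3 +
      2493628319 / 320000000000 * s ^ 4 + 81517723 / 240000000000 * s ^ 5 +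
      12190171 / 960000000000 * s ^ 6 + 24353 / 80000000000 * s ^ 7 +
      4459 / 960000000000 * s ^ 8 =
      (1 + (7 / 2000 * (u ^ 2 - 1)) +
      (7 / 2000 * (u ^ 2 - 1)) ^ 2 / 2 +
      (7 / 2000 * (u ^ 2 - 1)) ^ 3 / 6) *
      (1 + u + 13 / 20 * u ^ 2) -
      139562 / 100000 * (1 + (u - 1 / 3) / 3) ^ 3 := by
    rw [hs]
    ring
  rw [e] at h
  linarith

/-- `K = 3`: `(c, μ) = (13 / 20, 7 / 2000)`, gain at most `1 / 3` -/
theorem expO_three_a : ExpO 3 (13 / 20) (7 / 2000) (1 / 3) := by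
  have hE : Real.exp (1 / 3) ≤ 139562 / 100000 := exp_third
  refine ExpO.of (by norm_num) (by norm_num) (by norm_num) (by norm_num)
    (exp_le_quad_of_le (by norm_num) (by norm_num) (by norm_num)) ?_ ?_
  · intro u h1 h2
    have h3 := odf_three_a_h2 u h1 h2
    have h4 : 0 ≤ (1 + (u - 1 / 3) / 3) ^ 3 := by
      have : 0 ≤ (u - 1 / 3) / 3 := div_nonneg (by linarith) (by norm_num)
      positivity
    push_cast
    exact (mul_le_mul_of_nonneg_right hE h4).trans h3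
  · intro u h1
    have h4 : 0 ≤ (1 + (u - 1 / 3) / 3) ^ 3 := by
      have : 0 ≤ (u - 1 / 3) / 3 := div_nonneg (by linarith) (by norm_num)
      positivity
    have hx : 0 ≤ 7 / 2000 * (u ^ 2 - 1) := mul_nonneg (by norm_num) (by nlinarith)
    have hq : 0 ≤ 1 + u + 13 / 20 * u ^ 2 := by positivity
    have h5 := mul_le_mul_of_nonneg_right (taylor3_le_exp _ hx) hq
    push_cast
    refine ((mul_le_mul_of_nonneg_right hE h4).trans ?_).trans h5
    rcases le_total u (8) with h2 | h2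
    · exact odf_three_a_0 u (by linarith) h2
    exact odf_three_a_t u (by linarith)

theorem odf_three_b_h2 (u : ℝ) (h1 : 1 / 3 ≤ u) (h2 : u ≤ 1) :
    139562 / 100000 * (1 + (u - 1 / 3) / 3) ^ 3 ≤ 1 + u + 18 / 25 * u ^ 2 := by
  obtain ⟨s, hs⟩ : ∃ s, s = u - 1 / 3 := ⟨_, rfl⟩
  obtain ⟨t, ht⟩ : ∃ t, t = 1 - u := ⟨_, rfl⟩
  have hs0 : 0 ≤ s := by linarith
  have ht0 : 0 ≤ t := by linarith
  have h : 0 ≤
      23913 / 400000 * t ^ 3 + 147681 / 400000 * s * t ^ 2 + 376499 / 400000 * s ^ 2 * t +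
      6265489 / 10800000 * s ^ 3 := by
    positivity
  have e :
      23913 / 400000 * t ^ 3 + 147681 / 400000 * s * t ^ 2 + 376499 / 400000 * s ^ 2 * t +
      6265489 / 10800000 * s ^ 3 =
      1 + u + 18 / 25 * u ^ 2 - 139562 / 100000 * (1 + (u - 1 / 3) / 3) ^ 3 := by
    rw [hs, ht]
    ring
  rw [e] at h
  linarith

theorem odf_three_b_0 (u : ℝ) (h1 : 1 ≤ u) (h2 : u ≤ 10) :
    139562 / 100000 * (1 + (u - 1 / 3) / 3) ^ 3 ≤
      (1 + (1 / 400 * (u ^ 2 - 1)) +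
      (1 / 400 * (u ^ 2 - 1)) ^ 2 / 2 +
      (1 / 400 * (u ^ 2 - 1)) ^ 3 / 6) *
      (1 + u + 18 / 25 * u ^ 2) := by
  obtain ⟨s, hs⟩ : ∃ s, s = u - 1 := ⟨_, rfl⟩
  obtain ⟨t, ht⟩ : ∃ t, t = 10 - u := ⟨_, rfl⟩
  have hs0 : 0 ≤ s := by linarith
  have ht0 : 0 ≤ t := by linarith
  have h : 0 ≤
      6265489 / 1569052980450000 * t ^ 8 + 171103811 / 1569052980450000 * s * t ^ 7 +
      15255324013 / 15690529804500000 * s ^ 2 * t ^ 6 +
      9593693251549 / 3138105960900000000 * s ^ 3 * t ^ 5 +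
      56746200674429 / 12552423843600000000 * s ^ 4 * t ^ 4 +
      85017385059959 / 25104847687200000000 * s ^ 5 * t ^ 3 +
      61735428958673 / 50209695374400000000 * s ^ 6 * t ^ 2 +
      4034976755239 / 20083878149760000000 * s ^ 7 * t +
      116240401411 / 4016775629952000000 * s ^ 8 := by
    positivity
  have e :
      6265489 / 1569052980450000 * t ^ 8 + 171103811 / 1569052980450000 * s * t ^ 7 +
      15255324013 / 15690529804500000 * s ^ 2 * t ^ 6 +
      9593693251549 / 3138105960900000000 * s ^ 3 * t ^ 5 +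
      56746200674429 / 12552423843600000000 * s ^ 4 * t ^ 4 +
      85017385059959 / 25104847687200000000 * s ^ 5 * t ^ 3 +
      61735428958673 / 50209695374400000000 * s ^ 6 * t ^ 2 +
      4034976755239 / 20083878149760000000 * s ^ 7 * t +
      116240401411 / 4016775629952000000 * s ^ 8 =
      (1 + (1 / 400 * (u ^ 2 - 1)) +
      (1 / 400 * (u ^ 2 - 1)) ^ 2 / 2 +
      (1 / 400 * (u ^ 2 - 1)) ^ 3 / 6) *
      (1 + u + 18 / 25 * u ^ 2) -
      139562 / 100000 * (1 + (u - 1 / 3) / 3) ^ 3 := by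
    rw [hs, ht]
    ring
  rw [e] at h
  linarith

theorem odf_three_b_t (u : ℝ) (h1 : 10 ≤ u) :
    139562 / 100000 * (1 + (u - 1 / 3) / 3) ^ 3 ≤
      (1 + (1 / 400 * (u ^ 2 - 1)) +
      (1 / 400 * (u ^ 2 - 1)) ^ 2 / 2 +
      (1 / 400 * (u ^ 2 - 1)) ^ 3 / 6) *
      (1 + u + 18 / 25 * u ^ 2) := by
  obtain ⟨s, hs⟩ : ∃ s, s = u - 10 := ⟨_, rfl⟩
  have hs0 : 0 ≤ s := by linarith
  have h : 0 ≤
      116240401411 / 93312000000 + 7588139521 / 51840000000 * s +
      29087769763 / 86400000000 * s ^ 2 + 1420714423 / 17280000000 * s ^ 3 +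
      64594529 / 9600000000 * s ^ 4 + 158979 / 640000000 * s ^ 5 +
      73721 / 9600000000 * s ^ 6 + 293 / 1920000000 * s ^ 7 + 3 / 1600000000 * s ^ 8 := by
    positivity
  have e :
      116240401411 / 93312000000 + 7588139521 / 51840000000 * s +
      29087769763 / 86400000000 * s ^ 2 + 1420714423 / 17280000000 * s ^ 3 +
      64594529 / 9600000000 * s ^ 4 + 158979 / 640000000 * s ^ 5 +
      73721 / 9600000000 * s ^ 6 + 293 / 1920000000 * s ^ 7 + 3 / 1600000000 * s ^ 8 =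
      (1 + (1 / 400 * (u ^ 2 - 1)) +
      (1 / 400 * (u ^ 2 - 1)) ^ 2 / 2 +
      (1 / 400 * (u ^ 2 - 1)) ^ 3 / 6) *
      (1 + u + 18 / 25 * u ^ 2) -
      139562 / 100000 * (1 + (u - 1 / 3) / 3) ^ 3 := by
    rw [hs]
    ring
  rw [e] at h
  linarith

/-- `K = 3`: `(c, μ) = (18 / 25, 1 / 400)`, gain at most `1 / 3` -/
theorem expO_three_b : ExpO 3 (18 / 25) (1 / 400) (1 / 3) := by
  have hE : Real.exp (1 / 3) ≤ 139562 / 100000 := exp_third
  refine ExpO.of (by norm_num) (by norm_num) (by norm_num) (by norm_num)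
    (exp_le_quad_of_le (by norm_num) (by norm_num) (by norm_num)) ?_ ?_
  · intro u h1 h2
    have h3 := odf_three_b_h2 u h1 h2
    have h4 : 0 ≤ (1 + (u - 1 / 3) / 3) ^ 3 := by
      have : 0 ≤ (u - 1 / 3) / 3 := div_nonneg (by linarith) (by norm_num)
      positivity
    push_cast
    exact (mul_le_mul_of_nonneg_right hE h4).trans h3
  · intro u h1
    have h4 : 0 ≤ (1 + (u - 1 / 3) / 3) ^ 3 := by
      have : 0 ≤ (u - 1 / 3) / 3 := div_nonneg (by linarith) (by norm_num)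
      positivity
    have hx : 0 ≤ 1 / 400 * (u ^ 2 - 1) := mul_nonneg (by norm_num) (by nlinarith)
    have hq : 0 ≤ 1 + u + 18 / 25 * u ^ 2 := by positivity
    have h5 := mul_le_mul_of_nonneg_right (taylor3_le_exp _ hx) hq
    push_cast
    refine ((mul_le_mul_of_nonneg_right hE h4).trans ?_).trans h5
    rcases le_total u (10) with h2 | h2
    · exact odf_three_b_0 u (by linarith) h2
    exact odf_three_b_t u (by linarith)

theorem odf_three_c_h2 (u : ℝ) (h1 : 2 / 3 ≤ u) (h2 : u ≤ 1) :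
    194774 / 100000 * (1 + (u - 2 / 3) / 3) ^ 3 ≤ 1 + u + 18 / 25 * u ^ 2 := by
  obtain ⟨s, hs⟩ : ∃ s, s = u - 2 / 3 := ⟨_, rfl⟩
  obtain ⟨t, ht⟩ : ∃ t, t = 1 - u := ⟨_, rfl⟩
  have hs0 : 0 ≤ s := by linarith
  have ht0 : 0 ≤ t := by linarith
  have h : 0 ≤
      52551 / 50000 * t ^ 3 + 16317 / 5000 * s * t ^ 2 + 1793 / 500 * s ^ 2 * t +
      1757 / 1350 * s ^ 3 := by
    positivity
  have e :
      52551 / 50000 * t ^ 3 + 16317 / 5000 * s * t ^ 2 + 1793 / 500 * s ^ 2 * t +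
      1757 / 1350 * s ^ 3 =
      1 + u + 18 / 25 * u ^ 2 - 194774 / 100000 * (1 + (u - 2 / 3) / 3) ^ 3 := by
    rw [hs, ht]
    ring
  rw [e] at h
  linarith

theorem odf_three_c_0 (u : ℝ) (h1 : 1 ≤ u) (h2 : u ≤ 3) :
    194774 / 100000 * (1 + (u - 2 / 3) / 3) ^ 3 ≤
      (1 + (9 / 1250 * (u ^ 2 - 1)) +
      (9 / 1250 * (u ^ 2 - 1)) ^ 2 / 2 +
      (9 / 1250 * (u ^ 2 - 1)) ^ 3 / 6) *
      (1 + u + 18 / 25 * u ^ 2) := by
  obtain ⟨s, hs⟩ : ∃ s, s = u - 1 := ⟨_, rfl⟩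
  obtain ⟨t, ht⟩ : ∃ t, t = 3 - u := ⟨_, rfl⟩
  have hs0 : 0 ≤ s := by linarith
  have ht0 : 0 ≤ t := by linarith
  have h : 0 ≤
      1757 / 9331200 * t ^ 8 + 12181717 / 5832000000 * s * t ^ 7 +
      18565735039 / 1822500000000 * s ^ 2 * t ^ 6 +
      30113846710859 / 1139062500000000 * s ^ 3 * t ^ 5 +
      90346253307341 / 2278125000000000 * s ^ 4 * t ^ 4 +
      80766204664801 / 2278125000000000 * s ^ 5 * t ^ 3 +
      10579862862203 / 569531250000000 * s ^ 6 * t ^ 2 +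
      2988146256277 / 569531250000000 * s ^ 7 * t + 350809929599 / 569531250000000 * s ^ 8 := by
    positivity
  have e :
      1757 / 9331200 * t ^ 8 + 12181717 / 5832000000 * s * t ^ 7 +
      18565735039 / 1822500000000 * s ^ 2 * t ^ 6 +
      30113846710859 / 1139062500000000 * s ^ 3 * t ^ 5 +
      90346253307341 / 2278125000000000 * s ^ 4 * t ^ 4 +
      80766204664801 / 2278125000000000 * s ^ 5 * t ^ 3 +
      10579862862203 / 569531250000000 * s ^ 6 * t ^ 2 +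
      2988146256277 / 569531250000000 * s ^ 7 * t + 350809929599 / 569531250000000 * s ^ 8 =
      (1 + (9 / 1250 * (u ^ 2 - 1)) +
      (9 / 1250 * (u ^ 2 - 1)) ^ 2 / 2 +
      (9 / 1250 * (u ^ 2 - 1)) ^ 3 / 6) *
      (1 + u + 18 / 25 * u ^ 2) -
      194774 / 100000 * (1 + (u - 2 / 3) / 3) ^ 3 := by
    rw [hs, ht]
    ring
  rw [e] at h
  linarith

theorem odf_three_c_1 (u : ℝ) (h1 : 3 ≤ u) (h2 : u ≤ 5) :
    194774 / 100000 * (1 + (u - 2 / 3) / 3) ^ 3 ≤
      (1 + (9 / 1250 * (u ^ 2 - 1)) +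
      (9 / 1250 * (u ^ 2 - 1)) ^ 2 / 2 +
      (9 / 1250 * (u ^ 2 - 1)) ^ 3 / 6) *
      (1 + u + 18 / 25 * u ^ 2) := by
  obtain ⟨s, hs⟩ : ∃ s, s = u - 3 := ⟨_, rfl⟩
  obtain ⟨t, ht⟩ : ∃ t, t = 5 - u := ⟨_, rfl⟩
  have hs0 : 0 ≤ s := by linarith
  have ht0 : 0 ≤ t := by linarith
  have h : 0 ≤
      350809929599 / 569531250000000 * t ^ 8 + 2624812617307 / 569531250000000 * s * t ^ 7 +
      8036527389413 / 569531250000000 * s ^ 2 * t ^ 6 +
      51701464453279 / 2278125000000000 * s ^ 3 * t ^ 5 +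
      46755971161331 / 2278125000000000 * s ^ 4 * t ^ 4 +
      12082169780021 / 1139062500000000 * s ^ 5 * t ^ 3 +
      3995750334241 / 1139062500000000 * s ^ 6 * t ^ 2 +
      523132428623 / 455625000000000 * s ^ 7 * t + 27359902259 / 91125000000000 * s ^ 8 := by
    positivity
  have e :
      350809929599 / 569531250000000 * t ^ 8 + 2624812617307 / 569531250000000 * s * t ^ 7 +
      8036527389413 / 569531250000000 * s ^ 2 * t ^ 6 +
      51701464453279 / 2278125000000000 * s ^ 3 * t ^ 5 +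
      46755971161331 / 2278125000000000 * s ^ 4 * t ^ 4 +
      12082169780021 / 1139062500000000 * s ^ 5 * t ^ 3 +
      3995750334241 / 1139062500000000 * s ^ 6 * t ^ 2 +
      523132428623 / 455625000000000 * s ^ 7 * t + 27359902259 / 91125000000000 * s ^ 8 =
      (1 + (9 / 1250 * (u ^ 2 - 1)) +
      (9 / 1250 * (u ^ 2 - 1)) ^ 2 / 2 +
      (9 / 1250 * (u ^ 2 - 1)) ^ 3 / 6) *
      (1 + u + 18 / 25 * u ^ 2) -
      194774 / 100000 * (1 + (u - 2 / 3) / 3) ^ 3 := by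
    rw [hs, ht]
    ring
  rw [e] at h
  linarith

theorem odf_three_c_t (u : ℝ) (h1 : 5 ≤ u) :
    194774 / 100000 * (1 + (u - 2 / 3) / 3) ^ 3 ≤
      (1 + (9 / 1250 * (u ^ 2 - 1)) +
      (9 / 1250 * (u ^ 2 - 1)) ^ 2 / 2 +
      (9 / 1250 * (u ^ 2 - 1)) ^ 3 / 6) *
      (1 + u + 18 / 25 * u ^ 2) := by
  obtain ⟨s, hs⟩ : ∃ s, s = u - 5 := ⟨_, rfl⟩
  have hs0 : 0 ≤ s := by linarith
  have h : 0 ≤
      27359902259 / 355957031250 + 63473740193 / 395507812500 * s +
      327177675851 / 1318359375000 * s ^ 2 + 53034241541 / 527343750000 * s ^ 3 +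
      91668267 / 6103515625 * s ^ 4 + 9078399 / 9765625000 * s ^ 5 +
      2544939 / 48828125000 * s ^ 6 + 36207 / 19531250000 * s ^ 7 + 2187 / 48828125000 * s ^ 8 := by
    positivity
  have e :
      27359902259 / 355957031250 + 63473740193 / 395507812500 * s +
      327177675851 / 1318359375000 * s ^ 2 + 53034241541 / 527343750000 * s ^ 3 +
      91668267 / 6103515625 * s ^ 4 + 9078399 / 9765625000 * s ^ 5 +
      2544939 / 48828125000 * s ^ 6 + 36207 / 19531250000 * s ^ 7 + 2187 / 48828125000 * s ^ 8 =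
      (1 + (9 / 1250 * (u ^ 2 - 1)) +
      (9 / 1250 * (u ^ 2 - 1)) ^ 2 / 2 +
      (9 / 1250 * (u ^ 2 - 1)) ^ 3 / 6) *
      (1 + u + 18 / 25 * u ^ 2) -
      194774 / 100000 * (1 + (u - 2 / 3) / 3) ^ 3 := by
    rw [hs]
    ring
  rw [e] at h
  linarith

/-- `K = 3`: `(c, μ) = (18 / 25, 9 / 1250)`, gain at most `2 / 3` -/
theorem expO_three_c : ExpO 3 (18 / 25) (9 / 1250) (2 / 3) := by
  have hE : Real.exp (2 / 3) ≤ 194774 / 100000 := exp_two_thirds
  refine ExpO.of (by norm_num) (by norm_num) (by norm_num) (by norm_num)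
    (exp_le_quad_of_le (by norm_num) (by norm_num) (by norm_num)) ?_ ?_
  · intro u h1 h2
    have h3 := odf_three_c_h2 u h1 h2
    have h4 : 0 ≤ (1 + (u - 2 / 3) / 3) ^ 3 := by
      have : 0 ≤ (u - 2 / 3) / 3 := div_nonneg (by linarith) (by norm_num)
      positivity
    push_cast
    exact (mul_le_mul_of_nonneg_right hE h4).trans h3
  · intro u h1
    have h4 : 0 ≤ (1 + (u - 2 / 3) / 3) ^ 3 := by
      have : 0 ≤ (u - 2 / 3) / 3 := div_nonneg (by linarith) (by norm_num)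
      positivity
    have hx : 0 ≤ 9 / 1250 * (u ^ 2 - 1) := mul_nonneg (by norm_num) (by nlinarith)
    have hq : 0 ≤ 1 + u + 18 / 25 * u ^ 2 := by positivity
    have h5 := mul_le_mul_of_nonneg_right (taylor3_le_exp _ hx) hq
    push_cast
    refine ((mul_le_mul_of_nonneg_right hE h4).trans ?_).trans h5
    rcases le_total u (3) with h2 | h2
    · exact odf_three_c_0 u (by linarith) h2
    rcases le_total u (5) with h2 | h2
    · exact odf_three_c_1 u (by linarith) h2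
    exact odf_three_c_t u (by linarith)

theorem odf_three_d_h2 (u : ℝ) (h1 : 2 / 3 ≤ u) (h2 : u ≤ 1) :
    194774 / 100000 * (1 + (u - 2 / 3) / 3) ^ 3 ≤ 1 + u + 4 / 5 * u ^ 2 := by
  obtain ⟨s, hs⟩ : ∃ s, s = u - 2 / 3 := ⟨_, rfl⟩
  obtain ⟨t, ht⟩ : ∃ t, t = 1 - u := ⟨_, rfl⟩
  have hs0 : 0 ≤ s := by linarith
  have ht0 : 0 ≤ t := by linarith
  have h : 0 ≤
      100551 / 50000 * t ^ 3 + 35517 / 5000 * s * t ^ 2 + 4313 / 500 * s ^ 2 * t +
      4673 / 1350 * s ^ 3 := by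
    positivity
  have e :
      100551 / 50000 * t ^ 3 + 35517 / 5000 * s * t ^ 2 + 4313 / 500 * s ^ 2 * t +
      4673 / 1350 * s ^ 3 =
      1 + u + 4 / 5 * u ^ 2 - 194774 / 100000 * (1 + (u - 2 / 3) / 3) ^ 3 := by
    rw [hs, ht]
    ring
  rw [e] at h
  linarith

theorem odf_three_d_0 (u : ℝ) (h1 : 1 ≤ u) (h2 : u ≤ 9 / 2) :
    194774 / 100000 * (1 + (u - 2 / 3) / 3) ^ 3 ≤
      (1 + (23 / 5000 * (u ^ 2 - 1)) +
      (23 / 5000 * (u ^ 2 - 1)) ^ 2 / 2 +
      (23 / 5000 * (u ^ 2 - 1)) ^ 3 / 6) *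
      (1 + u + 4 / 5 * u ^ 2) := by
  obtain ⟨s, hs⟩ : ∃ s, s = u - 1 := ⟨_, rfl⟩
  obtain ⟨t, ht⟩ : ∃ t, t = 9 / 2 - u := ⟨_, rfl⟩
  have hs0 : 0 ≤ s := by linarith
  have ht0 : 0 ≤ t := by linarith
  have h : 0 ≤
      598144 / 105063498225 * t ^ 8 + 1049540512 / 13132937278125 * s * t ^ 7 +
      542738630636 / 1172583685546875 * s ^ 2 * t ^ 6 +
      1931217117993533 / 1465729606933593750 * s ^ 3 * t ^ 5 +
      1516513269193379 / 732864803466796875 * s ^ 4 * t ^ 4 +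
      4412897729374019 / 2345167371093750000 * s ^ 5 * t ^ 3 +
      46051952703939509 / 46903347421875000000 * s ^ 6 * t ^ 2 +
      712280551275286703 / 2626587455625000000000 * s ^ 7 * t +
      80628233386487041 / 2626587455625000000000 * s ^ 8 := by
    positivity
  have e :
      598144 / 105063498225 * t ^ 8 + 1049540512 / 13132937278125 * s * t ^ 7 +
      542738630636 / 1172583685546875 * s ^ 2 * t ^ 6 +
      1931217117993533 / 1465729606933593750 * s ^ 3 * t ^ 5 +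
      1516513269193379 / 732864803466796875 * s ^ 4 * t ^ 4 +
      4412897729374019 / 2345167371093750000 * s ^ 5 * t ^ 3 +
      46051952703939509 / 46903347421875000000 * s ^ 6 * t ^ 2 +
      712280551275286703 / 2626587455625000000000 * s ^ 7 * t +
      80628233386487041 / 2626587455625000000000 * s ^ 8 =
      (1 + (23 / 5000 * (u ^ 2 - 1)) +
      (23 / 5000 * (u ^ 2 - 1)) ^ 2 / 2 +
      (23 / 5000 * (u ^ 2 - 1)) ^ 3 / 6) *
      (1 + u + 4 / 5 * u ^ 2) -
      194774 / 100000 * (1 + (u - 2 / 3) / 3) ^ 3 := by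
    rw [hs, ht]
    ring
  rw [e] at h
  linarith

theorem odf_three_d_1 (u : ℝ) (h1 : 9 / 2 ≤ u) (h2 : u ≤ 8) :
    194774 / 100000 * (1 + (u - 2 / 3) / 3) ^ 3 ≤
      (1 + (23 / 5000 * (u ^ 2 - 1)) +
      (23 / 5000 * (u ^ 2 - 1)) ^ 2 / 2 +
      (23 / 5000 * (u ^ 2 - 1)) ^ 3 / 6) *
      (1 + u + 4 / 5 * u ^ 2) := by
  obtain ⟨s, hs⟩ : ∃ s, s = u - 9 / 2 := ⟨_, rfl⟩
  obtain ⟨t, ht⟩ : ∃ t, t = 8 - u := ⟨_, rfl⟩
  have hs0 : 0 ≤ s := by linarith
  have ht0 : 0 ≤ t := by linarith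
  have h : 0 ≤
      80628233386487041 / 2626587455625000000000 * t ^ 8 +
      577771182908505953 / 2626587455625000000000 * s * t ^ 7 +
      116953126632367661 / 187613389687500000000 * s ^ 2 * t ^ 6 +
      81941036077520003 / 93806694843750000000 * s ^ 3 * t ^ 5 +
      28756376943250301 / 46903347421875000000 * s ^ 4 * t ^ 4 +
      4974025398520757 / 23451673710937500000 * s ^ 5 * t ^ 3 +
      1212343765727111 / 11725836855468750000 * s ^ 6 * t ^ 2 +
      4165529332744727 / 41040428994140625000 * s ^ 7 * t +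
      749569411146407 / 20520214497070312500 * s ^ 8 := by
    positivity
  have e :
      80628233386487041 / 2626587455625000000000 * t ^ 8 +
      577771182908505953 / 2626587455625000000000 * s * t ^ 7 +
      116953126632367661 / 187613389687500000000 * s ^ 2 * t ^ 6 +
      81941036077520003 / 93806694843750000000 * s ^ 3 * t ^ 5 +
      28756376943250301 / 46903347421875000000 * s ^ 4 * t ^ 4 +
      4974025398520757 / 23451673710937500000 * s ^ 5 * t ^ 3 +
      1212343765727111 / 11725836855468750000 * s ^ 6 * t ^ 2 +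
      4165529332744727 / 41040428994140625000 * s ^ 7 * t +
      749569411146407 / 20520214497070312500 * s ^ 8 =
      (1 + (23 / 5000 * (u ^ 2 - 1)) +
      (23 / 5000 * (u ^ 2 - 1)) ^ 2 / 2 +
      (23 / 5000 * (u ^ 2 - 1)) ^ 3 / 6) *
      (1 + u + 4 / 5 * u ^ 2) -
      194774 / 100000 * (1 + (u - 2 / 3) / 3) ^ 3 := by
    rw [hs, ht]
    ring
  rw [e] at h
  linarith

theorem odf_three_d_t (u : ℝ) (h1 : 8 ≤ u) :
    194774 / 100000 * (1 + (u - 2 / 3) / 3) ^ 3 ≤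
      (1 + (23 / 5000 * (u ^ 2 - 1)) +
      (23 / 5000 * (u ^ 2 - 1)) ^ 2 / 2 +
      (23 / 5000 * (u ^ 2 - 1)) ^ 3 / 6) *
      (1 + u + 4 / 5 * u ^ 2) := by
  obtain ⟨s, hs⟩ : ∃ s, s = u - 8 := ⟨_, rfl⟩
  have hs0 : 0 ≤ s := by linarith
  have h : 0 ≤
      749569411146407 / 911250000000000 + 24849464271739 / 20250000000000 * s +
      25790453325821 / 33750000000000 * s ^ 2 + 5714429410913 / 33750000000000 * s ^ 3 +
      20262916073 / 1250000000000 * s ^ 4 + 3036095519 / 3750000000000 * s ^ 5 +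
      122274647 / 3750000000000 * s ^ 6 + 1058529 / 1250000000000 * s ^ 7 +
      12167 / 937500000000 * s ^ 8 := by
    positivity
  have e :
      749569411146407 / 911250000000000 + 24849464271739 / 20250000000000 * s +
      25790453325821 / 33750000000000 * s ^ 2 + 5714429410913 / 33750000000000 * s ^ 3 +
      20262916073 / 1250000000000 * s ^ 4 + 3036095519 / 3750000000000 * s ^ 5 +
      122274647 / 3750000000000 * s ^ 6 + 1058529 / 1250000000000 * s ^ 7 +
      12167 / 937500000000 * s ^ 8 =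
      (1 + (23 / 5000 * (u ^ 2 - 1)) +
      (23 / 5000 * (u ^ 2 - 1)) ^ 2 / 2 +
      (23 / 5000 * (u ^ 2 - 1)) ^ 3 / 6) *
      (1 + u + 4 / 5 * u ^ 2) -
      194774 / 100000 * (1 + (u - 2 / 3) / 3) ^ 3 := by
    rw [hs]
    ring
  rw [e] at h
  linarith

/-- `K = 3`: `(c, μ) = (4 / 5, 23 / 5000)`, gain at most `2 / 3` -/
theorem expO_three_d : ExpO 3 (4 / 5) (23 / 5000) (2 / 3) := by
  have hE : Real.exp (2 / 3) ≤ 194774 / 100000 := exp_two_thirds
  refine ExpO.of (by norm_num) (by norm_num) (by norm_num) (by norm_num)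
    (exp_le_quad_of_le (by norm_num) (by norm_num) (by norm_num)) ?_ ?_
  · intro u h1 h2
    have h3 := odf_three_d_h2 u h1 h2
    have h4 : 0 ≤ (1 + (u - 2 / 3) / 3) ^ 3 := by
      have : 0 ≤ (u - 2 / 3) / 3 := div_nonneg (by linarith) (by norm_num)
      positivity
    push_cast
    exact (mul_le_mul_of_nonneg_right hE h4).trans h3
  · intro u h1
    have h4 : 0 ≤ (1 + (u - 2 / 3) / 3) ^ 3 := by
      have : 0 ≤ (u - 2 / 3) / 3 := div_nonneg (by linarith) (by norm_num)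
      positivity
    have hx : 0 ≤ 23 / 5000 * (u ^ 2 - 1) := mul_nonneg (by norm_num) (by nlinarith)
    have hq : 0 ≤ 1 + u + 4 / 5 * u ^ 2 := by positivity
    have h5 := mul_le_mul_of_nonneg_right (taylor3_le_exp _ hx) hq
    push_cast
    refine ((mul_le_mul_of_nonneg_right hE h4).trans ?_).trans h5
    rcases le_total u (9 / 2) with h2 | h2
    · exact odf_three_d_0 u (by linarith) h2
    rcases le_total u (8) with h2 | h2
    · exact odf_three_d_1 u (by linarith) h2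
    exact odf_three_d_t u (by linarith)

theorem odf_three_e_h2 (u : ℝ) (h1 : 0 ≤ u) (h2 : u ≤ 1) :
    1 * (1 + (u - 0) / 3) ^ 3 ≤ 1 + u + 1 / 2 * u ^ 2 := by
  obtain ⟨s, hs⟩ : ∃ s, s = u - 0 := ⟨_, rfl⟩
  obtain ⟨t, ht⟩ : ∃ t, t = 1 - u := ⟨_, rfl⟩
  have hs0 : 0 ≤ s := by linarith
  have ht0 : 0 ≤ t := by linarith
  have h : 0 ≤
      1 / 6 * s ^ 2 * t + 7 / 54 * s ^ 3 := by
    positivity
  have e :
      1 / 6 * s ^ 2 * t + 7 / 54 * s ^ 3 =
      1 + u + 1 / 2 * u ^ 2 - 1 * (1 + (u - 0) / 3) ^ 3 := by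
    rw [hs, ht]
    ring
  rw [e] at h
  linarith

theorem odf_three_e_0 (u : ℝ) (h1 : 1 ≤ u) (h2 : u ≤ 11 / 2) :
    1 * (1 + (u - 0) / 3) ^ 3 ≤
      (1 + (3 / 1000 * (u ^ 2 - 1)) +
      (3 / 1000 * (u ^ 2 - 1)) ^ 2 / 2 +
      (3 / 1000 * (u ^ 2 - 1)) ^ 3 / 6) *
      (1 + u + 1 / 2 * u ^ 2) := by
  obtain ⟨s, hs⟩ : ∃ s, s = u - 1 := ⟨_, rfl⟩
  obtain ⟨t, ht⟩ : ∃ t, t = 11 / 2 - u := ⟨_, rfl⟩
  have hs0 : 0 ≤ s := by linarith
  have ht0 : 0 ≤ t := by linarith
  have h : 0 ≤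
      896 / 1162261467 * t ^ 8 + 363664 / 29056536675 * s * t ^ 7 +
      272654983 / 3632067084375 * s ^ 2 * t ^ 6 +
      783086207447 / 3632067084375000 * s ^ 3 * t ^ 5 +
      24688447532879 / 72641341687500000 * s ^ 4 * t ^ 4 +
      18022755999893 / 58113073350000000 * s ^ 5 * t ^ 3 +
      188930537177279 / 1162261467000000000 * s ^ 6 * t ^ 2 +
      52463883217369 / 1162261467000000000 * s ^ 7 * t +
      23857889692907 / 4649045868000000000 * s ^ 8 := by
    positivity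
  have e :
      896 / 1162261467 * t ^ 8 + 363664 / 29056536675 * s * t ^ 7 +
      272654983 / 3632067084375 * s ^ 2 * t ^ 6 +
      783086207447 / 3632067084375000 * s ^ 3 * t ^ 5 +
      24688447532879 / 72641341687500000 * s ^ 4 * t ^ 4 +
      18022755999893 / 58113073350000000 * s ^ 5 * t ^ 3 +
      188930537177279 / 1162261467000000000 * s ^ 6 * t ^ 2 +
      52463883217369 / 1162261467000000000 * s ^ 7 * t +
      23857889692907 / 4649045868000000000 * s ^ 8 =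
      (1 + (3 / 1000 * (u ^ 2 - 1)) +
      (3 / 1000 * (u ^ 2 - 1)) ^ 2 / 2 +
      (3 / 1000 * (u ^ 2 - 1)) ^ 3 / 6) *
      (1 + u + 1 / 2 * u ^ 2) -
      1 * (1 + (u - 0) / 3) ^ 3 := by
    rw [hs, ht]
    ring
  rw [e] at h
  linarith

theorem odf_three_e_1 (u : ℝ) (h1 : 11 / 2 ≤ u) (h2 : u ≤ 10) :
    1 * (1 + (u - 0) / 3) ^ 3 ≤
      (1 + (3 / 1000 * (u ^ 2 - 1)) +
      (3 / 1000 * (u ^ 2 - 1)) ^ 2 / 2 +
      (3 / 1000 * (u ^ 2 - 1)) ^ 3 / 6) *
      (1 + u + 1 / 2 * u ^ 2) := by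
  obtain ⟨s, hs⟩ : ∃ s, s = u - 11 / 2 := ⟨_, rfl⟩
  obtain ⟨t, ht⟩ : ∃ t, t = 10 - u := ⟨_, rfl⟩
  have hs0 : 0 ≤ s := by linarith
  have ht0 : 0 ≤ t := by linarith
  have h : 0 ≤
      23857889692907 / 4649045868000000000 * t ^ 8 +
      42967675554259 / 1162261467000000000 * s * t ^ 7 +
      122457083535509 / 1162261467000000000 * s ^ 2 * t ^ 6 +
      42957195369019 / 290565366750000000 * s ^ 3 * t ^ 5 +
      29154501083711 / 290565366750000000 * s ^ 4 * t ^ 4 +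
      1798426685713 / 72641341687500000 * s ^ 5 * t ^ 3 +
      225769497239 / 72641341687500000 * s ^ 6 * t ^ 2 +
      155305260769 / 18160335421875000 * s ^ 7 * t + 37980965077 / 9080167710937500 * s ^ 8 := by
    positivity
  have e :
      23857889692907 / 4649045868000000000 * t ^ 8 +
      42967675554259 / 1162261467000000000 * s * t ^ 7 +
      122457083535509 / 1162261467000000000 * s ^ 2 * t ^ 6 +
      42957195369019 / 290565366750000000 * s ^ 3 * t ^ 5 +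
      29154501083711 / 290565366750000000 * s ^ 4 * t ^ 4 +
      1798426685713 / 72641341687500000 * s ^ 5 * t ^ 3 +
      225769497239 / 72641341687500000 * s ^ 6 * t ^ 2 +
      155305260769 / 18160335421875000 * s ^ 7 * t + 37980965077 / 9080167710937500 * s ^ 8 =
      (1 + (3 / 1000 * (u ^ 2 - 1)) +
      (3 / 1000 * (u ^ 2 - 1)) ^ 2 / 2 +
      (3 / 1000 * (u ^ 2 - 1)) ^ 3 / 6) *
      (1 + u + 1 / 2 * u ^ 2) -
      1 * (1 + (u - 0) / 3) ^ 3 := by
    rw [hs, ht]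
    ring
  rw [e] at h
  linarith

theorem odf_three_e_t (u : ℝ) (h1 : 10 ≤ u) :
    1 * (1 + (u - 0) / 3) ^ 3 ≤
      (1 + (3 / 1000 * (u ^ 2 - 1)) +
      (3 / 1000 * (u ^ 2 - 1)) ^ 2 / 2 +
      (3 / 1000 * (u ^ 2 - 1)) ^ 3 / 6) *
      (1 + u + 1 / 2 * u ^ 2) := by
  obtain ⟨s, hs⟩ : ∃ s, s = u - 10 := ⟨_, rfl⟩
  have hs0 : 0 ≤ s := by linarith
  have h : 0 ≤
      37980965077 / 54000000000 + 16755191869 / 18000000000 * s +
      3609019237 / 7200000000 * s ^ 2 + 4836791149 / 54000000000 * s ^ 3 +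
      27313773 / 4000000000 * s ^ 4 + 549603 / 2000000000 * s ^ 5 +
      35451 / 4000000000 * s ^ 6 + 369 / 2000000000 * s ^ 7 + 9 / 4000000000 * s ^ 8 := by
    positivity
  have e :
      37980965077 / 54000000000 + 16755191869 / 18000000000 * s +
      3609019237 / 7200000000 * s ^ 2 + 4836791149 / 54000000000 * s ^ 3 +
      27313773 / 4000000000 * s ^ 4 + 549603 / 2000000000 * s ^ 5 +
      35451 / 4000000000 * s ^ 6 + 369 / 2000000000 * s ^ 7 + 9 / 4000000000 * s ^ 8 =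
      (1 + (3 / 1000 * (u ^ 2 - 1)) +
      (3 / 1000 * (u ^ 2 - 1)) ^ 2 / 2 +
      (3 / 1000 * (u ^ 2 - 1)) ^ 3 / 6) *
      (1 + u + 1 / 2 * u ^ 2) -
      1 * (1 + (u - 0) / 3) ^ 3 := by
    rw [hs]
    ring
  rw [e] at h
  linarith

/-- `K = 3`: `(c, μ) = (1 / 2, 3 / 1000)`, gain at most `0` -/
theorem expO_three_e : ExpO 3 (1 / 2) (3 / 1000) (0) := by
  have hE : Real.exp (0) ≤ 1 := Real.exp_zero.le
  refine ExpO.of (by norm_num) (by norm_num) (by norm_num) (by norm_num)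
    (exp_le_quad_of_le (by norm_num) (by norm_num) (by norm_num)) ?_ ?_
  · intro u h1 h2
    have h3 := odf_three_e_h2 u h1 h2
    have h4 : 0 ≤ (1 + (u - 0) / 3) ^ 3 := by
      have : 0 ≤ (u - 0) / 3 := div_nonneg (by linarith) (by norm_num)
      positivity
    push_cast
    exact (mul_le_mul_of_nonneg_right hE h4).trans h3
  · intro u h1
    have h4 : 0 ≤ (1 + (u - 0) / 3) ^ 3 := by
      have : 0 ≤ (u - 0) / 3 := div_nonneg (by linarith) (by norm_num)
      positivity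
    have hx : 0 ≤ 3 / 1000 * (u ^ 2 - 1) := mul_nonneg (by norm_num) (by nlinarith)
    have hq : 0 ≤ 1 + u + 1 / 2 * u ^ 2 := by positivity
    have h5 := mul_le_mul_of_nonneg_right (taylor3_le_exp _ hx) hq
    push_cast
    refine ((mul_le_mul_of_nonneg_right hE h4).trans ?_).trans h5
    rcases le_total u (11 / 2) with h2 | h2
    · exact odf_three_e_0 u (by linarith) h2
    rcases le_total u (10) with h2 | h2
    · exact odf_three_e_1 u (by linarith) h2
    exact odf_three_e_t u (by linarith)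

theorem odf_five_a_h2 (u : ℝ) (h1 : 1 / 3 ≤ u) (h2 : u ≤ 1) :
    139562 / 100000 * (1 + (u - 1 / 3) / 5) ^ 5 ≤ 1 + u + 13 / 20 * u ^ 2 := by
  obtain ⟨s, hs⟩ : ∃ s, s = u - 1 / 3 := ⟨_, rfl⟩
  obtain ⟨t, ht⟩ : ∃ t, t = 1 - u := ⟨_, rfl⟩
  have hs0 : 0 ≤ s := by linarith
  have ht0 : 0 ≤ t := by linarith
  have h : 0 ≤
      120717 / 1600000 * t ^ 5 + 909063 / 1600000 * s * t ^ 4 +
      7311357 / 4000000 * s ^ 2 * t ^ 3 + 51556023 / 20000000 * s ^ 3 * t ^ 2 +
      310150797 / 200000000 * s ^ 4 * t + 1538146183 / 5000000000 * s ^ 5 := by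
    positivity
  have e :
      120717 / 1600000 * t ^ 5 + 909063 / 1600000 * s * t ^ 4 +
      7311357 / 4000000 * s ^ 2 * t ^ 3 + 51556023 / 20000000 * s ^ 3 * t ^ 2 +
      310150797 / 200000000 * s ^ 4 * t + 1538146183 / 5000000000 * s ^ 5 =
      1 + u + 13 / 20 * u ^ 2 - 139562 / 100000 * (1 + (u - 1 / 3) / 5) ^ 5 := by
    rw [hs, ht]
    ring
  rw [e] at h
  linarith

theorem odf_five_a_0 (u : ℝ) (h1 : 1 ≤ u) (h2 : u ≤ 5 / 2) :
    139562 / 100000 * (1 + (u - 1 / 3) / 5) ^ 5 ≤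
      (1 + (59 / 2500 * (u ^ 2 - 1)) +
      (59 / 2500 * (u ^ 2 - 1)) ^ 2 / 2 +
      (59 / 2500 * (u ^ 2 - 1)) ^ 3 / 6) *
      (1 + u + 13 / 20 * u ^ 2) := by
  obtain ⟨s, hs⟩ : ∃ s, s = u - 1 := ⟨_, rfl⟩
  obtain ⟨t, ht⟩ : ∃ t, t = 5 / 2 - u := ⟨_, rfl⟩
  have hs0 : 0 ≤ s := by linarith
  have ht0 : 0 ≤ t := by linarith
  have h : 0 ≤
      24610338928 / 15569560546875 * t ^ 8 + 308592457064 / 15569560546875 * s * t ^ 7 +
      1486651302154 / 15569560546875 * s ^ 2 * t ^ 6 +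
      927302394091019 / 3892390136718750 * s ^ 3 * t ^ 5 +
      668158314099203 / 1946195068359375 * s ^ 4 * t ^ 4 +
      18416664764286803 / 62278242187500000 * s ^ 5 * t ^ 3 +
      37219168262200327 / 249112968750000000 * s ^ 6 * t ^ 2 +
      252679974049877 / 6227824218750000 * s ^ 7 * t +
      908341245559919 / 199290375000000000 * s ^ 8 := by
    positivity
  have e :
      24610338928 / 15569560546875 * t ^ 8 + 308592457064 / 15569560546875 * s * t ^ 7 +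
      1486651302154 / 15569560546875 * s ^ 2 * t ^ 6 +
      927302394091019 / 3892390136718750 * s ^ 3 * t ^ 5 +
      668158314099203 / 1946195068359375 * s ^ 4 * t ^ 4 +
      18416664764286803 / 62278242187500000 * s ^ 5 * t ^ 3 +
      37219168262200327 / 249112968750000000 * s ^ 6 * t ^ 2 +
      252679974049877 / 6227824218750000 * s ^ 7 * t +
      908341245559919 / 199290375000000000 * s ^ 8 =
      (1 + (59 / 2500 * (u ^ 2 - 1)) +
      (59 / 2500 * (u ^ 2 - 1)) ^ 2 / 2 +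
      (59 / 2500 * (u ^ 2 - 1)) ^ 3 / 6) *
      (1 + u + 13 / 20 * u ^ 2) -
      139562 / 100000 * (1 + (u - 1 / 3) / 5) ^ 5 := by
    rw [hs, ht]
    ring
  rw [e] at h
  linarith

theorem odf_five_a_1 (u : ℝ) (h1 : 5 / 2 ≤ u) (h2 : u ≤ 4) :
    139562 / 100000 * (1 + (u - 1 / 3) / 5) ^ 5 ≤
      (1 + (59 / 2500 * (u ^ 2 - 1)) +
      (59 / 2500 * (u ^ 2 - 1)) ^ 2 / 2 +
      (59 / 2500 * (u ^ 2 - 1)) ^ 3 / 6) *
      (1 + u + 13 / 20 * u ^ 2) := by
  obtain ⟨s, hs⟩ : ∃ s, s = u - 5 / 2 := ⟨_, rfl⟩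
  obtain ⟨t, ht⟩ : ∃ t, t = 4 - u := ⟨_, rfl⟩
  have hs0 : 0 ≤ s := by linarith
  have ht0 : 0 ≤ t := by linarith
  have h : 0 ≤
      908341245559919 / 199290375000000000 * t ^ 8 +
      80596259492033 / 2491129687500000 * s * t ^ 7 +
      22886157172657867 / 249112968750000000 * s ^ 2 * t ^ 6 +
      4078718099403079 / 31139121093750000 * s ^ 3 * t ^ 5 +
      5917450947627421 / 62278242187500000 * s ^ 4 * t ^ 4 +
      61721026710127 / 1946195068359375 * s ^ 5 * t ^ 3 +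
      27487354576133 / 3113912109375000 * s ^ 6 * t ^ 2 +
      692394070891 / 77847802734375 * s ^ 7 * t + 57206376946 / 15569560546875 * s ^ 8 := by
    positivity
  have e :
      908341245559919 / 199290375000000000 * t ^ 8 +
      80596259492033 / 2491129687500000 * s * t ^ 7 +
      22886157172657867 / 249112968750000000 * s ^ 2 * t ^ 6 +
      4078718099403079 / 31139121093750000 * s ^ 3 * t ^ 5 +
      5917450947627421 / 62278242187500000 * s ^ 4 * t ^ 4 +
      61721026710127 / 1946195068359375 * s ^ 5 * t ^ 3 +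
      27487354576133 / 3113912109375000 * s ^ 6 * t ^ 2 +
      692394070891 / 77847802734375 * s ^ 7 * t + 57206376946 / 15569560546875 * s ^ 8 =
      (1 + (59 / 2500 * (u ^ 2 - 1)) +
      (59 / 2500 * (u ^ 2 - 1)) ^ 2 / 2 +
      (59 / 2500 * (u ^ 2 - 1)) ^ 3 / 6) *
      (1 + u + 13 / 20 * u ^ 2) -
      139562 / 100000 * (1 + (u - 1 / 3) / 5) ^ 5 := by
    rw [hs, ht]
    ring
  rw [e] at h
  linarith

theorem odf_five_a_t (u : ℝ) (h1 : 4 ≤ u) :
    139562 / 100000 * (1 + (u - 1 / 3) / 5) ^ 5 ≤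
      (1 + (59 / 2500 * (u ^ 2 - 1)) +
      (59 / 2500 * (u ^ 2 - 1)) ^ 2 / 2 +
      (59 / 2500 * (u ^ 2 - 1)) ^ 3 / 6) *
      (1 + u + 13 / 20 * u ^ 2) := by
  obtain ⟨s, hs⟩ : ∃ s, s = u - 4 := ⟨_, rfl⟩
  have hs0 : 0 ≤ s := by linarith
  have h : 0 ≤
      28603188473 / 303750000000 + 177317889661 / 506250000000 * s +
      1900897847213 / 3375000000000 * s ^ 2 + 429598377803 / 1406250000000 * s ^ 3 +
      46692303347 / 625000000000 * s ^ 4 + 4668376921 / 468750000000 * s ^ 5 +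
      329326967 / 375000000000 * s ^ 6 + 22386311 / 468750000000 * s ^ 7 +
      2669927 / 1875000000000 * s ^ 8 := by
    positivity
  have e :
      28603188473 / 303750000000 + 177317889661 / 506250000000 * s +
      1900897847213 / 3375000000000 * s ^ 2 + 429598377803 / 1406250000000 * s ^ 3 +
      46692303347 / 625000000000 * s ^ 4 + 4668376921 / 468750000000 * s ^ 5 +
      329326967 / 375000000000 * s ^ 6 + 22386311 / 468750000000 * s ^ 7 +
      2669927 / 1875000000000 * s ^ 8 =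
      (1 + (59 / 2500 * (u ^ 2 - 1)) +
      (59 / 2500 * (u ^ 2 - 1)) ^ 2 / 2 +
      (59 / 2500 * (u ^ 2 - 1)) ^ 3 / 6) *
      (1 + u + 13 / 20 * u ^ 2) -
      139562 / 100000 * (1 + (u - 1 / 3) / 5) ^ 5 := by
    rw [hs]
    ring
  rw [e] at h
  linarith

/-- `K = 5`: `(c, μ) = (13 / 20, 59 / 2500)`, gain at most `1 / 3` -/
theorem expO_five_a : ExpO 5 (13 / 20) (59 / 2500) (1 / 3) := by
  have hE : Real.exp (1 / 3) ≤ 139562 / 100000 := exp_third
  refine ExpO.of (by norm_num) (by norm_num) (by norm_num) (by norm_num)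
    (exp_le_quad_of_le (by norm_num) (by norm_num) (by norm_num)) ?_ ?_
  · intro u h1 h2
    have h3 := odf_five_a_h2 u h1 h2
    have h4 : 0 ≤ (1 + (u - 1 / 3) / 5) ^ 5 := by
      have : 0 ≤ (u - 1 / 3) / 5 := div_nonneg (by linarith) (by norm_num)
      positivity
    push_cast
    exact (mul_le_mul_of_nonneg_right hE h4).trans h3
  · intro u h1
    have h4 : 0 ≤ (1 + (u - 1 / 3) / 5) ^ 5 := by
      have : 0 ≤ (u - 1 / 3) / 5 := div_nonneg (by linarith) (by norm_num)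
      positivity
    have hx : 0 ≤ 59 / 2500 * (u ^ 2 - 1) := mul_nonneg (by norm_num) (by nlinarith)
    have hq : 0 ≤ 1 + u + 13 / 20 * u ^ 2 := by positivity
    have h5 := mul_le_mul_of_nonneg_right (taylor3_le_exp _ hx) hq
    push_cast
    refine ((mul_le_mul_of_nonneg_right hE h4).trans ?_).trans h5
    rcases le_total u (5 / 2) with h2 | h2
    · exact odf_five_a_0 u (by linarith) h2
    rcases le_total u (4) with h2 | h2
    · exact odf_five_a_1 u (by linarith) h2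
    exact odf_five_a_t u (by linarith)

theorem odf_five_b_h2 (u : ℝ) (h1 : 1 / 3 ≤ u) (h2 : u ≤ 1) :
    139562 / 100000 * (1 + (u - 1 / 3) / 5) ^ 5 ≤ 1 + u + 18 / 25 * u ^ 2 := by
  obtain ⟨s, hs⟩ : ∃ s, s = u - 1 / 3 := ⟨_, rfl⟩
  obtain ⟨t, ht⟩ : ∃ t, t = 1 - u := ⟨_, rfl⟩
  have hs0 : 0 ≤ s := by linarith
  have ht0 : 0 ≤ t := by linarith
  have h : 0 ≤
      215217 / 1600000 * t ^ 5 + 1759563 / 1600000 * s * t ^ 4 +
      14398857 / 4000000 * s ^ 2 * t ^ 3 + 105893523 / 20000000 * s ^ 3 * t ^ 2 +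
      699963297 / 200000000 * s ^ 4 * t + 4195958683 / 5000000000 * s ^ 5 := by
    positivity
  have e :
      215217 / 1600000 * t ^ 5 + 1759563 / 1600000 * s * t ^ 4 +
      14398857 / 4000000 * s ^ 2 * t ^ 3 + 105893523 / 20000000 * s ^ 3 * t ^ 2 +
      699963297 / 200000000 * s ^ 4 * t + 4195958683 / 5000000000 * s ^ 5 =
      1 + u + 18 / 25 * u ^ 2 - 139562 / 100000 * (1 + (u - 1 / 3) / 5) ^ 5 := by
    rw [hs, ht]
    ring
  rw [e] at h
  linarith

theorem odf_five_b_0 (u : ℝ) (h1 : 1 ≤ u) (h2 : u ≤ 3) :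
    139562 / 100000 * (1 + (u - 1 / 3) / 5) ^ 5 ≤
      (1 + (191 / 10000 * (u ^ 2 - 1)) +
      (191 / 10000 * (u ^ 2 - 1)) ^ 2 / 2 +
      (191 / 10000 * (u ^ 2 - 1)) ^ 3 / 6) *
      (1 + u + 18 / 25 * u ^ 2) := by
  obtain ⟨s, hs⟩ : ∃ s, s = u - 1 := ⟨_, rfl⟩
  obtain ⟨t, ht⟩ : ∃ t, t = 3 - u := ⟨_, rfl⟩
  have hs0 : 0 ≤ s := by linarith
  have ht0 : 0 ≤ t := by linarith
  have h : 0 ≤
      4195958683 / 9720000000000 * t ^ 8 + 25950006217 / 4860000000000 * s * t ^ 7 +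
      7940330183 / 303750000000 * s ^ 2 * t ^ 6 +
      812147849429617 / 12150000000000000 * s ^ 3 * t ^ 5 +
      2406055896386983 / 24300000000000000 * s ^ 4 * t ^ 4 +
      2133750219971963 / 24300000000000000 * s ^ 5 * t ^ 3 +
      555745432117703 / 12150000000000000 * s ^ 6 * t ^ 2 +
      77899746724451 / 6075000000000000 * s ^ 7 * t + 9038045788987 / 6075000000000000 * s ^ 8 := by
    positivity
  have e :
      4195958683 / 9720000000000 * t ^ 8 + 25950006217 / 4860000000000 * s * t ^ 7 +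
      7940330183 / 303750000000 * s ^ 2 * t ^ 6 +
      812147849429617 / 12150000000000000 * s ^ 3 * t ^ 5 +
      2406055896386983 / 24300000000000000 * s ^ 4 * t ^ 4 +
      2133750219971963 / 24300000000000000 * s ^ 5 * t ^ 3 +
      555745432117703 / 12150000000000000 * s ^ 6 * t ^ 2 +
      77899746724451 / 6075000000000000 * s ^ 7 * t + 9038045788987 / 6075000000000000 * s ^ 8 =
      (1 + (191 / 10000 * (u ^ 2 - 1)) +
      (191 / 10000 * (u ^ 2 - 1)) ^ 2 / 2 +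
      (191 / 10000 * (u ^ 2 - 1)) ^ 3 / 6) *
      (1 + u + 18 / 25 * u ^ 2) -
      139562 / 100000 * (1 + (u - 1 / 3) / 5) ^ 5 := by
    rw [hs, ht]
    ring
  rw [e] at h
  linarith

theorem odf_five_b_1 (u : ℝ) (h1 : 3 ≤ u) (h2 : u ≤ 5) :
    139562 / 100000 * (1 + (u - 1 / 3) / 5) ^ 5 ≤
      (1 + (191 / 10000 * (u ^ 2 - 1)) +
      (191 / 10000 * (u ^ 2 - 1)) ^ 2 / 2 +
      (191 / 10000 * (u ^ 2 - 1)) ^ 3 / 6) *
      (1 + u + 18 / 25 * u ^ 2) := by
  obtain ⟨s, hs⟩ : ∃ s, s = u - 3 := ⟨_, rfl⟩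
  obtain ⟨t, ht⟩ : ∃ t, t = 5 - u := ⟨_, rfl⟩
  have hs0 : 0 ≤ s := by linarith
  have ht0 : 0 ≤ t := by linarith
  have h : 0 ≤
      9038045788987 / 6075000000000000 * t ^ 8 +
      66708985899341 / 6075000000000000 * s * t ^ 7 +
      399074780566163 / 12150000000000000 * s ^ 2 * t ^ 6 +
      1226003305302077 / 24300000000000000 * s ^ 3 * t ^ 5 +
      1000734354068353 / 24300000000000000 * s ^ 4 * t ^ 4 +
      200980251855823 / 12150000000000000 * s ^ 5 * t ^ 3 +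
      20694143411779 / 6075000000000000 * s ^ 6 * t ^ 2 +
      538921030789 / 303750000000000 * s ^ 7 * t + 201210813823 / 243000000000000 * s ^ 8 := by
    positivity
  have e :
      9038045788987 / 6075000000000000 * t ^ 8 +
      66708985899341 / 6075000000000000 * s * t ^ 7 +
      399074780566163 / 12150000000000000 * s ^ 2 * t ^ 6 +
      1226003305302077 / 24300000000000000 * s ^ 3 * t ^ 5 +
      1000734354068353 / 24300000000000000 * s ^ 4 * t ^ 4 +
      200980251855823 / 12150000000000000 * s ^ 5 * t ^ 3 +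
      20694143411779 / 6075000000000000 * s ^ 6 * t ^ 2 +
      538921030789 / 303750000000000 * s ^ 7 * t + 201210813823 / 243000000000000 * s ^ 8 =
      (1 + (191 / 10000 * (u ^ 2 - 1)) +
      (191 / 10000 * (u ^ 2 - 1)) ^ 2 / 2 +
      (191 / 10000 * (u ^ 2 - 1)) ^ 3 / 6) *
      (1 + u + 18 / 25 * u ^ 2) -
      139562 / 100000 * (1 + (u - 1 / 3) / 5) ^ 5 := by
    rw [hs, ht]
    ring
  rw [e] at h
  linarith

theorem odf_five_b_t (u : ℝ) (h1 : 5 ≤ u) :
    139562 / 100000 * (1 + (u - 1 / 3) / 5) ^ 5 ≤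
      (1 + (191 / 10000 * (u ^ 2 - 1)) +
      (191 / 10000 * (u ^ 2 - 1)) ^ 2 / 2 +
      (191 / 10000 * (u ^ 2 - 1)) ^ 3 / 6) *
      (1 + u + 18 / 25 * u ^ 2) := by
  obtain ⟨s, hs⟩ : ∃ s, s = u - 5 := ⟨_, rfl⟩
  have hs0 : 0 ≤ s := by linarith
  have h : 0 ≤
      201210813823 / 949218750000 + 491062369147 / 791015625000 * s +
      9565863197491 / 10546875000000 * s ^ 2 + 1170711717979 / 2812500000000 * s ^ 3 +
      543527780941 / 6250000000000 * s ^ 4 + 25236393413 / 2500000000000 * s ^ 5 +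
      18898288911 / 25000000000000 * s ^ 6 + 1038212779 / 30000000000000 * s ^ 7 +
      20903613 / 25000000000000 * s ^ 8 := by
    positivity
  have e :
      201210813823 / 949218750000 + 491062369147 / 791015625000 * s +
      9565863197491 / 10546875000000 * s ^ 2 + 1170711717979 / 2812500000000 * s ^ 3 +
      543527780941 / 6250000000000 * s ^ 4 + 25236393413 / 2500000000000 * s ^ 5 +
      18898288911 / 25000000000000 * s ^ 6 + 1038212779 / 30000000000000 * s ^ 7 +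
      20903613 / 25000000000000 * s ^ 8 =
      (1 + (191 / 10000 * (u ^ 2 - 1)) +
      (191 / 10000 * (u ^ 2 - 1)) ^ 2 / 2 +
      (191 / 10000 * (u ^ 2 - 1)) ^ 3 / 6) *
      (1 + u + 18 / 25 * u ^ 2) -
      139562 / 100000 * (1 + (u - 1 / 3) / 5) ^ 5 := by
    rw [hs]
    ring
  rw [e] at h
  linarith

/-- `K = 5`: `(c, μ) = (18 / 25, 191 / 10000)`, gain at most `1 / 3` -/
theorem expO_five_b : ExpO 5 (18 / 25) (191 / 10000) (1 / 3) := by
  have hE : Real.exp (1 / 3) ≤ 139562 / 100000 := exp_third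
  refine ExpO.of (by norm_num) (by norm_num) (by norm_num) (by norm_num)
    (exp_le_quad_of_le (by norm_num) (by norm_num) (by norm_num)) ?_ ?_
  · intro u h1 h2
    have h3 := odf_five_b_h2 u h1 h2
    have h4 : 0 ≤ (1 + (u - 1 / 3) / 5) ^ 5 := by
      have : 0 ≤ (u - 1 / 3) / 5 := div_nonneg (by linarith) (by norm_num)
      positivity
    push_cast
    exact (mul_le_mul_of_nonneg_right hE h4).trans h3
  · intro u h1
    have h4 : 0 ≤ (1 + (u - 1 / 3) / 5) ^ 5 := by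
      have : 0 ≤ (u - 1 / 3) / 5 := div_nonneg (by linarith) (by norm_num)
      positivity
    have hx : 0 ≤ 191 / 10000 * (u ^ 2 - 1) := mul_nonneg (by norm_num) (by nlinarith)
    have hq : 0 ≤ 1 + u + 18 / 25 * u ^ 2 := by positivity
    have h5 := mul_le_mul_of_nonneg_right (taylor3_le_exp _ hx) hq
    push_cast
    refine ((mul_le_mul_of_nonneg_right hE h4).trans ?_).trans h5
    rcases le_total u (3) with h2 | h2
    · exact odf_five_b_0 u (by linarith) h2
    rcases le_total u (5) with h2 | h2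
    · exact odf_five_b_1 u (by linarith) h2
    exact odf_five_b_t u (by linarith)

theorem odf_five_c_h2 (u : ℝ) (h1 : 2 / 3 ≤ u) (h2 : u ≤ 1) :
    194774 / 100000 * (1 + (u - 2 / 3) / 5) ^ 5 ≤ 1 + u + 18 / 25 * u ^ 2 := by
  obtain ⟨s, hs⟩ : ∃ s, s = u - 2 / 3 := ⟨_, rfl⟩
  obtain ⟨t, ht⟩ : ∃ t, t = 1 - u := ⟨_, rfl⟩
  have hs0 : 0 ≤ s := by linarith
  have ht0 : 0 ≤ t := by linarith
  have h : 0 ≤
      472959 / 50000 * t ^ 5 + 150903 / 3125 * s * t ^ 4 + 1515132 / 15625 * s ^ 2 * t ^ 3 +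
      7371954 / 78125 * s ^ 3 * t ^ 2 + 17042919 / 390625 * s ^ 4 * t +
      72333068 / 9765625 * s ^ 5 := by
    positivity
  have e :
      472959 / 50000 * t ^ 5 + 150903 / 3125 * s * t ^ 4 + 1515132 / 15625 * s ^ 2 * t ^ 3 +
      7371954 / 78125 * s ^ 3 * t ^ 2 + 17042919 / 390625 * s ^ 4 * t +
      72333068 / 9765625 * s ^ 5 =
      1 + u + 18 / 25 * u ^ 2 - 194774 / 100000 * (1 + (u - 2 / 3) / 5) ^ 5 := by
    rw [hs, ht]
    ring
  rw [e] at h
  linarith

theorem odf_five_c_0 (u : ℝ) (h1 : 1 ≤ u) (h2 : u ≤ 3) :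
    194774 / 100000 * (1 + (u - 2 / 3) / 5) ^ 5 ≤
      (1 + (73 / 2500 * (u ^ 2 - 1)) +
      (73 / 2500 * (u ^ 2 - 1)) ^ 2 / 2 +
      (73 / 2500 * (u ^ 2 - 1)) ^ 3 / 6) *
      (1 + u + 18 / 25 * u ^ 2) := by
  obtain ⟨s, hs⟩ : ∃ s, s = u - 1 := ⟨_, rfl⟩
  obtain ⟨t, ht⟩ : ∃ t, t = 3 - u := ⟨_, rfl⟩
  have hs0 : 0 ≤ s := by linarith
  have ht0 : 0 ≤ t := by linarith
  have h : 0 ≤
      18083267 / 151875000000 * t ^ 8 + 473063117 / 303750000000 * s * t ^ 7 +
      2303640631 / 303750000000 * s ^ 2 * t ^ 6 +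
      6737256139693 / 379687500000000 * s ^ 3 * t ^ 5 +
      1036247545927 / 47460937500000 * s ^ 4 * t ^ 4 +
      2650848929063 / 189843750000000 * s ^ 5 * t ^ 3 +
      1535966246837 / 379687500000000 * s ^ 6 * t ^ 2 +
      72736371479 / 189843750000000 * s ^ 7 * t + 818263753 / 11865234375000 * s ^ 8 := by
    positivity
  have e :
      18083267 / 151875000000 * t ^ 8 + 473063117 / 303750000000 * s * t ^ 7 +
      2303640631 / 303750000000 * s ^ 2 * t ^ 6 +
      6737256139693 / 379687500000000 * s ^ 3 * t ^ 5 +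
      1036247545927 / 47460937500000 * s ^ 4 * t ^ 4 +
      2650848929063 / 189843750000000 * s ^ 5 * t ^ 3 +
      1535966246837 / 379687500000000 * s ^ 6 * t ^ 2 +
      72736371479 / 189843750000000 * s ^ 7 * t + 818263753 / 11865234375000 * s ^ 8 =
      (1 + (73 / 2500 * (u ^ 2 - 1)) +
      (73 / 2500 * (u ^ 2 - 1)) ^ 2 / 2 +
      (73 / 2500 * (u ^ 2 - 1)) ^ 3 / 6) *
      (1 + u + 18 / 25 * u ^ 2) -
      194774 / 100000 * (1 + (u - 2 / 3) / 5) ^ 5 := by
    rw [hs, ht]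
    ring
  rw [e] at h
  linarith

theorem odf_five_c_t (u : ℝ) (h1 : 3 ≤ u) :
    194774 / 100000 * (1 + (u - 2 / 3) / 5) ^ 5 ≤
      (1 + (73 / 2500 * (u ^ 2 - 1)) +
      (73 / 2500 * (u ^ 2 - 1)) ^ 2 / 2 +
      (73 / 2500 * (u ^ 2 - 1)) ^ 3 / 6) *
      (1 + u + 18 / 25 * u ^ 2) := by
  obtain ⟨s, hs⟩ : ∃ s, s = u - 3 := ⟨_, rfl⟩
  have hs0 : 0 ≤ s := by linarith
  have h : 0 ≤
      26184440096 / 1483154296875 + 2133425927 / 98876953125 * s +
      138980152091 / 659179687500 * s ^ 2 + 43064827151 / 219726562500 * s ^ 3 +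
      19288266451 / 292968750000 * s ^ 4 + 2056766779 / 195312500000 * s ^ 5 +
      41827321 / 36621093750 * s ^ 6 + 177780769 / 2343750000000 * s ^ 7 +
      1167051 / 390625000000 * s ^ 8 := by
    positivity
  have e :
      26184440096 / 1483154296875 + 2133425927 / 98876953125 * s +
      138980152091 / 659179687500 * s ^ 2 + 43064827151 / 219726562500 * s ^ 3 +
      19288266451 / 292968750000 * s ^ 4 + 2056766779 / 195312500000 * s ^ 5 +
      41827321 / 36621093750 * s ^ 6 + 177780769 / 2343750000000 * s ^ 7 +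
      1167051 / 390625000000 * s ^ 8 =
      (1 + (73 / 2500 * (u ^ 2 - 1)) +
      (73 / 2500 * (u ^ 2 - 1)) ^ 2 / 2 +
      (73 / 2500 * (u ^ 2 - 1)) ^ 3 / 6) *
      (1 + u + 18 / 25 * u ^ 2) -
      194774 / 100000 * (1 + (u - 2 / 3) / 5) ^ 5 := by
    rw [hs]
    ring
  rw [e] at h
  linarith

/-- `K = 5`: `(c, μ) = (18 / 25, 73 / 2500)`, gain at most `2 / 3` -/
theorem expO_five_c : ExpO 5 (18 / 25) (73 / 2500) (2 / 3) := by
  have hE : Real.exp (2 / 3) ≤ 194774 / 100000 := exp_two_thirds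
  refine ExpO.of (by norm_num) (by norm_num) (by norm_num) (by norm_num)
    (exp_le_quad_of_le (by norm_num) (by norm_num) (by norm_num)) ?_ ?_
  · intro u h1 h2
    have h3 := odf_five_c_h2 u h1 h2
    have h4 : 0 ≤ (1 + (u - 2 / 3) / 5) ^ 5 := by
      have : 0 ≤ (u - 2 / 3) / 5 := div_nonneg (by linarith) (by norm_num)
      positivity
    push_cast
    exact (mul_le_mul_of_nonneg_right hE h4).trans h3
  · intro u h1
    have h4 : 0 ≤ (1 + (u - 2 / 3) / 5) ^ 5 := by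
      have : 0 ≤ (u - 2 / 3) / 5 := div_nonneg (by linarith) (by norm_num)
      positivity
    have hx : 0 ≤ 73 / 2500 * (u ^ 2 - 1) := mul_nonneg (by norm_num) (by nlinarith)
    have hq : 0 ≤ 1 + u + 18 / 25 * u ^ 2 := by positivity
    have h5 := mul_le_mul_of_nonneg_right (taylor3_le_exp _ hx) hq
    push_cast
    refine ((mul_le_mul_of_nonneg_right hE h4).trans ?_).trans h5
    rcases le_total u (3) with h2 | h2
    · exact odf_five_c_0 u (by linarith) h2
    exact odf_five_c_t u (by linarith)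

theorem odf_five_d_h2 (u : ℝ) (h1 : 2 / 3 ≤ u) (h2 : u ≤ 1) :
    194774 / 100000 * (1 + (u - 2 / 3) / 5) ^ 5 ≤ 1 + u + 4 / 5 * u ^ 2 := by
  obtain ⟨s, hs⟩ : ∃ s, s = u - 2 / 3 := ⟨_, rfl⟩
  obtain ⟨t, ht⟩ : ∃ t, t = 1 - u := ⟨_, rfl⟩
  have hs0 : 0 ≤ s := by linarith
  have ht0 : 0 ≤ t := by linarith
  have h : 0 ≤
      904959 / 50000 * t ^ 5 + 312903 / 3125 * s * t ^ 4 + 3438882 / 15625 * s ^ 2 * t ^ 3 +
      18678204 / 78125 * s ^ 3 * t ^ 2 + 49949169 / 390625 * s ^ 4 * t +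
      262176818 / 9765625 * s ^ 5 := by
    positivity
  have e :
      904959 / 50000 * t ^ 5 + 312903 / 3125 * s * t ^ 4 + 3438882 / 15625 * s ^ 2 * t ^ 3 +
      18678204 / 78125 * s ^ 3 * t ^ 2 + 49949169 / 390625 * s ^ 4 * t +
      262176818 / 9765625 * s ^ 5 =
      1 + u + 4 / 5 * u ^ 2 - 194774 / 100000 * (1 + (u - 2 / 3) / 5) ^ 5 := by
    rw [hs, ht]
    ring
  rw [e] at h
  linarith

theorem odf_five_d_0 (u : ℝ) (h1 : 1 ≤ u) (h2 : u ≤ 4) :
    194774 / 100000 * (1 + (u - 2 / 3) / 5) ^ 5 ≤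
      (1 + (23 / 1000 * (u ^ 2 - 1)) +
      (23 / 1000 * (u ^ 2 - 1)) ^ 2 / 2 +
      (23 / 1000 * (u ^ 2 - 1)) ^ 3 / 6) *
      (1 + u + 4 / 5 * u ^ 2) := by
  obtain ⟨s, hs⟩ : ∃ s, s = u - 1 := ⟨_, rfl⟩
  obtain ⟨t, ht⟩ : ∃ t, t = 4 - u := ⟨_, rfl⟩
  have hs0 : 0 ≤ s := by linarith
  have ht0 : 0 ≤ t := by linarith
  have h : 0 ≤
      262176818 / 15569560546875 * t ^ 8 + 7147507283 / 31139121093750 * s * t ^ 7 +
      296962057889 / 249112968750000 * s ^ 2 * t ^ 6 +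
      591270096341 / 199290375000000 * s ^ 3 * t ^ 5 +
      3871293637319 / 996451875000000 * s ^ 4 * t ^ 4 +
      5301507267191 / 1992903750000000 * s ^ 5 * t ^ 3 +
      666638862403 / 797161500000000 * s ^ 6 * t ^ 2 +
      53135952601 / 637729200000000 * s ^ 7 * t + 1439490781 / 127545840000000 * s ^ 8 := by
    positivity
  have e :
      262176818 / 15569560546875 * t ^ 8 + 7147507283 / 31139121093750 * s * t ^ 7 +
      296962057889 / 249112968750000 * s ^ 2 * t ^ 6 +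
      591270096341 / 199290375000000 * s ^ 3 * t ^ 5 +
      3871293637319 / 996451875000000 * s ^ 4 * t ^ 4 +
      5301507267191 / 1992903750000000 * s ^ 5 * t ^ 3 +
      666638862403 / 797161500000000 * s ^ 6 * t ^ 2 +
      53135952601 / 637729200000000 * s ^ 7 * t + 1439490781 / 127545840000000 * s ^ 8 =
      (1 + (23 / 1000 * (u ^ 2 - 1)) +
      (23 / 1000 * (u ^ 2 - 1)) ^ 2 / 2 +
      (23 / 1000 * (u ^ 2 - 1)) ^ 3 / 6) *
      (1 + u + 4 / 5 * u ^ 2) -
      194774 / 100000 * (1 + (u - 2 / 3) / 5) ^ 5 := by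
    rw [hs, ht]
    ring
  rw [e] at h
  linarith

theorem odf_five_d_t (u : ℝ) (h1 : 4 ≤ u) :
    194774 / 100000 * (1 + (u - 2 / 3) / 5) ^ 5 ≤
      (1 + (23 / 1000 * (u ^ 2 - 1)) +
      (23 / 1000 * (u ^ 2 - 1)) ^ 2 / 2 +
      (23 / 1000 * (u ^ 2 - 1)) ^ 3 / 6) *
      (1 + u + 4 / 5 * u ^ 2) := by
  obtain ⟨s, hs⟩ : ∃ s, s = u - 4 := ⟨_, rfl⟩
  have hs0 : 0 ≤ s := by linarith
  have h : 0 ≤
      1439490781 / 19440000000 + 493742071 / 32400000000 * s +
      22400501917 / 54000000000 * s ^ 2 + 27112024283 / 90000000000 * s ^ 3 +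
      2434636799 / 30000000000 * s ^ 4 + 334228807 / 30000000000 * s ^ 5 +
      1190779 / 1200000000 * s ^ 6 + 1618211 / 30000000000 * s ^ 7 +
      12167 / 7500000000 * s ^ 8 := by
    positivity
  have e :
      1439490781 / 19440000000 + 493742071 / 32400000000 * s +
      22400501917 / 54000000000 * s ^ 2 + 27112024283 / 90000000000 * s ^ 3 +
      2434636799 / 30000000000 * s ^ 4 + 334228807 / 30000000000 * s ^ 5 +
      1190779 / 1200000000 * s ^ 6 + 1618211 / 30000000000 * s ^ 7 +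
      12167 / 7500000000 * s ^ 8 =
      (1 + (23 / 1000 * (u ^ 2 - 1)) +
      (23 / 1000 * (u ^ 2 - 1)) ^ 2 / 2 +
      (23 / 1000 * (u ^ 2 - 1)) ^ 3 / 6) *
      (1 + u + 4 / 5 * u ^ 2) -
      194774 / 100000 * (1 + (u - 2 / 3) / 5) ^ 5 := by
    rw [hs]
    ring
  rw [e] at h
  linarith

/-- `K = 5`: `(c, μ) = (4 / 5, 23 / 1000)`, gain at most `2 / 3` -/
theorem expO_five_d : ExpO 5 (4 / 5) (23 / 1000) (2 / 3) := by
  have hE : Real.exp (2 / 3) ≤ 194774 / 100000 := exp_two_thirds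
  refine ExpO.of (by norm_num) (by norm_num) (by norm_num) (by norm_num)
    (exp_le_quad_of_le (by norm_num) (by norm_num) (by norm_num)) ?_ ?_
  · intro u h1 h2
    have h3 := odf_five_d_h2 u h1 h2
    have h4 : 0 ≤ (1 + (u - 2 / 3) / 5) ^ 5 := by
      have : 0 ≤ (u - 2 / 3) / 5 := div_nonneg (by linarith) (by norm_num)
      positivity
    push_cast
    exact (mul_le_mul_of_nonneg_right hE h4).trans h3
  · intro u h1
    have h4 : 0 ≤ (1 + (u - 2 / 3) / 5) ^ 5 := by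
      have : 0 ≤ (u - 2 / 3) / 5 := div_nonneg (by linarith) (by norm_num)
      positivity
    have hx : 0 ≤ 23 / 1000 * (u ^ 2 - 1) := mul_nonneg (by norm_num) (by nlinarith)
    have hq : 0 ≤ 1 + u + 4 / 5 * u ^ 2 := by positivity
    have h5 := mul_le_mul_of_nonneg_right (taylor3_le_exp _ hx) hq
    push_cast
    refine ((mul_le_mul_of_nonneg_right hE h4).trans ?_).trans h5
    rcases le_total u (4) with h2 | h2
    · exact odf_five_d_0 u (by linarith) h2
    exact odf_five_d_t u (by linarith)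

theorem odf_five_e_h2 (u : ℝ) (h1 : 0 ≤ u) (h2 : u ≤ 1) :
    1 * (1 + (u - 0) / 5) ^ 5 ≤ 1 + u + 14 / 25 * u ^ 2 := by
  obtain ⟨s, hs⟩ : ∃ s, s = u - 0 := ⟨_, rfl⟩
  obtain ⟨t, ht⟩ : ∃ t, t = 1 - u := ⟨_, rfl⟩
  have hs0 : 0 ≤ s := by linarith
  have ht0 : 0 ≤ t := by linarith
  have h : 0 ≤
      4 / 25 * s ^ 2 * t ^ 3 + 2 / 5 * s ^ 3 * t ^ 2 + 39 / 125 * s ^ 4 * t +
      224 / 3125 * s ^ 5 := by
    positivity
  have e :
      4 / 25 * s ^ 2 * t ^ 3 + 2 / 5 * s ^ 3 * t ^ 2 + 39 / 125 * s ^ 4 * t +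
      224 / 3125 * s ^ 5 =
      1 + u + 14 / 25 * u ^ 2 - 1 * (1 + (u - 0) / 5) ^ 5 := by
    rw [hs, ht]
    ring
  rw [e] at h
  linarith

theorem odf_five_e_0 (u : ℝ) (h1 : 1 ≤ u) (h2 : u ≤ 3) :
    1 * (1 + (u - 0) / 5) ^ 5 ≤
      (1 + (203 / 10000 * (u ^ 2 - 1)) +
      (203 / 10000 * (u ^ 2 - 1)) ^ 2 / 2 +
      (203 / 10000 * (u ^ 2 - 1)) ^ 3 / 6) *
      (1 + u + 14 / 25 * u ^ 2) := by
  obtain ⟨s, hs⟩ : ∃ s, s = u - 1 := ⟨_, rfl⟩
  obtain ⟨t, ht⟩ : ∃ t, t = 3 - u := ⟨_, rfl⟩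
  have hs0 : 0 ≤ s := by linarith
  have ht0 : 0 ≤ t := by linarith
  have h : 0 ≤
      7 / 25000 * t ^ 8 + 6829 / 2000000 * s * t ^ 7 +
      81006711 / 5000000000 * s ^ 2 * t ^ 6 +
      2982026762791 / 75000000000000 * s ^ 3 * t ^ 5 +
      5597482336481 / 100000000000000 * s ^ 4 * t ^ 4 +
      13972576499473 / 300000000000000 * s ^ 5 * t ^ 3 +
      3354191217913 / 150000000000000 * s ^ 6 * t ^ 2 +
      141116681557 / 25000000000000 * s ^ 7 * t + 21679482001 / 37500000000000 * s ^ 8 := by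
    positivity
  have e :
      7 / 25000 * t ^ 8 + 6829 / 2000000 * s * t ^ 7 +
      81006711 / 5000000000 * s ^ 2 * t ^ 6 +
      2982026762791 / 75000000000000 * s ^ 3 * t ^ 5 +
      5597482336481 / 100000000000000 * s ^ 4 * t ^ 4 +
      13972576499473 / 300000000000000 * s ^ 5 * t ^ 3 +
      3354191217913 / 150000000000000 * s ^ 6 * t ^ 2 +
      141116681557 / 25000000000000 * s ^ 7 * t + 21679482001 / 37500000000000 * s ^ 8 =
      (1 + (203 / 10000 * (u ^ 2 - 1)) +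
      (203 / 10000 * (u ^ 2 - 1)) ^ 2 / 2 +
      (203 / 10000 * (u ^ 2 - 1)) ^ 3 / 6) *
      (1 + u + 14 / 25 * u ^ 2) -
      1 * (1 + (u - 0) / 5) ^ 5 := by
    rw [hs, ht]
    ring
  rw [e] at h
  linarith

theorem odf_five_e_1 (u : ℝ) (h1 : 3 ≤ u) (h2 : u ≤ 4) :
    1 * (1 + (u - 0) / 5) ^ 5 ≤
      (1 + (203 / 10000 * (u ^ 2 - 1)) +
      (203 / 10000 * (u ^ 2 - 1)) ^ 2 / 2 +
      (203 / 10000 * (u ^ 2 - 1)) ^ 3 / 6) *
      (1 + u + 14 / 25 * u ^ 2) := by
  obtain ⟨s, hs⟩ : ∃ s, s = u - 3 := ⟨_, rfl⟩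
  obtain ⟨t, ht⟩ : ∃ t, t = 4 - u := ⟨_, rfl⟩
  have hs0 : 0 ≤ s := by linarith
  have ht0 : 0 ≤ t := by linarith
  have h : 0 ≤
      21679482001 / 146484375000 * t ^ 8 + 205755030459 / 195312500000 * s * t ^ 7 +
      7426407198739 / 2343750000000 * s ^ 2 * t ^ 6 +
      9792137571643 / 1875000000000 * s ^ 3 * t ^ 5 +
      15992260510473 / 3125000000000 * s ^ 4 * t ^ 4 +
      56950754721673 / 18750000000000 * s ^ 5 * t ^ 3 +
      2704672113039 / 2500000000000 * s ^ 6 * t ^ 2 +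
      461389155169 / 2000000000000 * s ^ 7 * t + 11206744207 / 400000000000 * s ^ 8 := by
    positivity
  have e :
      21679482001 / 146484375000 * t ^ 8 + 205755030459 / 195312500000 * s * t ^ 7 +
      7426407198739 / 2343750000000 * s ^ 2 * t ^ 6 +
      9792137571643 / 1875000000000 * s ^ 3 * t ^ 5 +
      15992260510473 / 3125000000000 * s ^ 4 * t ^ 4 +
      56950754721673 / 18750000000000 * s ^ 5 * t ^ 3 +
      2704672113039 / 2500000000000 * s ^ 6 * t ^ 2 +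
      461389155169 / 2000000000000 * s ^ 7 * t + 11206744207 / 400000000000 * s ^ 8 =
      (1 + (203 / 10000 * (u ^ 2 - 1)) +
      (203 / 10000 * (u ^ 2 - 1)) ^ 2 / 2 +
      (203 / 10000 * (u ^ 2 - 1)) ^ 3 / 6) *
      (1 + u + 14 / 25 * u ^ 2) -
      1 * (1 + (u - 0) / 5) ^ 5 := by
    rw [hs, ht]
    ring
  rw [e] at h
  linarith

theorem odf_five_e_2 (u : ℝ) (h1 : 4 ≤ u) (h2 : u ≤ 5) :
    1 * (1 + (u - 0) / 5) ^ 5 ≤
      (1 + (203 / 10000 * (u ^ 2 - 1)) +
      (203 / 10000 * (u ^ 2 - 1)) ^ 2 / 2 +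
      (203 / 10000 * (u ^ 2 - 1)) ^ 3 / 6) *
      (1 + u + 14 / 25 * u ^ 2) := by
  obtain ⟨s, hs⟩ : ∃ s, s = u - 4 := ⟨_, rfl⟩
  obtain ⟨t, ht⟩ : ∃ t, t = 5 - u := ⟨_, rfl⟩
  have hs0 : 0 ≤ s := by linarith
  have ht0 : 0 ≤ t := by linarith
  have h : 0 ≤
      11206744207 / 400000000000 * t ^ 8 + 435150381391 / 2000000000000 * s * t ^ 7 +
      4950165684963 / 5000000000000 * s ^ 2 * t ^ 6 +
      116934808206499 / 37500000000000 * s ^ 3 * t ^ 5 +
      120756005262533 / 18750000000000 * s ^ 4 * t ^ 4 +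
      19544615539613 / 2343750000000 * s ^ 5 * t ^ 3 +
      634024887287 / 97656250000 * s ^ 6 * t ^ 2 + 6784738557 / 2441406250 * s ^ 7 * t +
      98265093 / 195312500 * s ^ 8 := by
    positivity
  have e :
      11206744207 / 400000000000 * t ^ 8 + 435150381391 / 2000000000000 * s * t ^ 7 +
      4950165684963 / 5000000000000 * s ^ 2 * t ^ 6 +
      116934808206499 / 37500000000000 * s ^ 3 * t ^ 5 +
      120756005262533 / 18750000000000 * s ^ 4 * t ^ 4 +
      19544615539613 / 2343750000000 * s ^ 5 * t ^ 3 +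
      634024887287 / 97656250000 * s ^ 6 * t ^ 2 + 6784738557 / 2441406250 * s ^ 7 * t +
      98265093 / 195312500 * s ^ 8 =
      (1 + (203 / 10000 * (u ^ 2 - 1)) +
      (203 / 10000 * (u ^ 2 - 1)) ^ 2 / 2 +
      (203 / 10000 * (u ^ 2 - 1)) ^ 3 / 6) *
      (1 + u + 14 / 25 * u ^ 2) -
      1 * (1 + (u - 0) / 5) ^ 5 := by
    rw [hs, ht]
    ring
  rw [e] at h
  linarith

theorem odf_five_e_t (u : ℝ) (h1 : 5 ≤ u) :
    1 * (1 + (u - 0) / 5) ^ 5 ≤
      (1 + (203 / 10000 * (u ^ 2 - 1)) +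
      (203 / 10000 * (u ^ 2 - 1)) ^ 2 / 2 +
      (203 / 10000 * (u ^ 2 - 1)) ^ 3 / 6) *
      (1 + u + 14 / 25 * u ^ 2) := by
  obtain ⟨s, hs⟩ : ∃ s, s = u - 5 := ⟨_, rfl⟩
  have hs0 : 0 ≤ s := by linarith
  have h : 0 ≤
      98265093 / 195312500 + 3041770743 / 2441406250 * s +
      110009393327 / 97656250000 * s ^ 2 + 201756283319 / 468750000000 * s ^ 3 +
      522253300991 / 6250000000000 * s ^ 4 + 71342722529 / 7500000000000 * s ^ 5 +
      53233250483 / 75000000000000 * s ^ 6 + 326251653 / 10000000000000 * s ^ 7 +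
      58557989 / 75000000000000 * s ^ 8 := by
    positivity
  have e :
      98265093 / 195312500 + 3041770743 / 2441406250 * s +
      110009393327 / 97656250000 * s ^ 2 + 201756283319 / 468750000000 * s ^ 3 +
      522253300991 / 6250000000000 * s ^ 4 + 71342722529 / 7500000000000 * s ^ 5 +
      53233250483 / 75000000000000 * s ^ 6 + 326251653 / 10000000000000 * s ^ 7 +
      58557989 / 75000000000000 * s ^ 8 =
      (1 + (203 / 10000 * (u ^ 2 - 1)) +
      (203 / 10000 * (u ^ 2 - 1)) ^ 2 / 2 +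
      (203 / 10000 * (u ^ 2 - 1)) ^ 3 / 6) *
      (1 + u + 14 / 25 * u ^ 2) -
      1 * (1 + (u - 0) / 5) ^ 5 := by
    rw [hs]
    ring
  rw [e] at h
  linarith

/-- `K = 5`: `(c, μ) = (14 / 25, 203 / 10000)`, gain at most `0` -/
theorem expO_five_e : ExpO 5 (14 / 25) (203 / 10000) (0) := by
  have hE : Real.exp (0) ≤ 1 := Real.exp_zero.le
  refine ExpO.of (by norm_num) (by norm_num) (by norm_num) (by norm_num)
    (exp_le_quad_of_le (by norm_num) (by norm_num) (by norm_num)) ?_ ?_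
  · intro u h1 h2
    have h3 := odf_five_e_h2 u h1 h2
    have h4 : 0 ≤ (1 + (u - 0) / 5) ^ 5 := by
      have : 0 ≤ (u - 0) / 5 := div_nonneg (by linarith) (by norm_num)
      positivity
    push_cast
    exact (mul_le_mul_of_nonneg_right hE h4).trans h3
  · intro u h1
    have h4 : 0 ≤ (1 + (u - 0) / 5) ^ 5 := by
      have : 0 ≤ (u - 0) / 5 := div_nonneg (by linarith) (by norm_num)
      positivity
    have hx : 0 ≤ 203 / 10000 * (u ^ 2 - 1) := mul_nonneg (by norm_num) (by nlinarith)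
    have hq : 0 ≤ 1 + u + 14 / 25 * u ^ 2 := by positivity
    have h5 := mul_le_mul_of_nonneg_right (taylor3_le_exp _ hx) hq
    push_cast
    refine ((mul_le_mul_of_nonneg_right hE h4).trans ?_).trans h5
    rcases le_total u (3) with h2 | h2
    · exact odf_five_e_0 u (by linarith) h2
    rcases le_total u (4) with h2 | h2
    · exact odf_five_e_1 u (by linarith) h2
    rcases le_total u (5) with h2 | h2
    · exact odf_five_e_2 u (by linarith) h2
    exact odf_five_e_t u (by linarith)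

theorem odf_seven_a_h2 (u : ℝ) (h1 : 1 / 3 ≤ u) (h2 : u ≤ 1) :
    139562 / 100000 * (1 + (u - 1 / 3) / 7) ^ 7 ≤ 1 + u + 13 / 20 * u ^ 2 := by
  obtain ⟨s, hs⟩ : ∃ s, s = u - 1 / 3 := ⟨_, rfl⟩
  obtain ⟨t, ht⟩ : ∃ t, t = 1 - u := ⟨_, rfl⟩
  have hs0 : 0 ≤ s := by linarith
  have ht0 : 0 ≤ t := by linarith
  have h : 0 ≤
      1086453 / 6400000 * t ^ 7 + 10354473 / 6400000 * s * t ^ 6 +
      292827879 / 44800000 * s ^ 2 * t ^ 5 + 855122913 / 62720000 * s ^ 3 * t ^ 4 +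
      6813927333 / 439040000 * s ^ 4 * t ^ 3 + 144634723659 / 15366400000 * s ^ 5 * t ^ 2 +
      283726296573 / 107564800000 * s ^ 6 * t + 1052107165393 / 5270675200000 * s ^ 7 := by
    positivity
  have e :
      1086453 / 6400000 * t ^ 7 + 10354473 / 6400000 * s * t ^ 6 +
      292827879 / 44800000 * s ^ 2 * t ^ 5 + 855122913 / 62720000 * s ^ 3 * t ^ 4 +
      6813927333 / 439040000 * s ^ 4 * t ^ 3 + 144634723659 / 15366400000 * s ^ 5 * t ^ 2 +
      283726296573 / 107564800000 * s ^ 6 * t + 1052107165393 / 5270675200000 * s ^ 7 =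
      1 + u + 13 / 20 * u ^ 2 - 139562 / 100000 * (1 + (u - 1 / 3) / 7) ^ 7 := by
    rw [hs, ht]
    ring
  rw [e] at h
  linarith

theorem odf_seven_a_0 (u : ℝ) (h1 : 1 ≤ u) (h2 : u ≤ 3) :
    139562 / 100000 * (1 + (u - 1 / 3) / 7) ^ 7 ≤
      (1 + (77 / 2000 * (u ^ 2 - 1)) +
      (77 / 2000 * (u ^ 2 - 1)) ^ 2 / 2 +
      (77 / 2000 * (u ^ 2 - 1)) ^ 3 / 6) *
      (1 + u + 13 / 20 * u ^ 2) := by
  obtain ⟨s, hs⟩ : ∃ s, s = u - 1 := ⟨_, rfl⟩
  obtain ⟨t, ht⟩ : ∃ t, t = 3 - u := ⟨_, rfl⟩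
  have hs0 : 0 ≤ s := by linarith
  have ht0 : 0 ≤ t := by linarith
  have h : 0 ≤
      1052107165393 / 23053933324800000 * t ^ 8 +
      25554553879271 / 23053933324800000 * s * t ^ 7 +
      4211267231056031 / 658683809280000000 * s ^ 2 * t ^ 6 +
      5279706121353146129 / 329341904640000000000 * s ^ 3 * t ^ 5 +
      1683601210869485347 / 82335476160000000000 * s ^ 4 * t ^ 4 +
      4400095608687066353 / 329341904640000000000 * s ^ 5 * t ^ 3 +
      13296976593851537 / 3360631680000000000 * s ^ 6 * t ^ 2 +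
      267798778490503637 / 576348333120000000000 * s ^ 7 * t +
      36538647836522597 / 288174166560000000000 * s ^ 8 := by
    positivity
  have e :
      1052107165393 / 23053933324800000 * t ^ 8 +
      25554553879271 / 23053933324800000 * s * t ^ 7 +
      4211267231056031 / 658683809280000000 * s ^ 2 * t ^ 6 +
      5279706121353146129 / 329341904640000000000 * s ^ 3 * t ^ 5 +
      1683601210869485347 / 82335476160000000000 * s ^ 4 * t ^ 4 +
      4400095608687066353 / 329341904640000000000 * s ^ 5 * t ^ 3 +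
      13296976593851537 / 3360631680000000000 * s ^ 6 * t ^ 2 +
      267798778490503637 / 576348333120000000000 * s ^ 7 * t +
      36538647836522597 / 288174166560000000000 * s ^ 8 =
      (1 + (77 / 2000 * (u ^ 2 - 1)) +
      (77 / 2000 * (u ^ 2 - 1)) ^ 2 / 2 +
      (77 / 2000 * (u ^ 2 - 1)) ^ 3 / 6) *
      (1 + u + 13 / 20 * u ^ 2) -
      139562 / 100000 * (1 + (u - 1 / 3) / 7) ^ 7 := by
    rw [hs, ht]
    ring
  rw [e] at h
  linarith

theorem odf_seven_a_t (u : ℝ) (h1 : 3 ≤ u) :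
    139562 / 100000 * (1 + (u - 1 / 3) / 7) ^ 7 ≤
      (1 + (77 / 2000 * (u ^ 2 - 1)) +
      (77 / 2000 * (u ^ 2 - 1)) ^ 2 / 2 +
      (77 / 2000 * (u ^ 2 - 1)) ^ 3 / 6) *
      (1 + u + 13 / 20 * u ^ 2) := by
  obtain ⟨s, hs⟩ : ∃ s, s = u - 3 := ⟨_, rfl⟩
  have hs0 : 0 ≤ s := by linarith
  have h : 0 ≤
      36538647836522597 / 1125680338125000000 + 3017329398989123 / 42883060500000000 * s +
      25947135611188133 / 95295690000000000 * s ^ 2 +
      94200546227742221 / 381182760000000000 * s ^ 3 +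
      22809859877976593 / 254121840000000000 * s ^ 4 +
      962317121213089 / 56471520000000000 * s ^ 5 +
      238950901659809 / 112943040000000000 * s ^ 6 +
      30870939382777 / 197650320000000000 * s ^ 7 + 5934929 / 960000000000 * s ^ 8 := by
    positivity
  have e :
      36538647836522597 / 1125680338125000000 + 3017329398989123 / 42883060500000000 * s +
      25947135611188133 / 95295690000000000 * s ^ 2 +
      94200546227742221 / 381182760000000000 * s ^ 3 +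
      22809859877976593 / 254121840000000000 * s ^ 4 +
      962317121213089 / 56471520000000000 * s ^ 5 +
      238950901659809 / 112943040000000000 * s ^ 6 +
      30870939382777 / 197650320000000000 * s ^ 7 + 5934929 / 960000000000 * s ^ 8 =
      (1 + (77 / 2000 * (u ^ 2 - 1)) +
      (77 / 2000 * (u ^ 2 - 1)) ^ 2 / 2 +
      (77 / 2000 * (u ^ 2 - 1)) ^ 3 / 6) *
      (1 + u + 13 / 20 * u ^ 2) -
      139562 / 100000 * (1 + (u - 1 / 3) / 7) ^ 7 := by
    rw [hs]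
    ring
  rw [e] at h
  linarith

/-- `K = 7`: `(c, μ) = (13 / 20, 77 / 2000)`, gain at most `1 / 3` -/
theorem expO_seven_a : ExpO 7 (13 / 20) (77 / 2000) (1 / 3) := by
  have hE : Real.exp (1 / 3) ≤ 139562 / 100000 := exp_third
  refine ExpO.of (by norm_num) (by norm_num) (by norm_num) (by norm_num)
    (exp_le_quad_of_le (by norm_num) (by norm_num) (by norm_num)) ?_ ?_
  · intro u h1 h2
    have h3 := odf_seven_a_h2 u h1 h2
    have h4 : 0 ≤ (1 + (u - 1 / 3) / 7) ^ 7 := by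
      have : 0 ≤ (u - 1 / 3) / 7 := div_nonneg (by linarith) (by norm_num)
      positivity
    push_cast
    exact (mul_le_mul_of_nonneg_right hE h4).trans h3
  · intro u h1
    have h4 : 0 ≤ (1 + (u - 1 / 3) / 7) ^ 7 := by
      have : 0 ≤ (u - 1 / 3) / 7 := div_nonneg (by linarith) (by norm_num)
      positivity
    have hx : 0 ≤ 77 / 2000 * (u ^ 2 - 1) := mul_nonneg (by norm_num) (by nlinarith)
    have hq : 0 ≤ 1 + u + 13 / 20 * u ^ 2 := by positivity
    have h5 := mul_le_mul_of_nonneg_right (taylor3_le_exp _ hx) hq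
    push_cast
    refine ((mul_le_mul_of_nonneg_right hE h4).trans ?_).trans h5
    rcases le_total u (3) with h2 | h2
    · exact odf_seven_a_0 u (by linarith) h2
    exact odf_seven_a_t u (by linarith)

theorem odf_seven_b_h2 (u : ℝ) (h1 : 1 / 3 ≤ u) (h2 : u ≤ 1) :
    139562 / 100000 * (1 + (u - 1 / 3) / 7) ^ 7 ≤ 1 + u + 18 / 25 * u ^ 2 := by
  obtain ⟨s, hs⟩ : ∃ s, s = u - 1 / 3 := ⟨_, rfl⟩
  obtain ⟨t, ht⟩ : ∃ t, t = 1 - u := ⟨_, rfl⟩
  have hs0 : 0 ≤ s := by linarith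
  have ht0 : 0 ≤ t := by linarith
  have h : 0 ≤
      1936953 / 6400000 * t ^ 7 + 19709973 / 6400000 * s * t ^ 6 +
      584549379 / 44800000 * s ^ 2 * t ^ 5 + 1813636413 / 62720000 * s ^ 3 * t ^ 4 +
      15857293833 / 439040000 * s ^ 4 * t ^ 3 + 391722834159 / 15366400000 * s ^ 5 * t ^ 2 +
      1012738325073 / 107564800000 * s ^ 6 * t + 7355917058893 / 5270675200000 * s ^ 7 := by
    positivity
  have e :
      1936953 / 6400000 * t ^ 7 + 19709973 / 6400000 * s * t ^ 6 +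
      584549379 / 44800000 * s ^ 2 * t ^ 5 + 1813636413 / 62720000 * s ^ 3 * t ^ 4 +
      15857293833 / 439040000 * s ^ 4 * t ^ 3 + 391722834159 / 15366400000 * s ^ 5 * t ^ 2 +
      1012738325073 / 107564800000 * s ^ 6 * t + 7355917058893 / 5270675200000 * s ^ 7 =
      1 + u + 18 / 25 * u ^ 2 - 139562 / 100000 * (1 + (u - 1 / 3) / 7) ^ 7 := by
    rw [hs, ht]
    ring
  rw [e] at h
  linarith

theorem odf_seven_b_0 (u : ℝ) (h1 : 1 ≤ u) (h2 : u ≤ 4) :
    139562 / 100000 * (1 + (u - 1 / 3) / 7) ^ 7 ≤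
      (1 + (161 / 5000 * (u ^ 2 - 1)) +
      (161 / 5000 * (u ^ 2 - 1)) ^ 2 / 2 +
      (161 / 5000 * (u ^ 2 - 1)) ^ 3 / 6) *
      (1 + u + 18 / 25 * u ^ 2) := by
  obtain ⟨s, hs⟩ : ∃ s, s = u - 1 := ⟨_, rfl⟩
  obtain ⟨t, ht⟩ : ∃ t, t = 4 - u := ⟨_, rfl⟩
  have hs0 : 0 ≤ s := by linarith
  have ht0 : 0 ≤ t := by linarith
  have h : 0 ≤
      7355917058893 / 590847095875050000 * t ^ 8 +
      572869423900801 / 2954235479375250000 * s * t ^ 7 +
      19723886203026667 / 18840787496015625000 * s ^ 2 * t ^ 6 +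
      108047540506877827573 / 41214222647534179687500 * s ^ 3 * t ^ 5 +
      4455921893723829933883 / 1318855124721093750000000 * s ^ 4 * t ^ 4 +
      5753645382298746187597 / 2637710249442187500000000 * s ^ 5 * t ^ 3 +
      586836830411709576551 / 1055084099776875000000000 * s ^ 6 * t ^ 2 +
      30614828237956103797 / 2954235479375250000000000 * s ^ 7 * t +
      10071475085384356057 / 590847095875050000000000 * s ^ 8 := by
    positivity
  have e :
      7355917058893 / 590847095875050000 * t ^ 8 +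
      572869423900801 / 2954235479375250000 * s * t ^ 7 +
      19723886203026667 / 18840787496015625000 * s ^ 2 * t ^ 6 +
      108047540506877827573 / 41214222647534179687500 * s ^ 3 * t ^ 5 +
      4455921893723829933883 / 1318855124721093750000000 * s ^ 4 * t ^ 4 +
      5753645382298746187597 / 2637710249442187500000000 * s ^ 5 * t ^ 3 +
      586836830411709576551 / 1055084099776875000000000 * s ^ 6 * t ^ 2 +
      30614828237956103797 / 2954235479375250000000000 * s ^ 7 * t +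
      10071475085384356057 / 590847095875050000000000 * s ^ 8 =
      (1 + (161 / 5000 * (u ^ 2 - 1)) +
      (161 / 5000 * (u ^ 2 - 1)) ^ 2 / 2 +
      (161 / 5000 * (u ^ 2 - 1)) ^ 3 / 6) *
      (1 + u + 18 / 25 * u ^ 2) -
      139562 / 100000 * (1 + (u - 1 / 3) / 7) ^ 7 := by
    rw [hs, ht]
    ring
  rw [e] at h
  linarith

theorem odf_seven_b_t (u : ℝ) (h1 : 4 ≤ u) :
    139562 / 100000 * (1 + (u - 1 / 3) / 7) ^ 7 ≤
      (1 + (161 / 5000 * (u ^ 2 - 1)) +
      (161 / 5000 * (u ^ 2 - 1)) ^ 2 / 2 +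
      (161 / 5000 * (u ^ 2 - 1)) ^ 3 / 6) *
      (1 + u + 18 / 25 * u ^ 2) := by
  obtain ⟨s, hs⟩ : ∃ s, s = u - 4 := ⟨_, rfl⟩
  have hs0 : 0 ≤ s := by linarith
  have h : 0 ≤
      10071475085384356057 / 90054427050000000000 +
      5908637701228859341 / 21441530250000000000 * s +
      8344637976016766419 / 11911961250000000000 * s ^ 2 +
      27395049743546279993 / 59559806250000000000 * s ^ 3 +
      2646316475012663359 / 19853268750000000000 * s ^ 4 +
      47392857770291029 / 2205918750000000000 * s ^ 5 +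
      322199549000881 / 147061250000000000 * s ^ 6 +
      2039394814104383 / 15441431250000000000 * s ^ 7 + 12519843 / 3125000000000 * s ^ 8 := by
    positivity
  have e :
      10071475085384356057 / 90054427050000000000 +
      5908637701228859341 / 21441530250000000000 * s +
      8344637976016766419 / 11911961250000000000 * s ^ 2 +
      27395049743546279993 / 59559806250000000000 * s ^ 3 +
      2646316475012663359 / 19853268750000000000 * s ^ 4 +
      47392857770291029 / 2205918750000000000 * s ^ 5 +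
      322199549000881 / 147061250000000000 * s ^ 6 +
      2039394814104383 / 15441431250000000000 * s ^ 7 + 12519843 / 3125000000000 * s ^ 8 =
      (1 + (161 / 5000 * (u ^ 2 - 1)) +
      (161 / 5000 * (u ^ 2 - 1)) ^ 2 / 2 +
      (161 / 5000 * (u ^ 2 - 1)) ^ 3 / 6) *
      (1 + u + 18 / 25 * u ^ 2) -
      139562 / 100000 * (1 + (u - 1 / 3) / 7) ^ 7 := by
    rw [hs]
    ring
  rw [e] at h
  linarith

/-- `K = 7`: `(c, μ) = (18 / 25, 161 / 5000)`, gain at most `1 / 3` -/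
theorem expO_seven_b : ExpO 7 (18 / 25) (161 / 5000) (1 / 3) := by
  have hE : Real.exp (1 / 3) ≤ 139562 / 100000 := exp_third
  refine ExpO.of (by norm_num) (by norm_num) (by norm_num) (by norm_num)
    (exp_le_quad_of_le (by norm_num) (by norm_num) (by norm_num)) ?_ ?_
  · intro u h1 h2
    have h3 := odf_seven_b_h2 u h1 h2
    have h4 : 0 ≤ (1 + (u - 1 / 3) / 7) ^ 7 := by
      have : 0 ≤ (u - 1 / 3) / 7 := div_nonneg (by linarith) (by norm_num)
      positivity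
    push_cast
    exact (mul_le_mul_of_nonneg_right hE h4).trans h3
  · intro u h1
    have h4 : 0 ≤ (1 + (u - 1 / 3) / 7) ^ 7 := by
      have : 0 ≤ (u - 1 / 3) / 7 := div_nonneg (by linarith) (by norm_num)
      positivity
    have hx : 0 ≤ 161 / 5000 * (u ^ 2 - 1) := mul_nonneg (by norm_num) (by nlinarith)
    have hq : 0 ≤ 1 + u + 18 / 25 * u ^ 2 := by positivity
    have h5 := mul_le_mul_of_nonneg_right (taylor3_le_exp _ hx) hq
    push_cast
    refine ((mul_le_mul_of_nonneg_right hE h4).trans ?_).trans h5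
    rcases le_total u (4) with h2 | h2
    · exact odf_seven_b_0 u (by linarith) h2
    exact odf_seven_b_t u (by linarith)

theorem odf_seven_c_h2 (u : ℝ) (h1 : 2 / 3 ≤ u) (h2 : u ≤ 1) :
    194774 / 100000 * (1 + (u - 2 / 3) / 7) ^ 7 ≤ 1 + u + 18 / 25 * u ^ 2 := by
  obtain ⟨s, hs⟩ : ∃ s, s = u - 2 / 3 := ⟨_, rfl⟩
  obtain ⟨t, ht⟩ : ∃ t, t = 1 - u := ⟨_, rfl⟩
  have hs0 : 0 ≤ s := by linarith
  have ht0 : 0 ≤ t := by linarith
  have h : 0 ≤
      4256631 / 50000 * t ^ 7 + 15121647 / 25000 * s * t ^ 6 +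
      158683617 / 87500 * s ^ 2 * t ^ 5 + 181189143 / 61250 * s ^ 3 * t ^ 4 +
      603336816 / 214375 * s ^ 4 * t ^ 3 + 11585592702 / 7503125 * s ^ 5 * t ^ 2 +
      23288141841 / 52521875 * s ^ 6 * t + 126875621084 / 2573571875 * s ^ 7 := by
    positivity
  have e :
      4256631 / 50000 * t ^ 7 + 15121647 / 25000 * s * t ^ 6 +
      158683617 / 87500 * s ^ 2 * t ^ 5 + 181189143 / 61250 * s ^ 3 * t ^ 4 +
      603336816 / 214375 * s ^ 4 * t ^ 3 + 11585592702 / 7503125 * s ^ 5 * t ^ 2 +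
      23288141841 / 52521875 * s ^ 6 * t + 126875621084 / 2573571875 * s ^ 7 =
      1 + u + 18 / 25 * u ^ 2 - 194774 / 100000 * (1 + (u - 2 / 3) / 7) ^ 7 := by
    rw [hs, ht]
    ring
  rw [e] at h
  linarith

theorem odf_seven_c_0 (u : ℝ) (h1 : 1 ≤ u) (h2 : u ≤ 3) :
    194774 / 100000 * (1 + (u - 2 / 3) / 7) ^ 7 ≤
      (1 + (21 / 500 * (u ^ 2 - 1)) +
      (21 / 500 * (u ^ 2 - 1)) ^ 2 / 2 +
      (21 / 500 * (u ^ 2 - 1)) ^ 3 / 6) *
      (1 + u + 18 / 25 * u ^ 2) := by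
  obtain ⟨s, hs⟩ : ∃ s, s = u - 1 := ⟨_, rfl⟩
  obtain ⟨t, ht⟩ : ∃ t, t = 3 - u := ⟨_, rfl⟩
  have hs0 : 0 ≤ s := by linarith
  have ht0 : 0 ≤ t := by linarith
  have h : 0 ≤
      31718905271 / 360217708200000 * t ^ 8 + 1034510894747 / 720435416400000 * s * t ^ 7 +
      13811476487273 / 1837845450000000 * s ^ 2 * t ^ 6 +
      1185077405644921 / 65637337500000000 * s ^ 3 * t ^ 5 +
      26231773611067 / 1172095312500000 * s ^ 4 * t ^ 4 +
      1195293589783 / 83721093750000 * s ^ 5 * t ^ 3 +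
      817441974473 / 191362500000000 * s ^ 6 * t ^ 2 +
      5070985369 / 6834375000000 * s ^ 7 * t + 3606068581 / 13668750000000 * s ^ 8 := by
    positivity
  have e :
      31718905271 / 360217708200000 * t ^ 8 + 1034510894747 / 720435416400000 * s * t ^ 7 +
      13811476487273 / 1837845450000000 * s ^ 2 * t ^ 6 +
      1185077405644921 / 65637337500000000 * s ^ 3 * t ^ 5 +
      26231773611067 / 1172095312500000 * s ^ 4 * t ^ 4 +
      1195293589783 / 83721093750000 * s ^ 5 * t ^ 3 +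
      817441974473 / 191362500000000 * s ^ 6 * t ^ 2 +
      5070985369 / 6834375000000 * s ^ 7 * t + 3606068581 / 13668750000000 * s ^ 8 =
      (1 + (21 / 500 * (u ^ 2 - 1)) +
      (21 / 500 * (u ^ 2 - 1)) ^ 2 / 2 +
      (21 / 500 * (u ^ 2 - 1)) ^ 3 / 6) *
      (1 + u + 18 / 25 * u ^ 2) -
      194774 / 100000 * (1 + (u - 2 / 3) / 7) ^ 7 := by
    rw [hs, ht]
    ring
  rw [e] at h
  linarith

theorem odf_seven_c_t (u : ℝ) (h1 : 3 ≤ u) :
    194774 / 100000 * (1 + (u - 2 / 3) / 7) ^ 7 ≤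
      (1 + (21 / 500 * (u ^ 2 - 1)) +
      (21 / 500 * (u ^ 2 - 1)) ^ 2 / 2 +
      (21 / 500 * (u ^ 2 - 1)) ^ 3 / 6) *
      (1 + u + 18 / 25 * u ^ 2) := by
  obtain ⟨s, hs⟩ : ∃ s, s = u - 3 := ⟨_, rfl⟩
  have hs0 : 0 ≤ s := by linarith
  have h : 0 ≤
      7212137162 / 106787109375 + 1247105194 / 7119140625 * s +
      45818804663 / 110742187500 * s ^ 2 + 261588779353 / 775195312500 * s ^ 3 +
      876102786271 / 7235156250000 * s ^ 4 + 264120955471 / 11254687500000 * s ^ 5 +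
      29208011627 / 9847851562500 * s ^ 6 + 1149647324137 / 5147143750000000 * s ^ 7 +
      27783 / 3125000000 * s ^ 8 := by
    positivity
  have e :
      7212137162 / 106787109375 + 1247105194 / 7119140625 * s +
      45818804663 / 110742187500 * s ^ 2 + 261588779353 / 775195312500 * s ^ 3 +
      876102786271 / 7235156250000 * s ^ 4 + 264120955471 / 11254687500000 * s ^ 5 +
      29208011627 / 9847851562500 * s ^ 6 + 1149647324137 / 5147143750000000 * s ^ 7 +
      27783 / 3125000000 * s ^ 8 =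
      (1 + (21 / 500 * (u ^ 2 - 1)) +
      (21 / 500 * (u ^ 2 - 1)) ^ 2 / 2 +
      (21 / 500 * (u ^ 2 - 1)) ^ 3 / 6) *
      (1 + u + 18 / 25 * u ^ 2) -
      194774 / 100000 * (1 + (u - 2 / 3) / 7) ^ 7 := by
    rw [hs]
    ring
  rw [e] at h
  linarith

/-- `K = 7`: `(c, μ) = (18 / 25, 21 / 500)`, gain at most `2 / 3` -/
theorem expO_seven_c : ExpO 7 (18 / 25) (21 / 500) (2 / 3) := by
  have hE : Real.exp (2 / 3) ≤ 194774 / 100000 := exp_two_thirds
  refine ExpO.of (by norm_num) (by norm_num) (by norm_num) (by norm_num)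
    (exp_le_quad_of_le (by norm_num) (by norm_num) (by norm_num)) ?_ ?_
  · intro u h1 h2
    have h3 := odf_seven_c_h2 u h1 h2
    have h4 : 0 ≤ (1 + (u - 2 / 3) / 7) ^ 7 := by
      have : 0 ≤ (u - 2 / 3) / 7 := div_nonneg (by linarith) (by norm_num)
      positivity
    push_cast
    exact (mul_le_mul_of_nonneg_right hE h4).trans h3
  · intro u h1
    have h4 : 0 ≤ (1 + (u - 2 / 3) / 7) ^ 7 := by
      have : 0 ≤ (u - 2 / 3) / 7 := div_nonneg (by linarith) (by norm_num)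
      positivity
    have hx : 0 ≤ 21 / 500 * (u ^ 2 - 1) := mul_nonneg (by norm_num) (by nlinarith)
    have hq : 0 ≤ 1 + u + 18 / 25 * u ^ 2 := by positivity
    have h5 := mul_le_mul_of_nonneg_right (taylor3_le_exp _ hx) hq
    push_cast
    refine ((mul_le_mul_of_nonneg_right hE h4).trans ?_).trans h5
    rcases le_total u (3) with h2 | h2
    · exact odf_seven_c_0 u (by linarith) h2
    exact odf_seven_c_t u (by linarith)

end

end Pool.Agent.TSM
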