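import Pool.Agent.TSM.Lab3

set_option autoImplicit false

/-!
# The kinds with an odd number of children: choices of the child which is split off
(MP_d27362_co)
-/

namespace Pool.Agent.TSM

open Finset Polynomial
open Pool.Agent.TSP
open Pool.Agent.TSO
open Pool.Agent.TSR (OBr Ker)
open Pool.Agent.TLT (sg)
open Pool.Agent.TDN (dn dn_nonneg)

noncomputable section

variable {Y : Sys} {Adm : ℕ → ℝ → ℝ → ℝ → ℝ → Prop} {V P : ℝ → ℝ → Sn → ℝ} {χ : ℝ → ℝ}
  {K : ℕ} {O : Fin K → OBr} {N : Finset (Fin K)} {L : Fin K} {lf tw : Bool} {m : ℕ}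

/-- the obligation for the symmetric rule, with the labels `e` -/
def SymO (Y : Sys) (Adm : ℕ → ℝ → ℝ → ℝ → ℝ → Prop) (V P : ℝ → ℝ → Sn → ℝ) (χ : ℝ → ℝ)
    (lf tw : Bool) (m : ℕ) {K : ℕ} (O : Fin K → OBr) (N : Finset (Fin K)) (tc : Fin K → ℕ)
    (e : Fin K → Bool) (n : ℕ) (vm fv : ℝ) : Prop :=
  ∀ (σ ρ : Fin K → Bool) (f : ℝ), FamSK Y Adm V P lf tw m O N tc σ e ρ n f vm fv →
    ∃ ty : ℕ, ty ≠ 0 ∧ Adm ty (vU (fam σ e O)) (vY (fam σ e O)) (aU (fam σ e O))
      (aY (fam σ e O)) ∧ ∀ D, RD D → OdT V P χ O N tc σ e ty D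

/-- the obligation for the rule with `L`, with the labels `e` -/
def LOH (Y : Sys) (Adm : ℕ → ℝ → ℝ → ℝ → ℝ → Prop) (V P : ℝ → ℝ → Sn → ℝ) (χ : ℝ → ℝ)
    (lf tw : Bool) (m : ℕ) {K : ℕ} (O : Fin K → OBr) (N : Finset (Fin K)) (tc : Fin K → ℕ)
    (e : Fin K → Bool) (n : ℕ) (vm fv : ℝ) (L : Fin K) : Prop :=
  ∀ (σ ρ : Fin K → Bool) (v f f2 nL nR : ℝ),
    FamLK Y Adm V P lf tw m O N tc σ e ρ L n v f f2 nL nR vm fv → (f2 = 2 ∨ (f2 = 1 ∧ m = 2)) →
    Orient (vY (O L)) v (vU (fam σ e O)) f2 f → LO Adm V P χ O N tc σ e L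

/-- there is no orientation when `L` is split off: `v` is the value of the rest -/
def Trouble {K : ℕ} (O : Fin K → OBr) (N : Finset (Fin K)) (L : Fin K) : Prop :=
  ∃ (s : Fin K → Bool) (v : ℝ), ∑ i ∈ univ.erase L, sg (s i) = 0 ∧
    v = ∑ i ∈ univ.erase L, sg (s i) * vY (O i) ∧ (∃ i ∈ N, i ≠ L ∧ v ≤ vY (O i)) ∧
    vY (O L) < v ∧ 2 < vY (O L) + v

lemma CanL.not_trouble (h : CanL O N L) : ¬ Trouble O N L := by
  rintro ⟨s, v, _, _, ⟨i, hi, hiL, hvi⟩, h1, h2⟩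
  rcases h.2 i hi hiL with h3 | h3
  · linarith
  · linarith

theorem famLK_exists2 (hK : Odd K) (hI : ItD lf tw m O N) (h2 : 2 ≤ m) {tc : Fin K → ℕ}
    (hT : FamT Y Adm V P O N tc) {n : ℕ} (hn : n = (tw.toNat + c1 O N) % 2) {e : Fin K → Bool}
    {vm fv : ℝ} (he : LabD O e n vm fv) (hLN : L ∈ N) :
    Trouble O N L ∨ ∃ (σ ρ : Fin K → Bool) (v f f2 nL nR : ℝ), (f2 = 2 ∨ (f2 = 1 ∧ m = 2)) ∧
      Orient (vY (O L)) v (vU (fam σ e O)) f2 f ∧
      FamLK Y Adm V P lf tw m O N tc σ e ρ L n v f f2 nL nR vm fv := by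
  classical
  have hcard := hI.hN
  have hc2 : (N.erase L).card + 1 = m := by rw [card_erase_add_one hLN, hcard]
  have hne : (N.erase L).Nonempty := card_pos.mp (by omega)
  -- the largest value of the rest
  obtain ⟨j, hj, hjm⟩ := exists_max_image (N.erase L) (fun i => vY (O i)) hne
  have hjN := mem_of_mem_erase hj
  have hjL := ne_of_mem_erase hj
  obtain ⟨f2, hf2, hf2'⟩ : ∃ f2 : ℝ, (f2 = 2 ∨ (f2 = 1 ∧ (N.erase L).card = 1)) ∧
      (f2 = 2 ∨ (f2 = 1 ∧ m = 2)) := by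
    by_cases h : m = 2
    · exact ⟨1, Or.inr ⟨rfl, by omega⟩, Or.inr ⟨rfl, h⟩⟩
    · exact ⟨2, Or.inl rfl, Or.inl rfl⟩
  obtain ⟨σ, ρ, v, hv0, hvc, hσL, hσ1, r0, r1, hcase⟩ := famL_choice hT.hO hK hLN hf2
    (hT.hO.hI j).2.2.2.1 (fun i hi hiL => hjm i (mem_erase.mpr ⟨hiL, hi⟩)) he rfl
    (show sg (e L) * tau (O L) + (n - sg (e L) * tau (O L)) = n by ring)
  rcases hcase with ⟨hvg, t1, t2⟩ | ⟨hInv, f, hor, hS⟩
  · left
    refine ⟨σ, v, ?_, ?_, ⟨j, hjN, hjL, hvc⟩, t1, t2⟩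
    · rw [← add_sum_erase univ _ (mem_univ L), hσL, TSR.sg_tt] at hσ1
      linarith
    · rw [← hvg]
      unfold gY2
      rw [eval_finsetSum]
      exact sum_congr rfl fun i _ => by rw [eval_smul, smul_eq_mul]; rfl
  · right
    refine ⟨σ, ρ, v, f, f2, _, _, hf2', hor, hI, hT, hn, hLN, r0, r1, hσL, hσ1, hv0,
      ⟨j, hjN, hjL, hvc⟩, ?_, rfl, ?_, hInv, fun M kL kR v2m hM hk hv hkk =>
      hS M kL kR v2m (by rw [hcard]; exact hM) hk hv hkk, he⟩
    · have e1 : vU (fam σ e O) = vY (O L) + (gY2 σ O L).eval q0 := by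
        unfold vU
        rw [U_split e O hσL, eval_add]
        rfl
      rcases hor with ⟨_, _, _, h | h⟩ | ⟨_, ⟨_, _, h⟩ | ⟨_, _, h⟩⟩
      · exact Or.inr ⟨h, by linarith⟩
      · exact Or.inl ⟨h, by linarith⟩
      · exact Or.inr ⟨h, by linarith⟩
      · exact Or.inl ⟨h, by linarith⟩
    · ring

/-- one family with an odd number of children, symmetric rule, given labels -/
theorem po_sym (hY : Y.G = GoodE χ) (hχ : ∀ D, RD D → 0 ≤ χ D) (hK : Odd K)
    (hI : ItD lf tw m O N) {tc : Fin K → ℕ} (hT : FamT Y Adm V P O N tc)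
    {e : Fin K → Bool} {n : ℕ} (hn : n = (tw.toNat + c1 O N) % 2) {vm fv : ℝ}
    (he : LabD O e n vm fv) (H : SymO Y Adm V P χ lf tw m O N tc e n vm fv) :
    ∃ σ e : Fin K → Bool, PO Y Adm V P (fam σ e O) := by
  obtain ⟨σ, ρ, f, hF⟩ := famSK_exists hK hI hT hn he
  obtain ⟨ty, hty, hA, h4⟩ := H σ ρ f hF
  exact ⟨σ, e, po_S hY hχ hK.pos hT hF.hσ1 hF.hInv hty hA h4⟩

/-- **one family with an odd number of children, given labels**: a child `L` is chosen, in the case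
of trouble the symmetric rule is used -/
theorem po_oddL (hY : Y.G = GoodE χ) (hχ : ∀ D, RD D → 0 ≤ χ D) (hK : Odd K)
    (hI : ItD lf tw m O N) (h2 : 2 ≤ m) {tc : Fin K → ℕ} (hT : FamT Y Adm V P O N tc)
    {e : Fin K → Bool} {n : ℕ} (hn : n = (tw.toNat + c1 O N) % 2) {vm fv : ℝ}
    (he : LabD O e n vm fv) (hL : L ∈ N)
    (H : LOH Y Adm V P χ lf tw m O N tc e n vm fv L)
    (H' : Trouble O N L → SymO Y Adm V P χ lf tw m O N tc e n vm fv) :
    ∃ σ e : Fin K → Bool, PO Y Adm V P (fam σ e O) := by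
  have hK2 : 2 ≤ K := by rw [hI.hK]; omega
  rcases famLK_exists2 hK hI h2 hT hn he hL with ht | ⟨σ, ρ, v, f, f2, nL, nR, hf2, hor, hF⟩
  · exact po_sym hY hχ hK hI hT hn he (H' ht)
  · obtain ⟨ty, hty, hA, h4⟩ := H σ ρ v f f2 nL nR hF hf2 hor
    exact ⟨σ, e, po_L hY hχ hK2 hT hF.hσL hF.hσ1 hF.hInv hty hA h4⟩

/-! ### the labels -/

/-- a child with `τ = 0` for the label zero; no leaf -/
lemma exists_even (hK : Odd K) (hI : ItD false tw m O N) (hO : FamO O N)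
    (hn : Even (tw.toNat + c1 O N)) : ∃ L ∈ N, tau (O L) = 0 ∧
      ∀ i ∈ N, tau (O i) = 0 → vY (O i) ≤ vY (O L) := by
  classical
  have h1 : (N.filter fun i => tau (O i) = 0).Nonempty := by
    by_contra h2
    rw [not_nonempty_iff_eq_empty, filter_eq_empty_iff] at h2
    have h3 : c1 O N = m := by
      unfold c1
      rw [← hI.hN]
      congr 1
      rw [filter_eq_self]
      intro i hi
      rcases (hO.hI i).1 with h4 | h4
      · exact absurd h4 (h2 hi)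
      · exact h4
    have h5 := hI.hK
    rw [h3] at hn
    rw [h5] at hK
    simp only [Bool.toNat_false, zero_add] at hK
    exact (Nat.not_odd_iff_even.mpr hn) hK
  obtain ⟨L, hL, hLm⟩ := exists_max_image _ (fun i => vY (O i)) h1
  rw [mem_filter] at hL
  exact ⟨L, hL.1, hL.2, fun i hi h => hLm i (mem_filter.mpr ⟨hi, h⟩)⟩

/-- a child with `τ = 1` and the sign `+`, for the label one; no path -/
lemma exists_plus (hI : ItD lf false m O N) (hO : FamO O N) {e : Fin K → Bool} {vm fv : ℝ}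
    (he : LabD O e 1 vm fv) : ∃ L ∈ N, tau (O L) = 1 ∧ e L = true ∧
      ∀ i ∈ N, tau (O i) = 1 → e i = true → vY (O i) ≤ vY (O L) := by
  classical
  have h1 : (N.filter fun i => tau (O i) = 1 ∧ e i = true).Nonempty := by
    by_contra h2
    rw [not_nonempty_iff_eq_empty, filter_eq_empty_iff] at h2
    have h3 := he.sum_tau
    have h4 : ∑ i, sg (e i) * tau (O i) ≤ 0 := by
      refine sum_nonpos fun i _ => ?_
      by_cases hi : i ∈ N
      · rcases (hO.hI i).1 with h5 | h5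
        · rw [h5, mul_zero]
        · have h6 := h2 hi
          have h7 : e i = false := by
            cases h8 : e i
            · rfl
            · exact absurd ⟨h5, h8⟩ h6
          rw [h7, TSR.sg_ff, h5]
          norm_num
      · rw [hI.ht' rfl i hi, tau_nil, mul_zero]
    rw [h3] at h4
    norm_num at h4
  obtain ⟨L, hL, hLm⟩ := exists_max_image _ (fun i => vY (O i)) h1
  rw [mem_filter] at hL
  exact ⟨L, hL.1, hL.2.1, hL.2.2, fun i hi h h' => hLm i (mem_filter.mpr ⟨hi, h, h'⟩)⟩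

/-- **no leaf, odd number of children**. Label zero: a child with `τ = 0` and the largest value
among those is split off; label one, no path: a child with `τ = 1` and the sign `+` is split off; or
the symmetric rule -/
theorem poT_rest (hY : Y.G = GoodE χ) (hχ : ∀ D, RD D → 0 ≤ χ D) (hK : Odd K)
    (hI : ItD false tw m O N) (h2 : 2 ≤ m) {tc : Fin K → ℕ} (hT : FamT Y Adm V P O N tc)
    (H : (∀ (e : Fin K → Bool) (n : ℕ), n = (tw.toNat + c1 O N) % 2 →
        LabD O e n (16 - 12 * n) (4 - 3 * n) →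
        SymO Y Adm V P χ false tw m O N tc e n (16 - 12 * n) (4 - 3 * n)) ∨
      (Even (tw.toNat + c1 O N) ∧ ∀ (e : Fin K → Bool) (L : Fin K), LabD O e 0 16 4 → L ∈ N →
        tc L = 0 → (∀ i ∈ N, tc i = 0 → vY (O i) ≤ vY (O L)) →
        LOH Y Adm V P χ false tw m O N tc e 0 16 4 L ∧
          (Trouble O N L → SymO Y Adm V P χ false tw m O N tc e 0 16 4)) ∨
      (tw = false ∧ Odd (c1 O N) ∧ ∀ (e : Fin K → Bool) (L : Fin K), LabD O e 1 4 1 → L ∈ N →
        tc L ≠ 0 → e L = true → (∀ i ∈ N, tc i ≠ 0 → e i = true → vY (O i) ≤ vY (O L)) →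
        LOH Y Adm V P χ false tw m O N tc e 1 4 1 L ∧
          (Trouble O N L → SymO Y Adm V P χ false tw m O N tc e 1 4 1))) :
    ∃ σ e : Fin K → Bool, PO Y Adm V P (fam σ e O) := by
  have hO := hT.hO
  obtain ⟨e, n, hn, he⟩ := labD_exists hO
  rw [hI.n1] at hn
  rcases H with H | ⟨hev, H⟩ | ⟨htw, hodd, H⟩
  · exact po_sym hY hχ hK hI hT hn he (H e n hn he)
  · obtain ⟨L, hL, hτ, hm⟩ := exists_even hK hI hO hev
    have hn0 : n = 0 := by rw [hn]; exact Nat.even_iff.mp hev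
    subst hn0
    have he' : LabD O e 0 16 4 := by
      have e1 : (16 : ℝ) - 12 * ((0 : ℕ) : ℝ) = 16 := by norm_num
      have e2 : (4 : ℝ) - 3 * ((0 : ℕ) : ℝ) = 4 := by norm_num
      rw [e1, e2] at he
      exact he
    obtain ⟨g1, g2⟩ := H e L he' hL ((hT.ht L hL).mpr hτ)
      fun i hi h => hm i hi ((hT.ht i hi).mp h)
    exact po_oddL hY hχ hK hI h2 hT hn he' hL g1 g2
  · subst htw
    have hn1 : n = 1 := by
      rw [hn, Bool.toNat_false, zero_add]
      exact Nat.odd_iff.mp hodd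
    subst hn1
    have he' : LabD O e 1 4 1 := by
      have e1 : (16 : ℝ) - 12 * ((1 : ℕ) : ℝ) = 4 := by norm_num
      have e2 : (4 : ℝ) - 3 * ((1 : ℕ) : ℝ) = 1 := by norm_num
      rw [e1, e2] at he
      exact he
    obtain ⟨L, hL, hτ, heL, hm⟩ := exists_plus hI hO he'
    have ht1 : ∀ i ∈ N, tc i ≠ 0 → tau (O i) = 1 := by
      intro i hi h
      rcases (hO.hI i).1 with h3 | h3
      · exact absurd ((hT.ht i hi).mpr h3) h
      · exact h3
    obtain ⟨g1, g2⟩ := H e L he' hL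
      (fun h => by rw [(hT.ht L hL).mp h] at hτ; norm_num at hτ) heL
      fun i hi h h' => hm i hi (ht1 i hi h) h'
    exact po_oddL hY hχ hK hI h2 hT hn he' hL g1 g2

/-! ### three children, one of them trivial -/

/-- the obligation for three children, one of them trivial, with the labels `e` -/
def TriO (Y : Sys) (Adm : ℕ → ℝ → ℝ → ℝ → ℝ → Prop) (V P : ℝ → ℝ → Sn → ℝ) (χ : ℝ → ℝ)
    (lf tw : Bool) {K : ℕ} (O : Fin K → OBr) (N : Finset (Fin K)) (tc : Fin K → ℕ)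
    (e : Fin K → Bool) (i j : Fin K) (n : ℕ) (vm fv ξ : ℝ) : Prop :=
  DO Y Adm V P χ lf tw O N tc e i j n vm fv ξ 2 ∨
    (vY (O i) + vY (O j) ≤ 2 ∧ ∃ L R : Fin K, ((L = i ∧ R = j) ∨ (L = j ∧ R = i)) ∧
      (SO Y Adm V P χ lf tw O N tc e L R n vm fv 2 ∨
        (SO Y Adm V P χ lf tw O N tc e L R n vm fv 1 ∧
          DO Y Adm V P χ lf tw O N tc e i j n vm fv ξ 1)))

/-- the number of children with `τ = 1` of two nontrivial children -/
lemma Tri.c1_same {i j t : Fin K} (h : Tri O N i j t) (hO : FamO O N) (hc : OneCl 2 (c1 O N)) :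
    tau (O i) = tau (O j) := by
  classical
  have hi : i ∈ N := by rw [h.hN]; simp
  have hj : j ∈ N := by rw [h.hN]; simp
  have hcard : N.card = 2 := by rw [h.hN, card_pair h.hij]
  rcases hc with hc | hc
  · have h5 : (N.filter fun i => tau (O i) = 1) = ∅ := card_eq_zero.mp hc
    have h6 : ∀ k ∈ N, tau (O k) = 0 := by
      intro k hk
      rcases (hO.hI k).1 with h1 | h1
      · exact h1
      · have : k ∈ N.filter fun i => tau (O i) = 1 := mem_filter.mpr ⟨hk, h1⟩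
        rw [h5] at this
        simp at this
    rw [h6 i hi, h6 j hj]
  · have h4 : (N.filter fun i => tau (O i) = 1) = N :=
      eq_of_subset_of_card_le (filter_subset _ _) (by rw [hcard]; exact hc.ge)
    have h6 : ∀ k ∈ N, tau (O k) = 1 := by
      intro k hk
      rw [← h4] at hk
      exact (mem_filter.mp hk).2
    rw [h6 i hi, h6 j hj]

/-- one child with `τ = 1` and one with `τ = 0` -/
lemma Tri.c1_one {i j t : Fin K} (h : Tri O N i j t) (hO : FamO O N) (hc : c1 O N = 1) :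
    ∃ a b : Fin K, ((a = i ∧ b = j) ∨ (a = j ∧ b = i)) ∧ tau (O a) = 1 ∧ tau (O b) = 0 := by
  classical
  obtain ⟨a, ha⟩ := card_eq_one.mp hc
  have ha1 : a ∈ N.filter fun i => tau (O i) = 1 := by rw [ha]; simp
  rw [mem_filter] at ha1
  have hother : ∀ k ∈ N, k ≠ a → tau (O k) = 0 := by
    intro k hk hka
    rcases (hO.hI k).1 with h1 | h1
    · exact h1
    · have : k ∈ N.filter fun i => tau (O i) = 1 := mem_filter.mpr ⟨hk, h1⟩
      rw [ha, mem_singleton] at this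
      exact absurd this hka
  have haN := ha1.1
  have hi : i ∈ N := by rw [h.hN]; simp
  have hj : j ∈ N := by rw [h.hN]; simp
  rw [h.hN, mem_insert, mem_singleton] at haN
  rcases haN with h1 | h1
  · exact ⟨i, j, Or.inl ⟨rfl, rfl⟩, by rw [← h1]; exact ha1.2,
      hother j hj (by rw [h1]; exact h.hij.symm)⟩
  · exact ⟨j, i, Or.inr ⟨rfl, rfl⟩, by rw [← h1]; exact ha1.2,
      hother i hi (by rw [h1]; exact h.hij)⟩

/-- **a leaf and two nontrivial children** -/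
theorem poT_LBB (hY : Y.G = GoodE χ) (hχ : ∀ D, RD D → 0 ≤ χ D) (hI : ItD true false 2 O N)
    {tc : Fin K → ℕ} (hT : FamT Y Adm V P O N tc)
    (H : OneCl 2 (c1 O N) → ∀ (e : Fin K → Bool) (i j t : Fin K), Tri O N i j t →
      LabD O e 0 4 1 → e j = !(e i) → (∀ σ, vY (fam σ e O) ≤ 1) →
      TriO Y Adm V P χ true false O N tc e i j 0 4 1 0)
    (H' : c1 O N = 1 → ∀ i j t a b : Fin K, Tri O N i j t → ((a = i ∧ b = j) ∨ (a = j ∧ b = i)) →
      tc a ≠ 0 → tc b = 0 →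
      (∀ e : Fin K → Bool, e a = true → e b = false → LabD O e 1 4 1 →
        (∀ σ, vY (fam σ e O) = 1 - q0 * (vU (O a) - vU (O b))) →
        TriO Y Adm V P χ true false O N tc e i j 1 4 1 0) ∨
      (q0 * (vU (O a) + vU (O b)) ≤ 1 ∧ ∀ e : Fin K → Bool, e a = true → e b = true →
        LabD O e 1 (61 / 10) 2 → (∀ σ, vY (fam σ e O) = 1 - q0 * (vU (O a) + vU (O b))) →
        TriO Y Adm V P χ true false O N tc e i j 1 (61 / 10) 2 0)) :
    ∃ σ e : Fin K → Bool, PO Y Adm V P (fam σ e O) := by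
  have hK : K = 3 := by
    rw [hI.hK]
    rfl
  have hO := hT.hO
  obtain ⟨t, ht, hOt⟩ := hI.hl rfl
  have hτt : tau (O t) = 0 := by rw [hOt, tau_nil]
  obtain ⟨i, j, h⟩ := tri_exists hI hK t ht
  have hle : c1 O N ≤ 2 := by
    rw [← hI.hN]
    exact card_filter_le _ _
  have hξ : ∀ e : Fin K → Bool, xiT (e t) (O t) = 0 := fun e => by rw [hOt, xiT_nil]
  by_cases hc : c1 O N = 1
  · obtain ⟨a, b, hab, ha, hb⟩ := h.c1_one hO hc
    have haN : a ∈ N := by
      rw [h.hN]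
      rcases hab with ⟨h1, _⟩ | ⟨h1, _⟩ <;> rw [h1] <;> simp
    have hbN : b ∈ N := by
      rw [h.hN]
      rcases hab with ⟨_, h1⟩ | ⟨_, h1⟩ <;> rw [h1] <;> simp
    have hn : 1 = (false.toNat + c1 O N) % 2 := by rw [hc]; rfl
    rcases H' hc i j t a b h hab
      (fun h1 => by rw [(hT.ht a haN).mp h1] at ha; norm_num at ha)
      ((hT.ht b hbN).mpr hb) with H1 | ⟨hv, H1⟩
    · obtain ⟨e, e1, e2, he, e3⟩ := h.lab_leaf hO hτt hab ha hb
      exact po_tri hY hχ hI hK hT hn he h (hξ e) (H1 e e1 e2 he e3)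
    · obtain ⟨e, e1, e2, he, e3⟩ := h.lab_leaf2 hO hτt hab ha hb hv
      exact po_tri hY hχ hI hK hT hn he h (hξ e) (H1 e e1 e2 he e3)
  · have hc' : OneCl 2 (c1 O N) := by
      unfold OneCl
      omega
    obtain ⟨e, _, e2, he, e3⟩ := h.lab_same hO (h.c1_same hO hc') (n := 0) (Or.inl ⟨rfl, hτt⟩)
    have hn : 0 = (false.toNat + c1 O N) % 2 := by
      rw [Bool.toNat_false]
      rcases hc' with h1 | h1 <;> rw [h1]
    exact po_tri hY hχ hI hK hT hn he h (hξ e) (H hc' e i j t h he e2 e3)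

/-- **the path and two nontrivial children** -/
theorem poT_PBB (hY : Y.G = GoodE χ) (hχ : ∀ D, RD D → 0 ≤ χ D) (hI : ItD false true 2 O N)
    {tc : Fin K → ℕ} (hT : FamT Y Adm V P O N tc)
    (H : OneCl 2 (c1 O N) → ∀ (e : Fin K → Bool) (i j t : Fin K), Tri O N i j t →
      LabD O e 1 4 1 → e t = true → e j = !(e i) → (∀ σ, vY (fam σ e O) ≤ 1) →
      TriO Y Adm V P χ false true O N tc e i j 1 4 1 1)
    (H' : c1 O N = 1 → ∀ i j t a b : Fin K, Tri O N i j t → ((a = i ∧ b = j) ∨ (a = j ∧ b = i)) →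
      tc a ≠ 0 → tc b = 0 → ∀ e : Fin K → Bool, e t = !(e a) → e b = !(e a) → LabD O e 0 4 1 →
      (∀ σ, vY (fam σ e O) ≤ 1) →
      SymO Y Adm V P χ false true 2 O N tc e 0 4 1 ∨
        (LOH Y Adm V P χ false true 2 O N tc e 0 4 1 b ∧
          (Trouble O N b → SymO Y Adm V P χ false true 2 O N tc e 0 4 1))) :
    ∃ σ e : Fin K → Bool, PO Y Adm V P (fam σ e O) := by
  have hK : K = 3 := by
    rw [hI.hK]
    rfl
  have hO := hT.hO
  obtain ⟨t, ht, hOt, htt⟩ := hI.ht rfl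
  have hτt : tau (O t) = 1 := by rw [hOt, tau_two]
  obtain ⟨i, j, h⟩ := tri_exists hI hK t ht
  have hle : c1 O N ≤ 2 := by
    rw [← hI.hN]
    exact card_filter_le _ _
  by_cases hc : c1 O N = 1
  · obtain ⟨a, b, hab, ha, hb⟩ := h.c1_one hO hc
    have haN : a ∈ N := by
      rw [h.hN]
      rcases hab with ⟨h1, _⟩ | ⟨h1, _⟩ <;> rw [h1] <;> simp
    have hbN : b ∈ N := by
      rw [h.hN]
      rcases hab with ⟨_, h1⟩ | ⟨_, h1⟩ <;> rw [h1] <;> simp
    have hn : 0 = (true.toNat + c1 O N) % 2 := by rw [hc]; rfl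
    obtain ⟨e, e1, e2, he, e3⟩ := h.lab_path hO hτt hab ha hb
    have hKo : Odd K := by rw [hK]; decide
    rcases H' hc i j t a b h hab
      (fun h1 => by rw [(hT.ht a haN).mp h1] at ha; norm_num at ha)
      ((hT.ht b hbN).mpr hb) e e1 e2 he e3 with H1 | ⟨H1, H2⟩
    · exact po_sym hY hχ hKo hI hT hn he H1
    · exact po_oddL hY hχ hKo hI le_rfl hT hn he hbN H1 H2
  · have hc' : OneCl 2 (c1 O N) := by
      unfold OneCl
      omega
    obtain ⟨e, e1, e2, he, e3⟩ := h.lab_same hO (h.c1_same hO hc') (n := 1) (Or.inr ⟨rfl, hτt⟩)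
    have hn : 1 = (true.toNat + c1 O N) % 2 := by
      rw [Bool.toNat_true]
      rcases hc' with h1 | h1 <;> rw [h1]
    exact po_tri hY hχ hI hK hT hn he h (by rw [hOt, xiT_two, e1, TSR.sg_tt])
      (H hc' e i j t h he e1 e2 e3)

end

end Pool.Agent.TSM
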