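import Pool.Agent.TSM.Many

set_option autoImplicit false

/-!
# Tree level rule for an even number of children (MP_d27362_co)
-/

namespace Pool.Agent.TSM

open Finset Polynomial
open Pool.Agent.TSP
open Pool.Agent.TSO
open Pool.Agent.TSR (OBr Ker Br Red Cn2 sg_true sg_false sg_not vS_cons vS_nil vS_mk vS_rev vS_nonneg)
open Pool.Agent.TLT (sg)

noncomputable section

/-- the oriented tree with the children `O i`, edge signs `σ i`, state signs `e i` -/
def fam {K : ℕ} (σ e : Fin K → Bool) (O : Fin K → OBr) : OBr :=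
  .mk (List.ofFn fun i => cn (σ i) (e i) (O i))

lemma fam_forget {K : ℕ} (σ e : Fin K → Bool) (O : Fin K → OBr) :
    (fam σ e O).forget = Br.mk (List.ofFn fun i => (O i).forget) := by
  unfold fam
  rw [OBr.forget_mk, List.map_ofFn]
  congr 1
  congr 1
  funext i
  exact cn_forget _ _ _

lemma fam_tau {K : ℕ} (σ e : Fin K → Bool) (O : Fin K → OBr) :
    tau (fam σ e O) = ∑ i, sg (σ i) := by
  unfold fam
  rw [tau_mk, List.map_ofFn, List.sum_ofFn]
  rfl

lemma fam_UU {K : ℕ} (σ e : Fin K → Bool) (O : Fin K → OBr) :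
    UU (fam σ e O) = ∑ i, sg (σ i) • YY (O i) := by
  unfold fam
  rw [UU_mk, List.map_ofFn, List.sum_ofFn]
  refine Finset.sum_congr rfl fun i _ => ?_
  simp only [Function.comp, cn_fst, cn_YY]

lemma fam_YY {K : ℕ} (σ e : Fin K → Bool) (O : Fin K → OBr) :
    YY (fam σ e O) = ∑ i, sg (e i) • XX (O i) := by
  unfold fam
  rw [YY_mk, List.map_ofFn, List.sum_ofFn]
  refine Finset.sum_congr rfl fun i _ => ?_
  simp only [Function.comp, cn_fst, cn_XX]

lemma fam_XX {K : ℕ} (σ e : Fin K → Bool) (O : Fin K → OBr) :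
    XX (fam σ e O) = ∑ i, sg (σ i) • (1 - X * YY (O i)) := by
  unfold fam
  rw [XX_mk, List.map_ofFn, List.sum_ofFn]
  refine Finset.sum_congr rfl fun i _ => ?_
  simp only [Function.comp, cn_fst, cn_YY]

lemma fam_vS {m : ℕ} (S : Fin m → Fin m → ℝ) {K : ℕ} (σ e : Fin K → Bool) (O : Fin K → OBr) :
    (fam σ e O).vS S = fun z => ∏ i, ms S (cn (σ i) (e i) (O i)) z := by
  funext z
  unfold fam
  rw [vS_mk_ms, List.map_ofFn, List.prod_ofFn]
  rfl

lemma nu_finset_sum {m : ℕ} (w t : Fin m → ℝ) {ι : Type} (s : Finset ι) (f : ι → ℝ → ℝ) :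
    (nu w t fun a => ∑ i ∈ s, f i a) = ∑ i ∈ s, nu w t (f i) := by
  unfold nu
  rw [Finset.sum_comm]
  exact Finset.sum_congr rfl fun j _ => by rw [Finset.mul_sum]

/-- **an even number of children** (`Σ σ = 0`), Rule E. `(c, μ)` is an admissible pair for
`e^u ≤ e^{μ w²} (1 + u + c u²)`, `u ≤ w` -/
theorem Good.even {K : ℕ} (O : Fin K → OBr) (σ e : Fin K → Bool) (V c : Fin K → ℝ → ℝ → ℝ)
    (h : ∀ i, Good (O i) (V i) (c i)) (hτ : ∑ i, sg (σ i) = 0) (cq μ : ℝ) (hcq : 0 ≤ cq)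
    (hμ : 0 ≤ μ)
    (hexp : ∀ u w : ℝ, u ≤ w → Real.exp u ≤ Real.exp (μ * w ^ 2) * (1 + u + cq * u ^ 2))
    (l : ℝ → ℝ) (hl : ∀ D, RD D → 0 < l D) {V' c' : ℝ → ℝ → ℝ}
    (hb : ∀ D, RD D → ILe D (V' D) (fun a => ∑ i, V i D a + ∑ i, sg (e i) * (XX (O i)).eval a -
      μ * ((1 + l D) + (1 + 1 / l D) * D) * ((∑ i, sg (e i) * (XX (O i)).eval a) ^ 2 +
        a * (∑ i, sg (σ i) * (YY (O i)).eval a) ^ 2) -
      2 * cq * (a ^ 2 * (∑ i, sg (σ i) * (YY (O i)).eval a) ^ 2 +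
        a * (∑ i, sg (e i) * (XX (O i)).eval a) ^ 2)))
    (hc : ∀ D, RD D → ILe D (fun a => 2 * cq * (a ^ 2 * (∑ i, sg (σ i) * (YY (O i)).eval a) ^ 2 +
        a * (∑ i, sg (e i) * (XX (O i)).eval a) ^ 2)) (c' D)) :
    Good (fam σ e O) V' c' := by
  intro m S hS w t hR
  have hRD : RD (dee S) := ⟨hR.dee_nonneg, hR.dee_le⟩
  have hM : ∀ i ∈ (Finset.univ : Finset (Fin K)), MMaj S (ms S (cn (σ i) (e i) (O i)))
      (sg (σ i) • (1 - X * YY (O i))) (sg (e i) • XX (O i))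
      (nu w t fun a => sg (e i) * (XX (O i)).eval a) (nu w t (V i (dee S)))
      (nu w t (c i (dee S))) := fun i _ =>
    (h i).msg (σ i) (e i) (g := fun _ a => sg (e i) * (XX (O i)).eval a) (fun D a h => le_rfl)
      m S hS w t hR
  rw [fam_vS, fam_XX, fam_YY]
  set U' := ∑ i, sg (σ i) • YY (O i) with hU'
  set y' := ∑ i, sg (e i) • XX (O i) with hy'
  have hx' : ∑ i, sg (σ i) • (1 - X * YY (O i)) = C 0 - X * U' := by
    have h1 : ∀ i : Fin K, sg (σ i) • (1 - X * YY (O i)) =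
        C (sg (σ i)) - X * (sg (σ i) • YY (O i)) := by
      intro i
      rw [smul_sub, smul_eq_C_mul, mul_one, mul_smul_comm]
    rw [Finset.sum_congr rfl fun i _ => h1 i, Finset.sum_sub_distrib, ← Finset.mul_sum,
      ← map_sum, hτ]
  have hUe : ∀ a, U'.eval a = ∑ i, sg (σ i) * (YY (O i)).eval a := by
    intro a
    rw [hU', eval_finset_sum]
    exact Finset.sum_congr rfl fun i _ => by rw [eval_smul, smul_eq_mul]
  have hye : ∀ a, y'.eval a = ∑ i, sg (e i) * (XX (O i)).eval a := by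
    intro a
    rw [hy', eval_finset_sum]
    exact Finset.sum_congr rfl fun i _ => by rw [eval_smul, smul_eq_mul]
  have hen : en S (∑ i, sg (σ i) • (1 - X * YY (O i))) y' =
      nu w t fun a => a ^ 2 * U'.eval a ^ 2 + a * y'.eval a ^ 2 := by
    rw [hx', hR.en_nu]
    congr 1
    funext a
    simp only [eval_sub, eval_C, eval_mul, eval_X]
    ring
  have hen2 : en2 S U' y' = nu w t fun a => y'.eval a ^ 2 + a * U'.eval a ^ 2 := by
    unfold en2
    rw [hR.mo_nu]
    congr 1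
    funext a
    simp only [eval_add, eval_mul, eval_X]
    ring
  set ψ := (1 + l (dee S)) + (1 + 1 / l (dee S)) * dee S with hψ
  have hlD := hl _ hRD
  have hsup := sup_sq_le hS U' y' (l (dee S)) hlD
  refine MMaj.manyE hS Finset.univ _ _ _ _ _ _ hM cq (μ * ψ * en2 S U' y') hcq ?_ ?_ ?_
  · intro z
    rw [hx', ← hy']
    have h1 := st_sup hS 0 U' y' z
    rw [show (0 : ℝ) ^ 2 + en2 S U' y' = en2 S U' y' by ring] at h1
    have h2 := hexp _ _ h1
    have h3 : 0 ≤ 1 + st S (C 0 - X * U') y' z + cq * st S (C 0 - X * U') y' z ^ 2 := by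
      by_contra h
      push Not at h
      have h4 := mul_neg_of_pos_of_neg (Real.exp_pos (μ * (Real.sqrt (en2 S U' y') + mo S y') ^ 2)) h
      have := Real.exp_pos (st S (C 0 - X * U') y' z)
      linarith
    refine h2.trans (mul_le_mul_of_nonneg_right (Real.exp_le_exp.2 ?_) h3)
    have h5 := mul_le_mul_of_nonneg_left hsup hμ
    rw [← hψ] at h5
    linarith
  · have h1 := hb _ hRD m S hS w t hR rfl
    have h2 : (nu w t fun a => ∑ i, V i (dee S) a + ∑ i, sg (e i) * (XX (O i)).eval a -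
      μ * ((1 + l (dee S)) + (1 + 1 / l (dee S)) * dee S) *
        ((∑ i, sg (e i) * (XX (O i)).eval a) ^ 2 +
        a * (∑ i, sg (σ i) * (YY (O i)).eval a) ^ 2) -
      2 * cq * (a ^ 2 * (∑ i, sg (σ i) * (YY (O i)).eval a) ^ 2 +
        a * (∑ i, sg (e i) * (XX (O i)).eval a) ^ 2)) =
        ∑ i, nu w t (V i (dee S)) + ∑ i, (nu w t fun a => sg (e i) * (XX (O i)).eval a) -
          μ * ψ * en2 S U' y' - 2 * cq * en S (∑ i, sg (σ i) • (1 - X * YY (O i))) y' := by
      rw [hen, hen2, nu_sub, nu_sub, nu_add, nu_finset_sum, nu_finset_sum, nu_mul, nu_mul]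
      simp only [hUe, hye]
      rfl
    rw [h2] at h1
    exact h1
  · have h1 := hc _ hRD m S hS w t hR rfl
    rw [nu_mul] at h1
    rw [← hy', hen]
    simp only [hUe, hye]
    exact h1

end

end Pool.Agent.TSM
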