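import Pool.Agent.TSM.Exc
import Pool.Agent.TSM.Even

set_option autoImplicit false

/-!
# The rules of the excess form with all parameters chosen for every total mass (MP_d27362_co)
-/

namespace Pool.Agent.TSM

open Finset Polynomial
open Pool.Agent.TSP
open Pool.Agent.TSO
open Pool.Agent.TSR (OBr Ker)
open Pool.Agent.TLT (sg)

noncomputable section

/-- one child, excess form; `χ` is the charge per unit of excess (a function of `D` only) -/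
def UnE (χ : ℝ → ℝ) (D : ℝ) (x y V c V' c' : ℝ → ℝ) : Prop :=
  ∃ D1 χ0 K r κ σ0 s K1 K2 : ℝ, ∃ g Ex : ℝ → ℝ, OneE D D1 χ0 K r κ ∧
    LossC D1 σ0 s 1 K1 ∧ LossC D1 σ0 (χ D) (1 + χ D) K2 ∧ s ≤ χ D ∧
    ILe D g x ∧ ILe D g (fun _ => r) ∧ ILe D (fun _ => 0) Ex ∧
    ILe D (fun a => (1 - a * y a) ^ 2 + a * x a ^ 2) (fun a => 1 + Ex a) ∧
    ILe D V' (fun a => V a + (1 - χ0) * g a - K * Ex a) ∧
    ILe D V' (fun a => V a + g a - s * (c a - g a) - K1 * Ex a) ∧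
    ILe D V' (fun a => V a + g a - χ D * (c a - g a) - K2 * Ex a + χ D * c' a) ∧
    ILe D (fun _ => 0) c' ∧ ILe D (fun a => κ * g a) c'

theorem GoodE.un {χ : ℝ → ℝ} {O : OBr} {V c V' c' : ℝ → ℝ → ℝ} (h : GoodE χ O V c) (e : Bool)
    (x y : ℝ → ℝ) (hx : ∀ a, sg e * (XX O).eval a = x a) (hy : ∀ a, (YY O).eval a = y a)
    (H : ∀ D, RD D → UnE χ D x y (V D) (c D) (V' D) (c' D)) :
    GoodE χ (.mk [cn true e O]) V' c' := by
  classical
  have H' : ∀ D, ∃ D1 χ0 K r κ σ0 s K1 K2 : ℝ, ∃ g Ex : ℝ → ℝ, RD D → (OneE D D1 χ0 K r κ ∧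
    LossC D1 σ0 s 1 K1 ∧ LossC D1 σ0 (χ D) (1 + χ D) K2 ∧ s ≤ χ D ∧
    ILe D g x ∧ ILe D g (fun _ => r) ∧ ILe D (fun _ => 0) Ex ∧
    ILe D (fun a => (1 - a * y a) ^ 2 + a * x a ^ 2) (fun a => 1 + Ex a) ∧
    ILe D (V' D) (fun a => V D a + (1 - χ0) * g a - K * Ex a) ∧
    ILe D (V' D) (fun a => V D a + g a - s * (c D a - g a) - K1 * Ex a) ∧
    ILe D (V' D) (fun a => V D a + g a - χ D * (c D a - g a) - K2 * Ex a + χ D * c' D a) ∧
    ILe D (fun _ => 0) (c' D) ∧ ILe D (fun a => κ * g a) (c' D)) := by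
    intro D
    by_cases hD : RD D
    · obtain ⟨D1, χ0, K, r, κ, σ0, s, K1, K2, g, Ex, hh⟩ := H D hD
      exact ⟨D1, χ0, K, r, κ, σ0, s, K1, K2, g, Ex, fun _ => hh⟩
    · exact ⟨0, 0, 0, 0, 0, 0, 0, 0, 0, fun _ => 0, fun _ => 0, fun h => absurd h hD⟩
  choose D1 χ0 K r κ σ0 s K1 K2 g Ex hh using H'
  have hx' : (fun a => sg e * (XX O).eval a) = x := funext hx
  refine h.stem e D1 χ0 K r κ σ0 s K1 K2 g Ex (fun D hD => (hh D hD).1)
    (fun D hD => (hh D hD).2.1) (fun D hD => (hh D hD).2.2.1) (fun D hD => (hh D hD).2.2.2.1)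
    (fun D hD => ?_) (fun D hD => (hh D hD).2.2.2.2.2.1) (fun D hD => (hh D hD).2.2.2.2.2.2.1)
    (fun D hD => ?_) (fun D hD => (hh D hD).2.2.2.2.2.2.2.2.1)
    (fun D hD => (hh D hD).2.2.2.2.2.2.2.2.2.1) (fun D hD => (hh D hD).2.2.2.2.2.2.2.2.2.2.1)
    (fun D hD => (hh D hD).2.2.2.2.2.2.2.2.2.2.2.1)
    (fun D hD => (hh D hD).2.2.2.2.2.2.2.2.2.2.2.2)
  · rw [hx']
    exact (hh D hD).2.2.2.2.1
  · have h1 := (hh D hD).2.2.2.2.2.2.2.1
    have e1 : (fun a => (1 - a * (YY O).eval a) ^ 2 + a * (XX O).eval a ^ 2) =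
        fun a => (1 - a * y a) ^ 2 + a * x a ^ 2 := by
      funext a
      rw [hy, ← hx, mul_pow, sq (sg e), sg_mul_self, one_mul]
    rw [e1]
    exact h1

/-- two children, excess form; `x` the total gain, `E` the energy of the new state, `V`, `c` the
sums -/
def PrE (χ : ℝ → ℝ) (D : ℝ) (x E V c V' c' : ℝ → ℝ) : Prop :=
  ∃ r C κ η cψ : ℝ, ∃ g q : ℝ → ℝ, TwoE D r C κ η (χ D) cψ ∧
    ILe D g x ∧ ILe D g (fun _ => r) ∧ ILe D E q ∧
    ILe D V' (fun a => V a + η * g a - C * q a) ∧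
    ILe D V' (fun a => V a + g a - 1 / 2 * q a - cψ * (c a - g a)) ∧
    ILe D (fun a => C * q a) c'

theorem GoodE.pr {χ : ℝ → ℝ} {O1 O2 : OBr} {V1 c1 V2 c2 V' c' : ℝ → ℝ → ℝ}
    (h1 : GoodE χ O1 V1 c1) (h2 : GoodE χ O2 V2 c2) (σ1 e1 σ2 e2 : Bool) (x E : ℝ → ℝ)
    (hx : ∀ a, sg e1 * (XX O1).eval a + sg e2 * (XX O2).eval a = x a)
    (hE : ∀ a, (sg σ1 * (1 - a * (YY O1).eval a) + sg σ2 * (1 - a * (YY O2).eval a)) ^ 2 +
      a * x a ^ 2 = E a)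
    (H : ∀ D, RD D → PrE χ D x E (fun a => V1 D a + V2 D a) (fun a => c1 D a + c2 D a)
      (V' D) (c' D)) :
    GoodE χ (.mk [cn σ1 e1 O1, cn σ2 e2 O2]) V' c' := by
  classical
  have H' : ∀ D, ∃ r C κ η cψ : ℝ, ∃ g q : ℝ → ℝ, RD D → (TwoE D r C κ η (χ D) cψ ∧
    ILe D g x ∧ ILe D g (fun _ => r) ∧ ILe D E q ∧
    ILe D (V' D) (fun a => (V1 D a + V2 D a) + η * g a - C * q a) ∧
    ILe D (V' D) (fun a => (V1 D a + V2 D a) + g a - 1 / 2 * q a -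
      cψ * ((c1 D a + c2 D a) - g a)) ∧
    ILe D (fun a => C * q a) (c' D)) := by
    intro D
    by_cases hD : RD D
    · obtain ⟨r, C, κ, η, cψ, g, q, hh⟩ := H D hD
      exact ⟨r, C, κ, η, cψ, g, q, fun _ => hh⟩
    · exact ⟨0, 0, 0, 0, 0, fun _ => 0, fun _ => 0, fun h => absurd h hD⟩
  choose r C κ η cψ g q hh using H'
  have hx' : (fun a => sg e1 * (XX O1).eval a + sg e2 * (XX O2).eval a) = x := funext hx
  refine h1.pair h2 σ1 e1 σ2 e2 r C κ η cψ g q (fun D hD => (hh D hD).1)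
    (fun D hD => ?_) (fun D hD => (hh D hD).2.2.1)
    (fun D hD => ?_) (fun D hD => (hh D hD).2.2.2.2.1)
    (fun D hD => (hh D hD).2.2.2.2.2.1) (fun D hD => (hh D hD).2.2.2.2.2.2)
  · rw [hx']
    exact (hh D hD).2.1
  · have h3 := (hh D hD).2.2.2.1
    have e3 : (fun a => (sg σ1 * (1 - a * (YY O1).eval a) +
      sg σ2 * (1 - a * (YY O2).eval a)) ^ 2 + a * (sg e1 * (XX O1).eval a +
      sg e2 * (XX O2).eval a) ^ 2) = E := by
      funext a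
      rw [← hE, hx]
    rw [e3]
    exact h3

/-! ### many children -/

/-- Rule E in the excess form: the excesses of the children are absorbed by the bank -/
theorem MMajE.manyE {m : ℕ} {S : Fin m → Fin m → ℝ} (hK : Ker S) {ι : Type} (s : Finset ι)
    (f : ι → Fin m → ℝ) (x y : ι → ℝ[X]) (G0 b c : ι → ℝ) {χ : ℝ} (hχ : 0 ≤ χ)
    (h : ∀ i ∈ s, MMajE S (f i) (x i) (y i) (G0 i) χ (b i) (c i)) (cq mm : ℝ) (hcq : 0 ≤ cq)
    (hE : ∀ z, Real.exp (st S (∑ i ∈ s, x i) (∑ i ∈ s, y i) z) ≤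
      Real.exp mm * (1 + st S (∑ i ∈ s, x i) (∑ i ∈ s, y i) z +
        cq * st S (∑ i ∈ s, x i) (∑ i ∈ s, y i) z ^ 2)) {b' c' : ℝ}
    (hb : b' ≤ ∑ i ∈ s, b i + ∑ i ∈ s, G0 i - mm -
      2 * cq * en S (∑ i ∈ s, x i) (∑ i ∈ s, y i))
    (hc : 2 * cq * en S (∑ i ∈ s, x i) (∑ i ∈ s, y i) ≤ c') :
    Maj S (fun z => ∏ i ∈ s, f i z) (∑ i ∈ s, x i) (∑ i ∈ s, y i) b' c' := by
  choose! e he h1 using h
  refine MMaj.manyE hK s f x y G0 (fun i => b i + χ * e i) (fun i => c i + e i) h1 cq mm hcq hE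
    ?_ hc
  rw [sum_add_distrib, ← mul_sum]
  have := mul_nonneg hχ (sum_nonneg he)
  linarith

/-- **an even number of children** (`Σ σ = 0`), Rule E, excess form -/
theorem GoodE.even {χ : ℝ → ℝ} (hχ : ∀ D, RD D → 0 ≤ χ D) {K : ℕ} (O : Fin K → OBr)
    (σ e : Fin K → Bool) (V c : Fin K → ℝ → ℝ → ℝ)
    (h : ∀ i, GoodE χ (O i) (V i) (c i)) (hτ : ∑ i, sg (σ i) = 0) (cq μ : ℝ) (hcq : 0 ≤ cq)
    (hμ : 0 ≤ μ)
    (hexp : ∀ u w : ℝ, u ≤ w → Real.exp u ≤ Real.exp (μ * w ^ 2) * (1 + u + cq * u ^ 2))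
    (l : ℝ → ℝ) (hl : ∀ D, RD D → 0 < l D) {V' c' : ℝ → ℝ → ℝ}
    (hb : ∀ D, RD D → ILe D (V' D) (fun a => ∑ i, V i D a + ∑ i, sg (e i) * (XX (O i)).eval a -
      μ * ((1 + l D) + (1 + 1 / l D) * D) * ((∑ i, sg (e i) * (XX (O i)).eval a) ^ 2 +
        a * (∑ i, sg (σ i) * (YY (O i)).eval a) ^ 2) -
      2 * cq * (a ^ 2 * (∑ i, sg (σ i) * (YY (O i)).eval a) ^ 2 +
        a * (∑ i, sg (e i) * (XX (O i)).eval a) ^ 2)))
    (hc : ∀ D, RD D → ILe D (fun a => 2 * cq * (a ^ 2 * (∑ i, sg (σ i) * (YY (O i)).eval a) ^ 2 +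
        a * (∑ i, sg (e i) * (XX (O i)).eval a) ^ 2)) (c' D)) :
    GoodE χ (fam σ e O) V' c' := by
  intro m S hS w t hR
  have hRD : RD (dee S) := ⟨hR.dee_nonneg, hR.dee_le⟩
  have hM : ∀ i ∈ (Finset.univ : Finset (Fin K)), MMajE S (ms S (cn (σ i) (e i) (O i)))
      (sg (σ i) • (1 - X * YY (O i))) (sg (e i) • XX (O i))
      (nu w t fun a => sg (e i) * (XX (O i)).eval a) (χ (dee S)) (nu w t (V i (dee S)))
      (nu w t (c i (dee S))) := fun i _ => (h i).msg (σ i) (e i) hS hR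
  rw [fam_vS, fam_XX, fam_YY]
  set U' := ∑ i, sg (σ i) • YY (O i) with hU'
  set y' := ∑ i, sg (e i) • XX (O i) with hy'
  have hx' : ∑ i, sg (σ i) • (1 - X * YY (O i)) = C 0 - X * U' := by
    have h1 : ∀ i : Fin K, sg (σ i) • (1 - X * YY (O i)) =
        C (sg (σ i)) - X * (sg (σ i) • YY (O i)) := by
      intro i
      rw [smul_sub, smul_eq_C_mul, mul_one, mul_smul_comm]
    rw [Finset.sum_congr rfl fun i _ => h1 i, Finset.sum_sub_distrib, ← Finset.mul_sum,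
      ← map_sum, hτ]
  have hUe : ∀ a, U'.eval a = ∑ i, sg (σ i) * (YY (O i)).eval a := by
    intro a
    rw [hU', eval_finset_sum]
    exact Finset.sum_congr rfl fun i _ => by rw [eval_smul, smul_eq_mul]
  have hye : ∀ a, y'.eval a = ∑ i, sg (e i) * (XX (O i)).eval a := by
    intro a
    rw [hy', eval_finset_sum]
    exact Finset.sum_congr rfl fun i _ => by rw [eval_smul, smul_eq_mul]
  have hen : en S (∑ i, sg (σ i) • (1 - X * YY (O i))) y' =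
      nu w t fun a => a ^ 2 * U'.eval a ^ 2 + a * y'.eval a ^ 2 := by
    rw [hx', hR.en_nu]
    congr 1
    funext a
    simp only [eval_sub, eval_C, eval_mul, eval_X]
    ring
  have hen2 : en2 S U' y' = nu w t fun a => y'.eval a ^ 2 + a * U'.eval a ^ 2 := by
    unfold en2
    rw [hR.mo_nu]
    congr 1
    funext a
    simp only [eval_add, eval_mul, eval_X]
    ring
  set ψ := (1 + l (dee S)) + (1 + 1 / l (dee S)) * dee S with hψ
  have hlD := hl _ hRD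
  have hsup := sup_sq_le hS U' y' (l (dee S)) hlD
  refine (MMajE.manyE hS Finset.univ _ _ _ _ _ _ (hχ _ hRD) hM cq (μ * ψ * en2 S U' y') hcq
    ?_ ?_ ?_).toE _
  · intro z
    rw [hx', ← hy']
    have h1 := st_sup hS 0 U' y' z
    rw [show (0 : ℝ) ^ 2 + en2 S U' y' = en2 S U' y' by ring] at h1
    have h2 := hexp _ _ h1
    have h3 : 0 ≤ 1 + st S (C 0 - X * U') y' z + cq * st S (C 0 - X * U') y' z ^ 2 := by
      by_contra h
      push Not at h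
      have h4 := mul_neg_of_pos_of_neg (Real.exp_pos (μ * (Real.sqrt (en2 S U' y') + mo S y') ^ 2)) h
      have := Real.exp_pos (st S (C 0 - X * U') y' z)
      linarith
    refine h2.trans (mul_le_mul_of_nonneg_right (Real.exp_le_exp.2 ?_) h3)
    have h5 := mul_le_mul_of_nonneg_left hsup hμ
    rw [← hψ] at h5
    linarith
  · have h1 := hb _ hRD m S hS w t hR rfl
    have h2 : (nu w t fun a => ∑ i, V i (dee S) a + ∑ i, sg (e i) * (XX (O i)).eval a -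
      μ * ((1 + l (dee S)) + (1 + 1 / l (dee S)) * dee S) *
        ((∑ i, sg (e i) * (XX (O i)).eval a) ^ 2 +
        a * (∑ i, sg (σ i) * (YY (O i)).eval a) ^ 2) -
      2 * cq * (a ^ 2 * (∑ i, sg (σ i) * (YY (O i)).eval a) ^ 2 +
        a * (∑ i, sg (e i) * (XX (O i)).eval a) ^ 2)) =
        ∑ i, nu w t (V i (dee S)) + ∑ i, (nu w t fun a => sg (e i) * (XX (O i)).eval a) -
          μ * ψ * en2 S U' y' - 2 * cq * en S (∑ i, sg (σ i) • (1 - X * YY (O i))) y' := by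
      rw [hen, hen2, nu_sub, nu_sub, nu_add, nu_finset_sum, nu_finset_sum, nu_mul, nu_mul]
      simp only [hUe, hye]
      rfl
    rw [h2] at h1
    exact h1
  · have h1 := hc _ hRD m S hS w t hR rfl
    rw [nu_mul] at h1
    rw [← hy', hen]
    simp only [hUe, hye]
    exact h1

end

end Pool.Agent.TSM
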