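import Pool.Agent.TSM.KindD
import Pool.Agent.TSM.Kinds

set_option autoImplicit false

/-!
# Assembly for classes of trees, kinds with three children (MP_d27362_co)
-/

namespace Pool.Agent.TSM

open Finset Polynomial
open Pool.Agent.TSP
open Pool.Agent.TSO
open Pool.Agent.TSR (OBr Ker Br Red Cn2 leafB twoB sg_true sg_false vS_rev GoodBr rm red)
open Pool.Agent.TLT (sg)

noncomputable section

variable {Y : Sys} {Adm : ℕ → ℝ → ℝ → ℝ → ℝ → Prop} {V P : ℝ → ℝ → Sn → ℝ}

/-- **Every vertex has at most three neighbours which are not leaves** -/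
theorem asm_lbb (C : Cert Y Adm V P) (hL : PoT Y Adm V P true false 2) (n : ℕ)
    (T : SimpleGraph (Fin n)) (hT : T.IsTree) (h : ∀ v, nlN T v ≤ 3) : AntiT n T := by
  refine asm_p (fun _ b => b ≤ 2) (fun a b a' b' h1 h2 h3 => h2.trans h3)
    (fun a b h => h.trans (by norm_num)) C (fun lf tw L h1 h2 h3 hPO => ?_) n T hT fun v => ?_
  · rw [items_length] at h3
    have hlen : L.length = 2 := by omega
    have htw : tw = false := by
      cases tw
      · rfl
      · simp only [Bool.toNat_true] at h1
        omega
    have hlf : lf = true := by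
      cases lf
      · rw [htw] at h3
        simp only [Bool.toNat_false] at h3
        omega
      · rfl
    subst htw hlf
    obtain ⟨N, hI, hN⟩ := itD_exists true false L (PO Y Adm V P) hPO
    obtain ⟨tc, hTc⟩ := famT_exists hN hI.hM
    rw [hlen] at hI
    exact hL _ _ N tc hI hTc
  · have := h v
    show nlN T v - 1 ≤ 2
    omega

/-- **Every vertex has degree at most four or at most two neighbours which are not leaves** -/
theorem asm_four (C : Cert Y Adm V P) (hL : PoT Y Adm V P true false 2)
    (hP : PoT Y Adm V P false true 2) (hB : PoT Y Adm V P false false 3) (n : ℕ)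
    (T : SimpleGraph (Fin n)) (hT : T.IsTree)
    (h : ∀ v, (T.neighborSet v).ncard ≤ 4 ∨ nlN T v ≤ 2) : AntiT n T := by
  refine asm_p (fun a b => a ≤ 3 ∨ b ≤ 1) (fun a b a' b' h1 h2 h3 => ?_)
    (fun a b h => Or.inr h) C (fun lf tw L h1 h2 h3 hPO => ?_) n T hT fun v => ?_
  · rcases h3 with h3 | h3
    · exact Or.inl (h1.trans h3)
    · exact Or.inr (h2.trans h3)
  · rw [items_length] at h3
    have h4 : lf.toNat + tw.toNat + L.length = 3 := by
      rcases h1 with h1 | h1 <;> omega
    obtain ⟨N, hI, hN⟩ := itD_exists lf tw L (PO Y Adm V P) hPO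
    obtain ⟨tc, hTc⟩ := famT_exists hN hI.hM
    cases lf <;> cases tw <;> simp only [Bool.toNat_false, Bool.toNat_true] at h4
    · have hlen : L.length = 3 := by omega
      rw [hlen] at hI
      exact hB _ _ N tc hI hTc
    · have hlen : L.length = 2 := by omega
      rw [hlen] at hI
      exact hP _ _ N tc hI hTc
    · have hlen : L.length = 2 := by omega
      rw [hlen] at hI
      exact hL _ _ N tc hI hTc
    · omega
  · rcases h v with h1 | h1
    · exact Or.inl (by omega)
    · exact Or.inr (by omega)

end

end Pool.Agent.TSM
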