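import Pool.Agent.TSM.Fam6

set_option autoImplicit false

/-!
# The step with an odd number of children, a nontrivial child is split off: total inequality
(MP_d27362_co)
-/

namespace Pool.Agent.TSM

open Finset Polynomial
open Pool.Agent.TSP
open Pool.Agent.TSO
open Pool.Agent.TSR (OBr Ker)
open Pool.Agent.TLT (sg)
open Pool.Agent.TDN (dn dn_nonneg)

noncomputable section

variable {K : ℕ} {O : Fin K → OBr} {N : Finset (Fin K)}

/-! ### weights instead of roles -/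

/-- what is known about the signs of a family, with weights `w` for the values of the children -/
structure FamW {K : ℕ} (O : Fin K → OBr) (N : Finset (Fin K)) (σ e : Fin K → Bool) (w : Fin K → ℝ)
    (m f n vm fv : ℝ) (fg : ℝ := 2) : Prop where
  hO : FamO O N
  hm : (N.card : ℝ) ≤ m
  hU0 : 0 ≤ vU (fam σ e O)
  hU2 : vU (fam σ e O) ≤ 2
  hU3 : vU (fam σ e O) ^ 2 ≤ ∑ i, w i * vY (O i) ^ 2
  hUa : aU (fam σ e O) ^ 2 ≤ f * ∑ i, aY (O i) ^ 2
  hY : YY (fam σ e O) = C n - X * gU e O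
  hG2 : (gU e O).eval q0 ^ 2 ≤ vm
  hG3 : (gU e O).eval q0 ^ 2 ≤ fv * ∑ i, vU (O i) ^ 2
  hGa : dn q0 (gU e O) ^ 2 ≤ fg * ∑ i, aU (O i) ^ 2

variable {σ e ρ : Fin K → Bool} {w : Fin K → ℝ} {m f n vm fv fg : ℝ}

/-- the part of `U'` -/
theorem FamW.leU (h : FamW O N σ e w m f n vm fv fg) {a : ℝ} (h0 : 0 ≤ a) (h1 : a ≤ q0)
    {al B lU qU k Kx Kv Ka : ℝ} (hlU : 0 ≤ lU) (hW : Wt B 0 qU m f (th a) 4 1 k Kx Kv Ka) :
    al * (UU (fam σ e O)).eval a + B * (UU (fam σ e O)).eval a ^ 2 + lU * aU (fam σ e O) +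
      qU * aU (fam σ e O) ^ 2 ≤ k + ∑ i, (al * (sg (σ i) * (YY (O i)).eval a) +
        Kx * (YY (O i)).eval a ^ 2 + Kv * (w i * vY (O i) ^ 2) + Ka * aY (O i) ^ 2 +
        lU * aY (O i)) := by
  have e1 : (UU (fam σ e O)).eval a ^ 2 ≤ m * ∑ i, (YY (O i)).eval a ^ 2 := by
    rw [FamS.U_eq]
    exact sq_sum_le_N N m h.hm _ _ (fun i => sg_sq _) fun i hi => by rw [h.hO.YY0 hi, eval_zero]
  have e2 : vU (fam σ e O) ^ 2 ≤ 4 := by
    have := h.hU0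
    have := h.hU2
    nlinarith
  have e3 := hW.le e1 (U_near (fam σ e O) h0 h1) e2 (by rw [one_mul]; exact h.hU3) h.hUa
    (sum_nonneg fun i _ => sq_nonneg _) ((sq_nonneg _).trans h.hU3)
    (sum_nonneg fun i _ => sq_nonneg _)
  have e4 := mul_le_mul_of_nonneg_left (aU_fam_le σ e O) hlU
  have e5 : ∑ i, (al * (sg (σ i) * (YY (O i)).eval a) +
        Kx * (YY (O i)).eval a ^ 2 + Kv * (w i * vY (O i) ^ 2) + Ka * aY (O i) ^ 2 +
        lU * aY (O i)) =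
      al * (UU (fam σ e O)).eval a + Kx * ∑ i, (YY (O i)).eval a ^ 2 +
        Kv * ∑ i, w i * vY (O i) ^ 2 + Ka * ∑ i, aY (O i) ^ 2 + lU * ∑ i, aY (O i) := by
    rw [FamS.U_eq, mul_sum, mul_sum, mul_sum, mul_sum, mul_sum, ← sum_add_distrib,
      ← sum_add_distrib, ← sum_add_distrib, ← sum_add_distrib]
  rw [e5]
  linarith

/-- the part of `G` -/
theorem FamW.leG (h : FamW O N σ e w m f n vm fv fg) {a T : ℝ} (h0 : 0 ≤ a) (h1 : a ≤ q0)
    (hT : q0 ≤ T) {al B ly q1 q2 lam g be lam1 g1 kl k Kx Kv Ka : ℝ} (hC : Cre a lam g be)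
    (hC1 : Cre a lam1 g1 0) (hL : CreL kl) (hly : 0 ≤ ly) (hq1 : 0 ≤ q1) (hm0 : 0 ≤ m)
    (hW : WtC B q2 T lam g be m fg (th a) vm fv k Kx Kv Ka) :
    al * (gU e O).eval a + B * (gU e O).eval a ^ 2 + ly * aY (fam σ e O) +
      (q1 + q2) * aY (fam σ e O) ^ 2 ≤ k + ∑ i, (al * (sg (e i) * (UU (O i)).eval a) +
        Kx * (UU (O i)).eval a ^ 2 + (Kv + m * q1 * T ^ 2 * g1) * vU (O i) ^ 2 +
        (Ka + m * q1 * T ^ 2 * lam1) * aU (O i) ^ 2 +
        ly * T * kl * Real.sqrt (vU (O i) ^ 2 + aU (O i) ^ 2)) := by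
  have hq := q0_pos
  have hT0 : 0 ≤ T := hq.le.trans hT
  have hT2 : q0 ^ 2 ≤ T ^ 2 := pow_le_pow_left₀ hq.le hT 2
  have hg1 := hC1.g0
  have hlam1 := hC1.lam0
  have e1 : (gU e O).eval a ^ 2 ≤ m * ∑ i, (UU (O i)).eval a ^ 2 := by
    rw [FamS.G_eq]
    exact sq_sum_le_N N m h.hm _ _ (fun i => sg_sq _) fun i hi => by rw [h.hO.UU0 hi, eval_zero]
  have e6 : aY (fam σ e O) = dn q0 (X * gU e O) := by
    unfold aY
    rw [h.hY, TDN.dn_C_sub]
  have e3 := hW.le hC.lam0 hC.g0 hT e1 (TDN.abs_sub_le q0 q0_pos (gU e O) a h0 h1) h.hG2 h.hG3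
    h.hGa (hC.h (gU e O)) (sum_nonneg fun i _ => sq_nonneg _) (sum_nonneg fun i _ => sq_nonneg _)
    (sum_nonneg fun i _ => sq_nonneg _)
  rw [← e6] at e3
  -- the seminorm of `x`
  have hX : ∀ i, aX (O i) ≤ T * kl * Real.sqrt (vU (O i) ^ 2 + aU (O i) ^ 2) := fun i =>
    (aX_CL hL (O i)).trans (mul_le_mul_of_nonneg_right
      (mul_le_mul_of_nonneg_right hT hL.kl0) (Real.sqrt_nonneg _))
  have hX0 : ∀ i ∉ N, aX (O i) = 0 := by
    intro i hi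
    rcases h.hO.hN i hi with h | h <;> rw [h]
    · exact aX_nil
    · exact aX_two
  have e4 : aY (fam σ e O) ≤ ∑ i, T * kl * Real.sqrt (vU (O i) ^ 2 + aU (O i) ^ 2) :=
    (aY_fam_le σ e O).trans (sum_le_sum fun i _ => hX i)
  have e5 : aY (fam σ e O) ^ 2 ≤ m * (T ^ 2 * ∑ i, (g1 * vU (O i) ^ 2 + lam1 * aU (O i) ^ 2)) := by
    have g1 : aY (fam σ e O) ^ 2 ≤ (∑ i, 1 * aX (O i)) ^ 2 := by
      simp only [one_mul]
      exact pow_le_pow_left₀ (aY_nonneg _) (aY_fam_le σ e O) 2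
    have g2 := sq_sum_le_N N m h.hm (fun _ => (1 : ℝ)) (fun i => aX (O i)) (fun i => by norm_num)
      hX0
    refine g1.trans (g2.trans (mul_le_mul_of_nonneg_left ?_ hm0))
    rw [mul_sum]
    refine sum_le_sum fun i _ => (aX_C hC1 (O i)).trans ?_
    exact mul_le_mul_of_nonneg_right hT2 (by positivity)
  have e7 := mul_le_mul_of_nonneg_left e4 hly
  have e8 := mul_le_mul_of_nonneg_left e5 hq1
  have e10 : ∑ i, (al * (sg (e i) * (UU (O i)).eval a) +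
        Kx * (UU (O i)).eval a ^ 2 + (Kv + m * q1 * T ^ 2 * g1) * vU (O i) ^ 2 +
        (Ka + m * q1 * T ^ 2 * lam1) * aU (O i) ^ 2 +
        ly * T * kl * Real.sqrt (vU (O i) ^ 2 + aU (O i) ^ 2)) =
      al * (gU e O).eval a + Kx * ∑ i, (UU (O i)).eval a ^ 2 + Kv * ∑ i, vU (O i) ^ 2 +
        Ka * ∑ i, aU (O i) ^ 2 +
        q1 * (m * (T ^ 2 * ∑ i, (g1 * vU (O i) ^ 2 + lam1 * aU (O i) ^ 2))) +
        ly * ∑ i, T * kl * Real.sqrt (vU (O i) ^ 2 + aU (O i) ^ 2) := by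
    rw [FamS.G_eq]
    simp only [mul_sum]
    rw [← sum_add_distrib, ← sum_add_distrib, ← sum_add_distrib, ← sum_add_distrib,
      ← sum_add_distrib]
    refine sum_congr rfl fun i _ => ?_
    ring
  rw [e10]
  linarith

/-- **the total inequality**, with weights -/
theorem FamW.total (h : FamW O N σ e w m f n vm fv fg)
    {a : ℝ} (h0 : 0 ≤ a) (h1 : a ≤ q0) {p : NS} {κ : ℝ} {k : CT}
    (hs : Spl p a m f n vm fv κ k fg) (ty : ℕ) (tc : Fin K → ℕ) :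
    p.ev ((chd ty (fam σ e O)).sn a) ≤
      κ + ∑ i, k.ev (sg (σ i)) (sg (e i)) (w i) ((chd (tc i) (O i)).sn a) := by
  obtain ⟨T, q1, q2, lam, g, be, lam1, g1, kl, kU, kG, x1, v1, a1, x2, v2, a2, hT, hq1, hqy, hC,
    hC1, hL, hWU, hWG, hκ, hk⟩ := hs.ex
  have hU := h.leU (a := a) h0 h1 (al := p.al) hs.hlU hWU
  have hG := h.leG (a := a) h0 h1 hT (al := -(a * (p.ga + 2 * n * p.de))) hC hC1 hL hs.hly hq1
    hs.hm hWG
  have eY : (YY (fam σ e O)).eval a = n - a * (gU e O).eval a := by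
    rw [h.hY, eval_sub, eval_C, eval_mul, eval_X]
  have evU : vU (fam σ e O) = ∑ i, sg (σ i) * vY (O i) := FamS.U_eq O σ e q0
  have evY : vY (fam σ e O) = n - q0 * ∑ i, sg (e i) * vU (O i) := by
    have e3 := FamS.G_eq O e q0
    unfold vY
    rw [h.hY, eval_sub, eval_C, eval_mul, eval_X, e3]
    rfl
  have e1 : p.ev ((chd ty (fam σ e O)).sn a) = p.c + p.ga * n + p.de * n ^ 2 + p.dv * n +
      (p.cv * ∑ i, sg (σ i) * vY (O i) + -(q0 * p.dv) * ∑ i, sg (e i) * vU (O i)) +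
      (p.al * (UU (fam σ e O)).eval a + p.be * (UU (fam σ e O)).eval a ^ 2 +
        p.lU * aU (fam σ e O) + p.qU * aU (fam σ e O) ^ 2) +
      (-(a * (p.ga + 2 * n * p.de)) * (gU e O).eval a +
        a ^ 2 * p.de * (gU e O).eval a ^ 2 + p.ly * aY (fam σ e O) +
        (q1 + q2) * aY (fam σ e O) ^ 2) := by
    show p.c + p.al * (UU (fam σ e O)).eval a + p.be * (UU (fam σ e O)).eval a ^ 2 +
      p.ga * (YY (fam σ e O)).eval a + p.de * (YY (fam σ e O)).eval a ^ 2 +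
      p.lU * aU (fam σ e O) + p.qU * aU (fam σ e O) ^ 2 + p.ly * aY (fam σ e O) +
      p.qy * aY (fam σ e O) ^ 2 + p.cv * vU (fam σ e O) + p.dv * vY (fam σ e O) = _
    rw [eY, hqy, evU, evY]
    ring
  have e2 : ∑ i, k.ev (sg (σ i)) (sg (e i)) (w i) ((chd (tc i) (O i)).sn a) =
      (∑ i, (p.al * (sg (σ i) * (YY (O i)).eval a) +
        x1 * (YY (O i)).eval a ^ 2 + v1 * (w i * vY (O i) ^ 2) + a1 * aY (O i) ^ 2 +
        p.lU * aY (O i))) +
      ∑ i, (-(a * (p.ga + 2 * n * p.de)) * (sg (e i) * (UU (O i)).eval a) +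
        x2 * (UU (O i)).eval a ^ 2 + (v2 + m * q1 * T ^ 2 * g1) * vU (O i) ^ 2 +
        (a2 + m * q1 * T ^ 2 * lam1) * aU (O i) ^ 2 +
        p.ly * T * kl * Real.sqrt (vU (O i) ^ 2 + aU (O i) ^ 2)) +
      (p.cv * ∑ i, sg (σ i) * vY (O i) + -(q0 * p.dv) * ∑ i, sg (e i) * vU (O i)) := by
    rw [mul_sum, mul_sum, ← sum_add_distrib, ← sum_add_distrib, ← sum_add_distrib]
    refine sum_congr rfl fun i _ => ?_
    rw [hk]
    unfold CT.ev Chd.sn chd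
    dsimp only
    ring
  rw [e1, e2, hκ]
  linarith

/-! ### a nontrivial child is split off -/

/-- `Σ_{i ≠ L} σ_i y_i` -/
def gY2 (σ : Fin K → Bool) (O : Fin K → OBr) (L : Fin K) : ℝ[X] :=
  ∑ i ∈ univ.erase L, sg (σ i) • YY (O i)

/-- `Σ_{i ≠ L} e_i U_i` -/
def gU2 (e : Fin K → Bool) (O : Fin K → OBr) (L : Fin K) : ℝ[X] :=
  ∑ i ∈ univ.erase L, sg (e i) • UU (O i)

/-- what is known about the signs of a family with the child `L` split off -/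
structure FamL {K : ℕ} (O : Fin K → OBr) (N : Finset (Fin K)) (σ e ρ : Fin K → Bool) (L : Fin K)
    (m f f2 n nL nR vm fv v2m kL kR : ℝ) : Prop where
  hW : FamW O N σ e (fun i => if i = L then kL else kR * sg (ρ i)) m f n vm fv
  hL : L ∈ N
  hσL : σ L = true
  hσ : ∑ i, sg (σ i) = 1
  hv2 : (gY2 σ O L).eval q0 ^ 2 ≤ v2m
  hv3 : (gY2 σ O L).eval q0 ^ 2 ≤ ∑ i ∈ univ.erase L, sg (ρ i) * vY (O i) ^ 2
  hd2 : dn q0 (gY2 σ O L) ^ 2 ≤ f2 * ∑ i ∈ univ.erase L, aY (O i) ^ 2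
  hlab : sg (e L) * tau (O L) = nL
  hn : nL + nR = n

variable {L : Fin K} {f2 nL nR v2m kL kR : ℝ}

lemma FamL.U_eq (h : FamL O N σ e ρ L m f f2 n nL nR vm fv v2m kL kR) (a : ℝ) :
    (UU (fam σ e O)).eval a = (YY (O L)).eval a + (gY2 σ O L).eval a := by
  unfold gY2
  rw [FamS.U_eq, ← add_sum_erase univ _ (mem_univ L), h.hσL, TSR.sg_tt, one_mul,
    eval_finsetSum]
  congr 1
  exact sum_congr rfl fun i _ => by rw [eval_smul, smul_eq_mul]

lemma FamL.G_eq (e : Fin K → Bool) (O : Fin K → OBr) (L : Fin K) (a : ℝ) :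
    (gU e O).eval a = sg (e L) * (UU (O L)).eval a + (gU2 e O L).eval a := by
  unfold gU2
  rw [FamS.G_eq, ← add_sum_erase univ _ (mem_univ L), eval_finsetSum]
  congr 1
  exact sum_congr rfl fun i _ => by rw [eval_smul, smul_eq_mul]

/-- the gain of the child which is split off -/
lemma FamL.x_eq (h : FamL O N σ e ρ L m f f2 n nL nR vm fv v2m kL kR) (a : ℝ) :
    sg (e L) * (XX (O L)).eval a = nL - a * (sg (e L) * (UU (O L)).eval a) := by
  rw [← h.hlab]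
  unfold XX
  rw [eval_sub, eval_C, eval_mul, eval_X]
  ring

/-- the gain of the rest -/
lemma FamL.y_eq (h : FamL O N σ e ρ L m f f2 n nL nR vm fv v2m kL kR) (a : ℝ) :
    ∑ i ∈ univ.erase L, sg (e i) * (XX (O i)).eval a = nR - a * (gU2 e O L).eval a := by
  have h1 : (YY (fam σ e O)).eval a = sg (e L) * (XX (O L)).eval a +
      ∑ i ∈ univ.erase L, sg (e i) * (XX (O i)).eval a := by
    rw [fam_YY, eval_finsetSum, ← add_sum_erase univ _ (mem_univ L), eval_smul, smul_eq_mul]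
    congr 1
    exact sum_congr rfl fun i _ => by rw [eval_smul, smul_eq_mul]
  rw [h.hW.hY, eval_sub, eval_C, eval_mul, eval_X, FamL.G_eq e O L, h.x_eq] at h1
  have h2 := h.hn
  linarith

/-- the square of a sum over the rest -/
lemma sq_rest (hL : L ∈ N) (hm : (N.card : ℝ) ≤ m) (s x : Fin K → ℝ) (hs : ∀ i, s i ^ 2 = 1)
    (h0 : ∀ i ∉ N, x i = 0) :
    (∑ i ∈ univ.erase L, s i * x i) ^ 2 ≤ (m - 1) * ∑ i ∈ univ.erase L, x i ^ 2 := by
  have hsub : N.erase L ⊆ univ.erase L := erase_subset_erase L (subset_univ N)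
  have hz : ∀ i ∈ univ.erase L, i ∉ N.erase L → x i = 0 := by
    intro i hi hi2
    apply h0
    intro hi3
    exact hi2 (mem_erase.mpr ⟨(mem_erase.mp hi).1, hi3⟩)
  have e1 : ∑ i ∈ univ.erase L, s i * x i = ∑ i ∈ N.erase L, s i * x i := by
    rw [← sum_subset hsub]
    intro i hi hi2
    rw [hz i hi hi2, mul_zero]
  have e2 : ∑ i ∈ univ.erase L, x i ^ 2 = ∑ i ∈ N.erase L, x i ^ 2 := by
    rw [← sum_subset hsub]
    intro i hi hi2
    rw [hz i hi hi2]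
    norm_num
  rw [e1, e2]
  refine (sq_sum_le_card_mul_sum_sq (s := N.erase L) (f := fun i => s i * x i)).trans ?_
  have e3 : ∀ i, (s i * x i) ^ 2 = x i ^ 2 := fun i => by rw [mul_pow, hs, one_mul]
  simp only [e3]
  refine mul_le_mul_of_nonneg_right ?_ (sum_nonneg fun i _ => sq_nonneg _)
  have e4 : (((N.erase L).card : ℕ) : ℝ) + 1 = (N.card : ℝ) := by
    rw [← card_erase_add_one hL]
    push_cast
    ring
  linarith

/-- the data of one line: `al`, `la`, `b` are the factors of `lcr`, `ldl`, `lq2`; `MU`, `MY` are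
those of `a U2²`, `y2²`; `r1 y2 + r2 y2²` is the gain of the rest and `g1 x + g2 x²` that of `L`;
`k1`, `k2` split the mixed terms -/
structure LD where
  /-- factor of the mixed moment -/
  al : ℝ
  /-- factor of the second moment of `L` -/
  la : ℝ
  /-- factor of the second moment of the rest -/
  b : ℝ
  /-- factor of `a U2²` -/
  MU : ℝ
  /-- factor of `y2²` -/
  MY : ℝ
  /-- gain of the rest, factor of `y2` -/
  r1 : ℝ
  /-- gain of the rest, factor of `y2²` -/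
  r2 : ℝ
  /-- gain of `L`, factor of `x` -/
  g1 : ℝ
  /-- gain of `L`, factor of `x²` -/
  g2 : ℝ
  /-- mixed term of `y` -/
  k1 : ℝ
  /-- mixed term of `U` -/
  k2 : ℝ

/-- the factor of `U2²` -/
def LD.BU (d : LD) (a : ℝ) : ℝ := d.MU * a + d.b * a ^ 2 + d.al * a ^ 2 / (2 * d.k1)

/-- the factor of `G_R²` -/
def LD.BG (d : LD) (a : ℝ) : ℝ :=
  d.MY * a ^ 2 + d.b * a ^ 3 + d.al * a ^ 3 / (2 * d.k2) - d.r2 * a ^ 2

/-- the coefficients of a child of the rest -/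
def LD.cR (d : LD) (k : CT) (m nL nR kR x1 v1 a1 a : ℝ) : CT :=
  ⟨k.y1 - d.al * a, k.y2 + x1, k.w2 * kR + v1, k.b1, k.b2 + a1,
    k.u1 + d.r1 * a + 2 * (d.r2 * nR * a) - d.al * a ^ 2 * nL - 2 * (d.b * a ^ 2 * nR) -
      2 * (d.MY * nR * a),
    k.u2 + (m - 1) * d.BG a, k.v2, k.a2, k.l, k.w1, k.v1⟩

/-- the coefficients of the child which is split off -/
def LD.cL (d : LD) (k : CT) (nL nR kL a : ℝ) : CT :=
  ⟨k.y1 - 2 * a * d.la, k.y2 + d.la * a ^ 2 + d.al * a ^ 2 * d.k1 / 2, k.w2 * kL, k.b1, k.b2,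
    k.u1 - 2 * a ^ 2 * nL * d.la - d.al * a ^ 2 * nR + d.g1 * a + 2 * a * nL * d.g2,
    k.u2 + d.la * a ^ 3 + d.al * a ^ 3 * d.k2 / 2 - d.g2 * a ^ 2, k.v2, k.a2, k.l,
    k.w1, k.v1⟩

/-- the constant of one line -/
def LD.k0 (d : LD) (κ kU nL nR a : ℝ) : ℝ :=
  κ + kU + d.al * (a * (nL * nR)) + d.la * (1 + a * nL ^ 2) + d.b * (a * nR ^ 2) + d.MY * nR ^ 2 -
    (d.r1 * nR + d.r2 * nR ^ 2) - (d.g1 * nL + d.g2 * nL ^ 2)

/-- **the total inequality with the costs of the rule which splits off `L`** -/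
theorem FamL.total (h : FamL O N σ e ρ L m f f2 n nL nR vm fv v2m kL kR) {a : ℝ} (h0 : 0 ≤ a)
    (h1 : a ≤ q0)
    {p : NS} {κ : ℝ} {k : CT} (hs : Spl p a m f n vm fv κ k) (d : LD) (hal : 0 ≤ d.al)
    (hk1 : 0 < d.k1) (hk2 : 0 < d.k2) (hBG : 0 ≤ d.BG a) {kU x1 v1 a1 : ℝ}
    (hWt : Wt (d.BU a) 0 0 (m - 1) f2 (th a) v2m 1 kU x1 v1 a1) (ty : ℕ) (tc : Fin K → ℕ)
    {xL yL U2 y2 : ℝ → ℝ} (hxL : xL a = sg (e L) * (XX (O L)).eval a)
    (hyL : yL a = (YY (O L)).eval a) (hU2 : U2 a = (gY2 σ O L).eval a)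
    (hy2 : y2 a = ∑ i ∈ univ.erase L, sg (e i) * (XX (O i)).eval a) :
    p.ev ((chd ty (fam σ e O)).sn a) + d.al * lcr xL yL U2 y2 a + d.la * ldl xL yL a +
        d.b * lq2 U2 y2 a + (d.MU * (a * U2 a ^ 2) + d.MY * y2 a ^ 2) -
        (d.r1 * y2 a + d.r2 * y2 a ^ 2) - (d.g1 * xL a + d.g2 * xL a ^ 2) ≤
      d.k0 κ kU nL nR a +
        (d.cL k nL nR kL a).ev 1 (sg (e L)) 1 ((chd (tc L) (O L)).sn a) +
        ∑ i ∈ univ.erase L, (d.cR k m nL nR kR x1 v1 a1 a).ev (sg (σ i)) (sg (e i)) (sg (ρ i))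
          ((chd (tc i) (O i)).sn a) := by
  have t0 := h.hW.total h0 h1 hs ty tc
  rw [← add_sum_erase univ _ (mem_univ L)] at t0
  rw [if_pos rfl] at t0
  have t1 : ∑ i ∈ univ.erase L, k.ev (sg (σ i)) (sg (e i)) (if i = L then kL else kR * sg (ρ i))
      ((chd (tc i) (O i)).sn a) = ∑ i ∈ univ.erase L, k.ev (sg (σ i)) (sg (e i))
      (kR * sg (ρ i)) ((chd (tc i) (O i)).sn a) :=
    sum_congr rfl fun i hi => by rw [if_neg (ne_of_mem_erase hi)]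
  rw [t1] at t0
  -- the square of `U2`
  obtain ⟨u2, hu2⟩ : ∃ u2, u2 = (gY2 σ O L).eval a := ⟨_, rfl⟩
  obtain ⟨g2, hg2⟩ : ∃ g2, g2 = (gU2 e O L).eval a := ⟨_, rfl⟩
  have eu2 : u2 = ∑ i ∈ univ.erase L, sg (σ i) * (YY (O i)).eval a := by
    rw [hu2]
    unfold gY2
    rw [eval_finsetSum]
    exact sum_congr rfl fun i _ => by rw [eval_smul, smul_eq_mul]
  have eg2 : g2 = ∑ i ∈ univ.erase L, sg (e i) * (UU (O i)).eval a := by
    rw [hg2]
    unfold gU2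
    rw [eval_finsetSum]
    exact sum_congr rfl fun i _ => by rw [eval_smul, smul_eq_mul]
  have q1 : u2 ^ 2 ≤ (m - 1) * ∑ i ∈ univ.erase L, (YY (O i)).eval a ^ 2 := by
    rw [eu2]
    exact sq_rest h.hL h.hW.hm _ _ (fun i => sg_sq _) fun i hi => by
      rw [h.hW.hO.YY0 hi, eval_zero]
  have q2 : g2 ^ 2 ≤ (m - 1) * ∑ i ∈ univ.erase L, (UU (O i)).eval a ^ 2 := by
    rw [eg2]
    exact sq_rest h.hL h.hW.hm _ _ (fun i => sg_sq _) fun i hi => by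
      rw [h.hW.hO.UU0 hi, eval_zero]
  have q3 := hWt.le q1 (by rw [hu2]; exact TDN.abs_sub_le q0 q0_pos (gY2 σ O L) a h0 h1) h.hv2
    (by rw [one_mul]; exact h.hv3) h.hd2 (sum_nonneg fun i _ => sq_nonneg _)
    ((sq_nonneg _).trans h.hv3) (sum_nonneg fun i _ => sq_nonneg _)
  have q4 := mul_le_mul_of_nonneg_left q2 hBG
  -- the coordinates
  obtain ⟨y, hy⟩ : ∃ y, y = (YY (O L)).eval a := ⟨_, rfl⟩
  obtain ⟨x, hx⟩ : ∃ x, x = sg (e L) * (UU (O L)).eval a := ⟨_, rfl⟩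
  have hx2 : x ^ 2 = (UU (O L)).eval a ^ 2 := by rw [hx, mul_pow, sg_sq, one_mul]
  have eX : xL a = nL - a * x := by rw [hxL, h.x_eq, hx]
  have eY : yL a = y := by rw [hyL, hy]
  have eU : U2 a = u2 := by rw [hU2, hu2]
  have eG : y2 a = nR - a * g2 := by rw [hy2, h.y_eq, hg2]
  -- the mixed terms
  have c1 : d.al * a ^ 2 * (y * u2) ≤ d.al * a ^ 2 * (d.k1 / 2 * y ^ 2 + u2 ^ 2 / (2 * d.k1)) := by
    apply mul_le_mul_of_nonneg_left _ (by positivity)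
    rw [← sub_nonneg]
    have : d.k1 / 2 * y ^ 2 + u2 ^ 2 / (2 * d.k1) - y * u2 =
        (d.k1 * y - u2) ^ 2 / (2 * d.k1) := by
      field_simp
      ring
    rw [this]
    positivity
  have c2 : d.al * a ^ 3 * (x * g2) ≤ d.al * a ^ 3 * (d.k2 / 2 * x ^ 2 + g2 ^ 2 / (2 * d.k2)) := by
    apply mul_le_mul_of_nonneg_left _ (by positivity)
    rw [← sub_nonneg]
    have : d.k2 / 2 * x ^ 2 + g2 ^ 2 / (2 * d.k2) - x * g2 =
        (d.k2 * x - g2) ^ 2 / (2 * d.k2) := by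
      field_simp
      ring
    rw [this]
    positivity
  -- the sums
  have s1 : ∑ i ∈ univ.erase L, (d.cR k m nL nR kR x1 v1 a1 a).ev (sg (σ i)) (sg (e i)) (sg (ρ i))
      ((chd (tc i) (O i)).sn a) =
      (∑ i ∈ univ.erase L, k.ev (sg (σ i)) (sg (e i)) (kR * sg (ρ i))
        ((chd (tc i) (O i)).sn a)) - d.al * a * u2 +
      x1 * ∑ i ∈ univ.erase L, (YY (O i)).eval a ^ 2 +
      v1 * ∑ i ∈ univ.erase L, sg (ρ i) * vY (O i) ^ 2 +
      a1 * ∑ i ∈ univ.erase L, aY (O i) ^ 2 + (d.r1 * a + 2 * (d.r2 * nR * a) -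
        d.al * a ^ 2 * nL - 2 * (d.b * a ^ 2 * nR) - 2 * (d.MY * nR * a)) * g2 +
      (m - 1) * d.BG a * ∑ i ∈ univ.erase L, (UU (O i)).eval a ^ 2 := by
    rw [eu2, eg2]
    simp only [mul_sum]
    rw [← sum_sub_distrib, ← sum_add_distrib, ← sum_add_distrib, ← sum_add_distrib,
      ← sum_add_distrib, ← sum_add_distrib]
    refine sum_congr rfl fun i _ => ?_
    unfold LD.cR CT.ev Chd.sn chd
    dsimp only
    ring
  have s2 : (d.cL k nL nR kL a).ev 1 (sg (e L)) 1 ((chd (tc L) (O L)).sn a) =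
      k.ev (sg (σ L)) (sg (e L)) kL ((chd (tc L) (O L)).sn a) - 2 * a * d.la * y +
      (d.la * a ^ 2 + d.al * a ^ 2 * d.k1 / 2) * y ^ 2 +
      (d.g1 * a - 2 * a ^ 2 * nL * d.la - d.al * a ^ 2 * nR + 2 * a * nL * d.g2) * x +
      (d.la * a ^ 3 + d.al * a ^ 3 * d.k2 / 2 - d.g2 * a ^ 2) * x ^ 2 := by
    rw [h.hσL, TSR.sg_tt, hx2, hy, hx]
    unfold LD.cL CT.ev Chd.sn chd
    dsimp only
    ring
  rw [s1, s2]
  unfold lcr ldl lq2
  rw [eX, eY, eU, eG]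
  unfold LD.BU at q3
  unfold LD.BG at q4 ⊢
  unfold LD.k0
  have e3 : d.al * a ^ 2 / (2 * d.k1) * u2 ^ 2 = d.al * a ^ 2 * (u2 ^ 2 / (2 * d.k1)) := by ring
  have e4 : d.al * a ^ 3 / (2 * d.k2) * g2 ^ 2 = d.al * a ^ 3 * (g2 ^ 2 / (2 * d.k2)) := by ring
  have e5 : d.al * (-(a * (1 - a * y) * u2) + a * ((nL - a * x) * (nR - a * g2))) =
      d.al * (a * (nL * nR)) - d.al * a * u2 + d.al * a ^ 2 * (y * u2) - d.al * a ^ 2 * nL * g2 -
        d.al * a ^ 2 * nR * x + d.al * a ^ 3 * (x * g2) := by ring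
  rw [e5]
  linarith

end

end Pool.Agent.TSM
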