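import Pool.Agent.TSM.Five
import Pool.Agent.TSM.FamL

set_option autoImplicit false

/-!
# Families with an odd number of nontrivial children, factor 5/2 (MP_d27362_co)
-/

namespace Pool.Agent.TSR

open Finset Polynomial
open Pool.Agent.TLT (sg)
open Pool.Agent.TDN (dn dn_nonneg dn_zero dn_neg)

variable {T : ℝ}

/-- **signs for an odd number of members, factor 5/2** -/
theorem five_fam {ι : Type*} [Fintype ι] (hT : 0 ≤ T) (p : ι → ℝ[X]) (c : ℝ)
    (h0 : ∀ i, 0 ≤ (p i).eval T) (hc : ∀ i, (p i).eval T ≤ c) (hodd : Odd (Fintype.card ι))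
    (h5 : 5 ≤ Fintype.card ι) :
    ∃ s : ι → Bool, ∑ i, sg (s i) = 1 ∧
      0 ≤ (∑ i, sg (s i) • p i).eval T ∧ (∑ i, sg (s i) • p i).eval T ≤ c ∧
      (∑ i, sg (s i) • p i).eval T ^ 2 ≤ 2 * ∑ i, (p i).eval T ^ 2 ∧
      dn T (∑ i, sg (s i) • p i) ^ 2 ≤ f5 (Fintype.card ι / 2) * ∑ i, dn T (p i) ^ 2 := by
  obtain ⟨r, a, ha1, ha2, ha3, ha4⟩ := exists_seq (T := T) p h0
  obtain ⟨n, hn⟩ := hodd
  have hc0 : (a 0).eval T ≤ c := by
    rw [ha4 ⟨0, by omega⟩]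
    exact hc _
  obtain ⟨U, ⟨s, hs, hU⟩, g1, g2, g3, g4⟩ := five_seq hT ha1 ha2 hc0 (n := n) (by omega)
  have e0 : (fun i => a (0 + i)) = a := by
    funext i
    rw [zero_add]
  rw [e0, ← hn] at hU
  rw [← hn] at hs g4
  have e2 : U = ∑ i, sg (s (r.symm i)) • p i := by
    rw [← hU]
    exact ss_fam r p a ha4 s
  have e3 : ∑ i ∈ range (Fintype.card ι), dn T (a i) ^ 2 = ∑ i, dn T (p i) ^ 2 :=
    sum_sorted r (fun i => dn T (p i) ^ 2) _ fun i => by rw [ha4]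
  have e4 : ∑ i ∈ range (Fintype.card ι), (a i).eval T ^ 2 = ∑ i, (p i).eval T ^ 2 :=
    sum_sorted r (fun i => (p i).eval T ^ 2) _ fun i => by rw [ha4]
  have e5 : ∑ i ∈ range (Fintype.card ι), sg (s i) = ∑ i, sg (s (r.symm i)) :=
    sum_sorted r (fun i => sg (s (r.symm i))) _ fun i => by rw [Equiv.symm_apply_apply]
  have e6 : Fintype.card ι / 2 = n := by omega
  rw [e2] at g1 g2 g3 g4
  rw [e3] at g4
  refine ⟨fun i => s (r.symm i), by rw [← e5]; exact hs, g1, g2, ?_, by rw [e6]; exact g4⟩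
  have h1 : (a 0).eval T ^ 2 + (a 1).eval T ^ 2 ≤ ∑ i, (p i).eval T ^ 2 := by
    rw [← e4, hn, show 2 * n + 1 = (2 * n - 1) + 1 + 1 by omega, sum_range_succ', sum_range_succ']
    have : 0 ≤ ∑ k ∈ range (2 * n - 1), (a (k + 1 + 1)).eval T ^ 2 :=
      sum_nonneg fun _ _ => sq_nonneg _
    simp only [zero_add]
    linarith
  have h2 := pow_le_pow_left₀ g1 g3 2
  nlinarith [sq_nonneg ((a 0).eval T - (a 1).eval T)]

end Pool.Agent.TSR

namespace Pool.Agent.TSM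

open Finset Polynomial
open Pool.Agent.TSR (OBr five_fam f5)
open Pool.Agent.TLT (sg)
open Pool.Agent.TDN (dn dn_nonneg)

noncomputable section

variable {K : ℕ} {O : Fin K → OBr}

/-- **an odd number `K ≥ 5` of nontrivial children, symmetric rule, factor 5/2** (7/3 for `K = 5`)
-/
theorem famW5_exists (hO : FamO O univ) (hK : Odd K) (h5 : 5 ≤ K) :
    ∃ (σ e : Fin K → Bool) (n : ℕ), n = n1 O % 2 ∧ ∑ i, sg (σ i) = 1 ∧ Inv (fam σ e O) ∧
      ∀ m : ℝ, (K : ℝ) ≤ m →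
        FamW O univ σ e (fun _ => 2) m (f5 (K / 2)) n (16 - 12 * n) (4 - 3 * n) := by
  have hcd : Fintype.card (Fin K) = K := Fintype.card_fin K
  obtain ⟨s, h1, h2, h3, h4, h6⟩ := five_fam (T := q0) q0_pos.le
    (fun i => YY (O i)) 2 (fun i => (hO.hI i).2.2.2.1)
    (fun i => (hO.hI i).2.2.2.2) (by rw [hcd]; exact hK) (by rw [hcd]; exact h5)
  rw [hcd] at h6
  obtain ⟨e, n, hn, hY, hG, hy0, hy2, hG3, hGa⟩ := e_par O hO.hI
  have eU : UU (fam s e O) = ∑ i, sg (s i) • YY (O i) := by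
    rw [fam_UU]
  have k1 : 0 ≤ vU (fam s e O) := by unfold vU; rw [eU]; exact h2
  have k2 : vU (fam s e O) ≤ 2 := by unfold vU; rw [eU]; exact h3
  refine ⟨s, e, n, hn, h1, inv_fam (Or.inr (by rw [fam_tau]; exact h1)) k1 k2 (hY s) hy0 hy2,
    fun m hm => ⟨hO, by rw [card_univ, hcd]; exact hm, k1, k2, ?_, ?_, hY s, hG, hG3, hGa⟩⟩
  · rw [← mul_sum]
    unfold vU vY
    rw [eU]
    exact h4
  · unfold aU aY
    rw [eU]
    exact h6

end

end Pool.Agent.TSM
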