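import Pool.Agent.TSM.Dich2
import Pool.Agent.TSM.FamFive

set_option autoImplicit false

/-!
# Families with an odd number `≥ 5` of nontrivial children and no others (MP_d27362_co)

The signs of the `y` have the factor `7 / 3` or `5 / 2`; nothing is known about the value of the
new `U` besides its bounds. The labels are given.
-/

namespace Pool.Agent.TSM

open Finset Polynomial
open Pool.Agent.TSP
open Pool.Agent.TSO
open Pool.Agent.TSR (OBr Ker five_fam f5)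
open Pool.Agent.TLT (sg)
open Pool.Agent.TDN (dn dn_nonneg)

noncomputable section

variable {Y : Sys} {Adm : ℕ → ℝ → ℝ → ℝ → ℝ → Prop} {V P : ℝ → ℝ → Sn → ℝ} {χ : ℝ → ℝ}
  {K : ℕ} {O : Fin K → OBr} {N : Finset (Fin K)} {m : ℕ}

/-- the bounds may be enlarged -/
lemma FamS.mono {σ e ρ : Fin K → Bool} {m f n vm fv fg f' vm' fv' fg' : ℝ} {z : Bool}
    (h : FamS O N σ e ρ m f n vm fv fg z) (h1 : f ≤ f') (h2 : vm ≤ vm') (h3 : fv ≤ fv')
    (h4 : fg ≤ fg') : FamS O N σ e ρ m f' n vm' fv' fg' z := by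
  refine ⟨h.hO, h.hm, h.hU0, h.hU2, h.hU3, h.hUa.trans ?_, h.hY, h.hG2.trans h2,
    h.hG3.trans ?_, h.hGa.trans ?_⟩
  · exact mul_le_mul_of_nonneg_right h1 (sum_nonneg fun i _ => sq_nonneg _)
  · exact mul_le_mul_of_nonneg_right h3 (sum_nonneg fun i _ => sq_nonneg _)
  · exact mul_le_mul_of_nonneg_right h4 (sum_nonneg fun i _ => sq_nonneg _)

/-- the factor of the signs -/
def f57 (m : ℕ) : ℝ := if m = 5 then 7 / 3 else 5 / 2

/-- everything that is known about a family all of whose children are nontrivial, odd number -/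
structure FamZ (Y : Sys) (Adm : ℕ → ℝ → ℝ → ℝ → ℝ → Prop) (V P : ℝ → ℝ → Sn → ℝ)
    (m : ℕ) {K : ℕ} (O : Fin K → OBr) (N : Finset (Fin K)) (tc : Fin K → ℕ)
    (σ e ρ : Fin K → Bool) (n : ℕ) (vm fv : ℝ) (fg : ℝ := 2) : Prop where
  hI : ItD false false m O N
  hT : FamT Y Adm V P O N tc
  hn : n = c1 O N % 2
  hρ1 : ∑ i ∈ N, sg (ρ i) = 1
  hσ1 : ∑ i, sg (σ i) = 1
  hInv : Inv (fam σ e O)
  hS : ∀ M : ℝ, (m : ℝ) ≤ M → FamS O N σ e ρ M (f57 m) n vm fv fg true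
  hE : LabD O e n vm fv fg

/-- the signs exist -/
theorem famZ_exists (hodd : Odd m) (h5 : 5 ≤ m) (hI : ItD false false m O N) {tc : Fin K → ℕ}
    (hT : FamT Y Adm V P O N tc) {n : ℕ} (hn : n = c1 O N % 2) {e : Fin K → Bool}
    {vm fv fg : ℝ} (he : LabD O e n vm fv fg) :
    ∃ σ ρ : Fin K → Bool, FamZ Y Adm V P m O N tc σ e ρ n vm fv fg := by
  classical
  have hO := hT.hO
  have hcard := hI.hN
  have hKm : K = m := by
    have := hI.hK
    simpa using this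
  have hN : N = univ := by
    apply eq_univ_of_card
    rw [hcard, Fintype.card_fin, hKm]
  have hcd : Fintype.card (Fin K) = K := Fintype.card_fin K
  obtain ⟨s, h1, h2, h3, h4, h6⟩ := five_fam (T := q0) q0_pos.le
    (fun i => YY (O i)) 2 (fun i => (hO.hI i).2.2.2.1)
    (fun i => (hO.hI i).2.2.2.2) (by rw [hcd, hKm]; exact hodd) (by rw [hcd, hKm]; exact h5)
  rw [hcd] at h6
  have eU : UU (fam s e O) = ∑ i, sg (s i) • YY (O i) := by
    rw [fam_UU]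
  have k1 : 0 ≤ vU (fam s e O) := by unfold vU; rw [eU]; exact h2
  have k2 : vU (fam s e O) ≤ 2 := by unfold vU; rw [eU]; exact h3
  have hf : f5 (K / 2) = f57 m := by
    unfold f5 f57
    rw [hKm]
    obtain ⟨k, hk⟩ := hodd
    by_cases h7 : m = 5
    · rw [if_pos h7, if_pos (by omega)]
    · rw [if_neg h7, if_neg (by omega)]
  have k3 : aU (fam s e O) ^ 2 ≤ f57 m * ∑ i, aY (O i) ^ 2 := by
    rw [← hf]
    unfold aU aY
    rw [eU]
    exact h6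
  obtain ⟨ρ, hρ⟩ : ∃ ρ : Fin K → Bool, ∑ i ∈ N, sg (ρ i) = 1 := by
    obtain ⟨ρ, hρ⟩ := exists_bal N true
    exact ⟨ρ, by rw [hρ.2 (by rw [hcard]; exact hodd), TSR.sg_tt]⟩
  exact ⟨s, ρ, hI, hT, hn, hρ, h1, inv_fam (Or.inr (by rw [fam_tau]; exact h1)) k1 k2 (he.hY s)
    he.h0 he.h2, fun M hM => ⟨hO, by rw [hcard]; exact hM, k1, k2, trivial, k3, he.hY s, he.hG,
    he.hG3, he.hGa⟩, he⟩

/-- the obligations of a kind with an odd number of children, all of them nontrivial -/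
structure DichZ (Y : Sys) (Adm : ℕ → ℝ → ℝ → ℝ → ℝ → Prop) (V P : ℝ → ℝ → Sn → ℝ) (χ : ℝ → ℝ)
    (m : ℕ) : Prop where
  /-- label one -/
  h1 : ∀ {K : ℕ} (O : Fin K → OBr) (N : Finset (Fin K)) (tc : Fin K → ℕ)
    (σ e ρ : Fin K → Bool), FamZ Y Adm V P m O N tc σ e ρ 1 4 1 →
    ∃ ty : ℕ, ty ≠ 0 ∧ Adm ty (vU (fam σ e O)) (vY (fam σ e O)) (aU (fam σ e O))
      (aY (fam σ e O)) ∧ ∀ D, RD D → OdT V P χ O N tc σ e ty D
  /-- label zero, one class -/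
  hS : ∀ {K : ℕ} (O : Fin K → OBr) (N : Finset (Fin K)) (tc : Fin K → ℕ)
    (σ e ρ : Fin K → Bool), OneCl m (c1 O N) → FamZ Y Adm V P m O N tc σ e ρ 0 4 1 →
    ∃ ty : ℕ, ty ≠ 0 ∧ Adm ty (vU (fam σ e O)) (vY (fam σ e O)) (aU (fam σ e O))
      (aY (fam σ e O)) ∧ ∀ D, RD D → OdT V P χ O N tc σ e ty D
  /-- label zero, two classes, small spreads -/
  hA : ∀ {K : ℕ} (O : Fin K → OBr) (N : Finset (Fin K)) (tc : Fin K → ℕ)
    (σ e ρ : Fin K → Bool), ¬ OneCl m (c1 O N) → FamZ Y Adm V P m O N tc σ e ρ 0 4 2 →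
    ∃ ty : ℕ, ty ≠ 0 ∧ Adm ty (vU (fam σ e O)) (vY (fam σ e O)) (aU (fam σ e O))
      (aY (fam σ e O)) ∧ ∀ D, RD D → OdT V P χ O N tc σ e ty D
  /-- label zero, two classes, large spreads -/
  hB : ∀ {K : ℕ} (O : Fin K → OBr) (N : Finset (Fin K)) (tc : Fin K → ℕ)
    (σ e ρ : Fin K → Bool), ¬ OneCl m (c1 O N) → 2 ≤ ∑ i ∈ N, vU (O i) →
      (∃ i0 i1 j0 : Fin K, Tied O e i0 i1 j0) →
      FamZ Y Adm V P m O N tc σ e ρ 0 4 1 3 →
    ∃ ty : ℕ, ty ≠ 0 ∧ Adm ty (vU (fam σ e O)) (vY (fam σ e O)) (aU (fam σ e O))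
      (aY (fam σ e O)) ∧ ∀ D, RD D → OdT V P χ O N tc σ e ty D

/-- **one kind with an odd number `≥ 5` of children, all of them nontrivial** -/
theorem poT_allD (hY : Y.G = GoodE χ) (hχ : ∀ D, RD D → 0 ≤ χ D) (hodd : Odd m) (h5 : 5 ≤ m)
    (H : DichZ Y Adm V P χ m) : PoT Y Adm V P false false m := by
  intro K O N tc hI hT
  have hKm : K = m := by
    have := hI.hK
    simpa using this
  obtain ⟨e, n, hn, hcase⟩ := labD_nopath hI hT.hO
  rw [Bool.toNat_false, zero_add] at hn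
  have key : ∀ {vm fv fg : ℝ}, LabD O e n vm fv fg → (∀ σ ρ : Fin K → Bool,
      FamZ Y Adm V P m O N tc σ e ρ n vm fv fg → ∃ ty : ℕ, ty ≠ 0 ∧ Adm ty (vU (fam σ e O))
      (vY (fam σ e O)) (aU (fam σ e O)) (aY (fam σ e O)) ∧
      ∀ D, RD D → OdT V P χ O N tc σ e ty D) → ∃ σ e : Fin K → Bool, PO Y Adm V P (fam σ e O) := by
    intro vm fv fg he H1
    obtain ⟨σ, ρ, hF⟩ := famZ_exists hodd h5 hI hT hn he
    obtain ⟨ty, hty, hA, h4⟩ := H1 σ ρ hF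
    exact ⟨σ, e, po_S hY hχ (by omega) hT hF.hσ1 hF.hInv hty hA h4⟩
  rcases hcase with ⟨rfl, he⟩ | ⟨rfl, h1, he⟩ | ⟨rfl, h1, he⟩ | ⟨rfl, h1, he, hs, ht⟩
  · exact key he fun σ ρ hF => H.h1 O N tc σ e ρ hF
  · exact key he fun σ ρ hF => H.hS O N tc σ e ρ h1 hF
  · exact key he fun σ ρ hF => H.hA O N tc σ e ρ h1 hF
  · exact key he fun σ ρ hF => H.hB O N tc σ e ρ h1 hs ht hF

end

end Pool.Agent.TSM
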