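import Pool.Agent.TSM.NormR
import Pool.Agent.TSM.NormW
import Pool.Agent.TSM.FamZ

set_option autoImplicit false

/-!
# Families without the path, label zero: the labels with the full norm (MP_d27362_co)

The new label is zero and there are two classes. Either the value of `G` is at most two and all
flips are free, or the sum of the `v_U` with the signs of the roles is at least two and the flips
are chosen with the full norm.
-/

namespace Pool.Agent.TSM

open Finset Polynomial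
open Pool.Agent.TSP
open Pool.Agent.TSO
open Pool.Agent.TSR (OBr Ker norm_dich nn)
open Pool.Agent.TLT (sg)
open Pool.Agent.TDN (dn dn_nonneg)

noncomputable section

variable {Y : Sys} {Adm : ℕ → ℝ → ℝ → ℝ → ℝ → Prop} {V P : ℝ → ℝ → Sn → ℝ} {χ : ℝ → ℝ}
  {K : ℕ} {O : Fin K → OBr} {N : Finset (Fin K)} {lf tw : Bool} {m : ℕ}

/-- the full norm and the sums of the roles -/
structure NRd (m : ℕ) {K : ℕ} (O : Fin K → OBr) (N : Finset (Fin K)) (e r : Fin K → Bool)
    (κ : ℝ) : Prop where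
  hN : NR O e r κ
  /-- the sum of the roles over the class `τ = 1` -/
  hr1 : ∑ i ∈ N.filter (fun i => tau (O i) = 1), sg (r i) = 0
  /-- the sum of the roles over the class `τ = 0`, even number -/
  hr0 : Even m → ∑ i ∈ N.filter (fun i => ¬ tau (O i) = 1), sg (r i) = 0
  /-- the sum of the roles over the class `τ = 0`, odd number -/
  hr0' : Odd m → ∑ i ∈ N.filter (fun i => ¬ tau (O i) = 1), sg (r i) = 1

/-- the value of `G` is not positive -/
lemma LabD.G0 {e : Fin K → Bool} {vm fv fg : ℝ} (h : LabD O e 0 vm fv fg) :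
    (gU e O).eval q0 ≤ 0 := by
  have h1 := h.h0
  rw [Nat.cast_zero, zero_sub] at h1
  have := q0_pos
  nlinarith

/-- the new value `v_y` -/
lemma NRd.vY_le {e r : Fin K → Bool} {κ vm fv fg : ℝ} (h : NRd m O N e r κ)
    (hE : LabD O e 0 vm fv fg) (σ : Fin K → Bool) : vY (fam σ e O) ≤ 4 * q0 := by
  have h5 := (abs_le.mp h.hN.h5).1
  have hq := q0_pos
  unfold vY
  rw [hE.hY σ, eval_sub, eval_C, eval_mul, eval_X, Nat.cast_zero]
  nlinarith

/-- labels with the sum zero and the value at most four; the bounds with the number of the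
nontrivial children are trivial -/
lemma labD_four (hO : FamO O N) (hm : N.card = m) {e : Fin K → Bool}
    (hs : ∑ k, sg (e k) * tau (O k) = 0) (h4 : |(gU e O).eval q0| ≤ 4)
    (h0 : (gU e O).eval q0 ≤ 0) : LabD O e 0 16 m m := by
  have hq := q0_pos
  have hq1 := q0_le
  have hm' : (N.card : ℝ) ≤ m := by rw [hm]
  have g1 := (abs_le.mp h4).1
  refine ⟨fun σ => by rw [YY_sum, hs, Nat.cast_zero], ?_, ?_, ?_, ?_, ?_⟩
  · nlinarith
  · rw [Nat.cast_zero]
    nlinarith
  · rw [Nat.cast_zero]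
    nlinarith
  · have e1 : (gU e O).eval q0 = ∑ i, sg (e i) * vU (O i) := FamS.G_eq O e q0
    rw [e1]
    exact sq_sum_le_N N m hm' _ _ (fun i => sg_sq _) fun i hi => by
      unfold vU
      rw [hO.UU0 hi, eval_zero]
  · have e1 : dn q0 (gU e O) ^ 2 ≤ (∑ i, 1 * aU (O i)) ^ 2 := by
      simp only [one_mul]
      exact pow_le_pow_left₀ (dn_nonneg _ _) (gU_dn_le e O) 2
    refine e1.trans ?_
    exact sq_sum_le_N N m hm' (fun _ => (1 : ℝ)) (fun i => aU (O i)) (fun i => by norm_num)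
      fun i hi => by
        unfold aU
        rw [hO.UU0 hi, TDN.dn_zero]

/-- **the dichotomy with the full norm** -/
theorem labN_dich (hI : ItD lf false m O N) (hO : FamO O N) (hc : Even (c1 O N)) {κ : ℝ}
    (hκ : 0 ≤ κ) : (∃ e : Fin K → Bool, LabD O e 0 4 2) ∨
      ∃ e r : Fin K → Bool, NRd m O N e r κ ∧ LabD O e 0 16 m m := by
  classical
  have h := hO.hI
  have S1 : ∀ f : Fin K → ℝ, (∀ i ∉ N, f i = 0) → ∑ i, f i = ∑ i : N, f i := by
    intro f hf
    rw [sum_coe_sort N f, ← sum_subset (subset_univ N)]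
    intro i _ hi
    exact hf i hi
  have S2 : ∀ f : Fin K → ℝ[X], (∀ i ∉ N, f i = 0) → ∑ i, f i = ∑ i : N, f i := by
    intro f hf
    rw [sum_coe_sort N f, ← sum_subset (subset_univ N)]
    intro i _ hi
    exact hf i hi
  -- the classes
  have C1 : ∀ f : Fin K → ℝ, ∑ i : {i : N // tau (O i) = 1}, f i.1 =
      ∑ i ∈ N.filter (fun i => tau (O i) = 1), f i := by
    intro f
    rw [sum_filter, ← sum_coe_sort N, ← sum_filter]
    exact (sum_subtype (univ.filter fun i : N => tau (O i) = 1) (fun i => by simp)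
      (fun i : N => f i)).symm
  have C0 : ∀ f : Fin K → ℝ, ∑ i : {i : N // ¬ tau (O i) = 1}, f i.1 =
      ∑ i ∈ N.filter (fun i => ¬ tau (O i) = 1), f i := by
    intro f
    rw [sum_filter, ← sum_coe_sort N, ← sum_filter]
    exact (sum_subtype (univ.filter fun i : N => ¬ tau (O i) = 1) (fun i => by simp)
      (fun i : N => f i)).symm
  have k1 : Fintype.card {i : N // tau (O i) = 1} = c1 O N := by
    have h1 := C1 fun _ => 1
    simp only [sum_const, card_univ, nsmul_eq_mul, mul_one] at h1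
    exact_mod_cast h1
  have k0 : Fintype.card {i : N // ¬ tau (O i) = 1} = m - c1 O N := by
    have h1 := Fintype.card_subtype_compl fun i : N => tau (O i) = 1
    rw [k1, Fintype.card_coe, hI.hN] at h1
    exact h1
  have hcm : c1 O N ≤ m := by
    rw [← hI.hN]
    exact card_filter_le _ _
  obtain ⟨r, hr1, hr0, hr0', hcase⟩ := norm_dich (T := q0) (fun i : N => tau (O i) = 1)
    q0_pos.le (by rw [k1]; exact hc) (fun i : N => UU (O i)) 2 (by norm_num)
    (fun i => (h i).2.1) (fun i => (h i).2.2.1) hκ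
  -- extension of signs
  obtain ⟨ext, hext⟩ : ∃ ext : (N → Bool) → Fin K → Bool, ∀ s (i : N), ext s i = s i :=
    ⟨fun s i => if hi : i ∈ N then s ⟨i, hi⟩ else true, fun s i => by
      show (if hi : (i : Fin K) ∈ N then s ⟨i, hi⟩ else true) = s i
      rw [dif_pos i.2]⟩
  have hG : ∀ s : N → Bool, gU (ext s) O = ∑ i : N, sg (s i) • UU (O i) := by
    intro s
    unfold gU
    rw [S2 _ fun i hi => by rw [hO.UU0 hi, smul_zero]]
    exact sum_congr rfl fun i _ => by rw [hext]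
  have hlab : ∀ s : N → Bool, ∑ i : {i : N // tau (O i) = 1}, sg (s i) = 0 →
      ∑ k, sg (ext s k) * tau (O k) = 0 := by
    intro s hs
    rw [S1 _ fun i hi => by rw [hI.ht' rfl i hi, tau_nil, mul_zero],
      TSR.sum_cl fun i : N => tau (O i) = 1]
    have h2 : ∑ i : {i : N // ¬ tau (O i) = 1}, sg (ext s i) * tau (O i) = 0 := by
      refine sum_eq_zero fun i _ => ?_
      rcases (h i).1 with h3 | h3
      · rw [h3, mul_zero]
      · exact absurd h3 i.2
    rw [h2, add_zero, ← hs]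
    exact sum_congr rfl fun i _ => by rw [i.2, mul_one, hext]
  have hv : ∑ i, vU (O i) ^ 2 = ∑ i : N, (UU (O i)).eval q0 ^ 2 := by
    rw [S1 _ fun i hi => by unfold vU; rw [hO.UU0 hi, eval_zero]; norm_num]
    rfl
  have ha : ∑ i, aU (O i) ^ 2 = ∑ i : N, dn q0 (UU (O i)) ^ 2 := by
    rw [S1 _ fun i hi => by unfold aU; rw [hO.UU0 hi, TDN.dn_zero]; norm_num]
    rfl
  rcases hcase with ⟨s, h1, h2, h3, h4⟩ | ⟨hlt, s, h1, hB⟩
  · left
    obtain ⟨e', _, _, he'⟩ := labD_zero_gen (vm := 4) (fv := 2) (fg := 2) (hlab s h1) le_rfl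
      (by
        rw [hG, ← sq_abs]
        have := pow_le_pow_left₀ (abs_nonneg _) h2 2
        linarith) (by rw [hG, hv]; exact h3) (by rw [hG, ha]; exact h4)
    exact ⟨e', he'⟩
  · right
    have hr2 : ∑ i, sg (ext r i) * vU (O i) ^ 2 =
        ∑ i : N, sg (r i) * (UU (O i)).eval q0 ^ 2 := by
      rw [S1 _ fun i hi => by unfold vU; rw [hO.UU0 hi, eval_zero]; norm_num]
      exact sum_congr rfl fun i _ => by rw [hext]; rfl
    have hr3 : ∑ i, sg (ext r i) * vU (O i) = ∑ i : N, sg (r i) * (UU (O i)).eval q0 := by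
      rw [S1 _ fun i hi => by unfold vU; rw [hO.UU0 hi, eval_zero, mul_zero]]
      exact sum_congr rfl fun i _ => by rw [hext]; rfl
    have key : ∀ e' : Fin K → Bool, (e' = ext s ∨ e' = fun i => !(ext s i)) →
        NR O e' (ext r) κ := by
      intro e' he'
      have n1 := hB.h1
      have n2 := hB.h2
      have n3 := hB.h3
      have n4 := hB.h4
      have n5 := hB.h5
      unfold nn at n1 n2 n3
      have g1 : (gU e' O).eval q0 ^ 2 = (gU (ext s) O).eval q0 ^ 2 := by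
        rcases he' with rfl | rfl
        · rfl
        · rw [gU_not, eval_neg, neg_sq]
      have g2 : dn q0 (gU e' O) = dn q0 (gU (ext s) O) := by
        rcases he' with rfl | rfl
        · rfl
        · rw [gU_not, TDN.dn_neg]
      have g3 : |(gU e' O).eval q0| = |(gU (ext s) O).eval q0| := by
        rcases he' with rfl | rfl
        · rfl
        · rw [gU_not, eval_neg, abs_neg]
      rw [← hG, ← hv, ← ha] at n1
      rw [← hG, ← hr2, ← ha] at n2
      rw [← hG, ← hr3, ← ha] at n3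
      rw [← hG, ← hr3] at n4
      rw [← hG] at n5
      refine ⟨by rw [g1, g2]; exact n1, by rw [g1, g2]; exact n2, by rw [g1, g2]; exact n3,
        by rw [g3]; exact n4, by rw [g3]; linarith, ?_⟩
      rw [hr3]
      exact hlt.le
    have kr : ∀ e' : Fin K → Bool, (e' = ext s ∨ e' = fun i => !(ext s i)) →
        NRd m O N e' (ext r) κ := by
      intro e' he'
      refine ⟨key e' he', ?_, fun hE => ?_, fun hO' => ?_⟩
      · rw [← C1, ← hr1]
        exact sum_congr rfl fun i _ => by rw [hext]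
      · rw [← C0, ← hr0 (by rw [k0]; exact (Nat.even_sub hcm).mpr (by simp [hE, hc]))]
        exact sum_congr rfl fun i _ => by rw [hext]
      · have g1 := hr0' (by
          rw [k0]
          exact Nat.Odd.sub_even hcm hO' hc)
        refine (C0 fun i => sg (ext r i)).symm.trans (Eq.trans ?_ g1)
        exact sum_congr rfl fun i _ => by rw [hext]
    have h5 : |(gU (ext s) O).eval q0| ≤ 4 := (key _ (Or.inl rfl)).h5
    rcases le_total ((gU (ext s) O).eval q0) 0 with h6 | h6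
    · exact ⟨_, _, kr _ (Or.inl rfl), labD_four hO hI.hN (hlab s h1) h5 h6⟩
    · refine ⟨_, _, kr _ (Or.inr rfl), labD_four hO hI.hN ?_ ?_ ?_⟩
      · have : ∀ k, sg (!(ext s k)) * tau (O k) = -(sg (ext s k) * tau (O k)) := by
          intro k
          rw [TSR.sg_not']
          ring
        rw [sum_congr rfl fun k _ => this k, sum_neg_distrib, hlab s h1, neg_zero]
      · rw [gU_not, eval_neg, abs_neg]
        exact h5
      · rw [gU_not, eval_neg]
        linarith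

/-- **labels without the path**: four cases, the last one with the full norm -/
theorem labN_nopath (hI : ItD lf false m O N) (hO : FamO O N) {κ : ℝ} (hκ : 0 ≤ κ) :
    ∃ (e : Fin K → Bool) (n : ℕ), n = (false.toNat + c1 O N) % 2 ∧
      ((n = 1 ∧ LabD O e 1 4 1) ∨ (n = 0 ∧ OneCl m (c1 O N) ∧ LabD O e 0 4 1) ∨
        (n = 0 ∧ ¬ OneCl m (c1 O N) ∧ LabD O e 0 4 2) ∨
        (n = 0 ∧ ¬ OneCl m (c1 O N) ∧ LabD O e 0 16 m m ∧ ∃ r : Fin K → Bool,
          NRd m O N e r κ)) := by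
  have hn1 := hI.n1
  rw [Bool.toNat_false, zero_add] at hn1
  rcases Nat.even_or_odd (c1 O N) with hc | hc
  · have hn : 0 = (false.toNat + c1 O N) % 2 := by
      rw [Bool.toNat_false, zero_add]
      exact (Nat.even_iff.mp hc).symm
    by_cases h1 : OneCl m (c1 O N)
    · obtain ⟨e, he⟩ := labD_single hO (by rw [hn1]; exact hc) (oneCl_tau hO hI.hN h1)
      exact ⟨e, 0, hn, Or.inr (Or.inl ⟨rfl, h1, he⟩)⟩
    · rcases labN_dich hI hO hc hκ with ⟨e, he⟩ | ⟨e, r, hr, he⟩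
      · exact ⟨e, 0, hn, Or.inr (Or.inr (Or.inl ⟨rfl, h1, he⟩))⟩
      · exact ⟨e, 0, hn, Or.inr (Or.inr (Or.inr ⟨rfl, h1, he, r, hr⟩))⟩
  · obtain ⟨e, n, hn, he⟩ := labD_exists hO
    have hn' : n = 1 := by
      rw [hn, hn1]
      exact Nat.odd_iff.mp hc
    subst hn'
    have e1 : (16 : ℝ) - 12 * ((1 : ℕ) : ℝ) = 4 := by norm_num
    have e2 : (4 : ℝ) - 3 * ((1 : ℕ) : ℝ) = 1 := by norm_num
    rw [e1, e2] at he
    exact ⟨e, 1, by rw [hn, hn1, Bool.toNat_false, zero_add], Or.inl ⟨rfl, he⟩⟩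

/-- the obligations of a kind without the path; `Q` is what has to be shown for the signs, `κ`
is the constant of the full norm -/
structure NormO (Y : Sys) (Adm : ℕ → ℝ → ℝ → ℝ → ℝ → Prop) (V P : ℝ → ℝ → Sn → ℝ) (lf : Bool)
    (m : ℕ) (κ : ℝ) (Q : ∀ {K : ℕ}, (Fin K → OBr) → Finset (Fin K) → (Fin K → ℕ) →
      (Fin K → Bool) → (Fin K → Bool) → Prop) : Prop where
  hκ : 0 ≤ κ
  /-- label one -/
  h1 : ∀ {K : ℕ} (O : Fin K → OBr) (N : Finset (Fin K)) (tc : Fin K → ℕ)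
    (σ e ρ : Fin K → Bool), FamKV Y Adm V P lf false m O N tc σ e ρ 1 4 1 → Q O N tc σ e
  /-- label zero, one class -/
  hS : ∀ {K : ℕ} (O : Fin K → OBr) (N : Finset (Fin K)) (tc : Fin K → ℕ)
    (σ e ρ : Fin K → Bool), OneCl m (c1 O N) →
      FamKV Y Adm V P lf false m O N tc σ e ρ 0 4 1 → Q O N tc σ e
  /-- label zero, two classes, small spreads -/
  hA : ∀ {K : ℕ} (O : Fin K → OBr) (N : Finset (Fin K)) (tc : Fin K → ℕ)
    (σ e ρ : Fin K → Bool), ¬ OneCl m (c1 O N) →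
      FamKV Y Adm V P lf false m O N tc σ e ρ 0 4 2 → Q O N tc σ e
  /-- label zero, two classes, large spreads -/
  hN : ∀ {K : ℕ} (O : Fin K → OBr) (N : Finset (Fin K)) (tc : Fin K → ℕ)
    (σ e ρ r : Fin K → Bool), ¬ OneCl m (c1 O N) → NRd m O N e r κ →
      FamKV Y Adm V P lf false m O N tc σ e ρ 0 16 m m → Q O N tc σ e

/-- **one kind with an even number of children without the path**, full norm -/
theorem poT_evenN (hY : Y.G = GoodE χ) (hχ : ∀ D, RD D → 0 ≤ χ D)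
    (hAd : ∀ vU vY aU aY, Adm 0 vU vY aU aY) (hev : Even (lf.toNat + false.toNat + m))
    (hpos : 0 < lf.toNat + false.toNat + m) {κ : ℝ}
    (H : NormO Y Adm V P lf m κ fun {K} O N tc σ e => ∀ D, RD D →
      EvF2 χ D K (fun a => (UU (fam σ e O)).eval a)
        (fun a => (YY (fam σ e O)).eval a) (fun a => ∑ i, Vi V N tc O i D a)
        (fun a => V D a ((chd 0 (fam σ e O)).sn a))
        (fun a => P D a ((chd 0 (fam σ e O)).sn a))) :
    PoT Y Adm V P lf false m := by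
  intro K O N tc hI hT
  have hK : Even K := by rw [hI.hK]; exact hev
  have hK0 : 0 < K := by rw [hI.hK]; exact hpos
  obtain ⟨e, n, hn, hcase⟩ := labN_nopath hI hT.hO H.hκ
  rcases hcase with ⟨rfl, he⟩ | ⟨rfl, h1, he⟩ | ⟨rfl, h1, he⟩ | ⟨rfl, h1, he, r, hr⟩
  · exact po_evenV hY hχ hAd hK hK0 hI hT hn he fun σ ρ hF D hD => H.h1 O N tc σ e ρ hF D hD
  · exact po_evenV hY hχ hAd hK hK0 hI hT hn he fun σ ρ hF D hD => H.hS O N tc σ e ρ h1 hF D hD
  · exact po_evenV hY hχ hAd hK hK0 hI hT hn he fun σ ρ hF D hD => H.hA O N tc σ e ρ h1 hF D hD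
  · exact po_evenV hY hχ hAd hK hK0 hI hT hn he fun σ ρ hF D hD =>
      H.hN O N tc σ e ρ r h1 hr hF D hD

/-- **one kind with an odd number of children and the leaf, without the path**: the leaf is split
off, full norm -/
theorem poT_leafN (hY : Y.G = GoodE χ) (hχ : ∀ D, RD D → 0 ≤ χ D)
    (hm : 1 ≤ m) (hodd : Odd (1 + m)) {κ : ℝ}
    (H : NormO Y Adm V P true m κ fun {_} O N tc σ e => ∃ ty : ℕ, ty ≠ 0 ∧
      Adm ty (vU (fam σ e O)) (vY (fam σ e O)) (aU (fam σ e O)) (aY (fam σ e O)) ∧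
      OddR V P χ O N tc σ e 0 ty) : PoT Y Adm V P true false m := by
  intro K O N tc hI hT
  have hK := hI.hK
  rw [Bool.toNat_true, Bool.toNat_false, add_zero] at hK
  have hKo : Odd K := by rw [hK]; exact hodd
  obtain ⟨j, hj, hj1⟩ := hI.hl rfl
  obtain ⟨e, n, hn, hcase⟩ := labN_nopath hI hT.hO H.hκ
  have hx : xiT (e j) (O j) = 0 := by rw [hj1, xiT_nil]
  rcases hcase with ⟨rfl, he⟩ | ⟨rfl, h1, he⟩ | ⟨rfl, h1, he⟩ | ⟨rfl, h1, he, r, hr⟩
  · exact po_trivV hY hχ hKo (by omega) hI hT hn he hj hx fun σ ρ hF => H.h1 O N tc σ e ρ hF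
  · exact po_trivV hY hχ hKo (by omega) hI hT hn he hj hx fun σ ρ hF => H.hS O N tc σ e ρ h1 hF
  · exact po_trivV hY hχ hKo (by omega) hI hT hn he hj hx fun σ ρ hF => H.hA O N tc σ e ρ h1 hF
  · exact po_trivV hY hχ hKo (by omega) hI hT hn he hj hx fun σ ρ hF =>
      H.hN O N tc σ e ρ r h1 hr hF

/-- the obligations of a kind with an odd number of children, all of them nontrivial, full norm -/
structure NormZ (Y : Sys) (Adm : ℕ → ℝ → ℝ → ℝ → ℝ → Prop) (V P : ℝ → ℝ → Sn → ℝ) (χ : ℝ → ℝ)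
    (m : ℕ) (κ : ℝ) : Prop where
  hκ : 0 ≤ κ
  /-- label one -/
  h1 : ∀ {K : ℕ} (O : Fin K → OBr) (N : Finset (Fin K)) (tc : Fin K → ℕ)
    (σ e ρ : Fin K → Bool), FamZ Y Adm V P m O N tc σ e ρ 1 4 1 →
    ∃ ty : ℕ, ty ≠ 0 ∧ Adm ty (vU (fam σ e O)) (vY (fam σ e O)) (aU (fam σ e O))
      (aY (fam σ e O)) ∧ ∀ D, RD D → OdT V P χ O N tc σ e ty D
  /-- label zero, one class -/
  hS : ∀ {K : ℕ} (O : Fin K → OBr) (N : Finset (Fin K)) (tc : Fin K → ℕ)
    (σ e ρ : Fin K → Bool), OneCl m (c1 O N) → FamZ Y Adm V P m O N tc σ e ρ 0 4 1 →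
    ∃ ty : ℕ, ty ≠ 0 ∧ Adm ty (vU (fam σ e O)) (vY (fam σ e O)) (aU (fam σ e O))
      (aY (fam σ e O)) ∧ ∀ D, RD D → OdT V P χ O N tc σ e ty D
  /-- label zero, two classes, small spreads -/
  hA : ∀ {K : ℕ} (O : Fin K → OBr) (N : Finset (Fin K)) (tc : Fin K → ℕ)
    (σ e ρ : Fin K → Bool), ¬ OneCl m (c1 O N) → FamZ Y Adm V P m O N tc σ e ρ 0 4 2 →
    ∃ ty : ℕ, ty ≠ 0 ∧ Adm ty (vU (fam σ e O)) (vY (fam σ e O)) (aU (fam σ e O))
      (aY (fam σ e O)) ∧ ∀ D, RD D → OdT V P χ O N tc σ e ty D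
  /-- label zero, two classes, large spreads -/
  hN : ∀ {K : ℕ} (O : Fin K → OBr) (N : Finset (Fin K)) (tc : Fin K → ℕ)
    (σ e ρ r : Fin K → Bool), ¬ OneCl m (c1 O N) → NRd m O N e r κ →
      FamZ Y Adm V P m O N tc σ e ρ 0 16 m m →
    ∃ ty : ℕ, ty ≠ 0 ∧ Adm ty (vU (fam σ e O)) (vY (fam σ e O)) (aU (fam σ e O))
      (aY (fam σ e O)) ∧ ∀ D, RD D → OdT V P χ O N tc σ e ty D

/-- **one kind with an odd number `≥ 5` of children, all of them nontrivial**, full norm -/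
theorem poT_allN (hY : Y.G = GoodE χ) (hχ : ∀ D, RD D → 0 ≤ χ D) (hodd : Odd m) (h5 : 5 ≤ m)
    {κ : ℝ} (H : NormZ Y Adm V P χ m κ) : PoT Y Adm V P false false m := by
  intro K O N tc hI hT
  have hKm : K = m := by
    have := hI.hK
    simpa using this
  obtain ⟨e, n, hn, hcase⟩ := labN_nopath hI hT.hO H.hκ
  rw [Bool.toNat_false, zero_add] at hn
  have key : ∀ {vm fv fg : ℝ}, LabD O e n vm fv fg → (∀ σ ρ : Fin K → Bool,
      FamZ Y Adm V P m O N tc σ e ρ n vm fv fg → ∃ ty : ℕ, ty ≠ 0 ∧ Adm ty (vU (fam σ e O))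
      (vY (fam σ e O)) (aU (fam σ e O)) (aY (fam σ e O)) ∧
      ∀ D, RD D → OdT V P χ O N tc σ e ty D) → ∃ σ e : Fin K → Bool, PO Y Adm V P (fam σ e O) := by
    intro vm fv fg he H1
    obtain ⟨σ, ρ, hF⟩ := famZ_exists hodd h5 hI hT hn he
    obtain ⟨ty, hty, hA, h4⟩ := H1 σ ρ hF
    exact ⟨σ, e, po_S hY hχ (by omega) hT hF.hσ1 hF.hInv hty hA h4⟩
  rcases hcase with ⟨rfl, he⟩ | ⟨rfl, h1, he⟩ | ⟨rfl, h1, he⟩ | ⟨rfl, h1, he, r, hr⟩
  · exact key he fun σ ρ hF => H.h1 O N tc σ e ρ hF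
  · exact key he fun σ ρ hF => H.hS O N tc σ e ρ h1 hF
  · exact key he fun σ ρ hF => H.hA O N tc σ e ρ h1 hF
  · exact key he fun σ ρ hF => H.hN O N tc σ e ρ r h1 hr hF

end

end Pool.Agent.TSM
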