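import Pool.Agent.TSM.Kind

set_option autoImplicit false

/-!
# Assembly for classes of trees (MP_d27362_co)

`p a b` says that a vertex with `a` branches, `b` of which are not leaves, is allowed.
-/

namespace Pool.Agent.TSM

open Finset Polynomial
open Pool.Agent.TSP
open Pool.Agent.TSO
open Pool.Agent.TSR (OBr Ker Br Red Cn2 leafB twoB sg_true sg_false vS_rev GoodBr rm red)
open Pool.Agent.TLT (sg)
open Pool.Agent.TFin (RT ch IsVal)

noncomputable section

open Classical in
/-- the number of branches which are not leaves -/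
def nlB (b : Br) : ℕ := (b.kids.filter fun c => !decide (c = leafB)).length

/-- all vertices of the rooted tree are allowed -/
inductive NP (p : ℕ → ℕ → Prop) : Br → Prop
  | mk (b : Br) (h : ∀ c ∈ b.kids, NP p c) (hp : p b.kids.length (nlB b)) : NP p b

/-- smaller numbers are allowed -/
def MonP (p : ℕ → ℕ → Prop) : Prop := ∀ a b a' b' : ℕ, a' ≤ a → b' ≤ b → p a b → p a' b'

lemma nlB_nil : nlB .nil = 0 := by
  unfold nlB
  simp

lemma nlB_cons_leaf (t : Br) : nlB (.cons leafB t) = nlB t := by
  unfold nlB
  rw [Br.kids_cons, List.filter_cons_of_neg (by simp)]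

lemma nlB_cons {c t : Br} (h : c ≠ leafB) : nlB (.cons c t) = nlB t + 1 := by
  unfold nlB
  rw [Br.kids_cons, List.filter_cons_of_pos (by simp [h]), List.length_cons]

lemma nlB_rm (q t : Br) : nlB (rm q t) ≤ nlB t := by
  induction t with
  | nil => exact le_rfl
  | cons d t _ ih =>
    unfold rm
    split_ifs
    · by_cases h : d = leafB
      · rw [h, nlB_cons_leaf]
      · rw [nlB_cons h]
        omega
    · by_cases h : d = leafB
      · rw [h, nlB_cons_leaf, nlB_cons_leaf]
        exact ih
      · rw [nlB_cons h, nlB_cons h]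
        omega

lemma red_leaf (Cn : Br → Prop) : red Cn leafB = leafB := rfl

lemma nlB_red (Cn : Br → Prop) (b : Br) : nlB (red Cn b) ≤ nlB b := by
  induction b with
  | nil => exact le_rfl
  | cons c t _ ih =>
    have h1 : nlB t ≤ nlB (.cons c t) := by
      by_cases h : c = leafB
      · rw [h, nlB_cons_leaf]
      · rw [nlB_cons h]
        omega
    unfold red
    split_ifs
    · exact ((nlB_rm _ _).trans ih).trans h1
    · by_cases h : c = leafB
      · rw [h, red_leaf, nlB_cons_leaf, nlB_cons_leaf]
        exact ih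
      · by_cases h2 : red Cn c = leafB
        · rw [h2, nlB_cons_leaf]
          exact ih.trans h1
        · rw [nlB_cons h2, nlB_cons h]
          omega

lemma kids_red (Cn : Br → Prop) (b : Br) : ∀ c ∈ (red Cn b).kids, ∃ d ∈ b.kids, c = red Cn d := by
  induction b with
  | nil => intro c hc; simp [red] at hc
  | cons d t _ ih =>
    intro c hc
    unfold red at hc
    rw [Br.kids_cons]
    split_ifs at hc with h
    · obtain ⟨e, he, h1⟩ := ih c (TSR.kids_rm_subset _ _ c hc)
      exact ⟨e, List.mem_cons_of_mem _ he, h1⟩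
    · rw [Br.kids_cons, List.mem_cons] at hc
      rcases hc with hc | hc
      · exact ⟨d, by simp, hc⟩
      · obtain ⟨e, he, h1⟩ := ih c hc
        exact ⟨e, List.mem_cons_of_mem _ he, h1⟩

lemma NP.red {p : ℕ → ℕ → Prop} (hm : MonP p) (Cn : Br → Prop) {b : Br} (h : NP p b) :
    NP p (red Cn b) := by
  revert h
  refine Br.induct (P := fun b => NP p b → NP p (TSR.red Cn b)) (fun b ih hb => ?_) b
  obtain ⟨_, h1, h2⟩ := hb
  refine NP.mk _ (fun c hc => ?_) (hm _ _ _ _ (red_len Cn b) (nlB_red Cn b) h2)
  obtain ⟨d, hd, rfl⟩ := kids_red Cn b c hc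
  exact ih d hd (h1 d hd)

open Classical in
/-- the kinds of a rooted tree -/
lemma OKq_of_NP {p : ℕ → ℕ → Prop} (hm : MonP p) {b : Br} (h : NP p b) :
    OKq (fun lf tw n => p (lf.toNat + tw.toNat + n) (tw.toNat + n)) b := by
  refine Br.induct (P := fun b => NP p b →
    OKq (fun lf tw n => p (lf.toNat + tw.toNat + n) (tw.toNat + n)) b)
    (fun b ih hb => ?_) b h
  obtain ⟨_, hk1, hp⟩ := hb
  refine OKq.mk b (fun c hc => ih c hc (hk1 c hc)) ?_
  unfold nlB at hp
  set k := b.kids with hk
  have h1 : (decide (leafB ∈ k)).toNat ≤ (k.filter fun c => decide (c = leafB)).length := by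
    by_cases h : leafB ∈ k
    · rw [decide_eq_true h]
      have : leafB ∈ k.filter fun c => decide (c = leafB) := by
        rw [List.mem_filter]
        exact ⟨h, by simp⟩
      exact List.length_pos_of_mem this
    · rw [decide_eq_false h]
      exact Nat.zero_le _
  set k1 := k.filter (fun c => !decide (c = leafB)) with hk1
  have h2 : (decide (twoB ∈ k)).toNat ≤ (k1.filter fun c => decide (c = twoB)).length := by
    by_cases h : twoB ∈ k
    · rw [decide_eq_true h]
      have : twoB ∈ k1.filter fun c => decide (c = twoB) := by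
        rw [List.mem_filter, hk1, List.mem_filter]
        exact ⟨⟨h, by simp⟩, by simp⟩
      exact List.length_pos_of_mem this
    · rw [decide_eq_false h]
      exact Nat.zero_le _
  have h3 := (TSR.filter_perm (fun c => decide (c = leafB)) k).length_eq
  have h4 := (TSR.filter_perm (fun c => decide (c = twoB)) k1).length_eq
  rw [List.length_append] at h3 h4
  rw [← hk1] at h3
  show p ((decide (leafB ∈ k)).toNat + (decide (twoB ∈ k)).toNat +
    (k1.filter fun c => !decide (c = twoB)).length)
    ((decide (twoB ∈ k)).toNat + (k1.filter fun c => !decide (c = twoB)).length)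
  refine hm _ _ _ _ ?_ ?_ hp
  · omega
  · omega

section Graph

variable {Vt : Type} [Fintype Vt] [DecidableEq Vt]

/-- the children which are not leaves -/
def nlc (par : Vt → Vt) (r v : Vt) : Finset Vt := (ch par r v).filter fun c => (ch par r c).Nonempty

lemma NP_brV {p : ℕ → ℕ → Prop} (hm : MonP p) {par : Vt → Vt} {r : Vt}
    (h : ∀ v, p (ch par r v).card (nlc par r v).card) (n : ℕ) (v : Vt) :
    NP p (TSR.brV par r n v) := by
  classical
  induction n generalizing v with
  | zero =>
    refine NP.mk _ (fun c hc => by simp [TSR.brV] at hc) ?_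
    exact hm _ _ _ _ (by simp [TSR.brV]) (by simp [TSR.brV, nlB]) (h v)
  | succ n ih =>
    have e1 : (TSR.brV par r (n + 1) v).kids = (ch par r v).toList.map fun c =>
        TSR.brV par r n c := by
      show (Br.mk _).kids = _
      rw [Br.kids_mk]
    refine NP.mk _ (fun c hc => ?_) (hm _ _ _ _ ?_ ?_ (h v))
    · rw [e1, List.mem_map] at hc
      obtain ⟨x, _, rfl⟩ := hc
      exact ih x
    · rw [e1, List.length_map, Finset.length_toList]
    · unfold nlB
      rw [e1, List.filter_map, List.length_map]
      have h2 : ((ch par r v).toList.filter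
          ((fun c => !decide (c = leafB)) ∘ fun c => TSR.brV par r n c)).length ≤
          ((ch par r v).toList.filter fun c => decide (ch par r c).Nonempty).length := by
        refine (List.monotone_filter_right _ fun x hx => ?_).length_le
        rw [Function.comp_apply, Bool.not_eq_true', decide_eq_false_iff_not] at hx
        rw [decide_eq_true_eq]
        by_contra hc
        rw [not_nonempty_iff_eq_empty] at hc
        apply hx
        cases n with
        | zero => rfl
        | succ n =>
          show Br.mk _ = _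
          rw [hc, Finset.toList_empty]
          rfl
      refine h2.trans ?_
      rw [← List.toFinset_card_of_nodup ((Finset.nodup_toList _).filter _)]
      refine card_le_card fun x hx => ?_
      rw [List.mem_toFinset, List.mem_filter, Finset.mem_toList, decide_eq_true_eq] at hx
      exact mem_filter.mpr hx

end Graph

/-- the number of neighbours of a vertex which are not leaves -/
def nlN {V : Type} (T : SimpleGraph V) (v : V) : ℕ :=
  {w ∈ T.neighborSet v | 2 ≤ (T.neighborSet w).ncard}.ncard

section Root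

variable {Vt : Type} [Fintype Vt] [DecidableEq Vt] {T : SimpleGraph Vt} {par : Vt → Vt}
  {dep : Vt → ℕ} {r : Vt}

lemma ch_nb (hadj : ∀ u v, T.Adj u v ↔ (u ≠ r ∧ par u = v) ∨ (v ≠ r ∧ par v = u)) {v c : Vt}
    (hc : c ∈ ch par r v) : c ∈ T.neighborSet v := by
  rw [TSR.mem_ch] at hc
  rw [SimpleGraph.mem_neighborSet, T.adj_comm, hadj]
  exact Or.inl hc

lemma par_nb (hadj : ∀ u v, T.Adj u v ↔ (u ≠ r ∧ par u = v) ∨ (v ≠ r ∧ par v = u)) {v : Vt}
    (hv : v ≠ r) : par v ∈ T.neighborSet v := by
  rw [SimpleGraph.mem_neighborSet, hadj]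
  exact Or.inl ⟨hv, rfl⟩

lemma par_not_ch (hR : RT par dep r) {v : Vt} (hv : v ≠ r) : par v ∉ ch par r v := by
  intro h
  rw [TSR.mem_ch] at h
  have e1 := hR.step v hv
  have e2 := hR.step (par v) h.1
  rw [h.2] at e2
  omega

/-- a vertex different from the root with a child has two neighbours -/
lemma two_le (hR : RT par dep r)
    (hadj : ∀ u v, T.Adj u v ↔ (u ≠ r ∧ par u = v) ∨ (v ≠ r ∧ par v = u)) {v c : Vt}
    (hv : v ≠ r) (hc : c ∈ ch par r v) : 2 ≤ (T.neighborSet v).ncard := by
  have h1 : par v ≠ c := fun h => par_not_ch hR hv (by rw [h]; exact hc)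
  have h2 : ({par v, c} : Set Vt) ⊆ T.neighborSet v := by
    intro x hx
    rw [Set.mem_insert_iff, Set.mem_singleton_iff] at hx
    rcases hx with rfl | rfl
    · exact par_nb hadj hv
    · exact ch_nb hadj hc
  have h3 := Set.ncard_le_ncard h2 (Set.toFinite _)
  rwa [Set.ncard_pair h1] at h3

/-- the allowed vertices of the rooted tree -/
lemma p_of_root {p : ℕ → ℕ → Prop} (hm : MonP p) (hp1 : ∀ a b, b ≤ 1 → p a b)
    (hR : RT par dep r)
    (hadj : ∀ u v, T.Adj u v ↔ (u ≠ r ∧ par u = v) ∨ (v ≠ r ∧ par v = u))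
    (hr : nlN T r ≤ 1) (hr2 : 2 ≤ (T.neighborSet r).ncard ∨ ∀ v, (T.neighborSet v).ncard ≤ 1)
    (hp : ∀ v, p ((T.neighborSet v).ncard - 1) (nlN T v - 1)) (v : Vt) :
    p (ch par r v).card (nlc par r v).card := by
  classical
  have hsub : (nlc par r v : Set Vt) ⊆
      {w ∈ T.neighborSet v | 2 ≤ (T.neighborSet w).ncard} := by
    intro c hc
    rw [mem_coe] at hc
    unfold nlc at hc
    rw [mem_filter] at hc
    obtain ⟨x, hx⟩ := hc.2
    exact ⟨ch_nb hadj hc.1, two_le hR hadj (TSR.mem_ch.mp hc.1).1 hx⟩
  have hle : (nlc par r v).card ≤ nlN T v := by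
    rw [← Set.ncard_coe_finset]
    exact Set.ncard_le_ncard hsub (Set.toFinite _)
  by_cases hv : v = r
  · rw [hv] at hle ⊢
    exact hp1 _ _ (hle.trans hr)
  · rcases hr2 with hr2 | hr2
    · -- the parent is not a leaf
      have hpar : 2 ≤ (T.neighborSet (par v)).ncard := by
        by_cases h : par v = r
        · rw [h]
          exact hr2
        · exact two_le hR hadj h (TSR.mem_ch.mpr ⟨hv, rfl⟩)
      have h4 : insert (par v) (ch par r v : Set Vt) ⊆ T.neighborSet v := by
        intro c hc
        rw [Set.mem_insert_iff] at hc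
        rcases hc with rfl | hc
        · exact par_nb hadj hv
        · exact ch_nb hadj (Finset.mem_coe.1 hc)
      have h5 := Set.ncard_le_ncard h4 (Set.toFinite _)
      rw [Set.ncard_insert_of_notMem (by simpa using par_not_ch hR hv) (Set.toFinite _),
        Set.ncard_coe_finset] at h5
      have h6 : insert (par v) (nlc par r v : Set Vt) ⊆
          {w ∈ T.neighborSet v | 2 ≤ (T.neighborSet w).ncard} := by
        intro c hc
        rw [Set.mem_insert_iff] at hc
        rcases hc with rfl | hc
        · exact ⟨par_nb hadj hv, hpar⟩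
        · exact hsub hc
      have h7 := Set.ncard_le_ncard h6 (Set.toFinite _)
      have h8 : par v ∉ (nlc par r v : Set Vt) := by
        intro h
        rw [mem_coe] at h
        unfold nlc at h
        exact par_not_ch hR hv (mem_filter.mp h).1
      rw [Set.ncard_insert_of_notMem h8 (Set.toFinite _), Set.ncard_coe_finset] at h7
      refine hm _ _ _ _ (by omega) ?_ (hp v)
      unfold nlN
      omega
    · refine hp1 _ _ ?_
      have : nlN T v = 0 := by
        unfold nlN
        rw [Set.ncard_eq_zero (Set.toFinite _)]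
        ext w
        simp only [Set.mem_setOf_eq, Set.mem_empty_iff_false, iff_false, not_and, not_le]
        intro _
        have := hr2 w
        omega
      omega

end Root

/-- a root which is not a leaf and has at most one neighbour which is not a leaf -/
lemma exists_root {Vt : Type} [Fintype Vt] [DecidableEq Vt] (T : SimpleGraph Vt)
    (hT : T.IsTree) : ∃ r : Vt, nlN T r ≤ 1 ∧
      (2 ≤ (T.neighborSet r).ncard ∨ ∀ v, (T.neighborSet v).ncard ≤ 1) := by
  classical
  by_cases h0 : ∀ v, (T.neighborSet v).ncard ≤ 1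
  · obtain ⟨r⟩ : Nonempty Vt := hT.1.nonempty
    refine ⟨r, ?_, Or.inr h0⟩
    refine (Set.ncard_le_ncard (fun w hw => ?_) (Set.toFinite _)).trans (h0 r)
    exact hw.1
  · push Not at h0
    obtain ⟨u, hu⟩ := h0
    obtain ⟨par, dep, hR, hadj, -, -⟩ := TFin.p_CONV Vt T hT u
    obtain ⟨v, -, hv⟩ := exists_max_image (univ : Finset Vt) dep ⟨u, mem_univ u⟩
    have hvu : v ≠ u := by
      rintro rfl
      have h1 : (T.neighborSet v).Nonempty := by
        rw [← Set.ncard_pos (Set.toFinite _)]
        omega
      obtain ⟨w, hw⟩ := h1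
      rw [SimpleGraph.mem_neighborSet, hadj] at hw
      rcases hw with ⟨h2, _⟩ | ⟨h2, h3⟩
      · exact h2 rfl
      · have h4 := hR.step w h2
        have h5 := hv w (mem_univ w)
        rw [h3] at h4
        omega
    have hvch : v ∈ ch par u (par v) := TSR.mem_ch.mpr ⟨hvu, rfl⟩
    refine ⟨par v, ?_, Or.inl ?_⟩
    · have hsub : {w ∈ T.neighborSet (par v) | 2 ≤ (T.neighborSet w).ncard} ⊆
          {par (par v)} := by
        intro w hw
        rw [Set.mem_singleton_iff]
        by_contra hne
        obtain ⟨h1, h2⟩ := hw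
        rw [SimpleGraph.mem_neighborSet, hadj] at h1
        rcases h1 with ⟨_, h3⟩ | ⟨h3, h4⟩
        · exact hne h3.symm
        · -- `w` is as deep as `v`
          have e1 := hR.step w h3
          have e2 := hR.step v hvu
          rw [h4] at e1
          have h5 : T.neighborSet w ⊆ {par v} := by
            intro x hx
            rw [SimpleGraph.mem_neighborSet, hadj] at hx
            rw [Set.mem_singleton_iff]
            rcases hx with ⟨_, h6⟩ | ⟨h6, h7⟩
            · rw [← h6, h4]
            · exfalso
              have e3 := hR.step x h6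
              have e4 := hv x (mem_univ x)
              rw [h7] at e3
              omega
          have h6 := Set.ncard_le_ncard h5 (Set.toFinite _)
          rw [Set.ncard_singleton] at h6
          omega
      have h1 := Set.ncard_le_ncard hsub (Set.toFinite _)
      rwa [Set.ncard_singleton] at h1
    · by_cases h : par v = u
      · rw [h]
        omega
      · exact two_le hR hadj h hvch

variable {Y : Sys} {Adm : ℕ → ℝ → ℝ → ℝ → ℝ → Prop} {V P : ℝ → ℝ → Sn → ℝ}

/-- the conclusion for one tree -/
def AntiT (n : ℕ) (T : SimpleGraph (Fin n)) : Prop :=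
  ∃ D : Fin n → Fin n → Prop,
    (∀ u v, T.Adj u v → (D u v ∨ D v u)) ∧
    (∀ u v, D u v → (T.Adj u v ∧ ¬ D v u)) ∧
    ∀ m : ℕ, ∀ G : Fin m → Fin m → Prop,
      (∀ a, ¬ G a a) →
      (∀ a b, a ≠ b → (G a b ↔ ¬ G b a)) →
      (({f : Fin n → Fin m | ∀ u v, D u v → G (f u) (f v)}.ncard : ℝ) / (m : ℝ) ^ n
        ≤ ((1 : ℝ) / 2) ^ (T.edgeSet.ncard))

/-- **Assembly for a class of trees**: `p a b` says that a vertex which has at most `a + 1`
neighbours, at most `b + 1` of which are not leaves, is allowed -/
theorem asm_p (p : ℕ → ℕ → Prop) (hm : MonP p) (hp1 : ∀ a b, b ≤ 1 → p a b) (C : Cert Y Adm V P)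
    (big : ∀ (lf tw : Bool) (L : List OBr),
      p (lf.toNat + tw.toNat + L.length) (tw.toNat + L.length) → 2 ≤ L.length →
      3 ≤ (items lf tw L).length → (∀ O ∈ L, PO Y Adm V P O) →
      ∃ σ e : Fin (items lf tw L).length → Bool, PO Y Adm V P (fam σ e (items lf tw L).get)) :
    ∀ n : ℕ, ∀ T : SimpleGraph (Fin n), T.IsTree →
      (∀ v, p ((T.neighborSet v).ncard - 1) (nlN T v - 1)) → AntiT n T := by
  intro n T hT hp
  obtain ⟨r, hr, hr2⟩ := exists_root T hT
  have hgood : ∀ b, NP p b → GoodBr b := fun b hb => good_of_red_one b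
    (asm_q _ C big _ (TSR.Red_red Cn2 b) (OKq_of_NP hm (hb.red hm Cn2)))
  obtain ⟨D, hD, h1⟩ := anti_of_good T hT r (NP p) hgood (fun inst par dep hR hadj k =>
    NP_brV hm (fun v => p_of_root hm hp1 hR hadj hr hr2 hp v) k r)
  refine ⟨D, hD.1, hD.2, fun m G hG1 hG2 => ?_⟩
  have := h1 m G ⟨hG1, hG2⟩
  rwa [Fintype.card_fin] at this

/-- **Every vertex has degree at most three or at most two neighbours which are not leaves** -/
theorem asm_three_plus (C : Cert Y Adm V P) (n : ℕ) (T : SimpleGraph (Fin n)) (hT : T.IsTree)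
    (h : ∀ v, (T.neighborSet v).ncard ≤ 3 ∨ nlN T v ≤ 2) : AntiT n T := by
  refine asm_p (fun a b => a ≤ 2 ∨ b ≤ 1) (fun a b a' b' h1 h2 h3 => ?_)
    (fun a b h => Or.inr h) C (fun lf tw L h1 h2 h3 _ => ?_) n T hT fun v => ?_
  · rcases h3 with h3 | h3
    · exact Or.inl (h1.trans h3)
    · exact Or.inr (h2.trans h3)
  · exfalso
    rw [items_length] at h3
    rcases h1 with h1 | h1
    · omega
    · omega
  · rcases h v with h1 | h1
    · exact Or.inl (by omega)
    · exact Or.inr (by omega)

end

end Pool.Agent.TSM
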