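import Pool.Agent.TSM.KindE

set_option autoImplicit false

/-!
# Assembly for classes of trees which keep the parity of the number of branches (MP_d27362_co)

`p a b` says that a vertex with `a` branches, `b` of which are not leaves, is allowed. The
reduction removes branches in pairs, so it is enough that `p` is kept when `a` becomes smaller
with the same parity.
-/

namespace Pool.Agent.TSM

open Finset Polynomial
open Pool.Agent.TSP
open Pool.Agent.TSO
open Pool.Agent.TSR (OBr Ker Br Red Cn2 leafB twoB sg_true sg_false vS_rev GoodBr rm red)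
open Pool.Agent.TLT (sg)
open Pool.Agent.TFin (RT ch IsVal)

noncomputable section

/-- smaller numbers are allowed, the first one with the same parity -/
def ParP (p : ℕ → ℕ → Prop) : Prop :=
  ∀ a b a' b' : ℕ, a' ≤ a → a' % 2 = a % 2 → b' ≤ b → p a b → p a' b'

lemma ParP.snd {p : ℕ → ℕ → Prop} (h : ParP p) {a b b' : ℕ} (h1 : b' ≤ b) (h2 : p a b) :
    p a b' := h a b a b' le_rfl rfl h1 h2

lemma rm_len_eq (q t : Br) (h : q ∈ t.kids) : (rm q t).kids.length + 1 = t.kids.length := by
  induction t with
  | nil => simp at h
  | cons d t _ ih =>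
    rw [Br.kids_cons, List.length_cons]
    unfold rm
    split_ifs with h1
    · rfl
    · rw [Br.kids_cons, List.mem_cons] at h
      rcases h with h | h
      · exact absurd h.symm h1
      · rw [Br.kids_cons, List.length_cons, ih h]

/-- the reduction keeps the parity of the number of branches -/
lemma red_par (Cn : Br → Prop) (b : Br) :
    (red Cn b).kids.length % 2 = b.kids.length % 2 := by
  induction b with
  | nil => rfl
  | cons c t _ ih =>
    rw [Br.kids_cons, List.length_cons]
    unfold red
    split_ifs with h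
    · have h1 := rm_len_eq _ _ h.2
      omega
    · rw [Br.kids_cons, List.length_cons]
      omega

lemma NP.redE {p : ℕ → ℕ → Prop} (hm : ParP p) (Cn : Br → Prop) {b : Br} (h : NP p b) :
    NP p (TSR.red Cn b) := by
  revert h
  refine Br.induct (P := fun b => NP p b → NP p (TSR.red Cn b)) (fun b ih hb => ?_) b
  obtain ⟨_, h1, h2⟩ := hb
  refine NP.mk _ (fun c hc => ?_)
    (hm _ _ _ _ (red_len Cn b) (red_par Cn b) (nlB_red Cn b) h2)
  obtain ⟨d, hd, rfl⟩ := kids_red Cn b c hc
  exact ih d hd (h1 d hd)

lemma Red_kids (Cn : Br → Prop) (b : Br) (h : Red Cn b) : ∀ c ∈ b.kids, Red Cn c := by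
  induction b with
  | nil => intro c hc; simp at hc
  | cons d t _ ih =>
    intro c hc
    obtain ⟨h1, h2, _⟩ := h
    rw [Br.kids_cons, List.mem_cons] at hc
    rcases hc with rfl | hc
    · exact h1
    · exact ih h2 c hc

lemma twoB_ne : twoB ≠ leafB := by
  intro h
  have := congrArg (fun b => b.kids.length) h
  simp [twoB, leafB] at this

open Classical in
/-- the number of branches of a reduced tree -/
lemma Red_count (b : Br) (h : Red Cn2 b) : (decide (leafB ∈ b.kids)).toNat +
    (decide (twoB ∈ b.kids)).toNat + ((b.kids.filter fun c => !decide (c = leafB)).filter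
      fun c => !decide (c = twoB)).length = b.kids.length := by
  induction b with
  | nil => simp
  | cons d t _ ih =>
    obtain ⟨_, h2, h3⟩ := h
    have ih' := ih h2
    rw [Br.kids_cons, List.length_cons, ← ih']
    by_cases hd : d = leafB
    · have h4 : leafB ∉ t.kids := by
        rw [← hd]
        exact h3 (Or.inl hd)
      subst hd
      have h5 : (leafB ∈ leafB :: t.kids) := by simp
      have h6 : (twoB ∈ leafB :: t.kids) ↔ twoB ∈ t.kids := by
        rw [List.mem_cons]
        exact ⟨fun h => h.resolve_left twoB_ne, Or.inr⟩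
      rw [decide_eq_true h5, decide_eq_false h4, List.filter_cons_of_neg (by simp)]
      simp only [h6, Bool.toNat_true, Bool.toNat_false]
      omega
    · have h5 : (leafB ∈ d :: t.kids) ↔ leafB ∈ t.kids := by
        rw [List.mem_cons]
        exact ⟨fun h => h.resolve_left (Ne.symm hd), Or.inr⟩
      rw [List.filter_cons_of_pos (by simp [hd])]
      by_cases hd2 : d = twoB
      · have h4 : twoB ∉ t.kids := by
          rw [← hd2]
          exact h3 (Or.inr hd2)
        subst hd2
        have h6 : (twoB ∈ twoB :: t.kids) := by simp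
        rw [decide_eq_true h6, decide_eq_false h4, List.filter_cons_of_neg (by simp)]
        simp only [h5, Bool.toNat_true, Bool.toNat_false]
        omega
      · have h6 : (twoB ∈ d :: t.kids) ↔ twoB ∈ t.kids := by
          rw [List.mem_cons]
          exact ⟨fun h => h.resolve_left (Ne.symm hd2), Or.inr⟩
        rw [List.filter_cons_of_pos (by simp [hd2]), List.length_cons]
        simp only [h5, h6]
        omega

open Classical in
/-- the branches which are neither leaves nor the path are not leaves -/
lemma nlB_ge (b : Br) : (decide (twoB ∈ b.kids)).toNat +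
    ((b.kids.filter fun c => !decide (c = leafB)).filter
      fun c => !decide (c = twoB)).length ≤ nlB b := by
  unfold nlB
  set k1 := b.kids.filter (fun c => !decide (c = leafB)) with hk1
  have h2 : (decide (twoB ∈ b.kids)).toNat ≤
      (k1.filter fun c => decide (c = twoB)).length := by
    by_cases h : twoB ∈ b.kids
    · rw [decide_eq_true h]
      have : twoB ∈ k1.filter fun c => decide (c = twoB) := by
        rw [List.mem_filter, hk1, List.mem_filter]
        exact ⟨⟨h, by simp [twoB_ne]⟩, by simp⟩
      exact List.length_pos_of_mem this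
    · rw [decide_eq_false h]
      exact Nat.zero_le _
  have h4 := (TSR.filter_perm (fun c => decide (c = twoB)) k1).length_eq
  rw [List.length_append] at h4
  omega

open Classical in
/-- the kinds of a reduced rooted tree -/
lemma OKq_of_NPE {p : ℕ → ℕ → Prop} (hm : ParP p) {b : Br} (hR : Red Cn2 b) (h : NP p b) :
    OKq (fun lf tw n => p (lf.toNat + tw.toNat + n) (tw.toNat + n)) b := by
  revert hR h
  refine Br.induct (P := fun b => Red Cn2 b → NP p b →
    OKq (fun lf tw n => p (lf.toNat + tw.toNat + n) (tw.toNat + n)) b)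
    (fun b ih hR hb => ?_) b
  obtain ⟨_, hk1, hp⟩ := hb
  refine OKq.mk b (fun c hc => ih c hc (Red_kids _ b hR c hc) (hk1 c hc)) ?_
  show p ((decide (leafB ∈ b.kids)).toNat + (decide (twoB ∈ b.kids)).toNat +
    ((b.kids.filter fun c => !decide (c = leafB)).filter fun c => !decide (c = twoB)).length)
    ((decide (twoB ∈ b.kids)).toNat +
      ((b.kids.filter fun c => !decide (c = leafB)).filter fun c => !decide (c = twoB)).length)
  rw [Red_count b hR]
  exact hm.snd (nlB_ge b) hp

section Graph

variable {Vt : Type} [Fintype Vt] [DecidableEq Vt]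

lemma NP_brVE {p : ℕ → ℕ → Prop} (hm : ParP p) (h0 : p 0 0) {par : Vt → Vt} {r : Vt}
    (h : ∀ v, p (ch par r v).card (nlc par r v).card) (n : ℕ) (v : Vt) :
    NP p (TSR.brV par r n v) := by
  classical
  induction n generalizing v with
  | zero =>
    refine NP.mk _ (fun c hc => by simp [TSR.brV] at hc) ?_
    have e1 : (TSR.brV par r 0 v).kids.length = 0 := by simp [TSR.brV]
    have e2 : nlB (TSR.brV par r 0 v) = 0 := by simp [TSR.brV, nlB]
    rw [e1, e2]
    exact h0
  | succ n ih =>
    have e1 : (TSR.brV par r (n + 1) v).kids = (ch par r v).toList.map fun c =>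
        TSR.brV par r n c := by
      show (Br.mk _).kids = _
      rw [Br.kids_mk]
    refine NP.mk _ (fun c hc => ?_) ?_
    · rw [e1, List.mem_map] at hc
      obtain ⟨x, _, rfl⟩ := hc
      exact ih x
    · have e2 : (TSR.brV par r (n + 1) v).kids.length = (ch par r v).card := by
        rw [e1, List.length_map, Finset.length_toList]
      rw [e2]
      refine hm.snd ?_ (h v)
      unfold nlB
      rw [e1, List.filter_map, List.length_map]
      have h2 : ((ch par r v).toList.filter
          ((fun c => !decide (c = leafB)) ∘ fun c => TSR.brV par r n c)).length ≤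
          ((ch par r v).toList.filter fun c => decide (ch par r c).Nonempty).length := by
        refine (List.monotone_filter_right _ fun x hx => ?_).length_le
        rw [Function.comp_apply, Bool.not_eq_true', decide_eq_false_iff_not] at hx
        rw [decide_eq_true_eq]
        by_contra hc
        rw [not_nonempty_iff_eq_empty] at hc
        apply hx
        cases n with
        | zero => rfl
        | succ n =>
          show Br.mk _ = _
          rw [hc, Finset.toList_empty]
          rfl
      refine h2.trans ?_
      rw [← List.toFinset_card_of_nodup ((Finset.nodup_toList _).filter _)]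
      refine card_le_card fun x hx => ?_
      rw [List.mem_toFinset, List.mem_filter, Finset.mem_toList, decide_eq_true_eq] at hx
      exact mem_filter.mpr hx

end Graph

section Root

variable {Vt : Type} [Fintype Vt] [DecidableEq Vt] {T : SimpleGraph Vt} {par : Vt → Vt}
  {dep : Vt → ℕ} {r : Vt}

/-- the number of children of a vertex which is not the root -/
lemma card_ch (hR : RT par dep r)
    (hadj : ∀ u v, T.Adj u v ↔ (u ≠ r ∧ par u = v) ∨ (v ≠ r ∧ par v = u)) {v : Vt}
    (hv : v ≠ r) : (ch par r v).card = (T.neighborSet v).ncard - 1 := by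
  have h4 : insert (par v) (ch par r v : Set Vt) = T.neighborSet v := by
    ext c
    rw [Set.mem_insert_iff]
    constructor
    · rintro (rfl | hc)
      · exact par_nb hadj hv
      · exact ch_nb hadj (Finset.mem_coe.1 hc)
    · intro hc
      rw [SimpleGraph.mem_neighborSet, hadj] at hc
      rcases hc with ⟨_, hc⟩ | ⟨h1, h2⟩
      · exact Or.inl hc.symm
      · exact Or.inr (Finset.mem_coe.2 (TSR.mem_ch.mpr ⟨h1, h2⟩))
  rw [← h4, Set.ncard_insert_of_notMem (by simpa using par_not_ch hR hv) (Set.toFinite _),
    Set.ncard_coe_finset]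
  omega

/-- the allowed vertices of the rooted tree -/
lemma p_of_rootE {p : ℕ → ℕ → Prop} (hm : ParP p) (hp1 : ∀ a b, b ≤ 1 → p a b)
    (hR : RT par dep r)
    (hadj : ∀ u v, T.Adj u v ↔ (u ≠ r ∧ par u = v) ∨ (v ≠ r ∧ par v = u))
    (hr : nlN T r ≤ 1) (hr2 : 2 ≤ (T.neighborSet r).ncard ∨ ∀ v, (T.neighborSet v).ncard ≤ 1)
    (hp : ∀ v, p ((T.neighborSet v).ncard - 1) (nlN T v - 1)) (v : Vt) :
    p (ch par r v).card (nlc par r v).card := by
  classical
  have hsub : (nlc par r v : Set Vt) ⊆
      {w ∈ T.neighborSet v | 2 ≤ (T.neighborSet w).ncard} := by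
    intro c hc
    rw [mem_coe] at hc
    unfold nlc at hc
    rw [mem_filter] at hc
    obtain ⟨x, hx⟩ := hc.2
    exact ⟨ch_nb hadj hc.1, two_le hR hadj (TSR.mem_ch.mp hc.1).1 hx⟩
  have hle : (nlc par r v).card ≤ nlN T v := by
    rw [← Set.ncard_coe_finset]
    exact Set.ncard_le_ncard hsub (Set.toFinite _)
  by_cases hv : v = r
  · rw [hv] at hle ⊢
    exact hp1 _ _ (hle.trans hr)
  · rcases hr2 with hr2 | hr2
    · -- the parent is not a leaf
      have hpar : 2 ≤ (T.neighborSet (par v)).ncard := by
        by_cases h : par v = r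
        · rw [h]
          exact hr2
        · exact two_le hR hadj h (TSR.mem_ch.mpr ⟨hv, rfl⟩)
      have h6 : insert (par v) (nlc par r v : Set Vt) ⊆
          {w ∈ T.neighborSet v | 2 ≤ (T.neighborSet w).ncard} := by
        intro c hc
        rw [Set.mem_insert_iff] at hc
        rcases hc with rfl | hc
        · exact ⟨par_nb hadj hv, hpar⟩
        · exact hsub hc
      have h7 := Set.ncard_le_ncard h6 (Set.toFinite _)
      have h8 : par v ∉ (nlc par r v : Set Vt) := by
        intro h
        rw [mem_coe] at h
        unfold nlc at h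
        exact par_not_ch hR hv (mem_filter.mp h).1
      rw [Set.ncard_insert_of_notMem h8 (Set.toFinite _), Set.ncard_coe_finset] at h7
      rw [card_ch hR hadj hv]
      refine hm.snd ?_ (hp v)
      unfold nlN
      omega
    · refine hp1 _ _ ?_
      have : nlN T v = 0 := by
        unfold nlN
        rw [Set.ncard_eq_zero (Set.toFinite _)]
        ext w
        simp only [Set.mem_ofPred_eq, Set.mem_empty_iff_false, iff_false, not_and, not_le]
        intro _
        have := hr2 w
        omega
      omega

end Root

variable {Y : Sys} {Adm : ℕ → ℝ → ℝ → ℝ → ℝ → Prop} {V P : ℝ → ℝ → Sn → ℝ}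

/-- **Assembly for a class of trees which keeps the parity**: `p a b` says that a vertex which has
exactly `a + 1` neighbours, at most `b + 1` of which are not leaves, is allowed -/
theorem asm_pE (p : ℕ → ℕ → Prop) (hm : ParP p) (hp1 : ∀ a b, b ≤ 1 → p a b)
    (C : Cert Y Adm V P)
    (big : ∀ (lf tw : Bool) (L : List OBr),
      p (lf.toNat + tw.toNat + L.length) (tw.toNat + L.length) → 2 ≤ L.length →
      3 ≤ (items lf tw L).length → (∀ O ∈ L, PO Y Adm V P O) →
      ∃ σ e : Fin (items lf tw L).length → Bool, PO Y Adm V P (fam σ e (items lf tw L).get)) :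
    ∀ n : ℕ, ∀ T : SimpleGraph (Fin n), T.IsTree →
      (∀ v, p ((T.neighborSet v).ncard - 1) (nlN T v - 1)) → AntiT n T := by
  intro n T hT hp
  obtain ⟨r, hr, hr2⟩ := exists_root T hT
  have hgood : ∀ b, NP p b → GoodBr b := fun b hb => good_of_red_one b
    (asm_q _ C big _ (TSR.Red_red Cn2 b) (OKq_of_NPE hm (TSR.Red_red Cn2 b) (hb.redE hm Cn2)))
  obtain ⟨D, hD, h1⟩ := anti_of_good T hT r (NP p) hgood (fun inst par dep hR hadj k =>
    NP_brVE hm (hp1 0 0 (by norm_num)) (fun v => p_of_rootE hm hp1 hR hadj hr hr2 hp v) k r)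
  refine ⟨D, hD.1, hD.2, fun m G hG1 hG2 => ?_⟩
  have := h1 m G ⟨hG1, hG2⟩
  rwa [Fintype.card_fin] at this

/-- **Every vertex has odd degree, or degree two, or at most two neighbours which are not
leaves**, from the kinds with an even number of children -/
theorem asm_even (C : Cert Y Adm V P)
    (hE : ∀ (lf tw : Bool) (m : ℕ), 2 ≤ m → Even (lf.toNat + tw.toNat + m) →
      4 ≤ lf.toNat + tw.toNat + m → PoT Y Adm V P lf tw m) (n : ℕ)
    (T : SimpleGraph (Fin n)) (hT : T.IsTree)
    (h : ∀ v, Odd (T.neighborSet v).ncard ∨ (T.neighborSet v).ncard ≤ 3 ∨ nlN T v ≤ 2) :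
    AntiT n T := by
  refine asm_pE (fun a b => a ≤ 2 ∨ b ≤ 1 ∨ Even a) (fun a b a' b' h1 h2 h3 h4 => ?_)
    (fun a b h => Or.inr (Or.inl h)) C (fun lf tw L h1 h2 h3 hPO => ?_) n T hT fun v => ?_
  · rcases h4 with h4 | h4 | h4
    · exact Or.inl (h1.trans h4)
    · exact Or.inr (Or.inl (h3.trans h4))
    · exact Or.inr (Or.inr (by rw [Nat.even_iff] at h4 ⊢; omega))
  · rw [items_length] at h3
    have h4 : Even (lf.toNat + tw.toNat + L.length) := by
      rcases h1 with h1 | h1 | h1
      · omega
      · omega
      · exact h1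
    have h5 : 4 ≤ lf.toNat + tw.toNat + L.length := by
      rw [Nat.even_iff] at h4
      omega
    obtain ⟨N, hI, hN⟩ := itD_exists lf tw L (PO Y Adm V P) hPO
    obtain ⟨tc, hTc⟩ := famT_exists hN hI.hM
    exact hE lf tw L.length h2 h4 h5 _ _ N tc hI hTc
  · rcases h v with h1 | h1 | h1
    · right
      right
      obtain ⟨k, hk⟩ := h1
      rw [hk]
      exact ⟨k, by omega⟩
    · left
      omega
    · right
      left
      omega

/-- **Every vertex has odd degree, or degree at most three, or at most three neighbours which are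
not leaves** -/
theorem asm_even_lbb (C : Cert Y Adm V P) (hL : PoT Y Adm V P true false 2)
    (hP : PoT Y Adm V P false true 2) (hB : PoT Y Adm V P false false 3)
    (hE : ∀ (lf tw : Bool) (m : ℕ), 2 ≤ m → Even (lf.toNat + tw.toNat + m) →
      4 ≤ lf.toNat + tw.toNat + m → PoT Y Adm V P lf tw m) (n : ℕ)
    (T : SimpleGraph (Fin n)) (hT : T.IsTree)
    (h : ∀ v, Odd (T.neighborSet v).ncard ∨ (T.neighborSet v).ncard ≤ 4 ∨ nlN T v ≤ 2) :
    AntiT n T := by
  refine asm_pE (fun a b => a ≤ 3 ∨ b ≤ 1 ∨ Even a) (fun a b a' b' h1 h2 h3 h4 => ?_)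
    (fun a b h => Or.inr (Or.inl h)) C (fun lf tw L h1 h2 h3 hPO => ?_) n T hT fun v => ?_
  · rcases h4 with h4 | h4 | h4
    · exact Or.inl (h1.trans h4)
    · exact Or.inr (Or.inl (h3.trans h4))
    · exact Or.inr (Or.inr (by rw [Nat.even_iff] at h4 ⊢; omega))
  · rw [items_length] at h3
    obtain ⟨N, hI, hN⟩ := itD_exists lf tw L (PO Y Adm V P) hPO
    obtain ⟨tc, hTc⟩ := famT_exists hN hI.hM
    rcases Nat.even_or_odd (lf.toNat + tw.toNat + L.length) with h4 | h4
    · have h5 : 4 ≤ lf.toNat + tw.toNat + L.length := by
        rw [Nat.even_iff] at h4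
        omega
      exact hE lf tw L.length h2 h4 h5 _ _ N tc hI hTc
    · have h5 : lf.toNat + tw.toNat + L.length = 3 := by
        rw [Nat.odd_iff] at h4
        rcases h1 with h1 | h1 | h1
        · omega
        · omega
        · rw [Nat.even_iff] at h1
          omega
      cases lf <;> cases tw <;> simp only [Bool.toNat_false, Bool.toNat_true] at h5
      · have hlen : L.length = 3 := by omega
        rw [hlen] at hI
        exact hB _ _ N tc hI hTc
      · have hlen : L.length = 2 := by omega
        rw [hlen] at hI
        exact hP _ _ N tc hI hTc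
      · have hlen : L.length = 2 := by omega
        rw [hlen] at hI
        exact hL _ _ N tc hI hTc
      · omega
  · rcases h v with h1 | h1 | h1
    · right
      right
      obtain ⟨k, hk⟩ := h1
      rw [hk]
      exact ⟨k, by omega⟩
    · left
      omega
    · right
      left
      omega

end

end Pool.Agent.TSM
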