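import Pool.Agent.TSM.NormR

set_option autoImplicit false

/-!
# Labels and the sums of the signs of the other class (MP_d27362_co)

The label rules again: all initial sums of the signs of the paired sequences are at most one in
absolute value, so the sum of the signs over the other class is bounded as well.
-/

namespace Pool.Agent.TSR

open Finset Polynomial
open Pool.Agent.TLT (sg)
open Pool.Agent.TDN (dn dn_nonneg dn_zero dn_neg dn_add_le dn_parallelogram)

variable {T : ℝ}

/-- all initial sums of the first `n` signs are at most one in absolute value -/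
def PS1 (s : ℕ → Bool) (n : ℕ) : Prop := ∀ m ≤ n, |∑ i ∈ range m, sg (s i)| ≤ 1

lemma PS1.beq {s : ℕ → Bool} {n : ℕ} (h : PS1 s n) (b : Bool) : PS1 (fun i => s i == b) n := by
  intro m hm
  have : ∑ i ∈ range m, sg (s i == b) = sg b * ∑ i ∈ range m, sg (s i) := by
    rw [mul_sum]
    refine sum_congr rfl fun i _ => ?_
    rw [sg_beq, mul_comm]
  rw [this, abs_mul, sg_abs, one_mul]
  exact h m hm

/-- one more pair -/
lemma PS1.pair {s s' : ℕ → Bool} {n : ℕ} (h : PS1 s (2 * n)) (h0 : ∑ i ∈ range (2 * n), sg (s i) = 0)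
    (hs : ∀ i ∈ range (2 * n), s' i = s i) (h1 : s' (2 * n + 1) = !(s' (2 * n))) :
    PS1 s' (2 * (n + 1)) := by
  intro m hm
  rcases Nat.lt_or_ge (2 * n) m with h2 | h2
  · have hs0 : ∑ i ∈ range (2 * n), sg (s' i) = 0 := by
      rw [← h0]
      exact sum_congr rfl fun i hi => by rw [hs i hi]
    rcases Nat.lt_or_ge (2 * n + 1) m with h3 | h3
    · have h4 : m = 2 * n + 1 + 1 := by omega
      rw [h4, sum_range_succ, sum_range_succ, hs0, h1, sg_not']
      norm_num
    · have h4 : m = 2 * n + 1 := by omega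
      rw [h4, sum_range_succ, hs0, zero_add, sg_abs]
  · rw [sum_congr rfl fun i hi => by
      rw [hs i (mem_range.mpr (lt_of_lt_of_le (mem_range.mp hi) h2))]]
    exact h m h2

/-- a sign behind the sequence does not matter -/
lemma PS1.snoc {s : ℕ → Bool} {n : ℕ} (h : PS1 s n) {m : ℕ} (hm : m ≤ n) :
    |∑ i ∈ range m, sg (snoc1 n s i)| ≤ 1 := by
  rw [sum_congr rfl fun i hi => by
    show sg (snoc1 n s i) = sg (s i)
    unfold snoc1
    rw [if_pos (lt_of_lt_of_le (mem_range.mp hi) hm)]]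
  exact h m hm

/-- the sum with the sign `-` in front -/
lemma PS1.cons {s : ℕ → Bool} {n : ℕ} (h : PS1 s n) {m : ℕ} (hm : m ≤ n + 1) :
    -2 ≤ ∑ i ∈ range m, sg (cons1 false s i) ∧ ∑ i ∈ range m, sg (cons1 false s i) ≤ 0 := by
  rcases m with _ | m
  · simp
  · rw [sg_cons1, sg_ff]
    have := abs_le.mp (h m (by omega))
    constructor <;> linarith [this.1, this.2]

/-- pairs of a decreasing sequence, with the exact spread and the initial sums -/
theorem pairs_sprE (hT : 0 ≤ T) (p : ℕ → ℝ[X]) (ha : Antitone fun i => (p i).eval T) (n : ℕ) :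
    ∃ s : ℕ → Bool, ∑ i ∈ range (2 * n), sg (s i) = 0 ∧
      |(ss s p (2 * n)).eval T| ≤ spr T p n ∧
      dn T (ss s p (2 * n)) ^ 2 ≤ 2 * ∑ i ∈ range (2 * n), dn T (p i) ^ 2 ∧ PS1 s (2 * n) := by
  induction n with
  | zero => exact ⟨fun _ => true, by simp, by simp [ss, spr], by simp [ss, dn_zero], fun m hm => by
      rw [Nat.le_zero.mp hm]
      simp⟩
  | succ n ih =>
    obtain ⟨s, h0, h1, h2, hps⟩ := ih
    obtain ⟨b, hb⟩ := flip2 hT (p (2 * n) - p (2 * n + 1)) (ss s p (2 * n))
    set s' : ℕ → Bool := fun i => if i < 2 * n then s i else if i = 2 * n then b else !b with hs'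
    have e0 : ∀ i ∈ range (2 * n), s' i = s i := by
      intro i hi
      rw [hs']
      simp only
      rw [if_pos (mem_range.mp hi)]
    have e1 : s' (2 * n) = b := by
      rw [hs']
      simp
    have e2 : s' (2 * n + 1) = !b := by
      rw [hs']
      simp
    have e3 : 2 * (n + 1) = 2 * n + 1 + 1 := by ring
    have e4 : ss s' p (2 * (n + 1)) =
        sg b • (p (2 * n) - p (2 * n + 1)) + ss s p (2 * n) := by
      unfold ss
      rw [e3, sum_range_succ, sum_range_succ, e1, e2, sg_not',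
        sum_congr rfl fun i hi => by rw [e0 i hi], smul_sub, neg_smul]
      abel
    refine ⟨s', ?_, ?_, ?_, hps.pair h0 e0 (by rw [e1, e2])⟩
    · rw [e3, sum_range_succ, sum_range_succ, e1, e2, sg_not',
        sum_congr rfl fun i hi => by rw [e0 i hi], h0]
      ring
    · rw [e4, eval_add, eval_smul, smul_eq_mul, eval_sub, spr_succ]
      refine (abs_add_le _ _).trans ?_
      rw [abs_mul, sg_abs, one_mul]
      have h5 : (p (2 * n + 1)).eval T ≤ (p (2 * n)).eval T := ha (by omega)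
      rw [abs_of_nonneg (by linarith : 0 ≤ (p (2 * n)).eval T - (p (2 * n + 1)).eval T)]
      linarith
    · rw [e4, e3, sum_range_succ, sum_range_succ]
      have := dn_sub_sq_le hT (p (2 * n)) (p (2 * n + 1))
      linarith

/-- pairs of a decreasing sequence, the flips are chosen with the full norm, with the
initial sums -/
theorem pairs_nnE (hT : 0 ≤ T) {κ : ℝ} (hκ : 0 ≤ κ) (p : ℕ → ℝ[X])
    (ha : Antitone fun i => (p i).eval T) (n : ℕ) :
    ∃ s : ℕ → Bool, ∑ i ∈ range (2 * n), sg (s i) = 0 ∧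
      |(ss s p (2 * n)).eval T| ≤ spr T p n ∧
      nn T κ (ss s p (2 * n)) ≤ ∑ j ∈ range n,
        ((p (2 * j)).eval T - (p (2 * j + 1)).eval T) ^ 2 +
        2 * κ * ∑ i ∈ range (2 * n), dn T (p i) ^ 2 ∧ PS1 s (2 * n) := by
  induction n with
  | zero => exact ⟨fun _ => true, by simp, by simp [ss, spr], by simp [ss, nn_zero], fun m hm => by
      rw [Nat.le_zero.mp hm]
      simp⟩
  | succ n ih =>
    obtain ⟨s, h0, h1, h2, hps⟩ := ih
    obtain ⟨b, hb⟩ := nflip hT κ (p (2 * n) - p (2 * n + 1)) (ss s p (2 * n))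
    set s' : ℕ → Bool := fun i => if i < 2 * n then s i else if i = 2 * n then b else !b with hs'
    have e0 : ∀ i ∈ range (2 * n), s' i = s i := by
      intro i hi
      rw [hs']
      simp only
      rw [if_pos (mem_range.mp hi)]
    have e1 : s' (2 * n) = b := by
      rw [hs']
      simp
    have e2 : s' (2 * n + 1) = !b := by
      rw [hs']
      simp
    have e3 : 2 * (n + 1) = 2 * n + 1 + 1 := by ring
    have e4 : ss s' p (2 * (n + 1)) =
        sg b • (p (2 * n) - p (2 * n + 1)) + ss s p (2 * n) := by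
      unfold ss
      rw [e3, sum_range_succ, sum_range_succ, e1, e2, sg_not',
        sum_congr rfl fun i hi => by rw [e0 i hi], smul_sub, neg_smul]
      abel
    refine ⟨s', ?_, ?_, ?_, hps.pair h0 e0 (by rw [e1, e2])⟩
    · rw [e3, sum_range_succ, sum_range_succ, e1, e2, sg_not',
        sum_congr rfl fun i hi => by rw [e0 i hi], h0]
      ring
    · rw [e4, eval_add, eval_smul, smul_eq_mul, eval_sub, spr_succ]
      refine (abs_add_le _ _).trans ?_
      rw [abs_mul, sg_abs, one_mul]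
      have h5 : (p (2 * n + 1)).eval T ≤ (p (2 * n)).eval T := ha (by omega)
      rw [abs_of_nonneg (by linarith : 0 ≤ (p (2 * n)).eval T - (p (2 * n + 1)).eval T)]
      linarith
    · rw [e4, e3, sum_range_succ, sum_range_succ, sum_range_succ]
      have := nn_sub_le hT hκ (p (2 * n)) (p (2 * n + 1))
      linarith


/-- the second arrangement, odd number of labels -/
theorem lab_seqB (hT : 0 ≤ T) (p w : ℕ → ℝ[X]) (hp : Antitone fun i => (p i).eval T)
    (hw : Antitone fun i => (w i).eval T) (k N : ℕ)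
    (hwN : w (2 * N) = 0)
    (h : max ((p 0).eval T) ((w 0).eval T) < (p (2 * k)).eval T + spr T p k + spr T w N) :
    ∃ s t : ℕ → Bool, ∑ i ∈ range (2 * k + 1), sg (s i) = 1 ∧ s 0 = true ∧ t 0 = false ∧
      |(ss s p (2 * k + 1) + ss t w (2 * N + 1)).eval T| ≤
        max ((p 0).eval T) ((w 0).eval T) ∧
      dn T (ss s p (2 * k + 1) + ss t w (2 * N + 1)) ^ 2 ≤
        2 * (∑ i ∈ range (2 * k + 1), dn T (p i) ^ 2 +
          ∑ i ∈ range (2 * N + 1), dn T (w i) ^ 2) ∧
      ∀ m ≤ 2 * N, -2 ≤ ∑ i ∈ range m, sg (t i) ∧ ∑ i ∈ range m, sg (t i) ≤ 0 := by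
  have hp' : Antitone fun i => (p (i + 1)).eval T := fun i j hij => hp (by omega)
  have hw' : Antitone fun i => (w (i + 1)).eval T := fun i j hij => hw (by omega)
  obtain ⟨s1, h1, h2, h3, _⟩ := pairs_sprE hT (fun i => p (i + 1)) hp' k
  obtain ⟨t1, h4, h5, h6, hps⟩ := pairs_sprE hT (fun i => w (i + 1)) hw' N
  obtain ⟨a, b, hab⟩ := flip3 hT (p 0 - w 0) (ss s1 (fun i => p (i + 1)) (2 * k))
    (ss t1 (fun i => w (i + 1)) (2 * N))
  have e1 : ss (cons1 true fun i => s1 i == a) p (2 * k + 1) =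
      p 0 + sg a • ss s1 (fun i => p (i + 1)) (2 * k) := by
    rw [ss_cons1, ss_beq, sg_tt, one_smul]
  have e2 : ss (cons1 false fun i => t1 i == b) w (2 * N + 1) =
      - w 0 + sg b • ss t1 (fun i => w (i + 1)) (2 * N) := by
    rw [ss_cons1, ss_beq, sg_ff, neg_one_smul]
  have e3 : p 0 + sg a • ss s1 (fun i => p (i + 1)) (2 * k) +
      (- w 0 + sg b • ss t1 (fun i => w (i + 1)) (2 * N)) =
      p 0 - w 0 + sg a • ss s1 (fun i => p (i + 1)) (2 * k) +
        sg b • ss t1 (fun i => w (i + 1)) (2 * N) := by abel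
  have h7 := spr_shift (T := T) p k
  have h8 := spr_shift (T := T) w N
  rw [hwN, eval_zero] at h8
  have h9 : |(p 0).eval T - (w 0).eval T| + spr T (fun i => p (i + 1)) k +
      spr T (fun i => w (i + 1)) N ≤ max ((p 0).eval T) ((w 0).eval T) := by
    rcases le_total ((p 0).eval T) ((w 0).eval T) with h10 | h10
    · rw [max_eq_right h10] at h ⊢
      rw [abs_of_nonpos (by linarith)]
      linarith
    · rw [max_eq_left h10] at h ⊢
      rw [abs_of_nonneg (by linarith)]
      linarith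
  refine ⟨cons1 true fun i => s1 i == a, cons1 false fun i => t1 i == b, ?_, rfl, rfl, ?_, ?_,
    fun m hm => (hps.beq b).cons (by omega)⟩
  · rw [sg_cons1, sg_sum_beq _ _ _ h1, sg_tt, add_zero]
  · rw [e1, e2, e3, eval_add, eval_add, eval_smul, eval_smul, smul_eq_mul, smul_eq_mul,
      eval_sub]
    refine le_trans ?_ h9
    refine (abs_add_le _ _).trans (add_le_add ((abs_add_le _ _).trans (add_le_add le_rfl ?_)) ?_)
    · rw [abs_mul, sg_abs, one_mul]; exact h2
    · rw [abs_mul, sg_abs, one_mul]; exact h5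
  · rw [e1, e2, e3, sum_range_succ' (fun i => dn T (p i) ^ 2),
      sum_range_succ' (fun i => dn T (w i) ^ 2)]
    have := dn_sub_sq_le hT (p 0) (w 0)
    linarith

/-- the sequence version, odd number of labels, with the initial sums -/
theorem lab_seqE (hT : 0 ≤ T) (p w : ℕ → ℝ[X]) (hp : Antitone fun i => (p i).eval T)
    (hw : Antitone fun i => (w i).eval T) (hp0 : ∀ i, 0 ≤ (p i).eval T) (k N : ℕ)
    (hwN : w (2 * N) = 0) :
    ∃ s t : ℕ → Bool, ∑ i ∈ range (2 * k + 1), sg (s i) = 1 ∧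
      |(ss s p (2 * k + 1) + ss t w (2 * N + 1)).eval T| ≤
        max ((p 0).eval T) ((w 0).eval T) ∧
      dn T (ss s p (2 * k + 1) + ss t w (2 * N + 1)) ^ 2 ≤
        2 * (∑ i ∈ range (2 * k + 1), dn T (p i) ^ 2 +
          ∑ i ∈ range (2 * N + 1), dn T (w i) ^ 2) ∧
      ∀ m ≤ 2 * N, -2 ≤ ∑ i ∈ range m, sg (t i) ∧ ∑ i ∈ range m, sg (t i) ≤ 1 := by
  by_cases h : (p (2 * k)).eval T + spr T p k + spr T w N ≤ max ((p 0).eval T) ((w 0).eval T)
  · obtain ⟨s1, h1, h2, h3, _⟩ := pairs_sprE hT p hp k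
    obtain ⟨t1, h4, h5, h6, hps⟩ := pairs_sprE hT w hw N
    obtain ⟨a, b, hab⟩ := flip3 hT (p (2 * k)) (ss s1 p (2 * k)) (ss t1 w (2 * N))
    have e1 : ss (snoc1 (2 * k) fun i => s1 i == a) p (2 * k + 1) =
        sg a • ss s1 p (2 * k) + p (2 * k) := by rw [ss_snoc1, ss_beq]
    have e2 : ss (snoc1 (2 * N) fun i => t1 i == b) w (2 * N + 1) =
        sg b • ss t1 w (2 * N) := by rw [ss_snoc1, ss_beq, hwN, add_zero]
    have e3 : sg a • ss s1 p (2 * k) + p (2 * k) + sg b • ss t1 w (2 * N) =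
        p (2 * k) + sg a • ss s1 p (2 * k) + sg b • ss t1 w (2 * N) := by abel
    refine ⟨snoc1 (2 * k) fun i => s1 i == a, snoc1 (2 * N) fun i => t1 i == b, ?_, ?_, ?_,
      fun m hm => ?_⟩
    · rw [sg_snoc1, sg_sum_beq _ _ _ h1, zero_add]
    · rw [e1, e2, e3, eval_add, eval_add, eval_smul, eval_smul, smul_eq_mul, smul_eq_mul]
      refine le_trans ?_ h
      refine (abs_add_le _ _).trans (add_le_add ((abs_add_le _ _).trans (add_le_add ?_ ?_)) ?_)
      · rw [abs_of_nonneg (hp0 _)]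
      · rw [abs_mul, sg_abs, one_mul]; exact h2
      · rw [abs_mul, sg_abs, one_mul]; exact h5
    · rw [e1, e2, e3, sum_range_succ _ (2 * k), sum_range_succ _ (2 * N)]
      have := sq_nonneg (dn T (p (2 * k)))
      have := sq_nonneg (dn T (w (2 * N)))
      linarith
    · have := abs_le.mp ((hps.beq b).snoc hm)
      constructor <;> linarith [this.1, this.2]
  · push Not at h
    obtain ⟨s, t, h1, _, _, h2, h3, h4⟩ := lab_seqB hT p w hp hw k N hwN h
    exact ⟨s, t, h1, h2, h3, fun m hm => ⟨(h4 m hm).1, (h4 m hm).2.trans zero_le_one⟩⟩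

/-! ### finite families -/

section

variable {ι : Type*} [Fintype ι] (cl : ι → Prop) [DecidablePred cl]

/-- the second arrangement for a class with an even number of members and one more member with
the value zero and the sign `z`; `r` are the roles -/
structure SB (T c : ℝ) (cl : ι → Prop) [DecidablePred cl] (p : ι → ℝ[X]) (r e : ι → Bool)
    (z : Bool) : Prop where
  h1 : ∑ i : {i // cl i}, sg (e i) + sg z = 1
  h2 : -2 ≤ ∑ i : {i // ¬ cl i}, sg (e i)
  h3 : ∑ i : {i // ¬ cl i}, sg (e i) ≤ 0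
  hG : |(∑ i, sg (e i) • p i).eval T| ≤ c
  hG2 : (∑ i, sg (e i) • p i).eval T ^ 2 ≤ ∑ i, (p i).eval T ^ 2
  hd : dn T (∑ i, sg (e i) • p i) ^ 2 ≤ 2 * ∑ i, dn T (p i) ^ 2
  x1 : Fintype.card {i // cl i} ≤ 2 → ∀ i, cl i → r i = true → e i = true
  x0 : Fintype.card {i // ¬ cl i} ≤ 2 → ∀ i, ¬ cl i → r i = true → e i = false

/-- **odd number of members of the class**: the sum of their signs is one, all flips are free,
with the sum of the signs of the other class -/
theorem lab_oneE (hT : 0 ≤ T) (hodd : Odd (Fintype.card {i // cl i})) (p : ι → ℝ[X]) (c : ℝ)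
    (h0 : ∀ i, 0 ≤ (p i).eval T) (hc : ∀ i, (p i).eval T ≤ c) :
    ∃ e : ι → Bool, ∑ i : {i // cl i}, sg (e i) = 1 ∧
      |(∑ i, sg (e i) • p i).eval T| ≤ c ∧
      dn T (∑ i, sg (e i) • p i) ^ 2 ≤ 2 * ∑ i, dn T (p i) ^ 2 ∧
      -2 ≤ ∑ i : {i // ¬ cl i}, sg (e i) ∧ ∑ i : {i // ¬ cl i}, sg (e i) ≤ 1 := by
  obtain ⟨k, hk⟩ := hodd
  obtain ⟨r, a, ha1, ha2, ha3, ha4⟩ := exists_seq (T := T) (fun i : {i // cl i} => p i)
    (fun i => h0 i)
  obtain ⟨r', b, hb1, hb2, hb3, hb4⟩ := exists_seq (T := T) (fun i : {i // ¬ cl i} => p i)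
    (fun i => h0 i)
  obtain ⟨s, t, h1, h2, h3, hps⟩ := lab_seqE hT a b ha1 hb1 ha2 k
    (Fintype.card {i // ¬ cl i}) (hb3 _ (by omega))
  rw [← hk] at h1 h2 h3
  have e1 := ss_fam r (fun i : {i // cl i} => p i) a ha4 s
  have hle : Fintype.card {i // ¬ cl i} ≤ 2 * Fintype.card {i // ¬ cl i} + 1 := by omega
  have e2 : ss t b (2 * Fintype.card {i // ¬ cl i} + 1) =
      ∑ i : {i // ¬ cl i}, sg (t (r'.symm i)) • p i := by
    rw [ss_ext t b hle hb3]
    exact ss_fam r' (fun i : {i // ¬ cl i} => p i) b hb4 t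
  have hcc : 0 ≤ c := by
    have hne : Nonempty {i // cl i} := Fintype.card_pos_iff.mp (by omega)
    exact (h0 hne.some).trans (hc _)
  have ha0 : ∀ i, (a i).eval T ≤ c := by
    intro i
    by_cases hi : i < Fintype.card {i // cl i}
    · rw [ha4 ⟨i, hi⟩]; exact hc _
    · rw [ha3 i (by omega), eval_zero]; exact hcc
  have hb0 : ∀ i, (b i).eval T ≤ c := by
    intro i
    by_cases hi : i < Fintype.card {i // ¬ cl i}
    · rw [hb4 ⟨i, hi⟩]; exact hc _
    · rw [hb3 i (by omega), eval_zero]; exact hcc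
  have key3 : ∑ i : {i // ¬ cl i},
      sg (glue cl (fun i => s (r.symm i)) (fun i => t (r'.symm i)) i) =
        ∑ i ∈ range (Fintype.card {i // ¬ cl i}), sg (t i) := by
    rw [sum_sorted r' (fun i => sg (t (r'.symm i))) (fun i => sg (t i)) fun i => by
      rw [Equiv.symm_apply_apply]]
    exact sum_congr rfl fun i _ => by rw [glue_neg]
  refine ⟨glue cl (fun i => s (r.symm i)) (fun i => t (r'.symm i)), ?_, ?_, ?_,
    key3 ▸ (hps _ (by omega)).1, key3 ▸ (hps _ (by omega)).2⟩
  · rw [← h1, sum_sorted r (fun i => sg (s (r.symm i))) (fun i => sg (s i)) fun i => by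
      rw [Equiv.symm_apply_apply]]
    exact sum_congr rfl fun i _ => by rw [glue_pos]
  · rw [glue_sum, ← e1, ← e2]
    exact h2.trans (max_le (ha0 0) (hb0 0))
  · rw [glue_sum, ← e1, ← e2, sum_cl cl fun i => dn T (p i) ^ 2]
    have e3 : ∑ i ∈ range (Fintype.card {i // cl i}), dn T (a i) ^ 2 =
        ∑ i : {i // cl i}, dn T (p i) ^ 2 :=
      sum_sorted r (fun i : {i // cl i} => dn T (p i) ^ 2) _ fun i => by rw [ha4]
    have e4 : ∑ i ∈ range (2 * Fintype.card {i // ¬ cl i} + 1), dn T (b i) ^ 2 =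
        ∑ i : {i // ¬ cl i}, dn T (p i) ^ 2 := by
      rw [sum_ext (fun i => dn T (b i) ^ 2) hle fun i hi => by
        show dn T (b i) ^ 2 = 0
        rw [hb3 i hi, dn_zero]; norm_num]
      exact sum_sorted r' (fun i : {i // ¬ cl i} => dn T (p i) ^ 2) _ fun i => by rw [hb4]
    rw [e3, e4] at h3
    exact h3

/-- **the dichotomy with the full norm**: the class has an even number of members and the sum of
their signs is zero; `r` are the roles in both classes; with the sums of the signs of the other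
class, and the labels with one more member of the class with the value zero -/
theorem norm_dichE (hT : 0 ≤ T) (hev : Even (Fintype.card {i // cl i})) (p : ι → ℝ[X]) (c : ℝ)
    (hc0 : 0 ≤ c) (h0 : ∀ i, 0 ≤ (p i).eval T) (hc : ∀ i, (p i).eval T ≤ c) {κ : ℝ}
    (hκ : 0 ≤ κ) :
    ∃ r : ι → Bool, ∑ i : {i // cl i}, sg (r i) = 0 ∧
      (Even (Fintype.card {i // ¬ cl i}) → ∑ i : {i // ¬ cl i}, sg (r i) = 0) ∧
      (Odd (Fintype.card {i // ¬ cl i}) → ∑ i : {i // ¬ cl i}, sg (r i) = 1) ∧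
      (∀ c1 c2 : ℝ, 0 ≤ c1 → 0 ≤ c2 → (∀ i, cl i → (p i).eval T ≤ c1) →
        (∀ i, ¬ cl i → (p i).eval T ≤ c2) → ∑ i, sg (r i) * (p i).eval T ≤ c1 + c2) ∧
      ((∃ e : ι → Bool, ∑ i : {i // cl i}, sg (e i) = 0 ∧
        |∑ i : {i // ¬ cl i}, sg (e i)| ≤ 1 ∧
        |(∑ i, sg (e i) • p i).eval T| ≤ c ∧
        (∑ i, sg (e i) • p i).eval T ^ 2 ≤ 2 * ∑ i, (p i).eval T ^ 2 ∧
        dn T (∑ i, sg (e i) • p i) ^ 2 ≤ 2 * ∑ i, dn T (p i) ^ 2) ∨
      (c < ∑ i, sg (r i) * (p i).eval T ∧ (∃ e : ι → Bool, ∑ i : {i // cl i}, sg (e i) = 0 ∧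
        |∑ i : {i // ¬ cl i}, sg (e i)| ≤ 1 ∧ NB T κ c p r (∑ i, sg (e i) • p i)) ∧
        ∃ (e : ι → Bool) (z : Bool), SB T c cl p r e z)) := by
  obtain ⟨k', hk'⟩ := hev
  obtain ⟨r, a, ha1, ha2, ha3, ha4⟩ := exists_seq (T := T) (fun i : {i // cl i} => p i)
    (fun i => h0 i)
  obtain ⟨r', b, hb1, hb2, hb3, hb4⟩ := exists_seq (T := T) (fun i : {i // ¬ cl i} => p i)
    (fun i => h0 i)
  obtain ⟨M, hM⟩ : ∃ M, M = (Fintype.card {i // ¬ cl i} + 1) / 2 := ⟨_, rfl⟩
  have hle' : Fintype.card {i // ¬ cl i} ≤ 2 * M := by omega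
  have hle : Fintype.card {i // cl i} ≤ 2 * k' := by omega
  have ha0 := seq_le r (fun i : {i // cl i} => p i) a ha3 ha4 hc0 (fun i => hc i)
  have hb0 := seq_le r' (fun i : {i // ¬ cl i} => p i) b hb3 hb4 hc0 (fun i => hc i)
  -- the glued signs
  have key : ∀ (s t : ℕ → Bool),
      ∑ i, sg (glue cl (fun i => s (r.symm i)) (fun i => t (r'.symm i)) i) • p i =
        ss s a (2 * k') + ss t b (2 * M) := by
    intro s t
    rw [glue_sum, ss_ext s a hle ha3, ss_ext t b hle' hb3,
      ss_fam r (fun i : {i // cl i} => p i) a ha4 s,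
      ss_fam r' (fun i : {i // ¬ cl i} => p i) b hb4 t]
  have key2 : ∀ (s t : ℕ → Bool),
      ∑ i : {i // cl i}, sg (glue cl (fun i => s (r.symm i)) (fun i => t (r'.symm i)) i) =
        ∑ i ∈ range (Fintype.card {i // cl i}), sg (s i) := by
    intro s t
    rw [sum_sorted r (fun i => sg (s (r.symm i))) (fun i => sg (s i)) fun i => by
      rw [Equiv.symm_apply_apply]]
    exact sum_congr rfl fun i _ => by rw [glue_pos]
  have key3 : ∀ (s t : ℕ → Bool),
      ∑ i : {i // ¬ cl i}, sg (glue cl (fun i => s (r.symm i)) (fun i => t (r'.symm i)) i) =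
        ∑ i ∈ range (Fintype.card {i // ¬ cl i}), sg (t i) := by
    intro s t
    rw [sum_sorted r' (fun i => sg (t (r'.symm i))) (fun i => sg (t i)) fun i => by
      rw [Equiv.symm_apply_apply]]
    exact sum_congr rfl fun i _ => by rw [glue_neg]
  have e3 : ∑ i ∈ range (2 * k'), dn T (a i) ^ 2 = ∑ i : {i // cl i}, dn T (p i) ^ 2 :=
    seq_sum r (fun i : {i // cl i} => p i) a ha3 ha4 (fun q => dn T q ^ 2)
      (by show dn T 0 ^ 2 = 0; rw [dn_zero]; norm_num) hle
  have e4 : ∑ i ∈ range (2 * M), dn T (b i) ^ 2 = ∑ i : {i // ¬ cl i}, dn T (p i) ^ 2 :=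
    seq_sum r' (fun i : {i // ¬ cl i} => p i) b hb3 hb4 (fun q => dn T q ^ 2)
      (by show dn T 0 ^ 2 = 0; rw [dn_zero]; norm_num) hle'
  have e5 : ∑ i ∈ range (2 * k'), (a i).eval T ^ 2 = ∑ i : {i // cl i}, (p i).eval T ^ 2 :=
    seq_sum r (fun i : {i // cl i} => p i) a ha3 ha4 (fun q => q.eval T ^ 2)
      (by show (0 : ℝ[X]).eval T ^ 2 = 0; rw [eval_zero]; norm_num) hle
  have e6 : ∑ i ∈ range (2 * M), (b i).eval T ^ 2 = ∑ i : {i // ¬ cl i}, (p i).eval T ^ 2 :=
    seq_sum r' (fun i : {i // ¬ cl i} => p i) b hb3 hb4 (fun q => q.eval T ^ 2)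
      (by show (0 : ℝ[X]).eval T ^ 2 = 0; rw [eval_zero]; norm_num) hle'
  -- the roles
  set ρ : ι → Bool := glue cl (fun i => rol (r.symm i)) (fun i => rol (r'.symm i)) with hρ
  have f1 : ∀ f : ℝ → ℝ, f 0 = 0 → ∑ i, sg (ρ i) * f ((p i).eval T) =
      ∑ i ∈ range (2 * k'), sg (rol i) * f ((a i).eval T) +
        ∑ i ∈ range (2 * M), sg (rol i) * f ((b i).eval T) := by
    intro f hf
    rw [sum_cl cl fun i => sg (ρ i) * f ((p i).eval T)]
    congr 1
    · rw [sum_ext (fun i => sg (rol i) * f ((a i).eval T)) hle fun i hi => by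
        show sg (rol i) * f ((a i).eval T) = 0
        rw [ha3 i hi, eval_zero, hf, mul_zero]]
      rw [sum_sorted r (fun i : {i // cl i} => sg (ρ i) * f ((p i).eval T))
        (fun i => sg (rol i) * f ((a i).eval T)) fun i => by
          show sg (rol i) * f ((a i).eval T) = _
          rw [ha4, hρ, glue_pos, Equiv.symm_apply_apply]]
    · rw [sum_ext (fun i => sg (rol i) * f ((b i).eval T)) hle' fun i hi => by
        show sg (rol i) * f ((b i).eval T) = 0
        rw [hb3 i hi, eval_zero, hf, mul_zero]]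
      rw [sum_sorted r' (fun i : {i // ¬ cl i} => sg (ρ i) * f ((p i).eval T))
        (fun i => sg (rol i) * f ((b i).eval T)) fun i => by
          show sg (rol i) * f ((b i).eval T) = _
          rw [hb4, hρ, glue_neg, Equiv.symm_apply_apply]]
  have f2 := f1 (fun x => x ^ 2) (by norm_num)
  have f3 := f1 (fun x => x) rfl
  have hrol : ∀ n : ℕ, ∑ i ∈ range (2 * n), sg (rol i) = 0 := by
    intro n
    have := sum_rol (fun _ => 1) n
    simpa using this
  have f4 : ∀ (q : ℕ → ℝ[X]) (n : ℕ), spr T q n =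
      ∑ i ∈ range (2 * n), sg (rol i) * (q i).eval T := by
    intro q n
    rw [sum_rol fun i => (q i).eval T]
    rfl
  have f5 : spr T a k' + spr T b M = ∑ i, sg (ρ i) * (p i).eval T := by
    rw [f4, f4, f3]
  refine ⟨ρ, ?_, fun hE => ?_, fun hO => ?_, fun c1 c2 hc1 hc2 hp1 hp2 => ?_, ?_⟩
  · rw [hρ, key2]
    have : Fintype.card {i // cl i} = 2 * k' := by omega
    rw [this]
    exact hrol k'
  · rw [hρ, key3]
    have : Fintype.card {i // ¬ cl i} = 2 * M := by
      obtain ⟨q, hq⟩ := hE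
      omega
    rw [this]
    exact hrol M
  · rw [hρ, key3]
    obtain ⟨q, hq⟩ := hO
    have hMq : M = q + 1 := by omega
    have h7 := hrol M
    have h8 : 2 * M = 2 * q + 1 + 1 := by omega
    rw [h8, sum_range_succ, rol_odd, sg_ff] at h7
    rw [hq]
    linarith
  · rw [← f5]
    have g1 := spr_le_first a ha1 ha2 k'
    have g2 := spr_le_first b hb1 hb2 M
    have g3 := seq_le r (fun i : {i // cl i} => p i) a ha3 ha4 hc1 (fun i => hp1 _ i.2) 0
    have g4 := seq_le r' (fun i : {i // ¬ cl i} => p i) b hb3 hb4 hc2 (fun i => hp2 _ i.2) 0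
    linarith
  · rcases le_or_gt (∑ i, sg (ρ i) * (p i).eval T) c with h | h
    · left
      obtain ⟨s1, h1, h2, h3, _⟩ := pairs_sprE hT a ha1 k'
      obtain ⟨t1, h4, h5, h6, hps⟩ := pairs_sprE hT b hb1 M
      obtain ⟨z, hz⟩ := flip2 hT (ss t1 b (2 * M)) (ss s1 a (2 * k'))
      have e7 := key s1 (fun i => t1 i == z)
      rw [ss_beq] at e7
      have h7 : |(ss s1 a (2 * k') + sg z • ss t1 b (2 * M)).eval T| ≤
          spr T a k' + spr T b M := by
        rw [eval_add, eval_smul, smul_eq_mul]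
        refine (abs_add_le _ _).trans (add_le_add h2 ?_)
        rw [abs_mul, sg_abs, one_mul]
        exact h5
      refine ⟨glue cl (fun i => s1 (r.symm i)) (fun i => t1 (r'.symm i) == z), ?_, ?_, ?_, ?_, ?_⟩
      rotate_left
      · rw [key3 s1 fun i => t1 i == z]
        exact hps.beq z _ hle'
      · rw [e7]
        exact h7.trans (f5 ▸ h)
      · rw [e7, ← sq_abs]
        have g1 := spr_le_first a ha1 ha2 k'
        have g2 := spr_le_first b hb1 hb2 M
        have h8 := pow_le_pow_left₀ (abs_nonneg _) (h7.trans (add_le_add g1 g2)) 2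
        have h9 := seq_sq (T := T) r' (fun i : {i // ¬ cl i} => p i) b hb3 hb4 0
        have h9' := seq_sq (T := T) r (fun i : {i // cl i} => p i) a ha3 ha4 0
        rw [sum_cl cl fun i => (p i).eval T ^ 2]
        nlinarith [sq_nonneg ((a 0).eval T - (b 0).eval T)]
      · rw [e7, sum_cl cl fun i => dn T (p i) ^ 2, ← e4, ← e3, add_comm (ss s1 a (2 * k'))]
        linarith
      · rw [key2 s1 fun i => t1 i == z]
        have : Fintype.card {i // cl i} = 2 * k' := by omega
        rw [this]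
        exact h1
    · right
      refine ⟨h, ?_, ?_⟩
      rotate_left
      · obtain ⟨s, t, g1, g2, g3, g4, g5, g6⟩ := lab_seqB hT a b ha1 hb1 k' M
          (hb3 _ hle') (by
            have h0' : (a (2 * k')).eval T = 0 := by rw [ha3 _ hle, eval_zero]
            rw [h0', zero_add, f5]
            exact lt_of_le_of_lt (max_le (ha0 0) (hb0 0)) h)
        have e7 := key s t
        have e8 : ss s a (2 * k' + 1) = ss s a (2 * k') := by
          unfold ss
          rw [sum_range_succ, ha3 _ hle, smul_zero, add_zero]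
        have e9 : ss t b (2 * M + 1) = ss t b (2 * M) := by
          unfold ss
          rw [sum_range_succ, hb3 _ hle', smul_zero, add_zero]
        rw [e8, e9, ← e7] at g4 g5
        have hcard : Fintype.card {i // cl i} = 2 * k' := by omega
        refine ⟨_, s (2 * k'), ?_, ?_, ?_, g4.trans (max_le (ha0 0) (hb0 0)), ?_, ?_, ?_, ?_⟩
        · rw [key2, hcard, ← sum_range_succ]
          exact g1
        · rw [key3]
          exact (g6 _ hle').1
        · rw [key3]
          exact (g6 _ hle').2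
        · rw [← sq_abs]
          refine (pow_le_pow_left₀ (abs_nonneg _) g4 2).trans ?_
          have h9 := seq_sq (T := T) r' (fun i : {i // ¬ cl i} => p i) b hb3 hb4 0
          have h9' := seq_sq (T := T) r (fun i : {i // cl i} => p i) a ha3 ha4 0
          rw [sum_cl cl fun i => (p i).eval T ^ 2]
          have h10 := sq_nonneg ((a 0).eval T)
          have h11 := sq_nonneg ((b 0).eval T)
          rcases max_choice ((a 0).eval T) ((b 0).eval T) with h12 | h12 <;> rw [h12] <;> linarith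
        · rw [sum_cl cl fun i => dn T (p i) ^ 2, ← e4, ← e3]
          refine g5.trans_eq ?_
          rw [sum_range_succ _ (2 * k'), sum_range_succ _ (2 * M), ha3 _ hle, hb3 _ hle', dn_zero]
          ring
        · intro hc i hi hri
          have h12 : ρ i = rol (r.symm ⟨i, hi⟩) := by rw [hρ]; exact glue_pos _ _ _ ⟨i, hi⟩
          have h13 : glue cl (fun i => s (r.symm i)) (fun i => t (r'.symm i)) i =
              s (r.symm ⟨i, hi⟩) := glue_pos _ _ _ ⟨i, hi⟩
          rw [h12] at hri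
          have h14 := (r.symm ⟨i, hi⟩).2
          rw [h13]
          have h15 : ((r.symm ⟨i, hi⟩ : Fin _) : ℕ) = 0 := by
            by_contra h16
            have h17 : ((r.symm ⟨i, hi⟩ : Fin _) : ℕ) = 2 * 0 + 1 := by omega
            rw [h17, rol_odd] at hri
            exact absurd hri (by decide)
          rw [h15]
          exact g2
        · intro hc i hi hri
          have h12 : ρ i = rol (r'.symm ⟨i, hi⟩) := by rw [hρ]; exact glue_neg _ _ _ ⟨i, hi⟩
          have h13 : glue cl (fun i => s (r.symm i)) (fun i => t (r'.symm i)) i =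
              t (r'.symm ⟨i, hi⟩) := glue_neg _ _ _ ⟨i, hi⟩
          rw [h12] at hri
          have h14 := (r'.symm ⟨i, hi⟩).2
          rw [h13]
          have h15 : ((r'.symm ⟨i, hi⟩ : Fin _) : ℕ) = 0 := by
            by_contra h16
            have h17 : ((r'.symm ⟨i, hi⟩ : Fin _) : ℕ) = 2 * 0 + 1 := by omega
            rw [h17, rol_odd] at hri
            exact absurd hri (by decide)
          rw [h15]
          exact g3
      obtain ⟨s1, h1, h2, h3, _⟩ := pairs_nnE hT hκ a ha1 k'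
      obtain ⟨t1, h4, h5, h6, hps⟩ := pairs_nnE hT hκ b hb1 M
      obtain ⟨z, hz⟩ := nflip hT κ (ss t1 b (2 * M)) (ss s1 a (2 * k'))
      have e7 := key s1 (fun i => t1 i == z)
      rw [ss_beq] at e7
      have h7 : |(ss s1 a (2 * k') + sg z • ss t1 b (2 * M)).eval T| ≤
          spr T a k' + spr T b M := by
        rw [eval_add, eval_smul, smul_eq_mul]
        refine (abs_add_le _ _).trans (add_le_add h2 ?_)
        rw [abs_mul, sg_abs, one_mul]
        exact h5
      obtain ⟨p1, p2, p3⟩ := pair_sums a ha1 ha2 ha0 k'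
      obtain ⟨q1, q2, q3⟩ := pair_sums b hb1 hb2 hb0 M
      refine ⟨glue cl (fun i => s1 (r.symm i)) (fun i => t1 (r'.symm i) == z), ?_, ?_,
        ?_, ?_, ?_, ?_, ?_⟩
      rotate_left
      · rw [key3 s1 fun i => t1 i == z]
        exact hps.beq z _ hle'
      · rw [e7, sum_cl cl fun i => (p i).eval T ^ 2, sum_cl cl fun i => dn T (p i) ^ 2, ← e3,
          ← e4, ← e5, ← e6, add_comm (ss s1 a (2 * k'))]
        linarith
      · rw [e7, sum_cl cl fun i => dn T (p i) ^ 2, ← e3, ← e4, f2,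
          add_comm (ss s1 a (2 * k'))]
        linarith
      · rw [e7, sum_cl cl fun i => dn T (p i) ^ 2, ← e3, ← e4, f3,
          add_comm (ss s1 a (2 * k'))]
        linarith
      · rw [e7, ← f5]
        exact h7
      · rw [e7]
        have g1 := spr_le_first a ha1 ha2 k'
        have g2 := spr_le_first b hb1 hb2 M
        linarith [ha0 0, hb0 0]
      · rw [key2 s1 fun i => t1 i == z]
        have : Fintype.card {i // cl i} = 2 * k' := by omega
        rw [this]
        exact h1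

end

end Pool.Agent.TSR
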