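import Pool.Agent.TSM.Lab5
import Pool.Agent.TSM.NormL
import Pool.Agent.TSM.LabE

set_option autoImplicit false

/-!
# Labels of families with an even number of children, with the sums of the signs (MP_d27362_co)
-/

namespace Pool.Agent.TSM

open Finset Polynomial
open Pool.Agent.TSP
open Pool.Agent.TSO
open Pool.Agent.TSR (OBr Ker lab_oneE norm_dichE SB nn)
open Pool.Agent.TLT (sg)
open Pool.Agent.TDN (dn dn_nonneg)

noncomputable section

variable {Y : Sys} {Adm : ℕ → ℝ → ℝ → ℝ → ℝ → Prop} {V P : ℝ → ℝ → Sn → ℝ} {χ : ℝ → ℝ}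
  {K : ℕ} {O : Fin K → OBr} {N : Finset (Fin K)} {lf tw : Bool} {m : ℕ}

/-- the sum of the signs of the nontrivial children with `τ = 1` -/
def eS1 {K : ℕ} (O : Fin K → OBr) (N : Finset (Fin K)) (e : Fin K → Bool) : ℝ :=
  ∑ i ∈ N.filter (fun i => tau (O i) = 1), sg (e i)

/-- the sum of the signs of the nontrivial children with `τ = 0` -/
def eS0 {K : ℕ} (O : Fin K → OBr) (N : Finset (Fin K)) (e : Fin K → Bool) : ℝ :=
  ∑ i ∈ N.filter (fun i => ¬ tau (O i) = 1), sg (e i)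

lemma cls_sum1 (O : Fin K → OBr) (N : Finset (Fin K)) (f : Fin K → ℝ) :
    ∑ i : {i : N // tau (O i) = 1}, f i.1 = ∑ i ∈ N.filter (fun i => tau (O i) = 1), f i := by
  rw [sum_filter, ← sum_coe_sort N, ← sum_filter]
  exact (sum_subtype (univ.filter fun i : N => tau (O i) = 1) (fun i => by simp)
    (fun i : N => f i)).symm

lemma cls_sum0 (O : Fin K → OBr) (N : Finset (Fin K)) (f : Fin K → ℝ) :
    ∑ i : {i : N // ¬ tau (O i) = 1}, f i.1 =
      ∑ i ∈ N.filter (fun i => ¬ tau (O i) = 1), f i := by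
  rw [sum_filter, ← sum_coe_sort N, ← sum_filter]
  exact (sum_subtype (univ.filter fun i : N => ¬ tau (O i) = 1) (fun i => by simp)
    (fun i : N => f i)).symm

lemma cls_card1 (O : Fin K → OBr) (N : Finset (Fin K)) :
    Fintype.card {i : N // tau (O i) = 1} = c1 O N := by
  have h1 := cls_sum1 O N fun _ => 1
  simp only [sum_const, card_univ, nsmul_eq_mul, mul_one] at h1
  exact_mod_cast h1

lemma cls_card0 (O : Fin K → OBr) (N : Finset (Fin K)) :
    Fintype.card {i : N // ¬ tau (O i) = 1} = N.card - c1 O N := by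
  have h1 := Fintype.card_subtype_compl fun i : N => tau (O i) = 1
  rw [cls_card1, Fintype.card_coe] at h1
  exact h1

lemma c1_le (O : Fin K → OBr) (N : Finset (Fin K)) : c1 O N ≤ N.card := card_filter_le _ _

/-- labels on `N` and one label for the rest -/
lemma ext_lab (hO : FamO O N) (s : N → Bool) (z : Bool) : ∃ e : Fin K → Bool,
    (∀ i : N, e i = s i) ∧ (∀ i ∉ N, e i = z) ∧ gU e O = ∑ i : N, sg (s i) • UU (O i) ∧
    eS1 O N e = ∑ i : {i : N // tau (O i) = 1}, sg (s i) ∧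
    eS0 O N e = ∑ i : {i : N // ¬ tau (O i) = 1}, sg (s i) := by
  classical
  obtain ⟨e, h1, h2⟩ : ∃ e : Fin K → Bool, (∀ i : N, e i = s i) ∧ (∀ i ∉ N, e i = z) :=
    ⟨fun i => if hi : i ∈ N then s ⟨i, hi⟩ else z, fun i => by
      show (if hi : (i : Fin K) ∈ N then s ⟨i, hi⟩ else z) = s i
      rw [dif_pos i.2], fun i hi => dif_neg hi⟩
  refine ⟨e, h1, h2, ?_, ?_, ?_⟩
  · rw [hO.gU_N, ← sum_coe_sort N fun i => sg (e i) • UU (O i)]
    exact sum_congr rfl fun i _ => by rw [h1]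
  · unfold eS1
    rw [← cls_sum1 O N fun i => sg (e i)]
    exact sum_congr rfl fun i _ => by rw [h1]
  · unfold eS0
    rw [← cls_sum0 O N fun i => sg (e i)]
    exact sum_congr rfl fun i _ => by rw [h1]

lemma eS1_not (O : Fin K → OBr) (N : Finset (Fin K)) (e : Fin K → Bool) :
    eS1 O N (fun i => !(e i)) = -eS1 O N e := by
  unfold eS1
  rw [← sum_neg_distrib]
  exact sum_congr rfl fun i _ => TSR.sg_not' _

lemma eS0_not (O : Fin K → OBr) (N : Finset (Fin K)) (e : Fin K → Bool) :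
    eS0 O N (fun i => !(e i)) = -eS0 O N e := by
  unfold eS0
  rw [← sum_neg_distrib]
  exact sum_congr rfl fun i _ => TSR.sg_not' _

/-- the labels over the nontrivial children -/
lemma sum_tauN (hO : FamO O N) (e : Fin K → Bool) :
    ∑ k ∈ N, sg (e k) * tau (O k) = eS1 O N e := by
  unfold eS1
  rw [sum_filter]
  refine sum_congr rfl fun i _ => ?_
  rcases (hO.hI i).1 with h | h
  · rw [h, if_neg (by norm_num), mul_zero]
  · rw [h, if_pos rfl, mul_one]

/-- the sum of the labels without the path -/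
lemma ItD.lab0 (hI : ItD lf false m O N) (hO : FamO O N) (e : Fin K → Bool) :
    ∑ k, sg (e k) * tau (O k) = eS1 O N e := by
  rw [← sum_tauN hO, ← sum_subset (subset_univ N)]
  intro i _ hi
  rw [hI.ht' rfl i hi, tau_nil, mul_zero]

/-- the sum of the labels with the path -/
lemma ItD.lab1 (hI : ItD lf true m O N) (hO : FamO O N) {z : Bool} {e : Fin K → Bool}
    (h : ∀ i ∉ N, e i = z) : ∑ k, sg (e k) * tau (O k) = sg z + eS1 O N e := by
  obtain ⟨j, hj, hj1, hj2⟩ := hI.ht rfl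
  rw [hI.sum_tau hj hj1 hj2, sum_tauN hO, h j hj]

/-- labels from their sum and the value of `G` -/
lemma labD_mk {e : Fin K → Bool} {n : ℕ} (hn : n ≤ 1) (hs : ∑ k, sg (e k) * tau (O k) = n)
    {fv : ℝ} (hG : |(gU e O).eval q0| ≤ 2) (h0 : n = 0 → (gU e O).eval q0 ≤ 0)
    (h3 : (gU e O).eval q0 ^ 2 ≤ fv * ∑ i, vU (O i) ^ 2)
    (h4 : dn q0 (gU e O) ^ 2 ≤ 2 * ∑ i, aU (O i) ^ 2) : LabD O e n 4 fv := by
  have hq := q0_pos
  have hq1 := q0_le
  have h5 := abs_le.mp hG
  refine ⟨fun σ => by rw [YY_sum, hs], by nlinarith, ?_, ?_, h3, h4⟩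
  · interval_cases n
    · have := h0 rfl
      push_cast
      nlinarith
    · push_cast
      nlinarith
  · interval_cases n
    · push_cast
      nlinarith
    · push_cast
      nlinarith

lemma sumsq_N (hO : FamO O N) : ∑ i, vU (O i) ^ 2 = ∑ i : N, (UU (O i)).eval q0 ^ 2 := by
  rw [sum_coe_sort N fun i => (UU (O i)).eval q0 ^ 2, ← sum_subset (subset_univ N)]
  · rfl
  · intro i _ hi
    unfold vU
    rw [hO.UU0 hi, eval_zero]
    norm_num

lemma sumdn_N (hO : FamO O N) : ∑ i, aU (O i) ^ 2 = ∑ i : N, dn q0 (UU (O i)) ^ 2 := by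
  rw [sum_coe_sort N fun i => dn q0 (UU (O i)) ^ 2, ← sum_subset (subset_univ N)]
  · rfl
  · intro i _ hi
    unfold aU
    rw [hO.UU0 hi, TDN.dn_zero]
    norm_num

/-- the labels, the sums of the signs and the sign of the value of `G` -/
structure LbE {K : ℕ} (O : Fin K → OBr) (N : Finset (Fin K)) (e : Fin K → Bool) (n gs : ℕ)
    (fv l1 h1 l0 h0 : ℝ) : Prop where
  hL : LabD O e n 4 fv
  a1 : l1 ≤ eS1 O N e
  b1 : eS1 O N e ≤ h1
  a0 : l0 ≤ eS0 O N e
  b0 : eS0 O N e ≤ h0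
  g1 : gs = 1 → (gU e O).eval q0 ≤ 0
  g2 : gs = 2 → 0 ≤ (gU e O).eval q0

/-- the labels without the path, odd number of children with `τ = 1` -/
theorem lbE_one (hI : ItD lf false m O N) (hO : FamO O N) (hc : Odd (c1 O N)) :
    ∃ e : Fin K → Bool, LbE O N e 1 0 1 1 1 (-2) 1 := by
  have h := hO.hI
  set c := capv 2 fun i => vU (O i) with hcd
  have hc2 : c ≤ 2 := capv_le _ _
  have hcs : c ^ 2 ≤ ∑ i, vU (O i) ^ 2 := capv_sq (by norm_num) _
  obtain ⟨s, h1, h2, h3, h4, h5⟩ := lab_oneE (T := q0) (fun i : N => tau (O i) = 1)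
    q0_pos.le (by rw [cls_card1]; exact hc) (fun i : N => UU (O i)) c (fun i => (h i).2.1)
    (fun i => le_capv (v := fun i => vU (O i)) (fun i => (h i).2.2.1) i)
  obtain ⟨e, _, _, g3, g4, g5⟩ := ext_lab hO s true
  rw [← g3] at h2 h3
  rw [← g4] at h1
  rw [← g5] at h4 h5
  refine ⟨e, labD_mk le_rfl (by rw [hI.lab0 hO, h1, Nat.cast_one]) (h2.trans hc2)
    (fun h => absurd h one_ne_zero) ?_ (by rw [sumdn_N hO]; exact h3), h1.ge, h1.le, h4, h5,
    fun h => absurd h (by norm_num), fun h => absurd h (by norm_num)⟩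
  rw [one_mul]
  refine le_trans ?_ hcs
  rw [← sq_abs]
  exact pow_le_pow_left₀ (abs_nonneg _) h2 2

/-- the labels with the path, odd number of children with `τ = 1` -/
theorem lbE_path0 (hI : ItD lf true m O N) (hO : FamO O N) (hc : Odd (c1 O N)) :
    ∃ e : Fin K → Bool, LbE O N e 0 1 1 (-1) 1 (-2) 2 := by
  have h := hO.hI
  set c := capv 2 fun i => vU (O i) with hcd
  have hc2 : c ≤ 2 := capv_le _ _
  have hcs : c ^ 2 ≤ ∑ i, vU (O i) ^ 2 := capv_sq (by norm_num) _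
  obtain ⟨s, h1, h2, h3, h4, h5⟩ := lab_oneE (T := q0) (fun i : N => tau (O i) = 1)
    q0_pos.le (by rw [cls_card1]; exact hc) (fun i : N => UU (O i)) c (fun i => (h i).2.1)
    (fun i => le_capv (v := fun i => vU (O i)) (fun i => (h i).2.2.1) i)
  obtain ⟨e, _, g2, g3, g4, g5⟩ := ext_lab hO s false
  rw [← g3] at h2 h3
  rw [← g4] at h1
  rw [← g5] at h4 h5
  have hs : ∑ k, sg (e k) * tau (O k) = 0 := by
    rw [hI.lab1 hO g2, h1, TSR.sg_ff]
    norm_num
  have h6 : (gU e O).eval q0 ^ 2 ≤ ∑ i, vU (O i) ^ 2 := by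
    refine le_trans ?_ hcs
    rw [← sq_abs]
    exact pow_le_pow_left₀ (abs_nonneg _) h2 2
  obtain ⟨e', he, hL⟩ := labD_zero_of hs (h2.trans hc2) h6 (by rw [sumdn_N hO]; exact h3)
  refine ⟨e', ⟨hL, ?_, ?_, ?_, ?_, fun _ => hL.G0, fun h => absurd h (by norm_num)⟩⟩
  all_goals
    rcases he with he | he <;> rw [he]
    · linarith
    · first | rw [eS1_not] | rw [eS0_not]
      linarith

/-- the labels, even number of children with `τ = 1`: the sum is zero -/
theorem lbE_dich (hO : FamO O N) (hc : Even (c1 O N)) {κ : ℝ} (hκ : 0 ≤ κ) :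
    ∃ r : N → Bool, ∑ i : {i : N // tau (O i) = 1}, sg (r i) = 0 ∧
      (Even (N.card - c1 O N) → ∑ i : {i : N // ¬ tau (O i) = 1}, sg (r i) = 0) ∧
      (Odd (N.card - c1 O N) → ∑ i : {i : N // ¬ tau (O i) = 1}, sg (r i) = 1) ∧
      ((∃ e : N → Bool, ∑ i : {i : N // tau (O i) = 1}, sg (e i) = 0 ∧
        |∑ i : {i : N // ¬ tau (O i) = 1}, sg (e i)| ≤ 1 ∧
        |(∑ i : N, sg (e i) • UU (O i)).eval q0| ≤ 2 ∧
        (∑ i : N, sg (e i) • UU (O i)).eval q0 ^ 2 ≤ 2 * ∑ i : N, (UU (O i)).eval q0 ^ 2 ∧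
        dn q0 (∑ i : N, sg (e i) • UU (O i)) ^ 2 ≤ 2 * ∑ i : N, dn q0 (UU (O i)) ^ 2) ∨
      (2 < ∑ i : N, sg (r i) * (UU (O i)).eval q0 ∧
        (∃ e : N → Bool, ∑ i : {i : N // tau (O i) = 1}, sg (e i) = 0 ∧
        |∑ i : {i : N // ¬ tau (O i) = 1}, sg (e i)| ≤ 1 ∧
        TSR.NB q0 κ 2 (fun i : N => UU (O i)) r (∑ i : N, sg (e i) • UU (O i))) ∧
        ∃ (e : N → Bool) (z : Bool), SB q0 2 (fun i : N => tau (O i) = 1)
          (fun i : N => UU (O i)) r e z)) := by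
  obtain ⟨r, h1, h2, h3, _, h5⟩ := norm_dichE (T := q0) (fun i : N => tau (O i) = 1)
    q0_pos.le (by rw [cls_card1]; exact hc) (fun i : N => UU (O i)) 2 (by norm_num)
    (fun i => (hO.hI i).2.1) (fun i => (hO.hI i).2.2.1) hκ
  rw [cls_card0] at h2 h3
  exact ⟨r, h1, h2, h3, h5⟩

/-- the labels, one class: the sum is zero and the value of `G` is at most the norm -/
theorem lbE_cls (hO : FamO O N) (hc : Even (c1 O N))
    (hS : (∀ i ∈ N, tau (O i) = 0) ∨ ∀ i ∈ N, tau (O i) = 1) :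
    ∃ s : N → Bool, ∑ i : {i : N // tau (O i) = 1}, sg (s i) = 0 ∧
      |∑ i : {i : N // ¬ tau (O i) = 1}, sg (s i)| ≤ 1 ∧
      |(∑ i : N, sg (s i) • UU (O i)).eval q0| ≤ 2 ∧
      (∑ i : N, sg (s i) • UU (O i)).eval q0 ^ 2 ≤ ∑ i : N, (UU (O i)).eval q0 ^ 2 ∧
      dn q0 (∑ i : N, sg (s i) • UU (O i)) ^ 2 ≤ 2 * ∑ i : N, dn q0 (UU (O i)) ^ 2 := by
  have h := hO.hI
  set c := capv 2 fun i => vU (O i) with hcd
  have hc2 : c ≤ 2 := capv_le _ _
  have hc0 : 0 ≤ c := capv_nonneg (by norm_num) _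
  have hcs : c ^ 2 ≤ ∑ i, vU (O i) ^ 2 := capv_sq (by norm_num) _
  have hcv : ∀ i, (UU (O i)).eval q0 ≤ c :=
    fun i => le_capv (v := fun i => vU (O i)) (fun i => (h i).2.2.1) i
  obtain ⟨r, _, _, _, h4, h5⟩ := norm_dichE (T := q0) (fun i : N => tau (O i) = 1)
    q0_pos.le (by rw [cls_card1]; exact hc) (fun i : N => UU (O i)) c hc0
    (fun i => (h i).2.1) (fun i => hcv i) (κ := 0) le_rfl
  rcases h5 with ⟨s, g1, g2, g3, _, g5⟩ | ⟨h6, _⟩
  · refine ⟨s, g1, g2, g3.trans hc2, ?_, g5⟩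
    rw [← sumsq_N hO]
    refine le_trans ?_ hcs
    rw [← sq_abs]
    exact pow_le_pow_left₀ (abs_nonneg _) g3 2
  · exfalso
    rcases hS with hS | hS
    · have h7 := h4 0 c le_rfl hc0 (fun i hi => by
        have := hS i i.2
        rw [hi] at this
        norm_num at this) fun i _ => hcv i
      linarith
    · have h7 := h4 c 0 hc0 le_rfl (fun i _ => hcv i) (fun i hi => absurd (hS i i.2) hi)
      linarith

/-- the labels without the path, one class, label zero -/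
theorem lbE_S (hI : ItD lf false m O N) (hO : FamO O N) (hc : Even (c1 O N))
    (hS : OneCl m (c1 O N)) : ∃ e : Fin K → Bool, LbE O N e 0 1 1 0 0 (-1) 1 := by
  obtain ⟨s, h1, h2, h3, h4, h5⟩ := lbE_cls hO hc (oneCl_tau hO hI.hN hS)
  obtain ⟨e, _, _, g3, g4, g5⟩ := ext_lab hO s true
  rw [← g3] at h3 h4 h5
  rw [← g4] at h1
  rw [← g5] at h2
  have h2 := abs_le.mp h2
  obtain ⟨e', he, hL⟩ := labD_zero_of (by rw [hI.lab0 hO, h1]) h3
    (by rw [sumsq_N hO]; exact h4) (by rw [sumdn_N hO]; exact h5)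
  refine ⟨e', ⟨hL, ?_, ?_, ?_, ?_, fun _ => hL.G0, fun h => absurd h (by norm_num)⟩⟩
  all_goals
    rcases he with he | he <;> rw [he]
    · linarith
    · first | rw [eS1_not] | rw [eS0_not]
      linarith

/-- the labels without the path, two classes, label zero -/
theorem lbE_AN (hI : ItD lf false m O N) (hO : FamO O N) (hc : Even (c1 O N)) {κ : ℝ}
    (hκ : 0 ≤ κ) : (∃ e : Fin K → Bool, LbE O N e 0 1 2 0 0 (-1) 1) ∨
      ∃ e r : Fin K → Bool, NRd m O N e r κ ∧ LabD O e 0 16 m m ∧ eS1 O N e = 0 ∧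
        -1 ≤ eS0 O N e ∧ eS0 O N e ≤ 1 := by
  have hcm : c1 O N ≤ m := by
    rw [← hI.hN]
    exact c1_le O N
  obtain ⟨r, hr1, hr0, hr0', h5⟩ := lbE_dich hO hc hκ
  rcases h5 with ⟨s, h1, h2, h3, h4, h5⟩ | ⟨hlt, ⟨s, h1, h2, hB⟩, _⟩
  · left
    obtain ⟨e, _, _, g3, g4, g5⟩ := ext_lab hO s true
    rw [← g3] at h3 h4 h5
    rw [← g4] at h1
    rw [← g5] at h2
    have h2 := abs_le.mp h2
    obtain ⟨e', he, hG, hL⟩ := labD_zero_gen (vm := 4) (fv := 2) (fg := 2)
      (by rw [hI.lab0 hO, h1]) le_rfl (by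
        rw [← sq_abs]
        have := pow_le_pow_left₀ (abs_nonneg _) h3 2
        linarith) (by rw [sumsq_N hO]; exact h4) (by rw [sumdn_N hO]; exact h5)
    refine ⟨e', ⟨hL, ?_, ?_, ?_, ?_, fun _ => hG, fun h => absurd h (by norm_num)⟩⟩
    all_goals
      rcases he with he | he <;> rw [he]
      · linarith
      · first | rw [eS1_not] | rw [eS0_not]
        linarith
  · right
    obtain ⟨e, _, _, g3, g4, g5⟩ := ext_lab hO s true
    obtain ⟨r', hr', _, _, g4', g5'⟩ := ext_lab hO r true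
    rw [← g4] at h1
    rw [← g5] at h2
    have h2 := abs_le.mp h2
    have hr2 : ∑ i, sg (r' i) * vU (O i) ^ 2 =
        ∑ i : N, sg (r i) * (UU (O i)).eval q0 ^ 2 := by
      rw [← sum_subset (subset_univ N) fun i _ hi => by
        unfold vU; rw [hO.UU0 hi, eval_zero]; norm_num,
        ← sum_coe_sort N fun i => sg (r' i) * vU (O i) ^ 2]
      exact sum_congr rfl fun i _ => by rw [hr']; rfl
    have hr3 : ∑ i, sg (r' i) * vU (O i) = ∑ i : N, sg (r i) * (UU (O i)).eval q0 := by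
      rw [← sum_subset (subset_univ N) fun i _ hi => by
        unfold vU; rw [hO.UU0 hi, eval_zero, mul_zero],
        ← sum_coe_sort N fun i => sg (r' i) * vU (O i)]
      exact sum_congr rfl fun i _ => by rw [hr']; rfl
    have hv := sumsq_N hO
    have ha := sumdn_N hO
    have key : ∀ e' : Fin K → Bool, (e' = e ∨ e' = fun i => !(e i)) → NR O e' r' κ := by
      intro e' he'
      have n1 := hB.h1
      have n2 := hB.h2
      have n3 := hB.h3
      have n4 := hB.h4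
      have n5 := hB.h5
      unfold nn at n1 n2 n3
      have q1 : (gU e' O).eval q0 ^ 2 = (gU e O).eval q0 ^ 2 := by
        rcases he' with rfl | rfl
        · rfl
        · rw [gU_not, eval_neg, neg_sq]
      have q2 : dn q0 (gU e' O) = dn q0 (gU e O) := by
        rcases he' with rfl | rfl
        · rfl
        · rw [gU_not, TDN.dn_neg]
      have q3 : |(gU e' O).eval q0| = |(gU e O).eval q0| := by
        rcases he' with rfl | rfl
        · rfl
        · rw [gU_not, eval_neg, abs_neg]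
      rw [← g3, ← hv, ← ha] at n1
      rw [← g3, ← hr2, ← ha] at n2
      rw [← g3, ← hr3, ← ha] at n3
      rw [← g3, ← hr3] at n4
      rw [← g3] at n5
      refine ⟨by rw [q1, q2]; exact n1, by rw [q1, q2]; exact n2, by rw [q1, q2]; exact n3,
        by rw [q3]; exact n4, by rw [q3]; linarith, ?_⟩
      rw [hr3]
      exact hlt.le
    have kr : ∀ e' : Fin K → Bool, (e' = e ∨ e' = fun i => !(e i)) →
        NRd m O N e' r' κ := by
      intro e' he'
      refine ⟨key e' he', ?_, fun hE => ?_, fun hO' => ?_⟩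
      · show eS1 O N r' = 0
        rw [g4', hr1]
      · show eS0 O N r' = 0
        rw [g5', hr0 (by rw [hI.hN]; exact (Nat.even_sub hcm).mpr (by simp [hE, hc]))]
      · show eS0 O N r' = 1
        rw [g5', hr0' (by rw [hI.hN]; exact Nat.Odd.sub_even hcm hO' hc)]
    have h5 : |(gU e O).eval q0| ≤ 4 := (key _ (Or.inl rfl)).h5
    have hs : ∑ k, sg (e k) * tau (O k) = 0 := by rw [hI.lab0 hO, h1]
    rcases le_total ((gU e O).eval q0) 0 with h6 | h6
    · exact ⟨_, _, kr _ (Or.inl rfl), labD_four hO hI.hN hs h5 h6, h1, h2.1, h2.2⟩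
    · refine ⟨_, _, kr _ (Or.inr rfl), labD_four hO hI.hN ?_ ?_ ?_, ?_, ?_, ?_⟩
      · rw [hI.lab0 hO, eS1_not, h1, neg_zero]
      · rw [gU_not, eval_neg, abs_neg]
        exact h5
      · rw [gU_not, eval_neg]
        linarith
      · rw [eS1_not, h1, neg_zero]
      · rw [eS0_not]
        linarith
      · rw [eS0_not]
        linarith

/-- the global sign with `0 ≤ G`, with the path -/
lemma lbE_pos (hI : ItD lf true m O N) (hO : FamO O N) {s : N → Bool} {fv : ℝ}
    (h1 : ∑ i : {i : N // tau (O i) = 1}, sg (s i) = 0)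
    (h2 : |∑ i : {i : N // ¬ tau (O i) = 1}, sg (s i)| ≤ 1)
    (h3 : |(∑ i : N, sg (s i) • UU (O i)).eval q0| ≤ 2)
    (h4 : (∑ i : N, sg (s i) • UU (O i)).eval q0 ^ 2 ≤ fv * ∑ i : N, (UU (O i)).eval q0 ^ 2)
    (h5 : dn q0 (∑ i : N, sg (s i) • UU (O i)) ^ 2 ≤ 2 * ∑ i : N, dn q0 (UU (O i)) ^ 2) :
    ∃ e : Fin K → Bool, LbE O N e 1 2 fv 0 0 (-1) 1 := by
  have key : ∀ e : Fin K → Bool, (∀ i ∉ N, e i = true) → eS1 O N e = 0 → |eS0 O N e| ≤ 1 →
      |(gU e O).eval q0| ≤ 2 → (gU e O).eval q0 ^ 2 ≤ fv * ∑ i : N, (UU (O i)).eval q0 ^ 2 →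
      dn q0 (gU e O) ^ 2 ≤ 2 * ∑ i : N, dn q0 (UU (O i)) ^ 2 → 0 ≤ (gU e O).eval q0 →
      LbE O N e 1 2 fv 0 0 (-1) 1 := by
    intro e q1 q2 q3 q4 q5 q6 q7
    have q3 := abs_le.mp q3
    exact ⟨labD_mk le_rfl (by rw [hI.lab1 hO q1, q2, TSR.sg_tt, Nat.cast_one, add_zero]) q4
      (fun h => absurd h one_ne_zero) (by rw [sumsq_N hO]; exact q5)
      (by rw [sumdn_N hO]; exact q6), q2.ge, q2.le, q3.1, q3.2, fun h => absurd h (by norm_num),
      fun _ => q7⟩
  obtain ⟨e, _, g2, g3, g4, g5⟩ := ext_lab hO s true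
  rw [← g3] at h3 h4 h5
  rcases le_total 0 ((gU e O).eval q0) with h6 | h6
  · exact ⟨e, key e g2 (g4.trans h1) (g5 ▸ h2) h3 h4 h5 h6⟩
  · obtain ⟨e', _, p2, p3, p4, p5⟩ := ext_lab hO (fun i => !(s i)) true
    have e1 : gU e' O = - gU e O := by
      rw [p3, g3, ← sum_neg_distrib]
      exact sum_congr rfl fun i _ => by rw [TSR.sg_not', neg_smul]
    have e2 : eS1 O N e' = 0 := by
      rw [p4, ← neg_zero, ← h1, ← sum_neg_distrib]
      exact sum_congr rfl fun i _ => TSR.sg_not' _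
    have e3 : |eS0 O N e'| ≤ 1 := by
      rw [p5, ← abs_neg, ← sum_neg_distrib]
      refine le_of_eq_of_le (congrArg _ (sum_congr rfl fun i _ => ?_)) h2
      rw [TSR.sg_not', neg_neg]
    refine ⟨e', key e' p2 e2 e3 ?_ ?_ ?_ ?_⟩
    · rw [e1, eval_neg, abs_neg]
      exact h3
    · rw [e1, eval_neg, neg_sq]
      exact h4
    · rw [e1, TDN.dn_neg]
      exact h5
    · rw [e1, eval_neg]
      linarith

/-- the labels with the path, label one, one class -/
theorem lbE_P1 (hI : ItD lf true m O N) (hO : FamO O N) (hc : Even (c1 O N))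
    (hS : OneCl m (c1 O N)) : ∃ e : Fin K → Bool, LbE O N e 1 2 1 0 0 (-1) 1 := by
  obtain ⟨s, h1, h2, h3, h4, h5⟩ := lbE_cls hO hc (oneCl_tau hO hI.hN hS)
  exact lbE_pos hI hO h1 h2 h3 (by rw [one_mul]; exact h4) h5

/-- the roles and the exact signs of the second arrangement -/
structure RlB {K : ℕ} (m : ℕ) (O : Fin K → OBr) (N : Finset (Fin K)) (e r : Fin K → Bool) :
    Prop where
  h2 : 2 ≤ ∑ i ∈ N, sg (r i) * vU (O i)
  r1 : eS1 O N r = 0
  r0 : Even (m - c1 O N) → eS0 O N r = 0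
  r0' : Odd (m - c1 O N) → eS0 O N r = 1
  x1 : c1 O N ≤ 2 → ∀ i ∈ N, tau (O i) = 1 → r i = true → e i = true
  x0 : m - c1 O N ≤ 2 → ∀ i ∈ N, ¬ tau (O i) = 1 → r i = true → e i = false

/-- the labels with the path, label one, two classes -/
theorem lbE_AB (hI : ItD lf true m O N) (hO : FamO O N) (hc : Even (c1 O N)) :
    (∃ e : Fin K → Bool, LbE O N e 1 2 2 0 0 (-1) 1) ∨
      ∃ e r : Fin K → Bool, LbE O N e 1 0 1 0 2 (-2) 0 ∧ RlB m O N e r := by
  obtain ⟨r, hr1, hr0, hr0', h5⟩ := lbE_dich hO hc (κ := 0) le_rfl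
  rcases h5 with ⟨s, h1, h2, h3, h4, h5⟩ | ⟨hlt, _, s, z, hB⟩
  · left
    exact lbE_pos hI hO h1 h2 h3 h4 h5
  · right
    obtain ⟨e, q1, g2, g3, g4, g5⟩ := ext_lab hO s z
    obtain ⟨r', hr', _, _, g4', g5'⟩ := ext_lab hO r true
    have b1 := hB.h1
    have b2 := hB.h2
    have b3 := hB.h3
    have b4 := hB.hG
    have b5 := hB.hG2
    have b6 := hB.hd
    rw [← g3] at b4 b5 b6
    rw [← g4] at b1
    rw [← g5] at b2 b3
    have hz : sg z = 1 ∨ sg z = -1 := by
      cases z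
      · exact Or.inr TSR.sg_ff
      · exact Or.inl TSR.sg_tt
    have hr3 : ∑ i ∈ N, sg (r' i) * vU (O i) = ∑ i : N, sg (r i) * (UU (O i)).eval q0 := by
      rw [← sum_coe_sort N fun i => sg (r' i) * vU (O i)]
      exact sum_congr rfl fun i _ => by rw [hr']; rfl
    refine ⟨e, r', ⟨labD_mk le_rfl (by rw [hI.lab1 hO g2, add_comm, b1, Nat.cast_one]) b4
      (fun h => absurd h one_ne_zero) (by rw [sumsq_N hO, one_mul]; exact b5)
      (by rw [sumdn_N hO]; exact b6), ?_, ?_, b2, b3, fun h => absurd h (by norm_num),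
      fun h => absurd h (by norm_num)⟩, ⟨by rw [hr3]; exact hlt.le, by rw [g4', hr1],
      fun h => by rw [g5', hr0 (by rw [hI.hN]; exact h)],
      fun h => by rw [g5', hr0' (by rw [hI.hN]; exact h)], fun h i hi ht hri => ?_,
      fun h i hi ht hri => ?_⟩⟩
    · rcases hz with h | h <;> linarith
    · rcases hz with h | h <;> linarith
    · have h1 := hB.x1 (by rw [cls_card1]; exact h) ⟨i, hi⟩ ht (by rw [← hr']; exact hri)
      rw [← q1] at h1
      exact h1
    · have h1 := hB.x0 (by rw [cls_card0, hI.hN]; exact h) ⟨i, hi⟩ ht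
        (by rw [← hr']; exact hri)
      rw [← q1] at h1
      exact h1

/-- labels for the path and two nontrivial children (and possibly a leaf): they are opposite -/
theorem labD_twoE (hI : ItD lf true 2 O N) (hO : FamO O N) : ∃ (e : Fin K → Bool) (n : ℕ),
    n = (true.toNat + c1 O N) % 2 ∧ LabD O e n 4 1 ∧ (n = 0 → (gU e O).eval q0 ≤ 0) ∧
      (n = 1 → 0 ≤ (gU e O).eval q0) ∧ ∑ i ∈ N, sg (e i) = 0 := by
  classical
  have hq := q0_pos
  have hq1 := q0_le
  obtain ⟨j, hj, hj1, hj2⟩ := hI.ht rfl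
  obtain ⟨a, b, hab, hN⟩ := card_eq_two.mp hI.hN
  have haN : a ∈ N := by rw [hN]; simp
  have hbN : b ∈ N := by rw [hN]; simp
  have hja : j ≠ a := fun h => hj (h ▸ haN)
  have hjb : j ≠ b := fun h => hj (h ▸ hbN)
  have ha := hO.hI a
  have hb := hO.hI b
  -- the labels `e a = s`, `e b = not s`, `e j = c`
  have key : ∀ (s c : Bool) (n : ℕ), n = (true.toNat + c1 O N) % 2 →
      sg c + sg s * (tau (O a) - tau (O b)) = n →
      (n = 0 → sg s * (vU (O a) - vU (O b)) ≤ 0) → (n = 1 → 0 ≤ sg s * (vU (O a) - vU (O b))) →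
      n ≤ 1 → ∃ (e : Fin K → Bool) (n : ℕ), n = (true.toNat + c1 O N) % 2 ∧ LabD O e n 4 1 ∧
        (n = 0 → (gU e O).eval q0 ≤ 0) ∧ (n = 1 → 0 ≤ (gU e O).eval q0) ∧
        ∑ i ∈ N, sg (e i) = 0 := by
    intro s c n hn hs h0 h1 hn1
    obtain ⟨e, he⟩ : ∃ e : Fin K → Bool, e = fun k => if k = j then c else if k = a then s
      else !s := ⟨_, rfl⟩
    have eej : e j = c := by rw [he]; simp
    have eea : e a = s := by rw [he]; simp [hja.symm]
    have eeb : e b = !s := by rw [he]; simp [hjb.symm, hab.symm]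
    have hsum : ∑ k, sg (e k) * tau (O k) = n := by
      rw [hI.sum_tau hj hj1 hj2, hN, sum_pair hab, eej, eea, eeb, TSR.sg_not', ← hs]
      ring
    have hG : gU e O = sg s • UU (O a) - sg s • UU (O b) := by
      rw [hO.gU_N, hN, sum_pair hab, eea, eeb, TSR.sg_not', neg_smul, sub_eq_add_neg]
    have hGv : (gU e O).eval q0 = sg s * (vU (O a) - vU (O b)) := by
      rw [hG, eval_sub, eval_smul, eval_smul, smul_eq_mul, smul_eq_mul]
      unfold vU
      ring
    have hsub : ({a, b} : Finset (Fin K)) ⊆ univ := subset_univ _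
    have s1 : vU (O a) ^ 2 + vU (O b) ^ 2 ≤ ∑ i, vU (O i) ^ 2 := by
      rw [← sum_pair (f := fun i => vU (O i) ^ 2) hab]
      exact sum_le_sum_of_subset_of_nonneg hsub fun i _ _ => sq_nonneg _
    have s2 : aU (O a) ^ 2 + aU (O b) ^ 2 ≤ ∑ i, aU (O i) ^ 2 := by
      rw [← sum_pair (f := fun i => aU (O i) ^ 2) hab]
      exact sum_le_sum_of_subset_of_nonneg hsub fun i _ _ => sq_nonneg _
    have hss : sg s ^ 2 = 1 := sg_sq s
    have g2 : (sg s * (vU (O a) - vU (O b))) ^ 2 = (vU (O a) - vU (O b)) ^ 2 := by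
      rw [mul_pow, hss, one_mul]
    have ha0 := ha.2.1
    have ha2 := ha.2.2.1
    have hb0 := hb.2.1
    have hb2 := hb.2.2.1
    have hdn : dn q0 (gU e O) ^ 2 ≤ 2 * ∑ i, aU (O i) ^ 2 := by
      have g1 := TDN.dn_parallelogram q0 q0_pos.le (sg s • UU (O a)) (sg s • UU (O b))
      have g3 := sq_nonneg (dn q0 (sg s • UU (O a) + sg s • UU (O b)))
      rw [TSR.dn_sg1, TSR.dn_sg1, ← hG] at g1
      unfold aU at s2 ⊢
      linarith
    have habs : |sg s * (vU (O a) - vU (O b))| ≤ 2 := by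
      rw [← sq_le_sq₀ (abs_nonneg _) (by norm_num), sq_abs, g2]
      nlinarith
    rw [abs_le] at habs
    have hle : (n : ℝ) - q0 * (sg s * (vU (O a) - vU (O b))) ≤ 1 ∧
        0 ≤ (n : ℝ) - q0 * (sg s * (vU (O a) - vU (O b))) := by
      rcases Nat.le_one_iff_eq_zero_or_eq_one.mp hn1 with h | h
      · have := h0 h
        rw [h, Nat.cast_zero]
        constructor <;> nlinarith
      · have := h1 h
        rw [h, Nat.cast_one]
        constructor <;> nlinarith
    have hL : LabD O e n 4 1 := by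
      refine ⟨fun σ => by rw [YY_sum, hsum], ?_, ?_, ?_, ?_, hdn⟩
      · rw [hGv, g2]
        nlinarith
      · rw [hGv]
        exact hle.2
      · rw [hGv]
        linarith [hle.1]
      · rw [hGv, g2]
        nlinarith [mul_nonneg ha0 hb0]
    refine ⟨e, n, hn, hL, fun h => ?_, fun h => ?_, ?_⟩
    · rw [hGv]
      exact h0 h
    · rw [hGv]
      exact h1 h
    · rw [hN, sum_pair hab, eea, eeb, TSR.sg_not']
      ring
  -- the sign by the value
  have hsgn : ∀ x : ℝ, ∃ s : Bool, sg s * x ≤ 0 ∧ 0 ≤ sg (!s) * x := by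
    intro x
    rcases le_total x 0 with h | h
    · exact ⟨true, by rw [TSR.sg_tt]; linarith, by rw [Bool.not_true, TSR.sg_ff]; linarith⟩
    · exact ⟨false, by rw [TSR.sg_ff]; linarith, by rw [Bool.not_false, TSR.sg_tt]; linarith⟩
  obtain ⟨s, h1, h2⟩ := hsgn (vU (O a) - vU (O b))
  have hc1 : (c1 O N : ℝ) = tau (O a) + tau (O b) := by
    unfold c1
    rw [hN, card_filter]
    push_cast
    rw [sum_pair hab]
    have : ∀ k : Fin K, (if tau (O k) = 1 then (1 : ℝ) else 0) = tau (O k) := by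
      intro k
      rcases (hO.hI k).1 with h | h
      · rw [h, if_neg (by norm_num)]
      · rw [h, if_pos rfl]
    rw [this, this]
  rcases ha.1 with t1 | t1 <;> rcases hb.1 with t2 | t2
  · have : c1 O N = 0 := by
      rw [t1, t2] at hc1
      exact_mod_cast (by linarith : (c1 O N : ℝ) = 0)
    refine key (!s) true 1 (by rw [this]; rfl) ?_ (fun h => by omega) (fun _ => h2) le_rfl
    rw [t1, t2, TSR.sg_tt]
    norm_num
  · have : c1 O N = 1 := by
      rw [t1, t2] at hc1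
      exact_mod_cast (by linarith : (c1 O N : ℝ) = 1)
    refine key s s 0 (by rw [this]; rfl) ?_ (fun _ => h1) (fun h => by omega) (by omega)
    rw [t1, t2]
    push_cast
    ring
  · have : c1 O N = 1 := by
      rw [t1, t2] at hc1
      exact_mod_cast (by linarith : (c1 O N : ℝ) = 1)
    refine key s (!s) 0 (by rw [this]; rfl) ?_ (fun _ => h1) (fun h => by omega) (by omega)
    rw [t1, t2, TSR.sg_not']
    push_cast
    ring
  · have : c1 O N = 2 := by
      rw [t1, t2] at hc1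
      exact_mod_cast (by linarith : (c1 O N : ℝ) = 2)
    refine key (!s) true 1 (by rw [this]; rfl) ?_ (fun h => by omega) (fun _ => h2) le_rfl
    rw [t1, t2, TSR.sg_tt]
    norm_num

end

end Pool.Agent.TSM
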