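import Pool.Agent.TSM.ZpcN
import Pool.Agent.TSO.Sink
import Pool.Agent.TSO.ZNeg

set_option autoImplicit false

/-!
# The step with a leaf and two branches behind positive edges: final form
(MP_d27362_co)

The pending cost of the result is any function (value lines instead of a hard line), both signs
of the gain.
-/

namespace Pool.Agent.TSM

open Finset Polynomial
open Pool.Agent.TSP
open Pool.Agent.TSO
open Pool.Agent.TSR (OBr Ker sg_true sg_false vS_nonneg)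
open Pool.Agent.TLT (sg)

/-- the real inequality of the loss side for a negative gain; `ξ` bounds its absolute value -/
def ZNegL (εn e0 lam : ℝ) : Prop := ∀ u p q ct h s k2 r ξ : ℝ, -1 ≤ u → u ≤ 1 → 0 ≤ p →
  0 ≤ q → p + q = 2 * (1 + u + ct) → 2 * ct - r ≤ h → 0 ≤ s → -(2 * s + ξ) ≤ h →
  ct ≤ s + r / 2 → 0 ≤ k2 → s ^ 2 ≤ k2 * (1 - u ^ 2) → 0 ≤ ξ → ξ ≤ r → r ≤ 1 →
  3 / 4 * ξ ^ 2 ≤ k2 →
  (1 - u) * (p * q) ≤ (1 + r / 2) ^ 2 * (1 + u + h) + (1 + max εn r) * ((h - r) / 2) ^ 2 +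
    e0 * (1 + r / 2) ^ 2 * k2 * u ^ 2 + (r / 2) ^ 2 * u ^ 2 + max (ξ - lam * (1 + u)) 0

/-- the sink lemma with a slope -/
def SinkL (lam : ℝ) : Prop := ∀ (m : ℕ) (S : Fin m → Fin m → ℝ), Ker S → ∀ c : ℝ, 0 ≤ c →
  (mn fun i => max (c - lam * (1 + beta S i)) 0) ≤ c ^ 2 / (4 * lam)

section Raw

variable {m : ℕ} {S : Fin m → Fin m → ℝ}
/-- the mean of the error term -/
theorem mn_TL (hK : Ker S) (x U : ℝ[X]) (A B E K Z Y ξ lam M : ℝ)
    (hs : (mn fun i => max (ξ - lam * (1 + beta S i)) 0) ≤ M) (hZ : 0 ≤ Z) (hY : 0 ≤ Y) :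
    (2 * mn fun i => (A * (st S (-(X * U)) x i) ^ 2 + B * st S (-(X * U)) x i +
      E * (beta S i) ^ 2 + K) + Z * max (-(beta S i + st S (-(X * U)) x i / 2)) 0 +
      Y * max (ξ - lam * (1 + beta S i)) 0) ≤
    2 * A * en S (-(X * U)) x + 2 * E * dee S + 2 * K +
      Z * Real.sqrt (en S (halfx U) (halfy x)) + Y * (2 * M) := by
  obtain ⟨h, hh⟩ : ∃ h : Fin m → ℝ, h = st S (-(X * U)) x := ⟨_, rfl⟩
  have hh0 : mn h = 0 := by rw [hh]; exact mn_st S hK.anti _ _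
  have hhh : (mn fun i => h i * h i) = en S (-(X * U)) x := by
    have h1 : (mn fun i => h i * h i) = ip h h := rfl
    rw [h1, hh, ip_st_self hK.anti]
  have hz : ∀ i, st S (halfx U) (halfy x) i = beta S i + h i / 2 := fun i => by
    have e1 : halfy x = 0 + (1 / 2 : ℝ) • x := by rw [halfy, zero_add]
    rw [halfx, e1, st_add, st_smul, st_beta, ← hh]
    simp only [Pi.add_apply, Pi.smul_apply, smul_eq_mul]
    ring
  rw [← hh]
  have e1 : (fun i => (A * (h i) ^ 2 + B * h i + E * (beta S i) ^ 2 + K) +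
      Z * max (-(beta S i + h i / 2)) 0 + Y * max (ξ - lam * (1 + beta S i)) 0) =
      fun i => ((((K + A * (h i * h i)) + B * h i) + E * (beta S i * beta S i)) +
        Z * max (-(st S (halfx U) (halfy x) i)) 0) + Y * max (ξ - lam * (1 + beta S i)) 0 := by
    funext i
    rw [hz]; ring
  rw [e1, mn_add, mn_add, mn_add, mn_add, mn_add, mn_mul, mn_mul, mn_mul, mn_mul, mn_mul,
    mn_const hK.pos, hhh]
  have h3 : (mn fun i => beta S i * beta S i) = dee S := rfl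
  have h4 : (mn fun i => h i) = 0 := hh0
  rw [h3, h4]
  have h5 := mul_le_mul_of_nonneg_left (two_mn_neg hK (halfx U) (halfy x)) hZ
  have h6 := mul_le_mul_of_nonneg_left hs hY
  linarith

/-- the loss side for a negative gain `G0 ≤ 0`, raw form; `r` is the paid cost minus `G0` -/
theorem zn_rawL (hK : Ker S) {f1 f2 : Fin m → ℝ} {x1 y1 x2 y2 : ℝ[X]}
    (M1 M2 g1 g2 ε e0 lam G0 r : ℝ) (hM1 : 0 < M1) (hM2 : 0 < M2) (hf1 : ∀ i, 0 ≤ f1 i)
    (hf2 : ∀ i, 0 ≤ f2 i)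
    (hb1 : ∀ i, f1 i ≤ M1 * (1 - (mo S x1 - g1) + st S (1 - X * y1) x1 i))
    (hb2 : ∀ i, f2 i ≤ M2 * (1 - (mo S x2 - g2) + st S (1 - X * y2) x2 i))
    (hε : 0 < ε) (he0 : 1 + ε + 1 / (4 * ε) ≤ e0) (hlam : 0 < lam)
    (hN : ZNegL ε e0 lam) (hg : 0 ≤ g1 + g2)
    (hsink : ∀ c : ℝ, 0 ≤ c → (mn fun i => max (c - lam * (1 + beta S i)) 0) ≤
      c ^ 2 / (4 * lam))
    (hG : G0 ≤ mo S (x1 + x2)) (hG0 : G0 ≤ 0) (hrg : r = g1 + g2 - G0) :
    ∃ G : Fin m → ℝ, (∀ i, 0 ≤ G i) ∧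
      (∀ i, (1 - beta S i) * (f1 i * f2 i) ≤
        (M1 * M2 * (1 + r / 2) ^ 2) * (1 + st S (1 - X * (y1 + y2)) (x1 + x2) i + G i)) ∧
      2 * mn G ≤ ((1 + ε) * en S (-(X * (y1 + y2))) (x1 + x2) +
        e0 * dee S * en S (x1 + x2) (y1 + y2)) / 2 +
        r / (1 + r / 2) * Real.sqrt (en S (halfx (y1 + y2)) (halfy (x1 + x2))) ∧
      (r ≤ 1 →
        2 * mn G ≤ ((1 + ε) * en S (-(X * (y1 + y2))) (x1 + x2) +
        e0 * dee S * en S (x1 + x2) (y1 + y2)) / 2 +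
        1 / (2 * lam) * (max 0 (-(mo S (x1 + x2)))) ^ 2 +
        (1 + max ε r + dee S) * r ^ 2 / (2 * (1 + r / 2) ^ 2)) := by
  have hD : 0 ≤ dee S := ip_self_nonneg _
  have hD3 : dee S ≤ 1 / 3 := dee_le S hK.anti hK.bd
  have hr : 0 ≤ r := by linarith
  obtain ⟨Q0, hQ0⟩ : ∃ Q0 : ℝ, Q0 = en S (-(X * (y1 + y2))) (x1 + x2) := ⟨_, rfl⟩
  obtain ⟨en1, hen1⟩ : ∃ en1 : ℝ, en1 = en S (x1 + x2) (y1 + y2) := ⟨_, rfl⟩
  obtain ⟨δ, hδ⟩ : ∃ δ : ℝ, δ = en S (halfx (y1 + y2)) (halfy (x1 + x2)) := ⟨_, rfl⟩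
  obtain ⟨D, hDd⟩ : ∃ D : ℝ, D = dee S := ⟨_, rfl⟩
  obtain ⟨ξ, hξ⟩ : ∃ ξ : ℝ, ξ = max 0 (-(mo S (x1 + x2))) := ⟨_, rfl⟩
  obtain ⟨e, he⟩ : ∃ e : ℝ, e = 1 + ε + 1 / (4 * ε) := ⟨_, rfl⟩
  have hep : 0 < e := by rw [he]; positivity
  have he0p : 0 < e0 := by linarith
  have hQ0n : 0 ≤ Q0 := by rw [hQ0]; exact en_nonneg hK.anti _ _
  have hen1n : 0 ≤ en1 := by rw [hen1]; exact en_nonneg hK.anti _ _
  have hDn : 0 ≤ D := by rw [hDd]; exact hD
  have hξ0 : 0 ≤ ξ := by rw [hξ]; exact le_max_left _ _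
  have hξ1 : -(mo S (x1 + x2)) ≤ ξ := by rw [hξ]; exact le_max_right _ _
  have hξr : ξ ≤ r := by
    rw [hξ]
    exact max_le hr (by linarith)
  have hξ2 : 3 / 4 * ξ ^ 2 ≤ en1 / 4 := by
    have h1 := ip_sq_le (beta S) (st S (x1 + x2) (y1 + y2))
    rw [ip_beta_st S hK.anti, ip_st_self hK.anti, ← hen1] at h1
    have h2 : ip (beta S) (beta S) * en1 ≤ 1 / 3 * en1 := mul_le_mul_of_nonneg_right hD3 hen1n
    have h3 : ξ ^ 2 ≤ (mo S (x1 + x2)) ^ 2 := by
      rcases le_total 0 (mo S (x1 + x2)) with h | h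
      · rw [hξ, max_eq_left (by linarith)]
        nlinarith [sq_nonneg (mo S (x1 + x2))]
      · rw [hξ, max_eq_right (by linarith), neg_sq]
    linarith
  have h1r : 0 < 1 + r / 2 := by linarith
  obtain ⟨L, hL⟩ : ∃ L : ℝ, L = (1 + r / 2) ^ 2 := ⟨_, rfl⟩
  have hL0 : 0 < L := by rw [hL]; positivity
  have hL1 : 1 ≤ L := by rw [hL]; nlinarith
  have hsink0 := hsink 0 le_rfl
  -- rule C
  obtain ⟨GC, hGC, hGCb, hmC⟩ := zg_gen hK (x1 := x1) (y1 := y1) (x2 := x2) (y2 := y2) M1 M2 g1 g2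
    L (fun u h => ((1 + ε + r / 4) / 4 * h ^ 2 + 0 * h + e * (en1 / 4) * u ^ 2 + 0) +
      r * (1 + r / 2) * max (-(u + h / 2)) 0 + 0 * max (0 - lam * (1 + u)) 0) hM1 hM2 hf1 hf2
    hb1 hb2
    hL0 (by
      intro u h _ _
      have h1 : 0 ≤ r * (1 + r / 2) * max (-(u + h / 2)) 0 :=
        mul_nonneg (mul_nonneg hr h1r.le) (le_max_right _ _)
      have h2 : 0 ≤ (1 + ε + r / 4) / 4 * h ^ 2 + e * (en1 / 4) * u ^ 2 := by positivity
      show 0 ≤ ((1 + ε + r / 4) / 4 * h ^ 2 + 0 * h + e * (en1 / 4) * u ^ 2 + 0) +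
        r * (1 + r / 2) * max (-(u + h / 2)) 0 + 0 * max (0 - lam * (1 + u)) 0
      linarith) (by
      intro u o s p q hu0 hu1 hp hq hpq hs hss ho1 ho2
      rw [← hen1] at hss
      have hpt := zn_point ε u p q ((o + (g1 + g2)) / 2) (o + mo S (x1 + x2)) s 0
        (en1 / 4) r hε hu0 hu1 hp hq hpq (by linarith) hs (by linarith) (by linarith)
        le_rfl (by linarith) (by linarith) hss hr
      rw [← he, ← hL] at hpt
      refine hpt.trans (le_of_eq ?_)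
      ring)
  have hC : 2 * mn GC ≤ ((1 + ε) * Q0 + e0 * D * en1) / 2 +
        r / (1 + r / 2) * Real.sqrt δ := by
    have h1 := mn_TL hK (x1 + x2) (y1 + y2) ((1 + ε + r / 4) / 4) 0 (e * (en1 / 4)) 0
      (r * (1 + r / 2)) 0 0 lam _ hsink0 (mul_nonneg hr h1r.le) le_rfl
    rw [← hQ0, ← hδ, ← hDd] at h1
    rw [hmC]
    have h2 := div_le_div_of_nonneg_right h1 hL0.le
    refine h2.trans ?_
    have e1 : (2 * ((1 + ε + r / 4) / 4) * Q0 + 2 * (e * (en1 / 4)) * D + 2 * 0 +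
        r * (1 + r / 2) * Real.sqrt δ + 0 * (2 * ((0 : ℝ) ^ 2 / (4 * lam)))) / L =
        ((1 + ε + r / 4) * Q0 + e * D * en1) / (2 * L) +
        r / (1 + r / 2) * Real.sqrt δ := by
      rw [hL]
      field_simp
      ring
    rw [e1]
    have h2 : ((1 + ε + r / 4) * Q0 + e * D * en1) / (2 * L) ≤
        ((1 + ε) * Q0 + e0 * D * en1) / 2 := by
      rw [div_le_div_iff₀ (by positivity) (by norm_num)]
      have h3 : (1 + ε + r / 4) ≤ (1 + ε) * L := by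
        rw [hL]
        nlinarith [mul_nonneg hε.le hr, mul_nonneg hr hr,
          mul_nonneg hε.le (mul_nonneg hr hr)]
      have h5 := mul_le_mul_of_nonneg_right h3 hQ0n
      have h6 : e ≤ e0 * L := by
        have h7 : e ≤ e0 := by rw [he]; exact he0
        exact h7.trans (le_mul_of_one_le_right he0p.le hL1)
      have h7 := mul_le_mul_of_nonneg_right h6 (mul_nonneg hDn hen1n)
      nlinarith
    linarith
  rcases le_or_gt r 1 with hr9 | hr9
  · obtain ⟨E, hE⟩ : ∃ E : ℝ, E = max ε r := ⟨_, rfl⟩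
    have hE1 : ε ≤ E := by rw [hE]; exact le_max_left _ _
    have hEL : 1 + E ≤ (1 + ε) * L := by
      rw [hE, hL]
      rcases max_choice ε r with h | h <;> rw [h] <;>
        nlinarith [mul_nonneg hε.le hr, mul_nonneg hr hr, mul_nonneg hε.le (mul_nonneg hr hr)]
    obtain ⟨GA, hGA, hGAb, hmA⟩ := zg_gen hK (x1 := x1) (y1 := y1) (x2 := x2) (y2 := y2)
      M1 M2 g1 g2
      L (fun u h => ((1 + E) / 4 * h ^ 2 + (-(r * ((1 + E) / 2))) * h +
        (e0 * L * (en1 / 4) + r ^ 2 / 4) * u ^ 2 + (1 + E) / 4 * r ^ 2) +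
        0 * max (-(u + h / 2)) 0 + 1 * max (ξ - lam * (1 + u)) 0) hM1 hM2 hf1 hf2 hb1 hb2
      hL0 (by
        intro u h _ _
        have h1 : 0 ≤ 1 * max (ξ - lam * (1 + u)) 0 := mul_nonneg zero_le_one (le_max_right _ _)
        have h2 : 0 ≤ (1 + E) / 4 * (h - r) ^ 2 + (e0 * L * (en1 / 4) + r ^ 2 / 4) * u ^ 2 := by
          have : 0 ≤ 1 + E := by linarith
          positivity
        show 0 ≤ ((1 + E) / 4 * h ^ 2 + (-(r * ((1 + E) / 2))) * h +
          (e0 * L * (en1 / 4) + r ^ 2 / 4) * u ^ 2 + (1 + E) / 4 * r ^ 2) +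
          0 * max (-(u + h / 2)) 0 + 1 * max (ξ - lam * (1 + u)) 0
        nlinarith) (by
        intro u o s p q hu0 hu1 hp hq hpq hs hss ho1 ho2
        rw [← hen1] at hss
        have hpt := hN u p q ((o + (g1 + g2)) / 2) (o + mo S (x1 + x2)) s (en1 / 4) r ξ
          hu0 hu1 hp hq hpq (by linarith) hs (by linarith) (by linarith) (by linarith) hss
          hξ0 hξr hr9 hξ2
        rw [← hL, ← hE] at hpt
        refine hpt.trans (le_of_eq ?_)
        ring)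
    refine ⟨fun i => min (GA i) (GC i), fun i => le_min (hGA i) (hGC i), fun i => ?_, ?_, ?_⟩
    · show (1 - beta S i) * (f1 i * f2 i) ≤ (M1 * M2 * (1 + r / 2) ^ 2) *
        (1 + st S (1 - X * (y1 + y2)) (x1 + x2) i + min (GA i) (GC i))
      rcases min_choice (GA i) (GC i) with h | h
      · rw [h, ← hL]; exact hGAb i
      · rw [h, ← hL]; exact hGCb i
    · rw [← hQ0, ← hδ, ← hDd, ← hen1]
      refine le_trans ?_ hC
      have := mn_mono (f := fun i => min (GA i) (GC i)) (g := GC)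
        (fun i => min_le_right _ _)
      linarith
    · intro _
      rw [← hQ0, ← hDd, ← hen1, ← hξ, ← hL, ← hE]
      have h0 := mn_mono (f := fun i => min (GA i) (GC i)) (g := GA)
        (fun i => min_le_left _ _)
      have h1 := mn_TL hK (x1 + x2) (y1 + y2) ((1 + E) / 4) (-(r * ((1 + E) / 2)))
        (e0 * L * (en1 / 4) + r ^ 2 / 4) ((1 + E) / 4 * r ^ 2)
        0 1 ξ lam _ (hsink ξ hξ0) le_rfl zero_le_one
      rw [← hQ0, ← hδ, ← hDd] at h1
      have h2 := div_le_div_of_nonneg_right h1 hL0.le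
      rw [← hmA] at h2
      have e1 : (2 * ((1 + E) / 4) * Q0 + 2 * (e0 * L * (en1 / 4) + r ^ 2 / 4) * D +
          2 * ((1 + E) / 4 * r ^ 2) + 0 * Real.sqrt δ + 1 * (2 * (ξ ^ 2 / (4 * lam)))) / L =
          (1 + E) * Q0 / (2 * L) + e0 * D * en1 / 2 + 1 / (2 * lam) * ξ ^ 2 / L +
            (1 + E + D) * r ^ 2 / (2 * L) := by
        field_simp
        ring
      rw [e1] at h2
      have h4 : (1 + E) * Q0 / (2 * L) ≤ (1 + ε) * Q0 / 2 := by
        rw [div_le_div_iff₀ (by positivity) (by norm_num)]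
        have h3 := mul_le_mul_of_nonneg_right hEL hQ0n
        nlinarith
      have h5 : 1 / (2 * lam) * ξ ^ 2 / L ≤ 1 / (2 * lam) * ξ ^ 2 :=
        div_le_self (by positivity) hL1
      linarith
  · refine ⟨GC, hGC, fun i => ?_, ?_, fun h1 => ?_⟩
    · rw [← hL]; exact hGCb i
    · rw [← hQ0, ← hδ, ← hDd, ← hen1]
      exact hC
    · exact absurd h1 (not_le.2 hr9)

end Raw

section Msg

variable {m : ℕ} {S : Fin m → Fin m → ℝ}

/-- **leaf and two branches behind positive edges, nonnegative gain**, value form -/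
theorem MMajE.zpc_pos (hK : Ker S) {f1 f2 : Fin m → ℝ} {x1 y1 x2 y2 : ℝ[X]}
    {χ b1 c1 b2 c2 b' c' : ℝ}
    (h1 : MMajE S f1 (1 - X * y1) x1 (mo S x1) χ b1 c1)
    (h2 : MMajE S f2 (1 - X * y2) x2 (mo S x2) χ b2 c2)
    (G0 : ℝ) (hG0 : G0 ≤ mo S (x1 + x2)) (hGn : 0 ≤ G0)
    (hgain : ∀ g, 0 ≤ g → g ≤ G0 → ∃ L P, ZRule S (x1 + x2) (y1 + y2) g L P ∧
      b' + χ * max (P - c') 0 + Real.log L + P ≤ b1 + b2 + g)
    (ε B1 B2 θ1 θ2 Q P1 P2 : ℝ) (hε : 1 / 4 ≤ ε) (hR : G0 ≤ 4 * ε)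
    (hθ10 : 0 ≤ θ1) (hθ1 : θ1 ≤ χ) (hθ20 : 0 ≤ θ2) (hθ2 : θ2 ≤ χ)
    (hP1 : 0 ≤ P1) (hP2 : 0 ≤ P2)
    (hQ : (1 + ε) * en S (-(X * (y1 + y2))) (x1 + x2) +
      (1 + ε + 1 / (4 * ε)) * dee S * en S (x1 + x2) (y1 + y2) ≤ Q)
    (hL1 : LossZ (dee S) ε χ 1 θ1 B1 (en S (halfx (y1 + y2)) (halfy (x1 + x2))) P1)
    (hL2 : LossZ (dee S) ε χ (1 + χ) θ2 B2 (en S (halfx (y1 + y2)) (halfy (x1 + x2))) P2)
    (hb2 : b' ≤ b1 + b2 + G0 - Q / 2 - θ1 * (c1 + c2 - G0) - P1)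
    (hb2' : b' ≤ b1 + b2 + G0 - Q / 2 - χ * (c1 + c2 - G0) - P1 + (χ - θ1) * B1)
    (hb3 : b' ≤ b1 + b2 + G0 - (1 + χ) * (Q / 2) - θ2 * (c1 + c2 - G0) - P2 + χ * c')
    (hb3' : b' ≤ b1 + b2 + G0 - (1 + χ) * (Q / 2) - χ * (c1 + c2 - G0) - P2 + χ * c' +
      (χ - θ2) * B2) :
    MajE S (fun i => (1 - beta S i) * (f1 i * f2 i)) (1 - X * (y1 + y2)) (x1 + x2) χ b' c' := by
  obtain ⟨e1, he1, k1⟩ := h1
  obtain ⟨e2, he2, k2⟩ := h2
  have hχ0 : 0 ≤ χ := hθ10.trans hθ1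
  have hχe1 : 0 ≤ χ * e1 := mul_nonneg hχ0 he1
  have hχe2 : 0 ≤ χ * e2 := mul_nonneg hχ0 he2
  obtain ⟨M1, g1, hM1, hg1, hgc1, hlog1, hf1, hb1'⟩ := k1
  obtain ⟨M2, g2, hM2, hg2, hgc2, hlog2, hf2, hb2'⟩ := k2
  rcases le_total (g1 + g2) G0 with hρ | hρ
  · -- gain
    obtain ⟨L, P, hZ, hbL⟩ := hgain (g1 + g2) (by linarith) hρ
    obtain ⟨hL, G, hG, hGb, hmG⟩ := hZ.raw hK hM1 hM2 hf1 hf2 hb1' hb2'
    refine ⟨max (P - c') 0, le_max_right _ _, M1 * M2 * L, G, by positivity, hG, hGb, ?_, ?_⟩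
    · rw [Real.log_mul (by positivity) hL.ne', Real.log_mul hM1.ne' hM2.ne']
      linarith
    · have := le_max_left (P - c') 0
      linarith
  · -- loss
    have hD : 0 ≤ dee S := ip_self_nonneg _
    have hbase : ((1 + ε) * (en S (-(X * (y1 + y2))) (x1 + x2) + (0 : ℝ) ^ 2) +
        (1 + ε + 1 / (4 * ε)) * dee S * en S (x1 + x2) (y1 + y2)) / 2 ≤ Q / 2 := by linarith
    obtain ⟨r, hr⟩ : ∃ r : ℝ, r = g1 + g2 - G0 := ⟨_, rfl⟩
    have hr0 : 0 ≤ r := by linarith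
    obtain ⟨G, hG, hGb, hmC, hmA⟩ := zl_raw hK (x1 := x1) (y1 := y1) (x2 := x2) (y2 := y2)
      M1 M2 g1 g2 ε 0 G0 r hM1 hM2 hf1 hf2 hb1' hb2' hε le_rfl hGn hR (by linarith) hr0 hr
    have h1r : 0 < (1 + r / 2) ^ 2 := by positivity
    have hrc : r ≤ (c1 + c2 - G0) + (e1 + e2) := by linarith
    have hav1 := avz_le (θ := θ1) (χ := χ) (B := B1) (v := b1 + b2 + G0 - Q / 2 - P1 - b')
      hθ10 hθ1 (add_nonneg he1 he2) hrc (by linarith) (by linarith)
    have hav2 := avz_le (θ := θ2) (χ := χ) (B := B2)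
      (v := b1 + b2 + G0 - (1 + χ) * (Q / 2) - P2 + χ * c' - b')
      hθ20 hθ2 (add_nonneg he1 he2) hrc (by linarith) (by linarith)
    have hval1 : 2 * Real.log (1 + r / 2) + 2 * mn G ≤
        Q / 2 + r + avz θ1 χ B1 r + P1 := by
      rcases hL1 r hr0 with ⟨h4, h5⟩ | h5
      · have := hmA h4
        linarith
      · linarith
    have hval2 : 2 * Real.log (1 + r / 2) + (1 + χ) * (2 * mn G) ≤
        (1 + χ) * (Q / 2) + r + avz θ2 χ B2 r + P2 := by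
      rcases hL2 r hr0 with ⟨h4, h5⟩ | h5
      · have h6 := mul_le_mul_of_nonneg_left (hmA h4) (show 0 ≤ 1 + χ by linarith)
        have h7 := mul_le_mul_of_nonneg_left hbase (show 0 ≤ 1 + χ by linarith)
        linarith
      · have h6 := mul_le_mul_of_nonneg_left hmC (show 0 ≤ 1 + χ by linarith)
        have h7 := mul_le_mul_of_nonneg_left hbase (show 0 ≤ 1 + χ by linarith)
        linarith
    refine ⟨max (2 * mn G - c') 0, le_max_right _ _, M1 * M2 * (1 + r / 2) ^ 2, G,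
      by positivity, hG, hGb, ?_, ?_⟩
    · rw [Real.log_mul (by positivity) h1r.ne', Real.log_mul hM1.ne' hM2.ne', Real.log_pow]
      push_cast
      rcases le_total (2 * mn G - c') 0 with h3 | h3
      · rw [max_eq_right h3, mul_zero, add_zero]
        linarith
      · rw [max_eq_left h3]
        linarith
    · have := le_max_left (2 * mn G - c') 0
      linarith

/-- **leaf and two branches behind positive edges, negative gain**, excess form -/
theorem MMajE.zpc_negL (hK : Ker S) {f1 f2 : Fin m → ℝ} {x1 y1 x2 y2 : ℝ[X]}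
    {χ b1 c1 b2 c2 b' c' : ℝ}
    (h1 : MMajE S f1 (1 - X * y1) x1 (mo S x1) χ b1 c1)
    (h2 : MMajE S f2 (1 - X * y2) x2 (mo S x2) χ b2 c2)
    (lam : ℝ) (hlam : 0 < lam)
    (hsink : ∀ c : ℝ, 0 ≤ c → (mn fun i => max (c - lam * (1 + beta S i)) 0) ≤
      c ^ 2 / (4 * lam))
    (G0 : ℝ) (hG : G0 ≤ mo S (x1 + x2)) (hG0 : G0 ≤ 0)
    (ε e0 B1 B2 θ1 θ2 Q P1 P2 : ℝ) (hε : 0 < ε) (he0 : 1 + ε + 1 / (4 * ε) ≤ e0)
    (hN : ZNegL ε e0 lam)
    (hθ10 : 0 ≤ θ1) (hθ1 : θ1 ≤ χ) (hθ20 : 0 ≤ θ2) (hθ2 : θ2 ≤ χ)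
    (hP1 : 0 ≤ P1) (hP2 : 0 ≤ P2)
    (hQ : (1 + ε) * en S (-(X * (y1 + y2))) (x1 + x2) +
      e0 * dee S * en S (x1 + x2) (y1 + y2) +
      1 / lam * (max 0 (-(mo S (x1 + x2)))) ^ 2 ≤ Q)
    (hL1 : LossZ (dee S) ε χ 1 θ1 B1 (en S (halfx (y1 + y2)) (halfy (x1 + x2))) P1)
    (hL2 : LossZ (dee S) ε χ (1 + χ) θ2 B2 (en S (halfx (y1 + y2)) (halfy (x1 + x2))) P2)
    (hb2 : b' ≤ b1 + b2 + G0 - Q / 2 - θ1 * (c1 + c2 - G0) - P1)
    (hb2' : b' ≤ b1 + b2 + G0 - Q / 2 - χ * (c1 + c2 - G0) - P1 + (χ - θ1) * B1)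
    (hb3 : b' ≤ b1 + b2 + G0 - (1 + χ) * (Q / 2) - θ2 * (c1 + c2 - G0) - P2 + χ * c')
    (hb3' : b' ≤ b1 + b2 + G0 - (1 + χ) * (Q / 2) - χ * (c1 + c2 - G0) - P2 + χ * c' +
      (χ - θ2) * B2) :
    MajE S (fun i => (1 - beta S i) * (f1 i * f2 i)) (1 - X * (y1 + y2)) (x1 + x2) χ b' c' := by
  obtain ⟨e1, he1, k1⟩ := h1
  obtain ⟨e2, he2, k2⟩ := h2
  have hχ0 : 0 ≤ χ := hθ10.trans hθ1
  have hχe1 : 0 ≤ χ * e1 := mul_nonneg hχ0 he1
  have hχe2 : 0 ≤ χ * e2 := mul_nonneg hχ0 he2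
  obtain ⟨M1, g1, hM1, hg1, hgc1, hlog1, hf1, hb1'⟩ := k1
  obtain ⟨M2, g2, hM2, hg2, hgc2, hlog2, hf2, hb2''⟩ := k2
  obtain ⟨r, hr⟩ : ∃ r : ℝ, r = g1 + g2 - G0 := ⟨_, rfl⟩
  have hr0 : 0 ≤ r := by linarith
  obtain ⟨G, hGn, hGb, hmC, hmA⟩ := zn_rawL hK (x1 := x1) (y1 := y1) (x2 := x2) (y2 := y2)
    M1 M2 g1 g2 ε e0 lam G0 r hM1 hM2 hf1 hf2 hb1' hb2'' hε he0 hlam hN (by linarith)
    hsink hG hG0 hr
  have h1r : 0 < (1 + r / 2) ^ 2 := by positivity
  have hrc : r ≤ (c1 + c2 - G0) + (e1 + e2) := by linarith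
  have hξ : 0 ≤ 1 / lam * (max 0 (-(mo S (x1 + x2)))) ^ 2 := by positivity
  have hav1 := avz_le (θ := θ1) (χ := χ) (B := B1) (v := b1 + b2 + G0 - Q / 2 - P1 - b')
    hθ10 hθ1 (add_nonneg he1 he2) hrc (by linarith) (by linarith)
  have hav2 := avz_le (θ := θ2) (χ := χ) (B := B2)
    (v := b1 + b2 + G0 - (1 + χ) * (Q / 2) - P2 + χ * c' - b')
    hθ20 hθ2 (add_nonneg he1 he2) hrc (by linarith) (by linarith)
  have hmC' : 2 * mn G ≤ Q / 2 +
      r / (1 + r / 2) * Real.sqrt (en S (halfx (y1 + y2)) (halfy (x1 + x2))) := by linarith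
  have hlam2 : 1 / (2 * lam) * (max 0 (-(mo S (x1 + x2)))) ^ 2 =
      1 / lam * (max 0 (-(mo S (x1 + x2)))) ^ 2 / 2 := by
    field_simp
  have hmA' : r ≤ 1 → 2 * mn G ≤ Q / 2 +
      (1 + max ε r + dee S) * r ^ 2 / (2 * (1 + r / 2) ^ 2) := by
    intro h
    have := hmA h
    linarith
  have hval1 : 2 * Real.log (1 + r / 2) + 2 * mn G ≤ Q / 2 + r + avz θ1 χ B1 r + P1 := by
    rcases hL1 r hr0 with ⟨h4, h5⟩ | h5
    · have := hmA' h4
      linarith
    · linarith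
  have hval2 : 2 * Real.log (1 + r / 2) + (1 + χ) * (2 * mn G) ≤
      (1 + χ) * (Q / 2) + r + avz θ2 χ B2 r + P2 := by
    rcases hL2 r hr0 with ⟨h4, h5⟩ | h5
    · have h6 := mul_le_mul_of_nonneg_left (hmA' h4) (show 0 ≤ 1 + χ by linarith)
      linarith
    · have h6 := mul_le_mul_of_nonneg_left hmC' (show 0 ≤ 1 + χ by linarith)
      linarith
  refine ⟨max (2 * mn G - c') 0, le_max_right _ _, M1 * M2 * (1 + r / 2) ^ 2, G,
    by positivity, hGn, hGb, ?_, ?_⟩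
  · rw [Real.log_mul (by positivity) h1r.ne', Real.log_mul hM1.ne' hM2.ne', Real.log_pow]
    push_cast
    rcases le_total (2 * mn G - c') 0 with h3 | h3
    · rw [max_eq_right h3, mul_zero, add_zero]
      linarith
    · rw [max_eq_left h3]
      linarith
  · have := le_max_left (2 * mn G - c') 0
    linarith

end Msg

/-! ### the tree level -/

/-- the gain side: rule (Z*) or rule (Z); `g` the gain with the cap `r D` -/
def ZpGV (χ D r : ℝ) (x U g V V' c' : ℝ → ℝ) : Prop :=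
  (∃ CA CE ψ η1 η2 : ℝ, ∃ q : ℝ → ℝ, r * D ≤ 1 / 3 ∧
    7 / 10 ≤ CA * (1 - 9 / 10 * (r * D) + 73 / 200 * (r * D) ^ 2) ∧ 81 / 80 ≤ CE ∧
    ((ILe D (fun a => x a ^ 2 + a * U a ^ 2) (fun _ => ψ) ∧ ψ * D ≤ 13) ∨
      9 / 10 * r ≤ (CE - 81 / 80) * 13) ∧ η1 ≤ 9 / 10 ∧ η2 ≤ 9 / 10 ∧
    ILe D (fun a => CA * (a ^ 2 * U a ^ 2 + a * x a ^ 2) +
      CE * D * (x a ^ 2 + a * U a ^ 2)) q ∧
    ILe D V' (fun a => V a + η1 * g a - q a) ∧
    ILe D V' (fun a => V a + η2 * g a - q a - χ * (q a - c' a))) ∨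
  (∃ ε η η1 η2 I : ℝ, ∃ q : ℝ → ℝ, ZpcC D ε r η ∧ 1 ≤ I * (2 * (1 - r * D)) ∧
    η1 ≤ η ∧ η2 ≤ η - χ * ((2 + ε) * (r * D) * I) ∧
    ILe D (fun a => (1 + ε) * (a ^ 2 * U a ^ 2 + a * x a ^ 2) +
      (1 + ε + 1 / (4 * ε)) * D * (x a ^ 2 + a * U a ^ 2)) q ∧
    ILe D V' (fun a => V a + η1 * g a - I * q a) ∧
    ILe D V' (fun a => V a + η2 * g a - I * q a - χ * (I * q a - c' a)))

/-- the hard line for the pending cost implies the value lines -/
lemma ZpG.val {χ D r : ℝ} {x U g V V' c' : ℝ → ℝ} (h : ZpG D r x U g V V' c') (hχ : 0 ≤ χ) :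
    ZpGV χ D r x U g V V' c' := by
  rcases h with ⟨CA, CE, ψ, q, hr3, hCA, hCE, hcap, hq, hb1, hc1⟩ |
    ⟨ε, η, I, q, hK, hI, hq, hb1, hc1⟩
  · refine Or.inl ⟨CA, CE, ψ, 9 / 10, 9 / 10, q, hr3, hCA, hCE, hcap, le_rfl, le_rfl, hq, hb1,
      fun m S hS w t hR hD => ?_⟩
    have h1 := hb1 m S hS w t hR hD
    have h2 := hc1 m S hS w t hR hD
    rw [nu_sub, nu_add, nu_mul] at h1
    rw [nu_sub, nu_sub, nu_add, nu_mul, nu_mul, nu_sub]
    have := mul_nonneg hχ (sub_nonneg.2 h2)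
    linarith
  · refine Or.inr ⟨ε, η, η, η - χ * ((2 + ε) * (r * D) * I), I, q, hK, hI, le_rfl, le_rfl, hq,
      hb1, fun m S hS w t hR hD => ?_⟩
    have h1 := hb1 m S hS w t hR hD
    have h2 := hc1 m S hS w t hR hD
    rw [nu_sub, nu_add, nu_mul, nu_mul] at h1
    rw [nu_add, nu_mul, nu_mul] at h2
    rw [nu_sub, nu_sub, nu_add, nu_mul, nu_mul, nu_mul, nu_sub, nu_mul]
    have := mul_nonneg hχ (sub_nonneg.2 h2)
    linarith

/-- the loss side for a negative integral of the gain; `n` the negative part of the gain,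
`ν1`, ..., `ν4` multipliers -/
def ZpNV (χ D : ℝ) (x U g V c V' c' : ℝ → ℝ) : Prop :=
  ∃ β1 β2 θ1 θ2 K1 K2 ν1 ν2 ν3 ν4 : ℝ, ∃ n Ex q : ℝ → ℝ,
    0 ≤ θ1 ∧ θ1 ≤ χ ∧ 0 ≤ θ2 ∧ θ2 ≤ χ ∧ 0 ≤ K1 ∧ 0 ≤ K2 ∧
    0 ≤ ν1 ∧ 0 ≤ ν2 ∧ 0 ≤ ν3 ∧ 0 ≤ ν4 ∧
    ZLo D (2 / 5) χ 1 θ1 (β1 * D) K1 ∧ ZLo D (2 / 5) χ (1 + χ) θ2 (β2 * D) K2 ∧
    ILe D n (fun _ => 0) ∧ ILe D n x ∧
    ILe D (fun _ => 0) Ex ∧
    ILe D (fun a => (1 - a * U a / 2) ^ 2 + a * x a ^ 2 / 4) (fun a => 1 + Ex a) ∧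
    ILe D (fun a => 7 / 5 * (a ^ 2 * U a ^ 2 + a * x a ^ 2) +
      23 / 10 * D * (x a ^ 2 + a * U a ^ 2) + 10 * D * n a ^ 2) q ∧
    ILe D V' (fun a => V a + g a - 1 / 2 * q a - θ1 * (c a - g a) - K1 * Ex a + ν1 * g a) ∧
    ILe D V' (fun a => V a + g a - 1 / 2 * q a - χ * (c a - g a) - K1 * Ex a + ν2 * g a +
      (χ - θ1) * β1) ∧
    ILe D V' (fun a => V a + g a - (1 + χ) / 2 * q a - θ2 * (c a - g a) - K2 * Ex a +
      ν3 * g a + χ * c' a) ∧
    ILe D V' (fun a => V a + g a - (1 + χ) / 2 * q a - χ * (c a - g a) - K2 * Ex a +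
      ν4 * g a + χ * c' a + (χ - θ2) * β2)

/-- leaf and two branches behind positive edges, excess form, both signs of the gain, value
lines -/
def ZpEV (χ : ℝ → ℝ) (D : ℝ) (x U V c V' c' : ℝ → ℝ) : Prop :=
  ∃ r : ℝ, ∃ g : ℝ → ℝ, 0 ≤ r ∧ ILe D g x ∧ ILe D g (fun _ => r) ∧
    ZpGV (χ D) D r x U g V V' c' ∧ ZpL3 (χ D) D r x U g V c V' c' ∧
    (ILe D (fun _ => 0) g ∨ ZpNV (χ D) D x U g V c V' c')

theorem GoodE.zpcV0 (hsink : SinkL (1 / 10))
    (hZN : ZNegL (2 / 5) (23 / 10) (1 / 10)) {χ : ℝ → ℝ} {O1 O2 : OBr}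
    {V1 c1 V2 c2 V' c' : ℝ → ℝ → ℝ}
    (h1 : GoodE χ O1 V1 c1) (h2 : GoodE χ O2 V2 c2) (e1 e2 e3 : Bool) (x U : ℝ → ℝ)
    (hx : ∀ a, sg e2 * (XX O1).eval a + sg e3 * (XX O2).eval a = x a)
    (hU : ∀ a, (YY O1).eval a + (YY O2).eval a = U a)
    (H : ∀ D, RD D → ZpEV χ D x U (fun a => V1 D a + V2 D a) (fun a => c1 D a + c2 D a)
      (V' D) (c' D)) :
    GoodE χ (.mk [cn false e1 .nil, cn true e2 O1, cn true e3 O2]) V' c' := by
  intro m S hS w t hR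
  have hRD : RD (dee S) := ⟨hR.dee_nonneg, hR.dee_le⟩
  have hD := hR.dee_nonneg
  obtain ⟨r, g, hr0, hg, hgr, hG, hL, hNeg⟩ := H _ hRD
  have ex : XX (.mk [cn false e1 .nil, cn true e2 O1, cn true e3 O2]) =
      1 - X * (YY O1 + YY O2) := by
    rw [XX_mk]
    simp only [List.map_cons, List.map_nil, List.sum_cons, List.sum_nil, add_zero, cn_fst, cn_YY,
      YY_nil, sg_true, sg_false, mul_zero, sub_zero, one_smul, neg_smul]
    ring
  have ey : YY (.mk [cn false e1 .nil, cn true e2 O1, cn true e3 O2]) =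
      sg e2 • XX O1 + sg e3 • XX O2 := by
    rw [YY_mk]
    simp only [List.map_cons, List.map_nil, List.sum_cons, List.sum_nil, add_zero, cn_fst, cn_XX,
      XX_nil, smul_zero, zero_add]
  have ev : (OBr.mk [cn false e1 .nil, cn true e2 O1, cn true e3 O2]).vS S =
      fun z => (1 - beta S z) * (ms S (cn true e2 O1) z * ms S (cn true e3 O2) z) := by
    funext z
    rw [vS_mk_ms]
    simp only [List.map_cons, List.map_nil, List.prod_cons, List.prod_nil, mul_one]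
    have m1 : ms S (cn false e1 .nil) z = 1 - beta S z := by
      rw [ms_eq_msg, cn_fst, sg_false]
      have e4 : (cn false e1 .nil).2.vS S = fun _ => 1 := by
        unfold cn
        dsimp only
        split_ifs <;> rfl
      rw [e4, msg_one hS]
      ring
    rw [m1]
  rw [ex, ey, ev]
  -- the messages
  have hM : ∀ (O : OBr) (V c : ℝ → ℝ → ℝ) (e : Bool), GoodE χ O V c →
      MMajE S (ms S (cn true e O)) (1 - X * YY O) (sg e • XX O) (mo S (sg e • XX O))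
        (χ (dee S)) (nu w t (V (dee S))) (nu w t (c (dee S))) := by
    intro O V c e h
    have h3 := h.msg true e hS hR
    rw [sg_true, one_smul] at h3
    have h4 : (nu w t fun a => sg e * (XX O).eval a) = mo S (sg e • XX O) := by
      rw [hR.mo_nu]
      congr 1
      funext a
      rw [eval_smul, smul_eq_mul]
    rw [h4] at h3
    exact h3
  have hM1 := hM O1 V1 c1 e2 h1
  have hM2 := hM O2 V2 c2 e3 h2
  -- the integrals
  have hxe : ∀ a, (sg e2 • XX O1 + sg e3 • XX O2).eval a = x a := by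
    intro a
    rw [eval_add, eval_smul, eval_smul, smul_eq_mul, smul_eq_mul, hx]
  have hUe : ∀ a, (YY O1 + YY O2).eval a = U a := by
    intro a
    rw [eval_add, hU]
  have hmo : mo S (sg e2 • XX O1 + sg e3 • XX O2) = nu w t x := by
    rw [hR.mo_nu]
    congr 1
    funext a
    rw [hxe]
  have hE0 : en S (-(X * (YY O1 + YY O2))) (sg e2 • XX O1 + sg e3 • XX O2) =
      nu w t fun a => a ^ 2 * U a ^ 2 + a * x a ^ 2 := by
    rw [hR.en_nu]
    congr 1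
    funext a
    rw [hxe, eval_neg, eval_mul, eval_X, hUe]
    ring
  have hE1 : en S (sg e2 • XX O1 + sg e3 • XX O2) (YY O1 + YY O2) =
      nu w t fun a => x a ^ 2 + a * U a ^ 2 := by
    rw [hR.en_nu]
    congr 1
    funext a
    rw [hxe, hUe]
  have hEh : en S (halfx (YY O1 + YY O2)) (halfy (sg e2 • XX O1 + sg e3 • XX O2)) =
      nu w t fun a => (1 - a * U a / 2) ^ 2 + a * x a ^ 2 / 4 := by
    rw [hR.en_nu]
    congr 1
    funext a
    unfold halfx halfy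
    rw [eval_add, eval_one, eval_smul, eval_neg, eval_mul, eval_X, hUe, eval_smul, hxe]
    simp only [smul_eq_mul]
    ring
  have hgx : nu w t g ≤ mo S (sg e2 • XX O1 + sg e3 • XX O2) := by
    rw [hmo]
    exact hg m S hS w t hR rfl
  have hgr' : nu w t g ≤ r * dee S := by
    have := hgr m S hS w t hR rfl
    rwa [hR.nu_const] at this
  have hrD : 0 ≤ r * dee S := mul_nonneg hr0 hD
  have hen0 : 0 ≤ en S (halfx (YY O1 + YY O2)) (halfy (sg e2 • XX O1 + sg e3 • XX O2)) :=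
    en_nonneg hS.anti _ _
  have hDe : 0 ≤ dee S * en S (sg e2 • XX O1 + sg e3 • XX O2) (YY O1 + YY O2) :=
    mul_nonneg hD (en_nonneg hS.anti _ _)
  rcases le_or_gt 0 (nu w t g) with hsgn | hsgn
  · -- nonnegative gain
    have hχ0 : 0 ≤ χ (dee S) := by
      obtain ⟨ε, β1, β2, θ1, θ2, K1, K2, μ1, μ2, μ3, μ4, Ex, q, hε, hrε, hθ10, hθ11, hθ1, _⟩ := hL
      exact hθ10.trans hθ1
    have hmx : ∀ b A P c : ℝ, b ≤ A → b ≤ A - χ (dee S) * (P - c) →
        b + χ (dee S) * max (P - c) 0 ≤ A := by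
      intro b A P c h3 h4
      rcases le_total (P - c) 0 with h5 | h5
      · rw [max_eq_right h5, mul_zero, add_zero]
        exact h3
      · rw [max_eq_left h5]
        linarith
    have hgain : ∀ g', 0 ≤ g' → g' ≤ nu w t g → ∃ L P,
        ZRule S (sg e2 • XX O1 + sg e3 • XX O2) (YY O1 + YY O2) g' L P ∧
        nu w t (V' (dee S)) + χ (dee S) * max (P - nu w t (c' (dee S))) 0 + Real.log L + P ≤
          nu w t (V1 (dee S)) + nu w t (V2 (dee S)) + g' := by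
      rcases hG with ⟨CA, CE, ψ, η1, η2, q, hr3, hCA, hCE, hcap, hη1, hη2, hq, hb1, hc1⟩ |
        ⟨ε, η, η1, η2, I, q, hK, hI, hη1, hη2, hq, hb1, hc1⟩
      · have hg1 := mul_le_mul_of_nonneg_right hη1 hsgn
        have hg2 := mul_le_mul_of_nonneg_right hη2 hsgn
        have hbV : nu w t (V' (dee S)) + χ (dee S) * max (nu w t q - nu w t (c' (dee S))) 0 ≤
            nu w t (V1 (dee S)) + nu w t (V2 (dee S)) + 9 / 10 * nu w t g - nu w t q := by
          apply hmx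
          · have h3 := hb1 m S hS w t hR rfl
            rw [nu_sub, nu_add, nu_add, nu_mul] at h3
            linarith
          · have h3 := hc1 m S hS w t hR rfl
            rw [nu_sub, nu_sub, nu_add, nu_add, nu_mul, nu_mul, nu_sub] at h3
            linarith
        intro g' hg0 hgg
        obtain ⟨L, P, hZ, h5, h6⟩ := star_gain hS CA CE (r * dee S) (nu w t g) (nu w t q)
          (nu w t (V1 (dee S)) + nu w t (V2 (dee S)))
          (nu w t (V' (dee S)) + χ (dee S) * max (nu w t q - nu w t (c' (dee S))) 0)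
          (nu w t q) hgx hgr' hr3 hrD hCA
          hCE (by
            rcases hcap with ⟨h3, h4⟩ | h3
            · left
              have h5 := h3 m S hS w t hR rfl
              rw [hR.nu_const] at h5
              rw [hE1]
              linarith
            · right
              have := mul_le_mul_of_nonneg_right h3 hD
              linarith) (by
            have h3 := hq m S hS w t hR rfl
            rw [nu_add, nu_mul, nu_mul] at h3
            rw [hE0, hE1]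
            linarith) hbV le_rfl g' hg0 hgg
        refine ⟨L, P, hZ, ?_⟩
        have h7 : max (P - nu w t (c' (dee S))) 0 ≤ max (nu w t q - nu w t (c' (dee S))) 0 :=
          max_le_max (by linarith) le_rfl
        have h8 := mul_le_mul_of_nonneg_left h7 hχ0
        linarith
      · have h1P : 0 < 1 - r * dee S := by linarith [hK.hr]
        have hI1 : 1 / (2 * (1 - r * dee S)) ≤ I := by
          rw [div_le_iff₀ (by positivity)]
          exact hI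
        have hI0 : 0 ≤ I := le_trans (by positivity) hI1
        have hQ : (1 + ε) * en S (-(X * (YY O1 + YY O2))) (sg e2 • XX O1 + sg e3 • XX O2) +
            (1 + ε + 1 / (4 * ε)) * dee S *
              en S (sg e2 • XX O1 + sg e3 • XX O2) (YY O1 + YY O2) ≤ nu w t q := by
          have h3 := hq m S hS w t hR rfl
          rw [nu_add, nu_mul, nu_mul] at h3
          rw [hE0, hE1]
          exact h3
        have hQ0 : 0 ≤ nu w t q := by
          refine le_trans ?_ hQ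
          have h1 := en_nonneg (S := S) hS.anti (-(X * (YY O1 + YY O2)))
            (sg e2 • XX O1 + sg e3 • XX O2)
          have h2 := en_nonneg (S := S) hS.anti (sg e2 • XX O1 + sg e3 • XX O2) (YY O1 + YY O2)
          have h3 := hK.hε
          positivity
        have hdiv : nu w t q / (2 * (1 - r * dee S)) ≤ I * nu w t q := by
          rw [div_eq_mul_one_div, mul_comm]
          exact mul_le_mul_of_nonneg_right hI1 hQ0
        have hg1 := mul_le_mul_of_nonneg_right hη1 hsgn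
        have hg2 := mul_le_mul_of_nonneg_right hη2 hsgn
        obtain ⟨P0, hP0⟩ : ∃ P0 : ℝ, P0 = I * nu w t q + (2 + ε) * (r * dee S) * I * nu w t g :=
          ⟨_, rfl⟩
        have hbV : nu w t (V' (dee S)) + χ (dee S) * max (P0 - nu w t (c' (dee S))) 0 ≤
            nu w t (V1 (dee S)) + nu w t (V2 (dee S)) + η * nu w t g - I * nu w t q := by
          apply hmx
          · have h3 := hb1 m S hS w t hR rfl
            rw [nu_sub, nu_add, nu_add, nu_mul, nu_mul] at h3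
            linarith
          · have h3 := hc1 m S hS w t hR rfl
            rw [nu_sub, nu_sub, nu_add, nu_add, nu_mul, nu_mul, nu_mul, nu_sub, nu_mul] at h3
            rw [hP0]
            linarith
        intro g' hg0 hgg
        obtain ⟨L, P, hZ, h5, h6⟩ := old_gain hS ε η (r * dee S) (nu w t g) (nu w t q)
          (nu w t (V1 (dee S)) + nu w t (V2 (dee S)))
          (nu w t (V' (dee S)) + χ (dee S) * max (P0 - nu w t (c' (dee S))) 0) P0
          hK.hε hgx hgr' hK.hr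
          hK.hrε hK.hη1 (fun ρ h0 h1 => zpc_h ρ _ _ _ hK.hr h1 h0 hK.hε.le hK.hη) hQ
          (by linarith) (by
            intro h4
            have h5 : (2 + ε) * (r * dee S) / (2 * (1 - r * dee S)) * nu w t g ≤
                (2 + ε) * (r * dee S) * I * nu w t g := by
              apply mul_le_mul_of_nonneg_right _ h4
              rw [div_eq_mul_one_div]
              exact mul_le_mul_of_nonneg_left hI1 (mul_nonneg (by linarith [hK.hε]) hrD)
            linarith) g' hg0 hgg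
        refine ⟨L, P, hZ, ?_⟩
        have h7 : max (P - nu w t (c' (dee S))) 0 ≤ max (P0 - nu w t (c' (dee S))) 0 :=
          max_le_max (by linarith) le_rfl
        have h8 := mul_le_mul_of_nonneg_left h7 hχ0
        linarith
    obtain ⟨ε, β1, β2, θ1, θ2, K1, K2, μ1, μ2, μ3, μ4, Ex, q, hε, hrε, hθ10, hθ11, hθ1, hθ20,
      hθ2, hK1, hK2, hμ1, hμ2, hμ3, hμ4, hL1, hL2, hEx0, hEx, hq, hb2, hb2', hb3, hb3'⟩ := hL
    have hEx0' : 0 ≤ nu w t Ex := by
      have := hEx0 m S hS w t hR rfl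
      rwa [nu_zero] at this
    have hδ : en S (halfx (YY O1 + YY O2)) (halfy (sg e2 • XX O1 + sg e3 • XX O2)) ≤
        dee S + nu w t Ex := by
      rw [hEh]
      have h3 := hEx m S hS w t hR rfl
      have h4 : (nu w t fun a => 1 + Ex a) = dee S + nu w t Ex := by
        rw [nu_add, hR.nu_const, one_mul]
      rwa [h4] at h3
    have hq' : (1 + ε) * en S (-(X * (YY O1 + YY O2))) (sg e2 • XX O1 + sg e3 • XX O2) +
        (1 + ε + 1 / (4 * ε)) * dee S *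
          en S (sg e2 • XX O1 + sg e3 • XX O2) (YY O1 + YY O2) ≤ nu w t q := by
      have h3 := hq m S hS w t hR rfl
      rw [nu_add, nu_mul, nu_mul] at h3
      rw [hE0, hE1]
      exact h3
    have hg1 := mul_nonneg hμ1 hsgn
    have hg2 := mul_nonneg hμ2 hsgn
    have hg3 := mul_nonneg hμ3 hsgn
    have hg4 := mul_nonneg hμ4 hsgn
    refine hM1.zpc_pos hS hM2 (nu w t g) hgx hsgn hgain ε (β1 * dee S) (β2 * dee S) θ1 θ2
      (nu w t q) (K1 * nu w t Ex) (K2 * nu w t Ex) hε (by linarith) hθ10 hθ1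
      hθ20 hθ2 (mul_nonneg hK1 hEx0') (mul_nonneg hK2 hEx0') hq'
      (hL1 _ _ hen0 hEx0' hδ) (hL2 _ _ hen0 hEx0' hδ) ?_ ?_ ?_ ?_
    · have h3 := hb2 m S hS w t hR rfl
      rw [nu_sub, nu_sub, nu_sub, nu_sub, nu_add, nu_add, nu_mul, nu_mul, nu_mul, nu_mul,
        nu_sub, nu_add] at h3
      linarith
    · have h3 := hb2' m S hS w t hR rfl
      rw [nu_add, nu_sub, nu_sub, nu_sub, nu_sub, nu_add, nu_add, nu_mul, nu_mul, nu_mul, nu_mul,
        nu_sub, nu_add, hR.nu_const] at h3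
      linarith
    · have h3 := hb3 m S hS w t hR rfl
      rw [nu_add, nu_sub, nu_sub, nu_sub, nu_sub, nu_add, nu_add, nu_mul, nu_mul, nu_mul, nu_mul,
        nu_mul, nu_sub, nu_add] at h3
      linarith
    · have h3 := hb3' m S hS w t hR rfl
      rw [nu_add, nu_add, nu_sub, nu_sub, nu_sub, nu_sub, nu_add, nu_add, nu_mul, nu_mul, nu_mul,
        nu_mul, nu_mul, nu_sub, nu_add, hR.nu_const] at h3
      linarith
  · -- negative gain
    rcases hNeg with h | hN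
    · exfalso
      have h3 := h m S hS w t hR rfl
      rw [nu_zero] at h3
      linarith
    obtain ⟨β1, β2, θ1, θ2, K1, K2, ν1, ν2, ν3, ν4, n, Ex, q,
      hθ10, hθ1, hθ20, hθ2, hK1, hK2, hν1, hν2, hν3, hν4, hL1, hL2, hn0, hnx, hEx0, hEx,
      hq, hb2, hb2', hb3, hb3'⟩ := hN
    have hEx0' : 0 ≤ nu w t Ex := by
      have := hEx0 m S hS w t hR rfl
      rwa [nu_zero] at this
    have hδ : en S (halfx (YY O1 + YY O2)) (halfy (sg e2 • XX O1 + sg e3 • XX O2)) ≤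
        dee S + nu w t Ex := by
      rw [hEh]
      have h3 := hEx m S hS w t hR rfl
      have h4 : (nu w t fun a => 1 + Ex a) = dee S + nu w t Ex := by
        rw [nu_add, hR.nu_const, one_mul]
      rwa [h4] at h3
    have hn0' : nu w t n ≤ 0 := by
      have := hn0 m S hS w t hR rfl
      rwa [nu_zero] at this
    have hnx' : nu w t n ≤ mo S (sg e2 • XX O1 + sg e3 • XX O2) := by
      rw [hmo]
      exact hnx m S hS w t hR rfl
    have hξ : (max 0 (-(mo S (sg e2 • XX O1 + sg e3 • XX O2)))) ^ 2 ≤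
        dee S * nu w t fun a => n a ^ 2 := by
      refine le_trans ?_ (hR.nu_sq n)
      rw [← neg_sq (nu w t n)]
      exact pow_le_pow_left₀ (le_max_left _ _) (max_le (by linarith) (by linarith)) 2
    have hq' : (1 + 2 / 5) * en S (-(X * (YY O1 + YY O2))) (sg e2 • XX O1 + sg e3 • XX O2) +
        23 / 10 * dee S * en S (sg e2 • XX O1 + sg e3 • XX O2) (YY O1 + YY O2) +
        1 / (1 / 10) * (max 0 (-(mo S (sg e2 • XX O1 + sg e3 • XX O2)))) ^ 2 ≤ nu w t q := by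
      have h3 := hq m S hS w t hR rfl
      rw [nu_add, nu_add, nu_mul, nu_mul, nu_mul] at h3
      rw [hE0, hE1]
      have h4 := mul_le_mul_of_nonneg_left hξ (show (0 : ℝ) ≤ 10 by norm_num)
      norm_num
      linarith
    have hg1 := mul_nonpos_of_nonneg_of_nonpos hν1 hsgn.le
    have hg2 := mul_nonpos_of_nonneg_of_nonpos hν2 hsgn.le
    have hg3 := mul_nonpos_of_nonneg_of_nonpos hν3 hsgn.le
    have hg4 := mul_nonpos_of_nonneg_of_nonpos hν4 hsgn.le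
    refine hM1.zpc_negL hS hM2 (1 / 10) (by norm_num) (hsink m S hS) (nu w t g) hgx hsgn.le
      (2 / 5) (23 / 10) (β1 * dee S)
      (β2 * dee S) θ1 θ2 (nu w t q) (K1 * nu w t Ex) (K2 * nu w t Ex) (by norm_num)
      (by norm_num) hZN hθ10 hθ1 hθ20 hθ2 (mul_nonneg hK1 hEx0') (mul_nonneg hK2 hEx0') hq'
      (hL1 _ _ hen0 hEx0' hδ) (hL2 _ _ hen0 hEx0' hδ) ?_ ?_ ?_ ?_
    · have h3 := hb2 m S hS w t hR rfl
      rw [nu_add, nu_sub, nu_sub, nu_sub, nu_add, nu_add, nu_mul, nu_mul, nu_mul, nu_mul,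
        nu_sub, nu_add] at h3
      linarith
    · have h3 := hb2' m S hS w t hR rfl
      rw [nu_add, nu_add, nu_sub, nu_sub, nu_sub, nu_add, nu_add, nu_mul, nu_mul, nu_mul, nu_mul,
        nu_sub, nu_add, hR.nu_const] at h3
      linarith
    · have h3 := hb3 m S hS w t hR rfl
      rw [nu_add, nu_add, nu_sub, nu_sub, nu_sub, nu_add, nu_add, nu_mul, nu_mul, nu_mul, nu_mul,
        nu_mul, nu_sub, nu_add] at h3
      linarith
    · have h3 := hb3' m S hS w t hR rfl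
      rw [nu_add, nu_add, nu_add, nu_sub, nu_sub, nu_sub, nu_add, nu_add, nu_mul, nu_mul, nu_mul,
        nu_mul, nu_mul, nu_sub, nu_add, hR.nu_const] at h3
      linarith

theorem GoodE.zpV0 (hsink : SinkL (1 / 10))
    (hZN : ZNegL (2 / 5) (23 / 10) (1 / 10)) {χ : ℝ → ℝ} {O : OBr} {V c V' c' : ℝ → ℝ → ℝ}
    (h : GoodE χ O V c)
    (e1 e2 e3 : Bool) (x y : ℝ → ℝ) (hx : ∀ a, sg e2 + sg e3 * (XX O).eval a = x a)
    (hy : ∀ a, (YY O).eval a = y a)
    (H : ∀ D, RD D → ZpEV χ D x y (V D) (c D) (V' D) (c' D)) :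
    GoodE χ (.mk [cn false e1 .nil, cn true e2 TSM.two, cn true e3 O]) V' c' := by
  have hYtwo : YY TSM.two = 0 := by
    unfold TSM.two
    rw [YY_cons, XX_nil, YY_nil]
    simp
  have hXtwo : XX TSM.two = 1 := by
    unfold TSM.two
    rw [XX_cons, XX_nil, YY_nil, sg_true]
    simp
  refine (goodE_two χ).zpcV0 hsink hZN h e1 e2 e3 x y (fun a => ?_) (fun a => ?_) (fun D hD => ?_)
  · rw [hXtwo, eval_one, mul_one, hx]
  · rw [hYtwo, eval_zero, zero_add, hy]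
  · have h1 := H D hD
    have e4 : (fun a => (fun _ _ => (0 : ℝ)) D a + V D a) = V D := by
      funext a; simp
    have e5 : (fun a => (fun _ _ => (0 : ℝ)) D a + c D a) = c D := by
      funext a; simp
    rw [e4, e5]
    exact h1

theorem sinkL_tenth : SinkL (1 / 10) := fun _ S hS c _ =>
  sink_lam' hS.pos S hS.anti hS.bd c (1 / 10) (by norm_num)

theorem zNegL_tenth : ZNegL (2 / 5) (23 / 10) (1 / 10) := by
  intro u p q ct h s k2 r ξ hu0 hu1 hp _ hpq hct hs hhs hcs hk2 hk hξ0 hξr hr1 _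
  exact zneg_point u p q ct h s k2 r ξ hu0 hu1 hp hpq hct hs hhs hcs hk2 hk hξ0 hξr hr1

/-- **leaf and two branches behind positive edges**, value form, no further hypothesis -/
theorem GoodE.zpcV {χ : ℝ → ℝ} {O1 O2 : OBr} {V1 c1 V2 c2 V' c' : ℝ → ℝ → ℝ}
    (h1 : GoodE χ O1 V1 c1) (h2 : GoodE χ O2 V2 c2) (e1 e2 e3 : Bool) (x U : ℝ → ℝ)
    (hx : ∀ a, sg e2 * (XX O1).eval a + sg e3 * (XX O2).eval a = x a)
    (hU : ∀ a, (YY O1).eval a + (YY O2).eval a = U a)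
    (H : ∀ D, RD D → ZpEV χ D x U (fun a => V1 D a + V2 D a) (fun a => c1 D a + c2 D a)
      (V' D) (c' D)) :
    GoodE χ (.mk [cn false e1 .nil, cn true e2 O1, cn true e3 O2]) V' c' :=
  GoodE.zpcV0 sinkL_tenth zNegL_tenth h1 h2 e1 e2 e3 x U hx hU H

/-- **(leaf, path, child)**, value form, no further hypothesis -/
theorem GoodE.zpV {χ : ℝ → ℝ} {O : OBr} {V c V' c' : ℝ → ℝ → ℝ} (h : GoodE χ O V c)
    (e1 e2 e3 : Bool) (x y : ℝ → ℝ) (hx : ∀ a, sg e2 + sg e3 * (XX O).eval a = x a)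
    (hy : ∀ a, (YY O).eval a = y a)
    (H : ∀ D, RD D → ZpEV χ D x y (V D) (c D) (V' D) (c' D)) :
    GoodE χ (.mk [cn false e1 .nil, cn true e2 TSM.two, cn true e3 O]) V' c' :=
  GoodE.zpV0 sinkL_tenth zNegL_tenth h e1 e2 e3 x y hx hy H

end Pool.Agent.TSM
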