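import Pool.Agent.TSM.Rules

set_option autoImplicit false

/-!
# Assembly: from a list of real inequalities to the frozen statement (MP_d27362_co)

`Sys` abstracts the rules (the predicate `G` and the conditions of the steps), `Cert` is the list of
what has to be checked for a potential `V` and a pending cost `P`, `asm` is the conclusion. The
vertices with at least three children of which at least two are nontrivial are the hypothesis
`big` of `asm`.
-/

namespace Pool.Agent.TSM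

open Finset Polynomial
open Pool.Agent.TSR (OBr Ker)
open Pool.Agent.TSO (mn)
open Pool.Agent.TLT (sg)
open Pool.Agent.TDN (dn dn_nonneg dn_zero dn_one)

noncomputable section

/-- the rules -/
structure Sys where
  /-- the predicate `Good` -/
  G : OBr → (ℝ → ℝ → ℝ) → (ℝ → ℝ → ℝ) → Prop
  /-- one child: `D`, gain, `y`, `V`, `c`, `V'`, `c'` -/
  U : ℝ → (ℝ → ℝ) → (ℝ → ℝ) → (ℝ → ℝ) → (ℝ → ℝ) → (ℝ → ℝ) → (ℝ → ℝ) → Prop
  /-- two children: `D`, gain, energy, `V`, `c`, `V'`, `c'` -/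
  R : ℝ → (ℝ → ℝ) → (ℝ → ℝ) → (ℝ → ℝ) → (ℝ → ℝ) → (ℝ → ℝ) → (ℝ → ℝ) → Prop
  /-- leaf, path, child: `D`, gain, `y`, `V`, `c`, `V'`, `c'` -/
  Z : ℝ → (ℝ → ℝ) → (ℝ → ℝ) → (ℝ → ℝ) → (ℝ → ℝ) → (ℝ → ℝ) → (ℝ → ℝ) → Prop
  nil : G .nil (fun _ _ => 0) (fun _ _ => 0)
  two : G TSM.two (fun _ _ => 0) (fun _ _ => 0)
  un : ∀ {O : OBr} {V c V' c' : ℝ → ℝ → ℝ}, G O V c → ∀ (e : Bool) (x y : ℝ → ℝ),
    (∀ a, sg e * (XX O).eval a = x a) → (∀ a, (YY O).eval a = y a) →
    (∀ D, RD D → U D x y (V D) (c D) (V' D) (c' D)) → G (.mk [cn true e O]) V' c'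
  pr : ∀ {O1 O2 : OBr} {V1 c1 V2 c2 V' c' : ℝ → ℝ → ℝ}, G O1 V1 c1 → G O2 V2 c2 →
    ∀ (σ1 e1 σ2 e2 : Bool) (x E : ℝ → ℝ),
    (∀ a, sg e1 * (XX O1).eval a + sg e2 * (XX O2).eval a = x a) →
    (∀ a, (sg σ1 * (1 - a * (YY O1).eval a) + sg σ2 * (1 - a * (YY O2).eval a)) ^ 2 +
      a * x a ^ 2 = E a) →
    (∀ D, RD D → R D x E (fun a => V1 D a + V2 D a) (fun a => c1 D a + c2 D a)
      (V' D) (c' D)) →
    G (.mk [cn σ1 e1 O1, cn σ2 e2 O2]) V' c'
  zp : ∀ {O : OBr} {V c V' c' : ℝ → ℝ → ℝ}, G O V c → ∀ (e1 e2 e3 : Bool) (x y : ℝ → ℝ),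
    (∀ a, sg e2 + sg e3 * (XX O).eval a = x a) → (∀ a, (YY O).eval a = y a) →
    (∀ D, RD D → Z D x y (V D) (c D) (V' D) (c' D)) →
    G (.mk [cn false e1 .nil, cn true e2 TSM.two, cn true e3 O]) V' c'
  fin : ∀ {O : OBr} {V c : ℝ → ℝ → ℝ}, G O V c → (∀ D a, Reg D a → 0 ≤ V D a) →
    ∀ (m : ℕ) (S : Fin m → Fin m → ℝ), Ker S → mn (O.vS S) ≤ 1

/-- the rules of `TSM.Rules` -/
def sys0 : Sys where
  G := Good
  U := UnC
  R := PrC
  Z := ZpC
  nil := Good.nil
  two := Good.two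
  un := fun h e x y => h.un e x y
  pr := fun h1 h2 σ1 e1 σ2 e2 x E => h1.pr h2 σ1 e1 σ2 e2 x E
  zp := fun h e1 e2 e3 x y => h.zp e1 e2 e3 x y
  fin := fun h hV m S hS => by
    obtain ⟨w, t, hR⟩ := exists_rep hS
    have h1 := (h m S hS w t hR).mean_le hS (hR.nu_nonneg (hV _))
    rwa [TSO.ip_one] at h1

/-- the state of a branch at a point -/
structure Sn where
  /-- the type, `0` iff `τ = 0` -/
  ty : ℕ
  /-- the value of `U` -/
  u : ℝ
  /-- the value of `y` -/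
  y : ℝ
  /-- the value of `U` at `q0` -/
  vU : ℝ
  /-- the value of `y` at `q0` -/
  vY : ℝ
  /-- the seminorm of `U` -/
  aU : ℝ
  /-- the seminorm of `y` -/
  aY : ℝ

/-- the state of a branch as a function of the point -/
structure Chd where
  /-- the type -/
  ty : ℕ
  /-- the function `U` -/
  u : ℝ → ℝ
  /-- the function `y` -/
  y : ℝ → ℝ
  /-- the value of `U` at `q0` -/
  vU : ℝ
  /-- the value of `y` at `q0` -/
  vY : ℝ
  /-- the seminorm of `U` -/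
  aU : ℝ
  /-- the seminorm of `y` -/
  aY : ℝ

namespace Chd

/-- the state at a point -/
def sn (c : Chd) (a : ℝ) : Sn := ⟨c.ty, c.u a, c.y a, c.vU, c.vY, c.aU, c.aY⟩

/-- the oriented `x` -/
def x (c : Chd) (a : ℝ) : ℝ := if c.ty = 0 then a * c.u a else 1 - a * c.u a

/-- its value at `q0` -/
def xT (c : Chd) : ℝ := if c.ty = 0 then q0 * c.vU else 1 - q0 * c.vU

/-- the general restrictions -/
structure Ok (c : Chd) : Prop where
  hU0 : 0 ≤ c.vU
  hU2 : c.vU ≤ 2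
  hY0 : 0 ≤ c.vY
  hY2 : c.vY ≤ 2
  haU : 0 ≤ c.aU
  haY : 0 ≤ c.aY
  hu : ∀ a, 0 ≤ a → a ≤ q0 → |c.u a - c.vU| ≤ th a * c.aU
  hy : ∀ a, 0 ≤ a → a ≤ q0 → |c.y a - c.vY| ≤ th a * c.aY

/-- a possible seminorm of `x` -/
def AX (c : Chd) (aX : ℝ) : Prop :=
  0 ≤ aX ∧ ∀ g l, TX g l → aX ^ 2 ≤ q0 ^ 2 * (g * c.vU ^ 2 + l * c.aU ^ 2)

end Chd

/-- the state of an oriented tree -/
def chd (ty : ℕ) (O : OBr) : Chd :=
  ⟨ty, fun a => (UU O).eval a, fun a => (YY O).eval a, vU O, vY O, aU O, aY O⟩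

lemma chd_ok (ty : ℕ) {O : OBr} (h : Inv O) : (chd ty O).Ok :=
  ⟨h.2.1, h.2.2.1, h.2.2.2.1, h.2.2.2.2, aU_nonneg O, aY_nonneg O,
    fun _ h0 h1 => U_near O h0 h1, fun _ h0 h1 => Y_near O h0 h1⟩

lemma chd_x {ty : ℕ} {O : OBr} (h : Inv O) (ht : ty = 0 ↔ tau O = 0) (a : ℝ) :
    sg (sx O) * (XX O).eval a = (chd ty O).x a := by
  rw [← smul_eq_mul, ← eval_smul, sx_smul h.1]
  rcases h.1 with h0 | h1
  · rw [xh_eval_zero h0]
    show _ = if ty = 0 then _ else _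
    rw [if_pos (ht.mpr h0)]
    rfl
  · rw [xh_eval_one h1]
    have : ty ≠ 0 := fun h => by
      have := ht.mp h
      rw [h1] at this
      norm_num at this
    show _ = if ty = 0 then _ else _
    rw [if_neg this]
    rfl

lemma chd_xT {ty : ℕ} {O : OBr} (h : Inv O) (ht : ty = 0 ↔ tau O = 0) :
    sg (sx O) * (XX O).eval q0 = (chd ty O).xT := chd_x h ht q0

lemma chd_xT_mem {ty : ℕ} {O : OBr} (h : Inv O) (ht : ty = 0 ↔ tau O = 0) :
    0 ≤ (chd ty O).xT ∧ (chd ty O).xT ≤ 1 := by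
  rw [← chd_xT h ht, ← smul_eq_mul, ← eval_smul, sx_smul h.1]
  exact h.xT

lemma chd_AX {ty : ℕ} (O : OBr) : (chd ty O).AX (aX O) :=
  ⟨aX_nonneg O, fun _ _ h => aX_tx h O⟩

/-- the property which is propagated -/
def PO (Y : Sys) (Adm : ℕ → ℝ → ℝ → ℝ → ℝ → Prop) (V P : ℝ → ℝ → Sn → ℝ) (O : OBr) : Prop :=
  ∃ ty : ℕ, (ty = 0 ↔ tau O = 0) ∧ Inv O ∧ Adm ty (vU O) (vY O) (aU O) (aY O) ∧
    Y.G O (fun D a => V D a ((chd ty O).sn a)) (fun D a => P D a ((chd ty O).sn a))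

/-- the list of conditions on the potential `V` and the pending cost `P` -/
structure Cert (Y : Sys) (Adm : ℕ → ℝ → ℝ → ℝ → ℝ → Prop) (V P : ℝ → ℝ → Sn → ℝ) : Prop where
  /-- positivity -/
  pos : ∀ c : Chd, c.Ok → Adm c.ty c.vU c.vY c.aU c.aY → ∀ D a, Reg D a → 0 ≤ V D a (c.sn a)
  /-- the vertex with the child `two` -/
  root1 : Adm 1 0 1 0 0 ∧ ∀ D, RD D → Y.U D (fun _ => 1) (fun _ => 0) (fun _ => 0) (fun _ => 0)
    (fun a => V D a ⟨1, 0, 1, 0, 1, 0, 0⟩) (fun a => P D a ⟨1, 0, 1, 0, 1, 0, 0⟩)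
  /-- the vertex with a leaf and the child `two` -/
  root0 : Adm 0 0 1 0 0 ∧ ∀ D, RD D → Y.R D (fun _ => 1) (fun a => a) (fun _ => 0) (fun _ => 0)
    (fun a => V D a ⟨0, 0, 1, 0, 1, 0, 0⟩) (fun a => P D a ⟨0, 0, 1, 0, 1, 0, 0⟩)
  /-- one child -/
  un : ∀ c : Chd, c.Ok → Adm c.ty c.vU c.vY c.aU c.aY → ∀ aX, c.AX aX →
    Adm 1 c.vY c.xT c.aY aX ∧ ∀ D, RD D → Y.U D c.x c.y (fun a => V D a (c.sn a))
      (fun a => P D a (c.sn a)) (fun a => V D a ⟨1, c.y a, c.x a, c.vY, c.xT, c.aY, aX⟩)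
      (fun a => P D a ⟨1, c.y a, c.x a, c.vY, c.xT, c.aY, aX⟩)
  /-- leaf and child -/
  lc : ∀ c : Chd, c.Ok → Adm c.ty c.vU c.vY c.aU c.aY → ∀ aX, c.AX aX →
    Adm 0 c.vY c.xT c.aY aX ∧ ∀ D, RD D → Y.R D c.x
      (fun a => a ^ 2 * c.y a ^ 2 + a * c.x a ^ 2) (fun a => V D a (c.sn a))
      (fun a => P D a (c.sn a)) (fun a => V D a ⟨0, c.y a, c.x a, c.vY, c.xT, c.aY, aX⟩)
      (fun a => P D a ⟨0, c.y a, c.x a, c.vY, c.xT, c.aY, aX⟩)
  /-- path and child -/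
  pc : ∀ c : Chd, c.Ok → Adm c.ty c.vU c.vY c.aU c.aY → ∀ aX, c.AX aX → ∃ e : Bool,
    Adm 0 c.vY (1 + sg e * c.xT) c.aY aX ∧ ∀ D, RD D → Y.R D (fun a => 1 + sg e * c.x a)
      (fun a => a ^ 2 * c.y a ^ 2 + a * (1 + sg e * c.x a) ^ 2) (fun a => V D a (c.sn a))
      (fun a => P D a (c.sn a))
      (fun a => V D a ⟨0, c.y a, 1 + sg e * c.x a, c.vY, 1 + sg e * c.xT, c.aY, aX⟩)
      (fun a => P D a ⟨0, c.y a, 1 + sg e * c.x a, c.vY, 1 + sg e * c.xT, c.aY, aX⟩)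
  /-- leaf, path and child -/
  lpc : ∀ c : Chd, c.Ok → Adm c.ty c.vU c.vY c.aU c.aY → ∀ aX, c.AX aX → ∃ e : Bool,
    Adm 2 c.vY (1 + sg e * c.xT) c.aY aX ∧ ∀ D, RD D → Y.Z D (fun a => 1 + sg e * c.x a)
      c.y (fun a => V D a (c.sn a)) (fun a => P D a (c.sn a))
      (fun a => V D a ⟨2, c.y a, 1 + sg e * c.x a, c.vY, 1 + sg e * c.xT, c.aY, aX⟩)
      (fun a => P D a ⟨2, c.y a, 1 + sg e * c.x a, c.vY, 1 + sg e * c.xT, c.aY, aX⟩)
  /-- two children; `s = true`: the sum of the `x`, `s = false`: the difference, oriented by `e`;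
  `f s` is the seminorm of the new `y` -/
  cc : ∀ c d : Chd, c.Ok → d.Ok → Adm c.ty c.vU c.vY c.aU c.aY → Adm d.ty d.vU d.vY d.aU d.aY →
    d.vY ≤ c.vY → ∀ aXc aXd aUn : ℝ, c.AX aXc → d.AX aXd → 0 ≤ aUn → aUn ≤ c.aY + d.aY →
    ∀ f : Bool → ℝ, (∀ s, 0 ≤ f s ∧ f s ≤ aXc + aXd) →
      f true ^ 2 + f false ^ 2 = 2 * (aXc ^ 2 + aXd ^ 2) →
    ∃ s e : Bool, 0 ≤ sg e * (c.xT + sg s * d.xT) ∧
      Adm 0 (c.vY - d.vY) (sg e * (c.xT + sg s * d.xT)) aUn (f s) ∧
      ∀ D, RD D → Y.R D (fun a => sg e * (c.x a + sg s * d.x a))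
        (fun a => a ^ 2 * (c.y a - d.y a) ^ 2 + a * (sg e * (c.x a + sg s * d.x a)) ^ 2)
        (fun a => V D a (c.sn a) + V D a (d.sn a)) (fun a => P D a (c.sn a) + P D a (d.sn a))
        (fun a => V D a ⟨0, c.y a - d.y a, sg e * (c.x a + sg s * d.x a), c.vY - d.vY,
          sg e * (c.xT + sg s * d.xT), aUn, f s⟩)
        (fun a => P D a ⟨0, c.y a - d.y a, sg e * (c.x a + sg s * d.x a), c.vY - d.vY,
          sg e * (c.xT + sg s * d.xT), aUn, f s⟩)

variable {Y : Sys} {Adm : ℕ → ℝ → ℝ → ℝ → ℝ → Prop} {V P : ℝ → ℝ → Sn → ℝ}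

lemma sn_congr {ty : ℕ} {O : OBr} {u y : ℝ → ℝ} {v w b d : ℝ} (hu : ∀ a, (UU O).eval a = u a)
    (hy : ∀ a, (YY O).eval a = y a) (hv : vU O = v) (hw : vY O = w) (hb : aU O = b)
    (hd : aY O = d) (a : ℝ) : (chd ty O).sn a = ⟨ty, u a, y a, v, w, b, d⟩ := by
  subst hv hw hb hd
  unfold Chd.sn chd
  simp only [hu, hy]

/-- the vertex with one child -/
lemma step_un (C : Cert Y Adm V P) {O : OBr} (h : PO Y Adm V P O) :
    ∃ σ e, PO Y Adm V P (.mk [cn σ e O]) := by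
  obtain ⟨ty, ht, hI, hA, hG⟩ := h
  obtain ⟨h1, h2⟩ := C.un (chd ty O) (chd_ok ty hI) hA (aX O) (chd_AX O)
  refine ⟨true, sx O, 1, ?_⟩
  have e0 : tau (.mk [cn true (sx O) O]) = 1 := by
    rw [tau_mk]
    simp [TSR.sg_tt]
  have eU : UU (.mk [cn true (sx O) O]) = YY O := by
    rw [UU_mk]
    simp [cn_YY, TSR.sg_tt]
  have eY : YY (.mk [cn true (sx O) O]) = sg (sx O) • XX O := by
    rw [YY_mk]
    simp only [List.map_cons, List.map_nil, List.sum_cons, List.sum_nil, add_zero, cn_fst, cn_XX]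
  have ev : vU (.mk [cn true (sx O) O]) = vY O := by unfold vU vY; rw [eU]
  have eb : aU (.mk [cn true (sx O) O]) = aY O := by unfold aU aY; rw [eU]
  have ew : vY (.mk [cn true (sx O) O]) = (chd ty O).xT := by
    unfold vY
    rw [eY, eval_smul, smul_eq_mul, chd_xT hI ht]
  have ed : aY (.mk [cn true (sx O) O]) = aX O := by
    unfold aY
    rw [eY, sx_smul hI.1, aX_xh hI.1]
  have hx := chd_xT_mem hI ht
  have hs : ∀ a, (chd 1 (.mk [cn true (sx O) O])).sn a =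
      ⟨1, (chd ty O).y a, (chd ty O).x a, (chd ty O).vY, (chd ty O).xT, (chd ty O).aY, aX O⟩ :=
    fun a => sn_congr (fun a => by rw [eU]; rfl)
      (fun a => by rw [eY, eval_smul, smul_eq_mul, chd_x hI ht]) ev ew eb ed a
  refine ⟨by rw [e0]; norm_num, ⟨Or.inr e0, ?_, ?_, ?_, ?_⟩, ?_, ?_⟩
  · rw [ev]; exact hI.2.2.2.1
  · rw [ev]; exact hI.2.2.2.2
  · rw [ew]; exact hx.1
  · rw [ew]; linarith [hx.2]
  · rw [ev, ew, eb, ed]; exact h1
  · refine Y.un hG (sx O) (chd ty O).x (chd ty O).y (fun a => chd_x hI ht a) (fun a => rfl)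
      fun D hD => ?_
    simp only [hs]
    exact h2 D hD

/-- the vertex with the child `two` -/
lemma step_root1 (C : Cert Y Adm V P) : ∃ σ e, PO Y Adm V P (.mk [cn σ e two]) := by
  obtain ⟨h1, h2⟩ := C.root1
  refine ⟨true, true, 1, ?_⟩
  have e0 : tau (.mk [cn true true two]) = 1 := by
    rw [tau_mk]
    simp [TSR.sg_tt]
  have eU : UU (.mk [cn true true two]) = 0 := by
    rw [UU_mk]
    simp only [List.map_cons, List.map_nil, List.sum_cons, List.sum_nil, add_zero, cn_fst,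
      cn_YY, YY_two, smul_zero]
  have eY : YY (.mk [cn true true two]) = 1 := by
    rw [YY_mk]
    simp only [List.map_cons, List.map_nil, List.sum_cons, List.sum_nil, add_zero, cn_fst,
      cn_XX]
    simp only [XX_two, TSR.sg_tt, one_smul]
  have ev : vU (.mk [cn true true two]) = 0 := by unfold vU; rw [eU, eval_zero]
  have eb : aU (.mk [cn true true two]) = 0 := by unfold aU; rw [eU, dn_zero]
  have ew : vY (.mk [cn true true two]) = 1 := by unfold vY; rw [eY, eval_one]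
  have ed : aY (.mk [cn true true two]) = 0 := by unfold aY; rw [eY, dn_one]
  have hs : ∀ a, (chd 1 (.mk [cn true true two])).sn a = ⟨1, 0, 1, 0, 1, 0, 0⟩ :=
    fun a => sn_congr (u := fun _ => 0) (y := fun _ => 1) (fun a => by rw [eU, eval_zero])
      (fun a => by rw [eY, eval_one]) ev ew eb ed a
  refine ⟨by rw [e0]; norm_num, ⟨Or.inr e0, ?_, ?_, ?_, ?_⟩, ?_, ?_⟩
  · rw [ev]
  · rw [ev]; norm_num
  · rw [ew]; norm_num
  · rw [ew]; norm_num
  · rw [ev, ew, eb, ed]; exact h1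
  · refine Y.un Y.two true (fun _ => 1) (fun _ => 0) (fun a => ?_) (fun a => ?_) fun D hD => ?_
    · rw [XX_two, eval_one, TSR.sg_tt, one_mul]
    · rw [YY_two, eval_zero]
    · simp only [hs]
      exact h2 D hD

/-- the vertex with a leaf and the child `two` -/
lemma step_root0 (C : Cert Y Adm V P) :
    ∃ σ1 e1 σ2 e2, PO Y Adm V P (.mk [cn σ1 e1 .nil, cn σ2 e2 two]) := by
  obtain ⟨h1, h2⟩ := C.root0
  refine ⟨false, true, true, true, 0, ?_⟩
  have e0 : tau (.mk [cn false true .nil, cn true true two]) = 0 := by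
    rw [tau_mk]
    simp [TSR.sg_tt, TSR.sg_ff]
  have eU : UU (.mk [cn false true .nil, cn true true two]) = 0 := by
    rw [UU_mk]
    simp only [List.map_cons, List.map_nil, List.sum_cons, List.sum_nil, add_zero, cn_fst,
      cn_YY, YY_two, YY_nil, smul_zero]
  have eY : YY (.mk [cn false true .nil, cn true true two]) = 1 := by
    rw [YY_mk]
    simp only [List.map_cons, List.map_nil, List.sum_cons, List.sum_nil, add_zero, cn_fst,
      cn_XX]
    simp only [XX_two, XX_nil, TSR.sg_tt, one_smul, smul_zero, zero_add]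
  have ev : vU (.mk [cn false true .nil, cn true true two]) = 0 := by
    unfold vU; rw [eU, eval_zero]
  have eb : aU (.mk [cn false true .nil, cn true true two]) = 0 := by
    unfold aU; rw [eU, dn_zero]
  have ew : vY (.mk [cn false true .nil, cn true true two]) = 1 := by
    unfold vY; rw [eY, eval_one]
  have ed : aY (.mk [cn false true .nil, cn true true two]) = 0 := by
    unfold aY; rw [eY, dn_one]
  have hs : ∀ a, (chd 0 (.mk [cn false true .nil, cn true true two])).sn a =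
      ⟨0, 0, 1, 0, 1, 0, 0⟩ :=
    fun a => sn_congr (u := fun _ => 0) (y := fun _ => 1) (fun a => by rw [eU, eval_zero])
      (fun a => by rw [eY, eval_one]) ev ew eb ed a
  refine ⟨by rw [e0]; norm_num, ⟨Or.inl e0, ?_, ?_, ?_, ?_⟩, ?_, ?_⟩
  · rw [ev]
  · rw [ev]; norm_num
  · rw [ew]; norm_num
  · rw [ew]; norm_num
  · rw [ev, ew, eb, ed]; exact h1
  · refine Y.pr Y.nil Y.two false true true true (fun _ => 1) (fun a => a) (fun a => ?_)
      (fun a => ?_) fun D hD => ?_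
    · rw [XX_two, XX_nil, eval_one, eval_zero, TSR.sg_tt]; ring
    · rw [YY_two, YY_nil, eval_zero, TSR.sg_tt, TSR.sg_ff]; ring
    · simp only [hs, add_zero]
      exact h2 D hD

/-- leaf and child -/
lemma step_lc (C : Cert Y Adm V P) {O : OBr} (h : PO Y Adm V P O) :
    ∃ σ1 e1 σ2 e2, PO Y Adm V P (.mk [cn σ1 e1 .nil, cn σ2 e2 O]) := by
  obtain ⟨ty, ht, hI, hA, hG⟩ := h
  obtain ⟨h1, h2⟩ := C.lc (chd ty O) (chd_ok ty hI) hA (aX O) (chd_AX O)
  refine ⟨false, true, true, sx O, 0, ?_⟩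
  set N := OBr.mk [cn false true .nil, cn true (sx O) O] with hN
  have e0 : tau N = 0 := by
    rw [hN, tau_mk]
    simp [TSR.sg_tt, TSR.sg_ff]
  have eU : UU N = YY O := by
    rw [hN, UU_mk]
    simp only [List.map_cons, List.map_nil, List.sum_cons, List.sum_nil, add_zero, cn_fst,
      cn_YY, YY_nil, smul_zero, zero_add, TSR.sg_tt, one_smul]
  have eY : YY N = sg (sx O) • XX O := by
    rw [hN, YY_mk]
    simp only [List.map_cons, List.map_nil, List.sum_cons, List.sum_nil, add_zero, cn_fst,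
      cn_XX,
      XX_nil, smul_zero, zero_add]
  have ev : vU N = vY O := by unfold vU vY; rw [eU]
  have eb : aU N = aY O := by unfold aU aY; rw [eU]
  have ew : vY N = (chd ty O).xT := by
    unfold vY
    rw [eY, eval_smul, smul_eq_mul, chd_xT hI ht]
  have ed : aY N = aX O := by
    unfold aY
    rw [eY, sx_smul hI.1, aX_xh hI.1]
  have hx := chd_xT_mem hI ht
  have hs : ∀ a, (chd 0 N).sn a =
      ⟨0, (chd ty O).y a, (chd ty O).x a, (chd ty O).vY, (chd ty O).xT, (chd ty O).aY, aX O⟩ :=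
    fun a => sn_congr (fun a => by rw [eU]; rfl)
      (fun a => by rw [eY, eval_smul, smul_eq_mul, chd_x hI ht]) ev ew eb ed a
  refine ⟨by rw [e0]; norm_num, ⟨Or.inl e0, ?_, ?_, ?_, ?_⟩, ?_, ?_⟩
  · rw [ev]; exact hI.2.2.2.1
  · rw [ev]; exact hI.2.2.2.2
  · rw [ew]; exact hx.1
  · rw [ew]; linarith [hx.2]
  · rw [ev, ew, eb, ed]; exact h1
  · refine Y.pr Y.nil hG false true true (sx O) (chd ty O).x
      (fun a => a ^ 2 * (chd ty O).y a ^ 2 + a * (chd ty O).x a ^ 2) (fun a => ?_)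
      (fun a => ?_) fun D hD => ?_
    · rw [XX_nil, eval_zero, mul_zero, zero_add, chd_x hI ht]
    · rw [YY_nil, eval_zero, TSR.sg_tt, TSR.sg_ff]
      have : (YY O).eval a = (chd ty O).y a := rfl
      rw [this]
      ring
    · simp only [hs, zero_add]
      exact h2 D hD

/-- path and child -/
lemma step_pc (C : Cert Y Adm V P) {O : OBr} (h : PO Y Adm V P O) :
    ∃ σ1 e1 σ2 e2, PO Y Adm V P (.mk [cn σ1 e1 two, cn σ2 e2 O]) := by
  obtain ⟨ty, ht, hI, hA, hG⟩ := h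
  obtain ⟨e, h1, h2⟩ := C.pc (chd ty O) (chd_ok ty hI) hA (aX O) (chd_AX O)
  have hee : sg (e == sx O) = sg e * sg (sx O) := TSR.sg_beq _ _
  refine ⟨false, true, true, (e == sx O), 0, ?_⟩
  set N := OBr.mk [cn false true two, cn true (e == sx O) O] with hN
  have e0 : tau N = 0 := by
    rw [hN, tau_mk]
    simp [TSR.sg_tt, TSR.sg_ff]
  have eU : UU N = YY O := by
    rw [hN, UU_mk]
    simp only [List.map_cons, List.map_nil, List.sum_cons, List.sum_nil, add_zero, cn_fst,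
      cn_YY, YY_two, smul_zero, zero_add, TSR.sg_tt, one_smul]
  have eY : YY N = 1 + sg (e == sx O) • XX O := by
    rw [hN, YY_mk]
    simp only [List.map_cons, List.map_nil, List.sum_cons, List.sum_nil, add_zero, cn_fst,
      cn_XX]
    simp only [XX_two, TSR.sg_tt, one_smul]
  have ev : vU N = vY O := by unfold vU vY; rw [eU]
  have eb : aU N = aY O := by unfold aU aY; rw [eU]
  have eYa : ∀ a, (YY N).eval a = 1 + sg e * (chd ty O).x a := by
    intro a
    rw [eY, eval_add, eval_one, eval_smul, smul_eq_mul, hee, mul_assoc, chd_x hI ht]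
  have ew : vY N = 1 + sg e * (chd ty O).xT := eYa q0
  have ed : aY N = aX O := by
    unfold aY
    rw [eY, ← C_1, TDN.dn_C_add]
    have h3 : dn q0 (sg (e == sx O) • XX O) ^ 2 = dn q0 (XX O) ^ 2 := TSR.dn_sg q0_pos.le _ _
    have h4 := abs_eq_abs.mpr (sq_eq_sq_iff_eq_or_eq_neg.mp h3)
    rwa [abs_of_nonneg (dn_nonneg _ _), abs_of_nonneg (dn_nonneg _ _)] at h4
  have hx := chd_xT_mem hI ht
  have hb : 0 ≤ 1 + sg e * (chd ty O).xT ∧ 1 + sg e * (chd ty O).xT ≤ 2 := by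
    rcases sg_or e with h | h <;> rw [h] <;> constructor <;> linarith [hx.1, hx.2]
  have hs : ∀ a, (chd 0 N).sn a =
      ⟨0, (chd ty O).y a, 1 + sg e * (chd ty O).x a, (chd ty O).vY,
        1 + sg e * (chd ty O).xT, (chd ty O).aY, aX O⟩ :=
    fun a => sn_congr (u := (chd ty O).y) (y := fun a => 1 + sg e * (chd ty O).x a)
      (fun a => by rw [eU]; rfl) eYa ev ew eb ed a
  refine ⟨by rw [e0]; norm_num, ⟨Or.inl e0, ?_, ?_, ?_, ?_⟩, ?_, ?_⟩
  · rw [ev]; exact hI.2.2.2.1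
  · rw [ev]; exact hI.2.2.2.2
  · rw [ew]; exact hb.1
  · rw [ew]; exact hb.2
  · rw [ev, ew, eb, ed]; exact h1
  · refine Y.pr Y.two hG false true true (e == sx O) (fun a => 1 + sg e * (chd ty O).x a)
      (fun a => a ^ 2 * (chd ty O).y a ^ 2 + a * (1 + sg e * (chd ty O).x a) ^ 2) (fun a => ?_)
      (fun a => ?_) fun D hD => ?_
    · rw [XX_two, eval_one, TSR.sg_tt, hee, mul_assoc, chd_x hI ht, one_mul]
    · rw [YY_two, eval_zero, TSR.sg_tt, TSR.sg_ff]
      have : (YY O).eval a = (chd ty O).y a := rfl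
      rw [this]
      ring
    · simp only [hs, zero_add]
      exact h2 D hD

/-- leaf, path and child -/
lemma step_lpc (C : Cert Y Adm V P) {O : OBr} (h : PO Y Adm V P O) :
    ∃ σ1 e1 σ2 e2 σ3 e3, PO Y Adm V P (.mk [cn σ1 e1 .nil, cn σ2 e2 two, cn σ3 e3 O]) := by
  obtain ⟨ty, ht, hI, hA, hG⟩ := h
  obtain ⟨e, h1, h2⟩ := C.lpc (chd ty O) (chd_ok ty hI) hA (aX O) (chd_AX O)
  have hee : sg (e == sx O) = sg e * sg (sx O) := TSR.sg_beq _ _
  refine ⟨false, true, true, true, true, (e == sx O), 2, ?_⟩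
  set N := OBr.mk [cn false true .nil, cn true true two, cn true (e == sx O) O] with hN
  have e0 : tau N = 1 := by
    rw [hN, tau_mk]
    simp [TSR.sg_tt, TSR.sg_ff]
  have eU : UU N = YY O := by
    rw [hN, UU_mk]
    simp only [List.map_cons, List.map_nil, List.sum_cons, List.sum_nil, add_zero, cn_fst,
      cn_YY, YY_two, YY_nil, smul_zero, zero_add, TSR.sg_tt, one_smul]
  have eY : YY N = 1 + sg (e == sx O) • XX O := by
    rw [hN, YY_mk]
    simp only [List.map_cons, List.map_nil, List.sum_cons, List.sum_nil, add_zero, cn_fst,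
      cn_XX]
    simp only [XX_two, XX_nil, TSR.sg_tt, one_smul, smul_zero, zero_add]
  have ev : vU N = vY O := by unfold vU vY; rw [eU]
  have eb : aU N = aY O := by unfold aU aY; rw [eU]
  have eYa : ∀ a, (YY N).eval a = 1 + sg e * (chd ty O).x a := by
    intro a
    rw [eY, eval_add, eval_one, eval_smul, smul_eq_mul, hee, mul_assoc, chd_x hI ht]
  have ew : vY N = 1 + sg e * (chd ty O).xT := eYa q0
  have ed : aY N = aX O := by
    unfold aY
    rw [eY, ← C_1, TDN.dn_C_add]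
    have h3 : dn q0 (sg (e == sx O) • XX O) ^ 2 = dn q0 (XX O) ^ 2 := TSR.dn_sg q0_pos.le _ _
    have h4 := abs_eq_abs.mpr (sq_eq_sq_iff_eq_or_eq_neg.mp h3)
    rwa [abs_of_nonneg (dn_nonneg _ _), abs_of_nonneg (dn_nonneg _ _)] at h4
  have hx := chd_xT_mem hI ht
  have hb : 0 ≤ 1 + sg e * (chd ty O).xT ∧ 1 + sg e * (chd ty O).xT ≤ 2 := by
    rcases sg_or e with h | h <;> rw [h] <;> constructor <;> linarith [hx.1, hx.2]
  have hs : ∀ a, (chd 2 N).sn a =
      ⟨2, (chd ty O).y a, 1 + sg e * (chd ty O).x a, (chd ty O).vY,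
        1 + sg e * (chd ty O).xT, (chd ty O).aY, aX O⟩ :=
    fun a => sn_congr (u := (chd ty O).y) (y := fun a => 1 + sg e * (chd ty O).x a)
      (fun a => by rw [eU]; rfl) eYa ev ew eb ed a
  refine ⟨by rw [e0]; norm_num, ⟨Or.inr e0, ?_, ?_, ?_, ?_⟩, ?_, ?_⟩
  · rw [ev]; exact hI.2.2.2.1
  · rw [ev]; exact hI.2.2.2.2
  · rw [ew]; exact hb.1
  · rw [ew]; exact hb.2
  · rw [ev, ew, eb, ed]; exact h1
  · refine Y.zp hG true true (e == sx O) (fun a => 1 + sg e * (chd ty O).x a)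
      (chd ty O).y (fun a => ?_) (fun a => rfl) fun D hD => ?_
    · rw [TSR.sg_tt, hee, mul_assoc, chd_x hI ht]
    · simp only [hs]
      exact h2 D hD

lemma dn_sg_smul (e : Bool) (p : ℝ[X]) : dn q0 (sg e • p) = dn q0 p := by
  have h3 : dn q0 (sg e • p) ^ 2 = dn q0 p ^ 2 := TSR.dn_sg q0_pos.le _ _
  have h4 := abs_eq_abs.mpr (sq_eq_sq_iff_eq_or_eq_neg.mp h3)
  rwa [abs_of_nonneg (dn_nonneg _ _), abs_of_nonneg (dn_nonneg _ _)] at h4

/-- two children, the first one with the larger value of `y`; `b = true` keeps the order in the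
list of children -/
lemma step_cc_aux (C : Cert Y Adm V P) {O1 O2 : OBr} (h1 : PO Y Adm V P O1)
    (h2 : PO Y Adm V P O2) (hv : vY O2 ≤ vY O1) :
    ∃ e1 e2, PO Y Adm V P (.mk [cn true e1 O1, cn false e2 O2]) ∧
      PO Y Adm V P (.mk [cn false e2 O2, cn true e1 O1]) := by
  obtain ⟨t1, ht1, hI1, hA1, hG1⟩ := h1
  obtain ⟨t2, ht2, hI2, hA2, hG2⟩ := h2
  set f : Bool → ℝ := fun s => dn q0 (xh O1 + sg s • xh O2) with hf
  have hf1 : ∀ s, 0 ≤ f s ∧ f s ≤ aX O1 + aX O2 := by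
    intro s
    refine ⟨dn_nonneg _ _, (TDN.dn_add_le q0 q0_pos.le _ _).trans (le_of_eq ?_)⟩
    rw [dn_sg_smul, aX_xh hI1.1, aX_xh hI2.1]
  have hf2 : f true ^ 2 + f false ^ 2 = 2 * (aX O1 ^ 2 + aX O2 ^ 2) := by
    have h3 := TDN.dn_parallelogram q0 q0_pos.le (xh O1) (xh O2)
    rw [aX_xh hI1.1, aX_xh hI2.1] at h3
    simp only [hf, TSR.sg_tt, TSR.sg_ff, one_smul, neg_smul]
    rw [← sub_eq_add_neg]
    linarith
  have hb0 : 0 ≤ dn q0 (YY O1 - YY O2) := dn_nonneg _ _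
  have hb1 : dn q0 (YY O1 - YY O2) ≤ aY O1 + aY O2 := by
    rw [sub_eq_add_neg]
    refine (TDN.dn_add_le q0 q0_pos.le _ _).trans (le_of_eq ?_)
    rw [TDN.dn_neg]
    rfl
  obtain ⟨s, e, hse, hAd, hR⟩ := C.cc (chd t1 O1) (chd t2 O2) (chd_ok t1 hI1) (chd_ok t2 hI2)
    hA1 hA2 hv (aX O1) (aX O2) (dn q0 (YY O1 - YY O2)) (chd_AX O1) (chd_AX O2) hb0 hb1 f hf1 hf2
  set e1 : Bool := (e == sx O1) with he1
  set e2 : Bool := ((e == s) == sx O2) with he2
  have g1 : sg e1 = sg e * sg (sx O1) := TSR.sg_beq _ _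
  have g2 : sg e2 = sg e * (sg s * sg (sx O2)) := by
    rw [he2, TSR.sg_beq, TSR.sg_beq, mul_assoc]
  have x1 := chd_xT_mem hI1 ht1
  have x2 := chd_xT_mem hI2 ht2
  have hb : sg e * ((chd t1 O1).xT + sg s * (chd t2 O2).xT) ≤ 2 := by
    rcases sg_or e with h | h <;> rcases sg_or s with h' | h' <;> rw [h, h'] <;>
      linarith [x1.1, x1.2, x2.1, x2.2]
  have key : ∀ N : OBr, tau N = 0 → UU N = YY O1 - YY O2 → YY N = sg e1 • XX O1 + sg e2 • XX O2 →
      Y.G N (fun D a => V D a ⟨0, (chd t1 O1).y a - (chd t2 O2).y a,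
        sg e * ((chd t1 O1).x a + sg s * (chd t2 O2).x a), (chd t1 O1).vY - (chd t2 O2).vY,
        sg e * ((chd t1 O1).xT + sg s * (chd t2 O2).xT), dn q0 (YY O1 - YY O2), f s⟩)
        (fun D a => P D a ⟨0, (chd t1 O1).y a - (chd t2 O2).y a,
        sg e * ((chd t1 O1).x a + sg s * (chd t2 O2).x a), (chd t1 O1).vY - (chd t2 O2).vY,
        sg e * ((chd t1 O1).xT + sg s * (chd t2 O2).xT), dn q0 (YY O1 - YY O2), f s⟩) →
      PO Y Adm V P N := by
    intro N e0 eU eY hG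
    have eYa : ∀ a, (YY N).eval a = sg e * ((chd t1 O1).x a + sg s * (chd t2 O2).x a) := by
      intro a
      rw [eY, eval_add, eval_smul, eval_smul, smul_eq_mul, smul_eq_mul, g1, g2,
        ← chd_x hI1 ht1, ← chd_x hI2 ht2]
      ring
    have ev : vU N = (chd t1 O1).vY - (chd t2 O2).vY := by
      unfold vU
      rw [eU, eval_sub]
      rfl
    have eb : aU N = dn q0 (YY O1 - YY O2) := by unfold aU; rw [eU]
    have ew : vY N = sg e * ((chd t1 O1).xT + sg s * (chd t2 O2).xT) := eYa q0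
    have ed : aY N = f s := by
      unfold aY
      have : YY N = sg e • (xh O1 + sg s • xh O2) := by
        rw [eY, g1, g2, smul_add, smul_smul, ← sx_smul hI1.1, ← sx_smul hI2.1, smul_smul,
          smul_smul, mul_assoc]
      rw [this, dn_sg_smul]
    have hs : ∀ a, (chd 0 N).sn a = ⟨0, (chd t1 O1).y a - (chd t2 O2).y a,
        sg e * ((chd t1 O1).x a + sg s * (chd t2 O2).x a), (chd t1 O1).vY - (chd t2 O2).vY,
        sg e * ((chd t1 O1).xT + sg s * (chd t2 O2).xT), dn q0 (YY O1 - YY O2), f s⟩ :=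
      fun a => sn_congr (u := fun a => (chd t1 O1).y a - (chd t2 O2).y a)
        (y := fun a => sg e * ((chd t1 O1).x a + sg s * (chd t2 O2).x a))
        (fun a => by rw [eU, eval_sub]; rfl) eYa ev ew eb ed a
    refine ⟨0, by rw [e0]; norm_num, ⟨Or.inl e0, ?_, ?_, ?_, ?_⟩, ?_, ?_⟩
    · rw [ev]; exact sub_nonneg.mpr hv
    · rw [ev]
      have : (chd t1 O1).vY ≤ 2 := hI1.2.2.2.2
      have : 0 ≤ (chd t2 O2).vY := hI2.2.2.2.1
      linarith
    · rw [ew]; exact hse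
    · rw [ew]; exact hb
    · rw [ev, ew, eb, ed]; exact hAd
    · simp only [hs]
      exact hG
  have hxx : ∀ a, sg e1 * (XX O1).eval a + sg e2 * (XX O2).eval a =
      sg e * ((chd t1 O1).x a + sg s * (chd t2 O2).x a) := by
    intro a
    rw [g1, g2, ← chd_x hI1 ht1, ← chd_x hI2 ht2]
    ring
  have hy1 : ∀ a, (YY O1).eval a = (chd t1 O1).y a := fun a => rfl
  have hy2 : ∀ a, (YY O2).eval a = (chd t2 O2).y a := fun a => rfl
  refine ⟨e1, e2, key _ ?_ ?_ ?_ ?_, key _ ?_ ?_ ?_ ?_⟩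
  · rw [tau_mk]
    simp [TSR.sg_tt, TSR.sg_ff]
  · rw [UU_mk]
    simp only [List.map_cons, List.map_nil, List.sum_cons, List.sum_nil, add_zero, cn_fst,
      cn_YY, TSR.sg_tt, TSR.sg_ff, one_smul, neg_smul]
    ring
  · rw [YY_mk]
    simp only [List.map_cons, List.map_nil, List.sum_cons, List.sum_nil, add_zero, cn_fst,
      cn_XX]
  · exact Y.pr hG1 hG2 true e1 false e2 _
      (fun a => a ^ 2 * ((chd t1 O1).y a - (chd t2 O2).y a) ^ 2 +
        a * (sg e * ((chd t1 O1).x a + sg s * (chd t2 O2).x a)) ^ 2) hxx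
      (fun a => by rw [hy1, hy2, TSR.sg_tt, TSR.sg_ff]; ring) fun D hD => hR D hD
  · rw [tau_mk]
    simp [TSR.sg_tt, TSR.sg_ff]
  · rw [UU_mk]
    simp only [List.map_cons, List.map_nil, List.sum_cons, List.sum_nil, add_zero, cn_fst,
      cn_YY, TSR.sg_tt, TSR.sg_ff, one_smul, neg_smul]
    ring
  · rw [YY_mk]
    simp only [List.map_cons, List.map_nil, List.sum_cons, List.sum_nil, add_zero, cn_fst,
      cn_XX]
    ring
  · refine Y.pr hG2 hG1 false e2 true e1 _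
      (fun a => a ^ 2 * ((chd t1 O1).y a - (chd t2 O2).y a) ^ 2 +
        a * (sg e * ((chd t1 O1).x a + sg s * (chd t2 O2).x a)) ^ 2)
      (fun a => (add_comm _ _).trans (hxx a))
      (fun a => by rw [hy1, hy2, TSR.sg_tt, TSR.sg_ff]; ring) fun D hD => ?_
    have h3 := hR D hD
    simp only [add_comm (V D _ (Chd.sn (chd t2 O2) _)), add_comm (P D _ (Chd.sn (chd t2 O2) _))]
    exact h3

/-- two children -/
lemma step_cc (C : Cert Y Adm V P) {O1 O2 : OBr} (h1 : PO Y Adm V P O1)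
    (h2 : PO Y Adm V P O2) :
    ∃ σ1 e1 σ2 e2, PO Y Adm V P (.mk [cn σ1 e1 O1, cn σ2 e2 O2]) := by
  rcases le_total (vY O2) (vY O1) with hv | hv
  · obtain ⟨e1, e2, h, _⟩ := step_cc_aux C h1 h2 hv
    exact ⟨true, e1, false, e2, h⟩
  · obtain ⟨e1, e2, _, h⟩ := step_cc_aux C h2 h1 hv
    exact ⟨false, e2, true, e1, h⟩

/-- **Assembly**: the frozen statement follows from a certificate and from the steps with at least
three children of which at least two are nontrivial. -/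
theorem asm (C : Cert Y Adm V P)
    (big : ∀ (lf tw : Bool) (L : List OBr), 2 ≤ L.length → 3 ≤ (items lf tw L).length →
      (∀ O ∈ L, PO Y Adm V P O) →
      ∃ σ e : Fin (items lf tw L).length → Bool, PO Y Adm V P (fam σ e (items lf tw L).get)) :
    ∀ n : ℕ, ∀ T : SimpleGraph (Fin n), T.IsTree →
      ∃ D : Fin n → Fin n → Prop,
        (∀ u v, T.Adj u v → (D u v ∨ D v u)) ∧
        (∀ u v, D u v → (T.Adj u v ∧ ¬ D v u)) ∧
        ∀ m : ℕ, ∀ G : Fin m → Fin m → Prop,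
          (∀ a, ¬ G a a) →
          (∀ a b, a ≠ b → (G a b ↔ ¬ G b a)) →
          (({f : Fin n → Fin m | ∀ u v, D u v → G (f u) (f v)}.ncard : ℝ) / (m : ℝ) ^ n
            ≤ ((1 : ℝ) / 2) ^ (T.edgeSet.ncard)) := by
  refine closure_fam (PO Y Adm V P) ?_ ?_
  · intro lf tw L hL hne
    match L, hL with
    | [], _ =>
      cases tw
      · exact absurd hne (by simp)
      · cases lf
        · exact items_P (step_root1 C)
        · exact items_LP (step_root0 C)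
    | [O], hL =>
      have hO := hL O (by simp)
      cases lf <;> cases tw
      · exact items_B O (step_un C hO)
      · exact items_PB O (step_pc C hO)
      · exact items_LB O (step_lc C hO)
      · exact items_LPB O (step_lpc C hO)
    | [O1, O2], hL =>
      by_cases hb : lf = false ∧ tw = false
      · obtain ⟨rfl, rfl⟩ := hb
        exact items_BB O1 O2 (step_cc C (hL O1 (by simp)) (hL O2 (by simp)))
      · refine big lf tw [O1, O2] (by simp) ?_ hL
        unfold items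
        cases lf <;> cases tw <;> simp at hb ⊢
    | O1 :: O2 :: O3 :: L', hL =>
      refine big lf tw _ (by simp) ?_ hL
      unfold items
      simp only [List.length_append, List.length_cons]
      omega
  · rintro O ⟨ty, _, hI, hA, hG⟩
    exact Y.fin hG fun D a ha => C.pos (chd ty O) (chd_ok ty hI) hA D a ha

end

end Pool.Agent.TSM
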