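import Pool.Agent.TSM.Exc

set_option autoImplicit false

/-!
# Change of the pending cost in the excess form (MP_d27362_co)
-/

namespace Pool.Agent.TSM

open Finset Polynomial
open Pool.Agent.TSP
open Pool.Agent.TSO
open Pool.Agent.TSR (OBr Ker)

variable {m : ℕ} {S : Fin m → Fin m → ℝ}

/-- the pending cost `c` is replaced by any `c'`; the difference is charged with `χ` -/
theorem MajE.chg {F : Fin m → ℝ} {x y : ℝ[X]} {χ b c b' c' : ℝ} (h : MajE S F x y χ b c)
    (hχ : 0 ≤ χ) (h1 : b' ≤ b) (h2 : b' ≤ b - χ * (c - c')) : MajE S F x y χ b' c' := by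
  obtain ⟨e, he, hM⟩ := h
  refine ⟨max (c + e - c') 0, le_max_right _ _, hM.mono ?_ ?_⟩
  · rcases le_total (c + e - c') 0 with h3 | h3
    · rw [max_eq_right h3, mul_zero, add_zero]
      have := mul_nonneg hχ he
      linarith
    · rw [max_eq_left h3]
      linarith
  · have := le_max_left (c + e - c') 0
    linarith

/-- **any rule with a hard line for the pending cost gives the rule with a value line**: the
pending cost `c` is replaced by any `c'` -/
theorem GoodE.chg {χ : ℝ → ℝ} {O : OBr} {V c V' c' : ℝ → ℝ → ℝ} (h : GoodE χ O V c)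
    (hχ : ∀ D, RD D → 0 ≤ χ D) (h1 : ∀ D, RD D → ILe D (V' D) (V D))
    (h2 : ∀ D, RD D → ILe D (V' D) (fun a => V D a - χ D * (c D a - c' D a))) :
    GoodE χ O V' c' := by
  intro m S hS w t hR
  have hRD : RD (dee S) := ⟨hR.dee_nonneg, hR.dee_le⟩
  have k2 := h2 _ hRD m S hS w t hR rfl
  rw [nu_sub, nu_mul, nu_sub] at k2
  exact (h m S hS w t hR).chg (hχ _ hRD) (h1 _ hRD m S hS w t hR rfl) k2

end Pool.Agent.TSM
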