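import Pool.Agent.TSM.Even
import Pool.Agent.TSR.Ind

set_option autoImplicit false

/-!
# The induction in terms of families of children (MP_d27362_co)

`closure_fam`: the frozen statement follows from a predicate `P` on oriented trees which holds for
`fam σ e O` for suitable signs, whenever it holds for the nontrivial children; the items are a leaf
(if `lf`), a two-vertex path (if `tw`) and the nontrivial children.
-/

namespace Pool.Agent.TSM

open Finset Polynomial
open Pool.Agent.TSP
open Pool.Agent.TSO
open Pool.Agent.TSR (OBr Ker Br Red Cn2 leafB twoB sg_true sg_false vS_rev)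
open Pool.Agent.TLT (sg)

noncomputable section

/-- the two-vertex path -/
abbrev two : OBr := .cons true .nil .nil

/-- the children of a vertex -/
def items (lf tw : Bool) (L : List OBr) : List OBr :=
  (if lf = true then [OBr.nil] else []) ++ ((if tw = true then [two] else []) ++ L)

/-- two oriented trees with the same value for all kernels -/
def SameV (O O' : OBr) : Prop := ∀ (m : ℕ) (S : Fin m → Fin m → ℝ), O.vS S = O'.vS S

lemma SameV.refl (O : OBr) : SameV O O := fun _ _ => rfl
lemma SameV.symm {O O' : OBr} (h : SameV O O') : SameV O' O := fun m S => (h m S).symm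
lemma SameV.trans {O O' O'' : OBr} (h : SameV O O') (h' : SameV O' O'') : SameV O O'' :=
  fun m S => (h m S).trans (h' m S)

lemma SameV.cn {O O' : OBr} (h : SameV O O') (σ e : Bool) : SameV (cn σ e O).2 (cn σ e O').2 := by
  unfold TSM.cn
  dsimp only
  split_ifs
  · exact h
  · intro m S
    rw [vS_rev, vS_rev, h m]

lemma SameV.fam {K : ℕ} {O O' : Fin K → OBr} (h : ∀ i, SameV (O i) (O' i)) (σ e : Fin K → Bool) :
    SameV (fam σ e O) (fam σ e O') := by
  intro m S
  rw [fam_vS, fam_vS]
  funext z
  refine Finset.prod_congr rfl fun i _ => ?_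
  unfold ms
  rw [(h i).cn (σ i) (e i) m S]
  rfl

/-- The frozen statement follows from an invariant of oriented rooted trees. -/
theorem closure_fam (P : OBr → Prop)
    (step : ∀ (lf tw : Bool) (L : List OBr), (∀ O ∈ L, P O) → (tw = true ∨ L ≠ []) →
      ∃ σ e : Fin (items lf tw L).length → Bool, P (fam σ e (items lf tw L).get))
    (fin : ∀ O, P O → ∀ (m : ℕ) (S : Fin m → Fin m → ℝ), Ker S → mn (O.vS S) ≤ 1) :
    ∀ n : ℕ, ∀ T : SimpleGraph (Fin n), T.IsTree →
      ∃ D : Fin n → Fin n → Prop,
        (∀ u v, T.Adj u v → (D u v ∨ D v u)) ∧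
        (∀ u v, D u v → (T.Adj u v ∧ ¬ D v u)) ∧
        ∀ m : ℕ, ∀ G : Fin m → Fin m → Prop,
          (∀ a, ¬ G a a) →
          (∀ a b, a ≠ b → (G a b ↔ ¬ G b a)) →
          (({f : Fin n → Fin m | ∀ u v, D u v → G (f u) (f v)}.ncard : ℝ) / (m : ℝ) ^ n
            ≤ ((1 : ℝ) / 2) ^ (T.edgeSet.ncard)) := by
  refine TSR.reduceFin fun b hb => ?_
  have key := TSR.closure_induct (fun O => ∃ O', SameV O O' ∧ P O')
    (fun O O' h ⟨O'', h1, h2⟩ => ⟨O'', (SameV.symm h).trans h1, h2⟩)
    (fun lf tw L hL hne => ?_) b hb
  · rcases key with rfl | rfl | ⟨O, hO, O', h1, h2⟩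
    · refine ⟨.nil, rfl, fun m S hS => ?_⟩
      have e1 : (OBr.nil.vS S) = fun _ : Fin m => (1 : ℝ) := rfl
      rw [e1, TSO.ip_one, TSO.mn_const hS.pos]
    · refine ⟨.cons true .nil .nil, rfl, fun m S hS => ?_⟩
      rw [TSR.vS_path hS, TSO.ip_one, TSO.mn_add, TSO.mn_const hS.pos, TSO.mn_mul,
        TSR.mn_beta0 hS]
      simp
    · exact ⟨O, hO, fun m S hS => by rw [h1 m S, TSO.ip_one]; exact fin O' h2 m S hS⟩
  · -- choose the representatives
    have hch : ∀ L : List OBr, (∀ O ∈ L, ∃ O', SameV O O' ∧ P O') →
        ∃ L' : List OBr, (∀ O ∈ L', P O) ∧ List.Forall₂ SameV L L' := by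
      intro L hL
      induction L with
      | nil => exact ⟨[], by simp, List.Forall₂.nil⟩
      | cons O L ih =>
        obtain ⟨O', h1, h2⟩ := hL O (by simp)
        obtain ⟨L', h3, h4⟩ := ih fun Q hQ => hL Q (List.mem_cons_of_mem _ hQ)
        refine ⟨O' :: L', ?_, List.Forall₂.cons h1 h4⟩
        intro Q hQ
        rw [List.mem_cons] at hQ
        rcases hQ with rfl | hQ
        · exact h2
        · exact h3 Q hQ
    obtain ⟨L', hL', hF⟩ := hch L hL
    have hlen : L.length = L'.length := hF.length_eq
    have hne' : tw = true ∨ L' ≠ [] := by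
      rcases hne with h | h
      · exact Or.inl h
      · right
        intro h0
        rw [h0, List.length_nil] at hlen
        exact h (List.length_eq_zero_iff.1 hlen)
    obtain ⟨σ, e, hP⟩ := step lf tw L' hL' hne'
    have hI : List.Forall₂ SameV (items lf tw L) (items lf tw L') := by
      unfold items
      refine List.rel_append ?_ (List.rel_append ?_ hF)
      · cases lf
        · exact List.Forall₂.nil
        · exact List.Forall₂.cons (SameV.refl _) List.Forall₂.nil
      · cases tw
        · exact List.Forall₂.nil
        · exact List.Forall₂.cons (SameV.refl _) List.Forall₂.nil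
    have hl : (items lf tw L).length = (items lf tw L').length := hI.length_eq
    refine ⟨List.ofFn fun i : Fin (items lf tw L).length =>
      cn (σ (Fin.cast hl i)) (e (Fin.cast hl i)) ((items lf tw L).get i), ?_, ?_⟩
    · refine ⟨fam σ e (items lf tw L').get, ?_, hP⟩
      have h1 : SameV (fam (fun i => σ (Fin.cast hl i)) (fun i => e (Fin.cast hl i))
          (items lf tw L).get) (fam σ e (items lf tw L').get) := by
        have h2 : SameV (fam (fun i => σ (Fin.cast hl i)) (fun i => e (Fin.cast hl i))
            (items lf tw L).get) (fam (fun i => σ (Fin.cast hl i)) (fun i => e (Fin.cast hl i))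
            (fun i => (items lf tw L').get (Fin.cast hl i))) := by
          refine SameV.fam (fun i => ?_) _ _
          exact hI.get i.2 (Fin.cast hl i).2
        refine h2.trans ?_
        intro m S
        rw [fam_vS, fam_vS]
        funext z
        exact (finCongr hl).prod_comp (fun i => ms S (cn (σ i) (e i) ((items lf tw L').get i)) z)
      exact h1
    · rw [List.map_ofFn]
      have h3 : ((fun p : Bool × OBr => p.2.forget) ∘ fun i : Fin (items lf tw L).length =>
          cn (σ (Fin.cast hl i)) (e (Fin.cast hl i)) ((items lf tw L).get i)) =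
          fun i => ((items lf tw L).get i).forget := by
        funext i
        exact cn_forget _ _ _
      rw [h3]
      have h4 : (List.ofFn fun i => ((items lf tw L).get i).forget) =
          (items lf tw L).map OBr.forget := by
        have h5 : (List.ofFn fun i => ((items lf tw L).get i).forget) =
            (List.ofFn (items lf tw L).get).map OBr.forget := by
          rw [List.map_ofFn]; rfl
        rw [h5, List.ofFn_get]
      rw [h4]
      unfold items
      rw [List.map_append, List.map_append]
      congr 1
      · cases lf <;> rfl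
      · congr 1
        cases tw <;> rfl

end

end Pool.Agent.TSM
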