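import Pool.Agent.TSM.Lab2

set_option autoImplicit false

/-!
# The dichotomy for an even number of labels (MP_d27362_co)

The class has an even number of members and the sum of their signs is zero. If the spreads of the
two classes add up to at most `c`, all flips are free. Otherwise the largest and the smallest
member of the class and the largest member of the complement are tied, and the rest is paired.
-/

namespace Pool.Agent.TSR

open Finset Polynomial
open Pool.Agent.TLT (sg)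
open Pool.Agent.TDN (dn dn_nonneg dn_zero dn_neg dn_add_le dn_parallelogram)

variable {T : ℝ}

/-- a sign behind the first `n` signs -/
def snocb (n : ℕ) (s : ℕ → Bool) (b : Bool) (i : ℕ) : Bool := if i < n then s i else b

lemma ss_snocb (s : ℕ → Bool) (b : Bool) (p : ℕ → ℝ[X]) (n : ℕ) :
    ss (snocb n s b) p (n + 1) = ss s p n + sg b • p n := by
  unfold ss
  rw [sum_range_succ]
  congr 1
  · refine sum_congr rfl fun i hi => ?_
    unfold snocb
    rw [if_pos (mem_range.mp hi)]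
  · unfold snocb
    rw [if_neg (lt_irrefl _)]

lemma sg_snocb (s : ℕ → Bool) (b : Bool) (n : ℕ) :
    ∑ i ∈ range (n + 1), sg (snocb n s b i) = ∑ i ∈ range n, sg (s i) + sg b := by
  rw [sum_range_succ]
  congr 1
  · refine sum_congr rfl fun i hi => ?_
    unfold snocb
    rw [if_pos (mem_range.mp hi)]
  · unfold snocb
    rw [if_neg (lt_irrefl _)]

lemma spr_nonneg (q : ℕ → ℝ[X]) (hq : Antitone fun i => (q i).eval T) (n : ℕ) :
    0 ≤ spr T q n := by
  unfold spr
  refine sum_nonneg fun j _ => ?_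
  have : (q (2 * j + 1)).eval T ≤ (q (2 * j)).eval T := hq (by omega)
  linarith

/-- the spread is at most the sum -/
lemma spr_le_sum (q : ℕ → ℝ[X]) (h0 : ∀ i, 0 ≤ (q i).eval T) (n : ℕ) :
    spr T q n ≤ ∑ i ∈ range (2 * n), (q i).eval T := by
  induction n with
  | zero => simp [spr]
  | succ n ih =>
    rw [spr_succ]
    have h : 2 * (n + 1) = 2 * n + 1 + 1 := by ring
    rw [h, sum_range_succ, sum_range_succ]
    have := h0 (2 * n + 1)
    linarith

/-- the spread is at most the first value -/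
lemma spr_le_first (q : ℕ → ℝ[X]) (hq : Antitone fun i => (q i).eval T)
    (h0 : ∀ i, 0 ≤ (q i).eval T) (n : ℕ) : spr T q n ≤ (q 0).eval T := by
  have h1 := spr_shift (T := T) q n
  have h2 := spr_nonneg (T := T) (fun i => q (i + 1)) (fun i j hij => hq (by omega)) n
  have h3 := h0 (2 * n)
  linarith

/-- **the dichotomy**, sequence version -/
theorem dich_seq (hT : 0 ≤ T) (p w : ℕ → ℝ[X]) (hp : Antitone fun i => (p i).eval T)
    (hw : Antitone fun i => (w i).eval T) (hp0 : ∀ i, 0 ≤ (p i).eval T) (k N : ℕ)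
    (hwN : w (2 * N) = 0) (c : ℝ) (hpc : (p 0).eval T ≤ c) (hwc : (w 0).eval T ≤ c) :
    (spr T p (k + 1) + spr T w N ≤ c ∧ ∃ s t : ℕ → Bool,
      ∑ i ∈ range (2 * k + 1 + 1), sg (s i) = 0 ∧
      |(ss s p (2 * k + 1 + 1) + ss t w (2 * N + 1)).eval T| ≤ spr T p (k + 1) + spr T w N ∧
      dn T (ss s p (2 * k + 1 + 1) + ss t w (2 * N + 1)) ^ 2 ≤
        2 * (∑ i ∈ range (2 * k + 1 + 1), dn T (p i) ^ 2 +
          ∑ i ∈ range (2 * N + 1), dn T (w i) ^ 2)) ∨
    (c < spr T p (k + 1) + spr T w N ∧ ∃ s t : ℕ → Bool,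
      ∑ i ∈ range (2 * k + 1 + 1), sg (s i) = 0 ∧ s 0 = true ∧ s (2 * k + 1) = false ∧
      t 0 = false ∧
      |(ss s p (2 * k + 1 + 1) + ss t w (2 * N + 1)).eval T| ≤
        max ((p 0).eval T) ((w 0).eval T) ∧
      dn T (ss s p (2 * k + 1 + 1) + ss t w (2 * N + 1)) ^ 2 ≤
        dn T (p 0 - p (2 * k + 1) - w 0) ^ 2 +
        2 * (∑ i ∈ range (2 * k), dn T (p (i + 1)) ^ 2 +
          ∑ i ∈ range (2 * N), dn T (w (i + 1)) ^ 2)) := by
  have hp' : Antitone fun i => (p (i + 1)).eval T := fun i j hij => hp (by omega)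
  have hw' : Antitone fun i => (w (i + 1)).eval T := fun i j hij => hw (by omega)
  have e0 : 2 * (k + 1) = 2 * k + 1 + 1 := by ring
  by_cases h : spr T p (k + 1) + spr T w N ≤ c
  · left
    refine ⟨h, ?_⟩
    obtain ⟨s1, h1, h2, h3⟩ := pairs_spr hT p hp (k + 1)
    obtain ⟨t1, h4, h5, h6⟩ := pairs_spr hT w hw N
    rw [e0] at h1 h2 h3
    obtain ⟨b, hb⟩ := flip2 hT (ss t1 w (2 * N)) (ss s1 p (2 * k + 1 + 1))
    have e2 : ss (snoc1 (2 * N) fun i => t1 i == b) w (2 * N + 1) =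
        sg b • ss t1 w (2 * N) := by rw [ss_snoc1, ss_beq, hwN, add_zero]
    refine ⟨s1, snoc1 (2 * N) fun i => t1 i == b, h1, ?_, ?_⟩
    · rw [e2, eval_add, eval_smul, smul_eq_mul]
      refine (abs_add_le _ _).trans (add_le_add h2 ?_)
      rw [abs_mul, sg_abs, one_mul]
      exact h5
    · rw [e2, add_comm (ss s1 p (2 * k + 1 + 1)), sum_range_succ _ (2 * N)]
      have := sq_nonneg (dn T (w (2 * N)))
      linarith
  · right
    push Not at h
    refine ⟨h, ?_⟩
    obtain ⟨s1, h1, h2, h3⟩ := pairs_spr hT (fun i => p (i + 1)) hp' k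
    obtain ⟨t1, h4, h5, h6⟩ := pairs_spr hT (fun i => w (i + 1)) hw' N
    obtain ⟨a, b, hab⟩ := flip3 hT (p 0 - p (2 * k + 1) - w 0)
      (ss s1 (fun i => p (i + 1)) (2 * k)) (ss t1 (fun i => w (i + 1)) (2 * N))
    have e1 : ss (cons1 true (snocb (2 * k) (fun i => s1 i == a) false)) p (2 * k + 1 + 1) =
        p 0 + (sg a • ss s1 (fun i => p (i + 1)) (2 * k) - p (2 * k + 1)) := by
      rw [ss_cons1, ss_snocb, ss_beq, sg_tt, one_smul, sg_ff, neg_one_smul, ← sub_eq_add_neg]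
    have e2 : ss (cons1 false fun i => t1 i == b) w (2 * N + 1) =
        - w 0 + sg b • ss t1 (fun i => w (i + 1)) (2 * N) := by
      rw [ss_cons1, ss_beq, sg_ff, neg_one_smul]
    have e3 : p 0 + (sg a • ss s1 (fun i => p (i + 1)) (2 * k) - p (2 * k + 1)) +
        (- w 0 + sg b • ss t1 (fun i => w (i + 1)) (2 * N)) =
        p 0 - p (2 * k + 1) - w 0 + sg a • ss s1 (fun i => p (i + 1)) (2 * k) +
          sg b • ss t1 (fun i => w (i + 1)) (2 * N) := by abel
    have h7 := spr_shift (T := T) p k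
    have h7' := spr_succ (T := T) p k
    have h8 := spr_shift (T := T) w N
    rw [hwN, eval_zero] at h8
    have h9 : |(p 0).eval T - (p (2 * k + 1)).eval T - (w 0).eval T| +
        spr T (fun i => p (i + 1)) k + spr T (fun i => w (i + 1)) N ≤
        max ((p 0).eval T) ((w 0).eval T) := by
      have h11 := hp0 (2 * k + 1)
      have h12 := le_max_left ((p 0).eval T) ((w 0).eval T)
      have h13 := le_max_right ((p 0).eval T) ((w 0).eval T)
      rcases le_total ((p 0).eval T - (p (2 * k + 1)).eval T - (w 0).eval T) 0 with h10 | h10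
      · rw [abs_of_nonpos h10]
        linarith
      · rw [abs_of_nonneg h10]
        linarith
    refine ⟨cons1 true (snocb (2 * k) (fun i => s1 i == a) false),
      cons1 false fun i => t1 i == b, ?_, rfl, ?_, rfl, ?_, ?_⟩
    · rw [sg_cons1, sg_snocb, sg_sum_beq _ _ _ h1, sg_tt, sg_ff]
      ring
    · show snocb (2 * k) (fun i => s1 i == a) false (2 * k) = false
      unfold snocb
      rw [if_neg (lt_irrefl _)]
    · rw [e1, e2, e3, eval_add, eval_add, eval_smul, eval_smul, smul_eq_mul, smul_eq_mul,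
        eval_sub, eval_sub]
      refine le_trans ?_ h9
      refine (abs_add_le _ _).trans (add_le_add ((abs_add_le _ _).trans (add_le_add le_rfl ?_)) ?_)
      · rw [abs_mul, sg_abs, one_mul]; exact h2
      · rw [abs_mul, sg_abs, one_mul]; exact h5
    · rw [e1, e2, e3]
      linarith

/-! ### finite families -/

lemma seq_sq {ι : Type*} [Fintype ι] (r : Fin (Fintype.card ι) ≃ ι) (p : ι → ℝ[X])
    (a : ℕ → ℝ[X]) (ha3 : ∀ i, Fintype.card ι ≤ i → a i = 0)
    (ha4 : ∀ i : Fin (Fintype.card ι), a i = p (r i)) (n : ℕ) :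
    (a n).eval T ^ 2 ≤ ∑ i, (p i).eval T ^ 2 := by
  by_cases h : n < Fintype.card ι
  · rw [ha4 ⟨n, h⟩]
    exact single_le_sum (f := fun i => (p i).eval T ^ 2) (fun i _ => sq_nonneg _) (mem_univ _)
  · rw [ha3 n (by omega), eval_zero]
    have : 0 ≤ ∑ i, (p i).eval T ^ 2 := sum_nonneg fun i _ => sq_nonneg _
    linarith

lemma seq_le {ι : Type*} [Fintype ι] (r : Fin (Fintype.card ι) ≃ ι) (p : ι → ℝ[X])
    (a : ℕ → ℝ[X]) (ha3 : ∀ i, Fintype.card ι ≤ i → a i = 0)
    (ha4 : ∀ i : Fin (Fintype.card ι), a i = p (r i)) {c : ℝ} (hc0 : 0 ≤ c)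
    (hc : ∀ i, (p i).eval T ≤ c) (n : ℕ) : (a n).eval T ≤ c := by
  by_cases h : n < Fintype.card ι
  · rw [ha4 ⟨n, h⟩]; exact hc _
  · rw [ha3 n (by omega), eval_zero]; exact hc0

lemma seq_sum {ι : Type*} [Fintype ι] (r : Fin (Fintype.card ι) ≃ ι) (p : ι → ℝ[X])
    (a : ℕ → ℝ[X]) (ha3 : ∀ i, Fintype.card ι ≤ i → a i = 0)
    (ha4 : ∀ i : Fin (Fintype.card ι), a i = p (r i)) (f : ℝ[X] → ℝ) (hf : f 0 = 0) {n : ℕ}
    (hn : Fintype.card ι ≤ n) : ∑ i ∈ range n, f (a i) = ∑ i, f (p i) := by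
  rw [sum_ext (fun i => f (a i)) hn fun i hi => by rw [ha3 i hi, hf]]
  exact sum_sorted r (fun i : ι => f (p i)) _ fun i => by rw [ha4]

section

variable {ι : Type*} [Fintype ι] (cl : ι → Prop) [DecidablePred cl]

/-- **the dichotomy**: even number of members of the class, the sum of their signs is zero -/
theorem dich (hT : 0 ≤ T) (hev : Even (Fintype.card {i // cl i})) (p : ι → ℝ[X]) (c : ℝ)
    (hc0 : 0 ≤ c) (h0 : ∀ i, 0 ≤ (p i).eval T) (hc : ∀ i, (p i).eval T ≤ c) :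
    (∃ e : ι → Bool, ∑ i : {i // cl i}, sg (e i) = 0 ∧
      |(∑ i, sg (e i) • p i).eval T| ≤ c ∧
      (∑ i, sg (e i) • p i).eval T ^ 2 ≤ 2 * ∑ i, (p i).eval T ^ 2 ∧
      dn T (∑ i, sg (e i) • p i) ^ 2 ≤ 2 * ∑ i, dn T (p i) ^ 2) ∨
    (c < ∑ i, (p i).eval T ∧ ∃ (e : ι → Bool) (i0 i1 j0 : ι), cl i0 ∧ cl i1 ∧ ¬ cl j0 ∧
      i0 ≠ i1 ∧ c < (p i0).eval T + (p j0).eval T ∧ e i0 = true ∧ e i1 = false ∧ e j0 = false ∧
      ∑ i : {i // cl i}, sg (e i) = 0 ∧
      |(∑ i, sg (e i) • p i).eval T| ≤ max ((p i0).eval T) ((p j0).eval T) ∧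
      dn T (∑ i, sg (e i) • p i) ^ 2 + 2 * (dn T (p i0) ^ 2 + dn T (p i1) ^ 2 + dn T (p j0) ^ 2) ≤
        dn T (p i0 - p i1 - p j0) ^ 2 + 2 * ∑ i, dn T (p i) ^ 2) := by
  obtain ⟨k', hk'⟩ := hev
  obtain ⟨r, a, ha1, ha2, ha3, ha4⟩ := exists_seq (T := T) (fun i : {i // cl i} => p i)
    (fun i => h0 i)
  obtain ⟨r', b, hb1, hb2, hb3, hb4⟩ := exists_seq (T := T) (fun i : {i // ¬ cl i} => p i)
    (fun i => h0 i)
  obtain ⟨M, hM⟩ : ∃ M, M = Fintype.card {i // ¬ cl i} := ⟨_, rfl⟩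
  have ha0 := seq_le r (fun i : {i // cl i} => p i) a ha3 ha4 hc0 (fun i => hc i)
  have hb0 := seq_le r' (fun i : {i // ¬ cl i} => p i) b hb3 hb4 hc0 (fun i => hc i)
  have hbM : b (2 * M) = 0 := hb3 _ (by omega)
  have hle : Fintype.card {i // ¬ cl i} ≤ 2 * M + 1 := by omega
  -- the glued signs
  have key : ∀ (s t : ℕ → Bool) (n : ℕ), Fintype.card {i // cl i} ≤ n →
      ∑ i, sg (glue cl (fun i => s (r.symm i)) (fun i => t (r'.symm i)) i) • p i =
        ss s a n + ss t b (2 * M + 1) := by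
    intro s t n hn
    rw [glue_sum, ss_ext s a hn ha3, ss_ext t b hle hb3,
      ss_fam r (fun i : {i // cl i} => p i) a ha4 s,
      ss_fam r' (fun i : {i // ¬ cl i} => p i) b hb4 t]
  have key2 : ∀ (s t : ℕ → Bool),
      ∑ i : {i // cl i}, sg (glue cl (fun i => s (r.symm i)) (fun i => t (r'.symm i)) i) =
        ∑ i ∈ range (Fintype.card {i // cl i}), sg (s i) := by
    intro s t
    rw [sum_sorted r (fun i => sg (s (r.symm i))) (fun i => sg (s i)) fun i => by
      rw [Equiv.symm_apply_apply]]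
    exact sum_congr rfl fun i _ => by rw [glue_pos]
  have e4 : ∑ i ∈ range (2 * M + 1), dn T (b i) ^ 2 = ∑ i : {i // ¬ cl i}, dn T (p i) ^ 2 :=
    seq_sum r' (fun i : {i // ¬ cl i} => p i) b hb3 hb4 (fun q => dn T q ^ 2)
      (by show dn T 0 ^ 2 = 0; rw [dn_zero]; norm_num) hle
  rcases Nat.eq_zero_or_pos k' with hk0 | hk0
  · -- the class is empty
    left
    have hcard : Fintype.card {i // cl i} = 0 := by omega
    obtain ⟨t1, h4, h5, h6⟩ := pairs_spr hT b hb1 M
    have e2 : ss (snoc1 (2 * M) t1) b (2 * M + 1) = ss t1 b (2 * M) := by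
      rw [ss_snoc1, hbM, add_zero]
    have e1 : ss (fun _ => true) a 0 = 0 := by unfold ss; rw [range_zero, sum_empty]
    have e5 := key (fun _ => true) (snoc1 (2 * M) t1) 0 (by omega)
    rw [e1, e2, zero_add] at e5
    have h7 := spr_le_first b hb1 hb2 M
    refine ⟨glue cl (fun i => true) (fun i => snoc1 (2 * M) t1 (r'.symm i)), ?_, ?_, ?_, ?_⟩
    · rw [key2 (fun _ => true), hcard, range_zero, sum_empty]
    · rw [e5]
      linarith [hb0 0]
    · rw [e5, ← sq_abs]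
      have h8 : |(ss t1 b (2 * M)).eval T| ^ 2 ≤ (b 0).eval T ^ 2 :=
        pow_le_pow_left₀ (abs_nonneg _) (h5.trans h7) 2
      have h9 := seq_sq (T := T) r' (fun i : {i // ¬ cl i} => p i) b hb3 hb4 0
      rw [sum_cl cl fun i => (p i).eval T ^ 2]
      have h10 : 0 ≤ ∑ i : {i // cl i}, (p i).eval T ^ 2 := sum_nonneg fun i _ => sq_nonneg _
      have h11 := sq_nonneg ((b 0).eval T)
      linarith
    · rw [e5, sum_cl cl fun i => dn T (p i) ^ 2, ← e4, sum_range_succ _ (2 * M)]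
      have h10 : 0 ≤ ∑ i : {i // cl i}, dn T (p i) ^ 2 := sum_nonneg fun i _ => sq_nonneg _
      have := sq_nonneg (dn T (b (2 * M)))
      linarith
  obtain ⟨k, rfl⟩ : ∃ k, k' = k + 1 := ⟨k' - 1, by omega⟩
  have hcard : Fintype.card {i // cl i} = 2 * k + 1 + 1 := by omega
  have e3 : ∑ i ∈ range (2 * k + 1 + 1), dn T (a i) ^ 2 = ∑ i : {i // cl i}, dn T (p i) ^ 2 :=
    seq_sum r (fun i : {i // cl i} => p i) a ha3 ha4 (fun q => dn T q ^ 2)
      (by show dn T 0 ^ 2 = 0; rw [dn_zero]; norm_num) hcard.le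
  have f3 : ∑ i ∈ range (2 * k + 1 + 1), (a i).eval T = ∑ i : {i // cl i}, (p i).eval T :=
    seq_sum r (fun i : {i // cl i} => p i) a ha3 ha4 (fun q => q.eval T) eval_zero hcard.le
  have f4 : ∑ i ∈ range (2 * M), (b i).eval T = ∑ i : {i // ¬ cl i}, (p i).eval T :=
    seq_sum r' (fun i : {i // ¬ cl i} => p i) b hb3 hb4 (fun q => q.eval T) eval_zero (by omega)
  have g1 := spr_le_first a ha1 ha2 (k + 1)
  have g2 := spr_le_first b hb1 hb2 M
  rcases dich_seq hT a b ha1 hb1 ha2 k M hbM c (ha0 0) (hb0 0) with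
    ⟨h, s, t, h1, h2, h3⟩ | ⟨h, s, t, h1, hs0, hs1, ht0, h2, h3⟩
  · left
    have e5 := key s t (2 * k + 1 + 1) hcard.le
    refine ⟨glue cl (fun i => s (r.symm i)) (fun i => t (r'.symm i)), ?_, ?_, ?_, ?_⟩
    · rw [key2, hcard]
      exact h1
    · rw [e5]
      exact h2.trans h
    · rw [e5, ← sq_abs]
      have h8 : |(ss s a (2 * k + 1 + 1) + ss t b (2 * M + 1)).eval T| ^ 2 ≤
          ((a 0).eval T + (b 0).eval T) ^ 2 :=
        pow_le_pow_left₀ (abs_nonneg _) (h2.trans (add_le_add g1 g2)) 2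
      have h9 := seq_sq (T := T) r' (fun i : {i // ¬ cl i} => p i) b hb3 hb4 0
      have h9' := seq_sq (T := T) r (fun i : {i // cl i} => p i) a ha3 ha4 0
      rw [sum_cl cl fun i => (p i).eval T ^ 2]
      nlinarith [sq_nonneg ((a 0).eval T - (b 0).eval T)]
    · rw [e5, sum_cl cl fun i => dn T (p i) ^ 2, ← e4, ← e3]
      exact h3
  · right
    have hM0 : 0 < Fintype.card {i // ¬ cl i} := by
      by_contra h10
      have h11 : b 0 = 0 := hb3 0 (by omega)
      rw [h11, eval_zero] at g2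
      linarith [ha0 0]
    have hc0' : 0 < Fintype.card {i // cl i} := by omega
    have hc1' : 2 * k + 1 < Fintype.card {i // cl i} := by omega
    have e5 := key s t (2 * k + 1 + 1) hcard.le
    have ea0 := ha4 ⟨0, hc0'⟩
    have ea1 := ha4 ⟨2 * k + 1, hc1'⟩
    have eb0 := hb4 ⟨0, hM0⟩
    have h5 := spr_le_sum a ha2 (k + 1)
    have h6 := spr_le_sum b hb2 M
    have e6 : 2 * (k + 1) = 2 * k + 1 + 1 := by ring
    rw [e6, f3] at h5
    rw [f4] at h6
    have e0 : glue cl (fun i => s (r.symm i)) (fun i => t (r'.symm i)) (r ⟨0, hc0'⟩) = true := by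
      rw [glue_pos, Equiv.symm_apply_apply]
      exact hs0
    have e1 : glue cl (fun i => s (r.symm i)) (fun i => t (r'.symm i))
        (r ⟨2 * k + 1, hc1'⟩) = false := by
      rw [glue_pos, Equiv.symm_apply_apply]
      exact hs1
    have e2 : glue cl (fun i => s (r.symm i)) (fun i => t (r'.symm i))
        (r' ⟨0, hM0⟩) = false := by
      rw [glue_neg, Equiv.symm_apply_apply]
      exact ht0
    refine ⟨?_, glue cl (fun i => s (r.symm i)) (fun i => t (r'.symm i)), r ⟨0, hc0'⟩,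
      r ⟨2 * k + 1, hc1'⟩, r' ⟨0, hM0⟩, (r ⟨0, hc0'⟩).2, (r ⟨2 * k + 1, hc1'⟩).2,
      (r' ⟨0, hM0⟩).2, ?_, ?_, e0, e1, e2, ?_, ?_, ?_⟩
    · rw [sum_cl cl fun i => (p i).eval T]
      linarith
    · intro h7
      have h8 := r.injective (Subtype.ext h7)
      have h9 := congrArg Fin.val h8
      simp at h9
    · rw [← ea0, ← eb0]
      show c < (a 0).eval T + (b 0).eval T
      linarith
    · rw [key2, hcard]
      exact h1
    · rw [e5, ← ea0, ← eb0]
      exact h2
    · rw [e5, sum_cl cl fun i => dn T (p i) ^ 2, ← e4, ← e3, ← ea0, ← ea1, ← eb0,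
        sum_range_succ _ (2 * k + 1), sum_range_succ' _ (2 * k), sum_range_succ' _ (2 * M)]
      simp only at h3 ⊢
      linarith

end

end Pool.Agent.TSR
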