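import Pool.Agent.TSM.Lab3

set_option autoImplicit false

/-!
# Labels of families with the path (MP_d27362_co)
-/

namespace Pool.Agent.TSM

open Finset Polynomial
open Pool.Agent.TSP
open Pool.Agent.TSO
open Pool.Agent.TSR (OBr Ker lab_one)
open Pool.Agent.TLT (sg)
open Pool.Agent.TDN (dn dn_nonneg)

noncomputable section

variable {Y : Sys} {Adm : ℕ → ℝ → ℝ → ℝ → ℝ → Prop} {V P : ℝ → ℝ → Sn → ℝ} {χ : ℝ → ℝ}
  {K : ℕ} {O : Fin K → OBr} {N : Finset (Fin K)} {lf tw : Bool} {m : ℕ}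

/-- all labels changed -/
lemma gU_not (e : Fin K → Bool) (O : Fin K → OBr) : gU (fun i => !(e i)) O = - gU e O := by
  unfold gU
  exact TSR.sum_flip e _

/-- labels with the sum zero, the global sign is chosen by the value -/
lemma labD_zero_of {e : Fin K → Bool} (hs : ∑ k, sg (e k) * tau (O k) = 0)
    (h2 : |(gU e O).eval q0| ≤ 2) (h3 : (gU e O).eval q0 ^ 2 ≤ ∑ i, vU (O i) ^ 2)
    (h4 : dn q0 (gU e O) ^ 2 ≤ 2 * ∑ i, aU (O i) ^ 2) :
    ∃ e' : Fin K → Bool, (e' = e ∨ e' = fun i => !(e i)) ∧ LabD O e' 0 4 1 := by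
  have hq := q0_pos
  have hq1 := q0_le
  have key : ∀ e' : Fin K → Bool, ∑ k, sg (e' k) * tau (O k) = 0 → (gU e' O).eval q0 ≤ 0 →
      |(gU e' O).eval q0| ≤ 2 → (gU e' O).eval q0 ^ 2 ≤ ∑ i, vU (O i) ^ 2 →
      dn q0 (gU e' O) ^ 2 ≤ 2 * ∑ i, aU (O i) ^ 2 → LabD O e' 0 4 1 := by
    intro e' g1 g2 g3 g4 g5
    rw [abs_le] at g3
    refine ⟨fun σ => by rw [YY_sum, g1, Nat.cast_zero], by nlinarith, ?_, ?_,
      (by rw [one_mul]; exact g4), g5⟩
    · rw [Nat.cast_zero]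
      nlinarith
    · rw [Nat.cast_zero]
      nlinarith [g3.1]
  rcases le_total ((gU e O).eval q0) 0 with h | h
  · exact ⟨e, Or.inl rfl, key e hs h h2 h3 h4⟩
  · refine ⟨_, Or.inr rfl, key _ ?_ ?_ ?_ ?_ ?_⟩
    · have : ∀ k, sg (!(e k)) * tau (O k) = -(sg (e k) * tau (O k)) := by
        intro k
        rw [TSR.sg_not']
        ring
      rw [sum_congr rfl fun k _ => this k, sum_neg_distrib, hs, neg_zero]
    · rw [gU_not, eval_neg]
      linarith
    · rw [gU_not, eval_neg, abs_neg]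
      exact h2
    · rw [gU_not, eval_neg, neg_sq]
      exact h3
    · rw [gU_not, TDN.dn_neg]
      exact h4

/-- **labels with the path**, even number of children with `τ = 1`: the value of `G` is at most
two -/
theorem labD_path0 (h : ∀ i, Inv (O i)) {j : Fin K} (hj : O j = two) (hc : Even (n1 O)) :
    ∃ e : Fin K → Bool, LabD O e 0 4 1 := by
  classical
  have hτj : tau (O j) = 1 := by rw [hj, tau_two]
  have hUj : UU (O j) = 0 := by rw [hj]; simp
  set c := capv 2 fun i => vU (O i) with hcd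
  have hc2 : c ≤ 2 := capv_le _ _
  have hcs : c ^ 2 ≤ ∑ i, vU (O i) ^ 2 := capv_sq (by norm_num) _
  have hcard : Odd (Fintype.card {i // tau (O i) = 1 ∧ i ≠ j}) := by
    have e1 : n1 O = (univ.filter fun i => tau (O i) = 1).card := rfl
    have e2 : (univ.filter fun i => tau (O i) = 1 ∧ i ≠ j) =
        (univ.filter fun i => tau (O i) = 1).erase j := by
      ext i
      simp only [mem_filter, mem_univ, true_and, mem_erase]
      tauto
    have hmem : j ∈ univ.filter fun i => tau (O i) = 1 := by simp [hτj]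
    rw [Fintype.card_subtype, e2, card_erase_of_mem hmem, ← e1]
    have hpos : 0 < n1 O := by
      rw [e1]
      exact card_pos.mpr ⟨j, hmem⟩
    obtain ⟨k, hk⟩ := hc
    exact ⟨k - 1, by omega⟩
  obtain ⟨e0, h1, h2, h3⟩ := lab_one (T := q0) (fun i => tau (O i) = 1 ∧ i ≠ j) q0_pos.le
    hcard (fun i => UU (O i)) c (fun i => (h i).2.1)
    (fun i => le_capv (v := fun i => vU (O i)) (fun i => (h i).2.2.1) i)
  set e : Fin K → Bool := fun i => if i = j then false else e0 i with he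
  have hG : gU e O = gU e0 O := by
    unfold gU
    refine sum_congr rfl fun i _ => ?_
    by_cases hi : i = j
    · rw [hi, hUj, smul_zero, smul_zero]
    · rw [he]
      simp only [if_neg hi]
  have hG0 : gU e0 O = ∑ i, sg (e0 i) • UU (O i) := rfl
  rw [← hG0] at h2 h3
  have hs : ∑ k, sg (e k) * tau (O k) = 0 := by
    have e1 : ∀ k, sg (e k) * tau (O k) =
        (if tau (O k) = 1 ∧ k ≠ j then sg (e0 k) else 0) + (if k = j then (-1 : ℝ) else 0) := by
      intro k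
      by_cases hk : k = j
      · rw [he]
        simp only [hk, if_true, ne_eq, not_true_eq_false, and_false, if_false]
        rw [hτj, TSR.sg_ff]
        ring
      · rw [he]
        simp only [if_neg hk, ne_eq, hk, not_false_eq_true, and_true, add_zero]
        rcases (h k).1 with h5 | h5
        · rw [h5]
          norm_num
        · simp [h5]
    rw [sum_congr rfl fun k _ => e1 k, sum_add_distrib, sum_ite_eq' univ j, if_pos (mem_univ j),
      TSR.sum_cl (fun i => tau (O i) = 1 ∧ i ≠ j)]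
    have e2 : ∑ i : {i // tau (O i) = 1 ∧ i ≠ j},
        (if tau (O (i : Fin K)) = 1 ∧ (i : Fin K) ≠ j then sg (e0 i) else 0) =
        ∑ i : {i // tau (O i) = 1 ∧ i ≠ j}, sg (e0 i) :=
      sum_congr rfl fun i _ => if_pos i.2
    have e3 : ∑ i : {i // ¬ (tau (O i) = 1 ∧ i ≠ j)},
        (if tau (O (i : Fin K)) = 1 ∧ (i : Fin K) ≠ j then sg (e0 i) else 0) = 0 :=
      sum_eq_zero fun i _ => if_neg i.2
    rw [e2, e3, h1]
    norm_num
  rw [← hG] at h2 h3
  have h4 : (gU e O).eval q0 ^ 2 ≤ ∑ i, vU (O i) ^ 2 := by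
    refine le_trans ?_ hcs
    rw [← sq_abs]
    exact pow_le_pow_left₀ (abs_nonneg _) h2 2
  obtain ⟨e', _, he'⟩ := labD_zero_of hs (h2.trans hc2) h4 h3
  exact ⟨e', he'⟩

/-- **labels with the path** -/
theorem labD_path (hI : ItD lf true m O N) (hO : FamO O N) : ∃ (e : Fin K → Bool) (n : ℕ),
    n = (true.toNat + c1 O N) % 2 ∧ LabD O e n 4 1 := by
  obtain ⟨j, hj, hj1, _⟩ := hI.ht rfl
  rcases Nat.even_or_odd (n1 O) with hc | hc
  · obtain ⟨e, he⟩ := labD_path0 hO.hI hj1 hc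
    refine ⟨e, 0, ?_, he⟩
    rw [← hI.n1]
    exact (Nat.even_iff.mp hc).symm
  · obtain ⟨e, n, hn, he⟩ := labD_exists hO
    have hn1 : n = 1 := by rw [hn]; exact Nat.odd_iff.mp hc
    subst hn1
    have e1 : (16 : ℝ) - 12 * ((1 : ℕ) : ℝ) = 4 := by norm_num
    have e2 : (4 : ℝ) - 3 * ((1 : ℕ) : ℝ) = 1 := by norm_num
    rw [e1, e2] at he
    exact ⟨e, 1, by rw [hn, hI.n1], he⟩

/-! ### families with given labels -/

/-- everything that is known about a family with the labels `e` -/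
structure FamKV (Y : Sys) (Adm : ℕ → ℝ → ℝ → ℝ → ℝ → Prop) (V P : ℝ → ℝ → Sn → ℝ) (lf tw : Bool)
    (m : ℕ) {K : ℕ} (O : Fin K → OBr) (N : Finset (Fin K)) (tc : Fin K → ℕ)
    (σ e ρ : Fin K → Bool) (n : ℕ) (vm fv : ℝ) (fg : ℝ := 2) : Prop where
  hI : ItD lf tw m O N
  hT : FamT Y Adm V P O N tc
  hn : n = (tw.toNat + c1 O N) % 2
  hρ0 : Even m → ∑ i ∈ N, sg (ρ i) = 0
  hρ1 : Odd m → ∑ i ∈ N, sg (ρ i) = 1
  hInv : Inv (fam σ e O)
  hS : ∀ M : ℝ, (m : ℝ) ≤ M → FamS O N σ e ρ M 2 n vm fv fg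
  hE : LabD O e n vm fv fg

/-- even number of children, given labels -/
theorem famKV_even (hK : Even K) (hI : ItD lf tw m O N) {tc : Fin K → ℕ}
    (hT : FamT Y Adm V P O N tc) {n : ℕ} (hn : n = (tw.toNat + c1 O N) % 2) {e : Fin K → Bool}
    {vm fv fg : ℝ} (he : LabD O e n vm fv fg) : ∃ σ ρ : Fin K → Bool, ∑ i, sg (σ i) = 0 ∧
      FamKV Y Adm V P lf tw m O N tc σ e ρ n vm fv fg := by
  have hO := hT.hO
  have hcard := hI.hN
  obtain ⟨s, ρ, z, h1, h2, h3⟩ := hO.sig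
  obtain ⟨σ, hσ, hσ0⟩ := ext_even hK s z (fun h => (h1 h).1) (fun h => (h2 h).1)
  obtain ⟨g1, g2, g3, g4⟩ := h3 σ hσ e
  exact ⟨σ, ρ, hσ0, hI, hT, hn, fun h => (h1 (by rw [hcard]; exact h)).2,
    fun h => (h2 (by rw [hcard]; exact h)).2,
    inv_fam (Or.inl (by rw [fam_tau]; exact hσ0)) g1 g2 (he.hY σ) he.h0 he.h2, fun M hM =>
    ⟨hO, by rw [hcard]; exact hM, g1, g2, g3, g4, he.hY σ, he.hG, he.hG3, he.hGa⟩, he⟩

/-- odd number of children, the trivial child `j` has the sign `+`, given labels -/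
theorem famKV_odd (hK : Odd K) (hI : ItD lf tw m O N) {tc : Fin K → ℕ}
    (hT : FamT Y Adm V P O N tc) {n : ℕ} (hn : n = (tw.toNat + c1 O N) % 2) {e : Fin K → Bool}
    {vm fv fg : ℝ} (he : LabD O e n vm fv fg) {j : Fin K} (hj : j ∉ N) :
    ∃ σ ρ : Fin K → Bool, ∑ i, sg (σ i) = 1 ∧ σ j = true ∧
      FamKV Y Adm V P lf tw m O N tc σ e ρ n vm fv fg := by
  have hO := hT.hO
  have hcard := hI.hN
  obtain ⟨s, ρ, z, h1, h2, h3⟩ := hO.sig
  obtain ⟨σ, hσ, hσj, hσ1⟩ := ext_odd hK j hj s z (fun h => (h1 h).1) (fun h => (h2 h).1)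
  obtain ⟨g1, g2, g3, g4⟩ := h3 σ hσ e
  exact ⟨σ, ρ, hσ1, hσj, hI, hT, hn, fun h => (h1 (by rw [hcard]; exact h)).2,
    fun h => (h2 (by rw [hcard]; exact h)).2,
    inv_fam (Or.inr (by rw [fam_tau]; exact hσ1)) g1 g2 (he.hY σ) he.h0 he.h2, fun M hM =>
    ⟨hO, by rw [hcard]; exact hM, g1, g2, g3, g4, he.hY σ, he.hG, he.hG3, he.hGa⟩, he⟩

/-- **one family with an even number of children, given labels** -/
theorem po_evenV (hY : Y.G = GoodE χ) (hχ : ∀ D, RD D → 0 ≤ χ D)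
    (hAd : ∀ vU vY aU aY, Adm 0 vU vY aU aY) (hK : Even K) (hK0 : 0 < K)
    (hI : ItD lf tw m O N) {tc : Fin K → ℕ}
    (hT : FamT Y Adm V P O N tc) {n : ℕ} (hn : n = (tw.toNat + c1 O N) % 2) {e : Fin K → Bool}
    {vm fv fg : ℝ} (he : LabD O e n vm fv fg)
    (H : ∀ σ ρ, FamKV Y Adm V P lf tw m O N tc σ e ρ n vm fv fg → ∀ D, RD D →
      EvF2 χ D K (fun a => (UU (fam σ e O)).eval a)
        (fun a => (YY (fam σ e O)).eval a) (fun a => ∑ i, Vi V N tc O i D a)
        (fun a => V D a ((chd 0 (fam σ e O)).sn a))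
        (fun a => P D a ((chd 0 (fam σ e O)).sn a))) :
    ∃ σ e : Fin K → Bool, PO Y Adm V P (fam σ e O) := by
  obtain ⟨σ, ρ, hσ0, hF⟩ := famKV_even hK hI hT hn he
  have hτ : tau (fam σ e O) = 0 := by rw [fam_tau]; exact hσ0
  refine ⟨σ, e, 0, ?_, hF.hInv, hAd _ _ _ _, ?_⟩
  · rw [hτ]
    simp
  · have h4 := H σ ρ hF
    have hG := hT.hG
    rw [hY] at hG ⊢
    refine GoodE.evF2 hχ hK0 O σ e _ _ hG hσ0 (fun a => (UU (fam σ e O)).eval a)
      (fun a => (YY (fam σ e O)).eval a) (fun a => (FamS.U_eq O σ e a).symm) (fun a => ?_) h4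
    rw [fam_YY, eval_finsetSum]
    exact sum_congr rfl fun i _ => by rw [eval_smul, smul_eq_mul]

/-- **one family with an odd number of children and the trivial child `j`, given labels** -/
theorem po_trivV (hY : Y.G = GoodE χ) (hχ : ∀ D, RD D → 0 ≤ χ D) (hK : Odd K) (hK2 : 2 ≤ K)
    (hI : ItD lf tw m O N) {tc : Fin K → ℕ}
    (hT : FamT Y Adm V P O N tc) {n : ℕ} (hn : n = (tw.toNat + c1 O N) % 2) {e : Fin K → Bool}
    {vm fv fg : ℝ} (he : LabD O e n vm fv fg) {j : Fin K} (hj : j ∉ N) {ξ : ℝ}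
    (hξ : xiT (e j) (O j) = ξ)
    (H : ∀ σ ρ, FamKV Y Adm V P lf tw m O N tc σ e ρ n vm fv fg →
      ∃ ty : ℕ, ty ≠ 0 ∧ Adm ty (vU (fam σ e O)) (vY (fam σ e O)) (aU (fam σ e O))
        (aY (fam σ e O)) ∧ OddR V P χ O N tc σ e ξ ty) :
    ∃ σ e : Fin K → Bool, PO Y Adm V P (fam σ e O) := by
  obtain ⟨σ, ρ, hσ1, hσj, hF⟩ := famKV_odd hK hI hT hn he hj
  obtain ⟨ty, hty, hA, h4⟩ := H σ ρ hF
  exact ⟨σ, e, po_R hY hχ hK2 j hj hI.hM hT hσj hσ1 hF.hInv hty hA hξ h4⟩

/-! ### families with the path -/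

/-- the obligation for an even number of children with the path -/
def EvenP (Y : Sys) (Adm : ℕ → ℝ → ℝ → ℝ → ℝ → Prop) (V P : ℝ → ℝ → Sn → ℝ) (χ : ℝ → ℝ)
    (lf : Bool) (m : ℕ) : Prop :=
  ∀ (K : ℕ) (O : Fin K → OBr) (N : Finset (Fin K)) (tc : Fin K → ℕ) (σ e ρ : Fin K → Bool)
    (n : ℕ), FamKV Y Adm V P lf true m O N tc σ e ρ n 4 1 →
    (m = 2 → vY (fam σ e O) ≤ 1) → ∀ D, RD D →
    EvF2 χ D K (fun a => (UU (fam σ e O)).eval a)
      (fun a => (YY (fam σ e O)).eval a) (fun a => ∑ i, Vi V N tc O i D a)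
      (fun a => V D a ((chd 0 (fam σ e O)).sn a))
      (fun a => P D a ((chd 0 (fam σ e O)).sn a))

/-- the obligation for an odd number of children with leaf and path, the leaf is split off -/
def LeafP (Y : Sys) (Adm : ℕ → ℝ → ℝ → ℝ → ℝ → Prop) (V P : ℝ → ℝ → Sn → ℝ) (χ : ℝ → ℝ)
    (m : ℕ) : Prop :=
  ∀ (K : ℕ) (O : Fin K → OBr) (N : Finset (Fin K)) (tc : Fin K → ℕ) (σ e ρ : Fin K → Bool)
    (n : ℕ), FamKV Y Adm V P true true m O N tc σ e ρ n 4 1 →
    ∃ ty : ℕ, ty ≠ 0 ∧ Adm ty (vU (fam σ e O)) (vY (fam σ e O)) (aU (fam σ e O))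
      (aY (fam σ e O)) ∧ OddR V P χ O N tc σ e 0 ty

/-- the sum of the labels and `G` when there is the path `j` -/
lemma ItD.sum_tau (hI : ItD lf true m O N) {j : Fin K} (hj : j ∉ N) (hj1 : O j = two)
    (hj2 : ∀ i ∉ N, i ≠ j → O i = .nil) (e : Fin K → Bool) :
    ∑ k, sg (e k) * tau (O k) = sg (e j) + ∑ k ∈ N, sg (e k) * tau (O k) := by
  classical
  rw [← sum_sdiff (subset_univ N), ← add_sum_erase _ _ (mem_sdiff.mpr ⟨mem_univ j, hj⟩)]
  have : ∑ k ∈ (univ \ N).erase j, sg (e k) * tau (O k) = 0 := by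
    refine sum_eq_zero fun k hk => ?_
    rw [mem_erase, mem_sdiff] at hk
    rw [hj2 k hk.2.2 hk.1, tau_nil, mul_zero]
  rw [this, hj1, tau_two]
  ring

lemma FamO.gU_N (hO : FamO O N) (e : Fin K → Bool) : gU e O = ∑ k ∈ N, sg (e k) • UU (O k) := by
  classical
  unfold gU
  rw [← sum_subset (subset_univ N)]
  intro k _ hk
  rw [hO.UU0 hk, smul_zero]

/-- **labels for the path and two nontrivial children** (and possibly a leaf): they are opposite,
the new `v_y` is at most one -/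
theorem labD_two (hI : ItD lf true 2 O N) (hO : FamO O N) : ∃ (e : Fin K → Bool) (n : ℕ),
    n = (true.toNat + c1 O N) % 2 ∧ LabD O e n 4 1 ∧ ∀ σ, vY (fam σ e O) ≤ 1 := by
  classical
  have hq := q0_pos
  have hq1 := q0_le
  obtain ⟨j, hj, hj1, hj2⟩ := hI.ht rfl
  obtain ⟨a, b, hab, hN⟩ := card_eq_two.mp hI.hN
  have haN : a ∈ N := by rw [hN]; simp
  have hbN : b ∈ N := by rw [hN]; simp
  have hja : j ≠ a := fun h => hj (h ▸ haN)
  have hjb : j ≠ b := fun h => hj (h ▸ hbN)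
  have ha := hO.hI a
  have hb := hO.hI b
  -- the labels `e a = s`, `e b = not s`, `e j = c`
  have key : ∀ (s c : Bool) (n : ℕ), n = (true.toNat + c1 O N) % 2 →
      sg c + sg s * (tau (O a) - tau (O b)) = n →
      (n = 0 → sg s * (vU (O a) - vU (O b)) ≤ 0) → (n = 1 → 0 ≤ sg s * (vU (O a) - vU (O b))) →
      n ≤ 1 → ∃ (e : Fin K → Bool) (n : ℕ), n = (true.toNat + c1 O N) % 2 ∧ LabD O e n 4 1 ∧
        ∀ σ, vY (fam σ e O) ≤ 1 := by
    intro s c n hn hs h0 h1 hn1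
    obtain ⟨e, he⟩ : ∃ e : Fin K → Bool, e = fun k => if k = j then c else if k = a then s
      else !s := ⟨_, rfl⟩
    have eej : e j = c := by rw [he]; simp
    have eea : e a = s := by rw [he]; simp [hja.symm]
    have eeb : e b = !s := by rw [he]; simp [hjb.symm, hab.symm]
    have hsum : ∑ k, sg (e k) * tau (O k) = n := by
      rw [hI.sum_tau hj hj1 hj2, hN, sum_pair hab, eej, eea, eeb, TSR.sg_not', ← hs]
      ring
    have hG : gU e O = sg s • UU (O a) - sg s • UU (O b) := by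
      rw [hO.gU_N, hN, sum_pair hab, eea, eeb, TSR.sg_not', neg_smul, sub_eq_add_neg]
    have hGv : (gU e O).eval q0 = sg s * (vU (O a) - vU (O b)) := by
      rw [hG, eval_sub, eval_smul, eval_smul, smul_eq_mul, smul_eq_mul]
      unfold vU
      ring
    have hsub : ({a, b} : Finset (Fin K)) ⊆ univ := subset_univ _
    have s1 : vU (O a) ^ 2 + vU (O b) ^ 2 ≤ ∑ i, vU (O i) ^ 2 := by
      rw [← sum_pair (f := fun i => vU (O i) ^ 2) hab]
      exact sum_le_sum_of_subset_of_nonneg hsub fun i _ _ => sq_nonneg _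
    have s2 : aU (O a) ^ 2 + aU (O b) ^ 2 ≤ ∑ i, aU (O i) ^ 2 := by
      rw [← sum_pair (f := fun i => aU (O i) ^ 2) hab]
      exact sum_le_sum_of_subset_of_nonneg hsub fun i _ _ => sq_nonneg _
    have hss : sg s ^ 2 = 1 := sg_sq s
    have g2 : (sg s * (vU (O a) - vU (O b))) ^ 2 = (vU (O a) - vU (O b)) ^ 2 := by
      rw [mul_pow, hss, one_mul]
    have ha0 := ha.2.1
    have ha2 := ha.2.2.1
    have hb0 := hb.2.1
    have hb2 := hb.2.2.1
    have hdn : dn q0 (gU e O) ^ 2 ≤ 2 * ∑ i, aU (O i) ^ 2 := by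
      have g1 := TDN.dn_parallelogram q0 q0_pos.le (sg s • UU (O a)) (sg s • UU (O b))
      have g3 := sq_nonneg (dn q0 (sg s • UU (O a) + sg s • UU (O b)))
      rw [TSR.dn_sg1, TSR.dn_sg1, ← hG] at g1
      unfold aU at s2 ⊢
      linarith
    have habs : |sg s * (vU (O a) - vU (O b))| ≤ 2 := by
      rw [← sq_le_sq₀ (abs_nonneg _) (by norm_num), sq_abs, g2]
      nlinarith
    rw [abs_le] at habs
    have hle : (n : ℝ) - q0 * (sg s * (vU (O a) - vU (O b))) ≤ 1 ∧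
        0 ≤ (n : ℝ) - q0 * (sg s * (vU (O a) - vU (O b))) := by
      rcases Nat.le_one_iff_eq_zero_or_eq_one.mp hn1 with h | h
      · have := h0 h
        rw [h, Nat.cast_zero]
        constructor <;> nlinarith
      · have := h1 h
        rw [h, Nat.cast_one]
        constructor <;> nlinarith
    have hL : LabD O e n 4 1 := by
      refine ⟨fun σ => by rw [YY_sum, hsum], ?_, ?_, ?_, ?_, hdn⟩
      · rw [hGv, g2]
        nlinarith
      · rw [hGv]
        exact hle.2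
      · rw [hGv]
        linarith [hle.1]
      · rw [hGv, g2]
        nlinarith [mul_nonneg ha0 hb0]
    refine ⟨e, n, hn, hL, fun σ => ?_⟩
    rw [hL.vY_eq, hGv]
    exact hle.1
  -- the sign by the value
  have hsgn : ∀ x : ℝ, ∃ s : Bool, sg s * x ≤ 0 ∧ 0 ≤ sg (!s) * x := by
    intro x
    rcases le_total x 0 with h | h
    · exact ⟨true, by rw [TSR.sg_tt]; linarith, by rw [Bool.not_true, TSR.sg_ff]; linarith⟩
    · exact ⟨false, by rw [TSR.sg_ff]; linarith, by rw [Bool.not_false, TSR.sg_tt]; linarith⟩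
  obtain ⟨s, h1, h2⟩ := hsgn (vU (O a) - vU (O b))
  have hc1 : (c1 O N : ℝ) = tau (O a) + tau (O b) := by
    unfold c1
    rw [hN, card_filter]
    push_cast
    rw [sum_pair hab]
    have : ∀ k : Fin K, (if tau (O k) = 1 then (1 : ℝ) else 0) = tau (O k) := by
      intro k
      rcases (hO.hI k).1 with h | h
      · rw [h, if_neg (by norm_num)]
      · rw [h, if_pos rfl]
    rw [this, this]
  rcases ha.1 with t1 | t1 <;> rcases hb.1 with t2 | t2
  · have : c1 O N = 0 := by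
      rw [t1, t2] at hc1
      exact_mod_cast (by linarith : (c1 O N : ℝ) = 0)
    refine key (!s) true 1 (by rw [this]; rfl) ?_ (fun h => by omega) (fun _ => h2) le_rfl
    rw [t1, t2, TSR.sg_tt]
    norm_num
  · have : c1 O N = 1 := by
      rw [t1, t2] at hc1
      exact_mod_cast (by linarith : (c1 O N : ℝ) = 1)
    refine key s s 0 (by rw [this]; rfl) ?_ (fun _ => h1) (fun h => by omega) (by omega)
    rw [t1, t2]
    push_cast
    ring
  · have : c1 O N = 1 := by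
      rw [t1, t2] at hc1
      exact_mod_cast (by linarith : (c1 O N : ℝ) = 1)
    refine key s (!s) 0 (by rw [this]; rfl) ?_ (fun _ => h1) (fun h => by omega) (by omega)
    rw [t1, t2, TSR.sg_not']
    push_cast
    ring
  · have : c1 O N = 2 := by
      rw [t1, t2] at hc1
      exact_mod_cast (by linarith : (c1 O N : ℝ) = 2)
    refine key (!s) true 1 (by rw [this]; rfl) ?_ (fun h => by omega) (fun _ => h2) le_rfl
    rw [t1, t2, TSR.sg_tt]
    norm_num

/-- **one kind with an even number of children and the path** -/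
theorem poT_evenP (hY : Y.G = GoodE χ) (hχ : ∀ D, RD D → 0 ≤ χ D)
    (hAd : ∀ vU vY aU aY, Adm 0 vU vY aU aY) (hev : Even (lf.toNat + true.toNat + m))
    (hpos : 0 < lf.toNat + true.toNat + m) (H : EvenP Y Adm V P χ lf m) :
    PoT Y Adm V P lf true m := by
  intro K O N tc hI hT
  have hK : Even K := by rw [hI.hK]; exact hev
  have hK0 : 0 < K := by rw [hI.hK]; exact hpos
  by_cases hm : m = 2
  · subst hm
    obtain ⟨e, n, hn, he, hv⟩ := labD_two hI hT.hO
    exact po_evenV hY hχ hAd hK hK0 hI hT hn he fun σ ρ hF D hD =>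
      H K O N tc σ e ρ n hF (fun _ => hv σ) D hD
  · obtain ⟨e, n, hn, he⟩ := labD_path hI hT.hO
    exact po_evenV hY hχ hAd hK hK0 hI hT hn he fun σ ρ hF D hD =>
      H K O N tc σ e ρ n hF (fun h => absurd h hm) D hD

/-- **one kind with an odd number of children, leaf and path**, the leaf is split off -/
theorem poT_leafP (hY : Y.G = GoodE χ) (hχ : ∀ D, RD D → 0 ≤ χ D) (hodd : Odd (2 + m))
    (H : LeafP Y Adm V P χ m) : PoT Y Adm V P true true m := by
  intro K O N tc hI hT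
  have hK := hI.hK
  rw [Bool.toNat_true] at hK
  have hKo : Odd K := by rw [hK]; exact hodd
  obtain ⟨j, hj, hj1⟩ := hI.hl rfl
  obtain ⟨e, n, hn, he⟩ := labD_path hI hT.hO
  exact po_trivV hY hχ hKo (by omega) hI hT hn he hj (by rw [hj1, xiT_nil]) fun σ ρ hF =>
    H K O N tc σ e ρ n hF

end

end Pool.Agent.TSM
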