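import Pool.Agent.TSM.Dich
import Pool.Agent.TSM.Lab4

set_option autoImplicit false

/-!
# The dichotomy for families without the path (MP_d27362_co)

The new label is zero. Either the value of `G` is at most two and all flips are free, or three
children are tied, the value is at most two as well, and the sum of the `v_U` is at least two.
-/

namespace Pool.Agent.TSM

open Finset Polynomial
open Pool.Agent.TSP
open Pool.Agent.TSO
open Pool.Agent.TSR (OBr Ker)
open Pool.Agent.TLT (sg)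
open Pool.Agent.TDN (dn dn_nonneg)

noncomputable section

variable {Y : Sys} {Adm : ℕ → ℝ → ℝ → ℝ → ℝ → Prop} {V P : ℝ → ℝ → Sn → ℝ} {χ : ℝ → ℝ}
  {K : ℕ} {O : Fin K → OBr} {N : Finset (Fin K)} {lf tw : Bool} {m : ℕ}

/-- labels with the sum zero, the global sign is chosen by the value -/
lemma labD_zero_gen {e : Fin K → Bool} {vm fv fg : ℝ} (hs : ∑ k, sg (e k) * tau (O k) = 0)
    (hvm : vm ≤ 4) (h2 : (gU e O).eval q0 ^ 2 ≤ vm)
    (h3 : (gU e O).eval q0 ^ 2 ≤ fv * ∑ i, vU (O i) ^ 2)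
    (h4 : dn q0 (gU e O) ^ 2 ≤ fg * ∑ i, aU (O i) ^ 2) :
    ∃ e' : Fin K → Bool, (e' = e ∨ e' = fun i => !(e i)) ∧ (gU e' O).eval q0 ≤ 0 ∧
      LabD O e' 0 vm fv fg := by
  have hq := q0_pos
  have hq1 := q0_le
  have key : ∀ e' : Fin K → Bool, ∑ k, sg (e' k) * tau (O k) = 0 → (gU e' O).eval q0 ≤ 0 →
      (gU e' O).eval q0 ^ 2 ≤ vm → (gU e' O).eval q0 ^ 2 ≤ fv * ∑ i, vU (O i) ^ 2 →
      dn q0 (gU e' O) ^ 2 ≤ fg * ∑ i, aU (O i) ^ 2 → LabD O e' 0 vm fv fg := by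
    intro e' g1 g2 g3 g4 g5
    have g6 : -2 ≤ (gU e' O).eval q0 := by nlinarith
    refine ⟨fun σ => by rw [YY_sum, g1, Nat.cast_zero], g3, ?_, ?_, g4, g5⟩
    · rw [Nat.cast_zero]
      nlinarith
    · rw [Nat.cast_zero]
      nlinarith
  rcases le_total ((gU e O).eval q0) 0 with h | h
  · exact ⟨e, Or.inl rfl, h, key e hs h h2 h3 h4⟩
  · refine ⟨_, Or.inr rfl, ?_, key _ ?_ ?_ ?_ ?_ ?_⟩
    · rw [gU_not, eval_neg]
      linarith
    · have : ∀ k, sg (!(e k)) * tau (O k) = -(sg (e k) * tau (O k)) := by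
        intro k
        rw [TSR.sg_not']
        ring
      rw [sum_congr rfl fun k _ => this k, sum_neg_distrib, hs, neg_zero]
    · rw [gU_not, eval_neg]
      linarith
    · rw [gU_not, eval_neg, neg_sq]
      exact h2
    · rw [gU_not, eval_neg, neg_sq]
      exact h3
    · rw [gU_not, TDN.dn_neg]
      exact h4

/-- three terms -/
lemma dn_three (p q r : ℝ[X]) :
    dn q0 (p - q - r) ^ 2 ≤ 3 * (dn q0 p ^ 2 + dn q0 q ^ 2 + dn q0 r ^ 2) := by
  have hq := q0_pos.le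
  have h1 := TDN.dn_add_le q0 hq (p - q) (-r)
  have h2 := TDN.dn_add_le q0 hq p (-q)
  rw [TDN.dn_neg] at h1 h2
  rw [← sub_eq_add_neg] at h1 h2
  have a0 := dn_nonneg q0 p
  have b0 := dn_nonneg q0 q
  have c0 := dn_nonneg q0 r
  have d0 := dn_nonneg q0 (p - q - r)
  have h3 : dn q0 (p - q - r) ≤ dn q0 p + dn q0 q + dn q0 r := by linarith
  have h4 : dn q0 (p - q - r) ^ 2 ≤ (dn q0 p + dn q0 q + dn q0 r) ^ 2 :=
    pow_le_pow_left₀ d0 h3 2
  nlinarith [sq_nonneg (dn q0 p - dn q0 q), sq_nonneg (dn q0 q - dn q0 r),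
    sq_nonneg (dn q0 p - dn q0 r)]

/-- what is known in the second case: three children are tied -/
structure Tied (O : Fin K → OBr) (e : Fin K → Bool) (i0 i1 j0 : Fin K) : Prop where
  t0 : tau (O i0) = 1
  t1 : tau (O i1) = 1
  t2 : tau (O j0) = 0
  h01 : i0 ≠ i1
  e1 : e i1 = !(e i0)
  e2 : e j0 = !(e i0)
  hd : dn q0 (gU e O) ^ 2 + 2 * (aU (O i0) ^ 2 + aU (O i1) ^ 2 + aU (O j0) ^ 2) ≤
    dn q0 (UU (O i0) - UU (O i1) - UU (O j0)) ^ 2 + 2 * ∑ i, aU (O i) ^ 2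
  hs : 2 < ∑ i, vU (O i)
  h2 : 2 < vU (O i0) + vU (O j0)

lemma Tied.h02 {e : Fin K → Bool} {i0 i1 j0 : Fin K} (h : Tied O e i0 i1 j0) : i0 ≠ j0 := by
  intro h1
  have h2 := h.t0
  rw [h1, h.t2] at h2
  norm_num at h2

lemma Tied.h12 {e : Fin K → Bool} {i0 i1 j0 : Fin K} (h : Tied O e i0 i1 j0) : i1 ≠ j0 := by
  intro h1
  have h2 := h.t1
  rw [h1, h.t2] at h2
  norm_num at h2

/-- **the dichotomy**: even number of children with `τ = 1`. In the second case the tied children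
have the factor three and the others the factor two -/
theorem labD_dich (h : ∀ i, Inv (O i)) (hc : Even (n1 O)) :
    (∃ e : Fin K → Bool, LabD O e 0 4 2) ∨
    (∃ (e : Fin K → Bool) (i0 i1 j0 : Fin K), Tied O e i0 i1 j0 ∧ LabD O e 0 4 1 3) := by
  classical
  have hn := n1_eq O
  have hsum : ∀ e : Fin K → Bool, ∑ i : {i // tau (O i) = 1}, sg (e i) = 0 →
      ∑ k, sg (e k) * tau (O k) = 0 := by
    intro e he
    rw [TSR.sum_cl fun i => tau (O i) = 1]
    have h2 : ∑ i : {i // ¬ tau (O i) = 1}, sg (e i) * tau (O i) = 0 := by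
      refine sum_eq_zero fun i _ => ?_
      rcases (h i).1 with h3 | h3
      · rw [h3, mul_zero]
      · exact absurd h3 i.2
    rw [h2, add_zero, ← he]
    exact sum_congr rfl fun i _ => by rw [i.2, mul_one]
  rcases TSR.dich (T := q0) (fun i => tau (O i) = 1) q0_pos.le
    (by
      convert hc using 1
      rw [hn]) (fun i => UU (O i)) 2 (by norm_num) (fun i => (h i).2.1) (fun i => (h i).2.2.1) with
    ⟨e, h1, h2, h3, h4⟩ | ⟨hs, e, i0, i1, j0, g0, g1, g2, g3, gs, g4, g5, g6, h1, h2, h3⟩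
  · left
    obtain ⟨e', _, _, he'⟩ := labD_zero_gen (vm := 4) (fv := 2) (fg := 2)
      (hsum e (by convert h1)) le_rfl (by
        rw [← sq_abs]
        have := pow_le_pow_left₀ (abs_nonneg _) h2 2
        unfold gU
        linarith) h3 h4
    exact ⟨e', he'⟩
  · right
    have hd : dn q0 (gU e O) ^ 2 + 2 * (aU (O i0) ^ 2 + aU (O i1) ^ 2 + aU (O j0) ^ 2) ≤
        dn q0 (UU (O i0) - UU (O i1) - UU (O j0)) ^ 2 + 2 * ∑ i, aU (O i) ^ 2 := h3
    have h01 := g3
    have h02 : i0 ≠ j0 := fun h5 => g2 (h5 ▸ g0)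
    have h12 : i1 ≠ j0 := fun h5 => g2 (h5 ▸ g1)
    have hthree : aU (O i0) ^ 2 + aU (O i1) ^ 2 + aU (O j0) ^ 2 ≤ ∑ i, aU (O i) ^ 2 := by
      have e1 : aU (O i0) ^ 2 + aU (O i1) ^ 2 + aU (O j0) ^ 2 =
          ∑ i ∈ ({i0, i1, j0} : Finset (Fin K)), aU (O i) ^ 2 := by
        rw [sum_insert (by simp [h01, h02]), sum_pair h12]
        ring
      rw [e1]
      exact sum_le_sum_of_subset_of_nonneg (subset_univ _) fun i _ _ => sq_nonneg _
    have h6 : dn q0 (gU e O) ^ 2 ≤ 3 * ∑ i, aU (O i) ^ 2 := by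
      have := dn_three (UU (O i0)) (UU (O i1)) (UU (O j0))
      unfold aU at hd hthree ⊢
      linarith
    have hv0 := (h i0).2.1
    have hv2 := (h i0).2.2.1
    have hw0 := (h j0).2.1
    have hw2 := (h j0).2.2.1
    have h7 : (gU e O).eval q0 ^ 2 ≤ max (vU (O i0)) (vU (O j0)) ^ 2 := by
      rw [← sq_abs]
      exact pow_le_pow_left₀ (abs_nonneg _) h2 2
    have h8 : max (vU (O i0)) (vU (O j0)) ^ 2 ≤ 4 := by
      have := max_le hv2 hw2
      have := hv0.trans (le_max_left (vU (O i0)) (vU (O j0)))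
      nlinarith
    have h9 : max (vU (O i0)) (vU (O j0)) ^ 2 ≤ 1 * ∑ i, vU (O i) ^ 2 := by
      have e1 : vU (O i0) ^ 2 + vU (O j0) ^ 2 ≤ ∑ i, vU (O i) ^ 2 := by
        rw [← sum_pair (f := fun i => vU (O i) ^ 2) h02]
        exact sum_le_sum_of_subset_of_nonneg (subset_univ _) fun i _ _ => sq_nonneg _
      rcases max_choice (vU (O i0)) (vU (O j0)) with h10 | h10 <;> rw [h10]
      · nlinarith [sq_nonneg (vU (O j0))]
      · nlinarith [sq_nonneg (vU (O i0))]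
    obtain ⟨e', he, _, he'⟩ := labD_zero_gen (vm := 4) (fv := 1) (fg := 3)
      (hsum e (by convert h1)) le_rfl (h7.trans h8) (h7.trans h9) h6
    have hT : Tied O e i0 i1 j0 :=
      ⟨g0, g1, ((h j0).1.resolve_right g2), g3, by rw [g4, g5]; rfl, by rw [g4, g6]; rfl, hd, hs,
        gs⟩
    refine ⟨e', i0, i1, j0, ?_, he'⟩
    rcases he with he | he
    · rw [he]
      exact hT
    · refine ⟨hT.t0, hT.t1, hT.t2, hT.h01, ?_, ?_, ?_, hs, gs⟩
      · rw [he]
        simp only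
        rw [hT.e1]
      · rw [he]
        simp only
        rw [hT.e2]
      · rw [he, gU_not, TDN.dn_neg]
        exact hd

/-- the sum over the nontrivial children -/
lemma FamO.sumU_N (hO : FamO O N) : ∑ i ∈ N, vU (O i) = ∑ i, vU (O i) := by
  rw [← sum_subset (subset_univ N)]
  intro i _ hi
  unfold vU
  rw [hO.UU0 hi, eval_zero]

/-- **only one class of nontrivial children**: the value of `G` is at most the largest value -/
theorem labD_single (hO : FamO O N) (hc : Even (n1 O))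
    (h1 : (∀ i ∈ N, tau (O i) = 0) ∨ ∀ i ∈ N, tau (O i) = 1) :
    ∃ e : Fin K → Bool, LabD O e 0 4 1 := by
  classical
  have h := hO.hI
  have hn := n1_eq O
  set c := capv 2 fun i => vU (O i) with hcd
  have hc2 : c ≤ 2 := capv_le _ _
  have hc0 : 0 ≤ c := capv_nonneg (by norm_num) _
  have hcs : c ^ 2 ≤ ∑ i, vU (O i) ^ 2 := capv_sq (by norm_num) _
  have hcv : ∀ i, vU (O i) ≤ c :=
    fun i => le_capv (v := fun i => vU (O i)) (fun i => (h i).2.2.1) i
  have hz : ∀ i ∉ N, vU (O i) = 0 := by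
    intro i hi
    unfold vU
    rw [hO.UU0 hi, eval_zero]
  rcases TSR.dich (T := q0) (fun i => tau (O i) = 1) q0_pos.le
    (by
      convert hc using 1
      rw [hn]) (fun i => UU (O i)) c hc0 (fun i => (h i).2.1) hcv with
    ⟨e, g1, g2, g3, g4⟩ | ⟨hs, e, i0, i1, j0, g0, g1, g2, g3, gs, g4, g5, g6, g7, g8, g9⟩
  · have hsum : ∑ k, sg (e k) * tau (O k) = 0 := by
      rw [TSR.sum_cl fun i => tau (O i) = 1]
      have h2 : ∑ i : {i // ¬ tau (O i) = 1}, sg (e i) * tau (O i) = 0 := by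
        refine sum_eq_zero fun i _ => ?_
        rcases (h i).1 with h3 | h3
        · rw [h3, mul_zero]
        · exact absurd h3 i.2
      rw [h2, add_zero, ← g1]
      refine sum_congr ?_ fun i _ => by rw [i.2, mul_one]
      ext i
      simp
    have h5 : (gU e O).eval q0 ^ 2 ≤ c ^ 2 := by
      rw [← sq_abs]
      exact pow_le_pow_left₀ (abs_nonneg _) g2 2
    obtain ⟨e', _, _, he'⟩ := labD_zero_gen (vm := 4) (fv := 1) (fg := 2) hsum le_rfl
      (by nlinarith) (by rw [one_mul]; linarith) g4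
    exact ⟨e', he'⟩
  · exfalso
    have e1 : (UU (O i0)).eval q0 = vU (O i0) := rfl
    have e2 : (UU (O j0)).eval q0 = vU (O j0) := rfl
    simp only [e1, e2] at gs
    rcases h1 with h1 | h1
    · have hi : i0 ∉ N := by
        intro hi
        have := h1 i0 hi
        rw [g0] at this
        norm_num at this
      rw [hz i0 hi] at gs
      linarith [hcv j0]
    · have hi : j0 ∉ N := fun hi => g2 (h1 j0 hi)
      rw [hz j0 hi] at gs
      linarith [hcv i0]

/-! ### the kinds without the path -/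

/-- one class means that all nontrivial children have the same `τ` -/
lemma oneCl_tau (hO : FamO O N) (hcard : N.card = m) (hc : OneCl m (c1 O N)) :
    (∀ i ∈ N, tau (O i) = 0) ∨ ∀ i ∈ N, tau (O i) = 1 := by
  rcases hc with hc | hc
  · left
    intro i hi
    have h4 : i ∉ N.filter fun i => tau (O i) = 1 := by
      have h5 : (N.filter fun i => tau (O i) = 1) = ∅ := card_eq_zero.mp hc
      rw [h5]
      simp
    rcases (hO.hI i).1 with h | h
    · exact h
    · exact absurd (mem_filter.mpr ⟨hi, h⟩) h4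
  · right
    intro i hi
    have h4 : (N.filter fun i => tau (O i) = 1) = N :=
      eq_of_subset_of_card_le (filter_subset _ _) (by rw [hcard]; exact hc.ge)
    rw [← h4] at hi
    exact (mem_filter.mp hi).2

/-- **labels without the path**: four cases -/
theorem labD_nopath (hI : ItD lf false m O N) (hO : FamO O N) :
    ∃ (e : Fin K → Bool) (n : ℕ), n = (false.toNat + c1 O N) % 2 ∧
      ((n = 1 ∧ LabD O e 1 4 1) ∨ (n = 0 ∧ OneCl m (c1 O N) ∧ LabD O e 0 4 1) ∨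
        (n = 0 ∧ ¬ OneCl m (c1 O N) ∧ LabD O e 0 4 2) ∨
        (n = 0 ∧ ¬ OneCl m (c1 O N) ∧ LabD O e 0 4 1 3 ∧ 2 ≤ ∑ i ∈ N, vU (O i) ∧
          ∃ i0 i1 j0 : Fin K, Tied O e i0 i1 j0)) := by
  have hn1 := hI.n1
  rcases Nat.even_or_odd (n1 O) with hc | hc
  · have hn : 0 = (false.toNat + c1 O N) % 2 := by
      rw [← hn1]
      exact (Nat.even_iff.mp hc).symm
    by_cases h1 : OneCl m (c1 O N)
    · obtain ⟨e, he⟩ := labD_single hO hc (oneCl_tau hO hI.hN h1)
      exact ⟨e, 0, hn, Or.inr (Or.inl ⟨rfl, h1, he⟩)⟩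
    · rcases labD_dich hO.hI hc with ⟨e, he⟩ | ⟨e, i0, i1, j0, hT, he⟩
      · exact ⟨e, 0, hn, Or.inr (Or.inr (Or.inl ⟨rfl, h1, he⟩))⟩
      · refine ⟨e, 0, hn, Or.inr (Or.inr (Or.inr ⟨rfl, h1, he, ?_, i0, i1, j0, hT⟩))⟩
        rw [hO.sumU_N]
        exact hT.hs.le
  · obtain ⟨e, n, hn, he⟩ := labD_exists hO
    have hn' : n = 1 := by rw [hn]; exact Nat.odd_iff.mp hc
    subst hn'
    have e1 : (16 : ℝ) - 12 * ((1 : ℕ) : ℝ) = 4 := by norm_num
    have e2 : (4 : ℝ) - 3 * ((1 : ℕ) : ℝ) = 1 := by norm_num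
    rw [e1, e2] at he
    exact ⟨e, 1, by rw [hn, hn1], Or.inl ⟨rfl, he⟩⟩

/-- the obligations of a kind without the path; `Q` is what has to be shown for the signs -/
structure DichO (Y : Sys) (Adm : ℕ → ℝ → ℝ → ℝ → ℝ → Prop) (V P : ℝ → ℝ → Sn → ℝ) (lf : Bool)
    (m : ℕ) (Q : ∀ {K : ℕ}, (Fin K → OBr) → Finset (Fin K) → (Fin K → ℕ) → (Fin K → Bool) →
      (Fin K → Bool) → Prop) : Prop where
  /-- label one -/
  h1 : ∀ {K : ℕ} (O : Fin K → OBr) (N : Finset (Fin K)) (tc : Fin K → ℕ)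
    (σ e ρ : Fin K → Bool), FamKV Y Adm V P lf false m O N tc σ e ρ 1 4 1 → Q O N tc σ e
  /-- label zero, one class -/
  hS : ∀ {K : ℕ} (O : Fin K → OBr) (N : Finset (Fin K)) (tc : Fin K → ℕ)
    (σ e ρ : Fin K → Bool), OneCl m (c1 O N) →
      FamKV Y Adm V P lf false m O N tc σ e ρ 0 4 1 → Q O N tc σ e
  /-- label zero, two classes, small spreads -/
  hA : ∀ {K : ℕ} (O : Fin K → OBr) (N : Finset (Fin K)) (tc : Fin K → ℕ)
    (σ e ρ : Fin K → Bool), ¬ OneCl m (c1 O N) →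
      FamKV Y Adm V P lf false m O N tc σ e ρ 0 4 2 → Q O N tc σ e
  /-- label zero, two classes, large spreads -/
  hB : ∀ {K : ℕ} (O : Fin K → OBr) (N : Finset (Fin K)) (tc : Fin K → ℕ)
    (σ e ρ : Fin K → Bool), ¬ OneCl m (c1 O N) → 2 ≤ ∑ i ∈ N, vU (O i) →
      (∃ i0 i1 j0 : Fin K, Tied O e i0 i1 j0) →
      FamKV Y Adm V P lf false m O N tc σ e ρ 0 4 1 3 → Q O N tc σ e

/-- **one kind with an even number of children without the path** -/
theorem poT_evenD (hY : Y.G = GoodE χ) (hχ : ∀ D, RD D → 0 ≤ χ D)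
    (hAd : ∀ vU vY aU aY, Adm 0 vU vY aU aY) (hev : Even (lf.toNat + false.toNat + m))
    (hpos : 0 < lf.toNat + false.toNat + m)
    (H : DichO Y Adm V P lf m fun {K} O N tc σ e => ∀ D, RD D →
      EvF2 χ D K (fun a => (UU (fam σ e O)).eval a)
        (fun a => (YY (fam σ e O)).eval a) (fun a => ∑ i, Vi V N tc O i D a)
        (fun a => V D a ((chd 0 (fam σ e O)).sn a))
        (fun a => P D a ((chd 0 (fam σ e O)).sn a))) :
    PoT Y Adm V P lf false m := by
  intro K O N tc hI hT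
  have hK : Even K := by rw [hI.hK]; exact hev
  have hK0 : 0 < K := by rw [hI.hK]; exact hpos
  obtain ⟨e, n, hn, hcase⟩ := labD_nopath hI hT.hO
  rcases hcase with ⟨rfl, he⟩ | ⟨rfl, h1, he⟩ | ⟨rfl, h1, he⟩ | ⟨rfl, h1, he, hs, ht⟩
  · exact po_evenV hY hχ hAd hK hK0 hI hT hn he fun σ ρ hF D hD => H.h1 O N tc σ e ρ hF D hD
  · exact po_evenV hY hχ hAd hK hK0 hI hT hn he fun σ ρ hF D hD => H.hS O N tc σ e ρ h1 hF D hD
  · exact po_evenV hY hχ hAd hK hK0 hI hT hn he fun σ ρ hF D hD => H.hA O N tc σ e ρ h1 hF D hD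
  · exact po_evenV hY hχ hAd hK hK0 hI hT hn he fun σ ρ hF D hD =>
      H.hB O N tc σ e ρ h1 hs ht hF D hD

/-- **one kind with an odd number of children and the leaf, without the path**: the leaf is split
off -/
theorem poT_leafD (hY : Y.G = GoodE χ) (hχ : ∀ D, RD D → 0 ≤ χ D)
    (hm : 1 ≤ m) (hodd : Odd (1 + m))
    (H : DichO Y Adm V P true m fun {K} O N tc σ e => ∃ ty : ℕ, ty ≠ 0 ∧
      Adm ty (vU (fam σ e O)) (vY (fam σ e O)) (aU (fam σ e O)) (aY (fam σ e O)) ∧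
      OddR V P χ O N tc σ e 0 ty) : PoT Y Adm V P true false m := by
  intro K O N tc hI hT
  have hK := hI.hK
  rw [Bool.toNat_true, Bool.toNat_false, add_zero] at hK
  have hKo : Odd K := by rw [hK]; exact hodd
  obtain ⟨j, hj, hj1⟩ := hI.hl rfl
  obtain ⟨e, n, hn, hcase⟩ := labD_nopath hI hT.hO
  have hx : xiT (e j) (O j) = 0 := by rw [hj1, xiT_nil]
  rcases hcase with ⟨rfl, he⟩ | ⟨rfl, h1, he⟩ | ⟨rfl, h1, he⟩ | ⟨rfl, h1, he, hs, ht⟩
  · exact po_trivV hY hχ hKo (by omega) hI hT hn he hj hx fun σ ρ hF => H.h1 O N tc σ e ρ hF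
  · exact po_trivV hY hχ hKo (by omega) hI hT hn he hj hx fun σ ρ hF => H.hS O N tc σ e ρ h1 hF
  · exact po_trivV hY hχ hKo (by omega) hI hT hn he hj hx fun σ ρ hF => H.hA O N tc σ e ρ h1 hF
  · exact po_trivV hY hχ hKo (by omega) hI hT hn he hj hx fun σ ρ hF =>
      H.hB O N tc σ e ρ h1 hs ht hF

end

end Pool.Agent.TSM
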