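import Pool.Agent.TSM.EvenG

set_option autoImplicit false

/-!
# An even number `K` of children, finite rule with a constant (MP_d27362_co, helper2)

`(1 + (u - ρ)/K)^K ≤ e^{-ρ} e^{δ + μ w²} (1 + u + c u²)` for `u ≤ w`, `ρ ≤ P`: with a small
constant `δ` the factor `c` may be smaller than `1/2`.
-/

namespace Pool.Agent.TSM

noncomputable section

/-- the constants of the finite rule for `K` children, the gain at most `P`, with a constant `de`
in the exponent -/
structure ExpFd (K : ℕ) (cq μ P de : ℝ) : Prop where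
  cq0 : 0 ≤ cq
  mu0 : 0 ≤ μ
  de0 : 0 ≤ de
  quad : ∀ u : ℝ, 0 ≤ 1 + u + cq * u ^ 2
  hexp : ∀ ρ u w : ℝ, ρ ≤ P → u ≤ w → 0 ≤ 1 + (u - ρ) / K →
    (1 + (u - ρ) / K) ^ K ≤
      Real.exp (-ρ) * (Real.exp (de + μ * w ^ 2) * (1 + u + cq * u ^ 2))

/-- the case `de = 0` -/
theorem ExpF.toD {K : ℕ} {cq μ P : ℝ} (h : ExpF K cq μ P) : ExpFd K cq μ P 0 :=
  ⟨h.cq0, h.mu0, le_rfl, h.quad, by
    intro ρ u w h1 h2 h3
    rw [zero_add]
    exact h.hexp ρ u w h1 h2 h3⟩

/-- the constants may be enlarged -/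
theorem ExpFd.mono {K : ℕ} {c μ P de c' μ' P' de' : ℝ} (h : ExpFd K c μ P de) (hc : c ≤ c')
    (hμ : μ ≤ μ') (hP : P' ≤ P) (hde : de ≤ de') : ExpFd K c' μ' P' de' := by
  refine ⟨h.cq0.trans hc, h.mu0.trans hμ, h.de0.trans hde, fun u => ?_,
    fun ρ u w hρ hu h0 => ?_⟩
  · have h1 := h.quad u
    have h2 := mul_le_mul_of_nonneg_right hc (sq_nonneg u)
    linarith
  · have h1 := h.hexp ρ u w (hρ.trans hP) hu h0
    have h2 := mul_le_mul_of_nonneg_right hc (sq_nonneg u)
    have h3 := mul_le_mul_of_nonneg_right hμ (sq_nonneg w)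
    refine h1.trans (mul_le_mul_of_nonneg_left ?_ (Real.exp_pos _).le)
    exact mul_le_mul (Real.exp_le_exp.2 (by linarith)) (by linarith) (h.quad u)
      (Real.exp_pos _).le

/-- reduction to three inequalities in one variable -/
theorem ExpFd.of {K : ℕ} (hK : 0 < K) {cq μ P de : ℝ} (hμ : 0 ≤ μ) (hP0 : 0 ≤ P) (hde : 0 ≤ de)
    (hcq : 1 / 4 ≤ cq)
    (h1 : ∀ u, u ≤ 0 → Real.exp u ≤ Real.exp de * (1 + u + cq * u ^ 2))
    (h2 : ∀ u, 0 ≤ u → u ≤ P → Real.exp u ≤ Real.exp (de + μ * u ^ 2) * (1 + u + cq * u ^ 2))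
    (h3 : ∀ u, P ≤ u → Real.exp P * (1 + (u - P) / K) ^ K ≤
      Real.exp (de + μ * u ^ 2) * (1 + u + cq * u ^ 2)) : ExpFd K cq μ P de := by
  have hq : ∀ u : ℝ, 0 ≤ 1 + u + cq * u ^ 2 := by
    intro u
    have h2 := mul_le_mul_of_nonneg_right hcq (sq_nonneg u)
    nlinarith [sq_nonneg (u + 2)]
  refine ⟨by linarith, hμ, hde, hq, fun ρ u w hρ huw hn => ?_⟩
  have hKR : (0 : ℝ) < K := by exact_mod_cast hK
  have hE1 : Real.exp de ≤ Real.exp (de + μ * w ^ 2) :=
    Real.exp_le_exp.2 (by linarith [mul_nonneg hμ (sq_nonneg w)])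
  have hE2 : 0 ≤ u → Real.exp (de + μ * u ^ 2) ≤ Real.exp (de + μ * w ^ 2) := fun h0 => by
    have := mul_le_mul_of_nonneg_left (pow_le_pow_left₀ h0 huw 2) hμ
    exact Real.exp_le_exp.2 (by linarith)
  -- the bound without `ρ`
  have key : Real.exp ρ * (1 + (u - ρ) / K) ^ K ≤
      Real.exp (de + μ * w ^ 2) * (1 + u + cq * u ^ 2) := by
    rcases le_total u P with hu | hu
    · have h4 : (1 + (u - ρ) / K) ^ K ≤ Real.exp (u - ρ) := by
        have h5 : 1 + (u - ρ) / K ≤ Real.exp ((u - ρ) / K) := by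
          have := Real.add_one_le_exp ((u - ρ) / K)
          linarith
        refine (pow_le_pow_left₀ hn h5 K).trans (le_of_eq ?_)
        rw [← Real.exp_nat_mul]
        congr 1
        field_simp
      have h6 : Real.exp ρ * (1 + (u - ρ) / K) ^ K ≤ Real.exp u := by
        refine (mul_le_mul_of_nonneg_left h4 (Real.exp_nonneg _)).trans (le_of_eq ?_)
        rw [← Real.exp_add]
        congr 1
        ring
      rcases le_total u 0 with h0 | h0
      · exact (h6.trans (h1 u h0)).trans (mul_le_mul_of_nonneg_right hE1 (hq u))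
      · exact (h6.trans (h2 u h0 hu)).trans (mul_le_mul_of_nonneg_right (hE2 h0) (hq u))
    · have h4 : 1 + (u - ρ) / K ≤ (1 + (u - P) / K) * Real.exp ((P - ρ) / K) := by
        have h5 : 1 + (P - ρ) / K ≤ Real.exp ((P - ρ) / K) := by
          have := Real.add_one_le_exp ((P - ρ) / K)
          linarith
        have h6 : 0 ≤ (u - P) / K := div_nonneg (by linarith) hKR.le
        have h7 : 0 ≤ (P - ρ) / K := div_nonneg (by linarith) hKR.le
        have h8 := mul_le_mul_of_nonneg_left h5 (show 0 ≤ 1 + (u - P) / K by linarith)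
        have h9 : 1 + (u - ρ) / K = 1 + (u - P) / K + (P - ρ) / K := by
          field_simp
          ring
        rw [h9]
        nlinarith [mul_nonneg h6 h7]
      have h5 : Real.exp ρ * (1 + (u - ρ) / K) ^ K ≤ Real.exp P * (1 + (u - P) / K) ^ K := by
        have h6 := mul_le_mul_of_nonneg_left (pow_le_pow_left₀ hn h4 K) (Real.exp_nonneg ρ)
        refine h6.trans (le_of_eq ?_)
        rw [mul_pow, ← Real.exp_nat_mul]
        have h7 : (K : ℝ) * ((P - ρ) / K) = P - ρ := by field_simp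
        rw [h7]
        have h8 : Real.exp P = Real.exp ρ * Real.exp (P - ρ) := by
          rw [← Real.exp_add]
          congr 1
          ring
        rw [h8]
        ring
      exact (h5.trans (h3 u hu)).trans
        (mul_le_mul_of_nonneg_right (hE2 (hP0.trans hu)) (hq u))
  have h4 := mul_le_mul_of_nonneg_left key (Real.exp_nonneg (-ρ))
  refine le_trans (le_of_eq ?_) h4
  rw [← mul_assoc, ← Real.exp_add, neg_add_cancel, Real.exp_zero, one_mul]

/-- the Taylor polynomial of degree `5` -/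
theorem taylor5_le_exp (x : ℝ) (hx : 0 ≤ x) :
    1 + x + x ^ 2 / 2 + x ^ 3 / 6 + x ^ 4 / 24 + x ^ 5 / 120 ≤ Real.exp x := by
  have h := Real.sum_le_exp_of_nonneg hx 6
  simp only [Finset.sum_range_succ, Finset.sum_range_zero, Nat.factorial] at h
  push_cast at h
  linarith

end

end Pool.Agent.TSM
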