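import Pool.Agent.TSM.EvenD

set_option autoImplicit false

/-!
# Constants of the even rule with a constant: bounds of the exponential (MP_d27362_co, helper2)
-/

namespace Pool.Agent.TSM

noncomputable section


theorem ev_exp_n0 {u : ℝ} (hu : u ≤ 0) :
    Real.exp u ≤ 1 + u + u ^ 2 / 2 + u ^ 3 / 6 + u ^ 4 / 24 := by
  -- `(1 - u + u²/2 - u³/6 + u⁴/24 - ..)`: with `x = -u ≥ 0`
  obtain ⟨x, rfl⟩ : ∃ x, u = -x := ⟨-u, by ring⟩
  have hx : 0 ≤ x := by linarith
  have h1 := Real.sum_le_exp_of_nonneg hx 5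
  simp only [Finset.sum_range_succ, Finset.sum_range_zero, Nat.factorial] at h1
  push_cast at h1
  rw [Real.exp_neg]
  have h3 : 0 < Real.exp x := Real.exp_pos x
  have h6 : 0 < 1 + -x + (-x) ^ 2 / 2 + (-x) ^ 3 / 6 + (-x) ^ 4 / 24 := by
    nlinarith [sq_nonneg (x ^ 2 / 5 - x / 2), sq_nonneg (x - 1), sq_nonneg x,
      sq_nonneg (x ^ 2 - 2 * x), sq_nonneg (x - 2)]
  rw [inv_le_comm₀ h3 h6]
  refine le_trans ?_ h1
  rw [inv_le_iff_one_le_mul₀ h6]
  nlinarith [pow_nonneg hx 5, pow_nonneg hx 6, pow_nonneg hx 7, pow_nonneg hx 8]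

theorem ev_neg_one_up : Real.exp (-1) ≤ 36788 / 100000 := by
  have h := Real.exp_neg_one_lt_d9
  linarith

theorem ev_neg_two_up : Real.exp (-2) ≤ 13534 / 100000 := by
  have h := Real.exp_neg_one_lt_d9
  have h0 := Real.exp_pos (-1)
  have e : Real.exp (-2) = Real.exp (-1) * Real.exp (-1) := by
    rw [← Real.exp_add]
    norm_num
  rw [e]
  nlinarith

theorem ev_neg_three_up : Real.exp (-3) ≤ 4979 / 100000 := by
  have h := Real.exp_neg_one_lt_d9
  have h0 := Real.exp_pos (-1)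
  have h2 : Real.exp (-2) ≤ 1353353 / 10000000 := by
    have e : Real.exp (-2) = Real.exp (-1) * Real.exp (-1) := by
      rw [← Real.exp_add]
      norm_num
    rw [e]
    nlinarith
  have h3 := Real.exp_pos (-2)
  have e : Real.exp (-3) = Real.exp (-2) * Real.exp (-1) := by
    rw [← Real.exp_add]
    norm_num
  rw [e]
  nlinarith

theorem ev_exp_n1 {u : ℝ} (hu : u ≤ -1) : Real.exp u ≤ 36788 / 100000 *
    (1 + (u + 1) + (u + 1) ^ 2 / 2 + (u + 1) ^ 3 / 6 + (u + 1) ^ 4 / 24) := by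
  have e : Real.exp u = Real.exp (-1) * Real.exp (u + 1) := by
    rw [← Real.exp_add]
    congr 1
    ring
  rw [e]
  exact mul_le_mul ev_neg_one_up (ev_exp_n0 (by linarith)) (Real.exp_nonneg _) (by norm_num)

theorem ev_exp_n2 {u : ℝ} (hu : u ≤ -2) : Real.exp u ≤ 13534 / 100000 *
    (1 + (u + 2) + (u + 2) ^ 2 / 2 + (u + 2) ^ 3 / 6 + (u + 2) ^ 4 / 24) := by
  have e : Real.exp u = Real.exp (-2) * Real.exp (u + 2) := by
    rw [← Real.exp_add]
    congr 1
    ring
  rw [e]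
  exact mul_le_mul ev_neg_two_up (ev_exp_n0 (by linarith)) (Real.exp_nonneg _) (by norm_num)

theorem ev_exp_n3 {u : ℝ} (hu : u ≤ -3) : Real.exp u ≤ 4979 / 100000 :=
  (Real.exp_le_exp.2 hu).trans ev_neg_three_up

theorem ev_exp_p {u : ℝ} (h0 : 0 ≤ u) (h1 : u ≤ 1) :
    Real.exp u ≤ 1 + u + u ^ 2 / 2 + u ^ 3 / 6 + u ^ 4 / 24 + u ^ 5 / 100 := by
  have h := Real.exp_bound' h0 h1 (n := 5) (by norm_num)
  simp only [Finset.sum_range_succ, Finset.sum_range_zero, Nat.factorial] at h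
  push_cast at h
  refine h.trans (le_of_eq ?_)
  ring


/-- the Taylor polynomial of degree `3` -/
theorem taylor3_le_expE (x : ℝ) (hx : 0 ≤ x) :
    1 + x + x ^ 2 / 2 + x ^ 3 / 6 ≤ Real.exp x := by
  have h := Real.sum_le_exp_of_nonneg hx 4
  simp only [Finset.sum_range_succ, Finset.sum_range_zero, Nat.factorial] at h
  push_cast at h
  linarith

theorem ev_up_1_10 : Real.exp (1 / 10) ≤ 55259 / 50000 := by
  have h := Real.exp_bound' (x := 1 / 10) (by norm_num) (by norm_num) (n := 9) (by norm_num)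
  simp only [Finset.sum_range_succ, Finset.sum_range_zero, Nat.factorial] at h
  push_cast at h
  refine h.trans ?_
  norm_num

theorem ev_up_1_5 : Real.exp (1 / 5) ≤ 122141 / 100000 := by
  have h := Real.exp_bound' (x := 1 / 5) (by norm_num) (by norm_num) (n := 9) (by norm_num)
  simp only [Finset.sum_range_succ, Finset.sum_range_zero, Nat.factorial] at h
  push_cast at h
  refine h.trans ?_
  norm_num

theorem ev_up_1_3 : Real.exp (1 / 3) ≤ 69781 / 50000 := by
  have h := Real.exp_bound' (x := 1 / 3) (by norm_num) (by norm_num) (n := 9) (by norm_num)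
  simp only [Finset.sum_range_succ, Finset.sum_range_zero, Nat.factorial] at h
  push_cast at h
  refine h.trans ?_
  norm_num

theorem ev_up_2_3 : Real.exp (2 / 3) ≤ 97387 / 50000 := by
  have h := Real.exp_bound' (x := 2 / 3) (by norm_num) (by norm_num) (n := 9) (by norm_num)
  simp only [Finset.sum_range_succ, Finset.sum_range_zero, Nat.factorial] at h
  push_cast at h
  refine h.trans ?_
  norm_num

/-- the constants of Rule E with a constant in the exponent -/
structure ExpEd (cq μ de : ℝ) : Prop where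
  cq0 : 0 ≤ cq
  mu0 : 0 ≤ μ
  de0 : 0 ≤ de
  quad : ∀ u : ℝ, 0 ≤ 1 + u + cq * u ^ 2
  hexp : ∀ u w : ℝ, u ≤ w → Real.exp u ≤ Real.exp (de + μ * w ^ 2) * (1 + u + cq * u ^ 2)

/-- Rule E is a finite rule -/
theorem ExpEd.toF {cq μ de : ℝ} (h : ExpEd cq μ de) {K : ℕ} (hK : 0 < K) (P : ℝ) :
    ExpFd K cq μ P de := by
  refine ⟨h.cq0, h.mu0, h.de0, h.quad, fun ρ u w _ huw hn => ?_⟩
  have hKR : (0 : ℝ) < K := by exact_mod_cast hK
  have h4 : (1 + (u - ρ) / K) ^ K ≤ Real.exp (u - ρ) := by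
    have h5 : 1 + (u - ρ) / K ≤ Real.exp ((u - ρ) / K) := by
      have := Real.add_one_le_exp ((u - ρ) / K)
      linarith
    refine (pow_le_pow_left₀ hn h5 K).trans (le_of_eq ?_)
    rw [← Real.exp_nat_mul]
    congr 1
    field_simp
  refine h4.trans ?_
  rw [show u - ρ = -ρ + u by ring, Real.exp_add]
  exact mul_le_mul_of_nonneg_left (h.hexp u w huw) (Real.exp_nonneg _)

/-- reduction to two inequalities in one variable -/
theorem ExpEd.of {cq μ de : ℝ} (hμ : 0 ≤ μ) (hde : 0 ≤ de) (hcq : 1 / 4 ≤ cq)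
    (h1 : ∀ u, u ≤ 0 → Real.exp u ≤ Real.exp de * (1 + u + cq * u ^ 2))
    (h2 : ∀ u, 0 ≤ u → Real.exp (u - μ * u ^ 2) ≤ Real.exp de * (1 + u + cq * u ^ 2)) :
    ExpEd cq μ de := by
  have hq : ∀ u : ℝ, 0 ≤ 1 + u + cq * u ^ 2 := by
    intro u
    have h2 := mul_le_mul_of_nonneg_right hcq (sq_nonneg u)
    nlinarith [sq_nonneg (u + 2)]
  refine ⟨by linarith, hμ, hde, hq, fun u w huw => ?_⟩
  rcases le_total u 0 with h0 | h0
  · refine (h1 u h0).trans (mul_le_mul_of_nonneg_right (Real.exp_le_exp.2 ?_) (hq u))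
    linarith [mul_nonneg hμ (sq_nonneg w)]
  · have h3 := mul_le_mul_of_nonneg_right (h2 u h0) (Real.exp_nonneg (μ * u ^ 2))
    rw [← Real.exp_add, sub_add_cancel] at h3
    have h4 := mul_le_mul_of_nonneg_left (pow_le_pow_left₀ h0 huw 2) hμ
    have h5 : Real.exp (de + μ * u ^ 2) ≤ Real.exp (de + μ * w ^ 2) :=
      Real.exp_le_exp.2 (by linarith)
    have h6 := mul_le_mul_of_nonneg_right h5 (hq u)
    rw [Real.exp_add] at h6
    linarith

/-- an upper bound of `e^z` from `e^x` and the Taylor polynomial -/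
theorem exp_split {z x E : ℝ} (hE : Real.exp x ≤ E) (h0 : 0 ≤ z - x) (h1 : z - x ≤ 1) :
    Real.exp z ≤ E * (1 + (z - x) + (z - x) ^ 2 / 2 + (z - x) ^ 3 / 6 + (z - x) ^ 4 / 24 +
      (z - x) ^ 5 / 100) := by
  have e : Real.exp z = Real.exp x * Real.exp (z - x) := by
    rw [← Real.exp_add]
    congr 1
    ring
  rw [e]
  exact mul_le_mul hE (ev_exp_p h0 h1) (Real.exp_nonneg _) ((Real.exp_nonneg _).trans hE)


end

end Pool.Agent.TSM
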