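import Pool.Agent.TSM.ExcRules
import Pool.Agent.TSO.PowFour

set_option autoImplicit false

/-!
# An even number `K` of children, finite rule (MP_d27362_co)

As Rule E, but with `(1 + (W - ρ)/K)^K` in place of `exp (W - ρ)`, `ρ ≤ P` the net gain: the pair
`(c, μ)` is much better. The gain and the loss count fully.
-/

namespace Pool.Agent.TSM

open Finset Polynomial
open Pool.Agent.TSP
open Pool.Agent.TSO
open Pool.Agent.TSR (OBr Ker sg_true sg_false vS_nonneg)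
open Pool.Agent.TLT (sg)

noncomputable section

variable {m : ℕ} {S : Fin m → Fin m → ℝ}

/-- **finite rule**, message level: `G` is the counted gain, `P` a bound for it -/
theorem MMaj.manyF (hK : Ker S) {ι : Type} (s : Finset ι) (k : ℕ) (hk : s.card = k) (hk0 : 0 < k)
    (f : ι → Fin m → ℝ) (x y : ι → ℝ[X]) (G0 b c : ι → ℝ)
    (h : ∀ i ∈ s, MMaj S (f i) (x i) (y i) (G0 i) (b i) (c i)) (cq mm G P : ℝ) (hcq : 0 ≤ cq)
    (hG : G ≤ ∑ i ∈ s, G0 i) (hGP : G ≤ P)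
    (hE : ∀ z ρ, ρ ≤ P → 0 ≤ 1 + (st S (∑ i ∈ s, x i) (∑ i ∈ s, y i) z - ρ) / k →
      (1 + (st S (∑ i ∈ s, x i) (∑ i ∈ s, y i) z - ρ) / k) ^ k ≤
      Real.exp (-ρ) * (Real.exp mm * (1 + st S (∑ i ∈ s, x i) (∑ i ∈ s, y i) z +
        cq * st S (∑ i ∈ s, x i) (∑ i ∈ s, y i) z ^ 2))) {b' c' : ℝ}
    (hb : b' ≤ ∑ i ∈ s, b i + G - mm - 2 * cq * en S (∑ i ∈ s, x i) (∑ i ∈ s, y i))
    (hc : 2 * cq * en S (∑ i ∈ s, x i) (∑ i ∈ s, y i) ≤ c') :
    Maj S (fun z => ∏ i ∈ s, f i z) (∑ i ∈ s, x i) (∑ i ∈ s, y i) b' c' := by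
  choose! M g hM hg0 hgc hlog hf0 hf using h
  have hkR : (0 : ℝ) < k := by exact_mod_cast hk0
  set x0 := ∑ i ∈ s, x i with hx0
  set y0 := ∑ i ∈ s, y i with hy0
  set gs := ∑ i ∈ s, g i with hgs
  have hgs0 : 0 ≤ gs := sum_nonneg hg0
  have hPp : 0 < ∏ i ∈ s, M i := prod_pos hM
  set W := st S x0 y0 with hW
  have hmG : 2 * (mn fun z => cq * W z ^ 2) = 2 * cq * en S x0 y0 := by
    have e1 : (fun z => cq * W z ^ 2) = fun z => cq * (W z * W z) := by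
      funext z; ring
    rw [e1, mn_mul, ← ip_st_self hK.anti]
    have : (mn fun z => W z * W z) = ip (st S x0 y0) (st S x0 y0) := rfl
    rw [this]
    ring
  refine ⟨(∏ i ∈ s, M i) * (Real.exp (-(G - gs)) * Real.exp mm), fun z => cq * W z ^ 2,
    by positivity, fun z => by positivity, fun z => ?_, ?_, ?_⟩
  · have ha : ∀ i ∈ s, 0 ≤ 1 + (-(G0 i - g i)) + st S (x i) (y i) z := by
      intro i hi
      have h1 := (hf0 i hi z).trans (hf i hi z)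
      by_contra h
      push Not at h
      have := mul_neg_of_pos_of_neg (hM i hi) (show 1 - (G0 i - g i) + st S (x i) (y i) z < 0 by
        linarith)
      linarith
    have h1 : ∏ i ∈ s, f i z ≤ (∏ i ∈ s, M i) * ∏ i ∈ s, (1 + (-(G0 i - g i)) +
        st S (x i) (y i) z) := by
      rw [← prod_mul_distrib]
      refine prod_le_prod (fun i hi => hf0 i hi z) (fun i hi => (hf i hi z).trans (le_of_eq ?_))
      ring
    have h2 := TSO.amgm s (fun i => 1 + (-(G0 i - g i)) + st S (x i) (y i) z) ha k hk hk0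
    have hsum : (∑ i ∈ s, (1 + (-(G0 i - g i)) + st S (x i) (y i) z)) / k =
        1 + (W z - (∑ i ∈ s, G0 i - gs)) / k := by
      rw [sum_add_distrib, sum_add_distrib, sum_neg_distrib, sum_sub_distrib, sum_const, hk,
        nsmul_eq_mul, hW, hx0, hy0, st_sum]
      simp only [Finset.sum_apply]
      field_simp
      ring
    have hnn : 0 ≤ 1 + (W z - (∑ i ∈ s, G0 i - gs)) / k := by
      rw [← hsum]
      exact div_nonneg (sum_nonneg ha) hkR.le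
    rw [hsum] at h2
    have hle : 1 + (W z - (∑ i ∈ s, G0 i - gs)) / k ≤ 1 + (W z - (G - gs)) / k := by
      have : (W z - (∑ i ∈ s, G0 i - gs)) / k ≤ (W z - (G - gs)) / k :=
        div_le_div_of_nonneg_right (by linarith) hkR.le
      linarith
    have h3 : ∏ i ∈ s, (1 + (-(G0 i - g i)) + st S (x i) (y i) z) ≤
        (1 + (W z - (G - gs)) / k) ^ k := h2.trans (pow_le_pow_left₀ hnn hle k)
    have h4 := hE z (G - gs) (by linarith) (hnn.trans hle)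
    calc ∏ i ∈ s, f i z ≤ (∏ i ∈ s, M i) * (Real.exp (-(G - gs)) *
          (Real.exp mm * (1 + W z + cq * W z ^ 2))) :=
          h1.trans (mul_le_mul_of_nonneg_left (h3.trans h4) hPp.le)
      _ = _ := by ring
  · rw [hmG, Real.log_mul hPp.ne' (by positivity), ← Real.exp_add, Real.log_exp,
      Real.log_prod (fun i hi => (hM i hi).ne')]
    have h4 : ∑ i ∈ s, Real.log (M i) + gs ≤ - ∑ i ∈ s, b i := by
      rw [hgs, ← sum_add_distrib, ← sum_neg_distrib]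
      exact sum_le_sum hlog
    linarith
  · rw [hmG]
    exact hc

/-- finite rule in the excess form: the excesses of the children are absorbed by the bank -/
theorem MMajE.manyF (hK : Ker S) {ι : Type} (s : Finset ι) (k : ℕ) (hk : s.card = k)
    (hk0 : 0 < k) (f : ι → Fin m → ℝ) (x y : ι → ℝ[X]) (G0 b c : ι → ℝ) {χ : ℝ} (hχ : 0 ≤ χ)
    (h : ∀ i ∈ s, MMajE S (f i) (x i) (y i) (G0 i) χ (b i) (c i)) (cq mm G P : ℝ) (hcq : 0 ≤ cq)
    (hG : G ≤ ∑ i ∈ s, G0 i) (hGP : G ≤ P)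
    (hE : ∀ z ρ, ρ ≤ P → 0 ≤ 1 + (st S (∑ i ∈ s, x i) (∑ i ∈ s, y i) z - ρ) / k →
      (1 + (st S (∑ i ∈ s, x i) (∑ i ∈ s, y i) z - ρ) / k) ^ k ≤
      Real.exp (-ρ) * (Real.exp mm * (1 + st S (∑ i ∈ s, x i) (∑ i ∈ s, y i) z +
        cq * st S (∑ i ∈ s, x i) (∑ i ∈ s, y i) z ^ 2))) {b' c' : ℝ}
    (hb : b' ≤ ∑ i ∈ s, b i + G - mm - 2 * cq * en S (∑ i ∈ s, x i) (∑ i ∈ s, y i))
    (hc : 2 * cq * en S (∑ i ∈ s, x i) (∑ i ∈ s, y i) ≤ c') :
    Maj S (fun z => ∏ i ∈ s, f i z) (∑ i ∈ s, x i) (∑ i ∈ s, y i) b' c' := by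
  choose! e he h1 using h
  refine MMaj.manyF hK s k hk hk0 f x y G0 (fun i => b i + χ * e i) (fun i => c i + e i) h1 cq mm
    G P hcq hG hGP hE ?_ hc
  rw [sum_add_distrib, ← mul_sum]
  have := mul_nonneg hχ (sum_nonneg he)
  linarith

/-- **an even number of children** (`Σ σ = 0`), finite rule, excess form -/
theorem GoodE.evenF {χ : ℝ → ℝ} (hχ : ∀ D, RD D → 0 ≤ χ D) {K : ℕ} (hK0 : 0 < K)
    (O : Fin K → OBr) (σ e : Fin K → Bool) (V c : Fin K → ℝ → ℝ → ℝ)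
    (h : ∀ i, GoodE χ (O i) (V i) (c i)) (hτ : ∑ i, sg (σ i) = 0) (cq μ P : ℝ) (hcq : 0 ≤ cq)
    (hμ : 0 ≤ μ)
    (hexp : ∀ ρ u w : ℝ, ρ ≤ P → u ≤ w → 0 ≤ 1 + (u - ρ) / K →
      (1 + (u - ρ) / K) ^ K ≤ Real.exp (-ρ) * (Real.exp (μ * w ^ 2) * (1 + u + cq * u ^ 2)))
    (hquad : ∀ u : ℝ, 0 ≤ 1 + u + cq * u ^ 2)
    (l rr : ℝ → ℝ) (hl : ∀ D, RD D → 0 < l D) (hrr : ∀ D, RD D → rr D * D ≤ P)
    (g : ℝ → ℝ → ℝ)
    (hg : ∀ D, RD D → ILe D (g D) (fun a => ∑ i, sg (e i) * (XX (O i)).eval a))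
    (hgr : ∀ D, RD D → ILe D (g D) (fun _ => rr D)) {V' c' : ℝ → ℝ → ℝ}
    (hb : ∀ D, RD D → ILe D (V' D) (fun a => ∑ i, V i D a + g D a -
      μ * ((1 + l D) + (1 + 1 / l D) * D) * ((∑ i, sg (e i) * (XX (O i)).eval a) ^ 2 +
        a * (∑ i, sg (σ i) * (YY (O i)).eval a) ^ 2) -
      2 * cq * (a ^ 2 * (∑ i, sg (σ i) * (YY (O i)).eval a) ^ 2 +
        a * (∑ i, sg (e i) * (XX (O i)).eval a) ^ 2)))
    (hc : ∀ D, RD D → ILe D (fun a => 2 * cq * (a ^ 2 * (∑ i, sg (σ i) * (YY (O i)).eval a) ^ 2 +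
        a * (∑ i, sg (e i) * (XX (O i)).eval a) ^ 2)) (c' D)) :
    GoodE χ (fam σ e O) V' c' := by
  intro m S hS w t hR
  have hRD : RD (dee S) := ⟨hR.dee_nonneg, hR.dee_le⟩
  have hM : ∀ i ∈ (Finset.univ : Finset (Fin K)), MMajE S (ms S (cn (σ i) (e i) (O i)))
      (sg (σ i) • (1 - X * YY (O i))) (sg (e i) • XX (O i))
      (nu w t fun a => sg (e i) * (XX (O i)).eval a) (χ (dee S)) (nu w t (V i (dee S)))
      (nu w t (c i (dee S))) := fun i _ => (h i).msg (σ i) (e i) hS hR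
  rw [fam_vS, fam_XX, fam_YY]
  set U' := ∑ i, sg (σ i) • YY (O i) with hU'
  set y' := ∑ i, sg (e i) • XX (O i) with hy'
  have hx' : ∑ i, sg (σ i) • (1 - X * YY (O i)) = C 0 - X * U' := by
    have h1 : ∀ i : Fin K, sg (σ i) • (1 - X * YY (O i)) =
        C (sg (σ i)) - X * (sg (σ i) • YY (O i)) := by
      intro i
      rw [smul_sub, smul_eq_C_mul, mul_one, mul_smul_comm]
    rw [Finset.sum_congr rfl fun i _ => h1 i, Finset.sum_sub_distrib, ← Finset.mul_sum,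
      ← map_sum, hτ]
  have hUe : ∀ a, U'.eval a = ∑ i, sg (σ i) * (YY (O i)).eval a := by
    intro a
    rw [hU', eval_finsetSum]
    exact Finset.sum_congr rfl fun i _ => by rw [eval_smul, smul_eq_mul]
  have hye : ∀ a, y'.eval a = ∑ i, sg (e i) * (XX (O i)).eval a := by
    intro a
    rw [hy', eval_finsetSum]
    exact Finset.sum_congr rfl fun i _ => by rw [eval_smul, smul_eq_mul]
  have hen : en S (∑ i, sg (σ i) • (1 - X * YY (O i))) y' =
      nu w t fun a => a ^ 2 * U'.eval a ^ 2 + a * y'.eval a ^ 2 := by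
    rw [hx', hR.en_nu]
    congr 1
    funext a
    simp only [eval_sub, eval_C, eval_mul, eval_X]
    ring
  have hen2 : en2 S U' y' = nu w t fun a => y'.eval a ^ 2 + a * U'.eval a ^ 2 := by
    unfold en2
    rw [hR.mo_nu]
    congr 1
    funext a
    simp only [eval_add, eval_mul, eval_X]
    ring
  set ψ := (1 + l (dee S)) + (1 + 1 / l (dee S)) * dee S with hψ
  have hlD := hl _ hRD
  have hsup := sup_sq_le hS U' y' (l (dee S)) hlD
  have hG1 : nu w t (g (dee S)) ≤ ∑ i, (nu w t fun a => sg (e i) * (XX (O i)).eval a) := by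
    rw [← nu_finset_sum]
    exact hg _ hRD m S hS w t hR rfl
  have hGP : nu w t (g (dee S)) ≤ P := by
    have := hgr _ hRD m S hS w t hR rfl
    rw [hR.nu_const] at this
    exact this.trans (hrr _ hRD)
  refine (MMajE.manyF hS Finset.univ K (by simp) hK0 _ _ _ _ _ _ (hχ _ hRD) hM cq
    (μ * ψ * en2 S U' y') (nu w t (g (dee S))) P hcq hG1 hGP ?_ ?_ ?_).toE _
  · intro z ρ hρ hnn
    rw [hx', ← hy'] at hnn ⊢
    have h1 := st_sup hS 0 U' y' z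
    rw [show (0 : ℝ) ^ 2 + en2 S U' y' = en2 S U' y' by ring] at h1
    refine (hexp _ _ _ hρ h1 hnn).trans ?_
    refine mul_le_mul_of_nonneg_left ?_ (Real.exp_nonneg _)
    refine mul_le_mul_of_nonneg_right (Real.exp_le_exp.2 ?_) (hquad _)
    have h5 := mul_le_mul_of_nonneg_left hsup hμ
    rw [← hψ] at h5
    linarith
  · have h1 := hb _ hRD m S hS w t hR rfl
    have h2 : (nu w t fun a => ∑ i, V i (dee S) a + g (dee S) a -
      μ * ((1 + l (dee S)) + (1 + 1 / l (dee S)) * dee S) *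
        ((∑ i, sg (e i) * (XX (O i)).eval a) ^ 2 +
        a * (∑ i, sg (σ i) * (YY (O i)).eval a) ^ 2) -
      2 * cq * (a ^ 2 * (∑ i, sg (σ i) * (YY (O i)).eval a) ^ 2 +
        a * (∑ i, sg (e i) * (XX (O i)).eval a) ^ 2)) =
        ∑ i, nu w t (V i (dee S)) + nu w t (g (dee S)) -
          μ * ψ * en2 S U' y' - 2 * cq * en S (∑ i, sg (σ i) • (1 - X * YY (O i))) y' := by
      rw [hen, hen2, nu_sub, nu_sub, nu_add, nu_finset_sum, nu_mul, nu_mul]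
      simp only [hUe, hye]
      rfl
    rw [h2] at h1
    exact h1
  · have h1 := hc _ hRD m S hS w t hR rfl
    rw [nu_mul] at h1
    rw [← hy', hen]
    simp only [hUe, hye]
    exact h1

/-- `K = 4`, `(c, μ) = (7/10, 1/50)`, `P = 2/3`: hypothesis `hexp` of `GoodE.evenF` -/
theorem hexp_four_a (ρ u w : ℝ) (hρ : ρ ≤ 2 / 3) (hu : u ≤ w)
    (h0 : 0 ≤ 1 + (u - ρ) / ((4 : ℕ) : ℝ)) :
    (1 + (u - ρ) / ((4 : ℕ) : ℝ)) ^ 4 ≤
      Real.exp (-ρ) * (Real.exp (1 / 50 * w ^ 2) * (1 + u + 7 / 10 * u ^ 2)) := by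
  rw [Nat.cast_ofNat] at h0 ⊢
  exact pow_four_a ρ u w hρ hu h0

/-- `K = 4`, `(c, μ) = (3/5, 17/500)`, `P = 2/3`: hypothesis `hexp` of `GoodE.evenF` -/
theorem hexp_four_b (ρ u w : ℝ) (hρ : ρ ≤ 2 / 3) (hu : u ≤ w)
    (h0 : 0 ≤ 1 + (u - ρ) / ((4 : ℕ) : ℝ)) :
    (1 + (u - ρ) / ((4 : ℕ) : ℝ)) ^ 4 ≤
      Real.exp (-ρ) * (Real.exp (17 / 500 * w ^ 2) * (1 + u + 3 / 5 * u ^ 2)) := by
  rw [Nat.cast_ofNat] at h0 ⊢
  exact pow_four_b ρ u w hρ hu h0

end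

end Pool.Agent.TSM
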