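import Pool.Agent.TSM.Left
import Pool.Agent.TSM.EvenF

set_option autoImplicit false

/-!
# An odd number of children: one child is split off, tree level (MP_d27362_co)
-/

namespace Pool.Agent.TSM

open Finset Polynomial
open Pool.Agent.TSP
open Pool.Agent.TSO
open Pool.Agent.TSR (OBr Ker sg_true sg_false vS_nonneg)
open Pool.Agent.TLT (sg)

noncomputable section

/-! ### the rest of the children -/

/-- the constants of the rest of `k` children; `N ρ` is the factor of the net gain `ρ`, `P` the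
cap of the gain, `η` the factor of the gain and `1 + sR` the factor of the loss -/
structure RestC (k : ℕ) (P c μ η sR : ℝ) (N : ℝ → ℝ) : Prop where
  hc : 1 / 4 ≤ c
  hμ : 0 ≤ μ
  hη1 : η ≤ 1
  hs0 : 0 ≤ sR
  hN0 : ∀ ρ, ρ ≤ P → 0 < N ρ
  hE : ∀ ρ u w : ℝ, ρ ≤ P → u ≤ w → 0 ≤ w → 0 ≤ 1 + (u - ρ) / k →
    (1 + (u - ρ) / k) ^ k ≤ N ρ * (Real.exp (μ * w ^ 2) * (1 + u + c * u ^ 2))
  hgain : ∀ ρ, 0 ≤ ρ → ρ ≤ P → Real.log (N ρ) ≤ - (η * ρ)
  hloss : ∀ r, 0 ≤ r → Real.log (N (-r)) ≤ (1 + sR) * r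

/-- Rule E and the finite rules with full gain and full loss -/
theorem RestC.full {k : ℕ} {P c μ : ℝ} (hc : 1 / 4 ≤ c) (hμ : 0 ≤ μ)
    (hexp : ∀ ρ u w : ℝ, ρ ≤ P → u ≤ w → 0 ≤ 1 + (u - ρ) / k →
      (1 + (u - ρ) / k) ^ k ≤ Real.exp (-ρ) * (Real.exp (μ * w ^ 2) * (1 + u + c * u ^ 2))) :
    RestC k P c μ 1 0 (fun ρ => Real.exp (-ρ)) where
  hc := hc
  hμ := hμ
  hη1 := le_rfl
  hs0 := le_rfl
  hN0 := fun ρ _ => Real.exp_pos _
  hE := fun ρ u w h1 h2 _ h3 => hexp ρ u w h1 h2 h3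
  hgain := fun ρ _ _ => by rw [Real.log_exp, one_mul]
  hloss := fun r _ => by rw [Real.log_exp]; linarith

/-- Rule E -/
theorem RestC.ruleE {k : ℕ} (hk : 0 < k) {c μ : ℝ} (P : ℝ) (hc : 1 / 4 ≤ c) (hμ : 0 ≤ μ)
    (hexp : ∀ u w : ℝ, u ≤ w → Real.exp u ≤ Real.exp (μ * w ^ 2) * (1 + u + c * u ^ 2)) :
    RestC k P c μ 1 0 (fun ρ => Real.exp (-ρ)) := by
  refine RestC.full hc hμ (fun ρ u w _ h2 h3 => ?_)
  have hkR : (0 : ℝ) < k := by exact_mod_cast hk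
  have h4 : (1 + (u - ρ) / k) ^ k ≤ Real.exp (u - ρ) := by
    have h5 : 1 + (u - ρ) / k ≤ Real.exp ((u - ρ) / k) := by
      have := Real.add_one_le_exp ((u - ρ) / k)
      linarith
    calc (1 + (u - ρ) / k) ^ k ≤ Real.exp ((u - ρ) / k) ^ k := pow_le_pow_left₀ h3 h5 k
      _ = Real.exp (u - ρ) := by
        rw [← Real.exp_nat_mul]
        congr 1
        field_simp
  calc (1 + (u - ρ) / k) ^ k ≤ Real.exp (-ρ) * Real.exp u := by
        rw [← Real.exp_add]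
        refine h4.trans (le_of_eq ?_)
        congr 1
        ring
    _ ≤ _ := mul_le_mul_of_nonneg_left (hexp u w h2) (Real.exp_nonneg _)

/-- a pair -/
theorem RestC.pair {P c κ η sR : ℝ} (hc : 1 / 4 ≤ c) (hκ : 1 / 4 < κ) (hκc : κ ≤ c * (4 * κ - 1))
    (hη1 : η ≤ 1) (hs0 : 0 ≤ sR)
    (hgain : ∀ ρ, 0 ≤ ρ → ρ ≤ P → 1 - ρ + κ * ρ ^ 2 ≤ Real.exp (-(η * ρ)))
    (hloss : ∀ r, 0 ≤ r → Real.log (1 + r + κ * r ^ 2) ≤ (1 + sR) * r) :
    RestC 2 P c 0 η sR (fun ρ => 1 - ρ + κ * ρ ^ 2) where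
  hc := hc
  hμ := le_rfl
  hη1 := hη1
  hs0 := hs0
  hN0 := fun ρ _ => by
    have h1 : 4 * (1 - ρ + κ * ρ ^ 2) = (ρ - 2) ^ 2 + (4 * κ - 1) * ρ ^ 2 := by ring
    rcases eq_or_ne ρ 0 with h | h
    · rw [h]; norm_num
    · have h2 : 0 < (4 * κ - 1) * ρ ^ 2 := mul_pos (by linarith) (by positivity)
      have := sq_nonneg (ρ - 2)
      linarith
  hE := fun ρ u w _ _ _ _ => by
    have h4 : 0 < 4 * κ - 1 := by linarith
    rw [zero_mul, Real.exp_zero, one_mul]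
    have e : (4 * κ - 1) * ((1 - ρ + κ * ρ ^ 2) * (1 + u + c * u ^ 2) -
        (1 + (u - ρ) / ((2 : ℕ) : ℝ)) ^ 2) = (1 / 2 * (4 * κ - 1) * ρ - (1 / 2 - κ * ρ) * u) ^ 2 +
        (1 - ρ + κ * ρ ^ 2) * u ^ 2 * (c * (4 * κ - 1) - κ) := by
      push_cast
      ring
    have hN : 0 ≤ 1 - ρ + κ * ρ ^ 2 := by nlinarith [sq_nonneg (ρ - 2), sq_nonneg ρ]
    have h5 : 0 ≤ (4 * κ - 1) * ((1 - ρ + κ * ρ ^ 2) * (1 + u + c * u ^ 2) -
        (1 + (u - ρ) / ((2 : ℕ) : ℝ)) ^ 2) := by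
      rw [e]
      have h6 : 0 ≤ (1 - ρ + κ * ρ ^ 2) * u ^ 2 * (c * (4 * κ - 1) - κ) :=
        mul_nonneg (mul_nonneg hN (sq_nonneg u)) (by linarith)
      have := sq_nonneg (1 / 2 * (4 * κ - 1) * ρ - (1 / 2 - κ * ρ) * u)
      linarith
    have h7 := nonneg_of_mul_nonneg_right h5 h4
    linarith
  hgain := fun ρ h0 h1 => by
    have hN : 0 < 1 - ρ + κ * ρ ^ 2 := by
      rcases eq_or_ne ρ 0 with h | h
      · rw [h]; norm_num
      · have h2 : 0 < (4 * κ - 1) * ρ ^ 2 := mul_pos (by linarith) (by positivity)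
        nlinarith [sq_nonneg (ρ - 2)]
    rw [Real.log_le_iff_le_exp hN]
    exact hgain ρ h0 h1
  hloss := fun r hr => by
    have : 1 - -r + κ * (-r) ^ 2 = 1 + r + κ * r ^ 2 := by ring
    rw [this]
    exact hloss r hr

/-- `1 + r + κ r² ≤ e^{(1+s) r}` by a discriminant -/
theorem log_quad_le {κ s : ℝ} (hs : 0 ≤ s)
    (hd : (κ - (1 + s) ^ 2 / 2) ^ 2 ≤ 2 / 3 * s * (1 + s) ^ 3) (hκ : 0 ≤ κ) (r : ℝ)
    (hr : 0 ≤ r) : Real.log (1 + r + κ * r ^ 2) ≤ (1 + s) * r := by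
  have hp : 0 < 1 + r + κ * r ^ 2 := by positivity
  rw [Real.log_le_iff_le_exp hp]
  have h1 := Real.sum_le_exp_of_nonneg (show 0 ≤ (1 + s) * r by positivity) 4
  simp only [Finset.sum_range_succ, Finset.sum_range_zero, Nat.factorial] at h1
  norm_num at h1
  refine le_trans ?_ h1
  have h3 : 0 < 2 / 3 * (1 + s) ^ 3 := by positivity
  have e1 : 2 / 3 * (1 + s) ^ 3 * (s + ((1 + s) ^ 2 / 2 - κ) * r + (1 + s) ^ 3 / 6 * r ^ 2) =
      ((1 + s) ^ 3 / 3 * r + ((1 + s) ^ 2 / 2 - κ)) ^ 2 +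
      (2 / 3 * s * (1 + s) ^ 3 - (κ - (1 + s) ^ 2 / 2) ^ 2) := by ring
  have h4 : 0 ≤ 2 / 3 * (1 + s) ^ 3 * (s + ((1 + s) ^ 2 / 2 - κ) * r +
      (1 + s) ^ 3 / 6 * r ^ 2) := by
    rw [e1]
    have := sq_nonneg ((1 + s) ^ 3 / 3 * r + ((1 + s) ^ 2 / 2 - κ))
    linarith
  have h5 := nonneg_of_mul_nonneg_right h4 h3
  have h6 := mul_nonneg hr h5
  nlinarith

/-- a pair, numeric conditions -/
theorem RestC.pairN {P c κ η sR : ℝ} (hc : 1 / 4 ≤ c) (hκ : 1 / 4 < κ)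
    (hκc : κ ≤ c * (4 * κ - 1)) (hη0 : 0 ≤ η) (hη1 : η ≤ 1) (hκη : η ^ 2 / 2 ≤ κ)
    (hηP : η * P ≤ 1) (hη : (κ - η ^ 2 / 2) * P + η ^ 3 * P ^ 2 / 6 ≤ 1 - η) (hs0 : 0 ≤ sR)
    (hd : (κ - (1 + sR) ^ 2 / 2) ^ 2 ≤ 2 / 3 * sR * (1 + sR) ^ 3) :
    RestC 2 P c 0 η sR (fun ρ => 1 - ρ + κ * ρ ^ 2) :=
  RestC.pair hc hκ hκc hη1 hs0
    (fun ρ h0 h1 => exp_crit _ _ _ ρ hη0 hκη hηP h0 h1 hη)
    (log_quad_le hs0 hd (by linarith))

variable {m : ℕ} {S : Fin m → Fin m → ℝ}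

/-- the rest of the children, message level -/
theorem MMajE.rest {ι : Type} (s : Finset ι) (k : ℕ) (hk : s.card = k)
    (hk0 : 0 < k) (f : ι → Fin m → ℝ) (x y : ι → ℝ[X]) (G0 b c : ι → ℝ) {χ : ℝ}
    (h : ∀ i ∈ s, MMajE S (f i) (x i) (y i) (G0 i) χ (b i) (c i)) {P cq μ η sR : ℝ}
    {N : ℝ → ℝ} (hC : RestC k P cq μ η sR N) (hsχ : sR ≤ χ) (w0 G : ℝ) (hw0 : 0 ≤ w0)
    (hsup : ∀ z, st S (∑ i ∈ s, x i) (∑ i ∈ s, y i) z ≤ w0) (hG : G ≤ ∑ i ∈ s, G0 i)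
    (hGP : G ≤ P) {bR : ℝ} (hb1 : bR ≤ ∑ i ∈ s, b i + η * G - μ * w0 ^ 2)
    (hb2 : bR ≤ ∑ i ∈ s, b i + G - sR * (∑ i ∈ s, c i - G) - μ * w0 ^ 2) :
    RMaj S (fun z => ∏ i ∈ s, f i z) (∑ i ∈ s, x i) (∑ i ∈ s, y i) cq bR := by
  choose! e he h1 using h
  choose! M g hM hg0 hgc hlog hf0 hf using h1
  have hkR : (0 : ℝ) < k := by exact_mod_cast hk0
  set x0 := ∑ i ∈ s, x i with hx0
  set y0 := ∑ i ∈ s, y i with hy0
  set gs := ∑ i ∈ s, g i with hgs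
  set es := ∑ i ∈ s, e i with hes
  have hgs0 : 0 ≤ gs := sum_nonneg hg0
  have hes0 : 0 ≤ es := sum_nonneg he
  have hgsc : gs ≤ ∑ i ∈ s, c i + es := by
    rw [hes, ← sum_add_distrib]
    exact sum_le_sum hgc
  have hlogs : ∑ i ∈ s, Real.log (M i) + gs ≤ - (∑ i ∈ s, b i + χ * es) := by
    rw [hgs, ← sum_add_distrib, hes, mul_sum, ← sum_add_distrib, ← sum_neg_distrib]
    exact sum_le_sum hlog
  have hPp : 0 < ∏ i ∈ s, M i := prod_pos hM
  set W := st S x0 y0 with hW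
  have hρP : G - gs ≤ P := by linarith
  have hN0 := hC.hN0 (G - gs) hρP
  -- the AM-GM bound
  have hamgm : ∀ z, 0 ≤ 1 + (W z - (G - gs)) / k ∧
      ∏ i ∈ s, f i z ≤ (∏ i ∈ s, M i) * (1 + (W z - (G - gs)) / k) ^ k := by
    intro z
    have ha : ∀ i ∈ s, 0 ≤ 1 + (-(G0 i - g i)) + st S (x i) (y i) z := by
      intro i hi
      have h1 := (hf0 i hi z).trans (hf i hi z)
      by_contra h
      push Not at h
      have := mul_neg_of_pos_of_neg (hM i hi) (show 1 - (G0 i - g i) + st S (x i) (y i) z < 0 by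
        linarith)
      linarith
    have h1 : ∏ i ∈ s, f i z ≤ (∏ i ∈ s, M i) * ∏ i ∈ s, (1 + (-(G0 i - g i)) +
        st S (x i) (y i) z) := by
      rw [← prod_mul_distrib]
      refine prod_le_prod (fun i hi => hf0 i hi z) (fun i hi => (hf i hi z).trans (le_of_eq ?_))
      ring
    have h2 := TSO.amgm s (fun i => 1 + (-(G0 i - g i)) + st S (x i) (y i) z) ha k hk hk0
    have hsum : (∑ i ∈ s, (1 + (-(G0 i - g i)) + st S (x i) (y i) z)) / k =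
        1 + (W z - (∑ i ∈ s, G0 i - gs)) / k := by
      rw [sum_add_distrib, sum_add_distrib, sum_neg_distrib, sum_sub_distrib, sum_const, hk,
        nsmul_eq_mul, hW, hx0, hy0, st_sum]
      simp only [Finset.sum_apply]
      field_simp
      ring
    have hnn : 0 ≤ 1 + (W z - (∑ i ∈ s, G0 i - gs)) / k := by
      rw [← hsum]
      exact div_nonneg (sum_nonneg ha) hkR.le
    rw [hsum] at h2
    have hle : 1 + (W z - (∑ i ∈ s, G0 i - gs)) / k ≤ 1 + (W z - (G - gs)) / k := by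
      have : (W z - (∑ i ∈ s, G0 i - gs)) / k ≤ (W z - (G - gs)) / k :=
        div_le_div_of_nonneg_right (by linarith) hkR.le
      linarith
    exact ⟨hnn.trans hle, h1.trans (mul_le_mul_of_nonneg_left
      (h2.trans (pow_le_pow_left₀ hnn hle k)) hPp.le)⟩
  refine ⟨(∏ i ∈ s, M i) * (N (G - gs) * Real.exp (μ * w0 ^ 2)), by positivity, ?_,
    fun z => prod_nonneg fun i hi => hf0 i hi z, fun z => ?_, fun z hz => ?_⟩
  · rw [Real.log_mul hPp.ne' (by positivity), Real.log_mul hN0.ne' (Real.exp_pos _).ne',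
      Real.log_exp, Real.log_prod (fun i hi => (hM i hi).ne')]
    rcases le_total gs G with hρ | hρ
    · have h2 := hC.hgain (G - gs) (by linarith) hρP
      have h3 : η * gs ≤ gs := mul_le_of_le_one_left hgs0 hC.hη1
      have h4 : η * (G - gs) = η * G - η * gs := by ring
      have h5 : 0 ≤ χ * es := mul_nonneg (hC.hs0.trans hsχ) hes0
      linarith
    · have h2 := hC.hloss (gs - G) (by linarith)
      have e1 : -(gs - G) = G - gs := by ring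
      rw [e1] at h2
      have h3 : gs - G ≤ (∑ i ∈ s, c i - G) + es := by linarith
      have h4 := mul_le_mul_of_nonneg_left h3 hC.hs0
      have h5 := mul_le_mul_of_nonneg_right hsχ hes0
      linarith
  · obtain ⟨hn, hle⟩ := hamgm z
    have h3 := hC.hE (G - gs) (W z) w0 hρP (hsup z) hw0 hn
    calc ∏ i ∈ s, f i z ≤ (∏ i ∈ s, M i) * (N (G - gs) *
          (Real.exp (μ * w0 ^ 2) * (1 + W z + cq * W z ^ 2))) :=
          hle.trans (mul_le_mul_of_nonneg_left h3 hPp.le)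
      _ = _ := by ring
  · obtain ⟨hn, hle⟩ := hamgm z
    have h4 : 1 + (W z - (G - gs)) / k ≤ 1 + (-1 - (G - gs)) / k := by
      have : (W z - (G - gs)) / k ≤ (-1 - (G - gs)) / k :=
        div_le_div_of_nonneg_right (by linarith) hkR.le
      linarith
    have h3 := hC.hE (G - gs) (-1) w0 hρP (by linarith) hw0 (hn.trans h4)
    calc ∏ i ∈ s, f i z ≤ (∏ i ∈ s, M i) * (N (G - gs) *
          (Real.exp (μ * w0 ^ 2) * (1 + -1 + cq * (-1) ^ 2))) :=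
          hle.trans (mul_le_mul_of_nonneg_left
            ((pow_le_pow_left₀ hn h4 k).trans h3) hPp.le)
      _ = _ := by ring

/-! ### the tree level -/

/-- the message of a good child, with its cap -/
theorem GoodE.msgC {χ : ℝ → ℝ} {O : OBr} {V c : ℝ → ℝ → ℝ} (h : GoodE χ O V c) (σ e : Bool)
    {m : ℕ} {S : Fin m → Fin m → ℝ} (hS : Ker S) {w t : Fin m → ℝ} (hR : Rep S w t) :
    ∃ ex : ℝ, 0 ≤ ex ∧ MMajC S (ms S (cn σ e O)) (sg σ • (1 - X * YY O)) (sg e • XX O)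
      (nu w t fun a => sg e * (XX O).eval a) (nu w t (V (dee S)) + χ (dee S) * ex)
      (nu w t (c (dee S)) + ex) := by
  have hG : GoodE χ (cn σ e O).2 V c := by
    unfold cn
    dsimp only
    split_ifs
    · exact h
    · exact h.rev
  obtain ⟨ex, hex, h1⟩ := hG m S hS w t hR
  refine ⟨ex, hex, ?_⟩
  have h1 := h1.msgC hS (fun i => vS_nonneg hS _ i) (sg σ) (sg_or σ)
  rw [cn_YY, cn_XX] at h1
  rw [ms_eq_msg, cn_fst]
  have h2 : sg σ * mo S (XX (cn σ e O).2) = nu w t fun a => sg e * (XX O).eval a := by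
    rw [← mo_smul, cn_XX, mo_smul, hR.mo_nu, nu_mul]
  rw [h2] at h1
  exact h1

/-- the mixed moment of the split child (`x_L`, `y_L`) and the rest (`U₂`, `y₂`) -/
def lcr (xL yL U2 y2 : ℝ → ℝ) (a : ℝ) : ℝ := -(a * (1 - a * yL a) * U2 a) + a * (xL a * y2 a)

/-- the second moment of the split child -/
def ldl (xL yL : ℝ → ℝ) (a : ℝ) : ℝ := (1 - a * yL a) ^ 2 + a * xL a ^ 2

/-- the second moment of the rest -/
def lq2 (U2 y2 : ℝ → ℝ) (a : ℝ) : ℝ := a ^ 2 * U2 a ^ 2 + a * y2 a ^ 2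

/-- the sup bound of the rest -/
def le2 (U2 y2 : ℝ → ℝ) (a : ℝ) : ℝ := y2 a ^ 2 + a * U2 a ^ 2

/-- the constants of the rule which splits off one child; `P` is the cap of its gain -/
structure LeftC (P χ0 τ ω ϑ ν B1 B2 : ℝ) : Prop where
  hτ : 0 < τ
  hω0 : 0 ≤ ω
  hν : 1 + P ^ 2 / 4 ≤ ν
  hω : 1 ≤ ω * (1 - (1 - χ0 ^ 2) * P)
  hϑ : ω * τ * χ0 ^ 4 * P / 2 ≤ ϑ
  hB1 : 2 * ω ≤ B1
  hB1' : 2 + P ≤ B1
  hB2 : 2 + P ≤ B2

/-- a smaller cap -/
theorem LeftC.mono {P P' χ0 τ ω ϑ ν B1 B2 : ℝ} (h : LeftC P χ0 τ ω ϑ ν B1 B2) (h0 : 0 ≤ P')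
    (hP : P' ≤ P) (hχ0 : 0 ≤ χ0) (hχ1 : χ0 ≤ 1) : LeftC P' χ0 τ ω ϑ ν B1 B2 where
  hτ := h.hτ
  hω0 := h.hω0
  hν := by
    have h1 := pow_le_pow_left₀ h0 hP 2
    have := h.hν
    linarith
  hω := by
    have h1 : χ0 ^ 2 ≤ 1 := pow_le_one₀ hχ0 hχ1
    have h2 : (1 - χ0 ^ 2) * P' ≤ (1 - χ0 ^ 2) * P := mul_le_mul_of_nonneg_left hP (by linarith)
    have h3 := mul_le_mul_of_nonneg_left
      (show 1 - (1 - χ0 ^ 2) * P ≤ 1 - (1 - χ0 ^ 2) * P' by linarith) h.hω0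
    exact h.hω.trans h3
  hϑ := by
    refine le_trans ?_ h.hϑ
    have h1 : 0 ≤ ω * τ * χ0 ^ 4 := by
      have := h.hω0
      have := h.hτ
      positivity
    have h2 := mul_le_mul_of_nonneg_left hP h1
    linarith
  hB1 := h.hB1
  hB1' := by have := h.hB1'; linarith
  hB2 := by have := h.hB2; linarith

/-- **one child split off**, for the total mass `D`. The child: gain `xL`, `yL`, potential `VL`,
pending cost `cL`. The rest of `k` children: gain `y2`, `U2`, sum of the potentials `VR`, sum of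
the pending costs `cR` -/
def LfE (χ : ℝ → ℝ) (D : ℝ) (k : ℕ) (xL yL U2 y2 VL cL VR cR V' c' : ℝ → ℝ) : Prop :=
  ∃ D1 χ0 K r κ σ0 s K1 K2 τ ω ϑ ν B1 B2 P c μ η sR l ψ rR : ℝ, ∃ N g Ex gR BR : ℝ → ℝ,
    OneE D D1 χ0 K r κ ∧ LossC D1 σ0 s 1 K1 ∧ LossC D1 σ0 (χ D) (1 + χ D) K2 ∧ s ≤ χ D ∧
    LeftC (r * D) χ0 τ ω ϑ ν B1 B2 ∧ RestC k P c μ η sR N ∧ sR ≤ χ D ∧ 0 < l ∧
    (1 + l) + (1 + 1 / l) * D ≤ ψ ∧ rR * D ≤ P ∧
    ILe D g xL ∧ ILe D g (fun _ => r) ∧ ILe D gR y2 ∧ ILe D gR (fun _ => rR) ∧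
    ILe D (fun _ => 0) Ex ∧ ILe D (ldl xL yL) (fun a => 1 + Ex a) ∧
    ILe D BR (fun a => VR a + η * gR a - μ * ψ * le2 U2 y2 a) ∧
    ILe D BR (fun a => VR a + gR a - sR * (cR a - gR a) - μ * ψ * le2 U2 y2 a) ∧
    ILe D V' (fun a => VL a + BR a + (1 - χ0 - ϑ) * g a - K * Ex a -
      ω * (lcr xL yL U2 y2 a + ν * (τ / 2) * ldl xL yL a + 1 / (2 * τ) * lq2 U2 y2 a) -
      2 * (B1 * c) * lq2 U2 y2 a) ∧
    ILe D V' (fun a => VL a + BR a + (1 - χ0 - ϑ) * g a - K * Ex a -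
      ω * (lcr xL yL U2 y2 a + ν * (τ / 2) * ldl xL yL a + 1 / (2 * τ) * lq2 U2 y2 a) -
      2 * (B1 * c) * lq2 U2 y2 a - χ D * ((κ + ϑ) * g a + ω * (lcr xL yL U2 y2 a +
      ν * (τ / 2) * ldl xL yL a + 1 / (2 * τ) * lq2 U2 y2 a) +
      2 * (B1 * c) * lq2 U2 y2 a - c' a)) ∧
    ILe D V' (fun a => VL a + BR a + g a - s * (cL a - g a) - K1 * Ex a -
      (lcr xL yL U2 y2 a + τ / 2 * ldl xL yL a + 1 / (2 * τ) * lq2 U2 y2 a) -
      2 * (B2 * c) * lq2 U2 y2 a) ∧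
    ILe D V' (fun a => VL a + BR a + g a - χ D * (cL a - g a) - K2 * Ex a + χ D * c' a -
      (1 + χ D) * ((lcr xL yL U2 y2 a + τ / 2 * ldl xL yL a + 1 / (2 * τ) * lq2 U2 y2 a) +
      2 * (B2 * c) * lq2 U2 y2 a))

/-- **an odd number of children**: the child `i0` with `σ i0 = +` is split off -/
theorem GoodE.lf {χ : ℝ → ℝ} {K : ℕ} (O : Fin K → OBr) (σ e : Fin K → Bool)
    (V c : Fin K → ℝ → ℝ → ℝ) (h : ∀ i, GoodE χ (O i) (V i) (c i)) (hK : 2 ≤ K) (i0 : Fin K)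
    (h0 : σ i0 = true) (hτ : ∑ i, sg (σ i) = 1) (xL yL U2 y2 : ℝ → ℝ)
    (hxL : ∀ a, sg (e i0) * (XX (O i0)).eval a = xL a) (hyL : ∀ a, (YY (O i0)).eval a = yL a)
    (hU2 : ∀ a, ∑ i ∈ univ.erase i0, sg (σ i) * (YY (O i)).eval a = U2 a)
    (hy2 : ∀ a, ∑ i ∈ univ.erase i0, sg (e i) * (XX (O i)).eval a = y2 a)
    {V' c' : ℝ → ℝ → ℝ}
    (H : ∀ D, RD D → LfE χ D (K - 1) xL yL U2 y2 (V i0 D) (c i0 D)
      (fun a => ∑ i ∈ univ.erase i0, V i D a) (fun a => ∑ i ∈ univ.erase i0, c i D a)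
      (V' D) (c' D)) : GoodE χ (fam σ e O) V' c' := by
  intro m S hS w t hR
  have hRD : RD (dee S) := ⟨hR.dee_nonneg, hR.dee_le⟩
  obtain ⟨D1, χ0, K0, r, κ, σ0, s, K1, K2, τ, ω, ϑ, ν, B1, B2, P, cc, μ, η, sR, l, ψ, rR, N, g,
    Ex, gR, BR, hOne, hl1, hl2, hsχ, hLC, hRC, hsR, hlp, hψ, hrR, hg, hgr, hgR, hgRr, hE0, hE, hBR1, hBR2,
    hb1, hb1', hb2, hb3⟩ := H (dee S) hRD
  have hM : ∀ i ∈ univ.erase i0, MMajE S (ms S (cn (σ i) (e i) (O i)))
      (sg (σ i) • (1 - X * YY (O i))) (sg (e i) • XX (O i))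
      (nu w t fun a => sg (e i) * (XX (O i)).eval a) (χ (dee S)) (nu w t (V i (dee S)))
      (nu w t (c i (dee S))) := fun i _ => (h i).msg (σ i) (e i) hS hR
  obtain ⟨ex, hex, hL⟩ := (h i0).msgC (σ i0) (e i0) hS hR
  rw [fam_vS, fam_XX, fam_YY]
  have ev : (fun z => ∏ i, ms S (cn (σ i) (e i) (O i)) z) = fun z =>
      ms S (cn (σ i0) (e i0) (O i0)) z * ∏ i ∈ univ.erase i0, ms S (cn (σ i) (e i) (O i)) z := by
    funext z
    exact (mul_prod_erase univ _ (mem_univ i0)).symm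
  rw [ev, ← add_sum_erase univ (fun i => sg (σ i) • (1 - X * YY (O i))) (mem_univ i0),
    ← add_sum_erase univ (fun i => sg (e i) • XX (O i)) (mem_univ i0)]
  have hσs : ∑ i ∈ univ.erase i0, sg (σ i) = 0 := by
    have h1 := add_sum_erase univ (fun i => sg (σ i)) (mem_univ i0)
    rw [hτ, h0, sg_true] at h1
    linarith
  set U' := ∑ i ∈ univ.erase i0, sg (σ i) • YY (O i) with hU'
  set y' := ∑ i ∈ univ.erase i0, sg (e i) • XX (O i) with hy'
  have hx' : ∑ i ∈ univ.erase i0, sg (σ i) • (1 - X * YY (O i)) = C 0 - X * U' := by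
    have h1 : ∀ i : Fin K, sg (σ i) • (1 - X * YY (O i)) =
        C (sg (σ i)) - X * (sg (σ i) • YY (O i)) := by
      intro i
      rw [smul_sub, smul_eq_C_mul, mul_one, mul_smul_comm]
    rw [Finset.sum_congr rfl fun i _ => h1 i, Finset.sum_sub_distrib, ← Finset.mul_sum,
      ← map_sum, hσs]
  have hUe : ∀ a, U'.eval a = U2 a := by
    intro a
    rw [hU', eval_finsetSum, ← hU2]
    exact Finset.sum_congr rfl fun i _ => by rw [eval_smul, smul_eq_mul]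
  have hye : ∀ a, y'.eval a = y2 a := by
    intro a
    rw [hy', eval_finsetSum, ← hy2]
    exact Finset.sum_congr rfl fun i _ => by rw [eval_smul, smul_eq_mul]
  have henR : en S (∑ i ∈ univ.erase i0, sg (σ i) • (1 - X * YY (O i))) y' =
      nu w t (lq2 U2 y2) := by
    rw [hx', hR.en_nu]
    congr 1
    funext a
    simp only [eval_sub, eval_C, eval_mul, eval_X, hUe, hye, lq2]
    ring
  have hen2 : en2 S U' y' = nu w t (le2 U2 y2) := by
    unfold en2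
    rw [hR.mo_nu]
    congr 1
    funext a
    simp only [eval_add, eval_mul, eval_X, hUe, hye, le2]
    ring
  have henL : en S (sg (σ i0) • (1 - X * YY (O i0))) (sg (e i0) • XX (O i0)) =
      nu w t (ldl xL yL) := by
    rw [hR.en_nu]
    congr 1
    funext a
    simp only [eval_sub, eval_mul, eval_X, eval_smul, eval_one, smul_eq_mul, h0, sg_true, hyL,
      hxL, ldl, one_mul]
  have hJ : ip (st S (sg (σ i0) • (1 - X * YY (O i0))) (sg (e i0) • XX (O i0)))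
      (st S (∑ i ∈ univ.erase i0, sg (σ i) • (1 - X * YY (O i))) y') =
      nu w t (lcr xL yL U2 y2) := by
    rw [hx', ip_st S hS.anti, hR.mo_nu]
    congr 1
    funext a
    simp only [eval_sub, eval_add, eval_C, eval_mul, eval_X, eval_smul, eval_one, smul_eq_mul,
      h0, sg_true, hyL, hUe, hye, lcr, one_mul]
    rw [← hxL]
    ring
  have hxx : (nu w t fun a => sg (e i0) * (XX (O i0)).eval a) = nu w t xL := by
    congr 1
    funext a
    exact hxL a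
  -- the rest
  have hk0 := en2_nonneg (S := S) hS.anti U' y'
  have hbD := mo_sq_le_en2 hS U' y'
  have hw0 : 0 ≤ Real.sqrt (en2 S U' y') + mo S y' := by
    have h1 : mo S y' ^ 2 ≤ Real.sqrt (en2 S U' y') ^ 2 := by
      rw [Real.sq_sqrt hk0]
      refine hbD.trans ?_
      have : dee S * en2 S U' y' ≤ 1 * en2 S U' y' :=
        mul_le_mul_of_nonneg_right (by linarith [hR.dee_le]) hk0
      linarith
    have h2 := abs_le_of_sq_le_sq h1 (Real.sqrt_nonneg _)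
    linarith [(abs_le.1 h2).1]
  have hsup : (Real.sqrt (en2 S U' y') + mo S y') ^ 2 ≤ ψ * en2 S U' y' :=
    (sup_sq_le hS U' y' l hlp).trans (mul_le_mul_of_nonneg_right hψ hk0)
  have hμw : μ * (Real.sqrt (en2 S U' y') + mo S y') ^ 2 ≤ μ * ψ * nu w t (le2 U2 y2) := by
    rw [← hen2, mul_assoc]
    exact mul_le_mul_of_nonneg_left hsup hRC.hμ
  have hcard : (univ.erase i0).card = K - 1 := by
    rw [card_erase_of_mem (mem_univ i0), card_univ, Fintype.card_fin]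
  have hGR : nu w t gR ≤ ∑ i ∈ univ.erase i0, (nu w t fun a => sg (e i) * (XX (O i)).eval a) := by
    rw [← nu_finset_sum]
    have h1 := hgR m S hS w t hR rfl
    refine h1.trans (le_of_eq ?_)
    congr 1
    funext a
    exact (hy2 a).symm
  have hGRP : nu w t gR ≤ P := by
    have := hgRr m S hS w t hR rfl
    rw [hR.nu_const] at this
    exact this.trans hrR
  have hrest : RMaj S (fun z => ∏ i ∈ univ.erase i0, ms S (cn (σ i) (e i) (O i)) z)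
      (∑ i ∈ univ.erase i0, sg (σ i) • (1 - X * YY (O i))) y' cc (nu w t BR) := by
    refine MMajE.rest (univ.erase i0) (K - 1) hcard (by omega) _ _ _ _ _ _ hM hRC hsR
      (Real.sqrt (en2 S U' y') + mo S y') (nu w t gR) hw0 (fun z => ?_) hGR hGRP ?_ ?_
    · have h1 := st_sup hS 0 U' y' z
      rw [show (0 : ℝ) ^ 2 + en2 S U' y' = en2 S U' y' by ring] at h1
      rw [hx', ← hy']
      exact h1
    · have h1 := hBR1 m S hS w t hR rfl
      simp only [nu_add, nu_sub, nu_mul, nu_finset_sum] at h1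
      linarith
    · have h1 := hBR2 m S hS w t hR rfl
      simp only [nu_add, nu_sub, nu_mul, nu_finset_sum] at h1
      linarith
  -- the split child
  have hgr' : nu w t g ≤ r * dee S := by
    have := hgr m S hS w t hR rfl
    rwa [hR.nu_const] at this
  have hE0' : 0 ≤ nu w t Ex := by
    have := hE0 m S hS w t hR rfl
    rwa [nu_zero] at this
  have hen : en S (sg (σ i0) • (1 - X * YY (O i0))) (sg (e i0) • XX (O i0)) ≤
      D1 + nu w t Ex := by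
    have h1 := hE m S hS w t hR rfl
    have h1' : (nu w t fun a => 1 + Ex a) = dee S + nu w t Ex := by
      rw [nu_add, hR.nu_const, one_mul]
    rw [h1'] at h1
    rw [henL]
    linarith [hOne.hD]
  have hen0 : 0 ≤ en S (sg (σ i0) • (1 - X * YY (O i0))) (sg (e i0) • XX (O i0)) :=
    en_nonneg hS.anti _ _
  have hgg : nu w t g ≤ nu w t fun a => sg (e i0) * (XX (O i0)).eval a := by
    rw [hxx]
    exact hg m S hS w t hR rfl
  have hcc := hRC.hc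
  have hχ00 : 0 ≤ χ (dee S) := hl1.hs.trans hsχ
  have hνe := mul_le_mul_of_nonneg_left (mul_le_mul_of_nonneg_right (mul_le_mul_of_nonneg_right
    hLC.hν (show 0 ≤ τ / 2 by have := hLC.hτ; positivity)) hen0) hLC.hω0
  refine MMajC.left' hS hex (hL.cap hgg) hrest D1 χ0 K0 (nu w t Ex) (r * dee S) κ s K1 K2 τ ω ϑ
    B1 B2 (hR.dee_nonneg.trans hOne.hD) hOne.hχ0 hOne.hχ01 hOne.hχD hE0' hen hOne.hK hgr'
    (mul_nonneg hOne.hr0 hR.dee_nonneg) hOne.hr hOne.hκ0 hOne.hκ1 hOne.hκ hl1.hs hsχ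
    (fun r hr => ?_) (fun r hr => ?_) hLC.hτ hLC.hω0 hLC.hω hLC.hϑ hLC.hB1 hLC.hB1' hLC.hB2 hcc
    ?_ ?_ ?_ ?_
  · have := hl1.ineq hen0 hE0' hen r hr
    rwa [one_mul] at this
  · exact hl2.ineq hen0 hE0' hen r hr
  · have h1 := hb1 m S hS w t hR rfl
    simp only [nu_add, nu_sub, nu_mul] at h1
    rw [hJ, henR]
    rw [← henL] at h1
    refine h1.trans (le_of_sub_nonneg (le_of_le_of_eq (sub_nonneg.2 hνe) ?_))
    ring
  · have h1 := hb1' m S hS w t hR rfl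
    simp only [nu_add, nu_sub, nu_mul] at h1
    rw [hJ, henR]
    rw [← henL] at h1
    have h2 := mul_le_mul_of_nonneg_left hνe (show 0 ≤ 1 + χ (dee S) by linarith)
    refine h1.trans (le_of_sub_nonneg (le_of_le_of_eq (sub_nonneg.2 h2) ?_))
    ring
  · have h1 := hb2 m S hS w t hR rfl
    simp only [nu_add, nu_sub, nu_mul] at h1
    rw [hJ, henL, henR]
    refine h1.trans (le_of_eq ?_)
    ring
  · have h1 := hb3 m S hS w t hR rfl
    simp only [nu_add, nu_sub, nu_mul] at h1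
    rw [hJ, henL, henR]
    refine h1.trans (le_of_eq ?_)
    ring

end

end Pool.Agent.TSM
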