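import Pool.Agent.TSM.EvenF
import Pool.Agent.TSM.LeftTree
import Pool.Agent.TSO.RuleE
import Pool.Agent.TSO.RuleH

set_option autoImplicit false

/-!
# Many children, the pending cost moved into the excess (MP_d27362_co)

The pending cost of the new vertex need not be dominated by `c'`: what is missing is charged `χ`.
All parameters are chosen for every total mass.
-/

namespace Pool.Agent.TSM

open Finset Polynomial
open Pool.Agent.TSP
open Pool.Agent.TSO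
open Pool.Agent.TSR (OBr Ker sg_true sg_false vS_nonneg)
open Pool.Agent.TLT (sg)

noncomputable section

variable {m : ℕ} {S : Fin m → Fin m → ℝ}

/-- a pending cost larger than `c'` is charged to the bank -/
theorem Maj.excess {F : Fin m → ℝ} {x y : ℝ[X]} {b c b' c' χ : ℝ} (h : Maj S F x y b c)
    (h1 : b' ≤ b) (h2 : b' ≤ b - χ * (c - c')) : MajE S F x y χ b' c' := by
  refine ⟨max (c - c') 0, le_max_right _ _, h.mono ?_ ?_⟩
  · rcases le_total (c - c') 0 with h3 | h3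
    · rw [max_eq_right h3, mul_zero, add_zero]
      exact h1
    · rw [max_eq_left h3]
      linarith
  · have := le_max_left (c - c') 0
    linarith

/-- an invariant without excess, the pending cost moved into the excess -/
theorem Good.excess {χ : ℝ → ℝ} {O : OBr} {b c b' c' : ℝ → ℝ → ℝ} (h : Good O b c)
    (h1 : ∀ D, RD D → ILe D (b' D) (b D))
    (h2 : ∀ D, RD D → ILe D (b' D) (fun a => b D a - χ D * (c D a - c' D a))) :
    GoodE χ O b' c' := by
  intro m S hS w t hR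
  have hRD : RD (dee S) := ⟨hR.dee_nonneg, hR.dee_le⟩
  refine (h m S hS w t hR).excess (h1 _ hRD m S hS w t hR rfl) ?_
  have := h2 _ hRD m S hS w t hR rfl
  rw [nu_sub, nu_mul, nu_sub] at this
  exact this

/-- the constants of the finite rule for `K` children, the gain at most `P` -/
structure ExpF (K : ℕ) (cq μ P : ℝ) : Prop where
  cq0 : 0 ≤ cq
  mu0 : 0 ≤ μ
  quad : ∀ u : ℝ, 0 ≤ 1 + u + cq * u ^ 2
  hexp : ∀ ρ u w : ℝ, ρ ≤ P → u ≤ w → 0 ≤ 1 + (u - ρ) / K →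
    (1 + (u - ρ) / K) ^ K ≤ Real.exp (-ρ) * (Real.exp (μ * w ^ 2) * (1 + u + cq * u ^ 2))

/-- the constants of Rule E -/
structure ExpE (cq μ : ℝ) : Prop where
  cq0 : 0 ≤ cq
  mu0 : 0 ≤ μ
  hexp : ∀ u w : ℝ, u ≤ w → Real.exp u ≤ Real.exp (μ * w ^ 2) * (1 + u + cq * u ^ 2)

/-- **an even number of children** (`Σ σ = 0`), finite rule, the pending cost in full -/
theorem GoodE.evenF0 {χ : ℝ → ℝ} (hχ : ∀ D, RD D → 0 ≤ χ D) {K : ℕ} (hK0 : 0 < K)
    (O : Fin K → OBr) (σ e : Fin K → Bool) (V c : Fin K → ℝ → ℝ → ℝ)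
    (h : ∀ i, GoodE χ (O i) (V i) (c i)) (hτ : ∑ i, sg (σ i) = 0) (cq μ P : ℝ → ℝ)
    (hF : ∀ D, RD D → ExpF K (cq D) (μ D) (P D))
    (l rr : ℝ → ℝ) (hl : ∀ D, RD D → 0 < l D) (hrr : ∀ D, RD D → rr D * D ≤ P D)
    (g : ℝ → ℝ → ℝ)
    (hg : ∀ D, RD D → ILe D (g D) (fun a => ∑ i, sg (e i) * (XX (O i)).eval a))
    (hgr : ∀ D, RD D → ILe D (g D) (fun _ => rr D)) :
    Good (fam σ e O) (fun D a => ∑ i, V i D a + g D a -
      μ D * ((1 + l D) + (1 + 1 / l D) * D) * ((∑ i, sg (e i) * (XX (O i)).eval a) ^ 2 +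
        a * (∑ i, sg (σ i) * (YY (O i)).eval a) ^ 2) -
      2 * cq D * (a ^ 2 * (∑ i, sg (σ i) * (YY (O i)).eval a) ^ 2 +
        a * (∑ i, sg (e i) * (XX (O i)).eval a) ^ 2))
      (fun D a => 2 * cq D * (a ^ 2 * (∑ i, sg (σ i) * (YY (O i)).eval a) ^ 2 +
        a * (∑ i, sg (e i) * (XX (O i)).eval a) ^ 2)) := by
  intro m S hS w t hR
  have hRD : RD (dee S) := ⟨hR.dee_nonneg, hR.dee_le⟩
  have hFD := hF _ hRD
  have hM : ∀ i ∈ (Finset.univ : Finset (Fin K)), MMajE S (ms S (cn (σ i) (e i) (O i)))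
      (sg (σ i) • (1 - X * YY (O i))) (sg (e i) • XX (O i))
      (nu w t fun a => sg (e i) * (XX (O i)).eval a) (χ (dee S)) (nu w t (V i (dee S)))
      (nu w t (c i (dee S))) := fun i _ => (h i).msg (σ i) (e i) hS hR
  rw [fam_vS, fam_XX, fam_YY]
  set U' := ∑ i, sg (σ i) • YY (O i) with hU'
  set y' := ∑ i, sg (e i) • XX (O i) with hy'
  have hx' : ∑ i, sg (σ i) • (1 - X * YY (O i)) = C 0 - X * U' := by
    have h1 : ∀ i : Fin K, sg (σ i) • (1 - X * YY (O i)) =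
        C (sg (σ i)) - X * (sg (σ i) • YY (O i)) := by
      intro i
      rw [smul_sub, smul_eq_C_mul, mul_one, mul_smul_comm]
    rw [Finset.sum_congr rfl fun i _ => h1 i, Finset.sum_sub_distrib, ← Finset.mul_sum,
      ← map_sum, hτ]
  have hUe : ∀ a, U'.eval a = ∑ i, sg (σ i) * (YY (O i)).eval a := by
    intro a
    rw [hU', eval_finsetSum]
    exact Finset.sum_congr rfl fun i _ => by rw [eval_smul, smul_eq_mul]
  have hye : ∀ a, y'.eval a = ∑ i, sg (e i) * (XX (O i)).eval a := by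
    intro a
    rw [hy', eval_finsetSum]
    exact Finset.sum_congr rfl fun i _ => by rw [eval_smul, smul_eq_mul]
  have hen : en S (∑ i, sg (σ i) • (1 - X * YY (O i))) y' =
      nu w t fun a => a ^ 2 * U'.eval a ^ 2 + a * y'.eval a ^ 2 := by
    rw [hx', hR.en_nu]
    congr 1
    funext a
    simp only [eval_sub, eval_C, eval_mul, eval_X]
    ring
  have hen2 : en2 S U' y' = nu w t fun a => y'.eval a ^ 2 + a * U'.eval a ^ 2 := by
    unfold en2
    rw [hR.mo_nu]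
    congr 1
    funext a
    simp only [eval_add, eval_mul, eval_X]
    ring
  set ψ := (1 + l (dee S)) + (1 + 1 / l (dee S)) * dee S with hψ
  have hlD := hl _ hRD
  have hsup := sup_sq_le hS U' y' (l (dee S)) hlD
  have hG1 : nu w t (g (dee S)) ≤ ∑ i, (nu w t fun a => sg (e i) * (XX (O i)).eval a) := by
    rw [← nu_finset_sum]
    exact hg _ hRD m S hS w t hR rfl
  have hGP : nu w t (g (dee S)) ≤ P (dee S) := by
    have := hgr _ hRD m S hS w t hR rfl
    rw [hR.nu_const] at this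
    exact this.trans (hrr _ hRD)
  refine MMajE.manyF hS Finset.univ K (by simp) hK0 _ _ _ _ _ _ (hχ _ hRD) hM (cq (dee S))
    (μ (dee S) * ψ * en2 S U' y') (nu w t (g (dee S))) (P (dee S)) hFD.cq0 hG1 hGP ?_ ?_ ?_
  · intro z ρ hρ hnn
    rw [hx', ← hy'] at hnn ⊢
    have h1 := st_sup hS 0 U' y' z
    rw [show (0 : ℝ) ^ 2 + en2 S U' y' = en2 S U' y' by ring] at h1
    refine (hFD.hexp _ _ _ hρ h1 hnn).trans ?_
    refine mul_le_mul_of_nonneg_left ?_ (Real.exp_nonneg _)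
    refine mul_le_mul_of_nonneg_right (Real.exp_le_exp.2 ?_) (hFD.quad _)
    have h5 := mul_le_mul_of_nonneg_left hsup hFD.mu0
    rw [← hψ] at h5
    linarith
  · have h2 : (nu w t fun a => ∑ i, V i (dee S) a + g (dee S) a -
      μ (dee S) * ((1 + l (dee S)) + (1 + 1 / l (dee S)) * dee S) *
        ((∑ i, sg (e i) * (XX (O i)).eval a) ^ 2 +
        a * (∑ i, sg (σ i) * (YY (O i)).eval a) ^ 2) -
      2 * cq (dee S) * (a ^ 2 * (∑ i, sg (σ i) * (YY (O i)).eval a) ^ 2 +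
        a * (∑ i, sg (e i) * (XX (O i)).eval a) ^ 2)) =
        ∑ i, nu w t (V i (dee S)) + nu w t (g (dee S)) -
          μ (dee S) * ψ * en2 S U' y' -
          2 * cq (dee S) * en S (∑ i, sg (σ i) • (1 - X * YY (O i))) y' := by
      rw [hen, hen2, nu_sub, nu_sub, nu_add, nu_finset_sum, nu_mul, nu_mul]
      simp only [hUe, hye]
      rfl
    exact h2.le
  · rw [nu_mul, ← hy', hen]
    simp only [hUe, hye]
    exact le_rfl

/-- **an even number of children** (`Σ σ = 0`), Rule E, the pending cost in full -/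
theorem GoodE.even0 {χ : ℝ → ℝ} (hχ : ∀ D, RD D → 0 ≤ χ D) {K : ℕ} (O : Fin K → OBr)
    (σ e : Fin K → Bool) (V c : Fin K → ℝ → ℝ → ℝ)
    (h : ∀ i, GoodE χ (O i) (V i) (c i)) (hτ : ∑ i, sg (σ i) = 0) (cq μ : ℝ → ℝ)
    (hF : ∀ D, RD D → ExpE (cq D) (μ D)) (l : ℝ → ℝ) (hl : ∀ D, RD D → 0 < l D) :
    Good (fam σ e O) (fun D a => ∑ i, V i D a + ∑ i, sg (e i) * (XX (O i)).eval a -
      μ D * ((1 + l D) + (1 + 1 / l D) * D) * ((∑ i, sg (e i) * (XX (O i)).eval a) ^ 2 +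
        a * (∑ i, sg (σ i) * (YY (O i)).eval a) ^ 2) -
      2 * cq D * (a ^ 2 * (∑ i, sg (σ i) * (YY (O i)).eval a) ^ 2 +
        a * (∑ i, sg (e i) * (XX (O i)).eval a) ^ 2))
      (fun D a => 2 * cq D * (a ^ 2 * (∑ i, sg (σ i) * (YY (O i)).eval a) ^ 2 +
        a * (∑ i, sg (e i) * (XX (O i)).eval a) ^ 2)) := by
  intro m S hS w t hR
  have hRD : RD (dee S) := ⟨hR.dee_nonneg, hR.dee_le⟩
  have hFD := hF _ hRD
  have hM : ∀ i ∈ (Finset.univ : Finset (Fin K)), MMajE S (ms S (cn (σ i) (e i) (O i)))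
      (sg (σ i) • (1 - X * YY (O i))) (sg (e i) • XX (O i))
      (nu w t fun a => sg (e i) * (XX (O i)).eval a) (χ (dee S)) (nu w t (V i (dee S)))
      (nu w t (c i (dee S))) := fun i _ => (h i).msg (σ i) (e i) hS hR
  rw [fam_vS, fam_XX, fam_YY]
  set U' := ∑ i, sg (σ i) • YY (O i) with hU'
  set y' := ∑ i, sg (e i) • XX (O i) with hy'
  have hx' : ∑ i, sg (σ i) • (1 - X * YY (O i)) = C 0 - X * U' := by
    have h1 : ∀ i : Fin K, sg (σ i) • (1 - X * YY (O i)) =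
        C (sg (σ i)) - X * (sg (σ i) • YY (O i)) := by
      intro i
      rw [smul_sub, smul_eq_C_mul, mul_one, mul_smul_comm]
    rw [Finset.sum_congr rfl fun i _ => h1 i, Finset.sum_sub_distrib, ← Finset.mul_sum,
      ← map_sum, hτ]
  have hUe : ∀ a, U'.eval a = ∑ i, sg (σ i) * (YY (O i)).eval a := by
    intro a
    rw [hU', eval_finsetSum]
    exact Finset.sum_congr rfl fun i _ => by rw [eval_smul, smul_eq_mul]
  have hye : ∀ a, y'.eval a = ∑ i, sg (e i) * (XX (O i)).eval a := by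
    intro a
    rw [hy', eval_finsetSum]
    exact Finset.sum_congr rfl fun i _ => by rw [eval_smul, smul_eq_mul]
  have hen : en S (∑ i, sg (σ i) • (1 - X * YY (O i))) y' =
      nu w t fun a => a ^ 2 * U'.eval a ^ 2 + a * y'.eval a ^ 2 := by
    rw [hx', hR.en_nu]
    congr 1
    funext a
    simp only [eval_sub, eval_C, eval_mul, eval_X]
    ring
  have hen2 : en2 S U' y' = nu w t fun a => y'.eval a ^ 2 + a * U'.eval a ^ 2 := by
    unfold en2
    rw [hR.mo_nu]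
    congr 1
    funext a
    simp only [eval_add, eval_mul, eval_X]
    ring
  set ψ := (1 + l (dee S)) + (1 + 1 / l (dee S)) * dee S with hψ
  have hlD := hl _ hRD
  have hsup := sup_sq_le hS U' y' (l (dee S)) hlD
  refine MMajE.manyE hS Finset.univ _ _ _ _ _ _ (hχ _ hRD) hM (cq (dee S))
    (μ (dee S) * ψ * en2 S U' y') hFD.cq0 ?_ ?_ ?_
  · intro z
    rw [hx', ← hy']
    have h1 := st_sup hS 0 U' y' z
    rw [show (0 : ℝ) ^ 2 + en2 S U' y' = en2 S U' y' by ring] at h1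
    have h2 := hFD.hexp _ _ h1
    have h3 : 0 ≤ 1 + st S (C 0 - X * U') y' z + cq (dee S) * st S (C 0 - X * U') y' z ^ 2 := by
      by_contra h
      push Not at h
      have h4 := mul_neg_of_pos_of_neg (Real.exp_pos (μ (dee S) * (Real.sqrt (en2 S U' y') + mo S y') ^ 2)) h
      have := Real.exp_pos (st S (C 0 - X * U') y' z)
      linarith
    refine h2.trans (mul_le_mul_of_nonneg_right (Real.exp_le_exp.2 ?_) h3)
    have h5 := mul_le_mul_of_nonneg_left hsup hFD.mu0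
    rw [← hψ] at h5
    linarith
  · have h2 : (nu w t fun a => ∑ i, V i (dee S) a + ∑ i, sg (e i) * (XX (O i)).eval a -
      μ (dee S) * ((1 + l (dee S)) + (1 + 1 / l (dee S)) * dee S) *
        ((∑ i, sg (e i) * (XX (O i)).eval a) ^ 2 +
        a * (∑ i, sg (σ i) * (YY (O i)).eval a) ^ 2) -
      2 * cq (dee S) * (a ^ 2 * (∑ i, sg (σ i) * (YY (O i)).eval a) ^ 2 +
        a * (∑ i, sg (e i) * (XX (O i)).eval a) ^ 2)) =
        ∑ i, nu w t (V i (dee S)) + ∑ i, (nu w t fun a => sg (e i) * (XX (O i)).eval a) -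
          μ (dee S) * ψ * en2 S U' y' -
          2 * cq (dee S) * en S (∑ i, sg (σ i) • (1 - X * YY (O i))) y' := by
      rw [hen, hen2, nu_sub, nu_sub, nu_add, nu_finset_sum, nu_finset_sum, nu_mul, nu_mul]
      simp only [hUe, hye]
      rfl
    exact h2.le
  · rw [nu_mul, ← hy', hen]
    simp only [hUe, hye]
    exact le_rfl

/-- even number `K` of children, finite rule: `U`, `y` the new state, `V` the sum of the values -/
def EvF (χ : ℝ → ℝ) (D : ℝ) (K : ℕ) (U y V V' c' : ℝ → ℝ) : Prop :=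
  ∃ cq μ P l r : ℝ, ∃ g : ℝ → ℝ, ExpF K cq μ P ∧ 0 < l ∧ r * D ≤ P ∧ ILe D g y ∧
    ILe D g (fun _ => r) ∧
    ILe D V' (fun a => V a + g a - μ * ((1 + l) + (1 + 1 / l) * D) * (y a ^ 2 + a * U a ^ 2) -
      2 * cq * (a ^ 2 * U a ^ 2 + a * y a ^ 2)) ∧
    ILe D V' (fun a => V a + g a - μ * ((1 + l) + (1 + 1 / l) * D) * (y a ^ 2 + a * U a ^ 2) -
      2 * cq * (a ^ 2 * U a ^ 2 + a * y a ^ 2) -
      χ D * (2 * cq * (a ^ 2 * U a ^ 2 + a * y a ^ 2) - c' a))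

/-- even number of children, Rule E -/
def EvE (χ : ℝ → ℝ) (D : ℝ) (U y V V' c' : ℝ → ℝ) : Prop :=
  ∃ cq μ l : ℝ, ExpE cq μ ∧ 0 < l ∧
    ILe D V' (fun a => V a + y a - μ * ((1 + l) + (1 + 1 / l) * D) * (y a ^ 2 + a * U a ^ 2) -
      2 * cq * (a ^ 2 * U a ^ 2 + a * y a ^ 2)) ∧
    ILe D V' (fun a => V a + y a - μ * ((1 + l) + (1 + 1 / l) * D) * (y a ^ 2 + a * U a ^ 2) -
      2 * cq * (a ^ 2 * U a ^ 2 + a * y a ^ 2) -
      χ D * (2 * cq * (a ^ 2 * U a ^ 2 + a * y a ^ 2) - c' a))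

/-- **even number of children, finite rule**, the pending cost in the excess -/
theorem GoodE.evF {χ : ℝ → ℝ} (hχ : ∀ D, RD D → 0 ≤ χ D) {K : ℕ} (hK0 : 0 < K)
    (O : Fin K → OBr) (σ e : Fin K → Bool) (V c : Fin K → ℝ → ℝ → ℝ)
    (h : ∀ i, GoodE χ (O i) (V i) (c i)) (hτ : ∑ i, sg (σ i) = 0) {V' c' : ℝ → ℝ → ℝ}
    (U y : ℝ → ℝ) (hU : ∀ a, ∑ i, sg (σ i) * (YY (O i)).eval a = U a)
    (hy : ∀ a, ∑ i, sg (e i) * (XX (O i)).eval a = y a)
    (H : ∀ D, RD D → EvF χ D K U y (fun a => ∑ i, V i D a) (V' D) (c' D)) :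
    GoodE χ (fam σ e O) V' c' := by
  classical
  have H' : ∀ D, ∃ cq μ P l r : ℝ, ∃ g : ℝ → ℝ, RD D → (ExpF K cq μ P ∧ 0 < l ∧ r * D ≤ P ∧
    ILe D g y ∧ ILe D g (fun _ => r) ∧
    ILe D (V' D) (fun a => ∑ i, V i D a + g a -
      μ * ((1 + l) + (1 + 1 / l) * D) * (y a ^ 2 + a * U a ^ 2) -
      2 * cq * (a ^ 2 * U a ^ 2 + a * y a ^ 2)) ∧
    ILe D (V' D) (fun a => ∑ i, V i D a + g a -
      μ * ((1 + l) + (1 + 1 / l) * D) * (y a ^ 2 + a * U a ^ 2) -
      2 * cq * (a ^ 2 * U a ^ 2 + a * y a ^ 2) -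
      χ D * (2 * cq * (a ^ 2 * U a ^ 2 + a * y a ^ 2) - c' D a))) := by
    intro D
    by_cases hD : RD D
    · obtain ⟨cq, μ, P, l, r, g, hh⟩ := H D hD
      exact ⟨cq, μ, P, l, r, g, fun _ => hh⟩
    · exact ⟨0, 0, 0, 0, 0, fun _ => 0, fun h => absurd h hD⟩
  choose cq μ P l r g hh using H'
  have hyf : (fun a => ∑ i, sg (e i) * (XX (O i)).eval a) = y := funext hy
  have h0 := GoodE.evenF0 hχ hK0 O σ e V c h hτ cq μ P (fun D hD => (hh D hD).1) l r
    (fun D hD => (hh D hD).2.1) (fun D hD => (hh D hD).2.2.1) g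
    (fun D hD => by rw [hyf]; exact (hh D hD).2.2.2.1) (fun D hD => (hh D hD).2.2.2.2.1)
  simp only [hU, hy] at h0
  exact h0.excess (fun D hD => (hh D hD).2.2.2.2.2.1) (fun D hD => (hh D hD).2.2.2.2.2.2)

/-- **even number of children, Rule E**, the pending cost in the excess -/
theorem GoodE.evE {χ : ℝ → ℝ} (hχ : ∀ D, RD D → 0 ≤ χ D) {K : ℕ} (O : Fin K → OBr)
    (σ e : Fin K → Bool) (V c : Fin K → ℝ → ℝ → ℝ)
    (h : ∀ i, GoodE χ (O i) (V i) (c i)) (hτ : ∑ i, sg (σ i) = 0) {V' c' : ℝ → ℝ → ℝ}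
    (U y : ℝ → ℝ) (hU : ∀ a, ∑ i, sg (σ i) * (YY (O i)).eval a = U a)
    (hy : ∀ a, ∑ i, sg (e i) * (XX (O i)).eval a = y a)
    (H : ∀ D, RD D → EvE χ D U y (fun a => ∑ i, V i D a) (V' D) (c' D)) :
    GoodE χ (fam σ e O) V' c' := by
  classical
  have H' : ∀ D, ∃ cq μ l : ℝ, RD D → (ExpE cq μ ∧ 0 < l ∧
    ILe D (V' D) (fun a => ∑ i, V i D a + y a -
      μ * ((1 + l) + (1 + 1 / l) * D) * (y a ^ 2 + a * U a ^ 2) -
      2 * cq * (a ^ 2 * U a ^ 2 + a * y a ^ 2)) ∧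
    ILe D (V' D) (fun a => ∑ i, V i D a + y a -
      μ * ((1 + l) + (1 + 1 / l) * D) * (y a ^ 2 + a * U a ^ 2) -
      2 * cq * (a ^ 2 * U a ^ 2 + a * y a ^ 2) -
      χ D * (2 * cq * (a ^ 2 * U a ^ 2 + a * y a ^ 2) - c' D a))) := by
    intro D
    by_cases hD : RD D
    · obtain ⟨cq, μ, l, hh⟩ := H D hD
      exact ⟨cq, μ, l, fun _ => hh⟩
    · exact ⟨0, 0, 0, fun h => absurd h hD⟩
  choose cq μ l hh using H'
  have h0 := GoodE.even0 hχ O σ e V c h hτ cq μ (fun D hD => (hh D hD).1) l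
    (fun D hD => (hh D hD).2.1)
  simp only [hU, hy] at h0
  exact h0.excess (fun D hD => (hh D hD).2.2.1) (fun D hD => (hh D hD).2.2.2)

/-- `K = 4`: `(c, μ) = (7/10, 1/50)`, gain at most `2/3` -/
theorem expF_four_a : ExpF 4 (7 / 10) (1 / 50) (2 / 3) :=
  ⟨by norm_num, by norm_num, fun u => by nlinarith [sq_nonneg (u + 5 / 7)], hexp_four_a⟩

/-- `K = 4`: `(c, μ) = (3/5, 17/500)`, gain at most `2/3` -/
theorem expF_four_b : ExpF 4 (3 / 5) (17 / 500) (2 / 3) :=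
  ⟨by norm_num, by norm_num, fun u => by nlinarith [sq_nonneg (u + 5 / 6)], hexp_four_b⟩

/-- Rule E: `(c, μ) = (18/25, 43/500)` -/
theorem expE_a : ExpE (18 / 25) (43 / 500) := ⟨by norm_num, by norm_num, exp_le_E⟩

/-- Rule E: `(c, μ) = (1/2, 1/10)` -/
theorem expE_b : ExpE (1 / 2) (1 / 10) := ⟨by norm_num, by norm_num, exp_le_half⟩

/-- the finite rule as constants of the rest of `K` children -/
theorem ExpF.rest {K : ℕ} {cq μ P : ℝ} (h : ExpF K cq μ P) :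
    RestC K P cq μ 1 0 (fun ρ => Real.exp (-ρ)) := by
  refine RestC.full ?_ h.mu0 h.hexp
  by_contra h1
  push Not at h1
  rcases eq_or_lt_of_le h.cq0 with h2 | h2
  · have := h.quad (-2)
    rw [← h2] at this
    norm_num at this
  · have h3 := h.quad (-(1 / (2 * cq)))
    have h4 : 1 + -(1 / (2 * cq)) + cq * (-(1 / (2 * cq))) ^ 2 = 1 - 1 / (4 * cq) := by
      field_simp
      ring
    rw [h4] at h3
    have h5 : 1 < 1 / (4 * cq) := by
      rw [lt_div_iff₀ (by linarith)]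
      linarith
    linarith

/-- Rule E as constants of the rest of `K` children -/
theorem ExpE.rest {K : ℕ} (hK : 0 < K) {cq μ : ℝ} (h : ExpE cq μ) (h1 : 1 / 4 ≤ cq) (P : ℝ) :
    RestC K P cq μ 1 0 (fun ρ => Real.exp (-ρ)) := RestC.ruleE hK P h1 h.mu0 h.hexp

end

end Pool.Agent.TSM
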