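import Mathlib

set_option autoImplicit false

/-!
# Real inequalities for the loss side (MP_d27362_co)
-/

namespace Pool.Agent.TSM

/-- five terms of the logarithmic series -/
theorem log_ser (p : ℝ) (h0 : 0 ≤ p) (h1 : p < 1) :
    p + p ^ 2 / 2 + p ^ 3 / 3 + p ^ 4 / 4 ≤ - Real.log (1 - p) := by
  have h := Real.hasSum_pow_div_log_of_abs_lt_one (x := p) (by rw [abs_of_nonneg h0]; exact h1)
  have h2 := h.summable.sum_le_tsum (Finset.range 4) (fun i _ => by positivity)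
  rw [h.tsum_eq] at h2
  simp only [Finset.sum_range_succ, Finset.sum_range_zero] at h2
  norm_num at h2
  linarith

/-- `p + (1-p) log (1-p) ≥ p²/2 + p³/6 + p⁴/12 + p⁵/20` -/
theorem log_ser2 (p : ℝ) (h0 : 0 ≤ p) (h1 : p < 1) :
    p ^ 2 / 2 + p ^ 3 / 6 + p ^ 4 / 12 + p ^ 5 / 20 ≤ p + (1 - p) * Real.log (1 - p) := by
  have hm : MonotoneOn (fun x : ℝ => x + (1 - x) * Real.log (1 - x) -
      (x ^ 2 / 2 + x ^ 3 / 6 + x ^ 4 / 12 + x ^ 5 / 20)) (Set.Ico 0 1) := by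
    have hder : ∀ x ∈ Set.Ico (0 : ℝ) 1, HasDerivAt (fun x : ℝ => x + (1 - x) * Real.log (1 - x) -
        (x ^ 2 / 2 + x ^ 3 / 6 + x ^ 4 / 12 + x ^ 5 / 20))
        (- Real.log (1 - x) - (x + x ^ 2 / 2 + x ^ 3 / 3 + x ^ 4 / 4)) x := by
      intro x hx
      have hx1 : 1 - x ≠ 0 := by have := hx.2; linarith
      have d1 : HasDerivAt (fun x : ℝ => 1 - x) (-1) x := by
        simpa using (hasDerivAt_id x).const_sub 1
      have d2 := d1.fun_mul (d1.log hx1)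
      have d3 := (hasDerivAt_id x).fun_add d2
      have d4 := (((((hasDerivAt_id x).fun_pow 2).div_const 2).fun_add
        (((hasDerivAt_id x).fun_pow 3).div_const 6)).fun_add
        (((hasDerivAt_id x).fun_pow 4).div_const 12)).fun_add
        (((hasDerivAt_id x).fun_pow 5).div_const 20)
      have d5 := d3.fun_sub d4
      refine d5.congr_deriv ?_
      simp only [id]
      field_simp
      push_cast
      ring
    apply monotoneOn_of_deriv_nonneg (convex_Ico 0 1)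
    · exact fun x hx => (hder x hx).continuousAt.continuousWithinAt
    · intro x hx
      rw [interior_Ico] at hx
      exact (hder x ⟨hx.1.le, hx.2⟩).differentiableAt.differentiableWithinAt
    · intro x hx
      rw [interior_Ico] at hx
      rw [(hder x ⟨hx.1.le, hx.2⟩).deriv]
      have := log_ser x hx.1.le hx.2
      linarith
  have h2 := hm (Set.mem_Ico.2 ⟨le_rfl, one_pos⟩) (Set.mem_Ico.2 ⟨h0, h1⟩) h0
  simp only [sub_zero, Real.log_one, mul_zero, add_zero, zero_pow, ne_eq, OfNat.ofNat_ne_zero,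
    not_false_eq_true, zero_div] at h2
  linarith

/-- `r - log (1+r) ≥ (1+r) (p²/2 + p³/6 + p⁴/12 + p⁵/20)`, `p = r/(1+r)` -/
theorem log_r (r : ℝ) (h0 : 0 ≤ r) : (1 + r) * ((r / (1 + r)) ^ 2 / 2 + (r / (1 + r)) ^ 3 / 6 +
    (r / (1 + r)) ^ 4 / 12 + (r / (1 + r)) ^ 5 / 20) ≤ r - Real.log (1 + r) := by
  have h1 : 0 < 1 + r := by linarith
  have hp0 : 0 ≤ r / (1 + r) := by positivity
  have hp1 : r / (1 + r) < 1 := by rw [div_lt_one h1]; linarith
  have h := log_ser2 (r / (1 + r)) hp0 hp1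
  have e1 : 1 - r / (1 + r) = (1 + r)⁻¹ := by field_simp; ring
  rw [e1, Real.log_inv] at h
  have h2 := mul_le_mul_of_nonneg_left h h1.le
  have e2 : (1 + r) * (r / (1 + r) + (1 + r)⁻¹ * -Real.log (1 + r)) = r - Real.log (1 + r) := by
    field_simp
    ring
  rw [e2] at h2
  exact h2

/-- **the loss side of a stem**: for all `r, σ ≥ 0`. `σ0` is a bound of `√D`, `k = 1` or
`k = 1 + χ` -/
theorem loss_ineq (s k K σ0 : ℝ) (hs : 0 ≤ s) (hk : 0 ≤ k) (hK : 0 < K) (hσ0 : 0 ≤ σ0)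
    (hks : k * σ0 ≤ s)
    (H : ∀ p, 0 ≤ p → p ≤ 1 → 2 * K * σ0 ≤ k * p →
      (k ^ 2 * p ^ 2 + 4 * K ^ 2 * σ0 ^ 2) * (1 - p) ≤
        4 * K * (s * p + p ^ 2 / 2 + p ^ 3 / 6 + p ^ 4 / 12 + p ^ 5 / 20))
    (r σ : ℝ) (hr : 0 ≤ r) (hσ : 0 ≤ σ) :
    Real.log (1 + r) + k * (r / (1 + r)) * σ ≤ (1 + s) * r + K * max (σ ^ 2 - σ0 ^ 2) 0 := by
  have h1 : 0 < 1 + r := by linarith
  set p := r / (1 + r) with hp
  have hp0 : 0 ≤ p := by positivity
  have hp1 : p ≤ 1 := by rw [hp, div_le_one h1]; linarith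
  have hlog := log_r r hr
  rw [← hp] at hlog
  have hrp : r = (1 + r) * p := by rw [hp]; field_simp
  have h1p : (1 + r) * (1 - p) = 1 := by rw [hp]; field_simp; ring
  have hpr : p ≤ r := by
    rw [hp, div_le_iff₀ h1]; nlinarith
  have hpos : 0 ≤ (1 + r) * (p ^ 2 / 2 + p ^ 3 / 6 + p ^ 4 / 12 + p ^ 5 / 20) := by positivity
  rcases le_total σ σ0 with h | h
  · -- small energy
    have h2 : k * p * σ ≤ s * r := by
      calc k * p * σ ≤ k * p * σ0 := mul_le_mul_of_nonneg_left h (by positivity)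
        _ = (k * σ0) * p := by ring
        _ ≤ s * p := mul_le_mul_of_nonneg_right hks hp0
        _ ≤ s * r := mul_le_mul_of_nonneg_left hpr hs
    have h3 : 0 ≤ K * max (σ ^ 2 - σ0 ^ 2) 0 := mul_nonneg hK.le (le_max_right _ _)
    linarith
  · have hmx : σ ^ 2 - σ0 ^ 2 ≤ max (σ ^ 2 - σ0 ^ 2) 0 := le_max_left _ _
    have h3 : K * (σ ^ 2 - σ0 ^ 2) ≤ K * max (σ ^ 2 - σ0 ^ 2) 0 :=
      mul_le_mul_of_nonneg_left hmx hK.le
    rcases le_total (k * p) (2 * K * σ0) with h4 | h4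
    · -- tangent at `σ0`
      have h5 : k * p * σ - K * (σ ^ 2 - σ0 ^ 2) ≤ k * p * σ0 := by
        have h6 : k * p - K * (σ + σ0) ≤ 0 := by nlinarith
        nlinarith [mul_nonneg (sub_nonneg.2 h) (neg_nonneg.2 h6)]
      have h2 : k * p * σ0 ≤ s * r := by
        calc k * p * σ0 = (k * σ0) * p := by ring
          _ ≤ s * p := mul_le_mul_of_nonneg_right hks hp0
          _ ≤ s * r := mul_le_mul_of_nonneg_left hpr hs
      linarith
    · -- the maximum over `σ`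
      have h5 : 4 * K * (k * p * σ - K * (σ ^ 2 - σ0 ^ 2)) ≤
          k ^ 2 * p ^ 2 + 4 * K ^ 2 * σ0 ^ 2 := by
        nlinarith [sq_nonneg (k * p - 2 * K * σ)]
      have h6 := H p hp0 hp1 h4
      have h7 : k ^ 2 * p ^ 2 + 4 * K ^ 2 * σ0 ^ 2 ≤ 4 * K * (s * r + (r - Real.log (1 + r))) := by
        have h8 := mul_le_mul_of_nonneg_left h6 h1.le
        have e1 : (1 + r) * ((k ^ 2 * p ^ 2 + 4 * K ^ 2 * σ0 ^ 2) * (1 - p)) =
            k ^ 2 * p ^ 2 + 4 * K ^ 2 * σ0 ^ 2 := by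
          calc (1 + r) * ((k ^ 2 * p ^ 2 + 4 * K ^ 2 * σ0 ^ 2) * (1 - p)) =
              (k ^ 2 * p ^ 2 + 4 * K ^ 2 * σ0 ^ 2) * ((1 + r) * (1 - p)) := by ring
            _ = _ := by rw [h1p, mul_one]
        have e2 : (1 + r) * (4 * K * (s * p + p ^ 2 / 2 + p ^ 3 / 6 + p ^ 4 / 12 + p ^ 5 / 20)) =
            4 * K * (s * ((1 + r) * p) +
              (1 + r) * (p ^ 2 / 2 + p ^ 3 / 6 + p ^ 4 / 12 + p ^ 5 / 20)) := by
          ring
        rw [e1, e2, ← hrp] at h8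
        refine h8.trans (mul_le_mul_of_nonneg_left ?_ (by positivity))
        linarith
      have h9 : 4 * K * (k * p * σ - K * (σ ^ 2 - σ0 ^ 2)) ≤
          4 * K * (s * r + (r - Real.log (1 + r))) := h5.trans h7
      have h10 := le_of_mul_le_mul_left h9 (by positivity)
      linarith

/-- **the loss side of a vertex with two children**: the charge of the second order excess -/
theorem pair_loss_ineq (χ cψ : ℝ)
    (H : ∀ p, 0 ≤ p → p ≤ 1 → χ * p / 2 ≤ cψ + p ^ 2 / 6 + p ^ 3 / 12 + p ^ 4 / 20)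
    (r : ℝ) (hr : 0 ≤ r) :
    Real.log (1 + r) + (1 + χ) * (r ^ 2 / (2 * (1 + r))) ≤ (1 + cψ) * r := by
  have h1 : 0 < 1 + r := by linarith
  set p := r / (1 + r) with hp
  have hp0 : 0 ≤ p := by positivity
  have hp1 : p ≤ 1 := by rw [hp, div_le_one h1]; linarith
  have hlog := log_r r hr
  rw [← hp] at hlog
  have hrp : r = (1 + r) * p := by rw [hp]; field_simp
  have e1 : r ^ 2 / (2 * (1 + r)) = r * p / 2 := by rw [hp]; field_simp
  have h2 := mul_le_mul_of_nonneg_left (H p hp0 hp1) hr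
  have h3 : r * (p ^ 2 / 6 + p ^ 3 / 12 + p ^ 4 / 20) = (1 + r) * (p ^ 3 / 6 + p ^ 4 / 12 +
      p ^ 5 / 20) := by
    conv_lhs => rw [hrp]
    ring
  have h4 : r * p / 2 = (1 + r) * (p ^ 2 / 2) := by
    conv_lhs => rw [hrp]
    ring
  rw [e1]
  nlinarith

end Pool.Agent.TSM
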