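import Pool.Agent.TSM.TwoX
import Pool.Agent.TSM.ExcReal

set_option autoImplicit false

/-!
# The excess form of the invariant (MP_d27362_co)

For every kernel there is a number `e ≥ 0` (the excess of the pending cost) such that the bank is
at least `b + χ e` and the pending cost at most `c + e`.
-/

namespace Pool.Agent.TSM

open Finset Polynomial
open Pool.Agent.TSP
open Pool.Agent.TSO
open Pool.Agent.TSR (OBr Ker sg_true sg_false vS_nonneg)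
open Pool.Agent.TLT (sg)

variable {m : ℕ} {S : Fin m → Fin m → ℝ}

/-- `Maj` with the excess `e` of the pending cost -/
def MajE (S : Fin m → Fin m → ℝ) (F : Fin m → ℝ) (x y : ℝ[X]) (χ b c : ℝ) : Prop :=
  ∃ e : ℝ, 0 ≤ e ∧ Maj S F x y (b + χ * e) (c + e)

/-- `MMaj` with the excess `e` of the pending cost -/
def MMajE (S : Fin m → Fin m → ℝ) (f : Fin m → ℝ) (x y : ℝ[X]) (G0 χ b c : ℝ) : Prop :=
  ∃ e : ℝ, 0 ≤ e ∧ MMaj S f x y G0 (b + χ * e) (c + e)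

theorem Maj.toE {F : Fin m → ℝ} {x y : ℝ[X]} {b c : ℝ} (h : Maj S F x y b c) (χ : ℝ) :
    MajE S F x y χ b c := ⟨0, le_rfl, by simpa using h⟩

theorem MMaj.toE {f : Fin m → ℝ} {x y : ℝ[X]} {G0 b c : ℝ} (h : MMaj S f x y G0 b c) (χ : ℝ) :
    MMajE S f x y G0 χ b c := ⟨0, le_rfl, by simpa using h⟩

theorem MajE.msg (hK : Ker S) {F : Fin m → ℝ} {x y : ℝ[X]} {χ b c : ℝ}
    (h : MajE S F x y χ b c) (hF : ∀ i, 0 ≤ F i) (s : ℝ) (hs : s = 1 ∨ s = -1) :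
    MMajE S (TSO.msg S s F) (s • (1 - X * y)) (s • x) (s * mo S x) χ b c := by
  obtain ⟨e, he, h1⟩ := h
  exact ⟨e, he, h1.msg hK hF s hs⟩

theorem MMajE.cap {f : Fin m → ℝ} {x y : ℝ[X]} {G0 G0' χ b c : ℝ}
    (h : MMajE S f x y G0 χ b c) (hG : G0' ≤ G0) : MMajE S f x y G0' χ b c := by
  obtain ⟨e, he, h1⟩ := h
  exact ⟨e, he, h1.cap hG⟩

theorem MajE.mono {F : Fin m → ℝ} {x y : ℝ[X]} {χ b c b' c' : ℝ} (h : MajE S F x y χ b c)
    (hb : b' ≤ b) (hc : c ≤ c') : MajE S F x y χ b' c' := by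
  obtain ⟨e, he, h1⟩ := h
  exact ⟨e, he, h1.mono (by linarith) (by linarith)⟩

/-- the loss side of one child: `f ≤ M (1 + r + ξ)` -/
theorem one_loss_raw (hK : Ker S) {f : Fin m → ℝ} {x y : ℝ[X]} {M r : ℝ} (hM : 0 < M)
    (hr : 0 ≤ r) (hf : ∀ i, f i ≤ M * (1 + r + st S x y i)) :
    ∃ G : Fin m → ℝ, (∀ i, 0 ≤ G i) ∧ (∀ i, f i ≤ (M * (1 + r)) * (1 + st S x y i + G i)) ∧
      2 * mn G ≤ r / (1 + r) * Real.sqrt (en S x y) := by
  have h1 : 0 < 1 + r := by linarith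
  refine ⟨fun i => r / (1 + r) * max (-(st S x y i)) 0, fun i =>
    mul_nonneg (by positivity) (le_max_right _ _), fun i => ?_, ?_⟩
  · refine (hf i).trans ?_
    have h2 := le_max_left (-(st S x y i)) 0
    have e : M * (1 + r) * (1 + st S x y i + r / (1 + r) * max (-(st S x y i)) 0) =
        M * ((1 + r) * (1 + st S x y i) + r * max (-(st S x y i)) 0) := by
      field_simp
    rw [e]
    apply mul_le_mul_of_nonneg_left _ hM.le
    nlinarith [mul_le_mul_of_nonneg_left h2 hr]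
  · rw [mn_mul]
    have h3 : 2 * mn (fun i => max (-(st S x y i)) 0) ≤ Real.sqrt (en S x y) := by
      have e1 : (fun i => max (-(st S x y i)) 0) =
          fun i => 1 / 2 * (|st S x y i| + -(st S x y i)) := by
        funext i
        rcases le_total (st S x y i) 0 with h | h
        · rw [max_eq_left (by linarith), abs_of_nonpos h]; ring
        · rw [max_eq_right (by linarith), abs_of_nonneg h]; ring
      rw [e1, mn_mul, mn_add, mn_neg, mn_st S hK.anti]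
      have h4 : mn (fun i => |st S x y i|) ≤ Real.sqrt (en S x y) := by
        rw [← ip_st_self hK.anti]
        exact mn_abs_le hK.pos _
      linarith
    calc 2 * (r / (1 + r) * mn fun i => max (-(st S x y i)) 0) =
        r / (1 + r) * (2 * mn fun i => max (-(st S x y i)) 0) := by ring
      _ ≤ _ := mul_le_mul_of_nonneg_left h3 (by positivity)

/-- **one child, excess form**. Gain side: value `(1 - χ0) G0 - K E`, pending cost `κ G0`.
Loss side, for every size of the net loss `r`: `s r + K1 E` resp. `χ r + K2 E - χ c'` -/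
theorem MMajE.one (hK : Ker S) {f : Fin m → ℝ} {x y : ℝ[X]} {G0 χ b c : ℝ}
    (h : MMajE S f x y G0 χ b c) (D1 χ0 K R E P κ s K1 K2 : ℝ) (hD1 : 0 ≤ D1) (hχ0 : 0 < χ0)
    (hχ01 : χ0 ≤ 1) (hχD : D1 ≤ χ0 ^ 2 * (1 + D1)) (hE0 : 0 ≤ E) (hE : en S x y ≤ D1 + E)
    (hR0 : 0 ≤ R) (hR1 : G0 ≤ R) (hKR : R ≤ K * (2 * χ0 * (1 + D1) ^ 2))
    (hG0 : G0 ≤ P) (hP : P ≤ 1 / 2) (hκ0 : 0 ≤ κ) (hκ1 : κ ≤ 1)
    (hκ : 1 ≤ 4 * κ * (1 - P) * (1 + κ * P)) (hs0 : 0 ≤ s) (hsχ : s ≤ χ)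
    (hH1 : ∀ r, 0 ≤ r → Real.log (1 + r) + r / (1 + r) * Real.sqrt (en S x y) ≤
      (1 + s) * r + K1 * E)
    (hH2 : ∀ r, 0 ≤ r → Real.log (1 + r) + (1 + χ) * (r / (1 + r)) * Real.sqrt (en S x y) ≤
      (1 + χ) * r + K2 * E) {b' c' : ℝ}
    (hb1 : b' ≤ b + (1 - χ0) * G0 - K * E)
    (hb2 : b' ≤ b + G0 - s * (c - G0) - K1 * E)
    (hb3 : b' ≤ b + G0 - χ * (c - G0) - K2 * E + χ * c')
    (hc0 : 0 ≤ c') (hc1 : κ * G0 ≤ c') : MajE S f x y χ b' c' := by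
  obtain ⟨e, he, h1⟩ := h
  have hχ00 : 0 ≤ χ := hs0.trans hsχ
  obtain ⟨M, g, hM, hg0, hgc, hlog, hf0, hf⟩ := h1
  have hKE : 0 ≤ K * E := by
    have : 0 ≤ K := by
      by_contra hK0
      push Not at hK0
      have hden : 0 < 2 * χ0 * (1 + D1) ^ 2 := by positivity
      have := mul_neg_of_neg_of_pos hK0 hden
      linarith
    positivity
  rcases le_total g G0 with hρ | hρ
  · -- gain
    set δ := en S x y with hδd
    have hδ0 : 0 ≤ δ := en_nonneg hK.anti x y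
    set χ1 := Real.sqrt (δ / (1 + δ)) with hχd
    have hχ10 : 0 ≤ χ1 := Real.sqrt_nonneg _
    have h1δ : 0 < 1 + δ := by linarith
    have hχ1 : χ1 ≤ 1 := by
      rw [hχd]
      apply Real.sqrt_le_one.2
      rw [div_le_one h1δ]
      linarith
    have hχ2 : δ ≤ χ1 ^ 2 * (1 + δ) := by
      rw [hχd, Real.sq_sqrt (by positivity), div_mul_cancel₀ _ h1δ.ne']
    have htan := chi_tangent δ D1 χ0 hδ0 hD1 hχ0 hχD
    rw [← hχd] at htan
    have hden : 0 < 2 * χ0 * (1 + D1) ^ 2 := by positivity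
    have hG00 : 0 ≤ G0 := hg0.trans hρ
    have hkey : (χ1 - χ0) * G0 ≤ K * E := by
      have h2 : χ1 - χ0 ≤ E / (2 * χ0 * (1 + D1) ^ 2) := by
        have : (δ - D1) / (2 * χ0 * (1 + D1) ^ 2) ≤ E / (2 * χ0 * (1 + D1) ^ 2) :=
          div_le_div_of_nonneg_right (by linarith) hden.le
        linarith
      have h3 : (χ1 - χ0) * G0 ≤ E / (2 * χ0 * (1 + D1) ^ 2) * G0 :=
        mul_le_mul_of_nonneg_right h2 hG00
      refine h3.trans ?_
      rw [div_mul_eq_mul_div, div_le_iff₀ hden]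
      have h4 : E * G0 ≤ E * R := mul_le_mul_of_nonneg_left hR1 hE0
      have h5 : E * R ≤ E * (K * (2 * χ0 * (1 + D1) ^ 2)) := mul_le_mul_of_nonneg_left hKR hE0
      nlinarith
    have hPc : ∀ ρ, 0 ≤ ρ → ρ ≤ G0 → χ1 * (1 - χ1) * ρ ≤ c' * (1 - (1 - χ1 ^ 2) * ρ) := by
      intro ρ h0 h1
      have hρP : ρ ≤ P := by linarith
      have h2 : 1 ≤ 4 * κ * (1 - ρ) * (1 + κ * ρ) := by
        refine hκ.trans ?_
        have h3 : (1 - P) * (1 + κ * P) ≤ (1 - ρ) * (1 + κ * ρ) := by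
          have h31 : 0 ≤ κ * (P - ρ) := mul_nonneg hκ0 (by linarith)
          have h32 : 0 ≤ (P - ρ) * (1 - κ) := mul_nonneg (by linarith) (by linarith)
          have h33 : 0 ≤ κ * (P - ρ) * (P + ρ) := mul_nonneg h31 (by linarith)
          nlinarith
        nlinarith [mul_le_mul_of_nonneg_left h3 (show 0 ≤ 4 * κ by linarith)]
      have h3 : χ1 * (1 - χ1) ≤ κ * (1 - (1 - χ1 ^ 2) * ρ) := by
        have h4 : 0 ≤ κ * ρ := mul_nonneg hκ0 h0
        nlinarith [sq_nonneg (2 * (1 + κ * ρ) * χ1 - 1)]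
      have h5 : 0 ≤ 1 - (1 - χ1 ^ 2) * ρ := by nlinarith [sq_nonneg χ1]
      calc χ1 * (1 - χ1) * ρ ≤ κ * (1 - (1 - χ1 ^ 2) * ρ) * ρ := mul_le_mul_of_nonneg_right h3 h0
        _ = (κ * ρ) * (1 - (1 - χ1 ^ 2) * ρ) := by ring
        _ ≤ (κ * G0) * (1 - (1 - χ1 ^ 2) * ρ) :=
            mul_le_mul_of_nonneg_right (mul_le_mul_of_nonneg_left h1 hκ0) h5
        _ ≤ c' * (1 - (1 - χ1 ^ 2) * ρ) := mul_le_mul_of_nonneg_right hc1 h5
    have hmm : MMaj S f x y G0 (b + χ * e) g := ⟨M, g, hM, hg0, le_rfl, hlog, hf0, hf⟩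
    have hχe : 0 ≤ χ * e := mul_nonneg hχ00 he
    refine (hmm.one hK χ1 hχ10 hχ1 hχ2 (by linarith) (b' := b') (c' := c') ?_ ?_ hc0 hPc ?_).toE χ
    · nlinarith
    · nlinarith [mul_nonneg hχ10 (sub_nonneg.2 hρ)]
    · have : χ1 * (1 + χ1) * (g - G0) ≤ 0 :=
        mul_nonpos_of_nonneg_of_nonpos (by positivity) (by linarith)
      linarith
  · -- loss
    set r := g - G0 with hrd
    have hr : 0 ≤ r := by linarith
    obtain ⟨G, hG, hfG, hmG⟩ := one_loss_raw hK (x := x) (y := y) (f := f) hM hr (fun i => by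
      refine (hf i).trans (le_of_eq ?_)
      rw [hrd]; ring)
    have h1r : 0 < 1 + r := by linarith
    have hrc : r ≤ c + e - G0 := by linarith
    have h1 := hH1 r hr
    have h2 := hH2 r hr
    set cost := r / (1 + r) * Real.sqrt (en S x y) with hcost
    have hchi : χ * r ≤ χ * (c - G0) + χ * e := by
      have := mul_le_mul_of_nonneg_left hrc hχ00
      linarith
    have hsr : s * r ≤ s * (c - G0) + χ * e := by
      have h3 := mul_le_mul_of_nonneg_left hrc hs0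
      have h4 := mul_le_mul_of_nonneg_right hsχ he
      linarith
    refine ⟨max (cost - c') 0, le_max_right _ _, M * (1 + r), G, by positivity, hG, hfG, ?_, ?_⟩
    · rw [Real.log_mul hM.ne' h1r.ne']
      rcases le_total (cost - c') 0 with h3 | h3
      · rw [max_eq_right h3, mul_zero, add_zero]
        linarith
      · rw [max_eq_left h3]
        have h5 : (1 + χ) * (r / (1 + r)) * Real.sqrt (en S x y) = (1 + χ) * cost := by
          rw [hcost]; ring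
        rw [h5] at h2
        nlinarith
    · refine hmG.trans ?_
      have := le_max_left (cost - c') 0
      linarith

/-- **two children, excess form** -/
theorem MMajE.two (hK : Ker S) {f1 f2 : Fin m → ℝ} {x1 y1 x2 y2 : ℝ[X]}
    {G1 G2 χ b1 b2 c1 c2 : ℝ} (h1 : MMajE S f1 x1 y1 G1 χ b1 c1)
    (h2 : MMajE S f2 x2 y2 G2 χ b2 c2)
    (P C κ η G0 cψ : ℝ) (hC : 1 / 2 < C) (hκ : C ≤ κ * (4 * C - 2))
    (hG0 : G0 ≤ G1 + G2) (hGP : G0 ≤ P) (hη1 : η ≤ 1)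
    (hη0 : 0 ≤ η) (hη : ∀ ρ, 0 ≤ ρ → ρ ≤ P → 1 - ρ + κ * ρ ^ 2 ≤ Real.exp (-(η * ρ)))
    (hψ0 : 0 ≤ cψ) (hψχ : cψ ≤ χ)
    (hψ : ∀ r, 0 ≤ r → Real.log (1 + r) + (1 + χ) * (r ^ 2 / (2 * (1 + r))) ≤ (1 + cψ) * r)
    {b' c' : ℝ}
    (hb1 : b' ≤ b1 + b2 + η * G0 - C * en S (x1 + x2) (y1 + y2))
    (hb2 : b' ≤ b1 + b2 + G0 - en S (x1 + x2) (y1 + y2) / 2 - cψ * (c1 + c2 - G0))
    (hc1 : C * en S (x1 + x2) (y1 + y2) ≤ c') :
    MajE S (fun i => f1 i * f2 i) (x1 + x2) (y1 + y2) χ b' c' := by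
  obtain ⟨e1, he1, k1⟩ := h1
  obtain ⟨e2, he2, k2⟩ := h2
  have hχ0 : 0 ≤ χ := hψ0.trans hψχ
  obtain ⟨M1, g1, hM1, hg1, hgc1, hlog1, hf1, hb1'⟩ := k1
  obtain ⟨M2, g2, hM2, hg2, hgc2, hlog2, hf2, hb2'⟩ := k2
  have hδ0 : 0 ≤ en S (x1 + x2) (y1 + y2) := en_nonneg hK.anti _ _
  rcases le_total (g1 + g2) G0 with hρ | hρ
  · -- gain: use `two_exp` with the true pending costs
    have m1 : MMaj S f1 x1 y1 G1 (b1 + χ * e1) g1 := ⟨M1, g1, hM1, hg1, le_rfl, hlog1, hf1, hb1'⟩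
    have m2 : MMaj S f2 x2 y2 G2 (b2 + χ * e2) g2 := ⟨M2, g2, hM2, hg2, le_rfl, hlog2, hf2, hb2'⟩
    have hχe1 : 0 ≤ χ * e1 := mul_nonneg hχ0 he1
    have hχe2 : 0 ≤ χ * e2 := mul_nonneg hχ0 he2
    have hG00 : 0 ≤ G0 := by linarith
    have hηG : η * G0 ≤ G0 := mul_le_of_le_one_left hG00 hη1
    have hCδ : en S (x1 + x2) (y1 + y2) / 2 ≤ C * en S (x1 + x2) (y1 + y2) := by
      nlinarith
    refine (m1.two_exp hK m2 P C κ η G0 0 hC hκ hG0 hGP hη1 hη0 hη le_rfl (by linarith)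
      (b' := b') (c' := c') ?_ ?_ hc1 ?_).toE χ
    · linarith
    · linarith
    · simp only [zero_div, zero_mul, add_zero]
      linarith
  · -- loss
    set r := g1 + g2 - G0 with hrd
    have hr : 0 ≤ r := by linarith
    have hb1'' : ∀ i, f1 i ≤ M1 * (1 - (G0 - G2 - g1) + st S x1 y1 i) := fun i =>
      (hb1' i).trans (mul_le_mul_of_nonneg_left (by linarith) hM1.le)
    have hρe : (G0 - G2 - g1) + (G2 - g2) = -r := by rw [hrd]; ring
    obtain ⟨G, hG, hGb, hmG⟩ := two_raw hK (S := S) (x := x1 + x2) (y := y1 + y2) hM1 hM2 hf1 hf2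
      hb1'' hb2' (fun i => by rw [st_add]; rfl) (by rw [hρe]; linarith)
    rw [hρe] at hmG hGb
    have h1r : 0 < 1 + r := by linarith
    have e1' : 1 - -r = 1 + r := by ring
    rw [e1'] at hmG hGb
    rw [neg_sq, add_div] at hmG
    have hδr : en S (x1 + x2) (y1 + y2) / (2 * (1 + r)) ≤ en S (x1 + x2) (y1 + y2) / 2 :=
      div_le_div_of_nonneg_left hδ0 (by norm_num) (by linarith)
    have h3 := hψ r hr
    have hrc : r ≤ (c1 + c2 - G0) + (e1 + e2) := by linarith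
    have h4 : cψ * r ≤ cψ * (c1 + c2 - G0) + χ * (e1 + e2) := by
      have h5 := mul_le_mul_of_nonneg_left hrc hψ0
      have h6 := mul_le_mul_of_nonneg_right hψχ (show 0 ≤ e1 + e2 by linarith)
      linarith
    have hq0 : 0 ≤ r ^ 2 / (2 * (1 + r)) := by positivity
    have hCδ : en S (x1 + x2) (y1 + y2) / 2 ≤ C * en S (x1 + x2) (y1 + y2) := by
      nlinarith
    refine ⟨r ^ 2 / (2 * (1 + r)), hq0, M1 * M2 * (1 + r), G, by positivity, hG, hGb, ?_, ?_⟩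
    · rw [Real.log_mul (by positivity) h1r.ne', Real.log_mul hM1.ne' hM2.ne', hmG]
      linarith
    · rw [hmG]
      linarith

/-! ### the tree level -/

/-- the tree level predicate in the excess form; `χ` is a function of the total mass -/
def GoodE (χ : ℝ → ℝ) (O : OBr) (V c : ℝ → ℝ → ℝ) : Prop :=
  ∀ (m : ℕ) (S : Fin m → Fin m → ℝ), Ker S → ∀ w t : Fin m → ℝ, Rep S w t →
    MajE S (O.vS S) (XX O) (YY O) (χ (dee S)) (nu w t (V (dee S))) (nu w t (c (dee S)))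

lemma Good.toE {O : OBr} {V c : ℝ → ℝ → ℝ} (h : Good O V c) (χ : ℝ → ℝ) : GoodE χ O V c :=
  fun m S hS w t hR => (h m S hS w t hR).toE _

lemma GoodE.rev {χ : ℝ → ℝ} {O : OBr} {V c : ℝ → ℝ → ℝ} (h : GoodE χ O V c) :
    GoodE χ O.rev V c := by
  intro m S hS w t hR
  have h1 := h m _ (TSR.Ker_neg hS) w t hR.neg
  rw [dee_negk] at h1
  obtain ⟨e, he, M, G, hM, hG, hF, hlog, hc⟩ := h1
  refine ⟨e, he, M, G, hM, hG, fun i => ?_, hlog, hc⟩
  rw [TSR.vS_rev, XX_rev, YY_rev]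
  have h2 := hF i
  rwa [st_negk] at h2

lemma GoodE.mono {χ : ℝ → ℝ} {O : OBr} {V c V' c' : ℝ → ℝ → ℝ} (h : GoodE χ O V c)
    (hV : ∀ D, RD D → ILe D (V' D) (V D)) (hc : ∀ D, RD D → ILe D (c D) (c' D)) :
    GoodE χ O V' c' := fun m S hS w t hR =>
  (h m S hS w t hR).mono (hV _ ⟨hR.dee_nonneg, hR.dee_le⟩ m S hS w t hR rfl)
    (hc _ ⟨hR.dee_nonneg, hR.dee_le⟩ m S hS w t hR rfl)

/-- the message of a good child -/
lemma GoodE.msg {χ : ℝ → ℝ} {O : OBr} {V c : ℝ → ℝ → ℝ} (h : GoodE χ O V c) (σ e : Bool)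
    {m : ℕ} {S : Fin m → Fin m → ℝ} (hS : Ker S) {w t : Fin m → ℝ} (hR : Rep S w t) :
    MMajE S (ms S (cn σ e O)) (sg σ • (1 - X * YY O)) (sg e • XX O)
      (nu w t fun a => sg e * (XX O).eval a) (χ (dee S)) (nu w t (V (dee S)))
      (nu w t (c (dee S))) := by
  have hG : GoodE χ (cn σ e O).2 V c := by
    unfold cn
    dsimp only
    split_ifs
    · exact h
    · exact h.rev
  have h1 := (hG m S hS w t hR).msg hS (fun i => vS_nonneg hS _ i) (sg σ) (sg_or σ)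
  rw [cn_YY, cn_XX] at h1
  rw [ms_eq_msg, cn_fst]
  have h2 : sg σ * mo S (XX (cn σ e O).2) = nu w t fun a => sg e * (XX O).eval a := by
    rw [← mo_smul, cn_XX, mo_smul, hR.mo_nu, nu_mul]
  rw [h2] at h1
  exact h1

/-- the end of the proof: a good tree with nonnegative potential has mean at most one -/
lemma GoodE.final {χ : ℝ → ℝ} {O : OBr} {V c : ℝ → ℝ → ℝ} (h : GoodE χ O V c)
    (hχ : ∀ D, RD D → 0 ≤ χ D) (hV : ∀ D, RD D → ILe D (fun _ => 0) (V D)) :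
    ∀ (m : ℕ) (S : Fin m → Fin m → ℝ), Ker S → mn (O.vS S) ≤ 1 := by
  intro m S hS
  obtain ⟨w, t, hR⟩ := exists_rep hS
  obtain ⟨e, he, h1⟩ := h m S hS w t hR
  have hRD : RD (dee S) := ⟨hR.dee_nonneg, hR.dee_le⟩
  have h2 := hV _ hRD m S hS w t hR rfl
  rw [nu_zero] at h2
  have h3 := h1.mean_le hS (add_nonneg h2 (mul_nonneg (hχ _ hRD) he))
  rwa [TSO.ip_one] at h3

/-- the constants of the loss side of a stem for the total mass `D`: `σ0² ≥ D1`. The polynomial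
inequality is used for `k = 1` and for `k = 1 + χ` -/
structure LossC (D1 σ0 s k K : ℝ) : Prop where
  hs : 0 ≤ s
  hk : 0 ≤ k
  hK : 0 < K
  hσ0 : 0 ≤ σ0
  hks : k * σ0 ≤ s
  hσD : D1 ≤ σ0 ^ 2
  H : ∀ p, 0 ≤ p → p ≤ 1 → 2 * K * σ0 ≤ k * p →
      (k ^ 2 * p ^ 2 + 4 * K ^ 2 * σ0 ^ 2) * (1 - p) ≤
        4 * K * (s * p + p ^ 2 / 2 + p ^ 3 / 6 + p ^ 4 / 12 + p ^ 5 / 20)

theorem LossC.ineq {D1 σ0 s k K : ℝ} (h : LossC D1 σ0 s k K) {δ E : ℝ} (hδ0 : 0 ≤ δ)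
    (hE0 : 0 ≤ E) (hδ : δ ≤ D1 + E) (r : ℝ) (hr : 0 ≤ r) :
    Real.log (1 + r) + k * (r / (1 + r)) * Real.sqrt δ ≤ (1 + s) * r + K * E := by
  have h1 := loss_ineq s k K σ0 h.hs h.hk h.hK h.hσ0 h.hks h.H r (Real.sqrt δ) hr
    (Real.sqrt_nonneg _)
  rw [Real.sq_sqrt hδ0] at h1
  have h2 : K * max (δ - σ0 ^ 2) 0 ≤ K * E := by
    apply mul_le_mul_of_nonneg_left _ h.hK.le
    apply max_le _ hE0
    have := h.hσD
    linarith
  linarith

/-- the constants of the step with one child in the excess form, gain side -/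
structure OneE (D D1 χ0 K r κ : ℝ) : Prop where
  hD : D ≤ D1
  hχ0 : 0 < χ0
  hχ01 : χ0 ≤ 1
  hχD : D1 ≤ χ0 ^ 2 * (1 + D1)
  hr0 : 0 ≤ r
  hr : r * D ≤ 1 / 2
  hK : r * D ≤ K * (2 * χ0 * (1 + D1) ^ 2)
  hκ0 : 0 ≤ κ
  hκ1 : κ ≤ 1
  hκ : 1 ≤ 4 * κ * (1 - r * D) * (1 + κ * (r * D))

/-- **stem, excess form** -/
theorem GoodE.stem {χ : ℝ → ℝ} {O : OBr} {V c V' c' : ℝ → ℝ → ℝ} (h : GoodE χ O V c) (e : Bool)
    (D1 χ0 K r κ σ0 s K1 K2 : ℝ → ℝ) (g Ex : ℝ → ℝ → ℝ)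
    (hC : ∀ D, RD D → OneE D (D1 D) (χ0 D) (K D) (r D) (κ D))
    (hL1 : ∀ D, RD D → LossC (D1 D) (σ0 D) (s D) 1 (K1 D))
    (hL2 : ∀ D, RD D → LossC (D1 D) (σ0 D) (χ D) (1 + χ D) (K2 D))
    (hsχ : ∀ D, RD D → s D ≤ χ D)
    (hg : ∀ D, RD D → ILe D (g D) (fun a => sg e * (XX O).eval a))
    (hgr : ∀ D, RD D → ILe D (g D) (fun _ => r D))
    (hE0 : ∀ D, RD D → ILe D (fun _ => 0) (Ex D))
    (hE : ∀ D, RD D → ILe D (fun a => (1 - a * (YY O).eval a) ^ 2 + a * (XX O).eval a ^ 2)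
      (fun a => 1 + Ex D a))
    (hb1 : ∀ D, RD D → ILe D (V' D) (fun a => V D a + (1 - χ0 D) * g D a - K D * Ex D a))
    (hb2 : ∀ D, RD D → ILe D (V' D) (fun a => V D a + g D a - s D * (c D a - g D a) -
      K1 D * Ex D a))
    (hb3 : ∀ D, RD D → ILe D (V' D) (fun a => V D a + g D a - χ D * (c D a - g D a) -
      K2 D * Ex D a + χ D * c' D a))
    (hc0 : ∀ D, RD D → ILe D (fun _ => 0) (c' D))
    (hc1 : ∀ D, RD D → ILe D (fun a => κ D * g D a) (c' D)) :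
    GoodE χ (.mk [cn true e O]) V' c' := by
  intro m S hS w t hR
  have hM := h.msg true e hS hR
  have hRD : RD (dee S) := ⟨hR.dee_nonneg, hR.dee_le⟩
  have hK := hC (dee S) hRD
  have hl1 := hL1 (dee S) hRD
  have hl2 := hL2 (dee S) hRD
  have e1 : XX (.mk [cn true e O]) = sg true • (1 - X * YY O) := by
    rw [XX_mk]
    simp [cn_YY]
  have e2 : YY (.mk [cn true e O]) = sg e • XX O := by
    rw [YY_mk]
    simp only [List.map_cons, List.map_nil, List.sum_cons, List.sum_nil, add_zero, cn_fst, cn_XX]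
  have e3 : (OBr.mk [cn true e O]).vS S = ms S (cn true e O) := by
    funext x
    rw [vS_mk_ms]
    simp
  rw [e1, e2, e3]
  have hgg := hg _ hRD m S hS w t hR rfl
  have hgr' : nu w t (g (dee S)) ≤ r (dee S) * dee S := by
    have := hgr _ hRD m S hS w t hR rfl
    rwa [hR.nu_const] at this
  have hE0' : 0 ≤ nu w t (Ex (dee S)) := by
    have := hE0 _ hRD m S hS w t hR rfl
    rwa [nu_zero] at this
  have hen : en S (sg true • (1 - X * YY O)) (sg e • XX O) ≤ D1 (dee S) + nu w t (Ex (dee S)) := by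
    have h1 := hE _ hRD m S hS w t hR rfl
    have h1' : (nu w t fun a => 1 + Ex (dee S) a) = dee S + nu w t (Ex (dee S)) := by
      rw [nu_add, hR.nu_const, one_mul]
    rw [h1'] at h1
    rw [hR.en_nu]
    have h2 : (nu w t fun a => (sg true • (1 - X * YY O)).eval a ^ 2 +
        a * (sg e • XX O).eval a ^ 2) = nu w t fun a => (1 - a * (YY O).eval a) ^ 2 +
        a * (XX O).eval a ^ 2 := by
      congr 1
      funext a
      simp only [eval_smul, eval_sub, eval_one, eval_mul, eval_X, smul_eq_mul, sg_true, one_mul]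
      rw [mul_pow, sq (sg e), sg_mul_self, one_mul]
    rw [h2]
    linarith [hK.hD]
  have hen0 : 0 ≤ en S (sg true • (1 - X * YY O)) (sg e • XX O) := en_nonneg hS.anti _ _
  have hM2 := hM.cap hgg
  refine hM2.one hS (D1 (dee S)) (χ0 (dee S)) (K (dee S)) (r (dee S) * dee S)
    (nu w t (Ex (dee S))) (r (dee S) * dee S) (κ (dee S)) (s (dee S)) (K1 (dee S)) (K2 (dee S))
    (hR.dee_nonneg.trans hK.hD) hK.hχ0 hK.hχ01 hK.hχD hE0' hen
    (mul_nonneg hK.hr0 hR.dee_nonneg) hgr' hK.hK hgr' hK.hr hK.hκ0 hK.hκ1 hK.hκ hl1.hs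
    (hsχ _ hRD) (fun r hr => ?_) (fun r hr => ?_) ?_ ?_ ?_ ?_ ?_
  · have := hl1.ineq hen0 hE0' hen r hr
    rwa [one_mul] at this
  · exact hl2.ineq hen0 hE0' hen r hr
  · have h1 := hb1 _ hRD m S hS w t hR rfl
    rw [nu_sub, nu_add, nu_mul, nu_mul] at h1
    exact h1
  · have h1 := hb2 _ hRD m S hS w t hR rfl
    rw [nu_sub, nu_sub, nu_add, nu_mul, nu_mul, nu_sub] at h1
    exact h1
  · have h1 := hb3 _ hRD m S hS w t hR rfl
    rw [nu_add, nu_sub, nu_sub, nu_add, nu_mul, nu_mul, nu_mul, nu_sub] at h1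
    exact h1
  · have h1 := hc0 _ hRD m S hS w t hR rfl
    rwa [nu_zero] at h1
  · have h1 := hc1 _ hRD m S hS w t hR rfl
    rwa [nu_mul] at h1

/-- the constants of the step with two children in the excess form -/
structure TwoE (D r C κ η χ cψ : ℝ) : Prop where
  hC : 1 / 2 < C
  hκ : C ≤ κ * (4 * C - 2)
  hr0 : 0 ≤ r
  hη0 : 0 ≤ η
  hη1 : η ≤ 1
  hκη : η ^ 2 / 2 ≤ κ
  hP : η * (r * D) ≤ 1
  hη : (κ - η ^ 2 / 2) * (r * D) + η ^ 3 * (r * D) ^ 2 / 6 ≤ 1 - η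
  hψ0 : 0 ≤ cψ
  hψχ : cψ ≤ χ
  hψ : ∀ p, 0 ≤ p → p ≤ 1 → χ * p / 2 ≤ cψ + p ^ 2 / 6 + p ^ 3 / 12 + p ^ 4 / 20

/-- **two children, excess form** -/
theorem GoodE.pair {χ : ℝ → ℝ} {O1 O2 : OBr} {V1 c1 V2 c2 V' c' : ℝ → ℝ → ℝ}
    (h1 : GoodE χ O1 V1 c1) (h2 : GoodE χ O2 V2 c2) (σ1 e1 σ2 e2 : Bool)
    (r C κ η cψ : ℝ → ℝ) (g q : ℝ → ℝ → ℝ)
    (hC : ∀ D, RD D → TwoE D (r D) (C D) (κ D) (η D) (χ D) (cψ D))
    (hg : ∀ D, RD D → ILe D (g D) (fun a => sg e1 * (XX O1).eval a + sg e2 * (XX O2).eval a))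
    (hgr : ∀ D, RD D → ILe D (g D) (fun _ => r D))
    (hq : ∀ D, RD D → ILe D (fun a => (sg σ1 * (1 - a * (YY O1).eval a) +
      sg σ2 * (1 - a * (YY O2).eval a)) ^ 2 + a * (sg e1 * (XX O1).eval a +
      sg e2 * (XX O2).eval a) ^ 2) (q D))
    (hb1 : ∀ D, RD D → ILe D (V' D) (fun a => V1 D a + V2 D a + η D * g D a - C D * q D a))
    (hb2 : ∀ D, RD D → ILe D (V' D) (fun a => V1 D a + V2 D a + g D a - 1 / 2 * q D a -
      cψ D * (c1 D a + c2 D a - g D a)))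
    (hc1 : ∀ D, RD D → ILe D (fun a => C D * q D a) (c' D)) :
    GoodE χ (.mk [cn σ1 e1 O1, cn σ2 e2 O2]) V' c' := by
  intro m S hS w t hR
  have hM1 := h1.msg σ1 e1 hS hR
  have hM2 := h2.msg σ2 e2 hS hR
  have hRD : RD (dee S) := ⟨hR.dee_nonneg, hR.dee_le⟩
  have hK := hC (dee S) hRD
  have ex : XX (.mk [cn σ1 e1 O1, cn σ2 e2 O2]) =
      sg σ1 • (1 - X * YY O1) + sg σ2 • (1 - X * YY O2) := by
    rw [XX_mk]
    simp [cn_YY]
  have ey : YY (.mk [cn σ1 e1 O1, cn σ2 e2 O2]) = sg e1 • XX O1 + sg e2 • XX O2 := by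
    rw [YY_mk]
    simp only [List.map_cons, List.map_nil, List.sum_cons, List.sum_nil, add_zero, cn_fst, cn_XX]
  have ev : (OBr.mk [cn σ1 e1 O1, cn σ2 e2 O2]).vS S =
      fun z => ms S (cn σ1 e1 O1) z * ms S (cn σ2 e2 O2) z := by
    funext x
    rw [vS_mk_ms]
    simp
  rw [ex, ey, ev]
  have hgr' : nu w t (g (dee S)) ≤ r (dee S) * dee S := by
    have := hgr _ hRD m S hS w t hR rfl
    rwa [hR.nu_const] at this
  have hen : en S (sg σ1 • (1 - X * YY O1) + sg σ2 • (1 - X * YY O2))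
      (sg e1 • XX O1 + sg e2 • XX O2) ≤ nu w t (q (dee S)) := by
    have h3 := hq _ hRD m S hS w t hR rfl
    rw [hR.en_nu]
    refine le_trans (le_of_eq ?_) h3
    congr 1
    funext a
    simp only [eval_smul, eval_sub, eval_one, eval_mul, eval_X, eval_add, smul_eq_mul]
  have hC0 : 0 ≤ C (dee S) := by linarith [hK.hC]
  have hCen := mul_le_mul_of_nonneg_left hen hC0
  refine hM1.two hS hM2 (r (dee S) * dee S) (C (dee S)) (κ (dee S)) (η (dee S))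
    (nu w t (g (dee S))) (cψ (dee S)) hK.hC hK.hκ ?_ hgr' hK.hη1 hK.hη0
    (fun ρ h0 h1 => exp_crit _ _ _ ρ hK.hη0 hK.hκη hK.hP h0 h1 hK.hη) hK.hψ0 hK.hψχ
    (fun r hr => pair_loss_ineq _ _ hK.hψ r hr) ?_ ?_ ?_
  · have h3 := hg _ hRD m S hS w t hR rfl
    rw [nu_add] at h3
    exact h3
  · have h3 := hb1 _ hRD m S hS w t hR rfl
    rw [nu_sub, nu_add, nu_add, nu_mul, nu_mul] at h3
    linarith
  · have h3 := hb2 _ hRD m S hS w t hR rfl
    rw [nu_sub, nu_sub, nu_add, nu_add, nu_mul, nu_mul, nu_sub, nu_add] at h3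
    linarith
  · have h3 := hc1 _ hRD m S hS w t hR rfl
    rw [nu_mul] at h3
    linarith

end Pool.Agent.TSM
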