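import Pool.Agent.TSM.Lab2
import Pool.Agent.TSM.EvenF

set_option autoImplicit false

/-!
# Families of children: signs with square bounds and the splitting of the new state
(MP_d27362_co)

The new state of a vertex with the children `O i` is `U' = Σ ± y_i`, `y' = n - X G`,
`G = Σ ± U_i`. All quantities of the new state are bounded by sums over the children.
-/

namespace Pool.Agent.TSM

open Finset Polynomial
open Pool.Agent.TSR (OBr sigma_even sigma_odd_sq lab_one lab_zero)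
open Pool.Agent.TLT (sg)
open Pool.Agent.TDN (dn dn_nonneg)

noncomputable section

/-- the cap of the values: at most `c` and at most the square root of the sum of the squares -/
def capv {K : ℕ} (c : ℝ) (v : Fin K → ℝ) : ℝ := min c (Real.sqrt (∑ i, v i ^ 2))

lemma le_capv {K : ℕ} {c : ℝ} {v : Fin K → ℝ} (hc : ∀ i, v i ≤ c) (i : Fin K) :
    v i ≤ capv c v := by
  unfold capv
  rw [le_min_iff]
  refine ⟨hc i, Real.le_sqrt_of_sq_le ?_⟩
  exact single_le_sum (f := fun i => v i ^ 2) (fun i _ => sq_nonneg _) (mem_univ i)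

lemma capv_le {K : ℕ} (c : ℝ) (v : Fin K → ℝ) : capv c v ≤ c := min_le_left _ _

lemma capv_nonneg {K : ℕ} {c : ℝ} (hc : 0 ≤ c) (v : Fin K → ℝ) : 0 ≤ capv c v :=
  le_min hc (Real.sqrt_nonneg _)

lemma capv_sq {K : ℕ} {c : ℝ} (hc : 0 ≤ c) (v : Fin K → ℝ) : capv c v ^ 2 ≤ ∑ i, v i ^ 2 := by
  have h0 : 0 ≤ ∑ i, v i ^ 2 := sum_nonneg fun i _ => sq_nonneg _
  have h1 : capv c v ≤ Real.sqrt (∑ i, v i ^ 2) := min_le_right _ _
  have h2 := capv_nonneg hc v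
  have h3 := Real.sq_sqrt h0
  nlinarith [Real.sqrt_nonneg (∑ i, v i ^ 2)]

/-- **signs of the states**, odd number of children with `τ = 1` -/
theorem e_one' {K : ℕ} (O : Fin K → OBr) (h : ∀ i, Inv (O i)) (hc : Odd (n1 O)) :
    ∃ e : Fin K → Bool, (∀ σ, YY (fam σ e O) = 1 - X * gU e O) ∧
      |(gU e O).eval q0| ≤ 2 ∧ (gU e O).eval q0 ^ 2 ≤ ∑ i, vU (O i) ^ 2 ∧
      dn q0 (gU e O) ^ 2 ≤ 2 * ∑ i, aU (O i) ^ 2 := by
  classical
  set c := capv 2 fun i => vU (O i) with hcd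
  have hc2 : c ≤ 2 := capv_le _ _
  have hc0 : 0 ≤ c := capv_nonneg (by norm_num) _
  have hcs : c ^ 2 ≤ ∑ i, vU (O i) ^ 2 := capv_sq (by norm_num) _
  obtain ⟨e, h1, h2, h3⟩ := lab_one (T := q0) (fun i => tau (O i) = 1) q0_pos.le
    (by
      have := n1_eq O
      convert hc using 1
      rw [this]) (fun i => UU (O i)) c (fun i => (h i).2.1)
      (fun i => le_capv (v := fun i => vU (O i)) (fun i => (h i).2.2.1) i)
  refine ⟨e, fun σ => ?_, h2.trans hc2, ?_, h3⟩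
  · rw [YY_lab σ e O h]
    congr 1
    rw [← C_1]
    congr 1
  · refine le_trans ?_ hcs
    rw [← sq_abs]
    exact pow_le_pow_left₀ (abs_nonneg _) h2 2

/-- **signs of the states**, even number of children with `τ = 1` -/
theorem e_zero' {K : ℕ} (O : Fin K → OBr) (h : ∀ i, Inv (O i)) (hc : Even (n1 O)) :
    ∃ e : Fin K → Bool, (∀ σ, YY (fam σ e O) = - (X * gU e O)) ∧
      (gU e O).eval q0 ≤ 0 ∧ -4 ≤ (gU e O).eval q0 ∧
      (gU e O).eval q0 ^ 2 ≤ 4 * ∑ i, vU (O i) ^ 2 ∧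
      dn q0 (gU e O) ^ 2 ≤ 2 * ∑ i, aU (O i) ^ 2 := by
  classical
  have hn := n1_eq O
  set c := capv 2 fun i => vU (O i) with hcd
  have hc2 : c ≤ 2 := capv_le _ _
  have hc0 : 0 ≤ c := capv_nonneg (by norm_num) _
  have hcs : c ^ 2 ≤ ∑ i, vU (O i) ^ 2 := capv_sq (by norm_num) _
  obtain ⟨e, h1, h2, h3⟩ := lab_zero (T := q0) (fun i => tau (O i) = 1) q0_pos.le
    (by
      convert hc using 1
      rw [hn]) (fun i => UU (O i)) c hc0 (fun i => (h i).2.1)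
      (fun i => le_capv (v := fun i => vU (O i)) (fun i => (h i).2.2.1) i)
  have hY : ∀ σ, YY (fam σ e O) = - (X * gU e O) := by
    intro σ
    rw [YY_lab σ e O h]
    have h4 : (∑ i : {i // tau (O i) = 1}, sg (e i)) = 0 := by
      convert h1
    rw [h4, C_0, zero_sub]
  have h2' : (gU e O).eval q0 ^ 2 ≤ 4 * ∑ i, vU (O i) ^ 2 := by
    have h5 : (gU e O).eval q0 ^ 2 ≤ (2 * c) ^ 2 := by
      rw [← sq_abs]
      exact pow_le_pow_left₀ (abs_nonneg _) h2 2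
    nlinarith
  rw [abs_le] at h2
  rcases le_total ((gU e O).eval q0) 0 with h5 | h5
  · exact ⟨e, hY, h5, by unfold gU at *; linarith [h2.1], h2', h3⟩
  · have e0 : gU (fun i => !(e i)) O = - gU e O := by
      unfold gU
      exact TSR.sum_flip e _
    refine ⟨fun i => !(e i), fun σ => ?_, ?_, ?_, ?_, ?_⟩
    · have h6 := hY σ
      rw [e0, fam_YY]
      rw [fam_YY] at h6
      rw [TSR.sum_flip, h6]
      ring
    · rw [e0, eval_neg]; linarith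
    · rw [e0, eval_neg]
      have h7 := h2.2
      unfold gU at *
      linarith
    · rw [e0, eval_neg, neg_sq]
      exact h2'
    · rw [e0, TDN.dn_neg]
      exact h3

/-- **signs of the states**: `y' = n - X G`, `n ∈ {0, 1}` the parity of the number of children
with `τ = 1` -/
theorem e_par {K : ℕ} (O : Fin K → OBr) (h : ∀ i, Inv (O i)) :
    ∃ e : Fin K → Bool, ∃ n : ℕ, n = n1 O % 2 ∧ (∀ σ, YY (fam σ e O) = C (n : ℝ) - X * gU e O) ∧
      (gU e O).eval q0 ^ 2 ≤ 16 - 12 * n ∧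
      0 ≤ (n : ℝ) - q0 * (gU e O).eval q0 ∧ (n : ℝ) - q0 * (gU e O).eval q0 ≤ 2 ∧
      (gU e O).eval q0 ^ 2 ≤ (4 - 3 * n) * ∑ i, vU (O i) ^ 2 ∧
      dn q0 (gU e O) ^ 2 ≤ 2 * ∑ i, aU (O i) ^ 2 := by
  have hq := q0_pos
  have hq1 := q0_le
  rcases Nat.even_or_odd (n1 O) with hc | hc
  · obtain ⟨e, h1, h2, h3, h4, h5⟩ := e_zero' O h hc
    refine ⟨e, 0, (Nat.even_iff.mp hc).symm, fun σ => ?_, ?_, ?_, ?_, ?_, h5⟩
    · rw [h1, Nat.cast_zero, C_0, zero_sub]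
    · push_cast
      nlinarith
    · push_cast
      nlinarith
    · push_cast
      nlinarith
    · push_cast
      linarith
  · obtain ⟨e, h1, h2, h3, h4⟩ := e_one' O h hc
    rw [abs_le] at h2
    obtain ⟨h2a, h2b⟩ := h2
    refine ⟨e, 1, (Nat.odd_iff.mp hc).symm, fun σ => ?_, ?_, ?_, ?_, ?_, h4⟩
    · rw [h1, Nat.cast_one, C_1]
    · push_cast
      nlinarith
    · push_cast
      nlinarith
    · push_cast
      nlinarith
    · push_cast
      linarith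

/-! ### sums with few nonzero terms -/

lemma sq_sum_le_N {ι : Type*} [Fintype ι] [DecidableEq ι] (N : Finset ι) (m : ℝ)
    (hm : (N.card : ℝ) ≤ m) (σ x : ι → ℝ) (hσ : ∀ i, σ i ^ 2 = 1) (h0 : ∀ i ∉ N, x i = 0) :
    (∑ i, σ i * x i) ^ 2 ≤ m * ∑ i, x i ^ 2 := by
  have e1 : ∑ i, σ i * x i = ∑ i ∈ N, σ i * x i := by
    rw [← sum_subset (subset_univ N)]
    intro i _ hi
    rw [h0 i hi, mul_zero]
  have e2 : ∑ i, x i ^ 2 = ∑ i ∈ N, x i ^ 2 := by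
    rw [← sum_subset (subset_univ N)]
    intro i _ hi
    rw [h0 i hi]
    norm_num
  rw [e1, e2]
  refine (sq_sum_le_card_mul_sum_sq (s := N) (f := fun i => σ i * x i)).trans ?_
  have e3 : ∀ i, (σ i * x i) ^ 2 = x i ^ 2 := fun i => by rw [mul_pow, hσ, one_mul]
  simp only [e3]
  exact mul_le_mul_of_nonneg_right hm (sum_nonneg fun i _ => sq_nonneg _)

/-! ### splitting of the new state -/

/-- the weights of the squares: the square of a value which is near `v` with deviation at most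
`θ a` -/
lemma near_sq {x v θ a r1 r2 : ℝ} (h : |x - v| ≤ θ * a) (hr1 : 1 < r1)
    (hr : 1 ≤ (r1 - 1) * (r2 - 1)) : x ^ 2 ≤ r1 * v ^ 2 + r2 * (θ ^ 2 * a ^ 2) := by
  set d := x - v with hd
  have hx : x = v + d := by rw [hd]; ring
  have h1 : d ^ 2 ≤ θ ^ 2 * a ^ 2 := by
    rw [← mul_pow, ← sq_abs]
    exact pow_le_pow_left₀ (abs_nonneg _) h 2
  have h2 : 0 < r1 - 1 := by linarith
  have h3 : 0 < r2 - 1 := by
    by_contra h4
    push Not at h4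
    nlinarith
  have h4 : 2 * v * d ≤ (r1 - 1) * v ^ 2 + (r2 - 1) * d ^ 2 := by
    have h5 : 0 ≤ (r1 - 1) * ((r1 - 1) * v ^ 2 + (r2 - 1) * d ^ 2 - 2 * v * d) := by
      have h6 : d ^ 2 ≤ (r1 - 1) * (r2 - 1) * d ^ 2 := le_mul_of_one_le_left (sq_nonneg _) hr
      nlinarith [sq_nonneg ((r1 - 1) * v - d)]
    nlinarith [nonneg_of_mul_nonneg_right h5 h2]
  rw [hx]
  nlinarith

/-- the weights of the splitting of `B x² + p v² + q a²`: `x` is a sum of at most `m` terms, `v`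
its value at `q0`, `a` its seminorm. `Kx`, `Kv`, `Ka` are the coefficients of the sums of the
squares of the children and `k` is a constant -/
structure Wt (B p q m f θ vm fv k Kx Kv Ka : ℝ) : Prop where
  /-- there are splittings -/
  spl : ∃ B1 B2 r1 r2 Z1 Z2 : ℝ, 0 ≤ B1 ∧ 0 ≤ B2 ∧ 0 ≤ Z1 ∧ 0 ≤ Z2 ∧ B ≤ B1 + B2 ∧ 1 < r1 ∧
    1 ≤ (r1 - 1) * (r2 - 1) ∧ r1 * B2 + p ≤ Z1 + Z2 ∧ m * B1 ≤ Kx ∧ vm * Z1 ≤ k ∧
    fv * Z2 ≤ Kv ∧ f * (r2 * θ ^ 2 * B2 + q) ≤ Ka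
  hp : 0 ≤ p
  hq : 0 ≤ q

/-- the splitting of `B x² + p v² + q a²` for `x = Σ ± x_i` -/
theorem Wt.le {B p q m f θ vm fv k Kx Kv Ka : ℝ} (h : Wt B p q m f θ vm fv k Kx Kv Ka)
    {x v a S1 S2 S3 : ℝ} (h1 : x ^ 2 ≤ m * S1) (h2 : |x - v| ≤ θ * a) (h3 : v ^ 2 ≤ vm)
    (h4 : v ^ 2 ≤ fv * S2) (h5 : a ^ 2 ≤ f * S3) (hS1 : 0 ≤ S1) (hS2 : 0 ≤ S2) (hS3 : 0 ≤ S3) :
    B * x ^ 2 + p * v ^ 2 + q * a ^ 2 ≤ k + Kx * S1 + Kv * S2 + Ka * S3 := by
  obtain ⟨B1, B2, r1, r2, Z1, Z2, hB1, hB2, hZ1, hZ2, hB, hr1, hr, hZ, hx, hk, hv, ha⟩ := h.spl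
  have e1 : B * x ^ 2 ≤ B1 * x ^ 2 + B2 * x ^ 2 := by
    have := mul_le_mul_of_nonneg_right hB (sq_nonneg x)
    linarith
  have e2 : B1 * x ^ 2 ≤ Kx * S1 := by
    calc B1 * x ^ 2 ≤ B1 * (m * S1) := mul_le_mul_of_nonneg_left h1 hB1
      _ = m * B1 * S1 := by ring
      _ ≤ Kx * S1 := mul_le_mul_of_nonneg_right hx hS1
  have e3 : B2 * x ^ 2 ≤ r1 * B2 * v ^ 2 + r2 * θ ^ 2 * B2 * a ^ 2 := by
    have := mul_le_mul_of_nonneg_left (near_sq h2 hr1 hr) hB2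
    linarith
  have e4 : (r1 * B2 + p) * v ^ 2 ≤ k + Kv * S2 := by
    have g1 : (r1 * B2 + p) * v ^ 2 ≤ (Z1 + Z2) * v ^ 2 :=
      mul_le_mul_of_nonneg_right hZ (sq_nonneg v)
    have g2 : Z1 * v ^ 2 ≤ Z1 * vm := mul_le_mul_of_nonneg_left h3 hZ1
    have g3 : Z2 * v ^ 2 ≤ Z2 * (fv * S2) := mul_le_mul_of_nonneg_left h4 hZ2
    have g4 : fv * Z2 * S2 ≤ Kv * S2 := mul_le_mul_of_nonneg_right hv hS2
    linarith
  have hr2 : 0 ≤ r2 := by
    by_contra h6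
    push Not at h6
    nlinarith
  have e5 : (r2 * θ ^ 2 * B2 + q) * a ^ 2 ≤ Ka * S3 := by
    have g0 : 0 ≤ r2 * θ ^ 2 * B2 + q := by
      have := h.hq
      positivity
    calc (r2 * θ ^ 2 * B2 + q) * a ^ 2 ≤ (r2 * θ ^ 2 * B2 + q) * (f * S3) :=
          mul_le_mul_of_nonneg_left h5 g0
      _ = f * (r2 * θ ^ 2 * B2 + q) * S3 := by ring
      _ ≤ Ka * S3 := mul_le_mul_of_nonneg_right ha hS3
  linarith

end

end Pool.Agent.TSM
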