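import Pool.Agent.TSM.Fam
import Pool.Agent.TSM.Cre

set_option autoImplicit false

/-!
# The weights of a splitting with the general creation inequality (MP_d27362_co)
-/

namespace Pool.Agent.TSM

open Finset Polynomial
open Pool.Agent.TSP
open Pool.Agent.TSO
open Pool.Agent.TSR (OBr sigma_even Ker)
open Pool.Agent.TLT (sg)
open Pool.Agent.TDN (dn dn_nonneg)

noncomputable section

/-- the weights of the splitting of `B G(t)² + q aY²` where `aY` is the seminorm of `X G` -/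
structure WtC (B q T lam g be m f θ vm fv k Kx Kv Ka : ℝ) : Prop where
  /-- there are splittings -/
  spl : ∃ B1 B2 r1 r2 Z1 Z2 W : ℝ, 0 ≤ B1 ∧ 0 ≤ B2 ∧ 0 ≤ Z1 ∧ 0 ≤ Z2 ∧ 0 ≤ W ∧ B ≤ B1 + B2 ∧
    1 < r1 ∧ 1 ≤ (r1 - 1) * (r2 - 1) ∧ r1 * B2 + g * (q * T ^ 2) ≤ Z1 + Z2 ∧ m * B1 ≤ Kx ∧
    vm * Z1 ≤ k ∧ fv * Z2 ≤ Kv ∧ r2 * B2 ≤ be * q + W ∧
    f * (θ ^ 2 * W + lam * (q * T ^ 2)) ≤ Ka
  hq : 0 ≤ q

/-- the splitting of `B G(t)² + q aY²` -/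
theorem WtC.le {B q T lam g be m f θ vm fv k Kx Kv Ka : ℝ}
    (h : WtC B q T lam g be m f θ vm fv k Kx Kv Ka) (hlam : 0 ≤ lam) (hg : 0 ≤ g)
    (hT : q0 ≤ T) {x v a y S1 S2 S3 : ℝ} (h1 : x ^ 2 ≤ m * S1) (h2 : |x - v| ≤ θ * a)
    (h3 : v ^ 2 ≤ vm) (h4 : v ^ 2 ≤ fv * S2) (h5 : a ^ 2 ≤ f * S3)
    (h6 : y ^ 2 + be * (x - v) ^ 2 ≤ q0 ^ 2 * (g * v ^ 2 + lam * a ^ 2))
    (hS1 : 0 ≤ S1) (hS2 : 0 ≤ S2) (hS3 : 0 ≤ S3) :
    B * x ^ 2 + q * y ^ 2 ≤ k + Kx * S1 + Kv * S2 + Ka * S3 := by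
  obtain ⟨B1, B2, r1, r2, Z1, Z2, W, hB1, hB2, hZ1, hZ2, hW, hB, hr1, hr, hZ, hx, hk, hv, hw,
    ha⟩ := h.spl
  have hq := h.hq
  have hT2 : q0 ^ 2 ≤ T ^ 2 := pow_le_pow_left₀ q0_pos.le hT 2
  have e1 : B * x ^ 2 ≤ B1 * x ^ 2 + B2 * x ^ 2 := by
    have := mul_le_mul_of_nonneg_right hB (sq_nonneg x)
    linarith
  have e2 : B1 * x ^ 2 ≤ Kx * S1 := by
    calc B1 * x ^ 2 ≤ B1 * (m * S1) := mul_le_mul_of_nonneg_left h1 hB1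
      _ = m * B1 * S1 := by ring
      _ ≤ Kx * S1 := mul_le_mul_of_nonneg_right hx hS1
  have e3 : B2 * x ^ 2 ≤ r1 * B2 * v ^ 2 + r2 * B2 * (x - v) ^ 2 := by
    have g1 : |x - v| ≤ 1 * |x - v| := by rw [one_mul]
    have g2 := near_sq g1 hr1 hr
    rw [one_pow, one_mul, sq_abs] at g2
    have := mul_le_mul_of_nonneg_left g2 hB2
    linarith
  have e4 : r2 * B2 * (x - v) ^ 2 ≤ be * q * (x - v) ^ 2 + W * (θ ^ 2 * a ^ 2) := by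
    have g1 := mul_le_mul_of_nonneg_right hw (sq_nonneg (x - v))
    have g2 : (x - v) ^ 2 ≤ θ ^ 2 * a ^ 2 := by
      rw [← sq_abs, ← mul_pow]
      exact pow_le_pow_left₀ (abs_nonneg _) h2 2
    have g3 := mul_le_mul_of_nonneg_left g2 hW
    linarith
  have e5 : q * y ^ 2 + be * q * (x - v) ^ 2 ≤
      g * (q * T ^ 2) * v ^ 2 + lam * (q * T ^ 2) * a ^ 2 := by
    have g1 := mul_le_mul_of_nonneg_left h6 hq
    have g2 : q0 ^ 2 * (g * v ^ 2 + lam * a ^ 2) ≤ T ^ 2 * (g * v ^ 2 + lam * a ^ 2) :=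
      mul_le_mul_of_nonneg_right hT2 (by positivity)
    have g3 := mul_le_mul_of_nonneg_left g2 hq
    linarith
  have e6 : (r1 * B2 + g * (q * T ^ 2)) * v ^ 2 ≤ k + Kv * S2 := by
    have g1 : (r1 * B2 + g * (q * T ^ 2)) * v ^ 2 ≤ (Z1 + Z2) * v ^ 2 :=
      mul_le_mul_of_nonneg_right hZ (sq_nonneg v)
    have g2 : Z1 * v ^ 2 ≤ Z1 * vm := mul_le_mul_of_nonneg_left h3 hZ1
    have g3 : Z2 * v ^ 2 ≤ Z2 * (fv * S2) := mul_le_mul_of_nonneg_left h4 hZ2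
    have g4 : fv * Z2 * S2 ≤ Kv * S2 := mul_le_mul_of_nonneg_right hv hS2
    linarith
  have e7 : (θ ^ 2 * W + lam * (q * T ^ 2)) * a ^ 2 ≤ Ka * S3 := by
    calc (θ ^ 2 * W + lam * (q * T ^ 2)) * a ^ 2 ≤ (θ ^ 2 * W + lam * (q * T ^ 2)) * (f * S3) :=
          mul_le_mul_of_nonneg_left h5 (by positivity)
      _ = f * (θ ^ 2 * W + lam * (q * T ^ 2)) * S3 := by ring
      _ ≤ Ka * S3 := mul_le_mul_of_nonneg_right ha hS3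
  linarith

/-- the old weights are the case without the deviation -/
theorem WtC.of {B q T m f θ vm fv k Kx Kv Ka : ℝ}
    (h : Wt B (q * T ^ 2) (q * T ^ 2) m f θ vm fv k Kx Kv Ka) (hq : 0 ≤ q) :
    WtC B q T 1 1 0 m f θ vm fv k Kx Kv Ka := by
  obtain ⟨B1, B2, r1, r2, Z1, Z2, hB1, hB2, hZ1, hZ2, hB, hr1, hr, hZ, hx, hk, hv, ha⟩ := h.spl
  have hr2 : 0 ≤ r2 := by
    by_contra h6
    push Not at h6
    nlinarith
  refine ⟨⟨B1, B2, r1, r2, Z1, Z2, r2 * B2, hB1, hB2, hZ1, hZ2, mul_nonneg hr2 hB2, hB, hr1, hr,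
    ?_, hx, hk, hv, ?_, ?_⟩, hq⟩
  · rw [one_mul]
    exact hZ
  · rw [zero_mul, zero_add]
  · rw [one_mul]
    refine le_of_eq_of_le ?_ ha
    ring

lemma aX_C {t lam g be : ℝ} (hC : Cre t lam g be) (O : OBr) :
    aX O ^ 2 ≤ q0 ^ 2 * (g * vU O ^ 2 + lam * aU O ^ 2) := by
  have h1 := hC.h (UU O)
  have h2 := mul_nonneg hC.be0 (sq_nonneg ((UU O).eval t - (UU O).eval q0))
  have h3 : aX O = dn q0 (X * UU O) := by
    unfold aX XX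
    rw [TDN.dn_C_sub]
  rw [h3]
  unfold vU aU
  linarith

lemma aX_CL {kl : ℝ} (hC : CreL kl) (O : OBr) :
    aX O ≤ q0 * kl * Real.sqrt (vU O ^ 2 + aU O ^ 2) := by
  have h1 := hC.h (UU O)
  have h3 : aX O = dn q0 (X * UU O) := by
    unfold aX XX
    rw [TDN.dn_C_sub]
  rw [h3]
  exact h1

end

end Pool.Agent.TSM
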