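import Pool.Agent.TSM.Role
import Pool.Agent.TSM.Asm
import Pool.Agent.TSM.FamC

set_option autoImplicit false

/-!
# Families of children: existence of the signs and the total inequality (MP_d27362_co)
-/

namespace Pool.Agent.TSM

open Finset Polynomial
open Pool.Agent.TSP
open Pool.Agent.TSO
open Pool.Agent.TSR (OBr sigma_even Ker)
open Pool.Agent.TLT (sg)
open Pool.Agent.TDN (dn dn_nonneg)

noncomputable section

/-- **less pending cost for a smaller bank**: the price of the pending cost is `χ` -/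
theorem GoodE.shift {χ : ℝ → ℝ} {O : OBr} {V c V' c' : ℝ → ℝ → ℝ} (h : GoodE χ O V c)
    (h1 : ∀ D, RD D → ILe D (V' D) (V D))
    (h2 : ∀ D, RD D → ILe D (fun a => V' D a + χ D * (c D a - c' D a)) (V D)) :
    GoodE χ O V' c' := by
  intro m S hS w t hR
  have hRD : RD (dee S) := ⟨hR.dee_nonneg, hR.dee_le⟩
  obtain ⟨e, he, hM⟩ := h m S hS w t hR
  have g1 := h1 _ hRD m S hS w t hR rfl
  have g2 := h2 _ hRD m S hS w t hR rfl
  rw [nu_add, nu_mul, nu_sub] at g2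
  refine ⟨e + max 0 (nu w t (c (dee S)) - nu w t (c' (dee S))),
    add_nonneg he (le_max_left _ _), hM.mono ?_ ?_⟩
  · rcases le_total 0 (nu w t (c (dee S)) - nu w t (c' (dee S))) with h3 | h3
    · rw [max_eq_right h3]
      linarith
    · rw [max_eq_left h3]
      linarith
  · have := le_max_right 0 (nu w t (c (dee S)) - nu w t (c' (dee S)))
    linarith

variable {K : ℕ} {O : Fin K → OBr} {N : Finset (Fin K)}

/-! ### the new state of a family -/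

/-- what is known about the signs of a family: `N` are the nontrivial children, `ρ` their roles,
`f` is the factor of the edge signs, `n` the label of the new `y`, `vm`, `fv` the bounds for the
value of `G`, `fg` is the factor of the seminorm of `G`; if `z` is true nothing is known about the
value of `U'` besides its bounds -/
structure FamS {K : ℕ} (O : Fin K → OBr) (N : Finset (Fin K)) (σ e ρ : Fin K → Bool)
    (m f n vm fv : ℝ) (fg : ℝ := 2) (z : Bool := false) : Prop where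
  hO : FamO O N
  hm : (N.card : ℝ) ≤ m
  hU0 : 0 ≤ vU (fam σ e O)
  hU2 : vU (fam σ e O) ≤ 2
  hU3 : cond z True (vU (fam σ e O) ^ 2 ≤ ∑ i, sg (ρ i) * vY (O i) ^ 2)
  hUa : aU (fam σ e O) ^ 2 ≤ f * ∑ i, aY (O i) ^ 2
  hY : YY (fam σ e O) = C n - X * gU e O
  hG2 : (gU e O).eval q0 ^ 2 ≤ vm
  hG3 : (gU e O).eval q0 ^ 2 ≤ fv * ∑ i, vU (O i) ^ 2
  hGa : dn q0 (gU e O) ^ 2 ≤ fg * ∑ i, aU (O i) ^ 2

variable {σ e ρ : Fin K → Bool} {m f n vm fv fg : ℝ} {z : Bool}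

lemma FamS.U_eq (O : Fin K → OBr) (σ e : Fin K → Bool) (a : ℝ) :
    (UU (fam σ e O)).eval a = ∑ i, sg (σ i) * (YY (O i)).eval a := by
  rw [fam_UU, eval_finsetSum]
  exact sum_congr rfl fun i _ => by rw [eval_smul, smul_eq_mul]

lemma FamS.G_eq (O : Fin K → OBr) (e : Fin K → Bool) (a : ℝ) :
    (gU e O).eval a = ∑ i, sg (e i) * (UU (O i)).eval a := by
  unfold gU
  rw [eval_finsetSum]
  exact sum_congr rfl fun i _ => by rw [eval_smul, smul_eq_mul]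

lemma sg_sq (b : Bool) : sg b ^ 2 = 1 := by
  rcases sg_or b with h | h <;> rw [h] <;> norm_num

/-- the part of `U'` -/
theorem FamS.leU (h : FamS O N σ e ρ m f n vm fv fg z) {a : ℝ} (h0 : 0 ≤ a) (h1 : a ≤ q0)
    {al B lU qU k Kx Kv Ka : ℝ} (hlU : 0 ≤ lU) (hW : Wt B 0 qU m f (th a) 4 1 k Kx Kv Ka)
    (hz : z = true → Kv = 0) :
    al * (UU (fam σ e O)).eval a + B * (UU (fam σ e O)).eval a ^ 2 + lU * aU (fam σ e O) +
      qU * aU (fam σ e O) ^ 2 ≤ k + ∑ i, (al * (sg (σ i) * (YY (O i)).eval a) +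
        Kx * (YY (O i)).eval a ^ 2 + Kv * (sg (ρ i) * vY (O i) ^ 2) + Ka * aY (O i) ^ 2 +
        lU * aY (O i)) := by
  have e1 : (UU (fam σ e O)).eval a ^ 2 ≤ m * ∑ i, (YY (O i)).eval a ^ 2 := by
    rw [FamS.U_eq]
    exact sq_sum_le_N N m h.hm _ _ (fun i => sg_sq _) fun i hi => by rw [h.hO.YY0 hi, eval_zero]
  have e2 : vU (fam σ e O) ^ 2 ≤ 4 := by
    have := h.hU0
    have := h.hU2
    nlinarith
  have e3 : B * (UU (fam σ e O)).eval a ^ 2 + 0 * vU (fam σ e O) ^ 2 + qU * aU (fam σ e O) ^ 2 ≤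
      k + Kx * ∑ i, (YY (O i)).eval a ^ 2 + Kv * ∑ i, sg (ρ i) * vY (O i) ^ 2 +
        Ka * ∑ i, aY (O i) ^ 2 := by
    rcases Bool.eq_false_or_eq_true z with hz' | hz'
    · have e0 := hW.le e1 (U_near (fam σ e O) h0 h1) e2 (one_mul _).ge h.hUa
        (sum_nonneg fun i _ => sq_nonneg _) (sq_nonneg _)
        (sum_nonneg fun i _ => sq_nonneg _)
      rw [hz hz'] at e0 ⊢
      linarith
    · have h3 : vU (fam σ e O) ^ 2 ≤ ∑ i, sg (ρ i) * vY (O i) ^ 2 := by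
        have := h.hU3
        rwa [hz'] at this
      exact hW.le e1 (U_near (fam σ e O) h0 h1) e2 (by rw [one_mul]; exact h3) h.hUa
        (sum_nonneg fun i _ => sq_nonneg _) ((sq_nonneg _).trans h3)
        (sum_nonneg fun i _ => sq_nonneg _)
  have e4 := mul_le_mul_of_nonneg_left (aU_fam_le σ e O) hlU
  have e5 : ∑ i, (al * (sg (σ i) * (YY (O i)).eval a) +
        Kx * (YY (O i)).eval a ^ 2 + Kv * (sg (ρ i) * vY (O i) ^ 2) + Ka * aY (O i) ^ 2 +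
        lU * aY (O i)) =
      al * (UU (fam σ e O)).eval a + Kx * ∑ i, (YY (O i)).eval a ^ 2 +
        Kv * ∑ i, sg (ρ i) * vY (O i) ^ 2 +
        Ka * ∑ i, aY (O i) ^ 2 + lU * ∑ i, aY (O i) := by
    rw [FamS.U_eq, mul_sum, mul_sum, mul_sum, mul_sum, mul_sum, ← sum_add_distrib,
      ← sum_add_distrib, ← sum_add_distrib, ← sum_add_distrib]
  rw [e5]
  linarith

/-- the part of `G` -/
theorem FamS.leG (h : FamS O N σ e ρ m f n vm fv fg z) {a T : ℝ} (h0 : 0 ≤ a) (h1 : a ≤ q0)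
    (hT : q0 ≤ T) {al B ly q1 q2 lam g be lam1 g1 kl k Kx Kv Ka : ℝ} (hC : Cre a lam g be)
    (hC1 : Cre a lam1 g1 0) (hL : CreL kl) (hly : 0 ≤ ly) (hq1 : 0 ≤ q1) (hm0 : 0 ≤ m)
    (hW : WtC B q2 T lam g be m fg (th a) vm fv k Kx Kv Ka) :
    al * (gU e O).eval a + B * (gU e O).eval a ^ 2 + ly * aY (fam σ e O) +
      (q1 + q2) * aY (fam σ e O) ^ 2 ≤ k + ∑ i, (al * (sg (e i) * (UU (O i)).eval a) +
        Kx * (UU (O i)).eval a ^ 2 + (Kv + m * q1 * T ^ 2 * g1) * vU (O i) ^ 2 +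
        (Ka + m * q1 * T ^ 2 * lam1) * aU (O i) ^ 2 +
        ly * T * kl * Real.sqrt (vU (O i) ^ 2 + aU (O i) ^ 2)) := by
  have hq := q0_pos
  have hT0 : 0 ≤ T := hq.le.trans hT
  have hT2 : q0 ^ 2 ≤ T ^ 2 := pow_le_pow_left₀ hq.le hT 2
  have hg1 := hC1.g0
  have hlam1 := hC1.lam0
  have e1 : (gU e O).eval a ^ 2 ≤ m * ∑ i, (UU (O i)).eval a ^ 2 := by
    rw [FamS.G_eq]
    exact sq_sum_le_N N m h.hm _ _ (fun i => sg_sq _) fun i hi => by rw [h.hO.UU0 hi, eval_zero]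
  have e6 : aY (fam σ e O) = dn q0 (X * gU e O) := by
    unfold aY
    rw [h.hY, TDN.dn_C_sub]
  have e3 := hW.le hC.lam0 hC.g0 hT e1 (TDN.abs_sub_le q0 q0_pos (gU e O) a h0 h1) h.hG2 h.hG3
    h.hGa (hC.h (gU e O)) (sum_nonneg fun i _ => sq_nonneg _) (sum_nonneg fun i _ => sq_nonneg _)
    (sum_nonneg fun i _ => sq_nonneg _)
  rw [← e6] at e3
  -- the seminorm of `x`
  have hX : ∀ i, aX (O i) ≤ T * kl * Real.sqrt (vU (O i) ^ 2 + aU (O i) ^ 2) := fun i =>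
    (aX_CL hL (O i)).trans (mul_le_mul_of_nonneg_right
      (mul_le_mul_of_nonneg_right hT hL.kl0) (Real.sqrt_nonneg _))
  have hX0 : ∀ i ∉ N, aX (O i) = 0 := by
    intro i hi
    rcases h.hO.hN i hi with h | h <;> rw [h]
    · exact aX_nil
    · exact aX_two
  have e4 : aY (fam σ e O) ≤ ∑ i, T * kl * Real.sqrt (vU (O i) ^ 2 + aU (O i) ^ 2) :=
    (aY_fam_le σ e O).trans (sum_le_sum fun i _ => hX i)
  have e5 : aY (fam σ e O) ^ 2 ≤ m * (T ^ 2 * ∑ i, (g1 * vU (O i) ^ 2 + lam1 * aU (O i) ^ 2)) := by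
    have g1 : aY (fam σ e O) ^ 2 ≤ (∑ i, 1 * aX (O i)) ^ 2 := by
      simp only [one_mul]
      exact pow_le_pow_left₀ (aY_nonneg _) (aY_fam_le σ e O) 2
    have g2 := sq_sum_le_N N m h.hm (fun _ => (1 : ℝ)) (fun i => aX (O i)) (fun i => by norm_num)
      hX0
    refine g1.trans (g2.trans (mul_le_mul_of_nonneg_left ?_ hm0))
    rw [mul_sum]
    refine sum_le_sum fun i _ => (aX_C hC1 (O i)).trans ?_
    exact mul_le_mul_of_nonneg_right hT2 (by positivity)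
  have e7 := mul_le_mul_of_nonneg_left e4 hly
  have e8 := mul_le_mul_of_nonneg_left e5 hq1
  have e10 : ∑ i, (al * (sg (e i) * (UU (O i)).eval a) +
        Kx * (UU (O i)).eval a ^ 2 + (Kv + m * q1 * T ^ 2 * g1) * vU (O i) ^ 2 +
        (Ka + m * q1 * T ^ 2 * lam1) * aU (O i) ^ 2 +
        ly * T * kl * Real.sqrt (vU (O i) ^ 2 + aU (O i) ^ 2)) =
      al * (gU e O).eval a + Kx * ∑ i, (UU (O i)).eval a ^ 2 + Kv * ∑ i, vU (O i) ^ 2 +
        Ka * ∑ i, aU (O i) ^ 2 +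
        q1 * (m * (T ^ 2 * ∑ i, (g1 * vU (O i) ^ 2 + lam1 * aU (O i) ^ 2))) +
        ly * ∑ i, T * kl * Real.sqrt (vU (O i) ^ 2 + aU (O i) ^ 2) := by
    rw [FamS.G_eq]
    simp only [mul_sum]
    rw [← sum_add_distrib, ← sum_add_distrib, ← sum_add_distrib, ← sum_add_distrib,
      ← sum_add_distrib]
    refine sum_congr rfl fun i _ => ?_
    ring
  rw [e10]
  linarith

/-- the new state satisfies the invariant -/
lemma inv_fam {n : ℕ} (hτ : tau (fam σ e O) = 0 ∨ tau (fam σ e O) = 1)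
    (h1 : 0 ≤ vU (fam σ e O)) (h2 : vU (fam σ e O) ≤ 2)
    (hY : YY (fam σ e O) = C (n : ℝ) - X * gU e O)
    (h3 : 0 ≤ (n : ℝ) - q0 * (gU e O).eval q0) (h4 : (n : ℝ) - q0 * (gU e O).eval q0 ≤ 2) :
    Inv (fam σ e O) := by
  have e1 : vY (fam σ e O) = (n : ℝ) - q0 * (gU e O).eval q0 := by
    unfold vY
    rw [hY, eval_sub, eval_C, eval_mul, eval_X]
  exact ⟨hτ, h1, h2, by rw [e1]; exact h3, by rw [e1]; exact h4⟩

/-- **the signs of a family**: the edge signs of the trivial children are free -/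
theorem famS_exists (hO : FamO O N) :
    ∃ (s e ρ : Fin K → Bool) (z : Bool) (n : ℕ), n = n1 O % 2 ∧
      (Even N.card → ∑ i ∈ N, sg (s i) = 0 ∧ ∑ i ∈ N, sg (ρ i) = 0) ∧
      (Odd N.card → ∑ i ∈ N, sg (s i) = - sg z ∧ ∑ i ∈ N, sg (ρ i) = 1) ∧
      ∀ σ : Fin K → Bool, (∀ i ∈ N, σ i = s i) → ∀ m : ℝ, (N.card : ℝ) ≤ m →
        (tau (fam σ e O) = 0 ∨ tau (fam σ e O) = 1 → Inv (fam σ e O)) ∧
        FamS O N σ e ρ m 2 n (16 - 12 * n) (4 - 3 * n) := by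
  obtain ⟨s, ρ, z, h1, h2, h3⟩ := hO.sig
  obtain ⟨e, n, hn, hY, hG, hy0, hy2, hG3, hGa⟩ := e_par O hO.hI
  refine ⟨s, e, ρ, z, n, hn, h1, h2, fun σ hσ m hm => ?_⟩
  obtain ⟨g1, g2, g3, g4⟩ := h3 σ hσ e
  exact ⟨fun hτ => inv_fam hτ g1 g2 (hY σ) hy0 hy2,
    ⟨hO, hm, g1, g2, g3, g4, hY σ, hG, hG3, hGa⟩⟩

/-! ### the total inequality -/

/-- the coefficients of the terms of one child -/
structure CT where
  /-- coefficient of `± y` -/
  y1 : ℝ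
  /-- coefficient of `y²` -/
  y2 : ℝ
  /-- coefficient of `v_y²` -/
  w2 : ℝ
  /-- coefficient of `a_y` -/
  b1 : ℝ
  /-- coefficient of `a_y²` -/
  b2 : ℝ
  /-- coefficient of `± u` -/
  u1 : ℝ
  /-- coefficient of `u²` -/
  u2 : ℝ
  /-- coefficient of `v_U²` -/
  v2 : ℝ
  /-- coefficient of `a_U²` -/
  a2 : ℝ
  /-- coefficient of `√(v_U² + a_U²)` -/
  l : ℝ
  /-- coefficient of `± v_y` -/
  w1 : ℝ
  /-- coefficient of `± v_U` -/
  v1 : ℝ

/-- the terms of one child, with the signs `s1` of `y`, `s2` of `u` and the role `s3` -/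
def CT.ev (k : CT) (s1 s2 s3 : ℝ) (s : Sn) : ℝ :=
  k.y1 * (s1 * s.y) + k.y2 * s.y ^ 2 + k.w2 * (s3 * s.vY ^ 2) + k.b1 * s.aY + k.b2 * s.aY ^ 2 +
    k.u1 * (s2 * s.u) + k.u2 * s.u ^ 2 + k.v2 * s.vU ^ 2 + k.a2 * s.aU ^ 2 +
    k.l * Real.sqrt (s.vU ^ 2 + s.aU ^ 2) + k.w1 * (s1 * s.vY) + k.v1 * (s2 * s.vU)

/-- the coefficients of the new state: potential and costs together -/
structure NS where
  /-- constant -/
  c : ℝ
  /-- coefficient of `U'` -/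
  al : ℝ
  /-- coefficient of `U'²` -/
  be : ℝ
  /-- coefficient of `y'` -/
  ga : ℝ
  /-- coefficient of `y'²` -/
  de : ℝ
  /-- coefficient of `a_U` -/
  lU : ℝ
  /-- coefficient of `a_U²` -/
  qU : ℝ
  /-- coefficient of `a_y` -/
  ly : ℝ
  /-- coefficient of `a_y²` -/
  qy : ℝ
  /-- coefficient of `v_U` -/
  cv : ℝ
  /-- coefficient of `v_y` -/
  dv : ℝ

/-- the value of the new state -/
def NS.ev (k : NS) (s : Sn) : ℝ :=
  k.c + k.al * s.u + k.be * s.u ^ 2 + k.ga * s.y + k.de * s.y ^ 2 + k.lU * s.aU +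
    k.qU * s.aU ^ 2 + k.ly * s.aY + k.qy * s.aY ^ 2 + k.cv * s.vU + k.dv * s.vY

/-- the splitting of the new state into terms of the children, at the point `t`: `κ` is the
constant and `k` are the coefficients of the terms -/
structure Spl (p : NS) (t m f n vm fv κ : ℝ) (k : CT) (fg : ℝ := 2) : Prop where
  /-- the splitting -/
  ex : ∃ T q1 q2 lam g be lam1 g1 kl kU kG x1 v1 a1 x2 v2 a2 : ℝ, q0 ≤ T ∧ 0 ≤ q1 ∧
    p.qy = q1 + q2 ∧ Cre t lam g be ∧ Cre t lam1 g1 0 ∧ CreL kl ∧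
    Wt p.be 0 p.qU m f (th t) 4 1 kU x1 v1 a1 ∧
    WtC (t ^ 2 * p.de) q2 T lam g be m fg (th t) vm fv kG x2 v2 a2 ∧
    κ = p.c + kU + kG + p.ga * n + p.de * n ^ 2 + p.dv * n ∧
    k = ⟨p.al, x1, v1, p.lU, a1, -(t * (p.ga + 2 * n * p.de)), x2, v2 + m * q1 * T ^ 2 * g1,
      a2 + m * q1 * T ^ 2 * lam1, p.ly * T * kl, p.cv, -(q0 * p.dv)⟩
  hlU : 0 ≤ p.lU
  hly : 0 ≤ p.ly
  hm : 0 ≤ m

/-- the splitting without the deviation of the creation inequality -/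
lemma Spl.old {p : NS} {t m f n vm fv κ : ℝ} {k : CT}
    (ex : ∃ T q1 q2 kU kG x1 v1 a1 x2 v2 a2 : ℝ, q0 ≤ T ∧ 0 ≤ q1 ∧ 0 ≤ q2 ∧ p.qy = q1 + q2 ∧
    Wt p.be 0 p.qU m f (th t) 4 1 kU x1 v1 a1 ∧
    Wt (t ^ 2 * p.de) (q2 * T ^ 2) (q2 * T ^ 2) m fg (th t) vm fv kG x2 v2 a2 ∧
    κ = p.c + kU + kG + p.ga * n + p.de * n ^ 2 + p.dv * n ∧
    k = ⟨p.al, x1, v1, p.lU, a1, -(t * (p.ga + 2 * n * p.de)), x2, v2 + m * q1 * T ^ 2,
      a2 + m * q1 * T ^ 2, p.ly * T, p.cv, -(q0 * p.dv)⟩) (hlU : 0 ≤ p.lU) (hly : 0 ≤ p.ly)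
    (hm : 0 ≤ m) : Spl p t m f n vm fv κ k fg := by
  obtain ⟨T, q1, q2, kU, kG, x1, v1, a1, x2, v2, a2, hT, hq1, hq2, hqy, hWU, hWG, hκ, hk⟩ := ex
  refine ⟨⟨T, q1, q2, 1, 1, 0, 1, 1, 1, kU, kG, x1, v1, a1, x2, v2, a2, hT, hq1, hqy,
    cre_base t, cre_base t, creL_base, hWU, WtC.of hWG hq2, hκ, ?_⟩, hlU, hly, hm⟩
  rw [hk, mul_one, mul_one]

/-- **the total inequality** -/
theorem FamS.total (h : FamS O N σ e ρ m f n vm fv fg z)
    {a : ℝ} (h0 : 0 ≤ a) (h1 : a ≤ q0) {p : NS} {κ : ℝ} {k : CT}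
    (hs : Spl p a m f n vm fv κ k fg) (ty : ℕ) (tc : Fin K → ℕ)
    (hz : z = true → k.w2 = 0) :
    p.ev ((chd ty (fam σ e O)).sn a) ≤
      κ + ∑ i, k.ev (sg (σ i)) (sg (e i)) (sg (ρ i)) ((chd (tc i) (O i)).sn a) := by
  obtain ⟨T, q1, q2, lam, g, be, lam1, g1, kl, kU, kG, x1, v1, a1, x2, v2, a2, hT, hq1, hqy, hC,
    hC1, hL, hWU, hWG, hκ, hk⟩ := hs.ex
  have hU := h.leU (a := a) h0 h1 (al := p.al) hs.hlU hWU (fun hz' => by
    have h2 := hz hz'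
    rw [hk] at h2
    exact h2)
  have hG := h.leG (a := a) h0 h1 hT (al := -(a * (p.ga + 2 * n * p.de))) hC hC1 hL hs.hly hq1
    hs.hm hWG
  have eY : (YY (fam σ e O)).eval a = n - a * (gU e O).eval a := by
    rw [h.hY, eval_sub, eval_C, eval_mul, eval_X]
  have evU : vU (fam σ e O) = ∑ i, sg (σ i) * vY (O i) := FamS.U_eq O σ e q0
  have evY : vY (fam σ e O) = n - q0 * ∑ i, sg (e i) * vU (O i) := by
    have e3 := FamS.G_eq O e q0
    unfold vY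
    rw [h.hY, eval_sub, eval_C, eval_mul, eval_X, e3]
    rfl
  have e1 : p.ev ((chd ty (fam σ e O)).sn a) = p.c + p.ga * n + p.de * n ^ 2 + p.dv * n +
      (p.cv * ∑ i, sg (σ i) * vY (O i) + -(q0 * p.dv) * ∑ i, sg (e i) * vU (O i)) +
      (p.al * (UU (fam σ e O)).eval a + p.be * (UU (fam σ e O)).eval a ^ 2 +
        p.lU * aU (fam σ e O) + p.qU * aU (fam σ e O) ^ 2) +
      (-(a * (p.ga + 2 * n * p.de)) * (gU e O).eval a +
        a ^ 2 * p.de * (gU e O).eval a ^ 2 + p.ly * aY (fam σ e O) +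
        (q1 + q2) * aY (fam σ e O) ^ 2) := by
    show p.c + p.al * (UU (fam σ e O)).eval a + p.be * (UU (fam σ e O)).eval a ^ 2 +
      p.ga * (YY (fam σ e O)).eval a + p.de * (YY (fam σ e O)).eval a ^ 2 +
      p.lU * aU (fam σ e O) + p.qU * aU (fam σ e O) ^ 2 + p.ly * aY (fam σ e O) +
      p.qy * aY (fam σ e O) ^ 2 + p.cv * vU (fam σ e O) + p.dv * vY (fam σ e O) = _
    rw [eY, hqy, evU, evY]
    ring
  have e2 : ∑ i, k.ev (sg (σ i)) (sg (e i)) (sg (ρ i)) ((chd (tc i) (O i)).sn a) =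
      (∑ i, (p.al * (sg (σ i) * (YY (O i)).eval a) +
        x1 * (YY (O i)).eval a ^ 2 + v1 * (sg (ρ i) * vY (O i) ^ 2) + a1 * aY (O i) ^ 2 +
        p.lU * aY (O i))) +
      ∑ i, (-(a * (p.ga + 2 * n * p.de)) * (sg (e i) * (UU (O i)).eval a) +
        x2 * (UU (O i)).eval a ^ 2 + (v2 + m * q1 * T ^ 2 * g1) * vU (O i) ^ 2 +
        (a2 + m * q1 * T ^ 2 * lam1) * aU (O i) ^ 2 +
        p.ly * T * kl * Real.sqrt (vU (O i) ^ 2 + aU (O i) ^ 2)) +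
      (p.cv * ∑ i, sg (σ i) * vY (O i) + -(q0 * p.dv) * ∑ i, sg (e i) * vU (O i)) := by
    rw [mul_sum, mul_sum, ← sum_add_distrib, ← sum_add_distrib, ← sum_add_distrib]
    refine sum_congr rfl fun i _ => ?_
    rw [hk]
    unfold CT.ev Chd.sn chd
    dsimp only
    ring
  rw [e1, e2, hκ]
  linarith

end

end Pool.Agent.TSM
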