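import Pool.Agent.TSM.Fam2
import Pool.Agent.TSM.EvenG

set_option autoImplicit false

/-!
# Families of children: edge signs of the trivial children, sums over the children and the
lines of the rules for an even number of children (MP_d27362_co)
-/

namespace Pool.Agent.TSM

open Finset Polynomial
open Pool.Agent.TSP
open Pool.Agent.TSO
open Pool.Agent.TSR (OBr Ker pair_role)
open Pool.Agent.TLT (sg)
open Pool.Agent.TDN (dn dn_nonneg)

noncomputable section

variable {K : ℕ} {O : Fin K → OBr} {N : Finset (Fin K)}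

/-! ### the signs of the trivial children -/

/-- balanced signs on a set -/
lemma exists_bal (M : Finset (Fin K)) (z : Bool) : ∃ t : Fin K → Bool,
    (Even M.card → ∑ i ∈ M, sg (t i) = 0) ∧ (Odd M.card → ∑ i ∈ M, sg (t i) = sg z) := by
  classical
  obtain ⟨s, _, z', h1, h2, _⟩ := pair_role (T := q0) q0_pos.le (fun _ : M => (0 : ℝ[X])) 0 le_rfl
    (fun i => by simp) (fun i => by simp)
  rw [Fintype.card_coe] at h1 h2
  have key : ∀ b : Bool, ∃ t : Fin K → Bool,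
      ∑ i ∈ M, sg (t i) = sg b * ∑ i : M, sg (s i) := by
    intro b
    refine ⟨fun i => if hi : i ∈ M then (s ⟨i, hi⟩ == b) else true, ?_⟩
    rw [← sum_coe_sort M, mul_sum]
    refine sum_congr rfl fun i _ => ?_
    show sg (if hi : (i : Fin K) ∈ M then (s ⟨i, hi⟩ == b) else true) = _
    rw [dif_pos i.2, TSR.sg_beq, mul_comm]
  obtain ⟨t, ht⟩ := key (!(z == z'))
  refine ⟨t, fun hE => ?_, fun hO => ?_⟩
  · rw [ht, (h1 hE).1, mul_zero]
  · rw [ht, (h2 hO).1, TSR.sg_not', TSR.sg_beq]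
    have h3 := sg_sq z'
    have h4 : -(sg z * sg z') * -sg z' = sg z * sg z' ^ 2 := by ring
    rw [h4, h3, mul_one]

/-- extension of the signs, even number of children -/
lemma ext_even (hK : Even K) (s : Fin K → Bool) (z : Bool)
    (h1 : Even N.card → ∑ i ∈ N, sg (s i) = 0) (h2 : Odd N.card → ∑ i ∈ N, sg (s i) = - sg z) :
    ∃ σ : Fin K → Bool, (∀ i ∈ N, σ i = s i) ∧ ∑ i, sg (σ i) = 0 := by
  classical
  obtain ⟨t, ht1, ht2⟩ := exists_bal (univ \ N) z
  refine ⟨fun i => if i ∈ N then s i else t i, fun i hi => if_pos hi, ?_⟩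
  have e1 : ∑ i, sg (if i ∈ N then s i else t i) =
      ∑ i ∈ univ \ N, sg (t i) + ∑ i ∈ N, sg (s i) := by
    rw [← sum_sdiff (subset_univ N)]
    congr 1
    · refine sum_congr rfl fun i hi => ?_
      rw [if_neg (mem_sdiff.mp hi).2]
    · exact sum_congr rfl fun i hi => by rw [if_pos hi]
  have e2 : (univ \ N).card + N.card = K := by
    rw [card_sdiff_add_card_eq_card (subset_univ N), card_univ, Fintype.card_fin]
  rw [e1]
  rcases Nat.even_or_odd N.card with hN | hN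
  · have hM : Even (univ \ N).card := by
      rw [← e2] at hK
      exact (Nat.even_add.mp hK).mpr hN
    rw [h1 hN, ht1 hM, add_zero]
  · have hM : Odd (univ \ N).card := by
      rw [← e2] at hK
      rw [← Nat.not_even_iff_odd] at hN ⊢
      exact fun h => hN ((Nat.even_add.mp hK).mp h)
    rw [h2 hN, ht2 hM]
    ring

/-- extension of the signs, odd number of children, leftover `j` -/
lemma ext_odd (hK : Odd K) (j : Fin K) (hj : j ∉ N) (s : Fin K → Bool) (z : Bool)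
    (h1 : Even N.card → ∑ i ∈ N, sg (s i) = 0) (h2 : Odd N.card → ∑ i ∈ N, sg (s i) = - sg z) :
    ∃ σ : Fin K → Bool, (∀ i ∈ N, σ i = s i) ∧ σ j = true ∧ ∑ i, sg (σ i) = 1 := by
  classical
  obtain ⟨t, ht1, ht2⟩ := exists_bal ((univ \ N).erase j) z
  have hj' : j ∈ univ \ N := mem_sdiff.mpr ⟨mem_univ _, hj⟩
  refine ⟨fun i => if i ∈ N then s i else if i = j then true else t i,
    fun i hi => if_pos hi, by simp [hj], ?_⟩
  have e1 : ∑ i, sg (if i ∈ N then s i else if i = j then true else t i) =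
      1 + ∑ i ∈ (univ \ N).erase j, sg (t i) + ∑ i ∈ N, sg (s i) := by
    rw [← sum_sdiff (subset_univ N)]
    congr 1
    · rw [← add_sum_erase _ _ hj', if_neg hj, if_pos rfl, TSR.sg_tt]
      congr 1
      refine sum_congr rfl fun i hi => ?_
      rw [if_neg (mem_sdiff.mp (mem_of_mem_erase hi)).2, if_neg (ne_of_mem_erase hi)]
    · exact sum_congr rfl fun i hi => by rw [if_pos hi]
  have e2 : ((univ \ N).erase j).card + 1 + N.card = K := by
    rw [card_erase_add_one hj', card_sdiff_add_card_eq_card (subset_univ N), card_univ,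
      Fintype.card_fin]
  rw [e1]
  rcases Nat.even_or_odd N.card with hN | hN
  · have hM : Even ((univ \ N).erase j).card := by
      obtain ⟨a, ha⟩ := hK
      obtain ⟨b, hb⟩ := hN
      exact ⟨a - b, by omega⟩
    rw [h1 hN, ht1 hM]
    ring
  · have hM : Odd ((univ \ N).erase j).card := by
      obtain ⟨a, ha⟩ := hK
      obtain ⟨b, hb⟩ := hN
      exact ⟨a - b - 1, by omega⟩
    rw [h2 hN, ht2 hM]
    ring

/-! ### sums over the children -/

variable {σ e ρ : Fin K → Bool} {m f n vm fv fg : ℝ} {z : Bool}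

lemma FamO.ct0 (h : FamO O N) {i : Fin K} (hi : i ∉ N) (k : CT) (s1 s2 s3 : ℝ) (ty : ℕ) (a : ℝ) :
    k.ev s1 s2 s3 ((chd ty (O i)).sn a) = 0 := by
  have hU := h.UU0 hi
  have hY := h.YY0 hi
  unfold CT.ev Chd.sn chd
  dsimp only
  unfold vU vY aU aY
  rw [hU, hY, eval_zero, eval_zero, TDN.dn_zero]
  simp

/-- one line of a rule: the inequalities of the children are added -/
theorem FamS.line (h : FamS O N σ e ρ m f n vm fv fg z) {a : ℝ} (h0 : 0 ≤ a) (h1 : a ≤ q0) {p : NS}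
    {κ : ℝ} {k : CT} (hs : Spl p a m f n vm fv κ k fg) (ty : ℕ) (tc : Fin K → ℕ)
    (W : Fin K → ℝ) (hW0 : ∀ i ∉ N, W i = 0) (sh pay : Fin K → ℝ) (Pm : ℝ)
    (hc : ∀ i ∈ N, sh i + pay i * Pm +
      k.ev (sg (σ i)) (sg (e i)) (sg (ρ i)) ((chd (tc i) (O i)).sn a) ≤ W i)
    (hκ : κ ≤ ∑ i ∈ N, sh i) (hz : z = true → k.w2 = 0) :
    p.ev ((chd ty (fam σ e O)).sn a) + (∑ i ∈ N, pay i) * Pm ≤ ∑ i, W i := by
  have e1 := h.total h0 h1 hs ty tc hz
  have e2 : ∑ i, k.ev (sg (σ i)) (sg (e i)) (sg (ρ i)) ((chd (tc i) (O i)).sn a) =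
      ∑ i ∈ N, k.ev (sg (σ i)) (sg (e i)) (sg (ρ i)) ((chd (tc i) (O i)).sn a) := by
    rw [← sum_subset (subset_univ N)]
    intro i _ hi
    exact h.hO.ct0 hi _ _ _ _ _ _
  have e3 : ∑ i, W i = ∑ i ∈ N, W i := by
    rw [← sum_subset (subset_univ N)]
    intro i _ hi
    exact hW0 i hi
  have e4 := sum_le_sum hc
  rw [sum_add_distrib, sum_add_distrib, ← sum_mul] at e4
  rw [e3]
  rw [e2] at e1
  linarith

/-! ### potentials and costs of the new state -/

/-- add costs to a potential -/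
def NS.add (p : NS) (c al be ga de : ℝ) : NS :=
  { p with c := p.c + c, al := p.al + al, be := p.be + be, ga := p.ga + ga, de := p.de + de }

lemma NS.add_ev (p : NS) (c al be ga de : ℝ) (s : Sn) : (p.add c al be ga de).ev s =
    p.ev s + (c + al * s.u + be * s.u ^ 2 + ga * s.y + de * s.y ^ 2) := by
  unfold NS.add NS.ev
  dsimp only
  ring

/-- the potential of the new state with the costs of an even number of children, gain `y'` -/
def NS.evA (p : NS) (Mu Cs a : ℝ) : NS :=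
  p.add 0 0 (Mu * a + Cs * a ^ 2) (-1) (Mu + Cs * a)

/-- the same with the gain `r` -/
def NS.evB (p : NS) (Mu Cs r a : ℝ) : NS :=
  p.add (-r) 0 (Mu * a + Cs * a ^ 2) 0 (Mu + Cs * a)

lemma NS.evA_ev (p : NS) (Mu Cs a : ℝ) (s : Sn) : (p.evA Mu Cs a).ev s =
    p.ev s - s.y + Mu * (s.y ^ 2 + a * s.u ^ 2) + Cs * (a ^ 2 * s.u ^ 2 + a * s.y ^ 2) := by
  unfold NS.evA
  rw [NS.add_ev]
  ring

lemma NS.evB_ev (p : NS) (Mu Cs r a : ℝ) (s : Sn) : (p.evB Mu Cs r a).ev s =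
    p.ev s - r + Mu * (s.y ^ 2 + a * s.u ^ 2) + Cs * (a ^ 2 * s.u ^ 2 + a * s.y ^ 2) := by
  unfold NS.evB
  rw [NS.add_ev]
  ring

/-- Rule E for an even number of children -/
theorem evE_of {χ : ℝ → ℝ} {D : ℝ} {U y V V' c' : ℝ → ℝ} (cq μ l Mu Cs : ℝ) (hE : ExpE cq μ)
    (hl : 0 < l) (hMu : μ * ((1 + l) + (1 + 1 / l) * D) ≤ Mu) (hC1 : 2 * cq ≤ Cs)
    {C0 : ℝ} (hC2 : 2 * cq + χ D * (2 * cq - C0) ≤ Cs) (hχ : 0 ≤ χ D)
    (hc' : ∀ a, Reg D a → C0 * (a ^ 2 * U a ^ 2 + a * y a ^ 2) ≤ c' a) {s : ℝ} (hs : 0 ≤ s)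
    (H : ∀ a, Reg D a → a < q0 → 0 < D → V' a - y a + Mu * (y a ^ 2 + a * U a ^ 2) +
      Cs * (a ^ 2 * U a ^ 2 + a * y a ^ 2) + s * (1 - D / (q0 - a)) ≤ V a) :
    EvE χ D U y V V' c' := by
  have key : ∀ a, Reg D a → a < q0 → 0 < D → V' a + s * (1 - D / (q0 - a)) ≤
      V a + y a - μ * ((1 + l) + (1 + 1 / l) * D) * (y a ^ 2 + a * U a ^ 2) -
      Cs * (a ^ 2 * U a ^ 2 + a * y a ^ 2) := by
    intro a ha hq hD
    have h1 := H a ha hq hD
    have ha0 := ha.2.2.1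
    have h2 : 0 ≤ y a ^ 2 + a * U a ^ 2 := by positivity
    have := mul_le_mul_of_nonneg_right hMu h2
    linarith
  refine ⟨cq, μ, l, hE, hl, ILe.c1 s hs fun a ha hq hD => ?_, ILe.c1 s hs fun a ha hq hD => ?_⟩
  · have h1 := key a ha hq hD
    have ha0 := ha.2.2.1
    have h3 : 0 ≤ a ^ 2 * U a ^ 2 + a * y a ^ 2 := by positivity
    have := mul_le_mul_of_nonneg_right hC1 h3
    unfold q0 at h1
    linarith
  · have h1 := key a ha hq hD
    have ha0 := ha.2.2.1
    have h3 : 0 ≤ a ^ 2 * U a ^ 2 + a * y a ^ 2 := by positivity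
    have h4 := mul_le_mul_of_nonneg_right hC2 h3
    have h5 := mul_le_mul_of_nonneg_left (hc' a ha) hχ
    unfold q0 at h1
    linarith

/-- the finite rule for an even number of children -/
theorem evF_of {χ : ℝ → ℝ} {D : ℝ} {U y V V' c' : ℝ → ℝ} (cq μ P l r Mu Cs : ℝ)
    (hE : ExpF K cq μ P) (hr : r * D ≤ P)
    (hl : 0 < l) (hMu : μ * ((1 + l) + (1 + 1 / l) * D) ≤ Mu) (hC1 : 2 * cq ≤ Cs)
    {C0 : ℝ} (hC2 : 2 * cq + χ D * (2 * cq - C0) ≤ Cs) (hχ : 0 ≤ χ D)
    (hc' : ∀ a, Reg D a → C0 * (a ^ 2 * U a ^ 2 + a * y a ^ 2) ≤ c' a) {s : ℝ} (hs : 0 ≤ s)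
    (H : ∀ a, Reg D a → a < q0 → 0 < D → V' a - y a + Mu * (y a ^ 2 + a * U a ^ 2) +
      Cs * (a ^ 2 * U a ^ 2 + a * y a ^ 2) + s * (1 - D / (q0 - a)) ≤ V a)
    (H' : ∀ a, Reg D a → a < q0 → 0 < D → V' a - r + Mu * (y a ^ 2 + a * U a ^ 2) +
      Cs * (a ^ 2 * U a ^ 2 + a * y a ^ 2) + s * (1 - D / (q0 - a)) ≤ V a) :
    EvF χ D K U y V V' c' := by
  have key : ∀ a, Reg D a → a < q0 → 0 < D → V' a + s * (1 - D / (q0 - a)) ≤
      V a + min (y a) r - μ * ((1 + l) + (1 + 1 / l) * D) * (y a ^ 2 + a * U a ^ 2) -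
      Cs * (a ^ 2 * U a ^ 2 + a * y a ^ 2) := by
    intro a ha hq hD
    have h1 := H a ha hq hD
    have h1' := H' a ha hq hD
    have ha0 := ha.2.2.1
    have h2 : 0 ≤ y a ^ 2 + a * U a ^ 2 := by positivity
    have := mul_le_mul_of_nonneg_right hMu h2
    rcases le_total (y a) r with h | h
    · rw [min_eq_left h]
      linarith
    · rw [min_eq_right h]
      linarith
  refine ⟨cq, μ, P, l, r, fun a => min (y a) r, hE, hl, hr, ILe.pt fun a _ => min_le_left _ _,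
    ILe.pt fun a _ => min_le_right _ _, ILe.c1 s hs fun a ha hq hD => ?_,
    ILe.c1 s hs fun a ha hq hD => ?_⟩
  · have h1 := key a ha hq hD
    have ha0 := ha.2.2.1
    have h3 : 0 ≤ a ^ 2 * U a ^ 2 + a * y a ^ 2 := by positivity
    have := mul_le_mul_of_nonneg_right hC1 h3
    unfold q0 at h1
    linarith
  · have h1 := key a ha hq hD
    have ha0 := ha.2.2.1
    have h3 : 0 ≤ a ^ 2 * U a ^ 2 + a * y a ^ 2 := by positivity
    have h4 := mul_le_mul_of_nonneg_right hC2 h3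
    have h5 := mul_le_mul_of_nonneg_left (hc' a ha) hχ
    unfold q0 at h1
    linarith

end

end Pool.Agent.TSM
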