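import Pool.Agent.TSM.Fam3

set_option autoImplicit false

/-!
# The step with an even number of children (MP_d27362_co)
-/

namespace Pool.Agent.TSM

open Finset Polynomial
open Pool.Agent.TSP
open Pool.Agent.TSO
open Pool.Agent.TSR (OBr Ker)
open Pool.Agent.TLT (sg)
open Pool.Agent.TDN (dn dn_nonneg)

noncomputable section

variable {K : ℕ} {O : Fin K → OBr} {N : Finset (Fin K)}
  {Y : Sys} {Adm : ℕ → ℝ → ℝ → ℝ → ℝ → Prop} {V P : ℝ → ℝ → Sn → ℝ} {χ : ℝ → ℝ}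

/-- Rule E is a finite rule -/
lemma ExpE.toF {cq μ : ℝ} (h : ExpE cq μ) {K : ℕ} (hK : 0 < K) (P : ℝ) : ExpF K cq μ P where
  cq0 := h.cq0
  mu0 := h.mu0
  quad := by
    intro u
    have h1 := h.hexp u u le_rfl
    by_contra h2
    push Not at h2
    have h3 := mul_neg_of_pos_of_neg (Real.exp_pos (μ * u ^ 2)) h2
    have := Real.exp_pos u
    linarith
  hexp := by
    intro ρ u w _ hu h0
    have hK' : (0 : ℝ) < K := by exact_mod_cast hK
    have h1 : (1 + (u - ρ) / K) ^ K ≤ Real.exp (u - ρ) := by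
      have h2 : 1 + (u - ρ) / K ≤ Real.exp ((u - ρ) / K) := by
        have := Real.add_one_le_exp ((u - ρ) / K)
        linarith
      refine (pow_le_pow_left₀ h0 h2 K).trans (le_of_eq ?_)
      rw [← Real.exp_nat_mul]
      congr 1
      field_simp
    have h3 : Real.exp (u - ρ) = Real.exp (-ρ) * Real.exp u := by
      rw [← Real.exp_add]
      congr 1
      ring
    rw [h3] at h1
    exact h1.trans (mul_le_mul_of_nonneg_left (h.hexp u w hu) (Real.exp_nonneg _))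

lemma EvE.toF {D : ℝ} {U y V V' c' : ℝ → ℝ} (h : EvE χ D U y V V' c') {K : ℕ} (hK : 0 < K)
    (hb : ∃ B, ∀ a, Reg D a → y a ≤ B) : EvF χ D K U y V V' c' := by
  obtain ⟨cq, μ, l, hE, hl, h1, h2⟩ := h
  obtain ⟨B, hB⟩ := hb
  exact ⟨cq, μ, B * D, l, B, y, hE.toF hK _, hl, le_rfl, ILe.pt fun a _ => le_rfl,
    ILe.pt fun a ha => hB a ha, h1, h2⟩

/-- a polynomial is bounded on the region -/
lemma poly_bd (p : ℝ[X]) (D : ℝ) : ∃ B, ∀ a, Reg D a → p.eval a ≤ B := by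
  have h1 : ContinuousOn (fun a => p.eval a) (Set.Icc 0 (1 / 2)) := p.continuous.continuousOn
  obtain ⟨B, hB⟩ := (isCompact_Icc.bddAbove_image h1)
  refine ⟨B, fun a ha => hB ⟨a, ⟨ha.2.2.1, ?_⟩, rfl⟩⟩
  have := ha.1
  have := ha.2.2.2.1
  linarith

/-- the value of a child in a sum -/
def Vi (V : ℝ → ℝ → Sn → ℝ) (N : Finset (Fin K)) (tc : Fin K → ℕ) (O : Fin K → OBr)
    (i : Fin K) (D a : ℝ) : ℝ := if i ∈ N then V D a ((chd (tc i) (O i)).sn a) else 0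

lemma Vi_mem (V : ℝ → ℝ → Sn → ℝ) (tc : Fin K → ℕ) (O : Fin K → OBr)
    {i : Fin K} (hi : i ∈ N) (D a : ℝ) : Vi V N tc O i D a = V D a ((chd (tc i) (O i)).sn a) :=
  if_pos hi

lemma Vi_not (V : ℝ → ℝ → Sn → ℝ) (tc : Fin K → ℕ) (O : Fin K → OBr)
    {i : Fin K} (hi : i ∉ N) (D a : ℝ) : Vi V N tc O i D a = 0 := if_neg hi

/-- the children of a family together with their types -/
structure FamT (Y : Sys) (Adm : ℕ → ℝ → ℝ → ℝ → ℝ → Prop) (V P : ℝ → ℝ → Sn → ℝ)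
    (O : Fin K → OBr) (N : Finset (Fin K)) (tc : Fin K → ℕ) : Prop where
  hO : FamO O N
  ht : ∀ i ∈ N, tc i = 0 ↔ tau (O i) = 0
  hA : ∀ i ∈ N, Adm (tc i) (vU (O i)) (vY (O i)) (aU (O i)) (aY (O i))
  hG : ∀ i, Y.G (O i) (Vi V N tc O i) (Vi P N tc O i)

theorem famT_exists (hN : ∀ i ∈ N, PO Y Adm V P (O i))
    (hM : ∀ i ∉ N, O i = .nil ∨ O i = two) : ∃ tc : Fin K → ℕ, FamT Y Adm V P O N tc := by
  have hN' : ∀ i, ∃ t : ℕ, i ∈ N → ((t = 0 ↔ tau (O i) = 0) ∧ Inv (O i) ∧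
      Adm t (vU (O i)) (vY (O i)) (aU (O i)) (aY (O i)) ∧
      Y.G (O i) (fun D a => V D a ((chd t (O i)).sn a))
        (fun D a => P D a ((chd t (O i)).sn a))) := by
    intro i
    by_cases hi : i ∈ N
    · obtain ⟨t, h⟩ := hN i hi
      exact ⟨t, fun _ => h⟩
    · exact ⟨0, fun h => absurd h hi⟩
  choose tc h using hN'
  refine ⟨tc, ⟨hM, fun i => ?_⟩, fun i hi => (h i hi).1, fun i hi => (h i hi).2.2.1, fun i => ?_⟩
  · by_cases hi : i ∈ N
    · exact (h i hi).2.1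
    · rcases hM i hi with h | h <;> rw [h]
      · exact inv_nil
      · exact inv_two
  · by_cases hi : i ∈ N
    · have h1 := (h i hi).2.2.2
      have e1 : Vi V N tc O i = fun D a => V D a ((chd (tc i) (O i)).sn a) := by
        funext D a
        exact Vi_mem V tc O hi D a
      have e2 : Vi P N tc O i = fun D a => P D a ((chd (tc i) (O i)).sn a) := by
        funext D a
        exact Vi_mem P tc O hi D a
      rw [e1, e2]
      exact h1
    · have e1 : Vi V N tc O i = fun _ _ => 0 := by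
        funext D a
        exact Vi_not V tc O hi D a
      have e2 : Vi P N tc O i = fun _ _ => 0 := by
        funext D a
        exact Vi_not P tc O hi D a
      rw [e1, e2]
      rcases hM i hi with h | h <;> rw [h]
      · exact Y.nil
      · exact Y.two

/-- **the step with an even number of children** -/
theorem even_step (hY : Y.G = GoodE χ) (hχ : ∀ D, RD D → 0 ≤ χ D) (hK : Even K) (hK0 : 0 < K)
    (hN : ∀ i ∈ N, PO Y Adm V P (O i)) (hM : ∀ i ∉ N, O i = .nil ∨ O i = two)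
    (hAd : ∀ vU vY aU aY, Adm 0 vU vY aU aY)
    (H : ∀ (σ e ρ : Fin K → Bool) (tc : Fin K → ℕ) (n : ℕ), FamT Y Adm V P O N tc →
      n = n1 O % 2 →
      (Even N.card → ∑ i ∈ N, sg (ρ i) = 0) → (Odd N.card → ∑ i ∈ N, sg (ρ i) = 1) →
      (∀ m : ℝ, (N.card : ℝ) ≤ m → FamS O N σ e ρ m 2 n (16 - 12 * n) (4 - 3 * n)) →
      Inv (fam σ e O) → ∀ D, RD D → EvF χ D K (fun a => (UU (fam σ e O)).eval a)
        (fun a => (YY (fam σ e O)).eval a) (fun a => ∑ i, Vi V N tc O i D a)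
        (fun a => V D a ((chd 0 (fam σ e O)).sn a))
        (fun a => P D a ((chd 0 (fam σ e O)).sn a))) :
    ∃ σ e : Fin K → Bool, PO Y Adm V P (fam σ e O) := by
  obtain ⟨tc, hT⟩ := famT_exists hN hM
  obtain ⟨s, e, ρ, z, n, hn, h1, h2, h3⟩ := famS_exists hT.hO
  obtain ⟨σ, hσ, hσ0⟩ := ext_even hK s z (fun h => (h1 h).1) (fun h => (h2 h).1)
  have hτ : tau (fam σ e O) = 0 := by rw [fam_tau]; exact hσ0
  have hInv := (h3 σ hσ _ le_rfl).1 (Or.inl hτ)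
  refine ⟨σ, e, 0, ?_, hInv, hAd _ _ _ _, ?_⟩
  · rw [hτ]
    simp
  · have h4 := H σ e ρ tc n hT hn (fun h => (h1 h).2) (fun h => (h2 h).2)
      (fun m hm => (h3 σ hσ m hm).2) hInv
    have hG := hT.hG
    rw [hY] at hG ⊢
    refine GoodE.evF hχ hK0 O σ e _ _ hG hσ0 (fun a => (UU (fam σ e O)).eval a)
      (fun a => (YY (fam σ e O)).eval a) (fun a => (FamS.U_eq O σ e a).symm) (fun a => ?_) h4
    rw [fam_YY, eval_finsetSum]
    exact sum_congr rfl fun i _ => by rw [eval_smul, smul_eq_mul]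

/-- **the inequality of an even number of children from the lines of the children**. The constants
of the rule are `cq`, `μ`, `Q`, `l`, `r`; `C0` is the pending price of the type `0`; `NV a` is the
potential of the type `0` at the point `a` -/
theorem evF_lines {σ e ρ : Fin K → Bool} {tc : Fin K → ℕ} {m n vm fv fg D : ℝ}
    (hS : FamS O N σ e ρ m 2 n vm fv fg) (hχ : 0 ≤ χ D)
    (NV : ℝ → NS) (hV : ∀ a, Reg D a → ∀ u y vU vY aU aY,
      V D a ⟨0, u, y, vU, vY, aU, aY⟩ = (NV a).ev ⟨0, u, y, vU, vY, aU, aY⟩)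
    {C0 : ℝ} (hP : ∀ a, Reg D a → ∀ u y vU vY aU aY,
      C0 * (a ^ 2 * u ^ 2 + a * y ^ 2) ≤ P D a ⟨0, u, y, vU, vY, aU, aY⟩)
    (cq μ Q l r Mu Cs : ℝ) (hE : ExpF K cq μ Q) (hr : r * D ≤ Q) (hl : 0 < l)
    (hMu : μ * ((1 + l) + (1 + 1 / l) * D) ≤ Mu) (hC1 : 2 * cq ≤ Cs)
    (hC2 : 2 * cq + χ D * (2 * cq - C0) ≤ Cs) (pay : Fin K → ℝ) (hpay : ∀ i ∈ N, 0 ≤ pay i)
    (H : ∀ a, Reg D a → a < q0 → 0 < D → ∃ κ k, ∃ sh : Fin K → ℝ,
      Spl ((NV a).evA Mu Cs a) a m 2 n vm fv κ k fg ∧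
      (∀ i ∈ N, sh i + pay i * (1 - D / (q0 - a)) +
        k.ev (sg (σ i)) (sg (e i)) (sg (ρ i)) ((chd (tc i) (O i)).sn a) ≤
          V D a ((chd (tc i) (O i)).sn a)) ∧ κ ≤ ∑ i ∈ N, sh i)
    (H' : ∀ a, Reg D a → a < q0 → 0 < D → ∃ κ k, ∃ sh : Fin K → ℝ,
      Spl ((NV a).evB Mu Cs r a) a m 2 n vm fv κ k fg ∧
      (∀ i ∈ N, sh i + pay i * (1 - D / (q0 - a)) +
        k.ev (sg (σ i)) (sg (e i)) (sg (ρ i)) ((chd (tc i) (O i)).sn a) ≤
          V D a ((chd (tc i) (O i)).sn a)) ∧ κ ≤ ∑ i ∈ N, sh i) :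
    EvF χ D K (fun a => (UU (fam σ e O)).eval a)
        (fun a => (YY (fam σ e O)).eval a) (fun a => ∑ i, Vi V N tc O i D a)
        (fun a => V D a ((chd 0 (fam σ e O)).sn a))
        (fun a => P D a ((chd 0 (fam σ e O)).sn a)) := by
  have hw : ∀ a, ∀ i ∉ N, Vi V N tc O i D a = 0 := fun a i hi => Vi_not V tc O hi D a
  have hs : 0 ≤ ∑ i ∈ N, pay i := sum_nonneg hpay
  have eV : ∀ a, Reg D a → V D a ((chd 0 (fam σ e O)).sn a) =
      (NV a).ev ((chd 0 (fam σ e O)).sn a) := fun a ha => hV a ha _ _ _ _ _ _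
  refine evF_of cq μ Q l r Mu Cs hE hr hl hMu hC1 (C0 := C0) hC2 hχ
    (fun a ha => hP a ha _ _ _ _ _ _) hs (fun a ha hq hD => ?_) (fun a ha hq hD => ?_)
  · obtain ⟨κ, k, sh, h1, h2, h3⟩ := H a ha hq hD
    have h4 := hS.line ha.2.2.1 hq.le h1 0 tc (fun i => Vi V N tc O i D a) (hw a) sh pay
      (1 - D / (q0 - a)) (fun i hi => by rw [Vi_mem V tc O hi]; exact h2 i hi) h3 (by simp)
    rw [NS.evA_ev] at h4
    rw [eV a ha]
    exact h4
  · obtain ⟨κ, k, sh, h1, h2, h3⟩ := H' a ha hq hD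
    have h4 := hS.line ha.2.2.1 hq.le h1 0 tc (fun i => Vi V N tc O i D a) (hw a) sh pay
      (1 - D / (q0 - a)) (fun i hi => by rw [Vi_mem V tc O hi]; exact h2 i hi) h3 (by simp)
    rw [NS.evB_ev] at h4
    rw [eV a ha]
    exact h4

end

end Pool.Agent.TSM
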