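import Pool.Agent.TSM.Fam4
import Pool.Agent.TSM.LeftTree

set_option autoImplicit false

/-!
# The step with an odd number of children, one of them split off: lines (MP_d27362_co)
-/

namespace Pool.Agent.TSM

open Finset Polynomial
open Pool.Agent.TSP
open Pool.Agent.TSO
open Pool.Agent.TSR (OBr Ker)
open Pool.Agent.TLT (sg)
open Pool.Agent.TDN (dn dn_nonneg)

noncomputable section

/-- the constants of the rule which splits off one child -/
structure LK where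
  /-- see `OneE` -/
  D1 : ℝ
  /-- see `OneE` -/
  χ0 : ℝ
  /-- see `OneE` -/
  K : ℝ
  /-- the cap of the gain of the child which is split off -/
  r : ℝ
  /-- see `OneE` -/
  κ : ℝ
  /-- see `LossC` -/
  σ0 : ℝ
  /-- price of a net loss of the child which is split off -/
  s : ℝ
  /-- see `LossC` -/
  K1 : ℝ
  /-- see `LossC` -/
  K2 : ℝ
  /-- see `LeftC` -/
  τ : ℝ
  /-- see `LeftC` -/
  ω : ℝ
  /-- see `LeftC` -/
  ϑ : ℝ
  /-- see `LeftC` -/
  ν : ℝ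
  /-- see `LeftC` -/
  B1 : ℝ
  /-- see `LeftC` -/
  B2 : ℝ
  /-- see `RestC` -/
  P : ℝ
  /-- see `RestC` -/
  c : ℝ
  /-- see `RestC` -/
  μ : ℝ
  /-- see `RestC` -/
  η : ℝ
  /-- see `RestC` -/
  sR : ℝ
  /-- the parameter of the sup bound -/
  l : ℝ
  /-- the factor of the sup bound -/
  ψ : ℝ
  /-- the cap of the gain of the rest -/
  rR : ℝ
  /-- see `RestC` -/
  N : ℝ → ℝ

/-- the conditions on the constants -/
structure LK.Ok (C : LK) (χD D : ℝ) (k : ℕ) : Prop where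
  h1 : OneE D C.D1 C.χ0 C.K C.r C.κ
  h2 : LossC C.D1 C.σ0 C.s 1 C.K1
  h3 : LossC C.D1 C.σ0 χD (1 + χD) C.K2
  h4 : C.s ≤ χD
  h5 : LeftC (C.r * D) C.χ0 C.τ C.ω C.ϑ C.ν C.B1 C.B2
  h6 : RestC k C.P C.c C.μ C.η C.sR C.N
  h7 : C.sR ≤ χD
  h8 : 0 < C.l
  h9 : (1 + C.l) + (1 + 1 / C.l) * D ≤ C.ψ
  h10 : C.rR * D ≤ C.P
  h11 : 0 ≤ C.η

/-- the cost of the gain side -/
def LK.Q1 (C : LK) (xL yL U2 y2 : ℝ → ℝ) (a : ℝ) : ℝ :=
  C.ω * (lcr xL yL U2 y2 a + C.ν * (C.τ / 2) * ldl xL yL a + 1 / (2 * C.τ) * lq2 U2 y2 a) +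
    2 * (C.B1 * C.c) * lq2 U2 y2 a

/-- the cost of the loss side -/
def LK.Q2 (C : LK) (xL yL U2 y2 : ℝ → ℝ) (a : ℝ) : ℝ :=
  (lcr xL yL U2 y2 a + C.τ / 2 * ldl xL yL a + 1 / (2 * C.τ) * lq2 U2 y2 a) +
    2 * (C.B2 * C.c) * lq2 U2 y2 a

/-- the four lines; `B` is the bank of the rest, `g` the gain and `E` the excess of the energy of
the child which is split off -/
def LK.Ln (C : LK) (χD : ℝ) (xL yL U2 y2 VL cL : ℝ → ℝ) (B g E V' c' a : ℝ) : Prop :=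
  V' ≤ VL a + B + (1 - C.χ0 - C.ϑ) * g - C.K * E - C.Q1 xL yL U2 y2 a ∧
  V' ≤ VL a + B + (1 - C.χ0 - C.ϑ) * g - C.K * E - C.Q1 xL yL U2 y2 a -
    χD * ((C.κ + C.ϑ) * g + C.Q1 xL yL U2 y2 a - c') ∧
  V' ≤ VL a + B + g - C.s * (cL a - g) - C.K1 * E - C.Q2 xL yL U2 y2 a ∧
  V' ≤ VL a + B + g - χD * (cL a - g) - C.K2 * E + χD * c' - (1 + χD) * C.Q2 xL yL U2 y2 a

/-- **the rule from its lines** -/
theorem lfE_of {χ : ℝ → ℝ} {D : ℝ} {k : ℕ} (C : LK) (hC : C.Ok (χ D) D k)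
    {xL yL U2 y2 VL cL VR cR V' c' : ℝ → ℝ} {s : ℝ} (hs : 0 ≤ s)
    (H : ∀ a, Reg D a → a < q0 → 0 < D → ∀ G hG hS : ℝ, (G = y2 a ∨ G = C.rR) →
      ((hG = C.η ∧ hS = 0) ∨ (hG = 1 + C.sR ∧ hS = C.sR)) →
      C.Ln (χ D) xL yL U2 y2 VL cL
        (VR a + hG * G - hS * cR a - C.μ * C.ψ * le2 U2 y2 a) (min (xL a) C.r)
        (max 0 (ldl xL yL a - 1)) (V' a + s * (1 - D / (q0 - a))) (c' a) a) :
    LfE χ D k xL yL U2 y2 VL cL VR cR V' c' := by
  have hsR := hC.h6.hs0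
  have hη := hC.h11
  -- the two banks
  set gR : ℝ → ℝ := fun a => min (y2 a) C.rR with hgR
  set b1 : ℝ → ℝ := fun a => VR a + C.η * gR a - C.μ * C.ψ * le2 U2 y2 a with hb1
  set b2 : ℝ → ℝ := fun a => VR a + gR a - C.sR * (cR a - gR a) - C.μ * C.ψ * le2 U2 y2 a
    with hb2
  have key : ∀ a, Reg D a → a < q0 → 0 < D →
      C.Ln (χ D) xL yL U2 y2 VL cL (min (b1 a) (b2 a)) (min (xL a) C.r)
        (max 0 (ldl xL yL a - 1)) (V' a + s * (1 - D / (q0 - a))) (c' a) a := by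
    intro a ha hq hD
    have e1 : ∃ G hG hS : ℝ, (G = y2 a ∨ G = C.rR) ∧
        ((hG = C.η ∧ hS = 0) ∨ (hG = 1 + C.sR ∧ hS = C.sR)) ∧
        VR a + hG * G - hS * cR a - C.μ * C.ψ * le2 U2 y2 a = min (b1 a) (b2 a) := by
      have e2 : gR a = y2 a ∨ gR a = C.rR := by
        rcases le_total (y2 a) C.rR with h | h
        · exact Or.inl (min_eq_left h)
        · exact Or.inr (min_eq_right h)
      rcases le_total (b1 a) (b2 a) with h | h
      · rw [min_eq_left h]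
        refine ⟨gR a, C.η, 0, e2, Or.inl ⟨rfl, rfl⟩, ?_⟩
        simp only [hb1]
        ring
      · rw [min_eq_right h]
        refine ⟨gR a, 1 + C.sR, C.sR, e2, Or.inr ⟨rfl, rfl⟩, ?_⟩
        simp only [hb2]
        ring
    obtain ⟨G, hG, hS, h1, h2, h3⟩ := e1
    have := H a ha hq hD G hG hS h1 h2
    rwa [h3] at this
  refine ⟨C.D1, C.χ0, C.K, C.r, C.κ, C.σ0, C.s, C.K1, C.K2, C.τ, C.ω, C.ϑ, C.ν, C.B1, C.B2, C.P,
    C.c, C.μ, C.η, C.sR, C.l, C.ψ, C.rR, C.N, fun a => min (xL a) C.r,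
    fun a => max 0 (ldl xL yL a - 1), gR, fun a => min (b1 a) (b2 a), hC.h1, hC.h2, hC.h3, hC.h4,
    hC.h5, hC.h6, hC.h7, hC.h8, hC.h9, hC.h10, ILe.pt fun a _ => min_le_left _ _,
    ILe.pt fun a _ => min_le_right _ _, ILe.pt fun a _ => min_le_left _ _,
    ILe.pt fun a _ => min_le_right _ _, ILe.pt fun a _ => le_max_left _ _,
    ILe.pt fun a _ => ?_, ILe.pt fun a _ => min_le_left _ _, ILe.pt fun a _ => min_le_right _ _,
    ILe.c1 s hs fun a ha hq hD => ?_, ILe.c1 s hs fun a ha hq hD => ?_,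
    ILe.c1 s hs fun a ha hq hD => ?_, ILe.c1 s hs fun a ha hq hD => ?_⟩
  · have := le_max_right 0 (ldl xL yL a - 1)
    linarith
  · have h := (key a ha hq hD).1
    unfold q0 LK.Q1 at h
    linarith
  · have h := (key a ha hq hD).2.1
    unfold q0 LK.Q1 at h
    linarith
  · have h := (key a ha hq hD).2.2.1
    unfold q0 LK.Q2 at h
    linarith
  · have h := (key a ha hq hD).2.2.2
    unfold q0 LK.Q2 at h
    linarith

/-! ### a trivial child is split off -/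

variable {K : ℕ} {O : Fin K → OBr} {N : Finset (Fin K)}
  {Y : Sys} {Adm : ℕ → ℝ → ℝ → ℝ → ℝ → Prop} {V P : ℝ → ℝ → Sn → ℝ} {χ : ℝ → ℝ}

/-- the gain of a trivial child -/
def xiT (b : Bool) (O : OBr) : ℝ := sg b * (XX O).eval 0

lemma xiT_eq {O : OBr} (h : O = .nil ∨ O = two) (b : Bool) (a : ℝ) :
    sg b * (XX O).eval a = xiT b O := by
  unfold xiT
  rcases h with h | h <;> rw [h] <;> simp

lemma xiT_nil (b : Bool) : xiT b .nil = 0 := by
  unfold xiT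
  simp

lemma xiT_two (b : Bool) : xiT b two = sg b := by
  unfold xiT
  rw [XX_two, eval_one, mul_one]

/-- **the step with an odd number of children, the trivial child `j` is split off** -/
theorem odd_step_triv (hY : Y.G = GoodE χ) (hK : Odd K) (hK2 : 2 ≤ K) (j : Fin K) (hj : j ∉ N)
    (hN : ∀ i ∈ N, PO Y Adm V P (O i)) (hM : ∀ i ∉ N, O i = .nil ∨ O i = two)
    (H : ∀ (σ e ρ : Fin K → Bool) (tc : Fin K → ℕ) (n : ℕ), FamT Y Adm V P O N tc →
      n = n1 O % 2 →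
      (Even N.card → ∑ i ∈ N, sg (ρ i) = 0) → (Odd N.card → ∑ i ∈ N, sg (ρ i) = 1) →
      (∀ m : ℝ, (N.card : ℝ) ≤ m → FamS O N σ e ρ m 2 n (16 - 12 * n) (4 - 3 * n)) →
      Inv (fam σ e O) →
      ∃ ty : ℕ, ty ≠ 0 ∧ Adm ty (vU (fam σ e O)) (vY (fam σ e O)) (aU (fam σ e O))
        (aY (fam σ e O)) ∧
      ∀ D, RD D → LfE χ D (K - 1) (fun _ => xiT (e j) (O j)) (fun _ => 0)
        (fun a => (UU (fam σ e O)).eval a)
        (fun a => (YY (fam σ e O)).eval a - xiT (e j) (O j)) (fun _ => 0) (fun _ => 0)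
        (fun a => ∑ i, Vi V N tc O i D a) (fun a => ∑ i, Vi P N tc O i D a)
        (fun a => V D a ((chd ty (fam σ e O)).sn a))
        (fun a => P D a ((chd ty (fam σ e O)).sn a))) :
    ∃ σ e : Fin K → Bool, PO Y Adm V P (fam σ e O) := by
  obtain ⟨tc, hT⟩ := famT_exists hN hM
  obtain ⟨s, e, ρ, z, n, hn, h1, h2, h3⟩ := famS_exists hT.hO
  obtain ⟨σ, hσ, hσj, hσ1⟩ := ext_odd hK j hj s z (fun h => (h1 h).1) (fun h => (h2 h).1)
  have hτ : tau (fam σ e O) = 1 := by rw [fam_tau]; exact hσ1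
  have hInv := (h3 σ hσ _ le_rfl).1 (Or.inr hτ)
  obtain ⟨ty, hty, hAd, h4⟩ := H σ e ρ tc n hT hn (fun h => (h1 h).2) (fun h => (h2 h).2)
      (fun m hm => (h3 σ hσ m hm).2) hInv
  refine ⟨σ, e, ty, ?_, hInv, hAd, ?_⟩
  · rw [hτ]
    constructor
    · exact fun h => absurd h hty
    · intro h
      norm_num at h
  · have hG := hT.hG
    rw [hY] at hG ⊢
    have hYj : YY (O j) = 0 := hT.hO.YY0 hj
    have eS : ∀ (W : ℝ → ℝ → Sn → ℝ) (D : ℝ), (fun a => ∑ i ∈ univ.erase j, Vi W N tc O i D a) =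
        fun a => ∑ i, Vi W N tc O i D a := by
      intro W D
      funext a
      rw [← add_sum_erase univ _ (mem_univ j), Vi_not W tc O hj, zero_add]
    refine GoodE.lf O σ e _ _ hG hK2 j hσj hσ1 (fun _ => xiT (e j) (O j)) (fun _ => 0)
      (fun a => (UU (fam σ e O)).eval a)
      (fun a => (YY (fam σ e O)).eval a - xiT (e j) (O j))
      (fun a => xiT_eq (hM j hj) _ _) (fun a => by rw [hYj, eval_zero]) (fun a => ?_)
      (fun a => ?_) fun D hD => ?_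
    · rw [FamS.U_eq, ← add_sum_erase univ _ (mem_univ j), hYj, eval_zero, mul_zero, zero_add]
    · rw [fam_YY, eval_finsetSum, ← add_sum_erase univ _ (mem_univ j), eval_smul, smul_eq_mul,
        xiT_eq (hM j hj)]
      have : ∑ i ∈ univ.erase j, (sg (e i) • XX (O i)).eval a =
          ∑ i ∈ univ.erase j, sg (e i) * (XX (O i)).eval a :=
        sum_congr rfl fun i _ => by rw [eval_smul, smul_eq_mul]
      rw [this]
      ring
    · rw [eS, eS]
      have e1 : Vi V N tc O j D = fun _ => 0 := by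
        funext a
        exact Vi_not V tc O hj D a
      have e2 : Vi P N tc O j D = fun _ => 0 := by
        funext a
        exact Vi_not P tc O hj D a
      rw [e1, e2]
      exact h4 D hD

/-- a pending cost which is a polynomial of degree two in `u`, `y` -/
structure Q5 where
  /-- constant -/
  c : ℝ
  /-- coefficient of `u` -/
  al : ℝ
  /-- coefficient of `u²` -/
  be : ℝ
  /-- coefficient of `y` -/
  ga : ℝ
  /-- coefficient of `y²` -/
  de : ℝ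

/-- the value -/
def Q5.ev (q : Q5) (s : Sn) : ℝ :=
  q.c + q.al * s.u + q.be * s.u ^ 2 + q.ga * s.y + q.de * s.y ^ 2

/-- the coefficients of one line: `al`, `la`, `b` are the factors of `lcr`, `ldl`, `lq2`, `z` is the
factor of the pending cost of the new vertex and `k` a constant -/
structure LnC where
  /-- factor of the mixed moment -/
  al : ℝ
  /-- factor of the second moment of the child which is split off -/
  la : ℝ
  /-- factor of the second moment of the rest -/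
  b : ℝ
  /-- factor of the pending cost -/
  z : ℝ
  /-- constant -/
  k : ℝ

/-- the four lines for the gain `ξ` -/
def LK.ln (C : LK) (χD ξ a : ℝ) : Fin 4 → LnC
  | 0 => ⟨C.ω, C.ω * (C.ν * (C.τ / 2)), C.ω / (2 * C.τ) + 2 * (C.B1 * C.c), 0,
      C.K * (a * ξ ^ 2) - (1 - C.χ0 - C.ϑ) * min ξ C.r⟩
  | 1 => ⟨(1 + χD) * C.ω, (1 + χD) * (C.ω * (C.ν * (C.τ / 2))),
      (1 + χD) * (C.ω / (2 * C.τ) + 2 * (C.B1 * C.c)), χD,
      C.K * (a * ξ ^ 2) - (1 - C.χ0 - C.ϑ) * min ξ C.r + χD * ((C.κ + C.ϑ) * min ξ C.r)⟩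
  | 2 => ⟨1, C.τ / 2, 1 / (2 * C.τ) + 2 * (C.B2 * C.c), 0,
      C.K1 * (a * ξ ^ 2) - (1 + C.s) * min ξ C.r⟩
  | 3 => ⟨1 + χD, (1 + χD) * (C.τ / 2), (1 + χD) * (1 / (2 * C.τ) + 2 * (C.B2 * C.c)), χD,
      C.K2 * (a * ξ ^ 2) - (1 + χD) * min ξ C.r⟩

/-- the coefficients of the new state for one line; `G0 + G1 y'` is the gain of the rest with the
factor `hG` -/
def NS.lf (p : NS) (q : Q5) (M : ℝ) (L : LnC) (ξ a hG G0 G1 : ℝ) : NS :=
  p.add (M * ξ ^ 2 - L.al * (a * ξ ^ 2) + L.la * (1 + a * ξ ^ 2) + L.b * (a * ξ ^ 2) -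
      L.z * q.c + L.k - hG * G0)
    (-(L.al * a) - L.z * q.al) (M * a + L.b * a ^ 2 - L.z * q.be)
    (-(2 * M * ξ) + L.al * (a * ξ) - 2 * L.b * (a * ξ) - L.z * q.ga - hG * G1)
    (M + L.b * a - L.z * q.de)

/-- **the inequality of an odd number of children from the lines of the children**, a trivial child
with the gain `ξ` is split off. `NV a`, `NP a` are the potential and the pending cost of the new
type -/
theorem lfE_lines {σ e ρ : Fin K → Bool} {tc : Fin K → ℕ} {m n vm fv fg D ξ : ℝ}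
    (hS : FamS O N σ e ρ m 2 n vm fv fg) {ty : ℕ}
    (NV : ℝ → NS) (hV : ∀ a, Reg D a → ∀ u y vU vY aU aY,
      V D a ⟨ty, u, y, vU, vY, aU, aY⟩ = (NV a).ev ⟨ty, u, y, vU, vY, aU, aY⟩)
    (NP : ℝ → Q5) (hP : ∀ a, Reg D a → ∀ u y vU vY aU aY,
      P D a ⟨ty, u, y, vU, vY, aU, aY⟩ = (NP a).ev ⟨ty, u, y, vU, vY, aU, aY⟩)
    (C : LK) {k : ℕ} (hC : C.Ok (χ D) D k) (pay : Fin K → ℝ) (hpay : ∀ i ∈ N, 0 ≤ pay i)
    (H : ∀ a, Reg D a → a < q0 → 0 < D → ∀ (i4 : Fin 4) (G0 G1 hG hS' : ℝ),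
      ((G0 = -ξ ∧ G1 = 1) ∨ (G0 = C.rR ∧ G1 = 0)) →
      ((hG = C.η ∧ hS' = 0) ∨ (hG = 1 + C.sR ∧ hS' = C.sR)) →
      ∃ κ c, ∃ sh : Fin K → ℝ,
      Spl ((NV a).lf (NP a) (C.μ * C.ψ) (C.ln (χ D) ξ a i4) ξ a hG G0 G1) a m 2 n vm fv κ c fg ∧
      (∀ i ∈ N, sh i + pay i * (1 - D / (q0 - a)) +
        c.ev (sg (σ i)) (sg (e i)) (sg (ρ i)) ((chd (tc i) (O i)).sn a) ≤
          V D a ((chd (tc i) (O i)).sn a) - hS' * P D a ((chd (tc i) (O i)).sn a)) ∧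
      κ ≤ ∑ i ∈ N, sh i) :
    LfE χ D k (fun _ => ξ) (fun _ => 0) (fun a => (UU (fam σ e O)).eval a)
        (fun a => (YY (fam σ e O)).eval a - ξ) (fun _ => 0) (fun _ => 0)
        (fun a => ∑ i, Vi V N tc O i D a) (fun a => ∑ i, Vi P N tc O i D a)
        (fun a => V D a ((chd ty (fam σ e O)).sn a))
        (fun a => P D a ((chd ty (fam σ e O)).sn a)) := by
  have hs : 0 ≤ ∑ i ∈ N, pay i := sum_nonneg hpay
  have eV : ∀ a, Reg D a → V D a ((chd ty (fam σ e O)).sn a) =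
      (NV a).ev ((chd ty (fam σ e O)).sn a) := fun a ha => hV a ha _ _ _ _ _ _
  have eP : ∀ a, Reg D a → P D a ((chd ty (fam σ e O)).sn a) =
      (NP a).ev ((chd ty (fam σ e O)).sn a) := fun a ha => hP a ha _ _ _ _ _ _
  refine lfE_of C hC hs fun a ha hq hD G hG hS' h1 h2 => ?_
  -- the two forms of the gain
  obtain ⟨G0, G1, h3, h4⟩ : ∃ G0 G1 : ℝ, ((G0 = -ξ ∧ G1 = 1) ∨ (G0 = C.rR ∧ G1 = 0)) ∧
      G = G0 + G1 * (YY (fam σ e O)).eval a := by
    rcases h1 with h1 | h1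
    · exact ⟨-ξ, 1, Or.inl ⟨rfl, rfl⟩, by rw [h1]; ring⟩
    · exact ⟨C.rR, 0, Or.inr ⟨rfl, rfl⟩, by rw [h1]; ring⟩
  have key : ∀ i4 : Fin 4,
      ((NV a).lf (NP a) (C.μ * C.ψ) (C.ln (χ D) ξ a i4) ξ a hG G0 G1).ev
        ((chd ty (fam σ e O)).sn a) + (∑ i ∈ N, pay i) * (1 - D / (q0 - a)) ≤
      ∑ i, Vi V N tc O i D a - hS' * ∑ i, Vi P N tc O i D a := by
    intro i4
    obtain ⟨κ, c, sh, g1, g2, g3⟩ := H a ha hq hD i4 G0 G1 hG hS' h3 h2
    have h5 := hS.line ha.2.2.1 hq.le g1 ty tc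
      (fun i => Vi V N tc O i D a - hS' * Vi P N tc O i D a)
      (fun i hi => by rw [Vi_not V tc O hi, Vi_not P tc O hi]; ring) sh pay (1 - D / (q0 - a))
      (fun i hi => by rw [Vi_mem V tc O hi, Vi_mem P tc O hi]; exact g2 i hi) g3 (by simp)
    rw [sum_sub_distrib, ← mul_sum] at h5
    exact h5
  have hmax : max 0 (ldl (fun _ => ξ) (fun _ => 0) a - 1) = a * ξ ^ 2 := by
    unfold ldl
    have : 0 ≤ a * ξ ^ 2 := mul_nonneg ha.2.2.1 (sq_nonneg _)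
    rw [max_eq_right (by linarith)]
    ring
  have k0 := key 0
  have k1 := key 1
  have k2 := key 2
  have k3 := key 3
  unfold NS.lf at k0 k1 k2 k3
  rw [NS.add_ev] at k0 k1 k2 k3
  rw [← eV a ha] at k0 k1 k2 k3
  have eP' := eP a ha
  unfold Q5.ev at eP'
  set s' := (chd ty (fam σ e O)).sn a with hs'
  have eu : (UU (fam σ e O)).eval a = s'.u := rfl
  have ey : (YY (fam σ e O)).eval a = s'.y := rfl
  simp only [LK.ln] at k0 k1 k2 k3
  have hτ0 : C.τ ≠ 0 := ne_of_gt hC.h5.hτ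
  rw [hmax, h4]
  unfold LK.Ln LK.Q1 LK.Q2 lcr ldl lq2 le2
  dsimp only
  rw [eu, ey, eP']
  have e5 : C.ω / (2 * C.τ) = C.ω * (1 / (2 * C.τ)) := by ring
  rw [e5] at k0 k1
  refine ⟨?_, ?_, ?_, ?_⟩
  · linarith
  · linarith
  · linarith
  · linarith

end

end Pool.Agent.TSM
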