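import Pool.Agent.TSM.FamL
import Pool.Agent.TSM.OddL
import Pool.Agent.TSM.LfH

set_option autoImplicit false

/-!
# The step with an odd number of children, a nontrivial child is split off: signs
(MP_d27362_co)
-/

namespace Pool.Agent.TSM

open Finset Polynomial
open Pool.Agent.TSP
open Pool.Agent.TSO
open Pool.Agent.TSR (OBr Ker pair_role)
open Pool.Agent.TLT (sg)
open Pool.Agent.TDN (dn dn_nonneg dn_add_le)

noncomputable section

variable {K : ℕ} {O : Fin K → OBr} {N : Finset (Fin K)} {L : Fin K}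

/-- signs of the children except `L` -/
theorem FamO.sigL (h : FamO O N) (hL : L ∈ N) (hK : Odd K) {c : ℝ} (hc0 : 0 ≤ c)
    (hc : ∀ i ∈ N, i ≠ L → vY (O i) ≤ c) : ∃ s ρ : Fin K → Bool, s L = true ∧
    ∑ i, sg (s i) = 1 ∧
    (Even (N.erase L).card → ∑ i ∈ N.erase L, sg (ρ i) = 0) ∧
    (Odd (N.erase L).card → ∑ i ∈ N.erase L, sg (ρ i) = 1) ∧
    0 ≤ (gY2 s O L).eval q0 ∧ (gY2 s O L).eval q0 ≤ c ∧
    (gY2 s O L).eval q0 ^ 2 ≤ ∑ i ∈ univ.erase L, sg (ρ i) * vY (O i) ^ 2 ∧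
    dn q0 (gY2 s O L) ^ 2 ≤ 2 * ∑ i ∈ univ.erase L, aY (O i) ^ 2 := by
  classical
  obtain ⟨s, ρ, z, h1, h2, h3, h4, h5, h6⟩ := pair_role (T := q0) q0_pos.le
    (fun i : N.erase L => YY (O i)) c hc0 (fun i => (h.hI i).2.2.2.1)
    (fun i => hc i (mem_of_mem_erase i.2) (ne_of_mem_erase i.2))
  rw [Fintype.card_coe] at h1 h2
  set s' : Fin K → Bool := fun i => if hi : i ∈ N.erase L then s ⟨i, hi⟩ else true with hs'
  set ρ' : Fin K → Bool := fun i => if hi : i ∈ N.erase L then ρ ⟨i, hi⟩ else true with hρ'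
  have es : ∀ i : N.erase L, s' i = s i := by
    intro i
    rw [hs']
    simp only
    rw [dif_pos i.2]
  have eρ : ∀ i : N.erase L, ρ' i = ρ i := by
    intro i
    rw [hρ']
    simp only
    rw [dif_pos i.2]
  have S1 : ∀ f : Fin K → ℝ, ∑ i ∈ N.erase L, f i = ∑ i : N.erase L, f i := fun f =>
    (sum_coe_sort (N.erase L) f).symm
  have hsub : N.erase L ⊆ univ.erase L := erase_subset_erase L (subset_univ N)
  have hz : ∀ i ∈ univ.erase L, i ∉ N.erase L → i ∉ N := by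
    intro i hi hi2 hi3
    exact hi2 (mem_erase.mpr ⟨(mem_erase.mp hi).1, hi3⟩)
  have S2 : ∀ f : Fin K → ℝ, (∀ i ∉ N, f i = 0) →
      ∑ i ∈ univ.erase L, f i = ∑ i : N.erase L, f i := by
    intro f hf
    rw [← S1, ← sum_subset hsub]
    intro i hi hi2
    exact hf i (hz i hi hi2)
  have S3 : ∀ f : Fin K → ℝ[X], (∀ i ∉ N, f i = 0) →
      ∑ i ∈ univ.erase L, f i = ∑ i : N.erase L, f i := by
    intro f hf
    rw [sum_coe_sort (N.erase L) f, ← sum_subset hsub]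
    intro i hi hi2
    exact hf i (hz i hi hi2)
  obtain ⟨σ, hσ, hσL, hσ1⟩ := ext_odd (N := N.erase L) hK L (notMem_erase L N) s' z
    (fun hE => by rw [S1]; simp only [es]; exact (h1 hE).1)
    (fun hO => by rw [S1]; simp only [es]; exact (h2 hO).1)
  have eU : gY2 σ O L = ∑ i : N.erase L, sg (s i) • YY (O i) := by
    unfold gY2
    rw [S3 _ fun i hi => by rw [h.YY0 hi, smul_zero]]
    exact sum_congr rfl fun i _ => by rw [hσ i i.2, es]
  have ev : ∑ i ∈ univ.erase L, sg (ρ' i) * vY (O i) ^ 2 =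
      ∑ i : N.erase L, sg (ρ i) * (YY (O i)).eval q0 ^ 2 := by
    rw [S2 _ fun i hi => by unfold vY; rw [h.YY0 hi, eval_zero]; norm_num]
    exact sum_congr rfl fun i _ => by rw [eρ]; rfl
  have ea : ∑ i ∈ univ.erase L, aY (O i) ^ 2 = ∑ i : N.erase L, dn q0 (YY (O i)) ^ 2 := by
    rw [S2 _ fun i hi => by unfold aY; rw [h.YY0 hi, TDN.dn_zero]; norm_num]
    rfl
  refine ⟨σ, ρ', hσL, hσ1, fun hE => ?_, fun hO => ?_, ?_⟩
  · rw [S1]
    simp only [eρ]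
    exact (h1 hE).2
  · rw [S1]
    simp only [eρ]
    exact (h2 hO).2
  · rw [ev, ea, eU]
    exact ⟨h3, h4, h5, h6⟩

/-- all signs except that of `L` are changed -/
def flipL (s : Fin K → Bool) (L : Fin K) (i : Fin K) : Bool := if i = L then true else !(s i)

lemma flipL_self (s : Fin K → Bool) (L : Fin K) : flipL s L L = true := if_pos rfl

lemma flipL_ne (s : Fin K → Bool) {L i : Fin K} (h : i ≠ L) : flipL s L i = !(s i) := if_neg h

lemma gY2_flip (s : Fin K → Bool) (O : Fin K → OBr) (L : Fin K) :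
    gY2 (flipL s L) O L = - gY2 s O L := by
  unfold gY2
  rw [← sum_neg_distrib]
  refine sum_congr rfl fun i hi => ?_
  rw [flipL_ne s (ne_of_mem_erase hi), TSR.sg_not', neg_smul]

lemma flipL_sum {s : Fin K → Bool} {L : Fin K} (h1 : s L = true) (h2 : ∑ i, sg (s i) = 1) :
    ∑ i, sg (flipL s L i) = 1 := by
  rw [← add_sum_erase univ _ (mem_univ L), h1, TSR.sg_tt] at h2
  rw [← add_sum_erase univ _ (mem_univ L), flipL_self, TSR.sg_tt]
  have : ∑ i ∈ univ.erase L, sg (flipL s L i) = - ∑ i ∈ univ.erase L, sg (s i) := by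
    rw [← sum_neg_distrib]
    exact sum_congr rfl fun i hi => by rw [flipL_ne s (ne_of_mem_erase hi), TSR.sg_not']
  rw [this]
  linarith

lemma U_split {σ : Fin K → Bool} (e : Fin K → Bool) (O : Fin K → OBr) {L : Fin K}
    (h : σ L = true) : UU (fam σ e O) = YY (O L) + gY2 σ O L := by
  unfold gY2
  rw [fam_UU, ← add_sum_erase univ _ (mem_univ L), h, TSR.sg_tt, one_smul]

lemma aU_split {σ : Fin K → Bool} (e : Fin K → Bool) (O : Fin K → OBr) {L : Fin K}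
    (h : σ L = true) (h2 : dn q0 (gY2 σ O L) ^ 2 ≤ 2 * ∑ i ∈ univ.erase L, aY (O i) ^ 2) :
    aU (fam σ e O) ^ 2 ≤ 3 * ∑ i, aY (O i) ^ 2 := by
  rw [← add_sum_erase univ _ (mem_univ L)]
  have e1 : aU (fam σ e O) = dn q0 (YY (O L) + gY2 σ O L) := by
    unfold aU
    rw [U_split e O h]
  have g1 := dn_add_le q0 q0_pos.le (YY (O L)) (gY2 σ O L)
  have g2 := dn_nonneg q0 (YY (O L) + gY2 σ O L)
  have g3 := pow_le_pow_left₀ g2 g1 2
  have e2 : aY (O L) = dn q0 (YY (O L)) := rfl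
  rw [e1, e2]
  nlinarith [sq_nonneg (dn q0 (gY2 σ O L) - 2 * dn q0 (YY (O L)))]

/-- the weights of the values if the values are added and that of `L` is the smaller one -/
lemma wt_add {kL kR : ℝ} (h1 : kL ≤ 2) (h2 : 4 ≤ kL + kR) {x y : ℝ} (hx : 0 ≤ x) (hxy : x ≤ y) :
    (x + y) ^ 2 ≤ kL * x ^ 2 + kR * y ^ 2 := by
  have h3 : 0 ≤ (2 - kL) * (y ^ 2 - x ^ 2) :=
    mul_nonneg (by linarith) (by nlinarith)
  have h4 : 0 ≤ (kL + kR - 4) * y ^ 2 := mul_nonneg (by linarith) (sq_nonneg _)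
  nlinarith

/-- the weights of the values if the values are added -/
lemma wt_add2 {kL kR : ℝ} (h1 : 1 < kL) (h2 : 1 ≤ (kL - 1) * (kR - 1)) (x y : ℝ) :
    (x + y) ^ 2 ≤ kL * x ^ 2 + kR * y ^ 2 := by
  have h3 : 0 < kL - 1 := by linarith
  have h4 : 0 ≤ (kL - 1) * (kL * x ^ 2 + kR * y ^ 2 - (x + y) ^ 2) := by
    have : (kL - 1) * (kL * x ^ 2 + kR * y ^ 2 - (x + y) ^ 2) =
        ((kL - 1) * x - y) ^ 2 + ((kL - 1) * (kR - 1) - 1) * y ^ 2 := by ring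
    rw [this]
    exact add_nonneg (sq_nonneg _) (mul_nonneg (by linarith) (sq_nonneg _))
  have h5 := nonneg_of_mul_nonneg_right h4 h3
  linarith

/-- the labels of a family: `y' = n - X G` -/
structure LabD (O : Fin K → OBr) (e : Fin K → Bool) (n : ℕ) (vm fv : ℝ) (fg : ℝ := 2) :
    Prop where
  hY : ∀ σ, YY (fam σ e O) = C (n : ℝ) - X * gU e O
  hG : (gU e O).eval q0 ^ 2 ≤ vm
  h0 : 0 ≤ (n : ℝ) - q0 * (gU e O).eval q0
  h2 : (n : ℝ) - q0 * (gU e O).eval q0 ≤ 2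
  hG3 : (gU e O).eval q0 ^ 2 ≤ fv * ∑ i, vU (O i) ^ 2
  hGa : dn q0 (gU e O) ^ 2 ≤ fg * ∑ i, aU (O i) ^ 2

/-- the labels exist -/
theorem labD_exists (hO : FamO O N) : ∃ (e : Fin K → Bool) (n : ℕ), n = n1 O % 2 ∧
    LabD O e n (16 - 12 * n) (4 - 3 * n) := by
  obtain ⟨e, n, hn, hY, hG, hy0, hy2, hG3, hGa⟩ := e_par O hO.hI
  exact ⟨e, n, hn, hY, hG, hy0, hy2, hG3, hGa⟩

/-- one orientation of the rest gives a family with `L` split off -/
lemma famL_of (hO : FamO O N) (hL : L ∈ N) {σ e ρ : Fin K → Bool} {n : ℕ} {vm fv : ℝ}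
    (he : LabD O e n vm fv) {f f2 nL nR : ℝ} (hnL : sg (e L) * tau (O L) = nL)
    (hnR : nL + nR = n) (hσL : σ L = true) (hσ1 : ∑ i, sg (σ i) = 1)
    (h1 : 0 ≤ vU (fam σ e O)) (h2 : vU (fam σ e O) ≤ 2)
    (h3 : (gY2 σ O L).eval q0 ^ 2 ≤ ∑ i ∈ univ.erase L, sg (ρ i) * vY (O i) ^ 2)
    (h4 : dn q0 (gY2 σ O L) ^ 2 ≤ f2 * ∑ i ∈ univ.erase L, aY (O i) ^ 2)
    (h5 : aU (fam σ e O) ^ 2 ≤ f * ∑ i, aY (O i) ^ 2) :
    Inv (fam σ e O) ∧ ∀ m kL kR v2m : ℝ, (N.card : ℝ) ≤ m → 0 ≤ kR →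
      (gY2 σ O L).eval q0 ^ 2 ≤ v2m →
      vU (fam σ e O) ^ 2 ≤ kL * vY (O L) ^ 2 + kR * (gY2 σ O L).eval q0 ^ 2 →
      FamL O N σ e ρ L m f f2 n nL nR vm fv v2m kL kR := by
  refine ⟨inv_fam (Or.inr (by rw [fam_tau]; exact hσ1)) h1 h2 (he.hY _) he.h0 he.h2,
    fun m kL kR v2m hm hk hv hkk => ?_⟩
  refine ⟨⟨hO, hm, h1, h2, ?_, h5, he.hY _, he.hG, he.hG3, he.hGa⟩, hL, hσL,
    hσ1, hv, h3, h4, hnL, hnR⟩
  rw [← add_sum_erase univ _ (mem_univ L), if_pos rfl]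
  have : ∑ i ∈ univ.erase L, (if i = L then kL else kR * sg (ρ i)) * vY (O i) ^ 2 =
      kR * ∑ i ∈ univ.erase L, sg (ρ i) * vY (O i) ^ 2 := by
    rw [mul_sum]
    exact sum_congr rfl fun i hi => by rw [if_neg (ne_of_mem_erase hi)]; ring
  rw [this]
  have := mul_le_mul_of_nonneg_left h3 hk
  linarith

/-- the seminorm of the rest if there is only one nontrivial child in it -/
lemma dn_rest_one (hO : FamO O N) (σ : Fin K → Bool) (h : (N.erase L).card = 1) :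
    dn q0 (gY2 σ O L) ^ 2 ≤ 1 * ∑ i ∈ univ.erase L, aY (O i) ^ 2 := by
  obtain ⟨j, hj⟩ := card_eq_one.mp h
  have hjN : j ∈ N.erase L := by rw [hj]; exact mem_singleton_self j
  have hjL : j ∈ univ.erase L := mem_erase.mpr ⟨(mem_erase.mp hjN).1, mem_univ j⟩
  have hz : ∀ i ∈ univ.erase L, i ≠ j → i ∉ N := by
    intro i hi hij hiN
    have : i ∈ N.erase L := mem_erase.mpr ⟨(mem_erase.mp hi).1, hiN⟩
    rw [hj, mem_singleton] at this
    exact hij this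
  have e1 : gY2 σ O L = sg (σ j) • YY (O j) := by
    unfold gY2
    rw [sum_eq_single_of_mem j hjL]
    intro i hi hij
    rw [hO.YY0 (hz i hi hij), smul_zero]
  have e2 : ∑ i ∈ univ.erase L, aY (O i) ^ 2 = aY (O j) ^ 2 := by
    rw [sum_eq_single_of_mem j hjL]
    intro i hi hij
    unfold aY
    rw [hO.YY0 (hz i hi hij), TDN.dn_zero]
    norm_num
  rw [e1, e2, TSR.dn_sg1, one_mul]
  exact le_rfl

/-- **the choice of the orientation** when the child `L` is split off; `x`, `v` are the values of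
`L` and of the rest. If both orientations are possible the better one is taken and the factor of the
seminorms is that of the rest, otherwise it is larger by one. In the remaining case
`x < v`, `2 < x + v` no orientation is possible -/
theorem famL_choice (hO : FamO O N) (hK : Odd K) (hL : L ∈ N) {f2 : ℝ}
    (hf2 : f2 = 2 ∨ (f2 = 1 ∧ (N.erase L).card = 1)) {c : ℝ} (hc0 : 0 ≤ c)
    (hc : ∀ i ∈ N, i ≠ L → vY (O i) ≤ c) {e : Fin K → Bool} {n : ℕ} {vm fv : ℝ}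
    (he : LabD O e n vm fv) {nL nR : ℝ} (hnL : sg (e L) * tau (O L) = nL) (hnR : nL + nR = n) :
    ∃ (σ ρ : Fin K → Bool) (v : ℝ), 0 ≤ v ∧ v ≤ c ∧ σ L = true ∧ ∑ i, sg (σ i) = 1 ∧
      (Even (N.erase L).card → ∑ i ∈ N.erase L, sg (ρ i) = 0) ∧
      (Odd (N.erase L).card → ∑ i ∈ N.erase L, sg (ρ i) = 1) ∧
      (((gY2 σ O L).eval q0 = v ∧ vY (O L) < v ∧ 2 < vY (O L) + v) ∨
        (Inv (fam σ e O) ∧ ∃ f : ℝ,
          ((f = f2 ∧ v ≤ vY (O L) ∧ vY (O L) + v ≤ 2 ∧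
              (vU (fam σ e O) = vY (O L) - v ∨ vU (fam σ e O) = vY (O L) + v)) ∨
            (f = 1 + f2 ∧ ((v ≤ vY (O L) ∧ 2 < vY (O L) + v ∧
                vU (fam σ e O) = vY (O L) - v) ∨
              (vY (O L) < v ∧ vY (O L) + v ≤ 2 ∧ vU (fam σ e O) = vY (O L) + v)))) ∧
          ∀ m kL kR v2m : ℝ, (N.card : ℝ) ≤ m → 0 ≤ kR → v ^ 2 ≤ v2m →
            vU (fam σ e O) ^ 2 ≤ kL * vY (O L) ^ 2 + kR * v ^ 2 →
            FamL O N σ e ρ L m f f2 n nL nR vm fv v2m kL kR)) := by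
  obtain ⟨s, ρ, hsL, hs1, hρ0, hρ1, h1, h2, h3, h4⟩ := hO.sigL hL hK hc0 hc
  obtain ⟨x, hx⟩ : ∃ x, x = vY (O L) := ⟨_, rfl⟩
  obtain ⟨v, hv⟩ : ∃ v, v = (gY2 s O L).eval q0 := ⟨_, rfl⟩
  have hx0 : 0 ≤ x := by rw [hx]; exact (hO.hI L).2.2.2.1
  have hx2 : x ≤ 2 := by rw [hx]; exact (hO.hI L).2.2.2.2
  have h1' : 0 ≤ v := by rw [hv]; exact h1
  have h2' : v ≤ c := by rw [hv]; exact h2
  -- the factor of the rest
  have hf1 : 1 ≤ f2 := by
    rcases hf2 with h | ⟨h, _⟩ <;> rw [h] <;> norm_num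
  have h4' : ∀ t : Fin K → Bool, (t = s ∨ t = flipL s L) →
      dn q0 (gY2 t O L) ^ 2 ≤ f2 * ∑ i ∈ univ.erase L, aY (O i) ^ 2 := by
    intro t ht
    rcases hf2 with h | ⟨h, h5⟩
    · rw [h]
      rcases ht with rfl | rfl
      · exact h4
      · rw [gY2_flip, TDN.dn_neg]
        exact h4
    · rw [h]
      exact dn_rest_one hO t h5
  have hA : 0 ≤ ∑ i ∈ univ.erase L, aY (O i) ^ 2 := sum_nonneg fun i _ => sq_nonneg _
  have eA : ∑ i, aY (O i) ^ 2 = aY (O L) ^ 2 + ∑ i ∈ univ.erase L, aY (O i) ^ 2 :=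
    (add_sum_erase univ _ (mem_univ L)).symm
  -- the larger factor
  have big : ∀ t : Fin K → Bool, t L = true → (t = s ∨ t = flipL s L) →
      aU (fam t e O) ^ 2 ≤ (1 + f2) * ∑ i, aY (O i) ^ 2 := by
    intro t htL ht
    have g4 := h4' t ht
    have e1 : aU (fam t e O) = dn q0 (YY (O L) + gY2 t O L) := by
      unfold aU
      rw [U_split e O htL]
    have g1 := dn_add_le q0 q0_pos.le (YY (O L)) (gY2 t O L)
    have g2 := dn_nonneg q0 (YY (O L) + gY2 t O L)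
    have g3 := pow_le_pow_left₀ g2 g1 2
    have e2 : aY (O L) = dn q0 (YY (O L)) := rfl
    rw [e1, eA, e2]
    obtain ⟨p, hp⟩ : ∃ p, p = dn q0 (YY (O L)) := ⟨_, rfl⟩
    obtain ⟨q, hq⟩ : ∃ q, q = dn q0 (gY2 t O L) := ⟨_, rfl⟩
    rw [← hp, ← hq] at g3
    rw [← hq] at g4
    rw [← hp]
    -- `(p + q)² ≤ (1 + f2) (p² + A)`, `q² ≤ f2 A`
    have g5 : f2 * (p + q) ^ 2 ≤ (1 + f2) * (f2 * p ^ 2 + q ^ 2) := by
      nlinarith [sq_nonneg (f2 * p - q)]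
    have hf0 : 0 < f2 := by linarith
    have g6 : f2 * (p + q) ^ 2 ≤ f2 * ((1 + f2) * (p ^ 2 +
        ∑ i ∈ univ.erase L, aY (O i) ^ 2)) := by
      have := mul_le_mul_of_nonneg_left g4 (show (0 : ℝ) ≤ 1 + f2 by linarith)
      nlinarith
    exact g3.trans (le_of_mul_le_mul_left g6 hf0)
  -- the values of the two orientations
  have hfL := flipL_self s L
  have evP : vU (fam s e O) = x + v := by
    unfold vU
    rw [U_split e O hsL, eval_add, ← hv, hx]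
    rfl
  have evM : vU (fam (flipL s L) e O) = x - v := by
    unfold vU
    rw [U_split e O hfL, gY2_flip, eval_add, eval_neg, ← hv, hx]
    rfl
  have eM : (gY2 (flipL s L) O L).eval q0 = -v := by rw [gY2_flip, eval_neg, ← hv]
  -- the two families
  have famP : x + v ≤ 2 → ∀ f : ℝ, aU (fam s e O) ^ 2 ≤ f * ∑ i, aY (O i) ^ 2 →
      Inv (fam s e O) ∧ ∀ m kL kR v2m : ℝ, (N.card : ℝ) ≤ m → 0 ≤ kR → v ^ 2 ≤ v2m →
      vU (fam s e O) ^ 2 ≤ kL * vY (O L) ^ 2 + kR * v ^ 2 →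
      FamL O N s e ρ L m f f2 n nL nR vm fv v2m kL kR := by
    intro hxv f hf
    have g := famL_of hO hL he hnL hnR hsL hs1 (by rw [evP]; linarith) (by rw [evP]; exact hxv)
      h3 (h4' s (Or.inl rfl)) hf
    rw [← hv] at g
    exact ⟨g.1, fun m kL kR v2m hm hk hv2 hkk => g.2 m kL kR v2m hm hk hv2 hkk⟩
  have famM : v ≤ x → ∀ f : ℝ, aU (fam (flipL s L) e O) ^ 2 ≤ f * ∑ i, aY (O i) ^ 2 →
      Inv (fam (flipL s L) e O) ∧ ∀ m kL kR v2m : ℝ, (N.card : ℝ) ≤ m → 0 ≤ kR → v ^ 2 ≤ v2m →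
      vU (fam (flipL s L) e O) ^ 2 ≤ kL * vY (O L) ^ 2 + kR * v ^ 2 →
      FamL O N (flipL s L) e ρ L m f f2 n nL nR vm fv v2m kL kR := by
    intro hxv f hf
    have g := famL_of hO hL he hnL hnR hfL (flipL_sum hsL hs1) (by rw [evM]; linarith)
      (by rw [evM]; linarith) (by rw [eM, neg_sq, hv]; exact h3)
      (h4' _ (Or.inr rfl)) hf
    rw [eM, neg_sq] at g
    exact ⟨g.1, fun m kL kR v2m hm hk hv2 hkk => g.2 m kL kR v2m hm hk hv2 hkk⟩
  rw [← hx]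
  rcases le_or_gt v x with hvx | hvx
  · rcases le_or_gt (x + v) 2 with hxv | hxv
    · -- both orientations
      have g1 : dn q0 (YY (O L) + gY2 s O L) ^ 2 + dn q0 (YY (O L) - gY2 s O L) ^ 2 =
          2 * dn q0 (YY (O L)) ^ 2 + 2 * dn q0 (gY2 s O L) ^ 2 := by
        exact TDN.dn_parallelogram q0 q0_pos.le _ _
      have e1 : aU (fam s e O) = dn q0 (YY (O L) + gY2 s O L) := by
        unfold aU
        rw [U_split e O hsL]
      have e2 : aU (fam (flipL s L) e O) = dn q0 (YY (O L) - gY2 s O L) := by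
        unfold aU
        rw [U_split e O hfL, gY2_flip, ← sub_eq_add_neg]
      have g2 := h4' s (Or.inl rfl)
      have e3 : aY (O L) = dn q0 (YY (O L)) := rfl
      have g3 : dn q0 (YY (O L)) ^ 2 + dn q0 (gY2 s O L) ^ 2 ≤ f2 * ∑ i, aY (O i) ^ 2 := by
        rw [eA, e3]
        nlinarith [sq_nonneg (dn q0 (YY (O L)))]
      rcases le_total (dn q0 (YY (O L) + gY2 s O L) ^ 2) (dn q0 (YY (O L) - gY2 s O L) ^ 2)
        with h | h
      · obtain ⟨i1, i2⟩ := famP hxv f2 (by rw [e1]; linarith)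
        exact ⟨s, ρ, v, h1', h2', hsL, hs1, hρ0, hρ1, Or.inr ⟨i1, f2,
          Or.inl ⟨rfl, hvx, hxv, Or.inr evP⟩, by rw [← hx] at i2; exact i2⟩⟩
      · obtain ⟨i1, i2⟩ := famM hvx f2 (by rw [e2]; linarith)
        exact ⟨flipL s L, ρ, v, h1', h2', hfL, flipL_sum hsL hs1, hρ0, hρ1, Or.inr ⟨i1, f2,
          Or.inl ⟨rfl, hvx, hxv, Or.inl evM⟩, by rw [← hx] at i2; exact i2⟩⟩
    · obtain ⟨i1, i2⟩ := famM hvx (1 + f2) (big _ hfL (Or.inr rfl))
      exact ⟨flipL s L, ρ, v, h1', h2', hfL, flipL_sum hsL hs1, hρ0, hρ1, Or.inr ⟨i1, 1 + f2,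
        Or.inr ⟨rfl, Or.inl ⟨hvx, hxv, evM⟩⟩, by rw [← hx] at i2; exact i2⟩⟩
  · rcases le_or_gt (x + v) 2 with hxv | hxv
    · obtain ⟨i1, i2⟩ := famP hxv (1 + f2) (big _ hsL (Or.inl rfl))
      exact ⟨s, ρ, v, h1', h2', hsL, hs1, hρ0, hρ1, Or.inr ⟨i1, 1 + f2,
        Or.inr ⟨rfl, Or.inr ⟨hvx, hxv, evP⟩⟩, by rw [← hx] at i2; exact i2⟩⟩
    · exact ⟨s, ρ, v, h1', h2', hsL, hs1, hρ0, hρ1, Or.inl ⟨hv.symm, hvx, hxv⟩⟩

variable {Y : Sys} {Adm : ℕ → ℝ → ℝ → ℝ → ℝ → Prop} {V P : ℝ → ℝ → Sn → ℝ} {χ : ℝ → ℝ}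

/-- the inequality of the rule which splits off `L` -/
def LfL (V P : ℝ → ℝ → Sn → ℝ) (χ : ℝ → ℝ) (O : Fin K → OBr) (N : Finset (Fin K))
    (tc : Fin K → ℕ) (σ e : Fin K → Bool) (L : Fin K) (ty : ℕ) (D : ℝ) : Prop :=
  LfE2 χ D (K - 1) (fun a => sg (e L) * (XX (O L)).eval a)
    (fun a => (YY (O L)).eval a) (fun a => (gY2 σ O L).eval a)
    (fun a => ∑ i ∈ univ.erase L, sg (e i) * (XX (O i)).eval a)
    (Vi V N tc O L D) (Vi P N tc O L D)
    (fun a => ∑ i ∈ univ.erase L, Vi V N tc O i D a)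
    (fun a => ∑ i ∈ univ.erase L, Vi P N tc O i D a)
    (fun a => V D a ((chd ty (fam σ e O)).sn a))
    (fun a => P D a ((chd ty (fam σ e O)).sn a))

/-- the vertex with an odd number of children, one of the two rules for every `D`, given signs -/
theorem po_L (hY : Y.G = GoodE χ) (hχ : ∀ D, RD D → 0 ≤ χ D) (hK2 : 2 ≤ K)
    {σ e : Fin K → Bool} {tc : Fin K → ℕ}
    (hT : FamT Y Adm V P O N tc) (hσL : σ L = true) (hσ1 : ∑ i, sg (σ i) = 1)
    (hInv : Inv (fam σ e O)) {ty : ℕ} (hty : ty ≠ 0)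
    (hAd : Adm ty (vU (fam σ e O)) (vY (fam σ e O)) (aU (fam σ e O)) (aY (fam σ e O)))
    (h4 : ∀ D, RD D → LfL V P χ O N tc σ e L ty D ∨ OdT V P χ O N tc σ e ty D) :
    PO Y Adm V P (fam σ e O) := by
  have hτ : tau (fam σ e O) = 1 := by rw [fam_tau]; exact hσ1
  refine ⟨ty, ?_, hInv, hAd, ?_⟩
  · rw [hτ]
    constructor
    · exact fun h => absurd h hty
    · intro h
      norm_num at h
  · have hG := hT.hG
    rw [hY] at hG ⊢
    intro m S hS w t hR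
    have hRD : RD (dee S) := ⟨hR.dee_nonneg, hR.dee_le⟩
    rcases h4 (dee S) hRD with h | h
    · refine GoodE.lf2D O σ e _ _ hG hK2 L hσL hσ1 _ _ (fun a => (gY2 σ O L).eval a) _
        (fun a => rfl) (fun a => rfl) (fun a => ?_) (fun a => rfl) h m S hS w t hR rfl
      unfold gY2
      rw [eval_finsetSum]
      exact sum_congr rfl fun i _ => by rw [eval_smul, smul_eq_mul]
    · refine GoodE.odFD hχ (by omega) O σ e _ _ hG hσ1 (fun a => (UU (fam σ e O)).eval a)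
        (fun a => (YY (fam σ e O)).eval a) (fun a => (FamS.U_eq O σ e a).symm) (fun a => ?_) h
        m S hS w t hR rfl
      rw [fam_YY, eval_finsetSum]
      exact sum_congr rfl fun i _ => by rw [eval_smul, smul_eq_mul]

end

end Pool.Agent.TSM
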