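import Pool.Agent.TSM.FamL

set_option autoImplicit false

/-!
# The square of the value of `G` is linear in the values of the children (MP_d27362_co)

For `n = 0` the value `z = v_y' = - q0 v_G` lies in `[0, 2]`, so `v_G² = (z / q0)² ≤ (2 / q0²) z`.
-/

namespace Pool.Agent.TSM

open Finset Polynomial
open Pool.Agent.TSR (OBr)
open Pool.Agent.TLT (sg)

noncomputable section

variable {K : ℕ} {O : Fin K → OBr} {N : Finset (Fin K)}
  {σ e ρ : Fin K → Bool} {w : Fin K → ℝ} {L : Fin K} {m f f2 vm fv v2m kL kR nL nR : ℝ}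

/-- the new `v_y` for the label `n = 0` -/
lemma z_eq (hY : YY (fam σ e O) = C 0 - X * gU e O) :
    vY (fam σ e O) = -(q0 * ∑ i, sg (e i) * vU (O i)) := by
  have e3 := FamS.G_eq O e q0
  unfold vY
  rw [hY, eval_sub, eval_C, eval_mul, eval_X, e3]
  unfold vU
  ring

/-- the square of the value of `G` is linear for the label `n = 0`; `T0` is a lower bound for
`q0` -/
lemma sq_le_z {T0 : ℝ} (hT : 0 < T0) (hT' : T0 ≤ q0) (hY : YY (fam σ e O) = C 0 - X * gU e O)
    (hI : Inv (fam σ e O)) :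
    (gU e O).eval q0 ^ 2 ≤ 2 / (T0 * q0) * vY (fam σ e O) := by
  have hq := q0_pos
  have h0 := hI.2.2.2.1
  have h2 := hI.2.2.2.2
  have e1 : vY (fam σ e O) = -(q0 * (gU e O).eval q0) := by
    unfold vY
    rw [hY, eval_sub, eval_C, eval_mul, eval_X]
    ring
  have e2 : (gU e O).eval q0 ^ 2 = vY (fam σ e O) ^ 2 / (q0 * q0) := by
    rw [e1]
    field_simp
  have e3 : vY (fam σ e O) ^ 2 / (q0 * q0) ≤ 2 * vY (fam σ e O) / (q0 * q0) :=
    div_le_div_of_nonneg_right (by nlinarith) (by positivity)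
  have e4 : 2 * vY (fam σ e O) / (q0 * q0) ≤ 2 * vY (fam σ e O) / (T0 * q0) :=
    div_le_div_of_nonneg_left (by linarith) (by positivity)
      (mul_le_mul_of_nonneg_right hT' hq.le)
  have e5 : 2 * vY (fam σ e O) / (T0 * q0) = 2 / (T0 * q0) * vY (fam σ e O) := by ring
  linarith

/-- the linear bound for the square of the value of `G` in a family with the label `n = 0` -/
theorem FamS.mixY (h : FamS O N σ e ρ m f 0 vm fv) (hI : Inv (fam σ e O)) {T0 th : ℝ}
    (hT : 0 < T0) (hT' : T0 ≤ q0) (h0 : 0 ≤ th) (h1 : th ≤ 1) :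
    FamS O N σ e ρ m f 0 ((1 - th) * vm + th * (2 / (T0 * q0) * vY (fam σ e O))) fv := by
  refine ⟨h.hO, h.hm, h.hU0, h.hU2, h.hU3, h.hUa, h.hY, ?_, h.hG3, h.hGa⟩
  have g1 := mul_le_mul_of_nonneg_left (sq_le_z hT hT' h.hY hI) h0
  have g2 := mul_le_mul_of_nonneg_left h.hG2 (show 0 ≤ 1 - th by linarith)
  linarith

/-- the same with weights -/
theorem FamW.mixY (h : FamW O N σ e w m f 0 vm fv) (hI : Inv (fam σ e O)) {T0 th : ℝ}
    (hT : 0 < T0) (hT' : T0 ≤ q0) (h0 : 0 ≤ th) (h1 : th ≤ 1) :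
    FamW O N σ e w m f 0 ((1 - th) * vm + th * (2 / (T0 * q0) * vY (fam σ e O))) fv := by
  refine ⟨h.hO, h.hm, h.hU0, h.hU2, h.hU3, h.hUa, h.hY, ?_, h.hG3, h.hGa⟩
  have g1 := mul_le_mul_of_nonneg_left (sq_le_z hT hT' h.hY hI) h0
  have g2 := mul_le_mul_of_nonneg_left h.hG2 (show 0 ≤ 1 - th by linarith)
  linarith

/-- the term which has to be moved into the shares: `Y3` times the linear bound is the sum of the
terms of the children -/
lemma z_share (hY : YY (fam σ e O) = C 0 - X * gU e O) (hO : FamO O N) {T0 Y3 : ℝ} :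
    Y3 * (2 / (T0 * q0) * vY (fam σ e O)) =
      ∑ i ∈ N, -(Y3 * (2 / T0)) * (sg (e i) * vU (O i)) := by
  have hq := q0_pos.ne'
  rw [z_eq hY, ← mul_sum]
  have e1 : ∑ i ∈ N, sg (e i) * vU (O i) = ∑ i, sg (e i) * vU (O i) :=
    sum_subset (subset_univ N) fun i _ hi => by
      unfold vU
      rw [hO.UU0 hi, eval_zero, mul_zero]
  rw [e1]
  by_cases h : T0 = 0
  · rw [h]
    simp
  · field_simp

end

end Pool.Agent.TSM
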