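import Pool.Agent.TSM.RoleOdd

set_option autoImplicit false

/-!
# Signs for an odd number of members, factor 5/2 (MP_d27362_co)

The members are sorted by their values. The signs alternate except that the signs of some
neighbours are exchanged. An exchange is free if the sum of the differences of the exchanged
neighbours is at most half of the total sum of its class (first member even or odd). The patterns
are compared with the medians of the two classes.
-/

namespace Pool.Agent.TSR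

open Finset Polynomial
open Pool.Agent.TLT (sg)
open Pool.Agent.TDN (dn dn_nonneg dn_zero dn_neg dn_add_le dn_parallelogram dform dn_sq
  dform_add_left dform_add_right dform_sub_left dform_sub_right dform_comm dform_self_nonneg
  dform_neg_left dform_neg_right)

variable {T : ℝ}

/-! ### segments of signs -/

/-- first `s`, then `t` -/
def cat (m : ℕ) (s t : ℕ → Bool) (i : ℕ) : Bool := if i < m then s i else t (i - m)

/-- `U` is the sum of the members `m, ..., m + k - 1` with signs whose sum is `z` -/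
def Sg (a : ℕ → ℝ[X]) (m k : ℕ) (z : ℝ) (U : ℝ[X]) : Prop :=
  ∃ s : ℕ → Bool, ∑ i ∈ range k, sg (s i) = z ∧ ss s (fun i => a (m + i)) k = U

variable {a : ℕ → ℝ[X]} {m m' k l : ℕ} {z z' : ℝ} {U U' : ℝ[X]}

lemma Sg.cat (h1 : Sg a m k z U) (h2 : Sg a m' l z' U') (hm : m' = m + k) :
    Sg a m (k + l) (z + z') (U + U') := by
  obtain ⟨s, hs, rfl⟩ := h1
  obtain ⟨t, ht, rfl⟩ := h2
  subst hm
  refine ⟨Pool.Agent.TSR.cat k s t, ?_, ?_⟩
  · rw [sum_range_add, ← hs, ← ht]
    congr 1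
    · refine sum_congr rfl fun i hi => ?_
      unfold Pool.Agent.TSR.cat
      rw [if_pos (mem_range.mp hi)]
    · refine sum_congr rfl fun i _ => ?_
      unfold Pool.Agent.TSR.cat
      rw [if_neg (by omega), Nat.add_sub_cancel_left]
  · unfold ss
    rw [sum_range_add]
    congr 1
    · refine sum_congr rfl fun i hi => ?_
      unfold Pool.Agent.TSR.cat
      rw [if_pos (mem_range.mp hi)]
    · refine sum_congr rfl fun i _ => ?_
      unfold Pool.Agent.TSR.cat
      rw [if_neg (by omega), Nat.add_sub_cancel_left]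
      show sg (t i) • a (m + (k + i)) = sg (t i) • a (m + k + i)
      rw [add_assoc]

lemma Sg.cast (h : Sg a m k z U) (hm : m = m') (hk : k = l) (hz : z = z') (hU : U = U') :
    Sg a m' l z' U' := by
  subst hm hk hz hU
  exact h

lemma Sg.pos (a : ℕ → ℝ[X]) (m : ℕ) : Sg a m 1 1 (a m) :=
  ⟨fun _ => true, by simp [sg_tt], by simp [ss, sg_tt]⟩

lemma Sg.neg (a : ℕ → ℝ[X]) (m : ℕ) : Sg a m 1 (-1) (-a m) :=
  ⟨fun _ => false, by simp [sg_ff], by simp [ss, sg_ff]⟩

/-! ### sums of differences -/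

/-- the sum of `k` differences from `m` on -/
noncomputable def S (v : ℕ → ℝ) (m k : ℕ) : ℝ := ∑ j ∈ range k, (v (m + 2 * j) - v (m + 2 * j + 1))

lemma S_succ (v : ℕ → ℝ) (m k : ℕ) :
    S v m (k + 1) = S v m k + (v (m + 2 * k) - v (m + 2 * k + 1)) := by
  unfold S
  rw [sum_range_succ]

lemma S_zero (v : ℕ → ℝ) (m : ℕ) : S v m 0 = 0 := by simp [S]

lemma S_add (v : ℕ → ℝ) {m m' j k n : ℕ} (hm : m' = m + 2 * j) (hn : n = j + k) :
    S v m n = S v m j + S v m' k := by
  subst hm hn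
  unfold S
  rw [sum_range_add]
  congr 1
  refine sum_congr rfl fun i _ => ?_
  have e : m + 2 * (j + i) = m + 2 * j + 2 * i := by ring
  rw [e]

lemma S_shift (v : ℕ → ℝ) {m m' m2 k : ℕ} (hm : m' = m + 1) (h2 : m2 = m + 2 * k) :
    S v m k + v m2 = v m - S v m' k := by
  subst hm h2
  induction k with
  | zero => simp [S]
  | succ k ih =>
    rw [S_succ, S_succ]
    have e1 : m + 2 * (k + 1) = m + 2 * k + 2 := by ring
    have e2 : m + 1 + 2 * k = m + 2 * k + 1 := by ring
    have e3 : m + 2 * k + 1 + 1 = m + 2 * k + 2 := by ring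
    rw [e1, e2, e3]
    linarith

lemma S_nonneg {v : ℕ → ℝ} (hv : Antitone v) (m k : ℕ) : 0 ≤ S v m k := by
  unfold S
  refine sum_nonneg fun j _ => ?_
  have : v (m + 2 * j + 1) ≤ v (m + 2 * j) := hv (by omega)
  linarith

/-- the sum of the squares of the differences -/
noncomputable def PQ (T : ℝ) (a : ℕ → ℝ[X]) (m k : ℕ) : ℝ :=
  ∑ j ∈ range k, dn T (a (m + 2 * j) - a (m + 2 * j + 1)) ^ 2

/-- the sum of the squares of every second member -/
noncomputable def ev (T : ℝ) (a : ℕ → ℝ[X]) (m k : ℕ) : ℝ :=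
  ∑ j ∈ range k, dn T (a (m + 2 * j)) ^ 2

lemma ev_nonneg (a : ℕ → ℝ[X]) (m k : ℕ) : 0 ≤ ev T a m k := sum_nonneg fun _ _ => sq_nonneg _

lemma ev_add (a : ℕ → ℝ[X]) {m m' j k n : ℕ} (hm : m' = m + 2 * j) (hn : n = j + k) :
    ev T a m n = ev T a m j + ev T a m' k := by
  subst hm hn
  unfold ev
  rw [sum_range_add]
  congr 1
  refine sum_congr rfl fun i _ => ?_
  have e : m + 2 * (j + i) = m + 2 * j + 2 * i := by ring
  rw [e]

lemma ev_one (a : ℕ → ℝ[X]) (m : ℕ) : ev T a m 1 = dn T (a m) ^ 2 := by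
  simp [ev]

lemma sum_ev (a : ℕ → ℝ[X]) (n : ℕ) :
    ∑ i ∈ range (2 * n + 1), dn T (a i) ^ 2 = ev T a 0 (n + 1) + ev T a 1 n := by
  induction n with
  | zero => simp [ev]
  | succ n ih =>
    have e : 2 * (n + 1) + 1 = 2 * n + 1 + 1 + 1 := by ring
    rw [e, sum_range_succ, sum_range_succ, ih, ev_add a (rfl : 0 + 2 * (n + 1) = _)
      (rfl : n + 1 + 1 = _), ev_add a (rfl : 1 + 2 * n = _) (rfl : n + 1 = _), ev_one, ev_one]
    have e1 : 0 + 2 * (n + 1) = 2 * n + 1 + 1 := by ring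
    have e2 : 1 + 2 * n = 2 * n + 1 := by ring
    rw [e1, e2]
    ring

lemma q2 (hT : 0 ≤ T) (x y : ℝ) (p q : ℝ[X]) :
    0 ≤ x ^ 2 * dform T p p + 2 * (x * y * dform T p q) + y ^ 2 * dform T q q := by
  have h := dform_self_nonneg T hT (x • p + y • q)
  simp only [dform_add_left, dform_add_right, df_smul_left, df_smul_right] at h
  rw [dform_comm T q p] at h
  linarith

lemma PQ_le2 (hT : 0 ≤ T) (a : ℕ → ℝ[X]) {m m' k : ℕ} (hm : m' = m + 1) :
    PQ T a m k ≤ 2 * ev T a m k + 2 * ev T a m' k := by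
  subst hm
  unfold PQ ev
  rw [mul_sum, mul_sum, ← sum_add_distrib]
  refine sum_le_sum fun j _ => ?_
  have h := dn_sub_sq_le hT (a (m + 2 * j)) (a (m + 2 * j + 1))
  have e : m + 1 + 2 * j = m + 2 * j + 1 := by ring
  rw [e]
  linarith

lemma dn_sub_w (hT : 0 ≤ T) (p q : ℝ[X]) :
    dn T (p - q) ^ 2 ≤ 5 / 3 * dn T p ^ 2 + 5 / 2 * dn T q ^ 2 := by
  have h := q2 hT 2 3 p q
  rw [TDN.dn_sub_sq T hT]
  rw [← dn_sq T hT, ← dn_sq T hT] at h
  linarith

lemma PQ_leA (hT : 0 ≤ T) (a : ℕ → ℝ[X]) {m m' k : ℕ} (hm : m' = m + 1) :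
    PQ T a m k ≤ 5 / 3 * ev T a m k + 5 / 2 * ev T a m' k := by
  subst hm
  unfold PQ ev
  rw [mul_sum, mul_sum, ← sum_add_distrib]
  refine sum_le_sum fun j _ => ?_
  have h := dn_sub_w hT (a (m + 2 * j)) (a (m + 2 * j + 1))
  have e : m + 1 + 2 * j = m + 2 * j + 1 := by ring
  rw [e]
  exact h

lemma PQ_leB (hT : 0 ≤ T) (a : ℕ → ℝ[X]) {m m' k : ℕ} (hm : m' = m + 1) :
    PQ T a m k ≤ 5 / 2 * ev T a m k + 5 / 3 * ev T a m' k := by
  subst hm
  unfold PQ ev
  rw [mul_sum, mul_sum, ← sum_add_distrib]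
  refine sum_le_sum fun j _ => ?_
  have h := dn_sub_w hT (a (m + 2 * j + 1)) (a (m + 2 * j))
  have e : m + 1 + 2 * j = m + 2 * j + 1 := by ring
  rw [e, TDN.dn_sub_comm]
  linarith

/-- the triple `x - y + z` -/
lemma trip_w (hT : 0 ≤ T) (x y z : ℝ[X]) :
    dn T (x - y + z) ^ 2 ≤ 10 / 3 * dn T x ^ 2 + 5 / 2 * dn T y ^ 2 + 10 / 3 * dn T z ^ 2 := by
  have h1 := q2 hT 4 3 x y
  have h2 := q2 hT 4 3 z y
  have h3 := q2 hT 1 (-1) x z
  simp only [dn_sq T hT, dform_add_left, dform_add_right, dform_sub_left, dform_sub_right]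
  rw [dform_comm T z y] at h2
  rw [dform_comm T y x, dform_comm T z x, dform_comm T z y]
  linarith

/-- **three patterns** -/
lemma core3 (hT : 0 ≤ T) (d x y z : ℝ[X]) :
    dn T (d + (x - y + z)) ^ 2 ≤
        7 / 6 * dn T d ^ 2 + 7 / 3 * (dn T x ^ 2 + dn T y ^ 2 + dn T z ^ 2) ∨
    dn T (d + (-x + y + z)) ^ 2 ≤
        7 / 6 * dn T d ^ 2 + 7 / 3 * (dn T x ^ 2 + dn T y ^ 2 + dn T z ^ 2) ∨
    dn T (d + (x + y - z)) ^ 2 ≤
        7 / 6 * dn T d ^ 2 + 7 / 3 * (dn T x ^ 2 + dn T y ^ 2 + dn T z ^ 2) := by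
  by_contra hcon
  push Not at hcon
  obtain ⟨g1, g2, g3⟩ := hcon
  have h0 := dform_self_nonneg T hT (d - (2 : ℝ) • (x + y + z))
  have h1 := q2 hT 1 (-1) x y
  have h2 := q2 hT 1 (-1) y z
  have h3 := q2 hT 1 (-1) x z
  simp only [dn_sq T hT, dform_add_left, dform_add_right, dform_sub_left, dform_sub_right,
    dform_neg_left, dform_neg_right, df_smul_left, df_smul_right] at g1 g2 g3 h0
  rw [dform_comm T x d, dform_comm T y d, dform_comm T z d, dform_comm T y x, dform_comm T z x,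
    dform_comm T z y] at g1 g2 g3 h0
  linarith

/-! ### blocks of pairs -/

/-- a block of pairs relative to a base -/
theorem blk (hT : 0 ≤ T) (ha : Antitone fun i => (a i).eval T) (m : ℕ) (q : ℝ[X]) (n : ℕ) :
    ∃ U : ℝ[X], Sg a m (2 * n) 0 U ∧ |U.eval T| ≤ S (fun i => (a i).eval T) m n ∧
      dn T (q + U) ^ 2 ≤ dn T q ^ 2 + PQ T a m n := by
  induction n with
  | zero => exact ⟨0, ⟨fun _ => true, by simp, by simp [ss]⟩, by simp [S], by simp [PQ]⟩
  | succ n ih =>
    obtain ⟨U, h0, h1, h2⟩ := ih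
    obtain ⟨b, hb⟩ := flip2 hT (a (m + 2 * n) - a (m + 2 * n + 1)) (q + U)
    have hd : 0 ≤ (a (m + 2 * n)).eval T - (a (m + 2 * n + 1)).eval T := by
      have : (a (m + 2 * n + 1)).eval T ≤ (a (m + 2 * n)).eval T := ha (by omega)
      linarith
    refine ⟨U + sg b • (a (m + 2 * n) - a (m + 2 * n + 1)), ?_, ?_, ?_⟩
    · cases b
      · refine (h0.cat ((Sg.neg a (m + 2 * n)).cat (Sg.pos a (m + 2 * n + 1)) rfl) rfl).cast rfl
          (by ring) (by ring) ?_
        rw [sg_ff]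
        module
      · refine (h0.cat ((Sg.pos a (m + 2 * n)).cat (Sg.neg a (m + 2 * n + 1)) rfl) rfl).cast rfl
          (by ring) (by ring) ?_
        rw [sg_tt]
        module
    · rw [S_succ, eval_add, eval_smul, smul_eq_mul, eval_sub]
      refine (abs_add_le _ _).trans ?_
      rw [abs_mul, sg_abs, one_mul, abs_of_nonneg hd]
      linarith
    · have e : q + (U + sg b • (a (m + 2 * n) - a (m + 2 * n + 1))) =
          sg b • (a (m + 2 * n) - a (m + 2 * n + 1)) + (q + U) := by ring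
      rw [e]
      unfold PQ at h2 ⊢
      rw [sum_range_succ]
      linarith

/-! ### patterns -/

/-- a pattern: the value is between `A - 2 X` and `A + 2 Y` where `A` is the alternating sum -/
def Pt (T : ℝ) (a : ℕ → ℝ[X]) (n : ℕ) (X Y B : ℝ) : Prop :=
  ∃ U : ℝ[X], Sg a 0 (2 * n + 1) 1 U ∧
    S (fun i => (a i).eval T) 0 n + (a (2 * n)).eval T - 2 * X ≤ U.eval T ∧
    U.eval T ≤ S (fun i => (a i).eval T) 0 n + (a (2 * n)).eval T + 2 * Y ∧ dn T U ^ 2 ≤ B

/-- one member is left over -/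
lemma pt0 (hT : 0 ≤ T) (ha : Antitone fun i => (a i).eval T) {J k n : ℕ} (hn : n = J + k) :
    Pt T a n (S (fun i => (a i).eval T) 0 J) (S (fun i => (a i).eval T) (2 * J + 1) k)
      (dn T (a (2 * J)) ^ 2 + PQ T a 0 J + PQ T a (2 * J + 1) k) := by
  subst hn
  obtain ⟨UL, gL, vL, qL⟩ := blk hT ha 0 (a (2 * J)) J
  obtain ⟨UR, gR, vR, qR⟩ := blk hT ha (2 * J + 1) (a (2 * J) + UL) k
  have e1 := S_add (fun i => (a i).eval T) (m := 0) (m' := 2 * J) (j := J) (k := k) (by ring) rfl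
  have e2 := S_shift (fun i => (a i).eval T) (m := 2 * J) (m' := 2 * J + 1)
    (m2 := 2 * (J + k)) (k := k) rfl (by ring)
  rw [abs_le] at vL vR
  refine ⟨a (2 * J) + UL + UR, ?_, ?_, ?_, ?_⟩
  · exact (gL.cat ((Sg.pos a (2 * J)).cat gR rfl) (by ring)).cast rfl (by ring) (by ring)
      (by ring)
  · rw [e1, eval_add, eval_add]
    linarith
  · rw [e1, eval_add, eval_add]
    linarith
  · linarith

/-- the triple `2 J, 2 J + 1, 2 J + 2` -/
lemma ptA (hT : 0 ≤ T) (ha : Antitone fun i => (a i).eval T) {J k n : ℕ} (hn : n = J + 1 + k) :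
    Pt T a n (S (fun i => (a i).eval T) 0 J) (S (fun i => (a i).eval T) (2 * J + 3) k)
      (dn T (a (2 * J) - a (2 * J + 1) + a (2 * J + 2)) ^ 2 + PQ T a 0 J +
        PQ T a (2 * J + 3) k) := by
  subst hn
  obtain ⟨UL, gL, vL, qL⟩ := blk hT ha 0 (a (2 * J) - a (2 * J + 1) + a (2 * J + 2)) J
  obtain ⟨UR, gR, vR, qR⟩ := blk hT ha (2 * J + 3)
    (a (2 * J) - a (2 * J + 1) + a (2 * J + 2) + UL) k
  have e1 := S_add (fun i => (a i).eval T) (m := 0) (m' := 2 * J) (j := J) (k := 1 + k)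
    (n := J + 1 + k) (by ring) (by ring)
  have e3 := S_add (fun i => (a i).eval T) (m := 2 * J) (m' := 2 * J + 2) (j := 1) (k := k)
    (n := 1 + k) (by ring) (by ring)
  have e4 := S_succ (fun i => (a i).eval T) (2 * J) 0
  have e2 := S_shift (fun i => (a i).eval T) (m := 2 * J + 2) (m' := 2 * J + 3)
    (m2 := 2 * (J + 1 + k)) (k := k) rfl (by ring)
  simp only [S_zero, mul_zero, add_zero, zero_add] at e4
  rw [abs_le] at vL vR
  refine ⟨a (2 * J) - a (2 * J + 1) + a (2 * J + 2) + UL + UR, ?_, ?_, ?_, ?_⟩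
  · exact (gL.cat ((Sg.pos a (2 * J)).cat ((Sg.neg a (2 * J + 1)).cat
      ((Sg.pos a (2 * J + 2)).cat gR rfl) rfl) rfl) (by ring)).cast rfl (by ring) (by ring)
      (by ring)
  · rw [e1, e3, e4, eval_add, eval_add, eval_add, eval_sub]
    linarith
  · rw [e1, e3, e4, eval_add, eval_add, eval_add, eval_sub]
    linarith
  · linarith

/-- the triple `0, 2 J + 1, 2 n` -/
lemma ptB (hT : 0 ≤ T) (ha : Antitone fun i => (a i).eval T) {J k n : ℕ} (hn : n = J + 1 + k) :
    Pt T a n (S (fun i => (a i).eval T) (2 * J + 2) k) (S (fun i => (a i).eval T) 1 J)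
      (dn T (a 0 - a (2 * J + 1) + a (2 * n)) ^ 2 + PQ T a 1 J + PQ T a (2 * J + 2) k) := by
  subst hn
  obtain ⟨UL, gL, vL, qL⟩ := blk hT ha 1 (a 0 - a (2 * J + 1) + a (2 * (J + 1 + k))) J
  obtain ⟨UR, gR, vR, qR⟩ := blk hT ha (2 * J + 2)
    (a 0 - a (2 * J + 1) + a (2 * (J + 1 + k)) + UL) k
  have e1 := S_add (fun i => (a i).eval T) (m := 0) (m' := 2 * J) (j := J) (k := 1 + k)
    (n := J + 1 + k) (by ring) (by ring)
  have e3 := S_add (fun i => (a i).eval T) (m := 2 * J) (m' := 2 * J + 2) (j := 1) (k := k)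
    (n := 1 + k) (by ring) (by ring)
  have e4 := S_succ (fun i => (a i).eval T) (2 * J) 0
  have e2 := S_shift (fun i => (a i).eval T) (m := 0) (m' := 1)
    (m2 := 2 * J) (k := J) rfl (by ring)
  simp only [S_zero, mul_zero, add_zero, zero_add] at e4
  rw [abs_le] at vL vR
  refine ⟨a 0 - a (2 * J + 1) + a (2 * (J + 1 + k)) + UL + UR, ?_, ?_, ?_, ?_⟩
  · exact ((Sg.pos a 0).cat (gL.cat ((Sg.neg a (2 * J + 1)).cat
      (gR.cat (Sg.pos a (2 * (J + 1 + k))) (by ring)) rfl) (by ring)) rfl).cast rfl (by ring)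
      (by ring) (by ring)
  · rw [e1, e3, e4, eval_add, eval_add, eval_add, eval_sub]
    linarith
  · rw [e1, e3, e4, eval_add, eval_add, eval_add, eval_sub]
    linarith
  · linarith

/-- the core `0, 2 J + 1, 2 J + 2, 2 J + 3, 2 n` with the signs `W` of the middle triple -/
lemma ptC (hT : 0 ≤ T) (ha : Antitone fun i => (a i).eval T) {J k n : ℕ} (hn : n = J + 2 + k)
    {W : ℝ[X]} (hW : Sg a (2 * J + 1) 3 (-1) W) {B : ℝ}
    (h1 : -(a (2 * J + 1)).eval T - (a (2 * J + 2)).eval T + (a (2 * J + 3)).eval T ≤ W.eval T)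
    (h2 : W.eval T ≤ (a (2 * J + 1)).eval T - (a (2 * J + 2)).eval T - (a (2 * J + 3)).eval T)
    (hB : dn T (a 0 + a (2 * n) + W) ^ 2 ≤ B) :
    Pt T a n (S (fun i => (a i).eval T) (2 * J + 2) (1 + k))
      (S (fun i => (a i).eval T) 1 (J + 1))
      (B + PQ T a 1 J + PQ T a (2 * J + 4) k) := by
  subst hn
  obtain ⟨UL, gL, vL, qL⟩ := blk hT ha 1 (a 0 + a (2 * (J + 2 + k)) + W) J
  obtain ⟨UR, gR, vR, qR⟩ := blk hT ha (2 * J + 4) (a 0 + a (2 * (J + 2 + k)) + W + UL) k
  have e1 := S_add (fun i => (a i).eval T) (m := 0) (m' := 2 * J + 2) (j := J + 1) (k := 1 + k)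
    (n := J + 2 + k) (by ring) (by ring)
  have e2 := S_shift (fun i => (a i).eval T) (m := 0) (m' := 1)
    (m2 := 2 * J + 2) (k := J + 1) rfl (by ring)
  have e3 := S_add (fun i => (a i).eval T) (m := 2 * J + 2) (m' := 2 * J + 4) (j := 1) (k := k)
    (n := 1 + k) (by ring) (by ring)
  have e4 := S_succ (fun i => (a i).eval T) (2 * J + 2) 0
  have e5 := S_succ (fun i => (a i).eval T) 1 J
  have f1 : 1 + 2 * J = 2 * J + 1 := by ring
  simp only [S_zero, mul_zero, add_zero, zero_add] at e4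
  rw [f1] at e5
  have hR := S_nonneg ha (2 * J + 4) k
  have hL := S_nonneg ha 1 J
  rw [abs_le] at vL vR
  refine ⟨a 0 + a (2 * (J + 2 + k)) + W + UL + UR, ?_, ?_, ?_, ?_⟩
  · exact ((Sg.pos a 0).cat (gL.cat (hW.cat
      (gR.cat (Sg.pos a (2 * (J + 2 + k))) (by ring)) rfl) (by ring)) rfl).cast rfl (by ring)
      (by ring) (by ring)
  · rw [e1, e3, e4, eval_add, eval_add, eval_add, eval_add]
    linarith
  · rw [e1, e3, e4, e5, eval_add, eval_add, eval_add, eval_add]
    linarith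
  · linarith

/-- the core `0, 1, 2, 3, 4` with the signs `W` of the last three -/
lemma ptL (hT : 0 ≤ T) (ha : Antitone fun i => (a i).eval T) {k n : ℕ} (hn : n = 2 + k)
    {W : ℝ[X]} (hW : Sg a 2 3 1 W) {B : ℝ}
    (h1 : -(a 2).eval T + (a 3).eval T + (a 4).eval T ≤ W.eval T)
    (h2 : W.eval T ≤ (a 2).eval T + (a 3).eval T - (a 4).eval T)
    (hB : dn T (a 0 - a 1 + W) ^ 2 ≤ B) :
    Pt T a n (S (fun i => (a i).eval T) 2 1) (S (fun i => (a i).eval T) 3 (1 + k))
      (B + PQ T a 5 k) := by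
  subst hn
  obtain ⟨UR, gR, vR, qR⟩ := blk hT ha 5 (a 0 - a 1 + W) k
  have e1 := S_add (fun i => (a i).eval T) (m := 0) (m' := 4) (j := 2) (k := k)
    (n := 2 + k) (by ring) (by ring)
  have e2 := S_shift (fun i => (a i).eval T) (m := 4) (m' := 5)
    (m2 := 2 * (2 + k)) (k := k) rfl (by ring)
  have e3 := S_add (fun i => (a i).eval T) (m := 3) (m' := 5) (j := 1) (k := k)
    (n := 1 + k) (by ring) (by ring)
  have e4 := S_succ (fun i => (a i).eval T) 0 1
  have e5 := S_succ (fun i => (a i).eval T) 0 0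
  have e6 := S_succ (fun i => (a i).eval T) 2 0
  have e7 := S_succ (fun i => (a i).eval T) 3 0
  simp only [S_zero, mul_zero, mul_one, add_zero, zero_add, Nat.reduceAdd] at e4 e5 e6 e7
  have hR := S_nonneg ha 5 k
  have hd : (a 4).eval T ≤ (a 3).eval T := ha (by omega)
  have hd2 : (a 3).eval T ≤ (a 2).eval T := ha (by omega)
  rw [abs_le] at vR
  refine ⟨a 0 - a 1 + W + UR, ?_, ?_, ?_, ?_⟩
  · exact ((Sg.pos a 0).cat ((Sg.neg a 1).cat (hW.cat gR rfl) rfl) rfl).cast rfl (by ring)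
      (by ring) (by ring)
  · rw [e1, e4, e5, e6, eval_add, eval_add, eval_sub]
    linarith
  · rw [e1, e3, e4, e5, e7, eval_add, eval_add, eval_sub]
    linarith
  · linarith

/-- the core `2 k, ..., 2 k + 4 = 2 n` with the signs `W` of the first three -/
lemma ptR (hT : 0 ≤ T) (ha : Antitone fun i => (a i).eval T) {k n : ℕ} (hn : n = k + 2)
    {W : ℝ[X]} (hW : Sg a (2 * k) 3 1 W) {B : ℝ}
    (h1 : -(a (2 * k)).eval T + (a (2 * k + 1)).eval T + (a (2 * k + 2)).eval T ≤ W.eval T)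
    (h2 : W.eval T ≤ (a (2 * k)).eval T + (a (2 * k + 1)).eval T - (a (2 * k + 2)).eval T)
    (hB : dn T (a (2 * k + 4) - a (2 * k + 3) + W) ^ 2 ≤ B) :
    Pt T a n (S (fun i => (a i).eval T) 0 (k + 1)) (S (fun i => (a i).eval T) (2 * k + 1) 1)
      (B + PQ T a 0 k) := by
  subst hn
  obtain ⟨UL, gL, vL, qL⟩ := blk hT ha 0 (a (2 * k + 4) - a (2 * k + 3) + W) k
  have e1 := S_succ (fun i => (a i).eval T) 0 (k + 1)
  have e2 := S_succ (fun i => (a i).eval T) 0 k
  have e3 := S_succ (fun i => (a i).eval T) (2 * k + 1) 0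
  have f1 : 2 * (k + 1) = 2 * k + 2 := by ring
  have f2 : 2 * (k + 2) = 2 * k + 4 := by ring
  have f3 : 2 * k + 2 + 1 = 2 * k + 3 := rfl
  have f4 : 2 * k + 1 + 1 = 2 * k + 2 := rfl
  simp only [S_zero, mul_zero, add_zero, zero_add, f1, f3, f4] at e1 e2 e3
  have hL := S_nonneg ha 0 k
  have hd : (a (2 * k + 2)).eval T ≤ (a (2 * k + 1)).eval T := ha (by omega)
  have hd2 : (a (2 * k + 1)).eval T ≤ (a (2 * k)).eval T := ha (by omega)
  rw [abs_le] at vL
  refine ⟨a (2 * k + 4) - a (2 * k + 3) + W + UL, ?_, ?_, ?_, ?_⟩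
  · exact (gL.cat (hW.cat ((Sg.neg a (2 * k + 3)).cat (Sg.pos a (2 * k + 4)) rfl) rfl)
      (by ring)).cast rfl (by ring) (by ring) (by ring)
  · rw [f2, e1, e2, eval_add, eval_add, eval_sub]
    linarith
  · rw [f2, e1, e2, e3, eval_add, eval_add, eval_sub]
    linarith
  · linarith

lemma S_le {v : ℕ → ℝ} (hv : Antitone v) {m m' k k' j : ℕ} (hm : m = m' + 2 * j)
    (hk : j + k ≤ k') : S v m k ≤ S v m' k' := by
  obtain ⟨l, rfl⟩ := Nat.exists_eq_add_of_le hk
  have e1 := S_add v (m := m') (m' := m) (j := j) (k := k + l) (n := j + k + l) hm (by ring)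
  have e2 := S_add v (m := m) (m' := m + 2 * k) (j := k) (k := l) rfl rfl
  have h1 := S_nonneg hv m' j
  have h2 := S_nonneg hv (m + 2 * k) l
  linarith

/-- the factor -/
noncomputable def f5 (n : ℕ) : ℝ := if n ≤ 2 then 7 / 3 else 5 / 2

lemma f5_ge (n : ℕ) : 7 / 3 ≤ f5 n := by
  unfold f5
  split_ifs <;> norm_num

/-- **signs for an odd number of members of a decreasing sequence, factor 5/2** -/
theorem five_seq (hT : 0 ≤ T) (ha : Antitone fun i => (a i).eval T)
    (h0 : ∀ i, 0 ≤ (a i).eval T) {c : ℝ} (hc : (a 0).eval T ≤ c) {n : ℕ} (hn : 2 ≤ n) :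
    ∃ U : ℝ[X], Sg a 0 (2 * n + 1) 1 U ∧ 0 ≤ U.eval T ∧ U.eval T ≤ c ∧
      U.eval T ≤ (a 0).eval T + (a 1).eval T ∧
      dn T U ^ 2 ≤ f5 n * ∑ i ∈ range (2 * n + 1), dn T (a i) ^ 2 := by
  set v : ℕ → ℝ := fun i => (a i).eval T with hv
  have hv0 : ∀ i, 0 ≤ v i := h0
  obtain ⟨A, hA⟩ : ∃ A, A = S v 0 n + v (2 * n) := ⟨_, rfl⟩
  have eA : A = v 0 - S v 1 n := by
    rw [hA]
    exact S_shift v (by ring) (by ring)
  have hA0 : 0 ≤ A := by
    have := S_nonneg ha 0 n
    have := hv0 (2 * n)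
    rw [hA]
    linarith
  have hS1 : S v 1 n ≤ v 1 := by
    have h1 := S_shift v (m := 1) (m' := 2) (m2 := 1 + 2 * n) (k := n) rfl rfl
    have h2 := S_nonneg ha 2 n
    have h3 := hv0 (1 + 2 * n)
    linarith
  have hS10 := S_nonneg ha 1 n
  have hAc : A ≤ c := by
    have : v 0 ≤ c := hc
    linarith
  have hf := f5_ge n
  obtain ⟨Q, hQ⟩ : ∃ Q, Q = ∑ i ∈ range (2 * n + 1), dn T (a i) ^ 2 := ⟨_, rfl⟩
  have hQ2 : Q = ev T a 0 (n + 1) + ev T a 1 n := by rw [hQ, sum_ev]
  have hQ0 : 0 ≤ Q := by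
    rw [hQ2]
    have := ev_nonneg (T := T) a 0 (n + 1)
    have := ev_nonneg (T := T) a 1 n
    linarith
  -- a pattern suffices
  have key : ∀ X Y B : ℝ, Pt T a n X Y B → 2 * X ≤ A → 2 * Y ≤ c - A → Y ≤ S v 1 n →
      B ≤ f5 n * Q → ∃ U : ℝ[X], Sg a 0 (2 * n + 1) 1 U ∧ 0 ≤ U.eval T ∧ U.eval T ≤ c ∧
        U.eval T ≤ (a 0).eval T + (a 1).eval T ∧ dn T U ^ 2 ≤ f5 n * Q := by
    intro X Y B ⟨U, g1, g2, g3, g4⟩ hX hY hY2 hB
    refine ⟨U, g1, ?_, ?_, ?_, g4.trans hB⟩
    · have : A - 2 * X ≤ U.eval T := by rw [hA]; exact g2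
      linarith
    · have : U.eval T ≤ A + 2 * Y := by rw [hA]; exact g3
      linarith
    · have : U.eval T ≤ A + 2 * Y := by rw [hA]; exact g3
      show _ ≤ v 0 + v 1
      linarith
  rw [← hQ]
  -- the two medians
  obtain ⟨J, hJn, hJ1, hJ2⟩ : ∃ J, J ≤ n ∧ 2 * S v 0 J ≤ A ∧
      (J < n → A ≤ 2 * S v 0 (J + 1)) := by
    classical
    have hex : ∃ J, n ≤ J ∨ A ≤ 2 * S v 0 (J + 1) := ⟨n, Or.inl le_rfl⟩
    refine ⟨Nat.find hex, Nat.find_min' hex (Or.inl le_rfl), ?_, fun h => ?_⟩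
    · rcases Nat.eq_zero_or_pos (Nat.find hex) with hz | hp
      · rw [hz, S_zero]
        linarith
      · have h1 := Nat.find_min hex (Nat.sub_lt hp one_pos)
        push Not at h1
        have e : Nat.find hex - 1 + 1 = Nat.find hex := by omega
        rw [e] at h1
        exact h1.2.le
    · rcases Nat.find_spec hex with h1 | h1
      · omega
      · exact h1
  obtain ⟨M, hMn, hM1, hM2⟩ : ∃ M, M ≤ n ∧ 2 * S v (2 * M + 1) (n - M) ≤ c - A ∧
      (1 ≤ M → 2 * S v 1 (M - 1) ≤ c - A) := by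
    classical
    have hex : ∃ M, n ≤ M ∨ 2 * S v (2 * M + 1) (n - M) ≤ c - A := ⟨n, Or.inl le_rfl⟩
    have hle : Nat.find hex ≤ n := Nat.find_min' hex (Or.inl le_rfl)
    refine ⟨Nat.find hex, hle, ?_, fun hp => ?_⟩
    · rcases Nat.find_spec hex with h1 | h1
      · have e : n - Nat.find hex = 0 := by omega
        rw [e, S_zero]
        linarith
      · exact h1
    · have h1 := Nat.find_min hex (Nat.sub_lt hp one_pos)
      push Not at h1
      have e1 := S_add v (m := 1) (m' := 2 * (Nat.find hex - 1) + 1) (j := Nat.find hex - 1)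
        (k := n - (Nat.find hex - 1)) (n := n) (by ring) (by omega)
      have : v 0 ≤ c := hc
      linarith [h1.2]
  have hM3 : ∀ j, j + 1 ≤ M → 2 * S v 1 j ≤ c - A := by
    intro j hj
    have h1 := hM2 (by omega)
    have h2 := S_le ha (m := 1) (m' := 1) (k := j) (k' := M - 1) (j := 0) (by ring) (by omega)
    linarith
  have hJ3 : J < n → 2 * S v (2 * J + 2) (n - J - 1) ≤ A := by
    intro h
    have h1 := hJ2 h
    have e1 := S_add v (m := 0) (m' := 2 * J + 2) (j := J + 1) (k := n - J - 1) (n := n)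
      (by ring) (by omega)
    have := hv0 (2 * n)
    linarith
  rcases Nat.lt_or_ge J M with hJM | hJM
  swap
  · -- no conflict
    obtain ⟨k, hk⟩ : ∃ k, n = J + k := ⟨n - J, by omega⟩
    refine key _ _ _ (pt0 hT ha hk) hJ1 ?_ ?_ ?_
    · have := S_le ha (m := 2 * J + 1) (m' := 2 * M + 1) (k := k) (k' := n - M) (j := J - M)
        (by omega) (by omega)
      linarith
    · exact S_le ha (j := J) (by ring) (by omega)
    · have e1 := PQ_le2 hT a (m := 0) (m' := 1) (k := J) rfl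
      have e2 := PQ_le2 hT a (m := 2 * J + 1) (m' := 2 * J + 2) (k := k) rfl
      have e3 := ev_add (T := T) a (m := 0) (m' := 2 * J) (j := J) (k := 1 + k) (n := n + 1)
        (by ring) (by omega)
      have e4 := ev_add (T := T) a (m := 2 * J) (m' := 2 * J + 2) (j := 1) (k := k) (n := 1 + k)
        (by ring) rfl
      have e5 := ev_add (T := T) a (m := 1) (m' := 2 * J + 1) (j := J) (k := k) (n := n)
        (by ring) hk
      rw [ev_one] at e4
      have h1 := sq_nonneg (dn T (a (2 * J)))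
      have h2 : 2 * Q ≤ f5 n * Q := mul_le_mul_of_nonneg_right (by linarith) hQ0
      linarith
  have hJn' : J < n := by omega
  have X2 := hJ3 hJn'
  rcases Nat.lt_or_ge (J + 1) M with hJM2 | hJM2
  · -- the core in the middle
    obtain ⟨k, hk⟩ : ∃ k, n = J + 2 + k := ⟨n - J - 2, by omega⟩
    have Y1 := hM3 (J + 1) (by omega)
    have ek : n - J - 1 = 1 + k := by omega
    rw [ek] at X2
    have Y2 : S v 1 (J + 1) ≤ S v 1 n := S_le ha (j := 0) (by ring) (by omega)
    have d1 : v (2 * J + 2) ≤ v (2 * J + 1) := ha (by omega)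
    have d2 : v (2 * J + 3) ≤ v (2 * J + 2) := ha (by omega)
    have hB : 7 / 6 * dn T (a 0 + a (2 * n)) ^ 2 + 7 / 3 * (dn T (-a (2 * J + 1)) ^ 2 +
        dn T (-a (2 * J + 2)) ^ 2 + dn T (-a (2 * J + 3)) ^ 2) + PQ T a 1 J +
        PQ T a (2 * J + 4) k ≤ f5 n * Q := by
      rw [dn_neg, dn_neg, dn_neg]
      have h1 := dn_parallelogram T hT (a 0) (a (2 * n))
      have h2 := sq_nonneg (dn T (a 0 - a (2 * n)))
      have e1 := PQ_le2 hT a (m := 1) (m' := 2) (k := J) rfl
      have e2 := PQ_le2 hT a (m := 2 * J + 4) (m' := 2 * J + 5) (k := k) rfl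
      have e3 := ev_add (T := T) a (m := 0) (m' := 2) (j := 1) (k := J + (1 + (k + 1)))
        (n := n + 1) (by ring) (by omega)
      have e4 := ev_add (T := T) a (m := 2) (m' := 2 * J + 2) (j := J) (k := 1 + (k + 1))
        (n := J + (1 + (k + 1))) (by ring) rfl
      have e5 := ev_add (T := T) a (m := 2 * J + 2) (m' := 2 * J + 4) (j := 1) (k := k + 1)
        (n := 1 + (k + 1)) (by ring) rfl
      have e6 := ev_add (T := T) a (m := 2 * J + 4) (m' := 2 * n) (j := k) (k := 1)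
        (n := k + 1) (by omega) rfl
      have e7 := ev_add (T := T) a (m := 1) (m' := 2 * J + 1) (j := J) (k := 1 + (1 + k))
        (n := n) (by ring) (by omega)
      have e8 := ev_add (T := T) a (m := 2 * J + 1) (m' := 2 * J + 3) (j := 1) (k := 1 + k)
        (n := 1 + (1 + k)) (by ring) rfl
      have e9 := ev_add (T := T) a (m := 2 * J + 3) (m' := 2 * J + 5) (j := 1) (k := k)
        (n := 1 + k) (by ring) rfl
      rw [ev_one] at e3 e5 e6 e8 e9
      have n1 := ev_nonneg (T := T) a 1 J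
      have n2 := ev_nonneg (T := T) a 2 J
      have n3 := ev_nonneg (T := T) a (2 * J + 4) k
      have n4 := ev_nonneg (T := T) a (2 * J + 5) k
      have h3 : 7 / 3 * Q ≤ f5 n * Q := mul_le_mul_of_nonneg_right hf hQ0
      linarith
    rcases core3 hT (a 0 + a (2 * n)) (-a (2 * J + 1)) (-a (2 * J + 2)) (-a (2 * J + 3)) with
      g | g | g
    · refine key _ _ _ (ptC hT ha hk (((Sg.neg a (2 * J + 1)).cat ((Sg.pos a (2 * J + 2)).cat
        (Sg.neg a (2 * J + 3)) rfl) rfl).cast rfl rfl (by ring) rfl) ?_ ?_ (le_trans (le_of_eq ?_)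
        g)) X2 Y1 Y2 hB
      · rw [eval_add, eval_add, eval_neg, eval_neg]
        show -v (2 * J + 1) - v (2 * J + 2) + v (2 * J + 3) ≤
          -v (2 * J + 1) + (v (2 * J + 2) + -v (2 * J + 3))
        linarith
      · rw [eval_add, eval_add, eval_neg, eval_neg]
        show -v (2 * J + 1) + (v (2 * J + 2) + -v (2 * J + 3)) ≤
          v (2 * J + 1) - v (2 * J + 2) - v (2 * J + 3)
        linarith
      · congr 2
        ring
    · refine key _ _ _ (ptC hT ha hk (((Sg.pos a (2 * J + 1)).cat ((Sg.neg a (2 * J + 2)).cat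
        (Sg.neg a (2 * J + 3)) rfl) rfl).cast rfl rfl (by ring) rfl) ?_ ?_ (le_trans (le_of_eq ?_)
        g)) X2 Y1 Y2 hB
      · rw [eval_add, eval_add, eval_neg, eval_neg]
        show -v (2 * J + 1) - v (2 * J + 2) + v (2 * J + 3) ≤
          v (2 * J + 1) + (-v (2 * J + 2) + -v (2 * J + 3))
        linarith
      · rw [eval_add, eval_add, eval_neg, eval_neg]
        show v (2 * J + 1) + (-v (2 * J + 2) + -v (2 * J + 3)) ≤
          v (2 * J + 1) - v (2 * J + 2) - v (2 * J + 3)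
        linarith
      · congr 2
        ring
    · refine key _ _ _ (ptC hT ha hk (((Sg.neg a (2 * J + 1)).cat ((Sg.neg a (2 * J + 2)).cat
        (Sg.pos a (2 * J + 3)) rfl) rfl).cast rfl rfl (by ring) rfl) ?_ ?_ (le_trans (le_of_eq ?_)
        g)) X2 Y1 Y2 hB
      · rw [eval_add, eval_add, eval_neg, eval_neg]
        show -v (2 * J + 1) - v (2 * J + 2) + v (2 * J + 3) ≤
          -v (2 * J + 1) + (-v (2 * J + 2) + v (2 * J + 3))
        linarith
      · rw [eval_add, eval_add, eval_neg, eval_neg]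
        show -v (2 * J + 1) + (-v (2 * J + 2) + v (2 * J + 3)) ≤
          v (2 * J + 1) - v (2 * J + 2) - v (2 * J + 3)
        linarith
      · congr 2
        ring
  · have hM : M = J + 1 := by omega
    subst hM
    have Y0 := hM3 J le_rfl
    rcases Nat.eq_zero_or_pos J with hJ0 | hJ0
    · -- the core at the beginning
      subst hJ0
      obtain ⟨k, hk⟩ : ∃ k, n = 2 + k := ⟨n - 2, by omega⟩
      have e0 : n - (0 + 1) = 1 + k := by omega
      have e0' : n - 0 - 1 = 1 + k := by omega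
      rw [e0] at hM1
      rw [e0'] at X2
      have X3 : 2 * S v 2 1 ≤ A := by
        have := S_le ha (m := 2) (m' := 2 * 0 + 2) (k := 1) (k' := 1 + k) (j := 0) (by ring)
          (by omega)
        linarith
      have Y2 : S v 3 (1 + k) ≤ S v 1 n := S_le ha (j := 1) (by ring) (by omega)
      have hB : 7 / 6 * dn T (a 0 - a 1) ^ 2 + 7 / 3 * (dn T (a 2) ^ 2 + dn T (a 3) ^ 2 +
          dn T (a 4) ^ 2) + PQ T a 5 k ≤ f5 n * Q := by
        have h1 := dn_sub_sq_le hT (a 0) (a 1)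
        have e1 := PQ_le2 hT a (m := 5) (m' := 6) (k := k) rfl
        have e3 := ev_add (T := T) a (m := 0) (m' := 2) (j := 1) (k := 1 + (1 + k))
          (n := n + 1) (by ring) (by omega)
        have e4 := ev_add (T := T) a (m := 2) (m' := 4) (j := 1) (k := 1 + k)
          (n := 1 + (1 + k)) (by ring) rfl
        have e5 := ev_add (T := T) a (m := 4) (m' := 6) (j := 1) (k := k)
          (n := 1 + k) (by ring) rfl
        have e7 := ev_add (T := T) a (m := 1) (m' := 3) (j := 1) (k := 1 + k)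
          (n := n) (by ring) (by omega)
        have e8 := ev_add (T := T) a (m := 3) (m' := 5) (j := 1) (k := k)
          (n := 1 + k) (by ring) rfl
        rw [ev_one] at e3 e4 e5 e7 e8
        have n3 := ev_nonneg (T := T) a 5 k
        have n4 := ev_nonneg (T := T) a 6 k
        have h3 : 7 / 3 * Q ≤ f5 n * Q := mul_le_mul_of_nonneg_right hf hQ0
        linarith
      have d1 : v 3 ≤ v 2 := ha (by omega)
      have d2 : v 4 ≤ v 3 := ha (by omega)
      rcases core3 hT (a 0 - a 1) (a 2) (a 3) (a 4) with g | g | g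
      · refine key _ _ _ (ptL hT ha hk (((Sg.pos a 2).cat ((Sg.neg a 3).cat
          (Sg.pos a 4) rfl) rfl).cast rfl rfl (by ring) rfl) ?_ ?_ (le_trans (le_of_eq ?_)
          g)) X3 hM1 Y2 hB
        · rw [eval_add, eval_add, eval_neg]
          show -v 2 + v 3 + v 4 ≤ v 2 + (-v 3 + v 4)
          linarith
        · rw [eval_add, eval_add, eval_neg]
          show v 2 + (-v 3 + v 4) ≤ v 2 + v 3 - v 4
          linarith
        · congr 2
          ring
      · refine key _ _ _ (ptL hT ha hk (((Sg.neg a 2).cat ((Sg.pos a 3).cat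
          (Sg.pos a 4) rfl) rfl).cast rfl rfl (by ring) rfl) ?_ ?_ (le_trans (le_of_eq ?_)
          g)) X3 hM1 Y2 hB
        · rw [eval_add, eval_add, eval_neg]
          show -v 2 + v 3 + v 4 ≤ -v 2 + (v 3 + v 4)
          linarith
        · rw [eval_add, eval_add, eval_neg]
          show -v 2 + (v 3 + v 4) ≤ v 2 + v 3 - v 4
          linarith
        · congr 2
          ring
      · refine key _ _ _ (ptL hT ha hk (((Sg.pos a 2).cat ((Sg.pos a 3).cat
          (Sg.neg a 4) rfl) rfl).cast rfl rfl (by ring) rfl) ?_ ?_ (le_trans (le_of_eq ?_)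
          g)) X3 hM1 Y2 hB
        · rw [eval_add, eval_add, eval_neg]
          show -v 2 + v 3 + v 4 ≤ v 2 + (v 3 + -v 4)
          linarith
        · rw [eval_add, eval_add, eval_neg]
          show v 2 + (v 3 + -v 4) ≤ v 2 + v 3 - v 4
          linarith
        · congr 2
          ring
    rcases Nat.lt_or_ge (J + 1) n with hJn2 | hJn2
    · -- two arrangements
      obtain ⟨k, hk⟩ : ∃ k, n = J + 1 + k := ⟨n - J - 1, by omega⟩
      have e0 : n - (J + 1) = k := by omega
      have e0' : n - J - 1 = k := by omega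
      have e0'' : 2 * (J + 1) + 1 = 2 * J + 3 := by ring
      rw [e0, e0''] at hM1
      rw [e0'] at X2
      have Y2 : S v (2 * J + 3) k ≤ S v 1 n := S_le ha (j := J + 1) (by ring) (by omega)
      have Y3 : S v 1 J ≤ S v 1 n := S_le ha (j := 0) (by ring) (by omega)
      have hf2 : f5 n = 5 / 2 := by
        unfold f5
        rw [if_neg (by omega)]
      have a1 := trip_w hT (a (2 * J)) (a (2 * J + 1)) (a (2 * J + 2))
      have a2 := PQ_leA hT a (m := 0) (m' := 1) (k := J) rfl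
      have a3 := PQ_leB hT a (m := 2 * J + 3) (m' := 2 * J + 4) (k := k) rfl
      have b1 := trip_w hT (a 0) (a (2 * J + 1)) (a (2 * n))
      have b2 := PQ_leB hT a (m := 1) (m' := 2) (k := J) rfl
      have b3 := PQ_leA hT a (m := 2 * J + 2) (m' := 2 * J + 3) (k := k) rfl
      obtain ⟨J', hJ'⟩ : ∃ J', J = J' + 1 := ⟨J - 1, by omega⟩
      obtain ⟨k', hk'⟩ : ∃ k', k = k' + 1 := ⟨k - 1, by omega⟩
      -- the even members
      have c1 := ev_add (T := T) a (m := 0) (m' := 2 * J) (j := J) (k := 1 + (1 + k))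
        (n := n + 1) (by ring) (by omega)
      have c2 := ev_add (T := T) a (m := 2 * J) (m' := 2 * J + 2) (j := 1) (k := 1 + k)
        (n := 1 + (1 + k)) (by ring) rfl
      have c3 := ev_add (T := T) a (m := 2 * J + 2) (m' := 2 * J + 4) (j := 1) (k := k)
        (n := 1 + k) (by ring) rfl
      have c4 := ev_add (T := T) a (m := 0) (m' := 2) (j := 1) (k := J')
        (n := J) (by ring) (by omega)
      have c5 := ev_add (T := T) a (m := 2 * J + 4) (m' := 2 * n) (j := k') (k := 1)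
        (n := k) (by omega) (by omega)
      have c6 := ev_add (T := T) a (m := 2) (m' := 2 * J) (j := J') (k := 1)
        (n := J) (by omega) (by omega)
      have c7 := ev_add (T := T) a (m := 2 * J + 2) (m' := 2 * J + 4) (j := 1) (k := k')
        (n := k) (by ring) (by omega)
      -- the odd members
      have c8 := ev_add (T := T) a (m := 1) (m' := 2 * J + 1) (j := J) (k := 1 + k)
        (n := n) (by ring) (by omega)
      have c9 := ev_add (T := T) a (m := 2 * J + 1) (m' := 2 * J + 3) (j := 1) (k := k)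
        (n := 1 + k) (by ring) rfl
      rw [ev_one] at c2 c3 c4 c5 c6 c7 c9
      have n1 := ev_nonneg (T := T) a 2 J'
      have n2 := ev_nonneg (T := T) a (2 * J + 4) k'
      rcases le_total
        (dn T (a (2 * J) - a (2 * J + 1) + a (2 * J + 2)) ^ 2 + PQ T a 0 J +
          PQ T a (2 * J + 3) k)
        (dn T (a 0 - a (2 * J + 1) + a (2 * n)) ^ 2 + PQ T a 1 J + PQ T a (2 * J + 2) k) with
        g | g
      · refine key _ _ _ (ptA hT ha hk) hJ1 hM1 Y2 ?_
        rw [hf2]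
        linarith
      · refine key _ _ _ (ptB hT ha hk) X2 Y0 Y3 ?_
        rw [hf2]
        linarith
    · -- the core at the end
      obtain ⟨k, hk⟩ : ∃ k, n = k + 2 := ⟨n - 2, by omega⟩
      have hJk : J = k + 1 := by omega
      subst hJk
      have Y1 : S v (2 * k + 1) 1 ≤ S v 1 (k + 1) := S_le ha (j := k) (by ring) (by omega)
      have Y2 : S v 1 (k + 1) ≤ S v 1 n := S_le ha (j := 0) (by ring) (by omega)
      have hB : 7 / 6 * dn T (a (2 * k + 4) - a (2 * k + 3)) ^ 2 + 7 / 3 *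
          (dn T (a (2 * k)) ^ 2 + dn T (a (2 * k + 1)) ^ 2 + dn T (a (2 * k + 2)) ^ 2) +
          PQ T a 0 k ≤ f5 n * Q := by
        have h1 := dn_sub_sq_le hT (a (2 * k + 4)) (a (2 * k + 3))
        have e1 := PQ_le2 hT a (m := 0) (m' := 1) (k := k) rfl
        have e3 := ev_add (T := T) a (m := 0) (m' := 2 * k) (j := k) (k := 1 + (1 + 1))
          (n := n + 1) (by ring) (by omega)
        have e4 := ev_add (T := T) a (m := 2 * k) (m' := 2 * k + 2) (j := 1) (k := 1 + 1)
          (n := 1 + (1 + 1)) (by ring) rfl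
        have e5 := ev_add (T := T) a (m := 2 * k + 2) (m' := 2 * k + 4) (j := 1) (k := 1)
          (n := 1 + 1) (by ring) rfl
        have e7 := ev_add (T := T) a (m := 1) (m' := 2 * k + 1) (j := k) (k := 1 + 1)
          (n := n) (by ring) (by omega)
        have e8 := ev_add (T := T) a (m := 2 * k + 1) (m' := 2 * k + 3) (j := 1) (k := 1)
          (n := 1 + 1) (by ring) rfl
        rw [ev_one] at e4 e5 e8
        rw [ev_one] at e5 e8
        have n3 := ev_nonneg (T := T) a 0 k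
        have n4 := ev_nonneg (T := T) a 1 k
        have h3 : 7 / 3 * Q ≤ f5 n * Q := mul_le_mul_of_nonneg_right hf hQ0
        linarith
      have d1 : v (2 * k + 1) ≤ v (2 * k) := ha (by omega)
      have d2 : v (2 * k + 2) ≤ v (2 * k + 1) := ha (by omega)
      have Y4 : 2 * S v (2 * k + 1) 1 ≤ c - A := by linarith
      rcases core3 hT (a (2 * k + 4) - a (2 * k + 3)) (a (2 * k)) (a (2 * k + 1))
        (a (2 * k + 2)) with g | g | g
      · refine key _ _ _ (ptR hT ha hk (((Sg.pos a (2 * k)).cat ((Sg.neg a (2 * k + 1)).cat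
          (Sg.pos a (2 * k + 2)) rfl) rfl).cast rfl rfl (by ring) rfl) ?_ ?_
          (le_trans (le_of_eq ?_) g)) hJ1 Y4 (Y1.trans Y2) hB
        · rw [eval_add, eval_add, eval_neg]
          show -v (2 * k) + v (2 * k + 1) + v (2 * k + 2) ≤
            v (2 * k) + (-v (2 * k + 1) + v (2 * k + 2))
          linarith
        · rw [eval_add, eval_add, eval_neg]
          show v (2 * k) + (-v (2 * k + 1) + v (2 * k + 2)) ≤
            v (2 * k) + v (2 * k + 1) - v (2 * k + 2)
          linarith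
        · congr 2
          ring
      · refine key _ _ _ (ptR hT ha hk (((Sg.neg a (2 * k)).cat ((Sg.pos a (2 * k + 1)).cat
          (Sg.pos a (2 * k + 2)) rfl) rfl).cast rfl rfl (by ring) rfl) ?_ ?_
          (le_trans (le_of_eq ?_) g)) hJ1 Y4 (Y1.trans Y2) hB
        · rw [eval_add, eval_add, eval_neg]
          show -v (2 * k) + v (2 * k + 1) + v (2 * k + 2) ≤
            -v (2 * k) + (v (2 * k + 1) + v (2 * k + 2))
          linarith
        · rw [eval_add, eval_add, eval_neg]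
          show -v (2 * k) + (v (2 * k + 1) + v (2 * k + 2)) ≤
            v (2 * k) + v (2 * k + 1) - v (2 * k + 2)
          linarith
        · congr 2
          ring
      · refine key _ _ _ (ptR hT ha hk (((Sg.pos a (2 * k)).cat ((Sg.pos a (2 * k + 1)).cat
          (Sg.neg a (2 * k + 2)) rfl) rfl).cast rfl rfl (by ring) rfl) ?_ ?_
          (le_trans (le_of_eq ?_) g)) hJ1 Y4 (Y1.trans Y2) hB
        · rw [eval_add, eval_add, eval_neg]
          show -v (2 * k) + v (2 * k + 1) + v (2 * k + 2) ≤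
            v (2 * k) + (v (2 * k + 1) + -v (2 * k + 2))
          linarith
        · rw [eval_add, eval_add, eval_neg]
          show v (2 * k) + (v (2 * k + 1) + -v (2 * k + 2)) ≤
            v (2 * k) + v (2 * k + 1) - v (2 * k + 2)
          linarith
        · congr 2
          ring

end Pool.Agent.TSR
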