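import Pool.Agent.TSM.Asm

set_option autoImplicit false

/-!
# The induction over trees with restricted kinds of vertices (MP_d27362_co)

The kind of a vertex of a reduced rooted tree is: is there a leaf, is there a two-vertex path, how
many other branches. `OKq q b`: all vertices of `b` have a kind in `q`. `asm_q` is the assembly for
such trees, `asm_three` the corollary for all trees of maximum degree at most three.
-/

namespace Pool.Agent.TSM

open Finset Polynomial
open Pool.Agent.TSP
open Pool.Agent.TSO
open Pool.Agent.TSR (OBr Ker Br Red Cn2 leafB twoB sg_true sg_false vS_rev GoodBr rm red)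
open Pool.Agent.TLT (sg)
open Pool.Agent.TFin (RT ch IsVal)

noncomputable section

open Classical in
/-- all vertices of the rooted tree have a kind in `q` -/
inductive OKq (q : Bool → Bool → ℕ → Prop) : Br → Prop
  | mk (b : Br) (h : ∀ c ∈ b.kids, OKq q c)
    (hq : q (decide (leafB ∈ b.kids)) (decide (twoB ∈ b.kids))
      ((b.kids.filter fun c => !decide (c = leafB)).filter fun c => !decide (c = twoB)).length) :
    OKq q b

open Classical in
/-- The induction over reduced rooted trees with kinds in `q`. -/
theorem closure_induct_q (q : Bool → Bool → ℕ → Prop) (P : OBr → Prop)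
    (hP : ∀ O O' : OBr, (∀ (m : ℕ) (S : Fin m → Fin m → ℝ), O.vS S = O'.vS S) → P O → P O')
    (step : ∀ (lf tw : Bool) (L : List OBr), q lf tw L.length → (∀ O ∈ L, P O) →
      (tw = true ∨ L ≠ []) →
      ∃ l : List (Bool × OBr), P (OBr.mk l) ∧ l.map (fun p => p.2.forget) =
        (if lf = true then [leafB] else []) ++ ((if tw = true then [twoB] else []) ++
          L.map OBr.forget))
    (b : Br) (hb : Red Cn2 b) (hq : OKq q b) :
    b = leafB ∨ b = twoB ∨ ∃ O : OBr, O.forget = b ∧ P O := by
  revert hb hq
  refine Br.induct (P := fun b => Red Cn2 b → OKq q b → b = leafB ∨ b = twoB ∨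
    ∃ O : OBr, O.forget = b ∧ P O) (fun b ih hb hq => ?_) b
  obtain ⟨_, hqk, hq0⟩ := hq
  have hred := TSR.Red_kids hb
  have hpw := TSR.Red_pairwise hb
  set k := b.kids with hk
  -- the three parts of the list of branches
  have h1 : k.filter (fun c => decide (c = leafB)) =
      if decide (leafB ∈ k) = true then [leafB] else [] :=
    TSR.filter_eq_one leafB k (hpw.imp fun h h1 => h (Or.inl h1))
  set k1 := k.filter (fun c => !decide (c = leafB)) with hk1
  have hpw1 : k1.Pairwise fun c d => c = twoB → c ≠ d :=
    (hpw.filter _).imp fun h h1 => h (Or.inr h1)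
  have h2 : k1.filter (fun c => decide (c = twoB)) =
      if decide (twoB ∈ k1) = true then [twoB] else [] := TSR.filter_eq_one twoB k1 hpw1
  set k2 := k1.filter (fun c => !decide (c = twoB)) with hk2
  have hperm : ((if decide (leafB ∈ k) = true then [leafB] else []) ++
      ((if decide (twoB ∈ k1) = true then [twoB] else []) ++ k2)).Perm k := by
    rw [← h1, ← h2]
    exact ((TSR.filter_perm _ k1).append_left _).trans (TSR.filter_perm _ k)
  have htw : decide (twoB ∈ k) = decide (twoB ∈ k1) := by
    have : twoB ∈ k ↔ twoB ∈ k1 := by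
      rw [hk1, List.mem_filter]
      constructor
      · intro h
        refine ⟨h, ?_⟩
        simp
      · exact fun h => h.1
    simp only [this]
  -- orientations of the other branches
  have h3 : ∀ c ∈ k2, ∃ O : OBr, O.forget = c ∧ P O := by
    intro c hc
    rw [hk2, List.mem_filter] at hc
    have hc1 := hc.1
    rw [hk1, List.mem_filter] at hc1
    rcases ih c hc1.1 (hred c hc1.1) (hqk c hc1.1) with h | h | h
    · have := hc1.2
      simp [h] at this
    · have := hc.2
      simp [h] at this
    · exact h
  have h4 : ∃ L : List OBr, L.map OBr.forget = k2 ∧ ∀ O ∈ L, P O := by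
    clear_value k2
    clear hperm hk2 hq0
    induction k2 with
    | nil => exact ⟨[], rfl, by simp⟩
    | cons c l ih2 =>
      obtain ⟨O, hO1, hO2⟩ := h3 c (by simp)
      obtain ⟨L, hL1, hL2⟩ := ih2 fun d hd => h3 d (List.mem_cons_of_mem _ hd)
      refine ⟨O :: L, by rw [List.map_cons, hO1, hL1], ?_⟩
      intro Q hQ
      rw [List.mem_cons] at hQ
      rcases hQ with rfl | hQ
      · exact hO2
      · exact hL2 Q hQ
  obtain ⟨L, hL1, hL2⟩ := h4
  have hlen : L.length = k2.length := by rw [← hL1, List.length_map]
  by_cases hcase : decide (twoB ∈ k1) = true ∨ L ≠ []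
  · obtain ⟨l, hl1, hl2⟩ := step (decide (leafB ∈ k)) (decide (twoB ∈ k1)) L
      (by rw [hlen, ← htw]; exact hq0) hL2 hcase
    rw [hL1] at hl2
    obtain ⟨l', h5, h6⟩ := TSR.exists_perm_map (fun p : Bool × OBr => p.2.forget) hperm l hl2
    right; right
    refine ⟨OBr.mk l', ?_, hP _ _ (fun m S => (TSR.vS_perm S h5).symm) hl1⟩
    rw [OBr.forget_mk, h6, hk, Br.mk_kids]
  · push Not at hcase
    have hL : L = [] := hcase.2
    rw [hL, List.map_nil] at hL1
    rw [← hL1, if_neg hcase.1, List.nil_append, List.append_nil] at hperm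
    split_ifs at hperm with h
    · right; left
      have h7 : k = [leafB] := (List.singleton_perm.mp hperm).symm ▸ rfl
      rw [← Br.mk_kids b, ← hk, h7]
      rfl
    · left
      have h7 : k = [] := (List.nil_perm.mp hperm)
      rw [← Br.mk_kids b, ← hk, h7]
      rfl

/-- The induction in terms of families, for reduced rooted trees with kinds in `q`. -/
theorem closure_fam_q (q : Bool → Bool → ℕ → Prop) (P : OBr → Prop)
    (step : ∀ (lf tw : Bool) (L : List OBr), q lf tw L.length → (∀ O ∈ L, P O) →
      (tw = true ∨ L ≠ []) →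
      ∃ σ e : Fin (items lf tw L).length → Bool, P (fam σ e (items lf tw L).get))
    (fin : ∀ O, P O → ∀ (m : ℕ) (S : Fin m → Fin m → ℝ), Ker S → mn (O.vS S) ≤ 1)
    (b : Br) (hb : Red Cn2 b) (hq : OKq q b) : GoodBr b := by
  refine TSR.goodBr_of_fin ?_
  have key := closure_induct_q q (fun O => ∃ O', SameV O O' ∧ P O')
    (fun O O' h ⟨O'', h1, h2⟩ => ⟨O'', (SameV.symm h).trans h1, h2⟩)
    (fun lf tw L hqL hL hne => ?_) b hb hq
  · rcases key with rfl | rfl | ⟨O, hO, O', h1, h2⟩
    · refine ⟨.nil, rfl, fun m S hS => ?_⟩
      have e1 : (OBr.nil.vS S) = fun _ : Fin m => (1 : ℝ) := rfl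
      rw [e1, TSO.ip_one, TSO.mn_const hS.pos]
    · refine ⟨.cons true .nil .nil, rfl, fun m S hS => ?_⟩
      rw [TSR.vS_path hS, TSO.ip_one, TSO.mn_add, TSO.mn_const hS.pos, TSO.mn_mul,
        TSR.mn_beta0 hS]
      simp
    · exact ⟨O, hO, fun m S hS => by rw [h1 m S, TSO.ip_one]; exact fin O' h2 m S hS⟩
  · -- choose the representatives
    have hch : ∀ L : List OBr, (∀ O ∈ L, ∃ O', SameV O O' ∧ P O') →
        ∃ L' : List OBr, (∀ O ∈ L', P O) ∧ List.Forall₂ SameV L L' := by
      intro L hL
      induction L with
      | nil => exact ⟨[], by simp, List.Forall₂.nil⟩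
      | cons O L ih =>
        obtain ⟨O', h1, h2⟩ := hL O (by simp)
        obtain ⟨L', h3, h4⟩ := ih fun Q hQ => hL Q (List.mem_cons_of_mem _ hQ)
        refine ⟨O' :: L', ?_, List.Forall₂.cons h1 h4⟩
        intro Q hQ
        rw [List.mem_cons] at hQ
        rcases hQ with rfl | hQ
        · exact h2
        · exact h3 Q hQ
    obtain ⟨L', hL', hF⟩ := hch L hL
    have hlen : L.length = L'.length := hF.length_eq
    have hne' : tw = true ∨ L' ≠ [] := by
      rcases hne with h | h
      · exact Or.inl h
      · right
        intro h0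
        rw [h0, List.length_nil] at hlen
        exact h (List.length_eq_zero_iff.1 hlen)
    obtain ⟨σ, e, hP⟩ := step lf tw L' (hlen ▸ hqL) hL' hne'
    have hI : List.Forall₂ SameV (items lf tw L) (items lf tw L') := by
      unfold items
      refine List.rel_append ?_ (List.rel_append ?_ hF)
      · cases lf
        · exact List.Forall₂.nil
        · exact List.Forall₂.cons (SameV.refl _) List.Forall₂.nil
      · cases tw
        · exact List.Forall₂.nil
        · exact List.Forall₂.cons (SameV.refl _) List.Forall₂.nil
    have hl : (items lf tw L).length = (items lf tw L').length := hI.length_eq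
    refine ⟨List.ofFn fun i : Fin (items lf tw L).length =>
      cn (σ (Fin.cast hl i)) (e (Fin.cast hl i)) ((items lf tw L).get i), ?_, ?_⟩
    · refine ⟨fam σ e (items lf tw L').get, ?_, hP⟩
      have h1 : SameV (fam (fun i => σ (Fin.cast hl i)) (fun i => e (Fin.cast hl i))
          (items lf tw L).get) (fam σ e (items lf tw L').get) := by
        have h2 : SameV (fam (fun i => σ (Fin.cast hl i)) (fun i => e (Fin.cast hl i))
            (items lf tw L).get) (fam (fun i => σ (Fin.cast hl i)) (fun i => e (Fin.cast hl i))
            (fun i => (items lf tw L').get (Fin.cast hl i))) := by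
          refine SameV.fam (fun i => ?_) _ _
          exact hI.get i.2 (Fin.cast hl i).2
        refine h2.trans ?_
        intro m S
        rw [fam_vS, fam_vS]
        funext z
        exact (finCongr hl).prod_comp (fun i => ms S (cn (σ i) (e i) ((items lf tw L').get i)) z)
      exact h1
    · rw [List.map_ofFn]
      have h3 : ((fun p : Bool × OBr => p.2.forget) ∘ fun i : Fin (items lf tw L).length =>
          cn (σ (Fin.cast hl i)) (e (Fin.cast hl i)) ((items lf tw L).get i)) =
          fun i => ((items lf tw L).get i).forget := by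
        funext i
        exact cn_forget _ _ _
      rw [h3]
      have h4 : (List.ofFn fun i => ((items lf tw L).get i).forget) =
          (items lf tw L).map OBr.forget := by
        have h5 : (List.ofFn fun i => ((items lf tw L).get i).forget) =
            (List.ofFn (items lf tw L).get).map OBr.forget := by
          rw [List.map_ofFn]; rfl
        rw [h5, List.ofFn_get]
      rw [h4]
      unfold items
      rw [List.map_append, List.map_append]
      congr 1
      · cases lf <;> rfl
      · congr 1
        cases tw <;> rfl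

variable {Y : Sys} {Adm : ℕ → ℝ → ℝ → ℝ → ℝ → Prop} {V P : ℝ → ℝ → Sn → ℝ}

/-- **Assembly for reduced rooted trees with kinds in `q`** -/
theorem asm_q (q : Bool → Bool → ℕ → Prop) (C : Cert Y Adm V P)
    (big : ∀ (lf tw : Bool) (L : List OBr), q lf tw L.length → 2 ≤ L.length →
      3 ≤ (items lf tw L).length → (∀ O ∈ L, PO Y Adm V P O) →
      ∃ σ e : Fin (items lf tw L).length → Bool, PO Y Adm V P (fam σ e (items lf tw L).get))
    (b : Br) (hb : Red Cn2 b) (hq : OKq q b) : GoodBr b := by
  refine closure_fam_q q (PO Y Adm V P) ?_ ?_ b hb hq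
  · intro lf tw L hqL hL hne
    match L, hL, hqL with
    | [], _, _ =>
      cases tw
      · exact absurd hne (by simp)
      · cases lf
        · exact items_P (step_root1 C)
        · exact items_LP (step_root0 C)
    | [O], hL, _ =>
      have hO := hL O (by simp)
      cases lf <;> cases tw
      · exact items_B O (step_un C hO)
      · exact items_PB O (step_pc C hO)
      · exact items_LB O (step_lc C hO)
      · exact items_LPB O (step_lpc C hO)
    | [O1, O2], hL, hqL =>
      by_cases hb : lf = false ∧ tw = false
      · obtain ⟨rfl, rfl⟩ := hb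
        exact items_BB O1 O2 (step_cc C (hL O1 (by simp)) (hL O2 (by simp)))
      · refine big lf tw [O1, O2] hqL (by simp) ?_ hL
        unfold items
        cases lf <;> cases tw <;> simp at hb ⊢
    | O1 :: O2 :: O3 :: L', hL, hqL =>
      refine big lf tw _ hqL (by simp) ?_ hL
      unfold items
      simp only [List.length_append, List.length_cons]
      omega
  · rintro O ⟨ty, _, hI, hA, hG⟩
    exact Y.fin hG fun D a ha => C.pos (chd ty O) (chd_ok ty hI) hA D a ha

lemma items_length (lf tw : Bool) (L : List OBr) :
    (items lf tw L).length = lf.toNat + tw.toNat + L.length := by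
  unfold items
  rw [List.length_append, List.length_append]
  cases lf <;> cases tw <;> simp <;> omega

/-- it is enough to treat the reduced tree -/
theorem good_of_red_one (b : Br) (h : GoodBr (red Cn2 b)) : GoodBr b := by
  obtain ⟨O', hO', h1⟩ := h
  obtain ⟨O, hO, h2⟩ := TSR.unred (Cn := Cn2) (fun p hp => by
    rcases hp with rfl | rfl
    · exact TSR.good_leafB
    · exact TSR.good_twoB) b O' hO'
  exact ⟨O, hO, fun W _ _ K hK => (TSR.av_mono' (h2 W K hK)).trans (h1 W K hK)⟩

/-! ### At most two branches at every vertex -/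

/-- at most two branches at every vertex -/
def B2 : Br → Prop
  | .nil => True
  | .cons c t => B2 c ∧ B2 t ∧ t.kids.length ≤ 1

lemma B2.len {b : Br} (h : B2 b) : b.kids.length ≤ 2 := by
  cases b with
  | nil => simp
  | cons c t =>
    have := h.2.2
    rw [Br.kids_cons, List.length_cons]
    omega

lemma B2.kid {b : Br} (h : B2 b) : ∀ c ∈ b.kids, B2 c := by
  induction b with
  | nil => intro c hc; simp at hc
  | cons d t _ ih =>
    intro c hc
    rw [Br.kids_cons, List.mem_cons] at hc
    rcases hc with rfl | hc
    · exact h.1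
    · exact ih h.2.1 c hc

lemma B2_mk {l : List Br} (h : ∀ c ∈ l, B2 c) (hl : l.length ≤ 2) : B2 (Br.mk l) := by
  induction l with
  | nil => exact trivial
  | cons c l ih =>
    rw [Br.mk_cons]
    rw [List.length_cons] at hl
    refine ⟨h c (by simp), ih (fun d hd => h d (List.mem_cons_of_mem _ hd)) (by omega), ?_⟩
    rw [Br.kids_mk]
    omega

lemma rm_len (p t : Br) : (rm p t).kids.length ≤ t.kids.length := by
  induction t with
  | nil => exact le_rfl
  | cons d t _ ih =>
    unfold rm
    split_ifs
    · rw [Br.kids_cons, List.length_cons]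
      omega
    · rw [Br.kids_cons, Br.kids_cons, List.length_cons, List.length_cons]
      omega

lemma rm_B2 (p : Br) {t : Br} (h : B2 t) : B2 (rm p t) := by
  induction t with
  | nil => exact h
  | cons d t _ ih =>
    unfold rm
    split_ifs
    · exact h.2.1
    · exact ⟨h.1, ih h.2.1, (rm_len p t).trans h.2.2⟩

lemma red_len (Cn : Br → Prop) (b : Br) : (red Cn b).kids.length ≤ b.kids.length := by
  induction b with
  | nil => exact le_rfl
  | cons c t _ ih =>
    unfold red
    split_ifs
    · have := rm_len (red Cn c) (red Cn t)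
      rw [Br.kids_cons, List.length_cons]
      omega
    · rw [Br.kids_cons, Br.kids_cons, List.length_cons, List.length_cons]
      omega

lemma red_B2 (Cn : Br → Prop) {b : Br} (h : B2 b) : B2 (red Cn b) := by
  induction b with
  | nil => exact trivial
  | cons c t ih1 ih2 =>
    unfold red
    split_ifs
    · exact rm_B2 _ (ih2 h.2.1)
    · exact ⟨ih1 h.1, ih2 h.2.1, (red_len Cn t).trans h.2.2⟩

open Classical in
/-- the kinds of a reduced rooted tree with at most two branches at every vertex -/
lemma OKq_of_B2 {b : Br} (h : B2 b) :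
    OKq (fun lf tw n => lf.toNat + tw.toNat + n ≤ 2) b := by
  refine Br.induct (P := fun b => B2 b → OKq (fun lf tw n => lf.toNat + tw.toNat + n ≤ 2) b)
    (fun b ih hb => ?_) b h
  refine OKq.mk b (fun c hc => ih c hc (hb.kid c hc)) ?_
  have hlen := hb.len
  set k := b.kids with hk
  have h1 : (decide (leafB ∈ k)).toNat ≤ (k.filter fun c => decide (c = leafB)).length := by
    by_cases h : leafB ∈ k
    · rw [decide_eq_true h]
      have : leafB ∈ k.filter fun c => decide (c = leafB) := by
        rw [List.mem_filter]
        exact ⟨h, by simp⟩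
      exact List.length_pos_of_mem this
    · rw [decide_eq_false h]
      exact Nat.zero_le _
  set k1 := k.filter (fun c => !decide (c = leafB)) with hk1
  have h2 : (decide (twoB ∈ k)).toNat ≤ (k1.filter fun c => decide (c = twoB)).length := by
    by_cases h : twoB ∈ k
    · rw [decide_eq_true h]
      have : twoB ∈ k1.filter fun c => decide (c = twoB) := by
        rw [List.mem_filter, hk1, List.mem_filter]
        exact ⟨⟨h, by simp⟩, by simp⟩
      exact List.length_pos_of_mem this
    · rw [decide_eq_false h]
      exact Nat.zero_le _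
  have h3 := (TSR.filter_perm (fun c => decide (c = leafB)) k).length_eq
  have h4 := (TSR.filter_perm (fun c => decide (c = twoB)) k1).length_eq
  rw [List.length_append] at h3 h4
  show (decide (leafB ∈ k)).toNat + (decide (twoB ∈ k)).toNat +
    (k1.filter fun c => !decide (c = twoB)).length ≤ 2
  rw [← hk1] at h3
  omega

section Graph

variable {Vt : Type} [Fintype Vt] [DecidableEq Vt]

/-- the rooted tree of a graph, at most two children everywhere -/
lemma B2_brV {par : Vt → Vt} {r : Vt} (h : ∀ v, (ch par r v).card ≤ 2) (n : ℕ) (v : Vt) :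
    B2 (TSR.brV par r n v) := by
  induction n generalizing v with
  | zero => exact trivial
  | succ n ih =>
    unfold TSR.brV
    refine B2_mk (fun c hc => ?_) ?_
    · rw [List.mem_map] at hc
      obtain ⟨x, _, rfl⟩ := hc
      exact ih x
    · rw [List.length_map, Finset.length_toList]
      exact h v

end Graph

/-- good rooted trees give good orientations of the graph -/
theorem anti_of_good {Vt : Type} [Fintype Vt] (T : SimpleGraph Vt) (hT : T.IsTree) (r : Vt)
    (Q : Br → Prop) (H : ∀ b, Q b → GoodBr b)
    (hQ : ∀ (_ : DecidableEq Vt) (par : Vt → Vt) (dep : Vt → ℕ), RT par dep r →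
      (∀ u v, T.Adj u v ↔ (u ≠ r ∧ par u = v) ∨ (v ≠ r ∧ par v = u)) →
      ∀ n, Q (TSR.brV par r n r)) : TFin.Twin.AntiSidorenko T := by
  classical
  have : Nonempty Vt := ⟨r⟩
  refine TFin.p_INV.2 Vt T ?_
  obtain ⟨par, dep, hR, hadj, -, h⟩ := TFin.p_CONV Vt T hT r
  refine h ?_
  obtain ⟨D, hD⟩ : ∃ D, ∀ v, dep v ≤ D := ⟨Finset.univ.sup dep, fun v =>
    Finset.le_sup (Finset.mem_univ v)⟩
  obtain ⟨O, hO, h1⟩ := H _ (hQ _ par dep hR hadj (D + 1))
  obtain ⟨o, ho⟩ := TSR.exists_o hR (D + 1) r O hO
  have hsg : ∀ b : Bool, sg b = 1 ∨ sg b = -1 := by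
    intro b
    cases b
    · exact Or.inr rfl
    · exact Or.inl rfl
  refine ⟨fun c => sg (o c), fun c => hsg (o c), ?_⟩
  · intro W _ _ K hK F hF
    rw [TSR.val_obrV hR K o F hF D hD (D + 1) r (by omega), ho]
    exact h1 W K hK

/-- **Assembly for trees of maximum degree at most three** -/
theorem asm_three (C : Cert Y Adm V P) :
    ∀ n : ℕ, ∀ T : SimpleGraph (Fin n), T.IsTree → (∀ v, (T.neighborSet v).ncard ≤ 3) →
      ∃ D : Fin n → Fin n → Prop,
        (∀ u v, T.Adj u v → (D u v ∨ D v u)) ∧
        (∀ u v, D u v → (T.Adj u v ∧ ¬ D v u)) ∧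
        ∀ m : ℕ, ∀ G : Fin m → Fin m → Prop,
          (∀ a, ¬ G a a) →
          (∀ a b, a ≠ b → (G a b ↔ ¬ G b a)) →
          (({f : Fin n → Fin m | ∀ u v, D u v → G (f u) (f v)}.ncard : ℝ) / (m : ℝ) ^ n
            ≤ ((1 : ℝ) / 2) ^ (T.edgeSet.ncard)) := by
  classical
  intro n T hT hdeg
  -- a root with at most one neighbour
  obtain ⟨r, hr⟩ : ∃ r : Fin n, (T.neighborSet r).ncard ≤ 1 := by
    rcases subsingleton_or_nontrivial (Fin n) with hs | hs
    · obtain ⟨r⟩ : Nonempty (Fin n) := hT.1.nonempty
      refine ⟨r, ?_⟩
      have : T.neighborSet r = ∅ := by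
        ext x
        rw [SimpleGraph.mem_neighborSet, Set.mem_empty_iff_false, iff_false]
        intro h
        exact h.ne (Subsingleton.elim _ _)
      rw [this, Set.ncard_empty]
      exact Nat.zero_le _
    · obtain ⟨r, hr⟩ := hT.exists_vert_degree_one_of_nontrivial
      refine ⟨r, ?_⟩
      rw [← SimpleGraph.card_neighborSet_eq_degree] at hr
      rw [Set.ncard_eq_toFinset_card', Set.toFinset_card, hr]
  have hgood : ∀ b, B2 b → GoodBr b := fun b hb => good_of_red_one b
    (asm_q (fun lf tw n => lf.toNat + tw.toNat + n ≤ 2) C (fun lf tw L h1 h2 h3 _ => by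
      exfalso
      rw [items_length] at h3
      omega) _ (TSR.Red_red Cn2 b)
      (OKq_of_B2 (red_B2 Cn2 hb)))
  obtain ⟨D, hD, h1⟩ := anti_of_good T hT r B2 hgood (fun inst par dep hR hadj k => by
    refine B2_brV (fun v => ?_) k r
    have hsub : ∀ c ∈ ch par r v, c ∈ T.neighborSet v := by
      intro c hc
      rw [TSR.mem_ch] at hc
      rw [SimpleGraph.mem_neighborSet, T.adj_comm, hadj]
      exact Or.inl hc
    by_cases hv : v = r
    · have h2 : (ch par r v).card ≤ (T.neighborSet v).ncard := by
        rw [← Set.ncard_coe_finset]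
        exact Set.ncard_le_ncard (fun c hc => hsub c (Finset.mem_coe.1 hc)) (Set.toFinite _)
      rw [hv] at h2 ⊢
      omega
    · have h3 : par v ∉ ch par r v := by
        intro h
        rw [TSR.mem_ch] at h
        have e1 := hR.step v hv
        have e2 := hR.step (par v) h.1
        rw [h.2] at e2
        omega
      have h4 : insert (par v) (ch par r v : Set (Fin n)) ⊆ T.neighborSet v := by
        intro c hc
        rw [Set.mem_insert_iff] at hc
        rcases hc with rfl | hc
        · rw [SimpleGraph.mem_neighborSet, hadj]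
          exact Or.inl ⟨hv, rfl⟩
        · exact hsub c (Finset.mem_coe.1 hc)
      have h5 := Set.ncard_le_ncard h4 (Set.toFinite _)
      rw [Set.ncard_insert_of_notMem (by simpa using h3) (Set.toFinite _),
        Set.ncard_coe_finset] at h5
      have := hdeg v
      omega)
  refine ⟨D, hD.1, hD.2, fun m G hG1 hG2 => ?_⟩
  have := h1 m G ⟨hG1, hG2⟩
  rwa [Fintype.card_fin] at this

end

end Pool.Agent.TSM
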