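import Pool.Agent.TSM.KindF

set_option autoImplicit false

/-!
# Assembly for even kinds and the kind with a leaf and two nontrivial children (MP_d27362_co)
-/

namespace Pool.Agent.TSM

open Finset Polynomial
open Pool.Agent.TSR (OBr)

noncomputable section

variable {Y : Sys} {Adm : ℕ → ℝ → ℝ → ℝ → ℝ → Prop} {V P : ℝ → ℝ → Sn → ℝ}

/-- **Every vertex has odd degree, or degree two, or at most three neighbours which are not
leaves**, from the even kinds and the kind with a leaf and two nontrivial children -/
theorem asm_even_three (C : Cert Y Adm V P) (hL : PoT Y Adm V P true false 2)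
    (hE : ∀ (lf tw : Bool) (m : ℕ), 2 ≤ m → Even (lf.toNat + tw.toNat + m) →
      4 ≤ lf.toNat + tw.toNat + m → PoT Y Adm V P lf tw m) (n : ℕ)
    (T : SimpleGraph (Fin n)) (hT : T.IsTree)
    (h : ∀ v, Odd (T.neighborSet v).ncard ∨ (T.neighborSet v).ncard ≤ 3 ∨ nlN T v ≤ 3) :
    AntiT n T := by
  refine asm_pE (fun a b => a ≤ 2 ∨ b ≤ 2 ∨ Even a) (fun a b a' b' h1 h2 h3 h4 => ?_)
    (fun a b h => Or.inr (Or.inl (h.trans (by norm_num)))) C
    (fun lf tw L h1 h2 h3 hPO => ?_) n T hT fun v => ?_
  · rcases h4 with h4 | h4 | h4
    · exact Or.inl (h1.trans h4)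
    · exact Or.inr (Or.inl (h3.trans h4))
    · exact Or.inr (Or.inr (by rw [Nat.even_iff] at h4 ⊢; omega))
  · rw [items_length] at h3
    obtain ⟨N, hI, hN⟩ := itD_exists lf tw L (PO Y Adm V P) hPO
    obtain ⟨tc, hTc⟩ := famT_exists hN hI.hM
    rcases Nat.even_or_odd (lf.toNat + tw.toNat + L.length) with h4 | h4
    · have h5 : 4 ≤ lf.toNat + tw.toNat + L.length := by
        rw [Nat.even_iff] at h4
        omega
      exact hE lf tw L.length h2 h4 h5 _ _ N tc hI hTc
    · have h5 : tw.toNat + L.length ≤ 2 := by
        rw [Nat.odd_iff] at h4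
        rcases h1 with h1 | h1 | h1
        · omega
        · exact h1
        · rw [Nat.even_iff] at h1
          omega
      have h6 : L.length = 2 := by omega
      have h7 : tw.toNat = 0 := by omega
      have h8 : lf.toNat = 1 := by
        have := Bool.toNat_le lf
        omega
      have h9 : lf = true := by
        cases lf
        · rw [Bool.toNat_false] at h8
          omega
        · rfl
      have h10 : tw = false := by
        cases tw
        · rfl
        · rw [Bool.toNat_true] at h7
          omega
      subst h9
      subst h10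
      rw [h6] at hI
      exact hL _ _ N tc hI hTc
  · rcases h v with h1 | h1 | h1
    · right
      right
      obtain ⟨k, hk⟩ := h1
      rw [hk]
      exact ⟨k, by omega⟩
    · left
      omega
    · right
      left
      omega

end

end Pool.Agent.TSM
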