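import Pool.Agent.TSM.KindH

set_option autoImplicit false

/-!
# Branches in which all vertices have an even number of children (MP_d27362_co)

Such a branch is reduced to a leaf. So only the branches count which have a branch with a vertex
with an odd number of children.
-/

namespace Pool.Agent.TSM

open Finset Polynomial
open Pool.Agent.TSP
open Pool.Agent.TSO
open Pool.Agent.TSR (OBr Ker Br Red Cn2 leafB twoB sg_true sg_false vS_rev GoodBr rm red)

noncomputable section

/-- all vertices have an even number of children -/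
inductive AE : Br → Prop
  | mk (b : Br) (h : ∀ c ∈ b.kids, AE c) (he : Even b.kids.length) : AE b

open Classical in
/-- the number of branches with a branch in which some vertex has an odd number of children -/
def nuB (b : Br) : ℕ := (b.kids.filter fun c => decide (∃ x ∈ c.kids, ¬ AE x)).length

/-- all vertices of the rooted tree are allowed -/
inductive NU (p : ℕ → ℕ → Prop) : Br → Prop
  | mk (b : Br) (h : ∀ c ∈ b.kids, NU p c) (hp : p b.kids.length (nuB b)) : NU p b

lemma nuB_cons_neg {c : Br} (h : ¬ ∃ x ∈ c.kids, ¬ AE x) (t : Br) :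
    nuB (.cons c t) = nuB t := by
  unfold nuB
  rw [Br.kids_cons, List.filter_cons_of_neg (by simpa using h)]

lemma nuB_cons_pos {c : Br} (h : ∃ x ∈ c.kids, ¬ AE x) (t : Br) :
    nuB (.cons c t) = nuB t + 1 := by
  unfold nuB
  rw [Br.kids_cons, List.filter_cons_of_pos (by simpa using h), List.length_cons]

/-- a tree in which all vertices have an even number of children is reduced to one vertex -/
lemma red_AE {b : Br} (h : AE b) : red Cn2 b = leafB := by
  induction h with
  | mk b _ he ih =>
    by_contra h1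
    have h2 : red Cn2 b ≠ twoB := by
      intro h3
      have h4 := red_par Cn2 b
      rw [h3] at h4
      rw [Nat.even_iff] at he
      have h5 : twoB.kids.length = 1 := rfl
      omega
    obtain ⟨x, hx, hx2⟩ := Hi_of_Red (TSR.Red_red Cn2 b) h1 h2
    obtain ⟨d, hd, rfl⟩ := kids_red Cn2 b x hx
    exact hx2 (ih d hd)

lemma not_Hi_red {c : Br} (h : ¬ ∃ x ∈ c.kids, ¬ AE x) : ¬ Hi (red Cn2 c) := by
  rintro ⟨x, hx, hx2⟩
  obtain ⟨d, hd, rfl⟩ := kids_red Cn2 c x hx
  exact h ⟨d, hd, fun h3 => hx2 (red_AE h3)⟩

lemma nhB_red_le (b : Br) : nhB (red Cn2 b) ≤ nuB b := by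
  induction b with
  | nil => exact le_of_eq (by simp [red, nhB, nuB])
  | cons c t _ ih =>
    have h1 : nuB t ≤ nuB (.cons c t) := by
      by_cases h : ∃ x ∈ c.kids, ¬ AE x
      · rw [nuB_cons_pos h]
        omega
      · rw [nuB_cons_neg h]
    unfold red
    split_ifs
    · exact ((nhB_rm _ _).trans ih).trans h1
    · by_cases h : ∃ x ∈ c.kids, ¬ AE x
      · rw [nuB_cons_pos h]
        by_cases h2 : Hi (red Cn2 c)
        · rw [nhB_cons_pos h2]
          omega
        · rw [nhB_cons_neg h2]
          omega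
      · rw [nhB_cons_neg (not_Hi_red h)]
        exact ih.trans h1

lemma NQ_of_NU {p : ℕ → ℕ → Prop} (hm : ParP p) {b : Br} (h : NU p b) :
    NQ p (red Cn2 b) := by
  induction h with
  | mk b _ hp ih =>
    refine NQ.mk _ (fun c hc => ?_)
      (hm _ _ _ _ (red_len Cn2 b) (red_par Cn2 b) (nhB_red_le b) hp)
    obtain ⟨d, hd, rfl⟩ := kids_red Cn2 b c hc
    exact ih d hd

/-- **the kinds of the reduced tree** -/
theorem OKq_of_NU {p : ℕ → ℕ → Prop} (hm : ParP p) {b : Br} (h : NU p b) :
    OKq (fun lf tw n => p (lf.toNat + tw.toNat + n) n) (TSR.red Cn2 b) :=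
  OKq_of_NQ hm (TSR.Red_red Cn2 b) (NQ_of_NU hm h)

end

end Pool.Agent.TSM
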