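import Pool.Agent.TSM.State

set_option autoImplicit false

/-!
# Signs of the states which keep the constants (MP_d27362_co)

The children with `τ = 1` (`x = 1 - X U`) and with `τ = 0` (`x = X U`) are treated separately:
the new `y` is `n - X G` with `n = 1` (odd number of children with `τ = 1`) or `n = 2` (even
positive number), with bounds for the value and the seminorm of `G`.
-/

namespace Pool.Agent.TSR

open Finset Polynomial
open Pool.Agent.TLT (sg)
open Pool.Agent.TDN (dn dn_nonneg dn_zero dn_neg dn_add_le)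

variable {T : ℝ}

/-- balanced signs with a free leftover -/
theorem sigma_odd_abs {ι : Type*} [Fintype ι] [DecidableEq ι] (hT : 0 ≤ T)
    (hodd : Odd (Fintype.card ι)) (p : ι → ℝ[X]) (c : ℝ)
    (h0 : ∀ i, 0 ≤ (p i).eval T) (hc : ∀ i, (p i).eval T ≤ c) :
    ∃ σ : ι → Bool, ∑ i, sg (σ i) = 1 ∧ |(∑ i, sg (σ i) • p i).eval T| ≤ c ∧
      dn T (∑ i, sg (σ i) • p i) ^ 2 ≤ 2 * ∑ i, dn T (p i) ^ 2 := by
  have hne : Nonempty ι := Fintype.card_pos_iff.mp hodd.pos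
  obtain ⟨j, hj⟩ := Finite.exists_min fun i => (p i).eval T
  have hcard : Even (Fintype.card {i // i ≠ j}) := by
    rw [Fintype.card_subtype_compl, Fintype.card_subtype_eq]
    obtain ⟨k, hk⟩ := hodd
    exact ⟨k, by omega⟩
  obtain ⟨σ, h0', h1, h2, h3⟩ := sigma_even hT hcard (fun i : {i // i ≠ j} => p i)
    ((p j).eval T) c (hc j) (fun i => hj i) (fun i => hc i)
  obtain ⟨s, hs⟩ := flip2 hT (∑ i : {i // i ≠ j}, sg (σ i) • p i) (p j)
  set σ' : ι → Bool := fun i => if h : i ≠ j then (σ ⟨i, h⟩ == s) else true with hσ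
  have e0 : ∀ i : {i // i ≠ j}, sg (σ' i) = sg s * sg (σ i) := by
    intro i
    rw [hσ]
    simp only
    rw [dif_pos i.2, sg_beq, mul_comm]
  have e1 : σ' j = true := by
    rw [hσ]
    simp
  have e2 : ∑ i, sg (σ' i) • p i = sg s • (∑ i : {i // i ≠ j}, sg (σ i) • p i) + p j := by
    rw [sum_ne j, e1, sg_tt, one_smul, smul_sum]
    congr 1
    exact sum_congr rfl fun i _ => by rw [e0, smul_smul]
  refine ⟨σ', ?_, ?_, ?_⟩
  · rw [sum_ne j, e1, sg_tt]
    have : ∑ i : {i // i ≠ j}, sg (σ' i) = sg s * ∑ i : {i // i ≠ j}, sg (σ i) := by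
      rw [mul_sum]
      exact sum_congr rfl fun i _ => by rw [e0]
    rw [this, h0', mul_zero, zero_add]
  · rw [e2, eval_add, eval_smul, smul_eq_mul]
    refine (abs_add_le _ _).trans ?_
    rw [abs_mul, sg_abs, one_mul, abs_of_nonneg h1, abs_of_nonneg (h0 j)]
    linarith
  · rw [e2, sum_ne j fun i => dn T (p i) ^ 2]
    have := sq_nonneg (dn T (p j))
    linarith

/-- free signs, any number of polynomials -/
theorem grp {ι : Type*} [Fintype ι] [DecidableEq ι] (hT : 0 ≤ T) (p : ι → ℝ[X]) (c : ℝ)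
    (hc0 : 0 ≤ c) (h0 : ∀ i, 0 ≤ (p i).eval T) (hc : ∀ i, (p i).eval T ≤ c) :
    ∃ σ : ι → Bool, 0 ≤ (∑ i, sg (σ i) • p i).eval T ∧ (∑ i, sg (σ i) • p i).eval T ≤ c ∧
      dn T (∑ i, sg (σ i) • p i) ^ 2 ≤ 2 * ∑ i, dn T (p i) ^ 2 := by
  rcases Nat.even_or_odd (Fintype.card ι) with h | h
  · obtain ⟨σ, _, h1, h2, h3⟩ := sigma_even hT h p 0 c hc0 h0 hc
    exact ⟨σ, h1, by linarith, h3⟩
  · obtain ⟨σ, _, h1, h2⟩ := sigma_odd_abs hT h p c h0 hc
    obtain ⟨e, _, h4, h5, h6⟩ := global_flip (T := T) σ p c h1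
    exact ⟨e, h4, h5, by rw [h6]; exact h2⟩

/-- signs with sum two, even positive number of polynomials -/
theorem sigma_two {ι : Type*} [Fintype ι] [DecidableEq ι] (hT : 0 ≤ T)
    (hev : Even (Fintype.card ι)) (hpos : 0 < Fintype.card ι) (p : ι → ℝ[X]) (c : ℝ)
    (h0 : ∀ i, 0 ≤ (p i).eval T) (hc : ∀ i, (p i).eval T ≤ c) :
    ∃ σ : ι → Bool, ∑ i, sg (σ i) = 2 ∧ 0 ≤ (∑ i, sg (σ i) • p i).eval T ∧
      (∑ i, sg (σ i) • p i).eval T ≤ 2 * c ∧
      (∑ i, sg (σ i) • p i).eval T ^ 2 ≤ 2 * ∑ i, (p i).eval T ^ 2 ∧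
      dn T (∑ i, sg (σ i) • p i) ^ 2 ≤ 4 * ∑ i, dn T (p i) ^ 2 := by
  have hne : Nonempty ι := Fintype.card_pos_iff.mp hpos
  obtain ⟨j, hj⟩ := Finite.exists_min fun i => (p i).eval T
  have hodd : Odd (Fintype.card {i // i ≠ j}) := by
    rw [Fintype.card_subtype_compl, Fintype.card_subtype_eq]
    obtain ⟨k, hk⟩ := hev
    exact ⟨k - 1, by omega⟩
  set S' := ∑ i : {i // i ≠ j}, (p i).eval T ^ 2 with hS'
  have hS0 : 0 ≤ S' := sum_nonneg fun i _ => sq_nonneg _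
  set c' := min c (Real.sqrt S') with hc'
  have hi : ∀ i : {i // i ≠ j}, (p i).eval T ≤ c' := by
    intro i
    rw [hc', le_min_iff]
    refine ⟨hc i, Real.le_sqrt_of_sq_le ?_⟩
    exact single_le_sum (f := fun i : {i // i ≠ j} => (p i).eval T ^ 2)
      (fun i _ => sq_nonneg _) (mem_univ i)
  obtain ⟨σ, h1, h2, h3, h4, _⟩ := sigma_odd_sq hT hodd (fun i : {i // i ≠ j} => p i) c'
    (fun i => h0 i) hi
  set σ' : ι → Bool := fun i => if h : i ≠ j then σ ⟨i, h⟩ else true with hσ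
  have e0 : ∀ i : {i // i ≠ j}, σ' i = σ i := by
    intro i
    rw [hσ]
    simp only
    rw [dif_pos i.2]
  have e1 : σ' j = true := by
    rw [hσ]
    simp
  have e2 : ∑ i, sg (σ' i) • p i = (∑ i : {i // i ≠ j}, sg (σ i) • p i) + p j := by
    rw [sum_ne j, e1, sg_tt, one_smul]
    congr 1
    exact sum_congr rfl fun i _ => by rw [e0]
  have hc1 : c' ≤ c := min_le_left _ _
  have hc2 : c' ^ 2 ≤ S' := by
    have h5 : c' ≤ Real.sqrt S' := min_le_right _ _
    have h6 : 0 ≤ c' := h2.trans h3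
    have := Real.sq_sqrt hS0
    nlinarith [Real.sqrt_nonneg S']
  refine ⟨σ', ?_, ?_, ?_, ?_, ?_⟩
  · rw [sum_ne j, e1, sg_tt]
    have : ∑ i : {i // i ≠ j}, sg (σ' i) = ∑ i : {i // i ≠ j}, sg (σ i) :=
      sum_congr rfl fun i _ => by rw [e0]
    rw [this, h1]; norm_num
  · rw [e2, eval_add]; linarith [h0 j]
  · rw [e2, eval_add]; linarith [hc j]
  · rw [e2, eval_add, sum_ne j fun i => (p i).eval T ^ 2]
    have h7 := h0 j
    nlinarith [sq_nonneg ((∑ i : {i // i ≠ j}, sg (σ i) • p i).eval T - (p j).eval T)]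
  · rw [e2, sum_ne j fun i => dn T (p i) ^ 2]
    have h5 := dn_add_le T hT (∑ i : {i // i ≠ j}, sg (σ i) • p i) (p j)
    have h6 := dn_nonneg T (∑ i : {i // i ≠ j}, sg (σ i) • p i)
    have h7 := dn_nonneg T (p j)
    have h8 := dn_nonneg T (∑ i : {i // i ≠ j}, sg (σ i) • p i + p j)
    nlinarith [sq_nonneg (dn T (∑ i : {i // i ≠ j}, sg (σ i) • p i) - 3 * dn T (p j))]

/-- the splitting of a sum into the two classes -/
lemma sum_cl {ι : Type*} [Fintype ι] {M : Type*} [AddCommMonoid M] (cl : ι → Prop)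
    [DecidablePred cl] (f : ι → M) :
    ∑ i, f i = (∑ i : {i // cl i}, f i) + ∑ i : {i // ¬ cl i}, f i :=
  (Fintype.sum_subtype_add_sum_subtype cl f).symm

section

variable {ι : Type*} [Fintype ι] [DecidableEq ι] (cl : ι → Prop) [DecidablePred cl]

/-- signs given on the two classes -/
def glue (a : {i // cl i} → Bool) (b : {i // ¬ cl i} → Bool) (i : ι) : Bool :=
  if h : cl i then a ⟨i, h⟩ else b ⟨i, h⟩

omit [Fintype ι] [DecidableEq ι] in
lemma glue_pos (a : {i // cl i} → Bool) (b : {i // ¬ cl i} → Bool) (i : {i // cl i}) :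
    glue cl a b i = a i := by
  unfold glue
  rw [dif_pos i.2]

omit [Fintype ι] [DecidableEq ι] in
lemma glue_neg (a : {i // cl i} → Bool) (b : {i // ¬ cl i} → Bool) (i : {i // ¬ cl i}) :
    glue cl a b i = b i := by
  unfold glue
  rw [dif_neg i.2]

omit [DecidableEq ι] in
lemma glue_sum (a : {i // cl i} → Bool) (b : {i // ¬ cl i} → Bool) (p : ι → ℝ[X]) :
    ∑ i, sg (glue cl a b i) • p i =
      (∑ i : {i // cl i}, sg (a i) • p i) + ∑ i : {i // ¬ cl i}, sg (b i) • p i := by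
  rw [sum_cl cl]
  congr 1
  · exact sum_congr rfl fun i _ => by rw [glue_pos]
  · exact sum_congr rfl fun i _ => by rw [glue_neg]

/-- an odd number of members of the class: the sum of their signs is one -/
theorem lab_odd (hT : 0 ≤ T) (hodd : Odd (Fintype.card {i // cl i})) (p : ι → ℝ[X]) (c : ℝ)
    (h0 : ∀ i, 0 ≤ (p i).eval T) (hc : ∀ i, (p i).eval T ≤ c) :
    ∃ e : ι → Bool, ∑ i : {i // cl i}, sg (e i) = 1 ∧
      |(∑ i, sg (e i) • p i).eval T| ≤ c ∧
      (∑ i, sg (e i) • p i).eval T ^ 2 ≤ ∑ i, (p i).eval T ^ 2 ∧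
      dn T (∑ i, sg (e i) • p i) ^ 2 ≤ 4 * ∑ i, dn T (p i) ^ 2 := by
  have hne : Nonempty {i // cl i} := Fintype.card_pos_iff.mp hodd.pos
  set S := ∑ i, (p i).eval T ^ 2 with hS
  have hS0 : 0 ≤ S := sum_nonneg fun i _ => sq_nonneg _
  set c' := min c (Real.sqrt S) with hc'
  have hi : ∀ i, (p i).eval T ≤ c' := by
    intro i
    rw [hc', le_min_iff]
    refine ⟨hc i, Real.le_sqrt_of_sq_le ?_⟩
    exact single_le_sum (f := fun i => (p i).eval T ^ 2) (fun i _ => sq_nonneg _) (mem_univ i)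
  have hc0 : 0 ≤ c' := (h0 hne.some).trans (hi _)
  have hc1 : c' ≤ c := min_le_left _ _
  have hc2 : c' ^ 2 ≤ S := by
    have h5 : c' ≤ Real.sqrt S := min_le_right _ _
    have := Real.sq_sqrt hS0
    nlinarith [Real.sqrt_nonneg S]
  obtain ⟨a, h1, h2, h3⟩ := sigma_odd_abs hT hodd (fun i : {i // cl i} => p i) c'
    (fun i => h0 i) (fun i => hi i)
  obtain ⟨b, h4, h5, h6⟩ := grp hT (fun i : {i // ¬ cl i} => p i) c' hc0
    (fun i => h0 i) (fun i => hi i)
  set P := ∑ i : {i // cl i}, sg (a i) • p i with hP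
  -- the relative sign
  obtain ⟨b', hb'1, hb'2⟩ : ∃ b' : {i // ¬ cl i} → Bool,
      |P.eval T + (∑ i, sg (b' i) • p i).eval T| ≤ c' ∧
      dn T (∑ i, sg (b' i) • p i) = dn T (∑ i, sg (b i) • p i) := by
    rw [abs_le] at h2
    rcases le_total 0 (P.eval T) with h | h
    · refine ⟨fun i => !(b i), ?_, ?_⟩
      · rw [sum_flip, eval_neg, abs_le]
        constructor <;> linarith
      · rw [sum_flip, dn_neg]
    · refine ⟨b, ?_, rfl⟩
      rw [abs_le]
      constructor <;> linarith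
  have h7 := sum_cl cl fun i => dn T (p i) ^ 2
  set S1 := ∑ i : {i // cl i}, dn T (p i) ^ 2 with hS1
  set S2 := ∑ i : {i // ¬ cl i}, dn T (p i) ^ 2 with hS2
  refine ⟨glue cl a b', ?_, ?_, ?_, ?_⟩
  · rw [← h1]
    exact sum_congr rfl fun i _ => by rw [glue_pos]
  · rw [glue_sum, eval_add]
    exact hb'1.trans hc1
  · rw [glue_sum, eval_add]
    rw [← sq_abs]
    have := abs_nonneg (P.eval T + (∑ i, sg (b' i) • p i).eval T)
    nlinarith
  · rw [glue_sum, h7]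
    have h8 := dn_add_le T hT P (∑ i, sg (b' i) • p i)
    rw [hb'2] at h8
    have h9 := dn_nonneg T P
    have h10 := dn_nonneg T (∑ i, sg (b i) • p i)
    have h11 := dn_nonneg T (P + ∑ i, sg (b' i) • p i)
    nlinarith [sq_nonneg (dn T P - dn T (∑ i, sg (b i) • p i))]

/-- an even positive number of members of the class: the sum of their signs is two -/
theorem lab_even (hT : 0 ≤ T) (hev : Even (Fintype.card {i // cl i}))
    (hpos : 0 < Fintype.card {i // cl i}) (p : ι → ℝ[X]) (c : ℝ)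
    (h0 : ∀ i, 0 ≤ (p i).eval T) (hc : ∀ i, (p i).eval T ≤ c) :
    ∃ e : ι → Bool, ∑ i : {i // cl i}, sg (e i) = 2 ∧
      0 ≤ (∑ i, sg (e i) • p i).eval T ∧ (∑ i, sg (e i) • p i).eval T ≤ 2 * c ∧
      (∑ i, sg (e i) • p i).eval T ^ 2 ≤ 3 * ∑ i, (p i).eval T ^ 2 ∧
      dn T (∑ i, sg (e i) • p i) ^ 2 ≤ 6 * ∑ i, dn T (p i) ^ 2 := by
  have hne : Nonempty {i // cl i} := Fintype.card_pos_iff.mp hpos
  obtain ⟨a, h1, h2, h3, h3', h3''⟩ := sigma_two hT hev hpos (fun i : {i // cl i} => p i) c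
    (fun i => h0 i) (fun i => hc i)
  have hcc : 0 ≤ c := (h0 hne.some).trans (hc _)
  have h12 := sum_cl cl fun i => (p i).eval T ^ 2
  set R1 := ∑ i : {i // cl i}, (p i).eval T ^ 2 with hR1
  set R2 := ∑ i : {i // ¬ cl i}, (p i).eval T ^ 2 with hR2
  have hR0 : 0 ≤ R2 := sum_nonneg fun i _ => sq_nonneg _
  have hR10 : 0 ≤ R1 := sum_nonneg fun i _ => sq_nonneg _
  set c' := min c (Real.sqrt R2) with hc'
  have hi : ∀ i : {i // ¬ cl i}, (p i).eval T ≤ c' := by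
    intro i
    rw [hc', le_min_iff]
    refine ⟨hc i, Real.le_sqrt_of_sq_le ?_⟩
    exact single_le_sum (f := fun i : {i // ¬ cl i} => (p i).eval T ^ 2)
      (fun i _ => sq_nonneg _) (mem_univ i)
  have hc0 : 0 ≤ c' := le_min hcc (Real.sqrt_nonneg _)
  have hc1 : c' ≤ c := min_le_left _ _
  have hc2 : c' ^ 2 ≤ R2 := by
    have h5 : c' ≤ Real.sqrt R2 := min_le_right _ _
    have := Real.sq_sqrt hR0
    nlinarith [Real.sqrt_nonneg R2]
  obtain ⟨b, h4, h5, h6⟩ := grp hT (fun i : {i // ¬ cl i} => p i) c' hc0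
    (fun i => h0 i) (fun i => hi i)
  set P := ∑ i : {i // cl i}, sg (a i) • p i with hP
  set Q := ∑ i : {i // ¬ cl i}, sg (b i) • p i with hQ
  obtain ⟨b', hb'1, hb'2, hb'3, hb'4⟩ : ∃ b' : {i // ¬ cl i} → Bool,
      0 ≤ P.eval T + (∑ i, sg (b' i) • p i).eval T ∧
      P.eval T + (∑ i, sg (b' i) • p i).eval T ≤ 2 * c ∧
      (P.eval T + (∑ i, sg (b' i) • p i).eval T) ^ 2 ≤ 3 * (R1 + R2) ∧
      dn T (∑ i, sg (b' i) • p i) = dn T Q := by
    rcases le_total (Q.eval T) (P.eval T) with h | h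
    · refine ⟨fun i => !(b i), ?_, ?_, ?_, ?_⟩
      · rw [sum_flip, eval_neg]; linarith
      · rw [sum_flip, eval_neg]; linarith
      · rw [sum_flip, eval_neg]
        nlinarith
      · rw [sum_flip, dn_neg]
    · refine ⟨b, by linarith, by linarith, ?_, rfl⟩
      nlinarith [sq_nonneg (P.eval T - 2 * Q.eval T)]
  have h7 := sum_cl cl fun i => dn T (p i) ^ 2
  set S1 := ∑ i : {i // cl i}, dn T (p i) ^ 2 with hS1
  set S2 := ∑ i : {i // ¬ cl i}, dn T (p i) ^ 2 with hS2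
  refine ⟨glue cl a b', ?_, ?_, ?_, ?_, ?_⟩
  · rw [← h1]
    exact sum_congr rfl fun i _ => by rw [glue_pos]
  · rw [glue_sum, eval_add]
    exact hb'1
  · rw [glue_sum, eval_add]
    exact hb'2
  · rw [glue_sum, eval_add, h12]
    exact hb'3
  · rw [glue_sum, h7]
    have h8 := dn_add_le T hT P (∑ i, sg (b' i) • p i)
    rw [hb'4] at h8
    have h9 := dn_nonneg T P
    have h10 := dn_nonneg T Q
    have h11 := dn_nonneg T (P + ∑ i, sg (b' i) • p i)
    nlinarith [sq_nonneg (dn T P - 2 * dn T Q)]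

end

end Pool.Agent.TSR

namespace Pool.Agent.TSM

open Finset Polynomial
open Pool.Agent.TSR (OBr lab_odd lab_even sum_cl)
open Pool.Agent.TLT (sg)
open Pool.Agent.TDN (dn dn_nonneg)

noncomputable section

lemma inv_nil : Inv .nil := by
  refine ⟨Or.inl ?_, ?_, ?_, ?_, ?_⟩
  · simp
  all_goals
    first
      | (unfold vU; simp)
      | (unfold vY; simp)

lemma inv_two : Inv two := by
  refine ⟨Or.inr tau_two, ?_, ?_, ?_, ?_⟩
  all_goals
    first
      | (unfold vU; simp)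
      | (unfold vY; simp)

/-- the number of children with `τ = 1` -/
def n1 {K : ℕ} (O : Fin K → OBr) : ℕ := (univ.filter fun i => tau (O i) = 1).card

open Classical in
lemma n1_eq {K : ℕ} (O : Fin K → OBr) : n1 O = Fintype.card {i // tau (O i) = 1} := by
  unfold n1
  rw [Fintype.card_subtype]

/-- the combination of the `U` -/
def gU {K : ℕ} (e : Fin K → Bool) (O : Fin K → OBr) : ℝ[X] := ∑ i, sg (e i) • UU (O i)

open Classical in
lemma YY_lab {K : ℕ} (σ e : Fin K → Bool) (O : Fin K → OBr) (h : ∀ i, Inv (O i)) :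
    YY (fam σ e O) = C (∑ i : {i // tau (O i) = 1}, sg (e i)) - X * gU e O := by
  have h1 : ∀ i, sg (e i) • XX (O i) = C (sg (e i) * tau (O i)) - X * (sg (e i) • UU (O i)) := by
    intro i
    unfold XX
    rw [smul_sub, smul_eq_C_mul, ← C_mul, mul_smul_comm]
  rw [fam_YY, sum_congr rfl fun i _ => h1 i, sum_sub_distrib, ← mul_sum, ← map_sum]
  congr 2
  rw [sum_cl fun i => tau (O i) = 1]
  have h2 : ∑ i : {i // ¬ tau (O i) = 1}, sg (e i) * tau (O i) = 0 := by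
    refine sum_eq_zero fun i _ => ?_
    rcases (h i).1 with h3 | h3
    · rw [h3, mul_zero]
    · exact absurd h3 i.2
  rw [h2, add_zero]
  exact sum_congr rfl fun i _ => by rw [i.2, mul_one]

lemma gU_dn_le {K : ℕ} (e : Fin K → Bool) (O : Fin K → OBr) :
    dn q0 (gU e O) ≤ ∑ i, aU (O i) := by
  unfold gU
  refine (TDN.dn_sum_le q0 q0_pos.le _ _).trans (sum_le_sum fun i _ => le_of_eq ?_)
  have h1 : dn q0 (sg (e i) • UU (O i)) ^ 2 = dn q0 (UU (O i)) ^ 2 := TSR.dn_sg q0_pos.le _ _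
  have h2 := abs_eq_abs.mpr (sq_eq_sq_iff_eq_or_eq_neg.mp h1)
  rwa [abs_of_nonneg (dn_nonneg _ _), abs_of_nonneg (dn_nonneg _ _)] at h2

/-- **signs with constant one** -/
theorem e_lab1 {K : ℕ} (O : Fin K → OBr) (h : ∀ i, Inv (O i)) (hc : Odd (n1 O)) :
    ∃ e : Fin K → Bool, (∀ σ, YY (fam σ e O) = 1 - X * gU e O) ∧
      |(gU e O).eval q0| ≤ 2 ∧ (gU e O).eval q0 ^ 2 ≤ ∑ i, vU (O i) ^ 2 ∧
      dn q0 (gU e O) ^ 2 ≤ 4 * ∑ i, aU (O i) ^ 2 := by
  classical
  obtain ⟨e, h1, h2, h3, h4⟩ := lab_odd (T := q0) (fun i => tau (O i) = 1) q0_pos.le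
    (by
      have := n1_eq O
      convert hc using 1
      rw [this]) (fun i => UU (O i)) 2 (fun i => (h i).2.1) (fun i => (h i).2.2.1)
  refine ⟨e, fun σ => ?_, h2, h3, h4⟩
  rw [YY_lab σ e O h]
  congr 1
  rw [← C_1]
  congr 1

/-- **signs with constant two** -/
theorem e_lab2 {K : ℕ} (O : Fin K → OBr) (h : ∀ i, Inv (O i)) (hc : Even (n1 O))
    (hc0 : 0 < n1 O) :
    ∃ e : Fin K → Bool, (∀ σ, YY (fam σ e O) = C 2 - X * gU e O) ∧
      0 ≤ (gU e O).eval q0 ∧ (gU e O).eval q0 ≤ 4 ∧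
      (gU e O).eval q0 ^ 2 ≤ 3 * ∑ i, vU (O i) ^ 2 ∧
      dn q0 (gU e O) ^ 2 ≤ 6 * ∑ i, aU (O i) ^ 2 := by
  classical
  have hn := n1_eq O
  obtain ⟨e, h1, h2, h3, h4, h5⟩ := lab_even (T := q0) (fun i => tau (O i) = 1) q0_pos.le
    (by
      convert hc using 1
      rw [hn])
    (by
      convert hc0 using 1
      rw [hn]) (fun i => UU (O i)) 2 (fun i => (h i).2.1) (fun i => (h i).2.2.1)
  refine ⟨e, fun σ => ?_, h2, ?_, h4, h5⟩
  · rw [YY_lab σ e O h]
    congr 2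
  · refine h3.trans (by norm_num)

end

end Pool.Agent.TSM
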