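import Pool.Agent.TSM.Lab

set_option autoImplicit false

/-!
# Label-keeping signs with the factor two (MP_d27362_co)

Class `cl` has an odd number of members. Either the smallest member of the class is left over and
both classes are paired from the top, or the largest member of the class is tied to the largest
member of the complement and both classes are paired from the second on. The two total spreads
add up to twice the maximum, so for one of the two arrangements all flips are free.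
-/

namespace Pool.Agent.TSR

open Finset Polynomial
open Pool.Agent.TLT (sg)
open Pool.Agent.TDN (dn dn_nonneg dn_zero dn_neg dn_add_le dn_parallelogram)

variable {T : ℝ}

/-- the sum of the differences inside the pairs -/
noncomputable def spr (T : ℝ) (p : ℕ → ℝ[X]) (n : ℕ) : ℝ :=
  ∑ j ∈ range n, ((p (2 * j)).eval T - (p (2 * j + 1)).eval T)

lemma spr_succ (p : ℕ → ℝ[X]) (n : ℕ) :
    spr T p (n + 1) = spr T p n + ((p (2 * n)).eval T - (p (2 * n + 1)).eval T) := by
  unfold spr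
  rw [sum_range_succ]

lemma spr_shift (p : ℕ → ℝ[X]) (n : ℕ) :
    spr T p n + spr T (fun i => p (i + 1)) n = (p 0).eval T - (p (2 * n)).eval T := by
  induction n with
  | zero => simp [spr]
  | succ n ih =>
    rw [spr_succ, spr_succ]
    have h : 2 * (n + 1) = 2 * n + 1 + 1 := by ring
    rw [h]
    linarith

/-- a sign in front -/
def cons1 (a : Bool) (s : ℕ → Bool) : ℕ → Bool
  | 0 => a
  | (i + 1) => s i

/-- a sign behind the first `n` signs -/
def snoc1 (n : ℕ) (s : ℕ → Bool) (i : ℕ) : Bool := if i < n then s i else true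

lemma ss_cons1 (a : Bool) (s : ℕ → Bool) (p : ℕ → ℝ[X]) (n : ℕ) :
    ss (cons1 a s) p (n + 1) = sg a • p 0 + ss s (fun i => p (i + 1)) n := by
  unfold ss
  rw [sum_range_succ', add_comm]
  rfl

lemma ss_snoc1 (s : ℕ → Bool) (p : ℕ → ℝ[X]) (n : ℕ) :
    ss (snoc1 n s) p (n + 1) = ss s p n + p n := by
  unfold ss
  rw [sum_range_succ]
  congr 1
  · refine sum_congr rfl fun i hi => ?_
    unfold snoc1
    rw [if_pos (mem_range.mp hi)]
  · unfold snoc1
    rw [if_neg (lt_irrefl _), sg_tt, one_smul]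

lemma sg_cons1 (a : Bool) (s : ℕ → Bool) (n : ℕ) :
    ∑ i ∈ range (n + 1), sg (cons1 a s i) = sg a + ∑ i ∈ range n, sg (s i) := by
  rw [sum_range_succ', add_comm]
  rfl

lemma sg_snoc1 (s : ℕ → Bool) (n : ℕ) :
    ∑ i ∈ range (n + 1), sg (snoc1 n s i) = ∑ i ∈ range n, sg (s i) + 1 := by
  rw [sum_range_succ]
  congr 1
  · refine sum_congr rfl fun i hi => ?_
    unfold snoc1
    rw [if_pos (mem_range.mp hi)]
  · unfold snoc1
    rw [if_neg (lt_irrefl _), sg_tt]

lemma ss_beq (s : ℕ → Bool) (b : Bool) (p : ℕ → ℝ[X]) (n : ℕ) :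
    ss (fun i => s i == b) p n = sg b • ss s p n := by
  unfold ss
  rw [smul_sum]
  refine sum_congr rfl fun i _ => ?_
  rw [sg_beq, smul_smul, mul_comm]

lemma sg_sum_beq (s : ℕ → Bool) (b : Bool) (n : ℕ) (h : ∑ i ∈ range n, sg (s i) = 0) :
    ∑ i ∈ range n, sg (s i == b) = 0 := by
  have : ∑ i ∈ range n, sg (s i == b) = sg b * ∑ i ∈ range n, sg (s i) := by
    rw [mul_sum]
    refine sum_congr rfl fun i _ => ?_
    rw [sg_beq, mul_comm]
  rw [this, h, mul_zero]

lemma dn_sub_sq_le (hT : 0 ≤ T) (p q : ℝ[X]) :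
    dn T (p - q) ^ 2 ≤ 2 * (dn T p ^ 2 + dn T q ^ 2) := by
  have := dn_parallelogram T hT p q
  nlinarith [sq_nonneg (dn T (p + q))]

/-- pairs of a decreasing sequence, with the exact spread -/
theorem pairs_spr (hT : 0 ≤ T) (p : ℕ → ℝ[X]) (ha : Antitone fun i => (p i).eval T) (n : ℕ) :
    ∃ s : ℕ → Bool, ∑ i ∈ range (2 * n), sg (s i) = 0 ∧
      |(ss s p (2 * n)).eval T| ≤ spr T p n ∧
      dn T (ss s p (2 * n)) ^ 2 ≤ 2 * ∑ i ∈ range (2 * n), dn T (p i) ^ 2 := by
  induction n with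
  | zero => exact ⟨fun _ => true, by simp, by simp [ss, spr], by simp [ss, dn_zero]⟩
  | succ n ih =>
    obtain ⟨s, h0, h1, h2⟩ := ih
    obtain ⟨b, hb⟩ := flip2 hT (p (2 * n) - p (2 * n + 1)) (ss s p (2 * n))
    set s' : ℕ → Bool := fun i => if i < 2 * n then s i else if i = 2 * n then b else !b with hs'
    have e0 : ∀ i ∈ range (2 * n), s' i = s i := by
      intro i hi
      rw [hs']
      simp only
      rw [if_pos (mem_range.mp hi)]
    have e1 : s' (2 * n) = b := by
      rw [hs']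
      simp
    have e2 : s' (2 * n + 1) = !b := by
      rw [hs']
      simp
    have e3 : 2 * (n + 1) = 2 * n + 1 + 1 := by ring
    have e4 : ss s' p (2 * (n + 1)) =
        sg b • (p (2 * n) - p (2 * n + 1)) + ss s p (2 * n) := by
      unfold ss
      rw [e3, sum_range_succ, sum_range_succ, e1, e2, sg_not',
        sum_congr rfl fun i hi => by rw [e0 i hi], smul_sub, neg_smul]
      abel
    refine ⟨s', ?_, ?_, ?_⟩
    · rw [e3, sum_range_succ, sum_range_succ, e1, e2, sg_not',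
        sum_congr rfl fun i hi => by rw [e0 i hi], h0]
      ring
    · rw [e4, eval_add, eval_smul, smul_eq_mul, eval_sub, spr_succ]
      refine (abs_add_le _ _).trans ?_
      rw [abs_mul, sg_abs, one_mul]
      have h5 : (p (2 * n + 1)).eval T ≤ (p (2 * n)).eval T := ha (by omega)
      rw [abs_of_nonneg (by linarith : 0 ≤ (p (2 * n)).eval T - (p (2 * n + 1)).eval T)]
      linarith
    · rw [e4, e3, sum_range_succ, sum_range_succ]
      have := dn_sub_sq_le hT (p (2 * n)) (p (2 * n + 1))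
      linarith

/-- two Hilbert flips -/
lemma flip3 (hT : 0 ≤ T) (F A B : ℝ[X]) :
    ∃ a b : Bool, dn T (F + sg a • A + sg b • B) ^ 2 ≤ dn T F ^ 2 + dn T A ^ 2 + dn T B ^ 2 := by
  obtain ⟨a, ha⟩ := flip2 hT A F
  obtain ⟨b, hb⟩ := flip2 hT B (sg a • A + F)
  refine ⟨a, b, ?_⟩
  have e : F + sg a • A + sg b • B = sg b • B + (sg a • A + F) := by abel
  rw [e]
  linarith

/-- the sequence version, odd number of labels -/
theorem lab_seq (hT : 0 ≤ T) (p w : ℕ → ℝ[X]) (hp : Antitone fun i => (p i).eval T)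
    (hw : Antitone fun i => (w i).eval T) (hp0 : ∀ i, 0 ≤ (p i).eval T) (k N : ℕ)
    (hwN : w (2 * N) = 0) :
    ∃ s t : ℕ → Bool, ∑ i ∈ range (2 * k + 1), sg (s i) = 1 ∧
      |(ss s p (2 * k + 1) + ss t w (2 * N + 1)).eval T| ≤
        max ((p 0).eval T) ((w 0).eval T) ∧
      dn T (ss s p (2 * k + 1) + ss t w (2 * N + 1)) ^ 2 ≤
        2 * (∑ i ∈ range (2 * k + 1), dn T (p i) ^ 2 +
          ∑ i ∈ range (2 * N + 1), dn T (w i) ^ 2) := by
  have hp' : Antitone fun i => (p (i + 1)).eval T := fun i j hij => hp (by omega)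
  have hw' : Antitone fun i => (w (i + 1)).eval T := fun i j hij => hw (by omega)
  by_cases h : (p (2 * k)).eval T + spr T p k + spr T w N ≤ max ((p 0).eval T) ((w 0).eval T)
  · obtain ⟨s1, h1, h2, h3⟩ := pairs_spr hT p hp k
    obtain ⟨t1, h4, h5, h6⟩ := pairs_spr hT w hw N
    obtain ⟨a, b, hab⟩ := flip3 hT (p (2 * k)) (ss s1 p (2 * k)) (ss t1 w (2 * N))
    have e1 : ss (snoc1 (2 * k) fun i => s1 i == a) p (2 * k + 1) =
        sg a • ss s1 p (2 * k) + p (2 * k) := by rw [ss_snoc1, ss_beq]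
    have e2 : ss (snoc1 (2 * N) fun i => t1 i == b) w (2 * N + 1) =
        sg b • ss t1 w (2 * N) := by rw [ss_snoc1, ss_beq, hwN, add_zero]
    have e3 : sg a • ss s1 p (2 * k) + p (2 * k) + sg b • ss t1 w (2 * N) =
        p (2 * k) + sg a • ss s1 p (2 * k) + sg b • ss t1 w (2 * N) := by abel
    refine ⟨snoc1 (2 * k) fun i => s1 i == a, snoc1 (2 * N) fun i => t1 i == b, ?_, ?_, ?_⟩
    · rw [sg_snoc1, sg_sum_beq _ _ _ h1, zero_add]
    · rw [e1, e2, e3, eval_add, eval_add, eval_smul, eval_smul, smul_eq_mul, smul_eq_mul]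
      refine le_trans ?_ h
      refine (abs_add_le _ _).trans (add_le_add ((abs_add_le _ _).trans (add_le_add ?_ ?_)) ?_)
      · rw [abs_of_nonneg (hp0 _)]
      · rw [abs_mul, sg_abs, one_mul]; exact h2
      · rw [abs_mul, sg_abs, one_mul]; exact h5
    · rw [e1, e2, e3, sum_range_succ _ (2 * k), sum_range_succ _ (2 * N)]
      have := sq_nonneg (dn T (p (2 * k)))
      have := sq_nonneg (dn T (w (2 * N)))
      linarith
  · obtain ⟨s1, h1, h2, h3⟩ := pairs_spr hT (fun i => p (i + 1)) hp' k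
    obtain ⟨t1, h4, h5, h6⟩ := pairs_spr hT (fun i => w (i + 1)) hw' N
    obtain ⟨a, b, hab⟩ := flip3 hT (p 0 - w 0) (ss s1 (fun i => p (i + 1)) (2 * k))
      (ss t1 (fun i => w (i + 1)) (2 * N))
    have e1 : ss (cons1 true fun i => s1 i == a) p (2 * k + 1) =
        p 0 + sg a • ss s1 (fun i => p (i + 1)) (2 * k) := by
      rw [ss_cons1, ss_beq, sg_tt, one_smul]
    have e2 : ss (cons1 false fun i => t1 i == b) w (2 * N + 1) =
        - w 0 + sg b • ss t1 (fun i => w (i + 1)) (2 * N) := by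
      rw [ss_cons1, ss_beq, sg_ff, neg_one_smul]
    have e3 : p 0 + sg a • ss s1 (fun i => p (i + 1)) (2 * k) +
        (- w 0 + sg b • ss t1 (fun i => w (i + 1)) (2 * N)) =
        p 0 - w 0 + sg a • ss s1 (fun i => p (i + 1)) (2 * k) +
          sg b • ss t1 (fun i => w (i + 1)) (2 * N) := by abel
    have h7 := spr_shift (T := T) p k
    have h8 := spr_shift (T := T) w N
    rw [hwN, eval_zero] at h8
    have h9 : |(p 0).eval T - (w 0).eval T| + spr T (fun i => p (i + 1)) k +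
        spr T (fun i => w (i + 1)) N ≤ max ((p 0).eval T) ((w 0).eval T) := by
      push Not at h
      rcases le_total ((p 0).eval T) ((w 0).eval T) with h10 | h10
      · rw [max_eq_right h10] at h ⊢
        rw [abs_of_nonpos (by linarith)]
        linarith
      · rw [max_eq_left h10] at h ⊢
        rw [abs_of_nonneg (by linarith)]
        linarith
    refine ⟨cons1 true fun i => s1 i == a, cons1 false fun i => t1 i == b, ?_, ?_, ?_⟩
    · rw [sg_cons1, sg_sum_beq _ _ _ h1, sg_tt, add_zero]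
    · rw [e1, e2, e3, eval_add, eval_add, eval_smul, eval_smul, smul_eq_mul, smul_eq_mul,
        eval_sub]
      refine le_trans ?_ h9
      refine (abs_add_le _ _).trans (add_le_add ((abs_add_le _ _).trans (add_le_add le_rfl ?_)) ?_)
      · rw [abs_mul, sg_abs, one_mul]; exact h2
      · rw [abs_mul, sg_abs, one_mul]; exact h5
    · rw [e1, e2, e3, sum_range_succ' (fun i => dn T (p i) ^ 2),
        sum_range_succ' (fun i => dn T (w i) ^ 2)]
      have := dn_sub_sq_le hT (p 0) (w 0)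
      linarith

/-- the sequence version, even number of labels -/
theorem lab_seq0 (hT : 0 ≤ T) (p w : ℕ → ℝ[X]) (hp : Antitone fun i => (p i).eval T)
    (hw : Antitone fun i => (w i).eval T) (k N : ℕ)
    (hpk : 0 ≤ (p (2 * k)).eval T) (hwN : w (2 * N) = 0) :
    ∃ s t : ℕ → Bool, ∑ i ∈ range (2 * k), sg (s i) = 0 ∧
      |(ss s p (2 * k) + ss t w (2 * N)).eval T| ≤ (p 0).eval T + (w 0).eval T ∧
      dn T (ss s p (2 * k) + ss t w (2 * N)) ^ 2 ≤
        2 * (∑ i ∈ range (2 * k), dn T (p i) ^ 2 + ∑ i ∈ range (2 * N), dn T (w i) ^ 2) := by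
  have hsp : ∀ q : ℕ → ℝ[X], (Antitone fun i => (q i).eval T) → ∀ n, 0 ≤ spr T q n := by
    intro q hq n
    unfold spr
    refine sum_nonneg fun j _ => ?_
    have : (q (2 * j + 1)).eval T ≤ (q (2 * j)).eval T := hq (by omega)
    linarith
  have hp' : Antitone fun i => (p (i + 1)).eval T := fun i j hij => hp (by omega)
  have hw' : Antitone fun i => (w (i + 1)).eval T := fun i j hij => hw (by omega)
  obtain ⟨s1, h1, h2, h3⟩ := pairs_spr hT p hp k
  obtain ⟨t1, h4, h5, h6⟩ := pairs_spr hT w hw N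
  obtain ⟨b, hb⟩ := flip2 hT (ss t1 w (2 * N)) (ss s1 p (2 * k))
  have h7 := spr_shift (T := T) p k
  have h8 := spr_shift (T := T) w N
  rw [hwN, eval_zero] at h8
  have h9 := hsp _ hp' k
  have h10 := hsp _ hw' N
  refine ⟨s1, fun i => t1 i == b, h1, ?_, ?_⟩
  · rw [ss_beq, eval_add, eval_smul, smul_eq_mul]
    refine (abs_add_le _ _).trans ?_
    rw [abs_mul, sg_abs, one_mul]
    linarith
  · rw [ss_beq, add_comm]
    linarith

/-! ### finite families -/

/-- a family sorted and extended by zero -/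
lemma exists_seq {ι : Type*} [Fintype ι] (p : ι → ℝ[X]) (h0 : ∀ i, 0 ≤ (p i).eval T) :
    ∃ (r : Fin (Fintype.card ι) ≃ ι) (a : ℕ → ℝ[X]), (Antitone fun i => (a i).eval T) ∧
      (∀ i, 0 ≤ (a i).eval T) ∧ (∀ i, Fintype.card ι ≤ i → a i = 0) ∧
      (∀ i : Fin (Fintype.card ι), a i = p (r i)) := by
  obtain ⟨r, hr⟩ := exists_sorted fun i => (p i).eval T
  have h1 : ∀ i, 0 ≤ (p (r i)).eval T := fun i => h0 _
  refine ⟨r, extp fun i => p (r i), ?_, ?_, ?_, ?_⟩
  · have : (fun i => (extp (fun i => p (r i)) i).eval T) =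
        ext0 (fun i => (p (r i)).eval T) := by
      funext i; exact extp_eval _ i
    rw [this]
    exact ext0_antitone hr h1
  · intro i
    rw [extp_eval]
    exact ext0_nonneg h1 i
  · intro i hi
    unfold extp
    rw [dif_neg (by omega)]
  · intro i
    exact extp_fin _ i

lemma sum_ext {M : Type*} [AddCommMonoid M] (f : ℕ → M) {n m : ℕ} (h : n ≤ m)
    (h0 : ∀ i, n ≤ i → f i = 0) : ∑ i ∈ range m, f i = ∑ i ∈ range n, f i := by
  obtain ⟨k, rfl⟩ := Nat.exists_eq_add_of_le h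
  rw [sum_range_add]
  have : ∑ i ∈ range k, f (n + i) = 0 := sum_eq_zero fun i _ => h0 _ (by omega)
  rw [this, add_zero]

lemma ss_fam {ι : Type*} [Fintype ι] (r : Fin (Fintype.card ι) ≃ ι) (p : ι → ℝ[X])
    (a : ℕ → ℝ[X]) (ha : ∀ i : Fin (Fintype.card ι), a i = p (r i)) (s : ℕ → Bool) :
    ss s a (Fintype.card ι) = ∑ i, sg (s (r.symm i)) • p i := by
  unfold ss
  rw [← Fin.sum_univ_eq_sum_range (fun i => sg (s i) • a i), ← Equiv.sum_comp r]
  refine sum_congr rfl fun i _ => ?_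
  rw [ha, Equiv.symm_apply_apply]

lemma ss_ext (s : ℕ → Bool) (a : ℕ → ℝ[X]) {n m : ℕ} (h : n ≤ m)
    (h0 : ∀ i, n ≤ i → a i = 0) : ss s a m = ss s a n := by
  unfold ss
  exact sum_ext _ h fun i hi => by rw [h0 i hi, smul_zero]

section

variable {ι : Type*} [Fintype ι] (cl : ι → Prop) [DecidablePred cl]

/-- **odd number of members of the class**: the sum of their signs is one, all flips are free -/
theorem lab_one (hT : 0 ≤ T) (hodd : Odd (Fintype.card {i // cl i})) (p : ι → ℝ[X]) (c : ℝ)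
    (h0 : ∀ i, 0 ≤ (p i).eval T) (hc : ∀ i, (p i).eval T ≤ c) :
    ∃ e : ι → Bool, ∑ i : {i // cl i}, sg (e i) = 1 ∧
      |(∑ i, sg (e i) • p i).eval T| ≤ c ∧
      dn T (∑ i, sg (e i) • p i) ^ 2 ≤ 2 * ∑ i, dn T (p i) ^ 2 := by
  obtain ⟨k, hk⟩ := hodd
  obtain ⟨r, a, ha1, ha2, ha3, ha4⟩ := exists_seq (T := T) (fun i : {i // cl i} => p i)
    (fun i => h0 i)
  obtain ⟨r', b, hb1, hb2, hb3, hb4⟩ := exists_seq (T := T) (fun i : {i // ¬ cl i} => p i)
    (fun i => h0 i)
  obtain ⟨s, t, h1, h2, h3⟩ := lab_seq hT a b ha1 hb1 ha2 k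
    (Fintype.card {i // ¬ cl i}) (hb3 _ (by omega))
  rw [← hk] at h1 h2 h3
  have e1 := ss_fam r (fun i : {i // cl i} => p i) a ha4 s
  have hle : Fintype.card {i // ¬ cl i} ≤ 2 * Fintype.card {i // ¬ cl i} + 1 := by omega
  have e2 : ss t b (2 * Fintype.card {i // ¬ cl i} + 1) =
      ∑ i : {i // ¬ cl i}, sg (t (r'.symm i)) • p i := by
    rw [ss_ext t b hle hb3]
    exact ss_fam r' (fun i : {i // ¬ cl i} => p i) b hb4 t
  have hcc : 0 ≤ c := by
    have hne : Nonempty {i // cl i} := Fintype.card_pos_iff.mp (by omega)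
    exact (h0 hne.some).trans (hc _)
  have ha0 : ∀ i, (a i).eval T ≤ c := by
    intro i
    by_cases hi : i < Fintype.card {i // cl i}
    · rw [ha4 ⟨i, hi⟩]; exact hc _
    · rw [ha3 i (by omega), eval_zero]; exact hcc
  have hb0 : ∀ i, (b i).eval T ≤ c := by
    intro i
    by_cases hi : i < Fintype.card {i // ¬ cl i}
    · rw [hb4 ⟨i, hi⟩]; exact hc _
    · rw [hb3 i (by omega), eval_zero]; exact hcc
  refine ⟨glue cl (fun i => s (r.symm i)) (fun i => t (r'.symm i)), ?_, ?_, ?_⟩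
  · rw [← h1, sum_sorted r (fun i => sg (s (r.symm i))) (fun i => sg (s i)) fun i => by
      rw [Equiv.symm_apply_apply]]
    exact sum_congr rfl fun i _ => by rw [glue_pos]
  · rw [glue_sum, ← e1, ← e2]
    exact h2.trans (max_le (ha0 0) (hb0 0))
  · rw [glue_sum, ← e1, ← e2, sum_cl cl fun i => dn T (p i) ^ 2]
    have e3 : ∑ i ∈ range (Fintype.card {i // cl i}), dn T (a i) ^ 2 =
        ∑ i : {i // cl i}, dn T (p i) ^ 2 :=
      sum_sorted r (fun i : {i // cl i} => dn T (p i) ^ 2) _ fun i => by rw [ha4]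
    have e4 : ∑ i ∈ range (2 * Fintype.card {i // ¬ cl i} + 1), dn T (b i) ^ 2 =
        ∑ i : {i // ¬ cl i}, dn T (p i) ^ 2 := by
      rw [sum_ext (fun i => dn T (b i) ^ 2) hle fun i hi => by
        show dn T (b i) ^ 2 = 0
        rw [hb3 i hi, dn_zero]; norm_num]
      exact sum_sorted r' (fun i : {i // ¬ cl i} => dn T (p i) ^ 2) _ fun i => by rw [hb4]
    rw [e3, e4] at h3
    exact h3

/-- **even number of members of the class**: the sum of their signs is zero -/
theorem lab_zero (hT : 0 ≤ T) (hev : Even (Fintype.card {i // cl i})) (p : ι → ℝ[X]) (c : ℝ)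
    (hc0 : 0 ≤ c) (h0 : ∀ i, 0 ≤ (p i).eval T) (hc : ∀ i, (p i).eval T ≤ c) :
    ∃ e : ι → Bool, ∑ i : {i // cl i}, sg (e i) = 0 ∧
      |(∑ i, sg (e i) • p i).eval T| ≤ 2 * c ∧
      dn T (∑ i, sg (e i) • p i) ^ 2 ≤ 2 * ∑ i, dn T (p i) ^ 2 := by
  obtain ⟨k, hk⟩ := hev
  have hk' : Fintype.card {i // cl i} = 2 * k := by omega
  obtain ⟨r, a, ha1, ha2, ha3, ha4⟩ := exists_seq (T := T) (fun i : {i // cl i} => p i)
    (fun i => h0 i)
  obtain ⟨r', b, hb1, hb2, hb3, hb4⟩ := exists_seq (T := T) (fun i : {i // ¬ cl i} => p i)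
    (fun i => h0 i)
  obtain ⟨s, t, h1, h2, h3⟩ := lab_seq0 hT a b ha1 hb1 k
    (Fintype.card {i // ¬ cl i}) (ha2 _) (hb3 _ (by omega))
  rw [← hk'] at h1 h2 h3
  have e1 := ss_fam r (fun i : {i // cl i} => p i) a ha4 s
  have hle : Fintype.card {i // ¬ cl i} ≤ 2 * Fintype.card {i // ¬ cl i} := by omega
  have e2 : ss t b (2 * Fintype.card {i // ¬ cl i}) =
      ∑ i : {i // ¬ cl i}, sg (t (r'.symm i)) • p i := by
    rw [ss_ext t b hle hb3]
    exact ss_fam r' (fun i : {i // ¬ cl i} => p i) b hb4 t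
  have ha0 : ∀ i, (a i).eval T ≤ c := by
    intro i
    by_cases hi : i < Fintype.card {i // cl i}
    · rw [ha4 ⟨i, hi⟩]; exact hc _
    · rw [ha3 i (by omega), eval_zero]; exact hc0
  have hb0 : ∀ i, (b i).eval T ≤ c := by
    intro i
    by_cases hi : i < Fintype.card {i // ¬ cl i}
    · rw [hb4 ⟨i, hi⟩]; exact hc _
    · rw [hb3 i (by omega), eval_zero]; exact hc0
  refine ⟨glue cl (fun i => s (r.symm i)) (fun i => t (r'.symm i)), ?_, ?_, ?_⟩
  · rw [← h1, sum_sorted r (fun i => sg (s (r.symm i))) (fun i => sg (s i)) fun i => by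
      rw [Equiv.symm_apply_apply]]
    exact sum_congr rfl fun i _ => by rw [glue_pos]
  · rw [glue_sum, ← e1, ← e2]
    refine h2.trans ?_
    linarith [ha0 0, hb0 0]
  · rw [glue_sum, ← e1, ← e2, sum_cl cl fun i => dn T (p i) ^ 2]
    have e3 : ∑ i ∈ range (Fintype.card {i // cl i}), dn T (a i) ^ 2 =
        ∑ i : {i // cl i}, dn T (p i) ^ 2 :=
      sum_sorted r (fun i : {i // cl i} => dn T (p i) ^ 2) _ fun i => by rw [ha4]
    have e4 : ∑ i ∈ range (2 * Fintype.card {i // ¬ cl i}), dn T (b i) ^ 2 =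
        ∑ i : {i // ¬ cl i}, dn T (p i) ^ 2 := by
      rw [sum_ext (fun i => dn T (b i) ^ 2) hle fun i hi => by
        show dn T (b i) ^ 2 = 0
        rw [hb3 i hi, dn_zero]; norm_num]
      exact sum_sorted r' (fun i : {i // ¬ cl i} => dn T (p i) ^ 2) _ fun i => by rw [hb4]
    rw [e3, e4] at h3
    exact h3

end

end Pool.Agent.TSR

namespace Pool.Agent.TSM

open Finset Polynomial
open Pool.Agent.TSR (OBr lab_one lab_zero)
open Pool.Agent.TLT (sg)
open Pool.Agent.TDN (dn dn_nonneg)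

noncomputable section

/-- **odd number of children with `τ = 1`**: the constant is one and all flips are free -/
theorem e_one {K : ℕ} (O : Fin K → OBr) (h : ∀ i, Inv (O i)) (hc : Odd (n1 O)) :
    ∃ e : Fin K → Bool, (∀ σ, YY (fam σ e O) = 1 - X * gU e O) ∧
      |(gU e O).eval q0| ≤ 2 ∧ dn q0 (gU e O) ^ 2 ≤ 2 * ∑ i, aU (O i) ^ 2 := by
  classical
  obtain ⟨e, h1, h2, h3⟩ := lab_one (T := q0) (fun i => tau (O i) = 1) q0_pos.le
    (by
      have := n1_eq O
      convert hc using 1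
      rw [this]) (fun i => UU (O i)) 2 (fun i => (h i).2.1) (fun i => (h i).2.2.1)
  refine ⟨e, fun σ => ?_, h2, h3⟩
  rw [YY_lab σ e O h]
  congr 1
  rw [← C_1]
  congr 1

/-- **even number of children with `τ = 1`**: the constant is zero -/
theorem e_zero {K : ℕ} (O : Fin K → OBr) (h : ∀ i, Inv (O i)) (hc : Even (n1 O)) :
    ∃ e : Fin K → Bool, (∀ σ, YY (fam σ e O) = - (X * gU e O)) ∧
      (gU e O).eval q0 ≤ 0 ∧ -4 ≤ (gU e O).eval q0 ∧
      dn q0 (gU e O) ^ 2 ≤ 2 * ∑ i, aU (O i) ^ 2 := by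
  classical
  have hn := n1_eq O
  obtain ⟨e, h1, h2, h3⟩ := lab_zero (T := q0) (fun i => tau (O i) = 1) q0_pos.le
    (by
      convert hc using 1
      rw [hn]) (fun i => UU (O i)) 2 (by norm_num) (fun i => (h i).2.1) (fun i => (h i).2.2.1)
  have hY : ∀ σ, YY (fam σ e O) = - (X * gU e O) := by
    intro σ
    rw [YY_lab σ e O h]
    have h4 : (∑ i : {i // tau (O i) = 1}, sg (e i)) = 0 := by
      convert h1
    rw [h4, C_0, zero_sub]
  rw [abs_le] at h2
  rcases le_total ((gU e O).eval q0) 0 with h5 | h5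
  · exact ⟨e, hY, h5, by unfold gU at *; linarith [h2.1], h3⟩
  · have e0 : gU (fun i => !(e i)) O = - gU e O := by
      unfold gU
      exact TSR.sum_flip e _
    refine ⟨fun i => !(e i), fun σ => ?_, ?_, ?_, ?_⟩
    · have h6 := hY σ
      rw [e0, fam_YY]
      rw [fam_YY] at h6
      rw [TSR.sum_flip, h6]
      ring
    · rw [e0, eval_neg]; linarith
    · rw [e0, eval_neg]
      have h7 := h2.2
      unfold gU at *
      linarith
    · rw [e0, TDN.dn_neg]
      exact h3

end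

end Pool.Agent.TSM
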