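import Pool.Agent.TSM.Pair3

set_option autoImplicit false

/-!
# Labels for three children, one of them trivial (MP_d27362_co)
-/

namespace Pool.Agent.TSM

open Finset Polynomial
open Pool.Agent.TSP
open Pool.Agent.TSO
open Pool.Agent.TSR (OBr Ker)
open Pool.Agent.TLT (sg)
open Pool.Agent.TDN (dn dn_nonneg)

noncomputable section

variable {Y : Sys} {Adm : ℕ → ℝ → ℝ → ℝ → ℝ → Prop} {V P : ℝ → ℝ → Sn → ℝ} {χ : ℝ → ℝ}
  {K : ℕ} {O : Fin K → OBr} {N : Finset (Fin K)} {L : Fin K} {lf tw : Bool} {m : ℕ}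
  {i j t : Fin K}

/-- the new `y` for any labels -/
lemma YY_sum (σ e : Fin K → Bool) (O : Fin K → OBr) :
    YY (fam σ e O) = C (∑ k, sg (e k) * tau (O k)) - X * gU e O := by
  have h1 : ∀ k, sg (e k) • XX (O k) = C (sg (e k) * tau (O k)) - X * (sg (e k) • UU (O k)) := by
    intro k
    unfold XX
    rw [smul_sub, smul_eq_C_mul, ← C_mul, mul_smul_comm]
  rw [fam_YY, sum_congr rfl fun k _ => h1 k, sum_sub_distrib, ← mul_sum, ← map_sum]
  rfl

lemma Tri.gU (h : Tri O N i j t) (hO : FamO O N) (e : Fin K → Bool) :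
    gU e O = sg (e i) • UU (O i) + sg (e j) • UU (O j) := by
  unfold TSM.gU
  rw [h.sum, hO.UU0 h.ht, smul_zero, zero_add]

/-- the value of `G` -/
lemma Tri.gUv (h : Tri O N i j t) (hO : FamO O N) (e : Fin K → Bool) :
    (TSM.gU e O).eval q0 = sg (e i) * vU (O i) + sg (e j) * vU (O j) := by
  rw [h.gU hO, eval_add, eval_smul, eval_smul, smul_eq_mul, smul_eq_mul]
  rfl

/-- the labels from the values -/
theorem Tri.labD (h : Tri O N i j t) (hO : FamO O N) {e : Fin K → Bool} {n : ℕ} {vm fv : ℝ}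
    (hs : sg (e t) * tau (O t) + (sg (e i) * tau (O i) + sg (e j) * tau (O j)) = n)
    (h0 : 0 ≤ (n : ℝ) - q0 * (sg (e i) * vU (O i) + sg (e j) * vU (O j)))
    (h2 : (n : ℝ) - q0 * (sg (e i) * vU (O i) + sg (e j) * vU (O j)) ≤ 2)
    (hvm : (sg (e i) * vU (O i) + sg (e j) * vU (O j)) ^ 2 ≤ vm)
    (hfv : (sg (e i) * vU (O i) + sg (e j) * vU (O j)) ^ 2 ≤ fv * (vU (O i) ^ 2 + vU (O j) ^ 2)) :
    LabD O e n vm fv := by
  have ev := h.gUv hO e
  have hU0 : UU (O t) = 0 := hO.UU0 h.ht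
  have s1 : ∑ k, vU (O k) ^ 2 = vU (O i) ^ 2 + vU (O j) ^ 2 := by
    rw [h.sum]
    have : vU (O t) = 0 := by
      unfold vU
      rw [hU0, eval_zero]
    rw [this]
    ring
  have s2 : ∑ k, aU (O k) ^ 2 = aU (O i) ^ 2 + aU (O j) ^ 2 := by
    rw [h.sum]
    have : aU (O t) = 0 := by
      unfold aU
      rw [hU0, TDN.dn_zero]
    rw [this]
    ring
  refine ⟨fun σ => ?_, by rw [ev]; exact hvm, by rw [ev]; exact h0, by rw [ev]; exact h2,
    by rw [ev, s1]; exact hfv, ?_⟩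
  · rw [YY_sum, h.sum, hs]
  · rw [s2, h.gU hO]
    have g1 := TDN.dn_parallelogram q0 q0_pos.le (sg (e i) • UU (O i)) (sg (e j) • UU (O j))
    have g2 := sq_nonneg (dn q0 (sg (e i) • UU (O i) - sg (e j) • UU (O j)))
    rw [TSR.dn_sg1, TSR.dn_sg1] at g1
    unfold aU
    linarith

/-- the new `v_y` -/
lemma LabD.vY_eq {e : Fin K → Bool} {n : ℕ} {vm fv : ℝ} (he : LabD O e n vm fv)
    (σ : Fin K → Bool) : vY (fam σ e O) = n - q0 * (gU e O).eval q0 := by
  unfold vY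
  rw [he.hY, eval_sub, eval_C, eval_mul, eval_X]

/-- the signs of the labels, given those of the three children -/
lemma exists_e3 (h : Tri O N i j t) (bt bi bj : Bool) :
    ∃ e : Fin K → Bool, e t = bt ∧ e i = bi ∧ e j = bj := by
  refine ⟨fun k => if k = t then bt else if k = i then bi else bj, ?_, ?_, ?_⟩
  · simp
  · simp [h.hti.symm]
  · simp [h.htj.symm, h.hij.symm]

/-- **labels, both nontrivial children with the same `τ`**: they have opposite signs; the new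
`v_y` is at most one -/
theorem Tri.lab_same (h : Tri O N i j t) (hO : FamO O N) (hτ : tau (O i) = tau (O j)) {n : ℕ}
    (hn : (n = 0 ∧ tau (O t) = 0) ∨ (n = 1 ∧ tau (O t) = 1)) :
    ∃ e : Fin K → Bool, e t = true ∧ e j = !(e i) ∧ LabD O e n 4 1 ∧
      ∀ σ, vY (fam σ e O) ≤ 1 := by
  have hq := q0_pos
  have hq1 := q0_le
  have hi := hO.hI i
  have hj := hO.hI j
  have hi0 := hi.2.1
  have hi2 := hi.2.2.1
  have hj0 := hj.2.1
  have hj2 := hj.2.2.1
  obtain ⟨p, hp⟩ : ∃ p, p = vU (O i) := ⟨_, rfl⟩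
  obtain ⟨q, hqq⟩ : ∃ q, q = vU (O j) := ⟨_, rfl⟩
  -- the sign of `u_i`
  obtain ⟨b, hb⟩ : ∃ b : Bool, (n = 0 → sg b * (p - q) ≤ 0) ∧ (n = 1 → 0 ≤ sg b * (p - q)) := by
    rcases le_total p q with hpq | hpq <;> rcases hn with ⟨hn, _⟩ | ⟨hn, _⟩
    · exact ⟨true, fun _ => by rw [TSR.sg_tt]; linarith, fun h => by omega⟩
    · exact ⟨false, fun h => by omega, fun _ => by rw [TSR.sg_ff]; linarith⟩
    · exact ⟨false, fun _ => by rw [TSR.sg_ff]; linarith, fun h => by omega⟩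
    · exact ⟨true, fun h => by omega, fun _ => by rw [TSR.sg_tt]; linarith⟩
  obtain ⟨e, het, hei, hej⟩ := exists_e3 h true b (!b)
  have hG : sg (e i) * vU (O i) + sg (e j) * vU (O j) = sg b * (p - q) := by
    rw [hei, hej, TSR.sg_not', ← hp, ← hqq]
    ring
  have hb2 : (sg b * (p - q)) ^ 2 = (p - q) ^ 2 := by rw [mul_pow, sg_sq, one_mul]
  rw [← hp] at hi0 hi2
  rw [← hqq] at hj0 hj2
  have habs : |sg b * (p - q)| ≤ 2 := by
    rw [abs_mul]
    have : |sg b| = 1 := by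
      cases b
      · rw [TSR.sg_ff]; norm_num
      · rw [TSR.sg_tt]; norm_num
    rw [this, one_mul, abs_le]
    constructor <;> linarith
  rw [abs_le] at habs
  have hbds : 0 ≤ (n : ℝ) - q0 * (sg b * (p - q)) ∧ (n : ℝ) - q0 * (sg b * (p - q)) ≤ 1 := by
    rcases hn with ⟨hn, _⟩ | ⟨hn, _⟩
    · have h1 := hb.1 hn
      rw [hn]
      push_cast
      constructor <;> nlinarith
    · have h1 := hb.2 hn
      rw [hn]
      push_cast
      constructor <;> nlinarith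
  have he : LabD O e n 4 1 := by
    refine h.labD hO ?_ (by rw [hG]; exact hbds.1) (by rw [hG]; linarith [hbds.2]) ?_ ?_
    · rw [het, hei, hej, TSR.sg_not', TSR.sg_tt, ← hτ]
      rcases hn with ⟨hn, ht⟩ | ⟨hn, ht⟩ <;> rw [hn, ht] <;> push_cast <;> ring
    · rw [hG, hb2]
      nlinarith
    · rw [hG, hb2, ← hp, ← hqq]
      nlinarith
  refine ⟨e, het, by rw [hei, hej], he, fun σ => ?_⟩
  rw [he.vY_eq, h.gUv hO, hG]
  exact hbds.2

/-- **labels, one child `a` with `τ = 1`, one child `b` with `τ = 0`, a path**: label zero, the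
new `v_y` is at most one -/
theorem Tri.lab_path (h : Tri O N i j t) (hO : FamO O N) (ht : tau (O t) = 1) {a b : Fin K}
    (hab : (a = i ∧ b = j) ∨ (a = j ∧ b = i)) (ha : tau (O a) = 1) (hb : tau (O b) = 0) :
    ∃ e : Fin K → Bool, e t = !(e a) ∧ e b = !(e a) ∧ LabD O e 0 4 1 ∧
      ∀ σ, vY (fam σ e O) ≤ 1 := by
  have hq := q0_pos
  have hq1 := q0_le
  have hi := hO.hI a
  have hj := hO.hI b
  have hi0 := hi.2.1
  have hi2 := hi.2.2.1
  have hj0 := hj.2.1
  have hj2 := hj.2.2.1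
  obtain ⟨p, hp⟩ : ∃ p, p = vU (O a) := ⟨_, rfl⟩
  obtain ⟨q, hqq⟩ : ∃ q, q = vU (O b) := ⟨_, rfl⟩
  obtain ⟨s, hs⟩ : ∃ s : Bool, sg s * (p - q) ≤ 0 := by
    rcases le_total p q with hpq | hpq
    · exact ⟨true, by rw [TSR.sg_tt]; linarith⟩
    · exact ⟨false, by rw [TSR.sg_ff]; linarith⟩
  obtain ⟨e, het, hea, heb⟩ : ∃ e : Fin K → Bool, e t = !s ∧ e a = s ∧ e b = !s := by
    rcases hab with ⟨h1, h2⟩ | ⟨h1, h2⟩
    · obtain ⟨e, g1, g2, g3⟩ := exists_e3 h (!s) s (!s)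
      exact ⟨e, g1, by rw [h1]; exact g2, by rw [h2]; exact g3⟩
    · obtain ⟨e, g1, g2, g3⟩ := exists_e3 h (!s) (!s) s
      exact ⟨e, g1, by rw [h1]; exact g3, by rw [h2]; exact g2⟩
  have hG : sg (e i) * vU (O i) + sg (e j) * vU (O j) = sg s * (p - q) := by
    have e1 : sg (e i) * vU (O i) + sg (e j) * vU (O j) =
        sg (e a) * vU (O a) + sg (e b) * vU (O b) := by
      rcases hab with ⟨h1, h2⟩ | ⟨h1, h2⟩ <;> rw [h1, h2]
      ring
    rw [e1, hea, heb, TSR.sg_not', ← hp, ← hqq]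
    ring
  have hb2 : (sg s * (p - q)) ^ 2 = (p - q) ^ 2 := by rw [mul_pow, sg_sq, one_mul]
  rw [← hp] at hi0 hi2
  rw [← hqq] at hj0 hj2
  have habs : |sg s * (p - q)| ≤ 2 := by
    rw [abs_mul]
    have : |sg s| = 1 := by
      cases s
      · rw [TSR.sg_ff]; norm_num
      · rw [TSR.sg_tt]; norm_num
    rw [this, one_mul, abs_le]
    constructor <;> linarith
  rw [abs_le] at habs
  have hbds : 0 ≤ ((0 : ℕ) : ℝ) - q0 * (sg s * (p - q)) ∧
      ((0 : ℕ) : ℝ) - q0 * (sg s * (p - q)) ≤ 1 := by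
    push_cast
    constructor <;> nlinarith
  have he : LabD O e 0 4 1 := by
    refine h.labD hO ?_ (by rw [hG]; exact hbds.1) (by rw [hG]; linarith [hbds.2]) ?_ ?_
    · have e1 : sg (e i) * tau (O i) + sg (e j) * tau (O j) =
          sg (e a) * tau (O a) + sg (e b) * tau (O b) := by
        rcases hab with ⟨h1, h2⟩ | ⟨h1, h2⟩ <;> rw [h1, h2]
        ring
      rw [e1, het, hea, ha, hb, ht, TSR.sg_not']
      push_cast
      ring
    · rw [hG, hb2]
      nlinarith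
    · rw [hG, hb2]
      have e1 : vU (O i) ^ 2 + vU (O j) ^ 2 = p ^ 2 + q ^ 2 := by
        rw [hp, hqq]
        rcases hab with ⟨h1, h2⟩ | ⟨h1, h2⟩ <;> rw [h1, h2]
        ring
      rw [e1]
      nlinarith
  refine ⟨e, by rw [het, hea], by rw [heb, hea], he, fun σ => ?_⟩
  rw [he.vY_eq, h.gUv hO, hG]
  exact hbds.2

/-- **labels, one child `a` with `τ = 1`, one child `b` with `τ = 0`, a leaf**: label one; the
child `a` has the sign `+` and `b` the sign `-` -/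
theorem Tri.lab_leaf (h : Tri O N i j t) (hO : FamO O N) (ht : tau (O t) = 0) {a b : Fin K}
    (hab : (a = i ∧ b = j) ∨ (a = j ∧ b = i)) (ha : tau (O a) = 1) (hb : tau (O b) = 0) :
    ∃ e : Fin K → Bool, e a = true ∧ e b = false ∧ LabD O e 1 4 1 ∧
      ∀ σ, vY (fam σ e O) = 1 - q0 * (vU (O a) - vU (O b)) := by
  have hq := q0_pos
  have hq1 := q0_le
  have hi := hO.hI a
  have hj := hO.hI b
  have hi0 := hi.2.1
  have hi2 := hi.2.2.1
  have hj0 := hj.2.1
  have hj2 := hj.2.2.1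
  obtain ⟨e, het, hea, heb⟩ : ∃ e : Fin K → Bool, e t = true ∧ e a = true ∧ e b = false := by
    rcases hab with ⟨h1, h2⟩ | ⟨h1, h2⟩
    · obtain ⟨e, g1, g2, g3⟩ := exists_e3 h true true false
      exact ⟨e, g1, by rw [h1]; exact g2, by rw [h2]; exact g3⟩
    · obtain ⟨e, g1, g2, g3⟩ := exists_e3 h true false true
      exact ⟨e, g1, by rw [h1]; exact g3, by rw [h2]; exact g2⟩
  have hG : sg (e i) * vU (O i) + sg (e j) * vU (O j) = vU (O a) - vU (O b) := by
    have e1 : sg (e i) * vU (O i) + sg (e j) * vU (O j) =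
        sg (e a) * vU (O a) + sg (e b) * vU (O b) := by
      rcases hab with ⟨h1, h2⟩ | ⟨h1, h2⟩ <;> rw [h1, h2]
      ring
    rw [e1, hea, heb, TSR.sg_tt, TSR.sg_ff]
    ring
  have he : LabD O e 1 4 1 := by
    refine h.labD hO ?_ ?_ ?_ ?_ ?_
    · have e1 : sg (e i) * tau (O i) + sg (e j) * tau (O j) =
          sg (e a) * tau (O a) + sg (e b) * tau (O b) := by
        rcases hab with ⟨h1, h2⟩ | ⟨h1, h2⟩ <;> rw [h1, h2]
        ring
      rw [e1, hea, ha, hb, ht, TSR.sg_tt]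
      push_cast
      ring
    · rw [hG]
      push_cast
      nlinarith
    · rw [hG]
      push_cast
      nlinarith
    · rw [hG]
      nlinarith
    · rw [hG]
      have e1 : vU (O i) ^ 2 + vU (O j) ^ 2 = vU (O a) ^ 2 + vU (O b) ^ 2 := by
        rcases hab with ⟨h1, h2⟩ | ⟨h1, h2⟩ <;> rw [h1, h2]
        ring
      rw [e1]
      nlinarith
  refine ⟨e, hea, heb, he, fun σ => ?_⟩
  rw [he.vY_eq, h.gUv hO, hG, Nat.cast_one]

/-- the same with the sign `+` for `b`, if the sum of the values is at most `1 / q0`: the new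
`v_y` is at most one -/
theorem Tri.lab_leaf2 (h : Tri O N i j t) (hO : FamO O N) (ht : tau (O t) = 0) {a b : Fin K}
    (hab : (a = i ∧ b = j) ∨ (a = j ∧ b = i)) (ha : tau (O a) = 1) (hb : tau (O b) = 0)
    (hv : q0 * (vU (O a) + vU (O b)) ≤ 1) :
    ∃ e : Fin K → Bool, e a = true ∧ e b = true ∧ LabD O e 1 (61 / 10) 2 ∧
      ∀ σ, vY (fam σ e O) = 1 - q0 * (vU (O a) + vU (O b)) := by
  have hq := q0_pos
  have hq1 := q0_ge
  have hi := hO.hI a
  have hj := hO.hI b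
  have hi0 := hi.2.1
  have hj0 := hj.2.1
  obtain ⟨e, het, hea, heb⟩ : ∃ e : Fin K → Bool, e t = true ∧ e a = true ∧ e b = true := by
    rcases hab with ⟨h1, h2⟩ | ⟨h1, h2⟩
    · obtain ⟨e, g1, g2, g3⟩ := exists_e3 h true true true
      exact ⟨e, g1, by rw [h1]; exact g2, by rw [h2]; exact g3⟩
    · obtain ⟨e, g1, g2, g3⟩ := exists_e3 h true true true
      exact ⟨e, g1, by rw [h1]; exact g3, by rw [h2]; exact g2⟩
  have hG : sg (e i) * vU (O i) + sg (e j) * vU (O j) = vU (O a) + vU (O b) := by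
    have e1 : sg (e i) * vU (O i) + sg (e j) * vU (O j) =
        sg (e a) * vU (O a) + sg (e b) * vU (O b) := by
      rcases hab with ⟨h1, h2⟩ | ⟨h1, h2⟩ <;> rw [h1, h2]
      ring
    rw [e1, hea, heb, TSR.sg_tt]
    ring
  obtain ⟨g, hg⟩ : ∃ g, g = vU (O a) + vU (O b) := ⟨_, rfl⟩
  have hg0 : 0 ≤ g := by rw [hg]; linarith
  rw [← hg] at hv
  have he : LabD O e 1 (61 / 10) 2 := by
    refine h.labD hO ?_ ?_ ?_ ?_ ?_
    · have e1 : sg (e i) * tau (O i) + sg (e j) * tau (O j) =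
          sg (e a) * tau (O a) + sg (e b) * tau (O b) := by
        rcases hab with ⟨h1, h2⟩ | ⟨h1, h2⟩ <;> rw [h1, h2]
        ring
      rw [e1, hea, ha, hb, ht, TSR.sg_tt]
      push_cast
      ring
    · rw [hG, ← hg]
      push_cast
      linarith
    · rw [hG, ← hg]
      push_cast
      nlinarith
    · rw [hG, ← hg]
      have h1 : g ≤ 247 / 100 := by
        by_contra h2
        push Not at h2
        nlinarith
      nlinarith
    · rw [hG]
      have e1 : vU (O i) ^ 2 + vU (O j) ^ 2 = vU (O a) ^ 2 + vU (O b) ^ 2 := by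
        rcases hab with ⟨h1, h2⟩ | ⟨h1, h2⟩ <;> rw [h1, h2]
        ring
      rw [e1]
      nlinarith [sq_nonneg (vU (O a) - vU (O b))]
  refine ⟨e, hea, heb, he, fun σ => ?_⟩
  rw [he.vY_eq, h.gUv hO, hG, Nat.cast_one]

end

end Pool.Agent.TSM
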