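import Pool.Agent.TSM.Lab4
import Pool.Agent.TSM.Dich2
import Pool.Agent.TSM.Pol3

set_option autoImplicit false

/-!
# Labels of families with the path: one class, label one (MP_d27362_co)
-/

namespace Pool.Agent.TSM

open Finset Polynomial
open Pool.Agent.TSP
open Pool.Agent.TSO
open Pool.Agent.TSR (OBr Ker lab_one)
open Pool.Agent.TLT (sg)
open Pool.Agent.TDN (dn dn_nonneg)

noncomputable section

variable {Y : Sys} {Adm : ℕ → ℝ → ℝ → ℝ → ℝ → Prop} {V P : ℝ → ℝ → Sn → ℝ} {χ : ℝ → ℝ}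
  {K : ℕ} {O : Fin K → OBr} {N : Finset (Fin K)} {lf tw : Bool} {m : ℕ}

/-- **labels with the path, label one, one class of nontrivial children**: the sign of the value of
`G` is free, so the new `v_y` is at most one -/
theorem labD_path1 (hO : FamO O N) {j : Fin K} (hj : j ∉ N) (hj1 : O j = two)
    (hc : Odd (n1 O)) (h1 : (∀ i ∈ N, tau (O i) = 0) ∨ ∀ i ∈ N, tau (O i) = 1) :
    ∃ e : Fin K → Bool, e j = true ∧ LabD O e 1 4 1 ∧ 0 ≤ (gU e O).eval q0 ∧
      ∀ σ, vY (fam σ e O) ≤ 1 := by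
  classical
  have h := hO.hI
  have hn := n1_eq O
  have hq := q0_pos
  have hq1 := q0_le
  have hτj : tau (O j) = 1 := by rw [hj1, tau_two]
  have hUj : UU (O j) = 0 := hO.UU0 hj
  set c := capv 2 fun i => vU (O i) with hcd
  have hc2 : c ≤ 2 := capv_le _ _
  have hc0 : 0 ≤ c := capv_nonneg (by norm_num) _
  have hcs : c ^ 2 ≤ ∑ i, vU (O i) ^ 2 := capv_sq (by norm_num) _
  have hcv : ∀ i, vU (O i) ≤ c :=
    fun i => le_capv (v := fun i => vU (O i)) (fun i => (h i).2.2.1) i
  have hz : ∀ i ∉ N, vU (O i) = 0 := by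
    intro i hi
    unfold vU
    rw [hO.UU0 hi, eval_zero]
  have hcard : Even (Fintype.card {i // tau (O i) = 1 ∧ i ≠ j}) := by
    have e1 : n1 O = (univ.filter fun i => tau (O i) = 1).card := rfl
    have e2 : (univ.filter fun i => tau (O i) = 1 ∧ i ≠ j) =
        (univ.filter fun i => tau (O i) = 1).erase j := by
      ext i
      simp only [mem_filter, mem_univ, true_and, mem_erase]
      tauto
    have hmem : j ∈ univ.filter fun i => tau (O i) = 1 := by simp [hτj]
    rw [Fintype.card_subtype, e2, card_erase_of_mem hmem, ← e1]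
    obtain ⟨k, hk⟩ := hc
    exact ⟨k, by omega⟩
  rcases TSR.dich (T := q0) (fun i => tau (O i) = 1 ∧ i ≠ j) q0_pos.le hcard
      (fun i => UU (O i)) c hc0 (fun i => (h i).2.1) hcv with
    ⟨e0, g1, g2, g3, g4⟩ | ⟨hs, e0, i0, i1, j0, g0, g1, g2, g3, gs, _⟩
  · -- the labels: `+` for the path, one global sign for the rest
    have key : ∀ e0 : Fin K → Bool, ∑ i : {i // tau (O i) = 1 ∧ i ≠ j}, sg (e0 i) = 0 →
        |(gU e0 O).eval q0| ≤ c → dn q0 (gU e0 O) ^ 2 ≤ 2 * ∑ i, dn q0 (UU (O i)) ^ 2 →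
        0 ≤ (gU e0 O).eval q0 → ∃ e : Fin K → Bool, e j = true ∧ LabD O e 1 4 1 ∧
          0 ≤ (gU e O).eval q0 ∧ ∀ σ, vY (fam σ e O) ≤ 1 := by
      intro e0 g1 g2 g4 gpos
      obtain ⟨e, he⟩ : ∃ e : Fin K → Bool, e = fun i => if i = j then true else e0 i := ⟨_, rfl⟩
      have hG : gU e O = gU e0 O := by
        unfold gU
        refine sum_congr rfl fun i _ => ?_
        by_cases hi : i = j
        · rw [hi, hUj, smul_zero, smul_zero]
        · rw [he]
          simp only [if_neg hi]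
      have hs : ∑ k, sg (e k) * tau (O k) = 1 := by
        have e1 : ∀ k, sg (e k) * tau (O k) =
            (if tau (O k) = 1 ∧ k ≠ j then sg (e0 k) else 0) + (if k = j then (1 : ℝ) else 0) := by
          intro k
          by_cases hk : k = j
          · rw [he]
            simp only [hk, if_true, ne_eq, not_true_eq_false, and_false, if_false]
            rw [hτj, TSR.sg_tt]
            ring
          · rw [he]
            simp only [ne_eq, hk, not_false_eq_true, and_true, if_false]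
            rcases (h k).1 with h5 | h5
            · rw [h5]
              norm_num
            · simp [h5]
        rw [sum_congr rfl fun k _ => e1 k, sum_add_distrib, sum_ite_eq' univ j,
          if_pos (mem_univ j), TSR.sum_cl (fun i => tau (O i) = 1 ∧ i ≠ j)]
        have e2 : ∑ i : {i // tau (O i) = 1 ∧ i ≠ j},
            (if tau (O (i : Fin K)) = 1 ∧ (i : Fin K) ≠ j then sg (e0 i) else 0) =
            ∑ i : {i // tau (O i) = 1 ∧ i ≠ j}, sg (e0 i) :=
          sum_congr rfl fun i _ => if_pos i.2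
        have e3 : ∑ i : {i // ¬ (tau (O i) = 1 ∧ i ≠ j)},
            (if tau (O (i : Fin K)) = 1 ∧ (i : Fin K) ≠ j then sg (e0 i) else 0) = 0 :=
          sum_eq_zero fun i _ => if_neg i.2
        rw [e2, e3, g1]
        norm_num
      rw [abs_le] at g2
      have hY : ∀ σ, YY (fam σ e O) = C ((1 : ℕ) : ℝ) - X * gU e O := by
        intro σ
        rw [YY_sum, hs, Nat.cast_one]
      rw [← hG] at g2 g4 gpos
      have hL : LabD O e 1 4 1 := by
        refine ⟨hY, by nlinarith, ?_, ?_, by rw [one_mul]; nlinarith, g4⟩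
        · rw [Nat.cast_one]
          nlinarith
        · rw [Nat.cast_one]
          nlinarith
      refine ⟨e, by rw [he]; simp, hL, gpos, fun σ => ?_⟩
      rw [hL.vY_eq, Nat.cast_one]
      nlinarith
    have hG0 : gU e0 O = ∑ i, sg (e0 i) • UU (O i) := rfl
    rw [← hG0] at g2 g4
    rcases le_total 0 ((gU e0 O).eval q0) with h5 | h5
    · exact key e0 g1 g2 g4 h5
    · refine key (fun i => !(e0 i)) ?_ ?_ ?_ ?_
      · have : ∀ i : {i // tau (O i) = 1 ∧ i ≠ j}, sg (!(e0 i)) = -sg (e0 i) :=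
          fun i => TSR.sg_not' _
        rw [sum_congr rfl fun i _ => this i, sum_neg_distrib, g1, neg_zero]
      · rw [gU_not, eval_neg, abs_neg]
        exact g2
      · rw [gU_not, TDN.dn_neg]
        exact g4
      · rw [gU_not, eval_neg]
        linarith
  · exfalso
    have e1 : (UU (O i0)).eval q0 = vU (O i0) := rfl
    have e2 : (UU (O j0)).eval q0 = vU (O j0) := rfl
    simp only [e1, e2] at gs
    rcases h1 with h1 | h1
    · have hi : i0 ∉ N := by
        intro hi
        have := h1 i0 hi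
        rw [g0.1] at this
        norm_num at this
      rw [hz i0 hi] at gs
      linarith [hcv j0]
    · have hi : j0 ∉ N := by
        intro hi
        refine g2 ⟨h1 j0 hi, ?_⟩
        rintro rfl
        exact hj hi
      rw [hz j0 hi] at gs
      linarith [hcv i0]

/-- **labels of a family with the path**: label one and one class with `v_y ≤ 1`, or the general
bounds -/
theorem labD_pathS (hI : ItD lf true m O N) (hO : FamO O N) : ∃ (e : Fin K → Bool) (n : ℕ),
    n = (true.toNat + c1 O N) % 2 ∧ LabD O e n 4 1 ∧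
      (n = 1 → OneCl m (c1 O N) → 0 ≤ (gU e O).eval q0 ∧ ∀ σ, vY (fam σ e O) ≤ 1) := by
  obtain ⟨j, hj, hj1, _⟩ := hI.ht rfl
  by_cases h : Odd (n1 O) ∧ OneCl m (c1 O N)
  · obtain ⟨e, _, h1, h2, h3⟩ := labD_path1 hO hj hj1 h.1 (oneCl_tau hO hI.hN h.2)
    refine ⟨e, 1, ?_, h1, fun _ _ => ⟨h2, h3⟩⟩
    rw [← hI.n1]
    exact (Nat.odd_iff.mp h.1).symm
  · obtain ⟨e, n, hn, he⟩ := labD_path hI hO
    refine ⟨e, n, hn, he, fun h1 h2 => absurd ⟨?_, h2⟩ h⟩
    rw [Nat.odd_iff, hI.n1, ← hn, h1]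

/-- the obligation for an even number of children with the path, with the sign of `G` -/
def EvenP1 (Y : Sys) (Adm : ℕ → ℝ → ℝ → ℝ → ℝ → Prop) (V P : ℝ → ℝ → Sn → ℝ) (χ : ℝ → ℝ)
    (lf : Bool) (m : ℕ) : Prop :=
  ∀ (K : ℕ) (O : Fin K → OBr) (N : Finset (Fin K)) (tc : Fin K → ℕ) (σ e ρ : Fin K → Bool)
    (n : ℕ), FamKV Y Adm V P lf true m O N tc σ e ρ n 4 1 →
    (n = 0 → (gU e O).eval q0 ≤ 0) →
    (m = 2 ∨ OneCl m (c1 O N) → n = 1 → 0 ≤ (gU e O).eval q0 ∧ vY (fam σ e O) ≤ 1) →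
    ∀ D, RD D →
    EvF2 χ D K (fun a => (UU (fam σ e O)).eval a)
      (fun a => (YY (fam σ e O)).eval a) (fun a => ∑ i, Vi V N tc O i D a)
      (fun a => V D a ((chd 0 (fam σ e O)).sn a))
      (fun a => P D a ((chd 0 (fam σ e O)).sn a))

/-- label zero: the value of `G` is not positive -/
lemma LabD.G05 {e : Fin K → Bool} {vm fv fg : ℝ} (h : LabD O e 0 vm fv fg) :
    (gU e O).eval q0 ≤ 0 := by
  have h1 := h.h0
  have hq := q0_pos
  rw [Nat.cast_zero] at h1
  by_contra h2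
  push Not at h2
  have := mul_pos hq h2
  linarith

/-- **one kind with an even number of children and the path**, with the sign of `G` -/
theorem poT_evenP1 (hY : Y.G = GoodE χ) (hχ : ∀ D, RD D → 0 ≤ χ D)
    (hAd : ∀ vU vY aU aY, Adm 0 vU vY aU aY) (hev : Even (lf.toNat + true.toNat + m))
    (hpos : 0 < lf.toNat + true.toNat + m) (H : EvenP1 Y Adm V P χ lf m) :
    PoT Y Adm V P lf true m := by
  intro K O N tc hI hT
  have hK : Even K := by rw [hI.hK]; exact hev
  have hK0 : 0 < K := by rw [hI.hK]; exact hpos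
  have hq := q0_pos
  by_cases hm : m = 2
  · subst hm
    obtain ⟨e, n, hn, he, hv⟩ := labD_two hI hT.hO
    refine po_evenV hY hχ hAd hK hK0 hI hT hn he fun σ ρ hF D hD =>
      H K O N tc σ e ρ n hF (fun h0 => ?_) (fun _ h1 => ⟨?_, hv σ⟩) D hD
    · subst h0
      exact he.G05
    · have h2 := hv σ
      rw [he.vY_eq, h1, Nat.cast_one] at h2
      by_contra h3
      push Not at h3
      have := mul_neg_of_pos_of_neg hq h3
      linarith
  · obtain ⟨e, n, hn, he, hv⟩ := labD_pathS hI hT.hO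
    refine po_evenV hY hχ hAd hK hK0 hI hT hn he fun σ ρ hF D hD =>
      H K O N tc σ e ρ n hF (fun h0 => ?_) (fun h1 h2 => ?_) D hD
    · subst h0
      exact he.G05
    · rcases h1 with h1 | h1
      · exact absurd h1 hm
      · exact ⟨(hv h2 h1).1, (hv h2 h1).2 σ⟩

/-- the obligation for an odd number of children with leaf and path, the leaf is split off, with
the sign of `G` -/
def LeafP1 (Y : Sys) (Adm : ℕ → ℝ → ℝ → ℝ → ℝ → Prop) (V P : ℝ → ℝ → Sn → ℝ) (χ : ℝ → ℝ)
    (m : ℕ) : Prop :=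
  ∀ (K : ℕ) (O : Fin K → OBr) (N : Finset (Fin K)) (tc : Fin K → ℕ) (σ e ρ : Fin K → Bool)
    (n : ℕ), FamKV Y Adm V P true true m O N tc σ e ρ n 4 1 →
    (n = 0 → (gU e O).eval q0 ≤ 0) →
    (OneCl m (c1 O N) → n = 1 → 0 ≤ (gU e O).eval q0 ∧ vY (fam σ e O) ≤ 1) →
    ∃ ty : ℕ, ty ≠ 0 ∧ Adm ty (vU (fam σ e O)) (vY (fam σ e O)) (aU (fam σ e O))
      (aY (fam σ e O)) ∧ OddR V P χ O N tc σ e 0 ty

/-- **one kind with an odd number of children, leaf and path**, the leaf is split off, with the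
sign of `G` -/
theorem poT_leafP1 (hY : Y.G = GoodE χ) (hχ : ∀ D, RD D → 0 ≤ χ D) (hodd : Odd (2 + m))
    (H : LeafP1 Y Adm V P χ m) : PoT Y Adm V P true true m := by
  intro K O N tc hI hT
  have hK := hI.hK
  rw [Bool.toNat_true] at hK
  have hKo : Odd K := by rw [hK]; exact hodd
  obtain ⟨j, hj, hj1⟩ := hI.hl rfl
  obtain ⟨e, n, hn, he, hv⟩ := labD_pathS hI hT.hO
  exact po_trivV hY hχ hKo (by omega) hI hT hn he hj (by rw [hj1, xiT_nil]) fun σ ρ hF =>
    H K O N tc σ e ρ n hF (fun h0 => by subst h0; exact he.G05)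
      (fun h1 h2 => ⟨(hv h2 h1).1, (hv h2 h1).2 σ⟩)

/-- the obligations for the path and an even number of nontrivial children: one class of children,
the path is split off with the label `+`; two classes, the symmetric rule -/
structure PathH (Y : Sys) (Adm : ℕ → ℝ → ℝ → ℝ → ℝ → Prop) (V P : ℝ → ℝ → Sn → ℝ) (χ : ℝ → ℝ)
    (m : ℕ) : Prop where
  /-- one class -/
  h1 : ∀ {K : ℕ} (O : Fin K → OBr) (N : Finset (Fin K)) (tc : Fin K → ℕ)
    (σ e ρ : Fin K → Bool), OneCl m (c1 O N) → FamKV Y Adm V P false true m O N tc σ e ρ 1 4 1 →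
    0 ≤ (gU e O).eval q0 → vY (fam σ e O) ≤ 1 →
    ∃ ty : ℕ, ty ≠ 0 ∧ Adm ty (vU (fam σ e O)) (vY (fam σ e O)) (aU (fam σ e O))
      (aY (fam σ e O)) ∧ OddR V P χ O N tc σ e 1 ty
  /-- two classes -/
  h2 : ∀ {K : ℕ} (O : Fin K → OBr) (N : Finset (Fin K)) (tc : Fin K → ℕ) (e : Fin K → Bool)
    (n : ℕ), ¬ OneCl m (c1 O N) → ItD false true m O N → FamT Y Adm V P O N tc →
    n = (true.toNat + c1 O N) % 2 → LabD O e n 4 1 → SymO Y Adm V P χ false true m O N tc e n 4 1

/-- **one kind with the path and an even number of nontrivial children** -/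
theorem poT_pathP1 (hY : Y.G = GoodE χ) (hχ : ∀ D, RD D → 0 ≤ χ D) (h2 : 1 ≤ m) (hev : Even m)
    (H : PathH Y Adm V P χ m) : PoT Y Adm V P false true m := by
  intro K O N tc hI hT
  have hK := hI.hK
  rw [Bool.toNat_true, Bool.toNat_false, zero_add] at hK
  have hKo : Odd K := by
    obtain ⟨a, ha⟩ := hev
    exact ⟨a, by omega⟩
  obtain ⟨j, hj, hj1, _⟩ := hI.ht rfl
  by_cases hc : OneCl m (c1 O N)
  · have hn1 : (true.toNat + c1 O N) % 2 = 1 := by
      obtain ⟨a, ha⟩ := hev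
      rw [Bool.toNat_true]
      rcases hc with hc | hc <;> omega
    have hodd : Odd (n1 O) := by
      rw [Nat.odd_iff, hI.n1]
      exact hn1
    obtain ⟨e, he0, he, hg, hv⟩ := labD_path1 hT.hO hj hj1 hodd (oneCl_tau hT.hO hI.hN hc)
    exact po_trivV hY hχ hKo (by omega) hI hT hn1.symm he hj
      (by rw [hj1, xiT_two, he0, TSR.sg_tt]) fun σ ρ hF => H.h1 O N tc σ e ρ hc hF hg (hv σ)
  · obtain ⟨e, n, hn, he⟩ := labD_path hI hT.hO
    exact po_sym hY hχ hKo hI hT hn he (H.h2 O N tc e n hc hI hT hn he)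

end

end Pool.Agent.TSM
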