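import Pool.Agent.TSM.OddK

set_option autoImplicit false

/-!
# An odd number of children: one child is split off (MP_d27362_co)

`f_L ≤ M_L min (1 - ρ + ξ, 2 + g)`, `f_R ≤ M_R (1 + w + c w²)`; the product is at most
`M (1 + ξ + w + G)` where `2 mn G` is bounded by `∫ ξ w + ‖ξ‖ ‖w‖ + 2 B c ‖w‖²` and the cost of
the net gain of `f_L`.
-/

namespace Pool.Agent.TSM

open Finset Polynomial
open Pool.Agent.TSP
open Pool.Agent.TSO
open Pool.Agent.TSR (OBr Ker sg_true sg_false vS_nonneg)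
open Pool.Agent.TLT (sg)

/-! ### the real inequality -/

/-- the real inequality of the rule -/
theorem left_real {f a B c w P β ε : ℝ} (hf0 : 0 ≤ f) (hfa : f ≤ a) (hfB : f ≤ B) (hc : 0 ≤ c)
    (hε : 0 ≤ ε) (hs : β + ε = B * c) (h2 : 1 - β ≤ 2 * ε) (hP0 : 0 ≤ P)
    (hP : P ≤ 1 + w + c * w ^ 2) (hP1 : w ≤ -1 → P ≤ c) :
    f * P ≤ a + w + max ((a - 1) * w + β * w ^ 2) 0 + ε * w ^ 2 := by
  rcases le_total (-1) w with hw | hw
  · have h1 := le_max_left ((a - 1) * w + β * w ^ 2) 0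
    have h3 : f * P ≤ f * (1 + w + c * w ^ 2) := mul_le_mul_of_nonneg_left hP hf0
    have h4 : f * (1 + w) ≤ a * (1 + w) := mul_le_mul_of_nonneg_right hfa (by linarith)
    have h5 : f * (c * w ^ 2) ≤ B * (c * w ^ 2) := mul_le_mul_of_nonneg_right hfB (by positivity)
    have h6 : B * (c * w ^ 2) = β * w ^ 2 + ε * w ^ 2 := by rw [← mul_assoc, ← hs]; ring
    linarith
  · have h3 : f * P ≤ B * c := mul_le_mul hfB (hP1 hw) hP0 (hf0.trans hfB)
    have h5 : 0 ≤ (-w - 1) * (ε * (1 - w) - (1 - β)) := by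
      apply mul_nonneg (by linarith)
      have : ε * 2 ≤ ε * (1 - w) := mul_le_mul_of_nonneg_left (by linarith) hε
      linarith
    rcases le_total (1 - β * w) a with ha | ha
    · have := le_max_right ((a - 1) * w + β * w ^ 2) 0
      nlinarith
    · have h6 := le_max_left ((a - 1) * w + β * w ^ 2) 0
      have h7 : (1 - β * w) * (1 + w) ≤ a * (1 + w) :=
        mul_le_mul_of_nonpos_right ha (by linarith)
      nlinarith

/-- the two coefficients -/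
theorem left_coef {b : ℝ} (hb : 1 / 2 ≤ b) :
    ∃ β ε : ℝ, 0 ≤ β ∧ 0 ≤ ε ∧ β + ε = b ∧ 1 - β ≤ 2 * ε := by
  rcases le_total b 1 with h | h
  · exact ⟨2 * b - 1, 1 - b, by linarith, by linarith, by ring, by linarith⟩
  · exact ⟨b, 0, by linarith, le_rfl, by ring, by linarith⟩

variable {m : ℕ} {S : Fin m → Fin m → ℝ}

/-- the cost of the mixed term -/
theorem cross_cost (u w : Fin m → ℝ) (β : ℝ) (hβ : 0 ≤ β) :
    2 * mn (fun z => max (u z * w z + β * w z ^ 2) 0) ≤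
      ip u w + Real.sqrt (ip u u * ip w w) + 2 * β * ip w w := by
  have h1 : (mn fun z => |u z * w z|) ≤ Real.sqrt (ip u u * ip w w) := by
    apply Real.le_sqrt_of_sq_le
    have h := ip_sq_le (fun z => |u z|) (fun z => |w z|)
    have e1 : ∀ v : Fin m → ℝ, ip (fun z => |v z|) (fun z => |v z|) = ip v v := by
      intro v
      rw [ip_eq_mn, ip_eq_mn]
      congr 1
      funext z
      exact abs_mul_abs_self _
    have e2 : ip (fun z => |u z|) (fun z => |w z|) = mn fun z => |u z * w z| := by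
      rw [ip_eq_mn]
      congr 1
      funext z
      rw [abs_mul]
    rw [e1, e1, e2] at h
    exact h
  have h2 : mn (fun z => max (u z * w z + β * w z ^ 2) 0) ≤
      mn fun z => 1 / 2 * ((u z * w z + |u z * w z|) + (2 * β) * (w z * w z)) := by
    apply mn_mono
    intro z
    have h3 : 0 ≤ β * w z ^ 2 := by positivity
    apply max_le
    · have := le_abs_self (u z * w z)
      nlinarith
    · have := neg_abs_le (u z * w z)
      nlinarith
  rw [mn_mul, mn_add, mn_add, mn_mul, ← ip_eq_mn u w, ← ip_eq_mn w w] at h2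
  linarith

/-! ### the message with its cap -/

/-- `MMaj` with the cap `f ≤ M (2 + g)` -/
def MMajC (S : Fin m → Fin m → ℝ) (f : Fin m → ℝ) (x y : ℝ[X]) (G0 b c : ℝ) : Prop :=
  ∃ (M g : ℝ), 0 < M ∧ 0 ≤ g ∧ g ≤ c ∧ Real.log M + g ≤ - b ∧ (∀ i, 0 ≤ f i) ∧
    (∀ i, f i ≤ M * (1 - (G0 - g) + st S x y i)) ∧ ∀ i, f i ≤ M * (2 + g)

theorem MMajC.cap {f : Fin m → ℝ} {x y : ℝ[X]} {G0 G0' b c : ℝ}
    (h : MMajC S f x y G0 b c) (hG : G0' ≤ G0) : MMajC S f x y G0' b c := by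
  obtain ⟨M, g, hM, hg0, hgc, hlog, hf0, hf, hf2⟩ := h
  exact ⟨M, g, hM, hg0, hgc, hlog, hf0, fun i => (hf i).trans
    (mul_le_mul_of_nonneg_left (by linarith) hM.le), hf2⟩

/-- an edge with the sign `s` -/
theorem Maj.msgC (hK : Ker S) {F : Fin m → ℝ} {x y : ℝ[X]} {b c : ℝ} (h : Maj S F x y b c)
    (hF : ∀ i, 0 ≤ F i) (s : ℝ) (hs : s = 1 ∨ s = -1) :
    MMajC S (TSO.msg S s F) (s • (1 - X * y)) (s • x) (s * mo S x) b c := by
  obtain ⟨M, G, h1, h2, h3, h4, h5⟩ := h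
  refine ⟨M, 2 * mn G, h1, by have := mn_nonneg h2; linarith, h5, h4,
    fun i => msg_nonneg S hK.bd s hs hF i, fun i => ?_, fun i => ?_⟩
  · have h6 := lin_step hK.pos S hK.bd s hs F (st S x y) G M h1.le h3 (mn_st S hK.anti x y) i
    refine h6.trans (le_of_eq ?_)
    have h7 : (mn fun j => |G j|) = mn G := by
      congr 1
      funext j
      exact abs_of_nonneg (h2 j)
    have h8 : beta S i + op (aker S) (st S x y) i = st S (1 - X * y) x i := by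
      rw [← beta_add_op_st]
      rfl
    rw [h7, ip_beta_st S hK.anti, h8, st_smul]
    simp only [Pi.smul_apply, smul_eq_mul]
    ring
  · have h6 : mn F ≤ M * (1 + mn G) := by
      refine (mn_mono h3).trans (le_of_eq ?_)
      rw [mn_mul, mn_add, mn_add, mn_const hK.pos, mn_st S hK.anti, add_zero]
    have h7 := op_abs_le S hK.bd F i
    have h8 : (mn fun j => |F j|) = mn F := by
      congr 1
      funext j
      exact abs_of_nonneg (hF j)
    rw [h8] at h7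
    have h9 : s * op S F i ≤ mn F := by
      have := abs_le.1 h7
      rcases hs with rfl | rfl <;> linarith [this.1, this.2]
    unfold TSO.msg
    linarith

/-- the rest of the children: `f ≤ M (1 + w + c w²)` and `f ≤ M c` for `w ≤ -1` -/
def RMaj (S : Fin m → Fin m → ℝ) (f : Fin m → ℝ) (x y : ℝ[X]) (c b : ℝ) : Prop :=
  ∃ M : ℝ, 0 < M ∧ Real.log M ≤ -b ∧ (∀ z, 0 ≤ f z) ∧
    (∀ z, f z ≤ M * (1 + st S x y z + c * st S x y z ^ 2)) ∧
    ∀ z, st S x y z ≤ -1 → f z ≤ M * c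

theorem RMaj.mono {f : Fin m → ℝ} {x y : ℝ[X]} {c b b' : ℝ} (h : RMaj S f x y c b)
    (hb : b' ≤ b) : RMaj S f x y c b' := by
  obtain ⟨M, h1, h2, h3⟩ := h
  exact ⟨M, h1, by linarith, h3⟩

/-- the product of a message and the rest; `N` is the factor of the net gain `ρ` -/
theorem left_core (hK : Ker S) {fL fR : Fin m → ℝ} {xL yL xR yR : ℝ[X]}
    {M N MR ρ B c τ g1 : ℝ} {G1 : Fin m → ℝ} (hM : 0 < M) (hN : 0 < N) (hMR : 0 < MR)
    (hτ : 0 < τ) (hc : 0 ≤ c) (hBc : 1 / 2 ≤ B * c)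
    (hf0 : ∀ z, 0 ≤ fL z) (hf : ∀ z, fL z ≤ M * (1 - ρ + st S xL yL z))
    (hfB : ∀ z, fL z ≤ M * (N * B)) (hG1 : ∀ z, 0 ≤ G1 z)
    (hG1f : ∀ z, 1 - ρ + st S xL yL z ≤ N * (1 + st S xL yL z + G1 z)) (hg1 : 2 * mn G1 ≤ g1)
    (hR0 : ∀ z, 0 ≤ fR z)
    (hR : ∀ z, fR z ≤ MR * (1 + st S xR yR z + c * st S xR yR z ^ 2))
    (hR1 : ∀ z, st S xR yR z ≤ -1 → fR z ≤ MR * c) :
    ∃ G : Fin m → ℝ, (∀ z, 0 ≤ G z) ∧
      (∀ z, fL z * fR z ≤ (M * N * MR) * (1 + st S (xL + xR) (yL + yR) z + G z)) ∧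
      2 * mn G ≤ g1 + (ip (st S xL yL) (st S xR yR) +
        τ / 2 * (en S xL yL + (N - 1 + ρ) ^ 2) + en S xR yR / (2 * τ)) / N +
        2 * (B * c) * en S xR yR := by
  obtain ⟨β, ε, hβ, hε, hs, h2⟩ := left_coef hBc
  set ξ := st S xL yL with hξ
  set w := st S xR yR with hw
  set k := N - 1 + ρ with hk
  set u : Fin m → ℝ := fun z => (ξ z - k) / N with hu
  refine ⟨fun z => G1 z + max (u z * w z + β * w z ^ 2) 0 + ε * w z ^ 2, fun z => ?_,
    fun z => ?_, ?_⟩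
  · have h3 := hG1 z
    have h4 := le_max_right (u z * w z + β * w z ^ 2) 0
    have h5 : 0 ≤ ε * w z ^ 2 := by positivity
    show 0 ≤ G1 z + max (u z * w z + β * w z ^ 2) 0 + ε * w z ^ 2
    linarith
  · set f := fL z / (M * N) with hfd
    set P := fR z / MR with hPd
    set a := (1 - ρ + ξ z) / N with had
    have hMN : 0 < M * N := by positivity
    have e1 : fL z = M * N * f := by rw [hfd]; field_simp
    have e2 : fR z = MR * P := by rw [hPd]; field_simp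
    have hf0' : 0 ≤ f := div_nonneg (hf0 z) hMN.le
    have hfa : f ≤ a := by
      rw [hfd, had, div_le_div_iff₀ hMN hN]
      have := hf z
      nlinarith [mul_le_mul_of_nonneg_right this hN.le]
    have hfB' : f ≤ B := by
      rw [hfd, div_le_iff₀ hMN]
      have := hfB z
      linarith
    have hP0 : 0 ≤ P := div_nonneg (hR0 z) hMR.le
    have hP : P ≤ 1 + w z + c * w z ^ 2 := by
      rw [hPd, div_le_iff₀ hMR]
      have := hR z
      linarith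
    have hP1 : w z ≤ -1 → P ≤ c := by
      intro h
      rw [hPd, div_le_iff₀ hMR]
      have := hR1 z h
      linarith
    have h3 := left_real hf0' hfa hfB' hc hε hs h2 hP0 hP hP1
    have h4 : a ≤ 1 + ξ z + G1 z := by
      rw [had, div_le_iff₀ hN]
      have := hG1f z
      linarith
    have e3 : a - 1 = u z := by
      rw [had, hu, hk]
      field_simp
      ring
    rw [e3] at h3
    have e4 : st S (xL + xR) (yL + yR) z = ξ z + w z := by
      rw [st_add]; rfl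
    rw [e1, e2, e4]
    calc M * N * f * (MR * P) = (M * N * MR) * (f * P) := by ring
      _ ≤ (M * N * MR) * (1 + (ξ z + w z) +
          (G1 z + max (u z * w z + β * w z ^ 2) 0 + ε * w z ^ 2)) := by
        apply mul_le_mul_of_nonneg_left _ (by positivity)
        linarith
  · have hmw : mn w = 0 := mn_st S hK.anti _ _
    have hmξ : mn ξ = 0 := mn_st S hK.anti _ _
    have hww : ip w w = en S xR yR := ip_st_self hK.anti _ _
    have hξξ : ip ξ ξ = en S xL yL := ip_st_self hK.anti _ _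
    have h3 := cross_cost u w β hβ
    have e1 : (mn fun z => G1 z + max (u z * w z + β * w z ^ 2) 0 + ε * w z ^ 2) =
        mn G1 + mn (fun z => max (u z * w z + β * w z ^ 2) 0) + ε * ip w w := by
      have : (fun z => G1 z + max (u z * w z + β * w z ^ 2) 0 + ε * w z ^ 2) =
          fun z => (G1 z + max (u z * w z + β * w z ^ 2) 0) + ε * (w z * w z) := by
        funext z; ring
      rw [this, mn_add, mn_add, mn_mul, ← ip_eq_mn]
    have e2 : ip u w = ip ξ w / N := by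
      rw [ip_eq_mn, ip_eq_mn]
      have : (fun z => u z * w z) = fun z => 1 / N * (ξ z * w z) + (- k / N) * w z := by
        funext z
        rw [hu]
        field_simp
        ring
      rw [this, mn_add, mn_mul, mn_mul, hmw]
      ring
    have e3 : ip u u = (en S xL yL + k ^ 2) / N ^ 2 := by
      have : (fun z => u z * u z) =
          fun z => 1 / N ^ 2 * (ξ z * ξ z + (-2 * k) * ξ z + k ^ 2) := by
        funext z
        rw [hu]
        field_simp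
        ring
      rw [ip_eq_mn, this, mn_mul, mn_add, mn_add, mn_mul, mn_const hK.pos, hmξ, ← ip_eq_mn,
        hξξ]
      ring
    rw [e1, hww]
    rw [e2, e3, hww] at h3
    have hq0 : 0 ≤ en S xR yR := en_nonneg hK.anti _ _
    have hδ0 : 0 ≤ en S xL yL := en_nonneg hK.anti _ _
    have h4 : Real.sqrt ((en S xL yL + k ^ 2) / N ^ 2 * en S xR yR) ≤
        (τ / 2 * (en S xL yL + k ^ 2) + en S xR yR / (2 * τ)) / N := by
      apply Real.sqrt_le_iff.2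
      have h5 : 0 ≤ en S xL yL + k ^ 2 := by positivity
      refine ⟨by positivity, ?_⟩
      have e5 : ((τ / 2 * (en S xL yL + k ^ 2) + en S xR yR / (2 * τ)) / N) ^ 2 -
          (en S xL yL + k ^ 2) / N ^ 2 * en S xR yR =
          ((τ / 2 * (en S xL yL + k ^ 2) - en S xR yR / (2 * τ)) / N) ^ 2 := by
        field_simp
        ring
      have := sq_nonneg ((τ / 2 * (en S xL yL + k ^ 2) - en S xR yR / (2 * τ)) / N)
      linarith
    have e6 : (ip ξ w + τ / 2 * (en S xL yL + k ^ 2) + en S xR yR / (2 * τ)) / N =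
        ip ξ w / N + (τ / 2 * (en S xL yL + k ^ 2) + en S xR yR / (2 * τ)) / N := by
      rw [← add_div, add_assoc]
    rw [e6, ← hs]
    linarith

/-- the mixed moment is at least `-(τ/2 δ + q/(2τ))` -/
theorem left_T (hK : Ker S) {xL yL xR yR : ℝ[X]} {τ : ℝ} (hτ : 0 < τ) :
    0 ≤ ip (st S xL yL) (st S xR yR) + τ / 2 * en S xL yL + en S xR yR / (2 * τ) := by
  set δ := en S xL yL with hδd
  set q := en S xR yR with hqd
  set J := ip (st S xL yL) (st S xR yR) with hJd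
  have hδ0 : 0 ≤ δ := en_nonneg hK.anti _ _
  have hq0 : 0 ≤ q := en_nonneg hK.anti _ _
  have h1 : J ^ 2 ≤ δ * q := by
    have := ip_sq_le (st S xL yL) (st S xR yR)
    rwa [ip_st_self hK.anti, ip_st_self hK.anti] at this
  have h2 : δ * q ≤ (τ / 2 * δ + q / (2 * τ)) ^ 2 := by
    have e5 : (τ / 2 * δ + q / (2 * τ)) ^ 2 - δ * q = (τ / 2 * δ - q / (2 * τ)) ^ 2 := by
      field_simp
      ring
    have := sq_nonneg (τ / 2 * δ - q / (2 * τ))
    linarith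
  have h3 : 0 ≤ τ / 2 * δ + q / (2 * τ) := by positivity
  have h4 := abs_le_of_sq_le_sq (h1.trans h2) h3
  linarith [(abs_le.1 h4).1]

/-- the gain side -/
theorem left_gain (hK : Ker S) {fL fR : Fin m → ℝ} {xL yL xR yR : ℝ[X]}
    {M g G0 bL bR c : ℝ} (hM : 0 < M) (hg0 : 0 ≤ g) (hlog : Real.log M + g ≤ - bL)
    (hf0 : ∀ i, 0 ≤ fL i) (hf : ∀ i, fL i ≤ M * (1 - (G0 - g) + st S xL yL i))
    (hf2 : ∀ i, fL i ≤ M * (2 + g)) (hρ : g ≤ G0)
    (hR : RMaj S fR xR yR c bR) (D1 χ0 K E P κ τ ω ϑ B1 : ℝ) (hD1 : 0 ≤ D1)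
    (hχ0 : 0 < χ0) (hχ01 : χ0 ≤ 1) (hχD : D1 ≤ χ0 ^ 2 * (1 + D1)) (hE0 : 0 ≤ E)
    (hE : en S xL yL ≤ D1 + E) (hKP : P ≤ K * (2 * χ0 * (1 + D1) ^ 2))
    (hG0 : G0 ≤ P) (hP0 : 0 ≤ P) (hP : P ≤ 1 / 2) (hκ0 : 0 ≤ κ) (hκ1 : κ ≤ 1)
    (hκ : 1 ≤ 4 * κ * (1 - P) * (1 + κ * P))
    (hτ : 0 < τ) (hω0 : 0 ≤ ω) (hω : 1 ≤ ω * (1 - (1 - χ0 ^ 2) * P))
    (hϑ : ω * τ * χ0 ^ 4 * P / 2 ≤ ϑ) (hB1 : 2 * ω ≤ B1) (hB1' : 2 + P ≤ B1)
    (hc : 1 / 4 ≤ c) {b' c' : ℝ}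
    (hb1 : b' ≤ bL + bR + (1 - χ0 - ϑ) * G0 - K * E - ω * (ip (st S xL yL) (st S xR yR) +
      (1 + P ^ 2 / 4) * (τ / 2) * en S xL yL + en S xR yR / (2 * τ)) -
      2 * (B1 * c) * en S xR yR)
    (hc1 : (κ + ϑ) * G0 + ω * (ip (st S xL yL) (st S xR yR) +
      (1 + P ^ 2 / 4) * (τ / 2) * en S xL yL + en S xR yR / (2 * τ)) +
      2 * (B1 * c) * en S xR yR ≤ c') :
    Maj S (fun z => fL z * fR z) (xL + xR) (yL + yR) b' c' := by
  obtain ⟨MR, hMR, hlogR, hR0, hR1, hR2⟩ := hR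
  have hT2 := left_T hK (xL := xL) (yL := yL) (xR := xR) (yR := yR) hτ
  set δ := en S xL yL with hδd
  set q := en S xR yR with hqd
  set J := ip (st S xL yL) (st S xR yR) with hJd
  have hδ0 : 0 ≤ δ := en_nonneg hK.anti _ _
  have hq0 : 0 ≤ q := en_nonneg hK.anti _ _
  have hϑ0 : 0 ≤ ϑ := le_trans (by positivity) hϑ
  set ρ := G0 - g with hρd
  have hρ0 : 0 ≤ ρ := by linarith
  have hρP : ρ ≤ P := by linarith
  have hG00 : 0 ≤ G0 := hg0.trans hρ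
  have h1δ : 0 < 1 + δ := by linarith
  set χ1 := max χ0 (Real.sqrt (δ / (1 + δ))) with hχd
  have hχ10 : χ0 ≤ χ1 := le_max_left _ _
  have hχ1p : 0 < χ1 := lt_of_lt_of_le hχ0 hχ10
  have hχ11 : χ1 ≤ 1 := by
    apply max_le hχ01
    apply Real.sqrt_le_one.2
    rw [div_le_one h1δ]
    linarith
  have hχ2 : δ ≤ χ1 ^ 2 * (1 + δ) := by
    have h1 : Real.sqrt (δ / (1 + δ)) ≤ χ1 := le_max_right _ _
    have h2 := pow_le_pow_left₀ (Real.sqrt_nonneg _) h1 2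
    rw [Real.sq_sqrt (by positivity), div_le_iff₀ h1δ] at h2
    exact h2
  have hden : 0 < 2 * χ0 * (1 + D1) ^ 2 := by positivity
  have hKE : 0 ≤ K * E := by
    have : 0 ≤ K := by
      by_contra hK0
      push Not at hK0
      have := mul_neg_of_neg_of_pos hK0 hden
      linarith
    positivity
  have hkey : (χ1 - χ0) * G0 ≤ K * E := by
    rcases max_choice χ0 (Real.sqrt (δ / (1 + δ))) with h | h
    · rw [← hχd] at h
      rw [h, sub_self, zero_mul]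
      exact hKE
    · rw [← hχd] at h
      have htan := chi_tangent δ D1 χ0 hδ0 hD1 hχ0 hχD
      rw [← h] at htan
      have h2 : χ1 - χ0 ≤ E / (2 * χ0 * (1 + D1) ^ 2) := by
        have : (δ - D1) / (2 * χ0 * (1 + D1) ^ 2) ≤ E / (2 * χ0 * (1 + D1) ^ 2) :=
          div_le_div_of_nonneg_right (by linarith) hden.le
        linarith
      have h3 : (χ1 - χ0) * G0 ≤ E / (2 * χ0 * (1 + D1) ^ 2) * G0 :=
        mul_le_mul_of_nonneg_right h2 hG00
      refine h3.trans ?_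
      rw [div_mul_eq_mul_div, div_le_iff₀ hden]
      have h4 : E * G0 ≤ E * P := mul_le_mul_of_nonneg_left hG0 hE0
      have h5 : E * P ≤ E * (K * (2 * χ0 * (1 + D1) ^ 2)) :=
        mul_le_mul_of_nonneg_left hKP hE0
      calc E * G0 ≤ E * (K * (2 * χ0 * (1 + D1) ^ 2)) := h4.trans h5
        _ = _ := by ring
  have hχ4 : (χ1 ^ 2 * ρ) ^ 2 ≤ χ0 ^ 4 * P * ρ + P ^ 2 / 4 * δ := by
    have hρρ : ρ ^ 2 ≤ P * ρ := by
      rw [sq]
      exact mul_le_mul_of_nonneg_right hρP hρ0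
    have hρP2 : ρ ^ 2 ≤ P ^ 2 := pow_le_pow_left₀ hρ0 hρP 2
    rcases max_choice χ0 (Real.sqrt (δ / (1 + δ))) with h | h
    · rw [← hχd] at h
      rw [h]
      have h1 : χ0 ^ 4 * ρ ^ 2 ≤ χ0 ^ 4 * (P * ρ) :=
        mul_le_mul_of_nonneg_left hρρ (by positivity)
      have h2 : 0 ≤ P ^ 2 / 4 * δ := by positivity
      calc (χ0 ^ 2 * ρ) ^ 2 = χ0 ^ 4 * ρ ^ 2 := by ring
        _ ≤ _ := by linarith
    · rw [← hχd] at h
      have h1 : χ1 ^ 2 = δ / (1 + δ) := by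
        rw [h, Real.sq_sqrt (by positivity)]
      have h2 : (δ / (1 + δ)) ^ 2 ≤ δ / 4 := by
        rw [div_pow, div_le_div_iff₀ (by positivity) (by norm_num)]
        have h5 : δ * (1 + δ) ^ 2 - δ ^ 2 * 4 = δ * (1 - δ) ^ 2 := by ring
        have := mul_nonneg hδ0 (sq_nonneg (1 - δ))
        linarith
      have h3 : 0 ≤ χ0 ^ 4 * P * ρ := by positivity
      calc (χ1 ^ 2 * ρ) ^ 2 = (δ / (1 + δ)) ^ 2 * ρ ^ 2 := by rw [h1]; ring
        _ ≤ δ / 4 * P ^ 2 := mul_le_mul h2 hρP2 (by positivity) (by positivity)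
        _ ≤ _ := by linarith
  set l := 1 - χ1 ^ 2 with hl
  have hl0 : 0 ≤ l := by
    have : χ1 ^ 2 ≤ 1 := pow_le_one₀ hχ1p.le hχ11
    linarith
  have hl1 : l ≤ 1 - χ0 ^ 2 := by
    have : χ0 ^ 2 ≤ χ1 ^ 2 := pow_le_pow_left₀ hχ0.le hχ10 2
    linarith
  have hl2 : l ≤ 1 := by
    have := sq_nonneg χ1
    linarith
  have hlG : l * G0 ≤ (1 - χ0 ^ 2) * P :=
    mul_le_mul hl1 hG0 hG00 (hl0.trans hl1)
  have hlρ : l * ρ ≤ l * G0 := mul_le_mul_of_nonneg_left (by linarith) hl0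
  have hlρ0 : 0 ≤ l * ρ := mul_nonneg hl0 hρ0
  have hlρ1 : l * ρ ≤ ρ := mul_le_of_le_one_left hρ0 hl2
  have hlG1 : l * G0 ≤ G0 := mul_le_of_le_one_left hG00 hl2
  set N := 1 - l * ρ with hN
  have hN0 : 0 < N := by linarith
  have hωN : 1 ≤ ω * N := by
    have : ω * (1 - (1 - χ0 ^ 2) * P) ≤ ω * N :=
      mul_le_mul_of_nonneg_left (by linarith) hω0
    linarith
  have hcap : 2 + g ≤ N * B1 := by
    rcases hG00.eq_or_lt with h0 | h0
    · have h1 : ρ = 0 := by linarith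
      have h2 : g = 0 := by linarith
      rw [hN, h1, h2]
      linarith
    · have h1 : 0 ≤ B1 * (1 - l * G0) - 2 := by
        have h3 : 0 ≤ 1 - l * G0 := by linarith
        have h4 : 2 * ω * (1 - l * G0) ≤ B1 * (1 - l * G0) :=
          mul_le_mul_of_nonneg_right hB1 h3
        have h5 : ω * (1 - (1 - χ0 ^ 2) * P) ≤ ω * (1 - l * G0) :=
          mul_le_mul_of_nonneg_left (by linarith) hω0
        linarith
      have h2 : G0 * (N * B1 - (2 + g)) =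
          (G0 - ρ) * (B1 - 2 - G0) + ρ * (B1 * (1 - l * G0) - 2) := by
        have : g = G0 - ρ := by rw [hρd]; ring
        rw [hN, this]
        ring
      have h3 : 0 ≤ G0 * (N * B1 - (2 + g)) := by
        rw [h2]
        exact add_nonneg (mul_nonneg (by linarith) (by linarith)) (mul_nonneg hρ0 h1)
      have h4 := nonneg_of_mul_nonneg_right h3 h0
      linarith
  obtain ⟨G1, hG1, hG1f, hmG1⟩ := one_gain hK.pos (fun i => 1 - ρ + st S xL yL i)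
    (st S xL yL) 1 ρ l δ zero_le_one hρ0 (by linarith) (fun i => by rw [one_mul])
    (mn_st S hK.anti xL yL) (ip_st_self hK.anti xL yL).le
  have hsq : Real.sqrt (l ^ 2 * δ + (1 - l) ^ 2) ≤ χ1 := by
    apply Real.sqrt_le_iff.2
    refine ⟨hχ1p.le, ?_⟩
    have h1 : l ^ 2 * δ ≤ l * χ1 ^ 2 := by
      have h2 : l * δ ≤ χ1 ^ 2 := by
        have h3 : l * δ = δ - χ1 ^ 2 * δ := by rw [hl]; ring
        have h4 : χ1 ^ 2 * (1 + δ) = χ1 ^ 2 + χ1 ^ 2 * δ := by ring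
        linarith
      calc l ^ 2 * δ = l * (l * δ) := by ring
        _ ≤ _ := mul_le_mul_of_nonneg_left h2 hl0
    have h5 : l * χ1 ^ 2 + (1 - l) ^ 2 = χ1 ^ 2 := by rw [hl]; ring
    linarith
  have hmG2 : 2 * mn G1 ≤ ρ / N * (χ1 - χ1 ^ 2) := by
    refine hmG1.trans ?_
    rw [← hN]
    refine mul_le_mul_of_nonneg_left ?_ (by positivity)
    linarith
  have hB1c : 1 / 2 ≤ B1 * c := by
    have h1 : 2 * c ≤ B1 * c := mul_le_mul_of_nonneg_right (by linarith) (by linarith)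
    linarith
  obtain ⟨G, hG, hGf, hmG⟩ := left_core hK (M := M) (N := N) (MR := MR) (ρ := ρ) (B := B1)
    (c := c) (τ := τ) hM hN0 hMR hτ (by linarith) hB1c hf0 hf
    (fun z => (hf2 z).trans (mul_le_mul_of_nonneg_left hcap hM.le)) hG1
    (fun z => by
      have := hG1f z
      rwa [one_mul] at this) hmG2 hR0 hR1 hR2
  have hk : N - 1 + ρ = χ1 ^ 2 * ρ := by rw [hN, hl]; ring
  rw [hk, ← hδd, ← hqd, ← hJd] at hmG
  set T1 := J + (1 + P ^ 2 / 4) * (τ / 2) * δ + q / (2 * τ) with hT1d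
  have hPδ : 0 ≤ P ^ 2 / 4 * (τ / 2) * δ := by positivity
  have eT1 : T1 = (J + τ / 2 * δ + q / (2 * τ)) + P ^ 2 / 4 * (τ / 2) * δ := by
    rw [hT1d]; ring
  have hT1 : 0 ≤ T1 := by linarith
  have hTN : (J + τ / 2 * (δ + (χ1 ^ 2 * ρ) ^ 2) + q / (2 * τ)) / N ≤ ω * T1 + ϑ * ρ := by
    rw [div_le_iff₀ hN0]
    have h1 : τ / 2 * (χ1 ^ 2 * ρ) ^ 2 ≤ τ / 2 * (χ0 ^ 4 * P * ρ + P ^ 2 / 4 * δ) :=
      mul_le_mul_of_nonneg_left hχ4 (by positivity)
    have h2 : T1 * 1 ≤ T1 * (ω * N) := mul_le_mul_of_nonneg_left hωN hT1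
    have h3 : 0 ≤ τ / 2 * (χ0 ^ 4 * P * ρ) := by positivity
    have h4 : τ / 2 * (χ0 ^ 4 * P * ρ) * 1 ≤ τ / 2 * (χ0 ^ 4 * P * ρ) * (ω * N) :=
      mul_le_mul_of_nonneg_left hωN h3
    have h5 : ω * τ * χ0 ^ 4 * P / 2 * (ρ * N) ≤ ϑ * (ρ * N) :=
      mul_le_mul_of_nonneg_right hϑ (by positivity)
    have h6 : τ / 2 * (χ0 ^ 4 * P * ρ) * (ω * N) = ω * τ * χ0 ^ 4 * P / 2 * (ρ * N) := by ring
    have h7 : τ / 2 * (χ0 ^ 4 * P * ρ + P ^ 2 / 4 * δ) =
        τ / 2 * (χ0 ^ 4 * P * ρ) + P ^ 2 / 4 * (τ / 2) * δ := by ring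
    calc J + τ / 2 * (δ + (χ1 ^ 2 * ρ) ^ 2) + q / (2 * τ) =
        (J + τ / 2 * δ + q / (2 * τ)) + τ / 2 * (χ1 ^ 2 * ρ) ^ 2 := by ring
      _ ≤ T1 * (ω * N) + ϑ * (ρ * N) := by linarith
      _ = _ := by ring
  have hpart : ρ / N * (χ1 - χ1 ^ 2) + Real.log N ≤ - ((1 - χ1) * ρ) := by
    have hr : l * ρ ≤ 1 - χ1 := by
      have h1 : l * ρ = (1 - χ1) * ((1 + χ1) * ρ) := by rw [hl]; ring
      have h2 : (1 + χ1) * ρ ≤ 1 := by
        have : (1 + χ1) * ρ ≤ 2 * (1 / 2) :=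
          mul_le_mul (by linarith) (by linarith) hρ0 (by norm_num)
        linarith
      rw [h1]
      exact mul_le_of_le_one_right (by linarith) h2
    have haux := log_aux χ1 (l * ρ) hχ1p.le hlρ0 (by linarith) hr
    rw [← hN] at haux
    have h1χ : 0 < 1 + χ1 := by linarith
    have e1 : (1 + χ1) * (ρ / N * (χ1 - χ1 ^ 2)) = χ1 * (l * ρ / N) := by
      rw [hl]
      field_simp
      ring
    have h3 : (1 + χ1) * (ρ / N * (χ1 - χ1 ^ 2) + Real.log N) ≤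
        (1 + χ1) * (- ((1 - χ1) * ρ)) := by
      have e2 : (1 + χ1) * (- ((1 - χ1) * ρ)) = - (l * ρ) := by rw [hl]; ring
      rw [e2, mul_add, e1]
      linarith
    exact le_of_mul_le_mul_left h3 h1χ
  refine ⟨M * N * MR, G, by positivity, hG, hGf, ?_, ?_⟩
  · rw [Real.log_mul (by positivity) hMR.ne', Real.log_mul hM.ne' hN0.ne']
    have h1 : (1 - χ1) * ρ = (1 - χ1) * G0 - g + χ1 * g := by rw [hρd]; ring
    have h2 : 0 ≤ χ1 * g := mul_nonneg hχ1p.le hg0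
    have h3 : ϑ * ρ = ϑ * G0 - ϑ * g := by rw [hρd]; ring
    have h4 : 0 ≤ ϑ * g := mul_nonneg hϑ0 hg0
    have h5 : (1 - χ1) * G0 = (1 - χ0) * G0 - (χ1 - χ0) * G0 := by ring
    have h6 : (1 - χ0 - ϑ) * G0 = (1 - χ0) * G0 - ϑ * G0 := by ring
    linarith
  · have h1 : ρ / N * (χ1 - χ1 ^ 2) ≤ κ * ρ := by
      have h2 : 1 ≤ 4 * κ * (1 - ρ) * (1 + κ * ρ) := by
        refine hκ.trans ?_
        have h3 : (1 - P) * (1 + κ * P) ≤ (1 - ρ) * (1 + κ * ρ) := by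
          have h31 : 0 ≤ κ * (P - ρ) := mul_nonneg hκ0 (by linarith)
          have h32 : 0 ≤ (P - ρ) * (1 - κ) := mul_nonneg (by linarith) (by linarith)
          have h33 : 0 ≤ κ * (P - ρ) * (P + ρ) := mul_nonneg h31 (by linarith)
          linarith
        calc 4 * κ * (1 - P) * (1 + κ * P) = 4 * κ * ((1 - P) * (1 + κ * P)) := by ring
          _ ≤ 4 * κ * ((1 - ρ) * (1 + κ * ρ)) := mul_le_mul_of_nonneg_left h3 (by linarith)
          _ = _ := by ring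
      have h3 : χ1 * (1 - χ1) ≤ κ * N := by
        have h4 : 0 ≤ κ * ρ := mul_nonneg hκ0 hρ0
        have h5 : 0 < 4 * (1 + κ * ρ) := by linarith
        have h6 : 4 * (1 + κ * ρ) * (κ * N - χ1 * (1 - χ1)) =
            (2 * (1 + κ * ρ) * χ1 - 1) ^ 2 + (4 * κ * (1 - ρ) * (1 + κ * ρ) - 1) := by
          rw [hN, hl]
          ring
        have h7 : 0 ≤ 4 * (1 + κ * ρ) * (κ * N - χ1 * (1 - χ1)) := by
          rw [h6]
          have := sq_nonneg (2 * (1 + κ * ρ) * χ1 - 1)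
          linarith
        have h8 := nonneg_of_mul_nonneg_right h7 h5
        linarith
      rw [div_mul_eq_mul_div, div_le_iff₀ hN0]
      calc ρ * (χ1 - χ1 ^ 2) = ρ * (χ1 * (1 - χ1)) := by ring
        _ ≤ ρ * (κ * N) := mul_le_mul_of_nonneg_left h3 hρ0
        _ = _ := by ring
    have h2 : (κ + ϑ) * ρ ≤ (κ + ϑ) * G0 :=
      mul_le_mul_of_nonneg_left (by linarith) (by linarith)
    linarith

/-- the loss side -/
theorem left_loss (hK : Ker S) {fL fR : Fin m → ℝ} {xL yL xR yR : ℝ[X]}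
    {M g G0 χ bL cL bR c e : ℝ} (hM : 0 < M) (hgc : g ≤ cL + e)
    (hlog : Real.log M + g ≤ - (bL + χ * e)) (he : 0 ≤ e)
    (hf0 : ∀ i, 0 ≤ fL i) (hf : ∀ i, fL i ≤ M * (1 - (G0 - g) + st S xL yL i))
    (hf2 : ∀ i, fL i ≤ M * (2 + g)) (hρ : G0 ≤ g)
    (hR : RMaj S fR xR yR c bR) (E P s K1 K2 τ B2 : ℝ) (hG0 : G0 ≤ P) (hP0 : 0 ≤ P)
    (hs0 : 0 ≤ s) (hsχ : s ≤ χ)
    (hH1 : ∀ r, 0 ≤ r → Real.log (1 + r) + r / (1 + r) * Real.sqrt (en S xL yL) ≤
      (1 + s) * r + K1 * E)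
    (hH2 : ∀ r, 0 ≤ r → Real.log (1 + r) + (1 + χ) * (r / (1 + r)) * Real.sqrt (en S xL yL) ≤
      (1 + χ) * r + K2 * E)
    (hτ : 0 < τ) (hB2 : 2 + P ≤ B2) (hc : 1 / 4 ≤ c) {b' c' : ℝ}
    (hb2 : b' ≤ bL + bR + G0 - s * (cL - G0) - K1 * E - (ip (st S xL yL) (st S xR yR) +
      τ / 2 * en S xL yL + en S xR yR / (2 * τ)) - 2 * (B2 * c) * en S xR yR)
    (hb3 : b' ≤ bL + bR + G0 - χ * (cL - G0) - K2 * E + χ * c' - (1 + χ) *
      ((ip (st S xL yL) (st S xR yR) + τ / 2 * en S xL yL + en S xR yR / (2 * τ)) +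
      2 * (B2 * c) * en S xR yR)) :
    MajE S (fun z => fL z * fR z) (xL + xR) (yL + yR) χ b' c' := by
  obtain ⟨MR, hMR, hlogR, hR0, hR1, hR2⟩ := hR
  have hχ00 : 0 ≤ χ := hs0.trans hsχ
  have hT2 := left_T hK (xL := xL) (yL := yL) (xR := xR) (yR := yR) hτ
  set δ := en S xL yL with hδd
  set q := en S xR yR with hqd
  set J := ip (st S xL yL) (st S xR yR) with hJd
  set r := g - G0 with hrd
  have hr : 0 ≤ r := by linarith
  have h1r : 0 < 1 + r := by linarith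
  have hrc : r ≤ cL + e - G0 := by linarith
  have hB2c : 1 / 2 ≤ B2 * c := by
    have h1 : 2 * c ≤ B2 * c := mul_le_mul_of_nonneg_right (by linarith) (by linarith)
    linarith
  have hcap : 2 + g ≤ (1 + r) * B2 := by
    have h1 : (1 + r) * (2 + P) ≤ (1 + r) * B2 := mul_le_mul_of_nonneg_left hB2 h1r.le
    have h2 : 0 ≤ r * P := mul_nonneg hr hP0
    have h3 : (1 + r) * (2 + P) = 2 + P + 2 * r + r * P := by ring
    linarith
  obtain ⟨G1, hG1, hG1f, hmG1⟩ := one_loss_raw hK (x := xL) (y := yL)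
    (f := fun i => 1 + r + st S xL yL i) one_pos hr (fun i => by rw [one_mul])
  obtain ⟨G, hG, hGf, hmG⟩ := left_core hK (M := M) (N := 1 + r) (MR := MR) (ρ := -r)
    (B := B2) (c := c) (τ := τ) hM h1r hMR hτ (by linarith) hB2c hf0
    (fun z => (hf z).trans (le_of_eq (by rw [hrd]; ring)))
    (fun z => (hf2 z).trans (mul_le_mul_of_nonneg_left hcap hM.le)) hG1
    (fun z => by
      have := hG1f z
      rw [one_mul] at this
      linarith) hmG1 hR0 hR1 hR2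
  have hk : J + τ / 2 * (δ + (1 + r - 1 + -r) ^ 2) + q / (2 * τ) =
      J + τ / 2 * δ + q / (2 * τ) := by ring
  rw [← hδd, ← hqd, ← hJd, hk] at hmG
  set T0 := J + τ / 2 * δ + q / (2 * τ) with hT0
  have hTN : T0 / (1 + r) ≤ T0 := div_le_self hT2 (by linarith)
  have h1 := hH1 r hr
  have h2 := hH2 r hr
  set T := T0 + 2 * (B2 * c) * q with hT
  set cost := r / (1 + r) * Real.sqrt δ with hcost
  have hmG' : 2 * mn G ≤ cost + T := by rw [hT]; linarith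
  have hchi : χ * r ≤ χ * (cL - G0) + χ * e := by
    have := mul_le_mul_of_nonneg_left hrc hχ00
    linarith
  have hsr : s * r ≤ s * (cL - G0) + χ * e := by
    have h3 := mul_le_mul_of_nonneg_left hrc hs0
    have h4 := mul_le_mul_of_nonneg_right hsχ he
    linarith
  refine ⟨max (cost + T - c') 0, le_max_right _ _, M * (1 + r) * MR, G, by positivity, hG,
    hGf, ?_, ?_⟩
  · rw [Real.log_mul (by positivity) hMR.ne', Real.log_mul hM.ne' h1r.ne']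
    rcases le_total (cost + T - c') 0 with h3 | h3
    · rw [max_eq_right h3, mul_zero, add_zero]
      linarith
    · rw [max_eq_left h3]
      have h5 : (1 + χ) * (r / (1 + r)) * Real.sqrt δ = (1 + χ) * cost := by
        rw [hcost]; ring
      rw [h5] at h2
      linarith
  · refine hmG'.trans ?_
    have := le_max_left (cost + T - c') 0
    linarith

/-- **one child split off, message level, excess form**. `P ≥ G0` is the cap of the counted gain,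
`hb1` is used on the gain side, `hb2` and `hb3` on the loss side -/
theorem MMajC.left (hK : Ker S) {fL fR : Fin m → ℝ} {xL yL xR yR : ℝ[X]}
    {G0 χ bL cL bR c e : ℝ} (he : 0 ≤ e) (hL : MMajC S fL xL yL G0 (bL + χ * e) (cL + e))
    (hR : RMaj S fR xR yR c bR) (D1 χ0 K E P κ s K1 K2 τ ω ϑ B1 B2 : ℝ) (hD1 : 0 ≤ D1)
    (hχ0 : 0 < χ0) (hχ01 : χ0 ≤ 1) (hχD : D1 ≤ χ0 ^ 2 * (1 + D1)) (hE0 : 0 ≤ E)
    (hE : en S xL yL ≤ D1 + E) (hKP : P ≤ K * (2 * χ0 * (1 + D1) ^ 2))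
    (hG0 : G0 ≤ P) (hP0 : 0 ≤ P) (hP : P ≤ 1 / 2) (hκ0 : 0 ≤ κ) (hκ1 : κ ≤ 1)
    (hκ : 1 ≤ 4 * κ * (1 - P) * (1 + κ * P)) (hs0 : 0 ≤ s) (hsχ : s ≤ χ)
    (hH1 : ∀ r, 0 ≤ r → Real.log (1 + r) + r / (1 + r) * Real.sqrt (en S xL yL) ≤
      (1 + s) * r + K1 * E)
    (hH2 : ∀ r, 0 ≤ r → Real.log (1 + r) + (1 + χ) * (r / (1 + r)) * Real.sqrt (en S xL yL) ≤
      (1 + χ) * r + K2 * E)
    (hτ : 0 < τ) (hω0 : 0 ≤ ω) (hω : 1 ≤ ω * (1 - (1 - χ0 ^ 2) * P))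
    (hϑ : ω * τ * χ0 ^ 4 * P / 2 ≤ ϑ) (hB1 : 2 * ω ≤ B1) (hB1' : 2 + P ≤ B1)
    (hB2 : 2 + P ≤ B2) (hc : 1 / 4 ≤ c) {b' c' : ℝ}
    (hb1 : b' ≤ bL + bR + (1 - χ0 - ϑ) * G0 - K * E - ω * (ip (st S xL yL) (st S xR yR) +
      (1 + P ^ 2 / 4) * (τ / 2) * en S xL yL + en S xR yR / (2 * τ)) -
      2 * (B1 * c) * en S xR yR)
    (hb2 : b' ≤ bL + bR + G0 - s * (cL - G0) - K1 * E - (ip (st S xL yL) (st S xR yR) +
      τ / 2 * en S xL yL + en S xR yR / (2 * τ)) - 2 * (B2 * c) * en S xR yR)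
    (hb3 : b' ≤ bL + bR + G0 - χ * (cL - G0) - K2 * E + χ * c' - (1 + χ) *
      ((ip (st S xL yL) (st S xR yR) + τ / 2 * en S xL yL + en S xR yR / (2 * τ)) +
      2 * (B2 * c) * en S xR yR))
    (hc1 : (κ + ϑ) * G0 + ω * (ip (st S xL yL) (st S xR yR) +
      (1 + P ^ 2 / 4) * (τ / 2) * en S xL yL + en S xR yR / (2 * τ)) +
      2 * (B1 * c) * en S xR yR ≤ c') :
    MajE S (fun z => fL z * fR z) (xL + xR) (yL + yR) χ b' c' := by
  have hχ00 : 0 ≤ χ := hs0.trans hsχ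
  obtain ⟨M, g, hM, hg0, hgc, hlog, hf0, hf, hf2⟩ := hL
  rcases le_total g G0 with hρ | hρ
  · refine (left_gain hK hM hg0 (bL := bL) ?_ hf0 hf hf2 hρ hR D1 χ0 K E P κ τ ω ϑ B1 hD1 hχ0
      hχ01 hχD hE0 hE hKP hG0 hP0 hP hκ0 hκ1 hκ hτ hω0 hω hϑ hB1 hB1' hc hb1 hc1).toE χ
    have := mul_nonneg hχ00 he
    linarith
  · exact left_loss hK hM hgc hlog he hf0 hf hf2 hρ hR E P s K1 K2 τ B2 hG0 hP0 hs0 hsχ
      hH1 hH2 hτ hB2 hc hb2 hb3

/-- the pending cost may exceed `c'`: the excess is charged with `χ` -/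
theorem Maj.toE' {F : Fin m → ℝ} {x y : ℝ[X]} {b c χ b' c' : ℝ} (h : Maj S F x y b c)
    (h1 : b' ≤ b) (h2 : b' ≤ b - χ * (c - c')) : MajE S F x y χ b' c' := by
  refine ⟨max (c - c') 0, le_max_right _ _, h.mono ?_ ?_⟩
  · rcases le_total (c - c') 0 with h3 | h3
    · rw [max_eq_right h3, mul_zero, add_zero]
      exact h1
    · rw [max_eq_left h3]
      linarith
  · have := le_max_left (c - c') 0
    linarith

/-- **one child split off, message level, excess form on both sides**. `hb1`, `hb1'` are used on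
the gain side, `hb2` and `hb3` on the loss side -/
theorem MMajC.left' (hK : Ker S) {fL fR : Fin m → ℝ} {xL yL xR yR : ℝ[X]}
    {G0 χ bL cL bR c e : ℝ} (he : 0 ≤ e) (hL : MMajC S fL xL yL G0 (bL + χ * e) (cL + e))
    (hR : RMaj S fR xR yR c bR) (D1 χ0 K E P κ s K1 K2 τ ω ϑ B1 B2 : ℝ) (hD1 : 0 ≤ D1)
    (hχ0 : 0 < χ0) (hχ01 : χ0 ≤ 1) (hχD : D1 ≤ χ0 ^ 2 * (1 + D1)) (hE0 : 0 ≤ E)
    (hE : en S xL yL ≤ D1 + E) (hKP : P ≤ K * (2 * χ0 * (1 + D1) ^ 2))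
    (hG0 : G0 ≤ P) (hP0 : 0 ≤ P) (hP : P ≤ 1 / 2) (hκ0 : 0 ≤ κ) (hκ1 : κ ≤ 1)
    (hκ : 1 ≤ 4 * κ * (1 - P) * (1 + κ * P)) (hs0 : 0 ≤ s) (hsχ : s ≤ χ)
    (hH1 : ∀ r, 0 ≤ r → Real.log (1 + r) + r / (1 + r) * Real.sqrt (en S xL yL) ≤
      (1 + s) * r + K1 * E)
    (hH2 : ∀ r, 0 ≤ r → Real.log (1 + r) + (1 + χ) * (r / (1 + r)) * Real.sqrt (en S xL yL) ≤
      (1 + χ) * r + K2 * E)
    (hτ : 0 < τ) (hω0 : 0 ≤ ω) (hω : 1 ≤ ω * (1 - (1 - χ0 ^ 2) * P))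
    (hϑ : ω * τ * χ0 ^ 4 * P / 2 ≤ ϑ) (hB1 : 2 * ω ≤ B1) (hB1' : 2 + P ≤ B1)
    (hB2 : 2 + P ≤ B2) (hc : 1 / 4 ≤ c) {b' c' : ℝ}
    (hb1 : b' ≤ bL + bR + (1 - χ0 - ϑ) * G0 - K * E - ω * (ip (st S xL yL) (st S xR yR) +
      (1 + P ^ 2 / 4) * (τ / 2) * en S xL yL + en S xR yR / (2 * τ)) -
      2 * (B1 * c) * en S xR yR)
    (hb1' : b' ≤ bL + bR + (1 - χ0 - ϑ) * G0 - K * E - ω * (ip (st S xL yL) (st S xR yR) +
      (1 + P ^ 2 / 4) * (τ / 2) * en S xL yL + en S xR yR / (2 * τ)) -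
      2 * (B1 * c) * en S xR yR - χ * ((κ + ϑ) * G0 + ω * (ip (st S xL yL) (st S xR yR) +
      (1 + P ^ 2 / 4) * (τ / 2) * en S xL yL + en S xR yR / (2 * τ)) +
      2 * (B1 * c) * en S xR yR - c'))
    (hb2 : b' ≤ bL + bR + G0 - s * (cL - G0) - K1 * E - (ip (st S xL yL) (st S xR yR) +
      τ / 2 * en S xL yL + en S xR yR / (2 * τ)) - 2 * (B2 * c) * en S xR yR)
    (hb3 : b' ≤ bL + bR + G0 - χ * (cL - G0) - K2 * E + χ * c' - (1 + χ) *
      ((ip (st S xL yL) (st S xR yR) + τ / 2 * en S xL yL + en S xR yR / (2 * τ)) +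
      2 * (B2 * c) * en S xR yR)) :
    MajE S (fun z => fL z * fR z) (xL + xR) (yL + yR) χ b' c' := by
  have hχ00 : 0 ≤ χ := hs0.trans hsχ
  obtain ⟨M, g, hM, hg0, hgc, hlog, hf0, hf, hf2⟩ := hL
  rcases le_total g G0 with hρ | hρ
  · have hlog' : Real.log M + g ≤ - bL := by
      have := mul_nonneg hχ00 he
      linarith
    exact (left_gain hK hM hg0 hlog' hf0 hf hf2 hρ hR D1 χ0 K E P κ τ ω ϑ B1 hD1 hχ0
      hχ01 hχD hE0 hE hKP hG0 hP0 hP hκ0 hκ1 hκ hτ hω0 hω hϑ hB1 hB1' hc le_rfl le_rfl).toE'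
      hb1 hb1'
  · exact left_loss hK hM hgc hlog he hf0 hf hf2 hρ hR E P s K1 K2 τ B2 hG0 hP0 hs0 hsχ
      hH1 hH2 hτ hB2 hc hb2 hb3

end Pool.Agent.TSM
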