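import Mathlib

set_option autoImplicit false

/-!
# The real inequality of the step {leaf, path with two vertices, branch} (MP_d27362_co)
-/

namespace Pool.Agent.TSM

/-! ### the real inequality -/

/-- `(x + y)² ≤ (1 + E)(x²/E + y²)` -/
theorem zpc_cauchy (E x y : ℝ) (_hE : 0 < E) : E * (x + y) ^ 2 ≤ (1 + E) * (x ^ 2 + E * y ^ 2) := by
  nlinarith [sq_nonneg (x - E * y)]

theorem zpc_neg (ε v c k2 ρ : ℝ) (hε : 0 < ε) (hv0 : 0 ≤ v) (hv1 : v ≤ 1) (hc : 0 ≤ c)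
    (hk2 : 0 ≤ k2) (hk : c ^ 2 ≤ k2 * (1 - v ^ 2)) (hρ : 0 ≤ ρ) :
    v * (c + v) ^ 2 - ρ * v - v ^ 2 ≤
      ε * (c - ρ) ^ 2 + (1 + ε + 1 / (4 * ε)) * k2 * v ^ 2 + ρ ^ 2 / 4 := by
  rcases hv1.eq_or_lt with h1 | h1
  · subst h1
    have h2 : c ^ 2 ≤ 0 := by simpa using hk
    have h3 : c = 0 := by
      have : c ^ 2 = 0 := le_antisymm h2 (sq_nonneg c)
      exact pow_eq_zero_iff (two_ne_zero) |>.1 this
    subst h3
    have h4 : 0 ≤ (1 + ε + 1 / (4 * ε)) * k2 * 1 ^ 2 := by positivity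
    have h5 : 0 ≤ ε * (0 - ρ) ^ 2 := by positivity
    have h6 : 0 ≤ ρ ^ 2 / 4 := by positivity
    linarith
  · -- multiply by `E (1 - v²)`, `E = 4 ε`
    obtain ⟨E, hE⟩ : ∃ E : ℝ, E = 4 * ε := ⟨_, rfl⟩
    have hE0 : 0 < E := by rw [hE]; positivity
    have hεE : ε = E / 4 := by rw [hE]; ring
    have hab : 0 < 1 - v ^ 2 := by nlinarith
    have hab1 : 1 - v ^ 2 ≤ 1 := by nlinarith [sq_nonneg v]
    rw [← hE, hεE]
    obtain ⟨T, hT⟩ : ∃ T : ℝ, T = E / 4 * (c - ρ) ^ 2 + (1 + E / 4 + 1 / E) * k2 * v ^ 2 +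
        ρ ^ 2 / 4 - (v * (c + v) ^ 2 - ρ * v - v ^ 2) := ⟨_, rfl⟩
    -- the lower bound of `4 E (1 - v²) T`
    have h2 : 4 * E * (1 - v ^ 2) * T =
        4 * E * (1 + v) * v ^ 2 * (c - 1 + v) ^ 2 + 4 * c ^ 2 * (v - E / 2) ^ 2 +
        (1 - v ^ 2) * E * ((E + 1) * ρ ^ 2 - 4 * (E / 2 * c - v) * ρ) +
        4 * (E + E ^ 2 / 4 + 1) * v ^ 2 * (k2 * (1 - v ^ 2) - c ^ 2) := by
      rw [hT]
      field_simp
      ring
    have h3 : 0 ≤ 4 * (E + E ^ 2 / 4 + 1) * v ^ 2 * (k2 * (1 - v ^ 2) - c ^ 2) :=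
      mul_nonneg (by positivity) (by linarith)
    have h4 : 0 ≤ 4 * E * (1 + v) * v ^ 2 * (c - 1 + v) ^ 2 + 4 * c ^ 2 * (v - E / 2) ^ 2 +
        (1 - v ^ 2) * E * ((E + 1) * ρ ^ 2 - 4 * (E / 2 * c - v) * ρ) := by
      obtain ⟨Z, hZ⟩ : ∃ Z : ℝ, Z = E / 2 * c - v := ⟨_, rfl⟩
      rw [← hZ]
      have hfirst : 0 ≤ 4 * E * (1 + v) * v ^ 2 * (c - 1 + v) ^ 2 := by positivity
      have hsecond : 0 ≤ 4 * c ^ 2 * (v - E / 2) ^ 2 := by positivity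
      rcases le_total Z 0 with hZ0 | hZ0
      · have : 0 ≤ (1 - v ^ 2) * E * ((E + 1) * ρ ^ 2 - 4 * Z * ρ) := by
          apply mul_nonneg (by positivity)
          nlinarith [mul_nonneg (neg_nonneg.2 hZ0) hρ, sq_nonneg ρ]
        linarith
      · -- the square in `ρ`
        have h5 : -(4 * Z ^ 2) ≤ (E + 1) * ((E + 1) * ρ ^ 2 - 4 * Z * ρ) := by
          nlinarith [sq_nonneg ((E + 1) * ρ - 2 * Z)]
        have h6 : 4 * E * Z ^ 2 ≤ (E + 1) *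
            (4 * E * (1 + v) * v ^ 2 * (c - 1 + v) ^ 2 + 4 * c ^ 2 * (v - E / 2) ^ 2) := by
          rcases le_total c 1 with hc1 | hc1
          · have h7 : Z ≤ c * (E / 2 - v) := by
              rw [hZ]
              nlinarith [mul_nonneg hv0 (sub_nonneg.2 hc1)]
            have h8 : Z ^ 2 ≤ c ^ 2 * (v - E / 2) ^ 2 := by
              have h9 : Z ^ 2 ≤ (c * (E / 2 - v)) ^ 2 := pow_le_pow_left₀ hZ0 h7 2
              nlinarith
            have h10 : 0 ≤ 4 * E * (1 + v) * v ^ 2 * (c - 1 + v) ^ 2 := hfirst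
            have h11 : 4 * E * Z ^ 2 ≤ 4 * E * (c ^ 2 * (v - E / 2) ^ 2) :=
              mul_le_mul_of_nonneg_left h8 (by positivity)
            nlinarith [mul_nonneg hE0.le hfirst, hsecond]
          · have h7 := zpc_cauchy E (c * (E / 2 - v)) (v * (c - 1)) hE0
            have h8 : c * (E / 2 - v) + v * (c - 1) = Z := by rw [hZ]; ring
            rw [h8] at h7
            have h9 : (v * (c - 1)) ^ 2 ≤ (1 + v) * v ^ 2 * (c - 1 + v) ^ 2 := by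
              have h10 : (c - 1) ^ 2 ≤ (c - 1 + v) ^ 2 :=
                pow_le_pow_left₀ (by linarith) (by linarith) 2
              have h11 : v ^ 2 * (c - 1) ^ 2 ≤ v ^ 2 * (c - 1 + v) ^ 2 :=
                mul_le_mul_of_nonneg_left h10 (sq_nonneg v)
              nlinarith [mul_nonneg hv0 (mul_nonneg (sq_nonneg v) (sq_nonneg (c - 1 + v)))]
            have h12 : E * (v * (c - 1)) ^ 2 ≤ E * ((1 + v) * v ^ 2 * (c - 1 + v) ^ 2) :=
              mul_le_mul_of_nonneg_left h9 hE0.le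
            have h13 : (1 + E) * ((c * (E / 2 - v)) ^ 2 + E * (v * (c - 1)) ^ 2) ≤
                (1 + E) * ((c * (E / 2 - v)) ^ 2 + E * ((1 + v) * v ^ 2 * (c - 1 + v) ^ 2)) :=
              mul_le_mul_of_nonneg_left (by linarith) (by linarith)
            nlinarith
        have hE1 : 0 < E + 1 := by linarith
        have h7 : 0 ≤ (E + 1) * (4 * E * (1 + v) * v ^ 2 * (c - 1 + v) ^ 2 +
            4 * c ^ 2 * (v - E / 2) ^ 2 +
            (1 - v ^ 2) * E * ((E + 1) * ρ ^ 2 - 4 * Z * ρ)) := by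
          have h8 : (1 - v ^ 2) * E * (-(4 * Z ^ 2)) ≤
              (1 - v ^ 2) * E * ((E + 1) * ((E + 1) * ρ ^ 2 - 4 * Z * ρ)) :=
            mul_le_mul_of_nonneg_left h5 (by positivity)
          have h9 : (1 - v ^ 2) * (4 * E * Z ^ 2) ≤ 1 * (4 * E * Z ^ 2) :=
            mul_le_mul_of_nonneg_right hab1 (by positivity)
          nlinarith
        exact nonneg_of_mul_nonneg_right h7 hE1
    have h5 : 0 ≤ 4 * E * (1 - v ^ 2) * T := by rw [h2]; linarith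
    have h6 : 0 ≤ T := nonneg_of_mul_nonneg_right h5 (by positivity)
    rw [hT] at h6
    linarith

theorem zpc_pos (ε v c s γ k2 ρ : ℝ) (hε : 0 < ε) (hv0 : 0 ≤ v) (hv1 : v ≤ 1) (hc : 0 ≤ c)
    (hs : 0 ≤ s) (hcs : c ≤ s + γ) (hγ0 : 0 ≤ γ) (hγ : γ ≤ 4 * ε) (hk2 : 0 ≤ k2)
    (hk : s ^ 2 ≤ k2 * (1 - v ^ 2)) (hρ : 0 ≤ ρ) :
    v * (c - v) ^ 2 - ρ * v - v ^ 2 ≤
      ε * (c + ρ) ^ 2 + (1 + ε + 1 / (4 * ε)) * k2 * v ^ 2 + ρ ^ 2 / 4 := by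
  have h1 : c ^ 2 - 8 * ε * c ≤ s ^ 2 := by
    rcases le_total c (8 * ε) with h | h
    · nlinarith [mul_nonneg hc (sub_nonneg.2 h), sq_nonneg s]
    · have h2 : c * (c - 8 * ε) ≤ (s + γ) * (s + γ - 8 * ε) :=
        mul_le_mul hcs (by linarith) (by linarith) (by linarith)
      nlinarith [mul_nonneg hs (show 0 ≤ 4 * ε - γ by linarith),
        mul_nonneg hγ0 (show 0 ≤ 8 * ε - γ by linarith)]
  have h2 : s ^ 2 ≤ k2 := by nlinarith [mul_nonneg hk2 (sq_nonneg v)]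
  have h3 : 4 * ε * (v * c ^ 2 - ε * c ^ 2 - 2 * v ^ 2 * c) ≤ v ^ 2 * k2 := by
    have h4 : 4 * ε * (v * c ^ 2 - ε * c ^ 2) ≤ v ^ 2 * c ^ 2 := by
      nlinarith [mul_nonneg (sq_nonneg (v - 2 * ε)) (sq_nonneg c)]
    have h5 : v ^ 2 * (c ^ 2 - 8 * ε * c) ≤ v ^ 2 * k2 :=
      mul_le_mul_of_nonneg_left (h1.trans h2) (sq_nonneg v)
    nlinarith
  have h4 : v * c ^ 2 - ε * c ^ 2 - 2 * v ^ 2 * c ≤ 1 / (4 * ε) * k2 * v ^ 2 := by
    rw [div_mul_eq_mul_div, div_mul_eq_mul_div, le_div_iff₀ (by positivity)]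
    linarith
  have h5 : 0 ≤ (1 + ε) * k2 * v ^ 2 := by positivity
  have h6 : ε * c ^ 2 ≤ ε * (c + ρ) ^ 2 :=
    mul_le_mul_of_nonneg_left (pow_le_pow_left₀ hc (by linarith) 2) hε.le
  have h7 : 0 ≤ ρ * v := mul_nonneg hρ hv0
  have h8 : v ^ 3 ≤ v ^ 2 := by nlinarith [mul_nonneg (sq_nonneg v) (sub_nonneg.2 hv1)]
  have h9 : (1 + ε + 1 / (4 * ε)) * k2 * v ^ 2 = (1 + ε) * k2 * v ^ 2 +
      1 / (4 * ε) * k2 * v ^ 2 := by ring
  rw [h9]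
  nlinarith [sq_nonneg ρ]

/-- the inequality for `u` of both signs -/
theorem zpc_real (ε u c s γ k2 ρ : ℝ) (hε : 0 < ε) (hu0 : -1 ≤ u) (_hu1 : u ≤ 1)
    (hs : 0 ≤ s) (hcs : c ≤ s + γ) (hcs' : c < 0 → - s ≤ c) (hγ0 : 0 ≤ γ) (hγ : γ ≤ 4 * ε)
    (hk2 : 0 ≤ k2) (hk : s ^ 2 ≤ k2 * (1 - u ^ 2)) (hρ : 0 ≤ ρ) :
    -(u * (c + u) ^ 2) + ρ * u - u ^ 2 ≤
      ε * (c + ρ) ^ 2 + (1 + ε + 1 / (4 * ε)) * k2 * u ^ 2 + ρ ^ 2 / 4 := by
  rcases le_total 0 u with h | h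
  · have h1 : 0 ≤ u * (c + u) ^ 2 := mul_nonneg h (sq_nonneg _)
    have h2 : 0 ≤ ε * (c + ρ) ^ 2 := by positivity
    have h3 : 0 ≤ (1 + ε + 1 / (4 * ε)) * k2 * u ^ 2 := by positivity
    nlinarith [sq_nonneg (u - ρ / 2)]
  · have hk' : s ^ 2 ≤ k2 * (1 - (-u) ^ 2) := by rw [neg_sq]; exact hk
    rcases lt_or_ge c 0 with h1 | h1
    · have h2 : (-c) ^ 2 ≤ k2 * (1 - (-u) ^ 2) := by
        refine le_trans ?_ hk'
        exact pow_le_pow_left₀ (by linarith) (by linarith [hcs' h1]) 2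
      have h3 := zpc_neg ε (-u) (-c) k2 ρ hε (by linarith) (by linarith) (by linarith) hk2 h2 hρ
      nlinarith
    · have h3 := zpc_pos ε (-u) c s γ k2 ρ hε (by linarith) (by linarith) h1 hs hcs hγ0 hγ hk2
        hk' hρ
      nlinarith

/-- the pointwise bound of the product of the three messages -/
theorem zpc_point (ε u p q ct h s γ k2 ρ : ℝ) (hε : 0 < ε) (hu0 : -1 ≤ u) (hu1 : u ≤ 1)
    (hp : 0 ≤ p) (hpq : p + q = 2 * (1 + u + ct)) (hct : 2 * ct ≤ h - ρ)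
    (hs : 0 ≤ s) (hcs : ct ≤ s + γ) (hcs' : - s ≤ ct) (hγ0 : 0 ≤ γ) (hγ : γ ≤ 4 * ε)
    (hk2 : 0 ≤ k2) (hk : s ^ 2 ≤ k2 * (1 - u ^ 2)) (hρ : 0 ≤ ρ) (hρ1 : ρ ≤ 1) :
    (1 - u) * (p * q) ≤ (1 - ρ) * (1 + u + h) + (1 + ε) * ((h + ρ) ^ 2 / 4) +
      (1 + ε + 1 / (4 * ε)) * k2 * u ^ 2 + ρ ^ 2 / 4 := by
  have hu : 0 ≤ 1 - u := by linarith
  -- the bound of the product by a square
  have hprod : ∀ c, ct ≤ c → (1 - u) * (p * q) ≤ (1 - u) * (1 + u + c) ^ 2 := by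
    intro c hc
    apply mul_le_mul_of_nonneg_left _ hu
    rcases le_total 0 q with h1 | h1
    · have h2 : p * q ≤ ((p + q) / 2) ^ 2 := by nlinarith [sq_nonneg (p - q)]
      refine h2.trans ?_
      apply pow_le_pow_left₀ (by linarith)
      linarith
    · have : p * q ≤ 0 := mul_nonpos_of_nonneg_of_nonpos hp h1
      exact this.trans (sq_nonneg _)
  -- the identity
  have hid : ∀ c, (1 - u) * (1 + u + c) ^ 2 = (1 - ρ) * (1 + u + (2 * c + ρ)) + (c + ρ) ^ 2 +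
      (-(u * (c + u) ^ 2) + ρ * u - u ^ 2) := by
    intro c
    ring
  rcases lt_or_ge ((h - ρ) / 2) 0 with h0 | h0
  · have h1 := hprod ((h - ρ) / 2) (by linarith)
    rw [hid] at h1
    have h2 := zpc_real ε u ((h - ρ) / 2) s γ k2 ρ hε hu0 hu1 hs (by linarith)
      (fun _ => by linarith) hγ0 hγ hk2 hk hρ
    have e1 : 2 * ((h - ρ) / 2) + ρ = h := by ring
    have e2 : (h - ρ) / 2 + ρ = (h + ρ) / 2 := by ring
    rw [e1, e2] at h1
    rw [e2] at h2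
    have e3 : ((h + ρ) / 2) ^ 2 = (h + ρ) ^ 2 / 4 := by ring
    rw [e3] at h1 h2
    linarith
  · obtain ⟨c, hc⟩ : ∃ c : ℝ, c = max ct 0 := ⟨_, rfl⟩
    have hc0 : 0 ≤ c := by rw [hc]; exact le_max_right _ _
    have hc1 : ct ≤ c := by rw [hc]; exact le_max_left _ _
    have hc2 : c ≤ (h - ρ) / 2 := by
      rw [hc]
      exact max_le (by linarith) h0
    have hc3 : c ≤ s + γ := by
      rw [hc]
      exact max_le hcs (by linarith)
    have h1 := hprod c hc1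
    rw [hid] at h1
    have h2 := zpc_real ε u c s γ k2 ρ hε hu0 hu1 hs hc3 (fun h => by linarith) hγ0 hγ hk2 hk hρ
    have h3 : (1 - ρ) * (1 + u + (2 * c + ρ)) ≤ (1 - ρ) * (1 + u + h) :=
      mul_le_mul_of_nonneg_left (by linarith) (by linarith)
    have h4 : (1 + ε) * (c + ρ) ^ 2 ≤ (1 + ε) * ((h + ρ) ^ 2 / 4) := by
      apply mul_le_mul_of_nonneg_left _ (by linarith)
      have : (c + ρ) ^ 2 ≤ ((h + ρ) / 2) ^ 2 := pow_le_pow_left₀ (by linarith) (by linarith) 2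
      refine this.trans (le_of_eq ?_)
      ring
    linarith

end Pool.Agent.TSM
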