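import Pool.Agent.TSM.Closure
import Pool.Agent.TSM.ZpcR

set_option autoImplicit false

/-!
# The step with the children leaf, path with two vertices, branch (MP_d27362_co)
-/

namespace Pool.Agent.TSM

open Finset Polynomial
open Pool.Agent.TSP
open Pool.Agent.TSO
open Pool.Agent.TSR (OBr Ker Br Red Cn2 sg_true sg_false sg_not vS_cons vS_nil vS_mk vS_rev vS_nonneg)
open Pool.Agent.TLT (sg)

/-! ### the level of messages -/

section Raw

variable {m : ℕ} {S : Fin m → Fin m → ℝ}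

/-- the path with two vertices, seen through a positive edge -/
theorem zpc_two_msg (hK : Ker S) (s2 : ℝ) (i : Fin m) :
    TSO.msg S 1 (fun j => 1 + s2 * beta S j) i = 1 + beta S i + s2 * op S (beta S) i := by
  have hop : op S (fun j => 1 + s2 * beta S j) i = beta S i + s2 * op S (beta S) i := by
    have e1 : (fun j => 1 + s2 * beta S j) = (fun _ => (1 : ℝ)) + s2 • beta S := by
      funext j; simp
    rw [e1, op_add, op_smul]
    rfl
  have hmn : mn (fun j => 1 + s2 * beta S j) = 1 := by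
    rw [mn_add, mn_mul, mn_const hK.pos, mn_beta S hK.anti]; ring
  unfold TSO.msg
  rw [hop, hmn]; ring

theorem zpc_mean (hK : Ker S) (s2 : ℝ) (hs2 : s2 = 1 ∨ s2 = -1) :
    (mn fun i => (1 - beta S i) * (1 + beta S i + s2 * op S (beta S) i)) ≤ 1 := by
  have h1 : ip (beta S) (op S (beta S)) = 0 := ip_op_self S hK.anti _
  have h2 : mn (op S (beta S)) = - dee S := by
    have h := ip_op S hK.anti (fun _ => 1) (beta S)
    rw [ip_comm, TSO.ip_one] at h
    exact h
  have e : (fun i => (1 - beta S i) * (1 + beta S i + s2 * op S (beta S) i)) =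
      fun i => ((1 - beta S i * beta S i) + s2 * op S (beta S) i) -
        s2 * (beta S i * op S (beta S) i) := by
    funext i; ring
  rw [e, mn_sub, mn_add, mn_sub, mn_const hK.pos, mn_mul, mn_mul]
  have h3 : (mn fun i => beta S i * beta S i) = dee S := rfl
  have h4 : (mn fun i => beta S i * op S (beta S) i) = 0 := h1
  have h5 : (mn fun i => op S (beta S) i) = - dee S := h2
  rw [h3, h4, h5]
  have : 0 ≤ dee S := ip_self_nonneg _
  rcases hs2 with rfl | rfl <;> linarith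

theorem st_C_add (S : Fin m → Fin m → ℝ) (s2 : ℝ) (x y : ℝ[X]) :
    st S (C s2 + x) y = s2 • beta S + st S x y := by
  have h1 : st S (C s2) 0 = s2 • beta S := by
    rw [← st_beta, ← st_smul, smul_zero, smul_eq_C_mul, mul_one]
  rw [← h1, ← st_add, zero_add]

theorem mo_C_add (S : Fin m → Fin m → ℝ) (s2 : ℝ) (x : ℝ[X]) :
    mo S (C s2 + x) = s2 * dee S + mo S x := by
  have h1 : mo S (C s2) = s2 * dee S := by
    rw [← mo_one, ← mo_smul, smul_eq_C_mul, mul_one]
  rw [mo_add, h1]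

/-- `op A` of a state function -/
theorem op_aker_st (hK : Ker S) (x y : ℝ[X]) (i : Fin m) :
    op (aker S) (st S x y) i = op S (st S x y) i + mo S x := by
  rw [TSO.op_aker, mn_st S hK.anti, ip_beta_st S hK.anti]
  ring

theorem st_one_sub (S : Fin m → Fin m → ℝ) (x y : ℝ[X]) (i : Fin m) :
    st S (1 - X * y) x i = beta S i + op (aker S) (st S x y) i := by
  rw [← beta_add_op_st]
  rfl

/-- the product of the three messages; `g1 + g2` is the cost which the branch has paid, `ρ` the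
net gain, `a` a correction for a negative gain -/
theorem zpc_raw (hK : Ker S) {f : Fin m → ℝ} {x y : ℝ[X]} (s2 M ε g1 g2 a ρ : ℝ)
    (hs2 : s2 = 1 ∨ s2 = -1) (hM : 0 < M)
    (hf : ∀ i, f i ≤ M * (1 - (mo S x - (g1 + g2)) + st S (1 - X * y) x i))
    (hε : 0 < ε) (hg1 : 0 ≤ g1) (hg1' : g1 ≤ 8 * ε) (hg2 : 0 ≤ g2) (ha : 0 ≤ a)
    (hρ : 0 ≤ ρ) (hρ1 : ρ < 1) (hb : ρ + g1 ≤ s2 * dee S + mo S x + a) :
    ∃ G : Fin m → ℝ, (∀ i, 0 ≤ G i) ∧
      (∀ i, (1 - beta S i) * (TSO.msg S 1 (fun j => 1 + s2 * beta S j) i * f i) ≤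
        (M * (1 - ρ)) * (1 + st S (1 - X * y) (C s2 + x) i + G i)) ∧
      2 * mn G ≤ 2 * a + ((1 + ε) * (en S (-(X * y)) (C s2 + x) + (a + ρ) ^ 2) +
        (1 + ε + 1 / (4 * ε)) * dee S * en S (C s2 + x) y + ρ ^ 2 + 4 * g2) / (2 * (1 - ρ)) := by
  have hψ0 : mn (st S (C s2 + x) y) = 0 := mn_st S hK.anti _ _
  have hψψ : ip (st S (C s2 + x) y) (st S (C s2 + x) y) = en S (C s2 + x) y :=
    ip_st_self hK.anti _ _
  have hen1 : 0 ≤ en S (C s2 + x) y := en_nonneg hK.anti _ _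
  have hW : ∀ i, st S (1 - X * y) (C s2 + x) i =
      beta S i + (op S (st S (C s2 + x) y) i + mo S (C s2 + x)) := fun i => by
    rw [st_one_sub, op_aker_st hK]
  have hWx : ∀ i, st S (1 - X * y) x i = beta S i + (op S (st S x y) i + mo S x) := fun i => by
    rw [st_one_sub, op_aker_st hK]
  have hop : ∀ i, op S (st S (C s2 + x) y) i = s2 * op S (beta S) i + op S (st S x y) i :=
    fun i => by
      rw [st_C_add, op_add, op_smul]
      rfl
  have hmo := mo_C_add S s2 x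
  -- the function `h`
  obtain ⟨h, hh⟩ : ∃ h : Fin m → ℝ, h = op (aker S) (st S (C s2 + x) y) := ⟨_, rfl⟩
  have hhi : ∀ i, h i = op S (st S (C s2 + x) y) i + mo S (C s2 + x) := fun i => by
    rw [hh, op_aker_st hK]
  have hh0 : mn h = 0 := by rw [hh]; exact mn_op_aker S hK.anti _
  have hhh : (mn fun i => h i * h i) = en S (-(X * y)) (C s2 + x) := by
    have h1 : (mn fun i => h i * h i) = ip h h := rfl
    rw [h1, hh, op_st, ip_st_self hK.anti]
  have hu : ∀ i, -1 ≤ beta S i ∧ beta S i ≤ 1 := fun i =>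
    abs_le.1 (beta_abs_le hK.pos S hK.bd i)
  have hp : ∀ i, 0 ≤ 1 + beta S i + s2 * op S (beta S) i := fun i => by
    rw [← zpc_two_msg hK]
    refine msg_nonneg S hK.bd 1 (Or.inl rfl) (fun j => ?_) i
    rcases hs2 with rfl | rfl
    · linarith [(hu j).1]
    · linarith [(hu j).2]
  have h1ρ : 0 < 1 - ρ := by linarith
  obtain ⟨k, hk⟩ : ∃ k : ℝ, k = 1 / (1 - ρ) := ⟨_, rfl⟩
  have hk0 : 0 < k := by rw [hk]; positivity
  have hk1 : (1 - ρ) * k = 1 := by rw [hk]; field_simp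
  obtain ⟨e, he⟩ : ∃ e : ℝ, e = 1 + ε + 1 / (4 * ε) := ⟨_, rfl⟩
  have he0 : 0 < e := by rw [he]; positivity
  obtain ⟨E, hE⟩ : ∃ E : ℝ, E = en S (C s2 + x) y := ⟨_, rfl⟩
  rw [← hE] at hen1 hψψ ⊢
  rw [← he]
  refine ⟨fun i => a + k * ((1 + ε) * ((h i + a + ρ) ^ 2 / 4) + e * (E / 4) * beta S i ^ 2 +
    ρ ^ 2 / 4 + g2 * ((1 - beta S i) * (1 + beta S i + s2 * op S (beta S) i))),
    fun i => ?_, fun i => ?_, ?_⟩
  · have h1 : 0 ≤ (1 - beta S i) * (1 + beta S i + s2 * op S (beta S) i) :=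
      mul_nonneg (by linarith [(hu i).2]) (hp i)
    have h2 : 0 ≤ g2 * ((1 - beta S i) * (1 + beta S i + s2 * op S (beta S) i)) :=
      mul_nonneg hg2 h1
    have h3 : 0 ≤ (1 + ε) * ((h i + a + ρ) ^ 2 / 4) + e * (E / 4) * beta S i ^ 2 +
        ρ ^ 2 / 4 := by positivity
    have h4 := mul_nonneg hk0.le (add_nonneg h3 h2)
    linarith
  · -- the pointwise bound
    rw [zpc_two_msg hK]
    have hsink := abs_le.1 (near_sink hK.pos S hK.bd (st S (C s2 + x) y) hψ0 i)
    rw [hψψ] at hsink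
    obtain ⟨s, hs⟩ : ∃ s : ℝ, s = Real.sqrt (1 - beta S i ^ 2) * Real.sqrt E / 2 := ⟨_, rfl⟩
    have hs0 : 0 ≤ s := by rw [hs]; positivity
    have hus : 0 ≤ 1 - beta S i ^ 2 := by nlinarith [(hu i).1, (hu i).2]
    have hss : s ^ 2 = E / 4 * (1 - beta S i ^ 2) := by
      rw [hs, div_pow, mul_pow, Real.sq_sqrt hus, Real.sq_sqrt hen1]
      ring
    have hpt := zpc_point ε (beta S i) (1 + beta S i + s2 * op S (beta S) i)
      (1 + beta S i + op S (st S x y) i + g1)
      ((op S (st S (C s2 + x) y) i + g1) / 2) (h i + a) s (g1 / 2) (E / 4) ρ hε (hu i).1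
      (hu i).2 (hp i) (by rw [hop]; ring) (by rw [hhi, hmo]; linarith) hs0
      (by rw [hs]; linarith [hsink.2]) (by rw [hs]; linarith [hsink.1]) (by linarith)
      (by linarith) (by linarith) hss.le hρ hρ1.le
    rw [← he] at hpt
    have h1u : 0 ≤ 1 - beta S i := by linarith [(hu i).2]
    have hfi : f i ≤ M * ((1 + beta S i + op S (st S x y) i + g1) + g2) := by
      refine (hf i).trans (le_of_eq ?_)
      rw [hWx]; ring
    have h1 : (1 - beta S i) * ((1 + beta S i + s2 * op S (beta S) i) * f i) ≤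
        (1 - beta S i) * ((1 + beta S i + s2 * op S (beta S) i) *
          (M * ((1 + beta S i + op S (st S x y) i + g1) + g2))) :=
      mul_le_mul_of_nonneg_left (mul_le_mul_of_nonneg_left hfi (hp i)) h1u
    refine h1.trans ?_
    have e1 : (1 - beta S i) * ((1 + beta S i + s2 * op S (beta S) i) *
          (M * ((1 + beta S i + op S (st S x y) i + g1) + g2))) =
        M * ((1 - beta S i) * ((1 + beta S i + s2 * op S (beta S) i) *
          (1 + beta S i + op S (st S x y) i + g1)) +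
          g2 * ((1 - beta S i) * (1 + beta S i + s2 * op S (beta S) i))) := by ring
    rw [e1, mul_assoc M]
    apply mul_le_mul_of_nonneg_left _ hM.le
    have e2 : (1 - ρ) * (1 + st S (1 - X * y) (C s2 + x) i + (a + k * ((1 + ε) *
        ((h i + a + ρ) ^ 2 / 4) + e * (E / 4) * beta S i ^ 2 + ρ ^ 2 / 4 +
        g2 * ((1 - beta S i) * (1 + beta S i + s2 * op S (beta S) i))))) =
        (1 - ρ) * (1 + beta S i + (h i + a)) + ((1 - ρ) * k) * ((1 + ε) *
        ((h i + a + ρ) ^ 2 / 4) + e * (E / 4) * beta S i ^ 2 + ρ ^ 2 / 4 +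
        g2 * ((1 - beta S i) * (1 + beta S i + s2 * op S (beta S) i))) := by
      rw [hW, hhi]; ring
    rw [e2, hk1, one_mul]
    linarith
  · -- the mean
    have e1 : (fun i => a + k * ((1 + ε) * ((h i + a + ρ) ^ 2 / 4) + e * (E / 4) *
        beta S i ^ 2 + ρ ^ 2 / 4 + g2 * ((1 - beta S i) *
          (1 + beta S i + s2 * op S (beta S) i)))) =
        fun i => ((((a + k * ((1 + ε) / 4 * (a + ρ) ^ 2 + ρ ^ 2 / 4)) +
          (k * (1 + ε) / 4) * (h i * h i)) + (k * (1 + ε) / 2 * (a + ρ)) * h i) +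
          (k * e * (E / 4)) * (beta S i * beta S i)) +
          (k * g2) * ((1 - beta S i) * (1 + beta S i + s2 * op S (beta S) i)) := by
      funext i; ring
    rw [e1, mn_add, mn_add, mn_add, mn_add, mn_mul, mn_mul, mn_mul, mn_mul, mn_const hK.pos,
      hhh]
    have h3 : (mn fun i => beta S i * beta S i) = dee S := rfl
    have h4 : (mn fun i => h i) = 0 := hh0
    rw [h3, h4]
    have h5 := zpc_mean hK s2 hs2
    have h6 : k * g2 * (mn fun i => (1 - beta S i) *
        (1 + beta S i + s2 * op S (beta S) i)) ≤ k * g2 * 1 :=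
      mul_le_mul_of_nonneg_left h5 (by positivity)
    have e3 : ((1 + ε) * (en S (-(X * y)) (C s2 + x) + (a + ρ) ^ 2) +
        e * dee S * E + ρ ^ 2 + 4 * g2) / (2 * (1 - ρ)) =
        k * (((1 + ε) * (en S (-(X * y)) (C s2 + x) + (a + ρ) ^ 2) +
        e * dee S * E + ρ ^ 2 + 4 * g2) / 2) := by
      rw [hk]; field_simp
    rw [e3]
    linarith

end Raw

/-! ### the majorant predicate -/

/-- the factor of the gain: `log (1-ρ) + (2+ε) ρ²/(2(1-ρ)) ≤ - η ρ` on `[0, P]` -/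
theorem zpc_h (ρ P η ε : ℝ) (hP1 : P < 1) (hρP : ρ ≤ P) (h0 : 0 ≤ ρ) (hε : 0 ≤ ε)
    (hη : (1 + ε) * P / (2 * (1 - P)) + P ^ 2 / (2 * (1 - P)) - P ^ 2 / 3 - P ^ 3 / 4 -
      P ^ 4 / 5 - P ^ 5 / 6 ≤ 1 - η) :
    Real.log (1 - ρ) + (2 + ε) * ρ ^ 2 / (2 * (1 - ρ)) ≤ - (η * ρ) := by
  have h1P : 0 < 1 - P := by linarith
  have h1ρ : 0 < 1 - ρ := by linarith
  have h1 := two_h' ρ P (η + (1 + ε) * P / (2 * (1 - P))) hP1 hρP h0 (by linarith)
  have h2 : (1 + ε) * ρ ^ 2 / (2 * (1 - ρ)) ≤ (1 + ε) * P / (2 * (1 - P)) * ρ := by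
    rw [div_le_iff₀ (by positivity)]
    have h3 : (1 + ε) * P / (2 * (1 - P)) * ρ * (2 * (1 - ρ)) =
        (1 + ε) * (P * ρ) * ((1 - ρ) / (1 - P)) := by
      field_simp
    rw [h3]
    have h4 : 1 ≤ (1 - ρ) / (1 - P) := by
      rw [le_div_iff₀ h1P]; linarith
    have h5 : 0 ≤ P := h0.trans hρP
    calc (1 + ε) * ρ ^ 2 ≤ (1 + ε) * (P * ρ) := by
          apply mul_le_mul_of_nonneg_left _ (by linarith)
          nlinarith
      _ ≤ (1 + ε) * (P * ρ) * ((1 - ρ) / (1 - P)) := le_mul_of_one_le_right (by positivity) h4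
  have h3 : (2 + ε) * ρ ^ 2 / (2 * (1 - ρ)) =
      ρ ^ 2 / (2 * (1 - ρ)) + (1 + ε) * ρ ^ 2 / (2 * (1 - ρ)) := by
    rw [← add_div]; ring
  rw [h3]
  nlinarith

section Msg

variable {m : ℕ} {S : Fin m → Fin m → ℝ}

/-- **leaf, path with two vertices, branch**: `G0` is the (capped) gain, `R` its bound, `η` the
factor of the gain (`zpc_h`) -/
theorem MMaj.zpc (hK : Ker S) {f : Fin m → ℝ} {x y : ℝ[X]} {b c : ℝ}
    (h : MMaj S f (1 - X * y) x (mo S x) b c) (s2 ε R η G0 Q Q2 : ℝ)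
    (hs2 : s2 = 1 ∨ s2 = -1) (hε : 0 < ε) (hR1 : R < 1) (hR0 : 0 ≤ R) (hRε : R ≤ 8 * ε)
    (hG0 : G0 ≤ s2 * dee S + mo S x) (hG0R : G0 ≤ R) (hη1 : η ≤ 1)
    (hη : ∀ ρ, 0 ≤ ρ → ρ ≤ R → Real.log (1 - ρ) + (2 + ε) * ρ ^ 2 / (2 * (1 - ρ)) ≤ - (η * ρ))
    (hQ : (1 + ε) * en S (-(X * y)) (C s2 + x) +
      (1 + ε + 1 / (4 * ε)) * dee S * en S (C s2 + x) y ≤ Q)
    (hQ2 : (1 + ε) * en S (-(X * y)) (C s2 + x) +
      (1 + ε + 1 / (4 * ε) + (1 + ε)) * dee S * en S (C s2 + x) y ≤ Q2) {b' c' : ℝ}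
    (hb1 : b' ≤ b + η * G0 - Q / (2 * (1 - R)))
    (hb2 : b' ≤ b + 2 * G0 - c - Q2 / 2)
    (hc1 : 0 ≤ G0 → Q / (2 * (1 - R)) + (2 + ε) * R / (2 * (1 - R)) * G0 ≤ c')
    (hc2 : Q2 / 2 + 2 * (c - G0) ≤ c') :
    Maj S (fun i => (1 - beta S i) * (TSO.msg S 1 (fun j => 1 + s2 * beta S j) i * f i))
      (1 - X * y) (C s2 + x) b' c' := by
  obtain ⟨M, g, hM, hg0, hgc, hlog, -, hf⟩ := h
  have hD : 0 ≤ dee S := ip_self_nonneg _
  obtain ⟨E0, hE0⟩ : ∃ E0 : ℝ, E0 = en S (-(X * y)) (C s2 + x) := ⟨_, rfl⟩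
  obtain ⟨E1, hE1⟩ : ∃ E1 : ℝ, E1 = en S (C s2 + x) y := ⟨_, rfl⟩
  obtain ⟨D, hDd⟩ : ∃ D : ℝ, D = dee S := ⟨_, rfl⟩
  obtain ⟨e, he⟩ : ∃ e : ℝ, e = 1 + ε + 1 / (4 * ε) := ⟨_, rfl⟩
  have he0 : 0 < e := by rw [he]; positivity
  have hE0n : 0 ≤ E0 := by rw [hE0]; exact en_nonneg hK.anti _ _
  have hE1n : 0 ≤ E1 := by rw [hE1]; exact en_nonneg hK.anti _ _
  -- the square of the mean
  have hcs : (s2 * dee S + mo S x) ^ 2 ≤ D * E1 := by
    have h1 := ip_sq_le (beta S) (st S (C s2 + x) y)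
    rw [ip_beta_st S hK.anti, ip_st_self hK.anti, mo_C_add, ← hE1] at h1
    rw [hDd]
    exact h1
  have hraw : ∀ g1 g2 a ρ, g1 + g2 = g → 0 ≤ g1 → g1 ≤ 8 * ε → 0 ≤ g2 → 0 ≤ a → 0 ≤ ρ → ρ < 1 →
      ρ + g1 ≤ s2 * dee S + mo S x + a → ∃ G : Fin m → ℝ, (∀ i, 0 ≤ G i) ∧
      (∀ i, (1 - beta S i) * (TSO.msg S 1 (fun j => 1 + s2 * beta S j) i * f i) ≤
        (M * (1 - ρ)) * (1 + st S (1 - X * y) (C s2 + x) i + G i)) ∧
      2 * mn G ≤ 2 * a + ((1 + ε) * (E0 + (a + ρ) ^ 2) +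
        e * D * E1 + ρ ^ 2 + 4 * g2) / (2 * (1 - ρ)) := by
    intro g1 g2 a ρ hg hg1 hg1' hg2 ha hρ hρ1 hb
    have := zpc_raw hK (f := f) (x := x) (y := y) s2 M ε g1 g2 a ρ hs2 hM
      (fun i => by rw [hg]; exact hf i) hε hg1 hg1' hg2 ha hρ hρ1 hb
    rw [← hE0, ← hE1, ← hDd, ← he] at this
    exact this
  rw [← hE0, ← hE1, ← hDd, ← he] at hQ hQ2
  have h1R : 0 < 1 - R := by linarith
  have hDn : 0 ≤ D := by rw [hDd]; exact hD
  have hQ0 : 0 ≤ Q := le_trans (by positivity) hQ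
  rcases le_total 0 (G0 - g) with hρ | hρ
  · -- net gain
    obtain ⟨ρ, hρd⟩ : ∃ ρ : ℝ, ρ = G0 - g := ⟨_, rfl⟩
    rw [← hρd] at hρ
    have hρR : ρ ≤ R := by linarith
    have h1ρ : 0 < 1 - ρ := by linarith
    obtain ⟨G, hG, hGb, hmG⟩ := hraw g 0 0 ρ (by ring) hg0 (by linarith) le_rfl le_rfl hρ
      (by linarith) (by linarith)
    have e1 : 2 * (0 : ℝ) + ((1 + ε) * (E0 + (0 + ρ) ^ 2) + e * D * E1 + ρ ^ 2 + 4 * 0) /
        (2 * (1 - ρ)) = ((1 + ε) * E0 + e * D * E1) / (2 * (1 - ρ)) +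
          (2 + ε) * ρ ^ 2 / (2 * (1 - ρ)) := by
      rw [← add_div]; ring
    rw [e1] at hmG
    have h3 : ((1 + ε) * E0 + e * D * E1) / (2 * (1 - ρ)) ≤ Q / (2 * (1 - R)) :=
      div_le_div₀ hQ0 hQ (by positivity) (by linarith)
    refine ⟨M * (1 - ρ), G, by positivity, hG, hGb, ?_, ?_⟩
    · rw [Real.log_mul hM.ne' h1ρ.ne']
      have h4 := hη ρ hρ hρR
      have h5 : η * ρ = η * G0 - η * g := by rw [hρd]; ring
      have h6 : η * g ≤ g := mul_le_of_le_one_left hg0 hη1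
      linarith
    · have h5 : (2 + ε) * ρ ^ 2 / (2 * (1 - ρ)) ≤ (2 + ε) * R / (2 * (1 - R)) * G0 := by
        have h6 : (2 + ε) * ρ ^ 2 / (2 * (1 - ρ)) ≤ (2 + ε) * (R * G0) / (2 * (1 - R)) := by
          apply div_le_div₀
          · exact mul_nonneg (by linarith) (mul_nonneg hR0 (by linarith))
          · apply mul_le_mul_of_nonneg_left _ (by linarith)
            rw [sq]
            exact mul_le_mul hρR (by linarith) hρ hR0
          · positivity
          · linarith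
        refine h6.trans (le_of_eq ?_)
        ring
      have h6 := hc1 (by linarith)
      linarith
  · rcases le_total 0 G0 with h0 | h0
    · -- the gain is paid completely
      obtain ⟨G, hG, hGb, hmG⟩ := hraw G0 (g - G0) 0 0 (by ring) h0 (by linarith) (by linarith)
        le_rfl le_rfl one_pos (by linarith)
      have e1 : 2 * (0 : ℝ) + ((1 + ε) * (E0 + (0 + 0) ^ 2) + e * D * E1 + 0 ^ 2 +
          4 * (g - G0)) / (2 * (1 - 0)) = ((1 + ε) * E0 + e * D * E1) / 2 + 2 * (g - G0) := by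
        ring
      rw [e1] at hmG
      have h3 : (1 + ε) * E0 + e * D * E1 ≤ Q2 := by
        refine le_trans ?_ hQ2
        have : 0 ≤ (1 + ε) * D * E1 := by
          have : 0 ≤ D := by rw [hDd]; exact hD
          positivity
        linarith
      refine ⟨M * (1 - 0), G, by linarith, hG, hGb, ?_, ?_⟩
      · rw [sub_zero, mul_one]
        linarith
      · linarith
    · -- negative gain
      obtain ⟨a, ha⟩ : ∃ a : ℝ, a = max 0 (-(s2 * dee S + mo S x)) := ⟨_, rfl⟩
      have ha0 : 0 ≤ a := by rw [ha]; exact le_max_left _ _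
      have ha1 : -(s2 * dee S + mo S x) ≤ a := by rw [ha]; exact le_max_right _ _
      have ha2 : a ≤ -G0 := by
        rw [ha]
        exact max_le (by linarith) (by linarith)
      have ha3 : a ^ 2 ≤ D * E1 := by
        rcases le_total 0 (s2 * dee S + mo S x) with h1 | h1
        · have : a = 0 := by
            rw [ha]
            exact max_eq_left (by linarith)
          rw [this]
          have := mul_nonneg hDn hE1n
          linarith
        · have : a = -(s2 * dee S + mo S x) := by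
            rw [ha]
            exact max_eq_right (by linarith)
          rw [this, neg_sq]
          exact hcs
      obtain ⟨G, hG, hGb, hmG⟩ := hraw 0 g a 0 (by ring) le_rfl (by linarith) hg0
        ha0 le_rfl one_pos (by linarith)
      have e1 : 2 * a + ((1 + ε) * (E0 + (a + 0) ^ 2) + e * D * E1 + 0 ^ 2 +
          4 * g) / (2 * (1 - 0)) = ((1 + ε) * E0 + e * D * E1 + (1 + ε) * a ^ 2) / 2 +
          2 * (g + a) := by
        ring
      rw [e1] at hmG
      have h3 : (1 + ε) * E0 + e * D * E1 + (1 + ε) * a ^ 2 ≤ Q2 := by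
        refine le_trans ?_ hQ2
        have := mul_le_mul_of_nonneg_left ha3 (show 0 ≤ 1 + ε by linarith)
        linarith
      refine ⟨M * (1 - 0), G, by linarith, hG, hGb, ?_, ?_⟩
      · rw [sub_zero, mul_one]
        linarith
      · linarith

end Msg

/-! ### the level of trees -/

noncomputable section

/-- the constants of the step for the total mass `D`; `r` is the cap of the gain per unit of
mass -/
structure ZpcC (D ε r η : ℝ) : Prop where
  hε : 0 < ε
  hr0 : 0 ≤ r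
  hr : r * D < 1
  hrε : r * D ≤ 8 * ε
  hη1 : η ≤ 1
  hη : (1 + ε) * (r * D) / (2 * (1 - r * D)) + (r * D) ^ 2 / (2 * (1 - r * D)) -
    (r * D) ^ 2 / 3 - (r * D) ^ 3 / 4 - (r * D) ^ 4 / 5 - (r * D) ^ 5 / 6 ≤ 1 - η

/-- **leaf (negative edge), path with two vertices (positive edge), branch (positive edge)**.
`I = 1/(2(1 - r D))`, `e = 1 + ε + 1/(4 ε)`; `g` is the capped gain, `q` the cost,
`q2` the cost on the loss side -/
theorem Good.zpc {O : OBr} {V c V' c' : ℝ → ℝ → ℝ} (h : Good O V c) (e1 e2 e3 : Bool)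
    (ε r η I : ℝ → ℝ) (g q q2 : ℝ → ℝ → ℝ)
    (hC : ∀ D, RD D → ZpcC D (ε D) (r D) (η D))
    (hI : ∀ D, RD D → 1 ≤ I D * (2 * (1 - r D * D)))
    (hg : ∀ D, RD D → ILe D (g D) (fun a => sg e2 + sg e3 * (XX O).eval a))
    (hgr : ∀ D, RD D → ILe D (g D) (fun _ => r D))
    (hq : ∀ D, RD D → ILe D (fun a => (1 + ε D) * (a ^ 2 * (YY O).eval a ^ 2 +
        a * (sg e2 + sg e3 * (XX O).eval a) ^ 2) +
      (1 + ε D + 1 / (4 * ε D)) * D * ((sg e2 + sg e3 * (XX O).eval a) ^ 2 +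
        a * (YY O).eval a ^ 2)) (q D))
    (hq2 : ∀ D, RD D → ILe D (fun a => (1 + ε D) * (a ^ 2 * (YY O).eval a ^ 2 +
        a * (sg e2 + sg e3 * (XX O).eval a) ^ 2) +
      (1 + ε D + 1 / (4 * ε D) + (1 + ε D)) * D * ((sg e2 + sg e3 * (XX O).eval a) ^ 2 +
        a * (YY O).eval a ^ 2)) (q2 D))
    (hb1 : ∀ D, RD D → ILe D (V' D) (fun a => V D a + η D * g D a - I D * q D a))
    (hb2 : ∀ D, RD D → ILe D (V' D) (fun a => V D a + 2 * g D a - c D a - 1 / 2 * q2 D a))
    (hc1 : ∀ D, RD D → ILe D (fun a => I D * q D a + (2 + ε D) * (r D * D) * I D * g D a) (c' D))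
    (hc2 : ∀ D, RD D → ILe D (fun a => 1 / 2 * q2 D a + 2 * (c D a - g D a)) (c' D)) :
    Good (.mk [cn false e1 .nil, cn true e2 TSM.two, cn true e3 O]) V' c' := by
  intro m S hS w t hR
  have hM := h.msg true e3 (g := fun _ a => sg e3 * (XX O).eval a) (fun D a h => le_rfl)
    m S hS w t hR
  have hRD : RD (dee S) := ⟨hR.dee_nonneg, hR.dee_le⟩
  have hK := hC (dee S) hRD
  have hD := hR.dee_nonneg
  have h1P : 0 < 1 - r (dee S) * dee S := by linarith [hK.hr]
  have hII := hI (dee S) hRD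
  have hI1 : 1 / (2 * (1 - r (dee S) * dee S)) ≤ I (dee S) := by
    rw [div_le_iff₀ (by positivity)]
    exact hII
  have hYtwo : YY TSM.two = 0 := by
    rw [YY_cons, XX_nil, YY_nil]
    simp
  have hXtwo : XX TSM.two = 1 := by
    rw [XX_cons, XX_nil, YY_nil, sg_true]
    simp
  have hx3 : sg e3 • XX O = C (sg e3) * XX O := smul_eq_C_mul _
  have ex : XX (.mk [cn false e1 .nil, cn true e2 TSM.two, cn true e3 O]) = 1 - X * YY O := by
    rw [XX_mk]
    simp only [List.map_cons, List.map_nil, List.sum_cons, List.sum_nil, add_zero, cn_fst, cn_YY,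
      hYtwo, YY_nil, sg_true, sg_false, mul_zero, sub_zero, one_smul, neg_smul]
    ring
  have ey : YY (.mk [cn false e1 .nil, cn true e2 TSM.two, cn true e3 O]) =
      C (sg e2) + sg e3 • XX O := by
    rw [YY_mk]
    simp only [List.map_cons, List.map_nil, List.sum_cons, List.sum_nil, add_zero, cn_fst, cn_XX,
      hXtwo, XX_nil, smul_zero, zero_add]
    rw [smul_eq_C_mul (sg e2), mul_one]
  have ev : (OBr.mk [cn false e1 .nil, cn true e2 TSM.two, cn true e3 O]).vS S =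
      fun z => (1 - beta S z) * (TSO.msg S 1 (fun j => 1 + sg e2 * beta S j) z *
        ms S (cn true e3 O) z) := by
    funext z
    rw [vS_mk_ms]
    simp only [List.map_cons, List.map_nil, List.prod_cons, List.prod_nil, mul_one]
    have m1 : ms S (cn false e1 .nil) z = 1 - beta S z := by
      rw [ms_eq_msg, cn_fst, sg_false]
      have e4 : (cn false e1 .nil).2.vS S = fun _ => 1 := by
        unfold cn
        dsimp only
        split_ifs <;> rfl
      rw [e4, msg_one hS]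
      ring
    have m2 : ms S (cn true e2 TSM.two) z = TSO.msg S 1 (fun j => 1 + sg e2 * beta S j) z := by
      rw [ms_eq_msg, cn_fst, sg_true]
      have e4 : (cn true e2 TSM.two).2.vS S = fun j => 1 + sg e2 * beta S j := by
        have e5 : TSM.two.vS S = fun j => 1 + beta S j := by
          funext j
          have e3 : OBr.nil.vS S = fun _ => 1 := rfl
          rw [vS_cons, vS_nil, e3, sg_true, TSO.ip_one, mn_const hS.pos, op_one]
          ring
        cases e2
        · unfold cn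
          rw [if_neg (by simp)]
          rw [vS_rev, sg_false]
          have e6 : TSM.two.vS (fun i j => - S i j) = fun j => 1 + beta (fun i j => - S i j) j := by
            funext j
            have e3 : OBr.nil.vS (fun i j => - S i j) = fun _ => 1 := rfl
            rw [vS_cons, vS_nil, e3, sg_true, TSO.ip_one, mn_const hS.pos, op_one]
            ring
          rw [e6, beta_negk]
          funext j
          simp
        · unfold cn
          rw [if_pos rfl, e5, sg_true]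
          funext j
          ring
      rw [e4]
    rw [m1, m2]
  rw [ex, ey, ev]
  have hmsg : MMaj S (ms S (cn true e3 O)) (1 - X * YY O) (sg e3 • XX O)
      (mo S (sg e3 • XX O)) (nu w t (V (dee S))) (nu w t (c (dee S))) := by
    rw [sg_true, one_smul] at hM
    have h1 : mo S (sg e3 • XX O) = nu w t fun a => sg e3 * (XX O).eval a := by
      rw [mo_smul, hR.mo_nu, nu_mul]
    rw [h1]
    exact hM
  have hgr' : nu w t (g (dee S)) ≤ r (dee S) * dee S := by
    have := hgr _ hRD m S hS w t hR rfl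
    rwa [hR.nu_const] at this
  have hgain : nu w t (g (dee S)) ≤ sg e2 * dee S + mo S (sg e3 • XX O) := by
    have h1 := hg _ hRD m S hS w t hR rfl
    rw [nu_add, hR.nu_const] at h1
    rw [mo_smul, hR.mo_nu, ← nu_mul]
    exact h1
  have hE0 : en S (-(X * YY O)) (C (sg e2) + sg e3 • XX O) =
      nu w t fun a => a ^ 2 * (YY O).eval a ^ 2 +
        a * (sg e2 + sg e3 * (XX O).eval a) ^ 2 := by
    rw [hR.en_nu]
    congr 1
    funext a
    simp only [eval_neg, eval_mul, eval_X, eval_add, eval_C, eval_smul, smul_eq_mul]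
    ring
  have hE1 : en S (C (sg e2) + sg e3 • XX O) (YY O) =
      nu w t fun a => (sg e2 + sg e3 * (XX O).eval a) ^ 2 + a * (YY O).eval a ^ 2 := by
    rw [hR.en_nu]
    congr 1
    funext a
    simp only [eval_add, eval_C, eval_smul, smul_eq_mul]
  have hQ : (1 + ε (dee S)) * en S (-(X * YY O)) (C (sg e2) + sg e3 • XX O) +
      (1 + ε (dee S) + 1 / (4 * ε (dee S))) * dee S * en S (C (sg e2) + sg e3 • XX O) (YY O) ≤
        nu w t (q (dee S)) := by
    have h1 := hq _ hRD m S hS w t hR rfl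
    rw [nu_add, nu_mul, nu_mul] at h1
    rw [hE0, hE1]
    exact h1
  have hQ2 : (1 + ε (dee S)) * en S (-(X * YY O)) (C (sg e2) + sg e3 • XX O) +
      (1 + ε (dee S) + 1 / (4 * ε (dee S)) + (1 + ε (dee S))) * dee S *
        en S (C (sg e2) + sg e3 • XX O) (YY O) ≤ nu w t (q2 (dee S)) := by
    have h1 := hq2 _ hRD m S hS w t hR rfl
    rw [nu_add, nu_mul, nu_mul] at h1
    rw [hE0, hE1]
    exact h1
  have hQ0 : 0 ≤ nu w t (q (dee S)) := by
    refine le_trans ?_ hQ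
    have h1 := en_nonneg (S := S) hS.anti (-(X * YY O)) (C (sg e2) + sg e3 • XX O)
    have h2 := en_nonneg (S := S) hS.anti (C (sg e2) + sg e3 • XX O) (YY O)
    have h3 := hK.hε
    positivity
  have hdiv : nu w t (q (dee S)) / (2 * (1 - r (dee S) * dee S)) ≤
      I (dee S) * nu w t (q (dee S)) := by
    rw [div_eq_mul_one_div, mul_comm]
    exact mul_le_mul_of_nonneg_right hI1 hQ0
  refine hmsg.zpc hS (sg e2) (ε (dee S)) (r (dee S) * dee S) (η (dee S)) (nu w t (g (dee S)))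
    (nu w t (q (dee S))) (nu w t (q2 (dee S))) (sg_or e2) hK.hε hK.hr (mul_nonneg hK.hr0 hD)
    hK.hrε hgain hgr' hK.hη1
    (fun ρ h0 h1 => zpc_h ρ _ _ _ hK.hr h1 h0 hK.hε.le hK.hη) hQ hQ2 ?_ ?_ ?_ ?_
  · have h3 := hb1 _ hRD m S hS w t hR rfl
    rw [nu_sub, nu_add, nu_mul, nu_mul] at h3
    linarith
  · have h3 := hb2 _ hRD m S hS w t hR rfl
    rw [nu_sub, nu_sub, nu_add, nu_mul, nu_mul] at h3
    linarith
  · intro h4
    have h3 := hc1 _ hRD m S hS w t hR rfl
    rw [nu_add, nu_mul, nu_mul] at h3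
    have h5 : (2 + ε (dee S)) * (r (dee S) * dee S) / (2 * (1 - r (dee S) * dee S)) *
        nu w t (g (dee S)) ≤
        (2 + ε (dee S)) * (r (dee S) * dee S) * I (dee S) * nu w t (g (dee S)) := by
      apply mul_le_mul_of_nonneg_right _ h4
      rw [div_eq_mul_one_div]
      exact mul_le_mul_of_nonneg_left hI1
        (mul_nonneg (by linarith [hK.hε]) (mul_nonneg hK.hr0 hD))
    linarith
  · have h3 := hc2 _ hRD m S hS w t hR rfl
    rw [nu_add, nu_mul, nu_mul, nu_sub] at h3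
    linarith

/-! ### the nodes with at most three children as families -/

lemma fam_one_eq (σ e : Bool) (O : OBr) :
    fam ![σ] ![e] ![O] = .mk [cn σ e O] := rfl

lemma fam_two_eq (σ1 e1 : Bool) (O1 : OBr) (σ2 e2 : Bool) (O2 : OBr) :
    fam ![σ1, σ2] ![e1, e2] ![O1, O2] = .mk [cn σ1 e1 O1, cn σ2 e2 O2] := rfl

lemma fam_three_eq (σ1 e1 : Bool) (O1 : OBr) (σ2 e2 : Bool) (O2 : OBr) (σ3 e3 : Bool)
    (O3 : OBr) : fam ![σ1, σ2, σ3] ![e1, e2, e3] ![O1, O2, O3] =
      .mk [cn σ1 e1 O1, cn σ2 e2 O2, cn σ3 e3 O3] := rfl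

/-- the choice of signs for one branch -/
lemma items_B {P : OBr → Prop} (O : OBr) (h : ∃ σ e, P (.mk [cn σ e O])) :
    ∃ σ e : Fin (items false false [O]).length → Bool, P (fam σ e (items false false [O]).get) := by
  obtain ⟨σ, e, h⟩ := h
  exact ⟨![σ], ![e], h⟩

/-- the choice of signs for the path with two vertices -/
lemma items_P {P : OBr → Prop} (h : ∃ σ e, P (.mk [cn σ e two])) :
    ∃ σ e : Fin (items false true []).length → Bool, P (fam σ e (items false true []).get) := by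
  obtain ⟨σ, e, h⟩ := h
  exact ⟨![σ], ![e], h⟩

/-- the choice of signs for leaf and path with two vertices -/
lemma items_LP {P : OBr → Prop} (h : ∃ σ1 e1 σ2 e2, P (.mk [cn σ1 e1 .nil, cn σ2 e2 two])) :
    ∃ σ e : Fin (items true true []).length → Bool, P (fam σ e (items true true []).get) := by
  obtain ⟨σ1, e1, σ2, e2, h⟩ := h
  exact ⟨![σ1, σ2], ![e1, e2], h⟩

/-- the choice of signs for leaf and branch -/
lemma items_LB {P : OBr → Prop} (O : OBr)
    (h : ∃ σ1 e1 σ2 e2, P (.mk [cn σ1 e1 .nil, cn σ2 e2 O])) :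
    ∃ σ e : Fin (items true false [O]).length → Bool, P (fam σ e (items true false [O]).get) := by
  obtain ⟨σ1, e1, σ2, e2, h⟩ := h
  exact ⟨![σ1, σ2], ![e1, e2], h⟩

/-- the choice of signs for path with two vertices and branch -/
lemma items_PB {P : OBr → Prop} (O : OBr)
    (h : ∃ σ1 e1 σ2 e2, P (.mk [cn σ1 e1 two, cn σ2 e2 O])) :
    ∃ σ e : Fin (items false true [O]).length → Bool, P (fam σ e (items false true [O]).get) := by
  obtain ⟨σ1, e1, σ2, e2, h⟩ := h
  exact ⟨![σ1, σ2], ![e1, e2], h⟩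

/-- the choice of signs for two branches -/
lemma items_BB {P : OBr → Prop} (O O' : OBr)
    (h : ∃ σ1 e1 σ2 e2, P (.mk [cn σ1 e1 O, cn σ2 e2 O'])) :
    ∃ σ e : Fin (items false false [O, O']).length → Bool,
      P (fam σ e (items false false [O, O']).get) := by
  obtain ⟨σ1, e1, σ2, e2, h⟩ := h
  exact ⟨![σ1, σ2], ![e1, e2], h⟩

/-- the choice of signs for leaf, path with two vertices, branch -/
lemma items_LPB {P : OBr → Prop} (O : OBr)
    (h : ∃ σ1 e1 σ2 e2 σ3 e3, P (.mk [cn σ1 e1 .nil, cn σ2 e2 two, cn σ3 e3 O])) :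
    ∃ σ e : Fin (items true true [O]).length → Bool, P (fam σ e (items true true [O]).get) := by
  obtain ⟨σ1, e1, σ2, e2, σ3, e3, h⟩ := h
  exact ⟨![σ1, σ2, σ3], ![e1, e2, e3], h⟩

end

end Pool.Agent.TSM
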