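import Mathlib

set_option autoImplicit false

/-!
# The real inequality of the step {leaf, path with two vertices, branch}: loss side
(MP_d27362_co)

`(1-u)(1+u+c)² = ((1+p)² - (u+p)²)(1+u+h) + (1-u) y²` for `y = c - 2 p`, `h = 2 c - 2 p`;
`2 p = r ≥ 0` is the net loss.
-/

namespace Pool.Agent.TSM

theorem zpl_id (u c p : ℝ) : (1 - u) * (1 + u + c) ^ 2 =
    ((1 + p) ^ 2 - (u + p) ^ 2) * (1 + u + (2 * c - 2 * p)) + (1 - u) * (c - 2 * p) ^ 2 := by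
  ring

/-- `u ≥ 0` -/
theorem zpl_U (ε u p y : ℝ) (hε : 0 < ε) (hu : 0 ≤ u) (hp : 0 ≤ p) (hp2 : p ^ 2 ≤ ε) :
    0 ≤ (ε + u) * y ^ 2 + (u + p) ^ 2 * (1 + u + 2 * p + 2 * y) := by
  have h1 : 0 < ε + u := by linarith
  have h2 : (u + p) ^ 2 ≤ (ε + u) * (1 + u + 2 * p) := by nlinarith [mul_nonneg hu hp]
  have h3 : 0 ≤ (ε + u) * ((ε + u) * y ^ 2 + (u + p) ^ 2 * (1 + u + 2 * p + 2 * y)) := by
    have h4 : (u + p) ^ 2 * (u + p) ^ 2 ≤ (u + p) ^ 2 * ((ε + u) * (1 + u + 2 * p)) :=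
      mul_le_mul_of_nonneg_left h2 (sq_nonneg _)
    nlinarith [sq_nonneg ((ε + u) * y + (u + p) ^ 2)]
  exact nonneg_of_mul_nonneg_right h3 h1

/-- `u = -v ≤ 0`, `X = -h/2 ≥ 0` -/
theorem zpl_A (ε v p X k2 : ℝ) (hε : 1 / 4 ≤ ε) (hv0 : 0 ≤ v) (hv1 : v ≤ 1) (hp : 0 ≤ p)
    (hpε : p ≤ ε) (hX : 0 ≤ X) (hk2 : 0 ≤ k2) (hk : X ^ 2 ≤ k2 * (1 - v ^ 2)) :
    0 ≤ (ε - v) * (X + p) ^ 2 + (v - p) ^ 2 * (1 - v - 2 * X) +
      (1 + ε + 1 / (4 * ε)) * k2 * v ^ 2 + p ^ 2 * v ^ 2 := by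
  have hε0 : 0 < ε := by linarith
  have hvv : 0 ≤ ε - v * (1 - v) := by nlinarith [sq_nonneg (v - 1 / 2)]
  rcases hv1.eq_or_lt with h1 | h1
  · subst h1
    have h2 : X ^ 2 ≤ 0 := by simpa using hk
    have h3 : X = 0 := by
      have : X ^ 2 = 0 := le_antisymm h2 (sq_nonneg X)
      exact pow_eq_zero_iff (two_ne_zero) |>.1 this
    subst h3
    have h4 : 0 ≤ (1 + ε + 1 / (4 * ε)) * k2 * 1 ^ 2 := by positivity
    nlinarith [mul_nonneg hε0.le (sq_nonneg p)]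
  · have hs : 0 < 1 - v := by linarith
    have hs2 : 0 < 1 - v ^ 2 := by nlinarith
    obtain ⟨T, hT⟩ : ∃ T : ℝ, T = (ε - v) * (X + p) ^ 2 + (v - p) ^ 2 * (1 - v - 2 * X) +
      (1 + ε + 1 / (4 * ε)) * k2 * v ^ 2 + p ^ 2 * v ^ 2 := ⟨_, rfl⟩
    rw [← hT]
    have h2 : 4 * ε * (1 - v ^ 2) * T =
        4 * ε * (1 + v) * (v * (1 - v - X) - p * (1 - v)) ^ 2 + (v - 2 * ε) ^ 2 * X ^ 2 +
          4 * ε * (1 - v ^ 2) * (2 * p * X * (ε - p) + p ^ 2 * (ε - v * (1 - v))) +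
          (1 + 4 * ε + 4 * ε ^ 2) * v ^ 2 * (k2 * (1 - v ^ 2) - X ^ 2) := by
      rw [hT]
      field_simp
      ring
    have h3 : 0 ≤ (1 + 4 * ε + 4 * ε ^ 2) * v ^ 2 * (k2 * (1 - v ^ 2) - X ^ 2) :=
      mul_nonneg (by positivity) (by linarith)
    have h4 : 0 ≤ 2 * p * X * (ε - p) + p ^ 2 * (ε - v * (1 - v)) :=
      add_nonneg (mul_nonneg (by positivity) (by linarith)) (mul_nonneg (sq_nonneg p) hvv)
    have h5 : 0 ≤ 4 * ε * (1 - v ^ 2) * (2 * p * X * (ε - p) + p ^ 2 * (ε - v * (1 - v))) :=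
      mul_nonneg (by positivity) h4
    have h6 : 0 ≤ 4 * ε * (1 + v) * (v * (1 - v - X) - p * (1 - v)) ^ 2 := by positivity
    have h7 : 0 ≤ (v - 2 * ε) ^ 2 * X ^ 2 := by positivity
    have h8 : 0 ≤ 4 * ε * (1 - v ^ 2) * T := by rw [h2]; linarith
    exact nonneg_of_mul_nonneg_right h8 (by positivity)

/-- `u = -v ≤ 0`, `Z = h/2 ≥ 0` -/
theorem zpl_B (ε v p Z s μ k2 : ℝ) (hε : 1 / 4 ≤ ε) (hv0 : 0 ≤ v) (hv1 : v ≤ 1) (hp : 0 ≤ p)
    (hpε : 2 * p ≤ ε) (hZ : 0 ≤ Z) (hZ2 : Z ≤ 2 * p ∨ Z ≤ s + μ) (hs : 0 ≤ s)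
    (hμ0 : 0 ≤ μ) (hμ : μ ≤ 2 * ε) (hk2 : 0 ≤ k2) (hk : s ^ 2 ≤ k2 * (1 - v ^ 2)) :
    0 ≤ (ε - v) * (Z - p) ^ 2 + (v - p) ^ 2 * (1 - v + 2 * Z) +
      (1 + ε + 1 / (4 * ε)) * k2 * v ^ 2 + p ^ 2 * v ^ 2 := by
  have hε0 : 0 < ε := by linarith
  have hE : 0 ≤ (1 + ε + 1 / (4 * ε)) * k2 * v ^ 2 := by positivity
  have h1 : 0 ≤ (v - p) ^ 2 * (1 - v + 2 * Z) := mul_nonneg (sq_nonneg _) (by linarith)
  have h2 : 0 ≤ p ^ 2 * v ^ 2 := by positivity
  rcases le_total v ε with hvε | hvε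
  · have h3 : 0 ≤ (ε - v) * (Z - p) ^ 2 := mul_nonneg (by linarith) (sq_nonneg _)
    linarith
  · rcases le_total Z (2 * p) with hZp | hZp
    · -- `(Z - p)² ≤ p²`
      have h3 : (Z - p) ^ 2 ≤ p ^ 2 := by nlinarith
      have h4 : (v - ε) * (Z - p) ^ 2 ≤ (v - ε) * p ^ 2 :=
        mul_le_mul_of_nonneg_left h3 (by linarith)
      have h5 : 0 ≤ p ^ 2 * (v ^ 2 - v + ε) := by
        apply mul_nonneg (sq_nonneg p)
        nlinarith [sq_nonneg (v - 1 / 2)]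
      nlinarith
    · have hZ3 : Z ≤ s + μ ∨ Z = 2 * p := by
        rcases hZ2 with h | h
        · exact Or.inr (le_antisymm h hZp)
        · exact Or.inl h
      have h3 : (Z - p) ^ 2 ≤ Z ^ 2 := by nlinarith
      obtain ⟨a, ha⟩ : ∃ a : ℝ, a = v - ε := ⟨_, rfl⟩
      have ha0 : 0 ≤ a := by linarith
      have h4 : a * (Z - p) ^ 2 ≤ a * Z ^ 2 := mul_le_mul_of_nonneg_left h3 ha0
      have h5 : 2 * a * ε ≤ (v - p) ^ 2 := by
        have h6 : a + ε / 2 ≤ v - p := by linarith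
        have h7 : (a + ε / 2) ^ 2 ≤ (v - p) ^ 2 := pow_le_pow_left₀ (by linarith) h6 2
        nlinarith [sq_nonneg (a - ε / 2)]
      have h6 : 4 * a * ε * Z ≤ (v - p) ^ 2 * (1 - v + 2 * Z) := by
        have h7 : 2 * a * ε * (2 * Z) ≤ (v - p) ^ 2 * (2 * Z) :=
          mul_le_mul_of_nonneg_right h5 (by linarith)
        have h8 : 0 ≤ (v - p) ^ 2 * (1 - v) := mul_nonneg (sq_nonneg _) (by linarith)
        nlinarith
      have h7 : a * Z ^ 2 ≤ 4 * a * ε * Z + (1 + ε + 1 / (4 * ε)) * k2 * v ^ 2 := by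
        rcases le_total Z (4 * ε) with h8 | h8
        · have h9 : a * Z * Z ≤ a * Z * (4 * ε) :=
            mul_le_mul_of_nonneg_left h8 (mul_nonneg ha0 hZ)
          nlinarith
        · have h9 : Z ≤ s + μ := by
            rcases hZ3 with h | h
            · exact h
            · exfalso; linarith
          have h10 : Z * (Z - 4 * ε) ≤ s ^ 2 := by
            have h11 : Z * (Z - 4 * ε) ≤ (s + μ) * (s + μ - 4 * ε) :=
              mul_le_mul h9 (by linarith) (by linarith) (by linarith)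
            nlinarith [mul_nonneg hs (show 0 ≤ 2 * ε - μ by linarith),
              mul_nonneg hμ0 (show 0 ≤ 4 * ε - μ by linarith)]
          have h11 : s ^ 2 ≤ k2 := by nlinarith [mul_nonneg hk2 (sq_nonneg v)]
          have h12 : a * (Z * (Z - 4 * ε)) ≤ a * k2 :=
            mul_le_mul_of_nonneg_left (h10.trans h11) ha0
          have h13 : a * k2 ≤ (1 + ε + 1 / (4 * ε)) * k2 * v ^ 2 := by
            have h14 : a ≤ 1 / (4 * ε) * v ^ 2 := by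
              rw [div_mul_eq_mul_div, le_div_iff₀ (by positivity), ha]
              nlinarith [sq_nonneg (v - 2 * ε)]
            have h15 : a * k2 ≤ 1 / (4 * ε) * v ^ 2 * k2 := mul_le_mul_of_nonneg_right h14 hk2
            have h16 : 0 ≤ (1 + ε) * k2 * v ^ 2 := by positivity
            have h17 : (1 + ε + 1 / (4 * ε)) * k2 * v ^ 2 = (1 + ε) * k2 * v ^ 2 +
                1 / (4 * ε) * v ^ 2 * k2 := by ring
            rw [h17]
            linarith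
          nlinarith
      have h8 : (ε - v) * (Z - p) ^ 2 = - (a * (Z - p) ^ 2) := by rw [ha]; ring
      rw [h8]
      linarith

/-- the three cases together: `Δ ≥ 0` -/
theorem zpl_delta (ε u p h s μ k2 : ℝ) (hε : 1 / 4 ≤ ε) (hu0 : -1 ≤ u) (hp : 0 ≤ p)
    (hpε : 2 * p ≤ ε) (hp2 : p ≤ 1 / 2) (hs : 0 ≤ s) (hhs : -(2 * s) ≤ h)
    (hh : h ≤ 4 * p ∨ h / 2 ≤ s + μ)
    (hμ0 : 0 ≤ μ) (hμ : μ ≤ 2 * ε) (hk2 : 0 ≤ k2) (hk : s ^ 2 ≤ k2 * (1 - u ^ 2)) :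
    0 ≤ (ε + u) * ((h - 2 * p) / 2) ^ 2 + (u + p) ^ 2 * (1 + u + h) +
      (1 + ε + 1 / (4 * ε)) * k2 * u ^ 2 + p ^ 2 * u ^ 2 := by
  have hε0 : 0 < ε := by linarith
  have hE : 0 ≤ (1 + ε + 1 / (4 * ε)) * k2 * u ^ 2 := by positivity
  have hP : 0 ≤ p ^ 2 * u ^ 2 := by positivity
  rcases le_total 0 u with h0 | h0
  · have h1 := zpl_U ε u p ((h - 2 * p) / 2) hε0 h0 hp (by nlinarith)
    have e1 : 1 + u + 2 * p + 2 * ((h - 2 * p) / 2) = 1 + u + h := by ring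
    rw [e1] at h1
    linarith
  · rcases le_total h 0 with h1 | h1
    · have h2 := zpl_A ε (-u) p (-(h / 2)) k2 hε (by linarith) (by linarith) hp (by linarith)
        (by linarith) hk2 (by
          rw [neg_sq u]
          refine le_trans ?_ hk
          exact pow_le_pow_left₀ (by linarith) (by linarith) 2)
      refine h2.trans (le_of_eq ?_)
      ring
    · have h2 := zpl_B ε (-u) p (h / 2) s μ k2 hε (by linarith) (by linarith) hp hpε
        (by linarith) (by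
          rcases hh with h | h
          · left; linarith
          · right; exact h) hs hμ0 hμ hk2 (by rw [neg_sq]; exact hk)
      refine h2.trans (le_of_eq ?_)
      ring

/-- the pointwise bound of the product of the three messages on the loss side; `r` is the net
loss -/
theorem zpl_point (ε u p q ct h s μ k2 r : ℝ) (hε : 1 / 4 ≤ ε) (hu0 : -1 ≤ u) (hu1 : u ≤ 1)
    (hp : 0 ≤ p) (hpq : p + q = 2 * (1 + u + ct)) (hct : 2 * ct - r ≤ h)
    (hs : 0 ≤ s) (hhs : -(2 * s) ≤ h) (hcs : ct ≤ s + r / 2 + μ) (hμ0 : 0 ≤ μ)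
    (hμ : μ ≤ 2 * ε) (hk2 : 0 ≤ k2) (hk : s ^ 2 ≤ k2 * (1 - u ^ 2)) (hr : 0 ≤ r)
    (hrε : r ≤ ε) (hr1 : r ≤ 1) :
    (1 - u) * (p * q) ≤ (1 + r / 2) ^ 2 * (1 + u + h) + (1 + ε) * ((h - r) / 2) ^ 2 +
      (1 + ε + 1 / (4 * ε)) * k2 * u ^ 2 + (r / 2) ^ 2 * u ^ 2 := by
  have hu : 0 ≤ 1 - u := by linarith
  have hε0 : 0 < ε := by linarith
  -- the bound of the product by a square
  have hprod : ∀ c, ct ≤ c → (1 - u) * (p * q) ≤ (1 - u) * (1 + u + c) ^ 2 := by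
    intro c hc
    apply mul_le_mul_of_nonneg_left _ hu
    rcases le_total 0 q with h1 | h1
    · have h2 : p * q ≤ ((p + q) / 2) ^ 2 := by nlinarith [sq_nonneg (p - q)]
      refine h2.trans ?_
      apply pow_le_pow_left₀ (by linarith)
      linarith
    · have : p * q ≤ 0 := mul_nonpos_of_nonneg_of_nonpos hp h1
      exact this.trans (sq_nonneg _)
  have hid : ∀ c, (1 + r / 2) ^ 2 * (1 + u + (2 * c - r)) + (1 + ε) * ((2 * c - r - r) / 2) ^ 2 +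
      (1 + ε + 1 / (4 * ε)) * k2 * u ^ 2 + (r / 2) ^ 2 * u ^ 2 - (1 - u) * (1 + u + c) ^ 2 =
      (ε + u) * ((2 * c - r - 2 * (r / 2)) / 2) ^ 2 +
        (u + r / 2) ^ 2 * (1 + u + (2 * c - r)) +
      (1 + ε + 1 / (4 * ε)) * k2 * u ^ 2 + (r / 2) ^ 2 * u ^ 2 := by
    intro c
    ring
  rcases le_total h r with h0 | h0
  · -- `c = (h + r)/2`
    have h1 := hprod ((h + r) / 2) (by linarith)
    have h2 := zpl_delta ε u (r / 2) h s μ k2 hε hu0 (by linarith) (by linarith) (by linarith)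
      hs hhs (Or.inl (by linarith)) hμ0 hμ hk2 hk
    have h3 := hid ((h + r) / 2)
    have e1 : 2 * ((h + r) / 2) - r = h := by ring
    rw [e1] at h3
    linarith
  · rcases le_total ct r with h1 | h1
    · -- `c = r`
      have h2 := hprod r h1
      have h3 := hid r
      have e1 : 2 * r - r = r := by ring
      rw [e1] at h3
      have h4 : 0 ≤ (u + r / 2) ^ 2 * (1 + u + r) := mul_nonneg (sq_nonneg _) (by linarith)
      have h5 : 0 ≤ (1 + ε + 1 / (4 * ε)) * k2 * u ^ 2 := by positivity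
      have h6 : 0 ≤ (r / 2) ^ 2 * u ^ 2 := by positivity
      have h7 : (1 + r / 2) ^ 2 * (1 + u + r) ≤ (1 + r / 2) ^ 2 * (1 + u + h) :=
        mul_le_mul_of_nonneg_left (by linarith) (sq_nonneg _)
      have h8 : 0 ≤ (1 + ε) * ((h - r) / 2) ^ 2 := by positivity
      have e2 : (r - r) / 2 = 0 := by ring
      have e3 : (r - 2 * (r / 2)) / 2 = 0 := by ring
      rw [e2, e3] at h3
      nlinarith
    · -- `c = ct`
      have h2 := hprod ct le_rfl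
      have h3 := hid ct
      have h4 := zpl_delta ε u (r / 2) (2 * ct - r) s μ k2 hε hu0 (by linarith) (by linarith)
        (by linarith) hs (by linarith) (Or.inr (by linarith)) hμ0 hμ hk2 hk
      have h7 : (1 + r / 2) ^ 2 * (1 + u + (2 * ct - r)) ≤ (1 + r / 2) ^ 2 * (1 + u + h) :=
        mul_le_mul_of_nonneg_left (by linarith) (sq_nonneg _)
      have h8 : (1 + ε) * ((2 * ct - r - r) / 2) ^ 2 ≤ (1 + ε) * ((h - r) / 2) ^ 2 := by
        apply mul_le_mul_of_nonneg_left _ (by linarith)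
        exact pow_le_pow_left₀ (by linarith) (by linarith) 2
      linarith

end Pool.Agent.TSM
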