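import Pool.Agent.TSM.ExcRules
import Pool.Agent.TSM.Zpc
import Pool.Agent.TSM.ZpcL
import Pool.Agent.TSO.ZStar

set_option autoImplicit false

/-!
# The step with a leaf and two branches behind positive edges, excess form (MP_d27362_co)

The children are a leaf (negative edge) and two branches `O1`, `O2` (positive edges); for `O1` the
path with two vertices this is the step {leaf, path with two vertices, branch}.
-/

namespace Pool.Agent.TSM

open Finset Polynomial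
open Pool.Agent.TSP
open Pool.Agent.TSO
open Pool.Agent.TSR (OBr Ker sg_true sg_false vS_nonneg)
open Pool.Agent.TLT (sg)

/-! ### real inequalities -/

theorem zm_id (u H p : ℝ) : (1 - u) * (1 + u + (H + p)) ^ 2 =
    (1 + p) ^ 2 * (1 + u + 2 * H) + H ^ 2 + (-(u * (H + u) ^ 2) + 0 * u - u ^ 2) -
      2 * p * ((u + H) * (1 + u + p)) := by ring

/-- the loss side for every size of the net loss `r` -/
theorem zm_point (ε u p q ct h s μ k2 r : ℝ) (hε : 0 < ε) (hu0 : -1 ≤ u) (hu1 : u ≤ 1)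
    (hp : 0 ≤ p) (hq : 0 ≤ q) (hpq : p + q = 2 * (1 + u + ct)) (hct : 2 * ct - r ≤ h)
    (hs : 0 ≤ s) (hhs : -(2 * s) ≤ h) (hcs : ct ≤ s + r / 2 + μ) (hμ0 : 0 ≤ μ)
    (hμ : μ ≤ 4 * ε) (hk2 : 0 ≤ k2) (hk : s ^ 2 ≤ k2 * (1 - u ^ 2)) (hr : 0 ≤ r) :
    (1 - u) * (p * q) ≤ (1 + r / 2) ^ 2 * (1 + u + h) + (1 + ε) * (h / 2) ^ 2 +
      (1 + ε + 1 / (4 * ε)) * k2 * u ^ 2 +
      r * ((1 + r / 2) * max (-(u + h / 2)) 0 + (h / 2) ^ 2 / 4) := by
  have hu : 0 ≤ 1 - u := by linarith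
  have hprod : ∀ c, ct ≤ c → (1 - u) * (p * q) ≤ (1 - u) * (1 + u + c) ^ 2 := by
    intro c hc
    apply mul_le_mul_of_nonneg_left _ hu
    have h2 : p * q ≤ ((p + q) / 2) ^ 2 := by nlinarith [sq_nonneg (p - q)]
    refine h2.trans ?_
    apply pow_le_pow_left₀ (by linarith)
    linarith
  have hkey : ∀ H, (H < 0 → -s ≤ H) → H ≤ s + μ → (1 - u) * (1 + u + (H + r / 2)) ^ 2 ≤
      (1 + r / 2) ^ 2 * (1 + u + 2 * H) + (1 + ε) * H ^ 2 +
        (1 + ε + 1 / (4 * ε)) * k2 * u ^ 2 - r * ((u + H) * (1 + u + r / 2)) := by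
    intro H h1 h2
    have h3 := Pool.Agent.TSM.zpc_real ε u H s μ k2 0 hε hu0 hu1 hs h2 h1 hμ0 hμ hk2 hk le_rfl
    rw [zm_id]
    have e1 : (H + 0) ^ 2 = H ^ 2 := by ring
    rw [e1] at h3
    linarith
  have hw : 0 ≤ 1 + u + r / 2 := by linarith
  have hmax : ∀ H, -((u + H) * (1 + u + r / 2)) ≤
      (1 + r / 2) * max (-(u + H)) 0 + H ^ 2 / 4 := by
    intro H
    rcases le_total (-(u + H)) 0 with h1 | h1
    · rw [max_eq_right h1]
      have h2 : 0 ≤ (u + H) * (1 + u + r / 2) := mul_nonneg (by linarith) hw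
      nlinarith [sq_nonneg H]
    · rw [max_eq_left h1]
      nlinarith [sq_nonneg (u + H / 2)]
  rcases le_total (h / 2) (s + μ) with h0 | h0
  · have h1 := hprod (h / 2 + r / 2) (by linarith)
    have h2 := hkey (h / 2) (fun _ => by linarith) h0
    have e1 : 2 * (h / 2) = h := by ring
    rw [e1] at h2
    have h3 := mul_le_mul_of_nonneg_left (hmax (h / 2)) hr
    linarith
  · obtain ⟨H, hH⟩ : ∃ H : ℝ, H = max (ct - r / 2) 0 := ⟨_, rfl⟩
    have hH0 : 0 ≤ H := by rw [hH]; exact le_max_right _ _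
    have hH1 : ct - r / 2 ≤ H := by rw [hH]; exact le_max_left _ _
    have hH2 : H ≤ h / 2 := by
      rw [hH]
      exact max_le (by linarith) (by linarith)
    have hH3 : H ≤ s + μ := by
      rw [hH]
      exact max_le (by linarith) (by linarith)
    have h1 := hprod (H + r / 2) (by linarith)
    have h2 := hkey H (fun h => by linarith) hH3
    have h3 := mul_le_mul_of_nonneg_left (hmax (h / 2)) hr
    have h4 : r * ((h / 2 - H) * (1 + u + r / 2)) ≤ (1 + r / 2) ^ 2 * (2 * (h / 2 - H)) := by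
      have h5 : r * (1 + u + r / 2) ≤ 2 * (1 + r / 2) ^ 2 := by nlinarith
      have h6 := mul_le_mul_of_nonneg_right h5 (sub_nonneg.2 hH2)
      linarith
    have h5 : (1 + ε) * H ^ 2 ≤ (1 + ε) * (h / 2) ^ 2 :=
      mul_le_mul_of_nonneg_left (pow_le_pow_left₀ hH0 hH2 2) (by linarith)
    nlinarith

/-! ### the product of the three messages -/

section Raw

variable {m : ℕ} {S : Fin m → Fin m → ℝ}

/-- `β` plus half of `h`, first component -/
noncomputable def halfx (U : ℝ[X]) : ℝ[X] := 1 + (1 / 2 : ℝ) • (-(X * U))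

/-- `β` plus half of `h`, second component -/
noncomputable def halfy (y : ℝ[X]) : ℝ[X] := (1 / 2 : ℝ) • y

theorem two_mn_neg (hK : Ker S) (x y : ℝ[X]) :
    2 * mn (fun i => max (-(st S x y i)) 0) ≤ Real.sqrt (en S x y) := by
  have e1 : (fun i => max (-(st S x y i)) 0) =
      fun i => 1 / 2 * (|st S x y i| + -(st S x y i)) := by
    funext i
    rcases le_total (st S x y i) 0 with h | h
    · rw [max_eq_left (by linarith), abs_of_nonpos h]; ring
    · rw [max_eq_right (by linarith), abs_of_nonneg h]; ring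
  rw [e1, mn_mul, mn_add, mn_neg, mn_st S hK.anti]
  have h4 : mn (fun i => |st S x y i|) ≤ Real.sqrt (en S x y) := by
    rw [← ip_st_self hK.anti]
    exact mn_abs_le hK.pos _
  linarith

theorem zg_raw (hK : Ker S) {f1 f2 : Fin m → ℝ} {x1 y1 x2 y2 : ℝ[X]}
    (M1 M2 g1 g2 L A B E K Z : ℝ) (hM1 : 0 < M1) (hM2 : 0 < M2) (hf1 : ∀ i, 0 ≤ f1 i)
    (hf2 : ∀ i, 0 ≤ f2 i)
    (hb1 : ∀ i, f1 i ≤ M1 * (1 - (mo S x1 - g1) + st S (1 - X * y1) x1 i))
    (hb2 : ∀ i, f2 i ≤ M2 * (1 - (mo S x2 - g2) + st S (1 - X * y2) x2 i))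
    (hL : 0 < L) (hZ : 0 ≤ Z)
    (hΓ : ∀ u h : ℝ, -1 ≤ u → u ≤ 1 → 0 ≤ A * h ^ 2 + B * h + E * u ^ 2 + K)
    (hreal : ∀ u o s p q : ℝ, -1 ≤ u → u ≤ 1 → 0 ≤ p → 0 ≤ q →
      p + q = 2 * (1 + u + (o + (g1 + g2)) / 2) → 0 ≤ s →
      s ^ 2 ≤ en S (x1 + x2) (y1 + y2) / 4 * (1 - u ^ 2) → -(2 * s) ≤ o → o ≤ 2 * s →
      (1 - u) * (p * q) ≤ L * (1 + u + (o + mo S (x1 + x2))) +
        (A * (o + mo S (x1 + x2)) ^ 2 + B * (o + mo S (x1 + x2)) + E * u ^ 2 + K) +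
        Z * max (-(u + (o + mo S (x1 + x2)) / 2)) 0) :
    ∃ G : Fin m → ℝ, (∀ i, 0 ≤ G i) ∧
      (∀ i, (1 - beta S i) * (f1 i * f2 i) ≤
        (M1 * M2 * L) * (1 + st S (1 - X * (y1 + y2)) (x1 + x2) i + G i)) ∧
      2 * mn G ≤ (2 * A * en S (-(X * (y1 + y2))) (x1 + x2) + 2 * E * dee S + 2 * K +
        Z * Real.sqrt (en S (halfx (y1 + y2)) (halfy (x1 + x2)))) / L := by
  obtain ⟨ψ, hψ⟩ : ∃ ψ, ψ = st S (x1 + x2) (y1 + y2) := ⟨_, rfl⟩
  have hψ0 : mn ψ = 0 := by rw [hψ]; exact mn_st S hK.anti _ _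
  have hψψ : ip ψ ψ = en S (x1 + x2) (y1 + y2) := by rw [hψ]; exact ip_st_self hK.anti _ _
  have hen : 0 ≤ en S (x1 + x2) (y1 + y2) := en_nonneg hK.anti _ _
  obtain ⟨h, hh⟩ : ∃ h : Fin m → ℝ, h = op (aker S) ψ := ⟨_, rfl⟩
  have hhi : ∀ i, h i = op S ψ i + mo S (x1 + x2) := fun i => by
    rw [hh, hψ, op_aker_st hK]
  have hW : ∀ i, st S (1 - X * (y1 + y2)) (x1 + x2) i = beta S i + h i := fun i => by
    rw [st_one_sub, hh, hψ]
  have hh0 : mn h = 0 := by rw [hh]; exact mn_op_aker S hK.anti _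
  have hst : h = st S (-(X * (y1 + y2))) (x1 + x2) := by rw [hh, hψ, op_st]
  have hhh : (mn fun i => h i * h i) = en S (-(X * (y1 + y2))) (x1 + x2) := by
    have h1 : (mn fun i => h i * h i) = ip h h := rfl
    rw [h1, hst, ip_st_self hK.anti]
  have hz : ∀ i, st S (halfx (y1 + y2)) (halfy (x1 + x2)) i = beta S i + h i / 2 := fun i => by
    have e1 : halfy (x1 + x2) = 0 + (1 / 2 : ℝ) • (x1 + x2) := by rw [halfy, zero_add]
    rw [halfx, e1, st_add, st_smul, st_beta, ← hst]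
    simp only [Pi.add_apply, Pi.smul_apply, smul_eq_mul]
    ring
  have hu : ∀ i, -1 ≤ beta S i ∧ beta S i ≤ 1 := fun i =>
    abs_le.1 (beta_abs_le hK.pos S hK.bd i)
  obtain ⟨k, hk⟩ : ∃ k : ℝ, k = 1 / L := ⟨_, rfl⟩
  have hk0 : 0 < k := by rw [hk]; positivity
  have hk1 : L * k = 1 := by rw [hk]; field_simp
  refine ⟨fun i => k * ((A * h i ^ 2 + B * h i + E * beta S i ^ 2 + K) +
    Z * max (-(beta S i + h i / 2)) 0), fun i => ?_, fun i => ?_, ?_⟩
  · have h1 := hΓ (beta S i) (h i) (hu i).1 (hu i).2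
    have h2 : 0 ≤ Z * max (-(beta S i + h i / 2)) 0 := mul_nonneg hZ (le_max_right _ _)
    exact mul_nonneg hk0.le (add_nonneg h1 h2)
  · have hsink := abs_le.1 (near_sink hK.pos S hK.bd ψ hψ0 i)
    rw [hψψ] at hsink
    obtain ⟨s, hs⟩ : ∃ s : ℝ, s = Real.sqrt (1 - beta S i ^ 2) *
      Real.sqrt (en S (x1 + x2) (y1 + y2)) / 2 := ⟨_, rfl⟩
    have hs0 : 0 ≤ s := by rw [hs]; positivity
    have hus : 0 ≤ 1 - beta S i ^ 2 := by nlinarith [(hu i).1, (hu i).2]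
    have hss : s ^ 2 = en S (x1 + x2) (y1 + y2) / 4 * (1 - beta S i ^ 2) := by
      rw [hs, div_pow, mul_pow, Real.sq_sqrt hus, Real.sq_sqrt hen]
      ring
    have e1 : 1 - (mo S x1 - g1) + st S (1 - X * y1) x1 i =
        1 + beta S i + op S (st S x1 y1) i + g1 := by
      rw [st_one_sub, op_aker_st hK]; ring
    have e2 : 1 - (mo S x2 - g2) + st S (1 - X * y2) x2 i =
        1 + beta S i + op S (st S x2 y2) i + g2 := by
      rw [st_one_sub, op_aker_st hK]; ring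
    have hp1 := hb1 i
    have hq1 := hb2 i
    rw [e1] at hp1
    rw [e2] at hq1
    have hp0 : 0 ≤ 1 + beta S i + op S (st S x1 y1) i + g1 :=
      nonneg_of_mul_nonneg_right ((hf1 i).trans hp1) hM1
    have hq0 : 0 ≤ 1 + beta S i + op S (st S x2 y2) i + g2 :=
      nonneg_of_mul_nonneg_right ((hf2 i).trans hq1) hM2
    have hop : op S ψ i = op S (st S x1 y1) i + op S (st S x2 y2) i := by
      rw [hψ, st_add, op_add]
      rfl
    have hpt := hreal (beta S i) (op S ψ i) s _ _ (hu i).1 (hu i).2 hp0 hq0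
      (by rw [hop]; ring) hs0 hss.le (by rw [hs]; linarith [hsink.1])
      (by rw [hs]; linarith [hsink.2])
    rw [← hhi] at hpt
    have h1u : 0 ≤ 1 - beta S i := by linarith [(hu i).2]
    have h1 : f1 i * f2 i ≤ (M1 * (1 + beta S i + op S (st S x1 y1) i + g1)) *
        (M2 * (1 + beta S i + op S (st S x2 y2) i + g2)) :=
      mul_le_mul hp1 hq1 (hf2 i) (mul_nonneg hM1.le hp0)
    refine (mul_le_mul_of_nonneg_left h1 h1u).trans ?_
    have e3 : (1 - beta S i) * ((M1 * (1 + beta S i + op S (st S x1 y1) i + g1)) *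
        (M2 * (1 + beta S i + op S (st S x2 y2) i + g2))) = (M1 * M2) * ((1 - beta S i) *
        ((1 + beta S i + op S (st S x1 y1) i + g1) *
          (1 + beta S i + op S (st S x2 y2) i + g2))) := by ring
    rw [e3, mul_assoc (M1 * M2)]
    apply mul_le_mul_of_nonneg_left _ (by positivity)
    refine hpt.trans (le_of_eq ?_)
    rw [hW]
    have e4 : L * (1 + (beta S i + h i) + k * ((A * h i ^ 2 + B * h i + E * beta S i ^ 2 + K) +
        Z * max (-(beta S i + h i / 2)) 0)) = L * (1 + (beta S i + h i)) + (L * k) *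
        ((A * h i ^ 2 + B * h i + E * beta S i ^ 2 + K) +
        Z * max (-(beta S i + h i / 2)) 0) := by ring
    rw [e4, hk1]
    ring
  · have e1 : (fun i => k * ((A * h i ^ 2 + B * h i + E * beta S i ^ 2 + K) +
        Z * max (-(beta S i + h i / 2)) 0)) =
        fun i => (((k * K + (k * A) * (h i * h i)) + (k * B) * h i) +
          (k * E) * (beta S i * beta S i)) +
          (k * Z) * max (-(st S (halfx (y1 + y2)) (halfy (x1 + x2)) i)) 0 := by
      funext i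
      rw [hz]; ring
    rw [e1, mn_add, mn_add, mn_add, mn_add, mn_mul, mn_mul, mn_mul, mn_mul, mn_mul,
      mn_const hK.pos, hhh]
    have h3 : (mn fun i => beta S i * beta S i) = dee S := rfl
    have h4 : (mn fun i => h i) = 0 := hh0
    rw [h3, h4]
    have h5 := mul_le_mul_of_nonneg_left (two_mn_neg hK (halfx (y1 + y2)) (halfy (x1 + x2)))
      (mul_nonneg hk0.le hZ)
    have e3 : (2 * A * en S (-(X * (y1 + y2))) (x1 + x2) + 2 * E * dee S + 2 * K +
        Z * Real.sqrt (en S (halfx (y1 + y2)) (halfy (x1 + x2)))) / L =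
        k * (2 * A * en S (-(X * (y1 + y2))) (x1 + x2) + 2 * E * dee S + 2 * K +
        Z * Real.sqrt (en S (halfx (y1 + y2)) (halfy (x1 + x2)))) := by
      rw [hk]; ring
    rw [e3]
    linarith

/-- **the loss side**, raw form: two bounds of the pending cost for the same constant -/
theorem zl_raw (hK : Ker S) {f1 f2 : Fin m → ℝ} {x1 y1 x2 y2 : ℝ[X]}
    (M1 M2 g1 g2 ε a mm r : ℝ) (hM1 : 0 < M1) (hM2 : 0 < M2) (hf1 : ∀ i, 0 ≤ f1 i)
    (hf2 : ∀ i, 0 ≤ f2 i)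
    (hb1 : ∀ i, f1 i ≤ M1 * (1 - (mo S x1 - g1) + st S (1 - X * y1) x1 i))
    (hb2 : ∀ i, f2 i ≤ M2 * (1 - (mo S x2 - g2) + st S (1 - X * y2) x2 i))
    (hε : 1 / 4 ≤ ε) (ha : 0 ≤ a) (hm0 : 0 ≤ mm) (hmε : mm ≤ 4 * ε)
    (hma : mm ≤ mo S (x1 + x2) + a) (hr : 0 ≤ r) (hrg : r = g1 + g2 - mm) :
    ∃ G : Fin m → ℝ, (∀ i, 0 ≤ G i) ∧
      (∀ i, (1 - beta S i) * (f1 i * f2 i) ≤
        (M1 * M2 * (1 + r / 2) ^ 2) * (1 + st S (1 - X * (y1 + y2)) (x1 + x2) i + G i)) ∧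
      2 * mn G ≤ 2 * a + ((1 + ε) * (en S (-(X * (y1 + y2))) (x1 + x2) + a ^ 2) +
        (1 + ε + 1 / (4 * ε)) * dee S * en S (x1 + x2) (y1 + y2)) / 2 +
        r / (1 + r / 2) * Real.sqrt (en S (halfx (y1 + y2)) (halfy (x1 + x2))) ∧
      (r ≤ 1 →
        2 * mn G ≤ 2 * a + ((1 + ε) * (en S (-(X * (y1 + y2))) (x1 + x2) + a ^ 2) +
        (1 + ε + 1 / (4 * ε)) * dee S * en S (x1 + x2) (y1 + y2)) / 2 +
        (1 + max ε r + dee S) * r ^ 2 / (2 * (1 + r / 2) ^ 2)) := by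
  have hε0 : 0 < ε := by linarith
  have hD : 0 ≤ dee S := ip_self_nonneg _
  obtain ⟨Q0, hQ0⟩ : ∃ Q0 : ℝ, Q0 = en S (-(X * (y1 + y2))) (x1 + x2) := ⟨_, rfl⟩
  obtain ⟨en1, hen1⟩ : ∃ en1 : ℝ, en1 = en S (x1 + x2) (y1 + y2) := ⟨_, rfl⟩
  obtain ⟨δ, hδ⟩ : ∃ δ : ℝ, δ = en S (halfx (y1 + y2)) (halfy (x1 + x2)) := ⟨_, rfl⟩
  obtain ⟨D, hDd⟩ : ∃ D : ℝ, D = dee S := ⟨_, rfl⟩
  obtain ⟨e, he⟩ : ∃ e : ℝ, e = 1 + ε + 1 / (4 * ε) := ⟨_, rfl⟩
  have he0 : 0 < e := by rw [he]; positivity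
  have hQ0n : 0 ≤ Q0 := by rw [hQ0]; exact en_nonneg hK.anti _ _
  have hen1n : 0 ≤ en1 := by rw [hen1]; exact en_nonneg hK.anti _ _
  have hDn : 0 ≤ D := by rw [hDd]; exact hD
  have h1r : 0 < 1 + r / 2 := by linarith
  obtain ⟨L, hL⟩ : ∃ L : ℝ, L = (1 + r / 2) ^ 2 := ⟨_, rfl⟩
  have hL0 : 0 < L := by rw [hL]; positivity
  have hL1 : 1 ≤ L := by rw [hL]; nlinarith
  -- rule C
  obtain ⟨GC, hGC, hGCb, hmC⟩ := zg_raw hK (x1 := x1) (y1 := y1) (x2 := x2) (y2 := y2) M1 M2 g1 g2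
    L ((1 + ε + r / 4) / 4) (a * ((1 + ε + r / 4) / 2)) (e * (en1 / 4))
    (L * a + (1 + ε + r / 4) / 4 * a ^ 2) (r * (1 + r / 2)) hM1 hM2 hf1 hf2 hb1 hb2 hL0
    (mul_nonneg hr h1r.le) (by
      intro u h _ _
      have e1 : (1 + ε + r / 4) / 4 * h ^ 2 + a * ((1 + ε + r / 4) / 2) * h +
          e * (en1 / 4) * u ^ 2 + (L * a + (1 + ε + r / 4) / 4 * a ^ 2) =
          (1 + ε + r / 4) / 4 * (h + a) ^ 2 + e * (en1 / 4) * u ^ 2 + L * a := by ring
      rw [e1]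
      positivity) (by
      intro u o s p q hu0 hu1 hp hq hpq hs hss ho1 ho2
      rw [← hen1] at hss
      have hpt := zm_point ε u p q ((o + (g1 + g2)) / 2) (o + mo S (x1 + x2) + a) s (mm / 2)
        (en1 / 4) r hε0 hu0 hu1 hp hq hpq (by linarith) hs (by linarith) (by linarith)
        (by linarith) (by linarith) (by linarith) hss hr
      rw [← he, ← hL] at hpt
      refine hpt.trans ?_
      obtain ⟨h, hh⟩ : ∃ h : ℝ, h = o + mo S (x1 + x2) := ⟨_, rfl⟩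
      rw [← hh]
      have h1 : max (-(u + (h + a) / 2)) 0 ≤ max (-(u + h / 2)) 0 :=
        max_le_max (by linarith) le_rfl
      have h2 := mul_le_mul_of_nonneg_left h1 (mul_nonneg hr h1r.le)
      have e1 : L * (1 + u + h) + ((1 + ε + r / 4) / 4 * h ^ 2 +
          a * ((1 + ε + r / 4) / 2) * h + e * (en1 / 4) * u ^ 2 +
          (L * a + (1 + ε + r / 4) / 4 * a ^ 2)) = L * (1 + u + (h + a)) +
          (1 + ε) * ((h + a) / 2) ^ 2 + e * (en1 / 4) * u ^ 2 +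
          r * (((h + a) / 2) ^ 2 / 4) := by ring
      rw [e1]
      linarith)
  have hC : 2 * mn GC ≤ 2 * a + ((1 + ε) * (Q0 + a ^ 2) + e * D * en1) / 2 +
        r / (1 + r / 2) * Real.sqrt δ := by
    rw [← hQ0, ← hδ, ← hDd] at hmC
    refine hmC.trans ?_
    have e1 : (2 * ((1 + ε + r / 4) / 4) * Q0 + 2 * (e * (en1 / 4)) * D +
        2 * (L * a + (1 + ε + r / 4) / 4 * a ^ 2) + r * (1 + r / 2) * Real.sqrt δ) / L =
        2 * a + ((1 + ε + r / 4) * (Q0 + a ^ 2) + e * D * en1) / (2 * L) +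
        r / (1 + r / 2) * Real.sqrt δ := by
      rw [hL]
      field_simp
      ring
    rw [e1]
    have h2 : ((1 + ε + r / 4) * (Q0 + a ^ 2) + e * D * en1) / (2 * L) ≤
        ((1 + ε) * (Q0 + a ^ 2) + e * D * en1) / 2 := by
      rw [div_le_div_iff₀ (by positivity) (by norm_num)]
      have h3 : (1 + ε + r / 4) ≤ (1 + ε) * L := by
        rw [hL]
        nlinarith [mul_nonneg hε0.le hr, mul_nonneg hr hr,
          mul_nonneg hε0.le (mul_nonneg hr hr)]
      have h4 : 0 ≤ Q0 + a ^ 2 := by positivity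
      have h5 := mul_le_mul_of_nonneg_right h3 h4
      have h6 : 0 ≤ e * D * en1 := by positivity
      have h7 := mul_le_mul_of_nonneg_right hL1 h6
      nlinarith
    linarith
  rcases le_or_gt r 1 with hr11 | hr1
  · -- rule A
    obtain ⟨ε', hε'⟩ : ∃ ε' : ℝ, ε' = max ε r := ⟨_, rfl⟩
    have hεε : ε ≤ ε' := by rw [hε']; exact le_max_left _ _
    have hrε : r ≤ ε' := by rw [hε']; exact le_max_right _ _
    obtain ⟨e', he'⟩ : ∃ e' : ℝ, e' = 1 + ε' + 1 / (4 * ε') := ⟨_, rfl⟩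
    have hε'0 : 0 < ε' := by linarith
    have he'0 : 0 < e' := by rw [he']; positivity
    have hL2 : 1 + ε' ≤ (1 + ε) * L := by
      rcases le_total r ε with h | h
      · rw [hε', max_eq_left h]
        exact le_mul_of_one_le_right (by linarith) hL1
      · rw [hε', max_eq_right h, hL]
        nlinarith [mul_nonneg hε0.le (mul_nonneg hr hr), mul_nonneg hε0.le hr, mul_nonneg hr hr]
    have he'L : e' ≤ e * L := by
      have h1 : 1 / (4 * ε') ≤ 1 / (4 * ε) * L := by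
        have h2 : 1 / (4 * ε') ≤ 1 / (4 * ε) :=
          div_le_div_of_nonneg_left zero_le_one (by positivity) (by linarith)
        exact h2.trans (le_mul_of_one_le_right (by positivity) hL1)
      rw [he', he]
      linarith
    obtain ⟨GA, hGA, hGAb, hmA⟩ := zg_raw hK (x1 := x1) (y1 := y1) (x2 := x2) (y2 := y2)
      M1 M2 g1 g2
      L ((1 + ε') / 4) ((a - r) * ((1 + ε') / 2)) (e' * (en1 / 4) + r ^ 2 / 4)
      (L * a + (1 + ε') / 4 * (a - r) ^ 2) 0 hM1 hM2 hf1 hf2 hb1 hb2 hL0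
      le_rfl (by
        intro u h _ _
        have e1 : (1 + ε') / 4 * h ^ 2 + (a - r) * ((1 + ε') / 2) * h +
            (e' * (en1 / 4) + r ^ 2 / 4) * u ^ 2 + (L * a + (1 + ε') / 4 * (a - r) ^ 2) =
            (1 + ε') / 4 * (h + (a - r)) ^ 2 + (e' * (en1 / 4) + r ^ 2 / 4) * u ^ 2 +
              L * a := by
          ring
        rw [e1]
        positivity) (by
        intro u o s p q hu0 hu1 hp hq hpq hs hss ho1 ho2
        rw [← hen1] at hss
        have hpt := zpl_point ε' u p q ((o + (g1 + g2)) / 2) (o + mo S (x1 + x2) + a) s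
          (mm / 2) (en1 / 4) r (by linarith) hu0 hu1 hp hpq (by linarith) hs (by linarith)
          (by linarith)
          (by linarith) (by linarith) (by linarith) hss hr hrε hr11
        rw [← he', ← hL] at hpt
        refine hpt.trans (le_of_eq ?_)
        ring)
    refine ⟨fun i => min (GA i) (GC i), fun i => le_min (hGA i) (hGC i), fun i => ?_, ?_, ?_⟩
    · show (1 - beta S i) * (f1 i * f2 i) ≤ (M1 * M2 * (1 + r / 2) ^ 2) *
        (1 + st S (1 - X * (y1 + y2)) (x1 + x2) i + min (GA i) (GC i))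
      rcases min_choice (GA i) (GC i) with h | h
      · rw [h, ← hL]; exact hGAb i
      · rw [h, ← hL]; exact hGCb i
    · rw [← hQ0, ← hδ, ← hDd, ← he, ← hen1]
      refine le_trans ?_ hC
      have := mn_mono (f := fun i => min (GA i) (GC i)) (g := GC)
        (fun i => min_le_right _ _)
      linarith
    · intro _
      rw [← hQ0, ← hDd, ← he, ← hen1, ← hε', ← hL]
      have h0 := mn_mono (f := fun i => min (GA i) (GC i)) (g := GA)
        (fun i => min_le_left _ _)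
      rw [← hQ0, ← hδ, ← hDd] at hmA
      have e1 : (2 * ((1 + ε') / 4) * Q0 + 2 * (e' * (en1 / 4) + r ^ 2 / 4) * D +
          2 * (L * a + (1 + ε') / 4 * (a - r) ^ 2) + 0 * Real.sqrt δ) / L =
          2 * a + ((1 + ε') * (Q0 + (a - r) ^ 2) + e' * D * en1 + r ^ 2 * D) / (2 * L) := by
        field_simp
        ring
      rw [e1] at hmA
      have h2 : ((1 + ε') * (Q0 + (a - r) ^ 2) + e' * D * en1 + r ^ 2 * D) / (2 * L) ≤
          ((1 + ε) * (Q0 + a ^ 2) + e * D * en1) / 2 + (1 + ε' + D) * r ^ 2 / (2 * L) := by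
        have h3 : ((1 + ε') * (Q0 + (a - r) ^ 2) + e' * D * en1 + r ^ 2 * D) / (2 * L) ≤
            (((1 + ε') * (Q0 + a ^ 2) + e' * D * en1) + (1 + ε' + D) * r ^ 2) / (2 * L) := by
          apply div_le_div_of_nonneg_right _ (by positivity)
          have h31 : (1 + ε') * (a - r) ^ 2 ≤ (1 + ε') * (a ^ 2 + r ^ 2) := by
            apply mul_le_mul_of_nonneg_left _ (by linarith)
            nlinarith [mul_nonneg ha hr]
          linarith
        refine h3.trans ?_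
        rw [add_div]
        have h4 : ((1 + ε') * (Q0 + a ^ 2) + e' * D * en1) / (2 * L) ≤
            ((1 + ε) * (Q0 + a ^ 2) + e * D * en1) / 2 := by
          rw [div_le_div_iff₀ (by positivity) (by norm_num)]
          have h5 : 0 ≤ Q0 + a ^ 2 := by positivity
          have h6 := mul_le_mul_of_nonneg_right hL2 h5
          have h7 : 0 ≤ D * en1 := mul_nonneg hDn hen1n
          have h8 := mul_le_mul_of_nonneg_right he'L h7
          nlinarith
        linarith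
      linarith
  · refine ⟨GC, hGC, fun i => ?_, ?_, fun h1 => ?_⟩
    · rw [← hL]; exact hGCb i
    · rw [← hQ0, ← hδ, ← hDd, ← he, ← hen1]
      exact hC
    · exact absurd h1 (not_le.2 hr1)

/-- a bound of the product for the paid cost `g`, with the constant `L` and pending cost `P` -/
def ZRule (S : Fin m → Fin m → ℝ) (x U : ℝ[X]) (g L P : ℝ) : Prop :=
  ∃ A B E K : ℝ, 0 < L ∧
    (∀ u h : ℝ, -1 ≤ u → u ≤ 1 → 0 ≤ A * h ^ 2 + B * h + E * u ^ 2 + K) ∧
    (∀ u o s p q : ℝ, -1 ≤ u → u ≤ 1 → 0 ≤ p → 0 ≤ q →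
      p + q = 2 * (1 + u + (o + g) / 2) → 0 ≤ s →
      s ^ 2 ≤ en S x U / 4 * (1 - u ^ 2) → -(2 * s) ≤ o → o ≤ 2 * s →
      (1 - u) * (p * q) ≤ L * (1 + u + (o + mo S x)) +
        (A * (o + mo S x) ^ 2 + B * (o + mo S x) + E * u ^ 2 + K)) ∧
    (2 * A * en S (-(X * U)) x + 2 * E * dee S + 2 * K) / L ≤ P

/-- rule (Z), `ρ` the net gain -/
theorem ZRule.old (hK : Ker S) {x U : ℝ[X]} {g ρ ε P : ℝ} (hε : 0 < ε) (hg0 : 0 ≤ g)
    (hg : g ≤ 8 * ε) (hρ0 : 0 ≤ ρ) (hρ1 : ρ < 1) (hG : g + ρ ≤ mo S x)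
    (hP : ((1 + ε) * (en S (-(X * U)) x + ρ ^ 2) + (1 + ε + 1 / (4 * ε)) * dee S * en S x U +
      ρ ^ 2) / (2 * (1 - ρ)) ≤ P) : ZRule S x U g (1 - ρ) P := by
  have h1ρ : 0 < 1 - ρ := by linarith
  have hen : 0 ≤ en S x U := en_nonneg hK.anti _ _
  refine ⟨(1 + ε) / 4, (1 + ε) / 2 * ρ, (1 + ε + 1 / (4 * ε)) * (en S x U / 4),
    (1 + ε) / 4 * ρ ^ 2 + ρ ^ 2 / 4, h1ρ, fun u h _ _ => ?_,
    fun u o s p q hu0 hu1 hp hq hpq hs hss ho1 ho2 => ?_, ?_⟩
  · have e1 : (1 + ε) / 4 * h ^ 2 + (1 + ε) / 2 * ρ * h + (1 + ε + 1 / (4 * ε)) *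
        (en S x U / 4) * u ^ 2 + ((1 + ε) / 4 * ρ ^ 2 + ρ ^ 2 / 4) =
        (1 + ε) / 4 * (h + ρ) ^ 2 + (1 + ε + 1 / (4 * ε)) * (en S x U / 4) * u ^ 2 +
          ρ ^ 2 / 4 := by ring
    rw [e1]
    positivity
  · have hpt := zpc_point ε u p q ((o + g) / 2) (o + mo S x) s (g / 2) (en S x U / 4) ρ hε
      hu0 hu1 hp hpq (by linarith) hs (by linarith) (by linarith) (by linarith) (by linarith)
      (by linarith) hss hρ0 hρ1.le
    refine hpt.trans (le_of_eq ?_)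
    ring
  · refine le_trans (le_of_eq ?_) hP
    field_simp
    ring

/-- rule (Z*), `ρ` the net gain -/
theorem ZRule.star (hK : Ker S) {x U : ℝ[X]} {g ρ P : ℝ} (hg0 : 0 ≤ g)
    (hg : g ≤ 1 / 3) (hρ0 : 0 ≤ ρ) (hρ1 : ρ ≤ 1 / 3) (hG : g + ρ ≤ mo S x)
    (hen13 : en S x U ≤ 13)
    (hP : (7 / 10 * en S (-(X * U)) x + (81 / 80 - 243 / 80 * ρ) * (dee S * en S x U)) /
      (1 - 9 / 10 * ρ + 73 / 200 * ρ ^ 2) ≤ P) :
    ZRule S x U g (1 - 9 / 10 * ρ + 73 / 200 * ρ ^ 2) P := by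
  have hL0 := (zstar3_exp ρ hρ0 hρ1).2
  obtain ⟨L, hL⟩ : ∃ L : ℝ, L = 1 - 9 / 10 * ρ + 73 / 200 * ρ ^ 2 := ⟨_, rfl⟩
  rw [← hL] at hL0 hP ⊢
  have hen : 0 ≤ en S x U := en_nonneg hK.anti _ _
  have hE : 0 ≤ 81 / 40 - 243 / 40 * ρ := by linarith
  refine ⟨7 / 20, 0, (81 / 40 - 243 / 40 * ρ) * (en S x U / 4), 0, by linarith,
    fun u h _ _ => ?_,
    fun u o s p q hu0 hu1 hp hq hpq hs hss ho1 ho2 => ?_, ?_⟩
  · have : 0 ≤ 7 / 20 * h ^ 2 + (81 / 40 - 243 / 40 * ρ) * (en S x U / 4) * u ^ 2 := by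
      positivity
    linarith
  · have hu : 0 ≤ 1 - u := by linarith
    have hprod : ∀ c, (o + g) / 2 ≤ c → (1 - u) * (p * q) ≤ (1 - u) * (1 + u + c) ^ 2 := by
      intro c hc
      apply mul_le_mul_of_nonneg_left _ hu
      have h2 : p * q ≤ ((p + q) / 2) ^ 2 := by nlinarith [sq_nonneg (p - q)]
      refine h2.trans ?_
      apply pow_le_pow_left₀ (by linarith)
      linarith
    have hs2 : s ^ 2 ≤ 13 / 4 := by
      refine hss.trans ?_
      have h1 : 0 ≤ en S x U / 4 * u ^ 2 := by positivity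
      nlinarith
    have hs3 : s ≤ 181 / 100 := by
      by_contra h
      push Not at h
      nlinarith
    have habs : |u| ≤ 1 := abs_le.2 ⟨hu0, hu1⟩
    rcases lt_or_ge ((o + mo S x - ρ) / 2) 0 with h0 | h0
    · have h1 := hprod ((o + mo S x - ρ) / 2) (by linarith)
      have h2 := zstar3 u ((o + mo S x - ρ) / 2) ρ (en S x U / 4) hρ0 hρ1 habs (by linarith)
        (fun _ => by
          refine le_trans ?_ hss
          have h3 := pow_le_pow_left₀ (show 0 ≤ -((o + mo S x - ρ) / 2) by linarith)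
            (show -((o + mo S x - ρ) / 2) ≤ s by linarith) 2
          rwa [neg_sq] at h3) (by linarith) (by linarith)
      have e1 : 2 * ((o + mo S x - ρ) / 2) + ρ = o + mo S x := by ring
      rw [e1, ← hL] at h2
      linarith
    · obtain ⟨c, hc⟩ : ∃ c : ℝ, c = max ((o + g) / 2) 0 := ⟨_, rfl⟩
      have hc0 : 0 ≤ c := by rw [hc]; exact le_max_right _ _
      have hc1 : (o + g) / 2 ≤ c := by rw [hc]; exact le_max_left _ _
      have hc2 : c ≤ (o + mo S x - ρ) / 2 := by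
        rw [hc]
        exact max_le (by linarith) h0
      have hc3 : c ≤ 2 := by
        rw [hc]
        exact max_le (by linarith) (by norm_num)
      have h1 := hprod c hc1
      have h2 := zstar3 u c ρ (en S x U / 4) hρ0 hρ1 habs (by linarith)
        (fun h => by linarith) hc3 (by linarith)
      rw [← hL] at h2
      have h3 : L * (1 + u + (2 * c + ρ)) ≤ L * (1 + u + (o + mo S x)) :=
        mul_le_mul_of_nonneg_left (by linarith) (by linarith)
      have h4 : (2 * c + ρ) ^ 2 ≤ (o + mo S x) ^ 2 :=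
        pow_le_pow_left₀ (by linarith) (by linarith) 2
      linarith
  · refine le_trans (le_of_eq ?_) hP
    congr 1
    ring

theorem ZRule.raw (hK : Ker S) {f1 f2 : Fin m → ℝ} {x1 y1 x2 y2 : ℝ[X]}
    {M1 M2 g1 g2 L P : ℝ} (h : ZRule S (x1 + x2) (y1 + y2) (g1 + g2) L P)
    (hM1 : 0 < M1) (hM2 : 0 < M2) (hf1 : ∀ i, 0 ≤ f1 i)
    (hf2 : ∀ i, 0 ≤ f2 i)
    (hb1 : ∀ i, f1 i ≤ M1 * (1 - (mo S x1 - g1) + st S (1 - X * y1) x1 i))
    (hb2 : ∀ i, f2 i ≤ M2 * (1 - (mo S x2 - g2) + st S (1 - X * y2) x2 i)) :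
    0 < L ∧ ∃ G : Fin m → ℝ, (∀ i, 0 ≤ G i) ∧
      (∀ i, (1 - beta S i) * (f1 i * f2 i) ≤
        (M1 * M2 * L) * (1 + st S (1 - X * (y1 + y2)) (x1 + x2) i + G i)) ∧
      2 * mn G ≤ P := by
  obtain ⟨A, B, E, K, hL, hΓ, hreal, hP⟩ := h
  refine ⟨hL, ?_⟩
  obtain ⟨G, hG, hGb, hmG⟩ := zg_raw hK (x1 := x1) (y1 := y1) (x2 := x2) (y2 := y2) M1 M2 g1 g2
    L A B E K 0 hM1 hM2 hf1 hf2 hb1 hb2 hL le_rfl hΓ
    (fun u o s p q h1 h2 h3 h4 h5 h6 h7 h8 h9 => by
      have := hreal u o s p q h1 h2 h3 h4 h5 h6 h7 h8 h9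
      linarith)
  refine ⟨G, hG, hGb, hmG.trans (le_trans (le_of_eq ?_) hP)⟩
  rw [zero_mul, add_zero]

/-- the gain side with rule (Z*); `R` the cap of the gain -/
theorem star_gain (hK : Ker S) {x U : ℝ[X]} (CA CE R G0 Q b b' c' : ℝ)
    (hG0 : G0 ≤ mo S x) (hGR : G0 ≤ R) (hR : R ≤ 1 / 3) (hR0 : 0 ≤ R)
    (hCA : 7 / 10 ≤ CA * (1 - 9 / 10 * R + 73 / 200 * R ^ 2)) (hCE : 81 / 80 ≤ CE)
    (hcap : en S x U ≤ 13 ∨ 9 / 10 * R ≤ (CE - 81 / 80) * (13 * dee S))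
    (hQ : CA * en S (-(X * U)) x + CE * (dee S * en S x U) ≤ Q)
    (hb1 : b' ≤ b + 9 / 10 * G0 - Q) (hc1 : Q ≤ c') :
    ∀ g, 0 ≤ g → g ≤ G0 → ∃ L P, ZRule S x U g L P ∧ b' + Real.log L + P ≤ b + g ∧ P ≤ c' := by
  intro g hg0 hgG
  have hD : 0 ≤ dee S := ip_self_nonneg _
  have hen : 0 ≤ en S x U := en_nonneg hK.anti _ _
  have hQ0 : 0 ≤ en S (-(X * U)) x := en_nonneg hK.anti _ _
  have hDe : 0 ≤ dee S * en S x U := mul_nonneg hD hen
  have hLR : 37 / 50 ≤ 1 - 9 / 10 * R + 73 / 200 * R ^ 2 := (zstar3_exp R hR0 hR).2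
  have hLR1 : 1 - 9 / 10 * R + 73 / 200 * R ^ 2 ≤ 1 := by nlinarith
  have hCA0 : 0 < CA := by
    by_contra h
    push Not at h
    have := mul_nonpos_of_nonpos_of_nonneg h (show 0 ≤ 1 - 9 / 10 * R + 73 / 200 * R ^ 2 by
      linarith)
    linarith
  have hCA7 : 7 / 10 ≤ CA := by nlinarith
  by_cases h13 : en S x U ≤ 13
  · obtain ⟨ρ, hρ⟩ : ∃ ρ : ℝ, ρ = G0 - g := ⟨_, rfl⟩
    have hρ0 : 0 ≤ ρ := by linarith
    have hρR : ρ ≤ R := by linarith
    have hρ1 : ρ ≤ 1 / 3 := by linarith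
    obtain ⟨hexp, hL0⟩ := zstar3_exp ρ hρ0 hρ1
    obtain ⟨L, hL⟩ : ∃ L : ℝ, L = 1 - 9 / 10 * ρ + 73 / 200 * ρ ^ 2 := ⟨_, rfl⟩
    have hLm : 1 - 9 / 10 * R + 73 / 200 * R ^ 2 ≤ L := by
      rw [hL]
      nlinarith [mul_nonneg (sub_nonneg.2 hρR) (show 0 ≤ 9 / 10 - 73 / 200 * (R + ρ) by linarith)]
    have hP : (7 / 10 * en S (-(X * U)) x + (81 / 80 - 243 / 80 * ρ) * (dee S * en S x U)) /
      (1 - 9 / 10 * ρ + 73 / 200 * ρ ^ 2) ≤ Q := by
      rw [← hL] at hL0 ⊢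
      refine le_trans ?_ hQ
      rw [div_le_iff₀ (by linarith)]
      have h1 : 7 / 10 * en S (-(X * U)) x ≤ CA * L * en S (-(X * U)) x := by
        apply mul_le_mul_of_nonneg_right _ hQ0
        exact hCA.trans (mul_le_mul_of_nonneg_left hLm hCA0.le)
      have h2 : (81 / 80 - 243 / 80 * ρ) * (dee S * en S x U) ≤
          CE * L * (dee S * en S x U) := by
        apply mul_le_mul_of_nonneg_right _ hDe
        have h3 : 81 / 80 - 243 / 80 * ρ ≤ 81 / 80 * L := by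
          rw [hL]
          nlinarith [sq_nonneg ρ]
        exact h3.trans (mul_le_mul_of_nonneg_right hCE (by linarith))
      nlinarith
    refine ⟨_, _, ZRule.star hK (ρ := ρ) hg0 (by linarith) hρ0 hρ1 (by linarith) h13 hP, ?_,
      hc1⟩
    have h4 : Real.log (1 - 9 / 10 * ρ + 73 / 200 * ρ ^ 2) ≤ -(9 / 10 * ρ) := by
      rw [Real.log_le_iff_le_exp (by linarith)]
      exact hexp
    linarith
  · have h13' := not_le.1 h13
    have hcap' : 9 / 10 * R ≤ (CE - 81 / 80) * (13 * dee S) := by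
      rcases hcap with h | h
      · exact absurd h h13
      · exact h
    have h5 : (CE - 81 / 80) * (13 * dee S) ≤ (CE - 81 / 80) * (dee S * en S x U) := by
      apply mul_le_mul_of_nonneg_left _ (by linarith)
      have := mul_le_mul_of_nonneg_left h13'.le hD
      linarith
    have h6 : 7 / 10 * en S (-(X * U)) x ≤ CA * en S (-(X * U)) x :=
      mul_le_mul_of_nonneg_right hCA7 hQ0
    refine ⟨1 - 0, 7 / 10 * en S (-(X * U)) x + 81 / 80 * (dee S * en S x U),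
      ZRule.old hK (ε := 2 / 5) (by norm_num) hg0 (by linarith) le_rfl one_pos (by linarith)
        (le_of_eq ?_), ?_, ?_⟩
    · norm_num
      ring
    · rw [sub_zero, Real.log_one]
      linarith
    · have : 81 / 80 * (dee S * en S x U) ≤ CE * (dee S * en S x U) :=
        mul_le_mul_of_nonneg_right hCE hDe
      linarith

/-- the gain side with rule (Z) -/
theorem old_gain (hK : Ker S) {x U : ℝ[X]} (ε η R G0 Q b b' c' : ℝ) (hε : 0 < ε)
    (hG0 : G0 ≤ mo S x) (hGR : G0 ≤ R) (hR1 : R < 1) (hRε : R ≤ 8 * ε) (hη1 : η ≤ 1)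
    (hη : ∀ ρ, 0 ≤ ρ → ρ ≤ R → Real.log (1 - ρ) + (2 + ε) * ρ ^ 2 / (2 * (1 - ρ)) ≤ - (η * ρ))
    (hQ : (1 + ε) * en S (-(X * U)) x + (1 + ε + 1 / (4 * ε)) * dee S * en S x U ≤ Q)
    (hb1 : b' ≤ b + η * G0 - Q / (2 * (1 - R)))
    (hc1 : 0 ≤ G0 → Q / (2 * (1 - R)) + (2 + ε) * R / (2 * (1 - R)) * G0 ≤ c') :
    ∀ g, 0 ≤ g → g ≤ G0 → ∃ L P, ZRule S x U g L P ∧ b' + Real.log L + P ≤ b + g ∧ P ≤ c' := by
  intro g hg0 hgG
  have hD : 0 ≤ dee S := ip_self_nonneg _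
  have hen : 0 ≤ en S x U := en_nonneg hK.anti _ _
  have hE0 : 0 ≤ en S (-(X * U)) x := en_nonneg hK.anti _ _
  have hQ0 : 0 ≤ Q := le_trans (by positivity) hQ
  obtain ⟨ρ, hρ⟩ : ∃ ρ : ℝ, ρ = G0 - g := ⟨_, rfl⟩
  have hρ0 : 0 ≤ ρ := by linarith
  have hρR : ρ ≤ R := by linarith
  have hR0 : 0 ≤ R := by linarith
  have h1ρ : 0 < 1 - ρ := by linarith
  have h1R : 0 < 1 - R := by linarith
  have hsplit : ((1 + ε) * (en S (-(X * U)) x + ρ ^ 2) + (1 + ε + 1 / (4 * ε)) * dee S *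
      en S x U + ρ ^ 2) / (2 * (1 - ρ)) ≤ Q / (2 * (1 - R)) + (2 + ε) * ρ ^ 2 /
        (2 * (1 - ρ)) := by
    have e1 : ((1 + ε) * (en S (-(X * U)) x + ρ ^ 2) + (1 + ε + 1 / (4 * ε)) * dee S *
        en S x U + ρ ^ 2) / (2 * (1 - ρ)) = ((1 + ε) * en S (-(X * U)) x +
        (1 + ε + 1 / (4 * ε)) * dee S * en S x U) / (2 * (1 - ρ)) +
        (2 + ε) * ρ ^ 2 / (2 * (1 - ρ)) := by
      rw [← add_div]; ring
    rw [e1]
    have h3 : ((1 + ε) * en S (-(X * U)) x + (1 + ε + 1 / (4 * ε)) * dee S * en S x U) /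
        (2 * (1 - ρ)) ≤ Q / (2 * (1 - R)) := div_le_div₀ hQ0 hQ (by positivity) (by linarith)
    linarith
  refine ⟨_, _, ZRule.old hK (ρ := ρ) hε hg0 (by linarith) hρ0 (by linarith) (by linarith)
    hsplit, ?_, ?_⟩
  · have h4 := hη ρ hρ0 hρR
    have h5 : η * ρ = η * G0 - η * g := by rw [hρ]; ring
    have h6 : η * g ≤ g := mul_le_of_le_one_left hg0 hη1
    linarith
  · have h5 : (2 + ε) * ρ ^ 2 / (2 * (1 - ρ)) ≤ (2 + ε) * R / (2 * (1 - R)) * G0 := by
      have h6 : (2 + ε) * ρ ^ 2 / (2 * (1 - ρ)) ≤ (2 + ε) * (R * G0) / (2 * (1 - R)) := by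
        apply div_le_div₀
        · exact mul_nonneg (by linarith) (mul_nonneg hR0 (by linarith))
        · apply mul_le_mul_of_nonneg_left _ (by linarith)
          rw [sq]
          exact mul_le_mul hρR (by linarith) hρ0 hR0
        · positivity
        · linarith
      refine h6.trans (le_of_eq ?_)
      ring
    have h6 := hc1 (by linarith)
    linarith

end Raw

/-! ### the excess form -/

/-- what the banks of the children give for the net loss `r`; `B` bounds the pending costs minus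
the gain -/
noncomputable def avz (θ χ B r : ℝ) : ℝ := θ * min r B + χ * max (r - B) 0

theorem avz_le {θ χ B r c e v : ℝ} (hθ : 0 ≤ θ) (hθχ : θ ≤ χ) (he : 0 ≤ e)
    (hr : r ≤ c + e) (h1 : θ * c ≤ v) (h2 : χ * c - (χ - θ) * B ≤ v) :
    avz θ χ B r ≤ v + χ * e := by
  unfold avz
  have hχ : 0 ≤ χ := hθ.trans hθχ
  rcases le_total r B with h | h
  · rw [min_eq_left h, max_eq_right (by linarith), mul_zero, add_zero]
    have h3 := mul_le_mul_of_nonneg_left hr hθ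
    have h4 := mul_le_mul_of_nonneg_right hθχ he
    linarith
  · rw [min_eq_right h, max_eq_left (by linarith)]
    have h3 := mul_le_mul_of_nonneg_left hr hχ
    linarith

/-- the condition on the loss side: for every net loss `r` one of the two bounds of the pending
cost suffices. `k = 1` for the bank, `k = 1 + χ` for the bank with the excess -/
def LossZ (D ε χ k θ B δ P : ℝ) : Prop := ∀ r : ℝ, 0 ≤ r →
  (r ≤ 1 ∧ 2 * Real.log (1 + r / 2) +
    k * ((1 + max ε r + D) * r ^ 2 / (2 * (1 + r / 2) ^ 2)) ≤ r + avz θ χ B r) ∨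
  2 * Real.log (1 + r / 2) + k * (r / (1 + r / 2) * Real.sqrt δ) ≤ r + avz θ χ B r + P

section Msg

variable {m : ℕ} {S : Fin m → Fin m → ℝ}

/-- **leaf and two branches behind positive edges, excess form** -/
theorem MMajE.zpc (hK : Ker S) {f1 f2 : Fin m → ℝ} {x1 y1 x2 y2 : ℝ[X]}
    {χ b1 c1 b2 c2 b' c' : ℝ}
    (h1 : MMajE S f1 (1 - X * y1) x1 (mo S x1) χ b1 c1)
    (h2 : MMajE S f2 (1 - X * y2) x2 (mo S x2) χ b2 c2)
    (G0 : ℝ) (hG0 : G0 ≤ mo S (x1 + x2))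
    (hgain : ∀ g, 0 ≤ g → g ≤ G0 → ∃ L P, ZRule S (x1 + x2) (y1 + y2) g L P ∧
      b' + Real.log L + P ≤ b1 + b2 + g ∧ P ≤ c')
    (ε B1 B2 θ1 θ2 N Q P1 P2 : ℝ) (hε : 1 / 4 ≤ ε) (hR : G0 ≤ 4 * ε) (hN0 : N ≤ 0)
    (hNG : N ≤ G0)
    (hθ10 : 0 ≤ θ1) (hθ11 : θ1 ≤ 1) (hθ1 : θ1 ≤ χ) (hθ20 : 0 ≤ θ2) (hθ2 : θ2 ≤ χ)
    (hP1 : 0 ≤ P1) (hP2 : 0 ≤ P2)
    (hQ : (1 + ε) * en S (-(X * (y1 + y2))) (x1 + x2) +
      (1 + ε + 1 / (4 * ε)) * dee S * en S (x1 + x2) (y1 + y2) ≤ Q)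
    (hQn : G0 < 0 → (1 + ε) * en S (-(X * (y1 + y2))) (x1 + x2) +
      (1 + ε + 1 / (4 * ε) + (1 + ε)) * dee S * en S (x1 + x2) (y1 + y2) ≤ Q)
    (hL1 : LossZ (dee S) ε χ 1 θ1 B1 (en S (halfx (y1 + y2)) (halfy (x1 + x2))) P1)
    (hL2 : LossZ (dee S) ε χ (1 + χ) θ2 B2 (en S (halfx (y1 + y2)) (halfy (x1 + x2))) P2)
    (hb2 : b' ≤ b1 + b2 + G0 + (1 - θ1) * N - Q / 2 - θ1 * (c1 + c2 - G0) - P1)
    (hb2' : b' ≤ b1 + b2 + G0 + (1 - θ1) * N - Q / 2 - χ * (c1 + c2 - G0) - P1 +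
      (χ - θ1) * B1)
    (hb3 : b' ≤ b1 + b2 + G0 + (1 + 2 * χ - θ2) * N - (1 + χ) * (Q / 2) -
      θ2 * (c1 + c2 - G0) - P2 + χ * c')
    (hb3' : b' ≤ b1 + b2 + G0 + (1 + 2 * χ - θ2) * N - (1 + χ) * (Q / 2) -
      χ * (c1 + c2 - G0) - P2 + χ * c' + (χ - θ2) * B2) :
    MajE S (fun i => (1 - beta S i) * (f1 i * f2 i)) (1 - X * (y1 + y2)) (x1 + x2) χ b' c' := by
  obtain ⟨e1, he1, k1⟩ := h1
  obtain ⟨e2, he2, k2⟩ := h2
  have hχ0 : 0 ≤ χ := hθ10.trans hθ1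
  have hχe1 : 0 ≤ χ * e1 := mul_nonneg hχ0 he1
  have hχe2 : 0 ≤ χ * e2 := mul_nonneg hχ0 he2
  obtain ⟨M1, g1, hM1, hg1, hgc1, hlog1, hf1, hb1'⟩ := k1
  obtain ⟨M2, g2, hM2, hg2, hgc2, hlog2, hf2, hb2'⟩ := k2
  rcases le_total (g1 + g2) G0 with hρ | hρ
  · -- gain
    obtain ⟨L, P, hZ, hbL, hPc⟩ := hgain (g1 + g2) (by linarith) hρ
    obtain ⟨hL, G, hG, hGb, hmG⟩ := hZ.raw hK hM1 hM2 hf1 hf2 hb1' hb2'
    refine ⟨0, le_rfl, M1 * M2 * L, G, by positivity, hG, hGb, ?_, ?_⟩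
    · rw [Real.log_mul (by positivity) hL.ne', Real.log_mul hM1.ne' hM2.ne', mul_zero, add_zero]
      linarith
    · linarith
  · -- loss
    have hD : 0 ≤ dee S := ip_self_nonneg _
    have hen : 0 ≤ en S (x1 + x2) (y1 + y2) := en_nonneg hK.anti _ _
    have hDe : 0 ≤ dee S * en S (x1 + x2) (y1 + y2) := mul_nonneg hD hen
    have hcs : (mo S (x1 + x2)) ^ 2 ≤ dee S * en S (x1 + x2) (y1 + y2) := by
      have h1 := ip_sq_le (beta S) (st S (x1 + x2) (y1 + y2))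
      rw [ip_beta_st S hK.anti, ip_st_self hK.anti] at h1
      exact h1
    -- the data of the two cases `G0 ≥ 0`, `G0 < 0`
    obtain ⟨mm, a, hmm0, hmm4, hmma, ha0, hmmg, hbase, hmG0, hva1, hva2, hva3, hva4⟩ :
        ∃ mm a : ℝ,
        0 ≤ mm ∧ mm ≤ 4 * ε ∧ mm ≤ mo S (x1 + x2) + a ∧ 0 ≤ a ∧ mm ≤ g1 + g2 ∧
        ((1 + ε) * (en S (-(X * (y1 + y2))) (x1 + x2) + a ^ 2) +
          (1 + ε + 1 / (4 * ε)) * dee S * en S (x1 + x2) (y1 + y2)) / 2 ≤ Q / 2 ∧
        G0 ≤ mm ∧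
        G0 + (1 - θ1) * N + θ1 * G0 ≤ mm + θ1 * mm - 2 * a ∧
        G0 + (1 + 2 * χ - θ2) * N + θ2 * G0 ≤ mm + θ2 * mm - (1 + χ) * (2 * a) ∧
        G0 + (1 - θ1) * N + χ * G0 ≤ mm + χ * mm - 2 * a ∧
        G0 + (1 + 2 * χ - θ2) * N + χ * G0 ≤ mm + χ * mm - (1 + χ) * (2 * a) := by
      rcases le_or_gt 0 G0 with h0 | h0
      · have hn1 := mul_nonpos_of_nonneg_of_nonpos (show 0 ≤ 1 - θ1 by linarith) hN0
        have hn2 := mul_nonpos_of_nonneg_of_nonpos (show 0 ≤ 1 + 2 * χ - θ2 by linarith) hN0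
        refine ⟨G0, 0, h0, hR, by linarith, le_rfl, hρ, ?_, le_rfl, ?_, ?_, ?_, ?_⟩ <;>
          linarith
      · obtain ⟨a, ha⟩ : ∃ a : ℝ, a = max 0 (-(mo S (x1 + x2))) := ⟨_, rfl⟩
        have ha0 : 0 ≤ a := by rw [ha]; exact le_max_left _ _
        have ha1 : -(mo S (x1 + x2)) ≤ a := by rw [ha]; exact le_max_right _ _
        have ha2 : a ≤ -G0 := by
          rw [ha]
          exact max_le (by linarith) (by linarith)
        have ha3 : a ^ 2 ≤ dee S * en S (x1 + x2) (y1 + y2) := by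
          rcases le_total 0 (mo S (x1 + x2)) with h1 | h1
          · have : a = 0 := by
              rw [ha]
              exact max_eq_left (by linarith)
            rw [this]
            linarith
          · have : a = -(mo S (x1 + x2)) := by
              rw [ha]
              exact max_eq_right (by linarith)
            rw [this, neg_sq]
            exact hcs
        have h61 := mul_le_mul_of_nonneg_left (show N ≤ -a by linarith)
          (show 0 ≤ 1 - θ1 by linarith)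
        have h62 := mul_le_mul_of_nonneg_left (show N ≤ -a by linarith)
          (show 0 ≤ 1 + 2 * χ - θ2 by linarith)
        have h51 := mul_le_mul_of_nonneg_left (show G0 ≤ -a by linarith)
          (show 0 ≤ 1 + θ1 by linarith)
        have h52 := mul_le_mul_of_nonneg_left (show G0 ≤ -a by linarith)
          (show 0 ≤ 1 + θ2 by linarith)
        have h53 := mul_le_mul_of_nonneg_left (show G0 ≤ -a by linarith)
          (show 0 ≤ 1 + χ by linarith)
        have h71 : 0 ≤ (χ - θ1) * a := mul_nonneg (by linarith) ha0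
        have h72 : 0 ≤ (χ - θ2) * a := mul_nonneg (by linarith) ha0
        refine ⟨0, a, le_rfl, by linarith, by linarith, ha0, by linarith, ?_, h0.le, ?_, ?_, ?_,
          ?_⟩
        · have h3 := hQn h0
          have h4 := mul_le_mul_of_nonneg_left ha3 (show 0 ≤ 1 + ε by linarith)
          linarith
        · linarith
        · linarith
        · linarith
        · linarith
    obtain ⟨r, hr⟩ : ∃ r : ℝ, r = g1 + g2 - mm := ⟨_, rfl⟩
    have hr0 : 0 ≤ r := by linarith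
    obtain ⟨G, hG, hGb, hmC, hmA⟩ := zl_raw hK (x1 := x1) (y1 := y1) (x2 := x2) (y2 := y2)
      M1 M2 g1 g2 ε a mm r hM1 hM2 hf1 hf2 hb1' hb2' hε ha0 hmm0 hmm4 hmma hr0 hr
    have h1r : 0 < (1 + r / 2) ^ 2 := by positivity
    have hrc : r ≤ (c1 + c2 - mm) + (e1 + e2) := by linarith
    have hav1 := avz_le (θ := θ1) (χ := χ) (B := B1) (v := b1 + b2 + mm - 2 * a - Q / 2 - P1 - b')
      hθ10 hθ1 (add_nonneg he1 he2) hrc (by linarith) (by linarith)
    have hav2 := avz_le (θ := θ2) (χ := χ) (B := B2)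
      (v := b1 + b2 + mm - (1 + χ) * (2 * a + Q / 2) - P2 + χ * c' - b')
      hθ20 hθ2 (add_nonneg he1 he2) hrc (by linarith) (by linarith)
    have hval1 : 2 * Real.log (1 + r / 2) + 2 * mn G ≤
        2 * a + Q / 2 + r + avz θ1 χ B1 r + P1 := by
      rcases hL1 r hr0 with ⟨h4, h5⟩ | h5
      · have := hmA h4
        linarith
      · linarith
    have hval2 : 2 * Real.log (1 + r / 2) + (1 + χ) * (2 * mn G) ≤
        (1 + χ) * (2 * a + Q / 2) + r + avz θ2 χ B2 r + P2 := by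
      rcases hL2 r hr0 with ⟨h4, h5⟩ | h5
      · have h6 := mul_le_mul_of_nonneg_left (hmA h4) (show 0 ≤ 1 + χ by linarith)
        have h7 := mul_le_mul_of_nonneg_left hbase (show 0 ≤ 1 + χ by linarith)
        linarith
      · have h6 := mul_le_mul_of_nonneg_left hmC (show 0 ≤ 1 + χ by linarith)
        have h7 := mul_le_mul_of_nonneg_left hbase (show 0 ≤ 1 + χ by linarith)
        linarith
    refine ⟨max (2 * mn G - c') 0, le_max_right _ _, M1 * M2 * (1 + r / 2) ^ 2, G,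
      by positivity, hG, hGb, ?_, ?_⟩
    · rw [Real.log_mul (by positivity) h1r.ne', Real.log_mul hM1.ne' hM2.ne', Real.log_pow]
      push_cast
      rcases le_total (2 * mn G - c') 0 with h3 | h3
      · rw [max_eq_right h3, mul_zero, add_zero]
        linarith
      · rw [max_eq_left h3]
        linarith
    · have := le_max_left (2 * mn G - c') 0
      linarith

end Msg

/-! ### conditions for the loss side -/

/-- the condition on the loss side for every energy `δ ≤ D + E` -/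
def ZLo (D ε χ k θ B K2 : ℝ) : Prop :=
  ∀ δ E, 0 ≤ δ → 0 ≤ E → δ ≤ D + E → LossZ D ε χ k θ B δ (K2 * E)

theorem avz_ge {θ χ B r : ℝ} (hθχ : θ ≤ χ) : θ * r ≤ avz θ χ B r := by
  unfold avz
  rcases le_total r B with h | h
  · rw [min_eq_left h, max_eq_right (by linarith), mul_zero, add_zero]
  · rw [min_eq_right h, max_eq_left (by linarith)]
    have := mul_nonneg (sub_nonneg.2 hθχ) (sub_nonneg.2 h)
    linarith

/-- the constants of the loss side of a stem suffice -/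
theorem LossC.zlo {D D1 σ0 θ k K : ℝ} (h : LossC D1 σ0 θ k K) (hD : D ≤ D1) {χ : ℝ}
    (hθχ : θ ≤ χ) (ε B : ℝ) : ZLo D ε χ k θ B (2 * K) := by
  intro δ E hδ hE hδE r hr
  right
  have h1 := h.ineq hδ hE (by linarith) (r / 2) (by linarith)
  have h2 := avz_ge (B := B) (r := r) hθχ
  have e1 : k * (r / (1 + r / 2) * Real.sqrt δ) =
      2 * (k * (r / 2 / (1 + r / 2)) * Real.sqrt δ) := by
    have : (1 + r / 2) ≠ 0 := by positivity
    field_simp
  rw [e1]
  linarith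

/-- the polynomial of the logarithmic series -/
noncomputable def pser (p : ℝ) : ℝ := p ^ 2 / 2 + p ^ 3 / 6 + p ^ 4 / 12 + p ^ 5 / 20

/-- the constants of the loss side with both bounds: rule A for `p ≤ p0`, rule C for `p ≥ p0`;
`p = (r/2)/(1 + r/2)`, `B` bounds pending cost minus gain -/
structure LossAC (D ε χ k θ B p0 σ0 K : ℝ) : Prop where
  hk : 0 ≤ k
  hK : 0 < K
  hσ0 : 0 ≤ σ0
  hp0 : 0 ≤ p0
  hpo : p0 ≤ 1 / 3
  hB : B * (1 - p0) ≤ 2 * p0
  hA : ∀ p, 0 ≤ p → p ≤ p0 →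
    (k * (p ^ 2 * ((1 + D) * (1 - p) + max (ε * (1 - p)) (2 * p))) ≤ θ * p + pser p) ∨
    (B * (1 - p) ≤ 2 * p ∧
      k * (p ^ 2 * ((1 + D) * (1 - p) + max (ε * (1 - p)) (2 * p))) +
        (χ - θ) * (B / 2) * (1 - p) ≤ χ * p + pser p)
  hC1 : ∀ p, p0 ≤ p → p ≤ 1 →
    (k * p * σ0 + (χ - θ) * (B / 2)) * (1 - p) ≤ χ * p + pser p
  hC2 : ∀ p, p0 ≤ p → p ≤ 1 → 2 * K * σ0 ≤ k * p →
    (k ^ 2 * p ^ 2 + 4 * K ^ 2 * σ0 ^ 2 + 4 * K * ((χ - θ) * (B / 2))) * (1 - p) ≤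
      4 * K * (χ * p + pser p)

theorem LossAC.gen {D ε χ k θ B p0 σ0 K rm : ℝ} (h : LossAC D ε χ k θ B p0 σ0 K)
    (hθχ : θ ≤ χ) (hD : D ≤ σ0 ^ 2) (hrm0 : 0 ≤ rm) (hrm : 2 * p0 ≤ rm * (1 - p0))
    {δ E : ℝ} (hδ : 0 ≤ δ) (hE : 0 ≤ E) (hδE : δ ≤ D + E) (r : ℝ) (hr : 0 ≤ r) :
    (r ≤ rm ∧ 2 * Real.log (1 + r / 2) +
      k * ((1 + max ε r + D) * r ^ 2 / (2 * (1 + r / 2) ^ 2)) ≤ r + avz θ χ B r) ∨
    2 * Real.log (1 + r / 2) + k * (r / (1 + r / 2) * Real.sqrt δ) ≤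
      r + avz θ χ B r + 2 * K * E := by
  have hk := h.hk
  have hKp := h.hK
  have hσ0 := h.hσ0
  have h1 : 0 < 1 + r / 2 := by linarith
  obtain ⟨p, hp⟩ : ∃ p : ℝ, p = r / 2 / (1 + r / 2) := ⟨_, rfl⟩
  have hp0 : 0 ≤ p := by rw [hp]; positivity
  have hp1 : p < 1 := by rw [hp, div_lt_one h1]; linarith
  have hlog := log_r (r / 2) (by linarith)
  rw [← hp] at hlog
  have hlog' : (1 + r / 2) * pser p ≤ r / 2 - Real.log (1 + r / 2) := hlog
  have hrp : r / 2 = (1 + r / 2) * p := by rw [hp]; field_simp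
  have h1p : (1 + r / 2) * (1 - p) = 1 := by rw [hp]; field_simp; ring
  have h1p0 : 0 < 1 - p := by linarith
  have hq : r / (1 + r / 2) = 2 * p := by rw [hp]; field_simp
  have hB2 : B * (1 - p) ≤ 2 * p → B ≤ r := by
    intro h2
    have h3 := mul_le_mul_of_nonneg_left h2 h1.le
    have e1 : (1 + r / 2) * (B * (1 - p)) = B := by
      calc (1 + r / 2) * (B * (1 - p)) = B * ((1 + r / 2) * (1 - p)) := by ring
        _ = B := by rw [h1p, mul_one]
    have e2 : (1 + r / 2) * (2 * p) = r := by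
      have : (1 + r / 2) * (2 * p) = 2 * ((1 + r / 2) * p) := by ring
      rw [this, ← hrp]; ring
    rw [e1, e2] at h3
    exact h3
  have hav : B ≤ r → avz θ χ B r = χ * r - (χ - θ) * B := by
    intro h2
    unfold avz
    rw [min_eq_right h2, max_eq_left (by linarith)]
    ring
  rcases le_total p p0 with hpp | hpp
  · left
    have hp0' := h.hpo
    have hr0 : r * (1 - p) = 2 * p := by
      have : r * (1 - p) = 2 * ((r / 2) * (1 - p)) := by ring
      rw [this]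
      have e2 : r / 2 * (1 - p) = p := by
        calc r / 2 * (1 - p) = ((1 + r / 2) * p) * (1 - p) := by rw [← hrp]
          _ = p * ((1 + r / 2) * (1 - p)) := by ring
          _ = p := by rw [h1p, mul_one]
      rw [e2]
    have hr1 : r ≤ rm := by
      have h3 : r * (1 - p) ≤ rm * (1 - p) := by
        rw [hr0]
        have := mul_le_mul_of_nonneg_left (show 1 - p0 ≤ 1 - p by linarith) hrm0
        linarith
      exact le_of_mul_le_mul_right h3 h1p0
    refine ⟨hr1, ?_⟩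
    obtain ⟨T, hT⟩ : ∃ T : ℝ, T = p ^ 2 * ((1 + D) * (1 - p) + max (ε * (1 - p)) (2 * p)) :=
      ⟨_, rfl⟩
    have e3 : (1 + max ε r + D) * r ^ 2 / (2 * (1 + r / 2) ^ 2) = 2 * ((1 + r / 2) * T) := by
      have e4 : (1 + max ε r + D) * r ^ 2 / (2 * (1 + r / 2) ^ 2) =
          (1 + max ε r + D) * (r / (1 + r / 2)) ^ 2 / 2 := by
        field_simp
      have e5 : max (ε * (1 - p)) (2 * p) = max ε r * (1 - p) := by
        rw [max_mul_of_nonneg _ _ h1p0.le, hr0]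
      rw [e4, hq, hT, e5]
      calc (1 + max ε r + D) * (2 * p) ^ 2 / 2 = 2 * ((1 + max ε r + D) * p ^ 2) := by ring
        _ = 2 * ((1 + max ε r + D) * p ^ 2 * ((1 + r / 2) * (1 - p))) := by rw [h1p, mul_one]
        _ = _ := by ring
    have hA := h.hA p hp0 hpp
    rw [← hT] at hA
    rw [e3]
    rcases hA with h2 | ⟨h2, h3⟩
    · have h4 := mul_le_mul_of_nonneg_left h2 h1.le
      have h5 := avz_ge (B := B) (r := r) hθχ
      have e5 : (1 + r / 2) * (θ * p + pser p) = θ * (r / 2) + (1 + r / 2) * pser p := by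
        calc (1 + r / 2) * (θ * p + pser p) = θ * ((1 + r / 2) * p) + (1 + r / 2) * pser p := by
              ring
          _ = _ := by rw [← hrp]
      rw [e5] at h4
      have e6 : k * (2 * ((1 + r / 2) * T)) = 2 * ((1 + r / 2) * (k * T)) := by ring
      rw [e6]
      linarith
    · rw [hav (hB2 h2)]
      have h4 := mul_le_mul_of_nonneg_left h3 h1.le
      have e5 : (1 + r / 2) * (χ * p + pser p) = χ * (r / 2) + (1 + r / 2) * pser p := by
        calc (1 + r / 2) * (χ * p + pser p) = χ * ((1 + r / 2) * p) + (1 + r / 2) * pser p := by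
              ring
          _ = _ := by rw [← hrp]
      have e7 : (1 + r / 2) * (k * T + (χ - θ) * (B / 2) * (1 - p)) =
          (1 + r / 2) * (k * T) + (χ - θ) * (B / 2) := by
        calc (1 + r / 2) * (k * T + (χ - θ) * (B / 2) * (1 - p)) =
          (1 + r / 2) * (k * T) + (χ - θ) * (B / 2) * ((1 + r / 2) * (1 - p)) := by ring
          _ = _ := by rw [h1p, mul_one]
      rw [e5, e7] at h4
      have e6 : k * (2 * ((1 + r / 2) * T)) = 2 * ((1 + r / 2) * (k * T)) := by ring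
      rw [e6]
      linarith
  · right
    have hBr : B ≤ r := by
      apply hB2
      have h2 := h.hB
      rcases le_total 0 B with hB0 | hB0
      · have := mul_le_mul_of_nonneg_left (show 1 - p ≤ 1 - p0 by linarith) hB0
        linarith
      · have := mul_nonpos_of_nonpos_of_nonneg hB0 h1p0.le
        linarith
    rw [hav hBr, hq]
    obtain ⟨σ, hσ⟩ : ∃ σ : ℝ, σ = Real.sqrt δ := ⟨_, rfl⟩
    have hσn : 0 ≤ σ := by rw [hσ]; exact Real.sqrt_nonneg _
    have hσ2 : σ ^ 2 = δ := by rw [hσ]; exact Real.sq_sqrt hδ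
    rw [← hσ]
    have hKE : 0 ≤ K * E := by positivity
    have e5 : (1 + r / 2) * (χ * p + pser p) = χ * (r / 2) + (1 + r / 2) * pser p := by
      calc (1 + r / 2) * (χ * p + pser p) = χ * ((1 + r / 2) * p) + (1 + r / 2) * pser p := by
            ring
        _ = _ := by rw [← hrp]
    -- the case where `σ0` suffices
    have hone : k * p * σ ≤ k * p * σ0 + K * E →
        2 * Real.log (1 + r / 2) + k * (2 * p * σ) ≤ r + (χ * r - (χ - θ) * B) + 2 * K * E := by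
      intro h3
      have h4 := mul_le_mul_of_nonneg_left (h.hC1 p hpp hp1.le) h1.le
      have e6 : (1 + r / 2) * ((k * p * σ0 + (χ - θ) * (B / 2)) * (1 - p)) =
          k * p * σ0 + (χ - θ) * (B / 2) := by
        calc (1 + r / 2) * ((k * p * σ0 + (χ - θ) * (B / 2)) * (1 - p)) =
            (k * p * σ0 + (χ - θ) * (B / 2)) * ((1 + r / 2) * (1 - p)) := by ring
          _ = _ := by rw [h1p, mul_one]
      rw [e6, e5] at h4
      linarith
    rcases le_total σ σ0 with h2 | h2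
    · apply hone
      have := mul_le_mul_of_nonneg_left h2 (mul_nonneg hk hp0)
      linarith
    · have hEσ : σ ^ 2 - σ0 ^ 2 ≤ E := by linarith
      have h3 : K * (σ ^ 2 - σ0 ^ 2) ≤ K * E := mul_le_mul_of_nonneg_left hEσ hKp.le
      rcases le_total (k * p) (2 * K * σ0) with h4 | h4
      · apply hone
        have h6 : k * p - K * (σ + σ0) ≤ 0 := by nlinarith
        nlinarith [mul_nonneg (sub_nonneg.2 h2) (neg_nonneg.2 h6)]
      · have h5 : 4 * K * (k * p * σ - K * (σ ^ 2 - σ0 ^ 2)) ≤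
            k ^ 2 * p ^ 2 + 4 * K ^ 2 * σ0 ^ 2 := by
          nlinarith [sq_nonneg (k * p - 2 * K * σ)]
        have h6 := mul_le_mul_of_nonneg_left (h.hC2 p hpp hp1.le h4) h1.le
        have e6 : (1 + r / 2) * ((k ^ 2 * p ^ 2 + 4 * K ^ 2 * σ0 ^ 2 +
            4 * K * ((χ - θ) * (B / 2))) * (1 - p)) =
            k ^ 2 * p ^ 2 + 4 * K ^ 2 * σ0 ^ 2 + 4 * K * ((χ - θ) * (B / 2)) := by
          calc (1 + r / 2) * ((k ^ 2 * p ^ 2 + 4 * K ^ 2 * σ0 ^ 2 +
              4 * K * ((χ - θ) * (B / 2))) * (1 - p)) =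
              (k ^ 2 * p ^ 2 + 4 * K ^ 2 * σ0 ^ 2 + 4 * K * ((χ - θ) * (B / 2))) *
                ((1 + r / 2) * (1 - p)) := by ring
            _ = _ := by rw [h1p, mul_one]
        have e7 : (1 + r / 2) * (4 * K * (χ * p + pser p)) =
            4 * K * ((1 + r / 2) * (χ * p + pser p)) := by ring
        rw [e6, e7, e5] at h6
        have h8 : 4 * K * (k * p * σ - K * (σ ^ 2 - σ0 ^ 2) + (χ - θ) * (B / 2)) ≤
            4 * K * (χ * (r / 2) + (1 + r / 2) * pser p) := by linarith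
        have h9 := le_of_mul_le_mul_left h8 (by positivity)
        linarith

theorem LossAC.zlo {D ε χ k θ B p0 σ0 K : ℝ} (h : LossAC D ε χ k θ B p0 σ0 K)
    (hθχ : θ ≤ χ) (hD : D ≤ σ0 ^ 2) : ZLo D ε χ k θ B (2 * K) := by
  intro δ E hδ hE hδE r hr
  exact h.gen hθχ hD zero_le_one (by linarith [h.hpo]) hδ hE hδE r hr

/-! ### the tree level -/

lemma goodE_two (χ : ℝ → ℝ) : GoodE χ TSM.two (fun _ _ => 0) (fun _ _ => 0) := Good.two.toE χ

/-- the gain side: rule (Z*) or rule (Z); `g` the gain with the cap `r D` -/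
def ZpG (D r : ℝ) (x U g V V' c' : ℝ → ℝ) : Prop :=
  (∃ CA CE ψ : ℝ, ∃ q : ℝ → ℝ, r * D ≤ 1 / 3 ∧
    7 / 10 ≤ CA * (1 - 9 / 10 * (r * D) + 73 / 200 * (r * D) ^ 2) ∧ 81 / 80 ≤ CE ∧
    ((ILe D (fun a => x a ^ 2 + a * U a ^ 2) (fun _ => ψ) ∧ ψ * D ≤ 13) ∨
      9 / 10 * r ≤ (CE - 81 / 80) * 13) ∧
    ILe D (fun a => CA * (a ^ 2 * U a ^ 2 + a * x a ^ 2) +
      CE * D * (x a ^ 2 + a * U a ^ 2)) q ∧
    ILe D V' (fun a => V a + 9 / 10 * g a - q a) ∧ ILe D q c') ∨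
  (∃ ε η I : ℝ, ∃ q : ℝ → ℝ, ZpcC D ε r η ∧ 1 ≤ I * (2 * (1 - r * D)) ∧
    ILe D (fun a => (1 + ε) * (a ^ 2 * U a ^ 2 + a * x a ^ 2) +
      (1 + ε + 1 / (4 * ε)) * D * (x a ^ 2 + a * U a ^ 2)) q ∧
    ILe D V' (fun a => V a + η * g a - I * q a) ∧
    ILe D (fun a => I * q a + (2 + ε) * (r * D) * I * g a) c')

/-- the loss side; `n` the negative part of the gain, `Ex` the excess of the energy -/
def ZpL (χ D r : ℝ) (x U g V c V' c' : ℝ → ℝ) : Prop :=
  ∃ ε β1 β2 θ1 θ2 K1 K2 κ : ℝ, ∃ n Ex q : ℝ → ℝ, 1 / 4 ≤ ε ∧ r * D ≤ 4 * ε ∧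
    0 ≤ θ1 ∧ θ1 ≤ 1 ∧ θ1 ≤ χ ∧ 0 ≤ θ2 ∧ θ2 ≤ χ ∧ 0 ≤ K1 ∧ 0 ≤ K2 ∧
    ZLo D ε χ 1 θ1 (β1 * D) K1 ∧ ZLo D ε χ (1 + χ) θ2 (β2 * D) K2 ∧
    ILe D n (fun _ => 0) ∧ ILe D n g ∧
    (1 ≤ κ ∨ (0 ≤ κ ∧ ILe D (fun _ => 0) g)) ∧
    ILe D (fun _ => 0) Ex ∧
    ILe D (fun a => (1 - a * U a / 2) ^ 2 + a * x a ^ 2 / 4) (fun a => 1 + Ex a) ∧
    ILe D (fun a => (1 + ε) * (a ^ 2 * U a ^ 2 + a * x a ^ 2) +
      (1 + ε + 1 / (4 * ε) + κ * (1 + ε)) * D * (x a ^ 2 + a * U a ^ 2)) q ∧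
    ILe D V' (fun a => V a + g a + (1 - θ1) * n a - 1 / 2 * q a - θ1 * (c a - g a) -
      K1 * Ex a) ∧
    ILe D V' (fun a => V a + g a + (1 - θ1) * n a - 1 / 2 * q a - χ * (c a - g a) -
      K1 * Ex a + (χ - θ1) * β1) ∧
    ILe D V' (fun a => V a + g a + (1 + 2 * χ - θ2) * n a - (1 + χ) / 2 * q a -
      θ2 * (c a - g a) - K2 * Ex a + χ * c' a) ∧
    ILe D V' (fun a => V a + g a + (1 + 2 * χ - θ2) * n a - (1 + χ) / 2 * q a -
      χ * (c a - g a) - K2 * Ex a + χ * c' a + (χ - θ2) * β2)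

/-- the line with `χ` follows from the line with `θ` if `c - g ≤ β` -/
lemma zline {D χ θ β : ℝ} {V' A c g : ℝ → ℝ} (hθ : θ ≤ χ)
    (hβ : ILe D (fun a => c a - g a) (fun _ => β))
    (h : ILe D V' (fun a => A a - θ * (c a - g a))) :
    ILe D V' (fun a => A a - χ * (c a - g a) + (χ - θ) * β) := by
  intro m S hS w t hR hD
  have h1 := h m S hS w t hR hD
  have h2 := hβ m S hS w t hR hD
  rw [nu_sub, nu_mul] at h1
  rw [nu_add, nu_sub, nu_mul, hR.nu_const]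
  rw [hR.nu_const] at h2
  have h3 := mul_le_mul_of_nonneg_left h2 (sub_nonneg.2 hθ)
  linarith

/-- leaf and two branches behind positive edges, excess form; `x` the total gain, `U` the sum of
the other components, `V`, `c` the sums -/
def ZpE2 (χ : ℝ → ℝ) (D : ℝ) (x U V c V' c' : ℝ → ℝ) : Prop :=
  ∃ r : ℝ, ∃ g : ℝ → ℝ, 0 ≤ r ∧ ILe D g x ∧ ILe D g (fun _ => r) ∧
    ZpG D r x U g V V' c' ∧ ZpL (χ D) D r x U g V c V' c'

theorem GoodE.zpc {χ : ℝ → ℝ} {O1 O2 : OBr} {V1 c1 V2 c2 V' c' : ℝ → ℝ → ℝ}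
    (h1 : GoodE χ O1 V1 c1) (h2 : GoodE χ O2 V2 c2) (e1 e2 e3 : Bool) (x U : ℝ → ℝ)
    (hx : ∀ a, sg e2 * (XX O1).eval a + sg e3 * (XX O2).eval a = x a)
    (hU : ∀ a, (YY O1).eval a + (YY O2).eval a = U a)
    (H : ∀ D, RD D → ZpE2 χ D x U (fun a => V1 D a + V2 D a) (fun a => c1 D a + c2 D a)
      (V' D) (c' D)) :
    GoodE χ (.mk [cn false e1 .nil, cn true e2 O1, cn true e3 O2]) V' c' := by
  intro m S hS w t hR
  have hRD : RD (dee S) := ⟨hR.dee_nonneg, hR.dee_le⟩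
  have hD := hR.dee_nonneg
  obtain ⟨r, g, hr0, hg, hgr, hG, hL⟩ := H _ hRD
  have ex : XX (.mk [cn false e1 .nil, cn true e2 O1, cn true e3 O2]) =
      1 - X * (YY O1 + YY O2) := by
    rw [XX_mk]
    simp only [List.map_cons, List.map_nil, List.sum_cons, List.sum_nil, add_zero, cn_fst, cn_YY,
      YY_nil, sg_true, sg_false, mul_zero, sub_zero, one_smul, neg_smul]
    ring
  have ey : YY (.mk [cn false e1 .nil, cn true e2 O1, cn true e3 O2]) =
      sg e2 • XX O1 + sg e3 • XX O2 := by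
    rw [YY_mk]
    simp only [List.map_cons, List.map_nil, List.sum_cons, List.sum_nil, add_zero, cn_fst, cn_XX,
      XX_nil, smul_zero, zero_add]
  have ev : (OBr.mk [cn false e1 .nil, cn true e2 O1, cn true e3 O2]).vS S =
      fun z => (1 - beta S z) * (ms S (cn true e2 O1) z * ms S (cn true e3 O2) z) := by
    funext z
    rw [vS_mk_ms]
    simp only [List.map_cons, List.map_nil, List.prod_cons, List.prod_nil, mul_one]
    have m1 : ms S (cn false e1 .nil) z = 1 - beta S z := by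
      rw [ms_eq_msg, cn_fst, sg_false]
      have e4 : (cn false e1 .nil).2.vS S = fun _ => 1 := by
        unfold cn
        dsimp only
        split_ifs <;> rfl
      rw [e4, msg_one hS]
      ring
    rw [m1]
  rw [ex, ey, ev]
  -- the messages
  have hM : ∀ (O : OBr) (V c : ℝ → ℝ → ℝ) (e : Bool), GoodE χ O V c →
      MMajE S (ms S (cn true e O)) (1 - X * YY O) (sg e • XX O) (mo S (sg e • XX O))
        (χ (dee S)) (nu w t (V (dee S))) (nu w t (c (dee S))) := by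
    intro O V c e h
    have h3 := h.msg true e hS hR
    rw [sg_true, one_smul] at h3
    have h4 : (nu w t fun a => sg e * (XX O).eval a) = mo S (sg e • XX O) := by
      rw [hR.mo_nu]
      congr 1
      funext a
      rw [eval_smul, smul_eq_mul]
    rw [h4] at h3
    exact h3
  have hM1 := hM O1 V1 c1 e2 h1
  have hM2 := hM O2 V2 c2 e3 h2
  -- the integrals
  have hxe : ∀ a, (sg e2 • XX O1 + sg e3 • XX O2).eval a = x a := by
    intro a
    rw [eval_add, eval_smul, eval_smul, smul_eq_mul, smul_eq_mul, hx]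
  have hUe : ∀ a, (YY O1 + YY O2).eval a = U a := by
    intro a
    rw [eval_add, hU]
  have hmo : mo S (sg e2 • XX O1 + sg e3 • XX O2) = nu w t x := by
    rw [hR.mo_nu]
    congr 1
    funext a
    rw [hxe]
  have hE0 : en S (-(X * (YY O1 + YY O2))) (sg e2 • XX O1 + sg e3 • XX O2) =
      nu w t fun a => a ^ 2 * U a ^ 2 + a * x a ^ 2 := by
    rw [hR.en_nu]
    congr 1
    funext a
    rw [hxe, eval_neg, eval_mul, eval_X, hUe]
    ring
  have hE1 : en S (sg e2 • XX O1 + sg e3 • XX O2) (YY O1 + YY O2) =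
      nu w t fun a => x a ^ 2 + a * U a ^ 2 := by
    rw [hR.en_nu]
    congr 1
    funext a
    rw [hxe, hUe]
  have hEh : en S (halfx (YY O1 + YY O2)) (halfy (sg e2 • XX O1 + sg e3 • XX O2)) =
      nu w t fun a => (1 - a * U a / 2) ^ 2 + a * x a ^ 2 / 4 := by
    rw [hR.en_nu]
    congr 1
    funext a
    unfold halfx halfy
    rw [eval_add, eval_one, eval_smul, eval_neg, eval_mul, eval_X, hUe, eval_smul, hxe]
    simp only [smul_eq_mul]
    ring
  obtain ⟨x', hx'⟩ : ∃ p : ℝ[X], p = sg e2 • XX O1 + sg e3 • XX O2 := ⟨_, rfl⟩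
  obtain ⟨U', hU'⟩ : ∃ p : ℝ[X], p = YY O1 + YY O2 := ⟨_, rfl⟩
  have hgx : nu w t g ≤ mo S (sg e2 • XX O1 + sg e3 • XX O2) := by
    rw [hmo]
    exact hg m S hS w t hR rfl
  have hgr' : nu w t g ≤ r * dee S := by
    have := hgr m S hS w t hR rfl
    rwa [hR.nu_const] at this
  have hrD : 0 ≤ r * dee S := mul_nonneg hr0 hD
  -- the gain side
  have hgain : ∀ g', 0 ≤ g' → g' ≤ nu w t g → ∃ L P,
      ZRule S (sg e2 • XX O1 + sg e3 • XX O2) (YY O1 + YY O2) g' L P ∧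
      nu w t (V' (dee S)) + Real.log L + P ≤
        nu w t (V1 (dee S)) + nu w t (V2 (dee S)) + g' ∧ P ≤ nu w t (c' (dee S)) := by
    rcases hG with ⟨CA, CE, ψ, q, hr3, hCA, hCE, hcap, hq, hb1, hc1⟩ |
      ⟨ε, η, I, q, hK, hI, hq, hb1, hc1⟩
    · refine star_gain hS CA CE (r * dee S) (nu w t g) (nu w t q) _ _ _ hgx hgr' hr3 hrD hCA
        hCE ?_ ?_ ?_ ?_
      · rcases hcap with ⟨h3, h4⟩ | h3
        · left
          have h5 := h3 m S hS w t hR rfl
          rw [hR.nu_const] at h5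
          rw [hE1]
          linarith
        · right
          have := mul_le_mul_of_nonneg_right h3 hD
          linarith
      · have h3 := hq m S hS w t hR rfl
        rw [nu_add, nu_mul, nu_mul] at h3
        rw [hE0, hE1]
        linarith
      · have h3 := hb1 m S hS w t hR rfl
        rw [nu_sub, nu_add, nu_add, nu_mul] at h3
        exact h3
      · exact hc1 m S hS w t hR rfl
    · have h1P : 0 < 1 - r * dee S := by linarith [hK.hr]
      have hI1 : 1 / (2 * (1 - r * dee S)) ≤ I := by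
        rw [div_le_iff₀ (by positivity)]
        exact hI
      have hQ : (1 + ε) * en S (-(X * (YY O1 + YY O2))) (sg e2 • XX O1 + sg e3 • XX O2) +
          (1 + ε + 1 / (4 * ε)) * dee S *
            en S (sg e2 • XX O1 + sg e3 • XX O2) (YY O1 + YY O2) ≤ nu w t q := by
        have h3 := hq m S hS w t hR rfl
        rw [nu_add, nu_mul, nu_mul] at h3
        rw [hE0, hE1]
        exact h3
      have hQ0 : 0 ≤ nu w t q := by
        refine le_trans ?_ hQ
        have h1 := en_nonneg (S := S) hS.anti (-(X * (YY O1 + YY O2)))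
          (sg e2 • XX O1 + sg e3 • XX O2)
        have h2 := en_nonneg (S := S) hS.anti (sg e2 • XX O1 + sg e3 • XX O2) (YY O1 + YY O2)
        have h3 := hK.hε
        positivity
      have hdiv : nu w t q / (2 * (1 - r * dee S)) ≤ I * nu w t q := by
        rw [div_eq_mul_one_div, mul_comm]
        exact mul_le_mul_of_nonneg_right hI1 hQ0
      refine old_gain hS ε η (r * dee S) (nu w t g) (nu w t q) _ _ _ hK.hε hgx hgr' hK.hr
        hK.hrε hK.hη1 (fun ρ h0 h1 => zpc_h ρ _ _ _ hK.hr h1 h0 hK.hε.le hK.hη) hQ ?_ ?_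
      · have h3 := hb1 m S hS w t hR rfl
        rw [nu_sub, nu_add, nu_add, nu_mul, nu_mul] at h3
        linarith
      · intro h4
        have h3 := hc1 m S hS w t hR rfl
        rw [nu_add, nu_mul, nu_mul] at h3
        have h5 : (2 + ε) * (r * dee S) / (2 * (1 - r * dee S)) * nu w t g ≤
            (2 + ε) * (r * dee S) * I * nu w t g := by
          apply mul_le_mul_of_nonneg_right _ h4
          rw [div_eq_mul_one_div]
          exact mul_le_mul_of_nonneg_left hI1 (mul_nonneg (by linarith [hK.hε]) hrD)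
        linarith
  -- the loss side
  obtain ⟨ε, β1, β2, θ1, θ2, K1, K2, κ, n, Ex, q, hε, hrε, hθ10, hθ11, hθ1, hθ20, hθ2, hK1,
    hK2, hL1, hL2, hn0, hng, hκ, hEx0, hEx, hq, hb2, hb2', hb3, hb3'⟩ := hL
  have hEx0' : 0 ≤ nu w t Ex := by
    have := hEx0 m S hS w t hR rfl
    rwa [nu_zero] at this
  have hen0 : 0 ≤ en S (halfx (YY O1 + YY O2)) (halfy (sg e2 • XX O1 + sg e3 • XX O2)) :=
    en_nonneg hS.anti _ _
  have hδ : en S (halfx (YY O1 + YY O2)) (halfy (sg e2 • XX O1 + sg e3 • XX O2)) ≤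
      dee S + nu w t Ex := by
    rw [hEh]
    have h3 := hEx m S hS w t hR rfl
    have h4 : (nu w t fun a => 1 + Ex a) = dee S + nu w t Ex := by
      rw [nu_add, hR.nu_const, one_mul]
    rwa [h4] at h3
  have hq' : (1 + ε) * en S (-(X * (YY O1 + YY O2))) (sg e2 • XX O1 + sg e3 • XX O2) +
      (1 + ε + 1 / (4 * ε) + κ * (1 + ε)) * dee S *
        en S (sg e2 • XX O1 + sg e3 • XX O2) (YY O1 + YY O2) ≤ nu w t q := by
    have h3 := hq m S hS w t hR rfl
    rw [nu_add, nu_mul, nu_mul] at h3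
    rw [hE0, hE1]
    exact h3
  have hDe : 0 ≤ dee S * en S (sg e2 • XX O1 + sg e3 • XX O2) (YY O1 + YY O2) :=
    mul_nonneg hD (en_nonneg hS.anti _ _)
  refine hM1.zpc hS hM2 (nu w t g) hgx hgain ε (β1 * dee S) (β2 * dee S) θ1 θ2 (nu w t n)
    (nu w t q) (K1 * nu w t Ex) (K2 * nu w t Ex) hε (by linarith) ?_ ?_ hθ10 hθ11 hθ1 hθ20
    hθ2 (mul_nonneg hK1 hEx0') (mul_nonneg hK2 hEx0') ?_ ?_
    (hL1 _ _ hen0 hEx0' hδ) (hL2 _ _ hen0 hEx0' hδ) ?_ ?_ ?_ ?_
  · have h3 := hn0 m S hS w t hR rfl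
    rwa [nu_zero] at h3
  · exact hng m S hS w t hR rfl
  · refine le_trans ?_ hq'
    have hκ0 : 0 ≤ κ := by
      rcases hκ with h | h
      · linarith
      · exact h.1
    have h3 : 0 ≤ κ * (1 + ε) * (dee S * en S (sg e2 • XX O1 + sg e3 • XX O2)
        (YY O1 + YY O2)) := mul_nonneg (mul_nonneg hκ0 (by linarith)) hDe
    linarith
  · intro hneg
    refine le_trans ?_ hq'
    rcases hκ with h | h
    · have h3 : 0 ≤ (κ - 1) * (1 + ε) * (dee S * en S (sg e2 • XX O1 + sg e3 • XX O2)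
          (YY O1 + YY O2)) := mul_nonneg (mul_nonneg (by linarith) (by linarith)) hDe
      linarith
    · exfalso
      have h3 := h.2 m S hS w t hR rfl
      rw [nu_zero] at h3
      linarith
  · have h3 := hb2 m S hS w t hR rfl
    rw [nu_sub, nu_sub, nu_sub, nu_add, nu_add, nu_add, nu_mul, nu_mul, nu_mul, nu_mul,
      nu_sub, nu_add] at h3
    linarith
  · have h3 := hb2' m S hS w t hR rfl
    rw [nu_add, nu_sub, nu_sub, nu_sub, nu_add, nu_add, nu_add, nu_mul, nu_mul, nu_mul, nu_mul,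
      nu_sub, nu_add, hR.nu_const] at h3
    linarith
  · have h3 := hb3 m S hS w t hR rfl
    rw [nu_add, nu_sub, nu_sub, nu_sub, nu_add, nu_add, nu_add, nu_mul, nu_mul, nu_mul, nu_mul,
      nu_mul, nu_sub, nu_add] at h3
    linarith
  · have h3 := hb3' m S hS w t hR rfl
    rw [nu_add, nu_add, nu_sub, nu_sub, nu_sub, nu_add, nu_add, nu_add, nu_mul, nu_mul, nu_mul,
      nu_mul, nu_mul, nu_sub, nu_add, hR.nu_const] at h3
    linarith

/-- (leaf, path, child), excess form; `x` the total gain, `y` of the child -/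
def ZpE (χ : ℝ → ℝ) (D : ℝ) (x y V c V' c' : ℝ → ℝ) : Prop := ZpE2 χ D x y V c V' c'

theorem GoodE.zp {χ : ℝ → ℝ} {O : OBr} {V c V' c' : ℝ → ℝ → ℝ} (h : GoodE χ O V c)
    (e1 e2 e3 : Bool) (x y : ℝ → ℝ) (hx : ∀ a, sg e2 + sg e3 * (XX O).eval a = x a)
    (hy : ∀ a, (YY O).eval a = y a)
    (H : ∀ D, RD D → ZpE χ D x y (V D) (c D) (V' D) (c' D)) :
    GoodE χ (.mk [cn false e1 .nil, cn true e2 TSM.two, cn true e3 O]) V' c' := by
  have hYtwo : YY TSM.two = 0 := by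
    unfold TSM.two
    rw [YY_cons, XX_nil, YY_nil]
    simp
  have hXtwo : XX TSM.two = 1 := by
    unfold TSM.two
    rw [XX_cons, XX_nil, YY_nil, sg_true]
    simp
  refine (goodE_two χ).zpc h e1 e2 e3 x y (fun a => ?_) (fun a => ?_) (fun D hD => ?_)
  · rw [hXtwo, eval_one, mul_one, hx]
  · rw [hYtwo, eval_zero, zero_add, hy]
  · have h1 := H D hD
    unfold ZpE at h1
    have e4 : (fun a => (fun _ _ => (0 : ℝ)) D a + V D a) = V D := by
      funext a; simp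
    have e5 : (fun a => (fun _ _ => (0 : ℝ)) D a + c D a) = c D := by
      funext a; simp
    rw [e4, e5]
    exact h1

end Pool.Agent.TSM
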