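import Pool.Agent.TSM.LeftTree
import Pool.Agent.TSM.ZpcE

set_option autoImplicit false

/-!
# The rule which splits off one child: vertices with three children (MP_d27362_co)
-/

namespace Pool.Agent.TSM

open Finset Polynomial
open Pool.Agent.TSP
open Pool.Agent.TSO
open Pool.Agent.TSR (OBr Ker sg_true sg_false vS_nonneg)
open Pool.Agent.TLT (sg)

lemma GoodE.congr {χ : ℝ → ℝ} {O O' : OBr} {V c : ℝ → ℝ → ℝ} (h : GoodE χ O V c)
    (hv : ∀ (m : ℕ) (S : Fin m → Fin m → ℝ), O.vS S = O'.vS S) (hX : XX O = XX O')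
    (hY : YY O = YY O') : GoodE χ O' V c := by
  intro m S hS w t hR
  have h1 := h m S hS w t hR
  rwa [hv, hX, hY] at h1

/-- the order of the children does not matter -/
lemma GoodE.perm {χ : ℝ → ℝ} {l l' : List (Bool × OBr)} {V c : ℝ → ℝ → ℝ}
    (h : GoodE χ (.mk l) V c) (hp : l.Perm l') : GoodE χ (.mk l') V c := by
  refine h.congr (fun m S => ?_) ?_ ?_
  · funext x
    rw [vS_mk_ms, vS_mk_ms]
    exact (hp.map _).prod_eq
  · rw [XX_mk, XX_mk]
    exact (hp.map _).sum_eq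
  · rw [YY_mk, YY_mk]
    exact (hp.map _).sum_eq

lemma fam3 (σ1 σ2 σ3 e1 e2 e3 : Bool) (O1 O2 O3 : OBr) :
    fam ![σ1, σ2, σ3] ![e1, e2, e3] ![O1, O2, O3] =
      .mk [cn σ1 e1 O1, cn σ2 e2 O2, cn σ3 e3 O3] := by
  unfold fam
  simp [List.ofFn_succ]

lemma erase3 : (univ.erase (0 : Fin 3)) = {1, 2} := by decide

lemma sum_erase3 (f : Fin 3 → ℝ) : ∑ i ∈ univ.erase (0 : Fin 3), f i = f 1 + f 2 := by
  rw [erase3, sum_pair (by decide)]

/-- **three children**: the first one is split off, the other two have opposite signs -/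
theorem GoodE.lf3 {χ : ℝ → ℝ} {O1 O2 O3 : OBr} {V1 c1 V2 c2 V3 c3 V' c' : ℝ → ℝ → ℝ}
    (h1 : GoodE χ O1 V1 c1) (h2 : GoodE χ O2 V2 c2) (h3 : GoodE χ O3 V3 c3) (e1 e2 e3 : Bool)
    (xL yL U2 y2 : ℝ → ℝ) (hxL : ∀ a, sg e1 * (XX O1).eval a = xL a)
    (hyL : ∀ a, (YY O1).eval a = yL a)
    (hU2 : ∀ a, (YY O2).eval a - (YY O3).eval a = U2 a)
    (hy2 : ∀ a, sg e2 * (XX O2).eval a + sg e3 * (XX O3).eval a = y2 a)
    (H : ∀ D, RD D → LfE χ D 2 xL yL U2 y2 (V1 D) (c1 D) (fun a => V2 D a + V3 D a)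
      (fun a => c2 D a + c3 D a) (V' D) (c' D)) :
    GoodE χ (.mk [cn true e1 O1, cn true e2 O2, cn false e3 O3]) V' c' := by
  rw [← fam3]
  refine GoodE.lf ![O1, O2, O3] ![true, true, false] ![e1, e2, e3] ![V1, V2, V3] ![c1, c2, c3]
    (fun i => ?_) (by norm_num) 0 rfl ?_ xL yL U2 y2 hxL hyL (fun a => ?_) (fun a => ?_)
    (fun D hD => ?_)
  · fin_cases i
    · exact h1
    · exact h2
    · exact h3
  · simp [Fin.sum_univ_succ, sg_true, sg_false]
  · rw [sum_erase3, ← hU2]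
    show sg true * (YY O2).eval a + sg false * (YY O3).eval a = _
    rw [sg_true, sg_false]
    ring
  · rw [sum_erase3, ← hy2]
    rfl
  · have h4 := H D hD
    have e4 : (fun a => ∑ i ∈ univ.erase (0 : Fin 3), ![V1, V2, V3] i D a) =
        fun a => V2 D a + V3 D a := by
      funext a
      rw [sum_erase3 fun i => ![V1, V2, V3] i D a]
      rfl
    have e5 : (fun a => ∑ i ∈ univ.erase (0 : Fin 3), ![c1, c2, c3] i D a) =
        fun a => c2 D a + c3 D a := by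
      funext a
      rw [sum_erase3 fun i => ![c1, c2, c3] i D a]
      rfl
    rw [e4, e5]
    exact h4

/-- a leaf and two branches; the branch `O1` is split off -/
theorem GoodE.lfl {χ : ℝ → ℝ} {O1 O2 : OBr} {V1 c1 V2 c2 V' c' : ℝ → ℝ → ℝ}
    (h1 : GoodE χ O1 V1 c1) (h2 : GoodE χ O2 V2 c2) (e1 e2 e3 : Bool)
    (xL yL U2 y2 : ℝ → ℝ) (hxL : ∀ a, sg e2 * (XX O1).eval a = xL a)
    (hyL : ∀ a, (YY O1).eval a = yL a) (hU2 : ∀ a, (YY O2).eval a = U2 a)
    (hy2 : ∀ a, sg e3 * (XX O2).eval a = y2 a)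
    (H : ∀ D, RD D → LfE χ D 2 xL yL U2 y2 (V1 D) (c1 D) (V2 D) (c2 D) (V' D) (c' D)) :
    GoodE χ (.mk [cn false e1 .nil, cn true e2 O1, cn true e3 O2]) V' c' := by
  have h0 : GoodE χ .nil (fun _ _ => 0) (fun _ _ => 0) := Good.nil.toE χ
  have h4 := h1.lf3 h2 h0 e2 e3 e1 xL yL U2 y2 (V' := V') (c' := c') hxL hyL
    (fun a => by rw [YY_nil, eval_zero, sub_zero]; exact hU2 a)
    (fun a => by rw [XX_nil, eval_zero, mul_zero, add_zero]; exact hy2 a) (fun D hD => by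
      have h5 := H D hD
      have e4 : (fun a => V2 D a + (0 : ℝ)) = V2 D := by funext a; rw [add_zero]
      have e5 : (fun a => c2 D a + (0 : ℝ)) = c2 D := by funext a; rw [add_zero]
      rw [e4, e5]
      exact h5)
  refine h4.perm ?_
  exact (List.perm_append_comm (l₁ := [cn true e2 O1, cn true e3 O2]) (l₂ := [cn false e1 .nil]))

/-- a leaf, the path with two vertices and a branch; the path is split off -/
theorem GoodE.lfp {χ : ℝ → ℝ} {O : OBr} {V c V' c' : ℝ → ℝ → ℝ} (h : GoodE χ O V c)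
    (e1 e2 e3 : Bool) (U2 y2 : ℝ → ℝ) (hU2 : ∀ a, (YY O).eval a = U2 a)
    (hy2 : ∀ a, sg e3 * (XX O).eval a = y2 a)
    (H : ∀ D, RD D → LfE χ D 2 (fun _ => sg e2) (fun _ => 0) U2 y2 (fun _ => 0) (fun _ => 0)
      (V D) (c D) (V' D) (c' D)) :
    GoodE χ (.mk [cn false e1 .nil, cn true e2 TSM.two, cn true e3 O]) V' c' := by
  have hYtwo : YY TSM.two = 0 := by
    unfold TSM.two
    rw [YY_cons, XX_nil, YY_nil]
    simp
  have hXtwo : XX TSM.two = 1 := by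
    unfold TSM.two
    rw [XX_cons, XX_nil, YY_nil, sg_true]
    simp
  exact (goodE_two χ).lfl h e1 e2 e3 (fun _ => sg e2) (fun _ => 0) U2 y2
    (fun a => by rw [hXtwo, eval_one, mul_one]) (fun a => by rw [hYtwo, eval_zero]) hU2 hy2 H

end Pool.Agent.TSM
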