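import Pool.Agent.TSO.Sup
import Pool.Agent.TSR.Fin
import Pool.Agent.TSP.Final

set_option autoImplicit false

/-!
# The majorant predicate (MP_d27362_co)

`st S x y = x(-A²) β + A y(-A²) β` is the state function. `Maj S F x y b c` says
`F ≤ M (1 + st S x y + G)` with `G ≥ 0`, bank `- log M - 2 mn G ≥ b`, pending cost `2 mn G ≤ c`.
-/

namespace Pool.Agent.TSM

open Finset Polynomial
open Pool.Agent.TSP
open Pool.Agent.TSO
open Pool.Agent.TSR (OBr Ker sg_true sg_false)
open Pool.Agent.TLT (sg)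

variable {m : ℕ}

/-! ### state functions -/

/-- the state function -/
noncomputable def st (S : Fin m → Fin m → ℝ) (x y : ℝ[X]) : Fin m → ℝ :=
  pol (aker S) x (beta S) + op (aker S) (pol (aker S) y (beta S))

/-- the moment functional of `β` -/
noncomputable def mo (S : Fin m → Fin m → ℝ) (p : ℝ[X]) : ℝ := mom (aker S) (beta S) p

theorem st_add (S : Fin m → Fin m → ℝ) (x y x' y' : ℝ[X]) :
    st S (x + x') (y + y') = st S x y + st S x' y' := by
  unfold st
  rw [pol_add_poly, pol_add_poly, op_add]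
  abel

theorem st_smul (S : Fin m → Fin m → ℝ) (c : ℝ) (x y : ℝ[X]) :
    st S (c • x) (c • y) = c • st S x y := by
  unfold st
  have h : ∀ p : ℝ[X], pol (aker S) (c • p) (beta S) = c • pol (aker S) p (beta S) := by
    intro p
    rw [smul_eq_C_mul, pol_mul, pol_C]
  rw [h, h, op_smul, smul_add]

theorem st_neg (S : Fin m → Fin m → ℝ) (x y : ℝ[X]) : st S (-x) (-y) = - st S x y := by
  have := st_smul S (-1) x y
  simpa using this

theorem st_zero (S : Fin m → Fin m → ℝ) : st S 0 0 = 0 := by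
  have := st_smul S 0 0 0
  simpa using this

theorem st_beta (S : Fin m → Fin m → ℝ) : st S 1 0 = beta S := by
  unfold st
  rw [pol_one, pol_zero_poly, op_zero, add_zero]

theorem op_st (S : Fin m → Fin m → ℝ) (x y : ℝ[X]) :
    op (aker S) (st S x y) = st S (-(X * y)) x := by
  unfold st
  rw [op_add, pol_neg_poly, pol_X_mul, neg_neg]
  abel

theorem beta_add_op_st (S : Fin m → Fin m → ℝ) (x y : ℝ[X]) :
    beta S + op (aker S) (st S x y) = st S (1 - X * y) x := by
  rw [op_st, ← st_beta, ← st_add, zero_add, ← sub_eq_add_neg]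

theorem mo_add (S : Fin m → Fin m → ℝ) (p q : ℝ[X]) : mo S (p + q) = mo S p + mo S q := by
  unfold mo mom
  rw [pol_add_poly, ip_add_right]

theorem mo_smul (S : Fin m → Fin m → ℝ) (c : ℝ) (p : ℝ[X]) : mo S (c • p) = c * mo S p := by
  unfold mo mom
  rw [smul_eq_C_mul, pol_mul, pol_C, ip_smul_right]

theorem mo_neg (S : Fin m → Fin m → ℝ) (p : ℝ[X]) : mo S (-p) = - mo S p := by
  have := mo_smul S (-1) p
  simpa using this

theorem mo_one (S : Fin m → Fin m → ℝ) : mo S 1 = dee S := by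
  unfold mo mom
  rw [pol_one]
  rfl

theorem ip_st (S : Fin m → Fin m → ℝ) (hS : ∀ i j, S j i = - S i j) (x y x' y' : ℝ[X]) :
    ip (st S x y) (st S x' y') = mo S (x * x' + X * (y * y')) :=
  ip_state (aker S) (aker_anti S hS) x y x' y' (beta S)

theorem ip_beta_st (S : Fin m → Fin m → ℝ) (hS : ∀ i j, S j i = - S i j) (x y : ℝ[X]) :
    ip (beta S) (st S x y) = mo S x := by
  rw [← st_beta, ip_st S hS]
  congr 1
  ring

theorem mn_add' (f g : Fin m → ℝ) : mn (f + g) = mn f + mn g := mn_add f g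

theorem mn_neg' (f : Fin m → ℝ) : mn (-f) = - mn f := mn_neg f

theorem mn_smul' (c : ℝ) (f : Fin m → ℝ) : mn (c • f) = c * mn f := mn_mul c f

theorem mn_pol (S : Fin m → Fin m → ℝ) (hS : ∀ i j, S j i = - S i j) (p : ℝ[X]) :
    mn (pol (aker S) p (beta S)) = 0 := by
  have h : p = X * p.divX + C (p.coeff 0) := by
    rw [mul_comm]; exact (divX_mul_X_add p).symm
  rw [h, pol_add_poly, pol_C, mn_add', mn_smul', pol_X_mul, mn_neg', mn_op_aker S hS,
    mn_beta S hS]
  ring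

theorem mn_st (S : Fin m → Fin m → ℝ) (hS : ∀ i j, S j i = - S i j) (x y : ℝ[X]) :
    mn (st S x y) = 0 := by
  unfold st
  rw [mn_add', mn_pol S hS, mn_op_aker S hS, add_zero]

/-! ### change of sign of the kernel -/

theorem op_negk (S : Fin m → Fin m → ℝ) (f : Fin m → ℝ) :
    op (fun i j => - S i j) f = - op S f := by
  funext i
  exact TSR.op_neg_kernel S f i

theorem beta_negk (S : Fin m → Fin m → ℝ) : beta (fun i j => - S i j) = - beta S :=
  op_negk S _

theorem aker_negk (S : Fin m → Fin m → ℝ) :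
    aker (fun i j => - S i j) = fun i j => - aker S i j := by
  funext i j
  unfold aker
  rw [beta_negk]
  simp only [Pi.neg_apply]
  ring

theorem nmat_negk (A : Fin m → Fin m → ℝ) : nmat (fun i j => - A i j) = nmat A := by
  have h : mat (fun i j => - A i j) = - mat A := by
    ext i j
    simp [mat]
  unfold nmat
  rw [h, neg_mul_neg]

theorem pol_negk (A : Fin m → Fin m → ℝ) (p : ℝ[X]) (f : Fin m → ℝ) :
    pol (fun i j => - A i j) p f = pol A p f := by
  unfold pol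
  rw [nmat_negk]

theorem st_negk (S : Fin m → Fin m → ℝ) (x y : ℝ[X]) :
    st (fun i j => - S i j) x y = st S (-x) y := by
  unfold st
  rw [aker_negk, beta_negk, pol_negk, pol_negk, TSP.pol_neg, TSP.pol_neg, op_negk, op_neg,
    pol_neg_poly, neg_neg]

theorem mo_negk (S : Fin m → Fin m → ℝ) (p : ℝ[X]) : mo (fun i j => - S i j) p = mo S p := by
  unfold mo mom
  rw [aker_negk, beta_negk, pol_negk, TSP.pol_neg, ip_neg_left, ip_neg_right, neg_neg]

theorem dee_negk (S : Fin m → Fin m → ℝ) : dee (fun i j => - S i j) = dee S := by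
  rw [← mo_one, mo_negk, mo_one]

/-! ### the spectral data -/

/-- spectral data of a kernel -/
structure Rep (S : Fin m → Fin m → ℝ) (w t : Fin m → ℝ) : Prop where
  w0 : ∀ j, 0 ≤ w j
  t0 : ∀ j, 0 ≤ t j
  mo_eq : ∀ p : ℝ[X], mo S p = ∑ j, w j * p.eval (t j)
  sum_w : ∑ j, w j = dee S
  dee_le : dee S ≤ 1 / 3
  t_half : ∀ j, t j ≤ 1 / 2 - dee S
  t_pair : ∀ j k, t j ≠ t k → t j + t k ≤ 1 / 2 - dee S
  t_q : ∀ j, t j ≤ 4 / Real.pi ^ 2
  t_w : ∀ j, w j ≠ 0 → t j + w j ≤ 4 / Real.pi ^ 2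
  tail : ∀ s, 0 < s → 0 < ∑ j with s ≤ t j, w j → s + ∑ j with s ≤ t j, w j ≤ 4 / Real.pi ^ 2
  c1 : ∑ j, w j / (4 / Real.pi ^ 2 - t j) ≤ 1

theorem exists_rep {S : Fin m → Fin m → ℝ} (h : Ker S) : ∃ w t : Fin m → ℝ, Rep S w t := by
  obtain ⟨w, t, h1, h2, h3, h4, h5, h6, h7, h8, h9, h10⟩ :=
    spectral_measure h.pos S h.anti h.bd
  exact ⟨w, t, h1, h2, h3, h4, dee_le S h.anti h.bd, h5, h6, h7, h9, h8, h10⟩

theorem Rep.neg {S : Fin m → Fin m → ℝ} {w t : Fin m → ℝ} (h : Rep S w t) :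
    Rep (fun i j => - S i j) w t := by
  refine ⟨h.w0, h.t0, fun p => ?_, ?_, ?_, ?_, ?_, h.t_q, h.t_w, h.tail, h.c1⟩
  · rw [mo_negk]; exact h.mo_eq p
  · rw [dee_negk]; exact h.sum_w
  · rw [dee_negk]; exact h.dee_le
  · rw [dee_negk]; exact h.t_half
  · rw [dee_negk]; exact h.t_pair

/-- the integral with respect to the spectral measure -/
noncomputable def nu (w t : Fin m → ℝ) (f : ℝ → ℝ) : ℝ := ∑ j, w j * f (t j)

theorem nu_add (w t : Fin m → ℝ) (f g : ℝ → ℝ) :
    (nu w t fun a => f a + g a) = nu w t f + nu w t g := by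
  unfold nu
  rw [← sum_add_distrib]
  exact sum_congr rfl fun j _ => by ring

theorem nu_mul (w t : Fin m → ℝ) (c : ℝ) (f : ℝ → ℝ) :
    (nu w t fun a => c * f a) = c * nu w t f := by
  unfold nu
  rw [mul_sum]
  exact sum_congr rfl fun j _ => by ring

theorem nu_sub (w t : Fin m → ℝ) (f g : ℝ → ℝ) :
    (nu w t fun a => f a - g a) = nu w t f - nu w t g := by
  unfold nu
  rw [← sum_sub_distrib]
  exact sum_congr rfl fun j _ => by ring

theorem nu_neg (w t : Fin m → ℝ) (f : ℝ → ℝ) :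
    (nu w t fun a => - f a) = - nu w t f := by
  unfold nu
  rw [← sum_neg_distrib]
  exact sum_congr rfl fun j _ => by ring

theorem nu_zero (w t : Fin m → ℝ) : (nu w t fun _ => 0) = 0 := by
  unfold nu
  simp

theorem nu_congr {w t : Fin m → ℝ} {f g : ℝ → ℝ} (h : ∀ j, f (t j) = g (t j)) :
    nu w t f = nu w t g := by
  unfold nu
  exact sum_congr rfl fun j _ => by rw [h j]

theorem nu_list_sum (w t : Fin m → ℝ) {ι : Type} (l : List ι) (f : ι → ℝ → ℝ) :
    (nu w t fun a => (l.map fun i => f i a).sum) = (l.map fun i => nu w t (f i)).sum := by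
  induction l with
  | nil => simp [nu_zero]
  | cons a l ih => simp only [List.map_cons, List.sum_cons]; rw [nu_add, ih]

section RepLemmas

variable {S : Fin m → Fin m → ℝ} {w t : Fin m → ℝ}

theorem Rep.nu_const (h : Rep S w t) (c : ℝ) : (nu w t fun _ => c) = c * dee S := by
  unfold nu
  rw [← sum_mul, h.sum_w, mul_comm]

theorem Rep.dee_nonneg (h : Rep S w t) : 0 ≤ dee S := by
  rw [← h.sum_w]
  exact sum_nonneg fun j _ => h.w0 j

theorem Rep.mo_nu (h : Rep S w t) (p : ℝ[X]) : mo S p = nu w t fun a => p.eval a := h.mo_eq p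

/-- the region of the points of the spectral measure for total mass `D` -/
def Reg (D a : ℝ) : Prop := 0 ≤ D ∧ D ≤ 1 / 3 ∧ 0 ≤ a ∧ a ≤ 1 / 2 - D ∧ a ≤ 4 / Real.pi ^ 2

theorem Rep.reg (h : Rep S w t) (j : Fin m) : Reg (dee S) (t j) :=
  ⟨h.dee_nonneg, h.dee_le, h.t0 j, h.t_half j, h.t_q j⟩

theorem Rep.nu_mono (h : Rep S w t) {f g : ℝ → ℝ} (hfg : ∀ a, Reg (dee S) a → f a ≤ g a) :
    nu w t f ≤ nu w t g := by
  unfold nu
  exact sum_le_sum fun j _ => mul_le_mul_of_nonneg_left (hfg _ (h.reg j)) (h.w0 j)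

theorem Rep.nu_nonneg (h : Rep S w t) {f : ℝ → ℝ} (hf : ∀ a, Reg (dee S) a → 0 ≤ f a) :
    0 ≤ nu w t f := by
  have := h.nu_mono (f := fun _ => 0) (g := f) hf
  rwa [nu_zero] at this

/-- monotonicity with the slack of the first constraint; only points with `w j > 0` matter and
there `t j < q` if `D > 0` -/
theorem Rep.nu_mono_c1 (h : Rep S w t) {f g : ℝ → ℝ} (s0 : ℝ) (hs : 0 ≤ s0)
    (hfg : ∀ a, Reg (dee S) a → a < 4 / Real.pi ^ 2 → 0 < dee S →
      f a + s0 * (1 - dee S / (4 / Real.pi ^ 2 - a)) ≤ g a) :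
    nu w t f ≤ nu w t g := by
  rcases h.dee_nonneg.eq_or_lt with h0 | h0
  · have hz : ∀ j, w j = 0 := by
      have h1 := h.sum_w
      rw [← h0] at h1
      intro j
      exact (sum_eq_zero_iff_of_nonneg fun j _ => h.w0 j).1 h1 j (mem_univ j)
    unfold nu
    simp [hz]
  · have key : ∀ j, w j * f (t j) + s0 * (w j - dee S * (w j / (4 / Real.pi ^ 2 - t j))) ≤
        w j * g (t j) := by
      intro j
      by_cases hj : w j = 0
      · rw [hj]; simp
      have hwj : 0 < w j := lt_of_le_of_ne (h.w0 j) (Ne.symm hj)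
      have hlt : t j < 4 / Real.pi ^ 2 := by
        have := h.t_w j hj
        linarith
      have := mul_le_mul_of_nonneg_left (hfg (t j) (h.reg j) hlt h0) (h.w0 j)
      refine le_trans (le_of_eq ?_) this
      ring
    have h1 : nu w t f + s0 * (dee S - dee S * ∑ j, w j / (4 / Real.pi ^ 2 - t j)) ≤ nu w t g := by
      unfold nu
      have h2 := sum_le_sum fun j (_ : j ∈ univ) => key j
      rw [sum_add_distrib, ← mul_sum, sum_sub_distrib, ← mul_sum, h.sum_w] at h2
      exact h2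
    have h3 := h.c1
    nlinarith [mul_nonneg hs (mul_nonneg h0.le (sub_nonneg.2 h3))]

end RepLemmas

/-! ### the majorant predicate -/

/-- `F ≤ M (1 + st S x y + G)`, `G ≥ 0`, bank at least `b`, pending cost at most `c` -/
def Maj (S : Fin m → Fin m → ℝ) (F : Fin m → ℝ) (x y : ℝ[X]) (b c : ℝ) : Prop :=
  ∃ (M : ℝ) (G : Fin m → ℝ), 0 < M ∧ (∀ i, 0 ≤ G i) ∧
    (∀ i, F i ≤ M * (1 + st S x y i + G i)) ∧ Real.log M + 2 * mn G ≤ - b ∧ 2 * mn G ≤ c

/-- `f ≤ M (1 - ρ + ξ)`: a function seen through an edge; `g` is the paid cost -/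
def MMaj (S : Fin m → Fin m → ℝ) (f : Fin m → ℝ) (x y : ℝ[X]) (G0 b c : ℝ) : Prop :=
  ∃ (M g : ℝ), 0 < M ∧ 0 ≤ g ∧ g ≤ c ∧ Real.log M + g ≤ - b ∧ (∀ i, 0 ≤ f i) ∧
    ∀ i, f i ≤ M * (1 - (G0 - g) + st S x y i)

section Steps

variable {S : Fin m → Fin m → ℝ}

theorem Maj.mono {F : Fin m → ℝ} {x y : ℝ[X]} {b c b' c' : ℝ} (h : Maj S F x y b c)
    (hb : b' ≤ b) (hc : c ≤ c') : Maj S F x y b' c' := by
  obtain ⟨M, G, h1, h2, h3, h4, h5⟩ := h
  exact ⟨M, G, h1, h2, h3, by linarith, by linarith⟩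

theorem MMaj.mono {f : Fin m → ℝ} {x y : ℝ[X]} {G0 b c b' c' : ℝ} (h : MMaj S f x y G0 b c)
    (hb : b' ≤ b) (hc : c ≤ c') : MMaj S f x y G0 b' c' := by
  obtain ⟨M, g, h1, h2, h3, h4, h5⟩ := h
  exact ⟨M, g, h1, h2, by linarith, by linarith, h5⟩

/-- the final estimate -/
theorem Maj.mean_le (hK : Ker S) {F : Fin m → ℝ} {x y : ℝ[X]} {b c : ℝ}
    (h : Maj S F x y b c) (hb : 0 ≤ b) : ip F (fun _ => 1) ≤ 1 := by
  obtain ⟨M, G, h1, h2, h3, h4, -⟩ := h
  rw [TSO.ip_one]
  have h5 : mn F ≤ M * (1 + mn G) := by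
    refine (mn_mono h3).trans (le_of_eq ?_)
    rw [mn_mul, mn_add, mn_add, mn_const hK.pos, mn_st S hK.anti, add_zero]
  have h6 : 0 ≤ mn G := mn_nonneg h2
  refine h5.trans ?_
  have h7 : Real.log (M * (1 + mn G)) ≤ 0 := by
    rw [Real.log_mul h1.ne' (by positivity)]
    have := Real.log_le_sub_one_of_pos (show 0 < 1 + mn G by positivity)
    linarith
  have h8 : 0 < M * (1 + mn G) := by positivity
  rw [← Real.log_one] at h7
  exact (Real.log_le_log_iff h8 one_pos).1 h7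

/-- the constant function -/
theorem Maj.leaf : Maj S (fun _ => 1) 0 0 0 0 := by
  refine ⟨1, fun _ => 0, one_pos, fun _ => le_rfl, fun i => ?_, ?_, ?_⟩
  · rw [st_zero]; simp
  · simp [mn]
  · simp [mn]

/-- an edge with the sign `s` -/
theorem Maj.msg (hK : Ker S) {F : Fin m → ℝ} {x y : ℝ[X]} {b c : ℝ} (h : Maj S F x y b c)
    (hF : ∀ i, 0 ≤ F i) (s : ℝ) (hs : s = 1 ∨ s = -1) :
    MMaj S (msg S s F) (s • (1 - X * y)) (s • x) (s * mo S x) b c := by
  obtain ⟨M, G, h1, h2, h3, h4, h5⟩ := h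
  refine ⟨M, 2 * mn G, h1, by have := mn_nonneg h2; linarith, h5, h4,
    fun i => msg_nonneg S hK.bd s hs hF i, fun i => ?_⟩
  have h6 := lin_step hK.pos S hK.bd s hs F (st S x y) G M h1.le h3 (mn_st S hK.anti x y) i
  refine h6.trans (le_of_eq ?_)
  have h7 : (mn fun j => |G j|) = mn G := by
    congr 1
    funext j
    exact abs_of_nonneg (h2 j)
  have h8 : beta S i + op (aker S) (st S x y) i = st S (1 - X * y) x i := by
    rw [← beta_add_op_st]
    rfl
  rw [h7, ip_beta_st S hK.anti, h8, st_smul]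
  simp only [Pi.smul_apply, smul_eq_mul]
  ring

theorem msg_one (hK : Ker S) (s : ℝ) : TSO.msg S s (fun _ => 1) = fun i => 1 + s * beta S i := by
  funext i
  unfold TSO.msg
  rw [mn_const hK.pos, op_one]

/-! ### one child -/

/-- the logarithmic inequality behind the rule `R - χ |R|` -/
theorem log_aux (χ r : ℝ) (hχ0 : 0 ≤ χ) (hr0 : 0 ≤ r) (hr1 : r < 1) (hr : r ≤ 1 - χ) :
    r + χ * (r / (1 - r)) ≤ (1 + χ) * (- Real.log (1 - r)) := by
  have h1r : 0 < 1 - r := by linarith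
  set L := - Real.log (1 - r) with hL
  -- `2 r / (2 - r) ≤ L`
  have h1 : 2 * r ≤ L * (2 - r) := by
    have h := Real.le_log_one_add_of_nonneg (x := r / (1 - r)) (by positivity)
    have e1 : 1 + r / (1 - r) = (1 - r)⁻¹ := by field_simp; ring
    rw [e1, Real.log_inv] at h
    have e2 : 2 * (r / (1 - r)) / (r / (1 - r) + 2) = 2 * r / (2 - r) := by
      have : 2 - r ≠ 0 := by linarith
      have h3 : r / (1 - r) + 2 ≠ 0 := by positivity
      field_simp
      ring
    rw [e2, div_le_iff₀ (by linarith)] at h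
    exact h
  have h2 : L ≤ r / (1 - r) := by
    have h := Real.one_sub_inv_le_log_of_pos h1r
    have e1 : 1 - (1 - r)⁻¹ = - (r / (1 - r)) := by field_simp; ring
    rw [e1] at h
    linarith
  have e3 : (1 - r) * (r / (1 - r)) = r := by field_simp
  nlinarith [mul_nonneg (sub_nonneg.2 h2) (sub_nonneg.2 hr)]

end Steps

end Pool.Agent.TSM
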