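import Pool.Agent.TSM.Tree
import Pool.Agent.TSO.RuleE

set_option autoImplicit false

/-!
# Rules for any number of children (MP_d27362_co)

`MMaj.manyE`: `∏ (1 - ρ_i + ξ_i) ≤ e^{-ρ} e^W`, `e^W ≤ e^m (1 + W + c W²)`.
`MMaj.amgm`: `∏ (1 - ρ_i + ξ_i) ≤ (1 + (W-ρ)/K)^K ≤ e^m (1 + (W-ρ) + c (W-ρ)²)`, `c ≥ 1/4`.
-/

namespace Pool.Agent.TSM

open Finset Polynomial
open Pool.Agent.TSP
open Pool.Agent.TSO
open Pool.Agent.TSR (OBr Ker Br Red Cn2 sg_true sg_false sg_not vS_cons vS_nil vS_mk vS_rev vS_nonneg)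
open Pool.Agent.TLT (sg)

variable {m : ℕ} {S : Fin m → Fin m → ℝ}

/-! ### the sup bound -/

/-- `∫ (y² + t U²)` -/
noncomputable def en2 (S : Fin m → Fin m → ℝ) (U y : ℝ[X]) : ℝ := mo S (y * y + X * (U * U))

theorem en2_nonneg (hS : ∀ i j, S j i = - S i j) (U y : ℝ[X]) : 0 ≤ en2 S U y := by
  have := en_nonneg (S := S) hS y U
  exact this

/-- one-sided sup bound of a state -/
theorem st_sup (hK : Ker S) (τ : ℝ) (U y : ℝ[X]) (z : Fin m) :
    st S (C τ - X * U) y z ≤ Real.sqrt (τ ^ 2 + en2 S U y) + mo S y := by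
  have h1 : st S (C τ - X * U) y = τ • beta S + op (aker S) (st S y U) := by
    rw [op_st, ← st_beta, ← st_smul, ← st_add, smul_zero, zero_add]
    congr 1
    rw [smul_eq_C_mul, mul_one]
    ring
  have h2 : op (aker S) (st S y U) z = op S (st S y U) z + mo S y := by
    rw [TSO.op_aker, mn_st S hK.anti, ip_beta_st S hK.anti]
    ring
  have h3 : st S (C τ - X * U) y z = op S (fun j => τ + st S y U j) z + mo S y := by
    rw [h1]
    simp only [Pi.add_apply, Pi.smul_apply, smul_eq_mul]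
    rw [h2]
    have e1 : op S (fun j => τ + st S y U j) z = τ * beta S z + op S (st S y U) z := by
      have : (fun j => τ + st S y U j) = τ • (fun _ : Fin m => (1 : ℝ)) + st S y U := by
        funext j; simp
      rw [this, op_add, op_smul]
      rfl
    rw [e1]
    ring
  rw [h3]
  have h4 := op_le_norm hK.pos S hK.bd (fun j => τ + st S y U j) z
  have h5 : ip (fun j => τ + st S y U j) (fun j => τ + st S y U j) = τ ^ 2 + en2 S U y := by
    have e2 : en2 S U y = mn fun j => st S y U j * st S y U j := by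
      have := ip_st_self (S := S) hK.anti y U
      rw [ip_eq_mn] at this
      exact this.symm
    rw [ip_eq_mn, e2]
    have : (fun j => (τ + st S y U j) * (τ + st S y U j)) =
        fun j => (st S y U j * st S y U j + (2 * τ) * st S y U j) + τ ^ 2 := by
      funext j; ring
    rw [this, mn_add, mn_add, mn_mul, mn_const hK.pos, mn_st S hK.anti]
    ring
  rw [h5] at h4
  linarith [le_abs_self (op S (fun j => τ + st S y U j) z)]

/-- Cauchy-Schwarz for the moment functional -/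
theorem mo_sq_le (hK : Ker S) (y : ℝ[X]) : mo S y ^ 2 ≤ dee S * mo S (y * y) := by
  have h := ip_sq_le (beta S) (st S y 0)
  rw [ip_beta_st S hK.anti, ip_st_self hK.anti] at h
  have e : en S y 0 = mo S (y * y) := by
    unfold en
    congr 1
    ring
  rw [e] at h
  exact h

theorem mo_sq_le_en2 (hK : Ker S) (U y : ℝ[X]) : mo S y ^ 2 ≤ dee S * en2 S U y := by
  have h1 := mo_sq_le hK y
  have hD : 0 ≤ dee S := ip_self_nonneg _
  refine h1.trans (mul_le_mul_of_nonneg_left ?_ hD)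
  have h2 : en2 S U y = mo S (y * y) + en S 0 U := by
    unfold en2 en
    rw [← mo_add]
    congr 1
    ring
  rw [h2]
  have := en_nonneg (S := S) hK.anti 0 U
  linarith

/-- the square of the sup bound for `τ = 0` is at most `((1+l) + (1+1/l) D) ∫ (y² + t U²)` -/
theorem sup_sq_le (hK : Ker S) (U y : ℝ[X]) (l : ℝ) (hl : 0 < l) :
    (Real.sqrt (en2 S U y) + mo S y) ^ 2 ≤ ((1 + l) + (1 + 1 / l) * dee S) * en2 S U y := by
  have h0 := en2_nonneg (S := S) hK.anti U y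
  have h1 := Real.sq_sqrt h0
  have h2 := mo_sq_le_en2 hK U y
  set s := Real.sqrt (en2 S U y)
  set b := mo S y
  have h3 : 2 * s * b ≤ l * s ^ 2 + (1 / l) * b ^ 2 := by
    have e : l * s ^ 2 + (1 / l) * b ^ 2 - 2 * s * b = (1 / l) * (l * s - b) ^ 2 := by
      field_simp
      ring
    have : 0 ≤ (1 / l) * (l * s - b) ^ 2 := by positivity
    linarith
  have h4 : (1 + 1 / l) * b ^ 2 ≤ (1 + 1 / l) * (dee S * en2 S U y) :=
    mul_le_mul_of_nonneg_left h2 (by positivity)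
  calc (s + b) ^ 2 = s ^ 2 + 2 * s * b + b ^ 2 := by ring
    _ ≤ (1 + l) * s ^ 2 + (1 + 1 / l) * b ^ 2 := by linarith
    _ ≤ (1 + l) * en2 S U y + (1 + 1 / l) * (dee S * en2 S U y) := by rw [h1]; linarith
    _ = _ := by ring

/-! ### sums of states -/

theorem st_sum {ι : Type} (s : Finset ι) (x y : ι → ℝ[X]) :
    st S (∑ i ∈ s, x i) (∑ i ∈ s, y i) = ∑ i ∈ s, st S (x i) (y i) := by
  classical
  induction s using Finset.induction_on with
  | empty => simp [st_zero]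
  | insert a s ha ih => rw [sum_insert ha, sum_insert ha, sum_insert ha, st_add, ih]

/-! ### the rules on the level of messages -/

/-- **Rule E** -/
theorem MMaj.manyE (hK : Ker S) {ι : Type} (s : Finset ι)
    (f : ι → Fin m → ℝ) (x y : ι → ℝ[X]) (G0 b c : ι → ℝ)
    (h : ∀ i ∈ s, MMaj S (f i) (x i) (y i) (G0 i) (b i) (c i)) (cq mm : ℝ) (hcq : 0 ≤ cq)
    (hE : ∀ z, Real.exp (st S (∑ i ∈ s, x i) (∑ i ∈ s, y i) z) ≤
      Real.exp mm * (1 + st S (∑ i ∈ s, x i) (∑ i ∈ s, y i) z +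
        cq * st S (∑ i ∈ s, x i) (∑ i ∈ s, y i) z ^ 2)) {b' c' : ℝ}
    (hb : b' ≤ ∑ i ∈ s, b i + ∑ i ∈ s, G0 i - mm -
      2 * cq * en S (∑ i ∈ s, x i) (∑ i ∈ s, y i))
    (hc : 2 * cq * en S (∑ i ∈ s, x i) (∑ i ∈ s, y i) ≤ c') :
    Maj S (fun z => ∏ i ∈ s, f i z) (∑ i ∈ s, x i) (∑ i ∈ s, y i) b' c' := by
  choose! M g hM hg0 hgc hlog hf0 hf using h
  obtain ⟨G, hG0, hGb, hmG⟩ := multi_stepE s f M (fun i => - (G0 i - g i))
    (fun i => st S (x i) (y i)) hM (fun i hi z => hf0 i hi z)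
    (fun i hi z => by
      refine (hf i hi z).trans (le_of_eq ?_)
      ring) (∑ i ∈ s, (G0 i - g i)) (by rw [sum_neg_distrib])
    (st S (∑ i ∈ s, x i) (∑ i ∈ s, y i)) (fun z => by rw [st_sum]; simp)
    (en S (∑ i ∈ s, x i) (∑ i ∈ s, y i)) (by rw [ip_st_self hK.anti]) cq (Real.exp mm) hcq hE
  have hPp : 0 < ∏ i ∈ s, M i := prod_pos hM
  refine ⟨_, G, by positivity, hG0, hGb, ?_, ?_⟩
  · rw [Real.log_mul hPp.ne' (by positivity), Real.log_prod (fun i hi => (hM i hi).ne'),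
      Real.log_mul (by positivity) (by positivity), Real.log_exp, Real.log_exp]
    have h4 : ∑ i ∈ s, Real.log (M i) + ∑ i ∈ s, g i ≤ - ∑ i ∈ s, b i := by
      rw [← sum_add_distrib, ← sum_neg_distrib]
      exact sum_le_sum hlog
    rw [sum_sub_distrib]
    linarith
  · linarith

/-- **AM-GM rule**, `c ≥ 1/4`: `P` bounds the net gain, `η` is the factor of the gain -/
theorem MMaj.amgm (hK : Ker S) {ι : Type} (s : Finset ι) (k : ℕ) (hk : s.card = k) (hk0 : 0 < k)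
    (f : ι → Fin m → ℝ) (x y : ι → ℝ[X]) (G0 b c : ι → ℝ)
    (h : ∀ i ∈ s, MMaj S (f i) (x i) (y i) (G0 i) (b i) (c i)) (cq mm G P η : ℝ)
    (hcq : 1 / 4 ≤ cq) (hG : G ≤ ∑ i ∈ s, G0 i) (hP0 : 0 ≤ P) (hP1 : P < 1) (hGP : G ≤ P)
    (hη1 : η ≤ 1)
    (hη : ∀ ρ, 0 ≤ ρ → ρ ≤ P →
      Real.log (1 - ρ) + 4 * cq * ρ ^ 2 / (2 * (1 - ρ)) ≤ - (η * ρ))
    (hE : ∀ ρ, ρ ≤ G → G - ∑ i ∈ s, c i ≤ ρ → ∀ z,
      0 ≤ 1 + (st S (∑ i ∈ s, x i) (∑ i ∈ s, y i) z - ρ) / k →
      (1 + (st S (∑ i ∈ s, x i) (∑ i ∈ s, y i) z - ρ) / k) ^ k ≤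
      Real.exp mm * (1 + (st S (∑ i ∈ s, x i) (∑ i ∈ s, y i) z - ρ) +
        cq * (st S (∑ i ∈ s, x i) (∑ i ∈ s, y i) z - ρ) ^ 2)) {b' c' : ℝ}
    (hb1 : b' ≤ ∑ i ∈ s, b i + η * G - mm -
      2 * cq * en S (∑ i ∈ s, x i) (∑ i ∈ s, y i) / (1 - P))
    (hb2 : b' ≤ ∑ i ∈ s, b i + G - (2 * cq - 1 / 2) * (∑ i ∈ s, c i - G) - mm -
      2 * cq * en S (∑ i ∈ s, x i) (∑ i ∈ s, y i) / (1 - P))
    (hb3 : b' ≤ ∑ i ∈ s, b i + G - mm -
      2 * cq * en S (∑ i ∈ s, x i) (∑ i ∈ s, y i) / (1 - P))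
    (hc1 : 2 * cq * (en S (∑ i ∈ s, x i) (∑ i ∈ s, y i) + P * G) / (1 - P) ≤ c')
    (hc0 : 2 * cq * en S (∑ i ∈ s, x i) (∑ i ∈ s, y i) / (1 - P) ≤ c')
    (hc2 : 2 * cq * (en S (∑ i ∈ s, x i) (∑ i ∈ s, y i) + (∑ i ∈ s, c i - G)) ≤ c') :
    Maj S (fun z => ∏ i ∈ s, f i z) (∑ i ∈ s, x i) (∑ i ∈ s, y i) b' c' := by
  choose! M g hM hg0 hgc hlog hf0 hf using h
  have hkR : (0 : ℝ) < k := by exact_mod_cast hk0
  set x0 := ∑ i ∈ s, x i with hx0
  set y0 := ∑ i ∈ s, y i with hy0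
  set δ := en S x0 y0 with hδd
  have hδ0 : 0 ≤ δ := en_nonneg hK.anti _ _
  have hcq0 : 0 < cq := by linarith
  set gs := ∑ i ∈ s, g i with hgs
  have hgs0 : 0 ≤ gs := sum_nonneg hg0
  have hgsc : gs ≤ ∑ i ∈ s, c i := sum_le_sum hgc
  set ρ := G - gs with hρ
  have hρG : ρ ≤ G := by linarith
  have hρP : ρ ≤ P := by linarith
  have h1P : 0 < 1 - P := by linarith
  have h1ρ : 0 < 1 - ρ := by linarith
  have hPp : 0 < ∏ i ∈ s, M i := prod_pos hM
  set W := st S x0 y0 with hW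
  -- the quadratic error is nonnegative
  have hq : ∀ u : ℝ, 0 ≤ cq * (u - ρ) ^ 2 + ρ * u := by
    intro u
    have e : cq * (u - ρ) ^ 2 + ρ * u =
        (cq - 1 / 4) * (u - ρ) ^ 2 + 1 / 4 * (u + ρ) ^ 2 := by ring
    rw [e]
    have : 0 ≤ cq - 1 / 4 := by linarith
    positivity
  refine ⟨(∏ i ∈ s, M i) * (1 - ρ) * Real.exp mm,
    fun z => (cq * (W z - ρ) ^ 2 + ρ * W z) / (1 - ρ), by positivity,
    fun z => div_nonneg (hq _) h1ρ.le, fun z => ?_, ?_, ?_⟩
  · have ha : ∀ i ∈ s, 0 ≤ 1 + (-(G0 i - g i)) + st S (x i) (y i) z := by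
      intro i hi
      have h1 := (hf0 i hi z).trans (hf i hi z)
      by_contra h
      push Not at h
      have := mul_neg_of_pos_of_neg (hM i hi) (show 1 - (G0 i - g i) + st S (x i) (y i) z < 0 by
        linarith)
      linarith
    have h1 : ∏ i ∈ s, f i z ≤ (∏ i ∈ s, M i) * ∏ i ∈ s, (1 + (-(G0 i - g i)) +
        st S (x i) (y i) z) := by
      rw [← prod_mul_distrib]
      refine prod_le_prod (fun i hi => hf0 i hi z) (fun i hi => (hf i hi z).trans (le_of_eq ?_))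
      ring
    have h2 := TSO.amgm s (fun i => 1 + (-(G0 i - g i)) + st S (x i) (y i) z) ha k hk hk0
    have hsum : (∑ i ∈ s, (1 + (-(G0 i - g i)) + st S (x i) (y i) z)) / k =
        1 + (W z - (∑ i ∈ s, G0 i - gs)) / k := by
      rw [sum_add_distrib, sum_add_distrib, sum_neg_distrib, sum_sub_distrib, sum_const, hk,
        nsmul_eq_mul, hW, hx0, hy0, st_sum]
      simp only [Finset.sum_apply]
      field_simp
      ring
    have hnn : 0 ≤ 1 + (W z - (∑ i ∈ s, G0 i - gs)) / k := by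
      rw [← hsum]
      exact div_nonneg (sum_nonneg ha) hkR.le
    rw [hsum] at h2
    have hle : 1 + (W z - (∑ i ∈ s, G0 i - gs)) / k ≤ 1 + (W z - ρ) / k := by
      have : (W z - (∑ i ∈ s, G0 i - gs)) / k ≤ (W z - ρ) / k :=
        div_le_div_of_nonneg_right (by linarith) hkR.le
      linarith
    have h3 : ∏ i ∈ s, (1 + (-(G0 i - g i)) + st S (x i) (y i) z) ≤ (1 + (W z - ρ) / k) ^ k :=
      h2.trans (pow_le_pow_left₀ hnn hle k)
    have h4 := hE ρ hρG (by linarith) z (hnn.trans hle)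
    calc ∏ i ∈ s, f i z ≤ (∏ i ∈ s, M i) * (Real.exp mm * (1 + (W z - ρ) + cq * (W z - ρ) ^ 2)) :=
          h1.trans (mul_le_mul_of_nonneg_left (h3.trans h4) hPp.le)
      _ = _ := by
          field_simp
          ring
  · have hmG : 2 * (mn fun z => (cq * (W z - ρ) ^ 2 + ρ * W z) / (1 - ρ)) =
        2 * cq * (δ + ρ ^ 2) / (1 - ρ) := by
      have e : (fun z => (cq * (W z - ρ) ^ 2 + ρ * W z) / (1 - ρ)) = fun z =>
          (1 / (1 - ρ)) * ((cq * (W z * W z) + (ρ - 2 * cq * ρ) * W z) + cq * ρ ^ 2) := by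
        funext z
        field_simp
        ring
      have h5 : (mn fun z => W z * W z) = δ := by
        rw [hδd, ← ip_st_self hK.anti]; rfl
      rw [e, mn_mul, mn_add, mn_add, mn_mul, mn_mul, mn_const hK.pos, h5, hW,
        mn_st S hK.anti]
      field_simp
      ring
    rw [hmG, Real.log_mul (by positivity) (by positivity), Real.log_mul hPp.ne' h1ρ.ne',
      Real.log_prod (fun i hi => (hM i hi).ne'), Real.log_exp]
    have h4 : ∑ i ∈ s, Real.log (M i) + gs ≤ - ∑ i ∈ s, b i := by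
      rw [hgs, ← sum_add_distrib, ← sum_neg_distrib]
      exact sum_le_sum hlog
    have h5 : 2 * cq * (δ + ρ ^ 2) / (1 - ρ) = 2 * cq * δ / (1 - ρ) +
        4 * cq * ρ ^ 2 / (2 * (1 - ρ)) := by
      field_simp
      ring
    have h6 : 2 * cq * δ / (1 - ρ) ≤ 2 * cq * δ / (1 - P) :=
      div_le_div_of_nonneg_left (by positivity) h1P (by linarith)
    rw [h5]
    rcases le_total 0 ρ with h0 | h0
    · have h7 := hη ρ h0 hρP
      have h8 : η * ρ = η * G - η * gs := by rw [hρ]; ring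
      have h9 : η * gs ≤ gs := mul_le_of_le_one_left hgs0 hη1
      linarith
    · have h7 := log_two_neg (-ρ) (by linarith)
      have e1 : 1 + -ρ = 1 - ρ := by ring
      rw [e1, neg_sq] at h7
      have h8 : 4 * cq * ρ ^ 2 / (2 * (1 - ρ)) = ρ ^ 2 / (2 * (1 - ρ)) +
          (2 * cq - 1 / 2) * (ρ ^ 2 / (1 - ρ)) := by
        field_simp
        ring
      have h9 : ρ ^ 2 / (1 - ρ) ≤ - ρ := by
        rw [div_le_iff₀ h1ρ]
        nlinarith
      have h10 : (2 * cq - 1 / 2) * (ρ ^ 2 / (1 - ρ)) ≤ (2 * cq - 1 / 2) * (- ρ) :=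
        mul_le_mul_of_nonneg_left h9 (by linarith)
      rcases le_total 0 (∑ i ∈ s, c i - G) with h11 | h11
      · have h12 : (2 * cq - 1 / 2) * (- ρ) ≤ (2 * cq - 1 / 2) * (∑ i ∈ s, c i - G) :=
          mul_le_mul_of_nonneg_left (by linarith) (by linarith)
        linarith
      · have h12 : ρ = 0 := by linarith
        have h13 : ρ ^ 2 / (2 * (1 - ρ)) = 0 := by rw [h12]; simp
        have h14 : (2 * cq - 1 / 2) * (ρ ^ 2 / (1 - ρ)) = 0 := by rw [h12]; simp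
        have h15 : Real.log (1 - ρ) = 0 := by rw [h12]; simp
        rw [h8, h13, h14, h15]
        linarith
  · have hmG : 2 * (mn fun z => (cq * (W z - ρ) ^ 2 + ρ * W z) / (1 - ρ)) =
        2 * cq * (δ + ρ ^ 2) / (1 - ρ) := by
      have e : (fun z => (cq * (W z - ρ) ^ 2 + ρ * W z) / (1 - ρ)) = fun z =>
          (1 / (1 - ρ)) * ((cq * (W z * W z) + (ρ - 2 * cq * ρ) * W z) + cq * ρ ^ 2) := by
        funext z
        field_simp
        ring
      have h5 : (mn fun z => W z * W z) = δ := by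
        rw [hδd, ← ip_st_self hK.anti]; rfl
      rw [e, mn_mul, mn_add, mn_add, mn_mul, mn_mul, mn_const hK.pos, h5, hW,
        mn_st S hK.anti]
      field_simp
      ring
    rw [hmG]
    rcases le_total 0 ρ with h0 | h0
    · have h1 : 2 * cq * (δ + ρ ^ 2) ≤ 2 * cq * (δ + P * G) := by
        have : ρ ^ 2 ≤ P * G := by
          rw [sq]
          exact mul_le_mul hρP hρG h0 hP0
        nlinarith
      calc 2 * cq * (δ + ρ ^ 2) / (1 - ρ) ≤ 2 * cq * (δ + ρ ^ 2) / (1 - P) :=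
            div_le_div_of_nonneg_left (by positivity) h1P (by linarith)
        _ ≤ 2 * cq * (δ + P * G) / (1 - P) := div_le_div_of_nonneg_right h1 h1P.le
        _ ≤ c' := hc1
    · refine le_trans ?_ hc2
      rw [div_le_iff₀ h1ρ]
      have h9 : ρ ^ 2 ≤ - ρ * (1 - ρ) := by nlinarith
      have h10 : - ρ ≤ ∑ i ∈ s, c i - G := by linarith
      have h11 : δ + ρ ^ 2 ≤ (δ + (∑ i ∈ s, c i - G)) * (1 - ρ) := by
        nlinarith [mul_nonneg hδ0 (show 0 ≤ -ρ by linarith), mul_le_mul_of_nonneg_right h10 h1ρ.le]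
      have := mul_le_mul_of_nonneg_left h11 (show 0 ≤ 2 * cq by linarith)
      linarith

end Pool.Agent.TSM
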