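import Pool.Agent.TSM.Even
import Pool.Agent.TSR.Ind

set_option autoImplicit false

/-!
# The final induction in terms of the families `fam σ e O` (MP_d27362_co)

`closure_fam`: the frozen statement follows from a predicate `Q` on oriented trees which bounds the
mean by one and which can be propagated to every vertex with the children `O 0, …, O (k-1)`, a leaf
(if there is one) and a two-vertex path (if there is one), for a suitable choice of the signs
`σ` (edges) and `e` (states) of all the children.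
-/

namespace Pool.Agent.TSM.Node4

open Finset Polynomial
open Pool.Agent.TSP
open Pool.Agent.TSO
open Pool.Agent.TSR (OBr Ker Br Red Cn2 sg_true sg_false sg_not vS_cons vS_nil vS_mk vS_rev
  vS_nonneg node closure)
open Pool.Agent.TLT (sg)

noncomputable section

/-- the two-vertex path -/
def two : OBr := .cons true .nil .nil

lemma vS_mk_congr {m : ℕ} (S : Fin m → Fin m → ℝ) {l l' : List (Bool × OBr)}
    (h : List.Forall₂ (fun p q => p.1 = q.1 ∧ p.2.vS S = q.2.vS S) l l') :
    (OBr.mk l).vS S = (OBr.mk l').vS S := by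
  induction h with
  | nil => rfl
  | cons h _ ih =>
    funext x
    rw [OBr.mk_cons, OBr.mk_cons, vS_cons, vS_cons, ih, h.1, h.2]

lemma forall2_ofFn {α β : Type} (R : α → β → Prop) : ∀ (k : ℕ) (f : Fin k → α) (g : Fin k → β),
    (∀ i, R (f i) (g i)) → List.Forall₂ R (List.ofFn f) (List.ofFn g)
  | 0, f, g, _ => by rw [List.ofFn_zero, List.ofFn_zero]; exact List.Forall₂.nil
  | (k + 1), f, g, h => by
    rw [List.ofFn_succ, List.ofFn_succ]
    exact List.Forall₂.cons (h 0) (forall2_ofFn R k _ _ fun i => h i.succ)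

/-- reversal of the branch in `node` -/
def er (σ e : Bool) : Bool := decide (e = σ)

lemma cn_congr {m : ℕ} (S : Fin m → Fin m → ℝ) (σ e : Bool) {O O' : OBr}
    (h : ∀ (m : ℕ) (S : Fin m → Fin m → ℝ), O.vS S = O'.vS S) :
    (if er σ e = true then O else O.rev).vS S = (cn σ e O').2.vS S := by
  unfold er cn
  dsimp only
  by_cases he : e = σ
  · rw [if_pos he, if_pos (decide_eq_true he)]
    exact h m S
  · rw [if_neg he, if_neg (by simpa using he), vS_rev, vS_rev]
    exact h m _

lemma cn_nil (σ e : Bool) : cn σ e .nil = (σ, .nil) := by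
  unfold cn
  rw [OBr.rev_nil, ite_self]

lemma cn_two (σ e : Bool) : cn σ e two = (σ, .cons (er σ e) .nil .nil) := by
  unfold cn er two
  by_cases he : e = σ
  · rw [if_pos he, decide_eq_true he]
  · rw [if_neg he, decide_eq_false he]
    rfl

/-- The induction in terms of the families `fam σ e O`. -/
theorem closure_fam (Q : OBr → Prop)
    (s00 : ∀ (k : ℕ) (O : Fin k → OBr), 0 < k → (∀ i, Q (O i)) →
      ∃ σ e : Fin k → Bool, Q (fam σ e O))
    (s10 : ∀ (k : ℕ) (O : Fin k → OBr), 0 < k → (∀ i, Q (O i)) →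
      ∃ σ e : Fin (k + 1) → Bool, Q (fam σ e (Fin.cons .nil O)))
    (s01 : ∀ (k : ℕ) (O : Fin k → OBr), (∀ i, Q (O i)) →
      ∃ σ e : Fin (k + 1) → Bool, Q (fam σ e (Fin.cons two O)))
    (s11 : ∀ (k : ℕ) (O : Fin k → OBr), (∀ i, Q (O i)) →
      ∃ σ e : Fin (k + 1 + 1) → Bool,
        Q (fam σ e (Fin.cons .nil (Fin.cons two O : Fin (k + 1) → OBr))))
    (fin : ∀ O, Q O → ∀ (m : ℕ) (S : Fin m → Fin m → ℝ), Ker S → mn (O.vS S) ≤ 1) :
    ∀ n : ℕ, ∀ T : SimpleGraph (Fin n), T.IsTree →
      ∃ D : Fin n → Fin n → Prop,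
        (∀ u v, T.Adj u v → (D u v ∨ D v u)) ∧
        (∀ u v, D u v → (T.Adj u v ∧ ¬ D v u)) ∧
        ∀ m : ℕ, ∀ G : Fin m → Fin m → Prop,
          (∀ a, ¬ G a a) →
          (∀ a b, a ≠ b → (G a b ↔ ¬ G b a)) →
          (({f : Fin n → Fin m | ∀ u v, D u v → G (f u) (f v)}.ncard : ℝ) / (m : ℝ) ^ n
            ≤ ((1 : ℝ) / 2) ^ (T.edgeSet.ncard)) := by
  refine closure (fun O => ∃ O' : OBr, (∀ (m : ℕ) (S : Fin m → Fin m → ℝ),
    O.vS S = O'.vS S) ∧ Q O') ?_ ?_ ?_
  · rintro O O' h ⟨O'', h1, h2⟩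
    exact ⟨O'', fun m S => (h m S).symm.trans (h1 m S), h2⟩
  · intro lf tw k c hc hne
    choose O hO1 hO2 using hc
    cases lf <;> cases tw
    · have hk : 0 < k := by
        rcases hne with h | h
        · exact absurd h (by simp)
        · exact h
      obtain ⟨σ, e, hQ⟩ := s00 k O hk hO2
      refine ⟨true, true, true, σ, fun i => er (σ i) (e i), _, fun m S => ?_, hQ⟩
      unfold node fam
      rw [if_neg (by simp), if_neg (by simp), List.nil_append, List.nil_append]
      exact vS_mk_congr S (forall2_ofFn _ _ _ _ fun i => ⟨rfl, cn_congr S _ _ (hO1 i)⟩)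
    · obtain ⟨σ, e, hQ⟩ := s01 k O hO2
      refine ⟨true, σ 0, er (σ 0) (e 0), fun i => σ i.succ,
        fun i => er (σ i.succ) (e i.succ), _, fun m S => ?_, hQ⟩
      unfold node fam
      rw [if_neg (by simp), if_pos rfl, List.nil_append, List.singleton_append,
        List.ofFn_succ]
      refine vS_mk_congr S (List.Forall₂.cons ?_ (forall2_ofFn _ _ _ _ fun i => ?_))
      · rw [Fin.cons_zero, cn_two]
        exact ⟨rfl, rfl⟩
      · rw [Fin.cons_succ]
        exact ⟨rfl, cn_congr S _ _ (hO1 i)⟩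
    · have hk : 0 < k := by
        rcases hne with h | h
        · exact absurd h (by simp)
        · exact h
      obtain ⟨σ, e, hQ⟩ := s10 k O hk hO2
      refine ⟨σ 0, true, true, fun i => σ i.succ,
        fun i => er (σ i.succ) (e i.succ), _, fun m S => ?_, hQ⟩
      unfold node fam
      rw [if_pos rfl, if_neg (by simp), List.nil_append, List.singleton_append,
        List.ofFn_succ]
      refine vS_mk_congr S (List.Forall₂.cons ?_ (forall2_ofFn _ _ _ _ fun i => ?_))
      · rw [Fin.cons_zero, cn_nil]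
        exact ⟨rfl, rfl⟩
      · rw [Fin.cons_succ]
        exact ⟨rfl, cn_congr S _ _ (hO1 i)⟩
    · obtain ⟨σ, e, hQ⟩ := s11 k O hO2
      refine ⟨σ 0, σ (Fin.succ 0), er (σ (Fin.succ 0)) (e (Fin.succ 0)),
        fun i => σ i.succ.succ, fun i => er (σ i.succ.succ) (e i.succ.succ), _,
        fun m S => ?_, hQ⟩
      unfold node fam
      rw [if_pos rfl, if_pos rfl, List.singleton_append, List.singleton_append,
        List.ofFn_succ, List.ofFn_succ]
      refine vS_mk_congr S (List.Forall₂.cons ?_ (List.Forall₂.cons ?_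
        (forall2_ofFn _ _ _ _ fun i => ?_)))
      · rw [Fin.cons_zero, cn_nil]
        exact ⟨rfl, rfl⟩
      · rw [Fin.cons_succ, Fin.cons_zero, cn_two]
        exact ⟨rfl, rfl⟩
      · rw [Fin.cons_succ, Fin.cons_succ]
        exact ⟨rfl, cn_congr S _ _ (hO1 i)⟩
  · rintro O ⟨O', h1, h2⟩ m S hS
    rw [h1 m S]
    exact fin O' h2 m S hS

end

end Pool.Agent.TSM.Node4
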