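import Pool.Agent.TSM.Fam

set_option autoImplicit false

/-!
# Balanced signs with roles (MP_d27362_co)

The children are sorted by the value of `y` at `q0` and paired; the larger one of a pair has the
role `+`, the smaller one the role `-`. The square of the value of the signed sum is at most the
sum of the squares with the signs of the roles.
-/

namespace Pool.Agent.TSR

open Finset Polynomial
open Pool.Agent.TLT (sg)
open Pool.Agent.TDN (dn dn_nonneg dn_zero dn_neg dn_add_le dn_parallelogram)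

variable {T : ℝ}

lemma spr_nonneg (p : ℕ → ℝ[X]) (hp : Antitone fun i => (p i).eval T) (n : ℕ) :
    0 ≤ spr T p n := by
  unfold spr
  refine sum_nonneg fun j _ => ?_
  have : (p (2 * j + 1)).eval T ≤ (p (2 * j)).eval T := hp (by omega)
  linarith

lemma spr_le (p : ℕ → ℝ[X]) (hp : Antitone fun i => (p i).eval T)
    (h0 : ∀ i, 0 ≤ (p i).eval T) (n : ℕ) : spr T p n ≤ (p 0).eval T := by
  have h1 := spr_shift (T := T) p n
  have h2 : 0 ≤ spr T (fun i => p (i + 1)) n :=
    spr_nonneg (fun i => p (i + 1)) (fun i j hij => hp (by omega)) n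
  have := h0 (2 * n)
  linarith

/-- the square of an alternating sum of a decreasing sequence -/
lemma spr_sq (n : ℕ) : ∀ p : ℕ → ℝ[X], (Antitone fun i => (p i).eval T) →
    (∀ i, 0 ≤ (p i).eval T) →
    spr T p n ^ 2 ≤ ∑ j ∈ range n, ((p (2 * j)).eval T ^ 2 - (p (2 * j + 1)).eval T ^ 2) := by
  induction n with
  | zero => intro p _ _; simp [spr]
  | succ n ih =>
    intro p hp h0
    have h1 := ih (fun i => p (i + 2)) (fun i j hij => hp (by omega)) (fun i => h0 _)
    have e0 : ∀ k : ℕ, 2 * (k + 1) = 2 * k + 2 := fun k => by ring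
    have e1 : spr T p (n + 1) = spr T (fun i => p (i + 2)) n +
        ((p 0).eval T - (p 1).eval T) := by
      unfold spr
      rw [sum_range_succ']
      simp only [e0]
    have e2 : ∑ j ∈ range (n + 1), ((p (2 * j)).eval T ^ 2 - (p (2 * j + 1)).eval T ^ 2) =
        ∑ j ∈ range n, ((p (2 * j + 2)).eval T ^ 2 - (p (2 * j + 1 + 2)).eval T ^ 2) +
        ((p 0).eval T ^ 2 - (p 1).eval T ^ 2) := by
      rw [sum_range_succ']
      simp only [e0]
    have h2 := spr_le (T := T) (fun i => p (i + 2)) (fun i j hij => hp (by omega))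
      (fun i => h0 _) n
    have h3 := spr_nonneg (T := T) (fun i => p (i + 2)) (fun i j hij => hp (by omega)) n
    have h4 : (p 2).eval T ≤ (p 1).eval T := hp (by omega)
    have h5 : (p 1).eval T ≤ (p 0).eval T := hp (by omega)
    simp only [zero_add] at h2
    rw [e1, e2]
    have h6 : 0 ≤ ((p 0).eval T - (p 1).eval T) * ((p 1).eval T - spr T (fun i => p (i + 2)) n) :=
      mul_nonneg (by linarith) (by linarith)
    nlinarith

/-- the roles of the members of a sorted sequence -/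
def rol (i : ℕ) : Bool := decide (i % 2 = 0)

lemma rol_even (j : ℕ) : rol (2 * j) = true := by
  unfold rol
  simp

lemma rol_odd (j : ℕ) : rol (2 * j + 1) = false := by
  unfold rol
  rw [decide_eq_false_iff_not]
  omega

lemma sum_rol (f : ℕ → ℝ) (n : ℕ) : ∑ i ∈ range (2 * n), sg (rol i) * f i =
    ∑ j ∈ range n, (f (2 * j) - f (2 * j + 1)) := by
  induction n with
  | zero => simp
  | succ n ih =>
    have e : 2 * (n + 1) = 2 * n + 1 + 1 := by ring
    rw [e, sum_range_succ, sum_range_succ, sum_range_succ, ih, rol_even, rol_odd, sg_tt, sg_ff]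
    ring

/-- **balanced signs with roles** -/
theorem pair_role {ι : Type*} [Fintype ι] (hT : 0 ≤ T) (p : ι → ℝ[X]) (c : ℝ) (hc0 : 0 ≤ c)
    (h0 : ∀ i, 0 ≤ (p i).eval T) (hc : ∀ i, (p i).eval T ≤ c) :
    ∃ (s ρ : ι → Bool) (z : Bool),
      (Even (Fintype.card ι) → ∑ i, sg (s i) = 0 ∧ ∑ i, sg (ρ i) = 0) ∧
      (Odd (Fintype.card ι) → ∑ i, sg (s i) = - sg z ∧ ∑ i, sg (ρ i) = 1) ∧
      0 ≤ (∑ i, sg (s i) • p i).eval T ∧ (∑ i, sg (s i) • p i).eval T ≤ c ∧
      (∑ i, sg (s i) • p i).eval T ^ 2 ≤ ∑ i, sg (ρ i) * (p i).eval T ^ 2 ∧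
      dn T (∑ i, sg (s i) • p i) ^ 2 ≤ 2 * ∑ i, dn T (p i) ^ 2 := by
  obtain ⟨r, a, ha1, ha2, ha3, ha4⟩ := exists_seq (T := T) p h0
  -- the number of pairs
  obtain ⟨n, hn⟩ : ∃ n, n = (Fintype.card ι + 1) / 2 := ⟨_, rfl⟩
  have hle : Fintype.card ι ≤ 2 * n := by omega
  obtain ⟨s, h1, h2, h3⟩ := pairs_spr hT a ha1 n
  have e1 : ss s a (2 * n) = ∑ i, sg (s (r.symm i)) • p i := by
    rw [ss_ext s a hle ha3]
    exact ss_fam r p a ha4 s
  have e2 : ∑ i ∈ range (2 * n), dn T (a i) ^ 2 = ∑ i, dn T (p i) ^ 2 := by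
    rw [sum_ext (fun i => dn T (a i) ^ 2) hle fun i hi => by
      show dn T (a i) ^ 2 = 0
      rw [ha3 i hi, dn_zero]; norm_num]
    exact sum_sorted r (fun i => dn T (p i) ^ 2) _ fun i => by rw [ha4]
  have e3 : ∑ i ∈ range (2 * n), sg (rol i) * (a i).eval T ^ 2 =
      ∑ i, sg (rol (r.symm i)) * (p i).eval T ^ 2 := by
    rw [sum_ext (fun i => sg (rol i) * (a i).eval T ^ 2) hle fun i hi => by
      show sg (rol i) * (a i).eval T ^ 2 = 0
      rw [ha3 i hi, eval_zero]; norm_num]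
    exact sum_sorted r (fun i => sg (rol (r.symm i)) * (p i).eval T ^ 2) _ fun i => by
      rw [ha4, Equiv.symm_apply_apply]
  have h4 : (ss s a (2 * n)).eval T ^ 2 ≤ ∑ i, sg (rol (r.symm i)) * (p i).eval T ^ 2 := by
    rw [← e3, sum_rol fun i => (a i).eval T ^ 2]
    refine le_trans ?_ (spr_sq n a ha1 ha2)
    rw [← sq_abs]
    exact pow_le_pow_left₀ (abs_nonneg _) h2 2
  have ha0 : (a 0).eval T ≤ c := by
    by_cases hi : 0 < Fintype.card ι
    · rw [ha4 ⟨0, hi⟩]; exact hc _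
    · rw [ha3 0 (by omega), eval_zero]; exact hc0
  have h5 : |(ss s a (2 * n)).eval T| ≤ c := (h2.trans (spr_le a ha1 ha2 n)).trans ha0
  rw [e1] at h3 h4 h5
  rw [e2] at h3
  -- the sum of the signs
  have h6 : ∀ t : ℕ → Bool, ∑ i ∈ range (Fintype.card ι), sg (t i) = ∑ i, sg (t (r.symm i)) := fun t =>
    sum_sorted r (fun i => sg (t (r.symm i))) _ fun i => by rw [Equiv.symm_apply_apply]
  have h7 : ∑ i ∈ range (2 * n), sg (rol i) = 0 := by
    have := sum_rol (fun _ => 1) n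
    simpa using this
  have hE : Even (Fintype.card ι) → 2 * n = Fintype.card ι := by
    rintro ⟨k, hk⟩
    omega
  have hO : Odd (Fintype.card ι) → 2 * n = Fintype.card ι + 1 := by
    rintro ⟨k, hk⟩
    omega
  obtain ⟨e, h8, h9, h10, h11⟩ := global_flip (T := T) (fun i => s (r.symm i)) p c h5
  refine ⟨e, fun i => rol (r.symm i), if e = (fun i => s (r.symm i)) then s (Fintype.card ι) else
      !(s (Fintype.card ι)),
    fun hev => ⟨?_, ?_⟩, fun hodd => ⟨?_, ?_⟩, h9, h10, ?_, by rw [h11]; exact h3⟩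
  · rw [hE hev, h6] at h1
    rcases h8 with rfl | rfl
    · exact h1
    · simp only [sg_not', sum_neg_distrib, h1, neg_zero]
  · rw [hE hev, h6] at h7
    exact h7
  · rw [hO hodd, sum_range_succ, h6] at h1
    rcases h8 with rfl | rfl
    · rw [if_pos rfl]
      linarith
    · have hne : Nonempty ι := Fintype.card_pos_iff.mp hodd.pos
      have h12 : ¬ ((fun i => !(s (r.symm i))) = fun i => s (r.symm i)) := by
        intro h
        have := congrFun h hne.some
        simp at this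
      rw [if_neg h12, sg_not']
      simp only [sg_not', sum_neg_distrib]
      linarith
  · rw [hO hodd, sum_range_succ, h6] at h7
    have h12 : sg (rol (Fintype.card ι)) = -1 := by
      obtain ⟨k, hk⟩ := hodd
      rw [hk, rol_odd, sg_ff]
    rw [h12] at h7
    linarith
  · have h12 : (∑ i, sg (e i) • p i).eval T ^ 2 = (∑ i, sg (s (r.symm i)) • p i).eval T ^ 2 := by
      rcases h8 with rfl | rfl
      · rfl
      · rw [sum_flip, eval_neg, neg_sq]
    rw [h12]
    exact h4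

end Pool.Agent.TSR

namespace Pool.Agent.TSM

open Finset Polynomial
open Pool.Agent.TSR (OBr pair_role)
open Pool.Agent.TLT (sg)
open Pool.Agent.TDN (dn dn_nonneg)

noncomputable section

/-- what the children of a family are: `N` are the nontrivial ones -/
structure FamO {K : ℕ} (O : Fin K → OBr) (N : Finset (Fin K)) : Prop where
  hN : ∀ i ∉ N, O i = .nil ∨ O i = two
  hI : ∀ i, Inv (O i)

variable {K : ℕ} {O : Fin K → OBr} {N : Finset (Fin K)}

lemma FamO.YY0 (h : FamO O N) {i : Fin K} (hi : i ∉ N) : YY (O i) = 0 := by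
  rcases h.hN i hi with h | h <;> rw [h] <;> simp

lemma FamO.UU0 (h : FamO O N) {i : Fin K} (hi : i ∉ N) : UU (O i) = 0 := by
  rcases h.hN i hi with h | h <;> rw [h] <;> simp

/-- signs of the edges of the nontrivial children, with their roles -/
theorem FamO.sig (h : FamO O N) : ∃ (s ρ : Fin K → Bool) (z : Bool),
    (Even N.card → ∑ i ∈ N, sg (s i) = 0 ∧ ∑ i ∈ N, sg (ρ i) = 0) ∧
    (Odd N.card → ∑ i ∈ N, sg (s i) = - sg z ∧ ∑ i ∈ N, sg (ρ i) = 1) ∧
    ∀ σ : Fin K → Bool, (∀ i ∈ N, σ i = s i) → ∀ e : Fin K → Bool,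
      0 ≤ vU (fam σ e O) ∧ vU (fam σ e O) ≤ 2 ∧
      vU (fam σ e O) ^ 2 ≤ ∑ i, sg (ρ i) * vY (O i) ^ 2 ∧
      aU (fam σ e O) ^ 2 ≤ 2 * ∑ i, aY (O i) ^ 2 := by
  classical
  obtain ⟨s, ρ, z, h1, h2, h3, h4, h5, h6⟩ := pair_role (T := q0) q0_pos.le
    (fun i : N => YY (O i)) 2 (by norm_num) (fun i => (h.hI i).2.2.2.1)
    (fun i => (h.hI i).2.2.2.2)
  rw [Fintype.card_coe] at h1 h2
  set s' : Fin K → Bool := fun i => if hi : i ∈ N then s ⟨i, hi⟩ else true with hs'
  set ρ' : Fin K → Bool := fun i => if hi : i ∈ N then ρ ⟨i, hi⟩ else true with hρ'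
  have es : ∀ i : N, s' i = s i := by
    intro i
    rw [hs']
    simp only
    rw [dif_pos i.2]
  have eρ : ∀ i : N, ρ' i = ρ i := by
    intro i
    rw [hρ']
    simp only
    rw [dif_pos i.2]
  have S1 : ∀ f : Fin K → ℝ, ∑ i ∈ N, f i = ∑ i : N, f i := fun f =>
    (sum_coe_sort N f).symm
  have S2 : ∀ f : Fin K → ℝ, (∀ i ∉ N, f i = 0) → ∑ i, f i = ∑ i : N, f i := by
    intro f hf
    rw [← S1, ← sum_subset (subset_univ N)]
    intro i _ hi
    exact hf i hi
  have S3 : ∀ f : Fin K → ℝ[X], (∀ i ∉ N, f i = 0) → ∑ i, f i = ∑ i : N, f i := by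
    intro f hf
    rw [sum_coe_sort N f, ← sum_subset (subset_univ N)]
    intro i _ hi
    exact hf i hi
  refine ⟨s', ρ', z, fun hE => ?_, fun hO => ?_, fun σ hσ e => ?_⟩
  · rw [S1, S1]
    simp only [es, eρ]
    exact h1 hE
  · rw [S1, S1]
    simp only [es, eρ]
    exact h2 hO
  · have eU : UU (fam σ e O) = ∑ i : N, sg (s i) • YY (O i) := by
      rw [fam_UU, S3 _ fun i hi => by rw [h.YY0 hi, smul_zero]]
      exact sum_congr rfl fun i _ => by rw [hσ i i.2, es]
    have ev : ∑ i, sg (ρ' i) * vY (O i) ^ 2 = ∑ i : N, sg (ρ i) * (YY (O i)).eval q0 ^ 2 := by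
      rw [S2 _ fun i hi => by unfold vY; rw [h.YY0 hi, eval_zero]; norm_num]
      exact sum_congr rfl fun i _ => by rw [eρ]; rfl
    have ea : ∑ i, aY (O i) ^ 2 = ∑ i : N, dn q0 (YY (O i)) ^ 2 := by
      rw [S2 _ fun i hi => by unfold aY; rw [h.YY0 hi, TDN.dn_zero]; norm_num]
      rfl
    rw [ev, ea]
    unfold vU aU
    rw [eU]
    exact ⟨h3, h4, h5, h6⟩

end

end Pool.Agent.TSM
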