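import Pool.Agent.TSM.Dich
import Pool.Agent.TSM.Role

set_option autoImplicit false

/-!
# The label rule with the full norm (MP_d27362_co)

The square of the full norm of `p` is `p(T)² + κ ‖p‖²`. It is a Hilbert seminorm, so all flips of
the pairs of the two sorted classes can be chosen such that the square of the full norm of the sum
is at most the sum of the squares of the full norms of the differences inside the pairs.
-/

namespace Pool.Agent.TSR

open Finset Polynomial
open Pool.Agent.TLT (sg)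
open Pool.Agent.TDN (dn dn_nonneg dn_zero dn_neg dn_add_le dn_parallelogram)

variable {T : ℝ}

/-- the square of the full norm -/
noncomputable def nn (T κ : ℝ) (p : ℝ[X]) : ℝ := p.eval T ^ 2 + κ * dn T p ^ 2

lemma nn_zero (T κ : ℝ) : nn T κ 0 = 0 := by
  unfold nn
  rw [eval_zero, dn_zero]
  norm_num

lemma nn_neg (T κ : ℝ) (p : ℝ[X]) : nn T κ (-p) = nn T κ p := by
  unfold nn
  rw [eval_neg, dn_neg, neg_sq]

lemma nn_par (hT : 0 ≤ T) (κ : ℝ) (p q : ℝ[X]) :
    nn T κ (p + q) + nn T κ (p - q) = 2 * nn T κ p + 2 * nn T κ q := by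
  have h := dn_parallelogram T hT p q
  unfold nn
  rw [eval_add, eval_sub]
  linear_combination κ * h

/-- the flip for the full norm -/
lemma nflip (hT : 0 ≤ T) (κ : ℝ) (A F : ℝ[X]) :
    ∃ b : Bool, nn T κ (sg b • A + F) ≤ nn T κ F + nn T κ A := by
  have h := nn_par hT κ F A
  rcases le_total (nn T κ (F + A)) (nn T κ (F - A)) with h1 | h1
  · refine ⟨true, ?_⟩
    rw [sg_tt, one_smul, add_comm]
    linarith
  · refine ⟨false, ?_⟩
    rw [sg_ff, neg_one_smul, add_comm, ← sub_eq_add_neg]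
    linarith

lemma nn_sub_le (hT : 0 ≤ T) {κ : ℝ} (hκ : 0 ≤ κ) (p q : ℝ[X]) :
    nn T κ (p - q) ≤ (p.eval T - q.eval T) ^ 2 + 2 * κ * (dn T p ^ 2 + dn T q ^ 2) := by
  have h := mul_le_mul_of_nonneg_left (dn_sub_sq_le hT p q) hκ
  unfold nn
  rw [eval_sub]
  linarith

/-- pairs of a decreasing sequence, the flips are chosen with the full norm -/
theorem pairs_nn (hT : 0 ≤ T) {κ : ℝ} (hκ : 0 ≤ κ) (p : ℕ → ℝ[X])
    (ha : Antitone fun i => (p i).eval T) (n : ℕ) :
    ∃ s : ℕ → Bool, ∑ i ∈ range (2 * n), sg (s i) = 0 ∧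
      |(ss s p (2 * n)).eval T| ≤ spr T p n ∧
      nn T κ (ss s p (2 * n)) ≤ ∑ j ∈ range n,
        ((p (2 * j)).eval T - (p (2 * j + 1)).eval T) ^ 2 +
        2 * κ * ∑ i ∈ range (2 * n), dn T (p i) ^ 2 := by
  induction n with
  | zero => exact ⟨fun _ => true, by simp, by simp [ss, spr], by simp [ss, nn_zero]⟩
  | succ n ih =>
    obtain ⟨s, h0, h1, h2⟩ := ih
    obtain ⟨b, hb⟩ := nflip hT κ (p (2 * n) - p (2 * n + 1)) (ss s p (2 * n))
    set s' : ℕ → Bool := fun i => if i < 2 * n then s i else if i = 2 * n then b else !b with hs'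
    have e0 : ∀ i ∈ range (2 * n), s' i = s i := by
      intro i hi
      rw [hs']
      simp only
      rw [if_pos (mem_range.mp hi)]
    have e1 : s' (2 * n) = b := by
      rw [hs']
      simp
    have e2 : s' (2 * n + 1) = !b := by
      rw [hs']
      simp
    have e3 : 2 * (n + 1) = 2 * n + 1 + 1 := by ring
    have e4 : ss s' p (2 * (n + 1)) =
        sg b • (p (2 * n) - p (2 * n + 1)) + ss s p (2 * n) := by
      unfold ss
      rw [e3, sum_range_succ, sum_range_succ, e1, e2, sg_not',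
        sum_congr rfl fun i hi => by rw [e0 i hi], smul_sub, neg_smul]
      abel
    refine ⟨s', ?_, ?_, ?_⟩
    · rw [e3, sum_range_succ, sum_range_succ, e1, e2, sg_not',
        sum_congr rfl fun i hi => by rw [e0 i hi], h0]
      ring
    · rw [e4, eval_add, eval_smul, smul_eq_mul, eval_sub, spr_succ]
      refine (abs_add_le _ _).trans ?_
      rw [abs_mul, sg_abs, one_mul]
      have h5 : (p (2 * n + 1)).eval T ≤ (p (2 * n)).eval T := ha (by omega)
      rw [abs_of_nonneg (by linarith : 0 ≤ (p (2 * n)).eval T - (p (2 * n + 1)).eval T)]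
      linarith
    · rw [e4, e3, sum_range_succ, sum_range_succ, sum_range_succ]
      have := nn_sub_le hT hκ (p (2 * n)) (p (2 * n + 1))
      linarith

/-- the sums of the squares of the differences inside the pairs -/
lemma pair_sums (p : ℕ → ℝ[X]) (ha : Antitone fun i => (p i).eval T)
    (h0 : ∀ i, 0 ≤ (p i).eval T) {c : ℝ} (hc : ∀ i, (p i).eval T ≤ c) (n : ℕ) :
    ∑ j ∈ range n, ((p (2 * j)).eval T - (p (2 * j + 1)).eval T) ^ 2 ≤
        ∑ i ∈ range (2 * n), (p i).eval T ^ 2 ∧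
      ∑ j ∈ range n, ((p (2 * j)).eval T - (p (2 * j + 1)).eval T) ^ 2 ≤
        ∑ i ∈ range (2 * n), sg (rol i) * (p i).eval T ^ 2 ∧
      ∑ j ∈ range n, ((p (2 * j)).eval T - (p (2 * j + 1)).eval T) ^ 2 ≤
        c * ∑ i ∈ range (2 * n), sg (rol i) * (p i).eval T := by
  rw [sum_rol fun i => (p i).eval T ^ 2, sum_rol fun i => (p i).eval T]
  refine ⟨?_, ?_, ?_⟩
  · induction n with
    | zero => simp
    | succ n ih =>
      have e3 : 2 * (n + 1) = 2 * n + 1 + 1 := by ring
      rw [e3, sum_range_succ, sum_range_succ, sum_range_succ]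
      have g1 := h0 (2 * n)
      have g2 := h0 (2 * n + 1)
      nlinarith [mul_nonneg g1 g2]
  · refine sum_le_sum fun j _ => ?_
    have g1 := h0 (2 * j)
    have g2 := h0 (2 * j + 1)
    have g3 : (p (2 * j + 1)).eval T ≤ (p (2 * j)).eval T := ha (by omega)
    nlinarith
  · rw [mul_sum]
    refine sum_le_sum fun j _ => ?_
    have g1 := hc (2 * j)
    have g2 := h0 (2 * j + 1)
    have g3 : (p (2 * j + 1)).eval T ≤ (p (2 * j)).eval T := ha (by omega)
    nlinarith

/-! ### finite families -/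

section

variable {ι : Type*} [Fintype ι] (cl : ι → Prop) [DecidablePred cl]

/-- what is known when the flips are chosen with the full norm; `r` are the roles -/
structure NB (T κ c : ℝ) (p : ι → ℝ[X]) (r : ι → Bool) (G : ℝ[X]) : Prop where
  h1 : nn T κ G ≤ ∑ i, (p i).eval T ^ 2 + 2 * κ * ∑ i, dn T (p i) ^ 2
  h2 : nn T κ G ≤ ∑ i, sg (r i) * (p i).eval T ^ 2 + 2 * κ * ∑ i, dn T (p i) ^ 2
  h3 : nn T κ G ≤ c * ∑ i, sg (r i) * (p i).eval T + 2 * κ * ∑ i, dn T (p i) ^ 2
  h4 : |G.eval T| ≤ ∑ i, sg (r i) * (p i).eval T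
  h5 : |G.eval T| ≤ 2 * c

/-- **the dichotomy with the full norm**: the class has an even number of members and the sum of
their signs is zero; `r` are the roles in both classes -/
theorem norm_dich (hT : 0 ≤ T) (hev : Even (Fintype.card {i // cl i})) (p : ι → ℝ[X]) (c : ℝ)
    (hc0 : 0 ≤ c) (h0 : ∀ i, 0 ≤ (p i).eval T) (hc : ∀ i, (p i).eval T ≤ c) {κ : ℝ}
    (hκ : 0 ≤ κ) :
    ∃ r : ι → Bool, ∑ i : {i // cl i}, sg (r i) = 0 ∧
      (Even (Fintype.card {i // ¬ cl i}) → ∑ i : {i // ¬ cl i}, sg (r i) = 0) ∧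
      (Odd (Fintype.card {i // ¬ cl i}) → ∑ i : {i // ¬ cl i}, sg (r i) = 1) ∧
      ((∃ e : ι → Bool, ∑ i : {i // cl i}, sg (e i) = 0 ∧
        |(∑ i, sg (e i) • p i).eval T| ≤ c ∧
        (∑ i, sg (e i) • p i).eval T ^ 2 ≤ 2 * ∑ i, (p i).eval T ^ 2 ∧
        dn T (∑ i, sg (e i) • p i) ^ 2 ≤ 2 * ∑ i, dn T (p i) ^ 2) ∨
      (c < ∑ i, sg (r i) * (p i).eval T ∧ ∃ e : ι → Bool, ∑ i : {i // cl i}, sg (e i) = 0 ∧
        NB T κ c p r (∑ i, sg (e i) • p i))) := by
  obtain ⟨k', hk'⟩ := hev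
  obtain ⟨r, a, ha1, ha2, ha3, ha4⟩ := exists_seq (T := T) (fun i : {i // cl i} => p i)
    (fun i => h0 i)
  obtain ⟨r', b, hb1, hb2, hb3, hb4⟩ := exists_seq (T := T) (fun i : {i // ¬ cl i} => p i)
    (fun i => h0 i)
  obtain ⟨M, hM⟩ : ∃ M, M = (Fintype.card {i // ¬ cl i} + 1) / 2 := ⟨_, rfl⟩
  have hle' : Fintype.card {i // ¬ cl i} ≤ 2 * M := by omega
  have hle : Fintype.card {i // cl i} ≤ 2 * k' := by omega
  have ha0 := seq_le r (fun i : {i // cl i} => p i) a ha3 ha4 hc0 (fun i => hc i)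
  have hb0 := seq_le r' (fun i : {i // ¬ cl i} => p i) b hb3 hb4 hc0 (fun i => hc i)
  -- the glued signs
  have key : ∀ (s t : ℕ → Bool),
      ∑ i, sg (glue cl (fun i => s (r.symm i)) (fun i => t (r'.symm i)) i) • p i =
        ss s a (2 * k') + ss t b (2 * M) := by
    intro s t
    rw [glue_sum, ss_ext s a hle ha3, ss_ext t b hle' hb3,
      ss_fam r (fun i : {i // cl i} => p i) a ha4 s,
      ss_fam r' (fun i : {i // ¬ cl i} => p i) b hb4 t]
  have key2 : ∀ (s t : ℕ → Bool),
      ∑ i : {i // cl i}, sg (glue cl (fun i => s (r.symm i)) (fun i => t (r'.symm i)) i) =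
        ∑ i ∈ range (Fintype.card {i // cl i}), sg (s i) := by
    intro s t
    rw [sum_sorted r (fun i => sg (s (r.symm i))) (fun i => sg (s i)) fun i => by
      rw [Equiv.symm_apply_apply]]
    exact sum_congr rfl fun i _ => by rw [glue_pos]
  have key3 : ∀ (s t : ℕ → Bool),
      ∑ i : {i // ¬ cl i}, sg (glue cl (fun i => s (r.symm i)) (fun i => t (r'.symm i)) i) =
        ∑ i ∈ range (Fintype.card {i // ¬ cl i}), sg (t i) := by
    intro s t
    rw [sum_sorted r' (fun i => sg (t (r'.symm i))) (fun i => sg (t i)) fun i => by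
      rw [Equiv.symm_apply_apply]]
    exact sum_congr rfl fun i _ => by rw [glue_neg]
  have e3 : ∑ i ∈ range (2 * k'), dn T (a i) ^ 2 = ∑ i : {i // cl i}, dn T (p i) ^ 2 :=
    seq_sum r (fun i : {i // cl i} => p i) a ha3 ha4 (fun q => dn T q ^ 2)
      (by show dn T 0 ^ 2 = 0; rw [dn_zero]; norm_num) hle
  have e4 : ∑ i ∈ range (2 * M), dn T (b i) ^ 2 = ∑ i : {i // ¬ cl i}, dn T (p i) ^ 2 :=
    seq_sum r' (fun i : {i // ¬ cl i} => p i) b hb3 hb4 (fun q => dn T q ^ 2)
      (by show dn T 0 ^ 2 = 0; rw [dn_zero]; norm_num) hle'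
  have e5 : ∑ i ∈ range (2 * k'), (a i).eval T ^ 2 = ∑ i : {i // cl i}, (p i).eval T ^ 2 :=
    seq_sum r (fun i : {i // cl i} => p i) a ha3 ha4 (fun q => q.eval T ^ 2)
      (by show (0 : ℝ[X]).eval T ^ 2 = 0; rw [eval_zero]; norm_num) hle
  have e6 : ∑ i ∈ range (2 * M), (b i).eval T ^ 2 = ∑ i : {i // ¬ cl i}, (p i).eval T ^ 2 :=
    seq_sum r' (fun i : {i // ¬ cl i} => p i) b hb3 hb4 (fun q => q.eval T ^ 2)
      (by show (0 : ℝ[X]).eval T ^ 2 = 0; rw [eval_zero]; norm_num) hle'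
  -- the roles
  set ρ : ι → Bool := glue cl (fun i => rol (r.symm i)) (fun i => rol (r'.symm i)) with hρ
  have f1 : ∀ f : ℝ → ℝ, f 0 = 0 → ∑ i, sg (ρ i) * f ((p i).eval T) =
      ∑ i ∈ range (2 * k'), sg (rol i) * f ((a i).eval T) +
        ∑ i ∈ range (2 * M), sg (rol i) * f ((b i).eval T) := by
    intro f hf
    rw [sum_cl cl fun i => sg (ρ i) * f ((p i).eval T)]
    congr 1
    · rw [sum_ext (fun i => sg (rol i) * f ((a i).eval T)) hle fun i hi => by
        show sg (rol i) * f ((a i).eval T) = 0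
        rw [ha3 i hi, eval_zero, hf, mul_zero]]
      rw [sum_sorted r (fun i : {i // cl i} => sg (ρ i) * f ((p i).eval T))
        (fun i => sg (rol i) * f ((a i).eval T)) fun i => by
          show sg (rol i) * f ((a i).eval T) = _
          rw [ha4, hρ, glue_pos, Equiv.symm_apply_apply]]
    · rw [sum_ext (fun i => sg (rol i) * f ((b i).eval T)) hle' fun i hi => by
        show sg (rol i) * f ((b i).eval T) = 0
        rw [hb3 i hi, eval_zero, hf, mul_zero]]
      rw [sum_sorted r' (fun i : {i // ¬ cl i} => sg (ρ i) * f ((p i).eval T))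
        (fun i => sg (rol i) * f ((b i).eval T)) fun i => by
          show sg (rol i) * f ((b i).eval T) = _
          rw [hb4, hρ, glue_neg, Equiv.symm_apply_apply]]
  have f2 := f1 (fun x => x ^ 2) (by norm_num)
  have f3 := f1 (fun x => x) rfl
  have hrol : ∀ n : ℕ, ∑ i ∈ range (2 * n), sg (rol i) = 0 := by
    intro n
    have := sum_rol (fun _ => 1) n
    simpa using this
  have f4 : ∀ (q : ℕ → ℝ[X]) (n : ℕ), spr T q n =
      ∑ i ∈ range (2 * n), sg (rol i) * (q i).eval T := by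
    intro q n
    rw [sum_rol fun i => (q i).eval T]
    rfl
  have f5 : spr T a k' + spr T b M = ∑ i, sg (ρ i) * (p i).eval T := by
    rw [f4, f4, f3]
  refine ⟨ρ, ?_, fun hE => ?_, fun hO => ?_, ?_⟩
  · rw [hρ, key2]
    have : Fintype.card {i // cl i} = 2 * k' := by omega
    rw [this]
    exact hrol k'
  · rw [hρ, key3]
    have : Fintype.card {i // ¬ cl i} = 2 * M := by
      obtain ⟨q, hq⟩ := hE
      omega
    rw [this]
    exact hrol M
  · rw [hρ, key3]
    obtain ⟨q, hq⟩ := hO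
    have hMq : M = q + 1 := by omega
    have h7 := hrol M
    have h8 : 2 * M = 2 * q + 1 + 1 := by omega
    rw [h8, sum_range_succ, rol_odd, sg_ff] at h7
    rw [hq]
    linarith
  · rcases le_or_gt (∑ i, sg (ρ i) * (p i).eval T) c with h | h
    · left
      obtain ⟨s1, h1, h2, h3⟩ := pairs_spr hT a ha1 k'
      obtain ⟨t1, h4, h5, h6⟩ := pairs_spr hT b hb1 M
      obtain ⟨z, hz⟩ := flip2 hT (ss t1 b (2 * M)) (ss s1 a (2 * k'))
      have e7 := key s1 (fun i => t1 i == z)
      rw [ss_beq] at e7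
      have h7 : |(ss s1 a (2 * k') + sg z • ss t1 b (2 * M)).eval T| ≤
          spr T a k' + spr T b M := by
        rw [eval_add, eval_smul, smul_eq_mul]
        refine (abs_add_le _ _).trans (add_le_add h2 ?_)
        rw [abs_mul, sg_abs, one_mul]
        exact h5
      refine ⟨glue cl (fun i => s1 (r.symm i)) (fun i => t1 (r'.symm i) == z), ?_, ?_, ?_, ?_⟩
      rotate_left
      · rw [e7]
        exact h7.trans (f5 ▸ h)
      · rw [e7, ← sq_abs]
        have g1 := spr_le_first a ha1 ha2 k'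
        have g2 := spr_le_first b hb1 hb2 M
        have h8 := pow_le_pow_left₀ (abs_nonneg _) (h7.trans (add_le_add g1 g2)) 2
        have h9 := seq_sq (T := T) r' (fun i : {i // ¬ cl i} => p i) b hb3 hb4 0
        have h9' := seq_sq (T := T) r (fun i : {i // cl i} => p i) a ha3 ha4 0
        rw [sum_cl cl fun i => (p i).eval T ^ 2]
        nlinarith [sq_nonneg ((a 0).eval T - (b 0).eval T)]
      · rw [e7, sum_cl cl fun i => dn T (p i) ^ 2, ← e4, ← e3, add_comm (ss s1 a (2 * k'))]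
        linarith
      · rw [key2 s1 fun i => t1 i == z]
        have : Fintype.card {i // cl i} = 2 * k' := by omega
        rw [this]
        exact h1
    · right
      refine ⟨h, ?_⟩
      obtain ⟨s1, h1, h2, h3⟩ := pairs_nn hT hκ a ha1 k'
      obtain ⟨t1, h4, h5, h6⟩ := pairs_nn hT hκ b hb1 M
      obtain ⟨z, hz⟩ := nflip hT κ (ss t1 b (2 * M)) (ss s1 a (2 * k'))
      have e7 := key s1 (fun i => t1 i == z)
      rw [ss_beq] at e7
      have h7 : |(ss s1 a (2 * k') + sg z • ss t1 b (2 * M)).eval T| ≤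
          spr T a k' + spr T b M := by
        rw [eval_add, eval_smul, smul_eq_mul]
        refine (abs_add_le _ _).trans (add_le_add h2 ?_)
        rw [abs_mul, sg_abs, one_mul]
        exact h5
      obtain ⟨p1, p2, p3⟩ := pair_sums a ha1 ha2 ha0 k'
      obtain ⟨q1, q2, q3⟩ := pair_sums b hb1 hb2 hb0 M
      refine ⟨glue cl (fun i => s1 (r.symm i)) (fun i => t1 (r'.symm i) == z), ?_,
        ?_, ?_, ?_, ?_, ?_⟩
      rotate_left
      · rw [e7, sum_cl cl fun i => (p i).eval T ^ 2, sum_cl cl fun i => dn T (p i) ^ 2, ← e3,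
          ← e4, ← e5, ← e6, add_comm (ss s1 a (2 * k'))]
        linarith
      · rw [e7, sum_cl cl fun i => dn T (p i) ^ 2, ← e3, ← e4, f2,
          add_comm (ss s1 a (2 * k'))]
        linarith
      · rw [e7, sum_cl cl fun i => dn T (p i) ^ 2, ← e3, ← e4, f3,
          add_comm (ss s1 a (2 * k'))]
        linarith
      · rw [e7, ← f5]
        exact h7
      · rw [e7]
        have g1 := spr_le_first a ha1 ha2 k'
        have g2 := spr_le_first b hb1 hb2 M
        linarith [ha0 0, hb0 0]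
      · rw [key2 s1 fun i => t1 i == z]
        have : Fintype.card {i // cl i} = 2 * k' := by omega
        rw [this]
        exact h1

end

end Pool.Agent.TSR
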