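import Pool.Agent.TSM.ExcRules

set_option autoImplicit false

/-!
# Tree level rule for an odd number of children, excess form (MP_d27362_co)

`e^u ≤ e^{μ (w² - 1)} (1 + u + c u²)` for `u ≤ w`, `w ≥ 1`, `c ≥ e - 2`.
-/

namespace Pool.Agent.TSM

open Finset Polynomial
open Pool.Agent.TSP
open Pool.Agent.TSO
open Pool.Agent.TSR (OBr Ker sg_true sg_false vS_nonneg)
open Pool.Agent.TLT (sg)

noncomputable section

/-! ### the real inequality -/

/-- `e^{x - μ (x² - 1)} ≤ 1 + x + c x²` for `x ≥ 1` -/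
theorem exp_quad_one (c μ : ℝ) (hc : 0 ≤ c) (h1 : Real.exp 1 ≤ 2 + c)
    (hq : ∀ x : ℝ, 1 ≤ x → 0 ≤ (2 * c - 1 + 2 * μ) + (2 * μ - c) * x + 2 * μ * c * x ^ 2)
    (x : ℝ) (hx : 1 ≤ x) :
    Real.exp (x - μ * (x ^ 2 - 1)) ≤ 1 + x + c * x ^ 2 := by
  have hpos : ∀ x : ℝ, 1 ≤ x → 0 < 1 + x + c * x ^ 2 := by
    intro x hx
    have : 0 ≤ c * x ^ 2 := by positivity
    linarith
  have hd : ∀ x : ℝ, 1 ≤ x → HasDerivAt
      (fun x : ℝ => Real.log (1 + x + c * x ^ 2) - x + μ * (x ^ 2 - 1))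
      ((1 + 2 * c * x) / (1 + x + c * x ^ 2) - 1 + 2 * μ * x) x := by
    intro x hx
    have k1 : HasDerivAt (fun x : ℝ => 1 + x + c * x ^ 2) (1 + 2 * c * x) x :=
      HasDerivAt.congr_deriv (((hasDerivAt_id' x).const_add 1).add ((hd_sq x).const_mul c))
        (by ring)
    have k2 := k1.log (hpos x hx).ne'
    have k3 : HasDerivAt (fun x : ℝ => μ * (x ^ 2 - 1)) (2 * μ * x) x :=
      HasDerivAt.congr_deriv (((hd_sq x).sub_const 1).const_mul μ) (by ring)
    exact (k2.sub (hasDerivAt_id' x)).add k3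
  have hmono : MonotoneOn (fun x : ℝ => Real.log (1 + x + c * x ^ 2) - x + μ * (x ^ 2 - 1))
      (Set.Ici 1) := by
    apply monotoneOn_of_deriv_nonneg (convex_Ici 1)
    · intro x hx
      exact (hd x hx).continuousAt.continuousWithinAt
    · intro x hx
      rw [interior_Ici] at hx
      exact (hd x (le_of_lt hx)).differentiableAt.differentiableWithinAt
    · intro x hx
      rw [interior_Ici] at hx
      have hx1 : (1 : ℝ) ≤ x := le_of_lt hx
      have hx0 : (0 : ℝ) ≤ x := by linarith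
      rw [(hd x hx1).deriv]
      have hp := hpos x hx1
      have key : 0 ≤ (1 + 2 * c * x) - (1 + x + c * x ^ 2) +
          2 * μ * x * (1 + x + c * x ^ 2) := by
        have e : (1 + 2 * c * x) - (1 + x + c * x ^ 2) + 2 * μ * x * (1 + x + c * x ^ 2) =
          x * ((2 * c - 1 + 2 * μ) + (2 * μ - c) * x + 2 * μ * c * x ^ 2) := by ring
        rw [e]
        exact mul_nonneg hx0 (hq x hx1)
      have : (1 + 2 * c * x) / (1 + x + c * x ^ 2) - 1 + 2 * μ * x =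
          ((1 + 2 * c * x) - (1 + x + c * x ^ 2) +
          2 * μ * x * (1 + x + c * x ^ 2)) / (1 + x + c * x ^ 2) := by
        field_simp
      rw [this]
      exact div_nonneg key hp.le
  have h := hmono (Set.mem_Ici.2 le_rfl) (Set.mem_Ici.2 hx) hx
  have h0 : 0 ≤ Real.log (1 + x + c * x ^ 2) - x + μ * (x ^ 2 - 1) := by
    have e0 : 0 ≤ Real.log (1 + (1 : ℝ) + c * 1 ^ 2) - 1 + μ * ((1 : ℝ) ^ 2 - 1) := by
      have e1 : 1 + (1 : ℝ) + c * 1 ^ 2 = 2 + c := by ring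
      rw [e1]
      have := (Real.le_log_iff_exp_le (show 0 < 2 + c by linarith)).2 h1
      linarith
    simp only at h
    linarith
  calc Real.exp (x - μ * (x ^ 2 - 1)) ≤ Real.exp (Real.log (1 + x + c * x ^ 2)) := by
        apply Real.exp_le_exp.2; linarith
    _ = _ := Real.exp_log (hpos x hx)

/-- `e^u ≤ e^{μ (w² - 1)} (1 + u + c u²)` for `u ≤ w`, `w ≥ 1` -/
theorem exp_odd (c μ : ℝ) (hc : 1 / 2 ≤ c) (hμ : 0 ≤ μ) (h1 : Real.exp 1 ≤ 2 + c)
    (hq : ∀ x : ℝ, 1 ≤ x → 0 ≤ (2 * c - 1 + 2 * μ) + (2 * μ - c) * x + 2 * μ * c * x ^ 2)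
    (u w : ℝ) (hw : 1 ≤ w) (huw : u ≤ w) :
    Real.exp u ≤ Real.exp (μ * (w ^ 2 - 1)) * (1 + u + c * u ^ 2) := by
  have hpos : 0 ≤ 1 + u + c * u ^ 2 := by
    nlinarith [sq_nonneg (u + 1), sq_nonneg u]
  have hE : 1 ≤ Real.exp (μ * (w ^ 2 - 1)) :=
    Real.one_le_exp (mul_nonneg hμ (by nlinarith))
  rcases le_total u 1 with hu | hu
  · have h2 := exp_le_c u 1 hu one_pos
    have h3 : ((Real.exp 1 - 1 - 1) / 1 ^ 2) * u ^ 2 ≤ c * u ^ 2 :=
      mul_le_mul_of_nonneg_right (by rw [one_pow, div_one]; linarith) (sq_nonneg u)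
    calc Real.exp u ≤ 1 * (1 + u + c * u ^ 2) := by linarith
      _ ≤ _ := mul_le_mul_of_nonneg_right hE hpos
  · have h2 := exp_quad_one c μ (by linarith) h1 hq u hu
    have h3 : u ^ 2 ≤ w ^ 2 := pow_le_pow_left₀ (by linarith) huw 2
    calc Real.exp u = Real.exp (μ * (u ^ 2 - 1)) * Real.exp (u - μ * (u ^ 2 - 1)) := by
          rw [← Real.exp_add]; congr 1; ring
      _ ≤ Real.exp (μ * (w ^ 2 - 1)) * (1 + u + c * u ^ 2) := by
          apply mul_le_mul _ h2 (Real.exp_nonneg _) (Real.exp_nonneg _)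
          exact Real.exp_le_exp.2 (mul_le_mul_of_nonneg_left (by linarith) hμ)

/-- the instance `(18/25, 43/500)` -/
theorem exp_odd_E (u w : ℝ) (hw : 1 ≤ w) (huw : u ≤ w) :
    Real.exp u ≤ Real.exp (43 / 500 * (w ^ 2 - 1)) * (1 + u + 18 / 25 * u ^ 2) := by
  apply exp_odd (18 / 25) (43 / 500) (by norm_num) (by norm_num) ?_ ?_ u w hw huw
  · have := Real.exp_one_lt_d9
    linarith
  · intro x _
    nlinarith [sq_nonneg (x - 137 / 250 * 3125 / (2 * 387))]

/-! ### the sup bound -/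

/-- `(√(1+k) + b)² - 1 ≤ 2 b + ((1+l) + (1+1/l) D) k` for `b ≥ 0`, `b² ≤ D k` -/
theorem sup_odd {D k b l : ℝ} (hk : 0 ≤ k) (hb : 0 ≤ b) (hbD : b ^ 2 ≤ D * k) (hl : 0 < l) :
    (Real.sqrt (1 + k) + b) ^ 2 - 1 ≤ 2 * b + ((1 + l) + (1 + 1 / l) * D) * k := by
  have h1 := Real.sq_sqrt (show 0 ≤ 1 + k by linarith)
  have h2 := Real.sq_sqrt hk
  set s := Real.sqrt k
  have hs0 : 0 ≤ s := Real.sqrt_nonneg _
  have h3 : Real.sqrt (1 + k) ≤ 1 + s := by
    rw [Real.sqrt_le_left (by linarith)]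
    nlinarith
  have h4 : 2 * s * b ≤ l * s ^ 2 + (1 / l) * b ^ 2 := by
    have e : l * s ^ 2 + (1 / l) * b ^ 2 - 2 * s * b = (1 / l) * (l * s - b) ^ 2 := by
      field_simp
      ring
    have : 0 ≤ (1 / l) * (l * s - b) ^ 2 := by positivity
    linarith
  have h5 : (1 + 1 / l) * b ^ 2 ≤ (1 + 1 / l) * (D * k) :=
    mul_le_mul_of_nonneg_left hbD (by positivity)
  have h6 : Real.sqrt (1 + k) * b ≤ (1 + s) * b := mul_le_mul_of_nonneg_right h3 hb
  calc (Real.sqrt (1 + k) + b) ^ 2 - 1 =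
      Real.sqrt (1 + k) ^ 2 + 2 * (Real.sqrt (1 + k) * b) + b ^ 2 - 1 := by ring
    _ ≤ (1 + k) + 2 * ((1 + s) * b) + b ^ 2 - 1 := by rw [h1]; linarith
    _ = 2 * b + k + 2 * s * b + b ^ 2 := by ring
    _ ≤ 2 * b + k + (l * s ^ 2 + (1 / l) * b ^ 2) + b ^ 2 := by linarith
    _ = 2 * b + (1 + l) * k + (1 + 1 / l) * b ^ 2 := by rw [h2]; ring
    _ ≤ 2 * b + (1 + l) * k + (1 + 1 / l) * (D * k) := by linarith
    _ = _ := by ring

/-- **an odd number of children** (`Σ σ = 1`), Rule E, excess form. `(c, μ)` is an admissible pair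
for `e^u ≤ e^{μ (w² - 1)} (1 + u + c u²)`, `u ≤ w`, `1 ≤ w`. `hb1` is used if the net gain
`∫ y'` is nonnegative, `hb2` otherwise -/
theorem GoodE.odd {χ : ℝ → ℝ} (hχ : ∀ D, RD D → 0 ≤ χ D) {K : ℕ} (O : Fin K → OBr)
    (σ e : Fin K → Bool) (V c : Fin K → ℝ → ℝ → ℝ)
    (h : ∀ i, GoodE χ (O i) (V i) (c i)) (hτ : ∑ i, sg (σ i) = 1) (cq μ : ℝ) (hcq : 0 ≤ cq)
    (hμ : 0 ≤ μ)
    (hexp : ∀ u w : ℝ, 1 ≤ w → u ≤ w →
      Real.exp u ≤ Real.exp (μ * (w ^ 2 - 1)) * (1 + u + cq * u ^ 2))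
    (l : ℝ → ℝ) (hl : ∀ D, RD D → 0 < l D) {V' c' : ℝ → ℝ → ℝ}
    (hb1 : ∀ D, RD D → ILe D (V' D) (fun a => ∑ i, V i D a +
      (1 - 2 * μ) * ∑ i, sg (e i) * (XX (O i)).eval a -
      μ * ((1 + l D) + (1 + 1 / l D) * D) * ((∑ i, sg (e i) * (XX (O i)).eval a) ^ 2 +
        a * (∑ i, sg (σ i) * (YY (O i)).eval a) ^ 2) -
      2 * cq * ((1 - a * ∑ i, sg (σ i) * (YY (O i)).eval a) ^ 2 +
        a * (∑ i, sg (e i) * (XX (O i)).eval a) ^ 2)))
    (hb2 : ∀ D, RD D → ILe D (V' D) (fun a => ∑ i, V i D a +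
      ∑ i, sg (e i) * (XX (O i)).eval a -
      μ * ((∑ i, sg (e i) * (XX (O i)).eval a) ^ 2 +
        a * (∑ i, sg (σ i) * (YY (O i)).eval a) ^ 2) -
      2 * cq * ((1 - a * ∑ i, sg (σ i) * (YY (O i)).eval a) ^ 2 +
        a * (∑ i, sg (e i) * (XX (O i)).eval a) ^ 2)))
    (hc : ∀ D, RD D → ILe D (fun a => 2 * cq * ((1 - a * ∑ i, sg (σ i) * (YY (O i)).eval a) ^ 2 +
        a * (∑ i, sg (e i) * (XX (O i)).eval a) ^ 2)) (c' D)) :
    GoodE χ (fam σ e O) V' c' := by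
  intro m S hS w t hR
  have hRD : RD (dee S) := ⟨hR.dee_nonneg, hR.dee_le⟩
  have hM : ∀ i ∈ (Finset.univ : Finset (Fin K)), MMajE S (ms S (cn (σ i) (e i) (O i)))
      (sg (σ i) • (1 - X * YY (O i))) (sg (e i) • XX (O i))
      (nu w t fun a => sg (e i) * (XX (O i)).eval a) (χ (dee S)) (nu w t (V i (dee S)))
      (nu w t (c i (dee S))) := fun i _ => (h i).msg (σ i) (e i) hS hR
  rw [fam_vS, fam_XX, fam_YY]
  set U' := ∑ i, sg (σ i) • YY (O i) with hU'
  set y' := ∑ i, sg (e i) • XX (O i) with hy'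
  have hx' : ∑ i, sg (σ i) • (1 - X * YY (O i)) = C 1 - X * U' := by
    have h1 : ∀ i : Fin K, sg (σ i) • (1 - X * YY (O i)) =
        C (sg (σ i)) - X * (sg (σ i) • YY (O i)) := by
      intro i
      rw [smul_sub, smul_eq_C_mul, mul_one, mul_smul_comm]
    rw [Finset.sum_congr rfl fun i _ => h1 i, Finset.sum_sub_distrib, ← Finset.mul_sum,
      ← map_sum, hτ]
  have hUe : ∀ a, U'.eval a = ∑ i, sg (σ i) * (YY (O i)).eval a := by
    intro a
    rw [hU', eval_finsetSum]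
    exact Finset.sum_congr rfl fun i _ => by rw [eval_smul, smul_eq_mul]
  have hye : ∀ a, y'.eval a = ∑ i, sg (e i) * (XX (O i)).eval a := by
    intro a
    rw [hy', eval_finsetSum]
    exact Finset.sum_congr rfl fun i _ => by rw [eval_smul, smul_eq_mul]
  have hen : en S (∑ i, sg (σ i) • (1 - X * YY (O i))) y' =
      nu w t fun a => (1 - a * U'.eval a) ^ 2 + a * y'.eval a ^ 2 := by
    rw [hx', hR.en_nu]
    congr 1
    funext a
    simp only [eval_sub, eval_C, eval_mul, eval_X]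
  have hen2 : en2 S U' y' = nu w t fun a => y'.eval a ^ 2 + a * U'.eval a ^ 2 := by
    unfold en2
    rw [hR.mo_nu]
    congr 1
    funext a
    simp only [eval_add, eval_mul, eval_X]
    ring
  have hmoy : mo S y' = nu w t fun a => ∑ i, sg (e i) * (XX (O i)).eval a := by
    rw [hR.mo_nu]
    congr 1
    funext a
    exact hye a
  have hsumG : ∑ i, (nu w t fun a => sg (e i) * (XX (O i)).eval a) = mo S y' := by
    rw [hmoy, nu_finset_sum]
  set ψ := (1 + l (dee S)) + (1 + 1 / l (dee S)) * dee S with hψ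
  have hlD := hl _ hRD
  have hk0 := en2_nonneg (S := S) hS.anti U' y'
  have hbD := mo_sq_le_en2 hS U' y'
  have hw1 : 1 ≤ Real.sqrt (1 + en2 S U' y') := by
    rw [Real.one_le_sqrt]
    linarith
  have hcost := hc _ hRD m S hS w t hR rfl
  have hcost' : 2 * cq * en S (∑ i, sg (σ i) • (1 - X * YY (O i))) y' ≤ nu w t (c' (dee S)) := by
    rw [nu_mul] at hcost
    rw [hen]
    simp only [hUe, hye]
    exact hcost
  rcases le_total 0 (mo S y') with hb | hb
  · refine (MMajE.manyE hS Finset.univ _ _ _ _ _ _ (hχ _ hRD) hM cq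
      (μ * (2 * mo S y' + ψ * en2 S U' y')) hcq ?_ ?_ hcost').toE _
    · intro z
      rw [hx', ← hy']
      have h1 := st_sup hS 1 U' y' z
      rw [show (1 : ℝ) ^ 2 + en2 S U' y' = 1 + en2 S U' y' by ring] at h1
      have h2 := hexp _ _ (by linarith) h1
      have h3 : 0 ≤ 1 + st S (C 1 - X * U') y' z + cq * st S (C 1 - X * U') y' z ^ 2 := by
        by_contra h
        push Not at h
        have h4 := mul_neg_of_pos_of_neg (Real.exp_pos
          (μ * ((Real.sqrt (1 + en2 S U' y') + mo S y') ^ 2 - 1))) h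
        have := Real.exp_pos (st S (C 1 - X * U') y' z)
        linarith
      refine h2.trans (mul_le_mul_of_nonneg_right (Real.exp_le_exp.2 ?_) h3)
      exact mul_le_mul_of_nonneg_left (sup_odd hk0 hb hbD hlD) hμ
    · have h1 := hb1 _ hRD m S hS w t hR rfl
      rw [hsumG, hen]
      rw [nu_sub, nu_sub, nu_add, nu_finset_sum, nu_mul, nu_mul, nu_mul] at h1
      rw [hmoy, hen2]
      simp only [hUe, hye]
      refine h1.trans (le_of_eq ?_)
      ring
  · refine (MMajE.manyE hS Finset.univ _ _ _ _ _ _ (hχ _ hRD) hM cq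
      (μ * en2 S U' y') hcq ?_ ?_ hcost').toE _
    · intro z
      rw [hx', ← hy']
      have h1 := st_sup hS 1 U' y' z
      rw [show (1 : ℝ) ^ 2 + en2 S U' y' = 1 + en2 S U' y' by ring] at h1
      have h2 := hexp _ _ hw1 (show st S (C 1 - X * U') y' z ≤ Real.sqrt (1 + en2 S U' y') by
        linarith)
      rw [Real.sq_sqrt (by linarith)] at h2
      refine h2.trans (le_of_eq ?_)
      congr 2
      ring
    · have h1 := hb2 _ hRD m S hS w t hR rfl
      rw [hsumG, hen]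
      rw [nu_sub, nu_sub, nu_add, nu_finset_sum, nu_mul, nu_mul] at h1
      rw [hmoy, hen2]
      simp only [hUe, hye]
      refine h1.trans (le_of_eq ?_)
      ring

end

end Pool.Agent.TSM
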