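import Pool.Agent.TSM.OddD

set_option autoImplicit false

/-!
# Three children, full finite rule with a constant (MP_d27362_co, helper2)
-/

namespace Pool.Agent.TSM

open Finset Polynomial
open Pool.Agent.TSP
open Pool.Agent.TSO
open Pool.Agent.TSR (OBr Ker sg_true sg_false vS_nonneg)
open Pool.Agent.TLT (sg)

noncomputable section

/-- **three children**, full finite rule with a constant -/
theorem GoodE.odFd3 {χ : ℝ → ℝ} (hχ : ∀ D, RD D → 0 ≤ χ D) {O1 O2 O3 : OBr}
    {V1 c1 V2 c2 V3 c3 V' c' : ℝ → ℝ → ℝ}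
    (h1 : GoodE χ O1 V1 c1) (h2 : GoodE χ O2 V2 c2) (h3 : GoodE χ O3 V3 c3) (e1 e2 e3 : Bool)
    (U y : ℝ → ℝ)
    (hU : ∀ a, (YY O1).eval a + (YY O2).eval a - (YY O3).eval a = U a)
    (hy : ∀ a, sg e1 * (XX O1).eval a + sg e2 * (XX O2).eval a + sg e3 * (XX O3).eval a = y a)
    (H : ∀ D, RD D → OdFd χ D 3 U y (fun a => V1 D a + V2 D a + V3 D a) (V' D) (c' D)) :
    GoodE χ (.mk [cn true e1 O1, cn true e2 O2, cn false e3 O3]) V' c' := by
  rw [← fam3]
  refine GoodE.odFd hχ (by norm_num) ![O1, O2, O3] ![true, true, false] ![e1, e2, e3]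
    ![V1, V2, V3] ![c1, c2, c3] (fun i => ?_) ?_ U y (fun a => ?_) (fun a => ?_)
    (fun D hD => ?_)
  · fin_cases i
    · exact h1
    · exact h2
    · exact h3
  · simp [Fin.sum_univ_succ, sg_true, sg_false]
  · rw [← hU a, Fin.sum_univ_three]
    show sg true * (YY O1).eval a + sg true * (YY O2).eval a + sg false * (YY O3).eval a = _
    rw [sg_true, sg_false]
    ring
  · rw [← hy a, Fin.sum_univ_three]
    rfl
  · have h4 := H D hD
    have e4 : (fun a => ∑ i, ![V1, V2, V3] i D a) = fun a => V1 D a + V2 D a + V3 D a := by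
      funext a
      rw [Fin.sum_univ_three fun i => ![V1, V2, V3] i D a]
      rfl
    rw [e4]
    exact h4

end

end Pool.Agent.TSM
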