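import Pool.Agent.TSM.OddD

set_option autoImplicit false

/-!
# Constants of the odd rule with a constant (MP_d27362_co, helper2)
-/

namespace Pool.Agent.TSM

noncomputable section


theorem exp_le_n0 {u : ℝ} (hu : u ≤ 0) :
    Real.exp u ≤ 1 + u + u ^ 2 / 2 + u ^ 3 / 6 + u ^ 4 / 24 := by
  -- `(1 - u + u²/2 - u³/6 + u⁴/24 - ..)`: with `x = -u ≥ 0`
  obtain ⟨x, rfl⟩ : ∃ x, u = -x := ⟨-u, by ring⟩
  have hx : 0 ≤ x := by linarith
  have h1 := Real.sum_le_exp_of_nonneg hx 5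
  simp only [Finset.sum_range_succ, Finset.sum_range_zero, Nat.factorial] at h1
  push_cast at h1
  rw [Real.exp_neg]
  have h3 : 0 < Real.exp x := Real.exp_pos x
  have h6 : 0 < 1 + -x + (-x) ^ 2 / 2 + (-x) ^ 3 / 6 + (-x) ^ 4 / 24 := by
    nlinarith [sq_nonneg (x ^ 2 / 5 - x / 2), sq_nonneg (x - 1), sq_nonneg x,
      sq_nonneg (x ^ 2 - 2 * x), sq_nonneg (x - 2)]
  rw [inv_le_comm₀ h3 h6]
  refine le_trans ?_ h1
  rw [inv_le_iff_one_le_mul₀ h6]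
  nlinarith [pow_nonneg hx 5, pow_nonneg hx 6, pow_nonneg hx 7, pow_nonneg hx 8]

theorem exp_neg_one_up : Real.exp (-1) ≤ 36788 / 100000 := by
  have h := Real.exp_neg_one_lt_d9
  linarith

theorem exp_neg_two_up : Real.exp (-2) ≤ 13534 / 100000 := by
  have h := Real.exp_neg_one_lt_d9
  have h0 := Real.exp_pos (-1)
  have e : Real.exp (-2) = Real.exp (-1) * Real.exp (-1) := by
    rw [← Real.exp_add]
    norm_num
  rw [e]
  nlinarith

theorem exp_neg_three_up : Real.exp (-3) ≤ 4979 / 100000 := by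
  have h := Real.exp_neg_one_lt_d9
  have h0 := Real.exp_pos (-1)
  have h2 : Real.exp (-2) ≤ 1353353 / 10000000 := by
    have e : Real.exp (-2) = Real.exp (-1) * Real.exp (-1) := by
      rw [← Real.exp_add]
      norm_num
    rw [e]
    nlinarith
  have h3 := Real.exp_pos (-2)
  have e : Real.exp (-3) = Real.exp (-2) * Real.exp (-1) := by
    rw [← Real.exp_add]
    norm_num
  rw [e]
  nlinarith

theorem exp_le_n1 {u : ℝ} (hu : u ≤ -1) : Real.exp u ≤ 36788 / 100000 *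
    (1 + (u + 1) + (u + 1) ^ 2 / 2 + (u + 1) ^ 3 / 6 + (u + 1) ^ 4 / 24) := by
  have e : Real.exp u = Real.exp (-1) * Real.exp (u + 1) := by
    rw [← Real.exp_add]
    congr 1
    ring
  rw [e]
  exact mul_le_mul exp_neg_one_up (exp_le_n0 (by linarith)) (Real.exp_nonneg _) (by norm_num)

theorem exp_le_n2 {u : ℝ} (hu : u ≤ -2) : Real.exp u ≤ 13534 / 100000 *
    (1 + (u + 2) + (u + 2) ^ 2 / 2 + (u + 2) ^ 3 / 6 + (u + 2) ^ 4 / 24) := by
  have e : Real.exp u = Real.exp (-2) * Real.exp (u + 2) := by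
    rw [← Real.exp_add]
    congr 1
    ring
  rw [e]
  exact mul_le_mul exp_neg_two_up (exp_le_n0 (by linarith)) (Real.exp_nonneg _) (by norm_num)

theorem exp_le_n3 {u : ℝ} (hu : u ≤ -3) : Real.exp u ≤ 4979 / 100000 :=
  (Real.exp_le_exp.2 hu).trans exp_neg_three_up

theorem exp_le_p {u : ℝ} (h0 : 0 ≤ u) (h1 : u ≤ 1) :
    Real.exp u ≤ 1 + u + u ^ 2 / 2 + u ^ 3 / 6 + u ^ 4 / 24 + u ^ 5 / 100 := by
  have h := Real.exp_bound' h0 h1 (n := 5) (by norm_num)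
  simp only [Finset.sum_range_succ, Finset.sum_range_zero, Nat.factorial] at h
  push_cast at h
  refine h.trans (le_of_eq ?_)
  ring


theorem exp_up_1_10 : Real.exp (1 / 10) ≤ 55259 / 50000 := by
  have h := Real.exp_bound' (x := 1 / 10) (by norm_num) (by norm_num) (n := 9) (by norm_num)
  simp only [Finset.sum_range_succ, Finset.sum_range_zero, Nat.factorial] at h
  push_cast at h
  refine h.trans ?_
  norm_num

theorem od_three_d00_a0 (u : ℝ) (h1 : -1 ≤ u) (h2 : u ≤ 0) :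
    1 + u + u ^ 2 / 2 + u ^ 3 / 6 + u ^ 4 / 24 ≤
      1 * (1 + u + 501 / 1000 * u ^ 2) := by
  obtain ⟨s, hs⟩ : ∃ s, s = u - (-1) := ⟨_, rfl⟩
  obtain ⟨t, ht⟩ : ∃ t, t = 0 - u := ⟨_, rfl⟩
  have hs0 : 0 ≤ s := by linarith
  have ht0 : 0 ≤ t := by linarith
  have h : 0 ≤
      63 / 500 * t ^ 4 + 253 / 1500 * s * t ^ 3 + 1 / 1000 * s ^ 2 * t ^ 2 := by
    positivity
  have e :
      63 / 500 * t ^ 4 + 253 / 1500 * s * t ^ 3 + 1 / 1000 * s ^ 2 * t ^ 2 =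
      1 * (1 + u + 501 / 1000 * u ^ 2) -
      (1 + u + u ^ 2 / 2 + u ^ 3 / 6 + u ^ 4 / 24) := by
    rw [hs, ht]
    ring
  rw [e] at h
  linarith

theorem od_three_d00_b0 (u : ℝ) (h1 : -2 ≤ u) (h2 : u ≤ -1) :
    36788 / 100000 *
      (1 + (u + 1) + (u + 1) ^ 2 / 2 + (u + 1) ^ 3 / 6 + (u + 1) ^ 4 / 24) ≤
      1 * (1 + u + 501 / 1000 * u ^ 2) := by
  obtain ⟨s, hs⟩ : ∃ s, s = u - (-2) := ⟨_, rfl⟩
  obtain ⟨t, ht⟩ : ∃ t, t = -1 - u := ⟨_, rfl⟩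
  have hs0 : 0 ≤ s := by linarith
  have ht0 : 0 ≤ t := by linarith
  have h : 0 ≤
      173209 / 200000 * t ^ 4 + 350633 / 150000 * s * t ^ 3 +
      111271 / 50000 * s ^ 2 * t ^ 2 + 22559 / 25000 * s ^ 3 * t + 416 / 3125 * s ^ 4 := by
    positivity
  have e :
      173209 / 200000 * t ^ 4 + 350633 / 150000 * s * t ^ 3 +
      111271 / 50000 * s ^ 2 * t ^ 2 + 22559 / 25000 * s ^ 3 * t + 416 / 3125 * s ^ 4 =
      1 * (1 + u + 501 / 1000 * u ^ 2) -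
      (36788 / 100000 *
      (1 + (u + 1) + (u + 1) ^ 2 / 2 + (u + 1) ^ 3 / 6 + (u + 1) ^ 4 / 24)) := by
    rw [hs, ht]
    ring
  rw [e] at h
  linarith

theorem od_three_d00_c0 (u : ℝ) (h1 : -3 ≤ u) (h2 : u ≤ -2) :
    13534 / 100000 *
      (1 + (u + 2) + (u + 2) ^ 2 / 2 + (u + 2) ^ 3 / 6 + (u + 2) ^ 4 / 24) ≤
      1 * (1 + u + 501 / 1000 * u ^ 2) := by
  obtain ⟨s, hs⟩ : ∃ s, s = u - (-3) := ⟨_, rfl⟩
  obtain ⟨t, ht⟩ : ∃ t, t = -2 - u := ⟨_, rfl⟩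
  have hs0 : 0 ≤ s := by linarith
  have ht0 : 0 ≤ t := by linarith
  have h : 0 ≤
      983299 / 400000 * t ^ 4 + 2334563 / 300000 * s * t ^ 3 +
      906331 / 100000 * s ^ 2 * t ^ 2 + 230699 / 50000 * s ^ 3 * t + 43433 / 50000 * s ^ 4 := by
    positivity
  have e :
      983299 / 400000 * t ^ 4 + 2334563 / 300000 * s * t ^ 3 +
      906331 / 100000 * s ^ 2 * t ^ 2 + 230699 / 50000 * s ^ 3 * t + 43433 / 50000 * s ^ 4 =
      1 * (1 + u + 501 / 1000 * u ^ 2) -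
      (13534 / 100000 *
      (1 + (u + 2) + (u + 2) ^ 2 / 2 + (u + 2) ^ 3 / 6 + (u + 2) ^ 4 / 24)) := by
    rw [hs, ht]
    ring
  rw [e] at h
  linarith

theorem od_three_d00_d (u : ℝ) (h2 : u ≤ -3) :
    4979 / 100000 ≤
      1 * (1 + u + 501 / 1000 * u ^ 2) := by
  obtain ⟨s, hs⟩ : ∃ s, s = -3 - u := ⟨_, rfl⟩
  have hs0 : 0 ≤ s := by linarith
  have h : 0 ≤
      245921 / 100000 + 1003 / 500 * s + 501 / 1000 * s ^ 2 := by
    positivity
  have e :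
      245921 / 100000 + 1003 / 500 * s + 501 / 1000 * s ^ 2 =
      1 * (1 + u + 501 / 1000 * u ^ 2) -
      (4979 / 100000) := by
    rw [hs]
    ring
  rw [e] at h
  linarith

theorem od_three_d00_f0 (u : ℝ) (h1 : 0 ≤ u) (h2 : u ≤ 1) :
    1 * (1 + (u - 0) / 3) ^ 3 ≤
      1 * (1 + u + 501 / 1000 * u ^ 2) := by
  obtain ⟨s, hs⟩ : ∃ s, s = u - (0) := ⟨_, rfl⟩
  obtain ⟨t, ht⟩ : ∃ t, t = 1 - u := ⟨_, rfl⟩
  have hs0 : 0 ≤ s := by linarith
  have ht0 : 0 ≤ t := by linarith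
  have h : 0 ≤
      503 / 3000 * s ^ 2 * t + 3527 / 27000 * s ^ 3 := by
    positivity
  have e :
      503 / 3000 * s ^ 2 * t + 3527 / 27000 * s ^ 3 =
      1 * (1 + u + 501 / 1000 * u ^ 2) -
      (1 * (1 + (u - 0) / 3) ^ 3) := by
    rw [hs, ht]
    ring
  rw [e] at h
  linarith

theorem od_three_d00_g0 (u : ℝ) (h1 : 1 ≤ u) (h2 : u ≤ 5) :
    1 * (1 + (u - 0) / 3) ^ 3 ≤
      1 * ((1 + (1 / 250 * (u ^ 2 - 1)) +
      (1 / 250 * (u ^ 2 - 1)) ^ 2 / 2 +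
      (1 / 250 * (u ^ 2 - 1)) ^ 3 / 6) *
      (1 + u + 501 / 1000 * u ^ 2)) := by
  obtain ⟨s, hs⟩ : ∃ s, s = u - (1) := ⟨_, rfl⟩
  obtain ⟨t, ht⟩ : ∃ t, t = 5 - u := ⟨_, rfl⟩
  have hs0 : 0 ≤ s := by linarith
  have ht0 : 0 ≤ t := by linarith
  have h : 0 ≤
      3527 / 1769472000 * t ^ 8 + 1706027 / 55296000000 * s * t ^ 7 +
      155811163 / 864000000000 * s ^ 2 * t ^ 6 +
      150176178649 / 288000000000000 * s ^ 3 * t ^ 5 +
      163335555679 / 192000000000000 * s ^ 4 * t ^ 4 +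
      238291546283 / 288000000000000 * s ^ 5 * t ^ 3 +
      207239744167 / 432000000000000 * s ^ 6 * t ^ 2 +
      26758307933 / 172800000000000 * s ^ 7 * t + 3013309391 / 138240000000000 * s ^ 8 := by
    positivity
  have e :
      3527 / 1769472000 * t ^ 8 + 1706027 / 55296000000 * s * t ^ 7 +
      155811163 / 864000000000 * s ^ 2 * t ^ 6 +
      150176178649 / 288000000000000 * s ^ 3 * t ^ 5 +
      163335555679 / 192000000000000 * s ^ 4 * t ^ 4 +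
      238291546283 / 288000000000000 * s ^ 5 * t ^ 3 +
      207239744167 / 432000000000000 * s ^ 6 * t ^ 2 +
      26758307933 / 172800000000000 * s ^ 7 * t + 3013309391 / 138240000000000 * s ^ 8 =
      1 * ((1 + (1 / 250 * (u ^ 2 - 1)) +
      (1 / 250 * (u ^ 2 - 1)) ^ 2 / 2 +
      (1 / 250 * (u ^ 2 - 1)) ^ 3 / 6) *
      (1 + u + 501 / 1000 * u ^ 2)) -
      (1 * (1 + (u - 0) / 3) ^ 3) := by
    rw [hs, ht]
    ring
  rw [e] at h
  linarith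

theorem od_three_d00_t (u : ℝ) (h1 : 5 ≤ u) :
    1 * (1 + (u - 0) / 3) ^ 3 ≤
      1 * ((1 + (1 / 250 * (u ^ 2 - 1)) +
      (1 / 250 * (u ^ 2 - 1)) ^ 2 / 2 +
      (1 / 250 * (u ^ 2 - 1)) ^ 3 / 6) *
      (1 + u + 501 / 1000 * u ^ 2)) := by
  obtain ⟨s, hs⟩ : ∃ s, s = u - (5) := ⟨_, rfl⟩
  have hs0 : 0 ≤ s := by linarith
  have h : 0 ≤
      3013309391 / 2109375000 + 1124928659 / 3515625000 * s +
      219493921 / 8789062500 * s ^ 2 + 212978063 / 10546875000 * s ^ 3 +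
      186779189 / 46875000000 * s ^ 4 + 534547 / 3125000000 * s ^ 5 +
      253649 / 31250000000 * s ^ 6 + 263 / 1171875000 * s ^ 7 + 167 / 31250000000 * s ^ 8 := by
    positivity
  have e :
      3013309391 / 2109375000 + 1124928659 / 3515625000 * s +
      219493921 / 8789062500 * s ^ 2 + 212978063 / 10546875000 * s ^ 3 +
      186779189 / 46875000000 * s ^ 4 + 534547 / 3125000000 * s ^ 5 +
      253649 / 31250000000 * s ^ 6 + 263 / 1171875000 * s ^ 7 + 167 / 31250000000 * s ^ 8 =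
      1 * ((1 + (1 / 250 * (u ^ 2 - 1)) +
      (1 / 250 * (u ^ 2 - 1)) ^ 2 / 2 +
      (1 / 250 * (u ^ 2 - 1)) ^ 3 / 6) *
      (1 + u + 501 / 1000 * u ^ 2)) -
      (1 * (1 + (u - 0) / 3) ^ 3) := by
    rw [hs]
    ring
  rw [e] at h
  linarith

/-- `K = 3`: `(c, μ, P, δ) = (501 / 1000, 1 / 250, 0, 0)` -/
theorem expOd_three_d00 : ExpOd 3 (501 / 1000) (1 / 250) (0) (0) := by
  have hde : 1 ≤ Real.exp (0) := Real.exp_zero.ge
  have hq : ∀ u : ℝ, 0 ≤ 1 + u + 501 / 1000 * u ^ 2 := fun u => by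
    nlinarith [sq_nonneg (u + 2), sq_nonneg u]
  have hR : ∀ (u x y : ℝ), x ≤ y → y ≤ 1 * (1 + u + 501 / 1000 * u ^ 2) →
      x ≤ Real.exp (0) * (1 + u + 501 / 1000 * u ^ 2) := fun u x y h1 h2 =>
    (h1.trans h2).trans (mul_le_mul_of_nonneg_right hde (hq u))
  refine ExpOd.of (by norm_num) (by norm_num) (by norm_num) (by norm_num) (by norm_num) ?_ ?_ ?_
  · intro u h1
    rcases le_total u (-3) with h3 | h3
    · exact hR u _ _ (exp_le_n3 h3) (od_three_d00_d u h3)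
    rcases le_total u (-2) with h4 | h4
    · refine hR u _ _ (exp_le_n2 h4) ?_
      exact od_three_d00_c0 u (by linarith) (by linarith)
    rcases le_total u (-1) with h5 | h5
    · refine hR u _ _ (exp_le_n1 h5) ?_
      exact od_three_d00_b0 u (by linarith) (by linarith)
    rcases le_total u 0 with h6 | h6
    · refine hR u _ _ (exp_le_n0 h6) ?_
      exact od_three_d00_a0 u (by linarith) (by linarith)
    have h7 : u = 0 := le_antisymm h1 h6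
    refine hR u _ _ (exp_le_n0 h7.le) ?_
    exact od_three_d00_a0 u (by linarith) (by linarith)
  · intro u h1 h2
    have h4 : 0 ≤ (1 + (u - 0) / 3) ^ 3 := by
      have : 0 ≤ (u - 0) / 3 := div_nonneg (by linarith) (by norm_num)
      positivity
    have hE : Real.exp (0) ≤ 1 := Real.exp_zero.le
    push_cast
    refine hR u _ _ (mul_le_mul_of_nonneg_right hE h4) ?_
    exact od_three_d00_f0 u (by linarith) (by linarith)
  · intro u h1
    have h4 : 0 ≤ (1 + (u - 0) / 3) ^ 3 := by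
      have : 0 ≤ (u - 0) / 3 := div_nonneg (by linarith) (by norm_num)
      positivity
    have hE : Real.exp (0) ≤ 1 := Real.exp_zero.le
    have hx : 0 ≤ 1 / 250 * (u ^ 2 - 1) := mul_nonneg (by norm_num) (by nlinarith)
    have h5 := mul_le_mul_of_nonneg_right (taylor3_le_exp _ hx) (hq u)
    have h6 : 0 ≤ Real.exp (1 / 250 * (u ^ 2 - 1)) * (1 + u + 501 / 1000 * u ^ 2) :=
      mul_nonneg (Real.exp_nonneg _) (hq u)
    rw [Real.exp_add, mul_assoc]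
    push_cast
    refine ((mul_le_mul_of_nonneg_right hE h4).trans ?_).trans
      ((mul_le_mul_of_nonneg_left h5 (by norm_num : (0 : ℝ) ≤ 1)).trans
        (mul_le_mul_of_nonneg_right hde h6))
    rcases le_total u (5) with hh | hh
    · exact od_three_d00_g0 u (by linarith) (by linarith)
    exact od_three_d00_t u (by linarith)

theorem od_three_d01_a0 (u : ℝ) (h1 : -1 ≤ u) (h2 : u ≤ -1 / 2) :
    1 + u + u ^ 2 / 2 + u ^ 3 / 6 + u ^ 4 / 24 ≤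
      (1 + 1 / 100 + (1 / 100) ^ 2 / 2) * (1 + u + 57 / 125 * u ^ 2) := by
  obtain ⟨s, hs⟩ : ∃ s, s = u - (-1) := ⟨_, rfl⟩
  obtain ⟨t, ht⟩ : ∃ t, t = -1 / 2 - u := ⟨_, rfl⟩
  have hs0 : 0 ≤ s := by linarith
  have ht0 : 0 ≤ t := by linarith
  have h : 0 ≤
      213957 / 156250 * t ^ 4 + 3301601 / 937500 * s * t ^ 3 +
      1994691 / 625000 * s ^ 2 * t ^ 2 + 202373 / 156250 * s ^ 3 * t + 100499 / 468750 * s ^ 4 := by
    positivity
  have e :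
      213957 / 156250 * t ^ 4 + 3301601 / 937500 * s * t ^ 3 +
      1994691 / 625000 * s ^ 2 * t ^ 2 + 202373 / 156250 * s ^ 3 * t + 100499 / 468750 * s ^ 4 =
      (1 + 1 / 100 + (1 / 100) ^ 2 / 2) * (1 + u + 57 / 125 * u ^ 2) -
      (1 + u + u ^ 2 / 2 + u ^ 3 / 6 + u ^ 4 / 24) := by
    rw [hs, ht]
    ring
  rw [e] at h
  linarith

theorem od_three_d01_a1 (u : ℝ) (h1 : -1 / 2 ≤ u) (h2 : u ≤ 0) :
    1 + u + u ^ 2 / 2 + u ^ 3 / 6 + u ^ 4 / 24 ≤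
      (1 + 1 / 100 + (1 / 100) ^ 2 / 2) * (1 + u + 57 / 125 * u ^ 2) := by
  obtain ⟨s, hs⟩ : ∃ s, s = u - (-1 / 2) := ⟨_, rfl⟩
  obtain ⟨t, ht⟩ : ∃ t, t = 0 - u := ⟨_, rfl⟩
  have hs0 : 0 ≤ s := by linarith
  have ht0 : 0 ≤ t := by linarith
  have h : 0 ≤
      100499 / 468750 * t ^ 4 + 196873 / 468750 * s * t ^ 3 +
      353707 / 625000 * s ^ 2 * t ^ 2 + 1407 / 2500 * s ^ 3 * t + 201 / 1250 * s ^ 4 := by
    positivity
  have e :
      100499 / 468750 * t ^ 4 + 196873 / 468750 * s * t ^ 3 +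
      353707 / 625000 * s ^ 2 * t ^ 2 + 1407 / 2500 * s ^ 3 * t + 201 / 1250 * s ^ 4 =
      (1 + 1 / 100 + (1 / 100) ^ 2 / 2) * (1 + u + 57 / 125 * u ^ 2) -
      (1 + u + u ^ 2 / 2 + u ^ 3 / 6 + u ^ 4 / 24) := by
    rw [hs, ht]
    ring
  rw [e] at h
  linarith

theorem od_three_d01_b0 (u : ℝ) (h1 : -2 ≤ u) (h2 : u ≤ -1) :
    36788 / 100000 *
      (1 + (u + 1) + (u + 1) ^ 2 / 2 + (u + 1) ^ 3 / 6 + (u + 1) ^ 4 / 24) ≤
      (1 + 1 / 100 + (1 / 100) ^ 2 / 2) * (1 + u + 57 / 125 * u ^ 2) := by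
  obtain ⟨s, hs⟩ : ∃ s, s = u - (-2) := ⟨_, rfl⟩
  obtain ⟨t, ht⟩ : ∃ t, t = -1 - u := ⟨_, rfl⟩
  have hs0 : 0 ≤ s := by linarith
  have ht0 : 0 ≤ t := by linarith
  have h : 0 ≤
      3471631 / 5000000 * t ^ 4 + 13667977 / 7500000 * s * t ^ 3 +
      521827 / 312500 * s ^ 2 * t ^ 2 + 1624517 / 2500000 * s ^ 3 * t +
      231757 / 2500000 * s ^ 4 := by
    positivity
  have e :
      3471631 / 5000000 * t ^ 4 + 13667977 / 7500000 * s * t ^ 3 +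
      521827 / 312500 * s ^ 2 * t ^ 2 + 1624517 / 2500000 * s ^ 3 * t +
      231757 / 2500000 * s ^ 4 =
      (1 + 1 / 100 + (1 / 100) ^ 2 / 2) * (1 + u + 57 / 125 * u ^ 2) -
      (36788 / 100000 *
      (1 + (u + 1) + (u + 1) ^ 2 / 2 + (u + 1) ^ 3 / 6 + (u + 1) ^ 4 / 24)) := by
    rw [hs, ht]
    ring
  rw [e] at h
  linarith

theorem od_three_d01_c0 (u : ℝ) (h1 : -3 ≤ u) (h2 : u ≤ -2) :
    13534 / 100000 *
      (1 + (u + 2) + (u + 2) ^ 2 / 2 + (u + 2) ^ 3 / 6 + (u + 2) ^ 4 / 24) ≤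
      (1 + 1 / 100 + (1 / 100) ^ 2 / 2) * (1 + u + 57 / 125 * u ^ 2) := by
  obtain ⟨s, hs⟩ : ∃ s, s = u - (-3) := ⟨_, rfl⟩
  obtain ⟨t, ht⟩ : ∃ t, t = -2 - u := ⟨_, rfl⟩
  have hs0 : 0 ≤ s := by linarith
  have ht0 : 0 ≤ t := by linarith
  have h : 0 ≤
      20743927 / 10000000 * t ^ 4 + 2437129 / 375000 * s * t ^ 3 +
      18693559 / 2500000 * s ^ 2 * t ^ 2 + 1877693 / 500000 * s ^ 3 * t +
      1742353 / 2500000 * s ^ 4 := by
    positivity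
  have e :
      20743927 / 10000000 * t ^ 4 + 2437129 / 375000 * s * t ^ 3 +
      18693559 / 2500000 * s ^ 2 * t ^ 2 + 1877693 / 500000 * s ^ 3 * t +
      1742353 / 2500000 * s ^ 4 =
      (1 + 1 / 100 + (1 / 100) ^ 2 / 2) * (1 + u + 57 / 125 * u ^ 2) -
      (13534 / 100000 *
      (1 + (u + 2) + (u + 2) ^ 2 / 2 + (u + 2) ^ 3 / 6 + (u + 2) ^ 4 / 24)) := by
    rw [hs, ht]
    ring
  rw [e] at h
  linarith

theorem od_three_d01_d (u : ℝ) (h2 : u ≤ -3) :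
    4979 / 100000 ≤
      (1 + 1 / 100 + (1 / 100) ^ 2 / 2) * (1 + u + 57 / 125 * u ^ 2) := by
  obtain ⟨s, hs⟩ : ∃ s, s = -3 - u := ⟨_, rfl⟩
  have hs0 : 0 ≤ s := by linarith
  have h : 0 ≤
      1297097 / 625000 + 4383617 / 2500000 * s + 1151457 / 2500000 * s ^ 2 := by
    positivity
  have e :
      1297097 / 625000 + 4383617 / 2500000 * s + 1151457 / 2500000 * s ^ 2 =
      (1 + 1 / 100 + (1 / 100) ^ 2 / 2) * (1 + u + 57 / 125 * u ^ 2) -
      (4979 / 100000) := by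
    rw [hs]
    ring
  rw [e] at h
  linarith

theorem od_three_d01_f0 (u : ℝ) (h1 : 0 ≤ u) (h2 : u ≤ 1) :
    1 * (1 + (u - 0) / 3) ^ 3 ≤
      (1 + 1 / 100 + (1 / 100) ^ 2 / 2) * (1 + u + 57 / 125 * u ^ 2) := by
  obtain ⟨s, hs⟩ : ∃ s, s = u - (0) := ⟨_, rfl⟩
  obtain ⟨t, ht⟩ : ∃ t, t = 1 - u := ⟨_, rfl⟩
  have hs0 : 0 ≤ s := by linarith
  have ht0 : 0 ≤ t := by linarith
  have h : 0 ≤
      201 / 20000 * t ^ 3 + 201 / 5000 * s * t ^ 2 + 665623 / 3750000 * s ^ 2 * t +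
      7446089 / 67500000 * s ^ 3 := by
    positivity
  have e :
      201 / 20000 * t ^ 3 + 201 / 5000 * s * t ^ 2 + 665623 / 3750000 * s ^ 2 * t +
      7446089 / 67500000 * s ^ 3 =
      (1 + 1 / 100 + (1 / 100) ^ 2 / 2) * (1 + u + 57 / 125 * u ^ 2) -
      (1 * (1 + (u - 0) / 3) ^ 3) := by
    rw [hs, ht]
    ring
  rw [e] at h
  linarith

theorem od_three_d01_g0 (u : ℝ) (h1 : 1 ≤ u) (h2 : u ≤ 9 / 2) :
    1 * (1 + (u - 0) / 3) ^ 3 ≤
      (1 + 1 / 100 + (1 / 100) ^ 2 / 2) * ((1 + (1 / 250 * (u ^ 2 - 1)) +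
      (1 / 250 * (u ^ 2 - 1)) ^ 2 / 2 +
      (1 / 250 * (u ^ 2 - 1)) ^ 3 / 6) *
      (1 + u + 57 / 125 * u ^ 2)) := by
  obtain ⟨s, hs⟩ : ∃ s, s = u - (1) := ⟨_, rfl⟩
  obtain ⟨t, ht⟩ : ∃ t, t = 9 / 2 - u := ⟨_, rfl⟩
  have hs0 : 0 ≤ s := by linarith
  have ht0 : 0 ≤ t := by linarith
  have h : 0 ≤
      1215688 / 248165859375 * t ^ 8 + 14358126856 / 217145126953125 * s * t ^ 7 +
      192947381602 / 553941650390625 * s ^ 2 * t ^ 6 +
      449382526552958 / 484698944091796875 * s ^ 3 * t ^ 5 +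
      10820210128780783 / 7755183105468750000 * s ^ 4 * t ^ 4 +
      38360958095687 / 31020732421875000 * s ^ 5 * t ^ 3 +
      4390262263341359 / 6893496093750000000 * s ^ 6 * t ^ 2 +
      805742939852637 / 4595664062500000000 * s ^ 7 * t +
      3842116132549973 / 193017890625000000000 * s ^ 8 := by
    positivity
  have e :
      1215688 / 248165859375 * t ^ 8 + 14358126856 / 217145126953125 * s * t ^ 7 +
      192947381602 / 553941650390625 * s ^ 2 * t ^ 6 +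
      449382526552958 / 484698944091796875 * s ^ 3 * t ^ 5 +
      10820210128780783 / 7755183105468750000 * s ^ 4 * t ^ 4 +
      38360958095687 / 31020732421875000 * s ^ 5 * t ^ 3 +
      4390262263341359 / 6893496093750000000 * s ^ 6 * t ^ 2 +
      805742939852637 / 4595664062500000000 * s ^ 7 * t +
      3842116132549973 / 193017890625000000000 * s ^ 8 =
      (1 + 1 / 100 + (1 / 100) ^ 2 / 2) * ((1 + (1 / 250 * (u ^ 2 - 1)) +
      (1 / 250 * (u ^ 2 - 1)) ^ 2 / 2 +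
      (1 / 250 * (u ^ 2 - 1)) ^ 3 / 6) *
      (1 + u + 57 / 125 * u ^ 2)) -
      (1 * (1 + (u - 0) / 3) ^ 3) := by
    rw [hs, ht]
    ring
  rw [e] at h
  linarith

theorem od_three_d01_g1 (u : ℝ) (h1 : 9 / 2 ≤ u) (h2 : u ≤ 8) :
    1 * (1 + (u - 0) / 3) ^ 3 ≤
      (1 + 1 / 100 + (1 / 100) ^ 2 / 2) * ((1 + (1 / 250 * (u ^ 2 - 1)) +
      (1 / 250 * (u ^ 2 - 1)) ^ 2 / 2 +
      (1 / 250 * (u ^ 2 - 1)) ^ 3 / 6) *
      (1 + u + 57 / 125 * u ^ 2)) := by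
  obtain ⟨s, hs⟩ : ∃ s, s = u - (9 / 2) := ⟨_, rfl⟩
  obtain ⟨t, ht⟩ : ∃ t, t = 8 - u := ⟨_, rfl⟩
  have hs0 : 0 ≤ s := by linarith
  have ht0 : 0 ≤ t := by linarith
  have h : 0 ≤
      3842116132549973 / 193017890625000000000 * t ^ 8 +
      13816327323494407 / 96508945312500000000 * s * t ^ 7 +
      1419062528317937 / 3446748046875000000 * s ^ 2 * t ^ 6 +
      18489318771899263 / 31020732421875000000 * s ^ 3 * t ^ 5 +
      245871753534487 / 553941650390625000 * s ^ 4 * t ^ 4 +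
      173495776118521 / 1107883300781250000 * s ^ 5 * t ^ 3 +
      79275205804363 / 1938795776367187500 * s ^ 6 * t ^ 2 +
      470753070973967 / 13571570434570312500 * s ^ 7 * t +
      95824549245647 / 6785785217285156250 * s ^ 8 := by
    positivity
  have e :
      3842116132549973 / 193017890625000000000 * t ^ 8 +
      13816327323494407 / 96508945312500000000 * s * t ^ 7 +
      1419062528317937 / 3446748046875000000 * s ^ 2 * t ^ 6 +
      18489318771899263 / 31020732421875000000 * s ^ 3 * t ^ 5 +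
      245871753534487 / 553941650390625000 * s ^ 4 * t ^ 4 +
      173495776118521 / 1107883300781250000 * s ^ 5 * t ^ 3 +
      79275205804363 / 1938795776367187500 * s ^ 6 * t ^ 2 +
      470753070973967 / 13571570434570312500 * s ^ 7 * t +
      95824549245647 / 6785785217285156250 * s ^ 8 =
      (1 + 1 / 100 + (1 / 100) ^ 2 / 2) * ((1 + (1 / 250 * (u ^ 2 - 1)) +
      (1 / 250 * (u ^ 2 - 1)) ^ 2 / 2 +
      (1 / 250 * (u ^ 2 - 1)) ^ 3 / 6) *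
      (1 + u + 57 / 125 * u ^ 2)) -
      (1 * (1 + (u - 0) / 3) ^ 3) := by
    rw [hs, ht]
    ring
  rw [e] at h
  linarith

theorem od_three_d01_t (u : ℝ) (h1 : 8 ≤ u) :
    1 * (1 + (u - 0) / 3) ^ 3 ≤
      (1 + 1 / 100 + (1 / 100) ^ 2 / 2) * ((1 + (1 / 250 * (u ^ 2 - 1)) +
      (1 / 250 * (u ^ 2 - 1)) ^ 2 / 2 +
      (1 / 250 * (u ^ 2 - 1)) ^ 3 / 6) *
      (1 + u + 57 / 125 * u ^ 2)) := by
  obtain ⟨s, hs⟩ : ∃ s, s = u - (8) := ⟨_, rfl⟩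
  have hs0 : 0 ≤ s := by linarith
  have h : 0 ≤
      670771844719529 / 2109375000000000 + 70829314463759 / 140625000000000 * s +
      31259877399631 / 87890625000000 * s ^ 2 + 167409829501267 / 2109375000000000 * s ^ 3 +
      855481301063 / 117187500000000 * s ^ 4 + 26567486557 / 78125000000000 * s ^ 5 +
      127811727 / 9765625000000 * s ^ 6 + 76218373 / 234375000000000 * s ^ 7 +
      383819 / 78125000000000 * s ^ 8 := by
    positivity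
  have e :
      670771844719529 / 2109375000000000 + 70829314463759 / 140625000000000 * s +
      31259877399631 / 87890625000000 * s ^ 2 + 167409829501267 / 2109375000000000 * s ^ 3 +
      855481301063 / 117187500000000 * s ^ 4 + 26567486557 / 78125000000000 * s ^ 5 +
      127811727 / 9765625000000 * s ^ 6 + 76218373 / 234375000000000 * s ^ 7 +
      383819 / 78125000000000 * s ^ 8 =
      (1 + 1 / 100 + (1 / 100) ^ 2 / 2) * ((1 + (1 / 250 * (u ^ 2 - 1)) +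
      (1 / 250 * (u ^ 2 - 1)) ^ 2 / 2 +
      (1 / 250 * (u ^ 2 - 1)) ^ 3 / 6) *
      (1 + u + 57 / 125 * u ^ 2)) -
      (1 * (1 + (u - 0) / 3) ^ 3) := by
    rw [hs]
    ring
  rw [e] at h
  linarith

/-- `K = 3`: `(c, μ, P, δ) = (57 / 125, 1 / 250, 0, 1 / 100)` -/
theorem expOd_three_d01 : ExpOd 3 (57 / 125) (1 / 250) (0) (1 / 100) := by
  have hde : (1 + 1 / 100 + (1 / 100) ^ 2 / 2) ≤ Real.exp (1 / 100) := Real.quadratic_le_exp_of_nonneg (by norm_num)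
  have hq : ∀ u : ℝ, 0 ≤ 1 + u + 57 / 125 * u ^ 2 := fun u => by
    nlinarith [sq_nonneg (u + 2), sq_nonneg u]
  have hR : ∀ (u x y : ℝ), x ≤ y → y ≤ (1 + 1 / 100 + (1 / 100) ^ 2 / 2) * (1 + u + 57 / 125 * u ^ 2) →
      x ≤ Real.exp (1 / 100) * (1 + u + 57 / 125 * u ^ 2) := fun u x y h1 h2 =>
    (h1.trans h2).trans (mul_le_mul_of_nonneg_right hde (hq u))
  refine ExpOd.of (by norm_num) (by norm_num) (by norm_num) (by norm_num) (by norm_num) ?_ ?_ ?_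
  · intro u h1
    rcases le_total u (-3) with h3 | h3
    · exact hR u _ _ (exp_le_n3 h3) (od_three_d01_d u h3)
    rcases le_total u (-2) with h4 | h4
    · refine hR u _ _ (exp_le_n2 h4) ?_
      exact od_three_d01_c0 u (by linarith) (by linarith)
    rcases le_total u (-1) with h5 | h5
    · refine hR u _ _ (exp_le_n1 h5) ?_
      exact od_three_d01_b0 u (by linarith) (by linarith)
    rcases le_total u 0 with h6 | h6
    · refine hR u _ _ (exp_le_n0 h6) ?_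
      rcases le_total u (-1 / 2) with hh | hh
      · exact od_three_d01_a0 u (by linarith) (by linarith)
      exact od_three_d01_a1 u (by linarith) (by linarith)
    have h7 : u = 0 := le_antisymm h1 h6
    refine hR u _ _ (exp_le_n0 h7.le) ?_
    exact od_three_d01_a1 u (by linarith) (by linarith)
  · intro u h1 h2
    have h4 : 0 ≤ (1 + (u - 0) / 3) ^ 3 := by
      have : 0 ≤ (u - 0) / 3 := div_nonneg (by linarith) (by norm_num)
      positivity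
    have hE : Real.exp (0) ≤ 1 := Real.exp_zero.le
    push_cast
    refine hR u _ _ (mul_le_mul_of_nonneg_right hE h4) ?_
    exact od_three_d01_f0 u (by linarith) (by linarith)
  · intro u h1
    have h4 : 0 ≤ (1 + (u - 0) / 3) ^ 3 := by
      have : 0 ≤ (u - 0) / 3 := div_nonneg (by linarith) (by norm_num)
      positivity
    have hE : Real.exp (0) ≤ 1 := Real.exp_zero.le
    have hx : 0 ≤ 1 / 250 * (u ^ 2 - 1) := mul_nonneg (by norm_num) (by nlinarith)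
    have h5 := mul_le_mul_of_nonneg_right (taylor3_le_exp _ hx) (hq u)
    have h6 : 0 ≤ Real.exp (1 / 250 * (u ^ 2 - 1)) * (1 + u + 57 / 125 * u ^ 2) :=
      mul_nonneg (Real.exp_nonneg _) (hq u)
    rw [Real.exp_add, mul_assoc]
    push_cast
    refine ((mul_le_mul_of_nonneg_right hE h4).trans ?_).trans
      ((mul_le_mul_of_nonneg_left h5 (by norm_num : (0 : ℝ) ≤ (1 + 1 / 100 + (1 / 100) ^ 2 / 2))).trans
        (mul_le_mul_of_nonneg_right hde h6))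
    rcases le_total u (9 / 2) with hh | hh
    · exact od_three_d01_g0 u (by linarith) (by linarith)
    rcases le_total u (8) with hh | hh
    · exact od_three_d01_g1 u (by linarith) (by linarith)
    exact od_three_d01_t u (by linarith)

theorem od_three_d02_a0 (u : ℝ) (h1 : -1 ≤ u) (h2 : u ≤ 0) :
    1 + u + u ^ 2 / 2 + u ^ 3 / 6 + u ^ 4 / 24 ≤
      1 * (1 + u + 501 / 1000 * u ^ 2) := by
  obtain ⟨s, hs⟩ : ∃ s, s = u - (-1) := ⟨_, rfl⟩
  obtain ⟨t, ht⟩ : ∃ t, t = 0 - u := ⟨_, rfl⟩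
  have hs0 : 0 ≤ s := by linarith
  have ht0 : 0 ≤ t := by linarith
  have h : 0 ≤
      63 / 500 * t ^ 4 + 253 / 1500 * s * t ^ 3 + 1 / 1000 * s ^ 2 * t ^ 2 := by
    positivity
  have e :
      63 / 500 * t ^ 4 + 253 / 1500 * s * t ^ 3 + 1 / 1000 * s ^ 2 * t ^ 2 =
      1 * (1 + u + 501 / 1000 * u ^ 2) -
      (1 + u + u ^ 2 / 2 + u ^ 3 / 6 + u ^ 4 / 24) := by
    rw [hs, ht]
    ring
  rw [e] at h
  linarith

theorem od_three_d02_b0 (u : ℝ) (h1 : -2 ≤ u) (h2 : u ≤ -1) :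
    36788 / 100000 *
      (1 + (u + 1) + (u + 1) ^ 2 / 2 + (u + 1) ^ 3 / 6 + (u + 1) ^ 4 / 24) ≤
      1 * (1 + u + 501 / 1000 * u ^ 2) := by
  obtain ⟨s, hs⟩ : ∃ s, s = u - (-2) := ⟨_, rfl⟩
  obtain ⟨t, ht⟩ : ∃ t, t = -1 - u := ⟨_, rfl⟩
  have hs0 : 0 ≤ s := by linarith
  have ht0 : 0 ≤ t := by linarith
  have h : 0 ≤
      173209 / 200000 * t ^ 4 + 350633 / 150000 * s * t ^ 3 +
      111271 / 50000 * s ^ 2 * t ^ 2 + 22559 / 25000 * s ^ 3 * t + 416 / 3125 * s ^ 4 := by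
    positivity
  have e :
      173209 / 200000 * t ^ 4 + 350633 / 150000 * s * t ^ 3 +
      111271 / 50000 * s ^ 2 * t ^ 2 + 22559 / 25000 * s ^ 3 * t + 416 / 3125 * s ^ 4 =
      1 * (1 + u + 501 / 1000 * u ^ 2) -
      (36788 / 100000 *
      (1 + (u + 1) + (u + 1) ^ 2 / 2 + (u + 1) ^ 3 / 6 + (u + 1) ^ 4 / 24)) := by
    rw [hs, ht]
    ring
  rw [e] at h
  linarith

theorem od_three_d02_c0 (u : ℝ) (h1 : -3 ≤ u) (h2 : u ≤ -2) :
    13534 / 100000 *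
      (1 + (u + 2) + (u + 2) ^ 2 / 2 + (u + 2) ^ 3 / 6 + (u + 2) ^ 4 / 24) ≤
      1 * (1 + u + 501 / 1000 * u ^ 2) := by
  obtain ⟨s, hs⟩ : ∃ s, s = u - (-3) := ⟨_, rfl⟩
  obtain ⟨t, ht⟩ : ∃ t, t = -2 - u := ⟨_, rfl⟩
  have hs0 : 0 ≤ s := by linarith
  have ht0 : 0 ≤ t := by linarith
  have h : 0 ≤
      983299 / 400000 * t ^ 4 + 2334563 / 300000 * s * t ^ 3 +
      906331 / 100000 * s ^ 2 * t ^ 2 + 230699 / 50000 * s ^ 3 * t + 43433 / 50000 * s ^ 4 := by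
    positivity
  have e :
      983299 / 400000 * t ^ 4 + 2334563 / 300000 * s * t ^ 3 +
      906331 / 100000 * s ^ 2 * t ^ 2 + 230699 / 50000 * s ^ 3 * t + 43433 / 50000 * s ^ 4 =
      1 * (1 + u + 501 / 1000 * u ^ 2) -
      (13534 / 100000 *
      (1 + (u + 2) + (u + 2) ^ 2 / 2 + (u + 2) ^ 3 / 6 + (u + 2) ^ 4 / 24)) := by
    rw [hs, ht]
    ring
  rw [e] at h
  linarith

theorem od_three_d02_d (u : ℝ) (h2 : u ≤ -3) :
    4979 / 100000 ≤
      1 * (1 + u + 501 / 1000 * u ^ 2) := by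
  obtain ⟨s, hs⟩ : ∃ s, s = -3 - u := ⟨_, rfl⟩
  have hs0 : 0 ≤ s := by linarith
  have h : 0 ≤
      245921 / 100000 + 1003 / 500 * s + 501 / 1000 * s ^ 2 := by
    positivity
  have e :
      245921 / 100000 + 1003 / 500 * s + 501 / 1000 * s ^ 2 =
      1 * (1 + u + 501 / 1000 * u ^ 2) -
      (4979 / 100000) := by
    rw [hs]
    ring
  rw [e] at h
  linarith

theorem od_three_d02_f0 (u : ℝ) (h1 : 0 ≤ u) (h2 : u ≤ 1) :
    1 * (1 + (u - 0) / 3) ^ 3 ≤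
      1 * (1 + u + 501 / 1000 * u ^ 2) := by
  obtain ⟨s, hs⟩ : ∃ s, s = u - (0) := ⟨_, rfl⟩
  obtain ⟨t, ht⟩ : ∃ t, t = 1 - u := ⟨_, rfl⟩
  have hs0 : 0 ≤ s := by linarith
  have ht0 : 0 ≤ t := by linarith
  have h : 0 ≤
      503 / 3000 * s ^ 2 * t + 3527 / 27000 * s ^ 3 := by
    positivity
  have e :
      503 / 3000 * s ^ 2 * t + 3527 / 27000 * s ^ 3 =
      1 * (1 + u + 501 / 1000 * u ^ 2) -
      (1 * (1 + (u - 0) / 3) ^ 3) := by
    rw [hs, ht]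
    ring
  rw [e] at h
  linarith

theorem od_three_d02_g0 (u : ℝ) (h1 : 1 ≤ u) (h2 : u ≤ 2) :
    1 * (1 + (u - 0) / 3) ^ 3 ≤
      1 * ((1 + (7 / 1000 * (u ^ 2 - 1)) +
      (7 / 1000 * (u ^ 2 - 1)) ^ 2 / 2 +
      (7 / 1000 * (u ^ 2 - 1)) ^ 3 / 6) *
      (1 + u + 501 / 1000 * u ^ 2)) := by
  obtain ⟨s, hs⟩ : ∃ s, s = u - (1) := ⟨_, rfl⟩
  obtain ⟨t, ht⟩ : ∃ t, t = 2 - u := ⟨_, rfl⟩
  have hs0 : 0 ≤ s := by linarith
  have ht0 : 0 ≤ t := by linarith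
  have h : 0 ≤
      3527 / 27000 * t ^ 8 + 17607689 / 13500000 * s * t ^ 7 +
      75257354323 / 13500000000 * s ^ 2 * t ^ 6 +
      30054751308029 / 2250000000000 * s ^ 3 * t ^ 5 +
      29517539788081 / 1500000000000 * s ^ 4 * t ^ 4 +
      32930891139767 / 1800000000000 * s ^ 5 * t ^ 3 +
      567225265084169 / 54000000000000 * s ^ 6 * t ^ 2 +
      46054781830297 / 13500000000000 * s ^ 7 * t + 6487633926599 / 13500000000000 * s ^ 8 := by
    positivity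
  have e :
      3527 / 27000 * t ^ 8 + 17607689 / 13500000 * s * t ^ 7 +
      75257354323 / 13500000000 * s ^ 2 * t ^ 6 +
      30054751308029 / 2250000000000 * s ^ 3 * t ^ 5 +
      29517539788081 / 1500000000000 * s ^ 4 * t ^ 4 +
      32930891139767 / 1800000000000 * s ^ 5 * t ^ 3 +
      567225265084169 / 54000000000000 * s ^ 6 * t ^ 2 +
      46054781830297 / 13500000000000 * s ^ 7 * t + 6487633926599 / 13500000000000 * s ^ 8 =
      1 * ((1 + (7 / 1000 * (u ^ 2 - 1)) +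
      (7 / 1000 * (u ^ 2 - 1)) ^ 2 / 2 +
      (7 / 1000 * (u ^ 2 - 1)) ^ 3 / 6) *
      (1 + u + 501 / 1000 * u ^ 2)) -
      (1 * (1 + (u - 0) / 3) ^ 3) := by
    rw [hs, ht]
    ring
  rw [e] at h
  linarith

theorem od_three_d02_t (u : ℝ) (h1 : 2 ≤ u) :
    1 * (1 + (u - 0) / 3) ^ 3 ≤
      1 * ((1 + (7 / 1000 * (u ^ 2 - 1)) +
      (7 / 1000 * (u ^ 2 - 1)) ^ 2 / 2 +
      (7 / 1000 * (u ^ 2 - 1)) ^ 3 / 6) *
      (1 + u + 501 / 1000 * u ^ 2)) := by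
  obtain ⟨s, hs⟩ : ∃ s, s = u - (2) := ⟨_, rfl⟩
  have hs0 : 0 ≤ s := by linarith
  have h : 0 ≤
      6487633926599 / 13500000000000 + 389752638833 / 900000000000 * s +
      1435457871647 / 18000000000000 * s ^ 2 + 3323882827 / 3375000000000 * s ^ 3 +
      27197874949 / 6000000000000 * s ^ 4 + 94455193 / 500000000000 * s ^ 5 +
      32507629 / 2000000000000 * s ^ 6 + 386561 / 750000000000 * s ^ 7 +
      57281 / 2000000000000 * s ^ 8 := by
    positivity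
  have e :
      6487633926599 / 13500000000000 + 389752638833 / 900000000000 * s +
      1435457871647 / 18000000000000 * s ^ 2 + 3323882827 / 3375000000000 * s ^ 3 +
      27197874949 / 6000000000000 * s ^ 4 + 94455193 / 500000000000 * s ^ 5 +
      32507629 / 2000000000000 * s ^ 6 + 386561 / 750000000000 * s ^ 7 +
      57281 / 2000000000000 * s ^ 8 =
      1 * ((1 + (7 / 1000 * (u ^ 2 - 1)) +
      (7 / 1000 * (u ^ 2 - 1)) ^ 2 / 2 +
      (7 / 1000 * (u ^ 2 - 1)) ^ 3 / 6) *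
      (1 + u + 501 / 1000 * u ^ 2)) -
      (1 * (1 + (u - 0) / 3) ^ 3) := by
    rw [hs]
    ring
  rw [e] at h
  linarith

/-- `K = 3`: `(c, μ, P, δ) = (501 / 1000, 7 / 1000, 0, 0)` -/
theorem expOd_three_d02 : ExpOd 3 (501 / 1000) (7 / 1000) (0) (0) := by
  have hde : 1 ≤ Real.exp (0) := Real.exp_zero.ge
  have hq : ∀ u : ℝ, 0 ≤ 1 + u + 501 / 1000 * u ^ 2 := fun u => by
    nlinarith [sq_nonneg (u + 2), sq_nonneg u]
  have hR : ∀ (u x y : ℝ), x ≤ y → y ≤ 1 * (1 + u + 501 / 1000 * u ^ 2) →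
      x ≤ Real.exp (0) * (1 + u + 501 / 1000 * u ^ 2) := fun u x y h1 h2 =>
    (h1.trans h2).trans (mul_le_mul_of_nonneg_right hde (hq u))
  refine ExpOd.of (by norm_num) (by norm_num) (by norm_num) (by norm_num) (by norm_num) ?_ ?_ ?_
  · intro u h1
    rcases le_total u (-3) with h3 | h3
    · exact hR u _ _ (exp_le_n3 h3) (od_three_d02_d u h3)
    rcases le_total u (-2) with h4 | h4
    · refine hR u _ _ (exp_le_n2 h4) ?_
      exact od_three_d02_c0 u (by linarith) (by linarith)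
    rcases le_total u (-1) with h5 | h5
    · refine hR u _ _ (exp_le_n1 h5) ?_
      exact od_three_d02_b0 u (by linarith) (by linarith)
    rcases le_total u 0 with h6 | h6
    · refine hR u _ _ (exp_le_n0 h6) ?_
      exact od_three_d02_a0 u (by linarith) (by linarith)
    have h7 : u = 0 := le_antisymm h1 h6
    refine hR u _ _ (exp_le_n0 h7.le) ?_
    exact od_three_d02_a0 u (by linarith) (by linarith)
  · intro u h1 h2
    have h4 : 0 ≤ (1 + (u - 0) / 3) ^ 3 := by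
      have : 0 ≤ (u - 0) / 3 := div_nonneg (by linarith) (by norm_num)
      positivity
    have hE : Real.exp (0) ≤ 1 := Real.exp_zero.le
    push_cast
    refine hR u _ _ (mul_le_mul_of_nonneg_right hE h4) ?_
    exact od_three_d02_f0 u (by linarith) (by linarith)
  · intro u h1
    have h4 : 0 ≤ (1 + (u - 0) / 3) ^ 3 := by
      have : 0 ≤ (u - 0) / 3 := div_nonneg (by linarith) (by norm_num)
      positivity
    have hE : Real.exp (0) ≤ 1 := Real.exp_zero.le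
    have hx : 0 ≤ 7 / 1000 * (u ^ 2 - 1) := mul_nonneg (by norm_num) (by nlinarith)
    have h5 := mul_le_mul_of_nonneg_right (taylor3_le_exp _ hx) (hq u)
    have h6 : 0 ≤ Real.exp (7 / 1000 * (u ^ 2 - 1)) * (1 + u + 501 / 1000 * u ^ 2) :=
      mul_nonneg (Real.exp_nonneg _) (hq u)
    rw [Real.exp_add, mul_assoc]
    push_cast
    refine ((mul_le_mul_of_nonneg_right hE h4).trans ?_).trans
      ((mul_le_mul_of_nonneg_left h5 (by norm_num : (0 : ℝ) ≤ 1)).trans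
        (mul_le_mul_of_nonneg_right hde h6))
    rcases le_total u (2) with hh | hh
    · exact od_three_d02_g0 u (by linarith) (by linarith)
    exact od_three_d02_t u (by linarith)

theorem od_three_d03_a0 (u : ℝ) (h1 : -1 ≤ u) (h2 : u ≤ -1 / 2) :
    1 + u + u ^ 2 / 2 + u ^ 3 / 6 + u ^ 4 / 24 ≤
      (1 + 1 / 200 + (1 / 200) ^ 2 / 2) * (1 + u + 21 / 50 * u ^ 2) := by
  obtain ⟨s, hs⟩ : ∃ s, s = u - (-1) := ⟨_, rfl⟩
  obtain ⟨t, ht⟩ : ∃ t, t = -1 / 2 - u := ⟨_, rfl⟩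
  have hs0 : 0 ≤ s := by linarith
  have ht0 : 0 ≤ t := by linarith
  have h : 0 ≤
      188421 / 250000 * t ^ 4 + 153233 / 93750 * s * t ^ 3 +
      1069773 / 1000000 * s ^ 2 * t ^ 2 + 125413 / 500000 * s ^ 3 * t +
      60563 / 3000000 * s ^ 4 := by
    positivity
  have e :
      188421 / 250000 * t ^ 4 + 153233 / 93750 * s * t ^ 3 +
      1069773 / 1000000 * s ^ 2 * t ^ 2 + 125413 / 500000 * s ^ 3 * t +
      60563 / 3000000 * s ^ 4 =
      (1 + 1 / 200 + (1 / 200) ^ 2 / 2) * (1 + u + 21 / 50 * u ^ 2) -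
      (1 + u + u ^ 2 / 2 + u ^ 3 / 6 + u ^ 4 / 24) := by
    rw [hs, ht]
    ring
  rw [e] at h
  linarith

theorem od_three_d03_a1 (u : ℝ) (h1 : -1 / 2 ≤ u) (h2 : u ≤ -3 / 8) :
    1 + u + u ^ 2 / 2 + u ^ 3 / 6 + u ^ 4 / 24 ≤
      (1 + 1 / 200 + (1 / 200) ^ 2 / 2) * (1 + u + 21 / 50 * u ^ 2) := by
  obtain ⟨s, hs⟩ : ∃ s, s = u - (-1 / 2) := ⟨_, rfl⟩
  obtain ⟨t, ht⟩ : ∃ t, t = -3 / 8 - u := ⟨_, rfl⟩
  have hs0 : 0 ≤ s := by linarith
  have ht0 : 0 ≤ t := by linarith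
  have h : 0 ≤
      242252 / 46875 * t ^ 4 + 458782 / 46875 * s * t ^ 3 + 335533 / 62500 * s ^ 2 * t ^ 2 +
      43141 / 31250 * s ^ 3 * t + 73703 / 125000 * s ^ 4 := by
    positivity
  have e :
      242252 / 46875 * t ^ 4 + 458782 / 46875 * s * t ^ 3 + 335533 / 62500 * s ^ 2 * t ^ 2 +
      43141 / 31250 * s ^ 3 * t + 73703 / 125000 * s ^ 4 =
      (1 + 1 / 200 + (1 / 200) ^ 2 / 2) * (1 + u + 21 / 50 * u ^ 2) -
      (1 + u + u ^ 2 / 2 + u ^ 3 / 6 + u ^ 4 / 24) := by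
    rw [hs, ht]
    ring
  rw [e] at h
  linarith

theorem od_three_d03_a2 (u : ℝ) (h1 : -3 / 8 ≤ u) (h2 : u ≤ -1 / 4) :
    1 + u + u ^ 2 / 2 + u ^ 3 / 6 + u ^ 4 / 24 ≤
      (1 + 1 / 200 + (1 / 200) ^ 2 / 2) * (1 + u + 21 / 50 * u ^ 2) := by
  obtain ⟨s, hs⟩ : ∃ s, s = u - (-3 / 8) := ⟨_, rfl⟩
  obtain ⟨t, ht⟩ : ∃ t, t = -1 / 4 - u := ⟨_, rfl⟩
  have hs0 : 0 ≤ s := by linarith
  have ht0 : 0 ≤ t := by linarith
  have h : 0 ≤
      73703 / 125000 * t ^ 4 + 20853 / 6250 * s * t ^ 3 + 702277 / 62500 * s ^ 2 * t ^ 2 +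
      131143 / 9375 * s ^ 3 * t + 85271 / 15625 * s ^ 4 := by
    positivity
  have e :
      73703 / 125000 * t ^ 4 + 20853 / 6250 * s * t ^ 3 + 702277 / 62500 * s ^ 2 * t ^ 2 +
      131143 / 9375 * s ^ 3 * t + 85271 / 15625 * s ^ 4 =
      (1 + 1 / 200 + (1 / 200) ^ 2 / 2) * (1 + u + 21 / 50 * u ^ 2) -
      (1 + u + u ^ 2 / 2 + u ^ 3 / 6 + u ^ 4 / 24) := by
    rw [hs, ht]
    ring
  rw [e] at h
  linarith

theorem od_three_d03_a3 (u : ℝ) (h1 : -1 / 4 ≤ u) (h2 : u ≤ 0) :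
    1 + u + u ^ 2 / 2 + u ^ 3 / 6 + u ^ 4 / 24 ≤
      (1 + 1 / 200 + (1 / 200) ^ 2 / 2) * (1 + u + 21 / 50 * u ^ 2) := by
  obtain ⟨s, hs⟩ : ∃ s, s = u - (-1 / 4) := ⟨_, rfl⟩
  obtain ⟨t, ht⟩ : ∃ t, t = 0 - u := ⟨_, rfl⟩
  have hs0 : 0 ≤ s := by linarith
  have ht0 : 0 ≤ t := by linarith
  have h : 0 ≤
      85271 / 250000 * t ^ 4 + 879163 / 375000 * s * t ^ 3 +
      1372621 / 250000 * s ^ 2 * t ^ 2 + 1203 / 250 * s ^ 3 * t + 802 / 625 * s ^ 4 := by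
    positivity
  have e :
      85271 / 250000 * t ^ 4 + 879163 / 375000 * s * t ^ 3 +
      1372621 / 250000 * s ^ 2 * t ^ 2 + 1203 / 250 * s ^ 3 * t + 802 / 625 * s ^ 4 =
      (1 + 1 / 200 + (1 / 200) ^ 2 / 2) * (1 + u + 21 / 50 * u ^ 2) -
      (1 + u + u ^ 2 / 2 + u ^ 3 / 6 + u ^ 4 / 24) := by
    rw [hs, ht]
    ring
  rw [e] at h
  linarith

theorem od_three_d03_b0 (u : ℝ) (h1 : -2 ≤ u) (h2 : u ≤ -1) :
    36788 / 100000 *
      (1 + (u + 1) + (u + 1) ^ 2 / 2 + (u + 1) ^ 3 / 6 + (u + 1) ^ 4 / 24) ≤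
      (1 + 1 / 200 + (1 / 200) ^ 2 / 2) * (1 + u + 21 / 50 * u ^ 2) := by
  obtain ⟨s, hs⟩ : ∃ s, s = u - (-2) := ⟨_, rfl⟩
  obtain ⟨t, ht⟩ : ∃ t, t = -1 - u := ⟨_, rfl⟩
  have hs0 : 0 ≤ s := by linarith
  have ht0 : 0 ≤ t := by linarith
  have h : 0 ≤
      1090907 / 2000000 * t ^ 4 + 8254673 / 6000000 * s * t ^ 3 +
      4739003 / 4000000 * s ^ 2 * t ^ 2 + 423979 / 1000000 * s ^ 3 * t +
      216901 / 4000000 * s ^ 4 := by
    positivity
  have e :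
      1090907 / 2000000 * t ^ 4 + 8254673 / 6000000 * s * t ^ 3 +
      4739003 / 4000000 * s ^ 2 * t ^ 2 + 423979 / 1000000 * s ^ 3 * t +
      216901 / 4000000 * s ^ 4 =
      (1 + 1 / 200 + (1 / 200) ^ 2 / 2) * (1 + u + 21 / 50 * u ^ 2) -
      (36788 / 100000 *
      (1 + (u + 1) + (u + 1) ^ 2 / 2 + (u + 1) ^ 3 / 6 + (u + 1) ^ 4 / 24)) := by
    rw [hs, ht]
    ring
  rw [e] at h
  linarith

theorem od_three_d03_c0 (u : ℝ) (h1 : -3 ≤ u) (h2 : u ≤ -2) :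
    13534 / 100000 *
      (1 + (u + 2) + (u + 2) ^ 2 / 2 + (u + 2) ^ 3 / 6 + (u + 2) ^ 4 / 24) ≤
      (1 + 1 / 200 + (1 / 200) ^ 2 / 2) * (1 + u + 21 / 50 * u ^ 2) := by
  obtain ⟨s, hs⟩ : ∃ s, s = u - (-3) := ⟨_, rfl⟩
  obtain ⟨t, ht⟩ : ∃ t, t = -2 - u := ⟨_, rfl⟩
  have hs0 : 0 ≤ s := by linarith
  have ht0 : 0 ≤ t := by linarith
  have h : 0 ≤
      6952679 / 4000000 * t ^ 4 + 50437 / 9375 * s * t ^ 3 +
      24396367 / 4000000 * s ^ 2 * t ^ 2 + 1204409 / 400000 * s ^ 3 * t +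
      1096137 / 2000000 * s ^ 4 := by
    positivity
  have e :
      6952679 / 4000000 * t ^ 4 + 50437 / 9375 * s * t ^ 3 +
      24396367 / 4000000 * s ^ 2 * t ^ 2 + 1204409 / 400000 * s ^ 3 * t +
      1096137 / 2000000 * s ^ 4 =
      (1 + 1 / 200 + (1 / 200) ^ 2 / 2) * (1 + u + 21 / 50 * u ^ 2) -
      (13534 / 100000 *
      (1 + (u + 2) + (u + 2) ^ 2 / 2 + (u + 2) ^ 3 / 6 + (u + 2) ^ 4 / 24)) := by
    rw [hs, ht]
    ring
  rw [e] at h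
  linarith

theorem od_three_d03_d (u : ℝ) (h2 : u ≤ -3) :
    4979 / 100000 ≤
      (1 + 1 / 200 + (1 / 200) ^ 2 / 2) * (1 + u + 21 / 50 * u ^ 2) := by
  obtain ⟨s, hs⟩ : ∃ s, s = -3 - u := ⟨_, rfl⟩
  have hs0 : 0 ≤ s := by linarith
  have h : 0 ≤
      6956529 / 4000000 + 1527619 / 1000000 * s + 1688421 / 4000000 * s ^ 2 := by
    positivity
  have e :
      6956529 / 4000000 + 1527619 / 1000000 * s + 1688421 / 4000000 * s ^ 2 =
      (1 + 1 / 200 + (1 / 200) ^ 2 / 2) * (1 + u + 21 / 50 * u ^ 2) -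
      (4979 / 100000) := by
    rw [hs]
    ring
  rw [e] at h
  linarith

theorem od_three_d03_f0 (u : ℝ) (h1 : 0 ≤ u) (h2 : u ≤ 1) :
    1 * (1 + (u - 0) / 3) ^ 3 ≤
      (1 + 1 / 200 + (1 / 200) ^ 2 / 2) * (1 + u + 21 / 50 * u ^ 2) := by
  obtain ⟨s, hs⟩ : ∃ s, s = u - (0) := ⟨_, rfl⟩
  obtain ⟨t, ht⟩ : ∃ t, t = 1 - u := ⟨_, rfl⟩
  have hs0 : 0 ≤ s := by linarith
  have ht0 : 0 ≤ t := by linarith
  have h : 0 ≤
      401 / 80000 * t ^ 3 + 401 / 20000 * s * t ^ 2 + 1366013 / 12000000 * s ^ 2 * t +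
      6670067 / 108000000 * s ^ 3 := by
    positivity
  have e :
      401 / 80000 * t ^ 3 + 401 / 20000 * s * t ^ 2 + 1366013 / 12000000 * s ^ 2 * t +
      6670067 / 108000000 * s ^ 3 =
      (1 + 1 / 200 + (1 / 200) ^ 2 / 2) * (1 + u + 21 / 50 * u ^ 2) -
      (1 * (1 + (u - 0) / 3) ^ 3) := by
    rw [hs, ht]
    ring
  rw [e] at h
  linarith

theorem od_three_d03_g0 (u : ℝ) (h1 : 1 ≤ u) (h2 : u ≤ 3) :
    1 * (1 + (u - 0) / 3) ^ 3 ≤
      (1 + 1 / 200 + (1 / 200) ^ 2 / 2) * ((1 + (7 / 1000 * (u ^ 2 - 1)) +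
      (7 / 1000 * (u ^ 2 - 1)) ^ 2 / 2 +
      (7 / 1000 * (u ^ 2 - 1)) ^ 3 / 6) *
      (1 + u + 21 / 50 * u ^ 2)) := by
  obtain ⟨s, hs⟩ : ∃ s, s = u - (1) := ⟨_, rfl⟩
  obtain ⟨t, ht⟩ : ∃ t, t = 3 - u := ⟨_, rfl⟩
  have hs0 : 0 ≤ s := by linarith
  have ht0 : 0 ≤ t := by linarith
  have h : 0 ≤
      6670067 / 27648000000 * t ^ 8 + 19036866469 / 6912000000000 * s * t ^ 7 +
      44407710297283 / 3456000000000000 * s ^ 2 * t ^ 6 +
      27832825638943327 / 864000000000000000 * s ^ 3 * t ^ 5 +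
      10376415736361081 / 216000000000000000 * s ^ 4 * t ^ 4 +
      38128881882597139 / 864000000000000000 * s ^ 5 * t ^ 3 +
      295693610693069 / 12000000000000000 * s ^ 6 * t ^ 2 +
      61793427119439 / 8000000000000000 * s ^ 7 * t + 6312893918551 / 6000000000000000 * s ^ 8 := by
    positivity
  have e :
      6670067 / 27648000000 * t ^ 8 + 19036866469 / 6912000000000 * s * t ^ 7 +
      44407710297283 / 3456000000000000 * s ^ 2 * t ^ 6 +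
      27832825638943327 / 864000000000000000 * s ^ 3 * t ^ 5 +
      10376415736361081 / 216000000000000000 * s ^ 4 * t ^ 4 +
      38128881882597139 / 864000000000000000 * s ^ 5 * t ^ 3 +
      295693610693069 / 12000000000000000 * s ^ 6 * t ^ 2 +
      61793427119439 / 8000000000000000 * s ^ 7 * t + 6312893918551 / 6000000000000000 * s ^ 8 =
      (1 + 1 / 200 + (1 / 200) ^ 2 / 2) * ((1 + (7 / 1000 * (u ^ 2 - 1)) +
      (7 / 1000 * (u ^ 2 - 1)) ^ 2 / 2 +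
      (7 / 1000 * (u ^ 2 - 1)) ^ 3 / 6) *
      (1 + u + 21 / 50 * u ^ 2)) -
      (1 * (1 + (u - 0) / 3) ^ 3) := by
    rw [hs, ht]
    ring
  rw [e] at h
  linarith

theorem od_three_d03_t (u : ℝ) (h1 : 3 ≤ u) :
    1 * (1 + (u - 0) / 3) ^ 3 ≤
      (1 + 1 / 200 + (1 / 200) ^ 2 / 2) * ((1 + (7 / 1000 * (u ^ 2 - 1)) +
      (7 / 1000 * (u ^ 2 - 1)) ^ 2 / 2 +
      (7 / 1000 * (u ^ 2 - 1)) ^ 3 / 6) *
      (1 + u + 21 / 50 * u ^ 2)) := by
  obtain ⟨s, hs⟩ : ∃ s, s = u - (3) := ⟨_, rfl⟩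
  have hs0 : 0 ≤ s := by linarith
  have h : 0 ≤
      6312893918551 / 23437500000000 + 3326464807063 / 37500000000000 * s +
      769370755631 / 375000000000000 * s ^ 2 + 370441789116281 / 27000000000000000 * s ^ 3 +
      9821084018067 / 2000000000000000 * s ^ 4 + 1030694911029 / 4000000000000000 * s ^ 5 +
      422736156647 / 24000000000000000 * s ^ 6 + 7638979411 / 12000000000000000 * s ^ 7 +
      193042801 / 8000000000000000 * s ^ 8 := by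
    positivity
  have e :
      6312893918551 / 23437500000000 + 3326464807063 / 37500000000000 * s +
      769370755631 / 375000000000000 * s ^ 2 + 370441789116281 / 27000000000000000 * s ^ 3 +
      9821084018067 / 2000000000000000 * s ^ 4 + 1030694911029 / 4000000000000000 * s ^ 5 +
      422736156647 / 24000000000000000 * s ^ 6 + 7638979411 / 12000000000000000 * s ^ 7 +
      193042801 / 8000000000000000 * s ^ 8 =
      (1 + 1 / 200 + (1 / 200) ^ 2 / 2) * ((1 + (7 / 1000 * (u ^ 2 - 1)) +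
      (7 / 1000 * (u ^ 2 - 1)) ^ 2 / 2 +
      (7 / 1000 * (u ^ 2 - 1)) ^ 3 / 6) *
      (1 + u + 21 / 50 * u ^ 2)) -
      (1 * (1 + (u - 0) / 3) ^ 3) := by
    rw [hs]
    ring
  rw [e] at h
  linarith

/-- `K = 3`: `(c, μ, P, δ) = (21 / 50, 7 / 1000, 0, 1 / 200)` -/
theorem expOd_three_d03 : ExpOd 3 (21 / 50) (7 / 1000) (0) (1 / 200) := by
  have hde : (1 + 1 / 200 + (1 / 200) ^ 2 / 2) ≤ Real.exp (1 / 200) := Real.quadratic_le_exp_of_nonneg (by norm_num)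
  have hq : ∀ u : ℝ, 0 ≤ 1 + u + 21 / 50 * u ^ 2 := fun u => by
    nlinarith [sq_nonneg (u + 2), sq_nonneg u]
  have hR : ∀ (u x y : ℝ), x ≤ y → y ≤ (1 + 1 / 200 + (1 / 200) ^ 2 / 2) * (1 + u + 21 / 50 * u ^ 2) →
      x ≤ Real.exp (1 / 200) * (1 + u + 21 / 50 * u ^ 2) := fun u x y h1 h2 =>
    (h1.trans h2).trans (mul_le_mul_of_nonneg_right hde (hq u))
  refine ExpOd.of (by norm_num) (by norm_num) (by norm_num) (by norm_num) (by norm_num) ?_ ?_ ?_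
  · intro u h1
    rcases le_total u (-3) with h3 | h3
    · exact hR u _ _ (exp_le_n3 h3) (od_three_d03_d u h3)
    rcases le_total u (-2) with h4 | h4
    · refine hR u _ _ (exp_le_n2 h4) ?_
      exact od_three_d03_c0 u (by linarith) (by linarith)
    rcases le_total u (-1) with h5 | h5
    · refine hR u _ _ (exp_le_n1 h5) ?_
      exact od_three_d03_b0 u (by linarith) (by linarith)
    rcases le_total u 0 with h6 | h6
    · refine hR u _ _ (exp_le_n0 h6) ?_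
      rcases le_total u (-1 / 2) with hh | hh
      · exact od_three_d03_a0 u (by linarith) (by linarith)
      rcases le_total u (-3 / 8) with hh | hh
      · exact od_three_d03_a1 u (by linarith) (by linarith)
      rcases le_total u (-1 / 4) with hh | hh
      · exact od_three_d03_a2 u (by linarith) (by linarith)
      exact od_three_d03_a3 u (by linarith) (by linarith)
    have h7 : u = 0 := le_antisymm h1 h6
    refine hR u _ _ (exp_le_n0 h7.le) ?_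
    exact od_three_d03_a3 u (by linarith) (by linarith)
  · intro u h1 h2
    have h4 : 0 ≤ (1 + (u - 0) / 3) ^ 3 := by
      have : 0 ≤ (u - 0) / 3 := div_nonneg (by linarith) (by norm_num)
      positivity
    have hE : Real.exp (0) ≤ 1 := Real.exp_zero.le
    push_cast
    refine hR u _ _ (mul_le_mul_of_nonneg_right hE h4) ?_
    exact od_three_d03_f0 u (by linarith) (by linarith)
  · intro u h1
    have h4 : 0 ≤ (1 + (u - 0) / 3) ^ 3 := by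
      have : 0 ≤ (u - 0) / 3 := div_nonneg (by linarith) (by norm_num)
      positivity
    have hE : Real.exp (0) ≤ 1 := Real.exp_zero.le
    have hx : 0 ≤ 7 / 1000 * (u ^ 2 - 1) := mul_nonneg (by norm_num) (by nlinarith)
    have h5 := mul_le_mul_of_nonneg_right (taylor3_le_exp _ hx) (hq u)
    have h6 : 0 ≤ Real.exp (7 / 1000 * (u ^ 2 - 1)) * (1 + u + 21 / 50 * u ^ 2) :=
      mul_nonneg (Real.exp_nonneg _) (hq u)
    rw [Real.exp_add, mul_assoc]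
    push_cast
    refine ((mul_le_mul_of_nonneg_right hE h4).trans ?_).trans
      ((mul_le_mul_of_nonneg_left h5 (by norm_num : (0 : ℝ) ≤ (1 + 1 / 200 + (1 / 200) ^ 2 / 2))).trans
        (mul_le_mul_of_nonneg_right hde h6))
    rcases le_total u (3) with hh | hh
    · exact od_three_d03_g0 u (by linarith) (by linarith)
    exact od_three_d03_t u (by linarith)

theorem od_three_d04_a0 (u : ℝ) (h1 : -1 ≤ u) (h2 : u ≤ -1 / 2) :
    1 + u + u ^ 2 / 2 + u ^ 3 / 6 + u ^ 4 / 24 ≤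
      (1 + 1 / 100 + (1 / 100) ^ 2 / 2) * (1 + u + 101 / 250 * u ^ 2) := by
  obtain ⟨s, hs⟩ : ∃ s, s = u - (-1) := ⟨_, rfl⟩
  obtain ⟨t, ht⟩ : ∃ t, t = -1 / 2 - u := ⟨_, rfl⟩
  have hs0 : 0 ≤ s := by linarith
  have ht0 : 0 ≤ t := by linarith
  have h : 0 ≤
      165301 / 312500 * t ^ 4 + 234521 / 234375 * s * t ^ 3 +
      575413 / 1250000 * s ^ 2 * t ^ 2 + 21653 / 625000 * s ^ 3 * t + 16153 / 3750000 * s ^ 4 := by
    positivity
  have e :
      165301 / 312500 * t ^ 4 + 234521 / 234375 * s * t ^ 3 +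
      575413 / 1250000 * s ^ 2 * t ^ 2 + 21653 / 625000 * s ^ 3 * t + 16153 / 3750000 * s ^ 4 =
      (1 + 1 / 100 + (1 / 100) ^ 2 / 2) * (1 + u + 101 / 250 * u ^ 2) -
      (1 + u + u ^ 2 / 2 + u ^ 3 / 6 + u ^ 4 / 24) := by
    rw [hs, ht]
    ring
  rw [e] at h
  linarith

theorem od_three_d04_a1 (u : ℝ) (h1 : -1 / 2 ≤ u) (h2 : u ≤ -1 / 4) :
    1 + u + u ^ 2 / 2 + u ^ 3 / 6 + u ^ 4 / 24 ≤
      (1 + 1 / 100 + (1 / 100) ^ 2 / 2) * (1 + u + 101 / 250 * u ^ 2) := by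
  obtain ⟨s, hs⟩ : ∃ s, s = u - (-1 / 2) := ⟨_, rfl⟩
  obtain ⟨t, ht⟩ : ∃ t, t = -1 / 4 - u := ⟨_, rfl⟩
  have hs0 : 0 ≤ s := by linarith
  have ht0 : 0 ≤ t := by linarith
  have h : 0 ≤
      16153 / 234375 * t ^ 4 + 10653 / 78125 * s * t ^ 3 + 476413 / 312500 * s ^ 2 * t ^ 2 +
      1210459 / 468750 * s ^ 3 * t + 677227 / 625000 * s ^ 4 := by
    positivity
  have e :
      16153 / 234375 * t ^ 4 + 10653 / 78125 * s * t ^ 3 + 476413 / 312500 * s ^ 2 * t ^ 2 +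
      1210459 / 468750 * s ^ 3 * t + 677227 / 625000 * s ^ 4 =
      (1 + 1 / 100 + (1 / 100) ^ 2 / 2) * (1 + u + 101 / 250 * u ^ 2) -
      (1 + u + u ^ 2 / 2 + u ^ 3 / 6 + u ^ 4 / 24) := by
    rw [hs, ht]
    ring
  rw [e] at h
  linarith

theorem od_three_d04_a2 (u : ℝ) (h1 : -1 / 4 ≤ u) (h2 : u ≤ 0) :
    1 + u + u ^ 2 / 2 + u ^ 3 / 6 + u ^ 4 / 24 ≤
      (1 + 1 / 100 + (1 / 100) ^ 2 / 2) * (1 + u + 101 / 250 * u ^ 2) := by
  obtain ⟨s, hs⟩ : ∃ s, s = u - (-1 / 4) := ⟨_, rfl⟩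
  obtain ⟨t, ht⟩ : ∃ t, t = 0 - u := ⟨_, rfl⟩
  have hs0 : 0 ≤ s := by linarith
  have ht0 : 0 ≤ t := by linarith
  have h : 0 ≤
      677227 / 625000 * t ^ 4 + 2852903 / 468750 * s * t ^ 3 +
      3761301 / 312500 * s ^ 2 * t ^ 2 + 1206 / 125 * s ^ 3 * t + 1608 / 625 * s ^ 4 := by
    positivity
  have e :
      677227 / 625000 * t ^ 4 + 2852903 / 468750 * s * t ^ 3 +
      3761301 / 312500 * s ^ 2 * t ^ 2 + 1206 / 125 * s ^ 3 * t + 1608 / 625 * s ^ 4 =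
      (1 + 1 / 100 + (1 / 100) ^ 2 / 2) * (1 + u + 101 / 250 * u ^ 2) -
      (1 + u + u ^ 2 / 2 + u ^ 3 / 6 + u ^ 4 / 24) := by
    rw [hs, ht]
    ring
  rw [e] at h
  linarith

theorem od_three_d04_b0 (u : ℝ) (h1 : -2 ≤ u) (h2 : u ≤ -1) :
    36788 / 100000 *
      (1 + (u + 1) + (u + 1) ^ 2 / 2 + (u + 1) ^ 3 / 6 + (u + 1) ^ 4 / 24) ≤
      (1 + 1 / 100 + (1 / 100) ^ 2 / 2) * (1 + u + 101 / 250 * u ^ 2) := by
  obtain ⟨s, hs⟩ : ∃ s, s = u - (-2) := ⟨_, rfl⟩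
  obtain ⟨t, ht⟩ : ∃ t, t = -1 - u := ⟨_, rfl⟩
  have hs0 : 0 ≤ s := by linarith
  have ht0 : 0 ≤ t := by linarith
  have h : 0 ≤
      2421179 / 5000000 * t ^ 4 + 8940943 / 7500000 * s * t ^ 3 +
      4935263 / 5000000 * s ^ 2 * t ^ 2 + 418339 / 1250000 * s ^ 3 * t +
      200901 / 5000000 * s ^ 4 := by
    positivity
  have e :
      2421179 / 5000000 * t ^ 4 + 8940943 / 7500000 * s * t ^ 3 +
      4935263 / 5000000 * s ^ 2 * t ^ 2 + 418339 / 1250000 * s ^ 3 * t +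
      200901 / 5000000 * s ^ 4 =
      (1 + 1 / 100 + (1 / 100) ^ 2 / 2) * (1 + u + 101 / 250 * u ^ 2) -
      (36788 / 100000 *
      (1 + (u + 1) + (u + 1) ^ 2 / 2 + (u + 1) ^ 3 / 6 + (u + 1) ^ 4 / 24)) := by
    rw [hs, ht]
    ring
  rw [e] at h
  linarith

theorem od_three_d04_c0 (u : ℝ) (h1 : -3 ≤ u) (h2 : u ≤ -2) :
    13534 / 100000 *
      (1 + (u + 2) + (u + 2) ^ 2 / 2 + (u + 2) ^ 3 / 6 + (u + 2) ^ 4 / 24) ≤
      (1 + 1 / 100 + (1 / 100) ^ 2 / 2) * (1 + u + 101 / 250 * u ^ 2) := by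
  obtain ⟨s, hs⟩ : ∃ s, s = u - (-3) := ⟨_, rfl⟩
  obtain ⟨t, ht⟩ : ∃ t, t = -2 - u := ⟨_, rfl⟩
  have hs0 : 0 ≤ s := by linarith
  have ht0 : 0 ≤ t := by linarith
  have h : 0 ≤
      16016893 / 10000000 * t ^ 4 + 7384999 / 1500000 * s * t ^ 3 +
      27670437 / 5000000 * s ^ 2 * t ^ 2 + 1352467 / 500000 * s ^ 3 * t +
      1217127 / 2500000 * s ^ 4 := by
    positivity
  have e :
      16016893 / 10000000 * t ^ 4 + 7384999 / 1500000 * s * t ^ 3 +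
      27670437 / 5000000 * s ^ 2 * t ^ 2 + 1352467 / 500000 * s ^ 3 * t +
      1217127 / 2500000 * s ^ 4 =
      (1 + 1 / 100 + (1 / 100) ^ 2 / 2) * (1 + u + 101 / 250 * u ^ 2) -
      (13534 / 100000 *
      (1 + (u + 2) + (u + 2) ^ 2 / 2 + (u + 2) ^ 3 / 6 + (u + 2) ^ 4 / 24)) := by
    rw [hs, ht]
    ring
  rw [e] at h
  linarith

theorem od_three_d04_d (u : ℝ) (h2 : u ≤ -3) :
    4979 / 100000 ≤
      (1 + 1 / 100 + (1 / 100) ^ 2 / 2) * (1 + u + 101 / 250 * u ^ 2) := by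
  obtain ⟨s, hs⟩ : ∃ s, s = -3 - u := ⟨_, rfl⟩
  have hs0 : 0 ≤ s := by linarith
  have h : 0 ≤
      8013259 / 5000000 + 1797889 / 1250000 * s + 2040301 / 5000000 * s ^ 2 := by
    positivity
  have e :
      8013259 / 5000000 + 1797889 / 1250000 * s + 2040301 / 5000000 * s ^ 2 =
      (1 + 1 / 100 + (1 / 100) ^ 2 / 2) * (1 + u + 101 / 250 * u ^ 2) -
      (4979 / 100000) := by
    rw [hs]
    ring
  rw [e] at h
  linarith

theorem od_three_d04_f0 (u : ℝ) (h1 : 0 ≤ u) (h2 : u ≤ 1) :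
    1 * (1 + (u - 0) / 3) ^ 3 ≤
      (1 + 1 / 100 + (1 / 100) ^ 2 / 2) * (1 + u + 101 / 250 * u ^ 2) := by
  obtain ⟨s, hs⟩ : ∃ s, s = u - (0) := ⟨_, rfl⟩
  obtain ⟨t, ht⟩ : ∃ t, t = 1 - u := ⟨_, rfl⟩
  have hs0 : 0 ≤ s := by linarith
  have ht0 : 0 ≤ t := by linarith
  have h : 0 ≤
      201 / 20000 * t ^ 3 + 201 / 5000 * s * t ^ 2 + 1874653 / 15000000 * s ^ 2 * t +
      7801627 / 135000000 * s ^ 3 := by
    positivity
  have e :
      201 / 20000 * t ^ 3 + 201 / 5000 * s * t ^ 2 + 1874653 / 15000000 * s ^ 2 * t +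
      7801627 / 135000000 * s ^ 3 =
      (1 + 1 / 100 + (1 / 100) ^ 2 / 2) * (1 + u + 101 / 250 * u ^ 2) -
      (1 * (1 + (u - 0) / 3) ^ 3) := by
    rw [hs, ht]
    ring
  rw [e] at h
  linarith

theorem od_three_d04_g0 (u : ℝ) (h1 : 1 ≤ u) (h2 : u ≤ 4) :
    1 * (1 + (u - 0) / 3) ^ 3 ≤
      (1 + 1 / 100 + (1 / 100) ^ 2 / 2) * ((1 + (7 / 1000 * (u ^ 2 - 1)) +
      (7 / 1000 * (u ^ 2 - 1)) ^ 2 / 2 +
      (7 / 1000 * (u ^ 2 - 1)) ^ 3 / 6) *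
      (1 + u + 101 / 250 * u ^ 2)) := by
  obtain ⟨s, hs⟩ : ∃ s, s = u - (1) := ⟨_, rfl⟩
  obtain ⟨t, ht⟩ : ∃ t, t = 4 - u := ⟨_, rfl⟩
  have hs0 : 0 ≤ s := by linarith
  have ht0 : 0 ≤ t := by linarith
  have h : 0 ≤
      7801627 / 885735000000 * t ^ 8 + 47889848167 / 442867500000000 * s * t ^ 7 +
      229904621689007 / 442867500000000000 * s ^ 2 * t ^ 6 +
      279578684036050049 / 221433750000000000000 * s ^ 3 * t ^ 5 +
      767458808905128269 / 442867500000000000000 * s ^ 4 * t ^ 4 +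
      1240163861115235571 / 885735000000000000000 * s ^ 5 * t ^ 3 +
      236403764324392993 / 354294000000000000000 * s ^ 6 * t ^ 2 +
      6420271080322757 / 35429400000000000000 * s ^ 7 * t +
      169982668268717 / 7085880000000000000 * s ^ 8 := by
    positivity
  have e :
      7801627 / 885735000000 * t ^ 8 + 47889848167 / 442867500000000 * s * t ^ 7 +
      229904621689007 / 442867500000000000 * s ^ 2 * t ^ 6 +
      279578684036050049 / 221433750000000000000 * s ^ 3 * t ^ 5 +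
      767458808905128269 / 442867500000000000000 * s ^ 4 * t ^ 4 +
      1240163861115235571 / 885735000000000000000 * s ^ 5 * t ^ 3 +
      236403764324392993 / 354294000000000000000 * s ^ 6 * t ^ 2 +
      6420271080322757 / 35429400000000000000 * s ^ 7 * t +
      169982668268717 / 7085880000000000000 * s ^ 8 =
      (1 + 1 / 100 + (1 / 100) ^ 2 / 2) * ((1 + (7 / 1000 * (u ^ 2 - 1)) +
      (7 / 1000 * (u ^ 2 - 1)) ^ 2 / 2 +
      (7 / 1000 * (u ^ 2 - 1)) ^ 3 / 6) *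
      (1 + u + 101 / 250 * u ^ 2)) -
      (1 * (1 + (u - 0) / 3) ^ 3) := by
    rw [hs, ht]
    ring
  rw [e] at h
  linarith

theorem od_three_d04_t (u : ℝ) (h1 : 4 ≤ u) :
    1 * (1 + (u - 0) / 3) ^ 3 ≤
      (1 + 1 / 100 + (1 / 100) ^ 2 / 2) * ((1 + (7 / 1000 * (u ^ 2 - 1)) +
      (7 / 1000 * (u ^ 2 - 1)) ^ 2 / 2 +
      (7 / 1000 * (u ^ 2 - 1)) ^ 3 / 6) *
      (1 + u + 101 / 250 * u ^ 2)) := by
  obtain ⟨s, hs⟩ : ∃ s, s = u - (4) := ⟨_, rfl⟩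
  have hs0 : 0 ≤ s := by linarith
  have h : 0 ≤
      169982668268717 / 1080000000000000 + 42115072269547 / 1800000000000000 * s +
      924463862148289 / 18000000000000000 * s ^ 2 +
      4634406091193737 / 135000000000000000 * s ^ 3 +
      188890607593079 / 30000000000000000 * s ^ 4 +
      5508378035083 / 15000000000000000 * s ^ 5 + 132316085377 / 6000000000000000 * s ^ 6 +
      12063289763 / 15000000000000000 * s ^ 7 + 699823243 / 30000000000000000 * s ^ 8 := by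
    positivity
  have e :
      169982668268717 / 1080000000000000 + 42115072269547 / 1800000000000000 * s +
      924463862148289 / 18000000000000000 * s ^ 2 +
      4634406091193737 / 135000000000000000 * s ^ 3 +
      188890607593079 / 30000000000000000 * s ^ 4 +
      5508378035083 / 15000000000000000 * s ^ 5 + 132316085377 / 6000000000000000 * s ^ 6 +
      12063289763 / 15000000000000000 * s ^ 7 + 699823243 / 30000000000000000 * s ^ 8 =
      (1 + 1 / 100 + (1 / 100) ^ 2 / 2) * ((1 + (7 / 1000 * (u ^ 2 - 1)) +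
      (7 / 1000 * (u ^ 2 - 1)) ^ 2 / 2 +
      (7 / 1000 * (u ^ 2 - 1)) ^ 3 / 6) *
      (1 + u + 101 / 250 * u ^ 2)) -
      (1 * (1 + (u - 0) / 3) ^ 3) := by
    rw [hs]
    ring
  rw [e] at h
  linarith

/-- `K = 3`: `(c, μ, P, δ) = (101 / 250, 7 / 1000, 0, 1 / 100)` -/
theorem expOd_three_d04 : ExpOd 3 (101 / 250) (7 / 1000) (0) (1 / 100) := by
  have hde : (1 + 1 / 100 + (1 / 100) ^ 2 / 2) ≤ Real.exp (1 / 100) := Real.quadratic_le_exp_of_nonneg (by norm_num)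
  have hq : ∀ u : ℝ, 0 ≤ 1 + u + 101 / 250 * u ^ 2 := fun u => by
    nlinarith [sq_nonneg (u + 2), sq_nonneg u]
  have hR : ∀ (u x y : ℝ), x ≤ y → y ≤ (1 + 1 / 100 + (1 / 100) ^ 2 / 2) * (1 + u + 101 / 250 * u ^ 2) →
      x ≤ Real.exp (1 / 100) * (1 + u + 101 / 250 * u ^ 2) := fun u x y h1 h2 =>
    (h1.trans h2).trans (mul_le_mul_of_nonneg_right hde (hq u))
  refine ExpOd.of (by norm_num) (by norm_num) (by norm_num) (by norm_num) (by norm_num) ?_ ?_ ?_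
  · intro u h1
    rcases le_total u (-3) with h3 | h3
    · exact hR u _ _ (exp_le_n3 h3) (od_three_d04_d u h3)
    rcases le_total u (-2) with h4 | h4
    · refine hR u _ _ (exp_le_n2 h4) ?_
      exact od_three_d04_c0 u (by linarith) (by linarith)
    rcases le_total u (-1) with h5 | h5
    · refine hR u _ _ (exp_le_n1 h5) ?_
      exact od_three_d04_b0 u (by linarith) (by linarith)
    rcases le_total u 0 with h6 | h6
    · refine hR u _ _ (exp_le_n0 h6) ?_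
      rcases le_total u (-1 / 2) with hh | hh
      · exact od_three_d04_a0 u (by linarith) (by linarith)
      rcases le_total u (-1 / 4) with hh | hh
      · exact od_three_d04_a1 u (by linarith) (by linarith)
      exact od_three_d04_a2 u (by linarith) (by linarith)
    have h7 : u = 0 := le_antisymm h1 h6
    refine hR u _ _ (exp_le_n0 h7.le) ?_
    exact od_three_d04_a2 u (by linarith) (by linarith)
  · intro u h1 h2
    have h4 : 0 ≤ (1 + (u - 0) / 3) ^ 3 := by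
      have : 0 ≤ (u - 0) / 3 := div_nonneg (by linarith) (by norm_num)
      positivity
    have hE : Real.exp (0) ≤ 1 := Real.exp_zero.le
    push_cast
    refine hR u _ _ (mul_le_mul_of_nonneg_right hE h4) ?_
    exact od_three_d04_f0 u (by linarith) (by linarith)
  · intro u h1
    have h4 : 0 ≤ (1 + (u - 0) / 3) ^ 3 := by
      have : 0 ≤ (u - 0) / 3 := div_nonneg (by linarith) (by norm_num)
      positivity
    have hE : Real.exp (0) ≤ 1 := Real.exp_zero.le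
    have hx : 0 ≤ 7 / 1000 * (u ^ 2 - 1) := mul_nonneg (by norm_num) (by nlinarith)
    have h5 := mul_le_mul_of_nonneg_right (taylor3_le_exp _ hx) (hq u)
    have h6 : 0 ≤ Real.exp (7 / 1000 * (u ^ 2 - 1)) * (1 + u + 101 / 250 * u ^ 2) :=
      mul_nonneg (Real.exp_nonneg _) (hq u)
    rw [Real.exp_add, mul_assoc]
    push_cast
    refine ((mul_le_mul_of_nonneg_right hE h4).trans ?_).trans
      ((mul_le_mul_of_nonneg_left h5 (by norm_num : (0 : ℝ) ≤ (1 + 1 / 100 + (1 / 100) ^ 2 / 2))).trans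
        (mul_le_mul_of_nonneg_right hde h6))
    rcases le_total u (4) with hh | hh
    · exact od_three_d04_g0 u (by linarith) (by linarith)
    exact od_three_d04_t u (by linarith)

theorem od_three_d05_a0 (u : ℝ) (h1 : -1 ≤ u) (h2 : u ≤ -3 / 4) :
    1 + u + u ^ 2 / 2 + u ^ 3 / 6 + u ^ 4 / 24 ≤
      (1 + 1 / 50 + (1 / 50) ^ 2 / 2) * (1 + u + 77 / 200 * u ^ 2) := by
  obtain ⟨s, hs⟩ : ∃ s, s = u - (-1) := ⟨_, rfl⟩
  obtain ⟨t, ht⟩ : ∃ t, t = -3 / 4 - u := ⟨_, rfl⟩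
  have hs0 : 0 ≤ s := by linarith
  have ht0 : 0 ≤ t := by linarith
  have h : 0 ≤
      71108 / 15625 * t ^ 4 + 557234 / 46875 * s * t ^ 3 + 665121 / 62500 * s ^ 2 * t ^ 2 +
      119517 / 31250 * s ^ 3 * t + 59711 / 125000 * s ^ 4 := by
    positivity
  have e :
      71108 / 15625 * t ^ 4 + 557234 / 46875 * s * t ^ 3 + 665121 / 62500 * s ^ 2 * t ^ 2 +
      119517 / 31250 * s ^ 3 * t + 59711 / 125000 * s ^ 4 =
      (1 + 1 / 50 + (1 / 50) ^ 2 / 2) * (1 + u + 77 / 200 * u ^ 2) -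
      (1 + u + u ^ 2 / 2 + u ^ 3 / 6 + u ^ 4 / 24) := by
    rw [hs, ht]
    ring
  rw [e] at h
  linarith

theorem od_three_d05_a1 (u : ℝ) (h1 : -3 / 4 ≤ u) (h2 : u ≤ -5 / 8) :
    1 + u + u ^ 2 / 2 + u ^ 3 / 6 + u ^ 4 / 24 ≤
      (1 + 1 / 50 + (1 / 50) ^ 2 / 2) * (1 + u + 77 / 200 * u ^ 2) := by
  obtain ⟨s, hs⟩ : ∃ s, s = u - (-3 / 4) := ⟨_, rfl⟩
  obtain ⟨t, ht⟩ : ∃ t, t = -5 / 8 - u := ⟨_, rfl⟩
  have hs0 : 0 ≤ s := by linarith
  have ht0 : 0 ≤ t := by linarith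
  have h : 0 ≤
      119422 / 15625 * t ^ 4 + 238464 / 15625 * s * t ^ 3 + 126012 / 15625 * s ^ 2 * t ^ 2 +
      5467 / 9375 * s ^ 3 * t + 477 / 5000 * s ^ 4 := by
    positivity
  have e :
      119422 / 15625 * t ^ 4 + 238464 / 15625 * s * t ^ 3 + 126012 / 15625 * s ^ 2 * t ^ 2 +
      5467 / 9375 * s ^ 3 * t + 477 / 5000 * s ^ 4 =
      (1 + 1 / 50 + (1 / 50) ^ 2 / 2) * (1 + u + 77 / 200 * u ^ 2) -
      (1 + u + u ^ 2 / 2 + u ^ 3 / 6 + u ^ 4 / 24) := by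
    rw [hs, ht]
    ring
  rw [e] at h
  linarith

theorem od_three_d05_a2 (u : ℝ) (h1 : -5 / 8 ≤ u) (h2 : u ≤ -1 / 2) :
    1 + u + u ^ 2 / 2 + u ^ 3 / 6 + u ^ 4 / 24 ≤
      (1 + 1 / 50 + (1 / 50) ^ 2 / 2) * (1 + u + 77 / 200 * u ^ 2) := by
  obtain ⟨s, hs⟩ : ∃ s, s = u - (-5 / 8) := ⟨_, rfl⟩
  obtain ⟨t, ht⟩ : ∃ t, t = -1 / 2 - u := ⟨_, rfl⟩
  have hs0 : 0 ≤ s := by linarith
  have ht0 : 0 ≤ t := by linarith
  have h : 0 ≤
      477 / 5000 * t ^ 4 + 1688 / 9375 * s * t ^ 3 + 107117 / 15625 * s ^ 2 * t ^ 2 +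
      203944 / 15625 * s ^ 3 * t + 292496 / 46875 * s ^ 4 := by
    positivity
  have e :
      477 / 5000 * t ^ 4 + 1688 / 9375 * s * t ^ 3 + 107117 / 15625 * s ^ 2 * t ^ 2 +
      203944 / 15625 * s ^ 3 * t + 292496 / 46875 * s ^ 4 =
      (1 + 1 / 50 + (1 / 50) ^ 2 / 2) * (1 + u + 77 / 200 * u ^ 2) -
      (1 + u + u ^ 2 / 2 + u ^ 3 / 6 + u ^ 4 / 24) := by
    rw [hs, ht]
    ring
  rw [e] at h
  linarith

theorem od_three_d05_a3 (u : ℝ) (h1 : -1 / 2 ≤ u) (h2 : u ≤ 0) :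
    1 + u + u ^ 2 / 2 + u ^ 3 / 6 + u ^ 4 / 24 ≤
      (1 + 1 / 50 + (1 / 50) ^ 2 / 2) * (1 + u + 77 / 200 * u ^ 2) := by
  obtain ⟨s, hs⟩ : ∃ s, s = u - (-1 / 2) := ⟨_, rfl⟩
  obtain ⟨t, ht⟩ : ∃ t, t = 0 - u := ⟨_, rfl⟩
  have hs0 : 0 ≤ s := by linarith
  have ht0 : 0 ≤ t := by linarith
  have h : 0 ≤
      18281 / 750000 * t ^ 4 + 106331 / 375000 * s * t ^ 3 +
      256377 / 250000 * s ^ 2 * t ^ 2 + 707 / 625 * s ^ 3 * t + 202 / 625 * s ^ 4 := by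
    positivity
  have e :
      18281 / 750000 * t ^ 4 + 106331 / 375000 * s * t ^ 3 +
      256377 / 250000 * s ^ 2 * t ^ 2 + 707 / 625 * s ^ 3 * t + 202 / 625 * s ^ 4 =
      (1 + 1 / 50 + (1 / 50) ^ 2 / 2) * (1 + u + 77 / 200 * u ^ 2) -
      (1 + u + u ^ 2 / 2 + u ^ 3 / 6 + u ^ 4 / 24) := by
    rw [hs, ht]
    ring
  rw [e] at h
  linarith

theorem od_three_d05_b0 (u : ℝ) (h1 : -2 ≤ u) (h2 : u ≤ -1) :
    36788 / 100000 *
      (1 + (u + 1) + (u + 1) ^ 2 / 2 + (u + 1) ^ 3 / 6 + (u + 1) ^ 4 / 24) ≤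
      (1 + 1 / 50 + (1 / 50) ^ 2 / 2) * (1 + u + 77 / 200 * u ^ 2) := by
  obtain ⟨s, hs⟩ : ∃ s, s = u - (-2) := ⟨_, rfl⟩
  obtain ⟨t, ht⟩ : ∃ t, t = -1 - u := ⟨_, rfl⟩
  have hs0 : 0 ≤ s := by linarith
  have ht0 : 0 ≤ t := by linarith
  have h : 0 ≤
      412953 / 1000000 * t ^ 4 + 183427 / 187500 * s * t ^ 3 +
      757921 / 1000000 * s ^ 2 * t ^ 2 + 116411 / 500000 * s ^ 3 * t + 24897 / 1000000 * s ^ 4 := by
    positivity
  have e :
      412953 / 1000000 * t ^ 4 + 183427 / 187500 * s * t ^ 3 +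
      757921 / 1000000 * s ^ 2 * t ^ 2 + 116411 / 500000 * s ^ 3 * t + 24897 / 1000000 * s ^ 4 =
      (1 + 1 / 50 + (1 / 50) ^ 2 / 2) * (1 + u + 77 / 200 * u ^ 2) -
      (36788 / 100000 *
      (1 + (u + 1) + (u + 1) ^ 2 / 2 + (u + 1) ^ 3 / 6 + (u + 1) ^ 4 / 24)) := by
    rw [hs, ht]
    ring
  rw [e] at h
  linarith

theorem od_three_d05_c0 (u : ℝ) (h1 : -3 ≤ u) (h2 : u ≤ -2) :
    13534 / 100000 *
      (1 + (u + 2) + (u + 2) ^ 2 / 2 + (u + 2) ^ 3 / 6 + (u + 2) ^ 4 / 24) ≤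
      (1 + 1 / 50 + (1 / 50) ^ 2 / 2) * (1 + u + 77 / 200 * u ^ 2) := by
  obtain ⟨s, hs⟩ : ∃ s, s = u - (-3) := ⟨_, rfl⟩
  obtain ⟨t, ht⟩ : ∃ t, t = -2 - u := ⟨_, rfl⟩
  have hs0 : 0 ≤ s := by linarith
  have ht0 : 0 ≤ t := by linarith
  have h : 0 ≤
      2887681 / 2000000 * t ^ 4 + 164767 / 37500 * s * t ^ 3 +
      4877259 / 1000000 * s ^ 2 * t ^ 2 + 58713 / 25000 * s ^ 3 * t + 25973 / 62500 * s ^ 4 := by
    positivity
  have e :
      2887681 / 2000000 * t ^ 4 + 164767 / 37500 * s * t ^ 3 +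
      4877259 / 1000000 * s ^ 2 * t ^ 2 + 58713 / 25000 * s ^ 3 * t + 25973 / 62500 * s ^ 4 =
      (1 + 1 / 50 + (1 / 50) ^ 2 / 2) * (1 + u + 77 / 200 * u ^ 2) -
      (13534 / 100000 *
      (1 + (u + 2) + (u + 2) ^ 2 / 2 + (u + 2) ^ 3 / 6 + (u + 2) ^ 4 / 24)) := by
    rw [hs, ht]
    ring
  rw [e] at h
  linarith

theorem od_three_d05_d (u : ℝ) (h2 : u ≤ -3) :
    4979 / 100000 ≤
      (1 + 1 / 50 + (1 / 50) ^ 2 / 2) * (1 + u + 77 / 200 * u ^ 2) := by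
  obtain ⟨s, hs⟩ : ∃ s, s = -3 - u := ⟨_, rfl⟩
  have hs0 : 0 ≤ s := by linarith
  have h : 0 ≤
      1444803 / 1000000 + 668231 / 500000 * s + 392777 / 1000000 * s ^ 2 := by
    positivity
  have e :
      1444803 / 1000000 + 668231 / 500000 * s + 392777 / 1000000 * s ^ 2 =
      (1 + 1 / 50 + (1 / 50) ^ 2 / 2) * (1 + u + 77 / 200 * u ^ 2) -
      (4979 / 100000) := by
    rw [hs]
    ring
  rw [e] at h
  linarith

theorem od_three_d05_f0 (u : ℝ) (h1 : 0 ≤ u) (h2 : u ≤ 1) :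
    1 * (1 + (u - 0) / 3) ^ 3 ≤
      (1 + 1 / 50 + (1 / 50) ^ 2 / 2) * (1 + u + 77 / 200 * u ^ 2) := by
  obtain ⟨s, hs⟩ : ∃ s, s = u - (0) := ⟨_, rfl⟩
  obtain ⟨t, ht⟩ : ∃ t, t = 1 - u := ⟨_, rfl⟩
  have hs0 : 0 ≤ s := by linarith
  have ht0 : 0 ≤ t := by linarith
  have h : 0 ≤
      101 / 5000 * t ^ 3 + 101 / 1250 * s * t ^ 2 + 481331 / 3000000 * s ^ 2 * t +
      1695779 / 27000000 * s ^ 3 := by
    positivity
  have e :
      101 / 5000 * t ^ 3 + 101 / 1250 * s * t ^ 2 + 481331 / 3000000 * s ^ 2 * t +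
      1695779 / 27000000 * s ^ 3 =
      (1 + 1 / 50 + (1 / 50) ^ 2 / 2) * (1 + u + 77 / 200 * u ^ 2) -
      (1 * (1 + (u - 0) / 3) ^ 3) := by
    rw [hs, ht]
    ring
  rw [e] at h
  linarith

theorem od_three_d05_g0 (u : ℝ) (h1 : 1 ≤ u) (h2 : u ≤ 2) :
    1 * (1 + (u - 0) / 3) ^ 3 ≤
      (1 + 1 / 50 + (1 / 50) ^ 2 / 2) * ((1 + (1 / 100 * (u ^ 2 - 1)) +
      (1 / 100 * (u ^ 2 - 1)) ^ 2 / 2 +
      (1 / 100 * (u ^ 2 - 1)) ^ 3 / 6) *
      (1 + u + 77 / 200 * u ^ 2)) := by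
  obtain ⟨s, hs⟩ : ∃ s, s = u - (1) := ⟨_, rfl⟩
  obtain ⟨t, ht⟩ : ∃ t, t = 2 - u := ⟨_, rfl⟩
  have hs0 : 0 ≤ s := by linarith
  have ht0 : 0 ≤ t := by linarith
  have h : 0 ≤
      1695779 / 27000000 * t ^ 8 + 781775279 / 1350000000 * s * t ^ 7 +
      311084550829 / 135000000000 * s ^ 2 * t ^ 6 +
      11636841566381 / 2250000000000 * s ^ 3 * t ^ 5 +
      448186133891 / 62500000000 * s ^ 4 * t ^ 4 +
      11340567968273 / 1800000000000 * s ^ 5 * t ^ 3 +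
      185317702698191 / 54000000000000 * s ^ 6 * t ^ 2 +
      14333231086183 / 13500000000000 * s ^ 7 * t + 1932318742361 / 13500000000000 * s ^ 8 := by
    positivity
  have e :
      1695779 / 27000000 * t ^ 8 + 781775279 / 1350000000 * s * t ^ 7 +
      311084550829 / 135000000000 * s ^ 2 * t ^ 6 +
      11636841566381 / 2250000000000 * s ^ 3 * t ^ 5 +
      448186133891 / 62500000000 * s ^ 4 * t ^ 4 +
      11340567968273 / 1800000000000 * s ^ 5 * t ^ 3 +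
      185317702698191 / 54000000000000 * s ^ 6 * t ^ 2 +
      14333231086183 / 13500000000000 * s ^ 7 * t + 1932318742361 / 13500000000000 * s ^ 8 =
      (1 + 1 / 50 + (1 / 50) ^ 2 / 2) * ((1 + (1 / 100 * (u ^ 2 - 1)) +
      (1 / 100 * (u ^ 2 - 1)) ^ 2 / 2 +
      (1 / 100 * (u ^ 2 - 1)) ^ 3 / 6) *
      (1 + u + 77 / 200 * u ^ 2)) -
      (1 * (1 + (u - 0) / 3) ^ 3) := by
    rw [hs, ht]
    ring
  rw [e] at h
  linarith

theorem od_three_d05_t (u : ℝ) (h1 : 2 ≤ u) :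
    1 * (1 + (u - 0) / 3) ^ 3 ≤
      (1 + 1 / 50 + (1 / 50) ^ 2 / 2) * ((1 + (1 / 100 * (u ^ 2 - 1)) +
      (1 / 100 * (u ^ 2 - 1)) ^ 2 / 2 +
      (1 / 100 * (u ^ 2 - 1)) ^ 3 / 6) *
      (1 + u + 77 / 200 * u ^ 2)) := by
  obtain ⟨s, hs⟩ : ∃ s, s = u - (2) := ⟨_, rfl⟩
  have hs0 : 0 ≤ s := by linarith
  have h : 0 ≤
      1932318742361 / 13500000000000 + 75021256847 / 900000000000 * s +
      135643809833 / 18000000000000 * s ^ 2 + 33572761903 / 3375000000000 * s ^ 3 +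
      34451189911 / 6000000000000 * s ^ 4 + 494189981 / 1500000000000 * s ^ 5 +
      175948793 / 6000000000000 * s ^ 6 + 913079 / 750000000000 * s ^ 7 +
      392777 / 6000000000000 * s ^ 8 := by
    positivity
  have e :
      1932318742361 / 13500000000000 + 75021256847 / 900000000000 * s +
      135643809833 / 18000000000000 * s ^ 2 + 33572761903 / 3375000000000 * s ^ 3 +
      34451189911 / 6000000000000 * s ^ 4 + 494189981 / 1500000000000 * s ^ 5 +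
      175948793 / 6000000000000 * s ^ 6 + 913079 / 750000000000 * s ^ 7 +
      392777 / 6000000000000 * s ^ 8 =
      (1 + 1 / 50 + (1 / 50) ^ 2 / 2) * ((1 + (1 / 100 * (u ^ 2 - 1)) +
      (1 / 100 * (u ^ 2 - 1)) ^ 2 / 2 +
      (1 / 100 * (u ^ 2 - 1)) ^ 3 / 6) *
      (1 + u + 77 / 200 * u ^ 2)) -
      (1 * (1 + (u - 0) / 3) ^ 3) := by
    rw [hs]
    ring
  rw [e] at h
  linarith

/-- `K = 3`: `(c, μ, P, δ) = (77 / 200, 1 / 100, 0, 1 / 50)` -/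
theorem expOd_three_d05 : ExpOd 3 (77 / 200) (1 / 100) (0) (1 / 50) := by
  have hde : (1 + 1 / 50 + (1 / 50) ^ 2 / 2) ≤ Real.exp (1 / 50) := Real.quadratic_le_exp_of_nonneg (by norm_num)
  have hq : ∀ u : ℝ, 0 ≤ 1 + u + 77 / 200 * u ^ 2 := fun u => by
    nlinarith [sq_nonneg (u + 2), sq_nonneg u]
  have hR : ∀ (u x y : ℝ), x ≤ y → y ≤ (1 + 1 / 50 + (1 / 50) ^ 2 / 2) * (1 + u + 77 / 200 * u ^ 2) →
      x ≤ Real.exp (1 / 50) * (1 + u + 77 / 200 * u ^ 2) := fun u x y h1 h2 =>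
    (h1.trans h2).trans (mul_le_mul_of_nonneg_right hde (hq u))
  refine ExpOd.of (by norm_num) (by norm_num) (by norm_num) (by norm_num) (by norm_num) ?_ ?_ ?_
  · intro u h1
    rcases le_total u (-3) with h3 | h3
    · exact hR u _ _ (exp_le_n3 h3) (od_three_d05_d u h3)
    rcases le_total u (-2) with h4 | h4
    · refine hR u _ _ (exp_le_n2 h4) ?_
      exact od_three_d05_c0 u (by linarith) (by linarith)
    rcases le_total u (-1) with h5 | h5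
    · refine hR u _ _ (exp_le_n1 h5) ?_
      exact od_three_d05_b0 u (by linarith) (by linarith)
    rcases le_total u 0 with h6 | h6
    · refine hR u _ _ (exp_le_n0 h6) ?_
      rcases le_total u (-3 / 4) with hh | hh
      · exact od_three_d05_a0 u (by linarith) (by linarith)
      rcases le_total u (-5 / 8) with hh | hh
      · exact od_three_d05_a1 u (by linarith) (by linarith)
      rcases le_total u (-1 / 2) with hh | hh
      · exact od_three_d05_a2 u (by linarith) (by linarith)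
      exact od_three_d05_a3 u (by linarith) (by linarith)
    have h7 : u = 0 := le_antisymm h1 h6
    refine hR u _ _ (exp_le_n0 h7.le) ?_
    exact od_three_d05_a3 u (by linarith) (by linarith)
  · intro u h1 h2
    have h4 : 0 ≤ (1 + (u - 0) / 3) ^ 3 := by
      have : 0 ≤ (u - 0) / 3 := div_nonneg (by linarith) (by norm_num)
      positivity
    have hE : Real.exp (0) ≤ 1 := Real.exp_zero.le
    push_cast
    refine hR u _ _ (mul_le_mul_of_nonneg_right hE h4) ?_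
    exact od_three_d05_f0 u (by linarith) (by linarith)
  · intro u h1
    have h4 : 0 ≤ (1 + (u - 0) / 3) ^ 3 := by
      have : 0 ≤ (u - 0) / 3 := div_nonneg (by linarith) (by norm_num)
      positivity
    have hE : Real.exp (0) ≤ 1 := Real.exp_zero.le
    have hx : 0 ≤ 1 / 100 * (u ^ 2 - 1) := mul_nonneg (by norm_num) (by nlinarith)
    have h5 := mul_le_mul_of_nonneg_right (taylor3_le_exp _ hx) (hq u)
    have h6 : 0 ≤ Real.exp (1 / 100 * (u ^ 2 - 1)) * (1 + u + 77 / 200 * u ^ 2) :=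
      mul_nonneg (Real.exp_nonneg _) (hq u)
    rw [Real.exp_add, mul_assoc]
    push_cast
    refine ((mul_le_mul_of_nonneg_right hE h4).trans ?_).trans
      ((mul_le_mul_of_nonneg_left h5 (by norm_num : (0 : ℝ) ≤ (1 + 1 / 50 + (1 / 50) ^ 2 / 2))).trans
        (mul_le_mul_of_nonneg_right hde h6))
    rcases le_total u (2) with hh | hh
    · exact od_three_d05_g0 u (by linarith) (by linarith)
    exact od_three_d05_t u (by linarith)

theorem od_three_d06_a0 (u : ℝ) (h1 : -1 ≤ u) (h2 : u ≤ -7 / 8) :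
    1 + u + u ^ 2 / 2 + u ^ 3 / 6 + u ^ 4 / 24 ≤
      (1 + 1 / 20 + (1 / 20) ^ 2 / 2) * (1 + u + 9 / 25 * u ^ 2) := by
  obtain ⟨s, hs⟩ : ∃ s, s = u - (-1) := ⟨_, rfl⟩
  obtain ⟨t, ht⟩ : ∃ t, t = -7 / 8 - u := ⟨_, rfl⟩
  have hs0 : 0 ≤ s := by linarith
  have ht0 : 0 ≤ t := by linarith
  have h : 0 ≤
      8832 / 625 * t ^ 4 + 13712 / 375 * s * t ^ 3 + 20706 / 625 * s ^ 2 * t ^ 2 +
      1636 / 125 * s ^ 3 * t + 35263 / 15000 * s ^ 4 := by
    positivity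
  have e :
      8832 / 625 * t ^ 4 + 13712 / 375 * s * t ^ 3 + 20706 / 625 * s ^ 2 * t ^ 2 +
      1636 / 125 * s ^ 3 * t + 35263 / 15000 * s ^ 4 =
      (1 + 1 / 20 + (1 / 20) ^ 2 / 2) * (1 + u + 9 / 25 * u ^ 2) -
      (1 + u + u ^ 2 / 2 + u ^ 3 / 6 + u ^ 4 / 24) := by
    rw [hs, ht]
    ring
  rw [e] at h
  linarith

theorem od_three_d06_a1 (u : ℝ) (h1 : -7 / 8 ≤ u) (h2 : u ≤ -3 / 4) :
    1 + u + u ^ 2 / 2 + u ^ 3 / 6 + u ^ 4 / 24 ≤
      (1 + 1 / 20 + (1 / 20) ^ 2 / 2) * (1 + u + 9 / 25 * u ^ 2) := by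
  obtain ⟨s, hs⟩ : ∃ s, s = u - (-7 / 8) := ⟨_, rfl⟩
  obtain ⟨t, ht⟩ : ∃ t, t = -3 / 4 - u := ⟨_, rfl⟩
  have hs0 : 0 ≤ s := by linarith
  have ht0 : 0 ≤ t := by linarith
  have h : 0 ≤
      35263 / 15000 * t ^ 4 + 10723 / 1875 * s * t ^ 3 + 6889 / 625 * s ^ 2 * t ^ 2 +
      8828 / 625 * s ^ 3 * t + 4018 / 625 * s ^ 4 := by
    positivity
  have e :
      35263 / 15000 * t ^ 4 + 10723 / 1875 * s * t ^ 3 + 6889 / 625 * s ^ 2 * t ^ 2 +
      8828 / 625 * s ^ 3 * t + 4018 / 625 * s ^ 4 =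
      (1 + 1 / 20 + (1 / 20) ^ 2 / 2) * (1 + u + 9 / 25 * u ^ 2) -
      (1 + u + u ^ 2 / 2 + u ^ 3 / 6 + u ^ 4 / 24) := by
    rw [hs, ht]
    ring
  rw [e] at h
  linarith

theorem od_three_d06_a2 (u : ℝ) (h1 : -3 / 4 ≤ u) (h2 : u ≤ -1 / 2) :
    1 + u + u ^ 2 / 2 + u ^ 3 / 6 + u ^ 4 / 24 ≤
      (1 + 1 / 20 + (1 / 20) ^ 2 / 2) * (1 + u + 9 / 25 * u ^ 2) := by
  obtain ⟨s, hs⟩ : ∃ s, s = u - (-3 / 4) := ⟨_, rfl⟩
  obtain ⟨t, ht⟩ : ∃ t, t = -1 / 2 - u := ⟨_, rfl⟩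
  have hs0 : 0 ≤ s := by linarith
  have ht0 : 0 ≤ t := by linarith
  have h : 0 ≤
      2009 / 5000 * t ^ 4 + 382 / 125 * s * t ^ 3 + 10703 / 1250 * s ^ 2 * t ^ 2 +
      3524 / 375 * s ^ 3 * t + 6464 / 1875 * s ^ 4 := by
    positivity
  have e :
      2009 / 5000 * t ^ 4 + 382 / 125 * s * t ^ 3 + 10703 / 1250 * s ^ 2 * t ^ 2 +
      3524 / 375 * s ^ 3 * t + 6464 / 1875 * s ^ 4 =
      (1 + 1 / 20 + (1 / 20) ^ 2 / 2) * (1 + u + 9 / 25 * u ^ 2) -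
      (1 + u + u ^ 2 / 2 + u ^ 3 / 6 + u ^ 4 / 24) := by
    rw [hs, ht]
    ring
  rw [e] at h
  linarith

theorem od_three_d06_a3 (u : ℝ) (h1 : -1 / 2 ≤ u) (h2 : u ≤ 0) :
    1 + u + u ^ 2 / 2 + u ^ 3 / 6 + u ^ 4 / 24 ≤
      (1 + 1 / 20 + (1 / 20) ^ 2 / 2) * (1 + u + 9 / 25 * u ^ 2) := by
  obtain ⟨s, hs⟩ : ∃ s, s = u - (-1 / 2) := ⟨_, rfl⟩
  obtain ⟨t, ht⟩ : ∃ t, t = 0 - u := ⟨_, rfl⟩
  have hs0 : 0 ≤ s := by linarith
  have ht0 : 0 ≤ t := by linarith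
  have h : 0 ≤
      404 / 1875 * t ^ 4 + 5291 / 3750 * s * t ^ 3 + 16019 / 5000 * s ^ 2 * t ^ 2 +
      287 / 100 * s ^ 3 * t + 41 / 50 * s ^ 4 := by
    positivity
  have e :
      404 / 1875 * t ^ 4 + 5291 / 3750 * s * t ^ 3 + 16019 / 5000 * s ^ 2 * t ^ 2 +
      287 / 100 * s ^ 3 * t + 41 / 50 * s ^ 4 =
      (1 + 1 / 20 + (1 / 20) ^ 2 / 2) * (1 + u + 9 / 25 * u ^ 2) -
      (1 + u + u ^ 2 / 2 + u ^ 3 / 6 + u ^ 4 / 24) := by
    rw [hs, ht]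
    ring
  rw [e] at h
  linarith

theorem od_three_d06_b0 (u : ℝ) (h1 : -2 ≤ u) (h2 : u ≤ -1) :
    36788 / 100000 *
      (1 + (u + 1) + (u + 1) ^ 2 / 2 + (u + 1) ^ 3 / 6 + (u + 1) ^ 4 / 24) ≤
      (1 + 1 / 20 + (1 / 20) ^ 2 / 2) * (1 + u + 9 / 25 * u ^ 2) := by
  obtain ⟨s, hs⟩ : ∃ s, s = u - (-2) := ⟨_, rfl⟩
  obtain ⟨t, ht⟩ : ∃ t, t = -1 - u := ⟨_, rfl⟩
  have hs0 : 0 ≤ s := by linarith
  have ht0 : 0 ≤ t := by linarith
  have h : 0 ≤
      64919 / 200000 * t ^ 4 + 213961 / 300000 * s * t ^ 3 + 11963 / 25000 * s ^ 2 * t ^ 2 +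
      11581 / 100000 * s ^ 3 * t + 1057 / 100000 * s ^ 4 := by
    positivity
  have e :
      64919 / 200000 * t ^ 4 + 213961 / 300000 * s * t ^ 3 + 11963 / 25000 * s ^ 2 * t ^ 2 +
      11581 / 100000 * s ^ 3 * t + 1057 / 100000 * s ^ 4 =
      (1 + 1 / 20 + (1 / 20) ^ 2 / 2) * (1 + u + 9 / 25 * u ^ 2) -
      (36788 / 100000 *
      (1 + (u + 1) + (u + 1) ^ 2 / 2 + (u + 1) ^ 3 / 6 + (u + 1) ^ 4 / 24)) := by
    rw [hs, ht]
    ring
  rw [e] at h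
  linarith

theorem od_three_d06_c0 (u : ℝ) (h1 : -3 ≤ u) (h2 : u ≤ -2) :
    13534 / 100000 *
      (1 + (u + 2) + (u + 2) ^ 2 / 2 + (u + 2) ^ 3 / 6 + (u + 2) ^ 4 / 24) ≤
      (1 + 1 / 20 + (1 / 20) ^ 2 / 2) * (1 + u + 9 / 25 * u ^ 2) := by
  obtain ⟨s, hs⟩ : ∃ s, s = u - (-3) := ⟨_, rfl⟩
  obtain ⟨t, ht⟩ : ∃ t, t = -2 - u := ⟨_, rfl⟩
  have hs0 : 0 ≤ s := by linarith
  have ht0 : 0 ≤ t := by linarith
  have h : 0 ≤
      501119 / 400000 * t ^ 4 + 280997 / 75000 * s * t ^ 3 +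
      406771 / 100000 * s ^ 2 * t ^ 2 + 190673 / 100000 * s ^ 3 * t + 32721 / 100000 * s ^ 4 := by
    positivity
  have e :
      501119 / 400000 * t ^ 4 + 280997 / 75000 * s * t ^ 3 +
      406771 / 100000 * s ^ 2 * t ^ 2 + 190673 / 100000 * s ^ 3 * t + 32721 / 100000 * s ^ 4 =
      (1 + 1 / 20 + (1 / 20) ^ 2 / 2) * (1 + u + 9 / 25 * u ^ 2) -
      (13534 / 100000 *
      (1 + (u + 2) + (u + 2) ^ 2 / 2 + (u + 2) ^ 3 / 6 + (u + 2) ^ 4 / 24)) := by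
    rw [hs, ht]
    ring
  rw [e] at h
  linarith

theorem od_three_d06_d (u : ℝ) (h2 : u ≤ -3) :
    4979 / 100000 ≤
      (1 + 1 / 20 + (1 / 20) ^ 2 / 2) * (1 + u + 9 / 25 * u ^ 2) := by
  obtain ⟨s, hs⟩ : ∃ s, s = -3 - u := ⟨_, rfl⟩
  have hs0 : 0 ≤ s := by linarith
  have h : 0 ≤
      3918 / 3125 + 24389 / 20000 * s + 7569 / 20000 * s ^ 2 := by
    positivity
  have e :
      3918 / 3125 + 24389 / 20000 * s + 7569 / 20000 * s ^ 2 =
      (1 + 1 / 20 + (1 / 20) ^ 2 / 2) * (1 + u + 9 / 25 * u ^ 2) -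
      (4979 / 100000) := by
    rw [hs]
    ring
  rw [e] at h
  linarith

theorem od_three_d06_f0 (u : ℝ) (h1 : 0 ≤ u) (h2 : u ≤ 1) :
    1 * (1 + (u - 0) / 3) ^ 3 ≤
      (1 + 1 / 20 + (1 / 20) ^ 2 / 2) * (1 + u + 9 / 25 * u ^ 2) := by
  obtain ⟨s, hs⟩ : ∃ s, s = u - (0) := ⟨_, rfl⟩
  obtain ⟨t, ht⟩ : ∃ t, t = 1 - u := ⟨_, rfl⟩
  have hs0 : 0 ≤ s := by linarith
  have ht0 : 0 ≤ t := by linarith
  have h : 0 ≤
      41 / 800 * t ^ 3 + 41 / 200 * s * t ^ 2 + 9041 / 30000 * s ^ 2 * t +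
      59713 / 540000 * s ^ 3 := by
    positivity
  have e :
      41 / 800 * t ^ 3 + 41 / 200 * s * t ^ 2 + 9041 / 30000 * s ^ 2 * t +
      59713 / 540000 * s ^ 3 =
      (1 + 1 / 20 + (1 / 20) ^ 2 / 2) * (1 + u + 9 / 25 * u ^ 2) -
      (1 * (1 + (u - 0) / 3) ^ 3) := by
    rw [hs, ht]
    ring
  rw [e] at h
  linarith

theorem od_three_d06_g0 (u : ℝ) (h1 : 1 ≤ u) (h2 : u ≤ 3) :
    1 * (1 + (u - 0) / 3) ^ 3 ≤
      (1 + 1 / 20 + (1 / 20) ^ 2 / 2) * ((1 + (1 / 100 * (u ^ 2 - 1)) +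
      (1 / 100 * (u ^ 2 - 1)) ^ 2 / 2 +
      (1 / 100 * (u ^ 2 - 1)) ^ 3 / 6) *
      (1 + u + 9 / 25 * u ^ 2)) := by
  obtain ⟨s, hs⟩ : ∃ s, s = u - (1) := ⟨_, rfl⟩
  obtain ⟨t, ht⟩ : ∃ t, t = 3 - u := ⟨_, rfl⟩
  have hs0 : 0 ≤ s := by linarith
  have ht0 : 0 ≤ t := by linarith
  have h : 0 ≤
      59713 / 138240000 * t ^ 8 + 14102363 / 3456000000 * s * t ^ 7 +
      2833652513 / 172800000000 * s ^ 2 * t ^ 6 +
      157937667971 / 4320000000000 * s ^ 3 * t ^ 5 +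
      107300108051 / 2160000000000 * s ^ 4 * t ^ 4 +
      183463067597 / 4320000000000 * s ^ 5 * t ^ 3 +
      10834077821 / 480000000000 * s ^ 6 * t ^ 2 + 554048919 / 80000000000 * s ^ 7 * t +
      229630159 / 240000000000 * s ^ 8 := by
    positivity
  have e :
      59713 / 138240000 * t ^ 8 + 14102363 / 3456000000 * s * t ^ 7 +
      2833652513 / 172800000000 * s ^ 2 * t ^ 6 +
      157937667971 / 4320000000000 * s ^ 3 * t ^ 5 +
      107300108051 / 2160000000000 * s ^ 4 * t ^ 4 +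
      183463067597 / 4320000000000 * s ^ 5 * t ^ 3 +
      10834077821 / 480000000000 * s ^ 6 * t ^ 2 + 554048919 / 80000000000 * s ^ 7 * t +
      229630159 / 240000000000 * s ^ 8 =
      (1 + 1 / 20 + (1 / 20) ^ 2 / 2) * ((1 + (1 / 100 * (u ^ 2 - 1)) +
      (1 / 100 * (u ^ 2 - 1)) ^ 2 / 2 +
      (1 / 100 * (u ^ 2 - 1)) ^ 3 / 6) *
      (1 + u + 9 / 25 * u ^ 2)) -
      (1 * (1 + (u - 0) / 3) ^ 3) := by
    rw [hs, ht]
    ring
  rw [e] at h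
  linarith

theorem od_three_d06_t (u : ℝ) (h1 : 3 ≤ u) :
    1 * (1 + (u - 0) / 3) ^ 3 ≤
      (1 + 1 / 20 + (1 / 20) ^ 2 / 2) * ((1 + (1 / 100 * (u ^ 2 - 1)) +
      (1 / 100 * (u ^ 2 - 1)) ^ 2 / 2 +
      (1 / 100 * (u ^ 2 - 1)) ^ 3 / 6) *
      (1 + u + 9 / 25 * u ^ 2)) := by
  obtain ⟨s, hs⟩ : ∃ s, s = u - (3) := ⟨_, rfl⟩
  have hs0 : 0 ≤ s := by linarith
  have h : 0 ≤
      229630159 / 937500000 + 34978903 / 375000000 * s + 423312127 / 7500000000 * s ^ 2 +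
      4752860863 / 135000000000 * s ^ 3 + 38276433 / 5000000000 * s ^ 4 +
      10417467 / 20000000000 * s ^ 5 + 4617931 / 120000000000 * s ^ 6 +
      202681 / 120000000000 * s ^ 7 + 2523 / 40000000000 * s ^ 8 := by
    positivity
  have e :
      229630159 / 937500000 + 34978903 / 375000000 * s + 423312127 / 7500000000 * s ^ 2 +
      4752860863 / 135000000000 * s ^ 3 + 38276433 / 5000000000 * s ^ 4 +
      10417467 / 20000000000 * s ^ 5 + 4617931 / 120000000000 * s ^ 6 +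
      202681 / 120000000000 * s ^ 7 + 2523 / 40000000000 * s ^ 8 =
      (1 + 1 / 20 + (1 / 20) ^ 2 / 2) * ((1 + (1 / 100 * (u ^ 2 - 1)) +
      (1 / 100 * (u ^ 2 - 1)) ^ 2 / 2 +
      (1 / 100 * (u ^ 2 - 1)) ^ 3 / 6) *
      (1 + u + 9 / 25 * u ^ 2)) -
      (1 * (1 + (u - 0) / 3) ^ 3) := by
    rw [hs]
    ring
  rw [e] at h
  linarith

/-- `K = 3`: `(c, μ, P, δ) = (9 / 25, 1 / 100, 0, 1 / 20)` -/
theorem expOd_three_d06 : ExpOd 3 (9 / 25) (1 / 100) (0) (1 / 20) := by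
  have hde : (1 + 1 / 20 + (1 / 20) ^ 2 / 2) ≤ Real.exp (1 / 20) := Real.quadratic_le_exp_of_nonneg (by norm_num)
  have hq : ∀ u : ℝ, 0 ≤ 1 + u + 9 / 25 * u ^ 2 := fun u => by
    nlinarith [sq_nonneg (u + 2), sq_nonneg u]
  have hR : ∀ (u x y : ℝ), x ≤ y → y ≤ (1 + 1 / 20 + (1 / 20) ^ 2 / 2) * (1 + u + 9 / 25 * u ^ 2) →
      x ≤ Real.exp (1 / 20) * (1 + u + 9 / 25 * u ^ 2) := fun u x y h1 h2 =>
    (h1.trans h2).trans (mul_le_mul_of_nonneg_right hde (hq u))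
  refine ExpOd.of (by norm_num) (by norm_num) (by norm_num) (by norm_num) (by norm_num) ?_ ?_ ?_
  · intro u h1
    rcases le_total u (-3) with h3 | h3
    · exact hR u _ _ (exp_le_n3 h3) (od_three_d06_d u h3)
    rcases le_total u (-2) with h4 | h4
    · refine hR u _ _ (exp_le_n2 h4) ?_
      exact od_three_d06_c0 u (by linarith) (by linarith)
    rcases le_total u (-1) with h5 | h5
    · refine hR u _ _ (exp_le_n1 h5) ?_
      exact od_three_d06_b0 u (by linarith) (by linarith)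
    rcases le_total u 0 with h6 | h6
    · refine hR u _ _ (exp_le_n0 h6) ?_
      rcases le_total u (-7 / 8) with hh | hh
      · exact od_three_d06_a0 u (by linarith) (by linarith)
      rcases le_total u (-3 / 4) with hh | hh
      · exact od_three_d06_a1 u (by linarith) (by linarith)
      rcases le_total u (-1 / 2) with hh | hh
      · exact od_three_d06_a2 u (by linarith) (by linarith)
      exact od_three_d06_a3 u (by linarith) (by linarith)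
    have h7 : u = 0 := le_antisymm h1 h6
    refine hR u _ _ (exp_le_n0 h7.le) ?_
    exact od_three_d06_a3 u (by linarith) (by linarith)
  · intro u h1 h2
    have h4 : 0 ≤ (1 + (u - 0) / 3) ^ 3 := by
      have : 0 ≤ (u - 0) / 3 := div_nonneg (by linarith) (by norm_num)
      positivity
    have hE : Real.exp (0) ≤ 1 := Real.exp_zero.le
    push_cast
    refine hR u _ _ (mul_le_mul_of_nonneg_right hE h4) ?_
    exact od_three_d06_f0 u (by linarith) (by linarith)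
  · intro u h1
    have h4 : 0 ≤ (1 + (u - 0) / 3) ^ 3 := by
      have : 0 ≤ (u - 0) / 3 := div_nonneg (by linarith) (by norm_num)
      positivity
    have hE : Real.exp (0) ≤ 1 := Real.exp_zero.le
    have hx : 0 ≤ 1 / 100 * (u ^ 2 - 1) := mul_nonneg (by norm_num) (by nlinarith)
    have h5 := mul_le_mul_of_nonneg_right (taylor3_le_exp _ hx) (hq u)
    have h6 : 0 ≤ Real.exp (1 / 100 * (u ^ 2 - 1)) * (1 + u + 9 / 25 * u ^ 2) :=
      mul_nonneg (Real.exp_nonneg _) (hq u)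
    rw [Real.exp_add, mul_assoc]
    push_cast
    refine ((mul_le_mul_of_nonneg_right hE h4).trans ?_).trans
      ((mul_le_mul_of_nonneg_left h5 (by norm_num : (0 : ℝ) ≤ (1 + 1 / 20 + (1 / 20) ^ 2 / 2))).trans
        (mul_le_mul_of_nonneg_right hde h6))
    rcases le_total u (3) with hh | hh
    · exact od_three_d06_g0 u (by linarith) (by linarith)
    exact od_three_d06_t u (by linarith)

theorem od_three_d07_a0 (u : ℝ) (h1 : -1 ≤ u) (h2 : u ≤ 0) :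
    1 + u + u ^ 2 / 2 + u ^ 3 / 6 + u ^ 4 / 24 ≤
      (1 + 1 / 10 + (1 / 10) ^ 2 / 2) * (1 + u + 17 / 50 * u ^ 2) := by
  obtain ⟨s, hs⟩ : ∃ s, s = u - (-1) := ⟨_, rfl⟩
  obtain ⟨t, ht⟩ : ∃ t, t = 0 - u := ⟨_, rfl⟩
  have hs0 : 0 ≤ s := by linarith
  have ht0 : 0 ≤ t := by linarith
  have h : 0 ≤
      7 / 10000 * t ^ 4 + 173 / 7500 * s * t ^ 3 + 1907 / 10000 * s ^ 2 * t ^ 2 +
      63 / 200 * s ^ 3 * t + 21 / 200 * s ^ 4 := by
    positivity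
  have e :
      7 / 10000 * t ^ 4 + 173 / 7500 * s * t ^ 3 + 1907 / 10000 * s ^ 2 * t ^ 2 +
      63 / 200 * s ^ 3 * t + 21 / 200 * s ^ 4 =
      (1 + 1 / 10 + (1 / 10) ^ 2 / 2) * (1 + u + 17 / 50 * u ^ 2) -
      (1 + u + u ^ 2 / 2 + u ^ 3 / 6 + u ^ 4 / 24) := by
    rw [hs, ht]
    ring
  rw [e] at h
  linarith

theorem od_three_d07_b0 (u : ℝ) (h1 : -2 ≤ u) (h2 : u ≤ -1) :
    36788 / 100000 *
      (1 + (u + 1) + (u + 1) ^ 2 / 2 + (u + 1) ^ 3 / 6 + (u + 1) ^ 4 / 24) ≤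
      (1 + 1 / 10 + (1 / 10) ^ 2 / 2) * (1 + u + 17 / 50 * u ^ 2) := by
  obtain ⟨s, hs⟩ : ∃ s, s = u - (-2) := ⟨_, rfl⟩
  obtain ⟨t, ht⟩ : ∃ t, t = -1 - u := ⟨_, rfl⟩
  have hs0 : 0 ≤ s := by linarith
  have ht0 : 0 ≤ t := by linarith
  have h : 0 ≤
      51969 / 200000 * t ^ 4 + 77843 / 150000 * s * t ^ 3 + 3519 / 12500 * s ^ 2 * t ^ 2 +
      1139 / 25000 * s ^ 3 * t + 391 / 50000 * s ^ 4 := by
    positivity
  have e :
      51969 / 200000 * t ^ 4 + 77843 / 150000 * s * t ^ 3 + 3519 / 12500 * s ^ 2 * t ^ 2 +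
      1139 / 25000 * s ^ 3 * t + 391 / 50000 * s ^ 4 =
      (1 + 1 / 10 + (1 / 10) ^ 2 / 2) * (1 + u + 17 / 50 * u ^ 2) -
      (36788 / 100000 *
      (1 + (u + 1) + (u + 1) ^ 2 / 2 + (u + 1) ^ 3 / 6 + (u + 1) ^ 4 / 24)) := by
    rw [hs, ht]
    ring
  rw [e] at h
  linarith

theorem od_three_d07_c0 (u : ℝ) (h1 : -3 ≤ u) (h2 : u ≤ -2) :
    13534 / 100000 *
      (1 + (u + 2) + (u + 2) ^ 2 / 2 + (u + 2) ^ 3 / 6 + (u + 2) ^ 4 / 24) ≤
      (1 + 1 / 10 + (1 / 10) ^ 2 / 2) * (1 + u + 17 / 50 * u ^ 2) := by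
  obtain ⟨s, hs⟩ : ∃ s, s = u - (-3) := ⟨_, rfl⟩
  obtain ⟨t, ht⟩ : ∃ t, t = -2 - u := ⟨_, rfl⟩
  have hs0 : 0 ≤ s := by linarith
  have ht0 : 0 ≤ t := by linarith
  have h : 0 ≤
      448219 / 400000 * t ^ 4 + 986363 / 300000 * s * t ^ 3 +
      348221 / 100000 * s ^ 2 * t ^ 2 + 79149 / 50000 * s ^ 3 * t + 13123 / 50000 * s ^ 4 := by
    positivity
  have e :
      448219 / 400000 * t ^ 4 + 986363 / 300000 * s * t ^ 3 +
      348221 / 100000 * s ^ 2 * t ^ 2 + 79149 / 50000 * s ^ 3 * t + 13123 / 50000 * s ^ 4 =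
      (1 + 1 / 10 + (1 / 10) ^ 2 / 2) * (1 + u + 17 / 50 * u ^ 2) -
      (13534 / 100000 *
      (1 + (u + 2) + (u + 2) ^ 2 / 2 + (u + 2) ^ 3 / 6 + (u + 2) ^ 4 / 24)) := by
    rw [hs, ht]
    ring
  rw [e] at h
  linarith

theorem od_three_d07_d (u : ℝ) (h2 : u ≤ -3) :
    4979 / 100000 ≤
      (1 + 1 / 10 + (1 / 10) ^ 2 / 2) * (1 + u + 17 / 50 * u ^ 2) := by
  obtain ⟨s, hs⟩ : ∃ s, s = -3 - u := ⟨_, rfl⟩
  have hs0 : 0 ≤ s := by linarith
  have h : 0 ≤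
      112151 / 100000 + 2873 / 2500 * s + 3757 / 10000 * s ^ 2 := by
    positivity
  have e :
      112151 / 100000 + 2873 / 2500 * s + 3757 / 10000 * s ^ 2 =
      (1 + 1 / 10 + (1 / 10) ^ 2 / 2) * (1 + u + 17 / 50 * u ^ 2) -
      (4979 / 100000) := by
    rw [hs]
    ring
  rw [e] at h
  linarith

theorem od_three_d07_f0 (u : ℝ) (h1 : 0 ≤ u) (h2 : u ≤ 1) :
    1 * (1 + (u - 0) / 3) ^ 3 ≤
      (1 + 1 / 10 + (1 / 10) ^ 2 / 2) * (1 + u + 17 / 50 * u ^ 2) := by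
  obtain ⟨s, hs⟩ : ∃ s, s = u - (0) := ⟨_, rfl⟩
  obtain ⟨t, ht⟩ : ∃ t, t = 1 - u := ⟨_, rfl⟩
  have hs0 : 0 ≤ s := by linarith
  have ht0 : 0 ≤ t := by linarith
  have h : 0 ≤
      21 / 200 * t ^ 3 + 21 / 50 * s * t ^ 2 + 17021 / 30000 * s ^ 2 * t +
      58139 / 270000 * s ^ 3 := by
    positivity
  have e :
      21 / 200 * t ^ 3 + 21 / 50 * s * t ^ 2 + 17021 / 30000 * s ^ 2 * t +
      58139 / 270000 * s ^ 3 =
      (1 + 1 / 10 + (1 / 10) ^ 2 / 2) * (1 + u + 17 / 50 * u ^ 2) -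
      (1 * (1 + (u - 0) / 3) ^ 3) := by
    rw [hs, ht]
    ring
  rw [e] at h
  linarith

theorem od_three_d07_g0 (u : ℝ) (h1 : 1 ≤ u) (h2 : u ≤ 2) :
    1 * (1 + (u - 0) / 3) ^ 3 ≤
      (1 + 1 / 10 + (1 / 10) ^ 2 / 2) * ((1 + (3 / 200 * (u ^ 2 - 1)) +
      (3 / 200 * (u ^ 2 - 1)) ^ 2 / 2 +
      (3 / 200 * (u ^ 2 - 1)) ^ 3 / 6) *
      (1 + u + 17 / 50 * u ^ 2)) := by
  obtain ⟨s, hs⟩ : ∃ s, s = u - (1) := ⟨_, rfl⟩
  obtain ⟨t, ht⟩ : ∃ t, t = 2 - u := ⟨_, rfl⟩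
  have hs0 : 0 ≤ s := by linarith
  have ht0 : 0 ≤ t := by linarith
  have h : 0 ≤
      58139 / 270000 * t ^ 8 + 50728417 / 27000000 * s * t ^ 7 +
      38607185551 / 5400000000 * s ^ 2 * t ^ 6 +
      2790717694717 / 180000000000 * s ^ 3 * t ^ 5 +
      838827820871 / 40000000000 * s ^ 4 * t ^ 4 +
      2611049373571 / 144000000000 * s ^ 5 * t ^ 3 +
      42321471832237 / 4320000000000 * s ^ 6 * t ^ 2 +
      6538230443437 / 2160000000000 * s ^ 7 * t + 885432736529 / 2160000000000 * s ^ 8 := by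
    positivity
  have e :
      58139 / 270000 * t ^ 8 + 50728417 / 27000000 * s * t ^ 7 +
      38607185551 / 5400000000 * s ^ 2 * t ^ 6 +
      2790717694717 / 180000000000 * s ^ 3 * t ^ 5 +
      838827820871 / 40000000000 * s ^ 4 * t ^ 4 +
      2611049373571 / 144000000000 * s ^ 5 * t ^ 3 +
      42321471832237 / 4320000000000 * s ^ 6 * t ^ 2 +
      6538230443437 / 2160000000000 * s ^ 7 * t + 885432736529 / 2160000000000 * s ^ 8 =
      (1 + 1 / 10 + (1 / 10) ^ 2 / 2) * ((1 + (3 / 200 * (u ^ 2 - 1)) +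
      (3 / 200 * (u ^ 2 - 1)) ^ 2 / 2 +
      (3 / 200 * (u ^ 2 - 1)) ^ 3 / 6) *
      (1 + u + 17 / 50 * u ^ 2)) -
      (1 * (1 + (u - 0) / 3) ^ 3) := by
    rw [hs, ht]
    ring
  rw [e] at h
  linarith

theorem od_three_d07_t (u : ℝ) (h1 : 2 ≤ u) :
    1 * (1 + (u - 0) / 3) ^ 3 ≤
      (1 + 1 / 10 + (1 / 10) ^ 2 / 2) * ((1 + (3 / 200 * (u ^ 2 - 1)) +
      (3 / 200 * (u ^ 2 - 1)) ^ 2 / 2 +
      (3 / 200 * (u ^ 2 - 1)) ^ 3 / 6) *
      (1 + u + 17 / 50 * u ^ 2)) := by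
  obtain ⟨s, hs⟩ : ∃ s, s = u - (2) := ⟨_, rfl⟩
  have hs0 : 0 ≤ s := by linarith
  have h : 0 ≤
      885432736529 / 2160000000000 + 36348763253 / 144000000000 * s +
      123492956581 / 1440000000000 * s ^ 2 + 80068826593 / 2160000000000 * s ^ 3 +
      1575117609 / 160000000000 * s ^ 4 + 62110503 / 80000000000 * s ^ 5 +
      11939967 / 160000000000 * s ^ 6 + 320229 / 80000000000 * s ^ 7 +
      33813 / 160000000000 * s ^ 8 := by
    positivity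
  have e :
      885432736529 / 2160000000000 + 36348763253 / 144000000000 * s +
      123492956581 / 1440000000000 * s ^ 2 + 80068826593 / 2160000000000 * s ^ 3 +
      1575117609 / 160000000000 * s ^ 4 + 62110503 / 80000000000 * s ^ 5 +
      11939967 / 160000000000 * s ^ 6 + 320229 / 80000000000 * s ^ 7 +
      33813 / 160000000000 * s ^ 8 =
      (1 + 1 / 10 + (1 / 10) ^ 2 / 2) * ((1 + (3 / 200 * (u ^ 2 - 1)) +
      (3 / 200 * (u ^ 2 - 1)) ^ 2 / 2 +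
      (3 / 200 * (u ^ 2 - 1)) ^ 3 / 6) *
      (1 + u + 17 / 50 * u ^ 2)) -
      (1 * (1 + (u - 0) / 3) ^ 3) := by
    rw [hs]
    ring
  rw [e] at h
  linarith

/-- `K = 3`: `(c, μ, P, δ) = (17 / 50, 3 / 200, 0, 1 / 10)` -/
theorem expOd_three_d07 : ExpOd 3 (17 / 50) (3 / 200) (0) (1 / 10) := by
  have hde : (1 + 1 / 10 + (1 / 10) ^ 2 / 2) ≤ Real.exp (1 / 10) := Real.quadratic_le_exp_of_nonneg (by norm_num)
  have hq : ∀ u : ℝ, 0 ≤ 1 + u + 17 / 50 * u ^ 2 := fun u => by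
    nlinarith [sq_nonneg (u + 2), sq_nonneg u]
  have hR : ∀ (u x y : ℝ), x ≤ y → y ≤ (1 + 1 / 10 + (1 / 10) ^ 2 / 2) * (1 + u + 17 / 50 * u ^ 2) →
      x ≤ Real.exp (1 / 10) * (1 + u + 17 / 50 * u ^ 2) := fun u x y h1 h2 =>
    (h1.trans h2).trans (mul_le_mul_of_nonneg_right hde (hq u))
  refine ExpOd.of (by norm_num) (by norm_num) (by norm_num) (by norm_num) (by norm_num) ?_ ?_ ?_
  · intro u h1
    rcases le_total u (-3) with h3 | h3
    · exact hR u _ _ (exp_le_n3 h3) (od_three_d07_d u h3)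
    rcases le_total u (-2) with h4 | h4
    · refine hR u _ _ (exp_le_n2 h4) ?_
      exact od_three_d07_c0 u (by linarith) (by linarith)
    rcases le_total u (-1) with h5 | h5
    · refine hR u _ _ (exp_le_n1 h5) ?_
      exact od_three_d07_b0 u (by linarith) (by linarith)
    rcases le_total u 0 with h6 | h6
    · refine hR u _ _ (exp_le_n0 h6) ?_
      exact od_three_d07_a0 u (by linarith) (by linarith)
    have h7 : u = 0 := le_antisymm h1 h6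
    refine hR u _ _ (exp_le_n0 h7.le) ?_
    exact od_three_d07_a0 u (by linarith) (by linarith)
  · intro u h1 h2
    have h4 : 0 ≤ (1 + (u - 0) / 3) ^ 3 := by
      have : 0 ≤ (u - 0) / 3 := div_nonneg (by linarith) (by norm_num)
      positivity
    have hE : Real.exp (0) ≤ 1 := Real.exp_zero.le
    push_cast
    refine hR u _ _ (mul_le_mul_of_nonneg_right hE h4) ?_
    exact od_three_d07_f0 u (by linarith) (by linarith)
  · intro u h1
    have h4 : 0 ≤ (1 + (u - 0) / 3) ^ 3 := by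
      have : 0 ≤ (u - 0) / 3 := div_nonneg (by linarith) (by norm_num)
      positivity
    have hE : Real.exp (0) ≤ 1 := Real.exp_zero.le
    have hx : 0 ≤ 3 / 200 * (u ^ 2 - 1) := mul_nonneg (by norm_num) (by nlinarith)
    have h5 := mul_le_mul_of_nonneg_right (taylor3_le_exp _ hx) (hq u)
    have h6 : 0 ≤ Real.exp (3 / 200 * (u ^ 2 - 1)) * (1 + u + 17 / 50 * u ^ 2) :=
      mul_nonneg (Real.exp_nonneg _) (hq u)
    rw [Real.exp_add, mul_assoc]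
    push_cast
    refine ((mul_le_mul_of_nonneg_right hE h4).trans ?_).trans
      ((mul_le_mul_of_nonneg_left h5 (by norm_num : (0 : ℝ) ≤ (1 + 1 / 10 + (1 / 10) ^ 2 / 2))).trans
        (mul_le_mul_of_nonneg_right hde h6))
    rcases le_total u (2) with hh | hh
    · exact od_three_d07_g0 u (by linarith) (by linarith)
    exact od_three_d07_t u (by linarith)

theorem od_three_d10_a0 (u : ℝ) (h1 : -1 ≤ u) (h2 : u ≤ 0) :
    1 + u + u ^ 2 / 2 + u ^ 3 / 6 + u ^ 4 / 24 ≤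
      1 * (1 + u + 519 / 1000 * u ^ 2) := by
  obtain ⟨s, hs⟩ : ∃ s, s = u - (-1) := ⟨_, rfl⟩
  obtain ⟨t, ht⟩ : ∃ t, t = 0 - u := ⟨_, rfl⟩
  have hs0 : 0 ≤ s := by linarith
  have ht0 : 0 ≤ t := by linarith
  have h : 0 ≤
      18 / 125 * t ^ 4 + 307 / 1500 * s * t ^ 3 + 19 / 1000 * s ^ 2 * t ^ 2 := by
    positivity
  have e :
      18 / 125 * t ^ 4 + 307 / 1500 * s * t ^ 3 + 19 / 1000 * s ^ 2 * t ^ 2 =
      1 * (1 + u + 519 / 1000 * u ^ 2) -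
      (1 + u + u ^ 2 / 2 + u ^ 3 / 6 + u ^ 4 / 24) := by
    rw [hs, ht]
    ring
  rw [e] at h
  linarith

theorem od_three_d10_b0 (u : ℝ) (h1 : -2 ≤ u) (h2 : u ≤ -1) :
    36788 / 100000 *
      (1 + (u + 1) + (u + 1) ^ 2 / 2 + (u + 1) ^ 3 / 6 + (u + 1) ^ 4 / 24) ≤
      1 * (1 + u + 519 / 1000 * u ^ 2) := by
  obtain ⟨s, hs⟩ : ∃ s, s = u - (-2) := ⟨_, rfl⟩
  obtain ⟨t, ht⟩ : ∃ t, t = -1 - u := ⟨_, rfl⟩
  have hs0 : 0 ≤ s := by linarith
  have ht0 : 0 ≤ t := by linarith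
  have h : 0 ≤
      187609 / 200000 * t ^ 4 + 383033 / 150000 * s * t ^ 3 +
      122971 / 50000 * s ^ 2 * t ^ 2 + 25259 / 25000 * s ^ 3 * t + 1889 / 12500 * s ^ 4 := by
    positivity
  have e :
      187609 / 200000 * t ^ 4 + 383033 / 150000 * s * t ^ 3 +
      122971 / 50000 * s ^ 2 * t ^ 2 + 25259 / 25000 * s ^ 3 * t + 1889 / 12500 * s ^ 4 =
      1 * (1 + u + 519 / 1000 * u ^ 2) -
      (36788 / 100000 *
      (1 + (u + 1) + (u + 1) ^ 2 / 2 + (u + 1) ^ 3 / 6 + (u + 1) ^ 4 / 24)) := by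
    rw [hs, ht]
    ring
  rw [e] at h
  linarith

theorem od_three_d10_c0 (u : ℝ) (h1 : -3 ≤ u) (h2 : u ≤ -2) :
    13534 / 100000 *
      (1 + (u + 2) + (u + 2) ^ 2 / 2 + (u + 2) ^ 3 / 6 + (u + 2) ^ 4 / 24) ≤
      1 * (1 + u + 519 / 1000 * u ^ 2) := by
  obtain ⟨s, hs⟩ : ∃ s, s = u - (-3) := ⟨_, rfl⟩
  obtain ⟨t, ht⟩ : ∃ t, t = -2 - u := ⟨_, rfl⟩
  have hs0 : 0 ≤ s := by linarith
  have ht0 : 0 ≤ t := by linarith
  have h : 0 ≤
      1048099 / 400000 * t ^ 4 + 2496563 / 300000 * s * t ^ 3 +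
      972931 / 100000 * s ^ 2 * t ^ 2 + 248699 / 50000 * s ^ 3 * t + 47033 / 50000 * s ^ 4 := by
    positivity
  have e :
      1048099 / 400000 * t ^ 4 + 2496563 / 300000 * s * t ^ 3 +
      972931 / 100000 * s ^ 2 * t ^ 2 + 248699 / 50000 * s ^ 3 * t + 47033 / 50000 * s ^ 4 =
      1 * (1 + u + 519 / 1000 * u ^ 2) -
      (13534 / 100000 *
      (1 + (u + 2) + (u + 2) ^ 2 / 2 + (u + 2) ^ 3 / 6 + (u + 2) ^ 4 / 24)) := by
    rw [hs, ht]
    ring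
  rw [e] at h
  linarith

theorem od_three_d10_d (u : ℝ) (h2 : u ≤ -3) :
    4979 / 100000 ≤
      1 * (1 + u + 519 / 1000 * u ^ 2) := by
  obtain ⟨s, hs⟩ : ∃ s, s = -3 - u := ⟨_, rfl⟩
  have hs0 : 0 ≤ s := by linarith
  have h : 0 ≤
      262121 / 100000 + 1057 / 500 * s + 519 / 1000 * s ^ 2 := by
    positivity
  have e :
      262121 / 100000 + 1057 / 500 * s + 519 / 1000 * s ^ 2 =
      1 * (1 + u + 519 / 1000 * u ^ 2) -
      (4979 / 100000) := by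
    rw [hs]
    ring
  rw [e] at h
  linarith

theorem od_three_d10_e0 (u : ℝ) (h1 : 0 ≤ u) (h2 : u ≤ 1 / 10) :
    1 + u + u ^ 2 / 2 + u ^ 3 / 6 + u ^ 4 / 24 + u ^ 5 / 100 ≤
      1 * (1 + u + 519 / 1000 * u ^ 2) := by
  obtain ⟨s, hs⟩ : ∃ s, s = u - (0) := ⟨_, rfl⟩
  obtain ⟨t, ht⟩ : ∃ t, t = 1 / 10 - u := ⟨_, rfl⟩
  have hs0 : 0 ≤ s := by linarith
  have ht0 : 0 ≤ t := by linarith
  have h : 0 ≤
      19 * s ^ 2 * t ^ 3 + 121 / 3 * s ^ 3 * t ^ 2 + 93 / 4 * s ^ 4 * t + 143 / 75 * s ^ 5 := by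
    positivity
  have e :
      19 * s ^ 2 * t ^ 3 + 121 / 3 * s ^ 3 * t ^ 2 + 93 / 4 * s ^ 4 * t + 143 / 75 * s ^ 5 =
      1 * (1 + u + 519 / 1000 * u ^ 2) -
      (1 + u + u ^ 2 / 2 + u ^ 3 / 6 + u ^ 4 / 24 + u ^ 5 / 100) := by
    rw [hs, ht]
    ring
  rw [e] at h
  linarith

theorem od_three_d10_f0 (u : ℝ) (h1 : 1 / 10 ≤ u) (h2 : u ≤ 73 / 640) :
    55259 / 50000 * (1 + (u - 1 / 10) / 3) ^ 3 ≤
      1 * (1 + u + 519 / 1000 * u ^ 2) := by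
  obtain ⟨s, hs⟩ : ∃ s, s = u - (1 / 10) := ⟨_, rfl⟩
  obtain ⟨t, ht⟩ : ∃ t, t = 73 / 640 - u := ⟨_, rfl⟩
  have hs0 : 0 ≤ s := by linarith
  have ht0 : 0 ≤ t := by linarith
  have h : 0 ≤
      65536 / 18225 * t ^ 3 + 115712 / 30375 * s * t ^ 2 + 1145272 / 151875 * s ^ 2 * t +
      265590887 / 36450000 * s ^ 3 := by
    positivity
  have e :
      65536 / 18225 * t ^ 3 + 115712 / 30375 * s * t ^ 2 + 1145272 / 151875 * s ^ 2 * t +
      265590887 / 36450000 * s ^ 3 =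
      1 * (1 + u + 519 / 1000 * u ^ 2) -
      (55259 / 50000 * (1 + (u - 1 / 10) / 3) ^ 3) := by
    rw [hs, ht]
    ring
  rw [e] at h
  linarith

theorem od_three_d10_f1 (u : ℝ) (h1 : 73 / 640 ≤ u) (h2 : u ≤ 41 / 320) :
    55259 / 50000 * (1 + (u - 1 / 10) / 3) ^ 3 ≤
      1 * (1 + u + 519 / 1000 * u ^ 2) := by
  obtain ⟨s, hs⟩ : ∃ s, s = u - (73 / 640) := ⟨_, rfl⟩
  obtain ⟨t, ht⟩ : ∃ t, t = 41 / 320 - u := ⟨_, rfl⟩
  have hs0 : 0 ≤ s := by linarith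
  have ht0 : 0 ≤ t := by linarith
  have h : 0 ≤
      265590887 / 36450000 * t ^ 3 + 219780007 / 6075000 * s * t ^ 2 +
      185540327 / 3037500 * s ^ 2 * t + 146487847 / 4556250 * s ^ 3 := by
    positivity
  have e :
      265590887 / 36450000 * t ^ 3 + 219780007 / 6075000 * s * t ^ 2 +
      185540327 / 3037500 * s ^ 2 * t + 146487847 / 4556250 * s ^ 3 =
      1 * (1 + u + 519 / 1000 * u ^ 2) -
      (55259 / 50000 * (1 + (u - 1 / 10) / 3) ^ 3) := by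
    rw [hs, ht]
    ring
  rw [e] at h
  linarith

theorem od_three_d10_f2 (u : ℝ) (h1 : 41 / 320 ≤ u) (h2 : u ≤ 5 / 32) :
    55259 / 50000 * (1 + (u - 1 / 10) / 3) ^ 3 ≤
      1 * (1 + u + 519 / 1000 * u ^ 2) := by
  obtain ⟨s, hs⟩ : ∃ s, s = u - (41 / 320) := ⟨_, rfl⟩
  obtain ⟨t, ht⟩ : ∃ t, t = 5 / 32 - u := ⟨_, rfl⟩
  have hs0 : 0 ≤ s := by linarith
  have ht0 : 0 ≤ t := by linarith
  have h : 0 ≤
      146487847 / 36450000 * t ^ 3 + 126961607 / 6075000 * s * t ^ 2 +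
      106232167 / 3037500 * s ^ 2 * t + 82251527 / 4556250 * s ^ 3 := by
    positivity
  have e :
      146487847 / 36450000 * t ^ 3 + 126961607 / 6075000 * s * t ^ 2 +
      106232167 / 3037500 * s ^ 2 * t + 82251527 / 4556250 * s ^ 3 =
      1 * (1 + u + 519 / 1000 * u ^ 2) -
      (55259 / 50000 * (1 + (u - 1 / 10) / 3) ^ 3) := by
    rw [hs, ht]
    ring
  rw [e] at h
  linarith

theorem od_three_d10_f3 (u : ℝ) (h1 : 5 / 32 ≤ u) (h2 : u ≤ 17 / 80) :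
    55259 / 50000 * (1 + (u - 1 / 10) / 3) ^ 3 ≤
      1 * (1 + u + 519 / 1000 * u ^ 2) := by
  obtain ⟨s, hs⟩ : ∃ s, s = u - (5 / 32) := ⟨_, rfl⟩
  obtain ⟨t, ht⟩ : ∃ t, t = 17 / 80 - u := ⟨_, rfl⟩
  have hs0 : 0 ≤ s := by linarith
  have ht0 : 0 ≤ t := by linarith
  have h : 0 ≤
      82251527 / 36450000 * t ^ 3 + 70261207 / 6075000 * s * t ^ 2 +
      57458087 / 3037500 * s ^ 2 * t + 43586167 / 4556250 * s ^ 3 := by
    positivity
  have e :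
      82251527 / 36450000 * t ^ 3 + 70261207 / 6075000 * s * t ^ 2 +
      57458087 / 3037500 * s ^ 2 * t + 43586167 / 4556250 * s ^ 3 =
      1 * (1 + u + 519 / 1000 * u ^ 2) -
      (55259 / 50000 * (1 + (u - 1 / 10) / 3) ^ 3) := by
    rw [hs, ht]
    ring
  rw [e] at h
  linarith

theorem od_three_d10_f4 (u : ℝ) (h1 : 17 / 80 ≤ u) (h2 : u ≤ 13 / 40) :
    55259 / 50000 * (1 + (u - 1 / 10) / 3) ^ 3 ≤
      1 * (1 + u + 519 / 1000 * u ^ 2) := by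
  obtain ⟨s, hs⟩ : ∃ s, s = u - (17 / 80) := ⟨_, rfl⟩
  obtain ⟨t, ht⟩ : ∃ t, t = 13 / 40 - u := ⟨_, rfl⟩
  have hs0 : 0 ≤ s := by linarith
  have ht0 : 0 ≤ t := by linarith
  have h : 0 ≤
      43586167 / 36450000 * t ^ 3 + 36650207 / 6075000 * s * t ^ 2 +
      29447047 / 3037500 * s ^ 2 * t + 21944687 / 4556250 * s ^ 3 := by
    positivity
  have e :
      43586167 / 36450000 * t ^ 3 + 36650207 / 6075000 * s * t ^ 2 +
      29447047 / 3037500 * s ^ 2 * t + 21944687 / 4556250 * s ^ 3 =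
      1 * (1 + u + 519 / 1000 * u ^ 2) -
      (55259 / 50000 * (1 + (u - 1 / 10) / 3) ^ 3) := by
    rw [hs, ht]
    ring
  rw [e] at h
  linarith

theorem od_three_d10_f5 (u : ℝ) (h1 : 13 / 40 ≤ u) (h2 : u ≤ 11 / 20) :
    55259 / 50000 * (1 + (u - 1 / 10) / 3) ^ 3 ≤
      1 * (1 + u + 519 / 1000 * u ^ 2) := by
  obtain ⟨s, hs⟩ : ∃ s, s = u - (13 / 40) := ⟨_, rfl⟩
  obtain ⟨t, ht⟩ : ∃ t, t = 11 / 20 - u := ⟨_, rfl⟩
  have hs0 : 0 ≤ s := by linarith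
  have ht0 : 0 ≤ t := by linarith
  have h : 0 ≤
      21944687 / 36450000 * t ^ 3 + 18193507 / 6075000 * s * t ^ 2 +
      14367527 / 3037500 * s ^ 2 * t + 10462747 / 4556250 * s ^ 3 := by
    positivity
  have e :
      21944687 / 36450000 * t ^ 3 + 18193507 / 6075000 * s * t ^ 2 +
      14367527 / 3037500 * s ^ 2 * t + 10462747 / 4556250 * s ^ 3 =
      1 * (1 + u + 519 / 1000 * u ^ 2) -
      (55259 / 50000 * (1 + (u - 1 / 10) / 3) ^ 3) := by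
    rw [hs, ht]
    ring
  rw [e] at h
  linarith

theorem od_three_d10_f6 (u : ℝ) (h1 : 11 / 20 ≤ u) (h2 : u ≤ 1) :
    55259 / 50000 * (1 + (u - 1 / 10) / 3) ^ 3 ≤
      1 * (1 + u + 519 / 1000 * u ^ 2) := by
  obtain ⟨s, hs⟩ : ∃ s, s = u - (11 / 20) := ⟨_, rfl⟩
  obtain ⟨t, ht⟩ : ∃ t, t = 1 - u := ⟨_, rfl⟩
  have hs0 : 0 ≤ s := by linarith
  have ht0 : 0 ≤ t := by linarith
  have h : 0 ≤
      10462747 / 36450000 * t ^ 3 + 8510357 / 6075000 * s * t ^ 2 +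
      6538267 / 3037500 * s ^ 2 * t + 4545977 / 4556250 * s ^ 3 := by
    positivity
  have e :
      10462747 / 36450000 * t ^ 3 + 8510357 / 6075000 * s * t ^ 2 +
      6538267 / 3037500 * s ^ 2 * t + 4545977 / 4556250 * s ^ 3 =
      1 * (1 + u + 519 / 1000 * u ^ 2) -
      (55259 / 50000 * (1 + (u - 1 / 10) / 3) ^ 3) := by
    rw [hs, ht]
    ring
  rw [e] at h
  linarith

theorem od_three_d10_g0 (u : ℝ) (h1 : 1 ≤ u) (h2 : u ≤ 6) :
    55259 / 50000 * (1 + (u - 1 / 10) / 3) ^ 3 ≤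
      1 * ((1 + (1 / 250 * (u ^ 2 - 1)) +
      (1 / 250 * (u ^ 2 - 1)) ^ 2 / 2 +
      (1 / 250 * (u ^ 2 - 1)) ^ 3 / 6) *
      (1 + u + 519 / 1000 * u ^ 2)) := by
  obtain ⟨s, hs⟩ : ∃ s, s = u - (1) := ⟨_, rfl⟩
  obtain ⟨t, ht⟩ : ∃ t, t = 6 - u := ⟨_, rfl⟩
  have hs0 : 0 ≤ s := by linarith
  have ht0 : 0 ≤ t := by linarith
  have h : 0 ≤
      4545977 / 19531250000000 * t ^ 8 + 41983633 / 9765625000000 * s * t ^ 7 +
      815505149 / 29296875000000 * s ^ 2 * t ^ 6 +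
      106330506419 / 1318359375000000 * s ^ 3 * t ^ 5 +
      32534939243 / 263671875000000 * s ^ 4 * t ^ 4 +
      7025575969 / 65917968750000 * s ^ 5 * t ^ 3 +
      27595169621 / 527343750000000 * s ^ 6 * t ^ 2 +
      3693743471 / 263671875000000 * s ^ 7 * t + 4637253253 / 2636718750000000 * s ^ 8 := by
    positivity
  have e :
      4545977 / 19531250000000 * t ^ 8 + 41983633 / 9765625000000 * s * t ^ 7 +
      815505149 / 29296875000000 * s ^ 2 * t ^ 6 +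
      106330506419 / 1318359375000000 * s ^ 3 * t ^ 5 +
      32534939243 / 263671875000000 * s ^ 4 * t ^ 4 +
      7025575969 / 65917968750000 * s ^ 5 * t ^ 3 +
      27595169621 / 527343750000000 * s ^ 6 * t ^ 2 +
      3693743471 / 263671875000000 * s ^ 7 * t + 4637253253 / 2636718750000000 * s ^ 8 =
      1 * ((1 + (1 / 250 * (u ^ 2 - 1)) +
      (1 / 250 * (u ^ 2 - 1)) ^ 2 / 2 +
      (1 / 250 * (u ^ 2 - 1)) ^ 3 / 6) *
      (1 + u + 519 / 1000 * u ^ 2)) -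
      (55259 / 50000 * (1 + (u - 1 / 10) / 3) ^ 3) := by
    rw [hs, ht]
    ring
  rw [e] at h
  linarith

theorem od_three_d10_t (u : ℝ) (h1 : 6 ≤ u) :
    55259 / 50000 * (1 + (u - 1 / 10) / 3) ^ 3 ≤
      1 * ((1 + (1 / 250 * (u ^ 2 - 1)) +
      (1 / 250 * (u ^ 2 - 1)) ^ 2 / 2 +
      (1 / 250 * (u ^ 2 - 1)) ^ 3 / 6) *
      (1 + u + 519 / 1000 * u ^ 2)) := by
  obtain ⟨s, hs⟩ : ∃ s, s = u - (6) := ⟨_, rfl⟩
  have hs0 : 0 ≤ s := by linarith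
  have h : 0 ≤
      4637253253 / 6750000000 + 26765219 / 5625000000 * s +
      3085632073 / 56250000000 * s ^ 2 + 3854012891 / 105468750000 * s ^ 3 +
      160514319 / 31250000000 * s ^ 4 + 1814481 / 7812500000 * s ^ 5 +
      190769 / 18750000000 * s ^ 6 + 3239 / 11718750000 * s ^ 7 + 173 / 31250000000 * s ^ 8 := by
    positivity
  have e :
      4637253253 / 6750000000 + 26765219 / 5625000000 * s +
      3085632073 / 56250000000 * s ^ 2 + 3854012891 / 105468750000 * s ^ 3 +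
      160514319 / 31250000000 * s ^ 4 + 1814481 / 7812500000 * s ^ 5 +
      190769 / 18750000000 * s ^ 6 + 3239 / 11718750000 * s ^ 7 + 173 / 31250000000 * s ^ 8 =
      1 * ((1 + (1 / 250 * (u ^ 2 - 1)) +
      (1 / 250 * (u ^ 2 - 1)) ^ 2 / 2 +
      (1 / 250 * (u ^ 2 - 1)) ^ 3 / 6) *
      (1 + u + 519 / 1000 * u ^ 2)) -
      (55259 / 50000 * (1 + (u - 1 / 10) / 3) ^ 3) := by
    rw [hs]
    ring
  rw [e] at h
  linarith

/-- `K = 3`: `(c, μ, P, δ) = (519 / 1000, 1 / 250, 1 / 10, 0)` -/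
theorem expOd_three_d10 : ExpOd 3 (519 / 1000) (1 / 250) (1 / 10) (0) := by
  have hde : 1 ≤ Real.exp (0) := Real.exp_zero.ge
  have hq : ∀ u : ℝ, 0 ≤ 1 + u + 519 / 1000 * u ^ 2 := fun u => by
    nlinarith [sq_nonneg (u + 2), sq_nonneg u]
  have hR : ∀ (u x y : ℝ), x ≤ y → y ≤ 1 * (1 + u + 519 / 1000 * u ^ 2) →
      x ≤ Real.exp (0) * (1 + u + 519 / 1000 * u ^ 2) := fun u x y h1 h2 =>
    (h1.trans h2).trans (mul_le_mul_of_nonneg_right hde (hq u))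
  refine ExpOd.of (by norm_num) (by norm_num) (by norm_num) (by norm_num) (by norm_num) ?_ ?_ ?_
  · intro u h1
    rcases le_total u (-3) with h3 | h3
    · exact hR u _ _ (exp_le_n3 h3) (od_three_d10_d u h3)
    rcases le_total u (-2) with h4 | h4
    · refine hR u _ _ (exp_le_n2 h4) ?_
      exact od_three_d10_c0 u (by linarith) (by linarith)
    rcases le_total u (-1) with h5 | h5
    · refine hR u _ _ (exp_le_n1 h5) ?_
      exact od_three_d10_b0 u (by linarith) (by linarith)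
    rcases le_total u 0 with h6 | h6
    · refine hR u _ _ (exp_le_n0 h6) ?_
      exact od_three_d10_a0 u (by linarith) (by linarith)
    refine hR u _ _ (exp_le_p h6 (by linarith)) ?_
    exact od_three_d10_e0 u (by linarith) (by linarith)
  · intro u h1 h2
    have h4 : 0 ≤ (1 + (u - 1 / 10) / 3) ^ 3 := by
      have : 0 ≤ (u - 1 / 10) / 3 := div_nonneg (by linarith) (by norm_num)
      positivity
    have hE : Real.exp (1 / 10) ≤ 55259 / 50000 := exp_up_1_10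
    push_cast
    refine hR u _ _ (mul_le_mul_of_nonneg_right hE h4) ?_
    rcases le_total u (73 / 640) with hh | hh
    · exact od_three_d10_f0 u (by linarith) (by linarith)
    rcases le_total u (41 / 320) with hh | hh
    · exact od_three_d10_f1 u (by linarith) (by linarith)
    rcases le_total u (5 / 32) with hh | hh
    · exact od_three_d10_f2 u (by linarith) (by linarith)
    rcases le_total u (17 / 80) with hh | hh
    · exact od_three_d10_f3 u (by linarith) (by linarith)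
    rcases le_total u (13 / 40) with hh | hh
    · exact od_three_d10_f4 u (by linarith) (by linarith)
    rcases le_total u (11 / 20) with hh | hh
    · exact od_three_d10_f5 u (by linarith) (by linarith)
    exact od_three_d10_f6 u (by linarith) (by linarith)
  · intro u h1
    have h4 : 0 ≤ (1 + (u - 1 / 10) / 3) ^ 3 := by
      have : 0 ≤ (u - 1 / 10) / 3 := div_nonneg (by linarith) (by norm_num)
      positivity
    have hE : Real.exp (1 / 10) ≤ 55259 / 50000 := exp_up_1_10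
    have hx : 0 ≤ 1 / 250 * (u ^ 2 - 1) := mul_nonneg (by norm_num) (by nlinarith)
    have h5 := mul_le_mul_of_nonneg_right (taylor3_le_exp _ hx) (hq u)
    have h6 : 0 ≤ Real.exp (1 / 250 * (u ^ 2 - 1)) * (1 + u + 519 / 1000 * u ^ 2) :=
      mul_nonneg (Real.exp_nonneg _) (hq u)
    rw [Real.exp_add, mul_assoc]
    push_cast
    refine ((mul_le_mul_of_nonneg_right hE h4).trans ?_).trans
      ((mul_le_mul_of_nonneg_left h5 (by norm_num : (0 : ℝ) ≤ 1)).trans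
        (mul_le_mul_of_nonneg_right hde h6))
    rcases le_total u (6) with hh | hh
    · exact od_three_d10_g0 u (by linarith) (by linarith)
    exact od_three_d10_t u (by linarith)

theorem od_three_d11_a0 (u : ℝ) (h1 : -1 ≤ u) (h2 : u ≤ 0) :
    1 + u + u ^ 2 / 2 + u ^ 3 / 6 + u ^ 4 / 24 ≤
      (1 + 1 / 100 + (1 / 100) ^ 2 / 2) * (1 + u + 501 / 1000 * u ^ 2) := by
  obtain ⟨s, hs⟩ : ∃ s, s = u - (-1) := ⟨_, rfl⟩
  obtain ⟨t, ht⟩ : ∃ t, t = 0 - u := ⟨_, rfl⟩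
  have hs0 : 0 ≤ s := by linarith
  have ht0 : 0 ≤ t := by linarith
  have h : 0 ≤
      2620701 / 20000000 * t ^ 4 + 5663603 / 30000000 * s * t ^ 3 +
      723701 / 20000000 * s ^ 2 * t ^ 2 + 603 / 20000 * s ^ 3 * t + 201 / 20000 * s ^ 4 := by
    positivity
  have e :
      2620701 / 20000000 * t ^ 4 + 5663603 / 30000000 * s * t ^ 3 +
      723701 / 20000000 * s ^ 2 * t ^ 2 + 603 / 20000 * s ^ 3 * t + 201 / 20000 * s ^ 4 =
      (1 + 1 / 100 + (1 / 100) ^ 2 / 2) * (1 + u + 501 / 1000 * u ^ 2) -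
      (1 + u + u ^ 2 / 2 + u ^ 3 / 6 + u ^ 4 / 24) := by
    rw [hs, ht]
    ring
  rw [e] at h
  linarith

theorem od_three_d11_b0 (u : ℝ) (h1 : -2 ≤ u) (h2 : u ≤ -1) :
    36788 / 100000 *
      (1 + (u + 1) + (u + 1) ^ 2 / 2 + (u + 1) ^ 3 / 6 + (u + 1) ^ 4 / 24) ≤
      (1 + 1 / 100 + (1 / 100) ^ 2 / 2) * (1 + u + 501 / 1000 * u ^ 2) := by
  obtain ⟨s, hs⟩ : ∃ s, s = u - (-2) := ⟨_, rfl⟩
  obtain ⟨t, ht⟩ : ∃ t, t = -1 - u := ⟨_, rfl⟩
  have hs0 : 0 ≤ s := by linarith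
  have ht0 : 0 ≤ t := by linarith
  have h : 0 ≤
      1095169 / 1250000 * t ^ 4 + 35517359 / 15000000 * s * t ^ 3 +
      45214513 / 20000000 * s ^ 2 * t ^ 2 + 9225203 / 10000000 * s ^ 3 * t +
      2763101 / 20000000 * s ^ 4 := by
    positivity
  have e :
      1095169 / 1250000 * t ^ 4 + 35517359 / 15000000 * s * t ^ 3 +
      45214513 / 20000000 * s ^ 2 * t ^ 2 + 9225203 / 10000000 * s ^ 3 * t +
      2763101 / 20000000 * s ^ 4 =
      (1 + 1 / 100 + (1 / 100) ^ 2 / 2) * (1 + u + 501 / 1000 * u ^ 2) -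
      (36788 / 100000 *
      (1 + (u + 1) + (u + 1) ^ 2 / 2 + (u + 1) ^ 3 / 6 + (u + 1) ^ 4 / 24)) := by
    rw [hs, ht]
    ring
  rw [e] at h
  linarith

theorem od_three_d11_c0 (u : ℝ) (h1 : -3 ≤ u) (h2 : u ≤ -2) :
    13534 / 100000 *
      (1 + (u + 2) + (u + 2) ^ 2 / 2 + (u + 2) ^ 3 / 6 + (u + 2) ^ 4 / 24) ≤
      (1 + 1 / 100 + (1 / 100) ^ 2 / 2) * (1 + u + 501 / 1000 * u ^ 2) := by
  obtain ⟨s, hs⟩ : ∃ s, s = u - (-3) := ⟨_, rfl⟩
  obtain ⟨t, ht⟩ : ∃ t, t = -2 - u := ⟨_, rfl⟩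
  have hs0 : 0 ≤ s := by linarith
  have ht0 : 0 ≤ t := by linarith
  have h : 0 ≤
      49669259 / 20000000 * t ^ 4 + 47175469 / 6000000 * s * t ^ 3 +
      183183137 / 20000000 * s ^ 2 * t ^ 2 + 4664431 / 1000000 * s ^ 3 * t +
      4393751 / 5000000 * s ^ 4 := by
    positivity
  have e :
      49669259 / 20000000 * t ^ 4 + 47175469 / 6000000 * s * t ^ 3 +
      183183137 / 20000000 * s ^ 2 * t ^ 2 + 4664431 / 1000000 * s ^ 3 * t +
      4393751 / 5000000 * s ^ 4 =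
      (1 + 1 / 100 + (1 / 100) ^ 2 / 2) * (1 + u + 501 / 1000 * u ^ 2) -
      (13534 / 100000 *
      (1 + (u + 2) + (u + 2) ^ 2 / 2 + (u + 2) ^ 3 / 6 + (u + 2) ^ 4 / 24)) := by
    rw [hs, ht]
    ring
  rw [e] at h
  linarith

theorem od_three_d11_d (u : ℝ) (h2 : u ≤ -3) :
    4979 / 100000 ≤
      (1 + 1 / 100 + (1 / 100) ^ 2 / 2) * (1 + u + 501 / 1000 * u ^ 2) := by
  obtain ⟨s, hs⟩ : ∃ s, s = -3 - u := ⟨_, rfl⟩
  have hs0 : 0 ≤ s := by linarith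
  have h : 0 ≤
      49688509 / 20000000 + 20261603 / 10000000 * s + 10120701 / 20000000 * s ^ 2 := by
    positivity
  have e :
      49688509 / 20000000 + 20261603 / 10000000 * s + 10120701 / 20000000 * s ^ 2 =
      (1 + 1 / 100 + (1 / 100) ^ 2 / 2) * (1 + u + 501 / 1000 * u ^ 2) -
      (4979 / 100000) := by
    rw [hs]
    ring
  rw [e] at h
  linarith

theorem od_three_d11_e0 (u : ℝ) (h1 : 0 ≤ u) (h2 : u ≤ 1 / 10) :
    1 + u + u ^ 2 / 2 + u ^ 3 / 6 + u ^ 4 / 24 + u ^ 5 / 100 ≤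
      (1 + 1 / 100 + (1 / 100) ^ 2 / 2) * (1 + u + 501 / 1000 * u ^ 2) := by
  obtain ⟨s, hs⟩ : ∃ s, s = u - (0) := ⟨_, rfl⟩
  obtain ⟨t, ht⟩ : ∃ t, t = 1 / 10 - u := ⟨_, rfl⟩
  have hs0 : 0 ≤ s := by linarith
  have ht0 : 0 ≤ t := by linarith
  have h : 0 ≤
      1005 * t ^ 5 + 10251 / 2 * s * t ^ 4 + 209160701 / 20000 * s ^ 2 * t ^ 3 +
      639266309 / 60000 * s ^ 3 * t ^ 2 + 108227103 / 20000 * s ^ 4 * t +
      65666503 / 60000 * s ^ 5 := by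
    positivity
  have e :
      1005 * t ^ 5 + 10251 / 2 * s * t ^ 4 + 209160701 / 20000 * s ^ 2 * t ^ 3 +
      639266309 / 60000 * s ^ 3 * t ^ 2 + 108227103 / 20000 * s ^ 4 * t +
      65666503 / 60000 * s ^ 5 =
      (1 + 1 / 100 + (1 / 100) ^ 2 / 2) * (1 + u + 501 / 1000 * u ^ 2) -
      (1 + u + u ^ 2 / 2 + u ^ 3 / 6 + u ^ 4 / 24 + u ^ 5 / 100) := by
    rw [hs, ht]
    ring
  rw [e] at h
  linarith

theorem od_three_d11_f0 (u : ℝ) (h1 : 1 / 10 ≤ u) (h2 : u ≤ 1) :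
    55259 / 50000 * (1 + (u - 1 / 10) / 3) ^ 3 ≤
      (1 + 1 / 100 + (1 / 100) ^ 2 / 2) * (1 + u + 501 / 1000 * u ^ 2) := by
  obtain ⟨s, hs⟩ : ∃ s, s = u - (1 / 10) := ⟨_, rfl⟩
  obtain ⟨t, ht⟩ : ∃ t, t = 1 - u := ⟨_, rfl⟩
  have hs0 : 0 ≤ s := by linarith
  have ht0 : 0 ≤ t := by linarith
  have h : 0 ≤
      21870701 / 1458000000 * t ^ 3 + 25516907 / 486000000 * s * t ^ 2 +
      2587241 / 12150000 * s ^ 2 * t + 9805459 / 72900000 * s ^ 3 := by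
    positivity
  have e :
      21870701 / 1458000000 * t ^ 3 + 25516907 / 486000000 * s * t ^ 2 +
      2587241 / 12150000 * s ^ 2 * t + 9805459 / 72900000 * s ^ 3 =
      (1 + 1 / 100 + (1 / 100) ^ 2 / 2) * (1 + u + 501 / 1000 * u ^ 2) -
      (55259 / 50000 * (1 + (u - 1 / 10) / 3) ^ 3) := by
    rw [hs, ht]
    ring
  rw [e] at h
  linarith

theorem od_three_d11_g0 (u : ℝ) (h1 : 1 ≤ u) (h2 : u ≤ 9 / 2) :
    55259 / 50000 * (1 + (u - 1 / 10) / 3) ^ 3 ≤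
      (1 + 1 / 100 + (1 / 100) ^ 2 / 2) * ((1 + (1 / 250 * (u ^ 2 - 1)) +
      (1 / 250 * (u ^ 2 - 1)) ^ 2 / 2 +
      (1 / 250 * (u ^ 2 - 1)) ^ 3 / 6) *
      (1 + u + 501 / 1000 * u ^ 2)) := by
  obtain ⟨s, hs⟩ : ∃ s, s = u - (1) := ⟨_, rfl⟩
  obtain ⟨t, ht⟩ : ∃ t, t = 9 / 2 - u := ⟨_, rfl⟩
  have hs0 : 0 ≤ s := by linarith
  have ht0 : 0 ≤ t := by linarith
  have h : 0 ≤
      9805459 / 2251875390625 * t ^ 8 + 6977245757 / 112593769531250 * s * t ^ 7 +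
      1028279424262 / 3015904541015625 * s ^ 2 * t ^ 6 +
      25342840319201633 / 27143140869140625000 * s ^ 3 * t ^ 5 +
      622050192027207583 / 434290253906250000000 * s ^ 4 * t ^ 4 +
      8945510709365333 / 6948644062500000000 * s ^ 5 * t ^ 3 +
      2328894309006076081 / 3474322031250000000000 * s ^ 6 * t ^ 2 +
      2265109458031097017 / 12160127109375000000000 * s ^ 7 * t +
      2075570123815599457 / 97281016875000000000000 * s ^ 8 := by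
    positivity
  have e :
      9805459 / 2251875390625 * t ^ 8 + 6977245757 / 112593769531250 * s * t ^ 7 +
      1028279424262 / 3015904541015625 * s ^ 2 * t ^ 6 +
      25342840319201633 / 27143140869140625000 * s ^ 3 * t ^ 5 +
      622050192027207583 / 434290253906250000000 * s ^ 4 * t ^ 4 +
      8945510709365333 / 6948644062500000000 * s ^ 5 * t ^ 3 +
      2328894309006076081 / 3474322031250000000000 * s ^ 6 * t ^ 2 +
      2265109458031097017 / 12160127109375000000000 * s ^ 7 * t +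
      2075570123815599457 / 97281016875000000000000 * s ^ 8 =
      (1 + 1 / 100 + (1 / 100) ^ 2 / 2) * ((1 + (1 / 250 * (u ^ 2 - 1)) +
      (1 / 250 * (u ^ 2 - 1)) ^ 2 / 2 +
      (1 / 250 * (u ^ 2 - 1)) ^ 3 / 6) *
      (1 + u + 501 / 1000 * u ^ 2)) -
      (55259 / 50000 * (1 + (u - 1 / 10) / 3) ^ 3) := by
    rw [hs, ht]
    ring
  rw [e] at h
  linarith

theorem od_three_d11_g1 (u : ℝ) (h1 : 9 / 2 ≤ u) (h2 : u ≤ 8) :
    55259 / 50000 * (1 + (u - 1 / 10) / 3) ^ 3 ≤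
      (1 + 1 / 100 + (1 / 100) ^ 2 / 2) * ((1 + (1 / 250 * (u ^ 2 - 1)) +
      (1 / 250 * (u ^ 2 - 1)) ^ 2 / 2 +
      (1 / 250 * (u ^ 2 - 1)) ^ 3 / 6) *
      (1 + u + 501 / 1000 * u ^ 2)) := by
  obtain ⟨s, hs⟩ : ∃ s, s = u - (9 / 2) := ⟨_, rfl⟩
  obtain ⟨t, ht⟩ : ∃ t, t = 8 - u := ⟨_, rfl⟩
  have hs0 : 0 ≤ s := by linarith
  have ht0 : 0 ≤ t := by linarith
  have h : 0 ≤
      2075570123815599457 / 97281016875000000000000 * t ^ 8 +
      1886030789600101897 / 12160127109375000000000 * s * t ^ 7 +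
      1570736972144085841 / 3474322031250000000000 * s ^ 2 * t ^ 6 +
      3021447059496757 / 4523856811523437500 * s ^ 3 * t ^ 5 +
      49904301108104929 / 96508945312500000000 * s ^ 4 * t ^ 4 +
      7283110643456581 / 36190854492187500000 * s ^ 5 * t ^ 3 +
      12786948118718951 / 217145126953125000000 * s ^ 6 * t ^ 2 +
      3858011753854099 / 95000993041992187500 * s ^ 7 * t +
      733047268660309 / 47500496520996093750 * s ^ 8 := by
    positivity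
  have e :
      2075570123815599457 / 97281016875000000000000 * t ^ 8 +
      1886030789600101897 / 12160127109375000000000 * s * t ^ 7 +
      1570736972144085841 / 3474322031250000000000 * s ^ 2 * t ^ 6 +
      3021447059496757 / 4523856811523437500 * s ^ 3 * t ^ 5 +
      49904301108104929 / 96508945312500000000 * s ^ 4 * t ^ 4 +
      7283110643456581 / 36190854492187500000 * s ^ 5 * t ^ 3 +
      12786948118718951 / 217145126953125000000 * s ^ 6 * t ^ 2 +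
      3858011753854099 / 95000993041992187500 * s ^ 7 * t +
      733047268660309 / 47500496520996093750 * s ^ 8 =
      (1 + 1 / 100 + (1 / 100) ^ 2 / 2) * ((1 + (1 / 250 * (u ^ 2 - 1)) +
      (1 / 250 * (u ^ 2 - 1)) ^ 2 / 2 +
      (1 / 250 * (u ^ 2 - 1)) ^ 3 / 6) *
      (1 + u + 501 / 1000 * u ^ 2)) -
      (55259 / 50000 * (1 + (u - 1 / 10) / 3) ^ 3) := by
    rw [hs, ht]
    ring
  rw [e] at h
  linarith

theorem od_three_d11_t (u : ℝ) (h1 : 8 ≤ u) :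
    55259 / 50000 * (1 + (u - 1 / 10) / 3) ^ 3 ≤
      (1 + 1 / 100 + (1 / 100) ^ 2 / 2) * ((1 + (1 / 250 * (u ^ 2 - 1)) +
      (1 / 250 * (u ^ 2 - 1)) ^ 2 / 2 +
      (1 / 250 * (u ^ 2 - 1)) ^ 3 / 6) *
      (1 + u + 501 / 1000 * u ^ 2)) := by
  obtain ⟨s, hs⟩ : ∃ s, s = u - (8) := ⟨_, rfl⟩
  have hs0 : 0 ≤ s := by linarith
  have h : 0 ≤
      733047268660309 / 2109375000000000 + 74959471854389 / 140625000000000 * s +
      2137562402170139 / 5625000000000000 * s ^ 2 +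
      181115109406207 / 2109375000000000 * s ^ 3 +
      14939767584443 / 1875000000000000 * s ^ 4 + 29011605547 / 78125000000000 * s ^ 5 +
      8949305613 / 625000000000000 * s ^ 6 + 83490733 / 234375000000000 * s ^ 7 +
      3373567 / 625000000000000 * s ^ 8 := by
    positivity
  have e :
      733047268660309 / 2109375000000000 + 74959471854389 / 140625000000000 * s +
      2137562402170139 / 5625000000000000 * s ^ 2 +
      181115109406207 / 2109375000000000 * s ^ 3 +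
      14939767584443 / 1875000000000000 * s ^ 4 + 29011605547 / 78125000000000 * s ^ 5 +
      8949305613 / 625000000000000 * s ^ 6 + 83490733 / 234375000000000 * s ^ 7 +
      3373567 / 625000000000000 * s ^ 8 =
      (1 + 1 / 100 + (1 / 100) ^ 2 / 2) * ((1 + (1 / 250 * (u ^ 2 - 1)) +
      (1 / 250 * (u ^ 2 - 1)) ^ 2 / 2 +
      (1 / 250 * (u ^ 2 - 1)) ^ 3 / 6) *
      (1 + u + 501 / 1000 * u ^ 2)) -
      (55259 / 50000 * (1 + (u - 1 / 10) / 3) ^ 3) := by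
    rw [hs]
    ring
  rw [e] at h
  linarith

/-- `K = 3`: `(c, μ, P, δ) = (501 / 1000, 1 / 250, 1 / 10, 1 / 100)` -/
theorem expOd_three_d11 : ExpOd 3 (501 / 1000) (1 / 250) (1 / 10) (1 / 100) := by
  have hde : (1 + 1 / 100 + (1 / 100) ^ 2 / 2) ≤ Real.exp (1 / 100) := Real.quadratic_le_exp_of_nonneg (by norm_num)
  have hq : ∀ u : ℝ, 0 ≤ 1 + u + 501 / 1000 * u ^ 2 := fun u => by
    nlinarith [sq_nonneg (u + 2), sq_nonneg u]
  have hR : ∀ (u x y : ℝ), x ≤ y → y ≤ (1 + 1 / 100 + (1 / 100) ^ 2 / 2) * (1 + u + 501 / 1000 * u ^ 2) →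
      x ≤ Real.exp (1 / 100) * (1 + u + 501 / 1000 * u ^ 2) := fun u x y h1 h2 =>
    (h1.trans h2).trans (mul_le_mul_of_nonneg_right hde (hq u))
  refine ExpOd.of (by norm_num) (by norm_num) (by norm_num) (by norm_num) (by norm_num) ?_ ?_ ?_
  · intro u h1
    rcases le_total u (-3) with h3 | h3
    · exact hR u _ _ (exp_le_n3 h3) (od_three_d11_d u h3)
    rcases le_total u (-2) with h4 | h4
    · refine hR u _ _ (exp_le_n2 h4) ?_
      exact od_three_d11_c0 u (by linarith) (by linarith)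
    rcases le_total u (-1) with h5 | h5
    · refine hR u _ _ (exp_le_n1 h5) ?_
      exact od_three_d11_b0 u (by linarith) (by linarith)
    rcases le_total u 0 with h6 | h6
    · refine hR u _ _ (exp_le_n0 h6) ?_
      exact od_three_d11_a0 u (by linarith) (by linarith)
    refine hR u _ _ (exp_le_p h6 (by linarith)) ?_
    exact od_three_d11_e0 u (by linarith) (by linarith)
  · intro u h1 h2
    have h4 : 0 ≤ (1 + (u - 1 / 10) / 3) ^ 3 := by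
      have : 0 ≤ (u - 1 / 10) / 3 := div_nonneg (by linarith) (by norm_num)
      positivity
    have hE : Real.exp (1 / 10) ≤ 55259 / 50000 := exp_up_1_10
    push_cast
    refine hR u _ _ (mul_le_mul_of_nonneg_right hE h4) ?_
    exact od_three_d11_f0 u (by linarith) (by linarith)
  · intro u h1
    have h4 : 0 ≤ (1 + (u - 1 / 10) / 3) ^ 3 := by
      have : 0 ≤ (u - 1 / 10) / 3 := div_nonneg (by linarith) (by norm_num)
      positivity
    have hE : Real.exp (1 / 10) ≤ 55259 / 50000 := exp_up_1_10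
    have hx : 0 ≤ 1 / 250 * (u ^ 2 - 1) := mul_nonneg (by norm_num) (by nlinarith)
    have h5 := mul_le_mul_of_nonneg_right (taylor3_le_exp _ hx) (hq u)
    have h6 : 0 ≤ Real.exp (1 / 250 * (u ^ 2 - 1)) * (1 + u + 501 / 1000 * u ^ 2) :=
      mul_nonneg (Real.exp_nonneg _) (hq u)
    rw [Real.exp_add, mul_assoc]
    push_cast
    refine ((mul_le_mul_of_nonneg_right hE h4).trans ?_).trans
      ((mul_le_mul_of_nonneg_left h5 (by norm_num : (0 : ℝ) ≤ (1 + 1 / 100 + (1 / 100) ^ 2 / 2))).trans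
        (mul_le_mul_of_nonneg_right hde h6))
    rcases le_total u (9 / 2) with hh | hh
    · exact od_three_d11_g0 u (by linarith) (by linarith)
    rcases le_total u (8) with hh | hh
    · exact od_three_d11_g1 u (by linarith) (by linarith)
    exact od_three_d11_t u (by linarith)

theorem od_three_d12_a0 (u : ℝ) (h1 : -1 ≤ u) (h2 : u ≤ 0) :
    1 + u + u ^ 2 / 2 + u ^ 3 / 6 + u ^ 4 / 24 ≤
      1 * (1 + u + 519 / 1000 * u ^ 2) := by
  obtain ⟨s, hs⟩ : ∃ s, s = u - (-1) := ⟨_, rfl⟩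
  obtain ⟨t, ht⟩ : ∃ t, t = 0 - u := ⟨_, rfl⟩
  have hs0 : 0 ≤ s := by linarith
  have ht0 : 0 ≤ t := by linarith
  have h : 0 ≤
      18 / 125 * t ^ 4 + 307 / 1500 * s * t ^ 3 + 19 / 1000 * s ^ 2 * t ^ 2 := by
    positivity
  have e :
      18 / 125 * t ^ 4 + 307 / 1500 * s * t ^ 3 + 19 / 1000 * s ^ 2 * t ^ 2 =
      1 * (1 + u + 519 / 1000 * u ^ 2) -
      (1 + u + u ^ 2 / 2 + u ^ 3 / 6 + u ^ 4 / 24) := by
    rw [hs, ht]
    ring
  rw [e] at h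
  linarith

theorem od_three_d12_b0 (u : ℝ) (h1 : -2 ≤ u) (h2 : u ≤ -1) :
    36788 / 100000 *
      (1 + (u + 1) + (u + 1) ^ 2 / 2 + (u + 1) ^ 3 / 6 + (u + 1) ^ 4 / 24) ≤
      1 * (1 + u + 519 / 1000 * u ^ 2) := by
  obtain ⟨s, hs⟩ : ∃ s, s = u - (-2) := ⟨_, rfl⟩
  obtain ⟨t, ht⟩ : ∃ t, t = -1 - u := ⟨_, rfl⟩
  have hs0 : 0 ≤ s := by linarith
  have ht0 : 0 ≤ t := by linarith
  have h : 0 ≤
      187609 / 200000 * t ^ 4 + 383033 / 150000 * s * t ^ 3 +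
      122971 / 50000 * s ^ 2 * t ^ 2 + 25259 / 25000 * s ^ 3 * t + 1889 / 12500 * s ^ 4 := by
    positivity
  have e :
      187609 / 200000 * t ^ 4 + 383033 / 150000 * s * t ^ 3 +
      122971 / 50000 * s ^ 2 * t ^ 2 + 25259 / 25000 * s ^ 3 * t + 1889 / 12500 * s ^ 4 =
      1 * (1 + u + 519 / 1000 * u ^ 2) -
      (36788 / 100000 *
      (1 + (u + 1) + (u + 1) ^ 2 / 2 + (u + 1) ^ 3 / 6 + (u + 1) ^ 4 / 24)) := by
    rw [hs, ht]
    ring
  rw [e] at h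
  linarith

theorem od_three_d12_c0 (u : ℝ) (h1 : -3 ≤ u) (h2 : u ≤ -2) :
    13534 / 100000 *
      (1 + (u + 2) + (u + 2) ^ 2 / 2 + (u + 2) ^ 3 / 6 + (u + 2) ^ 4 / 24) ≤
      1 * (1 + u + 519 / 1000 * u ^ 2) := by
  obtain ⟨s, hs⟩ : ∃ s, s = u - (-3) := ⟨_, rfl⟩
  obtain ⟨t, ht⟩ : ∃ t, t = -2 - u := ⟨_, rfl⟩
  have hs0 : 0 ≤ s := by linarith
  have ht0 : 0 ≤ t := by linarith
  have h : 0 ≤
      1048099 / 400000 * t ^ 4 + 2496563 / 300000 * s * t ^ 3 +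
      972931 / 100000 * s ^ 2 * t ^ 2 + 248699 / 50000 * s ^ 3 * t + 47033 / 50000 * s ^ 4 := by
    positivity
  have e :
      1048099 / 400000 * t ^ 4 + 2496563 / 300000 * s * t ^ 3 +
      972931 / 100000 * s ^ 2 * t ^ 2 + 248699 / 50000 * s ^ 3 * t + 47033 / 50000 * s ^ 4 =
      1 * (1 + u + 519 / 1000 * u ^ 2) -
      (13534 / 100000 *
      (1 + (u + 2) + (u + 2) ^ 2 / 2 + (u + 2) ^ 3 / 6 + (u + 2) ^ 4 / 24)) := by
    rw [hs, ht]
    ring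
  rw [e] at h
  linarith

theorem od_three_d12_d (u : ℝ) (h2 : u ≤ -3) :
    4979 / 100000 ≤
      1 * (1 + u + 519 / 1000 * u ^ 2) := by
  obtain ⟨s, hs⟩ : ∃ s, s = -3 - u := ⟨_, rfl⟩
  have hs0 : 0 ≤ s := by linarith
  have h : 0 ≤
      262121 / 100000 + 1057 / 500 * s + 519 / 1000 * s ^ 2 := by
    positivity
  have e :
      262121 / 100000 + 1057 / 500 * s + 519 / 1000 * s ^ 2 =
      1 * (1 + u + 519 / 1000 * u ^ 2) -
      (4979 / 100000) := by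
    rw [hs]
    ring
  rw [e] at h
  linarith

theorem od_three_d12_e0 (u : ℝ) (h1 : 0 ≤ u) (h2 : u ≤ 1 / 10) :
    1 + u + u ^ 2 / 2 + u ^ 3 / 6 + u ^ 4 / 24 + u ^ 5 / 100 ≤
      1 * (1 + u + 519 / 1000 * u ^ 2) := by
  obtain ⟨s, hs⟩ : ∃ s, s = u - (0) := ⟨_, rfl⟩
  obtain ⟨t, ht⟩ : ∃ t, t = 1 / 10 - u := ⟨_, rfl⟩
  have hs0 : 0 ≤ s := by linarith
  have ht0 : 0 ≤ t := by linarith
  have h : 0 ≤
      19 * s ^ 2 * t ^ 3 + 121 / 3 * s ^ 3 * t ^ 2 + 93 / 4 * s ^ 4 * t + 143 / 75 * s ^ 5 := by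
    positivity
  have e :
      19 * s ^ 2 * t ^ 3 + 121 / 3 * s ^ 3 * t ^ 2 + 93 / 4 * s ^ 4 * t + 143 / 75 * s ^ 5 =
      1 * (1 + u + 519 / 1000 * u ^ 2) -
      (1 + u + u ^ 2 / 2 + u ^ 3 / 6 + u ^ 4 / 24 + u ^ 5 / 100) := by
    rw [hs, ht]
    ring
  rw [e] at h
  linarith

theorem od_three_d12_f0 (u : ℝ) (h1 : 1 / 10 ≤ u) (h2 : u ≤ 73 / 640) :
    55259 / 50000 * (1 + (u - 1 / 10) / 3) ^ 3 ≤
      1 * (1 + u + 519 / 1000 * u ^ 2) := by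
  obtain ⟨s, hs⟩ : ∃ s, s = u - (1 / 10) := ⟨_, rfl⟩
  obtain ⟨t, ht⟩ : ∃ t, t = 73 / 640 - u := ⟨_, rfl⟩
  have hs0 : 0 ≤ s := by linarith
  have ht0 : 0 ≤ t := by linarith
  have h : 0 ≤
      65536 / 18225 * t ^ 3 + 115712 / 30375 * s * t ^ 2 + 1145272 / 151875 * s ^ 2 * t +
      265590887 / 36450000 * s ^ 3 := by
    positivity
  have e :
      65536 / 18225 * t ^ 3 + 115712 / 30375 * s * t ^ 2 + 1145272 / 151875 * s ^ 2 * t +
      265590887 / 36450000 * s ^ 3 =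
      1 * (1 + u + 519 / 1000 * u ^ 2) -
      (55259 / 50000 * (1 + (u - 1 / 10) / 3) ^ 3) := by
    rw [hs, ht]
    ring
  rw [e] at h
  linarith

theorem od_three_d12_f1 (u : ℝ) (h1 : 73 / 640 ≤ u) (h2 : u ≤ 41 / 320) :
    55259 / 50000 * (1 + (u - 1 / 10) / 3) ^ 3 ≤
      1 * (1 + u + 519 / 1000 * u ^ 2) := by
  obtain ⟨s, hs⟩ : ∃ s, s = u - (73 / 640) := ⟨_, rfl⟩
  obtain ⟨t, ht⟩ : ∃ t, t = 41 / 320 - u := ⟨_, rfl⟩
  have hs0 : 0 ≤ s := by linarith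
  have ht0 : 0 ≤ t := by linarith
  have h : 0 ≤
      265590887 / 36450000 * t ^ 3 + 219780007 / 6075000 * s * t ^ 2 +
      185540327 / 3037500 * s ^ 2 * t + 146487847 / 4556250 * s ^ 3 := by
    positivity
  have e :
      265590887 / 36450000 * t ^ 3 + 219780007 / 6075000 * s * t ^ 2 +
      185540327 / 3037500 * s ^ 2 * t + 146487847 / 4556250 * s ^ 3 =
      1 * (1 + u + 519 / 1000 * u ^ 2) -
      (55259 / 50000 * (1 + (u - 1 / 10) / 3) ^ 3) := by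
    rw [hs, ht]
    ring
  rw [e] at h
  linarith

theorem od_three_d12_f2 (u : ℝ) (h1 : 41 / 320 ≤ u) (h2 : u ≤ 5 / 32) :
    55259 / 50000 * (1 + (u - 1 / 10) / 3) ^ 3 ≤
      1 * (1 + u + 519 / 1000 * u ^ 2) := by
  obtain ⟨s, hs⟩ : ∃ s, s = u - (41 / 320) := ⟨_, rfl⟩
  obtain ⟨t, ht⟩ : ∃ t, t = 5 / 32 - u := ⟨_, rfl⟩
  have hs0 : 0 ≤ s := by linarith
  have ht0 : 0 ≤ t := by linarith
  have h : 0 ≤
      146487847 / 36450000 * t ^ 3 + 126961607 / 6075000 * s * t ^ 2 +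
      106232167 / 3037500 * s ^ 2 * t + 82251527 / 4556250 * s ^ 3 := by
    positivity
  have e :
      146487847 / 36450000 * t ^ 3 + 126961607 / 6075000 * s * t ^ 2 +
      106232167 / 3037500 * s ^ 2 * t + 82251527 / 4556250 * s ^ 3 =
      1 * (1 + u + 519 / 1000 * u ^ 2) -
      (55259 / 50000 * (1 + (u - 1 / 10) / 3) ^ 3) := by
    rw [hs, ht]
    ring
  rw [e] at h
  linarith

theorem od_three_d12_f3 (u : ℝ) (h1 : 5 / 32 ≤ u) (h2 : u ≤ 17 / 80) :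
    55259 / 50000 * (1 + (u - 1 / 10) / 3) ^ 3 ≤
      1 * (1 + u + 519 / 1000 * u ^ 2) := by
  obtain ⟨s, hs⟩ : ∃ s, s = u - (5 / 32) := ⟨_, rfl⟩
  obtain ⟨t, ht⟩ : ∃ t, t = 17 / 80 - u := ⟨_, rfl⟩
  have hs0 : 0 ≤ s := by linarith
  have ht0 : 0 ≤ t := by linarith
  have h : 0 ≤
      82251527 / 36450000 * t ^ 3 + 70261207 / 6075000 * s * t ^ 2 +
      57458087 / 3037500 * s ^ 2 * t + 43586167 / 4556250 * s ^ 3 := by
    positivity
  have e :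
      82251527 / 36450000 * t ^ 3 + 70261207 / 6075000 * s * t ^ 2 +
      57458087 / 3037500 * s ^ 2 * t + 43586167 / 4556250 * s ^ 3 =
      1 * (1 + u + 519 / 1000 * u ^ 2) -
      (55259 / 50000 * (1 + (u - 1 / 10) / 3) ^ 3) := by
    rw [hs, ht]
    ring
  rw [e] at h
  linarith

theorem od_three_d12_f4 (u : ℝ) (h1 : 17 / 80 ≤ u) (h2 : u ≤ 13 / 40) :
    55259 / 50000 * (1 + (u - 1 / 10) / 3) ^ 3 ≤
      1 * (1 + u + 519 / 1000 * u ^ 2) := by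
  obtain ⟨s, hs⟩ : ∃ s, s = u - (17 / 80) := ⟨_, rfl⟩
  obtain ⟨t, ht⟩ : ∃ t, t = 13 / 40 - u := ⟨_, rfl⟩
  have hs0 : 0 ≤ s := by linarith
  have ht0 : 0 ≤ t := by linarith
  have h : 0 ≤
      43586167 / 36450000 * t ^ 3 + 36650207 / 6075000 * s * t ^ 2 +
      29447047 / 3037500 * s ^ 2 * t + 21944687 / 4556250 * s ^ 3 := by
    positivity
  have e :
      43586167 / 36450000 * t ^ 3 + 36650207 / 6075000 * s * t ^ 2 +
      29447047 / 3037500 * s ^ 2 * t + 21944687 / 4556250 * s ^ 3 =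
      1 * (1 + u + 519 / 1000 * u ^ 2) -
      (55259 / 50000 * (1 + (u - 1 / 10) / 3) ^ 3) := by
    rw [hs, ht]
    ring
  rw [e] at h
  linarith

theorem od_three_d12_f5 (u : ℝ) (h1 : 13 / 40 ≤ u) (h2 : u ≤ 11 / 20) :
    55259 / 50000 * (1 + (u - 1 / 10) / 3) ^ 3 ≤
      1 * (1 + u + 519 / 1000 * u ^ 2) := by
  obtain ⟨s, hs⟩ : ∃ s, s = u - (13 / 40) := ⟨_, rfl⟩
  obtain ⟨t, ht⟩ : ∃ t, t = 11 / 20 - u := ⟨_, rfl⟩
  have hs0 : 0 ≤ s := by linarith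
  have ht0 : 0 ≤ t := by linarith
  have h : 0 ≤
      21944687 / 36450000 * t ^ 3 + 18193507 / 6075000 * s * t ^ 2 +
      14367527 / 3037500 * s ^ 2 * t + 10462747 / 4556250 * s ^ 3 := by
    positivity
  have e :
      21944687 / 36450000 * t ^ 3 + 18193507 / 6075000 * s * t ^ 2 +
      14367527 / 3037500 * s ^ 2 * t + 10462747 / 4556250 * s ^ 3 =
      1 * (1 + u + 519 / 1000 * u ^ 2) -
      (55259 / 50000 * (1 + (u - 1 / 10) / 3) ^ 3) := by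
    rw [hs, ht]
    ring
  rw [e] at h
  linarith

theorem od_three_d12_f6 (u : ℝ) (h1 : 11 / 20 ≤ u) (h2 : u ≤ 1) :
    55259 / 50000 * (1 + (u - 1 / 10) / 3) ^ 3 ≤
      1 * (1 + u + 519 / 1000 * u ^ 2) := by
  obtain ⟨s, hs⟩ : ∃ s, s = u - (11 / 20) := ⟨_, rfl⟩
  obtain ⟨t, ht⟩ : ∃ t, t = 1 - u := ⟨_, rfl⟩
  have hs0 : 0 ≤ s := by linarith
  have ht0 : 0 ≤ t := by linarith
  have h : 0 ≤
      10462747 / 36450000 * t ^ 3 + 8510357 / 6075000 * s * t ^ 2 +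
      6538267 / 3037500 * s ^ 2 * t + 4545977 / 4556250 * s ^ 3 := by
    positivity
  have e :
      10462747 / 36450000 * t ^ 3 + 8510357 / 6075000 * s * t ^ 2 +
      6538267 / 3037500 * s ^ 2 * t + 4545977 / 4556250 * s ^ 3 =
      1 * (1 + u + 519 / 1000 * u ^ 2) -
      (55259 / 50000 * (1 + (u - 1 / 10) / 3) ^ 3) := by
    rw [hs, ht]
    ring
  rw [e] at h
  linarith

theorem od_three_d12_g0 (u : ℝ) (h1 : 1 ≤ u) (h2 : u ≤ 3) :
    55259 / 50000 * (1 + (u - 1 / 10) / 3) ^ 3 ≤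
      1 * ((1 + (7 / 1000 * (u ^ 2 - 1)) +
      (7 / 1000 * (u ^ 2 - 1)) ^ 2 / 2 +
      (7 / 1000 * (u ^ 2 - 1)) ^ 3 / 6) *
      (1 + u + 519 / 1000 * u ^ 2)) := by
  obtain ⟨s, hs⟩ : ∃ s, s = u - (1) := ⟨_, rfl⟩
  obtain ⟨t, ht⟩ : ∃ t, t = 3 - u := ⟨_, rfl⟩
  have hs0 : 0 ≤ s := by linarith
  have ht0 : 0 ≤ t := by linarith
  have h : 0 ≤
      4545977 / 12800000000 * t ^ 8 + 14229749 / 3200000000 * s * t ^ 7 +
      2163342913 / 96000000000 * s ^ 2 * t ^ 6 +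
      13202476614653 / 216000000000000 * s ^ 3 * t ^ 5 +
      10650351961043 / 108000000000000 * s ^ 4 * t ^ 4 +
      21209435775221 / 216000000000000 * s ^ 5 * t ^ 3 +
      1607434135969 / 27000000000000 * s ^ 6 * t ^ 2 +
      547047886421 / 27000000000000 * s ^ 7 * t + 644398021391 / 216000000000000 * s ^ 8 := by
    positivity
  have e :
      4545977 / 12800000000 * t ^ 8 + 14229749 / 3200000000 * s * t ^ 7 +
      2163342913 / 96000000000 * s ^ 2 * t ^ 6 +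
      13202476614653 / 216000000000000 * s ^ 3 * t ^ 5 +
      10650351961043 / 108000000000000 * s ^ 4 * t ^ 4 +
      21209435775221 / 216000000000000 * s ^ 5 * t ^ 3 +
      1607434135969 / 27000000000000 * s ^ 6 * t ^ 2 +
      547047886421 / 27000000000000 * s ^ 7 * t + 644398021391 / 216000000000000 * s ^ 8 =
      1 * ((1 + (7 / 1000 * (u ^ 2 - 1)) +
      (7 / 1000 * (u ^ 2 - 1)) ^ 2 / 2 +
      (7 / 1000 * (u ^ 2 - 1)) ^ 3 / 6) *
      (1 + u + 519 / 1000 * u ^ 2)) -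
      (55259 / 50000 * (1 + (u - 1 / 10) / 3) ^ 3) := by
    rw [hs, ht]
    ring
  rw [e] at h
  linarith

theorem od_three_d12_t (u : ℝ) (h1 : 3 ≤ u) :
    55259 / 50000 * (1 + (u - 1 / 10) / 3) ^ 3 ≤
      1 * ((1 + (7 / 1000 * (u ^ 2 - 1)) +
      (7 / 1000 * (u ^ 2 - 1)) ^ 2 / 2 +
      (7 / 1000 * (u ^ 2 - 1)) ^ 3 / 6) *
      (1 + u + 519 / 1000 * u ^ 2)) := by
  obtain ⟨s, hs⟩ : ∃ s, s = u - (3) := ⟨_, rfl⟩
  have hs0 : 0 ≤ s := by linarith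
  have h : 0 ≤
      644398021391 / 843750000000 + 3245004499 / 7031250000 * s +
      22328003927 / 281250000000 * s ^ 2 + 129647030459 / 6750000000000 * s ^ 3 +
      2965728213 / 500000000000 * s ^ 4 + 308299131 / 1000000000000 * s ^ 5 +
      128165233 / 6000000000000 * s ^ 6 + 288463 / 375000000000 * s ^ 7 +
      59339 / 2000000000000 * s ^ 8 := by
    positivity
  have e :
      644398021391 / 843750000000 + 3245004499 / 7031250000 * s +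
      22328003927 / 281250000000 * s ^ 2 + 129647030459 / 6750000000000 * s ^ 3 +
      2965728213 / 500000000000 * s ^ 4 + 308299131 / 1000000000000 * s ^ 5 +
      128165233 / 6000000000000 * s ^ 6 + 288463 / 375000000000 * s ^ 7 +
      59339 / 2000000000000 * s ^ 8 =
      1 * ((1 + (7 / 1000 * (u ^ 2 - 1)) +
      (7 / 1000 * (u ^ 2 - 1)) ^ 2 / 2 +
      (7 / 1000 * (u ^ 2 - 1)) ^ 3 / 6) *
      (1 + u + 519 / 1000 * u ^ 2)) -
      (55259 / 50000 * (1 + (u - 1 / 10) / 3) ^ 3) := by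
    rw [hs]
    ring
  rw [e] at h
  linarith

/-- `K = 3`: `(c, μ, P, δ) = (519 / 1000, 7 / 1000, 1 / 10, 0)` -/
theorem expOd_three_d12 : ExpOd 3 (519 / 1000) (7 / 1000) (1 / 10) (0) := by
  have hde : 1 ≤ Real.exp (0) := Real.exp_zero.ge
  have hq : ∀ u : ℝ, 0 ≤ 1 + u + 519 / 1000 * u ^ 2 := fun u => by
    nlinarith [sq_nonneg (u + 2), sq_nonneg u]
  have hR : ∀ (u x y : ℝ), x ≤ y → y ≤ 1 * (1 + u + 519 / 1000 * u ^ 2) →
      x ≤ Real.exp (0) * (1 + u + 519 / 1000 * u ^ 2) := fun u x y h1 h2 =>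
    (h1.trans h2).trans (mul_le_mul_of_nonneg_right hde (hq u))
  refine ExpOd.of (by norm_num) (by norm_num) (by norm_num) (by norm_num) (by norm_num) ?_ ?_ ?_
  · intro u h1
    rcases le_total u (-3) with h3 | h3
    · exact hR u _ _ (exp_le_n3 h3) (od_three_d12_d u h3)
    rcases le_total u (-2) with h4 | h4
    · refine hR u _ _ (exp_le_n2 h4) ?_
      exact od_three_d12_c0 u (by linarith) (by linarith)
    rcases le_total u (-1) with h5 | h5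
    · refine hR u _ _ (exp_le_n1 h5) ?_
      exact od_three_d12_b0 u (by linarith) (by linarith)
    rcases le_total u 0 with h6 | h6
    · refine hR u _ _ (exp_le_n0 h6) ?_
      exact od_three_d12_a0 u (by linarith) (by linarith)
    refine hR u _ _ (exp_le_p h6 (by linarith)) ?_
    exact od_three_d12_e0 u (by linarith) (by linarith)
  · intro u h1 h2
    have h4 : 0 ≤ (1 + (u - 1 / 10) / 3) ^ 3 := by
      have : 0 ≤ (u - 1 / 10) / 3 := div_nonneg (by linarith) (by norm_num)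
      positivity
    have hE : Real.exp (1 / 10) ≤ 55259 / 50000 := exp_up_1_10
    push_cast
    refine hR u _ _ (mul_le_mul_of_nonneg_right hE h4) ?_
    rcases le_total u (73 / 640) with hh | hh
    · exact od_three_d12_f0 u (by linarith) (by linarith)
    rcases le_total u (41 / 320) with hh | hh
    · exact od_three_d12_f1 u (by linarith) (by linarith)
    rcases le_total u (5 / 32) with hh | hh
    · exact od_three_d12_f2 u (by linarith) (by linarith)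
    rcases le_total u (17 / 80) with hh | hh
    · exact od_three_d12_f3 u (by linarith) (by linarith)
    rcases le_total u (13 / 40) with hh | hh
    · exact od_three_d12_f4 u (by linarith) (by linarith)
    rcases le_total u (11 / 20) with hh | hh
    · exact od_three_d12_f5 u (by linarith) (by linarith)
    exact od_three_d12_f6 u (by linarith) (by linarith)
  · intro u h1
    have h4 : 0 ≤ (1 + (u - 1 / 10) / 3) ^ 3 := by
      have : 0 ≤ (u - 1 / 10) / 3 := div_nonneg (by linarith) (by norm_num)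
      positivity
    have hE : Real.exp (1 / 10) ≤ 55259 / 50000 := exp_up_1_10
    have hx : 0 ≤ 7 / 1000 * (u ^ 2 - 1) := mul_nonneg (by norm_num) (by nlinarith)
    have h5 := mul_le_mul_of_nonneg_right (taylor3_le_exp _ hx) (hq u)
    have h6 : 0 ≤ Real.exp (7 / 1000 * (u ^ 2 - 1)) * (1 + u + 519 / 1000 * u ^ 2) :=
      mul_nonneg (Real.exp_nonneg _) (hq u)
    rw [Real.exp_add, mul_assoc]
    push_cast
    refine ((mul_le_mul_of_nonneg_right hE h4).trans ?_).trans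
      ((mul_le_mul_of_nonneg_left h5 (by norm_num : (0 : ℝ) ≤ 1)).trans
        (mul_le_mul_of_nonneg_right hde h6))
    rcases le_total u (3) with hh | hh
    · exact od_three_d12_g0 u (by linarith) (by linarith)
    exact od_three_d12_t u (by linarith)

theorem od_three_d13_a0 (u : ℝ) (h1 : -1 ≤ u) (h2 : u ≤ -1 / 2) :
    1 + u + u ^ 2 / 2 + u ^ 3 / 6 + u ^ 4 / 24 ≤
      (1 + 1 / 200 + (1 / 200) ^ 2 / 2) * (1 + u + 221 / 500 * u ^ 2) := by
  obtain ⟨s, hs⟩ : ∃ s, s = u - (-1) := ⟨_, rfl⟩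
  obtain ⟨t, ht⟩ : ∃ t, t = -1 / 2 - u := ⟨_, rfl⟩
  have hs0 : 0 ≤ s := by linarith
  have ht0 : 0 ≤ t := by linarith
  have h : 0 ≤
      2768621 / 2500000 * t ^ 4 + 20218339 / 7500000 * s * t ^ 3 +
      22195073 / 10000000 * s ^ 2 * t ^ 2 + 3907363 / 5000000 * s ^ 3 * t +
      3258863 / 30000000 * s ^ 4 := by
    positivity
  have e :
      2768621 / 2500000 * t ^ 4 + 20218339 / 7500000 * s * t ^ 3 +
      22195073 / 10000000 * s ^ 2 * t ^ 2 + 3907363 / 5000000 * s ^ 3 * t +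
      3258863 / 30000000 * s ^ 4 =
      (1 + 1 / 200 + (1 / 200) ^ 2 / 2) * (1 + u + 221 / 500 * u ^ 2) -
      (1 + u + u ^ 2 / 2 + u ^ 3 / 6 + u ^ 4 / 24) := by
    rw [hs, ht]
    ring
  rw [e] at h
  linarith

theorem od_three_d13_a1 (u : ℝ) (h1 : -1 / 2 ≤ u) (h2 : u ≤ 0) :
    1 + u + u ^ 2 / 2 + u ^ 3 / 6 + u ^ 4 / 24 ≤
      (1 + 1 / 200 + (1 / 200) ^ 2 / 2) * (1 + u + 221 / 500 * u ^ 2) := by
  obtain ⟨s, hs⟩ : ∃ s, s = u - (-1 / 2) := ⟨_, rfl⟩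
  obtain ⟨t, ht⟩ : ∃ t, t = 0 - u := ⟨_, rfl⟩
  have hs0 : 0 ≤ s := by linarith
  have ht0 : 0 ≤ t := by linarith
  have h : 0 ≤
      3258863 / 30000000 * t ^ 4 + 1313363 / 15000000 * s * t ^ 3 +
      1377621 / 10000000 * s ^ 2 * t ^ 2 + 2807 / 10000 * s ^ 3 * t + 401 / 5000 * s ^ 4 := by
    positivity
  have e :
      3258863 / 30000000 * t ^ 4 + 1313363 / 15000000 * s * t ^ 3 +
      1377621 / 10000000 * s ^ 2 * t ^ 2 + 2807 / 10000 * s ^ 3 * t + 401 / 5000 * s ^ 4 =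
      (1 + 1 / 200 + (1 / 200) ^ 2 / 2) * (1 + u + 221 / 500 * u ^ 2) -
      (1 + u + u ^ 2 / 2 + u ^ 3 / 6 + u ^ 4 / 24) := by
    rw [hs, ht]
    ring
  rw [e] at h
  linarith

theorem od_three_d13_b0 (u : ℝ) (h1 : -2 ≤ u) (h2 : u ≤ -1) :
    36788 / 100000 *
      (1 + (u + 1) + (u + 1) ^ 2 / 2 + (u + 1) ^ 3 / 6 + (u + 1) ^ 4 / 24) ≤
      (1 + 1 / 200 + (1 / 200) ^ 2 / 2) * (1 + u + 221 / 500 * u ^ 2) := by
  obtain ⟨s, hs⟩ : ∃ s, s = u - (-2) := ⟨_, rfl⟩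
  obtain ⟨t, ht⟩ : ∃ t, t = -1 - u := ⟨_, rfl⟩
  have hs0 : 0 ≤ s := by linarith
  have ht0 : 0 ≤ t := by linarith
  have h : 0 ≤
      3169473 / 5000000 * t ^ 4 + 6154133 / 3750000 * s * t ^ 3 +
      58887373 / 40000000 * s ^ 2 * t ^ 2 + 11132813 / 20000000 * s ^ 3 * t +
      3053421 / 40000000 * s ^ 4 := by
    positivity
  have e :
      3169473 / 5000000 * t ^ 4 + 6154133 / 3750000 * s * t ^ 3 +
      58887373 / 40000000 * s ^ 2 * t ^ 2 + 11132813 / 20000000 * s ^ 3 * t +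
      3053421 / 40000000 * s ^ 4 =
      (1 + 1 / 200 + (1 / 200) ^ 2 / 2) * (1 + u + 221 / 500 * u ^ 2) -
      (36788 / 100000 *
      (1 + (u + 1) + (u + 1) ^ 2 / 2 + (u + 1) ^ 3 / 6 + (u + 1) ^ 4 / 24)) := by
    rw [hs, ht]
    ring
  rw [e] at h
  linarith

theorem od_three_d13_c0 (u : ℝ) (h1 : -3 ≤ u) (h2 : u ≤ -2) :
    13534 / 100000 *
      (1 + (u + 2) + (u + 2) ^ 2 / 2 + (u + 2) ^ 3 / 6 + (u + 2) ^ 4 / 24) ≤
      (1 + 1 / 200 + (1 / 200) ^ 2 / 2) * (1 + u + 221 / 500 * u ^ 2) := by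
  obtain ⟨s, hs⟩ : ∃ s, s = u - (-3) := ⟨_, rfl⟩
  obtain ⟨t, ht⟩ : ∃ t, t = -2 - u := ⟨_, rfl⟩
  have hs0 : 0 ≤ s := by linarith
  have ht0 : 0 ≤ t := by linarith
  have h : 0 ≤
      77486489 / 40000000 * t ^ 4 + 72519059 / 12000000 * s * t ^ 3 +
      276686877 / 40000000 * s ^ 2 * t ^ 2 + 863307 / 250000 * s ^ 3 * t +
      795637 / 1250000 * s ^ 4 := by
    positivity
  have e :
      77486489 / 40000000 * t ^ 4 + 72519059 / 12000000 * s * t ^ 3 +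
      276686877 / 40000000 * s ^ 2 * t ^ 2 + 863307 / 250000 * s ^ 3 * t +
      795637 / 1250000 * s ^ 4 =
      (1 + 1 / 200 + (1 / 200) ^ 2 / 2) * (1 + u + 221 / 500 * u ^ 2) -
      (13534 / 100000 *
      (1 + (u + 2) + (u + 2) ^ 2 / 2 + (u + 2) ^ 3 / 6 + (u + 2) ^ 4 / 24)) := by
    rw [hs, ht]
    ring
  rw [e] at h
  linarith

theorem od_three_d13_d (u : ℝ) (h2 : u ≤ -3) :
    4979 / 100000 ≤
      (1 + 1 / 200 + (1 / 200) ^ 2 / 2) * (1 + u + 221 / 500 * u ^ 2) := by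
  obtain ⟨s, hs⟩ : ∃ s, s = -3 - u := ⟨_, rfl⟩
  have hs0 : 0 ≤ s := by linarith
  have h : 0 ≤
      77524989 / 40000000 + 33205613 / 20000000 * s + 17768621 / 40000000 * s ^ 2 := by
    positivity
  have e :
      77524989 / 40000000 + 33205613 / 20000000 * s + 17768621 / 40000000 * s ^ 2 =
      (1 + 1 / 200 + (1 / 200) ^ 2 / 2) * (1 + u + 221 / 500 * u ^ 2) -
      (4979 / 100000) := by
    rw [hs]
    ring
  rw [e] at h
  linarith

theorem od_three_d13_e0 (u : ℝ) (h1 : 0 ≤ u) (h2 : u ≤ 1 / 10) :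
    1 + u + u ^ 2 / 2 + u ^ 3 / 6 + u ^ 4 / 24 + u ^ 5 / 100 ≤
      (1 + 1 / 200 + (1 / 200) ^ 2 / 2) * (1 + u + 221 / 500 * u ^ 2) := by
  obtain ⟨s, hs⟩ : ∃ s, s = u - (0) := ⟨_, rfl⟩
  obtain ⟨t, ht⟩ : ∃ t, t = 1 / 10 - u := ⟨_, rfl⟩
  have hs0 : 0 ≤ s := by linarith
  have ht0 : 0 ≤ t := by linarith
  have h : 0 ≤
      2005 / 4 * t ^ 5 + 20451 / 8 * s * t ^ 4 + 206288621 / 40000 * s ^ 2 * t ^ 3 +
      615507589 / 120000 * s ^ 3 * t ^ 2 + 100225863 / 40000 * s ^ 4 * t +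
      57419663 / 120000 * s ^ 5 := by
    positivity
  have e :
      2005 / 4 * t ^ 5 + 20451 / 8 * s * t ^ 4 + 206288621 / 40000 * s ^ 2 * t ^ 3 +
      615507589 / 120000 * s ^ 3 * t ^ 2 + 100225863 / 40000 * s ^ 4 * t +
      57419663 / 120000 * s ^ 5 =
      (1 + 1 / 200 + (1 / 200) ^ 2 / 2) * (1 + u + 221 / 500 * u ^ 2) -
      (1 + u + u ^ 2 / 2 + u ^ 3 / 6 + u ^ 4 / 24 + u ^ 5 / 100) := by
    rw [hs, ht]
    ring
  rw [e] at h
  linarith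

theorem od_three_d13_f0 (u : ℝ) (h1 : 1 / 10 ≤ u) (h2 : u ≤ 1) :
    55259 / 50000 * (1 + (u - 1 / 10) / 3) ^ 3 ≤
      (1 + 1 / 200 + (1 / 200) ^ 2 / 2) * (1 + u + 221 / 500 * u ^ 2) := by
  obtain ⟨s, hs⟩ : ∃ s, s = u - (1 / 10) := ⟨_, rfl⟩
  obtain ⟨t, ht⟩ : ∃ t, t = 1 - u := ⟨_, rfl⟩
  have hs0 : 0 ≤ s := by linarith
  have ht0 : 0 ≤ t := by linarith
  have h : 0 ≤
      19103621 / 2916000000 * t ^ 3 + 5514347 / 972000000 * s * t ^ 2 +
      922663 / 12150000 * s ^ 2 * t + 5232013 / 145800000 * s ^ 3 := by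
    positivity
  have e :
      19103621 / 2916000000 * t ^ 3 + 5514347 / 972000000 * s * t ^ 2 +
      922663 / 12150000 * s ^ 2 * t + 5232013 / 145800000 * s ^ 3 =
      (1 + 1 / 200 + (1 / 200) ^ 2 / 2) * (1 + u + 221 / 500 * u ^ 2) -
      (55259 / 50000 * (1 + (u - 1 / 10) / 3) ^ 3) := by
    rw [hs, ht]
    ring
  rw [e] at h
  linarith

theorem od_three_d13_g0 (u : ℝ) (h1 : 1 ≤ u) (h2 : u ≤ 3) :
    55259 / 50000 * (1 + (u - 1 / 10) / 3) ^ 3 ≤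
      (1 + 1 / 200 + (1 / 200) ^ 2 / 2) * ((1 + (7 / 1000 * (u ^ 2 - 1)) +
      (7 / 1000 * (u ^ 2 - 1)) ^ 2 / 2 +
      (7 / 1000 * (u ^ 2 - 1)) ^ 3 / 6) *
      (1 + u + 221 / 500 * u ^ 2)) := by
  obtain ⟨s, hs⟩ : ∃ s, s = u - (1) := ⟨_, rfl⟩
  obtain ⟨t, ht⟩ : ∃ t, t = 3 - u := ⟨_, rfl⟩
  have hs0 : 0 ≤ s := by linarith
  have ht0 : 0 ≤ t := by linarith
  have h : 0 ≤
      5232013 / 51200000000 * t ^ 8 + 3293779547 / 2560000000000 * s * t ^ 7 +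
      24151413980287 / 3840000000000000 * s ^ 2 * t ^ 6 +
      136361271954494027 / 8640000000000000000 * s ^ 3 * t ^ 5 +
      24475922915404103 / 1080000000000000000 * s ^ 4 * t ^ 4 +
      166894904379279539 / 8640000000000000000 * s ^ 5 * t ^ 3 +
      10386768355972171 / 1080000000000000000 * s ^ 6 * t ^ 2 +
      5554911097448053 / 2160000000000000000 * s ^ 7 * t +
      154214517576059 / 540000000000000000 * s ^ 8 := by
    positivity
  have e :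
      5232013 / 51200000000 * t ^ 8 + 3293779547 / 2560000000000 * s * t ^ 7 +
      24151413980287 / 3840000000000000 * s ^ 2 * t ^ 6 +
      136361271954494027 / 8640000000000000000 * s ^ 3 * t ^ 5 +
      24475922915404103 / 1080000000000000000 * s ^ 4 * t ^ 4 +
      166894904379279539 / 8640000000000000000 * s ^ 5 * t ^ 3 +
      10386768355972171 / 1080000000000000000 * s ^ 6 * t ^ 2 +
      5554911097448053 / 2160000000000000000 * s ^ 7 * t +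
      154214517576059 / 540000000000000000 * s ^ 8 =
      (1 + 1 / 200 + (1 / 200) ^ 2 / 2) * ((1 + (7 / 1000 * (u ^ 2 - 1)) +
      (7 / 1000 * (u ^ 2 - 1)) ^ 2 / 2 +
      (7 / 1000 * (u ^ 2 - 1)) ^ 3 / 6) *
      (1 + u + 221 / 500 * u ^ 2)) -
      (55259 / 50000 * (1 + (u - 1 / 10) / 3) ^ 3) := by
    rw [hs, ht]
    ring
  rw [e] at h
  linarith

theorem od_three_d13_g1 (u : ℝ) (h1 : 3 ≤ u) (h2 : u ≤ 5) :
    55259 / 50000 * (1 + (u - 1 / 10) / 3) ^ 3 ≤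
      (1 + 1 / 200 + (1 / 200) ^ 2 / 2) * ((1 + (7 / 1000 * (u ^ 2 - 1)) +
      (7 / 1000 * (u ^ 2 - 1)) ^ 2 / 2 +
      (7 / 1000 * (u ^ 2 - 1)) ^ 3 / 6) *
      (1 + u + 221 / 500 * u ^ 2)) := by
  obtain ⟨s, hs⟩ : ∃ s, s = u - (3) := ⟨_, rfl⟩
  obtain ⟨t, ht⟩ : ∃ t, t = 5 - u := ⟨_, rfl⟩
  have hs0 : 0 ≤ s := by linarith
  have ht0 : 0 ≤ t := by linarith
  have h : 0 ≤
      154214517576059 / 540000000000000000 * t ^ 8 +
      4314818027419723 / 2160000000000000000 * s * t ^ 7 +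
      755805326359127 / 135000000000000000 * s ^ 2 * t ^ 6 +
      23064797012231327 / 2880000000000000000 * s ^ 3 * t ^ 5 +
      1009831041078471 / 160000000000000000 * s ^ 4 * t ^ 4 +
      9334301587230271 / 2880000000000000000 * s ^ 5 * t ^ 3 +
      4147690152717937 / 2160000000000000000 * s ^ 6 * t ^ 2 +
      524051825555563 / 432000000000000000 * s ^ 7 * t +
      930379321499 / 2700000000000000 * s ^ 8 := by
    positivity
  have e :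
      154214517576059 / 540000000000000000 * t ^ 8 +
      4314818027419723 / 2160000000000000000 * s * t ^ 7 +
      755805326359127 / 135000000000000000 * s ^ 2 * t ^ 6 +
      23064797012231327 / 2880000000000000000 * s ^ 3 * t ^ 5 +
      1009831041078471 / 160000000000000000 * s ^ 4 * t ^ 4 +
      9334301587230271 / 2880000000000000000 * s ^ 5 * t ^ 3 +
      4147690152717937 / 2160000000000000000 * s ^ 6 * t ^ 2 +
      524051825555563 / 432000000000000000 * s ^ 7 * t +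
      930379321499 / 2700000000000000 * s ^ 8 =
      (1 + 1 / 200 + (1 / 200) ^ 2 / 2) * ((1 + (7 / 1000 * (u ^ 2 - 1)) +
      (7 / 1000 * (u ^ 2 - 1)) ^ 2 / 2 +
      (7 / 1000 * (u ^ 2 - 1)) ^ 3 / 6) *
      (1 + u + 221 / 500 * u ^ 2)) -
      (55259 / 50000 * (1 + (u - 1 / 10) / 3) ^ 3) := by
    rw [hs, ht]
    ring
  rw [e] at h
  linarith

theorem od_three_d13_t (u : ℝ) (h1 : 5 ≤ u) :
    55259 / 50000 * (1 + (u - 1 / 10) / 3) ^ 3 ≤
      (1 + 1 / 200 + (1 / 200) ^ 2 / 2) * ((1 + (7 / 1000 * (u ^ 2 - 1)) +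
      (7 / 1000 * (u ^ 2 - 1)) ^ 2 / 2 +
      (7 / 1000 * (u ^ 2 - 1)) ^ 3 / 6) *
      (1 + u + 221 / 500 * u ^ 2)) := by
  obtain ⟨s, hs⟩ : ∃ s, s = u - (5) := ⟨_, rfl⟩
  have hs0 : 0 ≤ s := by linarith
  have h : 0 ≤
      930379321499 / 10546875000000 + 222277901987719 / 1125000000000000 * s +
      138466105413559 / 703125000000000 * s ^ 2 +
      3632773316564803 / 54000000000000000 * s ^ 3 +
      549605744415721 / 60000000000000000 * s ^ 4 +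
      13399443566873 / 24000000000000000 * s ^ 5 +
      7356345052091 / 240000000000000000 * s ^ 6 + 12878712581 / 12000000000000000 * s ^ 7 +
      6094637003 / 240000000000000000 * s ^ 8 := by
    positivity
  have e :
      930379321499 / 10546875000000 + 222277901987719 / 1125000000000000 * s +
      138466105413559 / 703125000000000 * s ^ 2 +
      3632773316564803 / 54000000000000000 * s ^ 3 +
      549605744415721 / 60000000000000000 * s ^ 4 +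
      13399443566873 / 24000000000000000 * s ^ 5 +
      7356345052091 / 240000000000000000 * s ^ 6 + 12878712581 / 12000000000000000 * s ^ 7 +
      6094637003 / 240000000000000000 * s ^ 8 =
      (1 + 1 / 200 + (1 / 200) ^ 2 / 2) * ((1 + (7 / 1000 * (u ^ 2 - 1)) +
      (7 / 1000 * (u ^ 2 - 1)) ^ 2 / 2 +
      (7 / 1000 * (u ^ 2 - 1)) ^ 3 / 6) *
      (1 + u + 221 / 500 * u ^ 2)) -
      (55259 / 50000 * (1 + (u - 1 / 10) / 3) ^ 3) := by
    rw [hs]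
    ring
  rw [e] at h
  linarith

/-- `K = 3`: `(c, μ, P, δ) = (221 / 500, 7 / 1000, 1 / 10, 1 / 200)` -/
theorem expOd_three_d13 : ExpOd 3 (221 / 500) (7 / 1000) (1 / 10) (1 / 200) := by
  have hde : (1 + 1 / 200 + (1 / 200) ^ 2 / 2) ≤ Real.exp (1 / 200) := Real.quadratic_le_exp_of_nonneg (by norm_num)
  have hq : ∀ u : ℝ, 0 ≤ 1 + u + 221 / 500 * u ^ 2 := fun u => by
    nlinarith [sq_nonneg (u + 2), sq_nonneg u]
  have hR : ∀ (u x y : ℝ), x ≤ y → y ≤ (1 + 1 / 200 + (1 / 200) ^ 2 / 2) * (1 + u + 221 / 500 * u ^ 2) →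
      x ≤ Real.exp (1 / 200) * (1 + u + 221 / 500 * u ^ 2) := fun u x y h1 h2 =>
    (h1.trans h2).trans (mul_le_mul_of_nonneg_right hde (hq u))
  refine ExpOd.of (by norm_num) (by norm_num) (by norm_num) (by norm_num) (by norm_num) ?_ ?_ ?_
  · intro u h1
    rcases le_total u (-3) with h3 | h3
    · exact hR u _ _ (exp_le_n3 h3) (od_three_d13_d u h3)
    rcases le_total u (-2) with h4 | h4
    · refine hR u _ _ (exp_le_n2 h4) ?_
      exact od_three_d13_c0 u (by linarith) (by linarith)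
    rcases le_total u (-1) with h5 | h5
    · refine hR u _ _ (exp_le_n1 h5) ?_
      exact od_three_d13_b0 u (by linarith) (by linarith)
    rcases le_total u 0 with h6 | h6
    · refine hR u _ _ (exp_le_n0 h6) ?_
      rcases le_total u (-1 / 2) with hh | hh
      · exact od_three_d13_a0 u (by linarith) (by linarith)
      exact od_three_d13_a1 u (by linarith) (by linarith)
    refine hR u _ _ (exp_le_p h6 (by linarith)) ?_
    exact od_three_d13_e0 u (by linarith) (by linarith)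
  · intro u h1 h2
    have h4 : 0 ≤ (1 + (u - 1 / 10) / 3) ^ 3 := by
      have : 0 ≤ (u - 1 / 10) / 3 := div_nonneg (by linarith) (by norm_num)
      positivity
    have hE : Real.exp (1 / 10) ≤ 55259 / 50000 := exp_up_1_10
    push_cast
    refine hR u _ _ (mul_le_mul_of_nonneg_right hE h4) ?_
    exact od_three_d13_f0 u (by linarith) (by linarith)
  · intro u h1
    have h4 : 0 ≤ (1 + (u - 1 / 10) / 3) ^ 3 := by
      have : 0 ≤ (u - 1 / 10) / 3 := div_nonneg (by linarith) (by norm_num)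
      positivity
    have hE : Real.exp (1 / 10) ≤ 55259 / 50000 := exp_up_1_10
    have hx : 0 ≤ 7 / 1000 * (u ^ 2 - 1) := mul_nonneg (by norm_num) (by nlinarith)
    have h5 := mul_le_mul_of_nonneg_right (taylor3_le_exp _ hx) (hq u)
    have h6 : 0 ≤ Real.exp (7 / 1000 * (u ^ 2 - 1)) * (1 + u + 221 / 500 * u ^ 2) :=
      mul_nonneg (Real.exp_nonneg _) (hq u)
    rw [Real.exp_add, mul_assoc]
    push_cast
    refine ((mul_le_mul_of_nonneg_right hE h4).trans ?_).trans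
      ((mul_le_mul_of_nonneg_left h5 (by norm_num : (0 : ℝ) ≤ (1 + 1 / 200 + (1 / 200) ^ 2 / 2))).trans
        (mul_le_mul_of_nonneg_right hde h6))
    rcases le_total u (3) with hh | hh
    · exact od_three_d13_g0 u (by linarith) (by linarith)
    rcases le_total u (5) with hh | hh
    · exact od_three_d13_g1 u (by linarith) (by linarith)
    exact od_three_d13_t u (by linarith)

theorem od_three_d14_a0 (u : ℝ) (h1 : -1 ≤ u) (h2 : u ≤ -1 / 2) :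
    1 + u + u ^ 2 / 2 + u ^ 3 / 6 + u ^ 4 / 24 ≤
      (1 + 1 / 100 + (1 / 100) ^ 2 / 2) * (1 + u + 439 / 1000 * u ^ 2) := by
  obtain ⟨s, hs⟩ : ∃ s, s = u - (-1) := ⟨_, rfl⟩
  obtain ⟨t, ht⟩ : ∃ t, t = -1 / 2 - u := ⟨_, rfl⟩
  have hs0 : 0 ≤ s := by linarith
  have ht0 : 0 ≤ t := by linarith
  have h : 0 ≤
      1368239 / 1250000 * t ^ 4 + 10115651 / 3750000 * s * t ^ 3 +
      11493107 / 5000000 * s ^ 2 * t ^ 2 + 2207717 / 2500000 * s ^ 3 * t +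
      2185717 / 15000000 * s ^ 4 := by
    positivity
  have e :
      1368239 / 1250000 * t ^ 4 + 10115651 / 3750000 * s * t ^ 3 +
      11493107 / 5000000 * s ^ 2 * t ^ 2 + 2207717 / 2500000 * s ^ 3 * t +
      2185717 / 15000000 * s ^ 4 =
      (1 + 1 / 100 + (1 / 100) ^ 2 / 2) * (1 + u + 439 / 1000 * u ^ 2) -
      (1 + u + u ^ 2 / 2 + u ^ 3 / 6 + u ^ 4 / 24) := by
    rw [hs, ht]
    ring
  rw [e] at h
  linarith

theorem od_three_d14_a1 (u : ℝ) (h1 : -1 / 2 ≤ u) (h2 : u ≤ 0) :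
    1 + u + u ^ 2 / 2 + u ^ 3 / 6 + u ^ 4 / 24 ≤
      (1 + 1 / 100 + (1 / 100) ^ 2 / 2) * (1 + u + 439 / 1000 * u ^ 2) := by
  obtain ⟨s, hs⟩ : ∃ s, s = u - (-1 / 2) := ⟨_, rfl⟩
  obtain ⟨t, ht⟩ : ∃ t, t = 0 - u := ⟨_, rfl⟩
  have hs0 : 0 ≤ s := by linarith
  have ht0 : 0 ≤ t := by linarith
  have h : 0 ≤
      2185717 / 15000000 * t ^ 4 + 2119717 / 7500000 * s * t ^ 3 +
      2486239 / 5000000 * s ^ 2 * t ^ 2 + 1407 / 2500 * s ^ 3 * t + 201 / 1250 * s ^ 4 := by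
    positivity
  have e :
      2185717 / 15000000 * t ^ 4 + 2119717 / 7500000 * s * t ^ 3 +
      2486239 / 5000000 * s ^ 2 * t ^ 2 + 1407 / 2500 * s ^ 3 * t + 201 / 1250 * s ^ 4 =
      (1 + 1 / 100 + (1 / 100) ^ 2 / 2) * (1 + u + 439 / 1000 * u ^ 2) -
      (1 + u + u ^ 2 / 2 + u ^ 3 / 6 + u ^ 4 / 24) := by
    rw [hs, ht]
    ring
  rw [e] at h
  linarith

theorem od_three_d14_b0 (u : ℝ) (h1 : -2 ≤ u) (h2 : u ≤ -1) :
    36788 / 100000 *
      (1 + (u + 1) + (u + 1) ^ 2 / 2 + (u + 1) ^ 3 / 6 + (u + 1) ^ 4 / 24) ≤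
      (1 + 1 / 100 + (1 / 100) ^ 2 / 2) * (1 + u + 439 / 1000 * u ^ 2) := by
  obtain ⟨s, hs⟩ : ∃ s, s = u - (-2) := ⟨_, rfl⟩
  obtain ⟨t, ht⟩ : ∃ t, t = -1 - u := ⟨_, rfl⟩
  have hs0 : 0 ≤ s := by linarith
  have ht0 : 0 ≤ t := by linarith
  have h : 0 ≤
      1564107 / 2500000 * t ^ 4 + 24245201 / 15000000 * s * t ^ 3 +
      28932507 / 20000000 * s ^ 2 * t ^ 2 + 5467817 / 10000000 * s ^ 3 * t +
      1510639 / 20000000 * s ^ 4 := by
    positivity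
  have e :
      1564107 / 2500000 * t ^ 4 + 24245201 / 15000000 * s * t ^ 3 +
      28932507 / 20000000 * s ^ 2 * t ^ 2 + 5467817 / 10000000 * s ^ 3 * t +
      1510639 / 20000000 * s ^ 4 =
      (1 + 1 / 100 + (1 / 100) ^ 2 / 2) * (1 + u + 439 / 1000 * u ^ 2) -
      (36788 / 100000 *
      (1 + (u + 1) + (u + 1) ^ 2 / 2 + (u + 1) ^ 3 / 6 + (u + 1) ^ 4 / 24)) := by
    rw [hs, ht]
    ring
  rw [e] at h
  linarith

theorem od_three_d14_c0 (u : ℝ) (h1 : -3 ≤ u) (h2 : u ≤ -2) :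
    13534 / 100000 *
      (1 + (u + 2) + (u + 2) ^ 2 / 2 + (u + 2) ^ 3 / 6 + (u + 2) ^ 4 / 24) ≤
      (1 + 1 / 100 + (1 / 100) ^ 2 / 2) * (1 + u + 439 / 1000 * u ^ 2) := by
  obtain ⟨s, hs⟩ : ∃ s, s = u - (-3) := ⟨_, rfl⟩
  obtain ⟨t, ht⟩ : ∃ t, t = -2 - u := ⟨_, rfl⟩
  have hs0 : 0 ≤ s := by linarith
  have ht0 : 0 ≤ t := by linarith
  have h : 0 ≤
      38397101 / 20000000 * t ^ 4 + 35903311 / 6000000 * s * t ^ 3 +
      136842043 / 20000000 * s ^ 2 * t ^ 2 + 3411969 / 1000000 * s ^ 3 * t +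
      3141289 / 5000000 * s ^ 4 := by
    positivity
  have e :
      38397101 / 20000000 * t ^ 4 + 35903311 / 6000000 * s * t ^ 3 +
      136842043 / 20000000 * s ^ 2 * t ^ 2 + 3411969 / 1000000 * s ^ 3 * t +
      3141289 / 5000000 * s ^ 4 =
      (1 + 1 / 100 + (1 / 100) ^ 2 / 2) * (1 + u + 439 / 1000 * u ^ 2) -
      (13534 / 100000 *
      (1 + (u + 2) + (u + 2) ^ 2 / 2 + (u + 2) ^ 3 / 6 + (u + 2) ^ 4 / 24)) := by
    rw [hs, ht]
    ring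
  rw [e] at h
  linarith

theorem od_three_d14_d (u : ℝ) (h2 : u ≤ -3) :
    4979 / 100000 ≤
      (1 + 1 / 100 + (1 / 100) ^ 2 / 2) * (1 + u + 439 / 1000 * u ^ 2) := by
  obtain ⟨s, hs⟩ : ∃ s, s = -3 - u := ⟨_, rfl⟩
  have hs0 : 0 ≤ s := by linarith
  have h : 0 ≤
      38416351 / 20000000 + 16504217 / 10000000 * s + 8868239 / 20000000 * s ^ 2 := by
    positivity
  have e :
      38416351 / 20000000 + 16504217 / 10000000 * s + 8868239 / 20000000 * s ^ 2 =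
      (1 + 1 / 100 + (1 / 100) ^ 2 / 2) * (1 + u + 439 / 1000 * u ^ 2) -
      (4979 / 100000) := by
    rw [hs]
    ring
  rw [e] at h
  linarith

theorem od_three_d14_e0 (u : ℝ) (h1 : 0 ≤ u) (h2 : u ≤ 1 / 10) :
    1 + u + u ^ 2 / 2 + u ^ 3 / 6 + u ^ 4 / 24 + u ^ 5 / 100 ≤
      (1 + 1 / 100 + (1 / 100) ^ 2 / 2) * (1 + u + 439 / 1000 * u ^ 2) := by
  obtain ⟨s, hs⟩ : ∃ s, s = u - (0) := ⟨_, rfl⟩
  obtain ⟨t, ht⟩ : ∃ t, t = 1 / 10 - u := ⟨_, rfl⟩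
  have hs0 : 0 ≤ s := by linarith
  have ht0 : 0 ≤ t := by linarith
  have h : 0 ≤
      1005 * t ^ 5 + 10251 / 2 * s * t ^ 4 + 207908239 / 20000 * s ^ 2 * t ^ 3 +
      627994151 / 60000 * s ^ 3 * t ^ 2 + 104469717 / 20000 * s ^ 4 * t +
      61909117 / 60000 * s ^ 5 := by
    positivity
  have e :
      1005 * t ^ 5 + 10251 / 2 * s * t ^ 4 + 207908239 / 20000 * s ^ 2 * t ^ 3 +
      627994151 / 60000 * s ^ 3 * t ^ 2 + 104469717 / 20000 * s ^ 4 * t +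
      61909117 / 60000 * s ^ 5 =
      (1 + 1 / 100 + (1 / 100) ^ 2 / 2) * (1 + u + 439 / 1000 * u ^ 2) -
      (1 + u + u ^ 2 / 2 + u ^ 3 / 6 + u ^ 4 / 24 + u ^ 5 / 100) := by
    rw [hs, ht]
    ring
  rw [e] at h
  linarith

theorem od_three_d14_f0 (u : ℝ) (h1 : 1 / 10 ≤ u) (h2 : u ≤ 1) :
    55259 / 50000 * (1 + (u - 1 / 10) / 3) ^ 3 ≤
      (1 + 1 / 100 + (1 / 100) ^ 2 / 2) * (1 + u + 439 / 1000 * u ^ 2) := by
  obtain ⟨s, hs⟩ : ∃ s, s = u - (1 / 10) := ⟨_, rfl⟩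
  obtain ⟨t, ht⟩ : ∃ t, t = 1 - u := ⟨_, rfl⟩
  have hs0 : 0 ≤ s := by linarith
  have ht0 : 0 ≤ t := by linarith
  have h : 0 ≤
      20618239 / 1458000000 * t ^ 3 + 16749673 / 486000000 * s * t ^ 2 +
      1334779 / 12150000 * s ^ 2 * t + 3543149 / 72900000 * s ^ 3 := by
    positivity
  have e :
      20618239 / 1458000000 * t ^ 3 + 16749673 / 486000000 * s * t ^ 2 +
      1334779 / 12150000 * s ^ 2 * t + 3543149 / 72900000 * s ^ 3 =
      (1 + 1 / 100 + (1 / 100) ^ 2 / 2) * (1 + u + 439 / 1000 * u ^ 2) -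
      (55259 / 50000 * (1 + (u - 1 / 10) / 3) ^ 3) := by
    rw [hs, ht]
    ring
  rw [e] at h
  linarith

theorem od_three_d14_g0 (u : ℝ) (h1 : 1 ≤ u) (h2 : u ≤ 5) :
    55259 / 50000 * (1 + (u - 1 / 10) / 3) ^ 3 ≤
      (1 + 1 / 100 + (1 / 100) ^ 2 / 2) * ((1 + (7 / 1000 * (u ^ 2 - 1)) +
      (7 / 1000 * (u ^ 2 - 1)) ^ 2 / 2 +
      (7 / 1000 * (u ^ 2 - 1)) ^ 3 / 6) *
      (1 + u + 439 / 1000 * u ^ 2)) := by
  obtain ⟨s, hs⟩ : ∃ s, s = u - (1) := ⟨_, rfl⟩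
  obtain ⟨t, ht⟩ : ∃ t, t = 5 - u := ⟨_, rfl⟩
  have hs0 : 0 ≤ s := by linarith
  have ht0 : 0 ≤ t := by linarith
  have h : 0 ≤
      3543149 / 6553600000000 * t ^ 8 + 1344718473 / 163840000000000 * s * t ^ 7 +
      5455904530883 / 122880000000000000 * s ^ 2 * t ^ 6 +
      14348504319264793 / 138240000000000000000 * s ^ 3 * t ^ 5 +
      3996896873691923 / 34560000000000000000 * s ^ 4 * t ^ 4 +
      1974150997196839 / 34560000000000000000 * s ^ 5 * t ^ 3 +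
      1018327060599571 / 138240000000000000000 * s ^ 6 * t ^ 2 +
      9338578038577 / 27648000000000000000 * s ^ 7 * t +
      2113661184949 / 1382400000000000000 * s ^ 8 := by
    positivity
  have e :
      3543149 / 6553600000000 * t ^ 8 + 1344718473 / 163840000000000 * s * t ^ 7 +
      5455904530883 / 122880000000000000 * s ^ 2 * t ^ 6 +
      14348504319264793 / 138240000000000000000 * s ^ 3 * t ^ 5 +
      3996896873691923 / 34560000000000000000 * s ^ 4 * t ^ 4 +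
      1974150997196839 / 34560000000000000000 * s ^ 5 * t ^ 3 +
      1018327060599571 / 138240000000000000000 * s ^ 6 * t ^ 2 +
      9338578038577 / 27648000000000000000 * s ^ 7 * t +
      2113661184949 / 1382400000000000000 * s ^ 8 =
      (1 + 1 / 100 + (1 / 100) ^ 2 / 2) * ((1 + (7 / 1000 * (u ^ 2 - 1)) +
      (7 / 1000 * (u ^ 2 - 1)) ^ 2 / 2 +
      (7 / 1000 * (u ^ 2 - 1)) ^ 3 / 6) *
      (1 + u + 439 / 1000 * u ^ 2)) -
      (55259 / 50000 * (1 + (u - 1 / 10) / 3) ^ 3) := by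
    rw [hs, ht]
    ring
  rw [e] at h
  linarith

theorem od_three_d14_t (u : ℝ) (h1 : 5 ≤ u) :
    55259 / 50000 * (1 + (u - 1 / 10) / 3) ^ 3 ≤
      (1 + 1 / 100 + (1 / 100) ^ 2 / 2) * ((1 + (7 / 1000 * (u ^ 2 - 1)) +
      (7 / 1000 * (u ^ 2 - 1)) ^ 2 / 2 +
      (7 / 1000 * (u ^ 2 - 1)) ^ 3 / 6) *
      (1 + u + 439 / 1000 * u ^ 2)) := by
  obtain ⟨s, hs⟩ : ∃ s, s = u - (5) := ⟨_, rfl⟩
  have hs0 : 0 ≤ s := by linarith
  have h : 0 ≤
      2113661184949 / 21093750000000 + 109615737184421 / 562500000000000 * s +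
      137702669731387 / 703125000000000 * s ^ 2 +
      1813862063294777 / 27000000000000000 * s ^ 3 +
      274491699873139 / 30000000000000000 * s ^ 4 +
      6692213682707 / 12000000000000000 * s ^ 5 +
      3673211846969 / 120000000000000000 * s ^ 6 + 200939347 / 187500000000000 * s ^ 7 +
      3041805977 / 120000000000000000 * s ^ 8 := by
    positivity
  have e :
      2113661184949 / 21093750000000 + 109615737184421 / 562500000000000 * s +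
      137702669731387 / 703125000000000 * s ^ 2 +
      1813862063294777 / 27000000000000000 * s ^ 3 +
      274491699873139 / 30000000000000000 * s ^ 4 +
      6692213682707 / 12000000000000000 * s ^ 5 +
      3673211846969 / 120000000000000000 * s ^ 6 + 200939347 / 187500000000000 * s ^ 7 +
      3041805977 / 120000000000000000 * s ^ 8 =
      (1 + 1 / 100 + (1 / 100) ^ 2 / 2) * ((1 + (7 / 1000 * (u ^ 2 - 1)) +
      (7 / 1000 * (u ^ 2 - 1)) ^ 2 / 2 +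
      (7 / 1000 * (u ^ 2 - 1)) ^ 3 / 6) *
      (1 + u + 439 / 1000 * u ^ 2)) -
      (55259 / 50000 * (1 + (u - 1 / 10) / 3) ^ 3) := by
    rw [hs]
    ring
  rw [e] at h
  linarith

/-- `K = 3`: `(c, μ, P, δ) = (439 / 1000, 7 / 1000, 1 / 10, 1 / 100)` -/
theorem expOd_three_d14 : ExpOd 3 (439 / 1000) (7 / 1000) (1 / 10) (1 / 100) := by
  have hde : (1 + 1 / 100 + (1 / 100) ^ 2 / 2) ≤ Real.exp (1 / 100) := Real.quadratic_le_exp_of_nonneg (by norm_num)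
  have hq : ∀ u : ℝ, 0 ≤ 1 + u + 439 / 1000 * u ^ 2 := fun u => by
    nlinarith [sq_nonneg (u + 2), sq_nonneg u]
  have hR : ∀ (u x y : ℝ), x ≤ y → y ≤ (1 + 1 / 100 + (1 / 100) ^ 2 / 2) * (1 + u + 439 / 1000 * u ^ 2) →
      x ≤ Real.exp (1 / 100) * (1 + u + 439 / 1000 * u ^ 2) := fun u x y h1 h2 =>
    (h1.trans h2).trans (mul_le_mul_of_nonneg_right hde (hq u))
  refine ExpOd.of (by norm_num) (by norm_num) (by norm_num) (by norm_num) (by norm_num) ?_ ?_ ?_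
  · intro u h1
    rcases le_total u (-3) with h3 | h3
    · exact hR u _ _ (exp_le_n3 h3) (od_three_d14_d u h3)
    rcases le_total u (-2) with h4 | h4
    · refine hR u _ _ (exp_le_n2 h4) ?_
      exact od_three_d14_c0 u (by linarith) (by linarith)
    rcases le_total u (-1) with h5 | h5
    · refine hR u _ _ (exp_le_n1 h5) ?_
      exact od_three_d14_b0 u (by linarith) (by linarith)
    rcases le_total u 0 with h6 | h6
    · refine hR u _ _ (exp_le_n0 h6) ?_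
      rcases le_total u (-1 / 2) with hh | hh
      · exact od_three_d14_a0 u (by linarith) (by linarith)
      exact od_three_d14_a1 u (by linarith) (by linarith)
    refine hR u _ _ (exp_le_p h6 (by linarith)) ?_
    exact od_three_d14_e0 u (by linarith) (by linarith)
  · intro u h1 h2
    have h4 : 0 ≤ (1 + (u - 1 / 10) / 3) ^ 3 := by
      have : 0 ≤ (u - 1 / 10) / 3 := div_nonneg (by linarith) (by norm_num)
      positivity
    have hE : Real.exp (1 / 10) ≤ 55259 / 50000 := exp_up_1_10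
    push_cast
    refine hR u _ _ (mul_le_mul_of_nonneg_right hE h4) ?_
    exact od_three_d14_f0 u (by linarith) (by linarith)
  · intro u h1
    have h4 : 0 ≤ (1 + (u - 1 / 10) / 3) ^ 3 := by
      have : 0 ≤ (u - 1 / 10) / 3 := div_nonneg (by linarith) (by norm_num)
      positivity
    have hE : Real.exp (1 / 10) ≤ 55259 / 50000 := exp_up_1_10
    have hx : 0 ≤ 7 / 1000 * (u ^ 2 - 1) := mul_nonneg (by norm_num) (by nlinarith)
    have h5 := mul_le_mul_of_nonneg_right (taylor3_le_exp _ hx) (hq u)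
    have h6 : 0 ≤ Real.exp (7 / 1000 * (u ^ 2 - 1)) * (1 + u + 439 / 1000 * u ^ 2) :=
      mul_nonneg (Real.exp_nonneg _) (hq u)
    rw [Real.exp_add, mul_assoc]
    push_cast
    refine ((mul_le_mul_of_nonneg_right hE h4).trans ?_).trans
      ((mul_le_mul_of_nonneg_left h5 (by norm_num : (0 : ℝ) ≤ (1 + 1 / 100 + (1 / 100) ^ 2 / 2))).trans
        (mul_le_mul_of_nonneg_right hde h6))
    rcases le_total u (5) with hh | hh
    · exact od_three_d14_g0 u (by linarith) (by linarith)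
    exact od_three_d14_t u (by linarith)

theorem od_three_d15_a0 (u : ℝ) (h1 : -1 ≤ u) (h2 : u ≤ -1 / 2) :
    1 + u + u ^ 2 / 2 + u ^ 3 / 6 + u ^ 4 / 24 ≤
      (1 + 1 / 50 + (1 / 50) ^ 2 / 2) * (1 + u + 201 / 500 * u ^ 2) := by
  obtain ⟨s, hs⟩ : ∃ s, s = u - (-1) := ⟨_, rfl⟩
  obtain ⟨t, ht⟩ : ∃ t, t = -1 / 2 - u := ⟨_, rfl⟩
  have hs0 : 0 ≤ s := by linarith
  have ht0 : 0 ≤ t := by linarith
  have h : 0 ≤
      87801 / 156250 * t ^ 4 + 553459 / 468750 * s * t ^ 3 +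
      506913 / 625000 * s ^ 2 * t ^ 2 + 102403 / 312500 * s ^ 3 * t + 87889 / 937500 * s ^ 4 := by
    positivity
  have e :
      87801 / 156250 * t ^ 4 + 553459 / 468750 * s * t ^ 3 +
      506913 / 625000 * s ^ 2 * t ^ 2 + 102403 / 312500 * s ^ 3 * t + 87889 / 937500 * s ^ 4 =
      (1 + 1 / 50 + (1 / 50) ^ 2 / 2) * (1 + u + 201 / 500 * u ^ 2) -
      (1 + u + u ^ 2 / 2 + u ^ 3 / 6 + u ^ 4 / 24) := by
    rw [hs, ht]
    ring
  rw [e] at h
  linarith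

theorem od_three_d15_a1 (u : ℝ) (h1 : -1 / 2 ≤ u) (h2 : u ≤ 0) :
    1 + u + u ^ 2 / 2 + u ^ 3 / 6 + u ^ 4 / 24 ≤
      (1 + 1 / 50 + (1 / 50) ^ 2 / 2) * (1 + u + 201 / 500 * u ^ 2) := by
  obtain ⟨s, hs⟩ : ∃ s, s = u - (-1 / 2) := ⟨_, rfl⟩
  obtain ⟨t, ht⟩ : ∃ t, t = 0 - u := ⟨_, rfl⟩
  have hs0 : 0 ≤ s := by linarith
  have ht0 : 0 ≤ t := by linarith
  have h : 0 ≤
      87889 / 937500 * t ^ 4 + 395903 / 937500 * s * t ^ 3 +
      684301 / 625000 * s ^ 2 * t ^ 2 + 707 / 625 * s ^ 3 * t + 202 / 625 * s ^ 4 := by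
    positivity
  have e :
      87889 / 937500 * t ^ 4 + 395903 / 937500 * s * t ^ 3 +
      684301 / 625000 * s ^ 2 * t ^ 2 + 707 / 625 * s ^ 3 * t + 202 / 625 * s ^ 4 =
      (1 + 1 / 50 + (1 / 50) ^ 2 / 2) * (1 + u + 201 / 500 * u ^ 2) -
      (1 + u + u ^ 2 / 2 + u ^ 3 / 6 + u ^ 4 / 24) := by
    rw [hs, ht]
    ring
  rw [e] at h
  linarith

theorem od_three_d15_b0 (u : ℝ) (h1 : -2 ≤ u) (h2 : u ≤ -1) :
    36788 / 100000 *
      (1 + (u + 1) + (u + 1) ^ 2 / 2 + (u + 1) ^ 3 / 6 + (u + 1) ^ 4 / 24) ≤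
      (1 + 1 / 50 + (1 / 50) ^ 2 / 2) * (1 + u + 201 / 500 * u ^ 2) := by
  obtain ⟨s, hs⟩ : ∃ s, s = u - (-2) := ⟨_, rfl⟩
  obtain ⟨t, ht⟩ : ∃ t, t = -1 - u := ⟨_, rfl⟩
  have hs0 : 0 ≤ s := by linarith
  have ht0 : 0 ≤ t := by linarith
  have h : 0 ≤
      2411633 / 5000000 * t ^ 4 + 4448993 / 3750000 * s * t ^ 3 +
      2458463 / 2500000 * s ^ 2 * t ^ 2 + 421103 / 1250000 * s ^ 3 * t +
      105601 / 2500000 * s ^ 4 := by
    positivity
  have e :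
      2411633 / 5000000 * t ^ 4 + 4448993 / 3750000 * s * t ^ 3 +
      2458463 / 2500000 * s ^ 2 * t ^ 2 + 421103 / 1250000 * s ^ 3 * t +
      105601 / 2500000 * s ^ 4 =
      (1 + 1 / 50 + (1 / 50) ^ 2 / 2) * (1 + u + 201 / 500 * u ^ 2) -
      (36788 / 100000 *
      (1 + (u + 1) + (u + 1) ^ 2 / 2 + (u + 1) ^ 3 / 6 + (u + 1) ^ 4 / 24)) := by
    rw [hs, ht]
    ring
  rw [e] at h
  linarith

theorem od_three_d15_c0 (u : ℝ) (h1 : -3 ≤ u) (h2 : u ≤ -2) :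
    13534 / 100000 *
      (1 + (u + 2) + (u + 2) ^ 2 / 2 + (u + 2) ^ 3 / 6 + (u + 2) ^ 4 / 24) ≤
      (1 + 1 / 50 + (1 / 50) ^ 2 / 2) * (1 + u + 201 / 500 * u ^ 2) := by
  obtain ⟨s, hs⟩ : ∃ s, s = u - (-3) := ⟨_, rfl⟩
  obtain ⟨t, ht⟩ : ∃ t, t = -2 - u := ⟨_, rfl⟩
  have hs0 : 0 ≤ s := by linarith
  have ht0 : 0 ≤ t := by linarith
  have h : 0 ≤
      15999311 / 10000000 * t ^ 4 + 7371133 / 1500000 * s * t ^ 3 +
      3449353 / 625000 * s ^ 2 * t ^ 2 + 673847 / 250000 * s ^ 3 * t +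
      606177 / 1250000 * s ^ 4 := by
    positivity
  have e :
      15999311 / 10000000 * t ^ 4 + 7371133 / 1500000 * s * t ^ 3 +
      3449353 / 625000 * s ^ 2 * t ^ 2 + 673847 / 250000 * s ^ 3 * t +
      606177 / 1250000 * s ^ 4 =
      (1 + 1 / 50 + (1 / 50) ^ 2 / 2) * (1 + u + 201 / 500 * u ^ 2) -
      (13534 / 100000 *
      (1 + (u + 2) + (u + 2) ^ 2 / 2 + (u + 2) ^ 3 / 6 + (u + 2) ^ 4 / 24)) := by
    rw [hs, ht]
    ring
  rw [e] at h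
  linarith

theorem od_three_d15_d (u : ℝ) (h2 : u ≤ -3) :
    4979 / 100000 ≤
      (1 + 1 / 50 + (1 / 50) ^ 2 / 2) * (1 + u + 201 / 500 * u ^ 2) := by
  obtain ⟨s, hs⟩ : ∃ s, s = -3 - u := ⟨_, rfl⟩
  have hs0 : 0 ≤ s := by linarith
  have h : 0 ≤
      2001117 / 1250000 + 1800653 / 1250000 * s + 1025301 / 2500000 * s ^ 2 := by
    positivity
  have e :
      2001117 / 1250000 + 1800653 / 1250000 * s + 1025301 / 2500000 * s ^ 2 =
      (1 + 1 / 50 + (1 / 50) ^ 2 / 2) * (1 + u + 201 / 500 * u ^ 2) -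
      (4979 / 100000) := by
    rw [hs]
    ring
  rw [e] at h
  linarith

theorem od_three_d15_e0 (u : ℝ) (h1 : 0 ≤ u) (h2 : u ≤ 1 / 10) :
    1 + u + u ^ 2 / 2 + u ^ 3 / 6 + u ^ 4 / 24 + u ^ 5 / 100 ≤
      (1 + 1 / 50 + (1 / 50) ^ 2 / 2) * (1 + u + 201 / 500 * u ^ 2) := by
  obtain ⟨s, hs⟩ : ∃ s, s = u - (0) := ⟨_, rfl⟩
  obtain ⟨t, ht⟩ : ∃ t, t = 1 / 10 - u := ⟨_, rfl⟩
  have hs0 : 0 ≤ s := by linarith
  have ht0 : 0 ≤ t := by linarith
  have h : 0 ≤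
      2020 * t ^ 5 + 10302 * s * t ^ 4 + 52295301 / 2500 * s ^ 2 * t ^ 3 +
      158442709 / 7500 * s ^ 3 * t ^ 2 + 6627882 / 625 * s ^ 4 * t + 15862703 / 7500 * s ^ 5 := by
    positivity
  have e :
      2020 * t ^ 5 + 10302 * s * t ^ 4 + 52295301 / 2500 * s ^ 2 * t ^ 3 +
      158442709 / 7500 * s ^ 3 * t ^ 2 + 6627882 / 625 * s ^ 4 * t + 15862703 / 7500 * s ^ 5 =
      (1 + 1 / 50 + (1 / 50) ^ 2 / 2) * (1 + u + 201 / 500 * u ^ 2) -
      (1 + u + u ^ 2 / 2 + u ^ 3 / 6 + u ^ 4 / 24 + u ^ 5 / 100) := by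
    rw [hs, ht]
    ring
  rw [e] at h
  linarith

theorem od_three_d15_f0 (u : ℝ) (h1 : 1 / 10 ≤ u) (h2 : u ≤ 1) :
    55259 / 50000 * (1 + (u - 1 / 10) / 3) ^ 3 ≤
      (1 + 1 / 50 + (1 / 50) ^ 2 / 2) * (1 + u + 201 / 500 * u ^ 2) := by
  obtain ⟨s, hs⟩ : ∃ s, s = u - (1 / 10) := ⟨_, rfl⟩
  obtain ⟨t, ht⟩ : ∃ t, t = 1 - u := ⟨_, rfl⟩
  have hs0 : 0 ≤ s := by linarith
  have ht0 : 0 ≤ t := by linarith
  have h : 0 ≤
      1761767 / 60750000 * t ^ 3 + 187541 / 2250000 * s * t ^ 2 +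
      255283 / 2025000 * s ^ 2 * t + 373999 / 12150000 * s ^ 3 := by
    positivity
  have e :
      1761767 / 60750000 * t ^ 3 + 187541 / 2250000 * s * t ^ 2 +
      255283 / 2025000 * s ^ 2 * t + 373999 / 12150000 * s ^ 3 =
      (1 + 1 / 50 + (1 / 50) ^ 2 / 2) * (1 + u + 201 / 500 * u ^ 2) -
      (55259 / 50000 * (1 + (u - 1 / 10) / 3) ^ 3) := by
    rw [hs, ht]
    ring
  rw [e] at h
  linarith

theorem od_three_d15_g0 (u : ℝ) (h1 : 1 ≤ u) (h2 : u ≤ 3) :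
    55259 / 50000 * (1 + (u - 1 / 10) / 3) ^ 3 ≤
      (1 + 1 / 50 + (1 / 50) ^ 2 / 2) * ((1 + (1 / 100 * (u ^ 2 - 1)) +
      (1 / 100 * (u ^ 2 - 1)) ^ 2 / 2 +
      (1 / 100 * (u ^ 2 - 1)) ^ 3 / 6) *
      (1 + u + 201 / 500 * u ^ 2)) := by
  obtain ⟨s, hs⟩ : ∃ s, s = u - (1) := ⟨_, rfl⟩
  obtain ⟨t, ht⟩ : ∃ t, t = 3 - u := ⟨_, rfl⟩
  have hs0 : 0 ≤ s := by linarith
  have ht0 : 0 ≤ t := by linarith
  have h : 0 ≤
      1121997 / 12800000000 * t ^ 8 + 217689 / 250000000 * s * t ^ 7 +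
      8476211203 / 2400000000000 * s ^ 2 * t ^ 6 +
      3992019647309 / 540000000000000 * s ^ 3 * t ^ 5 +
      4654766842033 / 540000000000000 * s ^ 4 * t ^ 4 +
      3047449714613 / 540000000000000 * s ^ 5 * t ^ 3 +
      1078928479781 / 540000000000000 * s ^ 6 * t ^ 2 +
      51192982801 / 135000000000000 * s ^ 7 * t + 52618706071 / 1080000000000000 * s ^ 8 := by
    positivity
  have e :
      1121997 / 12800000000 * t ^ 8 + 217689 / 250000000 * s * t ^ 7 +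
      8476211203 / 2400000000000 * s ^ 2 * t ^ 6 +
      3992019647309 / 540000000000000 * s ^ 3 * t ^ 5 +
      4654766842033 / 540000000000000 * s ^ 4 * t ^ 4 +
      3047449714613 / 540000000000000 * s ^ 5 * t ^ 3 +
      1078928479781 / 540000000000000 * s ^ 6 * t ^ 2 +
      51192982801 / 135000000000000 * s ^ 7 * t + 52618706071 / 1080000000000000 * s ^ 8 =
      (1 + 1 / 50 + (1 / 50) ^ 2 / 2) * ((1 + (1 / 100 * (u ^ 2 - 1)) +
      (1 / 100 * (u ^ 2 - 1)) ^ 2 / 2 +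
      (1 / 100 * (u ^ 2 - 1)) ^ 3 / 6) *
      (1 + u + 201 / 500 * u ^ 2)) -
      (55259 / 50000 * (1 + (u - 1 / 10) / 3) ^ 3) := by
    rw [hs, ht]
    ring
  rw [e] at h
  linarith

theorem od_three_d15_t (u : ℝ) (h1 : 3 ≤ u) :
    55259 / 50000 * (1 + (u - 1 / 10) / 3) ^ 3 ≤
      (1 + 1 / 50 + (1 / 50) ^ 2 / 2) * ((1 + (1 / 100 * (u ^ 2 - 1)) +
      (1 / 100 * (u ^ 2 - 1)) ^ 2 / 2 +
      (1 / 100 * (u ^ 2 - 1)) ^ 3 / 6) *
      (1 + u + 201 / 500 * u ^ 2)) := by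
  obtain ⟨s, hs⟩ : ∃ s, s = u - (3) := ⟨_, rfl⟩
  have hs0 : 0 ≤ s := by linarith
  have h : 0 ≤
      52618706071 / 4218750000000 + 47524109 / 35156250000 * s +
      127395615449 / 2812500000000 * s ^ 2 + 599234378777 / 16875000000000 * s ^ 3 +
      2556320241 / 312500000000 * s ^ 4 + 1386161043 / 2500000000000 * s ^ 5 +
      619001249 / 15000000000000 * s ^ 6 + 6789431 / 3750000000000 * s ^ 7 +
      341767 / 5000000000000 * s ^ 8 := by
    positivity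
  have e :
      52618706071 / 4218750000000 + 47524109 / 35156250000 * s +
      127395615449 / 2812500000000 * s ^ 2 + 599234378777 / 16875000000000 * s ^ 3 +
      2556320241 / 312500000000 * s ^ 4 + 1386161043 / 2500000000000 * s ^ 5 +
      619001249 / 15000000000000 * s ^ 6 + 6789431 / 3750000000000 * s ^ 7 +
      341767 / 5000000000000 * s ^ 8 =
      (1 + 1 / 50 + (1 / 50) ^ 2 / 2) * ((1 + (1 / 100 * (u ^ 2 - 1)) +
      (1 / 100 * (u ^ 2 - 1)) ^ 2 / 2 +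
      (1 / 100 * (u ^ 2 - 1)) ^ 3 / 6) *
      (1 + u + 201 / 500 * u ^ 2)) -
      (55259 / 50000 * (1 + (u - 1 / 10) / 3) ^ 3) := by
    rw [hs]
    ring
  rw [e] at h
  linarith

/-- `K = 3`: `(c, μ, P, δ) = (201 / 500, 1 / 100, 1 / 10, 1 / 50)` -/
theorem expOd_three_d15 : ExpOd 3 (201 / 500) (1 / 100) (1 / 10) (1 / 50) := by
  have hde : (1 + 1 / 50 + (1 / 50) ^ 2 / 2) ≤ Real.exp (1 / 50) := Real.quadratic_le_exp_of_nonneg (by norm_num)
  have hq : ∀ u : ℝ, 0 ≤ 1 + u + 201 / 500 * u ^ 2 := fun u => by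
    nlinarith [sq_nonneg (u + 2), sq_nonneg u]
  have hR : ∀ (u x y : ℝ), x ≤ y → y ≤ (1 + 1 / 50 + (1 / 50) ^ 2 / 2) * (1 + u + 201 / 500 * u ^ 2) →
      x ≤ Real.exp (1 / 50) * (1 + u + 201 / 500 * u ^ 2) := fun u x y h1 h2 =>
    (h1.trans h2).trans (mul_le_mul_of_nonneg_right hde (hq u))
  refine ExpOd.of (by norm_num) (by norm_num) (by norm_num) (by norm_num) (by norm_num) ?_ ?_ ?_
  · intro u h1
    rcases le_total u (-3) with h3 | h3
    · exact hR u _ _ (exp_le_n3 h3) (od_three_d15_d u h3)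
    rcases le_total u (-2) with h4 | h4
    · refine hR u _ _ (exp_le_n2 h4) ?_
      exact od_three_d15_c0 u (by linarith) (by linarith)
    rcases le_total u (-1) with h5 | h5
    · refine hR u _ _ (exp_le_n1 h5) ?_
      exact od_three_d15_b0 u (by linarith) (by linarith)
    rcases le_total u 0 with h6 | h6
    · refine hR u _ _ (exp_le_n0 h6) ?_
      rcases le_total u (-1 / 2) with hh | hh
      · exact od_three_d15_a0 u (by linarith) (by linarith)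
      exact od_three_d15_a1 u (by linarith) (by linarith)
    refine hR u _ _ (exp_le_p h6 (by linarith)) ?_
    exact od_three_d15_e0 u (by linarith) (by linarith)
  · intro u h1 h2
    have h4 : 0 ≤ (1 + (u - 1 / 10) / 3) ^ 3 := by
      have : 0 ≤ (u - 1 / 10) / 3 := div_nonneg (by linarith) (by norm_num)
      positivity
    have hE : Real.exp (1 / 10) ≤ 55259 / 50000 := exp_up_1_10
    push_cast
    refine hR u _ _ (mul_le_mul_of_nonneg_right hE h4) ?_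
    exact od_three_d15_f0 u (by linarith) (by linarith)
  · intro u h1
    have h4 : 0 ≤ (1 + (u - 1 / 10) / 3) ^ 3 := by
      have : 0 ≤ (u - 1 / 10) / 3 := div_nonneg (by linarith) (by norm_num)
      positivity
    have hE : Real.exp (1 / 10) ≤ 55259 / 50000 := exp_up_1_10
    have hx : 0 ≤ 1 / 100 * (u ^ 2 - 1) := mul_nonneg (by norm_num) (by nlinarith)
    have h5 := mul_le_mul_of_nonneg_right (taylor3_le_exp _ hx) (hq u)
    have h6 : 0 ≤ Real.exp (1 / 100 * (u ^ 2 - 1)) * (1 + u + 201 / 500 * u ^ 2) :=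
      mul_nonneg (Real.exp_nonneg _) (hq u)
    rw [Real.exp_add, mul_assoc]
    push_cast
    refine ((mul_le_mul_of_nonneg_right hE h4).trans ?_).trans
      ((mul_le_mul_of_nonneg_left h5 (by norm_num : (0 : ℝ) ≤ (1 + 1 / 50 + (1 / 50) ^ 2 / 2))).trans
        (mul_le_mul_of_nonneg_right hde h6))
    rcases le_total u (3) with hh | hh
    · exact od_three_d15_g0 u (by linarith) (by linarith)
    exact od_three_d15_t u (by linarith)

theorem od_three_d16_a0 (u : ℝ) (h1 : -1 ≤ u) (h2 : u ≤ 0) :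
    1 + u + u ^ 2 / 2 + u ^ 3 / 6 + u ^ 4 / 24 ≤
      (1 + 1 / 20 + (1 / 20) ^ 2 / 2) * (1 + u + 379 / 1000 * u ^ 2) := by
  obtain ⟨s, hs⟩ : ∃ s, s = u - (-1) := ⟨_, rfl⟩
  obtain ⟨t, ht⟩ : ∃ t, t = 0 - u := ⟨_, rfl⟩
  have hs0 : 0 ≤ s := by linarith
  have ht0 : 0 ≤ t := by linarith
  have h : 0 ≤
      18739 / 800000 * t ^ 4 + 17717 / 1200000 * s * t ^ 3 + 41739 / 800000 * s ^ 2 * t ^ 2 +
      123 / 800 * s ^ 3 * t + 41 / 800 * s ^ 4 := by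
    positivity
  have e :
      18739 / 800000 * t ^ 4 + 17717 / 1200000 * s * t ^ 3 + 41739 / 800000 * s ^ 2 * t ^ 2 +
      123 / 800 * s ^ 3 * t + 41 / 800 * s ^ 4 =
      (1 + 1 / 20 + (1 / 20) ^ 2 / 2) * (1 + u + 379 / 1000 * u ^ 2) -
      (1 + u + u ^ 2 / 2 + u ^ 3 / 6 + u ^ 4 / 24) := by
    rw [hs, ht]
    ring
  rw [e] at h
  linarith

theorem od_three_d16_b0 (u : ℝ) (h1 : -2 ≤ u) (h2 : u ≤ -1) :
    36788 / 100000 *
      (1 + (u + 1) + (u + 1) ^ 2 / 2 + (u + 1) ^ 3 / 6 + (u + 1) ^ 4 / 24) ≤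
      (1 + 1 / 20 + (1 / 20) ^ 2 / 2) * (1 + u + 379 / 1000 * u ^ 2) := by
  obtain ⟨s, hs⟩ : ∃ s, s = u - (-2) := ⟨_, rfl⟩
  obtain ⟨t, ht⟩ : ∃ t, t = -1 - u := ⟨_, rfl⟩
  have hs0 : 0 ≤ s := by linarith
  have ht0 : 0 ≤ t := by linarith
  have h : 0 ≤
      40449 / 100000 * t ^ 4 + 571733 / 600000 * s * t ^ 3 +
      590543 / 800000 * s ^ 2 * t ^ 2 + 94261 / 400000 * s ^ 3 * t + 4887 / 160000 * s ^ 4 := by
    positivity
  have e :
      40449 / 100000 * t ^ 4 + 571733 / 600000 * s * t ^ 3 +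
      590543 / 800000 * s ^ 2 * t ^ 2 + 94261 / 400000 * s ^ 3 * t + 4887 / 160000 * s ^ 4 =
      (1 + 1 / 20 + (1 / 20) ^ 2 / 2) * (1 + u + 379 / 1000 * u ^ 2) -
      (36788 / 100000 *
      (1 + (u + 1) + (u + 1) ^ 2 / 2 + (u + 1) ^ 3 / 6 + (u + 1) ^ 4 / 24)) := by
    rw [hs, ht]
    ring
  rw [e] at h
  linarith

theorem od_three_d16_c0 (u : ℝ) (h1 : -3 ≤ u) (h2 : u ≤ -2) :
    13534 / 100000 *
      (1 + (u + 2) + (u + 2) ^ 2 / 2 + (u + 2) ^ 3 / 6 + (u + 2) ^ 4 / 24) ≤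
      (1 + 1 / 20 + (1 / 20) ^ 2 / 2) * (1 + u + 379 / 1000 * u ^ 2) := by
  obtain ⟨s, hs⟩ : ∃ s, s = u - (-3) := ⟨_, rfl⟩
  obtain ⟨t, ht⟩ : ∃ t, t = -2 - u := ⟨_, rfl⟩
  have hs0 : 0 ≤ s := by linarith
  have ht0 : 0 ≤ t := by linarith
  have h : 0 ≤
      1146049 / 800000 * t ^ 4 + 5215007 / 1200000 * s * t ^ 3 +
      3845391 / 800000 * s ^ 2 * t ^ 2 + 461241 / 200000 * s ^ 3 * t + 81421 / 200000 * s ^ 4 := by
    positivity
  have e :
      1146049 / 800000 * t ^ 4 + 5215007 / 1200000 * s * t ^ 3 +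
      3845391 / 800000 * s ^ 2 * t ^ 2 + 461241 / 200000 * s ^ 3 * t + 81421 / 200000 * s ^ 4 =
      (1 + 1 / 20 + (1 / 20) ^ 2 / 2) * (1 + u + 379 / 1000 * u ^ 2) -
      (13534 / 100000 *
      (1 + (u + 2) + (u + 2) ^ 2 / 2 + (u + 2) ^ 3 / 6 + (u + 2) ^ 4 / 24)) := by
    rw [hs, ht]
    ring
  rw [e] at h
  linarith

theorem od_three_d16_d (u : ℝ) (h2 : u ≤ -3) :
    4979 / 100000 ≤
      (1 + 1 / 20 + (1 / 20) ^ 2 / 2) * (1 + u + 379 / 1000 * u ^ 2) := by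
  obtain ⟨s, hs⟩ : ∃ s, s = -3 - u := ⟨_, rfl⟩
  have hs0 : 0 ≤ s := by linarith
  have h : 0 ≤
      1146819 / 800000 + 535717 / 400000 * s + 318739 / 800000 * s ^ 2 := by
    positivity
  have e :
      1146819 / 800000 + 535717 / 400000 * s + 318739 / 800000 * s ^ 2 =
      (1 + 1 / 20 + (1 / 20) ^ 2 / 2) * (1 + u + 379 / 1000 * u ^ 2) -
      (4979 / 100000) := by
    rw [hs]
    ring
  rw [e] at h
  linarith

theorem od_three_d16_e0 (u : ℝ) (h1 : 0 ≤ u) (h2 : u ≤ 1 / 10) :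
    1 + u + u ^ 2 / 2 + u ^ 3 / 6 + u ^ 4 / 24 + u ^ 5 / 100 ≤
      (1 + 1 / 20 + (1 / 20) ^ 2 / 2) * (1 + u + 379 / 1000 * u ^ 2) := by
  obtain ⟨s, hs⟩ : ∃ s, s = u - (0) := ⟨_, rfl⟩
  obtain ⟨t, ht⟩ : ∃ t, t = 1 / 10 - u := ⟨_, rfl⟩
  have hs0 : 0 ≤ s := by linarith
  have ht0 : 0 ≤ t := by linarith
  have h : 0 ≤
      5125 * t ^ 5 + 52275 / 2 * s * t ^ 4 + 42558739 / 800 * s ^ 2 * t ^ 3 +
      129608651 / 2400 * s ^ 3 * t ^ 2 + 21869217 / 800 * s ^ 4 * t + 13245193 / 2400 * s ^ 5 := by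
    positivity
  have e :
      5125 * t ^ 5 + 52275 / 2 * s * t ^ 4 + 42558739 / 800 * s ^ 2 * t ^ 3 +
      129608651 / 2400 * s ^ 3 * t ^ 2 + 21869217 / 800 * s ^ 4 * t + 13245193 / 2400 * s ^ 5 =
      (1 + 1 / 20 + (1 / 20) ^ 2 / 2) * (1 + u + 379 / 1000 * u ^ 2) -
      (1 + u + u ^ 2 / 2 + u ^ 3 / 6 + u ^ 4 / 24 + u ^ 5 / 100) := by
    rw [hs, ht]
    ring
  rw [e] at h
  linarith

theorem od_three_d16_f0 (u : ℝ) (h1 : 1 / 10 ≤ u) (h2 : u ≤ 1) :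
    55259 / 50000 * (1 + (u - 1 / 10) / 3) ^ 3 ≤
      (1 + 1 / 20 + (1 / 20) ^ 2 / 2) * (1 + u + 379 / 1000 * u ^ 2) := by
  obtain ⟨s, hs⟩ : ∃ s, s = u - (1 / 10) := ⟨_, rfl⟩
  obtain ⟨t, ht⟩ : ∃ t, t = 1 - u := ⟨_, rfl⟩
  have hs0 : 0 ≤ s := by linarith
  have ht0 : 0 ≤ t := by linarith
  have h : 0 ≤
      4414339 / 58320000 * t ^ 3 + 5032453 / 19440000 * s * t ^ 2 +
      787403 / 2430000 * s ^ 2 * t + 7284329 / 72900000 * s ^ 3 := by
    positivity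
  have e :
      4414339 / 58320000 * t ^ 3 + 5032453 / 19440000 * s * t ^ 2 +
      787403 / 2430000 * s ^ 2 * t + 7284329 / 72900000 * s ^ 3 =
      (1 + 1 / 20 + (1 / 20) ^ 2 / 2) * (1 + u + 379 / 1000 * u ^ 2) -
      (55259 / 50000 * (1 + (u - 1 / 10) / 3) ^ 3) := by
    rw [hs, ht]
    ring
  rw [e] at h
  linarith

theorem od_three_d16_g0 (u : ℝ) (h1 : 1 ≤ u) (h2 : u ≤ 4) :
    55259 / 50000 * (1 + (u - 1 / 10) / 3) ^ 3 ≤
      (1 + 1 / 20 + (1 / 20) ^ 2 / 2) * ((1 + (1 / 100 * (u ^ 2 - 1)) +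
      (1 / 100 * (u ^ 2 - 1)) ^ 2 / 2 +
      (1 / 100 * (u ^ 2 - 1)) ^ 3 / 6) *
      (1 + u + 379 / 1000 * u ^ 2)) := by
  obtain ⟨s, hs⟩ : ∃ s, s = u - (1) := ⟨_, rfl⟩
  obtain ⟨t, ht⟩ : ∃ t, t = 4 - u := ⟨_, rfl⟩
  have hs0 : 0 ≤ s := by linarith
  have ht0 : 0 ≤ t := by linarith
  have h : 0 ≤
      7284329 / 656100000000 * t ^ 8 + 134766329 / 1312200000000 * s * t ^ 7 +
      10060253981 / 26244000000000 * s ^ 2 * t ^ 6 +
      103370456989 / 145800000000000 * s ^ 3 * t ^ 5 +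
      146244267863 / 218700000000000 * s ^ 4 * t ^ 4 +
      499318889743 / 1749600000000000 * s ^ 5 * t ^ 3 +
      67753442687 / 2099520000000000 * s ^ 6 * t ^ 2 + 54931589 / 6561000000000 * s ^ 7 * t +
      106161571 / 10497600000000 * s ^ 8 := by
    positivity
  have e :
      7284329 / 656100000000 * t ^ 8 + 134766329 / 1312200000000 * s * t ^ 7 +
      10060253981 / 26244000000000 * s ^ 2 * t ^ 6 +
      103370456989 / 145800000000000 * s ^ 3 * t ^ 5 +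
      146244267863 / 218700000000000 * s ^ 4 * t ^ 4 +
      499318889743 / 1749600000000000 * s ^ 5 * t ^ 3 +
      67753442687 / 2099520000000000 * s ^ 6 * t ^ 2 + 54931589 / 6561000000000 * s ^ 7 * t +
      106161571 / 10497600000000 * s ^ 8 =
      (1 + 1 / 20 + (1 / 20) ^ 2 / 2) * ((1 + (1 / 100 * (u ^ 2 - 1)) +
      (1 / 100 * (u ^ 2 - 1)) ^ 2 / 2 +
      (1 / 100 * (u ^ 2 - 1)) ^ 3 / 6) *
      (1 + u + 379 / 1000 * u ^ 2)) -
      (55259 / 50000 * (1 + (u - 1 / 10) / 3) ^ 3) := by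
    rw [hs, ht]
    ring
  rw [e] at h
  linarith

theorem od_three_d16_t (u : ℝ) (h1 : 4 ≤ u) :
    55259 / 50000 * (1 + (u - 1 / 10) / 3) ^ 3 ≤
      (1 + 1 / 20 + (1 / 20) ^ 2 / 2) * ((1 + (1 / 100 * (u ^ 2 - 1)) +
      (1 / 100 * (u ^ 2 - 1)) ^ 2 / 2 +
      (1 / 100 * (u ^ 2 - 1)) ^ 3 / 6) *
      (1 + u + 379 / 1000 * u ^ 2)) := by
  obtain ⟨s, hs⟩ : ∃ s, s = u - (4) := ⟨_, rfl⟩
  have hs0 : 0 ≤ s := by linarith
  have h : 0 ≤
      106161571 / 1600000000 + 79312711 / 500000000 * s +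
      179737160309 / 960000000000 * s ^ 2 + 392004565969 / 5400000000000 * s ^ 3 +
      18232189539 / 1600000000000 * s ^ 4 + 247929323 / 300000000000 * s ^ 5 +
      17456637 / 320000000000 * s ^ 6 + 460027 / 200000000000 * s ^ 7 +
      318739 / 4800000000000 * s ^ 8 := by
    positivity
  have e :
      106161571 / 1600000000 + 79312711 / 500000000 * s +
      179737160309 / 960000000000 * s ^ 2 + 392004565969 / 5400000000000 * s ^ 3 +
      18232189539 / 1600000000000 * s ^ 4 + 247929323 / 300000000000 * s ^ 5 +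
      17456637 / 320000000000 * s ^ 6 + 460027 / 200000000000 * s ^ 7 +
      318739 / 4800000000000 * s ^ 8 =
      (1 + 1 / 20 + (1 / 20) ^ 2 / 2) * ((1 + (1 / 100 * (u ^ 2 - 1)) +
      (1 / 100 * (u ^ 2 - 1)) ^ 2 / 2 +
      (1 / 100 * (u ^ 2 - 1)) ^ 3 / 6) *
      (1 + u + 379 / 1000 * u ^ 2)) -
      (55259 / 50000 * (1 + (u - 1 / 10) / 3) ^ 3) := by
    rw [hs]
    ring
  rw [e] at h
  linarith

/-- `K = 3`: `(c, μ, P, δ) = (379 / 1000, 1 / 100, 1 / 10, 1 / 20)` -/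
theorem expOd_three_d16 : ExpOd 3 (379 / 1000) (1 / 100) (1 / 10) (1 / 20) := by
  have hde : (1 + 1 / 20 + (1 / 20) ^ 2 / 2) ≤ Real.exp (1 / 20) := Real.quadratic_le_exp_of_nonneg (by norm_num)
  have hq : ∀ u : ℝ, 0 ≤ 1 + u + 379 / 1000 * u ^ 2 := fun u => by
    nlinarith [sq_nonneg (u + 2), sq_nonneg u]
  have hR : ∀ (u x y : ℝ), x ≤ y → y ≤ (1 + 1 / 20 + (1 / 20) ^ 2 / 2) * (1 + u + 379 / 1000 * u ^ 2) →
      x ≤ Real.exp (1 / 20) * (1 + u + 379 / 1000 * u ^ 2) := fun u x y h1 h2 =>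
    (h1.trans h2).trans (mul_le_mul_of_nonneg_right hde (hq u))
  refine ExpOd.of (by norm_num) (by norm_num) (by norm_num) (by norm_num) (by norm_num) ?_ ?_ ?_
  · intro u h1
    rcases le_total u (-3) with h3 | h3
    · exact hR u _ _ (exp_le_n3 h3) (od_three_d16_d u h3)
    rcases le_total u (-2) with h4 | h4
    · refine hR u _ _ (exp_le_n2 h4) ?_
      exact od_three_d16_c0 u (by linarith) (by linarith)
    rcases le_total u (-1) with h5 | h5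
    · refine hR u _ _ (exp_le_n1 h5) ?_
      exact od_three_d16_b0 u (by linarith) (by linarith)
    rcases le_total u 0 with h6 | h6
    · refine hR u _ _ (exp_le_n0 h6) ?_
      exact od_three_d16_a0 u (by linarith) (by linarith)
    refine hR u _ _ (exp_le_p h6 (by linarith)) ?_
    exact od_three_d16_e0 u (by linarith) (by linarith)
  · intro u h1 h2
    have h4 : 0 ≤ (1 + (u - 1 / 10) / 3) ^ 3 := by
      have : 0 ≤ (u - 1 / 10) / 3 := div_nonneg (by linarith) (by norm_num)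
      positivity
    have hE : Real.exp (1 / 10) ≤ 55259 / 50000 := exp_up_1_10
    push_cast
    refine hR u _ _ (mul_le_mul_of_nonneg_right hE h4) ?_
    exact od_three_d16_f0 u (by linarith) (by linarith)
  · intro u h1
    have h4 : 0 ≤ (1 + (u - 1 / 10) / 3) ^ 3 := by
      have : 0 ≤ (u - 1 / 10) / 3 := div_nonneg (by linarith) (by norm_num)
      positivity
    have hE : Real.exp (1 / 10) ≤ 55259 / 50000 := exp_up_1_10
    have hx : 0 ≤ 1 / 100 * (u ^ 2 - 1) := mul_nonneg (by norm_num) (by nlinarith)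
    have h5 := mul_le_mul_of_nonneg_right (taylor3_le_exp _ hx) (hq u)
    have h6 : 0 ≤ Real.exp (1 / 100 * (u ^ 2 - 1)) * (1 + u + 379 / 1000 * u ^ 2) :=
      mul_nonneg (Real.exp_nonneg _) (hq u)
    rw [Real.exp_add, mul_assoc]
    push_cast
    refine ((mul_le_mul_of_nonneg_right hE h4).trans ?_).trans
      ((mul_le_mul_of_nonneg_left h5 (by norm_num : (0 : ℝ) ≤ (1 + 1 / 20 + (1 / 20) ^ 2 / 2))).trans
        (mul_le_mul_of_nonneg_right hde h6))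
    rcases le_total u (4) with hh | hh
    · exact od_three_d16_g0 u (by linarith) (by linarith)
    exact od_three_d16_t u (by linarith)

theorem od_three_d17_a0 (u : ℝ) (h1 : -1 ≤ u) (h2 : u ≤ 0) :
    1 + u + u ^ 2 / 2 + u ^ 3 / 6 + u ^ 4 / 24 ≤
      (1 + 1 / 10 + (1 / 10) ^ 2 / 2) * (1 + u + 17 / 50 * u ^ 2) := by
  obtain ⟨s, hs⟩ : ∃ s, s = u - (-1) := ⟨_, rfl⟩
  obtain ⟨t, ht⟩ : ∃ t, t = 0 - u := ⟨_, rfl⟩
  have hs0 : 0 ≤ s := by linarith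
  have ht0 : 0 ≤ t := by linarith
  have h : 0 ≤
      7 / 10000 * t ^ 4 + 173 / 7500 * s * t ^ 3 + 1907 / 10000 * s ^ 2 * t ^ 2 +
      63 / 200 * s ^ 3 * t + 21 / 200 * s ^ 4 := by
    positivity
  have e :
      7 / 10000 * t ^ 4 + 173 / 7500 * s * t ^ 3 + 1907 / 10000 * s ^ 2 * t ^ 2 +
      63 / 200 * s ^ 3 * t + 21 / 200 * s ^ 4 =
      (1 + 1 / 10 + (1 / 10) ^ 2 / 2) * (1 + u + 17 / 50 * u ^ 2) -
      (1 + u + u ^ 2 / 2 + u ^ 3 / 6 + u ^ 4 / 24) := by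
    rw [hs, ht]
    ring
  rw [e] at h
  linarith

theorem od_three_d17_b0 (u : ℝ) (h1 : -2 ≤ u) (h2 : u ≤ -1) :
    36788 / 100000 *
      (1 + (u + 1) + (u + 1) ^ 2 / 2 + (u + 1) ^ 3 / 6 + (u + 1) ^ 4 / 24) ≤
      (1 + 1 / 10 + (1 / 10) ^ 2 / 2) * (1 + u + 17 / 50 * u ^ 2) := by
  obtain ⟨s, hs⟩ : ∃ s, s = u - (-2) := ⟨_, rfl⟩
  obtain ⟨t, ht⟩ : ∃ t, t = -1 - u := ⟨_, rfl⟩
  have hs0 : 0 ≤ s := by linarith
  have ht0 : 0 ≤ t := by linarith
  have h : 0 ≤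
      51969 / 200000 * t ^ 4 + 77843 / 150000 * s * t ^ 3 + 3519 / 12500 * s ^ 2 * t ^ 2 +
      1139 / 25000 * s ^ 3 * t + 391 / 50000 * s ^ 4 := by
    positivity
  have e :
      51969 / 200000 * t ^ 4 + 77843 / 150000 * s * t ^ 3 + 3519 / 12500 * s ^ 2 * t ^ 2 +
      1139 / 25000 * s ^ 3 * t + 391 / 50000 * s ^ 4 =
      (1 + 1 / 10 + (1 / 10) ^ 2 / 2) * (1 + u + 17 / 50 * u ^ 2) -
      (36788 / 100000 *
      (1 + (u + 1) + (u + 1) ^ 2 / 2 + (u + 1) ^ 3 / 6 + (u + 1) ^ 4 / 24)) := by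
    rw [hs, ht]
    ring
  rw [e] at h
  linarith

theorem od_three_d17_c0 (u : ℝ) (h1 : -3 ≤ u) (h2 : u ≤ -2) :
    13534 / 100000 *
      (1 + (u + 2) + (u + 2) ^ 2 / 2 + (u + 2) ^ 3 / 6 + (u + 2) ^ 4 / 24) ≤
      (1 + 1 / 10 + (1 / 10) ^ 2 / 2) * (1 + u + 17 / 50 * u ^ 2) := by
  obtain ⟨s, hs⟩ : ∃ s, s = u - (-3) := ⟨_, rfl⟩
  obtain ⟨t, ht⟩ : ∃ t, t = -2 - u := ⟨_, rfl⟩
  have hs0 : 0 ≤ s := by linarith
  have ht0 : 0 ≤ t := by linarith
  have h : 0 ≤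
      448219 / 400000 * t ^ 4 + 986363 / 300000 * s * t ^ 3 +
      348221 / 100000 * s ^ 2 * t ^ 2 + 79149 / 50000 * s ^ 3 * t + 13123 / 50000 * s ^ 4 := by
    positivity
  have e :
      448219 / 400000 * t ^ 4 + 986363 / 300000 * s * t ^ 3 +
      348221 / 100000 * s ^ 2 * t ^ 2 + 79149 / 50000 * s ^ 3 * t + 13123 / 50000 * s ^ 4 =
      (1 + 1 / 10 + (1 / 10) ^ 2 / 2) * (1 + u + 17 / 50 * u ^ 2) -
      (13534 / 100000 *
      (1 + (u + 2) + (u + 2) ^ 2 / 2 + (u + 2) ^ 3 / 6 + (u + 2) ^ 4 / 24)) := by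
    rw [hs, ht]
    ring
  rw [e] at h
  linarith

theorem od_three_d17_d (u : ℝ) (h2 : u ≤ -3) :
    4979 / 100000 ≤
      (1 + 1 / 10 + (1 / 10) ^ 2 / 2) * (1 + u + 17 / 50 * u ^ 2) := by
  obtain ⟨s, hs⟩ : ∃ s, s = -3 - u := ⟨_, rfl⟩
  have hs0 : 0 ≤ s := by linarith
  have h : 0 ≤
      112151 / 100000 + 2873 / 2500 * s + 3757 / 10000 * s ^ 2 := by
    positivity
  have e :
      112151 / 100000 + 2873 / 2500 * s + 3757 / 10000 * s ^ 2 =
      (1 + 1 / 10 + (1 / 10) ^ 2 / 2) * (1 + u + 17 / 50 * u ^ 2) -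
      (4979 / 100000) := by
    rw [hs]
    ring
  rw [e] at h
  linarith

theorem od_three_d17_e0 (u : ℝ) (h1 : 0 ≤ u) (h2 : u ≤ 1 / 10) :
    1 + u + u ^ 2 / 2 + u ^ 3 / 6 + u ^ 4 / 24 + u ^ 5 / 100 ≤
      (1 + 1 / 10 + (1 / 10) ^ 2 / 2) * (1 + u + 17 / 50 * u ^ 2) := by
  obtain ⟨s, hs⟩ : ∃ s, s = u - (0) := ⟨_, rfl⟩
  obtain ⟨t, ht⟩ : ∃ t, t = 1 / 10 - u := ⟨_, rfl⟩
  have hs0 : 0 ≤ s := by linarith
  have ht0 : 0 ≤ t := by linarith
  have h : 0 ≤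
      10500 * t ^ 5 + 53550 * s * t ^ 4 + 1090757 / 10 * s ^ 2 * t ^ 3 +
      3327313 / 30 * s ^ 3 * t ^ 2 + 1125867 / 20 * s ^ 4 * t + 1711291 / 150 * s ^ 5 := by
    positivity
  have e :
      10500 * t ^ 5 + 53550 * s * t ^ 4 + 1090757 / 10 * s ^ 2 * t ^ 3 +
      3327313 / 30 * s ^ 3 * t ^ 2 + 1125867 / 20 * s ^ 4 * t + 1711291 / 150 * s ^ 5 =
      (1 + 1 / 10 + (1 / 10) ^ 2 / 2) * (1 + u + 17 / 50 * u ^ 2) -
      (1 + u + u ^ 2 / 2 + u ^ 3 / 6 + u ^ 4 / 24 + u ^ 5 / 100) := by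
    rw [hs, ht]
    ring
  rw [e] at h
  linarith

theorem od_three_d17_f0 (u : ℝ) (h1 : 1 / 10 ≤ u) (h2 : u ≤ 1) :
    55259 / 50000 * (1 + (u - 1 / 10) / 3) ^ 3 ≤
      (1 + 1 / 10 + (1 / 10) ^ 2 / 2) * (1 + u + 17 / 50 * u ^ 2) := by
  obtain ⟨s, hs⟩ : ∃ s, s = u - (1 / 10) := ⟨_, rfl⟩
  obtain ⟨t, ht⟩ : ∃ t, t = 1 - u := ⟨_, rfl⟩
  have hs0 : 0 ≤ s := by linarith
  have ht0 : 0 ≤ t := by linarith
  have h : 0 ≤
      114077 / 729000 * t ^ 3 + 27313 / 48600 * s * t ^ 2 + 805129 / 1215000 * s ^ 2 * t +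
      7880977 / 36450000 * s ^ 3 := by
    positivity
  have e :
      114077 / 729000 * t ^ 3 + 27313 / 48600 * s * t ^ 2 + 805129 / 1215000 * s ^ 2 * t +
      7880977 / 36450000 * s ^ 3 =
      (1 + 1 / 10 + (1 / 10) ^ 2 / 2) * (1 + u + 17 / 50 * u ^ 2) -
      (55259 / 50000 * (1 + (u - 1 / 10) / 3) ^ 3) := by
    rw [hs, ht]
    ring
  rw [e] at h
  linarith

theorem od_three_d17_g0 (u : ℝ) (h1 : 1 ≤ u) (h2 : u ≤ 2) :
    55259 / 50000 * (1 + (u - 1 / 10) / 3) ^ 3 ≤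
      (1 + 1 / 10 + (1 / 10) ^ 2 / 2) * ((1 + (3 / 200 * (u ^ 2 - 1)) +
      (3 / 200 * (u ^ 2 - 1)) ^ 2 / 2 +
      (3 / 200 * (u ^ 2 - 1)) ^ 3 / 6) *
      (1 + u + 17 / 50 * u ^ 2)) := by
  obtain ⟨s, hs⟩ : ∃ s, s = u - (1) := ⟨_, rfl⟩
  obtain ⟨t, ht⟩ : ∃ t, t = 2 - u := ⟨_, rfl⟩
  have hs0 : 0 ≤ s := by linarith
  have ht0 : 0 ≤ t := by linarith
  have h : 0 ≤
      7880977 / 50000000 * t ^ 8 + 518427 / 390625 * s * t ^ 7 +
      2921576671 / 600000000 * s ^ 2 * t ^ 6 + 5492891025751 / 540000000000 * s ^ 3 * t ^ 5 +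
      14304960027517 / 1080000000000 * s ^ 4 * t ^ 4 +
      4761959408393 / 432000000000 * s ^ 5 * t ^ 3 +
      24776455966637 / 4320000000000 * s ^ 6 * t ^ 2 +
      3691793710637 / 2160000000000 * s ^ 7 * t + 483566990929 / 2160000000000 * s ^ 8 := by
    positivity
  have e :
      7880977 / 50000000 * t ^ 8 + 518427 / 390625 * s * t ^ 7 +
      2921576671 / 600000000 * s ^ 2 * t ^ 6 + 5492891025751 / 540000000000 * s ^ 3 * t ^ 5 +
      14304960027517 / 1080000000000 * s ^ 4 * t ^ 4 +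
      4761959408393 / 432000000000 * s ^ 5 * t ^ 3 +
      24776455966637 / 4320000000000 * s ^ 6 * t ^ 2 +
      3691793710637 / 2160000000000 * s ^ 7 * t + 483566990929 / 2160000000000 * s ^ 8 =
      (1 + 1 / 10 + (1 / 10) ^ 2 / 2) * ((1 + (3 / 200 * (u ^ 2 - 1)) +
      (3 / 200 * (u ^ 2 - 1)) ^ 2 / 2 +
      (3 / 200 * (u ^ 2 - 1)) ^ 3 / 6) *
      (1 + u + 17 / 50 * u ^ 2)) -
      (55259 / 50000 * (1 + (u - 1 / 10) / 3) ^ 3) := by
    rw [hs, ht]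
    ring
  rw [e] at h
  linarith

theorem od_three_d17_t (u : ℝ) (h1 : 2 ≤ u) :
    55259 / 50000 * (1 + (u - 1 / 10) / 3) ^ 3 ≤
      (1 + 1 / 10 + (1 / 10) ^ 2 / 2) * ((1 + (3 / 200 * (u ^ 2 - 1)) +
      (3 / 200 * (u ^ 2 - 1)) ^ 2 / 2 +
      (3 / 200 * (u ^ 2 - 1)) ^ 3 / 6) *
      (1 + u + 17 / 50 * u ^ 2)) := by
  obtain ⟨s, hs⟩ : ∃ s, s = u - (2) := ⟨_, rfl⟩
  have hs0 : 0 ≤ s := by linarith
  have h : 0 ≤
      483566990929 / 2160000000000 + 11782814453 / 144000000000 * s +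
      57031836581 / 1440000000000 * s ^ 2 + 71654426593 / 2160000000000 * s ^ 3 +
      1575117609 / 160000000000 * s ^ 4 + 62110503 / 80000000000 * s ^ 5 +
      11939967 / 160000000000 * s ^ 6 + 320229 / 80000000000 * s ^ 7 +
      33813 / 160000000000 * s ^ 8 := by
    positivity
  have e :
      483566990929 / 2160000000000 + 11782814453 / 144000000000 * s +
      57031836581 / 1440000000000 * s ^ 2 + 71654426593 / 2160000000000 * s ^ 3 +
      1575117609 / 160000000000 * s ^ 4 + 62110503 / 80000000000 * s ^ 5 +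
      11939967 / 160000000000 * s ^ 6 + 320229 / 80000000000 * s ^ 7 +
      33813 / 160000000000 * s ^ 8 =
      (1 + 1 / 10 + (1 / 10) ^ 2 / 2) * ((1 + (3 / 200 * (u ^ 2 - 1)) +
      (3 / 200 * (u ^ 2 - 1)) ^ 2 / 2 +
      (3 / 200 * (u ^ 2 - 1)) ^ 3 / 6) *
      (1 + u + 17 / 50 * u ^ 2)) -
      (55259 / 50000 * (1 + (u - 1 / 10) / 3) ^ 3) := by
    rw [hs]
    ring
  rw [e] at h
  linarith

/-- `K = 3`: `(c, μ, P, δ) = (17 / 50, 3 / 200, 1 / 10, 1 / 10)` -/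
theorem expOd_three_d17 : ExpOd 3 (17 / 50) (3 / 200) (1 / 10) (1 / 10) := by
  have hde : (1 + 1 / 10 + (1 / 10) ^ 2 / 2) ≤ Real.exp (1 / 10) := Real.quadratic_le_exp_of_nonneg (by norm_num)
  have hq : ∀ u : ℝ, 0 ≤ 1 + u + 17 / 50 * u ^ 2 := fun u => by
    nlinarith [sq_nonneg (u + 2), sq_nonneg u]
  have hR : ∀ (u x y : ℝ), x ≤ y → y ≤ (1 + 1 / 10 + (1 / 10) ^ 2 / 2) * (1 + u + 17 / 50 * u ^ 2) →
      x ≤ Real.exp (1 / 10) * (1 + u + 17 / 50 * u ^ 2) := fun u x y h1 h2 =>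
    (h1.trans h2).trans (mul_le_mul_of_nonneg_right hde (hq u))
  refine ExpOd.of (by norm_num) (by norm_num) (by norm_num) (by norm_num) (by norm_num) ?_ ?_ ?_
  · intro u h1
    rcases le_total u (-3) with h3 | h3
    · exact hR u _ _ (exp_le_n3 h3) (od_three_d17_d u h3)
    rcases le_total u (-2) with h4 | h4
    · refine hR u _ _ (exp_le_n2 h4) ?_
      exact od_three_d17_c0 u (by linarith) (by linarith)
    rcases le_total u (-1) with h5 | h5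
    · refine hR u _ _ (exp_le_n1 h5) ?_
      exact od_three_d17_b0 u (by linarith) (by linarith)
    rcases le_total u 0 with h6 | h6
    · refine hR u _ _ (exp_le_n0 h6) ?_
      exact od_three_d17_a0 u (by linarith) (by linarith)
    refine hR u _ _ (exp_le_p h6 (by linarith)) ?_
    exact od_three_d17_e0 u (by linarith) (by linarith)
  · intro u h1 h2
    have h4 : 0 ≤ (1 + (u - 1 / 10) / 3) ^ 3 := by
      have : 0 ≤ (u - 1 / 10) / 3 := div_nonneg (by linarith) (by norm_num)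
      positivity
    have hE : Real.exp (1 / 10) ≤ 55259 / 50000 := exp_up_1_10
    push_cast
    refine hR u _ _ (mul_le_mul_of_nonneg_right hE h4) ?_
    exact od_three_d17_f0 u (by linarith) (by linarith)
  · intro u h1
    have h4 : 0 ≤ (1 + (u - 1 / 10) / 3) ^ 3 := by
      have : 0 ≤ (u - 1 / 10) / 3 := div_nonneg (by linarith) (by norm_num)
      positivity
    have hE : Real.exp (1 / 10) ≤ 55259 / 50000 := exp_up_1_10
    have hx : 0 ≤ 3 / 200 * (u ^ 2 - 1) := mul_nonneg (by norm_num) (by nlinarith)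
    have h5 := mul_le_mul_of_nonneg_right (taylor3_le_exp _ hx) (hq u)
    have h6 : 0 ≤ Real.exp (3 / 200 * (u ^ 2 - 1)) * (1 + u + 17 / 50 * u ^ 2) :=
      mul_nonneg (Real.exp_nonneg _) (hq u)
    rw [Real.exp_add, mul_assoc]
    push_cast
    refine ((mul_le_mul_of_nonneg_right hE h4).trans ?_).trans
      ((mul_le_mul_of_nonneg_left h5 (by norm_num : (0 : ℝ) ≤ (1 + 1 / 10 + (1 / 10) ^ 2 / 2))).trans
        (mul_le_mul_of_nonneg_right hde h6))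
    rcases le_total u (2) with hh | hh
    · exact od_three_d17_g0 u (by linarith) (by linarith)
    exact od_three_d17_t u (by linarith)

end

end Pool.Agent.TSM
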