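import Pool.Agent.TSM.EvenG
import Pool.Agent.TSM.LeftNode

set_option autoImplicit false

/-!
# An odd number `K` of children, full finite rule (MP_d27362_co)

`(1 + (u - ρ)/K)^K ≤ e^{-ρ} e^{μ (w² - 1)} (1 + u + c u²)` for `u ≤ w`, `w ≥ 1`, `ρ ≤ P`. The gain
and the loss count fully; the pending cost goes into the excess.
-/

namespace Pool.Agent.TSM

open Finset Polynomial
open Pool.Agent.TSP
open Pool.Agent.TSO
open Pool.Agent.TSR (OBr Ker sg_true sg_false vS_nonneg)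
open Pool.Agent.TLT (sg)

noncomputable section

/-- the constants of the finite rule for an odd number `K` of children, the gain at most `P` -/
structure ExpO (K : ℕ) (cq μ P : ℝ) : Prop where
  cq0 : 0 ≤ cq
  mu0 : 0 ≤ μ
  P0 : 0 ≤ P
  quad : ∀ u : ℝ, 0 ≤ 1 + u + cq * u ^ 2
  hexp : ∀ ρ u w : ℝ, ρ ≤ P → 1 ≤ w → u ≤ w → 0 ≤ 1 + (u - ρ) / K →
    (1 + (u - ρ) / K) ^ K ≤
      Real.exp (-ρ) * (Real.exp (μ * (w ^ 2 - 1)) * (1 + u + cq * u ^ 2))

/-- reduction to two inequalities in one variable -/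
theorem ExpO.of {K : ℕ} (hK : 0 < K) {cq μ P : ℝ} (hμ : 0 ≤ μ) (hP0 : 0 ≤ P)
    (hcq : 1 / 4 ≤ cq)
    (h1 : ∀ u, u ≤ P → Real.exp u ≤ 1 + u + cq * u ^ 2)
    (h2 : ∀ u, P ≤ u → u ≤ 1 → Real.exp P * (1 + (u - P) / K) ^ K ≤ 1 + u + cq * u ^ 2)
    (h3 : ∀ u, 1 ≤ u → Real.exp P * (1 + (u - P) / K) ^ K ≤
      Real.exp (μ * (u ^ 2 - 1)) * (1 + u + cq * u ^ 2)) : ExpO K cq μ P := by
  have hq : ∀ u : ℝ, 0 ≤ 1 + u + cq * u ^ 2 := by
    intro u
    have h2 := mul_le_mul_of_nonneg_right hcq (sq_nonneg u)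
    nlinarith [sq_nonneg (u + 2)]
  refine ⟨by linarith, hμ, hP0, hq, fun ρ u w hρ hw huw hn => ?_⟩
  have hKR : (0 : ℝ) < K := by exact_mod_cast hK
  have hE1 : 1 ≤ Real.exp (μ * (w ^ 2 - 1)) :=
    Real.one_le_exp (mul_nonneg hμ (by nlinarith))
  -- the bound without `ρ`
  have key : Real.exp ρ * (1 + (u - ρ) / K) ^ K ≤
      Real.exp (μ * (w ^ 2 - 1)) * (1 + u + cq * u ^ 2) := by
    rcases le_total u P with hu | hu
    · have h4 : (1 + (u - ρ) / K) ^ K ≤ Real.exp (u - ρ) := by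
        have h5 : 1 + (u - ρ) / K ≤ Real.exp ((u - ρ) / K) := by
          have := Real.add_one_le_exp ((u - ρ) / K)
          linarith
        refine (pow_le_pow_left₀ hn h5 K).trans (le_of_eq ?_)
        rw [← Real.exp_nat_mul]
        congr 1
        field_simp
      have h6 : Real.exp ρ * (1 + (u - ρ) / K) ^ K ≤ Real.exp u := by
        refine (mul_le_mul_of_nonneg_left h4 (Real.exp_nonneg _)).trans (le_of_eq ?_)
        rw [← Real.exp_add]
        congr 1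
        ring
      have h7 := h6.trans (h1 u hu)
      have h8 := mul_le_mul_of_nonneg_right hE1 (hq u)
      linarith
    · have h4 : 1 + (u - ρ) / K ≤ (1 + (u - P) / K) * Real.exp ((P - ρ) / K) := by
        have h5 : 1 + (P - ρ) / K ≤ Real.exp ((P - ρ) / K) := by
          have := Real.add_one_le_exp ((P - ρ) / K)
          linarith
        have h6 : 0 ≤ (u - P) / K := div_nonneg (by linarith) hKR.le
        have h7 : 0 ≤ (P - ρ) / K := div_nonneg (by linarith) hKR.le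
        have h8 := mul_le_mul_of_nonneg_left h5 (show 0 ≤ 1 + (u - P) / K by linarith)
        have h9 : 1 + (u - ρ) / K = 1 + (u - P) / K + (P - ρ) / K := by
          field_simp
          ring
        rw [h9]
        nlinarith [mul_nonneg h6 h7]
      have h5 : Real.exp ρ * (1 + (u - ρ) / K) ^ K ≤ Real.exp P * (1 + (u - P) / K) ^ K := by
        have h6 := mul_le_mul_of_nonneg_left (pow_le_pow_left₀ hn h4 K) (Real.exp_nonneg ρ)
        refine h6.trans (le_of_eq ?_)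
        rw [mul_pow, ← Real.exp_nat_mul]
        have h7 : (K : ℝ) * ((P - ρ) / K) = P - ρ := by field_simp
        rw [h7]
        have h8 : Real.exp P = Real.exp ρ * Real.exp (P - ρ) := by
          rw [← Real.exp_add]
          congr 1
          ring
        rw [h8]
        ring
      refine h5.trans ?_
      rcases le_total u 1 with h6 | h6
      · have h7 := h2 u hu h6
        have h8 := mul_le_mul_of_nonneg_right hE1 (hq u)
        linarith
      · refine (h3 u h6).trans (mul_le_mul_of_nonneg_right (Real.exp_le_exp.2 ?_) (hq u))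
        apply mul_le_mul_of_nonneg_left _ hμ
        have := pow_le_pow_left₀ (by linarith : (0 : ℝ) ≤ u) huw 2
        linarith
  have h4 := mul_le_mul_of_nonneg_left key (Real.exp_nonneg (-ρ))
  refine le_trans (le_of_eq ?_) h4
  rw [← mul_assoc, ← Real.exp_add, neg_add_cancel, Real.exp_zero, one_mul]

/-- `e^u ≤ 1 + u + c u²` for `u ≤ P`, `c ≥ 1/2 + P/6 + 5 P²/96` -/
theorem exp_le_quad_of_le {cq P : ℝ} (hP0 : 0 ≤ P) (hP1 : P ≤ 1)
    (hc : 1 / 2 + P / 6 + 5 / 96 * P ^ 2 ≤ cq) (u : ℝ) (hu : u ≤ P) :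
    Real.exp u ≤ 1 + u + cq * u ^ 2 := by
  rcases le_total 0 u with h0 | h0
  · have h1 := Real.exp_bound' h0 (hu.trans hP1) (n := 4) (by norm_num)
    have h2 : ∑ m ∈ Finset.range 4, u ^ m / (m.factorial : ℝ) +
        u ^ 4 * (4 + 1) / ((Nat.factorial 4 : ℕ) * 4) =
        1 + u + (1 / 2 + u / 6 + 5 / 96 * u ^ 2) * u ^ 2 := by
      simp only [Finset.sum_range_succ, Finset.sum_range_zero, Nat.factorial]
      push_cast
      ring
    rw [show ((4 : ℕ) : ℝ) = 4 by norm_num] at h1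
    rw [h2] at h1
    refine h1.trans ?_
    have h3 : 1 / 2 + u / 6 + 5 / 96 * u ^ 2 ≤ cq := by
      have := pow_le_pow_left₀ h0 hu 2
      linarith
    have := mul_le_mul_of_nonneg_right h3 (sq_nonneg u)
    linarith
  · have h1 : Real.exp u ≤ 1 + u + u ^ 2 / 2 := by
      have h2 := Real.quadratic_le_exp_of_nonneg (x := -u) (by linarith)
      rw [Real.exp_neg] at h2
      have h3 : 0 < Real.exp u := Real.exp_pos u
      have h4 := mul_le_mul_of_nonneg_left h2 h3.le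
      rw [mul_inv_cancel₀ h3.ne'] at h4
      have h5 : (1 + u + u ^ 2 / 2) * (1 + -u + (-u) ^ 2 / 2) = 1 + u ^ 4 / 4 := by ring
      have h6 : 0 < 1 + -u + (-u) ^ 2 / 2 := by nlinarith
      by_contra h
      push Not at h
      have h7 := mul_lt_mul_of_pos_right h h6
      have : 0 ≤ u ^ 4 / 4 := by positivity
      linarith
    have h8 : 1 / 2 ≤ cq := by
      have : 0 ≤ 5 / 96 * P ^ 2 := by positivity
      linarith
    have := mul_le_mul_of_nonneg_right h8 (sq_nonneg u)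
    linarith

/-- two coefficients in the bound of the state for `τ = 1` -/
theorem sup_odd2 {k b n l : ℝ} (hk : 0 ≤ k) (hb : 0 ≤ b) (hbn : b ^ 2 ≤ n) (hl : 0 < l) :
    (Real.sqrt (1 + k) + b) ^ 2 - 1 ≤ 2 * b + (1 + l) * k + (1 + 1 / l) * n := by
  have h1 := Real.sq_sqrt (show 0 ≤ 1 + k by linarith)
  have h2 := Real.sq_sqrt hk
  set s := Real.sqrt k
  have hs0 : 0 ≤ s := Real.sqrt_nonneg _
  have h3 : Real.sqrt (1 + k) ≤ 1 + s := by
    rw [Real.sqrt_le_left (by linarith)]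
    nlinarith
  have h4 : 2 * s * b ≤ l * s ^ 2 + (1 / l) * b ^ 2 := by
    have e : l * s ^ 2 + (1 / l) * b ^ 2 - 2 * s * b = (1 / l) * (l * s - b) ^ 2 := by
      field_simp
      ring
    have : 0 ≤ (1 / l) * (l * s - b) ^ 2 := by positivity
    linarith
  have h5 : (1 + 1 / l) * b ^ 2 ≤ (1 + 1 / l) * n :=
    mul_le_mul_of_nonneg_left hbn (by positivity)
  have h6 : Real.sqrt (1 + k) * b ≤ (1 + s) * b := mul_le_mul_of_nonneg_right h3 hb
  calc (Real.sqrt (1 + k) + b) ^ 2 - 1 =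
      Real.sqrt (1 + k) ^ 2 + 2 * (Real.sqrt (1 + k) * b) + b ^ 2 - 1 := by ring
    _ ≤ (1 + k) + 2 * ((1 + s) * b) + b ^ 2 - 1 := by rw [h1]; linarith
    _ = 2 * b + k + 2 * s * b + b ^ 2 := by ring
    _ ≤ 2 * b + k + (l * s ^ 2 + (1 / l) * b ^ 2) + b ^ 2 := by linarith
    _ = 2 * b + (1 + l) * k + (1 + 1 / l) * b ^ 2 := by rw [h2]; ring
    _ ≤ _ := by linarith

/-- odd number `K` of children, finite rule: `U`, `y` the new state, `V` the sum of the values.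
Lines 1, 2 are used if `∫ y ≥ 0` (multipliers `k1`, `k2`), lines 3, 4 if `∫ y ≤ 0` -/
def OdF (χ : ℝ → ℝ) (D : ℝ) (K : ℕ) (U y V V' c' : ℝ → ℝ) : Prop :=
  ∃ cq μ P l r k1 k2 k3 k4 : ℝ, ∃ g : ℝ → ℝ, ExpO K cq μ P ∧ 0 < l ∧ r * D ≤ P ∧
    2 * μ ≤ k1 ∧ 2 * μ ≤ k2 ∧ 1 ≤ k3 ∧ 1 ≤ k4 ∧
    ILe D g y ∧ ILe D g (fun _ => r) ∧
    ILe D V' (fun a => V a + g a - k1 * y a - μ * ((1 + l) * (y a ^ 2 + a * U a ^ 2) +
      (1 + 1 / l) * D * y a ^ 2) - 2 * cq * ((1 - a * U a) ^ 2 + a * y a ^ 2)) ∧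
    ILe D V' (fun a => V a + g a - k2 * y a - μ * ((1 + l) * (y a ^ 2 + a * U a ^ 2) +
      (1 + 1 / l) * D * y a ^ 2) - 2 * cq * ((1 - a * U a) ^ 2 + a * y a ^ 2) -
      χ D * (2 * cq * ((1 - a * U a) ^ 2 + a * y a ^ 2) - c' a)) ∧
    ILe D V' (fun a => V a + k3 * y a - μ * (y a ^ 2 + a * U a ^ 2) -
      2 * cq * ((1 - a * U a) ^ 2 + a * y a ^ 2)) ∧
    ILe D V' (fun a => V a + k4 * y a - μ * (y a ^ 2 + a * U a ^ 2) -
      2 * cq * ((1 - a * U a) ^ 2 + a * y a ^ 2) -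
      χ D * (2 * cq * ((1 - a * U a) ^ 2 + a * y a ^ 2) - c' a))

/-- **an odd number of children** (`Σ σ = 1`), full finite rule -/
theorem GoodE.odF {χ : ℝ → ℝ} (hχ : ∀ D, RD D → 0 ≤ χ D) {K : ℕ} (hK0 : 0 < K)
    (O : Fin K → OBr) (σ e : Fin K → Bool) (V c : Fin K → ℝ → ℝ → ℝ)
    (h : ∀ i, GoodE χ (O i) (V i) (c i)) (hτ : ∑ i, sg (σ i) = 1) {V' c' : ℝ → ℝ → ℝ}
    (U y : ℝ → ℝ) (hU : ∀ a, ∑ i, sg (σ i) * (YY (O i)).eval a = U a)
    (hy : ∀ a, ∑ i, sg (e i) * (XX (O i)).eval a = y a)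
    (H : ∀ D, RD D → OdF χ D K U y (fun a => ∑ i, V i D a) (V' D) (c' D)) :
    GoodE χ (fam σ e O) V' c' := by
  intro m S hS w t hR
  have hRD : RD (dee S) := ⟨hR.dee_nonneg, hR.dee_le⟩
  obtain ⟨cq, μ, P, l, r, k1, k2, k3, k4, g, hF, hl, hrP, hk1, hk2, hk3, hk4, hg, hgr, hp1, hp2,
    hn1, hn2⟩ := H _ hRD
  have hM : ∀ i ∈ (Finset.univ : Finset (Fin K)), MMajE S (ms S (cn (σ i) (e i) (O i)))
      (sg (σ i) • (1 - X * YY (O i))) (sg (e i) • XX (O i))
      (nu w t fun a => sg (e i) * (XX (O i)).eval a) (χ (dee S)) (nu w t (V i (dee S)))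
      (nu w t (c i (dee S))) := fun i _ => (h i).msg (σ i) (e i) hS hR
  rw [fam_vS, fam_XX, fam_YY]
  set U' := ∑ i, sg (σ i) • YY (O i) with hU'
  set y' := ∑ i, sg (e i) • XX (O i) with hy'
  have hx' : ∑ i, sg (σ i) • (1 - X * YY (O i)) = C 1 - X * U' := by
    have h1 : ∀ i : Fin K, sg (σ i) • (1 - X * YY (O i)) =
        C (sg (σ i)) - X * (sg (σ i) • YY (O i)) := by
      intro i
      rw [smul_sub, smul_eq_C_mul, mul_one, mul_smul_comm]
    rw [Finset.sum_congr rfl fun i _ => h1 i, Finset.sum_sub_distrib, ← Finset.mul_sum,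
      ← map_sum, hτ]
  have hUe : ∀ a, U'.eval a = U a := by
    intro a
    rw [hU', eval_finsetSum, ← hU a]
    exact Finset.sum_congr rfl fun i _ => by rw [eval_smul, smul_eq_mul]
  have hye : ∀ a, y'.eval a = y a := by
    intro a
    rw [hy', eval_finsetSum, ← hy a]
    exact Finset.sum_congr rfl fun i _ => by rw [eval_smul, smul_eq_mul]
  have hen : en S (∑ i, sg (σ i) • (1 - X * YY (O i))) y' =
      nu w t fun a => (1 - a * U a) ^ 2 + a * y a ^ 2 := by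
    rw [hx', hR.en_nu]
    congr 1
    funext a
    simp only [eval_sub, eval_C, eval_mul, eval_X, hUe, hye]
  have hen2 : en2 S U' y' = nu w t fun a => y a ^ 2 + a * U a ^ 2 := by
    unfold en2
    rw [hR.mo_nu]
    congr 1
    funext a
    simp only [eval_add, eval_mul, eval_X, hUe, hye]
    ring
  have hmoy : mo S y' = nu w t y := by
    rw [hR.mo_nu]
    congr 1
    funext a
    exact hye a
  have hmy2 : mo S (y' * y') = nu w t fun a => y a ^ 2 := by
    rw [hR.mo_nu]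
    congr 1
    funext a
    simp only [eval_mul, hye]
    ring
  have hsumG : ∑ i, (nu w t fun a => sg (e i) * (XX (O i)).eval a) = nu w t y := by
    rw [← nu_finset_sum]
    congr 1
    funext a
    exact hy a
  have hk0 := en2_nonneg (S := S) hS.anti U' y'
  have hb2 := mo_sq_le hS y'
  have hw1 : 1 ≤ Real.sqrt (1 + en2 S U' y') := by
    rw [Real.one_le_sqrt]
    linarith
  have hG1 : nu w t g ≤ nu w t y := hg m S hS w t hR rfl
  have hGP : nu w t g ≤ P := by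
    have := hgr m S hS w t hR rfl
    rw [hR.nu_const] at this
    exact this.trans hrP
  have hsup : ∀ z, st S (∑ i, sg (σ i) • (1 - X * YY (O i))) (∑ i, sg (e i) • XX (O i)) z ≤
      Real.sqrt (1 + en2 S U' y') + mo S y' := by
    intro z
    rw [hx', ← hy']
    have h1 := st_sup hS 1 U' y' z
    rwa [show (1 : ℝ) ^ 2 + en2 S U' y' = 1 + en2 S U' y' by ring] at h1
  have hhE : ∀ w1 mm : ℝ, 1 ≤ w1 → μ * (w1 ^ 2 - 1) ≤ mm → (∀ z, st S (∑ i, sg (σ i) •
      (1 - X * YY (O i))) (∑ i, sg (e i) • XX (O i)) z ≤ w1) → ∀ z ρ, ρ ≤ P →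
      0 ≤ 1 + (st S (∑ i, sg (σ i) • (1 - X * YY (O i))) (∑ i, sg (e i) • XX (O i)) z - ρ) /
        (K : ℝ) →
      (1 + (st S (∑ i, sg (σ i) • (1 - X * YY (O i))) (∑ i, sg (e i) • XX (O i)) z - ρ) /
        (K : ℝ)) ^ K ≤
      Real.exp (-ρ) * (Real.exp mm * (1 + st S (∑ i, sg (σ i) • (1 - X * YY (O i)))
        (∑ i, sg (e i) • XX (O i)) z + cq * st S (∑ i, sg (σ i) • (1 - X * YY (O i)))
        (∑ i, sg (e i) • XX (O i)) z ^ 2)) := by
    intro w1 mm h1 h2 h3 z ρ h4 h5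
    refine (hF.hexp _ _ w1 h4 h1 (h3 z) h5).trans ?_
    refine mul_le_mul_of_nonneg_left ?_ (Real.exp_nonneg _)
    exact mul_le_mul_of_nonneg_right (Real.exp_le_exp.2 h2) (hF.quad _)
  -- the integrated lines
  have eT : ∀ k : ℝ, ∀ f : ℝ → ℝ, (nu w t fun a => (∑ i, V i (dee S) a) + f a - k * y a -
      μ * ((1 + l) * (y a ^ 2 + a * U a ^ 2) + (1 + 1 / l) * dee S * y a ^ 2) -
      2 * cq * ((1 - a * U a) ^ 2 + a * y a ^ 2)) =
      ∑ i, nu w t (V i (dee S)) + nu w t f - k * mo S y' -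
      μ * ((1 + l) * en2 S U' y' + (1 + 1 / l) * dee S * mo S (y' * y')) -
      2 * cq * en S (∑ i, sg (σ i) • (1 - X * YY (O i))) y' := by
    intro k f
    rw [nu_sub, nu_sub, nu_sub, nu_add, nu_finset_sum, nu_mul, nu_mul, nu_mul, nu_add, nu_mul,
      nu_mul, ← hen, ← hen2, ← hmy2, ← hmoy]
  have eN : ∀ k : ℝ, (nu w t fun a => (∑ i, V i (dee S) a) + k * y a -
      μ * (y a ^ 2 + a * U a ^ 2) - 2 * cq * ((1 - a * U a) ^ 2 + a * y a ^ 2)) =
      ∑ i, nu w t (V i (dee S)) + k * mo S y' - μ * en2 S U' y' -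
      2 * cq * en S (∑ i, sg (σ i) • (1 - X * YY (O i))) y' := by
    intro k
    rw [nu_sub, nu_sub, nu_add, nu_finset_sum, nu_mul, nu_mul, nu_mul, ← hen, ← hen2, ← hmoy]
  have eX : (nu w t fun a => 2 * cq * ((1 - a * U a) ^ 2 + a * y a ^ 2) - c' (dee S) a) =
      2 * cq * en S (∑ i, sg (σ i) • (1 - X * YY (O i))) y' - nu w t (c' (dee S)) := by
    rw [nu_sub, nu_mul, ← hen]
  have hp1' := hp1 m S hS w t hR rfl
  rw [eT] at hp1'
  have hp2' := hp2 m S hS w t hR rfl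
  rw [nu_sub, nu_mul, eT, eX] at hp2'
  have hn1' := hn1 m S hS w t hR rfl
  rw [eN] at hn1'
  have hn2' := hn2 m S hS w t hR rfl
  rw [nu_sub, nu_mul, eN, eX] at hn2'
  rcases le_total 0 (mo S y') with hb | hb
  · have hso := sup_odd2 hk0 hb hb2 hl
    have hw2 : 1 ≤ Real.sqrt (1 + en2 S U' y') + mo S y' := by linarith
    have hmm : μ * ((Real.sqrt (1 + en2 S U' y') + mo S y') ^ 2 - 1) ≤
        μ * (2 * mo S y' + (1 + l) * en2 S U' y' + (1 + 1 / l) * (dee S * mo S (y' * y'))) :=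
      mul_le_mul_of_nonneg_left hso hF.mu0
    have h6 := mul_le_mul_of_nonneg_right hk1 hb
    have h7 := mul_le_mul_of_nonneg_right hk2 hb
    refine (MMajE.manyF hS Finset.univ K (by simp) hK0 _ _ _ _ _ _ (hχ _ hRD) hM cq _
      (nu w t g) P hF.cq0 (by rw [hsumG]; exact hG1) hGP (hhE _ _ hw2 hmm hsup) le_rfl
      le_rfl).excess ?_ ?_
    · rw [← hy']
      linarith
    · rw [← hy']
      linarith
  · have hsup' : ∀ z, st S (∑ i, sg (σ i) • (1 - X * YY (O i))) (∑ i, sg (e i) • XX (O i)) z ≤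
        Real.sqrt (1 + en2 S U' y') := fun z => (hsup z).trans (by linarith)
    have hmm : μ * (Real.sqrt (1 + en2 S U' y') ^ 2 - 1) ≤ μ * en2 S U' y' := by
      rw [Real.sq_sqrt (by linarith)]
      apply le_of_eq
      ring
    have h6 := mul_nonneg (sub_nonneg.2 hk3) (neg_nonneg.2 hb)
    have h7 := mul_nonneg (sub_nonneg.2 hk4) (neg_nonneg.2 hb)
    refine (MMajE.manyF hS Finset.univ K (by simp) hK0 _ _ _ _ _ _ (hχ _ hRD) hM cq _
      (mo S y') P hF.cq0 (by rw [hsumG, hmoy]) (hb.trans hF.P0) (hhE _ _ hw1 hmm hsup') le_rfl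
      le_rfl).excess ?_ ?_
    · rw [← hy']
      linarith
    · rw [← hy']
      linarith

/-- **three children**, full finite rule -/
theorem GoodE.odF3 {χ : ℝ → ℝ} (hχ : ∀ D, RD D → 0 ≤ χ D) {O1 O2 O3 : OBr}
    {V1 c1 V2 c2 V3 c3 V' c' : ℝ → ℝ → ℝ}
    (h1 : GoodE χ O1 V1 c1) (h2 : GoodE χ O2 V2 c2) (h3 : GoodE χ O3 V3 c3) (e1 e2 e3 : Bool)
    (U y : ℝ → ℝ)
    (hU : ∀ a, (YY O1).eval a + (YY O2).eval a - (YY O3).eval a = U a)
    (hy : ∀ a, sg e1 * (XX O1).eval a + sg e2 * (XX O2).eval a + sg e3 * (XX O3).eval a = y a)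
    (H : ∀ D, RD D → OdF χ D 3 U y (fun a => V1 D a + V2 D a + V3 D a) (V' D) (c' D)) :
    GoodE χ (.mk [cn true e1 O1, cn true e2 O2, cn false e3 O3]) V' c' := by
  rw [← fam3]
  refine GoodE.odF hχ (by norm_num) ![O1, O2, O3] ![true, true, false] ![e1, e2, e3]
    ![V1, V2, V3] ![c1, c2, c3] (fun i => ?_) ?_ U y (fun a => ?_) (fun a => ?_)
    (fun D hD => ?_)
  · fin_cases i
    · exact h1
    · exact h2
    · exact h3
  · simp [Fin.sum_univ_succ, sg_true, sg_false]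
  · rw [← hU a, Fin.sum_univ_three]
    show sg true * (YY O1).eval a + sg true * (YY O2).eval a + sg false * (YY O3).eval a = _
    rw [sg_true, sg_false]
    ring
  · rw [← hy a, Fin.sum_univ_three]
    rfl
  · have h4 := H D hD
    have e4 : (fun a => ∑ i, ![V1, V2, V3] i D a) = fun a => V1 D a + V2 D a + V3 D a := by
      funext a
      rw [Fin.sum_univ_three fun i => ![V1, V2, V3] i D a]
      rfl
    rw [e4]
    exact h4

end

end Pool.Agent.TSM
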