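import Pool.Agent.TSM.Odd

set_option autoImplicit false

/-!
# An odd number of children, sharp form for small `K` (MP_d27362_co)

`∏ (1 - ρ_i + ξ_i) ≤ (1 + u/K)^K`, `u = W - ρ`, and `(1 + u/K)^K ≤ e^m (1 + u + c u²)` with
`c = c_K(1)` close to `(1 + 1/K)^K - 2`. For a large net loss Rule E is used.
-/

namespace Pool.Agent.TSM

open Finset Polynomial
open Pool.Agent.TSP
open Pool.Agent.TSO
open Pool.Agent.TSR (OBr Ker sg_true sg_false vS_nonneg)
open Pool.Agent.TLT (sg)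

noncomputable section

/-- the quadratic form behind the gain side -/
theorem quad_gain {c κ A M ρ W : ℝ} (hM : M = 1 - ρ + κ * ρ ^ 2) (hA : c < A)
    (hd : ((2 * c - 1) + κ * ρ) ^ 2 ≤ 4 * (A - c) * (κ - c)) :
    1 + (W - ρ) + c * (W - ρ) ^ 2 ≤ M * (1 + W) + A * W ^ 2 := by
  have hA' : 0 < A - c := by linarith
  have e : 4 * (A - c) * (M * (1 + W) + A * W ^ 2 - (1 + (W - ρ) + c * (W - ρ) ^ 2)) =
      (2 * (A - c) * W + ρ * ((2 * c - 1) + κ * ρ)) ^ 2 +
      ρ ^ 2 * (4 * (A - c) * (κ - c) - ((2 * c - 1) + κ * ρ) ^ 2) := by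
    rw [hM]; ring
  have h1 : 0 ≤ 4 * (A - c) * (M * (1 + W) + A * W ^ 2 - (1 + (W - ρ) + c * (W - ρ) ^ 2)) := by
    rw [e]
    have : 0 ≤ 4 * (A - c) * (κ - c) - ((2 * c - 1) + κ * ρ) ^ 2 := by linarith
    positivity
  have h2 : 0 ≤ M * (1 + W) + A * W ^ 2 - (1 + (W - ρ) + c * (W - ρ) ^ 2) := by
    by_contra h
    push Not at h
    have := mul_neg_of_pos_of_neg (show 0 < 4 * (A - c) by linarith) h
    linarith
  linarith

/-- the constants of the rule for `K` children -/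
structure KC (D1 P C κ η χ cψ c0 cE r1 : ℝ) (cr : ℝ → ℝ) : Prop where
  hP1 : P < 1
  hη0 : 0 ≤ η
  hη1 : η ≤ 1
  hexp : ∀ ρ, 0 ≤ ρ → ρ ≤ P → 1 - ρ + κ * ρ ^ 2 ≤ Real.exp (-(η * ρ))
  hc00 : cr 0 ≤ c0
  hκ : cr 0 < κ
  hA : ∀ ρ, 0 ≤ ρ → ρ ≤ P → cr 0 < C / 2 * (1 - ρ + κ * ρ ^ 2)
  hd : ∀ ρ, 0 ≤ ρ → ρ ≤ P → ((2 * cr 0 - 1) + κ * ρ) ^ 2 ≤
    4 * (C / 2 * (1 - ρ + κ * ρ ^ 2) - cr 0) * (κ - cr 0)
  hC0 : 2 * c0 ≤ C
  hCE : C ≤ 2 * cE
  hD1 : 0 ≤ D1
  hψ0 : 0 ≤ cψ
  hψχ : cψ ≤ χ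
  hr1 : 0 ≤ r1
  hcr : ∀ r, 0 ≤ r → r ≤ r1 → 1 / 4 ≤ cr r
  hcr0 : ∀ r, 0 ≤ r → r ≤ r1 → cr r ≤ (1 + r) * c0
  hψ : ∀ r, 0 ≤ r → r ≤ r1 →
    Real.log (1 + r) + (1 + χ) * (2 * cr r * r ^ 2 / (1 + r)) ≤ (1 + cψ) * r
  hbig : (2 * cE + χ * (2 * cE - C) - 2 * c0) * D1 ≤ cψ * r1

variable {m : ℕ} {S : Fin m → Fin m → ℝ}

/-- **`K` children, message level, excess form.** `w ≥ 1` bounds the state from above -/
theorem MMajE.manyK (hS : Ker S) {ι : Type} (s : Finset ι) (k : ℕ) (hk : s.card = k)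
    (hk0 : 0 < k) (f : ι → Fin m → ℝ) (x y : ι → ℝ[X]) (G0 b c : ι → ℝ)
    {D1 P C κ η χ cψ c0 cE r1 : ℝ} {cr : ℝ → ℝ} (hK : KC D1 P C κ η χ cψ c0 cE r1 cr)
    (h : ∀ i ∈ s, MMajE S (f i) (x i) (y i) (G0 i) χ (b i) (c i)) (w mm mE G E : ℝ)
    (hsup : ∀ z, st S (∑ i ∈ s, x i) (∑ i ∈ s, y i) z ≤ w)
    (hexK : ∀ r u, 0 ≤ r → r ≤ r1 → u ≤ w + r → 0 ≤ 1 + u / k →
      (1 + u / k) ^ k ≤ Real.exp mm * (1 + u + cr r * u ^ 2))
    (hexE : ∀ u, u ≤ w → Real.exp u ≤ Real.exp mE * (1 + u + cE * u ^ 2)) (hmm : mm ≤ mE)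
    (hG : G ≤ ∑ i ∈ s, G0 i) (hGP : G ≤ P)
    (hE0 : 0 ≤ E) (hE : en S (∑ i ∈ s, x i) (∑ i ∈ s, y i) ≤ D1 + E) {b' c' : ℝ}
    (hb1 : 0 ≤ G → b' ≤ ∑ i ∈ s, b i + η * G - mm -
      C * en S (∑ i ∈ s, x i) (∑ i ∈ s, y i))
    (hb2 : b' ≤ ∑ i ∈ s, b i + G - cψ * (∑ i ∈ s, c i - G) - mE -
      2 * c0 * en S (∑ i ∈ s, x i) (∑ i ∈ s, y i) -
      (2 * cE + χ * (2 * cE - C) - 2 * c0) * E)
    (hc : C * en S (∑ i ∈ s, x i) (∑ i ∈ s, y i) ≤ c') :
    MajE S (fun z => ∏ i ∈ s, f i z) (∑ i ∈ s, x i) (∑ i ∈ s, y i) χ b' c' := by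
  choose! e he h1 using h
  choose! M g hM hg0 hgc hlog hf0 hf using h1
  have hkR : (0 : ℝ) < k := by exact_mod_cast hk0
  set x0 := ∑ i ∈ s, x i with hx0
  set y0 := ∑ i ∈ s, y i with hy0
  set δ := en S x0 y0 with hδd
  have hδ0 : 0 ≤ δ := en_nonneg hS.anti _ _
  set gs := ∑ i ∈ s, g i with hgs
  set es := ∑ i ∈ s, e i with hes
  have hgs0 : 0 ≤ gs := sum_nonneg hg0
  have hes0 : 0 ≤ es := sum_nonneg he
  have hgsc : gs ≤ ∑ i ∈ s, c i + es := by
    rw [hes, ← sum_add_distrib]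
    exact sum_le_sum hgc
  have hlogs : ∑ i ∈ s, Real.log (M i) + gs ≤ - (∑ i ∈ s, b i + χ * es) := by
    rw [hgs, ← sum_add_distrib, hes, mul_sum, ← sum_add_distrib, ← sum_neg_distrib]
    exact sum_le_sum hlog
  have hPp : 0 < ∏ i ∈ s, M i := prod_pos hM
  have hχ0 : 0 ≤ χ := hK.hψ0.trans hK.hψχ
  have hχes : 0 ≤ χ * es := mul_nonneg hχ0 hes0
  set W := st S x0 y0 with hW
  have hmW : mn W = 0 := mn_st S hS.anti _ _
  have hWW : (mn fun z => W z * W z) = δ := by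
    rw [hδd, ← ip_st_self hS.anti]; rfl
  have hcr0' : cr 0 ≤ c0 := hK.hc00
  have hc0p : 1 / 4 ≤ cr 0 := hK.hcr 0 le_rfl hK.hr1
  -- the product
  have ha : ∀ z, ∀ i ∈ s, 0 ≤ 1 + (-(G0 i - g i)) + st S (x i) (y i) z := by
    intro z i hi
    have h1 := (hf0 i hi z).trans (hf i hi z)
    by_contra h
    push Not at h
    have := mul_neg_of_pos_of_neg (hM i hi) (show 1 - (G0 i - g i) + st S (x i) (y i) z < 0 by
      linarith)
    linarith
  have hprod : ∀ z, ∏ i ∈ s, f i z ≤ (∏ i ∈ s, M i) * ∏ i ∈ s, (1 + (-(G0 i - g i)) +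
      st S (x i) (y i) z) := by
    intro z
    rw [← prod_mul_distrib]
    refine prod_le_prod (fun i hi => hf0 i hi z) (fun i hi => (hf i hi z).trans (le_of_eq ?_))
    ring
  have hsumW : ∀ z, ∑ i ∈ s, st S (x i) (y i) z = W z := by
    intro z
    rw [hW, hx0, hy0, st_sum]
    simp
  -- the AM-GM bound
  have hamgm : ∀ z, 0 ≤ 1 + (W z - (G - gs)) / k ∧
      ∏ i ∈ s, (1 + (-(G0 i - g i)) + st S (x i) (y i) z) ≤ (1 + (W z - (G - gs)) / k) ^ k := by
    intro z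
    have h2 := TSO.amgm s (fun i => 1 + (-(G0 i - g i)) + st S (x i) (y i) z) (ha z) k hk hk0
    have hsum : (∑ i ∈ s, (1 + (-(G0 i - g i)) + st S (x i) (y i) z)) / k =
        1 + (W z - (∑ i ∈ s, G0 i - gs)) / k := by
      rw [sum_add_distrib, sum_add_distrib, sum_neg_distrib, sum_sub_distrib, sum_const, hk,
        nsmul_eq_mul, hsumW]
      field_simp
      ring
    have hnn : 0 ≤ 1 + (W z - (∑ i ∈ s, G0 i - gs)) / k := by
      rw [← hsum]
      exact div_nonneg (sum_nonneg (ha z)) hkR.le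
    rw [hsum] at h2
    have hle : 1 + (W z - (∑ i ∈ s, G0 i - gs)) / k ≤ 1 + (W z - (G - gs)) / k := by
      have : (W z - (∑ i ∈ s, G0 i - gs)) / k ≤ (W z - (G - gs)) / k :=
        div_le_div_of_nonneg_right (by linarith) hkR.le
      linarith
    exact ⟨hnn.trans hle, h2.trans (pow_le_pow_left₀ hnn hle k)⟩
  rcases le_total gs G with hρ | hρ
  · -- gain side
    set ρ := G - gs with hρd
    have hρ0 : 0 ≤ ρ := by linarith
    have hρP : ρ ≤ P := by linarith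
    have hG0 : 0 ≤ G := by linarith
    set MM := 1 - ρ + κ * ρ ^ 2 with hMM
    have hκ0 : 0 < κ := by have := hK.hκ; linarith
    have hMM0 : 0 < MM := by
      have : 0 ≤ κ * ρ ^ 2 := by positivity
      have := hK.hP1
      rw [hMM]; linarith
    have hAM := hK.hA ρ hρ0 hρP
    have hdM := hK.hd ρ hρ0 hρP
    rw [← hMM] at hAM hdM
    have hC0 : 0 ≤ C := by have := hK.hC0; linarith
    refine ⟨0, le_rfl, (∏ i ∈ s, M i) * Real.exp mm * MM, fun z => C / 2 * W z ^ 2,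
      by positivity, fun z => by positivity, fun z => ?_, ?_, ?_⟩
    · obtain ⟨hn, hle⟩ := hamgm z
      have h3 := hexK 0 (W z - ρ) le_rfl hK.hr1 (by have := hsup z; linarith) hn
      have h4 := quad_gain (W := W z) hMM hAM hdM
      calc ∏ i ∈ s, f i z ≤ (∏ i ∈ s, M i) *
            (Real.exp mm * (1 + (W z - ρ) + cr 0 * (W z - ρ) ^ 2)) :=
            (hprod z).trans (mul_le_mul_of_nonneg_left (hle.trans h3) hPp.le)
        _ ≤ (∏ i ∈ s, M i) * (Real.exp mm * (MM * (1 + W z) + C / 2 * MM * W z ^ 2)) :=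
            mul_le_mul_of_nonneg_left (mul_le_mul_of_nonneg_left h4 (Real.exp_nonneg _)) hPp.le
        _ = _ := by ring
    · have hmG : 2 * (mn fun z => C / 2 * W z ^ 2) = C * δ := by
        have e1 : (fun z => C / 2 * W z ^ 2) = fun z => C / 2 * (W z * W z) := by
          funext z; ring
        rw [e1, mn_mul, hWW]
        ring
      rw [hmG, Real.log_mul (by positivity) hMM0.ne', Real.log_mul hPp.ne' (by positivity),
        Real.log_prod (fun i hi => (hM i hi).ne'), Real.log_exp]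
      have h5 : Real.log MM ≤ -(η * ρ) := by
        rw [Real.log_le_iff_le_exp hMM0]
        exact hK.hexp ρ hρ0 hρP
      have h6 := hb1 hG0
      have h7 : η * ρ = η * G - η * gs := by rw [hρd]; ring
      have h8 : η * gs ≤ gs := mul_le_of_le_one_left hgs0 hK.hη1
      linarith
    · have hmG : 2 * (mn fun z => C / 2 * W z ^ 2) = C * δ := by
        have e1 : (fun z => C / 2 * W z ^ 2) = fun z => C / 2 * (W z * W z) := by
          funext z; ring
        rw [e1, mn_mul, hWW]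
        ring
      rw [hmG]
      linarith
  · -- loss side
    set r := gs - G with hrd
    have hr : 0 ≤ r := by linarith
    have h1r : 0 < 1 + r := by linarith
    have hrc : r ≤ (∑ i ∈ s, c i - G) + es := by linarith
    have hψr : cψ * r ≤ cψ * (∑ i ∈ s, c i - G) + χ * es := by
      have h3 := mul_le_mul_of_nonneg_left hrc hK.hψ0
      have h4 := mul_le_mul_of_nonneg_right hK.hψχ hes0
      linarith
    have hEE : 0 ≤ (2 * cE + χ * (2 * cE - C) - 2 * c0) := by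
      have h3 := hK.hC0
      have h4 := hK.hCE
      have : 0 ≤ χ * (2 * cE - C) := mul_nonneg hχ0 (by linarith)
      linarith
    rcases le_total r r1 with hr1 | hr1
    · -- small loss: AM-GM
      have hcr := hK.hcr r hr hr1
      have hcrp := hK.hcr0 r hr hr1
      have hψ := hK.hψ r hr hr1
      set cc := cr r with hcc
      have hq : ∀ u : ℝ, 0 ≤ cc * (u + r) ^ 2 - r * u := by
        intro u
        have e : cc * (u + r) ^ 2 - r * u =
            (cc - 1 / 4) * (u + r) ^ 2 + 1 / 4 * (u - r) ^ 2 := by ring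
        rw [e]
        have : 0 ≤ cc - 1 / 4 := by linarith
        positivity
      have hmG : 2 * (mn fun z => (cc * (W z + r) ^ 2 - r * W z) / (1 + r)) =
          2 * cc * δ / (1 + r) + 2 * cc * r ^ 2 / (1 + r) := by
        have e1 : (fun z => (cc * (W z + r) ^ 2 - r * W z) / (1 + r)) = fun z =>
            (1 / (1 + r)) * ((cc * (W z * W z) + (2 * cc * r - r) * W z) + cc * r ^ 2) := by
          funext z
          field_simp
          ring
        rw [e1, mn_mul, mn_add, mn_add, mn_mul, mn_mul, mn_const hS.pos, hWW, hmW]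
        field_simp
        ring
      have hδr : 2 * cc * δ / (1 + r) ≤ 2 * c0 * δ := by
        rw [div_le_iff₀ h1r]
        have := mul_le_mul_of_nonneg_right hcrp hδ0
        nlinarith
      have hrr : 0 ≤ 2 * cc * r ^ 2 / (1 + r) := by positivity
      refine ⟨2 * cc * r ^ 2 / (1 + r), hrr, (∏ i ∈ s, M i) * Real.exp mm * (1 + r),
        fun z => (cc * (W z + r) ^ 2 - r * W z) / (1 + r), by positivity,
        fun z => div_nonneg (hq _) h1r.le, fun z => ?_, ?_, ?_⟩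
      · obtain ⟨hn, hle⟩ := hamgm z
        have e1 : W z - (G - gs) = W z + r := by rw [hrd]; ring
        rw [e1] at hn hle
        have h3 := hexK r (W z + r) hr hr1 (by have := hsup z; linarith) hn
        calc ∏ i ∈ s, f i z ≤ (∏ i ∈ s, M i) *
              (Real.exp mm * (1 + (W z + r) + cc * (W z + r) ^ 2)) :=
              (hprod z).trans (mul_le_mul_of_nonneg_left (hle.trans h3) hPp.le)
          _ = _ := by
              field_simp
              ring
      · rw [hmG, Real.log_mul (by positivity) h1r.ne', Real.log_mul hPp.ne' (by positivity),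
          Real.log_prod (fun i hi => (hM i hi).ne'), Real.log_exp]
        have h3 : 0 ≤ (2 * cE + χ * (2 * cE - C) - 2 * c0) * E := mul_nonneg hEE hE0
        have h4 : (1 + χ) * (2 * cc * r ^ 2 / (1 + r)) =
            2 * cc * r ^ 2 / (1 + r) + χ * (2 * cc * r ^ 2 / (1 + r)) := by ring
        linarith
      · rw [hmG]
        have h3 : 2 * c0 * δ ≤ C * δ := mul_le_mul_of_nonneg_right hK.hC0 hδ0
        linarith
    · -- large loss: Rule E
      have hcE : 0 ≤ cE := by have := hK.hC0; have := hK.hCE; linarith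
      have hCE := hK.hCE
      have hex0 : 0 ≤ (2 * cE - C) * δ := mul_nonneg (by linarith) hδ0
      have hmG : 2 * (mn fun z => cE * W z ^ 2) = 2 * cE * δ := by
        have e1 : (fun z => cE * W z ^ 2) = fun z => cE * (W z * W z) := by
          funext z; ring
        rw [e1, mn_mul, hWW]
        ring
      refine ⟨(2 * cE - C) * δ, hex0, (∏ i ∈ s, M i) * Real.exp (mE + r),
        fun z => cE * W z ^ 2, by positivity, fun z => by positivity, fun z => ?_, ?_, ?_⟩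
      · have h2 := prod_le_exp s (fun i => -(G0 i - g i) + st S (x i) (y i) z)
          (fun i hi => by have := ha z i hi; linarith)
        have e1 : ∑ i ∈ s, (-(G0 i - g i) + st S (x i) (y i) z) =
            -(∑ i ∈ s, G0 i - gs) + W z := by
          rw [sum_add_distrib, sum_neg_distrib, sum_sub_distrib, hsumW]
        rw [e1] at h2
        have e2 : ∏ i ∈ s, (1 + (-(G0 i - g i)) + st S (x i) (y i) z) =
            ∏ i ∈ s, (1 + (-(G0 i - g i) + st S (x i) (y i) z)) :=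
          prod_congr rfl fun i _ => by ring
        have h3 : Real.exp (-(∑ i ∈ s, G0 i - gs) + W z) ≤ Real.exp (r + W z) :=
          Real.exp_le_exp.2 (by linarith)
        have h4 := hexE (W z) (hsup z)
        calc ∏ i ∈ s, f i z ≤ (∏ i ∈ s, M i) * (Real.exp r * Real.exp (W z)) := by
              rw [← Real.exp_add]
              refine (hprod z).trans (mul_le_mul_of_nonneg_left ?_ hPp.le)
              rw [e2]
              exact h2.trans h3
          _ ≤ (∏ i ∈ s, M i) * (Real.exp r * (Real.exp mE * (1 + W z + cE * W z ^ 2))) :=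
              mul_le_mul_of_nonneg_left (mul_le_mul_of_nonneg_left h4 (Real.exp_nonneg _))
                hPp.le
          _ = _ := by rw [Real.exp_add]; ring
      · rw [hmG, Real.log_mul hPp.ne' (by positivity),
          Real.log_prod (fun i hi => (hM i hi).ne'), Real.log_exp]
        have h3 := hK.hbig
        have h4 := mul_le_mul_of_nonneg_left hr1 hK.hψ0
        have h5 := mul_le_mul_of_nonneg_left hE hEE
        have h6 : (2 * cE + χ * (2 * cE - C) - 2 * c0) * δ =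
            2 * cE * δ + χ * ((2 * cE - C) * δ) - 2 * c0 * δ := by ring
        have h7 : (2 * cE + χ * (2 * cE - C) - 2 * c0) * (D1 + E) =
            (2 * cE + χ * (2 * cE - C) - 2 * c0) * D1 +
            (2 * cE + χ * (2 * cE - C) - 2 * c0) * E := by ring
        linarith
      · rw [hmG]
        have : (2 * cE - C) * δ = 2 * cE * δ - C * δ := by ring
        linarith

/-- **an odd number of children** (`Σ σ = 1`), AM-GM for moderate loss, excess form. `hb1` is used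
on the gain side, `hb2p` and `hb2n` on the loss side according to the sign of `∫ y'` -/
theorem GoodE.oddK {χ : ℝ → ℝ} {K : ℕ} (hK0 : 0 < K) (O : Fin K → OBr) (σ e : Fin K → Bool)
    (V c : Fin K → ℝ → ℝ → ℝ) (h : ∀ i, GoodE χ (O i) (V i) (c i)) (hτ : ∑ i, sg (σ i) = 1)
    (D1 rr C κ η cψ r1 : ℝ → ℝ) (c0 cE μ μE R1 : ℝ) (cr : ℝ → ℝ)
    (hKC : ∀ D, RD D → KC (D1 D) (rr D * D) (C D) (κ D) (η D) (χ D) (cψ D) c0 cE (r1 D) cr)
    (hR1 : ∀ D, RD D → r1 D ≤ R1) (hDD : ∀ D, RD D → D ≤ D1 D) (hμ : 0 ≤ μ) (hμE : μ ≤ μE)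
    (hexK : ∀ r u w : ℝ, 0 ≤ r → r ≤ R1 → 1 ≤ w → u ≤ w + r → 0 ≤ 1 + u / K →
      (1 + u / K) ^ K ≤ Real.exp (μ * (w ^ 2 - 1)) * (1 + u + cr r * u ^ 2))
    (hexE : ∀ u w : ℝ, 1 ≤ w → u ≤ w →
      Real.exp u ≤ Real.exp (μE * (w ^ 2 - 1)) * (1 + u + cE * u ^ 2))
    (l : ℝ → ℝ) (hl : ∀ D, RD D → 0 < l D) (g q Ex : ℝ → ℝ → ℝ)
    (hg : ∀ D, RD D → ILe D (g D) (fun a => ∑ i, sg (e i) * (XX (O i)).eval a))
    (hgr : ∀ D, RD D → ILe D (g D) (fun _ => rr D))
    (hq : ∀ D, RD D → ILe D (fun a => (1 - a * ∑ i, sg (σ i) * (YY (O i)).eval a) ^ 2 +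
      a * (∑ i, sg (e i) * (XX (O i)).eval a) ^ 2) (q D))
    (hE0 : ∀ D, RD D → ILe D (fun _ => 0) (Ex D))
    (hE : ∀ D, RD D → ILe D (fun a => (1 - a * ∑ i, sg (σ i) * (YY (O i)).eval a) ^ 2 +
      a * (∑ i, sg (e i) * (XX (O i)).eval a) ^ 2) (fun a => 1 + Ex D a))
    {V' c' : ℝ → ℝ → ℝ}
    (hb1 : ∀ D, RD D → ILe D (V' D) (fun a => ∑ i, V i D a + η D * g D a -
      2 * μ * (∑ i, sg (e i) * (XX (O i)).eval a) -
      μ * ((1 + l D) + (1 + 1 / l D) * D) * ((∑ i, sg (e i) * (XX (O i)).eval a) ^ 2 +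
        a * (∑ i, sg (σ i) * (YY (O i)).eval a) ^ 2) - C D * q D a))
    (hb2p : ∀ D, RD D → ILe D (V' D) (fun a => ∑ i, V i D a + g D a -
      cψ D * (∑ i, c i D a - g D a) - 2 * μE * (∑ i, sg (e i) * (XX (O i)).eval a) -
      μE * ((1 + l D) + (1 + 1 / l D) * D) * ((∑ i, sg (e i) * (XX (O i)).eval a) ^ 2 +
        a * (∑ i, sg (σ i) * (YY (O i)).eval a) ^ 2) - 2 * c0 * q D a -
      (2 * cE + χ D * (2 * cE - C D) - 2 * c0) * Ex D a))
    (hb2n : ∀ D, RD D → ILe D (V' D) (fun a => ∑ i, V i D a + g D a -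
      cψ D * (∑ i, c i D a - g D a) -
      μE * ((∑ i, sg (e i) * (XX (O i)).eval a) ^ 2 +
        a * (∑ i, sg (σ i) * (YY (O i)).eval a) ^ 2) - 2 * c0 * q D a -
      (2 * cE + χ D * (2 * cE - C D) - 2 * c0) * Ex D a))
    (hc : ∀ D, RD D → ILe D (fun a => C D * q D a) (c' D)) :
    GoodE χ (fam σ e O) V' c' := by
  intro m S hS w t hR
  have hRD : RD (dee S) := ⟨hR.dee_nonneg, hR.dee_le⟩
  have hM : ∀ i ∈ (Finset.univ : Finset (Fin K)), MMajE S (ms S (cn (σ i) (e i) (O i)))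
      (sg (σ i) • (1 - X * YY (O i))) (sg (e i) • XX (O i))
      (nu w t fun a => sg (e i) * (XX (O i)).eval a) (χ (dee S)) (nu w t (V i (dee S)))
      (nu w t (c i (dee S))) := fun i _ => (h i).msg (σ i) (e i) hS hR
  have hK := hKC _ hRD
  rw [fam_vS, fam_XX, fam_YY]
  set U' := ∑ i, sg (σ i) • YY (O i) with hU'
  set y' := ∑ i, sg (e i) • XX (O i) with hy'
  have hx' : ∑ i, sg (σ i) • (1 - X * YY (O i)) = Polynomial.C 1 - X * U' := by
    have h1 : ∀ i : Fin K, sg (σ i) • (1 - X * YY (O i)) =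
        Polynomial.C (sg (σ i)) - X * (sg (σ i) • YY (O i)) := by
      intro i
      rw [smul_sub, smul_eq_C_mul, mul_one, mul_smul_comm]
    rw [Finset.sum_congr rfl fun i _ => h1 i, Finset.sum_sub_distrib, ← Finset.mul_sum,
      ← map_sum, hτ]
  have hUe : ∀ a, U'.eval a = ∑ i, sg (σ i) * (YY (O i)).eval a := by
    intro a
    rw [hU', eval_finsetSum]
    exact Finset.sum_congr rfl fun i _ => by rw [eval_smul, smul_eq_mul]
  have hye : ∀ a, y'.eval a = ∑ i, sg (e i) * (XX (O i)).eval a := by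
    intro a
    rw [hy', eval_finsetSum]
    exact Finset.sum_congr rfl fun i _ => by rw [eval_smul, smul_eq_mul]
  have hen : en S (∑ i, sg (σ i) • (1 - X * YY (O i))) y' =
      nu w t fun a => (1 - a * U'.eval a) ^ 2 + a * y'.eval a ^ 2 := by
    rw [hx', hR.en_nu]
    congr 1
    funext a
    simp only [eval_sub, eval_C, eval_mul, eval_X]
  have hen2 : en2 S U' y' = nu w t fun a => y'.eval a ^ 2 + a * U'.eval a ^ 2 := by
    unfold en2
    rw [hR.mo_nu]
    congr 1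
    funext a
    simp only [eval_add, eval_mul, eval_X]
    ring
  have hen2' : (nu w t fun a => (∑ i, sg (e i) * (XX (O i)).eval a) ^ 2 +
      a * (∑ i, sg (σ i) * (YY (O i)).eval a) ^ 2) = en2 S U' y' := by
    rw [hen2]
    simp only [hUe, hye]
  have hmoy : (nu w t fun a => ∑ i, sg (e i) * (XX (O i)).eval a) = mo S y' := by
    rw [hR.mo_nu]
    congr 1
    funext a
    exact (hye a).symm
  have hsumG : ∑ i, (nu w t fun a => sg (e i) * (XX (O i)).eval a) = mo S y' := by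
    rw [← hmoy, nu_finset_sum]
  set ψ := (1 + l (dee S)) + (1 + 1 / l (dee S)) * dee S with hψ
  have hlD := hl _ hRD
  have hk0 := en2_nonneg (S := S) hS.anti U' y'
  have hbD := mo_sq_le_en2 hS U' y'
  have hw1 : 1 ≤ Real.sqrt (1 + en2 S U' y') := by
    rw [Real.one_le_sqrt]
    linarith
  have hψ1 : 1 ≤ ψ := by
    have h3 : 0 ≤ (1 + 1 / l (dee S)) * dee S := mul_nonneg (by positivity) hR.dee_nonneg
    rw [hψ]
    linarith
  -- the integrated hypotheses
  have hG1 : nu w t (g (dee S)) ≤ ∑ i, (nu w t fun a => sg (e i) * (XX (O i)).eval a) := by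
    rw [hsumG, ← hmoy]
    exact hg _ hRD m S hS w t hR rfl
  have hGP : nu w t (g (dee S)) ≤ rr (dee S) * dee S := by
    have := hgr _ hRD m S hS w t hR rfl
    rwa [hR.nu_const] at this
  have hq' : en S (∑ i, sg (σ i) • (1 - X * YY (O i))) y' ≤ nu w t (q (dee S)) := by
    rw [hen]
    simp only [hUe, hye]
    exact hq _ hRD m S hS w t hR rfl
  have hE0' : 0 ≤ nu w t (Ex (dee S)) := by
    have := hE0 _ hRD m S hS w t hR rfl
    rwa [nu_zero] at this
  have hE' : en S (∑ i, sg (σ i) • (1 - X * YY (O i))) y' ≤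
      D1 (dee S) + nu w t (Ex (dee S)) := by
    have h1 := hE _ hRD m S hS w t hR rfl
    have h1' : (nu w t fun a => 1 + Ex (dee S) a) = dee S + nu w t (Ex (dee S)) := by
      rw [nu_add, hR.nu_const, one_mul]
    rw [h1'] at h1
    rw [hen]
    simp only [hUe, hye]
    linarith [hDD _ hRD]
  have hc0p : 1 / 4 ≤ cr 0 := hK.hcr 0 le_rfl hK.hr1
  have hc00 := hK.hc00
  have hCC : 0 ≤ C (dee S) := by
    have := hK.hC0
    linarith
  have hCq := mul_le_mul_of_nonneg_left hq' hCC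
  have hc0q := mul_le_mul_of_nonneg_left hq' (show 0 ≤ 2 * c0 by linarith)
  have hcost : C (dee S) * en S (∑ i, sg (σ i) • (1 - X * YY (O i))) y' ≤ nu w t (c' (dee S)) := by
    have h1 := hc _ hRD m S hS w t hR rfl
    rw [nu_mul] at h1
    exact hCq.trans h1
  have hb1' := hb1 _ hRD m S hS w t hR rfl
  rw [nu_sub, nu_sub, nu_sub, nu_add, nu_finset_sum, nu_mul, nu_mul, nu_mul, nu_mul, hmoy,
    hen2', ← hψ] at hb1'
  have hcsum : (nu w t fun a => ∑ i, c i (dee S) a - g (dee S) a) =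
      ∑ i, nu w t (c i (dee S)) - nu w t (g (dee S)) := by
    rw [nu_sub, nu_finset_sum]
  have hb2p' := hb2p _ hRD m S hS w t hR rfl
  rw [nu_sub, nu_sub, nu_sub, nu_sub, nu_sub, nu_add, nu_finset_sum, nu_mul, nu_mul, nu_mul,
    nu_mul, nu_mul, hmoy, hen2', hcsum, ← hψ] at hb2p'
  have hb2n' := hb2n _ hRD m S hS w t hR rfl
  rw [nu_sub, nu_sub, nu_sub, nu_sub, nu_add, nu_finset_sum, nu_mul, nu_mul, nu_mul,
    nu_mul, hen2', hcsum] at hb2n'
  -- the two real inequalities with a larger exponent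
  have hquad : ∀ r u : ℝ, 0 ≤ r → r ≤ r1 (dee S) → 0 ≤ 1 + u + cr r * u ^ 2 := by
    intro r u h0 h1
    have h2 := mul_le_mul_of_nonneg_right (hK.hcr r h0 h1) (sq_nonneg u)
    nlinarith [sq_nonneg (u + 2)]
  have hcE4 : 1 / 4 ≤ cE := by
    have h1 := hK.hC0
    have h2 := hK.hCE
    linarith
  have hquadE : ∀ u : ℝ, 0 ≤ 1 + u + cE * u ^ 2 := by
    intro u
    have h2 := mul_le_mul_of_nonneg_right hcE4 (sq_nonneg u)
    nlinarith [sq_nonneg (u + 2)]
  have hexK' : ∀ w1 mm : ℝ, 1 ≤ w1 → μ * (w1 ^ 2 - 1) ≤ mm → ∀ r u, 0 ≤ r →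
      r ≤ r1 (dee S) → u ≤ w1 + r → 0 ≤ 1 + u / (K : ℝ) →
      (1 + u / (K : ℝ)) ^ K ≤ Real.exp mm * (1 + u + cr r * u ^ 2) := by
    intro w1 mm h1 h2 r u h3 h4 h5 h6
    refine (hexK r u w1 h3 (h4.trans (hR1 _ hRD)) h1 h5 h6).trans ?_
    exact mul_le_mul_of_nonneg_right (Real.exp_le_exp.2 h2) (hquad r u h3 h4)
  have hexE' : ∀ w1 mm : ℝ, 1 ≤ w1 → μE * (w1 ^ 2 - 1) ≤ mm → ∀ u, u ≤ w1 →
      Real.exp u ≤ Real.exp mm * (1 + u + cE * u ^ 2) := by
    intro w1 mm h1 h2 u h5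
    refine (hexE u w1 h1 h5).trans ?_
    exact mul_le_mul_of_nonneg_right (Real.exp_le_exp.2 h2) (hquadE u)
  have hμE0 : 0 ≤ μE := hμ.trans hμE
  rcases le_total 0 (mo S y') with hb | hb
  · have hso := sup_odd hk0 hb hbD hlD
    rw [← hψ] at hso
    have hw2 : 1 ≤ Real.sqrt (1 + en2 S U' y') + mo S y' := by linarith
    refine MMajE.manyK hS Finset.univ K (by simp) hK0 _ _ _ _ _ _ hK hM
      (Real.sqrt (1 + en2 S U' y') + mo S y') (μ * (2 * mo S y' + ψ * en2 S U' y'))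
      (μE * (2 * mo S y' + ψ * en2 S U' y')) (nu w t (g (dee S))) (nu w t (Ex (dee S)))
      ?_ (hexK' _ _ hw2 (mul_le_mul_of_nonneg_left hso hμ))
      (hexE' _ _ hw2 (mul_le_mul_of_nonneg_left hso hμE0)) ?_ hG1 hGP hE0' hE' ?_ ?_ hcost
    · intro z
      rw [hx', ← hy']
      have h1 := st_sup hS 1 U' y' z
      rwa [show (1 : ℝ) ^ 2 + en2 S U' y' = 1 + en2 S U' y' by ring] at h1
    · apply mul_le_mul_of_nonneg_right hμE
      have : 0 ≤ ψ * en2 S U' y' := mul_nonneg (by linarith) hk0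
      linarith
    · intro _
      linarith
    · linarith
  · refine MMajE.manyK hS Finset.univ K (by simp) hK0 _ _ _ _ _ _ hK hM
      (Real.sqrt (1 + en2 S U' y')) (μ * en2 S U' y') (μE * en2 S U' y')
      (nu w t (g (dee S))) (nu w t (Ex (dee S)))
      ?_ (hexK' _ _ hw1 ?_) (hexE' _ _ hw1 ?_) ?_ hG1 hGP hE0' hE' ?_ ?_ hcost
    · intro z
      rw [hx', ← hy']
      have h1 := st_sup hS 1 U' y' z
      rw [show (1 : ℝ) ^ 2 + en2 S U' y' = 1 + en2 S U' y' by ring] at h1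
      linarith
    · rw [Real.sq_sqrt (by linarith)]
      apply le_of_eq
      ring
    · rw [Real.sq_sqrt (by linarith)]
      apply le_of_eq
      ring
    · exact mul_le_mul_of_nonneg_right hμE hk0
    · intro hG0
      rw [hsumG] at hG1
      have h0 : mo S y' = 0 := le_antisymm hb (hG0.trans hG1)
      rw [h0] at hb1'
      have h2 : μ * (1 * en2 S U' y') ≤ μ * (ψ * en2 S U' y') :=
        mul_le_mul_of_nonneg_left (mul_le_mul_of_nonneg_right hψ1 hk0) hμ
      linarith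
    · linarith

end

end Pool.Agent.TSM
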