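import Pool.Agent.TSM.Odd

set_option autoImplicit false

/-!
# Real inequalities for the rule with three or five children (MP_d27362_co)

`(1 + u/K)^K ≤ e^{μ (w² - 1)} (1 + u + c_K(1 + r) u²)` for `u ≤ w + r`, `w ≥ 1`, `0 ≤ r ≤ 1`.
-/

namespace Pool.Agent.TSM

noncomputable section

/-- `c_3(1 + r)` -/
def cr3 (r : ℝ) : ℝ := 1 / 3 + (1 + r) / 27

/-- `c_5(1 + r)` -/
def cr5 (r : ℝ) : ℝ :=
  2 / 5 + 2 / 25 * (1 + r) + 1 / 125 * (1 + r) ^ 2 + 1 / 3125 * (1 + r) ^ 3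

theorem poly3 (p r q : ℝ) (hp : 0 ≤ p) (hr : 0 ≤ r) (hq : 0 ≤ q) (hrq : q = 1 - r) :
    1 / 27 * (1 + p + r) ^ 2 ≤
      1 / 58 * (2 + p) * (1 + (1 + p + r) + cr3 r * (1 + p + r) ^ 2) := by
  have h : 0 ≤ 35 / 783 * q ^ 3 + 95 / 783 * r * q ^ 2 + 68 / 783 * r ^ 2 * q + 1 / 87 * r ^ 3 +
      7 / 261 * p * q ^ 3 + 17 / 261 * p * r * q ^ 2 + 47 / 783 * p * r ^ 2 * q +
      35 / 1566 * p * r ^ 3 + 1 / 174 * p ^ 2 * q ^ 3 + 17 / 522 * p ^ 2 * r * q ^ 2 +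
      77 / 1566 * p ^ 2 * r ^ 2 * q + 35 / 1566 * p ^ 2 * r ^ 3 + 5 / 783 * p ^ 3 * q ^ 3 +
      31 / 1566 * p ^ 3 * r * q ^ 2 + 16 / 783 * p ^ 3 * r ^ 2 * q + 11 / 1566 * p ^ 3 * r ^ 3 := by
    positivity
  have e : 35 / 783 * q ^ 3 + 95 / 783 * r * q ^ 2 + 68 / 783 * r ^ 2 * q + 1 / 87 * r ^ 3 +
      7 / 261 * p * q ^ 3 + 17 / 261 * p * r * q ^ 2 + 47 / 783 * p * r ^ 2 * q +
      35 / 1566 * p * r ^ 3 + 1 / 174 * p ^ 2 * q ^ 3 + 17 / 522 * p ^ 2 * r * q ^ 2 +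
      77 / 1566 * p ^ 2 * r ^ 2 * q + 35 / 1566 * p ^ 2 * r ^ 3 + 5 / 783 * p ^ 3 * q ^ 3 +
      31 / 1566 * p ^ 3 * r * q ^ 2 + 16 / 783 * p ^ 3 * r ^ 2 * q + 11 / 1566 * p ^ 3 * r ^ 3 =
      1 / 58 * (2 + p) * (1 + (1 + p + r) + cr3 r * (1 + p + r) ^ 2) -
      1 / 27 * (1 + p + r) ^ 2 := by
    rw [hrq, cr3]
    ring
  rw [e] at h
  linarith

theorem poly5 (p r q : ℝ) (hp : 0 ≤ p) (hr : 0 ≤ r) (hq : 0 ≤ q) (hrq : q = 1 - r) :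
    (2 / 25 + (1 + p + r + (1 + r)) / 125 +
      ((1 + p + r) ^ 2 + (1 + p + r) * (1 + r) + (1 + r) ^ 2) / 3125) * (1 + p + r) ^ 2 ≤
      11 / 250 * (2 + p) * (1 + 11 / 250 * ((1 + p) ^ 2 - 1) / 2) *
        (1 + (1 + p + r) + cr5 r * (1 + p + r) ^ 2) := by
  have h : 0 ≤ 47661 / 390625 * q ^ 5 + 45367 / 78125 * r * q ^ 4 + 80448 / 78125 * r ^ 2 * q ^ 3 +
      63706 / 78125 * r ^ 3 * q ^ 2 + 19866 / 78125 * r ^ 4 * q + 3877 / 390625 * r ^ 5 +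
      4403573 / 48828125 * p * q ^ 5 + 3950806 / 9765625 * p * r * q ^ 4 +
      7026264 / 9765625 * p * r ^ 2 * q ^ 3 + 6222783 / 9765625 * p * r ^ 3 * q ^ 2 +
      2771463 / 9765625 * p * r ^ 4 * q + 2525011 / 48828125 * p * r ^ 5 +
      1564094 / 48828125 * p ^ 2 * q ^ 5 + 9490319 / 48828125 * p ^ 2 * r * q ^ 4 +
      22828442 / 48828125 * p ^ 2 * r ^ 2 * q ^ 3 + 27250891 / 48828125 * p ^ 2 * r ^ 3 * q ^ 2 +
      16160573 / 48828125 * p ^ 2 * r ^ 4 * q + 7623919 / 97656250 * p ^ 2 * r ^ 5 +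
      2328037 / 97656250 * p ^ 3 * q ^ 5 + 12575861 / 97656250 * p ^ 3 * r * q ^ 4 +
      13605202 / 48828125 * p ^ 3 * r ^ 2 * q ^ 3 + 2947582 / 9765625 * p ^ 3 * r ^ 3 * q ^ 2 +
      31969673 / 195312500 * p ^ 3 * r ^ 4 * q + 13886507 / 390625000 * p ^ 3 * r ^ 5 +
      1361001 / 390625000 * p ^ 4 * q ^ 5 + 295771 / 15625000 * p ^ 4 * r * q ^ 4 +
      2007593 / 48828125 * p ^ 4 * r ^ 2 * q ^ 3 + 8717047 / 195312500 * p ^ 4 * r ^ 3 * q ^ 2 +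
      9458293 / 390625000 * p ^ 4 * r ^ 4 * q + 2051669 / 390625000 * p ^ 4 * r ^ 5 +
      92323 / 195312500 * p ^ 5 * q ^ 5 + 959893 / 390625000 * p ^ 5 * r * q ^ 4 +
      3993 / 781250 * p ^ 5 * r ^ 2 * q ^ 3 + 2076723 / 390625000 * p ^ 5 * r ^ 3 * q ^ 2 +
      135036 / 48828125 * p ^ 5 * r ^ 4 * q + 112409 / 195312500 * p ^ 5 * r ^ 5 := by
    positivity
  have e : 47661 / 390625 * q ^ 5 + 45367 / 78125 * r * q ^ 4 + 80448 / 78125 * r ^ 2 * q ^ 3 +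
      63706 / 78125 * r ^ 3 * q ^ 2 + 19866 / 78125 * r ^ 4 * q + 3877 / 390625 * r ^ 5 +
      4403573 / 48828125 * p * q ^ 5 + 3950806 / 9765625 * p * r * q ^ 4 +
      7026264 / 9765625 * p * r ^ 2 * q ^ 3 + 6222783 / 9765625 * p * r ^ 3 * q ^ 2 +
      2771463 / 9765625 * p * r ^ 4 * q + 2525011 / 48828125 * p * r ^ 5 +
      1564094 / 48828125 * p ^ 2 * q ^ 5 + 9490319 / 48828125 * p ^ 2 * r * q ^ 4 +
      22828442 / 48828125 * p ^ 2 * r ^ 2 * q ^ 3 + 27250891 / 48828125 * p ^ 2 * r ^ 3 * q ^ 2 +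
      16160573 / 48828125 * p ^ 2 * r ^ 4 * q + 7623919 / 97656250 * p ^ 2 * r ^ 5 +
      2328037 / 97656250 * p ^ 3 * q ^ 5 + 12575861 / 97656250 * p ^ 3 * r * q ^ 4 +
      13605202 / 48828125 * p ^ 3 * r ^ 2 * q ^ 3 + 2947582 / 9765625 * p ^ 3 * r ^ 3 * q ^ 2 +
      31969673 / 195312500 * p ^ 3 * r ^ 4 * q + 13886507 / 390625000 * p ^ 3 * r ^ 5 +
      1361001 / 390625000 * p ^ 4 * q ^ 5 + 295771 / 15625000 * p ^ 4 * r * q ^ 4 +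
      2007593 / 48828125 * p ^ 4 * r ^ 2 * q ^ 3 + 8717047 / 195312500 * p ^ 4 * r ^ 3 * q ^ 2 +
      9458293 / 390625000 * p ^ 4 * r ^ 4 * q + 2051669 / 390625000 * p ^ 4 * r ^ 5 +
      92323 / 195312500 * p ^ 5 * q ^ 5 + 959893 / 390625000 * p ^ 5 * r * q ^ 4 +
      3993 / 781250 * p ^ 5 * r ^ 2 * q ^ 3 + 2076723 / 390625000 * p ^ 5 * r ^ 3 * q ^ 2 +
      135036 / 48828125 * p ^ 5 * r ^ 4 * q + 112409 / 195312500 * p ^ 5 * r ^ 5 =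
      11 / 250 * (2 + p) * (1 + 11 / 250 * ((1 + p) ^ 2 - 1) / 2) *
        (1 + (1 + p + r) + cr5 r * (1 + p + r) ^ 2) -
      (2 / 25 + (1 + p + r + (1 + r)) / 125 +
      ((1 + p + r) ^ 2 + (1 + p + r) * (1 + r) + (1 + r) ^ 2) / 3125) * (1 + p + r) ^ 2 := by
    rw [hrq, cr5]
    ring
  rw [e] at h
  linarith

theorem cr3_pos (r : ℝ) (hr : 0 ≤ r) : 1 / 3 ≤ cr3 r := by
  unfold cr3
  linarith

theorem cr5_pos (r : ℝ) (hr : 0 ≤ r) : 2 / 5 ≤ cr5 r := by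
  unfold cr5
  have h1 : 0 ≤ 1 / 125 * (1 + r) ^ 2 := by positivity
  have h2 : 0 ≤ 1 / 3125 * (1 + r) ^ 3 := by positivity
  linarith

/-- **three children** -/
theorem pow_three_le (r u w : ℝ) (hr : 0 ≤ r) (hr1 : r ≤ 1) (hw : 1 ≤ w) (huw : u ≤ w + r)
    (_hu : 0 ≤ 1 + u / ((3 : ℕ) : ℝ)) :
    (1 + u / ((3 : ℕ) : ℝ)) ^ 3 ≤
      Real.exp (1 / 58 * (w ^ 2 - 1)) * (1 + u + cr3 r * u ^ 2) := by
  have hc := cr3_pos r hr
  have hpos : 0 ≤ 1 + u + cr3 r * u ^ 2 := by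
    have := mul_le_mul_of_nonneg_right hc (sq_nonneg u)
    nlinarith [sq_nonneg (u + 3 / 2)]
  have hE : 1 ≤ Real.exp (1 / 58 * (w ^ 2 - 1)) :=
    Real.one_le_exp (mul_nonneg (by norm_num) (by nlinarith))
  have e0 : (1 + u / ((3 : ℕ) : ℝ)) ^ 3 = 1 + u + 1 / 3 * u ^ 2 + 1 / 27 * u ^ 2 * u := by
    push_cast
    ring
  rw [e0]
  rcases le_total u (1 + r) with h1 | h1
  · have h2 : 1 / 27 * u ^ 2 * u ≤ 1 / 27 * u ^ 2 * (1 + r) :=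
      mul_le_mul_of_nonneg_left h1 (by positivity)
    have h3 : 1 + u + 1 / 3 * u ^ 2 + 1 / 27 * u ^ 2 * u ≤ 1 * (1 + u + cr3 r * u ^ 2) := by
      unfold cr3
      nlinarith
    exact h3.trans (mul_le_mul_of_nonneg_right hE hpos)
  · set p := u - r - 1 with hp
    have hp0 : 0 ≤ p := by linarith
    have hpoly := poly3 p r (1 - r) hp0 hr (by linarith) rfl
    have hu : u = 1 + p + r := by rw [hp]; ring
    rw [← hu] at hpoly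
    have h2 : (1 + p) ^ 2 ≤ w ^ 2 := pow_le_pow_left₀ (by linarith) (by linarith) 2
    have h3 : 1 + 1 / 58 * ((1 + p) ^ 2 - 1) ≤ Real.exp (1 / 58 * (w ^ 2 - 1)) := by
      have h4 := Real.add_one_le_exp (1 / 58 * (w ^ 2 - 1))
      linarith
    have h5 := mul_le_mul_of_nonneg_right h3 hpos
    refine le_trans ?_ h5
    have h6 := mul_le_mul_of_nonneg_left hpoly hp0
    have h7 : (1 + 1 / 58 * ((1 + p) ^ 2 - 1)) * (1 + u + cr3 r * u ^ 2) -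
        (1 + u + 1 / 3 * u ^ 2 + 1 / 27 * u ^ 2 * u) =
        p * (1 / 58 * (2 + p) * (1 + u + cr3 r * u ^ 2)) - p * (1 / 27 * u ^ 2) := by
      rw [hu, cr3]
      ring
    linarith

/-- **five children** -/
theorem pow_five_le (r u w : ℝ) (hr : 0 ≤ r) (hr1 : r ≤ 1) (hw : 1 ≤ w) (huw : u ≤ w + r)
    (hu5 : 0 ≤ 1 + u / ((5 : ℕ) : ℝ)) :
    (1 + u / ((5 : ℕ) : ℝ)) ^ 5 ≤
      Real.exp (11 / 250 * (w ^ 2 - 1)) * (1 + u + cr5 r * u ^ 2) := by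
  have hc := cr5_pos r hr
  have hpos : 0 ≤ 1 + u + cr5 r * u ^ 2 := by
    have := mul_le_mul_of_nonneg_right hc (sq_nonneg u)
    nlinarith [sq_nonneg (u + 5 / 4)]
  have hE : 1 ≤ Real.exp (11 / 250 * (w ^ 2 - 1)) :=
    Real.one_le_exp (mul_nonneg (by norm_num) (by nlinarith))
  have hu50 : -5 ≤ u := by
    push_cast at hu5
    linarith
  have e0 : (1 + u / ((5 : ℕ) : ℝ)) ^ 5 = 1 + u + 2 / 5 * u ^ 2 +
      u ^ 2 * (2 / 25 * u + 1 / 125 * u ^ 2 + 1 / 3125 * u ^ 3) := by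
    push_cast
    ring
  rw [e0]
  rcases le_total u (1 + r) with h1 | h1
  · have h2 : 2 / 25 * u + 1 / 125 * u ^ 2 + 1 / 3125 * u ^ 3 ≤
        2 / 25 * (1 + r) + 1 / 125 * (1 + r) ^ 2 + 1 / 3125 * (1 + r) ^ 3 := by
      have e1 : 2 / 25 * (1 + r) + 1 / 125 * (1 + r) ^ 2 + 1 / 3125 * (1 + r) ^ 3 -
          (2 / 25 * u + 1 / 125 * u ^ 2 + 1 / 3125 * u ^ 3) =
          (1 + r - u) * (2 / 25 + 1 / 125 * (u + (1 + r)) +
            1 / 3125 * ((u + (1 + r) / 2) ^ 2 + 3 / 4 * (1 + r) ^ 2)) := by ring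
      have h3 : 0 ≤ 2 / 25 + 1 / 125 * (u + (1 + r)) +
            1 / 3125 * ((u + (1 + r) / 2) ^ 2 + 3 / 4 * (1 + r) ^ 2) := by
        have : 0 ≤ 1 / 3125 * ((u + (1 + r) / 2) ^ 2 + 3 / 4 * (1 + r) ^ 2) := by positivity
        linarith
      have := mul_nonneg (sub_nonneg.2 h1) h3
      linarith
    have h4 := mul_le_mul_of_nonneg_left h2 (sq_nonneg u)
    have h3 : 1 + u + 2 / 5 * u ^ 2 + u ^ 2 * (2 / 25 * u + 1 / 125 * u ^ 2 + 1 / 3125 * u ^ 3) ≤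
        1 * (1 + u + cr5 r * u ^ 2) := by
      unfold cr5
      nlinarith
    exact h3.trans (mul_le_mul_of_nonneg_right hE hpos)
  · set p := u - r - 1 with hp
    have hp0 : 0 ≤ p := by linarith
    have hpoly := poly5 p r (1 - r) hp0 hr (by linarith) rfl
    have hu : u = 1 + p + r := by rw [hp]; ring
    rw [← hu] at hpoly
    have h2 : (1 + p) ^ 2 ≤ w ^ 2 := pow_le_pow_left₀ (by linarith) (by linarith) 2
    have h21 : 0 ≤ 11 / 250 * ((1 + p) ^ 2 - 1) := mul_nonneg (by norm_num) (by nlinarith)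
    have h3 : 1 + 11 / 250 * ((1 + p) ^ 2 - 1) + (11 / 250 * ((1 + p) ^ 2 - 1)) ^ 2 / 2 ≤
        Real.exp (11 / 250 * (w ^ 2 - 1)) := by
      refine (Real.quadratic_le_exp_of_nonneg h21).trans (Real.exp_le_exp.2 ?_)
      linarith
    have h5 := mul_le_mul_of_nonneg_right h3 hpos
    refine le_trans ?_ h5
    have h6 := mul_le_mul_of_nonneg_left hpoly hp0
    have h7 : (1 + 11 / 250 * ((1 + p) ^ 2 - 1) + (11 / 250 * ((1 + p) ^ 2 - 1)) ^ 2 / 2) *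
        (1 + u + cr5 r * u ^ 2) -
        (1 + u + 2 / 5 * u ^ 2 + u ^ 2 * (2 / 25 * u + 1 / 125 * u ^ 2 + 1 / 3125 * u ^ 3)) =
        p * (11 / 250 * (2 + p) * (1 + 11 / 250 * ((1 + p) ^ 2 - 1) / 2) *
          (1 + u + cr5 r * u ^ 2)) -
        p * ((2 / 25 + (u + (1 + r)) / 125 +
          (u ^ 2 + u * (1 + r) + (1 + r) ^ 2) / 3125) * u ^ 2) := by
      rw [hu, cr5]
      ring
    linarith

end

end Pool.Agent.TSM
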