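import Pool.Agent.TSM.OddFC

set_option autoImplicit false

/-!
# Three children without gain: the constants of the lines `∫ y ≥ 0` (MP_d27362_co, helper2)

`(1 + u/K)^K ≤ e^{μ (w² - 1)} (1 + u + c u²)` for `u ≤ w`, `w ≥ 1` (the gain is `0`), `c < 1/2`.
-/

namespace Pool.Agent.TSM

noncomputable section

/-- the constants of the finite rule for an odd number `K` of children without gain -/
structure ExpZ (K : ℕ) (cq μ : ℝ) : Prop where
  cq0 : 0 ≤ cq
  mu0 : 0 ≤ μ
  quad : ∀ u : ℝ, 0 ≤ 1 + u + cq * u ^ 2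
  hexp : ∀ u w : ℝ, 1 ≤ w → u ≤ w → 0 ≤ 1 + u / K →
    (1 + u / K) ^ K ≤ Real.exp (μ * (w ^ 2 - 1)) * (1 + u + cq * u ^ 2)

/-- reduction to two inequalities in one variable -/
theorem ExpZ.of {K : ℕ} {cq μ : ℝ} (hμ : 0 ≤ μ) (hcq : 1 / 4 ≤ cq)
    (h2 : ∀ u : ℝ, u ≤ 1 → 0 ≤ 1 + u / K → (1 + u / K) ^ K ≤ 1 + u + cq * u ^ 2)
    (h3 : ∀ u, 1 ≤ u → (1 + u / K) ^ K ≤
      Real.exp (μ * (u ^ 2 - 1)) * (1 + u + cq * u ^ 2)) : ExpZ K cq μ := by
  have hq : ∀ u : ℝ, 0 ≤ 1 + u + cq * u ^ 2 := by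
    intro u
    have h2 := mul_le_mul_of_nonneg_right hcq (sq_nonneg u)
    nlinarith [sq_nonneg (u + 2)]
  refine ⟨by linarith, hμ, hq, fun u w hw huw hn => ?_⟩
  have hE1 : 1 ≤ Real.exp (μ * (w ^ 2 - 1)) :=
    Real.one_le_exp (mul_nonneg hμ (by nlinarith))
  rcases le_total u 1 with h6 | h6
  · have h7 := h2 u h6 hn
    have h8 := mul_le_mul_of_nonneg_right hE1 (hq u)
    linarith
  · refine (h3 u h6).trans (mul_le_mul_of_nonneg_right (Real.exp_le_exp.2 ?_) (hq u))
    apply mul_le_mul_of_nonneg_left _ hμ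
    have := pow_le_pow_left₀ (by linarith : (0 : ℝ) ≤ u) huw 2
    linarith

/-- the part `u ≤ 1` for three children -/
theorem cube_le_quad {c u : ℝ} (hc : 10 / 27 ≤ c) (hu : u ≤ 1) :
    (1 + u / 3) ^ 3 ≤ 1 + u + c * u ^ 2 := by
  have e : 1 + u + c * u ^ 2 - (1 + u / 3) ^ 3 = (c - 1 / 3 - u / 27) * u ^ 2 := by ring
  have h : 0 ≤ (c - 1 / 3 - u / 27) * u ^ 2 := mul_nonneg (by linarith) (sq_nonneg u)
  linarith

/-- monotonicity -/
theorem ExpZ.mono {K : ℕ} {c μ c' μ' : ℝ} (h : ExpZ K c μ) (hc : c ≤ c') (hμ : μ ≤ μ') :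
    ExpZ K c' μ' where
  cq0 := h.cq0.trans hc
  mu0 := h.mu0.trans hμ
  quad := fun u => (h.quad u).trans (by
    have := mul_le_mul_of_nonneg_right hc (sq_nonneg u)
    linarith)
  hexp := fun u w h1 h2 h3 => (h.hexp u w h1 h2 h3).trans (by
    have h4 := mul_le_mul_of_nonneg_right hc (sq_nonneg u)
    have h5 : μ * (w ^ 2 - 1) ≤ μ' * (w ^ 2 - 1) :=
      mul_le_mul_of_nonneg_right hμ (by nlinarith)
    exact mul_le_mul (Real.exp_le_exp.2 h5) (by linarith) (h.quad u) (Real.exp_nonneg _))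

/-- the finite rule gives the rule without gain -/
theorem ExpO.toZ {K : ℕ} {c μ P : ℝ} (h : ExpO K c μ P) : ExpZ K c μ where
  cq0 := h.cq0
  mu0 := h.mu0
  quad := h.quad
  hexp := fun u w h1 h2 h3 => by
    have h4 := h.hexp 0 u w h.P0 h1 h2 (by rwa [sub_zero])
    rwa [sub_zero, neg_zero, Real.exp_zero, one_mul] at h4

theorem odz_a_0 (u : ℝ) (h1 : 1 ≤ u) (h2 : u ≤ 3) :
    (1 + u / 3) ^ 3 ≤
      (1 + (73 / 10000 * (u ^ 2 - 1)) +
      (73 / 10000 * (u ^ 2 - 1)) ^ 2 / 2 +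
      (73 / 10000 * (u ^ 2 - 1)) ^ 3 / 6) *
      (1 + u + 2 / 5 * u ^ 2) := by
  obtain ⟨s, hs⟩ : ∃ s, s = u - 1 := ⟨_, rfl⟩
  obtain ⟨t, ht⟩ : ∃ t, t = 3 - u := ⟨_, rfl⟩
  have hs0 : 0 ≤ s := by linarith
  have ht0 : 0 ≤ t := by linarith
  have h : 0 ≤
      1 / 8640 * t ^ 8 + 29663 / 21600000 * s * t ^ 7 +
      687549149 / 108000000000 * s ^ 2 * t ^ 6 +
      4128130917209 / 270000000000000 * s ^ 3 * t ^ 5 +
      11403964338221 / 540000000000000 * s ^ 4 * t ^ 4 +
      9359315492701 / 540000000000000 * s ^ 5 * t ^ 3 +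
      248625777769 / 30000000000000 * s ^ 6 * t ^ 2 +
      10580117561 / 5000000000000 * s ^ 7 * t + 1671457573 / 7500000000000 * s ^ 8 := by
    positivity
  have e :
      1 / 8640 * t ^ 8 + 29663 / 21600000 * s * t ^ 7 +
      687549149 / 108000000000 * s ^ 2 * t ^ 6 +
      4128130917209 / 270000000000000 * s ^ 3 * t ^ 5 +
      11403964338221 / 540000000000000 * s ^ 4 * t ^ 4 +
      9359315492701 / 540000000000000 * s ^ 5 * t ^ 3 +
      248625777769 / 30000000000000 * s ^ 6 * t ^ 2 +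
      10580117561 / 5000000000000 * s ^ 7 * t + 1671457573 / 7500000000000 * s ^ 8 =
      (1 + (73 / 10000 * (u ^ 2 - 1)) +
      (73 / 10000 * (u ^ 2 - 1)) ^ 2 / 2 +
      (73 / 10000 * (u ^ 2 - 1)) ^ 3 / 6) *
      (1 + u + 2 / 5 * u ^ 2) -
      (1 + u / 3) ^ 3 := by
    rw [hs, ht]
    ring
  rw [e] at h
  linarith

theorem odz_a_1 (u : ℝ) (h1 : 3 ≤ u) (h2 : u ≤ 5) :
    (1 + u / 3) ^ 3 ≤
      (1 + (73 / 10000 * (u ^ 2 - 1)) +
      (73 / 10000 * (u ^ 2 - 1)) ^ 2 / 2 +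
      (73 / 10000 * (u ^ 2 - 1)) ^ 3 / 6) *
      (1 + u + 2 / 5 * u ^ 2) := by
  obtain ⟨s, hs⟩ : ∃ s, s = u - 3 := ⟨_, rfl⟩
  obtain ⟨t, ht⟩ : ∃ t, t = 5 - u := ⟨_, rfl⟩
  have hs0 : 0 ≤ s := by linarith
  have ht0 : 0 ≤ t := by linarith
  have h : 0 ≤
      1671457573 / 7500000000000 * t ^ 8 + 21746289653 / 15000000000000 * s * t ^ 7 +
      108708895349 / 30000000000000 * s ^ 2 * t ^ 6 +
      2275561466699 / 540000000000000 * s ^ 3 * t ^ 5 +
      1170233043811 / 540000000000000 * s ^ 4 * t ^ 4 +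
      208852473751 / 270000000000000 * s ^ 5 * t ^ 3 +
      177242298353 / 135000000000000 * s ^ 6 * t ^ 2 +
      17284730359 / 13500000000000 * s ^ 7 * t + 660089881 / 1687500000000 * s ^ 8 := by
    positivity
  have e :
      1671457573 / 7500000000000 * t ^ 8 + 21746289653 / 15000000000000 * s * t ^ 7 +
      108708895349 / 30000000000000 * s ^ 2 * t ^ 6 +
      2275561466699 / 540000000000000 * s ^ 3 * t ^ 5 +
      1170233043811 / 540000000000000 * s ^ 4 * t ^ 4 +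
      208852473751 / 270000000000000 * s ^ 5 * t ^ 3 +
      177242298353 / 135000000000000 * s ^ 6 * t ^ 2 +
      17284730359 / 13500000000000 * s ^ 7 * t + 660089881 / 1687500000000 * s ^ 8 =
      (1 + (73 / 10000 * (u ^ 2 - 1)) +
      (73 / 10000 * (u ^ 2 - 1)) ^ 2 / 2 +
      (73 / 10000 * (u ^ 2 - 1)) ^ 3 / 6) *
      (1 + u + 2 / 5 * u ^ 2) -
      (1 + u / 3) ^ 3 := by
    rw [hs, ht]
    ring
  rw [e] at h
  linarith

theorem odz_a_t (u : ℝ) (h1 : 5 ≤ u) :
    (1 + u / 3) ^ 3 ≤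
      (1 + (73 / 10000 * (u ^ 2 - 1)) +
      (73 / 10000 * (u ^ 2 - 1)) ^ 2 / 2 +
      (73 / 10000 * (u ^ 2 - 1)) ^ 3 / 6) *
      (1 + u + 2 / 5 * u ^ 2) := by
  obtain ⟨s, hs⟩ : ∃ s, s = u - 5 := ⟨_, rfl⟩
  have hs0 : 0 ≤ s := by linarith
  have h : 0 ≤
      660089881 / 6591796875 + 332813627 / 1406250000 * s +
      148637502221 / 703125000000 * s ^ 2 + 114574737893 / 1687500000000 * s ^ 3 +
      33737448809 / 3750000000000 * s ^ 4 + 842072593 / 1500000000000 * s ^ 5 +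
      466026379 / 15000000000000 * s ^ 6 + 6613289 / 6000000000000 * s ^ 7 +
      389017 / 15000000000000 * s ^ 8 := by
    positivity
  have e :
      660089881 / 6591796875 + 332813627 / 1406250000 * s +
      148637502221 / 703125000000 * s ^ 2 + 114574737893 / 1687500000000 * s ^ 3 +
      33737448809 / 3750000000000 * s ^ 4 + 842072593 / 1500000000000 * s ^ 5 +
      466026379 / 15000000000000 * s ^ 6 + 6613289 / 6000000000000 * s ^ 7 +
      389017 / 15000000000000 * s ^ 8 =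
      (1 + (73 / 10000 * (u ^ 2 - 1)) +
      (73 / 10000 * (u ^ 2 - 1)) ^ 2 / 2 +
      (73 / 10000 * (u ^ 2 - 1)) ^ 3 / 6) *
      (1 + u + 2 / 5 * u ^ 2) -
      (1 + u / 3) ^ 3 := by
    rw [hs]
    ring
  rw [e] at h
  linarith

/-- `K = 3`: `(c, μ) = (2 / 5, 73 / 10000)`, no gain -/
theorem expZ_three_a : ExpZ 3 (2 / 5) (73 / 10000) := by
  refine ExpZ.of (by norm_num) (by norm_num) ?_ ?_
  · intro u h1 _
    push_cast
    exact cube_le_quad (by norm_num) h1
  · intro u h1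
    have hx : 0 ≤ 73 / 10000 * (u ^ 2 - 1) := mul_nonneg (by norm_num) (by nlinarith)
    have hq : 0 ≤ 1 + u + 2 / 5 * u ^ 2 := by positivity
    have h5 := mul_le_mul_of_nonneg_right (taylor3_le_exp _ hx) hq
    push_cast
    refine le_trans ?_ h5
    rcases le_total u (3) with h2 | h2
    · exact odz_a_0 u (by linarith) h2
    rcases le_total u (5) with h2 | h2
    · exact odz_a_1 u (by linarith) h2
    exact odz_a_t u (by linarith)

theorem odz_b_0 (u : ℝ) (h1 : 1 ≤ u) (h2 : u ≤ 4) :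
    (1 + u / 3) ^ 3 ≤
      (1 + (83 / 10000 * (u ^ 2 - 1)) +
      (83 / 10000 * (u ^ 2 - 1)) ^ 2 / 2 +
      (83 / 10000 * (u ^ 2 - 1)) ^ 3 / 6) *
      (1 + u + 39 / 100 * u ^ 2) := by
  obtain ⟨s, hs⟩ : ∃ s, s = u - 1 := ⟨_, rfl⟩
  obtain ⟨t, ht⟩ : ∃ t, t = 4 - u := ⟨_, rfl⟩
  have hs0 : 0 ≤ s := by linarith
  have ht0 : 0 ≤ t := by linarith
  have h : 0 ≤
      53 / 17714700 * t ^ 8 + 3816797 / 88573500000 * s * t ^ 7 +
      187228657453 / 885735000000000 * s ^ 2 * t ^ 6 +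
      2073971920148599 / 4428675000000000000 * s ^ 3 * t ^ 5 +
      4555319122550269 / 8857350000000000000 * s ^ 4 * t ^ 4 +
      4703469250034221 / 17714700000000000000 * s ^ 5 * t ^ 3 +
      325270382953343 / 7085880000000000000 * s ^ 6 * t ^ 2 +
      586005201191 / 354294000000000000 * s ^ 7 * t + 285150505721 / 70858800000000000 * s ^ 8 := by
    positivity
  have e :
      53 / 17714700 * t ^ 8 + 3816797 / 88573500000 * s * t ^ 7 +
      187228657453 / 885735000000000 * s ^ 2 * t ^ 6 +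
      2073971920148599 / 4428675000000000000 * s ^ 3 * t ^ 5 +
      4555319122550269 / 8857350000000000000 * s ^ 4 * t ^ 4 +
      4703469250034221 / 17714700000000000000 * s ^ 5 * t ^ 3 +
      325270382953343 / 7085880000000000000 * s ^ 6 * t ^ 2 +
      586005201191 / 354294000000000000 * s ^ 7 * t + 285150505721 / 70858800000000000 * s ^ 8 =
      (1 + (83 / 10000 * (u ^ 2 - 1)) +
      (83 / 10000 * (u ^ 2 - 1)) ^ 2 / 2 +
      (83 / 10000 * (u ^ 2 - 1)) ^ 3 / 6) *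
      (1 + u + 39 / 100 * u ^ 2) -
      (1 + u / 3) ^ 3 := by
    rw [hs, ht]
    ring
  rw [e] at h
  linarith

theorem odz_b_t (u : ℝ) (h1 : 4 ≤ u) :
    (1 + u / 3) ^ 3 ≤
      (1 + (83 / 10000 * (u ^ 2 - 1)) +
      (83 / 10000 * (u ^ 2 - 1)) ^ 2 / 2 +
      (83 / 10000 * (u ^ 2 - 1)) ^ 3 / 6) *
      (1 + u + 39 / 100 * u ^ 2) := by
  obtain ⟨s, hs⟩ : ∃ s, s = u - 4 := ⟨_, rfl⟩
  have hs0 : 0 ≤ s := by linarith
  have h : 0 ≤
      285150505721 / 10800000000000 + 1202223891961 / 18000000000000 * s +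
      38579669289089 / 360000000000000 * s ^ 2 + 65784965057581 / 1350000000000000 * s ^ 3 +
      4816340476579 / 600000000000000 * s ^ 4 + 26069953143 / 50000000000000 * s ^ 5 +
      3928335137 / 120000000000000 * s ^ 6 + 192692219 / 150000000000000 * s ^ 7 +
      7433231 / 200000000000000 * s ^ 8 := by
    positivity
  have e :
      285150505721 / 10800000000000 + 1202223891961 / 18000000000000 * s +
      38579669289089 / 360000000000000 * s ^ 2 + 65784965057581 / 1350000000000000 * s ^ 3 +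
      4816340476579 / 600000000000000 * s ^ 4 + 26069953143 / 50000000000000 * s ^ 5 +
      3928335137 / 120000000000000 * s ^ 6 + 192692219 / 150000000000000 * s ^ 7 +
      7433231 / 200000000000000 * s ^ 8 =
      (1 + (83 / 10000 * (u ^ 2 - 1)) +
      (83 / 10000 * (u ^ 2 - 1)) ^ 2 / 2 +
      (83 / 10000 * (u ^ 2 - 1)) ^ 3 / 6) *
      (1 + u + 39 / 100 * u ^ 2) -
      (1 + u / 3) ^ 3 := by
    rw [hs]
    ring
  rw [e] at h
  linarith

/-- `K = 3`: `(c, μ) = (39 / 100, 83 / 10000)`, no gain -/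
theorem expZ_three_b : ExpZ 3 (39 / 100) (83 / 10000) := by
  refine ExpZ.of (by norm_num) (by norm_num) ?_ ?_
  · intro u h1 _
    push_cast
    exact cube_le_quad (by norm_num) h1
  · intro u h1
    have hx : 0 ≤ 83 / 10000 * (u ^ 2 - 1) := mul_nonneg (by norm_num) (by nlinarith)
    have hq : 0 ≤ 1 + u + 39 / 100 * u ^ 2 := by positivity
    have h5 := mul_le_mul_of_nonneg_right (taylor3_le_exp _ hx) hq
    push_cast
    refine le_trans ?_ h5
    rcases le_total u (4) with h2 | h2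
    · exact odz_b_0 u (by linarith) h2
    exact odz_b_t u (by linarith)

theorem odz_c_0 (u : ℝ) (h1 : 1 ≤ u) (h2 : u ≤ 5 / 2) :
    (1 + u / 3) ^ 3 ≤
      (1 + (19 / 2000 * (u ^ 2 - 1)) +
      (19 / 2000 * (u ^ 2 - 1)) ^ 2 / 2 +
      (19 / 2000 * (u ^ 2 - 1)) ^ 3 / 6) *
      (1 + u + 19 / 50 * u ^ 2) := by
  obtain ⟨s, hs⟩ : ∃ s, s = u - 1 := ⟨_, rfl⟩
  obtain ⟨t, ht⟩ : ∃ t, t = 5 / 2 - u := ⟨_, rfl⟩
  have hs0 : 0 ≤ s := by linarith
  have ht0 : 0 ≤ t := by linarith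
  have h : 0 ≤
      1664 / 4428675 * t ^ 8 + 2553128 / 553584375 * s * t ^ 7 +
      5830402037 / 276792187500 * s ^ 2 * t ^ 6 +
      27097036768703 / 553584375000000 * s ^ 3 * t ^ 5 +
      143288020211023 / 2214337500000000 * s ^ 4 * t ^ 4 +
      445558917116201 / 8857350000000000 * s ^ 5 * t ^ 3 +
      797766106121749 / 35429400000000000 * s ^ 6 * t ^ 2 +
      37732758072199 / 7085880000000000 * s ^ 7 * t + 2965446019177 / 5668704000000000 * s ^ 8 := by
    positivity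
  have e :
      1664 / 4428675 * t ^ 8 + 2553128 / 553584375 * s * t ^ 7 +
      5830402037 / 276792187500 * s ^ 2 * t ^ 6 +
      27097036768703 / 553584375000000 * s ^ 3 * t ^ 5 +
      143288020211023 / 2214337500000000 * s ^ 4 * t ^ 4 +
      445558917116201 / 8857350000000000 * s ^ 5 * t ^ 3 +
      797766106121749 / 35429400000000000 * s ^ 6 * t ^ 2 +
      37732758072199 / 7085880000000000 * s ^ 7 * t + 2965446019177 / 5668704000000000 * s ^ 8 =
      (1 + (19 / 2000 * (u ^ 2 - 1)) +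
      (19 / 2000 * (u ^ 2 - 1)) ^ 2 / 2 +
      (19 / 2000 * (u ^ 2 - 1)) ^ 3 / 6) *
      (1 + u + 19 / 50 * u ^ 2) -
      (1 + u / 3) ^ 3 := by
    rw [hs, ht]
    ring
  rw [e] at h
  linarith

theorem odz_c_1 (u : ℝ) (h1 : 5 / 2 ≤ u) (h2 : u ≤ 4) :
    (1 + u / 3) ^ 3 ≤
      (1 + (19 / 2000 * (u ^ 2 - 1)) +
      (19 / 2000 * (u ^ 2 - 1)) ^ 2 / 2 +
      (19 / 2000 * (u ^ 2 - 1)) ^ 3 / 6) *
      (1 + u + 19 / 50 * u ^ 2) := by
  obtain ⟨s, hs⟩ : ∃ s, s = u - 5 / 2 := ⟨_, rfl⟩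
  obtain ⟨t, ht⟩ : ∃ t, t = 4 - u := ⟨_, rfl⟩
  have hs0 : 0 ≤ s := by linarith
  have ht0 : 0 ≤ t := by linarith
  have h : 0 ≤
      2965446019177 / 5668704000000000 * t ^ 8 +
      21576162311341 / 7085880000000000 * s * t ^ 7 +
      232285254491719 / 35429400000000000 * s ^ 2 * t ^ 6 +
      61612017092051 / 8857350000000000 * s ^ 3 * t ^ 5 +
      67119709798417 / 8857350000000000 * s ^ 4 * t ^ 4 +
      32567455457927 / 2214337500000000 * s ^ 5 * t ^ 3 +
      8494617335201 / 442867500000000 * s ^ 6 * t ^ 2 +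
      265264437389 / 22143375000000 * s ^ 7 * t + 6310354549 / 2214337500000 * s ^ 8 := by
    positivity
  have e :
      2965446019177 / 5668704000000000 * t ^ 8 +
      21576162311341 / 7085880000000000 * s * t ^ 7 +
      232285254491719 / 35429400000000000 * s ^ 2 * t ^ 6 +
      61612017092051 / 8857350000000000 * s ^ 3 * t ^ 5 +
      67119709798417 / 8857350000000000 * s ^ 4 * t ^ 4 +
      32567455457927 / 2214337500000000 * s ^ 5 * t ^ 3 +
      8494617335201 / 442867500000000 * s ^ 6 * t ^ 2 +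
      265264437389 / 22143375000000 * s ^ 7 * t + 6310354549 / 2214337500000 * s ^ 8 =
      (1 + (19 / 2000 * (u ^ 2 - 1)) +
      (19 / 2000 * (u ^ 2 - 1)) ^ 2 / 2 +
      (19 / 2000 * (u ^ 2 - 1)) ^ 3 / 6) *
      (1 + u + 19 / 50 * u ^ 2) -
      (1 + u / 3) ^ 3 := by
    rw [hs, ht]
    ring
  rw [e] at h
  linarith

theorem odz_c_t (u : ℝ) (h1 : 4 ≤ u) :
    (1 + u / 3) ^ 3 ≤
      (1 + (19 / 2000 * (u ^ 2 - 1)) +
      (19 / 2000 * (u ^ 2 - 1)) ^ 2 / 2 +
      (19 / 2000 * (u ^ 2 - 1)) ^ 3 / 6) *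
      (1 + u + 19 / 50 * u ^ 2) := by
  obtain ⟨s, hs⟩ : ∃ s, s = u - 4 := ⟨_, rfl⟩
  have hs0 : 0 ≤ s := by linarith
  have h : 0 ≤
      6310354549 / 86400000000 + 26618214059 / 144000000000 * s +
      247984502783 / 1440000000000 * s ^ 2 + 688725956489 / 10800000000000 * s ^ 3 +
      23803774313 / 2400000000000 * s ^ 4 + 838058251 / 1200000000000 * s ^ 5 +
      21818479 / 480000000000 * s ^ 6 + 2256611 / 1200000000000 * s ^ 7 +
      130321 / 2400000000000 * s ^ 8 := by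
    positivity
  have e :
      6310354549 / 86400000000 + 26618214059 / 144000000000 * s +
      247984502783 / 1440000000000 * s ^ 2 + 688725956489 / 10800000000000 * s ^ 3 +
      23803774313 / 2400000000000 * s ^ 4 + 838058251 / 1200000000000 * s ^ 5 +
      21818479 / 480000000000 * s ^ 6 + 2256611 / 1200000000000 * s ^ 7 +
      130321 / 2400000000000 * s ^ 8 =
      (1 + (19 / 2000 * (u ^ 2 - 1)) +
      (19 / 2000 * (u ^ 2 - 1)) ^ 2 / 2 +
      (19 / 2000 * (u ^ 2 - 1)) ^ 3 / 6) *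
      (1 + u + 19 / 50 * u ^ 2) -
      (1 + u / 3) ^ 3 := by
    rw [hs]
    ring
  rw [e] at h
  linarith

/-- `K = 3`: `(c, μ) = (19 / 50, 19 / 2000)`, no gain -/
theorem expZ_three_c : ExpZ 3 (19 / 50) (19 / 2000) := by
  refine ExpZ.of (by norm_num) (by norm_num) ?_ ?_
  · intro u h1 _
    push_cast
    exact cube_le_quad (by norm_num) h1
  · intro u h1
    have hx : 0 ≤ 19 / 2000 * (u ^ 2 - 1) := mul_nonneg (by norm_num) (by nlinarith)
    have hq : 0 ≤ 1 + u + 19 / 50 * u ^ 2 := by positivity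
    have h5 := mul_le_mul_of_nonneg_right (taylor3_le_exp _ hx) hq
    push_cast
    refine le_trans ?_ h5
    rcases le_total u (5 / 2) with h2 | h2
    · exact odz_c_0 u (by linarith) h2
    rcases le_total u (4) with h2 | h2
    · exact odz_c_1 u (by linarith) h2
    exact odz_c_t u (by linarith)

theorem odz_d_0 (u : ℝ) (h1 : 1 ≤ u) (h2 : u ≤ 7 / 2) :
    (1 + u / 3) ^ 3 ≤
      (1 + (117 / 20000 * (u ^ 2 - 1)) +
      (117 / 20000 * (u ^ 2 - 1)) ^ 2 / 2 +
      (117 / 20000 * (u ^ 2 - 1)) ^ 3 / 6) *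
      (1 + u + 21 / 50 * u ^ 2) := by
  obtain ⟨s, hs⟩ : ∃ s, s = u - 1 := ⟨_, rfl⟩
  obtain ⟨t, ht⟩ : ∃ t, t = 7 / 2 - u := ⟨_, rfl⟩
  have hs0 : 0 ≤ s := by linarith
  have ht0 : 0 ≤ t := by linarith
  have h : 0 ≤
      8576 / 263671875 * t ^ 8 + 13464956 / 32958984375 * s * t ^ 7 +
      131557055963 / 65917968750000 * s ^ 2 * t ^ 6 +
      439544111219519 / 87890625000000000 * s ^ 3 * t ^ 5 +
      167779932194003 / 23437500000000000 * s ^ 4 * t ^ 4 +
      1706075005434341 / 281250000000000000 * s ^ 5 * t ^ 3 +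
      2018315131666921 / 675000000000000000 * s ^ 6 * t ^ 2 +
      2654248639458739 / 3375000000000000000 * s ^ 7 * t +
      5742428159152597 / 67500000000000000000 * s ^ 8 := by
    positivity
  have e :
      8576 / 263671875 * t ^ 8 + 13464956 / 32958984375 * s * t ^ 7 +
      131557055963 / 65917968750000 * s ^ 2 * t ^ 6 +
      439544111219519 / 87890625000000000 * s ^ 3 * t ^ 5 +
      167779932194003 / 23437500000000000 * s ^ 4 * t ^ 4 +
      1706075005434341 / 281250000000000000 * s ^ 5 * t ^ 3 +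
      2018315131666921 / 675000000000000000 * s ^ 6 * t ^ 2 +
      2654248639458739 / 3375000000000000000 * s ^ 7 * t +
      5742428159152597 / 67500000000000000000 * s ^ 8 =
      (1 + (117 / 20000 * (u ^ 2 - 1)) +
      (117 / 20000 * (u ^ 2 - 1)) ^ 2 / 2 +
      (117 / 20000 * (u ^ 2 - 1)) ^ 3 / 6) *
      (1 + u + 21 / 50 * u ^ 2) -
      (1 + u / 3) ^ 3 := by
    rw [hs, ht]
    ring
  rw [e] at h
  linarith

theorem odz_d_1 (u : ℝ) (h1 : 7 / 2 ≤ u) (h2 : u ≤ 6) :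
    (1 + u / 3) ^ 3 ≤
      (1 + (117 / 20000 * (u ^ 2 - 1)) +
      (117 / 20000 * (u ^ 2 - 1)) ^ 2 / 2 +
      (117 / 20000 * (u ^ 2 - 1)) ^ 3 / 6) *
      (1 + u + 21 / 50 * u ^ 2) := by
  obtain ⟨s, hs⟩ : ∃ s, s = u - 7 / 2 := ⟨_, rfl⟩
  obtain ⟨t, ht⟩ : ∃ t, t = 6 - u := ⟨_, rfl⟩
  have hs0 : 0 ≤ s := by linarith
  have ht0 : 0 ≤ t := by linarith
  have h : 0 ≤
      5742428159152597 / 67500000000000000000 * t ^ 8 +
      9698469439316693 / 16875000000000000000 * s * t ^ 7 +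
      25448461985834011 / 16875000000000000000 * s ^ 2 * t ^ 6 +
      7874391106609081 / 4218750000000000000 * s ^ 3 * t ^ 5 +
      828051736997581 / 843750000000000000 * s ^ 4 * t ^ 4 +
      88254907779343 / 1054687500000000000 * s ^ 5 * t ^ 3 +
      3759650809499 / 39062500000000000 * s ^ 6 * t ^ 2 +
      2348168753497 / 9765625000000000 * s ^ 7 * t + 462011449409 / 4882812500000000 * s ^ 8 := by
    positivity
  have e :
      5742428159152597 / 67500000000000000000 * t ^ 8 +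
      9698469439316693 / 16875000000000000000 * s * t ^ 7 +
      25448461985834011 / 16875000000000000000 * s ^ 2 * t ^ 6 +
      7874391106609081 / 4218750000000000000 * s ^ 3 * t ^ 5 +
      828051736997581 / 843750000000000000 * s ^ 4 * t ^ 4 +
      88254907779343 / 1054687500000000000 * s ^ 5 * t ^ 3 +
      3759650809499 / 39062500000000000 * s ^ 6 * t ^ 2 +
      2348168753497 / 9765625000000000 * s ^ 7 * t + 462011449409 / 4882812500000000 * s ^ 8 =
      (1 + (117 / 20000 * (u ^ 2 - 1)) +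
      (117 / 20000 * (u ^ 2 - 1)) ^ 2 / 2 +
      (117 / 20000 * (u ^ 2 - 1)) ^ 3 / 6) *
      (1 + u + 21 / 50 * u ^ 2) -
      (1 + u / 3) ^ 3 := by
    rw [hs, ht]
    ring
  rw [e] at h
  linarith

theorem odz_d_t (u : ℝ) (h1 : 6 ≤ u) :
    (1 + u / 3) ^ 3 ≤
      (1 + (117 / 20000 * (u ^ 2 - 1)) +
      (117 / 20000 * (u ^ 2 - 1)) ^ 2 / 2 +
      (117 / 20000 * (u ^ 2 - 1)) ^ 3 / 6) *
      (1 + u + 21 / 50 * u ^ 2) := by
  obtain ⟨s, hs⟩ : ∃ s, s = u - 6 := ⟨_, rfl⟩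
  have hs0 : 0 ≤ s := by linarith
  have h : 0 ≤
      462011449409 / 3200000000000 + 5044014437047 / 16000000000000 * s +
      41501490379199 / 160000000000000 * s ^ 2 +
      783652282479563 / 10800000000000000 * s ^ 3 + 6695820356823 / 800000000000000 * s ^ 4 +
      188064423729 / 400000000000000 * s ^ 5 + 3632910021 / 160000000000000 * s ^ 6 +
      282417759 / 400000000000000 * s ^ 7 + 11211291 / 800000000000000 * s ^ 8 := by
    positivity
  have e :
      462011449409 / 3200000000000 + 5044014437047 / 16000000000000 * s +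
      41501490379199 / 160000000000000 * s ^ 2 +
      783652282479563 / 10800000000000000 * s ^ 3 + 6695820356823 / 800000000000000 * s ^ 4 +
      188064423729 / 400000000000000 * s ^ 5 + 3632910021 / 160000000000000 * s ^ 6 +
      282417759 / 400000000000000 * s ^ 7 + 11211291 / 800000000000000 * s ^ 8 =
      (1 + (117 / 20000 * (u ^ 2 - 1)) +
      (117 / 20000 * (u ^ 2 - 1)) ^ 2 / 2 +
      (117 / 20000 * (u ^ 2 - 1)) ^ 3 / 6) *
      (1 + u + 21 / 50 * u ^ 2) -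
      (1 + u / 3) ^ 3 := by
    rw [hs]
    ring
  rw [e] at h
  linarith

/-- `K = 3`: `(c, μ) = (21 / 50, 117 / 20000)`, no gain -/
theorem expZ_three_d : ExpZ 3 (21 / 50) (117 / 20000) := by
  refine ExpZ.of (by norm_num) (by norm_num) ?_ ?_
  · intro u h1 _
    push_cast
    exact cube_le_quad (by norm_num) h1
  · intro u h1
    have hx : 0 ≤ 117 / 20000 * (u ^ 2 - 1) := mul_nonneg (by norm_num) (by nlinarith)
    have hq : 0 ≤ 1 + u + 21 / 50 * u ^ 2 := by positivity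
    have h5 := mul_le_mul_of_nonneg_right (taylor3_le_exp _ hx) hq
    push_cast
    refine le_trans ?_ h5
    rcases le_total u (7 / 2) with h2 | h2
    · exact odz_d_0 u (by linarith) h2
    rcases le_total u (6) with h2 | h2
    · exact odz_d_1 u (by linarith) h2
    exact odz_d_t u (by linarith)

theorem odz_e_0 (u : ℝ) (h1 : 1 ≤ u) (h2 : u ≤ 6) :
    (1 + u / 3) ^ 3 ≤
      (1 + (97 / 20000 * (u ^ 2 - 1)) +
      (97 / 20000 * (u ^ 2 - 1)) ^ 2 / 2 +
      (97 / 20000 * (u ^ 2 - 1)) ^ 3 / 6) *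
      (1 + u + 11 / 25 * u ^ 2) := by
  obtain ⟨s, hs⟩ : ∃ s, s = u - 1 := ⟨_, rfl⟩
  obtain ⟨t, ht⟩ : ∃ t, t = 6 - u := ⟨_, rfl⟩
  have hs0 : 0 ≤ s := by linarith
  have ht0 : 0 ≤ t := by linarith
  have h : 0 ≤
      47 / 263671875 * t ^ 8 + 1601759 / 527343750000 * s * t ^ 7 +
      37796198623 / 2109375000000000 * s ^ 2 * t ^ 6 +
      194916838973477 / 4218750000000000000 * s ^ 3 * t ^ 5 +
      100756550759743 / 1687500000000000000 * s ^ 4 * t ^ 4 +
      132268434651193 / 3375000000000000000 * s ^ 5 * t ^ 3 +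
      8695919663537 / 750000000000000000 * s ^ 6 * t ^ 2 +
      56274645343 / 50000000000000000 * s ^ 7 * t + 621866677069 / 3750000000000000000 * s ^ 8 := by
    positivity
  have e :
      47 / 263671875 * t ^ 8 + 1601759 / 527343750000 * s * t ^ 7 +
      37796198623 / 2109375000000000 * s ^ 2 * t ^ 6 +
      194916838973477 / 4218750000000000000 * s ^ 3 * t ^ 5 +
      100756550759743 / 1687500000000000000 * s ^ 4 * t ^ 4 +
      132268434651193 / 3375000000000000000 * s ^ 5 * t ^ 3 +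
      8695919663537 / 750000000000000000 * s ^ 6 * t ^ 2 +
      56274645343 / 50000000000000000 * s ^ 7 * t + 621866677069 / 3750000000000000000 * s ^ 8 =
      (1 + (97 / 20000 * (u ^ 2 - 1)) +
      (97 / 20000 * (u ^ 2 - 1)) ^ 2 / 2 +
      (97 / 20000 * (u ^ 2 - 1)) ^ 3 / 6) *
      (1 + u + 11 / 25 * u ^ 2) -
      (1 + u / 3) ^ 3 := by
    rw [hs, ht]
    ring
  rw [e] at h
  linarith

theorem odz_e_t (u : ℝ) (h1 : 6 ≤ u) :
    (1 + u / 3) ^ 3 ≤
      (1 + (97 / 20000 * (u ^ 2 - 1)) +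
      (97 / 20000 * (u ^ 2 - 1)) ^ 2 / 2 +
      (97 / 20000 * (u ^ 2 - 1)) ^ 3 / 6) *
      (1 + u + 11 / 25 * u ^ 2) := by
  obtain ⟨s, hs⟩ : ∃ s, s = u - 6 := ⟨_, rfl⟩
  have hs0 : 0 ≤ s := by linarith
  have h : 0 ≤
      621866677069 / 9600000000000 + 754335015827 / 48000000000000 * s +
      15673838235271 / 120000000000000 * s ^ 2 +
      540941670148811 / 10800000000000000 * s ^ 3 + 618041788607 / 100000000000000 * s ^ 4 +
      125342059363 / 400000000000000 * s ^ 5 + 1728066349 / 120000000000000 * s ^ 6 +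
      504708169 / 1200000000000000 * s ^ 7 + 10039403 / 1200000000000000 * s ^ 8 := by
    positivity
  have e :
      621866677069 / 9600000000000 + 754335015827 / 48000000000000 * s +
      15673838235271 / 120000000000000 * s ^ 2 +
      540941670148811 / 10800000000000000 * s ^ 3 + 618041788607 / 100000000000000 * s ^ 4 +
      125342059363 / 400000000000000 * s ^ 5 + 1728066349 / 120000000000000 * s ^ 6 +
      504708169 / 1200000000000000 * s ^ 7 + 10039403 / 1200000000000000 * s ^ 8 =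
      (1 + (97 / 20000 * (u ^ 2 - 1)) +
      (97 / 20000 * (u ^ 2 - 1)) ^ 2 / 2 +
      (97 / 20000 * (u ^ 2 - 1)) ^ 3 / 6) *
      (1 + u + 11 / 25 * u ^ 2) -
      (1 + u / 3) ^ 3 := by
    rw [hs]
    ring
  rw [e] at h
  linarith

/-- `K = 3`: `(c, μ) = (11 / 25, 97 / 20000)`, no gain -/
theorem expZ_three_e : ExpZ 3 (11 / 25) (97 / 20000) := by
  refine ExpZ.of (by norm_num) (by norm_num) ?_ ?_
  · intro u h1 _
    push_cast
    exact cube_le_quad (by norm_num) h1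
  · intro u h1
    have hx : 0 ≤ 97 / 20000 * (u ^ 2 - 1) := mul_nonneg (by norm_num) (by nlinarith)
    have hq : 0 ≤ 1 + u + 11 / 25 * u ^ 2 := by positivity
    have h5 := mul_le_mul_of_nonneg_right (taylor3_le_exp _ hx) hq
    push_cast
    refine le_trans ?_ h5
    rcases le_total u (6) with h2 | h2
    · exact odz_e_0 u (by linarith) h2
    exact odz_e_t u (by linarith)

theorem odz_f_0 (u : ℝ) (h1 : 1 ≤ u) (h2 : u ≤ 9 / 2) :
    (1 + u / 3) ^ 3 ≤
      (1 + (41 / 10000 * (u ^ 2 - 1)) +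
      (41 / 10000 * (u ^ 2 - 1)) ^ 2 / 2 +
      (41 / 10000 * (u ^ 2 - 1)) ^ 3 / 6) *
      (1 + u + 23 / 50 * u ^ 2) := by
  obtain ⟨s, hs⟩ : ∃ s, s = u - 1 := ⟨_, rfl⟩
  obtain ⟨t, ht⟩ : ∃ t, t = 9 / 2 - u := ⟨_, rfl⟩
  have hs0 : 0 ≤ s := by linarith
  have ht0 : 0 ≤ t := by linarith
  have h : 0 ≤
      15488 / 3891240675 * t ^ 8 + 138825016 / 2432025421875 * s * t ^ 7 +
      269856293207 / 868580507812500 * s ^ 2 * t ^ 6 +
      7298003020386803 / 8685805078125000000 * s ^ 3 * t ^ 5 +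
      44238880683553807 / 34743220312500000000 * s ^ 4 * t ^ 4 +
      6284467763666213 / 5558915250000000000 * s ^ 5 * t ^ 3 +
      35900332394157197 / 61765725000000000000 * s ^ 6 * t ^ 2 +
      22978226236676511 / 144120025000000000000 * s ^ 7 * t +
      31229205256815959 / 1729440300000000000000 * s ^ 8 := by
    positivity
  have e :
      15488 / 3891240675 * t ^ 8 + 138825016 / 2432025421875 * s * t ^ 7 +
      269856293207 / 868580507812500 * s ^ 2 * t ^ 6 +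
      7298003020386803 / 8685805078125000000 * s ^ 3 * t ^ 5 +
      44238880683553807 / 34743220312500000000 * s ^ 4 * t ^ 4 +
      6284467763666213 / 5558915250000000000 * s ^ 5 * t ^ 3 +
      35900332394157197 / 61765725000000000000 * s ^ 6 * t ^ 2 +
      22978226236676511 / 144120025000000000000 * s ^ 7 * t +
      31229205256815959 / 1729440300000000000000 * s ^ 8 =
      (1 + (41 / 10000 * (u ^ 2 - 1)) +
      (41 / 10000 * (u ^ 2 - 1)) ^ 2 / 2 +
      (41 / 10000 * (u ^ 2 - 1)) ^ 3 / 6) *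
      (1 + u + 23 / 50 * u ^ 2) -
      (1 + u / 3) ^ 3 := by
    rw [hs, ht]
    ring
  rw [e] at h
  linarith

theorem odz_f_1 (u : ℝ) (h1 : 9 / 2 ≤ u) (h2 : u ≤ 8) :
    (1 + u / 3) ^ 3 ≤
      (1 + (41 / 10000 * (u ^ 2 - 1)) +
      (41 / 10000 * (u ^ 2 - 1)) ^ 2 / 2 +
      (41 / 10000 * (u ^ 2 - 1)) ^ 3 / 6) *
      (1 + u + 23 / 50 * u ^ 2) := by
  obtain ⟨s, hs⟩ : ∃ s, s = u - 9 / 2 := ⟨_, rfl⟩
  obtain ⟨t, ht⟩ : ∃ t, t = 8 - u := ⟨_, rfl⟩
  have hs0 : 0 ≤ s := by linarith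
  have ht0 : 0 ≤ t := by linarith
  have h : 0 ≤
      31229205256815959 / 1729440300000000000000 * t ^ 8 +
      55982142317234303 / 432360075000000000000 * s * t ^ 7 +
      22947796001361967 / 61765725000000000000 * s ^ 2 * t ^ 6 +
      75212344625166127 / 138972881250000000000 * s ^ 3 * t ^ 5 +
      58890844239661913 / 138972881250000000000 * s ^ 4 * t ^ 4 +
      6822855238523263 / 34743220312500000000 * s ^ 5 * t ^ 3 +
      3465045926182933 / 34743220312500000000 * s ^ 6 * t ^ 2 +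
      4054361065769543 / 60800635546875000000 * s ^ 7 * t +
      628427687673263 / 30400317773437500000 * s ^ 8 := by
    positivity
  have e :
      31229205256815959 / 1729440300000000000000 * t ^ 8 +
      55982142317234303 / 432360075000000000000 * s * t ^ 7 +
      22947796001361967 / 61765725000000000000 * s ^ 2 * t ^ 6 +
      75212344625166127 / 138972881250000000000 * s ^ 3 * t ^ 5 +
      58890844239661913 / 138972881250000000000 * s ^ 4 * t ^ 4 +
      6822855238523263 / 34743220312500000000 * s ^ 5 * t ^ 3 +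
      3465045926182933 / 34743220312500000000 * s ^ 6 * t ^ 2 +
      4054361065769543 / 60800635546875000000 * s ^ 7 * t +
      628427687673263 / 30400317773437500000 * s ^ 8 =
      (1 + (41 / 10000 * (u ^ 2 - 1)) +
      (41 / 10000 * (u ^ 2 - 1)) ^ 2 / 2 +
      (41 / 10000 * (u ^ 2 - 1)) ^ 3 / 6) *
      (1 + u + 23 / 50 * u ^ 2) -
      (1 + u / 3) ^ 3 := by
    rw [hs, ht]
    ring
  rw [e] at h
  linarith

theorem odz_f_t (u : ℝ) (h1 : 8 ≤ u) :
    (1 + u / 3) ^ 3 ≤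
      (1 + (41 / 10000 * (u ^ 2 - 1)) +
      (41 / 10000 * (u ^ 2 - 1)) ^ 2 / 2 +
      (41 / 10000 * (u ^ 2 - 1)) ^ 3 / 6) *
      (1 + u + 23 / 50 * u ^ 2) := by
  obtain ⟨s, hs⟩ : ∃ s, s = u - 8 := ⟨_, rfl⟩
  have hs0 : 0 ≤ s := by linarith
  have h : 0 ≤
      628427687673263 / 1350000000000000 + 57147447019073 / 90000000000000 * s +
      350347031840437 / 900000000000000 * s ^ 2 +
      112948153886299 / 1350000000000000 * s ^ 3 + 2294936778119 / 300000000000000 * s ^ 4 +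
      54102442037 / 150000000000000 * s ^ 5 + 4192207237 / 300000000000000 * s ^ 6 +
      52448881 / 150000000000000 * s ^ 7 + 1585183 / 300000000000000 * s ^ 8 := by
    positivity
  have e :
      628427687673263 / 1350000000000000 + 57147447019073 / 90000000000000 * s +
      350347031840437 / 900000000000000 * s ^ 2 +
      112948153886299 / 1350000000000000 * s ^ 3 + 2294936778119 / 300000000000000 * s ^ 4 +
      54102442037 / 150000000000000 * s ^ 5 + 4192207237 / 300000000000000 * s ^ 6 +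
      52448881 / 150000000000000 * s ^ 7 + 1585183 / 300000000000000 * s ^ 8 =
      (1 + (41 / 10000 * (u ^ 2 - 1)) +
      (41 / 10000 * (u ^ 2 - 1)) ^ 2 / 2 +
      (41 / 10000 * (u ^ 2 - 1)) ^ 3 / 6) *
      (1 + u + 23 / 50 * u ^ 2) -
      (1 + u / 3) ^ 3 := by
    rw [hs]
    ring
  rw [e] at h
  linarith

/-- `K = 3`: `(c, μ) = (23 / 50, 41 / 10000)`, no gain -/
theorem expZ_three_f : ExpZ 3 (23 / 50) (41 / 10000) := by
  refine ExpZ.of (by norm_num) (by norm_num) ?_ ?_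
  · intro u h1 _
    push_cast
    exact cube_le_quad (by norm_num) h1
  · intro u h1
    have hx : 0 ≤ 41 / 10000 * (u ^ 2 - 1) := mul_nonneg (by norm_num) (by nlinarith)
    have hq : 0 ≤ 1 + u + 23 / 50 * u ^ 2 := by positivity
    have h5 := mul_le_mul_of_nonneg_right (taylor3_le_exp _ hx) hq
    push_cast
    refine le_trans ?_ h5
    rcases le_total u (9 / 2) with h2 | h2
    · exact odz_f_0 u (by linarith) h2
    rcases le_total u (8) with h2 | h2
    · exact odz_f_1 u (by linarith) h2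
    exact odz_f_t u (by linarith)

end

end Pool.Agent.TSM
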