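import Pool.Agent.TSM.FamL4

set_option autoImplicit false

/-!
# Three children, one of them trivial: the two options (MP_d27362_co)

`D`: the trivial child `t` has the sign `+` and is split off, `U' = y_i - y_j`.
`S`: the trivial child has the sign `-`, `U' = y_i + y_j`, one of the nontrivial children is split
off.
-/

namespace Pool.Agent.TSM

open Finset Polynomial
open Pool.Agent.TSP
open Pool.Agent.TSO
open Pool.Agent.TSR (OBr Ker)
open Pool.Agent.TLT (sg)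
open Pool.Agent.TDN (dn dn_nonneg)

noncomputable section

variable {Y : Sys} {Adm : ℕ → ℝ → ℝ → ℝ → ℝ → Prop} {V P : ℝ → ℝ → Sn → ℝ} {χ : ℝ → ℝ}
  {K : ℕ} {O : Fin K → OBr} {N : Finset (Fin K)} {L : Fin K} {lf tw : Bool} {m : ℕ}

/-- the labels are the sum of the `τ` -/
lemma LabD.sum_tau {e : Fin K → Bool} {n : ℕ} {vm fv : ℝ} (h : LabD O e n vm fv) :
    ∑ i, sg (e i) * tau (O i) = n := by
  have h1 := h.hY fun _ => true
  have h2 := congrArg (fun p => p.eval 0) h1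
  simp only [eval_sub, eval_C, eval_mul, eval_X, zero_mul, sub_zero] at h2
  rw [fam_YY, eval_finsetSum] at h2
  rw [← h2]
  refine sum_congr rfl fun i _ => ?_
  rw [eval_smul, smul_eq_mul]
  unfold XX
  rw [eval_sub, eval_C, eval_mul, eval_X, zero_mul, sub_zero]

/-- a family with three children, one of them trivial -/
structure Tri (O : Fin K → OBr) (N : Finset (Fin K)) (i j t : Fin K) : Prop where
  hij : i ≠ j
  hti : t ≠ i
  htj : t ≠ j
  hN : N = {i, j}
  hu : ∀ k : Fin K, k = t ∨ k = i ∨ k = j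
  hv : vY (O j) ≤ vY (O i)

lemma Tri.ht {i j t : Fin K} (h : Tri O N i j t) : t ∉ N := by
  rw [h.hN]
  simp [h.hti, h.htj]

/-- the sum over the three children -/
lemma Tri.sum {i j t : Fin K} (h : Tri O N i j t) {M : Type*} [AddCommMonoid M] (f : Fin K → M) :
    ∑ k, f k = f t + (f i + f j) := by
  classical
  have e1 : (univ : Finset (Fin K)) = {t, i, j} := by
    ext k
    simp only [mem_univ, mem_insert, mem_singleton, true_iff]
    exact h.hu k
  rw [e1, sum_insert, sum_insert, sum_singleton]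
  · simp [h.hij]
  · simp [h.hti, h.htj]

theorem tri_exists (hI : ItD lf tw 2 O N) (hK : K = 3) (t : Fin K) (ht : t ∉ N) :
    ∃ i j : Fin K, Tri O N i j t := by
  classical
  obtain ⟨i, j, hij, hN⟩ := card_eq_two.mp hI.hN
  have hti : t ≠ i := by
    rintro rfl
    exact ht (by rw [hN]; simp)
  have htj : t ≠ j := by
    rintro rfl
    exact ht (by rw [hN]; simp)
  have hu : ∀ k : Fin K, k = t ∨ k = i ∨ k = j := by
    have e1 : ({t, i, j} : Finset (Fin K)) = univ := by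
      apply eq_univ_of_card
      rw [Fintype.card_fin, card_insert_of_notMem, card_insert_of_notMem, card_singleton, hK]
      · simp [hij]
      · simp [hti, htj]
    intro k
    have := mem_univ k
    rw [← e1] at this
    simpa using this
  rcases le_total (vY (O j)) (vY (O i)) with h | h
  · exact ⟨i, j, hij, hti, htj, hN, hu, h⟩
  · refine ⟨j, i, hij.symm, htj, hti, by rw [hN, pair_comm], fun k => ?_, h⟩
    rcases hu k with h | h | h
    · exact Or.inl h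
    · exact Or.inr (Or.inr h)
    · exact Or.inr (Or.inl h)

/-- the signs of the option `D` -/
def sgD (j k : Fin K) : Bool := if k = j then false else true

/-- the signs of the option `S` -/
def sgS (t k : Fin K) : Bool := if k = t then false else true

lemma sgD_self (j : Fin K) : sgD j j = false := if_pos rfl

lemma sgD_ne {j k : Fin K} (h : k ≠ j) : sgD j k = true := if_neg h

lemma sgS_self (j : Fin K) : sgS j j = false := if_pos rfl

lemma sgS_ne {j k : Fin K} (h : k ≠ j) : sgS j k = true := if_neg h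

variable {i j t : Fin K}

lemma Tri.sumD (h : Tri O N i j t) : ∑ k, sg (sgD j k) = 1 := by
  rw [h.sum, sgD_ne h.htj, sgD_ne h.hij, sgD_self, TSR.sg_tt, TSR.sg_ff]
  norm_num

lemma Tri.sumS (h : Tri O N i j t) : ∑ k, sg (sgS t k) = 1 := by
  rw [h.sum, sgS_self, sgS_ne h.hti.symm, sgS_ne h.htj.symm, TSR.sg_tt, TSR.sg_ff]
  norm_num

lemma Tri.UD (h : Tri O N i j t) (hO : FamO O N) (e : Fin K → Bool) :
    UU (fam (sgD j) e O) = YY (O i) - YY (O j) := by
  rw [fam_UU, h.sum, hO.YY0 h.ht, sgD_ne h.htj, sgD_ne h.hij, sgD_self, TSR.sg_tt, TSR.sg_ff,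
    smul_zero, zero_add, one_smul, neg_one_smul, sub_eq_add_neg]

lemma Tri.US (h : Tri O N i j t) (hO : FamO O N) (e : Fin K → Bool) :
    UU (fam (sgS t) e O) = YY (O i) + YY (O j) := by
  rw [fam_UU, h.sum, hO.YY0 h.ht, sgS_self, sgS_ne h.hti.symm, sgS_ne h.htj.symm, TSR.sg_tt,
    TSR.sg_ff, smul_zero, zero_add, one_smul, one_smul]

lemma Tri.sumA (h : Tri O N i j t) (hO : FamO O N) :
    ∑ k, aY (O k) ^ 2 = aY (O i) ^ 2 + aY (O j) ^ 2 := by
  rw [h.sum]
  have : aY (O t) = 0 := by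
    unfold aY
    rw [hO.YY0 h.ht, TDN.dn_zero]
  rw [this]
  ring

/-- the seminorms of the two options: the better one has the factor one, both the factor two -/
lemma Tri.flip (h : Tri O N i j t) (hO : FamO O N) (e : Fin K → Bool) :
    (aU (fam (sgD j) e O) ^ 2 ≤ 2 * ∑ k, aY (O k) ^ 2 ∧
      aU (fam (sgS t) e O) ^ 2 ≤ 2 * ∑ k, aY (O k) ^ 2) ∧
    (aU (fam (sgD j) e O) ^ 2 ≤ 1 * ∑ k, aY (O k) ^ 2 ∨
      aU (fam (sgS t) e O) ^ 2 ≤ 1 * ∑ k, aY (O k) ^ 2) := by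
  have e1 : aU (fam (sgD j) e O) = dn q0 (YY (O i) - YY (O j)) := by
    unfold aU
    rw [h.UD hO e]
  have e2 : aU (fam (sgS t) e O) = dn q0 (YY (O i) + YY (O j)) := by
    unfold aU
    rw [h.US hO e]
  have g := TDN.dn_parallelogram q0 q0_pos.le (YY (O i)) (YY (O j))
  rw [e1, e2, h.sumA hO]
  unfold aY
  have p1 := sq_nonneg (dn q0 (YY (O i) + YY (O j)))
  have p2 := sq_nonneg (dn q0 (YY (O i) - YY (O j)))
  refine ⟨⟨by linarith, by linarith⟩, ?_⟩
  rcases le_total (dn q0 (YY (O i) + YY (O j)) ^ 2) (dn q0 (YY (O i) - YY (O j)) ^ 2) with hl | hl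
  · exact Or.inr (by linarith)
  · exact Or.inl (by linarith)

/-- everything that is known about a family with the label `n` of the new `y`, free factor `f` -/
structure FamKF (Y : Sys) (Adm : ℕ → ℝ → ℝ → ℝ → ℝ → Prop) (V P : ℝ → ℝ → Sn → ℝ) (lf tw : Bool)
    (m : ℕ) {K : ℕ} (O : Fin K → OBr) (N : Finset (Fin K)) (tc : Fin K → ℕ)
    (σ e ρ : Fin K → Bool) (n : ℕ) (f vm fv : ℝ) : Prop where
  hI : ItD lf tw m O N
  hT : FamT Y Adm V P O N tc
  hn : n = (tw.toNat + c1 O N) % 2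
  hρ0 : Even m → ∑ i ∈ N, sg (ρ i) = 0
  hρ1 : Odd m → ∑ i ∈ N, sg (ρ i) = 1
  hInv : Inv (fam σ e O)
  hS : ∀ M : ℝ, (m : ℝ) ≤ M → FamS O N σ e ρ M f n vm fv
  hE : LabD O e n vm fv

/-- the option `D` -/
theorem Tri.famD (h : Tri O N i j t) (hI : ItD lf tw 2 O N) {tc : Fin K → ℕ}
    (hT : FamT Y Adm V P O N tc) {e : Fin K → Bool} {n : ℕ}
    (hn : n = (tw.toNat + c1 O N) % 2) {vm fv : ℝ} (he : LabD O e n vm fv) {f : ℝ}
    (hf : aU (fam (sgD j) e O) ^ 2 ≤ f * ∑ k, aY (O k) ^ 2) :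
    FamKF Y Adm V P lf tw 2 O N tc (sgD j) e (sgD j) n f vm fv ∧
      vU (fam (sgD j) e O) = vY (O i) - vY (O j) := by
  have hO := hT.hO
  have eU := h.UD hO e
  have hi := hO.hI i
  have hj := hO.hI j
  have ev : vU (fam (sgD j) e O) = vY (O i) - vY (O j) := by
    unfold vU
    rw [eU, eval_sub]
    rfl
  have hv := h.hv
  have hj0 := hj.2.2.2.1
  have hi2 := hi.2.2.2.2
  have h1 : 0 ≤ vU (fam (sgD j) e O) := by rw [ev]; linarith
  have h2 : vU (fam (sgD j) e O) ≤ 2 := by rw [ev]; linarith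
  have eρ : ∑ k ∈ N, sg (sgD j k) = 0 := by
    rw [h.hN, sum_pair h.hij, sgD_ne h.hij, sgD_self, TSR.sg_tt, TSR.sg_ff]
    norm_num
  refine ⟨⟨hI, hT, hn, fun _ => eρ, fun h3 => absurd h3 (by decide),
    inv_fam (Or.inr (by rw [fam_tau]; exact h.sumD)) h1 h2 (he.hY _) he.h0 he.h2,
    fun M hM => ⟨hO, by rw [hI.hN]; exact hM, h1, h2, ?_, hf, he.hY _, he.hG, he.hG3,
      he.hGa⟩, he⟩, ev⟩
  have ht0 : vY (O t) = 0 := by
    unfold vY
    rw [hO.YY0 h.ht, eval_zero]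
  rw [h.sum, ht0, sgD_ne h.hij, sgD_self, TSR.sg_tt, TSR.sg_ff, ev]
  show (_ : ℝ) ≤ _
  nlinarith

/-- the option `S` with the child `L` split off, `R` is the other child -/
theorem Tri.famS (h : Tri O N i j t) (hI : ItD lf tw 2 O N) {tc : Fin K → ℕ}
    (hT : FamT Y Adm V P O N tc) {e : Fin K → Bool} {n : ℕ}
    (hn : n = (tw.toNat + c1 O N) % 2) {vm fv : ℝ} (he : LabD O e n vm fv) {f : ℝ}
    (hf : aU (fam (sgS t) e O) ^ 2 ≤ f * ∑ k, aY (O k) ^ 2) (hv : vY (O i) + vY (O j) ≤ 2)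
    {L R : Fin K} (hLR : (L = i ∧ R = j) ∨ (L = j ∧ R = i)) :
    FamLK Y Adm V P lf tw 2 O N tc (sgS t) e (fun _ => true) L n (vY (O R)) f 1
      (sg (e L) * tau (O L)) (n - sg (e L) * tau (O L)) vm fv ∧
      vU (fam (sgS t) e O) = vY (O L) + vY (O R) := by
  classical
  have hO := hT.hO
  have eU := h.US hO e
  have hi := hO.hI i
  have hj := hO.hI j
  have ev' : vU (fam (sgS t) e O) = vY (O i) + vY (O j) := by
    unfold vU
    rw [eU, eval_add]
    rfl
  have hNi : i ∈ N := by rw [h.hN]; simp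
  have hNj : j ∈ N := by rw [h.hN]; simp
  have hLN : L ∈ N := by
    rcases hLR with ⟨h1, _⟩ | ⟨h1, _⟩ <;> rw [h1] <;> assumption
  have hRN : R ∈ N := by
    rcases hLR with ⟨_, h1⟩ | ⟨_, h1⟩ <;> rw [h1] <;> assumption
  have hRL : R ≠ L := by
    rcases hLR with ⟨h1, h2⟩ | ⟨h1, h2⟩ <;> rw [h1, h2]
    · exact h.hij.symm
    · exact h.hij
  have ev : vU (fam (sgS t) e O) = vY (O L) + vY (O R) := by
    rw [ev']
    rcases hLR with ⟨h1, h2⟩ | ⟨h1, h2⟩ <;> rw [h1, h2]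
    ring
  have hLt : L ≠ t := by
    rcases hLR with ⟨h1, _⟩ | ⟨h1, _⟩ <;> rw [h1]
    · exact h.hti.symm
    · exact h.htj.symm
  have hRt : R ≠ t := by
    rcases hLR with ⟨_, h1⟩ | ⟨_, h1⟩ <;> rw [h1]
    · exact h.htj.symm
    · exact h.hti.symm
  have hall : ∀ k : Fin K, k = t ∨ k = L ∨ k = R := by
    intro k
    rcases hLR with ⟨h1, h2⟩ | ⟨h1, h2⟩ <;> rw [h1, h2]
    · exact h.hu k
    · rcases h.hu k with h3 | h3 | h3
      · exact Or.inl h3
      · exact Or.inr (Or.inr h3)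
      · exact Or.inr (Or.inl h3)
  -- sums over the rest
  have eE : (univ.erase L : Finset (Fin K)) = {t, R} := by
    ext k
    simp only [mem_erase, mem_univ, and_true, mem_insert, mem_singleton]
    constructor
    · intro hk
      rcases hall k with h3 | h3 | h3
      · exact Or.inl h3
      · exact absurd h3 hk
      · exact Or.inr h3
    · rintro (h3 | h3) <;> rw [h3]
      · exact hLt.symm
      · exact hRL
  have eN : N.erase L = {R} := by
    ext k
    simp only [mem_erase, mem_singleton]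
    constructor
    · rintro ⟨hk, hkN⟩
      rcases hall k with h3 | h3 | h3
      · rw [h3] at hkN
        exact absurd hkN h.ht
      · exact absurd h3 hk
      · exact h3
    · intro h3
      rw [h3]
      exact ⟨hRL, hRN⟩
  have hcard : (N.erase L).card = 1 := by rw [eN, card_singleton]
  have eG : gY2 (sgS t) O L = YY (O R) := by
    unfold gY2
    rw [eE, sum_pair hRt.symm, hO.YY0 h.ht, smul_zero, zero_add, sgS_ne hRt, TSR.sg_tt, one_smul]
  have eGv : (gY2 (sgS t) O L).eval q0 = vY (O R) := by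
    rw [eG]
    rfl
  have ht0 : vY (O t) = 0 := by
    unfold vY
    rw [hO.YY0 h.ht, eval_zero]
  have h1 : 0 ≤ vU (fam (sgS t) e O) := by
    rw [ev']
    have := hi.2.2.2.1
    have := hj.2.2.2.1
    linarith
  have h2 : vU (fam (sgS t) e O) ≤ 2 := by rw [ev']; exact hv
  obtain ⟨g1, g2⟩ := famL_of (ρ := fun _ => true) hO hLN he (rfl : sg (e L) * tau (O L) = _)
    (show sg (e L) * tau (O L) + (n - sg (e L) * tau (O L)) = n by ring) (sgS_ne hLt) h.sumS h1 h2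
    (by
      rw [eGv, eE, sum_pair hRt.symm, ht0, TSR.sg_tt]
      apply le_of_eq
      ring) (dn_rest_one hO (sgS t) hcard) hf
  rw [eGv] at g2
  refine ⟨⟨hI, hT, hn, hLN, fun h3 => ?_, fun _ => ?_, sgS_ne hLt, h.sumS,
    (hO.hI R).2.2.2.1, ⟨R, hRN, hRL, le_rfl⟩, Or.inl ⟨ev, eGv⟩, rfl, by ring, g1,
    fun M kL kR v2m hM hk hv2 hkk => g2 M kL kR v2m (by rw [hI.hN]; exact hM) hk hv2 hkk, he⟩,
    ev⟩
  · rw [hcard] at h3
    exact absurd h3 (by decide)
  · rw [eN, sum_singleton, TSR.sg_tt]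

/-- the obligation for the option `D` with the factor `f` -/
def DO (Y : Sys) (Adm : ℕ → ℝ → ℝ → ℝ → ℝ → Prop) (V P : ℝ → ℝ → Sn → ℝ) (χ : ℝ → ℝ)
    (lf tw : Bool) {K : ℕ} (O : Fin K → OBr) (N : Finset (Fin K)) (tc : Fin K → ℕ)
    (e : Fin K → Bool) (i j : Fin K) (n : ℕ) (vm fv ξ f : ℝ) : Prop :=
  ∀ σ ρ : Fin K → Bool, FamKF Y Adm V P lf tw 2 O N tc σ e ρ n f vm fv →
    vU (fam σ e O) = vY (O i) - vY (O j) → σ i = true → σ j = false → ρ i = true → ρ j = false →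
    ∃ ty : ℕ, ty ≠ 0 ∧ Adm ty (vU (fam σ e O)) (vY (fam σ e O)) (aU (fam σ e O))
        (aY (fam σ e O)) ∧ OddR V P χ O N tc σ e ξ ty

/-- the obligation for the option `S` with the factor `f`, `L` is split off and `R` is the other
child -/
def SO (Y : Sys) (Adm : ℕ → ℝ → ℝ → ℝ → ℝ → Prop) (V P : ℝ → ℝ → Sn → ℝ) (χ : ℝ → ℝ)
    (lf tw : Bool) {K : ℕ} (O : Fin K → OBr) (N : Finset (Fin K)) (tc : Fin K → ℕ)
    (e : Fin K → Bool) (L R : Fin K) (n : ℕ) (vm fv f : ℝ) : Prop :=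
  ∀ σ ρ : Fin K → Bool,
    FamLK Y Adm V P lf tw 2 O N tc σ e ρ L n (vY (O R)) f 1 (sg (e L) * tau (O L))
      (n - sg (e L) * tau (O L)) vm fv →
    vU (fam σ e O) = vY (O L) + vY (O R) → σ R = true → ρ R = true →
    LO Adm V P χ O N tc σ e L

/-- **three children, one of them trivial**: for given labels -/
theorem po_tri (hY : Y.G = GoodE χ) (hχ : ∀ D, RD D → 0 ≤ χ D) (hI : ItD lf tw 2 O N)
    (hK : K = 3) {tc : Fin K → ℕ} (hT : FamT Y Adm V P O N tc) {e : Fin K → Bool} {n : ℕ}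
    (hn : n = (tw.toNat + c1 O N) % 2) {vm fv : ℝ} (he : LabD O e n vm fv)
    (h : Tri O N i j t) {ξ : ℝ} (hξ : xiT (e t) (O t) = ξ)
    (H : DO Y Adm V P χ lf tw O N tc e i j n vm fv ξ 2 ∨
      (vY (O i) + vY (O j) ≤ 2 ∧ ∃ L R : Fin K, ((L = i ∧ R = j) ∨ (L = j ∧ R = i)) ∧
        (SO Y Adm V P χ lf tw O N tc e L R n vm fv 2 ∨
          (SO Y Adm V P χ lf tw O N tc e L R n vm fv 1 ∧
            DO Y Adm V P χ lf tw O N tc e i j n vm fv ξ 1)))) :
    ∃ σ e : Fin K → Bool, PO Y Adm V P (fam σ e O) := by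
  have hO := hT.hO
  have hK2 : 2 ≤ K := by omega
  obtain ⟨⟨d2, s2⟩, d1⟩ := h.flip hO e
  have useD : ∀ f : ℝ, aU (fam (sgD j) e O) ^ 2 ≤ f * ∑ k, aY (O k) ^ 2 →
      DO Y Adm V P χ lf tw O N tc e i j n vm fv ξ f →
      ∃ σ e : Fin K → Bool, PO Y Adm V P (fam σ e O) := by
    intro f hf hD
    obtain ⟨g1, g2⟩ := h.famD hI hT hn he hf
    obtain ⟨ty, hty, hA, h4⟩ := hD _ _ g1 g2 (sgD_ne h.hij) (sgD_self j) (sgD_ne h.hij)
      (sgD_self j)
    exact ⟨sgD j, e, po_R hY hχ hK2 t h.ht hI.hM hT (sgD_ne h.htj) h.sumD g1.hInv hty hA hξ h4⟩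
  have useS : ∀ (f : ℝ) (L R : Fin K), ((L = i ∧ R = j) ∨ (L = j ∧ R = i)) →
      vY (O i) + vY (O j) ≤ 2 → aU (fam (sgS t) e O) ^ 2 ≤ f * ∑ k, aY (O k) ^ 2 →
      SO Y Adm V P χ lf tw O N tc e L R n vm fv f →
      ∃ σ e : Fin K → Bool, PO Y Adm V P (fam σ e O) := by
    intro f L R hLR hv hf hS
    obtain ⟨g1, g2⟩ := h.famS hI hT hn he hf hv hLR
    have hRt : R ≠ t := by
      rcases hLR with ⟨_, h1⟩ | ⟨_, h1⟩ <;> rw [h1]
      · exact h.htj.symm
      · exact h.hti.symm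
    obtain ⟨ty, hty, hA, h4⟩ := hS _ _ g1 g2 (sgS_ne hRt) rfl
    exact ⟨sgS t, e, po_L hY hχ hK2 hT g1.hσL g1.hσ1 g1.hInv hty hA h4⟩
  rcases H with hD | ⟨hv, L, R, hLR, hS | ⟨hS, hD⟩⟩
  · exact useD 2 d2 hD
  · exact useS 2 L R hLR hv s2 hS
  · rcases d1 with d1 | d1
    · exact useD 1 d1 hD
    · exact useS 1 L R hLR hv d1 hS

end

end Pool.Agent.TSM
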