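import Pool.Agent.TSM.Fam5

set_option autoImplicit false

/-!
# The two-vertex path as the child which is split off (MP_d27362_co)

If all nontrivial children have the same `τ`, the path gets the sign `+` and the labels of the
other children cancel.
-/

namespace Pool.Agent.TSR

open Finset Polynomial
open Pool.Agent.TLT (sg)
open Pool.Agent.TDN (dn dn_nonneg dn_zero dn_neg dn_add_le dn_parallelogram)

variable {T : ℝ}

/-- **even number of members of the class**, with different bounds on the two classes -/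
theorem lab_zero2 {ι : Type*} [Fintype ι] (cl : ι → Prop) [DecidablePred cl] (hT : 0 ≤ T)
    (hev : Even (Fintype.card {i // cl i})) (p : ι → ℝ[X]) (c1 c0 : ℝ)
    (hc1 : 0 ≤ c1) (hc0 : 0 ≤ c0) (h0 : ∀ i, 0 ≤ (p i).eval T)
    (h1 : ∀ i, cl i → (p i).eval T ≤ c1) (h2 : ∀ i, ¬ cl i → (p i).eval T ≤ c0) :
    ∃ e : ι → Bool, ∑ i : {i // cl i}, sg (e i) = 0 ∧
      |(∑ i, sg (e i) • p i).eval T| ≤ c1 + c0 ∧
      dn T (∑ i, sg (e i) • p i) ^ 2 ≤ 2 * ∑ i, dn T (p i) ^ 2 := by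
  obtain ⟨k, hk⟩ := hev
  have hk' : Fintype.card {i // cl i} = 2 * k := by omega
  obtain ⟨r, a, ha1, ha2, ha3, ha4⟩ := exists_seq (T := T) (fun i : {i // cl i} => p i)
    (fun i => h0 i)
  obtain ⟨r', b, hb1, hb2, hb3, hb4⟩ := exists_seq (T := T) (fun i : {i // ¬ cl i} => p i)
    (fun i => h0 i)
  obtain ⟨s, t, h1', h2', h3⟩ := lab_seq0 hT a b ha1 hb1 k
    (Fintype.card {i // ¬ cl i}) (ha2 _) (hb3 _ (by omega))
  rw [← hk'] at h1' h2' h3
  have e1 := ss_fam r (fun i : {i // cl i} => p i) a ha4 s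
  have hle : Fintype.card {i // ¬ cl i} ≤ 2 * Fintype.card {i // ¬ cl i} := by omega
  have e2 : ss t b (2 * Fintype.card {i // ¬ cl i}) =
      ∑ i : {i // ¬ cl i}, sg (t (r'.symm i)) • p i := by
    rw [ss_ext t b hle hb3]
    exact ss_fam r' (fun i : {i // ¬ cl i} => p i) b hb4 t
  have ha0 : (a 0).eval T ≤ c1 := by
    by_cases hi : 0 < Fintype.card {i // cl i}
    · rw [ha4 ⟨0, hi⟩]; exact h1 _ (r _).2
    · rw [ha3 0 (by omega), eval_zero]; exact hc1
  have hb0 : (b 0).eval T ≤ c0 := by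
    by_cases hi : 0 < Fintype.card {i // ¬ cl i}
    · rw [hb4 ⟨0, hi⟩]; exact h2 _ (r' _).2
    · rw [hb3 0 (by omega), eval_zero]; exact hc0
  refine ⟨glue cl (fun i => s (r.symm i)) (fun i => t (r'.symm i)), ?_, ?_, ?_⟩
  · rw [← h1', sum_sorted r (fun i => sg (s (r.symm i))) (fun i => sg (s i)) fun i => by
      rw [Equiv.symm_apply_apply]]
    exact sum_congr rfl fun i _ => by rw [glue_pos]
  · rw [glue_sum, ← e1, ← e2]
    refine h2'.trans ?_
    linarith
  · rw [glue_sum, ← e1, ← e2, sum_cl cl fun i => dn T (p i) ^ 2]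
    have e3 : ∑ i ∈ range (Fintype.card {i // cl i}), dn T (a i) ^ 2 =
        ∑ i : {i // cl i}, dn T (p i) ^ 2 :=
      sum_sorted r (fun i : {i // cl i} => dn T (p i) ^ 2) _ fun i => by rw [ha4]
    have e4 : ∑ i ∈ range (2 * Fintype.card {i // ¬ cl i}), dn T (b i) ^ 2 =
        ∑ i : {i // ¬ cl i}, dn T (p i) ^ 2 := by
      rw [sum_ext (fun i => dn T (b i) ^ 2) hle fun i hi => by
        show dn T (b i) ^ 2 = 0
        rw [hb3 i hi, dn_zero]; norm_num]
      exact sum_sorted r' (fun i : {i // ¬ cl i} => dn T (p i) ^ 2) _ fun i => by rw [hb4]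
    rw [e3, e4] at h3
    exact h3

end Pool.Agent.TSR

namespace Pool.Agent.TSM

open Finset Polynomial
open Pool.Agent.TSR (OBr lab_zero2)
open Pool.Agent.TLT (sg)
open Pool.Agent.TDN (dn dn_nonneg)

noncomputable section

variable {K : ℕ} {O : Fin K → OBr} {N : Finset (Fin K)}

/-- **signs of the states with the sign `+` for the path `j`**: all nontrivial children have the
same `τ` -/
theorem FamO.e_path (hO : FamO O N) (j : Fin K) (hj : j ∉ N) (hOj : O j = two)
    (hM : ∀ i ∉ N, i ≠ j → O i = .nil)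
    (hcl : (∀ i ∈ N, tau (O i) = 0) ∨ ((∀ i ∈ N, tau (O i) = 1) ∧ Even N.card)) :
    ∃ e : Fin K → Bool, e j = true ∧ (∀ σ, YY (fam σ e O) = 1 - X * gU e O) ∧
      |(gU e O).eval q0| ≤ 2 ∧ (gU e O).eval q0 ^ 2 ≤ ∑ i, vU (O i) ^ 2 ∧
      dn q0 (gU e O) ^ 2 ≤ 2 * ∑ i, aU (O i) ^ 2 := by
  classical
  -- the cap
  set c := capv 2 fun i => vU (O i) with hcd
  have hc2 : c ≤ 2 := capv_le _ _
  have hc0 : 0 ≤ c := capv_nonneg (by norm_num) _
  have hcs : c ^ 2 ≤ ∑ i, vU (O i) ^ 2 := capv_sq (by norm_num) _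
  have hi : ∀ i, vU (O i) ≤ c := fun i =>
    le_capv (v := fun i => vU (O i)) (fun i => (hO.hI i).2.2.1) i
  have hnot : ∀ i : Fin K, i ∉ N → vU (O i) = 0 := fun i hi => by
    unfold vU
    rw [hO.UU0 hi, eval_zero]
  -- the class without the path
  set cl : {i : Fin K // i ≠ j} → Prop := fun i => tau (O i) = 1 with hcl'
  have key : ∃ c1 c0 : ℝ, 0 ≤ c1 ∧ 0 ≤ c0 ∧ c1 + c0 = c ∧ Even (Fintype.card {i // cl i}) ∧
      (∀ i, cl i → (UU (O i)).eval q0 ≤ c1) ∧ (∀ i, ¬ cl i → (UU (O i)).eval q0 ≤ c0) := by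
    rcases hcl with h | ⟨h, hN⟩
    · refine ⟨0, c, le_rfl, hc0, by ring, ?_, fun i hc => ?_, fun i _ => hi i⟩
      · have : IsEmpty {i // cl i} := by
          refine ⟨fun i => ?_⟩
          have h1 : tau (O i.1) = 1 := i.2
          by_cases h2 : (i.1 : Fin K) ∈ N
          · rw [h _ h2] at h1
            norm_num at h1
          · rw [hM _ h2 i.1.2, tau_nil] at h1
            norm_num at h1
        rw [Fintype.card_eq_zero]
        exact Even.zero
      · have h1 : tau (O i) = 1 := hc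
        by_cases h2 : (i : Fin K) ∈ N
        · rw [h _ h2] at h1
          norm_num at h1
        · exact (hnot _ h2).le
    · refine ⟨c, 0, hc0, le_rfl, by ring, ?_, fun i _ => hi i, fun i hc => ?_⟩
      · have h1 : Fintype.card {i // cl i} = N.card := by
          rw [← Fintype.card_coe N]
          refine Fintype.card_congr ⟨fun i => ⟨i.1, ?_⟩, fun i => ⟨⟨i.1, ?_⟩, ?_⟩, ?_, ?_⟩
          · by_contra h2
            have h3 : tau (O i.1) = 1 := i.2
            rw [hM _ h2 i.1.2, tau_nil] at h3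
            norm_num at h3
          · rintro rfl
            exact hj i.2
          · exact h _ i.2
          · intro i
            rfl
          · intro i
            rfl
        rw [h1]
        exact hN
      · have h1 : ¬ tau (O i) = 1 := hc
        have h2 : (i : Fin K) ∉ N := fun h2 => h1 (h _ h2)
        exact (hnot _ h2).le
  obtain ⟨c1, c0, g1, g2, g3, g4, g5, g6⟩ := key
  obtain ⟨e, h1, h2, h3⟩ := lab_zero2 (T := q0) cl q0_pos.le g4
    (fun i : {i : Fin K // i ≠ j} => UU (O i)) c1 c0 g1 g2 (fun i => (hO.hI i).2.1) g5 g6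
  rw [g3] at h2
  set e' : Fin K → Bool := fun i => if h : i ≠ j then e ⟨i, h⟩ else true with he'
  have ee : ∀ i : {i : Fin K // i ≠ j}, e' i = e i := by
    intro i
    rw [he']
    simp only
    rw [dif_pos i.2]
  have ej : e' j = true := by
    rw [he']
    simp
  have hUj : UU (O j) = 0 := by rw [hOj, UU_two]
  have eG : gU e' O = ∑ i : {i : Fin K // i ≠ j}, sg (e i) • UU (O i) := by
    unfold gU
    rw [TSR.sum_ne j, hUj, smul_zero, add_zero]
    exact sum_congr rfl fun i _ => by rw [ee]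
  refine ⟨e', ej, fun σ => ?_, ?_, ?_, ?_⟩
  · rw [YY_lab σ e' O hO.hI]
    congr 1
    rw [← C_1]
    congr 1
    have e1 : ∑ i : {i // tau (O i) = 1}, sg (e' i) =
        ∑ i, if tau (O i) = 1 then sg (e' i) else 0 := by
      rw [← sum_filter]
      exact (sum_subtype (univ.filter fun i => tau (O i) = 1) (by simp)
        (fun i => sg (e' i))).symm
    have e2 : ∑ i : {i // cl i}, sg (e i) = ∑ i : {i : Fin K // i ≠ j},
        if tau (O i) = 1 then sg (e i) else 0 := by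
      rw [← sum_filter]
      exact (sum_subtype (univ.filter fun i : {i : Fin K // i ≠ j} => tau (O i) = 1)
        (fun x => by simp only [mem_filter, mem_univ, true_and]; exact Iff.rfl)
        (fun i => sg (e i))).symm
    rw [e1, TSR.sum_ne j, ej, hOj, tau_two, if_pos rfl, TSR.sg_tt]
    have e3 : (∑ i : {i : Fin K // i ≠ j}, if tau (O i) = 1 then sg (e' i) else 0) =
        ∑ i : {i // cl i}, sg (e i) := by
      rw [e2]
      exact sum_congr rfl fun i _ => by rw [ee]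
    rw [e3, h1, zero_add]
  · rw [eG]
    exact h2.trans hc2
  · rw [eG]
    refine le_trans ?_ hcs
    rw [← sq_abs]
    exact pow_le_pow_left₀ (abs_nonneg _) h2 2
  · rw [eG, TSR.sum_ne j fun i => aU (O i) ^ 2]
    have h4 : 0 ≤ aU (O j) ^ 2 := sq_nonneg _
    have h5 : ∑ i : {i : Fin K // i ≠ j}, dn q0 (UU (O i)) ^ 2 =
        ∑ i : {i : Fin K // i ≠ j}, aU (O i) ^ 2 := rfl
    linarith

/-- **the signs of a family with the path split off** -/
theorem famS_path (hO : FamO O N) (j : Fin K) (hj : j ∉ N) (hOj : O j = two)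
    (hM : ∀ i ∉ N, i ≠ j → O i = .nil)
    (hcl : (∀ i ∈ N, tau (O i) = 0) ∨ ((∀ i ∈ N, tau (O i) = 1) ∧ Even N.card)) :
    ∃ (s e ρ : Fin K → Bool) (z : Bool), e j = true ∧
      (Even N.card → ∑ i ∈ N, sg (s i) = 0 ∧ ∑ i ∈ N, sg (ρ i) = 0) ∧
      (Odd N.card → ∑ i ∈ N, sg (s i) = - sg z ∧ ∑ i ∈ N, sg (ρ i) = 1) ∧
      ∀ σ : Fin K → Bool, (∀ i ∈ N, σ i = s i) → ∀ m : ℝ, (N.card : ℝ) ≤ m →
        (tau (fam σ e O) = 0 ∨ tau (fam σ e O) = 1 → Inv (fam σ e O)) ∧
        FamS O N σ e ρ m 2 1 4 1 := by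
  obtain ⟨s, ρ, z, h1, h2, h3⟩ := hO.sig
  obtain ⟨e, hej, hY, hG, hG3, hGa⟩ := hO.e_path j hj hOj hM hcl
  have hq := q0_pos
  have hq1 := q0_le
  refine ⟨s, e, ρ, z, hej, h1, h2, fun σ hσ m hm => ?_⟩
  obtain ⟨g1, g2, g3, g4⟩ := h3 σ hσ e
  have hY' : YY (fam σ e O) = C ((1 : ℕ) : ℝ) - X * gU e O := by
    rw [hY σ, Nat.cast_one, C_1]
  have hG4 : (gU e O).eval q0 ^ 2 ≤ 4 := by
    rw [← sq_abs]
    nlinarith [abs_nonneg ((gU e O).eval q0)]
  rw [abs_le] at hG
  refine ⟨fun hτ => inv_fam hτ g1 g2 hY' ?_ ?_, ⟨hO, hm, g1, g2, g3, g4, ?_, hG4, ?_, hGa⟩⟩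
  · push_cast
    nlinarith
  · push_cast
    nlinarith
  · rw [hY', Nat.cast_one]
  · rw [one_mul]
    exact hG3

variable {Y : Sys} {Adm : ℕ → ℝ → ℝ → ℝ → ℝ → Prop} {V P : ℝ → ℝ → Sn → ℝ} {χ : ℝ → ℝ}

/-- the vertex with an odd number of children, the trivial child `j` is split off, given signs -/
theorem po_triv (hY : Y.G = GoodE χ) (hK2 : 2 ≤ K) (j : Fin K) (hj : j ∉ N)
    (hM : ∀ i ∉ N, O i = .nil ∨ O i = two) {σ e : Fin K → Bool} {tc : Fin K → ℕ}
    (hT : FamT Y Adm V P O N tc) (hσj : σ j = true) (hσ1 : ∑ i, sg (σ i) = 1)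
    (hInv : Inv (fam σ e O)) {ty : ℕ} (hty : ty ≠ 0)
    (hAd : Adm ty (vU (fam σ e O)) (vY (fam σ e O)) (aU (fam σ e O)) (aY (fam σ e O)))
    (h4 : ∀ D, RD D → LfE χ D (K - 1) (fun _ => xiT (e j) (O j)) (fun _ => 0)
        (fun a => (UU (fam σ e O)).eval a)
        (fun a => (YY (fam σ e O)).eval a - xiT (e j) (O j)) (fun _ => 0) (fun _ => 0)
        (fun a => ∑ i, Vi V N tc O i D a) (fun a => ∑ i, Vi P N tc O i D a)
        (fun a => V D a ((chd ty (fam σ e O)).sn a))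
        (fun a => P D a ((chd ty (fam σ e O)).sn a))) :
    PO Y Adm V P (fam σ e O) := by
  have hτ : tau (fam σ e O) = 1 := by rw [fam_tau]; exact hσ1
  refine ⟨ty, ?_, hInv, hAd, ?_⟩
  · rw [hτ]
    constructor
    · exact fun h => absurd h hty
    · intro h
      norm_num at h
  · have hG := hT.hG
    rw [hY] at hG ⊢
    have hYj : YY (O j) = 0 := hT.hO.YY0 hj
    have eS : ∀ (W : ℝ → ℝ → Sn → ℝ) (D : ℝ), (fun a => ∑ i ∈ univ.erase j, Vi W N tc O i D a) =
        fun a => ∑ i, Vi W N tc O i D a := by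
      intro W D
      funext a
      rw [← add_sum_erase univ _ (mem_univ j), Vi_not W tc O hj, zero_add]
    refine GoodE.lf O σ e _ _ hG hK2 j hσj hσ1 (fun _ => xiT (e j) (O j)) (fun _ => 0)
      (fun a => (UU (fam σ e O)).eval a)
      (fun a => (YY (fam σ e O)).eval a - xiT (e j) (O j))
      (fun a => xiT_eq (hM j hj) _ _) (fun a => by rw [hYj, eval_zero]) (fun a => ?_)
      (fun a => ?_) fun D hD => ?_
    · rw [FamS.U_eq, ← add_sum_erase univ _ (mem_univ j), hYj, eval_zero, mul_zero, zero_add]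
    · rw [fam_YY, eval_finsetSum, ← add_sum_erase univ _ (mem_univ j), eval_smul, smul_eq_mul,
        xiT_eq (hM j hj)]
      have : ∑ i ∈ univ.erase j, (sg (e i) • XX (O i)).eval a =
          ∑ i ∈ univ.erase j, sg (e i) * (XX (O i)).eval a :=
        sum_congr rfl fun i _ => by rw [eval_smul, smul_eq_mul]
      rw [this]
      ring
    · rw [eS, eS]
      have e1 : Vi V N tc O j D = fun _ => 0 := by
        funext a
        exact Vi_not V tc O hj D a
      have e2 : Vi P N tc O j D = fun _ => 0 := by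
        funext a
        exact Vi_not P tc O hj D a
      rw [e1, e2]
      exact h4 D hD

/-- **the step with an odd number of children, the path `j` with the sign `+` is split off**; all
nontrivial children have the same `τ`. The label of the new `y` is one, the gain of the path is
one -/
theorem odd_step_path (hY : Y.G = GoodE χ) (hK : Odd K) (hK2 : 2 ≤ K) (j : Fin K) (hj : j ∉ N)
    (hOj : O j = two) (hN : ∀ i ∈ N, PO Y Adm V P (O i)) (hM : ∀ i ∉ N, i ≠ j → O i = .nil)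
    (hcl : (∀ i ∈ N, tau (O i) = 0) ∨ ((∀ i ∈ N, tau (O i) = 1) ∧ Even N.card))
    (H : ∀ (σ e ρ : Fin K → Bool) (tc : Fin K → ℕ), FamT Y Adm V P O N tc →
      (Even N.card → ∑ i ∈ N, sg (ρ i) = 0) → (Odd N.card → ∑ i ∈ N, sg (ρ i) = 1) →
      (∀ m : ℝ, (N.card : ℝ) ≤ m → FamS O N σ e ρ m 2 1 4 1) →
      Inv (fam σ e O) →
      ∃ ty : ℕ, ty ≠ 0 ∧ Adm ty (vU (fam σ e O)) (vY (fam σ e O)) (aU (fam σ e O))
        (aY (fam σ e O)) ∧
      ∀ D, RD D → LfE χ D (K - 1) (fun _ => 1) (fun _ => 0)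
        (fun a => (UU (fam σ e O)).eval a)
        (fun a => (YY (fam σ e O)).eval a - 1) (fun _ => 0) (fun _ => 0)
        (fun a => ∑ i, Vi V N tc O i D a) (fun a => ∑ i, Vi P N tc O i D a)
        (fun a => V D a ((chd ty (fam σ e O)).sn a))
        (fun a => P D a ((chd ty (fam σ e O)).sn a))) :
    ∃ σ e : Fin K → Bool, PO Y Adm V P (fam σ e O) := by
  have hM' : ∀ i ∉ N, O i = .nil ∨ O i = two := by
    intro i hi
    by_cases h : i = j
    · rw [h]
      exact Or.inr hOj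
    · exact Or.inl (hM i hi h)
  obtain ⟨tc, hT⟩ := famT_exists hN hM'
  obtain ⟨s, e, ρ, z, hej, h1, h2, h3⟩ := famS_path hT.hO j hj hOj hM hcl
  obtain ⟨σ, hσ, hσj, hσ1⟩ := ext_odd hK j hj s z (fun h => (h1 h).1) (fun h => (h2 h).1)
  have hτ : tau (fam σ e O) = 1 := by rw [fam_tau]; exact hσ1
  have hInv := (h3 σ hσ _ le_rfl).1 (Or.inr hτ)
  obtain ⟨ty, hty, hAd, h4⟩ := H σ e ρ tc hT (fun h => (h1 h).2) (fun h => (h2 h).2)
      (fun m hm => (h3 σ hσ m hm).2) hInv
  have eξ : xiT (e j) (O j) = 1 := by rw [hOj, xiT_two, hej, TSR.sg_tt]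
  refine ⟨σ, e, po_triv hY hK2 j hj hM' hT hσj hσ1 hInv hty hAd ?_⟩
  rw [eξ]
  exact h4

end

end Pool.Agent.TSM
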