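import Pool.Agent.TSM.Fam5

set_option autoImplicit false

/-!
# Signs for an odd number of nontrivial children (MP_d27362_co)

The smallest member is left over with the sign `+`, the others are sorted and paired, all pairs
are flipped together such that their value is nonnegative.
-/

namespace Pool.Agent.TSR

open Finset Polynomial
open Pool.Agent.TLT (sg)
open Pool.Agent.TDN (dn dn_nonneg dn_zero dn_neg dn_add_le dn_parallelogram)

variable {T : ℝ}

lemma dn_sg1 (b : Bool) (p : ℝ[X]) : dn T (sg b • p) = dn T p := by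
  cases b
  · rw [sg_ff, neg_one_smul, dn_neg]
  · rw [sg_tt, one_smul]

/-- **signs with roles for an odd number of members** -/
theorem pair_role_odd {ι : Type*} [Fintype ι] (hT : 0 ≤ T) (p : ι → ℝ[X]) (c : ℝ)
    (h0 : ∀ i, 0 ≤ (p i).eval T) (hc : ∀ i, (p i).eval T ≤ c) (hodd : Odd (Fintype.card ι)) :
    ∃ s ρ : ι → Bool, ∑ i, sg (s i) = 1 ∧ ∑ i, sg (ρ i) = 1 ∧
      0 ≤ (∑ i, sg (s i) • p i).eval T ∧ (∑ i, sg (s i) • p i).eval T ≤ c ∧
      (∑ i, sg (s i) • p i).eval T ^ 2 ≤ ∑ i, sg (ρ i) * (p i).eval T ^ 2 ∧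
      dn T (∑ i, sg (s i) • p i) ^ 2 ≤ 3 * ∑ i, dn T (p i) ^ 2 := by
  obtain ⟨r, a, ha1, ha2, ha3, ha4⟩ := exists_seq (T := T) p h0
  obtain ⟨n, hn⟩ := hodd
  obtain ⟨s0, h1, h2, h3⟩ := pairs_spr hT a ha1 n
  obtain ⟨b, hb⟩ : ∃ b, b = nsg T (ss s0 a (2 * n)) := ⟨_, rfl⟩
  obtain ⟨s, hs⟩ : ∃ s, s = snoc1 (2 * n) fun i => s0 i == b := ⟨_, rfl⟩
  have e1 : ss s a (2 * n + 1) = sg b • ss s0 a (2 * n) + a (2 * n) := by
    rw [hs, ss_snoc1, ss_beq]
  have e2 : ss s a (2 * n + 1) = ∑ i, sg (s (r.symm i)) • p i := by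
    rw [← hn]
    exact ss_fam r p a ha4 s
  have e3 : ∑ i ∈ range (2 * n + 1), dn T (a i) ^ 2 = ∑ i, dn T (p i) ^ 2 := by
    rw [← hn]
    exact sum_sorted r (fun i => dn T (p i) ^ 2) _ fun i => by rw [ha4]
  have hle : Fintype.card ι ≤ 2 * (n + 1) := by omega
  have e4 : ∑ i ∈ range (2 * (n + 1)), sg (rol i) * (a i).eval T ^ 2 =
      ∑ i, sg (rol (r.symm i)) * (p i).eval T ^ 2 := by
    rw [sum_ext (fun i => sg (rol i) * (a i).eval T ^ 2) hle fun i hi => by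
      show sg (rol i) * (a i).eval T ^ 2 = 0
      rw [ha3 i hi, eval_zero]; norm_num]
    exact sum_sorted r (fun i => sg (rol (r.symm i)) * (p i).eval T ^ 2) _ fun i => by
      rw [ha4, Equiv.symm_apply_apply]
  have h6 : ∀ t : ℕ → Bool, ∑ i ∈ range (2 * n + 1), sg (t i) = ∑ i, sg (t (r.symm i)) := by
    intro t
    rw [← hn]
    exact sum_sorted r (fun i => sg (t (r.symm i))) _ fun i => by rw [Equiv.symm_apply_apply]
  -- the value
  have hval : (sg b • ss s0 a (2 * n)).eval T = |(ss s0 a (2 * n)).eval T| := by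
    rw [hb]
    exact nsg_eval _
  have h20 : 0 ≤ (a (2 * n)).eval T := ha2 _
  have hlast : a (2 * n + 1) = 0 := ha3 _ (by omega)
  have hspr : spr T a (n + 1) = spr T a n + (a (2 * n)).eval T := by
    rw [spr_succ, hlast, eval_zero, sub_zero]
  have hv : (ss s a (2 * n + 1)).eval T ≤ spr T a (n + 1) := by
    rw [e1, eval_add, hval, hspr]
    linarith
  have hv0 : 0 ≤ (ss s a (2 * n + 1)).eval T := by
    rw [e1, eval_add, hval]
    have := abs_nonneg ((ss s0 a (2 * n)).eval T)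
    linarith
  have ha0 : (a 0).eval T ≤ c := by
    have hi : 0 < Fintype.card ι := by omega
    rw [ha4 ⟨0, hi⟩]
    exact hc _
  refine ⟨fun i => s (r.symm i), fun i => rol (r.symm i), ?_, ?_, ?_, ?_, ?_, ?_⟩
  · rw [← h6, hs, sg_snoc1, sg_sum_beq _ _ _ h1, zero_add]
  · rw [← h6, sum_range_succ, rol_even, sg_tt]
    have := sum_rol (fun _ => 1) n
    simp only [mul_one, sub_self, sum_const_zero] at this
    rw [this, zero_add]
  · rw [← e2]
    exact hv0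
  · rw [← e2]
    exact (hv.trans (spr_le a ha1 ha2 (n + 1))).trans ha0
  · rw [← e2, ← e4, sum_rol fun i => (a i).eval T ^ 2]
    exact (pow_le_pow_left₀ hv0 hv 2).trans (spr_sq (n + 1) a ha1 ha2)
  · rw [← e2, ← e3, e1, sum_range_succ]
    have g1 := dn_add_le T hT (sg b • ss s0 a (2 * n)) (a (2 * n))
    rw [dn_sg1] at g1
    have g2 := dn_nonneg T (sg b • ss s0 a (2 * n) + a (2 * n))
    have g3 := pow_le_pow_left₀ g2 g1 2
    nlinarith [sq_nonneg (dn T (ss s0 a (2 * n)) - 2 * dn T (a (2 * n)))]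

end Pool.Agent.TSR

namespace Pool.Agent.TSM

open Finset Polynomial
open Pool.Agent.TSR (OBr pair_role_odd)
open Pool.Agent.TLT (sg)
open Pool.Agent.TDN (dn dn_nonneg)

noncomputable section

variable {K : ℕ} {O : Fin K → OBr} {N : Finset (Fin K)}

/-- signs of the edges for an odd number of nontrivial children, with sum one -/
theorem FamO.sigO (h : FamO O N) (hN : Odd N.card) : ∃ s ρ : Fin K → Bool,
    ∑ i ∈ N, sg (s i) = 1 ∧ ∑ i ∈ N, sg (ρ i) = 1 ∧
    ∀ σ : Fin K → Bool, (∀ i ∈ N, σ i = s i) → ∀ e : Fin K → Bool,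
      0 ≤ vU (fam σ e O) ∧ vU (fam σ e O) ≤ 2 ∧
      vU (fam σ e O) ^ 2 ≤ ∑ i, sg (ρ i) * vY (O i) ^ 2 ∧
      aU (fam σ e O) ^ 2 ≤ 3 * ∑ i, aY (O i) ^ 2 := by
  classical
  obtain ⟨s, ρ, h1, h2, h3, h4, h5, h6⟩ := pair_role_odd (T := q0) q0_pos.le
    (fun i : N => YY (O i)) 2 (fun i => (h.hI i).2.2.2.1)
    (fun i => (h.hI i).2.2.2.2) (by rw [Fintype.card_coe]; exact hN)
  set s' : Fin K → Bool := fun i => if hi : i ∈ N then s ⟨i, hi⟩ else true with hs'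
  set ρ' : Fin K → Bool := fun i => if hi : i ∈ N then ρ ⟨i, hi⟩ else true with hρ'
  have es : ∀ i : N, s' i = s i := by
    intro i
    rw [hs']
    simp only
    rw [dif_pos i.2]
  have eρ : ∀ i : N, ρ' i = ρ i := by
    intro i
    rw [hρ']
    simp only
    rw [dif_pos i.2]
  have S1 : ∀ f : Fin K → ℝ, ∑ i ∈ N, f i = ∑ i : N, f i := fun f =>
    (sum_coe_sort N f).symm
  have S2 : ∀ f : Fin K → ℝ, (∀ i ∉ N, f i = 0) → ∑ i, f i = ∑ i : N, f i := by
    intro f hf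
    rw [← S1, ← sum_subset (subset_univ N)]
    intro i _ hi
    exact hf i hi
  have S3 : ∀ f : Fin K → ℝ[X], (∀ i ∉ N, f i = 0) → ∑ i, f i = ∑ i : N, f i := by
    intro f hf
    rw [sum_coe_sort N f, ← sum_subset (subset_univ N)]
    intro i _ hi
    exact hf i hi
  refine ⟨s', ρ', ?_, ?_, fun σ hσ e => ?_⟩
  · rw [S1]
    simp only [es]
    exact h1
  · rw [S1]
    simp only [eρ]
    exact h2
  · have eU : UU (fam σ e O) = ∑ i : N, sg (s i) • YY (O i) := by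
      rw [fam_UU, S3 _ fun i hi => by rw [h.YY0 hi, smul_zero]]
      exact sum_congr rfl fun i _ => by rw [hσ i i.2, es]
    have ev : ∑ i, sg (ρ' i) * vY (O i) ^ 2 = ∑ i : N, sg (ρ i) * (YY (O i)).eval q0 ^ 2 := by
      rw [S2 _ fun i hi => by unfold vY; rw [h.YY0 hi, eval_zero]; norm_num]
      exact sum_congr rfl fun i _ => by rw [eρ]; rfl
    have ea : ∑ i, aY (O i) ^ 2 = ∑ i : N, dn q0 (YY (O i)) ^ 2 := by
      rw [S2 _ fun i hi => by unfold aY; rw [h.YY0 hi, TDN.dn_zero]; norm_num]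
      rfl
    rw [ev, ea]
    unfold vU aU
    rw [eU]
    exact ⟨h3, h4, h5, h6⟩

/-- **the signs of a family with an odd number of children** (sum one); the factor of the signs is
two if there is a trivial child, and three if not -/
theorem famSO_exists (hO : FamO O N) (hK : Odd K) :
    ∃ (σ e ρ : Fin K → Bool) (n : ℕ) (f : ℝ), n = n1 O % 2 ∧ ∑ i, sg (σ i) = 1 ∧
      (Even N.card → ∑ i ∈ N, sg (ρ i) = 0) ∧ (Odd N.card → ∑ i ∈ N, sg (ρ i) = 1) ∧
      (f = 2 ∨ (f = 3 ∧ N = univ)) ∧ Inv (fam σ e O) ∧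
      ∀ m : ℝ, (N.card : ℝ) ≤ m → FamS O N σ e ρ m f n (16 - 12 * n) (4 - 3 * n) := by
  classical
  by_cases hN : N = univ
  · have hc : Odd N.card := by rw [hN, card_univ, Fintype.card_fin]; exact hK
    obtain ⟨s, ρ, h1, h2, h3⟩ := hO.sigO hc
    obtain ⟨e, n, hn, hY, hG, hy0, hy2, hG3, hGa⟩ := e_par O hO.hI
    obtain ⟨g1, g2, g3, g4⟩ := h3 s (fun _ _ => rfl) e
    have hs1 : ∑ i, sg (s i) = 1 := by rw [← h1, hN]
    refine ⟨s, e, ρ, n, 3, hn, hs1, fun h => ?_, fun _ => h2, Or.inr ⟨rfl, hN⟩,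
      inv_fam (Or.inr (by rw [fam_tau]; exact hs1)) g1 g2 (hY s) hy0 hy2, fun m hm =>
      ⟨hO, hm, g1, g2, g3, g4, hY s, hG, hG3, hGa⟩⟩
    exact absurd hc (Nat.not_odd_iff_even.mpr h)
  · obtain ⟨j, hj⟩ : ∃ j, j ∉ N := by
      by_contra h
      push Not at h
      exact hN (eq_univ_iff_forall.mpr h)
    obtain ⟨s, e, ρ, z, n, hn, h1, h2, h3⟩ := famS_exists hO
    obtain ⟨σ, hσ, hσj, hσ1⟩ := ext_odd hK j hj s z (fun h => (h1 h).1) (fun h => (h2 h).1)
    exact ⟨σ, e, ρ, n, 2, hn, hσ1, fun h => (h1 h).2, fun h => (h2 h).2, Or.inl rfl,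
      (h3 σ hσ _ le_rfl).1 (Or.inr (by rw [fam_tau]; exact hσ1)), fun m hm => (h3 σ hσ m hm).2⟩

end

end Pool.Agent.TSM
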