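import Pool.Agent.TSM.Zpc
import Pool.Agent.TSM.State

set_option autoImplicit false

/-!
# The rules with all parameters chosen for every total mass (MP_d27362_co)

`UnC D x y V c V' c'`: there are parameters with which the rule for one child gives the new bank
`V'` and the new pending cost `c'` from `V`, `c`; `x` is the gain, `y` the other component of the
state of the child. `PrC`, `ZpC`, `EvC` are the same for two children, for (leaf, path, child) and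
for an even number of children.
-/

namespace Pool.Agent.TSM

open Finset Polynomial
open Pool.Agent.TSR (OBr)
open Pool.Agent.TLT (sg)

noncomputable section

/-- one child -/
def UnC (D : ℝ) (x y V c V' c' : ℝ → ℝ) : Prop :=
  ∃ D1 χ0 K r κ : ℝ, ∃ g Ex L : ℝ → ℝ, OneC D D1 χ0 K r κ ∧
    (∀ a, Reg D a → g a ≤ x a) ∧ ILe D g (fun _ => r) ∧ ILe D (fun _ => 0) Ex ∧
    ILe D (fun a => (1 - a * y a) ^ 2 + a * x a ^ 2) (fun a => 1 + Ex a) ∧
    ILe D (fun _ => 0) L ∧ ILe D (fun a => c a - g a) (fun a => r + L a) ∧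
    ILe D V' (fun a => V a + (1 - χ0) * g a - K * Ex a) ∧
    ILe D V' (fun a => V a + (1 + χ0) * g a - χ0 * c a - K * Ex a - (1 - χ0) * L a) ∧
    ILe D (fun _ => 0) c' ∧ ILe D (fun a => κ * g a) c' ∧
    ILe D (fun a => χ0 * (1 + χ0) * (c a - g a) + (2 + χ0) * (K * Ex a + (1 - χ0) * L a)) c'

theorem Good.un {O : OBr} {V c V' c' : ℝ → ℝ → ℝ} (h : Good O V c) (e : Bool) (x y : ℝ → ℝ)
    (hx : ∀ a, sg e * (XX O).eval a = x a) (hy : ∀ a, (YY O).eval a = y a)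
    (H : ∀ D, RD D → UnC D x y (V D) (c D) (V' D) (c' D)) :
    Good (.mk [cn true e O]) V' c' := by
  classical
  have H' : ∀ D, ∃ D1 χ0 K r κ : ℝ, ∃ g Ex L : ℝ → ℝ, RD D → (OneC D D1 χ0 K r κ ∧
    (∀ a, Reg D a → g a ≤ x a) ∧ ILe D g (fun _ => r) ∧ ILe D (fun _ => 0) Ex ∧
    ILe D (fun a => (1 - a * y a) ^ 2 + a * x a ^ 2) (fun a => 1 + Ex a) ∧
    ILe D (fun _ => 0) L ∧ ILe D (fun a => c D a - g a) (fun a => r + L a) ∧
    ILe D (V' D) (fun a => V D a + (1 - χ0) * g a - K * Ex a) ∧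
    ILe D (V' D) (fun a => V D a + (1 + χ0) * g a - χ0 * c D a - K * Ex a -
      (1 - χ0) * L a) ∧
    ILe D (fun _ => 0) (c' D) ∧ ILe D (fun a => κ * g a) (c' D) ∧
    ILe D (fun a => χ0 * (1 + χ0) * (c D a - g a) + (2 + χ0) * (K * Ex a + (1 - χ0) * L a))
      (c' D)) := by
    intro D
    by_cases hD : RD D
    · obtain ⟨D1, χ0, K, r, κ, g, Ex, L, hh⟩ := H D hD
      exact ⟨D1, χ0, K, r, κ, g, Ex, L, fun _ => hh⟩
    · exact ⟨0, 0, 0, 0, 0, fun _ => 0, fun _ => 0, fun _ => 0, fun h => absurd h hD⟩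
  choose D1 χ0 K r κ g Ex L hh using H'
  refine h.stem e D1 χ0 K r κ g Ex L (fun D hD => (hh D hD).1)
    (fun D a ha => ?_)
    (fun D hD => (hh D hD).2.2.1) (fun D hD => (hh D hD).2.2.2.1) (fun D hD => ?_)
    (fun D hD => (hh D hD).2.2.2.2.2.1) (fun D hD => (hh D hD).2.2.2.2.2.2.1)
    (fun D hD => (hh D hD).2.2.2.2.2.2.2.1) (fun D hD => (hh D hD).2.2.2.2.2.2.2.2.1)
    (fun D hD => (hh D hD).2.2.2.2.2.2.2.2.2.1) (fun D hD => (hh D hD).2.2.2.2.2.2.2.2.2.2.1)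
    (fun D hD => (hh D hD).2.2.2.2.2.2.2.2.2.2.2)
  · rw [hx]
    exact (hh D ⟨ha.1, ha.2.1⟩).2.1 a ha
  · have h1 := (hh D hD).2.2.2.2.1
    have e1 : (fun a => (1 - a * (YY O).eval a) ^ 2 + a * (XX O).eval a ^ 2) =
        fun a => (1 - a * y a) ^ 2 + a * x a ^ 2 := by
      funext a
      rw [hy, ← hx, mul_pow, sq (sg e), sg_mul_self, one_mul]
    rw [e1]
    exact h1

/-- two children; `x` the total gain, `E` the energy of the new state, `V`, `c` the sums -/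
def PrC (D : ℝ) (x E V c V' c' : ℝ → ℝ) : Prop :=
  ∃ r η I : ℝ, ∃ g q : ℝ → ℝ, TwoC D r η ∧ 1 ≤ I * (2 * (1 - r * D)) ∧
    ILe D g x ∧ ILe D g (fun _ => r) ∧ ILe D E q ∧
    ILe D V' (fun a => V a + η * g a - I * q a) ∧
    ILe D V' (fun a => V a + g a - I * q a) ∧
    ILe D (fun a => I * q a + r * D * I * g a) c' ∧
    ILe D (fun a => I * q a) c' ∧
    ILe D (fun a => 1 / 2 * q a + 1 / 2 * (c a - g a)) c'

theorem Good.pr {O1 O2 : OBr} {V1 c1 V2 c2 V' c' : ℝ → ℝ → ℝ} (h1 : Good O1 V1 c1)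
    (h2 : Good O2 V2 c2) (σ1 e1 σ2 e2 : Bool) (x E : ℝ → ℝ)
    (hx : ∀ a, sg e1 * (XX O1).eval a + sg e2 * (XX O2).eval a = x a)
    (hE : ∀ a, (sg σ1 * (1 - a * (YY O1).eval a) + sg σ2 * (1 - a * (YY O2).eval a)) ^ 2 +
      a * x a ^ 2 = E a)
    (H : ∀ D, RD D → PrC D x E (fun a => V1 D a + V2 D a) (fun a => c1 D a + c2 D a)
      (V' D) (c' D)) :
    Good (.mk [cn σ1 e1 O1, cn σ2 e2 O2]) V' c' := by
  classical
  have H' : ∀ D, ∃ r η I : ℝ, ∃ g q : ℝ → ℝ, RD D →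
      (TwoC D r η ∧ 1 ≤ I * (2 * (1 - r * D)) ∧
    ILe D g x ∧ ILe D g (fun _ => r) ∧ ILe D E q ∧
    ILe D (V' D) (fun a => (V1 D a + V2 D a) + η * g a - I * q a) ∧
    ILe D (V' D) (fun a => (V1 D a + V2 D a) + g a - I * q a) ∧
    ILe D (fun a => I * q a + r * D * I * g a) (c' D) ∧
    ILe D (fun a => I * q a) (c' D) ∧
    ILe D (fun a => 1 / 2 * q a + 1 / 2 * ((c1 D a + c2 D a) - g a)) (c' D)) := by
    intro D
    by_cases hD : RD D
    · obtain ⟨r, η, I, g, q, hh⟩ := H D hD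
      exact ⟨r, η, I, g, q, fun _ => hh⟩
    · exact ⟨0, 0, 0, fun _ => 0, fun _ => 0, fun h => absurd h hD⟩
  choose r η I g q hh using H'
  have hx' : (fun a => sg e1 * (XX O1).eval a + sg e2 * (XX O2).eval a) = x := funext hx
  refine h1.pair h2 σ1 e1 σ2 e2 r η I g q (fun D hD => (hh D hD).1)
    (fun D hD => (hh D hD).2.1) (fun D hD => ?_) (fun D hD => (hh D hD).2.2.2.1)
    (fun D hD => ?_) (fun D hD => (hh D hD).2.2.2.2.2.1)
    (fun D hD => (hh D hD).2.2.2.2.2.2.1) (fun D hD => (hh D hD).2.2.2.2.2.2.2.1)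
    (fun D hD => (hh D hD).2.2.2.2.2.2.2.2.1) (fun D hD => (hh D hD).2.2.2.2.2.2.2.2.2)
  · rw [hx']
    exact (hh D hD).2.2.1
  · have h3 := (hh D hD).2.2.2.2.1
    have e3 : (fun a => (sg σ1 * (1 - a * (YY O1).eval a) +
      sg σ2 * (1 - a * (YY O2).eval a)) ^ 2 + a * (sg e1 * (XX O1).eval a +
      sg e2 * (XX O2).eval a) ^ 2) = E := by
      funext a
      rw [← hE, hx]
    rw [e3]
    exact h3

/-- (leaf, path, child); `x` the total gain `± 1 ± x`, `y` of the child -/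
def ZpC (D : ℝ) (x y V c V' c' : ℝ → ℝ) : Prop :=
  ∃ ε r η I : ℝ, ∃ g q q2 : ℝ → ℝ, ZpcC D ε r η ∧ 1 ≤ I * (2 * (1 - r * D)) ∧
    ILe D g x ∧ ILe D g (fun _ => r) ∧
    ILe D (fun a => (1 + ε) * (a ^ 2 * y a ^ 2 + a * x a ^ 2) +
      (1 + ε + 1 / (4 * ε)) * D * (x a ^ 2 + a * y a ^ 2)) q ∧
    ILe D (fun a => (1 + ε) * (a ^ 2 * y a ^ 2 + a * x a ^ 2) +
      (1 + ε + 1 / (4 * ε) + (1 + ε)) * D * (x a ^ 2 + a * y a ^ 2)) q2 ∧
    ILe D V' (fun a => V a + η * g a - I * q a) ∧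
    ILe D V' (fun a => V a + 2 * g a - c a - 1 / 2 * q2 a) ∧
    ILe D (fun a => I * q a + (2 + ε) * (r * D) * I * g a) c' ∧
    ILe D (fun a => 1 / 2 * q2 a + 2 * (c a - g a)) c'

theorem Good.zp {O : OBr} {V c V' c' : ℝ → ℝ → ℝ} (h : Good O V c) (e1 e2 e3 : Bool)
    (x y : ℝ → ℝ) (hx : ∀ a, sg e2 + sg e3 * (XX O).eval a = x a)
    (hy : ∀ a, (YY O).eval a = y a)
    (H : ∀ D, RD D → ZpC D x y (V D) (c D) (V' D) (c' D)) :
    Good (.mk [cn false e1 .nil, cn true e2 TSM.two, cn true e3 O]) V' c' := by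
  classical
  have H' : ∀ D, ∃ ε r η I : ℝ, ∃ g q q2 : ℝ → ℝ, RD D →
    (ZpcC D ε r η ∧ 1 ≤ I * (2 * (1 - r * D)) ∧
    ILe D g x ∧ ILe D g (fun _ => r) ∧
    ILe D (fun a => (1 + ε) * (a ^ 2 * y a ^ 2 + a * x a ^ 2) +
      (1 + ε + 1 / (4 * ε)) * D * (x a ^ 2 + a * y a ^ 2)) q ∧
    ILe D (fun a => (1 + ε) * (a ^ 2 * y a ^ 2 + a * x a ^ 2) +
      (1 + ε + 1 / (4 * ε) + (1 + ε)) * D * (x a ^ 2 + a * y a ^ 2)) q2 ∧
    ILe D (V' D) (fun a => V D a + η * g a - I * q a) ∧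
    ILe D (V' D) (fun a => V D a + 2 * g a - c D a - 1 / 2 * q2 a) ∧
    ILe D (fun a => I * q a + (2 + ε) * (r * D) * I * g a) (c' D) ∧
    ILe D (fun a => 1 / 2 * q2 a + 2 * (c D a - g a)) (c' D)) := by
    intro D
    by_cases hD : RD D
    · obtain ⟨ε, r, η, I, g, q, q2, hh⟩ := H D hD
      exact ⟨ε, r, η, I, g, q, q2, fun _ => hh⟩
    · exact ⟨0, 0, 0, 0, fun _ => 0, fun _ => 0, fun _ => 0, fun h => absurd h hD⟩
  choose ε r η I g q q2 hh using H'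
  have hx' : (fun a => sg e2 + sg e3 * (XX O).eval a) = x := funext hx
  refine h.zpc e1 e2 e3 ε r η I g q q2 (fun D hD => (hh D hD).1)
    (fun D hD => (hh D hD).2.1) (fun D hD => ?_) (fun D hD => (hh D hD).2.2.2.1)
    (fun D hD => ?_) (fun D hD => ?_) (fun D hD => (hh D hD).2.2.2.2.2.2.1)
    (fun D hD => (hh D hD).2.2.2.2.2.2.2.1) (fun D hD => (hh D hD).2.2.2.2.2.2.2.2.1)
    (fun D hD => (hh D hD).2.2.2.2.2.2.2.2.2)
  · rw [hx']
    exact (hh D hD).2.2.1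
  · simp only [hx, hy]
    exact (hh D hD).2.2.2.2.1
  · simp only [hx, hy]
    exact (hh D hD).2.2.2.2.2.1

end

end Pool.Agent.TSM
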