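import Pool.Agent.TSM.Maj

set_option autoImplicit false

/-!
# The one-step lemmas on the level of messages (MP_d27362_co)
-/

namespace Pool.Agent.TSM

open Finset Polynomial
open Pool.Agent.TSP
open Pool.Agent.TSO
open Pool.Agent.TSR (OBr Ker sg_true sg_false)
open Pool.Agent.TLT (sg)

variable {m : ℕ} {S : Fin m → Fin m → ℝ}

/-- the second moment of the state function -/
noncomputable def en (S : Fin m → Fin m → ℝ) (x y : ℝ[X]) : ℝ := mo S (x * x + X * (y * y))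

theorem ip_st_self (hS : ∀ i j, S j i = - S i j) (x y : ℝ[X]) :
    ip (st S x y) (st S x y) = en S x y := ip_st S hS x y x y

theorem en_nonneg (hS : ∀ i j, S j i = - S i j) (x y : ℝ[X]) : 0 ≤ en S x y := by
  rw [← ip_st_self hS]
  exact ip_self_nonneg _

/-- the capped gain may be smaller than the real one -/
theorem MMaj.cap {f : Fin m → ℝ} {x y : ℝ[X]} {G0 G0' b c : ℝ}
    (h : MMaj S f x y G0 b c) (hG : G0' ≤ G0) : MMaj S f x y G0' b c := by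
  obtain ⟨M, g, hM, hg0, hgc, hlog, hf0, hf⟩ := h
  exact ⟨M, g, hM, hg0, hgc, hlog, hf0, fun i => (hf i).trans
    (mul_le_mul_of_nonneg_left (by linarith) hM.le)⟩

/-- **one child**: the value `G0 - χ |G0 - g|`, minimised over the pending cost `g ∈ [0, c]` -/
theorem MMaj.one (hK : Ker S) {f : Fin m → ℝ} {x y : ℝ[X]} {G0 b c : ℝ}
    (h : MMaj S f x y G0 b c) (χ : ℝ) (hχ0 : 0 ≤ χ) (hχ : χ ≤ 1)
    (hδ : en S x y ≤ χ ^ 2 * (1 + en S x y)) (hG0 : G0 ≤ 1 / 2) {b' c' : ℝ}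
    (hb1 : b' ≤ b + (1 - χ) * G0) (hb2 : b' ≤ b + (1 + χ) * G0 - χ * c)
    (hc0 : 0 ≤ c') (hc1 : ∀ ρ, 0 ≤ ρ → ρ ≤ G0 → χ * (1 - χ) * ρ ≤ c' * (1 - (1 - χ ^ 2) * ρ))
    (hc2 : χ * (1 + χ) * (c - G0) ≤ c') : Maj S f x y b' c' := by
  obtain ⟨M, g, hM, hg0, hgc, hlog, -, hf⟩ := h
  set δ := en S x y with hδd
  have hδ0 : 0 ≤ δ := en_nonneg hK.anti x y
  have hid : ip (st S x y) (st S x y) ≤ δ := (ip_st_self hK.anti x y).le
  have hl : 0 ≤ 1 - χ ^ 2 := by nlinarith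
  have hsq : Real.sqrt ((1 - χ ^ 2) ^ 2 * δ + (1 - (1 - χ ^ 2)) ^ 2) ≤ χ := by
    apply Real.sqrt_le_iff.2
    refine ⟨hχ0, ?_⟩
    nlinarith [mul_le_mul_of_nonneg_left hδ hl]
  rcases le_total 0 (G0 - g) with hρ | hρ
  · -- gain
    set ρ := G0 - g with hρd
    have hρ2 : ρ ≤ 1 / 2 := by linarith
    have hr : (1 - χ ^ 2) * ρ ≤ 1 - χ := by
      nlinarith [mul_nonneg (sub_nonneg.2 hχ) (sub_nonneg.2 hρ2), mul_nonneg
        (mul_nonneg (sub_nonneg.2 hχ) hχ0) (sub_nonneg.2 hρ2),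
        mul_nonneg (sub_nonneg.2 hχ) (sub_nonneg.2 hχ)]
    have hr1 : (1 - χ ^ 2) * ρ ≤ 1 / 2 := by nlinarith [sq_nonneg χ]
    have hr0 : 0 ≤ (1 - χ ^ 2) * ρ := mul_nonneg hl hρ
    obtain ⟨G, hG, hfG, hmG⟩ := one_gain hK.pos f (st S x y) M ρ (1 - χ ^ 2) δ hM.le hρ
      (by linarith) hf (mn_st S hK.anti x y) hid
    have hP : 0 < 1 - (1 - χ ^ 2) * ρ := by linarith
    have hmG2 : 2 * mn G ≤ ρ / (1 - (1 - χ ^ 2) * ρ) * (χ - χ ^ 2) := by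
      refine hmG.trans (mul_le_mul_of_nonneg_left ?_ (by positivity))
      linarith
    refine ⟨M * (1 - (1 - χ ^ 2) * ρ), G, mul_pos hM hP, hG, hfG, ?_, ?_⟩
    · rw [Real.log_mul hM.ne' hP.ne']
      have haux := log_aux χ ((1 - χ ^ 2) * ρ) hχ0 hr0 (by linarith) hr
      have h1χ : 0 < 1 + χ := by linarith
      have e : (1 + χ) * (ρ / (1 - (1 - χ ^ 2) * ρ) * (χ - χ ^ 2)) =
          χ * ((1 - χ ^ 2) * ρ / (1 - (1 - χ ^ 2) * ρ)) := by
        field_simp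
        ring
      have h3 : (1 + χ) * (Real.log (1 - (1 - χ ^ 2) * ρ) + 2 * mn G) ≤
          (1 + χ) * (- ((1 - χ) * ρ)) := by
        have h4 := mul_le_mul_of_nonneg_left hmG2 h1χ.le
        rw [e] at h4
        nlinarith
      have h5 := le_of_mul_le_mul_left h3 h1χ
      nlinarith [mul_nonneg hχ0 hg0]
    · refine hmG2.trans ?_
      rw [div_mul_eq_mul_div, div_le_iff₀ hP]
      have := hc1 ρ hρ (by linarith)
      linarith
  · -- loss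
    set a := g - G0 with had
    have ha : 0 ≤ a := by linarith
    have hf' : ∀ i, f i ≤ M * (1 + a + st S x y i) := by
      intro i
      refine (hf i).trans (le_of_eq ?_)
      rw [had]; ring
    obtain ⟨G, hG, hfG, hmG⟩ := one_loss hK.pos f (st S x y) M a (1 - χ ^ 2) δ hM.le ha
      hl hf' (mn_st S hK.anti x y) hid
    have hla : 0 ≤ (1 - χ ^ 2) * a := mul_nonneg hl ha
    have hP : 0 < 1 + (1 - χ ^ 2) * a := by linarith
    have hmG2 : 2 * mn G ≤ a * (χ + χ ^ 2) := by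
      refine hmG.trans ?_
      have h1 : a / (1 + (1 - χ ^ 2) * a) ≤ a := by
        rw [div_le_iff₀ hP]
        nlinarith
      have h2 : Real.sqrt ((1 - χ ^ 2) ^ 2 * δ + (1 - (1 - χ ^ 2)) ^ 2) +
          (1 - (1 - χ ^ 2)) ≤ χ + χ ^ 2 := by linarith
      have h3 : 0 ≤ Real.sqrt ((1 - χ ^ 2) ^ 2 * δ + (1 - (1 - χ ^ 2)) ^ 2) +
          (1 - (1 - χ ^ 2)) := by
        have := Real.sqrt_nonneg ((1 - χ ^ 2) ^ 2 * δ + (1 - (1 - χ ^ 2)) ^ 2)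
        nlinarith [sq_nonneg χ]
      exact mul_le_mul h1 h2 h3 ha
    refine ⟨M * (1 + (1 - χ ^ 2) * a), G, mul_pos hM hP, hG, hfG, ?_, ?_⟩
    · rw [Real.log_mul hM.ne' hP.ne']
      have hlog1 := Real.log_le_sub_one_of_pos hP
      nlinarith [mul_le_mul_of_nonneg_left hgc hχ0]
    · refine hmG2.trans (le_trans ?_ hc2)
      have : a ≤ c - G0 := by linarith
      nlinarith [mul_le_mul_of_nonneg_left this (mul_nonneg hχ0 (show 0 ≤ 1 + χ by linarith))]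

/-- the tangent of `√(δ/(1+δ))` at `D1` -/
theorem chi_tangent (δ D1 χ0 : ℝ) (hδ : 0 ≤ δ) (hD1 : 0 ≤ D1) (hχ0 : 0 < χ0)
    (hχD : D1 ≤ χ0 ^ 2 * (1 + D1)) :
    Real.sqrt (δ / (1 + δ)) ≤ χ0 + (δ - D1) / (2 * χ0 * (1 + D1) ^ 2) := by
  have h1 : δ / (1 + δ) ≤ D1 / (1 + D1) + (δ - D1) / (1 + D1) ^ 2 := by
    rw [div_add_div _ _ (by positivity) (by positivity), div_le_div_iff₀ (by positivity)
      (by positivity)]
    have : D1 * (1 + D1) ^ 2 + (1 + D1) * (δ - D1) = (1 + D1) * (D1 ^ 2 + δ) := by ring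
    rw [this]
    nlinarith [mul_nonneg hD1 hδ, mul_nonneg (show 0 ≤ 1 + D1 by linarith) (sq_nonneg (δ - D1))]
  have h2 : D1 / (1 + D1) ≤ χ0 ^ 2 := by
    rw [div_le_iff₀ (by positivity)]
    exact hχD
  have h3 : 0 ≤ δ / (1 + δ) := by positivity
  have h4 : 2 * χ0 * Real.sqrt (δ / (1 + δ)) ≤ δ / (1 + δ) + χ0 ^ 2 := by
    have h5 := Real.sq_sqrt h3
    nlinarith [sq_nonneg (Real.sqrt (δ / (1 + δ)) - χ0)]
  have h6 : 2 * χ0 * Real.sqrt (δ / (1 + δ)) ≤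
      2 * χ0 * (χ0 + (δ - D1) / (2 * χ0 * (1 + D1) ^ 2)) := by
    have e : 2 * χ0 * (χ0 + (δ - D1) / (2 * χ0 * (1 + D1) ^ 2)) =
        2 * χ0 ^ 2 + (δ - D1) / (1 + D1) ^ 2 := by
      field_simp
    rw [e]
    linarith
  exact le_of_mul_le_mul_left h6 (by positivity)

/-- **one child**, linear form (helper77's formula (A)): `E` is the excess `∫ (|z|² - 1)⁺`,
`R` bounds the net gain, `κ` the new pending cost, `L` pays a large loss -/
theorem MMaj.one_lin (hK : Ker S) {f : Fin m → ℝ} {x y : ℝ[X]} {G0 b c : ℝ}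
    (h : MMaj S f x y G0 b c) (D1 χ0 K R E P κ L : ℝ) (hD1 : 0 ≤ D1) (hχ0 : 0 < χ0)
    (hχ01 : χ0 ≤ 1)
    (hχD : D1 ≤ χ0 ^ 2 * (1 + D1)) (hE0 : 0 ≤ E) (hE : en S x y ≤ D1 + E) (hR0 : 0 ≤ R)
    (hR1 : G0 ≤ R) (hL0 : 0 ≤ L) (hR2 : c - G0 ≤ R + L) (hKR : R ≤ K * (2 * χ0 * (1 + D1) ^ 2))
    (hG0 : G0 ≤ P) (hP : P ≤ 1 / 2) (hκ0 : 0 ≤ κ) (hκ1 : κ ≤ 1)
    (hκ : 1 ≤ 4 * κ * (1 - P) * (1 + κ * P)) {b' c' : ℝ}
    (hb1 : b' ≤ b + (1 - χ0) * G0 - K * E)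
    (hb2 : b' ≤ b + (1 + χ0) * G0 - χ0 * c - K * E - (1 - χ0) * L)
    (hc0 : 0 ≤ c') (hc1 : κ * G0 ≤ c')
    (hc2 : χ0 * (1 + χ0) * (c - G0) + (2 + χ0) * (K * E + (1 - χ0) * L) ≤ c') :
    Maj S f x y b' c' := by
  have hc : 0 ≤ c := by
    obtain ⟨M, g, hM, hg0, hgc, -⟩ := h
    linarith
  set δ := en S x y with hδd
  have hδ0 : 0 ≤ δ := en_nonneg hK.anti x y
  set χ := Real.sqrt (δ / (1 + δ)) with hχd
  have hχ00 : 0 ≤ χ := Real.sqrt_nonneg _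
  have h1δ : 0 < 1 + δ := by linarith
  have hχ1 : χ ≤ 1 := by
    rw [hχd]
    apply Real.sqrt_le_one.2
    rw [div_le_one h1δ]
    linarith
  have hχ2 : δ ≤ χ ^ 2 * (1 + δ) := by
    rw [hχd, Real.sq_sqrt (by positivity), div_mul_cancel₀ _ h1δ.ne']
  have htan := chi_tangent δ D1 χ0 hδ0 hD1 hχ0 hχD
  rw [← hχd] at htan
  have hden : 0 < 2 * χ0 * (1 + D1) ^ 2 := by positivity
  -- `(χ - χ0) R' ≤ K E` for `0 ≤ R' ≤ R`
  have hkey : ∀ R', 0 ≤ R' → R' ≤ R → (χ - χ0) * R' ≤ K * E := by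
    intro R' h0 h1
    have h2 : χ - χ0 ≤ E / (2 * χ0 * (1 + D1) ^ 2) := by
      have : (δ - D1) / (2 * χ0 * (1 + D1) ^ 2) ≤ E / (2 * χ0 * (1 + D1) ^ 2) :=
        div_le_div_of_nonneg_right (by linarith) hden.le
      linarith
    have h3 : (χ - χ0) * R' ≤ E / (2 * χ0 * (1 + D1) ^ 2) * R' :=
      mul_le_mul_of_nonneg_right h2 h0
    refine h3.trans ?_
    rw [div_mul_eq_mul_div, div_le_iff₀ hden]
    have h4 : E * R' ≤ E * R := mul_le_mul_of_nonneg_left h1 hE0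
    have h5 : E * R ≤ E * (K * (2 * χ0 * (1 + D1) ^ 2)) := mul_le_mul_of_nonneg_left hKR hE0
    nlinarith
  have hKE : 0 ≤ K * E := by
    have : 0 ≤ K := by
      by_contra hK0
      push Not at hK0
      have := mul_neg_of_neg_of_pos hK0 hden
      linarith
    positivity
  have hkey2 : ∀ R', 0 ≤ R' → R' ≤ R + L → (χ - χ0) * R' ≤ K * E + (1 - χ0) * L := by
    intro R' h0 h1
    rcases le_total R' R with h2 | h2
    · have := hkey R' h0 h2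
      have := mul_nonneg (sub_nonneg.2 hχ01) hL0
      linarith
    · have h3 := hkey R hR0 le_rfl
      have h4 : (χ - χ0) * (R' - R) ≤ (1 - χ0) * (R' - R) :=
        mul_le_mul_of_nonneg_right (by linarith) (by linarith)
      have h5 : (1 - χ0) * (R' - R) ≤ (1 - χ0) * L :=
        mul_le_mul_of_nonneg_left (by linarith) (by linarith)
      nlinarith
  have hPc : ∀ ρ, 0 ≤ ρ → ρ ≤ G0 → χ * (1 - χ) * ρ ≤ c' * (1 - (1 - χ ^ 2) * ρ) := by
    intro ρ h0 h1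
    have hρP : ρ ≤ P := by linarith
    have h2 : 1 ≤ 4 * κ * (1 - ρ) * (1 + κ * ρ) := by
      refine hκ.trans ?_
      have h3 : (1 - P) * (1 + κ * P) ≤ (1 - ρ) * (1 + κ * ρ) := by
        have h31 : 0 ≤ κ * (P - ρ) := mul_nonneg hκ0 (by linarith)
        have h32 : 0 ≤ (P - ρ) * (1 - κ) := mul_nonneg (by linarith) (by linarith)
        have h33 : 0 ≤ κ * (P - ρ) * (P + ρ) := mul_nonneg h31 (by linarith)
        nlinarith
      nlinarith [mul_le_mul_of_nonneg_left h3 (show 0 ≤ 4 * κ by linarith)]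
    have h3 : χ * (1 - χ) ≤ κ * (1 - (1 - χ ^ 2) * ρ) := by
      have h4 : 0 ≤ κ * ρ := mul_nonneg hκ0 h0
      nlinarith [sq_nonneg (2 * (1 + κ * ρ) * χ - 1)]
    have h5 : 0 ≤ 1 - (1 - χ ^ 2) * ρ := by nlinarith [sq_nonneg χ]
    calc χ * (1 - χ) * ρ ≤ κ * (1 - (1 - χ ^ 2) * ρ) * ρ := mul_le_mul_of_nonneg_right h3 h0
      _ = (κ * ρ) * (1 - (1 - χ ^ 2) * ρ) := by ring
      _ ≤ (κ * G0) * (1 - (1 - χ ^ 2) * ρ) :=
          mul_le_mul_of_nonneg_right (mul_le_mul_of_nonneg_left h1 hκ0) h5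
      _ ≤ c' * (1 - (1 - χ ^ 2) * ρ) := mul_le_mul_of_nonneg_right hc1 h5
  have hc2' : χ * (1 + χ) * (c - G0) ≤ c' := by
    rcases le_total 0 (c - G0) with h0 | h0
    · have h1 := hkey2 (c - G0) h0 hR2
      have h2 : 0 ≤ K * E + (1 - χ0) * L := by
        have := mul_nonneg (sub_nonneg.2 hχ01) hL0
        linarith
      rcases le_total χ χ0 with h3 | h3
      · have h4 : χ * (1 + χ) * (c - G0) ≤ χ0 * (1 + χ0) * (c - G0) := by
          apply mul_le_mul_of_nonneg_right _ h0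
          nlinarith
        have h5 : 0 ≤ (2 + χ0) * (K * E + (1 - χ0) * L) := mul_nonneg (by linarith) h2
        linarith
      · have h4 : χ * (1 + χ) * (c - G0) = χ0 * (1 + χ0) * (c - G0) +
            (1 + χ + χ0) * ((χ - χ0) * (c - G0)) := by ring
        have h5 : (1 + χ + χ0) * ((χ - χ0) * (c - G0)) ≤
            (2 + χ0) * (K * E + (1 - χ0) * L) := by
          have h6 : 0 ≤ (χ - χ0) * (c - G0) := mul_nonneg (by linarith) h0
          calc (1 + χ + χ0) * ((χ - χ0) * (c - G0)) ≤ (2 + χ0) * ((χ - χ0) * (c - G0)) :=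
                mul_le_mul_of_nonneg_right (by linarith) h6
            _ ≤ _ := mul_le_mul_of_nonneg_left h1 (by linarith)
        linarith
    · have : χ * (1 + χ) * (c - G0) ≤ 0 :=
        mul_nonpos_of_nonneg_of_nonpos (by positivity) h0
      linarith
  refine h.one hK χ hχ00 hχ1 hχ2 (by linarith) ?_ ?_ hc0 hPc hc2'
  · rcases le_total 0 G0 with h0 | h0
    · have := hkey G0 h0 hR1
      nlinarith
    · -- `G0 ≤ 0`: use `hb2`
      have := hkey2 (c - G0) (by linarith) hR2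
      nlinarith [mul_nonneg hχ00 hc, mul_nonneg hχ0.le hc]
  · rcases le_total 0 (c - G0) with h0 | h0
    · have := hkey2 (c - G0) h0 hR2
      nlinarith
    · have := hkey G0 (by linarith) hR1
      nlinarith [mul_nonneg hχ00 hc, mul_nonneg hχ0.le hc, mul_nonneg hχ00 (sub_nonneg.2
        (show c ≤ G0 by linarith))]

/-- **one child**, without any condition -/
theorem MMaj.one_triv (hK : Ker S) {f : Fin m → ℝ} {x y : ℝ[X]} {G0 b c : ℝ}
    (h : MMaj S f x y G0 b c) {b' c' : ℝ} (hb1 : b' ≤ b) (hb2 : b' ≤ b + 2 * G0 - c)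
    (hc0 : 0 ≤ c') (hc2 : 2 * (c - G0) ≤ c') : Maj S f x y b' c' := by
  obtain ⟨M, g, hM, hg0, hgc, hlog, -, hf⟩ := h
  refine ⟨M, fun _ => max (g - G0) 0, hM, fun i => le_max_right _ _, fun i => ?_, ?_, ?_⟩
  · refine (hf i).trans (mul_le_mul_of_nonneg_left ?_ hM.le)
    have := le_max_left (g - G0) 0
    linarith
  · rw [mn_const hK.pos]
    rcases le_total (g - G0) 0 with h0 | h0
    · rw [max_eq_right h0]; linarith
    · rw [max_eq_left h0]; linarith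
  · rw [mn_const hK.pos]
    rcases le_total (g - G0) 0 with h0 | h0
    · rw [max_eq_right h0]; linarith
    · rw [max_eq_left h0]; linarith

/-! ### two children -/

theorem sq_prod_le (a b : ℝ) : a * b ≤ ((a + b) / 2) ^ 2 := by nlinarith [sq_nonneg (a - b)]

/-- two children, exact form -/
theorem two_raw (hK : Ker S) {f1 f2 : Fin m → ℝ} {x y : ℝ[X]} {M1 M2 ρ1 ρ2 : ℝ}
    {ξ1 ξ2 : Fin m → ℝ}
    (hM1 : 0 < M1) (hM2 : 0 < M2) (hf1 : ∀ i, 0 ≤ f1 i) (hf2 : ∀ i, 0 ≤ f2 i)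
    (h1 : ∀ i, f1 i ≤ M1 * (1 - ρ1 + ξ1 i)) (h2 : ∀ i, f2 i ≤ M2 * (1 - ρ2 + ξ2 i))
    (hW : ∀ i, ξ1 i + ξ2 i = st S x y i) (hρ : ρ1 + ρ2 < 1) :
    ∃ G : Fin m → ℝ, (∀ i, 0 ≤ G i) ∧
      (∀ i, f1 i * f2 i ≤ (M1 * M2 * (1 - (ρ1 + ρ2))) * (1 + st S x y i + G i)) ∧
      2 * mn G = (en S x y + (ρ1 + ρ2) ^ 2) / (2 * (1 - (ρ1 + ρ2))) := by
  have hP : 0 < 1 - (ρ1 + ρ2) := by linarith
  refine ⟨fun i => (st S x y i + (ρ1 + ρ2)) ^ 2 / (4 * (1 - (ρ1 + ρ2))), fun i => by positivity,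
    fun i => ?_, ?_⟩
  · have h3 : f1 i * f2 i ≤ (M1 * (1 - ρ1 + ξ1 i)) * (M2 * (1 - ρ2 + ξ2 i)) :=
      mul_le_mul (h1 i) (h2 i) (hf2 i) ((hf1 i).trans (h1 i))
    have h4 := sq_prod_le (1 - ρ1 + ξ1 i) (1 - ρ2 + ξ2 i)
    have e : (M1 * M2 * (1 - (ρ1 + ρ2))) *
        (1 + st S x y i + (st S x y i + (ρ1 + ρ2)) ^ 2 / (4 * (1 - (ρ1 + ρ2)))) =
        M1 * M2 * ((1 - (ρ1 + ρ2)) * (1 + st S x y i) + (st S x y i + (ρ1 + ρ2)) ^ 2 / 4) := by
      field_simp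
    rw [e, ← hW i]
    calc f1 i * f2 i ≤ (M1 * M2) * ((1 - ρ1 + ξ1 i) * (1 - ρ2 + ξ2 i)) := by
          refine h3.trans (le_of_eq ?_); ring
      _ ≤ (M1 * M2) * (((1 - ρ1 + ξ1 i) + (1 - ρ2 + ξ2 i)) / 2) ^ 2 :=
          mul_le_mul_of_nonneg_left h4 (by positivity)
      _ = _ := by ring
  · have e : (fun i => (st S x y i + (ρ1 + ρ2)) ^ 2 / (4 * (1 - (ρ1 + ρ2)))) = fun i =>
        (1 / (4 * (1 - (ρ1 + ρ2)))) * ((st S x y i * st S x y i + (2 * (ρ1 + ρ2)) * st S x y i) +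
          (ρ1 + ρ2) ^ 2) := by
      funext i
      field_simp
      ring
    have h5 : (mn fun i => st S x y i * st S x y i) = en S x y := by
      rw [← ip_st_self hK.anti]; rfl
    rw [e, mn_mul, mn_add, mn_add, mn_mul, mn_const hK.pos, h5, mn_st S hK.anti]
    field_simp
    ring

/-- `-log(1-ρ) - ρ - ρ²/(2(1-ρ)) ≥ - ρ³/(2(1-ρ)) + ρ³/3` for `0 ≤ ρ < 1` -/
theorem log_two_pos (ρ : ℝ) (h0 : 0 ≤ ρ) (h1 : ρ < 1) :
    Real.log (1 - ρ) + ρ ^ 2 / (2 * (1 - ρ)) ≤ - ρ + ρ ^ 3 * (1 / (2 * (1 - ρ)) - 1 / 3) := by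
  have h1r : 0 < 1 - ρ := by linarith
  have hlog : ρ + ρ ^ 2 / 2 + ρ ^ 3 / 3 ≤ - Real.log (1 - ρ) := by
    have h := Real.hasSum_pow_div_log_of_abs_lt_one (x := ρ) (by rw [abs_of_nonneg h0]; linarith)
    have h2 := h.summable.sum_le_tsum (Finset.range 3) (fun i _ => by positivity)
    rw [h.tsum_eq] at h2
    simp only [Finset.sum_range_succ, Finset.sum_range_zero] at h2
    norm_num at h2
    linarith
  have e : ρ ^ 3 * (1 / (2 * (1 - ρ)) - 1 / 3) = ρ ^ 2 / (2 * (1 - ρ)) - ρ ^ 2 / 2 - ρ ^ 3 / 3 := by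
    field_simp
    ring
  rw [e]
  linarith

/-- `log(1+a) + a²/(2(1+a)) ≤ a` for `a ≥ 0` -/
theorem log_two_neg (a : ℝ) (h0 : 0 ≤ a) : Real.log (1 + a) + a ^ 2 / (2 * (1 + a)) ≤ a := by
  have h1 : 0 < 1 + a := by linarith
  -- `log (1+a) ≤ a (a+2) / (2 (a+1))`
  have h2 : Real.log (1 + a) ≤ ((1 + a) - 1 / (1 + a)) / 2 := by
    have h := Real.log_le_sub_one_of_pos (show (0 : ℝ) < 1 by norm_num)
    have hm : MonotoneOn (fun x : ℝ => (x - 1 / x) / 2 - Real.log x) (Set.Ici 1) := by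
      apply monotoneOn_of_deriv_nonneg (convex_Ici 1)
      · refine ContinuousOn.sub (ContinuousOn.div_const (ContinuousOn.sub continuousOn_id
          (ContinuousOn.div continuousOn_const continuousOn_id fun x hx => ?_)) 2)
          (ContinuousOn.log continuousOn_id fun x hx => ?_)
        · have hx1 : (1 : ℝ) ≤ x := hx
          exact (by linarith : (0 : ℝ) < x).ne'
        · have hx1 : (1 : ℝ) ≤ x := hx
          exact (by linarith : (0 : ℝ) < x).ne'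
      · intro x hx
        simp only [interior_Ici, Set.mem_Ioi] at hx
        have hx0 : x ≠ 0 := by positivity
        apply DifferentiableAt.differentiableWithinAt
        fun_prop (disch := assumption)
      · intro x hx
        simp only [interior_Ici, Set.mem_Ioi] at hx
        have hx0 : x ≠ 0 := by positivity
        have hd : HasDerivAt (fun x : ℝ => (x - 1 / x) / 2 - Real.log x)
            ((1 - (0 * x - 1 * 1) / x ^ 2) / 2 - 1 / x) x := by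
          have h1 := (hasDerivAt_id x).fun_sub
            (((hasDerivAt_const x (1 : ℝ)).fun_div (hasDerivAt_id x) hx0))
          have h2 := (h1.div_const 2).fun_sub ((hasDerivAt_id x).log hx0)
          simpa using h2
        rw [hd.deriv]
        have : (1 - (0 * x - 1 * 1) / x ^ 2) / 2 - 1 / x = (1 - 1 / x) ^ 2 / 2 := by
          field_simp
          ring
        rw [this]
        positivity
    have h3 := hm (Set.mem_Ici.2 le_rfl) (Set.mem_Ici.2 (by linarith : (1 : ℝ) ≤ 1 + a))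
      (by linarith)
    simp only [Real.log_one] at h3
    norm_num at h3
    rw [one_div]
    linarith
  refine (add_le_add_left h2 _).trans (le_of_eq ?_)
  field_simp
  ring

/-- the value of the rule for two children -/
theorem log_two (ρ P δ : ℝ) (hP0 : 0 ≤ P) (hP1 : P < 1) (hρP : ρ ≤ P) (hδ : 0 ≤ δ) :
    Real.log (1 - ρ) + (δ + ρ ^ 2) / (2 * (1 - ρ)) ≤
      - ρ + δ / (2 * (1 - P)) + P ^ 2 * (1 / (2 * (1 - P)) - 1 / 3) * max ρ 0 := by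
  have h1P : 0 < 1 - P := by linarith
  have hK : 0 ≤ 1 / (2 * (1 - P)) - 1 / 3 := by
    rw [sub_nonneg, div_le_div_iff₀ (by norm_num) (by positivity)]
    linarith
  rcases le_total 0 ρ with h0 | h0
  · have h1 : 0 < 1 - ρ := by linarith
    have h2 := log_two_pos ρ h0 (by linarith)
    have h3 : δ / (2 * (1 - ρ)) ≤ δ / (2 * (1 - P)) :=
      div_le_div_of_nonneg_left hδ (by positivity) (by linarith)
    have h4 : 1 / (2 * (1 - ρ)) ≤ 1 / (2 * (1 - P)) :=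
      div_le_div_of_nonneg_left one_pos.le (by positivity) (by linarith)
    have h5 : ρ ^ 3 * (1 / (2 * (1 - ρ)) - 1 / 3) ≤
        P ^ 2 * (1 / (2 * (1 - P)) - 1 / 3) * ρ := by
      calc ρ ^ 3 * (1 / (2 * (1 - ρ)) - 1 / 3) ≤ ρ ^ 3 * (1 / (2 * (1 - P)) - 1 / 3) :=
            mul_le_mul_of_nonneg_left (by linarith) (by positivity)
        _ = (ρ ^ 2) * ((1 / (2 * (1 - P)) - 1 / 3) * ρ) := by ring
        _ ≤ (P ^ 2) * ((1 / (2 * (1 - P)) - 1 / 3) * ρ) := by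
            apply mul_le_mul_of_nonneg_right _ (mul_nonneg hK h0)
            exact pow_le_pow_left₀ h0 hρP 2
        _ = _ := by ring
    rw [max_eq_left h0, add_div]
    linarith
  · have h2 := log_two_neg (-ρ) (by linarith)
    have e1 : 1 + -ρ = 1 - ρ := by ring
    rw [e1, neg_sq] at h2
    have h1 : 0 < 1 - ρ := by linarith
    have h3 : δ / (2 * (1 - ρ)) ≤ δ / (2 * (1 - P)) :=
      div_le_div_of_nonneg_left hδ (by positivity) (by linarith)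
    rw [max_eq_right h0, add_div]
    linarith

/-- the function `h(ρ) = - log (1-ρ) - ρ²/(2(1-ρ))` -/
theorem two_h (ρ P η : ℝ) (hP1 : P < 1) (hρP : ρ ≤ P) (h0 : 0 ≤ ρ)
    (hη : P ^ 2 * (1 / (2 * (1 - P)) - 1 / 3) ≤ 1 - η) :
    Real.log (1 - ρ) + ρ ^ 2 / (2 * (1 - ρ)) ≤ - (η * ρ) := by
  have h1P : 0 < 1 - P := by linarith
  have h1 : 0 < 1 - ρ := by linarith
  have h2 := log_two_pos ρ h0 (by linarith)
  have h4 : 1 / (2 * (1 - ρ)) ≤ 1 / (2 * (1 - P)) :=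
    div_le_div_of_nonneg_left one_pos.le (by positivity) (by linarith)
  have hK : 0 ≤ 1 / (2 * (1 - P)) - 1 / 3 := by
    rw [sub_nonneg, div_le_div_iff₀ (by norm_num) (by positivity)]
    linarith
  have h5 : ρ ^ 3 * (1 / (2 * (1 - ρ)) - 1 / 3) ≤ (1 - η) * ρ := by
    calc ρ ^ 3 * (1 / (2 * (1 - ρ)) - 1 / 3) ≤ ρ ^ 3 * (1 / (2 * (1 - P)) - 1 / 3) :=
          mul_le_mul_of_nonneg_left (by linarith) (by positivity)
      _ = (ρ ^ 2) * ((1 / (2 * (1 - P)) - 1 / 3) * ρ) := by ring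
      _ ≤ (P ^ 2) * ((1 / (2 * (1 - P)) - 1 / 3) * ρ) := by
          apply mul_le_mul_of_nonneg_right _ (mul_nonneg hK h0)
          exact pow_le_pow_left₀ h0 hρP 2
      _ = P ^ 2 * (1 / (2 * (1 - P)) - 1 / 3) * ρ := by ring
      _ ≤ _ := mul_le_mul_of_nonneg_right hη h0
  linarith

/-- the same with five terms of the series -/
theorem two_h' (ρ P η : ℝ) (hP1 : P < 1) (hρP : ρ ≤ P) (h0 : 0 ≤ ρ)
    (hη : P ^ 2 / (2 * (1 - P)) - P ^ 2 / 3 - P ^ 3 / 4 - P ^ 4 / 5 - P ^ 5 / 6 ≤ 1 - η) :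
    Real.log (1 - ρ) + ρ ^ 2 / (2 * (1 - ρ)) ≤ - (η * ρ) := by
  have h1P : 0 < 1 - P := by linarith
  have h1 : 0 < 1 - ρ := by linarith
  have hlog : ρ + ρ ^ 2 / 2 + ρ ^ 3 / 3 + ρ ^ 4 / 4 + ρ ^ 5 / 5 + ρ ^ 6 / 6 ≤
      - Real.log (1 - ρ) := by
    have h := Real.hasSum_pow_div_log_of_abs_lt_one (x := ρ) (by rw [abs_of_nonneg h0]; linarith)
    have h2 := h.summable.sum_le_tsum (Finset.range 6) (fun i _ => by positivity)
    rw [h.tsum_eq] at h2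
    simp only [Finset.sum_range_succ, Finset.sum_range_zero] at h2
    norm_num at h2
    linarith
  -- `ρ/(1-ρ) = ρ + ρ² + ρ³ + ρ⁴ + ρ⁵/(1-ρ)`
  have hdiv : ρ / (1 - ρ) = ρ + ρ ^ 2 + ρ ^ 3 + ρ ^ 4 + ρ ^ 5 / (1 - ρ) := by
    field_simp
    ring
  have hdivP : P / (1 - P) = P + P ^ 2 + P ^ 3 + P ^ 4 + P ^ 5 / (1 - P) := by
    field_simp
    ring
  have h5 : ρ ^ 5 / (1 - ρ) ≤ P ^ 5 / (1 - P) := by
    have h6 : ρ ^ 5 ≤ P ^ 5 := pow_le_pow_left₀ h0 hρP 5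
    calc ρ ^ 5 / (1 - ρ) ≤ P ^ 5 / (1 - ρ) := div_le_div_of_nonneg_right h6 h1.le
      _ ≤ _ := div_le_div_of_nonneg_left (pow_nonneg (h0.trans hρP) 5) h1P (by linarith)
  have hP0 : 0 ≤ P := h0.trans hρP
  have h2 : ρ ^ 2 ≤ P ^ 2 := pow_le_pow_left₀ h0 hρP 2
  have h3 : ρ ^ 3 ≤ P ^ 3 := pow_le_pow_left₀ h0 hρP 3
  have h4 : ρ ^ 4 ≤ P ^ 4 := pow_le_pow_left₀ h0 hρP 4
  have h55 : ρ ^ 5 ≤ P ^ 5 := pow_le_pow_left₀ h0 hρP 5
  have h66 : 0 ≤ P * (P ^ 5 / (1 - P)) - ρ * (ρ ^ 5 / (1 - ρ)) := by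
    have : ρ * (ρ ^ 5 / (1 - ρ)) ≤ P * (P ^ 5 / (1 - P)) :=
      mul_le_mul hρP h5 (by positivity) hP0
    linarith
  have hd1 : ρ ^ 2 / (2 * (1 - ρ)) = ρ / 2 * (ρ / (1 - ρ)) := by
    field_simp
  have hd2 : P ^ 2 / (2 * (1 - P)) = P / 2 * (P / (1 - P)) := by
    field_simp
  rw [hd1, hdiv]
  rw [hd2, hdivP] at hη
  have h7 : ρ * (ρ / 2 * (ρ + ρ ^ 2 + ρ ^ 3 + ρ ^ 4 + ρ ^ 5 / (1 - ρ)) * 0) = 0 := by ring
  have h8 : ρ / 2 * (ρ + ρ ^ 2 + ρ ^ 3 + ρ ^ 4 + ρ ^ 5 / (1 - ρ)) - (ρ ^ 2 / 2 + ρ ^ 3 / 3 +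
      ρ ^ 4 / 4 + ρ ^ 5 / 5 + ρ ^ 6 / 6) ≤ (1 - η) * ρ := by
    have h9 : ρ / 2 * (ρ + ρ ^ 2 + ρ ^ 3 + ρ ^ 4 + ρ ^ 5 / (1 - ρ)) - (ρ ^ 2 / 2 + ρ ^ 3 / 3 +
        ρ ^ 4 / 4 + ρ ^ 5 / 5 + ρ ^ 6 / 6) = ρ * (ρ ^ 2 / 6 + ρ ^ 3 / 4 + ρ ^ 4 * (3 / 10) +
          ρ ^ 5 / (1 - ρ) / 2 - ρ ^ 5 / 6) := by
      ring
    have h10 : P / 2 * (P + P ^ 2 + P ^ 3 + P ^ 4 + P ^ 5 / (1 - P)) - P ^ 2 / 3 - P ^ 3 / 4 -
        P ^ 4 / 5 - P ^ 5 / 6 = P ^ 2 / 6 + P ^ 3 / 4 + P ^ 4 * (3 / 10) + P ^ 5 / 3 +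
          P * (P ^ 5 / (1 - P)) / 2 := by
      ring
    rw [h9, mul_comm]
    apply mul_le_mul_of_nonneg_right _ h0
    rw [h10] at hη
    have h11 : ρ ^ 5 / (1 - ρ) = ρ ^ 5 + ρ * (ρ ^ 5 / (1 - ρ)) := by
      field_simp
      ring
    rw [h11]
    linarith
  linarith

/-- **two children**, exact form; `P` is an upper bound of the net gain, `η` the factor of the
gain (`two_h`, `two_h'`), `Q` a bound for `min (c - G0) 1` -/
theorem MMaj.two (hK : Ker S) {f1 f2 : Fin m → ℝ} {x1 y1 x2 y2 : ℝ[X]}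
    {G1 G2 b1 b2 c1 c2 : ℝ} (h1 : MMaj S f1 x1 y1 G1 b1 c1) (h2 : MMaj S f2 x2 y2 G2 b2 c2)
    (P η G0 : ℝ) (hP1 : P < 1) (hP0 : 0 ≤ P) (hG0 : G0 ≤ G1 + G2) (hGP : G0 ≤ P) (hη1 : η ≤ 1)
    (hη0 : 0 ≤ η)
    (hη : ∀ ρ, 0 ≤ ρ → ρ ≤ P → Real.log (1 - ρ) + ρ ^ 2 / (2 * (1 - ρ)) ≤ - (η * ρ)) {b' c' : ℝ}
    (hb1 : b' ≤ b1 + b2 + η * G0 - en S (x1 + x2) (y1 + y2) / (2 * (1 - P)))
    (hb2 : b' ≤ b1 + b2 + G0 - en S (x1 + x2) (y1 + y2) / (2 * (1 - P)))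
    (hc1 : en S (x1 + x2) (y1 + y2) / (2 * (1 - P)) + P / (2 * (1 - P)) * G0 ≤ c')
    (hc0 : en S (x1 + x2) (y1 + y2) / (2 * (1 - P)) ≤ c')
    (hc2 : en S (x1 + x2) (y1 + y2) / 2 + (c1 + c2 - G0) / 2 ≤ c') :
    Maj S (fun i => f1 i * f2 i) (x1 + x2) (y1 + y2) b' c' := by
  obtain ⟨M1, g1, hM1, hg1, hgc1, hlog1, hf1, hb1'⟩ := h1
  obtain ⟨M2, g2, hM2, hg2, hgc2, hlog2, hf2, hb2'⟩ := h2
  set δ := en S (x1 + x2) (y1 + y2) with hδd
  have hδ0 : 0 ≤ δ := en_nonneg hK.anti _ _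
  -- lower the gain to the cap
  have hb1'' : ∀ i, f1 i ≤ M1 * (1 - (G0 - G2 - g1) + st S x1 y1 i) := fun i =>
    (hb1' i).trans (mul_le_mul_of_nonneg_left (by linarith) hM1.le)
  set ρ := (G0 - G2 - g1) + (G2 - g2) with hρd
  have hρe : ρ = G0 - (g1 + g2) := by rw [hρd]; ring
  have hρP : ρ ≤ P := by linarith
  have h1P : 0 < 1 - P := by linarith
  have h1ρ : 0 < 1 - ρ := by linarith
  obtain ⟨G, hG, hGb, hmG⟩ := two_raw hK (S := S) (x := x1 + x2) (y := y1 + y2) hM1 hM2 hf1 hf2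
    hb1'' hb2' (fun i => by rw [st_add]; rfl) (by linarith)
  rw [← hρd, ← hδd] at hmG
  rw [← hρd] at hGb
  have hδρ : δ / (2 * (1 - ρ)) ≤ δ / (2 * (1 - P)) :=
    div_le_div_of_nonneg_left hδ0 (by positivity) (by linarith)
  refine ⟨M1 * M2 * (1 - ρ), G, by positivity, hG, hGb, ?_, ?_⟩
  · rw [Real.log_mul (by positivity) h1ρ.ne', Real.log_mul hM1.ne' hM2.ne', hmG, add_div]
    rcases le_total 0 ρ with h0 | h0
    · have h3 := hη ρ h0 hρP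
      have h4 : η * ρ = η * G0 - η * (g1 + g2) := by rw [hρe]; ring
      have h5 : η * (g1 + g2) ≤ g1 + g2 := mul_le_of_le_one_left (by linarith) hη1
      linarith
    · have h3 := log_two_neg (-ρ) (by linarith)
      have e1 : 1 + -ρ = 1 - ρ := by ring
      rw [e1, neg_sq] at h3
      linarith
  · rw [hmG, add_div]
    rcases le_total 0 ρ with h0 | h0
    · have h5 : ρ ^ 2 / (2 * (1 - ρ)) ≤ P / (2 * (1 - P)) * ρ := by
        rw [div_le_iff₀ (by positivity)]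
        have h6 : P / (2 * (1 - P)) * ρ * (2 * (1 - ρ)) = P * ρ * ((1 - ρ) / (1 - P)) := by
          field_simp
        rw [h6]
        have h7 : 1 ≤ (1 - ρ) / (1 - P) := by
          rw [le_div_iff₀ h1P]; linarith
        calc ρ ^ 2 = ρ * ρ := sq ρ
          _ ≤ P * ρ := mul_le_mul_of_nonneg_right hρP h0
          _ ≤ P * ρ * ((1 - ρ) / (1 - P)) := le_mul_of_one_le_right (by positivity) h7
      have h8 : P / (2 * (1 - P)) * ρ ≤ P / (2 * (1 - P)) * G0 := by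
        apply mul_le_mul_of_nonneg_left _ (by positivity)
        linarith
      linarith
    · have h4 : δ / (2 * (1 - ρ)) ≤ δ / 2 :=
        div_le_div_of_nonneg_left hδ0 (by norm_num) (by linarith)
      have h5 : ρ ^ 2 / (2 * (1 - ρ)) ≤ (c1 + c2 - G0) / 2 := by
        have h6 : ρ ^ 2 / (2 * (1 - ρ)) ≤ - ρ / 2 := by
          rw [div_le_div_iff₀ (by positivity) (by norm_num)]
          nlinarith
        refine h6.trans ?_
        linarith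
      linarith

/-! ### any number of children -/

/-- **the AM-GM step**; `cq` is the quadratic constant of `multi_step`, `P` an upper bound of the
net gain per child, `R` a bound of its absolute value -/
theorem many (hK : Ker S) {ι : Type} (s : Finset ι) (k : ℕ) (hk : s.card = k) (hk0 : 0 < k)
    (f : ι → Fin m → ℝ) (x y : ι → ℝ[X]) (G0 b c : ι → ℝ)
    (h : ∀ i ∈ s, MMaj S (f i) (x i) (y i) (G0 i) (b i) (c i)) (cq v : ℝ) (hcq : 0 ≤ cq)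
    (hv : en S (∑ i ∈ s, x i) (∑ i ∈ s, y i) ≤ v) {b' c' : ℝ}
    (hr1 : ∑ i ∈ s, G0 i < k)
    (hc : ∀ r, k * r ≤ ∑ i ∈ s, G0 i → ∑ i ∈ s, G0 i - ∑ i ∈ s, c i ≤ k * r → ∀ z,
      0 ≤ 1 + st S (∑ i ∈ s, x i) (∑ i ∈ s, y i) z / (1 - r) / k →
      (1 + st S (∑ i ∈ s, x i) (∑ i ∈ s, y i) z / (1 - r) / k) ^ k ≤
        1 + st S (∑ i ∈ s, x i) (∑ i ∈ s, y i) z / (1 - r) +
          cq * (st S (∑ i ∈ s, x i) (∑ i ∈ s, y i) z / (1 - r)) ^ 2)
    (hb : ∀ r, k * r ≤ ∑ i ∈ s, G0 i → ∑ i ∈ s, G0 i - ∑ i ∈ s, c i ≤ k * r →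
      b' ≤ ∑ i ∈ s, b i + (∑ i ∈ s, G0 i - k * r) - k * Real.log (1 - r) -
        (2 * (cq * v / (1 - r) ^ 2) + |r| / (1 - r) * Real.sqrt v))
    (hc' : ∀ r, k * r ≤ ∑ i ∈ s, G0 i → ∑ i ∈ s, G0 i - ∑ i ∈ s, c i ≤ k * r →
      2 * (cq * v / (1 - r) ^ 2) + |r| / (1 - r) * Real.sqrt v ≤ c') :
    Maj S (fun z => ∏ i ∈ s, f i z) (∑ i ∈ s, x i) (∑ i ∈ s, y i) b' c' := by
  classical
  have hkR : (0 : ℝ) < k := by exact_mod_cast hk0
  choose! M g hM hg0 hgc hlog hf0 hf using h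
  set r := (∑ i ∈ s, (G0 i - g i)) / k with hrd
  have hkr : k * r = ∑ i ∈ s, G0 i - ∑ i ∈ s, g i := by
    rw [hrd, mul_div_cancel₀ _ hkR.ne', sum_sub_distrib]
  have hgs : 0 ≤ ∑ i ∈ s, g i := sum_nonneg hg0
  have hgcs : ∑ i ∈ s, g i ≤ ∑ i ∈ s, c i := sum_le_sum hgc
  have hr11 : r < 1 := by
    have : k * r < k * 1 := by linarith
    exact lt_of_mul_lt_mul_left this hkR.le
  have hr1' : k * r ≤ ∑ i ∈ s, G0 i := by linarith
  have hr2' : ∑ i ∈ s, G0 i - ∑ i ∈ s, c i ≤ k * r := by linarith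
  have hst : ∀ (s : Finset ι), st S (∑ i ∈ s, x i) (∑ i ∈ s, y i) = ∑ i ∈ s, st S (x i) (y i) := by
    intro s
    induction s using Finset.induction_on with
    | empty => simp [st_zero]
    | insert a s ha ih => rw [sum_insert ha, sum_insert ha, sum_insert ha, st_add, ih]
  obtain ⟨G, hG1, hG2, hG3⟩ := multi_step hK.pos s k hk hk0 f M (fun i => - (G0 i - g i))
    (fun i => st S (x i) (y i)) hM (fun i hi z => hf0 i hi z)
    (fun i hi z => by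
      refine (hf i hi z).trans (le_of_eq ?_)
      ring) r (by
      rw [sum_neg_distrib, hrd, mul_div_cancel₀ _ hkR.ne']) hr11
    (st S (∑ i ∈ s, x i) (∑ i ∈ s, y i)) (fun z => by rw [hst]; simp) (mn_st S hK.anti _ _) v
    (by rw [ip_st_self hK.anti]; exact hv) cq hcq (hc r hr1' hr2')
  have h1r : 0 < 1 - r := by linarith
  have hPp : 0 < ∏ i ∈ s, M i := prod_pos hM
  have hmax : 2 * mn (fun z => max (G z) 0) = mn G + mn fun z => |G z| := by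
    rw [← mn_mul, ← mn_add]
    congr 1
    funext z
    rcases le_total (G z) 0 with h0 | h0
    · rw [max_eq_right h0, abs_of_nonpos h0]; ring
    · rw [max_eq_left h0, abs_of_nonneg h0]; ring
  have hcost : 2 * mn (fun z => max (G z) 0) ≤
      2 * (cq * v / (1 - r) ^ 2) + |r| / (1 - r) * Real.sqrt v := by
    rw [hmax]; linarith
  refine ⟨(∏ i ∈ s, M i) * (1 - r) ^ k, fun z => max (G z) 0, by positivity,
    fun z => le_max_right _ _, fun z => ?_, ?_, hcost.trans (hc' r hr1' hr2')⟩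
  · refine (hG1 z).trans (mul_le_mul_of_nonneg_left ?_ (by positivity))
    have := le_max_left (G z) 0
    linarith
  · rw [Real.log_mul hPp.ne' (by positivity), Real.log_prod (fun i hi => (hM i hi).ne'),
      Real.log_pow]
    have h3 := hb r hr1' hr2'
    have h4 : ∑ i ∈ s, Real.log (M i) + ∑ i ∈ s, g i ≤ - ∑ i ∈ s, b i := by
      rw [← sum_add_distrib, ← sum_neg_distrib]
      exact sum_le_sum hlog
    linarith

end Pool.Agent.TSM
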