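import Mathlib

set_option autoImplicit false

/-!
# The sharp step for `X p` (MP_d27362_co)

For a weighted Dirichlet seminorm `N`, `N(X p)² + b (p(t) - p(T))²` is at most
`T² (κ p(T)² + lam N(p)²)` if `b` times the integral of `1 / (W(s) (lam T² - s²))` over `[t, T]` is
at most one. The integral is bounded by an upper sum in natural numbers.
-/

namespace Pool.Agent.TSM

open Polynomial MeasureTheory

/-- Cauchy-Schwarz with a weight -/
lemma t4_core {T t b : ℝ} {φ : ℝ → ℝ} (ht : t ≤ T) (hφ : ContinuousOn φ (Set.Icc t T))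
    (hpos : ∀ s ∈ Set.Icc t T, 0 < φ s) (hb : 0 ≤ b) (hI : b * ∫ s in t..T, 1 / φ s ≤ 1)
    (p : ℝ[X]) :
    b * (p.eval t - p.eval T) ^ 2 ≤ ∫ s in t..T, φ s * (derivative p).eval s ^ 2 := by
  have hd : (∫ s in t..T, (derivative p).eval s) = p.eval T - p.eval t := by
    apply intervalIntegral.integral_eq_sub_of_hasDerivAt
    · intro x _
      exact p.hasDerivAt x
    · exact (derivative p).continuous.intervalIntegrable t T
  obtain ⟨A, hA⟩ : ∃ A, A = p.eval T - p.eval t := ⟨_, rfl⟩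
  have hu : Set.uIcc t T = Set.Icc t T := Set.uIcc_of_le ht
  have hpc : ContinuousOn (fun s => (derivative p).eval s) (Set.Icc t T) :=
    (derivative p).continuous.continuousOn
  have hψ : ContinuousOn (fun s => 1 / φ s) (Set.Icc t T) :=
    continuousOn_const.div hφ fun s hs => (hpos s hs).ne'
  have i1 : IntervalIntegrable (fun s => φ s * (derivative p).eval s ^ 2) volume t T := by
    apply ContinuousOn.intervalIntegrable
    rw [hu]
    exact hφ.mul (hpc.pow 2)
  have i2 : IntervalIntegrable (fun s => (derivative p).eval s) volume t T :=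
    (derivative p).continuous.intervalIntegrable t T
  have i3 : IntervalIntegrable (fun s => 1 / φ s) volume t T := by
    apply ContinuousOn.intervalIntegrable
    rw [hu]
    exact hψ
  -- the square
  have h0 : 0 ≤ ∫ s in t..T, (φ s * (derivative p).eval s ^ 2 -
      (2 * (b * A)) * (derivative p).eval s + (b * A) ^ 2 * (1 / φ s)) := by
    apply intervalIntegral.integral_nonneg ht
    intro s hs
    have h1 := hpos s hs
    have e : φ s * (derivative p).eval s ^ 2 - (2 * (b * A)) * (derivative p).eval s +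
        (b * A) ^ 2 * (1 / φ s) = (φ s * (derivative p).eval s - b * A) ^ 2 / φ s := by
      field_simp
      ring
    rw [e]
    positivity
  rw [intervalIntegral.integral_add (i1.sub (i2.const_mul _)) (i3.const_mul _),
    intervalIntegral.integral_sub i1 (i2.const_mul _), intervalIntegral.integral_const_mul,
    intervalIntegral.integral_const_mul, hd, ← hA] at h0
  have h2 : (b * A) ^ 2 * ∫ s in t..T, 1 / φ s ≤ b * A ^ 2 := by
    have := mul_le_mul_of_nonneg_left hI (mul_nonneg hb (sq_nonneg A))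
    nlinarith
  have h3 : (p.eval t - p.eval T) ^ 2 = A ^ 2 := by rw [hA]; ring
  rw [h3]
  nlinarith

/-- the upper sum: `D = b - a` and `M = b N²` where the interval is `[1 - (b - a) / b, 1]`,
`lam = L / 10^4`, the numerator is `al + be u` -/
def t4s (al be D M L : ℕ) : ℕ → ℕ
  | 0 => 0
  | i + 1 => t4s al be D M L i +
      (1000000 * (D * (2 * i + 1) * (al * M + be * D * (i + 1) ^ 2) * 10000) /
        (L * M ^ 2 - 10000 * (M - D * i ^ 2) ^ 2) + 1)

/-- the function under the integral -/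
noncomputable def t4F (T κ lam : ℝ) (al be : ℕ) (s : ℝ) : ℝ :=
  (al + be * (1 - s / T)) / (κ * T * (lam * T ^ 2 - s ^ 2))

lemma t4F_cont {T κ lam : ℝ} {al be : ℕ} (hT : 0 < T) (hκ : 0 < κ) (hl : 1 < lam) {x : ℝ}
    (hx0 : 0 ≤ x) :
    ContinuousOn (t4F T κ lam al be) (Set.Icc x T) := by
  unfold t4F
  apply ContinuousOn.div
  · fun_prop
  · fun_prop
  · intro s hs
    have h1 : s ^ 2 ≤ T ^ 2 := pow_le_pow_left₀ (hx0.trans hs.1) hs.2 2
    have h2 : T ^ 2 < lam * T ^ 2 := by nlinarith [pow_pos hT 2]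
    have h3 : 0 < lam * T ^ 2 - s ^ 2 := by linarith
    positivity

lemma t4F_nonneg {T κ lam : ℝ} {al be : ℕ} (hT : 0 < T) (hκ : 0 < κ) (hl : 1 < lam) {s : ℝ}
    (h0 : 0 ≤ s) (h1 : s ≤ T) : 0 ≤ t4F T κ lam al be s := by
  unfold t4F
  have h3 : s ^ 2 ≤ T ^ 2 := pow_le_pow_left₀ h0 h1 2
  have h2 : T ^ 2 < lam * T ^ 2 := by nlinarith [pow_pos hT 2]
  have h4 : 0 < lam * T ^ 2 - s ^ 2 := by linarith
  have h5 : 0 ≤ 1 - s / T := by
    rw [sub_nonneg, div_le_one hT]
    exact h1
  positivity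

/-- the upper sum bounds the integral -/
lemma t4s_le {T κ : ℝ} {al be D M L : ℕ} (hT : 0 < T) (hκ : 0 < κ) (hL : 10000 < L)
    (hM : 0 < M) (i : ℕ) (hi : D * i ^ 2 ≤ M) :
    ∫ s in (T * (1 - D * i ^ 2 / M))..T, t4F T κ (L / 10000) al be s ≤
      1 / (κ * T ^ 2) * (t4s al be D M L i / 1000000) := by
  have hMR : (0 : ℝ) < M := by exact_mod_cast hM
  have hLR : (10000 : ℝ) < L := by exact_mod_cast hL
  have hl : (1 : ℝ) < L / 10000 := by
    rw [lt_div_iff₀ (by norm_num)]
    linarith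
  induction i with
  | zero =>
    simp [t4s]
  | succ i ih =>
    have hi' : D * i ^ 2 ≤ M := le_trans (Nat.mul_le_mul_left D
      (Nat.pow_le_pow_left (Nat.le_succ i) 2)) hi
    have ih := ih hi'
    obtain ⟨u, hu⟩ : ∃ u : ℝ, u = D * i ^ 2 / M := ⟨_, rfl⟩
    obtain ⟨v, hv⟩ : ∃ v : ℝ, v = D * (i + 1) ^ 2 / M := ⟨_, rfl⟩
    have hiR : (D : ℝ) * i ^ 2 ≤ M := by exact_mod_cast hi'
    have hiR2 : (D : ℝ) * (i + 1) ^ 2 ≤ M := by exact_mod_cast hi
    have hD0 : (0 : ℝ) ≤ D := Nat.cast_nonneg _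
    have hi0 : (0 : ℝ) ≤ i := Nat.cast_nonneg _
    have hu0 : 0 ≤ u := by rw [hu]; positivity
    have huv : u ≤ v := by
      rw [hu, hv]
      apply div_le_div_of_nonneg_right _ hMR.le
      nlinarith
    have hv1 : v ≤ 1 := by
      rw [hv, div_le_one hMR]
      exact hiR2
    have hu1 : u ≤ 1 := huv.trans hv1
    push_cast
    rw [← hv]
    rw [← hu] at ih
    have c1 : T * (1 - v) ≤ T * (1 - u) := mul_le_mul_of_nonneg_left (by linarith) hT.le
    have c2 : T * (1 - u) ≤ T := by nlinarith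
    have c0 : 0 ≤ T * (1 - v) := mul_nonneg hT.le (by linarith)
    have hcont := t4F_cont (al := al) (be := be) hT hκ hl c0
    have j1 : IntervalIntegrable (t4F T κ (L / 10000) al be) volume (T * (1 - v))
        (T * (1 - u)) := by
      apply ContinuousOn.intervalIntegrable
      rw [Set.uIcc_of_le c1]
      exact hcont.mono (Set.Icc_subset_Icc_right c2)
    have j2 : IntervalIntegrable (t4F T κ (L / 10000) al be) volume (T * (1 - u)) T := by
      apply ContinuousOn.intervalIntegrable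
      rw [Set.uIcc_of_le c2]
      exact hcont.mono (Set.Icc_subset_Icc_left c1)
    rw [← intervalIntegral.integral_add_adjacent_intervals j1 j2]
    -- the cell
    obtain ⟨dn, hdn⟩ : ∃ x : ℝ, x = L / 10000 - (1 - u) ^ 2 := ⟨_, rfl⟩
    have hdn0 : 0 < dn := by
      rw [hdn]
      have : (1 - u) ^ 2 ≤ 1 := by nlinarith
      linarith
    have hcell : ∀ s ∈ Set.Icc (T * (1 - v)) (T * (1 - u)), t4F T κ (L / 10000) al be s ≤
        (al + be * v) / (κ * T ^ 3 * dn) := by
      intro s hs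
      unfold t4F
      have h1 : s / T ≤ 1 - u := by
        rw [div_le_iff₀ hT]
        linarith [hs.2]
      have h2 : 1 - v ≤ s / T := by
        rw [le_div_iff₀ hT]
        linarith [hs.1]
      have h3 : s ^ 2 ≤ T ^ 2 * (1 - u) ^ 2 := by
        rw [← mul_pow]
        exact pow_le_pow_left₀ (c0.trans hs.1) hs.2 2
      have h4 : T ^ 2 * dn ≤ L / 10000 * T ^ 2 - s ^ 2 := by
        rw [hdn]
        linarith
      have h5 : (al : ℝ) + be * (1 - s / T) ≤ al + be * v := by
        have : (be : ℝ) * (1 - s / T) ≤ be * v :=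
          mul_le_mul_of_nonneg_left (by linarith) (Nat.cast_nonneg _)
        linarith
      have h6 : 0 ≤ (al : ℝ) + be * v := by
        have := hu0.trans huv
        positivity
      have h7 : κ * T ^ 3 * dn ≤ κ * T * (L / 10000 * T ^ 2 - s ^ 2) := by
        have := mul_le_mul_of_nonneg_left h4 (mul_pos hκ hT).le
        linarith
      exact div_le_div₀ h6 h5 (by positivity) h7
    have h8 : ∫ s in (T * (1 - v))..(T * (1 - u)), t4F T κ (L / 10000) al be s ≤
        (T * (1 - u) - T * (1 - v)) * ((al + be * v) / (κ * T ^ 3 * dn)) := by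
      have h9 := intervalIntegral.integral_mono_on c1 j1
        (intervalIntegrable_const (c := (al + be * v) / (κ * T ^ 3 * dn))) hcell
      rw [intervalIntegral.integral_const, smul_eq_mul] at h9
      exact h9
    have e1 : (T * (1 - u) - T * (1 - v)) * ((al + be * v) / (κ * T ^ 3 * dn)) =
        1 / (κ * T ^ 2) * ((v - u) * (al + be * v) / dn) := by
      field_simp
      ring
    -- the natural number
    obtain ⟨A, hA⟩ : ∃ A : ℕ, A = D * (2 * i + 1) * (al * M + be * D * (i + 1) ^ 2) * 10000 :=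
      ⟨_, rfl⟩
    obtain ⟨B, hB⟩ : ∃ B : ℕ, B = L * M ^ 2 - 10000 * (M - D * i ^ 2) ^ 2 := ⟨_, rfl⟩
    have hBR : (B : ℝ) = L * M ^ 2 - 10000 * (M - D * i ^ 2) ^ 2 := by
      have g1 : 10000 * (M - D * i ^ 2) ^ 2 ≤ L * M ^ 2 :=
        Nat.mul_le_mul hL.le (Nat.pow_le_pow_left (Nat.sub_le _ _) 2)
      rw [hB]
      push_cast [Nat.cast_sub g1, Nat.cast_sub hi']
      ring
    have hB2 : (B : ℝ) = 10000 * M ^ 2 * dn := by
      rw [hBR, hdn, hu]
      field_simp
    have hBpos : (0 : ℝ) < B := by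
      rw [hB2]
      positivity
    have e2 : (v - u) * (al + be * v) / dn = A / B := by
      rw [hB2, hA, hu, hv]
      push_cast
      field_simp
      ring
    have h10 : (A : ℝ) / B ≤ ((1000000 * A / B + 1 : ℕ) : ℝ) / 1000000 := by
      have hBn : 0 < B := by exact_mod_cast hBpos
      have g1 : 1000000 * A ≤ (1000000 * A / B + 1) * B := by
        have := Nat.lt_div_mul_add (a := 1000000 * A) hBn
        rw [Nat.add_mul, one_mul]
        exact this.le
      have g2 : (1000000 : ℝ) * A ≤ ((1000000 * A / B + 1 : ℕ) : ℝ) * B := by exact_mod_cast g1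
      rw [div_le_div_iff₀ hBpos (by norm_num)]
      linarith
    have h11 : t4s al be D M L (i + 1) = t4s al be D M L i + (1000000 * A / B + 1) := by
      rw [hA, hB]
      rfl
    have hk : 0 ≤ 1 / (κ * T ^ 2) := by positivity
    rw [h11]
    push_cast
    rw [e1, e2] at h8
    have h12 := mul_le_mul_of_nonneg_left h10 hk
    push_cast at h12
    have e3 : 1 / (κ * T ^ 2) * (((t4s al be D M L i : ℝ) + ((1000000 * A / B : ℕ) + 1)) /
        1000000) = 1 / (κ * T ^ 2) * (t4s al be D M L i / 1000000) +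
        1 / (κ * T ^ 2) * ((((1000000 * A / B : ℕ) : ℝ) + 1) / 1000000) := by ring
    rw [e3]
    linarith

/-- the test: `t0` in units of `10^-6`, `L` and `B` in units of `10^-4`, `N` cells -/
def t4Ok (al be κ t0 L B N : ℕ) : Bool :=
  decide (t0 ≤ 405285) && decide (10000 < L) && decide (0 < N) &&
    decide (B * t4s al be (405285 - t0) (405285 * N ^ 2) L N ≤ κ * 1642550000)

/-- **the integral from the test** -/
theorem t4Ok_int {T : ℝ} (hT1 : 405284 / 1000000 ≤ T) (hT2 : T ≤ 405285 / 1000000)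
    {al be κ t0 L B N : ℕ} (hκ : 0 < κ) (h : t4Ok al be κ t0 L B N = true) {t : ℝ}
    (ht0 : t0 / 1000000 ≤ t) (ht : t ≤ T) :
    B / 10000 * ∫ s in t..T, t4F T κ (L / 10000) al be s ≤ 1 := by
  unfold t4Ok at h
  simp only [Bool.and_eq_true, decide_eq_true_eq] at h
  obtain ⟨⟨⟨h1, h2⟩, h3⟩, h4⟩ := h
  have hT : 0 < T := by linarith
  have hκR : (0 : ℝ) < κ := by exact_mod_cast hκ
  have hN : 0 < N ^ 2 := Nat.pow_pos h3
  have hMpos : 0 < 405285 * N ^ 2 := Nat.mul_pos (by norm_num) hN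
  have hs := t4s_le (T := T) (κ := κ) (al := al) (be := be) (D := 405285 - t0)
    (M := 405285 * N ^ 2) (L := L) hT hκR h2 hMpos N
    (Nat.mul_le_mul_right _ (Nat.sub_le _ _))
  have hLR : (10000 : ℝ) < L := by exact_mod_cast h2
  have hl : (1 : ℝ) < L / 10000 := by
    rw [lt_div_iff₀ (by norm_num)]
    linarith
  -- the lower end
  obtain ⟨x, hx⟩ : ∃ x : ℝ, x = T * (1 - ((405285 - t0 : ℕ) : ℝ) * N ^ 2 /
      ((405285 * N ^ 2 : ℕ) : ℝ)) := ⟨_, rfl⟩
  have hNR : (0 : ℝ) < (N : ℝ) ^ 2 := by exact_mod_cast hN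
  have e1 : x = T * (t0 / 405285) := by
    rw [hx, Nat.cast_sub h1]
    push_cast
    field_simp
    ring
  have hx0 : 0 ≤ x := by
    rw [e1]
    positivity
  have hxt : x ≤ t := by
    refine le_trans ?_ ht0
    rw [e1]
    have h5 : (0 : ℝ) ≤ (t0 : ℝ) / 405285 := by positivity
    have h6 := mul_le_mul_of_nonneg_right hT2 h5
    linarith
  have hcont := t4F_cont (al := al) (be := be) hT hκR hl hx0
  have j1 : IntervalIntegrable (t4F T κ (L / 10000) al be) volume x t := by
    apply ContinuousOn.intervalIntegrable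
    rw [Set.uIcc_of_le hxt]
    exact hcont.mono (Set.Icc_subset_Icc_right ht)
  have j2 : IntervalIntegrable (t4F T κ (L / 10000) al be) volume t T := by
    apply ContinuousOn.intervalIntegrable
    rw [Set.uIcc_of_le ht]
    exact hcont.mono (Set.Icc_subset_Icc_left hxt)
  have h7 : ∫ s in t..T, t4F T κ (L / 10000) al be s ≤
      ∫ s in x..T, t4F T κ (L / 10000) al be s := by
    rw [← intervalIntegral.integral_add_adjacent_intervals j1 j2]
    have : 0 ≤ ∫ s in x..t, t4F T κ (L / 10000) al be s := by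
      apply intervalIntegral.integral_nonneg hxt
      intro s hs
      exact t4F_nonneg hT hκR hl (hx0.trans hs.1) (hs.2.trans ht)
    linarith
  rw [← hx] at hs
  have hB0 : (0 : ℝ) ≤ B / 10000 := by positivity
  refine (mul_le_mul_of_nonneg_left (h7.trans hs) hB0).trans ?_
  obtain ⟨Sg, hSg⟩ : ∃ y : ℕ, y = t4s al be (405285 - t0) (405285 * N ^ 2) L N := ⟨_, rfl⟩
  rw [← hSg] at h4 ⊢
  have h8 : (B : ℝ) * Sg ≤ κ * 1642550000 := by exact_mod_cast h4
  have h9 : (1642550000 : ℝ) / 10000000000 ≤ T ^ 2 := by nlinarith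
  have e2 : (B : ℝ) / 10000 * (1 / (κ * T ^ 2) * (Sg / 1000000)) =
      (B * Sg) / (κ * T ^ 2 * 10000000000) := by
    field_simp
    ring
  rw [e2, div_le_one (by positivity)]
  have h10 := mul_le_mul_of_nonneg_left h9 hκR.le
  linarith

/-- `N` is a weighted Dirichlet seminorm on `[0, T]` with the weight `κ T / (al + be (1 - s/T))` -/
structure Wgt (N : ℝ[X] → ℝ) (T : ℝ) (κ al be : ℕ) : Prop where
  hκ : 0 < κ
  hal : 0 < al
  hX : ∀ p : ℝ[X], N (X * p) ^ 2 ≤ κ / al * T ^ 2 * p.eval T ^ 2 +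
    ∫ s in (0 : ℝ)..T, κ * T / (al + be * (1 - s / T)) * (s ^ 2 * (derivative p).eval s ^ 2)
  hn : ∀ p : ℝ[X], N p ^ 2 =
    ∫ s in (0 : ℝ)..T, κ * T / (al + be * (1 - s / T)) * (derivative p).eval s ^ 2

/-- **the sharp step** -/
theorem t4_step {N : ℝ[X] → ℝ} {T : ℝ} (hT1 : 405284 / 1000000 ≤ T)
    (hT2 : T ≤ 405285 / 1000000) {κ al be t0 L B n : ℕ} (hW : Wgt N T κ al be)
    (h : t4Ok al be κ t0 L B n = true) {t : ℝ} (ht0 : t0 / 1000000 ≤ t) (ht : t ≤ T)
    (p : ℝ[X]) :
    N (X * p) ^ 2 + B / 10000 * (p.eval t - p.eval T) ^ 2 ≤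
      T ^ 2 * (κ / al * p.eval T ^ 2 + L / 10000 * N p ^ 2) := by
  have hI := t4Ok_int hT1 hT2 hW.hκ h ht0 ht
  have hT : 0 < T := by linarith
  have hκR : (0 : ℝ) < κ := by exact_mod_cast hW.hκ
  have halR : (0 : ℝ) < al := by exact_mod_cast hW.hal
  have hL : 10000 < L := by
    unfold t4Ok at h
    simp only [Bool.and_eq_true, decide_eq_true_eq] at h
    exact h.1.1.2
  have hLR : (10000 : ℝ) < L := by exact_mod_cast hL
  have hl : (1 : ℝ) < L / 10000 := by
    rw [lt_div_iff₀ (by norm_num)]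
    linarith
  have ht00 : 0 ≤ t := le_trans (by positivity) ht0
  -- the weight
  obtain ⟨W, hWd⟩ : ∃ W : ℝ → ℝ, W = fun s => κ * T / (al + be * (1 - s / T)) := ⟨_, rfl⟩
  have hden : ∀ s : ℝ, 0 ≤ s → s ≤ T → 0 < (al : ℝ) + be * (1 - s / T) := by
    intro s _ h1
    have h5 : 0 ≤ 1 - s / T := by
      rw [sub_nonneg, div_le_one hT]
      exact h1
    positivity
  have hWc : ContinuousOn W (Set.Icc 0 T) := by
    rw [hWd]
    apply ContinuousOn.div
    · fun_prop
    · fun_prop
    · intro s hs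
      exact (hden s hs.1 hs.2).ne'
  have hWpos : ∀ s : ℝ, 0 ≤ s → s ≤ T → 0 < W s := by
    intro s h1 h2
    have := hden s h1 h2
    rw [hWd]
    positivity
  have hlam : ∀ s : ℝ, 0 ≤ s → s ≤ T → 0 < (L : ℝ) / 10000 * T ^ 2 - s ^ 2 := by
    intro s h1 h2
    have h3 : s ^ 2 ≤ T ^ 2 := pow_le_pow_left₀ h1 h2 2
    have h4 : T ^ 2 < L / 10000 * T ^ 2 := by nlinarith [pow_pos hT 2]
    linarith
  obtain ⟨φ, hφ⟩ : ∃ φ : ℝ → ℝ, φ = fun s => W s * (L / 10000 * T ^ 2 - s ^ 2) := ⟨_, rfl⟩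
  have hφc : ContinuousOn φ (Set.Icc 0 T) := by
    rw [hφ]
    exact hWc.mul (by fun_prop)
  have hφpos : ∀ s : ℝ, 0 ≤ s → s ≤ T → 0 < φ s := by
    intro s h1 h2
    rw [hφ]
    exact mul_pos (hWpos s h1 h2) (hlam s h1 h2)
  have hu : Set.uIcc (0 : ℝ) T = Set.Icc 0 T := Set.uIcc_of_le hT.le
  have hpc : ∀ p : ℝ[X], ContinuousOn (fun s => (derivative p).eval s ^ 2) (Set.Icc 0 T) :=
    fun p => ((derivative p).continuous.pow 2).continuousOn
  -- the integral of the inverse
  have hinv : ∫ s in t..T, 1 / φ s = ∫ s in t..T, t4F T κ (L / 10000) al be s := by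
    apply intervalIntegral.integral_congr
    intro s hs
    rw [Set.uIcc_of_le ht] at hs
    have h1 := hden s (ht00.trans hs.1) hs.2
    have h2 := hlam s (ht00.trans hs.1) hs.2
    show 1 / φ s = t4F T κ (L / 10000) al be s
    rw [hφ, hWd]
    unfold t4F
    field_simp
  have hc := t4_core (φ := φ) ht (hφc.mono (Set.Icc_subset_Icc_left ht00))
    (fun s hs => hφpos s (ht00.trans hs.1) hs.2) (b := B / 10000) (by positivity)
    (by rw [hinv]; exact hI) p
  -- the whole interval
  have k1 : IntervalIntegrable (fun s => φ s * (derivative p).eval s ^ 2) volume 0 T := by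
    apply ContinuousOn.intervalIntegrable
    rw [hu]
    exact hφc.mul (hpc p)
  have k2 : ∫ s in t..T, φ s * (derivative p).eval s ^ 2 ≤
      ∫ s in (0 : ℝ)..T, φ s * (derivative p).eval s ^ 2 := by
    have m1 : IntervalIntegrable (fun s => φ s * (derivative p).eval s ^ 2) volume 0 t :=
      k1.mono_set (by rw [hu, Set.uIcc_of_le ht00]; exact Set.Icc_subset_Icc_right ht)
    have m2 : IntervalIntegrable (fun s => φ s * (derivative p).eval s ^ 2) volume t T :=
      k1.mono_set (by rw [hu, Set.uIcc_of_le ht]; exact Set.Icc_subset_Icc_left ht00)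
    rw [← intervalIntegral.integral_add_adjacent_intervals m1 m2]
    have : 0 ≤ ∫ s in (0 : ℝ)..t, φ s * (derivative p).eval s ^ 2 := by
      apply intervalIntegral.integral_nonneg ht00
      intro s hs
      have := hφpos s hs.1 (hs.2.trans ht)
      positivity
    linarith
  have k3 : IntervalIntegrable (fun s => W s * (derivative p).eval s ^ 2) volume 0 T := by
    apply ContinuousOn.intervalIntegrable
    rw [hu]
    exact hWc.mul (hpc p)
  have k4 : IntervalIntegrable (fun s => W s * (s ^ 2 * (derivative p).eval s ^ 2)) volume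
      0 T := by
    apply ContinuousOn.intervalIntegrable
    rw [hu]
    exact hWc.mul ((continuousOn_id.pow 2).mul (hpc p))
  have k5 : ∫ s in (0 : ℝ)..T, φ s * (derivative p).eval s ^ 2 =
      L / 10000 * T ^ 2 * (∫ s in (0 : ℝ)..T, W s * (derivative p).eval s ^ 2) -
        ∫ s in (0 : ℝ)..T, W s * (s ^ 2 * (derivative p).eval s ^ 2) := by
    rw [← intervalIntegral.integral_const_mul, ← intervalIntegral.integral_sub
      (k3.const_mul _) k4]
    apply intervalIntegral.integral_congr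
    intro s _
    show φ s * (derivative p).eval s ^ 2 = _
    rw [hφ]
    ring
  have hX := hW.hX p
  have hn := hW.hn p
  have e1 : (∫ s in (0 : ℝ)..T, κ * T / (al + be * (1 - s / T)) *
      (s ^ 2 * (derivative p).eval s ^ 2)) =
      ∫ s in (0 : ℝ)..T, W s * (s ^ 2 * (derivative p).eval s ^ 2) := by rw [hWd]
  have e2 : (∫ s in (0 : ℝ)..T, κ * T / (al + be * (1 - s / T)) *
      (derivative p).eval s ^ 2) = ∫ s in (0 : ℝ)..T, W s * (derivative p).eval s ^ 2 := by
    rw [hWd]
  rw [e1] at hX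
  rw [e2] at hn
  rw [hn]
  rw [k5] at k2
  linarith

end Pool.Agent.TSM
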