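import Pool.Agent.TSM.T4

set_option autoImplicit false

/-!
# The inequality for `X p` with a weight (MP_d27362_co)

A seminorm which is given by the weight `κ T / (al + be (1 - s / T))` satisfies the hypotheses of
the sharp step.
-/

namespace Pool.Agent.TSM

open Polynomial MeasureTheory intervalIntegral

/-- **the weighted seminorm satisfies the hypotheses of the sharp step** -/
theorem wgt_of {N : ℝ[X] → ℝ} {T : ℝ} (hT : 0 < T) {κ al be : ℕ} (hκ : 0 < κ) (hal : 0 < al)
    (hn : ∀ p : ℝ[X], N p ^ 2 =
      ∫ s in (0 : ℝ)..T, κ * T / (al + be * (1 - s / T)) * (derivative p).eval s ^ 2) :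
    Wgt N T κ al be where
  hκ := hκ
  hal := hal
  hn := hn
  hX := fun p => by
    have hκR : (0 : ℝ) < κ := by exact_mod_cast hκ
    have halR : (0 : ℝ) < al := by exact_mod_cast hal
    have hbeR : (0 : ℝ) ≤ be := Nat.cast_nonneg _
    have hd : ∀ s ∈ Set.uIcc 0 T, 0 < (al : ℝ) + be * (1 - s / T) := by
      intro s hs
      rw [Set.uIcc_of_le hT.le, Set.mem_Icc] at hs
      have h1 : s / T ≤ 1 := by
        rw [div_le_one hT]
        exact hs.2
      have h2 := mul_nonneg hbeR (sub_nonneg.2 h1)
      linarith
    obtain ⟨F, hF⟩ : ∃ F : ℝ → ℝ, F = fun s => κ * T / (al + be * (1 - s / T)) *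
      (s * p.eval s ^ 2) := ⟨_, rfl⟩
    obtain ⟨F', hF'⟩ : ∃ F' : ℝ → ℝ, F' = fun s =>
      κ * be / (al + be * (1 - s / T)) ^ 2 * (s * p.eval s ^ 2) +
      κ * T / (al + be * (1 - s / T)) *
        (p.eval s ^ 2 + s * (2 * p.eval s * (derivative p).eval s)) := ⟨_, rfl⟩
    have hder : ∀ s ∈ Set.uIcc 0 T, HasDerivAt F (F' s) s := by
      intro s hs
      have h0 := hd s hs
      have d1 : HasDerivAt (fun s : ℝ => (al : ℝ) + be * (1 - s / T)) (-(be / T)) s := by
        have h1 : HasDerivAt (fun s : ℝ => s / T) (1 / T) s := (hasDerivAt_id s).div_const T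
        have h2 := ((h1.const_sub 1).const_mul (be : ℝ)).const_add (al : ℝ)
        have e : (be : ℝ) * -(1 / T) = -(be / T) := by ring
        rw [e] at h2
        exact h2
      have d2 : HasDerivAt (fun s : ℝ => κ * T / (al + be * (1 - s / T)))
          (κ * be / (al + be * (1 - s / T)) ^ 2) s := by
        have h1 := (hasDerivAt_const s ((κ : ℝ) * T)).div d1 h0.ne'
        have e : (0 * ((al : ℝ) + be * (1 - s / T)) - κ * T * -(be / T)) /
            ((al : ℝ) + be * (1 - s / T)) ^ 2 = κ * be / (al + be * (1 - s / T)) ^ 2 := by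
          congr 1
          field_simp
          ring
        rw [e] at h1
        exact h1
      have d3 : HasDerivAt (fun s : ℝ => s * p.eval s ^ 2)
          (p.eval s ^ 2 + s * (2 * p.eval s * (derivative p).eval s)) s := by
        have h1 := (hasDerivAt_id s).mul ((p.hasDerivAt s).pow 2)
        have e : 1 * p.eval s ^ 2 + id s * ((2 : ℕ) * p.eval s ^ (2 - 1) * (derivative p).eval s) =
            p.eval s ^ 2 + s * (2 * p.eval s * (derivative p).eval s) := by
          simp only [id]
          push_cast
          ring
        rw [← e]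
        exact h1
      rw [hF, hF']
      exact d2.mul d3
    have c0 : ContinuousOn (fun s : ℝ => (al : ℝ) + be * (1 - s / T)) (Set.uIcc 0 T) := by
      fun_prop
    have c1 : ContinuousOn (fun s : ℝ => κ * T / ((al : ℝ) + be * (1 - s / T)))
        (Set.uIcc 0 T) := continuousOn_const.div c0 fun s hs => (hd s hs).ne'
    have c2 : ContinuousOn (fun s : ℝ => κ * be / ((al : ℝ) + be * (1 - s / T)) ^ 2)
        (Set.uIcc 0 T) := continuousOn_const.div (c0.pow 2) fun s hs => pow_ne_zero 2 (hd s hs).ne'
    have cp : Continuous fun s : ℝ => p.eval s := p.continuous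
    have cp' : Continuous fun s : ℝ => (derivative p).eval s := (derivative p).continuous
    have iF : IntervalIntegrable F' volume 0 T := by
      rw [hF']
      refine ContinuousOn.intervalIntegrable (ContinuousOn.add (c2.mul ?_) (c1.mul ?_))
      · exact (continuous_id.mul (cp.pow 2)).continuousOn
      · exact ((cp.pow 2).add (continuous_id.mul ((continuous_const.mul cp).mul cp'))).continuousOn
    have i2 : IntervalIntegrable (fun s : ℝ => κ * T / (al + be * (1 - s / T)) *
        (s ^ 2 * (derivative p).eval s ^ 2)) volume 0 T :=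
      ContinuousOn.intervalIntegrable (c1.mul
        ((continuous_pow 2).mul (cp'.pow 2)).continuousOn)
    have i1 : IntervalIntegrable (fun s : ℝ => κ * T / (al + be * (1 - s / T)) *
        (derivative (X * p)).eval s ^ 2) volume 0 T :=
      ContinuousOn.intervalIntegrable (c1.mul
        ((derivative (X * p)).continuous.pow 2).continuousOn)
    have hFT := integral_eq_sub_of_hasDerivAt hder iF
    have hle := integral_mono_on hT.le i1 (iF.add i2) fun s hs => by
      have h0 := hd s (by rw [Set.uIcc_of_le hT.le]; exact hs)
      have h1 : (derivative (X * p)).eval s = p.eval s + s * (derivative p).eval s := by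
        simp [derivative_mul]
      have h2 : 0 ≤ κ * be / ((al : ℝ) + be * (1 - s / T)) ^ 2 * (s * p.eval s ^ 2) := by
        have := hs.1
        positivity
      show κ * T / (al + be * (1 - s / T)) * (derivative (X * p)).eval s ^ 2 ≤
        F' s + κ * T / (al + be * (1 - s / T)) * (s ^ 2 * (derivative p).eval s ^ 2)
      rw [h1, hF']
      have e : κ * T / (al + be * (1 - s / T)) * (p.eval s + s * (derivative p).eval s) ^ 2 =
          κ * T / (al + be * (1 - s / T)) *
            (p.eval s ^ 2 + s * (2 * p.eval s * (derivative p).eval s)) +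
          κ * T / (al + be * (1 - s / T)) * (s ^ 2 * (derivative p).eval s ^ 2) := by ring
      rw [e]
      simp only
      linarith
    rw [integral_add iF i2, hFT] at hle
    rw [hn]
    refine hle.trans (le_of_eq ?_)
    have e1 : F T = κ / al * T ^ 2 * p.eval T ^ 2 := by
      rw [hF]
      simp only
      rw [div_self hT.ne', sub_self, mul_zero, add_zero]
      field_simp
    have e0 : F 0 = 0 := by
      rw [hF]
      simp only
      ring
    rw [e1, e0, sub_zero]

end Pool.Agent.TSM
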