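import Pool.Agent.TSM.Steps

set_option autoImplicit false

/-!
# States of oriented trees and the tree level predicate (MP_d27362_co)
-/

namespace Pool.Agent.TSM

open Finset Polynomial
open Pool.Agent.TSP
open Pool.Agent.TSO
open Pool.Agent.TSR (OBr Ker Br Red Cn2 sg_true sg_false sg_not vS_cons vS_nil vS_mk vS_rev vS_nonneg)
open Pool.Agent.TLT (sg)

noncomputable section

/-- the number of positive minus the number of negative edges at the root -/
def tau : OBr → ℝ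
  | .nil => 0
  | .cons s _ t => sg s + tau t

/-- the pair `(U, y)` -/
def UY : OBr → ℝ[X] × ℝ[X]
  | .nil => (0, 0)
  | .cons s c t => (sg s • (UY c).2 + (UY t).1, sg s • (C (tau c) - X * (UY c).1) + (UY t).2)

/-- `U = Σ σ y_i` -/
def UU (O : OBr) : ℝ[X] := (UY O).1

/-- `y = Σ σ x_i` -/
def YY (O : OBr) : ℝ[X] := (UY O).2

/-- `x = τ - t U` -/
def XX (O : OBr) : ℝ[X] := C (tau O) - X * UU O

@[simp] lemma tau_nil : tau .nil = 0 := rfl
@[simp] lemma tau_cons (s : Bool) (c t : OBr) : tau (.cons s c t) = sg s + tau t := rfl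
@[simp] lemma UU_nil : UU .nil = 0 := rfl
@[simp] lemma YY_nil : YY .nil = 0 := rfl
@[simp] lemma UU_cons (s : Bool) (c t : OBr) : UU (.cons s c t) = sg s • YY c + UU t := rfl
@[simp] lemma YY_cons (s : Bool) (c t : OBr) : YY (.cons s c t) = sg s • XX c + YY t := rfl

@[simp] lemma XX_nil : XX .nil = 0 := by
  unfold XX
  simp

lemma XX_cons (s : Bool) (c t : OBr) : XX (.cons s c t) = sg s • (1 - X * YY c) + XX t := by
  unfold XX
  rw [UU_cons, tau_cons, C_add, smul_sub, mul_add, mul_smul_comm]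
  have : (sg s • (1 : ℝ[X])) = C (sg s) := by
    rw [smul_eq_C_mul, mul_one]
  rw [this]
  ring

lemma tau_mk (l : List (Bool × OBr)) : tau (.mk l) = (l.map fun p => sg p.1).sum := by
  induction l with
  | nil => rfl
  | cons p l ih => rw [OBr.mk_cons, tau_cons, ih, List.map_cons, List.sum_cons]

lemma UU_mk (l : List (Bool × OBr)) : UU (.mk l) = (l.map fun p => sg p.1 • YY p.2).sum := by
  induction l with
  | nil => rfl
  | cons p l ih => rw [OBr.mk_cons, UU_cons, ih, List.map_cons, List.sum_cons]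

lemma YY_mk (l : List (Bool × OBr)) : YY (.mk l) = (l.map fun p => sg p.1 • XX p.2).sum := by
  induction l with
  | nil => rfl
  | cons p l ih => rw [OBr.mk_cons, YY_cons, ih, List.map_cons, List.sum_cons]

lemma XX_mk (l : List (Bool × OBr)) :
    XX (.mk l) = (l.map fun p => sg p.1 • (1 - X * YY p.2)).sum := by
  induction l with
  | nil => simp
  | cons p l ih => rw [OBr.mk_cons, XX_cons, ih, List.map_cons, List.sum_cons]

lemma rev_state (O : OBr) : tau O.rev = - tau O ∧ UU O.rev = - UU O ∧ YY O.rev = YY O := by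
  induction O with
  | nil => simp
  | cons s c t ih1 ih2 =>
    obtain ⟨h1, h2, h3⟩ := ih1
    obtain ⟨h4, h5, h6⟩ := ih2
    have hx : XX c.rev = - XX c := by
      unfold XX
      rw [h1, h2, C_neg]
      ring
    rw [OBr.rev_cons]
    refine ⟨?_, ?_, ?_⟩
    · rw [tau_cons, tau_cons, h4, sg_not]; ring
    · rw [UU_cons, UU_cons, h3, h5, sg_not, neg_smul]; ring
    · rw [YY_cons, YY_cons, hx, h6, sg_not, neg_smul, smul_neg, neg_neg]

lemma tau_rev (O : OBr) : tau O.rev = - tau O := (rev_state O).1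
lemma UU_rev (O : OBr) : UU O.rev = - UU O := (rev_state O).2.1
lemma YY_rev (O : OBr) : YY O.rev = YY O := (rev_state O).2.2
lemma XX_rev (O : OBr) : XX O.rev = - XX O := by
  unfold XX
  rw [tau_rev, UU_rev, C_neg]
  ring

/-- the child `O` seen with the sign `σ` of the edge and the sign `e` of the state -/
def cn (σ e : Bool) (O : OBr) : Bool × OBr := (σ, if e = σ then O else O.rev)

@[simp] lemma cn_fst (σ e : Bool) (O : OBr) : (cn σ e O).1 = σ := rfl

lemma cn_forget (σ e : Bool) (O : OBr) : (cn σ e O).2.forget = O.forget := by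
  unfold cn
  dsimp only
  split_ifs
  · rfl
  · exact OBr.forget_rev O

lemma cn_YY (σ e : Bool) (O : OBr) : YY (cn σ e O).2 = YY O := by
  unfold cn
  dsimp only
  split_ifs
  · rfl
  · exact YY_rev O

lemma cn_XX (σ e : Bool) (O : OBr) : sg σ • XX (cn σ e O).2 = sg e • XX O := by
  unfold cn
  dsimp only
  split_ifs with h
  · rw [h]
  · have h1 : sg σ = - sg e := by
      cases e <;> cases σ <;> simp_all [sg_true, sg_false]
    rw [XX_rev, h1, smul_neg, neg_smul, neg_neg]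

lemma sg_mul_self (e : Bool) : sg e * sg e = 1 := by
  cases e
  · rw [sg_false]; norm_num
  · rw [sg_true]; norm_num

lemma sg_or (e : Bool) : sg e = 1 ∨ sg e = -1 := by
  cases e
  · exact Or.inr sg_false
  · exact Or.inl sg_true

/-! ### the tree level predicate -/

/-- for every kernel: bank at least `∫ V`, pending cost at most `∫ c`; the first argument of
`V`, `c` is the total mass -/
def Good (O : OBr) (V c : ℝ → ℝ → ℝ) : Prop :=
  ∀ (m : ℕ) (S : Fin m → Fin m → ℝ), Ker S → ∀ w t : Fin m → ℝ, Rep S w t →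
    Maj S (O.vS S) (XX O) (YY O) (nu w t (V (dee S))) (nu w t (c (dee S)))

/-- the message of the child `p.2` along the edge with the sign `p.1` -/
def ms {m : ℕ} (S : Fin m → Fin m → ℝ) (p : Bool × OBr) : Fin m → ℝ :=
  fun x => ip (p.2.vS S) (fun _ => 1) + sg p.1 * op S (p.2.vS S) x

lemma ms_eq_msg {m : ℕ} (S : Fin m → Fin m → ℝ) (p : Bool × OBr) :
    ms S p = TSO.msg S (sg p.1) (p.2.vS S) := by
  funext x
  unfold ms TSO.msg
  rw [TSO.ip_one]

lemma vS_mk_ms {m : ℕ} (S : Fin m → Fin m → ℝ) (l : List (Bool × OBr)) (x : Fin m) :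
    (OBr.mk l).vS S x = (l.map fun p => ms S p x).prod := vS_mk S l x

/-- the message level predicate on the level of trees; `V`, `c`, `g` are functions of the total
mass and of the point -/
def MGood (p : Bool × OBr) (x y : ℝ[X]) (g V c : ℝ → ℝ → ℝ) : Prop :=
  ∀ (m : ℕ) (S : Fin m → Fin m → ℝ), Ker S → ∀ w t : Fin m → ℝ, Rep S w t →
    MMaj S (ms S p) x y (nu w t (g (dee S))) (nu w t (V (dee S))) (nu w t (c (dee S)))

lemma Good.rev {O : OBr} {V c : ℝ → ℝ → ℝ} (h : Good O V c) : Good O.rev V c := by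
  intro m S hS w t hR
  have h1 := h m _ (TSR.Ker_neg hS) w t hR.neg
  rw [dee_negk] at h1
  obtain ⟨M, G, hM, hG, hF, hlog, hc⟩ := h1
  refine ⟨M, G, hM, hG, fun i => ?_, hlog, hc⟩
  rw [vS_rev, XX_rev, YY_rev]
  have h2 := hF i
  rwa [st_negk] at h2

lemma Good.mono {O : OBr} {V c V' c' : ℝ → ℝ → ℝ} (h : Good O V c)
    (hV : ∀ D a, Reg D a → V' D a ≤ V D a) (hc : ∀ D a, Reg D a → c D a ≤ c' D a) :
    Good O V' c' := fun m S hS w t hR =>
  (h m S hS w t hR).mono (hR.nu_mono (hV _)) (hR.nu_mono (hc _))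

lemma Good.nil : Good .nil (fun _ _ => 0) (fun _ _ => 0) := by
  intro m S hS w t hR
  rw [nu_zero, XX_nil, YY_nil]
  have : (OBr.nil.vS S) = fun _ => 1 := rfl
  rw [this]
  exact Maj.leaf

/-- the path with two vertices -/
lemma Good.two : Good (.cons true .nil .nil) (fun _ _ => 0) (fun _ _ => 0) := by
  intro m S hS w t hR
  rw [nu_zero]
  refine ⟨1, fun _ => 0, one_pos, fun _ => le_rfl, fun i => ?_, ?_, ?_⟩
  · have e1 : XX (.cons true .nil .nil) = 1 := by
      rw [XX_cons, XX_nil, YY_nil, sg_true]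
      simp
    have e2 : YY (.cons true .nil .nil) = 0 := by
      rw [YY_cons, XX_nil, YY_nil]
      simp
    have e3 : OBr.nil.vS S = fun _ => 1 := rfl
    rw [e1, e2, st_beta, vS_cons, vS_nil, e3, sg_true, TSO.ip_one, mn_const hS.pos, op_one]
    linarith
  · simp [mn]
  · simp [mn]

/-- the message of a good child -/
lemma Good.msg {O : OBr} {V c : ℝ → ℝ → ℝ} (h : Good O V c) (σ e : Bool) {g : ℝ → ℝ → ℝ}
    (hg : ∀ D a, Reg D a → g D a ≤ sg e * (XX O).eval a) :
    MGood (cn σ e O) (sg σ • (1 - X * YY O)) (sg e • XX O) g V c := by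
  intro m S hS w t hR
  have hG : Good (cn σ e O).2 V c := by
    unfold cn
    dsimp only
    split_ifs
    · exact h
    · exact h.rev
  have h1 := (hG m S hS w t hR).msg hS (fun i => vS_nonneg hS _ i) (sg σ) (sg_or σ)
  rw [cn_YY, cn_XX] at h1
  rw [ms_eq_msg, cn_fst]
  refine h1.cap ?_
  have h2 : sg σ * mo S (XX (cn σ e O).2) = nu w t fun a => sg e * (XX O).eval a := by
    rw [← mo_smul, cn_XX, mo_smul, hR.mo_nu, nu_mul]
  rw [h2]
  exact hR.nu_mono (hg _)

/-- the energy as an integral -/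
lemma Rep.en_nu {m : ℕ} {S : Fin m → Fin m → ℝ} {w t : Fin m → ℝ} (hR : Rep S w t)
    (x y : ℝ[X]) : en S x y = nu w t fun a => x.eval a ^ 2 + a * y.eval a ^ 2 := by
  unfold en
  rw [hR.mo_nu]
  apply nu_congr
  intro j
  simp only [eval_add, eval_mul, eval_X]
  ring

lemma Rep.nu_le_const {m : ℕ} {S : Fin m → Fin m → ℝ} {w t : Fin m → ℝ} (hR : Rep S w t)
    {f : ℝ → ℝ} {r B : ℝ} (h : ∀ a, Reg (dee S) a → f a ≤ r) (hB : r * dee S ≤ B) :
    nu w t f ≤ B := by
  refine (hR.nu_mono (g := fun _ => r) h).trans ?_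
  rw [hR.nu_const]
  exact hB

/-! ### integrated inequalities -/

/-- `∫ f dν ≤ ∫ g dν` for every kernel of total mass `D` -/
def ILe (D : ℝ) (f g : ℝ → ℝ) : Prop :=
  ∀ (m : ℕ) (S : Fin m → Fin m → ℝ), Ker S → ∀ w t : Fin m → ℝ, Rep S w t → dee S = D →
    nu w t f ≤ nu w t g

lemma ILe.pt {D : ℝ} {f g : ℝ → ℝ} (h : ∀ a, Reg D a → f a ≤ g a) : ILe D f g := by
  intro m S _ w t hR hD
  subst hD
  exact hR.nu_mono h

/-- the payment by the first constraint: slack `s (1 - D/(q - a))`, which may be negative -/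
lemma ILe.c1 {D : ℝ} {f g : ℝ → ℝ} (s : ℝ) (hs : 0 ≤ s)
    (h : ∀ a, Reg D a → a < 4 / Real.pi ^ 2 → 0 < D →
      f a + s * (1 - D / (4 / Real.pi ^ 2 - a)) ≤ g a) : ILe D f g := by
  intro m S _ w t hR hD
  subst hD
  exact hR.nu_mono_c1 s hs h

lemma ILe.trans {D : ℝ} {f g k : ℝ → ℝ} (h1 : ILe D f g) (h2 : ILe D g k) : ILe D f k :=
  fun m S hS w t hR hD => (h1 m S hS w t hR hD).trans (h2 m S hS w t hR hD)

lemma ILe.add {D : ℝ} {f g f' g' : ℝ → ℝ} (h1 : ILe D f g) (h2 : ILe D f' g') :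
    ILe D (fun a => f a + f' a) (fun a => g a + g' a) := by
  intro m S hS w t hR hD
  rw [nu_add, nu_add]
  exact add_le_add (h1 m S hS w t hR hD) (h2 m S hS w t hR hD)

/-- the constants of the step with one child for the total mass `D` -/
structure OneC (D D1 χ0 K r κ : ℝ) : Prop where
  hD : D ≤ D1
  hχ0 : 0 < χ0
  hχ01 : χ0 ≤ 1
  hχD : D1 ≤ χ0 ^ 2 * (1 + D1)
  hr0 : 0 ≤ r
  hr : r * D ≤ 1 / 2
  hK : r * D ≤ K * (2 * χ0 * (1 + D1) ^ 2)
  hκ0 : 0 ≤ κ
  hκ1 : κ ≤ 1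
  hκ : 1 ≤ 4 * κ * (1 - r * D) * (1 + κ * (r * D))

/-- the region of `D` -/
def RD (D : ℝ) : Prop := 0 ≤ D ∧ D ≤ 1 / 3

/-- **stem**: a vertex with one child. `r` is the cap of the gain, `Ex` the excess of the
energy, `L` the excess of the loss -/
theorem Good.stem {O : OBr} {V c V' c' : ℝ → ℝ → ℝ} (h : Good O V c) (e : Bool)
    (D1 χ0 K r κ : ℝ → ℝ) (g Ex L : ℝ → ℝ → ℝ)
    (hC : ∀ D, RD D → OneC D (D1 D) (χ0 D) (K D) (r D) (κ D))
    (hg : ∀ D a, Reg D a → g D a ≤ sg e * (XX O).eval a)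
    (hgr : ∀ D, RD D → ILe D (g D) (fun _ => r D))
    (hE0 : ∀ D, RD D → ILe D (fun _ => 0) (Ex D))
    (hE : ∀ D, RD D → ILe D (fun a => (1 - a * (YY O).eval a) ^ 2 + a * (XX O).eval a ^ 2)
      (fun a => 1 + Ex D a))
    (hL0 : ∀ D, RD D → ILe D (fun _ => 0) (L D))
    (hL : ∀ D, RD D → ILe D (fun a => c D a - g D a) (fun a => r D + L D a))
    (hb1 : ∀ D, RD D → ILe D (V' D) (fun a => V D a + (1 - χ0 D) * g D a - K D * Ex D a))
    (hb2 : ∀ D, RD D → ILe D (V' D) (fun a => V D a + (1 + χ0 D) * g D a - χ0 D * c D a -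
      K D * Ex D a - (1 - χ0 D) * L D a))
    (hc0 : ∀ D, RD D → ILe D (fun _ => 0) (c' D))
    (hc1 : ∀ D, RD D → ILe D (fun a => κ D * g D a) (c' D))
    (hc2 : ∀ D, RD D → ILe D (fun a => χ0 D * (1 + χ0 D) * (c D a - g D a) +
      (2 + χ0 D) * (K D * Ex D a + (1 - χ0 D) * L D a)) (c' D)) :
    Good (.mk [cn true e O]) V' c' := by
  intro m S hS w t hR
  have hM := h.msg true e hg m S hS w t hR
  have hRD : RD (dee S) := ⟨hR.dee_nonneg, hR.dee_le⟩
  have hK := hC (dee S) hRD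
  have e1 : XX (.mk [cn true e O]) = sg true • (1 - X * YY O) := by
    rw [XX_mk]
    simp [cn_YY]
  have e2 : YY (.mk [cn true e O]) = sg e • XX O := by
    rw [YY_mk]
    simp only [List.map_cons, List.map_nil, List.sum_cons, List.sum_nil, add_zero, cn_fst, cn_XX]
  have e3 : (OBr.mk [cn true e O]).vS S = ms S (cn true e O) := by
    funext x
    rw [vS_mk_ms]
    simp
  rw [e1, e2, e3]
  have hgr' : nu w t (g (dee S)) ≤ r (dee S) * dee S := by
    have := hgr _ hRD m S hS w t hR rfl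
    rwa [hR.nu_const] at this
  have h0 : ∀ f : ℝ → ℝ, ILe (dee S) (fun _ => 0) f → 0 ≤ nu w t f := by
    intro f hf
    have := hf m S hS w t hR rfl
    rwa [nu_zero] at this
  refine hM.one_lin hS (D1 (dee S)) (χ0 (dee S)) (K (dee S)) (r (dee S) * dee S)
    (nu w t (Ex (dee S))) (r (dee S) * dee S) (κ (dee S)) (nu w t (L (dee S)))
    (hR.dee_nonneg.trans hK.hD) hK.hχ0 hK.hχ01 hK.hχD
    (h0 _ (hE0 _ hRD)) ?_ (mul_nonneg hK.hr0 hR.dee_nonneg) hgr'
    (h0 _ (hL0 _ hRD)) ?_ hK.hK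
    hgr' hK.hr hK.hκ0 hK.hκ1 hK.hκ ?_ ?_ (h0 _ (hc0 _ hRD)) ?_ ?_
  · rw [hR.en_nu]
    have h1 := hE _ hRD m S hS w t hR rfl
    have h1' : (nu w t fun a => 1 + Ex (dee S) a) = dee S + nu w t (Ex (dee S)) := by
      rw [nu_add, hR.nu_const, one_mul]
    rw [h1'] at h1
    have h2 : (nu w t fun a => (sg true • (1 - X * YY O)).eval a ^ 2 +
        a * (sg e • XX O).eval a ^ 2) =
        nu w t fun a => (1 - a * (YY O).eval a) ^ 2 + a * (XX O).eval a ^ 2 := by
      congr 1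
      funext a
      simp only [eval_smul, eval_sub, eval_one, eval_mul, eval_X, smul_eq_mul, sg_true, one_mul]
      rw [mul_pow, sq (sg e), sg_mul_self, one_mul]
    rw [h2]
    linarith [hK.hD]
  · have h1 := hL _ hRD m S hS w t hR rfl
    rw [nu_sub, nu_add, hR.nu_const] at h1
    linarith
  · have h1 := hb1 _ hRD m S hS w t hR rfl
    rw [nu_sub, nu_add, nu_mul, nu_mul] at h1
    exact h1
  · have h1 := hb2 _ hRD m S hS w t hR rfl
    rw [nu_sub, nu_sub, nu_sub, nu_add, nu_mul, nu_mul, nu_mul, nu_mul] at h1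
    exact h1
  · have h1 := hc1 _ hRD m S hS w t hR rfl
    rw [nu_mul] at h1
    exact h1
  · have h1 := hc2 _ hRD m S hS w t hR rfl
    rw [nu_add, nu_mul, nu_sub, nu_mul, nu_add, nu_mul, nu_mul] at h1
    exact h1

/-- the constants of the step with two children for the total mass `D`; `r` is the cap of the
gain per unit of mass -/
structure TwoC (D r η : ℝ) : Prop where
  hr0 : 0 ≤ r
  hr : r * D < 1
  hη0 : 0 ≤ η
  hη1 : η ≤ 1
  hη : (r * D) ^ 2 / (2 * (1 - r * D)) - (r * D) ^ 2 / 3 - (r * D) ^ 3 / 4 - (r * D) ^ 4 / 5 -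
    (r * D) ^ 5 / 6 ≤ 1 - η

/-- **two children**, both good. `I = 1/(2(1 - r D))` -/
theorem Good.pair {O1 O2 : OBr} {V1 c1 V2 c2 V' c' : ℝ → ℝ → ℝ} (h1 : Good O1 V1 c1)
    (h2 : Good O2 V2 c2) (σ1 e1 σ2 e2 : Bool) (r η I : ℝ → ℝ) (g q : ℝ → ℝ → ℝ)
    (hC : ∀ D, RD D → TwoC D (r D) (η D))
    (hI : ∀ D, RD D → 1 ≤ I D * (2 * (1 - r D * D)))
    (hg : ∀ D, RD D → ILe D (g D) (fun a => sg e1 * (XX O1).eval a + sg e2 * (XX O2).eval a))
    (hgr : ∀ D, RD D → ILe D (g D) (fun _ => r D))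
    (hq : ∀ D, RD D → ILe D (fun a => (sg σ1 * (1 - a * (YY O1).eval a) +
      sg σ2 * (1 - a * (YY O2).eval a)) ^ 2 + a * (sg e1 * (XX O1).eval a +
      sg e2 * (XX O2).eval a) ^ 2) (q D))
    (hb1 : ∀ D, RD D → ILe D (V' D) (fun a => V1 D a + V2 D a + η D * g D a - I D * q D a))
    (hb2 : ∀ D, RD D → ILe D (V' D) (fun a => V1 D a + V2 D a + g D a - I D * q D a))
    (hc1 : ∀ D, RD D → ILe D (fun a => I D * q D a + r D * D * I D * g D a) (c' D))
    (hc0 : ∀ D, RD D → ILe D (fun a => I D * q D a) (c' D))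
    (hc2 : ∀ D, RD D → ILe D (fun a => 1 / 2 * q D a + 1 / 2 * (c1 D a + c2 D a - g D a))
      (c' D)) :
    Good (.mk [cn σ1 e1 O1, cn σ2 e2 O2]) V' c' := by
  intro m S hS w t hR
  have hM1 := h1.msg σ1 e1 (g := fun _ a => sg e1 * (XX O1).eval a) (fun D a h => le_rfl)
    m S hS w t hR
  have hM2 := h2.msg σ2 e2 (g := fun _ a => sg e2 * (XX O2).eval a) (fun D a h => le_rfl)
    m S hS w t hR
  have hRD : RD (dee S) := ⟨hR.dee_nonneg, hR.dee_le⟩
  have hK := hC (dee S) hRD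
  have hD := hR.dee_nonneg
  have h1P : 0 < 1 - r (dee S) * dee S := by linarith [hK.hr]
  have hII := hI (dee S) hRD
  have hI1 : 1 / (2 * (1 - r (dee S) * dee S)) ≤ I (dee S) := by
    rw [div_le_iff₀ (by positivity)]
    exact hII
  have ex : XX (.mk [cn σ1 e1 O1, cn σ2 e2 O2]) =
      sg σ1 • (1 - X * YY O1) + sg σ2 • (1 - X * YY O2) := by
    rw [XX_mk]
    simp [cn_YY]
  have ey : YY (.mk [cn σ1 e1 O1, cn σ2 e2 O2]) = sg e1 • XX O1 + sg e2 • XX O2 := by
    rw [YY_mk]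
    simp only [List.map_cons, List.map_nil, List.sum_cons, List.sum_nil, add_zero, cn_fst, cn_XX]
  have ev : (OBr.mk [cn σ1 e1 O1, cn σ2 e2 O2]).vS S =
      fun z => ms S (cn σ1 e1 O1) z * ms S (cn σ2 e2 O2) z := by
    funext x
    rw [vS_mk_ms]
    simp
  rw [ex, ey, ev]
  have hgr' : nu w t (g (dee S)) ≤ r (dee S) * dee S := by
    have := hgr _ hRD m S hS w t hR rfl
    rwa [hR.nu_const] at this
  have hen : en S (sg σ1 • (1 - X * YY O1) + sg σ2 • (1 - X * YY O2))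
      (sg e1 • XX O1 + sg e2 • XX O2) ≤ nu w t (q (dee S)) := by
    have h3 := hq _ hRD m S hS w t hR rfl
    rw [hR.en_nu]
    refine le_trans (le_of_eq ?_) h3
    congr 1
    funext a
    simp only [eval_smul, eval_sub, eval_one, eval_mul, eval_X, eval_add, smul_eq_mul]
  have hen0 := en_nonneg (S := S) hS.anti (sg σ1 • (1 - X * YY O1) + sg σ2 • (1 - X * YY O2))
      (sg e1 • XX O1 + sg e2 • XX O2)
  have hq0 : 0 ≤ nu w t (q (dee S)) := hen0.trans hen
  have hI0 : 0 ≤ I (dee S) := le_trans (by positivity) hI1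
  have hdiv : en S (sg σ1 • (1 - X * YY O1) + sg σ2 • (1 - X * YY O2))
      (sg e1 • XX O1 + sg e2 • XX O2) / (2 * (1 - r (dee S) * dee S)) ≤
        I (dee S) * nu w t (q (dee S)) := by
    rw [div_eq_mul_one_div, mul_comm]
    exact mul_le_mul hI1 hen hen0 hI0
  have h30 := hc0 _ hRD m S hS w t hR rfl
  rw [nu_mul] at h30
  refine hM1.two hS hM2 (r (dee S) * dee S) (η (dee S)) (nu w t (g (dee S))) hK.hr
    (mul_nonneg hK.hr0 hD) ?_ hgr' hK.hη1 hK.hη0
    (fun ρ h0 h1 => two_h' ρ _ _ hK.hr h1 h0 hK.hη) ?_ ?_ ?_ ?_ ?_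
  · have h3 := hg _ hRD m S hS w t hR rfl
    rw [nu_add] at h3
    exact h3
  · have h3 := hb1 _ hRD m S hS w t hR rfl
    rw [nu_sub, nu_add, nu_add, nu_mul, nu_mul] at h3
    linarith
  · have h3 := hb2 _ hRD m S hS w t hR rfl
    rw [nu_sub, nu_add, nu_add, nu_mul] at h3
    linarith
  · have h3 := hc1 _ hRD m S hS w t hR rfl
    rw [nu_add, nu_mul, nu_mul] at h3
    rcases le_total 0 (nu w t (g (dee S))) with h4 | h4
    · have h5 : r (dee S) * dee S / (2 * (1 - r (dee S) * dee S)) * nu w t (g (dee S)) ≤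
          r (dee S) * dee S * I (dee S) * nu w t (g (dee S)) := by
        apply mul_le_mul_of_nonneg_right _ h4
        rw [div_eq_mul_one_div]
        exact mul_le_mul_of_nonneg_left hI1 (mul_nonneg hK.hr0 hD)
      linarith
    · have h5 : r (dee S) * dee S / (2 * (1 - r (dee S) * dee S)) * nu w t (g (dee S)) ≤ 0 :=
        mul_nonpos_of_nonneg_of_nonpos (div_nonneg (mul_nonneg hK.hr0 hD) (by positivity)) h4
      linarith
  · linarith
  · have h3 := hc2 _ hRD m S hS w t hR rfl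
    rw [nu_add, nu_mul, nu_mul, nu_sub, nu_add] at h3
    linarith

/-! ### the end of the proof -/

/-- The frozen statement follows if every reduced rooted tree different from the two smallest has
a good orientation with nonnegative bank. -/
theorem final_of_good (V : OBr → ℝ → ℝ → ℝ) (c : OBr → ℝ → ℝ → ℝ)
    (hV : ∀ O D a, Reg D a → 0 ≤ V O D a)
    (H : ∀ b, Red Cn2 b → ¬ Cn2 b → ∃ O : OBr, O.forget = b ∧ Good O (V O) (c O)) :
    ∀ b, Red Cn2 b → ∃ O : OBr, O.forget = b ∧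
      ∀ (m : ℕ) (S : Fin m → Fin m → ℝ), Ker S → ip (O.vS S) (fun _ => 1) ≤ 1 := by
  have key : ∀ (O : OBr) (V c : ℝ → ℝ → ℝ), (∀ D a, Reg D a → 0 ≤ V D a) → Good O V c →
      ∀ (m : ℕ) (S : Fin m → Fin m → ℝ), Ker S → ip (O.vS S) (fun _ => 1) ≤ 1 := by
    intro O V c hV hG m S hS
    obtain ⟨w, t, hR⟩ := exists_rep hS
    exact (hG m S hS w t hR).mean_le hS (hR.nu_nonneg (hV _))
  intro b hb
  by_cases h2 : Cn2 b
  · rcases h2 with rfl | rfl
    · exact ⟨.nil, rfl, key _ _ _ (fun _ _ _ => le_rfl) Good.nil⟩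
    · exact ⟨.cons true .nil .nil, rfl, key _ _ _ (fun _ _ _ => le_rfl) Good.two⟩
  · obtain ⟨O, hO, hG⟩ := H b hb h2
    exact ⟨O, hO, key O _ _ (hV O) hG⟩

end

end Pool.Agent.TSM
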