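import Pool.Agent.TSM.Tree

set_option autoImplicit false

/-!
# Two children, exponential form (MP_d27362_co)

`(1 + (W - ρ)/2)² ≤ M (1 + W) + (C M / 2) W²` for all real `W` as soon as `C > 1/2` and
`M ≥ 1 - ρ + κ ρ²`, `κ = C/(4 C - 2)`. So the value of a vertex with two children is
`- log (1 - ρ + κ ρ²)` and its pending cost is `C |W|²`, without any term in `ρ`.
-/

namespace Pool.Agent.TSM

open Finset Polynomial
open Pool.Agent.TSP
open Pool.Agent.TSO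
open Pool.Agent.TSR (OBr Ker sg_true sg_false)
open Pool.Agent.TLT (sg)

variable {m : ℕ} {S : Fin m → Fin m → ℝ}

/-- the discriminant form of the two-children inequality -/
theorem two_disc (ρ M C κ W : ℝ) (hC : 1 / 2 < C) (hκ : C ≤ κ * (4 * C - 2))
    (hM : 1 - ρ + κ * ρ ^ 2 ≤ M) :
    (1 + (W - ρ) / 2) ^ 2 ≤ M * (1 + W) + C * M / 2 * W ^ 2 := by
  have hC2 : 0 < 4 * C - 2 := by linarith
  have hκ4 : 1 / 4 < κ := by
    by_contra h
    push Not at h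
    nlinarith
  -- `P = M - a² ≥ 0`, `Q = 2 C M - 1 > 0`
  have hP0 : 1 - ρ + κ * ρ ^ 2 - (1 - ρ / 2) ^ 2 = (κ - 1 / 4) * ρ ^ 2 := by ring
  have hρ2 : 0 ≤ ρ ^ 2 := sq_nonneg ρ
  have hP : 0 ≤ M - (1 - ρ / 2) ^ 2 := by nlinarith [mul_nonneg (sub_nonneg.2 hκ4.le) hρ2]
  have hM0 : 0 < M := by nlinarith [mul_nonneg (sub_nonneg.2 hκ4.le) hρ2, sq_nonneg (ρ - 2)]
  -- `(2C-1) M ≥ 2 C a² + 1 - 2 a`
  have hkey : 2 * C * (1 - ρ / 2) ^ 2 + 1 - 2 * (1 - ρ / 2) ≤ (2 * C - 1) * M := by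
    have h1 : (2 * C - 1) * (1 - ρ + κ * ρ ^ 2) ≤ (2 * C - 1) * M :=
      mul_le_mul_of_nonneg_left hM (by linarith)
    have h2 : C * ρ ^ 2 ≤ κ * (4 * C - 2) * ρ ^ 2 := mul_le_mul_of_nonneg_right hκ hρ2
    nlinarith
  have hdisc : (M - (1 - ρ / 2)) ^ 2 ≤ (2 * C * M - 1) * (M - (1 - ρ / 2) ^ 2) := by
    have h1 := mul_le_mul_of_nonneg_left hkey hM0.le
    nlinarith
  have hQ : 0 ≤ 2 * C * M - 1 := by
    rcases hP.eq_or_lt with h0 | h0
    · have h1 : M = (1 - ρ / 2) ^ 2 := by linarith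
      have h2 : (κ - 1 / 4) * ρ ^ 2 ≤ 0 := by linarith
      have h3 : ρ ^ 2 = 0 := by
        rcases hρ2.eq_or_lt with h | h
        · exact h.symm
        · nlinarith [mul_pos (sub_pos.2 hκ4) h]
      have h4 : ρ = 0 := by simpa using h3
      rw [h1, h4]
      norm_num
      linarith
    · by_contra h
      push Not at h
      have h1 : (2 * C * M - 1) * (M - (1 - ρ / 2) ^ 2) < 0 := mul_neg_of_neg_of_pos h h0
      nlinarith [sq_nonneg (M - (1 - ρ / 2))]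
  have hmain : 0 ≤ (2 * C * M - 1) / 4 * W ^ 2 + (M - (1 - ρ / 2)) * W +
      (M - (1 - ρ / 2) ^ 2) := by
    rcases hQ.eq_or_lt with h0 | h0
    · rw [← h0] at hdisc ⊢
      have h1 : (M - (1 - ρ / 2)) ^ 2 = 0 := le_antisymm (by linarith) (sq_nonneg _)
      have h2 : M - (1 - ρ / 2) = 0 := by simpa using h1
      rw [h2]
      linarith
    · have h1 : 0 ≤ ((2 * C * M - 1) * W + 2 * (M - (1 - ρ / 2))) ^ 2 := sq_nonneg _
      have h2 : 0 ≤ 4 * (2 * C * M - 1) * ((2 * C * M - 1) / 4 * W ^ 2 +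
          (M - (1 - ρ / 2)) * W + (M - (1 - ρ / 2) ^ 2)) := by nlinarith
      by_contra h3
      push Not at h3
      nlinarith [mul_neg_of_pos_of_neg (show 0 < 4 * (2 * C * M - 1) by linarith) h3]
  have e : M * (1 + W) + C * M / 2 * W ^ 2 - (1 + (W - ρ) / 2) ^ 2 =
      (2 * C * M - 1) / 4 * W ^ 2 + (M - (1 - ρ / 2)) * W + (M - (1 - ρ / 2) ^ 2) := by ring
  linarith

/-- a rational criterion for `1 - ρ + κ ρ² ≤ exp (- η ρ)` on `[0, P]` -/
theorem exp_crit (η κ P ρ : ℝ) (hη0 : 0 ≤ η) (hκη : η ^ 2 / 2 ≤ κ) (hP : η * P ≤ 1) (h0 : 0 ≤ ρ)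
    (h1 : ρ ≤ P)
    (hc : (κ - η ^ 2 / 2) * P + η ^ 3 * P ^ 2 / 6 ≤ 1 - η) :
    1 - ρ + κ * ρ ^ 2 ≤ Real.exp (-(η * ρ)) := by
  have hx0 : 0 ≤ η * ρ := mul_nonneg hη0 h0
  have hx1 : η * ρ ≤ 1 := (mul_le_mul_of_nonneg_left h1 hη0).trans hP
  -- `exp (-x) ≥ 1 - x + x²/2 - x³/6`
  have hexp : 1 - η * ρ + (η * ρ) ^ 2 / 2 - (η * ρ) ^ 3 / 6 ≤ Real.exp (-(η * ρ)) := by
    have h := Real.exp_bound (x := -(η * ρ)) (by rw [abs_neg, abs_of_nonneg hx0]; exact hx1)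
      (n := 5) (by norm_num)
    rw [abs_le] at h
    have h2 := h.1
    simp only [Finset.sum_range_succ, Finset.sum_range_zero, Nat.factorial] at h2
    rw [abs_neg, abs_of_nonneg hx0] at h2
    norm_num at h2
    have h3 : (η * ρ) ^ 5 ≤ (η * ρ) ^ 4 := by
      calc (η * ρ) ^ 5 = (η * ρ) ^ 4 * (η * ρ) := by ring
        _ ≤ (η * ρ) ^ 4 * 1 := mul_le_mul_of_nonneg_left hx1 (by positivity)
        _ = _ := by ring
    have h4 : 0 ≤ (η * ρ) ^ 4 := by positivity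
    nlinarith
  refine le_trans ?_ hexp
  have hρ2 : ρ ^ 2 ≤ ρ * P := by nlinarith
  have hρ3 : ρ ^ 3 ≤ ρ * P ^ 2 := by
    have : ρ ^ 2 ≤ P ^ 2 := pow_le_pow_left₀ h0 h1 2
    nlinarith
  have h5 : (κ - η ^ 2 / 2) * ρ ^ 2 ≤ (κ - η ^ 2 / 2) * (ρ * P) :=
    mul_le_mul_of_nonneg_left hρ2 (by linarith)
  have h6 : η ^ 3 / 6 * ρ ^ 3 ≤ η ^ 3 / 6 * (ρ * P ^ 2) :=
    mul_le_mul_of_nonneg_left hρ3 (by positivity)
  have h7 : ρ * ((κ - η ^ 2 / 2) * P + η ^ 3 * P ^ 2 / 6) ≤ ρ * (1 - η) :=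
    mul_le_mul_of_nonneg_left hc h0
  nlinarith

/-- **two children**, exponential form. Gain side: value `η G0 - C |W|²`, pending cost `C |W|²`.
Loss side: value `G0 - |W|²/2`, pending cost `|W|²/2 + L/(2(1+L)) (c1 + c2 - G0)` where `L` bounds
`c1 + c2 - G0`. -/
theorem MMaj.two_exp (hK : Ker S) {f1 f2 : Fin m → ℝ} {x1 y1 x2 y2 : ℝ[X]}
    {G1 G2 b1 b2 c1 c2 : ℝ} (h1 : MMaj S f1 x1 y1 G1 b1 c1) (h2 : MMaj S f2 x2 y2 G2 b2 c2)
    (P C κ η G0 L : ℝ) (hC : 1 / 2 < C) (hκ : C ≤ κ * (4 * C - 2))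
    (hG0 : G0 ≤ G1 + G2) (hGP : G0 ≤ P) (hη1 : η ≤ 1)
    (hη0 : 0 ≤ η) (hη : ∀ ρ, 0 ≤ ρ → ρ ≤ P → 1 - ρ + κ * ρ ^ 2 ≤ Real.exp (-(η * ρ)))
    (hL0 : 0 ≤ L) (hL : c1 + c2 - G0 ≤ L) {b' c' : ℝ}
    (hb1 : b' ≤ b1 + b2 + η * G0 - C * en S (x1 + x2) (y1 + y2))
    (hb2 : b' ≤ b1 + b2 + G0 - en S (x1 + x2) (y1 + y2) / 2)
    (hc1 : C * en S (x1 + x2) (y1 + y2) ≤ c')
    (hc2 : en S (x1 + x2) (y1 + y2) / 2 + L / (2 * (1 + L)) * (c1 + c2 - G0) ≤ c') :
    Maj S (fun i => f1 i * f2 i) (x1 + x2) (y1 + y2) b' c' := by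
  obtain ⟨M1, g1, hM1, hg1, hgc1, hlog1, hf1, hb1'⟩ := h1
  obtain ⟨M2, g2, hM2, hg2, hgc2, hlog2, hf2, hb2'⟩ := h2
  set δ := en S (x1 + x2) (y1 + y2) with hδd
  have hδ0 : 0 ≤ δ := en_nonneg hK.anti _ _
  have hb1'' : ∀ i, f1 i ≤ M1 * (1 - (G0 - G2 - g1) + st S x1 y1 i) := fun i =>
    (hb1' i).trans (mul_le_mul_of_nonneg_left (by linarith) hM1.le)
  set ρ := (G0 - G2 - g1) + (G2 - g2) with hρd
  have hρe : ρ = G0 - (g1 + g2) := by rw [hρd]; ring
  have hρP : ρ ≤ P := by linarith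
  rcases le_total 0 ρ with h0 | h0
  · -- gain
    have hC2 : 0 < 4 * C - 2 := by linarith
    have hκ4 : 1 / 4 < κ := by
      by_contra h
      push Not at h
      nlinarith
    set M := 1 - ρ + κ * ρ ^ 2 with hMd
    have hM0 : 0 < M := by
      nlinarith [mul_nonneg (sub_nonneg.2 hκ4.le) (sq_nonneg ρ), sq_nonneg (ρ - 2)]
    have hMM : 0 < M1 * M2 * M := by positivity
    refine ⟨M1 * M2 * M, fun i => C / 2 * st S (x1 + x2) (y1 + y2) i ^ 2, hMM,
      fun i => by positivity, fun i => ?_, ?_, ?_⟩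
    · have h3 : f1 i * f2 i ≤ (M1 * (1 - (G0 - G2 - g1) + st S x1 y1 i)) *
          (M2 * (1 - (G2 - g2) + st S x2 y2 i)) :=
        mul_le_mul (hb1'' i) (hb2' i) (hf2 i) ((hf1 i).trans (hb1'' i))
      have h4 := sq_prod_le (1 - (G0 - G2 - g1) + st S x1 y1 i) (1 - (G2 - g2) + st S x2 y2 i)
      have h5 := two_disc ρ M C κ (st S (x1 + x2) (y1 + y2) i) hC hκ le_rfl
      have e : (1 - (G0 - G2 - g1) + st S x1 y1 i + (1 - (G2 - g2) + st S x2 y2 i)) / 2 =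
          1 + (st S (x1 + x2) (y1 + y2) i - ρ) / 2 := by
        rw [st_add, hρd]
        simp only [Pi.add_apply]
        ring
      rw [e] at h4
      calc f1 i * f2 i ≤ (M1 * M2) * ((1 - (G0 - G2 - g1) + st S x1 y1 i) *
            (1 - (G2 - g2) + st S x2 y2 i)) := by
            refine h3.trans (le_of_eq ?_); ring
        _ ≤ (M1 * M2) * (1 + (st S (x1 + x2) (y1 + y2) i - ρ) / 2) ^ 2 :=
            mul_le_mul_of_nonneg_left h4 (by positivity)
        _ ≤ (M1 * M2) * (M * (1 + st S (x1 + x2) (y1 + y2) i) +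
            C * M / 2 * st S (x1 + x2) (y1 + y2) i ^ 2) :=
            mul_le_mul_of_nonneg_left h5 (by positivity)
        _ = _ := by ring
    · have h5 : (mn fun i => st S (x1 + x2) (y1 + y2) i ^ 2) = δ := by
        rw [hδd, ← ip_st_self hK.anti]
        unfold ip mn
        congr 1
        exact Finset.sum_congr rfl fun i _ => by ring
      rw [mn_mul, h5, Real.log_mul (by positivity) hM0.ne', Real.log_mul hM1.ne' hM2.ne']
      have h6 : Real.log M ≤ -(η * ρ) := by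
        have := (Real.log_le_log_iff hM0 (Real.exp_pos _)).2 (hη ρ h0 hρP)
        rwa [Real.log_exp] at this
      have h7 : η * ρ = η * G0 - η * (g1 + g2) := by rw [hρe]; ring
      have h8 : η * (g1 + g2) ≤ g1 + g2 := mul_le_of_le_one_left (by linarith) hη1
      linarith
    · have h5 : (mn fun i => st S (x1 + x2) (y1 + y2) i ^ 2) = δ := by
        rw [hδd, ← ip_st_self hK.anti]
        unfold ip mn
        congr 1
        exact Finset.sum_congr rfl fun i _ => by ring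
      rw [mn_mul, h5]
      linarith
  · -- loss
    obtain ⟨G, hG, hGb, hmG⟩ := two_raw hK (S := S) (x := x1 + x2) (y := y1 + y2) hM1 hM2 hf1 hf2
      hb1'' hb2' (fun i => by rw [st_add]; rfl) (by linarith)
    rw [← hρd, ← hδd] at hmG
    rw [← hρd] at hGb
    have h1ρ : 0 < 1 - ρ := by linarith
    have hδρ : δ / (2 * (1 - ρ)) ≤ δ / 2 :=
      div_le_div_of_nonneg_left hδ0 (by norm_num) (by linarith)
    refine ⟨M1 * M2 * (1 - ρ), G, by positivity, hG, hGb, ?_, ?_⟩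
    · rw [Real.log_mul (by positivity) h1ρ.ne', Real.log_mul hM1.ne' hM2.ne', hmG, add_div]
      have h3 := log_two_neg (-ρ) (by linarith)
      have e1 : 1 + -ρ = 1 - ρ := by ring
      rw [e1, neg_sq] at h3
      linarith
    · rw [hmG, add_div]
      have hr : -ρ ≤ L := by linarith
      have h6 : ρ ^ 2 / (2 * (1 - ρ)) ≤ L / (2 * (1 + L)) * (-ρ) := by
        rw [div_le_iff₀ (by positivity)]
        have h7 : L / (2 * (1 + L)) * -ρ * (2 * (1 - ρ)) = (-ρ) * (L * (1 - ρ) / (1 + L)) := by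
          field_simp
        rw [h7]
        have h8 : -ρ ≤ L * (1 - ρ) / (1 + L) := by
          rw [le_div_iff₀ (by linarith)]
          nlinarith
        have h9 := mul_le_mul_of_nonneg_left h8 (show 0 ≤ -ρ by linarith)
        nlinarith
      have h10 : L / (2 * (1 + L)) * (-ρ) ≤ L / (2 * (1 + L)) * (c1 + c2 - G0) := by
        apply mul_le_mul_of_nonneg_left _ (by positivity)
        linarith
      linarith

/-- the constants of the exponential step with two children for the total mass `D`: `r` is the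
cap of the gain, `l` the bound of the net loss per unit of mass -/
structure TwoX (D r C κ η l θ : ℝ) : Prop where
  hC : 1 / 2 < C
  hκ : C ≤ κ * (4 * C - 2)
  hr0 : 0 ≤ r
  hη0 : 0 ≤ η
  hη1 : η ≤ 1
  hκη : η ^ 2 / 2 ≤ κ
  hP : η * (r * D) ≤ 1
  hη : (κ - η ^ 2 / 2) * (r * D) + η ^ 3 * (r * D) ^ 2 / 6 ≤ 1 - η
  hl0 : 0 ≤ l
  hθ : l * D ≤ θ * (2 * (1 + l * D))

/-- **two children**, both good, exponential form. Gain side: value `η g - C q`, pending cost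
`C q`; loss side: value `g - q/2`, pending cost `q/2 + θ (c1 + c2 - g)` with
`θ = l D / (2 (1 + l D))` -/
theorem Good.pairX {O1 O2 : OBr} {V1 c1 V2 c2 V' c' : ℝ → ℝ → ℝ} (h1 : Good O1 V1 c1)
    (h2 : Good O2 V2 c2) (σ1 e1 σ2 e2 : Bool) (r C κ η l θ : ℝ → ℝ) (g q : ℝ → ℝ → ℝ)
    (hC : ∀ D, RD D → TwoX D (r D) (C D) (κ D) (η D) (l D) (θ D))
    (hg : ∀ D, RD D → ILe D (g D) (fun a => sg e1 * (XX O1).eval a + sg e2 * (XX O2).eval a))
    (hgr : ∀ D, RD D → ILe D (g D) (fun _ => r D))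
    (hl : ∀ D, RD D → ILe D (fun a => c1 D a + c2 D a - g D a) (fun _ => l D))
    (hq : ∀ D, RD D → ILe D (fun a => (sg σ1 * (1 - a * (YY O1).eval a) +
      sg σ2 * (1 - a * (YY O2).eval a)) ^ 2 + a * (sg e1 * (XX O1).eval a +
      sg e2 * (XX O2).eval a) ^ 2) (q D))
    (hb1 : ∀ D, RD D → ILe D (V' D) (fun a => V1 D a + V2 D a + η D * g D a - C D * q D a))
    (hb2 : ∀ D, RD D → ILe D (V' D) (fun a => V1 D a + V2 D a + g D a - 1 / 2 * q D a))
    (hc1 : ∀ D, RD D → ILe D (fun a => C D * q D a) (c' D))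
    (hc2 : ∀ D, RD D → ILe D (fun a => 1 / 2 * q D a + θ D * (c1 D a + c2 D a - g D a))
      (c' D)) :
    Good (.mk [cn σ1 e1 O1, cn σ2 e2 O2]) V' c' := by
  intro m S hS w t hR
  have hM1 := h1.msg σ1 e1 (g := fun _ a => sg e1 * (XX O1).eval a) (fun D a h => le_rfl)
    m S hS w t hR
  have hM2 := h2.msg σ2 e2 (g := fun _ a => sg e2 * (XX O2).eval a) (fun D a h => le_rfl)
    m S hS w t hR
  have hRD : RD (dee S) := ⟨hR.dee_nonneg, hR.dee_le⟩
  have hK := hC (dee S) hRD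
  have hD := hR.dee_nonneg
  have ex : XX (.mk [cn σ1 e1 O1, cn σ2 e2 O2]) =
      sg σ1 • (1 - X * YY O1) + sg σ2 • (1 - X * YY O2) := by
    rw [XX_mk]
    simp [cn_YY]
  have ey : YY (.mk [cn σ1 e1 O1, cn σ2 e2 O2]) = sg e1 • XX O1 + sg e2 • XX O2 := by
    rw [YY_mk]
    simp only [List.map_cons, List.map_nil, List.sum_cons, List.sum_nil, add_zero, cn_fst, cn_XX]
  have ev : (OBr.mk [cn σ1 e1 O1, cn σ2 e2 O2]).vS S =
      fun z => ms S (cn σ1 e1 O1) z * ms S (cn σ2 e2 O2) z := by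
    funext x
    rw [vS_mk_ms]
    simp
  rw [ex, ey, ev]
  have hgr' : nu w t (g (dee S)) ≤ r (dee S) * dee S := by
    have := hgr _ hRD m S hS w t hR rfl
    rwa [hR.nu_const] at this
  have hl' : nu w t (c1 (dee S)) + nu w t (c2 (dee S)) - nu w t (g (dee S)) ≤
      l (dee S) * dee S := by
    have := hl _ hRD m S hS w t hR rfl
    rwa [hR.nu_const, nu_sub, nu_add] at this
  have hen : en S (sg σ1 • (1 - X * YY O1) + sg σ2 • (1 - X * YY O2))
      (sg e1 • XX O1 + sg e2 • XX O2) ≤ nu w t (q (dee S)) := by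
    have h3 := hq _ hRD m S hS w t hR rfl
    rw [hR.en_nu]
    refine le_trans (le_of_eq ?_) h3
    congr 1
    funext a
    simp only [eval_smul, eval_sub, eval_one, eval_mul, eval_X, eval_add, smul_eq_mul]
  have hC0 : 0 ≤ C (dee S) := by linarith [hK.hC]
  have hCen := mul_le_mul_of_nonneg_left hen hC0
  have hL0 : 0 ≤ l (dee S) * dee S := mul_nonneg hK.hl0 hD
  have hθ : l (dee S) * dee S / (2 * (1 + l (dee S) * dee S)) ≤ θ (dee S) := by
    rw [div_le_iff₀ (by positivity)]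
    exact hK.hθ
  have hθ0 : 0 ≤ θ (dee S) := le_trans (by positivity) hθ
  refine hM1.two_exp hS hM2 (r (dee S) * dee S) (C (dee S)) (κ (dee S)) (η (dee S))
    (nu w t (g (dee S))) (l (dee S) * dee S) hK.hC hK.hκ ?_ hgr' hK.hη1 hK.hη0
    (fun ρ h0 h1 => exp_crit _ _ _ ρ hK.hη0 hK.hκη hK.hP h0 h1 hK.hη) hL0 hl' ?_ ?_ ?_ ?_
  · have h3 := hg _ hRD m S hS w t hR rfl
    rw [nu_add] at h3
    exact h3
  · have h3 := hb1 _ hRD m S hS w t hR rfl
    rw [nu_sub, nu_add, nu_add, nu_mul, nu_mul] at h3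
    linarith
  · have h3 := hb2 _ hRD m S hS w t hR rfl
    rw [nu_sub, nu_add, nu_add, nu_mul] at h3
    linarith
  · have h3 := hc1 _ hRD m S hS w t hR rfl
    rw [nu_mul] at h3
    linarith
  · have h3 := hc2 _ hRD m S hS w t hR rfl
    rw [nu_add, nu_mul, nu_mul, nu_sub, nu_add] at h3
    rcases le_total 0 (nu w t (c1 (dee S)) + nu w t (c2 (dee S)) - nu w t (g (dee S))) with h4 | h4
    · have h5 := mul_le_mul_of_nonneg_right hθ h4
      linarith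
    · have h5 : l (dee S) * dee S / (2 * (1 + l (dee S) * dee S)) *
          (nu w t (c1 (dee S)) + nu w t (c2 (dee S)) - nu w t (g (dee S))) ≤ 0 :=
        mul_nonpos_of_nonneg_of_nonpos (by positivity) h4
      have h6 := hc1 _ hRD m S hS w t hR rfl
      rw [nu_mul] at h6
      have h7 : nu w t (q (dee S)) / 2 ≤ C (dee S) * nu w t (q (dee S)) := by
        have h8 : 0 ≤ nu w t (q (dee S)) := (en_nonneg (S := S) hS.anti _ _).trans hen
        nlinarith [hK.hC, mul_nonneg (sub_nonneg.2 hK.hC.le) h8]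
      linarith

end Pool.Agent.TSM
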