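import Pool.Agent.TSM.Lab2

set_option autoImplicit false

/-!
# Signs with units (MP_d27362_co)

The single children (a set `S`) keep their own sign; the other children are paired inside their
class, adjacent in the value of `U`; the label-free sign lemma `e_signs` is applied to the units.
A single child is charged `4/3 q0² (vU² + aU²)`, any other child only `8/3 q0² aU²`.
-/

namespace Pool.Agent.TSR

open Finset Polynomial
open Pool.Agent.TLT (sg)
open Pool.Agent.TDN (dn dn_nonneg dn_zero dn_neg dn_add_le dn_parallelogram)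

variable {T : ℝ}

/-- two polynomials in front -/
noncomputable def pc2 (a b : ℝ[X]) (p : ℕ → ℝ[X]) : ℕ → ℝ[X]
  | 0 => a
  | 1 => b
  | (i + 2) => p i

lemma cons2_eta (s : ℕ → Bool) : cons2 (s 0) (s 1) (fun i => s (i + 2)) = s := by
  funext i
  match i with
  | 0 => rfl
  | 1 => rfl
  | (i + 2) => rfl

lemma ss_pc2 (s : ℕ → Bool) (a b : ℝ[X]) (p : ℕ → ℝ[X]) (n : ℕ) :
    ss s (pc2 a b p) (n + 2) = sg (s 0) • a + (sg (s 1) • b + ss (fun i => s (i + 2)) p n) := by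
  conv_lhs => rw [← cons2_eta s]
  rw [ss_cons2]
  rfl

/-- adjacent pairs of a decreasing sequence as units -/
theorem units_seq : ∀ (n : ℕ) (p z : ℕ → ℝ[X]),
    (Antitone fun i => (p i).eval T) → (∀ i, 0 ≤ (p i).eval T) →
    (∀ i, |(z i).eval T| ≤ 1) → (∀ i, |(z i).eval T - (z (i + 1)).eval T| ≤ 1) →
    (∀ i, dn T (z i) ^ 2 ≤ T ^ 2 * ((p i).eval T ^ 2 + dn T (p i) ^ 2)) →
    (∀ i, dn T (z i - z (i + 1)) ^ 2 ≤ T ^ 2 * (((p i).eval T - (p (i + 1)).eval T) ^ 2 +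
      (2 * dn T (p i) ^ 2 + 2 * dn T (p (i + 1)) ^ 2))) →
    ∃ Z : ℕ → ℝ[X], (∀ ε : ℕ → Bool, ∃ s : ℕ → Bool, ss s z n = ss ε Z n) ∧
      (∀ i, |(Z i).eval T| ≤ 1) ∧
      ∑ i ∈ range n, dn T (Z i) ^ 2 ≤
        T ^ 2 * ((p 0).eval T ^ 2 + 2 * ∑ i ∈ range n, dn T (p i) ^ 2)
  | 0, p, z, _, _, h1, _, _, _ => ⟨z, fun ε => ⟨ε, rfl⟩, h1, by
      simp only [range_zero, sum_empty, mul_zero, add_zero]
      positivity⟩
  | 1, p, z, _, _, h1, _, h3, _ => ⟨z, fun ε => ⟨ε, rfl⟩, h1, by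
      simp only [range_one, sum_singleton]
      refine (h3 0).trans (mul_le_mul_of_nonneg_left ?_ (sq_nonneg T))
      have := sq_nonneg (dn T (p 0))
      linarith⟩
  | (n + 2), p, z, ha, h0, h1, h2, h3, h4 => by
      obtain ⟨Z, g1, g2, g3⟩ := units_seq n (fun i => p (i + 2)) (fun i => z (i + 2))
        (fun i j hij => ha (by omega)) (fun i => h0 _) (fun i => h1 _) (fun i => h2 _)
        (fun i => h3 _) (fun i => h4 _)
      refine ⟨pc2 (z 0 - z 1) 0 Z, fun ε => ?_, fun i => ?_, ?_⟩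
      · obtain ⟨s, hs⟩ := g1 fun i => ε (i + 2)
        refine ⟨cons2 (ε 0) (!(ε 0)) s, ?_⟩
        rw [ss_cons2, ss_pc2, hs, sg_not', smul_zero, zero_add, smul_sub, neg_smul]
        abel
      · match i with
        | 0 =>
          show |(z 0 - z 1).eval T| ≤ 1
          rw [eval_sub]
          exact h2 0
        | 1 =>
          show |(0 : ℝ[X]).eval T| ≤ 1
          simp
        | (i + 2) => exact g2 i
      · rw [sum2, sum2]
        show dn T (z 0 - z 1) ^ 2 + dn T 0 ^ 2 + ∑ i ∈ range n, dn T (Z i) ^ 2 ≤ _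
        rw [dn_zero]
        have h5 := h4 0
        have h6 : (p 2).eval T ^ 2 + ((p 0).eval T - (p 1).eval T) ^ 2 ≤ (p 0).eval T ^ 2 := by
          have a1 : (p 1).eval T ≤ (p 0).eval T := ha (by omega)
          have a2 : (p 2).eval T ≤ (p 1).eval T := ha (by omega)
          have a3 := h0 2
          have a4 : (p 2).eval T ^ 2 ≤ (p 1).eval T ^ 2 := pow_le_pow_left₀ a3 a2 2
          nlinarith [mul_le_mul_of_nonneg_left a1 (h0 1)]
        have h7 := mul_le_mul_of_nonneg_left h6 (sq_nonneg T)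
        have g3' : ∑ i ∈ range n, dn T (Z i) ^ 2 ≤
            T ^ 2 * ((p 2).eval T ^ 2 + 2 * ∑ i ∈ range n, dn T (p (i + 2)) ^ 2) := g3
        have h5' : dn T (z 0 - z 1) ^ 2 ≤ T ^ 2 * (((p 0).eval T - (p 1).eval T) ^ 2 +
          (2 * dn T (p 0) ^ 2 + 2 * dn T (p 1) ^ 2)) := h5
        nlinarith

/-- the same for a finite family -/
theorem units_fin {ι : Type*} [Fintype ι] (p z : ι → ℝ[X]) (c : ℝ)
    (hc0 : 0 ≤ c) (h0 : ∀ i, 0 ≤ (p i).eval T) (hc : ∀ i, (p i).eval T ^ 2 ≤ c)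
    (h1 : ∀ i, |(z i).eval T| ≤ 1) (h2 : ∀ i j, |(z i).eval T - (z j).eval T| ≤ 1)
    (h3 : ∀ i, dn T (z i) ^ 2 ≤ T ^ 2 * ((p i).eval T ^ 2 + dn T (p i) ^ 2))
    (h4 : ∀ i j, dn T (z i - z j) ^ 2 ≤ T ^ 2 * (((p i).eval T - (p j).eval T) ^ 2 +
      (2 * dn T (p i) ^ 2 + 2 * dn T (p j) ^ 2))) :
    ∃ Z : Fin (Fintype.card ι) → ℝ[X],
      (∀ ε : Fin (Fintype.card ι) → Bool, ∃ s : ι → Bool,
        ∑ i, sg (s i) • z i = ∑ k, sg (ε k) • Z k) ∧
      (∀ k, |(Z k).eval T| ≤ 1) ∧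
      ∑ k, dn T (Z k) ^ 2 ≤ T ^ 2 * (c + 2 * ∑ i, dn T (p i) ^ 2) := by
  obtain ⟨r, hr⟩ := exists_sorted fun i => (p i).eval T
  have e1 : (fun i => (extp (fun i => p (r i)) i).eval T) =
      ext0 (fun i => (p (r i)).eval T) := by
    funext i; exact extp_eval _ i
  have hx : ∀ i : ℕ, (∃ j, extp (fun i => p (r i)) i = p j ∧ extp (fun i => z (r i)) i = z j) ∨
      (extp (fun i => p (r i)) i = 0 ∧ extp (fun i => z (r i)) i = 0 ∧
        Fintype.card ι ≤ i) := by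
    intro i
    by_cases h : i < Fintype.card ι
    · exact Or.inl ⟨r ⟨i, h⟩, extp_lt _ h, extp_lt _ h⟩
    · refine Or.inr ⟨?_, ?_, by omega⟩
      · unfold extp; rw [dif_neg h]
      · unfold extp; rw [dif_neg h]
  obtain ⟨Z, g1, g2, g3⟩ := units_seq (T := T) (Fintype.card ι) (extp fun i => p (r i))
    (extp fun i => z (r i)) (by rw [e1]; exact ext0_antitone hr fun i => h0 _)
    (fun i => by rw [extp_eval]; exact ext0_nonneg (fun i => h0 _) i)
    (fun i => by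
      rcases hx i with ⟨j, _, hj⟩ | ⟨_, hj, _⟩
      · rw [hj]; exact h1 j
      · rw [hj]; simp)
    (fun i => by
      rcases hx i with ⟨j, _, hj⟩ | ⟨_, hj, hi⟩
      · rcases hx (i + 1) with ⟨k, _, hk⟩ | ⟨_, hk, _⟩
        · rw [hj, hk]; exact h2 j k
        · rw [hj, hk]; simpa using h1 j
      · rcases hx (i + 1) with ⟨k, _, hk⟩ | ⟨_, hk, _⟩
        · rw [hj, hk]; simpa using h1 k
        · rw [hj, hk]; simp)
    (fun i => by
      rcases hx i with ⟨j, hp, hj⟩ | ⟨hp, hj, _⟩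
      · rw [hj, hp]; exact h3 j
      · rw [hj, hp, dn_zero, zero_pow two_ne_zero]; positivity)
    (fun i => by
      rcases hx i with ⟨j, hp, hj⟩ | ⟨hp, hj, hi⟩
      · rcases hx (i + 1) with ⟨k, hp', hk⟩ | ⟨hp', hk, _⟩
        · rw [hj, hk, hp, hp']; exact h4 j k
        · rw [hj, hk, hp, hp', sub_zero, eval_zero, sub_zero, dn_zero]
          refine (h3 j).trans (mul_le_mul_of_nonneg_left ?_ (sq_nonneg T))
          have := sq_nonneg (dn T (p j))
          linarith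
      · rcases hx (i + 1) with ⟨k, hp', hk⟩ | ⟨hp', hk, _⟩
        · rw [hj, hk, hp, hp', zero_sub, eval_zero, zero_sub, dn_zero, dn_neg, neg_sq]
          refine (h3 k).trans (mul_le_mul_of_nonneg_left ?_ (sq_nonneg T))
          have := sq_nonneg (dn T (p k))
          linarith
        · rw [hj, hk, hp, hp', sub_zero, dn_zero]; simp)
  refine ⟨fun k => Z k, fun ε => ?_, fun k => g2 k, ?_⟩
  · obtain ⟨s, hs⟩ := g1 fun k => if h : k < Fintype.card ι then ε ⟨k, h⟩ else true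
    refine ⟨fun i => s (r.symm i), ?_⟩
    rw [← ss_sorted r z s, hs]
    unfold ss
    rw [← Fin.sum_univ_eq_sum_range (fun i => sg (if h : i < Fintype.card ι then ε ⟨i, h⟩
      else true) • Z i)]
    refine sum_congr rfl fun k _ => ?_
    rw [dif_pos k.2]
  · have e3 : ∑ i ∈ range (Fintype.card ι), dn T (extp (fun i => p (r i)) i) ^ 2 =
        ∑ i, dn T (p i) ^ 2 :=
      sum_sorted r (fun i => dn T (p i) ^ 2) _ fun i => by rw [extp_fin]
    rw [e3] at g3
    rw [Fin.sum_univ_eq_sum_range (fun i => dn T (Z i) ^ 2)]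
    refine g3.trans (mul_le_mul_of_nonneg_left ?_ (sq_nonneg T))
    have : (extp (fun i => p (r i)) 0).eval T ^ 2 ≤ c := by
      rcases hx 0 with ⟨j, hp, _⟩ | ⟨hp, _, _⟩
      · rw [hp]; exact hc j
      · rw [hp, eval_zero]; simpa using hc0
    linarith

/-- **signs with units**: the members of `S` are single, the others are paired inside their
class -/
theorem units_signs {ι : Type*} [Fintype ι] [DecidableEq ι] (hT : 0 ≤ T) (S cl : ι → Prop)
    [DecidablePred S] [DecidablePred cl] (p z : ι → ℝ[X]) (c1 c0 : ℝ) (hc1 : 0 ≤ c1)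
    (hc0 : 0 ≤ c0) (h0 : ∀ i, 0 ≤ (p i).eval T)
    (b1 : ∀ i, ¬ S i → cl i → (p i).eval T ^ 2 ≤ c1)
    (b0 : ∀ i, ¬ S i → ¬ cl i → (p i).eval T ^ 2 ≤ c0)
    (h1 : ∀ i, |(z i).eval T| ≤ 1)
    (h2 : ∀ i j, (cl i ↔ cl j) → |(z i).eval T - (z j).eval T| ≤ 1)
    (h3 : ∀ i, dn T (z i) ^ 2 ≤ T ^ 2 * ((p i).eval T ^ 2 + dn T (p i) ^ 2))
    (h4 : ∀ i j, dn T (z i - z j) ^ 2 ≤ T ^ 2 * (((p i).eval T - (p j).eval T) ^ 2 +
      (2 * dn T (p i) ^ 2 + 2 * dn T (p j) ^ 2))) :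
    ∃ e : ι → Bool, 0 ≤ (∑ i, sg (e i) • z i).eval T ∧ (∑ i, sg (e i) • z i).eval T ≤ 2 ∧
      dn T (∑ i, sg (e i) • z i) ^ 2 ≤ 4 / 3 * T ^ 2 *
        (∑ i : {i // S i}, ((p i).eval T ^ 2 + dn T (p i) ^ 2) +
          2 * ∑ i : {i // ¬ S i}, dn T (p i) ^ 2 + c1 + c0) := by
  -- the two classes of the other members
  obtain ⟨Z1, u1, v1, w1⟩ := units_fin (T := T)
    (fun i : {j : {i // ¬ S i} // cl j} => p i) (fun i => z i) c1 hc1 (fun i => h0 _)
    (fun i => b1 _ i.1.2 i.2) (fun i => h1 _)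
    (fun i j => h2 _ _ ⟨fun _ => j.2, fun _ => i.2⟩) (fun i => h3 _) (fun i j => h4 _ _)
  obtain ⟨Z0, u0, v0, w0⟩ := units_fin (T := T)
    (fun i : {j : {i // ¬ S i} // ¬ cl j} => p i) (fun i => z i) c0 hc0 (fun i => h0 _)
    (fun i => b0 _ i.1.2 i.2) (fun i => h1 _)
    (fun i j => h2 _ _ ⟨fun h => absurd h i.2, fun h => absurd h j.2⟩) (fun i => h3 _)
    (fun i j => h4 _ _)
  obtain ⟨ε, k1, k2, k3, _⟩ := e_signs hT
    (ι := {i // S i} ⊕ (Fin (Fintype.card {j : {i // ¬ S i} // cl j}) ⊕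
      Fin (Fintype.card {j : {i // ¬ S i} // ¬ cl j})))
    (Sum.elim (fun i => z i) (Sum.elim Z1 Z0)) 1 zero_le_one (fun i => by
      rcases i with i | i | i
      · exact h1 _
      · exact v1 i
      · exact v0 i)
  obtain ⟨s1, hs1⟩ := u1 fun k => ε (Sum.inr (Sum.inl k))
  obtain ⟨s0, hs0⟩ := u0 fun k => ε (Sum.inr (Sum.inr k))
  set e : ι → Bool := glue S (fun i => ε (Sum.inl i))
    (glue (fun j : {i // ¬ S i} => cl j) s1 s0) with he
  have hsum : ∑ i, sg (e i) • z i = ∑ i, sg (ε i) •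
      (Sum.elim (fun i : {i // S i} => z i) (Sum.elim Z1 Z0) i) := by
    rw [he, glue_sum S, glue_sum (fun j : {i // ¬ S i} => cl j) s1 s0 fun i => z i, hs1, hs0,
      Fintype.sum_sum_type, Fintype.sum_sum_type]
    rfl
  refine ⟨e, by rw [hsum]; exact k1, by rw [hsum]; linarith, ?_⟩
  rw [hsum]
  refine k3.trans ?_
  rw [Fintype.sum_sum_type, Fintype.sum_sum_type]
  simp only [Sum.elim_inl, Sum.elim_inr]
  have g1 : ∑ i : {i // S i}, dn T (z i) ^ 2 ≤
      T ^ 2 * ∑ i : {i // S i}, ((p i).eval T ^ 2 + dn T (p i) ^ 2) := by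
    rw [mul_sum]
    exact sum_le_sum fun i _ => h3 _
  have g2 := sum_cl (fun j : {i // ¬ S i} => cl j) fun i => dn T (p i) ^ 2
  rw [g2]
  nlinarith

end Pool.Agent.TSR

namespace Pool.Agent.TSM

open Finset Polynomial
open Pool.Agent.TSR (OBr units_signs)
open Pool.Agent.TLT (sg)
open Pool.Agent.TDN (dn dn_nonneg)

noncomputable section

lemma XX_eval_q0 (O : OBr) : (XX O).eval q0 = tau O - q0 * vU O := by
  unfold XX vU
  rw [eval_sub, eval_C, eval_mul, eval_X]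

/-- **signs with units** for the states of a family: the children in `S` are single, the others
are paired inside their class; `c1`, `c0` bound the squares of the values of the others -/
theorem e_units {K : ℕ} (O : Fin K → OBr) (h : ∀ i, Inv (O i)) (S : Fin K → Prop)
    [DecidablePred S] (c1 c0 : ℝ) (hc1 : 0 ≤ c1) (hc0 : 0 ≤ c0)
    (b1 : ∀ i, ¬ S i → tau (O i) = 1 → vU (O i) ^ 2 ≤ c1)
    (b0 : ∀ i, ¬ S i → tau (O i) = 0 → vU (O i) ^ 2 ≤ c0) :
    ∃ e : Fin K → Bool, ∀ σ, 0 ≤ vY (fam σ e O) ∧ vY (fam σ e O) ≤ 2 ∧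
      aY (fam σ e O) ^ 2 ≤ 4 / 3 * q0 ^ 2 *
        (∑ i ∈ univ.filter S, (vU (O i) ^ 2 + aU (O i) ^ 2) +
          2 * ∑ i ∈ univ.filter (fun i => ¬ S i), aU (O i) ^ 2 + c1 + c0) := by
  classical
  have hq := q0_pos
  have hq1 := q0_le
  obtain ⟨e, k1, k2, k3⟩ := units_signs (T := q0) hq.le S (fun i => tau (O i) = 1)
    (fun i => UU (O i)) (fun i => XX (O i)) c1 c0 hc1 hc0 (fun i => (h i).2.1)
    (fun i => b1 i)
    (fun i hi hn => b0 i hi ((h i).1.resolve_right hn)) (fun i => (h i).XXT)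
    (fun i j hij => by
      rw [XX_eval_q0, XX_eval_q0]
      have h1 := h i
      have h2 := h j
      have h5 : tau (O i) = tau (O j) := by
        rcases h1.1 with a | a <;> rcases h2.1 with b | b
        · rw [a, b]
        · have := hij.2 b; rw [a] at this; norm_num at this
        · have := hij.1 a; rw [b] at this; norm_num at this
        · rw [a, b]
      rw [h5, abs_le]
      have a1 := mul_nonneg hq.le h1.2.1
      have a2 := mul_nonneg hq.le h2.2.1
      have a3 : q0 * vU (O i) ≤ 4053 / 10000 * 2 := mul_le_mul hq1 h1.2.2.1 h1.2.1 (by norm_num)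
      have a4 : q0 * vU (O j) ≤ 4053 / 10000 * 2 := mul_le_mul hq1 h2.2.2.1 h2.2.1 (by norm_num)
      constructor <;> linarith)
    (fun i => aX_sq_le (O i))
    (fun i j => by
      have e1 : dn q0 (XX (O i) - XX (O j)) = dn q0 (X * (UU (O i) - UU (O j))) := by
        have : XX (O i) - XX (O j) = C (tau (O i) - tau (O j)) - X * (UU (O i) - UU (O j)) := by
          unfold XX
          rw [C_sub]
          ring
        rw [this, TDN.dn_C_sub]
      rw [e1]
      refine (TDN.dn_X_mul_sq_le q0 hq.le _).trans (mul_le_mul_of_nonneg_left ?_ (sq_nonneg _))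
      rw [eval_sub]
      have h5 := TDN.dn_parallelogram q0 hq.le (UU (O i)) (UU (O j))
      have h6 := sq_nonneg (dn q0 (UU (O i) + UU (O j)))
      linarith)
  refine ⟨e, fun σ => ?_⟩
  have e2 : YY (fam σ e O) = ∑ i, sg (e i) • XX (O i) := fam_YY σ e O
  unfold vY aY
  rw [e2]
  refine ⟨k1, k2, k3.trans (le_of_eq ?_)⟩
  congr 1
  congr 3
  · rw [Finset.sum_subtype (univ.filter S) (p := S) (by simp)]
    rfl
  · congr 1
    rw [Finset.sum_subtype (univ.filter fun i => ¬ S i) (p := fun i => ¬ S i) (by simp)]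
    rfl

end

end Pool.Agent.TSM
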