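import Pool.Agent.TSM.ZpcE

set_option autoImplicit false

/-!
# The step with a leaf and two branches behind positive edges: negative gain with factor one
(MP_d27362_co)
-/

namespace Pool.Agent.TSM

open Finset Polynomial
open Pool.Agent.TSP
open Pool.Agent.TSO
open Pool.Agent.TSR (OBr Ker sg_true sg_false vS_nonneg)
open Pool.Agent.TLT (sg)

/-! ### real inequalities -/

/-- rule (C) for a gain of any sign: `h ≥ - 2 s - r` suffices -/
theorem zn_point (ε u p q ct h s μ k2 r : ℝ) (hε : 0 < ε) (hu0 : -1 ≤ u) (hu1 : u ≤ 1)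
    (hp : 0 ≤ p) (hq : 0 ≤ q) (hpq : p + q = 2 * (1 + u + ct)) (hct : 2 * ct - r ≤ h)
    (hs : 0 ≤ s) (hhs : -(2 * s + r) ≤ h) (hcs : ct ≤ s + r / 2 + μ) (hμ0 : 0 ≤ μ)
    (hμ : μ ≤ 4 * ε) (hk2 : 0 ≤ k2) (hk : s ^ 2 ≤ k2 * (1 - u ^ 2)) (hr : 0 ≤ r) :
    (1 - u) * (p * q) ≤ (1 + r / 2) ^ 2 * (1 + u + h) + (1 + ε) * (h / 2) ^ 2 +
      (1 + ε + 1 / (4 * ε)) * k2 * u ^ 2 +
      r * ((1 + r / 2) * max (-(u + h / 2)) 0 + (h / 2) ^ 2 / 4) := by
  rcases le_total (-(2 * s)) h with hh | hh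
  · exact zm_point ε u p q ct h s μ k2 r hε hu0 hu1 hp hq hpq hct hs hh hcs hμ0 hμ hk2 hk hr
  have hu : 0 ≤ 1 - u := by linarith
  have hprod : (1 - u) * (p * q) ≤ (1 - u) * (1 + u + (h / 2 + r / 2)) ^ 2 := by
    apply mul_le_mul_of_nonneg_left _ hu
    have h2 : p * q ≤ ((p + q) / 2) ^ 2 := by nlinarith [sq_nonneg (p - q)]
    refine h2.trans ?_
    apply pow_le_pow_left₀ (by linarith)
    linarith
  refine hprod.trans ?_
  obtain ⟨X, hX⟩ : ∃ X : ℝ, X = -(h / 2) := ⟨_, rfl⟩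
  have hH : h / 2 = -X := by linarith
  have hh2 : h = -(2 * X) := by linarith
  have hX0 : s ≤ X := by linarith
  have hXr : X - s ≤ r / 2 := by linarith
  rw [zm_id, hH, hh2]
  have hek : 0 ≤ (1 + ε + 1 / (4 * ε)) * k2 * u ^ 2 := by positivity
  have e1 : 1 + u + 2 * -X = 1 + u + -(2 * X) := by ring
  rw [e1]
  rcases le_total 0 u with h0 | h0
  · -- `u ≥ 0`
    have h1 : 0 ≤ u * (-X + u) ^ 2 := mul_nonneg h0 (sq_nonneg _)
    have hw : 0 ≤ 1 + u + r / 2 := by linarith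
    have hmax : -((u + -X) * (1 + u + r / 2)) ≤
        (1 + r / 2) * max (-(u + -X)) 0 + (-X) ^ 2 / 4 := by
      rcases le_total (-(u + -X)) 0 with h1 | h1
      · rw [max_eq_right h1]
        have h2 : 0 ≤ (u + -X) * (1 + u + r / 2) := mul_nonneg (by linarith) hw
        nlinarith [sq_nonneg X]
      · rw [max_eq_left h1]
        nlinarith [sq_nonneg (u + -X / 2)]
    have h3 := mul_le_mul_of_nonneg_left hmax hr
    have h4 : 0 ≤ ε * (-X) ^ 2 := by positivity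
    nlinarith [sq_nonneg u]
  · -- `u = -v ≤ 0`
    obtain ⟨v, hv⟩ : ∃ v : ℝ, v = -u := ⟨_, rfl⟩
    have huv : u = -v := by linarith
    have hv0 : 0 ≤ v := by linarith
    have hv1 : v ≤ 1 := by linarith
    subst huv
    have hk' : s ^ 2 ≤ k2 * (1 - v ^ 2) := by rwa [neg_sq] at hk
    have h1 := zpc_neg ε v s k2 0 hε hv0 hv1 hs hk2 hk' le_rfl
    have hm : max (-(-v + -X)) 0 = v + X := by
      rw [max_eq_left (by linarith)]
      ring
    rw [hm]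
    have h2 : v * ((X - s) * (X + s + 2 * v)) ≤ v * (r / 2 * (2 * (X + v))) := by
      apply mul_le_mul_of_nonneg_left _ hv0
      exact mul_le_mul hXr (by linarith) (by linarith) (by linarith)
    have h3 : ε * s ^ 2 ≤ ε * X ^ 2 :=
      mul_le_mul_of_nonneg_left (pow_le_pow_left₀ hs hX0 2) hε.le
    have h4 : 0 ≤ r * (X ^ 2 / 4) := by positivity
    have e2 : ε * (s - 0) ^ 2 = ε * s ^ 2 := by ring
    rw [e2] at h1
    rw [neg_sq v]
    nlinarith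

/-- the real inequality of the loss side for a negative gain; `ξ` bounds its absolute value -/
def ZNeg (εn e0 K0 κ : ℝ) : Prop := ∀ u p q ct h s k2 r ξ : ℝ, -1 ≤ u → u ≤ 1 → 0 ≤ p →
  0 ≤ q → p + q = 2 * (1 + u + ct) → 2 * ct - r ≤ h → 0 ≤ s → -(2 * s + ξ) ≤ h →
  ct ≤ s + r / 2 → 0 ≤ k2 → s ^ 2 ≤ k2 * (1 - u ^ 2) → 0 ≤ ξ → ξ ≤ r → r ≤ 9 / 10 →
  3 / 4 * ξ ^ 2 ≤ k2 →
  (1 - u) * (p * q) ≤ (1 + r / 2) ^ 2 * (1 + u + h) + (1 + εn) * ((h - r) / 2) ^ 2 +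
    e0 * k2 * u ^ 2 + (r / 2) ^ 2 * u ^ 2 + K0 * ξ ^ 2 + κ * max (ξ - (1 + u)) 0

section Raw

variable {m : ℕ} {S : Fin m → Fin m → ℝ}

/-- the product of the messages, general form -/
theorem zg_gen (hK : Ker S) {f1 f2 : Fin m → ℝ} {x1 y1 x2 y2 : ℝ[X]}
    (M1 M2 g1 g2 L : ℝ) (T : ℝ → ℝ → ℝ) (hM1 : 0 < M1) (hM2 : 0 < M2) (hf1 : ∀ i, 0 ≤ f1 i)
    (hf2 : ∀ i, 0 ≤ f2 i)
    (hb1 : ∀ i, f1 i ≤ M1 * (1 - (mo S x1 - g1) + st S (1 - X * y1) x1 i))
    (hb2 : ∀ i, f2 i ≤ M2 * (1 - (mo S x2 - g2) + st S (1 - X * y2) x2 i))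
    (hL : 0 < L) (hT : ∀ u h : ℝ, -1 ≤ u → u ≤ 1 → 0 ≤ T u h)
    (hreal : ∀ u o s p q : ℝ, -1 ≤ u → u ≤ 1 → 0 ≤ p → 0 ≤ q →
      p + q = 2 * (1 + u + (o + (g1 + g2)) / 2) → 0 ≤ s →
      s ^ 2 ≤ en S (x1 + x2) (y1 + y2) / 4 * (1 - u ^ 2) → -(2 * s) ≤ o → o ≤ 2 * s →
      (1 - u) * (p * q) ≤ L * (1 + u + (o + mo S (x1 + x2))) + T u (o + mo S (x1 + x2))) :
    ∃ G : Fin m → ℝ, (∀ i, 0 ≤ G i) ∧
      (∀ i, (1 - beta S i) * (f1 i * f2 i) ≤
        (M1 * M2 * L) * (1 + st S (1 - X * (y1 + y2)) (x1 + x2) i + G i)) ∧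
      2 * mn G = (2 * mn fun i =>
        T (beta S i) (st S (-(X * (y1 + y2))) (x1 + x2) i)) / L := by
  obtain ⟨ψ, hψ⟩ : ∃ ψ, ψ = st S (x1 + x2) (y1 + y2) := ⟨_, rfl⟩
  have hψ0 : mn ψ = 0 := by rw [hψ]; exact mn_st S hK.anti _ _
  have hψψ : ip ψ ψ = en S (x1 + x2) (y1 + y2) := by rw [hψ]; exact ip_st_self hK.anti _ _
  have hen : 0 ≤ en S (x1 + x2) (y1 + y2) := en_nonneg hK.anti _ _
  obtain ⟨h, hh⟩ : ∃ h : Fin m → ℝ, h = op (aker S) ψ := ⟨_, rfl⟩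
  have hhi : ∀ i, h i = op S ψ i + mo S (x1 + x2) := fun i => by
    rw [hh, hψ, op_aker_st hK]
  have hW : ∀ i, st S (1 - X * (y1 + y2)) (x1 + x2) i = beta S i + h i := fun i => by
    rw [st_one_sub, hh, hψ]
  have hst : h = st S (-(X * (y1 + y2))) (x1 + x2) := by rw [hh, hψ, op_st]
  have hu : ∀ i, -1 ≤ beta S i ∧ beta S i ≤ 1 := fun i =>
    abs_le.1 (beta_abs_le hK.pos S hK.bd i)
  obtain ⟨k, hk⟩ : ∃ k : ℝ, k = 1 / L := ⟨_, rfl⟩
  have hk0 : 0 < k := by rw [hk]; positivity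
  have hk1 : L * k = 1 := by rw [hk]; field_simp
  refine ⟨fun i => k * T (beta S i) (h i), fun i => ?_, fun i => ?_, ?_⟩
  · exact mul_nonneg hk0.le (hT _ _ (hu i).1 (hu i).2)
  · have hsink := abs_le.1 (near_sink hK.pos S hK.bd ψ hψ0 i)
    rw [hψψ] at hsink
    obtain ⟨s, hs⟩ : ∃ s : ℝ, s = Real.sqrt (1 - beta S i ^ 2) *
      Real.sqrt (en S (x1 + x2) (y1 + y2)) / 2 := ⟨_, rfl⟩
    have hs0 : 0 ≤ s := by rw [hs]; positivity
    have hus : 0 ≤ 1 - beta S i ^ 2 := by nlinarith [(hu i).1, (hu i).2]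
    have hss : s ^ 2 = en S (x1 + x2) (y1 + y2) / 4 * (1 - beta S i ^ 2) := by
      rw [hs, div_pow, mul_pow, Real.sq_sqrt hus, Real.sq_sqrt hen]
      ring
    have e1 : 1 - (mo S x1 - g1) + st S (1 - X * y1) x1 i =
        1 + beta S i + op S (st S x1 y1) i + g1 := by
      rw [st_one_sub, op_aker_st hK]; ring
    have e2 : 1 - (mo S x2 - g2) + st S (1 - X * y2) x2 i =
        1 + beta S i + op S (st S x2 y2) i + g2 := by
      rw [st_one_sub, op_aker_st hK]; ring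
    have hp1 := hb1 i
    have hq1 := hb2 i
    rw [e1] at hp1
    rw [e2] at hq1
    have hp0 : 0 ≤ 1 + beta S i + op S (st S x1 y1) i + g1 :=
      nonneg_of_mul_nonneg_right ((hf1 i).trans hp1) hM1
    have hq0 : 0 ≤ 1 + beta S i + op S (st S x2 y2) i + g2 :=
      nonneg_of_mul_nonneg_right ((hf2 i).trans hq1) hM2
    have hop : op S ψ i = op S (st S x1 y1) i + op S (st S x2 y2) i := by
      rw [hψ, st_add, op_add]
      rfl
    have hpt := hreal (beta S i) (op S ψ i) s _ _ (hu i).1 (hu i).2 hp0 hq0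
      (by rw [hop]; ring) hs0 hss.le (by rw [hs]; linarith [hsink.1])
      (by rw [hs]; linarith [hsink.2])
    rw [← hhi] at hpt
    have h1u : 0 ≤ 1 - beta S i := by linarith [(hu i).2]
    have h1 : f1 i * f2 i ≤ (M1 * (1 + beta S i + op S (st S x1 y1) i + g1)) *
        (M2 * (1 + beta S i + op S (st S x2 y2) i + g2)) :=
      mul_le_mul hp1 hq1 (hf2 i) (mul_nonneg hM1.le hp0)
    refine (mul_le_mul_of_nonneg_left h1 h1u).trans ?_
    have e3 : (1 - beta S i) * ((M1 * (1 + beta S i + op S (st S x1 y1) i + g1)) *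
        (M2 * (1 + beta S i + op S (st S x2 y2) i + g2))) = (M1 * M2) * ((1 - beta S i) *
        ((1 + beta S i + op S (st S x1 y1) i + g1) *
          (1 + beta S i + op S (st S x2 y2) i + g2))) := by ring
    rw [e3, mul_assoc (M1 * M2)]
    apply mul_le_mul_of_nonneg_left _ (by positivity)
    refine hpt.trans (le_of_eq ?_)
    rw [hW]
    have e4 : L * (1 + (beta S i + h i) + k * T (beta S i) (h i)) =
        L * (1 + (beta S i + h i)) + (L * k) * T (beta S i) (h i) := by ring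
    rw [e4, hk1]
    ring
  · rw [mn_mul, ← hst, hk]
    ring

/-- the mean of the error term -/
theorem mn_T (hK : Ker S) (x U : ℝ[X]) (A B E K Z Y ξ : ℝ)
    (hs : (mn fun i => max (ξ - (1 + beta S i)) 0) ≤ ξ ^ 2 / 4) (hZ : 0 ≤ Z) (hY : 0 ≤ Y) :
    (2 * mn fun i => (A * (st S (-(X * U)) x i) ^ 2 + B * st S (-(X * U)) x i +
      E * (beta S i) ^ 2 + K) + Z * max (-(beta S i + st S (-(X * U)) x i / 2)) 0 +
      Y * max (ξ - (1 + beta S i)) 0) ≤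
    2 * A * en S (-(X * U)) x + 2 * E * dee S + 2 * K +
      Z * Real.sqrt (en S (halfx U) (halfy x)) + Y * (ξ ^ 2 / 2) := by
  obtain ⟨h, hh⟩ : ∃ h : Fin m → ℝ, h = st S (-(X * U)) x := ⟨_, rfl⟩
  have hh0 : mn h = 0 := by rw [hh]; exact mn_st S hK.anti _ _
  have hhh : (mn fun i => h i * h i) = en S (-(X * U)) x := by
    have h1 : (mn fun i => h i * h i) = ip h h := rfl
    rw [h1, hh, ip_st_self hK.anti]
  have hz : ∀ i, st S (halfx U) (halfy x) i = beta S i + h i / 2 := fun i => by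
    have e1 : halfy x = 0 + (1 / 2 : ℝ) • x := by rw [halfy, zero_add]
    rw [halfx, e1, st_add, st_smul, st_beta, ← hh]
    simp only [Pi.add_apply, Pi.smul_apply, smul_eq_mul]
    ring
  rw [← hh]
  have e1 : (fun i => (A * (h i) ^ 2 + B * h i + E * (beta S i) ^ 2 + K) +
      Z * max (-(beta S i + h i / 2)) 0 + Y * max (ξ - (1 + beta S i)) 0) =
      fun i => ((((K + A * (h i * h i)) + B * h i) + E * (beta S i * beta S i)) +
        Z * max (-(st S (halfx U) (halfy x) i)) 0) + Y * max (ξ - (1 + beta S i)) 0 := by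
    funext i
    rw [hz]; ring
  rw [e1, mn_add, mn_add, mn_add, mn_add, mn_add, mn_mul, mn_mul, mn_mul, mn_mul, mn_mul,
    mn_const hK.pos, hhh]
  have h3 : (mn fun i => beta S i * beta S i) = dee S := rfl
  have h4 : (mn fun i => h i) = 0 := hh0
  rw [h3, h4]
  have h5 := mul_le_mul_of_nonneg_left (two_mn_neg hK (halfx U) (halfy x)) hZ
  have h6 := mul_le_mul_of_nonneg_left hs hY
  linarith

/-- the loss side for a negative gain `G0 ≤ 0`, raw form; `r` is the paid cost minus `G0` -/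
theorem zn_raw (hK : Ker S) {f1 f2 : Fin m → ℝ} {x1 y1 x2 y2 : ℝ[X]}
    (M1 M2 g1 g2 ε e0 K0 κ G0 r : ℝ) (hM1 : 0 < M1) (hM2 : 0 < M2) (hf1 : ∀ i, 0 ≤ f1 i)
    (hf2 : ∀ i, 0 ≤ f2 i)
    (hb1 : ∀ i, f1 i ≤ M1 * (1 - (mo S x1 - g1) + st S (1 - X * y1) x1 i))
    (hb2 : ∀ i, f2 i ≤ M2 * (1 - (mo S x2 - g2) + st S (1 - X * y2) x2 i))
    (hε : 0 < ε) (he0 : 1 + ε + 1 / (4 * ε) ≤ e0) (hK0 : 0 ≤ K0) (hκ : 0 ≤ κ)
    (hN : ZNeg ε e0 K0 κ) (hg : 0 ≤ g1 + g2)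
    (hsink : ∀ c : ℝ, 0 ≤ c → c ≤ 1 → (mn fun i => max (c - (1 + beta S i)) 0) ≤ c ^ 2 / 4)
    (hG : G0 ≤ mo S (x1 + x2)) (hG0 : G0 ≤ 0) (hrg : r = g1 + g2 - G0) :
    ∃ G : Fin m → ℝ, (∀ i, 0 ≤ G i) ∧
      (∀ i, (1 - beta S i) * (f1 i * f2 i) ≤
        (M1 * M2 * (1 + r / 2) ^ 2) * (1 + st S (1 - X * (y1 + y2)) (x1 + x2) i + G i)) ∧
      2 * mn G ≤ ((1 + ε) * en S (-(X * (y1 + y2))) (x1 + x2) +
        e0 * dee S * en S (x1 + x2) (y1 + y2)) / 2 +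
        r / (1 + r / 2) * Real.sqrt (en S (halfx (y1 + y2)) (halfy (x1 + x2))) ∧
      (r ≤ 9 / 10 →
        2 * mn G ≤ ((1 + ε) * en S (-(X * (y1 + y2))) (x1 + x2) +
        e0 * dee S * en S (x1 + x2) (y1 + y2)) / 2 +
        (2 * K0 + κ / 2) * (max 0 (-(mo S (x1 + x2)))) ^ 2 +
        (1 + ε + dee S) * r ^ 2 / (2 * (1 + r / 2) ^ 2)) := by
  have hD : 0 ≤ dee S := ip_self_nonneg _
  have hD3 : dee S ≤ 1 / 3 := dee_le S hK.anti hK.bd
  have hr : 0 ≤ r := by linarith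
  obtain ⟨Q0, hQ0⟩ : ∃ Q0 : ℝ, Q0 = en S (-(X * (y1 + y2))) (x1 + x2) := ⟨_, rfl⟩
  obtain ⟨en1, hen1⟩ : ∃ en1 : ℝ, en1 = en S (x1 + x2) (y1 + y2) := ⟨_, rfl⟩
  obtain ⟨δ, hδ⟩ : ∃ δ : ℝ, δ = en S (halfx (y1 + y2)) (halfy (x1 + x2)) := ⟨_, rfl⟩
  obtain ⟨D, hDd⟩ : ∃ D : ℝ, D = dee S := ⟨_, rfl⟩
  obtain ⟨ξ, hξ⟩ : ∃ ξ : ℝ, ξ = max 0 (-(mo S (x1 + x2))) := ⟨_, rfl⟩
  obtain ⟨e, he⟩ : ∃ e : ℝ, e = 1 + ε + 1 / (4 * ε) := ⟨_, rfl⟩
  have hep : 0 < e := by rw [he]; positivity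
  have he0p : 0 < e0 := by linarith
  have hQ0n : 0 ≤ Q0 := by rw [hQ0]; exact en_nonneg hK.anti _ _
  have hen1n : 0 ≤ en1 := by rw [hen1]; exact en_nonneg hK.anti _ _
  have hDn : 0 ≤ D := by rw [hDd]; exact hD
  have hξ0 : 0 ≤ ξ := by rw [hξ]; exact le_max_left _ _
  have hξ1 : -(mo S (x1 + x2)) ≤ ξ := by rw [hξ]; exact le_max_right _ _
  have hξr : ξ ≤ r := by
    rw [hξ]
    exact max_le hr (by linarith)
  have hξ2 : 3 / 4 * ξ ^ 2 ≤ en1 / 4 := by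
    have h1 := ip_sq_le (beta S) (st S (x1 + x2) (y1 + y2))
    rw [ip_beta_st S hK.anti, ip_st_self hK.anti, ← hen1] at h1
    have h2 : ip (beta S) (beta S) * en1 ≤ 1 / 3 * en1 := mul_le_mul_of_nonneg_right hD3 hen1n
    have h3 : ξ ^ 2 ≤ (mo S (x1 + x2)) ^ 2 := by
      rcases le_total 0 (mo S (x1 + x2)) with h | h
      · rw [hξ, max_eq_left (by linarith)]
        nlinarith [sq_nonneg (mo S (x1 + x2))]
      · rw [hξ, max_eq_right (by linarith), neg_sq]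
    linarith
  have h1r : 0 < 1 + r / 2 := by linarith
  obtain ⟨L, hL⟩ : ∃ L : ℝ, L = (1 + r / 2) ^ 2 := ⟨_, rfl⟩
  have hL0 : 0 < L := by rw [hL]; positivity
  have hL1 : 1 ≤ L := by rw [hL]; nlinarith
  have hsink0 : (mn fun i => max ((0 : ℝ) - (1 + beta S i)) 0) ≤ (0 : ℝ) ^ 2 / 4 :=
    hsink 0 le_rfl zero_le_one
  -- rule C
  obtain ⟨GC, hGC, hGCb, hmC⟩ := zg_gen hK (x1 := x1) (y1 := y1) (x2 := x2) (y2 := y2) M1 M2 g1 g2
    L (fun u h => ((1 + ε + r / 4) / 4 * h ^ 2 + 0 * h + e * (en1 / 4) * u ^ 2 + 0) +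
      r * (1 + r / 2) * max (-(u + h / 2)) 0 + 0 * max (0 - (1 + u)) 0) hM1 hM2 hf1 hf2 hb1 hb2
    hL0 (by
      intro u h _ _
      have h1 : 0 ≤ r * (1 + r / 2) * max (-(u + h / 2)) 0 :=
        mul_nonneg (mul_nonneg hr h1r.le) (le_max_right _ _)
      have h2 : 0 ≤ (1 + ε + r / 4) / 4 * h ^ 2 + e * (en1 / 4) * u ^ 2 := by positivity
      show 0 ≤ ((1 + ε + r / 4) / 4 * h ^ 2 + 0 * h + e * (en1 / 4) * u ^ 2 + 0) +
        r * (1 + r / 2) * max (-(u + h / 2)) 0 + 0 * max (0 - (1 + u)) 0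
      linarith) (by
      intro u o s p q hu0 hu1 hp hq hpq hs hss ho1 ho2
      rw [← hen1] at hss
      have hpt := zn_point ε u p q ((o + (g1 + g2)) / 2) (o + mo S (x1 + x2)) s 0
        (en1 / 4) r hε hu0 hu1 hp hq hpq (by linarith) hs (by linarith) (by linarith)
        le_rfl (by linarith) (by linarith) hss hr
      rw [← he, ← hL] at hpt
      refine hpt.trans (le_of_eq ?_)
      ring)
  have hC : 2 * mn GC ≤ ((1 + ε) * Q0 + e0 * D * en1) / 2 +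
        r / (1 + r / 2) * Real.sqrt δ := by
    have h1 := mn_T hK (x1 + x2) (y1 + y2) ((1 + ε + r / 4) / 4) 0 (e * (en1 / 4)) 0
      (r * (1 + r / 2)) 0 0 hsink0 (mul_nonneg hr h1r.le) le_rfl
    rw [← hQ0, ← hδ, ← hDd] at h1
    rw [hmC]
    have h2 := div_le_div_of_nonneg_right h1 hL0.le
    refine h2.trans ?_
    have e1 : (2 * ((1 + ε + r / 4) / 4) * Q0 + 2 * (e * (en1 / 4)) * D + 2 * 0 +
        r * (1 + r / 2) * Real.sqrt δ + 0 * ((0 : ℝ) ^ 2 / 2)) / L =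
        ((1 + ε + r / 4) * Q0 + e * D * en1) / (2 * L) +
        r / (1 + r / 2) * Real.sqrt δ := by
      rw [hL]
      field_simp
      ring
    rw [e1]
    have h2 : ((1 + ε + r / 4) * Q0 + e * D * en1) / (2 * L) ≤
        ((1 + ε) * Q0 + e0 * D * en1) / 2 := by
      rw [div_le_div_iff₀ (by positivity) (by norm_num)]
      have h3 : (1 + ε + r / 4) ≤ (1 + ε) * L := by
        rw [hL]
        nlinarith [mul_nonneg hε.le hr, mul_nonneg hr hr,
          mul_nonneg hε.le (mul_nonneg hr hr)]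
      have h5 := mul_le_mul_of_nonneg_right h3 hQ0n
      have h6 : e ≤ e0 * L := by
        have h7 : e ≤ e0 := by rw [he]; exact he0
        exact h7.trans (le_mul_of_one_le_right he0p.le hL1)
      have h7 := mul_le_mul_of_nonneg_right h6 (mul_nonneg hDn hen1n)
      nlinarith
    linarith
  rcases le_or_gt r (9 / 10) with hr9 | hr9
  · obtain ⟨GA, hGA, hGAb, hmA⟩ := zg_gen hK (x1 := x1) (y1 := y1) (x2 := x2) (y2 := y2)
      M1 M2 g1 g2
      L (fun u h => ((1 + ε) / 4 * h ^ 2 + (-(r * ((1 + ε) / 2))) * h +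
        (e0 * (en1 / 4) + r ^ 2 / 4) * u ^ 2 + ((1 + ε) / 4 * r ^ 2 + K0 * ξ ^ 2)) +
        0 * max (-(u + h / 2)) 0 + κ * max (ξ - (1 + u)) 0) hM1 hM2 hf1 hf2 hb1 hb2
      hL0 (by
        intro u h _ _
        have h1 : 0 ≤ κ * max (ξ - (1 + u)) 0 := mul_nonneg hκ (le_max_right _ _)
        have h2 : 0 ≤ (1 + ε) / 4 * (h - r) ^ 2 + (e0 * (en1 / 4) + r ^ 2 / 4) * u ^ 2 +
          K0 * ξ ^ 2 := by positivity
        show 0 ≤ ((1 + ε) / 4 * h ^ 2 + (-(r * ((1 + ε) / 2))) * h +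
          (e0 * (en1 / 4) + r ^ 2 / 4) * u ^ 2 + ((1 + ε) / 4 * r ^ 2 + K0 * ξ ^ 2)) +
          0 * max (-(u + h / 2)) 0 + κ * max (ξ - (1 + u)) 0
        nlinarith) (by
        intro u o s p q hu0 hu1 hp hq hpq hs hss ho1 ho2
        rw [← hen1] at hss
        have hpt := hN u p q ((o + (g1 + g2)) / 2) (o + mo S (x1 + x2)) s (en1 / 4) r ξ
          hu0 hu1 hp hq hpq (by linarith) hs (by linarith) (by linarith) (by linarith) hss
          hξ0 hξr hr9 hξ2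
        rw [← hL] at hpt
        refine hpt.trans (le_of_eq ?_)
        ring)
    refine ⟨fun i => min (GA i) (GC i), fun i => le_min (hGA i) (hGC i), fun i => ?_, ?_, ?_⟩
    · show (1 - beta S i) * (f1 i * f2 i) ≤ (M1 * M2 * (1 + r / 2) ^ 2) *
        (1 + st S (1 - X * (y1 + y2)) (x1 + x2) i + min (GA i) (GC i))
      rcases min_choice (GA i) (GC i) with h | h
      · rw [h, ← hL]; exact hGAb i
      · rw [h, ← hL]; exact hGCb i
    · rw [← hQ0, ← hδ, ← hDd, ← hen1]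
      refine le_trans ?_ hC
      have := mn_mono (f := fun i => min (GA i) (GC i)) (g := GC)
        (fun i => min_le_right _ _)
      linarith
    · intro _
      rw [← hQ0, ← hDd, ← hen1, ← hξ, ← hL]
      have h0 := mn_mono (f := fun i => min (GA i) (GC i)) (g := GA)
        (fun i => min_le_left _ _)
      have h1 := mn_T hK (x1 + x2) (y1 + y2) ((1 + ε) / 4) (-(r * ((1 + ε) / 2)))
        (e0 * (en1 / 4) + r ^ 2 / 4) ((1 + ε) / 4 * r ^ 2 + K0 * ξ ^ 2)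
        0 κ ξ (hsink ξ hξ0 (by linarith)) le_rfl hκ
      rw [← hQ0, ← hδ, ← hDd] at h1
      have h2 := div_le_div_of_nonneg_right h1 hL0.le
      rw [← hmA] at h2
      have e1 : (2 * ((1 + ε) / 4) * Q0 + 2 * (e0 * (en1 / 4) + r ^ 2 / 4) * D +
          2 * ((1 + ε) / 4 * r ^ 2 + K0 * ξ ^ 2) + 0 * Real.sqrt δ + κ * (ξ ^ 2 / 2)) / L =
          (((1 + ε) * Q0 + e0 * D * en1) + 2 * ((2 * K0 + κ / 2) * ξ ^ 2)) / (2 * L) +
            (1 + ε + D) * r ^ 2 / (2 * L) := by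
        field_simp
        ring
      rw [e1] at h2
      have h4 : (((1 + ε) * Q0 + e0 * D * en1) + 2 * ((2 * K0 + κ / 2) * ξ ^ 2)) / (2 * L) ≤
          (((1 + ε) * Q0 + e0 * D * en1) + 2 * ((2 * K0 + κ / 2) * ξ ^ 2)) / 2 := by
        apply div_le_div_of_nonneg_left (by positivity) (by norm_num) (by linarith)
      linarith
  · refine ⟨GC, hGC, fun i => ?_, ?_, fun h1 => ?_⟩
    · rw [← hL]; exact hGCb i
    · rw [← hQ0, ← hδ, ← hDd, ← hen1]
      exact hC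
    · exact absurd h1 (not_le.2 hr9)

end Raw

/-! ### the excess form, negative gain -/

/-- the condition on the loss side for a negative gain -/
def LossZN (D ε χ k θ B δ P : ℝ) : Prop := ∀ r : ℝ, 0 ≤ r →
  (r ≤ 9 / 10 ∧ 2 * Real.log (1 + r / 2) +
    k * ((1 + ε + D) * r ^ 2 / (2 * (1 + r / 2) ^ 2)) ≤ r + avz θ χ B r) ∨
  2 * Real.log (1 + r / 2) + k * (r / (1 + r / 2) * Real.sqrt δ) ≤ r + avz θ χ B r + P

/-- the condition on the loss side for every energy, negative gain -/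
def ZLoN (D ε χ k θ B K2 : ℝ) : Prop :=
  ∀ δ E, 0 ≤ δ → 0 ≤ E → δ ≤ D + E → LossZN D ε χ k θ B δ (K2 * E)

theorem LossAC.zloN {D ε χ k θ B p0 σ0 K : ℝ} (h : LossAC D ε χ k θ B p0 σ0 K)
    (hp : p0 ≤ 9 / 29) (hθχ : θ ≤ χ) (hD : D ≤ σ0 ^ 2) : ZLoN D ε χ k θ B (2 * K) := by
  intro δ E hδ hE hδE r hr
  rcases h.gen hθχ hD (show (0 : ℝ) ≤ 9 / 10 by norm_num) (by linarith) hδ hE hδE r hr with
    ⟨h1, h2⟩ | h2
  · left
    refine ⟨h1, le_trans ?_ h2⟩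
    have h3 : (1 + ε + D) * r ^ 2 / (2 * (1 + r / 2) ^ 2) ≤
        (1 + max ε r + D) * r ^ 2 / (2 * (1 + r / 2) ^ 2) := by
      apply div_le_div_of_nonneg_right _ (by positivity)
      apply mul_le_mul_of_nonneg_right _ (sq_nonneg r)
      linarith [le_max_left ε r]
    have := mul_le_mul_of_nonneg_left h3 h.hk
    linarith
  · right
    exact h2

theorem LossC.zloN {D D1 σ0 θ k K : ℝ} (h : LossC D1 σ0 θ k K) (hD : D ≤ D1) {χ : ℝ}
    (hθχ : θ ≤ χ) (ε B : ℝ) : ZLoN D ε χ k θ B (2 * K) := by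
  intro δ E hδ hE hδE r hr
  right
  have h1 := h.ineq hδ hE (by linarith) (r / 2) (by linarith)
  have h2 := avz_ge (B := B) (r := r) hθχ
  have e1 : k * (r / (1 + r / 2) * Real.sqrt δ) =
      2 * (k * (r / 2 / (1 + r / 2)) * Real.sqrt δ) := by
    have : (1 + r / 2) ≠ 0 := by positivity
    field_simp
  rw [e1]
  linarith

section Msg

variable {m : ℕ} {S : Fin m → Fin m → ℝ}

/-- **leaf and two branches behind positive edges, negative gain**, excess form -/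
theorem MMajE.zpc_neg (hK : Ker S) {f1 f2 : Fin m → ℝ} {x1 y1 x2 y2 : ℝ[X]}
    {χ b1 c1 b2 c2 b' c' : ℝ}
    (h1 : MMajE S f1 (1 - X * y1) x1 (mo S x1) χ b1 c1)
    (h2 : MMajE S f2 (1 - X * y2) x2 (mo S x2) χ b2 c2)
    (hsink : ∀ c : ℝ, 0 ≤ c → c ≤ 1 → (mn fun i => max (c - (1 + beta S i)) 0) ≤ c ^ 2 / 4)
    (G0 : ℝ) (hG : G0 ≤ mo S (x1 + x2)) (hG0 : G0 ≤ 0)
    (ε e0 K0 κ B1 B2 θ1 θ2 Q P1 P2 : ℝ) (hε : 0 < ε) (he0 : 1 + ε + 1 / (4 * ε) ≤ e0)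
    (hK0 : 0 ≤ K0) (hκ : 0 ≤ κ) (hN : ZNeg ε e0 K0 κ)
    (hθ10 : 0 ≤ θ1) (hθ1 : θ1 ≤ χ) (hθ20 : 0 ≤ θ2) (hθ2 : θ2 ≤ χ)
    (hP1 : 0 ≤ P1) (hP2 : 0 ≤ P2)
    (hQ : (1 + ε) * en S (-(X * (y1 + y2))) (x1 + x2) +
      e0 * dee S * en S (x1 + x2) (y1 + y2) +
      (4 * K0 + κ) * (max 0 (-(mo S (x1 + x2)))) ^ 2 ≤ Q)
    (hL1 : LossZN (dee S) ε χ 1 θ1 B1 (en S (halfx (y1 + y2)) (halfy (x1 + x2))) P1)
    (hL2 : LossZN (dee S) ε χ (1 + χ) θ2 B2 (en S (halfx (y1 + y2)) (halfy (x1 + x2))) P2)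
    (hb2 : b' ≤ b1 + b2 + G0 - Q / 2 - θ1 * (c1 + c2 - G0) - P1)
    (hb2' : b' ≤ b1 + b2 + G0 - Q / 2 - χ * (c1 + c2 - G0) - P1 + (χ - θ1) * B1)
    (hb3 : b' ≤ b1 + b2 + G0 - (1 + χ) * (Q / 2) - θ2 * (c1 + c2 - G0) - P2 + χ * c')
    (hb3' : b' ≤ b1 + b2 + G0 - (1 + χ) * (Q / 2) - χ * (c1 + c2 - G0) - P2 + χ * c' +
      (χ - θ2) * B2) :
    MajE S (fun i => (1 - beta S i) * (f1 i * f2 i)) (1 - X * (y1 + y2)) (x1 + x2) χ b' c' := by
  obtain ⟨e1, he1, k1⟩ := h1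
  obtain ⟨e2, he2, k2⟩ := h2
  have hχ0 : 0 ≤ χ := hθ10.trans hθ1
  have hχe1 : 0 ≤ χ * e1 := mul_nonneg hχ0 he1
  have hχe2 : 0 ≤ χ * e2 := mul_nonneg hχ0 he2
  obtain ⟨M1, g1, hM1, hg1, hgc1, hlog1, hf1, hb1'⟩ := k1
  obtain ⟨M2, g2, hM2, hg2, hgc2, hlog2, hf2, hb2''⟩ := k2
  obtain ⟨r, hr⟩ : ∃ r : ℝ, r = g1 + g2 - G0 := ⟨_, rfl⟩
  have hr0 : 0 ≤ r := by linarith
  obtain ⟨G, hGn, hGb, hmC, hmA⟩ := zn_raw hK (x1 := x1) (y1 := y1) (x2 := x2) (y2 := y2)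
    M1 M2 g1 g2 ε e0 K0 κ G0 r hM1 hM2 hf1 hf2 hb1' hb2'' hε he0 hK0 hκ hN (by linarith)
    hsink hG hG0 hr
  have h1r : 0 < (1 + r / 2) ^ 2 := by positivity
  have hrc : r ≤ (c1 + c2 - G0) + (e1 + e2) := by linarith
  have hξ : 0 ≤ (4 * K0 + κ) * (max 0 (-(mo S (x1 + x2)))) ^ 2 := by positivity
  have hav1 := avz_le (θ := θ1) (χ := χ) (B := B1) (v := b1 + b2 + G0 - Q / 2 - P1 - b')
    hθ10 hθ1 (add_nonneg he1 he2) hrc (by linarith) (by linarith)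
  have hav2 := avz_le (θ := θ2) (χ := χ) (B := B2)
    (v := b1 + b2 + G0 - (1 + χ) * (Q / 2) - P2 + χ * c' - b')
    hθ20 hθ2 (add_nonneg he1 he2) hrc (by linarith) (by linarith)
  have hmC' : 2 * mn G ≤ Q / 2 +
      r / (1 + r / 2) * Real.sqrt (en S (halfx (y1 + y2)) (halfy (x1 + x2))) := by linarith
  have hmA' : r ≤ 9 / 10 → 2 * mn G ≤ Q / 2 +
      (1 + ε + dee S) * r ^ 2 / (2 * (1 + r / 2) ^ 2) := by
    intro h
    have := hmA h
    linarith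
  have hval1 : 2 * Real.log (1 + r / 2) + 2 * mn G ≤ Q / 2 + r + avz θ1 χ B1 r + P1 := by
    rcases hL1 r hr0 with ⟨h4, h5⟩ | h5
    · have := hmA' h4
      linarith
    · linarith
  have hval2 : 2 * Real.log (1 + r / 2) + (1 + χ) * (2 * mn G) ≤
      (1 + χ) * (Q / 2) + r + avz θ2 χ B2 r + P2 := by
    rcases hL2 r hr0 with ⟨h4, h5⟩ | h5
    · have h6 := mul_le_mul_of_nonneg_left (hmA' h4) (show 0 ≤ 1 + χ by linarith)
      linarith
    · have h6 := mul_le_mul_of_nonneg_left hmC' (show 0 ≤ 1 + χ by linarith)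
      linarith
  refine ⟨max (2 * mn G - c') 0, le_max_right _ _, M1 * M2 * (1 + r / 2) ^ 2, G,
    by positivity, hGn, hGb, ?_, ?_⟩
  · rw [Real.log_mul (by positivity) h1r.ne', Real.log_mul hM1.ne' hM2.ne', Real.log_pow]
    push_cast
    rcases le_total (2 * mn G - c') 0 with h3 | h3
    · rw [max_eq_right h3, mul_zero, add_zero]
      linarith
    · rw [max_eq_left h3]
      linarith
  · have := le_max_left (2 * mn G - c') 0
    linarith

end Msg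

/-! ### the tree level -/

/-- the sink lemma -/
def SinkP : Prop := ∀ (m : ℕ) (S : Fin m → Fin m → ℝ), Ker S → ∀ c : ℝ, 0 ≤ c → c ≤ 1 →
  (mn fun i => max (c - (1 + beta S i)) 0) ≤ c ^ 2 / 4

/-- Cauchy-Schwarz for the spectral measure -/
theorem Rep.nu_sq {m : ℕ} {S : Fin m → Fin m → ℝ} {w t : Fin m → ℝ} (hR : Rep S w t)
    (f : ℝ → ℝ) : (nu w t f) ^ 2 ≤ dee S * nu w t fun a => f a ^ 2 := by
  have hD := hR.dee_nonneg
  have h1 : 0 ≤ ∑ j, w j * (f (t j) * dee S - nu w t f) ^ 2 :=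
    Finset.sum_nonneg fun j _ => mul_nonneg (hR.w0 j) (sq_nonneg _)
  have e1 : ∑ j, w j * (f (t j) * dee S - nu w t f) ^ 2 =
      dee S * (dee S * (nu w t fun a => f a ^ 2) - (nu w t f) ^ 2) := by
    have e2 : ∀ j, w j * (f (t j) * dee S - nu w t f) ^ 2 =
        dee S ^ 2 * (w j * f (t j) ^ 2) - 2 * dee S * nu w t f * (w j * f (t j)) +
          (nu w t f) ^ 2 * w j := by
      intro j; ring
    rw [Finset.sum_congr rfl fun j _ => e2 j, Finset.sum_add_distrib, Finset.sum_sub_distrib,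
      ← Finset.mul_sum, ← Finset.mul_sum, ← Finset.mul_sum, hR.sum_w]
    have e3 : ∑ j, w j * f (t j) = nu w t f := rfl
    have e4 : ∑ j, w j * f (t j) ^ 2 = nu w t fun a => f a ^ 2 := rfl
    rw [e3, e4]
    ring
  rw [e1] at h1
  rcases hD.eq_or_lt with h | h
  · have h2 : ∀ j ∈ Finset.univ, w j = 0 := by
      apply (Finset.sum_eq_zero_iff_of_nonneg fun j _ => hR.w0 j).1
      rw [hR.sum_w, ← h]
    have h3 : nu w t f = 0 := by
      unfold nu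
      exact Finset.sum_eq_zero fun j hj => by rw [h2 j hj, zero_mul]
    rw [h3, ← h]
    simp
  · have := nonneg_of_mul_nonneg_right h1 h
    linarith

/-- the loss side for a nonnegative integral of the gain; `μ1`, ..., `μ4` multipliers -/
def ZpL3 (χ D r : ℝ) (x U g V c V' c' : ℝ → ℝ) : Prop :=
  ∃ ε β1 β2 θ1 θ2 K1 K2 μ1 μ2 μ3 μ4 : ℝ, ∃ Ex q : ℝ → ℝ, 1 / 4 ≤ ε ∧ r * D ≤ 4 * ε ∧
    0 ≤ θ1 ∧ θ1 ≤ 1 ∧ θ1 ≤ χ ∧ 0 ≤ θ2 ∧ θ2 ≤ χ ∧ 0 ≤ K1 ∧ 0 ≤ K2 ∧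
    0 ≤ μ1 ∧ 0 ≤ μ2 ∧ 0 ≤ μ3 ∧ 0 ≤ μ4 ∧
    ZLo D ε χ 1 θ1 (β1 * D) K1 ∧ ZLo D ε χ (1 + χ) θ2 (β2 * D) K2 ∧
    ILe D (fun _ => 0) Ex ∧
    ILe D (fun a => (1 - a * U a / 2) ^ 2 + a * x a ^ 2 / 4) (fun a => 1 + Ex a) ∧
    ILe D (fun a => (1 + ε) * (a ^ 2 * U a ^ 2 + a * x a ^ 2) +
      (1 + ε + 1 / (4 * ε)) * D * (x a ^ 2 + a * U a ^ 2)) q ∧
    ILe D V' (fun a => V a + g a - 1 / 2 * q a - θ1 * (c a - g a) - K1 * Ex a - μ1 * g a) ∧
    ILe D V' (fun a => V a + g a - 1 / 2 * q a - χ * (c a - g a) - K1 * Ex a - μ2 * g a +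
      (χ - θ1) * β1) ∧
    ILe D V' (fun a => V a + g a - (1 + χ) / 2 * q a - θ2 * (c a - g a) - K2 * Ex a -
      μ3 * g a + χ * c' a) ∧
    ILe D V' (fun a => V a + g a - (1 + χ) / 2 * q a - χ * (c a - g a) - K2 * Ex a -
      μ4 * g a + χ * c' a + (χ - θ2) * β2)

/-- the loss side for a negative integral of the gain; `n` the negative part of the gain,
`ν1`, ..., `ν4` multipliers -/
def ZpN3 (χ D : ℝ) (x U g V c V' c' : ℝ → ℝ) : Prop :=
  ∃ ε e0 K0 κ β1 β2 θ1 θ2 K1 K2 ν1 ν2 ν3 ν4 : ℝ, ∃ n Ex q : ℝ → ℝ, 0 < ε ∧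
    1 + ε + 1 / (4 * ε) ≤ e0 ∧ 0 ≤ K0 ∧ 0 ≤ κ ∧ ZNeg ε e0 K0 κ ∧
    0 ≤ θ1 ∧ θ1 ≤ χ ∧ 0 ≤ θ2 ∧ θ2 ≤ χ ∧ 0 ≤ K1 ∧ 0 ≤ K2 ∧
    0 ≤ ν1 ∧ 0 ≤ ν2 ∧ 0 ≤ ν3 ∧ 0 ≤ ν4 ∧
    ZLoN D ε χ 1 θ1 (β1 * D) K1 ∧ ZLoN D ε χ (1 + χ) θ2 (β2 * D) K2 ∧
    ILe D n (fun _ => 0) ∧ ILe D n x ∧
    ILe D (fun _ => 0) Ex ∧
    ILe D (fun a => (1 - a * U a / 2) ^ 2 + a * x a ^ 2 / 4) (fun a => 1 + Ex a) ∧
    ILe D (fun a => (1 + ε) * (a ^ 2 * U a ^ 2 + a * x a ^ 2) +
      e0 * D * (x a ^ 2 + a * U a ^ 2) + (4 * K0 + κ) * D * n a ^ 2) q ∧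
    ILe D V' (fun a => V a + g a - 1 / 2 * q a - θ1 * (c a - g a) - K1 * Ex a + ν1 * g a) ∧
    ILe D V' (fun a => V a + g a - 1 / 2 * q a - χ * (c a - g a) - K1 * Ex a + ν2 * g a +
      (χ - θ1) * β1) ∧
    ILe D V' (fun a => V a + g a - (1 + χ) / 2 * q a - θ2 * (c a - g a) - K2 * Ex a +
      ν3 * g a + χ * c' a) ∧
    ILe D V' (fun a => V a + g a - (1 + χ) / 2 * q a - χ * (c a - g a) - K2 * Ex a +
      ν4 * g a + χ * c' a + (χ - θ2) * β2)

/-- leaf and two branches behind positive edges, excess form, both signs of the gain -/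
def ZpE3 (χ : ℝ → ℝ) (D : ℝ) (x U V c V' c' : ℝ → ℝ) : Prop :=
  ∃ r : ℝ, ∃ g : ℝ → ℝ, 0 ≤ r ∧ ILe D g x ∧ ILe D g (fun _ => r) ∧
    ZpG D r x U g V V' c' ∧ ZpL3 (χ D) D r x U g V c V' c' ∧
    (ILe D (fun _ => 0) g ∨ ZpN3 (χ D) D x U g V c V' c')

theorem GoodE.zpc3 (hsink : SinkP) {χ : ℝ → ℝ} {O1 O2 : OBr}
    {V1 c1 V2 c2 V' c' : ℝ → ℝ → ℝ}
    (h1 : GoodE χ O1 V1 c1) (h2 : GoodE χ O2 V2 c2) (e1 e2 e3 : Bool) (x U : ℝ → ℝ)
    (hx : ∀ a, sg e2 * (XX O1).eval a + sg e3 * (XX O2).eval a = x a)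
    (hU : ∀ a, (YY O1).eval a + (YY O2).eval a = U a)
    (H : ∀ D, RD D → ZpE3 χ D x U (fun a => V1 D a + V2 D a) (fun a => c1 D a + c2 D a)
      (V' D) (c' D)) :
    GoodE χ (.mk [cn false e1 .nil, cn true e2 O1, cn true e3 O2]) V' c' := by
  intro m S hS w t hR
  have hRD : RD (dee S) := ⟨hR.dee_nonneg, hR.dee_le⟩
  have hD := hR.dee_nonneg
  obtain ⟨r, g, hr0, hg, hgr, hG, hL, hNeg⟩ := H _ hRD
  have ex : XX (.mk [cn false e1 .nil, cn true e2 O1, cn true e3 O2]) =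
      1 - X * (YY O1 + YY O2) := by
    rw [XX_mk]
    simp only [List.map_cons, List.map_nil, List.sum_cons, List.sum_nil, add_zero, cn_fst, cn_YY,
      YY_nil, sg_true, sg_false, mul_zero, sub_zero, one_smul, neg_smul]
    ring
  have ey : YY (.mk [cn false e1 .nil, cn true e2 O1, cn true e3 O2]) =
      sg e2 • XX O1 + sg e3 • XX O2 := by
    rw [YY_mk]
    simp only [List.map_cons, List.map_nil, List.sum_cons, List.sum_nil, add_zero, cn_fst, cn_XX,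
      XX_nil, smul_zero, zero_add]
  have ev : (OBr.mk [cn false e1 .nil, cn true e2 O1, cn true e3 O2]).vS S =
      fun z => (1 - beta S z) * (ms S (cn true e2 O1) z * ms S (cn true e3 O2) z) := by
    funext z
    rw [vS_mk_ms]
    simp only [List.map_cons, List.map_nil, List.prod_cons, List.prod_nil, mul_one]
    have m1 : ms S (cn false e1 .nil) z = 1 - beta S z := by
      rw [ms_eq_msg, cn_fst, sg_false]
      have e4 : (cn false e1 .nil).2.vS S = fun _ => 1 := by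
        unfold cn
        dsimp only
        split_ifs <;> rfl
      rw [e4, msg_one hS]
      ring
    rw [m1]
  rw [ex, ey, ev]
  -- the messages
  have hM : ∀ (O : OBr) (V c : ℝ → ℝ → ℝ) (e : Bool), GoodE χ O V c →
      MMajE S (ms S (cn true e O)) (1 - X * YY O) (sg e • XX O) (mo S (sg e • XX O))
        (χ (dee S)) (nu w t (V (dee S))) (nu w t (c (dee S))) := by
    intro O V c e h
    have h3 := h.msg true e hS hR
    rw [sg_true, one_smul] at h3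
    have h4 : (nu w t fun a => sg e * (XX O).eval a) = mo S (sg e • XX O) := by
      rw [hR.mo_nu]
      congr 1
      funext a
      rw [eval_smul, smul_eq_mul]
    rw [h4] at h3
    exact h3
  have hM1 := hM O1 V1 c1 e2 h1
  have hM2 := hM O2 V2 c2 e3 h2
  -- the integrals
  have hxe : ∀ a, (sg e2 • XX O1 + sg e3 • XX O2).eval a = x a := by
    intro a
    rw [eval_add, eval_smul, eval_smul, smul_eq_mul, smul_eq_mul, hx]
  have hUe : ∀ a, (YY O1 + YY O2).eval a = U a := by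
    intro a
    rw [eval_add, hU]
  have hmo : mo S (sg e2 • XX O1 + sg e3 • XX O2) = nu w t x := by
    rw [hR.mo_nu]
    congr 1
    funext a
    rw [hxe]
  have hE0 : en S (-(X * (YY O1 + YY O2))) (sg e2 • XX O1 + sg e3 • XX O2) =
      nu w t fun a => a ^ 2 * U a ^ 2 + a * x a ^ 2 := by
    rw [hR.en_nu]
    congr 1
    funext a
    rw [hxe, eval_neg, eval_mul, eval_X, hUe]
    ring
  have hE1 : en S (sg e2 • XX O1 + sg e3 • XX O2) (YY O1 + YY O2) =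
      nu w t fun a => x a ^ 2 + a * U a ^ 2 := by
    rw [hR.en_nu]
    congr 1
    funext a
    rw [hxe, hUe]
  have hEh : en S (halfx (YY O1 + YY O2)) (halfy (sg e2 • XX O1 + sg e3 • XX O2)) =
      nu w t fun a => (1 - a * U a / 2) ^ 2 + a * x a ^ 2 / 4 := by
    rw [hR.en_nu]
    congr 1
    funext a
    unfold halfx halfy
    rw [eval_add, eval_one, eval_smul, eval_neg, eval_mul, eval_X, hUe, eval_smul, hxe]
    simp only [smul_eq_mul]
    ring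
  have hgx : nu w t g ≤ mo S (sg e2 • XX O1 + sg e3 • XX O2) := by
    rw [hmo]
    exact hg m S hS w t hR rfl
  have hgr' : nu w t g ≤ r * dee S := by
    have := hgr m S hS w t hR rfl
    rwa [hR.nu_const] at this
  have hrD : 0 ≤ r * dee S := mul_nonneg hr0 hD
  have hen0 : 0 ≤ en S (halfx (YY O1 + YY O2)) (halfy (sg e2 • XX O1 + sg e3 • XX O2)) :=
    en_nonneg hS.anti _ _
  have hDe : 0 ≤ dee S * en S (sg e2 • XX O1 + sg e3 • XX O2) (YY O1 + YY O2) :=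
    mul_nonneg hD (en_nonneg hS.anti _ _)
  rcases le_or_gt 0 (nu w t g) with hsgn | hsgn
  · -- nonnegative gain
    have hgain : ∀ g', 0 ≤ g' → g' ≤ nu w t g → ∃ L P,
        ZRule S (sg e2 • XX O1 + sg e3 • XX O2) (YY O1 + YY O2) g' L P ∧
        nu w t (V' (dee S)) + Real.log L + P ≤
          nu w t (V1 (dee S)) + nu w t (V2 (dee S)) + g' ∧ P ≤ nu w t (c' (dee S)) := by
      rcases hG with ⟨CA, CE, ψ, q, hr3, hCA, hCE, hcap, hq, hb1, hc1⟩ |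
        ⟨ε, η, I, q, hK, hI, hq, hb1, hc1⟩
      · refine star_gain hS CA CE (r * dee S) (nu w t g) (nu w t q) _ _ _ hgx hgr' hr3 hrD hCA
          hCE ?_ ?_ ?_ ?_
        · rcases hcap with ⟨h3, h4⟩ | h3
          · left
            have h5 := h3 m S hS w t hR rfl
            rw [hR.nu_const] at h5
            rw [hE1]
            linarith
          · right
            have := mul_le_mul_of_nonneg_right h3 hD
            linarith
        · have h3 := hq m S hS w t hR rfl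
          rw [nu_add, nu_mul, nu_mul] at h3
          rw [hE0, hE1]
          linarith
        · have h3 := hb1 m S hS w t hR rfl
          rw [nu_sub, nu_add, nu_add, nu_mul] at h3
          exact h3
        · exact hc1 m S hS w t hR rfl
      · have h1P : 0 < 1 - r * dee S := by linarith [hK.hr]
        have hI1 : 1 / (2 * (1 - r * dee S)) ≤ I := by
          rw [div_le_iff₀ (by positivity)]
          exact hI
        have hQ : (1 + ε) * en S (-(X * (YY O1 + YY O2))) (sg e2 • XX O1 + sg e3 • XX O2) +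
            (1 + ε + 1 / (4 * ε)) * dee S *
              en S (sg e2 • XX O1 + sg e3 • XX O2) (YY O1 + YY O2) ≤ nu w t q := by
          have h3 := hq m S hS w t hR rfl
          rw [nu_add, nu_mul, nu_mul] at h3
          rw [hE0, hE1]
          exact h3
        have hQ0 : 0 ≤ nu w t q := by
          refine le_trans ?_ hQ
          have h1 := en_nonneg (S := S) hS.anti (-(X * (YY O1 + YY O2)))
            (sg e2 • XX O1 + sg e3 • XX O2)
          have h2 := en_nonneg (S := S) hS.anti (sg e2 • XX O1 + sg e3 • XX O2) (YY O1 + YY O2)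
          have h3 := hK.hε
          positivity
        have hdiv : nu w t q / (2 * (1 - r * dee S)) ≤ I * nu w t q := by
          rw [div_eq_mul_one_div, mul_comm]
          exact mul_le_mul_of_nonneg_right hI1 hQ0
        refine old_gain hS ε η (r * dee S) (nu w t g) (nu w t q) _ _ _ hK.hε hgx hgr' hK.hr
          hK.hrε hK.hη1 (fun ρ h0 h1 => zpc_h ρ _ _ _ hK.hr h1 h0 hK.hε.le hK.hη) hQ ?_ ?_
        · have h3 := hb1 m S hS w t hR rfl
          rw [nu_sub, nu_add, nu_add, nu_mul, nu_mul] at h3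
          linarith
        · intro h4
          have h3 := hc1 m S hS w t hR rfl
          rw [nu_add, nu_mul, nu_mul] at h3
          have h5 : (2 + ε) * (r * dee S) / (2 * (1 - r * dee S)) * nu w t g ≤
              (2 + ε) * (r * dee S) * I * nu w t g := by
            apply mul_le_mul_of_nonneg_right _ h4
            rw [div_eq_mul_one_div]
            exact mul_le_mul_of_nonneg_left hI1 (mul_nonneg (by linarith [hK.hε]) hrD)
          linarith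
    obtain ⟨ε, β1, β2, θ1, θ2, K1, K2, μ1, μ2, μ3, μ4, Ex, q, hε, hrε, hθ10, hθ11, hθ1, hθ20,
      hθ2, hK1, hK2, hμ1, hμ2, hμ3, hμ4, hL1, hL2, hEx0, hEx, hq, hb2, hb2', hb3, hb3'⟩ := hL
    have hEx0' : 0 ≤ nu w t Ex := by
      have := hEx0 m S hS w t hR rfl
      rwa [nu_zero] at this
    have hδ : en S (halfx (YY O1 + YY O2)) (halfy (sg e2 • XX O1 + sg e3 • XX O2)) ≤
        dee S + nu w t Ex := by
      rw [hEh]
      have h3 := hEx m S hS w t hR rfl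
      have h4 : (nu w t fun a => 1 + Ex a) = dee S + nu w t Ex := by
        rw [nu_add, hR.nu_const, one_mul]
      rwa [h4] at h3
    have hq' : (1 + ε) * en S (-(X * (YY O1 + YY O2))) (sg e2 • XX O1 + sg e3 • XX O2) +
        (1 + ε + 1 / (4 * ε)) * dee S *
          en S (sg e2 • XX O1 + sg e3 • XX O2) (YY O1 + YY O2) ≤ nu w t q := by
      have h3 := hq m S hS w t hR rfl
      rw [nu_add, nu_mul, nu_mul] at h3
      rw [hE0, hE1]
      exact h3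
    have hg1 := mul_nonneg hμ1 hsgn
    have hg2 := mul_nonneg hμ2 hsgn
    have hg3 := mul_nonneg hμ3 hsgn
    have hg4 := mul_nonneg hμ4 hsgn
    refine hM1.zpc hS hM2 (nu w t g) hgx hgain ε (β1 * dee S) (β2 * dee S) θ1 θ2 0
      (nu w t q) (K1 * nu w t Ex) (K2 * nu w t Ex) hε (by linarith) le_rfl hsgn hθ10 hθ11 hθ1
      hθ20 hθ2 (mul_nonneg hK1 hEx0') (mul_nonneg hK2 hEx0') hq'
      (fun h => absurd h (not_lt.2 hsgn))
      (hL1 _ _ hen0 hEx0' hδ) (hL2 _ _ hen0 hEx0' hδ) ?_ ?_ ?_ ?_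
    · have h3 := hb2 m S hS w t hR rfl
      rw [nu_sub, nu_sub, nu_sub, nu_sub, nu_add, nu_add, nu_mul, nu_mul, nu_mul, nu_mul,
        nu_sub, nu_add] at h3
      linarith
    · have h3 := hb2' m S hS w t hR rfl
      rw [nu_add, nu_sub, nu_sub, nu_sub, nu_sub, nu_add, nu_add, nu_mul, nu_mul, nu_mul, nu_mul,
        nu_sub, nu_add, hR.nu_const] at h3
      linarith
    · have h3 := hb3 m S hS w t hR rfl
      rw [nu_add, nu_sub, nu_sub, nu_sub, nu_sub, nu_add, nu_add, nu_mul, nu_mul, nu_mul, nu_mul,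
        nu_mul, nu_sub, nu_add] at h3
      linarith
    · have h3 := hb3' m S hS w t hR rfl
      rw [nu_add, nu_add, nu_sub, nu_sub, nu_sub, nu_sub, nu_add, nu_add, nu_mul, nu_mul, nu_mul,
        nu_mul, nu_mul, nu_sub, nu_add, hR.nu_const] at h3
      linarith
  · -- negative gain
    rcases hNeg with h | hN
    · exfalso
      have h3 := h m S hS w t hR rfl
      rw [nu_zero] at h3
      linarith
    obtain ⟨ε, e0, K0, κ, β1, β2, θ1, θ2, K1, K2, ν1, ν2, ν3, ν4, n, Ex, q, hε, he0, hK0, hκ,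
      hZN, hθ10, hθ1, hθ20, hθ2, hK1, hK2, hν1, hν2, hν3, hν4, hL1, hL2, hn0, hnx, hEx0, hEx,
      hq, hb2, hb2', hb3, hb3'⟩ := hN
    have hEx0' : 0 ≤ nu w t Ex := by
      have := hEx0 m S hS w t hR rfl
      rwa [nu_zero] at this
    have hδ : en S (halfx (YY O1 + YY O2)) (halfy (sg e2 • XX O1 + sg e3 • XX O2)) ≤
        dee S + nu w t Ex := by
      rw [hEh]
      have h3 := hEx m S hS w t hR rfl
      have h4 : (nu w t fun a => 1 + Ex a) = dee S + nu w t Ex := by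
        rw [nu_add, hR.nu_const, one_mul]
      rwa [h4] at h3
    have hn0' : nu w t n ≤ 0 := by
      have := hn0 m S hS w t hR rfl
      rwa [nu_zero] at this
    have hnx' : nu w t n ≤ mo S (sg e2 • XX O1 + sg e3 • XX O2) := by
      rw [hmo]
      exact hnx m S hS w t hR rfl
    have hξ : (max 0 (-(mo S (sg e2 • XX O1 + sg e3 • XX O2)))) ^ 2 ≤
        dee S * nu w t fun a => n a ^ 2 := by
      refine le_trans ?_ (hR.nu_sq n)
      rw [← neg_sq (nu w t n)]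
      exact pow_le_pow_left₀ (le_max_left _ _) (max_le (by linarith) (by linarith)) 2
    have hq' : (1 + ε) * en S (-(X * (YY O1 + YY O2))) (sg e2 • XX O1 + sg e3 • XX O2) +
        e0 * dee S * en S (sg e2 • XX O1 + sg e3 • XX O2) (YY O1 + YY O2) +
        (4 * K0 + κ) * (max 0 (-(mo S (sg e2 • XX O1 + sg e3 • XX O2)))) ^ 2 ≤ nu w t q := by
      have h3 := hq m S hS w t hR rfl
      rw [nu_add, nu_add, nu_mul, nu_mul, nu_mul] at h3
      rw [hE0, hE1]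
      have h4 := mul_le_mul_of_nonneg_left hξ (show 0 ≤ 4 * K0 + κ by positivity)
      linarith
    have hg1 := mul_nonpos_of_nonneg_of_nonpos hν1 hsgn.le
    have hg2 := mul_nonpos_of_nonneg_of_nonpos hν2 hsgn.le
    have hg3 := mul_nonpos_of_nonneg_of_nonpos hν3 hsgn.le
    have hg4 := mul_nonpos_of_nonneg_of_nonpos hν4 hsgn.le
    refine hM1.zpc_neg hS hM2 (hsink m S hS) (nu w t g) hgx hsgn.le ε e0 K0 κ (β1 * dee S)
      (β2 * dee S) θ1 θ2 (nu w t q) (K1 * nu w t Ex) (K2 * nu w t Ex) hε he0 hK0 hκ hZN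
      hθ10 hθ1 hθ20 hθ2 (mul_nonneg hK1 hEx0') (mul_nonneg hK2 hEx0') hq'
      (hL1 _ _ hen0 hEx0' hδ) (hL2 _ _ hen0 hEx0' hδ) ?_ ?_ ?_ ?_
    · have h3 := hb2 m S hS w t hR rfl
      rw [nu_add, nu_sub, nu_sub, nu_sub, nu_add, nu_add, nu_mul, nu_mul, nu_mul, nu_mul,
        nu_sub, nu_add] at h3
      linarith
    · have h3 := hb2' m S hS w t hR rfl
      rw [nu_add, nu_add, nu_sub, nu_sub, nu_sub, nu_add, nu_add, nu_mul, nu_mul, nu_mul, nu_mul,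
        nu_sub, nu_add, hR.nu_const] at h3
      linarith
    · have h3 := hb3 m S hS w t hR rfl
      rw [nu_add, nu_add, nu_sub, nu_sub, nu_sub, nu_add, nu_add, nu_mul, nu_mul, nu_mul, nu_mul,
        nu_mul, nu_sub, nu_add] at h3
      linarith
    · have h3 := hb3' m S hS w t hR rfl
      rw [nu_add, nu_add, nu_add, nu_sub, nu_sub, nu_sub, nu_add, nu_add, nu_mul, nu_mul, nu_mul,
        nu_mul, nu_mul, nu_sub, nu_add, hR.nu_const] at h3
      linarith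

theorem GoodE.zp3 (hsink : SinkP) {χ : ℝ → ℝ} {O : OBr} {V c V' c' : ℝ → ℝ → ℝ}
    (h : GoodE χ O V c)
    (e1 e2 e3 : Bool) (x y : ℝ → ℝ) (hx : ∀ a, sg e2 + sg e3 * (XX O).eval a = x a)
    (hy : ∀ a, (YY O).eval a = y a)
    (H : ∀ D, RD D → ZpE3 χ D x y (V D) (c D) (V' D) (c' D)) :
    GoodE χ (.mk [cn false e1 .nil, cn true e2 TSM.two, cn true e3 O]) V' c' := by
  have hYtwo : YY TSM.two = 0 := by
    unfold TSM.two
    rw [YY_cons, XX_nil, YY_nil]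
    simp
  have hXtwo : XX TSM.two = 1 := by
    unfold TSM.two
    rw [XX_cons, XX_nil, YY_nil, sg_true]
    simp
  refine (goodE_two χ).zpc3 hsink h e1 e2 e3 x y (fun a => ?_) (fun a => ?_) (fun D hD => ?_)
  · rw [hXtwo, eval_one, mul_one, hx]
  · rw [hYtwo, eval_zero, zero_add, hy]
  · have h1 := H D hD
    have e4 : (fun a => (fun _ _ => (0 : ℝ)) D a + V D a) = V D := by
      funext a; simp
    have e5 : (fun a => (fun _ _ => (0 : ℝ)) D a + c D a) = c D := by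
      funext a; simp
    rw [e4, e5]
    exact h1

end Pool.Agent.TSM
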